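import Pool.Agent.Lib.G6.BRed
import Pool.Agent.Lib.G6D.RF1

set_option autoImplicit false
set_option maxRecDepth 100000
set_option linter.all false

namespace Pool.Agent.Lib.G6.B

theorem rf1h0 : AllL LnOK rf1l0 := batch_of rf1th.1
theorem rf1h1 : AllL LnOK rf1l1 := batch_of rf1th.2.1
theorem rf1h2 : AllL LnOK rf1l10 := batch_of rf1th.2.2.2.2.2.2.2.2.2.2.1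
theorem rf1h3 : AllL LnOK rf1l11 := batch_of rf1th.2.2.2.2.2.2.2.2.2.2.2.1
theorem rf1h4 : AllL LnOK rf1l12 := batch_of rf1th.2.2.2.2.2.2.2.2.2.2.2.2.1
theorem rf1h5 : AllL LnOK rf1l13 := batch_of rf1th.2.2.2.2.2.2.2.2.2.2.2.2.2.1
theorem rf1h6 : AllL LnOK rf1l14 := batch_of rf1th.2.2.2.2.2.2.2.2.2.2.2.2.2.2.1
theorem rf1h7 : AllL LnOK rf1l15 := batch_of rf1th.2.2.2.2.2.2.2.2.2.2.2.2.2.2.2.1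
theorem rf1h8 : AllL LnOK rf1l16 := batch_of rf1th.2.2.2.2.2.2.2.2.2.2.2.2.2.2.2.2.1
theorem rf1h9 : AllL LnOK rf1l17 := batch_of rf1th.2.2.2.2.2.2.2.2.2.2.2.2.2.2.2.2.2.1
theorem rf1h10 : AllL LnOK rf1l18 := batch_of rf1th.2.2.2.2.2.2.2.2.2.2.2.2.2.2.2.2.2.2.1
theorem rf1h11 : AllL LnOK rf1l19 := batch_of rf1th.2.2.2.2.2.2.2.2.2.2.2.2.2.2.2.2.2.2.2.1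
theorem rf1h12 : AllL LnOK rf1l2 := batch_of rf1th.2.2.1
theorem rf1h13 : AllL LnOK rf1l20 := batch_of rf1th.2.2.2.2.2.2.2.2.2.2.2.2.2.2.2.2.2.2.2.2.1
theorem rf1h14 : AllL LnOK rf1l21 := batch_of rf1th.2.2.2.2.2.2.2.2.2.2.2.2.2.2.2.2.2.2.2.2.2.1
theorem rf1h15 : AllL LnOK rf1l22 := batch_of rf1th.2.2.2.2.2.2.2.2.2.2.2.2.2.2.2.2.2.2.2.2.2.2.1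
theorem rf1h16 : AllL LnOK rf1l23 := batch_of rf1th.2.2.2.2.2.2.2.2.2.2.2.2.2.2.2.2.2.2.2.2.2.2.2.1
theorem rf1h17 : AllL LnOK rf1l24 := batch_of rf1th.2.2.2.2.2.2.2.2.2.2.2.2.2.2.2.2.2.2.2.2.2.2.2.2.1
theorem rf1h18 : AllL LnOK rf1l25 := batch_of rf1th.2.2.2.2.2.2.2.2.2.2.2.2.2.2.2.2.2.2.2.2.2.2.2.2.2.1
theorem rf1h19 : AllL LnOK rf1l26 := batch_of rf1th.2.2.2.2.2.2.2.2.2.2.2.2.2.2.2.2.2.2.2.2.2.2.2.2.2.2.1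
theorem rf1h20 : AllL LnOK rf1l27 := batch_of rf1th.2.2.2.2.2.2.2.2.2.2.2.2.2.2.2.2.2.2.2.2.2.2.2.2.2.2.2.1
theorem rf1h21 : AllL LnOK rf1l28 := batch_of rf1th.2.2.2.2.2.2.2.2.2.2.2.2.2.2.2.2.2.2.2.2.2.2.2.2.2.2.2.2.1
theorem rf1h22 : AllL LnOK rf1l29 := batch_of rf1th.2.2.2.2.2.2.2.2.2.2.2.2.2.2.2.2.2.2.2.2.2.2.2.2.2.2.2.2.2.1
theorem rf1h23 : AllL LnOK rf1l3 := batch_of rf1th.2.2.2.1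
theorem rf1h24 : AllL LnOK rf1l30 := batch_of rf1th.2.2.2.2.2.2.2.2.2.2.2.2.2.2.2.2.2.2.2.2.2.2.2.2.2.2.2.2.2.2.1
theorem rf1h25 : AllL LnOK rf1l31 := batch_of rf1th.2.2.2.2.2.2.2.2.2.2.2.2.2.2.2.2.2.2.2.2.2.2.2.2.2.2.2.2.2.2.2.1
theorem rf1h26 : AllL LnOK rf1l32 := batch_of rf1th.2.2.2.2.2.2.2.2.2.2.2.2.2.2.2.2.2.2.2.2.2.2.2.2.2.2.2.2.2.2.2.2.1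
theorem rf1h27 : AllL LnOK rf1l33 := batch_of rf1th.2.2.2.2.2.2.2.2.2.2.2.2.2.2.2.2.2.2.2.2.2.2.2.2.2.2.2.2.2.2.2.2.2.1
theorem rf1h28 : AllL LnOK rf1l34 := batch_of rf1th.2.2.2.2.2.2.2.2.2.2.2.2.2.2.2.2.2.2.2.2.2.2.2.2.2.2.2.2.2.2.2.2.2.2.1
theorem rf1h29 : AllL LnOK rf1l35 := batch_of rf1th.2.2.2.2.2.2.2.2.2.2.2.2.2.2.2.2.2.2.2.2.2.2.2.2.2.2.2.2.2.2.2.2.2.2.2.1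
theorem rf1h30 : AllL LnOK rf1l36 := batch_of rf1th.2.2.2.2.2.2.2.2.2.2.2.2.2.2.2.2.2.2.2.2.2.2.2.2.2.2.2.2.2.2.2.2.2.2.2.2.1
theorem rf1h31 : AllL LnOK rf1l37 := batch_of rf1th.2.2.2.2.2.2.2.2.2.2.2.2.2.2.2.2.2.2.2.2.2.2.2.2.2.2.2.2.2.2.2.2.2.2.2.2.2.1
theorem rf1h32 : AllL LnOK rf1l38 := batch_of rf1th.2.2.2.2.2.2.2.2.2.2.2.2.2.2.2.2.2.2.2.2.2.2.2.2.2.2.2.2.2.2.2.2.2.2.2.2.2.2.1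
theorem rf1h33 : AllL LnOK rf1l39 := batch_of rf1th.2.2.2.2.2.2.2.2.2.2.2.2.2.2.2.2.2.2.2.2.2.2.2.2.2.2.2.2.2.2.2.2.2.2.2.2.2.2.2.1
theorem rf1h34 : AllL LnOK rf1l4 := batch_of rf1th.2.2.2.2.1
theorem rf1h35 : AllL LnOK rf1l40 := batch_of rf1th.2.2.2.2.2.2.2.2.2.2.2.2.2.2.2.2.2.2.2.2.2.2.2.2.2.2.2.2.2.2.2.2.2.2.2.2.2.2.2.2.1
theorem rf1h36 : AllL LnOK rf1l41 := batch_of rf1th.2.2.2.2.2.2.2.2.2.2.2.2.2.2.2.2.2.2.2.2.2.2.2.2.2.2.2.2.2.2.2.2.2.2.2.2.2.2.2.2.2.1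
theorem rf1h37 : AllL LnOK rf1l42 := batch_of rf1th.2.2.2.2.2.2.2.2.2.2.2.2.2.2.2.2.2.2.2.2.2.2.2.2.2.2.2.2.2.2.2.2.2.2.2.2.2.2.2.2.2.2.1
theorem rf1h38 : AllL LnOK rf1l43 := batch_of rf1th.2.2.2.2.2.2.2.2.2.2.2.2.2.2.2.2.2.2.2.2.2.2.2.2.2.2.2.2.2.2.2.2.2.2.2.2.2.2.2.2.2.2.2.1
theorem rf1h39 : AllL LnOK rf1l44 := batch_of rf1th.2.2.2.2.2.2.2.2.2.2.2.2.2.2.2.2.2.2.2.2.2.2.2.2.2.2.2.2.2.2.2.2.2.2.2.2.2.2.2.2.2.2.2.2.1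
theorem rf1h40 : AllL LnOK rf1l45 := batch_of rf1th.2.2.2.2.2.2.2.2.2.2.2.2.2.2.2.2.2.2.2.2.2.2.2.2.2.2.2.2.2.2.2.2.2.2.2.2.2.2.2.2.2.2.2.2.2.1
theorem rf1h41 : AllL LnOK rf1l46 := batch_of rf1th.2.2.2.2.2.2.2.2.2.2.2.2.2.2.2.2.2.2.2.2.2.2.2.2.2.2.2.2.2.2.2.2.2.2.2.2.2.2.2.2.2.2.2.2.2.2.1
theorem rf1h42 : AllL LnOK rf1l47 := batch_of rf1th.2.2.2.2.2.2.2.2.2.2.2.2.2.2.2.2.2.2.2.2.2.2.2.2.2.2.2.2.2.2.2.2.2.2.2.2.2.2.2.2.2.2.2.2.2.2.2.1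
theorem rf1h43 : AllL LnOK rf1l48 := batch_of rf1th.2.2.2.2.2.2.2.2.2.2.2.2.2.2.2.2.2.2.2.2.2.2.2.2.2.2.2.2.2.2.2.2.2.2.2.2.2.2.2.2.2.2.2.2.2.2.2.2.1
theorem rf1h44 : AllL LnOK rf1l49 := batch_of rf1th.2.2.2.2.2.2.2.2.2.2.2.2.2.2.2.2.2.2.2.2.2.2.2.2.2.2.2.2.2.2.2.2.2.2.2.2.2.2.2.2.2.2.2.2.2.2.2.2.2
theorem rf1h45 : AllL LnOK rf1l5 := batch_of rf1th.2.2.2.2.2.1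
theorem rf1h46 : AllL LnOK rf1l6 := batch_of rf1th.2.2.2.2.2.2.1
theorem rf1h47 : AllL LnOK rf1l7 := batch_of rf1th.2.2.2.2.2.2.2.1
theorem rf1h48 : AllL LnOK rf1l8 := batch_of rf1th.2.2.2.2.2.2.2.2.1
theorem rf1h49 : AllL LnOK rf1l9 := batch_of rf1th.2.2.2.2.2.2.2.2.2.1
theorem rf1k0 : CfgOK (rf1c0.e, rf1c0.n) := red_ln rf1h1.2.2.2.2.2.2.2.2.2.1 ⟨rf1h1.2.2.2.2.2.2.2.2.2.1.1, rf1h34.2.2.2.2.2.2.2.2.2.2.2.2.2.2.2.2.2.2.2.2.2.1.1⟩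
theorem rf1k1 : CfgOK (rf1c1.e, rf1c1.n) := red_ln rf1h1.2.2.2.2.2.2.2.2.1 ⟨rf1h1.2.2.2.2.2.2.2.2.1.1, rf1h34.2.2.2.2.2.2.2.2.2.2.2.2.2.2.2.2.2.2.2.2.1.1⟩
theorem rf1k2 : CfgOK (rf1c2.e, rf1c2.n) := red_ln rf1h1.2.2.2.2.2.2.2.1 ⟨rf1h1.2.2.2.2.2.2.2.1.1, rf1h34.2.2.2.2.2.2.2.2.2.2.2.2.2.2.2.2.2.2.2.1.1⟩
theorem rf1k3 : CfgOK (rf1c3.e, rf1c3.n) := red_ln rf1h1.2.2.2.2.2.2.1 ⟨⟨rf1h1.2.2.2.2.2.2.1.1, rf1h46.2.2.2.2.2.2.2.2.2.2.2.2.2.2.2.2.2.2.2.2.2.2.2.2.1.1⟩, ⟨rf1h34.2.2.2.2.2.2.2.2.2.2.2.2.2.2.2.2.2.2.1.1, rf1h49.2.2.2.2.2.2.2.2.2.2.2.2.2.1.1⟩⟩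
theorem rf1k4 : CfgOK (rf1c4.e, rf1c4.n) := red_ln rf1h1.2.2.2.2.2.1 ⟨⟨rf1h1.2.2.2.2.2.1.1, rf1h46.2.2.2.2.2.2.2.2.2.2.2.2.2.2.2.2.2.2.2.2.2.2.2.1.1⟩, ⟨rf1h34.2.2.2.2.2.2.2.2.2.2.2.2.2.2.2.2.2.1.1, rf1h49.2.2.2.2.2.2.2.2.2.2.2.2.1.1⟩⟩
theorem rf1k5 : CfgOK (rf1c5.e, rf1c5.n) := red_ln rf1h1.2.2.2.2.1 ⟨⟨rf1h1.2.2.2.2.1.1, rf1h46.2.2.2.2.2.2.2.2.2.2.2.2.2.2.2.2.2.2.2.2.2.2.1.1⟩, ⟨rf1h34.2.2.2.2.2.2.2.2.2.2.2.2.2.2.2.2.1.1, rf1h49.2.2.2.2.2.2.2.2.2.2.2.1.1⟩⟩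
theorem rf1k6 : CfgOK (rf1c6.e, rf1c6.n) := red_ln rf1h1.2.2.2.1 ⟨⟨rf1h1.2.2.2.1.1, rf1h46.2.2.2.2.2.2.2.2.2.2.2.2.2.2.2.2.2.2.2.2.2.1.1⟩, ⟨rf1h34.2.2.2.2.2.2.2.2.2.2.2.2.2.2.2.1.1, rf1h49.2.2.2.2.2.2.2.2.2.2.1.1⟩⟩
theorem rf1k7 : CfgOK (rf1c7.e, rf1c7.n) := red_ln rf1h1.2.2.1 ⟨⟨rf1h1.2.2.1.1, rf1h46.2.2.2.2.2.2.2.2.2.2.2.2.2.2.2.2.2.2.2.2.1.1⟩, ⟨rf1h34.2.2.2.2.2.2.2.2.2.2.2.2.2.2.1.1, rf1h49.2.2.2.2.2.2.2.2.2.1.1⟩⟩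
theorem rf1k8 : CfgOK (rf1c8.e, rf1c8.n) := red_ln rf1h1.2.1 ⟨⟨rf1h1.2.1.1, rf1h46.2.2.2.2.2.2.2.2.2.2.2.2.2.2.2.2.2.2.2.1.1⟩, ⟨rf1h34.2.2.2.2.2.2.2.2.2.2.2.2.2.1.1, rf1h49.2.2.2.2.2.2.2.2.1.1⟩⟩
theorem rf1k9 : CfgOK (rf1c9.e, rf1c9.n) := red_ln rf1h1.1 ⟨⟨rf1h1.1.1, rf1h46.2.2.2.2.2.2.2.2.2.2.2.2.2.2.2.2.2.2.1.1⟩, ⟨rf1h34.2.2.2.2.2.2.2.2.2.2.2.2.1.1, rf1h49.2.2.2.2.2.2.2.1.1⟩⟩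
theorem rf1k10 : CfgOK (rf1c10.e, rf1c10.n) := red_ln rf1h0.2.2.2.2.2.2.2.2.2.2.2.2.2.2.2.2.2.2.2.2.2.2.2.2.2.2.2.2.2.1 ⟨⟨⟨rf1h0.2.2.2.2.2.2.2.2.2.2.2.2.2.2.2.2.2.2.2.2.2.2.2.2.2.2.2.2.2.1.1, rf1h46.2.2.2.2.2.2.2.2.2.2.2.2.2.2.2.2.2.1.1⟩, ⟨rf1h46.2.2.2.2.2.2.2.2.2.2.2.2.2.2.2.2.2.2.2.2.2.2.2.2.2.2.2.2.1.1, rf1h2.2.2.2.2.2.2.2.2.2.1.1⟩⟩, ⟨⟨rf1h34.2.2.2.2.2.2.2.2.2.2.2.1.1, rf1h49.2.2.2.2.2.2.1.1⟩, ⟨rf1h49.2.2.2.2.2.1.1, rf1h3.2.2.2.2.2.2.1.1⟩⟩⟩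
theorem rf1k11 : CfgOK (rf1c11.e, rf1c11.n) := red_ln rf1h0.2.2.2.2.2.2.2.2.2.2.2.2.2.2.2.2.2.2.2.2.2.2.2.2.2.2.2.2.1 ⟨⟨⟨rf1h0.2.2.2.2.2.2.2.2.2.2.2.2.2.2.2.2.2.2.2.2.2.2.2.2.2.2.2.2.1.1, rf1h46.2.2.2.2.2.2.2.2.2.2.2.2.2.2.2.2.1.1⟩, ⟨rf1h46.2.2.2.2.2.2.2.2.2.2.2.2.2.2.2.1.1, rf1h2.2.2.2.1.1⟩⟩, ⟨⟨rf1h34.2.2.2.2.2.2.2.2.2.2.1.1, rf1h49.2.2.2.2.1.1⟩, ⟨rf1h49.2.2.2.1.1, rf1h3.2.2.2.2.2.1.1⟩⟩⟩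
theorem rf1k12 : CfgOK (rf1c12.e, rf1c12.n) := red_ln rf1h0.2.2.2.2.2.2.2.2.2.2.2.2.2.2.2.2.2.2.2.2.2.2.2.2.2.2.2.1 ⟨⟨rf1h0.2.2.2.2.2.2.2.2.2.2.2.2.2.2.2.2.2.2.2.2.2.2.2.2.2.2.2.1.1, rf1h46.2.2.2.2.2.2.2.2.2.2.1.1⟩, ⟨rf1h34.2.2.2.2.2.2.2.2.2.1.1, rf1h49.2.2.1.1⟩⟩
theorem rf1k13 : CfgOK (rf1c13.e, rf1c13.n) := red_ln rf1h0.2.2.2.2.2.2.2.2.2.2.2.2.2.2.2.2.2.2.2.2.2.2.2.2.2.2.1 ⟨⟨rf1h0.2.2.2.2.2.2.2.2.2.2.2.2.2.2.2.2.2.2.2.2.2.2.2.2.2.2.1.1, rf1h46.2.2.2.2.2.2.2.2.2.1.1⟩, ⟨rf1h34.2.2.2.2.2.2.2.2.1.1, rf1h49.2.1.1⟩⟩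
theorem rf1k14 : CfgOK (rf1c14.e, rf1c14.n) := red_ln rf1h0.2.2.2.2.2.2.2.2.2.2.2.2.2.2.2.2.2.2.2.2.2.2.2.2.2.1 ⟨⟨rf1h0.2.2.2.2.2.2.2.2.2.2.2.2.2.2.2.2.2.2.2.2.2.2.2.2.2.1.1, rf1h46.2.2.2.2.2.2.2.2.1.1⟩, ⟨rf1h34.2.2.2.2.2.2.2.1.1, rf1h49.1.1⟩⟩
theorem rf1k15 : CfgOK (rf1c15.e, rf1c15.n) := red_ln rf1h0.2.2.2.2.2.2.2.2.2.2.2.2.2.2.2.2.2.2.2.2.2.2.2.2.1 ⟨⟨rf1h0.2.2.2.2.2.2.2.2.2.2.2.2.2.2.2.2.2.2.2.2.2.2.2.2.1.1, rf1h46.2.2.2.2.2.2.2.1.1⟩, ⟨rf1h34.2.2.2.2.2.2.1.1, rf1h48.2.2.2.2.2.2.2.2.2.2.2.2.2.2.2.2.2.2.2.2.2.2.2.2.2.2.2.2.2.2.2.2.2.2.2.2.2.2.2.1.1⟩⟩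
theorem rf1k16 : CfgOK (rf1c16.e, rf1c16.n) := red_ln rf1h0.2.2.2.2.2.2.2.2.2.2.2.2.2.2.2.2.2.2.2.2.2.2.2.1 ⟨⟨rf1h0.2.2.2.2.2.2.2.2.2.2.2.2.2.2.2.2.2.2.2.2.2.2.2.1.1, rf1h46.2.2.2.2.2.2.1.1⟩, ⟨rf1h34.2.2.2.2.2.1.1, rf1h48.2.2.2.2.2.2.2.2.2.2.2.2.2.2.2.2.2.2.2.2.2.2.2.2.2.2.2.2.2.2.2.2.2.2.2.2.2.2.1.1⟩⟩
theorem rf1k17 : CfgOK (rf1c17.e, rf1c17.n) := red_ln rf1h0.2.2.2.2.2.2.2.2.2.2.2.2.2.2.2.2.2.2.2.2.2.2.1 ⟨⟨rf1h0.2.2.2.2.2.2.2.2.2.2.2.2.2.2.2.2.2.2.2.2.2.2.1.1, rf1h46.2.2.2.2.2.1.1⟩, ⟨rf1h34.2.2.2.2.1.1, rf1h48.2.2.2.2.2.2.2.2.2.2.2.2.2.2.2.2.2.2.2.2.2.2.2.2.2.2.2.2.2.2.2.2.2.2.2.2.2.1.1⟩⟩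
theorem rf1k18 : CfgOK (rf1c18.e, rf1c18.n) := red_ln rf1h0.2.2.2.2.2.2.2.2.2.2.2.2.2.2.2.2.2.2.2.2.2.1 ⟨⟨⟨rf1h0.2.2.2.2.2.2.2.2.2.2.2.2.2.2.2.2.2.2.2.2.2.1.1, rf1h46.2.2.2.2.1.1⟩, ⟨rf1h34.2.2.2.1.1, rf1h48.2.2.2.2.2.2.2.2.2.2.2.2.2.2.2.2.2.2.2.2.2.2.2.2.2.2.2.2.2.2.2.2.2.2.2.2.1.1⟩⟩, ⟨⟨rf1h47.2.2.2.1.1, rf1h2.2.2.2.2.2.2.2.2.1.1⟩, ⟨rf1h48.2.2.2.2.2.2.2.2.2.2.2.2.2.2.2.2.2.2.2.2.2.2.2.2.2.2.2.2.2.2.2.2.2.2.2.1.1, rf1h3.2.2.2.2.1.1⟩⟩⟩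
theorem rf1k19 : CfgOK (rf1c19.e, rf1c19.n) := red_ln rf1h0.2.2.2.2.2.2.2.2.2.2.2.2.2.2.2.2.2.2.2.2.1 ⟨⟨⟨rf1h0.2.2.2.2.2.2.2.2.2.2.2.2.2.2.2.2.2.2.2.2.1.1, rf1h46.2.2.2.1.1⟩, ⟨rf1h47.2.2.1.1, rf1h2.2.2.2.2.2.2.2.1.1⟩⟩, ⟨⟨rf1h34.2.2.1.1, rf1h48.2.2.2.2.2.2.2.2.2.2.2.2.2.2.2.2.2.2.2.2.2.2.2.2.2.2.2.2.2.2.2.2.2.2.1.1⟩, ⟨rf1h48.2.2.2.2.2.2.2.2.2.2.2.2.2.2.2.2.2.2.2.2.2.2.2.2.2.2.2.2.2.2.2.2.2.1.1, rf1h3.2.2.2.1.1⟩⟩⟩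
theorem rf1k20 : CfgOK (rf1c20.e, rf1c20.n) := red_ln rf1h0.2.2.2.2.2.2.2.2.2.2.2.2.2.2.2.2.2.2.2.1 ⟨⟨⟨rf1h0.2.2.2.2.2.2.2.2.2.2.2.2.2.2.2.2.2.2.2.1.1, rf1h46.2.2.1.1⟩, ⟨rf1h47.2.1.1, rf1h2.2.2.2.2.2.2.1.1⟩⟩, ⟨⟨rf1h34.2.1.1, rf1h48.2.2.2.2.2.2.2.2.2.2.2.2.2.2.2.2.2.2.2.2.2.2.2.2.2.2.2.2.2.2.2.2.1.1⟩, ⟨rf1h48.2.2.2.2.2.2.2.2.2.2.2.2.2.2.2.2.2.2.2.2.2.2.2.2.2.2.2.2.2.2.2.1.1, rf1h3.2.2.1.1⟩⟩⟩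
theorem rf1k21 : CfgOK (rf1c21.e, rf1c21.n) := red_ln rf1h0.2.2.2.2.2.2.2.2.2.2.2.2.2.2.2.2.2.2.1 ⟨⟨⟨rf1h0.2.2.2.2.2.2.2.2.2.2.2.2.2.2.2.2.2.2.1.1, rf1h46.2.1.1⟩, ⟨rf1h45.2.2.2.2.2.2.2.2.2.2.2.2.2.2.2.2.2.2.2.2.2.2.1.1, rf1h2.2.2.1.1⟩⟩, ⟨⟨rf1h34.1.1, rf1h48.2.2.2.2.2.2.2.2.2.2.2.2.2.2.2.2.2.2.2.2.2.2.2.2.2.2.2.2.2.2.1.1⟩, ⟨rf1h48.2.2.2.2.2.2.2.2.2.2.2.2.2.2.2.2.2.2.2.2.2.2.2.2.2.2.2.2.2.1.1, rf1h3.2.1.1⟩⟩⟩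
theorem rf1k22 : CfgOK (rf1c22.e, rf1c22.n) := red_ln rf1h0.2.2.2.2.2.2.2.2.2.2.2.2.2.2.2.2.2.1 ⟨⟨rf1h0.2.2.2.2.2.2.2.2.2.2.2.2.2.2.2.2.2.1.1, rf1h45.2.2.2.2.2.2.2.2.2.2.2.2.2.2.2.2.2.2.2.2.2.1.1⟩, ⟨rf1h23.2.2.2.2.2.2.2.2.2.2.2.2.2.2.2.2.2.2.2.2.2.2.2.2.2.2.2.2.2.2.2.2.2.2.2.2.2.2.2.1.1, rf1h48.2.2.2.2.2.2.2.2.2.2.2.2.2.2.2.2.2.2.2.2.2.2.2.2.2.2.2.2.1.1⟩⟩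
theorem rf1k23 : CfgOK (rf1c23.e, rf1c23.n) := red_ln rf1h0.2.2.2.2.2.2.2.2.2.2.2.2.2.2.2.2.1 ⟨⟨rf1h0.2.2.2.2.2.2.2.2.2.2.2.2.2.2.2.2.1.1, rf1h45.2.2.2.2.2.2.2.2.2.2.2.2.2.2.2.2.2.2.2.2.1.1⟩, ⟨rf1h23.2.2.2.2.2.2.2.2.2.2.2.2.2.2.2.2.2.2.2.2.2.2.2.2.2.2.2.2.2.2.2.2.2.2.2.2.2.2.1.1, rf1h48.2.2.2.2.2.2.2.2.2.2.2.2.2.2.2.2.2.2.2.2.2.2.2.2.2.2.2.1.1⟩⟩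
theorem rf1k24 : CfgOK (rf1c24.e, rf1c24.n) := red_ln rf1h0.2.2.2.2.2.2.2.2.2.2.2.2.2.2.2.1 ⟨⟨rf1h0.2.2.2.2.2.2.2.2.2.2.2.2.2.2.2.1.1, rf1h45.2.2.2.2.2.2.2.2.2.2.2.2.2.2.2.2.2.2.2.1.1⟩, ⟨rf1h23.2.2.2.2.2.2.2.2.2.2.2.2.2.2.2.2.2.2.2.2.2.2.2.2.2.2.2.2.2.2.2.2.2.2.2.2.2.1.1, rf1h48.2.2.2.2.2.2.2.2.2.2.2.2.2.2.2.2.2.2.2.2.2.2.2.2.2.2.1.1⟩⟩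
theorem rf1k25 : CfgOK (rf1c25.e, rf1c25.n) := red_ln rf1h0.2.2.2.2.2.2.2.2.2.2.2.2.2.2.1 ⟨⟨⟨rf1h0.2.2.2.2.2.2.2.2.2.2.2.2.2.2.1.1, rf1h45.2.2.2.2.2.2.2.2.2.2.2.2.2.2.2.2.2.2.1.1⟩, ⟨rf1h45.2.2.2.2.2.2.2.2.2.2.2.2.2.2.2.2.2.1.1, rf1h2.2.2.2.2.2.1.1⟩⟩, ⟨⟨rf1h23.2.2.2.2.2.2.2.2.2.2.2.2.2.2.2.2.2.2.2.2.2.2.2.2.2.2.2.2.2.2.2.2.2.2.2.2.1.1, rf1h48.2.2.2.2.2.2.2.2.2.2.2.2.2.2.2.2.2.2.2.2.2.2.2.2.2.1.1⟩, ⟨rf1h48.2.2.2.2.2.2.2.2.2.2.2.2.2.2.2.2.2.2.2.2.2.2.2.2.1.1, rf1h3.1.1⟩⟩⟩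
theorem rf1k26 : CfgOK (rf1c26.e, rf1c26.n) := red_ln rf1h0.2.2.2.2.2.2.2.2.2.2.2.2.2.1 ⟨⟨rf1h0.2.2.2.2.2.2.2.2.2.2.2.2.2.1.1, rf1h45.2.2.2.2.2.1.1⟩, ⟨rf1h23.2.2.2.2.2.2.2.2.2.2.2.2.2.2.2.2.2.2.2.2.2.2.2.2.2.2.2.2.2.2.2.2.2.2.2.1.1, rf1h48.2.2.2.2.2.2.2.2.2.2.2.2.2.2.2.2.2.2.2.2.2.2.2.1.1⟩⟩
theorem rf1k27 : CfgOK (rf1c27.e, rf1c27.n) := red_ln rf1h0.2.2.2.2.2.2.2.2.2.2.2.2.1 ⟨⟨rf1h0.2.2.2.2.2.2.2.2.2.2.2.2.1.1, rf1h45.2.2.2.1.1⟩, ⟨rf1h23.2.2.2.2.2.2.2.2.2.2.2.2.2.2.2.2.2.2.2.2.2.2.2.2.2.2.2.2.2.2.2.2.2.2.1.1, rf1h48.2.2.2.2.2.2.2.2.2.2.2.2.2.2.2.2.2.2.2.2.2.2.1.1⟩⟩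
theorem rf1k28 : CfgOK (rf1c28.e, rf1c28.n) := red_ln rf1h0.2.2.2.2.2.2.2.2.2.2.2.1 ⟨⟨rf1h0.2.2.2.2.2.2.2.2.2.2.2.1.1, rf1h45.2.2.1.1⟩, ⟨rf1h23.2.2.2.2.2.2.2.2.2.2.2.2.2.2.2.2.2.2.2.2.2.2.2.2.2.2.2.2.2.2.2.2.2.1.1, rf1h48.2.2.2.2.2.2.2.2.2.2.2.2.2.2.2.2.2.2.2.2.2.1.1⟩⟩
theorem rf1k29 : CfgOK (rf1c29.e, rf1c29.n) := red_ln rf1h0.2.2.2.2.2.2.2.2.2.2.1 ⟨⟨rf1h0.2.2.2.2.2.2.2.2.2.2.1.1, rf1h46.1.1⟩, ⟨rf1h23.2.2.2.2.2.2.2.2.2.2.2.2.2.2.2.2.2.2.2.2.2.2.2.2.2.2.2.2.2.2.2.2.1.1, rf1h48.2.2.2.2.2.2.2.2.2.2.2.2.2.2.2.2.2.2.2.2.1.1⟩⟩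
theorem rf1k30 : CfgOK (rf1c30.e, rf1c30.n) := red_ln rf1h0.2.2.2.2.2.2.2.2.2.1 ⟨⟨rf1h0.2.2.2.2.2.2.2.2.2.1.1, rf1h45.2.2.2.2.2.2.2.2.2.2.2.2.2.2.2.2.1.1⟩, ⟨rf1h23.2.2.2.2.2.2.2.2.2.2.2.2.2.2.2.2.2.2.2.2.2.2.2.2.2.2.2.2.2.2.2.1.1, rf1h48.2.2.2.2.2.2.2.2.2.2.2.2.2.2.2.2.2.2.2.1.1⟩⟩
theorem rf1k31 : CfgOK (rf1c31.e, rf1c31.n) := red_ln rf1h0.2.2.2.2.2.2.2.2.1 ⟨⟨rf1h0.2.2.2.2.2.2.2.2.1.1, rf1h45.2.2.2.2.2.2.2.2.2.2.2.2.2.2.2.1.1⟩, ⟨rf1h23.2.2.2.2.2.2.2.2.2.2.2.2.2.2.2.2.2.2.2.2.2.2.2.2.2.2.2.2.2.2.1.1, rf1h48.2.2.2.2.2.2.2.2.2.2.2.2.2.2.2.2.2.2.1.1⟩⟩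
theorem rf1k32 : CfgOK (rf1c32.e, rf1c32.n) := red_ln rf1h0.2.2.2.2.2.2.2.1 ⟨⟨rf1h0.2.2.2.2.2.2.2.1.1, rf1h45.2.2.2.2.2.2.2.2.2.2.2.2.2.2.1.1⟩, ⟨rf1h23.2.2.2.2.2.2.2.2.2.2.2.2.2.2.2.2.2.2.2.2.2.2.2.2.2.2.2.2.2.1.1, rf1h48.2.2.2.2.2.2.2.2.2.2.2.2.2.2.2.2.2.1.1⟩⟩
theorem rf1k33 : CfgOK (rf1c33.e, rf1c33.n) := red_ln rf1h0.2.2.2.2.2.2.1 ⟨⟨rf1h0.2.2.2.2.2.2.1.1, rf1h45.2.2.2.2.2.2.2.2.2.2.2.2.2.1.1⟩, ⟨rf1h23.2.2.2.2.2.2.2.2.2.2.2.2.2.2.2.2.2.2.2.2.2.2.2.2.2.2.2.2.1.1, rf1h48.2.2.2.2.2.2.2.2.2.2.2.2.2.2.2.2.1.1⟩⟩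
theorem rf1k34 : CfgOK (rf1c34.e, rf1c34.n) := red_ln rf1h0.2.2.2.2.2.1 ⟨rf1h0.2.2.2.2.2.1.1, rf1h23.2.2.2.2.2.2.2.2.2.2.2.2.2.2.2.2.2.2.2.2.2.2.2.2.2.2.2.1.1⟩
theorem rf1k35 : CfgOK (rf1c35.e, rf1c35.n) := red_ln rf1h0.2.2.2.2.1 ⟨⟨rf1h0.2.2.2.2.1.1, rf1h45.2.2.2.2.2.2.2.2.2.2.2.2.2.2.2.2.2.2.2.2.2.2.2.2.2.2.2.2.2.1.1⟩, ⟨rf1h45.2.2.2.2.2.2.2.2.2.2.2.2.1.1, rf1h2.2.1.1⟩⟩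
theorem rf1k36 : CfgOK (rf1c36.e, rf1c36.n) := red_ln rf1h0.2.2.2.1 ⟨⟨rf1h0.2.2.2.1.1, rf1h45.2.2.2.2.2.2.2.2.2.2.2.1.1⟩, ⟨rf1h23.2.2.2.2.2.2.2.2.2.2.2.2.2.2.2.2.2.2.2.2.2.2.2.2.2.2.1.1, rf1h48.2.2.2.2.2.2.2.2.2.2.2.2.2.2.2.1.1⟩⟩
theorem rf1k37 : CfgOK (rf1c37.e, rf1c37.n) := red_ln rf1h0.2.2.1 ⟨⟨rf1h0.2.2.1.1, rf1h45.2.2.2.2.2.2.2.2.2.2.1.1⟩, ⟨rf1h23.2.2.2.2.2.2.2.2.2.2.2.2.2.2.2.2.2.2.2.2.2.2.2.2.2.1.1, rf1h48.2.2.2.2.2.2.2.2.2.2.2.2.2.2.1.1⟩⟩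
theorem rf1k38 : CfgOK (rf1c38.e, rf1c38.n) := red_ln rf1h0.2.1 ⟨⟨rf1h0.2.1.1, rf1h45.2.2.2.2.1.1⟩, ⟨rf1h23.2.2.2.2.2.2.2.2.2.2.2.2.2.2.2.2.2.2.2.2.2.2.2.2.1.1, rf1h48.2.2.2.2.2.2.2.2.2.2.2.2.2.1.1⟩⟩
theorem rf1k39 : CfgOK (rf1c39.e, rf1c39.n) := red_ln rf1h0.1 ⟨⟨rf1h0.1.1, rf1h45.1.1⟩, ⟨rf1h23.2.2.2.2.2.2.2.2.2.2.2.2.2.2.2.2.2.2.2.2.2.2.2.1.1, rf1h48.2.2.2.2.2.2.2.2.2.2.2.2.1.1⟩⟩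
theorem rf1k40 : CfgOK (rf1c40.e, rf1c40.n) := red_ln rf1h5.2.2.2.2.2.2.2.1 rf1h5.2.2.2.2.2.2.2.1.1
theorem rf1k41 : CfgOK (rf1c41.e, rf1c41.n) := red_ln rf1h5.2.2.2.2.2.2.1 ⟨⟨rf1h5.2.2.2.2.2.2.1.1, rf1h6.2.2.2.2.2.2.2.2.2.2.2.2.1.1⟩, ⟨rf1h8.1.1, rf1h9.2.2.2.2.2.2.2.2.2.2.2.2.1.1⟩⟩
theorem rf1k42 : CfgOK (rf1c42.e, rf1c42.n) := red_ln rf1h5.2.2.2.2.2.1 ⟨⟨rf1h5.2.2.2.2.2.1.1, rf1h6.2.2.2.2.2.2.2.2.1.1⟩, ⟨rf1h7.2.2.2.2.2.2.2.2.2.2.2.2.2.2.2.2.2.2.2.2.2.2.2.2.2.2.2.2.2.1.1, rf1h9.2.2.2.2.2.2.2.2.2.2.2.1.1⟩⟩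
theorem rf1k43 : CfgOK (rf1c43.e, rf1c43.n) := red_ln rf1h5.2.2.2.2.1 ⟨⟨rf1h5.2.2.2.2.1.1, rf1h6.2.2.2.2.2.2.2.1.1⟩, ⟨rf1h7.2.2.2.2.2.2.2.2.2.2.2.2.2.2.2.1.1, rf1h9.2.2.2.2.2.2.2.2.2.2.1.1⟩⟩
theorem rf1k44 : CfgOK (rf1c44.e, rf1c44.n) := red_ln rf1h5.2.2.2.1 rf1h5.2.2.2.1.1
theorem rf1k45 : CfgOK (rf1c45.e, rf1c45.n) := red_ln rf1h5.2.2.1 rf1h5.2.2.1.1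
theorem rf1k46 : CfgOK (rf1c46.e, rf1c46.n) := red_ln rf1h5.2.1 rf1h5.2.1.1
theorem rf1k47 : CfgOK (rf1c47.e, rf1c47.n) := red_ln rf1h5.1 rf1h5.1.1
theorem rf1k48 : CfgOK (rf1c48.e, rf1c48.n) := red_ln rf1h4.2.2.2.2.2.2.2.2.2.2.2.2.2.2.2.2.2.2.2.2.2.2.2.2.2.2.2.2.2.1 rf1h4.2.2.2.2.2.2.2.2.2.2.2.2.2.2.2.2.2.2.2.2.2.2.2.2.2.2.2.2.2.1.1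
theorem rf1k49 : CfgOK (rf1c49.e, rf1c49.n) := red_ln rf1h4.2.2.2.2.2.2.2.2.2.2.2.2.2.2.2.2.2.2.2.2.2.2.2.2.2.2.2.2.1 rf1h4.2.2.2.2.2.2.2.2.2.2.2.2.2.2.2.2.2.2.2.2.2.2.2.2.2.2.2.2.1.1
theorem rf1k50 : CfgOK (rf1c50.e, rf1c50.n) := red_ln rf1h4.2.2.2.2.2.2.2.2.2.2.2.2.2.2.2.2.2.2.2.2.2.2.2.2.2.2.2.1 rf1h4.2.2.2.2.2.2.2.2.2.2.2.2.2.2.2.2.2.2.2.2.2.2.2.2.2.2.2.1.1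
theorem rf1k51 : CfgOK (rf1c51.e, rf1c51.n) := red_ln rf1h4.2.2.2.2.2.2.2.2.2.2.2.2.2.2.2.2.2.2.2.2.2.2.2.2.2.2.1 rf1h4.2.2.2.2.2.2.2.2.2.2.2.2.2.2.2.2.2.2.2.2.2.2.2.2.2.2.1.1
theorem rf1k52 : CfgOK (rf1c52.e, rf1c52.n) := red_ln rf1h4.2.2.2.2.2.2.2.2.2.2.2.2.2.2.2.2.2.2.2.2.2.2.2.2.2.1 rf1h4.2.2.2.2.2.2.2.2.2.2.2.2.2.2.2.2.2.2.2.2.2.2.2.2.2.1.1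
theorem rf1k53 : CfgOK (rf1c53.e, rf1c53.n) := red_ln rf1h4.2.2.2.2.2.2.2.2.2.2.2.2.2.2.2.2.2.2.2.2.2.2.2.2.1 rf1h4.2.2.2.2.2.2.2.2.2.2.2.2.2.2.2.2.2.2.2.2.2.2.2.2.1.1
theorem rf1k54 : CfgOK (rf1c54.e, rf1c54.n) := red_ln rf1h4.2.2.2.2.2.2.2.2.2.2.2.2.2.2.2.2.2.2.2.2.2.2.2.1 ⟨rf1h4.2.2.2.2.2.2.2.2.2.2.2.2.2.2.2.2.2.2.2.2.2.2.2.1.1, rf1h10.2.2.2.2.2.2.2.2.2.2.2.2.2.2.2.2.2.2.2.2.1.1⟩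
theorem rf1k55 : CfgOK (rf1c55.e, rf1c55.n) := red_ln rf1h4.2.2.2.2.2.2.2.2.2.2.2.2.2.2.2.2.2.2.2.2.2.2.1 ⟨⟨rf1h4.2.2.2.2.2.2.2.2.2.2.2.2.2.2.2.2.2.2.2.2.2.2.1.1, rf1h6.2.2.2.2.2.2.2.2.2.2.2.1.1⟩, ⟨rf1h7.2.2.2.2.2.2.2.2.2.2.2.2.2.2.2.2.2.2.2.2.2.2.2.2.2.2.2.2.1.1, rf1h9.2.2.2.2.2.2.2.2.2.1.1⟩⟩
theorem rf1k56 : CfgOK (rf1c56.e, rf1c56.n) := red_ln rf1h4.2.2.2.2.2.2.2.2.2.2.2.2.2.2.2.2.2.2.2.2.2.1 ⟨⟨rf1h4.2.2.2.2.2.2.2.2.2.2.2.2.2.2.2.2.2.2.2.2.2.1.1, rf1h6.2.2.2.2.2.2.1.1⟩, ⟨rf1h7.2.2.2.2.2.2.2.2.2.2.2.2.2.2.2.2.2.2.2.2.2.2.2.2.2.2.2.1.1, rf1h9.2.2.2.2.2.2.2.2.1.1⟩⟩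
theorem rf1k57 : CfgOK (rf1c57.e, rf1c57.n) := red_ln rf1h4.2.2.2.2.2.2.2.2.2.2.2.2.2.2.2.2.2.2.2.2.1 ⟨⟨rf1h4.2.2.2.2.2.2.2.2.2.2.2.2.2.2.2.2.2.2.2.2.1.1, rf1h6.2.2.2.2.2.1.1⟩, ⟨rf1h7.2.2.2.2.2.2.2.2.2.2.2.2.2.2.1.1, rf1h9.2.2.2.2.2.2.2.1.1⟩⟩
theorem rf1k58 : CfgOK (rf1c58.e, rf1c58.n) := red_ln rf1h4.2.2.2.2.2.2.2.2.2.2.2.2.2.2.2.2.2.2.2.1 ⟨⟨rf1h4.2.2.2.2.2.2.2.2.2.2.2.2.2.2.2.2.2.2.2.1.1, rf1h6.2.2.2.2.1.1⟩, ⟨rf1h7.2.2.2.2.2.2.2.1.1, rf1h9.2.2.2.2.1.1⟩⟩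
theorem rf1k59 : CfgOK (rf1c59.e, rf1c59.n) := red_ln rf1h4.2.2.2.2.2.2.2.2.2.2.2.2.2.2.2.2.2.2.1 ⟨⟨rf1h4.2.2.2.2.2.2.2.2.2.2.2.2.2.2.2.2.2.2.1.1, rf1h6.2.2.2.1.1⟩, ⟨rf1h7.2.2.2.2.2.2.1.1, rf1h9.2.2.2.1.1⟩⟩
theorem rf1k60 : CfgOK (rf1c60.e, rf1c60.n) := red_ln rf1h4.2.2.2.2.2.2.2.2.2.2.2.2.2.2.2.2.2.1 rf1h4.2.2.2.2.2.2.2.2.2.2.2.2.2.2.2.2.2.1.1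
theorem rf1k61 : CfgOK (rf1c61.e, rf1c61.n) := red_ln rf1h4.2.2.2.2.2.2.2.2.2.2.2.2.2.2.2.2.1 rf1h4.2.2.2.2.2.2.2.2.2.2.2.2.2.2.2.2.1.1
theorem rf1k62 : CfgOK (rf1c62.e, rf1c62.n) := red_ln rf1h4.2.2.2.2.2.2.2.2.2.2.2.2.2.2.2.1 rf1h4.2.2.2.2.2.2.2.2.2.2.2.2.2.2.2.1.1
theorem rf1k63 : CfgOK (rf1c63.e, rf1c63.n) := red_ln rf1h4.2.2.2.2.2.2.2.2.2.2.2.2.2.2.1 rf1h4.2.2.2.2.2.2.2.2.2.2.2.2.2.2.1.1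
theorem rf1k64 : CfgOK (rf1c64.e, rf1c64.n) := red_ln rf1h4.2.2.2.2.2.2.2.2.2.2.2.2.2.1 rf1h4.2.2.2.2.2.2.2.2.2.2.2.2.2.1.1
theorem rf1k65 : CfgOK (rf1c65.e, rf1c65.n) := red_ln rf1h4.2.2.2.2.2.2.2.2.2.2.2.2.1 rf1h4.2.2.2.2.2.2.2.2.2.2.2.2.1.1
theorem rf1k66 : CfgOK (rf1c66.e, rf1c66.n) := red_ln rf1h4.2.2.2.2.2.2.2.2.2.2.2.1 rf1h4.2.2.2.2.2.2.2.2.2.2.2.1.1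
theorem rf1k67 : CfgOK (rf1c67.e, rf1c67.n) := red_ln rf1h4.2.2.2.2.2.2.2.2.2.2.1 rf1h4.2.2.2.2.2.2.2.2.2.2.1.1
theorem rf1k68 : CfgOK (rf1c68.e, rf1c68.n) := red_ln rf1h4.2.2.2.2.2.2.2.2.2.1 rf1h4.2.2.2.2.2.2.2.2.2.1.1
theorem rf1k69 : CfgOK (rf1c69.e, rf1c69.n) := red_ln rf1h4.2.2.2.2.2.2.2.2.1 rf1h4.2.2.2.2.2.2.2.2.1.1
theorem rf1k70 : CfgOK (rf1c70.e, rf1c70.n) := red_ln rf1h4.2.2.2.2.2.2.2.1 rf1h4.2.2.2.2.2.2.2.1.1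
theorem rf1k71 : CfgOK (rf1c71.e, rf1c71.n) := red_ln rf1h4.2.2.2.2.2.2.1 ⟨rf1h4.2.2.2.2.2.2.1.1, rf1h10.2.2.2.2.2.2.2.2.2.2.2.2.2.2.2.2.2.2.2.1.1⟩
theorem rf1k72 : CfgOK (rf1c72.e, rf1c72.n) := red_ln rf1h4.2.2.2.2.2.1 ⟨rf1h4.2.2.2.2.2.1.1, rf1h10.2.2.2.2.2.2.2.2.2.2.2.2.2.2.2.2.2.2.1.1⟩
theorem rf1k73 : CfgOK (rf1c73.e, rf1c73.n) := red_ln rf1h4.2.2.2.2.1 ⟨rf1h4.2.2.2.2.1.1, rf1h10.2.2.2.2.2.2.2.2.2.2.2.2.2.2.2.2.2.1.1⟩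
theorem rf1k74 : CfgOK (rf1c74.e, rf1c74.n) := red_ln rf1h4.2.2.2.1 ⟨rf1h4.2.2.2.1.1, rf1h10.2.2.2.2.2.2.2.2.2.2.2.2.2.2.2.2.1.1⟩
theorem rf1k75 : CfgOK (rf1c75.e, rf1c75.n) := red_ln rf1h4.2.2.1 rf1h4.2.2.1.1
theorem rf1k76 : CfgOK (rf1c76.e, rf1c76.n) := red_ln rf1h4.2.1 rf1h4.2.1.1
theorem rf1k77 : CfgOK (rf1c77.e, rf1c77.n) := red_ln rf1h4.1 rf1h4.1.1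
theorem rf1k78 : CfgOK (rf1c78.e, rf1c78.n) := red_ln rf1h13.2.1 ⟨⟨rf1h13.2.1.1, rf1h6.2.2.2.2.2.2.2.2.2.2.1.1⟩, ⟨rf1h7.2.2.2.2.2.2.2.2.2.2.2.2.2.2.2.2.2.2.2.2.2.2.2.2.2.2.1.1, rf1h9.2.2.2.2.2.2.1.1⟩⟩
theorem rf1k79 : CfgOK (rf1c79.e, rf1c79.n) := red_ln rf1h13.1 ⟨⟨rf1h13.1.1, rf1h6.2.2.2.2.2.2.2.2.2.1.1⟩, ⟨rf1h7.2.2.2.2.2.2.2.2.2.2.2.2.2.2.2.2.2.2.2.2.2.2.2.2.2.1.1, rf1h9.2.2.2.2.2.1.1⟩⟩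
theorem rf1k80 : CfgOK (rf1c80.e, rf1c80.n) := red_ln rf1h11.2.2.2.2.2.2.2.2.2.2.2.2.2.2.2.2.2.2.2.2.2.2.2.2.2.2.2.2.2.1 rf1h11.2.2.2.2.2.2.2.2.2.2.2.2.2.2.2.2.2.2.2.2.2.2.2.2.2.2.2.2.2.1.1
theorem rf1k81 : CfgOK (rf1c81.e, rf1c81.n) := red_ln rf1h11.2.2.2.2.2.2.2.2.2.2.2.2.2.2.2.2.2.2.2.2.2.2.2.2.2.2.2.2.1 rf1h11.2.2.2.2.2.2.2.2.2.2.2.2.2.2.2.2.2.2.2.2.2.2.2.2.2.2.2.2.1.1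
theorem rf1k82 : CfgOK (rf1c82.e, rf1c82.n) := red_ln rf1h11.2.2.2.2.2.2.2.2.2.2.2.2.2.2.2.2.2.2.2.2.2.2.2.2.2.2.2.1 rf1h11.2.2.2.2.2.2.2.2.2.2.2.2.2.2.2.2.2.2.2.2.2.2.2.2.2.2.2.1.1
theorem rf1k83 : CfgOK (rf1c83.e, rf1c83.n) := red_ln rf1h11.2.2.2.2.2.2.2.2.2.2.2.2.2.2.2.2.2.2.2.2.2.2.2.2.2.2.1 rf1h11.2.2.2.2.2.2.2.2.2.2.2.2.2.2.2.2.2.2.2.2.2.2.2.2.2.2.1.1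
theorem rf1k84 : CfgOK (rf1c84.e, rf1c84.n) := red_ln rf1h11.2.2.2.2.2.2.2.2.2.2.2.2.2.2.2.2.2.2.2.2.2.2.2.2.2.1 rf1h11.2.2.2.2.2.2.2.2.2.2.2.2.2.2.2.2.2.2.2.2.2.2.2.2.2.1.1
theorem rf1k85 : CfgOK (rf1c85.e, rf1c85.n) := red_ln rf1h11.2.2.2.2.2.2.2.2.2.2.2.2.2.2.2.2.2.2.2.2.2.2.2.2.1 rf1h11.2.2.2.2.2.2.2.2.2.2.2.2.2.2.2.2.2.2.2.2.2.2.2.2.1.1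
theorem rf1k86 : CfgOK (rf1c86.e, rf1c86.n) := red_ln rf1h11.2.2.2.2.2.2.2.2.2.2.2.2.2.2.2.2.2.2.2.2.2.2.2.1 rf1h11.2.2.2.2.2.2.2.2.2.2.2.2.2.2.2.2.2.2.2.2.2.2.2.1.1
theorem rf1k87 : CfgOK (rf1c87.e, rf1c87.n) := red_ln rf1h11.2.2.2.2.2.2.2.2.2.2.2.2.2.2.2.2.2.2.2.2.2.2.1 rf1h11.2.2.2.2.2.2.2.2.2.2.2.2.2.2.2.2.2.2.2.2.2.2.1.1
theorem rf1k88 : CfgOK (rf1c88.e, rf1c88.n) := red_ln rf1h11.2.2.2.2.2.2.2.2.2.2.2.2.2.2.2.2.2.2.2.2.2.1 rf1h11.2.2.2.2.2.2.2.2.2.2.2.2.2.2.2.2.2.2.2.2.2.1.1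
theorem rf1k89 : CfgOK (rf1c89.e, rf1c89.n) := red_ln rf1h11.2.2.2.2.2.2.2.2.2.2.2.2.2.2.2.2.2.2.2.2.1 rf1h11.2.2.2.2.2.2.2.2.2.2.2.2.2.2.2.2.2.2.2.2.1.1
theorem rf1k90 : CfgOK (rf1c90.e, rf1c90.n) := red_ln rf1h11.2.2.2.2.2.2.2.2.2.2.2.2.2.2.2.2.2.2.2.1 rf1h11.2.2.2.2.2.2.2.2.2.2.2.2.2.2.2.2.2.2.2.1.1
theorem rf1k91 : CfgOK (rf1c91.e, rf1c91.n) := red_ln rf1h11.2.2.2.2.2.2.2.2.2.2.2.2.2.2.2.2.2.2.1 rf1h11.2.2.2.2.2.2.2.2.2.2.2.2.2.2.2.2.2.2.1.1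
theorem rf1k92 : CfgOK (rf1c92.e, rf1c92.n) := red_ln rf1h11.2.2.2.2.2.2.2.2.2.2.2.2.2.2.2.2.2.1 rf1h11.2.2.2.2.2.2.2.2.2.2.2.2.2.2.2.2.2.1.1
theorem rf1k93 : CfgOK (rf1c93.e, rf1c93.n) := red_ln rf1h11.2.2.2.2.2.2.2.2.2.2.2.2.2.2.2.2.1 rf1h11.2.2.2.2.2.2.2.2.2.2.2.2.2.2.2.2.1.1
theorem rf1k94 : CfgOK (rf1c94.e, rf1c94.n) := red_ln rf1h11.2.2.2.2.2.2.2.2.2.2.2.2.2.2.2.1 rf1h11.2.2.2.2.2.2.2.2.2.2.2.2.2.2.2.1.1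
theorem rf1k95 : CfgOK (rf1c95.e, rf1c95.n) := red_ln rf1h11.2.2.2.2.2.2.2.2.2.2.2.2.2.2.1 rf1h11.2.2.2.2.2.2.2.2.2.2.2.2.2.2.1.1
theorem rf1k96 : CfgOK (rf1c96.e, rf1c96.n) := red_ln rf1h11.2.2.2.2.2.2.2.2.2.2.2.2.2.1 rf1h11.2.2.2.2.2.2.2.2.2.2.2.2.2.1.1
theorem rf1k97 : CfgOK (rf1c97.e, rf1c97.n) := red_ln rf1h11.2.2.2.2.2.2.2.2.2.2.2.2.1 rf1h11.2.2.2.2.2.2.2.2.2.2.2.2.1.1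
theorem rf1k98 : CfgOK (rf1c98.e, rf1c98.n) := red_ln rf1h11.2.2.2.2.2.2.2.2.2.2.2.1 ⟨rf1h11.2.2.2.2.2.2.2.2.2.2.2.1.1, rf1h10.2.2.2.2.2.2.2.2.2.2.2.2.2.2.2.1.1⟩
theorem rf1k99 : CfgOK (rf1c99.e, rf1c99.n) := red_ln rf1h11.2.2.2.2.2.2.2.2.2.2.1 ⟨rf1h11.2.2.2.2.2.2.2.2.2.2.1.1, rf1h10.2.2.2.2.2.2.2.2.2.2.2.2.2.2.1.1⟩
theorem rf1k100 : CfgOK (rf1c100.e, rf1c100.n) := red_ln rf1h11.2.2.2.2.2.2.2.2.2.1 ⟨rf1h11.2.2.2.2.2.2.2.2.2.1.1, rf1h10.2.2.2.2.2.2.2.2.2.2.2.2.2.1.1⟩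
theorem rf1k101 : CfgOK (rf1c101.e, rf1c101.n) := red_ln rf1h11.2.2.2.2.2.2.2.2.1 ⟨rf1h11.2.2.2.2.2.2.2.2.1.1, rf1h10.2.2.2.2.2.2.2.2.2.2.2.2.1.1⟩
theorem rf1k102 : CfgOK (rf1c102.e, rf1c102.n) := red_ln rf1h11.2.2.2.2.2.2.2.1 ⟨⟨rf1h11.2.2.2.2.2.2.2.1.1, rf1h6.2.2.1.1⟩, ⟨rf1h7.2.2.2.2.2.2.2.2.2.2.2.2.2.1.1, rf1h9.1.1⟩⟩
theorem rf1k103 : CfgOK (rf1c103.e, rf1c103.n) := red_ln rf1h11.2.2.2.2.2.2.1 ⟨⟨rf1h11.2.2.2.2.2.2.1.1, rf1h6.2.1.1⟩, ⟨rf1h7.2.2.2.2.2.1.1, rf1h9.2.2.1.1⟩⟩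
theorem rf1k104 : CfgOK (rf1c104.e, rf1c104.n) := red_ln rf1h11.2.2.2.2.2.1 ⟨⟨rf1h11.2.2.2.2.2.1.1, rf1h6.1.1⟩, ⟨rf1h7.2.2.2.2.1.1, rf1h9.2.1.1⟩⟩
theorem rf1k105 : CfgOK (rf1c105.e, rf1c105.n) := red_ln rf1h11.2.2.2.2.1 rf1h11.2.2.2.2.1.1
theorem rf1k106 : CfgOK (rf1c106.e, rf1c106.n) := red_ln rf1h11.2.2.2.1 ⟨rf1h11.2.2.2.1.1, rf1h10.2.2.2.2.2.2.2.2.2.2.2.1.1⟩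
theorem rf1k107 : CfgOK (rf1c107.e, rf1c107.n) := red_ln rf1h11.2.2.1 rf1h11.2.2.1.1
theorem rf1k108 : CfgOK (rf1c108.e, rf1c108.n) := red_ln rf1h11.2.1 rf1h11.2.1.1
theorem rf1k109 : CfgOK (rf1c109.e, rf1c109.n) := red_ln rf1h11.1 rf1h11.1.1
theorem rf1k110 : CfgOK (rf1c110.e, rf1c110.n) := red_ln rf1h15.2.2.2.2.2.2.2.2.2.2.2.2.2.2.2.2.2.2.2.2.2.2.2.2.2.2.1 rf1h15.2.2.2.2.2.2.2.2.2.2.2.2.2.2.2.2.2.2.2.2.2.2.2.2.2.2.1.1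
theorem rf1k111 : CfgOK (rf1c111.e, rf1c111.n) := red_ln rf1h15.2.2.2.2.2.2.2.2.2.2.2.2.2.2.2.2.2.2.2.2.2.2.2.2.2.1 rf1h15.2.2.2.2.2.2.2.2.2.2.2.2.2.2.2.2.2.2.2.2.2.2.2.2.2.1.1
theorem rf1k112 : CfgOK (rf1c112.e, rf1c112.n) := red_ln rf1h15.2.2.2.2.2.2.2.2.2.2.2.2.2.2.2.2.2.2.2.2.2.2.2.2.1 rf1h15.2.2.2.2.2.2.2.2.2.2.2.2.2.2.2.2.2.2.2.2.2.2.2.2.1.1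
theorem rf1k113 : CfgOK (rf1c113.e, rf1c113.n) := red_ln rf1h15.2.2.2.2.2.2.2.2.2.2.2.2.2.2.2.2.2.2.2.2.2.2.2.1 ⟨rf1h15.2.2.2.2.2.2.2.2.2.2.2.2.2.2.2.2.2.2.2.2.2.2.2.1.1, rf1h16.2.2.2.2.2.2.2.2.2.2.2.2.2.2.2.2.2.2.2.2.2.2.2.2.2.2.1.1⟩
theorem rf1k114 : CfgOK (rf1c114.e, rf1c114.n) := red_ln rf1h15.2.2.2.2.2.2.2.2.2.2.2.2.2.2.2.2.2.2.2.2.2.2.1 ⟨⟨⟨rf1h15.2.2.2.2.2.2.2.2.2.2.2.2.2.2.2.2.2.2.2.2.2.2.1.1, rf1h7.2.2.2.2.2.2.2.2.2.2.2.2.2.2.2.2.2.2.2.2.2.2.2.2.1.1⟩, ⟨rf1h16.2.2.2.2.2.2.2.2.2.2.2.2.2.2.2.2.2.2.2.2.2.2.2.2.2.2.2.1.1, rf1h17.2.2.2.2.2.2.2.2.2.2.2.2.2.2.2.2.1.1⟩⟩, ⟨⟨rf1h18.2.2.2.2.2.2.2.2.2.2.2.2.2.2.2.2.1.1, rf1h19.1.1⟩, ⟨rf1h20.1.1, rf1h21.1.1⟩⟩⟩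
theorem rf1k115 : CfgOK (rf1c115.e, rf1c115.n) := red_ln rf1h15.2.2.2.2.2.2.2.2.2.2.2.2.2.2.2.2.2.2.2.2.2.1 ⟨⟨rf1h15.2.2.2.2.2.2.2.2.2.2.2.2.2.2.2.2.2.2.2.2.2.1.1, rf1h7.2.2.2.2.2.2.2.2.2.2.2.2.2.2.2.2.2.2.2.2.2.2.2.1.1⟩, ⟨rf1h16.2.2.2.2.2.2.2.2.2.2.2.2.2.2.2.2.2.2.2.2.2.2.2.2.2.1.1, rf1h17.2.2.2.2.2.2.2.2.2.2.2.2.2.2.2.1.1⟩⟩
theorem rf1k116 : CfgOK (rf1c116.e, rf1c116.n) := red_ln rf1h15.2.2.2.2.2.2.2.2.2.2.2.2.2.2.2.2.2.2.2.2.1 ⟨⟨rf1h15.2.2.2.2.2.2.2.2.2.2.2.2.2.2.2.2.2.2.2.2.1.1, rf1h7.2.2.2.2.2.2.2.2.2.2.2.2.2.2.2.2.2.2.2.2.2.2.1.1⟩, ⟨rf1h16.2.2.2.2.2.2.2.2.2.2.2.2.2.2.2.2.2.2.2.2.2.2.2.2.1.1, rf1h17.2.2.2.2.2.2.2.2.2.2.2.2.2.2.1.1⟩⟩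
theorem rf1k117 : CfgOK (rf1c117.e, rf1c117.n) := red_ln rf1h15.2.2.2.2.2.2.2.2.2.2.2.2.2.2.2.2.2.2.2.1 ⟨⟨rf1h15.2.2.2.2.2.2.2.2.2.2.2.2.2.2.2.2.2.2.2.1.1, rf1h7.2.2.2.2.2.2.2.2.2.2.2.2.2.2.2.2.2.2.2.2.2.1.1⟩, ⟨rf1h16.2.2.2.2.2.2.2.2.2.2.2.2.2.2.2.1.1, rf1h17.2.2.2.2.2.2.2.2.2.1.1⟩⟩
theorem rf1k118 : CfgOK (rf1c118.e, rf1c118.n) := red_ln rf1h15.2.2.2.2.2.2.2.2.2.2.2.2.2.2.2.2.2.2.1 ⟨⟨rf1h15.2.2.2.2.2.2.2.2.2.2.2.2.2.2.2.2.2.2.1.1, rf1h7.2.2.2.2.2.2.2.2.2.2.2.2.2.2.2.2.2.2.2.2.1.1⟩, ⟨rf1h16.2.2.2.2.2.2.2.2.2.2.2.2.2.2.1.1, rf1h17.2.2.2.2.2.2.2.2.1.1⟩⟩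
theorem rf1k119 : CfgOK (rf1c119.e, rf1c119.n) := red_ln rf1h15.2.2.2.2.2.2.2.2.2.2.2.2.2.2.2.2.2.1 ⟨⟨rf1h15.2.2.2.2.2.2.2.2.2.2.2.2.2.2.2.2.2.1.1, rf1h7.2.2.2.2.2.2.2.2.2.2.2.2.2.2.2.2.2.2.2.1.1⟩, ⟨rf1h16.2.2.2.2.2.2.2.2.2.2.2.2.2.1.1, rf1h17.2.2.2.1.1⟩⟩
theorem rf1k120 : CfgOK (rf1c120.e, rf1c120.n) := red_ln rf1h15.2.2.2.2.2.2.2.2.2.2.2.2.2.2.2.2.1 rf1h15.2.2.2.2.2.2.2.2.2.2.2.2.2.2.2.2.1.1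
theorem rf1k121 : CfgOK (rf1c121.e, rf1c121.n) := red_ln rf1h15.2.2.2.2.2.2.2.2.2.2.2.2.2.2.2.1 rf1h15.2.2.2.2.2.2.2.2.2.2.2.2.2.2.2.1.1
theorem rf1k122 : CfgOK (rf1c122.e, rf1c122.n) := red_ln rf1h15.2.2.2.2.2.2.2.2.2.2.2.2.2.2.1 rf1h15.2.2.2.2.2.2.2.2.2.2.2.2.2.2.1.1
theorem rf1k123 : CfgOK (rf1c123.e, rf1c123.n) := red_ln rf1h15.2.2.2.2.2.2.2.2.2.2.2.2.2.1 rf1h15.2.2.2.2.2.2.2.2.2.2.2.2.2.1.1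
theorem rf1k124 : CfgOK (rf1c124.e, rf1c124.n) := red_ln rf1h15.2.2.2.2.2.2.2.2.2.2.2.2.1 rf1h15.2.2.2.2.2.2.2.2.2.2.2.2.1.1
theorem rf1k125 : CfgOK (rf1c125.e, rf1c125.n) := red_ln rf1h15.2.2.2.2.2.2.2.2.2.2.2.1 rf1h15.2.2.2.2.2.2.2.2.2.2.2.1.1
theorem rf1k126 : CfgOK (rf1c126.e, rf1c126.n) := red_ln rf1h15.2.2.2.2.2.2.2.2.2.2.1 rf1h15.2.2.2.2.2.2.2.2.2.2.1.1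
theorem rf1k127 : CfgOK (rf1c127.e, rf1c127.n) := red_ln rf1h15.2.2.2.2.2.2.2.2.2.1 rf1h15.2.2.2.2.2.2.2.2.2.1.1
theorem rf1k128 : CfgOK (rf1c128.e, rf1c128.n) := red_ln rf1h15.2.2.2.2.2.2.2.2.1 rf1h15.2.2.2.2.2.2.2.2.1.1
theorem rf1k129 : CfgOK (rf1c129.e, rf1c129.n) := red_ln rf1h15.2.2.2.2.2.2.2.1 rf1h15.2.2.2.2.2.2.2.1.1
theorem rf1k130 : CfgOK (rf1c130.e, rf1c130.n) := red_ln rf1h15.2.2.2.2.2.2.1 rf1h15.2.2.2.2.2.2.1.1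
theorem rf1k131 : CfgOK (rf1c131.e, rf1c131.n) := red_ln rf1h15.2.2.2.2.2.1 rf1h15.2.2.2.2.2.1.1
theorem rf1k132 : CfgOK (rf1c132.e, rf1c132.n) := red_ln rf1h15.2.2.2.2.1 ⟨rf1h15.2.2.2.2.1.1, rf1h10.2.2.2.2.2.2.2.2.2.2.1.1⟩
theorem rf1k133 : CfgOK (rf1c133.e, rf1c133.n) := red_ln rf1h15.2.2.2.1 ⟨⟨rf1h15.2.2.2.1.1, rf1h7.2.2.2.2.2.2.2.2.2.2.2.2.2.2.2.2.2.2.1.1⟩, ⟨rf1h16.2.2.2.2.2.2.2.2.2.2.2.2.2.2.2.2.2.2.2.2.2.2.2.1.1, rf1h17.2.2.2.2.2.2.2.2.2.2.2.2.2.1.1⟩⟩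
theorem rf1k134 : CfgOK (rf1c134.e, rf1c134.n) := red_ln rf1h15.2.2.1 ⟨⟨rf1h15.2.2.1.1, rf1h7.2.2.2.2.2.2.2.2.2.2.2.2.1.1⟩, ⟨rf1h16.2.2.2.2.2.2.2.2.2.2.2.2.1.1, rf1h17.2.2.2.2.2.2.2.1.1⟩⟩
theorem rf1k135 : CfgOK (rf1c135.e, rf1c135.n) := red_ln rf1h15.2.1 ⟨⟨rf1h15.2.1.1, rf1h7.2.2.2.2.2.2.2.2.2.2.2.1.1⟩, ⟨rf1h16.2.2.2.2.2.2.2.2.2.2.2.1.1, rf1h17.2.2.1.1⟩⟩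
theorem rf1k136 : CfgOK (rf1c136.e, rf1c136.n) := red_ln rf1h15.1 ⟨⟨rf1h15.1.1, rf1h7.2.2.2.1.1⟩, ⟨rf1h16.2.2.2.2.2.2.2.2.2.2.1.1, rf1h17.2.2.2.2.2.2.1.1⟩⟩
theorem rf1k137 : CfgOK (rf1c137.e, rf1c137.n) := red_ln rf1h14.2.2.2.2.2.2.2.2.2.2.2.2.2.2.2.2.2.2.2.2.2.2.2.2.2.2.2.2.2.1 rf1h14.2.2.2.2.2.2.2.2.2.2.2.2.2.2.2.2.2.2.2.2.2.2.2.2.2.2.2.2.2.1.1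
theorem rf1k138 : CfgOK (rf1c138.e, rf1c138.n) := red_ln rf1h14.2.2.2.2.2.2.2.2.2.2.2.2.2.2.2.2.2.2.2.2.2.2.2.2.2.2.2.2.1 rf1h14.2.2.2.2.2.2.2.2.2.2.2.2.2.2.2.2.2.2.2.2.2.2.2.2.2.2.2.2.1.1
theorem rf1k139 : CfgOK (rf1c139.e, rf1c139.n) := red_ln rf1h14.2.2.2.2.2.2.2.2.2.2.2.2.2.2.2.2.2.2.2.2.2.2.2.2.2.2.2.1 rf1h14.2.2.2.2.2.2.2.2.2.2.2.2.2.2.2.2.2.2.2.2.2.2.2.2.2.2.2.1.1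
theorem rf1k140 : CfgOK (rf1c140.e, rf1c140.n) := red_ln rf1h14.2.2.2.2.2.2.2.2.2.2.2.2.2.2.2.2.2.2.2.2.2.2.2.2.2.2.1 rf1h14.2.2.2.2.2.2.2.2.2.2.2.2.2.2.2.2.2.2.2.2.2.2.2.2.2.2.1.1
theorem rf1k141 : CfgOK (rf1c141.e, rf1c141.n) := red_ln rf1h14.2.2.2.2.2.2.2.2.2.2.2.2.2.2.2.2.2.2.2.2.2.2.2.2.2.1 rf1h14.2.2.2.2.2.2.2.2.2.2.2.2.2.2.2.2.2.2.2.2.2.2.2.2.2.1.1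
theorem rf1k142 : CfgOK (rf1c142.e, rf1c142.n) := red_ln rf1h14.2.2.2.2.2.2.2.2.2.2.2.2.2.2.2.2.2.2.2.2.2.2.2.2.1 rf1h14.2.2.2.2.2.2.2.2.2.2.2.2.2.2.2.2.2.2.2.2.2.2.2.2.1.1
theorem rf1k143 : CfgOK (rf1c143.e, rf1c143.n) := red_ln rf1h14.2.2.2.2.2.2.2.2.2.2.2.2.2.2.2.2.2.2.2.2.2.2.2.1 rf1h14.2.2.2.2.2.2.2.2.2.2.2.2.2.2.2.2.2.2.2.2.2.2.2.1.1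
theorem rf1k144 : CfgOK (rf1c144.e, rf1c144.n) := red_ln rf1h14.2.2.2.2.2.2.2.2.2.2.2.2.2.2.2.2.2.2.2.2.2.2.1 rf1h14.2.2.2.2.2.2.2.2.2.2.2.2.2.2.2.2.2.2.2.2.2.2.1.1
theorem rf1k145 : CfgOK (rf1c145.e, rf1c145.n) := red_ln rf1h14.2.2.2.2.2.2.2.2.2.2.2.2.2.2.2.2.2.2.2.2.2.1 rf1h14.2.2.2.2.2.2.2.2.2.2.2.2.2.2.2.2.2.2.2.2.2.1.1
theorem rf1k146 : CfgOK (rf1c146.e, rf1c146.n) := red_ln rf1h14.2.2.2.2.2.2.2.2.2.2.2.2.2.2.2.2.2.2.2.2.1 rf1h14.2.2.2.2.2.2.2.2.2.2.2.2.2.2.2.2.2.2.2.2.1.1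
theorem rf1k147 : CfgOK (rf1c147.e, rf1c147.n) := red_ln rf1h14.2.2.2.2.2.2.2.2.2.2.2.2.2.2.2.2.2.2.2.1 rf1h14.2.2.2.2.2.2.2.2.2.2.2.2.2.2.2.2.2.2.2.1.1
theorem rf1k148 : CfgOK (rf1c148.e, rf1c148.n) := red_ln rf1h14.2.2.2.2.2.2.2.2.2.2.2.2.2.2.2.2.2.2.1 rf1h14.2.2.2.2.2.2.2.2.2.2.2.2.2.2.2.2.2.2.1.1
theorem rf1k149 : CfgOK (rf1c149.e, rf1c149.n) := red_ln rf1h14.2.2.2.2.2.2.2.2.2.2.2.2.2.2.2.2.2.1 rf1h14.2.2.2.2.2.2.2.2.2.2.2.2.2.2.2.2.2.1.1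
theorem rf1k150 : CfgOK (rf1c150.e, rf1c150.n) := red_ln rf1h14.2.2.2.2.2.2.2.2.2.2.2.2.2.2.2.2.1 rf1h14.2.2.2.2.2.2.2.2.2.2.2.2.2.2.2.2.1.1
theorem rf1k151 : CfgOK (rf1c151.e, rf1c151.n) := red_ln rf1h14.2.2.2.2.2.2.2.2.2.2.2.2.2.2.2.1 rf1h14.2.2.2.2.2.2.2.2.2.2.2.2.2.2.2.1.1
theorem rf1k152 : CfgOK (rf1c152.e, rf1c152.n) := red_ln rf1h14.2.2.2.2.2.2.2.2.2.2.2.2.2.2.1 rf1h14.2.2.2.2.2.2.2.2.2.2.2.2.2.2.1.1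
theorem rf1k153 : CfgOK (rf1c153.e, rf1c153.n) := red_ln rf1h14.2.2.2.2.2.2.2.2.2.2.2.2.2.1 rf1h14.2.2.2.2.2.2.2.2.2.2.2.2.2.1.1
theorem rf1k154 : CfgOK (rf1c154.e, rf1c154.n) := red_ln rf1h14.2.2.2.2.2.2.2.2.2.2.2.2.1 rf1h14.2.2.2.2.2.2.2.2.2.2.2.2.1.1
theorem rf1k155 : CfgOK (rf1c155.e, rf1c155.n) := red_ln rf1h14.2.2.2.2.2.2.2.2.2.2.2.1 rf1h14.2.2.2.2.2.2.2.2.2.2.2.1.1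
theorem rf1k156 : CfgOK (rf1c156.e, rf1c156.n) := red_ln rf1h14.2.2.2.2.2.2.2.2.2.2.1 rf1h14.2.2.2.2.2.2.2.2.2.2.1.1
theorem rf1k157 : CfgOK (rf1c157.e, rf1c157.n) := red_ln rf1h14.2.2.2.2.2.2.2.2.2.1 ⟨rf1h14.2.2.2.2.2.2.2.2.2.1.1, rf1h18.2.2.2.2.2.2.2.2.2.2.2.2.2.2.2.1.1⟩
theorem rf1k158 : CfgOK (rf1c158.e, rf1c158.n) := red_ln rf1h14.2.2.2.2.2.2.2.2.1 ⟨rf1h14.2.2.2.2.2.2.2.2.1.1, rf1h10.2.2.2.2.2.2.2.2.2.1.1⟩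
theorem rf1k159 : CfgOK (rf1c159.e, rf1c159.n) := red_ln rf1h14.2.2.2.2.2.2.2.1 ⟨rf1h14.2.2.2.2.2.2.2.1.1, rf1h18.2.2.2.2.2.2.2.2.2.2.2.2.2.2.1.1⟩
theorem rf1k160 : CfgOK (rf1c160.e, rf1c160.n) := red_ln rf1h14.2.2.2.2.2.2.1 ⟨rf1h14.2.2.2.2.2.2.1.1, rf1h10.2.2.2.2.2.2.2.2.1.1⟩
theorem rf1k161 : CfgOK (rf1c161.e, rf1c161.n) := red_ln rf1h14.2.2.2.2.2.1 ⟨rf1h14.2.2.2.2.2.1.1, rf1h18.2.2.2.2.2.2.2.2.2.2.2.2.2.1.1⟩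
theorem rf1k162 : CfgOK (rf1c162.e, rf1c162.n) := red_ln rf1h14.2.2.2.2.1 ⟨rf1h14.2.2.2.2.1.1, rf1h18.2.2.2.2.2.2.2.2.2.2.2.2.1.1⟩
theorem rf1k163 : CfgOK (rf1c163.e, rf1c163.n) := red_ln rf1h14.2.2.2.1 rf1h14.2.2.2.1.1
theorem rf1k164 : CfgOK (rf1c164.e, rf1c164.n) := red_ln rf1h14.2.2.1 rf1h14.2.2.1.1
theorem rf1k165 : CfgOK (rf1c165.e, rf1c165.n) := red_ln rf1h14.2.1 rf1h14.2.1.1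
theorem rf1k166 : CfgOK (rf1c166.e, rf1c166.n) := red_ln rf1h14.1 ⟨rf1h14.1.1, rf1h10.2.2.2.2.2.2.2.1.1⟩
theorem rf1k167 : CfgOK (rf1c167.e, rf1c167.n) := red_ln rf1h24.2.2.2.2.2.2.2.2.2.2.2.2.2.2.2.2.2.2.2.2.2.2.2.2.2.2.1 ⟨⟨rf1h24.2.2.2.2.2.2.2.2.2.2.2.2.2.2.2.2.2.2.2.2.2.2.2.2.2.2.1.1, rf1h7.2.2.2.2.2.2.2.2.2.2.2.2.2.2.2.2.2.1.1⟩, ⟨rf1h16.2.2.2.2.2.2.2.2.2.2.2.2.2.2.2.2.2.2.2.2.2.2.1.1, rf1h17.2.2.2.2.2.2.2.2.2.2.2.2.1.1⟩⟩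
theorem rf1k168 : CfgOK (rf1c168.e, rf1c168.n) := red_ln rf1h24.2.2.2.2.2.2.2.2.2.2.2.2.2.2.2.2.2.2.2.2.2.2.2.2.2.1 ⟨⟨rf1h24.2.2.2.2.2.2.2.2.2.2.2.2.2.2.2.2.2.2.2.2.2.2.2.2.2.1.1, rf1h7.2.2.2.2.2.2.2.2.2.2.2.2.2.2.2.2.1.1⟩, ⟨rf1h16.2.2.2.2.2.2.2.2.2.1.1, rf1h17.2.2.2.2.2.2.2.2.2.2.2.1.1⟩⟩
theorem rf1k169 : CfgOK (rf1c169.e, rf1c169.n) := red_ln rf1h24.2.2.2.2.2.2.2.2.2.2.2.2.2.2.2.2.2.2.2.2.2.2.2.2.1 ⟨⟨rf1h24.2.2.2.2.2.2.2.2.2.2.2.2.2.2.2.2.2.2.2.2.2.2.2.2.1.1, rf1h7.2.2.2.2.2.2.2.2.2.2.1.1⟩, ⟨rf1h16.2.2.2.2.2.2.2.2.1.1, rf1h17.2.2.2.2.2.1.1⟩⟩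
theorem rf1k170 : CfgOK (rf1c170.e, rf1c170.n) := red_ln rf1h24.2.2.2.2.2.2.2.2.2.2.2.2.2.2.2.2.2.2.2.2.2.2.2.1 ⟨rf1h24.2.2.2.2.2.2.2.2.2.2.2.2.2.2.2.2.2.2.2.2.2.2.2.1.1, rf1h7.2.2.1.1⟩
theorem rf1k171 : CfgOK (rf1c171.e, rf1c171.n) := red_ln rf1h24.2.2.2.2.2.2.2.2.2.2.2.2.2.2.2.2.2.2.2.2.2.2.1 rf1h24.2.2.2.2.2.2.2.2.2.2.2.2.2.2.2.2.2.2.2.2.2.2.1.1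
theorem rf1k172 : CfgOK (rf1c172.e, rf1c172.n) := red_ln rf1h24.2.2.2.2.2.2.2.2.2.2.2.2.2.2.2.2.2.2.2.2.2.1 rf1h24.2.2.2.2.2.2.2.2.2.2.2.2.2.2.2.2.2.2.2.2.2.1.1
theorem rf1k173 : CfgOK (rf1c173.e, rf1c173.n) := red_ln rf1h24.2.2.2.2.2.2.2.2.2.2.2.2.2.2.2.2.2.2.2.2.1 rf1h24.2.2.2.2.2.2.2.2.2.2.2.2.2.2.2.2.2.2.2.2.1.1
theorem rf1k174 : CfgOK (rf1c174.e, rf1c174.n) := red_ln rf1h24.2.2.2.2.2.2.2.2.2.2.2.2.2.2.2.2.2.2.2.1 rf1h24.2.2.2.2.2.2.2.2.2.2.2.2.2.2.2.2.2.2.2.1.1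
theorem rf1k175 : CfgOK (rf1c175.e, rf1c175.n) := red_ln rf1h24.2.2.2.2.2.2.2.2.2.2.2.2.2.2.2.2.2.2.1 rf1h24.2.2.2.2.2.2.2.2.2.2.2.2.2.2.2.2.2.2.1.1
theorem rf1k176 : CfgOK (rf1c176.e, rf1c176.n) := red_ln rf1h24.2.2.2.2.2.2.2.2.2.2.2.2.2.2.2.2.2.1 rf1h24.2.2.2.2.2.2.2.2.2.2.2.2.2.2.2.2.2.1.1
theorem rf1k177 : CfgOK (rf1c177.e, rf1c177.n) := red_ln rf1h24.2.2.2.2.2.2.2.2.2.2.2.2.2.2.2.2.1 rf1h24.2.2.2.2.2.2.2.2.2.2.2.2.2.2.2.2.1.1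
theorem rf1k178 : CfgOK (rf1c178.e, rf1c178.n) := red_ln rf1h24.2.2.2.2.2.2.2.2.2.2.2.2.2.2.2.1 rf1h24.2.2.2.2.2.2.2.2.2.2.2.2.2.2.2.1.1
theorem rf1k179 : CfgOK (rf1c179.e, rf1c179.n) := red_ln rf1h24.2.2.2.2.2.2.2.2.2.2.2.2.2.2.1 rf1h24.2.2.2.2.2.2.2.2.2.2.2.2.2.2.1.1
theorem rf1k180 : CfgOK (rf1c180.e, rf1c180.n) := red_ln rf1h24.2.2.2.2.2.2.2.2.2.2.2.2.2.1 rf1h24.2.2.2.2.2.2.2.2.2.2.2.2.2.1.1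
theorem rf1k181 : CfgOK (rf1c181.e, rf1c181.n) := red_ln rf1h24.2.2.2.2.2.2.2.2.2.2.2.2.1 rf1h24.2.2.2.2.2.2.2.2.2.2.2.2.1.1
theorem rf1k182 : CfgOK (rf1c182.e, rf1c182.n) := red_ln rf1h24.2.2.2.2.2.2.2.2.2.2.2.1 rf1h24.2.2.2.2.2.2.2.2.2.2.2.1.1
theorem rf1k183 : CfgOK (rf1c183.e, rf1c183.n) := red_ln rf1h24.2.2.2.2.2.2.2.2.2.2.1 rf1h24.2.2.2.2.2.2.2.2.2.2.1.1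
theorem rf1k184 : CfgOK (rf1c184.e, rf1c184.n) := red_ln rf1h24.2.2.2.2.2.2.2.2.2.1 rf1h24.2.2.2.2.2.2.2.2.2.1.1
theorem rf1k185 : CfgOK (rf1c185.e, rf1c185.n) := red_ln rf1h24.2.2.2.2.2.2.2.2.1 rf1h24.2.2.2.2.2.2.2.2.1.1
theorem rf1k186 : CfgOK (rf1c186.e, rf1c186.n) := red_ln rf1h24.2.2.2.2.2.2.2.1 rf1h24.2.2.2.2.2.2.2.1.1
theorem rf1k187 : CfgOK (rf1c187.e, rf1c187.n) := red_ln rf1h24.2.2.2.2.2.2.1 rf1h24.2.2.2.2.2.2.1.1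
theorem rf1k188 : CfgOK (rf1c188.e, rf1c188.n) := red_ln rf1h24.2.2.2.2.2.1 rf1h24.2.2.2.2.2.1.1
theorem rf1k189 : CfgOK (rf1c189.e, rf1c189.n) := red_ln rf1h24.2.2.2.2.1 rf1h24.2.2.2.2.1.1
theorem rf1k190 : CfgOK (rf1c190.e, rf1c190.n) := red_ln rf1h24.2.2.2.1 rf1h24.2.2.2.1.1
theorem rf1k191 : CfgOK (rf1c191.e, rf1c191.n) := red_ln rf1h24.2.2.1 rf1h24.2.2.1.1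
theorem rf1k192 : CfgOK (rf1c192.e, rf1c192.n) := red_ln rf1h24.2.1 rf1h24.2.1.1
theorem rf1k193 : CfgOK (rf1c193.e, rf1c193.n) := red_ln rf1h24.1 rf1h24.1.1
theorem rf1k194 : CfgOK (rf1c194.e, rf1c194.n) := red_ln rf1h22.2.2.2.2.2.2.2.2.2.2.2.2.2.2.2.2.2.2.2.2.2.2.2.2.2.2.2.2.2.1 rf1h22.2.2.2.2.2.2.2.2.2.2.2.2.2.2.2.2.2.2.2.2.2.2.2.2.2.2.2.2.2.1.1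
theorem rf1k195 : CfgOK (rf1c195.e, rf1c195.n) := red_ln rf1h22.2.2.2.2.2.2.2.2.2.2.2.2.2.2.2.2.2.2.2.2.2.2.2.2.2.2.2.2.1 rf1h22.2.2.2.2.2.2.2.2.2.2.2.2.2.2.2.2.2.2.2.2.2.2.2.2.2.2.2.2.1.1
theorem rf1k196 : CfgOK (rf1c196.e, rf1c196.n) := red_ln rf1h22.2.2.2.2.2.2.2.2.2.2.2.2.2.2.2.2.2.2.2.2.2.2.2.2.2.2.2.1 rf1h22.2.2.2.2.2.2.2.2.2.2.2.2.2.2.2.2.2.2.2.2.2.2.2.2.2.2.2.1.1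
theorem rf1k197 : CfgOK (rf1c197.e, rf1c197.n) := red_ln rf1h22.2.2.2.2.2.2.2.2.2.2.2.2.2.2.2.2.2.2.2.2.2.2.2.2.2.2.1 rf1h22.2.2.2.2.2.2.2.2.2.2.2.2.2.2.2.2.2.2.2.2.2.2.2.2.2.2.1.1
theorem rf1k198 : CfgOK (rf1c198.e, rf1c198.n) := red_ln rf1h22.2.2.2.2.2.2.2.2.2.2.2.2.2.2.2.2.2.2.2.2.2.2.2.2.2.1 rf1h22.2.2.2.2.2.2.2.2.2.2.2.2.2.2.2.2.2.2.2.2.2.2.2.2.2.1.1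
theorem rf1k199 : CfgOK (rf1c199.e, rf1c199.n) := red_ln rf1h22.2.2.2.2.2.2.2.2.2.2.2.2.2.2.2.2.2.2.2.2.2.2.2.2.1 ⟨rf1h22.2.2.2.2.2.2.2.2.2.2.2.2.2.2.2.2.2.2.2.2.2.2.2.2.1.1, rf1h10.2.2.2.2.2.2.1.1⟩
theorem rf1k200 : CfgOK (rf1c200.e, rf1c200.n) := red_ln rf1h22.2.2.2.2.2.2.2.2.2.2.2.2.2.2.2.2.2.2.2.2.2.2.2.1 ⟨rf1h22.2.2.2.2.2.2.2.2.2.2.2.2.2.2.2.2.2.2.2.2.2.2.2.1.1, rf1h18.2.2.2.2.2.2.2.2.2.2.2.1.1⟩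
theorem rf1k201 : CfgOK (rf1c201.e, rf1c201.n) := red_ln rf1h22.2.2.2.2.2.2.2.2.2.2.2.2.2.2.2.2.2.2.2.2.2.2.1 ⟨rf1h22.2.2.2.2.2.2.2.2.2.2.2.2.2.2.2.2.2.2.2.2.2.2.1.1, rf1h10.2.2.2.2.2.1.1⟩
theorem rf1k202 : CfgOK (rf1c202.e, rf1c202.n) := red_ln rf1h22.2.2.2.2.2.2.2.2.2.2.2.2.2.2.2.2.2.2.2.2.2.1 ⟨rf1h22.2.2.2.2.2.2.2.2.2.2.2.2.2.2.2.2.2.2.2.2.2.1.1, rf1h10.2.2.2.2.1.1⟩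
theorem rf1k203 : CfgOK (rf1c203.e, rf1c203.n) := red_ln rf1h22.2.2.2.2.2.2.2.2.2.2.2.2.2.2.2.2.2.2.2.2.1 ⟨rf1h22.2.2.2.2.2.2.2.2.2.2.2.2.2.2.2.2.2.2.2.2.1.1, rf1h10.2.2.2.1.1⟩
theorem rf1k204 : CfgOK (rf1c204.e, rf1c204.n) := red_ln rf1h22.2.2.2.2.2.2.2.2.2.2.2.2.2.2.2.2.2.2.2.1 ⟨⟨rf1h22.2.2.2.2.2.2.2.2.2.2.2.2.2.2.2.2.2.2.2.1.1, rf1h7.2.2.2.2.2.2.2.2.2.1.1⟩, ⟨rf1h16.2.2.2.2.2.2.2.2.2.2.2.2.2.2.2.2.2.2.2.2.2.1.1, rf1h17.2.2.2.2.2.2.2.2.2.2.1.1⟩⟩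
theorem rf1k205 : CfgOK (rf1c205.e, rf1c205.n) := red_ln rf1h22.2.2.2.2.2.2.2.2.2.2.2.2.2.2.2.2.2.2.1 ⟨⟨rf1h22.2.2.2.2.2.2.2.2.2.2.2.2.2.2.2.2.2.2.1.1, rf1h7.2.2.2.2.2.2.2.2.1.1⟩, ⟨rf1h16.2.2.2.2.2.2.2.1.1, rf1h17.2.2.2.2.1.1⟩⟩
theorem rf1k206 : CfgOK (rf1c206.e, rf1c206.n) := red_ln rf1h22.2.2.2.2.2.2.2.2.2.2.2.2.2.2.2.2.2.1 ⟨⟨rf1h22.2.2.2.2.2.2.2.2.2.2.2.2.2.2.2.2.2.1.1, rf1h7.2.1.1⟩, ⟨rf1h16.2.2.1.1, rf1h17.2.1.1⟩⟩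
theorem rf1k207 : CfgOK (rf1c207.e, rf1c207.n) := red_ln rf1h22.2.2.2.2.2.2.2.2.2.2.2.2.2.2.2.2.1 rf1h22.2.2.2.2.2.2.2.2.2.2.2.2.2.2.2.2.1.1
theorem rf1k208 : CfgOK (rf1c208.e, rf1c208.n) := red_ln rf1h22.2.2.2.2.2.2.2.2.2.2.2.2.2.2.2.1 rf1h22.2.2.2.2.2.2.2.2.2.2.2.2.2.2.2.1.1
theorem rf1k209 : CfgOK (rf1c209.e, rf1c209.n) := red_ln rf1h22.2.2.2.2.2.2.2.2.2.2.2.2.2.2.1 rf1h22.2.2.2.2.2.2.2.2.2.2.2.2.2.2.1.1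
theorem rf1k210 : CfgOK (rf1c210.e, rf1c210.n) := red_ln rf1h22.2.2.2.2.2.2.2.2.2.2.2.2.2.1 rf1h22.2.2.2.2.2.2.2.2.2.2.2.2.2.1.1
theorem rf1k211 : CfgOK (rf1c211.e, rf1c211.n) := red_ln rf1h22.2.2.2.2.2.2.2.2.2.2.2.2.1 rf1h22.2.2.2.2.2.2.2.2.2.2.2.2.1.1
theorem rf1k212 : CfgOK (rf1c212.e, rf1c212.n) := red_ln rf1h22.2.2.2.2.2.2.2.2.2.2.2.1 rf1h22.2.2.2.2.2.2.2.2.2.2.2.1.1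
theorem rf1k213 : CfgOK (rf1c213.e, rf1c213.n) := red_ln rf1h22.2.2.2.2.2.2.2.2.2.2.1 rf1h22.2.2.2.2.2.2.2.2.2.2.1.1
theorem rf1k214 : CfgOK (rf1c214.e, rf1c214.n) := red_ln rf1h22.2.2.2.2.2.2.2.2.2.1 rf1h22.2.2.2.2.2.2.2.2.2.1.1
theorem rf1k215 : CfgOK (rf1c215.e, rf1c215.n) := red_ln rf1h22.2.2.2.2.2.2.2.2.1 rf1h22.2.2.2.2.2.2.2.2.1.1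
theorem rf1k216 : CfgOK (rf1c216.e, rf1c216.n) := red_ln rf1h22.2.2.2.2.2.2.2.1 ⟨rf1h22.2.2.2.2.2.2.2.1.1, rf1h10.2.2.1.1⟩
theorem rf1k217 : CfgOK (rf1c217.e, rf1c217.n) := red_ln rf1h22.2.2.2.2.2.2.1 ⟨rf1h22.2.2.2.2.2.2.1.1, rf1h18.2.2.2.2.2.2.2.2.2.2.1.1⟩
theorem rf1k218 : CfgOK (rf1c218.e, rf1c218.n) := red_ln rf1h22.2.2.2.2.2.1 ⟨rf1h22.2.2.2.2.2.1.1, rf1h10.2.1.1⟩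
theorem rf1k219 : CfgOK (rf1c219.e, rf1c219.n) := red_ln rf1h22.2.2.2.2.1 ⟨⟨rf1h22.2.2.2.2.1.1, rf1h7.1.1⟩, ⟨rf1h16.1.1, rf1h17.1.1⟩⟩
theorem rf1k220 : CfgOK (rf1c220.e, rf1c220.n) := red_ln rf1h22.2.2.2.1 rf1h22.2.2.2.1.1
theorem rf1k221 : CfgOK (rf1c221.e, rf1c221.n) := red_ln rf1h22.2.2.1 rf1h22.2.2.1.1
theorem rf1k222 : CfgOK (rf1c222.e, rf1c222.n) := red_ln rf1h22.2.1 ⟨rf1h22.2.1.1, rf1h10.1.1⟩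
theorem rf1k223 : CfgOK (rf1c223.e, rf1c223.n) := red_ln rf1h22.1 rf1h22.1.1
theorem rf1k224 : CfgOK (rf1c224.e, rf1c224.n) := red_ln rf1h25.2.2.2.2.2.2.1 ⟨rf1h25.2.2.2.2.2.2.1.1, rf1h26.2.2.2.2.1.1⟩
theorem rf1k225 : CfgOK (rf1c225.e, rf1c225.n) := red_ln rf1h25.2.2.2.2.2.1 ⟨⟨rf1h25.2.2.2.2.2.1.1, rf1h16.2.2.2.2.2.2.2.2.2.2.2.2.2.2.2.2.2.2.2.2.1.1⟩, ⟨rf1h27.2.2.2.2.2.1.1, rf1h28.2.2.2.2.2.2.1.1⟩⟩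
theorem rf1k226 : CfgOK (rf1c226.e, rf1c226.n) := red_ln rf1h25.2.2.2.2.1 ⟨⟨rf1h25.2.2.2.2.1.1, rf1h16.2.2.2.2.2.2.2.2.2.2.2.2.2.2.2.2.2.2.2.1.1⟩, ⟨rf1h27.2.2.2.2.1.1, rf1h28.2.2.2.2.2.1.1⟩⟩
theorem rf1k227 : CfgOK (rf1c227.e, rf1c227.n) := red_ln rf1h25.2.2.2.1 rf1h25.2.2.2.1.1
theorem rf1k228 : CfgOK (rf1c228.e, rf1c228.n) := red_ln rf1h25.2.2.1 ⟨⟨rf1h25.2.2.1.1, rf1h16.2.2.2.2.2.2.2.2.2.2.2.2.2.2.2.2.2.2.1.1⟩, ⟨rf1h27.2.2.2.2.2.2.2.2.2.2.2.1.1, rf1h28.2.2.1.1⟩⟩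
theorem rf1k229 : CfgOK (rf1c229.e, rf1c229.n) := red_ln rf1h25.2.1 rf1h25.2.1.1
theorem rf1k230 : CfgOK (rf1c230.e, rf1c230.n) := red_ln rf1h25.1 rf1h25.1.1
theorem rf1k231 : CfgOK (rf1c231.e, rf1c231.n) := red_ln rf1h30.2.2.2.2.2.2.2.2.2.2.2.2.2.2.2.2.2.2.2.2.2.2.2.1 rf1h30.2.2.2.2.2.2.2.2.2.2.2.2.2.2.2.2.2.2.2.2.2.2.2.1.1
theorem rf1k232 : CfgOK (rf1c232.e, rf1c232.n) := red_ln rf1h30.2.2.2.2.2.2.2.2.2.2.2.2.2.2.2.2.2.2.2.2.2.2.1 rf1h30.2.2.2.2.2.2.2.2.2.2.2.2.2.2.2.2.2.2.2.2.2.2.1.1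
theorem rf1k233 : CfgOK (rf1c233.e, rf1c233.n) := red_ln rf1h30.2.2.2.2.2.2.2.2.2.2.2.2.2.2.2.2.2.2.2.2.2.1 ⟨⟨rf1h30.2.2.2.2.2.2.2.2.2.2.2.2.2.2.2.2.2.2.2.2.2.1.1, rf1h16.2.2.2.2.2.2.2.2.2.2.2.2.2.2.2.2.2.1.1⟩, ⟨rf1h27.2.2.2.2.2.2.2.2.2.2.1.1, rf1h28.2.2.2.2.2.2.2.2.2.1.1⟩⟩
theorem rf1k234 : CfgOK (rf1c234.e, rf1c234.n) := red_ln rf1h30.2.2.2.2.2.2.2.2.2.2.2.2.2.2.2.2.2.2.2.2.1 rf1h30.2.2.2.2.2.2.2.2.2.2.2.2.2.2.2.2.2.2.2.2.1.1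
theorem rf1k235 : CfgOK (rf1c235.e, rf1c235.n) := red_ln rf1h30.2.2.2.2.2.2.2.2.2.2.2.2.2.2.2.2.2.2.2.1 rf1h30.2.2.2.2.2.2.2.2.2.2.2.2.2.2.2.2.2.2.2.1.1
theorem rf1k236 : CfgOK (rf1c236.e, rf1c236.n) := red_ln rf1h30.2.2.2.2.2.2.2.2.2.2.2.2.2.2.2.2.2.2.1 ⟨⟨rf1h30.2.2.2.2.2.2.2.2.2.2.2.2.2.2.2.2.2.2.1.1, rf1h16.2.2.2.2.2.2.2.2.2.2.2.2.2.2.2.2.1.1⟩, ⟨rf1h27.2.2.2.2.2.2.2.2.2.1.1, rf1h28.2.2.2.2.2.2.2.2.1.1⟩⟩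
theorem rf1k237 : CfgOK (rf1c237.e, rf1c237.n) := red_ln rf1h30.2.2.2.2.2.2.2.2.2.2.2.2.2.2.2.2.2.1 ⟨⟨rf1h30.2.2.2.2.2.2.2.2.2.2.2.2.2.2.2.2.2.1.1, rf1h16.2.2.2.2.2.2.1.1⟩, ⟨rf1h27.2.2.2.2.2.2.2.2.1.1, rf1h28.2.2.2.2.2.2.2.1.1⟩⟩
theorem rf1k238 : CfgOK (rf1c238.e, rf1c238.n) := red_ln rf1h30.2.2.2.2.2.2.2.2.2.2.2.2.2.2.2.2.1 rf1h30.2.2.2.2.2.2.2.2.2.2.2.2.2.2.2.2.1.1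
theorem rf1k239 : CfgOK (rf1c239.e, rf1c239.n) := red_ln rf1h30.2.2.2.2.2.2.2.2.2.2.2.2.2.2.2.1 rf1h30.2.2.2.2.2.2.2.2.2.2.2.2.2.2.2.1.1
theorem rf1k240 : CfgOK (rf1c240.e, rf1c240.n) := red_ln rf1h30.2.2.2.2.2.2.2.2.2.2.2.2.2.2.1 rf1h30.2.2.2.2.2.2.2.2.2.2.2.2.2.2.1.1
theorem rf1k241 : CfgOK (rf1c241.e, rf1c241.n) := red_ln rf1h30.2.2.2.2.2.2.2.2.2.2.2.2.2.1 rf1h30.2.2.2.2.2.2.2.2.2.2.2.2.2.1.1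
theorem rf1k242 : CfgOK (rf1c242.e, rf1c242.n) := red_ln rf1h30.2.2.2.2.2.2.2.2.2.2.2.2.1 rf1h30.2.2.2.2.2.2.2.2.2.2.2.2.1.1
theorem rf1k243 : CfgOK (rf1c243.e, rf1c243.n) := red_ln rf1h30.2.2.2.2.2.2.2.2.2.2.2.1 rf1h30.2.2.2.2.2.2.2.2.2.2.2.1.1
theorem rf1k244 : CfgOK (rf1c244.e, rf1c244.n) := red_ln rf1h30.2.2.2.2.2.2.2.2.2.2.1 rf1h30.2.2.2.2.2.2.2.2.2.2.1.1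
theorem rf1k245 : CfgOK (rf1c245.e, rf1c245.n) := red_ln rf1h30.2.2.2.2.2.2.2.2.2.1 rf1h30.2.2.2.2.2.2.2.2.2.1.1
theorem rf1k246 : CfgOK (rf1c246.e, rf1c246.n) := red_ln rf1h30.2.2.2.2.2.2.2.2.1 rf1h30.2.2.2.2.2.2.2.2.1.1
theorem rf1k247 : CfgOK (rf1c247.e, rf1c247.n) := red_ln rf1h30.2.2.2.2.2.2.2.1 ⟨rf1h30.2.2.2.2.2.2.2.1.1, rf1h26.2.2.2.1.1⟩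
theorem rf1k248 : CfgOK (rf1c248.e, rf1c248.n) := red_ln rf1h30.2.2.2.2.2.2.1 ⟨rf1h30.2.2.2.2.2.2.1.1, rf1h26.2.2.1.1⟩
theorem rf1k249 : CfgOK (rf1c249.e, rf1c249.n) := red_ln rf1h30.2.2.2.2.2.1 ⟨⟨rf1h30.2.2.2.2.2.1.1, rf1h16.2.2.2.2.2.1.1⟩, ⟨rf1h27.2.2.2.1.1, rf1h28.2.2.2.2.1.1⟩⟩
theorem rf1k250 : CfgOK (rf1c250.e, rf1c250.n) := red_ln rf1h30.2.2.2.2.1 ⟨⟨rf1h30.2.2.2.2.1.1, rf1h16.2.2.2.2.1.1⟩, ⟨rf1h27.2.2.1.1, rf1h28.2.1.1⟩⟩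
theorem rf1k251 : CfgOK (rf1c251.e, rf1c251.n) := red_ln rf1h30.2.2.2.1 ⟨⟨rf1h30.2.2.2.1.1, rf1h16.2.2.2.1.1⟩, ⟨rf1h27.2.1.1, rf1h28.1.1⟩⟩
theorem rf1k252 : CfgOK (rf1c252.e, rf1c252.n) := red_ln rf1h30.2.2.1 ⟨⟨rf1h30.2.2.1.1, rf1h16.2.1.1⟩, ⟨rf1h27.1.1, rf1h28.2.2.2.1.1⟩⟩
theorem rf1k253 : CfgOK (rf1c253.e, rf1c253.n) := red_ln rf1h30.2.1 rf1h30.2.1.1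
theorem rf1k254 : CfgOK (rf1c254.e, rf1c254.n) := red_ln rf1h30.1 rf1h30.1.1
theorem rf1k255 : CfgOK (rf1c255.e, rf1c255.n) := red_ln rf1h29.2.2.2.2.2.2.2.2.2.2.2.2.2.2.2.2.2.2.2.2.2.2.2.2.2.2.2.2.2.1 rf1h29.2.2.2.2.2.2.2.2.2.2.2.2.2.2.2.2.2.2.2.2.2.2.2.2.2.2.2.2.2.1.1
theorem rf1k256 : CfgOK (rf1c256.e, rf1c256.n) := red_ln rf1h29.2.2.2.2.2.2.2.2.2.2.2.2.2.2.2.2.2.2.2.2.2.2.2.2.2.2.2.2.1 ⟨rf1h29.2.2.2.2.2.2.2.2.2.2.2.2.2.2.2.2.2.2.2.2.2.2.2.2.2.2.2.2.1.1, rf1h18.2.2.2.2.2.2.2.2.2.1.1⟩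
theorem rf1k257 : CfgOK (rf1c257.e, rf1c257.n) := red_ln rf1h29.2.2.2.2.2.2.2.2.2.2.2.2.2.2.2.2.2.2.2.2.2.2.2.2.2.2.2.1 ⟨rf1h29.2.2.2.2.2.2.2.2.2.2.2.2.2.2.2.2.2.2.2.2.2.2.2.2.2.2.2.1.1, rf1h18.2.2.2.2.2.2.2.2.1.1⟩
theorem rf1k258 : CfgOK (rf1c258.e, rf1c258.n) := red_ln rf1h29.2.2.2.2.2.2.2.2.2.2.2.2.2.2.2.2.2.2.2.2.2.2.2.2.2.2.1 ⟨rf1h29.2.2.2.2.2.2.2.2.2.2.2.2.2.2.2.2.2.2.2.2.2.2.2.2.2.2.1.1, rf1h18.2.2.2.2.2.2.2.1.1⟩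
theorem rf1k259 : CfgOK (rf1c259.e, rf1c259.n) := red_ln rf1h29.2.2.2.2.2.2.2.2.2.2.2.2.2.2.2.2.2.2.2.2.2.2.2.2.2.1 ⟨rf1h29.2.2.2.2.2.2.2.2.2.2.2.2.2.2.2.2.2.2.2.2.2.2.2.2.2.1.1, rf1h26.2.1.1⟩
theorem rf1k260 : CfgOK (rf1c260.e, rf1c260.n) := red_ln rf1h29.2.2.2.2.2.2.2.2.2.2.2.2.2.2.2.2.2.2.2.2.2.2.2.2.1 rf1h29.2.2.2.2.2.2.2.2.2.2.2.2.2.2.2.2.2.2.2.2.2.2.2.2.1.1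
theorem rf1k261 : CfgOK (rf1c261.e, rf1c261.n) := red_ln rf1h29.2.2.2.2.2.2.2.2.2.2.2.2.2.2.2.2.2.2.2.2.2.2.2.1 rf1h29.2.2.2.2.2.2.2.2.2.2.2.2.2.2.2.2.2.2.2.2.2.2.2.1.1
theorem rf1k262 : CfgOK (rf1c262.e, rf1c262.n) := red_ln rf1h29.2.2.2.2.2.2.2.2.2.2.2.2.2.2.2.2.2.2.2.2.2.2.1 rf1h29.2.2.2.2.2.2.2.2.2.2.2.2.2.2.2.2.2.2.2.2.2.2.1.1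
theorem rf1k263 : CfgOK (rf1c263.e, rf1c263.n) := red_ln rf1h29.2.2.2.2.2.2.2.2.2.2.2.2.2.2.2.2.2.2.2.2.2.1 rf1h29.2.2.2.2.2.2.2.2.2.2.2.2.2.2.2.2.2.2.2.2.2.1.1
theorem rf1k264 : CfgOK (rf1c264.e, rf1c264.n) := red_ln rf1h29.2.2.2.2.2.2.2.2.2.2.2.2.2.2.2.2.2.2.2.2.1 rf1h29.2.2.2.2.2.2.2.2.2.2.2.2.2.2.2.2.2.2.2.2.1.1
theorem rf1k265 : CfgOK (rf1c265.e, rf1c265.n) := red_ln rf1h29.2.2.2.2.2.2.2.2.2.2.2.2.2.2.2.2.2.2.2.1 rf1h29.2.2.2.2.2.2.2.2.2.2.2.2.2.2.2.2.2.2.2.1.1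
theorem rf1k266 : CfgOK (rf1c266.e, rf1c266.n) := red_ln rf1h29.2.2.2.2.2.2.2.2.2.2.2.2.2.2.2.2.2.2.1 rf1h29.2.2.2.2.2.2.2.2.2.2.2.2.2.2.2.2.2.2.1.1
theorem rf1k267 : CfgOK (rf1c267.e, rf1c267.n) := red_ln rf1h29.2.2.2.2.2.2.2.2.2.2.2.2.2.2.2.2.2.1 rf1h29.2.2.2.2.2.2.2.2.2.2.2.2.2.2.2.2.2.1.1
theorem rf1k268 : CfgOK (rf1c268.e, rf1c268.n) := red_ln rf1h29.2.2.2.2.2.2.2.2.2.2.2.2.2.2.2.2.1 rf1h29.2.2.2.2.2.2.2.2.2.2.2.2.2.2.2.2.1.1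
theorem rf1k269 : CfgOK (rf1c269.e, rf1c269.n) := red_ln rf1h29.2.2.2.2.2.2.2.2.2.2.2.2.2.2.2.1 rf1h29.2.2.2.2.2.2.2.2.2.2.2.2.2.2.2.1.1
theorem rf1k270 : CfgOK (rf1c270.e, rf1c270.n) := red_ln rf1h29.2.2.2.2.2.2.2.2.2.2.2.2.2.2.1 rf1h29.2.2.2.2.2.2.2.2.2.2.2.2.2.2.1.1
theorem rf1k271 : CfgOK (rf1c271.e, rf1c271.n) := red_ln rf1h29.2.2.2.2.2.2.2.2.2.2.2.2.2.1 rf1h29.2.2.2.2.2.2.2.2.2.2.2.2.2.1.1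
theorem rf1k272 : CfgOK (rf1c272.e, rf1c272.n) := red_ln rf1h29.2.2.2.2.2.2.2.2.2.2.2.2.1 rf1h29.2.2.2.2.2.2.2.2.2.2.2.2.1.1
theorem rf1k273 : CfgOK (rf1c273.e, rf1c273.n) := red_ln rf1h29.2.2.2.2.2.2.2.2.2.2.2.1 rf1h29.2.2.2.2.2.2.2.2.2.2.2.1.1
theorem rf1k274 : CfgOK (rf1c274.e, rf1c274.n) := red_ln rf1h29.2.2.2.2.2.2.2.2.2.2.1 rf1h29.2.2.2.2.2.2.2.2.2.2.1.1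
theorem rf1k275 : CfgOK (rf1c275.e, rf1c275.n) := red_ln rf1h29.2.2.2.2.2.2.2.2.2.1 ⟨rf1h29.2.2.2.2.2.2.2.2.2.1.1, rf1h18.2.2.2.2.2.2.1.1⟩
theorem rf1k276 : CfgOK (rf1c276.e, rf1c276.n) := red_ln rf1h29.2.2.2.2.2.2.2.2.1 ⟨rf1h29.2.2.2.2.2.2.2.2.1.1, rf1h18.2.2.2.2.2.1.1⟩
theorem rf1k277 : CfgOK (rf1c277.e, rf1c277.n) := red_ln rf1h29.2.2.2.2.2.2.2.1 ⟨rf1h29.2.2.2.2.2.2.2.1.1, rf1h18.2.2.2.2.1.1⟩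
theorem rf1k278 : CfgOK (rf1c278.e, rf1c278.n) := red_ln rf1h29.2.2.2.2.2.2.1 ⟨rf1h29.2.2.2.2.2.2.1.1, rf1h18.2.2.2.1.1⟩
theorem rf1k279 : CfgOK (rf1c279.e, rf1c279.n) := red_ln rf1h29.2.2.2.2.2.1 ⟨rf1h29.2.2.2.2.2.1.1, rf1h18.2.2.1.1⟩
theorem rf1k280 : CfgOK (rf1c280.e, rf1c280.n) := red_ln rf1h29.2.2.2.2.1 rf1h29.2.2.2.2.1.1
theorem rf1k281 : CfgOK (rf1c281.e, rf1c281.n) := red_ln rf1h29.2.2.2.1 rf1h29.2.2.2.1.1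
theorem rf1k282 : CfgOK (rf1c282.e, rf1c282.n) := red_ln rf1h29.2.2.1 ⟨rf1h29.2.2.1.1, rf1h18.2.1.1⟩
theorem rf1k283 : CfgOK (rf1c283.e, rf1c283.n) := red_ln rf1h29.2.1 ⟨rf1h29.2.1.1, rf1h18.1.1⟩
theorem rf1k284 : CfgOK (rf1c284.e, rf1c284.n) := red_ln rf1h29.1 rf1h29.1.1
theorem rf1k285 : CfgOK (rf1c285.e, rf1c285.n) := red_ln rf1h31.1 rf1h31.1.1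
theorem rf1k286 : CfgOK (rf1c286.e, rf1c286.n) := red_ln rf1h32.2.2.2.2.2.2.2.2.1 rf1h32.2.2.2.2.2.2.2.2.1.1
theorem rf1k287 : CfgOK (rf1c287.e, rf1c287.n) := red_ln rf1h32.2.2.2.2.2.2.2.1 rf1h32.2.2.2.2.2.2.2.1.1
theorem rf1k288 : CfgOK (rf1c288.e, rf1c288.n) := red_ln rf1h32.2.2.2.2.2.2.1 rf1h32.2.2.2.2.2.2.1.1
theorem rf1k289 : CfgOK (rf1c289.e, rf1c289.n) := red_ln rf1h32.2.2.2.2.2.1 ⟨⟨rf1h32.2.2.2.2.2.1.1, rf1h27.2.2.2.2.2.2.2.1.1⟩, ⟨rf1h46.2.2.2.2.2.2.2.2.2.2.2.2.2.2.2.2.2.2.2.2.2.2.2.2.2.2.2.1.1, rf1h2.2.2.2.2.1.1⟩⟩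
theorem rf1k290 : CfgOK (rf1c290.e, rf1c290.n) := red_ln rf1h32.2.2.2.2.1 ⟨⟨rf1h32.2.2.2.2.1.1, rf1h27.2.2.2.2.2.2.1.1⟩, ⟨rf1h45.2.2.2.2.2.2.2.2.2.1.1, rf1h2.1.1⟩⟩
theorem rf1k291 : CfgOK (rf1c291.e, rf1c291.n) := red_ln rf1h32.2.2.2.1 rf1h32.2.2.2.1.1
theorem rf1k292 : CfgOK (rf1c292.e, rf1c292.n) := red_ln rf1h32.2.2.1 ⟨rf1h32.2.2.1.1, rf1h26.1.1⟩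
theorem rf1k293 : CfgOK (rf1c293.e, rf1c293.n) := red_ln rf1h32.2.1 rf1h32.2.1.1
theorem rf1k294 : CfgOK (rf1c294.e, rf1c294.n) := red_ln rf1h32.1 rf1h32.1.1
theorem rf1k295 : CfgOK (rf1c295.e, rf1c295.n) := red_ln rf1h38.2.2.2.2.2.2.2.2.2.2.2.1 ⟨⟨rf1h38.2.2.2.2.2.2.2.2.2.2.2.1.1, rf1h41.2.2.2.2.2.2.2.2.2.2.2.2.2.2.2.2.1.1⟩, ⟨rf1h44.2.2.2.2.2.2.2.2.2.2.2.2.2.1.1, rf1h23.2.2.2.2.2.2.2.2.2.2.2.2.2.2.2.2.2.2.2.2.2.2.1.1⟩⟩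
theorem rf1k296 : CfgOK (rf1c296.e, rf1c296.n) := red_ln rf1h38.2.2.2.2.2.2.2.2.2.2.1 ⟨⟨rf1h38.2.2.2.2.2.2.2.2.2.2.1.1, rf1h44.2.2.2.2.2.2.2.2.2.2.2.2.2.2.2.2.2.2.2.2.2.2.2.2.1.1⟩, ⟨rf1h41.2.2.2.2.2.2.2.2.2.2.2.2.2.2.2.1.1, rf1h23.2.2.2.2.2.2.2.2.2.2.2.2.2.2.2.2.2.2.2.2.2.1.1⟩⟩
theorem rf1k297 : CfgOK (rf1c297.e, rf1c297.n) := red_ln rf1h38.2.2.2.2.2.2.2.2.2.1 ⟨⟨⟨rf1h38.2.2.2.2.2.2.2.2.2.1.1, rf1h44.2.2.2.2.2.2.2.2.2.2.2.2.2.2.2.2.2.2.2.2.2.2.2.1.1⟩, ⟨rf1h44.2.2.2.2.2.2.2.2.2.2.2.2.2.2.2.2.2.2.2.2.2.2.1.1, rf1h46.2.2.2.2.2.2.2.2.2.2.2.2.2.2.2.2.2.2.2.2.2.2.2.2.2.2.1.1⟩⟩, ⟨⟨rf1h41.2.2.2.2.2.2.2.2.2.2.2.2.2.2.1.1, rf1h23.2.2.2.2.2.2.2.2.2.2.2.2.2.2.2.2.2.2.2.2.1.1⟩,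 ⟨rf1h23.2.2.2.2.2.2.2.2.2.2.2.2.2.2.2.2.2.2.2.1.1, rf1h48.2.2.2.2.2.2.2.2.2.2.2.1.1⟩⟩⟩
theorem rf1k298 : CfgOK (rf1c298.e, rf1c298.n) := red_ln rf1h38.2.2.2.2.2.2.2.2.1 ⟨⟨rf1h38.2.2.2.2.2.2.2.2.1.1, rf1h44.2.2.2.2.2.2.2.2.2.2.2.2.2.2.2.2.2.2.2.2.2.1.1⟩, ⟨rf1h44.2.2.2.2.2.2.2.2.2.2.2.2.2.2.2.2.2.2.2.2.1.1, rf1h46.2.2.2.2.2.2.2.2.2.2.2.2.2.2.1.1⟩⟩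
theorem rf1k299 : CfgOK (rf1c299.e, rf1c299.n) := red_ln rf1h38.2.2.2.2.2.2.2.1 ⟨⟨rf1h38.2.2.2.2.2.2.2.1.1, rf1h44.2.2.2.2.2.2.2.2.2.2.2.2.2.2.2.2.2.2.2.1.1⟩, ⟨rf1h44.2.2.2.2.2.2.2.2.2.2.2.2.1.1, rf1h45.2.2.2.2.2.2.2.2.2.2.2.2.2.2.2.2.2.2.2.2.2.2.2.2.2.2.2.2.1.1⟩⟩
theorem rf1k300 : CfgOK (rf1c300.e, rf1c300.n) := red_ln rf1h38.2.2.2.2.2.2.1 ⟨rf1h38.2.2.2.2.2.2.1.1, rf1h44.2.2.2.2.2.2.2.2.2.2.2.1.1⟩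
theorem rf1k301 : CfgOK (rf1c301.e, rf1c301.n) := red_ln rf1h38.2.2.2.2.2.1 ⟨rf1h38.2.2.2.2.2.1.1, rf1h44.2.2.2.2.2.2.2.2.2.2.1.1⟩
theorem rf1k302 : CfgOK (rf1c302.e, rf1c302.n) := red_ln rf1h38.2.2.2.2.1 ⟨rf1h38.2.2.2.2.1.1, rf1h44.2.2.2.2.2.2.2.2.2.1.1⟩
theorem rf1k303 : CfgOK (rf1c303.e, rf1c303.n) := red_ln rf1h38.2.2.2.1 ⟨⟨rf1h38.2.2.2.1.1, rf1h44.2.2.2.2.2.2.2.2.1.1⟩, ⟨rf1h44.2.2.2.2.2.2.2.1.1, rf1h46.2.2.2.2.2.2.2.2.2.2.2.2.2.1.1⟩⟩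
theorem rf1k304 : CfgOK (rf1c304.e, rf1c304.n) := red_ln rf1h38.2.2.1 rf1h38.2.2.1.1
theorem rf1k305 : CfgOK (rf1c305.e, rf1c305.n) := red_ln rf1h38.2.1 rf1h38.2.1.1
theorem rf1k306 : CfgOK (rf1c306.e, rf1c306.n) := red_ln rf1h38.1 rf1h38.1.1
theorem rf1k307 : CfgOK (rf1c307.e, rf1c307.n) := red_ln rf1h37.2.2.2.2.2.2.2.2.2.2.2.2.2.2.2.2.2.2.2.2.2.2.2.2.2.2.2.2.2.1 rf1h37.2.2.2.2.2.2.2.2.2.2.2.2.2.2.2.2.2.2.2.2.2.2.2.2.2.2.2.2.2.1.1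
theorem rf1k308 : CfgOK (rf1c308.e, rf1c308.n) := red_ln rf1h37.2.2.2.2.2.2.2.2.2.2.2.2.2.2.2.2.2.2.2.2.2.2.2.2.2.2.2.2.1 rf1h37.2.2.2.2.2.2.2.2.2.2.2.2.2.2.2.2.2.2.2.2.2.2.2.2.2.2.2.2.1.1
theorem rf1k309 : CfgOK (rf1c309.e, rf1c309.n) := red_ln rf1h37.2.2.2.2.2.2.2.2.2.2.2.2.2.2.2.2.2.2.2.2.2.2.2.2.2.2.2.1 rf1h37.2.2.2.2.2.2.2.2.2.2.2.2.2.2.2.2.2.2.2.2.2.2.2.2.2.2.2.1.1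
theorem rf1k310 : CfgOK (rf1c310.e, rf1c310.n) := red_ln rf1h37.2.2.2.2.2.2.2.2.2.2.2.2.2.2.2.2.2.2.2.2.2.2.2.2.2.2.1 rf1h37.2.2.2.2.2.2.2.2.2.2.2.2.2.2.2.2.2.2.2.2.2.2.2.2.2.2.1.1
theorem rf1k311 : CfgOK (rf1c311.e, rf1c311.n) := red_ln rf1h37.2.2.2.2.2.2.2.2.2.2.2.2.2.2.2.2.2.2.2.2.2.2.2.2.2.1 ⟨rf1h37.2.2.2.2.2.2.2.2.2.2.2.2.2.2.2.2.2.2.2.2.2.2.2.2.2.1.1, rf1h41.2.2.2.2.2.2.2.2.2.2.2.2.2.1.1⟩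
theorem rf1k312 : CfgOK (rf1c312.e, rf1c312.n) := red_ln rf1h37.2.2.2.2.2.2.2.2.2.2.2.2.2.2.2.2.2.2.2.2.2.2.2.2.1 ⟨rf1h37.2.2.2.2.2.2.2.2.2.2.2.2.2.2.2.2.2.2.2.2.2.2.2.2.1.1, rf1h41.2.2.2.2.2.2.2.2.2.2.2.2.1.1⟩
theorem rf1k313 : CfgOK (rf1c313.e, rf1c313.n) := red_ln rf1h37.2.2.2.2.2.2.2.2.2.2.2.2.2.2.2.2.2.2.2.2.2.2.2.1 ⟨rf1h37.2.2.2.2.2.2.2.2.2.2.2.2.2.2.2.2.2.2.2.2.2.2.2.1.1, rf1h41.2.2.2.2.2.2.2.2.2.2.2.1.1⟩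
theorem rf1k314 : CfgOK (rf1c314.e, rf1c314.n) := red_ln rf1h37.2.2.2.2.2.2.2.2.2.2.2.2.2.2.2.2.2.2.2.2.2.2.1 ⟨rf1h37.2.2.2.2.2.2.2.2.2.2.2.2.2.2.2.2.2.2.2.2.2.2.1.1, rf1h41.2.2.2.2.2.2.2.2.2.2.1.1⟩
theorem rf1k315 : CfgOK (rf1c315.e, rf1c315.n) := red_ln rf1h37.2.2.2.2.2.2.2.2.2.2.2.2.2.2.2.2.2.2.2.2.2.1 ⟨rf1h37.2.2.2.2.2.2.2.2.2.2.2.2.2.2.2.2.2.2.2.2.2.1.1, rf1h41.2.2.2.2.2.2.2.2.2.1.1⟩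
theorem rf1k316 : CfgOK (rf1c316.e, rf1c316.n) := red_ln rf1h37.2.2.2.2.2.2.2.2.2.2.2.2.2.2.2.2.2.2.2.2.1 ⟨rf1h37.2.2.2.2.2.2.2.2.2.2.2.2.2.2.2.2.2.2.2.2.1.1, rf1h41.2.2.2.2.2.2.2.2.1.1⟩
theorem rf1k317 : CfgOK (rf1c317.e, rf1c317.n) := red_ln rf1h37.2.2.2.2.2.2.2.2.2.2.2.2.2.2.2.2.2.2.2.1 ⟨rf1h37.2.2.2.2.2.2.2.2.2.2.2.2.2.2.2.2.2.2.2.1.1, rf1h41.2.2.2.2.2.2.2.1.1⟩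
theorem rf1k318 : CfgOK (rf1c318.e, rf1c318.n) := red_ln rf1h37.2.2.2.2.2.2.2.2.2.2.2.2.2.2.2.2.2.2.1 ⟨rf1h37.2.2.2.2.2.2.2.2.2.2.2.2.2.2.2.2.2.2.1.1, rf1h41.2.2.2.2.2.2.1.1⟩
theorem rf1k319 : CfgOK (rf1c319.e, rf1c319.n) := red_ln rf1h37.2.2.2.2.2.2.2.2.2.2.2.2.2.2.2.2.2.1 ⟨⟨⟨rf1h37.2.2.2.2.2.2.2.2.2.2.2.2.2.2.2.2.2.1.1, rf1h41.2.2.2.2.2.1.1⟩, ⟨rf1h44.2.2.2.2.2.2.1.1, rf1h23.2.2.2.2.2.2.2.2.2.2.2.2.2.2.2.2.2.2.1.1⟩⟩, ⟨⟨rf1h42.2.2.2.2.2.2.2.2.2.2.2.2.2.2.2.2.2.2.2.2.2.2.2.1.1, rf1h23.2.2.2.2.2.2.2.2.2.2.2.2.2.2.2.2.2.1.1⟩, ⟨rf1h45.2.2.2.2.2.2.2.2.2.2.2.2.2.2.2.2.2.2.2.2.2.2.2.2.2.2.2.1.1, rf1h48.2.2.2.2.2.2.2.2.2.2.1.1⟩⟩⟩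
theorem rf1k320 : CfgOK (rf1c320.e, rf1c320.n) := red_ln rf1h37.2.2.2.2.2.2.2.2.2.2.2.2.2.2.2.2.1 ⟨⟨rf1h37.2.2.2.2.2.2.2.2.2.2.2.2.2.2.2.2.1.1, rf1h41.2.2.2.2.1.1⟩, ⟨rf1h42.2.2.2.2.2.2.2.2.2.2.2.1.1, rf1h23.2.2.2.2.2.2.2.2.2.2.2.2.2.2.2.2.1.1⟩⟩
theorem rf1k321 : CfgOK (rf1c321.e, rf1c321.n) := red_ln rf1h37.2.2.2.2.2.2.2.2.2.2.2.2.2.2.2.1 ⟨⟨rf1h37.2.2.2.2.2.2.2.2.2.2.2.2.2.2.2.1.1, rf1h41.2.2.2.1.1⟩, ⟨rf1h42.2.2.2.2.2.2.2.2.2.2.1.1, rf1h23.2.2.2.2.2.2.2.2.2.2.2.2.2.2.2.1.1⟩⟩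
theorem rf1k322 : CfgOK (rf1c322.e, rf1c322.n) := red_ln rf1h37.2.2.2.2.2.2.2.2.2.2.2.2.2.2.1 ⟨⟨rf1h37.2.2.2.2.2.2.2.2.2.2.2.2.2.2.1.1, rf1h44.2.2.2.2.2.2.2.2.2.2.2.2.2.2.2.2.2.2.1.1⟩, ⟨rf1h41.2.2.1.1, rf1h23.2.2.2.2.2.2.2.2.2.2.2.2.2.2.1.1⟩⟩
theorem rf1k323 : CfgOK (rf1c323.e, rf1c323.n) := red_ln rf1h37.2.2.2.2.2.2.2.2.2.2.2.2.2.1 ⟨⟨rf1h37.2.2.2.2.2.2.2.2.2.2.2.2.2.1.1, rf1h44.2.2.2.2.2.2.2.2.2.2.2.2.2.2.2.2.2.1.1⟩, ⟨rf1h41.2.1.1, rf1h23.2.2.2.2.2.2.2.2.2.2.2.2.2.1.1⟩⟩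
theorem rf1k324 : CfgOK (rf1c324.e, rf1c324.n) := red_ln rf1h37.2.2.2.2.2.2.2.2.2.2.2.2.1 ⟨⟨rf1h37.2.2.2.2.2.2.2.2.2.2.2.2.1.1, rf1h44.2.2.2.2.2.2.2.2.2.2.2.2.2.2.2.2.1.1⟩, ⟨rf1h41.1.1, rf1h23.2.2.2.2.2.2.2.2.2.2.2.2.1.1⟩⟩
theorem rf1k325 : CfgOK (rf1c325.e, rf1c325.n) := red_ln rf1h37.2.2.2.2.2.2.2.2.2.2.2.1 ⟨⟨rf1h37.2.2.2.2.2.2.2.2.2.2.2.1.1, rf1h44.2.2.2.2.2.2.2.2.2.2.2.2.2.2.2.1.1⟩, ⟨rf1h40.2.2.2.2.2.2.2.2.2.2.2.2.2.2.2.2.2.2.2.2.2.2.2.2.2.2.2.2.2.2.2.2.2.2.2.2.2.2.2.1.1, rf1h23.2.2.2.2.2.2.2.2.2.2.2.1.1⟩⟩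
theorem rf1k326 : CfgOK (rf1c326.e, rf1c326.n) := red_ln rf1h37.2.2.2.2.2.2.2.2.2.2.1 ⟨⟨⟨rf1h37.2.2.2.2.2.2.2.2.2.2.1.1, rf1h44.2.2.2.2.2.1.1⟩, ⟨rf1h40.2.2.2.2.2.2.2.2.2.2.2.2.2.2.2.2.2.2.2.2.2.2.2.2.2.2.2.2.2.2.2.2.2.2.2.2.2.2.1.1, rf1h23.2.2.2.2.2.2.2.2.2.2.1.1⟩⟩, ⟨⟨rf1h42.2.2.1.1, rf1h45.2.2.2.2.2.2.2.2.1.1⟩, ⟨rf1h23.2.2.2.2.2.2.2.2.2.1.1, rf1h48.2.2.2.2.2.2.2.2.2.1.1⟩⟩⟩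
theorem rf1k327 : CfgOK (rf1c327.e, rf1c327.n) := red_ln rf1h37.2.2.2.2.2.2.2.2.2.1 ⟨⟨rf1h37.2.2.2.2.2.2.2.2.2.1.1, rf1h44.2.2.2.2.1.1⟩, ⟨rf1h44.2.2.2.1.1, rf1h45.2.2.2.2.2.2.2.2.2.2.2.2.2.2.2.2.2.2.2.2.2.2.2.2.2.2.1.1⟩⟩
theorem rf1k328 : CfgOK (rf1c328.e, rf1c328.n) := red_ln rf1h37.2.2.2.2.2.2.2.2.1 ⟨⟨rf1h37.2.2.2.2.2.2.2.2.1.1, rf1h44.2.2.1.1⟩, ⟨rf1h43.2.2.2.2.2.2.2.2.2.2.2.1.1, rf1h45.2.2.2.2.2.2.2.2.2.2.2.2.2.2.2.2.2.2.2.2.2.2.2.2.2.1.1⟩⟩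
theorem rf1k329 : CfgOK (rf1c329.e, rf1c329.n) := red_ln rf1h37.2.2.2.2.2.2.2.1 ⟨rf1h37.2.2.2.2.2.2.2.1.1, rf1h43.2.2.2.2.2.2.2.2.2.2.1.1⟩
theorem rf1k330 : CfgOK (rf1c330.e, rf1c330.n) := red_ln rf1h37.2.2.2.2.2.2.1 ⟨rf1h37.2.2.2.2.2.2.1.1, rf1h43.2.2.2.2.2.2.2.2.2.1.1⟩
theorem rf1k331 : CfgOK (rf1c331.e, rf1c331.n) := red_ln rf1h37.2.2.2.2.2.1 ⟨rf1h37.2.2.2.2.2.1.1, rf1h43.2.2.2.2.2.2.2.2.1.1⟩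
theorem rf1k332 : CfgOK (rf1c332.e, rf1c332.n) := red_ln rf1h37.2.2.2.2.1 ⟨⟨rf1h37.2.2.2.2.1.1, rf1h43.2.2.2.2.2.2.2.1.1⟩, ⟨rf1h40.2.2.2.2.2.2.2.2.2.2.2.2.2.2.2.2.2.2.2.2.2.2.2.2.2.2.2.2.2.2.2.2.2.2.2.2.2.1.1, rf1h23.2.2.2.2.2.2.2.2.1.1⟩⟩
theorem rf1k333 : CfgOK (rf1c333.e, rf1c333.n) := red_ln rf1h37.2.2.2.1 ⟨⟨rf1h37.2.2.2.1.1, rf1h43.2.2.2.2.2.2.1.1⟩, ⟨rf1h40.2.2.2.2.2.2.2.2.2.2.2.2.2.2.2.2.2.2.2.2.2.2.2.2.2.2.2.2.2.2.2.2.2.2.2.2.1.1, rf1h23.2.2.2.2.2.2.2.1.1⟩⟩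
theorem rf1k334 : CfgOK (rf1c334.e, rf1c334.n) := red_ln rf1h37.2.2.1 ⟨⟨⟨rf1h37.2.2.1.1, rf1h43.2.2.2.2.2.1.1⟩, ⟨rf1h40.2.2.2.2.2.2.2.2.2.2.2.2.2.2.2.2.2.2.2.2.2.2.2.2.2.2.2.2.2.2.2.2.2.2.2.1.1, rf1h23.2.2.2.2.2.2.1.1⟩⟩, ⟨⟨rf1h44.2.2.2.2.2.2.2.2.2.2.2.2.2.2.2.2.2.2.2.2.2.2.2.2.2.2.1.1, rf1h47.1.1⟩, ⟨rf1h23.2.2.2.2.2.1.1, rf1h48.2.2.2.2.2.2.2.2.1.1⟩⟩⟩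
theorem rf1k335 : CfgOK (rf1c335.e, rf1c335.n) := red_ln rf1h37.2.1 ⟨rf1h37.2.1.1, rf1h42.2.2.2.2.2.2.2.2.2.2.2.2.2.2.2.2.2.2.2.2.2.2.1.1⟩
theorem rf1k336 : CfgOK (rf1c336.e, rf1c336.n) := red_ln rf1h37.1 ⟨rf1h37.1.1, rf1h42.2.2.2.2.2.2.2.2.2.1.1⟩
theorem rf1k337 : CfgOK (rf1c337.e, rf1c337.n) := red_ln rf1h36.2.2.2.2.2.2.2.2.2.2.2.2.2.2.2.2.2.2.2.2.2.2.2.2.2.2.2.2.2.1 ⟨⟨⟨rf1h36.2.2.2.2.2.2.2.2.2.2.2.2.2.2.2.2.2.2.2.2.2.2.2.2.2.2.2.2.2.1.1, rf1h42.2.1.1⟩, ⟨rf1h44.2.2.2.2.2.2.2.2.2.2.2.2.2.2.1.1, rf1h46.2.2.2.2.2.2.2.2.2.2.2.2.2.2.2.2.2.2.2.2.2.2.2.2.2.1.1⟩⟩, ⟨⟨rf1h40.2.2.2.2.2.2.2.2.2.2.2.2.2.2.2.2.2.2.2.2.2.2.2.2.2.2.2.2.2.2.2.2.2.2.1.1, rf1h23.2.2.2.2.1.1⟩,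 ⟨rf1h23.2.2.2.1.1, rf1h48.2.2.2.2.2.2.2.1.1⟩⟩⟩
theorem rf1k338 : CfgOK (rf1c338.e, rf1c338.n) := red_ln rf1h36.2.2.2.2.2.2.2.2.2.2.2.2.2.2.2.2.2.2.2.2.2.2.2.2.2.2.2.2.1 rf1h36.2.2.2.2.2.2.2.2.2.2.2.2.2.2.2.2.2.2.2.2.2.2.2.2.2.2.2.2.1.1
theorem rf1k339 : CfgOK (rf1c339.e, rf1c339.n) := red_ln rf1h36.2.2.2.2.2.2.2.2.2.2.2.2.2.2.2.2.2.2.2.2.2.2.2.2.2.2.2.1 rf1h36.2.2.2.2.2.2.2.2.2.2.2.2.2.2.2.2.2.2.2.2.2.2.2.2.2.2.2.1.1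
theorem rf1k340 : CfgOK (rf1c340.e, rf1c340.n) := red_ln rf1h36.2.2.2.2.2.2.2.2.2.2.2.2.2.2.2.2.2.2.2.2.2.2.2.2.2.2.1 rf1h36.2.2.2.2.2.2.2.2.2.2.2.2.2.2.2.2.2.2.2.2.2.2.2.2.2.2.1.1
theorem rf1k341 : CfgOK (rf1c341.e, rf1c341.n) := red_ln rf1h36.2.2.2.2.2.2.2.2.2.2.2.2.2.2.2.2.2.2.2.2.2.2.2.2.2.1 rf1h36.2.2.2.2.2.2.2.2.2.2.2.2.2.2.2.2.2.2.2.2.2.2.2.2.2.1.1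
theorem rf1k342 : CfgOK (rf1c342.e, rf1c342.n) := red_ln rf1h36.2.2.2.2.2.2.2.2.2.2.2.2.2.2.2.2.2.2.2.2.2.2.2.2.1 rf1h36.2.2.2.2.2.2.2.2.2.2.2.2.2.2.2.2.2.2.2.2.2.2.2.2.1.1
theorem rf1k343 : CfgOK (rf1c343.e, rf1c343.n) := red_ln rf1h36.2.2.2.2.2.2.2.2.2.2.2.2.2.2.2.2.2.2.2.2.2.2.2.1 rf1h36.2.2.2.2.2.2.2.2.2.2.2.2.2.2.2.2.2.2.2.2.2.2.2.1.1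
theorem rf1k344 : CfgOK (rf1c344.e, rf1c344.n) := red_ln rf1h36.2.2.2.2.2.2.2.2.2.2.2.2.2.2.2.2.2.2.2.2.2.2.1 rf1h36.2.2.2.2.2.2.2.2.2.2.2.2.2.2.2.2.2.2.2.2.2.2.1.1
theorem rf1k345 : CfgOK (rf1c345.e, rf1c345.n) := red_ln rf1h36.2.2.2.2.2.2.2.2.2.2.2.2.2.2.2.2.2.2.2.2.2.1 rf1h36.2.2.2.2.2.2.2.2.2.2.2.2.2.2.2.2.2.2.2.2.2.1.1
theorem rf1k346 : CfgOK (rf1c346.e, rf1c346.n) := red_ln rf1h36.2.2.2.2.2.2.2.2.2.2.2.2.2.2.2.2.2.2.2.2.1 ⟨rf1h36.2.2.2.2.2.2.2.2.2.2.2.2.2.2.2.2.2.2.2.2.1.1, rf1h40.2.2.2.2.2.2.2.2.2.2.2.2.2.2.2.2.2.2.2.2.2.2.2.2.2.2.2.2.2.2.2.2.2.1.1⟩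
theorem rf1k347 : CfgOK (rf1c347.e, rf1c347.n) := red_ln rf1h36.2.2.2.2.2.2.2.2.2.2.2.2.2.2.2.2.2.2.2.1 ⟨rf1h36.2.2.2.2.2.2.2.2.2.2.2.2.2.2.2.2.2.2.2.1.1, rf1h40.2.2.2.2.2.2.2.2.2.2.2.2.2.2.2.2.2.2.2.2.2.2.2.2.2.2.2.2.2.2.2.2.1.1⟩
theorem rf1k348 : CfgOK (rf1c348.e, rf1c348.n) := red_ln rf1h36.2.2.2.2.2.2.2.2.2.2.2.2.2.2.2.2.2.2.1 ⟨rf1h36.2.2.2.2.2.2.2.2.2.2.2.2.2.2.2.2.2.2.1.1, rf1h40.2.2.2.2.2.2.2.2.2.2.2.2.2.2.2.2.2.2.2.2.2.2.2.2.2.2.2.2.2.2.2.1.1⟩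
theorem rf1k349 : CfgOK (rf1c349.e, rf1c349.n) := red_ln rf1h36.2.2.2.2.2.2.2.2.2.2.2.2.2.2.2.2.2.1 ⟨rf1h36.2.2.2.2.2.2.2.2.2.2.2.2.2.2.2.2.2.1.1, rf1h40.2.2.2.2.2.2.2.2.2.2.2.2.2.2.2.2.2.2.2.2.2.2.2.2.2.2.2.2.2.2.1.1⟩
theorem rf1k350 : CfgOK (rf1c350.e, rf1c350.n) := red_ln rf1h36.2.2.2.2.2.2.2.2.2.2.2.2.2.2.2.2.1 ⟨rf1h36.2.2.2.2.2.2.2.2.2.2.2.2.2.2.2.2.1.1, rf1h40.2.2.2.2.2.2.2.2.2.2.2.2.2.2.2.2.2.2.2.2.2.2.2.2.2.2.2.2.2.1.1⟩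
theorem rf1k351 : CfgOK (rf1c351.e, rf1c351.n) := red_ln rf1h36.2.2.2.2.2.2.2.2.2.2.2.2.2.2.2.1 ⟨rf1h36.2.2.2.2.2.2.2.2.2.2.2.2.2.2.2.1.1, rf1h40.2.2.2.2.2.2.2.2.2.2.2.2.2.2.2.2.2.2.2.2.2.2.2.2.2.2.2.2.1.1⟩
theorem rf1k352 : CfgOK (rf1c352.e, rf1c352.n) := red_ln rf1h36.2.2.2.2.2.2.2.2.2.2.2.2.2.2.1 ⟨rf1h36.2.2.2.2.2.2.2.2.2.2.2.2.2.2.1.1, rf1h40.2.2.2.2.2.2.2.2.2.2.2.2.2.2.2.2.2.2.2.2.2.2.2.2.2.2.2.1.1⟩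
theorem rf1k353 : CfgOK (rf1c353.e, rf1c353.n) := red_ln rf1h36.2.2.2.2.2.2.2.2.2.2.2.2.2.1 ⟨rf1h36.2.2.2.2.2.2.2.2.2.2.2.2.2.1.1, rf1h40.2.2.2.2.2.2.2.2.2.2.2.2.2.2.2.2.2.2.2.2.2.2.2.2.2.2.1.1⟩
theorem rf1k354 : CfgOK (rf1c354.e, rf1c354.n) := red_ln rf1h36.2.2.2.2.2.2.2.2.2.2.2.2.1 ⟨rf1h36.2.2.2.2.2.2.2.2.2.2.2.2.1.1, rf1h40.2.2.2.2.2.2.2.2.2.2.2.2.2.2.2.2.2.2.2.2.2.2.2.2.2.1.1⟩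
theorem rf1k355 : CfgOK (rf1c355.e, rf1c355.n) := red_ln rf1h36.2.2.2.2.2.2.2.2.2.2.2.1 ⟨rf1h36.2.2.2.2.2.2.2.2.2.2.2.1.1, rf1h40.2.2.2.2.2.2.2.2.2.2.2.2.2.2.2.2.2.2.2.2.2.2.2.2.1.1⟩
theorem rf1k356 : CfgOK (rf1c356.e, rf1c356.n) := red_ln rf1h36.2.2.2.2.2.2.2.2.2.2.1 ⟨rf1h36.2.2.2.2.2.2.2.2.2.2.1.1, rf1h40.2.2.2.2.2.2.2.2.2.2.2.2.2.2.2.2.2.2.2.2.2.2.2.1.1⟩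
theorem rf1k357 : CfgOK (rf1c357.e, rf1c357.n) := red_ln rf1h36.2.2.2.2.2.2.2.2.2.1 ⟨rf1h36.2.2.2.2.2.2.2.2.2.1.1, rf1h40.2.2.2.2.2.2.2.2.2.2.2.2.2.2.2.2.2.2.2.2.2.2.1.1⟩
theorem rf1k358 : CfgOK (rf1c358.e, rf1c358.n) := red_ln rf1h36.2.2.2.2.2.2.2.2.1 ⟨rf1h36.2.2.2.2.2.2.2.2.1.1, rf1h40.2.2.2.2.2.2.2.2.2.2.2.2.2.2.2.2.2.2.2.2.2.1.1⟩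
theorem rf1k359 : CfgOK (rf1c359.e, rf1c359.n) := red_ln rf1h36.2.2.2.2.2.2.2.1 ⟨rf1h36.2.2.2.2.2.2.2.1.1, rf1h40.2.2.2.2.2.2.2.2.2.2.2.2.2.2.2.2.2.2.2.2.1.1⟩
theorem rf1k360 : CfgOK (rf1c360.e, rf1c360.n) := red_ln rf1h36.2.2.2.2.2.2.1 ⟨rf1h36.2.2.2.2.2.2.1.1, rf1h40.2.2.2.2.2.2.2.2.2.2.2.2.2.2.2.2.2.2.2.1.1⟩
theorem rf1k361 : CfgOK (rf1c361.e, rf1c361.n) := red_ln rf1h36.2.2.2.2.2.1 ⟨⟨rf1h36.2.2.2.2.2.1.1, rf1h40.2.2.2.2.2.2.2.2.2.2.2.2.2.2.2.2.2.2.1.1⟩, ⟨rf1h44.2.1.1, rf1h23.2.2.1.1⟩⟩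
theorem rf1k362 : CfgOK (rf1c362.e, rf1c362.n) := red_ln rf1h36.2.2.2.2.1 ⟨⟨rf1h36.2.2.2.2.1.1, rf1h40.2.2.2.2.2.2.2.2.2.2.2.2.2.2.2.2.2.1.1⟩, ⟨rf1h44.1.1, rf1h23.2.1.1⟩⟩
theorem rf1k363 : CfgOK (rf1c363.e, rf1c363.n) := red_ln rf1h36.2.2.2.1 ⟨⟨⟨rf1h36.2.2.2.1.1, rf1h40.2.2.2.2.2.2.2.2.2.2.2.2.2.2.2.2.1.1⟩, ⟨rf1h42.2.2.2.2.2.2.2.2.2.2.2.2.2.1.1, rf1h23.1.1⟩⟩, ⟨⟨rf1h43.2.2.2.2.2.2.2.2.2.2.2.2.2.2.2.2.2.2.2.2.2.2.2.2.2.2.2.2.2.1.1, rf1h12.2.2.2.2.2.2.2.2.2.2.2.2.2.2.2.2.2.2.2.2.2.2.2.2.2.2.2.2.2.2.2.2.2.2.2.2.2.2.2.1.1⟩, ⟨rf1h45.2.2.2.2.2.2.2.2.2.2.2.2.2.2.2.2.2.2.2.2.2.2.2.2.1.1, rf1h48.2.2.2.2.2.2.1.1⟩⟩⟩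
theorem rf1k364 : CfgOK (rf1c364.e, rf1c364.n) := red_ln rf1h36.2.2.1 ⟨⟨rf1h36.2.2.1.1, rf1h43.2.2.2.2.2.2.2.2.2.2.2.2.2.2.2.2.2.2.2.2.2.2.2.2.2.2.2.2.1.1⟩, ⟨rf1h40.2.2.2.2.2.2.2.2.2.2.2.2.2.2.2.1.1, rf1h12.2.2.2.2.2.2.2.2.2.2.2.2.2.2.2.2.2.2.2.2.2.2.2.2.2.2.2.2.2.2.2.2.2.2.2.2.2.2.1.1⟩⟩
theorem rf1k365 : CfgOK (rf1c365.e, rf1c365.n) := red_ln rf1h36.2.1 ⟨⟨rf1h36.2.1.1, rf1h43.2.2.2.2.2.2.2.2.2.2.2.2.2.2.2.2.2.2.2.2.2.2.2.2.2.2.2.1.1⟩, ⟨rf1h40.2.2.2.2.2.2.2.2.2.2.2.2.2.2.1.1, rf1h12.2.2.2.2.2.2.2.2.2.2.2.2.2.2.2.2.2.2.2.2.2.2.2.2.2.2.2.2.2.2.2.2.2.2.2.2.2.1.1⟩⟩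
theorem rf1k366 : CfgOK (rf1c366.e, rf1c366.n) := red_ln rf1h36.1 ⟨⟨rf1h36.1.1, rf1h43.2.2.2.2.2.2.2.2.2.2.2.2.2.2.2.2.2.2.2.2.2.2.2.2.2.2.1.1⟩, ⟨rf1h40.2.2.2.2.2.2.2.2.2.2.2.2.2.1.1, rf1h12.2.2.2.2.2.2.2.2.2.2.2.2.2.2.2.2.2.2.2.2.2.2.2.2.2.2.2.2.2.2.2.2.2.2.2.2.1.1⟩⟩
theorem rf1k367 : CfgOK (rf1c367.e, rf1c367.n) := red_ln rf1h35.2.2.2.2.2.2.2.2.2.2.2.2.2.2.2.2.2.2.2.2.2.2.2.2.2.2.2.2.2.1 ⟨⟨⟨rf1h35.2.2.2.2.2.2.2.2.2.2.2.2.2.2.2.2.2.2.2.2.2.2.2.2.2.2.2.2.2.1.1, rf1h43.2.2.2.2.2.2.2.2.2.2.2.2.2.2.2.2.2.2.2.2.2.2.2.2.2.1.1⟩, ⟨rf1h40.2.2.2.2.2.2.2.2.2.2.2.2.1.1, rf1h12.2.2.2.2.2.2.2.2.2.2.2.2.2.2.2.2.2.2.2.2.2.2.2.2.2.2.2.2.2.2.2.2.2.2.2.1.1⟩⟩, ⟨⟨rf1h42.2.2.2.2.2.2.2.2.2.2.2.2.2.2.2.2.2.2.2.2.2.1.1,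 rf1h46.2.2.2.2.2.2.2.2.2.2.2.2.1.1⟩, ⟨rf1h12.2.2.2.2.2.2.2.2.2.2.2.2.2.2.2.2.2.2.2.2.2.2.2.2.2.2.2.2.2.2.2.2.2.2.1.1, rf1h48.2.2.2.2.2.1.1⟩⟩⟩
theorem rf1k368 : CfgOK (rf1c368.e, rf1c368.n) := red_ln rf1h35.2.2.2.2.2.2.2.2.2.2.2.2.2.2.2.2.2.2.2.2.2.2.2.2.2.2.2.2.1 ⟨⟨rf1h35.2.2.2.2.2.2.2.2.2.2.2.2.2.2.2.2.2.2.2.2.2.2.2.2.2.2.2.2.1.1, rf1h43.2.2.2.2.1.1⟩, ⟨rf1h40.2.2.2.2.2.2.2.2.2.2.2.1.1, rf1h12.2.2.2.2.2.2.2.2.2.2.2.2.2.2.2.2.2.2.2.2.2.2.2.2.2.2.2.2.2.2.2.2.2.1.1⟩⟩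
theorem rf1k369 : CfgOK (rf1c369.e, rf1c369.n) := red_ln rf1h35.2.2.2.2.2.2.2.2.2.2.2.2.2.2.2.2.2.2.2.2.2.2.2.2.2.2.2.1 ⟨rf1h35.2.2.2.2.2.2.2.2.2.2.2.2.2.2.2.2.2.2.2.2.2.2.2.2.2.2.2.1.1, rf1h42.2.2.2.2.2.2.2.2.2.2.2.2.2.2.2.2.2.2.2.2.1.1⟩
theorem rf1k370 : CfgOK (rf1c370.e, rf1c370.n) := red_ln rf1h35.2.2.2.2.2.2.2.2.2.2.2.2.2.2.2.2.2.2.2.2.2.2.2.2.2.2.1 ⟨rf1h35.2.2.2.2.2.2.2.2.2.2.2.2.2.2.2.2.2.2.2.2.2.2.2.2.2.2.1.1, rf1h42.2.2.2.2.2.2.2.2.2.2.2.2.2.2.2.2.2.2.2.1.1⟩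
theorem rf1k371 : CfgOK (rf1c371.e, rf1c371.n) := red_ln rf1h35.2.2.2.2.2.2.2.2.2.2.2.2.2.2.2.2.2.2.2.2.2.2.2.2.2.1 ⟨⟨rf1h35.2.2.2.2.2.2.2.2.2.2.2.2.2.2.2.2.2.2.2.2.2.2.2.2.2.1.1, rf1h42.2.2.2.2.2.2.2.2.2.2.2.2.2.2.2.2.2.2.1.1⟩, ⟨rf1h40.2.2.2.2.2.2.2.2.2.2.1.1, rf1h12.2.2.2.2.2.2.2.2.2.2.2.2.2.2.2.2.2.2.2.2.2.2.2.2.2.2.2.2.2.2.2.2.1.1⟩⟩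
theorem rf1k372 : CfgOK (rf1c372.e, rf1c372.n) := red_ln rf1h35.2.2.2.2.2.2.2.2.2.2.2.2.2.2.2.2.2.2.2.2.2.2.2.2.1 ⟨⟨rf1h35.2.2.2.2.2.2.2.2.2.2.2.2.2.2.2.2.2.2.2.2.2.2.2.2.1.1, rf1h42.2.2.2.2.2.2.2.2.2.2.2.2.2.2.2.2.2.1.1⟩, ⟨rf1h40.2.2.2.2.2.2.2.2.2.1.1, rf1h12.2.2.2.2.2.2.2.2.2.2.2.2.2.2.2.2.2.2.2.2.2.2.2.2.2.2.2.2.2.2.2.1.1⟩⟩
theorem rf1k373 : CfgOK (rf1c373.e, rf1c373.n) := red_ln rf1h35.2.2.2.2.2.2.2.2.2.2.2.2.2.2.2.2.2.2.2.2.2.2.2.1 ⟨⟨rf1h35.2.2.2.2.2.2.2.2.2.2.2.2.2.2.2.2.2.2.2.2.2.2.2.1.1, rf1h42.2.2.2.2.2.2.2.2.2.2.2.2.2.2.2.2.1.1⟩, ⟨rf1h40.2.2.2.2.2.2.2.2.1.1, rf1h12.2.2.2.2.2.2.2.2.2.2.2.2.2.2.2.2.2.2.2.2.2.2.2.2.2.2.2.2.2.2.1.1⟩⟩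
theorem rf1k374 : CfgOK (rf1c374.e, rf1c374.n) := red_ln rf1h35.2.2.2.2.2.2.2.2.2.2.2.2.2.2.2.2.2.2.2.2.2.2.1 ⟨⟨⟨rf1h35.2.2.2.2.2.2.2.2.2.2.2.2.2.2.2.2.2.2.2.2.2.2.1.1, rf1h42.2.2.2.2.2.2.2.2.2.2.2.2.2.2.2.1.1⟩, ⟨rf1h43.2.2.2.2.2.2.2.2.2.2.2.2.2.2.2.2.2.2.2.2.2.2.2.2.1.1, rf1h46.2.2.2.2.2.2.2.2.2.2.2.1.1⟩⟩, ⟨⟨rf1h40.2.2.2.2.2.2.2.1.1, rf1h12.2.2.2.2.2.2.2.2.2.2.2.2.2.2.2.2.2.2.2.2.2.2.2.2.2.2.2.2.2.1.1⟩, ⟨rf1h12.2.2.2.2.2.2.2.2.2.2.2.2.2.2.2.2.2.2.2.2.2.2.2.2.2.2.2.2.1.1, rf1h48.2.2.2.2.1.1⟩⟩⟩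
theorem rf1k375 : CfgOK (rf1c375.e, rf1c375.n) := red_ln rf1h35.2.2.2.2.2.2.2.2.2.2.2.2.2.2.2.2.2.2.2.2.2.1 rf1h35.2.2.2.2.2.2.2.2.2.2.2.2.2.2.2.2.2.2.2.2.2.1.1
theorem rf1k376 : CfgOK (rf1c376.e, rf1c376.n) := red_ln rf1h35.2.2.2.2.2.2.2.2.2.2.2.2.2.2.2.2.2.2.2.2.1 rf1h35.2.2.2.2.2.2.2.2.2.2.2.2.2.2.2.2.2.2.2.2.1.1
theorem rf1k377 : CfgOK (rf1c377.e, rf1c377.n) := red_ln rf1h35.2.2.2.2.2.2.2.2.2.2.2.2.2.2.2.2.2.2.2.1 ⟨rf1h35.2.2.2.2.2.2.2.2.2.2.2.2.2.2.2.2.2.2.2.1.1, rf1h40.2.2.2.2.2.2.1.1⟩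
theorem rf1k378 : CfgOK (rf1c378.e, rf1c378.n) := red_ln rf1h35.2.2.2.2.2.2.2.2.2.2.2.2.2.2.2.2.2.2.1 ⟨rf1h35.2.2.2.2.2.2.2.2.2.2.2.2.2.2.2.2.2.2.1.1, rf1h40.2.2.2.2.2.1.1⟩
theorem rf1k379 : CfgOK (rf1c379.e, rf1c379.n) := red_ln rf1h35.2.2.2.2.2.2.2.2.2.2.2.2.2.2.2.2.2.1 ⟨rf1h35.2.2.2.2.2.2.2.2.2.2.2.2.2.2.2.2.2.1.1, rf1h40.2.2.2.2.1.1⟩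
theorem rf1k380 : CfgOK (rf1c380.e, rf1c380.n) := red_ln rf1h35.2.2.2.2.2.2.2.2.2.2.2.2.2.2.2.2.1 ⟨rf1h35.2.2.2.2.2.2.2.2.2.2.2.2.2.2.2.2.1.1, rf1h40.2.2.2.1.1⟩
theorem rf1k381 : CfgOK (rf1c381.e, rf1c381.n) := red_ln rf1h35.2.2.2.2.2.2.2.2.2.2.2.2.2.2.2.1 ⟨rf1h35.2.2.2.2.2.2.2.2.2.2.2.2.2.2.2.1.1, rf1h40.2.2.1.1⟩
theorem rf1k382 : CfgOK (rf1c382.e, rf1c382.n) := red_ln rf1h35.2.2.2.2.2.2.2.2.2.2.2.2.2.2.1 ⟨rf1h35.2.2.2.2.2.2.2.2.2.2.2.2.2.2.1.1, rf1h40.2.1.1⟩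
theorem rf1k383 : CfgOK (rf1c383.e, rf1c383.n) := red_ln rf1h35.2.2.2.2.2.2.2.2.2.2.2.2.2.1 ⟨⟨rf1h35.2.2.2.2.2.2.2.2.2.2.2.2.2.1.1, rf1h40.1.1⟩, ⟨rf1h43.2.2.2.2.2.2.2.2.2.2.2.2.2.2.2.2.2.2.2.2.2.2.2.1.1, rf1h12.2.2.2.2.2.2.2.2.2.2.2.2.2.2.2.2.2.2.2.2.2.2.2.2.2.2.2.1.1⟩⟩
theorem rf1k384 : CfgOK (rf1c384.e, rf1c384.n) := red_ln rf1h35.2.2.2.2.2.2.2.2.2.2.2.2.1 ⟨⟨rf1h35.2.2.2.2.2.2.2.2.2.2.2.2.1.1, rf1h39.2.2.2.2.2.2.2.2.2.2.2.2.2.2.2.2.2.2.2.2.2.2.2.2.2.2.2.2.2.2.2.2.2.2.2.2.2.2.2.1.1⟩, ⟨rf1h42.2.2.2.1.1, rf1h12.2.2.2.2.2.2.2.2.2.2.2.2.2.2.2.2.2.2.2.2.2.2.2.2.2.2.1.1⟩⟩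
theorem rf1k385 : CfgOK (rf1c385.e, rf1c385.n) := red_ln rf1h35.2.2.2.2.2.2.2.2.2.2.2.1 ⟨rf1h35.2.2.2.2.2.2.2.2.2.2.2.1.1, rf1h43.2.2.2.2.2.2.2.2.2.2.2.2.2.2.2.2.2.2.2.2.2.2.1.1⟩
theorem rf1k386 : CfgOK (rf1c386.e, rf1c386.n) := red_ln rf1h35.2.2.2.2.2.2.2.2.2.2.1 ⟨⟨rf1h35.2.2.2.2.2.2.2.2.2.2.1.1, rf1h43.2.2.2.2.2.2.2.2.2.2.2.2.2.2.2.2.2.2.2.2.2.1.1⟩, ⟨rf1h39.2.2.2.2.2.2.2.2.2.2.2.2.2.2.2.2.2.2.2.2.2.2.2.2.2.2.2.2.2.2.2.2.2.2.2.2.2.2.1.1, rf1h12.2.2.2.2.2.2.2.2.2.2.2.2.2.2.2.2.2.2.2.2.2.2.2.2.2.1.1⟩⟩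
theorem rf1k387 : CfgOK (rf1c387.e, rf1c387.n) := red_ln rf1h35.2.2.2.2.2.2.2.2.2.1 ⟨⟨rf1h35.2.2.2.2.2.2.2.2.2.1.1, rf1h43.2.2.2.2.2.2.2.2.2.2.2.2.2.2.2.2.2.2.2.2.1.1⟩, ⟨rf1h39.2.2.2.2.2.2.2.2.2.2.2.2.2.2.2.2.2.2.2.2.2.2.2.2.2.2.2.2.2.2.2.2.2.2.2.2.2.1.1, rf1h12.2.2.2.2.2.2.2.2.2.2.2.2.2.2.2.2.2.2.2.2.2.2.2.2.1.1⟩⟩
theorem rf1k388 : CfgOK (rf1c388.e, rf1c388.n) := red_ln rf1h35.2.2.2.2.2.2.2.2.1 ⟨⟨rf1h35.2.2.2.2.2.2.2.2.1.1, rf1h43.2.2.2.2.2.2.2.2.2.2.2.2.2.2.2.2.2.2.2.1.1⟩, ⟨rf1h39.2.2.2.2.2.2.2.2.2.2.2.2.2.2.2.2.2.2.2.2.2.2.2.2.2.2.2.2.2.2.2.2.2.2.2.2.1.1, rf1h12.2.2.2.2.2.2.2.2.2.2.2.2.2.2.2.2.2.2.2.2.2.2.2.1.1⟩⟩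
theorem rf1k389 : CfgOK (rf1c389.e, rf1c389.n) := red_ln rf1h35.2.2.2.2.2.2.2.1 ⟨⟨rf1h35.2.2.2.2.2.2.2.1.1, rf1h43.2.2.2.2.2.2.2.2.2.2.2.2.2.2.2.2.2.2.1.1⟩, ⟨rf1h39.2.2.2.2.2.2.2.2.2.2.2.2.2.2.2.2.2.2.2.2.2.2.2.2.2.2.2.2.2.2.2.2.2.2.2.1.1, rf1h12.2.2.2.2.2.2.2.2.2.2.2.2.2.2.2.2.2.2.2.2.2.2.1.1⟩⟩
theorem rf1k390 : CfgOK (rf1c390.e, rf1c390.n) := red_ln rf1h35.2.2.2.2.2.2.1 ⟨⟨rf1h35.2.2.2.2.2.2.1.1, rf1h43.2.2.2.2.2.2.2.2.2.2.2.2.2.2.2.2.2.1.1⟩, ⟨rf1h39.2.2.2.2.2.2.2.2.2.2.2.2.2.2.2.2.2.2.2.2.2.2.2.2.2.2.2.2.2.2.2.2.2.2.1.1, rf1h12.2.2.2.2.2.2.2.2.2.2.2.2.2.2.2.2.2.2.2.2.2.1.1⟩⟩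
theorem rf1k391 : CfgOK (rf1c391.e, rf1c391.n) := red_ln rf1h35.2.2.2.2.2.1 ⟨⟨⟨rf1h35.2.2.2.2.2.1.1, rf1h43.2.2.2.2.2.2.2.2.2.2.2.2.2.2.2.2.1.1⟩, ⟨rf1h39.2.2.2.2.2.2.2.2.2.2.2.2.2.2.2.2.2.2.2.2.2.2.2.2.2.2.2.2.2.2.2.2.2.1.1, rf1h12.2.2.2.2.2.2.2.2.2.2.2.2.2.2.2.2.2.2.2.2.1.1⟩⟩, ⟨⟨rf1h42.2.2.2.2.2.2.2.2.1.1, rf1h45.2.2.2.2.2.2.2.2.2.2.2.2.2.2.2.2.2.2.2.2.2.2.2.1.1⟩, ⟨rf1h12.2.2.2.2.2.2.2.2.2.2.2.2.2.2.2.2.2.2.2.1.1, rf1h48.2.2.2.1.1⟩⟩⟩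
theorem rf1k392 : CfgOK (rf1c392.e, rf1c392.n) := red_ln rf1h35.2.2.2.2.1 ⟨⟨rf1h35.2.2.2.2.1.1, rf1h43.2.2.2.1.1⟩, ⟨rf1h39.2.2.2.2.2.2.2.2.2.2.2.2.2.2.2.2.2.2.2.2.2.2.2.2.2.2.2.2.2.2.2.2.1.1, rf1h12.2.2.2.2.2.2.2.2.2.2.2.2.2.2.2.2.2.2.1.1⟩⟩
theorem rf1k393 : CfgOK (rf1c393.e, rf1c393.n) := red_ln rf1h35.2.2.2.1 ⟨⟨rf1h35.2.2.2.1.1, rf1h43.2.2.1.1⟩, ⟨rf1h39.2.2.2.2.2.2.2.2.2.2.2.2.2.2.2.2.2.2.2.2.2.2.2.2.2.2.2.2.2.2.2.1.1, rf1h12.2.2.2.2.2.2.2.2.2.2.2.2.2.2.2.2.2.1.1⟩⟩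
theorem rf1k394 : CfgOK (rf1c394.e, rf1c394.n) := red_ln rf1h35.2.2.1 ⟨⟨rf1h35.2.2.1.1, rf1h43.2.1.1⟩, ⟨rf1h39.2.2.2.2.2.2.2.2.2.2.2.2.2.2.2.2.2.2.2.2.2.2.2.2.2.2.2.2.2.2.1.1, rf1h12.2.2.2.2.2.2.2.2.2.2.2.2.2.2.2.2.1.1⟩⟩
theorem rf1k395 : CfgOK (rf1c395.e, rf1c395.n) := red_ln rf1h35.2.1 ⟨⟨⟨rf1h35.2.1.1, rf1h43.1.1⟩, ⟨rf1h44.2.2.2.2.2.2.2.2.2.2.2.2.2.2.2.2.2.2.2.2.2.2.2.2.2.1.1, rf1h46.2.2.2.2.2.2.2.2.2.2.2.2.2.2.2.2.2.2.2.2.2.2.2.2.2.2.2.2.2.1.1⟩⟩, ⟨⟨rf1h39.2.2.2.2.2.2.2.2.2.2.2.2.2.2.2.2.2.2.2.2.2.2.2.2.2.2.2.2.2.1.1, rf1h12.2.2.2.2.2.2.2.2.2.2.2.2.2.2.2.1.1⟩, ⟨rf1h12.2.2.2.2.2.2.2.2.2.2.2.2.2.2.1.1, rf1h48.2.2.1.1⟩⟩⟩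
theorem rf1k396 : CfgOK (rf1c396.e, rf1c396.n) := red_ln rf1h35.1 ⟨rf1h35.1.1, rf1h42.2.2.2.2.2.2.2.2.2.2.2.2.2.2.1.1⟩
theorem rf1k397 : CfgOK (rf1c397.e, rf1c397.n) := red_ln rf1h33.2.2.2.2.2.2.2.2.2.2.2.2.2.2.2.2.2.2.2.2.2.2.2.2.2.2.2.2.2.1 ⟨⟨rf1h33.2.2.2.2.2.2.2.2.2.2.2.2.2.2.2.2.2.2.2.2.2.2.2.2.2.2.2.2.2.1.1, rf1h42.2.2.2.2.2.2.2.1.1⟩, ⟨rf1h39.2.2.2.2.2.2.2.2.2.2.2.2.2.2.2.2.2.2.2.2.2.2.2.2.2.2.2.2.1.1, rf1h12.2.2.2.2.2.2.2.2.2.2.2.2.2.1.1⟩⟩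
theorem rf1k398 : CfgOK (rf1c398.e, rf1c398.n) := red_ln rf1h33.2.2.2.2.2.2.2.2.2.2.2.2.2.2.2.2.2.2.2.2.2.2.2.2.2.2.2.2.1 ⟨⟨⟨rf1h33.2.2.2.2.2.2.2.2.2.2.2.2.2.2.2.2.2.2.2.2.2.2.2.2.2.2.2.2.1.1, rf1h42.2.2.2.2.2.2.1.1⟩, ⟨rf1h43.2.2.2.2.2.2.2.2.2.2.2.2.2.2.2.1.1, rf1h45.2.2.2.2.2.2.2.1.1⟩⟩, ⟨⟨rf1h39.2.2.2.2.2.2.2.2.2.2.2.2.2.2.2.2.2.2.2.2.2.2.2.2.2.2.2.1.1, rf1h12.2.2.2.2.2.2.2.2.2.2.2.2.1.1⟩, ⟨rf1h12.2.2.2.2.2.2.2.2.2.2.2.1.1, rf1h48.2.1.1⟩⟩⟩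
theorem rf1k399 : CfgOK (rf1c399.e, rf1c399.n) := red_ln rf1h33.2.2.2.2.2.2.2.2.2.2.2.2.2.2.2.2.2.2.2.2.2.2.2.2.2.2.2.1 ⟨⟨⟨rf1h33.2.2.2.2.2.2.2.2.2.2.2.2.2.2.2.2.2.2.2.2.2.2.2.2.2.2.2.1.1, rf1h42.2.2.2.2.2.1.1⟩, ⟨rf1h43.2.2.2.2.2.2.2.2.2.2.2.2.2.2.1.1, rf1h45.2.2.2.2.2.2.1.1⟩⟩, ⟨⟨rf1h39.2.2.2.2.2.2.2.2.2.2.2.2.2.2.2.2.2.2.2.2.2.2.2.2.2.2.1.1, rf1h12.2.2.2.2.2.2.2.2.2.2.1.1⟩, ⟨rf1h12.2.2.2.2.2.2.2.2.2.1.1, rf1h48.1.1⟩⟩⟩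
theorem rf1k400 : CfgOK (rf1c400.e, rf1c400.n) := red_ln rf1h33.2.2.2.2.2.2.2.2.2.2.2.2.2.2.2.2.2.2.2.2.2.2.2.2.2.2.1 ⟨⟨rf1h33.2.2.2.2.2.2.2.2.2.2.2.2.2.2.2.2.2.2.2.2.2.2.2.2.2.2.1.1, rf1h42.2.2.2.2.1.1⟩, ⟨rf1h42.2.2.2.2.2.2.2.2.2.2.2.2.1.1, rf1h45.2.1.1⟩⟩
theorem rf1k401 : CfgOK (rf1c401.e, rf1c401.n) := red_ln rf1h33.2.2.2.2.2.2.2.2.2.2.2.2.2.2.2.2.2.2.2.2.2.2.2.2.2.1 ⟨⟨rf1h33.2.2.2.2.2.2.2.2.2.2.2.2.2.2.2.2.2.2.2.2.2.2.2.2.2.1.1, rf1h42.1.1⟩, ⟨rf1h39.2.2.2.2.2.2.2.2.2.2.2.2.2.2.2.2.2.2.2.2.2.2.2.2.2.1.1, rf1h12.2.2.2.2.2.2.2.2.1.1⟩⟩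
theorem rf1k402 : CfgOK (rf1c402.e, rf1c402.n) := red_ln rf1h33.2.2.2.2.2.2.2.2.2.2.2.2.2.2.2.2.2.2.2.2.2.2.2.2.1 ⟨rf1h33.2.2.2.2.2.2.2.2.2.2.2.2.2.2.2.2.2.2.2.2.2.2.2.2.1.1, rf1h39.2.2.2.2.2.2.2.2.2.2.2.2.2.2.2.2.2.2.2.2.2.2.2.2.1.1⟩
theorem rf1k403 : CfgOK (rf1c403.e, rf1c403.n) := red_ln rf1h33.2.2.2.2.2.2.2.2.2.2.2.2.2.2.2.2.2.2.2.2.2.2.2.1 ⟨rf1h33.2.2.2.2.2.2.2.2.2.2.2.2.2.2.2.2.2.2.2.2.2.2.2.1.1, rf1h39.2.2.2.2.2.2.2.2.2.2.2.2.2.2.2.2.2.2.2.2.2.2.2.1.1⟩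
theorem rf1k404 : CfgOK (rf1c404.e, rf1c404.n) := red_ln rf1h33.2.2.2.2.2.2.2.2.2.2.2.2.2.2.2.2.2.2.2.2.2.2.1 ⟨rf1h33.2.2.2.2.2.2.2.2.2.2.2.2.2.2.2.2.2.2.2.2.2.2.1.1, rf1h39.2.2.2.2.2.2.2.2.2.2.2.2.2.2.2.2.2.2.2.2.2.2.1.1⟩
theorem rf1k405 : CfgOK (rf1c405.e, rf1c405.n) := red_ln rf1h33.2.2.2.2.2.2.2.2.2.2.2.2.2.2.2.2.2.2.2.2.2.1 ⟨rf1h33.2.2.2.2.2.2.2.2.2.2.2.2.2.2.2.2.2.2.2.2.2.1.1, rf1h39.2.2.2.2.2.2.2.2.2.2.2.2.2.2.2.2.2.2.2.2.2.1.1⟩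
theorem rf1k406 : CfgOK (rf1c406.e, rf1c406.n) := red_ln rf1h33.2.2.2.2.2.2.2.2.2.2.2.2.2.2.2.2.2.2.2.2.1 ⟨rf1h33.2.2.2.2.2.2.2.2.2.2.2.2.2.2.2.2.2.2.2.2.1.1, rf1h39.2.2.2.2.2.2.2.2.2.2.2.2.2.2.2.2.2.2.2.2.1.1⟩
theorem rf1k407 : CfgOK (rf1c407.e, rf1c407.n) := red_ln rf1h33.2.2.2.2.2.2.2.2.2.2.2.2.2.2.2.2.2.2.2.1 ⟨rf1h33.2.2.2.2.2.2.2.2.2.2.2.2.2.2.2.2.2.2.2.1.1, rf1h39.2.2.2.2.2.2.2.2.2.2.2.2.2.2.2.2.2.2.2.1.1⟩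
theorem rf1k408 : CfgOK (rf1c408.e, rf1c408.n) := red_ln rf1h33.2.2.2.2.2.2.2.2.2.2.2.2.2.2.2.2.2.2.1 ⟨rf1h33.2.2.2.2.2.2.2.2.2.2.2.2.2.2.2.2.2.2.1.1, rf1h39.2.2.2.2.2.2.2.2.2.2.2.2.2.2.2.2.2.2.1.1⟩
theorem rf1k409 : CfgOK (rf1c409.e, rf1c409.n) := red_ln rf1h33.2.2.2.2.2.2.2.2.2.2.2.2.2.2.2.2.2.1 ⟨rf1h33.2.2.2.2.2.2.2.2.2.2.2.2.2.2.2.2.2.1.1, rf1h39.2.2.2.2.2.2.2.2.2.2.2.2.2.2.2.2.2.1.1⟩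
theorem rf1k410 : CfgOK (rf1c410.e, rf1c410.n) := red_ln rf1h33.2.2.2.2.2.2.2.2.2.2.2.2.2.2.2.2.1 ⟨rf1h33.2.2.2.2.2.2.2.2.2.2.2.2.2.2.2.2.1.1, rf1h39.2.2.2.2.2.2.2.2.2.2.2.2.2.2.2.2.1.1⟩
theorem rf1k411 : CfgOK (rf1c411.e, rf1c411.n) := red_ln rf1h33.2.2.2.2.2.2.2.2.2.2.2.2.2.2.2.1 ⟨rf1h33.2.2.2.2.2.2.2.2.2.2.2.2.2.2.2.1.1, rf1h39.2.2.2.2.2.2.2.2.2.2.2.2.2.2.2.1.1⟩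
theorem rf1k412 : CfgOK (rf1c412.e, rf1c412.n) := red_ln rf1h33.2.2.2.2.2.2.2.2.2.2.2.2.2.2.1 ⟨rf1h33.2.2.2.2.2.2.2.2.2.2.2.2.2.2.1.1, rf1h39.2.2.2.2.2.2.2.2.2.2.2.2.2.2.1.1⟩
theorem rf1k413 : CfgOK (rf1c413.e, rf1c413.n) := red_ln rf1h33.2.2.2.2.2.2.2.2.2.2.2.2.2.1 ⟨rf1h33.2.2.2.2.2.2.2.2.2.2.2.2.2.1.1, rf1h39.2.2.2.2.2.2.2.2.2.2.2.2.2.1.1⟩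
theorem rf1k414 : CfgOK (rf1c414.e, rf1c414.n) := red_ln rf1h33.2.2.2.2.2.2.2.2.2.2.2.2.1 ⟨rf1h33.2.2.2.2.2.2.2.2.2.2.2.2.1.1, rf1h39.2.2.2.2.2.2.2.2.2.2.2.2.1.1⟩
theorem rf1k415 : CfgOK (rf1c415.e, rf1c415.n) := red_ln rf1h33.2.2.2.2.2.2.2.2.2.2.2.1 ⟨rf1h33.2.2.2.2.2.2.2.2.2.2.2.1.1, rf1h39.2.2.2.2.2.2.2.2.2.2.2.1.1⟩
theorem rf1k416 : CfgOK (rf1c416.e, rf1c416.n) := red_ln rf1h33.2.2.2.2.2.2.2.2.2.2.1 ⟨rf1h33.2.2.2.2.2.2.2.2.2.2.1.1, rf1h39.2.2.2.2.2.2.2.2.2.2.1.1⟩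
theorem rf1k417 : CfgOK (rf1c417.e, rf1c417.n) := red_ln rf1h33.2.2.2.2.2.2.2.2.2.1 ⟨rf1h33.2.2.2.2.2.2.2.2.2.1.1, rf1h39.2.2.2.2.2.2.2.2.2.1.1⟩
theorem rf1k418 : CfgOK (rf1c418.e, rf1c418.n) := red_ln rf1h33.2.2.2.2.2.2.2.2.1 ⟨rf1h33.2.2.2.2.2.2.2.2.1.1, rf1h39.2.2.2.2.2.2.2.2.1.1⟩
theorem rf1k419 : CfgOK (rf1c419.e, rf1c419.n) := red_ln rf1h33.2.2.2.2.2.2.2.1 ⟨⟨rf1h33.2.2.2.2.2.2.2.1.1, rf1h39.2.2.2.2.2.2.2.1.1⟩, ⟨rf1h43.2.2.2.2.2.2.2.2.2.2.2.2.2.1.1, rf1h12.2.2.2.2.2.2.2.1.1⟩⟩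
theorem rf1k420 : CfgOK (rf1c420.e, rf1c420.n) := red_ln rf1h33.2.2.2.2.2.2.1 ⟨⟨rf1h33.2.2.2.2.2.2.1.1, rf1h39.2.2.2.2.2.2.1.1⟩, ⟨rf1h42.2.2.2.2.2.2.2.2.2.2.2.2.2.2.2.2.2.2.2.2.2.2.2.2.2.2.2.2.2.1.1, rf1h12.2.2.2.2.2.2.1.1⟩⟩
theorem rf1k421 : CfgOK (rf1c421.e, rf1c421.n) := red_ln rf1h33.2.2.2.2.2.1 ⟨⟨rf1h33.2.2.2.2.2.1.1, rf1h39.2.2.2.2.2.1.1⟩, ⟨rf1h42.2.2.2.2.2.2.2.2.2.2.2.2.2.2.2.2.2.2.2.2.2.2.2.2.2.2.2.2.1.1, rf1h12.2.2.2.2.2.1.1⟩⟩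
theorem rf1k422 : CfgOK (rf1c422.e, rf1c422.n) := red_ln rf1h33.2.2.2.2.1 ⟨⟨rf1h33.2.2.2.2.1.1, rf1h39.2.2.2.2.1.1⟩, ⟨rf1h42.2.2.2.2.2.2.2.2.2.2.2.2.2.2.2.2.2.2.2.2.2.2.2.2.2.2.2.1.1, rf1h12.2.2.2.2.1.1⟩⟩
theorem rf1k423 : CfgOK (rf1c423.e, rf1c423.n) := red_ln rf1h33.2.2.2.1 ⟨⟨rf1h33.2.2.2.1.1, rf1h39.2.2.2.1.1⟩, ⟨rf1h42.2.2.2.2.2.2.2.2.2.2.2.2.2.2.2.2.2.2.2.2.2.2.2.2.2.2.1.1, rf1h12.2.2.2.1.1⟩⟩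
theorem rf1k424 : CfgOK (rf1c424.e, rf1c424.n) := red_ln rf1h33.2.2.1 ⟨⟨rf1h33.2.2.1.1, rf1h39.2.2.1.1⟩, ⟨rf1h42.2.2.2.2.2.2.2.2.2.2.2.2.2.2.2.2.2.2.2.2.2.2.2.2.2.1.1, rf1h12.2.2.1.1⟩⟩
theorem rf1k425 : CfgOK (rf1c425.e, rf1c425.n) := red_ln rf1h33.2.1 ⟨⟨rf1h33.2.1.1, rf1h39.2.1.1⟩, ⟨rf1h42.2.2.2.2.2.2.2.2.2.2.2.2.2.2.2.2.2.2.2.2.2.2.2.2.1.1, rf1h12.2.1.1⟩⟩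
theorem rf1k426 : CfgOK (rf1c426.e, rf1c426.n) := red_ln rf1h33.1 ⟨⟨rf1h33.1.1, rf1h43.2.2.2.2.2.2.2.2.2.2.2.2.1.1⟩, ⟨rf1h39.1.1, rf1h12.1.1⟩⟩

end Pool.Agent.Lib.G6.B
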