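import Pool.Agent.Lib.G6.BRed
import Pool.Agent.Lib.G6D.RF2

set_option autoImplicit false
set_option maxRecDepth 100000
set_option linter.all false

namespace Pool.Agent.Lib.G6.B

theorem rf2h0 : AllL LnOK rf2l0 := batch_of rf2th.1
theorem rf2h1 : AllL LnOK rf2l1 := batch_of rf2th.2.1
theorem rf2h2 : AllL LnOK rf2l10 := batch_of rf2th.2.2.2.2.2.2.2.2.2.2.1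
theorem rf2h3 : AllL LnOK rf2l11 := batch_of rf2th.2.2.2.2.2.2.2.2.2.2.2.1
theorem rf2h4 : AllL LnOK rf2l12 := batch_of rf2th.2.2.2.2.2.2.2.2.2.2.2.2.1
theorem rf2h5 : AllL LnOK rf2l13 := batch_of rf2th.2.2.2.2.2.2.2.2.2.2.2.2.2.1
theorem rf2h6 : AllL LnOK rf2l14 := batch_of rf2th.2.2.2.2.2.2.2.2.2.2.2.2.2.2.1
theorem rf2h7 : AllL LnOK rf2l15 := batch_of rf2th.2.2.2.2.2.2.2.2.2.2.2.2.2.2.2.1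
theorem rf2h8 : AllL LnOK rf2l16 := batch_of rf2th.2.2.2.2.2.2.2.2.2.2.2.2.2.2.2.2.1
theorem rf2h9 : AllL LnOK rf2l17 := batch_of rf2th.2.2.2.2.2.2.2.2.2.2.2.2.2.2.2.2.2.1
theorem rf2h10 : AllL LnOK rf2l18 := batch_of rf2th.2.2.2.2.2.2.2.2.2.2.2.2.2.2.2.2.2.2.1
theorem rf2h11 : AllL LnOK rf2l19 := batch_of rf2th.2.2.2.2.2.2.2.2.2.2.2.2.2.2.2.2.2.2.2.1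
theorem rf2h12 : AllL LnOK rf2l2 := batch_of rf2th.2.2.1
theorem rf2h13 : AllL LnOK rf2l20 := batch_of rf2th.2.2.2.2.2.2.2.2.2.2.2.2.2.2.2.2.2.2.2.2.1
theorem rf2h14 : AllL LnOK rf2l21 := batch_of rf2th.2.2.2.2.2.2.2.2.2.2.2.2.2.2.2.2.2.2.2.2.2.1
theorem rf2h15 : AllL LnOK rf2l22 := batch_of rf2th.2.2.2.2.2.2.2.2.2.2.2.2.2.2.2.2.2.2.2.2.2.2.1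
theorem rf2h16 : AllL LnOK rf2l23 := batch_of rf2th.2.2.2.2.2.2.2.2.2.2.2.2.2.2.2.2.2.2.2.2.2.2.2.1
theorem rf2h17 : AllL LnOK rf2l24 := batch_of rf2th.2.2.2.2.2.2.2.2.2.2.2.2.2.2.2.2.2.2.2.2.2.2.2.2.1
theorem rf2h18 : AllL LnOK rf2l25 := batch_of rf2th.2.2.2.2.2.2.2.2.2.2.2.2.2.2.2.2.2.2.2.2.2.2.2.2.2.1
theorem rf2h19 : AllL LnOK rf2l26 := batch_of rf2th.2.2.2.2.2.2.2.2.2.2.2.2.2.2.2.2.2.2.2.2.2.2.2.2.2.2.1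
theorem rf2h20 : AllL LnOK rf2l27 := batch_of rf2th.2.2.2.2.2.2.2.2.2.2.2.2.2.2.2.2.2.2.2.2.2.2.2.2.2.2.2.1
theorem rf2h21 : AllL LnOK rf2l28 := batch_of rf2th.2.2.2.2.2.2.2.2.2.2.2.2.2.2.2.2.2.2.2.2.2.2.2.2.2.2.2.2.1
theorem rf2h22 : AllL LnOK rf2l29 := batch_of rf2th.2.2.2.2.2.2.2.2.2.2.2.2.2.2.2.2.2.2.2.2.2.2.2.2.2.2.2.2.2.1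
theorem rf2h23 : AllL LnOK rf2l3 := batch_of rf2th.2.2.2.1
theorem rf2h24 : AllL LnOK rf2l30 := batch_of rf2th.2.2.2.2.2.2.2.2.2.2.2.2.2.2.2.2.2.2.2.2.2.2.2.2.2.2.2.2.2.2.1
theorem rf2h25 : AllL LnOK rf2l31 := batch_of rf2th.2.2.2.2.2.2.2.2.2.2.2.2.2.2.2.2.2.2.2.2.2.2.2.2.2.2.2.2.2.2.2.1
theorem rf2h26 : AllL LnOK rf2l32 := batch_of rf2th.2.2.2.2.2.2.2.2.2.2.2.2.2.2.2.2.2.2.2.2.2.2.2.2.2.2.2.2.2.2.2.2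
theorem rf2h27 : AllL LnOK rf2l4 := batch_of rf2th.2.2.2.2.1
theorem rf2h28 : AllL LnOK rf2l5 := batch_of rf2th.2.2.2.2.2.1
theorem rf2h29 : AllL LnOK rf2l6 := batch_of rf2th.2.2.2.2.2.2.1
theorem rf2h30 : AllL LnOK rf2l7 := batch_of rf2th.2.2.2.2.2.2.2.1
theorem rf2h31 : AllL LnOK rf2l8 := batch_of rf2th.2.2.2.2.2.2.2.2.1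
theorem rf2h32 : AllL LnOK rf2l9 := batch_of rf2th.2.2.2.2.2.2.2.2.2.1
theorem rf2k0 : CfgOK (rf2c0.e, rf2c0.n) := red_ln rf2h1.2.2.2.2.2.2.2.2.2.2.2.2.2.2.2.1 ⟨⟨rf2h1.2.2.2.2.2.2.2.2.2.2.2.2.2.2.2.1.1, rf2h31.2.2.2.2.2.2.2.2.2.2.2.2.2.2.2.2.2.2.2.2.2.2.2.2.2.2.2.2.1.1⟩, ⟨rf2h7.2.2.2.2.2.2.2.2.2.2.2.2.2.2.2.2.2.2.1.1, rf2h13.2.2.2.2.2.2.2.2.2.2.2.2.2.2.2.1.1⟩⟩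
theorem rf2k1 : CfgOK (rf2c1.e, rf2c1.n) := red_ln rf2h1.2.2.2.2.2.2.2.2.2.2.2.2.2.2.1 ⟨⟨rf2h1.2.2.2.2.2.2.2.2.2.2.2.2.2.2.1.1, rf2h31.2.2.2.2.2.2.2.2.2.2.2.2.2.2.2.2.2.2.2.2.2.2.2.2.2.2.2.1.1⟩, ⟨rf2h7.2.2.2.2.2.2.2.2.2.2.2.2.2.2.2.2.2.1.1, rf2h13.2.2.2.2.2.2.2.2.2.2.2.2.2.2.1.1⟩⟩
theorem rf2k2 : CfgOK (rf2c2.e, rf2c2.n) := red_ln rf2h1.2.2.2.2.2.2.2.2.2.2.2.2.2.1 ⟨⟨rf2h1.2.2.2.2.2.2.2.2.2.2.2.2.2.1.1, rf2h31.2.2.2.2.2.2.2.2.2.2.2.2.2.2.2.2.2.2.2.2.2.2.2.2.2.2.1.1⟩, ⟨rf2h7.2.2.2.2.2.2.2.2.2.2.2.2.2.2.2.2.1.1, rf2h13.2.2.2.2.2.2.2.2.2.2.2.2.2.1.1⟩⟩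
theorem rf2k3 : CfgOK (rf2c3.e, rf2c3.n) := red_ln rf2h1.2.2.2.2.2.2.2.2.2.2.2.2.1 ⟨⟨⟨rf2h1.2.2.2.2.2.2.2.2.2.2.2.2.1.1, rf2h31.2.2.2.2.2.2.2.2.2.2.2.2.2.2.2.2.2.2.2.2.2.2.2.2.2.1.1⟩, ⟨rf2h7.2.2.2.2.2.2.2.2.2.2.2.2.2.2.2.1.1, rf2h13.2.2.2.2.2.2.2.2.2.2.2.2.1.1⟩⟩, ⟨⟨rf2h12.2.2.2.2.2.2.2.2.2.2.2.2.2.2.2.2.2.2.2.1.1, rf2h14.2.2.2.2.2.2.2.2.2.2.2.2.2.2.2.2.2.2.2.2.2.2.1.1⟩, ⟨rf2h13.2.2.2.2.2.2.2.2.2.2.2.1.1, rf2h16.2.2.2.2.2.2.2.2.2.2.2.2.2.2.2.2.2.2.2.2.2.2.2.2.2.2.2.2.2.2.2.2.1.1⟩⟩⟩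
theorem rf2k4 : CfgOK (rf2c4.e, rf2c4.n) := red_ln rf2h1.2.2.2.2.2.2.2.2.2.2.2.1 ⟨⟨rf2h1.2.2.2.2.2.2.2.2.2.2.2.1.1, rf2h29.2.2.2.2.2.2.2.2.2.2.2.2.2.2.2.2.2.2.2.2.2.2.2.2.2.1.1⟩, ⟨rf2h7.2.2.2.2.2.2.2.2.2.2.2.2.2.2.1.1, rf2h13.2.2.2.2.2.2.2.2.2.2.1.1⟩⟩
theorem rf2k5 : CfgOK (rf2c5.e, rf2c5.n) := red_ln rf2h1.2.2.2.2.2.2.2.2.2.2.1 ⟨⟨rf2h1.2.2.2.2.2.2.2.2.2.2.1.1, rf2h29.2.2.2.2.2.2.2.2.2.2.2.2.2.2.2.2.2.2.2.2.2.2.2.2.1.1⟩, ⟨rf2h7.2.2.2.2.2.2.2.2.2.2.2.2.2.1.1, rf2h13.2.2.2.2.2.2.2.2.2.1.1⟩⟩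
theorem rf2k6 : CfgOK (rf2c6.e, rf2c6.n) := red_ln rf2h1.2.2.2.2.2.2.2.2.2.1 ⟨⟨rf2h1.2.2.2.2.2.2.2.2.2.1.1, rf2h29.2.2.2.2.2.2.2.2.2.2.2.2.2.2.2.2.2.2.2.2.2.2.2.1.1⟩, ⟨rf2h7.2.2.2.2.2.2.2.2.2.2.2.2.1.1, rf2h13.2.2.2.2.2.2.2.2.1.1⟩⟩
theorem rf2k7 : CfgOK (rf2c7.e, rf2c7.n) := red_ln rf2h1.2.2.2.2.2.2.2.2.1 ⟨⟨rf2h1.2.2.2.2.2.2.2.2.1.1, rf2h29.2.2.2.2.2.2.2.2.2.2.2.2.2.2.2.2.2.2.2.2.2.2.1.1⟩, ⟨rf2h7.2.2.2.2.2.2.2.2.2.2.2.1.1, rf2h13.2.2.2.2.2.2.2.1.1⟩⟩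
theorem rf2k8 : CfgOK (rf2c8.e, rf2c8.n) := red_ln rf2h1.2.2.2.2.2.2.2.1 ⟨⟨rf2h1.2.2.2.2.2.2.2.1.1, rf2h29.2.2.2.2.2.2.2.2.2.2.2.2.2.2.2.2.2.2.2.2.2.1.1⟩, ⟨rf2h7.2.2.2.2.2.2.2.2.2.2.1.1, rf2h13.2.2.2.2.2.2.1.1⟩⟩
theorem rf2k9 : CfgOK (rf2c9.e, rf2c9.n) := red_ln rf2h1.2.2.2.2.2.2.1 ⟨⟨rf2h1.2.2.2.2.2.2.1.1, rf2h28.2.2.1.1⟩, ⟨rf2h7.2.2.2.2.2.2.2.2.2.1.1, rf2h13.2.2.2.2.2.1.1⟩⟩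
theorem rf2k10 : CfgOK (rf2c10.e, rf2c10.n) := red_ln rf2h1.2.2.2.2.2.1 ⟨rf2h1.2.2.2.2.2.1.1, rf2h23.2.2.2.2.2.2.2.2.2.1.1⟩
theorem rf2k11 : CfgOK (rf2c11.e, rf2c11.n) := red_ln rf2h1.2.2.2.2.1 ⟨rf2h1.2.2.2.2.1.1, rf2h12.2.2.2.2.2.2.2.2.2.2.2.2.1.1⟩
theorem rf2k12 : CfgOK (rf2c12.e, rf2c12.n) := red_ln rf2h1.2.2.2.1 ⟨rf2h1.2.2.2.1.1, rf2h12.2.2.2.2.2.1.1⟩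
theorem rf2k13 : CfgOK (rf2c13.e, rf2c13.n) := red_ln rf2h1.2.2.1 ⟨rf2h1.2.2.1.1, rf2h7.2.2.2.2.2.2.2.2.1.1⟩
theorem rf2k14 : CfgOK (rf2c14.e, rf2c14.n) := red_ln rf2h1.2.1 ⟨rf2h1.2.1.1, rf2h7.2.2.2.2.2.2.2.1.1⟩
theorem rf2k15 : CfgOK (rf2c15.e, rf2c15.n) := red_ln rf2h1.1 ⟨rf2h1.1.1, rf2h7.2.2.2.2.2.2.1.1⟩
theorem rf2k16 : CfgOK (rf2c16.e, rf2c16.n) := red_ln rf2h0.2.2.2.2.2.2.2.2.2.2.2.2.2.2.2.2.2.2.2.2.2.2.2.2.2.2.2.2.2.1 ⟨rf2h0.2.2.2.2.2.2.2.2.2.2.2.2.2.2.2.2.2.2.2.2.2.2.2.2.2.2.2.2.2.1.1, rf2h7.2.2.2.2.2.1.1⟩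
theorem rf2k17 : CfgOK (rf2c17.e, rf2c17.n) := red_ln rf2h0.2.2.2.2.2.2.2.2.2.2.2.2.2.2.2.2.2.2.2.2.2.2.2.2.2.2.2.2.1 ⟨rf2h0.2.2.2.2.2.2.2.2.2.2.2.2.2.2.2.2.2.2.2.2.2.2.2.2.2.2.2.2.1.1, rf2h7.2.2.2.2.1.1⟩
theorem rf2k18 : CfgOK (rf2c18.e, rf2c18.n) := red_ln rf2h0.2.2.2.2.2.2.2.2.2.2.2.2.2.2.2.2.2.2.2.2.2.2.2.2.2.2.2.1 ⟨⟨rf2h0.2.2.2.2.2.2.2.2.2.2.2.2.2.2.2.2.2.2.2.2.2.2.2.2.2.2.2.1.1, rf2h31.2.2.2.2.2.2.2.2.2.2.2.2.2.2.2.2.2.2.2.2.2.2.2.2.1.1⟩, ⟨rf2h7.2.2.2.1.1, rf2h13.2.2.2.2.1.1⟩⟩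
theorem rf2k19 : CfgOK (rf2c19.e, rf2c19.n) := red_ln rf2h0.2.2.2.2.2.2.2.2.2.2.2.2.2.2.2.2.2.2.2.2.2.2.2.2.2.2.1 ⟨⟨rf2h0.2.2.2.2.2.2.2.2.2.2.2.2.2.2.2.2.2.2.2.2.2.2.2.2.2.2.1.1, rf2h29.2.2.2.2.2.2.2.2.2.2.2.2.2.2.2.2.2.2.2.2.1.1⟩, ⟨rf2h7.2.2.1.1, rf2h13.2.2.2.1.1⟩⟩
theorem rf2k20 : CfgOK (rf2c20.e, rf2c20.n) := red_ln rf2h0.2.2.2.2.2.2.2.2.2.2.2.2.2.2.2.2.2.2.2.2.2.2.2.2.2.1 ⟨⟨rf2h0.2.2.2.2.2.2.2.2.2.2.2.2.2.2.2.2.2.2.2.2.2.2.2.2.2.1.1, rf2h29.2.2.2.2.2.2.2.2.2.2.2.2.2.2.2.2.2.2.2.1.1⟩, ⟨rf2h7.2.1.1, rf2h13.2.2.1.1⟩⟩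
theorem rf2k21 : CfgOK (rf2c21.e, rf2c21.n) := red_ln rf2h0.2.2.2.2.2.2.2.2.2.2.2.2.2.2.2.2.2.2.2.2.2.2.2.2.1 ⟨⟨⟨rf2h0.2.2.2.2.2.2.2.2.2.2.2.2.2.2.2.2.2.2.2.2.2.2.2.2.1.1, rf2h29.2.2.2.2.2.2.2.2.2.2.2.2.2.2.2.2.2.2.1.1⟩, ⟨rf2h7.1.1, rf2h13.2.1.1⟩⟩, ⟨⟨rf2h12.2.2.2.2.2.2.2.2.2.2.2.2.2.2.2.2.2.2.1.1, rf2h14.2.2.2.2.2.2.2.2.2.2.1.1⟩, ⟨rf2h13.1.1, rf2h16.2.2.2.2.2.2.2.2.2.2.2.2.2.2.2.2.2.2.2.2.2.2.2.2.2.2.2.2.2.2.2.1.1⟩⟩⟩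
theorem rf2k22 : CfgOK (rf2c22.e, rf2c22.n) := red_ln rf2h0.2.2.2.2.2.2.2.2.2.2.2.2.2.2.2.2.2.2.2.2.2.2.2.1 ⟨⟨⟨rf2h0.2.2.2.2.2.2.2.2.2.2.2.2.2.2.2.2.2.2.2.2.2.2.2.1.1, rf2h23.2.2.2.2.2.2.2.2.1.1⟩, ⟨rf2h31.2.2.2.2.2.2.2.2.2.2.2.2.2.2.2.2.2.2.2.2.2.2.2.1.1, rf2h15.2.2.2.2.2.2.2.2.1.1⟩⟩, ⟨⟨rf2h6.2.2.2.2.2.2.2.2.2.2.2.2.2.2.2.2.2.2.2.2.2.2.2.2.2.2.2.2.2.2.2.2.2.2.2.2.2.2.2.1.1, rf2h11.2.2.2.2.2.2.2.2.2.2.2.2.2.2.2.2.2.2.2.2.2.2.2.2.2.2.2.2.2.2.2.2.2.2.2.2.2.2.2.1.1⟩, ⟨rf2h11.2.2.2.2.2.2.2.2.2.2.2.2.2.2.2.2.2.2.2.2.2.2.2.2.2.2.2.2.2.2.2.2.2.2.2.2.2.2.1.1, rf2h16.2.2.2.2.2.2.2.2.2.2.2.2.2.2.2.2.2.2.2.2.2.2.2.2.2.2.2.2.2.2.1.1⟩⟩⟩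
theorem rf2k23 : CfgOK (rf2c23.e, rf2c23.n) := red_ln rf2h0.2.2.2.2.2.2.2.2.2.2.2.2.2.2.2.2.2.2.2.2.2.2.1 ⟨⟨rf2h0.2.2.2.2.2.2.2.2.2.2.2.2.2.2.2.2.2.2.2.2.2.2.1.1, rf2h12.1.1⟩, ⟨rf2h6.2.2.2.2.2.2.2.2.2.2.2.2.2.2.2.2.2.2.2.2.2.2.2.2.2.2.2.2.2.2.2.2.2.2.2.2.2.2.1.1, rf2h11.2.2.2.2.2.2.2.2.2.2.2.2.2.2.2.2.2.2.2.2.2.2.2.2.2.2.2.2.2.2.2.2.2.2.2.2.2.1.1⟩⟩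
theorem rf2k24 : CfgOK (rf2c24.e, rf2c24.n) := red_ln rf2h0.2.2.2.2.2.2.2.2.2.2.2.2.2.2.2.2.2.2.2.2.2.1 ⟨rf2h0.2.2.2.2.2.2.2.2.2.2.2.2.2.2.2.2.2.2.2.2.2.1.1, rf2h6.2.2.2.2.2.2.2.2.2.2.2.2.2.2.2.2.2.2.2.2.2.2.2.2.2.2.2.2.2.2.2.2.2.2.2.2.2.1.1⟩
theorem rf2k25 : CfgOK (rf2c25.e, rf2c25.n) := red_ln rf2h0.2.2.2.2.2.2.2.2.2.2.2.2.2.2.2.2.2.2.2.2.1 ⟨⟨rf2h0.2.2.2.2.2.2.2.2.2.2.2.2.2.2.2.2.2.2.2.2.1.1, rf2h29.2.2.2.2.2.2.2.2.2.2.2.2.2.2.2.2.2.1.1⟩, ⟨rf2h6.2.2.2.2.2.2.2.2.2.2.2.2.2.2.2.2.2.2.2.2.2.2.2.2.2.2.2.2.2.2.2.2.2.2.2.2.1.1, rf2h11.2.2.2.2.2.2.2.2.2.2.2.2.2.2.2.2.2.2.2.2.2.2.2.2.2.2.2.2.2.2.2.2.2.2.2.2.1.1⟩⟩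
theorem rf2k26 : CfgOK (rf2c26.e, rf2c26.n) := red_ln rf2h0.2.2.2.2.2.2.2.2.2.2.2.2.2.2.2.2.2.2.2.1 ⟨rf2h0.2.2.2.2.2.2.2.2.2.2.2.2.2.2.2.2.2.2.2.1.1, rf2h28.2.1.1⟩
theorem rf2k27 : CfgOK (rf2c27.e, rf2c27.n) := red_ln rf2h0.2.2.2.2.2.2.2.2.2.2.2.2.2.2.2.2.2.2.1 ⟨⟨rf2h0.2.2.2.2.2.2.2.2.2.2.2.2.2.2.2.2.2.2.1.1, rf2h28.1.1⟩, ⟨rf2h6.2.2.2.2.2.2.2.2.2.2.2.2.2.2.2.2.2.2.2.2.2.2.2.2.2.2.2.2.2.2.2.2.2.2.2.1.1, rf2h11.2.2.2.2.2.2.2.2.2.2.2.2.2.2.2.2.2.2.2.2.2.2.2.2.2.2.2.2.2.2.2.2.2.2.2.1.1⟩⟩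
theorem rf2k28 : CfgOK (rf2c28.e, rf2c28.n) := red_ln rf2h0.2.2.2.2.2.2.2.2.2.2.2.2.2.2.2.2.2.1 ⟨⟨rf2h0.2.2.2.2.2.2.2.2.2.2.2.2.2.2.2.2.2.1.1, rf2h6.2.2.2.2.2.2.2.2.2.2.2.2.2.2.2.2.2.2.2.2.2.2.2.2.2.2.2.2.2.2.2.2.2.2.1.1⟩, ⟨rf2h29.2.2.2.2.2.2.2.2.2.2.2.2.2.2.2.2.1.1, rf2h11.2.2.2.2.2.2.2.2.2.2.2.2.2.2.2.2.2.2.2.2.2.2.2.2.2.2.2.2.2.2.2.2.2.2.1.1⟩⟩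
theorem rf2k29 : CfgOK (rf2c29.e, rf2c29.n) := red_ln rf2h0.2.2.2.2.2.2.2.2.2.2.2.2.2.2.2.2.1 ⟨⟨rf2h0.2.2.2.2.2.2.2.2.2.2.2.2.2.2.2.2.1.1, rf2h27.2.2.2.2.2.2.2.2.2.2.2.2.2.2.2.2.2.2.2.2.2.2.2.2.2.2.2.2.2.1.1⟩, ⟨rf2h6.2.2.2.2.2.2.2.2.2.2.2.2.2.2.2.2.2.2.2.2.2.2.2.2.2.2.2.2.2.2.2.2.2.1.1, rf2h11.2.2.2.2.2.2.2.2.2.2.2.2.2.2.2.2.2.2.2.2.2.2.2.2.2.2.2.2.2.2.2.2.2.1.1⟩⟩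
theorem rf2k30 : CfgOK (rf2c30.e, rf2c30.n) := red_ln rf2h0.2.2.2.2.2.2.2.2.2.2.2.2.2.2.2.1 ⟨⟨rf2h0.2.2.2.2.2.2.2.2.2.2.2.2.2.2.2.1.1, rf2h23.2.2.2.2.2.2.2.2.2.2.2.2.2.2.2.2.2.2.1.1⟩, ⟨rf2h6.2.2.2.2.2.2.2.2.2.2.2.2.2.2.2.2.2.2.2.2.2.2.2.2.2.2.2.2.2.2.2.2.1.1, rf2h11.2.2.2.2.2.2.2.2.2.2.2.2.2.2.2.2.2.2.2.2.2.2.2.2.2.2.2.2.2.2.2.2.1.1⟩⟩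
theorem rf2k31 : CfgOK (rf2c31.e, rf2c31.n) := red_ln rf2h0.2.2.2.2.2.2.2.2.2.2.2.2.2.2.1 rf2h0.2.2.2.2.2.2.2.2.2.2.2.2.2.2.1.1
theorem rf2k32 : CfgOK (rf2c32.e, rf2c32.n) := red_ln rf2h0.2.2.2.2.2.2.2.2.2.2.2.2.2.1 ⟨rf2h0.2.2.2.2.2.2.2.2.2.2.2.2.2.1.1, rf2h6.2.2.2.2.2.2.2.2.2.2.2.2.2.2.2.2.2.2.2.2.2.2.2.2.2.2.2.2.2.2.2.1.1⟩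
theorem rf2k33 : CfgOK (rf2c33.e, rf2c33.n) := red_ln rf2h0.2.2.2.2.2.2.2.2.2.2.2.2.1 ⟨rf2h0.2.2.2.2.2.2.2.2.2.2.2.2.1.1, rf2h6.2.2.2.2.2.2.2.2.2.2.2.2.2.2.2.2.2.2.2.2.2.2.2.2.2.2.2.2.2.2.1.1⟩
theorem rf2k34 : CfgOK (rf2c34.e, rf2c34.n) := red_ln rf2h0.2.2.2.2.2.2.2.2.2.2.2.1 ⟨rf2h0.2.2.2.2.2.2.2.2.2.2.2.1.1, rf2h6.2.2.2.2.2.2.2.2.2.2.2.2.2.2.2.2.2.2.2.2.2.2.2.2.2.2.2.2.2.1.1⟩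
theorem rf2k35 : CfgOK (rf2c35.e, rf2c35.n) := red_ln rf2h0.2.2.2.2.2.2.2.2.2.2.1 ⟨⟨⟨rf2h0.2.2.2.2.2.2.2.2.2.2.1.1, rf2h31.2.2.2.2.2.2.2.2.2.2.2.2.2.2.2.2.2.2.2.2.2.2.1.1⟩, ⟨rf2h6.2.2.2.2.2.2.2.2.2.2.2.2.2.2.2.2.2.2.2.2.2.2.2.2.2.2.2.2.1.1, rf2h11.2.2.2.2.2.2.2.2.2.2.2.2.2.2.2.2.2.2.2.2.2.2.2.2.2.2.2.2.2.2.2.1.1⟩⟩, ⟨⟨rf2h27.2.2.2.2.2.2.2.2.2.2.2.2.2.2.2.2.2.2.2.2.2.2.2.2.2.2.2.2.1.1, rf2h15.2.2.2.2.2.2.2.2.2.2.2.2.2.2.1.1⟩, ⟨rf2h11.2.2.2.2.2.2.2.2.2.2.2.2.2.2.2.2.2.2.2.2.2.2.2.2.2.2.2.2.2.2.1.1, rf2h16.2.2.2.2.2.2.2.2.2.2.2.2.2.2.2.2.2.2.2.2.2.2.2.2.2.2.2.2.2.1.1⟩⟩⟩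
theorem rf2k36 : CfgOK (rf2c36.e, rf2c36.n) := red_ln rf2h0.2.2.2.2.2.2.2.2.2.1 ⟨⟨rf2h0.2.2.2.2.2.2.2.2.2.1.1, rf2h27.2.2.2.2.2.2.2.2.2.2.2.2.2.2.2.2.2.2.2.2.2.2.2.2.2.2.2.1.1⟩, ⟨rf2h6.2.2.2.2.2.2.2.2.2.2.2.2.2.2.2.2.2.2.2.2.2.2.2.2.2.2.2.1.1, rf2h11.2.2.2.2.2.2.2.2.2.2.2.2.2.2.2.2.2.2.2.2.2.2.2.2.2.2.2.2.2.1.1⟩⟩
theorem rf2k37 : CfgOK (rf2c37.e, rf2c37.n) := red_ln rf2h0.2.2.2.2.2.2.2.2.1 ⟨⟨⟨rf2h0.2.2.2.2.2.2.2.2.1.1, rf2h27.2.2.2.2.2.2.2.2.2.2.2.2.2.2.2.2.2.2.2.2.2.2.2.2.2.2.1.1⟩, ⟨rf2h29.2.2.2.2.2.2.2.2.2.2.2.2.2.2.2.1.1, rf2h15.2.2.2.2.2.2.2.1.1⟩⟩, ⟨⟨rf2h6.2.2.2.2.2.2.2.2.2.2.2.2.2.2.2.2.2.2.2.2.2.2.2.2.2.2.1.1, rf2h11.2.2.2.2.2.2.2.2.2.2.2.2.2.2.2.2.2.2.2.2.2.2.2.2.2.2.2.2.1.1⟩,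 ⟨rf2h11.2.2.2.2.2.2.2.2.2.2.2.2.2.2.2.2.2.2.2.2.2.2.2.2.2.2.2.1.1, rf2h16.2.2.2.2.2.2.2.2.2.2.2.2.2.2.2.2.2.2.2.2.2.2.2.2.2.2.2.2.1.1⟩⟩⟩
theorem rf2k38 : CfgOK (rf2c38.e, rf2c38.n) := red_ln rf2h0.2.2.2.2.2.2.2.1 ⟨⟨rf2h0.2.2.2.2.2.2.2.1.1, rf2h23.2.2.2.2.2.2.2.2.2.2.2.2.2.2.2.2.2.1.1⟩, ⟨rf2h6.2.2.2.2.2.2.2.2.2.2.2.2.2.2.2.2.2.2.2.2.2.2.2.2.2.1.1, rf2h11.2.2.2.2.2.2.2.2.2.2.2.2.2.2.2.2.2.2.2.2.2.2.2.2.2.2.1.1⟩⟩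
theorem rf2k39 : CfgOK (rf2c39.e, rf2c39.n) := red_ln rf2h0.2.2.2.2.2.2.1 ⟨⟨⟨rf2h0.2.2.2.2.2.2.1.1, rf2h6.2.2.2.2.2.2.2.2.2.2.2.2.2.2.2.2.2.2.2.2.2.2.2.2.1.1⟩, ⟨rf2h23.2.2.2.2.2.2.2.2.2.2.2.2.2.2.2.2.1.1, rf2h11.2.2.2.2.2.2.2.2.2.2.2.2.2.2.2.2.2.2.2.2.2.2.2.2.2.1.1⟩⟩, ⟨⟨rf2h27.2.2.2.2.2.2.2.2.2.2.2.2.2.2.2.2.2.2.2.2.2.2.2.2.2.1.1, rf2h11.2.2.2.2.2.2.2.2.2.2.2.2.2.2.2.2.2.2.2.2.2.2.2.2.1.1⟩, ⟨rf2h15.2.2.2.2.2.2.1.1, rf2h16.2.2.2.2.2.2.2.2.2.2.2.2.2.2.2.2.2.2.2.2.2.2.2.2.2.2.2.1.1⟩⟩⟩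
theorem rf2k40 : CfgOK (rf2c40.e, rf2c40.n) := red_ln rf2h0.2.2.2.2.2.1 ⟨⟨⟨rf2h0.2.2.2.2.2.1.1, rf2h23.2.2.2.2.2.2.2.1.1⟩, ⟨rf2h6.2.2.2.2.2.2.2.2.2.2.2.2.2.2.2.2.2.2.2.2.2.2.2.1.1, rf2h11.2.2.2.2.2.2.2.2.2.2.2.2.2.2.2.2.2.2.2.2.2.2.2.1.1⟩⟩, ⟨⟨rf2h23.2.2.2.2.2.2.2.2.2.2.2.2.2.2.2.1.1, rf2h14.2.2.2.2.2.2.2.2.2.2.2.2.2.2.2.2.2.2.2.2.2.1.1⟩, ⟨rf2h11.2.2.2.2.2.2.2.2.2.2.2.2.2.2.2.2.2.2.2.2.2.2.1.1, rf2h16.2.2.2.2.2.2.2.2.2.2.2.2.2.2.2.2.2.2.2.2.2.2.2.2.2.2.1.1⟩⟩⟩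
theorem rf2k41 : CfgOK (rf2c41.e, rf2c41.n) := red_ln rf2h0.2.2.2.2.1 ⟨⟨rf2h0.2.2.2.2.1.1, rf2h23.2.2.2.2.2.2.1.1⟩, ⟨rf2h6.2.2.2.2.2.2.2.2.2.2.2.2.2.2.2.2.2.2.2.2.2.2.1.1, rf2h11.2.2.2.2.2.2.2.2.2.2.2.2.2.2.2.2.2.2.2.2.2.1.1⟩⟩
theorem rf2k42 : CfgOK (rf2c42.e, rf2c42.n) := red_ln rf2h0.2.2.2.1 ⟨⟨rf2h0.2.2.2.1.1, rf2h23.2.2.2.2.2.1.1⟩, ⟨rf2h6.2.2.2.2.2.2.2.2.2.2.2.2.2.2.2.2.2.2.2.2.2.1.1, rf2h11.2.2.2.2.2.2.2.2.2.2.2.2.2.2.2.2.2.2.2.2.1.1⟩⟩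
theorem rf2k43 : CfgOK (rf2c43.e, rf2c43.n) := red_ln rf2h0.2.2.1 ⟨⟨⟨rf2h0.2.2.1.1, rf2h23.2.2.2.2.1.1⟩, ⟨rf2h23.2.2.2.1.1, rf2h14.2.2.2.2.2.2.2.2.2.2.2.2.2.2.2.2.2.2.2.2.1.1⟩⟩, ⟨⟨rf2h6.2.2.2.2.2.2.2.2.2.2.2.2.2.2.2.2.2.2.2.2.1.1, rf2h11.2.2.2.2.2.2.2.2.2.2.2.2.2.2.2.2.2.2.2.1.1⟩, ⟨rf2h11.2.2.2.2.2.2.2.2.2.2.2.2.2.2.2.2.2.2.1.1, rf2h16.2.2.2.2.2.2.2.2.2.2.2.2.2.2.2.2.2.2.2.2.2.2.2.2.2.1.1⟩⟩⟩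
theorem rf2k44 : CfgOK (rf2c44.e, rf2c44.n) := red_ln rf2h0.2.1 ⟨⟨rf2h0.2.1.1, rf2h6.2.2.2.2.2.2.2.2.2.2.2.2.2.2.2.2.2.2.2.1.1⟩, ⟨rf2h23.2.2.1.1, rf2h11.2.2.2.2.2.2.2.2.2.2.2.2.2.2.2.2.2.1.1⟩⟩
theorem rf2k45 : CfgOK (rf2c45.e, rf2c45.n) := red_ln rf2h0.1 ⟨⟨rf2h0.1.1, rf2h23.2.1.1⟩, ⟨rf2h6.2.2.2.2.2.2.2.2.2.2.2.2.2.2.2.2.2.2.1.1, rf2h11.2.2.2.2.2.2.2.2.2.2.2.2.2.2.2.2.1.1⟩⟩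
theorem rf2k46 : CfgOK (rf2c46.e, rf2c46.n) := red_ln rf2h25.2.2.2.2.2.2.2.2.2.2.2.2.2.2.2.1 ⟨⟨rf2h25.2.2.2.2.2.2.2.2.2.2.2.2.2.2.2.1.1, rf2h32.2.2.2.2.2.2.2.2.2.2.2.2.1.1⟩, ⟨rf2h31.2.2.2.2.2.2.2.2.2.2.2.2.2.2.2.2.2.2.2.2.2.1.1, rf2h15.2.2.2.2.2.2.2.2.2.2.2.2.2.1.1⟩⟩
theorem rf2k47 : CfgOK (rf2c47.e, rf2c47.n) := red_ln rf2h25.2.2.2.2.2.2.2.2.2.2.2.2.2.2.1 ⟨⟨rf2h25.2.2.2.2.2.2.2.2.2.2.2.2.2.2.1.1, rf2h32.2.2.2.2.2.2.2.2.2.2.2.1.1⟩, ⟨rf2h23.2.2.2.2.2.2.2.2.2.2.2.2.2.2.1.1, rf2h14.2.2.2.2.2.2.2.2.2.2.2.2.2.2.2.2.2.2.2.1.1⟩⟩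
theorem rf2k48 : CfgOK (rf2c48.e, rf2c48.n) := red_ln rf2h25.2.2.2.2.2.2.2.2.2.2.2.2.2.1 ⟨⟨rf2h25.2.2.2.2.2.2.2.2.2.2.2.2.2.1.1, rf2h23.1.1⟩, ⟨rf2h32.2.2.2.2.2.2.2.2.2.2.1.1, rf2h14.2.2.2.2.2.2.2.2.2.2.2.2.2.2.2.2.2.2.1.1⟩⟩
theorem rf2k49 : CfgOK (rf2c49.e, rf2c49.n) := red_ln rf2h25.2.2.2.2.2.2.2.2.2.2.2.2.1 rf2h25.2.2.2.2.2.2.2.2.2.2.2.2.1.1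
theorem rf2k50 : CfgOK (rf2c50.e, rf2c50.n) := red_ln rf2h25.2.2.2.2.2.2.2.2.2.2.2.1 rf2h25.2.2.2.2.2.2.2.2.2.2.2.1.1
theorem rf2k51 : CfgOK (rf2c51.e, rf2c51.n) := red_ln rf2h25.2.2.2.2.2.2.2.2.2.2.1 rf2h25.2.2.2.2.2.2.2.2.2.2.1.1
theorem rf2k52 : CfgOK (rf2c52.e, rf2c52.n) := red_ln rf2h25.2.2.2.2.2.2.2.2.2.1 rf2h25.2.2.2.2.2.2.2.2.2.1.1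
theorem rf2k53 : CfgOK (rf2c53.e, rf2c53.n) := red_ln rf2h25.2.2.2.2.2.2.2.2.1 rf2h25.2.2.2.2.2.2.2.2.1.1
theorem rf2k54 : CfgOK (rf2c54.e, rf2c54.n) := red_ln rf2h25.2.2.2.2.2.2.2.1 ⟨rf2h25.2.2.2.2.2.2.2.1.1, rf2h6.2.2.2.2.2.2.2.2.2.2.2.2.2.2.2.2.2.1.1⟩
theorem rf2k55 : CfgOK (rf2c55.e, rf2c55.n) := red_ln rf2h25.2.2.2.2.2.2.1 ⟨rf2h25.2.2.2.2.2.2.1.1, rf2h6.2.2.2.2.2.2.2.2.2.2.2.2.2.2.2.2.1.1⟩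
theorem rf2k56 : CfgOK (rf2c56.e, rf2c56.n) := red_ln rf2h25.2.2.2.2.2.1 ⟨rf2h25.2.2.2.2.2.1.1, rf2h6.2.2.2.2.2.2.2.2.2.2.2.2.2.2.2.1.1⟩
theorem rf2k57 : CfgOK (rf2c57.e, rf2c57.n) := red_ln rf2h25.2.2.2.2.1 ⟨rf2h25.2.2.2.2.1.1, rf2h6.2.2.2.2.2.2.2.2.2.2.2.2.2.2.1.1⟩
theorem rf2k58 : CfgOK (rf2c58.e, rf2c58.n) := red_ln rf2h25.2.2.2.1 ⟨rf2h25.2.2.2.1.1, rf2h6.2.2.2.2.2.2.2.2.2.2.2.2.2.1.1⟩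
theorem rf2k59 : CfgOK (rf2c59.e, rf2c59.n) := red_ln rf2h25.2.2.1 ⟨rf2h25.2.2.1.1, rf2h6.2.2.2.2.2.2.2.2.2.2.2.2.1.1⟩
theorem rf2k60 : CfgOK (rf2c60.e, rf2c60.n) := red_ln rf2h25.2.1 ⟨⟨rf2h25.2.1.1, rf2h6.2.2.2.2.2.2.2.2.2.2.2.1.1⟩, ⟨rf2h31.2.2.2.2.2.2.2.2.2.2.2.2.2.2.2.2.2.2.2.2.1.1, rf2h11.2.2.2.2.2.2.2.2.2.2.2.2.2.2.2.1.1⟩⟩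
theorem rf2k61 : CfgOK (rf2c61.e, rf2c61.n) := red_ln rf2h25.1 ⟨⟨⟨rf2h25.1.1, rf2h6.2.2.2.2.2.2.2.2.2.2.1.1⟩, ⟨rf2h31.2.2.2.2.2.2.2.2.2.2.2.2.2.2.2.2.2.2.2.1.1, rf2h11.2.2.2.2.2.2.2.2.2.2.2.2.2.2.1.1⟩⟩, ⟨⟨rf2h31.2.2.2.2.2.2.2.2.2.2.2.2.2.2.2.2.2.2.1.1, rf2h11.2.2.2.2.2.2.2.2.2.2.2.2.2.1.1⟩, ⟨rf2h15.2.2.2.2.2.1.1, rf2h16.2.2.2.2.2.2.2.2.2.2.2.2.2.2.2.2.2.2.2.2.2.2.2.2.1.1⟩⟩⟩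
theorem rf2k62 : CfgOK (rf2c62.e, rf2c62.n) := red_ln rf2h24.2.2.2.2.2.2.2.2.2.2.2.2.2.2.2.2.2.2.2.2.2.2.2.2.2.2.2.2.2.1 ⟨⟨⟨rf2h24.2.2.2.2.2.2.2.2.2.2.2.2.2.2.2.2.2.2.2.2.2.2.2.2.2.2.2.2.2.1.1, rf2h6.2.2.2.2.2.2.2.2.2.1.1⟩, ⟨rf2h31.2.2.2.2.2.2.2.2.2.2.2.2.2.2.2.2.2.1.1, rf2h11.2.2.2.2.2.2.2.2.2.2.2.2.1.1⟩⟩, ⟨⟨rf2h31.2.2.2.2.2.2.2.2.2.2.2.2.2.2.2.2.1.1, rf2h11.2.2.2.2.2.2.2.2.2.2.2.1.1⟩, ⟨rf2h14.2.2.2.2.2.2.2.2.2.2.2.2.2.2.2.2.2.1.1, rf2h16.2.2.2.2.2.2.2.2.2.2.2.2.2.2.2.2.2.2.2.2.2.2.2.1.1⟩⟩⟩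
theorem rf2k63 : CfgOK (rf2c63.e, rf2c63.n) := red_ln rf2h24.2.2.2.2.2.2.2.2.2.2.2.2.2.2.2.2.2.2.2.2.2.2.2.2.2.2.2.2.1 ⟨⟨rf2h24.2.2.2.2.2.2.2.2.2.2.2.2.2.2.2.2.2.2.2.2.2.2.2.2.2.2.2.2.1.1, rf2h6.2.2.2.2.2.2.2.2.1.1⟩, ⟨rf2h29.2.2.2.2.2.2.2.2.2.2.2.2.2.2.1.1, rf2h11.2.2.2.2.2.2.2.2.2.2.1.1⟩⟩
theorem rf2k64 : CfgOK (rf2c64.e, rf2c64.n) := red_ln rf2h24.2.2.2.2.2.2.2.2.2.2.2.2.2.2.2.2.2.2.2.2.2.2.2.2.2.2.2.1 ⟨⟨⟨rf2h24.2.2.2.2.2.2.2.2.2.2.2.2.2.2.2.2.2.2.2.2.2.2.2.2.2.2.2.1.1, rf2h6.2.2.2.2.2.2.2.1.1⟩, ⟨rf2h29.2.2.2.2.2.2.2.2.2.2.2.2.2.1.1, rf2h11.2.2.2.2.2.2.2.2.2.1.1⟩⟩, ⟨⟨rf2h31.2.2.2.2.2.2.2.2.2.2.2.2.2.2.2.1.1, rf2h11.2.2.2.2.2.2.2.2.1.1⟩,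 ⟨rf2h15.2.2.2.2.2.2.2.2.2.2.2.2.1.1, rf2h16.2.2.2.2.2.2.2.2.2.2.2.2.2.2.2.2.2.2.2.2.2.2.1.1⟩⟩⟩
theorem rf2k65 : CfgOK (rf2c65.e, rf2c65.n) := red_ln rf2h24.2.2.2.2.2.2.2.2.2.2.2.2.2.2.2.2.2.2.2.2.2.2.2.2.2.2.1 ⟨⟨rf2h24.2.2.2.2.2.2.2.2.2.2.2.2.2.2.2.2.2.2.2.2.2.2.2.2.2.2.1.1, rf2h6.2.2.2.2.2.2.1.1⟩, ⟨rf2h27.2.2.2.2.2.2.2.2.2.2.2.2.2.2.2.2.2.2.2.2.2.2.2.2.1.1, rf2h11.2.2.2.2.2.2.2.1.1⟩⟩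
theorem rf2k66 : CfgOK (rf2c66.e, rf2c66.n) := red_ln rf2h24.2.2.2.2.2.2.2.2.2.2.2.2.2.2.2.2.2.2.2.2.2.2.2.2.2.1 ⟨rf2h24.2.2.2.2.2.2.2.2.2.2.2.2.2.2.2.2.2.2.2.2.2.2.2.2.2.1.1, rf2h32.2.2.2.2.2.2.2.2.2.1.1⟩
theorem rf2k67 : CfgOK (rf2c67.e, rf2c67.n) := red_ln rf2h24.2.2.2.2.2.2.2.2.2.2.2.2.2.2.2.2.2.2.2.2.2.2.2.2.1 ⟨⟨rf2h24.2.2.2.2.2.2.2.2.2.2.2.2.2.2.2.2.2.2.2.2.2.2.2.2.1.1, rf2h32.2.2.2.2.2.2.2.2.1.1⟩, ⟨rf2h6.2.2.2.2.2.1.1, rf2h11.2.2.2.2.2.2.1.1⟩⟩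
theorem rf2k68 : CfgOK (rf2c68.e, rf2c68.n) := red_ln rf2h24.2.2.2.2.2.2.2.2.2.2.2.2.2.2.2.2.2.2.2.2.2.2.2.1 ⟨rf2h24.2.2.2.2.2.2.2.2.2.2.2.2.2.2.2.2.2.2.2.2.2.2.2.1.1, rf2h31.2.2.2.2.2.2.2.2.2.2.2.2.2.2.1.1⟩
theorem rf2k69 : CfgOK (rf2c69.e, rf2c69.n) := red_ln rf2h24.2.2.2.2.2.2.2.2.2.2.2.2.2.2.2.2.2.2.2.2.2.2.1 ⟨rf2h24.2.2.2.2.2.2.2.2.2.2.2.2.2.2.2.2.2.2.2.2.2.2.1.1, rf2h31.2.2.2.2.2.2.2.2.2.2.2.2.2.1.1⟩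
theorem rf2k70 : CfgOK (rf2c70.e, rf2c70.n) := red_ln rf2h24.2.2.2.2.2.2.2.2.2.2.2.2.2.2.2.2.2.2.2.2.2.1 ⟨⟨rf2h24.2.2.2.2.2.2.2.2.2.2.2.2.2.2.2.2.2.2.2.2.2.1.1, rf2h31.2.2.2.2.2.2.2.2.2.2.2.2.1.1⟩, ⟨rf2h6.2.2.2.2.1.1, rf2h11.2.2.2.2.2.1.1⟩⟩
theorem rf2k71 : CfgOK (rf2c71.e, rf2c71.n) := red_ln rf2h24.2.2.2.2.2.2.2.2.2.2.2.2.2.2.2.2.2.2.2.2.1 ⟨⟨rf2h24.2.2.2.2.2.2.2.2.2.2.2.2.2.2.2.2.2.2.2.2.1.1, rf2h31.2.2.2.2.2.2.2.2.2.2.2.1.1⟩, ⟨rf2h6.2.2.2.1.1, rf2h11.2.2.2.2.1.1⟩⟩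
theorem rf2k72 : CfgOK (rf2c72.e, rf2c72.n) := red_ln rf2h24.2.2.2.2.2.2.2.2.2.2.2.2.2.2.2.2.2.2.2.1 ⟨⟨⟨rf2h24.2.2.2.2.2.2.2.2.2.2.2.2.2.2.2.2.2.2.2.1.1, rf2h31.2.2.2.2.2.2.2.2.2.2.1.1⟩, ⟨rf2h6.2.2.1.1, rf2h11.2.2.2.1.1⟩⟩, ⟨⟨rf2h31.2.2.2.2.2.2.2.2.2.1.1, rf2h15.2.2.2.2.1.1⟩, ⟨rf2h11.2.2.1.1, rf2h16.2.2.2.2.2.2.2.2.2.2.2.2.2.2.2.2.2.2.2.2.2.1.1⟩⟩⟩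
theorem rf2k73 : CfgOK (rf2c73.e, rf2c73.n) := red_ln rf2h24.2.2.2.2.2.2.2.2.2.2.2.2.2.2.2.2.2.2.1 ⟨⟨⟨rf2h24.2.2.2.2.2.2.2.2.2.2.2.2.2.2.2.2.2.2.1.1, rf2h31.2.2.2.2.2.2.2.2.1.1⟩, ⟨rf2h6.2.1.1, rf2h11.2.1.1⟩⟩, ⟨⟨rf2h31.2.2.2.2.2.2.2.1.1, rf2h14.2.2.2.2.2.2.2.2.2.2.2.2.2.2.2.2.1.1⟩, ⟨rf2h11.1.1, rf2h16.2.2.2.2.2.2.2.2.2.2.2.2.2.2.2.2.2.2.2.2.1.1⟩⟩⟩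
theorem rf2k74 : CfgOK (rf2c74.e, rf2c74.n) := red_ln rf2h24.2.2.2.2.2.2.2.2.2.2.2.2.2.2.2.2.2.1 ⟨⟨⟨rf2h24.2.2.2.2.2.2.2.2.2.2.2.2.2.2.2.2.2.1.1, rf2h31.2.2.2.2.2.2.1.1⟩, ⟨rf2h6.1.1, rf2h10.2.2.2.2.2.2.2.2.2.2.2.2.2.2.2.2.2.2.2.2.2.2.2.2.2.2.2.2.2.2.2.2.2.2.2.2.2.2.2.1.1⟩⟩, ⟨⟨rf2h29.2.2.2.2.2.2.2.2.2.2.2.2.1.1, rf2h15.2.2.2.1.1⟩, ⟨rf2h10.2.2.2.2.2.2.2.2.2.2.2.2.2.2.2.2.2.2.2.2.2.2.2.2.2.2.2.2.2.2.2.2.2.2.2.2.2.2.1.1, rf2h16.2.2.2.2.2.2.2.2.2.2.2.2.2.2.2.2.2.2.2.1.1⟩⟩⟩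
theorem rf2k75 : CfgOK (rf2c75.e, rf2c75.n) := red_ln rf2h24.2.2.2.2.2.2.2.2.2.2.2.2.2.2.2.2.1 ⟨⟨rf2h24.2.2.2.2.2.2.2.2.2.2.2.2.2.2.2.2.1.1, rf2h31.2.2.2.2.2.1.1⟩, ⟨rf2h31.2.2.2.2.1.1, rf2h14.2.2.2.2.2.2.2.2.2.1.1⟩⟩
theorem rf2k76 : CfgOK (rf2c76.e, rf2c76.n) := red_ln rf2h24.2.2.2.2.2.2.2.2.2.2.2.2.2.2.2.1 ⟨rf2h24.2.2.2.2.2.2.2.2.2.2.2.2.2.2.2.1.1, rf2h29.2.2.2.2.2.2.2.2.2.2.2.1.1⟩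
theorem rf2k77 : CfgOK (rf2c77.e, rf2c77.n) := red_ln rf2h24.2.2.2.2.2.2.2.2.2.2.2.2.2.2.1 ⟨rf2h24.2.2.2.2.2.2.2.2.2.2.2.2.2.2.1.1, rf2h29.2.2.2.2.2.2.2.2.2.2.1.1⟩
theorem rf2k78 : CfgOK (rf2c78.e, rf2c78.n) := red_ln rf2h24.2.2.2.2.2.2.2.2.2.2.2.2.2.1 ⟨⟨rf2h24.2.2.2.2.2.2.2.2.2.2.2.2.2.1.1, rf2h29.2.2.2.2.2.2.2.2.2.1.1⟩, ⟨rf2h5.2.2.2.2.2.2.2.2.2.2.2.2.2.2.2.2.2.2.2.2.2.2.2.2.2.2.2.2.2.2.2.2.2.2.2.2.2.2.2.1.1, rf2h10.2.2.2.2.2.2.2.2.2.2.2.2.2.2.2.2.2.2.2.2.2.2.2.2.2.2.2.2.2.2.2.2.2.2.2.2.2.1.1⟩⟩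
theorem rf2k79 : CfgOK (rf2c79.e, rf2c79.n) := red_ln rf2h24.2.2.2.2.2.2.2.2.2.2.2.2.1 ⟨⟨rf2h24.2.2.2.2.2.2.2.2.2.2.2.2.1.1, rf2h29.2.2.2.2.2.2.2.2.1.1⟩, ⟨rf2h5.2.2.2.2.2.2.2.2.2.2.2.2.2.2.2.2.2.2.2.2.2.2.2.2.2.2.2.2.2.2.2.2.2.2.2.2.2.2.1.1, rf2h10.2.2.2.2.2.2.2.2.2.2.2.2.2.2.2.2.2.2.2.2.2.2.2.2.2.2.2.2.2.2.2.2.2.2.2.2.1.1⟩⟩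
theorem rf2k80 : CfgOK (rf2c80.e, rf2c80.n) := red_ln rf2h24.2.2.2.2.2.2.2.2.2.2.2.1 ⟨⟨rf2h24.2.2.2.2.2.2.2.2.2.2.2.1.1, rf2h29.2.2.2.2.2.2.2.1.1⟩, ⟨rf2h5.2.2.2.2.2.2.2.2.2.2.2.2.2.2.2.2.2.2.2.2.2.2.2.2.2.2.2.2.2.2.2.2.2.2.2.2.2.1.1, rf2h10.2.2.2.2.2.2.2.2.2.2.2.2.2.2.2.2.2.2.2.2.2.2.2.2.2.2.2.2.2.2.2.2.2.2.2.1.1⟩⟩
theorem rf2k81 : CfgOK (rf2c81.e, rf2c81.n) := red_ln rf2h24.2.2.2.2.2.2.2.2.2.2.1 ⟨⟨⟨rf2h24.2.2.2.2.2.2.2.2.2.2.1.1, rf2h29.2.2.2.2.2.2.1.1⟩, ⟨rf2h31.2.2.2.1.1, rf2h14.2.2.2.2.2.2.2.2.1.1⟩⟩, ⟨⟨rf2h5.2.2.2.2.2.2.2.2.2.2.2.2.2.2.2.2.2.2.2.2.2.2.2.2.2.2.2.2.2.2.2.2.2.2.2.2.1.1, rf2h10.2.2.2.2.2.2.2.2.2.2.2.2.2.2.2.2.2.2.2.2.2.2.2.2.2.2.2.2.2.2.2.2.2.2.1.1⟩,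 ⟨rf2h10.2.2.2.2.2.2.2.2.2.2.2.2.2.2.2.2.2.2.2.2.2.2.2.2.2.2.2.2.2.2.2.2.2.1.1, rf2h16.2.2.2.2.2.2.2.2.2.2.2.2.2.2.2.2.2.2.1.1⟩⟩⟩
theorem rf2k82 : CfgOK (rf2c82.e, rf2c82.n) := red_ln rf2h24.2.2.2.2.2.2.2.2.2.1 ⟨rf2h24.2.2.2.2.2.2.2.2.2.1.1, rf2h27.2.2.2.2.2.2.2.2.2.2.2.2.2.2.2.2.2.2.2.2.2.2.2.1.1⟩
theorem rf2k83 : CfgOK (rf2c83.e, rf2c83.n) := red_ln rf2h24.2.2.2.2.2.2.2.2.1 ⟨rf2h24.2.2.2.2.2.2.2.2.1.1, rf2h27.2.2.2.2.2.2.2.2.2.2.2.2.2.2.2.2.2.2.2.2.2.2.1.1⟩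
theorem rf2k84 : CfgOK (rf2c84.e, rf2c84.n) := red_ln rf2h24.2.2.2.2.2.2.2.1 ⟨⟨rf2h24.2.2.2.2.2.2.2.1.1, rf2h27.2.2.2.2.2.2.2.2.2.2.2.2.2.2.2.2.2.2.2.2.2.1.1⟩, ⟨rf2h5.2.2.2.2.2.2.2.2.2.2.2.2.2.2.2.2.2.2.2.2.2.2.2.2.2.2.2.2.2.2.2.2.2.2.2.1.1, rf2h10.2.2.2.2.2.2.2.2.2.2.2.2.2.2.2.2.2.2.2.2.2.2.2.2.2.2.2.2.2.2.2.2.1.1⟩⟩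
theorem rf2k85 : CfgOK (rf2c85.e, rf2c85.n) := red_ln rf2h24.2.2.2.2.2.2.1 ⟨⟨rf2h24.2.2.2.2.2.2.1.1, rf2h27.2.2.2.2.2.2.2.2.2.2.2.2.2.2.2.2.2.2.2.2.1.1⟩, ⟨rf2h31.2.2.1.1, rf2h14.2.2.2.2.2.2.2.2.2.2.2.2.2.2.2.1.1⟩⟩
theorem rf2k86 : CfgOK (rf2c86.e, rf2c86.n) := red_ln rf2h24.2.2.2.2.2.1 ⟨⟨rf2h24.2.2.2.2.2.1.1, rf2h23.2.2.2.2.2.2.2.2.2.2.2.2.2.1.1⟩, ⟨rf2h32.2.2.2.2.2.2.2.1.1, rf2h15.2.2.2.2.2.2.2.2.2.2.2.1.1⟩⟩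
theorem rf2k87 : CfgOK (rf2c87.e, rf2c87.n) := red_ln rf2h24.2.2.2.2.1 rf2h24.2.2.2.2.1.1
theorem rf2k88 : CfgOK (rf2c88.e, rf2c88.n) := red_ln rf2h24.2.2.2.1 rf2h24.2.2.2.1.1
theorem rf2k89 : CfgOK (rf2c89.e, rf2c89.n) := red_ln rf2h24.2.2.1 rf2h24.2.2.1.1
theorem rf2k90 : CfgOK (rf2c90.e, rf2c90.n) := red_ln rf2h24.2.1 ⟨rf2h24.2.1.1, rf2h5.2.2.2.2.2.2.2.2.2.2.2.2.2.2.2.2.2.2.2.2.2.2.2.2.2.2.2.2.2.2.2.2.2.2.1.1⟩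
theorem rf2k91 : CfgOK (rf2c91.e, rf2c91.n) := red_ln rf2h24.1 ⟨rf2h24.1.1, rf2h5.2.2.2.2.2.2.2.2.2.2.2.2.2.2.2.2.2.2.2.2.2.2.2.2.2.2.2.2.2.2.2.2.2.1.1⟩
theorem rf2k92 : CfgOK (rf2c92.e, rf2c92.n) := red_ln rf2h22.2.2.2.2.2.2.2.2.2.2.2.2.2.2.2.2.2.2.2.2.2.2.2.2.2.2.2.2.2.1 ⟨rf2h22.2.2.2.2.2.2.2.2.2.2.2.2.2.2.2.2.2.2.2.2.2.2.2.2.2.2.2.2.2.1.1, rf2h5.2.2.2.2.2.2.2.2.2.2.2.2.2.2.2.2.2.2.2.2.2.2.2.2.2.2.2.2.2.2.2.2.1.1⟩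
theorem rf2k93 : CfgOK (rf2c93.e, rf2c93.n) := red_ln rf2h22.2.2.2.2.2.2.2.2.2.2.2.2.2.2.2.2.2.2.2.2.2.2.2.2.2.2.2.2.1 ⟨rf2h22.2.2.2.2.2.2.2.2.2.2.2.2.2.2.2.2.2.2.2.2.2.2.2.2.2.2.2.2.1.1, rf2h5.2.2.2.2.2.2.2.2.2.2.2.2.2.2.2.2.2.2.2.2.2.2.2.2.2.2.2.2.2.2.2.1.1⟩
theorem rf2k94 : CfgOK (rf2c94.e, rf2c94.n) := red_ln rf2h22.2.2.2.2.2.2.2.2.2.2.2.2.2.2.2.2.2.2.2.2.2.2.2.2.2.2.2.1 ⟨rf2h22.2.2.2.2.2.2.2.2.2.2.2.2.2.2.2.2.2.2.2.2.2.2.2.2.2.2.2.1.1, rf2h5.2.2.2.2.2.2.2.2.2.2.2.2.2.2.2.2.2.2.2.2.2.2.2.2.2.2.2.2.2.2.1.1⟩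
theorem rf2k95 : CfgOK (rf2c95.e, rf2c95.n) := red_ln rf2h22.2.2.2.2.2.2.2.2.2.2.2.2.2.2.2.2.2.2.2.2.2.2.2.2.2.2.1 ⟨rf2h22.2.2.2.2.2.2.2.2.2.2.2.2.2.2.2.2.2.2.2.2.2.2.2.2.2.2.1.1, rf2h5.2.2.2.2.2.2.2.2.2.2.2.2.2.2.2.2.2.2.2.2.2.2.2.2.2.2.2.2.2.1.1⟩
theorem rf2k96 : CfgOK (rf2c96.e, rf2c96.n) := red_ln rf2h22.2.2.2.2.2.2.2.2.2.2.2.2.2.2.2.2.2.2.2.2.2.2.2.2.2.1 ⟨rf2h22.2.2.2.2.2.2.2.2.2.2.2.2.2.2.2.2.2.2.2.2.2.2.2.2.2.1.1, rf2h5.2.2.2.2.2.2.2.2.2.2.2.2.2.2.2.2.2.2.2.2.2.2.2.2.2.2.2.2.1.1⟩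
theorem rf2k97 : CfgOK (rf2c97.e, rf2c97.n) := red_ln rf2h22.2.2.2.2.2.2.2.2.2.2.2.2.2.2.2.2.2.2.2.2.2.2.2.2.1 ⟨rf2h22.2.2.2.2.2.2.2.2.2.2.2.2.2.2.2.2.2.2.2.2.2.2.2.2.1.1, rf2h5.2.2.2.2.2.2.2.2.2.2.2.2.2.2.2.2.2.2.2.2.2.2.2.2.2.2.2.1.1⟩
theorem rf2k98 : CfgOK (rf2c98.e, rf2c98.n) := red_ln rf2h22.2.2.2.2.2.2.2.2.2.2.2.2.2.2.2.2.2.2.2.2.2.2.2.1 ⟨rf2h22.2.2.2.2.2.2.2.2.2.2.2.2.2.2.2.2.2.2.2.2.2.2.2.1.1, rf2h5.2.2.2.2.2.2.2.2.2.2.2.2.2.2.2.2.2.2.2.2.2.2.2.2.2.2.1.1⟩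
theorem rf2k99 : CfgOK (rf2c99.e, rf2c99.n) := red_ln rf2h22.2.2.2.2.2.2.2.2.2.2.2.2.2.2.2.2.2.2.2.2.2.2.1 ⟨rf2h22.2.2.2.2.2.2.2.2.2.2.2.2.2.2.2.2.2.2.2.2.2.2.1.1, rf2h5.2.2.2.2.2.2.2.2.2.2.2.2.2.2.2.2.2.2.2.2.2.2.2.2.2.1.1⟩
theorem rf2k100 : CfgOK (rf2c100.e, rf2c100.n) := red_ln rf2h22.2.2.2.2.2.2.2.2.2.2.2.2.2.2.2.2.2.2.2.2.2.1 ⟨rf2h22.2.2.2.2.2.2.2.2.2.2.2.2.2.2.2.2.2.2.2.2.2.1.1, rf2h5.2.2.2.2.2.2.2.2.2.2.2.2.2.2.2.2.2.2.2.2.2.2.2.2.1.1⟩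
theorem rf2k101 : CfgOK (rf2c101.e, rf2c101.n) := red_ln rf2h22.2.2.2.2.2.2.2.2.2.2.2.2.2.2.2.2.2.2.2.2.1 ⟨⟨rf2h22.2.2.2.2.2.2.2.2.2.2.2.2.2.2.2.2.2.2.2.2.1.1, rf2h5.2.2.2.2.2.2.2.2.2.2.2.2.2.2.2.2.2.2.2.2.2.2.2.1.1⟩, ⟨rf2h29.2.2.2.2.2.1.1, rf2h10.2.2.2.2.2.2.2.2.2.2.2.2.2.2.2.2.2.2.2.2.2.2.2.2.2.2.2.2.2.2.2.1.1⟩⟩
theorem rf2k102 : CfgOK (rf2c102.e, rf2c102.n) := red_ln rf2h22.2.2.2.2.2.2.2.2.2.2.2.2.2.2.2.2.2.2.2.1 ⟨⟨rf2h22.2.2.2.2.2.2.2.2.2.2.2.2.2.2.2.2.2.2.2.1.1, rf2h5.2.2.2.2.2.2.2.2.2.2.2.2.2.2.2.2.2.2.2.2.2.2.1.1⟩, ⟨rf2h27.2.2.2.2.2.2.2.2.2.2.2.2.2.2.2.2.2.2.2.1.1, rf2h10.2.2.2.2.2.2.2.2.2.2.2.2.2.2.2.2.2.2.2.2.2.2.2.2.2.2.2.2.2.2.1.1⟩⟩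
theorem rf2k103 : CfgOK (rf2c103.e, rf2c103.n) := red_ln rf2h22.2.2.2.2.2.2.2.2.2.2.2.2.2.2.2.2.2.2.1 ⟨⟨rf2h22.2.2.2.2.2.2.2.2.2.2.2.2.2.2.2.2.2.2.1.1, rf2h5.2.2.2.2.2.2.2.2.2.2.2.2.2.2.2.2.2.2.2.2.2.1.1⟩, ⟨rf2h27.2.2.2.2.2.2.2.2.2.2.2.2.2.2.2.2.2.2.1.1, rf2h10.2.2.2.2.2.2.2.2.2.2.2.2.2.2.2.2.2.2.2.2.2.2.2.2.2.2.2.2.2.1.1⟩⟩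
theorem rf2k104 : CfgOK (rf2c104.e, rf2c104.n) := red_ln rf2h22.2.2.2.2.2.2.2.2.2.2.2.2.2.2.2.2.2.1 ⟨⟨⟨rf2h22.2.2.2.2.2.2.2.2.2.2.2.2.2.2.2.2.2.1.1, rf2h32.2.2.2.2.2.2.1.1⟩, ⟨rf2h5.2.2.2.2.2.2.2.2.2.2.2.2.2.2.2.2.2.2.2.2.1.1, rf2h10.2.2.2.2.2.2.2.2.2.2.2.2.2.2.2.2.2.2.2.2.2.2.2.2.2.2.2.2.1.1⟩⟩, ⟨⟨rf2h29.2.2.2.2.1.1, rf2h15.2.2.1.1⟩, ⟨rf2h10.2.2.2.2.2.2.2.2.2.2.2.2.2.2.2.2.2.2.2.2.2.2.2.2.2.2.2.1.1, rf2h16.2.2.2.2.2.2.2.2.2.2.2.2.2.2.2.2.2.1.1⟩⟩⟩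
theorem rf2k105 : CfgOK (rf2c105.e, rf2c105.n) := red_ln rf2h22.2.2.2.2.2.2.2.2.2.2.2.2.2.2.2.2.1 ⟨⟨rf2h22.2.2.2.2.2.2.2.2.2.2.2.2.2.2.2.2.1.1, rf2h32.2.2.2.2.2.1.1⟩, ⟨rf2h31.2.1.1, rf2h15.2.1.1⟩⟩
theorem rf2k106 : CfgOK (rf2c106.e, rf2c106.n) := red_ln rf2h22.2.2.2.2.2.2.2.2.2.2.2.2.2.2.2.1 ⟨rf2h22.2.2.2.2.2.2.2.2.2.2.2.2.2.2.2.1.1, rf2h31.1.1⟩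
theorem rf2k107 : CfgOK (rf2c107.e, rf2c107.n) := red_ln rf2h22.2.2.2.2.2.2.2.2.2.2.2.2.2.2.1 ⟨⟨rf2h22.2.2.2.2.2.2.2.2.2.2.2.2.2.2.1.1, rf2h30.2.2.2.2.2.2.2.2.2.2.2.2.2.2.2.2.2.2.2.2.2.2.2.2.2.2.2.2.2.1.1⟩, ⟨rf2h5.2.2.2.2.2.2.2.2.2.2.2.2.2.2.2.2.2.2.2.1.1, rf2h10.2.2.2.2.2.2.2.2.2.2.2.2.2.2.2.2.2.2.2.2.2.2.2.2.2.2.1.1⟩⟩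
theorem rf2k108 : CfgOK (rf2c108.e, rf2c108.n) := red_ln rf2h22.2.2.2.2.2.2.2.2.2.2.2.2.2.1 ⟨⟨rf2h22.2.2.2.2.2.2.2.2.2.2.2.2.2.1.1, rf2h30.2.2.2.2.2.2.2.2.2.2.2.2.2.2.2.2.2.2.2.2.2.2.2.2.2.2.2.2.1.1⟩, ⟨rf2h5.2.2.2.2.2.2.2.2.2.2.2.2.2.2.2.2.2.2.1.1, rf2h10.2.2.2.2.2.2.2.2.2.2.2.2.2.2.2.2.2.2.2.2.2.2.2.2.2.1.1⟩⟩
theorem rf2k109 : CfgOK (rf2c109.e, rf2c109.n) := red_ln rf2h22.2.2.2.2.2.2.2.2.2.2.2.2.1 ⟨⟨⟨rf2h22.2.2.2.2.2.2.2.2.2.2.2.2.1.1, rf2h30.2.2.2.2.2.2.2.2.2.2.2.2.2.2.2.2.2.2.2.2.2.2.2.2.2.2.2.1.1⟩, ⟨rf2h5.2.2.2.2.2.2.2.2.2.2.2.2.2.2.2.2.2.1.1, rf2h10.2.2.2.2.2.2.2.2.2.2.2.2.2.2.2.2.2.2.2.2.2.2.2.2.1.1⟩⟩, ⟨⟨rf2h12.2.2.2.2.2.2.2.2.2.1.1,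 rf2h14.2.2.1.1⟩, ⟨rf2h10.2.2.2.2.2.2.2.2.2.2.2.2.2.2.2.2.2.2.2.2.2.2.2.1.1, rf2h16.2.2.2.2.2.2.2.2.2.2.2.2.2.2.2.2.1.1⟩⟩⟩
theorem rf2k110 : CfgOK (rf2c110.e, rf2c110.n) := red_ln rf2h22.2.2.2.2.2.2.2.2.2.2.2.1 ⟨⟨rf2h22.2.2.2.2.2.2.2.2.2.2.2.1.1, rf2h29.2.2.2.1.1⟩, ⟨rf2h5.2.2.2.2.2.2.2.2.2.2.2.2.2.2.2.2.1.1, rf2h10.2.2.2.2.2.2.2.2.2.2.2.2.2.2.2.2.2.2.2.2.2.2.1.1⟩⟩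
theorem rf2k111 : CfgOK (rf2c111.e, rf2c111.n) := red_ln rf2h22.2.2.2.2.2.2.2.2.2.2.1 ⟨⟨rf2h22.2.2.2.2.2.2.2.2.2.2.1.1, rf2h29.2.2.1.1⟩, ⟨rf2h5.2.2.2.2.2.2.2.2.2.2.2.2.2.2.2.1.1, rf2h10.2.2.2.2.2.2.2.2.2.2.2.2.2.2.2.2.2.2.2.2.2.1.1⟩⟩
theorem rf2k112 : CfgOK (rf2c112.e, rf2c112.n) := red_ln rf2h22.2.2.2.2.2.2.2.2.2.1 ⟨⟨rf2h22.2.2.2.2.2.2.2.2.2.1.1, rf2h29.2.1.1⟩, ⟨rf2h5.2.2.2.2.2.2.2.2.2.2.2.2.2.2.1.1, rf2h10.2.2.2.2.2.2.2.2.2.2.2.2.2.2.2.2.2.2.2.2.1.1⟩⟩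
theorem rf2k113 : CfgOK (rf2c113.e, rf2c113.n) := red_ln rf2h22.2.2.2.2.2.2.2.2.1 ⟨⟨⟨rf2h22.2.2.2.2.2.2.2.2.1.1, rf2h29.1.1⟩, ⟨rf2h32.2.2.2.2.2.2.2.2.2.2.2.2.2.2.2.1.1, rf2h15.2.2.2.2.2.2.2.2.2.2.2.2.2.2.2.2.1.1⟩⟩, ⟨⟨rf2h5.2.2.2.2.2.2.2.2.2.2.2.2.2.1.1, rf2h10.2.2.2.2.2.2.2.2.2.2.2.2.2.2.2.2.2.2.2.1.1⟩, ⟨rf2h10.2.2.2.2.2.2.2.2.2.2.2.2.2.2.2.2.2.2.1.1, rf2h16.2.2.2.2.2.2.2.2.2.2.2.2.2.2.2.1.1⟩⟩⟩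
theorem rf2k114 : CfgOK (rf2c114.e, rf2c114.n) := red_ln rf2h22.2.2.2.2.2.2.2.1 ⟨rf2h22.2.2.2.2.2.2.2.1.1, rf2h27.2.2.2.2.2.2.2.2.2.2.2.2.2.2.2.2.2.1.1⟩
theorem rf2k115 : CfgOK (rf2c115.e, rf2c115.n) := red_ln rf2h22.2.2.2.2.2.2.1 ⟨rf2h22.2.2.2.2.2.2.1.1, rf2h27.2.2.2.2.2.2.2.2.2.2.2.2.2.2.2.2.1.1⟩
theorem rf2k116 : CfgOK (rf2c116.e, rf2c116.n) := red_ln rf2h22.2.2.2.2.2.1 ⟨rf2h22.2.2.2.2.2.1.1, rf2h27.2.2.2.2.2.2.2.2.2.2.2.2.2.2.2.1.1⟩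
theorem rf2k117 : CfgOK (rf2c117.e, rf2c117.n) := red_ln rf2h22.2.2.2.2.1 ⟨⟨rf2h22.2.2.2.2.1.1, rf2h27.2.2.2.2.2.2.2.2.2.2.2.2.2.2.1.1⟩, ⟨rf2h5.2.2.2.2.2.2.2.2.2.2.2.2.1.1, rf2h10.2.2.2.2.2.2.2.2.2.2.2.2.2.2.2.2.2.1.1⟩⟩
theorem rf2k118 : CfgOK (rf2c118.e, rf2c118.n) := red_ln rf2h22.2.2.2.1 ⟨⟨rf2h22.2.2.2.1.1, rf2h27.2.2.2.2.2.2.2.2.2.2.2.2.2.1.1⟩, ⟨rf2h5.2.2.2.2.2.2.2.2.2.2.2.1.1, rf2h10.2.2.2.2.2.2.2.2.2.2.2.2.2.2.2.2.1.1⟩⟩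
theorem rf2k119 : CfgOK (rf2c119.e, rf2c119.n) := red_ln rf2h22.2.2.1 ⟨⟨rf2h22.2.2.1.1, rf2h27.2.2.2.2.2.2.2.2.2.2.2.2.1.1⟩, ⟨rf2h5.2.2.2.2.2.2.2.2.2.2.1.1, rf2h10.2.2.2.2.2.2.2.2.2.2.2.2.2.2.2.1.1⟩⟩
theorem rf2k120 : CfgOK (rf2c120.e, rf2c120.n) := red_ln rf2h22.2.1 ⟨⟨rf2h22.2.1.1, rf2h27.2.2.2.2.2.2.2.2.2.2.2.1.1⟩, ⟨rf2h5.2.2.2.2.2.2.2.2.2.1.1, rf2h10.2.2.2.2.2.2.2.2.2.2.2.2.2.2.1.1⟩⟩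
theorem rf2k121 : CfgOK (rf2c121.e, rf2c121.n) := red_ln rf2h22.1 ⟨⟨rf2h22.1.1, rf2h27.2.2.2.2.2.2.2.2.2.2.1.1⟩, ⟨rf2h5.2.2.2.2.2.2.2.2.1.1, rf2h10.2.2.2.2.2.2.2.2.2.2.2.2.2.1.1⟩⟩
theorem rf2k122 : CfgOK (rf2c122.e, rf2c122.n) := red_ln rf2h21.2.2.2.2.2.2.2.2.2.2.2.2.2.2.2.2.2.2.2.2.2.2.2.2.2.2.2.2.2.1 ⟨⟨⟨rf2h21.2.2.2.2.2.2.2.2.2.2.2.2.2.2.2.2.2.2.2.2.2.2.2.2.2.2.2.2.2.1.1, rf2h27.2.2.2.2.2.2.2.2.2.1.1⟩, ⟨rf2h30.2.2.2.2.2.2.2.2.2.2.2.2.2.2.2.2.2.2.2.2.2.2.2.2.2.2.1.1, rf2h15.1.1⟩⟩, ⟨⟨rf2h5.2.2.2.2.2.2.2.1.1, rf2h10.2.2.2.2.2.2.2.2.2.2.2.2.1.1⟩, ⟨rf2h10.2.2.2.2.2.2.2.2.2.2.2.1.1, rf2h16.2.2.2.2.2.2.2.2.2.2.2.2.2.2.1.1⟩⟩⟩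
theorem rf2k123 : CfgOK (rf2c123.e, rf2c123.n) := red_ln rf2h21.2.2.2.2.2.2.2.2.2.2.2.2.2.2.2.2.2.2.2.2.2.2.2.2.2.2.2.2.1 ⟨⟨rf2h21.2.2.2.2.2.2.2.2.2.2.2.2.2.2.2.2.2.2.2.2.2.2.2.2.2.2.2.2.1.1, rf2h23.2.2.2.2.2.2.2.2.2.2.2.2.1.1⟩, ⟨rf2h32.2.2.2.2.1.1, rf2h14.2.2.2.2.2.2.2.2.2.2.2.2.2.2.2.2.2.2.2.2.2.2.2.2.2.2.2.2.2.1.1⟩⟩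
theorem rf2k124 : CfgOK (rf2c124.e, rf2c124.n) := red_ln rf2h21.2.2.2.2.2.2.2.2.2.2.2.2.2.2.2.2.2.2.2.2.2.2.2.2.2.2.2.1 ⟨⟨rf2h21.2.2.2.2.2.2.2.2.2.2.2.2.2.2.2.2.2.2.2.2.2.2.2.2.2.2.2.1.1, rf2h12.2.2.2.2.2.2.2.2.2.2.2.2.2.2.2.2.2.2.2.2.2.2.2.2.2.2.2.2.2.1.1⟩, ⟨rf2h5.2.2.2.2.2.2.1.1, rf2h10.2.2.2.2.2.2.2.2.2.2.1.1⟩⟩
theorem rf2k125 : CfgOK (rf2c125.e, rf2c125.n) := red_ln rf2h21.2.2.2.2.2.2.2.2.2.2.2.2.2.2.2.2.2.2.2.2.2.2.2.2.2.2.1 rf2h21.2.2.2.2.2.2.2.2.2.2.2.2.2.2.2.2.2.2.2.2.2.2.2.2.2.2.1.1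
theorem rf2k126 : CfgOK (rf2c126.e, rf2c126.n) := red_ln rf2h21.2.2.2.2.2.2.2.2.2.2.2.2.2.2.2.2.2.2.2.2.2.2.2.2.2.1 rf2h21.2.2.2.2.2.2.2.2.2.2.2.2.2.2.2.2.2.2.2.2.2.2.2.2.2.1.1
theorem rf2k127 : CfgOK (rf2c127.e, rf2c127.n) := red_ln rf2h21.2.2.2.2.2.2.2.2.2.2.2.2.2.2.2.2.2.2.2.2.2.2.2.2.1 rf2h21.2.2.2.2.2.2.2.2.2.2.2.2.2.2.2.2.2.2.2.2.2.2.2.2.1.1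
theorem rf2k128 : CfgOK (rf2c128.e, rf2c128.n) := red_ln rf2h21.2.2.2.2.2.2.2.2.2.2.2.2.2.2.2.2.2.2.2.2.2.2.2.1 rf2h21.2.2.2.2.2.2.2.2.2.2.2.2.2.2.2.2.2.2.2.2.2.2.2.1.1
theorem rf2k129 : CfgOK (rf2c129.e, rf2c129.n) := red_ln rf2h21.2.2.2.2.2.2.2.2.2.2.2.2.2.2.2.2.2.2.2.2.2.2.1 rf2h21.2.2.2.2.2.2.2.2.2.2.2.2.2.2.2.2.2.2.2.2.2.2.1.1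
theorem rf2k130 : CfgOK (rf2c130.e, rf2c130.n) := red_ln rf2h21.2.2.2.2.2.2.2.2.2.2.2.2.2.2.2.2.2.2.2.2.2.1 ⟨rf2h21.2.2.2.2.2.2.2.2.2.2.2.2.2.2.2.2.2.2.2.2.2.1.1, rf2h5.2.2.2.2.2.1.1⟩
theorem rf2k131 : CfgOK (rf2c131.e, rf2c131.n) := red_ln rf2h21.2.2.2.2.2.2.2.2.2.2.2.2.2.2.2.2.2.2.2.2.1 ⟨rf2h21.2.2.2.2.2.2.2.2.2.2.2.2.2.2.2.2.2.2.2.2.1.1, rf2h5.2.2.2.2.1.1⟩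
theorem rf2k132 : CfgOK (rf2c132.e, rf2c132.n) := red_ln rf2h21.2.2.2.2.2.2.2.2.2.2.2.2.2.2.2.2.2.2.2.1 ⟨rf2h21.2.2.2.2.2.2.2.2.2.2.2.2.2.2.2.2.2.2.2.1.1, rf2h5.2.2.2.1.1⟩
theorem rf2k133 : CfgOK (rf2c133.e, rf2c133.n) := red_ln rf2h21.2.2.2.2.2.2.2.2.2.2.2.2.2.2.2.2.2.2.1 ⟨rf2h21.2.2.2.2.2.2.2.2.2.2.2.2.2.2.2.2.2.2.1.1, rf2h5.2.2.1.1⟩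
theorem rf2k134 : CfgOK (rf2c134.e, rf2c134.n) := red_ln rf2h21.2.2.2.2.2.2.2.2.2.2.2.2.2.2.2.2.2.1 ⟨rf2h21.2.2.2.2.2.2.2.2.2.2.2.2.2.2.2.2.2.1.1, rf2h5.2.1.1⟩
theorem rf2k135 : CfgOK (rf2c135.e, rf2c135.n) := red_ln rf2h21.2.2.2.2.2.2.2.2.2.2.2.2.2.2.2.2.1 ⟨rf2h21.2.2.2.2.2.2.2.2.2.2.2.2.2.2.2.2.1.1, rf2h5.1.1⟩
theorem rf2k136 : CfgOK (rf2c136.e, rf2c136.n) := red_ln rf2h21.2.2.2.2.2.2.2.2.2.2.2.2.2.2.2.1 ⟨rf2h21.2.2.2.2.2.2.2.2.2.2.2.2.2.2.2.1.1, rf2h4.2.2.2.2.2.2.2.2.2.2.2.2.2.2.2.2.2.2.2.2.2.2.2.2.2.2.2.2.2.2.2.2.2.2.2.2.2.2.2.1.1⟩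
theorem rf2k137 : CfgOK (rf2c137.e, rf2c137.n) := red_ln rf2h21.2.2.2.2.2.2.2.2.2.2.2.2.2.2.1 ⟨rf2h21.2.2.2.2.2.2.2.2.2.2.2.2.2.2.1.1, rf2h4.2.2.2.2.2.2.2.2.2.2.2.2.2.2.2.2.2.2.2.2.2.2.2.2.2.2.2.2.2.2.2.2.2.2.2.2.2.2.1.1⟩
theorem rf2k138 : CfgOK (rf2c138.e, rf2c138.n) := red_ln rf2h21.2.2.2.2.2.2.2.2.2.2.2.2.2.1 ⟨rf2h21.2.2.2.2.2.2.2.2.2.2.2.2.2.1.1, rf2h4.2.2.2.2.2.2.2.2.2.2.2.2.2.2.2.2.2.2.2.2.2.2.2.2.2.2.2.2.2.2.2.2.2.2.2.2.2.1.1⟩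
theorem rf2k139 : CfgOK (rf2c139.e, rf2c139.n) := red_ln rf2h21.2.2.2.2.2.2.2.2.2.2.2.2.1 ⟨rf2h21.2.2.2.2.2.2.2.2.2.2.2.2.1.1, rf2h4.2.2.2.2.2.2.2.2.2.2.2.2.2.2.2.2.2.2.2.2.2.2.2.2.2.2.2.2.2.2.2.2.2.2.2.2.1.1⟩
theorem rf2k140 : CfgOK (rf2c140.e, rf2c140.n) := red_ln rf2h21.2.2.2.2.2.2.2.2.2.2.2.1 ⟨rf2h21.2.2.2.2.2.2.2.2.2.2.2.1.1, rf2h4.2.2.2.2.2.2.2.2.2.2.2.2.2.2.2.2.2.2.2.2.2.2.2.2.2.2.2.2.2.2.2.2.2.2.2.1.1⟩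
theorem rf2k141 : CfgOK (rf2c141.e, rf2c141.n) := red_ln rf2h21.2.2.2.2.2.2.2.2.2.2.1 ⟨rf2h21.2.2.2.2.2.2.2.2.2.2.1.1, rf2h4.2.2.2.2.2.2.2.2.2.2.2.2.2.2.2.2.2.2.2.2.2.2.2.2.2.2.2.2.2.2.2.2.2.2.1.1⟩
theorem rf2k142 : CfgOK (rf2c142.e, rf2c142.n) := red_ln rf2h21.2.2.2.2.2.2.2.2.2.1 ⟨rf2h21.2.2.2.2.2.2.2.2.2.1.1, rf2h4.2.2.2.2.2.2.2.2.2.2.2.2.2.2.2.2.2.2.2.2.2.2.2.2.2.2.2.2.2.2.2.2.2.1.1⟩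
theorem rf2k143 : CfgOK (rf2c143.e, rf2c143.n) := red_ln rf2h21.2.2.2.2.2.2.2.2.1 ⟨rf2h21.2.2.2.2.2.2.2.2.1.1, rf2h4.2.2.2.2.2.2.2.2.2.2.2.2.2.2.2.2.2.2.2.2.2.2.2.2.2.2.2.2.2.2.2.2.1.1⟩
theorem rf2k144 : CfgOK (rf2c144.e, rf2c144.n) := red_ln rf2h21.2.2.2.2.2.2.2.1 ⟨rf2h21.2.2.2.2.2.2.2.1.1, rf2h4.2.2.2.2.2.2.2.2.2.2.2.2.2.2.2.2.2.2.2.2.2.2.2.2.2.2.2.2.2.2.2.1.1⟩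
theorem rf2k145 : CfgOK (rf2c145.e, rf2c145.n) := red_ln rf2h21.2.2.2.2.2.2.1 ⟨⟨⟨rf2h21.2.2.2.2.2.2.1.1, rf2h4.2.2.2.2.2.2.2.2.2.2.2.2.2.2.2.2.2.2.2.2.2.2.2.2.2.2.2.2.2.2.1.1⟩, ⟨rf2h27.2.2.2.2.2.2.2.2.1.1, rf2h10.2.2.2.2.2.2.2.2.2.1.1⟩⟩, ⟨⟨rf2h30.2.2.2.2.2.2.2.2.2.2.2.2.2.2.2.2.2.2.2.2.2.2.2.2.2.1.1, rf2h10.2.2.2.2.2.2.2.2.1.1⟩, ⟨rf2h14.2.2.2.2.2.2.2.2.2.2.2.2.2.2.1.1, rf2h16.2.2.2.2.2.2.2.2.2.2.2.2.2.1.1⟩⟩⟩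
theorem rf2k146 : CfgOK (rf2c146.e, rf2c146.n) := red_ln rf2h21.2.2.2.2.2.1 ⟨⟨⟨rf2h21.2.2.2.2.2.1.1, rf2h4.2.2.2.2.2.2.2.2.2.2.2.2.2.2.2.2.2.2.2.2.2.2.2.2.2.2.2.2.2.1.1⟩, ⟨rf2h12.2.2.2.2.2.2.2.2.2.2.2.1.1, rf2h10.2.2.2.2.2.2.2.1.1⟩⟩, ⟨⟨rf2h32.2.2.2.1.1, rf2h10.2.2.2.2.2.2.1.1⟩, ⟨rf2h15.2.2.2.2.2.2.2.2.2.2.1.1, rf2h16.2.2.2.2.2.2.2.2.2.2.2.2.1.1⟩⟩⟩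
theorem rf2k147 : CfgOK (rf2c147.e, rf2c147.n) := red_ln rf2h21.2.2.2.2.1 ⟨⟨rf2h21.2.2.2.2.1.1, rf2h4.2.2.2.2.2.2.2.2.2.2.2.2.2.2.2.2.2.2.2.2.2.2.2.2.2.2.2.2.1.1⟩, ⟨rf2h12.2.2.2.2.2.2.2.1.1, rf2h10.2.2.2.2.2.1.1⟩⟩
theorem rf2k148 : CfgOK (rf2c148.e, rf2c148.n) := red_ln rf2h21.2.2.2.1 ⟨⟨rf2h21.2.2.2.1.1, rf2h32.2.2.1.1⟩, ⟨rf2h4.2.2.2.2.2.2.2.2.2.2.2.2.2.2.2.2.2.2.2.2.2.2.2.2.2.2.2.1.1, rf2h10.2.2.2.2.1.1⟩⟩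
theorem rf2k149 : CfgOK (rf2c149.e, rf2c149.n) := red_ln rf2h21.2.2.1 ⟨⟨rf2h21.2.2.1.1, rf2h32.2.1.1⟩, ⟨rf2h4.2.2.2.2.2.2.2.2.2.2.2.2.2.2.2.2.2.2.2.2.2.2.2.2.2.2.1.1, rf2h10.2.2.2.1.1⟩⟩
theorem rf2k150 : CfgOK (rf2c150.e, rf2c150.n) := red_ln rf2h21.2.1 ⟨⟨rf2h21.2.1.1, rf2h30.2.2.2.2.2.2.2.2.2.2.2.2.2.2.2.2.2.2.2.2.2.2.2.2.1.1⟩, ⟨rf2h4.2.2.2.2.2.2.2.2.2.2.2.2.2.2.2.2.2.2.2.2.2.2.2.2.2.1.1, rf2h10.2.2.1.1⟩⟩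
theorem rf2k151 : CfgOK (rf2c151.e, rf2c151.n) := red_ln rf2h21.1 ⟨⟨rf2h21.1.1, rf2h30.2.2.2.2.2.2.2.2.2.2.2.2.2.2.2.2.2.2.2.2.2.2.2.1.1⟩, ⟨rf2h4.2.2.2.2.2.2.2.2.2.2.2.2.2.2.2.2.2.2.2.2.2.2.2.2.1.1, rf2h10.2.1.1⟩⟩
theorem rf2k152 : CfgOK (rf2c152.e, rf2c152.n) := red_ln rf2h20.2.2.2.2.2.2.2.2.2.2.2.2.2.2.2.2.2.2.2.2.2.2.2.2.2.2.2.2.2.1 ⟨⟨rf2h20.2.2.2.2.2.2.2.2.2.2.2.2.2.2.2.2.2.2.2.2.2.2.2.2.2.2.2.2.2.1.1, rf2h30.2.2.2.2.2.2.2.2.2.2.2.2.2.2.2.2.2.2.2.2.2.2.1.1⟩, ⟨rf2h4.2.2.2.2.2.2.2.2.2.2.2.2.2.2.2.2.2.2.2.2.2.2.2.1.1, rf2h10.1.1⟩⟩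
theorem rf2k153 : CfgOK (rf2c153.e, rf2c153.n) := red_ln rf2h20.2.2.2.2.2.2.2.2.2.2.2.2.2.2.2.2.2.2.2.2.2.2.2.2.2.2.2.2.1 ⟨⟨rf2h20.2.2.2.2.2.2.2.2.2.2.2.2.2.2.2.2.2.2.2.2.2.2.2.2.2.2.2.2.1.1, rf2h30.2.2.2.2.2.2.2.2.2.2.2.2.2.2.2.2.2.2.2.2.2.1.1⟩, ⟨rf2h4.2.2.2.2.2.2.2.2.2.2.2.2.2.2.2.2.2.2.2.2.2.2.1.1, rf2h9.2.2.2.2.2.2.2.2.2.2.2.2.2.2.2.2.2.2.2.2.2.2.2.2.2.2.2.2.2.2.2.2.2.2.2.2.2.2.2.1.1⟩⟩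
theorem rf2k154 : CfgOK (rf2c154.e, rf2c154.n) := red_ln rf2h20.2.2.2.2.2.2.2.2.2.2.2.2.2.2.2.2.2.2.2.2.2.2.2.2.2.2.2.1 ⟨⟨rf2h20.2.2.2.2.2.2.2.2.2.2.2.2.2.2.2.2.2.2.2.2.2.2.2.2.2.2.2.1.1, rf2h30.2.2.2.2.2.2.2.2.2.2.2.2.2.2.2.2.2.2.2.2.1.1⟩, ⟨rf2h4.2.2.2.2.2.2.2.2.2.2.2.2.2.2.2.2.2.2.2.2.2.1.1, rf2h9.2.2.2.2.2.2.2.2.2.2.2.2.2.2.2.2.2.2.2.2.2.2.2.2.2.2.2.2.2.2.2.2.2.2.2.2.2.2.1.1⟩⟩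
theorem rf2k155 : CfgOK (rf2c155.e, rf2c155.n) := red_ln rf2h20.2.2.2.2.2.2.2.2.2.2.2.2.2.2.2.2.2.2.2.2.2.2.2.2.2.2.1 ⟨⟨rf2h20.2.2.2.2.2.2.2.2.2.2.2.2.2.2.2.2.2.2.2.2.2.2.2.2.2.2.1.1, rf2h30.2.2.2.2.2.2.2.2.2.2.2.2.2.2.2.2.2.2.2.1.1⟩, ⟨rf2h4.2.2.2.2.2.2.2.2.2.2.2.2.2.2.2.2.2.2.2.2.1.1, rf2h9.2.2.2.2.2.2.2.2.2.2.2.2.2.2.2.2.2.2.2.2.2.2.2.2.2.2.2.2.2.2.2.2.2.2.2.2.2.1.1⟩⟩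
theorem rf2k156 : CfgOK (rf2c156.e, rf2c156.n) := red_ln rf2h20.2.2.2.2.2.2.2.2.2.2.2.2.2.2.2.2.2.2.2.2.2.2.2.2.2.1 ⟨⟨rf2h20.2.2.2.2.2.2.2.2.2.2.2.2.2.2.2.2.2.2.2.2.2.2.2.2.2.1.1, rf2h30.2.2.2.2.2.2.2.2.2.2.2.2.2.2.2.2.2.2.1.1⟩, ⟨rf2h4.2.2.2.2.2.2.2.2.2.2.2.2.2.2.2.2.2.2.2.1.1, rf2h9.2.2.2.2.2.2.2.2.2.2.2.2.2.2.2.2.2.2.2.2.2.2.2.2.2.2.2.2.2.2.2.2.2.2.2.2.1.1⟩⟩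
theorem rf2k157 : CfgOK (rf2c157.e, rf2c157.n) := red_ln rf2h20.2.2.2.2.2.2.2.2.2.2.2.2.2.2.2.2.2.2.2.2.2.2.2.2.1 ⟨⟨rf2h20.2.2.2.2.2.2.2.2.2.2.2.2.2.2.2.2.2.2.2.2.2.2.2.2.1.1, rf2h30.2.2.2.2.2.2.2.2.2.2.2.2.2.2.2.2.2.1.1⟩, ⟨rf2h4.2.2.2.2.2.2.2.2.2.2.2.2.2.2.2.2.2.2.1.1, rf2h9.2.2.2.2.2.2.2.2.2.2.2.2.2.2.2.2.2.2.2.2.2.2.2.2.2.2.2.2.2.2.2.2.2.2.2.1.1⟩⟩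
theorem rf2k158 : CfgOK (rf2c158.e, rf2c158.n) := red_ln rf2h20.2.2.2.2.2.2.2.2.2.2.2.2.2.2.2.2.2.2.2.2.2.2.2.1 ⟨rf2h20.2.2.2.2.2.2.2.2.2.2.2.2.2.2.2.2.2.2.2.2.2.2.2.1.1, rf2h28.2.2.2.2.2.2.2.2.2.2.2.2.2.2.2.2.2.2.2.2.2.2.2.2.2.2.2.2.2.1.1⟩
theorem rf2k159 : CfgOK (rf2c159.e, rf2c159.n) := red_ln rf2h20.2.2.2.2.2.2.2.2.2.2.2.2.2.2.2.2.2.2.2.2.2.2.1 ⟨⟨rf2h20.2.2.2.2.2.2.2.2.2.2.2.2.2.2.2.2.2.2.2.2.2.2.1.1, rf2h28.2.2.2.2.2.2.2.2.2.2.2.2.2.2.2.2.2.2.2.2.2.2.2.2.2.2.2.2.1.1⟩, ⟨rf2h4.2.2.2.2.2.2.2.2.2.2.2.2.2.2.2.2.2.1.1, rf2h9.2.2.2.2.2.2.2.2.2.2.2.2.2.2.2.2.2.2.2.2.2.2.2.2.2.2.2.2.2.2.2.2.2.2.1.1⟩⟩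
theorem rf2k160 : CfgOK (rf2c160.e, rf2c160.n) := red_ln rf2h20.2.2.2.2.2.2.2.2.2.2.2.2.2.2.2.2.2.2.2.2.2.1 ⟨rf2h20.2.2.2.2.2.2.2.2.2.2.2.2.2.2.2.2.2.2.2.2.2.1.1, rf2h27.2.2.2.2.2.2.2.1.1⟩
theorem rf2k161 : CfgOK (rf2c161.e, rf2c161.n) := red_ln rf2h20.2.2.2.2.2.2.2.2.2.2.2.2.2.2.2.2.2.2.2.2.1 ⟨⟨rf2h20.2.2.2.2.2.2.2.2.2.2.2.2.2.2.2.2.2.2.2.2.1.1, rf2h27.2.2.2.2.2.2.1.1⟩, ⟨rf2h4.2.2.2.2.2.2.2.2.2.2.2.2.2.2.2.2.1.1, rf2h9.2.2.2.2.2.2.2.2.2.2.2.2.2.2.2.2.2.2.2.2.2.2.2.2.2.2.2.2.2.2.2.2.2.1.1⟩⟩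
theorem rf2k162 : CfgOK (rf2c162.e, rf2c162.n) := red_ln rf2h20.2.2.2.2.2.2.2.2.2.2.2.2.2.2.2.2.2.2.2.1 ⟨rf2h20.2.2.2.2.2.2.2.2.2.2.2.2.2.2.2.2.2.2.2.1.1, rf2h12.2.2.2.2.2.2.2.2.2.2.2.2.2.2.2.2.2.2.2.2.2.2.2.2.2.2.2.2.1.1⟩
theorem rf2k163 : CfgOK (rf2c163.e, rf2c163.n) := red_ln rf2h20.2.2.2.2.2.2.2.2.2.2.2.2.2.2.2.2.2.2.1 ⟨⟨rf2h20.2.2.2.2.2.2.2.2.2.2.2.2.2.2.2.2.2.2.1.1, rf2h12.2.2.2.2.2.2.2.2.2.2.2.2.2.2.2.2.2.2.2.2.2.2.2.2.2.2.2.1.1⟩, ⟨rf2h4.2.2.2.2.2.2.2.2.2.2.2.2.2.2.2.1.1, rf2h9.2.2.2.2.2.2.2.2.2.2.2.2.2.2.2.2.2.2.2.2.2.2.2.2.2.2.2.2.2.2.2.2.1.1⟩⟩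
theorem rf2k164 : CfgOK (rf2c164.e, rf2c164.n) := red_ln rf2h20.2.2.2.2.2.2.2.2.2.2.2.2.2.2.2.2.2.1 ⟨⟨rf2h20.2.2.2.2.2.2.2.2.2.2.2.2.2.2.2.2.2.1.1, rf2h12.2.2.2.2.2.2.2.2.2.2.2.2.2.2.2.2.2.2.2.2.2.2.2.2.2.2.1.1⟩, ⟨rf2h4.2.2.2.2.2.2.2.2.2.2.2.2.2.2.1.1, rf2h9.2.2.2.2.2.2.2.2.2.2.2.2.2.2.2.2.2.2.2.2.2.2.2.2.2.2.2.2.2.2.2.1.1⟩⟩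
theorem rf2k165 : CfgOK (rf2c165.e, rf2c165.n) := red_ln rf2h20.2.2.2.2.2.2.2.2.2.2.2.2.2.2.2.2.1 ⟨⟨⟨rf2h20.2.2.2.2.2.2.2.2.2.2.2.2.2.2.2.2.1.1, rf2h12.2.2.2.2.2.2.2.2.1.1⟩, ⟨rf2h30.2.2.2.2.2.2.2.2.2.2.2.2.2.2.2.2.1.1, rf2h14.2.2.2.2.2.2.2.1.1⟩⟩, ⟨⟨rf2h4.2.2.2.2.2.2.2.2.2.2.2.2.2.1.1, rf2h9.2.2.2.2.2.2.2.2.2.2.2.2.2.2.2.2.2.2.2.2.2.2.2.2.2.2.2.2.2.2.1.1⟩, ⟨rf2h9.2.2.2.2.2.2.2.2.2.2.2.2.2.2.2.2.2.2.2.2.2.2.2.2.2.2.2.2.2.1.1, rf2h16.2.2.2.2.2.2.2.2.2.2.2.1.1⟩⟩⟩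
theorem rf2k166 : CfgOK (rf2c166.e, rf2c166.n) := red_ln rf2h20.2.2.2.2.2.2.2.2.2.2.2.2.2.2.2.1 ⟨rf2h20.2.2.2.2.2.2.2.2.2.2.2.2.2.2.2.1.1, rf2h4.2.2.2.2.2.2.2.2.2.2.2.2.1.1⟩
theorem rf2k167 : CfgOK (rf2c167.e, rf2c167.n) := red_ln rf2h20.2.2.2.2.2.2.2.2.2.2.2.2.2.2.1 ⟨rf2h20.2.2.2.2.2.2.2.2.2.2.2.2.2.2.1.1, rf2h4.2.2.2.2.2.2.2.2.2.2.2.1.1⟩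
theorem rf2k168 : CfgOK (rf2c168.e, rf2c168.n) := red_ln rf2h20.2.2.2.2.2.2.2.2.2.2.2.2.2.1 ⟨rf2h20.2.2.2.2.2.2.2.2.2.2.2.2.2.1.1, rf2h4.2.2.2.2.2.2.2.2.2.2.1.1⟩
theorem rf2k169 : CfgOK (rf2c169.e, rf2c169.n) := red_ln rf2h20.2.2.2.2.2.2.2.2.2.2.2.2.1 ⟨rf2h20.2.2.2.2.2.2.2.2.2.2.2.2.1.1, rf2h4.2.2.2.2.2.2.2.2.2.1.1⟩
theorem rf2k170 : CfgOK (rf2c170.e, rf2c170.n) := red_ln rf2h20.2.2.2.2.2.2.2.2.2.2.2.1 ⟨rf2h20.2.2.2.2.2.2.2.2.2.2.2.1.1, rf2h4.2.2.2.2.2.2.2.2.1.1⟩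
theorem rf2k171 : CfgOK (rf2c171.e, rf2c171.n) := red_ln rf2h20.2.2.2.2.2.2.2.2.2.2.1 ⟨rf2h20.2.2.2.2.2.2.2.2.2.2.1.1, rf2h4.2.2.2.2.2.2.2.1.1⟩
theorem rf2k172 : CfgOK (rf2c172.e, rf2c172.n) := red_ln rf2h20.2.2.2.2.2.2.2.2.2.1 ⟨rf2h20.2.2.2.2.2.2.2.2.2.1.1, rf2h4.2.2.2.2.2.2.1.1⟩
theorem rf2k173 : CfgOK (rf2c173.e, rf2c173.n) := red_ln rf2h20.2.2.2.2.2.2.2.2.1 ⟨rf2h20.2.2.2.2.2.2.2.2.1.1, rf2h4.2.2.2.2.2.1.1⟩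
theorem rf2k174 : CfgOK (rf2c174.e, rf2c174.n) := red_ln rf2h20.2.2.2.2.2.2.2.1 ⟨rf2h20.2.2.2.2.2.2.2.1.1, rf2h4.2.2.2.2.1.1⟩
theorem rf2k175 : CfgOK (rf2c175.e, rf2c175.n) := red_ln rf2h20.2.2.2.2.2.2.1 ⟨rf2h20.2.2.2.2.2.2.1.1, rf2h4.2.2.2.1.1⟩
theorem rf2k176 : CfgOK (rf2c176.e, rf2c176.n) := red_ln rf2h20.2.2.2.2.2.1 ⟨⟨rf2h20.2.2.2.2.2.1.1, rf2h4.2.2.1.1⟩, ⟨rf2h30.2.2.2.2.2.2.2.2.2.2.2.2.2.2.2.1.1, rf2h9.2.2.2.2.2.2.2.2.2.2.2.2.2.2.2.2.2.2.2.2.2.2.2.2.2.2.2.2.1.1⟩⟩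
theorem rf2k177 : CfgOK (rf2c177.e, rf2c177.n) := red_ln rf2h20.2.2.2.2.1 ⟨⟨rf2h20.2.2.2.2.1.1, rf2h4.2.1.1⟩, ⟨rf2h28.2.2.2.2.2.2.2.2.2.2.2.2.2.2.2.2.2.2.2.2.2.2.2.2.2.2.2.1.1, rf2h9.2.2.2.2.2.2.2.2.2.2.2.2.2.2.2.2.2.2.2.2.2.2.2.2.2.2.2.1.1⟩⟩
theorem rf2k178 : CfgOK (rf2c178.e, rf2c178.n) := red_ln rf2h20.2.2.2.1 ⟨⟨⟨rf2h20.2.2.2.1.1, rf2h4.1.1⟩, ⟨rf2h12.2.2.2.2.2.2.2.2.2.2.2.2.2.2.2.2.2.1.1, rf2h9.2.2.2.2.2.2.2.2.2.2.2.2.2.2.2.2.2.2.2.2.2.2.2.2.2.2.1.1⟩⟩, ⟨⟨rf2h28.2.2.2.2.2.2.2.2.2.2.2.2.2.2.2.2.2.2.2.2.2.2.2.2.2.2.1.1, rf2h9.2.2.2.2.2.2.2.2.2.2.2.2.2.2.2.2.2.2.2.2.2.2.2.2.2.1.1⟩, ⟨rf2h14.2.2.2.2.2.2.2.2.2.2.2.2.2.1.1, rf2h16.2.2.2.2.2.2.2.2.2.2.1.1⟩⟩⟩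
theorem rf2k179 : CfgOK (rf2c179.e, rf2c179.n) := red_ln rf2h20.2.2.1 ⟨⟨rf2h20.2.2.1.1, rf2h32.1.1⟩, ⟨rf2h3.2.2.2.2.2.2.2.2.2.2.2.2.2.2.2.2.2.2.2.2.2.2.2.2.2.2.2.2.2.2.2.2.2.2.2.2.2.2.2.1.1, rf2h9.2.2.2.2.2.2.2.2.2.2.2.2.2.2.2.2.2.2.2.2.2.2.2.2.1.1⟩⟩
theorem rf2k180 : CfgOK (rf2c180.e, rf2c180.n) := red_ln rf2h20.2.1 ⟨rf2h20.2.1.1, rf2h30.2.2.2.2.2.2.2.2.2.2.2.2.2.2.1.1⟩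
theorem rf2k181 : CfgOK (rf2c181.e, rf2c181.n) := red_ln rf2h20.1 ⟨rf2h20.1.1, rf2h30.2.2.2.2.2.2.2.2.2.2.2.2.2.1.1⟩
theorem rf2k182 : CfgOK (rf2c182.e, rf2c182.n) := red_ln rf2h19.2.2.2.2.2.2.2.2.2.2.2.2.2.2.2.2.2.2.2.2.2.2.2.2.2.2.2.2.2.1 ⟨⟨rf2h19.2.2.2.2.2.2.2.2.2.2.2.2.2.2.2.2.2.2.2.2.2.2.2.2.2.2.2.2.2.1.1, rf2h30.2.2.2.2.2.2.2.2.2.2.2.2.1.1⟩, ⟨rf2h3.2.2.2.2.2.2.2.2.2.2.2.2.2.2.2.2.2.2.2.2.2.2.2.2.2.2.2.2.2.2.2.2.2.2.2.2.2.2.1.1, rf2h9.2.2.2.2.2.2.2.2.2.2.2.2.2.2.2.2.2.2.2.2.2.2.2.1.1⟩⟩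
theorem rf2k183 : CfgOK (rf2c183.e, rf2c183.n) := red_ln rf2h19.2.2.2.2.2.2.2.2.2.2.2.2.2.2.2.2.2.2.2.2.2.2.2.2.2.2.2.2.1 ⟨⟨rf2h19.2.2.2.2.2.2.2.2.2.2.2.2.2.2.2.2.2.2.2.2.2.2.2.2.2.2.2.2.1.1, rf2h28.2.2.2.2.2.2.2.2.2.2.2.2.2.2.2.2.2.2.2.2.2.2.2.2.2.1.1⟩, ⟨rf2h3.2.2.2.2.2.2.2.2.2.2.2.2.2.2.2.2.2.2.2.2.2.2.2.2.2.2.2.2.2.2.2.2.2.2.2.2.2.1.1, rf2h9.2.2.2.2.2.2.2.2.2.2.2.2.2.2.2.2.2.2.2.2.2.2.1.1⟩⟩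
theorem rf2k184 : CfgOK (rf2c184.e, rf2c184.n) := red_ln rf2h19.2.2.2.2.2.2.2.2.2.2.2.2.2.2.2.2.2.2.2.2.2.2.2.2.2.2.2.1 ⟨⟨rf2h19.2.2.2.2.2.2.2.2.2.2.2.2.2.2.2.2.2.2.2.2.2.2.2.2.2.2.2.1.1, rf2h28.2.2.2.2.2.2.2.2.2.2.2.2.2.2.2.2.2.2.2.2.2.2.2.2.1.1⟩, ⟨rf2h3.2.2.2.2.2.2.2.2.2.2.2.2.2.2.2.2.2.2.2.2.2.2.2.2.2.2.2.2.2.2.2.2.2.2.2.2.1.1, rf2h9.2.2.2.2.2.2.2.2.2.2.2.2.2.2.2.2.2.2.2.2.2.1.1⟩⟩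
theorem rf2k185 : CfgOK (rf2c185.e, rf2c185.n) := red_ln rf2h19.2.2.2.2.2.2.2.2.2.2.2.2.2.2.2.2.2.2.2.2.2.2.2.2.2.2.1 ⟨⟨rf2h19.2.2.2.2.2.2.2.2.2.2.2.2.2.2.2.2.2.2.2.2.2.2.2.2.2.2.1.1, rf2h28.2.2.2.2.2.2.2.2.2.2.2.2.2.2.2.2.2.2.2.2.2.2.2.1.1⟩, ⟨rf2h3.2.2.2.2.2.2.2.2.2.2.2.2.2.2.2.2.2.2.2.2.2.2.2.2.2.2.2.2.2.2.2.2.2.2.2.1.1, rf2h9.2.2.2.2.2.2.2.2.2.2.2.2.2.2.2.2.2.2.2.2.1.1⟩⟩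
theorem rf2k186 : CfgOK (rf2c186.e, rf2c186.n) := red_ln rf2h19.2.2.2.2.2.2.2.2.2.2.2.2.2.2.2.2.2.2.2.2.2.2.2.2.2.1 ⟨⟨rf2h19.2.2.2.2.2.2.2.2.2.2.2.2.2.2.2.2.2.2.2.2.2.2.2.2.2.1.1, rf2h28.2.2.2.2.2.2.2.2.2.2.2.2.2.2.2.2.2.2.2.2.2.2.1.1⟩, ⟨rf2h3.2.2.2.2.2.2.2.2.2.2.2.2.2.2.2.2.2.2.2.2.2.2.2.2.2.2.2.2.2.2.2.2.2.2.1.1, rf2h9.2.2.2.2.2.2.2.2.2.2.2.2.2.2.2.2.2.2.2.1.1⟩⟩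
theorem rf2k187 : CfgOK (rf2c187.e, rf2c187.n) := red_ln rf2h19.2.2.2.2.2.2.2.2.2.2.2.2.2.2.2.2.2.2.2.2.2.2.2.2.1 ⟨⟨rf2h19.2.2.2.2.2.2.2.2.2.2.2.2.2.2.2.2.2.2.2.2.2.2.2.2.1.1, rf2h28.2.2.2.2.2.2.2.2.2.2.2.2.2.2.2.2.2.2.2.2.2.1.1⟩, ⟨rf2h3.2.2.2.2.2.2.2.2.2.2.2.2.2.2.2.2.2.2.2.2.2.2.2.2.2.2.2.2.2.2.2.2.2.1.1, rf2h9.2.2.2.2.2.2.2.2.2.2.2.2.2.2.2.2.2.2.1.1⟩⟩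
theorem rf2k188 : CfgOK (rf2c188.e, rf2c188.n) := red_ln rf2h19.2.2.2.2.2.2.2.2.2.2.2.2.2.2.2.2.2.2.2.2.2.2.2.1 ⟨⟨⟨rf2h19.2.2.2.2.2.2.2.2.2.2.2.2.2.2.2.2.2.2.2.2.2.2.2.1.1, rf2h28.2.2.2.2.2.2.2.2.2.2.2.2.2.2.2.2.2.2.2.2.1.1⟩, ⟨rf2h3.2.2.2.2.2.2.2.2.2.2.2.2.2.2.2.2.2.2.2.2.2.2.2.2.2.2.2.2.2.2.2.2.1.1, rf2h9.2.2.2.2.2.2.2.2.2.2.2.2.2.2.2.2.2.1.1⟩⟩, ⟨⟨rf2h12.2.2.2.2.2.2.2.2.2.2.2.2.2.2.2.2.2.2.2.2.2.2.2.2.2.1.1, rf2h14.2.2.2.2.2.2.1.1⟩, ⟨rf2h9.2.2.2.2.2.2.2.2.2.2.2.2.2.2.2.2.1.1, rf2h16.2.2.2.2.2.2.2.2.2.1.1⟩⟩⟩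
theorem rf2k189 : CfgOK (rf2c189.e, rf2c189.n) := red_ln rf2h19.2.2.2.2.2.2.2.2.2.2.2.2.2.2.2.2.2.2.2.2.2.2.1 ⟨⟨⟨rf2h19.2.2.2.2.2.2.2.2.2.2.2.2.2.2.2.2.2.2.2.2.2.2.1.1, rf2h28.2.2.2.2.2.2.2.2.2.2.2.2.2.2.2.2.2.2.2.1.1⟩, ⟨rf2h32.2.2.2.2.2.2.2.2.2.2.2.2.2.2.1.1, rf2h15.2.2.2.2.2.2.2.2.2.2.2.2.2.2.2.1.1⟩⟩, ⟨⟨rf2h3.2.2.2.2.2.2.2.2.2.2.2.2.2.2.2.2.2.2.2.2.2.2.2.2.2.2.2.2.2.2.2.1.1, rf2h9.2.2.2.2.2.2.2.2.2.2.2.2.2.2.2.1.1⟩, ⟨rf2h9.2.2.2.2.2.2.2.2.2.2.2.2.2.2.1.1, rf2h16.2.2.2.2.2.2.2.2.1.1⟩⟩⟩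
theorem rf2k190 : CfgOK (rf2c190.e, rf2c190.n) := red_ln rf2h19.2.2.2.2.2.2.2.2.2.2.2.2.2.2.2.2.2.2.2.2.2.1 ⟨rf2h19.2.2.2.2.2.2.2.2.2.2.2.2.2.2.2.2.2.2.2.2.2.1.1, rf2h12.2.2.2.2.2.2.2.2.2.2.2.2.2.2.2.2.2.2.2.2.2.2.2.2.1.1⟩
theorem rf2k191 : CfgOK (rf2c191.e, rf2c191.n) := red_ln rf2h19.2.2.2.2.2.2.2.2.2.2.2.2.2.2.2.2.2.2.2.2.1 ⟨⟨⟨rf2h19.2.2.2.2.2.2.2.2.2.2.2.2.2.2.2.2.2.2.2.2.1.1, rf2h12.2.2.2.2.2.2.2.2.2.2.1.1⟩, ⟨rf2h30.2.2.2.2.2.2.2.2.2.2.2.1.1, rf2h14.2.2.2.2.2.1.1⟩⟩, ⟨⟨rf2h3.2.2.2.2.2.2.2.2.2.2.2.2.2.2.2.2.2.2.2.2.2.2.2.2.2.2.2.2.2.2.1.1, rf2h9.2.2.2.2.2.2.2.2.2.2.2.2.2.1.1⟩, ⟨rf2h9.2.2.2.2.2.2.2.2.2.2.2.2.1.1, rf2h16.2.2.2.2.2.2.2.1.1⟩⟩⟩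
theorem rf2k192 : CfgOK (rf2c192.e, rf2c192.n) := red_ln rf2h19.2.2.2.2.2.2.2.2.2.2.2.2.2.2.2.2.2.2.2.1 rf2h19.2.2.2.2.2.2.2.2.2.2.2.2.2.2.2.2.2.2.2.1.1
theorem rf2k193 : CfgOK (rf2c193.e, rf2c193.n) := red_ln rf2h19.2.2.2.2.2.2.2.2.2.2.2.2.2.2.2.2.2.2.1 rf2h19.2.2.2.2.2.2.2.2.2.2.2.2.2.2.2.2.2.2.1.1
theorem rf2k194 : CfgOK (rf2c194.e, rf2c194.n) := red_ln rf2h19.2.2.2.2.2.2.2.2.2.2.2.2.2.2.2.2.2.1 ⟨rf2h19.2.2.2.2.2.2.2.2.2.2.2.2.2.2.2.2.2.1.1, rf2h3.2.2.2.2.2.2.2.2.2.2.2.2.2.2.2.2.2.2.2.2.2.2.2.2.2.2.2.2.2.1.1⟩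
theorem rf2k195 : CfgOK (rf2c195.e, rf2c195.n) := red_ln rf2h19.2.2.2.2.2.2.2.2.2.2.2.2.2.2.2.2.1 ⟨rf2h19.2.2.2.2.2.2.2.2.2.2.2.2.2.2.2.2.1.1, rf2h3.2.2.2.2.2.2.2.2.2.2.2.2.2.2.2.2.2.2.2.2.2.2.2.2.2.2.2.2.1.1⟩
theorem rf2k196 : CfgOK (rf2c196.e, rf2c196.n) := red_ln rf2h19.2.2.2.2.2.2.2.2.2.2.2.2.2.2.2.1 ⟨rf2h19.2.2.2.2.2.2.2.2.2.2.2.2.2.2.2.1.1, rf2h3.2.2.2.2.2.2.2.2.2.2.2.2.2.2.2.2.2.2.2.2.2.2.2.2.2.2.2.1.1⟩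
theorem rf2k197 : CfgOK (rf2c197.e, rf2c197.n) := red_ln rf2h19.2.2.2.2.2.2.2.2.2.2.2.2.2.2.1 ⟨rf2h19.2.2.2.2.2.2.2.2.2.2.2.2.2.2.1.1, rf2h3.2.2.2.2.2.2.2.2.2.2.2.2.2.2.2.2.2.2.2.2.2.2.2.2.2.2.1.1⟩
theorem rf2k198 : CfgOK (rf2c198.e, rf2c198.n) := red_ln rf2h19.2.2.2.2.2.2.2.2.2.2.2.2.2.1 ⟨rf2h19.2.2.2.2.2.2.2.2.2.2.2.2.2.1.1, rf2h3.2.2.2.2.2.2.2.2.2.2.2.2.2.2.2.2.2.2.2.2.2.2.2.2.2.1.1⟩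
theorem rf2k199 : CfgOK (rf2c199.e, rf2c199.n) := red_ln rf2h19.2.2.2.2.2.2.2.2.2.2.2.2.1 ⟨rf2h19.2.2.2.2.2.2.2.2.2.2.2.2.1.1, rf2h3.2.2.2.2.2.2.2.2.2.2.2.2.2.2.2.2.2.2.2.2.2.2.2.2.1.1⟩
theorem rf2k200 : CfgOK (rf2c200.e, rf2c200.n) := red_ln rf2h19.2.2.2.2.2.2.2.2.2.2.2.1 ⟨rf2h19.2.2.2.2.2.2.2.2.2.2.2.1.1, rf2h3.2.2.2.2.2.2.2.2.2.2.2.2.2.2.2.2.2.2.2.2.2.2.2.1.1⟩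
theorem rf2k201 : CfgOK (rf2c201.e, rf2c201.n) := red_ln rf2h19.2.2.2.2.2.2.2.2.2.2.1 ⟨rf2h19.2.2.2.2.2.2.2.2.2.2.1.1, rf2h3.2.2.2.2.2.2.2.2.2.2.2.2.2.2.2.2.2.2.2.2.2.2.1.1⟩
theorem rf2k202 : CfgOK (rf2c202.e, rf2c202.n) := red_ln rf2h19.2.2.2.2.2.2.2.2.2.1 ⟨rf2h19.2.2.2.2.2.2.2.2.2.1.1, rf2h3.2.2.2.2.2.2.2.2.2.2.2.2.2.2.2.2.2.2.2.2.2.1.1⟩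
theorem rf2k203 : CfgOK (rf2c203.e, rf2c203.n) := red_ln rf2h19.2.2.2.2.2.2.2.2.1 ⟨rf2h19.2.2.2.2.2.2.2.2.1.1, rf2h3.2.2.2.2.2.2.2.2.2.2.2.2.2.2.2.2.2.2.2.2.1.1⟩
theorem rf2k204 : CfgOK (rf2c204.e, rf2c204.n) := red_ln rf2h19.2.2.2.2.2.2.2.1 ⟨rf2h19.2.2.2.2.2.2.2.1.1, rf2h3.2.2.2.2.2.2.2.2.2.2.2.2.2.2.2.2.2.2.2.1.1⟩
theorem rf2k205 : CfgOK (rf2c205.e, rf2c205.n) := red_ln rf2h19.2.2.2.2.2.2.1 ⟨rf2h19.2.2.2.2.2.2.1.1, rf2h3.2.2.2.2.2.2.2.2.2.2.2.2.2.2.2.2.2.2.1.1⟩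
theorem rf2k206 : CfgOK (rf2c206.e, rf2c206.n) := red_ln rf2h19.2.2.2.2.2.1 ⟨rf2h19.2.2.2.2.2.1.1, rf2h3.2.2.2.2.2.2.2.2.2.2.2.2.2.2.2.2.2.1.1⟩
theorem rf2k207 : CfgOK (rf2c207.e, rf2c207.n) := red_ln rf2h19.2.2.2.2.1 ⟨rf2h19.2.2.2.2.1.1, rf2h3.2.2.2.2.2.2.2.2.2.2.2.2.2.2.2.2.1.1⟩
theorem rf2k208 : CfgOK (rf2c208.e, rf2c208.n) := red_ln rf2h19.2.2.2.1 ⟨rf2h19.2.2.2.1.1, rf2h3.2.2.2.2.2.2.2.2.2.2.2.2.2.2.2.1.1⟩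
theorem rf2k209 : CfgOK (rf2c209.e, rf2c209.n) := red_ln rf2h19.2.2.1 ⟨rf2h19.2.2.1.1, rf2h3.2.2.2.2.2.2.2.2.2.2.2.2.2.2.1.1⟩
theorem rf2k210 : CfgOK (rf2c210.e, rf2c210.n) := red_ln rf2h19.2.1 ⟨rf2h19.2.1.1, rf2h3.2.2.2.2.2.2.2.2.2.2.2.2.2.1.1⟩
theorem rf2k211 : CfgOK (rf2c211.e, rf2c211.n) := red_ln rf2h19.1 ⟨rf2h19.1.1, rf2h3.2.2.2.2.2.2.2.2.2.2.2.2.1.1⟩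
theorem rf2k212 : CfgOK (rf2c212.e, rf2c212.n) := red_ln rf2h18.2.2.2.2.2.2.2.2.2.2.2.2.2.2.2.2.2.2.2.2.2.2.2.2.2.2.2.2.2.1 ⟨rf2h18.2.2.2.2.2.2.2.2.2.2.2.2.2.2.2.2.2.2.2.2.2.2.2.2.2.2.2.2.2.1.1, rf2h3.2.2.2.2.2.2.2.2.2.2.2.1.1⟩
theorem rf2k213 : CfgOK (rf2c213.e, rf2c213.n) := red_ln rf2h18.2.2.2.2.2.2.2.2.2.2.2.2.2.2.2.2.2.2.2.2.2.2.2.2.2.2.2.2.1 ⟨⟨rf2h18.2.2.2.2.2.2.2.2.2.2.2.2.2.2.2.2.2.2.2.2.2.2.2.2.2.2.2.2.1.1, rf2h3.2.2.2.2.2.2.2.2.2.2.1.1⟩, ⟨rf2h32.2.2.2.2.2.2.2.2.2.2.2.2.2.1.1, rf2h9.2.2.2.2.2.2.2.2.2.2.2.1.1⟩⟩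
theorem rf2k214 : CfgOK (rf2c214.e, rf2c214.n) := red_ln rf2h18.2.2.2.2.2.2.2.2.2.2.2.2.2.2.2.2.2.2.2.2.2.2.2.2.2.2.2.1 ⟨⟨rf2h18.2.2.2.2.2.2.2.2.2.2.2.2.2.2.2.2.2.2.2.2.2.2.2.2.2.2.2.1.1, rf2h3.2.2.2.2.2.2.2.2.2.1.1⟩, ⟨rf2h30.2.2.2.2.2.2.2.2.2.2.1.1, rf2h9.2.2.2.2.2.2.2.2.2.2.1.1⟩⟩
theorem rf2k215 : CfgOK (rf2c215.e, rf2c215.n) := red_ln rf2h18.2.2.2.2.2.2.2.2.2.2.2.2.2.2.2.2.2.2.2.2.2.2.2.2.2.2.1 ⟨⟨rf2h18.2.2.2.2.2.2.2.2.2.2.2.2.2.2.2.2.2.2.2.2.2.2.2.2.2.2.1.1, rf2h3.2.2.2.2.2.2.2.2.1.1⟩, ⟨rf2h28.2.2.2.2.2.2.2.2.2.2.2.2.2.2.2.2.2.2.1.1, rf2h9.2.2.2.2.2.2.2.2.2.1.1⟩⟩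
theorem rf2k216 : CfgOK (rf2c216.e, rf2c216.n) := red_ln rf2h18.2.2.2.2.2.2.2.2.2.2.2.2.2.2.2.2.2.2.2.2.2.2.2.2.2.1 ⟨⟨rf2h18.2.2.2.2.2.2.2.2.2.2.2.2.2.2.2.2.2.2.2.2.2.2.2.2.2.1.1, rf2h3.2.2.2.2.2.2.2.1.1⟩, ⟨rf2h28.2.2.2.2.2.2.2.2.2.2.2.2.2.2.2.2.2.1.1, rf2h9.2.2.2.2.2.2.2.2.1.1⟩⟩
theorem rf2k217 : CfgOK (rf2c217.e, rf2c217.n) := red_ln rf2h18.2.2.2.2.2.2.2.2.2.2.2.2.2.2.2.2.2.2.2.2.2.2.2.2.1 ⟨⟨rf2h18.2.2.2.2.2.2.2.2.2.2.2.2.2.2.2.2.2.2.2.2.2.2.2.2.1.1, rf2h3.2.2.2.2.2.2.1.1⟩, ⟨rf2h28.2.2.2.2.2.2.2.2.2.2.2.2.2.2.2.2.1.1, rf2h9.2.2.2.2.2.2.2.1.1⟩⟩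
theorem rf2k218 : CfgOK (rf2c218.e, rf2c218.n) := red_ln rf2h18.2.2.2.2.2.2.2.2.2.2.2.2.2.2.2.2.2.2.2.2.2.2.2.1 ⟨⟨rf2h18.2.2.2.2.2.2.2.2.2.2.2.2.2.2.2.2.2.2.2.2.2.2.2.1.1, rf2h3.2.2.2.2.2.1.1⟩, ⟨rf2h27.2.2.2.2.2.1.1, rf2h9.2.2.2.2.2.2.1.1⟩⟩
theorem rf2k219 : CfgOK (rf2c219.e, rf2c219.n) := red_ln rf2h18.2.2.2.2.2.2.2.2.2.2.2.2.2.2.2.2.2.2.2.2.2.2.1 ⟨⟨rf2h18.2.2.2.2.2.2.2.2.2.2.2.2.2.2.2.2.2.2.2.2.2.2.1.1, rf2h3.2.2.2.2.1.1⟩, ⟨rf2h12.2.2.2.2.2.2.2.2.2.2.2.2.2.2.2.2.2.2.2.2.2.2.2.1.1, rf2h9.2.2.2.2.2.1.1⟩⟩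
theorem rf2k220 : CfgOK (rf2c220.e, rf2c220.n) := red_ln rf2h18.2.2.2.2.2.2.2.2.2.2.2.2.2.2.2.2.2.2.2.2.2.1 ⟨⟨rf2h18.2.2.2.2.2.2.2.2.2.2.2.2.2.2.2.2.2.2.2.2.2.1.1, rf2h3.2.2.2.1.1⟩, ⟨rf2h12.2.2.2.2.2.2.1.1, rf2h9.2.2.2.2.1.1⟩⟩
theorem rf2k221 : CfgOK (rf2c221.e, rf2c221.n) := red_ln rf2h18.2.2.2.2.2.2.2.2.2.2.2.2.2.2.2.2.2.2.2.2.1 ⟨⟨rf2h18.2.2.2.2.2.2.2.2.2.2.2.2.2.2.2.2.2.2.2.2.1.1, rf2h3.2.2.1.1⟩, ⟨rf2h12.2.2.2.1.1, rf2h9.2.2.2.1.1⟩⟩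
theorem rf2k222 : CfgOK (rf2c222.e, rf2c222.n) := red_ln rf2h18.2.2.2.2.2.2.2.2.2.2.2.2.2.2.2.2.2.2.2.1 ⟨⟨rf2h18.2.2.2.2.2.2.2.2.2.2.2.2.2.2.2.2.2.2.2.1.1, rf2h30.2.2.2.2.2.2.2.2.2.1.1⟩, ⟨rf2h3.2.1.1, rf2h9.2.2.1.1⟩⟩
theorem rf2k223 : CfgOK (rf2c223.e, rf2c223.n) := red_ln rf2h18.2.2.2.2.2.2.2.2.2.2.2.2.2.2.2.2.2.2.1 ⟨⟨rf2h18.2.2.2.2.2.2.2.2.2.2.2.2.2.2.2.2.2.2.1.1, rf2h30.2.2.2.2.2.2.2.2.1.1⟩, ⟨rf2h3.1.1, rf2h9.2.1.1⟩⟩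
theorem rf2k224 : CfgOK (rf2c224.e, rf2c224.n) := red_ln rf2h18.2.2.2.2.2.2.2.2.2.2.2.2.2.2.2.2.2.1 ⟨⟨rf2h18.2.2.2.2.2.2.2.2.2.2.2.2.2.2.2.2.2.1.1, rf2h30.2.2.2.2.2.2.2.1.1⟩, ⟨rf2h2.2.2.2.2.2.2.2.2.2.2.2.2.2.2.2.2.2.2.2.2.2.2.2.2.2.2.2.2.2.2.2.2.2.2.2.2.2.2.2.1.1, rf2h9.1.1⟩⟩
theorem rf2k225 : CfgOK (rf2c225.e, rf2c225.n) := red_ln rf2h18.2.2.2.2.2.2.2.2.2.2.2.2.2.2.2.2.1 ⟨⟨rf2h18.2.2.2.2.2.2.2.2.2.2.2.2.2.2.2.2.1.1, rf2h30.2.2.2.2.2.2.1.1⟩, ⟨rf2h2.2.2.2.2.2.2.2.2.2.2.2.2.2.2.2.2.2.2.2.2.2.2.2.2.2.2.2.2.2.2.2.2.2.2.2.2.2.2.1.1, rf2h8.2.2.2.2.2.2.2.2.2.2.2.2.2.2.2.2.2.2.2.2.2.2.2.2.2.2.2.2.2.2.2.2.2.2.2.2.2.2.2.1.1⟩⟩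
theorem rf2k226 : CfgOK (rf2c226.e, rf2c226.n) := red_ln rf2h18.2.2.2.2.2.2.2.2.2.2.2.2.2.2.2.1 ⟨⟨rf2h18.2.2.2.2.2.2.2.2.2.2.2.2.2.2.2.1.1, rf2h30.2.2.2.2.2.1.1⟩, ⟨rf2h2.2.2.2.2.2.2.2.2.2.2.2.2.2.2.2.2.2.2.2.2.2.2.2.2.2.2.2.2.2.2.2.2.2.2.2.2.2.1.1, rf2h8.2.2.2.2.2.2.2.2.2.2.2.2.2.2.2.2.2.2.2.2.2.2.2.2.2.2.2.2.2.2.2.2.2.2.2.2.2.2.1.1⟩⟩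
theorem rf2k227 : CfgOK (rf2c227.e, rf2c227.n) := red_ln rf2h18.2.2.2.2.2.2.2.2.2.2.2.2.2.2.1 ⟨⟨rf2h18.2.2.2.2.2.2.2.2.2.2.2.2.2.2.1.1, rf2h30.2.2.2.2.1.1⟩, ⟨rf2h2.2.2.2.2.2.2.2.2.2.2.2.2.2.2.2.2.2.2.2.2.2.2.2.2.2.2.2.2.2.2.2.2.2.2.2.2.1.1, rf2h8.2.2.2.2.2.2.2.2.2.2.2.2.2.2.2.2.2.2.2.2.2.2.2.2.2.2.2.2.2.2.2.2.2.2.2.2.2.1.1⟩⟩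
theorem rf2k228 : CfgOK (rf2c228.e, rf2c228.n) := red_ln rf2h18.2.2.2.2.2.2.2.2.2.2.2.2.2.1 ⟨⟨⟨rf2h18.2.2.2.2.2.2.2.2.2.2.2.2.2.1.1, rf2h30.2.2.2.1.1⟩, ⟨rf2h2.2.2.2.2.2.2.2.2.2.2.2.2.2.2.2.2.2.2.2.2.2.2.2.2.2.2.2.2.2.2.2.2.2.2.2.1.1, rf2h8.2.2.2.2.2.2.2.2.2.2.2.2.2.2.2.2.2.2.2.2.2.2.2.2.2.2.2.2.2.2.2.2.2.2.2.2.1.1⟩⟩, ⟨⟨rf2h12.2.2.2.2.2.2.2.2.2.2.2.2.2.2.2.2.1.1, rf2h14.2.2.2.2.2.2.2.2.2.2.2.2.1.1⟩, ⟨rf2h8.2.2.2.2.2.2.2.2.2.2.2.2.2.2.2.2.2.2.2.2.2.2.2.2.2.2.2.2.2.2.2.2.2.2.2.1.1, rf2h16.2.2.2.2.2.2.1.1⟩⟩⟩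
theorem rf2k229 : CfgOK (rf2c229.e, rf2c229.n) := red_ln rf2h18.2.2.2.2.2.2.2.2.2.2.2.2.1 ⟨⟨rf2h18.2.2.2.2.2.2.2.2.2.2.2.2.1.1, rf2h28.2.2.2.2.2.2.2.2.2.2.2.2.2.2.2.1.1⟩, ⟨rf2h2.2.2.2.2.2.2.2.2.2.2.2.2.2.2.2.2.2.2.2.2.2.2.2.2.2.2.2.2.2.2.2.2.2.2.1.1, rf2h8.2.2.2.2.2.2.2.2.2.2.2.2.2.2.2.2.2.2.2.2.2.2.2.2.2.2.2.2.2.2.2.2.2.2.1.1⟩⟩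
theorem rf2k230 : CfgOK (rf2c230.e, rf2c230.n) := red_ln rf2h18.2.2.2.2.2.2.2.2.2.2.2.1 ⟨⟨rf2h18.2.2.2.2.2.2.2.2.2.2.2.1.1, rf2h28.2.2.2.2.2.2.2.2.2.2.2.2.2.2.1.1⟩, ⟨rf2h2.2.2.2.2.2.2.2.2.2.2.2.2.2.2.2.2.2.2.2.2.2.2.2.2.2.2.2.2.2.2.2.2.2.1.1, rf2h8.2.2.2.2.2.2.2.2.2.2.2.2.2.2.2.2.2.2.2.2.2.2.2.2.2.2.2.2.2.2.2.2.2.1.1⟩⟩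
theorem rf2k231 : CfgOK (rf2c231.e, rf2c231.n) := red_ln rf2h18.2.2.2.2.2.2.2.2.2.2.1 ⟨⟨rf2h18.2.2.2.2.2.2.2.2.2.2.1.1, rf2h28.2.2.2.2.2.2.2.2.2.2.2.2.2.1.1⟩, ⟨rf2h2.2.2.2.2.2.2.2.2.2.2.2.2.2.2.2.2.2.2.2.2.2.2.2.2.2.2.2.2.2.2.2.2.1.1, rf2h8.2.2.2.2.2.2.2.2.2.2.2.2.2.2.2.2.2.2.2.2.2.2.2.2.2.2.2.2.2.2.2.2.1.1⟩⟩
theorem rf2k232 : CfgOK (rf2c232.e, rf2c232.n) := red_ln rf2h18.2.2.2.2.2.2.2.2.2.1 ⟨⟨rf2h18.2.2.2.2.2.2.2.2.2.1.1, rf2h28.2.2.2.2.2.2.2.2.2.2.2.2.1.1⟩, ⟨rf2h2.2.2.2.2.2.2.2.2.2.2.2.2.2.2.2.2.2.2.2.2.2.2.2.2.2.2.2.2.2.2.2.1.1, rf2h8.2.2.2.2.2.2.2.2.2.2.2.2.2.2.2.2.2.2.2.2.2.2.2.2.2.2.2.2.2.2.2.1.1⟩⟩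
theorem rf2k233 : CfgOK (rf2c233.e, rf2c233.n) := red_ln rf2h18.2.2.2.2.2.2.2.2.1 ⟨⟨rf2h18.2.2.2.2.2.2.2.2.1.1, rf2h28.2.2.2.2.2.2.2.2.2.2.2.1.1⟩, ⟨rf2h2.2.2.2.2.2.2.2.2.2.2.2.2.2.2.2.2.2.2.2.2.2.2.2.2.2.2.2.2.2.2.1.1, rf2h8.2.2.2.2.2.2.2.2.2.2.2.2.2.2.2.2.2.2.2.2.2.2.2.2.2.2.2.2.2.2.1.1⟩⟩
theorem rf2k234 : CfgOK (rf2c234.e, rf2c234.n) := red_ln rf2h18.2.2.2.2.2.2.2.1 ⟨⟨rf2h18.2.2.2.2.2.2.2.1.1, rf2h28.2.2.2.2.2.2.2.2.2.2.1.1⟩, ⟨rf2h2.2.2.2.2.2.2.2.2.2.2.2.2.2.2.2.2.2.2.2.2.2.2.2.2.2.2.2.2.2.1.1, rf2h8.2.2.2.2.2.2.2.2.2.2.2.2.2.2.2.2.2.2.2.2.2.2.2.2.2.2.2.2.2.1.1⟩⟩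
theorem rf2k235 : CfgOK (rf2c235.e, rf2c235.n) := red_ln rf2h18.2.2.2.2.2.2.1 ⟨⟨rf2h18.2.2.2.2.2.2.1.1, rf2h28.2.2.2.2.2.2.2.2.2.1.1⟩, ⟨rf2h2.2.2.2.2.2.2.2.2.2.2.2.2.2.2.2.2.2.2.2.2.2.2.2.2.2.2.2.2.1.1, rf2h8.2.2.2.2.2.2.2.2.2.2.2.2.2.2.2.2.2.2.2.2.2.2.2.2.2.2.2.2.1.1⟩⟩
theorem rf2k236 : CfgOK (rf2c236.e, rf2c236.n) := red_ln rf2h18.2.2.2.2.2.1 ⟨⟨rf2h18.2.2.2.2.2.1.1, rf2h28.2.2.2.2.2.2.2.2.1.1⟩, ⟨rf2h28.2.2.2.2.2.2.2.1.1, rf2h14.2.2.2.2.2.2.2.2.2.2.2.2.2.2.2.2.2.2.2.2.2.2.2.2.2.2.2.2.1.1⟩⟩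
theorem rf2k237 : CfgOK (rf2c237.e, rf2c237.n) := red_ln rf2h18.2.2.2.2.1 ⟨rf2h18.2.2.2.2.1.1, rf2h27.2.2.2.2.1.1⟩
theorem rf2k238 : CfgOK (rf2c238.e, rf2c238.n) := red_ln rf2h18.2.2.2.1 ⟨⟨⟨rf2h18.2.2.2.1.1, rf2h27.2.2.2.1.1⟩, ⟨rf2h12.2.2.2.2.2.2.2.2.2.2.2.2.2.2.2.1.1, rf2h14.2.1.1⟩⟩, ⟨⟨rf2h30.2.2.1.1, rf2h14.2.2.2.2.2.2.2.2.2.2.2.2.2.2.2.2.2.2.2.2.2.2.2.2.2.2.2.1.1⟩, ⟨rf2h14.2.2.2.2.2.2.2.2.2.2.2.1.1, rf2h26.1.1⟩⟩⟩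
theorem rf2k239 : CfgOK (rf2c239.e, rf2c239.n) := red_ln rf2h18.2.2.1 ⟨⟨rf2h18.2.2.1.1, rf2h12.2.2.2.2.2.2.2.2.2.2.2.2.2.2.2.2.2.2.2.2.2.2.1.1⟩, ⟨rf2h2.2.2.2.2.2.2.2.2.2.2.2.2.2.2.2.2.2.2.2.2.2.2.2.2.2.2.2.1.1, rf2h8.2.2.2.2.2.2.2.2.2.2.2.2.2.2.2.2.2.2.2.2.2.2.2.2.2.2.2.1.1⟩⟩
theorem rf2k240 : CfgOK (rf2c240.e, rf2c240.n) := red_ln rf2h18.2.1 ⟨⟨rf2h18.2.1.1, rf2h12.2.2.2.2.2.2.2.2.2.2.2.2.2.2.2.2.2.2.2.2.2.1.1⟩, ⟨rf2h30.2.1.1, rf2h14.2.2.2.2.1.1⟩⟩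
theorem rf2k241 : CfgOK (rf2c241.e, rf2c241.n) := red_ln rf2h18.1 ⟨rf2h18.1.1, rf2h12.2.2.2.2.2.2.2.2.2.2.2.2.2.2.1.1⟩
theorem rf2k242 : CfgOK (rf2c242.e, rf2c242.n) := red_ln rf2h17.2.2.2.2.2.2.2.2.2.2.2.2.2.2.2.2.2.2.2.2.2.2.2.2.2.2.2.2.2.1 ⟨⟨rf2h17.2.2.2.2.2.2.2.2.2.2.2.2.2.2.2.2.2.2.2.2.2.2.2.2.2.2.2.2.2.1.1, rf2h12.2.2.2.2.1.1⟩, ⟨rf2h2.2.2.2.2.2.2.2.2.2.2.2.2.2.2.2.2.2.2.2.2.2.2.2.2.2.2.1.1, rf2h8.2.2.2.2.2.2.2.2.2.2.2.2.2.2.2.2.2.2.2.2.2.2.2.2.2.2.1.1⟩⟩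
theorem rf2k243 : CfgOK (rf2c243.e, rf2c243.n) := red_ln rf2h17.2.2.2.2.2.2.2.2.2.2.2.2.2.2.2.2.2.2.2.2.2.2.2.2.2.2.2.2.1 ⟨rf2h17.2.2.2.2.2.2.2.2.2.2.2.2.2.2.2.2.2.2.2.2.2.2.2.2.2.2.2.2.1.1, rf2h2.2.2.2.2.2.2.2.2.2.2.2.2.2.2.2.2.2.2.2.2.2.2.2.2.2.1.1⟩
theorem rf2k244 : CfgOK (rf2c244.e, rf2c244.n) := red_ln rf2h17.2.2.2.2.2.2.2.2.2.2.2.2.2.2.2.2.2.2.2.2.2.2.2.2.2.2.2.1 ⟨rf2h17.2.2.2.2.2.2.2.2.2.2.2.2.2.2.2.2.2.2.2.2.2.2.2.2.2.2.2.1.1, rf2h2.2.2.2.2.2.2.2.2.2.2.2.2.2.2.2.2.2.2.2.2.2.2.2.2.1.1⟩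
theorem rf2k245 : CfgOK (rf2c245.e, rf2c245.n) := red_ln rf2h17.2.2.2.2.2.2.2.2.2.2.2.2.2.2.2.2.2.2.2.2.2.2.2.2.2.2.1 ⟨rf2h17.2.2.2.2.2.2.2.2.2.2.2.2.2.2.2.2.2.2.2.2.2.2.2.2.2.2.1.1, rf2h2.2.2.2.2.2.2.2.2.2.2.2.2.2.2.2.2.2.2.2.2.2.2.2.1.1⟩
theorem rf2k246 : CfgOK (rf2c246.e, rf2c246.n) := red_ln rf2h17.2.2.2.2.2.2.2.2.2.2.2.2.2.2.2.2.2.2.2.2.2.2.2.2.2.1 ⟨⟨rf2h17.2.2.2.2.2.2.2.2.2.2.2.2.2.2.2.2.2.2.2.2.2.2.2.2.2.1.1, rf2h2.2.2.2.2.2.2.2.2.2.2.2.2.2.2.2.2.2.2.2.2.2.2.1.1⟩, ⟨rf2h31.2.2.2.2.2.2.2.2.2.2.2.2.2.2.2.2.2.2.2.2.2.2.2.2.2.2.2.2.2.1.1, rf2h8.2.2.2.2.2.2.2.2.2.2.2.2.2.2.2.2.2.2.2.2.2.2.2.2.2.1.1⟩⟩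
theorem rf2k247 : CfgOK (rf2c247.e, rf2c247.n) := red_ln rf2h17.2.2.2.2.2.2.2.2.2.2.2.2.2.2.2.2.2.2.2.2.2.2.2.2.1 ⟨⟨⟨rf2h17.2.2.2.2.2.2.2.2.2.2.2.2.2.2.2.2.2.2.2.2.2.2.2.2.1.1, rf2h2.2.2.2.2.2.2.2.2.2.2.2.2.2.2.2.2.2.2.2.2.2.1.1⟩, ⟨rf2h12.2.2.2.2.2.2.2.2.2.2.2.2.2.1.1, rf2h8.2.2.2.2.2.2.2.2.2.2.2.2.2.2.2.2.2.2.2.2.2.2.2.2.1.1⟩⟩, ⟨⟨rf2h28.2.2.2.2.2.2.1.1, rf2h8.2.2.2.2.2.2.2.2.2.2.2.2.2.2.2.2.2.2.2.2.2.2.2.1.1⟩, ⟨rf2h14.2.2.2.1.1, rf2h16.2.2.2.2.2.1.1⟩⟩⟩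
theorem rf2k248 : CfgOK (rf2c248.e, rf2c248.n) := red_ln rf2h17.2.2.2.2.2.2.2.2.2.2.2.2.2.2.2.2.2.2.2.2.2.2.2.1 ⟨⟨rf2h17.2.2.2.2.2.2.2.2.2.2.2.2.2.2.2.2.2.2.2.2.2.2.2.1.1, rf2h2.2.2.2.2.2.2.2.2.2.2.2.2.2.2.2.2.2.2.2.2.1.1⟩, ⟨rf2h12.2.1.1, rf2h8.2.2.2.2.2.2.2.2.2.2.2.2.2.2.2.2.2.2.2.2.2.2.1.1⟩⟩
theorem rf2k249 : CfgOK (rf2c249.e, rf2c249.n) := red_ln rf2h17.2.2.2.2.2.2.2.2.2.2.2.2.2.2.2.2.2.2.2.2.2.2.1 ⟨⟨⟨rf2h17.2.2.2.2.2.2.2.2.2.2.2.2.2.2.2.2.2.2.2.2.2.2.1.1, rf2h30.1.1⟩, ⟨rf2h27.2.2.1.1, rf2h14.2.2.2.2.2.2.2.2.2.2.2.2.2.2.2.2.2.2.2.2.2.2.2.2.2.2.1.1⟩⟩, ⟨⟨rf2h2.2.2.2.2.2.2.2.2.2.2.2.2.2.2.2.2.2.2.2.1.1, rf2h8.2.2.2.2.2.2.2.2.2.2.2.2.2.2.2.2.2.2.2.2.2.1.1⟩,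 ⟨rf2h8.2.2.2.2.2.2.2.2.2.2.2.2.2.2.2.2.2.2.2.2.1.1, rf2h16.2.2.2.2.1.1⟩⟩⟩
theorem rf2k250 : CfgOK (rf2c250.e, rf2c250.n) := red_ln rf2h17.2.2.2.2.2.2.2.2.2.2.2.2.2.2.2.2.2.2.2.2.2.1 ⟨⟨⟨rf2h17.2.2.2.2.2.2.2.2.2.2.2.2.2.2.2.2.2.2.2.2.2.1.1, rf2h29.2.2.2.2.2.2.2.2.2.2.2.2.2.2.2.2.2.2.2.2.2.2.2.2.2.2.2.2.2.1.1⟩, ⟨rf2h27.2.1.1, rf2h14.2.2.2.2.2.2.2.2.2.2.2.2.2.2.2.2.2.2.2.2.2.2.2.2.2.1.1⟩⟩, ⟨⟨rf2h2.2.2.2.2.2.2.2.2.2.2.2.2.2.2.2.2.2.2.1.1, rf2h8.2.2.2.2.2.2.2.2.2.2.2.2.2.2.2.2.2.2.2.1.1⟩, ⟨rf2h8.2.2.2.2.2.2.2.2.2.2.2.2.2.2.2.2.2.2.1.1, rf2h16.2.2.2.1.1⟩⟩⟩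
theorem rf2k251 : CfgOK (rf2c251.e, rf2c251.n) := red_ln rf2h17.2.2.2.2.2.2.2.2.2.2.2.2.2.2.2.2.2.2.2.2.1 ⟨⟨rf2h17.2.2.2.2.2.2.2.2.2.2.2.2.2.2.2.2.2.2.2.2.1.1, rf2h28.2.2.2.2.2.1.1⟩, ⟨rf2h2.2.2.2.2.2.2.2.2.2.2.2.2.2.2.2.2.2.1.1, rf2h8.2.2.2.2.2.2.2.2.2.2.2.2.2.2.2.2.2.1.1⟩⟩
theorem rf2k252 : CfgOK (rf2c252.e, rf2c252.n) := red_ln rf2h17.2.2.2.2.2.2.2.2.2.2.2.2.2.2.2.2.2.2.2.1 ⟨rf2h17.2.2.2.2.2.2.2.2.2.2.2.2.2.2.2.2.2.2.2.1.1, rf2h27.1.1⟩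
theorem rf2k253 : CfgOK (rf2c253.e, rf2c253.n) := red_ln rf2h17.2.2.2.2.2.2.2.2.2.2.2.2.2.2.2.2.2.2.1 ⟨rf2h17.2.2.2.2.2.2.2.2.2.2.2.2.2.2.2.2.2.2.1.1, rf2h23.2.2.2.2.2.2.2.2.2.2.2.2.2.2.2.2.2.2.2.2.2.2.2.2.2.2.2.2.2.1.1⟩
theorem rf2k254 : CfgOK (rf2c254.e, rf2c254.n) := red_ln rf2h17.2.2.2.2.2.2.2.2.2.2.2.2.2.2.2.2.2.1 ⟨⟨rf2h17.2.2.2.2.2.2.2.2.2.2.2.2.2.2.2.2.2.1.1, rf2h23.2.2.2.2.2.2.2.2.2.2.2.1.1⟩, ⟨rf2h2.2.2.2.2.2.2.2.2.2.2.2.2.2.2.2.2.1.1, rf2h8.2.2.2.2.2.2.2.2.2.2.2.2.2.2.2.2.1.1⟩⟩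
theorem rf2k255 : CfgOK (rf2c255.e, rf2c255.n) := red_ln rf2h17.2.2.2.2.2.2.2.2.2.2.2.2.2.2.2.2.1 ⟨rf2h17.2.2.2.2.2.2.2.2.2.2.2.2.2.2.2.2.1.1, rf2h2.2.2.2.2.2.2.2.2.2.2.2.2.2.2.2.1.1⟩
theorem rf2k256 : CfgOK (rf2c256.e, rf2c256.n) := red_ln rf2h17.2.2.2.2.2.2.2.2.2.2.2.2.2.2.2.1 ⟨rf2h17.2.2.2.2.2.2.2.2.2.2.2.2.2.2.2.1.1, rf2h2.2.2.2.2.2.2.2.2.2.2.2.2.2.2.1.1⟩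
theorem rf2k257 : CfgOK (rf2c257.e, rf2c257.n) := red_ln rf2h17.2.2.2.2.2.2.2.2.2.2.2.2.2.2.1 ⟨⟨⟨rf2h17.2.2.2.2.2.2.2.2.2.2.2.2.2.2.1.1, rf2h2.2.2.2.2.2.2.2.2.2.2.2.2.2.1.1⟩, ⟨rf2h28.2.2.2.2.1.1, rf2h8.2.2.2.2.2.2.2.2.2.2.2.2.2.2.2.1.1⟩⟩, ⟨⟨rf2h29.2.2.2.2.2.2.2.2.2.2.2.2.2.2.2.2.2.2.2.2.2.2.2.2.2.2.2.2.1.1, rf2h8.2.2.2.2.2.2.2.2.2.2.2.2.2.2.1.1⟩, ⟨rf2h15.2.2.2.2.2.2.2.2.2.1.1, rf2h16.2.2.1.1⟩⟩⟩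
theorem rf2k258 : CfgOK (rf2c258.e, rf2c258.n) := red_ln rf2h17.2.2.2.2.2.2.2.2.2.2.2.2.2.1 ⟨⟨rf2h17.2.2.2.2.2.2.2.2.2.2.2.2.2.1.1, rf2h2.2.2.2.2.2.2.2.2.2.2.2.2.1.1⟩, ⟨rf2h23.2.2.2.2.2.2.2.2.2.2.2.2.2.2.2.2.2.2.2.2.2.2.2.2.2.2.2.2.1.1, rf2h8.2.2.2.2.2.2.2.2.2.2.2.2.2.1.1⟩⟩
theorem rf2k259 : CfgOK (rf2c259.e, rf2c259.n) := red_ln rf2h17.2.2.2.2.2.2.2.2.2.2.2.2.1 ⟨⟨rf2h17.2.2.2.2.2.2.2.2.2.2.2.2.1.1, rf2h2.2.2.2.2.2.2.2.2.2.2.2.1.1⟩, ⟨rf2h23.2.2.2.2.2.2.2.2.2.2.2.2.2.2.2.2.2.2.2.2.2.2.2.2.2.2.2.1.1, rf2h8.2.2.2.2.2.2.2.2.2.2.2.2.1.1⟩⟩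
theorem rf2k260 : CfgOK (rf2c260.e, rf2c260.n) := red_ln rf2h17.2.2.2.2.2.2.2.2.2.2.2.1 ⟨⟨⟨rf2h17.2.2.2.2.2.2.2.2.2.2.2.1.1, rf2h2.2.2.2.2.2.2.2.2.2.2.1.1⟩, ⟨rf2h23.2.2.2.2.2.2.2.2.2.2.2.2.2.2.2.2.2.2.2.2.2.2.2.2.2.2.1.1, rf2h8.2.2.2.2.2.2.2.2.2.2.2.1.1⟩⟩, ⟨⟨rf2h23.2.2.2.2.2.2.2.2.2.2.2.2.2.2.2.2.2.2.2.2.2.2.2.2.2.1.1, rf2h8.2.2.2.2.2.2.2.2.2.2.1.1⟩, ⟨rf2h14.2.2.2.2.2.2.2.2.2.2.2.2.2.2.2.2.2.2.2.2.2.2.2.2.1.1, rf2h16.2.1.1⟩⟩⟩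
theorem rf2k261 : CfgOK (rf2c261.e, rf2c261.n) := red_ln rf2h17.2.2.2.2.2.2.2.2.2.2.1 ⟨⟨⟨rf2h17.2.2.2.2.2.2.2.2.2.2.1.1, rf2h2.2.2.2.2.2.2.2.2.2.1.1⟩, ⟨rf2h23.2.2.2.2.2.2.2.2.2.2.1.1, rf2h8.2.2.2.2.2.2.2.2.2.1.1⟩⟩, ⟨⟨rf2h23.2.2.2.2.2.2.2.2.2.2.2.2.2.2.2.2.2.2.2.2.2.2.2.2.1.1, rf2h8.2.2.2.2.2.2.2.2.1.1⟩, ⟨rf2h14.2.2.2.2.2.2.2.2.2.2.2.2.2.2.2.2.2.2.2.2.2.2.2.1.1, rf2h16.1.1⟩⟩⟩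
theorem rf2k262 : CfgOK (rf2c262.e, rf2c262.n) := red_ln rf2h17.2.2.2.2.2.2.2.2.2.1 ⟨⟨rf2h17.2.2.2.2.2.2.2.2.2.1.1, rf2h29.2.2.2.2.2.2.2.2.2.2.2.2.2.2.2.2.2.2.2.2.2.2.2.2.2.2.2.1.1⟩, ⟨rf2h2.2.2.2.2.2.2.2.2.1.1, rf2h8.2.2.2.2.2.2.2.1.1⟩⟩
theorem rf2k263 : CfgOK (rf2c263.e, rf2c263.n) := red_ln rf2h17.2.2.2.2.2.2.2.2.1 ⟨⟨rf2h17.2.2.2.2.2.2.2.2.1.1, rf2h29.2.2.2.2.2.2.2.2.2.2.2.2.2.2.2.2.2.2.2.2.2.2.2.2.2.2.1.1⟩, ⟨rf2h2.2.2.2.2.2.2.2.1.1, rf2h8.2.2.2.2.2.2.1.1⟩⟩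
theorem rf2k264 : CfgOK (rf2c264.e, rf2c264.n) := red_ln rf2h17.2.2.2.2.2.2.2.1 ⟨⟨rf2h17.2.2.2.2.2.2.2.1.1, rf2h28.2.2.2.1.1⟩, ⟨rf2h2.2.2.2.2.2.2.1.1, rf2h8.2.2.2.2.2.1.1⟩⟩
theorem rf2k265 : CfgOK (rf2c265.e, rf2c265.n) := red_ln rf2h17.2.2.2.2.2.2.1 ⟨⟨rf2h17.2.2.2.2.2.2.1.1, rf2h23.2.2.2.2.2.2.2.2.2.2.2.2.2.2.2.2.2.2.2.2.2.2.2.1.1⟩, ⟨rf2h2.2.2.2.2.2.1.1, rf2h8.2.2.2.2.1.1⟩⟩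
theorem rf2k266 : CfgOK (rf2c266.e, rf2c266.n) := red_ln rf2h17.2.2.2.2.2.1 ⟨⟨rf2h17.2.2.2.2.2.1.1, rf2h23.2.2.2.2.2.2.2.2.2.2.2.2.2.2.2.2.2.2.2.2.2.2.1.1⟩, ⟨rf2h2.2.2.2.2.1.1, rf2h8.2.2.2.1.1⟩⟩
theorem rf2k267 : CfgOK (rf2c267.e, rf2c267.n) := red_ln rf2h17.2.2.2.2.1 ⟨⟨rf2h17.2.2.2.2.1.1, rf2h23.2.2.2.2.2.2.2.2.2.2.2.2.2.2.2.2.2.2.2.2.2.1.1⟩, ⟨rf2h2.2.2.2.1.1, rf2h8.2.2.1.1⟩⟩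
theorem rf2k268 : CfgOK (rf2c268.e, rf2c268.n) := red_ln rf2h17.2.2.2.1 ⟨⟨rf2h17.2.2.2.1.1, rf2h23.2.2.2.2.2.2.2.2.2.2.2.2.2.2.2.2.2.2.2.2.1.1⟩, ⟨rf2h2.2.2.1.1, rf2h8.2.1.1⟩⟩
theorem rf2k269 : CfgOK (rf2c269.e, rf2c269.n) := red_ln rf2h17.2.2.1 ⟨⟨rf2h17.2.2.1.1, rf2h23.2.2.2.2.2.2.2.2.2.2.2.2.2.2.2.2.2.2.2.1.1⟩, ⟨rf2h12.2.2.1.1, rf2h14.1.1⟩⟩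
theorem rf2k270 : CfgOK (rf2c270.e, rf2c270.n) := red_ln rf2h17.2.1 ⟨⟨rf2h17.2.1.1, rf2h12.2.2.2.2.2.2.2.2.2.2.2.2.2.2.2.2.2.2.2.2.1.1⟩, ⟨rf2h2.2.1.1, rf2h8.1.1⟩⟩
theorem rf2k271 : CfgOK (rf2c271.e, rf2c271.n) := red_ln rf2h17.1 ⟨rf2h17.1.1, rf2h2.1.1⟩

end Pool.Agent.Lib.G6.B
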