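import Pool.Agent.Lib.G6.BRed
import Pool.Agent.Lib.G6D.RF3

set_option autoImplicit false
set_option maxRecDepth 100000
set_option linter.all false

namespace Pool.Agent.Lib.G6.B

theorem rf3h0 : AllL LnOK rf3l0 := batch_of rf3th.1
theorem rf3h1 : AllL LnOK rf3l1 := batch_of rf3th.2.1
theorem rf3h2 : AllL LnOK rf3l10 := batch_of rf3th.2.2.2.2.2.2.2.2.2.2.1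
theorem rf3h3 : AllL LnOK rf3l11 := batch_of rf3th.2.2.2.2.2.2.2.2.2.2.2.1
theorem rf3h4 : AllL LnOK rf3l12 := batch_of rf3th.2.2.2.2.2.2.2.2.2.2.2.2.1
theorem rf3h5 : AllL LnOK rf3l13 := batch_of rf3th.2.2.2.2.2.2.2.2.2.2.2.2.2.1
theorem rf3h6 : AllL LnOK rf3l14 := batch_of rf3th.2.2.2.2.2.2.2.2.2.2.2.2.2.2.1
theorem rf3h7 : AllL LnOK rf3l15 := batch_of rf3th.2.2.2.2.2.2.2.2.2.2.2.2.2.2.2.1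
theorem rf3h8 : AllL LnOK rf3l16 := batch_of rf3th.2.2.2.2.2.2.2.2.2.2.2.2.2.2.2.2.1
theorem rf3h9 : AllL LnOK rf3l17 := batch_of rf3th.2.2.2.2.2.2.2.2.2.2.2.2.2.2.2.2.2.1
theorem rf3h10 : AllL LnOK rf3l18 := batch_of rf3th.2.2.2.2.2.2.2.2.2.2.2.2.2.2.2.2.2.2.1
theorem rf3h11 : AllL LnOK rf3l19 := batch_of rf3th.2.2.2.2.2.2.2.2.2.2.2.2.2.2.2.2.2.2.2.1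
theorem rf3h12 : AllL LnOK rf3l2 := batch_of rf3th.2.2.1
theorem rf3h13 : AllL LnOK rf3l20 := batch_of rf3th.2.2.2.2.2.2.2.2.2.2.2.2.2.2.2.2.2.2.2.2.1
theorem rf3h14 : AllL LnOK rf3l21 := batch_of rf3th.2.2.2.2.2.2.2.2.2.2.2.2.2.2.2.2.2.2.2.2.2.1
theorem rf3h15 : AllL LnOK rf3l22 := batch_of rf3th.2.2.2.2.2.2.2.2.2.2.2.2.2.2.2.2.2.2.2.2.2.2.1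
theorem rf3h16 : AllL LnOK rf3l23 := batch_of rf3th.2.2.2.2.2.2.2.2.2.2.2.2.2.2.2.2.2.2.2.2.2.2.2.1
theorem rf3h17 : AllL LnOK rf3l24 := batch_of rf3th.2.2.2.2.2.2.2.2.2.2.2.2.2.2.2.2.2.2.2.2.2.2.2.2.1
theorem rf3h18 : AllL LnOK rf3l25 := batch_of rf3th.2.2.2.2.2.2.2.2.2.2.2.2.2.2.2.2.2.2.2.2.2.2.2.2.2.1
theorem rf3h19 : AllL LnOK rf3l26 := batch_of rf3th.2.2.2.2.2.2.2.2.2.2.2.2.2.2.2.2.2.2.2.2.2.2.2.2.2.2.1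
theorem rf3h20 : AllL LnOK rf3l27 := batch_of rf3th.2.2.2.2.2.2.2.2.2.2.2.2.2.2.2.2.2.2.2.2.2.2.2.2.2.2.2.1
theorem rf3h21 : AllL LnOK rf3l28 := batch_of rf3th.2.2.2.2.2.2.2.2.2.2.2.2.2.2.2.2.2.2.2.2.2.2.2.2.2.2.2.2.1
theorem rf3h22 : AllL LnOK rf3l29 := batch_of rf3th.2.2.2.2.2.2.2.2.2.2.2.2.2.2.2.2.2.2.2.2.2.2.2.2.2.2.2.2.2.1
theorem rf3h23 : AllL LnOK rf3l3 := batch_of rf3th.2.2.2.1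
theorem rf3h24 : AllL LnOK rf3l30 := batch_of rf3th.2.2.2.2.2.2.2.2.2.2.2.2.2.2.2.2.2.2.2.2.2.2.2.2.2.2.2.2.2.2.1
theorem rf3h25 : AllL LnOK rf3l31 := batch_of rf3th.2.2.2.2.2.2.2.2.2.2.2.2.2.2.2.2.2.2.2.2.2.2.2.2.2.2.2.2.2.2.2.1
theorem rf3h26 : AllL LnOK rf3l32 := batch_of rf3th.2.2.2.2.2.2.2.2.2.2.2.2.2.2.2.2.2.2.2.2.2.2.2.2.2.2.2.2.2.2.2.2.1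
theorem rf3h27 : AllL LnOK rf3l33 := batch_of rf3th.2.2.2.2.2.2.2.2.2.2.2.2.2.2.2.2.2.2.2.2.2.2.2.2.2.2.2.2.2.2.2.2.2.1
theorem rf3h28 : AllL LnOK rf3l34 := batch_of rf3th.2.2.2.2.2.2.2.2.2.2.2.2.2.2.2.2.2.2.2.2.2.2.2.2.2.2.2.2.2.2.2.2.2.2.1
theorem rf3h29 : AllL LnOK rf3l35 := batch_of rf3th.2.2.2.2.2.2.2.2.2.2.2.2.2.2.2.2.2.2.2.2.2.2.2.2.2.2.2.2.2.2.2.2.2.2.2.1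
theorem rf3h30 : AllL LnOK rf3l36 := batch_of rf3th.2.2.2.2.2.2.2.2.2.2.2.2.2.2.2.2.2.2.2.2.2.2.2.2.2.2.2.2.2.2.2.2.2.2.2.2.1
theorem rf3h31 : AllL LnOK rf3l37 := batch_of rf3th.2.2.2.2.2.2.2.2.2.2.2.2.2.2.2.2.2.2.2.2.2.2.2.2.2.2.2.2.2.2.2.2.2.2.2.2.2.1
theorem rf3h32 : AllL LnOK rf3l38 := batch_of rf3th.2.2.2.2.2.2.2.2.2.2.2.2.2.2.2.2.2.2.2.2.2.2.2.2.2.2.2.2.2.2.2.2.2.2.2.2.2.2.1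
theorem rf3h33 : AllL LnOK rf3l39 := batch_of rf3th.2.2.2.2.2.2.2.2.2.2.2.2.2.2.2.2.2.2.2.2.2.2.2.2.2.2.2.2.2.2.2.2.2.2.2.2.2.2.2.1
theorem rf3h34 : AllL LnOK rf3l4 := batch_of rf3th.2.2.2.2.1
theorem rf3h35 : AllL LnOK rf3l40 := batch_of rf3th.2.2.2.2.2.2.2.2.2.2.2.2.2.2.2.2.2.2.2.2.2.2.2.2.2.2.2.2.2.2.2.2.2.2.2.2.2.2.2.2.1
theorem rf3h36 : AllL LnOK rf3l41 := batch_of rf3th.2.2.2.2.2.2.2.2.2.2.2.2.2.2.2.2.2.2.2.2.2.2.2.2.2.2.2.2.2.2.2.2.2.2.2.2.2.2.2.2.2.1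
theorem rf3h37 : AllL LnOK rf3l42 := batch_of rf3th.2.2.2.2.2.2.2.2.2.2.2.2.2.2.2.2.2.2.2.2.2.2.2.2.2.2.2.2.2.2.2.2.2.2.2.2.2.2.2.2.2.2.1
theorem rf3h38 : AllL LnOK rf3l43 := batch_of rf3th.2.2.2.2.2.2.2.2.2.2.2.2.2.2.2.2.2.2.2.2.2.2.2.2.2.2.2.2.2.2.2.2.2.2.2.2.2.2.2.2.2.2.2.1
theorem rf3h39 : AllL LnOK rf3l44 := batch_of rf3th.2.2.2.2.2.2.2.2.2.2.2.2.2.2.2.2.2.2.2.2.2.2.2.2.2.2.2.2.2.2.2.2.2.2.2.2.2.2.2.2.2.2.2.2.1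
theorem rf3h40 : AllL LnOK rf3l45 := batch_of rf3th.2.2.2.2.2.2.2.2.2.2.2.2.2.2.2.2.2.2.2.2.2.2.2.2.2.2.2.2.2.2.2.2.2.2.2.2.2.2.2.2.2.2.2.2.2.1
theorem rf3h41 : AllL LnOK rf3l46 := batch_of rf3th.2.2.2.2.2.2.2.2.2.2.2.2.2.2.2.2.2.2.2.2.2.2.2.2.2.2.2.2.2.2.2.2.2.2.2.2.2.2.2.2.2.2.2.2.2.2.1
theorem rf3h42 : AllL LnOK rf3l47 := batch_of rf3th.2.2.2.2.2.2.2.2.2.2.2.2.2.2.2.2.2.2.2.2.2.2.2.2.2.2.2.2.2.2.2.2.2.2.2.2.2.2.2.2.2.2.2.2.2.2.2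
theorem rf3h43 : AllL LnOK rf3l5 := batch_of rf3th.2.2.2.2.2.1
theorem rf3h44 : AllL LnOK rf3l6 := batch_of rf3th.2.2.2.2.2.2.1
theorem rf3h45 : AllL LnOK rf3l7 := batch_of rf3th.2.2.2.2.2.2.2.1
theorem rf3h46 : AllL LnOK rf3l8 := batch_of rf3th.2.2.2.2.2.2.2.2.1
theorem rf3h47 : AllL LnOK rf3l9 := batch_of rf3th.2.2.2.2.2.2.2.2.2.1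
theorem rf3k0 : CfgOK (rf3c0.e, rf3c0.n) := red_ln rf3h1.2.2.2.2.2.2.2.2.2.2.2.1 ⟨⟨⟨rf3h1.2.2.2.2.2.2.2.2.2.2.2.1.1, rf3h23.2.2.2.2.2.2.2.2.2.2.1.1⟩, ⟨rf3h43.2.2.2.2.2.2.2.2.2.1.1, rf3h44.2.2.2.2.2.2.2.2.2.2.2.2.2.2.2.2.2.2.2.2.2.2.2.2.2.2.2.2.2.2.2.2.2.2.2.2.2.2.1.1⟩⟩, ⟨⟨rf3h43.2.2.2.2.2.2.2.2.1.1, rf3h44.2.2.2.2.2.2.2.2.2.2.2.2.2.2.2.2.2.2.2.2.2.2.2.2.2.2.2.2.2.2.2.2.2.2.2.2.2.1.1⟩, ⟨rf3h45.2.2.2.2.2.2.2.2.2.2.1.1, rf3h46.2.2.2.2.2.1.1⟩⟩⟩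
theorem rf3k1 : CfgOK (rf3c1.e, rf3c1.n) := red_ln rf3h1.2.2.2.2.2.2.2.2.2.2.1 ⟨⟨rf3h1.2.2.2.2.2.2.2.2.2.2.1.1, rf3h23.2.2.2.2.2.2.2.2.2.1.1⟩, ⟨rf3h34.2.2.2.2.2.2.2.2.2.2.2.2.2.2.2.2.2.2.2.2.1.1, rf3h44.2.2.2.2.2.2.2.2.2.2.2.2.2.2.2.2.2.2.2.2.2.2.2.2.2.2.2.2.2.2.2.2.2.2.2.2.1.1⟩⟩
theorem rf3k2 : CfgOK (rf3c2.e, rf3c2.n) := red_ln rf3h1.2.2.2.2.2.2.2.2.2.1 ⟨⟨rf3h1.2.2.2.2.2.2.2.2.2.1.1, rf3h43.2.2.2.2.2.2.2.2.2.2.2.2.2.2.1.1⟩, ⟨rf3h23.2.2.2.2.2.2.2.2.1.1, rf3h44.2.2.2.2.2.2.2.2.2.2.2.2.2.2.2.2.2.2.2.2.2.2.2.2.2.2.2.2.2.2.2.2.2.2.2.1.1⟩⟩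
theorem rf3k3 : CfgOK (rf3c3.e, rf3c3.n) := red_ln rf3h1.2.2.2.2.2.2.2.2.1 ⟨⟨rf3h1.2.2.2.2.2.2.2.2.1.1, rf3h43.2.2.2.2.2.2.1.1⟩, ⟨rf3h23.2.2.2.2.2.2.2.1.1, rf3h44.2.2.2.2.2.2.2.2.2.2.2.2.2.2.2.2.2.2.2.2.2.2.2.2.2.2.2.2.2.2.2.2.2.2.1.1⟩⟩
theorem rf3k4 : CfgOK (rf3c4.e, rf3c4.n) := red_ln rf3h1.2.2.2.2.2.2.2.1 ⟨⟨⟨rf3h1.2.2.2.2.2.2.2.1.1, rf3h43.2.2.2.2.2.1.1⟩, ⟨rf3h43.2.2.2.2.2.2.2.2.2.2.2.2.2.1.1, rf3h45.2.2.2.2.2.2.2.2.2.1.1⟩⟩, ⟨⟨rf3h23.2.2.2.2.2.2.1.1, rf3h44.2.2.2.2.2.2.2.2.2.2.2.2.2.2.2.2.2.2.2.2.2.2.2.2.2.2.2.2.2.2.2.2.2.1.1⟩, ⟨rf3h44.2.2.2.2.2.2.2.2.2.2.2.2.2.2.2.2.2.2.2.2.2.2.2.2.2.2.2.2.2.2.2.2.1.1, rf3h46.2.2.2.2.1.1⟩⟩⟩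
theorem rf3k5 : CfgOK (rf3c5.e, rf3c5.n) := red_ln rf3h1.2.2.2.2.2.2.1 ⟨rf3h1.2.2.2.2.2.2.1.1, rf3h23.2.2.2.2.2.1.1⟩
theorem rf3k6 : CfgOK (rf3c6.e, rf3c6.n) := red_ln rf3h1.2.2.2.2.2.1 ⟨rf3h1.2.2.2.2.2.1.1, rf3h23.2.2.2.2.1.1⟩
theorem rf3k7 : CfgOK (rf3c7.e, rf3c7.n) := red_ln rf3h1.2.2.2.2.1 ⟨rf3h1.2.2.2.2.1.1, rf3h23.2.2.2.1.1⟩
theorem rf3k8 : CfgOK (rf3c8.e, rf3c8.n) := red_ln rf3h1.2.2.2.1 ⟨rf3h1.2.2.2.1.1, rf3h23.2.2.1.1⟩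
theorem rf3k9 : CfgOK (rf3c9.e, rf3c9.n) := red_ln rf3h1.2.2.1 ⟨rf3h1.2.2.1.1, rf3h23.2.1.1⟩
theorem rf3k10 : CfgOK (rf3c10.e, rf3c10.n) := red_ln rf3h1.2.1 ⟨⟨rf3h1.2.1.1, rf3h23.1.1⟩, ⟨rf3h43.2.2.2.2.2.2.2.2.2.2.2.2.1.1, rf3h44.2.2.2.2.2.2.2.2.2.2.2.2.2.2.2.2.2.2.2.2.2.2.2.2.2.2.2.2.2.2.2.1.1⟩⟩
theorem rf3k11 : CfgOK (rf3c11.e, rf3c11.n) := red_ln rf3h1.1 ⟨⟨rf3h1.1.1, rf3h12.2.2.2.2.2.2.2.2.2.2.2.2.2.2.2.2.2.2.2.2.2.2.2.2.2.2.2.2.2.2.2.2.2.2.2.2.2.2.2.1.1⟩, ⟨rf3h43.2.2.2.2.1.1, rf3h44.2.2.2.2.2.2.2.2.2.2.2.2.2.2.2.2.2.2.2.2.2.2.2.2.2.2.2.2.2.2.1.1⟩⟩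
theorem rf3k12 : CfgOK (rf3c12.e, rf3c12.n) := red_ln rf3h0.2.2.2.2.2.2.2.2.2.2.2.2.2.2.2.2.2.2.2.2.2.2.2.2.2.2.2.2.2.1 ⟨⟨rf3h0.2.2.2.2.2.2.2.2.2.2.2.2.2.2.2.2.2.2.2.2.2.2.2.2.2.2.2.2.2.1.1, rf3h12.2.2.2.2.2.2.2.2.2.2.2.2.2.2.2.2.2.2.2.2.2.2.2.2.2.2.2.2.2.2.2.2.2.2.2.2.2.2.1.1⟩, ⟨rf3h43.2.2.2.1.1, rf3h44.2.2.2.2.2.2.2.2.2.2.2.2.2.2.2.2.2.2.2.2.2.2.2.2.2.2.2.2.2.1.1⟩⟩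
theorem rf3k13 : CfgOK (rf3c13.e, rf3c13.n) := red_ln rf3h0.2.2.2.2.2.2.2.2.2.2.2.2.2.2.2.2.2.2.2.2.2.2.2.2.2.2.2.2.1 ⟨⟨rf3h0.2.2.2.2.2.2.2.2.2.2.2.2.2.2.2.2.2.2.2.2.2.2.2.2.2.2.2.2.1.1, rf3h12.2.2.2.2.2.2.2.2.2.2.2.2.2.2.2.2.2.2.2.2.2.2.2.2.2.2.2.2.2.2.2.2.2.2.2.2.2.1.1⟩, ⟨rf3h43.2.2.1.1, rf3h44.2.2.2.2.2.2.2.2.2.2.2.2.2.2.2.2.2.2.2.2.2.2.2.2.2.2.2.2.1.1⟩⟩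
theorem rf3k14 : CfgOK (rf3c14.e, rf3c14.n) := red_ln rf3h0.2.2.2.2.2.2.2.2.2.2.2.2.2.2.2.2.2.2.2.2.2.2.2.2.2.2.2.1 ⟨⟨rf3h0.2.2.2.2.2.2.2.2.2.2.2.2.2.2.2.2.2.2.2.2.2.2.2.2.2.2.2.1.1, rf3h12.2.2.2.2.2.2.2.2.2.2.2.2.2.2.2.2.2.2.2.2.2.2.2.2.2.2.2.2.2.2.2.2.2.2.2.2.1.1⟩, ⟨rf3h34.1.1, rf3h44.2.2.2.2.2.2.2.2.2.2.2.2.2.2.2.2.2.2.2.2.2.2.2.2.2.2.2.1.1⟩⟩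
theorem rf3k15 : CfgOK (rf3c15.e, rf3c15.n) := red_ln rf3h0.2.2.2.2.2.2.2.2.2.2.2.2.2.2.2.2.2.2.2.2.2.2.2.2.2.2.1 ⟨⟨rf3h0.2.2.2.2.2.2.2.2.2.2.2.2.2.2.2.2.2.2.2.2.2.2.2.2.2.2.1.1, rf3h43.2.1.1⟩, ⟨rf3h12.2.2.2.2.2.2.2.2.2.2.2.2.2.2.2.2.2.2.2.2.2.2.2.2.2.2.2.2.2.2.2.2.2.2.2.1.1, rf3h44.2.2.2.2.2.2.2.2.2.2.2.2.2.2.2.2.2.2.2.2.2.2.2.2.2.2.1.1⟩⟩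
theorem rf3k16 : CfgOK (rf3c16.e, rf3c16.n) := red_ln rf3h0.2.2.2.2.2.2.2.2.2.2.2.2.2.2.2.2.2.2.2.2.2.2.2.2.2.1 ⟨⟨rf3h0.2.2.2.2.2.2.2.2.2.2.2.2.2.2.2.2.2.2.2.2.2.2.2.2.2.1.1, rf3h43.1.1⟩, ⟨rf3h12.2.2.2.2.2.2.2.2.2.2.2.2.2.2.2.2.2.2.2.2.2.2.2.2.2.2.2.2.2.2.2.2.2.2.1.1, rf3h44.2.2.2.2.2.2.2.2.2.2.2.2.2.2.2.2.2.2.2.2.2.2.2.2.2.1.1⟩⟩
theorem rf3k17 : CfgOK (rf3c17.e, rf3c17.n) := red_ln rf3h0.2.2.2.2.2.2.2.2.2.2.2.2.2.2.2.2.2.2.2.2.2.2.2.2.1 ⟨⟨rf3h0.2.2.2.2.2.2.2.2.2.2.2.2.2.2.2.2.2.2.2.2.2.2.2.2.1.1, rf3h34.2.2.2.2.2.2.2.2.2.2.2.2.2.2.2.2.2.2.2.2.2.2.2.2.2.2.2.2.2.1.1⟩, ⟨rf3h12.2.2.2.2.2.2.2.2.2.2.2.2.2.2.2.2.2.2.2.2.2.2.2.2.2.2.2.2.2.2.2.2.2.1.1, rf3h44.2.2.2.2.2.2.2.2.2.2.2.2.2.2.2.2.2.2.2.2.2.2.2.2.1.1⟩⟩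
theorem rf3k18 : CfgOK (rf3c18.e, rf3c18.n) := red_ln rf3h0.2.2.2.2.2.2.2.2.2.2.2.2.2.2.2.2.2.2.2.2.2.2.2.1 ⟨⟨rf3h0.2.2.2.2.2.2.2.2.2.2.2.2.2.2.2.2.2.2.2.2.2.2.2.1.1, rf3h34.2.2.2.2.2.2.2.2.2.2.2.2.2.2.2.2.2.2.2.2.2.2.2.2.2.2.2.2.1.1⟩, ⟨rf3h12.2.2.2.2.2.2.2.2.2.2.2.2.2.2.2.2.2.2.2.2.2.2.2.2.2.2.2.2.2.2.2.2.1.1, rf3h44.2.2.2.2.2.2.2.2.2.2.2.2.2.2.2.2.2.2.2.2.2.2.2.1.1⟩⟩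
theorem rf3k19 : CfgOK (rf3c19.e, rf3c19.n) := red_ln rf3h0.2.2.2.2.2.2.2.2.2.2.2.2.2.2.2.2.2.2.2.2.2.2.1 ⟨⟨⟨rf3h0.2.2.2.2.2.2.2.2.2.2.2.2.2.2.2.2.2.2.2.2.2.2.1.1, rf3h34.2.2.2.2.2.2.2.2.2.2.2.2.2.2.2.2.2.2.2.2.2.2.2.2.2.2.2.1.1⟩, ⟨rf3h34.2.2.2.2.2.2.2.1.1, rf3h45.2.2.2.2.2.2.1.1⟩⟩, ⟨⟨rf3h12.2.2.2.2.2.2.2.2.2.2.2.2.2.2.2.2.2.2.2.2.2.2.2.2.2.2.2.2.2.2.2.1.1, rf3h44.2.2.2.2.2.2.2.2.2.2.2.2.2.2.2.2.2.2.2.2.2.2.1.1⟩, ⟨rf3h44.2.2.2.2.2.2.2.2.2.2.2.2.2.2.2.2.2.2.2.2.2.1.1, rf3h46.2.2.2.1.1⟩⟩⟩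
theorem rf3k20 : CfgOK (rf3c20.e, rf3c20.n) := red_ln rf3h0.2.2.2.2.2.2.2.2.2.2.2.2.2.2.2.2.2.2.2.2.2.1 ⟨rf3h0.2.2.2.2.2.2.2.2.2.2.2.2.2.2.2.2.2.2.2.2.2.1.1, rf3h34.2.2.2.2.2.2.2.2.2.2.2.2.2.2.2.2.2.2.2.1.1⟩
theorem rf3k21 : CfgOK (rf3c21.e, rf3c21.n) := red_ln rf3h0.2.2.2.2.2.2.2.2.2.2.2.2.2.2.2.2.2.2.2.2.1 ⟨⟨rf3h0.2.2.2.2.2.2.2.2.2.2.2.2.2.2.2.2.2.2.2.2.1.1, rf3h34.2.2.2.2.2.2.2.2.2.2.2.2.2.2.2.2.2.2.1.1⟩, ⟨rf3h12.2.2.2.2.2.2.2.2.2.2.2.2.2.2.2.2.2.2.2.2.2.2.2.2.2.2.2.2.2.2.1.1, rf3h44.2.2.2.2.2.2.2.2.2.2.2.2.2.2.2.2.2.2.2.2.1.1⟩⟩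
theorem rf3k22 : CfgOK (rf3c22.e, rf3c22.n) := red_ln rf3h0.2.2.2.2.2.2.2.2.2.2.2.2.2.2.2.2.2.2.2.1 ⟨⟨rf3h0.2.2.2.2.2.2.2.2.2.2.2.2.2.2.2.2.2.2.2.1.1, rf3h34.2.2.2.2.2.2.2.2.2.2.2.2.2.2.2.2.2.1.1⟩, ⟨rf3h12.2.2.2.2.2.2.2.2.2.2.2.2.2.2.2.2.2.2.2.2.2.2.2.2.2.2.2.2.2.1.1, rf3h44.2.2.2.2.2.2.2.2.2.2.2.2.2.2.2.2.2.2.2.1.1⟩⟩
theorem rf3k23 : CfgOK (rf3c23.e, rf3c23.n) := red_ln rf3h0.2.2.2.2.2.2.2.2.2.2.2.2.2.2.2.2.2.2.1 ⟨rf3h0.2.2.2.2.2.2.2.2.2.2.2.2.2.2.2.2.2.2.1.1, rf3h34.2.2.2.2.2.2.2.2.2.2.2.2.2.2.2.2.2.2.2.2.2.2.2.2.2.2.1.1⟩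
theorem rf3k24 : CfgOK (rf3c24.e, rf3c24.n) := red_ln rf3h0.2.2.2.2.2.2.2.2.2.2.2.2.2.2.2.2.2.1 ⟨⟨rf3h0.2.2.2.2.2.2.2.2.2.2.2.2.2.2.2.2.2.1.1, rf3h34.2.2.2.2.2.2.2.2.2.2.2.2.2.2.2.2.2.2.2.2.2.2.2.2.2.1.1⟩, ⟨rf3h12.2.2.2.2.2.2.2.2.2.2.2.2.2.2.2.2.2.2.2.2.2.2.2.2.2.2.2.2.1.1, rf3h44.2.2.2.2.2.2.2.2.2.2.2.2.2.2.2.2.2.2.1.1⟩⟩
theorem rf3k25 : CfgOK (rf3c25.e, rf3c25.n) := red_ln rf3h0.2.2.2.2.2.2.2.2.2.2.2.2.2.2.2.2.1 ⟨rf3h0.2.2.2.2.2.2.2.2.2.2.2.2.2.2.2.2.1.1, rf3h12.2.2.2.2.2.2.2.2.2.2.2.2.2.2.2.2.2.2.2.2.2.2.2.2.2.2.2.1.1⟩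
theorem rf3k26 : CfgOK (rf3c26.e, rf3c26.n) := red_ln rf3h0.2.2.2.2.2.2.2.2.2.2.2.2.2.2.2.1 ⟨⟨rf3h0.2.2.2.2.2.2.2.2.2.2.2.2.2.2.2.1.1, rf3h34.2.2.2.2.2.2.2.2.2.2.2.2.2.2.2.2.2.2.2.2.2.2.2.2.1.1⟩, ⟨rf3h12.2.2.2.2.2.2.2.2.2.2.2.2.2.2.2.2.2.2.2.2.2.2.2.2.2.2.1.1, rf3h44.2.2.2.2.2.2.2.2.2.2.2.2.2.2.2.2.2.1.1⟩⟩
theorem rf3k27 : CfgOK (rf3c27.e, rf3c27.n) := red_ln rf3h0.2.2.2.2.2.2.2.2.2.2.2.2.2.2.1 ⟨⟨rf3h0.2.2.2.2.2.2.2.2.2.2.2.2.2.2.1.1, rf3h34.2.2.2.2.2.2.2.2.2.2.2.2.2.2.2.2.1.1⟩, ⟨rf3h12.2.2.2.2.2.2.2.2.2.2.2.2.2.2.2.2.2.2.2.2.2.2.2.2.2.1.1, rf3h44.2.2.2.2.2.2.2.2.2.2.2.2.2.2.2.2.1.1⟩⟩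
theorem rf3k28 : CfgOK (rf3c28.e, rf3c28.n) := red_ln rf3h0.2.2.2.2.2.2.2.2.2.2.2.2.2.1 ⟨⟨rf3h0.2.2.2.2.2.2.2.2.2.2.2.2.2.1.1, rf3h34.2.2.2.2.2.2.1.1⟩, ⟨rf3h12.2.2.2.2.2.2.2.2.2.2.2.2.2.2.2.2.2.2.2.2.2.2.2.2.1.1, rf3h44.2.2.2.2.2.2.2.2.2.2.2.2.2.2.2.1.1⟩⟩
theorem rf3k29 : CfgOK (rf3c29.e, rf3c29.n) := red_ln rf3h0.2.2.2.2.2.2.2.2.2.2.2.2.1 ⟨⟨rf3h0.2.2.2.2.2.2.2.2.2.2.2.2.1.1, rf3h34.2.2.2.2.2.1.1⟩, ⟨rf3h12.2.2.2.2.2.2.2.2.2.2.2.2.2.2.2.2.2.2.2.2.2.2.2.1.1, rf3h44.2.2.2.2.2.2.2.2.2.2.2.2.2.2.1.1⟩⟩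
theorem rf3k30 : CfgOK (rf3c30.e, rf3c30.n) := red_ln rf3h0.2.2.2.2.2.2.2.2.2.2.2.1 ⟨⟨⟨rf3h0.2.2.2.2.2.2.2.2.2.2.2.1.1, rf3h34.2.2.2.2.2.2.2.2.2.2.2.2.2.2.2.2.2.2.2.2.2.2.2.1.1⟩, ⟨rf3h34.2.2.2.2.1.1, rf3h45.2.2.2.2.2.1.1⟩⟩, ⟨⟨rf3h12.2.2.2.2.2.2.2.2.2.2.2.2.2.2.2.2.2.2.2.2.2.2.1.1, rf3h44.2.2.2.2.2.2.2.2.2.2.2.2.2.1.1⟩, ⟨rf3h44.2.2.2.2.2.2.2.2.2.2.2.2.1.1, rf3h46.2.2.1.1⟩⟩⟩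
theorem rf3k31 : CfgOK (rf3c31.e, rf3c31.n) := red_ln rf3h0.2.2.2.2.2.2.2.2.2.2.1 ⟨rf3h0.2.2.2.2.2.2.2.2.2.2.1.1, rf3h12.2.2.2.2.2.2.2.2.2.2.2.2.2.2.2.2.2.2.2.2.2.1.1⟩
theorem rf3k32 : CfgOK (rf3c32.e, rf3c32.n) := red_ln rf3h0.2.2.2.2.2.2.2.2.2.1 ⟨rf3h0.2.2.2.2.2.2.2.2.2.1.1, rf3h12.2.2.2.2.2.2.2.2.2.2.2.2.2.2.2.2.2.2.2.2.1.1⟩
theorem rf3k33 : CfgOK (rf3c33.e, rf3c33.n) := red_ln rf3h0.2.2.2.2.2.2.2.2.1 ⟨⟨⟨rf3h0.2.2.2.2.2.2.2.2.1.1, rf3h12.2.2.2.2.2.2.2.2.2.2.2.2.2.2.2.2.2.2.2.1.1⟩, ⟨rf3h34.2.2.2.2.2.2.2.2.2.2.2.2.2.2.2.2.2.2.2.2.2.2.1.1, rf3h44.2.2.2.2.2.2.2.2.2.2.2.1.1⟩⟩, ⟨⟨rf3h34.2.2.2.2.2.2.2.2.2.2.2.2.2.2.2.1.1, rf3h44.2.2.2.2.2.2.2.2.2.2.1.1⟩, ⟨rf3h45.2.2.2.2.2.2.2.2.1.1,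 rf3h46.2.1.1⟩⟩⟩
theorem rf3k34 : CfgOK (rf3c34.e, rf3c34.n) := red_ln rf3h0.2.2.2.2.2.2.2.1 ⟨⟨rf3h0.2.2.2.2.2.2.2.1.1, rf3h12.2.2.2.2.2.2.2.2.2.2.2.2.2.2.2.2.2.2.1.1⟩, ⟨rf3h34.2.2.2.2.2.2.2.2.2.2.2.2.2.2.1.1, rf3h44.2.2.2.2.2.2.2.2.2.1.1⟩⟩
theorem rf3k35 : CfgOK (rf3c35.e, rf3c35.n) := red_ln rf3h0.2.2.2.2.2.2.1 ⟨⟨rf3h0.2.2.2.2.2.2.1.1, rf3h12.2.2.2.2.2.2.2.2.2.2.2.2.2.2.2.2.2.1.1⟩, ⟨rf3h34.2.2.2.2.2.2.2.2.2.2.2.2.2.1.1, rf3h44.2.2.2.2.2.2.2.2.1.1⟩⟩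
theorem rf3k36 : CfgOK (rf3c36.e, rf3c36.n) := red_ln rf3h0.2.2.2.2.2.1 ⟨⟨⟨rf3h0.2.2.2.2.2.1.1, rf3h34.2.2.2.2.2.2.2.2.2.2.2.2.2.2.2.2.2.2.2.2.2.1.1⟩, ⟨rf3h12.2.2.2.2.2.2.2.2.2.2.2.2.2.2.2.2.1.1, rf3h44.2.2.2.2.2.2.2.1.1⟩⟩, ⟨⟨rf3h34.2.2.2.2.2.2.2.2.2.2.2.2.1.1, rf3h45.2.2.2.2.1.1⟩, ⟨rf3h44.2.2.2.2.2.2.1.1, rf3h46.1.1⟩⟩⟩
theorem rf3k37 : CfgOK (rf3c37.e, rf3c37.n) := red_ln rf3h0.2.2.2.2.1 ⟨⟨rf3h0.2.2.2.2.1.1, rf3h34.2.2.2.2.2.2.2.2.2.2.2.1.1⟩, ⟨rf3h12.2.2.2.2.2.2.2.2.2.2.2.2.2.2.2.1.1, rf3h44.2.2.2.2.2.1.1⟩⟩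
theorem rf3k38 : CfgOK (rf3c38.e, rf3c38.n) := red_ln rf3h0.2.2.2.1 ⟨⟨rf3h0.2.2.2.1.1, rf3h34.2.2.2.2.2.2.2.2.2.2.1.1⟩, ⟨rf3h12.2.2.2.2.2.2.2.2.2.2.2.2.2.2.1.1, rf3h44.2.2.2.2.1.1⟩⟩
theorem rf3k39 : CfgOK (rf3c39.e, rf3c39.n) := red_ln rf3h0.2.2.1 ⟨rf3h0.2.2.1.1, rf3h12.2.2.2.2.2.2.2.2.2.2.2.2.2.1.1⟩
theorem rf3k40 : CfgOK (rf3c40.e, rf3c40.n) := red_ln rf3h0.2.1 ⟨⟨rf3h0.2.1.1, rf3h34.2.2.2.2.2.2.2.2.2.1.1⟩, ⟨rf3h12.2.2.2.2.2.2.2.2.2.2.2.2.1.1, rf3h44.2.2.2.1.1⟩⟩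
theorem rf3k41 : CfgOK (rf3c41.e, rf3c41.n) := red_ln rf3h0.1 ⟨⟨rf3h0.1.1, rf3h34.2.2.2.1.1⟩, ⟨rf3h34.2.1.1, rf3h45.2.2.1.1⟩⟩
theorem rf3k42 : CfgOK (rf3c42.e, rf3c42.n) := red_ln rf3h3.1 ⟨⟨rf3h3.1.1, rf3h4.2.2.2.2.2.2.2.2.2.2.2.2.2.2.2.2.2.2.2.2.2.2.2.2.2.2.2.1.1⟩, ⟨rf3h6.2.2.2.2.2.2.2.2.2.2.2.2.2.2.1.1, rf3h7.2.2.2.2.2.2.2.2.2.2.2.2.2.2.2.2.2.2.2.2.2.2.2.2.2.2.2.2.2.1.1⟩⟩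
theorem rf3k43 : CfgOK (rf3c43.e, rf3c43.n) := red_ln rf3h2.2.2.2.2.2.2.2.2.2.2.2.2.2.2.2.2.2.2.2.2.2.2.2.2.2.2.2.2.2.1 ⟨⟨rf3h2.2.2.2.2.2.2.2.2.2.2.2.2.2.2.2.2.2.2.2.2.2.2.2.2.2.2.2.2.2.1.1, rf3h4.2.2.2.2.2.2.2.2.2.2.2.2.2.2.2.2.2.2.2.2.2.2.2.2.2.2.1.1⟩, ⟨rf3h5.2.2.2.2.2.2.2.2.2.2.2.2.2.2.2.2.1.1, rf3h7.2.2.2.2.2.2.2.2.2.2.2.2.2.2.2.2.2.2.2.2.2.2.2.2.2.2.2.2.1.1⟩⟩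
theorem rf3k44 : CfgOK (rf3c44.e, rf3c44.n) := red_ln rf3h2.2.2.2.2.2.2.2.2.2.2.2.2.2.2.2.2.2.2.2.2.2.2.2.2.2.2.2.2.1 rf3h2.2.2.2.2.2.2.2.2.2.2.2.2.2.2.2.2.2.2.2.2.2.2.2.2.2.2.2.2.1.1
theorem rf3k45 : CfgOK (rf3c45.e, rf3c45.n) := red_ln rf3h2.2.2.2.2.2.2.2.2.2.2.2.2.2.2.2.2.2.2.2.2.2.2.2.2.2.2.2.1 rf3h2.2.2.2.2.2.2.2.2.2.2.2.2.2.2.2.2.2.2.2.2.2.2.2.2.2.2.2.1.1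
theorem rf3k46 : CfgOK (rf3c46.e, rf3c46.n) := red_ln rf3h2.2.2.2.2.2.2.2.2.2.2.2.2.2.2.2.2.2.2.2.2.2.2.2.2.2.2.1 rf3h2.2.2.2.2.2.2.2.2.2.2.2.2.2.2.2.2.2.2.2.2.2.2.2.2.2.2.1.1
theorem rf3k47 : CfgOK (rf3c47.e, rf3c47.n) := red_ln rf3h2.2.2.2.2.2.2.2.2.2.2.2.2.2.2.2.2.2.2.2.2.2.2.2.2.2.1 ⟨⟨rf3h2.2.2.2.2.2.2.2.2.2.2.2.2.2.2.2.2.2.2.2.2.2.2.2.2.2.1.1, rf3h4.2.2.2.2.2.2.2.2.2.2.2.2.2.2.2.2.2.2.2.2.2.2.2.2.2.2.2.2.2.1.1⟩, ⟨rf3h6.2.2.2.2.2.2.2.2.2.2.2.2.2.2.2.2.2.2.2.2.2.2.2.2.2.2.2.1.1, rf3h7.2.2.2.2.2.2.2.2.2.2.2.2.2.2.2.2.2.2.2.2.2.2.2.2.2.2.2.1.1⟩⟩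
theorem rf3k48 : CfgOK (rf3c48.e, rf3c48.n) := red_ln rf3h2.2.2.2.2.2.2.2.2.2.2.2.2.2.2.2.2.2.2.2.2.2.2.2.2.1 ⟨⟨rf3h2.2.2.2.2.2.2.2.2.2.2.2.2.2.2.2.2.2.2.2.2.2.2.2.2.1.1, rf3h4.2.2.2.2.2.2.2.2.2.2.2.2.2.2.2.2.2.2.2.2.2.2.2.2.2.2.2.2.1.1⟩, ⟨rf3h6.2.2.2.2.2.2.2.2.2.2.2.2.2.1.1, rf3h7.2.2.2.2.2.2.2.2.2.2.2.2.2.2.2.2.2.2.2.2.2.2.2.1.1⟩⟩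
theorem rf3k49 : CfgOK (rf3c49.e, rf3c49.n) := red_ln rf3h2.2.2.2.2.2.2.2.2.2.2.2.2.2.2.2.2.2.2.2.2.2.2.2.1 ⟨⟨⟨rf3h2.2.2.2.2.2.2.2.2.2.2.2.2.2.2.2.2.2.2.2.2.2.2.2.1.1, rf3h4.2.2.2.2.2.2.2.2.2.2.2.2.2.2.2.2.2.2.2.2.2.2.2.2.2.1.1⟩, ⟨rf3h6.2.2.2.2.2.2.2.2.2.2.2.2.2.2.2.2.2.2.2.2.2.2.2.2.2.2.1.1, rf3h7.2.2.2.2.2.2.2.2.2.2.2.2.2.2.2.2.2.2.2.2.2.2.2.2.2.2.1.1⟩⟩, ⟨⟨rf3h8.2.2.2.2.2.2.2.1.1, rf3h9.2.2.1.1⟩, ⟨rf3h10.2.2.2.1.1, rf3h11.2.2.1.1⟩⟩⟩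
theorem rf3k50 : CfgOK (rf3c50.e, rf3c50.n) := red_ln rf3h2.2.2.2.2.2.2.2.2.2.2.2.2.2.2.2.2.2.2.2.2.2.2.1 ⟨⟨rf3h2.2.2.2.2.2.2.2.2.2.2.2.2.2.2.2.2.2.2.2.2.2.2.1.1, rf3h4.2.2.2.2.2.2.2.2.2.2.2.2.2.2.2.2.2.2.2.2.2.2.2.2.1.1⟩, ⟨rf3h6.2.2.2.2.2.2.2.2.2.2.2.2.2.2.2.2.2.2.2.2.2.2.2.2.2.1.1, rf3h7.2.2.2.2.2.2.2.2.2.2.2.2.2.2.2.2.2.2.2.2.2.2.1.1⟩⟩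
theorem rf3k51 : CfgOK (rf3c51.e, rf3c51.n) := red_ln rf3h2.2.2.2.2.2.2.2.2.2.2.2.2.2.2.2.2.2.2.2.2.2.1 ⟨⟨rf3h2.2.2.2.2.2.2.2.2.2.2.2.2.2.2.2.2.2.2.2.2.2.1.1, rf3h4.2.2.2.2.2.2.2.2.2.2.2.2.2.2.2.2.2.2.2.2.2.2.2.1.1⟩, ⟨rf3h6.2.2.2.2.2.2.2.2.2.2.2.2.1.1, rf3h7.2.2.2.2.2.2.2.2.2.2.2.2.2.2.2.2.2.2.2.2.2.1.1⟩⟩
theorem rf3k52 : CfgOK (rf3c52.e, rf3c52.n) := red_ln rf3h2.2.2.2.2.2.2.2.2.2.2.2.2.2.2.2.2.2.2.2.2.1 ⟨⟨rf3h2.2.2.2.2.2.2.2.2.2.2.2.2.2.2.2.2.2.2.2.2.1.1, rf3h4.2.2.2.2.2.2.2.2.2.2.2.2.2.2.2.2.2.2.2.2.2.2.1.1⟩, ⟨rf3h6.2.2.2.2.2.2.2.2.2.2.2.1.1, rf3h7.2.2.2.2.2.2.2.2.2.2.2.2.2.2.2.2.2.2.2.2.1.1⟩⟩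
theorem rf3k53 : CfgOK (rf3c53.e, rf3c53.n) := red_ln rf3h2.2.2.2.2.2.2.2.2.2.2.2.2.2.2.2.2.2.2.2.1 ⟨⟨rf3h2.2.2.2.2.2.2.2.2.2.2.2.2.2.2.2.2.2.2.2.1.1, rf3h4.2.2.2.2.2.2.2.2.2.2.2.2.2.2.2.2.2.2.2.2.2.1.1⟩, ⟨rf3h6.2.2.2.2.2.2.2.2.2.2.1.1, rf3h7.2.2.2.2.2.2.2.2.2.2.2.2.2.2.2.2.2.2.2.1.1⟩⟩
theorem rf3k54 : CfgOK (rf3c54.e, rf3c54.n) := red_ln rf3h2.2.2.2.2.2.2.2.2.2.2.2.2.2.2.2.2.2.2.1 ⟨⟨rf3h2.2.2.2.2.2.2.2.2.2.2.2.2.2.2.2.2.2.2.1.1, rf3h4.2.2.2.2.2.2.2.2.2.2.2.2.2.2.2.2.2.2.2.2.1.1⟩, ⟨rf3h6.2.2.2.2.2.2.2.2.2.1.1, rf3h7.2.2.2.2.2.2.2.2.2.2.2.2.2.2.2.2.2.2.1.1⟩⟩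
theorem rf3k55 : CfgOK (rf3c55.e, rf3c55.n) := red_ln rf3h2.2.2.2.2.2.2.2.2.2.2.2.2.2.2.2.2.2.1 ⟨⟨rf3h2.2.2.2.2.2.2.2.2.2.2.2.2.2.2.2.2.2.1.1, rf3h4.2.2.2.2.2.2.2.2.2.2.2.2.2.2.2.2.2.2.2.1.1⟩, ⟨rf3h6.2.2.2.2.2.2.2.2.1.1, rf3h7.2.2.2.2.2.2.2.2.2.2.2.2.2.2.2.2.2.1.1⟩⟩
theorem rf3k56 : CfgOK (rf3c56.e, rf3c56.n) := red_ln rf3h2.2.2.2.2.2.2.2.2.2.2.2.2.2.2.2.2.1 ⟨⟨rf3h2.2.2.2.2.2.2.2.2.2.2.2.2.2.2.2.2.1.1, rf3h4.2.2.2.2.2.2.2.2.2.2.2.2.2.2.2.2.2.2.1.1⟩, ⟨rf3h6.2.2.2.2.2.2.2.1.1, rf3h7.2.2.2.2.2.2.2.2.2.2.2.2.2.2.2.2.1.1⟩⟩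
theorem rf3k57 : CfgOK (rf3c57.e, rf3c57.n) := red_ln rf3h2.2.2.2.2.2.2.2.2.2.2.2.2.2.2.2.1 ⟨⟨rf3h2.2.2.2.2.2.2.2.2.2.2.2.2.2.2.2.1.1, rf3h4.2.2.2.2.2.2.2.2.2.2.2.2.2.2.2.2.2.1.1⟩, ⟨rf3h6.2.2.2.2.2.2.1.1, rf3h7.2.2.2.2.2.2.2.2.2.2.1.1⟩⟩
theorem rf3k58 : CfgOK (rf3c58.e, rf3c58.n) := red_ln rf3h2.2.2.2.2.2.2.2.2.2.2.2.2.2.2.1 ⟨⟨rf3h2.2.2.2.2.2.2.2.2.2.2.2.2.2.2.1.1, rf3h4.2.2.2.2.2.2.2.2.2.2.2.2.2.2.2.2.1.1⟩, ⟨rf3h6.2.2.2.2.2.1.1, rf3h7.2.2.2.2.2.2.2.2.2.1.1⟩⟩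
theorem rf3k59 : CfgOK (rf3c59.e, rf3c59.n) := red_ln rf3h2.2.2.2.2.2.2.2.2.2.2.2.2.2.1 ⟨⟨rf3h2.2.2.2.2.2.2.2.2.2.2.2.2.2.1.1, rf3h4.2.2.2.2.2.2.2.2.2.2.2.2.2.2.2.1.1⟩, ⟨rf3h5.2.2.2.2.2.2.2.2.2.2.2.2.2.2.2.1.1, rf3h7.2.2.2.2.2.2.2.2.2.2.2.2.2.2.2.1.1⟩⟩
theorem rf3k60 : CfgOK (rf3c60.e, rf3c60.n) := red_ln rf3h2.2.2.2.2.2.2.2.2.2.2.2.2.1 ⟨⟨rf3h2.2.2.2.2.2.2.2.2.2.2.2.2.1.1, rf3h4.2.2.2.2.2.2.2.2.2.2.2.2.2.2.1.1⟩, ⟨rf3h5.2.2.2.2.2.2.2.2.2.2.2.2.2.2.1.1, rf3h7.2.2.2.2.2.2.2.2.1.1⟩⟩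
theorem rf3k61 : CfgOK (rf3c61.e, rf3c61.n) := red_ln rf3h2.2.2.2.2.2.2.2.2.2.2.2.1 ⟨⟨rf3h2.2.2.2.2.2.2.2.2.2.2.2.1.1, rf3h4.2.2.2.2.2.2.2.2.1.1⟩, ⟨rf3h6.2.2.2.2.1.1, rf3h7.2.2.2.2.2.2.2.1.1⟩⟩
theorem rf3k62 : CfgOK (rf3c62.e, rf3c62.n) := red_ln rf3h2.2.2.2.2.2.2.2.2.2.2.1 ⟨⟨rf3h2.2.2.2.2.2.2.2.2.2.2.1.1, rf3h4.2.2.2.2.2.2.2.1.1⟩, ⟨rf3h5.2.2.2.1.1, rf3h7.2.2.2.2.2.2.2.2.2.2.2.2.2.2.1.1⟩⟩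
theorem rf3k63 : CfgOK (rf3c63.e, rf3c63.n) := red_ln rf3h2.2.2.2.2.2.2.2.2.2.1 rf3h2.2.2.2.2.2.2.2.2.2.1.1
theorem rf3k64 : CfgOK (rf3c64.e, rf3c64.n) := red_ln rf3h2.2.2.2.2.2.2.2.2.1 rf3h2.2.2.2.2.2.2.2.2.1.1
theorem rf3k65 : CfgOK (rf3c65.e, rf3c65.n) := red_ln rf3h2.2.2.2.2.2.2.2.1 rf3h2.2.2.2.2.2.2.2.1.1
theorem rf3k66 : CfgOK (rf3c66.e, rf3c66.n) := red_ln rf3h2.2.2.2.2.2.2.1 rf3h2.2.2.2.2.2.2.1.1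
theorem rf3k67 : CfgOK (rf3c67.e, rf3c67.n) := red_ln rf3h2.2.2.2.2.2.1 rf3h2.2.2.2.2.2.1.1
theorem rf3k68 : CfgOK (rf3c68.e, rf3c68.n) := red_ln rf3h2.2.2.2.2.1 rf3h2.2.2.2.2.1.1
theorem rf3k69 : CfgOK (rf3c69.e, rf3c69.n) := red_ln rf3h2.2.2.2.1 rf3h2.2.2.2.1.1
theorem rf3k70 : CfgOK (rf3c70.e, rf3c70.n) := red_ln rf3h2.2.2.1 rf3h2.2.2.1.1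
theorem rf3k71 : CfgOK (rf3c71.e, rf3c71.n) := red_ln rf3h2.2.1 rf3h2.2.1.1
theorem rf3k72 : CfgOK (rf3c72.e, rf3c72.n) := red_ln rf3h2.1 rf3h2.1.1
theorem rf3k73 : CfgOK (rf3c73.e, rf3c73.n) := red_ln rf3h47.2.2.2.2.2.2.2.2.2.2.2.2.2.2.2.2.2.2.2.2.2.2.2.2.2.2.2.2.2.1 rf3h47.2.2.2.2.2.2.2.2.2.2.2.2.2.2.2.2.2.2.2.2.2.2.2.2.2.2.2.2.2.1.1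
theorem rf3k74 : CfgOK (rf3c74.e, rf3c74.n) := red_ln rf3h47.2.2.2.2.2.2.2.2.2.2.2.2.2.2.2.2.2.2.2.2.2.2.2.2.2.2.2.2.1 rf3h47.2.2.2.2.2.2.2.2.2.2.2.2.2.2.2.2.2.2.2.2.2.2.2.2.2.2.2.2.1.1
theorem rf3k75 : CfgOK (rf3c75.e, rf3c75.n) := red_ln rf3h47.2.2.2.2.2.2.2.2.2.2.2.2.2.2.2.2.2.2.2.2.2.2.2.2.2.2.2.1 rf3h47.2.2.2.2.2.2.2.2.2.2.2.2.2.2.2.2.2.2.2.2.2.2.2.2.2.2.2.1.1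
theorem rf3k76 : CfgOK (rf3c76.e, rf3c76.n) := red_ln rf3h47.2.2.2.2.2.2.2.2.2.2.2.2.2.2.2.2.2.2.2.2.2.2.2.2.2.2.1 rf3h47.2.2.2.2.2.2.2.2.2.2.2.2.2.2.2.2.2.2.2.2.2.2.2.2.2.2.1.1
theorem rf3k77 : CfgOK (rf3c77.e, rf3c77.n) := red_ln rf3h47.2.2.2.2.2.2.2.2.2.2.2.2.2.2.2.2.2.2.2.2.2.2.2.2.2.1 rf3h47.2.2.2.2.2.2.2.2.2.2.2.2.2.2.2.2.2.2.2.2.2.2.2.2.2.1.1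
theorem rf3k78 : CfgOK (rf3c78.e, rf3c78.n) := red_ln rf3h47.2.2.2.2.2.2.2.2.2.2.2.2.2.2.2.2.2.2.2.2.2.2.2.2.1 rf3h47.2.2.2.2.2.2.2.2.2.2.2.2.2.2.2.2.2.2.2.2.2.2.2.2.1.1
theorem rf3k79 : CfgOK (rf3c79.e, rf3c79.n) := red_ln rf3h47.2.2.2.2.2.2.2.2.2.2.2.2.2.2.2.2.2.2.2.2.2.2.2.1 rf3h47.2.2.2.2.2.2.2.2.2.2.2.2.2.2.2.2.2.2.2.2.2.2.2.1.1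
theorem rf3k80 : CfgOK (rf3c80.e, rf3c80.n) := red_ln rf3h47.2.2.2.2.2.2.2.2.2.2.2.2.2.2.2.2.2.2.2.2.2.2.1 rf3h47.2.2.2.2.2.2.2.2.2.2.2.2.2.2.2.2.2.2.2.2.2.2.1.1
theorem rf3k81 : CfgOK (rf3c81.e, rf3c81.n) := red_ln rf3h47.2.2.2.2.2.2.2.2.2.2.2.2.2.2.2.2.2.2.2.2.2.1 ⟨rf3h47.2.2.2.2.2.2.2.2.2.2.2.2.2.2.2.2.2.2.2.2.2.1.1, rf3h13.1.1⟩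
theorem rf3k82 : CfgOK (rf3c82.e, rf3c82.n) := red_ln rf3h47.2.2.2.2.2.2.2.2.2.2.2.2.2.2.2.2.2.2.2.2.1 ⟨⟨rf3h47.2.2.2.2.2.2.2.2.2.2.2.2.2.2.2.2.2.2.2.2.1.1, rf3h4.2.2.2.2.2.2.1.1⟩, ⟨rf3h5.2.2.2.2.2.2.2.2.2.2.2.2.2.1.1, rf3h7.2.2.2.1.1⟩⟩
theorem rf3k83 : CfgOK (rf3c83.e, rf3c83.n) := red_ln rf3h47.2.2.2.2.2.2.2.2.2.2.2.2.2.2.2.2.2.2.2.1 ⟨⟨rf3h47.2.2.2.2.2.2.2.2.2.2.2.2.2.2.2.2.2.2.2.1.1, rf3h4.2.2.2.2.2.1.1⟩, ⟨rf3h5.2.2.2.2.2.2.2.2.2.2.2.2.1.1, rf3h7.2.2.1.1⟩⟩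
theorem rf3k84 : CfgOK (rf3c84.e, rf3c84.n) := red_ln rf3h47.2.2.2.2.2.2.2.2.2.2.2.2.2.2.2.2.2.2.1 ⟨⟨rf3h47.2.2.2.2.2.2.2.2.2.2.2.2.2.2.2.2.2.2.1.1, rf3h4.2.2.2.2.1.1⟩, ⟨rf3h5.1.1, rf3h7.2.1.1⟩⟩
theorem rf3k85 : CfgOK (rf3c85.e, rf3c85.n) := red_ln rf3h47.2.2.2.2.2.2.2.2.2.2.2.2.2.2.2.2.2.1 rf3h47.2.2.2.2.2.2.2.2.2.2.2.2.2.2.2.2.2.1.1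
theorem rf3k86 : CfgOK (rf3c86.e, rf3c86.n) := red_ln rf3h47.2.2.2.2.2.2.2.2.2.2.2.2.2.2.2.2.1 rf3h47.2.2.2.2.2.2.2.2.2.2.2.2.2.2.2.2.1.1
theorem rf3k87 : CfgOK (rf3c87.e, rf3c87.n) := red_ln rf3h47.2.2.2.2.2.2.2.2.2.2.2.2.2.2.2.1 rf3h47.2.2.2.2.2.2.2.2.2.2.2.2.2.2.2.1.1
theorem rf3k88 : CfgOK (rf3c88.e, rf3c88.n) := red_ln rf3h47.2.2.2.2.2.2.2.2.2.2.2.2.2.2.1 rf3h47.2.2.2.2.2.2.2.2.2.2.2.2.2.2.1.1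
theorem rf3k89 : CfgOK (rf3c89.e, rf3c89.n) := red_ln rf3h47.2.2.2.2.2.2.2.2.2.2.2.2.2.1 rf3h47.2.2.2.2.2.2.2.2.2.2.2.2.2.1.1
theorem rf3k90 : CfgOK (rf3c90.e, rf3c90.n) := red_ln rf3h47.2.2.2.2.2.2.2.2.2.2.2.2.1 rf3h47.2.2.2.2.2.2.2.2.2.2.2.2.1.1
theorem rf3k91 : CfgOK (rf3c91.e, rf3c91.n) := red_ln rf3h47.2.2.2.2.2.2.2.2.2.2.2.1 rf3h47.2.2.2.2.2.2.2.2.2.2.2.1.1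
theorem rf3k92 : CfgOK (rf3c92.e, rf3c92.n) := red_ln rf3h47.2.2.2.2.2.2.2.2.2.2.1 rf3h47.2.2.2.2.2.2.2.2.2.2.1.1
theorem rf3k93 : CfgOK (rf3c93.e, rf3c93.n) := red_ln rf3h47.2.2.2.2.2.2.2.2.2.1 rf3h47.2.2.2.2.2.2.2.2.2.1.1
theorem rf3k94 : CfgOK (rf3c94.e, rf3c94.n) := red_ln rf3h47.2.2.2.2.2.2.2.2.1 rf3h47.2.2.2.2.2.2.2.2.1.1
theorem rf3k95 : CfgOK (rf3c95.e, rf3c95.n) := red_ln rf3h47.2.2.2.2.2.2.2.1 rf3h47.2.2.2.2.2.2.2.1.1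
theorem rf3k96 : CfgOK (rf3c96.e, rf3c96.n) := red_ln rf3h47.2.2.2.2.2.2.1 rf3h47.2.2.2.2.2.2.1.1
theorem rf3k97 : CfgOK (rf3c97.e, rf3c97.n) := red_ln rf3h47.2.2.2.2.2.1 rf3h47.2.2.2.2.2.1.1
theorem rf3k98 : CfgOK (rf3c98.e, rf3c98.n) := red_ln rf3h47.2.2.2.2.1 rf3h47.2.2.2.2.1.1
theorem rf3k99 : CfgOK (rf3c99.e, rf3c99.n) := red_ln rf3h47.2.2.2.1 rf3h47.2.2.2.1.1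
theorem rf3k100 : CfgOK (rf3c100.e, rf3c100.n) := red_ln rf3h47.2.2.1 rf3h47.2.2.1.1
theorem rf3k101 : CfgOK (rf3c101.e, rf3c101.n) := red_ln rf3h47.2.1 ⟨rf3h47.2.1.1, rf3h8.2.2.2.2.2.2.1.1⟩
theorem rf3k102 : CfgOK (rf3c102.e, rf3c102.n) := red_ln rf3h47.1 ⟨rf3h47.1.1, rf3h8.2.2.2.2.2.1.1⟩
theorem rf3k103 : CfgOK (rf3c103.e, rf3c103.n) := red_ln rf3h15.1 ⟨⟨rf3h15.1.1, rf3h4.2.2.2.2.2.2.2.2.2.2.2.2.2.1.1⟩, ⟨rf3h6.2.2.2.2.2.2.2.2.2.2.2.2.2.2.2.2.2.2.2.2.2.2.2.2.1.1, rf3h7.2.2.2.2.2.2.2.2.2.2.2.2.2.2.2.2.2.2.2.2.2.2.2.2.2.1.1⟩⟩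
theorem rf3k104 : CfgOK (rf3c104.e, rf3c104.n) := red_ln rf3h14.2.2.2.2.2.2.2.2.2.2.2.2.2.2.2.2.2.2.2.2.2.2.2.2.2.2.2.2.2.1 ⟨⟨rf3h14.2.2.2.2.2.2.2.2.2.2.2.2.2.2.2.2.2.2.2.2.2.2.2.2.2.2.2.2.2.1.1, rf3h4.2.2.2.2.2.2.2.2.2.2.2.2.1.1⟩, ⟨rf3h6.2.2.2.2.2.2.2.2.2.2.2.2.2.2.2.2.2.2.2.2.2.2.2.1.1, rf3h7.2.2.2.2.2.2.2.2.2.2.2.2.2.2.2.2.2.2.2.2.2.2.2.2.1.1⟩⟩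
theorem rf3k105 : CfgOK (rf3c105.e, rf3c105.n) := red_ln rf3h14.2.2.2.2.2.2.2.2.2.2.2.2.2.2.2.2.2.2.2.2.2.2.2.2.2.2.2.2.1 ⟨⟨rf3h14.2.2.2.2.2.2.2.2.2.2.2.2.2.2.2.2.2.2.2.2.2.2.2.2.2.2.2.2.1.1, rf3h4.2.2.2.2.2.2.2.2.2.2.2.1.1⟩, ⟨rf3h6.2.2.2.1.1, rf3h7.2.2.2.2.2.2.2.2.2.2.2.2.2.1.1⟩⟩
theorem rf3k106 : CfgOK (rf3c106.e, rf3c106.n) := red_ln rf3h14.2.2.2.2.2.2.2.2.2.2.2.2.2.2.2.2.2.2.2.2.2.2.2.2.2.2.2.1 rf3h14.2.2.2.2.2.2.2.2.2.2.2.2.2.2.2.2.2.2.2.2.2.2.2.2.2.2.2.1.1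
theorem rf3k107 : CfgOK (rf3c107.e, rf3c107.n) := red_ln rf3h14.2.2.2.2.2.2.2.2.2.2.2.2.2.2.2.2.2.2.2.2.2.2.2.2.2.2.1 rf3h14.2.2.2.2.2.2.2.2.2.2.2.2.2.2.2.2.2.2.2.2.2.2.2.2.2.2.1.1
theorem rf3k108 : CfgOK (rf3c108.e, rf3c108.n) := red_ln rf3h14.2.2.2.2.2.2.2.2.2.2.2.2.2.2.2.2.2.2.2.2.2.2.2.2.2.1 rf3h14.2.2.2.2.2.2.2.2.2.2.2.2.2.2.2.2.2.2.2.2.2.2.2.2.2.1.1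
theorem rf3k109 : CfgOK (rf3c109.e, rf3c109.n) := red_ln rf3h14.2.2.2.2.2.2.2.2.2.2.2.2.2.2.2.2.2.2.2.2.2.2.2.2.1 rf3h14.2.2.2.2.2.2.2.2.2.2.2.2.2.2.2.2.2.2.2.2.2.2.2.2.1.1
theorem rf3k110 : CfgOK (rf3c110.e, rf3c110.n) := red_ln rf3h14.2.2.2.2.2.2.2.2.2.2.2.2.2.2.2.2.2.2.2.2.2.2.2.1 rf3h14.2.2.2.2.2.2.2.2.2.2.2.2.2.2.2.2.2.2.2.2.2.2.2.1.1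
theorem rf3k111 : CfgOK (rf3c111.e, rf3c111.n) := red_ln rf3h14.2.2.2.2.2.2.2.2.2.2.2.2.2.2.2.2.2.2.2.2.2.2.1 rf3h14.2.2.2.2.2.2.2.2.2.2.2.2.2.2.2.2.2.2.2.2.2.2.1.1
theorem rf3k112 : CfgOK (rf3c112.e, rf3c112.n) := red_ln rf3h14.2.2.2.2.2.2.2.2.2.2.2.2.2.2.2.2.2.2.2.2.2.1 rf3h14.2.2.2.2.2.2.2.2.2.2.2.2.2.2.2.2.2.2.2.2.2.1.1
theorem rf3k113 : CfgOK (rf3c113.e, rf3c113.n) := red_ln rf3h14.2.2.2.2.2.2.2.2.2.2.2.2.2.2.2.2.2.2.2.2.1 rf3h14.2.2.2.2.2.2.2.2.2.2.2.2.2.2.2.2.2.2.2.2.1.1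
theorem rf3k114 : CfgOK (rf3c114.e, rf3c114.n) := red_ln rf3h14.2.2.2.2.2.2.2.2.2.2.2.2.2.2.2.2.2.2.2.1 ⟨⟨rf3h14.2.2.2.2.2.2.2.2.2.2.2.2.2.2.2.2.2.2.2.1.1, rf3h4.2.2.2.2.2.2.2.2.2.2.1.1⟩, ⟨rf3h6.2.2.1.1, rf3h7.2.2.2.2.2.2.2.2.2.2.2.2.1.1⟩⟩
theorem rf3k115 : CfgOK (rf3c115.e, rf3c115.n) := red_ln rf3h14.2.2.2.2.2.2.2.2.2.2.2.2.2.2.2.2.2.2.1 ⟨⟨rf3h14.2.2.2.2.2.2.2.2.2.2.2.2.2.2.2.2.2.2.1.1, rf3h4.2.2.2.2.2.2.2.2.2.1.1⟩, ⟨rf3h6.2.1.1, rf3h7.2.2.2.2.2.2.2.2.2.2.2.1.1⟩⟩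
theorem rf3k116 : CfgOK (rf3c116.e, rf3c116.n) := red_ln rf3h14.2.2.2.2.2.2.2.2.2.2.2.2.2.2.2.2.2.1 ⟨⟨rf3h14.2.2.2.2.2.2.2.2.2.2.2.2.2.2.2.2.2.1.1, rf3h4.2.2.1.1⟩, ⟨rf3h5.2.2.1.1, rf3h7.2.2.2.2.2.2.1.1⟩⟩
theorem rf3k117 : CfgOK (rf3c117.e, rf3c117.n) := red_ln rf3h14.2.2.2.2.2.2.2.2.2.2.2.2.2.2.2.2.1 rf3h14.2.2.2.2.2.2.2.2.2.2.2.2.2.2.2.2.1.1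
theorem rf3k118 : CfgOK (rf3c118.e, rf3c118.n) := red_ln rf3h14.2.2.2.2.2.2.2.2.2.2.2.2.2.2.2.1 rf3h14.2.2.2.2.2.2.2.2.2.2.2.2.2.2.2.1.1
theorem rf3k119 : CfgOK (rf3c119.e, rf3c119.n) := red_ln rf3h14.2.2.2.2.2.2.2.2.2.2.2.2.2.2.1 rf3h14.2.2.2.2.2.2.2.2.2.2.2.2.2.2.1.1
theorem rf3k120 : CfgOK (rf3c120.e, rf3c120.n) := red_ln rf3h14.2.2.2.2.2.2.2.2.2.2.2.2.2.1 rf3h14.2.2.2.2.2.2.2.2.2.2.2.2.2.1.1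
theorem rf3k121 : CfgOK (rf3c121.e, rf3c121.n) := red_ln rf3h14.2.2.2.2.2.2.2.2.2.2.2.2.1 rf3h14.2.2.2.2.2.2.2.2.2.2.2.2.1.1
theorem rf3k122 : CfgOK (rf3c122.e, rf3c122.n) := red_ln rf3h14.2.2.2.2.2.2.2.2.2.2.2.1 rf3h14.2.2.2.2.2.2.2.2.2.2.2.1.1
theorem rf3k123 : CfgOK (rf3c123.e, rf3c123.n) := red_ln rf3h14.2.2.2.2.2.2.2.2.2.2.1 rf3h14.2.2.2.2.2.2.2.2.2.2.1.1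
theorem rf3k124 : CfgOK (rf3c124.e, rf3c124.n) := red_ln rf3h14.2.2.2.2.2.2.2.2.2.1 rf3h14.2.2.2.2.2.2.2.2.2.1.1
theorem rf3k125 : CfgOK (rf3c125.e, rf3c125.n) := red_ln rf3h14.2.2.2.2.2.2.2.2.1 rf3h14.2.2.2.2.2.2.2.2.1.1
theorem rf3k126 : CfgOK (rf3c126.e, rf3c126.n) := red_ln rf3h14.2.2.2.2.2.2.2.1 rf3h14.2.2.2.2.2.2.2.1.1
theorem rf3k127 : CfgOK (rf3c127.e, rf3c127.n) := red_ln rf3h14.2.2.2.2.2.2.1 ⟨⟨rf3h14.2.2.2.2.2.2.1.1, rf3h4.2.2.2.1.1⟩, ⟨rf3h5.2.2.2.2.2.2.2.2.2.2.2.1.1, rf3h7.2.2.2.2.2.1.1⟩⟩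
theorem rf3k128 : CfgOK (rf3c128.e, rf3c128.n) := red_ln rf3h14.2.2.2.2.2.1 ⟨⟨rf3h14.2.2.2.2.2.1.1, rf3h4.2.1.1⟩, ⟨rf3h5.2.2.2.2.2.2.2.2.2.2.1.1, rf3h7.1.1⟩⟩
theorem rf3k129 : CfgOK (rf3c129.e, rf3c129.n) := red_ln rf3h14.2.2.2.2.1 ⟨⟨rf3h14.2.2.2.2.1.1, rf3h4.1.1⟩, ⟨rf3h5.2.1.1, rf3h7.2.2.2.2.1.1⟩⟩
theorem rf3k130 : CfgOK (rf3c130.e, rf3c130.n) := red_ln rf3h14.2.2.2.1 rf3h14.2.2.2.1.1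
theorem rf3k131 : CfgOK (rf3c131.e, rf3c131.n) := red_ln rf3h14.2.2.1 rf3h14.2.2.1.1
theorem rf3k132 : CfgOK (rf3c132.e, rf3c132.n) := red_ln rf3h14.2.1 rf3h14.2.1.1
theorem rf3k133 : CfgOK (rf3c133.e, rf3c133.n) := red_ln rf3h14.1 rf3h14.1.1
theorem rf3k134 : CfgOK (rf3c134.e, rf3c134.n) := red_ln rf3h16.2.2.2.2.2.2.2.2.2.2.2.2.2.2.2.2.2.2.2.2.2.2.2.2.2.2.2.2.1 ⟨⟨rf3h16.2.2.2.2.2.2.2.2.2.2.2.2.2.2.2.2.2.2.2.2.2.2.2.2.2.2.2.2.1.1, rf3h6.2.2.2.2.2.2.2.2.2.2.2.2.2.2.2.2.2.2.2.2.2.2.1.1⟩, ⟨rf3h18.2.2.2.2.2.2.2.2.2.2.2.2.1.1, rf3h19.2.2.2.2.2.2.2.2.2.2.2.2.2.2.2.2.2.2.2.2.2.2.2.2.2.2.2.1.1⟩⟩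
theorem rf3k135 : CfgOK (rf3c135.e, rf3c135.n) := red_ln rf3h16.2.2.2.2.2.2.2.2.2.2.2.2.2.2.2.2.2.2.2.2.2.2.2.2.2.2.2.1 ⟨⟨rf3h16.2.2.2.2.2.2.2.2.2.2.2.2.2.2.2.2.2.2.2.2.2.2.2.2.2.2.2.1.1, rf3h6.2.2.2.2.2.2.2.2.2.2.2.2.2.2.2.2.2.2.2.2.2.1.1⟩, ⟨rf3h18.2.2.2.2.2.2.2.2.2.2.2.1.1, rf3h19.2.2.2.2.2.2.2.2.2.2.2.2.2.2.2.2.2.2.2.2.2.2.2.2.2.2.1.1⟩⟩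
theorem rf3k136 : CfgOK (rf3c136.e, rf3c136.n) := red_ln rf3h16.2.2.2.2.2.2.2.2.2.2.2.2.2.2.2.2.2.2.2.2.2.2.2.2.2.2.1 ⟨⟨rf3h16.2.2.2.2.2.2.2.2.2.2.2.2.2.2.2.2.2.2.2.2.2.2.2.2.2.2.1.1, rf3h6.2.2.2.2.2.2.2.2.2.2.2.2.2.2.2.2.2.2.2.2.1.1⟩, ⟨rf3h18.2.2.2.2.2.2.2.2.2.2.1.1, rf3h19.2.2.2.2.2.2.2.2.2.2.2.2.2.2.2.2.2.2.2.2.2.2.2.2.2.1.1⟩⟩
theorem rf3k137 : CfgOK (rf3c137.e, rf3c137.n) := red_ln rf3h16.2.2.2.2.2.2.2.2.2.2.2.2.2.2.2.2.2.2.2.2.2.2.2.2.2.1 ⟨⟨rf3h16.2.2.2.2.2.2.2.2.2.2.2.2.2.2.2.2.2.2.2.2.2.2.2.2.2.1.1, rf3h6.2.2.2.2.2.2.2.2.2.2.2.2.2.2.2.2.2.2.2.1.1⟩, ⟨rf3h18.2.2.2.2.2.1.1, rf3h19.2.2.2.2.2.2.2.2.2.2.2.2.2.2.2.2.2.2.2.2.2.2.1.1⟩⟩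
theorem rf3k138 : CfgOK (rf3c138.e, rf3c138.n) := red_ln rf3h16.2.2.2.2.2.2.2.2.2.2.2.2.2.2.2.2.2.2.2.2.2.2.2.2.1 ⟨⟨rf3h16.2.2.2.2.2.2.2.2.2.2.2.2.2.2.2.2.2.2.2.2.2.2.2.2.1.1, rf3h6.2.2.2.2.2.2.2.2.2.2.2.2.2.2.2.2.2.2.1.1⟩, ⟨rf3h17.2.2.2.2.2.2.2.2.2.2.2.2.2.2.2.2.2.2.2.2.2.2.1.1, rf3h19.2.2.2.2.1.1⟩⟩
theorem rf3k139 : CfgOK (rf3c139.e, rf3c139.n) := red_ln rf3h16.2.2.2.2.2.2.2.2.2.2.2.2.2.2.2.2.2.2.2.2.2.2.2.1 rf3h16.2.2.2.2.2.2.2.2.2.2.2.2.2.2.2.2.2.2.2.2.2.2.2.1.1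
theorem rf3k140 : CfgOK (rf3c140.e, rf3c140.n) := red_ln rf3h16.2.2.2.2.2.2.2.2.2.2.2.2.2.2.2.2.2.2.2.2.2.2.1 rf3h16.2.2.2.2.2.2.2.2.2.2.2.2.2.2.2.2.2.2.2.2.2.2.1.1
theorem rf3k141 : CfgOK (rf3c141.e, rf3c141.n) := red_ln rf3h16.2.2.2.2.2.2.2.2.2.2.2.2.2.2.2.2.2.2.2.2.2.1 ⟨⟨rf3h16.2.2.2.2.2.2.2.2.2.2.2.2.2.2.2.2.2.2.2.2.2.1.1, rf3h6.2.2.2.2.2.2.2.2.2.2.2.2.2.2.2.2.2.1.1⟩, ⟨rf3h17.2.2.2.2.2.2.2.2.2.2.2.2.2.2.2.2.2.2.2.2.2.1.1, rf3h19.2.2.2.2.2.2.2.2.2.2.2.2.2.2.1.1⟩⟩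
theorem rf3k142 : CfgOK (rf3c142.e, rf3c142.n) := red_ln rf3h16.2.2.2.2.2.2.2.2.2.2.2.2.2.2.2.2.2.2.2.2.1 ⟨rf3h16.2.2.2.2.2.2.2.2.2.2.2.2.2.2.2.2.2.2.2.2.1.1, rf3h6.1.1⟩
theorem rf3k143 : CfgOK (rf3c143.e, rf3c143.n) := red_ln rf3h16.2.2.2.2.2.2.2.2.2.2.2.2.2.2.2.2.2.2.2.1 ⟨⟨⟨rf3h16.2.2.2.2.2.2.2.2.2.2.2.2.2.2.2.2.2.2.2.1.1, rf3h5.2.2.2.2.2.2.2.2.2.2.2.2.2.2.2.2.2.2.2.2.2.2.2.2.2.2.2.2.2.1.1⟩, ⟨rf3h8.2.2.2.2.1.1, rf3h9.2.1.1⟩⟩, ⟨⟨rf3h17.2.2.2.2.2.2.2.2.2.2.2.2.2.2.2.2.2.2.2.2.1.1, rf3h19.2.2.2.2.2.2.2.2.2.2.2.2.2.1.1⟩, ⟨rf3h10.2.2.1.1, rf3h11.2.1.1⟩⟩⟩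
theorem rf3k144 : CfgOK (rf3c144.e, rf3c144.n) := red_ln rf3h16.2.2.2.2.2.2.2.2.2.2.2.2.2.2.2.2.2.2.1 ⟨⟨rf3h16.2.2.2.2.2.2.2.2.2.2.2.2.2.2.2.2.2.2.1.1, rf3h5.2.2.2.2.2.2.2.2.2.2.2.2.2.2.2.2.2.2.2.2.2.2.2.2.2.2.2.2.1.1⟩, ⟨rf3h18.2.2.2.2.1.1, rf3h19.2.2.2.2.2.2.2.2.2.2.2.2.2.2.2.2.2.2.2.2.2.1.1⟩⟩
theorem rf3k145 : CfgOK (rf3c145.e, rf3c145.n) := red_ln rf3h16.2.2.2.2.2.2.2.2.2.2.2.2.2.2.2.2.2.1 ⟨⟨rf3h16.2.2.2.2.2.2.2.2.2.2.2.2.2.2.2.2.2.1.1, rf3h5.2.2.2.2.2.2.2.2.2.2.2.2.2.2.2.2.2.2.2.2.2.2.2.2.2.2.2.1.1⟩, ⟨rf3h18.2.2.2.1.1, rf3h19.2.2.2.2.2.2.2.2.2.2.2.2.1.1⟩⟩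
theorem rf3k146 : CfgOK (rf3c146.e, rf3c146.n) := red_ln rf3h16.2.2.2.2.2.2.2.2.2.2.2.2.2.2.2.2.1 ⟨⟨rf3h16.2.2.2.2.2.2.2.2.2.2.2.2.2.2.2.2.1.1, rf3h5.2.2.2.2.2.2.2.2.2.2.2.2.2.2.2.2.2.2.2.2.2.2.2.2.2.2.1.1⟩, ⟨rf3h18.2.2.1.1, rf3h19.2.2.2.2.2.2.2.2.2.2.2.1.1⟩⟩
theorem rf3k147 : CfgOK (rf3c147.e, rf3c147.n) := red_ln rf3h16.2.2.2.2.2.2.2.2.2.2.2.2.2.2.2.1 ⟨⟨rf3h16.2.2.2.2.2.2.2.2.2.2.2.2.2.2.2.1.1, rf3h5.2.2.2.2.2.2.2.2.2.2.2.2.2.2.2.2.2.2.2.2.2.2.2.2.2.1.1⟩, ⟨rf3h18.2.1.1, rf3h19.1.1⟩⟩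
theorem rf3k148 : CfgOK (rf3c148.e, rf3c148.n) := red_ln rf3h16.2.2.2.2.2.2.2.2.2.2.2.2.2.2.1 ⟨⟨rf3h16.2.2.2.2.2.2.2.2.2.2.2.2.2.2.1.1, rf3h5.2.2.2.2.2.2.2.2.2.2.2.2.2.2.2.2.2.2.2.2.2.2.2.2.1.1⟩, ⟨rf3h17.2.2.2.2.2.2.2.2.2.2.2.2.2.2.2.2.2.2.2.1.1, rf3h19.2.2.2.2.2.2.2.2.2.2.2.2.2.2.2.2.2.2.2.2.1.1⟩⟩
theorem rf3k149 : CfgOK (rf3c149.e, rf3c149.n) := red_ln rf3h16.2.2.2.2.2.2.2.2.2.2.2.2.2.1 ⟨⟨rf3h16.2.2.2.2.2.2.2.2.2.2.2.2.2.1.1, rf3h5.2.2.2.2.2.2.2.2.2.2.2.2.2.2.2.2.2.2.2.2.2.2.2.1.1⟩, ⟨rf3h17.2.2.2.2.2.2.2.2.2.2.2.2.2.2.2.2.2.2.1.1, rf3h19.2.2.2.2.2.2.2.2.2.2.1.1⟩⟩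
theorem rf3k150 : CfgOK (rf3c150.e, rf3c150.n) := red_ln rf3h16.2.2.2.2.2.2.2.2.2.2.2.2.1 ⟨⟨rf3h16.2.2.2.2.2.2.2.2.2.2.2.2.1.1, rf3h5.2.2.2.2.2.2.2.2.2.2.2.2.2.2.2.2.2.2.2.2.2.2.1.1⟩, ⟨rf3h17.2.2.2.2.2.2.2.2.2.2.2.2.2.2.2.2.2.1.1, rf3h19.2.2.2.2.2.2.2.2.2.1.1⟩⟩
theorem rf3k151 : CfgOK (rf3c151.e, rf3c151.n) := red_ln rf3h16.2.2.2.2.2.2.2.2.2.2.2.1 ⟨⟨rf3h16.2.2.2.2.2.2.2.2.2.2.2.1.1, rf3h5.2.2.2.2.2.2.2.2.2.2.2.2.2.2.2.2.2.2.2.2.2.1.1⟩, ⟨rf3h17.2.2.2.2.2.2.2.2.2.2.2.2.2.2.2.2.1.1, rf3h19.2.2.2.2.2.2.2.2.1.1⟩⟩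
theorem rf3k152 : CfgOK (rf3c152.e, rf3c152.n) := red_ln rf3h16.2.2.2.2.2.2.2.2.2.2.1 ⟨⟨rf3h16.2.2.2.2.2.2.2.2.2.2.1.1, rf3h5.2.2.2.2.2.2.2.2.2.2.2.2.2.2.2.2.2.2.2.2.1.1⟩, ⟨rf3h17.2.2.2.2.2.2.2.2.2.2.2.2.2.2.2.1.1, rf3h19.2.2.2.1.1⟩⟩
theorem rf3k153 : CfgOK (rf3c153.e, rf3c153.n) := red_ln rf3h16.2.2.2.2.2.2.2.2.2.1 ⟨rf3h16.2.2.2.2.2.2.2.2.2.1.1, rf3h17.2.2.2.2.2.2.2.2.2.2.2.2.2.2.1.1⟩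
theorem rf3k154 : CfgOK (rf3c154.e, rf3c154.n) := red_ln rf3h16.2.2.2.2.2.2.2.2.1 rf3h16.2.2.2.2.2.2.2.2.1.1
theorem rf3k155 : CfgOK (rf3c155.e, rf3c155.n) := red_ln rf3h16.2.2.2.2.2.2.2.1 rf3h16.2.2.2.2.2.2.2.1.1
theorem rf3k156 : CfgOK (rf3c156.e, rf3c156.n) := red_ln rf3h16.2.2.2.2.2.2.1 rf3h16.2.2.2.2.2.2.1.1
theorem rf3k157 : CfgOK (rf3c157.e, rf3c157.n) := red_ln rf3h16.2.2.2.2.2.1 rf3h16.2.2.2.2.2.1.1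
theorem rf3k158 : CfgOK (rf3c158.e, rf3c158.n) := red_ln rf3h16.2.2.2.2.1 rf3h16.2.2.2.2.1.1
theorem rf3k159 : CfgOK (rf3c159.e, rf3c159.n) := red_ln rf3h16.2.2.2.1 rf3h16.2.2.2.1.1
theorem rf3k160 : CfgOK (rf3c160.e, rf3c160.n) := red_ln rf3h16.2.2.1 ⟨rf3h16.2.2.1.1, rf3h8.2.2.2.1.1⟩
theorem rf3k161 : CfgOK (rf3c161.e, rf3c161.n) := red_ln rf3h16.2.1 rf3h16.2.1.1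
theorem rf3k162 : CfgOK (rf3c162.e, rf3c162.n) := red_ln rf3h16.1 rf3h16.1.1
theorem rf3k163 : CfgOK (rf3c163.e, rf3c163.n) := red_ln rf3h21.1 ⟨⟨⟨rf3h21.1.1, rf3h6.2.2.2.2.2.2.2.2.2.2.2.2.2.2.2.2.1.1⟩, ⟨rf3h17.2.2.2.2.2.2.2.2.2.2.2.2.2.1.1, rf3h19.2.2.2.2.2.2.2.1.1⟩⟩, ⟨⟨rf3h18.2.2.2.2.2.2.2.2.2.1.1, rf3h19.2.2.2.2.2.2.2.2.2.2.2.2.2.2.2.2.2.2.2.2.2.2.2.2.1.1⟩, ⟨rf3h22.2.2.2.2.2.2.2.2.2.2.2.1.1, rf3h24.1.1⟩⟩⟩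
theorem rf3k164 : CfgOK (rf3c164.e, rf3c164.n) := red_ln rf3h20.2.2.2.2.2.2.2.2.2.2.2.2.2.2.2.2.2.2.2.2.2.2.2.2.2.2.2.2.2.1 ⟨⟨⟨rf3h20.2.2.2.2.2.2.2.2.2.2.2.2.2.2.2.2.2.2.2.2.2.2.2.2.2.2.2.2.2.1.1, rf3h6.2.2.2.2.2.2.2.2.2.2.2.2.2.2.2.1.1⟩, ⟨rf3h8.2.2.1.1, rf3h9.1.1⟩⟩, ⟨⟨rf3h17.2.2.2.2.2.2.2.2.2.2.2.2.1.1, rf3h19.2.2.2.2.2.2.1.1⟩, ⟨rf3h10.2.1.1, rf3h11.1.1⟩⟩⟩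
theorem rf3k165 : CfgOK (rf3c165.e, rf3c165.n) := red_ln rf3h20.2.2.2.2.2.2.2.2.2.2.2.2.2.2.2.2.2.2.2.2.2.2.2.2.2.2.2.2.1 ⟨⟨rf3h20.2.2.2.2.2.2.2.2.2.2.2.2.2.2.2.2.2.2.2.2.2.2.2.2.2.2.2.2.1.1, rf3h5.2.2.2.2.2.2.2.2.2.1.1⟩, ⟨rf3h18.1.1, rf3h19.2.2.2.2.2.2.2.2.2.2.2.2.2.2.2.2.2.2.2.1.1⟩⟩
theorem rf3k166 : CfgOK (rf3c166.e, rf3c166.n) := red_ln rf3h20.2.2.2.2.2.2.2.2.2.2.2.2.2.2.2.2.2.2.2.2.2.2.2.2.2.2.2.1 ⟨⟨rf3h20.2.2.2.2.2.2.2.2.2.2.2.2.2.2.2.2.2.2.2.2.2.2.2.2.2.2.2.1.1, rf3h5.2.2.2.2.2.2.2.2.1.1⟩, ⟨rf3h17.2.2.2.2.2.2.2.2.2.2.2.2.2.2.2.2.2.2.2.2.2.2.2.2.2.2.2.2.2.1.1, rf3h19.2.2.2.2.2.2.2.2.2.2.2.2.2.2.2.2.2.2.1.1⟩⟩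
theorem rf3k167 : CfgOK (rf3c167.e, rf3c167.n) := red_ln rf3h20.2.2.2.2.2.2.2.2.2.2.2.2.2.2.2.2.2.2.2.2.2.2.2.2.2.2.1 ⟨⟨rf3h20.2.2.2.2.2.2.2.2.2.2.2.2.2.2.2.2.2.2.2.2.2.2.2.2.2.2.1.1, rf3h5.2.2.2.2.2.2.2.1.1⟩, ⟨rf3h17.2.2.2.2.2.2.2.2.2.2.2.2.2.2.2.2.2.2.2.2.2.2.2.2.2.2.2.2.1.1, rf3h19.2.2.2.2.2.2.2.2.2.2.2.2.2.2.2.2.2.1.1⟩⟩
theorem rf3k168 : CfgOK (rf3c168.e, rf3c168.n) := red_ln rf3h20.2.2.2.2.2.2.2.2.2.2.2.2.2.2.2.2.2.2.2.2.2.2.2.2.2.1 rf3h20.2.2.2.2.2.2.2.2.2.2.2.2.2.2.2.2.2.2.2.2.2.2.2.2.2.1.1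
theorem rf3k169 : CfgOK (rf3c169.e, rf3c169.n) := red_ln rf3h20.2.2.2.2.2.2.2.2.2.2.2.2.2.2.2.2.2.2.2.2.2.2.2.2.1 rf3h20.2.2.2.2.2.2.2.2.2.2.2.2.2.2.2.2.2.2.2.2.2.2.2.2.1.1
theorem rf3k170 : CfgOK (rf3c170.e, rf3c170.n) := red_ln rf3h20.2.2.2.2.2.2.2.2.2.2.2.2.2.2.2.2.2.2.2.2.2.2.2.1 rf3h20.2.2.2.2.2.2.2.2.2.2.2.2.2.2.2.2.2.2.2.2.2.2.2.1.1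
theorem rf3k171 : CfgOK (rf3c171.e, rf3c171.n) := red_ln rf3h20.2.2.2.2.2.2.2.2.2.2.2.2.2.2.2.2.2.2.2.2.2.2.1 rf3h20.2.2.2.2.2.2.2.2.2.2.2.2.2.2.2.2.2.2.2.2.2.2.1.1
theorem rf3k172 : CfgOK (rf3c172.e, rf3c172.n) := red_ln rf3h20.2.2.2.2.2.2.2.2.2.2.2.2.2.2.2.2.2.2.2.2.2.1 rf3h20.2.2.2.2.2.2.2.2.2.2.2.2.2.2.2.2.2.2.2.2.2.1.1
theorem rf3k173 : CfgOK (rf3c173.e, rf3c173.n) := red_ln rf3h20.2.2.2.2.2.2.2.2.2.2.2.2.2.2.2.2.2.2.2.2.1 rf3h20.2.2.2.2.2.2.2.2.2.2.2.2.2.2.2.2.2.2.2.2.1.1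
theorem rf3k174 : CfgOK (rf3c174.e, rf3c174.n) := red_ln rf3h20.2.2.2.2.2.2.2.2.2.2.2.2.2.2.2.2.2.2.2.1 rf3h20.2.2.2.2.2.2.2.2.2.2.2.2.2.2.2.2.2.2.2.1.1
theorem rf3k175 : CfgOK (rf3c175.e, rf3c175.n) := red_ln rf3h20.2.2.2.2.2.2.2.2.2.2.2.2.2.2.2.2.2.2.1 rf3h20.2.2.2.2.2.2.2.2.2.2.2.2.2.2.2.2.2.2.1.1
theorem rf3k176 : CfgOK (rf3c176.e, rf3c176.n) := red_ln rf3h20.2.2.2.2.2.2.2.2.2.2.2.2.2.2.2.2.2.1 ⟨⟨rf3h20.2.2.2.2.2.2.2.2.2.2.2.2.2.2.2.2.2.1.1, rf3h5.2.2.2.2.2.2.2.2.2.2.2.2.2.2.2.2.2.2.2.1.1⟩, ⟨rf3h18.2.2.2.2.2.2.2.2.1.1, rf3h19.2.2.2.2.2.2.2.2.2.2.2.2.2.2.2.2.2.2.2.2.2.2.2.1.1⟩⟩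
theorem rf3k177 : CfgOK (rf3c177.e, rf3c177.n) := red_ln rf3h20.2.2.2.2.2.2.2.2.2.2.2.2.2.2.2.2.1 ⟨⟨rf3h20.2.2.2.2.2.2.2.2.2.2.2.2.2.2.2.2.1.1, rf3h5.2.2.2.2.2.2.2.2.2.2.2.2.2.2.2.2.2.2.1.1⟩, ⟨rf3h17.2.2.2.2.2.2.2.2.2.2.2.1.1, rf3h19.2.2.2.2.2.2.2.2.2.2.2.2.2.2.2.2.1.1⟩⟩
theorem rf3k178 : CfgOK (rf3c178.e, rf3c178.n) := red_ln rf3h20.2.2.2.2.2.2.2.2.2.2.2.2.2.2.2.1 ⟨⟨rf3h20.2.2.2.2.2.2.2.2.2.2.2.2.2.2.2.1.1, rf3h5.2.2.2.2.2.2.2.2.2.2.2.2.2.2.2.2.2.1.1⟩, ⟨rf3h17.2.2.2.2.2.2.2.2.2.2.1.1, rf3h19.2.2.1.1⟩⟩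
theorem rf3k179 : CfgOK (rf3c179.e, rf3c179.n) := red_ln rf3h20.2.2.2.2.2.2.2.2.2.2.2.2.2.2.1 ⟨⟨rf3h20.2.2.2.2.2.2.2.2.2.2.2.2.2.2.1.1, rf3h5.2.2.2.2.2.2.1.1⟩, ⟨rf3h17.2.2.2.2.2.2.2.2.2.2.2.2.2.2.2.2.2.2.2.2.2.2.2.2.2.2.2.1.1, rf3h19.2.2.2.2.2.2.2.2.2.2.2.2.2.2.2.1.1⟩⟩
theorem rf3k180 : CfgOK (rf3c180.e, rf3c180.n) := red_ln rf3h20.2.2.2.2.2.2.2.2.2.2.2.2.2.1 ⟨⟨rf3h20.2.2.2.2.2.2.2.2.2.2.2.2.2.1.1, rf3h5.2.2.2.2.2.1.1⟩, ⟨rf3h17.2.2.2.2.2.2.2.2.2.1.1, rf3h19.2.1.1⟩⟩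
theorem rf3k181 : CfgOK (rf3c181.e, rf3c181.n) := red_ln rf3h20.2.2.2.2.2.2.2.2.2.2.2.2.1 ⟨⟨rf3h20.2.2.2.2.2.2.2.2.2.2.2.2.1.1, rf3h5.2.2.2.2.1.1⟩, ⟨rf3h17.2.2.2.2.1.1, rf3h19.2.2.2.2.2.1.1⟩⟩
theorem rf3k182 : CfgOK (rf3c182.e, rf3c182.n) := red_ln rf3h20.2.2.2.2.2.2.2.2.2.2.2.1 rf3h20.2.2.2.2.2.2.2.2.2.2.2.1.1
theorem rf3k183 : CfgOK (rf3c183.e, rf3c183.n) := red_ln rf3h20.2.2.2.2.2.2.2.2.2.2.1 rf3h20.2.2.2.2.2.2.2.2.2.2.1.1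
theorem rf3k184 : CfgOK (rf3c184.e, rf3c184.n) := red_ln rf3h20.2.2.2.2.2.2.2.2.2.1 rf3h20.2.2.2.2.2.2.2.2.2.1.1
theorem rf3k185 : CfgOK (rf3c185.e, rf3c185.n) := red_ln rf3h20.2.2.2.2.2.2.2.2.1 rf3h20.2.2.2.2.2.2.2.2.1.1
theorem rf3k186 : CfgOK (rf3c186.e, rf3c186.n) := red_ln rf3h20.2.2.2.2.2.2.2.1 rf3h20.2.2.2.2.2.2.2.1.1
theorem rf3k187 : CfgOK (rf3c187.e, rf3c187.n) := red_ln rf3h20.2.2.2.2.2.2.1 rf3h20.2.2.2.2.2.2.1.1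
theorem rf3k188 : CfgOK (rf3c188.e, rf3c188.n) := red_ln rf3h20.2.2.2.2.2.1 rf3h20.2.2.2.2.2.1.1
theorem rf3k189 : CfgOK (rf3c189.e, rf3c189.n) := red_ln rf3h20.2.2.2.2.1 rf3h20.2.2.2.2.1.1
theorem rf3k190 : CfgOK (rf3c190.e, rf3c190.n) := red_ln rf3h20.2.2.2.1 rf3h20.2.2.2.1.1
theorem rf3k191 : CfgOK (rf3c191.e, rf3c191.n) := red_ln rf3h20.2.2.1 ⟨rf3h20.2.2.1.1, rf3h8.2.1.1⟩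
theorem rf3k192 : CfgOK (rf3c192.e, rf3c192.n) := red_ln rf3h20.2.1 ⟨rf3h20.2.1.1, rf3h25.2.2.2.2.2.2.2.2.2.2.2.2.2.1.1⟩
theorem rf3k193 : CfgOK (rf3c193.e, rf3c193.n) := red_ln rf3h20.1 ⟨rf3h20.1.1, rf3h8.1.1⟩
theorem rf3k194 : CfgOK (rf3c194.e, rf3c194.n) := red_ln rf3h26.2.2.2.2.1 ⟨⟨rf3h26.2.2.2.2.1.1, rf3h18.2.2.2.2.2.2.2.1.1⟩, ⟨rf3h27.2.2.2.2.2.2.2.2.2.1.1, rf3h22.2.2.2.2.2.2.2.2.1.1⟩⟩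
theorem rf3k195 : CfgOK (rf3c195.e, rf3c195.n) := red_ln rf3h26.2.2.2.1 ⟨⟨rf3h26.2.2.2.1.1, rf3h18.2.2.2.2.2.2.1.1⟩, ⟨rf3h27.2.2.2.2.2.2.2.2.1.1, rf3h22.2.2.2.2.2.2.2.1.1⟩⟩
theorem rf3k196 : CfgOK (rf3c196.e, rf3c196.n) := red_ln rf3h26.2.2.1 rf3h26.2.2.1.1
theorem rf3k197 : CfgOK (rf3c197.e, rf3c197.n) := red_ln rf3h26.2.1 rf3h26.2.1.1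
theorem rf3k198 : CfgOK (rf3c198.e, rf3c198.n) := red_ln rf3h26.1 ⟨rf3h26.1.1, rf3h25.2.2.2.2.2.2.2.2.2.2.2.2.1.1⟩
theorem rf3k199 : CfgOK (rf3c199.e, rf3c199.n) := red_ln rf3h29.2.2.2.2.2.2.2.2.2.1 rf3h29.2.2.2.2.2.2.2.2.2.1.1
theorem rf3k200 : CfgOK (rf3c200.e, rf3c200.n) := red_ln rf3h29.2.2.2.2.2.2.2.2.1 ⟨⟨rf3h29.2.2.2.2.2.2.2.2.1.1, rf3h17.2.2.2.2.2.2.2.2.2.2.2.2.2.2.2.2.2.2.2.2.2.2.2.2.2.2.1.1⟩, ⟨rf3h27.2.2.2.2.2.2.2.2.2.2.2.2.2.2.2.2.1.1, rf3h22.2.2.2.2.2.2.2.2.2.2.1.1⟩⟩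
theorem rf3k201 : CfgOK (rf3c201.e, rf3c201.n) := red_ln rf3h29.2.2.2.2.2.2.2.1 ⟨⟨rf3h29.2.2.2.2.2.2.2.1.1, rf3h17.2.2.2.2.2.2.2.2.2.2.2.2.2.2.2.2.2.2.2.2.2.2.2.2.2.1.1⟩, ⟨rf3h27.2.2.2.2.2.2.2.2.2.2.2.2.2.2.2.1.1, rf3h22.2.2.2.2.2.2.2.2.2.1.1⟩⟩
theorem rf3k202 : CfgOK (rf3c202.e, rf3c202.n) := red_ln rf3h29.2.2.2.2.2.2.1 rf3h29.2.2.2.2.2.2.1.1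
theorem rf3k203 : CfgOK (rf3c203.e, rf3c203.n) := red_ln rf3h29.2.2.2.2.2.1 rf3h29.2.2.2.2.2.1.1
theorem rf3k204 : CfgOK (rf3c204.e, rf3c204.n) := red_ln rf3h29.2.2.2.2.1 ⟨rf3h29.2.2.2.2.1.1, rf3h25.2.2.2.2.2.2.2.2.2.2.2.1.1⟩
theorem rf3k205 : CfgOK (rf3c205.e, rf3c205.n) := red_ln rf3h29.2.2.2.1 ⟨⟨rf3h29.2.2.2.1.1, rf3h17.2.2.2.2.2.2.2.2.2.2.2.2.2.2.2.2.2.2.2.2.2.2.2.2.1.1⟩, ⟨rf3h27.2.2.2.2.2.2.2.1.1, rf3h22.2.2.2.2.2.2.1.1⟩⟩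
theorem rf3k206 : CfgOK (rf3c206.e, rf3c206.n) := red_ln rf3h29.2.2.1 ⟨⟨rf3h29.2.2.1.1, rf3h17.2.2.2.2.2.2.2.2.2.2.2.2.2.2.2.2.2.2.2.2.2.2.2.1.1⟩, ⟨rf3h27.2.2.2.2.2.2.1.1, rf3h22.2.1.1⟩⟩
theorem rf3k207 : CfgOK (rf3c207.e, rf3c207.n) := red_ln rf3h29.2.1 ⟨⟨rf3h29.2.1.1, rf3h17.2.2.2.2.2.2.2.2.1.1⟩, ⟨rf3h27.2.2.2.2.2.1.1, rf3h22.2.2.2.2.2.1.1⟩⟩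
theorem rf3k208 : CfgOK (rf3c208.e, rf3c208.n) := red_ln rf3h29.1 ⟨⟨rf3h29.1.1, rf3h17.2.2.2.2.2.2.2.1.1⟩, ⟨rf3h27.2.2.2.2.1.1, rf3h22.2.2.2.2.1.1⟩⟩
theorem rf3k209 : CfgOK (rf3c209.e, rf3c209.n) := red_ln rf3h28.2.2.2.2.2.2.2.2.2.2.2.2.2.2.2.2.2.2.2.2.2.2.2.2.2.2.2.2.2.1 ⟨⟨rf3h28.2.2.2.2.2.2.2.2.2.2.2.2.2.2.2.2.2.2.2.2.2.2.2.2.2.2.2.2.2.1.1, rf3h17.2.2.2.2.2.2.1.1⟩, ⟨rf3h27.2.2.2.1.1, rf3h22.2.2.2.1.1⟩⟩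
theorem rf3k210 : CfgOK (rf3c210.e, rf3c210.n) := red_ln rf3h28.2.2.2.2.2.2.2.2.2.2.2.2.2.2.2.2.2.2.2.2.2.2.2.2.2.2.2.2.1 ⟨⟨⟨rf3h28.2.2.2.2.2.2.2.2.2.2.2.2.2.2.2.2.2.2.2.2.2.2.2.2.2.2.2.2.1.1, rf3h17.2.2.2.1.1⟩, ⟨rf3h25.2.2.2.2.2.2.2.2.2.2.1.1, rf3h10.1.1⟩⟩, ⟨⟨rf3h27.2.2.1.1, rf3h22.2.2.1.1⟩, ⟨rf3h30.1.1, rf3h31.1.1⟩⟩⟩
theorem rf3k211 : CfgOK (rf3c211.e, rf3c211.n) := red_ln rf3h28.2.2.2.2.2.2.2.2.2.2.2.2.2.2.2.2.2.2.2.2.2.2.2.2.2.2.2.1 ⟨rf3h28.2.2.2.2.2.2.2.2.2.2.2.2.2.2.2.2.2.2.2.2.2.2.2.2.2.2.2.1.1, rf3h17.2.1.1⟩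
theorem rf3k212 : CfgOK (rf3c212.e, rf3c212.n) := red_ln rf3h28.2.2.2.2.2.2.2.2.2.2.2.2.2.2.2.2.2.2.2.2.2.2.2.2.2.2.1 rf3h28.2.2.2.2.2.2.2.2.2.2.2.2.2.2.2.2.2.2.2.2.2.2.2.2.2.2.1.1
theorem rf3k213 : CfgOK (rf3c213.e, rf3c213.n) := red_ln rf3h28.2.2.2.2.2.2.2.2.2.2.2.2.2.2.2.2.2.2.2.2.2.2.2.2.2.1 ⟨⟨rf3h28.2.2.2.2.2.2.2.2.2.2.2.2.2.2.2.2.2.2.2.2.2.2.2.2.2.1.1, rf3h17.2.2.2.2.2.1.1⟩, ⟨rf3h27.1.1, rf3h22.1.1⟩⟩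
theorem rf3k214 : CfgOK (rf3c214.e, rf3c214.n) := red_ln rf3h28.2.2.2.2.2.2.2.2.2.2.2.2.2.2.2.2.2.2.2.2.2.2.2.2.1 ⟨rf3h28.2.2.2.2.2.2.2.2.2.2.2.2.2.2.2.2.2.2.2.2.2.2.2.2.1.1, rf3h17.2.2.1.1⟩
theorem rf3k215 : CfgOK (rf3c215.e, rf3c215.n) := red_ln rf3h28.2.2.2.2.2.2.2.2.2.2.2.2.2.2.2.2.2.2.2.2.2.2.2.1 rf3h28.2.2.2.2.2.2.2.2.2.2.2.2.2.2.2.2.2.2.2.2.2.2.2.1.1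
theorem rf3k216 : CfgOK (rf3c216.e, rf3c216.n) := red_ln rf3h28.2.2.2.2.2.2.2.2.2.2.2.2.2.2.2.2.2.2.2.2.2.2.1 rf3h28.2.2.2.2.2.2.2.2.2.2.2.2.2.2.2.2.2.2.2.2.2.2.1.1
theorem rf3k217 : CfgOK (rf3c217.e, rf3c217.n) := red_ln rf3h28.2.2.2.2.2.2.2.2.2.2.2.2.2.2.2.2.2.2.2.2.2.1 rf3h28.2.2.2.2.2.2.2.2.2.2.2.2.2.2.2.2.2.2.2.2.2.1.1
theorem rf3k218 : CfgOK (rf3c218.e, rf3c218.n) := red_ln rf3h28.2.2.2.2.2.2.2.2.2.2.2.2.2.2.2.2.2.2.2.2.1 rf3h28.2.2.2.2.2.2.2.2.2.2.2.2.2.2.2.2.2.2.2.2.1.1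
theorem rf3k219 : CfgOK (rf3c219.e, rf3c219.n) := red_ln rf3h28.2.2.2.2.2.2.2.2.2.2.2.2.2.2.2.2.2.2.2.1 rf3h28.2.2.2.2.2.2.2.2.2.2.2.2.2.2.2.2.2.2.2.1.1
theorem rf3k220 : CfgOK (rf3c220.e, rf3c220.n) := red_ln rf3h28.2.2.2.2.2.2.2.2.2.2.2.2.2.2.2.2.2.2.1 rf3h28.2.2.2.2.2.2.2.2.2.2.2.2.2.2.2.2.2.2.1.1
theorem rf3k221 : CfgOK (rf3c221.e, rf3c221.n) := red_ln rf3h28.2.2.2.2.2.2.2.2.2.2.2.2.2.2.2.2.2.1 rf3h28.2.2.2.2.2.2.2.2.2.2.2.2.2.2.2.2.2.1.1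
theorem rf3k222 : CfgOK (rf3c222.e, rf3c222.n) := red_ln rf3h28.2.2.2.2.2.2.2.2.2.2.2.2.2.2.2.2.1 rf3h28.2.2.2.2.2.2.2.2.2.2.2.2.2.2.2.2.1.1
theorem rf3k223 : CfgOK (rf3c223.e, rf3c223.n) := red_ln rf3h28.2.2.2.2.2.2.2.2.2.2.2.2.2.2.2.1 rf3h28.2.2.2.2.2.2.2.2.2.2.2.2.2.2.2.1.1
theorem rf3k224 : CfgOK (rf3c224.e, rf3c224.n) := red_ln rf3h28.2.2.2.2.2.2.2.2.2.2.2.2.2.2.1 rf3h28.2.2.2.2.2.2.2.2.2.2.2.2.2.2.1.1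
theorem rf3k225 : CfgOK (rf3c225.e, rf3c225.n) := red_ln rf3h28.2.2.2.2.2.2.2.2.2.2.2.2.2.1 ⟨rf3h28.2.2.2.2.2.2.2.2.2.2.2.2.2.1.1, rf3h25.2.2.2.2.2.2.2.2.2.1.1⟩
theorem rf3k226 : CfgOK (rf3c226.e, rf3c226.n) := red_ln rf3h28.2.2.2.2.2.2.2.2.2.2.2.2.1 ⟨rf3h28.2.2.2.2.2.2.2.2.2.2.2.2.1.1, rf3h25.2.2.2.2.2.2.2.2.1.1⟩
theorem rf3k227 : CfgOK (rf3c227.e, rf3c227.n) := red_ln rf3h28.2.2.2.2.2.2.2.2.2.2.2.1 ⟨rf3h28.2.2.2.2.2.2.2.2.2.2.2.1.1, rf3h25.2.2.2.2.2.2.2.1.1⟩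
theorem rf3k228 : CfgOK (rf3c228.e, rf3c228.n) := red_ln rf3h28.2.2.2.2.2.2.2.2.2.2.1 rf3h28.2.2.2.2.2.2.2.2.2.2.1.1
theorem rf3k229 : CfgOK (rf3c229.e, rf3c229.n) := red_ln rf3h28.2.2.2.2.2.2.2.2.2.1 ⟨rf3h28.2.2.2.2.2.2.2.2.2.1.1, rf3h25.2.2.2.2.2.2.1.1⟩
theorem rf3k230 : CfgOK (rf3c230.e, rf3c230.n) := red_ln rf3h28.2.2.2.2.2.2.2.2.1 ⟨rf3h28.2.2.2.2.2.2.2.2.1.1, rf3h25.2.2.2.2.2.1.1⟩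
theorem rf3k231 : CfgOK (rf3c231.e, rf3c231.n) := red_ln rf3h28.2.2.2.2.2.2.2.1 ⟨rf3h28.2.2.2.2.2.2.2.1.1, rf3h25.2.2.2.2.1.1⟩
theorem rf3k232 : CfgOK (rf3c232.e, rf3c232.n) := red_ln rf3h28.2.2.2.2.2.2.1 ⟨rf3h28.2.2.2.2.2.2.1.1, rf3h25.2.2.2.1.1⟩
theorem rf3k233 : CfgOK (rf3c233.e, rf3c233.n) := red_ln rf3h28.2.2.2.2.2.1 ⟨rf3h28.2.2.2.2.2.1.1, rf3h25.2.2.1.1⟩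
theorem rf3k234 : CfgOK (rf3c234.e, rf3c234.n) := red_ln rf3h28.2.2.2.2.1 ⟨rf3h28.2.2.2.2.1.1, rf3h17.1.1⟩
theorem rf3k235 : CfgOK (rf3c235.e, rf3c235.n) := red_ln rf3h28.2.2.2.1 rf3h28.2.2.2.1.1
theorem rf3k236 : CfgOK (rf3c236.e, rf3c236.n) := red_ln rf3h28.2.2.1 rf3h28.2.2.1.1
theorem rf3k237 : CfgOK (rf3c237.e, rf3c237.n) := red_ln rf3h28.2.1 ⟨rf3h28.2.1.1, rf3h25.2.1.1⟩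
theorem rf3k238 : CfgOK (rf3c238.e, rf3c238.n) := red_ln rf3h28.1 ⟨rf3h28.1.1, rf3h25.1.1⟩
theorem rf3k239 : CfgOK (rf3c239.e, rf3c239.n) := red_ln rf3h32.2.2.2.1 ⟨⟨rf3h32.2.2.2.1.1, rf3h27.2.2.2.2.2.2.2.2.2.2.2.2.2.2.1.1⟩, ⟨rf3h43.2.2.2.2.2.2.2.2.2.2.2.2.2.2.2.2.2.2.2.2.2.2.2.2.2.1.1, rf3h45.2.2.2.2.2.2.2.2.2.2.2.1.1⟩⟩
theorem rf3k240 : CfgOK (rf3c240.e, rf3c240.n) := red_ln rf3h32.2.2.1 ⟨rf3h32.2.2.1.1, rf3h33.2.2.2.2.2.1.1⟩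
theorem rf3k241 : CfgOK (rf3c241.e, rf3c241.n) := red_ln rf3h32.2.1 ⟨rf3h32.2.1.1, rf3h33.2.2.2.2.1.1⟩
theorem rf3k242 : CfgOK (rf3c242.e, rf3c242.n) := red_ln rf3h32.1 rf3h32.1.1
theorem rf3k243 : CfgOK (rf3c243.e, rf3c243.n) := red_ln rf3h35.2.2.2.2.2.2.2.2.2.2.2.1 ⟨⟨rf3h35.2.2.2.2.2.2.2.2.2.2.2.1.1, rf3h27.2.2.2.2.2.2.2.2.2.2.2.2.2.1.1⟩, ⟨rf3h43.2.2.2.2.2.2.2.2.2.2.2.2.2.2.2.2.2.2.2.2.2.2.2.2.1.1, rf3h45.2.2.2.2.2.2.2.1.1⟩⟩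
theorem rf3k244 : CfgOK (rf3c244.e, rf3c244.n) := red_ln rf3h35.2.2.2.2.2.2.2.2.2.2.1 ⟨⟨rf3h35.2.2.2.2.2.2.2.2.2.2.1.1, rf3h27.2.2.2.2.2.2.2.2.2.2.2.2.1.1⟩, ⟨rf3h43.2.2.2.2.2.2.2.2.2.2.2.2.2.2.2.2.2.2.2.2.2.2.2.1.1, rf3h45.2.2.2.1.1⟩⟩
theorem rf3k245 : CfgOK (rf3c245.e, rf3c245.n) := red_ln rf3h35.2.2.2.2.2.2.2.2.2.1 ⟨⟨rf3h35.2.2.2.2.2.2.2.2.2.1.1, rf3h27.2.2.2.2.2.2.2.2.2.2.2.1.1⟩, ⟨rf3h43.2.2.2.2.2.2.2.2.2.2.2.1.1, rf3h45.2.1.1⟩⟩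
theorem rf3k246 : CfgOK (rf3c246.e, rf3c246.n) := red_ln rf3h35.2.2.2.2.2.2.2.2.1 ⟨⟨rf3h35.2.2.2.2.2.2.2.2.1.1, rf3h27.2.2.2.2.2.2.2.2.2.2.1.1⟩, ⟨rf3h34.2.2.2.2.2.2.2.2.1.1, rf3h45.1.1⟩⟩
theorem rf3k247 : CfgOK (rf3c247.e, rf3c247.n) := red_ln rf3h35.2.2.2.2.2.2.2.1 ⟨rf3h35.2.2.2.2.2.2.2.1.1, rf3h27.2.1.1⟩
theorem rf3k248 : CfgOK (rf3c248.e, rf3c248.n) := red_ln rf3h35.2.2.2.2.2.2.1 rf3h35.2.2.2.2.2.2.1.1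
theorem rf3k249 : CfgOK (rf3c249.e, rf3c249.n) := red_ln rf3h35.2.2.2.2.2.1 rf3h35.2.2.2.2.2.1.1
theorem rf3k250 : CfgOK (rf3c250.e, rf3c250.n) := red_ln rf3h35.2.2.2.2.1 ⟨rf3h35.2.2.2.2.1.1, rf3h33.2.2.2.1.1⟩
theorem rf3k251 : CfgOK (rf3c251.e, rf3c251.n) := red_ln rf3h35.2.2.2.1 ⟨rf3h35.2.2.2.1.1, rf3h33.2.2.1.1⟩
theorem rf3k252 : CfgOK (rf3c252.e, rf3c252.n) := red_ln rf3h35.2.2.1 ⟨rf3h35.2.2.1.1, rf3h33.2.1.1⟩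
theorem rf3k253 : CfgOK (rf3c253.e, rf3c253.n) := red_ln rf3h35.2.1 rf3h35.2.1.1
theorem rf3k254 : CfgOK (rf3c254.e, rf3c254.n) := red_ln rf3h35.1 ⟨rf3h35.1.1, rf3h33.1.1⟩
theorem rf3k255 : CfgOK (rf3c255.e, rf3c255.n) := red_ln rf3h39.2.2.2.2.2.2.2.2.2.2.2.2.2.2.2.2.2.2.2.1 rf3h39.2.2.2.2.2.2.2.2.2.2.2.2.2.2.2.2.2.2.2.1.1
theorem rf3k256 : CfgOK (rf3c256.e, rf3c256.n) := red_ln rf3h39.2.2.2.2.2.2.2.2.2.2.2.2.2.2.2.2.2.2.1 rf3h39.2.2.2.2.2.2.2.2.2.2.2.2.2.2.2.2.2.2.1.1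
theorem rf3k257 : CfgOK (rf3c257.e, rf3c257.n) := red_ln rf3h39.2.2.2.2.2.2.2.2.2.2.2.2.2.2.2.2.2.1 ⟨rf3h39.2.2.2.2.2.2.2.2.2.2.2.2.2.2.2.2.2.1.1, rf3h40.2.2.2.2.2.2.2.2.2.2.2.2.2.2.2.2.1.1⟩
theorem rf3k258 : CfgOK (rf3c258.e, rf3c258.n) := red_ln rf3h39.2.2.2.2.2.2.2.2.2.2.2.2.2.2.2.2.1 ⟨⟨rf3h39.2.2.2.2.2.2.2.2.2.2.2.2.2.2.2.2.1.1, rf3h42.2.2.2.2.2.2.2.2.2.2.2.2.2.2.2.2.2.2.2.2.1.1⟩, ⟨rf3h42.2.2.2.2.2.2.2.2.2.2.2.2.2.2.2.2.2.2.2.1.1, rf3h43.2.2.2.2.2.2.2.2.2.2.2.2.2.2.2.2.2.2.2.2.2.2.1.1⟩⟩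
theorem rf3k259 : CfgOK (rf3c259.e, rf3c259.n) := red_ln rf3h39.2.2.2.2.2.2.2.2.2.2.2.2.2.2.2.1 ⟨⟨⟨rf3h39.2.2.2.2.2.2.2.2.2.2.2.2.2.2.2.1.1, rf3h42.2.2.2.2.2.2.2.2.2.2.2.2.2.2.2.2.2.2.1.1⟩, ⟨rf3h42.2.2.2.2.2.2.2.2.2.2.2.2.2.2.2.2.2.1.1, rf3h43.2.2.2.2.2.2.2.2.2.2.2.2.2.2.2.2.2.2.2.2.2.1.1⟩⟩, ⟨⟨rf3h40.2.2.2.2.2.2.2.2.2.2.2.2.2.2.2.1.1, rf3h12.2.2.2.2.2.2.2.2.2.2.2.1.1⟩, ⟨rf3h12.2.2.2.2.2.2.2.2.2.2.1.1, rf3h44.2.2.1.1⟩⟩⟩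
theorem rf3k260 : CfgOK (rf3c260.e, rf3c260.n) := red_ln rf3h39.2.2.2.2.2.2.2.2.2.2.2.2.2.2.1 ⟨⟨rf3h39.2.2.2.2.2.2.2.2.2.2.2.2.2.2.1.1, rf3h42.2.2.2.2.2.2.2.2.2.2.2.2.2.2.2.2.1.1⟩, ⟨rf3h42.2.2.2.2.2.2.2.2.2.2.2.2.1.1, rf3h43.2.2.2.2.2.2.2.2.2.2.2.2.2.2.2.2.2.2.2.2.1.1⟩⟩
theorem rf3k261 : CfgOK (rf3c261.e, rf3c261.n) := red_ln rf3h39.2.2.2.2.2.2.2.2.2.2.2.2.2.1 ⟨⟨rf3h39.2.2.2.2.2.2.2.2.2.2.2.2.2.1.1, rf3h42.2.2.2.2.2.2.2.2.2.2.2.2.2.2.2.1.1⟩, ⟨rf3h42.2.2.2.2.2.2.2.2.2.2.2.1.1, rf3h43.2.2.2.2.2.2.2.2.2.2.2.2.2.2.2.2.2.2.2.1.1⟩⟩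
theorem rf3k262 : CfgOK (rf3c262.e, rf3c262.n) := red_ln rf3h39.2.2.2.2.2.2.2.2.2.2.2.2.1 ⟨⟨rf3h39.2.2.2.2.2.2.2.2.2.2.2.2.1.1, rf3h42.2.2.2.2.2.2.2.2.2.2.2.2.2.2.1.1⟩, ⟨rf3h41.2.2.2.2.2.2.2.2.2.2.2.2.2.2.2.2.2.2.2.1.1, rf3h43.2.2.2.2.2.2.2.2.2.2.1.1⟩⟩
theorem rf3k263 : CfgOK (rf3c263.e, rf3c263.n) := red_ln rf3h39.2.2.2.2.2.2.2.2.2.2.2.1 ⟨rf3h39.2.2.2.2.2.2.2.2.2.2.2.1.1, rf3h42.2.2.2.2.2.2.2.2.2.2.1.1⟩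
theorem rf3k264 : CfgOK (rf3c264.e, rf3c264.n) := red_ln rf3h39.2.2.2.2.2.2.2.2.2.2.1 ⟨rf3h39.2.2.2.2.2.2.2.2.2.2.1.1, rf3h42.2.2.2.2.2.2.2.2.2.1.1⟩
theorem rf3k265 : CfgOK (rf3c265.e, rf3c265.n) := red_ln rf3h39.2.2.2.2.2.2.2.2.2.1 ⟨rf3h39.2.2.2.2.2.2.2.2.2.1.1, rf3h42.2.2.2.2.2.2.2.2.1.1⟩
theorem rf3k266 : CfgOK (rf3c266.e, rf3c266.n) := red_ln rf3h39.2.2.2.2.2.2.2.2.1 ⟨rf3h39.2.2.2.2.2.2.2.2.1.1, rf3h42.2.2.2.2.2.2.2.1.1⟩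
theorem rf3k267 : CfgOK (rf3c267.e, rf3c267.n) := red_ln rf3h39.2.2.2.2.2.2.2.1 ⟨⟨⟨rf3h39.2.2.2.2.2.2.2.1.1, rf3h42.2.2.2.2.2.2.1.1⟩, ⟨rf3h40.2.2.2.2.2.2.2.2.2.2.2.2.2.2.1.1, rf3h12.2.2.2.2.2.2.2.2.2.1.1⟩⟩, ⟨⟨rf3h42.2.2.2.2.2.1.1, rf3h43.2.2.2.2.2.2.2.2.2.2.2.2.2.2.2.2.2.2.1.1⟩, ⟨rf3h12.2.2.2.2.2.2.2.2.1.1, rf3h44.2.1.1⟩⟩⟩
theorem rf3k268 : CfgOK (rf3c268.e, rf3c268.n) := red_ln rf3h39.2.2.2.2.2.2.1 ⟨⟨⟨rf3h39.2.2.2.2.2.2.1.1, rf3h42.2.2.2.2.1.1⟩, ⟨rf3h42.2.2.2.2.2.2.2.2.2.2.2.2.2.1.1, rf3h43.2.2.2.2.2.2.2.2.2.2.2.2.2.2.2.2.2.1.1⟩⟩, ⟨⟨rf3h40.2.2.2.2.2.2.2.2.2.2.2.2.2.1.1, rf3h12.2.2.2.2.2.2.2.1.1⟩, ⟨rf3h12.2.2.2.2.2.2.1.1, rf3h44.1.1⟩⟩⟩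
theorem rf3k269 : CfgOK (rf3c269.e, rf3c269.n) := red_ln rf3h39.2.2.2.2.2.1 ⟨⟨rf3h39.2.2.2.2.2.1.1, rf3h42.2.2.2.1.1⟩, ⟨rf3h42.2.2.1.1, rf3h43.2.2.2.2.2.2.2.2.2.2.2.2.2.2.2.2.1.1⟩⟩
theorem rf3k270 : CfgOK (rf3c270.e, rf3c270.n) := red_ln rf3h39.2.2.2.2.1 ⟨⟨rf3h39.2.2.2.2.1.1, rf3h42.2.1.1⟩, ⟨rf3h42.1.1, rf3h43.2.2.2.2.2.2.2.2.2.2.2.2.2.2.2.1.1⟩⟩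
theorem rf3k271 : CfgOK (rf3c271.e, rf3c271.n) := red_ln rf3h39.2.2.2.1 ⟨rf3h39.2.2.2.1.1, rf3h41.2.2.2.2.2.2.2.2.2.2.2.2.2.2.2.2.2.2.1.1⟩
theorem rf3k272 : CfgOK (rf3c272.e, rf3c272.n) := red_ln rf3h39.2.2.1 ⟨rf3h39.2.2.1.1, rf3h41.2.2.2.2.2.2.2.2.2.2.2.2.2.2.2.2.2.1.1⟩
theorem rf3k273 : CfgOK (rf3c273.e, rf3c273.n) := red_ln rf3h39.2.1 ⟨rf3h39.2.1.1, rf3h41.2.2.2.2.2.2.2.2.2.2.2.2.2.2.2.2.1.1⟩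
theorem rf3k274 : CfgOK (rf3c274.e, rf3c274.n) := red_ln rf3h39.1 ⟨rf3h39.1.1, rf3h41.2.2.2.2.1.1⟩
theorem rf3k275 : CfgOK (rf3c275.e, rf3c275.n) := red_ln rf3h38.2.2.2.2.2.2.2.2.2.2.2.2.2.2.2.2.2.2.2.2.2.2.2.1 ⟨rf3h38.2.2.2.2.2.2.2.2.2.2.2.2.2.2.2.2.2.2.2.2.2.2.2.1.1, rf3h41.2.2.2.1.1⟩
theorem rf3k276 : CfgOK (rf3c276.e, rf3c276.n) := red_ln rf3h38.2.2.2.2.2.2.2.2.2.2.2.2.2.2.2.2.2.2.2.2.2.2.1 rf3h38.2.2.2.2.2.2.2.2.2.2.2.2.2.2.2.2.2.2.2.2.2.2.1.1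
theorem rf3k277 : CfgOK (rf3c277.e, rf3c277.n) := red_ln rf3h38.2.2.2.2.2.2.2.2.2.2.2.2.2.2.2.2.2.2.2.2.2.1 rf3h38.2.2.2.2.2.2.2.2.2.2.2.2.2.2.2.2.2.2.2.2.2.1.1
theorem rf3k278 : CfgOK (rf3c278.e, rf3c278.n) := red_ln rf3h38.2.2.2.2.2.2.2.2.2.2.2.2.2.2.2.2.2.2.2.2.1 rf3h38.2.2.2.2.2.2.2.2.2.2.2.2.2.2.2.2.2.2.2.2.1.1
theorem rf3k279 : CfgOK (rf3c279.e, rf3c279.n) := red_ln rf3h38.2.2.2.2.2.2.2.2.2.2.2.2.2.2.2.2.2.2.2.1 rf3h38.2.2.2.2.2.2.2.2.2.2.2.2.2.2.2.2.2.2.2.1.1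
theorem rf3k280 : CfgOK (rf3c280.e, rf3c280.n) := red_ln rf3h38.2.2.2.2.2.2.2.2.2.2.2.2.2.2.2.2.2.2.1 rf3h38.2.2.2.2.2.2.2.2.2.2.2.2.2.2.2.2.2.2.1.1
theorem rf3k281 : CfgOK (rf3c281.e, rf3c281.n) := red_ln rf3h38.2.2.2.2.2.2.2.2.2.2.2.2.2.2.2.2.2.1 rf3h38.2.2.2.2.2.2.2.2.2.2.2.2.2.2.2.2.2.1.1
theorem rf3k282 : CfgOK (rf3c282.e, rf3c282.n) := red_ln rf3h38.2.2.2.2.2.2.2.2.2.2.2.2.2.2.2.2.1 rf3h38.2.2.2.2.2.2.2.2.2.2.2.2.2.2.2.2.1.1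
theorem rf3k283 : CfgOK (rf3c283.e, rf3c283.n) := red_ln rf3h38.2.2.2.2.2.2.2.2.2.2.2.2.2.2.2.1 rf3h38.2.2.2.2.2.2.2.2.2.2.2.2.2.2.2.1.1
theorem rf3k284 : CfgOK (rf3c284.e, rf3c284.n) := red_ln rf3h38.2.2.2.2.2.2.2.2.2.2.2.2.2.2.1 rf3h38.2.2.2.2.2.2.2.2.2.2.2.2.2.2.1.1
theorem rf3k285 : CfgOK (rf3c285.e, rf3c285.n) := red_ln rf3h38.2.2.2.2.2.2.2.2.2.2.2.2.2.1 rf3h38.2.2.2.2.2.2.2.2.2.2.2.2.2.1.1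
theorem rf3k286 : CfgOK (rf3c286.e, rf3c286.n) := red_ln rf3h38.2.2.2.2.2.2.2.2.2.2.2.2.1 rf3h38.2.2.2.2.2.2.2.2.2.2.2.2.1.1
theorem rf3k287 : CfgOK (rf3c287.e, rf3c287.n) := red_ln rf3h38.2.2.2.2.2.2.2.2.2.2.2.1 rf3h38.2.2.2.2.2.2.2.2.2.2.2.1.1
theorem rf3k288 : CfgOK (rf3c288.e, rf3c288.n) := red_ln rf3h38.2.2.2.2.2.2.2.2.2.2.1 rf3h38.2.2.2.2.2.2.2.2.2.2.1.1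
theorem rf3k289 : CfgOK (rf3c289.e, rf3c289.n) := red_ln rf3h38.2.2.2.2.2.2.2.2.2.1 rf3h38.2.2.2.2.2.2.2.2.2.1.1
theorem rf3k290 : CfgOK (rf3c290.e, rf3c290.n) := red_ln rf3h38.2.2.2.2.2.2.2.2.1 rf3h38.2.2.2.2.2.2.2.2.1.1
theorem rf3k291 : CfgOK (rf3c291.e, rf3c291.n) := red_ln rf3h38.2.2.2.2.2.2.2.1 rf3h38.2.2.2.2.2.2.2.1.1
theorem rf3k292 : CfgOK (rf3c292.e, rf3c292.n) := red_ln rf3h38.2.2.2.2.2.2.1 rf3h38.2.2.2.2.2.2.1.1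
theorem rf3k293 : CfgOK (rf3c293.e, rf3c293.n) := red_ln rf3h38.2.2.2.2.2.1 rf3h38.2.2.2.2.2.1.1
theorem rf3k294 : CfgOK (rf3c294.e, rf3c294.n) := red_ln rf3h38.2.2.2.2.1 rf3h38.2.2.2.2.1.1
theorem rf3k295 : CfgOK (rf3c295.e, rf3c295.n) := red_ln rf3h38.2.2.2.1 ⟨rf3h38.2.2.2.1.1, rf3h40.2.2.2.2.2.2.2.2.2.2.2.2.1.1⟩
theorem rf3k296 : CfgOK (rf3c296.e, rf3c296.n) := red_ln rf3h38.2.2.1 ⟨rf3h38.2.2.1.1, rf3h40.2.2.2.2.2.2.2.2.2.2.2.1.1⟩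
theorem rf3k297 : CfgOK (rf3c297.e, rf3c297.n) := red_ln rf3h38.2.1 ⟨⟨rf3h38.2.1.1, rf3h40.2.2.2.2.2.2.2.2.2.2.1.1⟩, ⟨rf3h41.2.2.2.2.2.2.2.2.2.2.2.2.2.2.2.2.2.2.2.2.2.2.2.2.2.2.2.2.2.1.1, rf3h12.2.2.2.2.2.1.1⟩⟩
theorem rf3k298 : CfgOK (rf3c298.e, rf3c298.n) := red_ln rf3h38.1 ⟨rf3h38.1.1, rf3h41.2.2.2.2.2.2.2.2.2.2.2.2.2.2.2.2.2.2.2.2.2.2.2.2.2.2.2.2.1.1⟩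
theorem rf3k299 : CfgOK (rf3c299.e, rf3c299.n) := red_ln rf3h37.2.2.2.2.2.2.2.2.2.2.2.2.2.2.2.2.2.2.2.2.2.2.2.1 ⟨rf3h37.2.2.2.2.2.2.2.2.2.2.2.2.2.2.2.2.2.2.2.2.2.2.2.1.1, rf3h41.2.2.2.2.2.2.2.2.2.2.2.2.2.2.2.2.2.2.2.2.2.2.2.2.2.2.2.1.1⟩
theorem rf3k300 : CfgOK (rf3c300.e, rf3c300.n) := red_ln rf3h37.2.2.2.2.2.2.2.2.2.2.2.2.2.2.2.2.2.2.2.2.2.2.1 ⟨rf3h37.2.2.2.2.2.2.2.2.2.2.2.2.2.2.2.2.2.2.2.2.2.2.1.1, rf3h41.2.2.2.2.2.2.2.2.2.2.2.2.2.2.2.2.2.2.2.2.2.2.2.2.2.2.1.1⟩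
theorem rf3k301 : CfgOK (rf3c301.e, rf3c301.n) := red_ln rf3h37.2.2.2.2.2.2.2.2.2.2.2.2.2.2.2.2.2.2.2.2.2.1 ⟨rf3h37.2.2.2.2.2.2.2.2.2.2.2.2.2.2.2.2.2.2.2.2.2.1.1, rf3h41.2.2.2.2.2.2.2.2.2.2.2.2.2.2.2.2.2.2.2.2.2.2.2.2.2.1.1⟩
theorem rf3k302 : CfgOK (rf3c302.e, rf3c302.n) := red_ln rf3h37.2.2.2.2.2.2.2.2.2.2.2.2.2.2.2.2.2.2.2.2.1 ⟨rf3h37.2.2.2.2.2.2.2.2.2.2.2.2.2.2.2.2.2.2.2.2.1.1, rf3h41.2.2.2.2.2.2.2.2.2.2.2.2.2.2.2.2.2.2.2.2.2.2.2.2.1.1⟩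
theorem rf3k303 : CfgOK (rf3c303.e, rf3c303.n) := red_ln rf3h37.2.2.2.2.2.2.2.2.2.2.2.2.2.2.2.2.2.2.2.1 ⟨rf3h37.2.2.2.2.2.2.2.2.2.2.2.2.2.2.2.2.2.2.2.1.1, rf3h41.2.2.2.2.2.2.2.2.2.2.2.2.2.2.2.2.2.2.2.2.2.2.2.1.1⟩
theorem rf3k304 : CfgOK (rf3c304.e, rf3c304.n) := red_ln rf3h37.2.2.2.2.2.2.2.2.2.2.2.2.2.2.2.2.2.2.1 ⟨⟨rf3h37.2.2.2.2.2.2.2.2.2.2.2.2.2.2.2.2.2.2.1.1, rf3h41.2.2.2.2.2.2.2.2.2.2.2.2.2.2.2.2.2.2.2.2.2.2.1.1⟩, ⟨rf3h40.2.2.2.2.2.2.2.2.2.1.1, rf3h12.2.2.2.2.1.1⟩⟩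
theorem rf3k305 : CfgOK (rf3c305.e, rf3c305.n) := red_ln rf3h37.2.2.2.2.2.2.2.2.2.2.2.2.2.2.2.2.2.1 ⟨⟨rf3h37.2.2.2.2.2.2.2.2.2.2.2.2.2.2.2.2.2.1.1, rf3h41.2.2.2.2.2.2.2.2.2.2.2.2.2.2.2.2.2.2.2.2.2.1.1⟩, ⟨rf3h40.2.2.2.2.2.2.2.2.1.1, rf3h12.2.2.2.1.1⟩⟩
theorem rf3k306 : CfgOK (rf3c306.e, rf3c306.n) := red_ln rf3h37.2.2.2.2.2.2.2.2.2.2.2.2.2.2.2.2.1 ⟨⟨rf3h37.2.2.2.2.2.2.2.2.2.2.2.2.2.2.2.2.1.1, rf3h41.2.2.2.2.2.2.2.2.2.2.2.2.2.2.2.2.2.2.2.2.1.1⟩, ⟨rf3h40.2.2.2.2.2.2.2.1.1, rf3h12.2.2.1.1⟩⟩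
theorem rf3k307 : CfgOK (rf3c307.e, rf3c307.n) := red_ln rf3h37.2.2.2.2.2.2.2.2.2.2.2.2.2.2.2.1 ⟨rf3h37.2.2.2.2.2.2.2.2.2.2.2.2.2.2.2.1.1, rf3h41.2.2.2.2.2.2.2.2.2.2.2.2.2.2.2.1.1⟩
theorem rf3k308 : CfgOK (rf3c308.e, rf3c308.n) := red_ln rf3h37.2.2.2.2.2.2.2.2.2.2.2.2.2.2.1 ⟨rf3h37.2.2.2.2.2.2.2.2.2.2.2.2.2.2.1.1, rf3h41.2.2.2.2.2.2.2.2.2.2.2.2.2.2.1.1⟩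
theorem rf3k309 : CfgOK (rf3c309.e, rf3c309.n) := red_ln rf3h37.2.2.2.2.2.2.2.2.2.2.2.2.2.1 ⟨rf3h37.2.2.2.2.2.2.2.2.2.2.2.2.2.1.1, rf3h41.2.2.2.2.2.2.2.2.2.2.2.2.2.1.1⟩
theorem rf3k310 : CfgOK (rf3c310.e, rf3c310.n) := red_ln rf3h37.2.2.2.2.2.2.2.2.2.2.2.2.1 ⟨rf3h37.2.2.2.2.2.2.2.2.2.2.2.2.1.1, rf3h41.2.2.2.2.2.2.2.2.2.2.2.2.1.1⟩
theorem rf3k311 : CfgOK (rf3c311.e, rf3c311.n) := red_ln rf3h37.2.2.2.2.2.2.2.2.2.2.2.1 ⟨rf3h37.2.2.2.2.2.2.2.2.2.2.2.1.1, rf3h41.2.2.2.2.2.2.2.2.2.2.2.1.1⟩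
theorem rf3k312 : CfgOK (rf3c312.e, rf3c312.n) := red_ln rf3h37.2.2.2.2.2.2.2.2.2.2.1 ⟨rf3h37.2.2.2.2.2.2.2.2.2.2.1.1, rf3h41.2.2.2.2.2.2.2.2.2.2.1.1⟩
theorem rf3k313 : CfgOK (rf3c313.e, rf3c313.n) := red_ln rf3h37.2.2.2.2.2.2.2.2.2.1 ⟨rf3h37.2.2.2.2.2.2.2.2.2.1.1, rf3h41.2.2.2.2.2.2.2.2.2.1.1⟩
theorem rf3k314 : CfgOK (rf3c314.e, rf3c314.n) := red_ln rf3h37.2.2.2.2.2.2.2.2.1 ⟨⟨rf3h37.2.2.2.2.2.2.2.2.1.1, rf3h41.2.2.2.2.2.2.2.2.1.1⟩, ⟨rf3h41.2.2.2.2.2.2.2.1.1, rf3h43.2.2.2.2.2.2.2.1.1⟩⟩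
theorem rf3k315 : CfgOK (rf3c315.e, rf3c315.n) := red_ln rf3h37.2.2.2.2.2.2.2.1 ⟨⟨rf3h37.2.2.2.2.2.2.2.1.1, rf3h41.2.2.2.2.2.2.1.1⟩, ⟨rf3h41.2.2.1.1, rf3h34.2.2.1.1⟩⟩
theorem rf3k316 : CfgOK (rf3c316.e, rf3c316.n) := red_ln rf3h37.2.2.2.2.2.2.1 ⟨⟨rf3h37.2.2.2.2.2.2.1.1, rf3h41.2.2.2.2.2.1.1⟩, ⟨rf3h40.2.2.2.2.2.2.1.1, rf3h12.2.1.1⟩⟩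
theorem rf3k317 : CfgOK (rf3c317.e, rf3c317.n) := red_ln rf3h37.2.2.2.2.2.1 ⟨⟨rf3h37.2.2.2.2.2.1.1, rf3h41.2.1.1⟩, ⟨rf3h40.2.2.2.2.2.1.1, rf3h12.1.1⟩⟩
theorem rf3k318 : CfgOK (rf3c318.e, rf3c318.n) := red_ln rf3h37.2.2.2.2.1 ⟨rf3h37.2.2.2.2.1.1, rf3h41.1.1⟩
theorem rf3k319 : CfgOK (rf3c319.e, rf3c319.n) := red_ln rf3h37.2.2.2.1 rf3h37.2.2.2.1.1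
theorem rf3k320 : CfgOK (rf3c320.e, rf3c320.n) := red_ln rf3h37.2.2.1 rf3h37.2.2.1.1
theorem rf3k321 : CfgOK (rf3c321.e, rf3c321.n) := red_ln rf3h37.2.1 rf3h37.2.1.1
theorem rf3k322 : CfgOK (rf3c322.e, rf3c322.n) := red_ln rf3h37.1 rf3h37.1.1
theorem rf3k323 : CfgOK (rf3c323.e, rf3c323.n) := red_ln rf3h36.2.2.2.2.2.2.2.2.2.2.2.2.2.2.2.2.2.2.2.2.2.2.2.1 rf3h36.2.2.2.2.2.2.2.2.2.2.2.2.2.2.2.2.2.2.2.2.2.2.2.1.1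
theorem rf3k324 : CfgOK (rf3c324.e, rf3c324.n) := red_ln rf3h36.2.2.2.2.2.2.2.2.2.2.2.2.2.2.2.2.2.2.2.2.2.2.1 rf3h36.2.2.2.2.2.2.2.2.2.2.2.2.2.2.2.2.2.2.2.2.2.2.1.1
theorem rf3k325 : CfgOK (rf3c325.e, rf3c325.n) := red_ln rf3h36.2.2.2.2.2.2.2.2.2.2.2.2.2.2.2.2.2.2.2.2.2.1 rf3h36.2.2.2.2.2.2.2.2.2.2.2.2.2.2.2.2.2.2.2.2.2.1.1
theorem rf3k326 : CfgOK (rf3c326.e, rf3c326.n) := red_ln rf3h36.2.2.2.2.2.2.2.2.2.2.2.2.2.2.2.2.2.2.2.2.1 rf3h36.2.2.2.2.2.2.2.2.2.2.2.2.2.2.2.2.2.2.2.2.1.1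
theorem rf3k327 : CfgOK (rf3c327.e, rf3c327.n) := red_ln rf3h36.2.2.2.2.2.2.2.2.2.2.2.2.2.2.2.2.2.2.2.1 rf3h36.2.2.2.2.2.2.2.2.2.2.2.2.2.2.2.2.2.2.2.1.1
theorem rf3k328 : CfgOK (rf3c328.e, rf3c328.n) := red_ln rf3h36.2.2.2.2.2.2.2.2.2.2.2.2.2.2.2.2.2.2.1 rf3h36.2.2.2.2.2.2.2.2.2.2.2.2.2.2.2.2.2.2.1.1
theorem rf3k329 : CfgOK (rf3c329.e, rf3c329.n) := red_ln rf3h36.2.2.2.2.2.2.2.2.2.2.2.2.2.2.2.2.2.1 rf3h36.2.2.2.2.2.2.2.2.2.2.2.2.2.2.2.2.2.1.1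
theorem rf3k330 : CfgOK (rf3c330.e, rf3c330.n) := red_ln rf3h36.2.2.2.2.2.2.2.2.2.2.2.2.2.2.2.2.1 rf3h36.2.2.2.2.2.2.2.2.2.2.2.2.2.2.2.2.1.1
theorem rf3k331 : CfgOK (rf3c331.e, rf3c331.n) := red_ln rf3h36.2.2.2.2.2.2.2.2.2.2.2.2.2.2.2.1 rf3h36.2.2.2.2.2.2.2.2.2.2.2.2.2.2.2.1.1
theorem rf3k332 : CfgOK (rf3c332.e, rf3c332.n) := red_ln rf3h36.2.2.2.2.2.2.2.2.2.2.2.2.2.2.1 rf3h36.2.2.2.2.2.2.2.2.2.2.2.2.2.2.1.1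
theorem rf3k333 : CfgOK (rf3c333.e, rf3c333.n) := red_ln rf3h36.2.2.2.2.2.2.2.2.2.2.2.2.2.1 rf3h36.2.2.2.2.2.2.2.2.2.2.2.2.2.1.1
theorem rf3k334 : CfgOK (rf3c334.e, rf3c334.n) := red_ln rf3h36.2.2.2.2.2.2.2.2.2.2.2.2.1 rf3h36.2.2.2.2.2.2.2.2.2.2.2.2.1.1
theorem rf3k335 : CfgOK (rf3c335.e, rf3c335.n) := red_ln rf3h36.2.2.2.2.2.2.2.2.2.2.2.1 rf3h36.2.2.2.2.2.2.2.2.2.2.2.1.1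
theorem rf3k336 : CfgOK (rf3c336.e, rf3c336.n) := red_ln rf3h36.2.2.2.2.2.2.2.2.2.2.1 rf3h36.2.2.2.2.2.2.2.2.2.2.1.1
theorem rf3k337 : CfgOK (rf3c337.e, rf3c337.n) := red_ln rf3h36.2.2.2.2.2.2.2.2.2.1 rf3h36.2.2.2.2.2.2.2.2.2.1.1
theorem rf3k338 : CfgOK (rf3c338.e, rf3c338.n) := red_ln rf3h36.2.2.2.2.2.2.2.2.1 rf3h36.2.2.2.2.2.2.2.2.1.1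
theorem rf3k339 : CfgOK (rf3c339.e, rf3c339.n) := red_ln rf3h36.2.2.2.2.2.2.2.1 rf3h36.2.2.2.2.2.2.2.1.1
theorem rf3k340 : CfgOK (rf3c340.e, rf3c340.n) := red_ln rf3h36.2.2.2.2.2.2.1 rf3h36.2.2.2.2.2.2.1.1
theorem rf3k341 : CfgOK (rf3c341.e, rf3c341.n) := red_ln rf3h36.2.2.2.2.2.1 rf3h36.2.2.2.2.2.1.1
theorem rf3k342 : CfgOK (rf3c342.e, rf3c342.n) := red_ln rf3h36.2.2.2.2.1 ⟨rf3h36.2.2.2.2.1.1, rf3h40.2.2.2.2.1.1⟩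
theorem rf3k343 : CfgOK (rf3c343.e, rf3c343.n) := red_ln rf3h36.2.2.2.1 ⟨rf3h36.2.2.2.1.1, rf3h40.2.2.2.1.1⟩
theorem rf3k344 : CfgOK (rf3c344.e, rf3c344.n) := red_ln rf3h36.2.2.1 ⟨rf3h36.2.2.1.1, rf3h40.2.2.1.1⟩
theorem rf3k345 : CfgOK (rf3c345.e, rf3c345.n) := red_ln rf3h36.2.1 ⟨rf3h36.2.1.1, rf3h40.2.1.1⟩
theorem rf3k346 : CfgOK (rf3c346.e, rf3c346.n) := red_ln rf3h36.1 ⟨rf3h36.1.1, rf3h40.1.1⟩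

end Pool.Agent.Lib.G6.B
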