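import Pool.Agent.Lib.G6.BRed
import Pool.Agent.Lib.G6D.RF5

set_option autoImplicit false
set_option maxRecDepth 100000
set_option linter.all false

namespace Pool.Agent.Lib.G6.B

theorem rf5h0 : AllL LnOK rf5l0 := batch_of rf5th.1
theorem rf5h1 : AllL LnOK rf5l1 := batch_of rf5th.2.1
theorem rf5h2 : AllL LnOK rf5l10 := batch_of rf5th.2.2.2.2.2.2.2.2.2.2.1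
theorem rf5h3 : AllL LnOK rf5l11 := batch_of rf5th.2.2.2.2.2.2.2.2.2.2.2.1
theorem rf5h4 : AllL LnOK rf5l12 := batch_of rf5th.2.2.2.2.2.2.2.2.2.2.2.2.1
theorem rf5h5 : AllL LnOK rf5l13 := batch_of rf5th.2.2.2.2.2.2.2.2.2.2.2.2.2.1
theorem rf5h6 : AllL LnOK rf5l14 := batch_of rf5th.2.2.2.2.2.2.2.2.2.2.2.2.2.2.1
theorem rf5h7 : AllL LnOK rf5l15 := batch_of rf5th.2.2.2.2.2.2.2.2.2.2.2.2.2.2.2.1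
theorem rf5h8 : AllL LnOK rf5l16 := batch_of rf5th.2.2.2.2.2.2.2.2.2.2.2.2.2.2.2.2.1
theorem rf5h9 : AllL LnOK rf5l17 := batch_of rf5th.2.2.2.2.2.2.2.2.2.2.2.2.2.2.2.2.2.1
theorem rf5h10 : AllL LnOK rf5l18 := batch_of rf5th.2.2.2.2.2.2.2.2.2.2.2.2.2.2.2.2.2.2.1
theorem rf5h11 : AllL LnOK rf5l19 := batch_of rf5th.2.2.2.2.2.2.2.2.2.2.2.2.2.2.2.2.2.2.2.1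
theorem rf5h12 : AllL LnOK rf5l2 := batch_of rf5th.2.2.1
theorem rf5h13 : AllL LnOK rf5l20 := batch_of rf5th.2.2.2.2.2.2.2.2.2.2.2.2.2.2.2.2.2.2.2.2.1
theorem rf5h14 : AllL LnOK rf5l21 := batch_of rf5th.2.2.2.2.2.2.2.2.2.2.2.2.2.2.2.2.2.2.2.2.2.1
theorem rf5h15 : AllL LnOK rf5l22 := batch_of rf5th.2.2.2.2.2.2.2.2.2.2.2.2.2.2.2.2.2.2.2.2.2.2.1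
theorem rf5h16 : AllL LnOK rf5l23 := batch_of rf5th.2.2.2.2.2.2.2.2.2.2.2.2.2.2.2.2.2.2.2.2.2.2.2.1
theorem rf5h17 : AllL LnOK rf5l24 := batch_of rf5th.2.2.2.2.2.2.2.2.2.2.2.2.2.2.2.2.2.2.2.2.2.2.2.2.1
theorem rf5h18 : AllL LnOK rf5l25 := batch_of rf5th.2.2.2.2.2.2.2.2.2.2.2.2.2.2.2.2.2.2.2.2.2.2.2.2.2.1
theorem rf5h19 : AllL LnOK rf5l26 := batch_of rf5th.2.2.2.2.2.2.2.2.2.2.2.2.2.2.2.2.2.2.2.2.2.2.2.2.2.2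
theorem rf5h20 : AllL LnOK rf5l3 := batch_of rf5th.2.2.2.1
theorem rf5h21 : AllL LnOK rf5l4 := batch_of rf5th.2.2.2.2.1
theorem rf5h22 : AllL LnOK rf5l5 := batch_of rf5th.2.2.2.2.2.1
theorem rf5h23 : AllL LnOK rf5l6 := batch_of rf5th.2.2.2.2.2.2.1
theorem rf5h24 : AllL LnOK rf5l7 := batch_of rf5th.2.2.2.2.2.2.2.1
theorem rf5h25 : AllL LnOK rf5l8 := batch_of rf5th.2.2.2.2.2.2.2.2.1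
theorem rf5h26 : AllL LnOK rf5l9 := batch_of rf5th.2.2.2.2.2.2.2.2.2.1
theorem rf5k0 : CfgOK (rf5c0.e, rf5c0.n) := red_ln rf5h5.2.2.2.2.2.2.2.2.2.2.2.2.2.2.2.2.2.1 rf5h5.2.2.2.2.2.2.2.2.2.2.2.2.2.2.2.2.2.1.1
theorem rf5k1 : CfgOK (rf5c1.e, rf5c1.n) := red_ln rf5h5.2.2.2.2.2.2.2.2.2.2.2.2.2.2.2.2.1 rf5h5.2.2.2.2.2.2.2.2.2.2.2.2.2.2.2.2.1.1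
theorem rf5k2 : CfgOK (rf5c2.e, rf5c2.n) := red_ln rf5h5.2.2.2.2.2.2.2.2.2.2.2.2.2.2.2.1 rf5h5.2.2.2.2.2.2.2.2.2.2.2.2.2.2.2.1.1
theorem rf5k3 : CfgOK (rf5c3.e, rf5c3.n) := red_ln rf5h5.2.2.2.2.2.2.2.2.2.2.2.2.2.2.1 rf5h5.2.2.2.2.2.2.2.2.2.2.2.2.2.2.1.1
theorem rf5k4 : CfgOK (rf5c4.e, rf5c4.n) := red_ln rf5h5.2.2.2.2.2.2.2.2.2.2.2.2.2.1 rf5h5.2.2.2.2.2.2.2.2.2.2.2.2.2.1.1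
theorem rf5k5 : CfgOK (rf5c5.e, rf5c5.n) := red_ln rf5h5.2.2.2.2.2.2.2.2.2.2.2.2.1 rf5h5.2.2.2.2.2.2.2.2.2.2.2.2.1.1
theorem rf5k6 : CfgOK (rf5c6.e, rf5c6.n) := red_ln rf5h5.2.2.2.2.2.2.2.2.2.2.2.1 rf5h5.2.2.2.2.2.2.2.2.2.2.2.1.1
theorem rf5k7 : CfgOK (rf5c7.e, rf5c7.n) := red_ln rf5h5.2.2.2.2.2.2.2.2.2.2.1 rf5h5.2.2.2.2.2.2.2.2.2.2.1.1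
theorem rf5k8 : CfgOK (rf5c8.e, rf5c8.n) := red_ln rf5h5.2.2.2.2.2.2.2.2.2.1 ⟨rf5h5.2.2.2.2.2.2.2.2.2.1.1, rf5h10.2.2.2.2.2.2.2.2.2.2.2.2.2.2.2.2.2.2.2.2.2.2.2.2.2.2.2.2.2.2.2.1.1⟩
theorem rf5k9 : CfgOK (rf5c9.e, rf5c9.n) := red_ln rf5h5.2.2.2.2.2.2.2.2.1 ⟨rf5h5.2.2.2.2.2.2.2.2.1.1, rf5h10.2.2.2.2.2.2.2.2.2.2.2.2.2.2.2.2.2.2.2.2.2.2.2.2.2.2.2.2.2.2.1.1⟩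
theorem rf5k10 : CfgOK (rf5c10.e, rf5c10.n) := red_ln rf5h5.2.2.2.2.2.2.2.1 ⟨rf5h5.2.2.2.2.2.2.2.1.1, rf5h10.2.2.2.2.2.2.2.2.2.2.2.2.2.2.2.2.2.2.2.2.2.2.2.2.2.2.2.2.2.1.1⟩
theorem rf5k11 : CfgOK (rf5c11.e, rf5c11.n) := red_ln rf5h5.2.2.2.2.2.2.1 ⟨rf5h5.2.2.2.2.2.2.1.1, rf5h10.2.2.2.2.2.2.2.2.2.2.2.2.2.2.2.2.2.2.2.2.2.2.2.2.2.2.2.2.1.1⟩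
theorem rf5k12 : CfgOK (rf5c12.e, rf5c12.n) := red_ln rf5h5.2.2.2.2.2.1 ⟨rf5h5.2.2.2.2.2.1.1, rf5h10.2.2.2.2.2.2.2.2.2.2.2.2.2.2.2.2.2.2.2.2.2.2.2.2.2.2.2.1.1⟩
theorem rf5k13 : CfgOK (rf5c13.e, rf5c13.n) := red_ln rf5h5.2.2.2.2.1 ⟨rf5h5.2.2.2.2.1.1, rf5h10.2.2.2.2.2.2.2.2.2.2.2.2.2.2.2.2.2.2.2.2.2.2.2.2.2.2.1.1⟩
theorem rf5k14 : CfgOK (rf5c14.e, rf5c14.n) := red_ln rf5h5.2.2.2.1 ⟨rf5h5.2.2.2.1.1, rf5h10.2.2.2.2.2.2.2.2.2.2.2.2.2.2.2.2.2.2.2.2.2.2.2.2.2.1.1⟩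
theorem rf5k15 : CfgOK (rf5c15.e, rf5c15.n) := red_ln rf5h5.2.2.1 ⟨⟨rf5h5.2.2.1.1, rf5h10.2.2.2.2.2.2.2.2.2.2.2.2.2.2.2.2.2.2.2.2.2.2.2.2.1.1⟩, ⟨rf5h14.2.2.2.2.2.2.2.2.2.2.2.2.2.2.2.2.2.2.2.2.2.2.2.2.2.2.2.2.2.1.1, rf5h17.2.2.2.2.2.2.2.2.2.2.2.2.2.1.1⟩⟩
theorem rf5k16 : CfgOK (rf5c16.e, rf5c16.n) := red_ln rf5h5.2.1 ⟨⟨rf5h5.2.1.1, rf5h10.2.2.2.2.2.2.2.2.2.2.2.2.2.2.2.2.2.2.2.2.2.2.2.1.1⟩, ⟨rf5h14.2.2.2.2.2.2.2.2.2.2.2.2.2.2.2.2.2.2.2.2.2.2.2.2.2.2.2.2.1.1, rf5h17.2.2.2.2.2.2.2.2.2.2.2.2.1.1⟩⟩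
theorem rf5k17 : CfgOK (rf5c17.e, rf5c17.n) := red_ln rf5h5.1 ⟨⟨rf5h5.1.1, rf5h15.2.2.2.2.2.2.1.1⟩, ⟨rf5h15.2.2.2.2.2.1.1, rf5h18.2.2.2.2.1.1⟩⟩
theorem rf5k18 : CfgOK (rf5c18.e, rf5c18.n) := red_ln rf5h4.2.2.2.2.2.2.2.2.2.2.2.2.2.2.2.2.2.2.2.2.2.2.2.1 ⟨rf5h4.2.2.2.2.2.2.2.2.2.2.2.2.2.2.2.2.2.2.2.2.2.2.2.1.1, rf5h14.2.2.2.2.2.2.2.2.2.2.2.2.2.2.2.2.2.2.2.2.2.2.2.2.2.2.2.1.1⟩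
theorem rf5k19 : CfgOK (rf5c19.e, rf5c19.n) := red_ln rf5h4.2.2.2.2.2.2.2.2.2.2.2.2.2.2.2.2.2.2.2.2.2.2.1 ⟨rf5h4.2.2.2.2.2.2.2.2.2.2.2.2.2.2.2.2.2.2.2.2.2.2.1.1, rf5h14.2.2.2.2.2.2.2.2.2.2.2.2.2.2.2.2.2.2.2.2.2.2.2.2.2.2.1.1⟩
theorem rf5k20 : CfgOK (rf5c20.e, rf5c20.n) := red_ln rf5h4.2.2.2.2.2.2.2.2.2.2.2.2.2.2.2.2.2.2.2.2.2.1 ⟨rf5h4.2.2.2.2.2.2.2.2.2.2.2.2.2.2.2.2.2.2.2.2.2.1.1, rf5h14.2.2.2.2.2.2.2.2.2.2.2.2.2.2.2.2.2.2.2.2.2.2.2.2.2.1.1⟩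
theorem rf5k21 : CfgOK (rf5c21.e, rf5c21.n) := red_ln rf5h4.2.2.2.2.2.2.2.2.2.2.2.2.2.2.2.2.2.2.2.2.1 ⟨rf5h4.2.2.2.2.2.2.2.2.2.2.2.2.2.2.2.2.2.2.2.2.1.1, rf5h14.2.2.2.2.2.2.2.2.2.2.2.2.2.2.2.2.2.2.2.2.2.2.2.2.1.1⟩
theorem rf5k22 : CfgOK (rf5c22.e, rf5c22.n) := red_ln rf5h4.2.2.2.2.2.2.2.2.2.2.2.2.2.2.2.2.2.2.2.1 ⟨rf5h4.2.2.2.2.2.2.2.2.2.2.2.2.2.2.2.2.2.2.2.1.1, rf5h14.2.2.2.2.2.2.2.2.2.2.2.2.2.2.2.2.2.2.2.2.2.2.2.1.1⟩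
theorem rf5k23 : CfgOK (rf5c23.e, rf5c23.n) := red_ln rf5h4.2.2.2.2.2.2.2.2.2.2.2.2.2.2.2.2.2.2.1 ⟨rf5h4.2.2.2.2.2.2.2.2.2.2.2.2.2.2.2.2.2.2.1.1, rf5h14.2.2.2.2.2.2.2.2.2.2.2.2.2.2.2.2.2.2.2.2.2.2.1.1⟩
theorem rf5k24 : CfgOK (rf5c24.e, rf5c24.n) := red_ln rf5h4.2.2.2.2.2.2.2.2.2.2.2.2.2.2.2.2.2.1 ⟨⟨rf5h4.2.2.2.2.2.2.2.2.2.2.2.2.2.2.2.2.2.1.1, rf5h14.2.2.2.2.2.2.2.2.2.2.2.2.2.2.2.2.2.2.2.2.2.1.1⟩, ⟨rf5h10.2.2.2.2.2.2.2.2.2.2.2.2.2.2.2.2.2.2.2.2.2.2.1.1, rf5h17.2.2.2.2.2.2.2.2.2.2.2.1.1⟩⟩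
theorem rf5k25 : CfgOK (rf5c25.e, rf5c25.n) := red_ln rf5h4.2.2.2.2.2.2.2.2.2.2.2.2.2.2.2.2.1 ⟨⟨rf5h4.2.2.2.2.2.2.2.2.2.2.2.2.2.2.2.2.1.1, rf5h14.2.2.2.2.2.2.2.2.2.2.2.2.2.2.2.2.2.2.2.2.1.1⟩, ⟨rf5h10.2.2.2.2.2.2.2.2.2.2.2.2.2.2.2.2.2.2.2.2.2.1.1, rf5h17.2.2.2.2.2.2.2.2.2.2.1.1⟩⟩
theorem rf5k26 : CfgOK (rf5c26.e, rf5c26.n) := red_ln rf5h4.2.2.2.2.2.2.2.2.2.2.2.2.2.2.2.1 ⟨⟨rf5h4.2.2.2.2.2.2.2.2.2.2.2.2.2.2.2.1.1, rf5h14.2.2.2.2.2.2.2.2.2.2.2.2.2.2.2.2.2.2.2.1.1⟩, ⟨rf5h10.2.2.2.2.2.2.2.2.2.2.2.2.2.2.2.2.2.2.2.2.1.1, rf5h17.2.2.2.2.2.2.2.2.2.1.1⟩⟩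
theorem rf5k27 : CfgOK (rf5c27.e, rf5c27.n) := red_ln rf5h4.2.2.2.2.2.2.2.2.2.2.2.2.2.2.1 ⟨⟨rf5h4.2.2.2.2.2.2.2.2.2.2.2.2.2.2.1.1, rf5h14.2.2.2.2.2.2.2.2.2.2.2.2.2.2.2.2.2.2.1.1⟩, ⟨rf5h15.2.2.2.2.1.1, rf5h18.2.2.2.1.1⟩⟩
theorem rf5k28 : CfgOK (rf5c28.e, rf5c28.n) := red_ln rf5h4.2.2.2.2.2.2.2.2.2.2.2.2.2.1 ⟨rf5h4.2.2.2.2.2.2.2.2.2.2.2.2.2.1.1, rf5h14.2.2.2.2.2.2.2.1.1⟩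
theorem rf5k29 : CfgOK (rf5c29.e, rf5c29.n) := red_ln rf5h4.2.2.2.2.2.2.2.2.2.2.2.2.1 ⟨rf5h4.2.2.2.2.2.2.2.2.2.2.2.2.1.1, rf5h14.2.2.2.2.2.2.1.1⟩
theorem rf5k30 : CfgOK (rf5c30.e, rf5c30.n) := red_ln rf5h4.2.2.2.2.2.2.2.2.2.2.2.1 ⟨rf5h4.2.2.2.2.2.2.2.2.2.2.2.1.1, rf5h14.2.2.2.2.2.1.1⟩
theorem rf5k31 : CfgOK (rf5c31.e, rf5c31.n) := red_ln rf5h4.2.2.2.2.2.2.2.2.2.2.1 ⟨⟨rf5h4.2.2.2.2.2.2.2.2.2.2.1.1, rf5h14.2.2.2.2.1.1⟩, ⟨rf5h10.2.2.2.2.2.2.2.2.2.2.2.2.2.2.2.2.2.2.2.1.1, rf5h17.2.2.2.2.2.2.2.2.1.1⟩⟩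
theorem rf5k32 : CfgOK (rf5c32.e, rf5c32.n) := red_ln rf5h4.2.2.2.2.2.2.2.2.2.1 ⟨⟨rf5h4.2.2.2.2.2.2.2.2.2.1.1, rf5h14.2.2.2.1.1⟩, ⟨rf5h13.2.2.2.2.2.2.2.2.2.2.2.2.2.2.2.2.2.2.2.2.1.1, rf5h18.1.1⟩⟩
theorem rf5k33 : CfgOK (rf5c33.e, rf5c33.n) := red_ln rf5h4.2.2.2.2.2.2.2.2.1 ⟨⟨rf5h4.2.2.2.2.2.2.2.2.1.1, rf5h13.2.2.2.2.2.2.2.2.2.2.2.2.2.2.2.2.2.2.2.1.1⟩, ⟨rf5h10.2.2.2.2.2.2.2.2.2.2.2.2.2.2.2.2.2.2.1.1, rf5h17.2.2.2.2.2.2.2.1.1⟩⟩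
theorem rf5k34 : CfgOK (rf5c34.e, rf5c34.n) := red_ln rf5h4.2.2.2.2.2.2.2.1 rf5h4.2.2.2.2.2.2.2.1.1
theorem rf5k35 : CfgOK (rf5c35.e, rf5c35.n) := red_ln rf5h4.2.2.2.2.2.2.1 rf5h4.2.2.2.2.2.2.1.1
theorem rf5k36 : CfgOK (rf5c36.e, rf5c36.n) := red_ln rf5h4.2.2.2.2.2.1 rf5h4.2.2.2.2.2.1.1
theorem rf5k37 : CfgOK (rf5c37.e, rf5c37.n) := red_ln rf5h4.2.2.2.2.1 rf5h4.2.2.2.2.1.1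
theorem rf5k38 : CfgOK (rf5c38.e, rf5c38.n) := red_ln rf5h4.2.2.2.1 rf5h4.2.2.2.1.1
theorem rf5k39 : CfgOK (rf5c39.e, rf5c39.n) := red_ln rf5h4.2.2.1 rf5h4.2.2.1.1
theorem rf5k40 : CfgOK (rf5c40.e, rf5c40.n) := red_ln rf5h4.2.1 rf5h4.2.1.1
theorem rf5k41 : CfgOK (rf5c41.e, rf5c41.n) := red_ln rf5h4.1 rf5h4.1.1
theorem rf5k42 : CfgOK (rf5c42.e, rf5c42.n) := red_ln rf5h3.2.2.2.2.2.2.2.2.2.2.2.2.2.2.2.2.2.2.2.2.2.2.2.1 rf5h3.2.2.2.2.2.2.2.2.2.2.2.2.2.2.2.2.2.2.2.2.2.2.2.1.1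
theorem rf5k43 : CfgOK (rf5c43.e, rf5c43.n) := red_ln rf5h3.2.2.2.2.2.2.2.2.2.2.2.2.2.2.2.2.2.2.2.2.2.2.1 rf5h3.2.2.2.2.2.2.2.2.2.2.2.2.2.2.2.2.2.2.2.2.2.2.1.1
theorem rf5k44 : CfgOK (rf5c44.e, rf5c44.n) := red_ln rf5h3.2.2.2.2.2.2.2.2.2.2.2.2.2.2.2.2.2.2.2.2.2.1 rf5h3.2.2.2.2.2.2.2.2.2.2.2.2.2.2.2.2.2.2.2.2.2.1.1
theorem rf5k45 : CfgOK (rf5c45.e, rf5c45.n) := red_ln rf5h3.2.2.2.2.2.2.2.2.2.2.2.2.2.2.2.2.2.2.2.2.1 rf5h3.2.2.2.2.2.2.2.2.2.2.2.2.2.2.2.2.2.2.2.2.1.1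
theorem rf5k46 : CfgOK (rf5c46.e, rf5c46.n) := red_ln rf5h3.2.2.2.2.2.2.2.2.2.2.2.2.2.2.2.2.2.2.2.1 rf5h3.2.2.2.2.2.2.2.2.2.2.2.2.2.2.2.2.2.2.2.1.1
theorem rf5k47 : CfgOK (rf5c47.e, rf5c47.n) := red_ln rf5h3.2.2.2.2.2.2.2.2.2.2.2.2.2.2.2.2.2.2.1 rf5h3.2.2.2.2.2.2.2.2.2.2.2.2.2.2.2.2.2.2.1.1
theorem rf5k48 : CfgOK (rf5c48.e, rf5c48.n) := red_ln rf5h3.2.2.2.2.2.2.2.2.2.2.2.2.2.2.2.2.2.1 rf5h3.2.2.2.2.2.2.2.2.2.2.2.2.2.2.2.2.2.1.1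
theorem rf5k49 : CfgOK (rf5c49.e, rf5c49.n) := red_ln rf5h3.2.2.2.2.2.2.2.2.2.2.2.2.2.2.2.2.1 rf5h3.2.2.2.2.2.2.2.2.2.2.2.2.2.2.2.2.1.1
theorem rf5k50 : CfgOK (rf5c50.e, rf5c50.n) := red_ln rf5h3.2.2.2.2.2.2.2.2.2.2.2.2.2.2.2.1 rf5h3.2.2.2.2.2.2.2.2.2.2.2.2.2.2.2.1.1
theorem rf5k51 : CfgOK (rf5c51.e, rf5c51.n) := red_ln rf5h3.2.2.2.2.2.2.2.2.2.2.2.2.2.2.1 rf5h3.2.2.2.2.2.2.2.2.2.2.2.2.2.2.1.1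
theorem rf5k52 : CfgOK (rf5c52.e, rf5c52.n) := red_ln rf5h3.2.2.2.2.2.2.2.2.2.2.2.2.2.1 rf5h3.2.2.2.2.2.2.2.2.2.2.2.2.2.1.1
theorem rf5k53 : CfgOK (rf5c53.e, rf5c53.n) := red_ln rf5h3.2.2.2.2.2.2.2.2.2.2.2.2.1 rf5h3.2.2.2.2.2.2.2.2.2.2.2.2.1.1
theorem rf5k54 : CfgOK (rf5c54.e, rf5c54.n) := red_ln rf5h3.2.2.2.2.2.2.2.2.2.2.2.1 rf5h3.2.2.2.2.2.2.2.2.2.2.2.1.1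
theorem rf5k55 : CfgOK (rf5c55.e, rf5c55.n) := red_ln rf5h3.2.2.2.2.2.2.2.2.2.2.1 rf5h3.2.2.2.2.2.2.2.2.2.2.1.1
theorem rf5k56 : CfgOK (rf5c56.e, rf5c56.n) := red_ln rf5h3.2.2.2.2.2.2.2.2.2.1 rf5h3.2.2.2.2.2.2.2.2.2.1.1
theorem rf5k57 : CfgOK (rf5c57.e, rf5c57.n) := red_ln rf5h3.2.2.2.2.2.2.2.2.1 rf5h3.2.2.2.2.2.2.2.2.1.1
theorem rf5k58 : CfgOK (rf5c58.e, rf5c58.n) := red_ln rf5h3.2.2.2.2.2.2.2.1 rf5h3.2.2.2.2.2.2.2.1.1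
theorem rf5k59 : CfgOK (rf5c59.e, rf5c59.n) := red_ln rf5h3.2.2.2.2.2.2.1 rf5h3.2.2.2.2.2.2.1.1
theorem rf5k60 : CfgOK (rf5c60.e, rf5c60.n) := red_ln rf5h3.2.2.2.2.2.1 rf5h3.2.2.2.2.2.1.1
theorem rf5k61 : CfgOK (rf5c61.e, rf5c61.n) := red_ln rf5h3.2.2.2.2.1 rf5h3.2.2.2.2.1.1
theorem rf5k62 : CfgOK (rf5c62.e, rf5c62.n) := red_ln rf5h3.2.2.2.1 rf5h3.2.2.2.1.1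
theorem rf5k63 : CfgOK (rf5c63.e, rf5c63.n) := red_ln rf5h3.2.2.1 rf5h3.2.2.1.1
theorem rf5k64 : CfgOK (rf5c64.e, rf5c64.n) := red_ln rf5h3.2.1 rf5h3.2.1.1
theorem rf5k65 : CfgOK (rf5c65.e, rf5c65.n) := red_ln rf5h3.1 rf5h3.1.1
theorem rf5k66 : CfgOK (rf5c66.e, rf5c66.n) := red_ln rf5h2.2.2.2.2.2.2.2.2.2.2.2.2.2.2.2.2.2.2.2.2.2.2.2.1 rf5h2.2.2.2.2.2.2.2.2.2.2.2.2.2.2.2.2.2.2.2.2.2.2.2.1.1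
theorem rf5k67 : CfgOK (rf5c67.e, rf5c67.n) := red_ln rf5h2.2.2.2.2.2.2.2.2.2.2.2.2.2.2.2.2.2.2.2.2.2.2.1 rf5h2.2.2.2.2.2.2.2.2.2.2.2.2.2.2.2.2.2.2.2.2.2.2.1.1
theorem rf5k68 : CfgOK (rf5c68.e, rf5c68.n) := red_ln rf5h2.2.2.2.2.2.2.2.2.2.2.2.2.2.2.2.2.2.2.2.2.2.1 rf5h2.2.2.2.2.2.2.2.2.2.2.2.2.2.2.2.2.2.2.2.2.2.1.1
theorem rf5k69 : CfgOK (rf5c69.e, rf5c69.n) := red_ln rf5h2.2.2.2.2.2.2.2.2.2.2.2.2.2.2.2.2.2.2.2.2.1 rf5h2.2.2.2.2.2.2.2.2.2.2.2.2.2.2.2.2.2.2.2.2.1.1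
theorem rf5k70 : CfgOK (rf5c70.e, rf5c70.n) := red_ln rf5h2.2.2.2.2.2.2.2.2.2.2.2.2.2.2.2.2.2.2.2.1 rf5h2.2.2.2.2.2.2.2.2.2.2.2.2.2.2.2.2.2.2.2.1.1
theorem rf5k71 : CfgOK (rf5c71.e, rf5c71.n) := red_ln rf5h2.2.2.2.2.2.2.2.2.2.2.2.2.2.2.2.2.2.2.1 rf5h2.2.2.2.2.2.2.2.2.2.2.2.2.2.2.2.2.2.2.1.1
theorem rf5k72 : CfgOK (rf5c72.e, rf5c72.n) := red_ln rf5h2.2.2.2.2.2.2.2.2.2.2.2.2.2.2.2.2.2.1 rf5h2.2.2.2.2.2.2.2.2.2.2.2.2.2.2.2.2.2.1.1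
theorem rf5k73 : CfgOK (rf5c73.e, rf5c73.n) := red_ln rf5h2.2.2.2.2.2.2.2.2.2.2.2.2.2.2.2.2.1 rf5h2.2.2.2.2.2.2.2.2.2.2.2.2.2.2.2.2.1.1
theorem rf5k74 : CfgOK (rf5c74.e, rf5c74.n) := red_ln rf5h2.2.2.2.2.2.2.2.2.2.2.2.2.2.2.2.1 rf5h2.2.2.2.2.2.2.2.2.2.2.2.2.2.2.2.1.1
theorem rf5k75 : CfgOK (rf5c75.e, rf5c75.n) := red_ln rf5h2.2.2.2.2.2.2.2.2.2.2.2.2.2.2.1 ⟨rf5h2.2.2.2.2.2.2.2.2.2.2.2.2.2.2.1.1, rf5h10.2.2.2.2.2.2.2.2.2.2.2.2.2.2.2.2.2.1.1⟩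
theorem rf5k76 : CfgOK (rf5c76.e, rf5c76.n) := red_ln rf5h2.2.2.2.2.2.2.2.2.2.2.2.2.2.1 ⟨rf5h2.2.2.2.2.2.2.2.2.2.2.2.2.2.1.1, rf5h10.2.2.2.2.2.2.2.2.2.2.2.2.2.2.2.2.1.1⟩
theorem rf5k77 : CfgOK (rf5c77.e, rf5c77.n) := red_ln rf5h2.2.2.2.2.2.2.2.2.2.2.2.2.1 ⟨rf5h2.2.2.2.2.2.2.2.2.2.2.2.2.1.1, rf5h10.2.2.2.2.2.2.2.2.2.2.2.2.2.2.2.1.1⟩
theorem rf5k78 : CfgOK (rf5c78.e, rf5c78.n) := red_ln rf5h2.2.2.2.2.2.2.2.2.2.2.2.1 ⟨rf5h2.2.2.2.2.2.2.2.2.2.2.2.1.1, rf5h10.2.2.2.2.2.2.2.2.2.2.2.2.2.2.1.1⟩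
theorem rf5k79 : CfgOK (rf5c79.e, rf5c79.n) := red_ln rf5h2.2.2.2.2.2.2.2.2.2.2.1 ⟨rf5h2.2.2.2.2.2.2.2.2.2.2.1.1, rf5h10.2.2.2.2.2.2.2.2.2.2.2.2.2.1.1⟩
theorem rf5k80 : CfgOK (rf5c80.e, rf5c80.n) := red_ln rf5h2.2.2.2.2.2.2.2.2.2.1 ⟨rf5h2.2.2.2.2.2.2.2.2.2.1.1, rf5h10.2.2.2.2.2.2.2.2.2.2.2.2.1.1⟩
theorem rf5k81 : CfgOK (rf5c81.e, rf5c81.n) := red_ln rf5h2.2.2.2.2.2.2.2.2.1 ⟨rf5h2.2.2.2.2.2.2.2.2.1.1, rf5h10.2.2.2.2.2.2.2.2.2.2.2.1.1⟩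
theorem rf5k82 : CfgOK (rf5c82.e, rf5c82.n) := red_ln rf5h2.2.2.2.2.2.2.2.1 ⟨rf5h2.2.2.2.2.2.2.2.1.1, rf5h10.2.2.2.2.2.2.2.2.2.2.1.1⟩
theorem rf5k83 : CfgOK (rf5c83.e, rf5c83.n) := red_ln rf5h2.2.2.2.2.2.2.1 ⟨rf5h2.2.2.2.2.2.2.1.1, rf5h10.2.2.2.2.2.2.2.2.2.1.1⟩
theorem rf5k84 : CfgOK (rf5c84.e, rf5c84.n) := red_ln rf5h2.2.2.2.2.2.1 ⟨rf5h2.2.2.2.2.2.1.1, rf5h10.2.2.2.2.2.2.2.2.1.1⟩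
theorem rf5k85 : CfgOK (rf5c85.e, rf5c85.n) := red_ln rf5h2.2.2.2.2.1 ⟨rf5h2.2.2.2.2.1.1, rf5h10.2.2.2.2.2.2.2.1.1⟩
theorem rf5k86 : CfgOK (rf5c86.e, rf5c86.n) := red_ln rf5h2.2.2.2.1 ⟨rf5h2.2.2.2.1.1, rf5h10.2.2.2.2.2.2.1.1⟩
theorem rf5k87 : CfgOK (rf5c87.e, rf5c87.n) := red_ln rf5h2.2.2.1 ⟨rf5h2.2.2.1.1, rf5h10.2.2.2.2.2.1.1⟩
theorem rf5k88 : CfgOK (rf5c88.e, rf5c88.n) := red_ln rf5h2.2.1 ⟨rf5h2.2.1.1, rf5h10.2.2.2.2.1.1⟩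
theorem rf5k89 : CfgOK (rf5c89.e, rf5c89.n) := red_ln rf5h2.1 ⟨rf5h2.1.1, rf5h10.2.2.2.1.1⟩
theorem rf5k90 : CfgOK (rf5c90.e, rf5c90.n) := red_ln rf5h26.2.2.2.2.2.2.2.2.2.2.2.2.2.2.2.2.2.2.2.2.2.2.2.1 ⟨rf5h26.2.2.2.2.2.2.2.2.2.2.2.2.2.2.2.2.2.2.2.2.2.2.2.1.1, rf5h10.2.2.1.1⟩
theorem rf5k91 : CfgOK (rf5c91.e, rf5c91.n) := red_ln rf5h26.2.2.2.2.2.2.2.2.2.2.2.2.2.2.2.2.2.2.2.2.2.2.1 ⟨rf5h26.2.2.2.2.2.2.2.2.2.2.2.2.2.2.2.2.2.2.2.2.2.2.1.1, rf5h10.2.1.1⟩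
theorem rf5k92 : CfgOK (rf5c92.e, rf5c92.n) := red_ln rf5h26.2.2.2.2.2.2.2.2.2.2.2.2.2.2.2.2.2.2.2.2.2.1 ⟨rf5h26.2.2.2.2.2.2.2.2.2.2.2.2.2.2.2.2.2.2.2.2.2.1.1, rf5h10.1.1⟩
theorem rf5k93 : CfgOK (rf5c93.e, rf5c93.n) := red_ln rf5h26.2.2.2.2.2.2.2.2.2.2.2.2.2.2.2.2.2.2.2.2.1 ⟨rf5h26.2.2.2.2.2.2.2.2.2.2.2.2.2.2.2.2.2.2.2.2.1.1, rf5h9.2.2.2.2.2.2.2.2.2.2.2.2.2.2.2.2.2.2.2.2.2.2.2.2.2.2.2.2.2.2.2.2.2.2.2.2.2.2.2.1.1⟩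
theorem rf5k94 : CfgOK (rf5c94.e, rf5c94.n) := red_ln rf5h26.2.2.2.2.2.2.2.2.2.2.2.2.2.2.2.2.2.2.2.1 ⟨rf5h26.2.2.2.2.2.2.2.2.2.2.2.2.2.2.2.2.2.2.2.1.1, rf5h9.2.2.2.2.2.2.2.2.2.2.2.2.2.2.2.2.2.2.2.2.2.2.2.2.2.2.2.2.2.2.2.2.2.2.2.2.2.2.1.1⟩
theorem rf5k95 : CfgOK (rf5c95.e, rf5c95.n) := red_ln rf5h26.2.2.2.2.2.2.2.2.2.2.2.2.2.2.2.2.2.2.1 ⟨rf5h26.2.2.2.2.2.2.2.2.2.2.2.2.2.2.2.2.2.2.1.1, rf5h9.2.2.2.2.2.2.2.2.2.2.2.2.2.2.2.2.2.2.2.2.2.2.2.2.2.2.2.2.2.2.2.2.2.2.2.2.2.1.1⟩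
theorem rf5k96 : CfgOK (rf5c96.e, rf5c96.n) := red_ln rf5h26.2.2.2.2.2.2.2.2.2.2.2.2.2.2.2.2.2.1 ⟨rf5h26.2.2.2.2.2.2.2.2.2.2.2.2.2.2.2.2.2.1.1, rf5h9.2.2.2.2.2.2.2.2.2.2.2.2.2.2.2.2.2.2.2.2.2.2.2.2.2.2.2.2.2.2.2.2.2.2.2.2.1.1⟩
theorem rf5k97 : CfgOK (rf5c97.e, rf5c97.n) := red_ln rf5h26.2.2.2.2.2.2.2.2.2.2.2.2.2.2.2.2.1 ⟨rf5h26.2.2.2.2.2.2.2.2.2.2.2.2.2.2.2.2.1.1, rf5h9.2.2.2.2.2.2.2.2.2.2.2.2.2.2.2.2.2.2.2.2.2.2.2.2.2.2.2.2.2.2.2.2.2.2.2.1.1⟩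
theorem rf5k98 : CfgOK (rf5c98.e, rf5c98.n) := red_ln rf5h26.2.2.2.2.2.2.2.2.2.2.2.2.2.2.2.1 ⟨rf5h26.2.2.2.2.2.2.2.2.2.2.2.2.2.2.2.1.1, rf5h9.2.2.2.2.2.2.2.2.2.2.2.2.2.2.2.2.2.2.2.2.2.2.2.2.2.2.2.2.2.2.2.2.2.2.1.1⟩
theorem rf5k99 : CfgOK (rf5c99.e, rf5c99.n) := red_ln rf5h26.2.2.2.2.2.2.2.2.2.2.2.2.2.2.1 ⟨rf5h26.2.2.2.2.2.2.2.2.2.2.2.2.2.2.1.1, rf5h9.2.2.2.2.2.2.2.2.2.2.2.2.2.2.2.2.2.2.2.2.2.2.2.2.2.2.2.2.2.2.2.2.2.1.1⟩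
theorem rf5k100 : CfgOK (rf5c100.e, rf5c100.n) := red_ln rf5h26.2.2.2.2.2.2.2.2.2.2.2.2.2.1 ⟨rf5h26.2.2.2.2.2.2.2.2.2.2.2.2.2.1.1, rf5h9.2.2.2.2.2.2.2.2.2.2.2.2.2.2.2.2.2.2.2.2.2.2.2.2.2.2.2.2.2.2.2.2.1.1⟩
theorem rf5k101 : CfgOK (rf5c101.e, rf5c101.n) := red_ln rf5h26.2.2.2.2.2.2.2.2.2.2.2.2.1 ⟨⟨rf5h26.2.2.2.2.2.2.2.2.2.2.2.2.1.1, rf5h9.2.2.2.2.2.2.2.2.2.2.2.2.2.2.2.2.2.2.2.2.2.2.2.2.2.2.2.2.2.2.2.1.1⟩, ⟨rf5h14.2.2.1.1, rf5h17.2.2.2.2.2.2.1.1⟩⟩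
theorem rf5k102 : CfgOK (rf5c102.e, rf5c102.n) := red_ln rf5h26.2.2.2.2.2.2.2.2.2.2.2.1 ⟨⟨rf5h26.2.2.2.2.2.2.2.2.2.2.2.1.1, rf5h9.2.2.2.2.2.2.2.2.2.2.2.2.2.2.2.2.2.2.2.2.2.2.2.2.2.2.2.2.2.2.1.1⟩, ⟨rf5h14.2.1.1, rf5h17.2.2.2.2.2.1.1⟩⟩
theorem rf5k103 : CfgOK (rf5c103.e, rf5c103.n) := red_ln rf5h26.2.2.2.2.2.2.2.2.2.2.1 ⟨⟨rf5h26.2.2.2.2.2.2.2.2.2.2.1.1, rf5h9.2.2.2.2.2.2.2.2.2.2.2.2.2.2.2.2.2.2.2.2.2.2.2.2.2.2.2.2.2.1.1⟩, ⟨rf5h14.1.1, rf5h17.2.2.2.2.1.1⟩⟩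
theorem rf5k104 : CfgOK (rf5c104.e, rf5c104.n) := red_ln rf5h26.2.2.2.2.2.2.2.2.2.1 ⟨⟨rf5h26.2.2.2.2.2.2.2.2.2.1.1, rf5h9.2.2.2.2.2.2.2.2.2.2.2.2.2.2.2.2.2.2.2.2.2.2.2.2.2.2.2.2.1.1⟩, ⟨rf5h13.2.2.2.2.2.2.2.2.2.2.2.2.2.2.2.2.2.2.1.1, rf5h17.2.2.2.1.1⟩⟩
theorem rf5k105 : CfgOK (rf5c105.e, rf5c105.n) := red_ln rf5h26.2.2.2.2.2.2.2.2.1 ⟨⟨rf5h26.2.2.2.2.2.2.2.2.1.1, rf5h9.2.2.2.2.2.2.2.2.2.2.2.2.2.2.2.2.2.2.2.2.2.2.2.2.2.2.2.1.1⟩, ⟨rf5h13.2.2.2.2.2.2.2.2.2.1.1, rf5h17.2.2.1.1⟩⟩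
theorem rf5k106 : CfgOK (rf5c106.e, rf5c106.n) := red_ln rf5h26.2.2.2.2.2.2.2.1 ⟨⟨rf5h26.2.2.2.2.2.2.2.1.1, rf5h9.2.2.2.2.2.2.2.2.2.2.2.2.2.2.2.2.2.2.2.2.2.2.2.2.2.2.1.1⟩, ⟨rf5h13.2.2.2.2.2.2.2.2.1.1, rf5h17.2.1.1⟩⟩
theorem rf5k107 : CfgOK (rf5c107.e, rf5c107.n) := red_ln rf5h26.2.2.2.2.2.2.1 ⟨⟨rf5h26.2.2.2.2.2.2.1.1, rf5h9.2.2.2.2.2.2.2.2.2.2.2.2.2.2.2.2.2.2.2.2.2.2.2.2.2.1.1⟩, ⟨rf5h13.2.2.2.2.2.2.2.1.1, rf5h17.1.1⟩⟩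
theorem rf5k108 : CfgOK (rf5c108.e, rf5c108.n) := red_ln rf5h26.2.2.2.2.2.1 ⟨⟨rf5h26.2.2.2.2.2.1.1, rf5h15.2.2.2.1.1⟩, ⟨rf5h9.2.2.2.2.2.2.2.2.2.2.2.2.2.2.2.2.2.2.2.2.2.2.2.2.1.1, rf5h16.2.2.2.2.2.2.2.2.2.2.2.2.2.2.2.2.2.2.2.2.2.2.2.2.2.2.2.2.2.2.2.2.2.2.2.2.2.2.2.1.1⟩⟩
theorem rf5k109 : CfgOK (rf5c109.e, rf5c109.n) := red_ln rf5h26.2.2.2.2.1 ⟨⟨rf5h26.2.2.2.2.1.1, rf5h14.2.2.2.2.2.2.2.2.2.2.2.2.2.2.2.2.2.1.1⟩, ⟨rf5h9.2.2.2.2.2.2.2.2.2.2.2.2.2.2.2.2.2.2.2.2.2.2.2.1.1, rf5h16.2.2.2.2.2.2.2.2.2.2.2.2.2.2.2.2.2.2.2.2.2.2.2.2.2.2.2.2.2.2.2.2.2.2.2.2.2.2.1.1⟩⟩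
theorem rf5k110 : CfgOK (rf5c110.e, rf5c110.n) := red_ln rf5h26.2.2.2.1 ⟨rf5h26.2.2.2.1.1, rf5h13.2.2.2.2.2.2.2.2.2.2.2.2.2.2.2.2.2.2.2.2.2.2.2.2.2.2.2.2.2.1.1⟩
theorem rf5k111 : CfgOK (rf5c111.e, rf5c111.n) := red_ln rf5h26.2.2.1 ⟨rf5h26.2.2.1.1, rf5h13.2.2.2.2.2.2.2.2.2.2.2.2.2.2.2.2.2.2.2.2.2.2.2.2.2.2.2.2.1.1⟩
theorem rf5k112 : CfgOK (rf5c112.e, rf5c112.n) := red_ln rf5h26.2.1 ⟨⟨rf5h26.2.1.1, rf5h13.2.2.2.2.2.2.2.2.2.2.2.2.2.2.2.2.2.2.2.2.2.2.2.2.2.2.2.1.1⟩, ⟨rf5h9.2.2.2.2.2.2.2.2.2.2.2.2.2.2.2.2.2.2.2.2.2.2.1.1, rf5h16.2.2.2.2.2.2.2.2.2.2.2.2.2.2.2.2.2.2.2.2.2.2.2.2.2.2.2.2.2.2.2.2.2.2.2.2.2.1.1⟩⟩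
theorem rf5k113 : CfgOK (rf5c113.e, rf5c113.n) := red_ln rf5h26.1 ⟨rf5h26.1.1, rf5h13.2.2.2.2.2.2.2.2.2.2.2.2.2.2.2.2.2.1.1⟩
theorem rf5k114 : CfgOK (rf5c114.e, rf5c114.n) := red_ln rf5h25.2.2.2.2.2.2.2.2.2.2.2.2.2.2.2.2.2.2.2.2.2.2.2.1 ⟨⟨rf5h25.2.2.2.2.2.2.2.2.2.2.2.2.2.2.2.2.2.2.2.2.2.2.2.1.1, rf5h13.2.2.2.2.2.2.2.2.2.2.2.2.2.2.2.2.1.1⟩, ⟨rf5h9.2.2.2.2.2.2.2.2.2.2.2.2.2.2.2.2.2.2.2.2.2.1.1, rf5h16.2.2.2.2.2.2.2.2.2.2.2.2.2.2.2.2.2.2.2.2.2.2.2.2.2.2.2.2.2.2.2.2.2.2.2.2.1.1⟩⟩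
theorem rf5k115 : CfgOK (rf5c115.e, rf5c115.n) := red_ln rf5h25.2.2.2.2.2.2.2.2.2.2.2.2.2.2.2.2.2.2.2.2.2.2.1 ⟨⟨rf5h25.2.2.2.2.2.2.2.2.2.2.2.2.2.2.2.2.2.2.2.2.2.2.1.1, rf5h13.2.2.2.2.2.2.2.2.2.2.2.2.2.2.2.1.1⟩, ⟨rf5h9.2.2.2.2.2.2.2.2.2.2.2.2.2.2.2.2.2.2.2.2.1.1, rf5h16.2.2.2.2.2.2.2.2.2.2.2.2.2.2.2.2.2.2.2.2.2.2.2.2.2.2.2.2.2.2.2.2.2.2.2.1.1⟩⟩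
theorem rf5k116 : CfgOK (rf5c116.e, rf5c116.n) := red_ln rf5h25.2.2.2.2.2.2.2.2.2.2.2.2.2.2.2.2.2.2.2.2.2.1 ⟨rf5h25.2.2.2.2.2.2.2.2.2.2.2.2.2.2.2.2.2.2.2.2.2.1.1, rf5h13.2.2.2.2.2.2.1.1⟩
theorem rf5k117 : CfgOK (rf5c117.e, rf5c117.n) := red_ln rf5h25.2.2.2.2.2.2.2.2.2.2.2.2.2.2.2.2.2.2.2.2.1 ⟨rf5h25.2.2.2.2.2.2.2.2.2.2.2.2.2.2.2.2.2.2.2.2.1.1, rf5h13.2.2.2.2.2.1.1⟩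
theorem rf5k118 : CfgOK (rf5c118.e, rf5c118.n) := red_ln rf5h25.2.2.2.2.2.2.2.2.2.2.2.2.2.2.2.2.2.2.2.1 ⟨⟨rf5h25.2.2.2.2.2.2.2.2.2.2.2.2.2.2.2.2.2.2.2.1.1, rf5h13.2.2.2.2.1.1⟩, ⟨rf5h9.2.2.2.2.2.2.2.2.2.2.2.2.2.2.2.2.2.2.2.1.1, rf5h16.2.2.2.2.2.2.2.2.2.2.2.2.2.2.2.2.2.2.2.2.2.2.2.2.2.2.2.2.2.2.2.2.2.2.1.1⟩⟩
theorem rf5k119 : CfgOK (rf5c119.e, rf5c119.n) := red_ln rf5h25.2.2.2.2.2.2.2.2.2.2.2.2.2.2.2.2.2.2.1 ⟨rf5h25.2.2.2.2.2.2.2.2.2.2.2.2.2.2.2.2.2.2.1.1, rf5h11.2.2.2.2.2.2.2.2.2.2.2.2.2.2.2.2.2.2.1.1⟩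
theorem rf5k120 : CfgOK (rf5c120.e, rf5c120.n) := red_ln rf5h25.2.2.2.2.2.2.2.2.2.2.2.2.2.2.2.2.2.1 ⟨rf5h25.2.2.2.2.2.2.2.2.2.2.2.2.2.2.2.2.2.1.1, rf5h11.2.2.2.2.2.2.2.2.2.2.2.1.1⟩
theorem rf5k121 : CfgOK (rf5c121.e, rf5c121.n) := red_ln rf5h25.2.2.2.2.2.2.2.2.2.2.2.2.2.2.2.2.1 ⟨⟨rf5h25.2.2.2.2.2.2.2.2.2.2.2.2.2.2.2.2.1.1, rf5h11.2.2.2.2.2.2.2.2.2.2.1.1⟩, ⟨rf5h9.2.2.2.2.2.2.2.2.2.2.2.2.2.2.2.2.2.2.1.1, rf5h16.2.2.2.2.2.2.2.2.2.2.2.2.2.2.2.2.2.2.2.2.2.2.2.2.2.2.2.2.2.2.2.2.2.1.1⟩⟩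
theorem rf5k122 : CfgOK (rf5c122.e, rf5c122.n) := red_ln rf5h25.2.2.2.2.2.2.2.2.2.2.2.2.2.2.2.1 ⟨rf5h25.2.2.2.2.2.2.2.2.2.2.2.2.2.2.2.1.1, rf5h11.2.2.2.2.1.1⟩
theorem rf5k123 : CfgOK (rf5c123.e, rf5c123.n) := red_ln rf5h25.2.2.2.2.2.2.2.2.2.2.2.2.2.2.1 rf5h25.2.2.2.2.2.2.2.2.2.2.2.2.2.2.1.1
theorem rf5k124 : CfgOK (rf5c124.e, rf5c124.n) := red_ln rf5h25.2.2.2.2.2.2.2.2.2.2.2.2.2.1 rf5h25.2.2.2.2.2.2.2.2.2.2.2.2.2.1.1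
theorem rf5k125 : CfgOK (rf5c125.e, rf5c125.n) := red_ln rf5h25.2.2.2.2.2.2.2.2.2.2.2.2.1 rf5h25.2.2.2.2.2.2.2.2.2.2.2.2.1.1
theorem rf5k126 : CfgOK (rf5c126.e, rf5c126.n) := red_ln rf5h25.2.2.2.2.2.2.2.2.2.2.2.1 rf5h25.2.2.2.2.2.2.2.2.2.2.2.1.1
theorem rf5k127 : CfgOK (rf5c127.e, rf5c127.n) := red_ln rf5h25.2.2.2.2.2.2.2.2.2.2.1 rf5h25.2.2.2.2.2.2.2.2.2.2.1.1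
theorem rf5k128 : CfgOK (rf5c128.e, rf5c128.n) := red_ln rf5h25.2.2.2.2.2.2.2.2.2.1 rf5h25.2.2.2.2.2.2.2.2.2.1.1
theorem rf5k129 : CfgOK (rf5c129.e, rf5c129.n) := red_ln rf5h25.2.2.2.2.2.2.2.2.1 rf5h25.2.2.2.2.2.2.2.2.1.1
theorem rf5k130 : CfgOK (rf5c130.e, rf5c130.n) := red_ln rf5h25.2.2.2.2.2.2.2.1 rf5h25.2.2.2.2.2.2.2.1.1
theorem rf5k131 : CfgOK (rf5c131.e, rf5c131.n) := red_ln rf5h25.2.2.2.2.2.2.1 rf5h25.2.2.2.2.2.2.1.1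
theorem rf5k132 : CfgOK (rf5c132.e, rf5c132.n) := red_ln rf5h25.2.2.2.2.2.1 rf5h25.2.2.2.2.2.1.1
theorem rf5k133 : CfgOK (rf5c133.e, rf5c133.n) := red_ln rf5h25.2.2.2.2.1 rf5h25.2.2.2.2.1.1
theorem rf5k134 : CfgOK (rf5c134.e, rf5c134.n) := red_ln rf5h25.2.2.2.1 rf5h25.2.2.2.1.1
theorem rf5k135 : CfgOK (rf5c135.e, rf5c135.n) := red_ln rf5h25.2.2.1 rf5h25.2.2.1.1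
theorem rf5k136 : CfgOK (rf5c136.e, rf5c136.n) := red_ln rf5h25.2.1 rf5h25.2.1.1
theorem rf5k137 : CfgOK (rf5c137.e, rf5c137.n) := red_ln rf5h25.1 rf5h25.1.1
theorem rf5k138 : CfgOK (rf5c138.e, rf5c138.n) := red_ln rf5h24.2.2.2.2.2.2.2.2.2.2.2.2.2.2.2.2.2.2.2.2.2.2.2.1 rf5h24.2.2.2.2.2.2.2.2.2.2.2.2.2.2.2.2.2.2.2.2.2.2.2.1.1
theorem rf5k139 : CfgOK (rf5c139.e, rf5c139.n) := red_ln rf5h24.2.2.2.2.2.2.2.2.2.2.2.2.2.2.2.2.2.2.2.2.2.2.1 rf5h24.2.2.2.2.2.2.2.2.2.2.2.2.2.2.2.2.2.2.2.2.2.2.1.1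
theorem rf5k140 : CfgOK (rf5c140.e, rf5c140.n) := red_ln rf5h24.2.2.2.2.2.2.2.2.2.2.2.2.2.2.2.2.2.2.2.2.2.1 rf5h24.2.2.2.2.2.2.2.2.2.2.2.2.2.2.2.2.2.2.2.2.2.1.1
theorem rf5k141 : CfgOK (rf5c141.e, rf5c141.n) := red_ln rf5h24.2.2.2.2.2.2.2.2.2.2.2.2.2.2.2.2.2.2.2.2.1 rf5h24.2.2.2.2.2.2.2.2.2.2.2.2.2.2.2.2.2.2.2.2.1.1
theorem rf5k142 : CfgOK (rf5c142.e, rf5c142.n) := red_ln rf5h24.2.2.2.2.2.2.2.2.2.2.2.2.2.2.2.2.2.2.2.1 rf5h24.2.2.2.2.2.2.2.2.2.2.2.2.2.2.2.2.2.2.2.1.1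
theorem rf5k143 : CfgOK (rf5c143.e, rf5c143.n) := red_ln rf5h24.2.2.2.2.2.2.2.2.2.2.2.2.2.2.2.2.2.2.1 rf5h24.2.2.2.2.2.2.2.2.2.2.2.2.2.2.2.2.2.2.1.1
theorem rf5k144 : CfgOK (rf5c144.e, rf5c144.n) := red_ln rf5h24.2.2.2.2.2.2.2.2.2.2.2.2.2.2.2.2.2.1 ⟨rf5h24.2.2.2.2.2.2.2.2.2.2.2.2.2.2.2.2.2.1.1, rf5h9.2.2.2.2.2.2.2.2.2.2.2.2.2.2.2.2.2.1.1⟩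
theorem rf5k145 : CfgOK (rf5c145.e, rf5c145.n) := red_ln rf5h24.2.2.2.2.2.2.2.2.2.2.2.2.2.2.2.2.1 ⟨rf5h24.2.2.2.2.2.2.2.2.2.2.2.2.2.2.2.2.1.1, rf5h9.2.2.2.2.2.2.2.2.2.2.2.2.2.2.2.2.1.1⟩
theorem rf5k146 : CfgOK (rf5c146.e, rf5c146.n) := red_ln rf5h24.2.2.2.2.2.2.2.2.2.2.2.2.2.2.2.1 ⟨rf5h24.2.2.2.2.2.2.2.2.2.2.2.2.2.2.2.1.1, rf5h9.2.2.2.2.2.2.2.2.2.2.2.2.2.2.2.1.1⟩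
theorem rf5k147 : CfgOK (rf5c147.e, rf5c147.n) := red_ln rf5h24.2.2.2.2.2.2.2.2.2.2.2.2.2.2.1 ⟨rf5h24.2.2.2.2.2.2.2.2.2.2.2.2.2.2.1.1, rf5h9.2.2.2.2.2.2.2.2.2.2.2.2.2.2.1.1⟩
theorem rf5k148 : CfgOK (rf5c148.e, rf5c148.n) := red_ln rf5h24.2.2.2.2.2.2.2.2.2.2.2.2.2.1 ⟨rf5h24.2.2.2.2.2.2.2.2.2.2.2.2.2.1.1, rf5h9.2.2.2.2.2.2.2.2.2.2.2.2.2.1.1⟩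
theorem rf5k149 : CfgOK (rf5c149.e, rf5c149.n) := red_ln rf5h24.2.2.2.2.2.2.2.2.2.2.2.2.1 ⟨rf5h24.2.2.2.2.2.2.2.2.2.2.2.2.1.1, rf5h9.2.2.2.2.2.2.2.2.2.2.2.2.1.1⟩
theorem rf5k150 : CfgOK (rf5c150.e, rf5c150.n) := red_ln rf5h24.2.2.2.2.2.2.2.2.2.2.2.1 ⟨rf5h24.2.2.2.2.2.2.2.2.2.2.2.1.1, rf5h9.2.2.2.2.2.2.2.2.2.2.2.1.1⟩
theorem rf5k151 : CfgOK (rf5c151.e, rf5c151.n) := red_ln rf5h24.2.2.2.2.2.2.2.2.2.2.1 ⟨rf5h24.2.2.2.2.2.2.2.2.2.2.1.1, rf5h9.2.2.2.2.2.2.2.2.2.2.1.1⟩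
theorem rf5k152 : CfgOK (rf5c152.e, rf5c152.n) := red_ln rf5h24.2.2.2.2.2.2.2.2.2.1 ⟨rf5h24.2.2.2.2.2.2.2.2.2.1.1, rf5h9.2.2.2.2.2.2.2.2.2.1.1⟩
theorem rf5k153 : CfgOK (rf5c153.e, rf5c153.n) := red_ln rf5h24.2.2.2.2.2.2.2.2.1 ⟨rf5h24.2.2.2.2.2.2.2.2.1.1, rf5h9.2.2.2.2.2.2.2.2.1.1⟩
theorem rf5k154 : CfgOK (rf5c154.e, rf5c154.n) := red_ln rf5h24.2.2.2.2.2.2.2.1 ⟨rf5h24.2.2.2.2.2.2.2.1.1, rf5h9.2.2.2.2.2.2.2.1.1⟩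
theorem rf5k155 : CfgOK (rf5c155.e, rf5c155.n) := red_ln rf5h24.2.2.2.2.2.2.1 ⟨rf5h24.2.2.2.2.2.2.1.1, rf5h9.2.2.2.2.2.2.1.1⟩
theorem rf5k156 : CfgOK (rf5c156.e, rf5c156.n) := red_ln rf5h24.2.2.2.2.2.1 ⟨rf5h24.2.2.2.2.2.1.1, rf5h9.2.2.2.2.2.1.1⟩
theorem rf5k157 : CfgOK (rf5c157.e, rf5c157.n) := red_ln rf5h24.2.2.2.2.1 ⟨rf5h24.2.2.2.2.1.1, rf5h9.2.2.2.2.1.1⟩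
theorem rf5k158 : CfgOK (rf5c158.e, rf5c158.n) := red_ln rf5h24.2.2.2.1 ⟨rf5h24.2.2.2.1.1, rf5h9.2.2.2.1.1⟩
theorem rf5k159 : CfgOK (rf5c159.e, rf5c159.n) := red_ln rf5h24.2.2.1 ⟨rf5h24.2.2.1.1, rf5h9.2.2.1.1⟩
theorem rf5k160 : CfgOK (rf5c160.e, rf5c160.n) := red_ln rf5h24.2.1 ⟨rf5h24.2.1.1, rf5h9.2.1.1⟩
theorem rf5k161 : CfgOK (rf5c161.e, rf5c161.n) := red_ln rf5h24.1 ⟨rf5h24.1.1, rf5h9.1.1⟩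
theorem rf5k162 : CfgOK (rf5c162.e, rf5c162.n) := red_ln rf5h23.2.2.2.2.2.2.2.2.2.2.2.2.2.2.2.2.2.2.2.2.2.2.2.1 ⟨rf5h23.2.2.2.2.2.2.2.2.2.2.2.2.2.2.2.2.2.2.2.2.2.2.2.1.1, rf5h8.2.2.2.2.2.2.2.2.2.2.2.2.2.2.2.2.2.2.2.2.2.2.2.2.2.2.2.2.2.2.2.2.2.2.2.2.2.2.2.1.1⟩
theorem rf5k163 : CfgOK (rf5c163.e, rf5c163.n) := red_ln rf5h23.2.2.2.2.2.2.2.2.2.2.2.2.2.2.2.2.2.2.2.2.2.2.1 ⟨⟨rf5h23.2.2.2.2.2.2.2.2.2.2.2.2.2.2.2.2.2.2.2.2.2.2.1.1, rf5h8.2.2.2.2.2.2.2.2.2.2.2.2.2.2.2.2.2.2.2.2.2.2.2.2.2.2.2.2.2.2.2.2.2.2.2.2.2.2.1.1⟩, ⟨rf5h13.2.2.2.1.1, rf5h16.2.2.2.2.2.2.2.2.2.2.2.2.2.2.2.2.2.2.2.2.2.2.2.2.2.2.2.2.2.2.2.2.1.1⟩⟩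
theorem rf5k164 : CfgOK (rf5c164.e, rf5c164.n) := red_ln rf5h23.2.2.2.2.2.2.2.2.2.2.2.2.2.2.2.2.2.2.2.2.2.1 ⟨⟨rf5h23.2.2.2.2.2.2.2.2.2.2.2.2.2.2.2.2.2.2.2.2.2.1.1, rf5h8.2.2.2.2.2.2.2.2.2.2.2.2.2.2.2.2.2.2.2.2.2.2.2.2.2.2.2.2.2.2.2.2.2.2.2.2.2.1.1⟩, ⟨rf5h13.2.2.1.1, rf5h16.2.2.2.2.2.2.2.2.2.2.2.2.2.2.2.2.2.2.2.2.2.2.2.2.2.2.2.2.2.2.2.1.1⟩⟩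
theorem rf5k165 : CfgOK (rf5c165.e, rf5c165.n) := red_ln rf5h23.2.2.2.2.2.2.2.2.2.2.2.2.2.2.2.2.2.2.2.2.1 ⟨⟨rf5h23.2.2.2.2.2.2.2.2.2.2.2.2.2.2.2.2.2.2.2.2.1.1, rf5h8.2.2.2.2.2.2.2.2.2.2.2.2.2.2.2.2.2.2.2.2.2.2.2.2.2.2.2.2.2.2.2.2.2.2.2.2.1.1⟩, ⟨rf5h13.2.1.1, rf5h16.2.2.2.2.2.2.2.2.2.2.2.2.2.2.2.2.2.2.2.2.2.2.2.2.2.2.2.2.2.2.1.1⟩⟩
theorem rf5k166 : CfgOK (rf5c166.e, rf5c166.n) := red_ln rf5h23.2.2.2.2.2.2.2.2.2.2.2.2.2.2.2.2.2.2.2.1 ⟨⟨rf5h23.2.2.2.2.2.2.2.2.2.2.2.2.2.2.2.2.2.2.2.1.1, rf5h8.2.2.2.2.2.2.2.2.2.2.2.2.2.2.2.2.2.2.2.2.2.2.2.2.2.2.2.2.2.2.2.2.2.2.2.1.1⟩, ⟨rf5h11.2.2.2.2.2.2.2.2.2.2.2.2.2.2.2.2.2.1.1, rf5h16.2.2.2.2.2.2.2.2.2.2.2.2.2.2.2.2.2.2.2.2.2.2.2.2.2.2.2.2.2.1.1⟩⟩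
theorem rf5k167 : CfgOK (rf5c167.e, rf5c167.n) := red_ln rf5h23.2.2.2.2.2.2.2.2.2.2.2.2.2.2.2.2.2.2.1 ⟨⟨rf5h23.2.2.2.2.2.2.2.2.2.2.2.2.2.2.2.2.2.2.1.1, rf5h15.2.2.1.1⟩, ⟨rf5h8.2.2.2.2.2.2.2.2.2.2.2.2.2.2.2.2.2.2.2.2.2.2.2.2.2.2.2.2.2.2.2.2.2.2.1.1, rf5h16.2.2.2.2.2.2.2.2.2.2.2.2.2.2.2.2.2.2.2.2.2.2.2.2.2.2.2.2.1.1⟩⟩
theorem rf5k168 : CfgOK (rf5c168.e, rf5c168.n) := red_ln rf5h23.2.2.2.2.2.2.2.2.2.2.2.2.2.2.2.2.2.1 ⟨⟨rf5h23.2.2.2.2.2.2.2.2.2.2.2.2.2.2.2.2.2.1.1, rf5h15.2.1.1⟩, ⟨rf5h8.2.2.2.2.2.2.2.2.2.2.2.2.2.2.2.2.2.2.2.2.2.2.2.2.2.2.2.2.2.2.2.2.2.1.1, rf5h16.2.2.2.2.2.2.2.2.2.2.2.2.2.2.2.2.2.2.2.2.2.2.2.2.2.2.2.1.1⟩⟩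
theorem rf5k169 : CfgOK (rf5c169.e, rf5c169.n) := red_ln rf5h23.2.2.2.2.2.2.2.2.2.2.2.2.2.2.2.2.1 ⟨rf5h23.2.2.2.2.2.2.2.2.2.2.2.2.2.2.2.2.1.1, rf5h13.1.1⟩
theorem rf5k170 : CfgOK (rf5c170.e, rf5c170.n) := red_ln rf5h23.2.2.2.2.2.2.2.2.2.2.2.2.2.2.2.1 ⟨rf5h23.2.2.2.2.2.2.2.2.2.2.2.2.2.2.2.1.1, rf5h11.2.2.2.2.2.2.2.2.2.2.2.2.2.2.2.2.2.2.2.2.2.2.2.2.2.2.2.2.2.1.1⟩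
theorem rf5k171 : CfgOK (rf5c171.e, rf5c171.n) := red_ln rf5h23.2.2.2.2.2.2.2.2.2.2.2.2.2.2.1 ⟨rf5h23.2.2.2.2.2.2.2.2.2.2.2.2.2.2.1.1, rf5h11.2.2.2.2.2.2.2.2.2.2.2.2.2.2.2.2.2.2.2.2.2.2.2.2.2.2.2.2.1.1⟩
theorem rf5k172 : CfgOK (rf5c172.e, rf5c172.n) := red_ln rf5h23.2.2.2.2.2.2.2.2.2.2.2.2.2.1 ⟨rf5h23.2.2.2.2.2.2.2.2.2.2.2.2.2.1.1, rf5h11.2.2.2.2.2.2.2.2.2.2.2.2.2.2.2.2.2.2.2.2.2.2.2.2.2.2.2.1.1⟩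
theorem rf5k173 : CfgOK (rf5c173.e, rf5c173.n) := red_ln rf5h23.2.2.2.2.2.2.2.2.2.2.2.2.1 ⟨rf5h23.2.2.2.2.2.2.2.2.2.2.2.2.1.1, rf5h11.2.2.2.2.2.2.2.2.2.2.2.2.2.2.2.2.2.2.2.2.2.2.2.2.2.2.1.1⟩
theorem rf5k174 : CfgOK (rf5c174.e, rf5c174.n) := red_ln rf5h23.2.2.2.2.2.2.2.2.2.2.2.1 ⟨rf5h23.2.2.2.2.2.2.2.2.2.2.2.1.1, rf5h11.2.2.2.2.2.2.2.2.2.2.2.2.2.2.2.2.2.2.2.2.2.2.2.2.2.1.1⟩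
theorem rf5k175 : CfgOK (rf5c175.e, rf5c175.n) := red_ln rf5h23.2.2.2.2.2.2.2.2.2.2.1 ⟨rf5h23.2.2.2.2.2.2.2.2.2.2.1.1, rf5h11.2.2.2.2.2.2.2.2.2.2.2.2.2.2.2.2.2.2.2.2.2.2.2.2.1.1⟩
theorem rf5k176 : CfgOK (rf5c176.e, rf5c176.n) := red_ln rf5h23.2.2.2.2.2.2.2.2.2.1 ⟨rf5h23.2.2.2.2.2.2.2.2.2.1.1, rf5h11.2.2.2.2.2.2.2.2.2.2.2.2.2.2.2.2.2.2.2.2.2.2.2.1.1⟩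
theorem rf5k177 : CfgOK (rf5c177.e, rf5c177.n) := red_ln rf5h23.2.2.2.2.2.2.2.2.1 ⟨⟨rf5h23.2.2.2.2.2.2.2.2.1.1, rf5h11.2.2.2.2.2.2.2.2.2.2.2.2.2.2.2.2.2.2.2.2.2.2.1.1⟩, ⟨rf5h8.2.2.2.2.2.2.2.2.2.2.2.2.2.2.2.2.2.2.2.2.2.2.2.2.2.2.2.2.2.2.2.2.1.1, rf5h16.2.2.2.2.2.2.2.2.2.2.2.2.2.2.2.2.2.2.2.2.2.2.2.2.2.2.1.1⟩⟩
theorem rf5k178 : CfgOK (rf5c178.e, rf5c178.n) := red_ln rf5h23.2.2.2.2.2.2.2.1 ⟨⟨rf5h23.2.2.2.2.2.2.2.1.1, rf5h11.2.2.2.2.2.2.2.2.2.2.2.2.2.2.2.2.2.2.2.2.2.1.1⟩, ⟨rf5h8.2.2.2.2.2.2.2.2.2.2.2.2.2.2.2.2.2.2.2.2.2.2.2.2.2.2.2.2.2.2.2.1.1, rf5h16.2.2.2.2.2.2.2.2.2.2.2.2.2.2.2.2.2.2.2.2.2.2.2.2.2.1.1⟩⟩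
theorem rf5k179 : CfgOK (rf5c179.e, rf5c179.n) := red_ln rf5h23.2.2.2.2.2.2.1 ⟨⟨rf5h23.2.2.2.2.2.2.1.1, rf5h11.2.2.2.2.2.2.2.2.2.2.2.2.2.2.2.2.2.2.2.2.1.1⟩, ⟨rf5h8.2.2.2.2.2.2.2.2.2.2.2.2.2.2.2.2.2.2.2.2.2.2.2.2.2.2.2.2.2.2.1.1, rf5h16.2.2.2.2.2.2.2.2.2.2.2.2.2.2.2.2.2.2.2.2.2.2.2.2.1.1⟩⟩
theorem rf5k180 : CfgOK (rf5c180.e, rf5c180.n) := red_ln rf5h23.2.2.2.2.2.1 ⟨rf5h23.2.2.2.2.2.1.1, rf5h11.2.2.2.2.2.2.2.2.2.2.2.2.2.2.2.2.1.1⟩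
theorem rf5k181 : CfgOK (rf5c181.e, rf5c181.n) := red_ln rf5h23.2.2.2.2.1 ⟨rf5h23.2.2.2.2.1.1, rf5h11.2.2.2.2.2.2.2.2.2.2.2.2.2.2.2.1.1⟩
theorem rf5k182 : CfgOK (rf5c182.e, rf5c182.n) := red_ln rf5h23.2.2.2.1 ⟨rf5h23.2.2.2.1.1, rf5h11.2.2.2.2.2.2.2.2.2.2.2.2.2.2.1.1⟩
theorem rf5k183 : CfgOK (rf5c183.e, rf5c183.n) := red_ln rf5h23.2.2.1 ⟨⟨rf5h23.2.2.1.1, rf5h11.2.2.2.2.2.2.2.2.2.2.2.2.2.1.1⟩, ⟨rf5h8.2.2.2.2.2.2.2.2.2.2.2.2.2.2.2.2.2.2.2.2.2.2.2.2.2.2.2.2.2.1.1, rf5h16.2.2.2.2.2.2.2.2.2.2.2.2.2.2.2.2.2.2.2.2.2.2.2.1.1⟩⟩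
theorem rf5k184 : CfgOK (rf5c184.e, rf5c184.n) := red_ln rf5h23.2.1 ⟨rf5h23.2.1.1, rf5h11.2.2.2.2.2.2.2.2.2.1.1⟩
theorem rf5k185 : CfgOK (rf5c185.e, rf5c185.n) := red_ln rf5h23.1 ⟨rf5h23.1.1, rf5h11.2.2.2.2.2.2.1.1⟩
theorem rf5k186 : CfgOK (rf5c186.e, rf5c186.n) := red_ln rf5h22.2.2.2.2.2.2.2.2.2.2.2.2.2.2.2.2.2.2.2.2.2.2.2.1 ⟨rf5h22.2.2.2.2.2.2.2.2.2.2.2.2.2.2.2.2.2.2.2.2.2.2.2.1.1, rf5h11.1.1⟩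
theorem rf5k187 : CfgOK (rf5c187.e, rf5c187.n) := red_ln rf5h22.2.2.2.2.2.2.2.2.2.2.2.2.2.2.2.2.2.2.2.2.2.2.1 rf5h22.2.2.2.2.2.2.2.2.2.2.2.2.2.2.2.2.2.2.2.2.2.2.1.1
theorem rf5k188 : CfgOK (rf5c188.e, rf5c188.n) := red_ln rf5h22.2.2.2.2.2.2.2.2.2.2.2.2.2.2.2.2.2.2.2.2.2.1 rf5h22.2.2.2.2.2.2.2.2.2.2.2.2.2.2.2.2.2.2.2.2.2.1.1
theorem rf5k189 : CfgOK (rf5c189.e, rf5c189.n) := red_ln rf5h22.2.2.2.2.2.2.2.2.2.2.2.2.2.2.2.2.2.2.2.2.1 rf5h22.2.2.2.2.2.2.2.2.2.2.2.2.2.2.2.2.2.2.2.2.1.1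
theorem rf5k190 : CfgOK (rf5c190.e, rf5c190.n) := red_ln rf5h22.2.2.2.2.2.2.2.2.2.2.2.2.2.2.2.2.2.2.2.1 rf5h22.2.2.2.2.2.2.2.2.2.2.2.2.2.2.2.2.2.2.2.1.1
theorem rf5k191 : CfgOK (rf5c191.e, rf5c191.n) := red_ln rf5h22.2.2.2.2.2.2.2.2.2.2.2.2.2.2.2.2.2.2.1 rf5h22.2.2.2.2.2.2.2.2.2.2.2.2.2.2.2.2.2.2.1.1
theorem rf5k192 : CfgOK (rf5c192.e, rf5c192.n) := red_ln rf5h22.2.2.2.2.2.2.2.2.2.2.2.2.2.2.2.2.2.1 rf5h22.2.2.2.2.2.2.2.2.2.2.2.2.2.2.2.2.2.1.1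
theorem rf5k193 : CfgOK (rf5c193.e, rf5c193.n) := red_ln rf5h22.2.2.2.2.2.2.2.2.2.2.2.2.2.2.2.2.1 rf5h22.2.2.2.2.2.2.2.2.2.2.2.2.2.2.2.2.1.1
theorem rf5k194 : CfgOK (rf5c194.e, rf5c194.n) := red_ln rf5h22.2.2.2.2.2.2.2.2.2.2.2.2.2.2.2.1 rf5h22.2.2.2.2.2.2.2.2.2.2.2.2.2.2.2.1.1
theorem rf5k195 : CfgOK (rf5c195.e, rf5c195.n) := red_ln rf5h22.2.2.2.2.2.2.2.2.2.2.2.2.2.2.1 rf5h22.2.2.2.2.2.2.2.2.2.2.2.2.2.2.1.1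
theorem rf5k196 : CfgOK (rf5c196.e, rf5c196.n) := red_ln rf5h22.2.2.2.2.2.2.2.2.2.2.2.2.2.1 rf5h22.2.2.2.2.2.2.2.2.2.2.2.2.2.1.1
theorem rf5k197 : CfgOK (rf5c197.e, rf5c197.n) := red_ln rf5h22.2.2.2.2.2.2.2.2.2.2.2.2.1 rf5h22.2.2.2.2.2.2.2.2.2.2.2.2.1.1
theorem rf5k198 : CfgOK (rf5c198.e, rf5c198.n) := red_ln rf5h22.2.2.2.2.2.2.2.2.2.2.2.1 rf5h22.2.2.2.2.2.2.2.2.2.2.2.1.1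
theorem rf5k199 : CfgOK (rf5c199.e, rf5c199.n) := red_ln rf5h22.2.2.2.2.2.2.2.2.2.2.1 rf5h22.2.2.2.2.2.2.2.2.2.2.1.1
theorem rf5k200 : CfgOK (rf5c200.e, rf5c200.n) := red_ln rf5h22.2.2.2.2.2.2.2.2.2.1 rf5h22.2.2.2.2.2.2.2.2.2.1.1
theorem rf5k201 : CfgOK (rf5c201.e, rf5c201.n) := red_ln rf5h22.2.2.2.2.2.2.2.2.1 rf5h22.2.2.2.2.2.2.2.2.1.1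
theorem rf5k202 : CfgOK (rf5c202.e, rf5c202.n) := red_ln rf5h22.2.2.2.2.2.2.2.1 rf5h22.2.2.2.2.2.2.2.1.1
theorem rf5k203 : CfgOK (rf5c203.e, rf5c203.n) := red_ln rf5h22.2.2.2.2.2.2.1 rf5h22.2.2.2.2.2.2.1.1
theorem rf5k204 : CfgOK (rf5c204.e, rf5c204.n) := red_ln rf5h22.2.2.2.2.2.1 ⟨rf5h22.2.2.2.2.2.1.1, rf5h8.2.2.2.2.2.2.2.2.2.2.2.2.2.2.2.2.2.2.2.2.2.2.2.2.2.2.2.2.1.1⟩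
theorem rf5k205 : CfgOK (rf5c205.e, rf5c205.n) := red_ln rf5h22.2.2.2.2.1 ⟨rf5h22.2.2.2.2.1.1, rf5h8.2.2.2.2.2.2.2.2.2.2.2.2.2.2.2.2.2.2.2.2.2.2.2.2.2.2.2.1.1⟩
theorem rf5k206 : CfgOK (rf5c206.e, rf5c206.n) := red_ln rf5h22.2.2.2.1 ⟨rf5h22.2.2.2.1.1, rf5h8.2.2.2.2.2.2.2.2.2.2.2.2.2.2.2.2.2.2.2.2.2.2.2.2.2.2.1.1⟩
theorem rf5k207 : CfgOK (rf5c207.e, rf5c207.n) := red_ln rf5h22.2.2.1 ⟨rf5h22.2.2.1.1, rf5h8.2.2.2.2.2.2.2.2.2.2.2.2.2.2.2.2.2.2.2.2.2.2.2.2.2.1.1⟩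
theorem rf5k208 : CfgOK (rf5c208.e, rf5c208.n) := red_ln rf5h22.2.1 ⟨rf5h22.2.1.1, rf5h8.2.2.2.2.2.2.2.2.2.2.2.2.2.2.2.2.2.2.2.2.2.2.2.2.1.1⟩
theorem rf5k209 : CfgOK (rf5c209.e, rf5c209.n) := red_ln rf5h22.1 ⟨rf5h22.1.1, rf5h8.2.2.2.2.2.2.2.2.2.2.2.2.2.2.2.2.2.2.2.2.2.2.2.1.1⟩
theorem rf5k210 : CfgOK (rf5c210.e, rf5c210.n) := red_ln rf5h21.2.2.2.2.2.2.2.2.2.2.2.2.2.2.2.2.2.2.2.2.2.2.2.1 ⟨rf5h21.2.2.2.2.2.2.2.2.2.2.2.2.2.2.2.2.2.2.2.2.2.2.2.1.1, rf5h8.2.2.2.2.2.2.2.2.2.2.2.2.2.2.2.2.2.2.2.2.2.2.1.1⟩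
theorem rf5k211 : CfgOK (rf5c211.e, rf5c211.n) := red_ln rf5h21.2.2.2.2.2.2.2.2.2.2.2.2.2.2.2.2.2.2.2.2.2.2.1 ⟨rf5h21.2.2.2.2.2.2.2.2.2.2.2.2.2.2.2.2.2.2.2.2.2.2.1.1, rf5h8.2.2.2.2.2.2.2.2.2.2.2.2.2.2.2.2.2.2.2.2.2.1.1⟩
theorem rf5k212 : CfgOK (rf5c212.e, rf5c212.n) := red_ln rf5h21.2.2.2.2.2.2.2.2.2.2.2.2.2.2.2.2.2.2.2.2.2.1 ⟨rf5h21.2.2.2.2.2.2.2.2.2.2.2.2.2.2.2.2.2.2.2.2.2.1.1, rf5h8.2.2.2.2.2.2.2.2.2.2.2.2.2.2.2.2.2.2.2.2.1.1⟩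
theorem rf5k213 : CfgOK (rf5c213.e, rf5c213.n) := red_ln rf5h21.2.2.2.2.2.2.2.2.2.2.2.2.2.2.2.2.2.2.2.2.1 ⟨rf5h21.2.2.2.2.2.2.2.2.2.2.2.2.2.2.2.2.2.2.2.2.1.1, rf5h8.2.2.2.2.2.2.2.2.2.2.2.2.2.2.2.2.2.2.2.1.1⟩
theorem rf5k214 : CfgOK (rf5c214.e, rf5c214.n) := red_ln rf5h21.2.2.2.2.2.2.2.2.2.2.2.2.2.2.2.2.2.2.2.1 ⟨rf5h21.2.2.2.2.2.2.2.2.2.2.2.2.2.2.2.2.2.2.2.1.1, rf5h8.2.2.2.2.2.2.2.2.2.2.2.2.2.2.2.2.2.2.1.1⟩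
theorem rf5k215 : CfgOK (rf5c215.e, rf5c215.n) := red_ln rf5h21.2.2.2.2.2.2.2.2.2.2.2.2.2.2.2.2.2.2.1 ⟨rf5h21.2.2.2.2.2.2.2.2.2.2.2.2.2.2.2.2.2.2.1.1, rf5h8.2.2.2.2.2.2.2.2.2.2.2.2.2.2.2.2.2.1.1⟩
theorem rf5k216 : CfgOK (rf5c216.e, rf5c216.n) := red_ln rf5h21.2.2.2.2.2.2.2.2.2.2.2.2.2.2.2.2.2.1 ⟨rf5h21.2.2.2.2.2.2.2.2.2.2.2.2.2.2.2.2.2.1.1, rf5h8.2.2.2.2.2.2.2.2.2.2.2.2.2.2.2.2.1.1⟩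
theorem rf5k217 : CfgOK (rf5c217.e, rf5c217.n) := red_ln rf5h21.2.2.2.2.2.2.2.2.2.2.2.2.2.2.2.2.1 ⟨rf5h21.2.2.2.2.2.2.2.2.2.2.2.2.2.2.2.2.1.1, rf5h8.2.2.2.2.2.2.2.2.2.2.2.2.2.2.2.1.1⟩
theorem rf5k218 : CfgOK (rf5c218.e, rf5c218.n) := red_ln rf5h21.2.2.2.2.2.2.2.2.2.2.2.2.2.2.2.1 ⟨rf5h21.2.2.2.2.2.2.2.2.2.2.2.2.2.2.2.1.1, rf5h8.2.2.2.2.2.2.2.2.2.2.2.2.2.2.1.1⟩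
theorem rf5k219 : CfgOK (rf5c219.e, rf5c219.n) := red_ln rf5h21.2.2.2.2.2.2.2.2.2.2.2.2.2.2.1 ⟨rf5h21.2.2.2.2.2.2.2.2.2.2.2.2.2.2.1.1, rf5h8.2.2.2.2.2.2.2.2.2.2.2.2.2.1.1⟩
theorem rf5k220 : CfgOK (rf5c220.e, rf5c220.n) := red_ln rf5h21.2.2.2.2.2.2.2.2.2.2.2.2.2.1 ⟨rf5h21.2.2.2.2.2.2.2.2.2.2.2.2.2.1.1, rf5h8.2.2.2.2.2.2.2.2.2.2.2.2.1.1⟩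
theorem rf5k221 : CfgOK (rf5c221.e, rf5c221.n) := red_ln rf5h21.2.2.2.2.2.2.2.2.2.2.2.2.1 ⟨rf5h21.2.2.2.2.2.2.2.2.2.2.2.2.1.1, rf5h8.2.2.2.2.2.2.2.2.2.2.2.1.1⟩
theorem rf5k222 : CfgOK (rf5c222.e, rf5c222.n) := red_ln rf5h21.2.2.2.2.2.2.2.2.2.2.2.1 ⟨rf5h21.2.2.2.2.2.2.2.2.2.2.2.1.1, rf5h8.2.2.2.2.2.2.2.2.2.2.1.1⟩
theorem rf5k223 : CfgOK (rf5c223.e, rf5c223.n) := red_ln rf5h21.2.2.2.2.2.2.2.2.2.2.1 ⟨rf5h21.2.2.2.2.2.2.2.2.2.2.1.1, rf5h8.2.2.2.2.2.2.2.2.2.1.1⟩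
theorem rf5k224 : CfgOK (rf5c224.e, rf5c224.n) := red_ln rf5h21.2.2.2.2.2.2.2.2.2.1 ⟨rf5h21.2.2.2.2.2.2.2.2.2.1.1, rf5h8.2.2.2.2.2.2.2.2.1.1⟩
theorem rf5k225 : CfgOK (rf5c225.e, rf5c225.n) := red_ln rf5h21.2.2.2.2.2.2.2.2.1 ⟨rf5h21.2.2.2.2.2.2.2.2.1.1, rf5h8.2.2.2.2.2.2.2.1.1⟩
theorem rf5k226 : CfgOK (rf5c226.e, rf5c226.n) := red_ln rf5h21.2.2.2.2.2.2.2.1 ⟨rf5h21.2.2.2.2.2.2.2.1.1, rf5h8.2.2.2.2.2.2.1.1⟩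
theorem rf5k227 : CfgOK (rf5c227.e, rf5c227.n) := red_ln rf5h21.2.2.2.2.2.2.1 ⟨rf5h21.2.2.2.2.2.2.1.1, rf5h8.2.2.2.2.2.1.1⟩
theorem rf5k228 : CfgOK (rf5c228.e, rf5c228.n) := red_ln rf5h21.2.2.2.2.2.1 ⟨rf5h21.2.2.2.2.2.1.1, rf5h8.2.2.2.2.1.1⟩
theorem rf5k229 : CfgOK (rf5c229.e, rf5c229.n) := red_ln rf5h21.2.2.2.2.1 ⟨rf5h21.2.2.2.2.1.1, rf5h8.2.2.2.1.1⟩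
theorem rf5k230 : CfgOK (rf5c230.e, rf5c230.n) := red_ln rf5h21.2.2.2.1 ⟨rf5h21.2.2.2.1.1, rf5h8.2.2.1.1⟩
theorem rf5k231 : CfgOK (rf5c231.e, rf5c231.n) := red_ln rf5h21.2.2.1 ⟨rf5h21.2.2.1.1, rf5h8.2.1.1⟩
theorem rf5k232 : CfgOK (rf5c232.e, rf5c232.n) := red_ln rf5h21.2.1 ⟨rf5h21.2.1.1, rf5h8.1.1⟩
theorem rf5k233 : CfgOK (rf5c233.e, rf5c233.n) := red_ln rf5h21.1 ⟨rf5h21.1.1, rf5h7.2.2.2.2.2.2.2.2.2.2.2.2.2.2.2.2.2.2.2.2.2.2.2.2.2.2.2.2.2.2.2.2.2.2.2.2.2.2.2.1.1⟩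
theorem rf5k234 : CfgOK (rf5c234.e, rf5c234.n) := red_ln rf5h20.2.2.2.2.2.2.2.2.2.2.2.2.2.2.2.2.2.2.2.2.2.2.2.1 ⟨rf5h20.2.2.2.2.2.2.2.2.2.2.2.2.2.2.2.2.2.2.2.2.2.2.2.1.1, rf5h7.2.2.2.2.2.2.2.2.2.2.2.2.2.2.2.2.2.2.2.2.2.2.2.2.2.2.2.2.2.2.2.2.2.2.2.2.2.2.1.1⟩
theorem rf5k235 : CfgOK (rf5c235.e, rf5c235.n) := red_ln rf5h20.2.2.2.2.2.2.2.2.2.2.2.2.2.2.2.2.2.2.2.2.2.2.1 ⟨rf5h20.2.2.2.2.2.2.2.2.2.2.2.2.2.2.2.2.2.2.2.2.2.2.1.1, rf5h7.2.2.2.2.2.2.2.2.2.2.2.2.2.2.2.2.2.2.2.2.2.2.2.2.2.2.2.2.2.2.2.2.2.2.2.2.2.1.1⟩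
theorem rf5k236 : CfgOK (rf5c236.e, rf5c236.n) := red_ln rf5h20.2.2.2.2.2.2.2.2.2.2.2.2.2.2.2.2.2.2.2.2.2.1 ⟨rf5h20.2.2.2.2.2.2.2.2.2.2.2.2.2.2.2.2.2.2.2.2.2.1.1, rf5h7.2.2.2.2.2.2.2.2.2.2.2.2.2.2.2.2.2.2.2.2.2.2.2.2.2.2.2.2.2.2.2.2.2.2.2.2.1.1⟩
theorem rf5k237 : CfgOK (rf5c237.e, rf5c237.n) := red_ln rf5h20.2.2.2.2.2.2.2.2.2.2.2.2.2.2.2.2.2.2.2.2.1 ⟨rf5h20.2.2.2.2.2.2.2.2.2.2.2.2.2.2.2.2.2.2.2.2.1.1, rf5h7.2.2.2.2.2.2.2.2.2.2.2.2.2.2.2.2.2.2.2.2.2.2.2.2.2.2.2.2.2.2.2.2.2.2.2.1.1⟩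
theorem rf5k238 : CfgOK (rf5c238.e, rf5c238.n) := red_ln rf5h20.2.2.2.2.2.2.2.2.2.2.2.2.2.2.2.2.2.2.2.1 ⟨rf5h20.2.2.2.2.2.2.2.2.2.2.2.2.2.2.2.2.2.2.2.1.1, rf5h7.2.2.2.2.2.2.2.2.2.2.2.2.2.2.2.2.2.2.2.2.2.2.2.2.2.2.2.2.2.2.2.2.2.2.1.1⟩
theorem rf5k239 : CfgOK (rf5c239.e, rf5c239.n) := red_ln rf5h20.2.2.2.2.2.2.2.2.2.2.2.2.2.2.2.2.2.2.1 ⟨rf5h20.2.2.2.2.2.2.2.2.2.2.2.2.2.2.2.2.2.2.1.1, rf5h7.2.2.2.2.2.2.2.2.2.2.2.2.2.2.2.2.2.2.2.2.2.2.2.2.2.2.2.2.2.2.2.2.2.1.1⟩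
theorem rf5k240 : CfgOK (rf5c240.e, rf5c240.n) := red_ln rf5h20.2.2.2.2.2.2.2.2.2.2.2.2.2.2.2.2.2.1 ⟨rf5h20.2.2.2.2.2.2.2.2.2.2.2.2.2.2.2.2.2.1.1, rf5h7.2.2.2.2.2.2.2.2.2.2.2.2.2.2.2.2.2.2.2.2.2.2.2.2.2.2.2.2.2.2.2.2.1.1⟩
theorem rf5k241 : CfgOK (rf5c241.e, rf5c241.n) := red_ln rf5h20.2.2.2.2.2.2.2.2.2.2.2.2.2.2.2.2.1 ⟨rf5h20.2.2.2.2.2.2.2.2.2.2.2.2.2.2.2.2.1.1, rf5h7.2.2.2.2.2.2.2.2.2.2.2.2.2.2.2.2.2.2.2.2.2.2.2.2.2.2.2.2.2.2.2.1.1⟩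
theorem rf5k242 : CfgOK (rf5c242.e, rf5c242.n) := red_ln rf5h20.2.2.2.2.2.2.2.2.2.2.2.2.2.2.2.1 ⟨rf5h20.2.2.2.2.2.2.2.2.2.2.2.2.2.2.2.1.1, rf5h7.2.2.2.2.2.2.2.2.2.2.2.2.2.2.2.2.2.2.2.2.2.2.2.2.2.2.2.2.2.2.1.1⟩
theorem rf5k243 : CfgOK (rf5c243.e, rf5c243.n) := red_ln rf5h20.2.2.2.2.2.2.2.2.2.2.2.2.2.2.1 ⟨rf5h20.2.2.2.2.2.2.2.2.2.2.2.2.2.2.1.1, rf5h7.2.2.2.2.2.2.2.2.2.2.2.2.2.2.2.2.2.2.2.2.2.2.2.2.2.2.2.2.2.1.1⟩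
theorem rf5k244 : CfgOK (rf5c244.e, rf5c244.n) := red_ln rf5h20.2.2.2.2.2.2.2.2.2.2.2.2.2.1 ⟨rf5h20.2.2.2.2.2.2.2.2.2.2.2.2.2.1.1, rf5h7.2.2.2.2.2.2.2.2.2.2.2.2.2.2.2.2.2.2.2.2.2.2.2.2.2.2.2.2.1.1⟩
theorem rf5k245 : CfgOK (rf5c245.e, rf5c245.n) := red_ln rf5h20.2.2.2.2.2.2.2.2.2.2.2.2.1 ⟨rf5h20.2.2.2.2.2.2.2.2.2.2.2.2.1.1, rf5h7.2.2.2.2.2.2.2.2.2.2.2.2.2.2.2.2.2.2.2.2.2.2.2.2.2.2.2.1.1⟩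
theorem rf5k246 : CfgOK (rf5c246.e, rf5c246.n) := red_ln rf5h20.2.2.2.2.2.2.2.2.2.2.2.1 ⟨rf5h20.2.2.2.2.2.2.2.2.2.2.2.1.1, rf5h7.2.2.2.2.2.2.2.2.2.2.2.2.2.2.2.2.2.2.2.2.2.2.2.2.2.2.1.1⟩
theorem rf5k247 : CfgOK (rf5c247.e, rf5c247.n) := red_ln rf5h20.2.2.2.2.2.2.2.2.2.2.1 ⟨rf5h20.2.2.2.2.2.2.2.2.2.2.1.1, rf5h7.2.2.2.2.2.2.2.2.2.2.2.2.2.2.2.2.2.2.2.2.2.2.2.2.2.1.1⟩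
theorem rf5k248 : CfgOK (rf5c248.e, rf5c248.n) := red_ln rf5h20.2.2.2.2.2.2.2.2.2.1 ⟨⟨rf5h20.2.2.2.2.2.2.2.2.2.1.1, rf5h7.2.2.2.2.2.2.2.2.2.2.2.2.2.2.2.2.2.2.2.2.2.2.2.2.1.1⟩, ⟨rf5h11.2.1.1, rf5h16.2.2.2.2.2.2.2.2.2.2.2.2.2.2.2.2.2.2.2.2.2.2.1.1⟩⟩
theorem rf5k249 : CfgOK (rf5c249.e, rf5c249.n) := red_ln rf5h20.2.2.2.2.2.2.2.2.1 ⟨rf5h20.2.2.2.2.2.2.2.2.1.1, rf5h14.2.2.2.2.2.2.2.2.2.2.2.2.2.2.2.2.1.1⟩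
theorem rf5k250 : CfgOK (rf5c250.e, rf5c250.n) := red_ln rf5h20.2.2.2.2.2.2.2.1 ⟨⟨rf5h20.2.2.2.2.2.2.2.1.1, rf5h14.2.2.2.2.2.2.2.2.2.2.2.2.2.2.2.1.1⟩, ⟨rf5h7.2.2.2.2.2.2.2.2.2.2.2.2.2.2.2.2.2.2.2.2.2.2.2.1.1, rf5h16.2.2.2.2.2.2.2.2.2.2.2.2.2.2.2.2.2.2.2.2.2.1.1⟩⟩
theorem rf5k251 : CfgOK (rf5c251.e, rf5c251.n) := red_ln rf5h20.2.2.2.2.2.2.1 ⟨⟨rf5h20.2.2.2.2.2.2.1.1, rf5h14.2.2.2.2.2.2.2.2.2.2.2.2.2.2.1.1⟩, ⟨rf5h7.2.2.2.2.2.2.2.2.2.2.2.2.2.2.2.2.2.2.2.2.2.2.1.1, rf5h16.2.2.2.2.2.2.2.2.2.2.2.2.2.2.2.2.2.2.2.2.1.1⟩⟩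
theorem rf5k252 : CfgOK (rf5c252.e, rf5c252.n) := red_ln rf5h20.2.2.2.2.2.1 ⟨⟨rf5h20.2.2.2.2.2.1.1, rf5h14.2.2.2.2.2.2.2.2.2.2.2.2.2.1.1⟩, ⟨rf5h7.2.2.2.2.2.2.2.2.2.2.2.2.2.2.2.2.2.2.2.2.2.1.1, rf5h16.2.2.2.2.2.2.2.2.2.2.2.2.2.2.2.2.2.2.2.1.1⟩⟩
theorem rf5k253 : CfgOK (rf5c253.e, rf5c253.n) := red_ln rf5h20.2.2.2.2.1 ⟨⟨rf5h20.2.2.2.2.1.1, rf5h13.2.2.2.2.2.2.2.2.2.2.2.2.2.2.2.2.2.2.2.2.2.2.2.2.2.2.1.1⟩, ⟨rf5h7.2.2.2.2.2.2.2.2.2.2.2.2.2.2.2.2.2.2.2.2.1.1, rf5h16.2.2.2.2.2.2.2.2.2.2.2.2.2.2.2.2.2.2.1.1⟩⟩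
theorem rf5k254 : CfgOK (rf5c254.e, rf5c254.n) := red_ln rf5h20.2.2.2.1 ⟨⟨rf5h20.2.2.2.1.1, rf5h13.2.2.2.2.2.2.2.2.2.2.2.2.2.2.2.2.2.2.2.2.2.2.2.2.2.1.1⟩, ⟨rf5h7.2.2.2.2.2.2.2.2.2.2.2.2.2.2.2.2.2.2.2.1.1, rf5h16.2.2.2.2.2.2.2.2.2.2.2.2.2.2.2.2.2.1.1⟩⟩
theorem rf5k255 : CfgOK (rf5c255.e, rf5c255.n) := red_ln rf5h20.2.2.1 ⟨rf5h20.2.2.1.1, rf5h11.2.2.2.2.2.2.2.2.2.2.2.2.1.1⟩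
theorem rf5k256 : CfgOK (rf5c256.e, rf5c256.n) := red_ln rf5h20.2.1 ⟨rf5h20.2.1.1, rf5h11.2.2.2.2.2.2.2.2.1.1⟩
theorem rf5k257 : CfgOK (rf5c257.e, rf5c257.n) := red_ln rf5h20.1 ⟨⟨rf5h20.1.1, rf5h11.2.2.2.2.2.2.2.1.1⟩, ⟨rf5h7.2.2.2.2.2.2.2.2.2.2.2.2.2.2.2.2.2.2.1.1, rf5h16.2.2.2.2.2.2.2.2.2.2.2.2.2.2.2.2.1.1⟩⟩
theorem rf5k258 : CfgOK (rf5c258.e, rf5c258.n) := red_ln rf5h12.2.2.2.2.2.2.2.2.2.2.2.2.2.2.2.2.2.2.2.2.2.2.2.1 ⟨⟨rf5h12.2.2.2.2.2.2.2.2.2.2.2.2.2.2.2.2.2.2.2.2.2.2.2.1.1, rf5h11.2.2.2.2.2.1.1⟩, ⟨rf5h7.2.2.2.2.2.2.2.2.2.2.2.2.2.2.2.2.2.1.1, rf5h16.2.2.2.2.2.2.2.2.2.2.2.2.2.2.2.1.1⟩⟩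
theorem rf5k259 : CfgOK (rf5c259.e, rf5c259.n) := red_ln rf5h12.2.2.2.2.2.2.2.2.2.2.2.2.2.2.2.2.2.2.2.2.2.2.1 ⟨⟨rf5h12.2.2.2.2.2.2.2.2.2.2.2.2.2.2.2.2.2.2.2.2.2.2.1.1, rf5h11.2.2.2.1.1⟩, ⟨rf5h15.1.1, rf5h18.2.2.1.1⟩⟩
theorem rf5k260 : CfgOK (rf5c260.e, rf5c260.n) := red_ln rf5h12.2.2.2.2.2.2.2.2.2.2.2.2.2.2.2.2.2.2.2.2.2.1 rf5h12.2.2.2.2.2.2.2.2.2.2.2.2.2.2.2.2.2.2.2.2.2.1.1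
theorem rf5k261 : CfgOK (rf5c261.e, rf5c261.n) := red_ln rf5h12.2.2.2.2.2.2.2.2.2.2.2.2.2.2.2.2.2.2.2.2.1 rf5h12.2.2.2.2.2.2.2.2.2.2.2.2.2.2.2.2.2.2.2.2.1.1
theorem rf5k262 : CfgOK (rf5c262.e, rf5c262.n) := red_ln rf5h12.2.2.2.2.2.2.2.2.2.2.2.2.2.2.2.2.2.2.2.1 rf5h12.2.2.2.2.2.2.2.2.2.2.2.2.2.2.2.2.2.2.2.1.1
theorem rf5k263 : CfgOK (rf5c263.e, rf5c263.n) := red_ln rf5h12.2.2.2.2.2.2.2.2.2.2.2.2.2.2.2.2.2.2.1 rf5h12.2.2.2.2.2.2.2.2.2.2.2.2.2.2.2.2.2.2.1.1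
theorem rf5k264 : CfgOK (rf5c264.e, rf5c264.n) := red_ln rf5h12.2.2.2.2.2.2.2.2.2.2.2.2.2.2.2.2.2.1 rf5h12.2.2.2.2.2.2.2.2.2.2.2.2.2.2.2.2.2.1.1
theorem rf5k265 : CfgOK (rf5c265.e, rf5c265.n) := red_ln rf5h12.2.2.2.2.2.2.2.2.2.2.2.2.2.2.2.2.1 rf5h12.2.2.2.2.2.2.2.2.2.2.2.2.2.2.2.2.1.1
theorem rf5k266 : CfgOK (rf5c266.e, rf5c266.n) := red_ln rf5h12.2.2.2.2.2.2.2.2.2.2.2.2.2.2.2.1 ⟨rf5h12.2.2.2.2.2.2.2.2.2.2.2.2.2.2.2.1.1, rf5h7.2.2.2.2.2.2.2.2.2.2.2.2.2.2.2.2.1.1⟩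
theorem rf5k267 : CfgOK (rf5c267.e, rf5c267.n) := red_ln rf5h12.2.2.2.2.2.2.2.2.2.2.2.2.2.2.1 ⟨rf5h12.2.2.2.2.2.2.2.2.2.2.2.2.2.2.1.1, rf5h7.2.2.2.2.2.2.2.2.2.2.2.2.2.2.2.1.1⟩
theorem rf5k268 : CfgOK (rf5c268.e, rf5c268.n) := red_ln rf5h12.2.2.2.2.2.2.2.2.2.2.2.2.2.1 ⟨rf5h12.2.2.2.2.2.2.2.2.2.2.2.2.2.1.1, rf5h7.2.2.2.2.2.2.2.2.2.2.2.2.2.2.1.1⟩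
theorem rf5k269 : CfgOK (rf5c269.e, rf5c269.n) := red_ln rf5h12.2.2.2.2.2.2.2.2.2.2.2.2.1 ⟨rf5h12.2.2.2.2.2.2.2.2.2.2.2.2.1.1, rf5h7.2.2.2.2.2.2.2.2.2.2.2.2.2.1.1⟩
theorem rf5k270 : CfgOK (rf5c270.e, rf5c270.n) := red_ln rf5h12.2.2.2.2.2.2.2.2.2.2.2.1 ⟨rf5h12.2.2.2.2.2.2.2.2.2.2.2.1.1, rf5h7.2.2.2.2.2.2.2.2.2.2.2.2.1.1⟩
theorem rf5k271 : CfgOK (rf5c271.e, rf5c271.n) := red_ln rf5h12.2.2.2.2.2.2.2.2.2.2.1 ⟨rf5h12.2.2.2.2.2.2.2.2.2.2.1.1, rf5h7.2.2.2.2.2.2.2.2.2.2.2.1.1⟩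
theorem rf5k272 : CfgOK (rf5c272.e, rf5c272.n) := red_ln rf5h12.2.2.2.2.2.2.2.2.2.1 ⟨rf5h12.2.2.2.2.2.2.2.2.2.1.1, rf5h7.2.2.2.2.2.2.2.2.2.2.1.1⟩
theorem rf5k273 : CfgOK (rf5c273.e, rf5c273.n) := red_ln rf5h12.2.2.2.2.2.2.2.2.1 ⟨rf5h12.2.2.2.2.2.2.2.2.1.1, rf5h7.2.2.2.2.2.2.2.2.2.1.1⟩
theorem rf5k274 : CfgOK (rf5c274.e, rf5c274.n) := red_ln rf5h12.2.2.2.2.2.2.2.1 ⟨rf5h12.2.2.2.2.2.2.2.1.1, rf5h7.2.2.2.2.2.2.2.2.1.1⟩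
theorem rf5k275 : CfgOK (rf5c275.e, rf5c275.n) := red_ln rf5h12.2.2.2.2.2.2.1 ⟨rf5h12.2.2.2.2.2.2.1.1, rf5h7.2.2.2.2.2.2.2.1.1⟩
theorem rf5k276 : CfgOK (rf5c276.e, rf5c276.n) := red_ln rf5h12.2.2.2.2.2.1 ⟨rf5h12.2.2.2.2.2.1.1, rf5h7.2.2.2.2.2.2.1.1⟩
theorem rf5k277 : CfgOK (rf5c277.e, rf5c277.n) := red_ln rf5h12.2.2.2.2.1 ⟨rf5h12.2.2.2.2.1.1, rf5h7.2.2.2.2.2.1.1⟩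
theorem rf5k278 : CfgOK (rf5c278.e, rf5c278.n) := red_ln rf5h12.2.2.2.1 ⟨rf5h12.2.2.2.1.1, rf5h7.2.2.2.2.1.1⟩
theorem rf5k279 : CfgOK (rf5c279.e, rf5c279.n) := red_ln rf5h12.2.2.1 ⟨rf5h12.2.2.1.1, rf5h7.2.2.2.1.1⟩
theorem rf5k280 : CfgOK (rf5c280.e, rf5c280.n) := red_ln rf5h12.2.1 ⟨rf5h12.2.1.1, rf5h7.2.2.1.1⟩
theorem rf5k281 : CfgOK (rf5c281.e, rf5c281.n) := red_ln rf5h12.1 ⟨rf5h12.1.1, rf5h7.2.1.1⟩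
theorem rf5k282 : CfgOK (rf5c282.e, rf5c282.n) := red_ln rf5h1.2.2.2.2.2.2.2.2.2.2.2.2.2.2.2.2.2.2.2.2.2.2.2.1 ⟨⟨rf5h1.2.2.2.2.2.2.2.2.2.2.2.2.2.2.2.2.2.2.2.2.2.2.2.1.1, rf5h7.1.1⟩, ⟨rf5h13.2.2.2.2.2.2.2.2.2.2.2.2.2.2.2.2.2.2.2.2.2.2.2.2.1.1, rf5h16.2.2.2.2.2.2.2.2.2.2.2.2.2.2.1.1⟩⟩
theorem rf5k283 : CfgOK (rf5c283.e, rf5c283.n) := red_ln rf5h1.2.2.2.2.2.2.2.2.2.2.2.2.2.2.2.2.2.2.2.2.2.2.1 ⟨⟨rf5h1.2.2.2.2.2.2.2.2.2.2.2.2.2.2.2.2.2.2.2.2.2.2.1.1, rf5h6.2.2.2.2.2.2.2.2.2.2.2.2.2.2.2.2.2.2.2.2.2.2.2.2.2.2.2.2.2.2.2.2.2.2.2.2.2.2.2.1.1⟩, ⟨rf5h13.2.2.2.2.2.2.2.2.2.2.2.2.2.2.2.2.2.2.2.2.2.2.2.1.1, rf5h16.2.2.2.2.2.2.2.2.2.2.2.2.2.1.1⟩⟩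
theorem rf5k284 : CfgOK (rf5c284.e, rf5c284.n) := red_ln rf5h1.2.2.2.2.2.2.2.2.2.2.2.2.2.2.2.2.2.2.2.2.2.1 ⟨⟨rf5h1.2.2.2.2.2.2.2.2.2.2.2.2.2.2.2.2.2.2.2.2.2.1.1, rf5h14.2.2.2.2.2.2.2.2.2.2.2.2.1.1⟩, ⟨rf5h6.2.2.2.2.2.2.2.2.2.2.2.2.2.2.2.2.2.2.2.2.2.2.2.2.2.2.2.2.2.2.2.2.2.2.2.2.2.2.1.1, rf5h16.2.2.2.2.2.2.2.2.2.2.2.2.1.1⟩⟩
theorem rf5k285 : CfgOK (rf5c285.e, rf5c285.n) := red_ln rf5h1.2.2.2.2.2.2.2.2.2.2.2.2.2.2.2.2.2.2.2.2.1 ⟨⟨rf5h1.2.2.2.2.2.2.2.2.2.2.2.2.2.2.2.2.2.2.2.2.1.1, rf5h14.2.2.2.2.2.2.2.2.2.2.2.1.1⟩, ⟨rf5h6.2.2.2.2.2.2.2.2.2.2.2.2.2.2.2.2.2.2.2.2.2.2.2.2.2.2.2.2.2.2.2.2.2.2.2.2.2.1.1, rf5h16.2.2.2.2.2.2.2.2.2.2.2.1.1⟩⟩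
theorem rf5k286 : CfgOK (rf5c286.e, rf5c286.n) := red_ln rf5h1.2.2.2.2.2.2.2.2.2.2.2.2.2.2.2.2.2.2.2.1 ⟨⟨⟨rf5h1.2.2.2.2.2.2.2.2.2.2.2.2.2.2.2.2.2.2.2.1.1, rf5h14.2.2.2.2.2.2.2.2.2.2.1.1⟩, ⟨rf5h6.2.2.2.2.2.2.2.2.2.2.2.2.2.2.2.2.2.2.2.2.2.2.2.2.2.2.2.2.2.2.2.2.2.2.2.2.1.1, rf5h16.2.2.2.2.2.2.2.2.2.2.1.1⟩⟩, ⟨⟨rf5h11.2.2.1.1, rf5h18.2.1.1⟩, ⟨rf5h16.2.2.2.2.2.2.2.2.2.1.1, rf5h19.1.1⟩⟩⟩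
theorem rf5k287 : CfgOK (rf5c287.e, rf5c287.n) := red_ln rf5h1.2.2.2.2.2.2.2.2.2.2.2.2.2.2.2.2.2.2.1 ⟨⟨rf5h1.2.2.2.2.2.2.2.2.2.2.2.2.2.2.2.2.2.2.1.1, rf5h13.2.2.2.2.2.2.2.2.2.2.2.2.2.2.2.2.2.2.2.2.2.2.1.1⟩, ⟨rf5h6.2.2.2.2.2.2.2.2.2.2.2.2.2.2.2.2.2.2.2.2.2.2.2.2.2.2.2.2.2.2.2.2.2.2.2.1.1, rf5h16.2.2.2.2.2.2.2.2.1.1⟩⟩
theorem rf5k288 : CfgOK (rf5c288.e, rf5c288.n) := red_ln rf5h1.2.2.2.2.2.2.2.2.2.2.2.2.2.2.2.2.2.1 ⟨⟨rf5h1.2.2.2.2.2.2.2.2.2.2.2.2.2.2.2.2.2.1.1, rf5h13.2.2.2.2.2.2.2.2.2.2.2.2.2.2.1.1⟩, ⟨rf5h6.2.2.2.2.2.2.2.2.2.2.2.2.2.2.2.2.2.2.2.2.2.2.2.2.2.2.2.2.2.2.2.2.2.2.1.1, rf5h16.2.2.2.2.2.2.2.1.1⟩⟩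
theorem rf5k289 : CfgOK (rf5c289.e, rf5c289.n) := red_ln rf5h1.2.2.2.2.2.2.2.2.2.2.2.2.2.2.2.2.1 rf5h1.2.2.2.2.2.2.2.2.2.2.2.2.2.2.2.2.1.1
theorem rf5k290 : CfgOK (rf5c290.e, rf5c290.n) := red_ln rf5h1.2.2.2.2.2.2.2.2.2.2.2.2.2.2.2.1 rf5h1.2.2.2.2.2.2.2.2.2.2.2.2.2.2.2.1.1
theorem rf5k291 : CfgOK (rf5c291.e, rf5c291.n) := red_ln rf5h1.2.2.2.2.2.2.2.2.2.2.2.2.2.2.1 ⟨rf5h1.2.2.2.2.2.2.2.2.2.2.2.2.2.2.1.1, rf5h6.2.2.2.2.2.2.2.2.2.2.2.2.2.2.2.2.2.2.2.2.2.2.2.2.2.2.2.2.2.2.2.2.2.1.1⟩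
theorem rf5k292 : CfgOK (rf5c292.e, rf5c292.n) := red_ln rf5h1.2.2.2.2.2.2.2.2.2.2.2.2.2.1 ⟨rf5h1.2.2.2.2.2.2.2.2.2.2.2.2.2.1.1, rf5h6.2.2.2.2.2.2.2.2.2.2.2.2.2.2.2.2.2.2.2.2.2.2.2.2.2.2.2.2.2.2.2.2.1.1⟩
theorem rf5k293 : CfgOK (rf5c293.e, rf5c293.n) := red_ln rf5h1.2.2.2.2.2.2.2.2.2.2.2.2.1 ⟨rf5h1.2.2.2.2.2.2.2.2.2.2.2.2.1.1, rf5h6.2.2.2.2.2.2.2.2.2.2.2.2.2.2.2.2.2.2.2.2.2.2.2.2.2.2.2.2.2.2.2.1.1⟩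
theorem rf5k294 : CfgOK (rf5c294.e, rf5c294.n) := red_ln rf5h1.2.2.2.2.2.2.2.2.2.2.2.1 ⟨rf5h1.2.2.2.2.2.2.2.2.2.2.2.1.1, rf5h6.2.2.2.2.2.2.2.2.2.2.2.2.2.2.2.2.2.2.2.2.2.2.2.2.2.2.2.2.2.2.1.1⟩
theorem rf5k295 : CfgOK (rf5c295.e, rf5c295.n) := red_ln rf5h1.2.2.2.2.2.2.2.2.2.2.1 ⟨rf5h1.2.2.2.2.2.2.2.2.2.2.1.1, rf5h6.2.2.2.2.2.2.2.2.2.2.2.2.2.2.2.2.2.2.2.2.2.2.2.2.2.2.2.2.2.1.1⟩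
theorem rf5k296 : CfgOK (rf5c296.e, rf5c296.n) := red_ln rf5h1.2.2.2.2.2.2.2.2.2.1 ⟨rf5h1.2.2.2.2.2.2.2.2.2.1.1, rf5h6.2.2.2.2.2.2.2.2.2.2.2.2.2.2.2.2.2.2.2.2.2.2.2.2.2.2.2.2.1.1⟩
theorem rf5k297 : CfgOK (rf5c297.e, rf5c297.n) := red_ln rf5h1.2.2.2.2.2.2.2.2.1 ⟨rf5h1.2.2.2.2.2.2.2.2.1.1, rf5h6.2.2.2.2.2.2.2.2.2.2.2.2.2.2.2.2.2.2.2.2.2.2.2.2.2.2.2.1.1⟩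
theorem rf5k298 : CfgOK (rf5c298.e, rf5c298.n) := red_ln rf5h1.2.2.2.2.2.2.2.1 ⟨rf5h1.2.2.2.2.2.2.2.1.1, rf5h6.2.2.2.2.2.2.2.2.2.2.2.2.2.2.2.2.2.2.2.2.2.2.2.2.2.2.1.1⟩
theorem rf5k299 : CfgOK (rf5c299.e, rf5c299.n) := red_ln rf5h1.2.2.2.2.2.2.1 ⟨rf5h1.2.2.2.2.2.2.1.1, rf5h6.2.2.2.2.2.2.2.2.2.2.2.2.2.2.2.2.2.2.2.2.2.2.2.2.2.1.1⟩
theorem rf5k300 : CfgOK (rf5c300.e, rf5c300.n) := red_ln rf5h1.2.2.2.2.2.1 ⟨rf5h1.2.2.2.2.2.1.1, rf5h6.2.2.2.2.2.2.2.2.2.2.2.2.2.2.2.2.2.2.2.2.2.2.2.2.1.1⟩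
theorem rf5k301 : CfgOK (rf5c301.e, rf5c301.n) := red_ln rf5h1.2.2.2.2.1 ⟨rf5h1.2.2.2.2.1.1, rf5h6.2.2.2.2.2.2.2.2.2.2.2.2.2.2.2.2.2.2.2.2.2.2.2.1.1⟩
theorem rf5k302 : CfgOK (rf5c302.e, rf5c302.n) := red_ln rf5h1.2.2.2.1 ⟨rf5h1.2.2.2.1.1, rf5h6.2.2.2.2.2.2.2.2.2.2.2.2.2.2.2.2.2.2.2.2.2.2.1.1⟩
theorem rf5k303 : CfgOK (rf5c303.e, rf5c303.n) := red_ln rf5h1.2.2.1 ⟨rf5h1.2.2.1.1, rf5h6.2.2.2.2.2.2.2.2.2.2.2.2.2.2.2.2.2.2.2.2.2.1.1⟩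
theorem rf5k304 : CfgOK (rf5c304.e, rf5c304.n) := red_ln rf5h1.2.1 ⟨rf5h1.2.1.1, rf5h6.2.2.2.2.2.2.2.2.2.2.2.2.2.2.2.2.2.2.2.2.1.1⟩
theorem rf5k305 : CfgOK (rf5c305.e, rf5c305.n) := red_ln rf5h1.1 ⟨rf5h1.1.1, rf5h6.2.2.2.2.2.2.2.2.2.2.2.2.2.2.2.2.2.2.2.1.1⟩
theorem rf5k306 : CfgOK (rf5c306.e, rf5c306.n) := red_ln rf5h0.2.2.2.2.2.2.2.2.2.2.2.2.2.2.2.2.2.2.2.2.2.2.2.1 ⟨rf5h0.2.2.2.2.2.2.2.2.2.2.2.2.2.2.2.2.2.2.2.2.2.2.2.1.1, rf5h6.2.2.2.2.2.2.2.2.2.2.2.2.2.2.2.2.2.2.1.1⟩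
theorem rf5k307 : CfgOK (rf5c307.e, rf5c307.n) := red_ln rf5h0.2.2.2.2.2.2.2.2.2.2.2.2.2.2.2.2.2.2.2.2.2.2.1 ⟨rf5h0.2.2.2.2.2.2.2.2.2.2.2.2.2.2.2.2.2.2.2.2.2.2.1.1, rf5h6.2.2.2.2.2.2.2.2.2.2.2.2.2.2.2.2.2.1.1⟩
theorem rf5k308 : CfgOK (rf5c308.e, rf5c308.n) := red_ln rf5h0.2.2.2.2.2.2.2.2.2.2.2.2.2.2.2.2.2.2.2.2.2.1 ⟨rf5h0.2.2.2.2.2.2.2.2.2.2.2.2.2.2.2.2.2.2.2.2.2.1.1, rf5h6.2.2.2.2.2.2.2.2.2.2.2.2.2.2.2.2.1.1⟩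
theorem rf5k309 : CfgOK (rf5c309.e, rf5c309.n) := red_ln rf5h0.2.2.2.2.2.2.2.2.2.2.2.2.2.2.2.2.2.2.2.2.1 ⟨rf5h0.2.2.2.2.2.2.2.2.2.2.2.2.2.2.2.2.2.2.2.2.1.1, rf5h6.2.2.2.2.2.2.2.2.2.2.2.2.2.2.2.1.1⟩
theorem rf5k310 : CfgOK (rf5c310.e, rf5c310.n) := red_ln rf5h0.2.2.2.2.2.2.2.2.2.2.2.2.2.2.2.2.2.2.2.1 ⟨rf5h0.2.2.2.2.2.2.2.2.2.2.2.2.2.2.2.2.2.2.2.1.1, rf5h6.2.2.2.2.2.2.2.2.2.2.2.2.2.2.1.1⟩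
theorem rf5k311 : CfgOK (rf5c311.e, rf5c311.n) := red_ln rf5h0.2.2.2.2.2.2.2.2.2.2.2.2.2.2.2.2.2.2.1 ⟨rf5h0.2.2.2.2.2.2.2.2.2.2.2.2.2.2.2.2.2.2.1.1, rf5h6.2.2.2.2.2.2.2.2.2.2.2.2.2.1.1⟩
theorem rf5k312 : CfgOK (rf5c312.e, rf5c312.n) := red_ln rf5h0.2.2.2.2.2.2.2.2.2.2.2.2.2.2.2.2.2.1 ⟨⟨rf5h0.2.2.2.2.2.2.2.2.2.2.2.2.2.2.2.2.2.1.1, rf5h6.2.2.2.2.2.2.2.2.2.2.2.2.1.1⟩, ⟨rf5h13.2.2.2.2.2.2.2.2.2.2.2.2.2.1.1, rf5h16.2.2.2.2.2.2.1.1⟩⟩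
theorem rf5k313 : CfgOK (rf5c313.e, rf5c313.n) := red_ln rf5h0.2.2.2.2.2.2.2.2.2.2.2.2.2.2.2.2.1 ⟨⟨rf5h0.2.2.2.2.2.2.2.2.2.2.2.2.2.2.2.2.1.1, rf5h6.2.2.2.2.2.2.2.2.2.2.2.1.1⟩, ⟨rf5h13.2.2.2.2.2.2.2.2.2.2.2.2.1.1, rf5h16.2.2.2.2.2.1.1⟩⟩
theorem rf5k314 : CfgOK (rf5c314.e, rf5c314.n) := red_ln rf5h0.2.2.2.2.2.2.2.2.2.2.2.2.2.2.2.1 ⟨rf5h0.2.2.2.2.2.2.2.2.2.2.2.2.2.2.2.1.1, rf5h14.2.2.2.2.2.2.2.2.2.1.1⟩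
theorem rf5k315 : CfgOK (rf5c315.e, rf5c315.n) := red_ln rf5h0.2.2.2.2.2.2.2.2.2.2.2.2.2.2.1 ⟨⟨rf5h0.2.2.2.2.2.2.2.2.2.2.2.2.2.2.1.1, rf5h14.2.2.2.2.2.2.2.2.1.1⟩, ⟨rf5h6.2.2.2.2.2.2.2.2.2.2.1.1, rf5h16.2.2.2.2.1.1⟩⟩
theorem rf5k316 : CfgOK (rf5c316.e, rf5c316.n) := red_ln rf5h0.2.2.2.2.2.2.2.2.2.2.2.2.2.1 ⟨⟨rf5h0.2.2.2.2.2.2.2.2.2.2.2.2.2.1.1, rf5h13.2.2.2.2.2.2.2.2.2.2.2.2.2.2.2.2.2.2.2.2.2.1.1⟩, ⟨rf5h6.2.2.2.2.2.2.2.2.2.1.1, rf5h16.2.2.2.1.1⟩⟩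
theorem rf5k317 : CfgOK (rf5c317.e, rf5c317.n) := red_ln rf5h0.2.2.2.2.2.2.2.2.2.2.2.2.1 ⟨⟨rf5h0.2.2.2.2.2.2.2.2.2.2.2.2.1.1, rf5h13.2.2.2.2.2.2.2.2.2.2.2.1.1⟩, ⟨rf5h6.2.2.2.2.2.2.2.2.1.1, rf5h16.2.2.1.1⟩⟩
theorem rf5k318 : CfgOK (rf5c318.e, rf5c318.n) := red_ln rf5h0.2.2.2.2.2.2.2.2.2.2.2.1 ⟨⟨rf5h0.2.2.2.2.2.2.2.2.2.2.2.1.1, rf5h13.2.2.2.2.2.2.2.2.2.2.1.1⟩, ⟨rf5h6.2.2.2.2.2.2.2.1.1, rf5h16.2.1.1⟩⟩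
theorem rf5k319 : CfgOK (rf5c319.e, rf5c319.n) := red_ln rf5h0.2.2.2.2.2.2.2.2.2.2.1 ⟨⟨rf5h0.2.2.2.2.2.2.2.2.2.2.1.1, rf5h11.2.2.2.2.2.2.2.2.2.2.2.2.2.2.2.2.2.2.2.1.1⟩, ⟨rf5h6.2.2.2.2.2.2.1.1, rf5h16.1.1⟩⟩
theorem rf5k320 : CfgOK (rf5c320.e, rf5c320.n) := red_ln rf5h0.2.2.2.2.2.2.2.2.2.1 rf5h0.2.2.2.2.2.2.2.2.2.1.1
theorem rf5k321 : CfgOK (rf5c321.e, rf5c321.n) := red_ln rf5h0.2.2.2.2.2.2.2.2.1 rf5h0.2.2.2.2.2.2.2.2.1.1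
theorem rf5k322 : CfgOK (rf5c322.e, rf5c322.n) := red_ln rf5h0.2.2.2.2.2.2.2.1 rf5h0.2.2.2.2.2.2.2.1.1
theorem rf5k323 : CfgOK (rf5c323.e, rf5c323.n) := red_ln rf5h0.2.2.2.2.2.2.1 rf5h0.2.2.2.2.2.2.1.1
theorem rf5k324 : CfgOK (rf5c324.e, rf5c324.n) := red_ln rf5h0.2.2.2.2.2.1 ⟨rf5h0.2.2.2.2.2.1.1, rf5h6.2.2.2.2.2.1.1⟩
theorem rf5k325 : CfgOK (rf5c325.e, rf5c325.n) := red_ln rf5h0.2.2.2.2.1 ⟨rf5h0.2.2.2.2.1.1, rf5h6.2.2.2.2.1.1⟩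
theorem rf5k326 : CfgOK (rf5c326.e, rf5c326.n) := red_ln rf5h0.2.2.2.1 ⟨rf5h0.2.2.2.1.1, rf5h6.2.2.2.1.1⟩
theorem rf5k327 : CfgOK (rf5c327.e, rf5c327.n) := red_ln rf5h0.2.2.1 ⟨rf5h0.2.2.1.1, rf5h6.2.2.1.1⟩
theorem rf5k328 : CfgOK (rf5c328.e, rf5c328.n) := red_ln rf5h0.2.1 ⟨rf5h0.2.1.1, rf5h6.2.1.1⟩
theorem rf5k329 : CfgOK (rf5c329.e, rf5c329.n) := red_ln rf5h0.1 ⟨rf5h0.1.1, rf5h6.1.1⟩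

end Pool.Agent.Lib.G6.B
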