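import Pool.Agent.Lib.G6.BRed
import Pool.Agent.Lib.G6D.RF6

set_option autoImplicit false
set_option maxRecDepth 100000
set_option linter.all false

namespace Pool.Agent.Lib.G6.B

theorem rf6h0 : AllL LnOK rf6l0 := batch_of rf6th.1
theorem rf6h1 : AllL LnOK rf6l1 := batch_of rf6th.2.1
theorem rf6h2 : AllL LnOK rf6l10 := batch_of rf6th.2.2.2.2.2.2.2.2.2.2.1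
theorem rf6h3 : AllL LnOK rf6l11 := batch_of rf6th.2.2.2.2.2.2.2.2.2.2.2.1
theorem rf6h4 : AllL LnOK rf6l12 := batch_of rf6th.2.2.2.2.2.2.2.2.2.2.2.2.1
theorem rf6h5 : AllL LnOK rf6l13 := batch_of rf6th.2.2.2.2.2.2.2.2.2.2.2.2.2.1
theorem rf6h6 : AllL LnOK rf6l14 := batch_of rf6th.2.2.2.2.2.2.2.2.2.2.2.2.2.2.1
theorem rf6h7 : AllL LnOK rf6l15 := batch_of rf6th.2.2.2.2.2.2.2.2.2.2.2.2.2.2.2.1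
theorem rf6h8 : AllL LnOK rf6l16 := batch_of rf6th.2.2.2.2.2.2.2.2.2.2.2.2.2.2.2.2.1
theorem rf6h9 : AllL LnOK rf6l17 := batch_of rf6th.2.2.2.2.2.2.2.2.2.2.2.2.2.2.2.2.2.1
theorem rf6h10 : AllL LnOK rf6l18 := batch_of rf6th.2.2.2.2.2.2.2.2.2.2.2.2.2.2.2.2.2.2.1
theorem rf6h11 : AllL LnOK rf6l19 := batch_of rf6th.2.2.2.2.2.2.2.2.2.2.2.2.2.2.2.2.2.2.2.1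
theorem rf6h12 : AllL LnOK rf6l2 := batch_of rf6th.2.2.1
theorem rf6h13 : AllL LnOK rf6l20 := batch_of rf6th.2.2.2.2.2.2.2.2.2.2.2.2.2.2.2.2.2.2.2.2.1
theorem rf6h14 : AllL LnOK rf6l21 := batch_of rf6th.2.2.2.2.2.2.2.2.2.2.2.2.2.2.2.2.2.2.2.2.2.1
theorem rf6h15 : AllL LnOK rf6l22 := batch_of rf6th.2.2.2.2.2.2.2.2.2.2.2.2.2.2.2.2.2.2.2.2.2.2.1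
theorem rf6h16 : AllL LnOK rf6l23 := batch_of rf6th.2.2.2.2.2.2.2.2.2.2.2.2.2.2.2.2.2.2.2.2.2.2.2.1
theorem rf6h17 : AllL LnOK rf6l24 := batch_of rf6th.2.2.2.2.2.2.2.2.2.2.2.2.2.2.2.2.2.2.2.2.2.2.2.2.1
theorem rf6h18 : AllL LnOK rf6l25 := batch_of rf6th.2.2.2.2.2.2.2.2.2.2.2.2.2.2.2.2.2.2.2.2.2.2.2.2.2.1
theorem rf6h19 : AllL LnOK rf6l26 := batch_of rf6th.2.2.2.2.2.2.2.2.2.2.2.2.2.2.2.2.2.2.2.2.2.2.2.2.2.2.1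
theorem rf6h20 : AllL LnOK rf6l27 := batch_of rf6th.2.2.2.2.2.2.2.2.2.2.2.2.2.2.2.2.2.2.2.2.2.2.2.2.2.2.2.1
theorem rf6h21 : AllL LnOK rf6l28 := batch_of rf6th.2.2.2.2.2.2.2.2.2.2.2.2.2.2.2.2.2.2.2.2.2.2.2.2.2.2.2.2.1
theorem rf6h22 : AllL LnOK rf6l29 := batch_of rf6th.2.2.2.2.2.2.2.2.2.2.2.2.2.2.2.2.2.2.2.2.2.2.2.2.2.2.2.2.2.1
theorem rf6h23 : AllL LnOK rf6l3 := batch_of rf6th.2.2.2.1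
theorem rf6h24 : AllL LnOK rf6l30 := batch_of rf6th.2.2.2.2.2.2.2.2.2.2.2.2.2.2.2.2.2.2.2.2.2.2.2.2.2.2.2.2.2.2.1
theorem rf6h25 : AllL LnOK rf6l31 := batch_of rf6th.2.2.2.2.2.2.2.2.2.2.2.2.2.2.2.2.2.2.2.2.2.2.2.2.2.2.2.2.2.2.2.1
theorem rf6h26 : AllL LnOK rf6l32 := batch_of rf6th.2.2.2.2.2.2.2.2.2.2.2.2.2.2.2.2.2.2.2.2.2.2.2.2.2.2.2.2.2.2.2.2.1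
theorem rf6h27 : AllL LnOK rf6l33 := batch_of rf6th.2.2.2.2.2.2.2.2.2.2.2.2.2.2.2.2.2.2.2.2.2.2.2.2.2.2.2.2.2.2.2.2.2.1
theorem rf6h28 : AllL LnOK rf6l34 := batch_of rf6th.2.2.2.2.2.2.2.2.2.2.2.2.2.2.2.2.2.2.2.2.2.2.2.2.2.2.2.2.2.2.2.2.2.2.1
theorem rf6h29 : AllL LnOK rf6l35 := batch_of rf6th.2.2.2.2.2.2.2.2.2.2.2.2.2.2.2.2.2.2.2.2.2.2.2.2.2.2.2.2.2.2.2.2.2.2.2.1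
theorem rf6h30 : AllL LnOK rf6l36 := batch_of rf6th.2.2.2.2.2.2.2.2.2.2.2.2.2.2.2.2.2.2.2.2.2.2.2.2.2.2.2.2.2.2.2.2.2.2.2.2.1
theorem rf6h31 : AllL LnOK rf6l37 := batch_of rf6th.2.2.2.2.2.2.2.2.2.2.2.2.2.2.2.2.2.2.2.2.2.2.2.2.2.2.2.2.2.2.2.2.2.2.2.2.2.1
theorem rf6h32 : AllL LnOK rf6l38 := batch_of rf6th.2.2.2.2.2.2.2.2.2.2.2.2.2.2.2.2.2.2.2.2.2.2.2.2.2.2.2.2.2.2.2.2.2.2.2.2.2.2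
theorem rf6h33 : AllL LnOK rf6l4 := batch_of rf6th.2.2.2.2.1
theorem rf6h34 : AllL LnOK rf6l5 := batch_of rf6th.2.2.2.2.2.1
theorem rf6h35 : AllL LnOK rf6l6 := batch_of rf6th.2.2.2.2.2.2.1
theorem rf6h36 : AllL LnOK rf6l7 := batch_of rf6th.2.2.2.2.2.2.2.1
theorem rf6h37 : AllL LnOK rf6l8 := batch_of rf6th.2.2.2.2.2.2.2.2.1
theorem rf6h38 : AllL LnOK rf6l9 := batch_of rf6th.2.2.2.2.2.2.2.2.2.1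
theorem rf6k0 : CfgOK (rf6c0.e, rf6c0.n) := red_ln rf6h33.2.2.2.2.2.2.2.2.2.2.2.2.2.2.2.2.2.2.2.2.2.2.1 ⟨rf6h33.2.2.2.2.2.2.2.2.2.2.2.2.2.2.2.2.2.2.2.2.2.2.1.1, rf6h37.2.2.2.2.2.2.1.1⟩
theorem rf6k1 : CfgOK (rf6c1.e, rf6c1.n) := red_ln rf6h33.2.2.2.2.2.2.2.2.2.2.2.2.2.2.2.2.2.2.2.2.2.1 ⟨rf6h33.2.2.2.2.2.2.2.2.2.2.2.2.2.2.2.2.2.2.2.2.2.1.1, rf6h37.2.2.2.2.2.1.1⟩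
theorem rf6k2 : CfgOK (rf6c2.e, rf6c2.n) := red_ln rf6h33.2.2.2.2.2.2.2.2.2.2.2.2.2.2.2.2.2.2.2.2.1 ⟨rf6h33.2.2.2.2.2.2.2.2.2.2.2.2.2.2.2.2.2.2.2.2.1.1, rf6h37.2.2.2.2.1.1⟩
theorem rf6k3 : CfgOK (rf6c3.e, rf6c3.n) := red_ln rf6h33.2.2.2.2.2.2.2.2.2.2.2.2.2.2.2.2.2.2.2.1 ⟨rf6h33.2.2.2.2.2.2.2.2.2.2.2.2.2.2.2.2.2.2.2.1.1, rf6h37.2.2.2.1.1⟩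
theorem rf6k4 : CfgOK (rf6c4.e, rf6c4.n) := red_ln rf6h33.2.2.2.2.2.2.2.2.2.2.2.2.2.2.2.2.2.2.1 ⟨rf6h33.2.2.2.2.2.2.2.2.2.2.2.2.2.2.2.2.2.2.1.1, rf6h37.2.2.1.1⟩
theorem rf6k5 : CfgOK (rf6c5.e, rf6c5.n) := red_ln rf6h33.2.2.2.2.2.2.2.2.2.2.2.2.2.2.2.2.2.1 ⟨rf6h33.2.2.2.2.2.2.2.2.2.2.2.2.2.2.2.2.2.1.1, rf6h37.2.1.1⟩
theorem rf6k6 : CfgOK (rf6c6.e, rf6c6.n) := red_ln rf6h33.2.2.2.2.2.2.2.2.2.2.2.2.2.2.2.2.1 ⟨rf6h33.2.2.2.2.2.2.2.2.2.2.2.2.2.2.2.2.1.1, rf6h37.1.1⟩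
theorem rf6k7 : CfgOK (rf6c7.e, rf6c7.n) := red_ln rf6h33.2.2.2.2.2.2.2.2.2.2.2.2.2.2.2.1 ⟨rf6h33.2.2.2.2.2.2.2.2.2.2.2.2.2.2.2.1.1, rf6h36.2.2.2.2.2.2.2.2.2.2.2.2.2.2.2.2.2.2.2.2.2.2.2.2.2.2.2.2.2.2.2.2.2.2.2.2.2.2.2.1.1⟩
theorem rf6k8 : CfgOK (rf6c8.e, rf6c8.n) := red_ln rf6h33.2.2.2.2.2.2.2.2.2.2.2.2.2.2.1 ⟨rf6h33.2.2.2.2.2.2.2.2.2.2.2.2.2.2.1.1, rf6h36.2.2.2.2.2.2.2.2.2.2.2.2.2.2.2.2.2.2.2.2.2.2.2.2.2.2.2.2.2.2.2.2.2.2.2.2.2.2.1.1⟩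
theorem rf6k9 : CfgOK (rf6c9.e, rf6c9.n) := red_ln rf6h33.2.2.2.2.2.2.2.2.2.2.2.2.2.1 ⟨rf6h33.2.2.2.2.2.2.2.2.2.2.2.2.2.1.1, rf6h36.2.2.2.2.2.2.2.2.2.2.2.2.2.2.2.2.2.2.2.2.2.2.2.2.2.2.2.2.2.2.2.2.2.2.2.2.2.1.1⟩
theorem rf6k10 : CfgOK (rf6c10.e, rf6c10.n) := red_ln rf6h33.2.2.2.2.2.2.2.2.2.2.2.2.1 ⟨rf6h33.2.2.2.2.2.2.2.2.2.2.2.2.1.1, rf6h36.2.2.2.2.2.2.2.2.2.2.2.2.2.2.2.2.2.2.2.2.2.2.2.2.2.2.2.2.2.2.2.2.2.2.2.2.1.1⟩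
theorem rf6k11 : CfgOK (rf6c11.e, rf6c11.n) := red_ln rf6h33.2.2.2.2.2.2.2.2.2.2.2.1 ⟨rf6h33.2.2.2.2.2.2.2.2.2.2.2.1.1, rf6h36.2.2.2.2.2.2.2.2.2.2.2.2.2.2.2.2.2.2.2.2.2.2.2.2.2.2.2.2.2.2.2.2.2.2.2.1.1⟩
theorem rf6k12 : CfgOK (rf6c12.e, rf6c12.n) := red_ln rf6h33.2.2.2.2.2.2.2.2.2.2.1 ⟨rf6h33.2.2.2.2.2.2.2.2.2.2.1.1, rf6h36.2.2.2.2.2.2.2.2.2.2.2.2.2.2.2.2.2.2.2.2.2.2.2.2.2.2.2.2.2.2.2.2.2.2.1.1⟩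
theorem rf6k13 : CfgOK (rf6c13.e, rf6c13.n) := red_ln rf6h33.2.2.2.2.2.2.2.2.2.1 ⟨rf6h33.2.2.2.2.2.2.2.2.2.1.1, rf6h36.2.2.2.2.2.2.2.2.2.2.2.2.2.2.2.2.2.2.2.2.2.2.2.2.2.2.2.2.2.2.2.2.2.1.1⟩
theorem rf6k14 : CfgOK (rf6c14.e, rf6c14.n) := red_ln rf6h33.2.2.2.2.2.2.2.2.1 ⟨⟨rf6h33.2.2.2.2.2.2.2.2.1.1, rf6h36.2.2.2.2.2.2.2.2.2.2.2.2.2.2.2.2.2.2.2.2.2.2.2.2.2.2.2.2.2.2.2.2.1.1⟩, ⟨rf6h38.1.1, rf6h4.2.2.2.2.2.2.2.2.2.2.2.2.2.2.2.2.2.2.2.2.2.2.2.2.2.2.2.2.2.2.2.2.2.2.2.2.2.1.1⟩⟩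
theorem rf6k15 : CfgOK (rf6c15.e, rf6c15.n) := red_ln rf6h33.2.2.2.2.2.2.2.1 ⟨rf6h33.2.2.2.2.2.2.2.1.1, rf6h3.2.1.1⟩
theorem rf6k16 : CfgOK (rf6c16.e, rf6c16.n) := red_ln rf6h33.2.2.2.2.2.2.1 ⟨⟨rf6h33.2.2.2.2.2.2.1.1, rf6h2.2.2.2.2.2.2.2.2.2.2.2.2.2.2.2.2.2.2.1.1⟩, ⟨rf6h36.2.2.2.2.2.2.2.2.2.2.2.2.2.2.2.2.2.2.2.2.2.2.2.2.2.2.2.2.2.2.2.1.1, rf6h4.2.2.2.2.2.2.2.2.2.2.2.2.2.2.2.2.2.2.2.2.2.2.2.2.2.2.2.2.2.2.2.2.2.2.2.2.1.1⟩⟩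
theorem rf6k17 : CfgOK (rf6c17.e, rf6c17.n) := red_ln rf6h33.2.2.2.2.2.1 ⟨⟨rf6h33.2.2.2.2.2.1.1, rf6h2.2.2.2.2.2.2.2.2.2.2.2.2.2.2.2.2.2.1.1⟩, ⟨rf6h36.2.2.2.2.2.2.2.2.2.2.2.2.2.2.2.2.2.2.2.2.2.2.2.2.2.2.2.2.2.2.1.1, rf6h4.2.2.2.2.2.2.2.2.2.2.2.2.2.2.2.2.2.2.2.2.2.2.2.2.2.2.2.2.2.2.2.2.2.2.2.1.1⟩⟩
theorem rf6k18 : CfgOK (rf6c18.e, rf6c18.n) := red_ln rf6h33.2.2.2.2.1 ⟨⟨rf6h33.2.2.2.2.1.1, rf6h2.2.2.2.2.2.2.2.2.2.2.2.2.2.2.2.2.1.1⟩, ⟨rf6h36.2.2.2.2.2.2.2.2.2.2.2.2.2.2.2.2.2.2.2.2.2.2.2.2.2.2.2.2.2.1.1, rf6h4.2.2.2.2.2.2.2.2.2.2.2.2.2.2.2.2.2.2.2.2.2.2.2.2.2.2.2.2.2.2.2.2.2.2.1.1⟩⟩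
theorem rf6k19 : CfgOK (rf6c19.e, rf6c19.n) := red_ln rf6h33.2.2.2.1 ⟨⟨rf6h33.2.2.2.1.1, rf6h2.2.2.2.2.2.2.2.2.1.1⟩, ⟨rf6h36.2.2.2.2.2.2.2.2.2.2.2.2.2.2.2.2.2.2.2.2.2.2.2.2.2.2.2.2.1.1, rf6h4.2.2.2.2.2.2.2.2.2.2.2.2.2.2.2.2.2.2.2.2.2.2.2.2.2.2.2.2.2.2.2.2.2.1.1⟩⟩
theorem rf6k20 : CfgOK (rf6c20.e, rf6c20.n) := red_ln rf6h33.2.2.1 ⟨⟨rf6h33.2.2.1.1, rf6h2.2.2.2.2.2.2.2.1.1⟩, ⟨rf6h36.2.2.2.2.2.2.2.2.2.2.2.2.2.2.2.2.2.2.2.2.2.2.2.2.2.2.2.1.1, rf6h4.2.2.2.2.2.2.2.2.2.2.2.2.2.2.2.2.2.2.2.2.2.2.2.2.2.2.2.2.2.2.2.2.1.1⟩⟩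
theorem rf6k21 : CfgOK (rf6c21.e, rf6c21.n) := red_ln rf6h33.2.1 ⟨⟨rf6h33.2.1.1, rf6h2.2.2.2.2.2.2.1.1⟩, ⟨rf6h36.2.2.2.2.2.2.2.2.2.2.2.2.2.2.2.2.2.2.2.2.2.2.2.2.2.2.1.1, rf6h4.2.2.2.2.2.2.2.2.2.2.2.2.2.2.2.2.2.2.2.2.2.2.2.2.2.2.2.2.2.2.2.1.1⟩⟩
theorem rf6k22 : CfgOK (rf6c22.e, rf6c22.n) := red_ln rf6h33.1 ⟨⟨rf6h33.1.1, rf6h2.2.2.2.2.2.1.1⟩, ⟨rf6h36.2.2.2.2.2.2.2.2.2.2.2.2.2.2.2.2.2.2.2.2.2.2.2.2.2.1.1, rf6h4.2.2.2.2.2.2.2.2.2.2.2.2.2.2.2.2.2.2.2.2.2.2.2.2.2.2.2.2.2.2.1.1⟩⟩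
theorem rf6k23 : CfgOK (rf6c23.e, rf6c23.n) := red_ln rf6h23.2.2.2.2.2.2.2.2.2.2.2.2.2.2.2.2.2.2.2.2.2.2.2.1 rf6h23.2.2.2.2.2.2.2.2.2.2.2.2.2.2.2.2.2.2.2.2.2.2.2.1.1
theorem rf6k24 : CfgOK (rf6c24.e, rf6c24.n) := red_ln rf6h23.2.2.2.2.2.2.2.2.2.2.2.2.2.2.2.2.2.2.2.2.2.2.1 rf6h23.2.2.2.2.2.2.2.2.2.2.2.2.2.2.2.2.2.2.2.2.2.2.1.1
theorem rf6k25 : CfgOK (rf6c25.e, rf6c25.n) := red_ln rf6h23.2.2.2.2.2.2.2.2.2.2.2.2.2.2.2.2.2.2.2.2.2.1 rf6h23.2.2.2.2.2.2.2.2.2.2.2.2.2.2.2.2.2.2.2.2.2.1.1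
theorem rf6k26 : CfgOK (rf6c26.e, rf6c26.n) := red_ln rf6h23.2.2.2.2.2.2.2.2.2.2.2.2.2.2.2.2.2.2.2.2.1 ⟨rf6h23.2.2.2.2.2.2.2.2.2.2.2.2.2.2.2.2.2.2.2.2.1.1, rf6h36.2.2.2.2.2.2.2.2.2.2.2.2.2.2.2.2.2.2.2.2.2.2.2.2.1.1⟩
theorem rf6k27 : CfgOK (rf6c27.e, rf6c27.n) := red_ln rf6h23.2.2.2.2.2.2.2.2.2.2.2.2.2.2.2.2.2.2.2.1 ⟨rf6h23.2.2.2.2.2.2.2.2.2.2.2.2.2.2.2.2.2.2.2.1.1, rf6h36.2.2.2.2.2.2.2.2.2.2.2.2.2.2.2.2.2.2.2.2.2.2.2.1.1⟩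
theorem rf6k28 : CfgOK (rf6c28.e, rf6c28.n) := red_ln rf6h23.2.2.2.2.2.2.2.2.2.2.2.2.2.2.2.2.2.2.1 ⟨rf6h23.2.2.2.2.2.2.2.2.2.2.2.2.2.2.2.2.2.2.1.1, rf6h36.2.2.2.2.2.2.2.2.2.2.2.2.2.2.2.2.2.2.2.2.2.2.1.1⟩
theorem rf6k29 : CfgOK (rf6c29.e, rf6c29.n) := red_ln rf6h23.2.2.2.2.2.2.2.2.2.2.2.2.2.2.2.2.2.1 ⟨rf6h23.2.2.2.2.2.2.2.2.2.2.2.2.2.2.2.2.2.1.1, rf6h36.2.2.2.2.2.2.2.2.2.2.2.2.2.2.2.2.2.2.2.2.2.1.1⟩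
theorem rf6k30 : CfgOK (rf6c30.e, rf6c30.n) := red_ln rf6h23.2.2.2.2.2.2.2.2.2.2.2.2.2.2.2.2.1 ⟨rf6h23.2.2.2.2.2.2.2.2.2.2.2.2.2.2.2.2.1.1, rf6h36.2.2.2.2.2.2.2.2.2.2.2.2.2.2.2.2.2.2.2.2.1.1⟩
theorem rf6k31 : CfgOK (rf6c31.e, rf6c31.n) := red_ln rf6h23.2.2.2.2.2.2.2.2.2.2.2.2.2.2.2.1 ⟨rf6h23.2.2.2.2.2.2.2.2.2.2.2.2.2.2.2.1.1, rf6h36.2.2.2.2.2.2.2.2.2.2.2.2.2.2.2.2.2.2.2.1.1⟩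
theorem rf6k32 : CfgOK (rf6c32.e, rf6c32.n) := red_ln rf6h23.2.2.2.2.2.2.2.2.2.2.2.2.2.2.1 ⟨rf6h23.2.2.2.2.2.2.2.2.2.2.2.2.2.2.1.1, rf6h36.2.2.2.2.2.2.2.2.2.2.2.2.2.2.2.2.2.2.1.1⟩
theorem rf6k33 : CfgOK (rf6c33.e, rf6c33.n) := red_ln rf6h23.2.2.2.2.2.2.2.2.2.2.2.2.2.1 ⟨rf6h23.2.2.2.2.2.2.2.2.2.2.2.2.2.1.1, rf6h36.2.2.2.2.2.2.2.2.2.2.2.2.2.2.2.2.2.1.1⟩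
theorem rf6k34 : CfgOK (rf6c34.e, rf6c34.n) := red_ln rf6h23.2.2.2.2.2.2.2.2.2.2.2.2.1 ⟨rf6h23.2.2.2.2.2.2.2.2.2.2.2.2.1.1, rf6h36.2.2.2.2.2.2.2.2.2.2.2.2.2.2.2.2.1.1⟩
theorem rf6k35 : CfgOK (rf6c35.e, rf6c35.n) := red_ln rf6h23.2.2.2.2.2.2.2.2.2.2.2.1 ⟨rf6h23.2.2.2.2.2.2.2.2.2.2.2.1.1, rf6h36.2.2.2.2.2.2.2.2.2.2.2.2.2.2.2.1.1⟩
theorem rf6k36 : CfgOK (rf6c36.e, rf6c36.n) := red_ln rf6h23.2.2.2.2.2.2.2.2.2.2.1 ⟨rf6h23.2.2.2.2.2.2.2.2.2.2.1.1, rf6h36.2.2.2.2.2.2.2.2.2.2.2.2.2.2.1.1⟩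
theorem rf6k37 : CfgOK (rf6c37.e, rf6c37.n) := red_ln rf6h23.2.2.2.2.2.2.2.2.2.1 ⟨rf6h23.2.2.2.2.2.2.2.2.2.1.1, rf6h36.2.2.2.2.2.2.2.2.2.2.2.2.2.1.1⟩
theorem rf6k38 : CfgOK (rf6c38.e, rf6c38.n) := red_ln rf6h23.2.2.2.2.2.2.2.2.1 ⟨rf6h23.2.2.2.2.2.2.2.2.1.1, rf6h36.2.2.2.2.2.2.2.2.2.2.2.2.1.1⟩
theorem rf6k39 : CfgOK (rf6c39.e, rf6c39.n) := red_ln rf6h23.2.2.2.2.2.2.2.1 ⟨⟨rf6h23.2.2.2.2.2.2.2.1.1, rf6h36.2.2.2.2.2.2.2.2.2.2.2.1.1⟩, ⟨rf6h2.2.2.2.2.2.2.2.2.2.2.2.2.2.2.2.2.2.2.2.2.2.2.2.1.1, rf6h4.2.2.2.2.2.2.2.2.2.2.2.2.2.2.2.2.2.2.2.2.2.2.2.2.2.2.2.2.2.1.1⟩⟩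
theorem rf6k40 : CfgOK (rf6c40.e, rf6c40.n) := red_ln rf6h23.2.2.2.2.2.2.1 ⟨⟨rf6h23.2.2.2.2.2.2.1.1, rf6h36.2.2.2.2.2.2.2.2.2.2.1.1⟩, ⟨rf6h2.2.2.2.2.1.1, rf6h4.2.2.2.2.2.2.2.2.2.2.2.2.2.2.2.2.2.2.2.2.2.2.2.2.2.2.2.2.1.1⟩⟩
theorem rf6k41 : CfgOK (rf6c41.e, rf6c41.n) := red_ln rf6h23.2.2.2.2.2.1 ⟨⟨rf6h23.2.2.2.2.2.1.1, rf6h36.2.2.2.2.2.2.2.2.2.1.1⟩, ⟨rf6h38.2.1.1, rf6h4.2.2.2.2.2.2.2.2.2.2.2.2.2.2.2.2.2.2.2.2.2.2.2.2.2.2.2.1.1⟩⟩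
theorem rf6k42 : CfgOK (rf6c42.e, rf6c42.n) := red_ln rf6h23.2.2.2.2.1 ⟨⟨rf6h23.2.2.2.2.1.1, rf6h2.2.2.2.2.2.2.2.2.2.2.2.2.2.2.2.2.2.2.2.2.2.2.2.2.2.2.2.2.1.1⟩, ⟨rf6h36.2.2.2.2.2.2.2.2.1.1, rf6h4.2.2.2.2.2.2.2.2.2.2.2.2.2.2.2.2.2.2.2.2.2.2.2.2.2.2.1.1⟩⟩
theorem rf6k43 : CfgOK (rf6c43.e, rf6c43.n) := red_ln rf6h23.2.2.2.1 ⟨⟨rf6h23.2.2.2.1.1, rf6h2.2.2.2.2.2.2.2.2.2.2.2.2.2.2.2.1.1⟩, ⟨rf6h36.2.2.2.2.2.2.2.1.1, rf6h4.2.2.2.2.2.2.2.2.2.2.2.2.2.2.2.2.2.2.2.2.2.2.2.2.2.1.1⟩⟩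
theorem rf6k44 : CfgOK (rf6c44.e, rf6c44.n) := red_ln rf6h23.2.2.1 ⟨⟨rf6h23.2.2.1.1, rf6h2.2.2.2.2.2.2.2.2.2.2.2.2.2.2.1.1⟩, ⟨rf6h36.2.2.2.2.2.2.1.1, rf6h4.2.2.2.2.2.2.2.2.2.2.2.2.2.2.2.2.2.2.2.2.2.2.2.2.1.1⟩⟩
theorem rf6k45 : CfgOK (rf6c45.e, rf6c45.n) := red_ln rf6h23.2.1 ⟨⟨rf6h23.2.1.1, rf6h2.2.2.2.1.1⟩, ⟨rf6h36.2.2.2.2.2.1.1, rf6h4.2.2.2.2.2.2.2.2.2.2.2.2.2.2.2.2.2.2.2.2.2.2.2.1.1⟩⟩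
theorem rf6k46 : CfgOK (rf6c46.e, rf6c46.n) := red_ln rf6h23.1 ⟨⟨rf6h23.1.1, rf6h2.2.2.1.1⟩, ⟨rf6h36.2.2.2.2.1.1, rf6h4.2.2.2.2.2.2.2.2.2.2.2.2.2.2.2.2.2.2.2.2.2.2.1.1⟩⟩
theorem rf6k47 : CfgOK (rf6c47.e, rf6c47.n) := red_ln rf6h12.2.2.2.2.2.2.2.2.2.2.2.2.2.2.2.2.2.2.2.2.2.2.2.1 ⟨⟨rf6h12.2.2.2.2.2.2.2.2.2.2.2.2.2.2.2.2.2.2.2.2.2.2.2.1.1, rf6h2.2.1.1⟩, ⟨rf6h36.2.2.2.1.1, rf6h4.2.2.2.2.2.2.2.2.2.2.2.2.2.2.2.2.2.2.2.2.2.1.1⟩⟩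
theorem rf6k48 : CfgOK (rf6c48.e, rf6c48.n) := red_ln rf6h12.2.2.2.2.2.2.2.2.2.2.2.2.2.2.2.2.2.2.2.2.2.2.1 ⟨⟨rf6h12.2.2.2.2.2.2.2.2.2.2.2.2.2.2.2.2.2.2.2.2.2.2.1.1, rf6h2.1.1⟩, ⟨rf6h36.2.2.1.1, rf6h4.2.2.2.2.2.2.2.2.2.2.2.2.2.2.2.2.2.2.2.2.1.1⟩⟩
theorem rf6k49 : CfgOK (rf6c49.e, rf6c49.n) := red_ln rf6h12.2.2.2.2.2.2.2.2.2.2.2.2.2.2.2.2.2.2.2.2.2.1 ⟨rf6h12.2.2.2.2.2.2.2.2.2.2.2.2.2.2.2.2.2.2.2.2.2.1.1, rf6h38.2.2.2.2.2.2.2.2.2.2.2.2.2.2.2.2.2.2.2.2.2.2.2.2.2.2.1.1⟩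
theorem rf6k50 : CfgOK (rf6c50.e, rf6c50.n) := red_ln rf6h12.2.2.2.2.2.2.2.2.2.2.2.2.2.2.2.2.2.2.2.2.1 ⟨⟨rf6h12.2.2.2.2.2.2.2.2.2.2.2.2.2.2.2.2.2.2.2.2.1.1, rf6h38.2.2.2.2.2.2.2.2.2.2.2.2.2.2.2.2.2.2.2.2.2.2.2.2.2.1.1⟩, ⟨rf6h36.2.1.1, rf6h4.2.2.2.2.2.2.2.2.2.2.2.2.2.2.2.2.2.2.2.1.1⟩⟩
theorem rf6k51 : CfgOK (rf6c51.e, rf6c51.n) := red_ln rf6h12.2.2.2.2.2.2.2.2.2.2.2.2.2.2.2.2.2.2.2.1 ⟨⟨rf6h12.2.2.2.2.2.2.2.2.2.2.2.2.2.2.2.2.2.2.2.1.1, rf6h38.2.2.2.2.2.2.2.2.2.2.2.2.2.2.2.2.2.2.2.2.2.2.2.2.1.1⟩, ⟨rf6h36.1.1, rf6h4.2.2.2.2.2.2.2.2.2.2.2.2.2.2.2.2.2.2.1.1⟩⟩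
theorem rf6k52 : CfgOK (rf6c52.e, rf6c52.n) := red_ln rf6h12.2.2.2.2.2.2.2.2.2.2.2.2.2.2.2.2.2.2.1 rf6h12.2.2.2.2.2.2.2.2.2.2.2.2.2.2.2.2.2.2.1.1
theorem rf6k53 : CfgOK (rf6c53.e, rf6c53.n) := red_ln rf6h12.2.2.2.2.2.2.2.2.2.2.2.2.2.2.2.2.2.1 rf6h12.2.2.2.2.2.2.2.2.2.2.2.2.2.2.2.2.2.1.1
theorem rf6k54 : CfgOK (rf6c54.e, rf6c54.n) := red_ln rf6h12.2.2.2.2.2.2.2.2.2.2.2.2.2.2.2.2.1 rf6h12.2.2.2.2.2.2.2.2.2.2.2.2.2.2.2.2.1.1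
theorem rf6k55 : CfgOK (rf6c55.e, rf6c55.n) := red_ln rf6h12.2.2.2.2.2.2.2.2.2.2.2.2.2.2.2.1 rf6h12.2.2.2.2.2.2.2.2.2.2.2.2.2.2.2.1.1
theorem rf6k56 : CfgOK (rf6c56.e, rf6c56.n) := red_ln rf6h12.2.2.2.2.2.2.2.2.2.2.2.2.2.2.1 rf6h12.2.2.2.2.2.2.2.2.2.2.2.2.2.2.1.1
theorem rf6k57 : CfgOK (rf6c57.e, rf6c57.n) := red_ln rf6h12.2.2.2.2.2.2.2.2.2.2.2.2.2.1 ⟨rf6h12.2.2.2.2.2.2.2.2.2.2.2.2.2.1.1, rf6h35.2.2.2.2.2.2.2.2.2.2.2.2.2.2.2.2.2.2.2.2.2.2.2.2.2.2.2.2.2.2.2.2.2.2.2.2.2.2.2.1.1⟩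
theorem rf6k58 : CfgOK (rf6c58.e, rf6c58.n) := red_ln rf6h12.2.2.2.2.2.2.2.2.2.2.2.2.1 ⟨rf6h12.2.2.2.2.2.2.2.2.2.2.2.2.1.1, rf6h35.2.2.2.2.2.2.2.2.2.2.2.2.2.2.2.2.2.2.2.2.2.2.2.2.2.2.2.2.2.2.2.2.2.2.2.2.2.2.1.1⟩
theorem rf6k59 : CfgOK (rf6c59.e, rf6c59.n) := red_ln rf6h12.2.2.2.2.2.2.2.2.2.2.2.1 ⟨rf6h12.2.2.2.2.2.2.2.2.2.2.2.1.1, rf6h35.2.2.2.2.2.2.2.2.2.2.2.2.2.2.2.2.2.2.2.2.2.2.2.2.2.2.2.2.2.2.2.2.2.2.2.2.2.1.1⟩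
theorem rf6k60 : CfgOK (rf6c60.e, rf6c60.n) := red_ln rf6h12.2.2.2.2.2.2.2.2.2.2.1 ⟨rf6h12.2.2.2.2.2.2.2.2.2.2.1.1, rf6h35.2.2.2.2.2.2.2.2.2.2.2.2.2.2.2.2.2.2.2.2.2.2.2.2.2.2.2.2.2.2.2.2.2.2.2.2.1.1⟩
theorem rf6k61 : CfgOK (rf6c61.e, rf6c61.n) := red_ln rf6h12.2.2.2.2.2.2.2.2.2.1 ⟨rf6h12.2.2.2.2.2.2.2.2.2.1.1, rf6h35.2.2.2.2.2.2.2.2.2.2.2.2.2.2.2.2.2.2.2.2.2.2.2.2.2.2.2.2.2.2.2.2.2.2.2.1.1⟩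
theorem rf6k62 : CfgOK (rf6c62.e, rf6c62.n) := red_ln rf6h12.2.2.2.2.2.2.2.2.1 ⟨rf6h12.2.2.2.2.2.2.2.2.1.1, rf6h35.2.2.2.2.2.2.2.2.2.2.2.2.2.2.2.2.2.2.2.2.2.2.2.2.2.2.2.2.2.2.2.2.2.2.1.1⟩
theorem rf6k63 : CfgOK (rf6c63.e, rf6c63.n) := red_ln rf6h12.2.2.2.2.2.2.2.1 ⟨⟨rf6h12.2.2.2.2.2.2.2.1.1, rf6h35.2.2.2.2.2.2.2.2.2.2.2.2.2.2.2.2.2.2.2.2.2.2.2.2.2.2.2.2.2.2.2.2.2.1.1⟩, ⟨rf6h38.2.2.2.2.2.2.2.2.2.2.2.2.2.2.2.2.2.2.2.2.2.2.2.2.2.2.2.2.2.1.1, rf6h4.2.2.2.2.2.2.2.2.2.2.2.2.2.2.2.2.2.1.1⟩⟩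
theorem rf6k64 : CfgOK (rf6c64.e, rf6c64.n) := red_ln rf6h12.2.2.2.2.2.2.1 ⟨⟨rf6h12.2.2.2.2.2.2.1.1, rf6h35.2.2.2.2.2.2.2.2.2.2.2.2.2.2.2.2.2.2.2.2.2.2.2.2.2.2.2.2.2.2.2.2.1.1⟩, ⟨rf6h38.2.2.2.2.2.2.2.2.2.2.2.2.2.2.2.2.2.2.2.2.2.2.2.2.2.2.2.2.1.1, rf6h4.2.2.2.2.2.2.2.2.2.2.2.2.2.2.2.2.1.1⟩⟩
theorem rf6k65 : CfgOK (rf6c65.e, rf6c65.n) := red_ln rf6h12.2.2.2.2.2.1 ⟨⟨rf6h12.2.2.2.2.2.1.1, rf6h35.2.2.2.2.2.2.2.2.2.2.2.2.2.2.2.2.2.2.2.2.2.2.2.2.2.2.2.2.2.2.2.1.1⟩, ⟨rf6h38.2.2.2.2.2.2.2.2.2.2.2.2.2.2.2.2.2.2.2.2.2.2.2.1.1, rf6h4.2.2.2.2.2.2.2.2.2.2.2.2.2.2.2.1.1⟩⟩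
theorem rf6k66 : CfgOK (rf6c66.e, rf6c66.n) := red_ln rf6h12.2.2.2.2.1 ⟨rf6h12.2.2.2.2.1.1, rf6h2.2.2.2.2.2.2.2.2.2.2.2.2.2.1.1⟩
theorem rf6k67 : CfgOK (rf6c67.e, rf6c67.n) := red_ln rf6h12.2.2.2.1 ⟨⟨rf6h12.2.2.2.1.1, rf6h38.2.2.2.2.2.2.2.2.2.2.2.2.2.2.2.2.2.2.2.2.2.2.2.2.2.2.2.1.1⟩, ⟨rf6h35.2.2.2.2.2.2.2.2.2.2.2.2.2.2.2.2.2.2.2.2.2.2.2.2.2.2.2.2.2.2.1.1, rf6h4.2.2.2.2.2.2.2.2.2.2.2.2.2.2.1.1⟩⟩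
theorem rf6k68 : CfgOK (rf6c68.e, rf6c68.n) := red_ln rf6h12.2.2.1 ⟨⟨rf6h12.2.2.1.1, rf6h38.2.2.2.2.2.2.2.2.2.2.2.2.2.2.2.2.2.2.2.2.2.2.1.1⟩, ⟨rf6h35.2.2.2.2.2.2.2.2.2.2.2.2.2.2.2.2.2.2.2.2.2.2.2.2.2.2.2.2.2.1.1, rf6h4.2.2.2.2.2.2.2.2.2.2.2.2.2.1.1⟩⟩
theorem rf6k69 : CfgOK (rf6c69.e, rf6c69.n) := red_ln rf6h12.2.1 ⟨⟨rf6h12.2.1.1, rf6h38.2.2.2.2.2.2.2.2.2.2.2.2.2.2.2.2.2.2.2.2.2.1.1⟩, ⟨rf6h35.2.2.2.2.2.2.2.2.2.2.2.2.2.2.2.2.2.2.2.2.2.2.2.2.2.2.2.2.1.1, rf6h4.2.2.2.2.2.2.2.2.2.2.2.2.1.1⟩⟩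
theorem rf6k70 : CfgOK (rf6c70.e, rf6c70.n) := red_ln rf6h12.1 rf6h12.1.1
theorem rf6k71 : CfgOK (rf6c71.e, rf6c71.n) := red_ln rf6h1.2.2.2.2.2.2.2.2.2.2.2.2.2.2.2.2.2.2.2.2.2.2.2.1 ⟨rf6h1.2.2.2.2.2.2.2.2.2.2.2.2.2.2.2.2.2.2.2.2.2.2.2.1.1, rf6h35.2.2.2.2.2.2.2.2.2.2.2.2.2.2.2.2.2.2.2.2.2.2.2.2.2.2.2.1.1⟩
theorem rf6k72 : CfgOK (rf6c72.e, rf6c72.n) := red_ln rf6h1.2.2.2.2.2.2.2.2.2.2.2.2.2.2.2.2.2.2.2.2.2.2.1 ⟨rf6h1.2.2.2.2.2.2.2.2.2.2.2.2.2.2.2.2.2.2.2.2.2.2.1.1, rf6h35.2.2.2.2.2.2.2.2.2.2.2.2.2.2.2.2.2.2.2.2.2.2.2.2.2.2.1.1⟩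
theorem rf6k73 : CfgOK (rf6c73.e, rf6c73.n) := red_ln rf6h1.2.2.2.2.2.2.2.2.2.2.2.2.2.2.2.2.2.2.2.2.2.1 ⟨rf6h1.2.2.2.2.2.2.2.2.2.2.2.2.2.2.2.2.2.2.2.2.2.1.1, rf6h35.2.2.2.2.2.2.2.2.2.2.2.2.2.2.2.2.2.2.2.2.2.2.2.2.2.1.1⟩
theorem rf6k74 : CfgOK (rf6c74.e, rf6c74.n) := red_ln rf6h1.2.2.2.2.2.2.2.2.2.2.2.2.2.2.2.2.2.2.2.2.1 ⟨rf6h1.2.2.2.2.2.2.2.2.2.2.2.2.2.2.2.2.2.2.2.2.1.1, rf6h35.2.2.2.2.2.2.2.2.2.2.2.2.2.2.2.2.2.2.2.2.2.2.2.2.1.1⟩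
theorem rf6k75 : CfgOK (rf6c75.e, rf6c75.n) := red_ln rf6h1.2.2.2.2.2.2.2.2.2.2.2.2.2.2.2.2.2.2.2.1 ⟨rf6h1.2.2.2.2.2.2.2.2.2.2.2.2.2.2.2.2.2.2.2.1.1, rf6h35.2.2.2.2.2.2.2.2.2.2.2.2.2.2.2.2.2.2.2.2.2.2.2.1.1⟩
theorem rf6k76 : CfgOK (rf6c76.e, rf6c76.n) := red_ln rf6h1.2.2.2.2.2.2.2.2.2.2.2.2.2.2.2.2.2.2.1 ⟨rf6h1.2.2.2.2.2.2.2.2.2.2.2.2.2.2.2.2.2.2.1.1, rf6h2.2.2.2.2.2.2.2.2.2.2.2.2.2.2.2.2.2.2.2.2.2.2.2.2.2.2.2.1.1⟩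
theorem rf6k77 : CfgOK (rf6c77.e, rf6c77.n) := red_ln rf6h1.2.2.2.2.2.2.2.2.2.2.2.2.2.2.2.2.2.1 ⟨rf6h1.2.2.2.2.2.2.2.2.2.2.2.2.2.2.2.2.2.1.1, rf6h2.2.2.2.2.2.2.2.2.2.2.2.2.2.2.2.2.2.2.2.2.2.2.1.1⟩
theorem rf6k78 : CfgOK (rf6c78.e, rf6c78.n) := red_ln rf6h1.2.2.2.2.2.2.2.2.2.2.2.2.2.2.2.2.1 ⟨⟨rf6h1.2.2.2.2.2.2.2.2.2.2.2.2.2.2.2.2.1.1, rf6h2.2.2.2.2.2.2.2.2.2.2.2.2.1.1⟩, ⟨rf6h35.2.2.2.2.2.2.2.2.2.2.2.2.2.2.2.2.2.2.2.2.2.2.1.1, rf6h4.2.2.2.2.2.2.2.2.2.2.2.1.1⟩⟩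
theorem rf6k79 : CfgOK (rf6c79.e, rf6c79.n) := red_ln rf6h1.2.2.2.2.2.2.2.2.2.2.2.2.2.2.2.1 ⟨⟨rf6h1.2.2.2.2.2.2.2.2.2.2.2.2.2.2.2.1.1, rf6h38.2.2.2.2.2.2.2.2.2.2.2.2.2.2.2.2.2.2.2.2.1.1⟩, ⟨rf6h35.2.2.2.2.2.2.2.2.2.2.2.2.2.2.2.2.2.2.2.2.2.1.1, rf6h4.2.2.2.2.2.2.2.2.2.2.1.1⟩⟩
theorem rf6k80 : CfgOK (rf6c80.e, rf6c80.n) := red_ln rf6h1.2.2.2.2.2.2.2.2.2.2.2.2.2.2.1 ⟨⟨rf6h1.2.2.2.2.2.2.2.2.2.2.2.2.2.2.1.1, rf6h38.2.2.2.2.2.2.2.2.2.2.2.2.2.2.2.2.2.2.2.1.1⟩, ⟨rf6h35.2.2.2.2.2.2.2.2.2.2.2.2.2.2.2.2.2.2.2.2.1.1, rf6h4.2.2.2.2.2.2.2.2.2.1.1⟩⟩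
theorem rf6k81 : CfgOK (rf6c81.e, rf6c81.n) := red_ln rf6h1.2.2.2.2.2.2.2.2.2.2.2.2.2.1 ⟨⟨rf6h1.2.2.2.2.2.2.2.2.2.2.2.2.2.1.1, rf6h38.2.2.2.2.2.2.2.2.2.2.2.2.2.2.2.2.2.2.1.1⟩, ⟨rf6h2.2.2.2.2.2.2.2.2.2.2.2.2.2.2.2.2.2.2.2.2.2.1.1, rf6h5.2.2.2.2.2.2.1.1⟩⟩
theorem rf6k82 : CfgOK (rf6c82.e, rf6c82.n) := red_ln rf6h1.2.2.2.2.2.2.2.2.2.2.2.2.1 ⟨rf6h1.2.2.2.2.2.2.2.2.2.2.2.2.1.1, rf6h35.2.2.2.2.2.2.2.2.2.2.2.2.2.2.2.2.2.2.2.1.1⟩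
theorem rf6k83 : CfgOK (rf6c83.e, rf6c83.n) := red_ln rf6h1.2.2.2.2.2.2.2.2.2.2.2.1 ⟨rf6h1.2.2.2.2.2.2.2.2.2.2.2.1.1, rf6h35.2.2.2.2.2.2.2.2.2.2.2.2.2.2.2.2.2.2.1.1⟩
theorem rf6k84 : CfgOK (rf6c84.e, rf6c84.n) := red_ln rf6h1.2.2.2.2.2.2.2.2.2.2.1 ⟨rf6h1.2.2.2.2.2.2.2.2.2.2.1.1, rf6h35.2.2.2.2.2.2.2.2.2.2.2.2.2.2.2.2.2.1.1⟩
theorem rf6k85 : CfgOK (rf6c85.e, rf6c85.n) := red_ln rf6h1.2.2.2.2.2.2.2.2.2.1 ⟨rf6h1.2.2.2.2.2.2.2.2.2.1.1, rf6h35.2.2.2.2.2.2.2.2.2.2.2.2.2.2.2.2.1.1⟩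
theorem rf6k86 : CfgOK (rf6c86.e, rf6c86.n) := red_ln rf6h1.2.2.2.2.2.2.2.2.1 ⟨rf6h1.2.2.2.2.2.2.2.2.1.1, rf6h35.2.2.2.2.2.2.2.2.2.2.2.2.2.2.2.1.1⟩
theorem rf6k87 : CfgOK (rf6c87.e, rf6c87.n) := red_ln rf6h1.2.2.2.2.2.2.2.1 ⟨rf6h1.2.2.2.2.2.2.2.1.1, rf6h35.2.2.2.2.2.2.2.2.2.2.2.2.2.2.1.1⟩
theorem rf6k88 : CfgOK (rf6c88.e, rf6c88.n) := red_ln rf6h1.2.2.2.2.2.2.1 ⟨⟨rf6h1.2.2.2.2.2.2.1.1, rf6h38.2.2.2.2.2.2.2.2.2.2.2.2.2.2.2.2.2.1.1⟩, ⟨rf6h35.2.2.2.2.2.2.2.2.2.2.2.2.2.1.1, rf6h4.2.2.2.2.2.2.2.2.1.1⟩⟩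
theorem rf6k89 : CfgOK (rf6c89.e, rf6c89.n) := red_ln rf6h1.2.2.2.2.2.1 ⟨⟨rf6h1.2.2.2.2.2.1.1, rf6h38.2.2.2.2.2.2.2.2.2.2.2.2.2.2.2.2.1.1⟩, ⟨rf6h35.2.2.2.2.2.2.2.2.2.2.2.2.1.1, rf6h4.2.2.2.2.2.2.2.1.1⟩⟩
theorem rf6k90 : CfgOK (rf6c90.e, rf6c90.n) := red_ln rf6h1.2.2.2.2.1 ⟨⟨rf6h1.2.2.2.2.1.1, rf6h38.2.2.2.2.2.2.2.2.2.2.2.2.2.2.2.1.1⟩, ⟨rf6h35.2.2.2.2.2.2.2.2.2.2.2.1.1, rf6h4.2.2.2.2.2.2.1.1⟩⟩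
theorem rf6k91 : CfgOK (rf6c91.e, rf6c91.n) := red_ln rf6h1.2.2.2.1 ⟨rf6h1.2.2.2.1.1, rf6h38.2.2.2.2.2.2.2.2.2.2.2.2.1.1⟩
theorem rf6k92 : CfgOK (rf6c92.e, rf6c92.n) := red_ln rf6h1.2.2.1 ⟨⟨rf6h1.2.2.1.1, rf6h38.2.2.2.2.2.2.2.2.2.2.2.1.1⟩, ⟨rf6h35.2.2.2.2.2.2.2.2.2.2.1.1, rf6h4.2.2.2.2.2.1.1⟩⟩
theorem rf6k93 : CfgOK (rf6c93.e, rf6c93.n) := red_ln rf6h1.2.1 ⟨rf6h1.2.1.1, rf6h35.2.2.2.2.2.2.2.2.2.1.1⟩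
theorem rf6k94 : CfgOK (rf6c94.e, rf6c94.n) := red_ln rf6h1.1 ⟨⟨rf6h1.1.1, rf6h38.2.2.2.2.2.2.2.2.2.2.2.2.2.2.1.1⟩, ⟨rf6h35.2.2.2.2.2.2.2.2.1.1, rf6h4.2.2.2.2.1.1⟩⟩
theorem rf6k95 : CfgOK (rf6c95.e, rf6c95.n) := red_ln rf6h0.2.2.2.2.2.2.2.2.2.2.2.2.2.2.2.2.2.1 ⟨⟨rf6h0.2.2.2.2.2.2.2.2.2.2.2.2.2.2.2.2.2.1.1, rf6h38.2.2.2.2.1.1⟩, ⟨rf6h35.2.2.2.2.2.2.2.1.1, rf6h4.2.2.2.1.1⟩⟩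
theorem rf6k96 : CfgOK (rf6c96.e, rf6c96.n) := red_ln rf6h0.2.2.2.2.2.2.2.2.2.2.2.2.2.2.2.2.1 ⟨rf6h0.2.2.2.2.2.2.2.2.2.2.2.2.2.2.2.2.1.1, rf6h35.2.2.2.2.2.2.1.1⟩
theorem rf6k97 : CfgOK (rf6c97.e, rf6c97.n) := red_ln rf6h0.2.2.2.2.2.2.2.2.2.2.2.2.2.2.2.1 ⟨rf6h0.2.2.2.2.2.2.2.2.2.2.2.2.2.2.2.1.1, rf6h35.2.2.2.2.2.1.1⟩
theorem rf6k98 : CfgOK (rf6c98.e, rf6c98.n) := red_ln rf6h0.2.2.2.2.2.2.2.2.2.2.2.2.2.2.1 ⟨rf6h0.2.2.2.2.2.2.2.2.2.2.2.2.2.2.1.1, rf6h35.2.2.2.2.1.1⟩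
theorem rf6k99 : CfgOK (rf6c99.e, rf6c99.n) := red_ln rf6h0.2.2.2.2.2.2.2.2.2.2.2.2.2.1 ⟨rf6h0.2.2.2.2.2.2.2.2.2.2.2.2.2.1.1, rf6h38.2.2.2.2.2.2.2.2.2.2.2.2.2.1.1⟩
theorem rf6k100 : CfgOK (rf6c100.e, rf6c100.n) := red_ln rf6h0.2.2.2.2.2.2.2.2.2.2.2.2.1 ⟨rf6h0.2.2.2.2.2.2.2.2.2.2.2.2.1.1, rf6h38.2.2.2.2.2.2.2.2.2.2.1.1⟩
theorem rf6k101 : CfgOK (rf6c101.e, rf6c101.n) := red_ln rf6h0.2.2.2.2.2.2.2.2.2.2.2.1 ⟨rf6h0.2.2.2.2.2.2.2.2.2.2.2.1.1, rf6h38.2.2.1.1⟩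
theorem rf6k102 : CfgOK (rf6c102.e, rf6c102.n) := red_ln rf6h0.2.2.2.2.2.2.2.2.2.2.1 ⟨rf6h0.2.2.2.2.2.2.2.2.2.2.1.1, rf6h38.2.2.2.2.2.2.2.2.2.1.1⟩
theorem rf6k103 : CfgOK (rf6c103.e, rf6c103.n) := red_ln rf6h0.2.2.2.2.2.2.2.2.2.1 ⟨⟨rf6h0.2.2.2.2.2.2.2.2.2.1.1, rf6h38.2.2.2.2.2.2.1.1⟩, ⟨rf6h35.2.2.2.1.1, rf6h4.2.2.1.1⟩⟩
theorem rf6k104 : CfgOK (rf6c104.e, rf6c104.n) := red_ln rf6h0.2.2.2.2.2.2.2.2.1 ⟨rf6h0.2.2.2.2.2.2.2.2.1.1, rf6h38.2.2.2.2.2.2.2.2.1.1⟩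
theorem rf6k105 : CfgOK (rf6c105.e, rf6c105.n) := red_ln rf6h0.2.2.2.2.2.2.2.1 ⟨⟨rf6h0.2.2.2.2.2.2.2.1.1, rf6h38.2.2.2.2.2.1.1⟩, ⟨rf6h35.2.2.1.1, rf6h4.2.1.1⟩⟩
theorem rf6k106 : CfgOK (rf6c106.e, rf6c106.n) := red_ln rf6h0.2.2.2.2.2.2.1 rf6h0.2.2.2.2.2.2.1.1
theorem rf6k107 : CfgOK (rf6c107.e, rf6c107.n) := red_ln rf6h0.2.2.2.2.2.1 rf6h0.2.2.2.2.2.1.1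
theorem rf6k108 : CfgOK (rf6c108.e, rf6c108.n) := red_ln rf6h0.2.2.2.2.1 ⟨rf6h0.2.2.2.2.1.1, rf6h38.2.2.2.2.2.2.2.1.1⟩
theorem rf6k109 : CfgOK (rf6c109.e, rf6c109.n) := red_ln rf6h0.2.2.2.1 rf6h0.2.2.2.1.1
theorem rf6k110 : CfgOK (rf6c110.e, rf6c110.n) := red_ln rf6h0.2.2.1 ⟨⟨rf6h0.2.2.1.1, rf6h38.2.2.2.1.1⟩, ⟨rf6h35.2.1.1, rf6h4.1.1⟩⟩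
theorem rf6k111 : CfgOK (rf6c111.e, rf6c111.n) := red_ln rf6h0.2.1 rf6h0.2.1.1
theorem rf6k112 : CfgOK (rf6c112.e, rf6c112.n) := red_ln rf6h0.1 ⟨rf6h0.1.1, rf6h35.1.1⟩
theorem rf6k113 : CfgOK (rf6c113.e, rf6c113.n) := red_ln rf6h6.2.2.2.2.2.2.2.2.2.2.2.2.2.2.2.2.2.2.1 ⟨⟨rf6h6.2.2.2.2.2.2.2.2.2.2.2.2.2.2.2.2.2.2.1.1, rf6h7.2.2.2.2.2.2.2.2.2.2.2.2.2.2.2.2.2.2.1.1⟩, ⟨rf6h9.2.2.2.2.2.2.2.1.1, rf6h10.2.2.2.2.2.2.2.2.2.2.2.2.2.2.2.2.2.2.1.1⟩⟩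
theorem rf6k114 : CfgOK (rf6c114.e, rf6c114.n) := red_ln rf6h6.2.2.2.2.2.2.2.2.2.2.2.2.2.2.2.2.2.1 ⟨⟨rf6h6.2.2.2.2.2.2.2.2.2.2.2.2.2.2.2.2.2.1.1, rf6h7.2.2.2.2.2.2.2.2.2.2.2.2.2.2.2.2.2.1.1⟩, ⟨rf6h9.2.2.2.2.2.2.1.1, rf6h10.2.2.2.2.2.2.2.2.2.2.2.2.2.2.2.2.2.1.1⟩⟩
theorem rf6k115 : CfgOK (rf6c115.e, rf6c115.n) := red_ln rf6h6.2.2.2.2.2.2.2.2.2.2.2.2.2.2.2.2.1 ⟨⟨rf6h6.2.2.2.2.2.2.2.2.2.2.2.2.2.2.2.2.1.1, rf6h7.2.2.2.2.2.2.2.2.2.2.2.2.2.2.2.2.1.1⟩, ⟨rf6h9.2.2.2.2.2.1.1, rf6h10.2.2.2.2.2.2.2.2.2.2.2.2.2.2.2.2.1.1⟩⟩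
theorem rf6k116 : CfgOK (rf6c116.e, rf6c116.n) := red_ln rf6h6.2.2.2.2.2.2.2.2.2.2.2.2.2.2.2.1 ⟨⟨rf6h6.2.2.2.2.2.2.2.2.2.2.2.2.2.2.2.1.1, rf6h7.2.2.2.2.2.2.2.2.2.2.2.2.2.2.2.1.1⟩, ⟨rf6h9.2.2.2.2.1.1, rf6h10.2.2.2.2.2.2.2.2.2.2.2.2.2.2.2.1.1⟩⟩
theorem rf6k117 : CfgOK (rf6c117.e, rf6c117.n) := red_ln rf6h6.2.2.2.2.2.2.2.2.2.2.2.2.2.2.1 ⟨⟨rf6h6.2.2.2.2.2.2.2.2.2.2.2.2.2.2.1.1, rf6h7.2.2.2.2.2.2.2.2.2.2.2.2.2.2.1.1⟩, ⟨rf6h9.2.2.2.1.1, rf6h10.2.2.2.2.2.2.2.2.2.2.2.2.2.2.1.1⟩⟩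
theorem rf6k118 : CfgOK (rf6c118.e, rf6c118.n) := red_ln rf6h6.2.2.2.2.2.2.2.2.2.2.2.2.2.1 ⟨⟨rf6h6.2.2.2.2.2.2.2.2.2.2.2.2.2.1.1, rf6h7.2.2.2.2.2.2.2.2.2.2.2.2.2.1.1⟩, ⟨rf6h9.2.2.1.1, rf6h10.2.2.2.2.2.2.2.2.2.2.2.2.2.1.1⟩⟩
theorem rf6k119 : CfgOK (rf6c119.e, rf6c119.n) := red_ln rf6h6.2.2.2.2.2.2.2.2.2.2.2.2.1 ⟨⟨rf6h6.2.2.2.2.2.2.2.2.2.2.2.2.1.1, rf6h7.2.2.2.2.2.2.2.2.2.2.2.2.1.1⟩, ⟨rf6h9.2.1.1, rf6h10.2.2.2.2.2.2.2.2.2.2.2.2.1.1⟩⟩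
theorem rf6k120 : CfgOK (rf6c120.e, rf6c120.n) := red_ln rf6h6.2.2.2.2.2.2.2.2.2.2.2.1 ⟨⟨rf6h6.2.2.2.2.2.2.2.2.2.2.2.1.1, rf6h7.2.2.2.2.2.2.2.2.2.2.2.1.1⟩, ⟨rf6h9.1.1, rf6h10.2.2.2.2.2.2.2.2.2.2.2.1.1⟩⟩
theorem rf6k121 : CfgOK (rf6c121.e, rf6c121.n) := red_ln rf6h6.2.2.2.2.2.2.2.2.2.2.1 ⟨⟨rf6h6.2.2.2.2.2.2.2.2.2.2.1.1, rf6h7.2.2.2.2.2.2.2.2.2.2.1.1⟩, ⟨rf6h8.2.2.2.2.2.2.2.2.2.2.2.2.2.2.2.2.2.2.2.2.2.2.2.2.2.2.2.2.2.1.1, rf6h10.2.2.2.2.2.2.2.2.2.2.1.1⟩⟩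
theorem rf6k122 : CfgOK (rf6c122.e, rf6c122.n) := red_ln rf6h6.2.2.2.2.2.2.2.2.2.1 ⟨⟨rf6h6.2.2.2.2.2.2.2.2.2.1.1, rf6h7.2.2.2.2.2.2.2.2.2.1.1⟩, ⟨rf6h8.2.2.2.2.2.2.2.2.2.2.2.2.2.1.1, rf6h10.2.2.2.2.2.2.2.2.2.1.1⟩⟩
theorem rf6k123 : CfgOK (rf6c123.e, rf6c123.n) := red_ln rf6h6.2.2.2.2.2.2.2.2.1 ⟨⟨rf6h6.2.2.2.2.2.2.2.2.1.1, rf6h7.2.2.2.2.2.2.2.1.1⟩, ⟨rf6h8.2.2.2.2.2.2.2.2.2.2.2.2.2.2.2.2.2.2.2.2.2.2.2.2.2.2.2.2.1.1, rf6h10.2.2.2.2.2.2.2.2.1.1⟩⟩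
theorem rf6k124 : CfgOK (rf6c124.e, rf6c124.n) := red_ln rf6h6.2.2.2.2.2.2.2.1 ⟨⟨rf6h6.2.2.2.2.2.2.2.1.1, rf6h7.2.2.2.2.2.2.1.1⟩, ⟨rf6h8.2.2.2.2.2.2.2.2.2.2.2.2.2.2.2.2.2.2.2.2.2.2.2.2.2.2.2.1.1, rf6h10.2.2.2.2.2.2.2.1.1⟩⟩
theorem rf6k125 : CfgOK (rf6c125.e, rf6c125.n) := red_ln rf6h6.2.2.2.2.2.2.1 ⟨⟨rf6h6.2.2.2.2.2.2.1.1, rf6h7.2.2.2.2.2.1.1⟩, ⟨rf6h8.2.2.2.2.2.2.2.2.2.2.2.2.2.2.2.2.2.2.2.2.2.2.2.2.2.2.1.1, rf6h10.2.2.2.2.2.2.1.1⟩⟩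
theorem rf6k126 : CfgOK (rf6c126.e, rf6c126.n) := red_ln rf6h6.2.2.2.2.2.1 ⟨⟨rf6h6.2.2.2.2.2.1.1, rf6h7.2.2.1.1⟩, ⟨rf6h8.2.2.2.2.2.2.2.2.2.2.2.2.2.2.2.2.2.2.2.2.2.2.2.2.2.1.1, rf6h10.2.2.2.2.2.1.1⟩⟩
theorem rf6k127 : CfgOK (rf6c127.e, rf6c127.n) := red_ln rf6h6.2.2.2.2.1 ⟨⟨rf6h6.2.2.2.2.1.1, rf6h7.2.2.2.2.1.1⟩, ⟨rf6h8.2.2.2.2.2.2.2.2.2.2.2.2.1.1, rf6h10.2.2.2.2.1.1⟩⟩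
theorem rf6k128 : CfgOK (rf6c128.e, rf6c128.n) := red_ln rf6h6.2.2.2.1 ⟨⟨rf6h6.2.2.2.1.1, rf6h7.1.1⟩, ⟨rf6h8.2.2.2.2.1.1, rf6h10.2.2.2.1.1⟩⟩
theorem rf6k129 : CfgOK (rf6c129.e, rf6c129.n) := red_ln rf6h6.2.2.1 rf6h6.2.2.1.1
theorem rf6k130 : CfgOK (rf6c130.e, rf6c130.n) := red_ln rf6h6.2.1 rf6h6.2.1.1
theorem rf6k131 : CfgOK (rf6c131.e, rf6c131.n) := red_ln rf6h6.1 rf6h6.1.1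
theorem rf6k132 : CfgOK (rf6c132.e, rf6c132.n) := red_ln rf6h11.2.2.2.2.1 ⟨⟨rf6h11.2.2.2.2.1.1, rf6h7.2.2.2.2.2.2.2.2.1.1⟩, ⟨rf6h8.2.2.2.2.2.2.2.2.2.2.2.2.2.2.2.2.2.2.2.2.2.2.2.2.1.1, rf6h10.2.2.1.1⟩⟩
theorem rf6k133 : CfgOK (rf6c133.e, rf6c133.n) := red_ln rf6h11.2.2.2.1 ⟨⟨rf6h11.2.2.2.1.1, rf6h7.2.2.2.1.1⟩, ⟨rf6h8.2.2.2.2.2.2.2.2.2.2.2.2.2.2.2.2.2.2.2.2.2.2.2.1.1, rf6h10.2.1.1⟩⟩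
theorem rf6k134 : CfgOK (rf6c134.e, rf6c134.n) := red_ln rf6h11.2.2.1 rf6h11.2.2.1.1
theorem rf6k135 : CfgOK (rf6c135.e, rf6c135.n) := red_ln rf6h11.2.1 ⟨⟨rf6h11.2.1.1, rf6h7.2.1.1⟩, ⟨rf6h8.2.2.2.1.1, rf6h10.1.1⟩⟩
theorem rf6k136 : CfgOK (rf6c136.e, rf6c136.n) := red_ln rf6h11.1 rf6h11.1.1
theorem rf6k137 : CfgOK (rf6c137.e, rf6c137.n) := red_ln rf6h13.2.2.2.2.2.2.2.2.2.2.2.1 ⟨⟨rf6h13.2.2.2.2.2.2.2.2.2.2.2.1.1, rf6h9.2.2.2.2.2.2.2.2.1.1⟩, ⟨rf6h15.2.2.2.1.1, rf6h16.2.2.2.2.2.2.2.2.2.2.2.2.2.2.2.2.2.2.2.1.1⟩⟩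
theorem rf6k138 : CfgOK (rf6c138.e, rf6c138.n) := red_ln rf6h13.2.2.2.2.2.2.2.2.2.2.1 ⟨⟨rf6h13.2.2.2.2.2.2.2.2.2.2.1.1, rf6h8.2.2.2.2.2.2.2.2.2.2.2.2.2.2.2.2.2.2.2.2.2.2.1.1⟩, ⟨rf6h15.2.2.1.1, rf6h16.2.2.2.2.2.2.2.2.2.2.2.2.2.2.2.2.2.2.1.1⟩⟩
theorem rf6k139 : CfgOK (rf6c139.e, rf6c139.n) := red_ln rf6h13.2.2.2.2.2.2.2.2.2.1 ⟨⟨rf6h13.2.2.2.2.2.2.2.2.2.1.1, rf6h8.2.2.2.2.2.2.2.2.2.2.2.2.2.2.2.2.2.2.2.2.2.1.1⟩, ⟨rf6h14.2.2.2.2.2.2.2.2.2.2.2.2.2.2.2.2.2.2.2.2.2.2.2.2.2.2.2.2.2.1.1, rf6h16.2.2.2.2.2.2.2.2.2.2.2.2.2.2.2.2.2.1.1⟩⟩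
theorem rf6k140 : CfgOK (rf6c140.e, rf6c140.n) := red_ln rf6h13.2.2.2.2.2.2.2.2.1 ⟨⟨rf6h13.2.2.2.2.2.2.2.2.1.1, rf6h8.2.2.2.2.2.2.2.2.2.2.2.2.2.2.2.2.2.2.2.2.1.1⟩, ⟨rf6h14.2.2.2.2.2.2.2.2.2.2.2.2.2.2.2.2.2.2.2.2.2.2.2.2.2.2.2.2.1.1, rf6h16.2.2.2.2.2.2.2.2.2.2.2.2.2.2.2.2.1.1⟩⟩
theorem rf6k141 : CfgOK (rf6c141.e, rf6c141.n) := red_ln rf6h13.2.2.2.2.2.2.2.1 ⟨⟨rf6h13.2.2.2.2.2.2.2.1.1, rf6h8.2.2.2.2.2.2.2.2.2.2.2.2.2.2.2.2.2.2.2.1.1⟩, ⟨rf6h14.2.2.2.2.2.2.2.2.2.2.2.2.2.2.2.2.2.2.2.2.2.2.1.1, rf6h16.2.2.2.2.2.2.2.2.2.2.2.2.2.2.2.1.1⟩⟩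
theorem rf6k142 : CfgOK (rf6c142.e, rf6c142.n) := red_ln rf6h13.2.2.2.2.2.2.1 ⟨⟨rf6h13.2.2.2.2.2.2.1.1, rf6h8.2.2.2.2.2.2.2.2.2.2.2.2.2.2.2.2.2.2.1.1⟩, ⟨rf6h14.2.2.2.2.2.2.2.2.2.2.2.2.2.2.2.2.2.2.2.2.2.1.1, rf6h16.2.2.2.2.2.2.2.2.2.2.2.2.2.2.1.1⟩⟩
theorem rf6k143 : CfgOK (rf6c143.e, rf6c143.n) := red_ln rf6h13.2.2.2.2.2.1 ⟨⟨rf6h13.2.2.2.2.2.1.1, rf6h8.2.2.2.2.2.2.2.2.2.2.2.2.2.2.2.2.2.1.1⟩, ⟨rf6h14.2.2.2.2.2.2.2.2.2.2.2.2.2.2.2.2.2.2.2.2.1.1, rf6h16.2.2.2.2.2.2.2.2.2.2.2.2.2.1.1⟩⟩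
theorem rf6k144 : CfgOK (rf6c144.e, rf6c144.n) := red_ln rf6h13.2.2.2.2.1 ⟨⟨rf6h13.2.2.2.2.1.1, rf6h8.2.2.2.2.2.2.2.2.2.2.2.2.2.2.2.2.1.1⟩, ⟨rf6h14.2.2.2.2.2.2.2.2.2.2.2.2.2.2.2.2.2.2.2.1.1, rf6h16.2.2.2.2.2.1.1⟩⟩
theorem rf6k145 : CfgOK (rf6c145.e, rf6c145.n) := red_ln rf6h13.2.2.2.1 ⟨⟨rf6h13.2.2.2.1.1, rf6h8.2.2.2.2.2.2.2.2.2.2.2.1.1⟩, ⟨rf6h14.2.2.2.2.2.2.2.2.2.2.2.2.2.2.2.2.2.2.1.1, rf6h16.2.1.1⟩⟩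
theorem rf6k146 : CfgOK (rf6c146.e, rf6c146.n) := red_ln rf6h13.2.2.1 rf6h13.2.2.1.1
theorem rf6k147 : CfgOK (rf6c147.e, rf6c147.n) := red_ln rf6h13.2.1 ⟨⟨rf6h13.2.1.1, rf6h8.2.1.1⟩, ⟨rf6h14.2.1.1, rf6h16.2.2.2.2.1.1⟩⟩
theorem rf6k148 : CfgOK (rf6c148.e, rf6c148.n) := red_ln rf6h13.1 ⟨⟨rf6h13.1.1, rf6h8.1.1⟩, ⟨rf6h14.1.1, rf6h16.1.1⟩⟩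
theorem rf6k149 : CfgOK (rf6c149.e, rf6c149.n) := red_ln rf6h17.2.2.2.2.2.2.2.2.2.2.2.2.1 rf6h17.2.2.2.2.2.2.2.2.2.2.2.2.1.1
theorem rf6k150 : CfgOK (rf6c150.e, rf6c150.n) := red_ln rf6h17.2.2.2.2.2.2.2.2.2.2.2.1 ⟨⟨rf6h17.2.2.2.2.2.2.2.2.2.2.2.1.1, rf6h8.2.2.2.2.2.2.2.2.2.2.2.2.2.2.2.1.1⟩, ⟨rf6h14.2.2.2.2.2.2.2.2.2.2.2.2.2.2.2.2.2.1.1, rf6h16.2.2.2.2.2.2.2.2.2.2.2.2.1.1⟩⟩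
theorem rf6k151 : CfgOK (rf6c151.e, rf6c151.n) := red_ln rf6h17.2.2.2.2.2.2.2.2.2.2.1 ⟨⟨rf6h17.2.2.2.2.2.2.2.2.2.2.1.1, rf6h8.2.2.2.2.2.2.2.2.2.2.2.2.2.2.1.1⟩, ⟨rf6h14.2.2.2.2.2.2.2.2.2.2.2.2.2.2.2.2.1.1, rf6h16.2.2.2.1.1⟩⟩
theorem rf6k152 : CfgOK (rf6c152.e, rf6c152.n) := red_ln rf6h17.2.2.2.2.2.2.2.2.2.1 ⟨⟨rf6h17.2.2.2.2.2.2.2.2.2.1.1, rf6h8.2.2.2.2.2.2.2.2.2.2.1.1⟩, ⟨rf6h14.2.2.2.2.2.2.2.2.2.2.2.2.2.2.2.1.1, rf6h16.2.2.2.2.2.2.2.2.2.2.2.1.1⟩⟩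
theorem rf6k153 : CfgOK (rf6c153.e, rf6c153.n) := red_ln rf6h17.2.2.2.2.2.2.2.2.1 ⟨⟨rf6h17.2.2.2.2.2.2.2.2.1.1, rf6h8.2.2.2.2.2.2.2.2.2.1.1⟩, ⟨rf6h14.2.2.2.2.2.2.2.2.2.2.2.2.2.2.1.1, rf6h16.2.2.2.2.2.2.2.2.2.2.1.1⟩⟩
theorem rf6k154 : CfgOK (rf6c154.e, rf6c154.n) := red_ln rf6h17.2.2.2.2.2.2.2.1 ⟨⟨rf6h17.2.2.2.2.2.2.2.1.1, rf6h8.2.2.2.2.2.2.2.2.1.1⟩, ⟨rf6h14.2.2.2.2.2.2.2.2.2.2.2.2.2.1.1, rf6h16.2.2.2.2.2.2.2.2.2.1.1⟩⟩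
theorem rf6k155 : CfgOK (rf6c155.e, rf6c155.n) := red_ln rf6h17.2.2.2.2.2.2.1 ⟨⟨rf6h17.2.2.2.2.2.2.1.1, rf6h8.2.2.2.2.2.2.2.1.1⟩, ⟨rf6h14.2.2.2.2.2.2.2.2.2.2.2.2.1.1, rf6h16.2.2.2.2.2.2.2.2.1.1⟩⟩
theorem rf6k156 : CfgOK (rf6c156.e, rf6c156.n) := red_ln rf6h17.2.2.2.2.2.1 ⟨⟨rf6h17.2.2.2.2.2.1.1, rf6h8.2.2.2.2.2.2.1.1⟩, ⟨rf6h14.2.2.2.2.2.2.2.2.2.2.2.1.1, rf6h16.2.2.1.1⟩⟩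
theorem rf6k157 : CfgOK (rf6c157.e, rf6c157.n) := red_ln rf6h17.2.2.2.2.1 ⟨⟨rf6h17.2.2.2.2.1.1, rf6h8.2.2.1.1⟩, ⟨rf6h14.2.2.2.2.2.2.2.2.2.2.1.1, rf6h16.2.2.2.2.2.2.2.1.1⟩⟩
theorem rf6k158 : CfgOK (rf6c158.e, rf6c158.n) := red_ln rf6h17.2.2.2.1 rf6h17.2.2.2.1.1
theorem rf6k159 : CfgOK (rf6c159.e, rf6c159.n) := red_ln rf6h17.2.2.1 ⟨⟨rf6h17.2.2.1.1, rf6h8.2.2.2.2.2.1.1⟩, ⟨rf6h14.2.2.2.2.2.2.2.2.2.1.1, rf6h16.2.2.2.2.2.2.1.1⟩⟩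
theorem rf6k160 : CfgOK (rf6c160.e, rf6c160.n) := red_ln rf6h17.2.1 rf6h17.2.1.1
theorem rf6k161 : CfgOK (rf6c161.e, rf6c161.n) := red_ln rf6h17.1 rf6h17.1.1
theorem rf6k162 : CfgOK (rf6c162.e, rf6c162.n) := red_ln rf6h18.2.2.2.2.2.2.2.2.2.2.2.1 ⟨⟨rf6h18.2.2.2.2.2.2.2.2.2.2.2.1.1, rf6h15.2.1.1⟩, ⟨rf6h19.2.2.2.2.2.2.2.2.2.2.2.2.1.1, rf6h20.2.2.2.2.2.2.2.2.2.2.1.1⟩⟩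
theorem rf6k163 : CfgOK (rf6c163.e, rf6c163.n) := red_ln rf6h18.2.2.2.2.2.2.2.2.2.2.1 ⟨⟨rf6h18.2.2.2.2.2.2.2.2.2.2.1.1, rf6h15.1.1⟩, ⟨rf6h19.2.2.2.2.2.2.2.2.2.2.2.1.1, rf6h20.2.2.1.1⟩⟩
theorem rf6k164 : CfgOK (rf6c164.e, rf6c164.n) := red_ln rf6h18.2.2.2.2.2.2.2.2.2.1 ⟨⟨rf6h18.2.2.2.2.2.2.2.2.2.1.1, rf6h14.2.2.2.2.2.2.2.2.2.2.2.2.2.2.2.2.2.2.2.2.2.2.2.2.2.2.2.1.1⟩, ⟨rf6h19.2.2.2.2.2.2.2.2.2.2.2.2.2.2.2.2.2.1.1, rf6h20.2.2.2.2.2.2.2.2.2.2.2.2.1.1⟩⟩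
theorem rf6k165 : CfgOK (rf6c165.e, rf6c165.n) := red_ln rf6h18.2.2.2.2.2.2.2.2.1 ⟨⟨rf6h18.2.2.2.2.2.2.2.2.1.1, rf6h14.2.2.2.2.2.2.2.2.2.2.2.2.2.2.2.2.2.2.2.2.2.2.2.2.2.2.1.1⟩, ⟨rf6h19.2.2.2.2.2.2.2.2.2.2.1.1, rf6h20.2.2.2.2.2.2.2.2.2.1.1⟩⟩
theorem rf6k166 : CfgOK (rf6c166.e, rf6c166.n) := red_ln rf6h18.2.2.2.2.2.2.2.1 ⟨⟨rf6h18.2.2.2.2.2.2.2.1.1, rf6h14.2.2.2.2.2.2.2.2.2.2.2.2.2.2.2.2.2.2.2.2.2.2.2.2.2.1.1⟩, ⟨rf6h19.2.2.2.2.2.2.2.2.1.1, rf6h20.2.2.2.2.2.2.2.2.1.1⟩⟩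
theorem rf6k167 : CfgOK (rf6c167.e, rf6c167.n) := red_ln rf6h18.2.2.2.2.2.2.1 rf6h18.2.2.2.2.2.2.1.1
theorem rf6k168 : CfgOK (rf6c168.e, rf6c168.n) := red_ln rf6h18.2.2.2.2.2.1 rf6h18.2.2.2.2.2.1.1
theorem rf6k169 : CfgOK (rf6c169.e, rf6c169.n) := red_ln rf6h18.2.2.2.2.1 ⟨⟨rf6h18.2.2.2.2.1.1, rf6h14.2.2.2.2.2.2.2.2.1.1⟩, ⟨rf6h19.2.2.2.2.2.2.2.2.2.2.2.2.2.2.2.2.1.1, rf6h20.2.2.2.2.2.2.2.2.2.2.2.1.1⟩⟩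
theorem rf6k170 : CfgOK (rf6c170.e, rf6c170.n) := red_ln rf6h18.2.2.2.1 ⟨⟨rf6h18.2.2.2.1.1, rf6h14.2.2.2.2.2.2.2.1.1⟩, ⟨rf6h19.2.2.2.2.2.1.1, rf6h20.2.2.2.2.2.1.1⟩⟩
theorem rf6k171 : CfgOK (rf6c171.e, rf6c171.n) := red_ln rf6h18.2.2.1 rf6h18.2.2.1.1
theorem rf6k172 : CfgOK (rf6c172.e, rf6c172.n) := red_ln rf6h18.2.1 rf6h18.2.1.1
theorem rf6k173 : CfgOK (rf6c173.e, rf6c173.n) := red_ln rf6h18.1 rf6h18.1.1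
theorem rf6k174 : CfgOK (rf6c174.e, rf6c174.n) := red_ln rf6h21.2.2.2.2.2.2.2.2.2.2.1 ⟨⟨rf6h21.2.2.2.2.2.2.2.2.2.2.1.1, rf6h14.2.2.2.2.2.2.2.2.2.2.2.2.2.2.2.2.2.2.2.2.2.2.2.2.1.1⟩, ⟨rf6h19.2.2.2.2.2.2.2.2.2.1.1, rf6h20.2.2.2.2.2.2.2.1.1⟩⟩
theorem rf6k175 : CfgOK (rf6c175.e, rf6c175.n) := red_ln rf6h21.2.2.2.2.2.2.2.2.2.1 rf6h21.2.2.2.2.2.2.2.2.2.1.1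
theorem rf6k176 : CfgOK (rf6c176.e, rf6c176.n) := red_ln rf6h21.2.2.2.2.2.2.2.2.1 ⟨⟨rf6h21.2.2.2.2.2.2.2.2.1.1, rf6h14.2.2.2.2.2.2.2.2.2.2.2.2.2.2.2.2.2.2.2.2.2.2.2.1.1⟩, ⟨rf6h19.2.2.2.2.1.1, rf6h20.2.2.2.2.1.1⟩⟩
theorem rf6k177 : CfgOK (rf6c177.e, rf6c177.n) := red_ln rf6h21.2.2.2.2.2.2.2.1 ⟨⟨rf6h21.2.2.2.2.2.2.2.1.1, rf6h14.2.2.2.2.2.2.1.1⟩, ⟨rf6h19.2.2.2.2.2.2.2.1.1, rf6h20.2.1.1⟩⟩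
theorem rf6k178 : CfgOK (rf6c178.e, rf6c178.n) := red_ln rf6h21.2.2.2.2.2.2.1 ⟨⟨rf6h21.2.2.2.2.2.2.1.1, rf6h14.2.2.2.2.2.1.1⟩, ⟨rf6h19.2.2.2.1.1, rf6h20.2.2.2.2.2.2.1.1⟩⟩
theorem rf6k179 : CfgOK (rf6c179.e, rf6c179.n) := red_ln rf6h21.2.2.2.2.2.1 ⟨⟨rf6h21.2.2.2.2.2.1.1, rf6h14.2.2.2.2.1.1⟩, ⟨rf6h19.2.2.1.1, rf6h20.2.2.2.1.1⟩⟩
theorem rf6k180 : CfgOK (rf6c180.e, rf6c180.n) := red_ln rf6h21.2.2.2.2.1 rf6h21.2.2.2.2.1.1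
theorem rf6k181 : CfgOK (rf6c181.e, rf6c181.n) := red_ln rf6h21.2.2.2.1 ⟨⟨rf6h21.2.2.2.1.1, rf6h14.2.2.2.1.1⟩, ⟨rf6h19.2.1.1, rf6h20.1.1⟩⟩
theorem rf6k182 : CfgOK (rf6c182.e, rf6c182.n) := red_ln rf6h21.2.2.1 rf6h21.2.2.1.1
theorem rf6k183 : CfgOK (rf6c183.e, rf6c183.n) := red_ln rf6h21.2.1 ⟨rf6h21.2.1.1, rf6h14.2.2.1.1⟩
theorem rf6k184 : CfgOK (rf6c184.e, rf6c184.n) := red_ln rf6h21.1 rf6h21.1.1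
theorem rf6k185 : CfgOK (rf6c185.e, rf6c185.n) := red_ln rf6h22.1 rf6h22.1.1
theorem rf6k186 : CfgOK (rf6c186.e, rf6c186.n) := red_ln rf6h24.2.2.2.2.2.2.2.2.2.2.2.2.2.2.2.2.2.2.2.1 ⟨⟨rf6h24.2.2.2.2.2.2.2.2.2.2.2.2.2.2.2.2.2.2.2.1.1, rf6h19.2.2.2.2.2.2.2.2.2.2.2.2.2.2.2.1.1⟩, ⟨rf6h25.2.2.2.1.1, rf6h26.2.2.1.1⟩⟩
theorem rf6k187 : CfgOK (rf6c187.e, rf6c187.n) := red_ln rf6h24.2.2.2.2.2.2.2.2.2.2.2.2.2.2.2.2.2.2.1 ⟨⟨rf6h24.2.2.2.2.2.2.2.2.2.2.2.2.2.2.2.2.2.2.1.1, rf6h19.2.2.2.2.2.2.2.2.2.2.2.2.2.2.1.1⟩, ⟨rf6h25.2.2.1.1, rf6h26.2.1.1⟩⟩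
theorem rf6k188 : CfgOK (rf6c188.e, rf6c188.n) := red_ln rf6h24.2.2.2.2.2.2.2.2.2.2.2.2.2.2.2.2.2.1 ⟨⟨rf6h24.2.2.2.2.2.2.2.2.2.2.2.2.2.2.2.2.2.1.1, rf6h19.2.2.2.2.2.2.2.2.2.2.2.2.2.1.1⟩, ⟨rf6h25.2.1.1, rf6h26.1.1⟩⟩
theorem rf6k189 : CfgOK (rf6c189.e, rf6c189.n) := red_ln rf6h24.2.2.2.2.2.2.2.2.2.2.2.2.2.2.2.2.1 rf6h24.2.2.2.2.2.2.2.2.2.2.2.2.2.2.2.2.1.1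
theorem rf6k190 : CfgOK (rf6c190.e, rf6c190.n) := red_ln rf6h24.2.2.2.2.2.2.2.2.2.2.2.2.2.2.2.1 rf6h24.2.2.2.2.2.2.2.2.2.2.2.2.2.2.2.1.1
theorem rf6k191 : CfgOK (rf6c191.e, rf6c191.n) := red_ln rf6h24.2.2.2.2.2.2.2.2.2.2.2.2.2.2.1 ⟨rf6h24.2.2.2.2.2.2.2.2.2.2.2.2.2.2.1.1, rf6h19.2.2.2.2.2.2.1.1⟩
theorem rf6k192 : CfgOK (rf6c192.e, rf6c192.n) := red_ln rf6h24.2.2.2.2.2.2.2.2.2.2.2.2.2.1 ⟨rf6h24.2.2.2.2.2.2.2.2.2.2.2.2.2.1.1, rf6h19.1.1⟩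
theorem rf6k193 : CfgOK (rf6c193.e, rf6c193.n) := red_ln rf6h24.2.2.2.2.2.2.2.2.2.2.2.2.1 rf6h24.2.2.2.2.2.2.2.2.2.2.2.2.1.1
theorem rf6k194 : CfgOK (rf6c194.e, rf6c194.n) := red_ln rf6h24.2.2.2.2.2.2.2.2.2.2.2.1 rf6h24.2.2.2.2.2.2.2.2.2.2.2.1.1
theorem rf6k195 : CfgOK (rf6c195.e, rf6c195.n) := red_ln rf6h24.2.2.2.2.2.2.2.2.2.2.1 rf6h24.2.2.2.2.2.2.2.2.2.2.1.1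
theorem rf6k196 : CfgOK (rf6c196.e, rf6c196.n) := red_ln rf6h24.2.2.2.2.2.2.2.2.2.1 rf6h24.2.2.2.2.2.2.2.2.2.1.1
theorem rf6k197 : CfgOK (rf6c197.e, rf6c197.n) := red_ln rf6h24.2.2.2.2.2.2.2.2.1 rf6h24.2.2.2.2.2.2.2.2.1.1
theorem rf6k198 : CfgOK (rf6c198.e, rf6c198.n) := red_ln rf6h24.2.2.2.2.2.2.2.1 ⟨rf6h24.2.2.2.2.2.2.2.1.1, rf6h27.1.1⟩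
theorem rf6k199 : CfgOK (rf6c199.e, rf6c199.n) := red_ln rf6h24.2.2.2.2.2.2.1 rf6h24.2.2.2.2.2.2.1.1
theorem rf6k200 : CfgOK (rf6c200.e, rf6c200.n) := red_ln rf6h24.2.2.2.2.2.1 rf6h24.2.2.2.2.2.1.1
theorem rf6k201 : CfgOK (rf6c201.e, rf6c201.n) := red_ln rf6h24.2.2.2.2.1 rf6h24.2.2.2.2.1.1
theorem rf6k202 : CfgOK (rf6c202.e, rf6c202.n) := red_ln rf6h24.2.2.2.1 rf6h24.2.2.2.1.1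
theorem rf6k203 : CfgOK (rf6c203.e, rf6c203.n) := red_ln rf6h24.2.2.1 rf6h24.2.2.1.1
theorem rf6k204 : CfgOK (rf6c204.e, rf6c204.n) := red_ln rf6h24.2.1 rf6h24.2.1.1
theorem rf6k205 : CfgOK (rf6c205.e, rf6c205.n) := red_ln rf6h24.1 rf6h24.1.1
theorem rf6k206 : CfgOK (rf6c206.e, rf6c206.n) := red_ln rf6h28.1 ⟨rf6h28.1.1, rf6h29.1.1⟩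
theorem rf6k207 : CfgOK (rf6c207.e, rf6c207.n) := red_ln rf6h30.2.2.2.2.2.2.2.2.1 ⟨⟨rf6h30.2.2.2.2.2.2.2.2.1.1, rf6h25.2.2.2.2.2.2.2.2.2.1.1⟩, ⟨rf6h3.1.1, rf6h5.2.2.2.2.2.1.1⟩⟩
theorem rf6k208 : CfgOK (rf6c208.e, rf6c208.n) := red_ln rf6h30.2.2.2.2.2.2.2.1 ⟨⟨rf6h30.2.2.2.2.2.2.2.1.1, rf6h25.2.2.2.2.2.2.2.2.1.1⟩, ⟨rf6h2.2.2.2.2.2.2.2.2.2.2.2.2.2.2.2.2.2.2.2.2.2.2.2.2.2.2.2.2.2.1.1, rf6h5.2.2.2.1.1⟩⟩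
theorem rf6k209 : CfgOK (rf6c209.e, rf6c209.n) := red_ln rf6h30.2.2.2.2.2.2.1 ⟨⟨rf6h30.2.2.2.2.2.2.1.1, rf6h25.2.2.2.2.2.2.2.1.1⟩, ⟨rf6h2.2.2.2.2.2.2.2.2.2.2.2.2.2.2.2.2.2.2.2.2.2.2.2.2.2.2.1.1, rf6h5.2.2.2.2.1.1⟩⟩
theorem rf6k210 : CfgOK (rf6c210.e, rf6c210.n) := red_ln rf6h30.2.2.2.2.2.1 ⟨⟨rf6h30.2.2.2.2.2.1.1, rf6h25.2.2.2.2.2.2.1.1⟩, ⟨rf6h2.2.2.2.2.2.2.2.2.2.2.2.2.2.2.2.2.2.2.2.2.1.1, rf6h5.2.2.1.1⟩⟩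
theorem rf6k211 : CfgOK (rf6c211.e, rf6c211.n) := red_ln rf6h30.2.2.2.2.1 ⟨⟨rf6h30.2.2.2.2.1.1, rf6h25.2.2.2.2.2.1.1⟩, ⟨rf6h2.2.2.2.2.2.2.2.2.2.2.2.2.2.2.2.2.2.2.2.1.1, rf6h5.2.1.1⟩⟩
theorem rf6k212 : CfgOK (rf6c212.e, rf6c212.n) := red_ln rf6h30.2.2.2.1 ⟨⟨rf6h30.2.2.2.1.1, rf6h25.2.2.2.2.1.1⟩, ⟨rf6h2.2.2.2.2.2.2.2.2.2.2.2.1.1, rf6h5.1.1⟩⟩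
theorem rf6k213 : CfgOK (rf6c213.e, rf6c213.n) := red_ln rf6h30.2.2.1 rf6h30.2.2.1.1
theorem rf6k214 : CfgOK (rf6c214.e, rf6c214.n) := red_ln rf6h30.2.1 ⟨rf6h30.2.1.1, rf6h25.1.1⟩
theorem rf6k215 : CfgOK (rf6c215.e, rf6c215.n) := red_ln rf6h30.1 rf6h30.1.1
theorem rf6k216 : CfgOK (rf6c216.e, rf6c216.n) := red_ln rf6h31.2.2.2.2.2.2.2.2.1 ⟨⟨rf6h31.2.2.2.2.2.2.2.2.1.1, rf6h34.2.2.2.2.2.1.1⟩, ⟨rf6h34.2.2.2.2.1.1, rf6h2.2.2.2.2.2.2.2.2.2.2.2.2.2.2.2.2.2.2.2.2.2.2.2.2.2.1.1⟩⟩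
theorem rf6k217 : CfgOK (rf6c217.e, rf6c217.n) := red_ln rf6h31.2.2.2.2.2.2.2.1 ⟨⟨rf6h31.2.2.2.2.2.2.2.1.1, rf6h32.2.2.2.2.2.1.1⟩, ⟨rf6h34.2.2.2.1.1, rf6h2.2.2.2.2.2.2.2.2.2.2.1.1⟩⟩
theorem rf6k218 : CfgOK (rf6c218.e, rf6c218.n) := red_ln rf6h31.2.2.2.2.2.2.1 ⟨⟨rf6h31.2.2.2.2.2.2.1.1, rf6h32.2.2.2.2.1.1⟩, ⟨rf6h34.2.2.1.1, rf6h2.2.2.2.2.2.2.2.2.2.1.1⟩⟩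
theorem rf6k219 : CfgOK (rf6c219.e, rf6c219.n) := red_ln rf6h31.2.2.2.2.2.1 ⟨rf6h31.2.2.2.2.2.1.1, rf6h32.2.2.1.1⟩
theorem rf6k220 : CfgOK (rf6c220.e, rf6c220.n) := red_ln rf6h31.2.2.2.2.1 ⟨rf6h31.2.2.2.2.1.1, rf6h34.2.1.1⟩
theorem rf6k221 : CfgOK (rf6c221.e, rf6c221.n) := red_ln rf6h31.2.2.2.1 ⟨⟨rf6h31.2.2.2.1.1, rf6h34.1.1⟩, ⟨rf6h32.2.2.2.1.1, rf6h2.2.2.2.2.2.2.2.2.2.2.2.2.2.2.2.2.2.2.2.2.2.2.2.2.1.1⟩⟩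
theorem rf6k222 : CfgOK (rf6c222.e, rf6c222.n) := red_ln rf6h31.2.2.1 ⟨rf6h31.2.2.1.1, rf6h33.2.2.2.2.2.2.2.2.2.2.2.2.2.2.2.2.2.2.2.2.2.2.2.1.1⟩
theorem rf6k223 : CfgOK (rf6c223.e, rf6c223.n) := red_ln rf6h31.2.1 ⟨rf6h31.2.1.1, rf6h32.2.1.1⟩
theorem rf6k224 : CfgOK (rf6c224.e, rf6c224.n) := red_ln rf6h31.1 ⟨rf6h31.1.1, rf6h32.1.1⟩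

end Pool.Agent.Lib.G6.B
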