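import Pool.Agent.Lib.G6.BRed
import Pool.Agent.Lib.G6D.RF7

set_option autoImplicit false
set_option maxRecDepth 100000
set_option linter.all false

namespace Pool.Agent.Lib.G6.B

theorem rf7h0 : AllL LnOK rf7l0 := batch_of rf7th.1
theorem rf7h1 : AllL LnOK rf7l1 := batch_of rf7th.2.1
theorem rf7h2 : AllL LnOK rf7l10 := batch_of rf7th.2.2.2.2.2.2.2.2.2.2.1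
theorem rf7h3 : AllL LnOK rf7l11 := batch_of rf7th.2.2.2.2.2.2.2.2.2.2.2.1
theorem rf7h4 : AllL LnOK rf7l12 := batch_of rf7th.2.2.2.2.2.2.2.2.2.2.2.2.1
theorem rf7h5 : AllL LnOK rf7l13 := batch_of rf7th.2.2.2.2.2.2.2.2.2.2.2.2.2.1
theorem rf7h6 : AllL LnOK rf7l14 := batch_of rf7th.2.2.2.2.2.2.2.2.2.2.2.2.2.2.1
theorem rf7h7 : AllL LnOK rf7l15 := batch_of rf7th.2.2.2.2.2.2.2.2.2.2.2.2.2.2.2.1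
theorem rf7h8 : AllL LnOK rf7l16 := batch_of rf7th.2.2.2.2.2.2.2.2.2.2.2.2.2.2.2.2.1
theorem rf7h9 : AllL LnOK rf7l17 := batch_of rf7th.2.2.2.2.2.2.2.2.2.2.2.2.2.2.2.2.2.1
theorem rf7h10 : AllL LnOK rf7l18 := batch_of rf7th.2.2.2.2.2.2.2.2.2.2.2.2.2.2.2.2.2.2.1
theorem rf7h11 : AllL LnOK rf7l19 := batch_of rf7th.2.2.2.2.2.2.2.2.2.2.2.2.2.2.2.2.2.2.2.1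
theorem rf7h12 : AllL LnOK rf7l2 := batch_of rf7th.2.2.1
theorem rf7h13 : AllL LnOK rf7l20 := batch_of rf7th.2.2.2.2.2.2.2.2.2.2.2.2.2.2.2.2.2.2.2.2.1
theorem rf7h14 : AllL LnOK rf7l21 := batch_of rf7th.2.2.2.2.2.2.2.2.2.2.2.2.2.2.2.2.2.2.2.2.2.1
theorem rf7h15 : AllL LnOK rf7l22 := batch_of rf7th.2.2.2.2.2.2.2.2.2.2.2.2.2.2.2.2.2.2.2.2.2.2.1
theorem rf7h16 : AllL LnOK rf7l23 := batch_of rf7th.2.2.2.2.2.2.2.2.2.2.2.2.2.2.2.2.2.2.2.2.2.2.2.1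
theorem rf7h17 : AllL LnOK rf7l24 := batch_of rf7th.2.2.2.2.2.2.2.2.2.2.2.2.2.2.2.2.2.2.2.2.2.2.2.2.1
theorem rf7h18 : AllL LnOK rf7l25 := batch_of rf7th.2.2.2.2.2.2.2.2.2.2.2.2.2.2.2.2.2.2.2.2.2.2.2.2.2.1
theorem rf7h19 : AllL LnOK rf7l26 := batch_of rf7th.2.2.2.2.2.2.2.2.2.2.2.2.2.2.2.2.2.2.2.2.2.2.2.2.2.2
theorem rf7h20 : AllL LnOK rf7l3 := batch_of rf7th.2.2.2.1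
theorem rf7h21 : AllL LnOK rf7l4 := batch_of rf7th.2.2.2.2.1
theorem rf7h22 : AllL LnOK rf7l5 := batch_of rf7th.2.2.2.2.2.1
theorem rf7h23 : AllL LnOK rf7l6 := batch_of rf7th.2.2.2.2.2.2.1
theorem rf7h24 : AllL LnOK rf7l7 := batch_of rf7th.2.2.2.2.2.2.2.1
theorem rf7h25 : AllL LnOK rf7l8 := batch_of rf7th.2.2.2.2.2.2.2.2.1
theorem rf7h26 : AllL LnOK rf7l9 := batch_of rf7th.2.2.2.2.2.2.2.2.2.1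
theorem rf7k0 : CfgOK (rf7c0.e, rf7c0.n) := red_ln rf7h8.2.1 ⟨rf7h8.2.1.1, rf7h9.2.2.2.2.2.2.2.2.2.2.1.1⟩
theorem rf7k1 : CfgOK (rf7c1.e, rf7c1.n) := red_ln rf7h8.1 rf7h8.1.1
theorem rf7k2 : CfgOK (rf7c2.e, rf7c2.n) := red_ln rf7h7.2.2.2.2.2.2.2.2.2.2.2.2.2.2.1 rf7h7.2.2.2.2.2.2.2.2.2.2.2.2.2.2.1.1
theorem rf7k3 : CfgOK (rf7c3.e, rf7c3.n) := red_ln rf7h7.2.2.2.2.2.2.2.2.2.2.2.2.2.1 rf7h7.2.2.2.2.2.2.2.2.2.2.2.2.2.1.1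
theorem rf7k4 : CfgOK (rf7c4.e, rf7c4.n) := red_ln rf7h7.2.2.2.2.2.2.2.2.2.2.2.2.1 rf7h7.2.2.2.2.2.2.2.2.2.2.2.2.1.1
theorem rf7k5 : CfgOK (rf7c5.e, rf7c5.n) := red_ln rf7h7.2.2.2.2.2.2.2.2.2.2.2.1 rf7h7.2.2.2.2.2.2.2.2.2.2.2.1.1
theorem rf7k6 : CfgOK (rf7c6.e, rf7c6.n) := red_ln rf7h7.2.2.2.2.2.2.2.2.2.2.1 rf7h7.2.2.2.2.2.2.2.2.2.2.1.1
theorem rf7k7 : CfgOK (rf7c7.e, rf7c7.n) := red_ln rf7h7.2.2.2.2.2.2.2.2.2.1 rf7h7.2.2.2.2.2.2.2.2.2.1.1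
theorem rf7k8 : CfgOK (rf7c8.e, rf7c8.n) := red_ln rf7h7.2.2.2.2.2.2.2.2.1 rf7h7.2.2.2.2.2.2.2.2.1.1
theorem rf7k9 : CfgOK (rf7c9.e, rf7c9.n) := red_ln rf7h7.2.2.2.2.2.2.2.1 rf7h7.2.2.2.2.2.2.2.1.1
theorem rf7k10 : CfgOK (rf7c10.e, rf7c10.n) := red_ln rf7h7.2.2.2.2.2.2.1 rf7h7.2.2.2.2.2.2.1.1
theorem rf7k11 : CfgOK (rf7c11.e, rf7c11.n) := red_ln rf7h7.2.2.2.2.2.1 ⟨rf7h7.2.2.2.2.2.1.1, rf7h14.2.2.2.2.2.2.2.2.2.2.2.2.2.2.2.2.2.2.2.2.2.2.2.2.2.2.2.2.2.2.2.2.1.1⟩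
theorem rf7k12 : CfgOK (rf7c12.e, rf7c12.n) := red_ln rf7h7.2.2.2.2.1 ⟨rf7h7.2.2.2.2.1.1, rf7h14.2.2.2.2.2.2.2.2.2.2.2.2.2.2.2.2.2.2.2.2.2.2.2.2.2.2.2.2.2.2.2.1.1⟩
theorem rf7k13 : CfgOK (rf7c13.e, rf7c13.n) := red_ln rf7h7.2.2.2.1 ⟨⟨rf7h7.2.2.2.1.1, rf7h14.2.2.2.2.2.2.2.2.2.2.2.2.2.2.2.2.2.2.2.2.2.2.2.2.2.2.2.2.2.2.1.1⟩, ⟨rf7h10.2.2.2.2.2.2.2.2.2.2.2.2.2.2.2.2.2.1.1, rf7h15.2.2.2.2.2.2.2.2.2.2.2.2.2.2.2.2.2.2.2.2.1.1⟩⟩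
theorem rf7k14 : CfgOK (rf7c14.e, rf7c14.n) := red_ln rf7h7.2.2.1 ⟨rf7h7.2.2.1.1, rf7h17.2.2.2.2.2.2.2.2.2.2.2.1.1⟩
theorem rf7k15 : CfgOK (rf7c15.e, rf7c15.n) := red_ln rf7h7.2.1 ⟨rf7h7.2.1.1, rf7h17.2.2.2.2.2.2.2.2.2.2.1.1⟩
theorem rf7k16 : CfgOK (rf7c16.e, rf7c16.n) := red_ln rf7h7.1 ⟨rf7h7.1.1, rf7h11.2.2.1.1⟩
theorem rf7k17 : CfgOK (rf7c17.e, rf7c17.n) := red_ln rf7h6.2.2.2.2.2.2.2.2.2.2.2.2.2.2.1 ⟨rf7h6.2.2.2.2.2.2.2.2.2.2.2.2.2.2.1.1, rf7h11.2.1.1⟩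
theorem rf7k18 : CfgOK (rf7c18.e, rf7c18.n) := red_ln rf7h6.2.2.2.2.2.2.2.2.2.2.2.2.2.1 ⟨rf7h6.2.2.2.2.2.2.2.2.2.2.2.2.2.1.1, rf7h11.1.1⟩
theorem rf7k19 : CfgOK (rf7c19.e, rf7c19.n) := red_ln rf7h6.2.2.2.2.2.2.2.2.2.2.2.2.1 ⟨rf7h6.2.2.2.2.2.2.2.2.2.2.2.2.1.1, rf7h10.2.2.2.2.2.2.2.2.2.2.2.2.2.2.2.2.2.2.2.2.2.2.2.1.1⟩
theorem rf7k20 : CfgOK (rf7c20.e, rf7c20.n) := red_ln rf7h6.2.2.2.2.2.2.2.2.2.2.2.1 ⟨rf7h6.2.2.2.2.2.2.2.2.2.2.2.1.1, rf7h10.2.2.2.2.2.2.2.2.2.2.2.2.2.2.2.2.2.2.2.2.2.2.1.1⟩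
theorem rf7k21 : CfgOK (rf7c21.e, rf7c21.n) := red_ln rf7h6.2.2.2.2.2.2.2.2.2.2.1 ⟨rf7h6.2.2.2.2.2.2.2.2.2.2.1.1, rf7h10.2.2.2.2.2.2.2.2.2.2.2.2.2.2.2.2.2.2.2.2.2.1.1⟩
theorem rf7k22 : CfgOK (rf7c22.e, rf7c22.n) := red_ln rf7h6.2.2.2.2.2.2.2.2.2.1 ⟨rf7h6.2.2.2.2.2.2.2.2.2.1.1, rf7h17.2.2.2.2.2.2.2.2.2.1.1⟩
theorem rf7k23 : CfgOK (rf7c23.e, rf7c23.n) := red_ln rf7h6.2.2.2.2.2.2.2.2.1 ⟨⟨rf7h6.2.2.2.2.2.2.2.2.1.1, rf7h17.2.2.2.2.2.2.2.2.1.1⟩, ⟨rf7h14.2.2.2.2.2.2.2.2.2.2.2.2.2.2.2.2.2.2.2.2.2.2.2.2.2.2.2.2.2.1.1, rf7h15.2.2.2.2.2.2.2.2.2.2.2.2.2.2.2.2.2.2.2.1.1⟩⟩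
theorem rf7k24 : CfgOK (rf7c24.e, rf7c24.n) := red_ln rf7h6.2.2.2.2.2.2.2.1 ⟨⟨rf7h6.2.2.2.2.2.2.2.1.1, rf7h10.2.2.2.2.2.2.2.2.2.2.2.2.2.2.2.2.2.2.2.2.1.1⟩, ⟨rf7h14.2.2.2.2.2.2.2.2.2.2.2.2.2.2.2.2.2.2.2.2.2.2.2.2.2.2.2.2.1.1, rf7h15.2.2.2.2.2.2.2.2.2.2.2.2.2.2.2.2.2.2.1.1⟩⟩
theorem rf7k25 : CfgOK (rf7c25.e, rf7c25.n) := red_ln rf7h6.2.2.2.2.2.2.1 ⟨rf7h6.2.2.2.2.2.2.1.1, rf7h10.2.2.2.2.2.2.2.2.2.2.2.2.2.2.2.2.1.1⟩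
theorem rf7k26 : CfgOK (rf7c26.e, rf7c26.n) := red_ln rf7h6.2.2.2.2.2.1 ⟨rf7h6.2.2.2.2.2.1.1, rf7h17.2.2.2.2.2.2.2.1.1⟩
theorem rf7k27 : CfgOK (rf7c27.e, rf7c27.n) := red_ln rf7h6.2.2.2.2.1 ⟨rf7h6.2.2.2.2.1.1, rf7h10.2.2.2.2.2.2.2.2.2.2.2.2.2.2.2.1.1⟩
theorem rf7k28 : CfgOK (rf7c28.e, rf7c28.n) := red_ln rf7h6.2.2.2.1 ⟨rf7h6.2.2.2.1.1, rf7h10.2.2.2.2.2.2.2.2.2.2.2.2.2.2.1.1⟩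
theorem rf7k29 : CfgOK (rf7c29.e, rf7c29.n) := red_ln rf7h6.2.2.1 ⟨rf7h6.2.2.1.1, rf7h10.2.2.2.2.2.2.2.2.2.2.2.2.2.1.1⟩
theorem rf7k30 : CfgOK (rf7c30.e, rf7c30.n) := red_ln rf7h6.2.1 ⟨⟨rf7h6.2.1.1, rf7h10.2.2.2.2.2.2.2.2.2.2.2.2.1.1⟩, ⟨rf7h14.2.2.2.2.2.2.2.2.2.2.2.2.2.2.2.2.2.2.2.2.2.2.2.2.2.2.2.1.1, rf7h15.2.2.2.2.2.2.2.2.2.2.2.2.2.2.2.2.2.1.1⟩⟩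
theorem rf7k31 : CfgOK (rf7c31.e, rf7c31.n) := red_ln rf7h6.1 ⟨⟨rf7h6.1.1, rf7h17.2.2.2.2.2.2.1.1⟩, ⟨rf7h10.2.2.2.2.2.2.2.2.2.2.2.1.1, rf7h18.2.2.2.2.2.2.2.2.1.1⟩⟩
theorem rf7k32 : CfgOK (rf7c32.e, rf7c32.n) := red_ln rf7h5.2.2.2.2.2.2.2.2.2.2.2.2.2.2.1 ⟨⟨rf7h5.2.2.2.2.2.2.2.2.2.2.2.2.2.2.1.1, rf7h10.2.2.2.2.2.2.2.2.2.2.1.1⟩, ⟨rf7h10.2.2.2.2.2.2.2.2.2.1.1, rf7h18.2.2.2.2.2.2.2.1.1⟩⟩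
theorem rf7k33 : CfgOK (rf7c33.e, rf7c33.n) := red_ln rf7h5.2.2.2.2.2.2.2.2.2.2.2.2.2.1 ⟨rf7h5.2.2.2.2.2.2.2.2.2.2.2.2.2.1.1, rf7h9.2.2.2.2.2.2.2.2.2.2.2.2.2.2.2.2.2.2.2.2.2.2.2.1.1⟩
theorem rf7k34 : CfgOK (rf7c34.e, rf7c34.n) := red_ln rf7h5.2.2.2.2.2.2.2.2.2.2.2.2.1 ⟨rf7h5.2.2.2.2.2.2.2.2.2.2.2.2.1.1, rf7h9.2.2.2.2.2.2.2.2.2.2.2.2.2.2.2.2.2.2.2.2.2.2.1.1⟩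
theorem rf7k35 : CfgOK (rf7c35.e, rf7c35.n) := red_ln rf7h5.2.2.2.2.2.2.2.2.2.2.2.1 rf7h5.2.2.2.2.2.2.2.2.2.2.2.1.1
theorem rf7k36 : CfgOK (rf7c36.e, rf7c36.n) := red_ln rf7h5.2.2.2.2.2.2.2.2.2.2.1 rf7h5.2.2.2.2.2.2.2.2.2.2.1.1
theorem rf7k37 : CfgOK (rf7c37.e, rf7c37.n) := red_ln rf7h5.2.2.2.2.2.2.2.2.2.1 rf7h5.2.2.2.2.2.2.2.2.2.1.1
theorem rf7k38 : CfgOK (rf7c38.e, rf7c38.n) := red_ln rf7h5.2.2.2.2.2.2.2.2.1 rf7h5.2.2.2.2.2.2.2.2.1.1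
theorem rf7k39 : CfgOK (rf7c39.e, rf7c39.n) := red_ln rf7h5.2.2.2.2.2.2.2.1 rf7h5.2.2.2.2.2.2.2.1.1
theorem rf7k40 : CfgOK (rf7c40.e, rf7c40.n) := red_ln rf7h5.2.2.2.2.2.2.1 rf7h5.2.2.2.2.2.2.1.1
theorem rf7k41 : CfgOK (rf7c41.e, rf7c41.n) := red_ln rf7h5.2.2.2.2.2.1 rf7h5.2.2.2.2.2.1.1
theorem rf7k42 : CfgOK (rf7c42.e, rf7c42.n) := red_ln rf7h5.2.2.2.2.1 rf7h5.2.2.2.2.1.1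
theorem rf7k43 : CfgOK (rf7c43.e, rf7c43.n) := red_ln rf7h5.2.2.2.1 rf7h5.2.2.2.1.1
theorem rf7k44 : CfgOK (rf7c44.e, rf7c44.n) := red_ln rf7h5.2.2.1 rf7h5.2.2.1.1
theorem rf7k45 : CfgOK (rf7c45.e, rf7c45.n) := red_ln rf7h5.2.1 rf7h5.2.1.1
theorem rf7k46 : CfgOK (rf7c46.e, rf7c46.n) := red_ln rf7h5.1 rf7h5.1.1
theorem rf7k47 : CfgOK (rf7c47.e, rf7c47.n) := red_ln rf7h4.2.2.2.2.2.2.2.2.2.2.2.2.2.2.1 rf7h4.2.2.2.2.2.2.2.2.2.2.2.2.2.2.1.1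
theorem rf7k48 : CfgOK (rf7c48.e, rf7c48.n) := red_ln rf7h4.2.2.2.2.2.2.2.2.2.2.2.2.2.1 rf7h4.2.2.2.2.2.2.2.2.2.2.2.2.2.1.1
theorem rf7k49 : CfgOK (rf7c49.e, rf7c49.n) := red_ln rf7h4.2.2.2.2.2.2.2.2.2.2.2.2.1 rf7h4.2.2.2.2.2.2.2.2.2.2.2.2.1.1
theorem rf7k50 : CfgOK (rf7c50.e, rf7c50.n) := red_ln rf7h4.2.2.2.2.2.2.2.2.2.2.2.1 rf7h4.2.2.2.2.2.2.2.2.2.2.2.1.1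
theorem rf7k51 : CfgOK (rf7c51.e, rf7c51.n) := red_ln rf7h4.2.2.2.2.2.2.2.2.2.2.1 rf7h4.2.2.2.2.2.2.2.2.2.2.1.1
theorem rf7k52 : CfgOK (rf7c52.e, rf7c52.n) := red_ln rf7h4.2.2.2.2.2.2.2.2.2.1 rf7h4.2.2.2.2.2.2.2.2.2.1.1
theorem rf7k53 : CfgOK (rf7c53.e, rf7c53.n) := red_ln rf7h4.2.2.2.2.2.2.2.2.1 rf7h4.2.2.2.2.2.2.2.2.1.1
theorem rf7k54 : CfgOK (rf7c54.e, rf7c54.n) := red_ln rf7h4.2.2.2.2.2.2.2.1 rf7h4.2.2.2.2.2.2.2.1.1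
theorem rf7k55 : CfgOK (rf7c55.e, rf7c55.n) := red_ln rf7h4.2.2.2.2.2.2.1 rf7h4.2.2.2.2.2.2.1.1
theorem rf7k56 : CfgOK (rf7c56.e, rf7c56.n) := red_ln rf7h4.2.2.2.2.2.1 rf7h4.2.2.2.2.2.1.1
theorem rf7k57 : CfgOK (rf7c57.e, rf7c57.n) := red_ln rf7h4.2.2.2.2.1 rf7h4.2.2.2.2.1.1
theorem rf7k58 : CfgOK (rf7c58.e, rf7c58.n) := red_ln rf7h4.2.2.2.1 rf7h4.2.2.2.1.1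
theorem rf7k59 : CfgOK (rf7c59.e, rf7c59.n) := red_ln rf7h4.2.2.1 rf7h4.2.2.1.1
theorem rf7k60 : CfgOK (rf7c60.e, rf7c60.n) := red_ln rf7h4.2.1 rf7h4.2.1.1
theorem rf7k61 : CfgOK (rf7c61.e, rf7c61.n) := red_ln rf7h4.1 rf7h4.1.1
theorem rf7k62 : CfgOK (rf7c62.e, rf7c62.n) := red_ln rf7h3.2.2.2.2.2.2.2.2.2.2.2.2.2.2.1 rf7h3.2.2.2.2.2.2.2.2.2.2.2.2.2.2.1.1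
theorem rf7k63 : CfgOK (rf7c63.e, rf7c63.n) := red_ln rf7h3.2.2.2.2.2.2.2.2.2.2.2.2.2.1 rf7h3.2.2.2.2.2.2.2.2.2.2.2.2.2.1.1
theorem rf7k64 : CfgOK (rf7c64.e, rf7c64.n) := red_ln rf7h3.2.2.2.2.2.2.2.2.2.2.2.2.1 rf7h3.2.2.2.2.2.2.2.2.2.2.2.2.1.1
theorem rf7k65 : CfgOK (rf7c65.e, rf7c65.n) := red_ln rf7h3.2.2.2.2.2.2.2.2.2.2.2.1 rf7h3.2.2.2.2.2.2.2.2.2.2.2.1.1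
theorem rf7k66 : CfgOK (rf7c66.e, rf7c66.n) := red_ln rf7h3.2.2.2.2.2.2.2.2.2.2.1 rf7h3.2.2.2.2.2.2.2.2.2.2.1.1
theorem rf7k67 : CfgOK (rf7c67.e, rf7c67.n) := red_ln rf7h3.2.2.2.2.2.2.2.2.2.1 rf7h3.2.2.2.2.2.2.2.2.2.1.1
theorem rf7k68 : CfgOK (rf7c68.e, rf7c68.n) := red_ln rf7h3.2.2.2.2.2.2.2.2.1 rf7h3.2.2.2.2.2.2.2.2.1.1
theorem rf7k69 : CfgOK (rf7c69.e, rf7c69.n) := red_ln rf7h3.2.2.2.2.2.2.2.1 rf7h3.2.2.2.2.2.2.2.1.1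
theorem rf7k70 : CfgOK (rf7c70.e, rf7c70.n) := red_ln rf7h3.2.2.2.2.2.2.1 rf7h3.2.2.2.2.2.2.1.1
theorem rf7k71 : CfgOK (rf7c71.e, rf7c71.n) := red_ln rf7h3.2.2.2.2.2.1 rf7h3.2.2.2.2.2.1.1
theorem rf7k72 : CfgOK (rf7c72.e, rf7c72.n) := red_ln rf7h3.2.2.2.2.1 rf7h3.2.2.2.2.1.1
theorem rf7k73 : CfgOK (rf7c73.e, rf7c73.n) := red_ln rf7h3.2.2.2.1 rf7h3.2.2.2.1.1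
theorem rf7k74 : CfgOK (rf7c74.e, rf7c74.n) := red_ln rf7h3.2.2.1 rf7h3.2.2.1.1
theorem rf7k75 : CfgOK (rf7c75.e, rf7c75.n) := red_ln rf7h3.2.1 rf7h3.2.1.1
theorem rf7k76 : CfgOK (rf7c76.e, rf7c76.n) := red_ln rf7h3.1 rf7h3.1.1
theorem rf7k77 : CfgOK (rf7c77.e, rf7c77.n) := red_ln rf7h2.2.2.2.2.2.2.2.2.2.2.2.2.2.2.1 rf7h2.2.2.2.2.2.2.2.2.2.2.2.2.2.2.1.1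
theorem rf7k78 : CfgOK (rf7c78.e, rf7c78.n) := red_ln rf7h2.2.2.2.2.2.2.2.2.2.2.2.2.2.1 rf7h2.2.2.2.2.2.2.2.2.2.2.2.2.2.1.1
theorem rf7k79 : CfgOK (rf7c79.e, rf7c79.n) := red_ln rf7h2.2.2.2.2.2.2.2.2.2.2.2.2.1 rf7h2.2.2.2.2.2.2.2.2.2.2.2.2.1.1
theorem rf7k80 : CfgOK (rf7c80.e, rf7c80.n) := red_ln rf7h2.2.2.2.2.2.2.2.2.2.2.2.1 rf7h2.2.2.2.2.2.2.2.2.2.2.2.1.1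
theorem rf7k81 : CfgOK (rf7c81.e, rf7c81.n) := red_ln rf7h2.2.2.2.2.2.2.2.2.2.2.1 rf7h2.2.2.2.2.2.2.2.2.2.2.1.1
theorem rf7k82 : CfgOK (rf7c82.e, rf7c82.n) := red_ln rf7h2.2.2.2.2.2.2.2.2.2.1 rf7h2.2.2.2.2.2.2.2.2.2.1.1
theorem rf7k83 : CfgOK (rf7c83.e, rf7c83.n) := red_ln rf7h2.2.2.2.2.2.2.2.2.1 rf7h2.2.2.2.2.2.2.2.2.1.1
theorem rf7k84 : CfgOK (rf7c84.e, rf7c84.n) := red_ln rf7h2.2.2.2.2.2.2.2.1 rf7h2.2.2.2.2.2.2.2.1.1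
theorem rf7k85 : CfgOK (rf7c85.e, rf7c85.n) := red_ln rf7h2.2.2.2.2.2.2.1 rf7h2.2.2.2.2.2.2.1.1
theorem rf7k86 : CfgOK (rf7c86.e, rf7c86.n) := red_ln rf7h2.2.2.2.2.2.1 rf7h2.2.2.2.2.2.1.1
theorem rf7k87 : CfgOK (rf7c87.e, rf7c87.n) := red_ln rf7h2.2.2.2.2.1 rf7h2.2.2.2.2.1.1
theorem rf7k88 : CfgOK (rf7c88.e, rf7c88.n) := red_ln rf7h2.2.2.2.1 rf7h2.2.2.2.1.1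
theorem rf7k89 : CfgOK (rf7c89.e, rf7c89.n) := red_ln rf7h2.2.2.1 ⟨rf7h2.2.2.1.1, rf7h14.2.2.2.2.2.2.2.2.2.2.2.2.2.2.2.2.2.2.2.2.2.2.2.2.2.2.1.1⟩
theorem rf7k90 : CfgOK (rf7c90.e, rf7c90.n) := red_ln rf7h2.2.1 ⟨rf7h2.2.1.1, rf7h14.2.2.2.2.2.2.2.2.2.2.2.2.2.2.2.2.2.2.2.2.2.2.2.2.2.1.1⟩
theorem rf7k91 : CfgOK (rf7c91.e, rf7c91.n) := red_ln rf7h2.1 ⟨rf7h2.1.1, rf7h14.2.2.2.2.2.2.2.2.2.2.2.2.2.2.2.2.2.2.2.2.2.2.2.2.1.1⟩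
theorem rf7k92 : CfgOK (rf7c92.e, rf7c92.n) := red_ln rf7h26.2.2.2.2.2.2.2.2.2.2.2.2.2.2.1 ⟨rf7h26.2.2.2.2.2.2.2.2.2.2.2.2.2.2.1.1, rf7h14.2.2.2.2.2.2.2.2.2.2.2.2.2.2.2.2.2.2.2.2.2.2.2.1.1⟩
theorem rf7k93 : CfgOK (rf7c93.e, rf7c93.n) := red_ln rf7h26.2.2.2.2.2.2.2.2.2.2.2.2.2.1 ⟨rf7h26.2.2.2.2.2.2.2.2.2.2.2.2.2.1.1, rf7h14.2.2.2.2.2.2.2.2.2.2.2.2.2.2.2.2.2.2.2.2.2.2.1.1⟩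
theorem rf7k94 : CfgOK (rf7c94.e, rf7c94.n) := red_ln rf7h26.2.2.2.2.2.2.2.2.2.2.2.2.1 ⟨rf7h26.2.2.2.2.2.2.2.2.2.2.2.2.1.1, rf7h14.2.2.2.2.2.2.2.2.2.2.2.2.2.2.2.2.2.2.2.2.2.1.1⟩
theorem rf7k95 : CfgOK (rf7c95.e, rf7c95.n) := red_ln rf7h26.2.2.2.2.2.2.2.2.2.2.2.1 ⟨rf7h26.2.2.2.2.2.2.2.2.2.2.2.1.1, rf7h14.2.2.2.2.2.2.2.2.2.2.2.2.2.2.2.2.2.2.2.2.1.1⟩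
theorem rf7k96 : CfgOK (rf7c96.e, rf7c96.n) := red_ln rf7h26.2.2.2.2.2.2.2.2.2.2.1 ⟨rf7h26.2.2.2.2.2.2.2.2.2.2.1.1, rf7h14.2.2.2.2.2.2.2.2.2.2.2.2.2.2.2.2.2.2.2.1.1⟩
theorem rf7k97 : CfgOK (rf7c97.e, rf7c97.n) := red_ln rf7h26.2.2.2.2.2.2.2.2.2.1 ⟨rf7h26.2.2.2.2.2.2.2.2.2.1.1, rf7h14.2.2.2.2.2.2.2.2.2.2.2.2.2.2.2.2.2.2.1.1⟩
theorem rf7k98 : CfgOK (rf7c98.e, rf7c98.n) := red_ln rf7h26.2.2.2.2.2.2.2.2.1 ⟨rf7h26.2.2.2.2.2.2.2.2.1.1, rf7h14.2.2.2.2.2.2.2.2.2.2.2.2.2.2.2.2.2.1.1⟩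
theorem rf7k99 : CfgOK (rf7c99.e, rf7c99.n) := red_ln rf7h26.2.2.2.2.2.2.2.1 ⟨rf7h26.2.2.2.2.2.2.2.1.1, rf7h14.2.2.2.2.2.2.2.2.2.2.2.2.2.2.2.2.1.1⟩
theorem rf7k100 : CfgOK (rf7c100.e, rf7c100.n) := red_ln rf7h26.2.2.2.2.2.2.1 ⟨rf7h26.2.2.2.2.2.2.1.1, rf7h14.2.2.2.2.2.2.2.2.2.2.2.2.2.2.2.1.1⟩
theorem rf7k101 : CfgOK (rf7c101.e, rf7c101.n) := red_ln rf7h26.2.2.2.2.2.1 ⟨rf7h26.2.2.2.2.2.1.1, rf7h14.2.2.2.2.2.2.2.2.2.2.2.2.2.2.1.1⟩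
theorem rf7k102 : CfgOK (rf7c102.e, rf7c102.n) := red_ln rf7h26.2.2.2.2.1 ⟨rf7h26.2.2.2.2.1.1, rf7h14.2.2.2.2.2.2.2.2.2.2.2.2.2.1.1⟩
theorem rf7k103 : CfgOK (rf7c103.e, rf7c103.n) := red_ln rf7h26.2.2.2.1 ⟨rf7h26.2.2.2.1.1, rf7h14.2.2.2.2.2.2.2.2.2.2.2.2.1.1⟩
theorem rf7k104 : CfgOK (rf7c104.e, rf7c104.n) := red_ln rf7h26.2.2.1 ⟨rf7h26.2.2.1.1, rf7h14.2.2.2.2.2.2.2.2.2.2.2.1.1⟩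
theorem rf7k105 : CfgOK (rf7c105.e, rf7c105.n) := red_ln rf7h26.2.1 ⟨⟨rf7h26.2.1.1, rf7h14.2.2.2.2.2.2.2.2.2.2.1.1⟩, ⟨rf7h17.2.2.2.2.2.1.1, rf7h15.2.2.2.2.2.2.2.2.2.2.2.2.2.2.2.2.1.1⟩⟩
theorem rf7k106 : CfgOK (rf7c106.e, rf7c106.n) := red_ln rf7h26.1 ⟨⟨rf7h26.1.1, rf7h14.2.2.2.2.2.2.2.2.2.1.1⟩, ⟨rf7h10.2.2.2.2.2.2.2.2.1.1, rf7h15.2.2.2.2.2.2.2.2.2.2.2.2.2.2.2.1.1⟩⟩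
theorem rf7k107 : CfgOK (rf7c107.e, rf7c107.n) := red_ln rf7h25.2.2.2.2.2.2.2.2.2.2.2.2.2.2.1 ⟨⟨rf7h25.2.2.2.2.2.2.2.2.2.2.2.2.2.2.1.1, rf7h14.2.2.2.2.2.2.2.2.1.1⟩, ⟨rf7h16.2.2.2.2.2.2.2.2.2.2.2.2.2.2.2.2.2.2.1.1, rf7h15.2.2.2.2.2.2.2.2.2.2.2.2.2.2.1.1⟩⟩
theorem rf7k108 : CfgOK (rf7c108.e, rf7c108.n) := red_ln rf7h25.2.2.2.2.2.2.2.2.2.2.2.2.2.1 ⟨⟨rf7h25.2.2.2.2.2.2.2.2.2.2.2.2.2.1.1, rf7h14.2.2.2.2.2.2.2.1.1⟩, ⟨rf7h9.2.2.2.2.2.2.2.2.2.2.2.2.2.2.2.2.2.2.2.2.2.1.1, rf7h15.2.2.2.2.2.2.2.2.2.2.2.2.2.1.1⟩⟩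
theorem rf7k109 : CfgOK (rf7c109.e, rf7c109.n) := red_ln rf7h25.2.2.2.2.2.2.2.2.2.2.2.2.1 ⟨⟨rf7h25.2.2.2.2.2.2.2.2.2.2.2.2.1.1, rf7h14.2.2.2.2.2.2.1.1⟩, ⟨rf7h9.2.2.2.2.2.2.2.2.2.2.2.2.2.2.2.2.2.2.2.2.1.1, rf7h15.2.2.2.2.2.2.2.2.2.2.2.2.1.1⟩⟩
theorem rf7k110 : CfgOK (rf7c110.e, rf7c110.n) := red_ln rf7h25.2.2.2.2.2.2.2.2.2.2.2.1 ⟨rf7h25.2.2.2.2.2.2.2.2.2.2.2.1.1, rf7h17.2.2.2.2.1.1⟩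
theorem rf7k111 : CfgOK (rf7c111.e, rf7c111.n) := red_ln rf7h25.2.2.2.2.2.2.2.2.2.2.1 ⟨rf7h25.2.2.2.2.2.2.2.2.2.2.1.1, rf7h10.2.2.2.2.2.2.2.1.1⟩
theorem rf7k112 : CfgOK (rf7c112.e, rf7c112.n) := red_ln rf7h25.2.2.2.2.2.2.2.2.2.1 ⟨rf7h25.2.2.2.2.2.2.2.2.2.1.1, rf7h10.2.2.2.2.2.2.1.1⟩
theorem rf7k113 : CfgOK (rf7c113.e, rf7c113.n) := red_ln rf7h25.2.2.2.2.2.2.2.2.1 ⟨rf7h25.2.2.2.2.2.2.2.2.1.1, rf7h10.2.2.2.2.2.1.1⟩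
theorem rf7k114 : CfgOK (rf7c114.e, rf7c114.n) := red_ln rf7h25.2.2.2.2.2.2.2.1 ⟨rf7h25.2.2.2.2.2.2.2.1.1, rf7h17.2.2.2.1.1⟩
theorem rf7k115 : CfgOK (rf7c115.e, rf7c115.n) := red_ln rf7h25.2.2.2.2.2.2.1 ⟨rf7h25.2.2.2.2.2.2.1.1, rf7h17.2.2.1.1⟩
theorem rf7k116 : CfgOK (rf7c116.e, rf7c116.n) := red_ln rf7h25.2.2.2.2.2.1 ⟨rf7h25.2.2.2.2.2.1.1, rf7h17.2.1.1⟩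
theorem rf7k117 : CfgOK (rf7c117.e, rf7c117.n) := red_ln rf7h25.2.2.2.2.1 ⟨rf7h25.2.2.2.2.1.1, rf7h10.2.2.2.2.1.1⟩
theorem rf7k118 : CfgOK (rf7c118.e, rf7c118.n) := red_ln rf7h25.2.2.2.1 ⟨rf7h25.2.2.2.1.1, rf7h10.2.2.2.1.1⟩
theorem rf7k119 : CfgOK (rf7c119.e, rf7c119.n) := red_ln rf7h25.2.2.1 ⟨rf7h25.2.2.1.1, rf7h17.1.1⟩
theorem rf7k120 : CfgOK (rf7c120.e, rf7c120.n) := red_ln rf7h25.2.1 ⟨rf7h25.2.1.1, rf7h10.2.2.1.1⟩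
theorem rf7k121 : CfgOK (rf7c121.e, rf7c121.n) := red_ln rf7h25.1 ⟨⟨rf7h25.1.1, rf7h16.2.2.2.2.2.2.2.2.2.2.2.2.2.2.2.2.2.2.2.2.2.2.2.1.1⟩, ⟨rf7h14.2.2.2.2.2.1.1, rf7h15.2.2.2.2.2.2.2.2.2.2.2.1.1⟩⟩
theorem rf7k122 : CfgOK (rf7c122.e, rf7c122.n) := red_ln rf7h24.2.2.2.2.2.2.2.2.2.2.2.2.2.2.1 ⟨rf7h24.2.2.2.2.2.2.2.2.2.2.2.2.2.2.1.1, rf7h16.2.2.2.2.2.2.2.2.2.2.2.2.2.2.2.2.2.1.1⟩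
theorem rf7k123 : CfgOK (rf7c123.e, rf7c123.n) := red_ln rf7h24.2.2.2.2.2.2.2.2.2.2.2.2.2.1 ⟨rf7h24.2.2.2.2.2.2.2.2.2.2.2.2.2.1.1, rf7h9.2.2.2.2.2.2.2.2.2.2.2.2.2.2.2.2.2.2.2.1.1⟩
theorem rf7k124 : CfgOK (rf7c124.e, rf7c124.n) := red_ln rf7h24.2.2.2.2.2.2.2.2.2.2.2.2.1 ⟨rf7h24.2.2.2.2.2.2.2.2.2.2.2.2.1.1, rf7h9.2.2.2.2.2.2.2.2.2.2.2.2.2.2.2.2.2.2.1.1⟩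
theorem rf7k125 : CfgOK (rf7c125.e, rf7c125.n) := red_ln rf7h24.2.2.2.2.2.2.2.2.2.2.2.1 ⟨rf7h24.2.2.2.2.2.2.2.2.2.2.2.1.1, rf7h9.2.2.2.2.2.2.2.2.2.2.2.2.2.2.2.2.2.1.1⟩
theorem rf7k126 : CfgOK (rf7c126.e, rf7c126.n) := red_ln rf7h24.2.2.2.2.2.2.2.2.2.2.1 ⟨rf7h24.2.2.2.2.2.2.2.2.2.2.1.1, rf7h16.2.2.2.2.2.2.2.2.2.2.2.2.2.2.2.2.1.1⟩
theorem rf7k127 : CfgOK (rf7c127.e, rf7c127.n) := red_ln rf7h24.2.2.2.2.2.2.2.2.2.1 ⟨rf7h24.2.2.2.2.2.2.2.2.2.1.1, rf7h9.2.2.2.2.2.2.2.2.2.2.2.2.2.2.2.2.1.1⟩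
theorem rf7k128 : CfgOK (rf7c128.e, rf7c128.n) := red_ln rf7h24.2.2.2.2.2.2.2.2.1 ⟨rf7h24.2.2.2.2.2.2.2.2.1.1, rf7h9.2.2.2.2.2.2.2.2.2.2.2.2.2.2.2.1.1⟩
theorem rf7k129 : CfgOK (rf7c129.e, rf7c129.n) := red_ln rf7h24.2.2.2.2.2.2.2.1 ⟨rf7h24.2.2.2.2.2.2.2.1.1, rf7h9.2.2.2.2.2.2.2.2.2.2.2.2.2.2.1.1⟩
theorem rf7k130 : CfgOK (rf7c130.e, rf7c130.n) := red_ln rf7h24.2.2.2.2.2.2.1 ⟨⟨rf7h24.2.2.2.2.2.2.1.1, rf7h9.2.2.2.2.2.2.2.2.2.2.2.2.2.1.1⟩, ⟨rf7h16.2.2.2.2.2.2.2.2.2.2.2.2.2.2.2.2.2.2.2.2.2.2.1.1, rf7h18.2.2.2.2.1.1⟩⟩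
theorem rf7k131 : CfgOK (rf7c131.e, rf7c131.n) := red_ln rf7h24.2.2.2.2.2.1 ⟨rf7h24.2.2.2.2.2.1.1, rf7h9.2.2.2.2.2.2.2.2.2.1.1⟩
theorem rf7k132 : CfgOK (rf7c132.e, rf7c132.n) := red_ln rf7h24.2.2.2.2.1 ⟨rf7h24.2.2.2.2.1.1, rf7h9.2.2.2.2.2.2.2.2.1.1⟩
theorem rf7k133 : CfgOK (rf7c133.e, rf7c133.n) := red_ln rf7h24.2.2.2.1 ⟨rf7h24.2.2.2.1.1, rf7h9.2.2.2.2.2.2.2.1.1⟩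
theorem rf7k134 : CfgOK (rf7c134.e, rf7c134.n) := red_ln rf7h24.2.2.1 ⟨⟨rf7h24.2.2.1.1, rf7h9.2.2.2.2.2.2.1.1⟩, ⟨rf7h16.2.2.2.2.2.2.2.2.2.2.2.2.2.2.2.2.2.2.2.2.2.1.1, rf7h18.2.2.1.1⟩⟩
theorem rf7k135 : CfgOK (rf7c135.e, rf7c135.n) := red_ln rf7h24.2.1 ⟨⟨rf7h24.2.1.1, rf7h16.2.2.2.2.2.2.2.2.2.2.2.2.2.1.1⟩, ⟨rf7h10.2.1.1, rf7h18.2.1.1⟩⟩
theorem rf7k136 : CfgOK (rf7c136.e, rf7c136.n) := red_ln rf7h24.1 rf7h24.1.1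
theorem rf7k137 : CfgOK (rf7c137.e, rf7c137.n) := red_ln rf7h23.2.2.2.2.2.2.2.2.2.2.2.2.2.2.1 rf7h23.2.2.2.2.2.2.2.2.2.2.2.2.2.2.1.1
theorem rf7k138 : CfgOK (rf7c138.e, rf7c138.n) := red_ln rf7h23.2.2.2.2.2.2.2.2.2.2.2.2.2.1 rf7h23.2.2.2.2.2.2.2.2.2.2.2.2.2.1.1
theorem rf7k139 : CfgOK (rf7c139.e, rf7c139.n) := red_ln rf7h23.2.2.2.2.2.2.2.2.2.2.2.2.1 rf7h23.2.2.2.2.2.2.2.2.2.2.2.2.1.1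
theorem rf7k140 : CfgOK (rf7c140.e, rf7c140.n) := red_ln rf7h23.2.2.2.2.2.2.2.2.2.2.2.1 rf7h23.2.2.2.2.2.2.2.2.2.2.2.1.1
theorem rf7k141 : CfgOK (rf7c141.e, rf7c141.n) := red_ln rf7h23.2.2.2.2.2.2.2.2.2.2.1 rf7h23.2.2.2.2.2.2.2.2.2.2.1.1
theorem rf7k142 : CfgOK (rf7c142.e, rf7c142.n) := red_ln rf7h23.2.2.2.2.2.2.2.2.2.1 rf7h23.2.2.2.2.2.2.2.2.2.1.1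
theorem rf7k143 : CfgOK (rf7c143.e, rf7c143.n) := red_ln rf7h23.2.2.2.2.2.2.2.2.1 rf7h23.2.2.2.2.2.2.2.2.1.1
theorem rf7k144 : CfgOK (rf7c144.e, rf7c144.n) := red_ln rf7h23.2.2.2.2.2.2.2.1 rf7h23.2.2.2.2.2.2.2.1.1
theorem rf7k145 : CfgOK (rf7c145.e, rf7c145.n) := red_ln rf7h23.2.2.2.2.2.2.1 rf7h23.2.2.2.2.2.2.1.1
theorem rf7k146 : CfgOK (rf7c146.e, rf7c146.n) := red_ln rf7h23.2.2.2.2.2.1 rf7h23.2.2.2.2.2.1.1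
theorem rf7k147 : CfgOK (rf7c147.e, rf7c147.n) := red_ln rf7h23.2.2.2.2.1 rf7h23.2.2.2.2.1.1
theorem rf7k148 : CfgOK (rf7c148.e, rf7c148.n) := red_ln rf7h23.2.2.2.1 rf7h23.2.2.2.1.1
theorem rf7k149 : CfgOK (rf7c149.e, rf7c149.n) := red_ln rf7h23.2.2.1 rf7h23.2.2.1.1
theorem rf7k150 : CfgOK (rf7c150.e, rf7c150.n) := red_ln rf7h23.2.1 rf7h23.2.1.1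
theorem rf7k151 : CfgOK (rf7c151.e, rf7c151.n) := red_ln rf7h23.1 rf7h23.1.1
theorem rf7k152 : CfgOK (rf7c152.e, rf7c152.n) := red_ln rf7h22.2.2.2.2.2.2.2.2.2.2.2.2.2.2.1 ⟨rf7h22.2.2.2.2.2.2.2.2.2.2.2.2.2.2.1.1, rf7h14.2.2.2.2.1.1⟩
theorem rf7k153 : CfgOK (rf7c153.e, rf7c153.n) := red_ln rf7h22.2.2.2.2.2.2.2.2.2.2.2.2.2.1 ⟨rf7h22.2.2.2.2.2.2.2.2.2.2.2.2.2.1.1, rf7h14.2.2.2.1.1⟩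
theorem rf7k154 : CfgOK (rf7c154.e, rf7c154.n) := red_ln rf7h22.2.2.2.2.2.2.2.2.2.2.2.2.1 ⟨rf7h22.2.2.2.2.2.2.2.2.2.2.2.2.1.1, rf7h14.2.2.1.1⟩
theorem rf7k155 : CfgOK (rf7c155.e, rf7c155.n) := red_ln rf7h22.2.2.2.2.2.2.2.2.2.2.2.1 ⟨rf7h22.2.2.2.2.2.2.2.2.2.2.2.1.1, rf7h14.2.1.1⟩
theorem rf7k156 : CfgOK (rf7c156.e, rf7c156.n) := red_ln rf7h22.2.2.2.2.2.2.2.2.2.2.1 ⟨rf7h22.2.2.2.2.2.2.2.2.2.2.1.1, rf7h14.1.1⟩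
theorem rf7k157 : CfgOK (rf7c157.e, rf7c157.n) := red_ln rf7h22.2.2.2.2.2.2.2.2.2.1 ⟨rf7h22.2.2.2.2.2.2.2.2.2.1.1, rf7h13.2.2.2.2.2.2.2.2.2.2.2.2.2.2.2.2.2.2.2.2.2.2.2.2.2.2.2.2.2.2.2.2.2.2.2.2.2.2.2.1.1⟩
theorem rf7k158 : CfgOK (rf7c158.e, rf7c158.n) := red_ln rf7h22.2.2.2.2.2.2.2.2.1 ⟨rf7h22.2.2.2.2.2.2.2.2.1.1, rf7h13.2.2.2.2.2.2.2.2.2.2.2.2.2.2.2.2.2.2.2.2.2.2.2.2.2.2.2.2.2.2.2.2.2.2.2.2.2.2.1.1⟩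
theorem rf7k159 : CfgOK (rf7c159.e, rf7c159.n) := red_ln rf7h22.2.2.2.2.2.2.2.1 ⟨rf7h22.2.2.2.2.2.2.2.1.1, rf7h13.2.2.2.2.2.2.2.2.2.2.2.2.2.2.2.2.2.2.2.2.2.2.2.2.2.2.2.2.2.2.2.2.2.2.2.2.2.1.1⟩
theorem rf7k160 : CfgOK (rf7c160.e, rf7c160.n) := red_ln rf7h22.2.2.2.2.2.2.1 ⟨rf7h22.2.2.2.2.2.2.1.1, rf7h13.2.2.2.2.2.2.2.2.2.2.2.2.2.2.2.2.2.2.2.2.2.2.2.2.2.2.2.2.2.2.2.2.2.2.2.2.1.1⟩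
theorem rf7k161 : CfgOK (rf7c161.e, rf7c161.n) := red_ln rf7h22.2.2.2.2.2.1 ⟨rf7h22.2.2.2.2.2.1.1, rf7h13.2.2.2.2.2.2.2.2.2.2.2.2.2.2.2.2.2.2.2.2.2.2.2.2.2.2.2.2.2.2.2.2.2.2.2.1.1⟩
theorem rf7k162 : CfgOK (rf7c162.e, rf7c162.n) := red_ln rf7h22.2.2.2.2.1 ⟨rf7h22.2.2.2.2.1.1, rf7h13.2.2.2.2.2.2.2.2.2.2.2.2.2.2.2.2.2.2.2.2.2.2.2.2.2.2.2.2.2.2.2.2.2.2.1.1⟩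
theorem rf7k163 : CfgOK (rf7c163.e, rf7c163.n) := red_ln rf7h22.2.2.2.1 ⟨rf7h22.2.2.2.1.1, rf7h13.2.2.2.2.2.2.2.2.2.2.2.2.2.2.2.2.2.2.2.2.2.2.2.2.2.2.2.2.2.2.2.2.2.1.1⟩
theorem rf7k164 : CfgOK (rf7c164.e, rf7c164.n) := red_ln rf7h22.2.2.1 ⟨rf7h22.2.2.1.1, rf7h13.2.2.2.2.2.2.2.2.2.2.2.2.2.2.2.2.2.2.2.2.2.2.2.2.2.2.2.2.2.2.2.2.1.1⟩
theorem rf7k165 : CfgOK (rf7c165.e, rf7c165.n) := red_ln rf7h22.2.1 ⟨⟨rf7h22.2.1.1, rf7h13.2.2.2.2.2.2.2.2.2.2.2.2.2.2.2.2.2.2.2.2.2.2.2.2.2.2.2.2.2.2.2.1.1⟩, ⟨rf7h16.2.2.2.1.1, rf7h15.2.2.2.2.2.2.2.2.2.2.1.1⟩⟩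
theorem rf7k166 : CfgOK (rf7c166.e, rf7c166.n) := red_ln rf7h22.1 ⟨rf7h22.1.1, rf7h9.2.2.2.2.2.2.2.2.2.2.2.2.1.1⟩
theorem rf7k167 : CfgOK (rf7c167.e, rf7c167.n) := red_ln rf7h21.2.2.2.2.2.2.2.2.2.2.2.2.2.2.1 ⟨rf7h21.2.2.2.2.2.2.2.2.2.2.2.2.2.2.1.1, rf7h16.2.2.2.2.2.2.2.2.2.2.2.2.2.2.2.1.1⟩
theorem rf7k168 : CfgOK (rf7c168.e, rf7c168.n) := red_ln rf7h21.2.2.2.2.2.2.2.2.2.2.2.2.2.1 ⟨rf7h21.2.2.2.2.2.2.2.2.2.2.2.2.2.1.1, rf7h16.2.2.2.2.2.2.2.2.2.2.2.2.1.1⟩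
theorem rf7k169 : CfgOK (rf7c169.e, rf7c169.n) := red_ln rf7h21.2.2.2.2.2.2.2.2.2.2.2.2.1 ⟨rf7h21.2.2.2.2.2.2.2.2.2.2.2.2.1.1, rf7h16.2.2.2.2.2.2.2.2.2.2.2.1.1⟩
theorem rf7k170 : CfgOK (rf7c170.e, rf7c170.n) := red_ln rf7h21.2.2.2.2.2.2.2.2.2.2.2.1 ⟨rf7h21.2.2.2.2.2.2.2.2.2.2.2.1.1, rf7h9.2.2.2.2.2.1.1⟩
theorem rf7k171 : CfgOK (rf7c171.e, rf7c171.n) := red_ln rf7h21.2.2.2.2.2.2.2.2.2.2.1 ⟨rf7h21.2.2.2.2.2.2.2.2.2.2.1.1, rf7h16.2.2.2.2.2.2.2.2.2.2.1.1⟩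
theorem rf7k172 : CfgOK (rf7c172.e, rf7c172.n) := red_ln rf7h21.2.2.2.2.2.2.2.2.2.1 ⟨⟨rf7h21.2.2.2.2.2.2.2.2.2.1.1, rf7h9.2.2.2.2.1.1⟩, ⟨rf7h13.2.2.2.2.2.2.2.2.2.2.2.2.2.2.2.2.2.2.2.2.2.2.2.2.2.2.2.2.2.2.1.1, rf7h15.2.2.2.2.2.2.2.2.2.1.1⟩⟩
theorem rf7k173 : CfgOK (rf7c173.e, rf7c173.n) := red_ln rf7h21.2.2.2.2.2.2.2.2.1 ⟨⟨rf7h21.2.2.2.2.2.2.2.2.1.1, rf7h16.2.2.2.2.2.2.2.2.2.1.1⟩, ⟨rf7h13.2.2.2.2.2.2.2.2.2.2.2.2.2.2.2.2.2.2.2.2.2.2.2.2.2.2.2.2.2.1.1, rf7h15.2.2.2.2.2.2.2.2.1.1⟩⟩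
theorem rf7k174 : CfgOK (rf7c174.e, rf7c174.n) := red_ln rf7h21.2.2.2.2.2.2.2.1 ⟨⟨⟨rf7h21.2.2.2.2.2.2.2.1.1, rf7h9.2.2.2.1.1⟩, ⟨rf7h10.2.2.2.2.2.2.2.2.2.2.2.2.2.2.2.2.2.2.2.1.1, rf7h18.2.2.2.2.2.2.2.2.2.1.1⟩⟩, ⟨⟨rf7h13.2.2.2.2.2.2.2.2.2.2.2.2.2.2.2.2.2.2.2.2.2.2.2.2.2.2.2.2.1.1, rf7h15.2.2.2.2.2.2.2.1.1⟩, ⟨rf7h15.2.2.2.2.2.2.1.1, rf7h19.2.1.1⟩⟩⟩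
theorem rf7k175 : CfgOK (rf7c175.e, rf7c175.n) := red_ln rf7h21.2.2.2.2.2.2.1 ⟨⟨rf7h21.2.2.2.2.2.2.1.1, rf7h9.2.2.1.1⟩, ⟨rf7h16.2.2.2.2.2.2.2.2.2.2.2.2.2.2.1.1, rf7h18.2.2.2.1.1⟩⟩
theorem rf7k176 : CfgOK (rf7c176.e, rf7c176.n) := red_ln rf7h21.2.2.2.2.2.1 ⟨⟨rf7h21.2.2.2.2.2.1.1, rf7h9.2.1.1⟩, ⟨rf7h9.2.2.2.2.2.2.2.2.2.2.2.1.1, rf7h18.1.1⟩⟩
theorem rf7k177 : CfgOK (rf7c177.e, rf7c177.n) := red_ln rf7h21.2.2.2.2.1 rf7h21.2.2.2.2.1.1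
theorem rf7k178 : CfgOK (rf7c178.e, rf7c178.n) := red_ln rf7h21.2.2.2.1 rf7h21.2.2.2.1.1
theorem rf7k179 : CfgOK (rf7c179.e, rf7c179.n) := red_ln rf7h21.2.2.1 rf7h21.2.2.1.1
theorem rf7k180 : CfgOK (rf7c180.e, rf7c180.n) := red_ln rf7h21.2.1 rf7h21.2.1.1
theorem rf7k181 : CfgOK (rf7c181.e, rf7c181.n) := red_ln rf7h21.1 rf7h21.1.1
theorem rf7k182 : CfgOK (rf7c182.e, rf7c182.n) := red_ln rf7h20.2.2.2.2.2.2.2.2.2.2.2.2.2.2.1 rf7h20.2.2.2.2.2.2.2.2.2.2.2.2.2.2.1.1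
theorem rf7k183 : CfgOK (rf7c183.e, rf7c183.n) := red_ln rf7h20.2.2.2.2.2.2.2.2.2.2.2.2.2.1 rf7h20.2.2.2.2.2.2.2.2.2.2.2.2.2.1.1
theorem rf7k184 : CfgOK (rf7c184.e, rf7c184.n) := red_ln rf7h20.2.2.2.2.2.2.2.2.2.2.2.2.1 rf7h20.2.2.2.2.2.2.2.2.2.2.2.2.1.1
theorem rf7k185 : CfgOK (rf7c185.e, rf7c185.n) := red_ln rf7h20.2.2.2.2.2.2.2.2.2.2.2.1 rf7h20.2.2.2.2.2.2.2.2.2.2.2.1.1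
theorem rf7k186 : CfgOK (rf7c186.e, rf7c186.n) := red_ln rf7h20.2.2.2.2.2.2.2.2.2.2.1 rf7h20.2.2.2.2.2.2.2.2.2.2.1.1
theorem rf7k187 : CfgOK (rf7c187.e, rf7c187.n) := red_ln rf7h20.2.2.2.2.2.2.2.2.2.1 rf7h20.2.2.2.2.2.2.2.2.2.1.1
theorem rf7k188 : CfgOK (rf7c188.e, rf7c188.n) := red_ln rf7h20.2.2.2.2.2.2.2.2.1 rf7h20.2.2.2.2.2.2.2.2.1.1
theorem rf7k189 : CfgOK (rf7c189.e, rf7c189.n) := red_ln rf7h20.2.2.2.2.2.2.2.1 rf7h20.2.2.2.2.2.2.2.1.1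
theorem rf7k190 : CfgOK (rf7c190.e, rf7c190.n) := red_ln rf7h20.2.2.2.2.2.2.1 rf7h20.2.2.2.2.2.2.1.1
theorem rf7k191 : CfgOK (rf7c191.e, rf7c191.n) := red_ln rf7h20.2.2.2.2.2.1 rf7h20.2.2.2.2.2.1.1
theorem rf7k192 : CfgOK (rf7c192.e, rf7c192.n) := red_ln rf7h20.2.2.2.2.1 rf7h20.2.2.2.2.1.1
theorem rf7k193 : CfgOK (rf7c193.e, rf7c193.n) := red_ln rf7h20.2.2.2.1 rf7h20.2.2.2.1.1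
theorem rf7k194 : CfgOK (rf7c194.e, rf7c194.n) := red_ln rf7h20.2.2.1 rf7h20.2.2.1.1
theorem rf7k195 : CfgOK (rf7c195.e, rf7c195.n) := red_ln rf7h20.2.1 rf7h20.2.1.1
theorem rf7k196 : CfgOK (rf7c196.e, rf7c196.n) := red_ln rf7h20.1 rf7h20.1.1
theorem rf7k197 : CfgOK (rf7c197.e, rf7c197.n) := red_ln rf7h12.2.2.2.2.2.2.2.2.2.2.2.2.2.2.1 rf7h12.2.2.2.2.2.2.2.2.2.2.2.2.2.2.1.1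
theorem rf7k198 : CfgOK (rf7c198.e, rf7c198.n) := red_ln rf7h12.2.2.2.2.2.2.2.2.2.2.2.2.2.1 rf7h12.2.2.2.2.2.2.2.2.2.2.2.2.2.1.1
theorem rf7k199 : CfgOK (rf7c199.e, rf7c199.n) := red_ln rf7h12.2.2.2.2.2.2.2.2.2.2.2.2.1 rf7h12.2.2.2.2.2.2.2.2.2.2.2.2.1.1
theorem rf7k200 : CfgOK (rf7c200.e, rf7c200.n) := red_ln rf7h12.2.2.2.2.2.2.2.2.2.2.2.1 rf7h12.2.2.2.2.2.2.2.2.2.2.2.1.1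
theorem rf7k201 : CfgOK (rf7c201.e, rf7c201.n) := red_ln rf7h12.2.2.2.2.2.2.2.2.2.2.1 rf7h12.2.2.2.2.2.2.2.2.2.2.1.1
theorem rf7k202 : CfgOK (rf7c202.e, rf7c202.n) := red_ln rf7h12.2.2.2.2.2.2.2.2.2.1 rf7h12.2.2.2.2.2.2.2.2.2.1.1
theorem rf7k203 : CfgOK (rf7c203.e, rf7c203.n) := red_ln rf7h12.2.2.2.2.2.2.2.2.1 rf7h12.2.2.2.2.2.2.2.2.1.1
theorem rf7k204 : CfgOK (rf7c204.e, rf7c204.n) := red_ln rf7h12.2.2.2.2.2.2.2.1 rf7h12.2.2.2.2.2.2.2.1.1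
theorem rf7k205 : CfgOK (rf7c205.e, rf7c205.n) := red_ln rf7h12.2.2.2.2.2.2.1 rf7h12.2.2.2.2.2.2.1.1
theorem rf7k206 : CfgOK (rf7c206.e, rf7c206.n) := red_ln rf7h12.2.2.2.2.2.1 rf7h12.2.2.2.2.2.1.1
theorem rf7k207 : CfgOK (rf7c207.e, rf7c207.n) := red_ln rf7h12.2.2.2.2.1 rf7h12.2.2.2.2.1.1
theorem rf7k208 : CfgOK (rf7c208.e, rf7c208.n) := red_ln rf7h12.2.2.2.1 ⟨rf7h12.2.2.2.1.1, rf7h13.2.2.2.2.2.2.2.2.2.2.2.2.2.2.2.2.2.2.2.2.2.2.2.2.2.2.2.1.1⟩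
theorem rf7k209 : CfgOK (rf7c209.e, rf7c209.n) := red_ln rf7h12.2.2.1 ⟨rf7h12.2.2.1.1, rf7h13.2.2.2.2.2.2.2.2.2.2.2.2.2.2.2.2.2.2.2.2.2.2.2.2.2.2.1.1⟩
theorem rf7k210 : CfgOK (rf7c210.e, rf7c210.n) := red_ln rf7h12.2.1 ⟨rf7h12.2.1.1, rf7h13.2.2.2.2.2.2.2.2.2.2.2.2.2.2.2.2.2.2.2.2.2.2.2.2.2.1.1⟩
theorem rf7k211 : CfgOK (rf7c211.e, rf7c211.n) := red_ln rf7h12.1 ⟨rf7h12.1.1, rf7h13.2.2.2.2.2.2.2.2.2.2.2.2.2.2.2.2.2.2.2.2.2.2.2.2.1.1⟩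
theorem rf7k212 : CfgOK (rf7c212.e, rf7c212.n) := red_ln rf7h1.2.2.2.2.2.2.2.2.2.2.2.2.2.2.1 ⟨rf7h1.2.2.2.2.2.2.2.2.2.2.2.2.2.2.1.1, rf7h13.2.2.2.2.2.2.2.2.2.2.2.2.2.2.2.2.2.2.2.2.2.2.2.1.1⟩
theorem rf7k213 : CfgOK (rf7c213.e, rf7c213.n) := red_ln rf7h1.2.2.2.2.2.2.2.2.2.2.2.2.2.1 ⟨rf7h1.2.2.2.2.2.2.2.2.2.2.2.2.2.1.1, rf7h13.2.2.2.2.2.2.2.2.2.2.2.2.2.2.2.2.2.2.2.2.2.2.1.1⟩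
theorem rf7k214 : CfgOK (rf7c214.e, rf7c214.n) := red_ln rf7h1.2.2.2.2.2.2.2.2.2.2.2.2.1 ⟨rf7h1.2.2.2.2.2.2.2.2.2.2.2.2.1.1, rf7h13.2.2.2.2.2.2.2.2.2.2.2.2.2.2.2.2.2.2.2.2.2.1.1⟩
theorem rf7k215 : CfgOK (rf7c215.e, rf7c215.n) := red_ln rf7h1.2.2.2.2.2.2.2.2.2.2.2.1 ⟨rf7h1.2.2.2.2.2.2.2.2.2.2.2.1.1, rf7h13.2.2.2.2.2.2.2.2.2.2.2.2.2.2.2.2.2.2.2.2.1.1⟩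
theorem rf7k216 : CfgOK (rf7c216.e, rf7c216.n) := red_ln rf7h1.2.2.2.2.2.2.2.2.2.2.1 ⟨rf7h1.2.2.2.2.2.2.2.2.2.2.1.1, rf7h13.2.2.2.2.2.2.2.2.2.2.2.2.2.2.2.2.2.2.2.1.1⟩
theorem rf7k217 : CfgOK (rf7c217.e, rf7c217.n) := red_ln rf7h1.2.2.2.2.2.2.2.2.2.1 ⟨rf7h1.2.2.2.2.2.2.2.2.2.1.1, rf7h13.2.2.2.2.2.2.2.2.2.2.2.2.2.2.2.2.2.2.1.1⟩
theorem rf7k218 : CfgOK (rf7c218.e, rf7c218.n) := red_ln rf7h1.2.2.2.2.2.2.2.2.1 ⟨rf7h1.2.2.2.2.2.2.2.2.1.1, rf7h13.2.2.2.2.2.2.2.2.2.2.2.2.2.2.2.2.2.1.1⟩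
theorem rf7k219 : CfgOK (rf7c219.e, rf7c219.n) := red_ln rf7h1.2.2.2.2.2.2.2.1 ⟨rf7h1.2.2.2.2.2.2.2.1.1, rf7h13.2.2.2.2.2.2.2.2.2.2.2.2.2.2.2.2.1.1⟩
theorem rf7k220 : CfgOK (rf7c220.e, rf7c220.n) := red_ln rf7h1.2.2.2.2.2.2.1 ⟨rf7h1.2.2.2.2.2.2.1.1, rf7h13.2.2.2.2.2.2.2.2.2.2.2.2.2.2.2.1.1⟩
theorem rf7k221 : CfgOK (rf7c221.e, rf7c221.n) := red_ln rf7h1.2.2.2.2.2.1 ⟨rf7h1.2.2.2.2.2.1.1, rf7h13.2.2.2.2.2.2.2.2.2.2.2.2.2.2.1.1⟩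
theorem rf7k222 : CfgOK (rf7c222.e, rf7c222.n) := red_ln rf7h1.2.2.2.2.1 ⟨rf7h1.2.2.2.2.1.1, rf7h13.2.2.2.2.2.2.2.2.2.2.2.2.2.1.1⟩
theorem rf7k223 : CfgOK (rf7c223.e, rf7c223.n) := red_ln rf7h1.2.2.2.1 ⟨rf7h1.2.2.2.1.1, rf7h13.2.2.2.2.2.2.2.2.2.2.2.2.1.1⟩
theorem rf7k224 : CfgOK (rf7c224.e, rf7c224.n) := red_ln rf7h1.2.2.1 ⟨rf7h1.2.2.1.1, rf7h13.2.2.2.2.2.2.2.2.2.2.2.1.1⟩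
theorem rf7k225 : CfgOK (rf7c225.e, rf7c225.n) := red_ln rf7h1.2.1 ⟨rf7h1.2.1.1, rf7h13.2.2.2.2.2.2.2.2.2.2.1.1⟩
theorem rf7k226 : CfgOK (rf7c226.e, rf7c226.n) := red_ln rf7h1.1 ⟨rf7h1.1.1, rf7h13.2.2.2.2.2.2.2.2.2.1.1⟩
theorem rf7k227 : CfgOK (rf7c227.e, rf7c227.n) := red_ln rf7h0.2.2.2.2.2.2.2.2.2.2.2.2.2.2.1 ⟨rf7h0.2.2.2.2.2.2.2.2.2.2.2.2.2.2.1.1, rf7h13.2.2.2.2.2.2.2.2.1.1⟩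
theorem rf7k228 : CfgOK (rf7c228.e, rf7c228.n) := red_ln rf7h0.2.2.2.2.2.2.2.2.2.2.2.2.2.1 ⟨rf7h0.2.2.2.2.2.2.2.2.2.2.2.2.2.1.1, rf7h13.2.2.2.2.2.2.2.1.1⟩
theorem rf7k229 : CfgOK (rf7c229.e, rf7c229.n) := red_ln rf7h0.2.2.2.2.2.2.2.2.2.2.2.2.1 ⟨rf7h0.2.2.2.2.2.2.2.2.2.2.2.2.1.1, rf7h13.2.2.2.2.2.2.1.1⟩
theorem rf7k230 : CfgOK (rf7c230.e, rf7c230.n) := red_ln rf7h0.2.2.2.2.2.2.2.2.2.2.2.1 ⟨rf7h0.2.2.2.2.2.2.2.2.2.2.2.1.1, rf7h13.2.2.2.2.2.1.1⟩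
theorem rf7k231 : CfgOK (rf7c231.e, rf7c231.n) := red_ln rf7h0.2.2.2.2.2.2.2.2.2.2.1 ⟨⟨rf7h0.2.2.2.2.2.2.2.2.2.2.1.1, rf7h13.2.2.2.2.1.1⟩, ⟨rf7h16.2.2.2.2.2.2.2.2.2.2.2.2.2.2.2.2.2.2.2.2.1.1, rf7h15.2.2.2.2.2.1.1⟩⟩
theorem rf7k232 : CfgOK (rf7c232.e, rf7c232.n) := red_ln rf7h0.2.2.2.2.2.2.2.2.2.1 ⟨⟨rf7h0.2.2.2.2.2.2.2.2.2.1.1, rf7h13.2.2.2.1.1⟩, ⟨rf7h9.1.1, rf7h15.2.2.2.2.1.1⟩⟩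
theorem rf7k233 : CfgOK (rf7c233.e, rf7c233.n) := red_ln rf7h0.2.2.2.2.2.2.2.2.1 ⟨⟨rf7h0.2.2.2.2.2.2.2.2.1.1, rf7h13.2.2.1.1⟩, ⟨rf7h16.1.1, rf7h15.2.2.2.1.1⟩⟩
theorem rf7k234 : CfgOK (rf7c234.e, rf7c234.n) := red_ln rf7h0.2.2.2.2.2.2.2.1 ⟨⟨⟨rf7h0.2.2.2.2.2.2.2.1.1, rf7h10.2.2.2.2.2.2.2.2.2.2.2.2.2.2.2.2.2.2.1.1⟩, ⟨rf7h13.2.1.1, rf7h15.2.2.1.1⟩⟩, ⟨⟨rf7h16.2.1.1, rf7h18.2.2.2.2.2.2.1.1⟩, ⟨rf7h15.2.1.1, rf7h19.1.1⟩⟩⟩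
theorem rf7k235 : CfgOK (rf7c235.e, rf7c235.n) := red_ln rf7h0.2.2.2.2.2.2.1 ⟨⟨rf7h0.2.2.2.2.2.2.1.1, rf7h10.1.1⟩, ⟨rf7h13.1.1, rf7h15.1.1⟩⟩
theorem rf7k236 : CfgOK (rf7c236.e, rf7c236.n) := red_ln rf7h0.2.2.2.2.2.1 ⟨⟨rf7h0.2.2.2.2.2.1.1, rf7h16.2.2.2.2.2.2.2.2.2.2.2.2.2.2.2.2.2.2.2.1.1⟩, ⟨rf7h16.2.2.1.1, rf7h18.2.2.2.2.2.1.1⟩⟩
theorem rf7k237 : CfgOK (rf7c237.e, rf7c237.n) := red_ln rf7h0.2.2.2.2.1 ⟨rf7h0.2.2.2.2.1.1, rf7h16.2.2.2.2.2.2.2.2.1.1⟩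
theorem rf7k238 : CfgOK (rf7c238.e, rf7c238.n) := red_ln rf7h0.2.2.2.1 ⟨rf7h0.2.2.2.1.1, rf7h16.2.2.2.2.2.2.2.1.1⟩
theorem rf7k239 : CfgOK (rf7c239.e, rf7c239.n) := red_ln rf7h0.2.2.1 ⟨rf7h0.2.2.1.1, rf7h16.2.2.2.2.2.2.1.1⟩
theorem rf7k240 : CfgOK (rf7c240.e, rf7c240.n) := red_ln rf7h0.2.1 ⟨rf7h0.2.1.1, rf7h16.2.2.2.2.2.1.1⟩
theorem rf7k241 : CfgOK (rf7c241.e, rf7c241.n) := red_ln rf7h0.1 ⟨rf7h0.1.1, rf7h16.2.2.2.2.1.1⟩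

end Pool.Agent.Lib.G6.B
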