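import Pool.Agent.Lib.G6.BRed
import Pool.Agent.Lib.G6D.RF40
import Pool.Agent.Lib.G6D.RF41
import Pool.Agent.Lib.G6D.RF42
import Pool.Agent.Lib.G6D.RF43

set_option autoImplicit false
set_option maxRecDepth 100000
set_option linter.all false

namespace Pool.Agent.Lib.G6.B

theorem rf40h0 : AllL LnOK rf40l30 := batch_of rf40th.2.2.2.2.2.2.2.2.2.2.2.2.2.2.2.2.2.2.2.2.2.2.2.2.2.2.2.2.2.2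
theorem rf40h1 : AllL LnOK rf40l0 := ck2_of (ck0_of rf40th.1) rf40th.2.1
theorem rf40h2 : AllL LnOK rf40l10 := ck2_of (ck0_of rf40th.2.2.2.2.2.2.2.2.2.2.1) rf40th.2.2.2.2.2.2.2.2.2.2.2.1
theorem rf40h3 : AllL LnOK rf40l12 := ck2_of (ck0_of rf40th.2.2.2.2.2.2.2.2.2.2.2.2.1) rf40th.2.2.2.2.2.2.2.2.2.2.2.2.2.1
theorem rf40h4 : AllL LnOK rf40l14 := ck2_of (ck0_of rf40th.2.2.2.2.2.2.2.2.2.2.2.2.2.2.1) rf40th.2.2.2.2.2.2.2.2.2.2.2.2.2.2.2.1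
theorem rf40h5 : AllL LnOK rf40l16 := ck2_of (ck0_of rf40th.2.2.2.2.2.2.2.2.2.2.2.2.2.2.2.2.1) rf40th.2.2.2.2.2.2.2.2.2.2.2.2.2.2.2.2.2.1
theorem rf40h6 : AllL LnOK rf40l18 := ck2_of (ck0_of rf40th.2.2.2.2.2.2.2.2.2.2.2.2.2.2.2.2.2.2.1) rf40th.2.2.2.2.2.2.2.2.2.2.2.2.2.2.2.2.2.2.2.1
theorem rf40h7 : AllL LnOK rf40l2 := ck2_of (ck0_of rf40th.2.2.1) rf40th.2.2.2.1
theorem rf40h8 : AllL LnOK rf40l20 := ck2_of (ck0_of rf40th.2.2.2.2.2.2.2.2.2.2.2.2.2.2.2.2.2.2.2.2.1) rf40th.2.2.2.2.2.2.2.2.2.2.2.2.2.2.2.2.2.2.2.2.2.1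
theorem rf40h9 : AllL LnOK rf40l22 := ck2_of (ck0_of rf40th.2.2.2.2.2.2.2.2.2.2.2.2.2.2.2.2.2.2.2.2.2.2.1) rf40th.2.2.2.2.2.2.2.2.2.2.2.2.2.2.2.2.2.2.2.2.2.2.2.1
theorem rf40h10 : AllL LnOK rf40l24 := ck2_of (ck0_of rf40th.2.2.2.2.2.2.2.2.2.2.2.2.2.2.2.2.2.2.2.2.2.2.2.2.1) rf40th.2.2.2.2.2.2.2.2.2.2.2.2.2.2.2.2.2.2.2.2.2.2.2.2.2.1
theorem rf40h11 : AllL LnOK rf40l26 := ck2_of (ck0_of rf40th.2.2.2.2.2.2.2.2.2.2.2.2.2.2.2.2.2.2.2.2.2.2.2.2.2.2.1) rf40th.2.2.2.2.2.2.2.2.2.2.2.2.2.2.2.2.2.2.2.2.2.2.2.2.2.2.2.1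
theorem rf40h12 : AllL LnOK rf40l28 := ck2_of (ck0_of rf40th.2.2.2.2.2.2.2.2.2.2.2.2.2.2.2.2.2.2.2.2.2.2.2.2.2.2.2.2.1) rf40th.2.2.2.2.2.2.2.2.2.2.2.2.2.2.2.2.2.2.2.2.2.2.2.2.2.2.2.2.2.1
theorem rf40h13 : AllL LnOK rf40l4 := ck2_of (ck0_of rf40th.2.2.2.2.1) rf40th.2.2.2.2.2.1
theorem rf40h14 : AllL LnOK rf40l6 := ck2_of (ck0_of rf40th.2.2.2.2.2.2.1) rf40th.2.2.2.2.2.2.2.1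
theorem rf40h15 : AllL LnOK rf40l8 := ck2_of (ck0_of rf40th.2.2.2.2.2.2.2.2.1) rf40th.2.2.2.2.2.2.2.2.2.1
theorem rf41h0 : AllL LnOK rf41l40 := batch_of rf41th.2.2.2.2.2.2.2.2.2.2.2.2.2.2.2.2.2.2.2.2.2.2.2.2.2.2.2.2.2.2.2.2.2.2.2.2.2.2.2.2
theorem rf41h1 : AllL LnOK rf41l36 := ck2_of (ck0_of rf41th.2.2.2.2.2.2.2.2.2.2.2.2.2.2.2.2.2.2.2.2.2.2.2.2.2.2.2.2.2.2.2.2.2.2.2.2.1) rf41th.2.2.2.2.2.2.2.2.2.2.2.2.2.2.2.2.2.2.2.2.2.2.2.2.2.2.2.2.2.2.2.2.2.2.2.2.2.1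
theorem rf41h2 : AllL LnOK rf41l38 := ck2_of (ck0_of rf41th.2.2.2.2.2.2.2.2.2.2.2.2.2.2.2.2.2.2.2.2.2.2.2.2.2.2.2.2.2.2.2.2.2.2.2.2.2.2.1) rf41th.2.2.2.2.2.2.2.2.2.2.2.2.2.2.2.2.2.2.2.2.2.2.2.2.2.2.2.2.2.2.2.2.2.2.2.2.2.2.2.1
theorem rf41h3 : AllL LnOK rf41l0 := ck2_of (ck1_of (ck0_of rf41th.1) rfl rf41th.2.1) rf41th.2.2.1
theorem rf41h4 : AllL LnOK rf41l12 := ck2_of (ck1_of (ck0_of rf41th.2.2.2.2.2.2.2.2.2.2.2.2.1) rfl rf41th.2.2.2.2.2.2.2.2.2.2.2.2.2.1) rf41th.2.2.2.2.2.2.2.2.2.2.2.2.2.2.1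
theorem rf41h5 : AllL LnOK rf41l15 := ck2_of (ck1_of (ck0_of rf41th.2.2.2.2.2.2.2.2.2.2.2.2.2.2.2.1) rfl rf41th.2.2.2.2.2.2.2.2.2.2.2.2.2.2.2.2.1) rf41th.2.2.2.2.2.2.2.2.2.2.2.2.2.2.2.2.2.1
theorem rf41h6 : AllL LnOK rf41l18 := ck2_of (ck1_of (ck0_of rf41th.2.2.2.2.2.2.2.2.2.2.2.2.2.2.2.2.2.2.1) rfl rf41th.2.2.2.2.2.2.2.2.2.2.2.2.2.2.2.2.2.2.2.1) rf41th.2.2.2.2.2.2.2.2.2.2.2.2.2.2.2.2.2.2.2.2.1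
theorem rf41h7 : AllL LnOK rf41l21 := ck2_of (ck1_of (ck0_of rf41th.2.2.2.2.2.2.2.2.2.2.2.2.2.2.2.2.2.2.2.2.2.1) rfl rf41th.2.2.2.2.2.2.2.2.2.2.2.2.2.2.2.2.2.2.2.2.2.2.1) rf41th.2.2.2.2.2.2.2.2.2.2.2.2.2.2.2.2.2.2.2.2.2.2.2.1
theorem rf41h8 : AllL LnOK rf41l24 := ck2_of (ck1_of (ck0_of rf41th.2.2.2.2.2.2.2.2.2.2.2.2.2.2.2.2.2.2.2.2.2.2.2.2.1) rfl rf41th.2.2.2.2.2.2.2.2.2.2.2.2.2.2.2.2.2.2.2.2.2.2.2.2.2.1) rf41th.2.2.2.2.2.2.2.2.2.2.2.2.2.2.2.2.2.2.2.2.2.2.2.2.2.2.1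
theorem rf41h9 : AllL LnOK rf41l27 := ck2_of (ck1_of (ck0_of rf41th.2.2.2.2.2.2.2.2.2.2.2.2.2.2.2.2.2.2.2.2.2.2.2.2.2.2.2.1) rfl rf41th.2.2.2.2.2.2.2.2.2.2.2.2.2.2.2.2.2.2.2.2.2.2.2.2.2.2.2.2.1) rf41th.2.2.2.2.2.2.2.2.2.2.2.2.2.2.2.2.2.2.2.2.2.2.2.2.2.2.2.2.2.1
theorem rf41h10 : AllL LnOK rf41l3 := ck2_of (ck1_of (ck0_of rf41th.2.2.2.1) rfl rf41th.2.2.2.2.1) rf41th.2.2.2.2.2.1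
theorem rf41h11 : AllL LnOK rf41l30 := ck2_of (ck1_of (ck0_of rf41th.2.2.2.2.2.2.2.2.2.2.2.2.2.2.2.2.2.2.2.2.2.2.2.2.2.2.2.2.2.2.1) rfl rf41th.2.2.2.2.2.2.2.2.2.2.2.2.2.2.2.2.2.2.2.2.2.2.2.2.2.2.2.2.2.2.2.1) rf41th.2.2.2.2.2.2.2.2.2.2.2.2.2.2.2.2.2.2.2.2.2.2.2.2.2.2.2.2.2.2.2.2.1
theorem rf41h12 : AllL LnOK rf41l33 := ck2_of (ck1_of (ck0_of rf41th.2.2.2.2.2.2.2.2.2.2.2.2.2.2.2.2.2.2.2.2.2.2.2.2.2.2.2.2.2.2.2.2.2.1) rfl rf41th.2.2.2.2.2.2.2.2.2.2.2.2.2.2.2.2.2.2.2.2.2.2.2.2.2.2.2.2.2.2.2.2.2.2.1) rf41th.2.2.2.2.2.2.2.2.2.2.2.2.2.2.2.2.2.2.2.2.2.2.2.2.2.2.2.2.2.2.2.2.2.2.2.1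
theorem rf41h13 : AllL LnOK rf41l6 := ck2_of (ck1_of (ck0_of rf41th.2.2.2.2.2.2.1) rfl rf41th.2.2.2.2.2.2.2.1) rf41th.2.2.2.2.2.2.2.2.1
theorem rf41h14 : AllL LnOK rf41l9 := ck2_of (ck1_of (ck0_of rf41th.2.2.2.2.2.2.2.2.2.1) rfl rf41th.2.2.2.2.2.2.2.2.2.2.1) rf41th.2.2.2.2.2.2.2.2.2.2.2.1
theorem rf42h0 : AllL LnOK rf42l33 := batch_of rf42th.2.2.2.2.2.2.2.2.2.2.2.2.2.2.2.2.2.2.2.2.2.2.2.2.2.2.2.2.2.2.2.2.2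
theorem rf42h1 : AllL LnOK rf42l0 := ck2_of (ck1_of (ck0_of rf42th.1) rfl rf42th.2.1) rf42th.2.2.1
theorem rf42h2 : AllL LnOK rf42l12 := ck2_of (ck1_of (ck0_of rf42th.2.2.2.2.2.2.2.2.2.2.2.2.1) rfl rf42th.2.2.2.2.2.2.2.2.2.2.2.2.2.1) rf42th.2.2.2.2.2.2.2.2.2.2.2.2.2.2.1
theorem rf42h3 : AllL LnOK rf42l15 := ck2_of (ck1_of (ck0_of rf42th.2.2.2.2.2.2.2.2.2.2.2.2.2.2.2.1) rfl rf42th.2.2.2.2.2.2.2.2.2.2.2.2.2.2.2.2.1) rf42th.2.2.2.2.2.2.2.2.2.2.2.2.2.2.2.2.2.1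
theorem rf42h4 : AllL LnOK rf42l18 := ck2_of (ck1_of (ck0_of rf42th.2.2.2.2.2.2.2.2.2.2.2.2.2.2.2.2.2.2.1) rfl rf42th.2.2.2.2.2.2.2.2.2.2.2.2.2.2.2.2.2.2.2.1) rf42th.2.2.2.2.2.2.2.2.2.2.2.2.2.2.2.2.2.2.2.2.1
theorem rf42h5 : AllL LnOK rf42l21 := ck2_of (ck1_of (ck0_of rf42th.2.2.2.2.2.2.2.2.2.2.2.2.2.2.2.2.2.2.2.2.2.1) rfl rf42th.2.2.2.2.2.2.2.2.2.2.2.2.2.2.2.2.2.2.2.2.2.2.1) rf42th.2.2.2.2.2.2.2.2.2.2.2.2.2.2.2.2.2.2.2.2.2.2.2.1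
theorem rf42h6 : AllL LnOK rf42l24 := ck2_of (ck1_of (ck0_of rf42th.2.2.2.2.2.2.2.2.2.2.2.2.2.2.2.2.2.2.2.2.2.2.2.2.1) rfl rf42th.2.2.2.2.2.2.2.2.2.2.2.2.2.2.2.2.2.2.2.2.2.2.2.2.2.1) rf42th.2.2.2.2.2.2.2.2.2.2.2.2.2.2.2.2.2.2.2.2.2.2.2.2.2.2.1
theorem rf42h7 : AllL LnOK rf42l27 := ck2_of (ck1_of (ck0_of rf42th.2.2.2.2.2.2.2.2.2.2.2.2.2.2.2.2.2.2.2.2.2.2.2.2.2.2.2.1) rfl rf42th.2.2.2.2.2.2.2.2.2.2.2.2.2.2.2.2.2.2.2.2.2.2.2.2.2.2.2.2.1) rf42th.2.2.2.2.2.2.2.2.2.2.2.2.2.2.2.2.2.2.2.2.2.2.2.2.2.2.2.2.2.1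
theorem rf42h8 : AllL LnOK rf42l3 := ck2_of (ck1_of (ck0_of rf42th.2.2.2.1) rfl rf42th.2.2.2.2.1) rf42th.2.2.2.2.2.1
theorem rf42h9 : AllL LnOK rf42l30 := ck2_of (ck1_of (ck0_of rf42th.2.2.2.2.2.2.2.2.2.2.2.2.2.2.2.2.2.2.2.2.2.2.2.2.2.2.2.2.2.2.1) rfl rf42th.2.2.2.2.2.2.2.2.2.2.2.2.2.2.2.2.2.2.2.2.2.2.2.2.2.2.2.2.2.2.2.1) rf42th.2.2.2.2.2.2.2.2.2.2.2.2.2.2.2.2.2.2.2.2.2.2.2.2.2.2.2.2.2.2.2.2.1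
theorem rf42h10 : AllL LnOK rf42l6 := ck2_of (ck1_of (ck0_of rf42th.2.2.2.2.2.2.1) rfl rf42th.2.2.2.2.2.2.2.1) rf42th.2.2.2.2.2.2.2.2.1
theorem rf42h11 : AllL LnOK rf42l9 := ck2_of (ck1_of (ck0_of rf42th.2.2.2.2.2.2.2.2.2.1) rfl rf42th.2.2.2.2.2.2.2.2.2.2.1) rf42th.2.2.2.2.2.2.2.2.2.2.2.1
theorem rf43h0 : AllL LnOK rf43l32 := ck2_of (ck1_of (ck0_of rf43th.2.2.2.2.2.2.2.2.2.2.2.2.2.2.2.2.2.2.2.2.2.2.2.2.2.2.2.2.2.2.2.2.1) rfl rf43th.2.2.2.2.2.2.2.2.2.2.2.2.2.2.2.2.2.2.2.2.2.2.2.2.2.2.2.2.2.2.2.2.2.1) rf43th.2.2.2.2.2.2.2.2.2.2.2.2.2.2.2.2.2.2.2.2.2.2.2.2.2.2.2.2.2.2.2.2.2.2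
theorem rf43h1 : AllL LnOK rf43l0 := ck2_of (ck1_of (ck1_of (ck0_of rf43th.1) rfl rf43th.2.1) rfl rf43th.2.2.1) rf43th.2.2.2.1
theorem rf43h2 : AllL LnOK rf43l12 := ck2_of (ck1_of (ck1_of (ck0_of rf43th.2.2.2.2.2.2.2.2.2.2.2.2.1) rfl rf43th.2.2.2.2.2.2.2.2.2.2.2.2.2.1) rfl rf43th.2.2.2.2.2.2.2.2.2.2.2.2.2.2.1) rf43th.2.2.2.2.2.2.2.2.2.2.2.2.2.2.2.1
theorem rf43h3 : AllL LnOK rf43l16 := ck2_of (ck1_of (ck1_of (ck0_of rf43th.2.2.2.2.2.2.2.2.2.2.2.2.2.2.2.2.1) rfl rf43th.2.2.2.2.2.2.2.2.2.2.2.2.2.2.2.2.2.1) rfl rf43th.2.2.2.2.2.2.2.2.2.2.2.2.2.2.2.2.2.2.1) rf43th.2.2.2.2.2.2.2.2.2.2.2.2.2.2.2.2.2.2.2.1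
theorem rf43h4 : AllL LnOK rf43l20 := ck2_of (ck1_of (ck1_of (ck0_of rf43th.2.2.2.2.2.2.2.2.2.2.2.2.2.2.2.2.2.2.2.2.1) rfl rf43th.2.2.2.2.2.2.2.2.2.2.2.2.2.2.2.2.2.2.2.2.2.1) rfl rf43th.2.2.2.2.2.2.2.2.2.2.2.2.2.2.2.2.2.2.2.2.2.2.1) rf43th.2.2.2.2.2.2.2.2.2.2.2.2.2.2.2.2.2.2.2.2.2.2.2.1
theorem rf43h5 : AllL LnOK rf43l24 := ck2_of (ck1_of (ck1_of (ck0_of rf43th.2.2.2.2.2.2.2.2.2.2.2.2.2.2.2.2.2.2.2.2.2.2.2.2.1) rfl rf43th.2.2.2.2.2.2.2.2.2.2.2.2.2.2.2.2.2.2.2.2.2.2.2.2.2.1) rfl rf43th.2.2.2.2.2.2.2.2.2.2.2.2.2.2.2.2.2.2.2.2.2.2.2.2.2.2.1) rf43th.2.2.2.2.2.2.2.2.2.2.2.2.2.2.2.2.2.2.2.2.2.2.2.2.2.2.2.1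
theorem rf43h6 : AllL LnOK rf43l28 := ck2_of (ck1_of (ck1_of (ck0_of rf43th.2.2.2.2.2.2.2.2.2.2.2.2.2.2.2.2.2.2.2.2.2.2.2.2.2.2.2.2.1) rfl rf43th.2.2.2.2.2.2.2.2.2.2.2.2.2.2.2.2.2.2.2.2.2.2.2.2.2.2.2.2.2.1) rfl rf43th.2.2.2.2.2.2.2.2.2.2.2.2.2.2.2.2.2.2.2.2.2.2.2.2.2.2.2.2.2.2.1) rf43th.2.2.2.2.2.2.2.2.2.2.2.2.2.2.2.2.2.2.2.2.2.2.2.2.2.2.2.2.2.2.2.1
theorem rf43h7 : AllL LnOK rf43l4 := ck2_of (ck1_of (ck1_of (ck0_of rf43th.2.2.2.2.1) rfl rf43th.2.2.2.2.2.1) rfl rf43th.2.2.2.2.2.2.1) rf43th.2.2.2.2.2.2.2.1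
theorem rf43h8 : AllL LnOK rf43l8 := ck2_of (ck1_of (ck1_of (ck0_of rf43th.2.2.2.2.2.2.2.2.1) rfl rf43th.2.2.2.2.2.2.2.2.2.1) rfl rf43th.2.2.2.2.2.2.2.2.2.2.1) rf43th.2.2.2.2.2.2.2.2.2.2.2.1
theorem rf40k0 : CfgOK (rf40c0.e, rf40c0.n) := red_ln rf40h12.1 rf40h12.1.1
theorem rf40k1 : CfgOK (rf40c1.e, rf40c1.n) := red_ln rf40h11.1 rf40h11.1.1
theorem rf40k2 : CfgOK (rf40c2.e, rf40c2.n) := red_ln rf40h10.1 rf40h10.1.1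
theorem rf40k3 : CfgOK (rf40c3.e, rf40c3.n) := red_ln rf40h9.1 rf40h9.1.1
theorem rf40k4 : CfgOK (rf40c4.e, rf40c4.n) := red_ln rf40h8.1 rf40h8.1.1
theorem rf40k5 : CfgOK (rf40c5.e, rf40c5.n) := red_ln rf40h6.1 rf40h6.1.1
theorem rf40k6 : CfgOK (rf40c6.e, rf40c6.n) := red_ln rf40h5.1 rf40h5.1.1
theorem rf40k7 : CfgOK (rf40c7.e, rf40c7.n) := red_ln rf40h4.1 rf40h4.1.1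
theorem rf40k8 : CfgOK (rf40c8.e, rf40c8.n) := red_ln rf40h3.1 rf40h3.1.1
theorem rf40k9 : CfgOK (rf40c9.e, rf40c9.n) := red_ln rf40h2.1 ⟨rf40h2.1.1, rf40h0.2.2.1.1⟩
theorem rf40k10 : CfgOK (rf40c10.e, rf40c10.n) := red_ln rf40h15.1 ⟨rf40h15.1.1, rf40h0.2.1.1⟩
theorem rf40k11 : CfgOK (rf40c11.e, rf40c11.n) := red_ln rf40h14.1 ⟨rf40h14.1.1, rf40h0.1.1⟩
theorem rf40k12 : CfgOK (rf40c12.e, rf40c12.n) := red_ln rf40h13.1 rf40h13.1.1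
theorem rf40k13 : CfgOK (rf40c13.e, rf40c13.n) := red_ln rf40h7.1 rf40h7.1.1
theorem rf40k14 : CfgOK (rf40c14.e, rf40c14.n) := red_ln rf40h1.1 rf40h1.1.1
theorem rf41k0 : CfgOK (rf41c0.e, rf41c0.n) := red_ln rf41h2.1 ⟨rf41h2.1.1, rf41h0.2.2.1.1⟩
theorem rf41k1 : CfgOK (rf41c1.e, rf41c1.n) := red_ln rf41h1.1 ⟨rf41h1.1.1, rf41h0.2.1.1⟩
theorem rf41k2 : CfgOK (rf41c2.e, rf41c2.n) := red_ln rf41h12.1 rf41h12.1.1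
theorem rf41k3 : CfgOK (rf41c3.e, rf41c3.n) := red_ln rf41h11.1 rf41h11.1.1
theorem rf41k4 : CfgOK (rf41c4.e, rf41c4.n) := red_ln rf41h9.1 rf41h9.1.1
theorem rf41k5 : CfgOK (rf41c5.e, rf41c5.n) := red_ln rf41h8.1 rf41h8.1.1
theorem rf41k6 : CfgOK (rf41c6.e, rf41c6.n) := red_ln rf41h7.1 rf41h7.1.1
theorem rf41k7 : CfgOK (rf41c7.e, rf41c7.n) := red_ln rf41h6.1 ⟨rf41h6.1.1, rf41h0.1.1⟩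
theorem rf41k8 : CfgOK (rf41c8.e, rf41c8.n) := red_ln rf41h5.1 rf41h5.1.1
theorem rf41k9 : CfgOK (rf41c9.e, rf41c9.n) := red_ln rf41h4.1 rf41h4.1.1
theorem rf41k10 : CfgOK (rf41c10.e, rf41c10.n) := red_ln rf41h14.1 rf41h14.1.1
theorem rf41k11 : CfgOK (rf41c11.e, rf41c11.n) := red_ln rf41h13.1 rf41h13.1.1
theorem rf41k12 : CfgOK (rf41c12.e, rf41c12.n) := red_ln rf41h10.1 rf41h10.1.1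
theorem rf41k13 : CfgOK (rf41c13.e, rf41c13.n) := red_ln rf41h3.1 rf41h3.1.1
theorem rf42k0 : CfgOK (rf42c0.e, rf42c0.n) := red_ln rf42h9.1 rf42h9.1.1
theorem rf42k1 : CfgOK (rf42c1.e, rf42c1.n) := red_ln rf42h7.1 rf42h7.1.1
theorem rf42k2 : CfgOK (rf42c2.e, rf42c2.n) := red_ln rf42h6.1 rf42h6.1.1
theorem rf42k3 : CfgOK (rf42c3.e, rf42c3.n) := red_ln rf42h5.1 rf42h5.1.1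
theorem rf42k4 : CfgOK (rf42c4.e, rf42c4.n) := red_ln rf42h4.1 rf42h4.1.1
theorem rf42k5 : CfgOK (rf42c5.e, rf42c5.n) := red_ln rf42h3.1 rf42h3.1.1
theorem rf42k6 : CfgOK (rf42c6.e, rf42c6.n) := red_ln rf42h2.1 rf42h2.1.1
theorem rf42k7 : CfgOK (rf42c7.e, rf42c7.n) := red_ln rf42h11.1 ⟨rf42h11.1.1, rf42h0.1.1⟩
theorem rf42k8 : CfgOK (rf42c8.e, rf42c8.n) := red_ln rf42h10.1 rf42h10.1.1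
theorem rf42k9 : CfgOK (rf42c9.e, rf42c9.n) := red_ln rf42h8.1 rf42h8.1.1
theorem rf42k10 : CfgOK (rf42c10.e, rf42c10.n) := red_ln rf42h1.1 rf42h1.1.1
theorem rf43k0 : CfgOK (rf43c0.e, rf43c0.n) := red_ln rf43h0.1 rf43h0.1.1
theorem rf43k1 : CfgOK (rf43c1.e, rf43c1.n) := red_ln rf43h6.1 rf43h6.1.1
theorem rf43k2 : CfgOK (rf43c2.e, rf43c2.n) := red_ln rf43h5.1 rf43h5.1.1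
theorem rf43k3 : CfgOK (rf43c3.e, rf43c3.n) := red_ln rf43h4.1 rf43h4.1.1
theorem rf43k4 : CfgOK (rf43c4.e, rf43c4.n) := red_ln rf43h3.1 rf43h3.1.1
theorem rf43k5 : CfgOK (rf43c5.e, rf43c5.n) := red_ln rf43h2.1 rf43h2.1.1
theorem rf43k6 : CfgOK (rf43c6.e, rf43c6.n) := red_ln rf43h8.1 rf43h8.1.1
theorem rf43k7 : CfgOK (rf43c7.e, rf43c7.n) := red_ln rf43h7.1 rf43h7.1.1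
theorem rf43k8 : CfgOK (rf43c8.e, rf43c8.n) := red_ln rf43h1.1 rf43h1.1.1

end Pool.Agent.Lib.G6.B
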