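import Pool.Agent.Lib.G6.BRed
import Pool.Agent.Lib.G6D.RF44
import Pool.Agent.Lib.G6D.RF45

set_option autoImplicit false
set_option maxRecDepth 100000
set_option linter.all false

namespace Pool.Agent.Lib.G6.B

theorem rf44h0 : AllL LnOK rf44l20 := ck2_of (ck1_of (ck1_of (ck0_of rf44th.2.2.2.2.2.2.2.2.2.2.2.2.2.2.2.2.2.2.2.2.1) rfl rf44th.2.2.2.2.2.2.2.2.2.2.2.2.2.2.2.2.2.2.2.2.2.1) rfl rf44th.2.2.2.2.2.2.2.2.2.2.2.2.2.2.2.2.2.2.2.2.2.2.1) rf44th.2.2.2.2.2.2.2.2.2.2.2.2.2.2.2.2.2.2.2.2.2.2.2.1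
theorem rf44h1 : AllL LnOK rf44l24 := ck2_of (ck1_of (ck1_of (ck0_of rf44th.2.2.2.2.2.2.2.2.2.2.2.2.2.2.2.2.2.2.2.2.2.2.2.2.1) rfl rf44th.2.2.2.2.2.2.2.2.2.2.2.2.2.2.2.2.2.2.2.2.2.2.2.2.2.1) rfl rf44th.2.2.2.2.2.2.2.2.2.2.2.2.2.2.2.2.2.2.2.2.2.2.2.2.2.2.1) rf44th.2.2.2.2.2.2.2.2.2.2.2.2.2.2.2.2.2.2.2.2.2.2.2.2.2.2.2.1
theorem rf44h2 : AllL LnOK rf44l28 := ck2_of (ck1_of (ck1_of (ck0_of rf44th.2.2.2.2.2.2.2.2.2.2.2.2.2.2.2.2.2.2.2.2.2.2.2.2.2.2.2.2.1) rfl rf44th.2.2.2.2.2.2.2.2.2.2.2.2.2.2.2.2.2.2.2.2.2.2.2.2.2.2.2.2.2.1) rfl rf44th.2.2.2.2.2.2.2.2.2.2.2.2.2.2.2.2.2.2.2.2.2.2.2.2.2.2.2.2.2.2.1) rf44th.2.2.2.2.2.2.2.2.2.2.2.2.2.2.2.2.2.2.2.2.2.2.2.2.2.2.2.2.2.2.2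
theorem rf44h3 : AllL LnOK rf44l0 := ck2_of (ck1_of (ck1_of (ck1_of (ck0_of rf44th.1) rfl rf44th.2.1) rfl rf44th.2.2.1) rfl rf44th.2.2.2.1) rf44th.2.2.2.2.1
theorem rf44h4 : AllL LnOK rf44l10 := ck2_of (ck1_of (ck1_of (ck1_of (ck0_of rf44th.2.2.2.2.2.2.2.2.2.2.1) rfl rf44th.2.2.2.2.2.2.2.2.2.2.2.1) rfl rf44th.2.2.2.2.2.2.2.2.2.2.2.2.1) rfl rf44th.2.2.2.2.2.2.2.2.2.2.2.2.2.1) rf44th.2.2.2.2.2.2.2.2.2.2.2.2.2.2.1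
theorem rf44h5 : AllL LnOK rf44l15 := ck2_of (ck1_of (ck1_of (ck1_of (ck0_of rf44th.2.2.2.2.2.2.2.2.2.2.2.2.2.2.2.1) rfl rf44th.2.2.2.2.2.2.2.2.2.2.2.2.2.2.2.2.1) rfl rf44th.2.2.2.2.2.2.2.2.2.2.2.2.2.2.2.2.2.1) rfl rf44th.2.2.2.2.2.2.2.2.2.2.2.2.2.2.2.2.2.2.1) rf44th.2.2.2.2.2.2.2.2.2.2.2.2.2.2.2.2.2.2.2.1
theorem rf44h6 : AllL LnOK rf44l5 := ck2_of (ck1_of (ck1_of (ck1_of (ck0_of rf44th.2.2.2.2.2.1) rfl rf44th.2.2.2.2.2.2.1) rfl rf44th.2.2.2.2.2.2.2.1) rfl rf44th.2.2.2.2.2.2.2.2.1) rf44th.2.2.2.2.2.2.2.2.2.1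
theorem rf45h0 : AllL LnOK rf45l35 := batch_of rf45th.2.2.2.2.2.2.2.2.2.2.2.2.2.2.2.2.2.2.2.2.2.2.2.2.2.2.2.2.2.2.2.2.2.2.2
theorem rf45h1 : AllL LnOK rf45l17 := ck2_of (ck1_of (ck1_of (ck1_of (ck1_of (ck0_of rf45th.2.2.2.2.2.2.2.2.2.2.2.2.2.2.2.2.2.1) rfl rf45th.2.2.2.2.2.2.2.2.2.2.2.2.2.2.2.2.2.2.1) rfl rf45th.2.2.2.2.2.2.2.2.2.2.2.2.2.2.2.2.2.2.2.1) rfl rf45th.2.2.2.2.2.2.2.2.2.2.2.2.2.2.2.2.2.2.2.2.1) rfl rf45th.2.2.2.2.2.2.2.2.2.2.2.2.2.2.2.2.2.2.2.2.2.1) rf45th.2.2.2.2.2.2.2.2.2.2.2.2.2.2.2.2.2.2.2.2.2.2.1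
theorem rf45h2 : AllL LnOK rf45l23 := ck2_of (ck1_of (ck1_of (ck1_of (ck1_of (ck0_of rf45th.2.2.2.2.2.2.2.2.2.2.2.2.2.2.2.2.2.2.2.2.2.2.2.1) rfl rf45th.2.2.2.2.2.2.2.2.2.2.2.2.2.2.2.2.2.2.2.2.2.2.2.2.1) rfl rf45th.2.2.2.2.2.2.2.2.2.2.2.2.2.2.2.2.2.2.2.2.2.2.2.2.2.1) rfl rf45th.2.2.2.2.2.2.2.2.2.2.2.2.2.2.2.2.2.2.2.2.2.2.2.2.2.2.1) rfl rf45th.2.2.2.2.2.2.2.2.2.2.2.2.2.2.2.2.2.2.2.2.2.2.2.2.2.2.2.1) rf45th.2.2.2.2.2.2.2.2.2.2.2.2.2.2.2.2.2.2.2.2.2.2.2.2.2.2.2.2.1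
theorem rf45h3 : AllL LnOK rf45l29 := ck2_of (ck1_of (ck1_of (ck1_of (ck1_of (ck0_of rf45th.2.2.2.2.2.2.2.2.2.2.2.2.2.2.2.2.2.2.2.2.2.2.2.2.2.2.2.2.2.1) rfl rf45th.2.2.2.2.2.2.2.2.2.2.2.2.2.2.2.2.2.2.2.2.2.2.2.2.2.2.2.2.2.2.1) rfl rf45th.2.2.2.2.2.2.2.2.2.2.2.2.2.2.2.2.2.2.2.2.2.2.2.2.2.2.2.2.2.2.2.1) rfl rf45th.2.2.2.2.2.2.2.2.2.2.2.2.2.2.2.2.2.2.2.2.2.2.2.2.2.2.2.2.2.2.2.2.1) rfl rf45th.2.2.2.2.2.2.2.2.2.2.2.2.2.2.2.2.2.2.2.2.2.2.2.2.2.2.2.2.2.2.2.2.2.1) rf45th.2.2.2.2.2.2.2.2.2.2.2.2.2.2.2.2.2.2.2.2.2.2.2.2.2.2.2.2.2.2.2.2.2.2.1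
theorem rf45h4 : AllL LnOK rf45l10 := ck2_of (ck1_of (ck1_of (ck1_of (ck1_of (ck1_of (ck0_of rf45th.2.2.2.2.2.2.2.2.2.2.1) rfl rf45th.2.2.2.2.2.2.2.2.2.2.2.1) rfl rf45th.2.2.2.2.2.2.2.2.2.2.2.2.1) rfl rf45th.2.2.2.2.2.2.2.2.2.2.2.2.2.1) rfl rf45th.2.2.2.2.2.2.2.2.2.2.2.2.2.2.1) rfl rf45th.2.2.2.2.2.2.2.2.2.2.2.2.2.2.2.1) rf45th.2.2.2.2.2.2.2.2.2.2.2.2.2.2.2.2.1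
theorem rf45h5 : AllL LnOK rf45l0 := ck2_of (ck1_of (ck1_of (ck1_of (ck1_of (ck1_of (ck1_of (ck1_of (ck1_of (ck0_of rf45th.1) rfl rf45th.2.1) rfl rf45th.2.2.1) rfl rf45th.2.2.2.1) rfl rf45th.2.2.2.2.1) rfl rf45th.2.2.2.2.2.1) rfl rf45th.2.2.2.2.2.2.1) rfl rf45th.2.2.2.2.2.2.2.1) rfl rf45th.2.2.2.2.2.2.2.2.1) rf45th.2.2.2.2.2.2.2.2.2.1
theorem rf44k0 : CfgOK (rf44c0.e, rf44c0.n) := red_ln rf44h2.1 rf44h2.1.1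
theorem rf44k1 : CfgOK (rf44c1.e, rf44c1.n) := red_ln rf44h1.1 rf44h1.1.1
theorem rf44k2 : CfgOK (rf44c2.e, rf44c2.n) := red_ln rf44h0.1 rf44h0.1.1
theorem rf44k3 : CfgOK (rf44c3.e, rf44c3.n) := red_ln rf44h5.1 rf44h5.1.1
theorem rf44k4 : CfgOK (rf44c4.e, rf44c4.n) := red_ln rf44h4.1 rf44h4.1.1
theorem rf44k5 : CfgOK (rf44c5.e, rf44c5.n) := red_ln rf44h6.1 rf44h6.1.1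
theorem rf44k6 : CfgOK (rf44c6.e, rf44c6.n) := red_ln rf44h3.1 rf44h3.1.1
theorem rf45k0 : CfgOK (rf45c0.e, rf45c0.n) := red_ln rf45h3.1 rf45h3.1.1
theorem rf45k1 : CfgOK (rf45c1.e, rf45c1.n) := red_ln rf45h2.1 rf45h2.1.1
theorem rf45k2 : CfgOK (rf45c2.e, rf45c2.n) := red_ln rf45h1.1 ⟨rf45h1.1.1, rf45h0.1.1⟩
theorem rf45k3 : CfgOK (rf45c3.e, rf45c3.n) := red_ln rf45h4.1 rf45h4.1.1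
theorem rf45k4 : CfgOK (rf45c4.e, rf45c4.n) := red_ln rf45h5.1 rf45h5.1.1

end Pool.Agent.Lib.G6.B
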