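import Pool.Agent.Lib.G6.BRed
import Pool.Agent.Lib.G6D.RF10

set_option autoImplicit false
set_option maxRecDepth 100000
set_option linter.all false

namespace Pool.Agent.Lib.G6.B

theorem rf10h0 : AllL LnOK rf10l0 := batch_of rf10th.1
theorem rf10h1 : AllL LnOK rf10l1 := batch_of rf10th.2.1
theorem rf10h2 : AllL LnOK rf10l10 := batch_of rf10th.2.2.2.2.2.2.2.2.2.2.1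
theorem rf10h3 : AllL LnOK rf10l11 := batch_of rf10th.2.2.2.2.2.2.2.2.2.2.2.1
theorem rf10h4 : AllL LnOK rf10l12 := batch_of rf10th.2.2.2.2.2.2.2.2.2.2.2.2.1
theorem rf10h5 : AllL LnOK rf10l13 := batch_of rf10th.2.2.2.2.2.2.2.2.2.2.2.2.2.1
theorem rf10h6 : AllL LnOK rf10l14 := batch_of rf10th.2.2.2.2.2.2.2.2.2.2.2.2.2.2.1
theorem rf10h7 : AllL LnOK rf10l15 := batch_of rf10th.2.2.2.2.2.2.2.2.2.2.2.2.2.2.2.1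
theorem rf10h8 : AllL LnOK rf10l16 := batch_of rf10th.2.2.2.2.2.2.2.2.2.2.2.2.2.2.2.2.1
theorem rf10h9 : AllL LnOK rf10l17 := batch_of rf10th.2.2.2.2.2.2.2.2.2.2.2.2.2.2.2.2.2.1
theorem rf10h10 : AllL LnOK rf10l18 := batch_of rf10th.2.2.2.2.2.2.2.2.2.2.2.2.2.2.2.2.2.2.1
theorem rf10h11 : AllL LnOK rf10l19 := batch_of rf10th.2.2.2.2.2.2.2.2.2.2.2.2.2.2.2.2.2.2.2.1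
theorem rf10h12 : AllL LnOK rf10l2 := batch_of rf10th.2.2.1
theorem rf10h13 : AllL LnOK rf10l20 := batch_of rf10th.2.2.2.2.2.2.2.2.2.2.2.2.2.2.2.2.2.2.2.2.1
theorem rf10h14 : AllL LnOK rf10l21 := batch_of rf10th.2.2.2.2.2.2.2.2.2.2.2.2.2.2.2.2.2.2.2.2.2.1
theorem rf10h15 : AllL LnOK rf10l22 := batch_of rf10th.2.2.2.2.2.2.2.2.2.2.2.2.2.2.2.2.2.2.2.2.2.2.1
theorem rf10h16 : AllL LnOK rf10l23 := batch_of rf10th.2.2.2.2.2.2.2.2.2.2.2.2.2.2.2.2.2.2.2.2.2.2.2.1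
theorem rf10h17 : AllL LnOK rf10l24 := batch_of rf10th.2.2.2.2.2.2.2.2.2.2.2.2.2.2.2.2.2.2.2.2.2.2.2.2
theorem rf10h18 : AllL LnOK rf10l3 := batch_of rf10th.2.2.2.1
theorem rf10h19 : AllL LnOK rf10l4 := batch_of rf10th.2.2.2.2.1
theorem rf10h20 : AllL LnOK rf10l5 := batch_of rf10th.2.2.2.2.2.1
theorem rf10h21 : AllL LnOK rf10l6 := batch_of rf10th.2.2.2.2.2.2.1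
theorem rf10h22 : AllL LnOK rf10l7 := batch_of rf10th.2.2.2.2.2.2.2.1
theorem rf10h23 : AllL LnOK rf10l8 := batch_of rf10th.2.2.2.2.2.2.2.2.1
theorem rf10h24 : AllL LnOK rf10l9 := batch_of rf10th.2.2.2.2.2.2.2.2.2.1
theorem rf10k0 : CfgOK (rf10c0.e, rf10c0.n) := red_ln rf10h7.1 rf10h7.1.1
theorem rf10k1 : CfgOK (rf10c1.e, rf10c1.n) := red_ln rf10h6.2.2.2.2.2.2.2.2.2.2.2.2.2.2.1 rf10h6.2.2.2.2.2.2.2.2.2.2.2.2.2.2.1.1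
theorem rf10k2 : CfgOK (rf10c2.e, rf10c2.n) := red_ln rf10h6.2.2.2.2.2.2.2.2.2.2.2.2.2.1 rf10h6.2.2.2.2.2.2.2.2.2.2.2.2.2.1.1
theorem rf10k3 : CfgOK (rf10c3.e, rf10c3.n) := red_ln rf10h6.2.2.2.2.2.2.2.2.2.2.2.2.1 rf10h6.2.2.2.2.2.2.2.2.2.2.2.2.1.1
theorem rf10k4 : CfgOK (rf10c4.e, rf10c4.n) := red_ln rf10h6.2.2.2.2.2.2.2.2.2.2.2.1 rf10h6.2.2.2.2.2.2.2.2.2.2.2.1.1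
theorem rf10k5 : CfgOK (rf10c5.e, rf10c5.n) := red_ln rf10h6.2.2.2.2.2.2.2.2.2.2.1 rf10h6.2.2.2.2.2.2.2.2.2.2.1.1
theorem rf10k6 : CfgOK (rf10c6.e, rf10c6.n) := red_ln rf10h6.2.2.2.2.2.2.2.2.2.1 rf10h6.2.2.2.2.2.2.2.2.2.1.1
theorem rf10k7 : CfgOK (rf10c7.e, rf10c7.n) := red_ln rf10h6.2.2.2.2.2.2.2.2.1 rf10h6.2.2.2.2.2.2.2.2.1.1
theorem rf10k8 : CfgOK (rf10c8.e, rf10c8.n) := red_ln rf10h6.2.2.2.2.2.2.2.1 ⟨rf10h6.2.2.2.2.2.2.2.1.1, rf10h10.2.2.2.2.2.2.2.2.2.2.2.2.2.2.2.2.2.2.2.2.2.2.2.1.1⟩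
theorem rf10k9 : CfgOK (rf10c9.e, rf10c9.n) := red_ln rf10h6.2.2.2.2.2.2.1 ⟨rf10h6.2.2.2.2.2.2.1.1, rf10h10.2.2.2.2.2.2.2.2.2.2.2.2.2.2.2.2.2.2.2.2.2.2.1.1⟩
theorem rf10k10 : CfgOK (rf10c10.e, rf10c10.n) := red_ln rf10h6.2.2.2.2.2.1 ⟨rf10h6.2.2.2.2.2.1.1, rf10h10.2.2.2.2.2.2.2.2.2.2.2.2.2.2.2.2.2.2.2.2.2.1.1⟩
theorem rf10k11 : CfgOK (rf10c11.e, rf10c11.n) := red_ln rf10h6.2.2.2.2.1 ⟨rf10h6.2.2.2.2.1.1, rf10h10.2.2.2.2.2.2.2.2.2.2.2.2.2.2.2.2.2.2.2.2.1.1⟩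
theorem rf10k12 : CfgOK (rf10c12.e, rf10c12.n) := red_ln rf10h6.2.2.2.1 ⟨rf10h6.2.2.2.1.1, rf10h10.2.2.2.2.2.2.2.2.2.2.2.2.2.2.2.2.2.2.2.1.1⟩
theorem rf10k13 : CfgOK (rf10c13.e, rf10c13.n) := red_ln rf10h6.2.2.1 ⟨rf10h6.2.2.1.1, rf10h10.2.2.2.2.2.2.2.2.2.2.2.2.2.2.2.2.2.2.1.1⟩
theorem rf10k14 : CfgOK (rf10c14.e, rf10c14.n) := red_ln rf10h6.2.1 ⟨rf10h6.2.1.1, rf10h10.2.2.2.2.2.2.2.2.2.2.2.2.2.2.2.2.2.1.1⟩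
theorem rf10k15 : CfgOK (rf10c15.e, rf10c15.n) := red_ln rf10h6.1 ⟨rf10h6.1.1, rf10h10.2.2.2.2.2.2.2.2.2.2.2.2.2.2.2.2.1.1⟩
theorem rf10k16 : CfgOK (rf10c16.e, rf10c16.n) := red_ln rf10h5.2.2.2.2.2.2.2.2.2.2.2.2.2.2.1 ⟨rf10h5.2.2.2.2.2.2.2.2.2.2.2.2.2.2.1.1, rf10h10.2.2.2.2.2.2.2.2.2.2.2.2.2.2.2.1.1⟩
theorem rf10k17 : CfgOK (rf10c17.e, rf10c17.n) := red_ln rf10h5.2.2.2.2.2.2.2.2.2.2.2.2.2.1 ⟨rf10h5.2.2.2.2.2.2.2.2.2.2.2.2.2.1.1, rf10h10.2.2.2.2.2.2.2.2.2.2.2.2.2.2.1.1⟩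
theorem rf10k18 : CfgOK (rf10c18.e, rf10c18.n) := red_ln rf10h5.2.2.2.2.2.2.2.2.2.2.2.2.1 ⟨rf10h5.2.2.2.2.2.2.2.2.2.2.2.2.1.1, rf10h10.2.2.2.2.2.2.2.2.2.2.2.2.2.1.1⟩
theorem rf10k19 : CfgOK (rf10c19.e, rf10c19.n) := red_ln rf10h5.2.2.2.2.2.2.2.2.2.2.2.1 ⟨rf10h5.2.2.2.2.2.2.2.2.2.2.2.1.1, rf10h10.2.2.2.2.2.2.2.2.2.2.2.2.1.1⟩
theorem rf10k20 : CfgOK (rf10c20.e, rf10c20.n) := red_ln rf10h5.2.2.2.2.2.2.2.2.2.2.1 ⟨rf10h5.2.2.2.2.2.2.2.2.2.2.1.1, rf10h10.2.2.2.2.2.2.2.2.2.2.2.1.1⟩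
theorem rf10k21 : CfgOK (rf10c21.e, rf10c21.n) := red_ln rf10h5.2.2.2.2.2.2.2.2.2.1 ⟨rf10h5.2.2.2.2.2.2.2.2.2.1.1, rf10h10.2.2.2.2.2.2.2.2.2.2.1.1⟩
theorem rf10k22 : CfgOK (rf10c22.e, rf10c22.n) := red_ln rf10h5.2.2.2.2.2.2.2.2.1 ⟨rf10h5.2.2.2.2.2.2.2.2.1.1, rf10h10.2.2.2.2.2.2.2.2.2.1.1⟩
theorem rf10k23 : CfgOK (rf10c23.e, rf10c23.n) := red_ln rf10h5.2.2.2.2.2.2.2.1 ⟨rf10h5.2.2.2.2.2.2.2.1.1, rf10h10.2.2.2.2.2.2.2.2.1.1⟩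
theorem rf10k24 : CfgOK (rf10c24.e, rf10c24.n) := red_ln rf10h5.2.2.2.2.2.2.1 ⟨rf10h5.2.2.2.2.2.2.1.1, rf10h10.2.2.2.2.2.2.2.1.1⟩
theorem rf10k25 : CfgOK (rf10c25.e, rf10c25.n) := red_ln rf10h5.2.2.2.2.2.1 ⟨⟨rf10h5.2.2.2.2.2.1.1, rf10h10.2.2.2.2.2.2.1.1⟩, ⟨rf10h11.2.2.2.2.2.2.2.2.2.2.2.2.2.1.1, rf10h14.2.2.2.2.2.2.2.2.2.2.2.2.2.2.2.2.1.1⟩⟩
theorem rf10k26 : CfgOK (rf10c26.e, rf10c26.n) := red_ln rf10h5.2.2.2.2.1 ⟨⟨rf10h5.2.2.2.2.1.1, rf10h10.2.2.2.2.2.1.1⟩, ⟨rf10h15.2.2.2.2.2.2.2.1.1, rf10h14.2.2.2.2.2.2.2.2.2.2.2.2.2.2.2.1.1⟩⟩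
theorem rf10k27 : CfgOK (rf10c27.e, rf10c27.n) := red_ln rf10h5.2.2.2.1 ⟨⟨rf10h5.2.2.2.1.1, rf10h10.2.2.2.2.1.1⟩, ⟨rf10h11.2.2.2.2.2.2.2.2.2.2.2.2.1.1, rf10h14.2.2.2.2.2.2.2.2.2.2.2.2.2.2.1.1⟩⟩
theorem rf10k28 : CfgOK (rf10c28.e, rf10c28.n) := red_ln rf10h5.2.2.1 ⟨rf10h5.2.2.1.1, rf10h15.2.2.2.2.2.2.2.2.2.2.2.2.2.2.1.1⟩
theorem rf10k29 : CfgOK (rf10c29.e, rf10c29.n) := red_ln rf10h5.2.1 ⟨rf10h5.2.1.1, rf10h11.2.2.2.2.2.2.2.2.2.2.2.2.2.2.2.2.2.2.2.2.2.1.1⟩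
theorem rf10k30 : CfgOK (rf10c30.e, rf10c30.n) := red_ln rf10h5.1 ⟨rf10h5.1.1, rf10h11.2.2.2.2.2.2.2.2.2.2.2.2.2.2.2.2.2.2.1.1⟩
theorem rf10k31 : CfgOK (rf10c31.e, rf10c31.n) := red_ln rf10h4.2.2.2.2.2.2.2.2.2.2.2.2.2.2.1 ⟨rf10h4.2.2.2.2.2.2.2.2.2.2.2.2.2.2.1.1, rf10h11.2.2.2.2.2.2.2.2.2.2.2.2.2.2.2.2.2.1.1⟩
theorem rf10k32 : CfgOK (rf10c32.e, rf10c32.n) := red_ln rf10h4.2.2.2.2.2.2.2.2.2.2.2.2.2.1 ⟨rf10h4.2.2.2.2.2.2.2.2.2.2.2.2.2.1.1, rf10h15.2.2.2.2.2.2.2.2.2.2.1.1⟩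
theorem rf10k33 : CfgOK (rf10c33.e, rf10c33.n) := red_ln rf10h4.2.2.2.2.2.2.2.2.2.2.2.2.1 ⟨rf10h4.2.2.2.2.2.2.2.2.2.2.2.2.1.1, rf10h15.2.2.2.2.2.2.2.2.2.1.1⟩
theorem rf10k34 : CfgOK (rf10c34.e, rf10c34.n) := red_ln rf10h4.2.2.2.2.2.2.2.2.2.2.2.1 ⟨rf10h4.2.2.2.2.2.2.2.2.2.2.2.1.1, rf10h15.2.2.2.2.2.2.2.2.1.1⟩
theorem rf10k35 : CfgOK (rf10c35.e, rf10c35.n) := red_ln rf10h4.2.2.2.2.2.2.2.2.2.2.1 ⟨rf10h4.2.2.2.2.2.2.2.2.2.2.1.1, rf10h11.2.2.2.2.2.2.2.2.2.2.2.2.2.2.2.2.1.1⟩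
theorem rf10k36 : CfgOK (rf10c36.e, rf10c36.n) := red_ln rf10h4.2.2.2.2.2.2.2.2.2.1 ⟨⟨rf10h4.2.2.2.2.2.2.2.2.2.1.1, rf10h11.2.2.2.2.2.2.2.2.2.2.2.2.2.2.2.1.1⟩, ⟨rf10h10.2.2.2.1.1, rf10h14.2.2.2.2.2.2.2.2.2.2.2.2.2.1.1⟩⟩
theorem rf10k37 : CfgOK (rf10c37.e, rf10c37.n) := red_ln rf10h4.2.2.2.2.2.2.2.2.1 ⟨rf10h4.2.2.2.2.2.2.2.2.1.1, rf10h11.2.2.2.2.2.2.2.2.2.2.2.1.1⟩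
theorem rf10k38 : CfgOK (rf10c38.e, rf10c38.n) := red_ln rf10h4.2.2.2.2.2.2.2.1 ⟨rf10h4.2.2.2.2.2.2.2.1.1, rf10h15.2.2.2.2.2.2.1.1⟩
theorem rf10k39 : CfgOK (rf10c39.e, rf10c39.n) := red_ln rf10h4.2.2.2.2.2.2.1 ⟨rf10h4.2.2.2.2.2.2.1.1, rf10h15.2.2.2.2.2.1.1⟩
theorem rf10k40 : CfgOK (rf10c40.e, rf10c40.n) := red_ln rf10h4.2.2.2.2.2.1 ⟨rf10h4.2.2.2.2.2.1.1, rf10h15.2.2.2.2.1.1⟩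
theorem rf10k41 : CfgOK (rf10c41.e, rf10c41.n) := red_ln rf10h4.2.2.2.2.1 ⟨rf10h4.2.2.2.2.1.1, rf10h15.2.2.2.1.1⟩
theorem rf10k42 : CfgOK (rf10c42.e, rf10c42.n) := red_ln rf10h4.2.2.2.1 ⟨rf10h4.2.2.2.1.1, rf10h11.2.2.2.2.2.2.2.2.2.2.1.1⟩
theorem rf10k43 : CfgOK (rf10c43.e, rf10c43.n) := red_ln rf10h4.2.2.1 ⟨rf10h4.2.2.1.1, rf10h11.2.2.2.2.2.2.2.1.1⟩
theorem rf10k44 : CfgOK (rf10c44.e, rf10c44.n) := red_ln rf10h4.2.1 ⟨⟨rf10h4.2.1.1, rf10h11.2.2.1.1⟩, ⟨rf10h10.2.2.1.1, rf10h14.2.2.2.2.2.2.2.2.2.2.2.2.1.1⟩⟩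
theorem rf10k45 : CfgOK (rf10c45.e, rf10c45.n) := red_ln rf10h4.1 rf10h4.1.1
theorem rf10k46 : CfgOK (rf10c46.e, rf10c46.n) := red_ln rf10h3.2.2.2.2.2.2.2.2.2.2.2.2.2.2.1 rf10h3.2.2.2.2.2.2.2.2.2.2.2.2.2.2.1.1
theorem rf10k47 : CfgOK (rf10c47.e, rf10c47.n) := red_ln rf10h3.2.2.2.2.2.2.2.2.2.2.2.2.2.1 rf10h3.2.2.2.2.2.2.2.2.2.2.2.2.2.1.1
theorem rf10k48 : CfgOK (rf10c48.e, rf10c48.n) := red_ln rf10h3.2.2.2.2.2.2.2.2.2.2.2.2.1 rf10h3.2.2.2.2.2.2.2.2.2.2.2.2.1.1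
theorem rf10k49 : CfgOK (rf10c49.e, rf10c49.n) := red_ln rf10h3.2.2.2.2.2.2.2.2.2.2.2.1 rf10h3.2.2.2.2.2.2.2.2.2.2.2.1.1
theorem rf10k50 : CfgOK (rf10c50.e, rf10c50.n) := red_ln rf10h3.2.2.2.2.2.2.2.2.2.2.1 rf10h3.2.2.2.2.2.2.2.2.2.2.1.1
theorem rf10k51 : CfgOK (rf10c51.e, rf10c51.n) := red_ln rf10h3.2.2.2.2.2.2.2.2.2.1 rf10h3.2.2.2.2.2.2.2.2.2.1.1
theorem rf10k52 : CfgOK (rf10c52.e, rf10c52.n) := red_ln rf10h3.2.2.2.2.2.2.2.2.1 rf10h3.2.2.2.2.2.2.2.2.1.1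
theorem rf10k53 : CfgOK (rf10c53.e, rf10c53.n) := red_ln rf10h3.2.2.2.2.2.2.2.1 rf10h3.2.2.2.2.2.2.2.1.1
theorem rf10k54 : CfgOK (rf10c54.e, rf10c54.n) := red_ln rf10h3.2.2.2.2.2.2.1 rf10h3.2.2.2.2.2.2.1.1
theorem rf10k55 : CfgOK (rf10c55.e, rf10c55.n) := red_ln rf10h3.2.2.2.2.2.1 rf10h3.2.2.2.2.2.1.1
theorem rf10k56 : CfgOK (rf10c56.e, rf10c56.n) := red_ln rf10h3.2.2.2.2.1 rf10h3.2.2.2.2.1.1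
theorem rf10k57 : CfgOK (rf10c57.e, rf10c57.n) := red_ln rf10h3.2.2.2.1 rf10h3.2.2.2.1.1
theorem rf10k58 : CfgOK (rf10c58.e, rf10c58.n) := red_ln rf10h3.2.2.1 rf10h3.2.2.1.1
theorem rf10k59 : CfgOK (rf10c59.e, rf10c59.n) := red_ln rf10h3.2.1 rf10h3.2.1.1
theorem rf10k60 : CfgOK (rf10c60.e, rf10c60.n) := red_ln rf10h3.1 rf10h3.1.1
theorem rf10k61 : CfgOK (rf10c61.e, rf10c61.n) := red_ln rf10h2.2.2.2.2.2.2.2.2.2.2.2.2.2.2.1 rf10h2.2.2.2.2.2.2.2.2.2.2.2.2.2.2.1.1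
theorem rf10k62 : CfgOK (rf10c62.e, rf10c62.n) := red_ln rf10h2.2.2.2.2.2.2.2.2.2.2.2.2.2.1 rf10h2.2.2.2.2.2.2.2.2.2.2.2.2.2.1.1
theorem rf10k63 : CfgOK (rf10c63.e, rf10c63.n) := red_ln rf10h2.2.2.2.2.2.2.2.2.2.2.2.2.1 rf10h2.2.2.2.2.2.2.2.2.2.2.2.2.1.1
theorem rf10k64 : CfgOK (rf10c64.e, rf10c64.n) := red_ln rf10h2.2.2.2.2.2.2.2.2.2.2.2.1 rf10h2.2.2.2.2.2.2.2.2.2.2.2.1.1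
theorem rf10k65 : CfgOK (rf10c65.e, rf10c65.n) := red_ln rf10h2.2.2.2.2.2.2.2.2.2.2.1 rf10h2.2.2.2.2.2.2.2.2.2.2.1.1
theorem rf10k66 : CfgOK (rf10c66.e, rf10c66.n) := red_ln rf10h2.2.2.2.2.2.2.2.2.2.1 rf10h2.2.2.2.2.2.2.2.2.2.1.1
theorem rf10k67 : CfgOK (rf10c67.e, rf10c67.n) := red_ln rf10h2.2.2.2.2.2.2.2.2.1 rf10h2.2.2.2.2.2.2.2.2.1.1
theorem rf10k68 : CfgOK (rf10c68.e, rf10c68.n) := red_ln rf10h2.2.2.2.2.2.2.2.1 rf10h2.2.2.2.2.2.2.2.1.1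
theorem rf10k69 : CfgOK (rf10c69.e, rf10c69.n) := red_ln rf10h2.2.2.2.2.2.2.1 rf10h2.2.2.2.2.2.2.1.1
theorem rf10k70 : CfgOK (rf10c70.e, rf10c70.n) := red_ln rf10h2.2.2.2.2.2.1 rf10h2.2.2.2.2.2.1.1
theorem rf10k71 : CfgOK (rf10c71.e, rf10c71.n) := red_ln rf10h2.2.2.2.2.1 rf10h2.2.2.2.2.1.1
theorem rf10k72 : CfgOK (rf10c72.e, rf10c72.n) := red_ln rf10h2.2.2.2.1 rf10h2.2.2.2.1.1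
theorem rf10k73 : CfgOK (rf10c73.e, rf10c73.n) := red_ln rf10h2.2.2.1 rf10h2.2.2.1.1
theorem rf10k74 : CfgOK (rf10c74.e, rf10c74.n) := red_ln rf10h2.2.1 rf10h2.2.1.1
theorem rf10k75 : CfgOK (rf10c75.e, rf10c75.n) := red_ln rf10h2.1 rf10h2.1.1
theorem rf10k76 : CfgOK (rf10c76.e, rf10c76.n) := red_ln rf10h24.2.2.2.2.2.2.2.2.2.2.2.2.2.2.1 rf10h24.2.2.2.2.2.2.2.2.2.2.2.2.2.2.1.1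
theorem rf10k77 : CfgOK (rf10c77.e, rf10c77.n) := red_ln rf10h24.2.2.2.2.2.2.2.2.2.2.2.2.2.1 rf10h24.2.2.2.2.2.2.2.2.2.2.2.2.2.1.1
theorem rf10k78 : CfgOK (rf10c78.e, rf10c78.n) := red_ln rf10h24.2.2.2.2.2.2.2.2.2.2.2.2.1 rf10h24.2.2.2.2.2.2.2.2.2.2.2.2.1.1
theorem rf10k79 : CfgOK (rf10c79.e, rf10c79.n) := red_ln rf10h24.2.2.2.2.2.2.2.2.2.2.2.1 rf10h24.2.2.2.2.2.2.2.2.2.2.2.1.1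
theorem rf10k80 : CfgOK (rf10c80.e, rf10c80.n) := red_ln rf10h24.2.2.2.2.2.2.2.2.2.2.1 rf10h24.2.2.2.2.2.2.2.2.2.2.1.1
theorem rf10k81 : CfgOK (rf10c81.e, rf10c81.n) := red_ln rf10h24.2.2.2.2.2.2.2.2.2.1 rf10h24.2.2.2.2.2.2.2.2.2.1.1
theorem rf10k82 : CfgOK (rf10c82.e, rf10c82.n) := red_ln rf10h24.2.2.2.2.2.2.2.2.1 rf10h24.2.2.2.2.2.2.2.2.1.1
theorem rf10k83 : CfgOK (rf10c83.e, rf10c83.n) := red_ln rf10h24.2.2.2.2.2.2.2.1 ⟨rf10h24.2.2.2.2.2.2.2.1.1, rf10h10.2.1.1⟩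
theorem rf10k84 : CfgOK (rf10c84.e, rf10c84.n) := red_ln rf10h24.2.2.2.2.2.2.1 ⟨rf10h24.2.2.2.2.2.2.1.1, rf10h10.1.1⟩
theorem rf10k85 : CfgOK (rf10c85.e, rf10c85.n) := red_ln rf10h24.2.2.2.2.2.1 ⟨rf10h24.2.2.2.2.2.1.1, rf10h9.2.2.2.2.2.2.2.2.2.2.2.2.2.2.2.2.2.2.2.2.2.2.2.2.2.2.2.2.2.2.2.2.2.2.2.2.2.2.2.1.1⟩
theorem rf10k86 : CfgOK (rf10c86.e, rf10c86.n) := red_ln rf10h24.2.2.2.2.1 ⟨rf10h24.2.2.2.2.1.1, rf10h9.2.2.2.2.2.2.2.2.2.2.2.2.2.2.2.2.2.2.2.2.2.2.2.2.2.2.2.2.2.2.2.2.2.2.2.2.2.2.1.1⟩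
theorem rf10k87 : CfgOK (rf10c87.e, rf10c87.n) := red_ln rf10h24.2.2.2.1 ⟨rf10h24.2.2.2.1.1, rf10h9.2.2.2.2.2.2.2.2.2.2.2.2.2.2.2.2.2.2.2.2.2.2.2.2.2.2.2.2.2.2.2.2.2.2.2.2.2.1.1⟩
theorem rf10k88 : CfgOK (rf10c88.e, rf10c88.n) := red_ln rf10h24.2.2.1 ⟨rf10h24.2.2.1.1, rf10h9.2.2.2.2.2.2.2.2.2.2.2.2.2.2.2.2.2.2.2.2.2.2.2.2.2.2.2.2.2.2.2.2.2.2.2.2.1.1⟩
theorem rf10k89 : CfgOK (rf10c89.e, rf10c89.n) := red_ln rf10h24.2.1 ⟨rf10h24.2.1.1, rf10h9.2.2.2.2.2.2.2.2.2.2.2.2.2.2.2.2.2.2.2.2.2.2.2.2.2.2.2.2.2.2.2.2.2.2.2.1.1⟩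
theorem rf10k90 : CfgOK (rf10c90.e, rf10c90.n) := red_ln rf10h24.1 ⟨rf10h24.1.1, rf10h9.2.2.2.2.2.2.2.2.2.2.2.2.2.2.2.2.2.2.2.2.2.2.2.2.2.2.2.2.2.2.2.2.2.2.1.1⟩
theorem rf10k91 : CfgOK (rf10c91.e, rf10c91.n) := red_ln rf10h23.2.2.2.2.2.2.2.2.2.2.2.2.2.2.1 ⟨rf10h23.2.2.2.2.2.2.2.2.2.2.2.2.2.2.1.1, rf10h9.2.2.2.2.2.2.2.2.2.2.2.2.2.2.2.2.2.2.2.2.2.2.2.2.2.2.2.2.2.2.2.2.2.1.1⟩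
theorem rf10k92 : CfgOK (rf10c92.e, rf10c92.n) := red_ln rf10h23.2.2.2.2.2.2.2.2.2.2.2.2.2.1 ⟨rf10h23.2.2.2.2.2.2.2.2.2.2.2.2.2.1.1, rf10h9.2.2.2.2.2.2.2.2.2.2.2.2.2.2.2.2.2.2.2.2.2.2.2.2.2.2.2.2.2.2.2.2.1.1⟩
theorem rf10k93 : CfgOK (rf10c93.e, rf10c93.n) := red_ln rf10h23.2.2.2.2.2.2.2.2.2.2.2.2.1 ⟨rf10h23.2.2.2.2.2.2.2.2.2.2.2.2.1.1, rf10h9.2.2.2.2.2.2.2.2.2.2.2.2.2.2.2.2.2.2.2.2.2.2.2.2.2.2.2.2.2.2.2.1.1⟩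
theorem rf10k94 : CfgOK (rf10c94.e, rf10c94.n) := red_ln rf10h23.2.2.2.2.2.2.2.2.2.2.2.1 ⟨rf10h23.2.2.2.2.2.2.2.2.2.2.2.1.1, rf10h9.2.2.2.2.2.2.2.2.2.2.2.2.2.2.2.2.2.2.2.2.2.2.2.2.2.2.2.2.2.2.1.1⟩
theorem rf10k95 : CfgOK (rf10c95.e, rf10c95.n) := red_ln rf10h23.2.2.2.2.2.2.2.2.2.2.1 ⟨rf10h23.2.2.2.2.2.2.2.2.2.2.1.1, rf10h9.2.2.2.2.2.2.2.2.2.2.2.2.2.2.2.2.2.2.2.2.2.2.2.2.2.2.2.2.2.1.1⟩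
theorem rf10k96 : CfgOK (rf10c96.e, rf10c96.n) := red_ln rf10h23.2.2.2.2.2.2.2.2.2.1 ⟨rf10h23.2.2.2.2.2.2.2.2.2.1.1, rf10h9.2.2.2.2.2.2.2.2.2.2.2.2.2.2.2.2.2.2.2.2.2.2.2.2.2.2.2.2.1.1⟩
theorem rf10k97 : CfgOK (rf10c97.e, rf10c97.n) := red_ln rf10h23.2.2.2.2.2.2.2.2.1 ⟨rf10h23.2.2.2.2.2.2.2.2.1.1, rf10h9.2.2.2.2.2.2.2.2.2.2.2.2.2.2.2.2.2.2.2.2.2.2.2.2.2.2.2.1.1⟩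
theorem rf10k98 : CfgOK (rf10c98.e, rf10c98.n) := red_ln rf10h23.2.2.2.2.2.2.2.1 ⟨rf10h23.2.2.2.2.2.2.2.1.1, rf10h9.2.2.2.2.2.2.2.2.2.2.2.2.2.2.2.2.2.2.2.2.2.2.2.2.2.2.1.1⟩
theorem rf10k99 : CfgOK (rf10c99.e, rf10c99.n) := red_ln rf10h23.2.2.2.2.2.2.1 ⟨rf10h23.2.2.2.2.2.2.1.1, rf10h9.2.2.2.2.2.2.2.2.2.2.2.2.2.2.2.2.2.2.2.2.2.2.2.2.2.1.1⟩
theorem rf10k100 : CfgOK (rf10c100.e, rf10c100.n) := red_ln rf10h23.2.2.2.2.2.1 ⟨rf10h23.2.2.2.2.2.1.1, rf10h9.2.2.2.2.2.2.2.2.2.2.2.2.2.2.2.2.2.2.2.2.2.2.2.2.1.1⟩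
theorem rf10k101 : CfgOK (rf10c101.e, rf10c101.n) := red_ln rf10h23.2.2.2.2.1 ⟨rf10h23.2.2.2.2.1.1, rf10h9.2.2.2.2.2.2.2.2.2.2.2.2.2.2.2.2.2.2.2.2.2.2.2.1.1⟩
theorem rf10k102 : CfgOK (rf10c102.e, rf10c102.n) := red_ln rf10h23.2.2.2.1 ⟨rf10h23.2.2.2.1.1, rf10h9.2.2.2.2.2.2.2.2.2.2.2.2.2.2.2.2.2.2.2.2.2.2.1.1⟩
theorem rf10k103 : CfgOK (rf10c103.e, rf10c103.n) := red_ln rf10h23.2.2.1 ⟨rf10h23.2.2.1.1, rf10h9.2.2.2.2.2.2.2.2.2.2.2.2.2.2.2.2.2.2.2.2.2.1.1⟩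
theorem rf10k104 : CfgOK (rf10c104.e, rf10c104.n) := red_ln rf10h23.2.1 ⟨rf10h23.2.1.1, rf10h9.2.2.2.2.2.2.2.2.2.2.2.2.2.2.2.2.2.2.2.2.1.1⟩
theorem rf10k105 : CfgOK (rf10c105.e, rf10c105.n) := red_ln rf10h23.1 ⟨rf10h23.1.1, rf10h9.2.2.2.2.2.2.2.2.2.2.2.2.2.2.2.2.2.2.2.1.1⟩
theorem rf10k106 : CfgOK (rf10c106.e, rf10c106.n) := red_ln rf10h22.2.2.2.2.2.2.2.2.2.2.2.2.2.2.1 ⟨rf10h22.2.2.2.2.2.2.2.2.2.2.2.2.2.2.1.1, rf10h9.2.2.2.2.2.2.2.2.2.2.2.2.2.2.2.2.2.2.1.1⟩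
theorem rf10k107 : CfgOK (rf10c107.e, rf10c107.n) := red_ln rf10h22.2.2.2.2.2.2.2.2.2.2.2.2.2.1 ⟨rf10h22.2.2.2.2.2.2.2.2.2.2.2.2.2.1.1, rf10h9.2.2.2.2.2.2.2.2.2.2.2.2.2.2.2.2.2.1.1⟩
theorem rf10k108 : CfgOK (rf10c108.e, rf10c108.n) := red_ln rf10h22.2.2.2.2.2.2.2.2.2.2.2.2.1 ⟨rf10h22.2.2.2.2.2.2.2.2.2.2.2.2.1.1, rf10h9.2.2.2.2.2.2.2.2.2.2.2.2.2.2.2.2.1.1⟩
theorem rf10k109 : CfgOK (rf10c109.e, rf10c109.n) := red_ln rf10h22.2.2.2.2.2.2.2.2.2.2.2.1 ⟨rf10h22.2.2.2.2.2.2.2.2.2.2.2.1.1, rf10h9.2.2.2.2.2.2.2.2.2.2.2.2.2.2.2.1.1⟩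
theorem rf10k110 : CfgOK (rf10c110.e, rf10c110.n) := red_ln rf10h22.2.2.2.2.2.2.2.2.2.2.1 ⟨rf10h22.2.2.2.2.2.2.2.2.2.2.1.1, rf10h9.2.2.2.2.2.2.2.2.2.2.2.2.2.2.1.1⟩
theorem rf10k111 : CfgOK (rf10c111.e, rf10c111.n) := red_ln rf10h22.2.2.2.2.2.2.2.2.2.1 ⟨rf10h22.2.2.2.2.2.2.2.2.2.1.1, rf10h9.2.2.2.2.2.2.2.2.2.2.2.2.2.1.1⟩
theorem rf10k112 : CfgOK (rf10c112.e, rf10c112.n) := red_ln rf10h22.2.2.2.2.2.2.2.2.1 ⟨rf10h22.2.2.2.2.2.2.2.2.1.1, rf10h9.2.2.2.2.2.2.2.2.2.2.2.2.1.1⟩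
theorem rf10k113 : CfgOK (rf10c113.e, rf10c113.n) := red_ln rf10h22.2.2.2.2.2.2.2.1 ⟨rf10h22.2.2.2.2.2.2.2.1.1, rf10h9.2.2.2.2.2.2.2.2.2.2.2.1.1⟩
theorem rf10k114 : CfgOK (rf10c114.e, rf10c114.n) := red_ln rf10h22.2.2.2.2.2.2.1 ⟨rf10h22.2.2.2.2.2.2.1.1, rf10h9.2.2.2.2.2.2.2.2.2.2.1.1⟩
theorem rf10k115 : CfgOK (rf10c115.e, rf10c115.n) := red_ln rf10h22.2.2.2.2.2.1 ⟨rf10h22.2.2.2.2.2.1.1, rf10h9.2.2.2.2.2.2.2.2.2.1.1⟩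
theorem rf10k116 : CfgOK (rf10c116.e, rf10c116.n) := red_ln rf10h22.2.2.2.2.1 ⟨rf10h22.2.2.2.2.1.1, rf10h9.2.2.2.2.2.2.2.2.1.1⟩
theorem rf10k117 : CfgOK (rf10c117.e, rf10c117.n) := red_ln rf10h22.2.2.2.1 ⟨rf10h22.2.2.2.1.1, rf10h9.2.2.2.2.2.2.2.1.1⟩
theorem rf10k118 : CfgOK (rf10c118.e, rf10c118.n) := red_ln rf10h22.2.2.1 ⟨rf10h22.2.2.1.1, rf10h9.2.2.2.2.2.2.1.1⟩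
theorem rf10k119 : CfgOK (rf10c119.e, rf10c119.n) := red_ln rf10h22.2.1 ⟨rf10h22.2.1.1, rf10h9.2.2.2.2.2.1.1⟩
theorem rf10k120 : CfgOK (rf10c120.e, rf10c120.n) := red_ln rf10h22.1 ⟨rf10h22.1.1, rf10h9.2.2.2.2.1.1⟩
theorem rf10k121 : CfgOK (rf10c121.e, rf10c121.n) := red_ln rf10h21.2.2.2.2.2.2.2.2.2.2.2.2.2.2.1 ⟨rf10h21.2.2.2.2.2.2.2.2.2.2.2.2.2.2.1.1, rf10h9.2.2.2.1.1⟩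
theorem rf10k122 : CfgOK (rf10c122.e, rf10c122.n) := red_ln rf10h21.2.2.2.2.2.2.2.2.2.2.2.2.2.1 ⟨⟨rf10h21.2.2.2.2.2.2.2.2.2.2.2.2.2.1.1, rf10h9.2.2.1.1⟩, ⟨rf10h15.2.2.1.1, rf10h14.2.2.2.2.2.2.2.2.2.2.2.1.1⟩⟩
theorem rf10k123 : CfgOK (rf10c123.e, rf10c123.n) := red_ln rf10h21.2.2.2.2.2.2.2.2.2.2.2.2.1 ⟨⟨rf10h21.2.2.2.2.2.2.2.2.2.2.2.2.1.1, rf10h13.2.2.1.1⟩, ⟨rf10h9.2.1.1, rf10h14.2.2.2.2.2.2.2.2.2.2.1.1⟩⟩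
theorem rf10k124 : CfgOK (rf10c124.e, rf10c124.n) := red_ln rf10h21.2.2.2.2.2.2.2.2.2.2.2.1 ⟨⟨rf10h21.2.2.2.2.2.2.2.2.2.2.2.1.1, rf10h15.2.2.2.2.2.2.2.2.2.2.2.2.2.1.1⟩, ⟨rf10h9.1.1, rf10h14.2.2.2.2.2.2.2.2.2.1.1⟩⟩
theorem rf10k125 : CfgOK (rf10c125.e, rf10c125.n) := red_ln rf10h21.2.2.2.2.2.2.2.2.2.2.1 ⟨⟨rf10h21.2.2.2.2.2.2.2.2.2.2.1.1, rf10h13.2.1.1⟩, ⟨rf10h8.2.2.2.2.2.2.2.2.2.2.2.2.2.2.2.2.2.2.2.2.2.2.2.2.2.2.2.2.2.2.2.2.2.2.2.2.2.2.2.1.1, rf10h14.2.2.2.2.2.2.2.2.1.1⟩⟩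
theorem rf10k126 : CfgOK (rf10c126.e, rf10c126.n) := red_ln rf10h21.2.2.2.2.2.2.2.2.2.1 ⟨⟨rf10h21.2.2.2.2.2.2.2.2.2.1.1, rf10h15.2.2.2.2.2.2.2.2.2.2.2.2.1.1⟩, ⟨rf10h8.2.2.2.2.2.2.2.2.2.2.2.2.2.2.2.2.2.2.2.2.2.2.2.2.2.2.2.2.2.2.2.2.2.2.2.2.2.2.1.1, rf10h14.2.2.2.2.2.2.2.1.1⟩⟩
theorem rf10k127 : CfgOK (rf10c127.e, rf10c127.n) := red_ln rf10h21.2.2.2.2.2.2.2.2.1 ⟨⟨⟨rf10h21.2.2.2.2.2.2.2.2.1.1, rf10h15.2.2.2.2.2.2.2.2.2.2.2.1.1⟩, ⟨rf10h13.2.2.2.1.1, rf10h16.2.2.1.1⟩⟩, ⟨⟨rf10h8.2.2.2.2.2.2.2.2.2.2.2.2.2.2.2.2.2.2.2.2.2.2.2.2.2.2.2.2.2.2.2.2.2.2.2.2.2.1.1, rf10h14.2.2.2.2.2.2.1.1⟩, ⟨rf10h14.2.2.2.2.2.1.1, rf10h17.1.1⟩⟩⟩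
theorem rf10k128 : CfgOK (rf10c128.e, rf10c128.n) := red_ln rf10h21.2.2.2.2.2.2.2.1 ⟨rf10h21.2.2.2.2.2.2.2.1.1, rf10h11.2.2.2.2.2.2.2.2.2.2.2.2.2.2.1.1⟩
theorem rf10k129 : CfgOK (rf10c129.e, rf10c129.n) := red_ln rf10h21.2.2.2.2.2.2.1 ⟨rf10h21.2.2.2.2.2.2.1.1, rf10h15.2.1.1⟩
theorem rf10k130 : CfgOK (rf10c130.e, rf10c130.n) := red_ln rf10h21.2.2.2.2.2.1 ⟨rf10h21.2.2.2.2.2.1.1, rf10h11.2.2.2.2.2.2.2.2.2.1.1⟩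
theorem rf10k131 : CfgOK (rf10c131.e, rf10c131.n) := red_ln rf10h21.2.2.2.2.1 ⟨rf10h21.2.2.2.2.1.1, rf10h11.2.2.2.2.2.1.1⟩
theorem rf10k132 : CfgOK (rf10c132.e, rf10c132.n) := red_ln rf10h21.2.2.2.1 ⟨rf10h21.2.2.2.1.1, rf10h11.2.2.2.2.1.1⟩
theorem rf10k133 : CfgOK (rf10c133.e, rf10c133.n) := red_ln rf10h21.2.2.1 rf10h21.2.2.1.1
theorem rf10k134 : CfgOK (rf10c134.e, rf10c134.n) := red_ln rf10h21.2.1 rf10h21.2.1.1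
theorem rf10k135 : CfgOK (rf10c135.e, rf10c135.n) := red_ln rf10h21.1 rf10h21.1.1
theorem rf10k136 : CfgOK (rf10c136.e, rf10c136.n) := red_ln rf10h20.2.2.2.2.2.2.2.2.2.2.2.2.2.2.1 rf10h20.2.2.2.2.2.2.2.2.2.2.2.2.2.2.1.1
theorem rf10k137 : CfgOK (rf10c137.e, rf10c137.n) := red_ln rf10h20.2.2.2.2.2.2.2.2.2.2.2.2.2.1 rf10h20.2.2.2.2.2.2.2.2.2.2.2.2.2.1.1
theorem rf10k138 : CfgOK (rf10c138.e, rf10c138.n) := red_ln rf10h20.2.2.2.2.2.2.2.2.2.2.2.2.1 rf10h20.2.2.2.2.2.2.2.2.2.2.2.2.1.1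
theorem rf10k139 : CfgOK (rf10c139.e, rf10c139.n) := red_ln rf10h20.2.2.2.2.2.2.2.2.2.2.2.1 rf10h20.2.2.2.2.2.2.2.2.2.2.2.1.1
theorem rf10k140 : CfgOK (rf10c140.e, rf10c140.n) := red_ln rf10h20.2.2.2.2.2.2.2.2.2.2.1 rf10h20.2.2.2.2.2.2.2.2.2.2.1.1
theorem rf10k141 : CfgOK (rf10c141.e, rf10c141.n) := red_ln rf10h20.2.2.2.2.2.2.2.2.2.1 rf10h20.2.2.2.2.2.2.2.2.2.1.1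
theorem rf10k142 : CfgOK (rf10c142.e, rf10c142.n) := red_ln rf10h20.2.2.2.2.2.2.2.2.1 rf10h20.2.2.2.2.2.2.2.2.1.1
theorem rf10k143 : CfgOK (rf10c143.e, rf10c143.n) := red_ln rf10h20.2.2.2.2.2.2.2.1 rf10h20.2.2.2.2.2.2.2.1.1
theorem rf10k144 : CfgOK (rf10c144.e, rf10c144.n) := red_ln rf10h20.2.2.2.2.2.2.1 rf10h20.2.2.2.2.2.2.1.1
theorem rf10k145 : CfgOK (rf10c145.e, rf10c145.n) := red_ln rf10h20.2.2.2.2.2.1 rf10h20.2.2.2.2.2.1.1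
theorem rf10k146 : CfgOK (rf10c146.e, rf10c146.n) := red_ln rf10h20.2.2.2.2.1 rf10h20.2.2.2.2.1.1
theorem rf10k147 : CfgOK (rf10c147.e, rf10c147.n) := red_ln rf10h20.2.2.2.1 rf10h20.2.2.2.1.1
theorem rf10k148 : CfgOK (rf10c148.e, rf10c148.n) := red_ln rf10h20.2.2.1 rf10h20.2.2.1.1
theorem rf10k149 : CfgOK (rf10c149.e, rf10c149.n) := red_ln rf10h20.2.1 rf10h20.2.1.1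
theorem rf10k150 : CfgOK (rf10c150.e, rf10c150.n) := red_ln rf10h20.1 ⟨rf10h20.1.1, rf10h8.2.2.2.2.2.2.2.2.2.2.2.2.2.2.2.2.2.2.2.2.2.2.2.2.2.2.2.2.2.2.2.2.2.2.2.2.1.1⟩
theorem rf10k151 : CfgOK (rf10c151.e, rf10c151.n) := red_ln rf10h19.2.2.2.2.2.2.2.2.2.2.2.2.2.2.1 ⟨rf10h19.2.2.2.2.2.2.2.2.2.2.2.2.2.2.1.1, rf10h8.2.2.2.2.2.2.2.2.2.2.2.2.2.2.2.2.2.2.2.2.2.2.2.2.2.2.2.2.2.2.2.2.2.2.2.1.1⟩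
theorem rf10k152 : CfgOK (rf10c152.e, rf10c152.n) := red_ln rf10h19.2.2.2.2.2.2.2.2.2.2.2.2.2.1 ⟨rf10h19.2.2.2.2.2.2.2.2.2.2.2.2.2.1.1, rf10h8.2.2.2.2.2.2.2.2.2.2.2.2.2.2.2.2.2.2.2.2.2.2.2.2.2.2.2.2.2.2.2.2.2.2.1.1⟩
theorem rf10k153 : CfgOK (rf10c153.e, rf10c153.n) := red_ln rf10h19.2.2.2.2.2.2.2.2.2.2.2.2.1 ⟨rf10h19.2.2.2.2.2.2.2.2.2.2.2.2.1.1, rf10h8.2.2.2.2.2.2.2.2.2.2.2.2.2.2.2.2.2.2.2.2.2.2.2.2.2.2.2.2.2.2.2.2.2.1.1⟩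
theorem rf10k154 : CfgOK (rf10c154.e, rf10c154.n) := red_ln rf10h19.2.2.2.2.2.2.2.2.2.2.2.1 ⟨rf10h19.2.2.2.2.2.2.2.2.2.2.2.1.1, rf10h8.2.2.2.2.2.2.2.2.2.2.2.2.2.2.2.2.2.2.2.2.2.2.2.2.2.2.2.2.2.2.2.2.1.1⟩
theorem rf10k155 : CfgOK (rf10c155.e, rf10c155.n) := red_ln rf10h19.2.2.2.2.2.2.2.2.2.2.1 ⟨rf10h19.2.2.2.2.2.2.2.2.2.2.1.1, rf10h8.2.2.2.2.2.2.2.2.2.2.2.2.2.2.2.2.2.2.2.2.2.2.2.2.2.2.2.2.2.2.2.1.1⟩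
theorem rf10k156 : CfgOK (rf10c156.e, rf10c156.n) := red_ln rf10h19.2.2.2.2.2.2.2.2.2.1 ⟨rf10h19.2.2.2.2.2.2.2.2.2.1.1, rf10h8.2.2.2.2.2.2.2.2.2.2.2.2.2.2.2.2.2.2.2.2.2.2.2.2.2.2.2.2.2.2.1.1⟩
theorem rf10k157 : CfgOK (rf10c157.e, rf10c157.n) := red_ln rf10h19.2.2.2.2.2.2.2.2.1 ⟨rf10h19.2.2.2.2.2.2.2.2.1.1, rf10h8.2.2.2.2.2.2.2.2.2.2.2.2.2.2.2.2.2.2.2.2.2.2.2.2.2.2.2.2.2.1.1⟩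
theorem rf10k158 : CfgOK (rf10c158.e, rf10c158.n) := red_ln rf10h19.2.2.2.2.2.2.2.1 ⟨rf10h19.2.2.2.2.2.2.2.1.1, rf10h8.2.2.2.2.2.2.2.2.2.2.2.2.2.2.2.2.2.2.2.2.2.2.2.2.2.2.2.2.1.1⟩
theorem rf10k159 : CfgOK (rf10c159.e, rf10c159.n) := red_ln rf10h19.2.2.2.2.2.2.1 ⟨rf10h19.2.2.2.2.2.2.1.1, rf10h8.2.2.2.2.2.2.2.2.2.2.2.2.2.2.2.2.2.2.2.2.2.2.2.2.2.2.2.1.1⟩
theorem rf10k160 : CfgOK (rf10c160.e, rf10c160.n) := red_ln rf10h19.2.2.2.2.2.1 ⟨rf10h19.2.2.2.2.2.1.1, rf10h8.2.2.2.2.2.2.2.2.2.2.2.2.2.2.2.2.2.2.2.2.2.2.2.2.2.2.1.1⟩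
theorem rf10k161 : CfgOK (rf10c161.e, rf10c161.n) := red_ln rf10h19.2.2.2.2.1 ⟨rf10h19.2.2.2.2.1.1, rf10h8.2.2.2.2.2.2.2.2.2.2.2.2.2.2.2.2.2.2.2.2.2.2.2.2.2.1.1⟩
theorem rf10k162 : CfgOK (rf10c162.e, rf10c162.n) := red_ln rf10h19.2.2.2.1 ⟨rf10h19.2.2.2.1.1, rf10h8.2.2.2.2.2.2.2.2.2.2.2.2.2.2.2.2.2.2.2.2.2.2.2.2.1.1⟩
theorem rf10k163 : CfgOK (rf10c163.e, rf10c163.n) := red_ln rf10h19.2.2.1 ⟨rf10h19.2.2.1.1, rf10h8.2.2.2.2.2.2.2.2.2.2.2.2.2.2.2.2.2.2.2.2.2.2.2.1.1⟩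
theorem rf10k164 : CfgOK (rf10c164.e, rf10c164.n) := red_ln rf10h19.2.1 ⟨rf10h19.2.1.1, rf10h8.2.2.2.2.2.2.2.2.2.2.2.2.2.2.2.2.2.2.2.2.2.2.1.1⟩
theorem rf10k165 : CfgOK (rf10c165.e, rf10c165.n) := red_ln rf10h19.1 ⟨rf10h19.1.1, rf10h8.2.2.2.2.2.2.2.2.2.2.2.2.2.2.2.2.2.2.2.2.2.1.1⟩
theorem rf10k166 : CfgOK (rf10c166.e, rf10c166.n) := red_ln rf10h18.2.2.2.2.2.2.2.2.2.2.2.1 ⟨⟨rf10h18.2.2.2.2.2.2.2.2.2.2.2.1.1, rf10h8.2.2.2.2.2.2.2.2.2.2.2.2.2.2.2.2.2.2.2.2.1.1⟩, ⟨rf10h13.1.1, rf10h14.2.2.2.2.1.1⟩⟩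
theorem rf10k167 : CfgOK (rf10c167.e, rf10c167.n) := red_ln rf10h18.2.2.2.2.2.2.2.2.2.2.1 ⟨⟨rf10h18.2.2.2.2.2.2.2.2.2.2.1.1, rf10h8.2.2.2.2.2.2.2.2.2.2.2.2.2.2.2.2.2.2.2.1.1⟩, ⟨rf10h11.2.2.2.2.2.2.2.2.2.2.2.2.2.2.2.2.2.2.2.2.1.1, rf10h14.2.2.2.1.1⟩⟩
theorem rf10k168 : CfgOK (rf10c168.e, rf10c168.n) := red_ln rf10h18.2.2.2.2.2.2.2.2.2.1 ⟨⟨rf10h18.2.2.2.2.2.2.2.2.2.1.1, rf10h8.2.2.2.2.2.2.2.2.2.2.2.2.2.2.2.2.2.2.1.1⟩, ⟨rf10h11.2.2.2.1.1, rf10h14.2.2.1.1⟩⟩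
theorem rf10k169 : CfgOK (rf10c169.e, rf10c169.n) := red_ln rf10h18.2.2.2.2.2.2.2.2.1 ⟨⟨rf10h18.2.2.2.2.2.2.2.2.1.1, rf10h11.2.2.2.2.2.2.2.2.2.2.2.2.2.2.2.2.2.2.2.2.2.2.2.1.1⟩, ⟨rf10h8.2.2.2.2.2.2.2.2.2.2.2.2.2.2.2.2.2.1.1, rf10h14.2.1.1⟩⟩
theorem rf10k170 : CfgOK (rf10c170.e, rf10c170.n) := red_ln rf10h18.2.2.2.2.2.2.2.1 ⟨⟨rf10h18.2.2.2.2.2.2.2.1.1, rf10h11.2.2.2.2.2.2.2.2.2.2.2.2.2.2.2.2.2.2.2.1.1⟩, ⟨rf10h8.2.2.2.2.2.2.2.2.2.2.2.2.2.2.2.2.1.1, rf10h14.1.1⟩⟩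
theorem rf10k171 : CfgOK (rf10c171.e, rf10c171.n) := red_ln rf10h18.2.2.2.2.2.2.1 ⟨⟨rf10h18.2.2.2.2.2.2.1.1, rf10h11.2.2.2.2.2.2.2.2.1.1⟩, ⟨rf10h11.2.1.1, rf10h16.1.1⟩⟩
theorem rf10k172 : CfgOK (rf10c172.e, rf10c172.n) := red_ln rf10h18.2.2.2.2.2.1 ⟨rf10h18.2.2.2.2.2.1.1, rf10h11.2.2.2.2.2.2.1.1⟩
theorem rf10k173 : CfgOK (rf10c173.e, rf10c173.n) := red_ln rf10h18.2.2.2.2.1 ⟨rf10h18.2.2.2.2.1.1, rf10h15.1.1⟩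
theorem rf10k174 : CfgOK (rf10c174.e, rf10c174.n) := red_ln rf10h18.2.2.2.1 ⟨⟨rf10h18.2.2.2.1.1, rf10h11.1.1⟩, ⟨rf10h11.2.2.2.2.2.2.2.2.2.2.2.2.2.2.2.2.2.2.2.2.2.2.1.1, rf10h16.2.1.1⟩⟩
theorem rf10k175 : CfgOK (rf10c175.e, rf10c175.n) := red_ln rf10h18.2.2.1 rf10h18.2.2.1.1
theorem rf10k176 : CfgOK (rf10c176.e, rf10c176.n) := red_ln rf10h18.2.1 rf10h18.2.1.1
theorem rf10k177 : CfgOK (rf10c177.e, rf10c177.n) := red_ln rf10h18.1 rf10h18.1.1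
theorem rf10k178 : CfgOK (rf10c178.e, rf10c178.n) := red_ln rf10h12.2.2.2.2.2.2.2.2.2.2.2.1 rf10h12.2.2.2.2.2.2.2.2.2.2.2.1.1
theorem rf10k179 : CfgOK (rf10c179.e, rf10c179.n) := red_ln rf10h12.2.2.2.2.2.2.2.2.2.2.1 rf10h12.2.2.2.2.2.2.2.2.2.2.1.1
theorem rf10k180 : CfgOK (rf10c180.e, rf10c180.n) := red_ln rf10h12.2.2.2.2.2.2.2.2.2.1 rf10h12.2.2.2.2.2.2.2.2.2.1.1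
theorem rf10k181 : CfgOK (rf10c181.e, rf10c181.n) := red_ln rf10h12.2.2.2.2.2.2.2.2.1 rf10h12.2.2.2.2.2.2.2.2.1.1
theorem rf10k182 : CfgOK (rf10c182.e, rf10c182.n) := red_ln rf10h12.2.2.2.2.2.2.2.1 rf10h12.2.2.2.2.2.2.2.1.1
theorem rf10k183 : CfgOK (rf10c183.e, rf10c183.n) := red_ln rf10h12.2.2.2.2.2.2.1 rf10h12.2.2.2.2.2.2.1.1
theorem rf10k184 : CfgOK (rf10c184.e, rf10c184.n) := red_ln rf10h12.2.2.2.2.2.1 rf10h12.2.2.2.2.2.1.1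
theorem rf10k185 : CfgOK (rf10c185.e, rf10c185.n) := red_ln rf10h12.2.2.2.2.1 rf10h12.2.2.2.2.1.1
theorem rf10k186 : CfgOK (rf10c186.e, rf10c186.n) := red_ln rf10h12.2.2.2.1 rf10h12.2.2.2.1.1
theorem rf10k187 : CfgOK (rf10c187.e, rf10c187.n) := red_ln rf10h12.2.2.1 rf10h12.2.2.1.1
theorem rf10k188 : CfgOK (rf10c188.e, rf10c188.n) := red_ln rf10h12.2.1 rf10h12.2.1.1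
theorem rf10k189 : CfgOK (rf10c189.e, rf10c189.n) := red_ln rf10h12.1 rf10h12.1.1
theorem rf10k190 : CfgOK (rf10c190.e, rf10c190.n) := red_ln rf10h1.2.2.2.2.2.2.2.2.2.2.2.1 rf10h1.2.2.2.2.2.2.2.2.2.2.2.1.1
theorem rf10k191 : CfgOK (rf10c191.e, rf10c191.n) := red_ln rf10h1.2.2.2.2.2.2.2.2.2.2.1 rf10h1.2.2.2.2.2.2.2.2.2.2.1.1
theorem rf10k192 : CfgOK (rf10c192.e, rf10c192.n) := red_ln rf10h1.2.2.2.2.2.2.2.2.2.1 rf10h1.2.2.2.2.2.2.2.2.2.1.1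
theorem rf10k193 : CfgOK (rf10c193.e, rf10c193.n) := red_ln rf10h1.2.2.2.2.2.2.2.2.1 rf10h1.2.2.2.2.2.2.2.2.1.1
theorem rf10k194 : CfgOK (rf10c194.e, rf10c194.n) := red_ln rf10h1.2.2.2.2.2.2.2.1 rf10h1.2.2.2.2.2.2.2.1.1
theorem rf10k195 : CfgOK (rf10c195.e, rf10c195.n) := red_ln rf10h1.2.2.2.2.2.2.1 rf10h1.2.2.2.2.2.2.1.1
theorem rf10k196 : CfgOK (rf10c196.e, rf10c196.n) := red_ln rf10h1.2.2.2.2.2.1 rf10h1.2.2.2.2.2.1.1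
theorem rf10k197 : CfgOK (rf10c197.e, rf10c197.n) := red_ln rf10h1.2.2.2.2.1 rf10h1.2.2.2.2.1.1
theorem rf10k198 : CfgOK (rf10c198.e, rf10c198.n) := red_ln rf10h1.2.2.2.1 ⟨rf10h1.2.2.2.1.1, rf10h8.2.2.2.2.2.2.2.2.2.2.2.2.2.2.2.1.1⟩
theorem rf10k199 : CfgOK (rf10c199.e, rf10c199.n) := red_ln rf10h1.2.2.1 ⟨rf10h1.2.2.1.1, rf10h8.2.2.2.2.2.2.2.2.2.2.2.2.2.2.1.1⟩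
theorem rf10k200 : CfgOK (rf10c200.e, rf10c200.n) := red_ln rf10h1.2.1 ⟨rf10h1.2.1.1, rf10h8.2.2.2.2.2.2.2.2.2.2.2.2.2.1.1⟩
theorem rf10k201 : CfgOK (rf10c201.e, rf10c201.n) := red_ln rf10h1.1 ⟨rf10h1.1.1, rf10h8.2.2.2.2.2.2.2.2.2.2.2.2.1.1⟩
theorem rf10k202 : CfgOK (rf10c202.e, rf10c202.n) := red_ln rf10h0.2.2.2.2.2.2.2.2.2.2.2.1 ⟨rf10h0.2.2.2.2.2.2.2.2.2.2.2.1.1, rf10h8.2.2.2.2.2.2.2.2.2.2.2.1.1⟩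
theorem rf10k203 : CfgOK (rf10c203.e, rf10c203.n) := red_ln rf10h0.2.2.2.2.2.2.2.2.2.2.1 ⟨rf10h0.2.2.2.2.2.2.2.2.2.2.1.1, rf10h8.2.2.2.2.2.2.2.2.2.2.1.1⟩
theorem rf10k204 : CfgOK (rf10c204.e, rf10c204.n) := red_ln rf10h0.2.2.2.2.2.2.2.2.2.1 ⟨rf10h0.2.2.2.2.2.2.2.2.2.1.1, rf10h8.2.2.2.2.2.2.2.2.2.1.1⟩
theorem rf10k205 : CfgOK (rf10c205.e, rf10c205.n) := red_ln rf10h0.2.2.2.2.2.2.2.2.1 ⟨rf10h0.2.2.2.2.2.2.2.2.1.1, rf10h8.2.2.2.2.2.2.2.2.1.1⟩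
theorem rf10k206 : CfgOK (rf10c206.e, rf10c206.n) := red_ln rf10h0.2.2.2.2.2.2.2.1 ⟨rf10h0.2.2.2.2.2.2.2.1.1, rf10h8.2.2.2.2.2.2.2.1.1⟩
theorem rf10k207 : CfgOK (rf10c207.e, rf10c207.n) := red_ln rf10h0.2.2.2.2.2.2.1 ⟨rf10h0.2.2.2.2.2.2.1.1, rf10h8.2.2.2.2.2.2.1.1⟩
theorem rf10k208 : CfgOK (rf10c208.e, rf10c208.n) := red_ln rf10h0.2.2.2.2.2.1 ⟨rf10h0.2.2.2.2.2.1.1, rf10h8.2.2.2.2.2.1.1⟩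
theorem rf10k209 : CfgOK (rf10c209.e, rf10c209.n) := red_ln rf10h0.2.2.2.2.1 ⟨rf10h0.2.2.2.2.1.1, rf10h8.2.2.2.2.1.1⟩
theorem rf10k210 : CfgOK (rf10c210.e, rf10c210.n) := red_ln rf10h0.2.2.2.1 ⟨rf10h0.2.2.2.1.1, rf10h8.2.2.2.1.1⟩
theorem rf10k211 : CfgOK (rf10c211.e, rf10c211.n) := red_ln rf10h0.2.2.1 ⟨rf10h0.2.2.1.1, rf10h8.2.2.1.1⟩
theorem rf10k212 : CfgOK (rf10c212.e, rf10c212.n) := red_ln rf10h0.2.1 ⟨rf10h0.2.1.1, rf10h8.2.1.1⟩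
theorem rf10k213 : CfgOK (rf10c213.e, rf10c213.n) := red_ln rf10h0.1 ⟨rf10h0.1.1, rf10h8.1.1⟩

end Pool.Agent.Lib.G6.B
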