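import Pool.Agent.Lib.G6.BRed
import Pool.Agent.Lib.G6D.RF11

set_option autoImplicit false
set_option maxRecDepth 100000
set_option linter.all false

namespace Pool.Agent.Lib.G6.B

theorem rf11h0 : AllL LnOK rf11l0 := batch_of rf11th.1
theorem rf11h1 : AllL LnOK rf11l1 := batch_of rf11th.2.1
theorem rf11h2 : AllL LnOK rf11l10 := batch_of rf11th.2.2.2.2.2.2.2.2.2.2.1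
theorem rf11h3 : AllL LnOK rf11l11 := batch_of rf11th.2.2.2.2.2.2.2.2.2.2.2.1
theorem rf11h4 : AllL LnOK rf11l12 := batch_of rf11th.2.2.2.2.2.2.2.2.2.2.2.2.1
theorem rf11h5 : AllL LnOK rf11l13 := batch_of rf11th.2.2.2.2.2.2.2.2.2.2.2.2.2.1
theorem rf11h6 : AllL LnOK rf11l14 := batch_of rf11th.2.2.2.2.2.2.2.2.2.2.2.2.2.2.1
theorem rf11h7 : AllL LnOK rf11l15 := batch_of rf11th.2.2.2.2.2.2.2.2.2.2.2.2.2.2.2.1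
theorem rf11h8 : AllL LnOK rf11l16 := batch_of rf11th.2.2.2.2.2.2.2.2.2.2.2.2.2.2.2.2.1
theorem rf11h9 : AllL LnOK rf11l17 := batch_of rf11th.2.2.2.2.2.2.2.2.2.2.2.2.2.2.2.2.2.1
theorem rf11h10 : AllL LnOK rf11l18 := batch_of rf11th.2.2.2.2.2.2.2.2.2.2.2.2.2.2.2.2.2.2.1
theorem rf11h11 : AllL LnOK rf11l19 := batch_of rf11th.2.2.2.2.2.2.2.2.2.2.2.2.2.2.2.2.2.2.2.1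
theorem rf11h12 : AllL LnOK rf11l2 := batch_of rf11th.2.2.1
theorem rf11h13 : AllL LnOK rf11l20 := batch_of rf11th.2.2.2.2.2.2.2.2.2.2.2.2.2.2.2.2.2.2.2.2.1
theorem rf11h14 : AllL LnOK rf11l21 := batch_of rf11th.2.2.2.2.2.2.2.2.2.2.2.2.2.2.2.2.2.2.2.2.2.1
theorem rf11h15 : AllL LnOK rf11l22 := batch_of rf11th.2.2.2.2.2.2.2.2.2.2.2.2.2.2.2.2.2.2.2.2.2.2.1
theorem rf11h16 : AllL LnOK rf11l23 := batch_of rf11th.2.2.2.2.2.2.2.2.2.2.2.2.2.2.2.2.2.2.2.2.2.2.2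
theorem rf11h17 : AllL LnOK rf11l3 := batch_of rf11th.2.2.2.1
theorem rf11h18 : AllL LnOK rf11l4 := batch_of rf11th.2.2.2.2.1
theorem rf11h19 : AllL LnOK rf11l5 := batch_of rf11th.2.2.2.2.2.1
theorem rf11h20 : AllL LnOK rf11l6 := batch_of rf11th.2.2.2.2.2.2.1
theorem rf11h21 : AllL LnOK rf11l7 := batch_of rf11th.2.2.2.2.2.2.2.1
theorem rf11h22 : AllL LnOK rf11l8 := batch_of rf11th.2.2.2.2.2.2.2.2.1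
theorem rf11h23 : AllL LnOK rf11l9 := batch_of rf11th.2.2.2.2.2.2.2.2.2.1
theorem rf11k0 : CfgOK (rf11c0.e, rf11c0.n) := red_ln rf11h8.2.1 ⟨⟨rf11h8.2.1.1, rf11h9.2.2.2.2.2.2.2.2.2.2.2.2.2.2.2.2.2.2.2.2.2.2.1.1⟩, ⟨rf11h14.2.2.2.2.2.1.1, rf11h15.2.2.2.2.2.2.2.2.2.2.2.2.2.2.2.2.2.1.1⟩⟩
theorem rf11k1 : CfgOK (rf11c1.e, rf11c1.n) := red_ln rf11h8.1 ⟨⟨rf11h8.1.1, rf11h9.2.2.2.2.2.2.2.2.2.2.2.2.2.2.2.2.2.2.2.2.2.1.1⟩, ⟨rf11h14.2.2.2.2.1.1, rf11h15.2.2.2.2.2.2.2.2.2.2.2.2.2.2.2.2.1.1⟩⟩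
theorem rf11k2 : CfgOK (rf11c2.e, rf11c2.n) := red_ln rf11h7.2.2.2.2.2.2.2.2.2.2.2.1 ⟨⟨rf11h7.2.2.2.2.2.2.2.2.2.2.2.1.1, rf11h16.2.2.2.2.1.1⟩, ⟨rf11h14.2.2.2.1.1, rf11h15.2.2.2.2.2.2.2.2.2.2.2.2.2.2.2.1.1⟩⟩
theorem rf11k3 : CfgOK (rf11c3.e, rf11c3.n) := red_ln rf11h7.2.2.2.2.2.2.2.2.2.2.1 ⟨rf11h7.2.2.2.2.2.2.2.2.2.2.1.1, rf11h9.2.2.2.2.2.1.1⟩
theorem rf11k4 : CfgOK (rf11c4.e, rf11c4.n) := red_ln rf11h7.2.2.2.2.2.2.2.2.2.1 ⟨⟨rf11h7.2.2.2.2.2.2.2.2.2.1.1, rf11h9.2.2.2.2.1.1⟩, ⟨rf11h14.2.2.1.1, rf11h15.2.2.2.2.2.2.2.2.2.2.2.2.2.2.1.1⟩⟩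
theorem rf11k5 : CfgOK (rf11c5.e, rf11c5.n) := red_ln rf11h7.2.2.2.2.2.2.2.2.1 ⟨rf11h7.2.2.2.2.2.2.2.2.1.1, rf11h9.2.2.2.1.1⟩
theorem rf11k6 : CfgOK (rf11c6.e, rf11c6.n) := red_ln rf11h7.2.2.2.2.2.2.2.1 ⟨rf11h7.2.2.2.2.2.2.2.1.1, rf11h9.2.2.1.1⟩
theorem rf11k7 : CfgOK (rf11c7.e, rf11c7.n) := red_ln rf11h7.2.2.2.2.2.2.1 rf11h7.2.2.2.2.2.2.1.1
theorem rf11k8 : CfgOK (rf11c8.e, rf11c8.n) := red_ln rf11h7.2.2.2.2.2.1 rf11h7.2.2.2.2.2.1.1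
theorem rf11k9 : CfgOK (rf11c9.e, rf11c9.n) := red_ln rf11h7.2.2.2.2.1 rf11h7.2.2.2.2.1.1
theorem rf11k10 : CfgOK (rf11c10.e, rf11c10.n) := red_ln rf11h7.2.2.2.1 rf11h7.2.2.2.1.1
theorem rf11k11 : CfgOK (rf11c11.e, rf11c11.n) := red_ln rf11h7.2.2.1 rf11h7.2.2.1.1
theorem rf11k12 : CfgOK (rf11c12.e, rf11c12.n) := red_ln rf11h7.2.1 rf11h7.2.1.1
theorem rf11k13 : CfgOK (rf11c13.e, rf11c13.n) := red_ln rf11h7.1 rf11h7.1.1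
theorem rf11k14 : CfgOK (rf11c14.e, rf11c14.n) := red_ln rf11h6.2.2.2.2.2.2.2.2.2.2.2.1 rf11h6.2.2.2.2.2.2.2.2.2.2.2.1.1
theorem rf11k15 : CfgOK (rf11c15.e, rf11c15.n) := red_ln rf11h6.2.2.2.2.2.2.2.2.2.2.1 rf11h6.2.2.2.2.2.2.2.2.2.2.1.1
theorem rf11k16 : CfgOK (rf11c16.e, rf11c16.n) := red_ln rf11h6.2.2.2.2.2.2.2.2.2.1 rf11h6.2.2.2.2.2.2.2.2.2.1.1
theorem rf11k17 : CfgOK (rf11c17.e, rf11c17.n) := red_ln rf11h6.2.2.2.2.2.2.2.2.1 rf11h6.2.2.2.2.2.2.2.2.1.1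
theorem rf11k18 : CfgOK (rf11c18.e, rf11c18.n) := red_ln rf11h6.2.2.2.2.2.2.2.1 rf11h6.2.2.2.2.2.2.2.1.1
theorem rf11k19 : CfgOK (rf11c19.e, rf11c19.n) := red_ln rf11h6.2.2.2.2.2.2.1 rf11h6.2.2.2.2.2.2.1.1
theorem rf11k20 : CfgOK (rf11c20.e, rf11c20.n) := red_ln rf11h6.2.2.2.2.2.1 rf11h6.2.2.2.2.2.1.1
theorem rf11k21 : CfgOK (rf11c21.e, rf11c21.n) := red_ln rf11h6.2.2.2.2.1 ⟨rf11h6.2.2.2.2.1.1, rf11h14.2.1.1⟩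
theorem rf11k22 : CfgOK (rf11c22.e, rf11c22.n) := red_ln rf11h6.2.2.2.1 ⟨rf11h6.2.2.2.1.1, rf11h14.1.1⟩
theorem rf11k23 : CfgOK (rf11c23.e, rf11c23.n) := red_ln rf11h6.2.2.1 ⟨rf11h6.2.2.1.1, rf11h13.2.2.2.2.2.2.2.2.2.2.2.2.2.2.2.2.2.2.2.2.2.2.2.2.2.2.2.2.2.2.2.2.2.2.2.2.2.2.2.1.1⟩
theorem rf11k24 : CfgOK (rf11c24.e, rf11c24.n) := red_ln rf11h6.2.1 ⟨rf11h6.2.1.1, rf11h13.2.2.2.2.2.2.2.2.2.2.2.2.2.2.2.2.2.2.2.2.2.2.2.2.2.2.2.2.2.2.2.2.2.2.2.2.2.2.1.1⟩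
theorem rf11k25 : CfgOK (rf11c25.e, rf11c25.n) := red_ln rf11h6.1 ⟨rf11h6.1.1, rf11h13.2.2.2.2.2.2.2.2.2.2.2.2.2.2.2.2.2.2.2.2.2.2.2.2.2.2.2.2.2.2.2.2.2.2.2.2.2.1.1⟩
theorem rf11k26 : CfgOK (rf11c26.e, rf11c26.n) := red_ln rf11h5.2.2.2.2.2.2.2.2.2.2.2.1 ⟨rf11h5.2.2.2.2.2.2.2.2.2.2.2.1.1, rf11h13.2.2.2.2.2.2.2.2.2.2.2.2.2.2.2.2.2.2.2.2.2.2.2.2.2.2.2.2.2.2.2.2.2.2.2.2.1.1⟩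
theorem rf11k27 : CfgOK (rf11c27.e, rf11c27.n) := red_ln rf11h5.2.2.2.2.2.2.2.2.2.2.1 ⟨rf11h5.2.2.2.2.2.2.2.2.2.2.1.1, rf11h13.2.2.2.2.2.2.2.2.2.2.2.2.2.2.2.2.2.2.2.2.2.2.2.2.2.2.2.2.2.2.2.2.2.2.2.1.1⟩
theorem rf11k28 : CfgOK (rf11c28.e, rf11c28.n) := red_ln rf11h5.2.2.2.2.2.2.2.2.2.1 ⟨rf11h5.2.2.2.2.2.2.2.2.2.1.1, rf11h13.2.2.2.2.2.2.2.2.2.2.2.2.2.2.2.2.2.2.2.2.2.2.2.2.2.2.2.2.2.2.2.2.2.2.1.1⟩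
theorem rf11k29 : CfgOK (rf11c29.e, rf11c29.n) := red_ln rf11h5.2.2.2.2.2.2.2.2.1 ⟨rf11h5.2.2.2.2.2.2.2.2.1.1, rf11h13.2.2.2.2.2.2.2.2.2.2.2.2.2.2.2.2.2.2.2.2.2.2.2.2.2.2.2.2.2.2.2.2.2.1.1⟩
theorem rf11k30 : CfgOK (rf11c30.e, rf11c30.n) := red_ln rf11h5.2.2.2.2.2.2.2.1 ⟨rf11h5.2.2.2.2.2.2.2.1.1, rf11h13.2.2.2.2.2.2.2.2.2.2.2.2.2.2.2.2.2.2.2.2.2.2.2.2.2.2.2.2.2.2.2.2.1.1⟩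
theorem rf11k31 : CfgOK (rf11c31.e, rf11c31.n) := red_ln rf11h5.2.2.2.2.2.2.1 ⟨rf11h5.2.2.2.2.2.2.1.1, rf11h13.2.2.2.2.2.2.2.2.2.2.2.2.2.2.2.2.2.2.2.2.2.2.2.2.2.2.2.2.2.2.2.1.1⟩
theorem rf11k32 : CfgOK (rf11c32.e, rf11c32.n) := red_ln rf11h5.2.2.2.2.2.1 ⟨rf11h5.2.2.2.2.2.1.1, rf11h13.2.2.2.2.2.2.2.2.2.2.2.2.2.2.2.2.2.2.2.2.2.2.2.2.2.2.2.2.2.2.1.1⟩
theorem rf11k33 : CfgOK (rf11c33.e, rf11c33.n) := red_ln rf11h5.2.2.2.2.1 ⟨rf11h5.2.2.2.2.1.1, rf11h13.2.2.2.2.2.2.2.2.2.2.2.2.2.2.2.2.2.2.2.2.2.2.2.2.2.2.2.2.2.1.1⟩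
theorem rf11k34 : CfgOK (rf11c34.e, rf11c34.n) := red_ln rf11h5.2.2.2.1 ⟨rf11h5.2.2.2.1.1, rf11h13.2.2.2.2.2.2.2.2.2.2.2.2.2.2.2.2.2.2.2.2.2.2.2.2.2.2.2.2.1.1⟩
theorem rf11k35 : CfgOK (rf11c35.e, rf11c35.n) := red_ln rf11h5.2.2.1 ⟨rf11h5.2.2.1.1, rf11h13.2.2.2.2.2.2.2.2.2.2.2.2.2.2.2.2.2.2.2.2.2.2.2.2.2.2.2.1.1⟩
theorem rf11k36 : CfgOK (rf11c36.e, rf11c36.n) := red_ln rf11h5.2.1 ⟨rf11h5.2.1.1, rf11h13.2.2.2.2.2.2.2.2.2.2.2.2.2.2.2.2.2.2.2.2.2.2.2.2.2.2.1.1⟩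
theorem rf11k37 : CfgOK (rf11c37.e, rf11c37.n) := red_ln rf11h5.1 ⟨rf11h5.1.1, rf11h13.2.2.2.2.2.2.2.2.2.2.2.2.2.2.2.2.2.2.2.2.2.2.2.2.2.1.1⟩
theorem rf11k38 : CfgOK (rf11c38.e, rf11c38.n) := red_ln rf11h4.2.2.2.2.2.2.2.2.2.2.1 ⟨⟨rf11h4.2.2.2.2.2.2.2.2.2.2.1.1, rf11h13.2.2.2.2.2.2.2.2.2.2.2.2.2.2.2.2.2.2.2.2.2.2.2.2.1.1⟩, ⟨rf11h16.2.2.2.2.2.2.2.1.1, rf11h15.2.2.2.2.2.2.2.2.2.2.2.2.2.1.1⟩⟩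
theorem rf11k39 : CfgOK (rf11c39.e, rf11c39.n) := red_ln rf11h4.2.2.2.2.2.2.2.2.2.1 ⟨⟨rf11h4.2.2.2.2.2.2.2.2.2.1.1, rf11h9.2.2.2.2.2.2.2.2.2.2.2.2.2.2.2.2.2.2.2.2.2.2.2.1.1⟩, ⟨rf11h13.2.2.2.2.2.2.2.2.2.2.2.2.2.2.2.2.2.2.2.2.2.2.2.1.1, rf11h15.2.2.2.2.2.2.2.2.2.2.2.2.1.1⟩⟩
theorem rf11k40 : CfgOK (rf11c40.e, rf11c40.n) := red_ln rf11h4.2.2.2.2.2.2.2.2.1 ⟨⟨rf11h4.2.2.2.2.2.2.2.2.1.1, rf11h16.2.2.2.2.2.2.1.1⟩, ⟨rf11h13.2.2.2.2.2.2.2.2.2.2.2.2.2.2.2.2.2.2.2.2.2.2.1.1, rf11h15.2.2.2.2.2.2.2.2.2.2.2.1.1⟩⟩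
theorem rf11k41 : CfgOK (rf11c41.e, rf11c41.n) := red_ln rf11h4.2.2.2.2.2.2.2.1 ⟨⟨rf11h4.2.2.2.2.2.2.2.1.1, rf11h16.2.2.2.1.1⟩, ⟨rf11h13.2.2.2.2.2.2.2.2.2.2.2.2.2.2.2.2.2.2.2.2.2.1.1, rf11h15.2.2.2.2.2.2.2.2.2.2.1.1⟩⟩
theorem rf11k42 : CfgOK (rf11c42.e, rf11c42.n) := red_ln rf11h4.2.2.2.2.2.2.1 ⟨rf11h4.2.2.2.2.2.2.1.1, rf11h9.2.1.1⟩
theorem rf11k43 : CfgOK (rf11c43.e, rf11c43.n) := red_ln rf11h4.2.2.2.2.2.1 rf11h4.2.2.2.2.2.1.1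
theorem rf11k44 : CfgOK (rf11c44.e, rf11c44.n) := red_ln rf11h4.2.2.2.2.1 rf11h4.2.2.2.2.1.1
theorem rf11k45 : CfgOK (rf11c45.e, rf11c45.n) := red_ln rf11h4.2.2.2.1 rf11h4.2.2.2.1.1
theorem rf11k46 : CfgOK (rf11c46.e, rf11c46.n) := red_ln rf11h4.2.2.1 rf11h4.2.2.1.1
theorem rf11k47 : CfgOK (rf11c47.e, rf11c47.n) := red_ln rf11h4.2.1 rf11h4.2.1.1
theorem rf11k48 : CfgOK (rf11c48.e, rf11c48.n) := red_ln rf11h4.1 rf11h4.1.1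
theorem rf11k49 : CfgOK (rf11c49.e, rf11c49.n) := red_ln rf11h3.2.2.2.2.2.2.2.2.2.2.1 rf11h3.2.2.2.2.2.2.2.2.2.2.1.1
theorem rf11k50 : CfgOK (rf11c50.e, rf11c50.n) := red_ln rf11h3.2.2.2.2.2.2.2.2.2.1 rf11h3.2.2.2.2.2.2.2.2.2.1.1
theorem rf11k51 : CfgOK (rf11c51.e, rf11c51.n) := red_ln rf11h3.2.2.2.2.2.2.2.2.1 rf11h3.2.2.2.2.2.2.2.2.1.1
theorem rf11k52 : CfgOK (rf11c52.e, rf11c52.n) := red_ln rf11h3.2.2.2.2.2.2.2.1 rf11h3.2.2.2.2.2.2.2.1.1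
theorem rf11k53 : CfgOK (rf11c53.e, rf11c53.n) := red_ln rf11h3.2.2.2.2.2.2.1 rf11h3.2.2.2.2.2.2.1.1
theorem rf11k54 : CfgOK (rf11c54.e, rf11c54.n) := red_ln rf11h3.2.2.2.2.2.1 rf11h3.2.2.2.2.2.1.1
theorem rf11k55 : CfgOK (rf11c55.e, rf11c55.n) := red_ln rf11h3.2.2.2.2.1 rf11h3.2.2.2.2.1.1
theorem rf11k56 : CfgOK (rf11c56.e, rf11c56.n) := red_ln rf11h3.2.2.2.1 rf11h3.2.2.2.1.1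
theorem rf11k57 : CfgOK (rf11c57.e, rf11c57.n) := red_ln rf11h3.2.2.1 rf11h3.2.2.1.1
theorem rf11k58 : CfgOK (rf11c58.e, rf11c58.n) := red_ln rf11h3.2.1 rf11h3.2.1.1
theorem rf11k59 : CfgOK (rf11c59.e, rf11c59.n) := red_ln rf11h3.1 rf11h3.1.1
theorem rf11k60 : CfgOK (rf11c60.e, rf11c60.n) := red_ln rf11h2.2.2.2.2.2.2.2.2.2.2.1 rf11h2.2.2.2.2.2.2.2.2.2.2.1.1
theorem rf11k61 : CfgOK (rf11c61.e, rf11c61.n) := red_ln rf11h2.2.2.2.2.2.2.2.2.2.1 rf11h2.2.2.2.2.2.2.2.2.2.1.1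
theorem rf11k62 : CfgOK (rf11c62.e, rf11c62.n) := red_ln rf11h2.2.2.2.2.2.2.2.2.1 ⟨rf11h2.2.2.2.2.2.2.2.2.1.1, rf11h13.2.2.2.2.2.2.2.2.2.2.2.2.2.2.2.2.2.2.2.2.1.1⟩
theorem rf11k63 : CfgOK (rf11c63.e, rf11c63.n) := red_ln rf11h2.2.2.2.2.2.2.2.1 ⟨rf11h2.2.2.2.2.2.2.2.1.1, rf11h13.2.2.2.2.2.2.2.2.2.2.2.2.2.2.2.2.2.2.2.1.1⟩
theorem rf11k64 : CfgOK (rf11c64.e, rf11c64.n) := red_ln rf11h2.2.2.2.2.2.2.1 ⟨rf11h2.2.2.2.2.2.2.1.1, rf11h13.2.2.2.2.2.2.2.2.2.2.2.2.2.2.2.2.2.2.1.1⟩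
theorem rf11k65 : CfgOK (rf11c65.e, rf11c65.n) := red_ln rf11h2.2.2.2.2.2.1 ⟨rf11h2.2.2.2.2.2.1.1, rf11h13.2.2.2.2.2.2.2.2.2.2.2.2.2.2.2.2.2.1.1⟩
theorem rf11k66 : CfgOK (rf11c66.e, rf11c66.n) := red_ln rf11h2.2.2.2.2.1 ⟨rf11h2.2.2.2.2.1.1, rf11h13.2.2.2.2.2.2.2.2.2.2.2.2.2.2.2.2.1.1⟩
theorem rf11k67 : CfgOK (rf11c67.e, rf11c67.n) := red_ln rf11h2.2.2.2.1 ⟨rf11h2.2.2.2.1.1, rf11h13.2.2.2.2.2.2.2.2.2.2.2.2.2.2.2.1.1⟩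
theorem rf11k68 : CfgOK (rf11c68.e, rf11c68.n) := red_ln rf11h2.2.2.1 ⟨rf11h2.2.2.1.1, rf11h13.2.2.2.2.2.2.2.2.2.2.2.2.2.2.1.1⟩
theorem rf11k69 : CfgOK (rf11c69.e, rf11c69.n) := red_ln rf11h2.2.1 ⟨rf11h2.2.1.1, rf11h13.2.2.2.2.2.2.2.2.2.2.2.2.2.1.1⟩
theorem rf11k70 : CfgOK (rf11c70.e, rf11c70.n) := red_ln rf11h2.1 ⟨rf11h2.1.1, rf11h13.2.2.2.2.2.2.2.2.2.2.2.2.1.1⟩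
theorem rf11k71 : CfgOK (rf11c71.e, rf11c71.n) := red_ln rf11h23.2.2.2.2.2.2.2.2.2.2.1 ⟨rf11h23.2.2.2.2.2.2.2.2.2.2.1.1, rf11h13.2.2.2.2.2.2.2.2.2.2.2.1.1⟩
theorem rf11k72 : CfgOK (rf11c72.e, rf11c72.n) := red_ln rf11h23.2.2.2.2.2.2.2.2.2.1 ⟨rf11h23.2.2.2.2.2.2.2.2.2.1.1, rf11h13.2.2.2.2.2.2.2.2.2.2.1.1⟩
theorem rf11k73 : CfgOK (rf11c73.e, rf11c73.n) := red_ln rf11h23.2.2.2.2.2.2.2.2.1 ⟨rf11h23.2.2.2.2.2.2.2.2.1.1, rf11h13.2.2.2.2.2.2.2.2.2.1.1⟩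
theorem rf11k74 : CfgOK (rf11c74.e, rf11c74.n) := red_ln rf11h23.2.2.2.2.2.2.2.1 ⟨rf11h23.2.2.2.2.2.2.2.1.1, rf11h13.2.2.2.2.2.2.2.2.1.1⟩
theorem rf11k75 : CfgOK (rf11c75.e, rf11c75.n) := red_ln rf11h23.2.2.2.2.2.2.1 ⟨rf11h23.2.2.2.2.2.2.1.1, rf11h13.2.2.2.2.2.2.2.1.1⟩
theorem rf11k76 : CfgOK (rf11c76.e, rf11c76.n) := red_ln rf11h23.2.2.2.2.2.1 ⟨rf11h23.2.2.2.2.2.1.1, rf11h13.2.2.2.2.2.2.1.1⟩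
theorem rf11k77 : CfgOK (rf11c77.e, rf11c77.n) := red_ln rf11h23.2.2.2.2.1 ⟨rf11h23.2.2.2.2.1.1, rf11h13.2.2.2.2.2.1.1⟩
theorem rf11k78 : CfgOK (rf11c78.e, rf11c78.n) := red_ln rf11h23.2.2.2.1 ⟨rf11h23.2.2.2.1.1, rf11h13.2.2.2.2.1.1⟩
theorem rf11k79 : CfgOK (rf11c79.e, rf11c79.n) := red_ln rf11h23.2.2.1 ⟨rf11h23.2.2.1.1, rf11h13.2.2.2.1.1⟩
theorem rf11k80 : CfgOK (rf11c80.e, rf11c80.n) := red_ln rf11h23.2.1 ⟨rf11h23.2.1.1, rf11h13.2.2.1.1⟩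
theorem rf11k81 : CfgOK (rf11c81.e, rf11c81.n) := red_ln rf11h23.1 ⟨rf11h23.1.1, rf11h13.2.1.1⟩
theorem rf11k82 : CfgOK (rf11c82.e, rf11c82.n) := red_ln rf11h22.2.2.2.2.2.2.2.2.1 ⟨rf11h22.2.2.2.2.2.2.2.2.1.1, rf11h13.1.1⟩
theorem rf11k83 : CfgOK (rf11c83.e, rf11c83.n) := red_ln rf11h22.2.2.2.2.2.2.2.1 ⟨rf11h22.2.2.2.2.2.2.2.1.1, rf11h11.2.2.2.2.2.2.2.2.2.2.2.2.2.2.2.2.2.2.2.2.2.2.2.2.2.2.2.2.2.2.2.2.2.2.2.2.2.2.2.1.1⟩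
theorem rf11k84 : CfgOK (rf11c84.e, rf11c84.n) := red_ln rf11h22.2.2.2.2.2.2.1 ⟨⟨rf11h22.2.2.2.2.2.2.1.1, rf11h11.2.2.2.2.2.2.2.2.2.2.2.2.2.2.2.2.2.2.2.2.2.2.2.2.2.2.2.2.2.2.2.2.2.2.2.2.2.2.1.1⟩, ⟨rf11h16.2.2.1.1, rf11h15.2.2.2.2.2.2.2.2.2.1.1⟩⟩
theorem rf11k85 : CfgOK (rf11c85.e, rf11c85.n) := red_ln rf11h22.2.2.2.2.2.1 ⟨⟨rf11h22.2.2.2.2.2.1.1, rf11h11.2.2.2.2.2.2.2.2.2.2.2.2.2.2.2.2.2.2.2.2.2.2.2.2.2.2.2.2.2.2.2.2.2.2.2.2.2.1.1⟩, ⟨rf11h9.2.2.2.2.2.2.2.2.2.2.2.2.2.2.2.2.2.1.1, rf11h15.2.2.2.2.2.2.2.2.1.1⟩⟩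
theorem rf11k86 : CfgOK (rf11c86.e, rf11c86.n) := red_ln rf11h22.2.2.2.2.1 ⟨rf11h22.2.2.2.2.1.1, rf11h10.2.1.1⟩
theorem rf11k87 : CfgOK (rf11c87.e, rf11c87.n) := red_ln rf11h22.2.2.2.1 ⟨rf11h22.2.2.2.1.1, rf11h9.2.2.2.2.2.2.2.2.2.2.2.2.2.2.2.2.1.1⟩
theorem rf11k88 : CfgOK (rf11c88.e, rf11c88.n) := red_ln rf11h22.2.2.1 rf11h22.2.2.1.1
theorem rf11k89 : CfgOK (rf11c89.e, rf11c89.n) := red_ln rf11h22.2.1 rf11h22.2.1.1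
theorem rf11k90 : CfgOK (rf11c90.e, rf11c90.n) := red_ln rf11h22.1 rf11h22.1.1
theorem rf11k91 : CfgOK (rf11c91.e, rf11c91.n) := red_ln rf11h21.2.2.2.2.2.2.2.2.1 rf11h21.2.2.2.2.2.2.2.2.1.1
theorem rf11k92 : CfgOK (rf11c92.e, rf11c92.n) := red_ln rf11h21.2.2.2.2.2.2.2.1 rf11h21.2.2.2.2.2.2.2.1.1
theorem rf11k93 : CfgOK (rf11c93.e, rf11c93.n) := red_ln rf11h21.2.2.2.2.2.2.1 ⟨rf11h21.2.2.2.2.2.2.1.1, rf11h11.2.2.2.2.2.2.2.2.2.2.2.2.2.2.2.2.2.2.2.2.2.2.2.2.2.2.2.2.2.2.2.2.2.2.2.2.1.1⟩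
theorem rf11k94 : CfgOK (rf11c94.e, rf11c94.n) := red_ln rf11h21.2.2.2.2.2.1 ⟨rf11h21.2.2.2.2.2.1.1, rf11h11.2.2.2.2.2.2.2.2.2.2.2.2.2.2.2.2.2.2.2.2.2.2.2.2.2.2.2.2.2.2.2.2.2.2.2.1.1⟩
theorem rf11k95 : CfgOK (rf11c95.e, rf11c95.n) := red_ln rf11h21.2.2.2.2.1 ⟨rf11h21.2.2.2.2.1.1, rf11h11.2.2.2.2.2.2.2.2.2.2.2.2.2.2.2.2.2.2.2.2.2.2.2.2.2.2.2.2.2.2.2.2.2.2.1.1⟩
theorem rf11k96 : CfgOK (rf11c96.e, rf11c96.n) := red_ln rf11h21.2.2.2.1 ⟨rf11h21.2.2.2.1.1, rf11h11.2.2.2.2.2.2.2.2.2.2.2.2.2.2.2.2.2.2.2.2.2.2.2.2.2.2.2.2.2.2.2.2.2.1.1⟩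
theorem rf11k97 : CfgOK (rf11c97.e, rf11c97.n) := red_ln rf11h21.2.2.1 ⟨rf11h21.2.2.1.1, rf11h11.2.2.2.2.2.2.2.2.2.2.2.2.2.2.2.2.2.2.2.2.2.2.2.2.2.2.2.2.2.2.2.2.1.1⟩
theorem rf11k98 : CfgOK (rf11c98.e, rf11c98.n) := red_ln rf11h21.2.1 ⟨rf11h21.2.1.1, rf11h11.2.2.2.2.2.2.2.2.2.2.2.2.2.2.2.2.2.2.2.2.2.2.2.2.2.2.2.2.2.2.2.1.1⟩
theorem rf11k99 : CfgOK (rf11c99.e, rf11c99.n) := red_ln rf11h21.1 ⟨rf11h21.1.1, rf11h11.2.2.2.2.2.2.2.2.2.2.2.2.2.2.2.2.2.2.2.2.2.2.2.2.2.2.2.2.2.2.1.1⟩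
theorem rf11k100 : CfgOK (rf11c100.e, rf11c100.n) := red_ln rf11h20.2.2.2.2.2.2.2.2.1 ⟨rf11h20.2.2.2.2.2.2.2.2.1.1, rf11h11.2.2.2.2.2.2.2.2.2.2.2.2.2.2.2.2.2.2.2.2.2.2.2.2.2.2.2.2.2.1.1⟩
theorem rf11k101 : CfgOK (rf11c101.e, rf11c101.n) := red_ln rf11h20.2.2.2.2.2.2.2.1 ⟨rf11h20.2.2.2.2.2.2.2.1.1, rf11h11.2.2.2.2.2.2.2.2.2.2.2.2.2.2.2.2.2.2.2.2.2.2.2.2.2.2.2.2.1.1⟩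
theorem rf11k102 : CfgOK (rf11c102.e, rf11c102.n) := red_ln rf11h20.2.2.2.2.2.2.1 ⟨rf11h20.2.2.2.2.2.2.1.1, rf11h11.2.2.2.2.2.2.2.2.2.2.2.2.2.2.2.2.2.2.2.2.2.2.2.2.2.2.2.1.1⟩
theorem rf11k103 : CfgOK (rf11c103.e, rf11c103.n) := red_ln rf11h20.2.2.2.2.2.1 ⟨rf11h20.2.2.2.2.2.1.1, rf11h11.2.2.2.2.2.2.2.2.2.2.2.2.2.2.2.2.2.2.2.2.2.2.2.2.2.2.1.1⟩
theorem rf11k104 : CfgOK (rf11c104.e, rf11c104.n) := red_ln rf11h20.2.2.2.2.1 ⟨rf11h20.2.2.2.2.1.1, rf11h11.2.2.2.2.2.2.2.2.2.2.2.2.2.2.2.2.2.2.2.2.2.2.2.2.2.1.1⟩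
theorem rf11k105 : CfgOK (rf11c105.e, rf11c105.n) := red_ln rf11h20.2.2.2.1 ⟨rf11h20.2.2.2.1.1, rf11h11.2.2.2.2.2.2.2.2.2.2.2.2.2.2.2.2.2.2.2.2.2.2.2.2.1.1⟩
theorem rf11k106 : CfgOK (rf11c106.e, rf11c106.n) := red_ln rf11h20.2.2.1 ⟨rf11h20.2.2.1.1, rf11h9.2.2.2.2.2.2.2.2.2.2.2.2.2.2.2.2.2.2.2.2.1.1⟩
theorem rf11k107 : CfgOK (rf11c107.e, rf11c107.n) := red_ln rf11h20.2.1 ⟨⟨rf11h20.2.1.1, rf11h9.2.2.2.2.2.2.2.2.2.2.2.2.2.2.2.2.2.2.2.1.1⟩, ⟨rf11h11.2.2.2.2.2.2.2.2.2.2.2.2.2.2.2.2.2.2.2.2.2.2.2.1.1, rf11h15.2.2.2.2.2.2.2.1.1⟩⟩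
theorem rf11k108 : CfgOK (rf11c108.e, rf11c108.n) := red_ln rf11h20.1 ⟨rf11h20.1.1, rf11h9.2.2.2.2.2.2.2.2.2.2.2.2.2.2.2.1.1⟩
theorem rf11k109 : CfgOK (rf11c109.e, rf11c109.n) := red_ln rf11h19.2.2.2.2.2.2.2.2.1 rf11h19.2.2.2.2.2.2.2.2.1.1
theorem rf11k110 : CfgOK (rf11c110.e, rf11c110.n) := red_ln rf11h19.2.2.2.2.2.2.2.1 rf11h19.2.2.2.2.2.2.2.1.1
theorem rf11k111 : CfgOK (rf11c111.e, rf11c111.n) := red_ln rf11h19.2.2.2.2.2.2.1 rf11h19.2.2.2.2.2.2.1.1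
theorem rf11k112 : CfgOK (rf11c112.e, rf11c112.n) := red_ln rf11h19.2.2.2.2.2.1 rf11h19.2.2.2.2.2.1.1
theorem rf11k113 : CfgOK (rf11c113.e, rf11c113.n) := red_ln rf11h19.2.2.2.2.1 rf11h19.2.2.2.2.1.1
theorem rf11k114 : CfgOK (rf11c114.e, rf11c114.n) := red_ln rf11h19.2.2.2.1 rf11h19.2.2.2.1.1
theorem rf11k115 : CfgOK (rf11c115.e, rf11c115.n) := red_ln rf11h19.2.2.1 rf11h19.2.2.1.1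
theorem rf11k116 : CfgOK (rf11c116.e, rf11c116.n) := red_ln rf11h19.2.1 rf11h19.2.1.1
theorem rf11k117 : CfgOK (rf11c117.e, rf11c117.n) := red_ln rf11h19.1 rf11h19.1.1
theorem rf11k118 : CfgOK (rf11c118.e, rf11c118.n) := red_ln rf11h18.2.2.2.2.2.2.2.2.1 ⟨rf11h18.2.2.2.2.2.2.2.2.1.1, rf11h11.2.2.2.2.2.2.2.2.2.2.2.2.2.2.2.2.2.2.2.2.2.2.1.1⟩
theorem rf11k119 : CfgOK (rf11c119.e, rf11c119.n) := red_ln rf11h18.2.2.2.2.2.2.2.1 ⟨rf11h18.2.2.2.2.2.2.2.1.1, rf11h11.2.2.2.2.2.2.2.2.2.2.2.2.2.2.2.2.2.2.2.2.2.1.1⟩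
theorem rf11k120 : CfgOK (rf11c120.e, rf11c120.n) := red_ln rf11h18.2.2.2.2.2.2.1 ⟨rf11h18.2.2.2.2.2.2.1.1, rf11h11.2.2.2.2.2.2.2.2.2.2.2.2.2.2.2.2.2.2.2.2.1.1⟩
theorem rf11k121 : CfgOK (rf11c121.e, rf11c121.n) := red_ln rf11h18.2.2.2.2.2.1 ⟨rf11h18.2.2.2.2.2.1.1, rf11h11.2.2.2.2.2.2.2.2.2.2.2.2.2.2.2.2.2.2.2.1.1⟩
theorem rf11k122 : CfgOK (rf11c122.e, rf11c122.n) := red_ln rf11h18.2.2.2.2.1 ⟨rf11h18.2.2.2.2.1.1, rf11h11.2.2.2.2.2.2.2.2.2.2.2.2.2.2.2.2.2.2.1.1⟩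
theorem rf11k123 : CfgOK (rf11c123.e, rf11c123.n) := red_ln rf11h18.2.2.2.1 ⟨rf11h18.2.2.2.1.1, rf11h11.2.2.2.2.2.2.2.2.2.2.2.2.2.2.2.2.2.1.1⟩
theorem rf11k124 : CfgOK (rf11c124.e, rf11c124.n) := red_ln rf11h18.2.2.1 ⟨rf11h18.2.2.1.1, rf11h11.2.2.2.2.2.2.2.2.2.2.2.2.2.2.2.2.1.1⟩
theorem rf11k125 : CfgOK (rf11c125.e, rf11c125.n) := red_ln rf11h18.2.1 ⟨rf11h18.2.1.1, rf11h11.2.2.2.2.2.2.2.2.2.2.2.2.2.2.2.1.1⟩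
theorem rf11k126 : CfgOK (rf11c126.e, rf11c126.n) := red_ln rf11h18.1 ⟨rf11h18.1.1, rf11h11.2.2.2.2.2.2.2.2.2.2.2.2.2.2.1.1⟩
theorem rf11k127 : CfgOK (rf11c127.e, rf11c127.n) := red_ln rf11h17.2.2.2.2.2.2.2.2.1 ⟨rf11h17.2.2.2.2.2.2.2.2.1.1, rf11h11.2.2.2.2.2.2.2.2.2.2.2.2.2.1.1⟩
theorem rf11k128 : CfgOK (rf11c128.e, rf11c128.n) := red_ln rf11h17.2.2.2.2.2.2.2.1 ⟨rf11h17.2.2.2.2.2.2.2.1.1, rf11h11.2.2.2.2.2.2.2.2.2.2.2.2.1.1⟩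
theorem rf11k129 : CfgOK (rf11c129.e, rf11c129.n) := red_ln rf11h17.2.2.2.2.2.2.1 ⟨rf11h17.2.2.2.2.2.2.1.1, rf11h9.2.2.2.2.2.2.2.2.2.2.2.2.2.2.2.2.2.2.1.1⟩
theorem rf11k130 : CfgOK (rf11c130.e, rf11c130.n) := red_ln rf11h17.2.2.2.2.2.1 ⟨rf11h17.2.2.2.2.2.1.1, rf11h16.2.2.2.2.2.1.1⟩
theorem rf11k131 : CfgOK (rf11c131.e, rf11c131.n) := red_ln rf11h17.2.2.2.2.1 ⟨rf11h17.2.2.2.2.1.1, rf11h9.2.2.2.2.2.2.2.2.2.2.2.2.2.2.1.1⟩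
theorem rf11k132 : CfgOK (rf11c132.e, rf11c132.n) := red_ln rf11h17.2.2.2.1 ⟨⟨rf11h17.2.2.2.1.1, rf11h9.2.2.2.2.2.2.2.2.2.2.2.2.2.1.1⟩, ⟨rf11h11.2.2.2.2.2.2.2.2.2.2.2.1.1, rf11h15.2.2.2.2.2.2.1.1⟩⟩
theorem rf11k133 : CfgOK (rf11c133.e, rf11c133.n) := red_ln rf11h17.2.2.1 ⟨⟨rf11h17.2.2.1.1, rf11h9.2.2.2.2.2.2.2.2.2.2.2.2.1.1⟩, ⟨rf11h11.2.2.2.2.2.2.2.2.2.2.1.1, rf11h15.2.2.2.2.2.1.1⟩⟩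
theorem rf11k134 : CfgOK (rf11c134.e, rf11c134.n) := red_ln rf11h17.2.1 ⟨⟨rf11h17.2.1.1, rf11h9.2.2.2.2.2.2.2.2.2.2.1.1⟩, ⟨rf11h11.2.2.2.2.2.2.2.2.2.1.1, rf11h15.2.2.2.2.1.1⟩⟩
theorem rf11k135 : CfgOK (rf11c135.e, rf11c135.n) := red_ln rf11h17.1 ⟨⟨rf11h17.1.1, rf11h16.2.1.1⟩, ⟨rf11h11.2.2.2.2.2.2.2.2.1.1, rf11h15.2.2.2.1.1⟩⟩
theorem rf11k136 : CfgOK (rf11c136.e, rf11c136.n) := red_ln rf11h12.2.2.2.2.2.2.2.2.1 ⟨rf11h12.2.2.2.2.2.2.2.2.1.1, rf11h9.1.1⟩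
theorem rf11k137 : CfgOK (rf11c137.e, rf11c137.n) := red_ln rf11h12.2.2.2.2.2.2.2.1 rf11h12.2.2.2.2.2.2.2.1.1
theorem rf11k138 : CfgOK (rf11c138.e, rf11c138.n) := red_ln rf11h12.2.2.2.2.2.2.1 rf11h12.2.2.2.2.2.2.1.1
theorem rf11k139 : CfgOK (rf11c139.e, rf11c139.n) := red_ln rf11h12.2.2.2.2.2.1 rf11h12.2.2.2.2.2.1.1
theorem rf11k140 : CfgOK (rf11c140.e, rf11c140.n) := red_ln rf11h12.2.2.2.2.1 ⟨rf11h12.2.2.2.2.1.1, rf11h10.1.1⟩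
theorem rf11k141 : CfgOK (rf11c141.e, rf11c141.n) := red_ln rf11h12.2.2.2.1 ⟨⟨rf11h12.2.2.2.1.1, rf11h9.2.2.2.2.2.2.2.2.2.2.2.1.1⟩, ⟨rf11h11.2.2.2.2.2.2.2.1.1, rf11h15.2.2.1.1⟩⟩
theorem rf11k142 : CfgOK (rf11c142.e, rf11c142.n) := red_ln rf11h12.2.2.1 ⟨rf11h12.2.2.1.1, rf11h16.1.1⟩
theorem rf11k143 : CfgOK (rf11c143.e, rf11c143.n) := red_ln rf11h12.2.1 ⟨rf11h12.2.1.1, rf11h9.2.2.2.2.2.2.2.2.2.1.1⟩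
theorem rf11k144 : CfgOK (rf11c144.e, rf11c144.n) := red_ln rf11h12.1 ⟨⟨rf11h12.1.1, rf11h9.2.2.2.2.2.2.2.2.1.1⟩, ⟨rf11h11.2.2.2.2.2.2.1.1, rf11h15.2.1.1⟩⟩
theorem rf11k145 : CfgOK (rf11c145.e, rf11c145.n) := red_ln rf11h1.2.2.2.2.2.2.2.1 rf11h1.2.2.2.2.2.2.2.1.1
theorem rf11k146 : CfgOK (rf11c146.e, rf11c146.n) := red_ln rf11h1.2.2.2.2.2.2.1 rf11h1.2.2.2.2.2.2.1.1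
theorem rf11k147 : CfgOK (rf11c147.e, rf11c147.n) := red_ln rf11h1.2.2.2.2.2.1 rf11h1.2.2.2.2.2.1.1
theorem rf11k148 : CfgOK (rf11c148.e, rf11c148.n) := red_ln rf11h1.2.2.2.2.1 ⟨rf11h1.2.2.2.2.1.1, rf11h11.2.2.2.2.2.1.1⟩
theorem rf11k149 : CfgOK (rf11c149.e, rf11c149.n) := red_ln rf11h1.2.2.2.1 ⟨rf11h1.2.2.2.1.1, rf11h11.2.2.2.2.1.1⟩
theorem rf11k150 : CfgOK (rf11c150.e, rf11c150.n) := red_ln rf11h1.2.2.1 ⟨rf11h1.2.2.1.1, rf11h11.2.2.2.1.1⟩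
theorem rf11k151 : CfgOK (rf11c151.e, rf11c151.n) := red_ln rf11h1.2.1 ⟨rf11h1.2.1.1, rf11h10.2.2.1.1⟩
theorem rf11k152 : CfgOK (rf11c152.e, rf11c152.n) := red_ln rf11h1.1 ⟨rf11h1.1.1, rf11h9.2.2.2.2.2.2.2.1.1⟩
theorem rf11k153 : CfgOK (rf11c153.e, rf11c153.n) := red_ln rf11h0.2.2.2.2.2.1 ⟨⟨rf11h0.2.2.2.2.2.1.1, rf11h9.2.2.2.2.2.2.1.1⟩, ⟨rf11h11.2.2.1.1, rf11h15.1.1⟩⟩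
theorem rf11k154 : CfgOK (rf11c154.e, rf11c154.n) := red_ln rf11h0.2.2.2.2.1 rf11h0.2.2.2.2.1.1
theorem rf11k155 : CfgOK (rf11c155.e, rf11c155.n) := red_ln rf11h0.2.2.2.1 rf11h0.2.2.2.1.1
theorem rf11k156 : CfgOK (rf11c156.e, rf11c156.n) := red_ln rf11h0.2.2.1 ⟨rf11h0.2.2.1.1, rf11h11.2.1.1⟩
theorem rf11k157 : CfgOK (rf11c157.e, rf11c157.n) := red_ln rf11h0.2.1 ⟨rf11h0.2.1.1, rf11h11.1.1⟩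
theorem rf11k158 : CfgOK (rf11c158.e, rf11c158.n) := red_ln rf11h0.1 rf11h0.1.1

end Pool.Agent.Lib.G6.B
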