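import Pool.Agent.Lib.G6.BRed
import Pool.Agent.Lib.G6D.RF9

set_option autoImplicit false
set_option maxRecDepth 100000
set_option linter.all false

namespace Pool.Agent.Lib.G6.B

theorem rf9h0 : AllL LnOK rf9l0 := batch_of rf9th.1
theorem rf9h1 : AllL LnOK rf9l1 := batch_of rf9th.2.1
theorem rf9h2 : AllL LnOK rf9l10 := batch_of rf9th.2.2.2.2.2.2.2.2.2.2.1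
theorem rf9h3 : AllL LnOK rf9l11 := batch_of rf9th.2.2.2.2.2.2.2.2.2.2.2.1
theorem rf9h4 : AllL LnOK rf9l12 := batch_of rf9th.2.2.2.2.2.2.2.2.2.2.2.2.1
theorem rf9h5 : AllL LnOK rf9l13 := batch_of rf9th.2.2.2.2.2.2.2.2.2.2.2.2.2.1
theorem rf9h6 : AllL LnOK rf9l14 := batch_of rf9th.2.2.2.2.2.2.2.2.2.2.2.2.2.2.1
theorem rf9h7 : AllL LnOK rf9l15 := batch_of rf9th.2.2.2.2.2.2.2.2.2.2.2.2.2.2.2.1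
theorem rf9h8 : AllL LnOK rf9l16 := batch_of rf9th.2.2.2.2.2.2.2.2.2.2.2.2.2.2.2.2.1
theorem rf9h9 : AllL LnOK rf9l17 := batch_of rf9th.2.2.2.2.2.2.2.2.2.2.2.2.2.2.2.2.2.1
theorem rf9h10 : AllL LnOK rf9l18 := batch_of rf9th.2.2.2.2.2.2.2.2.2.2.2.2.2.2.2.2.2.2.1
theorem rf9h11 : AllL LnOK rf9l19 := batch_of rf9th.2.2.2.2.2.2.2.2.2.2.2.2.2.2.2.2.2.2.2.1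
theorem rf9h12 : AllL LnOK rf9l2 := batch_of rf9th.2.2.1
theorem rf9h13 : AllL LnOK rf9l20 := batch_of rf9th.2.2.2.2.2.2.2.2.2.2.2.2.2.2.2.2.2.2.2.2.1
theorem rf9h14 : AllL LnOK rf9l21 := batch_of rf9th.2.2.2.2.2.2.2.2.2.2.2.2.2.2.2.2.2.2.2.2.2.1
theorem rf9h15 : AllL LnOK rf9l22 := batch_of rf9th.2.2.2.2.2.2.2.2.2.2.2.2.2.2.2.2.2.2.2.2.2.2.1
theorem rf9h16 : AllL LnOK rf9l23 := batch_of rf9th.2.2.2.2.2.2.2.2.2.2.2.2.2.2.2.2.2.2.2.2.2.2.2.1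
theorem rf9h17 : AllL LnOK rf9l24 := batch_of rf9th.2.2.2.2.2.2.2.2.2.2.2.2.2.2.2.2.2.2.2.2.2.2.2.2.1
theorem rf9h18 : AllL LnOK rf9l25 := batch_of rf9th.2.2.2.2.2.2.2.2.2.2.2.2.2.2.2.2.2.2.2.2.2.2.2.2.2
theorem rf9h19 : AllL LnOK rf9l3 := batch_of rf9th.2.2.2.1
theorem rf9h20 : AllL LnOK rf9l4 := batch_of rf9th.2.2.2.2.1
theorem rf9h21 : AllL LnOK rf9l5 := batch_of rf9th.2.2.2.2.2.1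
theorem rf9h22 : AllL LnOK rf9l6 := batch_of rf9th.2.2.2.2.2.2.1
theorem rf9h23 : AllL LnOK rf9l7 := batch_of rf9th.2.2.2.2.2.2.2.1
theorem rf9h24 : AllL LnOK rf9l8 := batch_of rf9th.2.2.2.2.2.2.2.2.1
theorem rf9h25 : AllL LnOK rf9l9 := batch_of rf9th.2.2.2.2.2.2.2.2.2.1
theorem rf9k0 : CfgOK (rf9c0.e, rf9c0.n) := red_ln rf9h1.2.2.1 ⟨rf9h1.2.2.1.1, rf9h12.2.2.2.2.2.1.1⟩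
theorem rf9k1 : CfgOK (rf9c1.e, rf9c1.n) := red_ln rf9h1.2.1 ⟨⟨rf9h1.2.1.1, rf9h20.1.1⟩, ⟨rf9h20.2.2.2.2.2.1.1, rf9h23.2.2.1.1⟩⟩
theorem rf9k2 : CfgOK (rf9c2.e, rf9c2.n) := red_ln rf9h1.1 ⟨rf9h1.1.1, rf9h25.2.2.2.2.2.1.1⟩
theorem rf9k3 : CfgOK (rf9c3.e, rf9c3.n) := red_ln rf9h0.2.2.1 rf9h0.2.2.1.1
theorem rf9k4 : CfgOK (rf9c4.e, rf9c4.n) := red_ln rf9h0.2.1 ⟨rf9h0.2.1.1, rf9h12.1.1⟩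
theorem rf9k5 : CfgOK (rf9c5.e, rf9c5.n) := red_ln rf9h0.1 ⟨⟨rf9h0.1.1, rf9h19.2.2.2.2.2.2.2.2.2.2.2.2.2.2.2.1.1⟩, ⟨rf9h20.2.1.1, rf9h23.2.2.2.2.2.2.2.2.2.2.2.2.2.2.2.2.2.2.1.1⟩⟩
theorem rf9k6 : CfgOK (rf9c6.e, rf9c6.n) := red_ln rf9h17.2.2.1 ⟨⟨rf9h17.2.2.1.1, rf9h22.2.2.2.1.1⟩, ⟨rf9h19.2.2.2.2.2.2.2.2.2.2.2.2.2.2.1.1, rf9h23.2.2.2.2.2.2.2.2.2.1.1⟩⟩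
theorem rf9k7 : CfgOK (rf9c7.e, rf9c7.n) := red_ln rf9h17.2.1 ⟨⟨rf9h17.2.1.1, rf9h22.2.2.1.1⟩, ⟨rf9h12.2.2.1.1, rf9h23.2.2.2.2.2.2.2.2.2.2.2.2.1.1⟩⟩
theorem rf9k8 : CfgOK (rf9c8.e, rf9c8.n) := red_ln rf9h17.1 ⟨rf9h17.1.1, rf9h21.2.2.2.2.2.2.1.1⟩
theorem rf9k9 : CfgOK (rf9c9.e, rf9c9.n) := red_ln rf9h16.2.2.2.2.2.2.2.2.2.2.2.2.2.2.1 ⟨rf9h16.2.2.2.2.2.2.2.2.2.2.2.2.2.2.1.1, rf9h12.2.1.1⟩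
theorem rf9k10 : CfgOK (rf9c10.e, rf9c10.n) := red_ln rf9h16.2.2.2.2.2.2.2.2.2.2.2.2.2.1 ⟨rf9h16.2.2.2.2.2.2.2.2.2.2.2.2.2.1.1, rf9h20.2.2.2.2.2.2.2.2.1.1⟩
theorem rf9k11 : CfgOK (rf9c11.e, rf9c11.n) := red_ln rf9h16.2.2.2.2.2.2.2.2.2.2.2.2.1 ⟨⟨rf9h16.2.2.2.2.2.2.2.2.2.2.2.2.1.1, rf9h20.2.2.2.2.1.1⟩, ⟨rf9h22.2.1.1, rf9h23.2.2.2.2.2.2.2.2.1.1⟩⟩
theorem rf9k12 : CfgOK (rf9c12.e, rf9c12.n) := red_ln rf9h16.2.2.2.2.2.2.2.2.2.2.2.1 ⟨⟨rf9h16.2.2.2.2.2.2.2.2.2.2.2.1.1, rf9h20.2.2.2.1.1⟩, ⟨rf9h22.1.1, rf9h23.2.2.2.2.1.1⟩⟩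
theorem rf9k13 : CfgOK (rf9c13.e, rf9c13.n) := red_ln rf9h16.2.2.2.2.2.2.2.2.2.2.1 ⟨⟨rf9h16.2.2.2.2.2.2.2.2.2.2.1.1, rf9h20.2.2.1.1⟩, ⟨rf9h21.2.2.2.2.2.2.2.2.2.2.2.2.2.2.2.2.2.2.2.2.2.2.2.1.1, rf9h23.2.2.2.1.1⟩⟩
theorem rf9k14 : CfgOK (rf9c14.e, rf9c14.n) := red_ln rf9h16.2.2.2.2.2.2.2.2.2.1 rf9h16.2.2.2.2.2.2.2.2.2.1.1
theorem rf9k15 : CfgOK (rf9c15.e, rf9c15.n) := red_ln rf9h16.2.2.2.2.2.2.2.2.1 rf9h16.2.2.2.2.2.2.2.2.1.1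
theorem rf9k16 : CfgOK (rf9c16.e, rf9c16.n) := red_ln rf9h16.2.2.2.2.2.2.2.1 rf9h16.2.2.2.2.2.2.2.1.1
theorem rf9k17 : CfgOK (rf9c17.e, rf9c17.n) := red_ln rf9h16.2.2.2.2.2.2.1 rf9h16.2.2.2.2.2.2.1.1
theorem rf9k18 : CfgOK (rf9c18.e, rf9c18.n) := red_ln rf9h16.2.2.2.2.2.1 rf9h16.2.2.2.2.2.1.1
theorem rf9k19 : CfgOK (rf9c19.e, rf9c19.n) := red_ln rf9h16.2.2.2.2.1 ⟨rf9h16.2.2.2.2.1.1, rf9h25.2.2.2.2.1.1⟩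
theorem rf9k20 : CfgOK (rf9c20.e, rf9c20.n) := red_ln rf9h16.2.2.2.1 ⟨rf9h16.2.2.2.1.1, rf9h19.2.2.2.2.2.2.2.2.2.2.2.2.2.2.2.2.1.1⟩
theorem rf9k21 : CfgOK (rf9c21.e, rf9c21.n) := red_ln rf9h16.2.2.1 ⟨rf9h16.2.2.1.1, rf9h21.2.2.2.2.2.2.2.2.2.2.2.2.2.2.2.2.2.2.2.2.2.2.1.1⟩
theorem rf9k22 : CfgOK (rf9c22.e, rf9c22.n) := red_ln rf9h16.2.1 ⟨rf9h16.2.1.1, rf9h21.2.2.2.2.2.2.2.2.2.2.2.2.2.2.2.2.2.2.2.2.2.1.1⟩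
theorem rf9k23 : CfgOK (rf9c23.e, rf9c23.n) := red_ln rf9h16.1 ⟨⟨rf9h16.1.1, rf9h21.2.2.2.2.2.2.2.2.2.2.2.2.2.2.2.2.2.2.2.2.1.1⟩, ⟨rf9h21.2.2.2.2.2.2.2.2.2.2.2.2.2.2.2.2.2.2.2.1.1, rf9h23.2.2.2.2.2.2.2.2.2.2.2.2.2.2.2.2.2.1.1⟩⟩
theorem rf9k24 : CfgOK (rf9c24.e, rf9c24.n) := red_ln rf9h15.2.2.2.2.2.2.2.2.2.2.2.2.2.2.1 ⟨⟨rf9h15.2.2.2.2.2.2.2.2.2.2.2.2.2.2.1.1, rf9h21.2.2.2.2.2.2.2.2.2.2.2.2.2.2.2.2.2.2.1.1⟩, ⟨rf9h21.2.2.2.2.2.2.2.2.2.2.2.2.2.2.2.2.2.1.1, rf9h23.2.2.2.2.2.2.2.2.2.2.2.2.2.2.2.2.1.1⟩⟩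
theorem rf9k25 : CfgOK (rf9c25.e, rf9c25.n) := red_ln rf9h15.2.2.2.2.2.2.2.2.2.2.2.2.2.1 ⟨⟨rf9h15.2.2.2.2.2.2.2.2.2.2.2.2.2.1.1, rf9h21.2.2.2.2.2.2.2.2.2.2.2.2.2.2.2.2.1.1⟩, ⟨rf9h21.2.2.2.2.2.2.2.2.2.2.2.2.2.2.2.1.1, rf9h23.2.2.2.2.2.2.2.2.2.2.2.2.2.2.2.1.1⟩⟩
theorem rf9k26 : CfgOK (rf9c26.e, rf9c26.n) := red_ln rf9h15.2.2.2.2.2.2.2.2.2.2.2.2.1 ⟨⟨rf9h15.2.2.2.2.2.2.2.2.2.2.2.2.1.1, rf9h21.2.2.2.2.2.2.2.2.2.2.2.2.2.2.1.1⟩, ⟨rf9h21.2.2.2.2.2.2.2.2.2.2.2.2.2.1.1, rf9h23.2.2.2.2.2.2.2.2.2.2.2.1.1⟩⟩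
theorem rf9k27 : CfgOK (rf9c27.e, rf9c27.n) := red_ln rf9h15.2.2.2.2.2.2.2.2.2.2.2.1 ⟨rf9h15.2.2.2.2.2.2.2.2.2.2.2.1.1, rf9h19.2.2.2.2.2.2.2.2.2.2.2.2.2.1.1⟩
theorem rf9k28 : CfgOK (rf9c28.e, rf9c28.n) := red_ln rf9h15.2.2.2.2.2.2.2.2.2.2.1 ⟨rf9h15.2.2.2.2.2.2.2.2.2.2.1.1, rf9h19.2.2.2.2.2.2.2.2.2.2.2.2.1.1⟩
theorem rf9k29 : CfgOK (rf9c29.e, rf9c29.n) := red_ln rf9h15.2.2.2.2.2.2.2.2.2.1 ⟨rf9h15.2.2.2.2.2.2.2.2.2.1.1, rf9h19.2.2.2.2.2.2.2.2.2.2.2.1.1⟩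
theorem rf9k30 : CfgOK (rf9c30.e, rf9c30.n) := red_ln rf9h15.2.2.2.2.2.2.2.2.1 ⟨rf9h15.2.2.2.2.2.2.2.2.1.1, rf9h19.2.2.2.2.2.2.2.2.2.2.1.1⟩
theorem rf9k31 : CfgOK (rf9c31.e, rf9c31.n) := red_ln rf9h15.2.2.2.2.2.2.2.1 ⟨⟨rf9h15.2.2.2.2.2.2.2.1.1, rf9h19.2.2.2.2.2.2.2.2.2.1.1⟩, ⟨rf9h25.2.2.2.1.1, rf9h18.2.2.2.2.2.2.2.2.2.2.2.1.1⟩⟩
theorem rf9k32 : CfgOK (rf9c32.e, rf9c32.n) := red_ln rf9h15.2.2.2.2.2.2.1 ⟨⟨rf9h15.2.2.2.2.2.2.1.1, rf9h19.2.2.2.2.2.2.2.2.1.1⟩, ⟨rf9h21.2.2.2.2.2.2.2.2.2.2.2.2.1.1, rf9h23.2.2.2.2.2.2.2.2.2.2.2.2.2.2.1.1⟩⟩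
theorem rf9k33 : CfgOK (rf9c33.e, rf9c33.n) := red_ln rf9h15.2.2.2.2.2.1 ⟨⟨rf9h15.2.2.2.2.2.1.1, rf9h19.2.2.2.2.2.2.2.1.1⟩, ⟨rf9h21.2.2.2.2.2.2.2.2.2.2.2.1.1, rf9h23.2.2.2.2.2.2.2.2.2.2.2.2.2.1.1⟩⟩
theorem rf9k34 : CfgOK (rf9c34.e, rf9c34.n) := red_ln rf9h15.2.2.2.2.1 ⟨⟨rf9h15.2.2.2.2.1.1, rf9h19.2.2.2.2.2.2.1.1⟩, ⟨rf9h21.2.2.2.2.2.2.2.2.2.1.1, rf9h23.2.2.2.2.2.2.2.2.2.2.1.1⟩⟩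
theorem rf9k35 : CfgOK (rf9c35.e, rf9c35.n) := red_ln rf9h15.2.2.2.1 ⟨⟨rf9h15.2.2.2.1.1, rf9h19.2.2.2.2.2.1.1⟩, ⟨rf9h19.2.2.2.2.1.1, rf9h23.2.2.2.2.2.2.2.1.1⟩⟩
theorem rf9k36 : CfgOK (rf9c36.e, rf9c36.n) := red_ln rf9h15.2.2.1 ⟨rf9h15.2.2.1.1, rf9h19.2.2.2.1.1⟩
theorem rf9k37 : CfgOK (rf9c37.e, rf9c37.n) := red_ln rf9h15.2.1 ⟨rf9h15.2.1.1, rf9h12.2.2.2.2.1.1⟩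
theorem rf9k38 : CfgOK (rf9c38.e, rf9c38.n) := red_ln rf9h15.1 rf9h15.1.1
theorem rf9k39 : CfgOK (rf9c39.e, rf9c39.n) := red_ln rf9h14.2.2.2.2.2.2.2.2.2.2.2.2.2.2.1 rf9h14.2.2.2.2.2.2.2.2.2.2.2.2.2.2.1.1
theorem rf9k40 : CfgOK (rf9c40.e, rf9c40.n) := red_ln rf9h14.2.2.2.2.2.2.2.2.2.2.2.2.2.1 rf9h14.2.2.2.2.2.2.2.2.2.2.2.2.2.1.1
theorem rf9k41 : CfgOK (rf9c41.e, rf9c41.n) := red_ln rf9h14.2.2.2.2.2.2.2.2.2.2.2.2.1 rf9h14.2.2.2.2.2.2.2.2.2.2.2.2.1.1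
theorem rf9k42 : CfgOK (rf9c42.e, rf9c42.n) := red_ln rf9h14.2.2.2.2.2.2.2.2.2.2.2.1 rf9h14.2.2.2.2.2.2.2.2.2.2.2.1.1
theorem rf9k43 : CfgOK (rf9c43.e, rf9c43.n) := red_ln rf9h14.2.2.2.2.2.2.2.2.2.2.1 rf9h14.2.2.2.2.2.2.2.2.2.2.1.1
theorem rf9k44 : CfgOK (rf9c44.e, rf9c44.n) := red_ln rf9h14.2.2.2.2.2.2.2.2.2.1 rf9h14.2.2.2.2.2.2.2.2.2.1.1
theorem rf9k45 : CfgOK (rf9c45.e, rf9c45.n) := red_ln rf9h14.2.2.2.2.2.2.2.2.1 rf9h14.2.2.2.2.2.2.2.2.1.1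
theorem rf9k46 : CfgOK (rf9c46.e, rf9c46.n) := red_ln rf9h14.2.2.2.2.2.2.2.1 rf9h14.2.2.2.2.2.2.2.1.1
theorem rf9k47 : CfgOK (rf9c47.e, rf9c47.n) := red_ln rf9h14.2.2.2.2.2.2.1 rf9h14.2.2.2.2.2.2.1.1
theorem rf9k48 : CfgOK (rf9c48.e, rf9c48.n) := red_ln rf9h14.2.2.2.2.2.1 rf9h14.2.2.2.2.2.1.1
theorem rf9k49 : CfgOK (rf9c49.e, rf9c49.n) := red_ln rf9h14.2.2.2.2.1 rf9h14.2.2.2.2.1.1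
theorem rf9k50 : CfgOK (rf9c50.e, rf9c50.n) := red_ln rf9h14.2.2.2.1 rf9h14.2.2.2.1.1
theorem rf9k51 : CfgOK (rf9c51.e, rf9c51.n) := red_ln rf9h14.2.2.1 rf9h14.2.2.1.1
theorem rf9k52 : CfgOK (rf9c52.e, rf9c52.n) := red_ln rf9h14.2.1 rf9h14.2.1.1
theorem rf9k53 : CfgOK (rf9c53.e, rf9c53.n) := red_ln rf9h14.1 rf9h14.1.1
theorem rf9k54 : CfgOK (rf9c54.e, rf9c54.n) := red_ln rf9h13.2.2.2.2.2.2.2.2.2.2.2.2.2.2.1 rf9h13.2.2.2.2.2.2.2.2.2.2.2.2.2.2.1.1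
theorem rf9k55 : CfgOK (rf9c55.e, rf9c55.n) := red_ln rf9h13.2.2.2.2.2.2.2.2.2.2.2.2.2.1 rf9h13.2.2.2.2.2.2.2.2.2.2.2.2.2.1.1
theorem rf9k56 : CfgOK (rf9c56.e, rf9c56.n) := red_ln rf9h13.2.2.2.2.2.2.2.2.2.2.2.2.1 rf9h13.2.2.2.2.2.2.2.2.2.2.2.2.1.1
theorem rf9k57 : CfgOK (rf9c57.e, rf9c57.n) := red_ln rf9h13.2.2.2.2.2.2.2.2.2.2.2.1 rf9h13.2.2.2.2.2.2.2.2.2.2.2.1.1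
theorem rf9k58 : CfgOK (rf9c58.e, rf9c58.n) := red_ln rf9h13.2.2.2.2.2.2.2.2.2.2.1 rf9h13.2.2.2.2.2.2.2.2.2.2.1.1
theorem rf9k59 : CfgOK (rf9c59.e, rf9c59.n) := red_ln rf9h13.2.2.2.2.2.2.2.2.2.1 rf9h13.2.2.2.2.2.2.2.2.2.1.1
theorem rf9k60 : CfgOK (rf9c60.e, rf9c60.n) := red_ln rf9h13.2.2.2.2.2.2.2.2.1 rf9h13.2.2.2.2.2.2.2.2.1.1
theorem rf9k61 : CfgOK (rf9c61.e, rf9c61.n) := red_ln rf9h13.2.2.2.2.2.2.2.1 rf9h13.2.2.2.2.2.2.2.1.1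
theorem rf9k62 : CfgOK (rf9c62.e, rf9c62.n) := red_ln rf9h13.2.2.2.2.2.2.1 rf9h13.2.2.2.2.2.2.1.1
theorem rf9k63 : CfgOK (rf9c63.e, rf9c63.n) := red_ln rf9h13.2.2.2.2.2.1 rf9h13.2.2.2.2.2.1.1
theorem rf9k64 : CfgOK (rf9c64.e, rf9c64.n) := red_ln rf9h13.2.2.2.2.1 rf9h13.2.2.2.2.1.1
theorem rf9k65 : CfgOK (rf9c65.e, rf9c65.n) := red_ln rf9h13.2.2.2.1 rf9h13.2.2.2.1.1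
theorem rf9k66 : CfgOK (rf9c66.e, rf9c66.n) := red_ln rf9h13.2.2.1 rf9h13.2.2.1.1
theorem rf9k67 : CfgOK (rf9c67.e, rf9c67.n) := red_ln rf9h13.2.1 rf9h13.2.1.1
theorem rf9k68 : CfgOK (rf9c68.e, rf9c68.n) := red_ln rf9h13.1 ⟨rf9h13.1.1, rf9h25.2.2.1.1⟩
theorem rf9k69 : CfgOK (rf9c69.e, rf9c69.n) := red_ln rf9h11.2.2.2.2.2.2.2.2.2.2.2.2.2.2.1 ⟨rf9h11.2.2.2.2.2.2.2.2.2.2.2.2.2.2.1.1, rf9h25.2.1.1⟩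
theorem rf9k70 : CfgOK (rf9c70.e, rf9c70.n) := red_ln rf9h11.2.2.2.2.2.2.2.2.2.2.2.2.2.1 ⟨rf9h11.2.2.2.2.2.2.2.2.2.2.2.2.2.1.1, rf9h25.1.1⟩
theorem rf9k71 : CfgOK (rf9c71.e, rf9c71.n) := red_ln rf9h11.2.2.2.2.2.2.2.2.2.2.2.2.1 ⟨rf9h11.2.2.2.2.2.2.2.2.2.2.2.2.1.1, rf9h24.2.2.2.2.2.2.2.2.2.2.2.2.2.2.2.2.2.2.2.2.2.2.2.2.2.2.2.2.2.2.2.2.2.2.2.2.2.2.2.1.1⟩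
theorem rf9k72 : CfgOK (rf9c72.e, rf9c72.n) := red_ln rf9h11.2.2.2.2.2.2.2.2.2.2.2.1 ⟨⟨rf9h11.2.2.2.2.2.2.2.2.2.2.2.1.1, rf9h24.2.2.2.2.2.2.2.2.2.2.2.2.2.2.2.2.2.2.2.2.2.2.2.2.2.2.2.2.2.2.2.2.2.2.2.2.2.2.1.1⟩, ⟨rf9h21.2.2.2.2.2.1.1, rf9h18.2.2.2.2.2.2.2.2.2.2.1.1⟩⟩
theorem rf9k73 : CfgOK (rf9c73.e, rf9c73.n) := red_ln rf9h11.2.2.2.2.2.2.2.2.2.2.1 ⟨rf9h11.2.2.2.2.2.2.2.2.2.2.1.1, rf9h21.2.2.2.2.2.2.2.2.1.1⟩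
theorem rf9k74 : CfgOK (rf9c74.e, rf9c74.n) := red_ln rf9h11.2.2.2.2.2.2.2.2.2.1 ⟨⟨rf9h11.2.2.2.2.2.2.2.2.2.1.1, rf9h21.2.2.2.2.2.2.2.1.1⟩, ⟨rf9h19.2.2.1.1, rf9h23.2.2.2.2.2.2.1.1⟩⟩
theorem rf9k75 : CfgOK (rf9c75.e, rf9c75.n) := red_ln rf9h11.2.2.2.2.2.2.2.2.1 ⟨rf9h11.2.2.2.2.2.2.2.2.1.1, rf9h19.2.1.1⟩
theorem rf9k76 : CfgOK (rf9c76.e, rf9c76.n) := red_ln rf9h11.2.2.2.2.2.2.2.1 ⟨rf9h11.2.2.2.2.2.2.2.1.1, rf9h21.2.2.2.2.1.1⟩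
theorem rf9k77 : CfgOK (rf9c77.e, rf9c77.n) := red_ln rf9h11.2.2.2.2.2.2.1 ⟨rf9h11.2.2.2.2.2.2.1.1, rf9h19.1.1⟩
theorem rf9k78 : CfgOK (rf9c78.e, rf9c78.n) := red_ln rf9h11.2.2.2.2.2.1 ⟨rf9h11.2.2.2.2.2.1.1, rf9h12.2.2.2.2.2.2.2.2.2.2.2.2.2.2.2.2.2.2.2.2.2.2.2.1.1⟩
theorem rf9k79 : CfgOK (rf9c79.e, rf9c79.n) := red_ln rf9h11.2.2.2.2.1 ⟨rf9h11.2.2.2.2.1.1, rf9h12.2.2.2.2.2.2.2.2.2.2.2.2.2.2.2.2.2.2.2.2.2.2.1.1⟩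
theorem rf9k80 : CfgOK (rf9c80.e, rf9c80.n) := red_ln rf9h11.2.2.2.1 ⟨rf9h11.2.2.2.1.1, rf9h12.2.2.2.2.2.2.2.2.2.2.2.2.2.2.2.2.2.2.2.2.2.1.1⟩
theorem rf9k81 : CfgOK (rf9c81.e, rf9c81.n) := red_ln rf9h11.2.2.1 ⟨rf9h11.2.2.1.1, rf9h21.2.2.2.1.1⟩
theorem rf9k82 : CfgOK (rf9c82.e, rf9c82.n) := red_ln rf9h11.2.1 ⟨rf9h11.2.1.1, rf9h12.2.2.2.2.2.2.2.2.2.2.2.2.2.2.2.2.2.2.2.2.1.1⟩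
theorem rf9k83 : CfgOK (rf9c83.e, rf9c83.n) := red_ln rf9h11.1 ⟨rf9h11.1.1, rf9h21.2.2.1.1⟩
theorem rf9k84 : CfgOK (rf9c84.e, rf9c84.n) := red_ln rf9h10.2.2.2.2.2.2.2.2.2.2.2.2.2.2.1 ⟨⟨rf9h10.2.2.2.2.2.2.2.2.2.2.2.2.2.2.1.1, rf9h12.2.2.2.2.2.2.2.2.2.2.2.2.2.2.2.2.2.2.2.1.1⟩, ⟨rf9h21.2.1.1, rf9h23.2.2.2.2.2.1.1⟩⟩
theorem rf9k85 : CfgOK (rf9c85.e, rf9c85.n) := red_ln rf9h10.2.2.2.2.2.2.2.2.2.2.2.2.2.1 ⟨rf9h10.2.2.2.2.2.2.2.2.2.2.2.2.2.1.1, rf9h12.2.2.2.2.2.2.2.2.2.2.2.2.2.2.2.2.2.2.1.1⟩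
theorem rf9k86 : CfgOK (rf9c86.e, rf9c86.n) := red_ln rf9h10.2.2.2.2.2.2.2.2.2.2.2.2.1 rf9h10.2.2.2.2.2.2.2.2.2.2.2.2.1.1
theorem rf9k87 : CfgOK (rf9c87.e, rf9c87.n) := red_ln rf9h10.2.2.2.2.2.2.2.2.2.2.2.1 rf9h10.2.2.2.2.2.2.2.2.2.2.2.1.1
theorem rf9k88 : CfgOK (rf9c88.e, rf9c88.n) := red_ln rf9h10.2.2.2.2.2.2.2.2.2.2.1 rf9h10.2.2.2.2.2.2.2.2.2.2.1.1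
theorem rf9k89 : CfgOK (rf9c89.e, rf9c89.n) := red_ln rf9h10.2.2.2.2.2.2.2.2.2.1 rf9h10.2.2.2.2.2.2.2.2.2.1.1
theorem rf9k90 : CfgOK (rf9c90.e, rf9c90.n) := red_ln rf9h10.2.2.2.2.2.2.2.2.1 rf9h10.2.2.2.2.2.2.2.2.1.1
theorem rf9k91 : CfgOK (rf9c91.e, rf9c91.n) := red_ln rf9h10.2.2.2.2.2.2.2.1 rf9h10.2.2.2.2.2.2.2.1.1
theorem rf9k92 : CfgOK (rf9c92.e, rf9c92.n) := red_ln rf9h10.2.2.2.2.2.2.1 rf9h10.2.2.2.2.2.2.1.1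
theorem rf9k93 : CfgOK (rf9c93.e, rf9c93.n) := red_ln rf9h10.2.2.2.2.2.1 rf9h10.2.2.2.2.2.1.1
theorem rf9k94 : CfgOK (rf9c94.e, rf9c94.n) := red_ln rf9h10.2.2.2.2.1 rf9h10.2.2.2.2.1.1
theorem rf9k95 : CfgOK (rf9c95.e, rf9c95.n) := red_ln rf9h10.2.2.2.1 rf9h10.2.2.2.1.1
theorem rf9k96 : CfgOK (rf9c96.e, rf9c96.n) := red_ln rf9h10.2.2.1 rf9h10.2.2.1.1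
theorem rf9k97 : CfgOK (rf9c97.e, rf9c97.n) := red_ln rf9h10.2.1 rf9h10.2.1.1
theorem rf9k98 : CfgOK (rf9c98.e, rf9c98.n) := red_ln rf9h10.1 rf9h10.1.1
theorem rf9k99 : CfgOK (rf9c99.e, rf9c99.n) := red_ln rf9h9.2.2.2.2.2.2.2.2.2.2.2.2.2.2.1 rf9h9.2.2.2.2.2.2.2.2.2.2.2.2.2.2.1.1
theorem rf9k100 : CfgOK (rf9c100.e, rf9c100.n) := red_ln rf9h9.2.2.2.2.2.2.2.2.2.2.2.2.2.1 rf9h9.2.2.2.2.2.2.2.2.2.2.2.2.2.1.1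
theorem rf9k101 : CfgOK (rf9c101.e, rf9c101.n) := red_ln rf9h9.2.2.2.2.2.2.2.2.2.2.2.2.1 rf9h9.2.2.2.2.2.2.2.2.2.2.2.2.1.1
theorem rf9k102 : CfgOK (rf9c102.e, rf9c102.n) := red_ln rf9h9.2.2.2.2.2.2.2.2.2.2.2.1 rf9h9.2.2.2.2.2.2.2.2.2.2.2.1.1
theorem rf9k103 : CfgOK (rf9c103.e, rf9c103.n) := red_ln rf9h9.2.2.2.2.2.2.2.2.2.2.1 rf9h9.2.2.2.2.2.2.2.2.2.2.1.1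
theorem rf9k104 : CfgOK (rf9c104.e, rf9c104.n) := red_ln rf9h9.2.2.2.2.2.2.2.2.2.1 rf9h9.2.2.2.2.2.2.2.2.2.1.1
theorem rf9k105 : CfgOK (rf9c105.e, rf9c105.n) := red_ln rf9h9.2.2.2.2.2.2.2.2.1 rf9h9.2.2.2.2.2.2.2.2.1.1
theorem rf9k106 : CfgOK (rf9c106.e, rf9c106.n) := red_ln rf9h9.2.2.2.2.2.2.2.1 rf9h9.2.2.2.2.2.2.2.1.1
theorem rf9k107 : CfgOK (rf9c107.e, rf9c107.n) := red_ln rf9h9.2.2.2.2.2.2.1 rf9h9.2.2.2.2.2.2.1.1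
theorem rf9k108 : CfgOK (rf9c108.e, rf9c108.n) := red_ln rf9h9.2.2.2.2.2.1 rf9h9.2.2.2.2.2.1.1
theorem rf9k109 : CfgOK (rf9c109.e, rf9c109.n) := red_ln rf9h9.2.2.2.2.1 rf9h9.2.2.2.2.1.1
theorem rf9k110 : CfgOK (rf9c110.e, rf9c110.n) := red_ln rf9h9.2.2.2.1 rf9h9.2.2.2.1.1
theorem rf9k111 : CfgOK (rf9c111.e, rf9c111.n) := red_ln rf9h9.2.2.1 rf9h9.2.2.1.1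
theorem rf9k112 : CfgOK (rf9c112.e, rf9c112.n) := red_ln rf9h9.2.1 rf9h9.2.1.1
theorem rf9k113 : CfgOK (rf9c113.e, rf9c113.n) := red_ln rf9h9.1 rf9h9.1.1
theorem rf9k114 : CfgOK (rf9c114.e, rf9c114.n) := red_ln rf9h8.2.2.2.2.2.2.2.2.2.2.2.2.2.2.1 rf9h8.2.2.2.2.2.2.2.2.2.2.2.2.2.2.1.1
theorem rf9k115 : CfgOK (rf9c115.e, rf9c115.n) := red_ln rf9h8.2.2.2.2.2.2.2.2.2.2.2.2.2.1 rf9h8.2.2.2.2.2.2.2.2.2.2.2.2.2.1.1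
theorem rf9k116 : CfgOK (rf9c116.e, rf9c116.n) := red_ln rf9h8.2.2.2.2.2.2.2.2.2.2.2.2.1 rf9h8.2.2.2.2.2.2.2.2.2.2.2.2.1.1
theorem rf9k117 : CfgOK (rf9c117.e, rf9c117.n) := red_ln rf9h8.2.2.2.2.2.2.2.2.2.2.2.1 rf9h8.2.2.2.2.2.2.2.2.2.2.2.1.1
theorem rf9k118 : CfgOK (rf9c118.e, rf9c118.n) := red_ln rf9h8.2.2.2.2.2.2.2.2.2.2.1 rf9h8.2.2.2.2.2.2.2.2.2.2.1.1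
theorem rf9k119 : CfgOK (rf9c119.e, rf9c119.n) := red_ln rf9h8.2.2.2.2.2.2.2.2.2.1 rf9h8.2.2.2.2.2.2.2.2.2.1.1
theorem rf9k120 : CfgOK (rf9c120.e, rf9c120.n) := red_ln rf9h8.2.2.2.2.2.2.2.2.1 rf9h8.2.2.2.2.2.2.2.2.1.1
theorem rf9k121 : CfgOK (rf9c121.e, rf9c121.n) := red_ln rf9h8.2.2.2.2.2.2.2.1 rf9h8.2.2.2.2.2.2.2.1.1
theorem rf9k122 : CfgOK (rf9c122.e, rf9c122.n) := red_ln rf9h8.2.2.2.2.2.2.1 rf9h8.2.2.2.2.2.2.1.1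
theorem rf9k123 : CfgOK (rf9c123.e, rf9c123.n) := red_ln rf9h8.2.2.2.2.2.1 rf9h8.2.2.2.2.2.1.1
theorem rf9k124 : CfgOK (rf9c124.e, rf9c124.n) := red_ln rf9h8.2.2.2.2.1 rf9h8.2.2.2.2.1.1
theorem rf9k125 : CfgOK (rf9c125.e, rf9c125.n) := red_ln rf9h8.2.2.2.1 rf9h8.2.2.2.1.1
theorem rf9k126 : CfgOK (rf9c126.e, rf9c126.n) := red_ln rf9h8.2.2.1 rf9h8.2.2.1.1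
theorem rf9k127 : CfgOK (rf9c127.e, rf9c127.n) := red_ln rf9h8.2.1 rf9h8.2.1.1
theorem rf9k128 : CfgOK (rf9c128.e, rf9c128.n) := red_ln rf9h8.1 rf9h8.1.1
theorem rf9k129 : CfgOK (rf9c129.e, rf9c129.n) := red_ln rf9h7.2.2.2.2.2.2.2.2.2.2.2.2.2.2.1 rf9h7.2.2.2.2.2.2.2.2.2.2.2.2.2.2.1.1
theorem rf9k130 : CfgOK (rf9c130.e, rf9c130.n) := red_ln rf9h7.2.2.2.2.2.2.2.2.2.2.2.2.2.1 rf9h7.2.2.2.2.2.2.2.2.2.2.2.2.2.1.1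
theorem rf9k131 : CfgOK (rf9c131.e, rf9c131.n) := red_ln rf9h7.2.2.2.2.2.2.2.2.2.2.2.2.1 rf9h7.2.2.2.2.2.2.2.2.2.2.2.2.1.1
theorem rf9k132 : CfgOK (rf9c132.e, rf9c132.n) := red_ln rf9h7.2.2.2.2.2.2.2.2.2.2.2.1 rf9h7.2.2.2.2.2.2.2.2.2.2.2.1.1
theorem rf9k133 : CfgOK (rf9c133.e, rf9c133.n) := red_ln rf9h7.2.2.2.2.2.2.2.2.2.2.1 ⟨rf9h7.2.2.2.2.2.2.2.2.2.2.1.1, rf9h24.2.2.2.2.2.2.2.2.2.2.2.2.2.2.2.2.2.2.2.2.2.2.2.2.2.2.2.2.2.2.2.2.2.2.2.2.2.1.1⟩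
theorem rf9k134 : CfgOK (rf9c134.e, rf9c134.n) := red_ln rf9h7.2.2.2.2.2.2.2.2.2.1 ⟨rf9h7.2.2.2.2.2.2.2.2.2.1.1, rf9h24.2.2.2.2.2.2.2.2.2.2.2.2.2.2.2.2.2.2.2.2.2.2.2.2.2.2.2.2.2.2.2.2.2.2.2.2.1.1⟩
theorem rf9k135 : CfgOK (rf9c135.e, rf9c135.n) := red_ln rf9h7.2.2.2.2.2.2.2.2.1 ⟨rf9h7.2.2.2.2.2.2.2.2.1.1, rf9h24.2.2.2.2.2.2.2.2.2.2.2.2.2.2.2.2.2.2.2.2.2.2.2.2.2.2.2.2.2.2.2.2.2.2.2.1.1⟩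
theorem rf9k136 : CfgOK (rf9c136.e, rf9c136.n) := red_ln rf9h7.2.2.2.2.2.2.2.1 ⟨rf9h7.2.2.2.2.2.2.2.1.1, rf9h24.2.2.2.2.2.2.2.2.2.2.2.2.2.2.2.2.2.2.2.2.2.2.2.2.2.2.2.2.2.2.2.2.2.2.1.1⟩
theorem rf9k137 : CfgOK (rf9c137.e, rf9c137.n) := red_ln rf9h7.2.2.2.2.2.2.1 ⟨rf9h7.2.2.2.2.2.2.1.1, rf9h24.2.2.2.2.2.2.2.2.2.2.2.2.2.2.2.2.2.2.2.2.2.2.2.2.2.2.2.2.2.2.2.2.2.1.1⟩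
theorem rf9k138 : CfgOK (rf9c138.e, rf9c138.n) := red_ln rf9h7.2.2.2.2.2.1 ⟨rf9h7.2.2.2.2.2.1.1, rf9h24.2.2.2.2.2.2.2.2.2.2.2.2.2.2.2.2.2.2.2.2.2.2.2.2.2.2.2.2.2.2.2.2.1.1⟩
theorem rf9k139 : CfgOK (rf9c139.e, rf9c139.n) := red_ln rf9h7.2.2.2.2.1 ⟨rf9h7.2.2.2.2.1.1, rf9h24.2.2.2.2.2.2.2.2.2.2.2.2.2.2.2.2.2.2.2.2.2.2.2.2.2.2.2.2.2.2.2.1.1⟩
theorem rf9k140 : CfgOK (rf9c140.e, rf9c140.n) := red_ln rf9h7.2.2.2.1 ⟨rf9h7.2.2.2.1.1, rf9h24.2.2.2.2.2.2.2.2.2.2.2.2.2.2.2.2.2.2.2.2.2.2.2.2.2.2.2.2.2.2.1.1⟩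
theorem rf9k141 : CfgOK (rf9c141.e, rf9c141.n) := red_ln rf9h7.2.2.1 ⟨rf9h7.2.2.1.1, rf9h24.2.2.2.2.2.2.2.2.2.2.2.2.2.2.2.2.2.2.2.2.2.2.2.2.2.2.2.2.2.1.1⟩
theorem rf9k142 : CfgOK (rf9c142.e, rf9c142.n) := red_ln rf9h7.2.1 ⟨rf9h7.2.1.1, rf9h24.2.2.2.2.2.2.2.2.2.2.2.2.2.2.2.2.2.2.2.2.2.2.2.2.2.2.2.2.1.1⟩
theorem rf9k143 : CfgOK (rf9c143.e, rf9c143.n) := red_ln rf9h7.1 ⟨rf9h7.1.1, rf9h24.2.2.2.2.2.2.2.2.2.2.2.2.2.2.2.2.2.2.2.2.2.2.2.2.2.2.2.1.1⟩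
theorem rf9k144 : CfgOK (rf9c144.e, rf9c144.n) := red_ln rf9h6.2.2.2.2.2.2.2.2.2.2.2.2.2.2.1 ⟨rf9h6.2.2.2.2.2.2.2.2.2.2.2.2.2.2.1.1, rf9h24.2.2.2.2.2.2.2.2.2.2.2.2.2.2.2.2.2.2.2.2.2.2.2.2.2.2.1.1⟩
theorem rf9k145 : CfgOK (rf9c145.e, rf9c145.n) := red_ln rf9h6.2.2.2.2.2.2.2.2.2.2.2.2.2.1 ⟨rf9h6.2.2.2.2.2.2.2.2.2.2.2.2.2.1.1, rf9h24.2.2.2.2.2.2.2.2.2.2.2.2.2.2.2.2.2.2.2.2.2.2.2.2.2.1.1⟩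
theorem rf9k146 : CfgOK (rf9c146.e, rf9c146.n) := red_ln rf9h6.2.2.2.2.2.2.2.2.2.2.2.2.1 ⟨rf9h6.2.2.2.2.2.2.2.2.2.2.2.2.1.1, rf9h24.2.2.2.2.2.2.2.2.2.2.2.2.2.2.2.2.2.2.2.2.2.2.2.2.1.1⟩
theorem rf9k147 : CfgOK (rf9c147.e, rf9c147.n) := red_ln rf9h6.2.2.2.2.2.2.2.2.2.2.2.1 ⟨rf9h6.2.2.2.2.2.2.2.2.2.2.2.1.1, rf9h24.2.2.2.2.2.2.2.2.2.2.2.2.2.2.2.2.2.2.2.2.2.2.2.1.1⟩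
theorem rf9k148 : CfgOK (rf9c148.e, rf9c148.n) := red_ln rf9h6.2.2.2.2.2.2.2.2.2.2.1 ⟨rf9h6.2.2.2.2.2.2.2.2.2.2.1.1, rf9h24.2.2.2.2.2.2.2.2.2.2.2.2.2.2.2.2.2.2.2.2.2.2.1.1⟩
theorem rf9k149 : CfgOK (rf9c149.e, rf9c149.n) := red_ln rf9h6.2.2.2.2.2.2.2.2.2.1 ⟨rf9h6.2.2.2.2.2.2.2.2.2.1.1, rf9h24.2.2.2.2.2.2.2.2.2.2.2.2.2.2.2.2.2.2.2.2.2.1.1⟩
theorem rf9k150 : CfgOK (rf9c150.e, rf9c150.n) := red_ln rf9h6.2.2.2.2.2.2.2.2.1 ⟨rf9h6.2.2.2.2.2.2.2.2.1.1, rf9h24.2.2.2.2.2.2.2.2.2.2.2.2.2.2.2.2.2.2.2.2.1.1⟩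
theorem rf9k151 : CfgOK (rf9c151.e, rf9c151.n) := red_ln rf9h6.2.2.2.2.2.2.2.1 ⟨rf9h6.2.2.2.2.2.2.2.1.1, rf9h24.2.2.2.2.2.2.2.2.2.2.2.2.2.2.2.2.2.2.2.1.1⟩
theorem rf9k152 : CfgOK (rf9c152.e, rf9c152.n) := red_ln rf9h6.2.2.2.2.2.2.1 ⟨rf9h6.2.2.2.2.2.2.1.1, rf9h24.2.2.2.2.2.2.2.2.2.2.2.2.2.2.2.2.2.2.1.1⟩
theorem rf9k153 : CfgOK (rf9c153.e, rf9c153.n) := red_ln rf9h6.2.2.2.2.2.1 ⟨rf9h6.2.2.2.2.2.1.1, rf9h24.2.2.2.2.2.2.2.2.2.2.2.2.2.2.2.2.2.1.1⟩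
theorem rf9k154 : CfgOK (rf9c154.e, rf9c154.n) := red_ln rf9h6.2.2.2.2.1 ⟨rf9h6.2.2.2.2.1.1, rf9h24.2.2.2.2.2.2.2.2.2.2.2.2.2.2.2.2.1.1⟩
theorem rf9k155 : CfgOK (rf9c155.e, rf9c155.n) := red_ln rf9h6.2.2.2.1 ⟨rf9h6.2.2.2.1.1, rf9h24.2.2.2.2.2.2.2.2.2.2.2.2.2.2.2.1.1⟩
theorem rf9k156 : CfgOK (rf9c156.e, rf9c156.n) := red_ln rf9h6.2.2.1 ⟨rf9h6.2.2.1.1, rf9h24.2.2.2.2.2.2.2.2.2.2.2.2.2.2.1.1⟩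
theorem rf9k157 : CfgOK (rf9c157.e, rf9c157.n) := red_ln rf9h6.2.1 ⟨rf9h6.2.1.1, rf9h24.2.2.2.2.2.2.2.2.2.2.2.2.2.1.1⟩
theorem rf9k158 : CfgOK (rf9c158.e, rf9c158.n) := red_ln rf9h6.1 ⟨rf9h6.1.1, rf9h24.2.2.2.2.2.2.2.2.2.2.2.2.1.1⟩
theorem rf9k159 : CfgOK (rf9c159.e, rf9c159.n) := red_ln rf9h5.2.2.2.2.2.2.2.2.2.2.2.2.2.2.1 ⟨rf9h5.2.2.2.2.2.2.2.2.2.2.2.2.2.2.1.1, rf9h24.2.2.2.2.2.2.2.2.2.2.2.1.1⟩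
theorem rf9k160 : CfgOK (rf9c160.e, rf9c160.n) := red_ln rf9h5.2.2.2.2.2.2.2.2.2.2.2.2.2.1 ⟨rf9h5.2.2.2.2.2.2.2.2.2.2.2.2.2.1.1, rf9h24.2.2.2.2.2.2.2.2.2.2.1.1⟩
theorem rf9k161 : CfgOK (rf9c161.e, rf9c161.n) := red_ln rf9h5.2.2.2.2.2.2.2.2.2.2.2.2.1 ⟨⟨rf9h5.2.2.2.2.2.2.2.2.2.2.2.2.1.1, rf9h24.2.2.2.2.2.2.2.2.2.1.1⟩, ⟨rf9h12.2.2.2.2.2.2.2.2.2.2.2.2.2.2.2.2.2.1.1, rf9h18.2.2.2.2.2.2.2.2.2.1.1⟩⟩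
theorem rf9k162 : CfgOK (rf9c162.e, rf9c162.n) := red_ln rf9h5.2.2.2.2.2.2.2.2.2.2.2.1 ⟨⟨rf9h5.2.2.2.2.2.2.2.2.2.2.2.1.1, rf9h24.2.2.2.2.2.2.2.2.1.1⟩, ⟨rf9h12.2.2.2.2.2.2.2.2.2.2.2.1.1, rf9h18.2.2.2.2.2.2.2.2.1.1⟩⟩
theorem rf9k163 : CfgOK (rf9c163.e, rf9c163.n) := red_ln rf9h5.2.2.2.2.2.2.2.2.2.2.1 ⟨⟨rf9h5.2.2.2.2.2.2.2.2.2.2.1.1, rf9h21.2.2.2.2.2.2.2.2.2.2.1.1⟩, ⟨rf9h24.2.2.2.2.2.2.2.1.1, rf9h18.2.2.2.2.2.2.2.1.1⟩⟩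
theorem rf9k164 : CfgOK (rf9c164.e, rf9c164.n) := red_ln rf9h5.2.2.2.2.2.2.2.2.2.1 ⟨⟨rf9h5.2.2.2.2.2.2.2.2.2.1.1, rf9h21.1.1⟩, ⟨rf9h24.2.2.2.2.2.2.1.1, rf9h18.2.2.2.2.2.2.1.1⟩⟩
theorem rf9k165 : CfgOK (rf9c165.e, rf9c165.n) := red_ln rf9h5.2.2.2.2.2.2.2.2.1 ⟨rf9h5.2.2.2.2.2.2.2.2.1.1, rf9h20.2.2.2.2.2.2.2.2.2.2.2.2.2.2.2.2.2.2.2.2.2.2.2.1.1⟩
theorem rf9k166 : CfgOK (rf9c166.e, rf9c166.n) := red_ln rf9h5.2.2.2.2.2.2.2.1 ⟨rf9h5.2.2.2.2.2.2.2.1.1, rf9h12.2.2.2.2.2.2.2.2.2.2.2.2.2.2.2.2.1.1⟩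
theorem rf9k167 : CfgOK (rf9c167.e, rf9c167.n) := red_ln rf9h5.2.2.2.2.2.2.1 ⟨rf9h5.2.2.2.2.2.2.1.1, rf9h12.2.2.2.2.2.2.2.2.2.2.2.2.2.2.2.1.1⟩
theorem rf9k168 : CfgOK (rf9c168.e, rf9c168.n) := red_ln rf9h5.2.2.2.2.2.1 ⟨rf9h5.2.2.2.2.2.1.1, rf9h20.2.2.2.2.2.2.2.2.2.2.2.2.2.2.2.2.2.2.2.2.2.2.1.1⟩
theorem rf9k169 : CfgOK (rf9c169.e, rf9c169.n) := red_ln rf9h5.2.2.2.2.1 ⟨rf9h5.2.2.2.2.1.1, rf9h20.2.2.2.2.2.2.2.2.2.2.2.2.2.2.2.2.2.2.2.2.2.1.1⟩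
theorem rf9k170 : CfgOK (rf9c170.e, rf9c170.n) := red_ln rf9h5.2.2.2.1 ⟨rf9h5.2.2.2.1.1, rf9h20.2.2.2.2.2.2.2.2.2.2.2.2.2.2.2.2.2.2.2.2.1.1⟩
theorem rf9k171 : CfgOK (rf9c171.e, rf9c171.n) := red_ln rf9h5.2.2.1 ⟨⟨rf9h5.2.2.1.1, rf9h12.2.2.2.2.2.2.2.2.2.2.2.2.2.2.1.1⟩, ⟨rf9h24.2.2.2.2.2.1.1, rf9h18.2.2.2.2.2.1.1⟩⟩
theorem rf9k172 : CfgOK (rf9c172.e, rf9c172.n) := red_ln rf9h5.2.1 ⟨⟨rf9h5.2.1.1, rf9h12.2.2.2.2.2.2.2.2.2.2.2.2.2.1.1⟩, ⟨rf9h24.2.2.2.2.1.1, rf9h18.2.2.2.2.1.1⟩⟩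
theorem rf9k173 : CfgOK (rf9c173.e, rf9c173.n) := red_ln rf9h5.1 ⟨⟨rf9h5.1.1, rf9h12.2.2.2.2.2.2.2.2.2.2.2.2.1.1⟩, ⟨rf9h24.2.2.2.1.1, rf9h18.2.2.2.1.1⟩⟩
theorem rf9k174 : CfgOK (rf9c174.e, rf9c174.n) := red_ln rf9h4.2.2.2.2.2.2.2.2.2.2.2.2.2.2.1 ⟨⟨rf9h4.2.2.2.2.2.2.2.2.2.2.2.2.2.2.1.1, rf9h20.2.2.2.2.2.2.2.2.2.2.2.2.2.2.2.2.2.2.2.1.1⟩, ⟨rf9h24.2.2.1.1, rf9h18.2.2.1.1⟩⟩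
theorem rf9k175 : CfgOK (rf9c175.e, rf9c175.n) := red_ln rf9h4.2.2.2.2.2.2.2.2.2.2.2.2.2.1 ⟨⟨rf9h4.2.2.2.2.2.2.2.2.2.2.2.2.2.1.1, rf9h20.2.2.2.2.2.2.2.2.2.2.2.2.2.2.2.2.2.2.1.1⟩, ⟨rf9h24.2.1.1, rf9h18.2.1.1⟩⟩
theorem rf9k176 : CfgOK (rf9c176.e, rf9c176.n) := red_ln rf9h4.2.2.2.2.2.2.2.2.2.2.2.2.1 ⟨⟨rf9h4.2.2.2.2.2.2.2.2.2.2.2.2.1.1, rf9h20.2.2.2.2.2.2.2.2.2.2.2.2.2.2.2.2.2.1.1⟩, ⟨rf9h20.2.2.2.2.2.2.2.2.2.2.2.2.2.2.2.2.1.1, rf9h23.2.1.1⟩⟩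
theorem rf9k177 : CfgOK (rf9c177.e, rf9c177.n) := red_ln rf9h4.2.2.2.2.2.2.2.2.2.2.2.1 ⟨rf9h4.2.2.2.2.2.2.2.2.2.2.2.1.1, rf9h20.2.2.2.2.2.2.2.2.2.2.2.2.2.2.2.1.1⟩
theorem rf9k178 : CfgOK (rf9c178.e, rf9c178.n) := red_ln rf9h4.2.2.2.2.2.2.2.2.2.2.1 ⟨rf9h4.2.2.2.2.2.2.2.2.2.2.1.1, rf9h20.2.2.2.2.2.2.2.2.2.2.2.2.2.2.1.1⟩
theorem rf9k179 : CfgOK (rf9c179.e, rf9c179.n) := red_ln rf9h4.2.2.2.2.2.2.2.2.2.1 ⟨rf9h4.2.2.2.2.2.2.2.2.2.1.1, rf9h12.2.2.2.2.2.2.2.2.2.2.1.1⟩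
theorem rf9k180 : CfgOK (rf9c180.e, rf9c180.n) := red_ln rf9h4.2.2.2.2.2.2.2.2.1 ⟨rf9h4.2.2.2.2.2.2.2.2.1.1, rf9h20.2.2.2.2.2.2.2.2.2.2.2.2.2.1.1⟩
theorem rf9k181 : CfgOK (rf9c181.e, rf9c181.n) := red_ln rf9h4.2.2.2.2.2.2.2.1 ⟨rf9h4.2.2.2.2.2.2.2.1.1, rf9h20.2.2.2.2.2.2.2.2.2.2.2.2.1.1⟩
theorem rf9k182 : CfgOK (rf9c182.e, rf9c182.n) := red_ln rf9h4.2.2.2.2.2.2.1 ⟨rf9h4.2.2.2.2.2.2.1.1, rf9h12.2.2.2.2.2.2.2.2.2.1.1⟩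
theorem rf9k183 : CfgOK (rf9c183.e, rf9c183.n) := red_ln rf9h4.2.2.2.2.2.1 ⟨rf9h4.2.2.2.2.2.1.1, rf9h20.2.2.2.2.2.2.2.2.2.2.2.1.1⟩
theorem rf9k184 : CfgOK (rf9c184.e, rf9c184.n) := red_ln rf9h4.2.2.2.2.1 ⟨rf9h4.2.2.2.2.1.1, rf9h12.2.2.2.2.2.2.2.2.1.1⟩
theorem rf9k185 : CfgOK (rf9c185.e, rf9c185.n) := red_ln rf9h4.2.2.2.1 ⟨rf9h4.2.2.2.1.1, rf9h12.2.2.2.2.2.2.2.1.1⟩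
theorem rf9k186 : CfgOK (rf9c186.e, rf9c186.n) := red_ln rf9h4.2.2.1 ⟨⟨rf9h4.2.2.1.1, rf9h12.2.2.2.2.2.2.1.1⟩, ⟨rf9h24.1.1, rf9h18.1.1⟩⟩
theorem rf9k187 : CfgOK (rf9c187.e, rf9c187.n) := red_ln rf9h4.2.1 ⟨rf9h4.2.1.1, rf9h20.2.2.2.2.2.2.2.2.2.2.1.1⟩
theorem rf9k188 : CfgOK (rf9c188.e, rf9c188.n) := red_ln rf9h4.1 ⟨rf9h4.1.1, rf9h20.2.2.2.2.2.2.2.2.2.1.1⟩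
theorem rf9k189 : CfgOK (rf9c189.e, rf9c189.n) := red_ln rf9h3.2.2.2.2.2.2.2.2.2.2.2.2.2.2.1 ⟨⟨rf9h3.2.2.2.2.2.2.2.2.2.2.2.2.2.2.1.1, rf9h12.2.2.2.1.1⟩, ⟨rf9h20.2.2.2.2.2.2.2.1.1, rf9h23.1.1⟩⟩
theorem rf9k190 : CfgOK (rf9c190.e, rf9c190.n) := red_ln rf9h3.2.2.2.2.2.2.2.2.2.2.2.2.2.1 ⟨rf9h3.2.2.2.2.2.2.2.2.2.2.2.2.2.1.1, rf9h20.2.2.2.2.2.2.1.1⟩
theorem rf9k191 : CfgOK (rf9c191.e, rf9c191.n) := red_ln rf9h3.2.2.2.2.2.2.2.2.2.2.2.2.1 rf9h3.2.2.2.2.2.2.2.2.2.2.2.2.1.1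
theorem rf9k192 : CfgOK (rf9c192.e, rf9c192.n) := red_ln rf9h3.2.2.2.2.2.2.2.2.2.2.2.1 rf9h3.2.2.2.2.2.2.2.2.2.2.2.1.1
theorem rf9k193 : CfgOK (rf9c193.e, rf9c193.n) := red_ln rf9h3.2.2.2.2.2.2.2.2.2.2.1 rf9h3.2.2.2.2.2.2.2.2.2.2.1.1
theorem rf9k194 : CfgOK (rf9c194.e, rf9c194.n) := red_ln rf9h3.2.2.2.2.2.2.2.2.2.1 rf9h3.2.2.2.2.2.2.2.2.2.1.1
theorem rf9k195 : CfgOK (rf9c195.e, rf9c195.n) := red_ln rf9h3.2.2.2.2.2.2.2.2.1 rf9h3.2.2.2.2.2.2.2.2.1.1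
theorem rf9k196 : CfgOK (rf9c196.e, rf9c196.n) := red_ln rf9h3.2.2.2.2.2.2.2.1 rf9h3.2.2.2.2.2.2.2.1.1
theorem rf9k197 : CfgOK (rf9c197.e, rf9c197.n) := red_ln rf9h3.2.2.2.2.2.2.1 rf9h3.2.2.2.2.2.2.1.1
theorem rf9k198 : CfgOK (rf9c198.e, rf9c198.n) := red_ln rf9h3.2.2.2.2.2.1 rf9h3.2.2.2.2.2.1.1
theorem rf9k199 : CfgOK (rf9c199.e, rf9c199.n) := red_ln rf9h3.2.2.2.2.1 rf9h3.2.2.2.2.1.1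
theorem rf9k200 : CfgOK (rf9c200.e, rf9c200.n) := red_ln rf9h3.2.2.2.1 rf9h3.2.2.2.1.1
theorem rf9k201 : CfgOK (rf9c201.e, rf9c201.n) := red_ln rf9h3.2.2.1 rf9h3.2.2.1.1
theorem rf9k202 : CfgOK (rf9c202.e, rf9c202.n) := red_ln rf9h3.2.1 rf9h3.2.1.1
theorem rf9k203 : CfgOK (rf9c203.e, rf9c203.n) := red_ln rf9h3.1 rf9h3.1.1
theorem rf9k204 : CfgOK (rf9c204.e, rf9c204.n) := red_ln rf9h2.2.2.2.2.2.2.2.2.2.2.2.2.2.2.1 rf9h2.2.2.2.2.2.2.2.2.2.2.2.2.2.2.1.1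
theorem rf9k205 : CfgOK (rf9c205.e, rf9c205.n) := red_ln rf9h2.2.2.2.2.2.2.2.2.2.2.2.2.2.1 rf9h2.2.2.2.2.2.2.2.2.2.2.2.2.2.1.1
theorem rf9k206 : CfgOK (rf9c206.e, rf9c206.n) := red_ln rf9h2.2.2.2.2.2.2.2.2.2.2.2.2.1 rf9h2.2.2.2.2.2.2.2.2.2.2.2.2.1.1
theorem rf9k207 : CfgOK (rf9c207.e, rf9c207.n) := red_ln rf9h2.2.2.2.2.2.2.2.2.2.2.2.1 rf9h2.2.2.2.2.2.2.2.2.2.2.2.1.1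
theorem rf9k208 : CfgOK (rf9c208.e, rf9c208.n) := red_ln rf9h2.2.2.2.2.2.2.2.2.2.2.1 rf9h2.2.2.2.2.2.2.2.2.2.2.1.1
theorem rf9k209 : CfgOK (rf9c209.e, rf9c209.n) := red_ln rf9h2.2.2.2.2.2.2.2.2.2.1 rf9h2.2.2.2.2.2.2.2.2.2.1.1
theorem rf9k210 : CfgOK (rf9c210.e, rf9c210.n) := red_ln rf9h2.2.2.2.2.2.2.2.2.1 rf9h2.2.2.2.2.2.2.2.2.1.1
theorem rf9k211 : CfgOK (rf9c211.e, rf9c211.n) := red_ln rf9h2.2.2.2.2.2.2.2.1 rf9h2.2.2.2.2.2.2.2.1.1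
theorem rf9k212 : CfgOK (rf9c212.e, rf9c212.n) := red_ln rf9h2.2.2.2.2.2.2.1 rf9h2.2.2.2.2.2.2.1.1
theorem rf9k213 : CfgOK (rf9c213.e, rf9c213.n) := red_ln rf9h2.2.2.2.2.2.1 rf9h2.2.2.2.2.2.1.1
theorem rf9k214 : CfgOK (rf9c214.e, rf9c214.n) := red_ln rf9h2.2.2.2.2.1 rf9h2.2.2.2.2.1.1
theorem rf9k215 : CfgOK (rf9c215.e, rf9c215.n) := red_ln rf9h2.2.2.2.1 rf9h2.2.2.2.1.1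
theorem rf9k216 : CfgOK (rf9c216.e, rf9c216.n) := red_ln rf9h2.2.2.1 rf9h2.2.2.1.1
theorem rf9k217 : CfgOK (rf9c217.e, rf9c217.n) := red_ln rf9h2.2.1 rf9h2.2.1.1
theorem rf9k218 : CfgOK (rf9c218.e, rf9c218.n) := red_ln rf9h2.1 rf9h2.1.1

end Pool.Agent.Lib.G6.B
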