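import Pool.Agent.Lib.G6D.RFQ8
import Pool.Agent.Lib.G6D.RFQ9
import Pool.Agent.Lib.G6D.RFQ10
import Pool.Agent.Lib.G6D.RFQ11
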