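import Pool.Agent.Lib.G6.BRed
import Pool.Agent.Lib.G6D.RF13

set_option autoImplicit false
set_option maxRecDepth 100000
set_option linter.all false

namespace Pool.Agent.Lib.G6.B

theorem rf13h0 : AllL LnOK rf13l0 := batch_of rf13th.1
theorem rf13h1 : AllL LnOK rf13l1 := batch_of rf13th.2.1
theorem rf13h2 : AllL LnOK rf13l10 := batch_of rf13th.2.2.2.2.2.2.2.2.2.2.1
theorem rf13h3 : AllL LnOK rf13l11 := batch_of rf13th.2.2.2.2.2.2.2.2.2.2.2.1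
theorem rf13h4 : AllL LnOK rf13l12 := batch_of rf13th.2.2.2.2.2.2.2.2.2.2.2.2.1
theorem rf13h5 : AllL LnOK rf13l13 := batch_of rf13th.2.2.2.2.2.2.2.2.2.2.2.2.2.1
theorem rf13h6 : AllL LnOK rf13l14 := batch_of rf13th.2.2.2.2.2.2.2.2.2.2.2.2.2.2.1
theorem rf13h7 : AllL LnOK rf13l15 := batch_of rf13th.2.2.2.2.2.2.2.2.2.2.2.2.2.2.2.1
theorem rf13h8 : AllL LnOK rf13l16 := batch_of rf13th.2.2.2.2.2.2.2.2.2.2.2.2.2.2.2.2.1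
theorem rf13h9 : AllL LnOK rf13l17 := batch_of rf13th.2.2.2.2.2.2.2.2.2.2.2.2.2.2.2.2.2.1
theorem rf13h10 : AllL LnOK rf13l18 := batch_of rf13th.2.2.2.2.2.2.2.2.2.2.2.2.2.2.2.2.2.2.1
theorem rf13h11 : AllL LnOK rf13l19 := batch_of rf13th.2.2.2.2.2.2.2.2.2.2.2.2.2.2.2.2.2.2.2.1
theorem rf13h12 : AllL LnOK rf13l2 := batch_of rf13th.2.2.1
theorem rf13h13 : AllL LnOK rf13l20 := batch_of rf13th.2.2.2.2.2.2.2.2.2.2.2.2.2.2.2.2.2.2.2.2.1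
theorem rf13h14 : AllL LnOK rf13l21 := batch_of rf13th.2.2.2.2.2.2.2.2.2.2.2.2.2.2.2.2.2.2.2.2.2.1
theorem rf13h15 : AllL LnOK rf13l22 := batch_of rf13th.2.2.2.2.2.2.2.2.2.2.2.2.2.2.2.2.2.2.2.2.2.2.1
theorem rf13h16 : AllL LnOK rf13l23 := batch_of rf13th.2.2.2.2.2.2.2.2.2.2.2.2.2.2.2.2.2.2.2.2.2.2.2.1
theorem rf13h17 : AllL LnOK rf13l24 := batch_of rf13th.2.2.2.2.2.2.2.2.2.2.2.2.2.2.2.2.2.2.2.2.2.2.2.2.1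
theorem rf13h18 : AllL LnOK rf13l25 := batch_of rf13th.2.2.2.2.2.2.2.2.2.2.2.2.2.2.2.2.2.2.2.2.2.2.2.2.2.1
theorem rf13h19 : AllL LnOK rf13l26 := batch_of rf13th.2.2.2.2.2.2.2.2.2.2.2.2.2.2.2.2.2.2.2.2.2.2.2.2.2.2.1
theorem rf13h20 : AllL LnOK rf13l27 := batch_of rf13th.2.2.2.2.2.2.2.2.2.2.2.2.2.2.2.2.2.2.2.2.2.2.2.2.2.2.2.1
theorem rf13h21 : AllL LnOK rf13l28 := batch_of rf13th.2.2.2.2.2.2.2.2.2.2.2.2.2.2.2.2.2.2.2.2.2.2.2.2.2.2.2.2.1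
theorem rf13h22 : AllL LnOK rf13l29 := batch_of rf13th.2.2.2.2.2.2.2.2.2.2.2.2.2.2.2.2.2.2.2.2.2.2.2.2.2.2.2.2.2.1
theorem rf13h23 : AllL LnOK rf13l3 := batch_of rf13th.2.2.2.1
theorem rf13h24 : AllL LnOK rf13l30 := batch_of rf13th.2.2.2.2.2.2.2.2.2.2.2.2.2.2.2.2.2.2.2.2.2.2.2.2.2.2.2.2.2.2.1
theorem rf13h25 : AllL LnOK rf13l31 := batch_of rf13th.2.2.2.2.2.2.2.2.2.2.2.2.2.2.2.2.2.2.2.2.2.2.2.2.2.2.2.2.2.2.2.1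
theorem rf13h26 : AllL LnOK rf13l32 := batch_of rf13th.2.2.2.2.2.2.2.2.2.2.2.2.2.2.2.2.2.2.2.2.2.2.2.2.2.2.2.2.2.2.2.2.1
theorem rf13h27 : AllL LnOK rf13l33 := batch_of rf13th.2.2.2.2.2.2.2.2.2.2.2.2.2.2.2.2.2.2.2.2.2.2.2.2.2.2.2.2.2.2.2.2.2.1
theorem rf13h28 : AllL LnOK rf13l34 := batch_of rf13th.2.2.2.2.2.2.2.2.2.2.2.2.2.2.2.2.2.2.2.2.2.2.2.2.2.2.2.2.2.2.2.2.2.2.1
theorem rf13h29 : AllL LnOK rf13l35 := batch_of rf13th.2.2.2.2.2.2.2.2.2.2.2.2.2.2.2.2.2.2.2.2.2.2.2.2.2.2.2.2.2.2.2.2.2.2.2.1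
theorem rf13h30 : AllL LnOK rf13l36 := batch_of rf13th.2.2.2.2.2.2.2.2.2.2.2.2.2.2.2.2.2.2.2.2.2.2.2.2.2.2.2.2.2.2.2.2.2.2.2.2.1
theorem rf13h31 : AllL LnOK rf13l37 := batch_of rf13th.2.2.2.2.2.2.2.2.2.2.2.2.2.2.2.2.2.2.2.2.2.2.2.2.2.2.2.2.2.2.2.2.2.2.2.2.2
theorem rf13h32 : AllL LnOK rf13l4 := batch_of rf13th.2.2.2.2.1
theorem rf13h33 : AllL LnOK rf13l5 := batch_of rf13th.2.2.2.2.2.1
theorem rf13h34 : AllL LnOK rf13l6 := batch_of rf13th.2.2.2.2.2.2.1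
theorem rf13h35 : AllL LnOK rf13l7 := batch_of rf13th.2.2.2.2.2.2.2.1
theorem rf13h36 : AllL LnOK rf13l8 := batch_of rf13th.2.2.2.2.2.2.2.2.1
theorem rf13h37 : AllL LnOK rf13l9 := batch_of rf13th.2.2.2.2.2.2.2.2.2.1
theorem rf13k0 : CfgOK (rf13c0.e, rf13c0.n) := red_ln rf13h21.1 ⟨rf13h21.1.1, rf13h22.2.2.1.1⟩
theorem rf13k1 : CfgOK (rf13c1.e, rf13c1.n) := red_ln rf13h20.2.2.1 rf13h20.2.2.1.1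
theorem rf13k2 : CfgOK (rf13c2.e, rf13c2.n) := red_ln rf13h20.2.1 rf13h20.2.1.1
theorem rf13k3 : CfgOK (rf13c3.e, rf13c3.n) := red_ln rf13h20.1 rf13h20.1.1
theorem rf13k4 : CfgOK (rf13c4.e, rf13c4.n) := red_ln rf13h19.2.2.2.2.2.1 rf13h19.2.2.2.2.2.1.1
theorem rf13k5 : CfgOK (rf13c5.e, rf13c5.n) := red_ln rf13h19.2.2.2.2.1 rf13h19.2.2.2.2.1.1
theorem rf13k6 : CfgOK (rf13c6.e, rf13c6.n) := red_ln rf13h19.2.2.2.1 rf13h19.2.2.2.1.1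
theorem rf13k7 : CfgOK (rf13c7.e, rf13c7.n) := red_ln rf13h19.2.2.1 rf13h19.2.2.1.1
theorem rf13k8 : CfgOK (rf13c8.e, rf13c8.n) := red_ln rf13h19.2.1 rf13h19.2.1.1
theorem rf13k9 : CfgOK (rf13c9.e, rf13c9.n) := red_ln rf13h19.1 ⟨⟨rf13h19.1.1, rf13h25.2.2.2.2.2.2.2.2.2.2.2.2.1.1⟩, ⟨rf13h26.2.2.2.2.2.2.2.2.2.2.2.2.2.2.1.1, rf13h29.2.2.2.1.1⟩⟩
theorem rf13k10 : CfgOK (rf13c10.e, rf13c10.n) := red_ln rf13h18.2.2.2.2.2.1 ⟨rf13h18.2.2.2.2.2.1.1, rf13h28.1.1⟩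
theorem rf13k11 : CfgOK (rf13c11.e, rf13c11.n) := red_ln rf13h18.2.2.2.2.1 ⟨rf13h18.2.2.2.2.1.1, rf13h24.1.1⟩
theorem rf13k12 : CfgOK (rf13c12.e, rf13c12.n) := red_ln rf13h18.2.2.2.1 ⟨⟨rf13h18.2.2.2.1.1, rf13h22.2.2.2.2.2.2.2.2.2.2.2.2.2.2.1.1⟩, ⟨rf13h27.2.2.1.1, rf13h30.2.1.1⟩⟩
theorem rf13k13 : CfgOK (rf13c13.e, rf13c13.n) := red_ln rf13h18.2.2.1 ⟨⟨rf13h18.2.2.1.1, rf13h27.2.1.1⟩, ⟨rf13h26.2.2.2.2.2.2.2.2.2.2.2.2.2.1.1, rf13h31.2.1.1⟩⟩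
theorem rf13k14 : CfgOK (rf13c14.e, rf13c14.n) := red_ln rf13h18.2.1 ⟨rf13h18.2.1.1, rf13h26.2.2.2.2.2.2.2.2.2.2.2.2.1.1⟩
theorem rf13k15 : CfgOK (rf13c15.e, rf13c15.n) := red_ln rf13h18.1 ⟨rf13h18.1.1, rf13h26.2.2.2.2.2.2.2.2.2.2.2.1.1⟩
theorem rf13k16 : CfgOK (rf13c16.e, rf13c16.n) := red_ln rf13h17.2.2.2.2.1 ⟨⟨rf13h17.2.2.2.2.1.1, rf13h26.2.2.2.2.2.2.2.2.2.2.1.1⟩, ⟨rf13h26.2.2.2.2.2.2.2.2.2.1.1, rf13h31.1.1⟩⟩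
theorem rf13k17 : CfgOK (rf13c17.e, rf13c17.n) := red_ln rf13h17.2.2.2.1 rf13h17.2.2.2.1.1
theorem rf13k18 : CfgOK (rf13c18.e, rf13c18.n) := red_ln rf13h17.2.2.1 rf13h17.2.2.1.1
theorem rf13k19 : CfgOK (rf13c19.e, rf13c19.n) := red_ln rf13h17.2.1 rf13h17.2.1.1
theorem rf13k20 : CfgOK (rf13c20.e, rf13c20.n) := red_ln rf13h17.1 rf13h17.1.1
theorem rf13k21 : CfgOK (rf13c21.e, rf13c21.n) := red_ln rf13h16.2.2.2.2.1 rf13h16.2.2.2.2.1.1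
theorem rf13k22 : CfgOK (rf13c22.e, rf13c22.n) := red_ln rf13h16.2.2.2.1 rf13h16.2.2.2.1.1
theorem rf13k23 : CfgOK (rf13c23.e, rf13c23.n) := red_ln rf13h16.2.2.1 rf13h16.2.2.1.1
theorem rf13k24 : CfgOK (rf13c24.e, rf13c24.n) := red_ln rf13h16.2.1 rf13h16.2.1.1
theorem rf13k25 : CfgOK (rf13c25.e, rf13c25.n) := red_ln rf13h16.1 rf13h16.1.1
theorem rf13k26 : CfgOK (rf13c26.e, rf13c26.n) := red_ln rf13h15.2.2.2.2.1 rf13h15.2.2.2.2.1.1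
theorem rf13k27 : CfgOK (rf13c27.e, rf13c27.n) := red_ln rf13h15.2.2.2.1 rf13h15.2.2.2.1.1
theorem rf13k28 : CfgOK (rf13c28.e, rf13c28.n) := red_ln rf13h15.2.2.1 rf13h15.2.2.1.1
theorem rf13k29 : CfgOK (rf13c29.e, rf13c29.n) := red_ln rf13h15.2.1 rf13h15.2.1.1
theorem rf13k30 : CfgOK (rf13c30.e, rf13c30.n) := red_ln rf13h15.1 rf13h15.1.1
theorem rf13k31 : CfgOK (rf13c31.e, rf13c31.n) := red_ln rf13h14.2.2.2.2.1 rf13h14.2.2.2.2.1.1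
theorem rf13k32 : CfgOK (rf13c32.e, rf13c32.n) := red_ln rf13h14.2.2.2.1 rf13h14.2.2.2.1.1
theorem rf13k33 : CfgOK (rf13c33.e, rf13c33.n) := red_ln rf13h14.2.2.1 rf13h14.2.2.1.1
theorem rf13k34 : CfgOK (rf13c34.e, rf13c34.n) := red_ln rf13h14.2.1 rf13h14.2.1.1
theorem rf13k35 : CfgOK (rf13c35.e, rf13c35.n) := red_ln rf13h14.1 rf13h14.1.1
theorem rf13k36 : CfgOK (rf13c36.e, rf13c36.n) := red_ln rf13h13.2.2.2.2.1 rf13h13.2.2.2.2.1.1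
theorem rf13k37 : CfgOK (rf13c37.e, rf13c37.n) := red_ln rf13h13.2.2.2.1 rf13h13.2.2.2.1.1
theorem rf13k38 : CfgOK (rf13c38.e, rf13c38.n) := red_ln rf13h13.2.2.1 rf13h13.2.2.1.1
theorem rf13k39 : CfgOK (rf13c39.e, rf13c39.n) := red_ln rf13h13.2.1 rf13h13.2.1.1
theorem rf13k40 : CfgOK (rf13c40.e, rf13c40.n) := red_ln rf13h13.1 rf13h13.1.1
theorem rf13k41 : CfgOK (rf13c41.e, rf13c41.n) := red_ln rf13h11.2.2.2.2.1 rf13h11.2.2.2.2.1.1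
theorem rf13k42 : CfgOK (rf13c42.e, rf13c42.n) := red_ln rf13h11.2.2.2.1 rf13h11.2.2.2.1.1
theorem rf13k43 : CfgOK (rf13c43.e, rf13c43.n) := red_ln rf13h11.2.2.1 rf13h11.2.2.1.1
theorem rf13k44 : CfgOK (rf13c44.e, rf13c44.n) := red_ln rf13h11.2.1 rf13h11.2.1.1
theorem rf13k45 : CfgOK (rf13c45.e, rf13c45.n) := red_ln rf13h11.1 rf13h11.1.1
theorem rf13k46 : CfgOK (rf13c46.e, rf13c46.n) := red_ln rf13h10.2.2.2.2.1 rf13h10.2.2.2.2.1.1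
theorem rf13k47 : CfgOK (rf13c47.e, rf13c47.n) := red_ln rf13h10.2.2.2.1 rf13h10.2.2.2.1.1
theorem rf13k48 : CfgOK (rf13c48.e, rf13c48.n) := red_ln rf13h10.2.2.1 rf13h10.2.2.1.1
theorem rf13k49 : CfgOK (rf13c49.e, rf13c49.n) := red_ln rf13h10.2.1 rf13h10.2.1.1
theorem rf13k50 : CfgOK (rf13c50.e, rf13c50.n) := red_ln rf13h10.1 rf13h10.1.1
theorem rf13k51 : CfgOK (rf13c51.e, rf13c51.n) := red_ln rf13h9.2.2.2.2.1 ⟨rf13h9.2.2.2.2.1.1, rf13h25.2.2.2.2.2.2.2.2.2.2.2.1.1⟩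
theorem rf13k52 : CfgOK (rf13c52.e, rf13c52.n) := red_ln rf13h9.2.2.2.1 ⟨rf13h9.2.2.2.1.1, rf13h25.2.2.2.2.2.2.2.2.2.2.1.1⟩
theorem rf13k53 : CfgOK (rf13c53.e, rf13c53.n) := red_ln rf13h9.2.2.1 ⟨rf13h9.2.2.1.1, rf13h25.2.2.2.2.2.2.2.2.2.1.1⟩
theorem rf13k54 : CfgOK (rf13c54.e, rf13c54.n) := red_ln rf13h9.2.1 ⟨rf13h9.2.1.1, rf13h25.2.2.2.2.2.2.2.2.1.1⟩
theorem rf13k55 : CfgOK (rf13c55.e, rf13c55.n) := red_ln rf13h9.1 ⟨rf13h9.1.1, rf13h25.2.2.2.2.2.2.2.1.1⟩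
theorem rf13k56 : CfgOK (rf13c56.e, rf13c56.n) := red_ln rf13h8.2.2.2.2.1 ⟨rf13h8.2.2.2.2.1.1, rf13h25.2.2.2.2.2.2.1.1⟩
theorem rf13k57 : CfgOK (rf13c57.e, rf13c57.n) := red_ln rf13h8.2.2.2.1 ⟨rf13h8.2.2.2.1.1, rf13h25.2.2.2.2.2.1.1⟩
theorem rf13k58 : CfgOK (rf13c58.e, rf13c58.n) := red_ln rf13h8.2.2.1 ⟨rf13h8.2.2.1.1, rf13h25.2.2.2.2.1.1⟩
theorem rf13k59 : CfgOK (rf13c59.e, rf13c59.n) := red_ln rf13h8.2.1 ⟨rf13h8.2.1.1, rf13h25.2.2.2.1.1⟩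
theorem rf13k60 : CfgOK (rf13c60.e, rf13c60.n) := red_ln rf13h8.1 ⟨⟨rf13h8.1.1, rf13h25.2.2.1.1⟩, ⟨rf13h22.2.2.2.2.2.2.2.2.2.2.2.2.2.1.1, rf13h29.2.2.1.1⟩⟩
theorem rf13k61 : CfgOK (rf13c61.e, rf13c61.n) := red_ln rf13h7.2.2.2.2.1 ⟨⟨rf13h7.2.2.2.2.1.1, rf13h25.2.1.1⟩, ⟨rf13h26.2.2.2.1.1, rf13h29.2.1.1⟩⟩
theorem rf13k62 : CfgOK (rf13c62.e, rf13c62.n) := red_ln rf13h7.2.2.2.1 ⟨rf13h7.2.2.2.1.1, rf13h27.1.1⟩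
theorem rf13k63 : CfgOK (rf13c63.e, rf13c63.n) := red_ln rf13h7.2.2.1 ⟨rf13h7.2.2.1.1, rf13h22.2.2.2.2.2.2.2.2.2.2.2.2.1.1⟩
theorem rf13k64 : CfgOK (rf13c64.e, rf13c64.n) := red_ln rf13h7.2.1 ⟨rf13h7.2.1.1, rf13h22.2.2.2.2.2.2.2.2.2.2.2.1.1⟩
theorem rf13k65 : CfgOK (rf13c65.e, rf13c65.n) := red_ln rf13h7.1 ⟨rf13h7.1.1, rf13h26.2.2.2.2.2.2.2.2.1.1⟩
theorem rf13k66 : CfgOK (rf13c66.e, rf13c66.n) := red_ln rf13h6.2.2.2.2.1 ⟨rf13h6.2.2.2.2.1.1, rf13h22.2.2.2.2.2.2.2.2.2.2.1.1⟩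
theorem rf13k67 : CfgOK (rf13c67.e, rf13c67.n) := red_ln rf13h6.2.2.2.1 ⟨rf13h6.2.2.2.1.1, rf13h22.2.2.2.2.2.2.2.2.2.1.1⟩
theorem rf13k68 : CfgOK (rf13c68.e, rf13c68.n) := red_ln rf13h6.2.2.1 ⟨rf13h6.2.2.1.1, rf13h22.2.2.2.2.2.2.2.2.1.1⟩
theorem rf13k69 : CfgOK (rf13c69.e, rf13c69.n) := red_ln rf13h6.2.1 ⟨rf13h6.2.1.1, rf13h22.2.2.2.2.2.2.2.1.1⟩
theorem rf13k70 : CfgOK (rf13c70.e, rf13c70.n) := red_ln rf13h6.1 ⟨rf13h6.1.1, rf13h26.2.2.2.2.2.2.2.1.1⟩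
theorem rf13k71 : CfgOK (rf13c71.e, rf13c71.n) := red_ln rf13h5.2.2.2.2.1 ⟨rf13h5.2.2.2.2.1.1, rf13h26.2.2.2.2.2.2.1.1⟩
theorem rf13k72 : CfgOK (rf13c72.e, rf13c72.n) := red_ln rf13h5.2.2.2.1 ⟨rf13h5.2.2.2.1.1, rf13h26.2.2.2.2.2.1.1⟩
theorem rf13k73 : CfgOK (rf13c73.e, rf13c73.n) := red_ln rf13h5.2.2.1 ⟨rf13h5.2.2.1.1, rf13h22.2.2.2.2.2.2.1.1⟩
theorem rf13k74 : CfgOK (rf13c74.e, rf13c74.n) := red_ln rf13h5.2.1 ⟨rf13h5.2.1.1, rf13h22.2.2.2.2.2.1.1⟩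
theorem rf13k75 : CfgOK (rf13c75.e, rf13c75.n) := red_ln rf13h5.1 ⟨rf13h5.1.1, rf13h22.2.2.2.2.1.1⟩
theorem rf13k76 : CfgOK (rf13c76.e, rf13c76.n) := red_ln rf13h4.2.2.2.2.1 ⟨⟨rf13h4.2.2.2.2.1.1, rf13h22.2.2.2.1.1⟩, ⟨rf13h26.2.2.2.2.1.1, rf13h30.1.1⟩⟩
theorem rf13k77 : CfgOK (rf13c77.e, rf13c77.n) := red_ln rf13h4.2.2.2.1 ⟨rf13h4.2.2.2.1.1, rf13h22.2.1.1⟩
theorem rf13k78 : CfgOK (rf13c78.e, rf13c78.n) := red_ln rf13h4.2.2.1 ⟨rf13h4.2.2.1.1, rf13h26.2.2.1.1⟩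
theorem rf13k79 : CfgOK (rf13c79.e, rf13c79.n) := red_ln rf13h4.2.1 ⟨rf13h4.2.1.1, rf13h26.2.1.1⟩
theorem rf13k80 : CfgOK (rf13c80.e, rf13c80.n) := red_ln rf13h4.1 ⟨rf13h4.1.1, rf13h26.1.1⟩
theorem rf13k81 : CfgOK (rf13c81.e, rf13c81.n) := red_ln rf13h3.2.2.1 ⟨⟨rf13h3.2.2.1.1, rf13h22.1.1⟩, ⟨rf13h25.1.1, rf13h29.1.1⟩⟩
theorem rf13k82 : CfgOK (rf13c82.e, rf13c82.n) := red_ln rf13h3.2.1 rf13h3.2.1.1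
theorem rf13k83 : CfgOK (rf13c83.e, rf13c83.n) := red_ln rf13h3.1 rf13h3.1.1
theorem rf13k84 : CfgOK (rf13c84.e, rf13c84.n) := red_ln rf13h2.2.2.1 rf13h2.2.2.1.1
theorem rf13k85 : CfgOK (rf13c85.e, rf13c85.n) := red_ln rf13h2.2.1 rf13h2.2.1.1
theorem rf13k86 : CfgOK (rf13c86.e, rf13c86.n) := red_ln rf13h2.1 rf13h2.1.1
theorem rf13k87 : CfgOK (rf13c87.e, rf13c87.n) := red_ln rf13h37.2.2.1 rf13h37.2.2.1.1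
theorem rf13k88 : CfgOK (rf13c88.e, rf13c88.n) := red_ln rf13h37.2.1 rf13h37.2.1.1
theorem rf13k89 : CfgOK (rf13c89.e, rf13c89.n) := red_ln rf13h37.1 rf13h37.1.1
theorem rf13k90 : CfgOK (rf13c90.e, rf13c90.n) := red_ln rf13h36.2.2.1 rf13h36.2.2.1.1
theorem rf13k91 : CfgOK (rf13c91.e, rf13c91.n) := red_ln rf13h36.2.1 rf13h36.2.1.1
theorem rf13k92 : CfgOK (rf13c92.e, rf13c92.n) := red_ln rf13h36.1 rf13h36.1.1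
theorem rf13k93 : CfgOK (rf13c93.e, rf13c93.n) := red_ln rf13h35.2.2.1 rf13h35.2.2.1.1
theorem rf13k94 : CfgOK (rf13c94.e, rf13c94.n) := red_ln rf13h35.2.1 rf13h35.2.1.1
theorem rf13k95 : CfgOK (rf13c95.e, rf13c95.n) := red_ln rf13h35.1 rf13h35.1.1
theorem rf13k96 : CfgOK (rf13c96.e, rf13c96.n) := red_ln rf13h34.2.2.1 rf13h34.2.2.1.1
theorem rf13k97 : CfgOK (rf13c97.e, rf13c97.n) := red_ln rf13h34.2.1 rf13h34.2.1.1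
theorem rf13k98 : CfgOK (rf13c98.e, rf13c98.n) := red_ln rf13h34.1 rf13h34.1.1
theorem rf13k99 : CfgOK (rf13c99.e, rf13c99.n) := red_ln rf13h33.2.2.1 rf13h33.2.2.1.1
theorem rf13k100 : CfgOK (rf13c100.e, rf13c100.n) := red_ln rf13h33.2.1 rf13h33.2.1.1
theorem rf13k101 : CfgOK (rf13c101.e, rf13c101.n) := red_ln rf13h33.1 rf13h33.1.1
theorem rf13k102 : CfgOK (rf13c102.e, rf13c102.n) := red_ln rf13h32.2.2.1 rf13h32.2.2.1.1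
theorem rf13k103 : CfgOK (rf13c103.e, rf13c103.n) := red_ln rf13h32.2.1 rf13h32.2.1.1
theorem rf13k104 : CfgOK (rf13c104.e, rf13c104.n) := red_ln rf13h32.1 rf13h32.1.1
theorem rf13k105 : CfgOK (rf13c105.e, rf13c105.n) := red_ln rf13h23.2.2.1 rf13h23.2.2.1.1
theorem rf13k106 : CfgOK (rf13c106.e, rf13c106.n) := red_ln rf13h23.2.1 rf13h23.2.1.1
theorem rf13k107 : CfgOK (rf13c107.e, rf13c107.n) := red_ln rf13h23.1 rf13h23.1.1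
theorem rf13k108 : CfgOK (rf13c108.e, rf13c108.n) := red_ln rf13h12.2.2.1 rf13h12.2.2.1.1
theorem rf13k109 : CfgOK (rf13c109.e, rf13c109.n) := red_ln rf13h12.2.1 rf13h12.2.1.1
theorem rf13k110 : CfgOK (rf13c110.e, rf13c110.n) := red_ln rf13h12.1 rf13h12.1.1
theorem rf13k111 : CfgOK (rf13c111.e, rf13c111.n) := red_ln rf13h1.2.2.1 rf13h1.2.2.1.1
theorem rf13k112 : CfgOK (rf13c112.e, rf13c112.n) := red_ln rf13h1.2.1 rf13h1.2.1.1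
theorem rf13k113 : CfgOK (rf13c113.e, rf13c113.n) := red_ln rf13h1.1 rf13h1.1.1
theorem rf13k114 : CfgOK (rf13c114.e, rf13c114.n) := red_ln rf13h0.2.2.1 rf13h0.2.2.1.1
theorem rf13k115 : CfgOK (rf13c115.e, rf13c115.n) := red_ln rf13h0.2.1 rf13h0.2.1.1
theorem rf13k116 : CfgOK (rf13c116.e, rf13c116.n) := red_ln rf13h0.1 rf13h0.1.1

end Pool.Agent.Lib.G6.B
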