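import Pool.Agent.Lib.G6.BRed
import Pool.Agent.Lib.G6D.RF14

set_option autoImplicit false
set_option maxRecDepth 100000
set_option linter.all false

namespace Pool.Agent.Lib.G6.B

theorem rf14h0 : AllL LnOK rf14l0 := batch_of rf14th.1
theorem rf14h1 : AllL LnOK rf14l1 := batch_of rf14th.2.1
theorem rf14h2 : AllL LnOK rf14l10 := batch_of rf14th.2.2.2.2.2.2.2.2.2.2.1
theorem rf14h3 : AllL LnOK rf14l11 := batch_of rf14th.2.2.2.2.2.2.2.2.2.2.2.1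
theorem rf14h4 : AllL LnOK rf14l12 := batch_of rf14th.2.2.2.2.2.2.2.2.2.2.2.2.1
theorem rf14h5 : AllL LnOK rf14l13 := batch_of rf14th.2.2.2.2.2.2.2.2.2.2.2.2.2.1
theorem rf14h6 : AllL LnOK rf14l14 := batch_of rf14th.2.2.2.2.2.2.2.2.2.2.2.2.2.2.1
theorem rf14h7 : AllL LnOK rf14l15 := batch_of rf14th.2.2.2.2.2.2.2.2.2.2.2.2.2.2.2.1
theorem rf14h8 : AllL LnOK rf14l16 := batch_of rf14th.2.2.2.2.2.2.2.2.2.2.2.2.2.2.2.2.1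
theorem rf14h9 : AllL LnOK rf14l17 := batch_of rf14th.2.2.2.2.2.2.2.2.2.2.2.2.2.2.2.2.2.1
theorem rf14h10 : AllL LnOK rf14l18 := batch_of rf14th.2.2.2.2.2.2.2.2.2.2.2.2.2.2.2.2.2.2.1
theorem rf14h11 : AllL LnOK rf14l19 := batch_of rf14th.2.2.2.2.2.2.2.2.2.2.2.2.2.2.2.2.2.2.2.1
theorem rf14h12 : AllL LnOK rf14l2 := batch_of rf14th.2.2.1
theorem rf14h13 : AllL LnOK rf14l20 := batch_of rf14th.2.2.2.2.2.2.2.2.2.2.2.2.2.2.2.2.2.2.2.2.1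
theorem rf14h14 : AllL LnOK rf14l21 := batch_of rf14th.2.2.2.2.2.2.2.2.2.2.2.2.2.2.2.2.2.2.2.2.2.1
theorem rf14h15 : AllL LnOK rf14l22 := batch_of rf14th.2.2.2.2.2.2.2.2.2.2.2.2.2.2.2.2.2.2.2.2.2.2.1
theorem rf14h16 : AllL LnOK rf14l23 := batch_of rf14th.2.2.2.2.2.2.2.2.2.2.2.2.2.2.2.2.2.2.2.2.2.2.2.1
theorem rf14h17 : AllL LnOK rf14l24 := batch_of rf14th.2.2.2.2.2.2.2.2.2.2.2.2.2.2.2.2.2.2.2.2.2.2.2.2.1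
theorem rf14h18 : AllL LnOK rf14l25 := batch_of rf14th.2.2.2.2.2.2.2.2.2.2.2.2.2.2.2.2.2.2.2.2.2.2.2.2.2.1
theorem rf14h19 : AllL LnOK rf14l26 := batch_of rf14th.2.2.2.2.2.2.2.2.2.2.2.2.2.2.2.2.2.2.2.2.2.2.2.2.2.2.1
theorem rf14h20 : AllL LnOK rf14l27 := batch_of rf14th.2.2.2.2.2.2.2.2.2.2.2.2.2.2.2.2.2.2.2.2.2.2.2.2.2.2.2.1
theorem rf14h21 : AllL LnOK rf14l28 := batch_of rf14th.2.2.2.2.2.2.2.2.2.2.2.2.2.2.2.2.2.2.2.2.2.2.2.2.2.2.2.2.1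
theorem rf14h22 : AllL LnOK rf14l29 := batch_of rf14th.2.2.2.2.2.2.2.2.2.2.2.2.2.2.2.2.2.2.2.2.2.2.2.2.2.2.2.2.2.1
theorem rf14h23 : AllL LnOK rf14l3 := batch_of rf14th.2.2.2.1
theorem rf14h24 : AllL LnOK rf14l30 := batch_of rf14th.2.2.2.2.2.2.2.2.2.2.2.2.2.2.2.2.2.2.2.2.2.2.2.2.2.2.2.2.2.2.1
theorem rf14h25 : AllL LnOK rf14l31 := batch_of rf14th.2.2.2.2.2.2.2.2.2.2.2.2.2.2.2.2.2.2.2.2.2.2.2.2.2.2.2.2.2.2.2.1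
theorem rf14h26 : AllL LnOK rf14l32 := batch_of rf14th.2.2.2.2.2.2.2.2.2.2.2.2.2.2.2.2.2.2.2.2.2.2.2.2.2.2.2.2.2.2.2.2.1
theorem rf14h27 : AllL LnOK rf14l33 := batch_of rf14th.2.2.2.2.2.2.2.2.2.2.2.2.2.2.2.2.2.2.2.2.2.2.2.2.2.2.2.2.2.2.2.2.2.1
theorem rf14h28 : AllL LnOK rf14l34 := batch_of rf14th.2.2.2.2.2.2.2.2.2.2.2.2.2.2.2.2.2.2.2.2.2.2.2.2.2.2.2.2.2.2.2.2.2.2.1
theorem rf14h29 : AllL LnOK rf14l35 := batch_of rf14th.2.2.2.2.2.2.2.2.2.2.2.2.2.2.2.2.2.2.2.2.2.2.2.2.2.2.2.2.2.2.2.2.2.2.2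
theorem rf14h30 : AllL LnOK rf14l4 := batch_of rf14th.2.2.2.2.1
theorem rf14h31 : AllL LnOK rf14l5 := batch_of rf14th.2.2.2.2.2.1
theorem rf14h32 : AllL LnOK rf14l6 := batch_of rf14th.2.2.2.2.2.2.1
theorem rf14h33 : AllL LnOK rf14l7 := batch_of rf14th.2.2.2.2.2.2.2.1
theorem rf14h34 : AllL LnOK rf14l8 := batch_of rf14th.2.2.2.2.2.2.2.2.1
theorem rf14h35 : AllL LnOK rf14l9 := batch_of rf14th.2.2.2.2.2.2.2.2.2.1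
theorem rf14k0 : CfgOK (rf14c0.e, rf14c0.n) := red_ln rf14h24.1 rf14h24.1.1
theorem rf14k1 : CfgOK (rf14c1.e, rf14c1.n) := red_ln rf14h22.2.2.1 ⟨rf14h22.2.2.1.1, rf14h25.2.2.2.2.2.2.2.2.2.2.2.2.2.2.2.2.2.2.2.2.2.2.2.2.1.1⟩
theorem rf14k2 : CfgOK (rf14c2.e, rf14c2.n) := red_ln rf14h22.2.1 ⟨rf14h22.2.1.1, rf14h25.2.2.2.2.2.2.2.2.2.2.2.2.2.2.2.2.2.2.2.2.2.2.2.1.1⟩
theorem rf14k3 : CfgOK (rf14c3.e, rf14c3.n) := red_ln rf14h22.1 ⟨rf14h22.1.1, rf14h25.2.2.2.2.2.2.2.2.2.2.2.2.2.2.2.2.2.2.2.2.2.2.1.1⟩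
theorem rf14k4 : CfgOK (rf14c4.e, rf14c4.n) := red_ln rf14h21.2.2.1 ⟨rf14h21.2.2.1.1, rf14h25.2.2.2.2.2.2.2.2.2.2.2.2.2.2.2.2.2.2.2.2.2.1.1⟩
theorem rf14k5 : CfgOK (rf14c5.e, rf14c5.n) := red_ln rf14h21.2.1 ⟨rf14h21.2.1.1, rf14h25.2.2.2.2.2.2.2.2.2.2.2.2.2.2.2.2.2.2.2.2.1.1⟩
theorem rf14k6 : CfgOK (rf14c6.e, rf14c6.n) := red_ln rf14h21.1 ⟨rf14h21.1.1, rf14h25.2.2.2.2.2.2.2.2.2.2.2.2.2.2.2.2.2.2.2.1.1⟩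
theorem rf14k7 : CfgOK (rf14c7.e, rf14c7.n) := red_ln rf14h20.2.2.1 ⟨rf14h20.2.2.1.1, rf14h25.2.2.2.2.2.2.2.2.2.2.2.2.2.2.2.2.2.2.1.1⟩
theorem rf14k8 : CfgOK (rf14c8.e, rf14c8.n) := red_ln rf14h20.2.1 ⟨rf14h20.2.1.1, rf14h26.2.2.2.2.2.1.1⟩
theorem rf14k9 : CfgOK (rf14c9.e, rf14c9.n) := red_ln rf14h20.1 ⟨rf14h20.1.1, rf14h28.2.2.2.2.2.2.2.2.2.2.1.1⟩
theorem rf14k10 : CfgOK (rf14c10.e, rf14c10.n) := red_ln rf14h19.2.2.1 ⟨rf14h19.2.2.1.1, rf14h26.2.2.2.2.1.1⟩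
theorem rf14k11 : CfgOK (rf14c11.e, rf14c11.n) := red_ln rf14h19.2.1 ⟨rf14h19.2.1.1, rf14h26.2.2.2.1.1⟩
theorem rf14k12 : CfgOK (rf14c12.e, rf14c12.n) := red_ln rf14h19.1 ⟨rf14h19.1.1, rf14h28.2.2.2.2.2.1.1⟩
theorem rf14k13 : CfgOK (rf14c13.e, rf14c13.n) := red_ln rf14h18.2.2.1 ⟨rf14h18.2.2.1.1, rf14h28.2.2.2.2.1.1⟩
theorem rf14k14 : CfgOK (rf14c14.e, rf14c14.n) := red_ln rf14h18.2.1 ⟨rf14h18.2.1.1, rf14h28.2.2.2.1.1⟩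
theorem rf14k15 : CfgOK (rf14c15.e, rf14c15.n) := red_ln rf14h18.1 rf14h18.1.1
theorem rf14k16 : CfgOK (rf14c16.e, rf14c16.n) := red_ln rf14h17.2.2.1 rf14h17.2.2.1.1
theorem rf14k17 : CfgOK (rf14c17.e, rf14c17.n) := red_ln rf14h17.2.1 rf14h17.2.1.1
theorem rf14k18 : CfgOK (rf14c18.e, rf14c18.n) := red_ln rf14h17.1 rf14h17.1.1
theorem rf14k19 : CfgOK (rf14c19.e, rf14c19.n) := red_ln rf14h16.2.2.1 rf14h16.2.2.1.1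
theorem rf14k20 : CfgOK (rf14c20.e, rf14c20.n) := red_ln rf14h16.2.1 rf14h16.2.1.1
theorem rf14k21 : CfgOK (rf14c21.e, rf14c21.n) := red_ln rf14h16.1 rf14h16.1.1
theorem rf14k22 : CfgOK (rf14c22.e, rf14c22.n) := red_ln rf14h15.2.2.1 rf14h15.2.2.1.1
theorem rf14k23 : CfgOK (rf14c23.e, rf14c23.n) := red_ln rf14h15.2.1 rf14h15.2.1.1
theorem rf14k24 : CfgOK (rf14c24.e, rf14c24.n) := red_ln rf14h15.1 rf14h15.1.1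
theorem rf14k25 : CfgOK (rf14c25.e, rf14c25.n) := red_ln rf14h14.2.2.1 rf14h14.2.2.1.1
theorem rf14k26 : CfgOK (rf14c26.e, rf14c26.n) := red_ln rf14h14.2.1 rf14h14.2.1.1
theorem rf14k27 : CfgOK (rf14c27.e, rf14c27.n) := red_ln rf14h14.1 rf14h14.1.1
theorem rf14k28 : CfgOK (rf14c28.e, rf14c28.n) := red_ln rf14h13.2.2.1 rf14h13.2.2.1.1
theorem rf14k29 : CfgOK (rf14c29.e, rf14c29.n) := red_ln rf14h13.2.1 rf14h13.2.1.1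
theorem rf14k30 : CfgOK (rf14c30.e, rf14c30.n) := red_ln rf14h13.1 rf14h13.1.1
theorem rf14k31 : CfgOK (rf14c31.e, rf14c31.n) := red_ln rf14h11.2.2.1 rf14h11.2.2.1.1
theorem rf14k32 : CfgOK (rf14c32.e, rf14c32.n) := red_ln rf14h11.2.1 rf14h11.2.1.1
theorem rf14k33 : CfgOK (rf14c33.e, rf14c33.n) := red_ln rf14h11.1 rf14h11.1.1
theorem rf14k34 : CfgOK (rf14c34.e, rf14c34.n) := red_ln rf14h10.2.2.1 rf14h10.2.2.1.1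
theorem rf14k35 : CfgOK (rf14c35.e, rf14c35.n) := red_ln rf14h10.2.1 rf14h10.2.1.1
theorem rf14k36 : CfgOK (rf14c36.e, rf14c36.n) := red_ln rf14h10.1 rf14h10.1.1
theorem rf14k37 : CfgOK (rf14c37.e, rf14c37.n) := red_ln rf14h9.2.2.1 rf14h9.2.2.1.1
theorem rf14k38 : CfgOK (rf14c38.e, rf14c38.n) := red_ln rf14h9.2.1 rf14h9.2.1.1
theorem rf14k39 : CfgOK (rf14c39.e, rf14c39.n) := red_ln rf14h9.1 rf14h9.1.1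
theorem rf14k40 : CfgOK (rf14c40.e, rf14c40.n) := red_ln rf14h8.2.2.1 rf14h8.2.2.1.1
theorem rf14k41 : CfgOK (rf14c41.e, rf14c41.n) := red_ln rf14h8.2.1 rf14h8.2.1.1
theorem rf14k42 : CfgOK (rf14c42.e, rf14c42.n) := red_ln rf14h8.1 rf14h8.1.1
theorem rf14k43 : CfgOK (rf14c43.e, rf14c43.n) := red_ln rf14h7.2.2.1 rf14h7.2.2.1.1
theorem rf14k44 : CfgOK (rf14c44.e, rf14c44.n) := red_ln rf14h7.2.1 rf14h7.2.1.1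
theorem rf14k45 : CfgOK (rf14c45.e, rf14c45.n) := red_ln rf14h7.1 rf14h7.1.1
theorem rf14k46 : CfgOK (rf14c46.e, rf14c46.n) := red_ln rf14h6.2.2.1 rf14h6.2.2.1.1
theorem rf14k47 : CfgOK (rf14c47.e, rf14c47.n) := red_ln rf14h6.2.1 rf14h6.2.1.1
theorem rf14k48 : CfgOK (rf14c48.e, rf14c48.n) := red_ln rf14h6.1 rf14h6.1.1
theorem rf14k49 : CfgOK (rf14c49.e, rf14c49.n) := red_ln rf14h5.2.2.1 rf14h5.2.2.1.1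
theorem rf14k50 : CfgOK (rf14c50.e, rf14c50.n) := red_ln rf14h5.2.1 rf14h5.2.1.1
theorem rf14k51 : CfgOK (rf14c51.e, rf14c51.n) := red_ln rf14h5.1 rf14h5.1.1
theorem rf14k52 : CfgOK (rf14c52.e, rf14c52.n) := red_ln rf14h4.2.2.1 rf14h4.2.2.1.1
theorem rf14k53 : CfgOK (rf14c53.e, rf14c53.n) := red_ln rf14h4.2.1 rf14h4.2.1.1
theorem rf14k54 : CfgOK (rf14c54.e, rf14c54.n) := red_ln rf14h4.1 ⟨rf14h4.1.1, rf14h25.2.2.2.2.2.2.2.2.2.2.2.2.2.2.2.2.2.1.1⟩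
theorem rf14k55 : CfgOK (rf14c55.e, rf14c55.n) := red_ln rf14h3.2.2.1 ⟨rf14h3.2.2.1.1, rf14h25.2.2.2.2.2.2.2.2.2.2.2.2.2.2.2.2.1.1⟩
theorem rf14k56 : CfgOK (rf14c56.e, rf14c56.n) := red_ln rf14h3.2.1 ⟨rf14h3.2.1.1, rf14h25.2.2.2.2.2.2.2.2.2.2.2.2.2.2.2.1.1⟩
theorem rf14k57 : CfgOK (rf14c57.e, rf14c57.n) := red_ln rf14h3.1 ⟨rf14h3.1.1, rf14h25.2.2.2.2.2.2.2.2.2.2.2.2.2.2.1.1⟩
theorem rf14k58 : CfgOK (rf14c58.e, rf14c58.n) := red_ln rf14h2.2.2.1 ⟨rf14h2.2.2.1.1, rf14h25.2.2.2.2.2.2.2.2.2.2.2.2.2.1.1⟩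
theorem rf14k59 : CfgOK (rf14c59.e, rf14c59.n) := red_ln rf14h2.2.1 ⟨rf14h2.2.1.1, rf14h25.2.2.2.2.2.2.2.2.2.2.2.2.1.1⟩
theorem rf14k60 : CfgOK (rf14c60.e, rf14c60.n) := red_ln rf14h2.1 ⟨rf14h2.1.1, rf14h25.2.2.2.2.2.2.2.2.2.2.2.1.1⟩
theorem rf14k61 : CfgOK (rf14c61.e, rf14c61.n) := red_ln rf14h35.2.2.1 ⟨rf14h35.2.2.1.1, rf14h25.2.2.2.2.2.2.2.2.2.2.1.1⟩
theorem rf14k62 : CfgOK (rf14c62.e, rf14c62.n) := red_ln rf14h35.2.1 ⟨rf14h35.2.1.1, rf14h25.2.2.2.2.2.2.2.2.2.1.1⟩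
theorem rf14k63 : CfgOK (rf14c63.e, rf14c63.n) := red_ln rf14h35.1 ⟨rf14h35.1.1, rf14h25.2.2.2.2.2.2.2.2.1.1⟩
theorem rf14k64 : CfgOK (rf14c64.e, rf14c64.n) := red_ln rf14h34.2.2.1 ⟨rf14h34.2.2.1.1, rf14h25.2.2.2.2.2.2.2.1.1⟩
theorem rf14k65 : CfgOK (rf14c65.e, rf14c65.n) := red_ln rf14h34.2.1 ⟨rf14h34.2.1.1, rf14h25.2.2.2.2.2.2.1.1⟩
theorem rf14k66 : CfgOK (rf14c66.e, rf14c66.n) := red_ln rf14h34.1 ⟨rf14h34.1.1, rf14h25.2.2.2.2.2.1.1⟩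
theorem rf14k67 : CfgOK (rf14c67.e, rf14c67.n) := red_ln rf14h33.2.2.1 ⟨rf14h33.2.2.1.1, rf14h25.2.2.2.2.1.1⟩
theorem rf14k68 : CfgOK (rf14c68.e, rf14c68.n) := red_ln rf14h33.2.1 ⟨rf14h33.2.1.1, rf14h25.2.2.2.1.1⟩
theorem rf14k69 : CfgOK (rf14c69.e, rf14c69.n) := red_ln rf14h33.1 ⟨rf14h33.1.1, rf14h25.2.2.1.1⟩
theorem rf14k70 : CfgOK (rf14c70.e, rf14c70.n) := red_ln rf14h32.2.2.1 ⟨⟨rf14h32.2.2.1.1, rf14h25.2.1.1⟩, ⟨rf14h28.2.2.2.2.2.2.2.2.2.1.1, rf14h29.2.1.1⟩⟩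
theorem rf14k71 : CfgOK (rf14c71.e, rf14c71.n) := red_ln rf14h32.2.1 ⟨rf14h32.2.1.1, rf14h27.1.1⟩
theorem rf14k72 : CfgOK (rf14c72.e, rf14c72.n) := red_ln rf14h32.1 ⟨rf14h32.1.1, rf14h28.2.2.2.2.2.2.2.2.1.1⟩
theorem rf14k73 : CfgOK (rf14c73.e, rf14c73.n) := red_ln rf14h31.2.2.1 ⟨rf14h31.2.2.1.1, rf14h28.2.2.2.2.2.2.2.1.1⟩
theorem rf14k74 : CfgOK (rf14c74.e, rf14c74.n) := red_ln rf14h31.2.1 ⟨⟨rf14h31.2.1.1, rf14h28.2.2.2.2.2.2.1.1⟩, ⟨rf14h25.1.1, rf14h29.1.1⟩⟩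
theorem rf14k75 : CfgOK (rf14c75.e, rf14c75.n) := red_ln rf14h31.1 ⟨rf14h31.1.1, rf14h28.2.2.1.1⟩
theorem rf14k76 : CfgOK (rf14c76.e, rf14c76.n) := red_ln rf14h30.2.2.1 ⟨rf14h30.2.2.1.1, rf14h26.2.2.1.1⟩
theorem rf14k77 : CfgOK (rf14c77.e, rf14c77.n) := red_ln rf14h30.2.1 ⟨rf14h30.2.1.1, rf14h26.2.1.1⟩
theorem rf14k78 : CfgOK (rf14c78.e, rf14c78.n) := red_ln rf14h30.1 ⟨rf14h30.1.1, rf14h28.2.1.1⟩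
theorem rf14k79 : CfgOK (rf14c79.e, rf14c79.n) := red_ln rf14h23.2.2.1 ⟨rf14h23.2.2.1.1, rf14h26.1.1⟩
theorem rf14k80 : CfgOK (rf14c80.e, rf14c80.n) := red_ln rf14h23.2.1 ⟨rf14h23.2.1.1, rf14h28.1.1⟩
theorem rf14k81 : CfgOK (rf14c81.e, rf14c81.n) := red_ln rf14h23.1 rf14h23.1.1
theorem rf14k82 : CfgOK (rf14c82.e, rf14c82.n) := red_ln rf14h12.2.2.1 rf14h12.2.2.1.1
theorem rf14k83 : CfgOK (rf14c83.e, rf14c83.n) := red_ln rf14h12.2.1 rf14h12.2.1.1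
theorem rf14k84 : CfgOK (rf14c84.e, rf14c84.n) := red_ln rf14h12.1 rf14h12.1.1
theorem rf14k85 : CfgOK (rf14c85.e, rf14c85.n) := red_ln rf14h1.2.2.1 rf14h1.2.2.1.1
theorem rf14k86 : CfgOK (rf14c86.e, rf14c86.n) := red_ln rf14h1.2.1 rf14h1.2.1.1
theorem rf14k87 : CfgOK (rf14c87.e, rf14c87.n) := red_ln rf14h1.1 rf14h1.1.1
theorem rf14k88 : CfgOK (rf14c88.e, rf14c88.n) := red_ln rf14h0.2.2.1 rf14h0.2.2.1.1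
theorem rf14k89 : CfgOK (rf14c89.e, rf14c89.n) := red_ln rf14h0.2.1 rf14h0.2.1.1
theorem rf14k90 : CfgOK (rf14c90.e, rf14c90.n) := red_ln rf14h0.1 rf14h0.1.1

end Pool.Agent.Lib.G6.B
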