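import Pool.Agent.Lib.G6.BRed
import Pool.Agent.Lib.G6D.RF15

set_option autoImplicit false
set_option maxRecDepth 100000
set_option linter.all false

namespace Pool.Agent.Lib.G6.B

theorem rf15h0 : AllL LnOK rf15l0 := batch_of rf15th.1
theorem rf15h1 : AllL LnOK rf15l1 := batch_of rf15th.2.1
theorem rf15h2 : AllL LnOK rf15l10 := batch_of rf15th.2.2.2.2.2.2.2.2.2.2.1
theorem rf15h3 : AllL LnOK rf15l11 := batch_of rf15th.2.2.2.2.2.2.2.2.2.2.2.1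
theorem rf15h4 : AllL LnOK rf15l12 := batch_of rf15th.2.2.2.2.2.2.2.2.2.2.2.2.1
theorem rf15h5 : AllL LnOK rf15l13 := batch_of rf15th.2.2.2.2.2.2.2.2.2.2.2.2.2.1
theorem rf15h6 : AllL LnOK rf15l14 := batch_of rf15th.2.2.2.2.2.2.2.2.2.2.2.2.2.2.1
theorem rf15h7 : AllL LnOK rf15l15 := batch_of rf15th.2.2.2.2.2.2.2.2.2.2.2.2.2.2.2.1
theorem rf15h8 : AllL LnOK rf15l16 := batch_of rf15th.2.2.2.2.2.2.2.2.2.2.2.2.2.2.2.2.1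
theorem rf15h9 : AllL LnOK rf15l17 := batch_of rf15th.2.2.2.2.2.2.2.2.2.2.2.2.2.2.2.2.2.1
theorem rf15h10 : AllL LnOK rf15l18 := batch_of rf15th.2.2.2.2.2.2.2.2.2.2.2.2.2.2.2.2.2.2.1
theorem rf15h11 : AllL LnOK rf15l19 := batch_of rf15th.2.2.2.2.2.2.2.2.2.2.2.2.2.2.2.2.2.2.2.1
theorem rf15h12 : AllL LnOK rf15l2 := batch_of rf15th.2.2.1
theorem rf15h13 : AllL LnOK rf15l20 := batch_of rf15th.2.2.2.2.2.2.2.2.2.2.2.2.2.2.2.2.2.2.2.2.1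
theorem rf15h14 : AllL LnOK rf15l21 := batch_of rf15th.2.2.2.2.2.2.2.2.2.2.2.2.2.2.2.2.2.2.2.2.2.1
theorem rf15h15 : AllL LnOK rf15l22 := batch_of rf15th.2.2.2.2.2.2.2.2.2.2.2.2.2.2.2.2.2.2.2.2.2.2.1
theorem rf15h16 : AllL LnOK rf15l23 := batch_of rf15th.2.2.2.2.2.2.2.2.2.2.2.2.2.2.2.2.2.2.2.2.2.2.2.1
theorem rf15h17 : AllL LnOK rf15l24 := batch_of rf15th.2.2.2.2.2.2.2.2.2.2.2.2.2.2.2.2.2.2.2.2.2.2.2.2.1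
theorem rf15h18 : AllL LnOK rf15l25 := batch_of rf15th.2.2.2.2.2.2.2.2.2.2.2.2.2.2.2.2.2.2.2.2.2.2.2.2.2.1
theorem rf15h19 : AllL LnOK rf15l26 := batch_of rf15th.2.2.2.2.2.2.2.2.2.2.2.2.2.2.2.2.2.2.2.2.2.2.2.2.2.2.1
theorem rf15h20 : AllL LnOK rf15l27 := batch_of rf15th.2.2.2.2.2.2.2.2.2.2.2.2.2.2.2.2.2.2.2.2.2.2.2.2.2.2.2.1
theorem rf15h21 : AllL LnOK rf15l28 := batch_of rf15th.2.2.2.2.2.2.2.2.2.2.2.2.2.2.2.2.2.2.2.2.2.2.2.2.2.2.2.2.1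
theorem rf15h22 : AllL LnOK rf15l29 := batch_of rf15th.2.2.2.2.2.2.2.2.2.2.2.2.2.2.2.2.2.2.2.2.2.2.2.2.2.2.2.2.2.1
theorem rf15h23 : AllL LnOK rf15l3 := batch_of rf15th.2.2.2.1
theorem rf15h24 : AllL LnOK rf15l30 := batch_of rf15th.2.2.2.2.2.2.2.2.2.2.2.2.2.2.2.2.2.2.2.2.2.2.2.2.2.2.2.2.2.2
theorem rf15h25 : AllL LnOK rf15l4 := batch_of rf15th.2.2.2.2.1
theorem rf15h26 : AllL LnOK rf15l5 := batch_of rf15th.2.2.2.2.2.1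
theorem rf15h27 : AllL LnOK rf15l6 := batch_of rf15th.2.2.2.2.2.2.1
theorem rf15h28 : AllL LnOK rf15l7 := batch_of rf15th.2.2.2.2.2.2.2.1
theorem rf15h29 : AllL LnOK rf15l8 := batch_of rf15th.2.2.2.2.2.2.2.2.1
theorem rf15h30 : AllL LnOK rf15l9 := batch_of rf15th.2.2.2.2.2.2.2.2.2.1
theorem rf15k0 : CfgOK (rf15c0.e, rf15c0.n) := red_ln rf15h14.2.1 rf15h14.2.1.1
theorem rf15k1 : CfgOK (rf15c1.e, rf15c1.n) := red_ln rf15h14.1 ⟨rf15h14.1.1, rf15h15.2.2.2.2.2.2.2.2.2.2.2.2.2.2.2.2.2.2.2.2.2.2.2.2.2.1.1⟩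
theorem rf15k2 : CfgOK (rf15c2.e, rf15c2.n) := red_ln rf15h13.2.2.1 ⟨rf15h13.2.2.1.1, rf15h15.2.2.2.2.2.2.2.2.2.2.2.2.2.2.2.2.2.2.2.2.2.2.2.2.1.1⟩
theorem rf15k3 : CfgOK (rf15c3.e, rf15c3.n) := red_ln rf15h13.2.1 ⟨rf15h13.2.1.1, rf15h15.2.2.2.2.2.2.2.2.2.2.2.2.2.2.2.2.2.2.2.2.2.2.2.1.1⟩
theorem rf15k4 : CfgOK (rf15c4.e, rf15c4.n) := red_ln rf15h13.1 ⟨rf15h13.1.1, rf15h15.2.2.2.2.2.2.2.2.2.2.2.2.2.2.2.2.2.2.2.2.2.2.1.1⟩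
theorem rf15k5 : CfgOK (rf15c5.e, rf15c5.n) := red_ln rf15h11.2.2.1 ⟨rf15h11.2.2.1.1, rf15h15.2.2.2.2.2.2.2.2.2.2.2.2.2.2.2.2.2.2.2.2.2.1.1⟩
theorem rf15k6 : CfgOK (rf15c6.e, rf15c6.n) := red_ln rf15h11.2.1 ⟨rf15h11.2.1.1, rf15h15.2.2.2.2.2.2.2.2.2.2.2.2.2.2.2.2.2.2.2.2.1.1⟩
theorem rf15k7 : CfgOK (rf15c7.e, rf15c7.n) := red_ln rf15h11.1 ⟨rf15h11.1.1, rf15h15.2.2.2.2.2.2.2.2.2.2.2.2.2.2.2.2.2.2.2.1.1⟩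
theorem rf15k8 : CfgOK (rf15c8.e, rf15c8.n) := red_ln rf15h10.2.2.1 ⟨⟨rf15h10.2.2.1.1, rf15h18.1.1⟩, ⟨rf15h15.2.2.2.2.2.2.2.2.2.2.2.2.2.2.2.2.2.2.1.1, rf15h19.2.2.2.2.2.1.1⟩⟩
theorem rf15k9 : CfgOK (rf15c9.e, rf15c9.n) := red_ln rf15h10.2.1 ⟨⟨rf15h10.2.1.1, rf15h21.1.1⟩, ⟨rf15h15.2.2.2.2.2.2.2.2.2.2.2.2.2.2.2.2.2.1.1, rf15h19.2.2.2.2.1.1⟩⟩
theorem rf15k10 : CfgOK (rf15c10.e, rf15c10.n) := red_ln rf15h10.1 ⟨rf15h10.1.1, rf15h16.2.2.2.2.2.1.1⟩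
theorem rf15k11 : CfgOK (rf15c11.e, rf15c11.n) := red_ln rf15h9.2.2.1 ⟨⟨rf15h9.2.2.1.1, rf15h20.2.2.2.2.2.1.1⟩, ⟨rf15h15.2.2.2.2.2.2.2.2.2.2.2.2.2.2.2.2.1.1, rf15h19.2.2.2.1.1⟩⟩
theorem rf15k12 : CfgOK (rf15c12.e, rf15c12.n) := red_ln rf15h9.2.1 rf15h9.2.1.1
theorem rf15k13 : CfgOK (rf15c13.e, rf15c13.n) := red_ln rf15h9.1 rf15h9.1.1
theorem rf15k14 : CfgOK (rf15c14.e, rf15c14.n) := red_ln rf15h8.2.2.1 rf15h8.2.2.1.1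
theorem rf15k15 : CfgOK (rf15c15.e, rf15c15.n) := red_ln rf15h8.2.1 rf15h8.2.1.1
theorem rf15k16 : CfgOK (rf15c16.e, rf15c16.n) := red_ln rf15h8.1 rf15h8.1.1
theorem rf15k17 : CfgOK (rf15c17.e, rf15c17.n) := red_ln rf15h7.2.2.1 rf15h7.2.2.1.1
theorem rf15k18 : CfgOK (rf15c18.e, rf15c18.n) := red_ln rf15h7.2.1 rf15h7.2.1.1
theorem rf15k19 : CfgOK (rf15c19.e, rf15c19.n) := red_ln rf15h7.1 rf15h7.1.1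
theorem rf15k20 : CfgOK (rf15c20.e, rf15c20.n) := red_ln rf15h6.2.2.1 rf15h6.2.2.1.1
theorem rf15k21 : CfgOK (rf15c21.e, rf15c21.n) := red_ln rf15h6.2.1 rf15h6.2.1.1
theorem rf15k22 : CfgOK (rf15c22.e, rf15c22.n) := red_ln rf15h6.1 rf15h6.1.1
theorem rf15k23 : CfgOK (rf15c23.e, rf15c23.n) := red_ln rf15h5.2.2.1 rf15h5.2.2.1.1
theorem rf15k24 : CfgOK (rf15c24.e, rf15c24.n) := red_ln rf15h5.2.1 rf15h5.2.1.1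
theorem rf15k25 : CfgOK (rf15c25.e, rf15c25.n) := red_ln rf15h5.1 rf15h5.1.1
theorem rf15k26 : CfgOK (rf15c26.e, rf15c26.n) := red_ln rf15h4.2.2.1 ⟨rf15h4.2.2.1.1, rf15h15.2.2.2.2.2.2.2.2.2.2.2.2.2.2.2.1.1⟩
theorem rf15k27 : CfgOK (rf15c27.e, rf15c27.n) := red_ln rf15h4.2.1 ⟨rf15h4.2.1.1, rf15h15.2.2.2.2.2.2.2.2.2.2.2.2.2.2.1.1⟩
theorem rf15k28 : CfgOK (rf15c28.e, rf15c28.n) := red_ln rf15h4.1 ⟨rf15h4.1.1, rf15h15.2.2.2.2.2.2.2.2.2.2.2.2.2.1.1⟩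
theorem rf15k29 : CfgOK (rf15c29.e, rf15c29.n) := red_ln rf15h3.2.2.1 ⟨rf15h3.2.2.1.1, rf15h15.2.2.2.2.2.2.2.2.2.2.2.2.1.1⟩
theorem rf15k30 : CfgOK (rf15c30.e, rf15c30.n) := red_ln rf15h3.2.1 ⟨⟨rf15h3.2.1.1, rf15h15.2.2.2.2.2.2.2.2.2.2.2.1.1⟩, ⟨rf15h20.2.1.1, rf15h19.2.2.1.1⟩⟩
theorem rf15k31 : CfgOK (rf15c31.e, rf15c31.n) := red_ln rf15h3.1 ⟨⟨rf15h3.1.1, rf15h17.2.2.1.1⟩, ⟨rf15h15.2.2.2.2.2.2.2.2.2.2.1.1, rf15h19.2.1.1⟩⟩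
theorem rf15k32 : CfgOK (rf15c32.e, rf15c32.n) := red_ln rf15h2.2.2.1 ⟨⟨rf15h2.2.2.1.1, rf15h17.2.1.1⟩, ⟨rf15h15.2.2.2.2.2.2.2.2.2.1.1, rf15h19.1.1⟩⟩
theorem rf15k33 : CfgOK (rf15c33.e, rf15c33.n) := red_ln rf15h2.2.1 ⟨rf15h2.2.1.1, rf15h20.2.2.2.2.1.1⟩
theorem rf15k34 : CfgOK (rf15c34.e, rf15c34.n) := red_ln rf15h2.1 ⟨rf15h2.1.1, rf15h16.2.2.2.2.1.1⟩
theorem rf15k35 : CfgOK (rf15c35.e, rf15c35.n) := red_ln rf15h30.2.2.1 ⟨⟨rf15h30.2.2.1.1, rf15h16.2.2.2.1.1⟩, ⟨rf15h20.2.2.2.1.1, rf15h22.1.1⟩⟩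
theorem rf15k36 : CfgOK (rf15c36.e, rf15c36.n) := red_ln rf15h30.2.1 ⟨rf15h30.2.1.1, rf15h16.2.2.1.1⟩
theorem rf15k37 : CfgOK (rf15c37.e, rf15c37.n) := red_ln rf15h30.1 ⟨rf15h30.1.1, rf15h20.2.2.1.1⟩
theorem rf15k38 : CfgOK (rf15c38.e, rf15c38.n) := red_ln rf15h29.2.2.1 rf15h29.2.2.1.1
theorem rf15k39 : CfgOK (rf15c39.e, rf15c39.n) := red_ln rf15h29.2.1 rf15h29.2.1.1
theorem rf15k40 : CfgOK (rf15c40.e, rf15c40.n) := red_ln rf15h29.1 rf15h29.1.1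
theorem rf15k41 : CfgOK (rf15c41.e, rf15c41.n) := red_ln rf15h28.2.2.1 rf15h28.2.2.1.1
theorem rf15k42 : CfgOK (rf15c42.e, rf15c42.n) := red_ln rf15h28.2.1 rf15h28.2.1.1
theorem rf15k43 : CfgOK (rf15c43.e, rf15c43.n) := red_ln rf15h28.1 rf15h28.1.1
theorem rf15k44 : CfgOK (rf15c44.e, rf15c44.n) := red_ln rf15h27.2.2.1 rf15h27.2.2.1.1
theorem rf15k45 : CfgOK (rf15c45.e, rf15c45.n) := red_ln rf15h27.2.1 rf15h27.2.1.1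
theorem rf15k46 : CfgOK (rf15c46.e, rf15c46.n) := red_ln rf15h27.1 rf15h27.1.1
theorem rf15k47 : CfgOK (rf15c47.e, rf15c47.n) := red_ln rf15h26.2.2.1 rf15h26.2.2.1.1
theorem rf15k48 : CfgOK (rf15c48.e, rf15c48.n) := red_ln rf15h26.2.1 ⟨rf15h26.2.1.1, rf15h15.2.2.2.2.2.2.2.2.1.1⟩
theorem rf15k49 : CfgOK (rf15c49.e, rf15c49.n) := red_ln rf15h26.1 ⟨rf15h26.1.1, rf15h15.2.2.2.2.2.2.2.1.1⟩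
theorem rf15k50 : CfgOK (rf15c50.e, rf15c50.n) := red_ln rf15h25.2.2.1 ⟨rf15h25.2.2.1.1, rf15h15.2.2.2.2.2.2.1.1⟩
theorem rf15k51 : CfgOK (rf15c51.e, rf15c51.n) := red_ln rf15h25.2.1 ⟨rf15h25.2.1.1, rf15h15.2.2.2.2.2.1.1⟩
theorem rf15k52 : CfgOK (rf15c52.e, rf15c52.n) := red_ln rf15h25.1 ⟨rf15h25.1.1, rf15h15.2.2.2.2.1.1⟩
theorem rf15k53 : CfgOK (rf15c53.e, rf15c53.n) := red_ln rf15h23.2.2.1 ⟨rf15h23.2.2.1.1, rf15h15.2.2.2.1.1⟩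
theorem rf15k54 : CfgOK (rf15c54.e, rf15c54.n) := red_ln rf15h23.2.1 ⟨rf15h23.2.1.1, rf15h15.2.2.1.1⟩
theorem rf15k55 : CfgOK (rf15c55.e, rf15c55.n) := red_ln rf15h23.1 ⟨rf15h23.1.1, rf15h15.2.1.1⟩
theorem rf15k56 : CfgOK (rf15c56.e, rf15c56.n) := red_ln rf15h12.2.2.1 ⟨rf15h12.2.2.1.1, rf15h15.1.1⟩
theorem rf15k57 : CfgOK (rf15c57.e, rf15c57.n) := red_ln rf15h12.2.1 ⟨⟨rf15h12.2.1.1, rf15h17.1.1⟩, ⟨rf15h20.1.1, rf15h24.1.1⟩⟩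
theorem rf15k58 : CfgOK (rf15c58.e, rf15c58.n) := red_ln rf15h12.1 ⟨rf15h12.1.1, rf15h16.2.1.1⟩
theorem rf15k59 : CfgOK (rf15c59.e, rf15c59.n) := red_ln rf15h1.2.1 ⟨rf15h1.2.1.1, rf15h16.1.1⟩
theorem rf15k60 : CfgOK (rf15c60.e, rf15c60.n) := red_ln rf15h1.1 rf15h1.1.1
theorem rf15k61 : CfgOK (rf15c61.e, rf15c61.n) := red_ln rf15h0.2.1 rf15h0.2.1.1
theorem rf15k62 : CfgOK (rf15c62.e, rf15c62.n) := red_ln rf15h0.1 rf15h0.1.1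

end Pool.Agent.Lib.G6.B
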