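import Pool.Agent.Lib.G6D.RFQ12
import Pool.Agent.Lib.G6D.RFQ13
import Pool.Agent.Lib.G6D.RFQ14
import Pool.Agent.Lib.G6D.RFQ15
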