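import Pool.Agent.Lib.G6.BRed
import Pool.Agent.Lib.G6D.RF16
import Pool.Agent.Lib.G6D.RF17
import Pool.Agent.Lib.G6D.RF18
import Pool.Agent.Lib.G6D.RF19

set_option autoImplicit false
set_option maxRecDepth 100000
set_option linter.all false

namespace Pool.Agent.Lib.G6.B

theorem rf16h0 : AllL LnOK rf16l0 := batch_of rf16th.1
theorem rf16h1 : AllL LnOK rf16l1 := batch_of rf16th.2.1
theorem rf16h2 : AllL LnOK rf16l10 := batch_of rf16th.2.2.2.2.2.2.2.2.2.2.1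
theorem rf16h3 : AllL LnOK rf16l11 := batch_of rf16th.2.2.2.2.2.2.2.2.2.2.2.1
theorem rf16h4 : AllL LnOK rf16l12 := batch_of rf16th.2.2.2.2.2.2.2.2.2.2.2.2.1
theorem rf16h5 : AllL LnOK rf16l13 := batch_of rf16th.2.2.2.2.2.2.2.2.2.2.2.2.2.1
theorem rf16h6 : AllL LnOK rf16l14 := batch_of rf16th.2.2.2.2.2.2.2.2.2.2.2.2.2.2.1
theorem rf16h7 : AllL LnOK rf16l15 := batch_of rf16th.2.2.2.2.2.2.2.2.2.2.2.2.2.2.2.1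
theorem rf16h8 : AllL LnOK rf16l16 := batch_of rf16th.2.2.2.2.2.2.2.2.2.2.2.2.2.2.2.2.1
theorem rf16h9 : AllL LnOK rf16l17 := batch_of rf16th.2.2.2.2.2.2.2.2.2.2.2.2.2.2.2.2.2.1
theorem rf16h10 : AllL LnOK rf16l18 := batch_of rf16th.2.2.2.2.2.2.2.2.2.2.2.2.2.2.2.2.2.2.1
theorem rf16h11 : AllL LnOK rf16l19 := batch_of rf16th.2.2.2.2.2.2.2.2.2.2.2.2.2.2.2.2.2.2.2.1
theorem rf16h12 : AllL LnOK rf16l2 := batch_of rf16th.2.2.1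
theorem rf16h13 : AllL LnOK rf16l20 := batch_of rf16th.2.2.2.2.2.2.2.2.2.2.2.2.2.2.2.2.2.2.2.2.1
theorem rf16h14 : AllL LnOK rf16l21 := batch_of rf16th.2.2.2.2.2.2.2.2.2.2.2.2.2.2.2.2.2.2.2.2.2.1
theorem rf16h15 : AllL LnOK rf16l22 := batch_of rf16th.2.2.2.2.2.2.2.2.2.2.2.2.2.2.2.2.2.2.2.2.2.2.1
theorem rf16h16 : AllL LnOK rf16l23 := batch_of rf16th.2.2.2.2.2.2.2.2.2.2.2.2.2.2.2.2.2.2.2.2.2.2.2.1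
theorem rf16h17 : AllL LnOK rf16l24 := batch_of rf16th.2.2.2.2.2.2.2.2.2.2.2.2.2.2.2.2.2.2.2.2.2.2.2.2.1
theorem rf16h18 : AllL LnOK rf16l25 := batch_of rf16th.2.2.2.2.2.2.2.2.2.2.2.2.2.2.2.2.2.2.2.2.2.2.2.2.2.1
theorem rf16h19 : AllL LnOK rf16l26 := batch_of rf16th.2.2.2.2.2.2.2.2.2.2.2.2.2.2.2.2.2.2.2.2.2.2.2.2.2.2.1
theorem rf16h20 : AllL LnOK rf16l27 := batch_of rf16th.2.2.2.2.2.2.2.2.2.2.2.2.2.2.2.2.2.2.2.2.2.2.2.2.2.2.2.1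
theorem rf16h21 : AllL LnOK rf16l28 := batch_of rf16th.2.2.2.2.2.2.2.2.2.2.2.2.2.2.2.2.2.2.2.2.2.2.2.2.2.2.2.2
theorem rf16h22 : AllL LnOK rf16l3 := batch_of rf16th.2.2.2.1
theorem rf16h23 : AllL LnOK rf16l4 := batch_of rf16th.2.2.2.2.1
theorem rf16h24 : AllL LnOK rf16l5 := batch_of rf16th.2.2.2.2.2.1
theorem rf16h25 : AllL LnOK rf16l6 := batch_of rf16th.2.2.2.2.2.2.1
theorem rf16h26 : AllL LnOK rf16l7 := batch_of rf16th.2.2.2.2.2.2.2.1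
theorem rf16h27 : AllL LnOK rf16l8 := batch_of rf16th.2.2.2.2.2.2.2.2.1
theorem rf16h28 : AllL LnOK rf16l9 := batch_of rf16th.2.2.2.2.2.2.2.2.2.1
theorem rf17h0 : AllL LnOK rf17l0 := batch_of rf17th.1
theorem rf17h1 : AllL LnOK rf17l1 := batch_of rf17th.2.1
theorem rf17h2 : AllL LnOK rf17l10 := batch_of rf17th.2.2.2.2.2.2.2.2.2.2.1
theorem rf17h3 : AllL LnOK rf17l11 := batch_of rf17th.2.2.2.2.2.2.2.2.2.2.2.1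
theorem rf17h4 : AllL LnOK rf17l12 := batch_of rf17th.2.2.2.2.2.2.2.2.2.2.2.2.1
theorem rf17h5 : AllL LnOK rf17l13 := batch_of rf17th.2.2.2.2.2.2.2.2.2.2.2.2.2.1
theorem rf17h6 : AllL LnOK rf17l14 := batch_of rf17th.2.2.2.2.2.2.2.2.2.2.2.2.2.2.1
theorem rf17h7 : AllL LnOK rf17l15 := batch_of rf17th.2.2.2.2.2.2.2.2.2.2.2.2.2.2.2.1
theorem rf17h8 : AllL LnOK rf17l16 := batch_of rf17th.2.2.2.2.2.2.2.2.2.2.2.2.2.2.2.2.1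
theorem rf17h9 : AllL LnOK rf17l17 := batch_of rf17th.2.2.2.2.2.2.2.2.2.2.2.2.2.2.2.2.2.1
theorem rf17h10 : AllL LnOK rf17l18 := batch_of rf17th.2.2.2.2.2.2.2.2.2.2.2.2.2.2.2.2.2.2.1
theorem rf17h11 : AllL LnOK rf17l19 := batch_of rf17th.2.2.2.2.2.2.2.2.2.2.2.2.2.2.2.2.2.2.2.1
theorem rf17h12 : AllL LnOK rf17l2 := batch_of rf17th.2.2.1
theorem rf17h13 : AllL LnOK rf17l20 := batch_of rf17th.2.2.2.2.2.2.2.2.2.2.2.2.2.2.2.2.2.2.2.2.1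
theorem rf17h14 : AllL LnOK rf17l21 := batch_of rf17th.2.2.2.2.2.2.2.2.2.2.2.2.2.2.2.2.2.2.2.2.2.1
theorem rf17h15 : AllL LnOK rf17l22 := batch_of rf17th.2.2.2.2.2.2.2.2.2.2.2.2.2.2.2.2.2.2.2.2.2.2.1
theorem rf17h16 : AllL LnOK rf17l23 := batch_of rf17th.2.2.2.2.2.2.2.2.2.2.2.2.2.2.2.2.2.2.2.2.2.2.2.1
theorem rf17h17 : AllL LnOK rf17l24 := batch_of rf17th.2.2.2.2.2.2.2.2.2.2.2.2.2.2.2.2.2.2.2.2.2.2.2.2.1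
theorem rf17h18 : AllL LnOK rf17l25 := batch_of rf17th.2.2.2.2.2.2.2.2.2.2.2.2.2.2.2.2.2.2.2.2.2.2.2.2.2.1
theorem rf17h19 : AllL LnOK rf17l26 := batch_of rf17th.2.2.2.2.2.2.2.2.2.2.2.2.2.2.2.2.2.2.2.2.2.2.2.2.2.2.1
theorem rf17h20 : AllL LnOK rf17l27 := batch_of rf17th.2.2.2.2.2.2.2.2.2.2.2.2.2.2.2.2.2.2.2.2.2.2.2.2.2.2.2
theorem rf17h21 : AllL LnOK rf17l3 := batch_of rf17th.2.2.2.1
theorem rf17h22 : AllL LnOK rf17l4 := batch_of rf17th.2.2.2.2.1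
theorem rf17h23 : AllL LnOK rf17l5 := batch_of rf17th.2.2.2.2.2.1
theorem rf17h24 : AllL LnOK rf17l6 := batch_of rf17th.2.2.2.2.2.2.1
theorem rf17h25 : AllL LnOK rf17l7 := batch_of rf17th.2.2.2.2.2.2.2.1
theorem rf17h26 : AllL LnOK rf17l8 := batch_of rf17th.2.2.2.2.2.2.2.2.1
theorem rf17h27 : AllL LnOK rf17l9 := batch_of rf17th.2.2.2.2.2.2.2.2.2.1
theorem rf18h0 : AllL LnOK rf18l10 := batch_of rf18th.2.2.2.2.2.2.2.2.2.2.1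
theorem rf18h1 : AllL LnOK rf18l11 := batch_of rf18th.2.2.2.2.2.2.2.2.2.2.2.1
theorem rf18h2 : AllL LnOK rf18l12 := batch_of rf18th.2.2.2.2.2.2.2.2.2.2.2.2.1
theorem rf18h3 : AllL LnOK rf18l13 := batch_of rf18th.2.2.2.2.2.2.2.2.2.2.2.2.2.1
theorem rf18h4 : AllL LnOK rf18l14 := batch_of rf18th.2.2.2.2.2.2.2.2.2.2.2.2.2.2.1
theorem rf18h5 : AllL LnOK rf18l15 := batch_of rf18th.2.2.2.2.2.2.2.2.2.2.2.2.2.2.2.1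
theorem rf18h6 : AllL LnOK rf18l16 := batch_of rf18th.2.2.2.2.2.2.2.2.2.2.2.2.2.2.2.2.1
theorem rf18h7 : AllL LnOK rf18l17 := batch_of rf18th.2.2.2.2.2.2.2.2.2.2.2.2.2.2.2.2.2.1
theorem rf18h8 : AllL LnOK rf18l18 := batch_of rf18th.2.2.2.2.2.2.2.2.2.2.2.2.2.2.2.2.2.2.1
theorem rf18h9 : AllL LnOK rf18l19 := batch_of rf18th.2.2.2.2.2.2.2.2.2.2.2.2.2.2.2.2.2.2.2.1
theorem rf18h10 : AllL LnOK rf18l20 := batch_of rf18th.2.2.2.2.2.2.2.2.2.2.2.2.2.2.2.2.2.2.2.2.1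
theorem rf18h11 : AllL LnOK rf18l21 := batch_of rf18th.2.2.2.2.2.2.2.2.2.2.2.2.2.2.2.2.2.2.2.2.2.1
theorem rf18h12 : AllL LnOK rf18l22 := batch_of rf18th.2.2.2.2.2.2.2.2.2.2.2.2.2.2.2.2.2.2.2.2.2.2.1
theorem rf18h13 : AllL LnOK rf18l23 := batch_of rf18th.2.2.2.2.2.2.2.2.2.2.2.2.2.2.2.2.2.2.2.2.2.2.2.1
theorem rf18h14 : AllL LnOK rf18l24 := batch_of rf18th.2.2.2.2.2.2.2.2.2.2.2.2.2.2.2.2.2.2.2.2.2.2.2.2.1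
theorem rf18h15 : AllL LnOK rf18l25 := batch_of rf18th.2.2.2.2.2.2.2.2.2.2.2.2.2.2.2.2.2.2.2.2.2.2.2.2.2.1
theorem rf18h16 : AllL LnOK rf18l26 := batch_of rf18th.2.2.2.2.2.2.2.2.2.2.2.2.2.2.2.2.2.2.2.2.2.2.2.2.2.2.1
theorem rf18h17 : AllL LnOK rf18l27 := batch_of rf18th.2.2.2.2.2.2.2.2.2.2.2.2.2.2.2.2.2.2.2.2.2.2.2.2.2.2.2
theorem rf18h18 : AllL LnOK rf18l0 := ck2_of (ck0_of rf18th.1) rf18th.2.1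
theorem rf18h19 : AllL LnOK rf18l2 := ck2_of (ck0_of rf18th.2.2.1) rf18th.2.2.2.1
theorem rf18h20 : AllL LnOK rf18l4 := ck2_of (ck0_of rf18th.2.2.2.2.1) rf18th.2.2.2.2.2.1
theorem rf18h21 : AllL LnOK rf18l6 := ck2_of (ck0_of rf18th.2.2.2.2.2.2.1) rf18th.2.2.2.2.2.2.2.1
theorem rf18h22 : AllL LnOK rf18l8 := ck2_of (ck0_of rf18th.2.2.2.2.2.2.2.2.1) rf18th.2.2.2.2.2.2.2.2.2.1
theorem rf19h0 : AllL LnOK rf19l0 := batch_of rf19th.1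
theorem rf19h1 : AllL LnOK rf19l1 := batch_of rf19th.2.1
theorem rf19h2 : AllL LnOK rf19l10 := batch_of rf19th.2.2.2.2.2.2.2.2.2.2.1
theorem rf19h3 : AllL LnOK rf19l11 := batch_of rf19th.2.2.2.2.2.2.2.2.2.2.2.1
theorem rf19h4 : AllL LnOK rf19l12 := batch_of rf19th.2.2.2.2.2.2.2.2.2.2.2.2.1
theorem rf19h5 : AllL LnOK rf19l13 := batch_of rf19th.2.2.2.2.2.2.2.2.2.2.2.2.2.1
theorem rf19h6 : AllL LnOK rf19l14 := batch_of rf19th.2.2.2.2.2.2.2.2.2.2.2.2.2.2.1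
theorem rf19h7 : AllL LnOK rf19l15 := batch_of rf19th.2.2.2.2.2.2.2.2.2.2.2.2.2.2.2.1
theorem rf19h8 : AllL LnOK rf19l16 := batch_of rf19th.2.2.2.2.2.2.2.2.2.2.2.2.2.2.2.2.1
theorem rf19h9 : AllL LnOK rf19l17 := batch_of rf19th.2.2.2.2.2.2.2.2.2.2.2.2.2.2.2.2.2.1
theorem rf19h10 : AllL LnOK rf19l18 := batch_of rf19th.2.2.2.2.2.2.2.2.2.2.2.2.2.2.2.2.2.2.1
theorem rf19h11 : AllL LnOK rf19l19 := batch_of rf19th.2.2.2.2.2.2.2.2.2.2.2.2.2.2.2.2.2.2.2.1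
theorem rf19h12 : AllL LnOK rf19l2 := batch_of rf19th.2.2.1
theorem rf19h13 : AllL LnOK rf19l20 := batch_of rf19th.2.2.2.2.2.2.2.2.2.2.2.2.2.2.2.2.2.2.2.2.1
theorem rf19h14 : AllL LnOK rf19l21 := batch_of rf19th.2.2.2.2.2.2.2.2.2.2.2.2.2.2.2.2.2.2.2.2.2.1
theorem rf19h15 : AllL LnOK rf19l22 := batch_of rf19th.2.2.2.2.2.2.2.2.2.2.2.2.2.2.2.2.2.2.2.2.2.2.1
theorem rf19h16 : AllL LnOK rf19l23 := batch_of rf19th.2.2.2.2.2.2.2.2.2.2.2.2.2.2.2.2.2.2.2.2.2.2.2.1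
theorem rf19h17 : AllL LnOK rf19l24 := batch_of rf19th.2.2.2.2.2.2.2.2.2.2.2.2.2.2.2.2.2.2.2.2.2.2.2.2.1
theorem rf19h18 : AllL LnOK rf19l25 := batch_of rf19th.2.2.2.2.2.2.2.2.2.2.2.2.2.2.2.2.2.2.2.2.2.2.2.2.2.1
theorem rf19h19 : AllL LnOK rf19l26 := batch_of rf19th.2.2.2.2.2.2.2.2.2.2.2.2.2.2.2.2.2.2.2.2.2.2.2.2.2.2.1
theorem rf19h20 : AllL LnOK rf19l27 := batch_of rf19th.2.2.2.2.2.2.2.2.2.2.2.2.2.2.2.2.2.2.2.2.2.2.2.2.2.2.2.1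
theorem rf19h21 : AllL LnOK rf19l28 := batch_of rf19th.2.2.2.2.2.2.2.2.2.2.2.2.2.2.2.2.2.2.2.2.2.2.2.2.2.2.2.2.1
theorem rf19h22 : AllL LnOK rf19l29 := batch_of rf19th.2.2.2.2.2.2.2.2.2.2.2.2.2.2.2.2.2.2.2.2.2.2.2.2.2.2.2.2.2.1
theorem rf19h23 : AllL LnOK rf19l3 := batch_of rf19th.2.2.2.1
theorem rf19h24 : AllL LnOK rf19l30 := batch_of rf19th.2.2.2.2.2.2.2.2.2.2.2.2.2.2.2.2.2.2.2.2.2.2.2.2.2.2.2.2.2.2.1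
theorem rf19h25 : AllL LnOK rf19l31 := batch_of rf19th.2.2.2.2.2.2.2.2.2.2.2.2.2.2.2.2.2.2.2.2.2.2.2.2.2.2.2.2.2.2.2.1
theorem rf19h26 : AllL LnOK rf19l32 := batch_of rf19th.2.2.2.2.2.2.2.2.2.2.2.2.2.2.2.2.2.2.2.2.2.2.2.2.2.2.2.2.2.2.2.2
theorem rf19h27 : AllL LnOK rf19l4 := batch_of rf19th.2.2.2.2.1
theorem rf19h28 : AllL LnOK rf19l5 := batch_of rf19th.2.2.2.2.2.1
theorem rf19h29 : AllL LnOK rf19l6 := batch_of rf19th.2.2.2.2.2.2.1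
theorem rf19h30 : AllL LnOK rf19l7 := batch_of rf19th.2.2.2.2.2.2.2.1
theorem rf19h31 : AllL LnOK rf19l8 := batch_of rf19th.2.2.2.2.2.2.2.2.1
theorem rf19h32 : AllL LnOK rf19l9 := batch_of rf19th.2.2.2.2.2.2.2.2.2.1
theorem rf16k0 : CfgOK (rf16c0.e, rf16c0.n) := red_ln rf16h18.2.1 rf16h18.2.1.1
theorem rf16k1 : CfgOK (rf16c1.e, rf16c1.n) := red_ln rf16h18.1 rf16h18.1.1
theorem rf16k2 : CfgOK (rf16c2.e, rf16c2.n) := red_ln rf16h17.2.1 rf16h17.2.1.1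
theorem rf16k3 : CfgOK (rf16c3.e, rf16c3.n) := red_ln rf16h17.1 rf16h17.1.1
theorem rf16k4 : CfgOK (rf16c4.e, rf16c4.n) := red_ln rf16h16.2.1 rf16h16.2.1.1
theorem rf16k5 : CfgOK (rf16c5.e, rf16c5.n) := red_ln rf16h16.1 rf16h16.1.1
theorem rf16k6 : CfgOK (rf16c6.e, rf16c6.n) := red_ln rf16h15.2.1 rf16h15.2.1.1
theorem rf16k7 : CfgOK (rf16c7.e, rf16c7.n) := red_ln rf16h15.1 rf16h15.1.1
theorem rf16k8 : CfgOK (rf16c8.e, rf16c8.n) := red_ln rf16h14.2.1 rf16h14.2.1.1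
theorem rf16k9 : CfgOK (rf16c9.e, rf16c9.n) := red_ln rf16h14.1 rf16h14.1.1
theorem rf16k10 : CfgOK (rf16c10.e, rf16c10.n) := red_ln rf16h13.2.1 ⟨rf16h13.2.1.1, rf16h19.2.2.2.2.2.2.2.2.2.2.2.2.2.2.2.2.2.2.1.1⟩
theorem rf16k11 : CfgOK (rf16c11.e, rf16c11.n) := red_ln rf16h13.1 ⟨rf16h13.1.1, rf16h19.2.2.2.2.2.2.2.2.2.2.2.2.2.2.2.2.2.1.1⟩
theorem rf16k12 : CfgOK (rf16c12.e, rf16c12.n) := red_ln rf16h11.2.1 ⟨rf16h11.2.1.1, rf16h19.2.2.2.2.2.2.2.2.2.2.2.2.2.2.2.2.1.1⟩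
theorem rf16k13 : CfgOK (rf16c13.e, rf16c13.n) := red_ln rf16h11.1 ⟨rf16h11.1.1, rf16h19.2.2.2.2.2.2.2.2.2.2.2.2.2.2.2.1.1⟩
theorem rf16k14 : CfgOK (rf16c14.e, rf16c14.n) := red_ln rf16h10.2.1 ⟨rf16h10.2.1.1, rf16h19.2.2.2.2.2.2.2.2.2.2.2.2.2.2.1.1⟩
theorem rf16k15 : CfgOK (rf16c15.e, rf16c15.n) := red_ln rf16h10.1 ⟨rf16h10.1.1, rf16h19.2.2.2.2.2.2.2.2.2.2.2.2.2.1.1⟩
theorem rf16k16 : CfgOK (rf16c16.e, rf16c16.n) := red_ln rf16h9.2.1 ⟨rf16h9.2.1.1, rf16h19.2.2.2.2.2.2.2.2.2.2.2.2.1.1⟩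
theorem rf16k17 : CfgOK (rf16c17.e, rf16c17.n) := red_ln rf16h9.1 ⟨rf16h9.1.1, rf16h19.2.2.2.2.2.2.2.2.2.2.2.1.1⟩
theorem rf16k18 : CfgOK (rf16c18.e, rf16c18.n) := red_ln rf16h8.2.1 ⟨rf16h8.2.1.1, rf16h19.2.2.2.2.2.2.2.2.2.2.1.1⟩
theorem rf16k19 : CfgOK (rf16c19.e, rf16c19.n) := red_ln rf16h8.1 ⟨rf16h8.1.1, rf16h19.2.2.2.2.2.2.2.2.2.1.1⟩
theorem rf16k20 : CfgOK (rf16c20.e, rf16c20.n) := red_ln rf16h7.2.1 ⟨⟨rf16h7.2.1.1, rf16h20.2.2.2.2.1.1⟩, ⟨rf16h20.2.2.1.1, rf16h21.1.1⟩⟩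
theorem rf16k21 : CfgOK (rf16c21.e, rf16c21.n) := red_ln rf16h7.1 ⟨rf16h7.1.1, rf16h20.2.2.2.1.1⟩
theorem rf16k22 : CfgOK (rf16c22.e, rf16c22.n) := red_ln rf16h6.2.1 ⟨rf16h6.2.1.1, rf16h20.2.1.1⟩
theorem rf16k23 : CfgOK (rf16c23.e, rf16c23.n) := red_ln rf16h6.1 ⟨rf16h6.1.1, rf16h20.1.1⟩
theorem rf16k24 : CfgOK (rf16c24.e, rf16c24.n) := red_ln rf16h5.2.1 rf16h5.2.1.1
theorem rf16k25 : CfgOK (rf16c25.e, rf16c25.n) := red_ln rf16h5.1 rf16h5.1.1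
theorem rf16k26 : CfgOK (rf16c26.e, rf16c26.n) := red_ln rf16h4.2.1 rf16h4.2.1.1
theorem rf16k27 : CfgOK (rf16c27.e, rf16c27.n) := red_ln rf16h4.1 rf16h4.1.1
theorem rf16k28 : CfgOK (rf16c28.e, rf16c28.n) := red_ln rf16h3.2.1 rf16h3.2.1.1
theorem rf16k29 : CfgOK (rf16c29.e, rf16c29.n) := red_ln rf16h3.1 rf16h3.1.1
theorem rf16k30 : CfgOK (rf16c30.e, rf16c30.n) := red_ln rf16h2.2.1 ⟨rf16h2.2.1.1, rf16h19.2.2.2.2.2.2.2.2.1.1⟩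
theorem rf16k31 : CfgOK (rf16c31.e, rf16c31.n) := red_ln rf16h2.1 ⟨rf16h2.1.1, rf16h19.2.2.2.2.2.2.2.1.1⟩
theorem rf16k32 : CfgOK (rf16c32.e, rf16c32.n) := red_ln rf16h28.2.1 ⟨rf16h28.2.1.1, rf16h19.2.2.2.2.2.2.1.1⟩
theorem rf16k33 : CfgOK (rf16c33.e, rf16c33.n) := red_ln rf16h28.1 ⟨rf16h28.1.1, rf16h19.2.2.2.2.2.1.1⟩
theorem rf16k34 : CfgOK (rf16c34.e, rf16c34.n) := red_ln rf16h27.2.1 ⟨rf16h27.2.1.1, rf16h19.2.2.2.2.1.1⟩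
theorem rf16k35 : CfgOK (rf16c35.e, rf16c35.n) := red_ln rf16h27.1 ⟨rf16h27.1.1, rf16h19.2.2.2.1.1⟩
theorem rf16k36 : CfgOK (rf16c36.e, rf16c36.n) := red_ln rf16h26.2.1 ⟨rf16h26.2.1.1, rf16h19.2.2.1.1⟩
theorem rf16k37 : CfgOK (rf16c37.e, rf16c37.n) := red_ln rf16h26.1 ⟨rf16h26.1.1, rf16h19.2.1.1⟩
theorem rf16k38 : CfgOK (rf16c38.e, rf16c38.n) := red_ln rf16h25.2.1 ⟨rf16h25.2.1.1, rf16h19.1.1⟩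
theorem rf16k39 : CfgOK (rf16c39.e, rf16c39.n) := red_ln rf16h25.1 rf16h25.1.1
theorem rf16k40 : CfgOK (rf16c40.e, rf16c40.n) := red_ln rf16h24.2.1 rf16h24.2.1.1
theorem rf16k41 : CfgOK (rf16c41.e, rf16c41.n) := red_ln rf16h24.1 rf16h24.1.1
theorem rf16k42 : CfgOK (rf16c42.e, rf16c42.n) := red_ln rf16h23.2.1 rf16h23.2.1.1
theorem rf16k43 : CfgOK (rf16c43.e, rf16c43.n) := red_ln rf16h23.1 rf16h23.1.1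
theorem rf16k44 : CfgOK (rf16c44.e, rf16c44.n) := red_ln rf16h22.2.1 rf16h22.2.1.1
theorem rf16k45 : CfgOK (rf16c45.e, rf16c45.n) := red_ln rf16h22.1 rf16h22.1.1
theorem rf16k46 : CfgOK (rf16c46.e, rf16c46.n) := red_ln rf16h12.2.1 rf16h12.2.1.1
theorem rf16k47 : CfgOK (rf16c47.e, rf16c47.n) := red_ln rf16h12.1 rf16h12.1.1
theorem rf16k48 : CfgOK (rf16c48.e, rf16c48.n) := red_ln rf16h1.2.1 rf16h1.2.1.1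
theorem rf16k49 : CfgOK (rf16c49.e, rf16c49.n) := red_ln rf16h1.1 rf16h1.1.1
theorem rf16k50 : CfgOK (rf16c50.e, rf16c50.n) := red_ln rf16h0.2.1 rf16h0.2.1.1
theorem rf16k51 : CfgOK (rf16c51.e, rf16c51.n) := red_ln rf16h0.1 rf16h0.1.1
theorem rf17k0 : CfgOK (rf17c0.e, rf17c0.n) := red_ln rf17h15.1 rf17h15.1.1
theorem rf17k1 : CfgOK (rf17c1.e, rf17c1.n) := red_ln rf17h14.2.1 ⟨rf17h14.2.1.1, rf17h16.2.2.2.2.2.2.2.2.1.1⟩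
theorem rf17k2 : CfgOK (rf17c2.e, rf17c2.n) := red_ln rf17h14.1 ⟨rf17h14.1.1, rf17h16.2.2.2.2.2.2.2.1.1⟩
theorem rf17k3 : CfgOK (rf17c3.e, rf17c3.n) := red_ln rf17h13.2.1 ⟨rf17h13.2.1.1, rf17h17.1.1⟩
theorem rf17k4 : CfgOK (rf17c4.e, rf17c4.n) := red_ln rf17h13.1 ⟨rf17h13.1.1, rf17h18.1.1⟩
theorem rf17k5 : CfgOK (rf17c5.e, rf17c5.n) := red_ln rf17h11.2.1 rf17h11.2.1.1
theorem rf17k6 : CfgOK (rf17c6.e, rf17c6.n) := red_ln rf17h11.1 rf17h11.1.1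
theorem rf17k7 : CfgOK (rf17c7.e, rf17c7.n) := red_ln rf17h10.2.1 ⟨rf17h10.2.1.1, rf17h16.2.2.2.2.2.2.1.1⟩
theorem rf17k8 : CfgOK (rf17c8.e, rf17c8.n) := red_ln rf17h10.1 rf17h10.1.1
theorem rf17k9 : CfgOK (rf17c9.e, rf17c9.n) := red_ln rf17h9.2.1 ⟨rf17h9.2.1.1, rf17h16.2.2.2.2.2.1.1⟩
theorem rf17k10 : CfgOK (rf17c10.e, rf17c10.n) := red_ln rf17h9.1 ⟨rf17h9.1.1, rf17h17.2.2.1.1⟩
theorem rf17k11 : CfgOK (rf17c11.e, rf17c11.n) := red_ln rf17h8.2.1 ⟨rf17h8.2.1.1, rf17h19.1.1⟩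
theorem rf17k12 : CfgOK (rf17c12.e, rf17c12.n) := red_ln rf17h8.1 ⟨⟨rf17h8.1.1, rf17h17.2.1.1⟩, ⟨rf17h18.2.2.1.1, rf17h20.1.1⟩⟩
theorem rf17k13 : CfgOK (rf17c13.e, rf17c13.n) := red_ln rf17h7.1 rf17h7.1.1
theorem rf17k14 : CfgOK (rf17c14.e, rf17c14.n) := red_ln rf17h6.1 rf17h6.1.1
theorem rf17k15 : CfgOK (rf17c15.e, rf17c15.n) := red_ln rf17h5.1 rf17h5.1.1
theorem rf17k16 : CfgOK (rf17c16.e, rf17c16.n) := red_ln rf17h4.1 rf17h4.1.1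
theorem rf17k17 : CfgOK (rf17c17.e, rf17c17.n) := red_ln rf17h3.1 rf17h3.1.1
theorem rf17k18 : CfgOK (rf17c18.e, rf17c18.n) := red_ln rf17h2.1 ⟨rf17h2.1.1, rf17h16.2.2.2.2.1.1⟩
theorem rf17k19 : CfgOK (rf17c19.e, rf17c19.n) := red_ln rf17h27.1 ⟨rf17h27.1.1, rf17h18.2.1.1⟩
theorem rf17k20 : CfgOK (rf17c20.e, rf17c20.n) := red_ln rf17h26.1 rf17h26.1.1
theorem rf17k21 : CfgOK (rf17c21.e, rf17c21.n) := red_ln rf17h25.1 rf17h25.1.1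
theorem rf17k22 : CfgOK (rf17c22.e, rf17c22.n) := red_ln rf17h24.1 rf17h24.1.1
theorem rf17k23 : CfgOK (rf17c23.e, rf17c23.n) := red_ln rf17h23.1 ⟨rf17h23.1.1, rf17h16.2.2.2.1.1⟩
theorem rf17k24 : CfgOK (rf17c24.e, rf17c24.n) := red_ln rf17h22.1 ⟨rf17h22.1.1, rf17h16.2.2.1.1⟩
theorem rf17k25 : CfgOK (rf17c25.e, rf17c25.n) := red_ln rf17h21.1 ⟨rf17h21.1.1, rf17h16.2.1.1⟩
theorem rf17k26 : CfgOK (rf17c26.e, rf17c26.n) := red_ln rf17h12.1 ⟨rf17h12.1.1, rf17h16.1.1⟩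
theorem rf17k27 : CfgOK (rf17c27.e, rf17c27.n) := red_ln rf17h1.1 rf17h1.1.1
theorem rf17k28 : CfgOK (rf17c28.e, rf17c28.n) := red_ln rf17h0.1 rf17h0.1.1
theorem rf18k0 : CfgOK (rf18c0.e, rf18c0.n) := red_ln rf18h6.1 ⟨rf18h6.1.1, rf18h7.2.2.2.2.2.1.1⟩
theorem rf18k1 : CfgOK (rf18c1.e, rf18c1.n) := red_ln rf18h5.1 ⟨⟨rf18h5.1.1, rf18h8.2.2.1.1⟩, ⟨rf18h11.1.1, rf18h12.1.1⟩⟩
theorem rf18k2 : CfgOK (rf18c2.e, rf18c2.n) := red_ln rf18h4.1 rf18h4.1.1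
theorem rf18k3 : CfgOK (rf18c3.e, rf18c3.n) := red_ln rf18h3.1 ⟨rf18h3.1.1, rf18h7.2.2.2.2.1.1⟩
theorem rf18k4 : CfgOK (rf18c4.e, rf18c4.n) := red_ln rf18h2.1 ⟨rf18h2.1.1, rf18h7.2.2.2.1.1⟩
theorem rf18k5 : CfgOK (rf18c5.e, rf18c5.n) := red_ln rf18h1.1 ⟨rf18h1.1.1, rf18h8.1.1⟩
theorem rf18k6 : CfgOK (rf18c6.e, rf18c6.n) := red_ln rf18h0.1 ⟨rf18h0.1.1, rf18h7.2.2.1.1⟩
theorem rf18k7 : CfgOK (rf18c7.e, rf18c7.n) := red_ln rf18h22.1 ⟨rf18h22.1.1, rf18h7.2.1.1⟩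
theorem rf18k8 : CfgOK (rf18c8.e, rf18c8.n) := red_ln rf18h21.1 ⟨rf18h21.1.1, rf18h8.2.2.2.2.1.1⟩
theorem rf18k9 : CfgOK (rf18c9.e, rf18c9.n) := red_ln rf18h20.1 ⟨rf18h20.1.1, rf18h8.2.1.1⟩
theorem rf18k10 : CfgOK (rf18c10.e, rf18c10.n) := red_ln rf18h19.1 ⟨⟨rf18h19.1.1, rf18h7.1.1⟩, ⟨rf18h8.2.2.2.1.1, rf18h13.1.1⟩⟩
theorem rf18k11 : CfgOK (rf18c11.e, rf18c11.n) := red_ln rf18h18.1 rf18h18.1.1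
theorem rf18k12 : CfgOK (rf18c12.e, rf18c12.n) := red_ln rf18h16.2.2.2.2.1 ⟨rf18h16.2.2.2.2.1.1, rf18h9.2.2.1.1⟩
theorem rf18k13 : CfgOK (rf18c13.e, rf18c13.n) := red_ln rf18h16.2.2.2.1 ⟨rf18h16.2.2.2.1.1, rf18h11.2.2.1.1⟩
theorem rf18k14 : CfgOK (rf18c14.e, rf18c14.n) := red_ln rf18h16.2.2.1 ⟨rf18h16.2.2.1.1, rf18h11.2.1.1⟩
theorem rf18k15 : CfgOK (rf18c15.e, rf18c15.n) := red_ln rf18h16.2.1 ⟨⟨rf18h16.2.1.1, rf18h9.1.1⟩, ⟨rf18h10.1.1, rf18h12.2.1.1⟩⟩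
theorem rf18k16 : CfgOK (rf18c16.e, rf18c16.n) := red_ln rf18h16.1 ⟨rf18h16.1.1, rf18h8.2.2.2.2.2.2.2.1.1⟩
theorem rf18k17 : CfgOK (rf18c17.e, rf18c17.n) := red_ln rf18h15.2.2.2.2.2.1 ⟨rf18h15.2.2.2.2.2.1.1, rf18h8.2.2.2.2.2.2.1.1⟩
theorem rf18k18 : CfgOK (rf18c18.e, rf18c18.n) := red_ln rf18h15.2.2.2.2.1 ⟨⟨rf18h15.2.2.2.2.1.1, rf18h8.2.2.2.2.2.1.1⟩, ⟨rf18h9.2.2.2.2.2.2.2.2.1.1, rf18h17.1.1⟩⟩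
theorem rf18k19 : CfgOK (rf18c19.e, rf18c19.n) := red_ln rf18h15.2.2.2.1 ⟨⟨rf18h15.2.2.2.1.1, rf18h9.2.2.2.2.2.2.2.1.1⟩, ⟨rf18h11.2.2.2.2.2.2.2.1.1, rf18h12.2.2.2.2.1.1⟩⟩
theorem rf18k20 : CfgOK (rf18c20.e, rf18c20.n) := red_ln rf18h15.2.2.1 ⟨⟨rf18h15.2.2.1.1, rf18h9.2.2.2.2.2.2.1.1⟩, ⟨rf18h11.2.2.2.2.2.2.1.1, rf18h17.2.1.1⟩⟩
theorem rf18k21 : CfgOK (rf18c21.e, rf18c21.n) := red_ln rf18h15.2.1 ⟨⟨rf18h15.2.1.1, rf18h11.2.2.2.2.2.1.1⟩, ⟨rf18h9.2.2.2.2.2.1.1, rf18h12.2.2.2.1.1⟩⟩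
theorem rf18k22 : CfgOK (rf18c22.e, rf18c22.n) := red_ln rf18h15.1 ⟨⟨rf18h15.1.1, rf18h11.2.2.2.2.1.1⟩, ⟨rf18h11.2.2.2.1.1, rf18h12.2.2.1.1⟩⟩
theorem rf18k23 : CfgOK (rf18c23.e, rf18c23.n) := red_ln rf18h14.2.2.2.2.2.1 ⟨rf18h14.2.2.2.2.2.1.1, rf18h9.2.2.2.2.1.1⟩
theorem rf18k24 : CfgOK (rf18c24.e, rf18c24.n) := red_ln rf18h14.2.2.2.2.1 ⟨rf18h14.2.2.2.2.1.1, rf18h9.2.2.2.1.1⟩
theorem rf18k25 : CfgOK (rf18c25.e, rf18c25.n) := red_ln rf18h14.2.2.2.1 ⟨rf18h14.2.2.2.1.1, rf18h9.2.1.1⟩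
theorem rf18k26 : CfgOK (rf18c26.e, rf18c26.n) := red_ln rf18h14.2.2.1 rf18h14.2.2.1.1
theorem rf18k27 : CfgOK (rf18c27.e, rf18c27.n) := red_ln rf18h14.2.1 rf18h14.2.1.1
theorem rf18k28 : CfgOK (rf18c28.e, rf18c28.n) := red_ln rf18h14.1 rf18h14.1.1
theorem rf19k0 : CfgOK (rf19c0.e, rf19c0.n) := red_ln rf19h17.2.2.1 rf19h17.2.2.1.1
theorem rf19k1 : CfgOK (rf19c1.e, rf19c1.n) := red_ln rf19h17.2.1 rf19h17.2.1.1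
theorem rf19k2 : CfgOK (rf19c2.e, rf19c2.n) := red_ln rf19h17.1 rf19h17.1.1
theorem rf19k3 : CfgOK (rf19c3.e, rf19c3.n) := red_ln rf19h16.2.2.2.2.2.1 rf19h16.2.2.2.2.2.1.1
theorem rf19k4 : CfgOK (rf19c4.e, rf19c4.n) := red_ln rf19h16.2.2.2.2.1 rf19h16.2.2.2.2.1.1
theorem rf19k5 : CfgOK (rf19c5.e, rf19c5.n) := red_ln rf19h16.2.2.2.1 rf19h16.2.2.2.1.1
theorem rf19k6 : CfgOK (rf19c6.e, rf19c6.n) := red_ln rf19h16.2.2.1 rf19h16.2.2.1.1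
theorem rf19k7 : CfgOK (rf19c7.e, rf19c7.n) := red_ln rf19h16.2.1 rf19h16.2.1.1
theorem rf19k8 : CfgOK (rf19c8.e, rf19c8.n) := red_ln rf19h16.1 rf19h16.1.1
theorem rf19k9 : CfgOK (rf19c9.e, rf19c9.n) := red_ln rf19h15.2.2.2.2.2.1 ⟨rf19h15.2.2.2.2.2.1.1, rf19h18.2.2.2.2.2.2.2.2.2.2.2.2.2.2.2.1.1⟩
theorem rf19k10 : CfgOK (rf19c10.e, rf19c10.n) := red_ln rf19h15.2.2.2.2.1 ⟨rf19h15.2.2.2.2.1.1, rf19h20.1.1⟩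
theorem rf19k11 : CfgOK (rf19c11.e, rf19c11.n) := red_ln rf19h15.2.2.2.1 ⟨rf19h15.2.2.2.1.1, rf19h22.1.1⟩
theorem rf19k12 : CfgOK (rf19c12.e, rf19c12.n) := red_ln rf19h15.2.2.1 ⟨⟨rf19h15.2.2.1.1, rf19h21.2.2.2.2.2.2.2.2.2.2.2.2.2.2.1.1⟩, ⟨rf19h21.2.2.2.2.2.2.2.2.2.2.2.2.2.1.1, rf19h24.2.2.1.1⟩⟩
theorem rf19k13 : CfgOK (rf19c13.e, rf19c13.n) := red_ln rf19h15.2.1 ⟨rf19h15.2.1.1, rf19h19.2.2.2.2.2.2.2.2.2.2.2.2.2.2.1.1⟩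
theorem rf19k14 : CfgOK (rf19c14.e, rf19c14.n) := red_ln rf19h15.1 ⟨rf19h15.1.1, rf19h21.2.2.2.2.2.2.2.2.2.2.2.1.1⟩
theorem rf19k15 : CfgOK (rf19c15.e, rf19c15.n) := red_ln rf19h14.2.2.2.2.1 ⟨rf19h14.2.2.2.2.1.1, rf19h21.2.2.2.2.2.2.2.2.2.2.1.1⟩
theorem rf19k16 : CfgOK (rf19c16.e, rf19c16.n) := red_ln rf19h14.2.2.2.1 ⟨⟨rf19h14.2.2.2.1.1, rf19h19.2.2.2.2.2.2.2.2.2.2.2.2.2.1.1⟩, ⟨rf19h19.2.2.2.2.2.2.2.2.2.2.2.2.1.1, rf19h24.2.1.1⟩⟩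
theorem rf19k17 : CfgOK (rf19c17.e, rf19c17.n) := red_ln rf19h14.2.2.1 ⟨⟨rf19h14.2.2.1.1, rf19h21.2.2.2.2.2.2.2.2.2.1.1⟩, ⟨rf19h19.2.2.2.2.2.2.2.2.2.2.2.1.1, rf19h25.2.1.1⟩⟩
theorem rf19k18 : CfgOK (rf19c18.e, rf19c18.n) := red_ln rf19h14.2.1 ⟨rf19h14.2.1.1, rf19h19.2.2.2.2.2.2.2.2.2.2.1.1⟩
theorem rf19k19 : CfgOK (rf19c19.e, rf19c19.n) := red_ln rf19h14.1 rf19h14.1.1
theorem rf19k20 : CfgOK (rf19c20.e, rf19c20.n) := red_ln rf19h13.2.2.2.2.1 rf19h13.2.2.2.2.1.1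
theorem rf19k21 : CfgOK (rf19c21.e, rf19c21.n) := red_ln rf19h13.2.2.2.1 rf19h13.2.2.2.1.1
theorem rf19k22 : CfgOK (rf19c22.e, rf19c22.n) := red_ln rf19h13.2.2.1 rf19h13.2.2.1.1
theorem rf19k23 : CfgOK (rf19c23.e, rf19c23.n) := red_ln rf19h13.2.1 rf19h13.2.1.1
theorem rf19k24 : CfgOK (rf19c24.e, rf19c24.n) := red_ln rf19h13.1 rf19h13.1.1
theorem rf19k25 : CfgOK (rf19c25.e, rf19c25.n) := red_ln rf19h11.2.2.2.2.1 rf19h11.2.2.2.2.1.1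
theorem rf19k26 : CfgOK (rf19c26.e, rf19c26.n) := red_ln rf19h11.2.2.2.1 rf19h11.2.2.2.1.1
theorem rf19k27 : CfgOK (rf19c27.e, rf19c27.n) := red_ln rf19h11.2.2.1 rf19h11.2.2.1.1
theorem rf19k28 : CfgOK (rf19c28.e, rf19c28.n) := red_ln rf19h11.2.1 rf19h11.2.1.1
theorem rf19k29 : CfgOK (rf19c29.e, rf19c29.n) := red_ln rf19h11.1 rf19h11.1.1
theorem rf19k30 : CfgOK (rf19c30.e, rf19c30.n) := red_ln rf19h10.2.2.2.2.1 rf19h10.2.2.2.2.1.1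
theorem rf19k31 : CfgOK (rf19c31.e, rf19c31.n) := red_ln rf19h10.2.2.2.1 rf19h10.2.2.2.1.1
theorem rf19k32 : CfgOK (rf19c32.e, rf19c32.n) := red_ln rf19h10.2.2.1 rf19h10.2.2.1.1
theorem rf19k33 : CfgOK (rf19c33.e, rf19c33.n) := red_ln rf19h10.2.1 rf19h10.2.1.1
theorem rf19k34 : CfgOK (rf19c34.e, rf19c34.n) := red_ln rf19h10.1 rf19h10.1.1
theorem rf19k35 : CfgOK (rf19c35.e, rf19c35.n) := red_ln rf19h9.2.2.2.2.1 rf19h9.2.2.2.2.1.1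
theorem rf19k36 : CfgOK (rf19c36.e, rf19c36.n) := red_ln rf19h9.2.2.2.1 rf19h9.2.2.2.1.1
theorem rf19k37 : CfgOK (rf19c37.e, rf19c37.n) := red_ln rf19h9.2.2.1 rf19h9.2.2.1.1
theorem rf19k38 : CfgOK (rf19c38.e, rf19c38.n) := red_ln rf19h9.2.1 rf19h9.2.1.1
theorem rf19k39 : CfgOK (rf19c39.e, rf19c39.n) := red_ln rf19h9.1 rf19h9.1.1
theorem rf19k40 : CfgOK (rf19c40.e, rf19c40.n) := red_ln rf19h8.2.2.2.2.1 rf19h8.2.2.2.2.1.1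
theorem rf19k41 : CfgOK (rf19c41.e, rf19c41.n) := red_ln rf19h8.2.2.2.1 rf19h8.2.2.2.1.1
theorem rf19k42 : CfgOK (rf19c42.e, rf19c42.n) := red_ln rf19h8.2.2.1 rf19h8.2.2.1.1
theorem rf19k43 : CfgOK (rf19c43.e, rf19c43.n) := red_ln rf19h8.2.1 rf19h8.2.1.1
theorem rf19k44 : CfgOK (rf19c44.e, rf19c44.n) := red_ln rf19h8.1 rf19h8.1.1
theorem rf19k45 : CfgOK (rf19c45.e, rf19c45.n) := red_ln rf19h7.2.2.2.2.1 rf19h7.2.2.2.2.1.1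
theorem rf19k46 : CfgOK (rf19c46.e, rf19c46.n) := red_ln rf19h7.2.2.2.1 rf19h7.2.2.2.1.1
theorem rf19k47 : CfgOK (rf19c47.e, rf19c47.n) := red_ln rf19h7.2.2.1 rf19h7.2.2.1.1
theorem rf19k48 : CfgOK (rf19c48.e, rf19c48.n) := red_ln rf19h7.2.1 rf19h7.2.1.1
theorem rf19k49 : CfgOK (rf19c49.e, rf19c49.n) := red_ln rf19h7.1 rf19h7.1.1
theorem rf19k50 : CfgOK (rf19c50.e, rf19c50.n) := red_ln rf19h6.2.2.2.2.1 rf19h6.2.2.2.2.1.1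
theorem rf19k51 : CfgOK (rf19c51.e, rf19c51.n) := red_ln rf19h6.2.2.2.1 rf19h6.2.2.2.1.1
theorem rf19k52 : CfgOK (rf19c52.e, rf19c52.n) := red_ln rf19h6.2.2.1 rf19h6.2.2.1.1
theorem rf19k53 : CfgOK (rf19c53.e, rf19c53.n) := red_ln rf19h6.2.1 rf19h6.2.1.1
theorem rf19k54 : CfgOK (rf19c54.e, rf19c54.n) := red_ln rf19h6.1 rf19h6.1.1
theorem rf19k55 : CfgOK (rf19c55.e, rf19c55.n) := red_ln rf19h5.2.2.2.2.1 rf19h5.2.2.2.2.1.1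
theorem rf19k56 : CfgOK (rf19c56.e, rf19c56.n) := red_ln rf19h5.2.2.2.1 rf19h5.2.2.2.1.1
theorem rf19k57 : CfgOK (rf19c57.e, rf19c57.n) := red_ln rf19h5.2.2.1 rf19h5.2.2.1.1
theorem rf19k58 : CfgOK (rf19c58.e, rf19c58.n) := red_ln rf19h5.2.1 rf19h5.2.1.1
theorem rf19k59 : CfgOK (rf19c59.e, rf19c59.n) := red_ln rf19h5.1 rf19h5.1.1
theorem rf19k60 : CfgOK (rf19c60.e, rf19c60.n) := red_ln rf19h4.2.2.2.2.1 rf19h4.2.2.2.2.1.1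
theorem rf19k61 : CfgOK (rf19c61.e, rf19c61.n) := red_ln rf19h4.2.2.2.1 rf19h4.2.2.2.1.1
theorem rf19k62 : CfgOK (rf19c62.e, rf19c62.n) := red_ln rf19h4.2.2.1 rf19h4.2.2.1.1
theorem rf19k63 : CfgOK (rf19c63.e, rf19c63.n) := red_ln rf19h4.2.1 rf19h4.2.1.1
theorem rf19k64 : CfgOK (rf19c64.e, rf19c64.n) := red_ln rf19h4.1 rf19h4.1.1
theorem rf19k65 : CfgOK (rf19c65.e, rf19c65.n) := red_ln rf19h3.2.2.2.2.1 ⟨rf19h3.2.2.2.2.1.1, rf19h18.2.2.2.2.2.2.2.2.2.2.2.2.2.2.1.1⟩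
theorem rf19k66 : CfgOK (rf19c66.e, rf19c66.n) := red_ln rf19h3.2.2.2.1 ⟨rf19h3.2.2.2.1.1, rf19h18.2.2.2.2.2.2.2.2.2.2.2.2.2.1.1⟩
theorem rf19k67 : CfgOK (rf19c67.e, rf19c67.n) := red_ln rf19h3.2.2.1 ⟨rf19h3.2.2.1.1, rf19h18.2.2.2.2.2.2.2.2.2.2.2.2.1.1⟩
theorem rf19k68 : CfgOK (rf19c68.e, rf19c68.n) := red_ln rf19h3.2.1 ⟨rf19h3.2.1.1, rf19h18.2.2.2.2.2.2.2.2.2.2.2.1.1⟩
theorem rf19k69 : CfgOK (rf19c69.e, rf19c69.n) := red_ln rf19h3.1 ⟨rf19h3.1.1, rf19h18.2.2.2.2.2.2.2.2.2.2.1.1⟩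
theorem rf19k70 : CfgOK (rf19c70.e, rf19c70.n) := red_ln rf19h2.2.2.2.2.1 ⟨rf19h2.2.2.2.2.1.1, rf19h18.2.2.2.2.2.2.2.2.2.1.1⟩
theorem rf19k71 : CfgOK (rf19c71.e, rf19c71.n) := red_ln rf19h2.2.2.2.1 ⟨rf19h2.2.2.2.1.1, rf19h18.2.2.2.2.2.2.2.2.1.1⟩
theorem rf19k72 : CfgOK (rf19c72.e, rf19c72.n) := red_ln rf19h2.2.2.1 ⟨rf19h2.2.2.1.1, rf19h18.2.2.2.2.2.2.2.1.1⟩
theorem rf19k73 : CfgOK (rf19c73.e, rf19c73.n) := red_ln rf19h2.2.1 ⟨rf19h2.2.1.1, rf19h18.2.2.2.2.2.2.1.1⟩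
theorem rf19k74 : CfgOK (rf19c74.e, rf19c74.n) := red_ln rf19h2.1 ⟨rf19h2.1.1, rf19h18.2.2.2.2.2.1.1⟩
theorem rf19k75 : CfgOK (rf19c75.e, rf19c75.n) := red_ln rf19h32.2.2.2.2.1 ⟨rf19h32.2.2.2.2.1.1, rf19h18.2.2.2.2.1.1⟩
theorem rf19k76 : CfgOK (rf19c76.e, rf19c76.n) := red_ln rf19h32.2.2.2.1 ⟨rf19h32.2.2.2.1.1, rf19h18.2.2.2.1.1⟩
theorem rf19k77 : CfgOK (rf19c77.e, rf19c77.n) := red_ln rf19h32.2.2.1 ⟨rf19h32.2.2.1.1, rf19h18.2.2.1.1⟩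
theorem rf19k78 : CfgOK (rf19c78.e, rf19c78.n) := red_ln rf19h32.2.1 ⟨⟨rf19h32.2.1.1, rf19h18.2.1.1⟩, ⟨rf19h19.2.2.2.2.2.2.1.1, rf19h26.2.1.1⟩⟩
theorem rf19k79 : CfgOK (rf19c79.e, rf19c79.n) := red_ln rf19h32.1 ⟨⟨rf19h32.1.1, rf19h21.2.2.2.2.2.2.2.2.2.2.2.2.1.1⟩, ⟨rf19h18.1.1, rf19h26.1.1⟩⟩
theorem rf19k80 : CfgOK (rf19c80.e, rf19c80.n) := red_ln rf19h31.2.2.2.2.1 ⟨rf19h31.2.2.2.2.1.1, rf19h21.2.2.2.2.2.2.2.2.1.1⟩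
theorem rf19k81 : CfgOK (rf19c81.e, rf19c81.n) := red_ln rf19h31.2.2.2.1 ⟨rf19h31.2.2.2.1.1, rf19h21.2.2.2.2.2.2.2.1.1⟩
theorem rf19k82 : CfgOK (rf19c82.e, rf19c82.n) := red_ln rf19h31.2.2.1 ⟨rf19h31.2.2.1.1, rf19h19.2.2.2.2.2.2.2.2.2.1.1⟩
theorem rf19k83 : CfgOK (rf19c83.e, rf19c83.n) := red_ln rf19h31.2.1 ⟨rf19h31.2.1.1, rf19h21.2.2.2.2.2.2.1.1⟩
theorem rf19k84 : CfgOK (rf19c84.e, rf19c84.n) := red_ln rf19h31.1 ⟨rf19h31.1.1, rf19h21.2.2.2.2.2.1.1⟩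
theorem rf19k85 : CfgOK (rf19c85.e, rf19c85.n) := red_ln rf19h30.2.2.2.2.1 ⟨rf19h30.2.2.2.2.1.1, rf19h19.2.2.2.2.2.2.2.2.1.1⟩
theorem rf19k86 : CfgOK (rf19c86.e, rf19c86.n) := red_ln rf19h30.2.2.2.1 ⟨⟨rf19h30.2.2.2.1.1, rf19h21.2.2.2.2.1.1⟩, ⟨rf19h21.2.2.2.1.1, rf19h25.1.1⟩⟩
theorem rf19k87 : CfgOK (rf19c87.e, rf19c87.n) := red_ln rf19h30.2.2.1 ⟨⟨rf19h30.2.2.1.1, rf19h19.2.2.2.2.2.2.2.1.1⟩, ⟨rf19h21.2.2.1.1, rf19h24.1.1⟩⟩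
theorem rf19k88 : CfgOK (rf19c88.e, rf19c88.n) := red_ln rf19h30.2.1 ⟨rf19h30.2.1.1, rf19h19.2.2.2.2.2.1.1⟩
theorem rf19k89 : CfgOK (rf19c89.e, rf19c89.n) := red_ln rf19h30.1 ⟨rf19h30.1.1, rf19h21.2.1.1⟩
theorem rf19k90 : CfgOK (rf19c90.e, rf19c90.n) := red_ln rf19h29.2.2.2.2.1 ⟨rf19h29.2.2.2.2.1.1, rf19h19.2.2.2.2.1.1⟩
theorem rf19k91 : CfgOK (rf19c91.e, rf19c91.n) := red_ln rf19h29.2.2.2.1 ⟨rf19h29.2.2.2.1.1, rf19h19.2.2.2.1.1⟩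
theorem rf19k92 : CfgOK (rf19c92.e, rf19c92.n) := red_ln rf19h29.2.2.1 ⟨rf19h29.2.2.1.1, rf19h21.1.1⟩
theorem rf19k93 : CfgOK (rf19c93.e, rf19c93.n) := red_ln rf19h29.2.1 ⟨rf19h29.2.1.1, rf19h19.2.2.1.1⟩
theorem rf19k94 : CfgOK (rf19c94.e, rf19c94.n) := red_ln rf19h29.1 ⟨rf19h29.1.1, rf19h19.2.1.1⟩
theorem rf19k95 : CfgOK (rf19c95.e, rf19c95.n) := red_ln rf19h28.2.2.1 ⟨rf19h28.2.2.1.1, rf19h19.1.1⟩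
theorem rf19k96 : CfgOK (rf19c96.e, rf19c96.n) := red_ln rf19h28.2.1 rf19h28.2.1.1
theorem rf19k97 : CfgOK (rf19c97.e, rf19c97.n) := red_ln rf19h28.1 rf19h28.1.1
theorem rf19k98 : CfgOK (rf19c98.e, rf19c98.n) := red_ln rf19h27.2.2.1 rf19h27.2.2.1.1
theorem rf19k99 : CfgOK (rf19c99.e, rf19c99.n) := red_ln rf19h27.2.1 rf19h27.2.1.1
theorem rf19k100 : CfgOK (rf19c100.e, rf19c100.n) := red_ln rf19h27.1 rf19h27.1.1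
theorem rf19k101 : CfgOK (rf19c101.e, rf19c101.n) := red_ln rf19h23.2.2.1 rf19h23.2.2.1.1
theorem rf19k102 : CfgOK (rf19c102.e, rf19c102.n) := red_ln rf19h23.2.1 rf19h23.2.1.1
theorem rf19k103 : CfgOK (rf19c103.e, rf19c103.n) := red_ln rf19h23.1 rf19h23.1.1
theorem rf19k104 : CfgOK (rf19c104.e, rf19c104.n) := red_ln rf19h12.2.2.1 rf19h12.2.2.1.1
theorem rf19k105 : CfgOK (rf19c105.e, rf19c105.n) := red_ln rf19h12.2.1 rf19h12.2.1.1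
theorem rf19k106 : CfgOK (rf19c106.e, rf19c106.n) := red_ln rf19h12.1 rf19h12.1.1
theorem rf19k107 : CfgOK (rf19c107.e, rf19c107.n) := red_ln rf19h1.2.2.1 rf19h1.2.2.1.1
theorem rf19k108 : CfgOK (rf19c108.e, rf19c108.n) := red_ln rf19h1.2.1 rf19h1.2.1.1
theorem rf19k109 : CfgOK (rf19c109.e, rf19c109.n) := red_ln rf19h1.1 rf19h1.1.1
theorem rf19k110 : CfgOK (rf19c110.e, rf19c110.n) := red_ln rf19h0.2.2.1 rf19h0.2.2.1.1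
theorem rf19k111 : CfgOK (rf19c111.e, rf19c111.n) := red_ln rf19h0.2.1 rf19h0.2.1.1
theorem rf19k112 : CfgOK (rf19c112.e, rf19c112.n) := red_ln rf19h0.1 rf19h0.1.1

end Pool.Agent.Lib.G6.B
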