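import Pool.Agent.Lib.G6.BRed
import Pool.Agent.Lib.G6D.RF20
import Pool.Agent.Lib.G6D.RF21
import Pool.Agent.Lib.G6D.RF22
import Pool.Agent.Lib.G6D.RF23

set_option autoImplicit false
set_option maxRecDepth 100000
set_option linter.all false

namespace Pool.Agent.Lib.G6.B

theorem rf20h0 : AllL LnOK rf20l0 := batch_of rf20th.1
theorem rf20h1 : AllL LnOK rf20l1 := batch_of rf20th.2.1
theorem rf20h2 : AllL LnOK rf20l10 := batch_of rf20th.2.2.2.2.2.2.2.2.2.2.1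
theorem rf20h3 : AllL LnOK rf20l11 := batch_of rf20th.2.2.2.2.2.2.2.2.2.2.2.1
theorem rf20h4 : AllL LnOK rf20l12 := batch_of rf20th.2.2.2.2.2.2.2.2.2.2.2.2.1
theorem rf20h5 : AllL LnOK rf20l13 := batch_of rf20th.2.2.2.2.2.2.2.2.2.2.2.2.2.1
theorem rf20h6 : AllL LnOK rf20l14 := batch_of rf20th.2.2.2.2.2.2.2.2.2.2.2.2.2.2.1
theorem rf20h7 : AllL LnOK rf20l15 := batch_of rf20th.2.2.2.2.2.2.2.2.2.2.2.2.2.2.2.1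
theorem rf20h8 : AllL LnOK rf20l16 := batch_of rf20th.2.2.2.2.2.2.2.2.2.2.2.2.2.2.2.2.1
theorem rf20h9 : AllL LnOK rf20l17 := batch_of rf20th.2.2.2.2.2.2.2.2.2.2.2.2.2.2.2.2.2.1
theorem rf20h10 : AllL LnOK rf20l18 := batch_of rf20th.2.2.2.2.2.2.2.2.2.2.2.2.2.2.2.2.2.2.1
theorem rf20h11 : AllL LnOK rf20l19 := batch_of rf20th.2.2.2.2.2.2.2.2.2.2.2.2.2.2.2.2.2.2.2.1
theorem rf20h12 : AllL LnOK rf20l2 := batch_of rf20th.2.2.1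
theorem rf20h13 : AllL LnOK rf20l20 := batch_of rf20th.2.2.2.2.2.2.2.2.2.2.2.2.2.2.2.2.2.2.2.2.1
theorem rf20h14 : AllL LnOK rf20l21 := batch_of rf20th.2.2.2.2.2.2.2.2.2.2.2.2.2.2.2.2.2.2.2.2.2.1
theorem rf20h15 : AllL LnOK rf20l22 := batch_of rf20th.2.2.2.2.2.2.2.2.2.2.2.2.2.2.2.2.2.2.2.2.2.2.1
theorem rf20h16 : AllL LnOK rf20l23 := batch_of rf20th.2.2.2.2.2.2.2.2.2.2.2.2.2.2.2.2.2.2.2.2.2.2.2.1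
theorem rf20h17 : AllL LnOK rf20l24 := batch_of rf20th.2.2.2.2.2.2.2.2.2.2.2.2.2.2.2.2.2.2.2.2.2.2.2.2.1
theorem rf20h18 : AllL LnOK rf20l25 := batch_of rf20th.2.2.2.2.2.2.2.2.2.2.2.2.2.2.2.2.2.2.2.2.2.2.2.2.2.1
theorem rf20h19 : AllL LnOK rf20l26 := batch_of rf20th.2.2.2.2.2.2.2.2.2.2.2.2.2.2.2.2.2.2.2.2.2.2.2.2.2.2.1
theorem rf20h20 : AllL LnOK rf20l27 := batch_of rf20th.2.2.2.2.2.2.2.2.2.2.2.2.2.2.2.2.2.2.2.2.2.2.2.2.2.2.2.1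
theorem rf20h21 : AllL LnOK rf20l28 := batch_of rf20th.2.2.2.2.2.2.2.2.2.2.2.2.2.2.2.2.2.2.2.2.2.2.2.2.2.2.2.2.1
theorem rf20h22 : AllL LnOK rf20l29 := batch_of rf20th.2.2.2.2.2.2.2.2.2.2.2.2.2.2.2.2.2.2.2.2.2.2.2.2.2.2.2.2.2.1
theorem rf20h23 : AllL LnOK rf20l3 := batch_of rf20th.2.2.2.1
theorem rf20h24 : AllL LnOK rf20l30 := batch_of rf20th.2.2.2.2.2.2.2.2.2.2.2.2.2.2.2.2.2.2.2.2.2.2.2.2.2.2.2.2.2.2.1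
theorem rf20h25 : AllL LnOK rf20l31 := batch_of rf20th.2.2.2.2.2.2.2.2.2.2.2.2.2.2.2.2.2.2.2.2.2.2.2.2.2.2.2.2.2.2.2.1
theorem rf20h26 : AllL LnOK rf20l32 := batch_of rf20th.2.2.2.2.2.2.2.2.2.2.2.2.2.2.2.2.2.2.2.2.2.2.2.2.2.2.2.2.2.2.2.2.1
theorem rf20h27 : AllL LnOK rf20l33 := batch_of rf20th.2.2.2.2.2.2.2.2.2.2.2.2.2.2.2.2.2.2.2.2.2.2.2.2.2.2.2.2.2.2.2.2.2.1
theorem rf20h28 : AllL LnOK rf20l34 := batch_of rf20th.2.2.2.2.2.2.2.2.2.2.2.2.2.2.2.2.2.2.2.2.2.2.2.2.2.2.2.2.2.2.2.2.2.2.1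
theorem rf20h29 : AllL LnOK rf20l35 := batch_of rf20th.2.2.2.2.2.2.2.2.2.2.2.2.2.2.2.2.2.2.2.2.2.2.2.2.2.2.2.2.2.2.2.2.2.2.2
theorem rf20h30 : AllL LnOK rf20l4 := batch_of rf20th.2.2.2.2.1
theorem rf20h31 : AllL LnOK rf20l5 := batch_of rf20th.2.2.2.2.2.1
theorem rf20h32 : AllL LnOK rf20l6 := batch_of rf20th.2.2.2.2.2.2.1
theorem rf20h33 : AllL LnOK rf20l7 := batch_of rf20th.2.2.2.2.2.2.2.1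
theorem rf20h34 : AllL LnOK rf20l8 := batch_of rf20th.2.2.2.2.2.2.2.2.1
theorem rf20h35 : AllL LnOK rf20l9 := batch_of rf20th.2.2.2.2.2.2.2.2.2.1
theorem rf21h0 : AllL LnOK rf21l0 := batch_of rf21th.1
theorem rf21h1 : AllL LnOK rf21l1 := batch_of rf21th.2.1
theorem rf21h2 : AllL LnOK rf21l10 := batch_of rf21th.2.2.2.2.2.2.2.2.2.2.1
theorem rf21h3 : AllL LnOK rf21l11 := batch_of rf21th.2.2.2.2.2.2.2.2.2.2.2.1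
theorem rf21h4 : AllL LnOK rf21l12 := batch_of rf21th.2.2.2.2.2.2.2.2.2.2.2.2.1
theorem rf21h5 : AllL LnOK rf21l13 := batch_of rf21th.2.2.2.2.2.2.2.2.2.2.2.2.2.1
theorem rf21h6 : AllL LnOK rf21l14 := batch_of rf21th.2.2.2.2.2.2.2.2.2.2.2.2.2.2.1
theorem rf21h7 : AllL LnOK rf21l15 := batch_of rf21th.2.2.2.2.2.2.2.2.2.2.2.2.2.2.2.1
theorem rf21h8 : AllL LnOK rf21l16 := batch_of rf21th.2.2.2.2.2.2.2.2.2.2.2.2.2.2.2.2.1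
theorem rf21h9 : AllL LnOK rf21l17 := batch_of rf21th.2.2.2.2.2.2.2.2.2.2.2.2.2.2.2.2.2.1
theorem rf21h10 : AllL LnOK rf21l18 := batch_of rf21th.2.2.2.2.2.2.2.2.2.2.2.2.2.2.2.2.2.2.1
theorem rf21h11 : AllL LnOK rf21l19 := batch_of rf21th.2.2.2.2.2.2.2.2.2.2.2.2.2.2.2.2.2.2.2.1
theorem rf21h12 : AllL LnOK rf21l2 := batch_of rf21th.2.2.1
theorem rf21h13 : AllL LnOK rf21l20 := batch_of rf21th.2.2.2.2.2.2.2.2.2.2.2.2.2.2.2.2.2.2.2.2.1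
theorem rf21h14 : AllL LnOK rf21l21 := batch_of rf21th.2.2.2.2.2.2.2.2.2.2.2.2.2.2.2.2.2.2.2.2.2.1
theorem rf21h15 : AllL LnOK rf21l22 := batch_of rf21th.2.2.2.2.2.2.2.2.2.2.2.2.2.2.2.2.2.2.2.2.2.2.1
theorem rf21h16 : AllL LnOK rf21l23 := batch_of rf21th.2.2.2.2.2.2.2.2.2.2.2.2.2.2.2.2.2.2.2.2.2.2.2.1
theorem rf21h17 : AllL LnOK rf21l24 := batch_of rf21th.2.2.2.2.2.2.2.2.2.2.2.2.2.2.2.2.2.2.2.2.2.2.2.2.1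
theorem rf21h18 : AllL LnOK rf21l25 := batch_of rf21th.2.2.2.2.2.2.2.2.2.2.2.2.2.2.2.2.2.2.2.2.2.2.2.2.2.1
theorem rf21h19 : AllL LnOK rf21l26 := batch_of rf21th.2.2.2.2.2.2.2.2.2.2.2.2.2.2.2.2.2.2.2.2.2.2.2.2.2.2.1
theorem rf21h20 : AllL LnOK rf21l27 := batch_of rf21th.2.2.2.2.2.2.2.2.2.2.2.2.2.2.2.2.2.2.2.2.2.2.2.2.2.2.2.1
theorem rf21h21 : AllL LnOK rf21l28 := batch_of rf21th.2.2.2.2.2.2.2.2.2.2.2.2.2.2.2.2.2.2.2.2.2.2.2.2.2.2.2.2.1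
theorem rf21h22 : AllL LnOK rf21l29 := batch_of rf21th.2.2.2.2.2.2.2.2.2.2.2.2.2.2.2.2.2.2.2.2.2.2.2.2.2.2.2.2.2
theorem rf21h23 : AllL LnOK rf21l3 := batch_of rf21th.2.2.2.1
theorem rf21h24 : AllL LnOK rf21l4 := batch_of rf21th.2.2.2.2.1
theorem rf21h25 : AllL LnOK rf21l5 := batch_of rf21th.2.2.2.2.2.1
theorem rf21h26 : AllL LnOK rf21l6 := batch_of rf21th.2.2.2.2.2.2.1
theorem rf21h27 : AllL LnOK rf21l7 := batch_of rf21th.2.2.2.2.2.2.2.1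
theorem rf21h28 : AllL LnOK rf21l8 := batch_of rf21th.2.2.2.2.2.2.2.2.1
theorem rf21h29 : AllL LnOK rf21l9 := batch_of rf21th.2.2.2.2.2.2.2.2.2.1
theorem rf22h0 : AllL LnOK rf22l0 := batch_of rf22th.1
theorem rf22h1 : AllL LnOK rf22l1 := batch_of rf22th.2.1
theorem rf22h2 : AllL LnOK rf22l10 := batch_of rf22th.2.2.2.2.2.2.2.2.2.2.1
theorem rf22h3 : AllL LnOK rf22l11 := batch_of rf22th.2.2.2.2.2.2.2.2.2.2.2.1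
theorem rf22h4 : AllL LnOK rf22l12 := batch_of rf22th.2.2.2.2.2.2.2.2.2.2.2.2.1
theorem rf22h5 : AllL LnOK rf22l13 := batch_of rf22th.2.2.2.2.2.2.2.2.2.2.2.2.2.1
theorem rf22h6 : AllL LnOK rf22l14 := batch_of rf22th.2.2.2.2.2.2.2.2.2.2.2.2.2.2.1
theorem rf22h7 : AllL LnOK rf22l15 := batch_of rf22th.2.2.2.2.2.2.2.2.2.2.2.2.2.2.2.1
theorem rf22h8 : AllL LnOK rf22l16 := batch_of rf22th.2.2.2.2.2.2.2.2.2.2.2.2.2.2.2.2.1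
theorem rf22h9 : AllL LnOK rf22l17 := batch_of rf22th.2.2.2.2.2.2.2.2.2.2.2.2.2.2.2.2.2.1
theorem rf22h10 : AllL LnOK rf22l18 := batch_of rf22th.2.2.2.2.2.2.2.2.2.2.2.2.2.2.2.2.2.2.1
theorem rf22h11 : AllL LnOK rf22l19 := batch_of rf22th.2.2.2.2.2.2.2.2.2.2.2.2.2.2.2.2.2.2.2.1
theorem rf22h12 : AllL LnOK rf22l2 := batch_of rf22th.2.2.1
theorem rf22h13 : AllL LnOK rf22l20 := batch_of rf22th.2.2.2.2.2.2.2.2.2.2.2.2.2.2.2.2.2.2.2.2.1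
theorem rf22h14 : AllL LnOK rf22l21 := batch_of rf22th.2.2.2.2.2.2.2.2.2.2.2.2.2.2.2.2.2.2.2.2.2.1
theorem rf22h15 : AllL LnOK rf22l22 := batch_of rf22th.2.2.2.2.2.2.2.2.2.2.2.2.2.2.2.2.2.2.2.2.2.2.1
theorem rf22h16 : AllL LnOK rf22l23 := batch_of rf22th.2.2.2.2.2.2.2.2.2.2.2.2.2.2.2.2.2.2.2.2.2.2.2.1
theorem rf22h17 : AllL LnOK rf22l24 := batch_of rf22th.2.2.2.2.2.2.2.2.2.2.2.2.2.2.2.2.2.2.2.2.2.2.2.2.1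
theorem rf22h18 : AllL LnOK rf22l25 := batch_of rf22th.2.2.2.2.2.2.2.2.2.2.2.2.2.2.2.2.2.2.2.2.2.2.2.2.2.1
theorem rf22h19 : AllL LnOK rf22l26 := batch_of rf22th.2.2.2.2.2.2.2.2.2.2.2.2.2.2.2.2.2.2.2.2.2.2.2.2.2.2.1
theorem rf22h20 : AllL LnOK rf22l27 := batch_of rf22th.2.2.2.2.2.2.2.2.2.2.2.2.2.2.2.2.2.2.2.2.2.2.2.2.2.2.2
theorem rf22h21 : AllL LnOK rf22l3 := batch_of rf22th.2.2.2.1
theorem rf22h22 : AllL LnOK rf22l4 := batch_of rf22th.2.2.2.2.1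
theorem rf22h23 : AllL LnOK rf22l5 := batch_of rf22th.2.2.2.2.2.1
theorem rf22h24 : AllL LnOK rf22l6 := batch_of rf22th.2.2.2.2.2.2.1
theorem rf22h25 : AllL LnOK rf22l7 := batch_of rf22th.2.2.2.2.2.2.2.1
theorem rf22h26 : AllL LnOK rf22l8 := batch_of rf22th.2.2.2.2.2.2.2.2.1
theorem rf22h27 : AllL LnOK rf22l9 := batch_of rf22th.2.2.2.2.2.2.2.2.2.1
theorem rf23h0 : AllL LnOK rf23l0 := batch_of rf23th.1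
theorem rf23h1 : AllL LnOK rf23l1 := batch_of rf23th.2.1
theorem rf23h2 : AllL LnOK rf23l10 := batch_of rf23th.2.2.2.2.2.2.2.2.2.2.1
theorem rf23h3 : AllL LnOK rf23l11 := batch_of rf23th.2.2.2.2.2.2.2.2.2.2.2.1
theorem rf23h4 : AllL LnOK rf23l12 := batch_of rf23th.2.2.2.2.2.2.2.2.2.2.2.2.1
theorem rf23h5 : AllL LnOK rf23l13 := batch_of rf23th.2.2.2.2.2.2.2.2.2.2.2.2.2.1
theorem rf23h6 : AllL LnOK rf23l14 := batch_of rf23th.2.2.2.2.2.2.2.2.2.2.2.2.2.2.1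
theorem rf23h7 : AllL LnOK rf23l15 := batch_of rf23th.2.2.2.2.2.2.2.2.2.2.2.2.2.2.2.1
theorem rf23h8 : AllL LnOK rf23l16 := batch_of rf23th.2.2.2.2.2.2.2.2.2.2.2.2.2.2.2.2.1
theorem rf23h9 : AllL LnOK rf23l17 := batch_of rf23th.2.2.2.2.2.2.2.2.2.2.2.2.2.2.2.2.2.1
theorem rf23h10 : AllL LnOK rf23l18 := batch_of rf23th.2.2.2.2.2.2.2.2.2.2.2.2.2.2.2.2.2.2.1
theorem rf23h11 : AllL LnOK rf23l19 := batch_of rf23th.2.2.2.2.2.2.2.2.2.2.2.2.2.2.2.2.2.2.2.1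
theorem rf23h12 : AllL LnOK rf23l2 := batch_of rf23th.2.2.1
theorem rf23h13 : AllL LnOK rf23l20 := batch_of rf23th.2.2.2.2.2.2.2.2.2.2.2.2.2.2.2.2.2.2.2.2.1
theorem rf23h14 : AllL LnOK rf23l21 := batch_of rf23th.2.2.2.2.2.2.2.2.2.2.2.2.2.2.2.2.2.2.2.2.2.1
theorem rf23h15 : AllL LnOK rf23l22 := batch_of rf23th.2.2.2.2.2.2.2.2.2.2.2.2.2.2.2.2.2.2.2.2.2.2.1
theorem rf23h16 : AllL LnOK rf23l23 := batch_of rf23th.2.2.2.2.2.2.2.2.2.2.2.2.2.2.2.2.2.2.2.2.2.2.2.1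
theorem rf23h17 : AllL LnOK rf23l24 := batch_of rf23th.2.2.2.2.2.2.2.2.2.2.2.2.2.2.2.2.2.2.2.2.2.2.2.2.1
theorem rf23h18 : AllL LnOK rf23l25 := batch_of rf23th.2.2.2.2.2.2.2.2.2.2.2.2.2.2.2.2.2.2.2.2.2.2.2.2.2.1
theorem rf23h19 : AllL LnOK rf23l26 := batch_of rf23th.2.2.2.2.2.2.2.2.2.2.2.2.2.2.2.2.2.2.2.2.2.2.2.2.2.2.1
theorem rf23h20 : AllL LnOK rf23l27 := batch_of rf23th.2.2.2.2.2.2.2.2.2.2.2.2.2.2.2.2.2.2.2.2.2.2.2.2.2.2.2.1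
theorem rf23h21 : AllL LnOK rf23l28 := batch_of rf23th.2.2.2.2.2.2.2.2.2.2.2.2.2.2.2.2.2.2.2.2.2.2.2.2.2.2.2.2.1
theorem rf23h22 : AllL LnOK rf23l29 := batch_of rf23th.2.2.2.2.2.2.2.2.2.2.2.2.2.2.2.2.2.2.2.2.2.2.2.2.2.2.2.2.2.1
theorem rf23h23 : AllL LnOK rf23l3 := batch_of rf23th.2.2.2.1
theorem rf23h24 : AllL LnOK rf23l30 := batch_of rf23th.2.2.2.2.2.2.2.2.2.2.2.2.2.2.2.2.2.2.2.2.2.2.2.2.2.2.2.2.2.2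
theorem rf23h25 : AllL LnOK rf23l4 := batch_of rf23th.2.2.2.2.1
theorem rf23h26 : AllL LnOK rf23l5 := batch_of rf23th.2.2.2.2.2.1
theorem rf23h27 : AllL LnOK rf23l6 := batch_of rf23th.2.2.2.2.2.2.1
theorem rf23h28 : AllL LnOK rf23l7 := batch_of rf23th.2.2.2.2.2.2.2.1
theorem rf23h29 : AllL LnOK rf23l8 := batch_of rf23th.2.2.2.2.2.2.2.2.1
theorem rf23h30 : AllL LnOK rf23l9 := batch_of rf23th.2.2.2.2.2.2.2.2.2.1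
theorem rf20k0 : CfgOK (rf20c0.e, rf20c0.n) := red_ln rf20h24.1 rf20h24.1.1
theorem rf20k1 : CfgOK (rf20c1.e, rf20c1.n) := red_ln rf20h22.2.2.1 rf20h22.2.2.1.1
theorem rf20k2 : CfgOK (rf20c2.e, rf20c2.n) := red_ln rf20h22.2.1 rf20h22.2.1.1
theorem rf20k3 : CfgOK (rf20c3.e, rf20c3.n) := red_ln rf20h22.1 rf20h22.1.1
theorem rf20k4 : CfgOK (rf20c4.e, rf20c4.n) := red_ln rf20h21.2.2.1 rf20h21.2.2.1.1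
theorem rf20k5 : CfgOK (rf20c5.e, rf20c5.n) := red_ln rf20h21.2.1 rf20h21.2.1.1
theorem rf20k6 : CfgOK (rf20c6.e, rf20c6.n) := red_ln rf20h21.1 rf20h21.1.1
theorem rf20k7 : CfgOK (rf20c7.e, rf20c7.n) := red_ln rf20h20.2.2.1 rf20h20.2.2.1.1
theorem rf20k8 : CfgOK (rf20c8.e, rf20c8.n) := red_ln rf20h20.2.1 rf20h20.2.1.1
theorem rf20k9 : CfgOK (rf20c9.e, rf20c9.n) := red_ln rf20h20.1 rf20h20.1.1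
theorem rf20k10 : CfgOK (rf20c10.e, rf20c10.n) := red_ln rf20h19.2.2.1 rf20h19.2.2.1.1
theorem rf20k11 : CfgOK (rf20c11.e, rf20c11.n) := red_ln rf20h19.2.1 rf20h19.2.1.1
theorem rf20k12 : CfgOK (rf20c12.e, rf20c12.n) := red_ln rf20h19.1 rf20h19.1.1
theorem rf20k13 : CfgOK (rf20c13.e, rf20c13.n) := red_ln rf20h18.2.2.1 rf20h18.2.2.1.1
theorem rf20k14 : CfgOK (rf20c14.e, rf20c14.n) := red_ln rf20h18.2.1 rf20h18.2.1.1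
theorem rf20k15 : CfgOK (rf20c15.e, rf20c15.n) := red_ln rf20h18.1 rf20h18.1.1
theorem rf20k16 : CfgOK (rf20c16.e, rf20c16.n) := red_ln rf20h17.2.2.1 rf20h17.2.2.1.1
theorem rf20k17 : CfgOK (rf20c17.e, rf20c17.n) := red_ln rf20h17.2.1 rf20h17.2.1.1
theorem rf20k18 : CfgOK (rf20c18.e, rf20c18.n) := red_ln rf20h17.1 rf20h17.1.1
theorem rf20k19 : CfgOK (rf20c19.e, rf20c19.n) := red_ln rf20h16.2.2.1 rf20h16.2.2.1.1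
theorem rf20k20 : CfgOK (rf20c20.e, rf20c20.n) := red_ln rf20h16.2.1 rf20h16.2.1.1
theorem rf20k21 : CfgOK (rf20c21.e, rf20c21.n) := red_ln rf20h16.1 rf20h16.1.1
theorem rf20k22 : CfgOK (rf20c22.e, rf20c22.n) := red_ln rf20h15.2.2.1 rf20h15.2.2.1.1
theorem rf20k23 : CfgOK (rf20c23.e, rf20c23.n) := red_ln rf20h15.2.1 ⟨rf20h15.2.1.1, rf20h25.2.2.2.2.2.2.2.2.2.2.2.2.2.2.2.1.1⟩
theorem rf20k24 : CfgOK (rf20c24.e, rf20c24.n) := red_ln rf20h15.1 ⟨rf20h15.1.1, rf20h25.2.2.2.2.2.2.2.2.2.2.2.2.2.2.1.1⟩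
theorem rf20k25 : CfgOK (rf20c25.e, rf20c25.n) := red_ln rf20h14.2.2.1 ⟨rf20h14.2.2.1.1, rf20h25.2.2.2.2.2.2.2.2.2.2.2.2.2.1.1⟩
theorem rf20k26 : CfgOK (rf20c26.e, rf20c26.n) := red_ln rf20h14.2.1 ⟨rf20h14.2.1.1, rf20h25.2.2.2.2.2.2.2.2.2.2.2.2.1.1⟩
theorem rf20k27 : CfgOK (rf20c27.e, rf20c27.n) := red_ln rf20h14.1 ⟨⟨rf20h14.1.1, rf20h25.2.2.2.2.2.2.2.2.2.2.2.1.1⟩, ⟨rf20h27.1.1, rf20h28.2.2.2.2.1.1⟩⟩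
theorem rf20k28 : CfgOK (rf20c28.e, rf20c28.n) := red_ln rf20h13.2.2.1 ⟨⟨rf20h13.2.2.1.1, rf20h25.2.2.2.2.2.2.2.2.2.2.1.1⟩, ⟨rf20h26.1.1, rf20h28.2.2.2.1.1⟩⟩
theorem rf20k29 : CfgOK (rf20c29.e, rf20c29.n) := red_ln rf20h13.2.1 ⟨⟨rf20h13.2.1.1, rf20h29.2.2.2.2.2.2.2.1.1⟩, ⟨rf20h25.2.2.2.2.2.2.2.2.2.1.1, rf20h28.2.2.1.1⟩⟩
theorem rf20k30 : CfgOK (rf20c30.e, rf20c30.n) := red_ln rf20h13.1 ⟨rf20h13.1.1, rf20h26.2.2.2.2.2.1.1⟩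
theorem rf20k31 : CfgOK (rf20c31.e, rf20c31.n) := red_ln rf20h11.2.2.1 ⟨rf20h11.2.2.1.1, rf20h29.2.2.2.2.2.2.1.1⟩
theorem rf20k32 : CfgOK (rf20c32.e, rf20c32.n) := red_ln rf20h11.2.1 ⟨rf20h11.2.1.1, rf20h29.2.2.2.2.2.1.1⟩
theorem rf20k33 : CfgOK (rf20c33.e, rf20c33.n) := red_ln rf20h11.1 ⟨rf20h11.1.1, rf20h29.2.2.2.2.1.1⟩
theorem rf20k34 : CfgOK (rf20c34.e, rf20c34.n) := red_ln rf20h10.2.2.1 ⟨rf20h10.2.2.1.1, rf20h29.2.2.2.1.1⟩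
theorem rf20k35 : CfgOK (rf20c35.e, rf20c35.n) := red_ln rf20h10.2.1 ⟨rf20h10.2.1.1, rf20h29.2.2.1.1⟩
theorem rf20k36 : CfgOK (rf20c36.e, rf20c36.n) := red_ln rf20h10.1 ⟨rf20h10.1.1, rf20h29.2.1.1⟩
theorem rf20k37 : CfgOK (rf20c37.e, rf20c37.n) := red_ln rf20h9.2.2.1 ⟨rf20h9.2.2.1.1, rf20h26.2.2.2.2.1.1⟩
theorem rf20k38 : CfgOK (rf20c38.e, rf20c38.n) := red_ln rf20h9.2.1 ⟨rf20h9.2.1.1, rf20h29.1.1⟩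
theorem rf20k39 : CfgOK (rf20c39.e, rf20c39.n) := red_ln rf20h9.1 ⟨rf20h9.1.1, rf20h26.2.2.2.1.1⟩
theorem rf20k40 : CfgOK (rf20c40.e, rf20c40.n) := red_ln rf20h8.2.2.1 ⟨⟨rf20h8.2.2.1.1, rf20h26.2.2.1.1⟩, ⟨rf20h25.2.2.2.2.2.2.2.2.1.1, rf20h28.2.1.1⟩⟩
theorem rf20k41 : CfgOK (rf20c41.e, rf20c41.n) := red_ln rf20h8.2.1 ⟨⟨rf20h8.2.1.1, rf20h26.2.1.1⟩, ⟨rf20h25.2.2.2.2.2.2.2.1.1, rf20h28.1.1⟩⟩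
theorem rf20k42 : CfgOK (rf20c42.e, rf20c42.n) := red_ln rf20h8.1 rf20h8.1.1
theorem rf20k43 : CfgOK (rf20c43.e, rf20c43.n) := red_ln rf20h7.2.2.1 rf20h7.2.2.1.1
theorem rf20k44 : CfgOK (rf20c44.e, rf20c44.n) := red_ln rf20h7.2.1 rf20h7.2.1.1
theorem rf20k45 : CfgOK (rf20c45.e, rf20c45.n) := red_ln rf20h7.1 rf20h7.1.1
theorem rf20k46 : CfgOK (rf20c46.e, rf20c46.n) := red_ln rf20h6.2.2.1 rf20h6.2.2.1.1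
theorem rf20k47 : CfgOK (rf20c47.e, rf20c47.n) := red_ln rf20h6.2.1 rf20h6.2.1.1
theorem rf20k48 : CfgOK (rf20c48.e, rf20c48.n) := red_ln rf20h6.1 rf20h6.1.1
theorem rf20k49 : CfgOK (rf20c49.e, rf20c49.n) := red_ln rf20h5.2.2.1 rf20h5.2.2.1.1
theorem rf20k50 : CfgOK (rf20c50.e, rf20c50.n) := red_ln rf20h5.2.1 rf20h5.2.1.1
theorem rf20k51 : CfgOK (rf20c51.e, rf20c51.n) := red_ln rf20h5.1 rf20h5.1.1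
theorem rf20k52 : CfgOK (rf20c52.e, rf20c52.n) := red_ln rf20h4.2.2.1 rf20h4.2.2.1.1
theorem rf20k53 : CfgOK (rf20c53.e, rf20c53.n) := red_ln rf20h4.2.1 rf20h4.2.1.1
theorem rf20k54 : CfgOK (rf20c54.e, rf20c54.n) := red_ln rf20h4.1 rf20h4.1.1
theorem rf20k55 : CfgOK (rf20c55.e, rf20c55.n) := red_ln rf20h3.2.2.1 rf20h3.2.2.1.1
theorem rf20k56 : CfgOK (rf20c56.e, rf20c56.n) := red_ln rf20h3.2.1 rf20h3.2.1.1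
theorem rf20k57 : CfgOK (rf20c57.e, rf20c57.n) := red_ln rf20h3.1 rf20h3.1.1
theorem rf20k58 : CfgOK (rf20c58.e, rf20c58.n) := red_ln rf20h2.2.2.1 rf20h2.2.2.1.1
theorem rf20k59 : CfgOK (rf20c59.e, rf20c59.n) := red_ln rf20h2.2.1 rf20h2.2.1.1
theorem rf20k60 : CfgOK (rf20c60.e, rf20c60.n) := red_ln rf20h2.1 rf20h2.1.1
theorem rf20k61 : CfgOK (rf20c61.e, rf20c61.n) := red_ln rf20h35.2.2.1 rf20h35.2.2.1.1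
theorem rf20k62 : CfgOK (rf20c62.e, rf20c62.n) := red_ln rf20h35.2.1 rf20h35.2.1.1
theorem rf20k63 : CfgOK (rf20c63.e, rf20c63.n) := red_ln rf20h35.1 rf20h35.1.1
theorem rf20k64 : CfgOK (rf20c64.e, rf20c64.n) := red_ln rf20h34.2.2.1 rf20h34.2.2.1.1
theorem rf20k65 : CfgOK (rf20c65.e, rf20c65.n) := red_ln rf20h34.2.1 rf20h34.2.1.1
theorem rf20k66 : CfgOK (rf20c66.e, rf20c66.n) := red_ln rf20h34.1 rf20h34.1.1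
theorem rf20k67 : CfgOK (rf20c67.e, rf20c67.n) := red_ln rf20h33.2.2.1 rf20h33.2.2.1.1
theorem rf20k68 : CfgOK (rf20c68.e, rf20c68.n) := red_ln rf20h33.2.1 rf20h33.2.1.1
theorem rf20k69 : CfgOK (rf20c69.e, rf20c69.n) := red_ln rf20h33.1 rf20h33.1.1
theorem rf20k70 : CfgOK (rf20c70.e, rf20c70.n) := red_ln rf20h32.2.2.1 rf20h32.2.2.1.1
theorem rf20k71 : CfgOK (rf20c71.e, rf20c71.n) := red_ln rf20h32.2.1 rf20h32.2.1.1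
theorem rf20k72 : CfgOK (rf20c72.e, rf20c72.n) := red_ln rf20h32.1 rf20h32.1.1
theorem rf20k73 : CfgOK (rf20c73.e, rf20c73.n) := red_ln rf20h31.2.2.1 rf20h31.2.2.1.1
theorem rf20k74 : CfgOK (rf20c74.e, rf20c74.n) := red_ln rf20h31.2.1 rf20h31.2.1.1
theorem rf20k75 : CfgOK (rf20c75.e, rf20c75.n) := red_ln rf20h31.1 rf20h31.1.1
theorem rf20k76 : CfgOK (rf20c76.e, rf20c76.n) := red_ln rf20h30.2.2.1 rf20h30.2.2.1.1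
theorem rf20k77 : CfgOK (rf20c77.e, rf20c77.n) := red_ln rf20h30.2.1 rf20h30.2.1.1
theorem rf20k78 : CfgOK (rf20c78.e, rf20c78.n) := red_ln rf20h30.1 rf20h30.1.1
theorem rf20k79 : CfgOK (rf20c79.e, rf20c79.n) := red_ln rf20h23.2.2.1 rf20h23.2.2.1.1
theorem rf20k80 : CfgOK (rf20c80.e, rf20c80.n) := red_ln rf20h23.2.1 rf20h23.2.1.1
theorem rf20k81 : CfgOK (rf20c81.e, rf20c81.n) := red_ln rf20h23.1 rf20h23.1.1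
theorem rf20k82 : CfgOK (rf20c82.e, rf20c82.n) := red_ln rf20h12.2.2.1 rf20h12.2.2.1.1
theorem rf20k83 : CfgOK (rf20c83.e, rf20c83.n) := red_ln rf20h12.2.1 rf20h12.2.1.1
theorem rf20k84 : CfgOK (rf20c84.e, rf20c84.n) := red_ln rf20h12.1 ⟨rf20h12.1.1, rf20h25.2.2.2.2.2.2.1.1⟩
theorem rf20k85 : CfgOK (rf20c85.e, rf20c85.n) := red_ln rf20h1.2.2.1 ⟨rf20h1.2.2.1.1, rf20h25.2.2.2.2.2.1.1⟩
theorem rf20k86 : CfgOK (rf20c86.e, rf20c86.n) := red_ln rf20h1.2.1 ⟨rf20h1.2.1.1, rf20h25.2.2.2.2.1.1⟩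
theorem rf20k87 : CfgOK (rf20c87.e, rf20c87.n) := red_ln rf20h1.1 ⟨rf20h1.1.1, rf20h25.2.2.2.1.1⟩
theorem rf20k88 : CfgOK (rf20c88.e, rf20c88.n) := red_ln rf20h0.2.2.1 ⟨rf20h0.2.2.1.1, rf20h25.2.2.1.1⟩
theorem rf20k89 : CfgOK (rf20c89.e, rf20c89.n) := red_ln rf20h0.2.1 ⟨rf20h0.2.1.1, rf20h25.2.1.1⟩
theorem rf20k90 : CfgOK (rf20c90.e, rf20c90.n) := red_ln rf20h0.1 ⟨rf20h0.1.1, rf20h25.1.1⟩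
theorem rf21k0 : CfgOK (rf21c0.e, rf21c0.n) := red_ln rf21h18.2.1 ⟨rf21h18.2.1.1, rf21h19.2.2.2.2.2.2.2.2.2.2.2.2.2.2.2.1.1⟩
theorem rf21k1 : CfgOK (rf21c1.e, rf21c1.n) := red_ln rf21h18.1 ⟨rf21h18.1.1, rf21h19.2.2.2.2.2.2.2.2.2.2.2.2.2.2.1.1⟩
theorem rf21k2 : CfgOK (rf21c2.e, rf21c2.n) := red_ln rf21h17.2.2.1 ⟨rf21h17.2.2.1.1, rf21h19.2.2.2.2.2.2.2.2.2.2.2.2.2.1.1⟩
theorem rf21k3 : CfgOK (rf21c3.e, rf21c3.n) := red_ln rf21h17.2.1 ⟨rf21h17.2.1.1, rf21h19.2.2.2.2.2.2.2.2.2.2.2.2.1.1⟩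
theorem rf21k4 : CfgOK (rf21c4.e, rf21c4.n) := red_ln rf21h17.1 ⟨⟨rf21h17.1.1, rf21h19.2.2.2.2.2.2.2.2.2.2.2.1.1⟩, ⟨rf21h20.2.2.2.2.2.2.2.1.1, rf21h21.1.1⟩⟩
theorem rf21k5 : CfgOK (rf21c5.e, rf21c5.n) := red_ln rf21h16.2.2.1 ⟨rf21h16.2.2.1.1, rf21h20.2.2.2.2.2.2.1.1⟩
theorem rf21k6 : CfgOK (rf21c6.e, rf21c6.n) := red_ln rf21h16.2.1 ⟨rf21h16.2.1.1, rf21h20.2.2.2.2.2.1.1⟩
theorem rf21k7 : CfgOK (rf21c7.e, rf21c7.n) := red_ln rf21h16.1 rf21h16.1.1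
theorem rf21k8 : CfgOK (rf21c8.e, rf21c8.n) := red_ln rf21h15.2.2.1 rf21h15.2.2.1.1
theorem rf21k9 : CfgOK (rf21c9.e, rf21c9.n) := red_ln rf21h15.2.1 rf21h15.2.1.1
theorem rf21k10 : CfgOK (rf21c10.e, rf21c10.n) := red_ln rf21h15.1 rf21h15.1.1
theorem rf21k11 : CfgOK (rf21c11.e, rf21c11.n) := red_ln rf21h14.2.2.1 rf21h14.2.2.1.1
theorem rf21k12 : CfgOK (rf21c12.e, rf21c12.n) := red_ln rf21h14.2.1 rf21h14.2.1.1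
theorem rf21k13 : CfgOK (rf21c13.e, rf21c13.n) := red_ln rf21h14.1 rf21h14.1.1
theorem rf21k14 : CfgOK (rf21c14.e, rf21c14.n) := red_ln rf21h13.2.2.1 rf21h13.2.2.1.1
theorem rf21k15 : CfgOK (rf21c15.e, rf21c15.n) := red_ln rf21h13.2.1 rf21h13.2.1.1
theorem rf21k16 : CfgOK (rf21c16.e, rf21c16.n) := red_ln rf21h13.1 rf21h13.1.1
theorem rf21k17 : CfgOK (rf21c17.e, rf21c17.n) := red_ln rf21h11.2.2.1 rf21h11.2.2.1.1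
theorem rf21k18 : CfgOK (rf21c18.e, rf21c18.n) := red_ln rf21h11.2.1 rf21h11.2.1.1
theorem rf21k19 : CfgOK (rf21c19.e, rf21c19.n) := red_ln rf21h11.1 rf21h11.1.1
theorem rf21k20 : CfgOK (rf21c20.e, rf21c20.n) := red_ln rf21h10.2.2.1 rf21h10.2.2.1.1
theorem rf21k21 : CfgOK (rf21c21.e, rf21c21.n) := red_ln rf21h10.2.1 rf21h10.2.1.1
theorem rf21k22 : CfgOK (rf21c22.e, rf21c22.n) := red_ln rf21h10.1 rf21h10.1.1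
theorem rf21k23 : CfgOK (rf21c23.e, rf21c23.n) := red_ln rf21h9.2.2.1 rf21h9.2.2.1.1
theorem rf21k24 : CfgOK (rf21c24.e, rf21c24.n) := red_ln rf21h9.2.1 rf21h9.2.1.1
theorem rf21k25 : CfgOK (rf21c25.e, rf21c25.n) := red_ln rf21h9.1 rf21h9.1.1
theorem rf21k26 : CfgOK (rf21c26.e, rf21c26.n) := red_ln rf21h8.2.2.1 rf21h8.2.2.1.1
theorem rf21k27 : CfgOK (rf21c27.e, rf21c27.n) := red_ln rf21h8.2.1 rf21h8.2.1.1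
theorem rf21k28 : CfgOK (rf21c28.e, rf21c28.n) := red_ln rf21h8.1 rf21h8.1.1
theorem rf21k29 : CfgOK (rf21c29.e, rf21c29.n) := red_ln rf21h7.2.2.1 rf21h7.2.2.1.1
theorem rf21k30 : CfgOK (rf21c30.e, rf21c30.n) := red_ln rf21h7.2.1 rf21h7.2.1.1
theorem rf21k31 : CfgOK (rf21c31.e, rf21c31.n) := red_ln rf21h7.1 rf21h7.1.1
theorem rf21k32 : CfgOK (rf21c32.e, rf21c32.n) := red_ln rf21h6.2.2.1 rf21h6.2.2.1.1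
theorem rf21k33 : CfgOK (rf21c33.e, rf21c33.n) := red_ln rf21h6.2.1 ⟨rf21h6.2.1.1, rf21h19.2.2.2.2.2.2.2.2.2.2.1.1⟩
theorem rf21k34 : CfgOK (rf21c34.e, rf21c34.n) := red_ln rf21h6.1 ⟨rf21h6.1.1, rf21h19.2.2.2.2.2.2.2.2.2.1.1⟩
theorem rf21k35 : CfgOK (rf21c35.e, rf21c35.n) := red_ln rf21h5.2.2.1 ⟨rf21h5.2.2.1.1, rf21h19.2.2.2.2.2.2.2.2.1.1⟩
theorem rf21k36 : CfgOK (rf21c36.e, rf21c36.n) := red_ln rf21h5.2.1 ⟨rf21h5.2.1.1, rf21h19.2.2.2.2.2.2.2.1.1⟩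
theorem rf21k37 : CfgOK (rf21c37.e, rf21c37.n) := red_ln rf21h5.1 ⟨rf21h5.1.1, rf21h19.2.2.2.2.2.2.1.1⟩
theorem rf21k38 : CfgOK (rf21c38.e, rf21c38.n) := red_ln rf21h4.2.2.1 ⟨rf21h4.2.2.1.1, rf21h19.2.2.2.2.2.1.1⟩
theorem rf21k39 : CfgOK (rf21c39.e, rf21c39.n) := red_ln rf21h4.2.1 ⟨rf21h4.2.1.1, rf21h19.2.2.2.2.1.1⟩
theorem rf21k40 : CfgOK (rf21c40.e, rf21c40.n) := red_ln rf21h4.1 ⟨rf21h4.1.1, rf21h19.2.2.2.1.1⟩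
theorem rf21k41 : CfgOK (rf21c41.e, rf21c41.n) := red_ln rf21h3.2.2.1 ⟨rf21h3.2.2.1.1, rf21h19.2.2.1.1⟩
theorem rf21k42 : CfgOK (rf21c42.e, rf21c42.n) := red_ln rf21h3.2.1 ⟨rf21h3.2.1.1, rf21h19.2.1.1⟩
theorem rf21k43 : CfgOK (rf21c43.e, rf21c43.n) := red_ln rf21h3.1 ⟨rf21h3.1.1, rf21h19.1.1⟩
theorem rf21k44 : CfgOK (rf21c44.e, rf21c44.n) := red_ln rf21h2.2.2.1 ⟨rf21h2.2.2.1.1, rf21h20.2.2.2.2.1.1⟩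
theorem rf21k45 : CfgOK (rf21c45.e, rf21c45.n) := red_ln rf21h2.2.1 ⟨rf21h2.2.1.1, rf21h22.2.1.1⟩
theorem rf21k46 : CfgOK (rf21c46.e, rf21c46.n) := red_ln rf21h2.1 ⟨rf21h2.1.1, rf21h20.2.2.2.1.1⟩
theorem rf21k47 : CfgOK (rf21c47.e, rf21c47.n) := red_ln rf21h29.2.2.1 ⟨rf21h29.2.2.1.1, rf21h20.2.2.1.1⟩
theorem rf21k48 : CfgOK (rf21c48.e, rf21c48.n) := red_ln rf21h29.2.1 ⟨rf21h29.2.1.1, rf21h20.2.1.1⟩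
theorem rf21k49 : CfgOK (rf21c49.e, rf21c49.n) := red_ln rf21h29.1 ⟨rf21h29.1.1, rf21h22.1.1⟩
theorem rf21k50 : CfgOK (rf21c50.e, rf21c50.n) := red_ln rf21h28.2.2.1 ⟨rf21h28.2.2.1.1, rf21h20.1.1⟩
theorem rf21k51 : CfgOK (rf21c51.e, rf21c51.n) := red_ln rf21h28.2.1 rf21h28.2.1.1
theorem rf21k52 : CfgOK (rf21c52.e, rf21c52.n) := red_ln rf21h28.1 rf21h28.1.1
theorem rf21k53 : CfgOK (rf21c53.e, rf21c53.n) := red_ln rf21h27.2.2.1 rf21h27.2.2.1.1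
theorem rf21k54 : CfgOK (rf21c54.e, rf21c54.n) := red_ln rf21h27.2.1 rf21h27.2.1.1
theorem rf21k55 : CfgOK (rf21c55.e, rf21c55.n) := red_ln rf21h27.1 rf21h27.1.1
theorem rf21k56 : CfgOK (rf21c56.e, rf21c56.n) := red_ln rf21h26.2.2.1 rf21h26.2.2.1.1
theorem rf21k57 : CfgOK (rf21c57.e, rf21c57.n) := red_ln rf21h26.2.1 rf21h26.2.1.1
theorem rf21k58 : CfgOK (rf21c58.e, rf21c58.n) := red_ln rf21h26.1 rf21h26.1.1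
theorem rf21k59 : CfgOK (rf21c59.e, rf21c59.n) := red_ln rf21h25.2.2.1 rf21h25.2.2.1.1
theorem rf21k60 : CfgOK (rf21c60.e, rf21c60.n) := red_ln rf21h25.2.1 rf21h25.2.1.1
theorem rf21k61 : CfgOK (rf21c61.e, rf21c61.n) := red_ln rf21h25.1 rf21h25.1.1
theorem rf21k62 : CfgOK (rf21c62.e, rf21c62.n) := red_ln rf21h24.2.2.1 rf21h24.2.2.1.1
theorem rf21k63 : CfgOK (rf21c63.e, rf21c63.n) := red_ln rf21h24.2.1 rf21h24.2.1.1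
theorem rf21k64 : CfgOK (rf21c64.e, rf21c64.n) := red_ln rf21h24.1 rf21h24.1.1
theorem rf21k65 : CfgOK (rf21c65.e, rf21c65.n) := red_ln rf21h23.2.2.1 rf21h23.2.2.1.1
theorem rf21k66 : CfgOK (rf21c66.e, rf21c66.n) := red_ln rf21h23.2.1 rf21h23.2.1.1
theorem rf21k67 : CfgOK (rf21c67.e, rf21c67.n) := red_ln rf21h23.1 rf21h23.1.1
theorem rf21k68 : CfgOK (rf21c68.e, rf21c68.n) := red_ln rf21h12.2.2.1 rf21h12.2.2.1.1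
theorem rf21k69 : CfgOK (rf21c69.e, rf21c69.n) := red_ln rf21h12.2.1 rf21h12.2.1.1
theorem rf21k70 : CfgOK (rf21c70.e, rf21c70.n) := red_ln rf21h12.1 rf21h12.1.1
theorem rf21k71 : CfgOK (rf21c71.e, rf21c71.n) := red_ln rf21h1.2.2.1 rf21h1.2.2.1.1
theorem rf21k72 : CfgOK (rf21c72.e, rf21c72.n) := red_ln rf21h1.2.1 rf21h1.2.1.1
theorem rf21k73 : CfgOK (rf21c73.e, rf21c73.n) := red_ln rf21h1.1 rf21h1.1.1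
theorem rf21k74 : CfgOK (rf21c74.e, rf21c74.n) := red_ln rf21h0.2.2.1 rf21h0.2.2.1.1
theorem rf21k75 : CfgOK (rf21c75.e, rf21c75.n) := red_ln rf21h0.2.1 rf21h0.2.1.1
theorem rf21k76 : CfgOK (rf21c76.e, rf21c76.n) := red_ln rf21h0.1 rf21h0.1.1
theorem rf22k0 : CfgOK (rf22c0.e, rf22c0.n) := red_ln rf22h14.1 rf22h14.1.1
theorem rf22k1 : CfgOK (rf22c1.e, rf22c1.n) := red_ln rf22h13.2.2.1 rf22h13.2.2.1.1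
theorem rf22k2 : CfgOK (rf22c2.e, rf22c2.n) := red_ln rf22h13.2.1 rf22h13.2.1.1
theorem rf22k3 : CfgOK (rf22c3.e, rf22c3.n) := red_ln rf22h13.1 rf22h13.1.1
theorem rf22k4 : CfgOK (rf22c4.e, rf22c4.n) := red_ln rf22h11.2.2.1 rf22h11.2.2.1.1
theorem rf22k5 : CfgOK (rf22c5.e, rf22c5.n) := red_ln rf22h11.2.1 ⟨rf22h11.2.1.1, rf22h15.2.2.2.2.2.2.2.2.2.2.2.2.2.2.2.2.2.2.2.2.2.2.2.2.2.2.2.2.2.1.1⟩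
theorem rf22k6 : CfgOK (rf22c6.e, rf22c6.n) := red_ln rf22h11.1 ⟨rf22h11.1.1, rf22h15.2.2.2.2.2.2.2.2.2.2.2.2.2.2.2.2.2.2.2.2.2.2.2.2.2.2.2.2.1.1⟩
theorem rf22k7 : CfgOK (rf22c7.e, rf22c7.n) := red_ln rf22h10.2.2.1 ⟨rf22h10.2.2.1.1, rf22h15.2.2.2.2.2.2.2.2.2.2.2.2.2.2.2.2.2.2.2.2.2.2.2.2.2.2.2.1.1⟩
theorem rf22k8 : CfgOK (rf22c8.e, rf22c8.n) := red_ln rf22h10.2.1 ⟨rf22h10.2.1.1, rf22h15.2.2.2.2.2.2.2.2.2.2.2.2.2.2.2.2.2.2.2.2.2.2.2.2.2.2.1.1⟩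
theorem rf22k9 : CfgOK (rf22c9.e, rf22c9.n) := red_ln rf22h10.1 ⟨rf22h10.1.1, rf22h15.2.2.2.2.2.2.2.2.2.2.2.2.2.2.2.2.2.2.2.2.2.2.2.2.2.1.1⟩
theorem rf22k10 : CfgOK (rf22c10.e, rf22c10.n) := red_ln rf22h9.2.2.1 ⟨rf22h9.2.2.1.1, rf22h15.2.2.2.2.2.2.2.2.2.2.2.2.2.2.2.2.2.2.2.2.2.2.2.2.1.1⟩
theorem rf22k11 : CfgOK (rf22c11.e, rf22c11.n) := red_ln rf22h9.2.1 ⟨rf22h9.2.1.1, rf22h15.2.2.2.2.2.2.2.2.2.2.2.2.2.2.2.2.2.2.2.2.2.2.2.1.1⟩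
theorem rf22k12 : CfgOK (rf22c12.e, rf22c12.n) := red_ln rf22h9.1 ⟨rf22h9.1.1, rf22h15.2.2.2.2.2.2.2.2.2.2.2.2.2.2.2.2.2.2.2.2.2.2.1.1⟩
theorem rf22k13 : CfgOK (rf22c13.e, rf22c13.n) := red_ln rf22h8.2.2.1 ⟨rf22h8.2.2.1.1, rf22h15.2.2.2.2.2.2.2.2.2.2.2.2.2.2.2.2.2.2.2.2.2.1.1⟩
theorem rf22k14 : CfgOK (rf22c14.e, rf22c14.n) := red_ln rf22h8.2.1 ⟨rf22h8.2.1.1, rf22h15.2.2.2.2.2.2.2.2.2.2.2.2.2.2.2.2.2.2.2.2.1.1⟩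
theorem rf22k15 : CfgOK (rf22c15.e, rf22c15.n) := red_ln rf22h8.1 ⟨rf22h8.1.1, rf22h15.2.2.2.2.2.2.2.2.2.2.2.2.2.2.2.2.2.2.2.1.1⟩
theorem rf22k16 : CfgOK (rf22c16.e, rf22c16.n) := red_ln rf22h7.2.2.1 ⟨rf22h7.2.2.1.1, rf22h15.2.2.2.2.2.2.2.2.2.2.2.2.2.2.2.2.2.2.1.1⟩
theorem rf22k17 : CfgOK (rf22c17.e, rf22c17.n) := red_ln rf22h7.2.1 ⟨rf22h7.2.1.1, rf22h15.2.2.2.2.2.2.2.2.2.2.2.2.2.2.2.2.2.1.1⟩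
theorem rf22k18 : CfgOK (rf22c18.e, rf22c18.n) := red_ln rf22h7.1 ⟨rf22h7.1.1, rf22h15.2.2.2.2.2.2.2.2.2.2.2.2.2.2.2.2.1.1⟩
theorem rf22k19 : CfgOK (rf22c19.e, rf22c19.n) := red_ln rf22h6.2.2.1 ⟨⟨rf22h6.2.2.1.1, rf22h15.2.2.2.2.2.2.2.2.2.2.2.2.2.2.2.1.1⟩, ⟨rf22h16.2.2.2.1.1, rf22h18.2.2.2.2.1.1⟩⟩
theorem rf22k20 : CfgOK (rf22c20.e, rf22c20.n) := red_ln rf22h6.2.1 ⟨rf22h6.2.1.1, rf22h17.1.1⟩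
theorem rf22k21 : CfgOK (rf22c21.e, rf22c21.n) := red_ln rf22h6.1 ⟨⟨rf22h6.1.1, rf22h19.2.2.2.2.2.1.1⟩, ⟨rf22h15.2.2.2.2.2.2.2.2.2.2.2.2.2.2.1.1, rf22h18.2.2.2.1.1⟩⟩
theorem rf22k22 : CfgOK (rf22c22.e, rf22c22.n) := red_ln rf22h5.2.2.1 ⟨⟨rf22h5.2.2.1.1, rf22h16.2.2.2.2.2.1.1⟩, ⟨rf22h19.2.2.1.1, rf22h20.1.1⟩⟩
theorem rf22k23 : CfgOK (rf22c23.e, rf22c23.n) := red_ln rf22h5.2.1 ⟨⟨rf22h5.2.1.1, rf22h16.2.2.2.2.1.1⟩, ⟨rf22h15.2.2.2.2.2.2.2.2.2.2.2.2.2.1.1, rf22h18.2.2.1.1⟩⟩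
theorem rf22k24 : CfgOK (rf22c24.e, rf22c24.n) := red_ln rf22h5.1 ⟨rf22h5.1.1, rf22h16.2.2.1.1⟩
theorem rf22k25 : CfgOK (rf22c25.e, rf22c25.n) := red_ln rf22h4.2.2.1 rf22h4.2.2.1.1
theorem rf22k26 : CfgOK (rf22c26.e, rf22c26.n) := red_ln rf22h4.2.1 rf22h4.2.1.1
theorem rf22k27 : CfgOK (rf22c27.e, rf22c27.n) := red_ln rf22h4.1 rf22h4.1.1
theorem rf22k28 : CfgOK (rf22c28.e, rf22c28.n) := red_ln rf22h3.2.2.1 rf22h3.2.2.1.1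
theorem rf22k29 : CfgOK (rf22c29.e, rf22c29.n) := red_ln rf22h3.2.1 rf22h3.2.1.1
theorem rf22k30 : CfgOK (rf22c30.e, rf22c30.n) := red_ln rf22h3.1 rf22h3.1.1
theorem rf22k31 : CfgOK (rf22c31.e, rf22c31.n) := red_ln rf22h2.2.2.1 rf22h2.2.2.1.1
theorem rf22k32 : CfgOK (rf22c32.e, rf22c32.n) := red_ln rf22h2.2.1 rf22h2.2.1.1
theorem rf22k33 : CfgOK (rf22c33.e, rf22c33.n) := red_ln rf22h2.1 rf22h2.1.1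
theorem rf22k34 : CfgOK (rf22c34.e, rf22c34.n) := red_ln rf22h27.2.2.1 rf22h27.2.2.1.1
theorem rf22k35 : CfgOK (rf22c35.e, rf22c35.n) := red_ln rf22h27.2.1 rf22h27.2.1.1
theorem rf22k36 : CfgOK (rf22c36.e, rf22c36.n) := red_ln rf22h27.1 rf22h27.1.1
theorem rf22k37 : CfgOK (rf22c37.e, rf22c37.n) := red_ln rf22h26.2.2.1 rf22h26.2.2.1.1
theorem rf22k38 : CfgOK (rf22c38.e, rf22c38.n) := red_ln rf22h26.2.1 rf22h26.2.1.1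
theorem rf22k39 : CfgOK (rf22c39.e, rf22c39.n) := red_ln rf22h26.1 rf22h26.1.1
theorem rf22k40 : CfgOK (rf22c40.e, rf22c40.n) := red_ln rf22h25.2.2.1 rf22h25.2.2.1.1
theorem rf22k41 : CfgOK (rf22c41.e, rf22c41.n) := red_ln rf22h25.2.1 rf22h25.2.1.1
theorem rf22k42 : CfgOK (rf22c42.e, rf22c42.n) := red_ln rf22h25.1 rf22h25.1.1
theorem rf22k43 : CfgOK (rf22c43.e, rf22c43.n) := red_ln rf22h24.2.2.1 rf22h24.2.2.1.1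
theorem rf22k44 : CfgOK (rf22c44.e, rf22c44.n) := red_ln rf22h24.2.1 rf22h24.2.1.1
theorem rf22k45 : CfgOK (rf22c45.e, rf22c45.n) := red_ln rf22h24.1 rf22h24.1.1
theorem rf22k46 : CfgOK (rf22c46.e, rf22c46.n) := red_ln rf22h23.2.2.1 rf22h23.2.2.1.1
theorem rf22k47 : CfgOK (rf22c47.e, rf22c47.n) := red_ln rf22h23.2.1 ⟨rf22h23.2.1.1, rf22h15.2.2.2.2.2.2.2.2.2.2.2.2.1.1⟩
theorem rf22k48 : CfgOK (rf22c48.e, rf22c48.n) := red_ln rf22h23.1 ⟨rf22h23.1.1, rf22h15.2.2.2.2.2.2.2.2.2.2.2.1.1⟩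
theorem rf22k49 : CfgOK (rf22c49.e, rf22c49.n) := red_ln rf22h22.2.2.1 ⟨rf22h22.2.2.1.1, rf22h15.2.2.2.2.2.2.2.2.2.2.1.1⟩
theorem rf22k50 : CfgOK (rf22c50.e, rf22c50.n) := red_ln rf22h22.2.1 ⟨rf22h22.2.1.1, rf22h15.2.2.2.2.2.2.2.2.2.1.1⟩
theorem rf22k51 : CfgOK (rf22c51.e, rf22c51.n) := red_ln rf22h22.1 ⟨rf22h22.1.1, rf22h15.2.2.2.2.2.2.2.2.1.1⟩
theorem rf22k52 : CfgOK (rf22c52.e, rf22c52.n) := red_ln rf22h21.2.2.1 ⟨rf22h21.2.2.1.1, rf22h15.2.2.2.2.2.2.2.1.1⟩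
theorem rf22k53 : CfgOK (rf22c53.e, rf22c53.n) := red_ln rf22h21.2.1 ⟨rf22h21.2.1.1, rf22h15.2.2.2.2.2.2.1.1⟩
theorem rf22k54 : CfgOK (rf22c54.e, rf22c54.n) := red_ln rf22h21.1 ⟨rf22h21.1.1, rf22h15.2.2.2.2.2.1.1⟩
theorem rf22k55 : CfgOK (rf22c55.e, rf22c55.n) := red_ln rf22h12.2.2.1 ⟨rf22h12.2.2.1.1, rf22h15.2.2.2.2.1.1⟩
theorem rf22k56 : CfgOK (rf22c56.e, rf22c56.n) := red_ln rf22h12.2.1 ⟨rf22h12.2.1.1, rf22h15.2.2.2.1.1⟩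
theorem rf22k57 : CfgOK (rf22c57.e, rf22c57.n) := red_ln rf22h12.1 ⟨rf22h12.1.1, rf22h15.2.2.1.1⟩
theorem rf22k58 : CfgOK (rf22c58.e, rf22c58.n) := red_ln rf22h1.2.2.1 ⟨⟨rf22h1.2.2.1.1, rf22h15.2.1.1⟩, ⟨rf22h19.1.1, rf22h18.2.1.1⟩⟩
theorem rf22k59 : CfgOK (rf22c59.e, rf22c59.n) := red_ln rf22h1.2.1 ⟨rf22h1.2.1.1, rf22h19.2.2.2.2.1.1⟩
theorem rf22k60 : CfgOK (rf22c60.e, rf22c60.n) := red_ln rf22h1.1 ⟨rf22h1.1.1, rf22h19.2.2.2.1.1⟩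
theorem rf22k61 : CfgOK (rf22c61.e, rf22c61.n) := red_ln rf22h0.2.2.1 ⟨rf22h0.2.2.1.1, rf22h19.2.1.1⟩
theorem rf22k62 : CfgOK (rf22c62.e, rf22c62.n) := red_ln rf22h0.2.1 ⟨⟨rf22h0.2.1.1, rf22h16.2.1.1⟩, ⟨rf22h15.1.1, rf22h18.1.1⟩⟩
theorem rf22k63 : CfgOK (rf22c63.e, rf22c63.n) := red_ln rf22h0.1 ⟨rf22h0.1.1, rf22h16.1.1⟩
theorem rf23k0 : CfgOK (rf23c0.e, rf23c0.n) := red_ln rf23h17.2.1 ⟨rf23h17.2.1.1, rf23h18.2.1.1⟩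
theorem rf23k1 : CfgOK (rf23c1.e, rf23c1.n) := red_ln rf23h17.1 ⟨rf23h17.1.1, rf23h20.2.1.1⟩
theorem rf23k2 : CfgOK (rf23c2.e, rf23c2.n) := red_ln rf23h16.2.1 rf23h16.2.1.1
theorem rf23k3 : CfgOK (rf23c3.e, rf23c3.n) := red_ln rf23h16.1 rf23h16.1.1
theorem rf23k4 : CfgOK (rf23c4.e, rf23c4.n) := red_ln rf23h15.2.1 rf23h15.2.1.1
theorem rf23k5 : CfgOK (rf23c5.e, rf23c5.n) := red_ln rf23h15.1 rf23h15.1.1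
theorem rf23k6 : CfgOK (rf23c6.e, rf23c6.n) := red_ln rf23h14.2.1 rf23h14.2.1.1
theorem rf23k7 : CfgOK (rf23c7.e, rf23c7.n) := red_ln rf23h14.1 rf23h14.1.1
theorem rf23k8 : CfgOK (rf23c8.e, rf23c8.n) := red_ln rf23h13.2.1 rf23h13.2.1.1
theorem rf23k9 : CfgOK (rf23c9.e, rf23c9.n) := red_ln rf23h13.1 rf23h13.1.1
theorem rf23k10 : CfgOK (rf23c10.e, rf23c10.n) := red_ln rf23h11.2.1 rf23h11.2.1.1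
theorem rf23k11 : CfgOK (rf23c11.e, rf23c11.n) := red_ln rf23h11.1 rf23h11.1.1
theorem rf23k12 : CfgOK (rf23c12.e, rf23c12.n) := red_ln rf23h10.2.1 rf23h10.2.1.1
theorem rf23k13 : CfgOK (rf23c13.e, rf23c13.n) := red_ln rf23h10.1 rf23h10.1.1
theorem rf23k14 : CfgOK (rf23c14.e, rf23c14.n) := red_ln rf23h9.2.1 rf23h9.2.1.1
theorem rf23k15 : CfgOK (rf23c15.e, rf23c15.n) := red_ln rf23h9.1 rf23h9.1.1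
theorem rf23k16 : CfgOK (rf23c16.e, rf23c16.n) := red_ln rf23h8.2.1 rf23h8.2.1.1
theorem rf23k17 : CfgOK (rf23c17.e, rf23c17.n) := red_ln rf23h8.1 rf23h8.1.1
theorem rf23k18 : CfgOK (rf23c18.e, rf23c18.n) := red_ln rf23h7.2.1 rf23h7.2.1.1
theorem rf23k19 : CfgOK (rf23c19.e, rf23c19.n) := red_ln rf23h7.1 rf23h7.1.1
theorem rf23k20 : CfgOK (rf23c20.e, rf23c20.n) := red_ln rf23h6.2.1 rf23h6.2.1.1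
theorem rf23k21 : CfgOK (rf23c21.e, rf23c21.n) := red_ln rf23h6.1 ⟨rf23h6.1.1, rf23h22.2.2.2.2.2.2.2.2.2.2.2.2.2.2.2.2.2.2.2.2.1.1⟩
theorem rf23k22 : CfgOK (rf23c22.e, rf23c22.n) := red_ln rf23h5.2.1 ⟨rf23h5.2.1.1, rf23h22.2.2.2.2.2.2.2.2.2.2.2.2.2.2.2.2.2.2.2.1.1⟩
theorem rf23k23 : CfgOK (rf23c23.e, rf23c23.n) := red_ln rf23h5.1 ⟨rf23h5.1.1, rf23h22.2.2.2.2.2.2.2.2.2.2.2.2.2.2.2.2.2.2.1.1⟩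
theorem rf23k24 : CfgOK (rf23c24.e, rf23c24.n) := red_ln rf23h4.2.1 ⟨rf23h4.2.1.1, rf23h22.2.2.2.2.2.2.2.2.2.2.2.2.2.2.2.2.2.1.1⟩
theorem rf23k25 : CfgOK (rf23c25.e, rf23c25.n) := red_ln rf23h4.1 ⟨rf23h4.1.1, rf23h22.2.2.2.2.2.2.2.2.2.2.2.2.2.2.2.2.1.1⟩
theorem rf23k26 : CfgOK (rf23c26.e, rf23c26.n) := red_ln rf23h3.2.1 ⟨rf23h3.2.1.1, rf23h22.2.2.2.2.2.2.2.2.2.2.2.2.2.2.2.1.1⟩
theorem rf23k27 : CfgOK (rf23c27.e, rf23c27.n) := red_ln rf23h3.1 ⟨rf23h3.1.1, rf23h22.2.2.2.2.2.2.2.2.2.2.2.2.2.2.1.1⟩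
theorem rf23k28 : CfgOK (rf23c28.e, rf23c28.n) := red_ln rf23h2.2.1 ⟨rf23h2.2.1.1, rf23h22.2.2.2.2.2.2.2.2.2.2.2.2.2.1.1⟩
theorem rf23k29 : CfgOK (rf23c29.e, rf23c29.n) := red_ln rf23h2.1 ⟨rf23h2.1.1, rf23h22.2.2.2.2.2.2.2.2.2.2.2.2.1.1⟩
theorem rf23k30 : CfgOK (rf23c30.e, rf23c30.n) := red_ln rf23h30.2.1 ⟨rf23h30.2.1.1, rf23h22.2.2.2.2.2.2.2.2.2.2.2.1.1⟩
theorem rf23k31 : CfgOK (rf23c31.e, rf23c31.n) := red_ln rf23h30.1 ⟨rf23h30.1.1, rf23h22.2.2.2.2.2.2.2.2.2.2.1.1⟩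
theorem rf23k32 : CfgOK (rf23c32.e, rf23c32.n) := red_ln rf23h29.2.1 ⟨rf23h29.2.1.1, rf23h22.2.2.2.2.2.2.2.2.2.1.1⟩
theorem rf23k33 : CfgOK (rf23c33.e, rf23c33.n) := red_ln rf23h29.1 ⟨rf23h29.1.1, rf23h22.2.2.2.2.2.2.2.2.1.1⟩
theorem rf23k34 : CfgOK (rf23c34.e, rf23c34.n) := red_ln rf23h28.2.1 ⟨rf23h28.2.1.1, rf23h22.2.2.2.2.2.2.2.1.1⟩
theorem rf23k35 : CfgOK (rf23c35.e, rf23c35.n) := red_ln rf23h28.1 ⟨rf23h28.1.1, rf23h22.2.2.2.2.2.2.1.1⟩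
theorem rf23k36 : CfgOK (rf23c36.e, rf23c36.n) := red_ln rf23h27.2.1 ⟨rf23h27.2.1.1, rf23h22.2.2.2.2.2.1.1⟩
theorem rf23k37 : CfgOK (rf23c37.e, rf23c37.n) := red_ln rf23h27.1 ⟨rf23h27.1.1, rf23h22.2.2.2.2.1.1⟩
theorem rf23k38 : CfgOK (rf23c38.e, rf23c38.n) := red_ln rf23h26.2.1 ⟨⟨rf23h26.2.1.1, rf23h22.2.2.2.1.1⟩, ⟨rf23h21.2.1.1, rf23h24.2.2.2.1.1⟩⟩
theorem rf23k39 : CfgOK (rf23c39.e, rf23c39.n) := red_ln rf23h26.1 ⟨⟨rf23h26.1.1, rf23h22.2.2.1.1⟩, ⟨rf23h18.1.1, rf23h24.2.2.1.1⟩⟩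
theorem rf23k40 : CfgOK (rf23c40.e, rf23c40.n) := red_ln rf23h25.2.1 ⟨rf23h25.2.1.1, rf23h21.1.1⟩
theorem rf23k41 : CfgOK (rf23c41.e, rf23c41.n) := red_ln rf23h25.1 ⟨⟨rf23h25.1.1, rf23h19.1.1⟩, ⟨rf23h22.2.1.1, rf23h24.2.1.1⟩⟩
theorem rf23k42 : CfgOK (rf23c42.e, rf23c42.n) := red_ln rf23h23.2.1 ⟨⟨rf23h23.2.1.1, rf23h18.2.2.1.1⟩, ⟨rf23h22.1.1, rf23h24.1.1⟩⟩
theorem rf23k43 : CfgOK (rf23c43.e, rf23c43.n) := red_ln rf23h23.1 ⟨rf23h23.1.1, rf23h20.1.1⟩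
theorem rf23k44 : CfgOK (rf23c44.e, rf23c44.n) := red_ln rf23h12.2.1 rf23h12.2.1.1
theorem rf23k45 : CfgOK (rf23c45.e, rf23c45.n) := red_ln rf23h12.1 rf23h12.1.1
theorem rf23k46 : CfgOK (rf23c46.e, rf23c46.n) := red_ln rf23h1.2.1 rf23h1.2.1.1
theorem rf23k47 : CfgOK (rf23c47.e, rf23c47.n) := red_ln rf23h1.1 rf23h1.1.1
theorem rf23k48 : CfgOK (rf23c48.e, rf23c48.n) := red_ln rf23h0.2.1 rf23h0.2.1.1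
theorem rf23k49 : CfgOK (rf23c49.e, rf23c49.n) := red_ln rf23h0.1 rf23h0.1.1

end Pool.Agent.Lib.G6.B
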