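import Pool.Agent.Lib.G6.BRed
import Pool.Agent.Lib.G6D.RF24
import Pool.Agent.Lib.G6D.RF25
import Pool.Agent.Lib.G6D.RF26
import Pool.Agent.Lib.G6D.RF27

set_option autoImplicit false
set_option maxRecDepth 100000
set_option linter.all false

namespace Pool.Agent.Lib.G6.B

theorem rf24h0 : AllL LnOK rf24l0 := batch_of rf24th.1
theorem rf24h1 : AllL LnOK rf24l1 := batch_of rf24th.2.1
theorem rf24h2 : AllL LnOK rf24l10 := batch_of rf24th.2.2.2.2.2.2.2.2.2.2.1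
theorem rf24h3 : AllL LnOK rf24l11 := batch_of rf24th.2.2.2.2.2.2.2.2.2.2.2.1
theorem rf24h4 : AllL LnOK rf24l12 := batch_of rf24th.2.2.2.2.2.2.2.2.2.2.2.2.1
theorem rf24h5 : AllL LnOK rf24l13 := batch_of rf24th.2.2.2.2.2.2.2.2.2.2.2.2.2.1
theorem rf24h6 : AllL LnOK rf24l14 := batch_of rf24th.2.2.2.2.2.2.2.2.2.2.2.2.2.2.1
theorem rf24h7 : AllL LnOK rf24l15 := batch_of rf24th.2.2.2.2.2.2.2.2.2.2.2.2.2.2.2.1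
theorem rf24h8 : AllL LnOK rf24l16 := batch_of rf24th.2.2.2.2.2.2.2.2.2.2.2.2.2.2.2.2.1
theorem rf24h9 : AllL LnOK rf24l17 := batch_of rf24th.2.2.2.2.2.2.2.2.2.2.2.2.2.2.2.2.2.1
theorem rf24h10 : AllL LnOK rf24l18 := batch_of rf24th.2.2.2.2.2.2.2.2.2.2.2.2.2.2.2.2.2.2.1
theorem rf24h11 : AllL LnOK rf24l19 := batch_of rf24th.2.2.2.2.2.2.2.2.2.2.2.2.2.2.2.2.2.2.2.1
theorem rf24h12 : AllL LnOK rf24l2 := batch_of rf24th.2.2.1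
theorem rf24h13 : AllL LnOK rf24l20 := batch_of rf24th.2.2.2.2.2.2.2.2.2.2.2.2.2.2.2.2.2.2.2.2.1
theorem rf24h14 : AllL LnOK rf24l21 := batch_of rf24th.2.2.2.2.2.2.2.2.2.2.2.2.2.2.2.2.2.2.2.2.2.1
theorem rf24h15 : AllL LnOK rf24l22 := batch_of rf24th.2.2.2.2.2.2.2.2.2.2.2.2.2.2.2.2.2.2.2.2.2.2.1
theorem rf24h16 : AllL LnOK rf24l23 := batch_of rf24th.2.2.2.2.2.2.2.2.2.2.2.2.2.2.2.2.2.2.2.2.2.2.2.1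
theorem rf24h17 : AllL LnOK rf24l24 := batch_of rf24th.2.2.2.2.2.2.2.2.2.2.2.2.2.2.2.2.2.2.2.2.2.2.2.2.1
theorem rf24h18 : AllL LnOK rf24l25 := batch_of rf24th.2.2.2.2.2.2.2.2.2.2.2.2.2.2.2.2.2.2.2.2.2.2.2.2.2.1
theorem rf24h19 : AllL LnOK rf24l26 := batch_of rf24th.2.2.2.2.2.2.2.2.2.2.2.2.2.2.2.2.2.2.2.2.2.2.2.2.2.2
theorem rf24h20 : AllL LnOK rf24l3 := batch_of rf24th.2.2.2.1
theorem rf24h21 : AllL LnOK rf24l4 := batch_of rf24th.2.2.2.2.1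
theorem rf24h22 : AllL LnOK rf24l5 := batch_of rf24th.2.2.2.2.2.1
theorem rf24h23 : AllL LnOK rf24l6 := batch_of rf24th.2.2.2.2.2.2.1
theorem rf24h24 : AllL LnOK rf24l7 := batch_of rf24th.2.2.2.2.2.2.2.1
theorem rf24h25 : AllL LnOK rf24l8 := batch_of rf24th.2.2.2.2.2.2.2.2.1
theorem rf24h26 : AllL LnOK rf24l9 := batch_of rf24th.2.2.2.2.2.2.2.2.2.1
theorem rf25h0 : AllL LnOK rf25l0 := batch_of rf25th.1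
theorem rf25h1 : AllL LnOK rf25l1 := batch_of rf25th.2.1
theorem rf25h2 : AllL LnOK rf25l10 := batch_of rf25th.2.2.2.2.2.2.2.2.2.2.1
theorem rf25h3 : AllL LnOK rf25l11 := batch_of rf25th.2.2.2.2.2.2.2.2.2.2.2.1
theorem rf25h4 : AllL LnOK rf25l12 := batch_of rf25th.2.2.2.2.2.2.2.2.2.2.2.2.1
theorem rf25h5 : AllL LnOK rf25l13 := batch_of rf25th.2.2.2.2.2.2.2.2.2.2.2.2.2.1
theorem rf25h6 : AllL LnOK rf25l14 := batch_of rf25th.2.2.2.2.2.2.2.2.2.2.2.2.2.2.1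
theorem rf25h7 : AllL LnOK rf25l15 := batch_of rf25th.2.2.2.2.2.2.2.2.2.2.2.2.2.2.2.1
theorem rf25h8 : AllL LnOK rf25l16 := batch_of rf25th.2.2.2.2.2.2.2.2.2.2.2.2.2.2.2.2.1
theorem rf25h9 : AllL LnOK rf25l17 := batch_of rf25th.2.2.2.2.2.2.2.2.2.2.2.2.2.2.2.2.2.1
theorem rf25h10 : AllL LnOK rf25l18 := batch_of rf25th.2.2.2.2.2.2.2.2.2.2.2.2.2.2.2.2.2.2.1
theorem rf25h11 : AllL LnOK rf25l19 := batch_of rf25th.2.2.2.2.2.2.2.2.2.2.2.2.2.2.2.2.2.2.2.1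
theorem rf25h12 : AllL LnOK rf25l2 := batch_of rf25th.2.2.1
theorem rf25h13 : AllL LnOK rf25l20 := batch_of rf25th.2.2.2.2.2.2.2.2.2.2.2.2.2.2.2.2.2.2.2.2.1
theorem rf25h14 : AllL LnOK rf25l21 := batch_of rf25th.2.2.2.2.2.2.2.2.2.2.2.2.2.2.2.2.2.2.2.2.2.1
theorem rf25h15 : AllL LnOK rf25l22 := batch_of rf25th.2.2.2.2.2.2.2.2.2.2.2.2.2.2.2.2.2.2.2.2.2.2.1
theorem rf25h16 : AllL LnOK rf25l23 := batch_of rf25th.2.2.2.2.2.2.2.2.2.2.2.2.2.2.2.2.2.2.2.2.2.2.2.1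
theorem rf25h17 : AllL LnOK rf25l24 := batch_of rf25th.2.2.2.2.2.2.2.2.2.2.2.2.2.2.2.2.2.2.2.2.2.2.2.2.1
theorem rf25h18 : AllL LnOK rf25l25 := batch_of rf25th.2.2.2.2.2.2.2.2.2.2.2.2.2.2.2.2.2.2.2.2.2.2.2.2.2.1
theorem rf25h19 : AllL LnOK rf25l26 := batch_of rf25th.2.2.2.2.2.2.2.2.2.2.2.2.2.2.2.2.2.2.2.2.2.2.2.2.2.2.1
theorem rf25h20 : AllL LnOK rf25l27 := batch_of rf25th.2.2.2.2.2.2.2.2.2.2.2.2.2.2.2.2.2.2.2.2.2.2.2.2.2.2.2.1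
theorem rf25h21 : AllL LnOK rf25l28 := batch_of rf25th.2.2.2.2.2.2.2.2.2.2.2.2.2.2.2.2.2.2.2.2.2.2.2.2.2.2.2.2.1
theorem rf25h22 : AllL LnOK rf25l29 := batch_of rf25th.2.2.2.2.2.2.2.2.2.2.2.2.2.2.2.2.2.2.2.2.2.2.2.2.2.2.2.2.2
theorem rf25h23 : AllL LnOK rf25l3 := batch_of rf25th.2.2.2.1
theorem rf25h24 : AllL LnOK rf25l4 := batch_of rf25th.2.2.2.2.1
theorem rf25h25 : AllL LnOK rf25l5 := batch_of rf25th.2.2.2.2.2.1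
theorem rf25h26 : AllL LnOK rf25l6 := batch_of rf25th.2.2.2.2.2.2.1
theorem rf25h27 : AllL LnOK rf25l7 := batch_of rf25th.2.2.2.2.2.2.2.1
theorem rf25h28 : AllL LnOK rf25l8 := batch_of rf25th.2.2.2.2.2.2.2.2.1
theorem rf25h29 : AllL LnOK rf25l9 := batch_of rf25th.2.2.2.2.2.2.2.2.2.1
theorem rf26h0 : AllL LnOK rf26l0 := batch_of rf26th.1
theorem rf26h1 : AllL LnOK rf26l1 := batch_of rf26th.2.1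
theorem rf26h2 : AllL LnOK rf26l10 := batch_of rf26th.2.2.2.2.2.2.2.2.2.2.1
theorem rf26h3 : AllL LnOK rf26l11 := batch_of rf26th.2.2.2.2.2.2.2.2.2.2.2.1
theorem rf26h4 : AllL LnOK rf26l12 := batch_of rf26th.2.2.2.2.2.2.2.2.2.2.2.2.1
theorem rf26h5 : AllL LnOK rf26l13 := batch_of rf26th.2.2.2.2.2.2.2.2.2.2.2.2.2.1
theorem rf26h6 : AllL LnOK rf26l14 := batch_of rf26th.2.2.2.2.2.2.2.2.2.2.2.2.2.2.1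
theorem rf26h7 : AllL LnOK rf26l15 := batch_of rf26th.2.2.2.2.2.2.2.2.2.2.2.2.2.2.2.1
theorem rf26h8 : AllL LnOK rf26l16 := batch_of rf26th.2.2.2.2.2.2.2.2.2.2.2.2.2.2.2.2.1
theorem rf26h9 : AllL LnOK rf26l17 := batch_of rf26th.2.2.2.2.2.2.2.2.2.2.2.2.2.2.2.2.2.1
theorem rf26h10 : AllL LnOK rf26l18 := batch_of rf26th.2.2.2.2.2.2.2.2.2.2.2.2.2.2.2.2.2.2.1
theorem rf26h11 : AllL LnOK rf26l19 := batch_of rf26th.2.2.2.2.2.2.2.2.2.2.2.2.2.2.2.2.2.2.2.1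
theorem rf26h12 : AllL LnOK rf26l2 := batch_of rf26th.2.2.1
theorem rf26h13 : AllL LnOK rf26l20 := batch_of rf26th.2.2.2.2.2.2.2.2.2.2.2.2.2.2.2.2.2.2.2.2.1
theorem rf26h14 : AllL LnOK rf26l21 := batch_of rf26th.2.2.2.2.2.2.2.2.2.2.2.2.2.2.2.2.2.2.2.2.2.1
theorem rf26h15 : AllL LnOK rf26l22 := batch_of rf26th.2.2.2.2.2.2.2.2.2.2.2.2.2.2.2.2.2.2.2.2.2.2.1
theorem rf26h16 : AllL LnOK rf26l23 := batch_of rf26th.2.2.2.2.2.2.2.2.2.2.2.2.2.2.2.2.2.2.2.2.2.2.2.1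
theorem rf26h17 : AllL LnOK rf26l24 := batch_of rf26th.2.2.2.2.2.2.2.2.2.2.2.2.2.2.2.2.2.2.2.2.2.2.2.2.1
theorem rf26h18 : AllL LnOK rf26l25 := batch_of rf26th.2.2.2.2.2.2.2.2.2.2.2.2.2.2.2.2.2.2.2.2.2.2.2.2.2.1
theorem rf26h19 : AllL LnOK rf26l26 := batch_of rf26th.2.2.2.2.2.2.2.2.2.2.2.2.2.2.2.2.2.2.2.2.2.2.2.2.2.2
theorem rf26h20 : AllL LnOK rf26l3 := batch_of rf26th.2.2.2.1
theorem rf26h21 : AllL LnOK rf26l4 := batch_of rf26th.2.2.2.2.1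
theorem rf26h22 : AllL LnOK rf26l5 := batch_of rf26th.2.2.2.2.2.1
theorem rf26h23 : AllL LnOK rf26l6 := batch_of rf26th.2.2.2.2.2.2.1
theorem rf26h24 : AllL LnOK rf26l7 := batch_of rf26th.2.2.2.2.2.2.2.1
theorem rf26h25 : AllL LnOK rf26l8 := batch_of rf26th.2.2.2.2.2.2.2.2.1
theorem rf26h26 : AllL LnOK rf26l9 := batch_of rf26th.2.2.2.2.2.2.2.2.2.1
theorem rf27h0 : AllL LnOK rf27l0 := batch_of rf27th.1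
theorem rf27h1 : AllL LnOK rf27l1 := batch_of rf27th.2.1
theorem rf27h2 : AllL LnOK rf27l10 := batch_of rf27th.2.2.2.2.2.2.2.2.2.2.1
theorem rf27h3 : AllL LnOK rf27l11 := batch_of rf27th.2.2.2.2.2.2.2.2.2.2.2.1
theorem rf27h4 : AllL LnOK rf27l12 := batch_of rf27th.2.2.2.2.2.2.2.2.2.2.2.2.1
theorem rf27h5 : AllL LnOK rf27l13 := batch_of rf27th.2.2.2.2.2.2.2.2.2.2.2.2.2.1
theorem rf27h6 : AllL LnOK rf27l14 := batch_of rf27th.2.2.2.2.2.2.2.2.2.2.2.2.2.2.1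
theorem rf27h7 : AllL LnOK rf27l15 := batch_of rf27th.2.2.2.2.2.2.2.2.2.2.2.2.2.2.2.1
theorem rf27h8 : AllL LnOK rf27l16 := batch_of rf27th.2.2.2.2.2.2.2.2.2.2.2.2.2.2.2.2.1
theorem rf27h9 : AllL LnOK rf27l17 := batch_of rf27th.2.2.2.2.2.2.2.2.2.2.2.2.2.2.2.2.2.1
theorem rf27h10 : AllL LnOK rf27l18 := batch_of rf27th.2.2.2.2.2.2.2.2.2.2.2.2.2.2.2.2.2.2.1
theorem rf27h11 : AllL LnOK rf27l19 := batch_of rf27th.2.2.2.2.2.2.2.2.2.2.2.2.2.2.2.2.2.2.2.1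
theorem rf27h12 : AllL LnOK rf27l2 := batch_of rf27th.2.2.1
theorem rf27h13 : AllL LnOK rf27l20 := batch_of rf27th.2.2.2.2.2.2.2.2.2.2.2.2.2.2.2.2.2.2.2.2.1
theorem rf27h14 : AllL LnOK rf27l21 := batch_of rf27th.2.2.2.2.2.2.2.2.2.2.2.2.2.2.2.2.2.2.2.2.2.1
theorem rf27h15 : AllL LnOK rf27l22 := batch_of rf27th.2.2.2.2.2.2.2.2.2.2.2.2.2.2.2.2.2.2.2.2.2.2.1
theorem rf27h16 : AllL LnOK rf27l23 := batch_of rf27th.2.2.2.2.2.2.2.2.2.2.2.2.2.2.2.2.2.2.2.2.2.2.2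
theorem rf27h17 : AllL LnOK rf27l3 := batch_of rf27th.2.2.2.1
theorem rf27h18 : AllL LnOK rf27l4 := batch_of rf27th.2.2.2.2.1
theorem rf27h19 : AllL LnOK rf27l5 := batch_of rf27th.2.2.2.2.2.1
theorem rf27h20 : AllL LnOK rf27l6 := batch_of rf27th.2.2.2.2.2.2.1
theorem rf27h21 : AllL LnOK rf27l7 := batch_of rf27th.2.2.2.2.2.2.2.1
theorem rf27h22 : AllL LnOK rf27l8 := batch_of rf27th.2.2.2.2.2.2.2.2.1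
theorem rf27h23 : AllL LnOK rf27l9 := batch_of rf27th.2.2.2.2.2.2.2.2.2.1
theorem rf24k0 : CfgOK (rf24c0.e, rf24c0.n) := red_ln rf24h15.2.1 rf24h15.2.1.1
theorem rf24k1 : CfgOK (rf24c1.e, rf24c1.n) := red_ln rf24h15.1 rf24h15.1.1
theorem rf24k2 : CfgOK (rf24c2.e, rf24c2.n) := red_ln rf24h14.2.1 rf24h14.2.1.1
theorem rf24k3 : CfgOK (rf24c3.e, rf24c3.n) := red_ln rf24h14.1 rf24h14.1.1
theorem rf24k4 : CfgOK (rf24c4.e, rf24c4.n) := red_ln rf24h13.2.1 rf24h13.2.1.1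
theorem rf24k5 : CfgOK (rf24c5.e, rf24c5.n) := red_ln rf24h13.1 rf24h13.1.1
theorem rf24k6 : CfgOK (rf24c6.e, rf24c6.n) := red_ln rf24h11.2.1 ⟨rf24h11.2.1.1, rf24h16.2.2.2.2.2.2.2.2.2.2.2.2.2.2.2.2.2.2.2.2.2.2.1.1⟩
theorem rf24k7 : CfgOK (rf24c7.e, rf24c7.n) := red_ln rf24h11.1 ⟨rf24h11.1.1, rf24h16.2.2.2.2.2.2.2.2.2.2.2.2.2.2.2.2.2.2.2.2.2.1.1⟩
theorem rf24k8 : CfgOK (rf24c8.e, rf24c8.n) := red_ln rf24h10.2.1 ⟨rf24h10.2.1.1, rf24h16.2.2.2.2.2.2.2.2.2.2.2.2.2.2.2.2.2.2.2.2.1.1⟩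
theorem rf24k9 : CfgOK (rf24c9.e, rf24c9.n) := red_ln rf24h10.1 ⟨rf24h10.1.1, rf24h16.2.2.2.2.2.2.2.2.2.2.2.2.2.2.2.2.2.2.2.1.1⟩
theorem rf24k10 : CfgOK (rf24c10.e, rf24c10.n) := red_ln rf24h9.2.1 ⟨rf24h9.2.1.1, rf24h16.2.2.2.2.2.2.2.2.2.2.2.2.2.2.2.2.2.2.1.1⟩
theorem rf24k11 : CfgOK (rf24c11.e, rf24c11.n) := red_ln rf24h9.1 ⟨rf24h9.1.1, rf24h16.2.2.2.2.2.2.2.2.2.2.2.2.2.2.2.2.2.1.1⟩
theorem rf24k12 : CfgOK (rf24c12.e, rf24c12.n) := red_ln rf24h8.2.1 ⟨rf24h8.2.1.1, rf24h16.2.2.2.2.2.2.2.2.2.2.2.2.2.2.2.2.1.1⟩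
theorem rf24k13 : CfgOK (rf24c13.e, rf24c13.n) := red_ln rf24h8.1 ⟨rf24h8.1.1, rf24h16.2.2.2.2.2.2.2.2.2.2.2.2.2.2.2.1.1⟩
theorem rf24k14 : CfgOK (rf24c14.e, rf24c14.n) := red_ln rf24h7.2.1 ⟨rf24h7.2.1.1, rf24h16.2.2.2.2.2.2.2.2.2.2.2.2.2.2.1.1⟩
theorem rf24k15 : CfgOK (rf24c15.e, rf24c15.n) := red_ln rf24h7.1 ⟨⟨rf24h7.1.1, rf24h17.2.2.2.2.1.1⟩, ⟨rf24h16.2.2.2.2.2.2.2.2.2.2.2.2.2.1.1, rf24h18.2.2.2.1.1⟩⟩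
theorem rf24k16 : CfgOK (rf24c16.e, rf24c16.n) := red_ln rf24h6.2.1 ⟨rf24h6.2.1.1, rf24h19.2.1.1⟩
theorem rf24k17 : CfgOK (rf24c17.e, rf24c17.n) := red_ln rf24h6.1 ⟨⟨rf24h6.1.1, rf24h17.2.2.2.1.1⟩, ⟨rf24h16.2.2.2.2.2.2.2.2.2.2.2.2.1.1, rf24h18.2.2.1.1⟩⟩
theorem rf24k18 : CfgOK (rf24c18.e, rf24c18.n) := red_ln rf24h5.2.1 ⟨rf24h5.2.1.1, rf24h19.1.1⟩
theorem rf24k19 : CfgOK (rf24c19.e, rf24c19.n) := red_ln rf24h5.1 rf24h5.1.1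
theorem rf24k20 : CfgOK (rf24c20.e, rf24c20.n) := red_ln rf24h4.2.1 rf24h4.2.1.1
theorem rf24k21 : CfgOK (rf24c21.e, rf24c21.n) := red_ln rf24h4.1 rf24h4.1.1
theorem rf24k22 : CfgOK (rf24c22.e, rf24c22.n) := red_ln rf24h3.2.1 rf24h3.2.1.1
theorem rf24k23 : CfgOK (rf24c23.e, rf24c23.n) := red_ln rf24h3.1 rf24h3.1.1
theorem rf24k24 : CfgOK (rf24c24.e, rf24c24.n) := red_ln rf24h2.2.1 rf24h2.2.1.1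
theorem rf24k25 : CfgOK (rf24c25.e, rf24c25.n) := red_ln rf24h2.1 rf24h2.1.1
theorem rf24k26 : CfgOK (rf24c26.e, rf24c26.n) := red_ln rf24h26.2.1 rf24h26.2.1.1
theorem rf24k27 : CfgOK (rf24c27.e, rf24c27.n) := red_ln rf24h26.1 rf24h26.1.1
theorem rf24k28 : CfgOK (rf24c28.e, rf24c28.n) := red_ln rf24h25.2.1 rf24h25.2.1.1
theorem rf24k29 : CfgOK (rf24c29.e, rf24c29.n) := red_ln rf24h25.1 rf24h25.1.1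
theorem rf24k30 : CfgOK (rf24c30.e, rf24c30.n) := red_ln rf24h24.2.1 rf24h24.2.1.1
theorem rf24k31 : CfgOK (rf24c31.e, rf24c31.n) := red_ln rf24h24.1 rf24h24.1.1
theorem rf24k32 : CfgOK (rf24c32.e, rf24c32.n) := red_ln rf24h23.2.1 rf24h23.2.1.1
theorem rf24k33 : CfgOK (rf24c33.e, rf24c33.n) := red_ln rf24h23.1 ⟨rf24h23.1.1, rf24h16.2.2.2.2.2.2.2.2.2.2.2.1.1⟩
theorem rf24k34 : CfgOK (rf24c34.e, rf24c34.n) := red_ln rf24h22.2.1 ⟨rf24h22.2.1.1, rf24h16.2.2.2.2.2.2.2.2.2.2.1.1⟩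
theorem rf24k35 : CfgOK (rf24c35.e, rf24c35.n) := red_ln rf24h22.1 ⟨rf24h22.1.1, rf24h16.2.2.2.2.2.2.2.2.2.1.1⟩
theorem rf24k36 : CfgOK (rf24c36.e, rf24c36.n) := red_ln rf24h21.2.1 ⟨rf24h21.2.1.1, rf24h16.2.2.2.2.2.2.2.2.1.1⟩
theorem rf24k37 : CfgOK (rf24c37.e, rf24c37.n) := red_ln rf24h21.1 ⟨rf24h21.1.1, rf24h16.2.2.2.2.2.2.2.1.1⟩
theorem rf24k38 : CfgOK (rf24c38.e, rf24c38.n) := red_ln rf24h20.2.1 ⟨rf24h20.2.1.1, rf24h16.2.2.2.2.2.2.1.1⟩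
theorem rf24k39 : CfgOK (rf24c39.e, rf24c39.n) := red_ln rf24h20.1 ⟨rf24h20.1.1, rf24h16.2.2.2.2.2.1.1⟩
theorem rf24k40 : CfgOK (rf24c40.e, rf24c40.n) := red_ln rf24h12.2.1 ⟨rf24h12.2.1.1, rf24h16.2.2.2.2.1.1⟩
theorem rf24k41 : CfgOK (rf24c41.e, rf24c41.n) := red_ln rf24h12.1 ⟨rf24h12.1.1, rf24h16.2.2.2.1.1⟩
theorem rf24k42 : CfgOK (rf24c42.e, rf24c42.n) := red_ln rf24h1.2.1 ⟨rf24h1.2.1.1, rf24h16.2.2.1.1⟩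
theorem rf24k43 : CfgOK (rf24c43.e, rf24c43.n) := red_ln rf24h1.1 ⟨rf24h1.1.1, rf24h17.2.2.1.1⟩
theorem rf24k44 : CfgOK (rf24c44.e, rf24c44.n) := red_ln rf24h0.2.1 ⟨⟨rf24h0.2.1.1, rf24h17.2.1.1⟩, ⟨rf24h16.2.1.1, rf24h18.2.1.1⟩⟩
theorem rf24k45 : CfgOK (rf24c45.e, rf24c45.n) := red_ln rf24h0.1 ⟨⟨rf24h0.1.1, rf24h17.1.1⟩, ⟨rf24h16.1.1, rf24h18.1.1⟩⟩
theorem rf25k0 : CfgOK (rf25c0.e, rf25c0.n) := red_ln rf25h18.1 ⟨⟨rf25h18.1.1, rf25h19.1.1⟩, ⟨rf25h20.2.2.2.2.2.2.2.2.2.2.2.2.2.1.1, rf25h21.2.2.2.1.1⟩⟩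
theorem rf25k1 : CfgOK (rf25c1.e, rf25c1.n) := red_ln rf25h17.2.1 ⟨⟨rf25h17.2.1.1, rf25h22.1.1⟩, ⟨rf25h20.2.2.2.2.2.2.2.2.2.2.2.2.1.1, rf25h21.2.2.1.1⟩⟩
theorem rf25k2 : CfgOK (rf25c2.e, rf25c2.n) := red_ln rf25h17.1 rf25h17.1.1
theorem rf25k3 : CfgOK (rf25c3.e, rf25c3.n) := red_ln rf25h16.2.1 rf25h16.2.1.1
theorem rf25k4 : CfgOK (rf25c4.e, rf25c4.n) := red_ln rf25h16.1 rf25h16.1.1
theorem rf25k5 : CfgOK (rf25c5.e, rf25c5.n) := red_ln rf25h15.2.1 rf25h15.2.1.1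
theorem rf25k6 : CfgOK (rf25c6.e, rf25c6.n) := red_ln rf25h15.1 ⟨rf25h15.1.1, rf25h20.2.2.2.2.2.2.2.2.2.2.2.1.1⟩
theorem rf25k7 : CfgOK (rf25c7.e, rf25c7.n) := red_ln rf25h14.2.1 ⟨rf25h14.2.1.1, rf25h20.2.2.2.2.2.2.2.2.2.2.1.1⟩
theorem rf25k8 : CfgOK (rf25c8.e, rf25c8.n) := red_ln rf25h14.1 ⟨rf25h14.1.1, rf25h20.2.2.2.2.2.2.2.2.2.1.1⟩
theorem rf25k9 : CfgOK (rf25c9.e, rf25c9.n) := red_ln rf25h13.2.1 ⟨⟨rf25h13.2.1.1, rf25h19.2.1.1⟩, ⟨rf25h20.2.2.2.2.2.2.2.2.1.1, rf25h21.2.1.1⟩⟩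
theorem rf25k10 : CfgOK (rf25c10.e, rf25c10.n) := red_ln rf25h13.1 ⟨rf25h13.1.1, rf25h22.2.1.1⟩
theorem rf25k11 : CfgOK (rf25c11.e, rf25c11.n) := red_ln rf25h11.1 rf25h11.1.1
theorem rf25k12 : CfgOK (rf25c12.e, rf25c12.n) := red_ln rf25h10.1 rf25h10.1.1
theorem rf25k13 : CfgOK (rf25c13.e, rf25c13.n) := red_ln rf25h9.1 rf25h9.1.1
theorem rf25k14 : CfgOK (rf25c14.e, rf25c14.n) := red_ln rf25h8.1 rf25h8.1.1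
theorem rf25k15 : CfgOK (rf25c15.e, rf25c15.n) := red_ln rf25h7.1 rf25h7.1.1
theorem rf25k16 : CfgOK (rf25c16.e, rf25c16.n) := red_ln rf25h6.1 ⟨rf25h6.1.1, rf25h20.2.2.2.2.2.2.2.1.1⟩
theorem rf25k17 : CfgOK (rf25c17.e, rf25c17.n) := red_ln rf25h5.1 ⟨rf25h5.1.1, rf25h20.2.2.2.2.2.2.1.1⟩
theorem rf25k18 : CfgOK (rf25c18.e, rf25c18.n) := red_ln rf25h4.1 ⟨rf25h4.1.1, rf25h20.2.2.2.2.2.1.1⟩
theorem rf25k19 : CfgOK (rf25c19.e, rf25c19.n) := red_ln rf25h3.1 ⟨rf25h3.1.1, rf25h20.2.2.2.2.1.1⟩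
theorem rf25k20 : CfgOK (rf25c20.e, rf25c20.n) := red_ln rf25h2.1 ⟨⟨rf25h2.1.1, rf25h20.2.2.2.1.1⟩, ⟨rf25h19.2.2.1.1, rf25h21.1.1⟩⟩
theorem rf25k21 : CfgOK (rf25c21.e, rf25c21.n) := red_ln rf25h29.1 rf25h29.1.1
theorem rf25k22 : CfgOK (rf25c22.e, rf25c22.n) := red_ln rf25h28.1 rf25h28.1.1
theorem rf25k23 : CfgOK (rf25c23.e, rf25c23.n) := red_ln rf25h27.1 rf25h27.1.1
theorem rf25k24 : CfgOK (rf25c24.e, rf25c24.n) := red_ln rf25h26.1 rf25h26.1.1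
theorem rf25k25 : CfgOK (rf25c25.e, rf25c25.n) := red_ln rf25h25.1 ⟨rf25h25.1.1, rf25h20.2.2.1.1⟩
theorem rf25k26 : CfgOK (rf25c26.e, rf25c26.n) := red_ln rf25h24.1 ⟨rf25h24.1.1, rf25h20.2.1.1⟩
theorem rf25k27 : CfgOK (rf25c27.e, rf25c27.n) := red_ln rf25h23.1 ⟨rf25h23.1.1, rf25h20.1.1⟩
theorem rf25k28 : CfgOK (rf25c28.e, rf25c28.n) := red_ln rf25h12.1 rf25h12.1.1
theorem rf25k29 : CfgOK (rf25c29.e, rf25c29.n) := red_ln rf25h1.1 rf25h1.1.1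
theorem rf25k30 : CfgOK (rf25c30.e, rf25c30.n) := red_ln rf25h0.1 rf25h0.1.1
theorem rf26k0 : CfgOK (rf26c0.e, rf26c0.n) := red_ln rf26h15.1 rf26h15.1.1
theorem rf26k1 : CfgOK (rf26c1.e, rf26c1.n) := red_ln rf26h14.1 rf26h14.1.1
theorem rf26k2 : CfgOK (rf26c2.e, rf26c2.n) := red_ln rf26h13.1 rf26h13.1.1
theorem rf26k3 : CfgOK (rf26c3.e, rf26c3.n) := red_ln rf26h11.1 ⟨rf26h11.1.1, rf26h16.2.2.2.2.2.2.1.1⟩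
theorem rf26k4 : CfgOK (rf26c4.e, rf26c4.n) := red_ln rf26h10.1 ⟨⟨rf26h10.1.1, rf26h17.2.2.1.1⟩, ⟨rf26h16.2.2.2.2.2.1.1, rf26h19.2.1.1⟩⟩
theorem rf26k5 : CfgOK (rf26c5.e, rf26c5.n) := red_ln rf26h9.1 rf26h9.1.1
theorem rf26k6 : CfgOK (rf26c6.e, rf26c6.n) := red_ln rf26h8.1 rf26h8.1.1
theorem rf26k7 : CfgOK (rf26c7.e, rf26c7.n) := red_ln rf26h7.1 rf26h7.1.1
theorem rf26k8 : CfgOK (rf26c8.e, rf26c8.n) := red_ln rf26h6.1 ⟨rf26h6.1.1, rf26h16.2.2.2.2.1.1⟩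
theorem rf26k9 : CfgOK (rf26c9.e, rf26c9.n) := red_ln rf26h5.1 ⟨rf26h5.1.1, rf26h16.2.2.2.1.1⟩
theorem rf26k10 : CfgOK (rf26c10.e, rf26c10.n) := red_ln rf26h4.1 ⟨rf26h4.1.1, rf26h18.1.1⟩
theorem rf26k11 : CfgOK (rf26c11.e, rf26c11.n) := red_ln rf26h3.1 ⟨⟨rf26h3.1.1, rf26h17.2.1.1⟩, ⟨rf26h16.2.2.1.1, rf26h19.1.1⟩⟩
theorem rf26k12 : CfgOK (rf26c12.e, rf26c12.n) := red_ln rf26h2.1 rf26h2.1.1
theorem rf26k13 : CfgOK (rf26c13.e, rf26c13.n) := red_ln rf26h26.1 rf26h26.1.1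
theorem rf26k14 : CfgOK (rf26c14.e, rf26c14.n) := red_ln rf26h25.1 rf26h25.1.1
theorem rf26k15 : CfgOK (rf26c15.e, rf26c15.n) := red_ln rf26h24.1 rf26h24.1.1
theorem rf26k16 : CfgOK (rf26c16.e, rf26c16.n) := red_ln rf26h23.1 ⟨rf26h23.1.1, rf26h16.2.1.1⟩
theorem rf26k17 : CfgOK (rf26c17.e, rf26c17.n) := red_ln rf26h22.1 rf26h22.1.1
theorem rf26k18 : CfgOK (rf26c18.e, rf26c18.n) := red_ln rf26h21.1 rf26h21.1.1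
theorem rf26k19 : CfgOK (rf26c19.e, rf26c19.n) := red_ln rf26h20.1 ⟨rf26h20.1.1, rf26h16.1.1⟩
theorem rf26k20 : CfgOK (rf26c20.e, rf26c20.n) := red_ln rf26h12.1 ⟨rf26h12.1.1, rf26h17.1.1⟩
theorem rf26k21 : CfgOK (rf26c21.e, rf26c21.n) := red_ln rf26h1.1 rf26h1.1.1
theorem rf26k22 : CfgOK (rf26c22.e, rf26c22.n) := red_ln rf26h0.1 rf26h0.1.1
theorem rf27k0 : CfgOK (rf27c0.e, rf27c0.n) := red_ln rf27h10.1 rf27h10.1.1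
theorem rf27k1 : CfgOK (rf27c1.e, rf27c1.n) := red_ln rf27h9.1 rf27h9.1.1
theorem rf27k2 : CfgOK (rf27c2.e, rf27c2.n) := red_ln rf27h8.1 rf27h8.1.1
theorem rf27k3 : CfgOK (rf27c3.e, rf27c3.n) := red_ln rf27h7.1 ⟨⟨rf27h7.1.1, rf27h11.1.1⟩, ⟨rf27h13.2.2.2.2.2.2.2.2.2.1.1, rf27h14.1.1⟩⟩
theorem rf27k4 : CfgOK (rf27c4.e, rf27c4.n) := red_ln rf27h6.1 rf27h6.1.1
theorem rf27k5 : CfgOK (rf27c5.e, rf27c5.n) := red_ln rf27h5.1 rf27h5.1.1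
theorem rf27k6 : CfgOK (rf27c6.e, rf27c6.n) := red_ln rf27h4.1 rf27h4.1.1
theorem rf27k7 : CfgOK (rf27c7.e, rf27c7.n) := red_ln rf27h3.1 ⟨rf27h3.1.1, rf27h13.2.2.2.2.2.2.2.2.1.1⟩
theorem rf27k8 : CfgOK (rf27c8.e, rf27c8.n) := red_ln rf27h2.1 ⟨rf27h2.1.1, rf27h13.2.2.2.2.2.2.2.1.1⟩
theorem rf27k9 : CfgOK (rf27c9.e, rf27c9.n) := red_ln rf27h23.1 ⟨rf27h23.1.1, rf27h13.2.2.2.2.2.2.1.1⟩
theorem rf27k10 : CfgOK (rf27c10.e, rf27c10.n) := red_ln rf27h22.1 ⟨rf27h22.1.1, rf27h13.2.2.2.2.2.1.1⟩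
theorem rf27k11 : CfgOK (rf27c11.e, rf27c11.n) := red_ln rf27h21.1 ⟨rf27h21.1.1, rf27h13.2.2.2.2.1.1⟩
theorem rf27k12 : CfgOK (rf27c12.e, rf27c12.n) := red_ln rf27h20.1 ⟨⟨rf27h20.1.1, rf27h15.1.1⟩, ⟨rf27h11.2.1.1, rf27h16.1.1⟩⟩
theorem rf27k13 : CfgOK (rf27c13.e, rf27c13.n) := red_ln rf27h19.1 rf27h19.1.1
theorem rf27k14 : CfgOK (rf27c14.e, rf27c14.n) := red_ln rf27h18.1 ⟨rf27h18.1.1, rf27h13.2.2.2.1.1⟩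
theorem rf27k15 : CfgOK (rf27c15.e, rf27c15.n) := red_ln rf27h17.1 ⟨rf27h17.1.1, rf27h13.2.2.1.1⟩
theorem rf27k16 : CfgOK (rf27c16.e, rf27c16.n) := red_ln rf27h12.1 ⟨rf27h12.1.1, rf27h13.2.1.1⟩
theorem rf27k17 : CfgOK (rf27c17.e, rf27c17.n) := red_ln rf27h1.1 ⟨rf27h1.1.1, rf27h13.1.1⟩
theorem rf27k18 : CfgOK (rf27c18.e, rf27c18.n) := red_ln rf27h0.1 rf27h0.1.1

end Pool.Agent.Lib.G6.B
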