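import Pool.Agent.Lib.G6.BRed
import Pool.Agent.Lib.G6D.RF28
import Pool.Agent.Lib.G6D.RF29
import Pool.Agent.Lib.G6D.RF30
import Pool.Agent.Lib.G6D.RF31

set_option autoImplicit false
set_option maxRecDepth 100000
set_option linter.all false

namespace Pool.Agent.Lib.G6.B

theorem rf28h0 : AllL LnOK rf28l18 := batch_of rf28th.2.2.2.2.2.2.2.2.2.2.2.2.2.2.2.2.2.2.1
theorem rf28h1 : AllL LnOK rf28l19 := batch_of rf28th.2.2.2.2.2.2.2.2.2.2.2.2.2.2.2.2.2.2.2.1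
theorem rf28h2 : AllL LnOK rf28l20 := batch_of rf28th.2.2.2.2.2.2.2.2.2.2.2.2.2.2.2.2.2.2.2.2.1
theorem rf28h3 : AllL LnOK rf28l21 := batch_of rf28th.2.2.2.2.2.2.2.2.2.2.2.2.2.2.2.2.2.2.2.2.2.1
theorem rf28h4 : AllL LnOK rf28l22 := batch_of rf28th.2.2.2.2.2.2.2.2.2.2.2.2.2.2.2.2.2.2.2.2.2.2.1
theorem rf28h5 : AllL LnOK rf28l23 := batch_of rf28th.2.2.2.2.2.2.2.2.2.2.2.2.2.2.2.2.2.2.2.2.2.2.2.1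
theorem rf28h6 : AllL LnOK rf28l24 := batch_of rf28th.2.2.2.2.2.2.2.2.2.2.2.2.2.2.2.2.2.2.2.2.2.2.2.2
theorem rf28h7 : AllL LnOK rf28l0 := ck2_of (ck0_of rf28th.1) rf28th.2.1
theorem rf28h8 : AllL LnOK rf28l10 := ck2_of (ck0_of rf28th.2.2.2.2.2.2.2.2.2.2.1) rf28th.2.2.2.2.2.2.2.2.2.2.2.1
theorem rf28h9 : AllL LnOK rf28l12 := ck2_of (ck0_of rf28th.2.2.2.2.2.2.2.2.2.2.2.2.1) rf28th.2.2.2.2.2.2.2.2.2.2.2.2.2.1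
theorem rf28h10 : AllL LnOK rf28l14 := ck2_of (ck0_of rf28th.2.2.2.2.2.2.2.2.2.2.2.2.2.2.1) rf28th.2.2.2.2.2.2.2.2.2.2.2.2.2.2.2.1
theorem rf28h11 : AllL LnOK rf28l16 := ck2_of (ck0_of rf28th.2.2.2.2.2.2.2.2.2.2.2.2.2.2.2.2.1) rf28th.2.2.2.2.2.2.2.2.2.2.2.2.2.2.2.2.2.1
theorem rf28h12 : AllL LnOK rf28l2 := ck2_of (ck0_of rf28th.2.2.1) rf28th.2.2.2.1
theorem rf28h13 : AllL LnOK rf28l4 := ck2_of (ck0_of rf28th.2.2.2.2.1) rf28th.2.2.2.2.2.1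
theorem rf28h14 : AllL LnOK rf28l6 := ck2_of (ck0_of rf28th.2.2.2.2.2.2.1) rf28th.2.2.2.2.2.2.2.1
theorem rf28h15 : AllL LnOK rf28l8 := ck2_of (ck0_of rf28th.2.2.2.2.2.2.2.2.1) rf28th.2.2.2.2.2.2.2.2.2.1
theorem rf29h0 : AllL LnOK rf29l10 := batch_of rf29th.2.2.2.2.2.2.2.2.2.2.1
theorem rf29h1 : AllL LnOK rf29l11 := batch_of rf29th.2.2.2.2.2.2.2.2.2.2.2.1
theorem rf29h2 : AllL LnOK rf29l12 := batch_of rf29th.2.2.2.2.2.2.2.2.2.2.2.2.1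
theorem rf29h3 : AllL LnOK rf29l13 := batch_of rf29th.2.2.2.2.2.2.2.2.2.2.2.2.2.1
theorem rf29h4 : AllL LnOK rf29l14 := batch_of rf29th.2.2.2.2.2.2.2.2.2.2.2.2.2.2.1
theorem rf29h5 : AllL LnOK rf29l15 := batch_of rf29th.2.2.2.2.2.2.2.2.2.2.2.2.2.2.2.1
theorem rf29h6 : AllL LnOK rf29l16 := batch_of rf29th.2.2.2.2.2.2.2.2.2.2.2.2.2.2.2.2.1
theorem rf29h7 : AllL LnOK rf29l17 := batch_of rf29th.2.2.2.2.2.2.2.2.2.2.2.2.2.2.2.2.2.1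
theorem rf29h8 : AllL LnOK rf29l18 := batch_of rf29th.2.2.2.2.2.2.2.2.2.2.2.2.2.2.2.2.2.2.1
theorem rf29h9 : AllL LnOK rf29l19 := batch_of rf29th.2.2.2.2.2.2.2.2.2.2.2.2.2.2.2.2.2.2.2.1
theorem rf29h10 : AllL LnOK rf29l20 := batch_of rf29th.2.2.2.2.2.2.2.2.2.2.2.2.2.2.2.2.2.2.2.2.1
theorem rf29h11 : AllL LnOK rf29l21 := batch_of rf29th.2.2.2.2.2.2.2.2.2.2.2.2.2.2.2.2.2.2.2.2.2.1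
theorem rf29h12 : AllL LnOK rf29l22 := batch_of rf29th.2.2.2.2.2.2.2.2.2.2.2.2.2.2.2.2.2.2.2.2.2.2.1
theorem rf29h13 : AllL LnOK rf29l23 := batch_of rf29th.2.2.2.2.2.2.2.2.2.2.2.2.2.2.2.2.2.2.2.2.2.2.2.1
theorem rf29h14 : AllL LnOK rf29l24 := batch_of rf29th.2.2.2.2.2.2.2.2.2.2.2.2.2.2.2.2.2.2.2.2.2.2.2.2.1
theorem rf29h15 : AllL LnOK rf29l25 := batch_of rf29th.2.2.2.2.2.2.2.2.2.2.2.2.2.2.2.2.2.2.2.2.2.2.2.2.2.1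
theorem rf29h16 : AllL LnOK rf29l26 := batch_of rf29th.2.2.2.2.2.2.2.2.2.2.2.2.2.2.2.2.2.2.2.2.2.2.2.2.2.2.1
theorem rf29h17 : AllL LnOK rf29l27 := batch_of rf29th.2.2.2.2.2.2.2.2.2.2.2.2.2.2.2.2.2.2.2.2.2.2.2.2.2.2.2.1
theorem rf29h18 : AllL LnOK rf29l28 := batch_of rf29th.2.2.2.2.2.2.2.2.2.2.2.2.2.2.2.2.2.2.2.2.2.2.2.2.2.2.2.2.1
theorem rf29h19 : AllL LnOK rf29l29 := batch_of rf29th.2.2.2.2.2.2.2.2.2.2.2.2.2.2.2.2.2.2.2.2.2.2.2.2.2.2.2.2.2.1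
theorem rf29h20 : AllL LnOK rf29l30 := batch_of rf29th.2.2.2.2.2.2.2.2.2.2.2.2.2.2.2.2.2.2.2.2.2.2.2.2.2.2.2.2.2.2.1
theorem rf29h21 : AllL LnOK rf29l31 := batch_of rf29th.2.2.2.2.2.2.2.2.2.2.2.2.2.2.2.2.2.2.2.2.2.2.2.2.2.2.2.2.2.2.2.1
theorem rf29h22 : AllL LnOK rf29l32 := batch_of rf29th.2.2.2.2.2.2.2.2.2.2.2.2.2.2.2.2.2.2.2.2.2.2.2.2.2.2.2.2.2.2.2.2.1
theorem rf29h23 : AllL LnOK rf29l33 := batch_of rf29th.2.2.2.2.2.2.2.2.2.2.2.2.2.2.2.2.2.2.2.2.2.2.2.2.2.2.2.2.2.2.2.2.2.1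
theorem rf29h24 : AllL LnOK rf29l34 := batch_of rf29th.2.2.2.2.2.2.2.2.2.2.2.2.2.2.2.2.2.2.2.2.2.2.2.2.2.2.2.2.2.2.2.2.2.2.1
theorem rf29h25 : AllL LnOK rf29l35 := batch_of rf29th.2.2.2.2.2.2.2.2.2.2.2.2.2.2.2.2.2.2.2.2.2.2.2.2.2.2.2.2.2.2.2.2.2.2.2.1
theorem rf29h26 : AllL LnOK rf29l36 := batch_of rf29th.2.2.2.2.2.2.2.2.2.2.2.2.2.2.2.2.2.2.2.2.2.2.2.2.2.2.2.2.2.2.2.2.2.2.2.2.1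
theorem rf29h27 : AllL LnOK rf29l37 := batch_of rf29th.2.2.2.2.2.2.2.2.2.2.2.2.2.2.2.2.2.2.2.2.2.2.2.2.2.2.2.2.2.2.2.2.2.2.2.2.2.1
theorem rf29h28 : AllL LnOK rf29l38 := batch_of rf29th.2.2.2.2.2.2.2.2.2.2.2.2.2.2.2.2.2.2.2.2.2.2.2.2.2.2.2.2.2.2.2.2.2.2.2.2.2.2.1
theorem rf29h29 : AllL LnOK rf29l39 := batch_of rf29th.2.2.2.2.2.2.2.2.2.2.2.2.2.2.2.2.2.2.2.2.2.2.2.2.2.2.2.2.2.2.2.2.2.2.2.2.2.2.2.1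
theorem rf29h30 : AllL LnOK rf29l40 := batch_of rf29th.2.2.2.2.2.2.2.2.2.2.2.2.2.2.2.2.2.2.2.2.2.2.2.2.2.2.2.2.2.2.2.2.2.2.2.2.2.2.2.2.1
theorem rf29h31 : AllL LnOK rf29l41 := batch_of rf29th.2.2.2.2.2.2.2.2.2.2.2.2.2.2.2.2.2.2.2.2.2.2.2.2.2.2.2.2.2.2.2.2.2.2.2.2.2.2.2.2.2.1
theorem rf29h32 : AllL LnOK rf29l42 := batch_of rf29th.2.2.2.2.2.2.2.2.2.2.2.2.2.2.2.2.2.2.2.2.2.2.2.2.2.2.2.2.2.2.2.2.2.2.2.2.2.2.2.2.2.2.1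
theorem rf29h33 : AllL LnOK rf29l43 := batch_of rf29th.2.2.2.2.2.2.2.2.2.2.2.2.2.2.2.2.2.2.2.2.2.2.2.2.2.2.2.2.2.2.2.2.2.2.2.2.2.2.2.2.2.2.2.1
theorem rf29h34 : AllL LnOK rf29l44 := batch_of rf29th.2.2.2.2.2.2.2.2.2.2.2.2.2.2.2.2.2.2.2.2.2.2.2.2.2.2.2.2.2.2.2.2.2.2.2.2.2.2.2.2.2.2.2.2
theorem rf29h35 : AllL LnOK rf29l6 := batch_of rf29th.2.2.2.2.2.2.1
theorem rf29h36 : AllL LnOK rf29l7 := batch_of rf29th.2.2.2.2.2.2.2.1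
theorem rf29h37 : AllL LnOK rf29l8 := batch_of rf29th.2.2.2.2.2.2.2.2.1
theorem rf29h38 : AllL LnOK rf29l9 := batch_of rf29th.2.2.2.2.2.2.2.2.2.1
theorem rf29h39 : AllL LnOK rf29l0 := ck2_of (ck0_of rf29th.1) rf29th.2.1
theorem rf29h40 : AllL LnOK rf29l2 := ck2_of (ck0_of rf29th.2.2.1) rf29th.2.2.2.1
theorem rf29h41 : AllL LnOK rf29l4 := ck2_of (ck0_of rf29th.2.2.2.2.1) rf29th.2.2.2.2.2.1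
theorem rf30h0 : AllL LnOK rf30l46 := batch_of rf30th.2.2.2.2.2.2.2.2.2.2.2.2.2.2.2.2.2.2.2.2.2.2.2.2.2.2.2.2.2.2.2.2.2.2.2.2.2.2.2.2.2.2.2.2.2.2.1
theorem rf30h1 : AllL LnOK rf30l47 := batch_of rf30th.2.2.2.2.2.2.2.2.2.2.2.2.2.2.2.2.2.2.2.2.2.2.2.2.2.2.2.2.2.2.2.2.2.2.2.2.2.2.2.2.2.2.2.2.2.2.2.1
theorem rf30h2 : AllL LnOK rf30l48 := batch_of rf30th.2.2.2.2.2.2.2.2.2.2.2.2.2.2.2.2.2.2.2.2.2.2.2.2.2.2.2.2.2.2.2.2.2.2.2.2.2.2.2.2.2.2.2.2.2.2.2.2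
theorem rf30h3 : AllL LnOK rf30l0 := ck2_of (ck0_of rf30th.1) rf30th.2.1
theorem rf30h4 : AllL LnOK rf30l10 := ck2_of (ck0_of rf30th.2.2.2.2.2.2.2.2.2.2.1) rf30th.2.2.2.2.2.2.2.2.2.2.2.1
theorem rf30h5 : AllL LnOK rf30l12 := ck2_of (ck0_of rf30th.2.2.2.2.2.2.2.2.2.2.2.2.1) rf30th.2.2.2.2.2.2.2.2.2.2.2.2.2.1
theorem rf30h6 : AllL LnOK rf30l14 := ck2_of (ck0_of rf30th.2.2.2.2.2.2.2.2.2.2.2.2.2.2.1) rf30th.2.2.2.2.2.2.2.2.2.2.2.2.2.2.2.1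
theorem rf30h7 : AllL LnOK rf30l16 := ck2_of (ck0_of rf30th.2.2.2.2.2.2.2.2.2.2.2.2.2.2.2.2.1) rf30th.2.2.2.2.2.2.2.2.2.2.2.2.2.2.2.2.2.1
theorem rf30h8 : AllL LnOK rf30l18 := ck2_of (ck0_of rf30th.2.2.2.2.2.2.2.2.2.2.2.2.2.2.2.2.2.2.1) rf30th.2.2.2.2.2.2.2.2.2.2.2.2.2.2.2.2.2.2.2.1
theorem rf30h9 : AllL LnOK rf30l2 := ck2_of (ck0_of rf30th.2.2.1) rf30th.2.2.2.1
theorem rf30h10 : AllL LnOK rf30l20 := ck2_of (ck0_of rf30th.2.2.2.2.2.2.2.2.2.2.2.2.2.2.2.2.2.2.2.2.1) rf30th.2.2.2.2.2.2.2.2.2.2.2.2.2.2.2.2.2.2.2.2.2.1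
theorem rf30h11 : AllL LnOK rf30l22 := ck2_of (ck0_of rf30th.2.2.2.2.2.2.2.2.2.2.2.2.2.2.2.2.2.2.2.2.2.2.1) rf30th.2.2.2.2.2.2.2.2.2.2.2.2.2.2.2.2.2.2.2.2.2.2.2.1
theorem rf30h12 : AllL LnOK rf30l24 := ck2_of (ck0_of rf30th.2.2.2.2.2.2.2.2.2.2.2.2.2.2.2.2.2.2.2.2.2.2.2.2.1) rf30th.2.2.2.2.2.2.2.2.2.2.2.2.2.2.2.2.2.2.2.2.2.2.2.2.2.1
theorem rf30h13 : AllL LnOK rf30l26 := ck2_of (ck0_of rf30th.2.2.2.2.2.2.2.2.2.2.2.2.2.2.2.2.2.2.2.2.2.2.2.2.2.2.1) rf30th.2.2.2.2.2.2.2.2.2.2.2.2.2.2.2.2.2.2.2.2.2.2.2.2.2.2.2.1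
theorem rf30h14 : AllL LnOK rf30l28 := ck2_of (ck0_of rf30th.2.2.2.2.2.2.2.2.2.2.2.2.2.2.2.2.2.2.2.2.2.2.2.2.2.2.2.2.1) rf30th.2.2.2.2.2.2.2.2.2.2.2.2.2.2.2.2.2.2.2.2.2.2.2.2.2.2.2.2.2.1
theorem rf30h15 : AllL LnOK rf30l30 := ck2_of (ck0_of rf30th.2.2.2.2.2.2.2.2.2.2.2.2.2.2.2.2.2.2.2.2.2.2.2.2.2.2.2.2.2.2.1) rf30th.2.2.2.2.2.2.2.2.2.2.2.2.2.2.2.2.2.2.2.2.2.2.2.2.2.2.2.2.2.2.2.1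
theorem rf30h16 : AllL LnOK rf30l32 := ck2_of (ck0_of rf30th.2.2.2.2.2.2.2.2.2.2.2.2.2.2.2.2.2.2.2.2.2.2.2.2.2.2.2.2.2.2.2.2.1) rf30th.2.2.2.2.2.2.2.2.2.2.2.2.2.2.2.2.2.2.2.2.2.2.2.2.2.2.2.2.2.2.2.2.2.1
theorem rf30h17 : AllL LnOK rf30l34 := ck2_of (ck0_of rf30th.2.2.2.2.2.2.2.2.2.2.2.2.2.2.2.2.2.2.2.2.2.2.2.2.2.2.2.2.2.2.2.2.2.2.1) rf30th.2.2.2.2.2.2.2.2.2.2.2.2.2.2.2.2.2.2.2.2.2.2.2.2.2.2.2.2.2.2.2.2.2.2.2.1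
theorem rf30h18 : AllL LnOK rf30l36 := ck2_of (ck0_of rf30th.2.2.2.2.2.2.2.2.2.2.2.2.2.2.2.2.2.2.2.2.2.2.2.2.2.2.2.2.2.2.2.2.2.2.2.2.1) rf30th.2.2.2.2.2.2.2.2.2.2.2.2.2.2.2.2.2.2.2.2.2.2.2.2.2.2.2.2.2.2.2.2.2.2.2.2.2.1
theorem rf30h19 : AllL LnOK rf30l38 := ck2_of (ck0_of rf30th.2.2.2.2.2.2.2.2.2.2.2.2.2.2.2.2.2.2.2.2.2.2.2.2.2.2.2.2.2.2.2.2.2.2.2.2.2.2.1) rf30th.2.2.2.2.2.2.2.2.2.2.2.2.2.2.2.2.2.2.2.2.2.2.2.2.2.2.2.2.2.2.2.2.2.2.2.2.2.2.2.1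
theorem rf30h20 : AllL LnOK rf30l4 := ck2_of (ck0_of rf30th.2.2.2.2.1) rf30th.2.2.2.2.2.1
theorem rf30h21 : AllL LnOK rf30l40 := ck2_of (ck0_of rf30th.2.2.2.2.2.2.2.2.2.2.2.2.2.2.2.2.2.2.2.2.2.2.2.2.2.2.2.2.2.2.2.2.2.2.2.2.2.2.2.2.1) rf30th.2.2.2.2.2.2.2.2.2.2.2.2.2.2.2.2.2.2.2.2.2.2.2.2.2.2.2.2.2.2.2.2.2.2.2.2.2.2.2.2.2.1
theorem rf30h22 : AllL LnOK rf30l42 := ck2_of (ck0_of rf30th.2.2.2.2.2.2.2.2.2.2.2.2.2.2.2.2.2.2.2.2.2.2.2.2.2.2.2.2.2.2.2.2.2.2.2.2.2.2.2.2.2.2.1) rf30th.2.2.2.2.2.2.2.2.2.2.2.2.2.2.2.2.2.2.2.2.2.2.2.2.2.2.2.2.2.2.2.2.2.2.2.2.2.2.2.2.2.2.2.1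
theorem rf30h23 : AllL LnOK rf30l44 := ck2_of (ck0_of rf30th.2.2.2.2.2.2.2.2.2.2.2.2.2.2.2.2.2.2.2.2.2.2.2.2.2.2.2.2.2.2.2.2.2.2.2.2.2.2.2.2.2.2.2.2.1) rf30th.2.2.2.2.2.2.2.2.2.2.2.2.2.2.2.2.2.2.2.2.2.2.2.2.2.2.2.2.2.2.2.2.2.2.2.2.2.2.2.2.2.2.2.2.2.1
theorem rf30h24 : AllL LnOK rf30l6 := ck2_of (ck0_of rf30th.2.2.2.2.2.2.1) rf30th.2.2.2.2.2.2.2.1
theorem rf30h25 : AllL LnOK rf30l8 := ck2_of (ck0_of rf30th.2.2.2.2.2.2.2.2.1) rf30th.2.2.2.2.2.2.2.2.2.1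
theorem rf31h0 : AllL LnOK rf31l40 := batch_of rf31th.2.2.2.2.2.2.2.2.2.2.2.2.2.2.2.2.2.2.2.2.2.2.2.2.2.2.2.2.2.2.2.2.2.2.2.2.2.2.2.2
theorem rf31h1 : AllL LnOK rf31l0 := ck2_of (ck0_of rf31th.1) rf31th.2.1
theorem rf31h2 : AllL LnOK rf31l10 := ck2_of (ck0_of rf31th.2.2.2.2.2.2.2.2.2.2.1) rf31th.2.2.2.2.2.2.2.2.2.2.2.1
theorem rf31h3 : AllL LnOK rf31l12 := ck2_of (ck0_of rf31th.2.2.2.2.2.2.2.2.2.2.2.2.1) rf31th.2.2.2.2.2.2.2.2.2.2.2.2.2.1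
theorem rf31h4 : AllL LnOK rf31l14 := ck2_of (ck0_of rf31th.2.2.2.2.2.2.2.2.2.2.2.2.2.2.1) rf31th.2.2.2.2.2.2.2.2.2.2.2.2.2.2.2.1
theorem rf31h5 : AllL LnOK rf31l16 := ck2_of (ck0_of rf31th.2.2.2.2.2.2.2.2.2.2.2.2.2.2.2.2.1) rf31th.2.2.2.2.2.2.2.2.2.2.2.2.2.2.2.2.2.1
theorem rf31h6 : AllL LnOK rf31l18 := ck2_of (ck0_of rf31th.2.2.2.2.2.2.2.2.2.2.2.2.2.2.2.2.2.2.1) rf31th.2.2.2.2.2.2.2.2.2.2.2.2.2.2.2.2.2.2.2.1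
theorem rf31h7 : AllL LnOK rf31l2 := ck2_of (ck0_of rf31th.2.2.1) rf31th.2.2.2.1
theorem rf31h8 : AllL LnOK rf31l20 := ck2_of (ck0_of rf31th.2.2.2.2.2.2.2.2.2.2.2.2.2.2.2.2.2.2.2.2.1) rf31th.2.2.2.2.2.2.2.2.2.2.2.2.2.2.2.2.2.2.2.2.2.1
theorem rf31h9 : AllL LnOK rf31l22 := ck2_of (ck0_of rf31th.2.2.2.2.2.2.2.2.2.2.2.2.2.2.2.2.2.2.2.2.2.2.1) rf31th.2.2.2.2.2.2.2.2.2.2.2.2.2.2.2.2.2.2.2.2.2.2.2.1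
theorem rf31h10 : AllL LnOK rf31l24 := ck2_of (ck0_of rf31th.2.2.2.2.2.2.2.2.2.2.2.2.2.2.2.2.2.2.2.2.2.2.2.2.1) rf31th.2.2.2.2.2.2.2.2.2.2.2.2.2.2.2.2.2.2.2.2.2.2.2.2.2.1
theorem rf31h11 : AllL LnOK rf31l26 := ck2_of (ck0_of rf31th.2.2.2.2.2.2.2.2.2.2.2.2.2.2.2.2.2.2.2.2.2.2.2.2.2.2.1) rf31th.2.2.2.2.2.2.2.2.2.2.2.2.2.2.2.2.2.2.2.2.2.2.2.2.2.2.2.1
theorem rf31h12 : AllL LnOK rf31l28 := ck2_of (ck0_of rf31th.2.2.2.2.2.2.2.2.2.2.2.2.2.2.2.2.2.2.2.2.2.2.2.2.2.2.2.2.1) rf31th.2.2.2.2.2.2.2.2.2.2.2.2.2.2.2.2.2.2.2.2.2.2.2.2.2.2.2.2.2.1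
theorem rf31h13 : AllL LnOK rf31l30 := ck2_of (ck0_of rf31th.2.2.2.2.2.2.2.2.2.2.2.2.2.2.2.2.2.2.2.2.2.2.2.2.2.2.2.2.2.2.1) rf31th.2.2.2.2.2.2.2.2.2.2.2.2.2.2.2.2.2.2.2.2.2.2.2.2.2.2.2.2.2.2.2.1
theorem rf31h14 : AllL LnOK rf31l32 := ck2_of (ck0_of rf31th.2.2.2.2.2.2.2.2.2.2.2.2.2.2.2.2.2.2.2.2.2.2.2.2.2.2.2.2.2.2.2.2.1) rf31th.2.2.2.2.2.2.2.2.2.2.2.2.2.2.2.2.2.2.2.2.2.2.2.2.2.2.2.2.2.2.2.2.2.1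
theorem rf31h15 : AllL LnOK rf31l34 := ck2_of (ck0_of rf31th.2.2.2.2.2.2.2.2.2.2.2.2.2.2.2.2.2.2.2.2.2.2.2.2.2.2.2.2.2.2.2.2.2.2.1) rf31th.2.2.2.2.2.2.2.2.2.2.2.2.2.2.2.2.2.2.2.2.2.2.2.2.2.2.2.2.2.2.2.2.2.2.2.1
theorem rf31h16 : AllL LnOK rf31l36 := ck2_of (ck0_of rf31th.2.2.2.2.2.2.2.2.2.2.2.2.2.2.2.2.2.2.2.2.2.2.2.2.2.2.2.2.2.2.2.2.2.2.2.2.1) rf31th.2.2.2.2.2.2.2.2.2.2.2.2.2.2.2.2.2.2.2.2.2.2.2.2.2.2.2.2.2.2.2.2.2.2.2.2.2.1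
theorem rf31h17 : AllL LnOK rf31l38 := ck2_of (ck0_of rf31th.2.2.2.2.2.2.2.2.2.2.2.2.2.2.2.2.2.2.2.2.2.2.2.2.2.2.2.2.2.2.2.2.2.2.2.2.2.2.1) rf31th.2.2.2.2.2.2.2.2.2.2.2.2.2.2.2.2.2.2.2.2.2.2.2.2.2.2.2.2.2.2.2.2.2.2.2.2.2.2.2.1
theorem rf31h18 : AllL LnOK rf31l4 := ck2_of (ck0_of rf31th.2.2.2.2.1) rf31th.2.2.2.2.2.1
theorem rf31h19 : AllL LnOK rf31l6 := ck2_of (ck0_of rf31th.2.2.2.2.2.2.1) rf31th.2.2.2.2.2.2.2.1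
theorem rf31h20 : AllL LnOK rf31l8 := ck2_of (ck0_of rf31th.2.2.2.2.2.2.2.2.1) rf31th.2.2.2.2.2.2.2.2.2.1
theorem rf28k0 : CfgOK (rf28c0.e, rf28c0.n) := red_ln rf28h4.1 rf28h4.1.1
theorem rf28k1 : CfgOK (rf28c1.e, rf28c1.n) := red_ln rf28h3.1 rf28h3.1.1
theorem rf28k2 : CfgOK (rf28c2.e, rf28c2.n) := red_ln rf28h2.1 ⟨rf28h2.1.1, rf28h5.2.1.1⟩
theorem rf28k3 : CfgOK (rf28c3.e, rf28c3.n) := red_ln rf28h1.1 rf28h1.1.1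
theorem rf28k4 : CfgOK (rf28c4.e, rf28c4.n) := red_ln rf28h0.1 rf28h0.1.1
theorem rf28k5 : CfgOK (rf28c5.e, rf28c5.n) := red_ln rf28h11.1 rf28h11.1.1
theorem rf28k6 : CfgOK (rf28c6.e, rf28c6.n) := red_ln rf28h10.1 rf28h10.1.1
theorem rf28k7 : CfgOK (rf28c7.e, rf28c7.n) := red_ln rf28h9.1 rf28h9.1.1
theorem rf28k8 : CfgOK (rf28c8.e, rf28c8.n) := red_ln rf28h8.1 ⟨rf28h8.1.1, rf28h6.2.2.1.1⟩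
theorem rf28k9 : CfgOK (rf28c9.e, rf28c9.n) := red_ln rf28h15.1 ⟨rf28h15.1.1, rf28h6.2.1.1⟩
theorem rf28k10 : CfgOK (rf28c10.e, rf28c10.n) := red_ln rf28h14.1 rf28h14.1.1
theorem rf28k11 : CfgOK (rf28c11.e, rf28c11.n) := red_ln rf28h13.1 ⟨rf28h13.1.1, rf28h5.1.1⟩
theorem rf28k12 : CfgOK (rf28c12.e, rf28c12.n) := red_ln rf28h12.1 rf28h12.1.1
theorem rf28k13 : CfgOK (rf28c13.e, rf28c13.n) := red_ln rf28h7.1 ⟨rf28h7.1.1, rf28h6.1.1⟩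
theorem rf29k0 : CfgOK (rf29c0.e, rf29c0.n) := red_ln rf29h41.1 ⟨rf29h41.1.1, rf29h35.2.1.1⟩
theorem rf29k1 : CfgOK (rf29c1.e, rf29c1.n) := red_ln rf29h40.1 ⟨rf29h40.1.1, rf29h35.1.1⟩
theorem rf29k2 : CfgOK (rf29c2.e, rf29c2.n) := red_ln rf29h39.1 rf29h39.1.1
theorem rf29k3 : CfgOK (rf29c3.e, rf29c3.n) := red_ln rf29h36.1 ⟨⟨rf29h36.1.1, rf29h37.1.1⟩, ⟨rf29h38.2.1.1, rf29h0.1.1⟩⟩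
theorem rf29k4 : CfgOK (rf29c4.e, rf29c4.n) := red_ln rf29h1.1 ⟨⟨rf29h1.1.1, rf29h38.1.1⟩, ⟨rf29h2.2.1.1, rf29h3.1.1⟩⟩
theorem rf29k5 : CfgOK (rf29c5.e, rf29c5.n) := red_ln rf29h4.1 ⟨⟨rf29h4.1.1, rf29h2.1.1⟩, ⟨rf29h5.1.1, rf29h6.1.1⟩⟩
theorem rf29k6 : CfgOK (rf29c6.e, rf29c6.n) := red_ln rf29h7.1 ⟨⟨rf29h7.1.1, rf29h8.1.1⟩, ⟨rf29h9.2.1.1, rf29h10.1.1⟩⟩
theorem rf29k7 : CfgOK (rf29c7.e, rf29c7.n) := red_ln rf29h11.1 ⟨⟨rf29h11.1.1, rf29h9.1.1⟩, ⟨rf29h12.1.1, rf29h13.1.1⟩⟩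
theorem rf29k8 : CfgOK (rf29c8.e, rf29c8.n) := red_ln rf29h14.2.1 ⟨⟨rf29h14.2.1.1, rf29h12.2.2.1.1⟩, ⟨rf29h15.1.1, rf29h16.1.1⟩⟩
theorem rf29k9 : CfgOK (rf29c9.e, rf29c9.n) := red_ln rf29h14.1 ⟨⟨rf29h14.1.1, rf29h12.2.1.1⟩, ⟨rf29h35.2.2.1.1, rf29h17.1.1⟩⟩
theorem rf29k10 : CfgOK (rf29c10.e, rf29c10.n) := red_ln rf29h34.1 rf29h34.1.1
theorem rf29k11 : CfgOK (rf29c11.e, rf29c11.n) := red_ln rf29h33.1 rf29h33.1.1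
theorem rf29k12 : CfgOK (rf29c12.e, rf29c12.n) := red_ln rf29h32.1 rf29h32.1.1
theorem rf29k13 : CfgOK (rf29c13.e, rf29c13.n) := red_ln rf29h31.1 rf29h31.1.1
theorem rf29k14 : CfgOK (rf29c14.e, rf29c14.n) := red_ln rf29h30.1 rf29h30.1.1
theorem rf29k15 : CfgOK (rf29c15.e, rf29c15.n) := red_ln rf29h29.1 rf29h29.1.1
theorem rf29k16 : CfgOK (rf29c16.e, rf29c16.n) := red_ln rf29h28.1 rf29h28.1.1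
theorem rf29k17 : CfgOK (rf29c17.e, rf29c17.n) := red_ln rf29h27.1 rf29h27.1.1
theorem rf29k18 : CfgOK (rf29c18.e, rf29c18.n) := red_ln rf29h26.1 rf29h26.1.1
theorem rf29k19 : CfgOK (rf29c19.e, rf29c19.n) := red_ln rf29h25.1 rf29h25.1.1
theorem rf29k20 : CfgOK (rf29c20.e, rf29c20.n) := red_ln rf29h24.1 rf29h24.1.1
theorem rf29k21 : CfgOK (rf29c21.e, rf29c21.n) := red_ln rf29h23.1 rf29h23.1.1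
theorem rf29k22 : CfgOK (rf29c22.e, rf29c22.n) := red_ln rf29h22.1 rf29h22.1.1
theorem rf29k23 : CfgOK (rf29c23.e, rf29c23.n) := red_ln rf29h21.1 rf29h21.1.1
theorem rf29k24 : CfgOK (rf29c24.e, rf29c24.n) := red_ln rf29h20.1 rf29h20.1.1
theorem rf29k25 : CfgOK (rf29c25.e, rf29c25.n) := red_ln rf29h19.1 rf29h19.1.1
theorem rf29k26 : CfgOK (rf29c26.e, rf29c26.n) := red_ln rf29h18.1 rf29h18.1.1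
theorem rf30k0 : CfgOK (rf30c0.e, rf30c0.n) := red_ln rf30h1.1 rf30h1.1.1
theorem rf30k1 : CfgOK (rf30c1.e, rf30c1.n) := red_ln rf30h0.1 ⟨rf30h0.1.1, rf30h2.1.1⟩
theorem rf30k2 : CfgOK (rf30c2.e, rf30c2.n) := red_ln rf30h23.1 rf30h23.1.1
theorem rf30k3 : CfgOK (rf30c3.e, rf30c3.n) := red_ln rf30h22.1 rf30h22.1.1
theorem rf30k4 : CfgOK (rf30c4.e, rf30c4.n) := red_ln rf30h21.1 rf30h21.1.1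
theorem rf30k5 : CfgOK (rf30c5.e, rf30c5.n) := red_ln rf30h19.1 rf30h19.1.1
theorem rf30k6 : CfgOK (rf30c6.e, rf30c6.n) := red_ln rf30h18.1 rf30h18.1.1
theorem rf30k7 : CfgOK (rf30c7.e, rf30c7.n) := red_ln rf30h17.1 rf30h17.1.1
theorem rf30k8 : CfgOK (rf30c8.e, rf30c8.n) := red_ln rf30h16.1 rf30h16.1.1
theorem rf30k9 : CfgOK (rf30c9.e, rf30c9.n) := red_ln rf30h15.1 rf30h15.1.1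
theorem rf30k10 : CfgOK (rf30c10.e, rf30c10.n) := red_ln rf30h14.1 rf30h14.1.1
theorem rf30k11 : CfgOK (rf30c11.e, rf30c11.n) := red_ln rf30h13.1 rf30h13.1.1
theorem rf30k12 : CfgOK (rf30c12.e, rf30c12.n) := red_ln rf30h12.1 rf30h12.1.1
theorem rf30k13 : CfgOK (rf30c13.e, rf30c13.n) := red_ln rf30h11.1 rf30h11.1.1
theorem rf30k14 : CfgOK (rf30c14.e, rf30c14.n) := red_ln rf30h10.1 rf30h10.1.1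
theorem rf30k15 : CfgOK (rf30c15.e, rf30c15.n) := red_ln rf30h8.1 rf30h8.1.1
theorem rf30k16 : CfgOK (rf30c16.e, rf30c16.n) := red_ln rf30h7.1 rf30h7.1.1
theorem rf30k17 : CfgOK (rf30c17.e, rf30c17.n) := red_ln rf30h6.1 rf30h6.1.1
theorem rf30k18 : CfgOK (rf30c18.e, rf30c18.n) := red_ln rf30h5.1 rf30h5.1.1
theorem rf30k19 : CfgOK (rf30c19.e, rf30c19.n) := red_ln rf30h4.1 rf30h4.1.1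
theorem rf30k20 : CfgOK (rf30c20.e, rf30c20.n) := red_ln rf30h25.1 rf30h25.1.1
theorem rf30k21 : CfgOK (rf30c21.e, rf30c21.n) := red_ln rf30h24.1 rf30h24.1.1
theorem rf30k22 : CfgOK (rf30c22.e, rf30c22.n) := red_ln rf30h20.1 rf30h20.1.1
theorem rf30k23 : CfgOK (rf30c23.e, rf30c23.n) := red_ln rf30h9.1 rf30h9.1.1
theorem rf30k24 : CfgOK (rf30c24.e, rf30c24.n) := red_ln rf30h3.1 rf30h3.1.1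
theorem rf31k0 : CfgOK (rf31c0.e, rf31c0.n) := red_ln rf31h17.1 rf31h17.1.1
theorem rf31k1 : CfgOK (rf31c1.e, rf31c1.n) := red_ln rf31h16.1 rf31h16.1.1
theorem rf31k2 : CfgOK (rf31c2.e, rf31c2.n) := red_ln rf31h15.1 rf31h15.1.1
theorem rf31k3 : CfgOK (rf31c3.e, rf31c3.n) := red_ln rf31h14.1 rf31h14.1.1
theorem rf31k4 : CfgOK (rf31c4.e, rf31c4.n) := red_ln rf31h13.1 rf31h13.1.1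
theorem rf31k5 : CfgOK (rf31c5.e, rf31c5.n) := red_ln rf31h12.1 rf31h12.1.1
theorem rf31k6 : CfgOK (rf31c6.e, rf31c6.n) := red_ln rf31h11.1 rf31h11.1.1
theorem rf31k7 : CfgOK (rf31c7.e, rf31c7.n) := red_ln rf31h10.1 rf31h10.1.1
theorem rf31k8 : CfgOK (rf31c8.e, rf31c8.n) := red_ln rf31h9.1 rf31h9.1.1
theorem rf31k9 : CfgOK (rf31c9.e, rf31c9.n) := red_ln rf31h8.1 rf31h8.1.1
theorem rf31k10 : CfgOK (rf31c10.e, rf31c10.n) := red_ln rf31h6.1 rf31h6.1.1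
theorem rf31k11 : CfgOK (rf31c11.e, rf31c11.n) := red_ln rf31h5.1 rf31h5.1.1
theorem rf31k12 : CfgOK (rf31c12.e, rf31c12.n) := red_ln rf31h4.1 rf31h4.1.1
theorem rf31k13 : CfgOK (rf31c13.e, rf31c13.n) := red_ln rf31h3.1 rf31h3.1.1
theorem rf31k14 : CfgOK (rf31c14.e, rf31c14.n) := red_ln rf31h2.1 ⟨rf31h2.1.1, rf31h0.1.1⟩
theorem rf31k15 : CfgOK (rf31c15.e, rf31c15.n) := red_ln rf31h20.1 rf31h20.1.1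
theorem rf31k16 : CfgOK (rf31c16.e, rf31c16.n) := red_ln rf31h19.1 rf31h19.1.1
theorem rf31k17 : CfgOK (rf31c17.e, rf31c17.n) := red_ln rf31h18.1 rf31h18.1.1
theorem rf31k18 : CfgOK (rf31c18.e, rf31c18.n) := red_ln rf31h7.1 rf31h7.1.1
theorem rf31k19 : CfgOK (rf31c19.e, rf31c19.n) := red_ln rf31h1.1 rf31h1.1.1

end Pool.Agent.Lib.G6.B
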