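import Pool.Agent.Lib.G6.BRed
import Pool.Agent.Lib.G6D.RF32
import Pool.Agent.Lib.G6D.RF33
import Pool.Agent.Lib.G6D.RF34
import Pool.Agent.Lib.G6D.RF35

set_option autoImplicit false
set_option maxRecDepth 100000
set_option linter.all false

namespace Pool.Agent.Lib.G6.B

theorem rf32h0 : AllL LnOK rf32l34 := batch_of rf32th.2.2.2.2.2.2.2.2.2.2.2.2.2.2.2.2.2.2.2.2.2.2.2.2.2.2.2.2.2.2.2.2.2.2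
theorem rf32h1 : AllL LnOK rf32l0 := ck2_of (ck0_of rf32th.1) rf32th.2.1
theorem rf32h2 : AllL LnOK rf32l10 := ck2_of (ck0_of rf32th.2.2.2.2.2.2.2.2.2.2.1) rf32th.2.2.2.2.2.2.2.2.2.2.2.1
theorem rf32h3 : AllL LnOK rf32l12 := ck2_of (ck0_of rf32th.2.2.2.2.2.2.2.2.2.2.2.2.1) rf32th.2.2.2.2.2.2.2.2.2.2.2.2.2.1
theorem rf32h4 : AllL LnOK rf32l14 := ck2_of (ck0_of rf32th.2.2.2.2.2.2.2.2.2.2.2.2.2.2.1) rf32th.2.2.2.2.2.2.2.2.2.2.2.2.2.2.2.1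
theorem rf32h5 : AllL LnOK rf32l16 := ck2_of (ck0_of rf32th.2.2.2.2.2.2.2.2.2.2.2.2.2.2.2.2.1) rf32th.2.2.2.2.2.2.2.2.2.2.2.2.2.2.2.2.2.1
theorem rf32h6 : AllL LnOK rf32l18 := ck2_of (ck0_of rf32th.2.2.2.2.2.2.2.2.2.2.2.2.2.2.2.2.2.2.1) rf32th.2.2.2.2.2.2.2.2.2.2.2.2.2.2.2.2.2.2.2.1
theorem rf32h7 : AllL LnOK rf32l2 := ck2_of (ck0_of rf32th.2.2.1) rf32th.2.2.2.1
theorem rf32h8 : AllL LnOK rf32l20 := ck2_of (ck0_of rf32th.2.2.2.2.2.2.2.2.2.2.2.2.2.2.2.2.2.2.2.2.1) rf32th.2.2.2.2.2.2.2.2.2.2.2.2.2.2.2.2.2.2.2.2.2.1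
theorem rf32h9 : AllL LnOK rf32l22 := ck2_of (ck0_of rf32th.2.2.2.2.2.2.2.2.2.2.2.2.2.2.2.2.2.2.2.2.2.2.1) rf32th.2.2.2.2.2.2.2.2.2.2.2.2.2.2.2.2.2.2.2.2.2.2.2.1
theorem rf32h10 : AllL LnOK rf32l24 := ck2_of (ck0_of rf32th.2.2.2.2.2.2.2.2.2.2.2.2.2.2.2.2.2.2.2.2.2.2.2.2.1) rf32th.2.2.2.2.2.2.2.2.2.2.2.2.2.2.2.2.2.2.2.2.2.2.2.2.2.1
theorem rf32h11 : AllL LnOK rf32l26 := ck2_of (ck0_of rf32th.2.2.2.2.2.2.2.2.2.2.2.2.2.2.2.2.2.2.2.2.2.2.2.2.2.2.1) rf32th.2.2.2.2.2.2.2.2.2.2.2.2.2.2.2.2.2.2.2.2.2.2.2.2.2.2.2.1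
theorem rf32h12 : AllL LnOK rf32l28 := ck2_of (ck0_of rf32th.2.2.2.2.2.2.2.2.2.2.2.2.2.2.2.2.2.2.2.2.2.2.2.2.2.2.2.2.1) rf32th.2.2.2.2.2.2.2.2.2.2.2.2.2.2.2.2.2.2.2.2.2.2.2.2.2.2.2.2.2.1
theorem rf32h13 : AllL LnOK rf32l30 := ck2_of (ck0_of rf32th.2.2.2.2.2.2.2.2.2.2.2.2.2.2.2.2.2.2.2.2.2.2.2.2.2.2.2.2.2.2.1) rf32th.2.2.2.2.2.2.2.2.2.2.2.2.2.2.2.2.2.2.2.2.2.2.2.2.2.2.2.2.2.2.2.1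
theorem rf32h14 : AllL LnOK rf32l32 := ck2_of (ck0_of rf32th.2.2.2.2.2.2.2.2.2.2.2.2.2.2.2.2.2.2.2.2.2.2.2.2.2.2.2.2.2.2.2.2.1) rf32th.2.2.2.2.2.2.2.2.2.2.2.2.2.2.2.2.2.2.2.2.2.2.2.2.2.2.2.2.2.2.2.2.2.1
theorem rf32h15 : AllL LnOK rf32l4 := ck2_of (ck0_of rf32th.2.2.2.2.1) rf32th.2.2.2.2.2.1
theorem rf32h16 : AllL LnOK rf32l6 := ck2_of (ck0_of rf32th.2.2.2.2.2.2.1) rf32th.2.2.2.2.2.2.2.1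
theorem rf32h17 : AllL LnOK rf32l8 := ck2_of (ck0_of rf32th.2.2.2.2.2.2.2.2.1) rf32th.2.2.2.2.2.2.2.2.2.1
theorem rf33h0 : AllL LnOK rf33l27 := ck2_of (ck0_of rf33th.2.2.2.2.2.2.2.2.2.2.2.2.2.2.2.2.2.2.2.2.2.2.2.2.2.2.2.1) rf33th.2.2.2.2.2.2.2.2.2.2.2.2.2.2.2.2.2.2.2.2.2.2.2.2.2.2.2.2.1
theorem rf33h1 : AllL LnOK rf33l29 := ck2_of (ck0_of rf33th.2.2.2.2.2.2.2.2.2.2.2.2.2.2.2.2.2.2.2.2.2.2.2.2.2.2.2.2.2.1) rf33th.2.2.2.2.2.2.2.2.2.2.2.2.2.2.2.2.2.2.2.2.2.2.2.2.2.2.2.2.2.2.1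
theorem rf33h2 : AllL LnOK rf33l31 := ck2_of (ck0_of rf33th.2.2.2.2.2.2.2.2.2.2.2.2.2.2.2.2.2.2.2.2.2.2.2.2.2.2.2.2.2.2.2.1) rf33th.2.2.2.2.2.2.2.2.2.2.2.2.2.2.2.2.2.2.2.2.2.2.2.2.2.2.2.2.2.2.2.2.1
theorem rf33h3 : AllL LnOK rf33l33 := ck2_of (ck0_of rf33th.2.2.2.2.2.2.2.2.2.2.2.2.2.2.2.2.2.2.2.2.2.2.2.2.2.2.2.2.2.2.2.2.2.1) rf33th.2.2.2.2.2.2.2.2.2.2.2.2.2.2.2.2.2.2.2.2.2.2.2.2.2.2.2.2.2.2.2.2.2.2.1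
theorem rf33h4 : AllL LnOK rf33l35 := ck2_of (ck0_of rf33th.2.2.2.2.2.2.2.2.2.2.2.2.2.2.2.2.2.2.2.2.2.2.2.2.2.2.2.2.2.2.2.2.2.2.2.1) rf33th.2.2.2.2.2.2.2.2.2.2.2.2.2.2.2.2.2.2.2.2.2.2.2.2.2.2.2.2.2.2.2.2.2.2.2.2
theorem rf33h5 : AllL LnOK rf33l0 := ck2_of (ck1_of (ck0_of rf33th.1) rfl rf33th.2.1) rf33th.2.2.1
theorem rf33h6 : AllL LnOK rf33l12 := ck2_of (ck1_of (ck0_of rf33th.2.2.2.2.2.2.2.2.2.2.2.2.1) rfl rf33th.2.2.2.2.2.2.2.2.2.2.2.2.2.1) rf33th.2.2.2.2.2.2.2.2.2.2.2.2.2.2.1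
theorem rf33h7 : AllL LnOK rf33l15 := ck2_of (ck1_of (ck0_of rf33th.2.2.2.2.2.2.2.2.2.2.2.2.2.2.2.1) rfl rf33th.2.2.2.2.2.2.2.2.2.2.2.2.2.2.2.2.1) rf33th.2.2.2.2.2.2.2.2.2.2.2.2.2.2.2.2.2.1
theorem rf33h8 : AllL LnOK rf33l18 := ck2_of (ck1_of (ck0_of rf33th.2.2.2.2.2.2.2.2.2.2.2.2.2.2.2.2.2.2.1) rfl rf33th.2.2.2.2.2.2.2.2.2.2.2.2.2.2.2.2.2.2.2.1) rf33th.2.2.2.2.2.2.2.2.2.2.2.2.2.2.2.2.2.2.2.2.1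
theorem rf33h9 : AllL LnOK rf33l21 := ck2_of (ck1_of (ck0_of rf33th.2.2.2.2.2.2.2.2.2.2.2.2.2.2.2.2.2.2.2.2.2.1) rfl rf33th.2.2.2.2.2.2.2.2.2.2.2.2.2.2.2.2.2.2.2.2.2.2.1) rf33th.2.2.2.2.2.2.2.2.2.2.2.2.2.2.2.2.2.2.2.2.2.2.2.1
theorem rf33h10 : AllL LnOK rf33l24 := ck2_of (ck1_of (ck0_of rf33th.2.2.2.2.2.2.2.2.2.2.2.2.2.2.2.2.2.2.2.2.2.2.2.2.1) rfl rf33th.2.2.2.2.2.2.2.2.2.2.2.2.2.2.2.2.2.2.2.2.2.2.2.2.2.1) rf33th.2.2.2.2.2.2.2.2.2.2.2.2.2.2.2.2.2.2.2.2.2.2.2.2.2.2.1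
theorem rf33h11 : AllL LnOK rf33l3 := ck2_of (ck1_of (ck0_of rf33th.2.2.2.1) rfl rf33th.2.2.2.2.1) rf33th.2.2.2.2.2.1
theorem rf33h12 : AllL LnOK rf33l6 := ck2_of (ck1_of (ck0_of rf33th.2.2.2.2.2.2.1) rfl rf33th.2.2.2.2.2.2.2.1) rf33th.2.2.2.2.2.2.2.2.1
theorem rf33h13 : AllL LnOK rf33l9 := ck2_of (ck1_of (ck0_of rf33th.2.2.2.2.2.2.2.2.2.1) rfl rf33th.2.2.2.2.2.2.2.2.2.2.1) rf33th.2.2.2.2.2.2.2.2.2.2.2.1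
theorem rf34h0 : AllL LnOK rf34l38 := batch_of rf34th.2.2.2.2.2.2.2.2.2.2.2.2.2.2.2.2.2.2.2.2.2.2.2.2.2.2.2.2.2.2.2.2.2.2.2.2.2.2.1
theorem rf34h1 : AllL LnOK rf34l39 := batch_of rf34th.2.2.2.2.2.2.2.2.2.2.2.2.2.2.2.2.2.2.2.2.2.2.2.2.2.2.2.2.2.2.2.2.2.2.2.2.2.2.2
theorem rf34h2 : AllL LnOK rf34l20 := ck2_of (ck1_of (ck0_of rf34th.2.2.2.2.2.2.2.2.2.2.2.2.2.2.2.2.2.2.2.2.1) rfl rf34th.2.2.2.2.2.2.2.2.2.2.2.2.2.2.2.2.2.2.2.2.2.1) rf34th.2.2.2.2.2.2.2.2.2.2.2.2.2.2.2.2.2.2.2.2.2.2.1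
theorem rf34h3 : AllL LnOK rf34l23 := ck2_of (ck1_of (ck0_of rf34th.2.2.2.2.2.2.2.2.2.2.2.2.2.2.2.2.2.2.2.2.2.2.2.1) rfl rf34th.2.2.2.2.2.2.2.2.2.2.2.2.2.2.2.2.2.2.2.2.2.2.2.2.1) rf34th.2.2.2.2.2.2.2.2.2.2.2.2.2.2.2.2.2.2.2.2.2.2.2.2.2.1
theorem rf34h4 : AllL LnOK rf34l26 := ck2_of (ck1_of (ck0_of rf34th.2.2.2.2.2.2.2.2.2.2.2.2.2.2.2.2.2.2.2.2.2.2.2.2.2.2.1) rfl rf34th.2.2.2.2.2.2.2.2.2.2.2.2.2.2.2.2.2.2.2.2.2.2.2.2.2.2.2.1) rf34th.2.2.2.2.2.2.2.2.2.2.2.2.2.2.2.2.2.2.2.2.2.2.2.2.2.2.2.2.1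
theorem rf34h5 : AllL LnOK rf34l29 := ck2_of (ck1_of (ck0_of rf34th.2.2.2.2.2.2.2.2.2.2.2.2.2.2.2.2.2.2.2.2.2.2.2.2.2.2.2.2.2.1) rfl rf34th.2.2.2.2.2.2.2.2.2.2.2.2.2.2.2.2.2.2.2.2.2.2.2.2.2.2.2.2.2.2.1) rf34th.2.2.2.2.2.2.2.2.2.2.2.2.2.2.2.2.2.2.2.2.2.2.2.2.2.2.2.2.2.2.2.1
theorem rf34h6 : AllL LnOK rf34l32 := ck2_of (ck1_of (ck0_of rf34th.2.2.2.2.2.2.2.2.2.2.2.2.2.2.2.2.2.2.2.2.2.2.2.2.2.2.2.2.2.2.2.2.1) rfl rf34th.2.2.2.2.2.2.2.2.2.2.2.2.2.2.2.2.2.2.2.2.2.2.2.2.2.2.2.2.2.2.2.2.2.1) rf34th.2.2.2.2.2.2.2.2.2.2.2.2.2.2.2.2.2.2.2.2.2.2.2.2.2.2.2.2.2.2.2.2.2.2.1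
theorem rf34h7 : AllL LnOK rf34l35 := ck2_of (ck1_of (ck0_of rf34th.2.2.2.2.2.2.2.2.2.2.2.2.2.2.2.2.2.2.2.2.2.2.2.2.2.2.2.2.2.2.2.2.2.2.2.1) rfl rf34th.2.2.2.2.2.2.2.2.2.2.2.2.2.2.2.2.2.2.2.2.2.2.2.2.2.2.2.2.2.2.2.2.2.2.2.2.1) rf34th.2.2.2.2.2.2.2.2.2.2.2.2.2.2.2.2.2.2.2.2.2.2.2.2.2.2.2.2.2.2.2.2.2.2.2.2.2.1
theorem rf34h8 : AllL LnOK rf34l0 := ck2_of (ck1_of (ck1_of (ck0_of rf34th.1) rfl rf34th.2.1) rfl rf34th.2.2.1) rf34th.2.2.2.1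
theorem rf34h9 : AllL LnOK rf34l12 := ck2_of (ck1_of (ck1_of (ck0_of rf34th.2.2.2.2.2.2.2.2.2.2.2.2.1) rfl rf34th.2.2.2.2.2.2.2.2.2.2.2.2.2.1) rfl rf34th.2.2.2.2.2.2.2.2.2.2.2.2.2.2.1) rf34th.2.2.2.2.2.2.2.2.2.2.2.2.2.2.2.1
theorem rf34h10 : AllL LnOK rf34l16 := ck2_of (ck1_of (ck1_of (ck0_of rf34th.2.2.2.2.2.2.2.2.2.2.2.2.2.2.2.2.1) rfl rf34th.2.2.2.2.2.2.2.2.2.2.2.2.2.2.2.2.2.1) rfl rf34th.2.2.2.2.2.2.2.2.2.2.2.2.2.2.2.2.2.2.1) rf34th.2.2.2.2.2.2.2.2.2.2.2.2.2.2.2.2.2.2.2.1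
theorem rf34h11 : AllL LnOK rf34l4 := ck2_of (ck1_of (ck1_of (ck0_of rf34th.2.2.2.2.1) rfl rf34th.2.2.2.2.2.1) rfl rf34th.2.2.2.2.2.2.1) rf34th.2.2.2.2.2.2.2.1
theorem rf34h12 : AllL LnOK rf34l8 := ck2_of (ck1_of (ck1_of (ck0_of rf34th.2.2.2.2.2.2.2.2.1) rfl rf34th.2.2.2.2.2.2.2.2.2.1) rfl rf34th.2.2.2.2.2.2.2.2.2.2.1) rf34th.2.2.2.2.2.2.2.2.2.2.2.1
theorem rf35h0 : AllL LnOK rf35l18 := batch_of rf35th.2.2.2.2.2.2.2.2.2.2.2.2.2.2.2.2.2.2.1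
theorem rf35h1 : AllL LnOK rf35l19 := batch_of rf35th.2.2.2.2.2.2.2.2.2.2.2.2.2.2.2.2.2.2.2.1
theorem rf35h2 : AllL LnOK rf35l20 := batch_of rf35th.2.2.2.2.2.2.2.2.2.2.2.2.2.2.2.2.2.2.2.2.1
theorem rf35h3 : AllL LnOK rf35l21 := batch_of rf35th.2.2.2.2.2.2.2.2.2.2.2.2.2.2.2.2.2.2.2.2.2.1
theorem rf35h4 : AllL LnOK rf35l22 := batch_of rf35th.2.2.2.2.2.2.2.2.2.2.2.2.2.2.2.2.2.2.2.2.2.2.1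
theorem rf35h5 : AllL LnOK rf35l23 := batch_of rf35th.2.2.2.2.2.2.2.2.2.2.2.2.2.2.2.2.2.2.2.2.2.2.2.1
theorem rf35h6 : AllL LnOK rf35l24 := batch_of rf35th.2.2.2.2.2.2.2.2.2.2.2.2.2.2.2.2.2.2.2.2.2.2.2.2.1
theorem rf35h7 : AllL LnOK rf35l25 := batch_of rf35th.2.2.2.2.2.2.2.2.2.2.2.2.2.2.2.2.2.2.2.2.2.2.2.2.2.1
theorem rf35h8 : AllL LnOK rf35l26 := batch_of rf35th.2.2.2.2.2.2.2.2.2.2.2.2.2.2.2.2.2.2.2.2.2.2.2.2.2.2.1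
theorem rf35h9 : AllL LnOK rf35l27 := batch_of rf35th.2.2.2.2.2.2.2.2.2.2.2.2.2.2.2.2.2.2.2.2.2.2.2.2.2.2.2.1
theorem rf35h10 : AllL LnOK rf35l28 := batch_of rf35th.2.2.2.2.2.2.2.2.2.2.2.2.2.2.2.2.2.2.2.2.2.2.2.2.2.2.2.2.1
theorem rf35h11 : AllL LnOK rf35l29 := batch_of rf35th.2.2.2.2.2.2.2.2.2.2.2.2.2.2.2.2.2.2.2.2.2.2.2.2.2.2.2.2.2.1
theorem rf35h12 : AllL LnOK rf35l30 := batch_of rf35th.2.2.2.2.2.2.2.2.2.2.2.2.2.2.2.2.2.2.2.2.2.2.2.2.2.2.2.2.2.2.1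
theorem rf35h13 : AllL LnOK rf35l31 := batch_of rf35th.2.2.2.2.2.2.2.2.2.2.2.2.2.2.2.2.2.2.2.2.2.2.2.2.2.2.2.2.2.2.2.1
theorem rf35h14 : AllL LnOK rf35l32 := batch_of rf35th.2.2.2.2.2.2.2.2.2.2.2.2.2.2.2.2.2.2.2.2.2.2.2.2.2.2.2.2.2.2.2.2.1
theorem rf35h15 : AllL LnOK rf35l33 := batch_of rf35th.2.2.2.2.2.2.2.2.2.2.2.2.2.2.2.2.2.2.2.2.2.2.2.2.2.2.2.2.2.2.2.2.2
theorem rf35h16 : AllL LnOK rf35l10 := ck2_of (ck1_of (ck1_of (ck0_of rf35th.2.2.2.2.2.2.2.2.2.2.1) rfl rf35th.2.2.2.2.2.2.2.2.2.2.2.1) rfl rf35th.2.2.2.2.2.2.2.2.2.2.2.2.1) rf35th.2.2.2.2.2.2.2.2.2.2.2.2.2.1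
theorem rf35h17 : AllL LnOK rf35l14 := ck2_of (ck1_of (ck1_of (ck0_of rf35th.2.2.2.2.2.2.2.2.2.2.2.2.2.2.1) rfl rf35th.2.2.2.2.2.2.2.2.2.2.2.2.2.2.2.1) rfl rf35th.2.2.2.2.2.2.2.2.2.2.2.2.2.2.2.2.1) rf35th.2.2.2.2.2.2.2.2.2.2.2.2.2.2.2.2.2.1
theorem rf35h18 : AllL LnOK rf35l0 := ck2_of (ck1_of (ck1_of (ck1_of (ck0_of rf35th.1) rfl rf35th.2.1) rfl rf35th.2.2.1) rfl rf35th.2.2.2.1) rf35th.2.2.2.2.1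
theorem rf35h19 : AllL LnOK rf35l5 := ck2_of (ck1_of (ck1_of (ck1_of (ck0_of rf35th.2.2.2.2.2.1) rfl rf35th.2.2.2.2.2.2.1) rfl rf35th.2.2.2.2.2.2.2.1) rfl rf35th.2.2.2.2.2.2.2.2.1) rf35th.2.2.2.2.2.2.2.2.2.1
theorem rf32k0 : CfgOK (rf32c0.e, rf32c0.n) := red_ln rf32h14.1 rf32h14.1.1
theorem rf32k1 : CfgOK (rf32c1.e, rf32c1.n) := red_ln rf32h13.1 rf32h13.1.1
theorem rf32k2 : CfgOK (rf32c2.e, rf32c2.n) := red_ln rf32h12.1 ⟨rf32h12.1.1, rf32h0.2.1.1⟩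
theorem rf32k3 : CfgOK (rf32c3.e, rf32c3.n) := red_ln rf32h11.1 ⟨rf32h11.1.1, rf32h0.1.1⟩
theorem rf32k4 : CfgOK (rf32c4.e, rf32c4.n) := red_ln rf32h10.1 rf32h10.1.1
theorem rf32k5 : CfgOK (rf32c5.e, rf32c5.n) := red_ln rf32h9.1 rf32h9.1.1
theorem rf32k6 : CfgOK (rf32c6.e, rf32c6.n) := red_ln rf32h8.1 rf32h8.1.1
theorem rf32k7 : CfgOK (rf32c7.e, rf32c7.n) := red_ln rf32h6.1 rf32h6.1.1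
theorem rf32k8 : CfgOK (rf32c8.e, rf32c8.n) := red_ln rf32h5.1 rf32h5.1.1
theorem rf32k9 : CfgOK (rf32c9.e, rf32c9.n) := red_ln rf32h4.1 rf32h4.1.1
theorem rf32k10 : CfgOK (rf32c10.e, rf32c10.n) := red_ln rf32h3.1 rf32h3.1.1
theorem rf32k11 : CfgOK (rf32c11.e, rf32c11.n) := red_ln rf32h2.1 rf32h2.1.1
theorem rf32k12 : CfgOK (rf32c12.e, rf32c12.n) := red_ln rf32h17.1 rf32h17.1.1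
theorem rf32k13 : CfgOK (rf32c13.e, rf32c13.n) := red_ln rf32h16.1 rf32h16.1.1
theorem rf32k14 : CfgOK (rf32c14.e, rf32c14.n) := red_ln rf32h15.1 rf32h15.1.1
theorem rf32k15 : CfgOK (rf32c15.e, rf32c15.n) := red_ln rf32h7.1 rf32h7.1.1
theorem rf32k16 : CfgOK (rf32c16.e, rf32c16.n) := red_ln rf32h1.1 rf32h1.1.1
theorem rf33k0 : CfgOK (rf33c0.e, rf33c0.n) := red_ln rf33h4.1 rf33h4.1.1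
theorem rf33k1 : CfgOK (rf33c1.e, rf33c1.n) := red_ln rf33h3.1 rf33h3.1.1
theorem rf33k2 : CfgOK (rf33c2.e, rf33c2.n) := red_ln rf33h2.1 rf33h2.1.1
theorem rf33k3 : CfgOK (rf33c3.e, rf33c3.n) := red_ln rf33h1.1 rf33h1.1.1
theorem rf33k4 : CfgOK (rf33c4.e, rf33c4.n) := red_ln rf33h0.1 rf33h0.1.1
theorem rf33k5 : CfgOK (rf33c5.e, rf33c5.n) := red_ln rf33h10.1 rf33h10.1.1
theorem rf33k6 : CfgOK (rf33c6.e, rf33c6.n) := red_ln rf33h9.1 rf33h9.1.1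
theorem rf33k7 : CfgOK (rf33c7.e, rf33c7.n) := red_ln rf33h8.1 rf33h8.1.1
theorem rf33k8 : CfgOK (rf33c8.e, rf33c8.n) := red_ln rf33h7.1 rf33h7.1.1
theorem rf33k9 : CfgOK (rf33c9.e, rf33c9.n) := red_ln rf33h6.1 rf33h6.1.1
theorem rf33k10 : CfgOK (rf33c10.e, rf33c10.n) := red_ln rf33h13.1 rf33h13.1.1
theorem rf33k11 : CfgOK (rf33c11.e, rf33c11.n) := red_ln rf33h12.1 rf33h12.1.1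
theorem rf33k12 : CfgOK (rf33c12.e, rf33c12.n) := red_ln rf33h11.1 rf33h11.1.1
theorem rf33k13 : CfgOK (rf33c13.e, rf33c13.n) := red_ln rf33h5.1 rf33h5.1.1
theorem rf34k0 : CfgOK (rf34c0.e, rf34c0.n) := red_ln rf34h7.1 rf34h7.1.1
theorem rf34k1 : CfgOK (rf34c1.e, rf34c1.n) := red_ln rf34h6.1 rf34h6.1.1
theorem rf34k2 : CfgOK (rf34c2.e, rf34c2.n) := red_ln rf34h5.1 rf34h5.1.1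
theorem rf34k3 : CfgOK (rf34c3.e, rf34c3.n) := red_ln rf34h4.1 rf34h4.1.1
theorem rf34k4 : CfgOK (rf34c4.e, rf34c4.n) := red_ln rf34h3.1 rf34h3.1.1
theorem rf34k5 : CfgOK (rf34c5.e, rf34c5.n) := red_ln rf34h2.1 rf34h2.1.1
theorem rf34k6 : CfgOK (rf34c6.e, rf34c6.n) := red_ln rf34h10.1 rf34h10.1.1
theorem rf34k7 : CfgOK (rf34c7.e, rf34c7.n) := red_ln rf34h9.1 rf34h9.1.1
theorem rf34k8 : CfgOK (rf34c8.e, rf34c8.n) := red_ln rf34h12.1 ⟨rf34h12.1.1, rf34h0.2.1.1⟩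
theorem rf34k9 : CfgOK (rf34c9.e, rf34c9.n) := red_ln rf34h11.1 ⟨rf34h11.1.1, rf34h0.1.1⟩
theorem rf34k10 : CfgOK (rf34c10.e, rf34c10.n) := red_ln rf34h8.1 ⟨rf34h8.1.1, rf34h1.1.1⟩
theorem rf35k0 : CfgOK (rf35c0.e, rf35c0.n) := red_ln rf35h17.1 rf35h17.1.1
theorem rf35k1 : CfgOK (rf35c1.e, rf35c1.n) := red_ln rf35h16.1 rf35h16.1.1
theorem rf35k2 : CfgOK (rf35c2.e, rf35c2.n) := red_ln rf35h19.1 rf35h19.1.1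
theorem rf35k3 : CfgOK (rf35c3.e, rf35c3.n) := red_ln rf35h18.1 ⟨rf35h18.1.1, rf35h0.1.1⟩
theorem rf35k4 : CfgOK (rf35c4.e, rf35c4.n) := red_ln rf35h14.1 ⟨⟨rf35h14.1.1, rf35h1.2.1.1⟩, ⟨rf35h1.1.1, rf35h15.1.1⟩⟩
theorem rf35k5 : CfgOK (rf35c5.e, rf35c5.n) := red_ln rf35h13.1 rf35h13.1.1
theorem rf35k6 : CfgOK (rf35c6.e, rf35c6.n) := red_ln rf35h12.1 rf35h12.1.1
theorem rf35k7 : CfgOK (rf35c7.e, rf35c7.n) := red_ln rf35h11.1 rf35h11.1.1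
theorem rf35k8 : CfgOK (rf35c8.e, rf35c8.n) := red_ln rf35h10.1 rf35h10.1.1
theorem rf35k9 : CfgOK (rf35c9.e, rf35c9.n) := red_ln rf35h9.1 rf35h9.1.1
theorem rf35k10 : CfgOK (rf35c10.e, rf35c10.n) := red_ln rf35h8.1 rf35h8.1.1
theorem rf35k11 : CfgOK (rf35c11.e, rf35c11.n) := red_ln rf35h7.1 rf35h7.1.1
theorem rf35k12 : CfgOK (rf35c12.e, rf35c12.n) := red_ln rf35h6.1 rf35h6.1.1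
theorem rf35k13 : CfgOK (rf35c13.e, rf35c13.n) := red_ln rf35h5.1 rf35h5.1.1
theorem rf35k14 : CfgOK (rf35c14.e, rf35c14.n) := red_ln rf35h4.1 rf35h4.1.1
theorem rf35k15 : CfgOK (rf35c15.e, rf35c15.n) := red_ln rf35h3.1 rf35h3.1.1
theorem rf35k16 : CfgOK (rf35c16.e, rf35c16.n) := red_ln rf35h2.1 rf35h2.1.1

end Pool.Agent.Lib.G6.B
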