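import Pool.Agent.Lib.G6.BRed
import Pool.Agent.Lib.G6D.RF36
import Pool.Agent.Lib.G6D.RF37
import Pool.Agent.Lib.G6D.RF38
import Pool.Agent.Lib.G6D.RF39

set_option autoImplicit false
set_option maxRecDepth 100000
set_option linter.all false

namespace Pool.Agent.Lib.G6.B

theorem rf36h0 : AllL LnOK rf36l10 := batch_of rf36th.2.2.2.2.2.2.2.2.2.2.1
theorem rf36h1 : AllL LnOK rf36l11 := batch_of rf36th.2.2.2.2.2.2.2.2.2.2.2.1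
theorem rf36h2 : AllL LnOK rf36l12 := batch_of rf36th.2.2.2.2.2.2.2.2.2.2.2.2.1
theorem rf36h3 : AllL LnOK rf36l13 := batch_of rf36th.2.2.2.2.2.2.2.2.2.2.2.2.2.1
theorem rf36h4 : AllL LnOK rf36l14 := batch_of rf36th.2.2.2.2.2.2.2.2.2.2.2.2.2.2.1
theorem rf36h5 : AllL LnOK rf36l15 := batch_of rf36th.2.2.2.2.2.2.2.2.2.2.2.2.2.2.2.1
theorem rf36h6 : AllL LnOK rf36l16 := batch_of rf36th.2.2.2.2.2.2.2.2.2.2.2.2.2.2.2.2.1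
theorem rf36h7 : AllL LnOK rf36l17 := batch_of rf36th.2.2.2.2.2.2.2.2.2.2.2.2.2.2.2.2.2.1
theorem rf36h8 : AllL LnOK rf36l18 := batch_of rf36th.2.2.2.2.2.2.2.2.2.2.2.2.2.2.2.2.2.2.1
theorem rf36h9 : AllL LnOK rf36l19 := batch_of rf36th.2.2.2.2.2.2.2.2.2.2.2.2.2.2.2.2.2.2.2.1
theorem rf36h10 : AllL LnOK rf36l20 := batch_of rf36th.2.2.2.2.2.2.2.2.2.2.2.2.2.2.2.2.2.2.2.2.1
theorem rf36h11 : AllL LnOK rf36l21 := batch_of rf36th.2.2.2.2.2.2.2.2.2.2.2.2.2.2.2.2.2.2.2.2.2.1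
theorem rf36h12 : AllL LnOK rf36l22 := batch_of rf36th.2.2.2.2.2.2.2.2.2.2.2.2.2.2.2.2.2.2.2.2.2.2.1
theorem rf36h13 : AllL LnOK rf36l23 := batch_of rf36th.2.2.2.2.2.2.2.2.2.2.2.2.2.2.2.2.2.2.2.2.2.2.2.1
theorem rf36h14 : AllL LnOK rf36l24 := batch_of rf36th.2.2.2.2.2.2.2.2.2.2.2.2.2.2.2.2.2.2.2.2.2.2.2.2.1
theorem rf36h15 : AllL LnOK rf36l25 := batch_of rf36th.2.2.2.2.2.2.2.2.2.2.2.2.2.2.2.2.2.2.2.2.2.2.2.2.2.1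
theorem rf36h16 : AllL LnOK rf36l26 := batch_of rf36th.2.2.2.2.2.2.2.2.2.2.2.2.2.2.2.2.2.2.2.2.2.2.2.2.2.2.1
theorem rf36h17 : AllL LnOK rf36l27 := batch_of rf36th.2.2.2.2.2.2.2.2.2.2.2.2.2.2.2.2.2.2.2.2.2.2.2.2.2.2.2.1
theorem rf36h18 : AllL LnOK rf36l28 := batch_of rf36th.2.2.2.2.2.2.2.2.2.2.2.2.2.2.2.2.2.2.2.2.2.2.2.2.2.2.2.2.1
theorem rf36h19 : AllL LnOK rf36l29 := batch_of rf36th.2.2.2.2.2.2.2.2.2.2.2.2.2.2.2.2.2.2.2.2.2.2.2.2.2.2.2.2.2.1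
theorem rf36h20 : AllL LnOK rf36l30 := batch_of rf36th.2.2.2.2.2.2.2.2.2.2.2.2.2.2.2.2.2.2.2.2.2.2.2.2.2.2.2.2.2.2.1
theorem rf36h21 : AllL LnOK rf36l31 := batch_of rf36th.2.2.2.2.2.2.2.2.2.2.2.2.2.2.2.2.2.2.2.2.2.2.2.2.2.2.2.2.2.2.2.1
theorem rf36h22 : AllL LnOK rf36l32 := batch_of rf36th.2.2.2.2.2.2.2.2.2.2.2.2.2.2.2.2.2.2.2.2.2.2.2.2.2.2.2.2.2.2.2.2
theorem rf36h23 : AllL LnOK rf36l8 := batch_of rf36th.2.2.2.2.2.2.2.2.1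
theorem rf36h24 : AllL LnOK rf36l9 := batch_of rf36th.2.2.2.2.2.2.2.2.2.1
theorem rf36h25 : AllL LnOK rf36l0 := ck2_of (ck0_of rf36th.1) rf36th.2.1
theorem rf36h26 : AllL LnOK rf36l2 := ck2_of (ck0_of rf36th.2.2.1) rf36th.2.2.2.1
theorem rf36h27 : AllL LnOK rf36l4 := ck2_of (ck0_of rf36th.2.2.2.2.1) rf36th.2.2.2.2.2.1
theorem rf36h28 : AllL LnOK rf36l6 := ck2_of (ck0_of rf36th.2.2.2.2.2.2.1) rf36th.2.2.2.2.2.2.2.1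
theorem rf37h0 : AllL LnOK rf37l0 := ck2_of (ck0_of rf37th.1) rf37th.2.1
theorem rf37h1 : AllL LnOK rf37l10 := ck2_of (ck0_of rf37th.2.2.2.2.2.2.2.2.2.2.1) rf37th.2.2.2.2.2.2.2.2.2.2.2.1
theorem rf37h2 : AllL LnOK rf37l12 := ck2_of (ck0_of rf37th.2.2.2.2.2.2.2.2.2.2.2.2.1) rf37th.2.2.2.2.2.2.2.2.2.2.2.2.2.1
theorem rf37h3 : AllL LnOK rf37l14 := ck2_of (ck0_of rf37th.2.2.2.2.2.2.2.2.2.2.2.2.2.2.1) rf37th.2.2.2.2.2.2.2.2.2.2.2.2.2.2.2.1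
theorem rf37h4 : AllL LnOK rf37l16 := ck2_of (ck0_of rf37th.2.2.2.2.2.2.2.2.2.2.2.2.2.2.2.2.1) rf37th.2.2.2.2.2.2.2.2.2.2.2.2.2.2.2.2.2.1
theorem rf37h5 : AllL LnOK rf37l18 := ck2_of (ck0_of rf37th.2.2.2.2.2.2.2.2.2.2.2.2.2.2.2.2.2.2.1) rf37th.2.2.2.2.2.2.2.2.2.2.2.2.2.2.2.2.2.2.2.1
theorem rf37h6 : AllL LnOK rf37l2 := ck2_of (ck0_of rf37th.2.2.1) rf37th.2.2.2.1
theorem rf37h7 : AllL LnOK rf37l20 := ck2_of (ck0_of rf37th.2.2.2.2.2.2.2.2.2.2.2.2.2.2.2.2.2.2.2.2.1) rf37th.2.2.2.2.2.2.2.2.2.2.2.2.2.2.2.2.2.2.2.2.2.1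
theorem rf37h8 : AllL LnOK rf37l22 := ck2_of (ck0_of rf37th.2.2.2.2.2.2.2.2.2.2.2.2.2.2.2.2.2.2.2.2.2.2.1) rf37th.2.2.2.2.2.2.2.2.2.2.2.2.2.2.2.2.2.2.2.2.2.2.2.1
theorem rf37h9 : AllL LnOK rf37l24 := ck2_of (ck0_of rf37th.2.2.2.2.2.2.2.2.2.2.2.2.2.2.2.2.2.2.2.2.2.2.2.2.1) rf37th.2.2.2.2.2.2.2.2.2.2.2.2.2.2.2.2.2.2.2.2.2.2.2.2.2.1
theorem rf37h10 : AllL LnOK rf37l26 := ck2_of (ck0_of rf37th.2.2.2.2.2.2.2.2.2.2.2.2.2.2.2.2.2.2.2.2.2.2.2.2.2.2.1) rf37th.2.2.2.2.2.2.2.2.2.2.2.2.2.2.2.2.2.2.2.2.2.2.2.2.2.2.2.1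
theorem rf37h11 : AllL LnOK rf37l28 := ck2_of (ck0_of rf37th.2.2.2.2.2.2.2.2.2.2.2.2.2.2.2.2.2.2.2.2.2.2.2.2.2.2.2.2.1) rf37th.2.2.2.2.2.2.2.2.2.2.2.2.2.2.2.2.2.2.2.2.2.2.2.2.2.2.2.2.2.1
theorem rf37h12 : AllL LnOK rf37l30 := ck2_of (ck0_of rf37th.2.2.2.2.2.2.2.2.2.2.2.2.2.2.2.2.2.2.2.2.2.2.2.2.2.2.2.2.2.2.1) rf37th.2.2.2.2.2.2.2.2.2.2.2.2.2.2.2.2.2.2.2.2.2.2.2.2.2.2.2.2.2.2.2.1
theorem rf37h13 : AllL LnOK rf37l32 := ck2_of (ck0_of rf37th.2.2.2.2.2.2.2.2.2.2.2.2.2.2.2.2.2.2.2.2.2.2.2.2.2.2.2.2.2.2.2.2.1) rf37th.2.2.2.2.2.2.2.2.2.2.2.2.2.2.2.2.2.2.2.2.2.2.2.2.2.2.2.2.2.2.2.2.2.1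
theorem rf37h14 : AllL LnOK rf37l34 := ck2_of (ck0_of rf37th.2.2.2.2.2.2.2.2.2.2.2.2.2.2.2.2.2.2.2.2.2.2.2.2.2.2.2.2.2.2.2.2.2.2.1) rf37th.2.2.2.2.2.2.2.2.2.2.2.2.2.2.2.2.2.2.2.2.2.2.2.2.2.2.2.2.2.2.2.2.2.2.2.1
theorem rf37h15 : AllL LnOK rf37l36 := ck2_of (ck0_of rf37th.2.2.2.2.2.2.2.2.2.2.2.2.2.2.2.2.2.2.2.2.2.2.2.2.2.2.2.2.2.2.2.2.2.2.2.2.1) rf37th.2.2.2.2.2.2.2.2.2.2.2.2.2.2.2.2.2.2.2.2.2.2.2.2.2.2.2.2.2.2.2.2.2.2.2.2.2.1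
theorem rf37h16 : AllL LnOK rf37l38 := ck2_of (ck0_of rf37th.2.2.2.2.2.2.2.2.2.2.2.2.2.2.2.2.2.2.2.2.2.2.2.2.2.2.2.2.2.2.2.2.2.2.2.2.2.2.1) rf37th.2.2.2.2.2.2.2.2.2.2.2.2.2.2.2.2.2.2.2.2.2.2.2.2.2.2.2.2.2.2.2.2.2.2.2.2.2.2.2.1
theorem rf37h17 : AllL LnOK rf37l4 := ck2_of (ck0_of rf37th.2.2.2.2.1) rf37th.2.2.2.2.2.1
theorem rf37h18 : AllL LnOK rf37l40 := ck2_of (ck0_of rf37th.2.2.2.2.2.2.2.2.2.2.2.2.2.2.2.2.2.2.2.2.2.2.2.2.2.2.2.2.2.2.2.2.2.2.2.2.2.2.2.2.1) rf37th.2.2.2.2.2.2.2.2.2.2.2.2.2.2.2.2.2.2.2.2.2.2.2.2.2.2.2.2.2.2.2.2.2.2.2.2.2.2.2.2.2.1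
theorem rf37h19 : AllL LnOK rf37l42 := ck2_of (ck0_of rf37th.2.2.2.2.2.2.2.2.2.2.2.2.2.2.2.2.2.2.2.2.2.2.2.2.2.2.2.2.2.2.2.2.2.2.2.2.2.2.2.2.2.2.1) rf37th.2.2.2.2.2.2.2.2.2.2.2.2.2.2.2.2.2.2.2.2.2.2.2.2.2.2.2.2.2.2.2.2.2.2.2.2.2.2.2.2.2.2.2.1
theorem rf37h20 : AllL LnOK rf37l44 := ck2_of (ck0_of rf37th.2.2.2.2.2.2.2.2.2.2.2.2.2.2.2.2.2.2.2.2.2.2.2.2.2.2.2.2.2.2.2.2.2.2.2.2.2.2.2.2.2.2.2.2.1) rf37th.2.2.2.2.2.2.2.2.2.2.2.2.2.2.2.2.2.2.2.2.2.2.2.2.2.2.2.2.2.2.2.2.2.2.2.2.2.2.2.2.2.2.2.2.2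
theorem rf37h21 : AllL LnOK rf37l6 := ck2_of (ck0_of rf37th.2.2.2.2.2.2.1) rf37th.2.2.2.2.2.2.2.1
theorem rf37h22 : AllL LnOK rf37l8 := ck2_of (ck0_of rf37th.2.2.2.2.2.2.2.2.1) rf37th.2.2.2.2.2.2.2.2.2.1
theorem rf38h0 : AllL LnOK rf38l38 := batch_of rf38th.2.2.2.2.2.2.2.2.2.2.2.2.2.2.2.2.2.2.2.2.2.2.2.2.2.2.2.2.2.2.2.2.2.2.2.2.2.2
theorem rf38h1 : AllL LnOK rf38l0 := ck2_of (ck0_of rf38th.1) rf38th.2.1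
theorem rf38h2 : AllL LnOK rf38l10 := ck2_of (ck0_of rf38th.2.2.2.2.2.2.2.2.2.2.1) rf38th.2.2.2.2.2.2.2.2.2.2.2.1
theorem rf38h3 : AllL LnOK rf38l12 := ck2_of (ck0_of rf38th.2.2.2.2.2.2.2.2.2.2.2.2.1) rf38th.2.2.2.2.2.2.2.2.2.2.2.2.2.1
theorem rf38h4 : AllL LnOK rf38l14 := ck2_of (ck0_of rf38th.2.2.2.2.2.2.2.2.2.2.2.2.2.2.1) rf38th.2.2.2.2.2.2.2.2.2.2.2.2.2.2.2.1
theorem rf38h5 : AllL LnOK rf38l16 := ck2_of (ck0_of rf38th.2.2.2.2.2.2.2.2.2.2.2.2.2.2.2.2.1) rf38th.2.2.2.2.2.2.2.2.2.2.2.2.2.2.2.2.2.1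
theorem rf38h6 : AllL LnOK rf38l18 := ck2_of (ck0_of rf38th.2.2.2.2.2.2.2.2.2.2.2.2.2.2.2.2.2.2.1) rf38th.2.2.2.2.2.2.2.2.2.2.2.2.2.2.2.2.2.2.2.1
theorem rf38h7 : AllL LnOK rf38l2 := ck2_of (ck0_of rf38th.2.2.1) rf38th.2.2.2.1
theorem rf38h8 : AllL LnOK rf38l20 := ck2_of (ck0_of rf38th.2.2.2.2.2.2.2.2.2.2.2.2.2.2.2.2.2.2.2.2.1) rf38th.2.2.2.2.2.2.2.2.2.2.2.2.2.2.2.2.2.2.2.2.2.1
theorem rf38h9 : AllL LnOK rf38l22 := ck2_of (ck0_of rf38th.2.2.2.2.2.2.2.2.2.2.2.2.2.2.2.2.2.2.2.2.2.2.1) rf38th.2.2.2.2.2.2.2.2.2.2.2.2.2.2.2.2.2.2.2.2.2.2.2.1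
theorem rf38h10 : AllL LnOK rf38l24 := ck2_of (ck0_of rf38th.2.2.2.2.2.2.2.2.2.2.2.2.2.2.2.2.2.2.2.2.2.2.2.2.1) rf38th.2.2.2.2.2.2.2.2.2.2.2.2.2.2.2.2.2.2.2.2.2.2.2.2.2.1
theorem rf38h11 : AllL LnOK rf38l26 := ck2_of (ck0_of rf38th.2.2.2.2.2.2.2.2.2.2.2.2.2.2.2.2.2.2.2.2.2.2.2.2.2.2.1) rf38th.2.2.2.2.2.2.2.2.2.2.2.2.2.2.2.2.2.2.2.2.2.2.2.2.2.2.2.1
theorem rf38h12 : AllL LnOK rf38l28 := ck2_of (ck0_of rf38th.2.2.2.2.2.2.2.2.2.2.2.2.2.2.2.2.2.2.2.2.2.2.2.2.2.2.2.2.1) rf38th.2.2.2.2.2.2.2.2.2.2.2.2.2.2.2.2.2.2.2.2.2.2.2.2.2.2.2.2.2.1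
theorem rf38h13 : AllL LnOK rf38l30 := ck2_of (ck0_of rf38th.2.2.2.2.2.2.2.2.2.2.2.2.2.2.2.2.2.2.2.2.2.2.2.2.2.2.2.2.2.2.1) rf38th.2.2.2.2.2.2.2.2.2.2.2.2.2.2.2.2.2.2.2.2.2.2.2.2.2.2.2.2.2.2.2.1
theorem rf38h14 : AllL LnOK rf38l32 := ck2_of (ck0_of rf38th.2.2.2.2.2.2.2.2.2.2.2.2.2.2.2.2.2.2.2.2.2.2.2.2.2.2.2.2.2.2.2.2.1) rf38th.2.2.2.2.2.2.2.2.2.2.2.2.2.2.2.2.2.2.2.2.2.2.2.2.2.2.2.2.2.2.2.2.2.1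
theorem rf38h15 : AllL LnOK rf38l34 := ck2_of (ck0_of rf38th.2.2.2.2.2.2.2.2.2.2.2.2.2.2.2.2.2.2.2.2.2.2.2.2.2.2.2.2.2.2.2.2.2.2.1) rf38th.2.2.2.2.2.2.2.2.2.2.2.2.2.2.2.2.2.2.2.2.2.2.2.2.2.2.2.2.2.2.2.2.2.2.2.1
theorem rf38h16 : AllL LnOK rf38l36 := ck2_of (ck0_of rf38th.2.2.2.2.2.2.2.2.2.2.2.2.2.2.2.2.2.2.2.2.2.2.2.2.2.2.2.2.2.2.2.2.2.2.2.2.1) rf38th.2.2.2.2.2.2.2.2.2.2.2.2.2.2.2.2.2.2.2.2.2.2.2.2.2.2.2.2.2.2.2.2.2.2.2.2.2.1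
theorem rf38h17 : AllL LnOK rf38l4 := ck2_of (ck0_of rf38th.2.2.2.2.1) rf38th.2.2.2.2.2.1
theorem rf38h18 : AllL LnOK rf38l6 := ck2_of (ck0_of rf38th.2.2.2.2.2.2.1) rf38th.2.2.2.2.2.2.2.1
theorem rf38h19 : AllL LnOK rf38l8 := ck2_of (ck0_of rf38th.2.2.2.2.2.2.2.2.1) rf38th.2.2.2.2.2.2.2.2.2.1
theorem rf39h0 : AllL LnOK rf39l0 := ck2_of (ck0_of rf39th.1) rf39th.2.1
theorem rf39h1 : AllL LnOK rf39l10 := ck2_of (ck0_of rf39th.2.2.2.2.2.2.2.2.2.2.1) rf39th.2.2.2.2.2.2.2.2.2.2.2.1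
theorem rf39h2 : AllL LnOK rf39l12 := ck2_of (ck0_of rf39th.2.2.2.2.2.2.2.2.2.2.2.2.1) rf39th.2.2.2.2.2.2.2.2.2.2.2.2.2.1
theorem rf39h3 : AllL LnOK rf39l14 := ck2_of (ck0_of rf39th.2.2.2.2.2.2.2.2.2.2.2.2.2.2.1) rf39th.2.2.2.2.2.2.2.2.2.2.2.2.2.2.2.1
theorem rf39h4 : AllL LnOK rf39l16 := ck2_of (ck0_of rf39th.2.2.2.2.2.2.2.2.2.2.2.2.2.2.2.2.1) rf39th.2.2.2.2.2.2.2.2.2.2.2.2.2.2.2.2.2.1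
theorem rf39h5 : AllL LnOK rf39l18 := ck2_of (ck0_of rf39th.2.2.2.2.2.2.2.2.2.2.2.2.2.2.2.2.2.2.1) rf39th.2.2.2.2.2.2.2.2.2.2.2.2.2.2.2.2.2.2.2.1
theorem rf39h6 : AllL LnOK rf39l2 := ck2_of (ck0_of rf39th.2.2.1) rf39th.2.2.2.1
theorem rf39h7 : AllL LnOK rf39l20 := ck2_of (ck0_of rf39th.2.2.2.2.2.2.2.2.2.2.2.2.2.2.2.2.2.2.2.2.1) rf39th.2.2.2.2.2.2.2.2.2.2.2.2.2.2.2.2.2.2.2.2.2.1
theorem rf39h8 : AllL LnOK rf39l22 := ck2_of (ck0_of rf39th.2.2.2.2.2.2.2.2.2.2.2.2.2.2.2.2.2.2.2.2.2.2.1) rf39th.2.2.2.2.2.2.2.2.2.2.2.2.2.2.2.2.2.2.2.2.2.2.2.1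
theorem rf39h9 : AllL LnOK rf39l24 := ck2_of (ck0_of rf39th.2.2.2.2.2.2.2.2.2.2.2.2.2.2.2.2.2.2.2.2.2.2.2.2.1) rf39th.2.2.2.2.2.2.2.2.2.2.2.2.2.2.2.2.2.2.2.2.2.2.2.2.2.1
theorem rf39h10 : AllL LnOK rf39l26 := ck2_of (ck0_of rf39th.2.2.2.2.2.2.2.2.2.2.2.2.2.2.2.2.2.2.2.2.2.2.2.2.2.2.1) rf39th.2.2.2.2.2.2.2.2.2.2.2.2.2.2.2.2.2.2.2.2.2.2.2.2.2.2.2.1
theorem rf39h11 : AllL LnOK rf39l28 := ck2_of (ck0_of rf39th.2.2.2.2.2.2.2.2.2.2.2.2.2.2.2.2.2.2.2.2.2.2.2.2.2.2.2.2.1) rf39th.2.2.2.2.2.2.2.2.2.2.2.2.2.2.2.2.2.2.2.2.2.2.2.2.2.2.2.2.2.1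
theorem rf39h12 : AllL LnOK rf39l30 := ck2_of (ck0_of rf39th.2.2.2.2.2.2.2.2.2.2.2.2.2.2.2.2.2.2.2.2.2.2.2.2.2.2.2.2.2.2.1) rf39th.2.2.2.2.2.2.2.2.2.2.2.2.2.2.2.2.2.2.2.2.2.2.2.2.2.2.2.2.2.2.2.1
theorem rf39h13 : AllL LnOK rf39l32 := ck2_of (ck0_of rf39th.2.2.2.2.2.2.2.2.2.2.2.2.2.2.2.2.2.2.2.2.2.2.2.2.2.2.2.2.2.2.2.2.1) rf39th.2.2.2.2.2.2.2.2.2.2.2.2.2.2.2.2.2.2.2.2.2.2.2.2.2.2.2.2.2.2.2.2.2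
theorem rf39h14 : AllL LnOK rf39l4 := ck2_of (ck0_of rf39th.2.2.2.2.1) rf39th.2.2.2.2.2.1
theorem rf39h15 : AllL LnOK rf39l6 := ck2_of (ck0_of rf39th.2.2.2.2.2.2.1) rf39th.2.2.2.2.2.2.2.1
theorem rf39h16 : AllL LnOK rf39l8 := ck2_of (ck0_of rf39th.2.2.2.2.2.2.2.2.1) rf39th.2.2.2.2.2.2.2.2.2.1
theorem rf36k0 : CfgOK (rf36c0.e, rf36c0.n) := red_ln rf36h21.1 rf36h21.1.1
theorem rf36k1 : CfgOK (rf36c1.e, rf36c1.n) := red_ln rf36h20.1 rf36h20.1.1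
theorem rf36k2 : CfgOK (rf36c2.e, rf36c2.n) := red_ln rf36h19.1 rf36h19.1.1
theorem rf36k3 : CfgOK (rf36c3.e, rf36c3.n) := red_ln rf36h18.1 rf36h18.1.1
theorem rf36k4 : CfgOK (rf36c4.e, rf36c4.n) := red_ln rf36h17.1 rf36h17.1.1
theorem rf36k5 : CfgOK (rf36c5.e, rf36c5.n) := red_ln rf36h16.1 rf36h16.1.1
theorem rf36k6 : CfgOK (rf36c6.e, rf36c6.n) := red_ln rf36h15.1 rf36h15.1.1
theorem rf36k7 : CfgOK (rf36c7.e, rf36c7.n) := red_ln rf36h14.1 rf36h14.1.1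
theorem rf36k8 : CfgOK (rf36c8.e, rf36c8.n) := red_ln rf36h13.1 rf36h13.1.1
theorem rf36k9 : CfgOK (rf36c9.e, rf36c9.n) := red_ln rf36h12.1 rf36h12.1.1
theorem rf36k10 : CfgOK (rf36c10.e, rf36c10.n) := red_ln rf36h11.1 rf36h11.1.1
theorem rf36k11 : CfgOK (rf36c11.e, rf36c11.n) := red_ln rf36h10.1 rf36h10.1.1
theorem rf36k12 : CfgOK (rf36c12.e, rf36c12.n) := red_ln rf36h9.1 rf36h9.1.1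
theorem rf36k13 : CfgOK (rf36c13.e, rf36c13.n) := red_ln rf36h8.1 rf36h8.1.1
theorem rf36k14 : CfgOK (rf36c14.e, rf36c14.n) := red_ln rf36h7.1 rf36h7.1.1
theorem rf36k15 : CfgOK (rf36c15.e, rf36c15.n) := red_ln rf36h6.1 rf36h6.1.1
theorem rf36k16 : CfgOK (rf36c16.e, rf36c16.n) := red_ln rf36h5.1 rf36h5.1.1
theorem rf36k17 : CfgOK (rf36c17.e, rf36c17.n) := red_ln rf36h4.1 rf36h4.1.1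
theorem rf36k18 : CfgOK (rf36c18.e, rf36c18.n) := red_ln rf36h3.1 rf36h3.1.1
theorem rf36k19 : CfgOK (rf36c19.e, rf36c19.n) := red_ln rf36h2.1 rf36h2.1.1
theorem rf36k20 : CfgOK (rf36c20.e, rf36c20.n) := red_ln rf36h1.1 rf36h1.1.1
theorem rf36k21 : CfgOK (rf36c21.e, rf36c21.n) := red_ln rf36h0.1 rf36h0.1.1
theorem rf36k22 : CfgOK (rf36c22.e, rf36c22.n) := red_ln rf36h24.1 rf36h24.1.1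
theorem rf36k23 : CfgOK (rf36c23.e, rf36c23.n) := red_ln rf36h23.1 ⟨rf36h23.1.1, rf36h22.1.1⟩
theorem rf36k24 : CfgOK (rf36c24.e, rf36c24.n) := red_ln rf36h28.1 rf36h28.1.1
theorem rf36k25 : CfgOK (rf36c25.e, rf36c25.n) := red_ln rf36h27.1 rf36h27.1.1
theorem rf36k26 : CfgOK (rf36c26.e, rf36c26.n) := red_ln rf36h26.1 rf36h26.1.1
theorem rf36k27 : CfgOK (rf36c27.e, rf36c27.n) := red_ln rf36h25.1 rf36h25.1.1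
theorem rf37k0 : CfgOK (rf37c0.e, rf37c0.n) := red_ln rf37h20.1 rf37h20.1.1
theorem rf37k1 : CfgOK (rf37c1.e, rf37c1.n) := red_ln rf37h19.1 rf37h19.1.1
theorem rf37k2 : CfgOK (rf37c2.e, rf37c2.n) := red_ln rf37h18.1 rf37h18.1.1
theorem rf37k3 : CfgOK (rf37c3.e, rf37c3.n) := red_ln rf37h16.1 rf37h16.1.1
theorem rf37k4 : CfgOK (rf37c4.e, rf37c4.n) := red_ln rf37h15.1 rf37h15.1.1
theorem rf37k5 : CfgOK (rf37c5.e, rf37c5.n) := red_ln rf37h14.1 rf37h14.1.1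
theorem rf37k6 : CfgOK (rf37c6.e, rf37c6.n) := red_ln rf37h13.1 rf37h13.1.1
theorem rf37k7 : CfgOK (rf37c7.e, rf37c7.n) := red_ln rf37h12.1 rf37h12.1.1
theorem rf37k8 : CfgOK (rf37c8.e, rf37c8.n) := red_ln rf37h11.1 rf37h11.1.1
theorem rf37k9 : CfgOK (rf37c9.e, rf37c9.n) := red_ln rf37h10.1 rf37h10.1.1
theorem rf37k10 : CfgOK (rf37c10.e, rf37c10.n) := red_ln rf37h9.1 rf37h9.1.1
theorem rf37k11 : CfgOK (rf37c11.e, rf37c11.n) := red_ln rf37h8.1 rf37h8.1.1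
theorem rf37k12 : CfgOK (rf37c12.e, rf37c12.n) := red_ln rf37h7.1 rf37h7.1.1
theorem rf37k13 : CfgOK (rf37c13.e, rf37c13.n) := red_ln rf37h5.1 rf37h5.1.1
theorem rf37k14 : CfgOK (rf37c14.e, rf37c14.n) := red_ln rf37h4.1 rf37h4.1.1
theorem rf37k15 : CfgOK (rf37c15.e, rf37c15.n) := red_ln rf37h3.1 rf37h3.1.1
theorem rf37k16 : CfgOK (rf37c16.e, rf37c16.n) := red_ln rf37h2.1 rf37h2.1.1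
theorem rf37k17 : CfgOK (rf37c17.e, rf37c17.n) := red_ln rf37h1.1 rf37h1.1.1
theorem rf37k18 : CfgOK (rf37c18.e, rf37c18.n) := red_ln rf37h22.1 rf37h22.1.1
theorem rf37k19 : CfgOK (rf37c19.e, rf37c19.n) := red_ln rf37h21.1 rf37h21.1.1
theorem rf37k20 : CfgOK (rf37c20.e, rf37c20.n) := red_ln rf37h17.1 rf37h17.1.1
theorem rf37k21 : CfgOK (rf37c21.e, rf37c21.n) := red_ln rf37h6.1 rf37h6.1.1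
theorem rf37k22 : CfgOK (rf37c22.e, rf37c22.n) := red_ln rf37h0.1 rf37h0.1.1
theorem rf38k0 : CfgOK (rf38c0.e, rf38c0.n) := red_ln rf38h16.1 rf38h16.1.1
theorem rf38k1 : CfgOK (rf38c1.e, rf38c1.n) := red_ln rf38h15.1 rf38h15.1.1
theorem rf38k2 : CfgOK (rf38c2.e, rf38c2.n) := red_ln rf38h14.1 rf38h14.1.1
theorem rf38k3 : CfgOK (rf38c3.e, rf38c3.n) := red_ln rf38h13.1 rf38h13.1.1
theorem rf38k4 : CfgOK (rf38c4.e, rf38c4.n) := red_ln rf38h12.1 rf38h12.1.1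
theorem rf38k5 : CfgOK (rf38c5.e, rf38c5.n) := red_ln rf38h11.1 rf38h11.1.1
theorem rf38k6 : CfgOK (rf38c6.e, rf38c6.n) := red_ln rf38h10.1 rf38h10.1.1
theorem rf38k7 : CfgOK (rf38c7.e, rf38c7.n) := red_ln rf38h9.1 rf38h9.1.1
theorem rf38k8 : CfgOK (rf38c8.e, rf38c8.n) := red_ln rf38h8.1 rf38h8.1.1
theorem rf38k9 : CfgOK (rf38c9.e, rf38c9.n) := red_ln rf38h6.1 rf38h6.1.1
theorem rf38k10 : CfgOK (rf38c10.e, rf38c10.n) := red_ln rf38h5.1 rf38h5.1.1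
theorem rf38k11 : CfgOK (rf38c11.e, rf38c11.n) := red_ln rf38h4.1 rf38h4.1.1
theorem rf38k12 : CfgOK (rf38c12.e, rf38c12.n) := red_ln rf38h3.1 rf38h3.1.1
theorem rf38k13 : CfgOK (rf38c13.e, rf38c13.n) := red_ln rf38h2.1 ⟨rf38h2.1.1, rf38h0.1.1⟩
theorem rf38k14 : CfgOK (rf38c14.e, rf38c14.n) := red_ln rf38h19.1 rf38h19.1.1
theorem rf38k15 : CfgOK (rf38c15.e, rf38c15.n) := red_ln rf38h18.1 rf38h18.1.1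
theorem rf38k16 : CfgOK (rf38c16.e, rf38c16.n) := red_ln rf38h17.1 rf38h17.1.1
theorem rf38k17 : CfgOK (rf38c17.e, rf38c17.n) := red_ln rf38h7.1 rf38h7.1.1
theorem rf38k18 : CfgOK (rf38c18.e, rf38c18.n) := red_ln rf38h1.1 rf38h1.1.1
theorem rf39k0 : CfgOK (rf39c0.e, rf39c0.n) := red_ln rf39h13.1 rf39h13.1.1
theorem rf39k1 : CfgOK (rf39c1.e, rf39c1.n) := red_ln rf39h12.1 rf39h12.1.1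
theorem rf39k2 : CfgOK (rf39c2.e, rf39c2.n) := red_ln rf39h11.1 rf39h11.1.1
theorem rf39k3 : CfgOK (rf39c3.e, rf39c3.n) := red_ln rf39h10.1 rf39h10.1.1
theorem rf39k4 : CfgOK (rf39c4.e, rf39c4.n) := red_ln rf39h9.1 rf39h9.1.1
theorem rf39k5 : CfgOK (rf39c5.e, rf39c5.n) := red_ln rf39h8.1 rf39h8.1.1
theorem rf39k6 : CfgOK (rf39c6.e, rf39c6.n) := red_ln rf39h7.1 rf39h7.1.1
theorem rf39k7 : CfgOK (rf39c7.e, rf39c7.n) := red_ln rf39h5.1 rf39h5.1.1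
theorem rf39k8 : CfgOK (rf39c8.e, rf39c8.n) := red_ln rf39h4.1 rf39h4.1.1
theorem rf39k9 : CfgOK (rf39c9.e, rf39c9.n) := red_ln rf39h3.1 rf39h3.1.1
theorem rf39k10 : CfgOK (rf39c10.e, rf39c10.n) := red_ln rf39h2.1 rf39h2.1.1
theorem rf39k11 : CfgOK (rf39c11.e, rf39c11.n) := red_ln rf39h1.1 rf39h1.1.1
theorem rf39k12 : CfgOK (rf39c12.e, rf39c12.n) := red_ln rf39h16.1 rf39h16.1.1
theorem rf39k13 : CfgOK (rf39c13.e, rf39c13.n) := red_ln rf39h15.1 rf39h15.1.1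
theorem rf39k14 : CfgOK (rf39c14.e, rf39c14.n) := red_ln rf39h14.1 rf39h14.1.1
theorem rf39k15 : CfgOK (rf39c15.e, rf39c15.n) := red_ln rf39h6.1 rf39h6.1.1
theorem rf39k16 : CfgOK (rf39c16.e, rf39c16.n) := red_ln rf39h0.1 rf39h0.1.1

end Pool.Agent.Lib.G6.B
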