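import Pool.Agent.Lib.G6.BRed
import Pool.Agent.Lib.G6D.RF0

set_option autoImplicit false
set_option maxRecDepth 100000
set_option linter.all false

namespace Pool.Agent.Lib.G6.B

theorem rf0h0 : AllL LnOK rf0l0 := batch_of rf0th.1
theorem rf0h1 : AllL LnOK rf0l1 := batch_of rf0th.2.1
theorem rf0h2 : AllL LnOK rf0l10 := batch_of rf0th.2.2.2.2.2.2.2.2.2.2.1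
theorem rf0h3 : AllL LnOK rf0l11 := batch_of rf0th.2.2.2.2.2.2.2.2.2.2.2.1
theorem rf0h4 : AllL LnOK rf0l12 := batch_of rf0th.2.2.2.2.2.2.2.2.2.2.2.2.1
theorem rf0h5 : AllL LnOK rf0l13 := batch_of rf0th.2.2.2.2.2.2.2.2.2.2.2.2.2.1
theorem rf0h6 : AllL LnOK rf0l14 := batch_of rf0th.2.2.2.2.2.2.2.2.2.2.2.2.2.2.1
theorem rf0h7 : AllL LnOK rf0l15 := batch_of rf0th.2.2.2.2.2.2.2.2.2.2.2.2.2.2.2.1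
theorem rf0h8 : AllL LnOK rf0l16 := batch_of rf0th.2.2.2.2.2.2.2.2.2.2.2.2.2.2.2.2.1
theorem rf0h9 : AllL LnOK rf0l17 := batch_of rf0th.2.2.2.2.2.2.2.2.2.2.2.2.2.2.2.2.2.1
theorem rf0h10 : AllL LnOK rf0l18 := batch_of rf0th.2.2.2.2.2.2.2.2.2.2.2.2.2.2.2.2.2.2.1
theorem rf0h11 : AllL LnOK rf0l19 := batch_of rf0th.2.2.2.2.2.2.2.2.2.2.2.2.2.2.2.2.2.2.2.1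
theorem rf0h12 : AllL LnOK rf0l2 := batch_of rf0th.2.2.1
theorem rf0h13 : AllL LnOK rf0l20 := batch_of rf0th.2.2.2.2.2.2.2.2.2.2.2.2.2.2.2.2.2.2.2.2.1
theorem rf0h14 : AllL LnOK rf0l21 := batch_of rf0th.2.2.2.2.2.2.2.2.2.2.2.2.2.2.2.2.2.2.2.2.2.1
theorem rf0h15 : AllL LnOK rf0l22 := batch_of rf0th.2.2.2.2.2.2.2.2.2.2.2.2.2.2.2.2.2.2.2.2.2.2.1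
theorem rf0h16 : AllL LnOK rf0l23 := batch_of rf0th.2.2.2.2.2.2.2.2.2.2.2.2.2.2.2.2.2.2.2.2.2.2.2.1
theorem rf0h17 : AllL LnOK rf0l24 := batch_of rf0th.2.2.2.2.2.2.2.2.2.2.2.2.2.2.2.2.2.2.2.2.2.2.2.2.1
theorem rf0h18 : AllL LnOK rf0l25 := batch_of rf0th.2.2.2.2.2.2.2.2.2.2.2.2.2.2.2.2.2.2.2.2.2.2.2.2.2.1
theorem rf0h19 : AllL LnOK rf0l26 := batch_of rf0th.2.2.2.2.2.2.2.2.2.2.2.2.2.2.2.2.2.2.2.2.2.2.2.2.2.2.1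
theorem rf0h20 : AllL LnOK rf0l27 := batch_of rf0th.2.2.2.2.2.2.2.2.2.2.2.2.2.2.2.2.2.2.2.2.2.2.2.2.2.2.2.1
theorem rf0h21 : AllL LnOK rf0l28 := batch_of rf0th.2.2.2.2.2.2.2.2.2.2.2.2.2.2.2.2.2.2.2.2.2.2.2.2.2.2.2.2.1
theorem rf0h22 : AllL LnOK rf0l29 := batch_of rf0th.2.2.2.2.2.2.2.2.2.2.2.2.2.2.2.2.2.2.2.2.2.2.2.2.2.2.2.2.2.1
theorem rf0h23 : AllL LnOK rf0l3 := batch_of rf0th.2.2.2.1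
theorem rf0h24 : AllL LnOK rf0l30 := batch_of rf0th.2.2.2.2.2.2.2.2.2.2.2.2.2.2.2.2.2.2.2.2.2.2.2.2.2.2.2.2.2.2.1
theorem rf0h25 : AllL LnOK rf0l31 := batch_of rf0th.2.2.2.2.2.2.2.2.2.2.2.2.2.2.2.2.2.2.2.2.2.2.2.2.2.2.2.2.2.2.2.1
theorem rf0h26 : AllL LnOK rf0l32 := batch_of rf0th.2.2.2.2.2.2.2.2.2.2.2.2.2.2.2.2.2.2.2.2.2.2.2.2.2.2.2.2.2.2.2.2.1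
theorem rf0h27 : AllL LnOK rf0l33 := batch_of rf0th.2.2.2.2.2.2.2.2.2.2.2.2.2.2.2.2.2.2.2.2.2.2.2.2.2.2.2.2.2.2.2.2.2.1
theorem rf0h28 : AllL LnOK rf0l34 := batch_of rf0th.2.2.2.2.2.2.2.2.2.2.2.2.2.2.2.2.2.2.2.2.2.2.2.2.2.2.2.2.2.2.2.2.2.2.1
theorem rf0h29 : AllL LnOK rf0l35 := batch_of rf0th.2.2.2.2.2.2.2.2.2.2.2.2.2.2.2.2.2.2.2.2.2.2.2.2.2.2.2.2.2.2.2.2.2.2.2.1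
theorem rf0h30 : AllL LnOK rf0l36 := batch_of rf0th.2.2.2.2.2.2.2.2.2.2.2.2.2.2.2.2.2.2.2.2.2.2.2.2.2.2.2.2.2.2.2.2.2.2.2.2.1
theorem rf0h31 : AllL LnOK rf0l37 := batch_of rf0th.2.2.2.2.2.2.2.2.2.2.2.2.2.2.2.2.2.2.2.2.2.2.2.2.2.2.2.2.2.2.2.2.2.2.2.2.2.1
theorem rf0h32 : AllL LnOK rf0l38 := batch_of rf0th.2.2.2.2.2.2.2.2.2.2.2.2.2.2.2.2.2.2.2.2.2.2.2.2.2.2.2.2.2.2.2.2.2.2.2.2.2.2.1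
theorem rf0h33 : AllL LnOK rf0l39 := batch_of rf0th.2.2.2.2.2.2.2.2.2.2.2.2.2.2.2.2.2.2.2.2.2.2.2.2.2.2.2.2.2.2.2.2.2.2.2.2.2.2.2.1
theorem rf0h34 : AllL LnOK rf0l4 := batch_of rf0th.2.2.2.2.1
theorem rf0h35 : AllL LnOK rf0l40 := batch_of rf0th.2.2.2.2.2.2.2.2.2.2.2.2.2.2.2.2.2.2.2.2.2.2.2.2.2.2.2.2.2.2.2.2.2.2.2.2.2.2.2.2.1
theorem rf0h36 : AllL LnOK rf0l41 := batch_of rf0th.2.2.2.2.2.2.2.2.2.2.2.2.2.2.2.2.2.2.2.2.2.2.2.2.2.2.2.2.2.2.2.2.2.2.2.2.2.2.2.2.2.1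
theorem rf0h37 : AllL LnOK rf0l42 := batch_of rf0th.2.2.2.2.2.2.2.2.2.2.2.2.2.2.2.2.2.2.2.2.2.2.2.2.2.2.2.2.2.2.2.2.2.2.2.2.2.2.2.2.2.2.1
theorem rf0h38 : AllL LnOK rf0l43 := batch_of rf0th.2.2.2.2.2.2.2.2.2.2.2.2.2.2.2.2.2.2.2.2.2.2.2.2.2.2.2.2.2.2.2.2.2.2.2.2.2.2.2.2.2.2.2.1
theorem rf0h39 : AllL LnOK rf0l44 := batch_of rf0th.2.2.2.2.2.2.2.2.2.2.2.2.2.2.2.2.2.2.2.2.2.2.2.2.2.2.2.2.2.2.2.2.2.2.2.2.2.2.2.2.2.2.2.2.1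
theorem rf0h40 : AllL LnOK rf0l45 := batch_of rf0th.2.2.2.2.2.2.2.2.2.2.2.2.2.2.2.2.2.2.2.2.2.2.2.2.2.2.2.2.2.2.2.2.2.2.2.2.2.2.2.2.2.2.2.2.2.1
theorem rf0h41 : AllL LnOK rf0l46 := batch_of rf0th.2.2.2.2.2.2.2.2.2.2.2.2.2.2.2.2.2.2.2.2.2.2.2.2.2.2.2.2.2.2.2.2.2.2.2.2.2.2.2.2.2.2.2.2.2.2.1
theorem rf0h42 : AllL LnOK rf0l47 := batch_of rf0th.2.2.2.2.2.2.2.2.2.2.2.2.2.2.2.2.2.2.2.2.2.2.2.2.2.2.2.2.2.2.2.2.2.2.2.2.2.2.2.2.2.2.2.2.2.2.2.1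
theorem rf0h43 : AllL LnOK rf0l48 := batch_of rf0th.2.2.2.2.2.2.2.2.2.2.2.2.2.2.2.2.2.2.2.2.2.2.2.2.2.2.2.2.2.2.2.2.2.2.2.2.2.2.2.2.2.2.2.2.2.2.2.2.1
theorem rf0h44 : AllL LnOK rf0l49 := batch_of rf0th.2.2.2.2.2.2.2.2.2.2.2.2.2.2.2.2.2.2.2.2.2.2.2.2.2.2.2.2.2.2.2.2.2.2.2.2.2.2.2.2.2.2.2.2.2.2.2.2.2.1
theorem rf0h45 : AllL LnOK rf0l5 := batch_of rf0th.2.2.2.2.2.1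
theorem rf0h46 : AllL LnOK rf0l50 := batch_of rf0th.2.2.2.2.2.2.2.2.2.2.2.2.2.2.2.2.2.2.2.2.2.2.2.2.2.2.2.2.2.2.2.2.2.2.2.2.2.2.2.2.2.2.2.2.2.2.2.2.2.2.1
theorem rf0h47 : AllL LnOK rf0l51 := batch_of rf0th.2.2.2.2.2.2.2.2.2.2.2.2.2.2.2.2.2.2.2.2.2.2.2.2.2.2.2.2.2.2.2.2.2.2.2.2.2.2.2.2.2.2.2.2.2.2.2.2.2.2.2.1
theorem rf0h48 : AllL LnOK rf0l52 := batch_of rf0th.2.2.2.2.2.2.2.2.2.2.2.2.2.2.2.2.2.2.2.2.2.2.2.2.2.2.2.2.2.2.2.2.2.2.2.2.2.2.2.2.2.2.2.2.2.2.2.2.2.2.2.2.1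
theorem rf0h49 : AllL LnOK rf0l53 := batch_of rf0th.2.2.2.2.2.2.2.2.2.2.2.2.2.2.2.2.2.2.2.2.2.2.2.2.2.2.2.2.2.2.2.2.2.2.2.2.2.2.2.2.2.2.2.2.2.2.2.2.2.2.2.2.2.1
theorem rf0h50 : AllL LnOK rf0l54 := batch_of rf0th.2.2.2.2.2.2.2.2.2.2.2.2.2.2.2.2.2.2.2.2.2.2.2.2.2.2.2.2.2.2.2.2.2.2.2.2.2.2.2.2.2.2.2.2.2.2.2.2.2.2.2.2.2.2.1
theorem rf0h51 : AllL LnOK rf0l55 := batch_of rf0th.2.2.2.2.2.2.2.2.2.2.2.2.2.2.2.2.2.2.2.2.2.2.2.2.2.2.2.2.2.2.2.2.2.2.2.2.2.2.2.2.2.2.2.2.2.2.2.2.2.2.2.2.2.2.2.1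
theorem rf0h52 : AllL LnOK rf0l56 := batch_of rf0th.2.2.2.2.2.2.2.2.2.2.2.2.2.2.2.2.2.2.2.2.2.2.2.2.2.2.2.2.2.2.2.2.2.2.2.2.2.2.2.2.2.2.2.2.2.2.2.2.2.2.2.2.2.2.2.2.1
theorem rf0h53 : AllL LnOK rf0l57 := batch_of rf0th.2.2.2.2.2.2.2.2.2.2.2.2.2.2.2.2.2.2.2.2.2.2.2.2.2.2.2.2.2.2.2.2.2.2.2.2.2.2.2.2.2.2.2.2.2.2.2.2.2.2.2.2.2.2.2.2.2.1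
theorem rf0h54 : AllL LnOK rf0l58 := batch_of rf0th.2.2.2.2.2.2.2.2.2.2.2.2.2.2.2.2.2.2.2.2.2.2.2.2.2.2.2.2.2.2.2.2.2.2.2.2.2.2.2.2.2.2.2.2.2.2.2.2.2.2.2.2.2.2.2.2.2.2.1
theorem rf0h55 : AllL LnOK rf0l59 := batch_of rf0th.2.2.2.2.2.2.2.2.2.2.2.2.2.2.2.2.2.2.2.2.2.2.2.2.2.2.2.2.2.2.2.2.2.2.2.2.2.2.2.2.2.2.2.2.2.2.2.2.2.2.2.2.2.2.2.2.2.2.2.1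
theorem rf0h56 : AllL LnOK rf0l6 := batch_of rf0th.2.2.2.2.2.2.1
theorem rf0h57 : AllL LnOK rf0l60 := batch_of rf0th.2.2.2.2.2.2.2.2.2.2.2.2.2.2.2.2.2.2.2.2.2.2.2.2.2.2.2.2.2.2.2.2.2.2.2.2.2.2.2.2.2.2.2.2.2.2.2.2.2.2.2.2.2.2.2.2.2.2.2.2.1
theorem rf0h58 : AllL LnOK rf0l61 := batch_of rf0th.2.2.2.2.2.2.2.2.2.2.2.2.2.2.2.2.2.2.2.2.2.2.2.2.2.2.2.2.2.2.2.2.2.2.2.2.2.2.2.2.2.2.2.2.2.2.2.2.2.2.2.2.2.2.2.2.2.2.2.2.2.1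
theorem rf0h59 : AllL LnOK rf0l62 := batch_of rf0th.2.2.2.2.2.2.2.2.2.2.2.2.2.2.2.2.2.2.2.2.2.2.2.2.2.2.2.2.2.2.2.2.2.2.2.2.2.2.2.2.2.2.2.2.2.2.2.2.2.2.2.2.2.2.2.2.2.2.2.2.2.2.1
theorem rf0h60 : AllL LnOK rf0l63 := batch_of rf0th.2.2.2.2.2.2.2.2.2.2.2.2.2.2.2.2.2.2.2.2.2.2.2.2.2.2.2.2.2.2.2.2.2.2.2.2.2.2.2.2.2.2.2.2.2.2.2.2.2.2.2.2.2.2.2.2.2.2.2.2.2.2.2.1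
theorem rf0h61 : AllL LnOK rf0l64 := batch_of rf0th.2.2.2.2.2.2.2.2.2.2.2.2.2.2.2.2.2.2.2.2.2.2.2.2.2.2.2.2.2.2.2.2.2.2.2.2.2.2.2.2.2.2.2.2.2.2.2.2.2.2.2.2.2.2.2.2.2.2.2.2.2.2.2.2.1
theorem rf0h62 : AllL LnOK rf0l65 := batch_of rf0th.2.2.2.2.2.2.2.2.2.2.2.2.2.2.2.2.2.2.2.2.2.2.2.2.2.2.2.2.2.2.2.2.2.2.2.2.2.2.2.2.2.2.2.2.2.2.2.2.2.2.2.2.2.2.2.2.2.2.2.2.2.2.2.2.2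
theorem rf0h63 : AllL LnOK rf0l7 := batch_of rf0th.2.2.2.2.2.2.2.1
theorem rf0h64 : AllL LnOK rf0l8 := batch_of rf0th.2.2.2.2.2.2.2.2.1
theorem rf0h65 : AllL LnOK rf0l9 := batch_of rf0th.2.2.2.2.2.2.2.2.2.1
theorem rf0k0 : CfgOK (rf0c0.e, rf0c0.n) := red_ln rf0h0.1 ⟨⟨rf0h0.1.1, rf0h1.2.2.2.2.2.1.1⟩, ⟨rf0h1.2.2.2.2.1.1, rf0h12.2.1.1⟩⟩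
theorem rf0k1 : CfgOK (rf0c1.e, rf0c1.n) := red_ln rf0h23.2.2.1 ⟨⟨rf0h23.2.2.1.1, rf0h34.2.1.1⟩, ⟨rf0h1.2.2.2.1.1, rf0h12.1.1⟩⟩
theorem rf0k2 : CfgOK (rf0c2.e, rf0c2.n) := red_ln rf0h45.1 ⟨⟨rf0h45.1.1, rf0h56.2.1.1⟩, ⟨rf0h63.2.2.2.2.2.2.1.1, rf0h1.2.2.1.1⟩⟩
theorem rf0k3 : CfgOK (rf0c3.e, rf0c3.n) := red_ln rf0h64.2.2.1 ⟨⟨rf0h64.2.2.1.1, rf0h65.1.1⟩, ⟨rf0h23.2.1.1, rf0h34.1.1⟩⟩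
theorem rf0k4 : CfgOK (rf0c4.e, rf0c4.n) := red_ln rf0h2.1 ⟨⟨rf0h2.1.1, rf0h23.1.1⟩, ⟨rf0h63.2.2.2.2.2.1.1, rf0h1.2.1.1⟩⟩
theorem rf0k5 : CfgOK (rf0c5.e, rf0c5.n) := red_ln rf0h3.1 ⟨⟨⟨rf0h3.1.1, rf0h4.2.2.2.2.2.2.2.2.2.2.2.2.2.2.2.2.1.1⟩, ⟨rf0h5.2.2.2.1.1, rf0h63.2.2.2.2.1.1⟩⟩, ⟨⟨rf0h5.2.2.2.2.1.1, rf0h63.2.2.2.1.1⟩, ⟨rf0h63.2.2.1.1, rf0h1.1.1⟩⟩⟩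
theorem rf0k6 : CfgOK (rf0c6.e, rf0c6.n) := red_ln rf0h6.2.1 ⟨⟨rf0h6.2.1.1, rf0h7.2.2.2.2.2.1.1⟩, ⟨rf0h8.2.2.2.2.1.1, rf0h9.2.1.1⟩⟩
theorem rf0k7 : CfgOK (rf0c7.e, rf0c7.n) := red_ln rf0h6.1 ⟨⟨rf0h6.1.1, rf0h7.2.2.2.2.1.1⟩, ⟨rf0h8.2.2.2.1.1, rf0h9.1.1⟩⟩
theorem rf0k8 : CfgOK (rf0c8.e, rf0c8.n) := red_ln rf0h10.2.2.2.2.2.2.2.1 ⟨⟨rf0h10.2.2.2.2.2.2.2.1.1, rf0h8.2.2.1.1⟩, ⟨rf0h5.2.2.1.1, rf0h56.1.1⟩⟩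
theorem rf0k9 : CfgOK (rf0c9.e, rf0c9.n) := red_ln rf0h13.2.2.2.2.2.2.2.2.2.2.2.2.2.2.2.1 rf0h13.2.2.2.2.2.2.2.2.2.2.2.2.2.2.2.1.1
theorem rf0k10 : CfgOK (rf0c10.e, rf0c10.n) := red_ln rf0h13.2.2.2.2.2.2.2.2.2.2.2.2.2.2.1 ⟨rf0h13.2.2.2.2.2.2.2.2.2.2.2.2.2.2.1.1, rf0h15.2.2.2.2.2.2.2.2.2.1.1⟩
theorem rf0k11 : CfgOK (rf0c11.e, rf0c11.n) := red_ln rf0h13.2.2.2.2.2.2.2.2.2.1 ⟨⟨rf0h13.2.2.2.2.2.2.2.2.2.1.1, rf0h15.2.2.2.2.2.2.2.1.1⟩, ⟨rf0h17.2.2.2.2.2.2.2.2.2.2.2.2.2.2.2.2.2.2.2.1.1, rf0h4.2.2.2.2.2.2.2.2.2.2.2.2.2.2.2.1.1⟩⟩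
theorem rf0k12 : CfgOK (rf0c12.e, rf0c12.n) := red_ln rf0h18.2.2.2.2.2.2.2.2.1 rf0h18.2.2.2.2.2.2.2.2.1.1
theorem rf0k13 : CfgOK (rf0c13.e, rf0c13.n) := red_ln rf0h18.2.2.2.2.2.2.2.1 ⟨rf0h18.2.2.2.2.2.2.2.1.1, rf0h17.2.2.2.2.2.2.2.2.2.2.2.2.2.2.2.2.2.2.1.1⟩
theorem rf0k14 : CfgOK (rf0c14.e, rf0c14.n) := red_ln rf0h18.2.2.2.2.2.2.1 ⟨⟨rf0h18.2.2.2.2.2.2.1.1, rf0h15.2.2.2.2.2.2.2.2.2.2.2.2.2.2.2.2.2.2.2.1.1⟩, ⟨rf0h17.2.2.2.2.2.2.2.2.2.2.2.2.2.2.2.2.2.1.1, rf0h4.2.2.2.2.2.2.2.2.2.2.2.2.2.2.1.1⟩⟩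
theorem rf0k15 : CfgOK (rf0c15.e, rf0c15.n) := red_ln rf0h18.2.2.2.2.2.1 ⟨⟨rf0h18.2.2.2.2.2.1.1, rf0h15.2.2.1.1⟩, ⟨rf0h17.2.2.2.2.2.2.2.2.2.2.2.2.2.2.2.2.1.1, rf0h4.2.2.2.2.2.2.2.2.2.2.2.2.2.1.1⟩⟩
theorem rf0k16 : CfgOK (rf0c16.e, rf0c16.n) := red_ln rf0h18.2.2.2.2.1 ⟨⟨⟨rf0h18.2.2.2.2.1.1, rf0h15.2.2.2.2.2.2.2.2.1.1⟩, ⟨rf0h17.2.2.2.2.2.2.2.2.2.2.2.2.2.2.2.1.1, rf0h4.2.2.2.2.2.2.2.2.2.2.2.2.1.1⟩⟩, ⟨⟨rf0h15.2.2.2.2.2.2.2.2.2.2.2.2.2.2.2.2.2.2.1.1, rf0h5.2.1.1⟩, ⟨rf0h4.2.2.2.2.2.2.2.2.2.2.2.1.1, rf0h63.2.1.1⟩⟩⟩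
theorem rf0k17 : CfgOK (rf0c17.e, rf0c17.n) := red_ln rf0h18.2.2.2.1 ⟨⟨rf0h18.2.2.2.1.1, rf0h15.2.2.2.2.2.2.1.1⟩, ⟨rf0h17.2.2.2.2.2.2.2.2.2.2.2.2.2.2.1.1, rf0h4.2.2.2.2.2.2.2.2.2.2.1.1⟩⟩
theorem rf0k18 : CfgOK (rf0c18.e, rf0c18.n) := red_ln rf0h18.2.2.1 ⟨⟨rf0h18.2.2.1.1, rf0h15.2.2.2.2.2.1.1⟩, ⟨rf0h17.2.2.2.2.2.2.2.2.2.2.2.2.2.1.1, rf0h4.2.2.2.2.2.2.2.2.2.1.1⟩⟩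
theorem rf0k19 : CfgOK (rf0c19.e, rf0c19.n) := red_ln rf0h18.2.1 ⟨⟨⟨rf0h18.2.1.1, rf0h15.2.2.2.2.1.1⟩, ⟨rf0h15.2.2.2.2.2.2.2.2.2.2.2.2.2.2.2.2.2.1.1, rf0h5.1.1⟩⟩, ⟨⟨rf0h17.2.2.2.2.2.2.2.2.2.2.2.2.1.1, rf0h4.2.2.2.2.2.2.2.2.1.1⟩, ⟨rf0h4.2.2.2.2.2.2.2.1.1, rf0h63.1.1⟩⟩⟩
theorem rf0k20 : CfgOK (rf0c20.e, rf0c20.n) := red_ln rf0h18.1 ⟨⟨rf0h18.1.1, rf0h15.2.1.1⟩, ⟨rf0h17.2.2.2.2.2.2.2.2.2.2.2.1.1, rf0h4.2.2.2.2.2.2.1.1⟩⟩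
theorem rf0k21 : CfgOK (rf0c21.e, rf0c21.n) := red_ln rf0h19.2.2.2.2.2.2.2.2.2.2.2.2.2.2.2.2.2.2.2.2.2.2.2.2.2.1 rf0h19.2.2.2.2.2.2.2.2.2.2.2.2.2.2.2.2.2.2.2.2.2.2.2.2.2.1.1
theorem rf0k22 : CfgOK (rf0c22.e, rf0c22.n) := red_ln rf0h19.2.2.2.2.2.2.2.2.2.2.2.2.2.2.2.2.2.2.2.2.2.2.2.2.1 rf0h19.2.2.2.2.2.2.2.2.2.2.2.2.2.2.2.2.2.2.2.2.2.2.2.2.1.1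
theorem rf0k23 : CfgOK (rf0c23.e, rf0c23.n) := red_ln rf0h19.2.2.2.2.2.2.2.2.2.2.2.2.2.2.2.2.2.2.2.2.2.2.2.1 rf0h19.2.2.2.2.2.2.2.2.2.2.2.2.2.2.2.2.2.2.2.2.2.2.2.1.1
theorem rf0k24 : CfgOK (rf0c24.e, rf0c24.n) := red_ln rf0h19.2.2.2.2.2.2.2.2.2.2.2.2.2.2.2.2.2.2.2.2.2.2.1 rf0h19.2.2.2.2.2.2.2.2.2.2.2.2.2.2.2.2.2.2.2.2.2.2.1.1
theorem rf0k25 : CfgOK (rf0c25.e, rf0c25.n) := red_ln rf0h19.2.2.2.2.2.2.2.2.2.2.2.2.2.2.2.2.2.2.2.2.2.1 rf0h19.2.2.2.2.2.2.2.2.2.2.2.2.2.2.2.2.2.2.2.2.2.1.1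
theorem rf0k26 : CfgOK (rf0c26.e, rf0c26.n) := red_ln rf0h19.2.2.2.2.2.2.2.2.2.2.2.2.2.2.2.2.2.2.2.2.1 rf0h19.2.2.2.2.2.2.2.2.2.2.2.2.2.2.2.2.2.2.2.2.1.1
theorem rf0k27 : CfgOK (rf0c27.e, rf0c27.n) := red_ln rf0h19.2.2.2.2.2.2.2.2.2.2.2.2.2.2.2.2.2.2.2.1 ⟨rf0h19.2.2.2.2.2.2.2.2.2.2.2.2.2.2.2.2.2.2.2.1.1, rf0h20.2.2.2.2.2.2.2.2.2.2.2.2.2.2.1.1⟩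
theorem rf0k28 : CfgOK (rf0c28.e, rf0c28.n) := red_ln rf0h19.2.2.2.2.2.2.2.2.2.2.2.2.2.2.2.2.2.2.1 ⟨rf0h19.2.2.2.2.2.2.2.2.2.2.2.2.2.2.2.2.2.2.1.1, rf0h20.2.2.2.2.2.2.2.2.2.2.2.2.2.1.1⟩
theorem rf0k29 : CfgOK (rf0c29.e, rf0c29.n) := red_ln rf0h19.2.2.2.2.2.2.2.2.2.2.2.2.2.2.2.2.2.1 ⟨rf0h19.2.2.2.2.2.2.2.2.2.2.2.2.2.2.2.2.2.1.1, rf0h20.2.2.2.2.2.2.2.2.2.2.2.2.1.1⟩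
theorem rf0k30 : CfgOK (rf0c30.e, rf0c30.n) := red_ln rf0h19.2.2.2.2.2.2.2.2.2.2.2.2.2.2.2.2.1 ⟨rf0h19.2.2.2.2.2.2.2.2.2.2.2.2.2.2.2.2.1.1, rf0h20.2.2.2.2.2.2.2.2.2.2.2.1.1⟩
theorem rf0k31 : CfgOK (rf0c31.e, rf0c31.n) := red_ln rf0h19.2.2.2.2.2.2.2.2.2.2.2.2.2.2.2.1 ⟨rf0h19.2.2.2.2.2.2.2.2.2.2.2.2.2.2.2.1.1, rf0h20.2.2.2.2.2.2.2.2.2.2.1.1⟩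
theorem rf0k32 : CfgOK (rf0c32.e, rf0c32.n) := red_ln rf0h19.2.2.2.2.2.2.2.2.2.2.2.2.2.2.1 ⟨⟨rf0h19.2.2.2.2.2.2.2.2.2.2.2.2.2.2.1.1, rf0h21.2.2.2.2.1.1⟩, ⟨rf0h20.2.2.2.2.2.2.2.2.2.1.1, rf0h64.2.1.1⟩⟩
theorem rf0k33 : CfgOK (rf0c33.e, rf0c33.n) := red_ln rf0h19.2.2.2.2.2.2.2.2.2.2.2.2.2.1 ⟨⟨rf0h19.2.2.2.2.2.2.2.2.2.2.2.2.2.1.1, rf0h21.2.2.2.1.1⟩, ⟨rf0h22.2.2.2.2.2.2.2.2.2.2.2.2.2.2.2.1.1, rf0h7.2.2.2.1.1⟩⟩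
theorem rf0k34 : CfgOK (rf0c34.e, rf0c34.n) := red_ln rf0h19.2.2.2.2.2.2.2.2.2.2.2.2.1 ⟨⟨rf0h19.2.2.2.2.2.2.2.2.2.2.2.2.1.1, rf0h21.2.2.1.1⟩, ⟨rf0h22.2.2.2.2.2.2.2.2.2.2.2.2.2.2.1.1, rf0h7.2.2.1.1⟩⟩
theorem rf0k35 : CfgOK (rf0c35.e, rf0c35.n) := red_ln rf0h19.2.2.1 ⟨rf0h19.2.2.1.1, rf0h20.2.2.2.2.2.2.2.2.1.1⟩
theorem rf0k36 : CfgOK (rf0c36.e, rf0c36.n) := red_ln rf0h24.2.2.2.2.1 ⟨rf0h24.2.2.2.2.1.1, rf0h20.2.2.2.2.2.2.2.1.1⟩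
theorem rf0k37 : CfgOK (rf0c37.e, rf0c37.n) := red_ln rf0h24.2.2.2.1 ⟨⟨rf0h24.2.2.2.1.1, rf0h21.2.1.1⟩, ⟨rf0h22.2.2.2.2.2.2.2.2.2.2.2.2.2.1.1, rf0h7.2.1.1⟩⟩
theorem rf0k38 : CfgOK (rf0c38.e, rf0c38.n) := red_ln rf0h24.2.2.1 ⟨rf0h24.2.2.1.1, rf0h20.2.2.2.2.2.2.1.1⟩
theorem rf0k39 : CfgOK (rf0c39.e, rf0c39.n) := red_ln rf0h24.2.1 ⟨⟨rf0h24.2.1.1, rf0h21.1.1⟩, ⟨rf0h22.2.2.2.2.2.2.2.2.2.2.2.2.1.1, rf0h7.1.1⟩⟩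
theorem rf0k40 : CfgOK (rf0c40.e, rf0c40.n) := red_ln rf0h24.1 rf0h24.1.1
theorem rf0k41 : CfgOK (rf0c41.e, rf0c41.n) := red_ln rf0h25.2.2.2.2.2.2.2.2.2.2.2.2.2.2.2.2.2.2.2.2.2.2.2.1 rf0h25.2.2.2.2.2.2.2.2.2.2.2.2.2.2.2.2.2.2.2.2.2.2.2.1.1
theorem rf0k42 : CfgOK (rf0c42.e, rf0c42.n) := red_ln rf0h25.2.2.2.2.2.2.2.2.2.2.2.2.2.2.2.2.2.2.2.2.2.2.1 rf0h25.2.2.2.2.2.2.2.2.2.2.2.2.2.2.2.2.2.2.2.2.2.2.1.1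
theorem rf0k43 : CfgOK (rf0c43.e, rf0c43.n) := red_ln rf0h25.2.2.2.2.2.2.2.2.2.2.2.2.2.2.2.2.2.2.2.2.2.1 rf0h25.2.2.2.2.2.2.2.2.2.2.2.2.2.2.2.2.2.2.2.2.2.1.1
theorem rf0k44 : CfgOK (rf0c44.e, rf0c44.n) := red_ln rf0h25.2.2.2.2.2.2.2.2.2.2.2.2.2.2.2.2.2.2.2.2.1 ⟨⟨rf0h25.2.2.2.2.2.2.2.2.2.2.2.2.2.2.2.2.2.2.2.2.1.1, rf0h22.2.2.2.2.2.2.2.2.2.2.2.1.1⟩, ⟨rf0h10.2.2.1.1, rf0h8.2.1.1⟩⟩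
theorem rf0k45 : CfgOK (rf0c45.e, rf0c45.n) := red_ln rf0h25.2.2.2.2.2.2.2.1 rf0h25.2.2.2.2.2.2.2.1.1
theorem rf0k46 : CfgOK (rf0c46.e, rf0c46.n) := red_ln rf0h25.2.2.2.2.2.2.1 ⟨⟨rf0h25.2.2.2.2.2.2.1.1, rf0h20.2.2.2.2.2.1.1⟩, ⟨rf0h22.2.2.2.2.2.2.2.2.2.2.1.1, rf0h64.1.1⟩⟩
theorem rf0k47 : CfgOK (rf0c47.e, rf0c47.n) := red_ln rf0h25.2.1 ⟨rf0h25.2.1.1, rf0h20.2.2.2.2.1.1⟩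
theorem rf0k48 : CfgOK (rf0c48.e, rf0c48.n) := red_ln rf0h25.1 ⟨rf0h25.1.1, rf0h20.2.2.2.1.1⟩
theorem rf0k49 : CfgOK (rf0c49.e, rf0c49.n) := red_ln rf0h26.2.2.2.2.2.2.2.2.2.2.2.2.1 ⟨rf0h26.2.2.2.2.2.2.2.2.2.2.2.2.1.1, rf0h10.2.2.2.2.2.2.1.1⟩
theorem rf0k50 : CfgOK (rf0c50.e, rf0c50.n) := red_ln rf0h26.2.2.2.2.2.2.2.2.2.2.2.1 ⟨⟨rf0h26.2.2.2.2.2.2.2.2.2.2.2.1.1, rf0h22.2.2.2.2.2.2.2.2.2.1.1⟩, ⟨rf0h10.2.2.2.2.2.1.1, rf0h8.1.1⟩⟩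
theorem rf0k51 : CfgOK (rf0c51.e, rf0c51.n) := red_ln rf0h26.2.2.2.2.2.2.2.2.2.2.1 rf0h26.2.2.2.2.2.2.2.2.2.2.1.1
theorem rf0k52 : CfgOK (rf0c52.e, rf0c52.n) := red_ln rf0h26.2.2.2.2.2.2.2.2.2.1 rf0h26.2.2.2.2.2.2.2.2.2.1.1
theorem rf0k53 : CfgOK (rf0c53.e, rf0c53.n) := red_ln rf0h26.2.2.2.2.2.2.2.2.1 ⟨rf0h26.2.2.2.2.2.2.2.2.1.1, rf0h20.2.2.1.1⟩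
theorem rf0k54 : CfgOK (rf0c54.e, rf0c54.n) := red_ln rf0h26.2.2.2.2.2.2.2.1 rf0h26.2.2.2.2.2.2.2.1.1
theorem rf0k55 : CfgOK (rf0c55.e, rf0c55.n) := red_ln rf0h26.2.2.2.2.2.2.1 rf0h26.2.2.2.2.2.2.1.1
theorem rf0k56 : CfgOK (rf0c56.e, rf0c56.n) := red_ln rf0h26.2.2.2.2.2.1 rf0h26.2.2.2.2.2.1.1
theorem rf0k57 : CfgOK (rf0c57.e, rf0c57.n) := red_ln rf0h26.2.2.2.2.1 rf0h26.2.2.2.2.1.1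
theorem rf0k58 : CfgOK (rf0c58.e, rf0c58.n) := red_ln rf0h26.2.2.2.1 ⟨rf0h26.2.2.2.1.1, rf0h20.2.1.1⟩
theorem rf0k59 : CfgOK (rf0c59.e, rf0c59.n) := red_ln rf0h26.2.2.1 ⟨rf0h26.2.2.1.1, rf0h27.2.2.2.2.2.1.1⟩
theorem rf0k60 : CfgOK (rf0c60.e, rf0c60.n) := red_ln rf0h26.2.1 ⟨rf0h26.2.1.1, rf0h20.1.1⟩
theorem rf0k61 : CfgOK (rf0c61.e, rf0c61.n) := red_ln rf0h26.1 ⟨rf0h26.1.1, rf0h27.2.2.2.2.1.1⟩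
theorem rf0k62 : CfgOK (rf0c62.e, rf0c62.n) := red_ln rf0h28.2.2.2.2.2.2.2.2.1 ⟨rf0h28.2.2.2.2.2.2.2.2.1.1, rf0h15.2.2.2.1.1⟩
theorem rf0k63 : CfgOK (rf0c63.e, rf0c63.n) := red_ln rf0h28.2.1 ⟨rf0h28.2.1.1, rf0h27.2.2.2.1.1⟩
theorem rf0k64 : CfgOK (rf0c64.e, rf0c64.n) := red_ln rf0h29.2.2.2.2.2.2.1 rf0h29.2.2.2.2.2.2.1.1
theorem rf0k65 : CfgOK (rf0c65.e, rf0c65.n) := red_ln rf0h29.2.2.2.2.2.1 rf0h29.2.2.2.2.2.1.1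
theorem rf0k66 : CfgOK (rf0c66.e, rf0c66.n) := red_ln rf0h29.2.2.2.2.1 ⟨rf0h29.2.2.2.2.1.1, rf0h27.2.2.1.1⟩
theorem rf0k67 : CfgOK (rf0c67.e, rf0c67.n) := red_ln rf0h29.2.2.2.1 ⟨rf0h29.2.2.2.1.1, rf0h27.2.1.1⟩
theorem rf0k68 : CfgOK (rf0c68.e, rf0c68.n) := red_ln rf0h29.2.2.1 rf0h29.2.2.1.1
theorem rf0k69 : CfgOK (rf0c69.e, rf0c69.n) := red_ln rf0h29.2.1 ⟨rf0h29.2.1.1, rf0h27.1.1⟩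
theorem rf0k70 : CfgOK (rf0c70.e, rf0c70.n) := red_ln rf0h29.1 rf0h29.1.1
theorem rf0k71 : CfgOK (rf0c71.e, rf0c71.n) := red_ln rf0h35.2.2.2.2.2.2.2.1 ⟨⟨rf0h35.2.2.2.2.2.2.2.1.1, rf0h39.2.2.2.2.2.2.2.2.2.2.2.1.1⟩, ⟨rf0h14.2.1.1, rf0h17.2.2.2.2.2.2.2.2.2.2.1.1⟩⟩
theorem rf0k72 : CfgOK (rf0c72.e, rf0c72.n) := red_ln rf0h35.2.2.2.2.2.2.1 ⟨⟨⟨rf0h35.2.2.2.2.2.2.1.1, rf0h13.2.2.2.2.2.2.2.2.1.1⟩, ⟨rf0h39.2.2.2.2.2.2.2.2.2.2.1.1, rf0h17.2.2.2.2.2.2.2.2.2.1.1⟩⟩, ⟨⟨rf0h14.1.1, rf0h15.2.2.2.2.2.2.2.2.2.2.2.2.2.2.2.2.1.1⟩, ⟨rf0h17.2.2.2.2.2.2.2.2.1.1, rf0h4.2.2.2.2.2.1.1⟩⟩⟩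
theorem rf0k73 : CfgOK (rf0c73.e, rf0c73.n) := red_ln rf0h33.2.2.2.2.2.2.2.2.2.2.2.2.2.2.2.2.2.2.2.2.2.2.2.1 ⟨rf0h33.2.2.2.2.2.2.2.2.2.2.2.2.2.2.2.2.2.2.2.2.2.2.2.1.1, rf0h39.2.2.2.2.2.2.2.2.2.1.1⟩
theorem rf0k74 : CfgOK (rf0c74.e, rf0c74.n) := red_ln rf0h33.2.2.2.2.2.2.2.2.2.2.2.2.2.2.2.2.2.2.2.2.2.2.1 ⟨⟨rf0h33.2.2.2.2.2.2.2.2.2.2.2.2.2.2.2.2.2.2.2.2.2.2.1.1, rf0h13.2.2.2.2.2.2.2.2.2.2.2.2.2.2.2.2.2.2.2.2.2.2.2.2.2.2.2.2.2.1.1⟩, ⟨rf0h39.2.2.2.2.2.2.2.2.1.1, rf0h17.2.2.2.2.2.2.2.1.1⟩⟩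
theorem rf0k75 : CfgOK (rf0c75.e, rf0c75.n) := red_ln rf0h33.2.2.2.2.2.2.2.2.2.2.2.2.2.2.2.2.2.2.2.2.2.1 ⟨⟨rf0h33.2.2.2.2.2.2.2.2.2.2.2.2.2.2.2.2.2.2.2.2.2.1.1, rf0h13.2.2.2.2.2.2.2.1.1⟩, ⟨rf0h39.2.2.2.2.2.2.2.1.1, rf0h17.2.2.2.2.2.2.1.1⟩⟩
theorem rf0k76 : CfgOK (rf0c76.e, rf0c76.n) := red_ln rf0h33.2.2.2.2.2.2.2.2.2.2.2.2.2.2.2.2.2.2.2.2.1 ⟨⟨⟨rf0h33.2.2.2.2.2.2.2.2.2.2.2.2.2.2.2.2.2.2.2.2.1.1, rf0h13.2.2.2.2.2.2.1.1⟩, ⟨rf0h13.2.2.2.2.2.2.2.2.2.2.2.2.2.2.2.2.2.2.2.2.2.2.2.2.2.2.2.2.1.1, rf0h15.2.2.2.2.2.2.2.2.2.2.2.2.2.2.2.1.1⟩⟩, ⟨⟨rf0h39.2.2.2.2.2.2.1.1, rf0h17.2.2.2.2.2.1.1⟩, ⟨rf0h17.2.2.2.2.1.1, rf0h4.2.2.2.2.1.1⟩⟩⟩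
theorem rf0k77 : CfgOK (rf0c77.e, rf0c77.n) := red_ln rf0h32.2.1 rf0h32.2.1.1
theorem rf0k78 : CfgOK (rf0c78.e, rf0c78.n) := red_ln rf0h32.1 rf0h32.1.1
theorem rf0k79 : CfgOK (rf0c79.e, rf0c79.n) := red_ln rf0h31.2.2.2.2.2.2.2.2.2.2.2.2.2.2.2.2.2.2.2.2.2.2.2.2.2.2.2.2.2.1 ⟨rf0h31.2.2.2.2.2.2.2.2.2.2.2.2.2.2.2.2.2.2.2.2.2.2.2.2.2.2.2.2.2.1.1, rf0h39.2.2.2.2.2.1.1⟩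
theorem rf0k80 : CfgOK (rf0c80.e, rf0c80.n) := red_ln rf0h31.2.2.2.2.2.2.2.2.2.2.2.2.2.2.2.2.2.2.2.2.2.2.2.2.2.2.2.2.1 ⟨⟨⟨rf0h31.2.2.2.2.2.2.2.2.2.2.2.2.2.2.2.2.2.2.2.2.2.2.2.2.2.2.2.2.1.1, rf0h39.2.2.2.2.1.1⟩, ⟨rf0h13.2.2.2.2.2.2.2.2.2.2.2.2.2.2.2.2.2.2.2.2.2.2.2.2.2.2.2.1.1, rf0h17.2.2.2.1.1⟩⟩, ⟨⟨rf0h13.2.2.2.2.2.2.2.2.2.2.2.2.2.2.2.2.2.2.2.2.2.2.2.2.2.2.1.1, rf0h17.2.2.1.1⟩, ⟨rf0h15.2.2.2.2.2.2.2.2.2.2.2.2.2.2.1.1, rf0h4.2.2.2.1.1⟩⟩⟩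
theorem rf0k81 : CfgOK (rf0c81.e, rf0c81.n) := red_ln rf0h31.2.2.2.2.2.2.2.2.2.2.2.2.2.2.2.2.2.2.2.2.2.2.2.2.2.2.2.1 ⟨⟨rf0h31.2.2.2.2.2.2.2.2.2.2.2.2.2.2.2.2.2.2.2.2.2.2.2.2.2.2.2.1.1, rf0h13.2.2.2.2.2.1.1⟩, ⟨rf0h39.2.2.2.1.1, rf0h17.2.1.1⟩⟩
theorem rf0k82 : CfgOK (rf0c82.e, rf0c82.n) := red_ln rf0h31.2.2.2.2.2.2.2.2.2.2.2.2.2.2.2.2.2.2.2.2.2.2.2.2.2.2.1 ⟨⟨⟨rf0h31.2.2.2.2.2.2.2.2.2.2.2.2.2.2.2.2.2.2.2.2.2.2.2.2.2.2.1.1, rf0h13.2.2.2.2.1.1⟩, ⟨rf0h39.2.2.1.1, rf0h17.1.1⟩⟩, ⟨⟨rf0h13.2.2.2.2.2.2.2.2.2.2.2.2.2.2.2.2.2.2.2.2.2.2.2.2.2.1.1, rf0h15.2.2.2.2.2.2.2.2.2.2.2.2.2.1.1⟩, ⟨rf0h16.2.2.2.2.2.2.2.2.2.2.2.2.2.2.2.2.2.2.2.2.2.2.2.2.2.2.2.2.2.2.2.2.2.2.2.2.2.2.2.1.1,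 rf0h4.2.2.1.1⟩⟩⟩
theorem rf0k83 : CfgOK (rf0c83.e, rf0c83.n) := red_ln rf0h31.2.2.2.2.2.2.2.2.2.2.2.2.2.2.2.2.2.2.2.2.2.2.2.2.2.1 ⟨⟨⟨rf0h31.2.2.2.2.2.2.2.2.2.2.2.2.2.2.2.2.2.2.2.2.2.2.2.2.2.1.1, rf0h13.2.2.2.1.1⟩, ⟨rf0h13.2.2.2.2.2.2.2.2.2.2.2.2.2.2.2.2.2.2.2.2.2.2.2.2.1.1, rf0h15.2.2.2.2.2.2.2.2.2.2.2.2.1.1⟩⟩, ⟨⟨rf0h39.2.1.1, rf0h16.2.2.2.2.2.2.2.2.2.2.2.2.2.2.2.2.2.2.2.2.2.2.2.2.2.2.2.2.2.2.2.2.2.2.2.2.2.2.1.1⟩, ⟨rf0h16.2.2.2.2.2.2.2.2.2.2.2.2.2.2.2.2.2.2.2.2.2.2.2.2.2.2.2.2.2.2.2.2.2.2.2.2.2.1.1, rf0h4.2.1.1⟩⟩⟩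
theorem rf0k84 : CfgOK (rf0c84.e, rf0c84.n) := red_ln rf0h31.2.2.2.2.2.2.2.2.2.2.2.2.2.2.2.2.2.2.2.2.2.2.2.2.1 ⟨⟨rf0h31.2.2.2.2.2.2.2.2.2.2.2.2.2.2.2.2.2.2.2.2.2.2.2.2.1.1, rf0h11.2.2.2.2.2.2.2.2.2.2.2.1.1⟩, ⟨rf0h39.1.1, rf0h16.2.2.2.2.2.2.2.2.2.2.2.2.2.2.2.2.2.2.2.2.2.2.2.2.2.2.2.2.2.2.2.2.2.2.2.2.1.1⟩⟩
theorem rf0k85 : CfgOK (rf0c85.e, rf0c85.n) := red_ln rf0h31.2.2.2.2.2.2.2.2.2.2.2.2.2.2.2.2.2.2.2.2.2.2.2.1 ⟨⟨rf0h31.2.2.2.2.2.2.2.2.2.2.2.2.2.2.2.2.2.2.2.2.2.2.2.1.1, rf0h11.2.2.2.2.2.2.2.1.1⟩, ⟨rf0h38.2.2.2.2.2.2.2.2.2.2.2.2.2.2.2.2.2.2.2.2.2.2.2.2.2.2.2.2.2.2.2.2.2.2.2.2.2.2.2.1.1, rf0h16.2.2.2.2.2.2.2.2.2.2.2.2.2.2.2.2.2.2.2.2.2.2.2.2.2.2.2.2.2.2.2.2.2.2.2.1.1⟩⟩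
theorem rf0k86 : CfgOK (rf0c86.e, rf0c86.n) := red_ln rf0h30.2.2.2.2.2.2.2.2.1 ⟨⟨rf0h30.2.2.2.2.2.2.2.2.1.1, rf0h13.2.2.1.1⟩, ⟨rf0h38.2.2.2.2.2.2.2.2.2.2.2.2.2.2.2.2.2.2.2.2.2.2.2.2.2.2.2.2.2.2.2.2.2.2.2.2.2.2.1.1, rf0h16.2.2.2.2.2.2.2.2.2.2.2.2.2.2.2.2.2.2.2.2.2.2.2.2.2.2.2.2.2.2.2.2.2.2.1.1⟩⟩
theorem rf0k87 : CfgOK (rf0c87.e, rf0c87.n) := red_ln rf0h30.2.2.2.2.2.2.2.1 ⟨⟨rf0h30.2.2.2.2.2.2.2.1.1, rf0h11.2.2.2.2.2.2.1.1⟩, ⟨rf0h38.2.2.2.2.2.2.2.2.2.2.2.2.2.2.2.2.2.2.2.2.2.2.2.2.2.2.2.2.2.2.2.2.2.2.2.2.2.1.1, rf0h16.2.2.2.2.2.2.2.2.2.2.2.2.2.2.2.2.2.2.2.2.2.2.2.2.2.2.2.2.2.2.2.2.2.1.1⟩⟩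
theorem rf0k88 : CfgOK (rf0c88.e, rf0c88.n) := red_ln rf0h40.2.2.2.2.2.2.2.2.2.2.2.2.2.2.2.2.2.1 ⟨⟨rf0h40.2.2.2.2.2.2.2.2.2.2.2.2.2.2.2.2.2.1.1, rf0h13.2.1.1⟩, ⟨rf0h38.2.2.2.2.2.2.2.2.2.2.2.2.2.2.2.2.2.2.2.2.2.2.2.2.2.2.2.2.2.2.2.2.2.2.2.2.1.1, rf0h16.2.2.2.2.2.2.2.2.2.2.2.2.2.2.2.2.2.2.2.2.2.2.2.2.2.2.2.2.2.2.2.2.1.1⟩⟩
theorem rf0k89 : CfgOK (rf0c89.e, rf0c89.n) := red_ln rf0h40.2.2.2.2.2.2.2.2.2.2.2.2.2.2.2.2.1 ⟨⟨⟨rf0h40.2.2.2.2.2.2.2.2.2.2.2.2.2.2.2.2.1.1, rf0h13.1.1⟩, ⟨rf0h38.2.2.2.2.2.2.2.2.2.2.2.2.2.2.2.2.2.2.2.2.2.2.2.2.2.2.2.2.2.2.2.2.2.2.2.1.1, rf0h16.2.2.2.2.2.2.2.2.2.2.2.2.2.2.2.2.2.2.2.2.2.2.2.2.2.2.2.2.2.2.2.1.1⟩⟩, ⟨⟨rf0h13.2.2.2.2.2.2.2.2.2.2.2.2.2.2.2.2.2.2.2.2.2.2.2.1.1,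 rf0h15.2.2.2.2.2.2.2.2.2.2.2.1.1⟩, ⟨rf0h16.2.2.2.2.2.2.2.2.2.2.2.2.2.2.2.2.2.2.2.2.2.2.2.2.2.2.2.2.2.2.1.1, rf0h4.1.1⟩⟩⟩
theorem rf0k90 : CfgOK (rf0c90.e, rf0c90.n) := red_ln rf0h40.2.2.2.2.2.2.2.2.2.2.2.2.2.2.2.1 ⟨⟨rf0h40.2.2.2.2.2.2.2.2.2.2.2.2.2.2.2.1.1, rf0h11.2.2.2.2.2.2.2.2.2.2.1.1⟩, ⟨rf0h38.2.2.2.2.2.2.2.2.2.2.2.2.2.2.2.2.2.2.2.2.2.2.2.2.2.2.2.2.2.2.2.2.2.2.1.1, rf0h16.2.2.2.2.2.2.2.2.2.2.2.2.2.2.2.2.2.2.2.2.2.2.2.2.2.2.2.2.2.1.1⟩⟩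
theorem rf0k91 : CfgOK (rf0c91.e, rf0c91.n) := red_ln rf0h40.2.2.2.2.2.2.2.2.2.2.2.2.2.2.1 ⟨rf0h40.2.2.2.2.2.2.2.2.2.2.2.2.2.2.1.1, rf0h38.2.2.2.2.2.2.2.2.2.2.2.2.2.2.2.2.2.2.2.2.2.2.2.2.2.2.2.2.2.2.2.2.2.1.1⟩
theorem rf0k92 : CfgOK (rf0c92.e, rf0c92.n) := red_ln rf0h40.2.2.2.2.2.2.2.2.2.2.2.2.2.1 ⟨rf0h40.2.2.2.2.2.2.2.2.2.2.2.2.2.1.1, rf0h38.2.2.2.2.2.2.2.2.2.2.2.2.2.2.2.2.2.2.2.2.2.2.2.2.2.2.2.2.2.2.2.2.1.1⟩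
theorem rf0k93 : CfgOK (rf0c93.e, rf0c93.n) := red_ln rf0h40.2.2.2.2.2.2.2.2.2.2.2.2.1 ⟨rf0h40.2.2.2.2.2.2.2.2.2.2.2.2.1.1, rf0h38.2.2.2.2.2.2.2.2.2.2.2.2.2.2.2.2.2.2.2.2.2.2.2.2.2.2.2.2.2.2.2.1.1⟩
theorem rf0k94 : CfgOK (rf0c94.e, rf0c94.n) := red_ln rf0h40.2.2.2.2.2.2.2.2.2.2.2.1 ⟨⟨rf0h40.2.2.2.2.2.2.2.2.2.2.2.1.1, rf0h13.2.2.2.2.2.2.2.2.2.2.2.2.2.1.1⟩, ⟨rf0h38.2.2.2.2.2.2.2.2.2.2.2.2.2.2.2.2.2.2.2.2.2.2.2.2.2.2.2.2.2.2.1.1, rf0h16.2.2.2.2.2.2.2.2.2.2.2.2.2.2.2.2.2.2.2.2.2.2.2.2.2.2.2.2.1.1⟩⟩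
theorem rf0k95 : CfgOK (rf0c95.e, rf0c95.n) := red_ln rf0h40.2.2.2.2.2.2.2.2.2.2.1 ⟨⟨rf0h40.2.2.2.2.2.2.2.2.2.2.1.1, rf0h11.2.2.2.2.2.2.2.2.2.2.2.2.2.2.2.2.2.2.2.2.2.2.2.2.2.2.2.2.2.1.1⟩, ⟨rf0h38.2.2.2.2.2.2.2.2.2.2.2.2.2.2.2.2.2.2.2.2.2.2.2.2.2.2.2.2.2.1.1, rf0h16.2.2.2.2.2.2.2.2.2.2.2.2.2.2.2.2.2.2.2.2.2.2.2.2.2.2.2.1.1⟩⟩
theorem rf0k96 : CfgOK (rf0c96.e, rf0c96.n) := red_ln rf0h40.2.2.2.2.2.2.2.2.2.1 ⟨⟨rf0h40.2.2.2.2.2.2.2.2.2.1.1, rf0h11.2.2.2.2.2.2.2.2.2.2.2.2.2.2.2.2.2.2.2.2.2.2.2.2.2.2.2.2.1.1⟩, ⟨rf0h38.2.2.2.2.2.2.2.2.2.2.2.2.2.2.2.2.2.2.2.2.2.2.2.2.2.2.2.2.1.1, rf0h16.2.2.2.2.2.2.2.2.2.2.2.2.2.2.2.2.2.2.2.2.2.2.2.2.2.2.1.1⟩⟩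
theorem rf0k97 : CfgOK (rf0c97.e, rf0c97.n) := red_ln rf0h40.2.2.2.2.2.2.2.2.1 ⟨⟨rf0h40.2.2.2.2.2.2.2.2.1.1, rf0h11.2.2.2.2.2.2.2.2.2.2.2.2.2.2.2.2.2.2.2.2.2.2.2.2.2.2.2.1.1⟩, ⟨rf0h38.2.2.2.2.2.2.2.2.2.2.2.2.2.2.2.2.2.2.2.2.2.2.2.2.2.2.2.1.1, rf0h16.2.2.2.2.2.2.2.2.2.2.2.2.2.2.2.2.2.2.2.2.2.2.2.2.2.1.1⟩⟩
theorem rf0k98 : CfgOK (rf0c98.e, rf0c98.n) := red_ln rf0h40.2.2.2.2.2.2.2.1 rf0h40.2.2.2.2.2.2.2.1.1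
theorem rf0k99 : CfgOK (rf0c99.e, rf0c99.n) := red_ln rf0h40.2.2.2.2.2.2.1 ⟨rf0h40.2.2.2.2.2.2.1.1, rf0h38.2.2.2.2.2.2.2.2.2.2.2.2.2.2.2.2.2.2.2.2.2.2.2.2.2.2.1.1⟩
theorem rf0k100 : CfgOK (rf0c100.e, rf0c100.n) := red_ln rf0h40.2.2.2.2.2.1 ⟨rf0h40.2.2.2.2.2.1.1, rf0h38.2.2.2.2.2.2.2.2.2.2.2.2.2.2.2.2.2.2.2.2.2.2.2.2.2.1.1⟩
theorem rf0k101 : CfgOK (rf0c101.e, rf0c101.n) := red_ln rf0h40.2.2.2.2.1 ⟨rf0h40.2.2.2.2.1.1, rf0h38.2.2.2.2.2.2.2.2.2.2.2.2.2.2.2.2.2.2.2.2.2.2.2.2.1.1⟩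
theorem rf0k102 : CfgOK (rf0c102.e, rf0c102.n) := red_ln rf0h40.2.2.2.1 ⟨rf0h40.2.2.2.1.1, rf0h38.2.2.2.2.2.2.2.2.2.2.2.2.2.2.2.2.2.2.2.2.2.2.2.1.1⟩
theorem rf0k103 : CfgOK (rf0c103.e, rf0c103.n) := red_ln rf0h40.2.2.1 ⟨⟨rf0h40.2.2.1.1, rf0h11.2.2.2.2.2.2.2.2.2.2.2.2.2.2.2.2.2.2.2.2.2.2.2.2.2.2.1.1⟩, ⟨rf0h38.2.2.2.2.2.2.2.2.2.2.2.2.2.2.2.2.2.2.2.2.2.2.1.1, rf0h16.2.2.2.2.2.2.2.2.2.2.2.2.2.2.2.2.2.2.2.2.2.2.2.2.1.1⟩⟩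
theorem rf0k104 : CfgOK (rf0c104.e, rf0c104.n) := red_ln rf0h40.2.1 ⟨rf0h40.2.1.1, rf0h38.2.2.2.2.2.2.2.2.2.2.2.2.2.2.2.2.2.2.2.2.2.1.1⟩
theorem rf0k105 : CfgOK (rf0c105.e, rf0c105.n) := red_ln rf0h40.1 ⟨⟨rf0h40.1.1, rf0h11.2.2.1.1⟩, ⟨rf0h38.2.2.2.2.2.2.2.2.2.2.2.2.2.2.2.2.2.2.2.2.1.1, rf0h16.2.2.2.2.2.2.2.2.2.2.2.2.2.2.2.2.2.2.2.2.2.2.2.1.1⟩⟩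
theorem rf0k106 : CfgOK (rf0c106.e, rf0c106.n) := red_ln rf0h42.2.2.2.2.2.2.2.2.2.2.2.2.2.2.2.2.2.2.2.2.2.1 rf0h42.2.2.2.2.2.2.2.2.2.2.2.2.2.2.2.2.2.2.2.2.2.1.1
theorem rf0k107 : CfgOK (rf0c107.e, rf0c107.n) := red_ln rf0h42.2.2.2.2.2.2.2.2.2.2.2.2.2.2.2.2.2.2.2.2.1 rf0h42.2.2.2.2.2.2.2.2.2.2.2.2.2.2.2.2.2.2.2.2.1.1
theorem rf0k108 : CfgOK (rf0c108.e, rf0c108.n) := red_ln rf0h42.2.2.2.2.2.2.2.2.2.2.2.2.2.2.2.2.2.2.2.1 rf0h42.2.2.2.2.2.2.2.2.2.2.2.2.2.2.2.2.2.2.2.1.1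
theorem rf0k109 : CfgOK (rf0c109.e, rf0c109.n) := red_ln rf0h42.2.2.2.2.2.2.2.2.2.2.2.2.2.2.2.2.2.2.1 rf0h42.2.2.2.2.2.2.2.2.2.2.2.2.2.2.2.2.2.2.1.1
theorem rf0k110 : CfgOK (rf0c110.e, rf0c110.n) := red_ln rf0h42.2.2.2.2.2.2.2.2.2.2.2.2.2.2.2.2.2.1 rf0h42.2.2.2.2.2.2.2.2.2.2.2.2.2.2.2.2.2.1.1
theorem rf0k111 : CfgOK (rf0c111.e, rf0c111.n) := red_ln rf0h42.2.2.2.2.2.2.2.2.2.2.2.2.2.2.2.2.1 rf0h42.2.2.2.2.2.2.2.2.2.2.2.2.2.2.2.2.1.1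
theorem rf0k112 : CfgOK (rf0c112.e, rf0c112.n) := red_ln rf0h42.2.2.2.2.2.2.2.2.2.2.2.2.2.2.2.1 rf0h42.2.2.2.2.2.2.2.2.2.2.2.2.2.2.2.1.1
theorem rf0k113 : CfgOK (rf0c113.e, rf0c113.n) := red_ln rf0h42.2.2.2.2.2.2.2.2.2.2.2.2.2.2.1 ⟨rf0h42.2.2.2.2.2.2.2.2.2.2.2.2.2.2.1.1, rf0h43.2.2.2.2.2.2.2.2.2.2.2.2.2.2.2.2.2.1.1⟩
theorem rf0k114 : CfgOK (rf0c114.e, rf0c114.n) := red_ln rf0h42.2.2.2.2.2.2.2.2.2.2.2.2.2.1 ⟨⟨rf0h42.2.2.2.2.2.2.2.2.2.2.2.2.2.1.1, rf0h19.2.2.2.2.2.2.2.2.2.2.2.1.1⟩, ⟨rf0h25.2.2.2.2.2.2.2.2.2.2.2.2.2.2.2.2.2.2.2.1.1, rf0h22.2.2.2.2.2.2.2.2.1.1⟩⟩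
theorem rf0k115 : CfgOK (rf0c115.e, rf0c115.n) := red_ln rf0h42.2.2.2.2.2.2.2.2.2.2.2.2.1 ⟨⟨rf0h42.2.2.2.2.2.2.2.2.2.2.2.2.1.1, rf0h19.2.2.2.2.2.2.2.2.2.2.1.1⟩, ⟨rf0h25.2.2.2.2.2.2.2.2.2.2.2.2.2.2.2.2.2.2.1.1, rf0h22.2.2.2.2.2.2.2.1.1⟩⟩
theorem rf0k116 : CfgOK (rf0c116.e, rf0c116.n) := red_ln rf0h42.2.2.2.2.2.2.2.2.2.2.2.1 rf0h42.2.2.2.2.2.2.2.2.2.2.2.1.1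
theorem rf0k117 : CfgOK (rf0c117.e, rf0c117.n) := red_ln rf0h42.2.2.2.2.2.2.2.2.2.2.1 rf0h42.2.2.2.2.2.2.2.2.2.2.1.1
theorem rf0k118 : CfgOK (rf0c118.e, rf0c118.n) := red_ln rf0h42.2.2.2.2.2.2.2.2.2.1 rf0h42.2.2.2.2.2.2.2.2.2.1.1
theorem rf0k119 : CfgOK (rf0c119.e, rf0c119.n) := red_ln rf0h42.2.2.2.2.2.2.2.2.1 rf0h42.2.2.2.2.2.2.2.2.1.1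
theorem rf0k120 : CfgOK (rf0c120.e, rf0c120.n) := red_ln rf0h42.2.2.2.2.2.2.2.1 rf0h42.2.2.2.2.2.2.2.1.1
theorem rf0k121 : CfgOK (rf0c121.e, rf0c121.n) := red_ln rf0h42.2.2.2.2.2.2.1 rf0h42.2.2.2.2.2.2.1.1
theorem rf0k122 : CfgOK (rf0c122.e, rf0c122.n) := red_ln rf0h42.2.2.2.2.2.1 rf0h42.2.2.2.2.2.1.1
theorem rf0k123 : CfgOK (rf0c123.e, rf0c123.n) := red_ln rf0h42.2.2.2.2.1 rf0h42.2.2.2.2.1.1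
theorem rf0k124 : CfgOK (rf0c124.e, rf0c124.n) := red_ln rf0h42.2.2.2.1 rf0h42.2.2.2.1.1
theorem rf0k125 : CfgOK (rf0c125.e, rf0c125.n) := red_ln rf0h42.2.2.1 rf0h42.2.2.1.1
theorem rf0k126 : CfgOK (rf0c126.e, rf0c126.n) := red_ln rf0h42.2.1 rf0h42.2.1.1
theorem rf0k127 : CfgOK (rf0c127.e, rf0c127.n) := red_ln rf0h42.1 rf0h42.1.1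
theorem rf0k128 : CfgOK (rf0c128.e, rf0c128.n) := red_ln rf0h41.2.2.2.2.2.2.2.2.2.2.2.2.2.2.2.2.2.2.2.2.2.2.2.2.2.2.2.2.2.1 rf0h41.2.2.2.2.2.2.2.2.2.2.2.2.2.2.2.2.2.2.2.2.2.2.2.2.2.2.2.2.2.1.1
theorem rf0k129 : CfgOK (rf0c129.e, rf0c129.n) := red_ln rf0h41.2.2.2.2.2.2.2.2.2.2.2.2.2.2.2.2.2.2.2.2.2.2.2.2.2.2.2.2.1 rf0h41.2.2.2.2.2.2.2.2.2.2.2.2.2.2.2.2.2.2.2.2.2.2.2.2.2.2.2.2.1.1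
theorem rf0k130 : CfgOK (rf0c130.e, rf0c130.n) := red_ln rf0h41.2.2.2.2.2.2.2.2.2.2.2.2.2.2.2.2.2.2.2.2.2.2.2.2.2.2.2.1 rf0h41.2.2.2.2.2.2.2.2.2.2.2.2.2.2.2.2.2.2.2.2.2.2.2.2.2.2.2.1.1
theorem rf0k131 : CfgOK (rf0c131.e, rf0c131.n) := red_ln rf0h41.2.2.2.2.2.2.2.2.2.2.2.2.2.2.2.2.2.2.2.2.2.2.2.2.2.2.1 rf0h41.2.2.2.2.2.2.2.2.2.2.2.2.2.2.2.2.2.2.2.2.2.2.2.2.2.2.1.1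
theorem rf0k132 : CfgOK (rf0c132.e, rf0c132.n) := red_ln rf0h41.2.2.2.2.2.2.2.2.2.2.2.2.2.2.2.2.2.2.2.2.2.2.2.2.2.1 rf0h41.2.2.2.2.2.2.2.2.2.2.2.2.2.2.2.2.2.2.2.2.2.2.2.2.2.1.1
theorem rf0k133 : CfgOK (rf0c133.e, rf0c133.n) := red_ln rf0h41.2.2.2.2.2.2.2.2.2.2.2.2.2.2.2.2.2.2.2.2.2.2.2.2.1 rf0h41.2.2.2.2.2.2.2.2.2.2.2.2.2.2.2.2.2.2.2.2.2.2.2.2.1.1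
theorem rf0k134 : CfgOK (rf0c134.e, rf0c134.n) := red_ln rf0h41.2.2.2.2.2.2.2.2.2.2.2.2.2.2.2.2.2.2.2.2.2.2.2.1 rf0h41.2.2.2.2.2.2.2.2.2.2.2.2.2.2.2.2.2.2.2.2.2.2.2.1.1
theorem rf0k135 : CfgOK (rf0c135.e, rf0c135.n) := red_ln rf0h41.2.2.2.2.2.2.2.2.2.2.2.2.2.2.2.2.2.2.2.2.2.2.1 rf0h41.2.2.2.2.2.2.2.2.2.2.2.2.2.2.2.2.2.2.2.2.2.2.1.1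
theorem rf0k136 : CfgOK (rf0c136.e, rf0c136.n) := red_ln rf0h41.2.2.2.2.2.2.2.2.2.2.2.2.2.2.2.2.2.2.2.2.2.1 ⟨rf0h41.2.2.2.2.2.2.2.2.2.2.2.2.2.2.2.2.2.2.2.2.2.1.1, rf0h44.2.2.2.2.2.2.2.2.2.2.2.2.2.2.2.2.2.2.2.2.2.2.2.2.2.2.1.1⟩
theorem rf0k137 : CfgOK (rf0c137.e, rf0c137.n) := red_ln rf0h41.2.2.2.2.2.2.2.2.2.2.2.2.2.2.2.2.2.2.2.2.1 ⟨rf0h41.2.2.2.2.2.2.2.2.2.2.2.2.2.2.2.2.2.2.2.2.1.1, rf0h44.2.2.2.2.2.2.2.2.2.2.2.2.2.2.2.2.2.2.2.2.2.2.2.2.2.1.1⟩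
theorem rf0k138 : CfgOK (rf0c138.e, rf0c138.n) := red_ln rf0h41.2.2.2.2.2.2.2.2.2.2.2.2.2.2.2.2.2.2.2.1 ⟨rf0h41.2.2.2.2.2.2.2.2.2.2.2.2.2.2.2.2.2.2.2.1.1, rf0h43.2.2.2.2.2.2.2.2.2.2.2.2.2.2.2.2.1.1⟩
theorem rf0k139 : CfgOK (rf0c139.e, rf0c139.n) := red_ln rf0h41.2.2.2.2.2.2.2.2.2.2.2.2.2.2.2.2.2.2.1 ⟨rf0h41.2.2.2.2.2.2.2.2.2.2.2.2.2.2.2.2.2.2.1.1, rf0h43.2.2.2.2.2.2.2.2.2.2.2.2.2.2.2.1.1⟩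
theorem rf0k140 : CfgOK (rf0c140.e, rf0c140.n) := red_ln rf0h41.2.2.2.2.2.2.2.2.2.2.2.2.2.2.2.2.2.1 ⟨rf0h41.2.2.2.2.2.2.2.2.2.2.2.2.2.2.2.2.2.1.1, rf0h43.2.2.2.2.2.2.2.2.2.2.2.2.2.2.1.1⟩
theorem rf0k141 : CfgOK (rf0c141.e, rf0c141.n) := red_ln rf0h41.2.2.2.2.2.2.2.2.2.2.2.2.2.2.2.2.1 ⟨rf0h41.2.2.2.2.2.2.2.2.2.2.2.2.2.2.2.2.1.1, rf0h43.2.2.2.2.2.2.2.2.2.2.2.2.2.1.1⟩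
theorem rf0k142 : CfgOK (rf0c142.e, rf0c142.n) := red_ln rf0h41.2.2.2.2.2.2.2.2.2.2.2.2.2.2.2.1 ⟨rf0h41.2.2.2.2.2.2.2.2.2.2.2.2.2.2.2.1.1, rf0h43.2.2.2.2.2.2.2.2.2.2.2.2.1.1⟩
theorem rf0k143 : CfgOK (rf0c143.e, rf0c143.n) := red_ln rf0h41.2.2.2.2.2.2.2.2.2.2.2.2.2.2.1 ⟨rf0h41.2.2.2.2.2.2.2.2.2.2.2.2.2.2.1.1, rf0h44.2.2.2.2.2.2.2.2.2.2.2.2.2.2.2.2.2.2.2.2.2.2.2.2.1.1⟩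
theorem rf0k144 : CfgOK (rf0c144.e, rf0c144.n) := red_ln rf0h41.2.2.2.2.2.2.2.2.2.2.2.2.2.1 ⟨rf0h41.2.2.2.2.2.2.2.2.2.2.2.2.2.1.1, rf0h43.2.2.2.2.2.2.2.2.2.2.2.1.1⟩
theorem rf0k145 : CfgOK (rf0c145.e, rf0c145.n) := red_ln rf0h41.2.2.2.2.2.2.2.2.2.2.2.2.1 ⟨rf0h41.2.2.2.2.2.2.2.2.2.2.2.2.1.1, rf0h19.2.2.2.2.2.2.2.2.2.1.1⟩
theorem rf0k146 : CfgOK (rf0c146.e, rf0c146.n) := red_ln rf0h41.2.2.2.2.2.2.2.2.2.2.2.1 ⟨⟨rf0h41.2.2.2.2.2.2.2.2.2.2.2.1.1, rf0h19.2.2.2.2.2.2.2.2.1.1⟩, ⟨rf0h25.2.2.2.2.2.2.2.2.2.2.2.2.2.2.2.2.2.1.1, rf0h22.2.2.2.2.2.2.1.1⟩⟩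
theorem rf0k147 : CfgOK (rf0c147.e, rf0c147.n) := red_ln rf0h41.2.2.2.2.2.2.2.2.2.2.1 ⟨rf0h41.2.2.2.2.2.2.2.2.2.2.1.1, rf0h25.2.2.2.2.2.1.1⟩
theorem rf0k148 : CfgOK (rf0c148.e, rf0c148.n) := red_ln rf0h41.2.2.2.2.2.2.2.2.2.1 ⟨⟨rf0h41.2.2.2.2.2.2.2.2.2.1.1, rf0h19.2.1.1⟩, ⟨rf0h25.2.2.2.2.1.1, rf0h22.1.1⟩⟩
theorem rf0k149 : CfgOK (rf0c149.e, rf0c149.n) := red_ln rf0h41.2.2.2.2.2.2.2.2.1 rf0h41.2.2.2.2.2.2.2.2.1.1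
theorem rf0k150 : CfgOK (rf0c150.e, rf0c150.n) := red_ln rf0h41.2.2.2.2.2.2.2.1 rf0h41.2.2.2.2.2.2.2.1.1
theorem rf0k151 : CfgOK (rf0c151.e, rf0c151.n) := red_ln rf0h41.2.2.2.2.2.2.1 rf0h41.2.2.2.2.2.2.1.1
theorem rf0k152 : CfgOK (rf0c152.e, rf0c152.n) := red_ln rf0h41.2.2.2.2.2.1 rf0h41.2.2.2.2.2.1.1
theorem rf0k153 : CfgOK (rf0c153.e, rf0c153.n) := red_ln rf0h41.2.2.2.2.1 rf0h41.2.2.2.2.1.1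
theorem rf0k154 : CfgOK (rf0c154.e, rf0c154.n) := red_ln rf0h41.2.2.2.1 rf0h41.2.2.2.1.1
theorem rf0k155 : CfgOK (rf0c155.e, rf0c155.n) := red_ln rf0h41.2.2.1 ⟨rf0h41.2.2.1.1, rf0h43.2.2.2.2.2.2.2.2.2.2.1.1⟩
theorem rf0k156 : CfgOK (rf0c156.e, rf0c156.n) := red_ln rf0h41.2.1 ⟨rf0h41.2.1.1, rf0h43.2.2.2.2.2.2.2.2.2.1.1⟩
theorem rf0k157 : CfgOK (rf0c157.e, rf0c157.n) := red_ln rf0h41.1 ⟨rf0h41.1.1, rf0h43.2.2.2.2.2.2.2.2.1.1⟩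
theorem rf0k158 : CfgOK (rf0c158.e, rf0c158.n) := red_ln rf0h47.2.2.2.2.2.2.2.2.2.2.1 ⟨rf0h47.2.2.2.2.2.2.2.2.2.2.1.1, rf0h25.2.2.2.2.2.2.2.2.2.2.2.2.2.2.2.2.1.1⟩
theorem rf0k159 : CfgOK (rf0c159.e, rf0c159.n) := red_ln rf0h47.2.2.2.2.2.2.2.2.2.1 ⟨⟨rf0h47.2.2.2.2.2.2.2.2.2.1.1, rf0h19.2.2.2.2.2.2.2.1.1⟩, ⟨rf0h25.2.2.2.2.2.2.2.2.2.2.2.2.2.2.2.1.1, rf0h22.2.2.2.2.2.1.1⟩⟩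
theorem rf0k160 : CfgOK (rf0c160.e, rf0c160.n) := red_ln rf0h47.2.2.2.2.2.2.2.2.1 ⟨⟨rf0h47.2.2.2.2.2.2.2.2.1.1, rf0h19.2.2.2.2.2.2.1.1⟩, ⟨rf0h25.2.2.2.2.2.2.2.2.2.2.2.2.2.2.1.1, rf0h22.2.2.2.2.1.1⟩⟩
theorem rf0k161 : CfgOK (rf0c161.e, rf0c161.n) := red_ln rf0h47.2.2.2.2.2.2.2.1 rf0h47.2.2.2.2.2.2.2.1.1
theorem rf0k162 : CfgOK (rf0c162.e, rf0c162.n) := red_ln rf0h47.2.2.2.2.2.2.1 rf0h47.2.2.2.2.2.2.1.1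
theorem rf0k163 : CfgOK (rf0c163.e, rf0c163.n) := red_ln rf0h47.2.2.2.2.2.1 rf0h47.2.2.2.2.2.1.1
theorem rf0k164 : CfgOK (rf0c164.e, rf0c164.n) := red_ln rf0h47.2.2.2.2.1 ⟨rf0h47.2.2.2.2.1.1, rf0h43.2.2.2.2.2.2.2.1.1⟩
theorem rf0k165 : CfgOK (rf0c165.e, rf0c165.n) := red_ln rf0h47.2.2.2.1 ⟨⟨rf0h47.2.2.2.1.1, rf0h19.2.2.2.2.2.1.1⟩, ⟨rf0h25.2.2.2.2.2.2.2.2.2.2.2.2.2.1.1, rf0h22.2.2.2.1.1⟩⟩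
theorem rf0k166 : CfgOK (rf0c166.e, rf0c166.n) := red_ln rf0h47.2.2.1 ⟨⟨rf0h47.2.2.1.1, rf0h19.2.2.2.2.1.1⟩, ⟨rf0h25.2.2.2.2.2.2.2.2.2.2.2.2.1.1, rf0h22.2.2.1.1⟩⟩
theorem rf0k167 : CfgOK (rf0c167.e, rf0c167.n) := red_ln rf0h47.2.1 rf0h47.2.1.1
theorem rf0k168 : CfgOK (rf0c168.e, rf0c168.n) := red_ln rf0h47.1 rf0h47.1.1
theorem rf0k169 : CfgOK (rf0c169.e, rf0c169.n) := red_ln rf0h46.2.2.2.2.2.2.2.2.2.2.2.2.2.2.2.2.2.2.2.2.2.2.2.2.2.2.2.2.2.1 rf0h46.2.2.2.2.2.2.2.2.2.2.2.2.2.2.2.2.2.2.2.2.2.2.2.2.2.2.2.2.2.1.1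
theorem rf0k170 : CfgOK (rf0c170.e, rf0c170.n) := red_ln rf0h46.2.2.2.2.2.2.2.2.2.2.2.2.2.2.2.2.2.2.2.2.2.2.2.2.2.2.2.2.1 rf0h46.2.2.2.2.2.2.2.2.2.2.2.2.2.2.2.2.2.2.2.2.2.2.2.2.2.2.2.2.1.1
theorem rf0k171 : CfgOK (rf0c171.e, rf0c171.n) := red_ln rf0h46.2.2.2.2.2.2.2.2.2.2.2.2.2.2.2.2.2.2.2.2.2.2.2.2.2.2.2.1 rf0h46.2.2.2.2.2.2.2.2.2.2.2.2.2.2.2.2.2.2.2.2.2.2.2.2.2.2.2.1.1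
theorem rf0k172 : CfgOK (rf0c172.e, rf0c172.n) := red_ln rf0h46.2.2.2.2.2.2.2.2.2.2.2.2.2.2.2.2.2.2.2.2.2.2.2.2.2.2.1 rf0h46.2.2.2.2.2.2.2.2.2.2.2.2.2.2.2.2.2.2.2.2.2.2.2.2.2.2.1.1
theorem rf0k173 : CfgOK (rf0c173.e, rf0c173.n) := red_ln rf0h46.2.2.2.2.2.2.2.2.2.2.2.2.2.2.2.2.2.2.2.2.2.2.2.2.2.1 rf0h46.2.2.2.2.2.2.2.2.2.2.2.2.2.2.2.2.2.2.2.2.2.2.2.2.2.1.1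
theorem rf0k174 : CfgOK (rf0c174.e, rf0c174.n) := red_ln rf0h46.2.2.2.2.2.2.2.2.2.2.2.2.2.2.2.2.2.2.2.2.2.2.2.2.1 rf0h46.2.2.2.2.2.2.2.2.2.2.2.2.2.2.2.2.2.2.2.2.2.2.2.2.1.1
theorem rf0k175 : CfgOK (rf0c175.e, rf0c175.n) := red_ln rf0h46.2.2.2.2.2.2.2.2.2.2.2.2.2.2.2.2.2.2.2.2.2.2.2.1 rf0h46.2.2.2.2.2.2.2.2.2.2.2.2.2.2.2.2.2.2.2.2.2.2.2.1.1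
theorem rf0k176 : CfgOK (rf0c176.e, rf0c176.n) := red_ln rf0h46.2.2.2.2.2.2.2.2.2.2.2.2.2.2.2.2.2.2.2.2.2.2.1 rf0h46.2.2.2.2.2.2.2.2.2.2.2.2.2.2.2.2.2.2.2.2.2.2.1.1
theorem rf0k177 : CfgOK (rf0c177.e, rf0c177.n) := red_ln rf0h46.2.2.2.2.2.2.2.2.2.2.2.2.2.2.2.2.2.2.2.2.2.1 rf0h46.2.2.2.2.2.2.2.2.2.2.2.2.2.2.2.2.2.2.2.2.2.1.1
theorem rf0k178 : CfgOK (rf0c178.e, rf0c178.n) := red_ln rf0h46.2.2.2.2.2.2.2.2.2.2.2.2.2.2.2.2.2.2.2.2.1 rf0h46.2.2.2.2.2.2.2.2.2.2.2.2.2.2.2.2.2.2.2.2.1.1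
theorem rf0k179 : CfgOK (rf0c179.e, rf0c179.n) := red_ln rf0h46.2.2.2.2.2.2.2.2.2.2.2.2.2.2.2.2.2.2.2.1 ⟨rf0h46.2.2.2.2.2.2.2.2.2.2.2.2.2.2.2.2.2.2.2.1.1, rf0h44.2.2.2.2.2.2.2.2.2.2.2.2.2.2.2.2.2.2.2.2.2.2.2.1.1⟩
theorem rf0k180 : CfgOK (rf0c180.e, rf0c180.n) := red_ln rf0h46.2.2.2.2.2.2.2.2.2.2.2.2.2.2.2.2.2.2.1 ⟨rf0h46.2.2.2.2.2.2.2.2.2.2.2.2.2.2.2.2.2.2.1.1, rf0h43.2.2.2.2.2.2.1.1⟩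
theorem rf0k181 : CfgOK (rf0c181.e, rf0c181.n) := red_ln rf0h46.2.2.2.2.2.2.2.2.2.2.2.2.2.2.2.2.2.1 ⟨rf0h46.2.2.2.2.2.2.2.2.2.2.2.2.2.2.2.2.2.1.1, rf0h43.2.2.2.2.2.1.1⟩
theorem rf0k182 : CfgOK (rf0c182.e, rf0c182.n) := red_ln rf0h46.2.2.2.2.2.2.2.2.2.2.2.2.2.2.2.2.1 ⟨rf0h46.2.2.2.2.2.2.2.2.2.2.2.2.2.2.2.2.1.1, rf0h43.2.2.2.2.1.1⟩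
theorem rf0k183 : CfgOK (rf0c183.e, rf0c183.n) := red_ln rf0h46.2.2.2.2.2.2.2.2.2.2.2.2.2.2.2.1 ⟨rf0h46.2.2.2.2.2.2.2.2.2.2.2.2.2.2.2.1.1, rf0h44.2.2.2.2.2.2.2.2.2.2.2.2.2.2.2.2.2.2.2.2.2.2.1.1⟩
theorem rf0k184 : CfgOK (rf0c184.e, rf0c184.n) := red_ln rf0h46.2.2.2.2.2.2.2.2.2.2.2.2.2.2.1 ⟨rf0h46.2.2.2.2.2.2.2.2.2.2.2.2.2.2.1.1, rf0h43.2.2.2.1.1⟩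
theorem rf0k185 : CfgOK (rf0c185.e, rf0c185.n) := red_ln rf0h46.2.2.2.2.2.2.2.2.2.2.2.2.2.1 ⟨rf0h46.2.2.2.2.2.2.2.2.2.2.2.2.2.1.1, rf0h43.2.2.1.1⟩
theorem rf0k186 : CfgOK (rf0c186.e, rf0c186.n) := red_ln rf0h46.2.2.2.2.2.2.2.2.2.2.2.2.1 ⟨rf0h46.2.2.2.2.2.2.2.2.2.2.2.2.1.1, rf0h43.2.1.1⟩
theorem rf0k187 : CfgOK (rf0c187.e, rf0c187.n) := red_ln rf0h46.2.2.2.2.2.2.2.2.2.2.2.1 ⟨rf0h46.2.2.2.2.2.2.2.2.2.2.2.1.1, rf0h44.2.2.2.2.2.2.2.2.2.2.2.2.2.2.2.2.2.2.2.2.2.1.1⟩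
theorem rf0k188 : CfgOK (rf0c188.e, rf0c188.n) := red_ln rf0h46.2.2.2.2.2.2.2.2.2.2.1 ⟨rf0h46.2.2.2.2.2.2.2.2.2.2.1.1, rf0h44.2.2.2.2.2.2.2.2.2.2.2.2.2.2.2.2.2.2.2.2.1.1⟩
theorem rf0k189 : CfgOK (rf0c189.e, rf0c189.n) := red_ln rf0h46.2.2.2.2.2.2.2.2.2.1 ⟨rf0h46.2.2.2.2.2.2.2.2.2.1.1, rf0h44.2.2.2.2.2.2.2.2.2.2.2.2.2.2.2.2.2.2.2.1.1⟩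
theorem rf0k190 : CfgOK (rf0c190.e, rf0c190.n) := red_ln rf0h46.2.2.2.2.2.2.2.2.1 ⟨rf0h46.2.2.2.2.2.2.2.2.1.1, rf0h44.2.2.2.2.2.2.2.2.2.2.2.2.2.2.2.2.2.2.1.1⟩
theorem rf0k191 : CfgOK (rf0c191.e, rf0c191.n) := red_ln rf0h46.2.2.2.2.2.2.2.1 ⟨rf0h46.2.2.2.2.2.2.2.1.1, rf0h44.2.2.2.2.2.2.2.2.2.2.2.2.2.2.2.2.2.1.1⟩
theorem rf0k192 : CfgOK (rf0c192.e, rf0c192.n) := red_ln rf0h46.2.2.2.2.2.2.1 ⟨⟨rf0h46.2.2.2.2.2.2.1.1, rf0h19.2.2.2.1.1⟩, ⟨rf0h25.2.2.2.1.1, rf0h22.2.1.1⟩⟩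
theorem rf0k193 : CfgOK (rf0c193.e, rf0c193.n) := red_ln rf0h46.2.2.2.2.2.1 ⟨rf0h46.2.2.2.2.2.1.1, rf0h25.2.2.1.1⟩
theorem rf0k194 : CfgOK (rf0c194.e, rf0c194.n) := red_ln rf0h46.2.2.2.2.1 ⟨rf0h46.2.2.2.2.1.1, rf0h19.1.1⟩
theorem rf0k195 : CfgOK (rf0c195.e, rf0c195.n) := red_ln rf0h46.2.2.2.1 rf0h46.2.2.2.1.1
theorem rf0k196 : CfgOK (rf0c196.e, rf0c196.n) := red_ln rf0h46.2.2.1 rf0h46.2.2.1.1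
theorem rf0k197 : CfgOK (rf0c197.e, rf0c197.n) := red_ln rf0h46.2.1 ⟨rf0h46.2.1.1, rf0h43.1.1⟩
theorem rf0k198 : CfgOK (rf0c198.e, rf0c198.n) := red_ln rf0h46.1 rf0h46.1.1
theorem rf0k199 : CfgOK (rf0c199.e, rf0c199.n) := red_ln rf0h48.2.2.2.2.2.2.2.2.2.2.2.2.2.2.1 rf0h48.2.2.2.2.2.2.2.2.2.2.2.2.2.2.1.1
theorem rf0k200 : CfgOK (rf0c200.e, rf0c200.n) := red_ln rf0h48.2.2.2.2.2.2.2.2.2.2.2.2.2.1 rf0h48.2.2.2.2.2.2.2.2.2.2.2.2.2.1.1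
theorem rf0k201 : CfgOK (rf0c201.e, rf0c201.n) := red_ln rf0h48.2.2.2.2.2.2.2.2.2.2.2.2.1 rf0h48.2.2.2.2.2.2.2.2.2.2.2.2.1.1
theorem rf0k202 : CfgOK (rf0c202.e, rf0c202.n) := red_ln rf0h48.2.2.2.2.2.2.2.2.2.2.2.1 rf0h48.2.2.2.2.2.2.2.2.2.2.2.1.1
theorem rf0k203 : CfgOK (rf0c203.e, rf0c203.n) := red_ln rf0h48.2.2.2.2.2.2.2.2.2.2.1 rf0h48.2.2.2.2.2.2.2.2.2.2.1.1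
theorem rf0k204 : CfgOK (rf0c204.e, rf0c204.n) := red_ln rf0h48.2.2.2.2.2.2.2.2.2.1 rf0h48.2.2.2.2.2.2.2.2.2.1.1
theorem rf0k205 : CfgOK (rf0c205.e, rf0c205.n) := red_ln rf0h48.2.2.2.2.2.2.2.2.1 rf0h48.2.2.2.2.2.2.2.2.1.1
theorem rf0k206 : CfgOK (rf0c206.e, rf0c206.n) := red_ln rf0h48.2.2.2.2.2.2.2.1 ⟨⟨rf0h48.2.2.2.2.2.2.2.1.1, rf0h25.2.2.2.2.2.2.2.2.2.2.2.1.1⟩, ⟨rf0h28.2.2.2.1.1, rf0h10.2.1.1⟩⟩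
theorem rf0k207 : CfgOK (rf0c207.e, rf0c207.n) := red_ln rf0h48.2.2.2.2.2.2.1 ⟨⟨rf0h48.2.2.2.2.2.2.1.1, rf0h25.2.2.2.2.2.2.2.2.2.2.1.1⟩, ⟨rf0h28.2.2.1.1, rf0h10.1.1⟩⟩
theorem rf0k208 : CfgOK (rf0c208.e, rf0c208.n) := red_ln rf0h48.2.2.2.2.2.1 rf0h48.2.2.2.2.2.1.1
theorem rf0k209 : CfgOK (rf0c209.e, rf0c209.n) := red_ln rf0h48.2.2.2.2.1 ⟨rf0h48.2.2.2.2.1.1, rf0h44.2.2.2.2.2.2.2.2.2.2.2.2.2.2.2.2.1.1⟩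
theorem rf0k210 : CfgOK (rf0c210.e, rf0c210.n) := red_ln rf0h48.2.2.2.1 ⟨rf0h48.2.2.2.1.1, rf0h44.2.2.2.2.2.2.2.2.2.2.2.2.2.2.2.1.1⟩
theorem rf0k211 : CfgOK (rf0c211.e, rf0c211.n) := red_ln rf0h48.2.2.1 ⟨rf0h48.2.2.1.1, rf0h44.2.2.2.2.2.2.2.2.2.2.2.2.2.2.1.1⟩
theorem rf0k212 : CfgOK (rf0c212.e, rf0c212.n) := red_ln rf0h48.2.1 rf0h48.2.1.1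
theorem rf0k213 : CfgOK (rf0c213.e, rf0c213.n) := red_ln rf0h48.1 ⟨rf0h48.1.1, rf0h44.2.2.2.2.2.2.2.2.2.2.2.2.2.1.1⟩
theorem rf0k214 : CfgOK (rf0c214.e, rf0c214.n) := red_ln rf0h50.2.2.2.2.2.2.2.2.2.2.2.2.2.2.2.2.2.2.1 rf0h50.2.2.2.2.2.2.2.2.2.2.2.2.2.2.2.2.2.2.1.1
theorem rf0k215 : CfgOK (rf0c215.e, rf0c215.n) := red_ln rf0h50.2.2.2.2.2.2.2.2.2.2.2.2.2.2.2.2.2.1 rf0h50.2.2.2.2.2.2.2.2.2.2.2.2.2.2.2.2.2.1.1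
theorem rf0k216 : CfgOK (rf0c216.e, rf0c216.n) := red_ln rf0h50.2.2.2.2.2.2.2.2.2.2.2.2.2.2.2.2.1 rf0h50.2.2.2.2.2.2.2.2.2.2.2.2.2.2.2.2.1.1
theorem rf0k217 : CfgOK (rf0c217.e, rf0c217.n) := red_ln rf0h50.2.2.2.2.2.2.2.2.2.2.2.2.2.2.2.1 rf0h50.2.2.2.2.2.2.2.2.2.2.2.2.2.2.2.1.1
theorem rf0k218 : CfgOK (rf0c218.e, rf0c218.n) := red_ln rf0h50.2.2.2.2.2.2.2.2.2.2.2.2.2.2.1 rf0h50.2.2.2.2.2.2.2.2.2.2.2.2.2.2.1.1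
theorem rf0k219 : CfgOK (rf0c219.e, rf0c219.n) := red_ln rf0h50.2.2.2.2.2.2.2.2.2.2.2.2.2.1 ⟨rf0h50.2.2.2.2.2.2.2.2.2.2.2.2.2.1.1, rf0h28.2.2.2.2.2.2.2.1.1⟩
theorem rf0k220 : CfgOK (rf0c220.e, rf0c220.n) := red_ln rf0h50.2.2.2.2.2.2.2.2.2.2.2.2.1 ⟨⟨rf0h50.2.2.2.2.2.2.2.2.2.2.2.2.1.1, rf0h25.2.2.2.2.2.2.2.2.2.1.1⟩, ⟨rf0h28.2.2.2.2.2.2.1.1, rf0h10.2.2.2.2.1.1⟩⟩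
theorem rf0k221 : CfgOK (rf0c221.e, rf0c221.n) := red_ln rf0h50.2.2.2.2.2.2.2.2.2.2.2.1 rf0h50.2.2.2.2.2.2.2.2.2.2.2.1.1
theorem rf0k222 : CfgOK (rf0c222.e, rf0c222.n) := red_ln rf0h50.2.2.2.2.2.2.2.2.2.2.1 rf0h50.2.2.2.2.2.2.2.2.2.2.1.1
theorem rf0k223 : CfgOK (rf0c223.e, rf0c223.n) := red_ln rf0h50.2.2.2.2.2.2.2.2.2.1 ⟨⟨rf0h50.2.2.2.2.2.2.2.2.2.1.1, rf0h25.2.2.2.2.2.2.2.2.1.1⟩, ⟨rf0h28.2.2.2.2.2.1.1, rf0h10.2.2.2.1.1⟩⟩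
theorem rf0k224 : CfgOK (rf0c224.e, rf0c224.n) := red_ln rf0h50.2.2.2.2.2.2.2.2.1 ⟨rf0h50.2.2.2.2.2.2.2.2.1.1, rf0h28.1.1⟩
theorem rf0k225 : CfgOK (rf0c225.e, rf0c225.n) := red_ln rf0h50.2.2.2.2.2.2.2.1 rf0h50.2.2.2.2.2.2.2.1.1
theorem rf0k226 : CfgOK (rf0c226.e, rf0c226.n) := red_ln rf0h50.2.2.2.2.2.2.1 rf0h50.2.2.2.2.2.2.1.1
theorem rf0k227 : CfgOK (rf0c227.e, rf0c227.n) := red_ln rf0h50.2.2.2.2.2.1 rf0h50.2.2.2.2.2.1.1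
theorem rf0k228 : CfgOK (rf0c228.e, rf0c228.n) := red_ln rf0h50.2.2.2.2.1 rf0h50.2.2.2.2.1.1
theorem rf0k229 : CfgOK (rf0c229.e, rf0c229.n) := red_ln rf0h50.2.2.2.1 rf0h50.2.2.2.1.1
theorem rf0k230 : CfgOK (rf0c230.e, rf0c230.n) := red_ln rf0h50.2.2.1 rf0h50.2.2.1.1
theorem rf0k231 : CfgOK (rf0c231.e, rf0c231.n) := red_ln rf0h50.2.1 rf0h50.2.1.1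
theorem rf0k232 : CfgOK (rf0c232.e, rf0c232.n) := red_ln rf0h50.1 rf0h50.1.1
theorem rf0k233 : CfgOK (rf0c233.e, rf0c233.n) := red_ln rf0h49.2.2.2.2.2.2.2.2.2.2.2.2.2.2.2.2.2.2.2.2.2.2.2.2.2.2.2.2.2.1 rf0h49.2.2.2.2.2.2.2.2.2.2.2.2.2.2.2.2.2.2.2.2.2.2.2.2.2.2.2.2.2.1.1
theorem rf0k234 : CfgOK (rf0c234.e, rf0c234.n) := red_ln rf0h49.2.2.2.2.2.2.2.2.2.2.2.2.2.2.2.2.2.2.2.2.2.2.2.2.2.2.2.2.1 rf0h49.2.2.2.2.2.2.2.2.2.2.2.2.2.2.2.2.2.2.2.2.2.2.2.2.2.2.2.2.1.1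
theorem rf0k235 : CfgOK (rf0c235.e, rf0c235.n) := red_ln rf0h49.2.2.2.2.2.2.2.2.2.2.2.2.2.2.2.2.2.2.2.2.2.2.2.2.2.2.2.1 rf0h49.2.2.2.2.2.2.2.2.2.2.2.2.2.2.2.2.2.2.2.2.2.2.2.2.2.2.2.1.1
theorem rf0k236 : CfgOK (rf0c236.e, rf0c236.n) := red_ln rf0h49.2.2.2.2.2.2.2.2.2.2.2.2.2.2.2.2.2.2.2.2.2.2.2.2.2.2.1 rf0h49.2.2.2.2.2.2.2.2.2.2.2.2.2.2.2.2.2.2.2.2.2.2.2.2.2.2.1.1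
theorem rf0k237 : CfgOK (rf0c237.e, rf0c237.n) := red_ln rf0h49.2.2.2.2.2.2.2.2.2.2.2.2.2.2.2.2.2.2.2.2.2.2.2.2.2.1 rf0h49.2.2.2.2.2.2.2.2.2.2.2.2.2.2.2.2.2.2.2.2.2.2.2.2.2.1.1
theorem rf0k238 : CfgOK (rf0c238.e, rf0c238.n) := red_ln rf0h49.2.2.2.2.2.2.2.2.2.2.2.2.2.2.2.2.2.2.2.2.2.2.2.2.1 rf0h49.2.2.2.2.2.2.2.2.2.2.2.2.2.2.2.2.2.2.2.2.2.2.2.2.1.1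
theorem rf0k239 : CfgOK (rf0c239.e, rf0c239.n) := red_ln rf0h49.2.2.2.2.2.2.2.2.2.2.2.2.2.2.2.2.2.2.2.2.2.2.2.1 rf0h49.2.2.2.2.2.2.2.2.2.2.2.2.2.2.2.2.2.2.2.2.2.2.2.1.1
theorem rf0k240 : CfgOK (rf0c240.e, rf0c240.n) := red_ln rf0h49.2.2.2.2.2.2.2.2.2.2.2.2.2.2.2.2.2.2.2.2.2.2.1 rf0h49.2.2.2.2.2.2.2.2.2.2.2.2.2.2.2.2.2.2.2.2.2.2.1.1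
theorem rf0k241 : CfgOK (rf0c241.e, rf0c241.n) := red_ln rf0h49.2.2.2.2.2.2.2.2.2.2.2.2.2.2.2.2.2.2.2.2.2.1 rf0h49.2.2.2.2.2.2.2.2.2.2.2.2.2.2.2.2.2.2.2.2.2.1.1
theorem rf0k242 : CfgOK (rf0c242.e, rf0c242.n) := red_ln rf0h49.2.2.2.2.2.2.2.2.2.2.2.2.2.2.2.2.2.2.2.2.1 ⟨rf0h49.2.2.2.2.2.2.2.2.2.2.2.2.2.2.2.2.2.2.2.2.1.1, rf0h44.2.2.2.2.2.2.2.2.2.2.2.2.1.1⟩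
theorem rf0k243 : CfgOK (rf0c243.e, rf0c243.n) := red_ln rf0h49.2.2.2.2.2.2.2.2.2.2.2.2.2.2.2.2.2.2.2.1 ⟨rf0h49.2.2.2.2.2.2.2.2.2.2.2.2.2.2.2.2.2.2.2.1.1, rf0h44.2.2.2.2.2.2.2.2.2.2.2.1.1⟩
theorem rf0k244 : CfgOK (rf0c244.e, rf0c244.n) := red_ln rf0h49.2.2.2.2.2.2.2.2.2.2.2.2.2.2.2.2.2.2.1 ⟨rf0h49.2.2.2.2.2.2.2.2.2.2.2.2.2.2.2.2.2.2.1.1, rf0h44.2.2.2.2.2.2.2.2.2.2.1.1⟩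
theorem rf0k245 : CfgOK (rf0c245.e, rf0c245.n) := red_ln rf0h49.2.2.2.2.2.2.2.2.2.2.2.2.2.2.2.2.2.1 ⟨rf0h49.2.2.2.2.2.2.2.2.2.2.2.2.2.2.2.2.2.1.1, rf0h44.2.2.2.2.2.2.2.2.2.1.1⟩
theorem rf0k246 : CfgOK (rf0c246.e, rf0c246.n) := red_ln rf0h49.2.2.2.2.2.2.2.2.2.2.2.2.2.2.2.2.1 ⟨rf0h49.2.2.2.2.2.2.2.2.2.2.2.2.2.2.2.2.1.1, rf0h44.2.2.2.2.2.2.2.2.1.1⟩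
theorem rf0k247 : CfgOK (rf0c247.e, rf0c247.n) := red_ln rf0h49.2.2.2.2.2.2.2.2.2.2.2.2.2.2.2.1 ⟨rf0h49.2.2.2.2.2.2.2.2.2.2.2.2.2.2.2.1.1, rf0h44.2.2.2.2.2.2.2.1.1⟩
theorem rf0k248 : CfgOK (rf0c248.e, rf0c248.n) := red_ln rf0h49.2.2.2.2.2.2.2.2.2.2.2.2.2.2.1 ⟨rf0h49.2.2.2.2.2.2.2.2.2.2.2.2.2.2.1.1, rf0h44.2.2.2.2.2.2.1.1⟩
theorem rf0k249 : CfgOK (rf0c249.e, rf0c249.n) := red_ln rf0h49.2.2.2.2.2.2.2.2.2.2.2.2.2.1 ⟨rf0h49.2.2.2.2.2.2.2.2.2.2.2.2.2.1.1, rf0h44.2.2.2.2.2.1.1⟩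
theorem rf0k250 : CfgOK (rf0c250.e, rf0c250.n) := red_ln rf0h49.2.2.2.2.2.2.2.2.2.2.2.2.1 ⟨rf0h49.2.2.2.2.2.2.2.2.2.2.2.2.1.1, rf0h51.2.2.2.2.2.2.2.2.2.1.1⟩
theorem rf0k251 : CfgOK (rf0c251.e, rf0c251.n) := red_ln rf0h49.2.2.2.2.2.2.2.2.2.2.2.1 rf0h49.2.2.2.2.2.2.2.2.2.2.2.1.1
theorem rf0k252 : CfgOK (rf0c252.e, rf0c252.n) := red_ln rf0h49.2.2.2.2.2.2.2.2.2.2.1 rf0h49.2.2.2.2.2.2.2.2.2.2.1.1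
theorem rf0k253 : CfgOK (rf0c253.e, rf0c253.n) := red_ln rf0h49.2.2.2.2.2.2.2.2.2.1 rf0h49.2.2.2.2.2.2.2.2.2.1.1
theorem rf0k254 : CfgOK (rf0c254.e, rf0c254.n) := red_ln rf0h49.2.2.2.2.2.2.2.2.1 ⟨rf0h49.2.2.2.2.2.2.2.2.1.1, rf0h44.2.2.2.2.1.1⟩
theorem rf0k255 : CfgOK (rf0c255.e, rf0c255.n) := red_ln rf0h49.2.2.2.2.2.2.2.1 ⟨rf0h49.2.2.2.2.2.2.2.1.1, rf0h51.2.2.2.2.2.2.2.2.1.1⟩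
theorem rf0k256 : CfgOK (rf0c256.e, rf0c256.n) := red_ln rf0h49.2.2.2.2.2.2.1 ⟨rf0h49.2.2.2.2.2.2.1.1, rf0h44.2.2.2.1.1⟩
theorem rf0k257 : CfgOK (rf0c257.e, rf0c257.n) := red_ln rf0h49.2.2.2.2.2.1 rf0h49.2.2.2.2.2.1.1
theorem rf0k258 : CfgOK (rf0c258.e, rf0c258.n) := red_ln rf0h49.2.2.2.2.1 rf0h49.2.2.2.2.1.1
theorem rf0k259 : CfgOK (rf0c259.e, rf0c259.n) := red_ln rf0h49.2.2.2.1 rf0h49.2.2.2.1.1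
theorem rf0k260 : CfgOK (rf0c260.e, rf0c260.n) := red_ln rf0h49.2.2.1 ⟨rf0h49.2.2.1.1, rf0h44.2.2.1.1⟩
theorem rf0k261 : CfgOK (rf0c261.e, rf0c261.n) := red_ln rf0h49.2.1 ⟨rf0h49.2.1.1, rf0h44.2.1.1⟩
theorem rf0k262 : CfgOK (rf0c262.e, rf0c262.n) := red_ln rf0h49.1 ⟨rf0h49.1.1, rf0h44.1.1⟩
theorem rf0k263 : CfgOK (rf0c263.e, rf0c263.n) := red_ln rf0h52.2.2.2.2.2.2.1 rf0h52.2.2.2.2.2.2.1.1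
theorem rf0k264 : CfgOK (rf0c264.e, rf0c264.n) := red_ln rf0h52.2.2.2.2.2.1 rf0h52.2.2.2.2.2.1.1
theorem rf0k265 : CfgOK (rf0c265.e, rf0c265.n) := red_ln rf0h52.2.2.2.2.1 rf0h52.2.2.2.2.1.1
theorem rf0k266 : CfgOK (rf0c266.e, rf0c266.n) := red_ln rf0h52.2.2.2.1 rf0h52.2.2.2.1.1
theorem rf0k267 : CfgOK (rf0c267.e, rf0c267.n) := red_ln rf0h52.2.2.1 ⟨rf0h52.2.2.1.1, rf0h51.2.2.2.2.2.2.2.1.1⟩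
theorem rf0k268 : CfgOK (rf0c268.e, rf0c268.n) := red_ln rf0h52.2.1 ⟨rf0h52.2.1.1, rf0h51.2.2.2.2.2.2.1.1⟩
theorem rf0k269 : CfgOK (rf0c269.e, rf0c269.n) := red_ln rf0h52.1 ⟨rf0h52.1.1, rf0h51.2.2.2.2.2.1.1⟩
theorem rf0k270 : CfgOK (rf0c270.e, rf0c270.n) := red_ln rf0h53.2.2.2.2.2.2.2.2.2.2.2.2.2.2.2.2.2.2.1 rf0h53.2.2.2.2.2.2.2.2.2.2.2.2.2.2.2.2.2.2.1.1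
theorem rf0k271 : CfgOK (rf0c271.e, rf0c271.n) := red_ln rf0h53.2.2.2.2.2.2.2.2.2.2.2.2.2.2.2.2.2.1 rf0h53.2.2.2.2.2.2.2.2.2.2.2.2.2.2.2.2.2.1.1
theorem rf0k272 : CfgOK (rf0c272.e, rf0c272.n) := red_ln rf0h53.2.2.2.2.2.2.2.2.2.2.2.2.2.2.2.2.1 rf0h53.2.2.2.2.2.2.2.2.2.2.2.2.2.2.2.2.1.1
theorem rf0k273 : CfgOK (rf0c273.e, rf0c273.n) := red_ln rf0h53.2.2.2.2.2.2.2.2.2.2.2.2.2.2.2.1 rf0h53.2.2.2.2.2.2.2.2.2.2.2.2.2.2.2.1.1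
theorem rf0k274 : CfgOK (rf0c274.e, rf0c274.n) := red_ln rf0h53.2.2.2.2.2.2.2.2.2.2.2.2.2.2.1 rf0h53.2.2.2.2.2.2.2.2.2.2.2.2.2.2.1.1
theorem rf0k275 : CfgOK (rf0c275.e, rf0c275.n) := red_ln rf0h53.2.2.2.2.2.2.2.2.2.2.2.2.2.1 ⟨⟨rf0h53.2.2.2.2.2.2.2.2.2.2.2.2.2.1.1, rf0h28.2.2.2.2.1.1⟩, ⟨rf0h11.2.2.2.2.2.2.2.2.2.2.2.2.2.2.2.2.2.2.2.2.2.2.2.2.2.1.1, rf0h15.1.1⟩⟩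
theorem rf0k276 : CfgOK (rf0c276.e, rf0c276.n) := red_ln rf0h53.2.2.2.2.2.2.2.2.2.2.2.2.1 rf0h53.2.2.2.2.2.2.2.2.2.2.2.2.1.1
theorem rf0k277 : CfgOK (rf0c277.e, rf0c277.n) := red_ln rf0h53.2.2.2.2.2.2.2.2.2.2.2.1 rf0h53.2.2.2.2.2.2.2.2.2.2.2.1.1
theorem rf0k278 : CfgOK (rf0c278.e, rf0c278.n) := red_ln rf0h53.2.2.2.2.2.2.2.2.2.2.1 rf0h53.2.2.2.2.2.2.2.2.2.2.1.1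
theorem rf0k279 : CfgOK (rf0c279.e, rf0c279.n) := red_ln rf0h53.2.2.2.2.2.2.2.2.2.1 rf0h53.2.2.2.2.2.2.2.2.2.1.1
theorem rf0k280 : CfgOK (rf0c280.e, rf0c280.n) := red_ln rf0h53.2.2.2.2.2.2.2.2.1 rf0h53.2.2.2.2.2.2.2.2.1.1
theorem rf0k281 : CfgOK (rf0c281.e, rf0c281.n) := red_ln rf0h53.2.2.2.2.2.2.2.1 rf0h53.2.2.2.2.2.2.2.1.1
theorem rf0k282 : CfgOK (rf0c282.e, rf0c282.n) := red_ln rf0h53.2.2.2.2.2.2.1 rf0h53.2.2.2.2.2.2.1.1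
theorem rf0k283 : CfgOK (rf0c283.e, rf0c283.n) := red_ln rf0h53.2.2.2.2.2.1 ⟨rf0h53.2.2.2.2.2.1.1, rf0h51.2.2.2.2.1.1⟩
theorem rf0k284 : CfgOK (rf0c284.e, rf0c284.n) := red_ln rf0h53.2.2.2.2.1 ⟨rf0h53.2.2.2.2.1.1, rf0h51.2.2.2.1.1⟩
theorem rf0k285 : CfgOK (rf0c285.e, rf0c285.n) := red_ln rf0h53.2.2.2.1 ⟨rf0h53.2.2.2.1.1, rf0h51.2.2.1.1⟩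
theorem rf0k286 : CfgOK (rf0c286.e, rf0c286.n) := red_ln rf0h53.2.2.1 rf0h53.2.2.1.1
theorem rf0k287 : CfgOK (rf0c287.e, rf0c287.n) := red_ln rf0h53.2.1 ⟨rf0h53.2.1.1, rf0h51.2.1.1⟩
theorem rf0k288 : CfgOK (rf0c288.e, rf0c288.n) := red_ln rf0h53.1 ⟨rf0h53.1.1, rf0h51.1.1⟩
theorem rf0k289 : CfgOK (rf0c289.e, rf0c289.n) := red_ln rf0h55.2.2.2.2.2.2.2.2.2.2.2.2.2.2.2.2.2.1 ⟨⟨⟨rf0h55.2.2.2.2.2.2.2.2.2.2.2.2.2.2.2.2.2.1.1, rf0h35.2.2.2.2.2.1.1⟩, ⟨rf0h59.2.2.2.2.2.2.2.2.2.2.2.1.1, rf0h38.2.2.2.2.2.2.2.2.2.2.2.2.2.2.2.2.2.2.2.1.1⟩⟩, ⟨⟨rf0h33.2.2.2.2.2.2.2.2.2.2.2.2.2.2.2.2.2.2.2.1.1, rf0h11.2.2.2.2.2.1.1⟩, ⟨rf0h38.2.2.2.2.2.2.2.2.2.2.2.2.2.2.2.2.2.2.1.1, rf0h16.2.2.2.2.2.2.2.2.2.2.2.2.2.2.2.2.2.2.2.2.2.2.1.1⟩⟩⟩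
theorem rf0k290 : CfgOK (rf0c290.e, rf0c290.n) := red_ln rf0h55.2.2.2.2.2.2.2.2.2.2.2.2.2.2.2.2.1 ⟨rf0h55.2.2.2.2.2.2.2.2.2.2.2.2.2.2.2.2.1.1, rf0h33.2.2.2.2.2.2.2.2.2.2.2.2.2.2.2.2.2.2.1.1⟩
theorem rf0k291 : CfgOK (rf0c291.e, rf0c291.n) := red_ln rf0h55.2.2.2.2.2.2.2.2.2.2.2.2.2.2.2.1 ⟨rf0h55.2.2.2.2.2.2.2.2.2.2.2.2.2.2.2.1.1, rf0h33.2.2.2.2.2.2.2.2.2.2.2.2.2.2.2.2.2.1.1⟩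
theorem rf0k292 : CfgOK (rf0c292.e, rf0c292.n) := red_ln rf0h55.2.2.2.2.2.2.2.2.2.2.2.2.2.2.1 ⟨⟨⟨rf0h55.2.2.2.2.2.2.2.2.2.2.2.2.2.2.1.1, rf0h33.2.2.2.2.2.2.2.2.2.2.2.2.2.2.2.2.1.1⟩, ⟨rf0h33.2.2.2.2.2.2.2.2.2.2.2.2.2.2.2.1.1, rf0h11.2.2.2.2.2.2.2.2.2.2.2.2.2.2.2.2.2.2.2.2.2.2.2.2.1.1⟩⟩, ⟨⟨rf0h59.2.2.2.2.2.2.2.2.2.2.1.1, rf0h38.2.2.2.2.2.2.2.2.2.2.2.2.2.2.2.2.2.1.1⟩, ⟨rf0h38.2.2.2.2.2.2.2.2.2.2.2.2.2.2.2.2.1.1, rf0h16.2.2.2.2.2.2.2.2.2.2.2.2.2.2.2.2.2.2.2.2.2.1.1⟩⟩⟩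
theorem rf0k293 : CfgOK (rf0c293.e, rf0c293.n) := red_ln rf0h55.2.2.2.2.2.2.2.2.2.2.2.2.2.1 ⟨⟨⟨rf0h55.2.2.2.2.2.2.2.2.2.2.2.2.2.1.1, rf0h30.2.2.2.2.2.2.2.2.2.2.2.2.2.2.2.2.2.2.2.2.2.2.2.2.2.2.1.1⟩, ⟨rf0h35.2.2.2.2.2.2.2.2.2.2.2.2.2.2.1.1, rf0h13.2.2.2.2.2.2.2.2.2.2.2.2.1.1⟩⟩, ⟨⟨rf0h59.2.2.2.2.2.2.2.2.2.1.1, rf0h38.2.2.2.2.2.2.2.2.2.2.2.2.2.2.2.1.1⟩, ⟨rf0h38.2.2.2.2.2.2.2.2.2.2.2.2.2.2.1.1, rf0h16.2.2.2.2.2.2.2.2.2.2.2.2.2.2.2.2.2.2.2.2.1.1⟩⟩⟩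
theorem rf0k294 : CfgOK (rf0c294.e, rf0c294.n) := red_ln rf0h55.2.2.2.2.2.2.2.2.2.2.2.2.1 rf0h55.2.2.2.2.2.2.2.2.2.2.2.2.1.1
theorem rf0k295 : CfgOK (rf0c295.e, rf0c295.n) := red_ln rf0h55.2.2.2.2.2.2.2.2.2.2.2.1 ⟨rf0h55.2.2.2.2.2.2.2.2.2.2.2.1.1, rf0h59.2.2.2.2.2.2.2.2.1.1⟩
theorem rf0k296 : CfgOK (rf0c296.e, rf0c296.n) := red_ln rf0h55.2.2.2.2.2.2.2.2.2.2.1 ⟨rf0h55.2.2.2.2.2.2.2.2.2.2.1.1, rf0h59.2.2.2.2.2.2.2.1.1⟩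
theorem rf0k297 : CfgOK (rf0c297.e, rf0c297.n) := red_ln rf0h55.2.2.2.2.2.2.2.2.2.1 ⟨rf0h55.2.2.2.2.2.2.2.2.2.1.1, rf0h59.2.2.2.2.2.2.1.1⟩
theorem rf0k298 : CfgOK (rf0c298.e, rf0c298.n) := red_ln rf0h55.2.2.2.2.2.2.2.2.1 ⟨⟨rf0h55.2.2.2.2.2.2.2.2.1.1, rf0h59.2.2.2.2.2.1.1⟩, ⟨rf0h35.2.2.2.2.2.2.2.2.2.2.2.2.2.1.1, rf0h38.2.2.2.2.2.2.2.2.2.2.2.2.2.1.1⟩⟩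
theorem rf0k299 : CfgOK (rf0c299.e, rf0c299.n) := red_ln rf0h55.2.2.2.2.2.2.2.1 ⟨⟨rf0h55.2.2.2.2.2.2.2.1.1, rf0h35.2.2.2.2.1.1⟩, ⟨rf0h59.2.2.2.2.1.1, rf0h38.2.2.2.2.2.2.2.2.2.2.2.2.1.1⟩⟩
theorem rf0k300 : CfgOK (rf0c300.e, rf0c300.n) := red_ln rf0h55.2.2.2.2.2.2.1 ⟨⟨rf0h55.2.2.2.2.2.2.1.1, rf0h33.2.2.2.2.2.2.2.2.2.2.2.2.2.2.1.1⟩, ⟨rf0h59.2.2.2.1.1, rf0h38.2.2.2.2.2.2.2.2.2.2.2.1.1⟩⟩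
theorem rf0k301 : CfgOK (rf0c301.e, rf0c301.n) := red_ln rf0h55.2.2.2.2.2.1 ⟨⟨⟨rf0h55.2.2.2.2.2.1.1, rf0h31.2.2.2.2.2.2.2.2.2.2.2.2.2.2.2.2.2.2.2.2.2.2.1.1⟩, ⟨rf0h33.2.2.2.2.2.2.2.2.2.2.2.2.2.1.1, rf0h13.2.2.2.2.2.2.2.2.2.2.2.1.1⟩⟩, ⟨⟨rf0h59.2.2.1.1, rf0h38.2.2.2.2.2.2.2.2.2.2.1.1⟩, ⟨rf0h38.2.2.2.2.2.2.2.2.2.1.1, rf0h16.2.2.2.2.2.2.2.2.2.2.2.2.2.2.2.2.2.2.2.1.1⟩⟩⟩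
theorem rf0k302 : CfgOK (rf0c302.e, rf0c302.n) := red_ln rf0h55.2.2.2.2.1 ⟨⟨⟨rf0h55.2.2.2.2.1.1, rf0h31.2.2.2.2.2.2.2.2.2.2.2.2.2.2.2.2.2.2.2.2.2.1.1⟩, ⟨rf0h33.2.2.2.2.2.2.2.2.2.2.2.2.1.1, rf0h11.2.2.2.2.2.2.2.2.2.2.2.2.2.2.2.2.2.2.2.2.2.2.2.1.1⟩⟩, ⟨⟨rf0h59.2.1.1, rf0h38.2.2.2.2.2.2.2.2.1.1⟩, ⟨rf0h38.2.2.2.2.2.2.2.1.1, rf0h16.2.2.2.2.2.2.2.2.2.2.2.2.2.2.2.2.2.2.1.1⟩⟩⟩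
theorem rf0k303 : CfgOK (rf0c303.e, rf0c303.n) := red_ln rf0h55.2.2.2.1 ⟨rf0h55.2.2.2.1.1, rf0h30.2.2.2.2.2.2.2.2.2.2.2.2.2.2.2.2.2.2.2.2.2.2.2.2.2.1.1⟩
theorem rf0k304 : CfgOK (rf0c304.e, rf0c304.n) := red_ln rf0h55.2.2.1 ⟨⟨⟨rf0h55.2.2.1.1, rf0h30.2.2.2.2.2.2.2.2.2.2.2.2.2.2.2.2.2.2.2.2.2.2.2.2.1.1⟩, ⟨rf0h35.2.2.2.1.1, rf0h11.2.2.2.2.2.2.2.2.2.1.1⟩⟩, ⟨⟨rf0h59.1.1, rf0h38.2.2.2.2.2.2.1.1⟩, ⟨rf0h38.2.2.2.2.2.1.1, rf0h16.2.2.2.2.2.2.2.2.2.2.2.2.2.2.2.2.2.1.1⟩⟩⟩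
theorem rf0k305 : CfgOK (rf0c305.e, rf0c305.n) := red_ln rf0h55.2.1 ⟨⟨⟨rf0h55.2.1.1, rf0h30.2.2.2.2.2.2.2.2.2.2.2.2.2.2.2.2.2.2.2.2.2.2.2.1.1⟩, ⟨rf0h35.2.2.1.1, rf0h11.2.2.2.2.2.2.2.2.1.1⟩⟩, ⟨⟨rf0h58.2.2.2.2.2.2.2.2.2.2.2.2.2.2.2.2.2.2.2.2.2.2.2.2.2.2.2.2.2.2.2.2.2.2.2.2.2.2.2.1.1, rf0h38.2.2.2.2.1.1⟩, ⟨rf0h38.2.2.2.1.1, rf0h16.2.2.2.2.2.2.2.2.2.2.2.2.2.2.2.2.1.1⟩⟩⟩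
theorem rf0k306 : CfgOK (rf0c306.e, rf0c306.n) := red_ln rf0h55.1 ⟨rf0h55.1.1, rf0h58.2.2.2.2.2.2.2.2.2.2.2.2.2.2.2.2.2.2.2.2.2.2.2.2.2.2.2.2.2.2.2.2.2.2.2.2.2.2.1.1⟩
theorem rf0k307 : CfgOK (rf0c307.e, rf0c307.n) := red_ln rf0h54.2.2.2.2.2.2.2.2.2.2.2.2.2.2.2.2.2.2.2.2.2.2.2.2.2.2.2.2.2.1 ⟨rf0h54.2.2.2.2.2.2.2.2.2.2.2.2.2.2.2.2.2.2.2.2.2.2.2.2.2.2.2.2.2.1.1, rf0h58.2.2.2.2.2.2.2.2.2.2.2.2.2.2.2.2.2.2.2.2.2.2.2.2.2.2.2.2.2.2.2.2.2.2.2.2.2.1.1⟩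
theorem rf0k308 : CfgOK (rf0c308.e, rf0c308.n) := red_ln rf0h54.2.2.2.2.2.2.2.2.2.2.2.2.2.2.2.2.2.2.2.2.2.2.2.2.2.2.2.2.1 ⟨⟨rf0h54.2.2.2.2.2.2.2.2.2.2.2.2.2.2.2.2.2.2.2.2.2.2.2.2.2.2.2.2.1.1, rf0h35.2.1.1⟩, ⟨rf0h58.2.2.2.2.2.2.2.2.2.2.2.2.2.2.2.2.2.2.2.2.2.2.2.2.2.2.2.2.2.2.2.2.2.2.2.2.1.1, rf0h38.2.2.1.1⟩⟩
theorem rf0k309 : CfgOK (rf0c309.e, rf0c309.n) := red_ln rf0h54.2.2.2.2.2.2.2.2.2.2.2.2.2.2.2.2.2.2.2.2.2.2.2.2.2.2.2.1 ⟨⟨rf0h54.2.2.2.2.2.2.2.2.2.2.2.2.2.2.2.2.2.2.2.2.2.2.2.2.2.2.2.1.1, rf0h35.1.1⟩, ⟨rf0h58.2.2.2.2.2.2.2.2.2.2.2.2.2.2.2.2.2.2.2.2.2.2.2.2.2.2.2.2.2.2.2.2.2.2.2.1.1, rf0h38.2.1.1⟩⟩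
theorem rf0k310 : CfgOK (rf0c310.e, rf0c310.n) := red_ln rf0h54.2.2.2.2.2.2.2.2.2.2.2.2.2.2.2.2.2.2.2.2.2.2.2.2.2.2.1 ⟨⟨⟨rf0h54.2.2.2.2.2.2.2.2.2.2.2.2.2.2.2.2.2.2.2.2.2.2.2.2.2.2.1.1, rf0h33.2.2.2.2.2.2.2.2.2.2.2.2.2.2.2.2.2.2.2.2.2.2.2.2.2.2.2.2.2.1.1⟩, ⟨rf0h58.2.2.2.2.2.2.2.2.2.2.2.2.2.2.2.2.2.2.2.2.2.2.2.2.2.2.2.2.2.2.2.2.2.2.1.1, rf0h38.1.1⟩⟩, ⟨⟨rf0h35.2.2.2.2.2.2.2.2.2.2.2.2.1.1, rf0h13.2.2.2.2.2.2.2.2.2.2.2.2.2.2.2.2.2.2.2.2.2.2.1.1⟩, ⟨rf0h37.2.2.2.2.2.2.2.2.2.2.2.2.2.2.2.2.2.2.2.2.2.2.2.2.2.2.2.2.2.2.2.2.2.2.2.2.2.2.2.1.1, rf0h16.2.2.2.2.2.2.2.2.2.2.2.2.2.2.2.1.1⟩⟩⟩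
theorem rf0k311 : CfgOK (rf0c311.e, rf0c311.n) := red_ln rf0h54.2.2.2.2.2.2.2.2.2.2.2.2.2.2.2.2.2.2.2.2.2.2.2.2.2.1 ⟨⟨rf0h54.2.2.2.2.2.2.2.2.2.2.2.2.2.2.2.2.2.2.2.2.2.2.2.2.2.1.1, rf0h33.2.2.2.2.2.2.2.2.2.2.2.1.1⟩, ⟨rf0h58.2.2.2.2.2.2.2.2.2.2.2.2.2.2.2.2.2.2.2.2.2.2.2.2.2.2.2.2.2.2.2.2.2.1.1, rf0h37.2.2.2.2.2.2.2.2.2.2.2.2.2.2.2.2.2.2.2.2.2.2.2.2.2.2.2.2.2.2.2.2.2.2.2.2.2.2.1.1⟩⟩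
theorem rf0k312 : CfgOK (rf0c312.e, rf0c312.n) := red_ln rf0h54.2.2.2.2.2.2.2.2.2.2.2.2.2.2.2.2.2.2.2.2.2.2.2.2.1 ⟨⟨rf0h54.2.2.2.2.2.2.2.2.2.2.2.2.2.2.2.2.2.2.2.2.2.2.2.2.1.1, rf0h33.2.2.2.2.2.2.2.2.2.2.1.1⟩, ⟨rf0h58.2.2.2.2.2.2.2.2.2.2.2.2.2.2.2.2.2.2.2.2.2.2.2.2.2.2.2.2.2.2.2.2.1.1, rf0h37.2.2.2.2.2.2.2.2.2.2.2.2.2.2.2.2.2.2.2.2.2.2.2.2.2.2.2.2.2.2.2.2.2.2.2.2.2.1.1⟩⟩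
theorem rf0k313 : CfgOK (rf0c313.e, rf0c313.n) := red_ln rf0h54.2.2.2.2.2.2.2.2.2.2.2.2.2.2.2.2.2.2.2.2.2.2.2.1 ⟨⟨rf0h54.2.2.2.2.2.2.2.2.2.2.2.2.2.2.2.2.2.2.2.2.2.2.2.1.1, rf0h33.2.2.2.2.2.2.2.2.2.1.1⟩, ⟨rf0h58.2.2.2.2.2.2.2.2.2.2.2.2.2.2.2.2.2.2.2.2.2.2.2.2.2.2.2.2.2.2.2.1.1, rf0h37.2.2.2.2.2.2.2.2.2.2.2.2.2.2.2.2.2.2.2.2.2.2.2.2.2.2.2.2.2.2.2.2.2.2.2.2.1.1⟩⟩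
theorem rf0k314 : CfgOK (rf0c314.e, rf0c314.n) := red_ln rf0h54.2.2.2.2.2.2.2.2.2.2.2.2.2.2.2.2.2.2.2.2.2.2.1 ⟨⟨rf0h54.2.2.2.2.2.2.2.2.2.2.2.2.2.2.2.2.2.2.2.2.2.2.1.1, rf0h33.2.2.2.2.2.2.2.2.1.1⟩, ⟨rf0h58.2.2.2.2.2.2.2.2.2.2.2.2.2.2.2.2.2.2.2.2.2.2.2.2.2.2.2.2.2.2.1.1, rf0h37.2.2.2.2.2.2.2.2.2.2.2.2.2.2.2.2.2.2.2.2.2.2.2.2.2.2.2.2.2.2.2.2.2.2.2.1.1⟩⟩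
theorem rf0k315 : CfgOK (rf0c315.e, rf0c315.n) := red_ln rf0h54.2.2.2.2.2.2.2.2.2.2.2.2.2.2.2.2.2.2.2.2.2.1 ⟨⟨⟨rf0h54.2.2.2.2.2.2.2.2.2.2.2.2.2.2.2.2.2.2.2.2.2.1.1, rf0h31.2.2.2.2.2.2.2.2.2.2.2.2.2.2.2.2.2.2.2.2.1.1⟩, ⟨rf0h33.2.2.2.2.2.2.2.1.1, rf0h11.2.2.2.2.2.2.2.2.2.2.2.2.2.2.2.2.2.2.2.2.2.2.1.1⟩⟩, ⟨⟨rf0h58.2.2.2.2.2.2.2.2.2.2.2.2.2.2.2.2.2.2.2.2.2.2.2.2.2.2.2.2.2.1.1, rf0h37.2.2.2.2.2.2.2.2.2.2.2.2.2.2.2.2.2.2.2.2.2.2.2.2.2.2.2.2.2.2.2.2.2.2.1.1⟩, ⟨rf0h37.2.2.2.2.2.2.2.2.2.2.2.2.2.2.2.2.2.2.2.2.2.2.2.2.2.2.2.2.2.2.2.2.2.1.1, rf0h16.2.2.2.2.2.2.2.2.2.2.2.2.2.2.1.1⟩⟩⟩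
theorem rf0k316 : CfgOK (rf0c316.e, rf0c316.n) := red_ln rf0h54.2.2.2.2.2.2.2.2.2.2.2.2.2.2.2.2.2.2.2.2.1 ⟨⟨⟨rf0h54.2.2.2.2.2.2.2.2.2.2.2.2.2.2.2.2.2.2.2.2.1.1, rf0h30.2.2.2.2.2.2.2.2.2.2.2.2.2.2.2.2.2.2.2.2.2.2.1.1⟩, ⟨rf0h33.2.2.2.2.2.2.1.1, rf0h11.2.2.2.2.2.2.2.2.2.2.2.2.2.2.2.2.2.2.2.2.2.1.1⟩⟩, ⟨⟨rf0h58.2.2.2.2.2.2.2.2.2.2.2.2.2.2.2.2.2.2.2.2.2.2.2.2.2.2.2.2.1.1, rf0h37.2.2.2.2.2.2.2.2.2.2.2.2.2.2.2.2.2.2.2.2.2.2.2.2.2.2.2.2.2.2.2.2.1.1⟩, ⟨rf0h37.2.2.2.2.2.2.2.2.2.2.2.2.2.2.2.2.2.2.2.2.2.2.2.2.2.2.2.2.2.2.2.1.1, rf0h16.2.2.2.2.2.2.2.2.2.2.2.2.2.1.1⟩⟩⟩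
theorem rf0k317 : CfgOK (rf0c317.e, rf0c317.n) := red_ln rf0h54.2.2.2.2.2.2.2.2.2.2.2.2.2.2.2.2.2.2.2.1 ⟨⟨rf0h54.2.2.2.2.2.2.2.2.2.2.2.2.2.2.2.2.2.2.2.1.1, rf0h33.2.2.2.2.2.1.1⟩, ⟨rf0h58.2.2.2.2.2.2.2.2.2.2.2.2.2.2.2.2.2.2.2.2.2.2.2.2.2.2.2.1.1, rf0h37.2.2.2.2.2.2.2.2.2.2.2.2.2.2.2.2.2.2.2.2.2.2.2.2.2.2.2.2.2.2.1.1⟩⟩
theorem rf0k318 : CfgOK (rf0c318.e, rf0c318.n) := red_ln rf0h54.2.2.2.2.2.2.2.2.2.2.2.2.2.2.2.2.2.2.1 ⟨⟨rf0h54.2.2.2.2.2.2.2.2.2.2.2.2.2.2.2.2.2.2.1.1, rf0h33.2.2.2.2.1.1⟩, ⟨rf0h58.2.2.2.2.2.2.2.2.2.2.2.2.2.2.2.2.2.2.2.2.2.2.2.2.2.2.1.1, rf0h37.2.2.2.2.2.2.2.2.2.2.2.2.2.2.2.2.2.2.2.2.2.2.2.2.2.2.2.2.2.1.1⟩⟩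
theorem rf0k319 : CfgOK (rf0c319.e, rf0c319.n) := red_ln rf0h54.2.2.2.2.2.2.2.2.2.2.2.2.2.2.2.2.2.1 ⟨⟨⟨rf0h54.2.2.2.2.2.2.2.2.2.2.2.2.2.2.2.2.2.1.1, rf0h33.2.2.2.1.1⟩, ⟨rf0h33.2.2.1.1, rf0h11.2.2.2.2.2.2.2.2.2.2.2.2.2.2.2.2.2.2.2.2.1.1⟩⟩, ⟨⟨rf0h58.2.2.2.2.2.2.2.2.2.2.2.2.2.2.2.2.2.2.2.2.2.2.2.2.2.1.1, rf0h37.2.2.2.2.2.2.2.2.2.2.2.2.2.2.2.2.2.2.2.2.2.2.2.2.2.2.2.2.1.1⟩, ⟨rf0h37.2.2.2.2.2.2.2.2.2.2.2.2.2.2.2.2.2.2.2.2.2.2.2.2.2.2.2.1.1, rf0h16.2.2.2.2.2.2.2.2.2.2.2.2.1.1⟩⟩⟩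
theorem rf0k320 : CfgOK (rf0c320.e, rf0c320.n) := red_ln rf0h54.2.2.2.2.2.2.2.2.2.2.2.2.2.2.2.2.1 ⟨rf0h54.2.2.2.2.2.2.2.2.2.2.2.2.2.2.2.2.1.1, rf0h31.2.2.2.2.2.2.2.2.2.2.2.2.2.2.2.2.2.2.2.1.1⟩
theorem rf0k321 : CfgOK (rf0c321.e, rf0c321.n) := red_ln rf0h54.2.2.2.2.2.2.2.2.2.2.2.2.2.2.2.1 ⟨⟨rf0h54.2.2.2.2.2.2.2.2.2.2.2.2.2.2.2.1.1, rf0h31.2.2.2.2.2.2.2.2.2.2.2.2.2.2.2.2.2.2.1.1⟩, ⟨rf0h58.2.2.2.2.2.2.2.2.2.2.2.2.2.2.2.2.2.2.2.2.2.2.2.2.1.1, rf0h37.2.2.2.2.2.2.2.2.2.2.2.2.2.2.2.2.2.2.2.2.2.2.2.2.2.2.1.1⟩⟩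
theorem rf0k322 : CfgOK (rf0c322.e, rf0c322.n) := red_ln rf0h54.2.2.2.2.2.2.2.2.2.2.2.2.2.2.1 ⟨⟨rf0h54.2.2.2.2.2.2.2.2.2.2.2.2.2.2.1.1, rf0h31.2.2.2.2.2.2.2.2.2.2.2.2.2.2.2.2.2.1.1⟩, ⟨rf0h58.2.2.2.2.2.2.2.2.2.2.2.2.2.2.2.2.2.2.2.2.2.2.2.1.1, rf0h37.2.2.2.2.2.2.2.2.2.2.2.2.2.2.2.2.2.2.2.2.2.2.2.2.2.1.1⟩⟩
theorem rf0k323 : CfgOK (rf0c323.e, rf0c323.n) := red_ln rf0h54.2.2.2.2.2.2.2.2.2.2.2.2.2.1 ⟨⟨rf0h54.2.2.2.2.2.2.2.2.2.2.2.2.2.1.1, rf0h30.2.2.2.2.2.2.2.2.2.1.1⟩, ⟨rf0h30.2.2.2.2.2.2.2.2.2.2.2.2.2.2.2.2.2.2.2.2.2.1.1, rf0h11.2.1.1⟩⟩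
theorem rf0k324 : CfgOK (rf0c324.e, rf0c324.n) := red_ln rf0h54.2.2.2.2.2.2.2.2.2.2.2.2.1 ⟨⟨rf0h54.2.2.2.2.2.2.2.2.2.2.2.2.1.1, rf0h30.2.2.2.2.2.2.1.1⟩, ⟨rf0h58.2.2.2.2.2.2.2.2.2.2.2.2.2.2.2.2.2.2.2.2.2.2.1.1, rf0h37.2.2.2.2.2.2.2.2.2.2.2.2.2.2.2.2.2.2.2.2.2.2.2.2.1.1⟩⟩
theorem rf0k325 : CfgOK (rf0c325.e, rf0c325.n) := red_ln rf0h54.2.2.2.2.2.2.2.2.2.2.2.1 rf0h54.2.2.2.2.2.2.2.2.2.2.2.1.1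
theorem rf0k326 : CfgOK (rf0c326.e, rf0c326.n) := red_ln rf0h54.2.2.2.2.2.2.2.2.2.2.1 ⟨⟨rf0h54.2.2.2.2.2.2.2.2.2.2.1.1, rf0h33.2.1.1⟩, ⟨rf0h58.2.2.2.2.2.2.2.2.2.2.2.2.2.2.2.2.2.2.2.2.2.1.1, rf0h37.2.2.2.2.2.2.2.2.2.2.2.2.2.2.2.2.2.2.2.2.2.2.2.1.1⟩⟩
theorem rf0k327 : CfgOK (rf0c327.e, rf0c327.n) := red_ln rf0h54.2.2.2.2.2.2.2.2.2.1 ⟨⟨rf0h54.2.2.2.2.2.2.2.2.2.1.1, rf0h31.2.2.2.2.2.2.2.2.2.2.2.2.2.2.2.2.1.1⟩, ⟨rf0h58.2.2.2.2.2.2.2.2.2.2.2.2.2.2.2.2.2.2.2.2.1.1, rf0h37.2.2.2.2.2.2.2.2.2.2.2.2.2.2.2.2.2.2.2.2.2.2.1.1⟩⟩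
theorem rf0k328 : CfgOK (rf0c328.e, rf0c328.n) := red_ln rf0h54.2.2.2.2.2.2.2.2.1 ⟨⟨rf0h54.2.2.2.2.2.2.2.2.1.1, rf0h31.2.2.2.2.2.2.2.2.2.2.2.2.2.2.2.1.1⟩, ⟨rf0h58.2.2.2.2.2.2.2.2.2.2.2.2.2.2.2.2.2.2.2.1.1, rf0h37.2.2.2.2.2.2.2.2.2.2.2.2.2.2.2.2.2.2.2.2.2.1.1⟩⟩
theorem rf0k329 : CfgOK (rf0c329.e, rf0c329.n) := red_ln rf0h54.2.2.2.2.2.2.2.1 ⟨⟨rf0h54.2.2.2.2.2.2.2.1.1, rf0h31.2.2.2.2.2.2.2.2.2.2.2.2.2.2.1.1⟩, ⟨rf0h58.2.2.2.2.2.2.2.2.2.2.2.2.2.2.2.2.2.2.1.1, rf0h37.2.2.2.2.2.2.2.2.2.2.2.2.2.2.2.2.2.2.2.2.1.1⟩⟩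
theorem rf0k330 : CfgOK (rf0c330.e, rf0c330.n) := red_ln rf0h54.2.2.2.2.2.2.1 ⟨⟨rf0h54.2.2.2.2.2.2.1.1, rf0h31.2.2.2.2.2.2.2.2.2.2.2.2.2.1.1⟩, ⟨rf0h58.2.2.2.2.2.2.2.2.2.2.2.2.2.2.2.2.2.1.1, rf0h37.2.2.2.2.2.2.2.2.2.2.2.2.2.2.2.2.2.2.2.1.1⟩⟩
theorem rf0k331 : CfgOK (rf0c331.e, rf0c331.n) := red_ln rf0h54.2.2.2.2.2.1 ⟨rf0h54.2.2.2.2.2.1.1, rf0h58.2.2.2.2.2.2.2.2.2.2.2.2.2.2.2.2.1.1⟩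
theorem rf0k332 : CfgOK (rf0c332.e, rf0c332.n) := red_ln rf0h54.2.2.2.2.1 ⟨rf0h54.2.2.2.2.1.1, rf0h58.2.2.2.2.2.2.2.2.2.2.2.2.2.2.2.1.1⟩
theorem rf0k333 : CfgOK (rf0c333.e, rf0c333.n) := red_ln rf0h54.2.2.2.1 ⟨rf0h54.2.2.2.1.1, rf0h58.2.2.2.2.2.2.2.2.2.2.2.2.2.2.1.1⟩
theorem rf0k334 : CfgOK (rf0c334.e, rf0c334.n) := red_ln rf0h54.2.2.1 ⟨⟨⟨rf0h54.2.2.1.1, rf0h31.2.2.2.2.2.2.2.2.2.2.2.2.1.1⟩, ⟨rf0h35.2.2.2.2.2.2.2.2.2.2.2.1.1, rf0h13.2.2.2.2.2.2.2.2.2.2.2.2.2.2.2.2.2.2.2.2.2.1.1⟩⟩, ⟨⟨rf0h58.2.2.2.2.2.2.2.2.2.2.2.2.2.1.1, rf0h37.2.2.2.2.2.2.2.2.2.2.2.2.2.2.2.2.2.2.1.1⟩, ⟨rf0h37.2.2.2.2.2.2.2.2.2.2.2.2.2.2.2.2.2.1.1, rf0h16.2.2.2.2.2.2.2.2.2.2.2.1.1⟩⟩⟩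
theorem rf0k335 : CfgOK (rf0c335.e, rf0c335.n) := red_ln rf0h54.2.1 rf0h54.2.1.1
theorem rf0k336 : CfgOK (rf0c336.e, rf0c336.n) := red_ln rf0h54.1 ⟨⟨⟨rf0h54.1.1, rf0h31.2.2.2.2.2.2.2.2.2.2.2.1.1⟩, ⟨rf0h58.2.2.2.2.2.2.2.2.2.2.2.2.1.1, rf0h37.2.2.2.2.2.2.2.2.2.2.2.2.2.2.2.2.1.1⟩⟩, ⟨⟨rf0h31.2.2.2.2.2.2.2.2.2.2.1.1, rf0h11.2.2.2.2.2.2.2.2.2.2.2.2.2.2.2.2.2.2.2.1.1⟩, ⟨rf0h37.2.2.2.2.2.2.2.2.2.2.2.2.2.2.2.1.1, rf0h16.2.2.2.2.2.2.2.2.2.2.1.1⟩⟩⟩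
theorem rf0k337 : CfgOK (rf0c337.e, rf0c337.n) := red_ln rf0h62.2.1 rf0h62.2.1.1
theorem rf0k338 : CfgOK (rf0c338.e, rf0c338.n) := red_ln rf0h62.1 ⟨rf0h62.1.1, rf0h58.2.2.2.2.2.2.2.2.2.2.2.1.1⟩
theorem rf0k339 : CfgOK (rf0c339.e, rf0c339.n) := red_ln rf0h61.2.2.2.2.2.2.2.2.2.2.2.2.2.2.2.2.2.2.2.2.2.2.2.2.2.2.2.2.2.1 ⟨rf0h61.2.2.2.2.2.2.2.2.2.2.2.2.2.2.2.2.2.2.2.2.2.2.2.2.2.2.2.2.2.1.1, rf0h58.2.2.2.2.2.2.2.2.2.2.1.1⟩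
theorem rf0k340 : CfgOK (rf0c340.e, rf0c340.n) := red_ln rf0h61.2.2.2.2.2.2.2.2.2.2.2.2.2.2.2.2.2.2.2.2.2.2.2.2.2.2.2.2.1 ⟨rf0h61.2.2.2.2.2.2.2.2.2.2.2.2.2.2.2.2.2.2.2.2.2.2.2.2.2.2.2.2.1.1, rf0h58.2.2.2.2.2.2.2.2.2.1.1⟩
theorem rf0k341 : CfgOK (rf0c341.e, rf0c341.n) := red_ln rf0h61.2.2.2.2.2.2.2.2.2.2.2.2.2.2.2.2.2.2.2.2.2.2.2.2.2.2.2.1 ⟨⟨rf0h61.2.2.2.2.2.2.2.2.2.2.2.2.2.2.2.2.2.2.2.2.2.2.2.2.2.2.2.1.1, rf0h33.2.2.2.2.2.2.2.2.2.2.2.2.2.2.2.2.2.2.2.2.2.2.2.2.2.2.2.2.1.1⟩, ⟨rf0h58.2.2.2.2.2.2.2.2.1.1, rf0h37.2.2.2.2.2.2.2.2.2.2.2.2.2.2.1.1⟩⟩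
theorem rf0k342 : CfgOK (rf0c342.e, rf0c342.n) := red_ln rf0h61.2.2.2.2.2.2.2.2.2.2.2.2.2.2.2.2.2.2.2.2.2.2.2.2.2.2.1 ⟨rf0h61.2.2.2.2.2.2.2.2.2.2.2.2.2.2.2.2.2.2.2.2.2.2.2.2.2.2.1.1, rf0h33.1.1⟩
theorem rf0k343 : CfgOK (rf0c343.e, rf0c343.n) := red_ln rf0h61.2.2.2.2.2.2.2.2.2.2.2.2.2.2.2.2.2.2.2.2.2.2.2.2.2.1 ⟨⟨rf0h61.2.2.2.2.2.2.2.2.2.2.2.2.2.2.2.2.2.2.2.2.2.2.2.2.2.1.1, rf0h32.2.2.2.2.2.2.2.2.2.2.2.2.2.2.2.2.2.2.2.2.2.2.2.2.2.2.2.2.2.1.1⟩, ⟨rf0h58.2.2.2.2.2.2.2.1.1, rf0h37.2.2.2.2.2.2.2.2.2.2.2.2.2.1.1⟩⟩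
theorem rf0k344 : CfgOK (rf0c344.e, rf0c344.n) := red_ln rf0h61.2.2.2.2.2.2.2.2.2.2.2.2.2.2.2.2.2.2.2.2.2.2.2.2.1 ⟨⟨rf0h61.2.2.2.2.2.2.2.2.2.2.2.2.2.2.2.2.2.2.2.2.2.2.2.2.1.1, rf0h32.2.2.2.2.2.2.2.2.2.2.2.2.2.2.2.2.2.2.2.2.2.2.2.2.2.2.2.2.1.1⟩, ⟨rf0h58.2.2.2.2.2.2.1.1, rf0h37.2.2.2.2.2.2.2.2.2.2.2.2.1.1⟩⟩
theorem rf0k345 : CfgOK (rf0c345.e, rf0c345.n) := red_ln rf0h61.2.2.2.2.2.2.2.2.2.2.2.2.2.2.2.2.2.2.2.2.2.2.2.1 ⟨⟨rf0h61.2.2.2.2.2.2.2.2.2.2.2.2.2.2.2.2.2.2.2.2.2.2.2.1.1, rf0h32.2.2.2.2.2.2.2.2.2.2.2.2.2.2.2.2.2.2.2.2.2.2.2.2.2.2.2.1.1⟩, ⟨rf0h58.2.2.2.2.2.1.1, rf0h37.2.2.2.2.2.2.2.2.2.2.2.1.1⟩⟩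
theorem rf0k346 : CfgOK (rf0c346.e, rf0c346.n) := red_ln rf0h61.2.2.2.2.2.2.2.2.2.2.2.2.2.2.2.2.2.2.2.2.2.2.1 ⟨⟨rf0h61.2.2.2.2.2.2.2.2.2.2.2.2.2.2.2.2.2.2.2.2.2.2.1.1, rf0h32.2.2.2.2.2.2.2.2.2.2.2.2.2.2.2.2.2.2.2.2.2.2.2.2.2.2.1.1⟩, ⟨rf0h58.2.2.2.2.1.1, rf0h37.2.2.2.2.2.2.2.2.2.2.1.1⟩⟩
theorem rf0k347 : CfgOK (rf0c347.e, rf0c347.n) := red_ln rf0h61.2.2.2.2.2.2.2.2.2.2.2.2.2.2.2.2.2.2.2.2.2.1 ⟨⟨rf0h61.2.2.2.2.2.2.2.2.2.2.2.2.2.2.2.2.2.2.2.2.2.1.1, rf0h32.2.2.2.2.2.2.2.2.2.2.2.2.2.2.2.2.2.2.2.2.2.2.2.2.2.1.1⟩, ⟨rf0h58.2.2.2.1.1, rf0h37.2.2.2.2.2.2.2.2.2.1.1⟩⟩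
theorem rf0k348 : CfgOK (rf0c348.e, rf0c348.n) := red_ln rf0h61.2.2.2.2.2.2.2.2.2.2.2.2.2.2.2.2.2.2.2.2.1 ⟨⟨⟨rf0h61.2.2.2.2.2.2.2.2.2.2.2.2.2.2.2.2.2.2.2.2.1.1, rf0h32.2.2.2.2.2.2.2.2.2.2.2.2.2.2.2.2.2.2.2.2.2.2.2.2.1.1⟩, ⟨rf0h35.2.2.2.2.2.2.2.2.2.2.1.1, rf0h13.2.2.2.2.2.2.2.2.2.2.2.2.2.2.2.2.2.2.2.2.1.1⟩⟩, ⟨⟨rf0h58.2.2.1.1, rf0h37.2.2.2.2.2.2.2.2.1.1⟩, ⟨rf0h37.2.2.2.2.2.2.2.1.1, rf0h16.2.2.2.2.2.2.2.2.2.1.1⟩⟩⟩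
theorem rf0k349 : CfgOK (rf0c349.e, rf0c349.n) := red_ln rf0h61.2.2.2.2.2.2.2.2.2.2.2.2.2.2.2.2.2.2.2.1 ⟨⟨rf0h61.2.2.2.2.2.2.2.2.2.2.2.2.2.2.2.2.2.2.2.1.1, rf0h32.2.2.2.2.2.2.2.2.2.2.2.2.2.2.2.2.2.2.2.2.2.2.2.1.1⟩, ⟨rf0h31.2.2.2.2.2.2.2.2.2.1.1, rf0h11.2.2.2.2.1.1⟩⟩
theorem rf0k350 : CfgOK (rf0c350.e, rf0c350.n) := red_ln rf0h61.2.2.2.2.2.2.2.2.2.2.2.2.2.2.2.2.2.2.1 ⟨rf0h61.2.2.2.2.2.2.2.2.2.2.2.2.2.2.2.2.2.2.1.1, rf0h31.2.2.2.2.2.2.2.2.1.1⟩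
theorem rf0k351 : CfgOK (rf0c351.e, rf0c351.n) := red_ln rf0h61.2.2.2.2.2.2.2.2.2.2.2.2.2.2.2.2.2.1 ⟨⟨rf0h61.2.2.2.2.2.2.2.2.2.2.2.2.2.2.2.2.2.1.1, rf0h31.2.2.2.2.2.2.2.1.1⟩, ⟨rf0h58.2.1.1, rf0h37.2.2.2.2.2.2.1.1⟩⟩
theorem rf0k352 : CfgOK (rf0c352.e, rf0c352.n) := red_ln rf0h61.2.2.2.2.2.2.2.2.2.2.2.2.2.2.2.2.1 ⟨⟨rf0h61.2.2.2.2.2.2.2.2.2.2.2.2.2.2.2.2.1.1, rf0h31.2.2.2.2.2.2.1.1⟩, ⟨rf0h30.2.2.2.2.2.2.2.2.2.2.2.2.2.2.2.2.2.2.2.2.1.1, rf0h11.2.2.2.1.1⟩⟩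
theorem rf0k353 : CfgOK (rf0c353.e, rf0c353.n) := red_ln rf0h61.2.2.2.2.2.2.2.2.2.2.2.2.2.2.2.1 ⟨rf0h61.2.2.2.2.2.2.2.2.2.2.2.2.2.2.2.1.1, rf0h30.2.2.2.2.2.2.2.2.2.2.2.2.2.2.2.2.2.2.2.1.1⟩
theorem rf0k354 : CfgOK (rf0c354.e, rf0c354.n) := red_ln rf0h61.2.2.2.2.2.2.2.2.2.2.2.2.2.2.1 ⟨⟨⟨rf0h61.2.2.2.2.2.2.2.2.2.2.2.2.2.2.1.1, rf0h30.2.2.2.2.2.2.2.2.2.2.2.2.2.2.2.2.2.2.1.1⟩, ⟨rf0h33.2.2.2.2.2.2.2.2.2.2.2.2.2.2.2.2.2.2.2.2.2.2.2.2.2.2.2.1.1, rf0h11.2.2.2.2.2.2.2.2.2.2.2.2.2.2.2.2.2.2.1.1⟩⟩, ⟨⟨rf0h58.1.1, rf0h37.2.2.2.2.2.1.1⟩, ⟨rf0h37.2.2.2.2.1.1, rf0h16.2.2.2.2.2.2.2.2.1.1⟩⟩⟩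
theorem rf0k355 : CfgOK (rf0c355.e, rf0c355.n) := red_ln rf0h61.2.2.2.2.2.2.2.2.2.2.2.2.2.1 ⟨⟨rf0h61.2.2.2.2.2.2.2.2.2.2.2.2.2.1.1, rf0h30.2.2.2.2.2.2.2.2.2.2.2.2.2.2.2.2.2.1.1⟩, ⟨rf0h31.2.2.2.2.2.1.1, rf0h11.1.1⟩⟩
theorem rf0k356 : CfgOK (rf0c356.e, rf0c356.n) := red_ln rf0h61.2.2.2.2.2.2.2.2.2.2.2.2.1 rf0h61.2.2.2.2.2.2.2.2.2.2.2.2.1.1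
theorem rf0k357 : CfgOK (rf0c357.e, rf0c357.n) := red_ln rf0h61.2.2.2.2.2.2.2.2.2.2.2.1 ⟨rf0h61.2.2.2.2.2.2.2.2.2.2.2.1.1, rf0h57.2.2.2.2.2.2.2.2.2.2.2.2.2.2.2.2.2.2.2.2.2.2.2.2.2.2.2.2.2.2.2.2.2.2.2.2.2.2.2.1.1⟩
theorem rf0k358 : CfgOK (rf0c358.e, rf0c358.n) := red_ln rf0h61.2.2.2.2.2.2.2.2.2.2.1 ⟨⟨rf0h61.2.2.2.2.2.2.2.2.2.2.1.1, rf0h33.2.2.2.2.2.2.2.2.2.2.2.2.2.2.2.2.2.2.2.2.2.2.2.2.2.2.1.1⟩, ⟨rf0h57.2.2.2.2.2.2.2.2.2.2.2.2.2.2.2.2.2.2.2.2.2.2.2.2.2.2.2.2.2.2.2.2.2.2.2.2.2.2.1.1, rf0h37.2.2.2.1.1⟩⟩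
theorem rf0k359 : CfgOK (rf0c359.e, rf0c359.n) := red_ln rf0h61.2.2.2.2.2.2.2.2.2.1 ⟨⟨rf0h61.2.2.2.2.2.2.2.2.2.1.1, rf0h31.2.2.2.2.1.1⟩, ⟨rf0h57.2.2.2.2.2.2.2.2.2.2.2.2.2.2.2.2.2.2.2.2.2.2.2.2.2.2.2.2.2.2.2.2.2.2.2.2.2.1.1, rf0h37.2.2.1.1⟩⟩
theorem rf0k360 : CfgOK (rf0c360.e, rf0c360.n) := red_ln rf0h61.2.2.2.2.2.2.2.2.1 ⟨⟨⟨rf0h61.2.2.2.2.2.2.2.2.1.1, rf0h30.2.2.2.2.2.2.2.2.2.2.2.2.2.2.2.2.1.1⟩, ⟨rf0h33.2.2.2.2.2.2.2.2.2.2.2.2.2.2.2.2.2.2.2.2.2.2.2.2.2.1.1, rf0h13.2.2.2.2.2.2.2.2.2.2.1.1⟩⟩, ⟨⟨rf0h32.2.2.2.2.2.2.2.2.2.2.2.2.2.2.2.2.2.2.2.2.2.2.1.1, rf0h11.2.2.2.2.2.2.2.2.2.2.2.2.2.2.2.2.2.1.1⟩, ⟨rf0h13.2.2.2.2.2.2.2.2.2.2.2.2.2.2.2.2.2.2.2.1.1, rf0h15.2.2.2.2.2.2.2.2.2.2.1.1⟩⟩⟩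
theorem rf0k361 : CfgOK (rf0c361.e, rf0c361.n) := red_ln rf0h61.2.2.2.2.2.2.2.1 ⟨⟨⟨rf0h61.2.2.2.2.2.2.2.1.1, rf0h30.2.2.2.2.2.2.2.2.2.2.2.2.2.2.2.1.1⟩, ⟨rf0h32.2.2.2.2.2.2.2.2.2.2.2.2.2.2.2.2.2.2.2.2.2.1.1, rf0h11.2.2.2.2.2.2.2.2.2.2.2.2.2.2.2.2.1.1⟩⟩, ⟨⟨rf0h57.2.2.2.2.2.2.2.2.2.2.2.2.2.2.2.2.2.2.2.2.2.2.2.2.2.2.2.2.2.2.2.2.2.2.2.2.1.1, rf0h37.2.1.1⟩, ⟨rf0h37.1.1, rf0h16.2.2.2.2.2.2.2.1.1⟩⟩⟩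
theorem rf0k362 : CfgOK (rf0c362.e, rf0c362.n) := red_ln rf0h61.2.2.2.2.2.2.1 ⟨⟨⟨rf0h61.2.2.2.2.2.2.1.1, rf0h30.2.2.2.2.2.2.2.2.2.2.2.2.2.2.1.1⟩, ⟨rf0h32.2.2.2.2.2.2.2.2.2.2.2.2.2.2.2.2.2.2.2.2.1.1, rf0h11.2.2.2.2.2.2.2.2.2.2.2.2.2.2.2.1.1⟩⟩, ⟨⟨rf0h57.2.2.2.2.2.2.2.2.2.2.2.2.2.2.2.2.2.2.2.2.2.2.2.2.2.2.2.2.2.2.2.2.2.2.2.1.1, rf0h36.2.2.2.2.2.2.2.2.2.2.2.2.2.2.2.2.2.2.2.2.2.2.2.2.2.2.2.2.2.2.2.2.2.2.2.2.2.2.2.1.1⟩, ⟨rf0h36.2.2.2.2.2.2.2.2.2.2.2.2.2.2.2.2.2.2.2.2.2.2.2.2.2.2.2.2.2.2.2.2.2.2.2.2.2.2.1.1, rf0h16.2.2.2.2.2.2.1.1⟩⟩⟩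
theorem rf0k363 : CfgOK (rf0c363.e, rf0c363.n) := red_ln rf0h61.2.2.2.2.2.1 ⟨⟨⟨rf0h61.2.2.2.2.2.1.1, rf0h30.2.2.2.2.2.2.2.2.2.2.2.2.2.1.1⟩, ⟨rf0h32.2.2.2.2.2.2.2.2.2.2.2.2.2.2.2.2.2.2.2.1.1, rf0h11.2.2.2.2.2.2.2.2.2.2.2.2.2.2.1.1⟩⟩, ⟨⟨rf0h57.2.2.2.2.2.2.2.2.2.2.2.2.2.2.2.2.2.2.2.2.2.2.2.2.2.2.2.2.2.2.2.2.2.2.1.1, rf0h36.2.2.2.2.2.2.2.2.2.2.2.2.2.2.2.2.2.2.2.2.2.2.2.2.2.2.2.2.2.2.2.2.2.2.2.2.2.1.1⟩, ⟨rf0h36.2.2.2.2.2.2.2.2.2.2.2.2.2.2.2.2.2.2.2.2.2.2.2.2.2.2.2.2.2.2.2.2.2.2.2.2.1.1, rf0h16.2.2.2.2.2.1.1⟩⟩⟩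
theorem rf0k364 : CfgOK (rf0c364.e, rf0c364.n) := red_ln rf0h61.2.2.2.2.1 ⟨⟨⟨rf0h61.2.2.2.2.1.1, rf0h30.2.2.2.2.2.1.1⟩, ⟨rf0h35.2.2.2.2.2.2.2.2.2.1.1, rf0h13.2.2.2.2.2.2.2.2.2.2.2.2.2.2.2.2.2.2.1.1⟩⟩, ⟨⟨rf0h57.2.2.2.2.2.2.2.2.2.2.2.2.2.2.2.2.2.2.2.2.2.2.2.2.2.2.2.2.2.2.2.2.2.1.1, rf0h36.2.2.2.2.2.2.2.2.2.2.2.2.2.2.2.2.2.2.2.2.2.2.2.2.2.2.2.2.2.2.2.2.2.2.2.1.1⟩, ⟨rf0h36.2.2.2.2.2.2.2.2.2.2.2.2.2.2.2.2.2.2.2.2.2.2.2.2.2.2.2.2.2.2.2.2.2.2.1.1, rf0h16.2.2.2.2.1.1⟩⟩⟩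
theorem rf0k365 : CfgOK (rf0c365.e, rf0c365.n) := red_ln rf0h61.2.2.2.1 rf0h61.2.2.2.1.1
theorem rf0k366 : CfgOK (rf0c366.e, rf0c366.n) := red_ln rf0h61.2.2.1 ⟨rf0h61.2.2.1.1, rf0h57.2.2.2.2.2.2.2.2.2.2.2.2.2.2.2.2.2.2.2.2.2.2.2.2.2.2.2.2.2.2.2.2.1.1⟩
theorem rf0k367 : CfgOK (rf0c367.e, rf0c367.n) := red_ln rf0h61.2.1 ⟨rf0h61.2.1.1, rf0h57.2.2.2.2.2.2.2.2.2.2.2.2.2.2.2.2.2.2.2.2.2.2.2.2.2.2.2.2.2.2.2.1.1⟩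
theorem rf0k368 : CfgOK (rf0c368.e, rf0c368.n) := red_ln rf0h61.1 ⟨⟨rf0h61.1.1, rf0h33.2.2.2.2.2.2.2.2.2.2.2.2.2.2.2.2.2.2.2.2.2.2.2.2.1.1⟩, ⟨rf0h57.2.2.2.2.2.2.2.2.2.2.2.2.2.2.2.2.2.2.2.2.2.2.2.2.2.2.2.2.2.2.1.1, rf0h36.2.2.2.2.2.2.2.2.2.2.2.2.2.2.2.2.2.2.2.2.2.2.2.2.2.2.2.2.2.2.2.2.2.1.1⟩⟩
theorem rf0k369 : CfgOK (rf0c369.e, rf0c369.n) := red_ln rf0h60.2.2.2.2.2.2.2.2.2.2.2.2.2.2.2.2.2.2.2.2.2.2.2.2.2.2.2.2.2.1 ⟨⟨rf0h60.2.2.2.2.2.2.2.2.2.2.2.2.2.2.2.2.2.2.2.2.2.2.2.2.2.2.2.2.2.1.1, rf0h32.2.2.2.2.2.2.2.2.2.2.2.2.2.2.2.2.2.2.1.1⟩, ⟨rf0h57.2.2.2.2.2.2.2.2.2.2.2.2.2.2.2.2.2.2.2.2.2.2.2.2.2.2.2.2.2.1.1, rf0h36.2.2.2.2.2.2.2.2.2.2.2.2.2.2.2.2.2.2.2.2.2.2.2.2.2.2.2.2.2.2.2.2.1.1⟩⟩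
theorem rf0k370 : CfgOK (rf0c370.e, rf0c370.n) := red_ln rf0h60.2.2.2.2.2.2.2.2.2.2.2.2.2.2.2.2.2.2.2.2.2.2.2.2.2.2.2.2.1 ⟨⟨rf0h60.2.2.2.2.2.2.2.2.2.2.2.2.2.2.2.2.2.2.2.2.2.2.2.2.2.2.2.2.1.1, rf0h32.2.2.2.2.2.2.2.2.2.2.2.2.2.2.2.2.2.1.1⟩, ⟨rf0h57.2.2.2.2.2.2.2.2.2.2.2.2.2.2.2.2.2.2.2.2.2.2.2.2.2.2.2.2.1.1, rf0h36.2.2.2.2.2.2.2.2.2.2.2.2.2.2.2.2.2.2.2.2.2.2.2.2.2.2.2.2.2.2.2.1.1⟩⟩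
theorem rf0k371 : CfgOK (rf0c371.e, rf0c371.n) := red_ln rf0h60.2.2.2.2.2.2.2.2.2.2.2.2.2.2.2.2.2.2.2.2.2.2.2.2.2.2.2.1 ⟨⟨rf0h60.2.2.2.2.2.2.2.2.2.2.2.2.2.2.2.2.2.2.2.2.2.2.2.2.2.2.2.1.1, rf0h32.2.2.2.2.2.2.2.2.2.2.2.2.2.2.2.2.1.1⟩, ⟨rf0h57.2.2.2.2.2.2.2.2.2.2.2.2.2.2.2.2.2.2.2.2.2.2.2.2.2.2.2.1.1, rf0h36.2.2.2.2.2.2.2.2.2.2.2.2.2.2.2.2.2.2.2.2.2.2.2.2.2.2.2.2.2.2.1.1⟩⟩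
theorem rf0k372 : CfgOK (rf0c372.e, rf0c372.n) := red_ln rf0h60.2.2.2.2.2.2.2.2.2.2.2.2.2.2.2.2.2.2.2.2.2.2.2.2.2.2.1 ⟨⟨rf0h60.2.2.2.2.2.2.2.2.2.2.2.2.2.2.2.2.2.2.2.2.2.2.2.2.2.2.1.1, rf0h32.2.2.2.2.2.2.2.2.2.2.2.2.2.2.2.1.1⟩, ⟨rf0h57.2.2.2.2.2.2.2.2.2.2.2.2.2.2.2.2.2.2.2.2.2.2.2.2.2.2.1.1, rf0h36.2.2.2.2.2.2.2.2.2.2.2.2.2.2.2.2.2.2.2.2.2.2.2.2.2.2.2.2.2.1.1⟩⟩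
theorem rf0k373 : CfgOK (rf0c373.e, rf0c373.n) := red_ln rf0h60.2.2.2.2.2.2.2.2.2.2.2.2.2.2.2.2.2.2.2.2.2.2.2.2.2.1 ⟨⟨rf0h60.2.2.2.2.2.2.2.2.2.2.2.2.2.2.2.2.2.2.2.2.2.2.2.2.2.1.1, rf0h32.2.2.2.2.2.2.2.2.2.2.2.2.2.2.1.1⟩, ⟨rf0h57.2.2.2.2.2.2.2.2.2.2.2.2.2.2.2.2.2.2.2.2.2.2.2.2.2.1.1, rf0h36.2.2.2.2.2.2.2.2.2.2.2.2.2.2.2.2.2.2.2.2.2.2.2.2.2.2.2.2.1.1⟩⟩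
theorem rf0k374 : CfgOK (rf0c374.e, rf0c374.n) := red_ln rf0h60.2.2.2.2.2.2.2.2.2.2.2.2.2.2.2.2.2.2.2.2.2.2.2.2.1 ⟨⟨rf0h60.2.2.2.2.2.2.2.2.2.2.2.2.2.2.2.2.2.2.2.2.2.2.2.2.1.1, rf0h32.2.2.2.2.2.2.2.2.2.2.2.2.2.1.1⟩, ⟨rf0h57.2.2.2.2.2.2.2.2.2.2.2.2.2.2.2.2.2.2.2.2.2.2.2.2.1.1, rf0h36.2.2.2.2.2.2.2.2.2.2.2.2.2.2.2.2.2.2.2.2.2.2.2.2.2.2.2.1.1⟩⟩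
theorem rf0k375 : CfgOK (rf0c375.e, rf0c375.n) := red_ln rf0h60.2.2.2.2.2.2.2.2.2.2.2.2.2.2.2.2.2.2.2.2.2.2.2.1 ⟨⟨rf0h60.2.2.2.2.2.2.2.2.2.2.2.2.2.2.2.2.2.2.2.2.2.2.2.1.1, rf0h32.2.2.2.2.2.2.2.2.2.2.2.2.1.1⟩, ⟨rf0h57.2.2.2.2.2.2.2.2.2.2.2.2.2.2.2.2.2.2.2.2.2.2.2.1.1, rf0h36.2.2.2.2.2.2.2.2.2.2.2.2.2.2.2.2.2.2.2.2.2.2.2.2.2.2.1.1⟩⟩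
theorem rf0k376 : CfgOK (rf0c376.e, rf0c376.n) := red_ln rf0h60.2.2.2.2.2.2.2.2.2.2.2.2.2.2.2.2.2.2.2.2.2.2.1 ⟨⟨rf0h60.2.2.2.2.2.2.2.2.2.2.2.2.2.2.2.2.2.2.2.2.2.2.1.1, rf0h32.2.2.2.2.2.2.2.2.2.2.2.1.1⟩, ⟨rf0h57.2.2.2.2.2.2.2.2.2.2.2.2.2.2.2.2.2.2.2.2.2.2.1.1, rf0h36.2.2.2.2.2.2.2.2.2.2.2.2.2.2.2.2.2.2.2.2.2.2.2.2.2.1.1⟩⟩
theorem rf0k377 : CfgOK (rf0c377.e, rf0c377.n) := red_ln rf0h60.2.2.2.2.2.2.2.2.2.2.2.2.2.2.2.2.2.2.2.2.2.1 ⟨⟨rf0h60.2.2.2.2.2.2.2.2.2.2.2.2.2.2.2.2.2.2.2.2.2.1.1, rf0h32.2.2.2.2.2.2.2.2.2.2.1.1⟩, ⟨rf0h57.2.2.2.2.2.2.2.2.2.2.2.2.2.2.2.2.2.2.2.2.2.1.1, rf0h36.2.2.2.2.2.2.2.2.2.2.2.2.2.2.2.2.2.2.2.2.2.2.2.2.1.1⟩⟩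
theorem rf0k378 : CfgOK (rf0c378.e, rf0c378.n) := red_ln rf0h60.2.2.2.2.2.2.2.2.2.2.2.2.2.2.2.2.2.2.2.2.1 ⟨⟨rf0h60.2.2.2.2.2.2.2.2.2.2.2.2.2.2.2.2.2.2.2.2.1.1, rf0h32.2.2.2.2.2.2.2.2.2.1.1⟩, ⟨rf0h57.2.2.2.2.2.2.2.2.2.2.2.2.2.2.2.2.2.2.2.2.1.1, rf0h36.2.2.2.2.2.2.2.2.2.2.2.2.2.2.2.2.2.2.2.2.2.2.2.1.1⟩⟩
theorem rf0k379 : CfgOK (rf0c379.e, rf0c379.n) := red_ln rf0h60.2.2.2.2.2.2.2.2.2.2.2.2.2.2.2.2.2.2.2.1 ⟨⟨rf0h60.2.2.2.2.2.2.2.2.2.2.2.2.2.2.2.2.2.2.2.1.1, rf0h32.2.2.2.2.2.2.2.2.1.1⟩, ⟨rf0h57.2.2.2.2.2.2.2.2.2.2.2.2.2.2.2.2.2.2.2.1.1, rf0h36.2.2.2.2.2.2.2.2.2.2.2.2.2.2.2.2.2.2.2.2.2.2.1.1⟩⟩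
theorem rf0k380 : CfgOK (rf0c380.e, rf0c380.n) := red_ln rf0h60.2.2.2.2.2.2.2.2.2.2.2.2.2.2.2.2.2.2.1 ⟨⟨⟨rf0h60.2.2.2.2.2.2.2.2.2.2.2.2.2.2.2.2.2.2.1.1, rf0h32.2.2.2.2.2.2.2.1.1⟩, ⟨rf0h32.2.2.2.2.2.2.1.1, rf0h13.2.2.2.2.2.2.2.2.2.2.2.2.2.2.2.2.2.1.1⟩⟩, ⟨⟨rf0h57.2.2.2.2.2.2.2.2.2.2.2.2.2.2.2.2.2.2.1.1, rf0h36.2.2.2.2.2.2.2.2.2.2.2.2.2.2.2.2.2.2.2.2.2.1.1⟩, ⟨rf0h36.2.2.2.2.2.2.2.2.2.2.2.2.2.2.2.2.2.2.2.2.1.1, rf0h16.2.2.2.1.1⟩⟩⟩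
theorem rf0k381 : CfgOK (rf0c381.e, rf0c381.n) := red_ln rf0h60.2.2.2.2.2.2.2.2.2.2.2.2.2.2.2.2.2.1 ⟨⟨rf0h60.2.2.2.2.2.2.2.2.2.2.2.2.2.2.2.2.2.1.1, rf0h31.2.2.2.1.1⟩, ⟨rf0h57.2.2.2.2.2.2.2.2.2.2.2.2.2.2.2.2.2.1.1, rf0h36.2.2.2.2.2.2.2.2.2.2.2.2.2.2.2.2.2.2.2.1.1⟩⟩
theorem rf0k382 : CfgOK (rf0c382.e, rf0c382.n) := red_ln rf0h60.2.2.2.2.2.2.2.2.2.2.2.2.2.2.2.2.1 ⟨⟨rf0h60.2.2.2.2.2.2.2.2.2.2.2.2.2.2.2.2.1.1, rf0h31.2.2.1.1⟩, ⟨rf0h57.2.2.2.2.2.2.2.2.2.2.2.2.2.2.2.2.1.1, rf0h36.2.2.2.2.2.2.2.2.2.2.2.2.2.2.2.2.2.2.1.1⟩⟩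
theorem rf0k383 : CfgOK (rf0c383.e, rf0c383.n) := red_ln rf0h60.2.2.2.2.2.2.2.2.2.2.2.2.2.2.2.1 ⟨⟨⟨rf0h60.2.2.2.2.2.2.2.2.2.2.2.2.2.2.2.1.1, rf0h30.2.2.2.2.2.2.2.2.2.2.2.2.1.1⟩, ⟨rf0h32.2.2.2.2.2.1.1, rf0h11.2.2.2.2.2.2.2.2.2.2.2.2.2.1.1⟩⟩, ⟨⟨rf0h57.2.2.2.2.2.2.2.2.2.2.2.2.2.2.2.1.1, rf0h36.2.2.2.2.2.2.2.2.2.2.2.2.2.2.2.2.2.1.1⟩, ⟨rf0h36.2.2.2.2.2.2.2.2.2.2.2.2.2.2.2.2.1.1, rf0h16.2.2.1.1⟩⟩⟩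
theorem rf0k384 : CfgOK (rf0c384.e, rf0c384.n) := red_ln rf0h60.2.2.2.2.2.2.2.2.2.2.2.2.2.2.1 ⟨⟨rf0h60.2.2.2.2.2.2.2.2.2.2.2.2.2.2.1.1, rf0h30.2.2.2.2.2.2.2.2.2.2.1.1⟩, ⟨rf0h57.2.2.2.2.2.2.2.2.2.2.2.2.2.2.1.1, rf0h36.2.2.2.2.2.2.2.2.2.2.2.2.2.2.2.1.1⟩⟩
theorem rf0k385 : CfgOK (rf0c385.e, rf0c385.n) := red_ln rf0h60.2.2.2.2.2.2.2.2.2.2.2.2.2.1 ⟨⟨rf0h60.2.2.2.2.2.2.2.2.2.2.2.2.2.1.1, rf0h30.2.2.2.2.1.1⟩, ⟨rf0h57.2.2.2.2.2.2.2.2.2.2.2.2.2.1.1, rf0h36.2.2.2.2.2.2.2.2.2.2.2.2.2.2.1.1⟩⟩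
theorem rf0k386 : CfgOK (rf0c386.e, rf0c386.n) := red_ln rf0h60.2.2.2.2.2.2.2.2.2.2.2.2.1 ⟨⟨⟨rf0h60.2.2.2.2.2.2.2.2.2.2.2.2.1.1, rf0h30.2.2.2.1.1⟩, ⟨rf0h57.2.2.2.2.2.2.2.2.2.2.2.2.1.1, rf0h36.2.2.2.2.2.2.2.2.2.2.2.2.2.1.1⟩⟩, ⟨⟨rf0h35.2.2.2.2.2.2.2.2.1.1, rf0h13.2.2.2.2.2.2.2.2.2.2.2.2.2.2.2.2.1.1⟩, ⟨rf0h36.2.2.2.2.2.2.2.2.2.2.2.2.1.1, rf0h16.2.1.1⟩⟩⟩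
theorem rf0k387 : CfgOK (rf0c387.e, rf0c387.n) := red_ln rf0h60.2.2.2.2.2.2.2.2.2.2.2.1 ⟨⟨rf0h60.2.2.2.2.2.2.2.2.2.2.2.1.1, rf0h30.2.2.1.1⟩, ⟨rf0h57.2.2.2.2.2.2.2.2.2.2.2.1.1, rf0h36.2.2.2.2.2.2.2.2.2.2.2.1.1⟩⟩
theorem rf0k388 : CfgOK (rf0c388.e, rf0c388.n) := red_ln rf0h60.2.2.2.2.2.2.2.2.2.2.1 ⟨⟨rf0h60.2.2.2.2.2.2.2.2.2.2.1.1, rf0h30.2.1.1⟩, ⟨rf0h57.2.2.2.2.2.2.2.2.2.2.1.1, rf0h36.2.2.2.2.2.2.2.2.2.2.1.1⟩⟩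
theorem rf0k389 : CfgOK (rf0c389.e, rf0c389.n) := red_ln rf0h60.2.2.2.2.2.2.2.2.2.1 ⟨⟨rf0h60.2.2.2.2.2.2.2.2.2.1.1, rf0h30.1.1⟩, ⟨rf0h57.2.2.2.2.2.2.2.2.2.1.1, rf0h36.2.2.2.2.2.2.2.2.2.1.1⟩⟩
theorem rf0k390 : CfgOK (rf0c390.e, rf0c390.n) := red_ln rf0h60.2.2.2.2.2.2.2.2.1 ⟨rf0h60.2.2.2.2.2.2.2.2.1.1, rf0h57.2.2.2.2.2.2.2.2.1.1⟩
theorem rf0k391 : CfgOK (rf0c391.e, rf0c391.n) := red_ln rf0h60.2.2.2.2.2.2.2.1 ⟨⟨rf0h60.2.2.2.2.2.2.2.1.1, rf0h32.2.2.2.2.1.1⟩, ⟨rf0h57.2.2.2.2.2.2.2.1.1, rf0h36.2.2.2.2.2.2.2.2.1.1⟩⟩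
theorem rf0k392 : CfgOK (rf0c392.e, rf0c392.n) := red_ln rf0h60.2.2.2.2.2.2.1 ⟨⟨rf0h60.2.2.2.2.2.2.1.1, rf0h32.2.2.2.1.1⟩, ⟨rf0h57.2.2.2.2.2.2.1.1, rf0h36.2.2.2.2.2.2.2.1.1⟩⟩
theorem rf0k393 : CfgOK (rf0c393.e, rf0c393.n) := red_ln rf0h60.2.2.2.2.2.1 ⟨⟨rf0h60.2.2.2.2.2.1.1, rf0h32.2.2.1.1⟩, ⟨rf0h57.2.2.2.2.2.1.1, rf0h36.2.2.2.2.2.2.1.1⟩⟩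
theorem rf0k394 : CfgOK (rf0c394.e, rf0c394.n) := red_ln rf0h60.2.2.2.2.1 ⟨⟨rf0h60.2.2.2.2.1.1, rf0h31.2.1.1⟩, ⟨rf0h57.2.2.2.2.1.1, rf0h36.2.2.2.2.2.1.1⟩⟩
theorem rf0k395 : CfgOK (rf0c395.e, rf0c395.n) := red_ln rf0h60.2.2.2.1 ⟨⟨rf0h60.2.2.2.1.1, rf0h31.1.1⟩, ⟨rf0h57.2.2.2.1.1, rf0h36.2.2.2.2.1.1⟩⟩
theorem rf0k396 : CfgOK (rf0c396.e, rf0c396.n) := red_ln rf0h60.2.2.1 ⟨⟨rf0h60.2.2.1.1, rf0h30.2.2.2.2.2.2.2.2.2.2.2.2.2.2.2.2.2.2.2.2.2.2.2.2.2.2.2.2.2.1.1⟩, ⟨rf0h57.2.2.1.1, rf0h36.2.2.2.1.1⟩⟩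
theorem rf0k397 : CfgOK (rf0c397.e, rf0c397.n) := red_ln rf0h60.2.1 ⟨⟨rf0h60.2.1.1, rf0h30.2.2.2.2.2.2.2.2.2.2.2.2.2.2.2.2.2.2.2.2.2.2.2.2.2.2.2.2.1.1⟩, ⟨rf0h57.2.1.1, rf0h36.2.2.1.1⟩⟩
theorem rf0k398 : CfgOK (rf0c398.e, rf0c398.n) := red_ln rf0h60.1 ⟨⟨⟨rf0h60.1.1, rf0h30.2.2.2.2.2.2.2.2.2.2.2.2.2.2.2.2.2.2.2.2.2.2.2.2.2.2.2.1.1⟩, ⟨rf0h30.2.2.2.2.2.2.2.2.2.2.2.1.1, rf0h11.2.2.2.2.2.2.2.2.2.2.2.2.1.1⟩⟩, ⟨⟨rf0h57.1.1, rf0h36.2.1.1⟩, ⟨rf0h36.1.1, rf0h16.1.1⟩⟩⟩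

end Pool.Agent.Lib.G6.B
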