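import Pool.Agent.Lib.G6.BRed
import Pool.Agent.Lib.G6D.RF12

set_option autoImplicit false
set_option maxRecDepth 100000
set_option linter.all false

namespace Pool.Agent.Lib.G6.B

theorem rf12h0 : AllL LnOK rf12l0 := batch_of rf12th.1
theorem rf12h1 : AllL LnOK rf12l1 := batch_of rf12th.2.1
theorem rf12h2 : AllL LnOK rf12l10 := batch_of rf12th.2.2.2.2.2.2.2.2.2.2.1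
theorem rf12h3 : AllL LnOK rf12l11 := batch_of rf12th.2.2.2.2.2.2.2.2.2.2.2.1
theorem rf12h4 : AllL LnOK rf12l12 := batch_of rf12th.2.2.2.2.2.2.2.2.2.2.2.2.1
theorem rf12h5 : AllL LnOK rf12l13 := batch_of rf12th.2.2.2.2.2.2.2.2.2.2.2.2.2.1
theorem rf12h6 : AllL LnOK rf12l14 := batch_of rf12th.2.2.2.2.2.2.2.2.2.2.2.2.2.2.1
theorem rf12h7 : AllL LnOK rf12l15 := batch_of rf12th.2.2.2.2.2.2.2.2.2.2.2.2.2.2.2.1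
theorem rf12h8 : AllL LnOK rf12l16 := batch_of rf12th.2.2.2.2.2.2.2.2.2.2.2.2.2.2.2.2.1
theorem rf12h9 : AllL LnOK rf12l17 := batch_of rf12th.2.2.2.2.2.2.2.2.2.2.2.2.2.2.2.2.2.1
theorem rf12h10 : AllL LnOK rf12l18 := batch_of rf12th.2.2.2.2.2.2.2.2.2.2.2.2.2.2.2.2.2.2.1
theorem rf12h11 : AllL LnOK rf12l19 := batch_of rf12th.2.2.2.2.2.2.2.2.2.2.2.2.2.2.2.2.2.2.2.1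
theorem rf12h12 : AllL LnOK rf12l2 := batch_of rf12th.2.2.1
theorem rf12h13 : AllL LnOK rf12l20 := batch_of rf12th.2.2.2.2.2.2.2.2.2.2.2.2.2.2.2.2.2.2.2.2.1
theorem rf12h14 : AllL LnOK rf12l21 := batch_of rf12th.2.2.2.2.2.2.2.2.2.2.2.2.2.2.2.2.2.2.2.2.2.1
theorem rf12h15 : AllL LnOK rf12l22 := batch_of rf12th.2.2.2.2.2.2.2.2.2.2.2.2.2.2.2.2.2.2.2.2.2.2.1
theorem rf12h16 : AllL LnOK rf12l23 := batch_of rf12th.2.2.2.2.2.2.2.2.2.2.2.2.2.2.2.2.2.2.2.2.2.2.2.1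
theorem rf12h17 : AllL LnOK rf12l24 := batch_of rf12th.2.2.2.2.2.2.2.2.2.2.2.2.2.2.2.2.2.2.2.2.2.2.2.2.1
theorem rf12h18 : AllL LnOK rf12l25 := batch_of rf12th.2.2.2.2.2.2.2.2.2.2.2.2.2.2.2.2.2.2.2.2.2.2.2.2.2.1
theorem rf12h19 : AllL LnOK rf12l26 := batch_of rf12th.2.2.2.2.2.2.2.2.2.2.2.2.2.2.2.2.2.2.2.2.2.2.2.2.2.2.1
theorem rf12h20 : AllL LnOK rf12l27 := batch_of rf12th.2.2.2.2.2.2.2.2.2.2.2.2.2.2.2.2.2.2.2.2.2.2.2.2.2.2.2.1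
theorem rf12h21 : AllL LnOK rf12l28 := batch_of rf12th.2.2.2.2.2.2.2.2.2.2.2.2.2.2.2.2.2.2.2.2.2.2.2.2.2.2.2.2.1
theorem rf12h22 : AllL LnOK rf12l29 := batch_of rf12th.2.2.2.2.2.2.2.2.2.2.2.2.2.2.2.2.2.2.2.2.2.2.2.2.2.2.2.2.2.1
theorem rf12h23 : AllL LnOK rf12l3 := batch_of rf12th.2.2.2.1
theorem rf12h24 : AllL LnOK rf12l30 := batch_of rf12th.2.2.2.2.2.2.2.2.2.2.2.2.2.2.2.2.2.2.2.2.2.2.2.2.2.2.2.2.2.2.1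
theorem rf12h25 : AllL LnOK rf12l31 := batch_of rf12th.2.2.2.2.2.2.2.2.2.2.2.2.2.2.2.2.2.2.2.2.2.2.2.2.2.2.2.2.2.2.2.1
theorem rf12h26 : AllL LnOK rf12l32 := batch_of rf12th.2.2.2.2.2.2.2.2.2.2.2.2.2.2.2.2.2.2.2.2.2.2.2.2.2.2.2.2.2.2.2.2.1
theorem rf12h27 : AllL LnOK rf12l33 := batch_of rf12th.2.2.2.2.2.2.2.2.2.2.2.2.2.2.2.2.2.2.2.2.2.2.2.2.2.2.2.2.2.2.2.2.2.1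
theorem rf12h28 : AllL LnOK rf12l34 := batch_of rf12th.2.2.2.2.2.2.2.2.2.2.2.2.2.2.2.2.2.2.2.2.2.2.2.2.2.2.2.2.2.2.2.2.2.2.1
theorem rf12h29 : AllL LnOK rf12l35 := batch_of rf12th.2.2.2.2.2.2.2.2.2.2.2.2.2.2.2.2.2.2.2.2.2.2.2.2.2.2.2.2.2.2.2.2.2.2.2.1
theorem rf12h30 : AllL LnOK rf12l36 := batch_of rf12th.2.2.2.2.2.2.2.2.2.2.2.2.2.2.2.2.2.2.2.2.2.2.2.2.2.2.2.2.2.2.2.2.2.2.2.2.1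
theorem rf12h31 : AllL LnOK rf12l37 := batch_of rf12th.2.2.2.2.2.2.2.2.2.2.2.2.2.2.2.2.2.2.2.2.2.2.2.2.2.2.2.2.2.2.2.2.2.2.2.2.2.1
theorem rf12h32 : AllL LnOK rf12l38 := batch_of rf12th.2.2.2.2.2.2.2.2.2.2.2.2.2.2.2.2.2.2.2.2.2.2.2.2.2.2.2.2.2.2.2.2.2.2.2.2.2.2.1
theorem rf12h33 : AllL LnOK rf12l39 := batch_of rf12th.2.2.2.2.2.2.2.2.2.2.2.2.2.2.2.2.2.2.2.2.2.2.2.2.2.2.2.2.2.2.2.2.2.2.2.2.2.2.2.1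
theorem rf12h34 : AllL LnOK rf12l4 := batch_of rf12th.2.2.2.2.1
theorem rf12h35 : AllL LnOK rf12l40 := batch_of rf12th.2.2.2.2.2.2.2.2.2.2.2.2.2.2.2.2.2.2.2.2.2.2.2.2.2.2.2.2.2.2.2.2.2.2.2.2.2.2.2.2.1
theorem rf12h36 : AllL LnOK rf12l41 := batch_of rf12th.2.2.2.2.2.2.2.2.2.2.2.2.2.2.2.2.2.2.2.2.2.2.2.2.2.2.2.2.2.2.2.2.2.2.2.2.2.2.2.2.2.1
theorem rf12h37 : AllL LnOK rf12l42 := batch_of rf12th.2.2.2.2.2.2.2.2.2.2.2.2.2.2.2.2.2.2.2.2.2.2.2.2.2.2.2.2.2.2.2.2.2.2.2.2.2.2.2.2.2.2.1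
theorem rf12h38 : AllL LnOK rf12l43 := batch_of rf12th.2.2.2.2.2.2.2.2.2.2.2.2.2.2.2.2.2.2.2.2.2.2.2.2.2.2.2.2.2.2.2.2.2.2.2.2.2.2.2.2.2.2.2
theorem rf12h39 : AllL LnOK rf12l5 := batch_of rf12th.2.2.2.2.2.1
theorem rf12h40 : AllL LnOK rf12l6 := batch_of rf12th.2.2.2.2.2.2.1
theorem rf12h41 : AllL LnOK rf12l7 := batch_of rf12th.2.2.2.2.2.2.2.1
theorem rf12h42 : AllL LnOK rf12l8 := batch_of rf12th.2.2.2.2.2.2.2.2.1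
theorem rf12h43 : AllL LnOK rf12l9 := batch_of rf12th.2.2.2.2.2.2.2.2.2.1
theorem rf12k0 : CfgOK (rf12c0.e, rf12c0.n) := red_ln rf12h2.2.2.2.2.1 rf12h2.2.2.2.2.1.1
theorem rf12k1 : CfgOK (rf12c1.e, rf12c1.n) := red_ln rf12h2.2.2.2.1 ⟨rf12h2.2.2.2.1.1, rf12h4.2.2.2.2.2.2.2.2.2.2.2.2.2.2.2.2.2.2.2.2.2.2.2.2.2.2.2.2.2.1.1⟩
theorem rf12k2 : CfgOK (rf12c2.e, rf12c2.n) := red_ln rf12h2.2.2.1 ⟨rf12h2.2.2.1.1, rf12h4.2.2.2.2.2.2.2.2.2.2.2.2.2.2.2.2.2.2.2.2.2.2.2.2.2.2.2.2.1.1⟩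
theorem rf12k3 : CfgOK (rf12c3.e, rf12c3.n) := red_ln rf12h2.2.1 ⟨rf12h2.2.1.1, rf12h4.2.2.2.2.2.2.2.2.2.2.2.2.2.2.2.2.2.2.2.2.2.2.2.2.2.2.2.1.1⟩
theorem rf12k4 : CfgOK (rf12c4.e, rf12c4.n) := red_ln rf12h2.1 ⟨rf12h2.1.1, rf12h4.2.2.2.2.2.2.2.2.2.2.2.2.2.2.2.2.2.2.2.2.2.2.2.2.2.2.1.1⟩
theorem rf12k5 : CfgOK (rf12c5.e, rf12c5.n) := red_ln rf12h43.2.2.2.2.2.1 ⟨⟨rf12h43.2.2.2.2.2.1.1, rf12h4.2.2.2.2.2.2.2.2.2.2.2.2.2.2.2.2.2.2.2.2.2.2.2.2.2.1.1⟩, ⟨rf12h5.2.2.2.2.2.2.2.2.2.2.2.2.2.1.1, rf12h6.2.2.2.2.2.2.2.2.1.1⟩⟩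
theorem rf12k6 : CfgOK (rf12c6.e, rf12c6.n) := red_ln rf12h43.2.2.2.2.1 ⟨rf12h43.2.2.2.2.1.1, rf12h5.2.2.2.2.2.2.2.2.2.2.2.2.2.2.2.2.2.1.1⟩
theorem rf12k7 : CfgOK (rf12c7.e, rf12c7.n) := red_ln rf12h43.2.2.2.1 ⟨rf12h43.2.2.2.1.1, rf12h7.2.2.2.2.1.1⟩
theorem rf12k8 : CfgOK (rf12c8.e, rf12c8.n) := red_ln rf12h43.2.2.1 ⟨rf12h43.2.2.1.1, rf12h4.2.2.2.2.2.2.2.2.2.2.2.2.2.2.2.2.2.2.2.2.2.2.2.2.1.1⟩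
theorem rf12k9 : CfgOK (rf12c9.e, rf12c9.n) := red_ln rf12h43.2.1 ⟨rf12h43.2.1.1, rf12h4.2.2.2.2.2.2.2.2.2.2.2.2.2.2.2.2.2.2.2.2.2.2.2.1.1⟩
theorem rf12k10 : CfgOK (rf12c10.e, rf12c10.n) := red_ln rf12h43.1 ⟨rf12h43.1.1, rf12h4.2.2.2.2.2.2.2.2.2.2.2.2.2.2.2.2.2.2.2.2.2.2.1.1⟩
theorem rf12k11 : CfgOK (rf12c11.e, rf12c11.n) := red_ln rf12h42.2.2.2.2.2.1 ⟨rf12h42.2.2.2.2.2.1.1, rf12h7.2.2.2.1.1⟩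
theorem rf12k12 : CfgOK (rf12c12.e, rf12c12.n) := red_ln rf12h42.2.2.2.2.1 ⟨⟨rf12h42.2.2.2.2.1.1, rf12h5.2.2.2.1.1⟩, ⟨rf12h5.2.2.2.2.2.2.2.2.2.1.1, rf12h8.2.2.1.1⟩⟩
theorem rf12k13 : CfgOK (rf12c13.e, rf12c13.n) := red_ln rf12h42.2.2.2.1 ⟨⟨rf12h42.2.2.2.1.1, rf12h7.1.1⟩, ⟨rf12h5.2.2.2.2.2.2.2.2.1.1, rf12h8.2.1.1⟩⟩
theorem rf12k14 : CfgOK (rf12c14.e, rf12c14.n) := red_ln rf12h42.2.2.1 rf12h42.2.2.1.1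
theorem rf12k15 : CfgOK (rf12c15.e, rf12c15.n) := red_ln rf12h42.2.1 rf12h42.2.1.1
theorem rf12k16 : CfgOK (rf12c16.e, rf12c16.n) := red_ln rf12h42.1 ⟨rf12h42.1.1, rf12h4.2.2.2.2.2.2.2.2.2.2.2.2.2.2.2.2.2.2.2.2.2.1.1⟩
theorem rf12k17 : CfgOK (rf12c17.e, rf12c17.n) := red_ln rf12h41.2.2.2.2.2.1 ⟨rf12h41.2.2.2.2.2.1.1, rf12h4.2.2.2.2.2.2.2.2.2.2.2.2.2.2.2.2.2.2.2.2.1.1⟩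
theorem rf12k18 : CfgOK (rf12c18.e, rf12c18.n) := red_ln rf12h41.2.2.2.2.1 ⟨⟨rf12h41.2.2.2.2.1.1, rf12h5.2.2.2.2.2.2.2.2.2.2.2.2.2.2.2.2.1.1⟩, ⟨rf12h4.2.2.2.2.2.2.2.2.2.2.2.2.2.2.2.2.2.2.2.1.1, rf12h6.2.2.2.2.2.2.2.1.1⟩⟩
theorem rf12k19 : CfgOK (rf12c19.e, rf12c19.n) := red_ln rf12h41.2.2.2.1 rf12h41.2.2.2.1.1
theorem rf12k20 : CfgOK (rf12c20.e, rf12c20.n) := red_ln rf12h41.2.2.1 rf12h41.2.2.1.1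
theorem rf12k21 : CfgOK (rf12c21.e, rf12c21.n) := red_ln rf12h41.2.1 rf12h41.2.1.1
theorem rf12k22 : CfgOK (rf12c22.e, rf12c22.n) := red_ln rf12h41.1 ⟨rf12h41.1.1, rf12h4.2.2.2.2.2.2.2.2.2.2.2.2.2.2.2.2.2.2.1.1⟩
theorem rf12k23 : CfgOK (rf12c23.e, rf12c23.n) := red_ln rf12h40.2.2.2.2.2.1 ⟨rf12h40.2.2.2.2.2.1.1, rf12h4.2.2.2.2.2.2.2.2.2.2.2.2.2.2.2.2.2.1.1⟩
theorem rf12k24 : CfgOK (rf12c24.e, rf12c24.n) := red_ln rf12h40.2.2.2.2.1 ⟨rf12h40.2.2.2.2.1.1, rf12h4.2.2.2.2.2.2.2.2.2.2.2.2.2.2.2.2.1.1⟩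
theorem rf12k25 : CfgOK (rf12c25.e, rf12c25.n) := red_ln rf12h40.2.2.2.1 ⟨rf12h40.2.2.2.1.1, rf12h7.2.2.2.2.2.2.1.1⟩
theorem rf12k26 : CfgOK (rf12c26.e, rf12c26.n) := red_ln rf12h40.2.2.1 rf12h40.2.2.1.1
theorem rf12k27 : CfgOK (rf12c27.e, rf12c27.n) := red_ln rf12h40.2.1 ⟨rf12h40.2.1.1, rf12h4.2.2.2.2.2.2.2.2.2.2.2.2.2.2.2.1.1⟩
theorem rf12k28 : CfgOK (rf12c28.e, rf12c28.n) := red_ln rf12h40.1 ⟨rf12h40.1.1, rf12h4.2.2.2.2.2.2.2.2.2.2.2.2.2.2.1.1⟩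
theorem rf12k29 : CfgOK (rf12c29.e, rf12c29.n) := red_ln rf12h39.2.2.2.2.2.1 ⟨rf12h39.2.2.2.2.2.1.1, rf12h4.2.2.2.2.2.2.2.2.2.2.2.2.2.1.1⟩
theorem rf12k30 : CfgOK (rf12c30.e, rf12c30.n) := red_ln rf12h39.2.2.2.2.1 ⟨⟨rf12h39.2.2.2.2.1.1, rf12h4.2.2.2.2.2.2.2.2.2.2.2.2.1.1⟩, ⟨rf12h5.2.2.2.2.2.2.2.2.2.2.2.2.1.1, rf12h6.2.2.2.2.2.2.1.1⟩⟩
theorem rf12k31 : CfgOK (rf12c31.e, rf12c31.n) := red_ln rf12h39.2.2.2.1 ⟨rf12h39.2.2.2.1.1, rf12h5.2.2.2.2.2.2.2.2.2.2.2.2.2.2.2.1.1⟩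
theorem rf12k32 : CfgOK (rf12c32.e, rf12c32.n) := red_ln rf12h39.2.2.1 ⟨⟨rf12h39.2.2.1.1, rf12h5.2.2.2.2.2.2.2.2.2.2.2.1.1⟩, ⟨rf12h4.2.2.2.2.2.2.2.2.2.2.2.1.1, rf12h6.2.2.2.2.2.1.1⟩⟩
theorem rf12k33 : CfgOK (rf12c33.e, rf12c33.n) := red_ln rf12h39.2.1 ⟨⟨rf12h39.2.1.1, rf12h5.2.2.2.2.2.2.2.1.1⟩, ⟨rf12h4.2.2.2.2.2.2.2.2.2.2.1.1, rf12h6.2.2.2.2.1.1⟩⟩
theorem rf12k34 : CfgOK (rf12c34.e, rf12c34.n) := red_ln rf12h39.1 ⟨⟨rf12h39.1.1, rf12h5.2.2.2.2.2.2.1.1⟩, ⟨rf12h4.2.2.2.2.2.2.2.2.2.1.1, rf12h6.2.2.2.1.1⟩⟩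
theorem rf12k35 : CfgOK (rf12c35.e, rf12c35.n) := red_ln rf12h34.2.2.2.2.1 ⟨rf12h34.2.2.2.2.1.1, rf12h4.2.2.2.2.2.2.2.2.1.1⟩
theorem rf12k36 : CfgOK (rf12c36.e, rf12c36.n) := red_ln rf12h34.2.2.2.1 ⟨rf12h34.2.2.2.1.1, rf12h4.2.2.2.2.2.2.2.1.1⟩
theorem rf12k37 : CfgOK (rf12c37.e, rf12c37.n) := red_ln rf12h34.2.2.1 ⟨rf12h34.2.2.1.1, rf12h5.2.2.2.2.2.2.2.2.2.2.2.2.2.2.1.1⟩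
theorem rf12k38 : CfgOK (rf12c38.e, rf12c38.n) := red_ln rf12h34.2.1 ⟨⟨rf12h34.2.1.1, rf12h5.1.1⟩, ⟨rf12h4.2.2.2.2.2.2.1.1, rf12h6.2.2.1.1⟩⟩
theorem rf12k39 : CfgOK (rf12c39.e, rf12c39.n) := red_ln rf12h34.1 rf12h34.1.1
theorem rf12k40 : CfgOK (rf12c40.e, rf12c40.n) := red_ln rf12h23.2.2.2.2.1 ⟨rf12h23.2.2.2.2.1.1, rf12h4.2.2.2.2.2.1.1⟩
theorem rf12k41 : CfgOK (rf12c41.e, rf12c41.n) := red_ln rf12h23.2.2.2.1 ⟨⟨rf12h23.2.2.2.1.1, rf12h5.2.2.1.1⟩, ⟨rf12h7.2.2.2.2.2.1.1, rf12h8.2.2.2.1.1⟩⟩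
theorem rf12k42 : CfgOK (rf12c42.e, rf12c42.n) := red_ln rf12h23.2.2.1 rf12h23.2.2.1.1
theorem rf12k43 : CfgOK (rf12c43.e, rf12c43.n) := red_ln rf12h23.2.1 ⟨rf12h23.2.1.1, rf12h5.2.2.2.2.2.1.1⟩
theorem rf12k44 : CfgOK (rf12c44.e, rf12c44.n) := red_ln rf12h23.1 ⟨rf12h23.1.1, rf12h5.2.1.1⟩
theorem rf12k45 : CfgOK (rf12c45.e, rf12c45.n) := red_ln rf12h12.2.2.1 ⟨rf12h12.2.2.1.1, rf12h4.2.2.2.2.1.1⟩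
theorem rf12k46 : CfgOK (rf12c46.e, rf12c46.n) := red_ln rf12h12.2.1 ⟨rf12h12.2.1.1, rf12h5.2.2.2.2.2.2.2.2.2.2.1.1⟩
theorem rf12k47 : CfgOK (rf12c47.e, rf12c47.n) := red_ln rf12h12.1 ⟨rf12h12.1.1, rf12h7.2.1.1⟩
theorem rf12k48 : CfgOK (rf12c48.e, rf12c48.n) := red_ln rf12h1.2.2.1 ⟨⟨rf12h1.2.2.1.1, rf12h4.2.2.2.1.1⟩, ⟨rf12h7.2.2.1.1, rf12h6.2.1.1⟩⟩
theorem rf12k49 : CfgOK (rf12c49.e, rf12c49.n) := red_ln rf12h1.2.1 ⟨⟨rf12h1.2.1.1, rf12h5.2.2.2.2.1.1⟩, ⟨rf12h4.2.2.1.1, rf12h6.1.1⟩⟩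
theorem rf12k50 : CfgOK (rf12c50.e, rf12c50.n) := red_ln rf12h1.1 rf12h1.1.1
theorem rf12k51 : CfgOK (rf12c51.e, rf12c51.n) := red_ln rf12h0.2.1 ⟨rf12h0.2.1.1, rf12h4.2.1.1⟩
theorem rf12k52 : CfgOK (rf12c52.e, rf12c52.n) := red_ln rf12h0.1 ⟨rf12h0.1.1, rf12h4.1.1⟩
theorem rf12k53 : CfgOK (rf12c53.e, rf12c53.n) := red_ln rf12h9.2.2.2.2.1 ⟨⟨rf12h9.2.2.2.2.1.1, rf12h10.2.2.1.1⟩, ⟨rf12h11.2.2.2.1.1, rf12h13.2.2.2.2.2.2.1.1⟩⟩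
theorem rf12k54 : CfgOK (rf12c54.e, rf12c54.n) := red_ln rf12h9.2.2.2.1 rf12h9.2.2.2.1.1
theorem rf12k55 : CfgOK (rf12c55.e, rf12c55.n) := red_ln rf12h9.2.2.1 ⟨⟨rf12h9.2.2.1.1, rf12h14.2.2.2.1.1⟩, ⟨rf12h15.2.1.1, rf12h13.2.2.2.1.1⟩⟩
theorem rf12k56 : CfgOK (rf12c56.e, rf12c56.n) := red_ln rf12h9.2.1 ⟨⟨rf12h9.2.1.1, rf12h14.2.1.1⟩, ⟨rf12h11.2.2.1.1, rf12h13.2.2.2.2.2.1.1⟩⟩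
theorem rf12k57 : CfgOK (rf12c57.e, rf12c57.n) := red_ln rf12h9.1 ⟨⟨rf12h9.1.1, rf12h14.1.1⟩, ⟨rf12h11.2.1.1, rf12h13.1.1⟩⟩
theorem rf12k58 : CfgOK (rf12c58.e, rf12c58.n) := red_ln rf12h16.2.2.1 ⟨⟨rf12h16.2.2.1.1, rf12h14.2.2.1.1⟩, ⟨rf12h15.2.2.2.2.2.1.1, rf12h13.2.2.2.2.1.1⟩⟩
theorem rf12k59 : CfgOK (rf12c59.e, rf12c59.n) := red_ln rf12h16.2.1 ⟨⟨rf12h16.2.1.1, rf12h10.2.1.1⟩, ⟨rf12h15.2.2.2.2.1.1, rf12h13.2.2.1.1⟩⟩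
theorem rf12k60 : CfgOK (rf12c60.e, rf12c60.n) := red_ln rf12h16.1 ⟨⟨rf12h16.1.1, rf12h10.1.1⟩, ⟨rf12h11.1.1, rf12h13.2.1.1⟩⟩
theorem rf12k61 : CfgOK (rf12c61.e, rf12c61.n) := red_ln rf12h17.1 ⟨⟨rf12h17.1.1, rf12h15.2.2.2.1.1⟩, ⟨rf12h18.2.2.2.2.2.1.1, rf12h19.2.1.1⟩⟩
theorem rf12k62 : CfgOK (rf12c62.e, rf12c62.n) := red_ln rf12h20.2.1 ⟨⟨rf12h20.2.1.1, rf12h15.2.2.1.1⟩, ⟨rf12h21.2.1.1, rf12h19.2.2.2.1.1⟩⟩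
theorem rf12k63 : CfgOK (rf12c63.e, rf12c63.n) := red_ln rf12h20.1 ⟨⟨rf12h20.1.1, rf12h15.1.1⟩, ⟨rf12h18.2.2.2.2.1.1, rf12h19.1.1⟩⟩
theorem rf12k64 : CfgOK (rf12c64.e, rf12c64.n) := red_ln rf12h22.2.2.1 ⟨⟨rf12h22.2.2.1.1, rf12h18.2.2.2.2.2.2.2.1.1⟩, ⟨rf12h24.2.2.2.2.2.1.1, rf12h25.2.2.2.2.2.1.1⟩⟩
theorem rf12k65 : CfgOK (rf12c65.e, rf12c65.n) := red_ln rf12h22.2.1 ⟨⟨rf12h22.2.1.1, rf12h18.2.2.2.1.1⟩, ⟨rf12h24.2.1.1, rf12h25.2.1.1⟩⟩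
theorem rf12k66 : CfgOK (rf12c66.e, rf12c66.n) := red_ln rf12h22.1 ⟨⟨rf12h22.1.1, rf12h21.1.1⟩, ⟨rf12h24.1.1, rf12h25.2.2.1.1⟩⟩
theorem rf12k67 : CfgOK (rf12c67.e, rf12c67.n) := red_ln rf12h26.2.2.1 ⟨⟨rf12h26.2.2.1.1, rf12h18.2.2.2.2.2.2.1.1⟩, ⟨rf12h24.2.2.2.2.1.1, rf12h25.2.2.2.2.2.2.1.1⟩⟩
theorem rf12k68 : CfgOK (rf12c68.e, rf12c68.n) := red_ln rf12h26.2.1 ⟨⟨⟨rf12h26.2.1.1, rf12h18.2.2.1.1⟩, ⟨rf12h18.2.1.1, rf12h19.2.2.1.1⟩⟩, ⟨⟨rf12h24.2.2.2.1.1, rf12h25.2.2.2.2.1.1⟩, ⟨rf12h25.2.2.2.1.1, rf12h27.1.1⟩⟩⟩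
theorem rf12k69 : CfgOK (rf12c69.e, rf12c69.n) := red_ln rf12h26.1 ⟨⟨rf12h26.1.1, rf12h18.1.1⟩, ⟨rf12h28.1.1, rf12h25.1.1⟩⟩
theorem rf12k70 : CfgOK (rf12c70.e, rf12c70.n) := red_ln rf12h29.1 rf12h29.1.1
theorem rf12k71 : CfgOK (rf12c71.e, rf12c71.n) := red_ln rf12h30.2.1 ⟨⟨rf12h30.2.1.1, rf12h24.2.2.1.1⟩, ⟨rf12h31.1.1, rf12h32.1.1⟩⟩
theorem rf12k72 : CfgOK (rf12c72.e, rf12c72.n) := red_ln rf12h30.1 rf12h30.1.1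
theorem rf12k73 : CfgOK (rf12c73.e, rf12c73.n) := red_ln rf12h33.1 rf12h33.1.1
theorem rf12k74 : CfgOK (rf12c74.e, rf12c74.n) := red_ln rf12h35.2.2.1 ⟨⟨rf12h35.2.2.1.1, rf12h31.2.2.2.1.1⟩, ⟨rf12h5.2.2.2.2.2.2.2.2.2.2.2.2.2.2.2.2.2.2.2.2.2.2.1.1, rf12h8.2.2.2.2.2.1.1⟩⟩
theorem rf12k75 : CfgOK (rf12c75.e, rf12c75.n) := red_ln rf12h35.2.1 ⟨⟨rf12h35.2.1.1, rf12h31.2.2.1.1⟩, ⟨rf12h7.2.2.2.2.2.2.2.2.1.1, rf12h8.2.2.2.2.1.1⟩⟩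
theorem rf12k76 : CfgOK (rf12c76.e, rf12c76.n) := red_ln rf12h35.1 ⟨⟨rf12h35.1.1, rf12h31.2.1.1⟩, ⟨rf12h7.2.2.2.2.2.2.2.1.1, rf12h8.1.1⟩⟩
theorem rf12k77 : CfgOK (rf12c77.e, rf12c77.n) := red_ln rf12h37.2.1 ⟨⟨⟨rf12h37.2.1.1, rf12h38.2.2.2.2.2.2.2.1.1⟩, ⟨rf12h38.2.2.2.2.2.2.1.1, rf12h5.2.2.2.2.2.2.2.2.2.2.2.2.2.2.2.2.2.2.2.2.2.1.1⟩⟩, ⟨⟨rf12h38.2.2.2.2.2.1.1, rf12h7.2.2.2.2.2.2.2.2.2.1.1⟩, ⟨rf12h5.2.2.2.2.2.2.2.2.2.2.2.2.2.2.2.2.2.2.2.2.1.1, rf12h8.2.2.2.2.2.2.1.1⟩⟩⟩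
theorem rf12k78 : CfgOK (rf12c78.e, rf12c78.n) := red_ln rf12h37.1 ⟨⟨rf12h37.1.1, rf12h38.2.2.2.2.1.1⟩, ⟨rf12h38.2.2.1.1, rf12h5.2.2.2.2.2.2.2.2.2.2.2.2.2.2.2.2.2.2.2.1.1⟩⟩
theorem rf12k79 : CfgOK (rf12c79.e, rf12c79.n) := red_ln rf12h36.2.2.2.2.2.1 ⟨⟨rf12h36.2.2.2.2.2.1.1, rf12h38.2.2.2.1.1⟩, ⟨rf12h3.2.2.1.1, rf12h5.2.2.2.2.2.2.2.2.2.2.2.2.2.2.2.2.2.2.1.1⟩⟩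
theorem rf12k80 : CfgOK (rf12c80.e, rf12c80.n) := red_ln rf12h36.2.2.2.2.1 ⟨rf12h36.2.2.2.2.1.1, rf12h3.2.1.1⟩
theorem rf12k81 : CfgOK (rf12c81.e, rf12c81.n) := red_ln rf12h36.2.2.2.1 ⟨rf12h36.2.2.2.1.1, rf12h3.1.1⟩
theorem rf12k82 : CfgOK (rf12c82.e, rf12c82.n) := red_ln rf12h36.2.2.1 ⟨rf12h36.2.2.1.1, rf12h38.2.1.1⟩
theorem rf12k83 : CfgOK (rf12c83.e, rf12c83.n) := red_ln rf12h36.2.1 ⟨rf12h36.2.1.1, rf12h38.1.1⟩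
theorem rf12k84 : CfgOK (rf12c84.e, rf12c84.n) := red_ln rf12h36.1 ⟨rf12h36.1.1, rf12h2.2.2.2.2.2.1.1⟩

end Pool.Agent.Lib.G6.B
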