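import Pool.Agent.Lib.G6.BRed
import Pool.Agent.Lib.G6D.RF4

set_option autoImplicit false
set_option maxRecDepth 100000
set_option linter.all false

namespace Pool.Agent.Lib.G6.B

theorem rf4h0 : AllL LnOK rf4l0 := batch_of rf4th.1
theorem rf4h1 : AllL LnOK rf4l1 := batch_of rf4th.2.1
theorem rf4h2 : AllL LnOK rf4l10 := batch_of rf4th.2.2.2.2.2.2.2.2.2.2.1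
theorem rf4h3 : AllL LnOK rf4l11 := batch_of rf4th.2.2.2.2.2.2.2.2.2.2.2.1
theorem rf4h4 : AllL LnOK rf4l12 := batch_of rf4th.2.2.2.2.2.2.2.2.2.2.2.2.1
theorem rf4h5 : AllL LnOK rf4l13 := batch_of rf4th.2.2.2.2.2.2.2.2.2.2.2.2.2.1
theorem rf4h6 : AllL LnOK rf4l14 := batch_of rf4th.2.2.2.2.2.2.2.2.2.2.2.2.2.2.1
theorem rf4h7 : AllL LnOK rf4l15 := batch_of rf4th.2.2.2.2.2.2.2.2.2.2.2.2.2.2.2.1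
theorem rf4h8 : AllL LnOK rf4l16 := batch_of rf4th.2.2.2.2.2.2.2.2.2.2.2.2.2.2.2.2.1
theorem rf4h9 : AllL LnOK rf4l17 := batch_of rf4th.2.2.2.2.2.2.2.2.2.2.2.2.2.2.2.2.2.1
theorem rf4h10 : AllL LnOK rf4l18 := batch_of rf4th.2.2.2.2.2.2.2.2.2.2.2.2.2.2.2.2.2.2.1
theorem rf4h11 : AllL LnOK rf4l19 := batch_of rf4th.2.2.2.2.2.2.2.2.2.2.2.2.2.2.2.2.2.2.2.1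
theorem rf4h12 : AllL LnOK rf4l2 := batch_of rf4th.2.2.1
theorem rf4h13 : AllL LnOK rf4l20 := batch_of rf4th.2.2.2.2.2.2.2.2.2.2.2.2.2.2.2.2.2.2.2.2.1
theorem rf4h14 : AllL LnOK rf4l21 := batch_of rf4th.2.2.2.2.2.2.2.2.2.2.2.2.2.2.2.2.2.2.2.2.2.1
theorem rf4h15 : AllL LnOK rf4l22 := batch_of rf4th.2.2.2.2.2.2.2.2.2.2.2.2.2.2.2.2.2.2.2.2.2.2.1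
theorem rf4h16 : AllL LnOK rf4l23 := batch_of rf4th.2.2.2.2.2.2.2.2.2.2.2.2.2.2.2.2.2.2.2.2.2.2.2.1
theorem rf4h17 : AllL LnOK rf4l24 := batch_of rf4th.2.2.2.2.2.2.2.2.2.2.2.2.2.2.2.2.2.2.2.2.2.2.2.2.1
theorem rf4h18 : AllL LnOK rf4l25 := batch_of rf4th.2.2.2.2.2.2.2.2.2.2.2.2.2.2.2.2.2.2.2.2.2.2.2.2.2.1
theorem rf4h19 : AllL LnOK rf4l26 := batch_of rf4th.2.2.2.2.2.2.2.2.2.2.2.2.2.2.2.2.2.2.2.2.2.2.2.2.2.2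
theorem rf4h20 : AllL LnOK rf4l3 := batch_of rf4th.2.2.2.1
theorem rf4h21 : AllL LnOK rf4l4 := batch_of rf4th.2.2.2.2.1
theorem rf4h22 : AllL LnOK rf4l5 := batch_of rf4th.2.2.2.2.2.1
theorem rf4h23 : AllL LnOK rf4l6 := batch_of rf4th.2.2.2.2.2.2.1
theorem rf4h24 : AllL LnOK rf4l7 := batch_of rf4th.2.2.2.2.2.2.2.1
theorem rf4h25 : AllL LnOK rf4l8 := batch_of rf4th.2.2.2.2.2.2.2.2.1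
theorem rf4h26 : AllL LnOK rf4l9 := batch_of rf4th.2.2.2.2.2.2.2.2.2.1
theorem rf4k0 : CfgOK (rf4c0.e, rf4c0.n) := red_ln rf4h2.2.2.2.2.2.1 ⟨rf4h2.2.2.2.2.2.1.1, rf4h7.2.2.2.2.2.2.2.2.2.2.2.2.2.2.1.1⟩
theorem rf4k1 : CfgOK (rf4c1.e, rf4c1.n) := red_ln rf4h2.2.2.2.2.1 ⟨rf4h2.2.2.2.2.1.1, rf4h7.2.2.2.2.2.2.2.2.2.2.2.2.2.1.1⟩
theorem rf4k2 : CfgOK (rf4c2.e, rf4c2.n) := red_ln rf4h2.2.2.2.1 ⟨rf4h2.2.2.2.1.1, rf4h7.2.2.2.2.2.2.2.2.2.2.2.2.1.1⟩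
theorem rf4k3 : CfgOK (rf4c3.e, rf4c3.n) := red_ln rf4h2.2.2.1 ⟨rf4h2.2.2.1.1, rf4h7.2.2.2.2.2.2.2.2.2.2.2.1.1⟩
theorem rf4k4 : CfgOK (rf4c4.e, rf4c4.n) := red_ln rf4h2.2.1 ⟨rf4h2.2.1.1, rf4h7.2.2.2.2.2.2.2.2.2.2.1.1⟩
theorem rf4k5 : CfgOK (rf4c5.e, rf4c5.n) := red_ln rf4h2.1 ⟨rf4h2.1.1, rf4h7.2.2.2.2.2.2.2.2.2.1.1⟩
theorem rf4k6 : CfgOK (rf4c6.e, rf4c6.n) := red_ln rf4h26.2.2.2.2.2.2.2.2.2.2.2.2.2.2.2.2.2.2.2.2.2.2.2.1 ⟨rf4h26.2.2.2.2.2.2.2.2.2.2.2.2.2.2.2.2.2.2.2.2.2.2.2.1.1, rf4h7.2.2.2.2.2.2.2.2.1.1⟩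
theorem rf4k7 : CfgOK (rf4c7.e, rf4c7.n) := red_ln rf4h26.2.2.2.2.2.2.2.2.2.2.2.2.2.2.2.2.2.2.2.2.2.2.1 ⟨rf4h26.2.2.2.2.2.2.2.2.2.2.2.2.2.2.2.2.2.2.2.2.2.2.1.1, rf4h7.2.2.2.2.2.2.2.1.1⟩
theorem rf4k8 : CfgOK (rf4c8.e, rf4c8.n) := red_ln rf4h26.2.2.2.2.2.2.2.2.2.2.2.2.2.2.2.2.2.2.2.2.2.1 ⟨rf4h26.2.2.2.2.2.2.2.2.2.2.2.2.2.2.2.2.2.2.2.2.2.1.1, rf4h7.2.2.2.2.2.2.1.1⟩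
theorem rf4k9 : CfgOK (rf4c9.e, rf4c9.n) := red_ln rf4h26.2.2.2.2.2.2.2.2.2.2.2.2.2.2.2.2.2.2.2.2.1 ⟨rf4h26.2.2.2.2.2.2.2.2.2.2.2.2.2.2.2.2.2.2.2.2.1.1, rf4h7.2.2.2.2.2.1.1⟩
theorem rf4k10 : CfgOK (rf4c10.e, rf4c10.n) := red_ln rf4h26.2.2.2.2.2.2.2.2.2.2.2.2.2.2.2.2.2.2.2.1 ⟨rf4h26.2.2.2.2.2.2.2.2.2.2.2.2.2.2.2.2.2.2.2.1.1, rf4h7.2.2.2.2.1.1⟩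
theorem rf4k11 : CfgOK (rf4c11.e, rf4c11.n) := red_ln rf4h26.2.2.2.2.2.2.2.2.2.2.2.2.2.2.2.2.2.2.1 ⟨rf4h26.2.2.2.2.2.2.2.2.2.2.2.2.2.2.2.2.2.2.1.1, rf4h7.2.2.2.1.1⟩
theorem rf4k12 : CfgOK (rf4c12.e, rf4c12.n) := red_ln rf4h26.2.2.2.2.2.2.2.2.2.2.2.2.2.2.2.2.2.1 ⟨rf4h26.2.2.2.2.2.2.2.2.2.2.2.2.2.2.2.2.2.1.1, rf4h7.2.2.1.1⟩
theorem rf4k13 : CfgOK (rf4c13.e, rf4c13.n) := red_ln rf4h26.2.2.2.2.2.2.2.2.2.2.2.2.2.2.2.2.1 ⟨rf4h26.2.2.2.2.2.2.2.2.2.2.2.2.2.2.2.2.1.1, rf4h7.2.1.1⟩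
theorem rf4k14 : CfgOK (rf4c14.e, rf4c14.n) := red_ln rf4h26.2.2.2.2.2.2.2.2.2.2.2.2.2.2.2.1 ⟨rf4h26.2.2.2.2.2.2.2.2.2.2.2.2.2.2.2.1.1, rf4h7.1.1⟩
theorem rf4k15 : CfgOK (rf4c15.e, rf4c15.n) := red_ln rf4h26.2.2.2.2.2.2.2.2.2.2.2.2.2.2.1 ⟨rf4h26.2.2.2.2.2.2.2.2.2.2.2.2.2.2.1.1, rf4h6.2.2.2.2.2.2.2.2.2.2.2.2.2.2.2.2.2.2.2.2.2.2.2.2.2.2.2.2.2.2.2.2.2.2.2.2.2.2.2.1.1⟩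
theorem rf4k16 : CfgOK (rf4c16.e, rf4c16.n) := red_ln rf4h26.2.2.2.2.2.2.2.2.2.2.2.2.2.1 ⟨rf4h26.2.2.2.2.2.2.2.2.2.2.2.2.2.1.1, rf4h6.2.2.2.2.2.2.2.2.2.2.2.2.2.2.2.2.2.2.2.2.2.2.2.2.2.2.2.2.2.2.2.2.2.2.2.2.2.2.1.1⟩
theorem rf4k17 : CfgOK (rf4c17.e, rf4c17.n) := red_ln rf4h26.2.2.2.2.2.2.2.2.2.2.2.2.1 ⟨rf4h26.2.2.2.2.2.2.2.2.2.2.2.2.1.1, rf4h6.2.2.2.2.2.2.2.2.2.2.2.2.2.2.2.2.2.2.2.2.2.2.2.2.2.2.2.2.2.2.2.2.2.2.2.2.2.1.1⟩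
theorem rf4k18 : CfgOK (rf4c18.e, rf4c18.n) := red_ln rf4h26.2.2.2.2.2.2.2.2.2.2.2.1 ⟨rf4h26.2.2.2.2.2.2.2.2.2.2.2.1.1, rf4h6.2.2.2.2.2.2.2.2.2.2.2.2.2.2.2.2.2.2.2.2.2.2.2.2.2.2.2.2.2.2.2.2.2.2.2.2.1.1⟩
theorem rf4k19 : CfgOK (rf4c19.e, rf4c19.n) := red_ln rf4h26.2.2.2.2.2.2.2.2.2.2.1 ⟨rf4h26.2.2.2.2.2.2.2.2.2.2.1.1, rf4h6.2.2.2.2.2.2.2.2.2.2.2.2.2.2.2.2.2.2.2.2.2.2.2.2.2.2.2.2.2.2.2.2.2.2.2.1.1⟩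
theorem rf4k20 : CfgOK (rf4c20.e, rf4c20.n) := red_ln rf4h26.2.2.2.2.2.2.2.2.2.1 ⟨rf4h26.2.2.2.2.2.2.2.2.2.1.1, rf4h6.2.2.2.2.2.2.2.2.2.2.2.2.2.2.2.2.2.2.2.2.2.2.2.2.2.2.2.2.2.2.2.2.2.2.1.1⟩
theorem rf4k21 : CfgOK (rf4c21.e, rf4c21.n) := red_ln rf4h26.2.2.2.2.2.2.2.2.1 ⟨rf4h26.2.2.2.2.2.2.2.2.1.1, rf4h6.2.2.2.2.2.2.2.2.2.2.2.2.2.2.2.2.2.2.2.2.2.2.2.2.2.2.2.2.2.2.2.2.2.1.1⟩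
theorem rf4k22 : CfgOK (rf4c22.e, rf4c22.n) := red_ln rf4h26.2.2.2.2.2.2.2.1 ⟨rf4h26.2.2.2.2.2.2.2.1.1, rf4h6.2.2.2.2.2.2.2.2.2.2.2.2.2.2.2.2.2.2.2.2.2.2.2.2.2.2.2.2.2.2.2.2.1.1⟩
theorem rf4k23 : CfgOK (rf4c23.e, rf4c23.n) := red_ln rf4h26.2.2.2.2.2.2.1 ⟨rf4h26.2.2.2.2.2.2.1.1, rf4h6.2.2.2.2.2.2.2.2.2.2.2.2.2.2.2.2.2.2.2.2.2.2.2.2.2.2.2.2.2.2.2.1.1⟩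
theorem rf4k24 : CfgOK (rf4c24.e, rf4c24.n) := red_ln rf4h26.2.2.2.2.2.1 ⟨rf4h26.2.2.2.2.2.1.1, rf4h6.2.2.2.2.2.2.2.2.2.2.2.2.2.2.2.2.2.2.2.2.2.2.2.2.2.2.2.2.2.2.1.1⟩
theorem rf4k25 : CfgOK (rf4c25.e, rf4c25.n) := red_ln rf4h26.2.2.2.2.1 ⟨rf4h26.2.2.2.2.1.1, rf4h6.2.2.2.2.2.2.2.2.2.2.2.2.2.2.2.2.2.2.2.2.2.2.2.2.2.2.2.2.2.1.1⟩
theorem rf4k26 : CfgOK (rf4c26.e, rf4c26.n) := red_ln rf4h26.2.2.2.1 ⟨rf4h26.2.2.2.1.1, rf4h6.2.2.2.2.2.2.2.2.2.2.2.2.2.2.2.2.2.2.2.2.2.2.2.2.2.2.2.2.1.1⟩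
theorem rf4k27 : CfgOK (rf4c27.e, rf4c27.n) := red_ln rf4h26.2.2.1 ⟨rf4h26.2.2.1.1, rf4h6.2.2.2.2.2.2.2.2.2.2.2.2.2.2.2.2.2.2.2.2.2.2.2.2.2.2.2.1.1⟩
theorem rf4k28 : CfgOK (rf4c28.e, rf4c28.n) := red_ln rf4h26.2.1 ⟨rf4h26.2.1.1, rf4h6.2.2.2.2.2.2.2.2.2.2.2.2.2.2.2.2.2.2.2.2.2.2.2.2.2.2.1.1⟩
theorem rf4k29 : CfgOK (rf4c29.e, rf4c29.n) := red_ln rf4h26.1 ⟨rf4h26.1.1, rf4h6.2.2.2.2.2.2.2.2.2.2.2.2.2.2.2.2.2.2.2.2.2.2.2.2.2.1.1⟩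
theorem rf4k30 : CfgOK (rf4c30.e, rf4c30.n) := red_ln rf4h25.2.2.2.2.2.2.2.2.2.2.2.2.2.2.2.2.2.2.2.2.2.2.2.1 ⟨rf4h25.2.2.2.2.2.2.2.2.2.2.2.2.2.2.2.2.2.2.2.2.2.2.2.1.1, rf4h6.2.2.2.2.2.2.2.2.2.2.2.2.2.2.2.2.2.2.2.2.2.2.2.2.1.1⟩
theorem rf4k31 : CfgOK (rf4c31.e, rf4c31.n) := red_ln rf4h25.2.2.2.2.2.2.2.2.2.2.2.2.2.2.2.2.2.2.2.2.2.2.1 ⟨rf4h25.2.2.2.2.2.2.2.2.2.2.2.2.2.2.2.2.2.2.2.2.2.2.1.1, rf4h6.2.2.2.2.2.2.2.2.2.2.2.2.2.2.2.2.2.2.2.2.2.2.2.1.1⟩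
theorem rf4k32 : CfgOK (rf4c32.e, rf4c32.n) := red_ln rf4h25.2.2.2.2.2.2.2.2.2.2.2.2.2.2.2.2.2.2.2.2.2.1 ⟨rf4h25.2.2.2.2.2.2.2.2.2.2.2.2.2.2.2.2.2.2.2.2.2.1.1, rf4h6.2.2.2.2.2.2.2.2.2.2.2.2.2.2.2.2.2.2.2.2.2.2.1.1⟩
theorem rf4k33 : CfgOK (rf4c33.e, rf4c33.n) := red_ln rf4h25.2.2.2.2.2.2.2.2.2.2.2.2.2.2.2.2.2.2.2.2.1 ⟨⟨rf4h25.2.2.2.2.2.2.2.2.2.2.2.2.2.2.2.2.2.2.2.2.1.1, rf4h6.2.2.2.2.2.2.2.2.2.2.2.2.2.2.2.2.2.2.2.2.2.1.1⟩, ⟨rf4h10.2.2.2.2.2.2.2.2.2.2.2.2.2.2.2.2.2.2.2.2.2.2.1.1, rf4h15.2.2.2.2.2.2.2.2.1.1⟩⟩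
theorem rf4k34 : CfgOK (rf4c34.e, rf4c34.n) := red_ln rf4h25.2.2.2.2.2.2.2.2.2.2.2.2.2.2.2.2.2.2.2.1 ⟨⟨rf4h25.2.2.2.2.2.2.2.2.2.2.2.2.2.2.2.2.2.2.2.1.1, rf4h6.2.2.2.2.2.2.2.2.2.2.2.2.2.2.2.2.2.2.2.2.1.1⟩, ⟨rf4h10.2.2.2.2.2.2.2.2.2.2.2.2.2.2.2.2.2.2.2.2.2.1.1, rf4h15.2.2.2.2.2.2.2.1.1⟩⟩
theorem rf4k35 : CfgOK (rf4c35.e, rf4c35.n) := red_ln rf4h25.2.2.2.2.2.2.2.2.2.2.2.2.2.2.2.2.2.2.1 ⟨⟨rf4h25.2.2.2.2.2.2.2.2.2.2.2.2.2.2.2.2.2.2.1.1, rf4h6.2.2.2.2.2.2.2.2.2.2.2.2.2.2.2.2.2.2.2.1.1⟩, ⟨rf4h9.2.2.2.2.2.2.2.2.2.2.2.2.2.2.2.2.2.2.2.2.2.2.2.2.2.2.2.2.2.1.1, rf4h15.2.2.2.2.2.2.1.1⟩⟩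
theorem rf4k36 : CfgOK (rf4c36.e, rf4c36.n) := red_ln rf4h25.2.2.2.2.2.2.2.2.2.2.2.2.2.2.2.2.2.1 ⟨⟨rf4h25.2.2.2.2.2.2.2.2.2.2.2.2.2.2.2.2.2.1.1, rf4h13.2.2.2.2.2.1.1⟩, ⟨rf4h6.2.2.2.2.2.2.2.2.2.2.2.2.2.2.2.2.2.2.1.1, rf4h15.2.2.2.2.2.1.1⟩⟩
theorem rf4k37 : CfgOK (rf4c37.e, rf4c37.n) := red_ln rf4h25.2.2.2.2.2.2.2.2.2.2.2.2.2.2.2.2.1 ⟨rf4h25.2.2.2.2.2.2.2.2.2.2.2.2.2.2.2.2.1.1, rf4h11.2.2.2.2.2.2.2.2.1.1⟩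
theorem rf4k38 : CfgOK (rf4c38.e, rf4c38.n) := red_ln rf4h25.2.2.2.2.2.2.2.2.2.2.2.2.2.2.2.1 ⟨rf4h25.2.2.2.2.2.2.2.2.2.2.2.2.2.2.2.1.1, rf4h11.2.2.2.2.2.2.2.1.1⟩
theorem rf4k39 : CfgOK (rf4c39.e, rf4c39.n) := red_ln rf4h25.2.2.2.2.2.2.2.2.2.2.2.2.2.2.1 ⟨rf4h25.2.2.2.2.2.2.2.2.2.2.2.2.2.2.1.1, rf4h11.2.2.2.2.2.2.1.1⟩
theorem rf4k40 : CfgOK (rf4c40.e, rf4c40.n) := red_ln rf4h25.2.2.2.2.2.2.2.2.2.2.2.2.2.1 ⟨rf4h25.2.2.2.2.2.2.2.2.2.2.2.2.2.1.1, rf4h11.2.2.2.2.2.1.1⟩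
theorem rf4k41 : CfgOK (rf4c41.e, rf4c41.n) := red_ln rf4h25.2.2.2.2.2.2.2.2.2.2.2.2.1 ⟨rf4h25.2.2.2.2.2.2.2.2.2.2.2.2.1.1, rf4h10.2.2.2.2.2.2.2.2.2.2.2.2.2.2.2.2.2.2.2.2.1.1⟩
theorem rf4k42 : CfgOK (rf4c42.e, rf4c42.n) := red_ln rf4h25.2.2.2.2.2.2.2.2.2.2.2.1 ⟨rf4h25.2.2.2.2.2.2.2.2.2.2.2.1.1, rf4h10.2.2.2.2.2.2.2.2.2.2.2.2.2.2.2.2.2.2.2.1.1⟩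
theorem rf4k43 : CfgOK (rf4c43.e, rf4c43.n) := red_ln rf4h25.2.2.2.2.2.2.2.2.2.2.1 ⟨rf4h25.2.2.2.2.2.2.2.2.2.2.1.1, rf4h10.2.2.2.2.2.2.2.2.2.2.2.2.2.2.2.2.2.2.1.1⟩
theorem rf4k44 : CfgOK (rf4c44.e, rf4c44.n) := red_ln rf4h25.2.2.2.2.2.2.2.2.2.1 ⟨rf4h25.2.2.2.2.2.2.2.2.2.1.1, rf4h10.2.2.2.2.2.2.2.2.2.2.2.2.2.2.2.2.2.1.1⟩
theorem rf4k45 : CfgOK (rf4c45.e, rf4c45.n) := red_ln rf4h25.2.2.2.2.2.2.2.2.1 ⟨rf4h25.2.2.2.2.2.2.2.2.1.1, rf4h10.2.2.2.2.2.2.2.2.2.2.2.2.2.2.2.2.1.1⟩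
theorem rf4k46 : CfgOK (rf4c46.e, rf4c46.n) := red_ln rf4h25.2.2.2.2.2.2.2.1 ⟨⟨rf4h25.2.2.2.2.2.2.2.1.1, rf4h10.2.2.2.2.2.2.2.2.2.2.2.2.2.2.2.1.1⟩, ⟨rf4h6.2.2.2.2.2.2.2.2.2.2.2.2.2.2.2.2.2.1.1, rf4h15.2.2.2.2.1.1⟩⟩
theorem rf4k47 : CfgOK (rf4c47.e, rf4c47.n) := red_ln rf4h25.2.2.2.2.2.2.1 ⟨⟨rf4h25.2.2.2.2.2.2.1.1, rf4h10.2.2.2.2.2.2.2.2.2.2.2.2.2.2.1.1⟩, ⟨rf4h6.2.2.2.2.2.2.2.2.2.2.2.2.2.2.2.2.1.1, rf4h15.2.2.2.1.1⟩⟩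
theorem rf4k48 : CfgOK (rf4c48.e, rf4c48.n) := red_ln rf4h25.2.2.2.2.2.1 ⟨⟨rf4h25.2.2.2.2.2.1.1, rf4h10.2.2.2.2.2.2.2.2.2.2.2.2.2.1.1⟩, ⟨rf4h6.2.2.2.2.2.2.2.2.2.2.2.2.2.2.2.1.1, rf4h15.2.2.1.1⟩⟩
theorem rf4k49 : CfgOK (rf4c49.e, rf4c49.n) := red_ln rf4h25.2.2.2.2.1 ⟨⟨rf4h25.2.2.2.2.1.1, rf4h10.2.2.2.2.2.2.2.2.2.2.2.2.1.1⟩, ⟨rf4h6.2.2.2.2.2.2.2.2.2.2.2.2.2.2.1.1, rf4h15.2.1.1⟩⟩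
theorem rf4k50 : CfgOK (rf4c50.e, rf4c50.n) := red_ln rf4h25.2.2.2.1 ⟨⟨rf4h25.2.2.2.1.1, rf4h10.2.2.2.2.2.2.2.2.2.2.2.1.1⟩, ⟨rf4h6.2.2.2.2.2.2.2.2.2.2.2.2.2.1.1, rf4h15.1.1⟩⟩
theorem rf4k51 : CfgOK (rf4c51.e, rf4c51.n) := red_ln rf4h25.2.2.1 ⟨⟨rf4h25.2.2.1.1, rf4h10.2.2.2.2.2.2.2.2.2.2.1.1⟩, ⟨rf4h6.2.2.2.2.2.2.2.2.2.2.2.2.1.1, rf4h14.2.2.2.2.2.2.2.2.2.2.2.2.2.2.2.2.2.2.2.2.2.2.2.2.2.2.2.2.2.2.2.2.2.2.2.2.2.2.2.1.1⟩⟩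
theorem rf4k52 : CfgOK (rf4c52.e, rf4c52.n) := red_ln rf4h25.2.1 ⟨rf4h25.2.1.1, rf4h9.2.2.2.2.2.2.2.2.2.2.2.2.2.2.2.2.2.2.2.2.2.2.2.2.2.2.2.2.1.1⟩
theorem rf4k53 : CfgOK (rf4c53.e, rf4c53.n) := red_ln rf4h25.1 ⟨rf4h25.1.1, rf4h9.2.2.2.2.2.2.2.2.2.2.2.2.2.2.2.2.2.2.2.2.2.2.2.2.2.2.2.1.1⟩
theorem rf4k54 : CfgOK (rf4c54.e, rf4c54.n) := red_ln rf4h24.2.2.2.2.2.2.2.2.2.2.2.2.2.2.2.2.2.2.2.2.2.2.2.1 ⟨rf4h24.2.2.2.2.2.2.2.2.2.2.2.2.2.2.2.2.2.2.2.2.2.2.2.1.1, rf4h9.2.2.2.2.2.2.2.2.2.2.2.2.2.2.2.2.2.2.2.2.2.2.2.2.2.2.1.1⟩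
theorem rf4k55 : CfgOK (rf4c55.e, rf4c55.n) := red_ln rf4h24.2.2.2.2.2.2.2.2.2.2.2.2.2.2.2.2.2.2.2.2.2.2.1 ⟨⟨rf4h24.2.2.2.2.2.2.2.2.2.2.2.2.2.2.2.2.2.2.2.2.2.2.1.1, rf4h9.2.2.2.2.2.2.2.2.2.2.2.2.2.2.2.2.2.2.2.2.2.2.2.2.2.1.1⟩, ⟨rf4h10.2.2.2.2.2.2.2.2.2.1.1, rf4h16.2.2.2.1.1⟩⟩
theorem rf4k56 : CfgOK (rf4c56.e, rf4c56.n) := red_ln rf4h24.2.2.2.2.2.2.2.2.2.2.2.2.2.2.2.2.2.2.2.2.2.1 ⟨⟨rf4h24.2.2.2.2.2.2.2.2.2.2.2.2.2.2.2.2.2.2.2.2.2.1.1, rf4h9.2.2.2.2.2.2.2.2.2.2.2.2.2.2.2.2.2.2.2.2.2.2.2.2.1.1⟩, ⟨rf4h9.2.2.2.2.2.2.2.2.2.2.2.2.2.1.1, rf4h16.2.2.2.2.2.1.1⟩⟩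
theorem rf4k57 : CfgOK (rf4c57.e, rf4c57.n) := red_ln rf4h24.2.2.2.2.2.2.2.2.2.2.2.2.2.2.2.2.2.2.2.2.1 ⟨⟨rf4h24.2.2.2.2.2.2.2.2.2.2.2.2.2.2.2.2.2.2.2.2.1.1, rf4h9.2.2.2.2.2.2.2.2.2.2.2.2.2.2.2.2.2.2.2.2.2.2.2.1.1⟩, ⟨rf4h9.2.2.2.2.2.2.2.2.2.2.2.2.1.1, rf4h16.1.1⟩⟩
theorem rf4k58 : CfgOK (rf4c58.e, rf4c58.n) := red_ln rf4h24.2.2.2.2.2.2.2.2.2.2.2.2.2.2.2.2.2.2.2.1 ⟨rf4h24.2.2.2.2.2.2.2.2.2.2.2.2.2.2.2.2.2.2.2.1.1, rf4h9.2.2.2.2.2.2.2.2.2.2.2.1.1⟩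
theorem rf4k59 : CfgOK (rf4c59.e, rf4c59.n) := red_ln rf4h24.2.2.2.2.2.2.2.2.2.2.2.2.2.2.2.2.2.2.1 ⟨⟨rf4h24.2.2.2.2.2.2.2.2.2.2.2.2.2.2.2.2.2.2.1.1, rf4h9.2.2.2.2.2.2.2.2.2.2.1.1⟩, ⟨rf4h9.2.2.2.2.2.2.2.2.2.1.1, rf4h16.2.2.1.1⟩⟩
theorem rf4k60 : CfgOK (rf4c60.e, rf4c60.n) := red_ln rf4h24.2.2.2.2.2.2.2.2.2.2.2.2.2.2.2.2.2.1 ⟨rf4h24.2.2.2.2.2.2.2.2.2.2.2.2.2.2.2.2.2.1.1, rf4h8.2.2.2.2.2.2.2.2.2.2.2.2.2.2.2.2.2.2.2.2.2.2.2.2.2.1.1⟩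
theorem rf4k61 : CfgOK (rf4c61.e, rf4c61.n) := red_ln rf4h24.2.2.2.2.2.2.2.2.2.2.2.2.2.2.2.2.1 ⟨rf4h24.2.2.2.2.2.2.2.2.2.2.2.2.2.2.2.2.1.1, rf4h8.2.2.2.2.2.2.2.2.2.2.2.2.2.2.2.2.2.2.2.2.2.2.2.2.1.1⟩
theorem rf4k62 : CfgOK (rf4c62.e, rf4c62.n) := red_ln rf4h24.2.2.2.2.2.2.2.2.2.2.2.2.2.2.2.1 ⟨rf4h24.2.2.2.2.2.2.2.2.2.2.2.2.2.2.2.1.1, rf4h8.2.2.2.2.2.2.2.2.2.2.2.2.2.2.1.1⟩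
theorem rf4k63 : CfgOK (rf4c63.e, rf4c63.n) := red_ln rf4h24.2.2.2.2.2.2.2.2.2.2.2.2.2.2.1 rf4h24.2.2.2.2.2.2.2.2.2.2.2.2.2.2.1.1
theorem rf4k64 : CfgOK (rf4c64.e, rf4c64.n) := red_ln rf4h24.2.2.2.2.2.2.2.2.2.2.2.2.2.1 rf4h24.2.2.2.2.2.2.2.2.2.2.2.2.2.1.1
theorem rf4k65 : CfgOK (rf4c65.e, rf4c65.n) := red_ln rf4h24.2.2.2.2.2.2.2.2.2.2.2.2.1 rf4h24.2.2.2.2.2.2.2.2.2.2.2.2.1.1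
theorem rf4k66 : CfgOK (rf4c66.e, rf4c66.n) := red_ln rf4h24.2.2.2.2.2.2.2.2.2.2.2.1 rf4h24.2.2.2.2.2.2.2.2.2.2.2.1.1
theorem rf4k67 : CfgOK (rf4c67.e, rf4c67.n) := red_ln rf4h24.2.2.2.2.2.2.2.2.2.2.1 rf4h24.2.2.2.2.2.2.2.2.2.2.1.1
theorem rf4k68 : CfgOK (rf4c68.e, rf4c68.n) := red_ln rf4h24.2.2.2.2.2.2.2.2.2.1 ⟨rf4h24.2.2.2.2.2.2.2.2.2.1.1, rf4h6.2.2.2.2.2.2.2.2.2.2.2.1.1⟩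
theorem rf4k69 : CfgOK (rf4c69.e, rf4c69.n) := red_ln rf4h24.2.2.2.2.2.2.2.2.1 ⟨rf4h24.2.2.2.2.2.2.2.2.1.1, rf4h6.2.2.2.2.2.2.2.2.2.2.1.1⟩
theorem rf4k70 : CfgOK (rf4c70.e, rf4c70.n) := red_ln rf4h24.2.2.2.2.2.2.2.1 ⟨rf4h24.2.2.2.2.2.2.2.1.1, rf4h6.2.2.2.2.2.2.2.2.2.1.1⟩
theorem rf4k71 : CfgOK (rf4c71.e, rf4c71.n) := red_ln rf4h24.2.2.2.2.2.2.1 ⟨rf4h24.2.2.2.2.2.2.1.1, rf4h6.2.2.2.2.2.2.2.2.1.1⟩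
theorem rf4k72 : CfgOK (rf4c72.e, rf4c72.n) := red_ln rf4h24.2.2.2.2.2.1 ⟨rf4h24.2.2.2.2.2.1.1, rf4h6.2.2.2.2.2.2.2.1.1⟩
theorem rf4k73 : CfgOK (rf4c73.e, rf4c73.n) := red_ln rf4h24.2.2.2.2.1 ⟨rf4h24.2.2.2.2.1.1, rf4h6.2.2.2.2.2.2.1.1⟩
theorem rf4k74 : CfgOK (rf4c74.e, rf4c74.n) := red_ln rf4h24.2.2.2.1 ⟨rf4h24.2.2.2.1.1, rf4h6.2.2.2.2.2.1.1⟩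
theorem rf4k75 : CfgOK (rf4c75.e, rf4c75.n) := red_ln rf4h24.2.2.1 ⟨rf4h24.2.2.1.1, rf4h6.2.2.2.2.1.1⟩
theorem rf4k76 : CfgOK (rf4c76.e, rf4c76.n) := red_ln rf4h24.2.1 ⟨rf4h24.2.1.1, rf4h6.2.2.2.1.1⟩
theorem rf4k77 : CfgOK (rf4c77.e, rf4c77.n) := red_ln rf4h24.1 ⟨rf4h24.1.1, rf4h6.2.2.1.1⟩
theorem rf4k78 : CfgOK (rf4c78.e, rf4c78.n) := red_ln rf4h23.2.2.2.2.2.2.2.2.2.2.2.2.2.2.2.2.2.2.2.2.2.2.2.1 ⟨rf4h23.2.2.2.2.2.2.2.2.2.2.2.2.2.2.2.2.2.2.2.2.2.2.2.1.1, rf4h6.2.1.1⟩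
theorem rf4k79 : CfgOK (rf4c79.e, rf4c79.n) := red_ln rf4h23.2.2.2.2.2.2.2.2.2.2.2.2.2.2.2.2.2.2.2.2.2.2.1 ⟨rf4h23.2.2.2.2.2.2.2.2.2.2.2.2.2.2.2.2.2.2.2.2.2.2.1.1, rf4h6.1.1⟩
theorem rf4k80 : CfgOK (rf4c80.e, rf4c80.n) := red_ln rf4h23.2.2.2.2.2.2.2.2.2.2.2.2.2.2.2.2.2.2.2.2.2.1 ⟨⟨⟨rf4h23.2.2.2.2.2.2.2.2.2.2.2.2.2.2.2.2.2.2.2.2.2.1.1, rf4h5.2.2.2.2.2.2.2.2.2.2.2.2.2.2.2.2.2.2.2.2.2.2.2.2.2.2.2.2.2.2.2.2.2.2.2.2.2.2.2.1.1⟩, ⟨rf4h10.2.2.2.2.2.2.2.2.1.1, rf4h14.2.2.2.2.2.2.2.2.2.2.2.2.2.2.2.2.2.2.2.2.2.2.2.2.2.2.2.2.2.2.2.2.2.2.2.2.2.2.1.1⟩⟩, ⟨⟨rf4h10.2.2.2.2.2.2.2.1.1, rf4h14.2.2.2.2.2.2.2.2.2.2.2.2.2.2.2.2.2.2.2.2.2.2.2.2.2.2.2.2.2.2.2.2.2.2.2.2.2.1.1⟩, ⟨rf4h16.2.2.2.2.1.1,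 rf4h17.1.1⟩⟩⟩
theorem rf4k81 : CfgOK (rf4c81.e, rf4c81.n) := red_ln rf4h23.2.2.2.2.2.2.2.2.2.2.2.2.2.2.2.2.2.2.2.2.1 ⟨⟨rf4h23.2.2.2.2.2.2.2.2.2.2.2.2.2.2.2.2.2.2.2.2.1.1, rf4h5.2.2.2.2.2.2.2.2.2.2.2.2.2.2.2.2.2.2.2.2.2.2.2.2.2.2.2.2.2.2.2.2.2.2.2.2.2.2.1.1⟩, ⟨rf4h9.2.2.2.2.2.2.2.2.1.1, rf4h14.2.2.2.2.2.2.2.2.2.2.2.2.2.2.2.2.2.2.2.2.2.2.2.2.2.2.2.2.2.2.2.2.2.2.2.2.1.1⟩⟩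
theorem rf4k82 : CfgOK (rf4c82.e, rf4c82.n) := red_ln rf4h23.2.2.2.2.2.2.2.2.2.2.2.2.2.2.2.2.2.2.2.1 ⟨⟨rf4h23.2.2.2.2.2.2.2.2.2.2.2.2.2.2.2.2.2.2.2.1.1, rf4h11.2.2.2.2.2.2.2.2.2.2.2.2.2.2.2.2.2.2.2.2.2.2.2.2.2.2.2.2.2.1.1⟩, ⟨rf4h5.2.2.2.2.2.2.2.2.2.2.2.2.2.2.2.2.2.2.2.2.2.2.2.2.2.2.2.2.2.2.2.2.2.2.2.2.2.1.1, rf4h14.2.2.2.2.2.2.2.2.2.2.2.2.2.2.2.2.2.2.2.2.2.2.2.2.2.2.2.2.2.2.2.2.2.2.2.1.1⟩⟩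
theorem rf4k83 : CfgOK (rf4c83.e, rf4c83.n) := red_ln rf4h23.2.2.2.2.2.2.2.2.2.2.2.2.2.2.2.2.2.2.1 ⟨⟨rf4h23.2.2.2.2.2.2.2.2.2.2.2.2.2.2.2.2.2.2.1.1, rf4h11.2.2.2.2.2.2.2.2.2.2.2.2.2.2.2.2.2.2.2.2.2.2.2.2.2.2.2.2.1.1⟩, ⟨rf4h5.2.2.2.2.2.2.2.2.2.2.2.2.2.2.2.2.2.2.2.2.2.2.2.2.2.2.2.2.2.2.2.2.2.2.2.2.1.1, rf4h14.2.2.2.2.2.2.2.2.2.2.2.2.2.2.2.2.2.2.2.2.2.2.2.2.2.2.2.2.2.2.2.2.2.2.1.1⟩⟩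
theorem rf4k84 : CfgOK (rf4c84.e, rf4c84.n) := red_ln rf4h23.2.2.2.2.2.2.2.2.2.2.2.2.2.2.2.2.2.1 ⟨⟨rf4h23.2.2.2.2.2.2.2.2.2.2.2.2.2.2.2.2.2.1.1, rf4h11.2.2.2.2.1.1⟩, ⟨rf4h5.2.2.2.2.2.2.2.2.2.2.2.2.2.2.2.2.2.2.2.2.2.2.2.2.2.2.2.2.2.2.2.2.2.2.2.1.1, rf4h14.2.2.2.2.2.2.2.2.2.2.2.2.2.2.2.2.2.2.2.2.2.2.2.2.2.2.2.2.2.2.2.2.2.1.1⟩⟩
theorem rf4k85 : CfgOK (rf4c85.e, rf4c85.n) := red_ln rf4h23.2.2.2.2.2.2.2.2.2.2.2.2.2.2.2.2.1 ⟨rf4h23.2.2.2.2.2.2.2.2.2.2.2.2.2.2.2.2.1.1, rf4h10.2.2.2.2.2.2.1.1⟩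
theorem rf4k86 : CfgOK (rf4c86.e, rf4c86.n) := red_ln rf4h23.2.2.2.2.2.2.2.2.2.2.2.2.2.2.2.1 ⟨rf4h23.2.2.2.2.2.2.2.2.2.2.2.2.2.2.2.1.1, rf4h10.2.2.2.2.2.1.1⟩
theorem rf4k87 : CfgOK (rf4c87.e, rf4c87.n) := red_ln rf4h23.2.2.2.2.2.2.2.2.2.2.2.2.2.2.1 ⟨rf4h23.2.2.2.2.2.2.2.2.2.2.2.2.2.2.1.1, rf4h9.2.2.2.2.2.2.2.2.2.2.2.2.2.2.2.2.2.2.2.2.2.2.1.1⟩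
theorem rf4k88 : CfgOK (rf4c88.e, rf4c88.n) := red_ln rf4h23.2.2.2.2.2.2.2.2.2.2.2.2.2.1 ⟨rf4h23.2.2.2.2.2.2.2.2.2.2.2.2.2.1.1, rf4h9.2.2.2.2.2.2.2.2.2.2.2.2.2.2.2.2.2.2.2.2.2.1.1⟩
theorem rf4k89 : CfgOK (rf4c89.e, rf4c89.n) := red_ln rf4h23.2.2.2.2.2.2.2.2.2.2.2.2.1 ⟨rf4h23.2.2.2.2.2.2.2.2.2.2.2.2.1.1, rf4h9.2.2.2.2.2.2.2.1.1⟩
theorem rf4k90 : CfgOK (rf4c90.e, rf4c90.n) := red_ln rf4h23.2.2.2.2.2.2.2.2.2.2.2.1 ⟨⟨rf4h23.2.2.2.2.2.2.2.2.2.2.2.1.1, rf4h9.2.2.2.2.2.2.1.1⟩, ⟨rf4h5.2.2.2.2.2.2.2.2.2.2.2.2.2.2.2.2.2.2.2.2.2.2.2.2.2.2.2.2.2.2.2.2.2.2.1.1, rf4h14.2.2.2.2.2.2.2.2.2.2.2.2.2.2.2.2.2.2.2.2.2.2.2.2.2.2.2.2.2.2.2.2.1.1⟩⟩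
theorem rf4k91 : CfgOK (rf4c91.e, rf4c91.n) := red_ln rf4h23.2.2.2.2.2.2.2.2.2.2.1 ⟨⟨rf4h23.2.2.2.2.2.2.2.2.2.2.1.1, rf4h8.2.2.2.2.2.2.2.2.2.2.2.2.2.2.2.2.2.2.2.2.2.2.2.1.1⟩, ⟨rf4h5.2.2.2.2.2.2.2.2.2.2.2.2.2.2.2.2.2.2.2.2.2.2.2.2.2.2.2.2.2.2.2.2.2.1.1, rf4h14.2.2.2.2.2.2.2.2.2.2.2.2.2.2.2.2.2.2.2.2.2.2.2.2.2.2.2.2.2.2.2.1.1⟩⟩
theorem rf4k92 : CfgOK (rf4c92.e, rf4c92.n) := red_ln rf4h23.2.2.2.2.2.2.2.2.2.1 ⟨⟨rf4h23.2.2.2.2.2.2.2.2.2.1.1, rf4h8.2.2.2.2.2.2.2.2.2.2.2.2.2.2.2.2.2.2.2.2.2.2.1.1⟩, ⟨rf4h5.2.2.2.2.2.2.2.2.2.2.2.2.2.2.2.2.2.2.2.2.2.2.2.2.2.2.2.2.2.2.2.2.1.1, rf4h14.2.2.2.2.2.2.2.2.2.2.2.2.2.2.2.2.2.2.2.2.2.2.2.2.2.2.2.2.2.2.1.1⟩⟩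
theorem rf4k93 : CfgOK (rf4c93.e, rf4c93.n) := red_ln rf4h23.2.2.2.2.2.2.2.2.1 ⟨rf4h23.2.2.2.2.2.2.2.2.1.1, rf4h8.2.2.2.2.2.2.2.2.2.2.2.2.2.1.1⟩
theorem rf4k94 : CfgOK (rf4c94.e, rf4c94.n) := red_ln rf4h23.2.2.2.2.2.2.2.1 ⟨rf4h23.2.2.2.2.2.2.2.1.1, rf4h8.2.2.2.2.2.2.2.2.2.2.1.1⟩
theorem rf4k95 : CfgOK (rf4c95.e, rf4c95.n) := red_ln rf4h23.2.2.2.2.2.2.1 ⟨⟨rf4h23.2.2.2.2.2.2.1.1, rf4h8.2.2.2.2.2.2.2.1.1⟩, ⟨rf4h13.2.2.2.2.1.1, rf4h16.2.2.2.2.2.2.2.2.2.2.2.1.1⟩⟩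
theorem rf4k96 : CfgOK (rf4c96.e, rf4c96.n) := red_ln rf4h23.2.2.2.2.2.1 rf4h23.2.2.2.2.2.1.1
theorem rf4k97 : CfgOK (rf4c97.e, rf4c97.n) := red_ln rf4h23.2.2.2.2.1 rf4h23.2.2.2.2.1.1
theorem rf4k98 : CfgOK (rf4c98.e, rf4c98.n) := red_ln rf4h23.2.2.2.1 rf4h23.2.2.2.1.1
theorem rf4k99 : CfgOK (rf4c99.e, rf4c99.n) := red_ln rf4h23.2.2.1 rf4h23.2.2.1.1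
theorem rf4k100 : CfgOK (rf4c100.e, rf4c100.n) := red_ln rf4h23.2.1 rf4h23.2.1.1
theorem rf4k101 : CfgOK (rf4c101.e, rf4c101.n) := red_ln rf4h23.1 rf4h23.1.1
theorem rf4k102 : CfgOK (rf4c102.e, rf4c102.n) := red_ln rf4h22.2.2.2.2.2.2.2.2.2.2.2.2.2.2.2.2.2.2.2.2.2.2.2.1 rf4h22.2.2.2.2.2.2.2.2.2.2.2.2.2.2.2.2.2.2.2.2.2.2.2.1.1
theorem rf4k103 : CfgOK (rf4c103.e, rf4c103.n) := red_ln rf4h22.2.2.2.2.2.2.2.2.2.2.2.2.2.2.2.2.2.2.2.2.2.2.1 rf4h22.2.2.2.2.2.2.2.2.2.2.2.2.2.2.2.2.2.2.2.2.2.2.1.1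
theorem rf4k104 : CfgOK (rf4c104.e, rf4c104.n) := red_ln rf4h22.2.2.2.2.2.2.2.2.2.2.2.2.2.2.2.2.2.2.2.2.2.1 rf4h22.2.2.2.2.2.2.2.2.2.2.2.2.2.2.2.2.2.2.2.2.2.1.1
theorem rf4k105 : CfgOK (rf4c105.e, rf4c105.n) := red_ln rf4h22.2.2.2.2.2.2.2.2.2.2.2.2.2.2.2.2.2.2.2.2.1 rf4h22.2.2.2.2.2.2.2.2.2.2.2.2.2.2.2.2.2.2.2.2.1.1
theorem rf4k106 : CfgOK (rf4c106.e, rf4c106.n) := red_ln rf4h22.2.2.2.2.2.2.2.2.2.2.2.2.2.2.2.2.2.2.2.1 ⟨rf4h22.2.2.2.2.2.2.2.2.2.2.2.2.2.2.2.2.2.2.2.1.1, rf4h5.2.2.2.2.2.2.2.2.2.2.2.2.2.2.2.2.2.2.2.2.2.2.2.2.2.2.2.2.2.2.2.1.1⟩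
theorem rf4k107 : CfgOK (rf4c107.e, rf4c107.n) := red_ln rf4h22.2.2.2.2.2.2.2.2.2.2.2.2.2.2.2.2.2.2.1 ⟨rf4h22.2.2.2.2.2.2.2.2.2.2.2.2.2.2.2.2.2.2.1.1, rf4h5.2.2.2.2.2.2.2.2.2.2.2.2.2.2.2.2.2.2.2.2.2.2.2.2.2.2.2.2.2.2.1.1⟩
theorem rf4k108 : CfgOK (rf4c108.e, rf4c108.n) := red_ln rf4h22.2.2.2.2.2.2.2.2.2.2.2.2.2.2.2.2.2.1 ⟨rf4h22.2.2.2.2.2.2.2.2.2.2.2.2.2.2.2.2.2.1.1, rf4h5.2.2.2.2.2.2.2.2.2.2.2.2.2.2.2.2.2.2.2.2.2.2.2.2.2.2.2.2.2.1.1⟩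
theorem rf4k109 : CfgOK (rf4c109.e, rf4c109.n) := red_ln rf4h22.2.2.2.2.2.2.2.2.2.2.2.2.2.2.2.2.1 ⟨rf4h22.2.2.2.2.2.2.2.2.2.2.2.2.2.2.2.2.1.1, rf4h5.2.2.2.2.2.2.2.2.2.2.2.2.2.2.2.2.2.2.2.2.2.2.2.2.2.2.2.2.1.1⟩
theorem rf4k110 : CfgOK (rf4c110.e, rf4c110.n) := red_ln rf4h22.2.2.2.2.2.2.2.2.2.2.2.2.2.2.2.1 ⟨rf4h22.2.2.2.2.2.2.2.2.2.2.2.2.2.2.2.1.1, rf4h5.2.2.2.2.2.2.2.2.2.2.2.2.2.2.2.2.2.2.2.2.2.2.2.2.2.2.2.1.1⟩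
theorem rf4k111 : CfgOK (rf4c111.e, rf4c111.n) := red_ln rf4h22.2.2.2.2.2.2.2.2.2.2.2.2.2.2.1 ⟨rf4h22.2.2.2.2.2.2.2.2.2.2.2.2.2.2.1.1, rf4h5.2.2.2.2.2.2.2.2.2.2.2.2.2.2.2.2.2.2.2.2.2.2.2.2.2.2.1.1⟩
theorem rf4k112 : CfgOK (rf4c112.e, rf4c112.n) := red_ln rf4h22.2.2.2.2.2.2.2.2.2.2.2.2.2.1 ⟨rf4h22.2.2.2.2.2.2.2.2.2.2.2.2.2.1.1, rf4h5.2.2.2.2.2.2.2.2.2.2.2.2.2.2.2.2.2.2.2.2.2.2.2.2.2.1.1⟩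
theorem rf4k113 : CfgOK (rf4c113.e, rf4c113.n) := red_ln rf4h22.2.2.2.2.2.2.2.2.2.2.2.2.1 ⟨rf4h22.2.2.2.2.2.2.2.2.2.2.2.2.1.1, rf4h5.2.2.2.2.2.2.2.2.2.2.2.2.2.2.2.2.2.2.2.2.2.2.2.2.1.1⟩
theorem rf4k114 : CfgOK (rf4c114.e, rf4c114.n) := red_ln rf4h22.2.2.2.2.2.2.2.2.2.2.2.1 ⟨rf4h22.2.2.2.2.2.2.2.2.2.2.2.1.1, rf4h5.2.2.2.2.2.2.2.2.2.2.2.2.2.2.2.2.2.2.2.2.2.2.2.1.1⟩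
theorem rf4k115 : CfgOK (rf4c115.e, rf4c115.n) := red_ln rf4h22.2.2.2.2.2.2.2.2.2.2.1 ⟨rf4h22.2.2.2.2.2.2.2.2.2.2.1.1, rf4h5.2.2.2.2.2.2.2.2.2.2.2.2.2.2.2.2.2.2.2.2.2.2.1.1⟩
theorem rf4k116 : CfgOK (rf4c116.e, rf4c116.n) := red_ln rf4h22.2.2.2.2.2.2.2.2.2.1 ⟨rf4h22.2.2.2.2.2.2.2.2.2.1.1, rf4h5.2.2.2.2.2.2.2.2.2.2.2.2.2.2.2.2.2.2.2.2.2.1.1⟩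
theorem rf4k117 : CfgOK (rf4c117.e, rf4c117.n) := red_ln rf4h22.2.2.2.2.2.2.2.2.1 ⟨rf4h22.2.2.2.2.2.2.2.2.1.1, rf4h5.2.2.2.2.2.2.2.2.2.2.2.2.2.2.2.2.2.2.2.2.1.1⟩
theorem rf4k118 : CfgOK (rf4c118.e, rf4c118.n) := red_ln rf4h22.2.2.2.2.2.2.2.1 ⟨rf4h22.2.2.2.2.2.2.2.1.1, rf4h5.2.2.2.2.2.2.2.2.2.2.2.2.2.2.2.2.2.2.2.1.1⟩
theorem rf4k119 : CfgOK (rf4c119.e, rf4c119.n) := red_ln rf4h22.2.2.2.2.2.2.1 ⟨rf4h22.2.2.2.2.2.2.1.1, rf4h5.2.2.2.2.2.2.2.2.2.2.2.2.2.2.2.2.2.2.1.1⟩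
theorem rf4k120 : CfgOK (rf4c120.e, rf4c120.n) := red_ln rf4h22.2.2.2.2.2.1 ⟨rf4h22.2.2.2.2.2.1.1, rf4h5.2.2.2.2.2.2.2.2.2.2.2.2.2.2.2.2.2.1.1⟩
theorem rf4k121 : CfgOK (rf4c121.e, rf4c121.n) := red_ln rf4h22.2.2.2.2.1 ⟨rf4h22.2.2.2.2.1.1, rf4h5.2.2.2.2.2.2.2.2.2.2.2.2.2.2.2.2.1.1⟩
theorem rf4k122 : CfgOK (rf4c122.e, rf4c122.n) := red_ln rf4h22.2.2.2.1 ⟨rf4h22.2.2.2.1.1, rf4h5.2.2.2.2.2.2.2.2.2.2.2.2.2.2.2.1.1⟩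
theorem rf4k123 : CfgOK (rf4c123.e, rf4c123.n) := red_ln rf4h22.2.2.1 ⟨rf4h22.2.2.1.1, rf4h5.2.2.2.2.2.2.2.2.2.2.2.2.2.2.1.1⟩
theorem rf4k124 : CfgOK (rf4c124.e, rf4c124.n) := red_ln rf4h22.2.1 ⟨rf4h22.2.1.1, rf4h5.2.2.2.2.2.2.2.2.2.2.2.2.2.1.1⟩
theorem rf4k125 : CfgOK (rf4c125.e, rf4c125.n) := red_ln rf4h22.1 ⟨rf4h22.1.1, rf4h5.2.2.2.2.2.2.2.2.2.2.2.2.1.1⟩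
theorem rf4k126 : CfgOK (rf4c126.e, rf4c126.n) := red_ln rf4h21.2.2.2.2.2.2.2.2.2.2.2.2.2.2.2.2.2.2.2.2.2.2.2.1 ⟨rf4h21.2.2.2.2.2.2.2.2.2.2.2.2.2.2.2.2.2.2.2.2.2.2.2.1.1, rf4h5.2.2.2.2.2.2.2.2.2.2.2.1.1⟩
theorem rf4k127 : CfgOK (rf4c127.e, rf4c127.n) := red_ln rf4h21.2.2.2.2.2.2.2.2.2.2.2.2.2.2.2.2.2.2.2.2.2.2.1 ⟨rf4h21.2.2.2.2.2.2.2.2.2.2.2.2.2.2.2.2.2.2.2.2.2.2.1.1, rf4h5.2.2.2.2.2.2.2.2.2.2.1.1⟩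
theorem rf4k128 : CfgOK (rf4c128.e, rf4c128.n) := red_ln rf4h21.2.2.2.2.2.2.2.2.2.2.2.2.2.2.2.2.2.2.2.2.2.1 ⟨rf4h21.2.2.2.2.2.2.2.2.2.2.2.2.2.2.2.2.2.2.2.2.2.1.1, rf4h5.2.2.2.2.2.2.2.2.2.1.1⟩
theorem rf4k129 : CfgOK (rf4c129.e, rf4c129.n) := red_ln rf4h21.2.2.2.2.2.2.2.2.2.2.2.2.2.2.2.2.2.2.2.2.1 ⟨rf4h21.2.2.2.2.2.2.2.2.2.2.2.2.2.2.2.2.2.2.2.2.1.1, rf4h5.2.2.2.2.2.2.2.2.1.1⟩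
theorem rf4k130 : CfgOK (rf4c130.e, rf4c130.n) := red_ln rf4h21.2.2.2.2.2.2.2.2.2.2.2.2.2.2.2.2.2.2.2.1 ⟨rf4h21.2.2.2.2.2.2.2.2.2.2.2.2.2.2.2.2.2.2.2.1.1, rf4h5.2.2.2.2.2.2.2.1.1⟩
theorem rf4k131 : CfgOK (rf4c131.e, rf4c131.n) := red_ln rf4h21.2.2.2.2.2.2.2.2.2.2.2.2.2.2.2.2.2.2.1 ⟨⟨rf4h21.2.2.2.2.2.2.2.2.2.2.2.2.2.2.2.2.2.2.1.1, rf4h5.2.2.2.2.2.2.1.1⟩, ⟨rf4h11.2.2.2.1.1, rf4h14.2.2.2.2.2.2.2.2.2.2.2.2.2.2.2.2.2.2.2.2.2.2.2.2.2.2.2.2.2.1.1⟩⟩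
theorem rf4k132 : CfgOK (rf4c132.e, rf4c132.n) := red_ln rf4h21.2.2.2.2.2.2.2.2.2.2.2.2.2.2.2.2.2.1 ⟨⟨rf4h21.2.2.2.2.2.2.2.2.2.2.2.2.2.2.2.2.2.1.1, rf4h5.2.2.2.2.2.1.1⟩, ⟨rf4h10.2.2.2.2.1.1, rf4h14.2.2.2.2.2.2.2.2.2.2.2.2.2.2.2.2.2.2.2.2.2.2.2.2.2.2.2.2.1.1⟩⟩
theorem rf4k133 : CfgOK (rf4c133.e, rf4c133.n) := red_ln rf4h21.2.2.2.2.2.2.2.2.2.2.2.2.2.2.2.2.1 ⟨⟨rf4h21.2.2.2.2.2.2.2.2.2.2.2.2.2.2.2.2.1.1, rf4h5.2.2.2.2.1.1⟩, ⟨rf4h8.2.2.2.2.2.2.2.2.2.2.2.2.2.2.2.2.2.2.2.2.2.1.1, rf4h14.2.2.2.2.2.2.2.2.2.2.2.2.2.2.2.2.2.2.2.2.2.2.2.2.2.2.2.1.1⟩⟩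
theorem rf4k134 : CfgOK (rf4c134.e, rf4c134.n) := red_ln rf4h21.2.2.2.2.2.2.2.2.2.2.2.2.2.2.2.1 ⟨⟨rf4h21.2.2.2.2.2.2.2.2.2.2.2.2.2.2.2.1.1, rf4h11.2.2.1.1⟩, ⟨rf4h5.2.2.2.1.1, rf4h14.2.2.2.2.2.2.2.2.2.2.2.2.2.2.2.2.2.2.2.2.2.2.2.2.2.2.1.1⟩⟩
theorem rf4k135 : CfgOK (rf4c135.e, rf4c135.n) := red_ln rf4h21.2.2.2.2.2.2.2.2.2.2.2.2.2.2.1 ⟨rf4h21.2.2.2.2.2.2.2.2.2.2.2.2.2.2.1.1, rf4h10.2.2.2.1.1⟩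
theorem rf4k136 : CfgOK (rf4c136.e, rf4c136.n) := red_ln rf4h21.2.2.2.2.2.2.2.2.2.2.2.2.2.1 ⟨⟨rf4h21.2.2.2.2.2.2.2.2.2.2.2.2.2.1.1, rf4h9.2.2.2.2.2.1.1⟩, ⟨rf4h5.2.2.1.1, rf4h14.2.2.2.2.2.2.2.2.2.2.2.2.2.2.2.2.2.2.2.2.2.2.2.2.2.1.1⟩⟩
theorem rf4k137 : CfgOK (rf4c137.e, rf4c137.n) := red_ln rf4h21.2.2.2.2.2.2.2.2.2.2.2.2.1 ⟨rf4h21.2.2.2.2.2.2.2.2.2.2.2.2.1.1, rf4h8.2.2.2.2.2.2.2.2.2.2.2.2.2.2.2.2.2.2.2.2.1.1⟩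
theorem rf4k138 : CfgOK (rf4c138.e, rf4c138.n) := red_ln rf4h21.2.2.2.2.2.2.2.2.2.2.2.1 ⟨⟨rf4h21.2.2.2.2.2.2.2.2.2.2.2.1.1, rf4h8.2.2.2.2.2.2.2.2.2.2.2.2.2.2.2.2.2.2.2.1.1⟩, ⟨rf4h5.2.1.1, rf4h14.2.2.2.2.2.2.2.2.2.2.2.2.2.2.2.2.2.2.2.2.2.2.2.2.1.1⟩⟩
theorem rf4k139 : CfgOK (rf4c139.e, rf4c139.n) := red_ln rf4h21.2.2.2.2.2.2.2.2.2.2.1 ⟨rf4h21.2.2.2.2.2.2.2.2.2.2.1.1, rf4h8.2.2.2.2.2.2.2.2.2.2.2.2.1.1⟩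
theorem rf4k140 : CfgOK (rf4c140.e, rf4c140.n) := red_ln rf4h21.2.2.2.2.2.2.2.2.2.1 ⟨rf4h21.2.2.2.2.2.2.2.2.2.1.1, rf4h8.2.2.2.2.2.2.2.2.2.2.2.1.1⟩
theorem rf4k141 : CfgOK (rf4c141.e, rf4c141.n) := red_ln rf4h21.2.2.2.2.2.2.2.2.1 ⟨⟨rf4h21.2.2.2.2.2.2.2.2.1.1, rf4h8.2.2.2.2.2.2.2.2.2.1.1⟩, ⟨rf4h5.1.1, rf4h14.2.2.2.2.2.2.2.2.2.2.2.2.2.2.2.2.2.2.2.2.2.2.2.1.1⟩⟩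
theorem rf4k142 : CfgOK (rf4c142.e, rf4c142.n) := red_ln rf4h21.2.2.2.2.2.2.2.1 ⟨rf4h21.2.2.2.2.2.2.2.1.1, rf4h8.2.2.2.2.2.2.1.1⟩
theorem rf4k143 : CfgOK (rf4c143.e, rf4c143.n) := red_ln rf4h21.2.2.2.2.2.2.1 ⟨⟨rf4h21.2.2.2.2.2.2.1.1, rf4h8.2.2.1.1⟩, ⟨rf4h4.2.2.2.2.2.2.2.2.2.2.2.2.2.2.2.2.2.2.2.2.2.2.2.2.2.2.2.2.2.2.2.2.2.2.2.2.2.2.2.1.1, rf4h14.2.2.2.2.2.2.2.2.2.2.2.2.2.2.2.2.2.2.2.2.2.2.1.1⟩⟩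
theorem rf4k144 : CfgOK (rf4c144.e, rf4c144.n) := red_ln rf4h21.2.2.2.2.2.1 rf4h21.2.2.2.2.2.1.1
theorem rf4k145 : CfgOK (rf4c145.e, rf4c145.n) := red_ln rf4h21.2.2.2.2.1 rf4h21.2.2.2.2.1.1
theorem rf4k146 : CfgOK (rf4c146.e, rf4c146.n) := red_ln rf4h21.2.2.2.1 rf4h21.2.2.2.1.1
theorem rf4k147 : CfgOK (rf4c147.e, rf4c147.n) := red_ln rf4h21.2.2.1 rf4h21.2.2.1.1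
theorem rf4k148 : CfgOK (rf4c148.e, rf4c148.n) := red_ln rf4h21.2.1 ⟨rf4h21.2.1.1, rf4h4.2.2.2.2.2.2.2.2.2.2.2.2.2.2.2.2.2.2.2.2.2.2.2.2.2.2.2.2.2.2.2.2.2.2.2.2.2.2.1.1⟩
theorem rf4k149 : CfgOK (rf4c149.e, rf4c149.n) := red_ln rf4h21.1 ⟨rf4h21.1.1, rf4h4.2.2.2.2.2.2.2.2.2.2.2.2.2.2.2.2.2.2.2.2.2.2.2.2.2.2.2.2.2.2.2.2.2.2.2.2.2.1.1⟩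
theorem rf4k150 : CfgOK (rf4c150.e, rf4c150.n) := red_ln rf4h20.2.2.2.2.2.2.2.2.2.2.2.2.2.2.2.2.2.2.2.2.2.2.2.1 ⟨rf4h20.2.2.2.2.2.2.2.2.2.2.2.2.2.2.2.2.2.2.2.2.2.2.2.1.1, rf4h4.2.2.2.2.2.2.2.2.2.2.2.2.2.2.2.2.2.2.2.2.2.2.2.2.2.2.2.2.2.2.2.2.2.2.2.2.1.1⟩
theorem rf4k151 : CfgOK (rf4c151.e, rf4c151.n) := red_ln rf4h20.2.2.2.2.2.2.2.2.2.2.2.2.2.2.2.2.2.2.2.2.2.2.1 ⟨rf4h20.2.2.2.2.2.2.2.2.2.2.2.2.2.2.2.2.2.2.2.2.2.2.1.1, rf4h4.2.2.2.2.2.2.2.2.2.2.2.2.2.2.2.2.2.2.2.2.2.2.2.2.2.2.2.2.2.2.2.2.2.2.2.1.1⟩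
theorem rf4k152 : CfgOK (rf4c152.e, rf4c152.n) := red_ln rf4h20.2.2.2.2.2.2.2.2.2.2.2.2.2.2.2.2.2.2.2.2.2.1 ⟨rf4h20.2.2.2.2.2.2.2.2.2.2.2.2.2.2.2.2.2.2.2.2.2.1.1, rf4h4.2.2.2.2.2.2.2.2.2.2.2.2.2.2.2.2.2.2.2.2.2.2.2.2.2.2.2.2.2.2.2.2.2.2.1.1⟩
theorem rf4k153 : CfgOK (rf4c153.e, rf4c153.n) := red_ln rf4h20.2.2.2.2.2.2.2.2.2.2.2.2.2.2.2.2.2.2.2.2.1 ⟨rf4h20.2.2.2.2.2.2.2.2.2.2.2.2.2.2.2.2.2.2.2.2.1.1, rf4h4.2.2.2.2.2.2.2.2.2.2.2.2.2.2.2.2.2.2.2.2.2.2.2.2.2.2.2.2.2.2.2.2.2.1.1⟩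
theorem rf4k154 : CfgOK (rf4c154.e, rf4c154.n) := red_ln rf4h20.2.2.2.2.2.2.2.2.2.2.2.2.2.2.2.2.2.2.2.1 ⟨rf4h20.2.2.2.2.2.2.2.2.2.2.2.2.2.2.2.2.2.2.2.1.1, rf4h4.2.2.2.2.2.2.2.2.2.2.2.2.2.2.2.2.2.2.2.2.2.2.2.2.2.2.2.2.2.2.2.2.1.1⟩
theorem rf4k155 : CfgOK (rf4c155.e, rf4c155.n) := red_ln rf4h20.2.2.2.2.2.2.2.2.2.2.2.2.2.2.2.2.2.2.1 ⟨rf4h20.2.2.2.2.2.2.2.2.2.2.2.2.2.2.2.2.2.2.1.1, rf4h4.2.2.2.2.2.2.2.2.2.2.2.2.2.2.2.2.2.2.2.2.2.2.2.2.2.2.2.2.2.2.2.1.1⟩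
theorem rf4k156 : CfgOK (rf4c156.e, rf4c156.n) := red_ln rf4h20.2.2.2.2.2.2.2.2.2.2.2.2.2.2.2.2.2.1 ⟨⟨rf4h20.2.2.2.2.2.2.2.2.2.2.2.2.2.2.2.2.2.1.1, rf4h4.2.2.2.2.2.2.2.2.2.2.2.2.2.2.2.2.2.2.2.2.2.2.2.2.2.2.2.2.2.2.1.1⟩, ⟨rf4h13.2.2.2.1.1, rf4h14.2.2.2.2.2.2.2.2.2.2.2.2.2.2.2.2.2.2.2.2.2.1.1⟩⟩
theorem rf4k157 : CfgOK (rf4c157.e, rf4c157.n) := red_ln rf4h20.2.2.2.2.2.2.2.2.2.2.2.2.2.2.2.2.1 ⟨⟨rf4h20.2.2.2.2.2.2.2.2.2.2.2.2.2.2.2.2.1.1, rf4h10.2.2.1.1⟩, ⟨rf4h4.2.2.2.2.2.2.2.2.2.2.2.2.2.2.2.2.2.2.2.2.2.2.2.2.2.2.2.2.2.1.1, rf4h14.2.2.2.2.2.2.2.2.2.2.2.2.2.2.2.2.2.2.2.2.1.1⟩⟩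
theorem rf4k158 : CfgOK (rf4c158.e, rf4c158.n) := red_ln rf4h20.2.2.2.2.2.2.2.2.2.2.2.2.2.2.2.1 ⟨⟨rf4h20.2.2.2.2.2.2.2.2.2.2.2.2.2.2.2.1.1, rf4h10.2.1.1⟩, ⟨rf4h4.2.2.2.2.2.2.2.2.2.2.2.2.2.2.2.2.2.2.2.2.2.2.2.2.2.2.2.2.1.1, rf4h14.2.2.2.2.2.2.2.2.2.2.2.2.2.2.2.2.2.2.2.1.1⟩⟩
theorem rf4k159 : CfgOK (rf4c159.e, rf4c159.n) := red_ln rf4h20.2.2.2.2.2.2.2.2.2.2.2.2.2.2.1 rf4h20.2.2.2.2.2.2.2.2.2.2.2.2.2.2.1.1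
theorem rf4k160 : CfgOK (rf4c160.e, rf4c160.n) := red_ln rf4h20.2.2.2.2.2.2.2.2.2.2.2.2.2.1 rf4h20.2.2.2.2.2.2.2.2.2.2.2.2.2.1.1
theorem rf4k161 : CfgOK (rf4c161.e, rf4c161.n) := red_ln rf4h20.2.2.2.2.2.2.2.2.2.2.2.2.1 rf4h20.2.2.2.2.2.2.2.2.2.2.2.2.1.1
theorem rf4k162 : CfgOK (rf4c162.e, rf4c162.n) := red_ln rf4h20.2.2.2.2.2.2.2.2.2.2.2.1 rf4h20.2.2.2.2.2.2.2.2.2.2.2.1.1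
theorem rf4k163 : CfgOK (rf4c163.e, rf4c163.n) := red_ln rf4h20.2.2.2.2.2.2.2.2.2.2.1 rf4h20.2.2.2.2.2.2.2.2.2.2.1.1
theorem rf4k164 : CfgOK (rf4c164.e, rf4c164.n) := red_ln rf4h20.2.2.2.2.2.2.2.2.2.1 rf4h20.2.2.2.2.2.2.2.2.2.1.1
theorem rf4k165 : CfgOK (rf4c165.e, rf4c165.n) := red_ln rf4h20.2.2.2.2.2.2.2.2.1 ⟨rf4h20.2.2.2.2.2.2.2.2.1.1, rf4h4.2.2.2.2.2.2.2.2.2.2.2.2.2.2.2.2.2.2.2.2.2.2.2.2.2.2.2.1.1⟩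
theorem rf4k166 : CfgOK (rf4c166.e, rf4c166.n) := red_ln rf4h20.2.2.2.2.2.2.2.1 ⟨rf4h20.2.2.2.2.2.2.2.1.1, rf4h4.2.2.2.2.2.2.2.2.2.2.2.2.2.2.2.2.2.2.2.2.2.2.2.2.2.2.1.1⟩
theorem rf4k167 : CfgOK (rf4c167.e, rf4c167.n) := red_ln rf4h20.2.2.2.2.2.2.1 ⟨rf4h20.2.2.2.2.2.2.1.1, rf4h4.2.2.2.2.2.2.2.2.2.2.2.2.2.2.2.2.2.2.2.2.2.2.2.2.2.1.1⟩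
theorem rf4k168 : CfgOK (rf4c168.e, rf4c168.n) := red_ln rf4h20.2.2.2.2.2.1 ⟨rf4h20.2.2.2.2.2.1.1, rf4h4.2.2.2.2.2.2.2.2.2.2.2.2.2.2.2.2.2.2.2.2.2.2.2.2.1.1⟩
theorem rf4k169 : CfgOK (rf4c169.e, rf4c169.n) := red_ln rf4h20.2.2.2.2.1 ⟨rf4h20.2.2.2.2.1.1, rf4h4.2.2.2.2.2.2.2.2.2.2.2.2.2.2.2.2.2.2.2.2.2.2.2.1.1⟩
theorem rf4k170 : CfgOK (rf4c170.e, rf4c170.n) := red_ln rf4h20.2.2.2.1 ⟨rf4h20.2.2.2.1.1, rf4h4.2.2.2.2.2.2.2.2.2.2.2.2.2.2.2.2.2.2.2.2.2.2.1.1⟩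
theorem rf4k171 : CfgOK (rf4c171.e, rf4c171.n) := red_ln rf4h20.2.2.1 ⟨rf4h20.2.2.1.1, rf4h4.2.2.2.2.2.2.2.2.2.2.2.2.2.2.2.2.2.2.2.2.2.1.1⟩
theorem rf4k172 : CfgOK (rf4c172.e, rf4c172.n) := red_ln rf4h20.2.1 ⟨rf4h20.2.1.1, rf4h4.2.2.2.2.2.2.2.2.2.2.2.2.2.2.2.2.2.2.2.2.1.1⟩
theorem rf4k173 : CfgOK (rf4c173.e, rf4c173.n) := red_ln rf4h20.1 ⟨rf4h20.1.1, rf4h4.2.2.2.2.2.2.2.2.2.2.2.2.2.2.2.2.2.2.2.1.1⟩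
theorem rf4k174 : CfgOK (rf4c174.e, rf4c174.n) := red_ln rf4h12.2.2.2.2.2.2.2.2.2.2.2.2.2.2.2.2.2.2.2.2.2.2.2.1 ⟨rf4h12.2.2.2.2.2.2.2.2.2.2.2.2.2.2.2.2.2.2.2.2.2.2.2.1.1, rf4h4.2.2.2.2.2.2.2.2.2.2.2.2.2.2.2.2.2.2.1.1⟩
theorem rf4k175 : CfgOK (rf4c175.e, rf4c175.n) := red_ln rf4h12.2.2.2.2.2.2.2.2.2.2.2.2.2.2.2.2.2.2.2.2.2.2.1 ⟨rf4h12.2.2.2.2.2.2.2.2.2.2.2.2.2.2.2.2.2.2.2.2.2.2.1.1, rf4h4.2.2.2.2.2.2.2.2.2.2.2.2.2.2.2.2.2.1.1⟩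
theorem rf4k176 : CfgOK (rf4c176.e, rf4c176.n) := red_ln rf4h12.2.2.2.2.2.2.2.2.2.2.2.2.2.2.2.2.2.2.2.2.2.1 ⟨⟨rf4h12.2.2.2.2.2.2.2.2.2.2.2.2.2.2.2.2.2.2.2.2.2.1.1, rf4h11.2.1.1⟩, ⟨rf4h4.2.2.2.2.2.2.2.2.2.2.2.2.2.2.2.2.1.1, rf4h14.2.2.2.2.2.2.2.2.2.2.2.2.2.2.2.2.2.2.1.1⟩⟩
theorem rf4k177 : CfgOK (rf4c177.e, rf4c177.n) := red_ln rf4h12.2.2.2.2.2.2.2.2.2.2.2.2.2.2.2.2.2.2.2.2.1 ⟨⟨rf4h12.2.2.2.2.2.2.2.2.2.2.2.2.2.2.2.2.2.2.2.2.1.1, rf4h9.2.2.2.2.2.2.2.2.2.2.2.2.2.2.2.2.2.2.2.2.1.1⟩, ⟨rf4h4.2.2.2.2.2.2.2.2.2.2.2.2.2.2.2.1.1, rf4h14.2.2.2.2.2.2.2.2.2.2.2.2.2.2.2.2.2.1.1⟩⟩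
theorem rf4k178 : CfgOK (rf4c178.e, rf4c178.n) := red_ln rf4h12.2.2.2.2.2.2.2.2.2.2.2.2.2.2.2.2.2.2.2.1 ⟨⟨rf4h12.2.2.2.2.2.2.2.2.2.2.2.2.2.2.2.2.2.2.2.1.1, rf4h9.2.2.2.2.2.2.2.2.2.2.2.2.2.2.2.2.2.2.2.1.1⟩, ⟨rf4h4.2.2.2.2.2.2.2.2.2.2.2.2.2.2.1.1, rf4h14.2.2.2.2.2.2.2.2.2.2.2.2.2.2.2.2.1.1⟩⟩
theorem rf4k179 : CfgOK (rf4c179.e, rf4c179.n) := red_ln rf4h12.2.2.2.2.2.2.2.2.2.2.2.2.2.2.2.2.2.2.1 ⟨⟨rf4h12.2.2.2.2.2.2.2.2.2.2.2.2.2.2.2.2.2.2.1.1, rf4h9.2.2.2.2.2.2.2.2.2.2.2.2.2.2.2.2.2.2.1.1⟩, ⟨rf4h4.2.2.2.2.2.2.2.2.2.2.2.2.2.1.1, rf4h14.2.2.2.2.2.2.2.2.2.2.2.2.2.2.2.1.1⟩⟩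
theorem rf4k180 : CfgOK (rf4c180.e, rf4c180.n) := red_ln rf4h12.2.2.2.2.2.2.2.2.2.2.2.2.2.2.2.2.2.1 rf4h12.2.2.2.2.2.2.2.2.2.2.2.2.2.2.2.2.2.1.1
theorem rf4k181 : CfgOK (rf4c181.e, rf4c181.n) := red_ln rf4h12.2.2.2.2.2.2.2.2.2.2.2.2.2.2.2.2.1 rf4h12.2.2.2.2.2.2.2.2.2.2.2.2.2.2.2.2.1.1
theorem rf4k182 : CfgOK (rf4c182.e, rf4c182.n) := red_ln rf4h12.2.2.2.2.2.2.2.2.2.2.2.2.2.2.2.1 ⟨rf4h12.2.2.2.2.2.2.2.2.2.2.2.2.2.2.2.1.1, rf4h4.2.2.2.2.2.2.2.2.2.2.2.2.1.1⟩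
theorem rf4k183 : CfgOK (rf4c183.e, rf4c183.n) := red_ln rf4h12.2.2.2.2.2.2.2.2.2.2.2.2.2.2.1 ⟨rf4h12.2.2.2.2.2.2.2.2.2.2.2.2.2.2.1.1, rf4h4.2.2.2.2.2.2.2.2.2.2.2.1.1⟩
theorem rf4k184 : CfgOK (rf4c184.e, rf4c184.n) := red_ln rf4h12.2.2.2.2.2.2.2.2.2.2.2.2.2.1 ⟨rf4h12.2.2.2.2.2.2.2.2.2.2.2.2.2.1.1, rf4h4.2.2.2.2.2.2.2.2.2.2.1.1⟩
theorem rf4k185 : CfgOK (rf4c185.e, rf4c185.n) := red_ln rf4h12.2.2.2.2.2.2.2.2.2.2.2.2.1 ⟨rf4h12.2.2.2.2.2.2.2.2.2.2.2.2.1.1, rf4h4.2.2.2.2.2.2.2.2.2.1.1⟩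
theorem rf4k186 : CfgOK (rf4c186.e, rf4c186.n) := red_ln rf4h12.2.2.2.2.2.2.2.2.2.2.2.1 ⟨rf4h12.2.2.2.2.2.2.2.2.2.2.2.1.1, rf4h4.2.2.2.2.2.2.2.2.1.1⟩
theorem rf4k187 : CfgOK (rf4c187.e, rf4c187.n) := red_ln rf4h12.2.2.2.2.2.2.2.2.2.2.1 ⟨rf4h12.2.2.2.2.2.2.2.2.2.2.1.1, rf4h4.2.2.2.2.2.2.2.1.1⟩
theorem rf4k188 : CfgOK (rf4c188.e, rf4c188.n) := red_ln rf4h12.2.2.2.2.2.2.2.2.2.1 ⟨rf4h12.2.2.2.2.2.2.2.2.2.1.1, rf4h4.2.2.2.2.2.2.1.1⟩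
theorem rf4k189 : CfgOK (rf4c189.e, rf4c189.n) := red_ln rf4h12.2.2.2.2.2.2.2.2.1 ⟨rf4h12.2.2.2.2.2.2.2.2.1.1, rf4h4.2.2.2.2.2.1.1⟩
theorem rf4k190 : CfgOK (rf4c190.e, rf4c190.n) := red_ln rf4h12.2.2.2.2.2.2.2.1 ⟨rf4h12.2.2.2.2.2.2.2.1.1, rf4h4.2.2.2.2.1.1⟩
theorem rf4k191 : CfgOK (rf4c191.e, rf4c191.n) := red_ln rf4h12.2.2.2.2.2.2.1 ⟨⟨rf4h12.2.2.2.2.2.2.1.1, rf4h4.2.2.2.1.1⟩, ⟨rf4h10.1.1, rf4h14.2.2.2.2.2.2.2.2.2.2.2.2.2.2.1.1⟩⟩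
theorem rf4k192 : CfgOK (rf4c192.e, rf4c192.n) := red_ln rf4h12.2.2.2.2.2.1 ⟨⟨rf4h12.2.2.2.2.2.1.1, rf4h9.2.2.2.2.2.2.2.2.2.2.2.2.2.2.2.2.2.1.1⟩, ⟨rf4h4.2.2.1.1, rf4h14.2.2.2.2.2.2.2.2.2.2.2.2.2.1.1⟩⟩
theorem rf4k193 : CfgOK (rf4c193.e, rf4c193.n) := red_ln rf4h12.2.2.2.2.1 ⟨rf4h12.2.2.2.2.1.1, rf4h9.2.2.2.2.1.1⟩
theorem rf4k194 : CfgOK (rf4c194.e, rf4c194.n) := red_ln rf4h12.2.2.2.1 ⟨rf4h12.2.2.2.1.1, rf4h8.1.1⟩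
theorem rf4k195 : CfgOK (rf4c195.e, rf4c195.n) := red_ln rf4h12.2.2.1 rf4h12.2.2.1.1
theorem rf4k196 : CfgOK (rf4c196.e, rf4c196.n) := red_ln rf4h12.2.1 ⟨rf4h12.2.1.1, rf4h4.2.1.1⟩
theorem rf4k197 : CfgOK (rf4c197.e, rf4c197.n) := red_ln rf4h12.1 ⟨rf4h12.1.1, rf4h4.1.1⟩
theorem rf4k198 : CfgOK (rf4c198.e, rf4c198.n) := red_ln rf4h1.2.2.2.2.2.2.2.2.2.2.2.2.2.2.2.2.2.2.2.2.2.2.2.1 ⟨rf4h1.2.2.2.2.2.2.2.2.2.2.2.2.2.2.2.2.2.2.2.2.2.2.2.1.1, rf4h3.2.2.2.2.2.2.2.2.2.2.2.2.2.2.2.2.2.2.2.2.2.2.2.2.2.2.2.2.2.2.2.2.2.2.2.2.2.2.2.1.1⟩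
theorem rf4k199 : CfgOK (rf4c199.e, rf4c199.n) := red_ln rf4h1.2.2.2.2.2.2.2.2.2.2.2.2.2.2.2.2.2.2.2.2.2.2.1 ⟨rf4h1.2.2.2.2.2.2.2.2.2.2.2.2.2.2.2.2.2.2.2.2.2.2.1.1, rf4h3.2.2.2.2.2.2.2.2.2.2.2.2.2.2.2.2.2.2.2.2.2.2.2.2.2.2.2.2.2.2.2.2.2.2.2.2.2.2.1.1⟩
theorem rf4k200 : CfgOK (rf4c200.e, rf4c200.n) := red_ln rf4h1.2.2.2.2.2.2.2.2.2.2.2.2.2.2.2.2.2.2.2.2.2.1 ⟨rf4h1.2.2.2.2.2.2.2.2.2.2.2.2.2.2.2.2.2.2.2.2.2.1.1, rf4h3.2.2.2.2.2.2.2.2.2.2.2.2.2.2.2.2.2.2.2.2.2.2.2.2.2.2.2.2.2.2.2.2.2.2.2.2.2.1.1⟩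
theorem rf4k201 : CfgOK (rf4c201.e, rf4c201.n) := red_ln rf4h1.2.2.2.2.2.2.2.2.2.2.2.2.2.2.2.2.2.2.2.2.1 ⟨rf4h1.2.2.2.2.2.2.2.2.2.2.2.2.2.2.2.2.2.2.2.2.1.1, rf4h3.2.2.2.2.2.2.2.2.2.2.2.2.2.2.2.2.2.2.2.2.2.2.2.2.2.2.2.2.2.2.2.2.2.2.2.2.1.1⟩
theorem rf4k202 : CfgOK (rf4c202.e, rf4c202.n) := red_ln rf4h1.2.2.2.2.2.2.2.2.2.2.2.2.2.2.2.2.2.2.2.1 ⟨rf4h1.2.2.2.2.2.2.2.2.2.2.2.2.2.2.2.2.2.2.2.1.1, rf4h3.2.2.2.2.2.2.2.2.2.2.2.2.2.2.2.2.2.2.2.2.2.2.2.2.2.2.2.2.2.2.2.2.2.2.2.1.1⟩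
theorem rf4k203 : CfgOK (rf4c203.e, rf4c203.n) := red_ln rf4h1.2.2.2.2.2.2.2.2.2.2.2.2.2.2.2.2.2.2.1 ⟨rf4h1.2.2.2.2.2.2.2.2.2.2.2.2.2.2.2.2.2.2.1.1, rf4h3.2.2.2.2.2.2.2.2.2.2.2.2.2.2.2.2.2.2.2.2.2.2.2.2.2.2.2.2.2.2.2.2.2.2.1.1⟩
theorem rf4k204 : CfgOK (rf4c204.e, rf4c204.n) := red_ln rf4h1.2.2.2.2.2.2.2.2.2.2.2.2.2.2.2.2.2.1 ⟨rf4h1.2.2.2.2.2.2.2.2.2.2.2.2.2.2.2.2.2.1.1, rf4h3.2.2.2.2.2.2.2.2.2.2.2.2.2.2.2.2.2.2.2.2.2.2.2.2.2.2.2.2.2.2.2.2.2.1.1⟩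
theorem rf4k205 : CfgOK (rf4c205.e, rf4c205.n) := red_ln rf4h1.2.2.2.2.2.2.2.2.2.2.2.2.2.2.2.2.1 ⟨rf4h1.2.2.2.2.2.2.2.2.2.2.2.2.2.2.2.2.1.1, rf4h3.2.2.2.2.2.2.2.2.2.2.2.2.2.2.2.2.2.2.2.2.2.2.2.2.2.2.2.2.2.2.2.2.1.1⟩
theorem rf4k206 : CfgOK (rf4c206.e, rf4c206.n) := red_ln rf4h1.2.2.2.2.2.2.2.2.2.2.2.2.2.2.2.1 ⟨rf4h1.2.2.2.2.2.2.2.2.2.2.2.2.2.2.2.1.1, rf4h3.2.2.2.2.2.2.2.2.2.2.2.2.2.2.2.2.2.2.2.2.2.2.2.2.2.2.2.2.2.2.2.1.1⟩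
theorem rf4k207 : CfgOK (rf4c207.e, rf4c207.n) := red_ln rf4h1.2.2.2.2.2.2.2.2.2.2.2.2.2.2.1 ⟨rf4h1.2.2.2.2.2.2.2.2.2.2.2.2.2.2.1.1, rf4h3.2.2.2.2.2.2.2.2.2.2.2.2.2.2.2.2.2.2.2.2.2.2.2.2.2.2.2.2.2.2.1.1⟩
theorem rf4k208 : CfgOK (rf4c208.e, rf4c208.n) := red_ln rf4h1.2.2.2.2.2.2.2.2.2.2.2.2.2.1 ⟨rf4h1.2.2.2.2.2.2.2.2.2.2.2.2.2.1.1, rf4h3.2.2.2.2.2.2.2.2.2.2.2.2.2.2.2.2.2.2.2.2.2.2.2.2.2.2.2.2.2.1.1⟩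
theorem rf4k209 : CfgOK (rf4c209.e, rf4c209.n) := red_ln rf4h1.2.2.2.2.2.2.2.2.2.2.2.2.1 ⟨rf4h1.2.2.2.2.2.2.2.2.2.2.2.2.1.1, rf4h3.2.2.2.2.2.2.2.2.2.2.2.2.2.2.2.2.2.2.2.2.2.2.2.2.2.2.2.2.1.1⟩
theorem rf4k210 : CfgOK (rf4c210.e, rf4c210.n) := red_ln rf4h1.2.2.2.2.2.2.2.2.2.2.2.1 ⟨⟨rf4h1.2.2.2.2.2.2.2.2.2.2.2.1.1, rf4h3.2.2.2.2.2.2.2.2.2.2.2.2.2.2.2.2.2.2.2.2.2.2.2.2.2.2.2.1.1⟩, ⟨rf4h9.2.2.2.1.1, rf4h14.2.2.2.2.2.2.2.2.2.2.2.2.1.1⟩⟩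
theorem rf4k211 : CfgOK (rf4c211.e, rf4c211.n) := red_ln rf4h1.2.2.2.2.2.2.2.2.2.2.1 ⟨⟨rf4h1.2.2.2.2.2.2.2.2.2.2.1.1, rf4h3.2.2.2.2.2.2.2.2.2.2.2.2.2.2.2.2.2.2.2.2.2.2.2.2.2.2.1.1⟩, ⟨rf4h8.2.1.1, rf4h14.2.2.2.2.2.2.2.2.2.2.2.1.1⟩⟩
theorem rf4k212 : CfgOK (rf4c212.e, rf4c212.n) := red_ln rf4h1.2.2.2.2.2.2.2.2.2.1 ⟨rf4h1.2.2.2.2.2.2.2.2.2.1.1, rf4h9.2.2.1.1⟩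
theorem rf4k213 : CfgOK (rf4c213.e, rf4c213.n) := red_ln rf4h1.2.2.2.2.2.2.2.2.1 ⟨⟨rf4h1.2.2.2.2.2.2.2.2.1.1, rf4h9.2.1.1⟩, ⟨rf4h11.1.1, rf4h16.2.2.2.2.2.2.2.2.2.2.1.1⟩⟩
theorem rf4k214 : CfgOK (rf4c214.e, rf4c214.n) := red_ln rf4h1.2.2.2.2.2.2.2.1 ⟨⟨rf4h1.2.2.2.2.2.2.2.1.1, rf4h8.2.2.2.2.2.1.1⟩, ⟨rf4h3.2.2.2.2.2.2.2.2.2.2.2.2.2.2.2.2.2.2.2.2.2.2.2.2.2.1.1, rf4h14.2.2.2.2.2.2.2.2.2.2.1.1⟩⟩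
theorem rf4k215 : CfgOK (rf4c215.e, rf4c215.n) := red_ln rf4h1.2.2.2.2.2.2.1 ⟨rf4h1.2.2.2.2.2.2.1.1, rf4h8.2.2.2.2.1.1⟩
theorem rf4k216 : CfgOK (rf4c216.e, rf4c216.n) := red_ln rf4h1.2.2.2.2.2.1 ⟨rf4h1.2.2.2.2.2.1.1, rf4h8.2.2.2.1.1⟩
theorem rf4k217 : CfgOK (rf4c217.e, rf4c217.n) := red_ln rf4h1.2.2.2.2.1 rf4h1.2.2.2.2.1.1
theorem rf4k218 : CfgOK (rf4c218.e, rf4c218.n) := red_ln rf4h1.2.2.2.1 ⟨rf4h1.2.2.2.1.1, rf4h3.2.2.2.2.2.2.2.2.2.2.2.2.2.2.2.2.2.2.2.2.2.2.2.2.1.1⟩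
theorem rf4k219 : CfgOK (rf4c219.e, rf4c219.n) := red_ln rf4h1.2.2.1 ⟨rf4h1.2.2.1.1, rf4h3.2.2.2.2.2.2.2.2.2.2.2.2.2.2.2.2.2.2.2.2.2.2.2.1.1⟩
theorem rf4k220 : CfgOK (rf4c220.e, rf4c220.n) := red_ln rf4h1.2.1 ⟨rf4h1.2.1.1, rf4h3.2.2.2.2.2.2.2.2.2.2.2.2.2.2.2.2.2.2.2.2.2.2.1.1⟩
theorem rf4k221 : CfgOK (rf4c221.e, rf4c221.n) := red_ln rf4h1.1 ⟨⟨rf4h1.1.1, rf4h9.1.1⟩, ⟨rf4h3.2.2.2.2.2.2.2.2.2.2.2.2.2.2.2.2.2.2.2.2.2.1.1, rf4h14.2.2.2.2.2.2.2.2.2.1.1⟩⟩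
theorem rf4k222 : CfgOK (rf4c222.e, rf4c222.n) := red_ln rf4h0.2.2.2.2.2.2.2.2.2.2.2.2.2.2.2.2.2.2.2.2.1 rf4h0.2.2.2.2.2.2.2.2.2.2.2.2.2.2.2.2.2.2.2.2.1.1
theorem rf4k223 : CfgOK (rf4c223.e, rf4c223.n) := red_ln rf4h0.2.2.2.2.2.2.2.2.2.2.2.2.2.2.2.2.2.2.2.1 ⟨rf4h0.2.2.2.2.2.2.2.2.2.2.2.2.2.2.2.2.2.2.2.1.1, rf4h3.2.2.2.2.2.2.2.2.2.2.2.2.2.2.2.2.2.2.2.2.1.1⟩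
theorem rf4k224 : CfgOK (rf4c224.e, rf4c224.n) := red_ln rf4h0.2.2.2.2.2.2.2.2.2.2.2.2.2.2.2.2.2.2.1 ⟨rf4h0.2.2.2.2.2.2.2.2.2.2.2.2.2.2.2.2.2.2.1.1, rf4h3.2.2.2.2.2.2.2.2.2.2.2.2.2.2.2.2.2.2.2.1.1⟩
theorem rf4k225 : CfgOK (rf4c225.e, rf4c225.n) := red_ln rf4h0.2.2.2.2.2.2.2.2.2.2.2.2.2.2.2.2.2.1 ⟨rf4h0.2.2.2.2.2.2.2.2.2.2.2.2.2.2.2.2.2.1.1, rf4h3.2.2.2.2.2.2.2.2.2.2.2.2.2.2.2.2.2.2.1.1⟩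
theorem rf4k226 : CfgOK (rf4c226.e, rf4c226.n) := red_ln rf4h0.2.2.2.2.2.2.2.2.2.2.2.2.2.2.2.2.1 ⟨⟨rf4h0.2.2.2.2.2.2.2.2.2.2.2.2.2.2.2.2.1.1, rf4h8.2.2.2.2.2.2.2.2.2.2.2.2.2.2.2.2.2.2.2.2.2.2.2.2.2.2.2.2.2.1.1⟩, ⟨rf4h3.2.2.2.2.2.2.2.2.2.2.2.2.2.2.2.2.2.1.1, rf4h14.2.2.2.2.2.2.2.2.1.1⟩⟩
theorem rf4k227 : CfgOK (rf4c227.e, rf4c227.n) := red_ln rf4h0.2.2.2.2.2.2.2.2.2.2.2.2.2.2.2.1 ⟨rf4h0.2.2.2.2.2.2.2.2.2.2.2.2.2.2.2.1.1, rf4h8.2.2.2.2.2.2.2.2.2.2.2.2.2.2.2.2.2.2.1.1⟩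
theorem rf4k228 : CfgOK (rf4c228.e, rf4c228.n) := red_ln rf4h0.2.2.2.2.2.2.2.2.2.2.2.2.2.2.1 ⟨⟨rf4h0.2.2.2.2.2.2.2.2.2.2.2.2.2.2.1.1, rf4h8.2.2.2.2.2.2.2.2.2.2.2.2.2.2.2.2.2.1.1⟩, ⟨rf4h3.2.2.2.2.2.2.2.2.2.2.2.2.2.2.2.2.1.1, rf4h14.2.2.2.2.2.2.2.1.1⟩⟩
theorem rf4k229 : CfgOK (rf4c229.e, rf4c229.n) := red_ln rf4h0.2.2.2.2.2.2.2.2.2.2.2.2.2.1 ⟨rf4h0.2.2.2.2.2.2.2.2.2.2.2.2.2.1.1, rf4h3.2.2.2.2.2.2.2.2.2.2.2.2.2.2.2.1.1⟩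
theorem rf4k230 : CfgOK (rf4c230.e, rf4c230.n) := red_ln rf4h0.2.2.2.2.2.2.2.2.2.2.2.2.1 ⟨⟨rf4h0.2.2.2.2.2.2.2.2.2.2.2.2.1.1, rf4h3.2.2.2.2.2.2.2.2.2.2.2.2.2.2.1.1⟩, ⟨rf4h13.2.2.1.1, rf4h14.2.2.2.2.2.2.1.1⟩⟩
theorem rf4k231 : CfgOK (rf4c231.e, rf4c231.n) := red_ln rf4h0.2.2.2.2.2.2.2.2.2.2.2.1 ⟨⟨rf4h0.2.2.2.2.2.2.2.2.2.2.2.1.1, rf4h9.2.2.2.2.2.2.2.2.2.2.2.2.2.2.2.2.1.1⟩, ⟨rf4h3.2.2.2.2.2.2.2.2.2.2.2.2.2.1.1, rf4h14.2.2.2.2.2.1.1⟩⟩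
theorem rf4k232 : CfgOK (rf4c232.e, rf4c232.n) := red_ln rf4h0.2.2.2.2.2.2.2.2.2.2.1 ⟨rf4h0.2.2.2.2.2.2.2.2.2.2.1.1, rf4h3.2.2.2.2.2.2.2.2.2.2.2.2.1.1⟩
theorem rf4k233 : CfgOK (rf4c233.e, rf4c233.n) := red_ln rf4h0.2.2.2.2.2.2.2.2.2.1 ⟨rf4h0.2.2.2.2.2.2.2.2.2.1.1, rf4h3.2.2.2.2.2.2.2.2.2.2.2.1.1⟩
theorem rf4k234 : CfgOK (rf4c234.e, rf4c234.n) := red_ln rf4h0.2.2.2.2.2.2.2.2.1 ⟨rf4h0.2.2.2.2.2.2.2.2.1.1, rf4h3.2.2.2.2.2.2.2.2.2.2.1.1⟩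
theorem rf4k235 : CfgOK (rf4c235.e, rf4c235.n) := red_ln rf4h0.2.2.2.2.2.2.2.1 ⟨⟨rf4h0.2.2.2.2.2.2.2.1.1, rf4h3.2.2.2.2.2.2.2.2.2.1.1⟩, ⟨rf4h8.2.2.2.2.2.2.2.2.2.2.2.2.2.2.2.2.2.2.2.2.2.2.2.2.2.2.2.2.1.1, rf4h14.2.2.2.2.1.1⟩⟩
theorem rf4k236 : CfgOK (rf4c236.e, rf4c236.n) := red_ln rf4h0.2.2.2.2.2.2.1 ⟨⟨rf4h0.2.2.2.2.2.2.1.1, rf4h8.2.2.2.2.2.2.2.2.2.2.2.2.2.2.2.2.2.2.2.2.2.2.2.2.2.2.2.1.1⟩, ⟨rf4h3.2.2.2.2.2.2.2.2.1.1, rf4h14.2.2.2.1.1⟩⟩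
theorem rf4k237 : CfgOK (rf4c237.e, rf4c237.n) := red_ln rf4h0.2.2.2.2.2.1 ⟨rf4h0.2.2.2.2.2.1.1, rf4h9.2.2.2.2.2.2.2.2.2.2.2.2.2.2.2.1.1⟩
theorem rf4k238 : CfgOK (rf4c238.e, rf4c238.n) := red_ln rf4h0.2.2.2.2.1 ⟨rf4h0.2.2.2.2.1.1, rf4h3.2.2.2.2.2.2.2.1.1⟩
theorem rf4k239 : CfgOK (rf4c239.e, rf4c239.n) := red_ln rf4h0.2.2.2.1 ⟨rf4h0.2.2.2.1.1, rf4h3.2.2.2.2.2.2.1.1⟩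
theorem rf4k240 : CfgOK (rf4c240.e, rf4c240.n) := red_ln rf4h0.2.2.1 ⟨rf4h0.2.2.1.1, rf4h3.2.2.2.2.2.1.1⟩
theorem rf4k241 : CfgOK (rf4c241.e, rf4c241.n) := red_ln rf4h0.2.1 ⟨rf4h0.2.1.1, rf4h3.2.2.2.2.1.1⟩
theorem rf4k242 : CfgOK (rf4c242.e, rf4c242.n) := red_ln rf4h0.1 ⟨rf4h0.1.1, rf4h8.2.2.2.2.2.2.2.2.2.2.2.2.2.2.2.2.1.1⟩
theorem rf4k243 : CfgOK (rf4c243.e, rf4c243.n) := red_ln rf4h19.2.2.2.2.2.2.2.2.2.2.2.2.2.2.2.2.2.2.2.2.2.2.1 ⟨⟨rf4h19.2.2.2.2.2.2.2.2.2.2.2.2.2.2.2.2.2.2.2.2.2.2.1.1, rf4h13.2.1.1⟩, ⟨rf4h11.2.2.2.2.2.2.2.2.2.2.2.2.2.2.2.2.2.2.2.2.2.2.2.2.2.2.2.1.1, rf4h16.2.2.2.2.2.2.2.2.2.1.1⟩⟩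
theorem rf4k244 : CfgOK (rf4c244.e, rf4c244.n) := red_ln rf4h19.2.2.2.2.2.2.2.2.2.2.2.2.2.2.2.2.2.2.2.2.2.1 ⟨⟨rf4h19.2.2.2.2.2.2.2.2.2.2.2.2.2.2.2.2.2.2.2.2.2.1.1, rf4h9.2.2.2.2.2.2.2.2.2.2.2.2.2.2.1.1⟩, ⟨rf4h13.1.1, rf4h16.2.2.2.2.2.2.2.1.1⟩⟩
theorem rf4k245 : CfgOK (rf4c245.e, rf4c245.n) := red_ln rf4h19.2.2.2.2.2.2.2.2.2.2.2.2.2.2.2.2.2.2.2.2.1 ⟨rf4h19.2.2.2.2.2.2.2.2.2.2.2.2.2.2.2.2.2.2.2.2.1.1, rf4h8.2.2.2.2.2.2.2.2.2.2.2.2.2.2.2.2.2.2.2.2.2.2.2.2.2.2.1.1⟩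
theorem rf4k246 : CfgOK (rf4c246.e, rf4c246.n) := red_ln rf4h19.2.2.2.2.2.2.2.2.2.2.2.2.2.2.2.2.2.2.2.1 rf4h19.2.2.2.2.2.2.2.2.2.2.2.2.2.2.2.2.2.2.2.1.1
theorem rf4k247 : CfgOK (rf4c247.e, rf4c247.n) := red_ln rf4h19.2.2.2.2.2.2.2.2.2.2.2.2.2.2.2.2.2.2.1 rf4h19.2.2.2.2.2.2.2.2.2.2.2.2.2.2.2.2.2.2.1.1
theorem rf4k248 : CfgOK (rf4c248.e, rf4c248.n) := red_ln rf4h19.2.2.2.2.2.2.2.2.2.2.2.2.2.2.2.2.2.1 rf4h19.2.2.2.2.2.2.2.2.2.2.2.2.2.2.2.2.2.1.1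
theorem rf4k249 : CfgOK (rf4c249.e, rf4c249.n) := red_ln rf4h19.2.2.2.2.2.2.2.2.2.2.2.2.2.2.2.2.1 rf4h19.2.2.2.2.2.2.2.2.2.2.2.2.2.2.2.2.1.1
theorem rf4k250 : CfgOK (rf4c250.e, rf4c250.n) := red_ln rf4h19.2.2.2.2.2.2.2.2.2.2.2.2.2.2.2.1 rf4h19.2.2.2.2.2.2.2.2.2.2.2.2.2.2.2.1.1
theorem rf4k251 : CfgOK (rf4c251.e, rf4c251.n) := red_ln rf4h19.2.2.2.2.2.2.2.2.2.2.2.2.2.2.1 rf4h19.2.2.2.2.2.2.2.2.2.2.2.2.2.2.1.1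
theorem rf4k252 : CfgOK (rf4c252.e, rf4c252.n) := red_ln rf4h19.2.2.2.2.2.2.2.2.2.2.2.2.2.1 rf4h19.2.2.2.2.2.2.2.2.2.2.2.2.2.1.1
theorem rf4k253 : CfgOK (rf4c253.e, rf4c253.n) := red_ln rf4h19.2.2.2.2.2.2.2.2.2.2.2.2.1 ⟨rf4h19.2.2.2.2.2.2.2.2.2.2.2.2.1.1, rf4h3.2.2.2.1.1⟩
theorem rf4k254 : CfgOK (rf4c254.e, rf4c254.n) := red_ln rf4h19.2.2.2.2.2.2.2.2.2.2.2.1 ⟨rf4h19.2.2.2.2.2.2.2.2.2.2.2.1.1, rf4h11.2.2.2.2.2.2.2.2.2.2.2.2.2.2.2.2.2.2.2.2.2.2.2.2.2.2.1.1⟩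
theorem rf4k255 : CfgOK (rf4c255.e, rf4c255.n) := red_ln rf4h19.2.2.2.2.2.2.2.2.2.2.1 ⟨rf4h19.2.2.2.2.2.2.2.2.2.2.1.1, rf4h11.2.2.2.2.2.2.2.2.2.2.2.2.2.2.2.2.2.2.2.2.2.2.2.2.2.1.1⟩
theorem rf4k256 : CfgOK (rf4c256.e, rf4c256.n) := red_ln rf4h19.2.2.2.2.2.2.2.2.2.1 ⟨rf4h19.2.2.2.2.2.2.2.2.2.1.1, rf4h11.2.2.2.2.2.2.2.2.2.2.2.2.2.2.2.2.2.2.2.2.2.2.2.2.1.1⟩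
theorem rf4k257 : CfgOK (rf4c257.e, rf4c257.n) := red_ln rf4h19.2.2.2.2.2.2.2.2.1 ⟨rf4h19.2.2.2.2.2.2.2.2.1.1, rf4h11.2.2.2.2.2.2.2.2.2.2.2.2.2.2.2.2.2.2.2.2.2.2.2.1.1⟩
theorem rf4k258 : CfgOK (rf4c258.e, rf4c258.n) := red_ln rf4h19.2.2.2.2.2.2.2.1 ⟨rf4h19.2.2.2.2.2.2.2.1.1, rf4h11.2.2.2.2.2.2.2.2.2.2.2.2.2.2.2.2.2.2.2.2.2.2.1.1⟩
theorem rf4k259 : CfgOK (rf4c259.e, rf4c259.n) := red_ln rf4h19.2.2.2.2.2.2.1 ⟨rf4h19.2.2.2.2.2.2.1.1, rf4h11.2.2.2.2.2.2.2.2.2.2.2.2.2.2.2.2.2.2.2.2.2.1.1⟩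
theorem rf4k260 : CfgOK (rf4c260.e, rf4c260.n) := red_ln rf4h19.2.2.2.2.2.1 ⟨rf4h19.2.2.2.2.2.1.1, rf4h11.2.2.2.2.2.2.2.2.2.2.2.2.2.2.2.2.2.2.2.2.1.1⟩
theorem rf4k261 : CfgOK (rf4c261.e, rf4c261.n) := red_ln rf4h19.2.2.2.2.1 ⟨rf4h19.2.2.2.2.1.1, rf4h11.2.2.2.2.2.2.2.2.2.2.2.2.2.2.2.2.2.2.2.1.1⟩
theorem rf4k262 : CfgOK (rf4c262.e, rf4c262.n) := red_ln rf4h19.2.2.2.1 ⟨rf4h19.2.2.2.1.1, rf4h11.2.2.2.2.2.2.2.2.2.2.2.2.2.2.2.2.2.2.1.1⟩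
theorem rf4k263 : CfgOK (rf4c263.e, rf4c263.n) := red_ln rf4h19.2.2.1 ⟨rf4h19.2.2.1.1, rf4h11.2.2.2.2.2.2.2.2.2.2.2.2.2.2.2.2.2.1.1⟩
theorem rf4k264 : CfgOK (rf4c264.e, rf4c264.n) := red_ln rf4h19.2.1 ⟨rf4h19.2.1.1, rf4h11.2.2.2.2.2.2.2.2.2.2.2.2.2.2.2.2.1.1⟩
theorem rf4k265 : CfgOK (rf4c265.e, rf4c265.n) := red_ln rf4h19.1 ⟨rf4h19.1.1, rf4h11.2.2.2.2.2.2.2.2.2.2.2.2.2.2.2.1.1⟩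
theorem rf4k266 : CfgOK (rf4c266.e, rf4c266.n) := red_ln rf4h18.2.2.2.2.2.2.2.2.2.2.2.2.2.2.2.2.2.2.2.2.2.2.2.1 ⟨rf4h18.2.2.2.2.2.2.2.2.2.2.2.2.2.2.2.2.2.2.2.2.2.2.2.1.1, rf4h11.2.2.2.2.2.2.2.2.2.2.2.2.2.2.1.1⟩
theorem rf4k267 : CfgOK (rf4c267.e, rf4c267.n) := red_ln rf4h18.2.2.2.2.2.2.2.2.2.2.2.2.2.2.2.2.2.2.2.2.2.2.1 ⟨⟨rf4h18.2.2.2.2.2.2.2.2.2.2.2.2.2.2.2.2.2.2.2.2.2.2.1.1, rf4h11.2.2.2.2.2.2.2.2.2.2.2.2.2.1.1⟩, ⟨rf4h3.2.2.1.1, rf4h14.2.2.1.1⟩⟩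
theorem rf4k268 : CfgOK (rf4c268.e, rf4c268.n) := red_ln rf4h18.2.2.2.2.2.2.2.2.2.2.2.2.2.2.2.2.2.2.2.2.2.1 ⟨⟨rf4h18.2.2.2.2.2.2.2.2.2.2.2.2.2.2.2.2.2.2.2.2.2.1.1, rf4h11.2.2.2.2.2.2.2.2.2.2.2.2.1.1⟩, ⟨rf4h3.2.1.1, rf4h14.2.1.1⟩⟩
theorem rf4k269 : CfgOK (rf4c269.e, rf4c269.n) := red_ln rf4h18.2.2.2.2.2.2.2.2.2.2.2.2.2.2.2.2.2.2.2.2.1 ⟨⟨rf4h18.2.2.2.2.2.2.2.2.2.2.2.2.2.2.2.2.2.2.2.2.1.1, rf4h11.2.2.2.2.2.2.2.2.2.2.2.1.1⟩, ⟨rf4h11.2.2.2.2.2.2.2.2.2.2.1.1, rf4h16.2.2.2.2.2.2.2.2.1.1⟩⟩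
theorem rf4k270 : CfgOK (rf4c270.e, rf4c270.n) := red_ln rf4h18.2.2.2.2.2.2.2.2.2.2.2.2.2.2.2.2.2.2.2.1 ⟨⟨rf4h18.2.2.2.2.2.2.2.2.2.2.2.2.2.2.2.2.2.2.2.1.1, rf4h11.2.2.2.2.2.2.2.2.2.1.1⟩, ⟨rf4h8.2.2.2.2.2.2.2.2.1.1, rf4h16.2.2.2.2.2.2.1.1⟩⟩
theorem rf4k271 : CfgOK (rf4c271.e, rf4c271.n) := red_ln rf4h18.2.2.2.2.2.2.2.2.2.2.2.2.2.2.2.2.2.2.1 ⟨rf4h18.2.2.2.2.2.2.2.2.2.2.2.2.2.2.2.2.2.2.1.1, rf4h10.2.2.2.2.2.2.2.2.2.2.2.2.2.2.2.2.2.2.2.2.2.2.2.2.2.2.2.2.2.1.1⟩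
theorem rf4k272 : CfgOK (rf4c272.e, rf4c272.n) := red_ln rf4h18.2.2.2.2.2.2.2.2.2.2.2.2.2.2.2.2.2.1 ⟨rf4h18.2.2.2.2.2.2.2.2.2.2.2.2.2.2.2.2.2.1.1, rf4h10.2.2.2.2.2.2.2.2.2.2.2.2.2.2.2.2.2.2.2.2.2.2.2.2.2.2.2.2.1.1⟩
theorem rf4k273 : CfgOK (rf4c273.e, rf4c273.n) := red_ln rf4h18.2.2.2.2.2.2.2.2.2.2.2.2.2.2.2.2.1 ⟨rf4h18.2.2.2.2.2.2.2.2.2.2.2.2.2.2.2.2.1.1, rf4h10.2.2.2.2.2.2.2.2.2.2.2.2.2.2.2.2.2.2.2.2.2.2.2.2.2.2.2.1.1⟩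
theorem rf4k274 : CfgOK (rf4c274.e, rf4c274.n) := red_ln rf4h18.2.2.2.2.2.2.2.2.2.2.2.2.2.2.2.1 ⟨rf4h18.2.2.2.2.2.2.2.2.2.2.2.2.2.2.2.1.1, rf4h10.2.2.2.2.2.2.2.2.2.2.2.2.2.2.2.2.2.2.2.2.2.2.2.2.2.2.1.1⟩
theorem rf4k275 : CfgOK (rf4c275.e, rf4c275.n) := red_ln rf4h18.2.2.2.2.2.2.2.2.2.2.2.2.2.2.1 ⟨rf4h18.2.2.2.2.2.2.2.2.2.2.2.2.2.2.1.1, rf4h10.2.2.2.2.2.2.2.2.2.2.2.2.2.2.2.2.2.2.2.2.2.2.2.2.2.1.1⟩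
theorem rf4k276 : CfgOK (rf4c276.e, rf4c276.n) := red_ln rf4h18.2.2.2.2.2.2.2.2.2.2.2.2.2.1 ⟨⟨rf4h18.2.2.2.2.2.2.2.2.2.2.2.2.2.1.1, rf4h10.2.2.2.2.2.2.2.2.2.2.2.2.2.2.2.2.2.2.2.2.2.2.2.2.1.1⟩, ⟨rf4h3.1.1, rf4h14.1.1⟩⟩
theorem rf4k277 : CfgOK (rf4c277.e, rf4c277.n) := red_ln rf4h18.2.2.2.2.2.2.2.2.2.2.2.2.1 ⟨⟨rf4h18.2.2.2.2.2.2.2.2.2.2.2.2.1.1, rf4h10.2.2.2.2.2.2.2.2.2.2.2.2.2.2.2.2.2.2.2.2.2.2.2.1.1⟩, ⟨rf4h8.2.2.2.2.2.2.2.2.2.2.2.2.2.2.2.1.1, rf4h16.2.1.1⟩⟩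
theorem rf4k278 : CfgOK (rf4c278.e, rf4c278.n) := red_ln rf4h18.2.2.2.2.2.2.2.2.2.2.2.1 rf4h18.2.2.2.2.2.2.2.2.2.2.2.1.1
theorem rf4k279 : CfgOK (rf4c279.e, rf4c279.n) := red_ln rf4h18.2.2.2.2.2.2.2.2.2.2.1 rf4h18.2.2.2.2.2.2.2.2.2.2.1.1
theorem rf4k280 : CfgOK (rf4c280.e, rf4c280.n) := red_ln rf4h18.2.2.2.2.2.2.2.2.2.1 rf4h18.2.2.2.2.2.2.2.2.2.1.1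
theorem rf4k281 : CfgOK (rf4c281.e, rf4c281.n) := red_ln rf4h18.2.2.2.2.2.2.2.2.1 rf4h18.2.2.2.2.2.2.2.2.1.1
theorem rf4k282 : CfgOK (rf4c282.e, rf4c282.n) := red_ln rf4h18.2.2.2.2.2.2.2.1 rf4h18.2.2.2.2.2.2.2.1.1
theorem rf4k283 : CfgOK (rf4c283.e, rf4c283.n) := red_ln rf4h18.2.2.2.2.2.2.1 rf4h18.2.2.2.2.2.2.1.1
theorem rf4k284 : CfgOK (rf4c284.e, rf4c284.n) := red_ln rf4h18.2.2.2.2.2.1 rf4h18.2.2.2.2.2.1.1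
theorem rf4k285 : CfgOK (rf4c285.e, rf4c285.n) := red_ln rf4h18.2.2.2.2.1 rf4h18.2.2.2.2.1.1
theorem rf4k286 : CfgOK (rf4c286.e, rf4c286.n) := red_ln rf4h18.2.2.2.1 rf4h18.2.2.2.1.1
theorem rf4k287 : CfgOK (rf4c287.e, rf4c287.n) := red_ln rf4h18.2.2.1 rf4h18.2.2.1.1
theorem rf4k288 : CfgOK (rf4c288.e, rf4c288.n) := red_ln rf4h18.2.1 rf4h18.2.1.1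
theorem rf4k289 : CfgOK (rf4c289.e, rf4c289.n) := red_ln rf4h18.1 rf4h18.1.1

end Pool.Agent.Lib.G6.B
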