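import Pool.Agent.Lib.G6.BRed
import Pool.Agent.Lib.G6D.RF8

set_option autoImplicit false
set_option maxRecDepth 100000
set_option linter.all false

namespace Pool.Agent.Lib.G6.B

theorem rf8h0 : AllL LnOK rf8l0 := batch_of rf8th.1
theorem rf8h1 : AllL LnOK rf8l1 := batch_of rf8th.2.1
theorem rf8h2 : AllL LnOK rf8l10 := batch_of rf8th.2.2.2.2.2.2.2.2.2.2.1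
theorem rf8h3 : AllL LnOK rf8l11 := batch_of rf8th.2.2.2.2.2.2.2.2.2.2.2.1
theorem rf8h4 : AllL LnOK rf8l12 := batch_of rf8th.2.2.2.2.2.2.2.2.2.2.2.2.1
theorem rf8h5 : AllL LnOK rf8l13 := batch_of rf8th.2.2.2.2.2.2.2.2.2.2.2.2.2.1
theorem rf8h6 : AllL LnOK rf8l14 := batch_of rf8th.2.2.2.2.2.2.2.2.2.2.2.2.2.2.1
theorem rf8h7 : AllL LnOK rf8l15 := batch_of rf8th.2.2.2.2.2.2.2.2.2.2.2.2.2.2.2.1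
theorem rf8h8 : AllL LnOK rf8l16 := batch_of rf8th.2.2.2.2.2.2.2.2.2.2.2.2.2.2.2.2.1
theorem rf8h9 : AllL LnOK rf8l17 := batch_of rf8th.2.2.2.2.2.2.2.2.2.2.2.2.2.2.2.2.2.1
theorem rf8h10 : AllL LnOK rf8l18 := batch_of rf8th.2.2.2.2.2.2.2.2.2.2.2.2.2.2.2.2.2.2.1
theorem rf8h11 : AllL LnOK rf8l19 := batch_of rf8th.2.2.2.2.2.2.2.2.2.2.2.2.2.2.2.2.2.2.2.1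
theorem rf8h12 : AllL LnOK rf8l2 := batch_of rf8th.2.2.1
theorem rf8h13 : AllL LnOK rf8l20 := batch_of rf8th.2.2.2.2.2.2.2.2.2.2.2.2.2.2.2.2.2.2.2.2.1
theorem rf8h14 : AllL LnOK rf8l21 := batch_of rf8th.2.2.2.2.2.2.2.2.2.2.2.2.2.2.2.2.2.2.2.2.2.1
theorem rf8h15 : AllL LnOK rf8l22 := batch_of rf8th.2.2.2.2.2.2.2.2.2.2.2.2.2.2.2.2.2.2.2.2.2.2
theorem rf8h16 : AllL LnOK rf8l3 := batch_of rf8th.2.2.2.1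
theorem rf8h17 : AllL LnOK rf8l4 := batch_of rf8th.2.2.2.2.1
theorem rf8h18 : AllL LnOK rf8l5 := batch_of rf8th.2.2.2.2.2.1
theorem rf8h19 : AllL LnOK rf8l6 := batch_of rf8th.2.2.2.2.2.2.1
theorem rf8h20 : AllL LnOK rf8l7 := batch_of rf8th.2.2.2.2.2.2.2.1
theorem rf8h21 : AllL LnOK rf8l8 := batch_of rf8th.2.2.2.2.2.2.2.2.1
theorem rf8h22 : AllL LnOK rf8l9 := batch_of rf8th.2.2.2.2.2.2.2.2.2.1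
theorem rf8k0 : CfgOK (rf8c0.e, rf8c0.n) := red_ln rf8h7.2.2.2.2.2.2.2.2.2.2.2.2.2.1 ⟨rf8h7.2.2.2.2.2.2.2.2.2.2.2.2.2.1.1, rf8h8.2.2.2.2.2.2.2.2.2.2.1.1⟩
theorem rf8k1 : CfgOK (rf8c1.e, rf8c1.n) := red_ln rf8h7.2.2.2.2.2.2.2.2.2.2.2.2.1 ⟨rf8h7.2.2.2.2.2.2.2.2.2.2.2.2.1.1, rf8h9.2.2.2.2.2.2.2.2.2.1.1⟩
theorem rf8k2 : CfgOK (rf8c2.e, rf8c2.n) := red_ln rf8h7.2.2.2.2.2.2.2.2.2.2.2.1 ⟨rf8h7.2.2.2.2.2.2.2.2.2.2.2.1.1, rf8h8.2.2.2.2.2.2.2.2.2.1.1⟩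
theorem rf8k3 : CfgOK (rf8c3.e, rf8c3.n) := red_ln rf8h7.2.2.2.2.2.2.2.2.2.2.1 ⟨rf8h7.2.2.2.2.2.2.2.2.2.2.1.1, rf8h8.2.2.2.2.2.2.1.1⟩
theorem rf8k4 : CfgOK (rf8c4.e, rf8c4.n) := red_ln rf8h7.2.2.2.2.2.2.2.2.2.1 ⟨rf8h7.2.2.2.2.2.2.2.2.2.1.1, rf8h8.2.2.1.1⟩
theorem rf8k5 : CfgOK (rf8c5.e, rf8c5.n) := red_ln rf8h7.2.2.2.2.2.2.2.2.1 ⟨rf8h7.2.2.2.2.2.2.2.2.1.1, rf8h9.2.2.2.2.2.2.2.2.1.1⟩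
theorem rf8k6 : CfgOK (rf8c6.e, rf8c6.n) := red_ln rf8h7.2.2.2.2.2.2.2.1 ⟨rf8h7.2.2.2.2.2.2.2.1.1, rf8h9.2.2.2.2.2.2.1.1⟩
theorem rf8k7 : CfgOK (rf8c7.e, rf8c7.n) := red_ln rf8h7.2.2.2.2.2.2.1 rf8h7.2.2.2.2.2.2.1.1
theorem rf8k8 : CfgOK (rf8c8.e, rf8c8.n) := red_ln rf8h7.2.2.2.2.2.1 rf8h7.2.2.2.2.2.1.1
theorem rf8k9 : CfgOK (rf8c9.e, rf8c9.n) := red_ln rf8h7.2.2.2.2.1 rf8h7.2.2.2.2.1.1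
theorem rf8k10 : CfgOK (rf8c10.e, rf8c10.n) := red_ln rf8h7.2.2.2.1 rf8h7.2.2.2.1.1
theorem rf8k11 : CfgOK (rf8c11.e, rf8c11.n) := red_ln rf8h7.2.2.1 rf8h7.2.2.1.1
theorem rf8k12 : CfgOK (rf8c12.e, rf8c12.n) := red_ln rf8h7.2.1 rf8h7.2.1.1
theorem rf8k13 : CfgOK (rf8c13.e, rf8c13.n) := red_ln rf8h7.1 rf8h7.1.1
theorem rf8k14 : CfgOK (rf8c14.e, rf8c14.n) := red_ln rf8h6.2.2.2.2.2.2.2.2.2.2.2.2.2.2.1 rf8h6.2.2.2.2.2.2.2.2.2.2.2.2.2.2.1.1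
theorem rf8k15 : CfgOK (rf8c15.e, rf8c15.n) := red_ln rf8h6.2.2.2.2.2.2.2.2.2.2.2.2.2.1 rf8h6.2.2.2.2.2.2.2.2.2.2.2.2.2.1.1
theorem rf8k16 : CfgOK (rf8c16.e, rf8c16.n) := red_ln rf8h6.2.2.2.2.2.2.2.2.2.2.2.2.1 rf8h6.2.2.2.2.2.2.2.2.2.2.2.2.1.1
theorem rf8k17 : CfgOK (rf8c17.e, rf8c17.n) := red_ln rf8h6.2.2.2.2.2.2.2.2.2.2.2.1 ⟨rf8h6.2.2.2.2.2.2.2.2.2.2.2.1.1, rf8h13.1.1⟩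
theorem rf8k18 : CfgOK (rf8c18.e, rf8c18.n) := red_ln rf8h6.2.2.2.2.2.2.2.2.2.2.1 ⟨rf8h6.2.2.2.2.2.2.2.2.2.2.1.1, rf8h11.2.2.2.2.2.2.2.2.2.2.2.2.2.2.2.2.2.2.2.2.2.2.2.2.2.2.2.2.2.2.2.2.2.2.2.2.2.2.2.1.1⟩
theorem rf8k19 : CfgOK (rf8c19.e, rf8c19.n) := red_ln rf8h6.2.2.2.2.2.2.2.2.2.1 ⟨rf8h6.2.2.2.2.2.2.2.2.2.1.1, rf8h11.2.2.2.2.2.2.2.2.2.2.2.2.2.2.2.2.2.2.2.2.2.2.2.2.2.2.2.2.2.2.2.2.2.2.2.2.2.2.1.1⟩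
theorem rf8k20 : CfgOK (rf8c20.e, rf8c20.n) := red_ln rf8h6.2.2.2.2.2.2.2.2.1 ⟨rf8h6.2.2.2.2.2.2.2.2.1.1, rf8h11.2.2.2.2.2.2.2.2.2.2.2.2.2.2.2.2.2.2.2.2.2.2.2.2.2.2.2.2.2.2.2.2.2.2.2.2.2.1.1⟩
theorem rf8k21 : CfgOK (rf8c21.e, rf8c21.n) := red_ln rf8h6.2.2.2.2.2.2.2.1 ⟨rf8h6.2.2.2.2.2.2.2.1.1, rf8h11.2.2.2.2.2.2.2.2.2.2.2.2.2.2.2.2.2.2.2.2.2.2.2.2.2.2.2.2.2.2.2.2.2.2.2.2.1.1⟩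
theorem rf8k22 : CfgOK (rf8c22.e, rf8c22.n) := red_ln rf8h6.2.2.2.2.2.2.1 ⟨rf8h6.2.2.2.2.2.2.1.1, rf8h11.2.2.2.2.2.2.2.2.2.2.2.2.2.2.2.2.2.2.2.2.2.2.2.2.2.2.2.2.2.2.2.2.2.2.2.1.1⟩
theorem rf8k23 : CfgOK (rf8c23.e, rf8c23.n) := red_ln rf8h6.2.2.2.2.2.1 ⟨rf8h6.2.2.2.2.2.1.1, rf8h11.2.2.2.2.2.2.2.2.2.2.2.2.2.2.2.2.2.2.2.2.2.2.2.2.2.2.2.2.2.2.2.2.2.2.1.1⟩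
theorem rf8k24 : CfgOK (rf8c24.e, rf8c24.n) := red_ln rf8h6.2.2.2.2.1 ⟨rf8h6.2.2.2.2.1.1, rf8h11.2.2.2.2.2.2.2.2.2.2.2.2.2.2.2.2.2.2.2.2.2.2.2.2.2.2.2.2.2.2.2.2.2.1.1⟩
theorem rf8k25 : CfgOK (rf8c25.e, rf8c25.n) := red_ln rf8h6.2.2.2.1 ⟨rf8h6.2.2.2.1.1, rf8h11.2.2.2.2.2.2.2.2.2.2.2.2.2.2.2.2.2.2.2.2.2.2.2.2.2.2.2.2.2.2.2.2.1.1⟩
theorem rf8k26 : CfgOK (rf8c26.e, rf8c26.n) := red_ln rf8h6.2.2.1 ⟨⟨rf8h6.2.2.1.1, rf8h11.2.2.2.2.2.2.2.2.2.2.2.2.2.2.2.2.2.2.2.2.2.2.2.2.2.2.2.2.2.2.2.1.1⟩, ⟨rf8h8.2.2.2.2.2.2.2.2.2.2.2.2.2.2.2.2.2.2.2.1.1, rf8h14.2.2.2.2.2.2.2.2.2.2.1.1⟩⟩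
theorem rf8k27 : CfgOK (rf8c27.e, rf8c27.n) := red_ln rf8h6.2.1 ⟨rf8h6.2.1.1, rf8h9.2.2.2.2.2.2.2.1.1⟩
theorem rf8k28 : CfgOK (rf8c28.e, rf8c28.n) := red_ln rf8h6.1 ⟨rf8h6.1.1, rf8h8.1.1⟩
theorem rf8k29 : CfgOK (rf8c29.e, rf8c29.n) := red_ln rf8h5.2.2.2.2.2.2.2.2.2.2.2.2.2.1 rf8h5.2.2.2.2.2.2.2.2.2.2.2.2.2.1.1
theorem rf8k30 : CfgOK (rf8c30.e, rf8c30.n) := red_ln rf8h5.2.2.2.2.2.2.2.2.2.2.2.2.1 rf8h5.2.2.2.2.2.2.2.2.2.2.2.2.1.1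
theorem rf8k31 : CfgOK (rf8c31.e, rf8c31.n) := red_ln rf8h5.2.2.2.2.2.2.2.2.2.2.2.1 rf8h5.2.2.2.2.2.2.2.2.2.2.2.1.1
theorem rf8k32 : CfgOK (rf8c32.e, rf8c32.n) := red_ln rf8h5.2.2.2.2.2.2.2.2.2.2.1 rf8h5.2.2.2.2.2.2.2.2.2.2.1.1
theorem rf8k33 : CfgOK (rf8c33.e, rf8c33.n) := red_ln rf8h5.2.2.2.2.2.2.2.2.2.1 rf8h5.2.2.2.2.2.2.2.2.2.1.1
theorem rf8k34 : CfgOK (rf8c34.e, rf8c34.n) := red_ln rf8h5.2.2.2.2.2.2.2.2.1 rf8h5.2.2.2.2.2.2.2.2.1.1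
theorem rf8k35 : CfgOK (rf8c35.e, rf8c35.n) := red_ln rf8h5.2.2.2.2.2.2.2.1 rf8h5.2.2.2.2.2.2.2.1.1
theorem rf8k36 : CfgOK (rf8c36.e, rf8c36.n) := red_ln rf8h5.2.2.2.2.2.2.1 rf8h5.2.2.2.2.2.2.1.1
theorem rf8k37 : CfgOK (rf8c37.e, rf8c37.n) := red_ln rf8h5.2.2.2.2.2.1 rf8h5.2.2.2.2.2.1.1
theorem rf8k38 : CfgOK (rf8c38.e, rf8c38.n) := red_ln rf8h5.2.2.2.2.1 rf8h5.2.2.2.2.1.1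
theorem rf8k39 : CfgOK (rf8c39.e, rf8c39.n) := red_ln rf8h5.2.2.2.1 rf8h5.2.2.2.1.1
theorem rf8k40 : CfgOK (rf8c40.e, rf8c40.n) := red_ln rf8h5.2.2.1 rf8h5.2.2.1.1
theorem rf8k41 : CfgOK (rf8c41.e, rf8c41.n) := red_ln rf8h5.2.1 rf8h5.2.1.1
theorem rf8k42 : CfgOK (rf8c42.e, rf8c42.n) := red_ln rf8h5.1 rf8h5.1.1
theorem rf8k43 : CfgOK (rf8c43.e, rf8c43.n) := red_ln rf8h4.2.2.2.2.2.2.2.2.2.2.2.1 ⟨rf8h4.2.2.2.2.2.2.2.2.2.2.2.1.1, rf8h11.2.2.2.2.2.2.2.2.2.2.2.2.2.2.2.2.2.2.2.2.2.2.2.2.2.2.2.2.2.2.1.1⟩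
theorem rf8k44 : CfgOK (rf8c44.e, rf8c44.n) := red_ln rf8h4.2.2.2.2.2.2.2.2.2.2.1 ⟨rf8h4.2.2.2.2.2.2.2.2.2.2.1.1, rf8h11.2.2.2.2.2.2.2.2.2.2.2.2.2.2.2.2.2.2.2.2.2.2.2.2.2.2.2.2.2.1.1⟩
theorem rf8k45 : CfgOK (rf8c45.e, rf8c45.n) := red_ln rf8h4.2.2.2.2.2.2.2.2.2.1 ⟨rf8h4.2.2.2.2.2.2.2.2.2.1.1, rf8h11.2.2.2.2.2.2.2.2.2.2.2.2.2.2.2.2.2.2.2.2.2.2.2.2.2.2.2.2.1.1⟩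
theorem rf8k46 : CfgOK (rf8c46.e, rf8c46.n) := red_ln rf8h4.2.2.2.2.2.2.2.2.1 ⟨rf8h4.2.2.2.2.2.2.2.2.1.1, rf8h11.2.2.2.2.2.2.2.2.2.2.2.2.2.2.2.2.2.2.2.2.2.2.2.2.2.2.2.1.1⟩
theorem rf8k47 : CfgOK (rf8c47.e, rf8c47.n) := red_ln rf8h4.2.2.2.2.2.2.2.1 ⟨rf8h4.2.2.2.2.2.2.2.1.1, rf8h11.2.2.2.2.2.2.2.2.2.2.2.2.2.2.2.2.2.2.2.2.2.2.2.2.2.2.1.1⟩
theorem rf8k48 : CfgOK (rf8c48.e, rf8c48.n) := red_ln rf8h4.2.2.2.2.2.2.1 ⟨rf8h4.2.2.2.2.2.2.1.1, rf8h11.2.2.2.2.2.2.2.2.2.2.2.2.2.2.2.2.2.2.2.2.2.2.2.2.2.1.1⟩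
theorem rf8k49 : CfgOK (rf8c49.e, rf8c49.n) := red_ln rf8h4.2.2.2.2.2.1 ⟨rf8h4.2.2.2.2.2.1.1, rf8h11.2.2.2.2.2.2.2.2.2.2.2.2.2.2.2.2.2.2.2.2.2.2.2.2.1.1⟩
theorem rf8k50 : CfgOK (rf8c50.e, rf8c50.n) := red_ln rf8h4.2.2.2.2.1 ⟨rf8h4.2.2.2.2.1.1, rf8h11.2.2.2.2.2.2.2.2.2.2.2.2.2.2.2.2.2.2.2.2.2.2.2.1.1⟩
theorem rf8k51 : CfgOK (rf8c51.e, rf8c51.n) := red_ln rf8h4.2.2.2.1 ⟨rf8h4.2.2.2.1.1, rf8h11.2.2.2.2.2.2.2.2.2.2.2.2.2.2.2.2.2.2.2.2.2.2.1.1⟩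
theorem rf8k52 : CfgOK (rf8c52.e, rf8c52.n) := red_ln rf8h4.2.2.1 ⟨rf8h4.2.2.1.1, rf8h11.2.2.2.2.2.2.2.2.2.2.2.2.2.2.2.2.2.2.2.2.2.1.1⟩
theorem rf8k53 : CfgOK (rf8c53.e, rf8c53.n) := red_ln rf8h4.2.1 ⟨rf8h4.2.1.1, rf8h11.2.2.2.2.2.2.2.2.2.2.2.2.2.2.2.2.2.2.2.2.1.1⟩
theorem rf8k54 : CfgOK (rf8c54.e, rf8c54.n) := red_ln rf8h4.1 rf8h4.1.1
theorem rf8k55 : CfgOK (rf8c55.e, rf8c55.n) := red_ln rf8h3.2.2.2.2.2.2.2.2.2.2.2.1 rf8h3.2.2.2.2.2.2.2.2.2.2.2.1.1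
theorem rf8k56 : CfgOK (rf8c56.e, rf8c56.n) := red_ln rf8h3.2.2.2.2.2.2.2.2.2.2.1 rf8h3.2.2.2.2.2.2.2.2.2.2.1.1
theorem rf8k57 : CfgOK (rf8c57.e, rf8c57.n) := red_ln rf8h3.2.2.2.2.2.2.2.2.2.1 rf8h3.2.2.2.2.2.2.2.2.2.1.1
theorem rf8k58 : CfgOK (rf8c58.e, rf8c58.n) := red_ln rf8h3.2.2.2.2.2.2.2.2.1 rf8h3.2.2.2.2.2.2.2.2.1.1
theorem rf8k59 : CfgOK (rf8c59.e, rf8c59.n) := red_ln rf8h3.2.2.2.2.2.2.2.1 rf8h3.2.2.2.2.2.2.2.1.1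
theorem rf8k60 : CfgOK (rf8c60.e, rf8c60.n) := red_ln rf8h3.2.2.2.2.2.2.1 rf8h3.2.2.2.2.2.2.1.1
theorem rf8k61 : CfgOK (rf8c61.e, rf8c61.n) := red_ln rf8h3.2.2.2.2.2.1 ⟨rf8h3.2.2.2.2.2.1.1, rf8h11.2.2.2.2.2.2.2.2.2.2.2.2.2.2.2.2.2.2.2.1.1⟩
theorem rf8k62 : CfgOK (rf8c62.e, rf8c62.n) := red_ln rf8h3.2.2.2.2.1 ⟨rf8h3.2.2.2.2.1.1, rf8h11.2.2.2.2.2.2.2.2.2.2.2.2.2.2.2.2.2.2.1.1⟩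
theorem rf8k63 : CfgOK (rf8c63.e, rf8c63.n) := red_ln rf8h3.2.2.2.1 ⟨rf8h3.2.2.2.1.1, rf8h11.2.2.2.2.2.2.2.2.2.2.2.2.2.2.2.2.2.1.1⟩
theorem rf8k64 : CfgOK (rf8c64.e, rf8c64.n) := red_ln rf8h3.2.2.1 ⟨rf8h3.2.2.1.1, rf8h11.2.2.2.2.2.2.2.2.2.2.2.2.2.2.2.2.1.1⟩
theorem rf8k65 : CfgOK (rf8c65.e, rf8c65.n) := red_ln rf8h3.2.1 ⟨rf8h3.2.1.1, rf8h11.2.2.2.2.2.2.2.2.2.2.2.2.2.2.2.1.1⟩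
theorem rf8k66 : CfgOK (rf8c66.e, rf8c66.n) := red_ln rf8h3.1 ⟨rf8h3.1.1, rf8h11.2.2.2.2.2.2.2.2.2.2.2.2.2.2.1.1⟩
theorem rf8k67 : CfgOK (rf8c67.e, rf8c67.n) := red_ln rf8h2.2.2.2.2.2.2.2.2.2.2.2.1 ⟨rf8h2.2.2.2.2.2.2.2.2.2.2.2.1.1, rf8h11.2.2.2.2.2.2.2.2.2.2.2.2.2.1.1⟩
theorem rf8k68 : CfgOK (rf8c68.e, rf8c68.n) := red_ln rf8h2.2.2.2.2.2.2.2.2.2.2.1 ⟨rf8h2.2.2.2.2.2.2.2.2.2.2.1.1, rf8h11.2.2.2.2.2.2.2.2.2.2.2.2.1.1⟩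
theorem rf8k69 : CfgOK (rf8c69.e, rf8c69.n) := red_ln rf8h2.2.2.2.2.2.2.2.2.2.1 ⟨rf8h2.2.2.2.2.2.2.2.2.2.1.1, rf8h11.2.2.2.2.2.2.2.2.2.2.2.1.1⟩
theorem rf8k70 : CfgOK (rf8c70.e, rf8c70.n) := red_ln rf8h2.2.2.2.2.2.2.2.2.1 ⟨⟨rf8h2.2.2.2.2.2.2.2.2.1.1, rf8h11.2.2.2.2.2.2.2.2.2.2.1.1⟩, ⟨rf8h9.2.2.2.2.2.2.2.2.2.2.2.2.1.1, rf8h14.2.2.2.2.2.2.2.2.2.1.1⟩⟩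
theorem rf8k71 : CfgOK (rf8c71.e, rf8c71.n) := red_ln rf8h2.2.2.2.2.2.2.2.1 ⟨⟨rf8h2.2.2.2.2.2.2.2.1.1, rf8h8.2.2.2.2.2.2.2.2.2.2.2.2.2.2.2.2.2.1.1⟩, ⟨rf8h11.2.2.2.2.2.2.2.2.2.1.1, rf8h14.2.2.2.2.2.2.2.2.1.1⟩⟩
theorem rf8k72 : CfgOK (rf8c72.e, rf8c72.n) := red_ln rf8h2.2.2.2.2.2.2.1 ⟨rf8h2.2.2.2.2.2.2.1.1, rf8h9.2.2.2.2.1.1⟩
theorem rf8k73 : CfgOK (rf8c73.e, rf8c73.n) := red_ln rf8h2.2.2.2.2.2.1 ⟨rf8h2.2.2.2.2.2.1.1, rf8h9.2.2.2.1.1⟩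
theorem rf8k74 : CfgOK (rf8c74.e, rf8c74.n) := red_ln rf8h2.2.2.2.2.1 ⟨⟨rf8h2.2.2.2.2.1.1, rf8h9.2.1.1⟩, ⟨rf8h8.2.2.2.2.2.2.2.2.2.2.2.2.2.2.2.2.2.2.1.1, rf8h15.1.1⟩⟩
theorem rf8k75 : CfgOK (rf8c75.e, rf8c75.n) := red_ln rf8h2.2.2.2.1 rf8h2.2.2.2.1.1
theorem rf8k76 : CfgOK (rf8c76.e, rf8c76.n) := red_ln rf8h2.2.2.1 rf8h2.2.2.1.1
theorem rf8k77 : CfgOK (rf8c77.e, rf8c77.n) := red_ln rf8h2.2.1 rf8h2.2.1.1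
theorem rf8k78 : CfgOK (rf8c78.e, rf8c78.n) := red_ln rf8h2.1 rf8h2.1.1
theorem rf8k79 : CfgOK (rf8c79.e, rf8c79.n) := red_ln rf8h22.2.2.2.2.2.2.2.2.2.2.2.1 rf8h22.2.2.2.2.2.2.2.2.2.2.2.1.1
theorem rf8k80 : CfgOK (rf8c80.e, rf8c80.n) := red_ln rf8h22.2.2.2.2.2.2.2.2.2.2.1 rf8h22.2.2.2.2.2.2.2.2.2.2.1.1
theorem rf8k81 : CfgOK (rf8c81.e, rf8c81.n) := red_ln rf8h22.2.2.2.2.2.2.2.2.2.1 rf8h22.2.2.2.2.2.2.2.2.2.1.1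
theorem rf8k82 : CfgOK (rf8c82.e, rf8c82.n) := red_ln rf8h22.2.2.2.2.2.2.2.2.1 rf8h22.2.2.2.2.2.2.2.2.1.1
theorem rf8k83 : CfgOK (rf8c83.e, rf8c83.n) := red_ln rf8h22.2.2.2.2.2.2.2.1 ⟨rf8h22.2.2.2.2.2.2.2.1.1, rf8h11.2.2.2.2.2.2.2.2.1.1⟩
theorem rf8k84 : CfgOK (rf8c84.e, rf8c84.n) := red_ln rf8h22.2.2.2.2.2.2.1 ⟨rf8h22.2.2.2.2.2.2.1.1, rf8h11.2.2.2.2.2.2.2.1.1⟩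
theorem rf8k85 : CfgOK (rf8c85.e, rf8c85.n) := red_ln rf8h22.2.2.2.2.2.1 ⟨rf8h22.2.2.2.2.2.1.1, rf8h11.2.2.2.2.2.2.1.1⟩
theorem rf8k86 : CfgOK (rf8c86.e, rf8c86.n) := red_ln rf8h22.2.2.2.2.1 ⟨rf8h22.2.2.2.2.1.1, rf8h11.2.2.2.2.2.1.1⟩
theorem rf8k87 : CfgOK (rf8c87.e, rf8c87.n) := red_ln rf8h22.2.2.2.1 ⟨rf8h22.2.2.2.1.1, rf8h11.2.2.2.2.1.1⟩
theorem rf8k88 : CfgOK (rf8c88.e, rf8c88.n) := red_ln rf8h22.2.2.1 ⟨rf8h22.2.2.1.1, rf8h11.2.2.2.1.1⟩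
theorem rf8k89 : CfgOK (rf8c89.e, rf8c89.n) := red_ln rf8h22.2.1 ⟨rf8h22.2.1.1, rf8h11.2.2.1.1⟩
theorem rf8k90 : CfgOK (rf8c90.e, rf8c90.n) := red_ln rf8h22.1 ⟨rf8h22.1.1, rf8h11.2.1.1⟩
theorem rf8k91 : CfgOK (rf8c91.e, rf8c91.n) := red_ln rf8h21.2.2.2.2.2.2.2.2.1 ⟨rf8h21.2.2.2.2.2.2.2.2.1.1, rf8h11.1.1⟩
theorem rf8k92 : CfgOK (rf8c92.e, rf8c92.n) := red_ln rf8h21.2.2.2.2.2.2.2.1 ⟨rf8h21.2.2.2.2.2.2.2.1.1, rf8h10.2.2.2.2.2.2.2.2.2.2.2.2.2.2.2.2.2.2.2.2.2.2.2.2.2.2.2.2.2.2.2.2.2.2.2.2.2.2.2.1.1⟩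
theorem rf8k93 : CfgOK (rf8c93.e, rf8c93.n) := red_ln rf8h21.2.2.2.2.2.2.1 ⟨rf8h21.2.2.2.2.2.2.1.1, rf8h10.2.2.2.2.2.2.2.2.2.2.2.2.2.2.2.2.2.2.2.2.2.2.2.2.2.2.2.2.2.2.2.2.2.2.2.2.2.2.1.1⟩
theorem rf8k94 : CfgOK (rf8c94.e, rf8c94.n) := red_ln rf8h21.2.2.2.2.2.1 ⟨⟨rf8h21.2.2.2.2.2.1.1, rf8h10.2.2.2.2.2.2.2.2.2.2.2.2.2.2.2.2.2.2.2.2.2.2.2.2.2.2.2.2.2.2.2.2.2.2.2.2.2.1.1⟩, ⟨rf8h9.2.2.2.2.2.2.2.2.2.2.2.2.2.2.1.1, rf8h14.2.2.2.2.2.2.2.1.1⟩⟩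
theorem rf8k95 : CfgOK (rf8c95.e, rf8c95.n) := red_ln rf8h21.2.2.2.2.1 ⟨⟨rf8h21.2.2.2.2.1.1, rf8h8.2.2.2.2.2.2.2.2.2.2.2.2.2.1.1⟩, ⟨rf8h10.2.2.2.2.2.2.2.2.2.2.2.2.2.2.2.2.2.2.2.2.2.2.2.2.2.2.2.2.2.2.2.2.2.2.2.2.1.1, rf8h14.2.2.2.2.2.2.1.1⟩⟩
theorem rf8k96 : CfgOK (rf8c96.e, rf8c96.n) := red_ln rf8h21.2.2.2.1 rf8h21.2.2.2.1.1
theorem rf8k97 : CfgOK (rf8c97.e, rf8c97.n) := red_ln rf8h21.2.2.1 rf8h21.2.2.1.1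
theorem rf8k98 : CfgOK (rf8c98.e, rf8c98.n) := red_ln rf8h21.2.1 rf8h21.2.1.1
theorem rf8k99 : CfgOK (rf8c99.e, rf8c99.n) := red_ln rf8h21.1 rf8h21.1.1
theorem rf8k100 : CfgOK (rf8c100.e, rf8c100.n) := red_ln rf8h20.2.2.2.2.2.2.2.2.1 rf8h20.2.2.2.2.2.2.2.2.1.1
theorem rf8k101 : CfgOK (rf8c101.e, rf8c101.n) := red_ln rf8h20.2.2.2.2.2.2.2.1 ⟨rf8h20.2.2.2.2.2.2.2.1.1, rf8h10.2.2.2.2.2.2.2.2.2.2.2.2.2.2.2.2.2.2.2.2.2.2.2.2.2.2.2.2.2.2.2.2.2.2.2.1.1⟩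
theorem rf8k102 : CfgOK (rf8c102.e, rf8c102.n) := red_ln rf8h20.2.2.2.2.2.2.1 ⟨rf8h20.2.2.2.2.2.2.1.1, rf8h10.2.2.2.2.2.2.2.2.2.2.2.2.2.2.2.2.2.2.2.2.2.2.2.2.2.2.2.2.2.2.2.2.2.2.1.1⟩
theorem rf8k103 : CfgOK (rf8c103.e, rf8c103.n) := red_ln rf8h20.2.2.2.2.2.1 ⟨rf8h20.2.2.2.2.2.1.1, rf8h10.2.2.2.2.2.2.2.2.2.2.2.2.2.2.2.2.2.2.2.2.2.2.2.2.2.2.2.2.2.2.2.2.2.1.1⟩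
theorem rf8k104 : CfgOK (rf8c104.e, rf8c104.n) := red_ln rf8h20.2.2.2.2.1 ⟨rf8h20.2.2.2.2.1.1, rf8h10.2.2.2.2.2.2.2.2.2.2.2.2.2.2.2.2.2.2.2.2.2.2.2.2.2.2.2.2.2.2.2.2.1.1⟩
theorem rf8k105 : CfgOK (rf8c105.e, rf8c105.n) := red_ln rf8h20.2.2.2.1 ⟨rf8h20.2.2.2.1.1, rf8h10.2.2.2.2.2.2.2.2.2.2.2.2.2.2.2.2.2.2.2.2.2.2.2.2.2.2.2.2.2.2.2.1.1⟩
theorem rf8k106 : CfgOK (rf8c106.e, rf8c106.n) := red_ln rf8h20.2.2.1 ⟨rf8h20.2.2.1.1, rf8h9.2.2.2.2.2.2.2.2.2.2.2.1.1⟩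
theorem rf8k107 : CfgOK (rf8c107.e, rf8c107.n) := red_ln rf8h20.2.1 ⟨⟨rf8h20.2.1.1, rf8h9.2.2.2.2.2.2.2.2.2.2.1.1⟩, ⟨rf8h10.2.2.2.2.2.2.2.2.2.2.2.2.2.2.2.2.2.2.2.2.2.2.2.2.2.2.2.2.2.2.1.1, rf8h14.2.2.2.2.2.1.1⟩⟩
theorem rf8k108 : CfgOK (rf8c108.e, rf8c108.n) := red_ln rf8h20.1 rf8h20.1.1
theorem rf8k109 : CfgOK (rf8c109.e, rf8c109.n) := red_ln rf8h19.2.2.2.2.2.2.2.2.1 rf8h19.2.2.2.2.2.2.2.2.1.1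
theorem rf8k110 : CfgOK (rf8c110.e, rf8c110.n) := red_ln rf8h19.2.2.2.2.2.2.2.1 rf8h19.2.2.2.2.2.2.2.1.1
theorem rf8k111 : CfgOK (rf8c111.e, rf8c111.n) := red_ln rf8h19.2.2.2.2.2.2.1 rf8h19.2.2.2.2.2.2.1.1
theorem rf8k112 : CfgOK (rf8c112.e, rf8c112.n) := red_ln rf8h19.2.2.2.2.2.1 ⟨rf8h19.2.2.2.2.2.1.1, rf8h10.2.2.2.2.2.2.2.2.2.2.2.2.2.2.2.2.2.2.2.2.2.2.2.2.2.2.2.2.2.1.1⟩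
theorem rf8k113 : CfgOK (rf8c113.e, rf8c113.n) := red_ln rf8h19.2.2.2.2.1 ⟨rf8h19.2.2.2.2.1.1, rf8h10.2.2.2.2.2.2.2.2.2.2.2.2.2.2.2.2.2.2.2.2.2.2.2.2.2.2.2.2.1.1⟩
theorem rf8k114 : CfgOK (rf8c114.e, rf8c114.n) := red_ln rf8h19.2.2.2.1 ⟨rf8h19.2.2.2.1.1, rf8h10.2.2.2.2.2.2.2.2.2.2.2.2.2.2.2.2.2.2.2.2.2.2.2.2.2.2.2.1.1⟩
theorem rf8k115 : CfgOK (rf8c115.e, rf8c115.n) := red_ln rf8h19.2.2.1 ⟨rf8h19.2.2.1.1, rf8h10.2.2.2.2.2.2.2.2.2.2.2.2.2.2.2.2.2.2.2.2.2.2.2.2.2.2.1.1⟩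
theorem rf8k116 : CfgOK (rf8c116.e, rf8c116.n) := red_ln rf8h19.2.1 ⟨rf8h19.2.1.1, rf8h10.2.2.2.2.2.2.2.2.2.2.2.2.2.2.2.2.2.2.2.2.2.2.2.2.2.1.1⟩
theorem rf8k117 : CfgOK (rf8c117.e, rf8c117.n) := red_ln rf8h19.1 ⟨rf8h19.1.1, rf8h10.2.2.2.2.2.2.2.2.2.2.2.2.2.2.2.2.2.2.2.2.2.2.2.2.1.1⟩
theorem rf8k118 : CfgOK (rf8c118.e, rf8c118.n) := red_ln rf8h18.2.2.2.2.2.2.2.2.1 ⟨rf8h18.2.2.2.2.2.2.2.2.1.1, rf8h10.2.2.2.2.2.2.2.2.2.2.2.2.2.2.2.2.2.2.2.2.2.2.2.1.1⟩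
theorem rf8k119 : CfgOK (rf8c119.e, rf8c119.n) := red_ln rf8h18.2.2.2.2.2.2.2.1 ⟨⟨rf8h18.2.2.2.2.2.2.2.1.1, rf8h10.2.2.2.2.2.2.2.2.2.2.2.2.2.2.2.2.2.2.2.2.2.2.1.1⟩, ⟨rf8h8.2.2.2.2.2.2.2.2.2.2.2.2.2.2.2.1.1, rf8h14.2.2.2.2.1.1⟩⟩
theorem rf8k120 : CfgOK (rf8c120.e, rf8c120.n) := red_ln rf8h18.2.2.2.2.2.2.1 ⟨⟨rf8h18.2.2.2.2.2.2.1.1, rf8h10.2.2.2.2.2.2.2.2.2.2.2.2.2.2.2.2.2.2.2.2.2.1.1⟩, ⟨rf8h9.1.1, rf8h14.2.2.2.1.1⟩⟩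
theorem rf8k121 : CfgOK (rf8c121.e, rf8c121.n) := red_ln rf8h18.2.2.2.2.2.1 ⟨rf8h18.2.2.2.2.2.1.1, rf8h8.2.2.2.2.2.2.2.2.2.2.2.2.2.2.2.2.1.1⟩
theorem rf8k122 : CfgOK (rf8c122.e, rf8c122.n) := red_ln rf8h18.2.2.2.2.1 ⟨rf8h18.2.2.2.2.1.1, rf8h10.2.2.2.2.2.2.2.2.2.2.2.2.2.2.2.2.2.2.2.2.1.1⟩
theorem rf8k123 : CfgOK (rf8c123.e, rf8c123.n) := red_ln rf8h18.2.2.2.1 ⟨⟨rf8h18.2.2.2.1.1, rf8h8.2.2.2.2.2.2.2.2.2.2.2.2.2.2.1.1⟩, ⟨rf8h10.2.2.2.2.2.2.2.2.2.2.2.2.2.2.2.2.2.2.2.1.1, rf8h14.2.2.1.1⟩⟩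
theorem rf8k124 : CfgOK (rf8c124.e, rf8c124.n) := red_ln rf8h18.2.2.1 ⟨rf8h18.2.2.1.1, rf8h8.2.2.2.2.2.1.1⟩
theorem rf8k125 : CfgOK (rf8c125.e, rf8c125.n) := red_ln rf8h18.2.1 rf8h18.2.1.1
theorem rf8k126 : CfgOK (rf8c126.e, rf8c126.n) := red_ln rf8h18.1 rf8h18.1.1
theorem rf8k127 : CfgOK (rf8c127.e, rf8c127.n) := red_ln rf8h17.2.2.2.2.2.2.2.1 ⟨rf8h17.2.2.2.2.2.2.2.1.1, rf8h10.2.2.2.2.2.2.2.2.2.2.2.2.2.2.2.2.2.2.1.1⟩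
theorem rf8k128 : CfgOK (rf8c128.e, rf8c128.n) := red_ln rf8h17.2.2.2.2.2.2.1 ⟨rf8h17.2.2.2.2.2.2.1.1, rf8h10.2.2.2.2.2.2.2.2.2.2.2.2.2.2.2.2.2.1.1⟩
theorem rf8k129 : CfgOK (rf8c129.e, rf8c129.n) := red_ln rf8h17.2.2.2.2.2.1 ⟨rf8h17.2.2.2.2.2.1.1, rf8h10.2.2.2.2.2.2.2.2.2.2.2.2.2.2.2.2.1.1⟩
theorem rf8k130 : CfgOK (rf8c130.e, rf8c130.n) := red_ln rf8h17.2.2.2.2.1 ⟨rf8h17.2.2.2.2.1.1, rf8h8.2.2.2.2.2.2.2.2.2.2.2.2.1.1⟩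
theorem rf8k131 : CfgOK (rf8c131.e, rf8c131.n) := red_ln rf8h17.2.2.2.1 ⟨rf8h17.2.2.2.1.1, rf8h8.2.2.2.2.2.2.2.2.2.2.2.1.1⟩
theorem rf8k132 : CfgOK (rf8c132.e, rf8c132.n) := red_ln rf8h17.2.2.1 ⟨rf8h17.2.2.1.1, rf8h9.2.2.2.2.2.1.1⟩
theorem rf8k133 : CfgOK (rf8c133.e, rf8c133.n) := red_ln rf8h17.2.1 ⟨rf8h17.2.1.1, rf8h10.2.2.2.2.2.2.2.2.2.2.2.2.2.2.2.1.1⟩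
theorem rf8k134 : CfgOK (rf8c134.e, rf8c134.n) := red_ln rf8h17.1 ⟨rf8h17.1.1, rf8h10.2.2.2.2.2.2.2.2.2.2.2.2.2.2.1.1⟩
theorem rf8k135 : CfgOK (rf8c135.e, rf8c135.n) := red_ln rf8h16.2.2.2.2.2.1 ⟨rf8h16.2.2.2.2.2.1.1, rf8h10.2.2.2.2.2.2.2.2.2.2.2.2.2.1.1⟩
theorem rf8k136 : CfgOK (rf8c136.e, rf8c136.n) := red_ln rf8h16.2.2.2.2.1 rf8h16.2.2.2.2.1.1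
theorem rf8k137 : CfgOK (rf8c137.e, rf8c137.n) := red_ln rf8h16.2.2.2.1 ⟨rf8h16.2.2.2.1.1, rf8h10.2.2.2.2.2.2.2.2.2.2.2.2.1.1⟩
theorem rf8k138 : CfgOK (rf8c138.e, rf8c138.n) := red_ln rf8h16.2.2.1 ⟨rf8h16.2.2.1.1, rf8h10.2.2.2.2.2.2.2.2.2.2.2.1.1⟩
theorem rf8k139 : CfgOK (rf8c139.e, rf8c139.n) := red_ln rf8h16.2.1 ⟨rf8h16.2.1.1, rf8h8.2.2.2.2.1.1⟩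
theorem rf8k140 : CfgOK (rf8c140.e, rf8c140.n) := red_ln rf8h16.1 ⟨rf8h16.1.1, rf8h10.2.2.2.2.2.2.2.2.2.2.1.1⟩
theorem rf8k141 : CfgOK (rf8c141.e, rf8c141.n) := red_ln rf8h12.2.2.2.2.2.1 ⟨rf8h12.2.2.2.2.2.1.1, rf8h10.2.2.2.2.2.2.2.2.2.1.1⟩
theorem rf8k142 : CfgOK (rf8c142.e, rf8c142.n) := red_ln rf8h12.2.2.2.2.1 rf8h12.2.2.2.2.1.1
theorem rf8k143 : CfgOK (rf8c143.e, rf8c143.n) := red_ln rf8h12.2.2.2.1 ⟨rf8h12.2.2.2.1.1, rf8h10.2.2.2.2.2.2.2.2.1.1⟩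
theorem rf8k144 : CfgOK (rf8c144.e, rf8c144.n) := red_ln rf8h12.2.2.1 ⟨rf8h12.2.2.1.1, rf8h10.2.2.2.2.2.2.2.1.1⟩
theorem rf8k145 : CfgOK (rf8c145.e, rf8c145.n) := red_ln rf8h12.2.1 ⟨rf8h12.2.1.1, rf8h10.2.2.2.2.2.2.1.1⟩
theorem rf8k146 : CfgOK (rf8c146.e, rf8c146.n) := red_ln rf8h12.1 ⟨rf8h12.1.1, rf8h8.2.2.2.2.2.2.2.2.1.1⟩
theorem rf8k147 : CfgOK (rf8c147.e, rf8c147.n) := red_ln rf8h1.2.2.2.2.2.1 rf8h1.2.2.2.2.2.1.1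
theorem rf8k148 : CfgOK (rf8c148.e, rf8c148.n) := red_ln rf8h1.2.2.2.2.1 ⟨rf8h1.2.2.2.2.1.1, rf8h10.2.2.2.2.2.1.1⟩
theorem rf8k149 : CfgOK (rf8c149.e, rf8c149.n) := red_ln rf8h1.2.2.2.1 ⟨rf8h1.2.2.2.1.1, rf8h10.2.2.2.2.1.1⟩
theorem rf8k150 : CfgOK (rf8c150.e, rf8c150.n) := red_ln rf8h1.2.2.1 ⟨rf8h1.2.2.1.1, rf8h10.2.2.2.1.1⟩
theorem rf8k151 : CfgOK (rf8c151.e, rf8c151.n) := red_ln rf8h1.2.1 ⟨rf8h1.2.1.1, rf8h8.2.2.2.1.1⟩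
theorem rf8k152 : CfgOK (rf8c152.e, rf8c152.n) := red_ln rf8h1.1 rf8h1.1.1
theorem rf8k153 : CfgOK (rf8c153.e, rf8c153.n) := red_ln rf8h0.2.2.2.2.1 ⟨⟨rf8h0.2.2.2.2.1.1, rf8h10.2.2.1.1⟩, ⟨rf8h8.2.1.1, rf8h14.2.1.1⟩⟩
theorem rf8k154 : CfgOK (rf8c154.e, rf8c154.n) := red_ln rf8h0.2.2.2.1 ⟨rf8h0.2.2.2.1.1, rf8h10.2.1.1⟩
theorem rf8k155 : CfgOK (rf8c155.e, rf8c155.n) := red_ln rf8h0.2.2.1 ⟨rf8h0.2.2.1.1, rf8h8.2.2.2.2.2.2.2.1.1⟩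
theorem rf8k156 : CfgOK (rf8c156.e, rf8c156.n) := red_ln rf8h0.2.1 ⟨⟨rf8h0.2.1.1, rf8h10.1.1⟩, ⟨rf8h9.2.2.1.1, rf8h14.1.1⟩⟩
theorem rf8k157 : CfgOK (rf8c157.e, rf8c157.n) := red_ln rf8h0.1 ⟨rf8h0.1.1, rf8h9.2.2.2.2.2.2.2.2.2.2.2.2.2.1.1⟩

end Pool.Agent.Lib.G6.B
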