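import Pool.Agent.Lib.G6D.ZC0
import Pool.Agent.Lib.G6D.ZC1
import Pool.Agent.Lib.G6D.ZC2
import Pool.Agent.Lib.G6D.ZC3
import Pool.Agent.Lib.G6D.ZC4
import Pool.Agent.Lib.G6D.ZC5
import Pool.Agent.Lib.G6D.ZC6
import Pool.Agent.Lib.G6D.ZC7
import Pool.Agent.Lib.G6D.ZC8
import Pool.Agent.Lib.G6D.ZC9
import Pool.Agent.Lib.G6D.ZC10
import Pool.Agent.Lib.G6D.ZC11
import Pool.Agent.Lib.G6D.ZC12
import Pool.Agent.Lib.G6D.ZC13
import Pool.Agent.Lib.G6D.ZC14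
import Pool.Agent.Lib.G6D.ZC15
import Pool.Agent.Lib.G6D.ZC16
import Pool.Agent.Lib.G6D.ZC17
import Pool.Agent.Lib.G6D.ZC18
import Pool.Agent.Lib.G6D.ZC19
import Pool.Agent.Lib.G6D.ZC20
import Pool.Agent.Lib.G6D.ZC21
import Pool.Agent.Lib.G6D.ZC22
import Pool.Agent.Lib.G6D.ZC23
import Pool.Agent.Lib.G6D.ZC24
import Pool.Agent.Lib.G6D.ZC25
import Pool.Agent.Lib.G6D.ZC26
import Pool.Agent.Lib.G6D.ZC27
import Pool.Agent.Lib.G6D.ZC28
import Pool.Agent.Lib.G6D.ZC29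
import Pool.Agent.Lib.G6D.ZC30
import Pool.Agent.Lib.G6D.ZC31
import Pool.Agent.Lib.G6D.ZC32
import Pool.Agent.Lib.G6D.ZC33
import Pool.Agent.Lib.G6D.ZC34
import Pool.Agent.Lib.G6D.ZC35

set_option autoImplicit false
set_option maxRecDepth 100000
set_option linter.all false

namespace Pool.Agent.Lib.G6.Z

open Pool.Agent.Lib.G6 Pool.Agent.Lib.G6.K
open Pool.Agent.Lib.MP_bfaad3_co (BT)

theorem u0 (E : GOK g) (h : Upto2 g (nat_lit 0)) : Upto2 g (nat_lit 58846) :=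
  (m35 E
  (m34 E
  (m33 E
  (m32 E
  (m31 E
  (m30 E
  (m29 E
  (m28 E
  (m27 E
  (m26 E
  (m25 E
  (m24 E
  (m23 E
  (m22 E
  (m21 E
  (m20 E
  (m19 E
  (m18 E
  (m17 E
  (m16 E
  (m15 E
  (m14 E
  (m13 E
  (m12 E
  (m11 E
  (m10 E
  (m9 E
  (m8 E
  (m7 E
  (m6 E
  (m5 E
  (m4 E
  (m3 E
  (m2 E
  (m1 E
  (m0 E
  h))))))))))))))))))))))))))))))))))))
theorem upto (E : GOK g) : Upto2 g (nat_lit 58846) :=
  (u0 E
  (upto2_zero g))
noncomputable def dV : ℕ → ℕ := T4 (nat_lit 8) (t16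
 (J1 (nat_lit 0x8300437c010018) (J1 (nat_lit 0x69002034803800a) (J1 (nat_lit 0x2034e0301a4010) (J1 (nat_lit 0x30015a010c00000) (J1 (nat_lit 0x404180200a3e8040) (nat_lit 0x10080688096)))))) z z z z z z z z z z z z z z z) Z (t16
 (nat_lit 0x1943e016224) z z z z z z z z z z z z z z z) Z
theorem rV : ckR g dV (nat_lit 58846) pV = true := by decide +kernel
noncomputable def dF : ℕ → ℕ := T4 (nat_lit 8) (t16
 (J (nat_lit 0x5c0105fffa010019) (nat_lit 0x570083004014402) (nat_lit 0x203005101ae01830) (nat_lit 0x8068ffff004006) (nat_lit 0x38020bffac020032) (nat_lit 0xae01060080a8805) (nat_lit 0x40602a2035c03060) (nat_lit 0x2e00827f9700800c)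
 (J1 (nat_lit 0x2b804180203a201) (J1 (nat_lit 0x10180e880d700c18) (J1 (nat_lit 0x2b8020be1fc02003) (J1 (nat_lit 0xae010600812880) (J1 (nat_lit 0x80604a2035c0306) (J1 (nat_lit 0x1060081688057004) (J1 (nat_lit 0x5a2035c0306015c0) (nat_lit 32960))))))))) z z z z z z z z z z z z z z z) Z (t16
 (J1 (nat_lit 0x4ba001039e01cb9a) (J1 (nat_lit 0x7403976003974c03) (nat_lit 1838))) z z z z z z z z z z z z z z z) Z
theorem rF : ckR g dF (nat_lit 58846) (pF g.R) = true := by decide +kernel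
noncomputable def dW : ℕ → ℕ := T4 (nat_lit 8) (t16
 (nat_lit 65705) z z z z z z z z z z z z z z z) Z Z Z
theorem rW : ckR g dW (nat_lit 58846) (pW g.R) = true := by decide +kernel
theorem noCtx_of (E : GOK g) : NoCtx :=
  E.noCtx (E.root (upto E) rV) (E.root (upto E) rF) (E.root (upto E) rW)

end Pool.Agent.Lib.G6.Z
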