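import Pool.Agent.Lib.G6D.ZCfgs0
import Pool.Agent.Lib.G6D.ZCfgs1
import Pool.Agent.Lib.G6D.ZCfgs2
import Pool.Agent.Lib.G6D.ZCfgs3

set_option autoImplicit false
set_option maxRecDepth 100000
set_option linter.all false

namespace Pool.Agent.Lib.G6.Z

open Pool.Agent.Lib.G6 Pool.Agent.Lib.G6.K
open Pool.Agent.Lib.MP_bfaad3_co (BT)

noncomputable def cfgs : BT (ℕ × ℕ) := (.nd (nat_lit 2276) (.nd (nat_lit 1137) (.nd (nat_lit 568) (.nd (nat_lit 283) (.nd (nat_lit 141) (.nd (nat_lit 70) (.nd (nat_lit 34) (.nd (nat_lit 16) cfgs_0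
 cfgs_17)
 (.nd (nat_lit 52) cfgs_35
 cfgs_53))
 (.nd (nat_lit 105) (.nd (nat_lit 87) cfgs_71
 cfgs_88)
 (.nd (nat_lit 123) cfgs_106
 cfgs_124)))
 (.nd (nat_lit 212) (.nd (nat_lit 176) (.nd (nat_lit 158) cfgs_142
 cfgs_159)
 (.nd (nat_lit 194) cfgs_177
 cfgs_195))
 (.nd (nat_lit 247) (.nd (nat_lit 229) cfgs_213
 cfgs_230)
 (.nd (nat_lit 265) cfgs_248
 cfgs_266))))
 (.nd (nat_lit 425) (.nd (nat_lit 354) (.nd (nat_lit 318) (.nd (nat_lit 300) cfgs_284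
 cfgs_301)
 (.nd (nat_lit 336) cfgs_319
 cfgs_337))
 (.nd (nat_lit 389) (.nd (nat_lit 371) cfgs_355
 cfgs_372)
 (.nd (nat_lit 407) cfgs_390
 cfgs_408)))
 (.nd (nat_lit 496) (.nd (nat_lit 460) (.nd (nat_lit 442) cfgs_426
 cfgs_443)
 (.nd (nat_lit 478) cfgs_461
 cfgs_479))
 (.nd (nat_lit 532) (.nd (nat_lit 514) cfgs_497
 cfgs_515)
 (.nd (nat_lit 550) cfgs_533
 cfgs_551)))))
 (.nd (nat_lit 852) (.nd (nat_lit 710) (.nd (nat_lit 639) (.nd (nat_lit 603) (.nd (nat_lit 585) cfgs_569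
 cfgs_586)
 (.nd (nat_lit 621) cfgs_604
 cfgs_622))
 (.nd (nat_lit 674) (.nd (nat_lit 656) cfgs_640
 cfgs_657)
 (.nd (nat_lit 692) cfgs_675
 cfgs_693)))
 (.nd (nat_lit 781) (.nd (nat_lit 745) (.nd (nat_lit 727) cfgs_711
 cfgs_728)
 (.nd (nat_lit 763) cfgs_746
 cfgs_764))
 (.nd (nat_lit 816) (.nd (nat_lit 798) cfgs_782
 cfgs_799)
 (.nd (nat_lit 834) cfgs_817
 cfgs_835))))
 (.nd (nat_lit 994) (.nd (nat_lit 923) (.nd (nat_lit 887) (.nd (nat_lit 869) cfgs_853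
 cfgs_870)
 (.nd (nat_lit 905) cfgs_888
 cfgs_906))
 (.nd (nat_lit 958) (.nd (nat_lit 940) cfgs_924
 cfgs_941)
 (.nd (nat_lit 976) cfgs_959
 cfgs_977)))
 (.nd (nat_lit 1065) (.nd (nat_lit 1029) (.nd (nat_lit 1011) cfgs_995
 cfgs_1012)
 (.nd (nat_lit 1047) cfgs_1030
 cfgs_1048))
 (.nd (nat_lit 1101) (.nd (nat_lit 1083) cfgs_1066
 cfgs_1084)
 (.nd (nat_lit 1119) cfgs_1102
 cfgs_1120))))))
 (.nd (nat_lit 1706) (.nd (nat_lit 1421) (.nd (nat_lit 1279) (.nd (nat_lit 1208) (.nd (nat_lit 1172) (.nd (nat_lit 1154) cfgs_1138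
 cfgs_1155)
 (.nd (nat_lit 1190) cfgs_1173
 cfgs_1191))
 (.nd (nat_lit 1243) (.nd (nat_lit 1225) cfgs_1209
 cfgs_1226)
 (.nd (nat_lit 1261) cfgs_1244
 cfgs_1262)))
 (.nd (nat_lit 1350) (.nd (nat_lit 1314) (.nd (nat_lit 1296) cfgs_1280
 cfgs_1297)
 (.nd (nat_lit 1332) cfgs_1315
 cfgs_1333))
 (.nd (nat_lit 1385) (.nd (nat_lit 1367) cfgs_1351
 cfgs_1368)
 (.nd (nat_lit 1403) cfgs_1386
 cfgs_1404))))
 (.nd (nat_lit 1563) (.nd (nat_lit 1492) (.nd (nat_lit 1456) (.nd (nat_lit 1438) cfgs_1422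
 cfgs_1439)
 (.nd (nat_lit 1474) cfgs_1457
 cfgs_1475))
 (.nd (nat_lit 1527) (.nd (nat_lit 1509) cfgs_1493
 cfgs_1510)
 (.nd (nat_lit 1545) cfgs_1528
 cfgs_1546)))
 (.nd (nat_lit 1634) (.nd (nat_lit 1598) (.nd (nat_lit 1580) cfgs_1564
 cfgs_1581)
 (.nd (nat_lit 1616) cfgs_1599
 cfgs_1617))
 (.nd (nat_lit 1670) (.nd (nat_lit 1652) cfgs_1635
 cfgs_1653)
 (.nd (nat_lit 1688) cfgs_1671
 cfgs_1689)))))
 (.nd (nat_lit 1991) (.nd (nat_lit 1848) (.nd (nat_lit 1777) (.nd (nat_lit 1741) (.nd (nat_lit 1723) cfgs_1707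
 cfgs_1724)
 (.nd (nat_lit 1759) cfgs_1742
 cfgs_1760))
 (.nd (nat_lit 1812) (.nd (nat_lit 1794) cfgs_1778
 cfgs_1795)
 (.nd (nat_lit 1830) cfgs_1813
 cfgs_1831)))
 (.nd (nat_lit 1919) (.nd (nat_lit 1883) (.nd (nat_lit 1865) cfgs_1849
 cfgs_1866)
 (.nd (nat_lit 1901) cfgs_1884
 cfgs_1902))
 (.nd (nat_lit 1955) (.nd (nat_lit 1937) cfgs_1920
 cfgs_1938)
 (.nd (nat_lit 1973) cfgs_1956
 cfgs_1974))))
 (.nd (nat_lit 2133) (.nd (nat_lit 2062) (.nd (nat_lit 2026) (.nd (nat_lit 2008) cfgs_1992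
 cfgs_2009)
 (.nd (nat_lit 2044) cfgs_2027
 cfgs_2045))
 (.nd (nat_lit 2097) (.nd (nat_lit 2079) cfgs_2063
 cfgs_2080)
 (.nd (nat_lit 2115) cfgs_2098
 cfgs_2116)))
 (.nd (nat_lit 2204) (.nd (nat_lit 2168) (.nd (nat_lit 2150) cfgs_2134
 cfgs_2151)
 (.nd (nat_lit 2186) cfgs_2169
 cfgs_2187))
 (.nd (nat_lit 2240) (.nd (nat_lit 2222) cfgs_2205
 cfgs_2223)
 (.nd (nat_lit 2258) cfgs_2241
 cfgs_2259)))))))
 (.nd (nat_lit 3415) (.nd (nat_lit 2845) (.nd (nat_lit 2560) (.nd (nat_lit 2418) (.nd (nat_lit 2347) (.nd (nat_lit 2311) (.nd (nat_lit 2293) cfgs_2277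
 cfgs_2294)
 (.nd (nat_lit 2329) cfgs_2312
 cfgs_2330))
 (.nd (nat_lit 2382) (.nd (nat_lit 2364) cfgs_2348
 cfgs_2365)
 (.nd (nat_lit 2400) cfgs_2383
 cfgs_2401)))
 (.nd (nat_lit 2489) (.nd (nat_lit 2453) (.nd (nat_lit 2435) cfgs_2419
 cfgs_2436)
 (.nd (nat_lit 2471) cfgs_2454
 cfgs_2472))
 (.nd (nat_lit 2524) (.nd (nat_lit 2506) cfgs_2490
 cfgs_2507)
 (.nd (nat_lit 2542) cfgs_2525
 cfgs_2543))))
 (.nd (nat_lit 2702) (.nd (nat_lit 2631) (.nd (nat_lit 2595) (.nd (nat_lit 2577) cfgs_2561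
 cfgs_2578)
 (.nd (nat_lit 2613) cfgs_2596
 cfgs_2614))
 (.nd (nat_lit 2666) (.nd (nat_lit 2648) cfgs_2632
 cfgs_2649)
 (.nd (nat_lit 2684) cfgs_2667
 cfgs_2685)))
 (.nd (nat_lit 2773) (.nd (nat_lit 2737) (.nd (nat_lit 2719) cfgs_2703
 cfgs_2720)
 (.nd (nat_lit 2755) cfgs_2738
 cfgs_2756))
 (.nd (nat_lit 2809) (.nd (nat_lit 2791) cfgs_2774
 cfgs_2792)
 (.nd (nat_lit 2827) cfgs_2810
 cfgs_2828)))))
 (.nd (nat_lit 3130) (.nd (nat_lit 2987) (.nd (nat_lit 2916) (.nd (nat_lit 2880) (.nd (nat_lit 2862) cfgs_2846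
 cfgs_2863)
 (.nd (nat_lit 2898) cfgs_2881
 cfgs_2899))
 (.nd (nat_lit 2951) (.nd (nat_lit 2933) cfgs_2917
 cfgs_2934)
 (.nd (nat_lit 2969) cfgs_2952
 cfgs_2970)))
 (.nd (nat_lit 3058) (.nd (nat_lit 3022) (.nd (nat_lit 3004) cfgs_2988
 cfgs_3005)
 (.nd (nat_lit 3040) cfgs_3023
 cfgs_3041))
 (.nd (nat_lit 3094) (.nd (nat_lit 3076) cfgs_3059
 cfgs_3077)
 (.nd (nat_lit 3112) cfgs_3095
 cfgs_3113))))
 (.nd (nat_lit 3272) (.nd (nat_lit 3201) (.nd (nat_lit 3165) (.nd (nat_lit 3147) cfgs_3131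
 cfgs_3148)
 (.nd (nat_lit 3183) cfgs_3166
 cfgs_3184))
 (.nd (nat_lit 3236) (.nd (nat_lit 3218) cfgs_3202
 cfgs_3219)
 (.nd (nat_lit 3254) cfgs_3237
 cfgs_3255)))
 (.nd (nat_lit 3343) (.nd (nat_lit 3307) (.nd (nat_lit 3289) cfgs_3273
 cfgs_3290)
 (.nd (nat_lit 3325) cfgs_3308
 cfgs_3326))
 (.nd (nat_lit 3379) (.nd (nat_lit 3361) cfgs_3344
 cfgs_3362)
 (.nd (nat_lit 3397) cfgs_3380
 cfgs_3398))))))
 (.nd (nat_lit 3984) (.nd (nat_lit 3699) (.nd (nat_lit 3557) (.nd (nat_lit 3486) (.nd (nat_lit 3450) (.nd (nat_lit 3432) cfgs_3416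
 cfgs_3433)
 (.nd (nat_lit 3468) cfgs_3451
 cfgs_3469))
 (.nd (nat_lit 3521) (.nd (nat_lit 3503) cfgs_3487
 cfgs_3504)
 (.nd (nat_lit 3539) cfgs_3522
 cfgs_3540)))
 (.nd (nat_lit 3628) (.nd (nat_lit 3592) (.nd (nat_lit 3574) cfgs_3558
 cfgs_3575)
 (.nd (nat_lit 3610) cfgs_3593
 cfgs_3611))
 (.nd (nat_lit 3663) (.nd (nat_lit 3645) cfgs_3629
 cfgs_3646)
 (.nd (nat_lit 3681) cfgs_3664
 cfgs_3682))))
 (.nd (nat_lit 3841) (.nd (nat_lit 3770) (.nd (nat_lit 3734) (.nd (nat_lit 3716) cfgs_3700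
 cfgs_3717)
 (.nd (nat_lit 3752) cfgs_3735
 cfgs_3753))
 (.nd (nat_lit 3805) (.nd (nat_lit 3787) cfgs_3771
 cfgs_3788)
 (.nd (nat_lit 3823) cfgs_3806
 cfgs_3824)))
 (.nd (nat_lit 3912) (.nd (nat_lit 3876) (.nd (nat_lit 3858) cfgs_3842
 cfgs_3859)
 (.nd (nat_lit 3894) cfgs_3877
 cfgs_3895))
 (.nd (nat_lit 3948) (.nd (nat_lit 3930) cfgs_3913
 cfgs_3931)
 (.nd (nat_lit 3966) cfgs_3949
 cfgs_3967)))))
 (.nd (nat_lit 4269) (.nd (nat_lit 4126) (.nd (nat_lit 4055) (.nd (nat_lit 4019) (.nd (nat_lit 4001) cfgs_3985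
 cfgs_4002)
 (.nd (nat_lit 4037) cfgs_4020
 cfgs_4038))
 (.nd (nat_lit 4090) (.nd (nat_lit 4072) cfgs_4056
 cfgs_4073)
 (.nd (nat_lit 4108) cfgs_4091
 cfgs_4109)))
 (.nd (nat_lit 4197) (.nd (nat_lit 4161) (.nd (nat_lit 4143) cfgs_4127
 cfgs_4144)
 (.nd (nat_lit 4179) cfgs_4162
 cfgs_4180))
 (.nd (nat_lit 4233) (.nd (nat_lit 4215) cfgs_4198
 cfgs_4216)
 (.nd (nat_lit 4251) cfgs_4234
 cfgs_4252))))
 (.nd (nat_lit 4411) (.nd (nat_lit 4340) (.nd (nat_lit 4304) (.nd (nat_lit 4286) cfgs_4270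
 cfgs_4287)
 (.nd (nat_lit 4322) cfgs_4305
 cfgs_4323))
 (.nd (nat_lit 4375) (.nd (nat_lit 4357) cfgs_4341
 cfgs_4358)
 (.nd (nat_lit 4393) cfgs_4376
 cfgs_4394)))
 (.nd (nat_lit 4482) (.nd (nat_lit 4446) (.nd (nat_lit 4428) cfgs_4412
 cfgs_4429)
 (.nd (nat_lit 4464) cfgs_4447
 cfgs_4465))
 (.nd (nat_lit 4518) (.nd (nat_lit 4500) cfgs_4483
 cfgs_4501)
 (.nd (nat_lit 4536) cfgs_4519
 cfgs_4537))))))))

end Pool.Agent.Lib.G6.Z
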