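import Pool.Agent.Lib.G6.KDef

set_option autoImplicit false
set_option maxRecDepth 100000
set_option linter.all false

namespace Pool.Agent.Lib.G6.Z

open Pool.Agent.Lib.G6 Pool.Agent.Lib.G6.K
open Pool.Agent.Lib.MP_bfaad3_co (BT)

noncomputable def en0 : Ent := ⟨[nat_lit 0],
  fun K p w => ⟨fun m x s1 s2 s3 s4 za ac => (K p w).1 m (Nat.shiftRight m (Nat.land (Nat.shiftRight (Nat.shiftRight m (nat_lit 34)) (Nat.land x (nat_lit 0x1ffff))) (nat_lit 0x1ffff))) s1 s2 s3 s4 (Nat.land za (Nat.shiftRight m (Nat.land (Nat.shiftRight (Nat.shiftRight m (nat_lit 34)) (Nat.land x (nat_lit 0x1ffff))) (nat_lit 0x1ffff)))) ac⟩,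
  fun K p w => ⟨fun m x s1 s2 s3 s4 za ac => (K p w).1 m (Nat.shiftRight m (Nat.land (Nat.shiftRight (Nat.shiftRight m (nat_lit 34)) (Nat.land (Nat.shiftRight x (nat_lit 17)) (nat_lit 0x1ffff))) (nat_lit 0x1ffff))) s1 s2 s3 s4 (Nat.land za (Nat.shiftRight m (Nat.land (Nat.shiftRight (Nat.shiftRight m (nat_lit 34)) (Nat.land (Nat.shiftRight x (nat_lit 17)) (nat_lit 0x1ffff))) (nat_lit 0x1ffff)))) ac⟩,
  rfl, rfl⟩
noncomputable def en1 : Ent := ⟨[nat_lit 1],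
  fun K p w => ⟨fun m x s1 s2 s3 s4 za ac => (K p w).1 m (Nat.shiftRight m (Nat.land (Nat.shiftRight (Nat.shiftRight m (nat_lit 34)) (Nat.land (Nat.shiftRight x (nat_lit 17)) (nat_lit 0x1ffff))) (nat_lit 0x1ffff))) s1 s2 s3 s4 (Nat.land za (Nat.shiftRight m (Nat.land (Nat.shiftRight (Nat.shiftRight m (nat_lit 34)) (Nat.land (Nat.shiftRight x (nat_lit 17)) (nat_lit 0x1ffff))) (nat_lit 0x1ffff)))) ac⟩,
  fun K p w => ⟨fun m x s1 s2 s3 s4 za ac => (K p w).1 m (Nat.shiftRight m (Nat.land (Nat.shiftRight (Nat.shiftRight m (nat_lit 34)) (Nat.land x (nat_lit 0x1ffff))) (nat_lit 0x1ffff))) s1 s2 s3 s4 (Nat.land za (Nat.shiftRight m (Nat.land (Nat.shiftRight (Nat.shiftRight m (nat_lit 34)) (Nat.land x (nat_lit 0x1ffff))) (nat_lit 0x1ffff)))) ac⟩,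
  rfl, rfl⟩
noncomputable def en2 : Ent := ⟨[nat_lit 2],
  fun K p w => ⟨fun m x s1 s2 s3 s4 za ac => (K p w).1 m (Nat.shiftRight m (Nat.land (Nat.shiftRight x (nat_lit 34)) (nat_lit 0x1ffff))) s1 s2 s3 s4 (Nat.land za (Nat.shiftRight m (Nat.land (Nat.shiftRight x (nat_lit 34)) (nat_lit 0x1ffff)))) ac⟩,
  fun K p w => ⟨fun m x s1 s2 s3 s4 za ac => (K p w).1 m (Nat.shiftRight m (Nat.land (Nat.shiftRight x (nat_lit 34)) (nat_lit 0x1ffff))) s1 s2 s3 s4 (Nat.land za (Nat.shiftRight m (Nat.land (Nat.shiftRight x (nat_lit 34)) (nat_lit 0x1ffff)))) ac⟩,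
  rfl, rfl⟩
noncomputable def en3 : Ent := ⟨[nat_lit 3],
  fun K p w => ⟨fun m x s1 s2 s3 s4 za ac => (K p w).1 m (Nat.shiftRight m (Nat.land x (nat_lit 0x1ffff))) s1 s2 s3 s4 za ac⟩,
  fun K p w => ⟨fun m x s1 s2 s3 s4 za ac => (K p w).1 m (Nat.shiftRight m (Nat.land (Nat.shiftRight x (nat_lit 17)) (nat_lit 0x1ffff))) s1 s2 s3 s4 za ac⟩,
  rfl, rfl⟩
noncomputable def en4 : Ent := ⟨[nat_lit 4],
  fun K p w => ⟨fun m x s1 s2 s3 s4 za ac => (K p w).1 m (Nat.shiftRight m (Nat.land (Nat.shiftRight x (nat_lit 17)) (nat_lit 0x1ffff))) s1 s2 s3 s4 za ac⟩,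
  fun K p w => ⟨fun m x s1 s2 s3 s4 za ac => (K p w).1 m (Nat.shiftRight m (Nat.land x (nat_lit 0x1ffff))) s1 s2 s3 s4 za ac⟩,
  rfl, rfl⟩
noncomputable def en5 : Ent := ⟨[nat_lit 5],
  fun K p w => ⟨fun m x s1 s2 s3 s4 za ac => (K p w).1 m (Nat.shiftRight m (Nat.land x (nat_lit 0x1ffff))) s1 s2 s3 s4 za ac⟩,
  fun K p w => ⟨fun m x s1 s2 s3 s4 za ac => (K p w).1 m (Nat.shiftRight m (Nat.land (Nat.shiftRight x (nat_lit 17)) (nat_lit 0x1ffff))) s1 s2 s3 s4 za ac⟩,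
  rfl, rfl⟩
noncomputable def en6 : Ent := ⟨[nat_lit 6],
  fun K p w => ⟨fun m x s1 s2 s3 s4 za ac => (K p w).1 m (Nat.shiftRight m (Nat.land (Nat.shiftRight x (nat_lit 17)) (nat_lit 0x1ffff))) s1 s2 s3 s4 za ac⟩,
  fun K p w => ⟨fun m x s1 s2 s3 s4 za ac => (K p w).1 m (Nat.shiftRight m (Nat.land x (nat_lit 0x1ffff))) s1 s2 s3 s4 za ac⟩,
  rfl, rfl⟩
noncomputable def en7 : Ent := ⟨[nat_lit 7],
  fun K p w => ⟨fun m x s1 s2 s3 s4 za ac => (K p w).1 m (Nat.shiftRight m (Nat.land (Nat.shiftRight x (nat_lit 34)) (nat_lit 0x1ffff))) s1 s2 s3 s4 za ac⟩,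
  fun K p w => ⟨fun m x s1 s2 s3 s4 za ac => (K p w).1 m (Nat.shiftRight m (Nat.land (Nat.shiftRight x (nat_lit 34)) (nat_lit 0x1ffff))) s1 s2 s3 s4 za ac⟩,
  rfl, rfl⟩
noncomputable def en8 : Ent := ⟨[nat_lit 8],
  fun K p w => ⟨fun m x s1 s2 s3 s4 za ac => (K p w).1 m x x s1 s2 s3 za ac⟩,
  fun K p w => ⟨fun m x s1 s2 s3 s4 za ac => (K p w).1 m x x s1 s2 s3 za ac⟩,
  rfl, rfl⟩
noncomputable def en9 : Ent := ⟨[nat_lit 9],
  fun K p w => ⟨fun m x s1 s2 s3 s4 za ac => (K p w).1 m s1 s2 s3 s4 s4 za ac⟩,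
  fun K p w => ⟨fun m x s1 s2 s3 s4 za ac => (K p w).1 m s1 s2 s3 s4 s4 za ac⟩,
  rfl, rfl⟩
noncomputable def en10 : Ent := ⟨[nat_lit 10],
  fun K p w => ⟨fun m x s1 s2 s3 s4 za ac => (K (Nat.shiftRight p (nat_lit 6)) (Nat.add w (Nat.shiftLeft (Nat.land p (nat_lit 63)) (nat_lit 64)))).1 m x s1 s2 s3 s4 za (Nat.add ac (Nat.land x (Nat.shiftLeft (Nat.land p (nat_lit 63)) (nat_lit 64))))⟩,
  fun K p w => ⟨fun m x s1 s2 s3 s4 za ac => (K (Nat.shiftRight p (nat_lit 6)) (Nat.add w (Nat.shiftLeft (Nat.land p (nat_lit 63)) (nat_lit 64)))).1 m x s1 s2 s3 s4 za (Nat.add ac (Nat.land x (Nat.shiftLeft (Nat.land p (nat_lit 63)) (nat_lit 64))))⟩,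
  rfl, rfl⟩
noncomputable def en11 : Ent := ⟨[nat_lit 11],
  fun K p w => ⟨fun m x s1 s2 s3 s4 za ac => (K (Nat.shiftRight p (nat_lit 16)) (Nat.add w (Nat.shiftLeft (Nat.land p (nat_lit 65535)) (nat_lit 70)))).1 m x s1 s2 s3 s4 za (Nat.add ac (Nat.land x (Nat.shiftLeft (Nat.land p (nat_lit 65535)) (nat_lit 70))))⟩,
  fun K p w => ⟨fun m x s1 s2 s3 s4 za ac => (K (Nat.shiftRight p (nat_lit 16)) (Nat.add w (Nat.shiftLeft (Nat.land p (nat_lit 65535)) (nat_lit 70)))).1 m x s1 s2 s3 s4 za (Nat.add ac (Nat.land (Nat.shiftRight m (Nat.land x (nat_lit 0x1ffff))) (Nat.shiftLeft (Nat.land p (nat_lit 65535)) (nat_lit 70))))⟩,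
  rfl, rfl⟩
noncomputable def en12 : Ent := ⟨[nat_lit 12],
  fun K p w => ⟨fun m x s1 s2 s3 s4 za ac => (K (Nat.shiftRight p (nat_lit 28)) (Nat.add w (plA p))).1 m x s1 s2 s3 s4 za (Nat.add ac (Nat.land x (plA p)))⟩,
  fun K p w => ⟨fun m x s1 s2 s3 s4 za ac => (K (Nat.shiftRight p (nat_lit 28)) (Nat.succ w)).1 m x s1 s2 s3 s4 za ac⟩,
  rfl, rfl⟩
noncomputable def en13 : Ent := ⟨[nat_lit 13],
  fun K p w => ⟨fun m x s1 s2 s3 s4 za ac => (K p (Nat.add w (nat_lit 0x10000000000000000))).1 m (Nat.shiftRight m (Nat.land (Nat.shiftRight x (nat_lit 34)) (nat_lit 0x1ffff))) s1 s2 s3 s4 za (Nat.add ac (Nat.land (Nat.shiftRight m (Nat.land (Nat.shiftRight x (nat_lit 34)) (nat_lit 0x1ffff))) (nat_lit 0x10000000000000000)))⟩,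
  fun K p w => ⟨fun m x s1 s2 s3 s4 za ac => (K p (Nat.add w (nat_lit 0x10000000000000000))).1 m (Nat.shiftRight m (Nat.land (Nat.shiftRight x (nat_lit 34)) (nat_lit 0x1ffff))) s1 s2 s3 s4 za (Nat.add ac (Nat.land (Nat.shiftRight m (Nat.land (Nat.shiftRight x (nat_lit 34)) (nat_lit 0x1ffff))) (nat_lit 0x10000000000000000)))⟩,
  rfl, rfl⟩
noncomputable def en14 : Ent := ⟨[nat_lit 14],
  fun K p w => ⟨fun m x s1 s2 s3 s4 za ac => (K p w).1 m x s1 s2 s3 s4 (Nat.land za x) ac⟩,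
  fun K p w => ⟨fun m x s1 s2 s3 s4 za ac => (K p w).1 m x s1 s2 s3 s4 (Nat.land za x) ac⟩,
  rfl, rfl⟩
noncomputable def en15 : Ent := ⟨[nat_lit 15],
  fun K p w => ⟨fun m x s1 s2 s3 s4 za ac => (K p (Nat.add w (nat_lit 0x10000000000000000))).1 m x s1 s2 s3 s4 za (Nat.add ac (Nat.land x (nat_lit 0x10000000000000000)))⟩,
  fun K p w => ⟨fun m x s1 s2 s3 s4 za ac => (K p (Nat.add w (nat_lit 0x10000000000000000))).1 m x s1 s2 s3 s4 za (Nat.add ac (Nat.land x (nat_lit 0x10000000000000000)))⟩,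
  rfl, rfl⟩
noncomputable def en16 : Ent := ⟨[nat_lit 16],
  fun K p w => ⟨fun m x s1 s2 s3 s4 za ac => (K (Nat.shiftRight p (nat_lit 16)) (Nat.add w (Nat.shiftLeft (Nat.land p (nat_lit 65535)) (nat_lit 70)))).1 m x s1 s2 s3 s4 za (Nat.add ac (Nat.land x (Nat.shiftLeft (Nat.land p (nat_lit 65535)) (nat_lit 70))))⟩,
  fun K p w => ⟨fun m x s1 s2 s3 s4 za ac => (K (Nat.shiftRight p (nat_lit 16)) (Nat.add w (Nat.shiftLeft (Nat.land p (nat_lit 65535)) (nat_lit 70)))).1 m x s1 s2 s3 s4 za (Nat.add ac (Nat.land (Nat.lor (Nat.shiftRight m (Nat.land x (nat_lit 0x1ffff))) (Nat.shiftRight m (Nat.land (Nat.shiftRight x (nat_lit 34)) (nat_lit 0x1ffff)))) (Nat.shiftLeft (Nat.land p (nat_lit 65535)) (nat_lit 70))))⟩,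
  rfl, rfl⟩
noncomputable def en17 : Ent := ⟨[nat_lit 4, nat_lit 11],
  fun K p w => ⟨fun m x s1 s2 s3 s4 za ac => (K (Nat.shiftRight p (nat_lit 16)) (Nat.add w (Nat.shiftLeft (Nat.land p (nat_lit 65535)) (nat_lit 70)))).1 m (Nat.shiftRight m (Nat.land (Nat.shiftRight x (nat_lit 17)) (nat_lit 0x1ffff))) s1 s2 s3 s4 za (Nat.add ac (Nat.land (Nat.shiftRight m (Nat.land (Nat.shiftRight x (nat_lit 17)) (nat_lit 0x1ffff))) (Nat.shiftLeft (Nat.land p (nat_lit 65535)) (nat_lit 70))))⟩,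
  fun K p w => ⟨fun m x s1 s2 s3 s4 za ac => (K (Nat.shiftRight p (nat_lit 16)) (Nat.add w (Nat.shiftLeft (Nat.land p (nat_lit 65535)) (nat_lit 70)))).1 m (Nat.shiftRight m (Nat.land x (nat_lit 0x1ffff))) s1 s2 s3 s4 za (Nat.add ac (Nat.land (Nat.shiftRight m (Nat.land (Nat.shiftRight m (Nat.land x (nat_lit 0x1ffff))) (nat_lit 0x1ffff))) (Nat.shiftLeft (Nat.land p (nat_lit 65535)) (nat_lit 70))))⟩,
  rfl, rfl⟩
noncomputable def en18 : Ent := ⟨[nat_lit 8, nat_lit 0],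
  fun K p w => ⟨fun m x s1 s2 s3 s4 za ac => (K p w).1 m (Nat.shiftRight m (Nat.land (Nat.shiftRight (Nat.shiftRight m (nat_lit 34)) (Nat.land x (nat_lit 0x1ffff))) (nat_lit 0x1ffff))) x s1 s2 s3 (Nat.land za (Nat.shiftRight m (Nat.land (Nat.shiftRight (Nat.shiftRight m (nat_lit 34)) (Nat.land x (nat_lit 0x1ffff))) (nat_lit 0x1ffff)))) ac⟩,
  fun K p w => ⟨fun m x s1 s2 s3 s4 za ac => (K p w).1 m (Nat.shiftRight m (Nat.land (Nat.shiftRight (Nat.shiftRight m (nat_lit 34)) (Nat.land (Nat.shiftRight x (nat_lit 17)) (nat_lit 0x1ffff))) (nat_lit 0x1ffff))) x s1 s2 s3 (Nat.land za (Nat.shiftRight m (Nat.land (Nat.shiftRight (Nat.shiftRight m (nat_lit 34)) (Nat.land (Nat.shiftRight x (nat_lit 17)) (nat_lit 0x1ffff))) (nat_lit 0x1ffff)))) ac⟩,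
  rfl, rfl⟩
noncomputable def en19 : Ent := ⟨[nat_lit 8, nat_lit 3],
  fun K p w => ⟨fun m x s1 s2 s3 s4 za ac => (K p w).1 m (Nat.shiftRight m (Nat.land x (nat_lit 0x1ffff))) x s1 s2 s3 za ac⟩,
  fun K p w => ⟨fun m x s1 s2 s3 s4 za ac => (K p w).1 m (Nat.shiftRight m (Nat.land (Nat.shiftRight x (nat_lit 17)) (nat_lit 0x1ffff))) x s1 s2 s3 za ac⟩,
  rfl, rfl⟩
noncomputable def en20 : Ent := ⟨[nat_lit 4, nat_lit 11, nat_lit 2],
  fun K p w => ⟨fun m x s1 s2 s3 s4 za ac => (K (Nat.shiftRight p (nat_lit 16)) (Nat.add w (Nat.shiftLeft (Nat.land p (nat_lit 65535)) (nat_lit 70)))).1 m (Nat.shiftRight m (Nat.land (Nat.shiftRight (Nat.shiftRight m (Nat.land (Nat.shiftRight x (nat_lit 17)) (nat_lit 0x1ffff))) (nat_lit 34)) (nat_lit 0x1ffff))) s1 s2 s3 s4 (Nat.land za (Nat.shiftRight m (Nat.land (Nat.shiftRight (Nat.shiftRight m (Nat.land (Nat.shiftRight x (nat_lit 17)) (nat_lit 0x1ffff)))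 (nat_lit 34)) (nat_lit 0x1ffff)))) (Nat.add ac (Nat.land (Nat.shiftRight m (Nat.land (Nat.shiftRight x (nat_lit 17)) (nat_lit 0x1ffff))) (Nat.shiftLeft (Nat.land p (nat_lit 65535)) (nat_lit 70))))⟩,
  fun K p w => ⟨fun m x s1 s2 s3 s4 za ac => (K (Nat.shiftRight p (nat_lit 16)) (Nat.add w (Nat.shiftLeft (Nat.land p (nat_lit 65535)) (nat_lit 70)))).1 m (Nat.shiftRight m (Nat.land (Nat.shiftRight (Nat.shiftRight m (Nat.land x (nat_lit 0x1ffff))) (nat_lit 34)) (nat_lit 0x1ffff))) s1 s2 s3 s4 (Nat.land za (Nat.shiftRight m (Nat.land (Nat.shiftRight (Nat.shiftRight m (Nat.land x (nat_lit 0x1ffff))) (nat_lit 34)) (nat_lit 0x1ffff)))) (Nat.add ac (Nat.land (Nat.shiftRight m (Nat.land (Nat.shiftRight m (Nat.land x (nat_lit 0x1ffff))) (nat_lit 0x1ffff))) (Nat.shiftLeft (Nat.land p (nat_lit 65535)) (nat_lit 70))))⟩,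
  rfl, rfl⟩
noncomputable def en21 : Ent := ⟨[nat_lit 7, nat_lit 10],
  fun K p w => ⟨fun m x s1 s2 s3 s4 za ac => (K (Nat.shiftRight p (nat_lit 6)) (Nat.add w (Nat.shiftLeft (Nat.land p (nat_lit 63)) (nat_lit 64)))).1 m (Nat.shiftRight m (Nat.land (Nat.shiftRight x (nat_lit 34)) (nat_lit 0x1ffff))) s1 s2 s3 s4 za (Nat.add ac (Nat.land (Nat.shiftRight m (Nat.land (Nat.shiftRight x (nat_lit 34)) (nat_lit 0x1ffff))) (Nat.shiftLeft (Nat.land p (nat_lit 63)) (nat_lit 64))))⟩,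
  fun K p w => ⟨fun m x s1 s2 s3 s4 za ac => (K (Nat.shiftRight p (nat_lit 6)) (Nat.add w (Nat.shiftLeft (Nat.land p (nat_lit 63)) (nat_lit 64)))).1 m (Nat.shiftRight m (Nat.land (Nat.shiftRight x (nat_lit 34)) (nat_lit 0x1ffff))) s1 s2 s3 s4 za (Nat.add ac (Nat.land (Nat.shiftRight m (Nat.land (Nat.shiftRight x (nat_lit 34)) (nat_lit 0x1ffff))) (Nat.shiftLeft (Nat.land p (nat_lit 63)) (nat_lit 64))))⟩,
  rfl, rfl⟩
noncomputable def en22 : Ent := ⟨[nat_lit 9, nat_lit 1],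
  fun K p w => ⟨fun m x s1 s2 s3 s4 za ac => (K p w).1 m (Nat.shiftRight m (Nat.land (Nat.shiftRight (Nat.shiftRight m (nat_lit 34)) (Nat.land (Nat.shiftRight s1 (nat_lit 17)) (nat_lit 0x1ffff))) (nat_lit 0x1ffff))) s2 s3 s4 s4 (Nat.land za (Nat.shiftRight m (Nat.land (Nat.shiftRight (Nat.shiftRight m (nat_lit 34)) (Nat.land (Nat.shiftRight s1 (nat_lit 17)) (nat_lit 0x1ffff))) (nat_lit 0x1ffff)))) ac⟩,
  fun K p w => ⟨fun m x s1 s2 s3 s4 za ac => (K p w).1 m (Nat.shiftRight m (Nat.land (Nat.shiftRight (Nat.shiftRight m (nat_lit 34)) (Nat.land s1 (nat_lit 0x1ffff))) (nat_lit 0x1ffff))) s2 s3 s4 s4 (Nat.land za (Nat.shiftRight m (Nat.land (Nat.shiftRight (Nat.shiftRight m (nat_lit 34)) (Nat.land s1 (nat_lit 0x1ffff))) (nat_lit 0x1ffff)))) ac⟩,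
  rfl, rfl⟩
noncomputable def en23 : Ent := ⟨[nat_lit 9, nat_lit 4, nat_lit 11, nat_lit 2],
  fun K p w => ⟨fun m x s1 s2 s3 s4 za ac => (K (Nat.shiftRight p (nat_lit 16)) (Nat.add w (Nat.shiftLeft (Nat.land p (nat_lit 65535)) (nat_lit 70)))).1 m (Nat.shiftRight m (Nat.land (Nat.shiftRight (Nat.shiftRight m (Nat.land (Nat.shiftRight s1 (nat_lit 17)) (nat_lit 0x1ffff))) (nat_lit 34)) (nat_lit 0x1ffff))) s2 s3 s4 s4 (Nat.land za (Nat.shiftRight m (Nat.land (Nat.shiftRight (Nat.shiftRight m (Nat.land (Nat.shiftRight s1 (nat_lit 17)) (nat_lit 0x1ffff))) (nat_lit 34)) (nat_lit 0x1ffff)))) (Nat.add ac (Nat.land (Nat.shiftRight m (Nat.land (Nat.shiftRight s1 (nat_lit 17)) (nat_lit 0x1ffff))) (Nat.shiftLeft (Nat.land p (nat_lit 65535)) (nat_lit 70))))⟩,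
  fun K p w => ⟨fun m x s1 s2 s3 s4 za ac => (K (Nat.shiftRight p (nat_lit 16)) (Nat.add w (Nat.shiftLeft (Nat.land p (nat_lit 65535)) (nat_lit 70)))).1 m (Nat.shiftRight m (Nat.land (Nat.shiftRight (Nat.shiftRight m (Nat.land s1 (nat_lit 0x1ffff))) (nat_lit 34)) (nat_lit 0x1ffff))) s2 s3 s4 s4 (Nat.land za (Nat.shiftRight m (Nat.land (Nat.shiftRight (Nat.shiftRight m (Nat.land s1 (nat_lit 0x1ffff))) (nat_lit 34)) (nat_lit 0x1ffff)))) (Nat.add ac (Nat.land (Nat.shiftRight m (Nat.land (Nat.shiftRight m (Nat.land s1 (nat_lit 0x1ffff))) (nat_lit 0x1ffff))) (Nat.shiftLeft (Nat.land p (nat_lit 65535)) (nat_lit 70))))⟩,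
  rfl, rfl⟩
noncomputable def en24 : Ent := ⟨[nat_lit 2, nat_lit 11],
  fun K p w => ⟨fun m x s1 s2 s3 s4 za ac => (K (Nat.shiftRight p (nat_lit 16)) (Nat.add w (Nat.shiftLeft (Nat.land p (nat_lit 65535)) (nat_lit 70)))).1 m (Nat.shiftRight m (Nat.land (Nat.shiftRight x (nat_lit 34)) (nat_lit 0x1ffff))) s1 s2 s3 s4 (Nat.land za (Nat.shiftRight m (Nat.land (Nat.shiftRight x (nat_lit 34)) (nat_lit 0x1ffff)))) (Nat.add ac (Nat.land (Nat.shiftRight m (Nat.land (Nat.shiftRight x (nat_lit 34)) (nat_lit 0x1ffff))) (Nat.shiftLeft (Nat.land p (nat_lit 65535)) (nat_lit 70))))⟩,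
  fun K p w => ⟨fun m x s1 s2 s3 s4 za ac => (K (Nat.shiftRight p (nat_lit 16)) (Nat.add w (Nat.shiftLeft (Nat.land p (nat_lit 65535)) (nat_lit 70)))).1 m (Nat.shiftRight m (Nat.land (Nat.shiftRight x (nat_lit 34)) (nat_lit 0x1ffff))) s1 s2 s3 s4 (Nat.land za (Nat.shiftRight m (Nat.land (Nat.shiftRight x (nat_lit 34)) (nat_lit 0x1ffff)))) (Nat.add ac (Nat.land (Nat.shiftRight m (Nat.land (Nat.shiftRight m (Nat.land (Nat.shiftRight x (nat_lit 34)) (nat_lit 0x1ffff))) (nat_lit 0x1ffff))) (Nat.shiftLeft (Nat.land p (nat_lit 65535)) (nat_lit 70))))⟩,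
  rfl, rfl⟩
noncomputable def en25 : Ent := ⟨[nat_lit 3, nat_lit 11],
  fun K p w => ⟨fun m x s1 s2 s3 s4 za ac => (K (Nat.shiftRight p (nat_lit 16)) (Nat.add w (Nat.shiftLeft (Nat.land p (nat_lit 65535)) (nat_lit 70)))).1 m (Nat.shiftRight m (Nat.land x (nat_lit 0x1ffff))) s1 s2 s3 s4 za (Nat.add ac (Nat.land (Nat.shiftRight m (Nat.land x (nat_lit 0x1ffff))) (Nat.shiftLeft (Nat.land p (nat_lit 65535)) (nat_lit 70))))⟩,
  fun K p w => ⟨fun m x s1 s2 s3 s4 za ac => (K (Nat.shiftRight p (nat_lit 16)) (Nat.add w (Nat.shiftLeft (Nat.land p (nat_lit 65535)) (nat_lit 70)))).1 m (Nat.shiftRight m (Nat.land (Nat.shiftRight x (nat_lit 17)) (nat_lit 0x1ffff))) s1 s2 s3 s4 za (Nat.add ac (Nat.land (Nat.shiftRight m (Nat.land (Nat.shiftRight m (Nat.land (Nat.shiftRight x (nat_lit 17)) (nat_lit 0x1ffff))) (nat_lit 0x1ffff))) (Nat.shiftLeft (Nat.land p (nat_lit 65535)) (nat_lit 70))))⟩,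
  rfl, rfl⟩
noncomputable def en26 : Ent := ⟨[nat_lit 7, nat_lit 10, nat_lit 5],
  fun K p w => ⟨fun m x s1 s2 s3 s4 za ac => (K (Nat.shiftRight p (nat_lit 6)) (Nat.add w (Nat.shiftLeft (Nat.land p (nat_lit 63)) (nat_lit 64)))).1 m (Nat.shiftRight m (Nat.land (Nat.shiftRight m (Nat.land (Nat.shiftRight x (nat_lit 34)) (nat_lit 0x1ffff))) (nat_lit 0x1ffff))) s1 s2 s3 s4 za (Nat.add ac (Nat.land (Nat.shiftRight m (Nat.land (Nat.shiftRight x (nat_lit 34)) (nat_lit 0x1ffff))) (Nat.shiftLeft (Nat.land p (nat_lit 63)) (nat_lit 64))))⟩,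
  fun K p w => ⟨fun m x s1 s2 s3 s4 za ac => (K (Nat.shiftRight p (nat_lit 6)) (Nat.add w (Nat.shiftLeft (Nat.land p (nat_lit 63)) (nat_lit 64)))).1 m (Nat.shiftRight m (Nat.land (Nat.shiftRight (Nat.shiftRight m (Nat.land (Nat.shiftRight x (nat_lit 34)) (nat_lit 0x1ffff))) (nat_lit 17)) (nat_lit 0x1ffff))) s1 s2 s3 s4 za (Nat.add ac (Nat.land (Nat.shiftRight m (Nat.land (Nat.shiftRight x (nat_lit 34)) (nat_lit 0x1ffff))) (Nat.shiftLeft (Nat.land p (nat_lit 63)) (nat_lit 64))))⟩,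
  rfl, rfl⟩
noncomputable def en27 : Ent := ⟨[nat_lit 9, nat_lit 2],
  fun K p w => ⟨fun m x s1 s2 s3 s4 za ac => (K p w).1 m (Nat.shiftRight m (Nat.land (Nat.shiftRight s1 (nat_lit 34)) (nat_lit 0x1ffff))) s2 s3 s4 s4 (Nat.land za (Nat.shiftRight m (Nat.land (Nat.shiftRight s1 (nat_lit 34)) (nat_lit 0x1ffff)))) ac⟩,
  fun K p w => ⟨fun m x s1 s2 s3 s4 za ac => (K p w).1 m (Nat.shiftRight m (Nat.land (Nat.shiftRight s1 (nat_lit 34)) (nat_lit 0x1ffff))) s2 s3 s4 s4 (Nat.land za (Nat.shiftRight m (Nat.land (Nat.shiftRight s1 (nat_lit 34)) (nat_lit 0x1ffff)))) ac⟩,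
  rfl, rfl⟩
noncomputable def en28 : Ent := ⟨[nat_lit 8, nat_lit 3, nat_lit 11],
  fun K p w => ⟨fun m x s1 s2 s3 s4 za ac => (K (Nat.shiftRight p (nat_lit 16)) (Nat.add w (Nat.shiftLeft (Nat.land p (nat_lit 65535)) (nat_lit 70)))).1 m (Nat.shiftRight m (Nat.land x (nat_lit 0x1ffff))) x s1 s2 s3 za (Nat.add ac (Nat.land (Nat.shiftRight m (Nat.land x (nat_lit 0x1ffff))) (Nat.shiftLeft (Nat.land p (nat_lit 65535)) (nat_lit 70))))⟩,
  fun K p w => ⟨fun m x s1 s2 s3 s4 za ac => (K (Nat.shiftRight p (nat_lit 16)) (Nat.add w (Nat.shiftLeft (Nat.land p (nat_lit 65535)) (nat_lit 70)))).1 m (Nat.shiftRight m (Nat.land (Nat.shiftRight x (nat_lit 17)) (nat_lit 0x1ffff))) x s1 s2 s3 za (Nat.add ac (Nat.land (Nat.shiftRight m (Nat.land (Nat.shiftRight m (Nat.land (Nat.shiftRight x (nat_lit 17)) (nat_lit 0x1ffff))) (nat_lit 0x1ffff))) (Nat.shiftLeft (Nat.land p (nat_lit 65535)) (nat_lit 70))))⟩,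
  rfl, rfl⟩
noncomputable def en29 : Ent := ⟨[nat_lit 16, nat_lit 5],
  fun K p w => ⟨fun m x s1 s2 s3 s4 za ac => (K (Nat.shiftRight p (nat_lit 16)) (Nat.add w (Nat.shiftLeft (Nat.land p (nat_lit 65535)) (nat_lit 70)))).1 m (Nat.shiftRight m (Nat.land x (nat_lit 0x1ffff))) s1 s2 s3 s4 za (Nat.add ac (Nat.land x (Nat.shiftLeft (Nat.land p (nat_lit 65535)) (nat_lit 70))))⟩,
  fun K p w => ⟨fun m x s1 s2 s3 s4 za ac => (K (Nat.shiftRight p (nat_lit 16)) (Nat.add w (Nat.shiftLeft (Nat.land p (nat_lit 65535)) (nat_lit 70)))).1 m (Nat.shiftRight m (Nat.land (Nat.shiftRight x (nat_lit 17)) (nat_lit 0x1ffff))) s1 s2 s3 s4 za (Nat.add ac (Nat.land (Nat.lor (Nat.shiftRight m (Nat.land x (nat_lit 0x1ffff))) (Nat.shiftRight m (Nat.land (Nat.shiftRight x (nat_lit 34)) (nat_lit 0x1ffff)))) (Nat.shiftLeft (Nat.land p (nat_lit 65535)) (nat_lit 70))))⟩,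
  rfl, rfl⟩
noncomputable def en30 : Ent := ⟨[nat_lit 8, nat_lit 5],
  fun K p w => ⟨fun m x s1 s2 s3 s4 za ac => (K p w).1 m (Nat.shiftRight m (Nat.land x (nat_lit 0x1ffff))) x s1 s2 s3 za ac⟩,
  fun K p w => ⟨fun m x s1 s2 s3 s4 za ac => (K p w).1 m (Nat.shiftRight m (Nat.land (Nat.shiftRight x (nat_lit 17)) (nat_lit 0x1ffff))) x s1 s2 s3 za ac⟩,
  rfl, rfl⟩
noncomputable def en31 : Ent := ⟨[nat_lit 8, nat_lit 0, nat_lit 11],
  fun K p w => ⟨fun m x s1 s2 s3 s4 za ac => (K (Nat.shiftRight p (nat_lit 16)) (Nat.add w (Nat.shiftLeft (Nat.land p (nat_lit 65535)) (nat_lit 70)))).1 m (Nat.shiftRight m (Nat.land (Nat.shiftRight (Nat.shiftRight m (nat_lit 34)) (Nat.land x (nat_lit 0x1ffff))) (nat_lit 0x1ffff))) x s1 s2 s3 (Nat.land za (Nat.shiftRight m (Nat.land (Nat.shiftRight (Nat.shiftRight m (nat_lit 34)) (Nat.land x (nat_lit 0x1ffff))) (nat_lit 0x1ffff)))) (Nat.add ac (Nat.land (Nat.shiftRight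 m (Nat.land (Nat.shiftRight (Nat.shiftRight m (nat_lit 34)) (Nat.land x (nat_lit 0x1ffff))) (nat_lit 0x1ffff))) (Nat.shiftLeft (Nat.land p (nat_lit 65535)) (nat_lit 70))))⟩,
  fun K p w => ⟨fun m x s1 s2 s3 s4 za ac => (K (Nat.shiftRight p (nat_lit 16)) (Nat.add w (Nat.shiftLeft (Nat.land p (nat_lit 65535)) (nat_lit 70)))).1 m (Nat.shiftRight m (Nat.land (Nat.shiftRight (Nat.shiftRight m (nat_lit 34)) (Nat.land (Nat.shiftRight x (nat_lit 17)) (nat_lit 0x1ffff))) (nat_lit 0x1ffff))) x s1 s2 s3 (Nat.land za (Nat.shiftRight m (Nat.land (Nat.shiftRight (Nat.shiftRight m (nat_lit 34)) (Nat.land (Nat.shiftRight x (nat_lit 17)) (nat_lit 0x1ffff))) (nat_lit 0x1ffff)))) (Nat.add ac (Nat.land (Nat.shiftRight m (Nat.land (Nat.shiftRight m (Nat.land (Nat.shiftRight (Nat.shiftRight m (nat_lit 34)) (Nat.land (Nat.shiftRight x (nat_lit 17)) (nat_lit 0x1ffff))) (nat_lit 0x1ffff))) (nat_lit 0x1ffff)))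 (Nat.shiftLeft (Nat.land p (nat_lit 65535)) (nat_lit 70))))⟩,
  rfl, rfl⟩
noncomputable def en32 : Ent := ⟨[nat_lit 7, nat_lit 10, nat_lit 16, nat_lit 5],
  fun K p w => ⟨fun m x s1 s2 s3 s4 za ac => (K (Nat.shiftRight (Nat.shiftRight p (nat_lit 6)) (nat_lit 16)) (Nat.add (Nat.add w (Nat.shiftLeft (Nat.land p (nat_lit 63)) (nat_lit 64))) (Nat.shiftLeft (Nat.land (Nat.shiftRight p (nat_lit 6)) (nat_lit 65535)) (nat_lit 70)))).1 m (Nat.shiftRight m (Nat.land (Nat.shiftRight m (Nat.land (Nat.shiftRight x (nat_lit 34)) (nat_lit 0x1ffff))) (nat_lit 0x1ffff))) s1 s2 s3 s4 za (Nat.add (Nat.add ac (Nat.land (Nat.shiftRight m (Nat.land (Nat.shiftRight x (nat_lit 34)) (nat_lit 0x1ffff))) (Nat.shiftLeft (Nat.land p (nat_lit 63)) (nat_lit 64)))) (Nat.land (Nat.shiftRight m (Nat.land (Nat.shiftRight x (nat_lit 34)) (nat_lit 0x1ffff))) (Nat.shiftLeft (Nat.land (Nat.shiftRight p (nat_lit 6)) (nat_lit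 65535)) (nat_lit 70))))⟩,
  fun K p w => ⟨fun m x s1 s2 s3 s4 za ac => (K (Nat.shiftRight (Nat.shiftRight p (nat_lit 6)) (nat_lit 16)) (Nat.add (Nat.add w (Nat.shiftLeft (Nat.land p (nat_lit 63)) (nat_lit 64))) (Nat.shiftLeft (Nat.land (Nat.shiftRight p (nat_lit 6)) (nat_lit 65535)) (nat_lit 70)))).1 m (Nat.shiftRight m (Nat.land (Nat.shiftRight (Nat.shiftRight m (Nat.land (Nat.shiftRight x (nat_lit 34)) (nat_lit 0x1ffff)))
  (nat_lit 17)) (nat_lit 0x1ffff))) s1 s2 s3 s4 za (Nat.add (Nat.add ac (Nat.land (Nat.shiftRight m (Nat.land (Nat.shiftRight x (nat_lit 34)) (nat_lit 0x1ffff))) (Nat.shiftLeft (Nat.land p (nat_lit 63)) (nat_lit 64)))) (Nat.land (Nat.lor (Nat.shiftRight m (Nat.land (Nat.shiftRight m (Nat.land (Nat.shiftRight x (nat_lit 34)) (nat_lit 0x1ffff))) (nat_lit 0x1ffff))) (Nat.shiftRight m (Nat.land (Nat.shiftRight (Nat.shiftRight m (Nat.land (Nat.shiftRight x (nat_lit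 34)) (nat_lit 0x1ffff))) (nat_lit 34)) (nat_lit 0x1ffff)))) (Nat.shiftLeft (Nat.land (Nat.shiftRight p (nat_lit 6)) (nat_lit 65535)) (nat_lit 70))))⟩,
  rfl, rfl⟩
noncomputable def en33 : Ent := ⟨[nat_lit 12, nat_lit 12],
  fun K p w => ⟨fun m x s1 s2 s3 s4 za ac => (K (Nat.shiftRight (Nat.shiftRight p (nat_lit 28)) (nat_lit 28)) (Nat.add (Nat.add w (plA p)) (plA (Nat.shiftRight p (nat_lit 28))))).1 m x s1 s2 s3 s4 za (Nat.add (Nat.add ac (Nat.land x (plA p))) (Nat.land x (plA (Nat.shiftRight p (nat_lit 28)))))⟩,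
  fun K p w => ⟨fun m x s1 s2 s3 s4 za ac => (K (Nat.shiftRight (Nat.shiftRight p (nat_lit 28)) (nat_lit 28)) (Nat.succ (Nat.succ w))).1 m x s1 s2 s3 s4 za ac⟩,
  rfl, rfl⟩
noncomputable def en34 : Ent := ⟨[nat_lit 9, nat_lit 4, nat_lit 11],
  fun K p w => ⟨fun m x s1 s2 s3 s4 za ac => (K (Nat.shiftRight p (nat_lit 16)) (Nat.add w (Nat.shiftLeft (Nat.land p (nat_lit 65535)) (nat_lit 70)))).1 m (Nat.shiftRight m (Nat.land (Nat.shiftRight s1 (nat_lit 17)) (nat_lit 0x1ffff))) s2 s3 s4 s4 za (Nat.add ac (Nat.land (Nat.shiftRight m (Nat.land (Nat.shiftRight s1 (nat_lit 17)) (nat_lit 0x1ffff))) (Nat.shiftLeft (Nat.land p (nat_lit 65535)) (nat_lit 70))))⟩,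
  fun K p w => ⟨fun m x s1 s2 s3 s4 za ac => (K (Nat.shiftRight p (nat_lit 16)) (Nat.add w (Nat.shiftLeft (Nat.land p (nat_lit 65535)) (nat_lit 70)))).1 m (Nat.shiftRight m (Nat.land s1 (nat_lit 0x1ffff))) s2 s3 s4 s4 za (Nat.add ac (Nat.land (Nat.shiftRight m (Nat.land (Nat.shiftRight m (Nat.land s1 (nat_lit 0x1ffff))) (nat_lit 0x1ffff))) (Nat.shiftLeft (Nat.land p (nat_lit 65535)) (nat_lit 70))))⟩,
  rfl, rfl⟩
noncomputable def en35 : Ent := ⟨[nat_lit 8, nat_lit 3, nat_lit 7, nat_lit 10, nat_lit 16, nat_lit 5],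
  fun K p w => ⟨fun m x s1 s2 s3 s4 za ac => (K (Nat.shiftRight (Nat.shiftRight p (nat_lit 6)) (nat_lit 16)) (Nat.add (Nat.add w (Nat.shiftLeft (Nat.land p (nat_lit 63)) (nat_lit 64))) (Nat.shiftLeft (Nat.land (Nat.shiftRight p (nat_lit 6)) (nat_lit 65535)) (nat_lit 70)))).1 m (Nat.shiftRight m (Nat.land (Nat.shiftRight m (Nat.land (Nat.shiftRight (Nat.shiftRight m (Nat.land x (nat_lit 0x1ffff))) (nat_lit 34))
  (nat_lit 0x1ffff))) (nat_lit 0x1ffff))) x s1 s2 s3 za (Nat.add (Nat.add ac (Nat.land (Nat.shiftRight m (Nat.land (Nat.shiftRight (Nat.shiftRight m (Nat.land x (nat_lit 0x1ffff))) (nat_lit 34)) (nat_lit 0x1ffff))) (Nat.shiftLeft (Nat.land p (nat_lit 63)) (nat_lit 64)))) (Nat.land (Nat.shiftRight m (Nat.land (Nat.shiftRight (Nat.shiftRight m (Nat.land x (nat_lit 0x1ffff))) (nat_lit 34)) (nat_lit 0x1ffff))) (Nat.shiftLeft (Nat.land (Nat.shiftRight p (nat_lit 6)) (nat_lit 65535))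 (nat_lit 70))))⟩,
  fun K p w => ⟨fun m x s1 s2 s3 s4 za ac => (K (Nat.shiftRight (Nat.shiftRight p (nat_lit 6)) (nat_lit 16)) (Nat.add (Nat.add w (Nat.shiftLeft (Nat.land p (nat_lit 63)) (nat_lit 64))) (Nat.shiftLeft (Nat.land (Nat.shiftRight p (nat_lit 6)) (nat_lit 65535)) (nat_lit 70)))).1 m (Nat.shiftRight m (Nat.land (Nat.shiftRight (Nat.shiftRight m (Nat.land (Nat.shiftRight (Nat.shiftRight m (Nat.land (Nat.shiftRight x
  (nat_lit 17)) (nat_lit 0x1ffff))) (nat_lit 34)) (nat_lit 0x1ffff))) (nat_lit 17)) (nat_lit 0x1ffff))) x s1 s2 s3 za (Nat.add (Nat.add ac (Nat.land (Nat.shiftRight m (Nat.land (Nat.shiftRight (Nat.shiftRight m (Nat.land (Nat.shiftRight x (nat_lit 17)) (nat_lit 0x1ffff))) (nat_lit 34)) (nat_lit 0x1ffff))) (Nat.shiftLeft (Nat.land p (nat_lit 63)) (nat_lit 64)))) (Nat.land (Nat.lor (Nat.shiftRight m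
  (Nat.land (Nat.shiftRight m (Nat.land (Nat.shiftRight (Nat.shiftRight m (Nat.land (Nat.shiftRight x (nat_lit 17)) (nat_lit 0x1ffff))) (nat_lit 34)) (nat_lit 0x1ffff))) (nat_lit 0x1ffff))) (Nat.shiftRight m (Nat.land (Nat.shiftRight (Nat.shiftRight m (Nat.land (Nat.shiftRight (Nat.shiftRight m (Nat.land (Nat.shiftRight x (nat_lit 17)) (nat_lit 0x1ffff))) (nat_lit 34)) (nat_lit 0x1ffff))) (nat_lit 34)) (nat_lit 0x1ffff)))) (Nat.shiftLeft (Nat.land (Nat.shiftRight p (nat_lit 6)) (nat_lit 65535)) (nat_lit 70))))⟩,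
  rfl, rfl⟩
noncomputable def en36 : Ent := ⟨[nat_lit 0, nat_lit 11],
  fun K p w => ⟨fun m x s1 s2 s3 s4 za ac => (K (Nat.shiftRight p (nat_lit 16)) (Nat.add w (Nat.shiftLeft (Nat.land p (nat_lit 65535)) (nat_lit 70)))).1 m (Nat.shiftRight m (Nat.land (Nat.shiftRight (Nat.shiftRight m (nat_lit 34)) (Nat.land x (nat_lit 0x1ffff))) (nat_lit 0x1ffff))) s1 s2 s3 s4 (Nat.land za (Nat.shiftRight m (Nat.land (Nat.shiftRight (Nat.shiftRight m (nat_lit 34)) (Nat.land x (nat_lit 0x1ffff))) (nat_lit 0x1ffff)))) (Nat.add ac (Nat.land (Nat.shiftRight m (Nat.land (Nat.shiftRight (Nat.shiftRight m (nat_lit 34)) (Nat.land x (nat_lit 0x1ffff))) (nat_lit 0x1ffff))) (Nat.shiftLeft (Nat.land p (nat_lit 65535)) (nat_lit 70))))⟩,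
  fun K p w => ⟨fun m x s1 s2 s3 s4 za ac => (K (Nat.shiftRight p (nat_lit 16)) (Nat.add w (Nat.shiftLeft (Nat.land p (nat_lit 65535)) (nat_lit 70)))).1 m (Nat.shiftRight m (Nat.land (Nat.shiftRight (Nat.shiftRight m (nat_lit 34)) (Nat.land (Nat.shiftRight x (nat_lit 17)) (nat_lit 0x1ffff))) (nat_lit 0x1ffff))) s1 s2 s3 s4 (Nat.land za (Nat.shiftRight m (Nat.land (Nat.shiftRight (Nat.shiftRight m (nat_lit 34)) (Nat.land (Nat.shiftRight x (nat_lit 17)) (nat_lit 0x1ffff))) (nat_lit 0x1ffff)))) (Nat.add ac (Nat.land (Nat.shiftRight m (Nat.land (Nat.shiftRight m (Nat.land (Nat.shiftRight (Nat.shiftRight m (nat_lit 34)) (Nat.land (Nat.shiftRight x (nat_lit 17)) (nat_lit 0x1ffff))) (nat_lit 0x1ffff))) (nat_lit 0x1ffff))) (Nat.shiftLeft (Nat.land p (nat_lit 65535)) (nat_lit 70))))⟩,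
  rfl, rfl⟩
noncomputable def en37 : Ent := ⟨[nat_lit 0, nat_lit 0],
  fun K p w => ⟨fun m x s1 s2 s3 s4 za ac => (K p w).1 m (Nat.shiftRight m (Nat.land (Nat.shiftRight (Nat.shiftRight m (nat_lit 34)) (Nat.land (Nat.shiftRight m (Nat.land (Nat.shiftRight (Nat.shiftRight m (nat_lit 34)) (Nat.land x (nat_lit 0x1ffff))) (nat_lit 0x1ffff))) (nat_lit 0x1ffff))) (nat_lit 0x1ffff))) s1 s2 s3 s4 (Nat.land (Nat.land za (Nat.shiftRight m (Nat.land (Nat.shiftRight (Nat.shiftRight m (nat_lit 34)) (Nat.land x (nat_lit 0x1ffff))) (nat_lit 0x1ffff)))) (Nat.shiftRight m (Nat.land (Nat.shiftRight (Nat.shiftRight m (nat_lit 34)) (Nat.land (Nat.shiftRight m (Nat.land (Nat.shiftRight (Nat.shiftRight m (nat_lit 34)) (Nat.land x (nat_lit 0x1ffff))) (nat_lit 0x1ffff))) (nat_lit 0x1ffff))) (nat_lit 0x1ffff)))) ac⟩,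
  fun K p w => ⟨fun m x s1 s2 s3 s4 za ac => (K p w).1 m (Nat.shiftRight m (Nat.land (Nat.shiftRight (Nat.shiftRight m (nat_lit 34)) (Nat.land (Nat.shiftRight (Nat.shiftRight m (Nat.land (Nat.shiftRight (Nat.shiftRight m (nat_lit 34)) (Nat.land (Nat.shiftRight x (nat_lit 17)) (nat_lit 0x1ffff))) (nat_lit 0x1ffff))) (nat_lit 17)) (nat_lit 0x1ffff))) (nat_lit 0x1ffff))) s1 s2 s3 s4 (Nat.land (Nat.land za
  (Nat.shiftRight m (Nat.land (Nat.shiftRight (Nat.shiftRight m (nat_lit 34)) (Nat.land (Nat.shiftRight x (nat_lit 17)) (nat_lit 0x1ffff))) (nat_lit 0x1ffff)))) (Nat.shiftRight m (Nat.land (Nat.shiftRight (Nat.shiftRight m (nat_lit 34)) (Nat.land (Nat.shiftRight (Nat.shiftRight m (Nat.land (Nat.shiftRight (Nat.shiftRight m (nat_lit 34)) (Nat.land (Nat.shiftRight x (nat_lit 17)) (nat_lit 0x1ffff))) (nat_lit 0x1ffff))) (nat_lit 17)) (nat_lit 0x1ffff))) (nat_lit 0x1ffff)))) ac⟩,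
  rfl, rfl⟩
noncomputable def en38 : Ent := ⟨[nat_lit 14, nat_lit 11],
  fun K p w => ⟨fun m x s1 s2 s3 s4 za ac => (K (Nat.shiftRight p (nat_lit 16)) (Nat.add w (Nat.shiftLeft (Nat.land p (nat_lit 65535)) (nat_lit 70)))).1 m x s1 s2 s3 s4 (Nat.land za x) (Nat.add ac (Nat.land x (Nat.shiftLeft (Nat.land p (nat_lit 65535)) (nat_lit 70))))⟩,
  fun K p w => ⟨fun m x s1 s2 s3 s4 za ac => (K (Nat.shiftRight p (nat_lit 16)) (Nat.add w (Nat.shiftLeft (Nat.land p (nat_lit 65535)) (nat_lit 70)))).1 m x s1 s2 s3 s4 (Nat.land za x) (Nat.add ac (Nat.land (Nat.shiftRight m (Nat.land x (nat_lit 0x1ffff))) (Nat.shiftLeft (Nat.land p (nat_lit 65535)) (nat_lit 70))))⟩,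
  rfl, rfl⟩
noncomputable def en39 : Ent := ⟨[nat_lit 14, nat_lit 11, nat_lit 12],
  fun K p w => ⟨fun m x s1 s2 s3 s4 za ac => (K (Nat.shiftRight (Nat.shiftRight p (nat_lit 16)) (nat_lit 28)) (Nat.add (Nat.add w (Nat.shiftLeft (Nat.land p (nat_lit 65535)) (nat_lit 70))) (plA (Nat.shiftRight p (nat_lit 16))))).1 m x s1 s2 s3 s4 (Nat.land za x) (Nat.add (Nat.add ac (Nat.land x (Nat.shiftLeft (Nat.land p (nat_lit 65535)) (nat_lit 70)))) (Nat.land x (plA (Nat.shiftRight p (nat_lit 16)))))⟩,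
  fun K p w => ⟨fun m x s1 s2 s3 s4 za ac => (K (Nat.shiftRight (Nat.shiftRight p (nat_lit 16)) (nat_lit 28)) (Nat.succ (Nat.add w (Nat.shiftLeft (Nat.land p (nat_lit 65535)) (nat_lit 70))))).1 m x s1 s2 s3 s4 (Nat.land za x) (Nat.add ac (Nat.land (Nat.shiftRight m (Nat.land x (nat_lit 0x1ffff))) (Nat.shiftLeft (Nat.land p (nat_lit 65535)) (nat_lit 70))))⟩,
  rfl, rfl⟩
noncomputable def en40 : Ent := ⟨[nat_lit 8, nat_lit 5, nat_lit 16],
  fun K p w => ⟨fun m x s1 s2 s3 s4 za ac => (K (Nat.shiftRight p (nat_lit 16)) (Nat.add w (Nat.shiftLeft (Nat.land p (nat_lit 65535)) (nat_lit 70)))).1 m (Nat.shiftRight m (Nat.land x (nat_lit 0x1ffff))) x s1 s2 s3 za (Nat.add ac (Nat.land (Nat.shiftRight m (Nat.land x (nat_lit 0x1ffff))) (Nat.shiftLeft (Nat.land p (nat_lit 65535)) (nat_lit 70))))⟩,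
  fun K p w => ⟨fun m x s1 s2 s3 s4 za ac => (K (Nat.shiftRight p (nat_lit 16)) (Nat.add w (Nat.shiftLeft (Nat.land p (nat_lit 65535)) (nat_lit 70)))).1 m (Nat.shiftRight m (Nat.land (Nat.shiftRight x (nat_lit 17)) (nat_lit 0x1ffff))) x s1 s2 s3 za (Nat.add ac (Nat.land (Nat.lor (Nat.shiftRight m (Nat.land (Nat.shiftRight m (Nat.land (Nat.shiftRight x (nat_lit 17)) (nat_lit 0x1ffff))) (nat_lit 0x1ffff))) (Nat.shiftRight m (Nat.land (Nat.shiftRight (Nat.shiftRight m (Nat.land (Nat.shiftRight x (nat_lit 17)) (nat_lit 0x1ffff))) (nat_lit 34)) (nat_lit 0x1ffff)))) (Nat.shiftLeft (Nat.land p (nat_lit 65535)) (nat_lit 70))))⟩,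
  rfl, rfl⟩
noncomputable def en41 : Ent := ⟨[nat_lit 8, nat_lit 3, nat_lit 11, nat_lit 2],
  fun K p w => ⟨fun m x s1 s2 s3 s4 za ac => (K (Nat.shiftRight p (nat_lit 16)) (Nat.add w (Nat.shiftLeft (Nat.land p (nat_lit 65535)) (nat_lit 70)))).1 m (Nat.shiftRight m (Nat.land (Nat.shiftRight (Nat.shiftRight m (Nat.land x (nat_lit 0x1ffff))) (nat_lit 34)) (nat_lit 0x1ffff))) x s1 s2 s3 (Nat.land za (Nat.shiftRight m (Nat.land (Nat.shiftRight (Nat.shiftRight m (Nat.land x (nat_lit 0x1ffff))) (nat_lit 34)) (nat_lit 0x1ffff)))) (Nat.add ac (Nat.land (Nat.shiftRight m (Nat.land x (nat_lit 0x1ffff))) (Nat.shiftLeft (Nat.land p (nat_lit 65535)) (nat_lit 70))))⟩,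
  fun K p w => ⟨fun m x s1 s2 s3 s4 za ac => (K (Nat.shiftRight p (nat_lit 16)) (Nat.add w (Nat.shiftLeft (Nat.land p (nat_lit 65535)) (nat_lit 70)))).1 m (Nat.shiftRight m (Nat.land (Nat.shiftRight (Nat.shiftRight m (Nat.land (Nat.shiftRight x (nat_lit 17)) (nat_lit 0x1ffff))) (nat_lit 34)) (nat_lit 0x1ffff))) x s1 s2 s3 (Nat.land za (Nat.shiftRight m (Nat.land (Nat.shiftRight (Nat.shiftRight m (Nat.land (Nat.shiftRight x (nat_lit 17)) (nat_lit 0x1ffff))) (nat_lit 34)) (nat_lit 0x1ffff)))) (Nat.add ac (Nat.land (Nat.shiftRight m (Nat.land (Nat.shiftRight m (Nat.land (Nat.shiftRight x (nat_lit 17)) (nat_lit 0x1ffff))) (nat_lit 0x1ffff))) (Nat.shiftLeft (Nat.land p (nat_lit 65535)) (nat_lit 70))))⟩,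
  rfl, rfl⟩
noncomputable def en42 : Ent := ⟨[nat_lit 16, nat_lit 12],
  fun K p w => ⟨fun m x s1 s2 s3 s4 za ac => (K (Nat.shiftRight (Nat.shiftRight p (nat_lit 16)) (nat_lit 28)) (Nat.add (Nat.add w (Nat.shiftLeft (Nat.land p (nat_lit 65535)) (nat_lit 70))) (plA (Nat.shiftRight p (nat_lit 16))))).1 m x s1 s2 s3 s4 za (Nat.add (Nat.add ac (Nat.land x (Nat.shiftLeft (Nat.land p (nat_lit 65535)) (nat_lit 70)))) (Nat.land x (plA (Nat.shiftRight p (nat_lit 16)))))⟩,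
  fun K p w => ⟨fun m x s1 s2 s3 s4 za ac => (K (Nat.shiftRight (Nat.shiftRight p (nat_lit 16)) (nat_lit 28)) (Nat.succ (Nat.add w (Nat.shiftLeft (Nat.land p (nat_lit 65535)) (nat_lit 70))))).1 m x s1 s2 s3 s4 za (Nat.add ac (Nat.land (Nat.lor (Nat.shiftRight m (Nat.land x (nat_lit 0x1ffff))) (Nat.shiftRight m (Nat.land (Nat.shiftRight x (nat_lit 34)) (nat_lit 0x1ffff)))) (Nat.shiftLeft (Nat.land p (nat_lit 65535)) (nat_lit 70))))⟩,
  rfl, rfl⟩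
noncomputable def en43 : Ent := ⟨[nat_lit 2, nat_lit 11, nat_lit 8, nat_lit 0],
  fun K p w => ⟨fun m x s1 s2 s3 s4 za ac => (K (Nat.shiftRight p (nat_lit 16)) (Nat.add w (Nat.shiftLeft (Nat.land p (nat_lit 65535)) (nat_lit 70)))).1 m (Nat.shiftRight m (Nat.land (Nat.shiftRight (Nat.shiftRight m (nat_lit 34)) (Nat.land (Nat.shiftRight m (Nat.land (Nat.shiftRight x (nat_lit 34)) (nat_lit 0x1ffff))) (nat_lit 0x1ffff))) (nat_lit 0x1ffff))) (Nat.shiftRight m (Nat.land (Nat.shiftRight x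
  (nat_lit 34)) (nat_lit 0x1ffff))) s1 s2 s3 (Nat.land (Nat.land za (Nat.shiftRight m (Nat.land (Nat.shiftRight x (nat_lit 34)) (nat_lit 0x1ffff)))) (Nat.shiftRight m (Nat.land (Nat.shiftRight (Nat.shiftRight m (nat_lit 34)) (Nat.land (Nat.shiftRight m (Nat.land (Nat.shiftRight x (nat_lit 34)) (nat_lit 0x1ffff))) (nat_lit 0x1ffff))) (nat_lit 0x1ffff)))) (Nat.add ac (Nat.land (Nat.shiftRight m (Nat.land (Nat.shiftRight x (nat_lit 34)) (nat_lit 0x1ffff))) (Nat.shiftLeft (Nat.land p (nat_lit 65535)) (nat_lit 70))))⟩,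
  fun K p w => ⟨fun m x s1 s2 s3 s4 za ac => (K (Nat.shiftRight p (nat_lit 16)) (Nat.add w (Nat.shiftLeft (Nat.land p (nat_lit 65535)) (nat_lit 70)))).1 m (Nat.shiftRight m (Nat.land (Nat.shiftRight (Nat.shiftRight m (nat_lit 34)) (Nat.land (Nat.shiftRight (Nat.shiftRight m (Nat.land (Nat.shiftRight x (nat_lit 34)) (nat_lit 0x1ffff))) (nat_lit 17)) (nat_lit 0x1ffff))) (nat_lit 0x1ffff))) (Nat.shiftRight m
  (Nat.land (Nat.shiftRight x (nat_lit 34)) (nat_lit 0x1ffff))) s1 s2 s3 (Nat.land (Nat.land za (Nat.shiftRight m (Nat.land (Nat.shiftRight x (nat_lit 34)) (nat_lit 0x1ffff)))) (Nat.shiftRight m (Nat.land (Nat.shiftRight (Nat.shiftRight m (nat_lit 34)) (Nat.land (Nat.shiftRight (Nat.shiftRight m (Nat.land (Nat.shiftRight x (nat_lit 34)) (nat_lit 0x1ffff))) (nat_lit 17)) (nat_lit 0x1ffff))) (nat_lit 0x1ffff)))) (Nat.add ac (Nat.land (Nat.shiftRight m (Nat.land (Nat.shiftRight m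 (Nat.land (Nat.shiftRight x (nat_lit 34)) (nat_lit 0x1ffff))) (nat_lit 0x1ffff))) (Nat.shiftLeft (Nat.land p (nat_lit 65535)) (nat_lit 70))))⟩,
  rfl, rfl⟩
noncomputable def en44 : Ent := ⟨[nat_lit 10, nat_lit 16, nat_lit 12],
  fun K p w => ⟨fun m x s1 s2 s3 s4 za ac => (K (Nat.shiftRight (Nat.shiftRight (Nat.shiftRight p (nat_lit 6)) (nat_lit 16)) (nat_lit 28)) (Nat.add (Nat.add (Nat.add w (Nat.shiftLeft (Nat.land p (nat_lit 63)) (nat_lit 64))) (Nat.shiftLeft (Nat.land (Nat.shiftRight p (nat_lit 6)) (nat_lit 65535)) (nat_lit 70))) (plA (Nat.shiftRight (Nat.shiftRight p (nat_lit 6)) (nat_lit 16))))).1 m x s1 s2 s3 s4 za (Nat.add (Nat.add (Nat.add ac (Nat.land x (Nat.shiftLeft (Nat.land p (nat_lit 63)) (nat_lit 64)))) (Nat.land x (Nat.shiftLeft (Nat.land (Nat.shiftRight p (nat_lit 6)) (nat_lit 65535)) (nat_lit 70)))) (Nat.land x (plA (Nat.shiftRight (Nat.shiftRight p (nat_lit 6))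 (nat_lit 16)))))⟩,
  fun K p w => ⟨fun m x s1 s2 s3 s4 za ac => (K (Nat.shiftRight (Nat.shiftRight (Nat.shiftRight p (nat_lit 6)) (nat_lit 16)) (nat_lit 28)) (Nat.succ (Nat.add (Nat.add w (Nat.shiftLeft (Nat.land p (nat_lit 63)) (nat_lit 64))) (Nat.shiftLeft (Nat.land (Nat.shiftRight p (nat_lit 6)) (nat_lit 65535)) (nat_lit 70))))).1 m x s1 s2 s3 s4 za (Nat.add (Nat.add ac (Nat.land x (Nat.shiftLeft (Nat.land p (nat_lit 63)) (nat_lit 64)))) (Nat.land (Nat.lor (Nat.shiftRight m (Nat.land x (nat_lit 0x1ffff))) (Nat.shiftRight m (Nat.land (Nat.shiftRight x (nat_lit 34)) (nat_lit 0x1ffff)))) (Nat.shiftLeft (Nat.land (Nat.shiftRight p (nat_lit 6)) (nat_lit 65535)) (nat_lit 70))))⟩,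
  rfl, rfl⟩
noncomputable def en45 : Ent := ⟨[nat_lit 4, nat_lit 7, nat_lit 10, nat_lit 5],
  fun K p w => ⟨fun m x s1 s2 s3 s4 za ac => (K (Nat.shiftRight p (nat_lit 6)) (Nat.add w (Nat.shiftLeft (Nat.land p (nat_lit 63)) (nat_lit 64)))).1 m (Nat.shiftRight m (Nat.land (Nat.shiftRight m (Nat.land (Nat.shiftRight (Nat.shiftRight m (Nat.land (Nat.shiftRight x (nat_lit 17)) (nat_lit 0x1ffff))) (nat_lit 34)) (nat_lit 0x1ffff))) (nat_lit 0x1ffff))) s1 s2 s3 s4 za (Nat.add ac (Nat.land (Nat.shiftRight m (Nat.land (Nat.shiftRight (Nat.shiftRight m (Nat.land (Nat.shiftRight x (nat_lit 17)) (nat_lit 0x1ffff))) (nat_lit 34)) (nat_lit 0x1ffff))) (Nat.shiftLeft (Nat.land p (nat_lit 63)) (nat_lit 64))))⟩,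
  fun K p w => ⟨fun m x s1 s2 s3 s4 za ac => (K (Nat.shiftRight p (nat_lit 6)) (Nat.add w (Nat.shiftLeft (Nat.land p (nat_lit 63)) (nat_lit 64)))).1 m (Nat.shiftRight m (Nat.land (Nat.shiftRight (Nat.shiftRight m (Nat.land (Nat.shiftRight (Nat.shiftRight m (Nat.land x (nat_lit 0x1ffff))) (nat_lit 34)) (nat_lit 0x1ffff))) (nat_lit 17)) (nat_lit 0x1ffff))) s1 s2 s3 s4 za (Nat.add ac (Nat.land (Nat.shiftRight m (Nat.land (Nat.shiftRight (Nat.shiftRight m (Nat.land x (nat_lit 0x1ffff))) (nat_lit 34)) (nat_lit 0x1ffff))) (Nat.shiftLeft (Nat.land p (nat_lit 63)) (nat_lit 64))))⟩,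
  rfl, rfl⟩
noncomputable def en46 : Ent := ⟨[nat_lit 9, nat_lit 2, nat_lit 8, nat_lit 0],
  fun K p w => ⟨fun m x s1 s2 s3 s4 za ac => (K p w).1 m (Nat.shiftRight m (Nat.land (Nat.shiftRight (Nat.shiftRight m (nat_lit 34)) (Nat.land (Nat.shiftRight m (Nat.land (Nat.shiftRight s1 (nat_lit 34)) (nat_lit 0x1ffff))) (nat_lit 0x1ffff))) (nat_lit 0x1ffff))) (Nat.shiftRight m (Nat.land (Nat.shiftRight s1 (nat_lit 34)) (nat_lit 0x1ffff))) s2 s3 s4 (Nat.land (Nat.land za (Nat.shiftRight m (Nat.land (Nat.shiftRight s1 (nat_lit 34)) (nat_lit 0x1ffff)))) (Nat.shiftRight m (Nat.land (Nat.shiftRight (Nat.shiftRight m (nat_lit 34)) (Nat.land (Nat.shiftRight m (Nat.land (Nat.shiftRight s1 (nat_lit 34)) (nat_lit 0x1ffff))) (nat_lit 0x1ffff))) (nat_lit 0x1ffff)))) ac⟩,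
  fun K p w => ⟨fun m x s1 s2 s3 s4 za ac => (K p w).1 m (Nat.shiftRight m (Nat.land (Nat.shiftRight (Nat.shiftRight m (nat_lit 34)) (Nat.land (Nat.shiftRight (Nat.shiftRight m (Nat.land (Nat.shiftRight s1 (nat_lit 34)) (nat_lit 0x1ffff))) (nat_lit 17)) (nat_lit 0x1ffff))) (nat_lit 0x1ffff))) (Nat.shiftRight m (Nat.land (Nat.shiftRight s1 (nat_lit 34)) (nat_lit 0x1ffff))) s2 s3 s4 (Nat.land (Nat.land za (Nat.shiftRight m (Nat.land (Nat.shiftRight s1 (nat_lit 34)) (nat_lit 0x1ffff)))) (Nat.shiftRight m (Nat.land (Nat.shiftRight (Nat.shiftRight m (nat_lit 34)) (Nat.land (Nat.shiftRight (Nat.shiftRight m (Nat.land (Nat.shiftRight s1 (nat_lit 34)) (nat_lit 0x1ffff))) (nat_lit 17)) (nat_lit 0x1ffff))) (nat_lit 0x1ffff)))) ac⟩,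
  rfl, rfl⟩
noncomputable def en47 : Ent := ⟨[nat_lit 10, nat_lit 16, nat_lit 12, nat_lit 8, nat_lit 5, nat_lit 16],
  fun K p w => ⟨fun m x s1 s2 s3 s4 za ac => (K (Nat.shiftRight (Nat.shiftRight (Nat.shiftRight (Nat.shiftRight p (nat_lit 6)) (nat_lit 16)) (nat_lit 28)) (nat_lit 16)) (Nat.add (Nat.add (Nat.add (Nat.add w (Nat.shiftLeft (Nat.land p (nat_lit 63)) (nat_lit 64))) (Nat.shiftLeft (Nat.land (Nat.shiftRight p (nat_lit 6)) (nat_lit 65535)) (nat_lit 70))) (plA (Nat.shiftRight (Nat.shiftRight p (nat_lit 6))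
  (nat_lit 16)))) (Nat.shiftLeft (Nat.land (Nat.shiftRight (Nat.shiftRight (Nat.shiftRight p (nat_lit 6)) (nat_lit 16)) (nat_lit 28)) (nat_lit 65535)) (nat_lit 70)))).1 m (Nat.shiftRight m (Nat.land x (nat_lit 0x1ffff))) x s1 s2 s3 za (Nat.add (Nat.add (Nat.add (Nat.add ac (Nat.land x (Nat.shiftLeft (Nat.land p (nat_lit 63)) (nat_lit 64)))) (Nat.land x (Nat.shiftLeft (Nat.land (Nat.shiftRight p (nat_lit 6)) (nat_lit 65535)) (nat_lit 70)))) (Nat.land x (plA (Nat.shiftRight (Nat.shiftRight p (nat_lit 6)) (nat_lit 16))))) (Nat.land (Nat.shiftRight m (Nat.land x (nat_lit 0x1ffff))) (Nat.shiftLeft (Nat.land (Nat.shiftRight (Nat.shiftRight (Nat.shiftRight p (nat_lit 6)) (nat_lit 16)) (nat_lit 28)) (nat_lit 65535)) (nat_lit 70))))⟩,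
  fun K p w => ⟨fun m x s1 s2 s3 s4 za ac => (K (Nat.shiftRight (Nat.shiftRight (Nat.shiftRight (Nat.shiftRight p (nat_lit 6)) (nat_lit 16)) (nat_lit 28)) (nat_lit 16)) (Nat.add (Nat.succ (Nat.add (Nat.add w (Nat.shiftLeft (Nat.land p (nat_lit 63)) (nat_lit 64))) (Nat.shiftLeft (Nat.land (Nat.shiftRight p (nat_lit 6)) (nat_lit 65535)) (nat_lit 70)))) (Nat.shiftLeft (Nat.land (Nat.shiftRight (Nat.shiftRight
  (Nat.shiftRight p (nat_lit 6)) (nat_lit 16)) (nat_lit 28)) (nat_lit 65535)) (nat_lit 70)))).1 m (Nat.shiftRight m (Nat.land (Nat.shiftRight x (nat_lit 17)) (nat_lit 0x1ffff))) x s1 s2 s3 za (Nat.add (Nat.add (Nat.add ac (Nat.land x (Nat.shiftLeft (Nat.land p (nat_lit 63)) (nat_lit 64)))) (Nat.land (Nat.lor (Nat.shiftRight m (Nat.land x (nat_lit 0x1ffff))) (Nat.shiftRight m (Nat.land (Nat.shiftRight x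
  (nat_lit 34)) (nat_lit 0x1ffff)))) (Nat.shiftLeft (Nat.land (Nat.shiftRight p (nat_lit 6)) (nat_lit 65535)) (nat_lit 70)))) (Nat.land (Nat.lor (Nat.shiftRight m (Nat.land (Nat.shiftRight m (Nat.land (Nat.shiftRight x (nat_lit 17)) (nat_lit 0x1ffff))) (nat_lit 0x1ffff))) (Nat.shiftRight m (Nat.land (Nat.shiftRight (Nat.shiftRight m (Nat.land (Nat.shiftRight x (nat_lit 17)) (nat_lit 0x1ffff))) (nat_lit 34)) (nat_lit 0x1ffff)))) (Nat.shiftLeft (Nat.land (Nat.shiftRight (Nat.shiftRight (Nat.shiftRight p (nat_lit 6)) (nat_lit 16)) (nat_lit 28)) (nat_lit 65535)) (nat_lit 70))))⟩,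
  rfl, rfl⟩
noncomputable def en48 : Ent := ⟨[nat_lit 3, nat_lit 13],
  fun K p w => ⟨fun m x s1 s2 s3 s4 za ac => (K p (Nat.add w (nat_lit 0x10000000000000000))).1 m (Nat.shiftRight m (Nat.land (Nat.shiftRight (Nat.shiftRight m (Nat.land x (nat_lit 0x1ffff))) (nat_lit 34)) (nat_lit 0x1ffff))) s1 s2 s3 s4 za (Nat.add ac (Nat.land (Nat.shiftRight m (Nat.land (Nat.shiftRight (Nat.shiftRight m (Nat.land x (nat_lit 0x1ffff))) (nat_lit 34)) (nat_lit 0x1ffff))) (nat_lit 0x10000000000000000)))⟩,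
  fun K p w => ⟨fun m x s1 s2 s3 s4 za ac => (K p (Nat.add w (nat_lit 0x10000000000000000))).1 m (Nat.shiftRight m (Nat.land (Nat.shiftRight (Nat.shiftRight m (Nat.land (Nat.shiftRight x (nat_lit 17)) (nat_lit 0x1ffff))) (nat_lit 34)) (nat_lit 0x1ffff))) s1 s2 s3 s4 za (Nat.add ac (Nat.land (Nat.shiftRight m (Nat.land (Nat.shiftRight (Nat.shiftRight m (Nat.land (Nat.shiftRight x (nat_lit 17)) (nat_lit 0x1ffff))) (nat_lit 34)) (nat_lit 0x1ffff))) (nat_lit 0x10000000000000000)))⟩,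
  rfl, rfl⟩
noncomputable def en49 : Ent := ⟨[nat_lit 4, nat_lit 11, nat_lit 2, nat_lit 4, nat_lit 11],
  fun K p w => ⟨fun m x s1 s2 s3 s4 za ac => (K (Nat.shiftRight (Nat.shiftRight p (nat_lit 16)) (nat_lit 16)) (Nat.add (Nat.add w (Nat.shiftLeft (Nat.land p (nat_lit 65535)) (nat_lit 70))) (Nat.shiftLeft (Nat.land (Nat.shiftRight p (nat_lit 16)) (nat_lit 65535)) (nat_lit 70)))).1 m (Nat.shiftRight m (Nat.land (Nat.shiftRight (Nat.shiftRight m (Nat.land (Nat.shiftRight (Nat.shiftRight m (Nat.land (Nat.shiftRight x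
  (nat_lit 17)) (nat_lit 0x1ffff))) (nat_lit 34)) (nat_lit 0x1ffff))) (nat_lit 17)) (nat_lit 0x1ffff))) s1 s2 s3 s4 (Nat.land za (Nat.shiftRight m (Nat.land (Nat.shiftRight (Nat.shiftRight m (Nat.land (Nat.shiftRight x (nat_lit 17)) (nat_lit 0x1ffff))) (nat_lit 34)) (nat_lit 0x1ffff)))) (Nat.add (Nat.add ac (Nat.land (Nat.shiftRight m (Nat.land (Nat.shiftRight x (nat_lit 17)) (nat_lit 0x1ffff))) (Nat.shiftLeft (Nat.land p (nat_lit 65535)) (nat_lit 70)))) (Nat.land (Nat.shiftRight m (Nat.land (Nat.shiftRight (Nat.shiftRight m (Nat.land (Nat.shiftRight (Nat.shiftRight m (Nat.land (Nat.shiftRight x (nat_lit 17)) (nat_lit 0x1ffff))) (nat_lit 34)) (nat_lit 0x1ffff))) (nat_lit 17)) (nat_lit 0x1ffff))) (Nat.shiftLeft (Nat.land (Nat.shiftRight p (nat_lit 16)) (nat_lit 65535)) (nat_lit 70))))⟩,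
  fun K p w => ⟨fun m x s1 s2 s3 s4 za ac => (K (Nat.shiftRight (Nat.shiftRight p (nat_lit 16)) (nat_lit 16)) (Nat.add (Nat.add w (Nat.shiftLeft (Nat.land p (nat_lit 65535)) (nat_lit 70))) (Nat.shiftLeft (Nat.land (Nat.shiftRight p (nat_lit 16)) (nat_lit 65535)) (nat_lit 70)))).1 m (Nat.shiftRight m (Nat.land (Nat.shiftRight m (Nat.land (Nat.shiftRight (Nat.shiftRight m (Nat.land x (nat_lit 0x1ffff)))
  (nat_lit 34)) (nat_lit 0x1ffff))) (nat_lit 0x1ffff))) s1 s2 s3 s4 (Nat.land za (Nat.shiftRight m (Nat.land (Nat.shiftRight (Nat.shiftRight m (Nat.land x (nat_lit 0x1ffff))) (nat_lit 34)) (nat_lit 0x1ffff)))) (Nat.add (Nat.add ac (Nat.land (Nat.shiftRight m (Nat.land (Nat.shiftRight m (Nat.land x (nat_lit 0x1ffff))) (nat_lit 0x1ffff))) (Nat.shiftLeft (Nat.land p (nat_lit 65535)) (nat_lit 70)))) (Nat.land (Nat.shiftRight m (Nat.land (Nat.shiftRight m (Nat.land (Nat.shiftRight m (Nat.land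 (Nat.shiftRight (Nat.shiftRight m (Nat.land x (nat_lit 0x1ffff))) (nat_lit 34)) (nat_lit 0x1ffff))) (nat_lit 0x1ffff))) (nat_lit 0x1ffff))) (Nat.shiftLeft (Nat.land (Nat.shiftRight p (nat_lit 16)) (nat_lit 65535)) (nat_lit 70))))⟩,
  rfl, rfl⟩
noncomputable def en50 : Ent := ⟨[nat_lit 9, nat_lit 8],
  fun K p w => ⟨fun m x s1 s2 s3 s4 za ac => (K p w).1 m s1 s1 s2 s3 s4 za ac⟩,
  fun K p w => ⟨fun m x s1 s2 s3 s4 za ac => (K p w).1 m s1 s1 s2 s3 s4 za ac⟩,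
  rfl, rfl⟩
noncomputable def en51 : Ent := ⟨[nat_lit 8, nat_lit 3, nat_lit 7, nat_lit 10, nat_lit 16, nat_lit 5, nat_lit 9, nat_lit 4, nat_lit 11, nat_lit 2],
  fun K p w => ⟨fun m x s1 s2 s3 s4 za ac => (K (Nat.shiftRight (Nat.shiftRight (Nat.shiftRight p (nat_lit 6)) (nat_lit 16)) (nat_lit 16)) (Nat.add (Nat.add (Nat.add w (Nat.shiftLeft (Nat.land p (nat_lit 63)) (nat_lit 64))) (Nat.shiftLeft (Nat.land (Nat.shiftRight p (nat_lit 6)) (nat_lit 65535)) (nat_lit 70))) (Nat.shiftLeft (Nat.land (Nat.shiftRight (Nat.shiftRight p (nat_lit 6)) (nat_lit 16)) (nat_lit 65535))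
  (nat_lit 70)))).1 m (Nat.shiftRight m (Nat.land (Nat.shiftRight (Nat.shiftRight m (Nat.land (Nat.shiftRight x (nat_lit 17)) (nat_lit 0x1ffff))) (nat_lit 34)) (nat_lit 0x1ffff))) s1 s2 s3 s3 (Nat.land za (Nat.shiftRight m (Nat.land (Nat.shiftRight (Nat.shiftRight m (Nat.land (Nat.shiftRight x (nat_lit 17)) (nat_lit 0x1ffff))) (nat_lit 34)) (nat_lit 0x1ffff)))) (Nat.add (Nat.add (Nat.add ac (Nat.land
  (Nat.shiftRight m (Nat.land (Nat.shiftRight (Nat.shiftRight m (Nat.land x (nat_lit 0x1ffff))) (nat_lit 34)) (nat_lit 0x1ffff))) (Nat.shiftLeft (Nat.land p (nat_lit 63)) (nat_lit 64)))) (Nat.land (Nat.shiftRight m (Nat.land (Nat.shiftRight (Nat.shiftRight m (Nat.land x (nat_lit 0x1ffff))) (nat_lit 34)) (nat_lit 0x1ffff))) (Nat.shiftLeft (Nat.land (Nat.shiftRight p (nat_lit 6)) (nat_lit 65535)) (nat_lit 70)))) (Nat.land (Nat.shiftRight m (Nat.land (Nat.shiftRight x (nat_lit 17)) (nat_lit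 0x1ffff))) (Nat.shiftLeft (Nat.land (Nat.shiftRight (Nat.shiftRight p (nat_lit 6)) (nat_lit 16)) (nat_lit 65535)) (nat_lit 70))))⟩,
  fun K p w => ⟨fun m x s1 s2 s3 s4 za ac => (K (Nat.shiftRight (Nat.shiftRight (Nat.shiftRight p (nat_lit 6)) (nat_lit 16)) (nat_lit 16)) (Nat.add (Nat.add (Nat.add w (Nat.shiftLeft (Nat.land p (nat_lit 63)) (nat_lit 64))) (Nat.shiftLeft (Nat.land (Nat.shiftRight p (nat_lit 6)) (nat_lit 65535)) (nat_lit 70))) (Nat.shiftLeft (Nat.land (Nat.shiftRight (Nat.shiftRight p (nat_lit 6)) (nat_lit 16)) (nat_lit 65535))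
  (nat_lit 70)))).1 m (Nat.shiftRight m (Nat.land (Nat.shiftRight (Nat.shiftRight m (Nat.land x (nat_lit 0x1ffff))) (nat_lit 34)) (nat_lit 0x1ffff))) s1 s2 s3 s3 (Nat.land za (Nat.shiftRight m (Nat.land (Nat.shiftRight (Nat.shiftRight m (Nat.land x (nat_lit 0x1ffff))) (nat_lit 34)) (nat_lit 0x1ffff)))) (Nat.add (Nat.add (Nat.add ac (Nat.land (Nat.shiftRight m (Nat.land (Nat.shiftRight (Nat.shiftRight m
  (Nat.land (Nat.shiftRight x (nat_lit 17)) (nat_lit 0x1ffff))) (nat_lit 34)) (nat_lit 0x1ffff))) (Nat.shiftLeft (Nat.land p (nat_lit 63)) (nat_lit 64)))) (Nat.land (Nat.lor (Nat.shiftRight m (Nat.land (Nat.shiftRight m (Nat.land (Nat.shiftRight (Nat.shiftRight m (Nat.land (Nat.shiftRight x (nat_lit 17)) (nat_lit 0x1ffff))) (nat_lit 34)) (nat_lit 0x1ffff))) (nat_lit 0x1ffff))) (Nat.shiftRight m (Nat.land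
  (Nat.shiftRight (Nat.shiftRight m (Nat.land (Nat.shiftRight (Nat.shiftRight m (Nat.land (Nat.shiftRight x (nat_lit 17)) (nat_lit 0x1ffff))) (nat_lit 34)) (nat_lit 0x1ffff))) (nat_lit 34)) (nat_lit 0x1ffff)))) (Nat.shiftLeft (Nat.land (Nat.shiftRight p (nat_lit 6)) (nat_lit 65535)) (nat_lit 70)))) (Nat.land (Nat.shiftRight m (Nat.land (Nat.shiftRight m (Nat.land x (nat_lit 0x1ffff))) (nat_lit 0x1ffff))) (Nat.shiftLeft (Nat.land (Nat.shiftRight (Nat.shiftRight p (nat_lit 6)) (nat_lit 16)) (nat_lit 65535)) (nat_lit 70))))⟩,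
  rfl, rfl⟩
noncomputable def en52 : Ent := ⟨[nat_lit 1, nat_lit 1],
  fun K p w => ⟨fun m x s1 s2 s3 s4 za ac => (K p w).1 m (Nat.shiftRight m (Nat.land (Nat.shiftRight (Nat.shiftRight m (nat_lit 34)) (Nat.land (Nat.shiftRight (Nat.shiftRight m (Nat.land (Nat.shiftRight (Nat.shiftRight m (nat_lit 34)) (Nat.land (Nat.shiftRight x (nat_lit 17)) (nat_lit 0x1ffff))) (nat_lit 0x1ffff))) (nat_lit 17)) (nat_lit 0x1ffff))) (nat_lit 0x1ffff))) s1 s2 s3 s4 (Nat.land (Nat.land za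
  (Nat.shiftRight m (Nat.land (Nat.shiftRight (Nat.shiftRight m (nat_lit 34)) (Nat.land (Nat.shiftRight x (nat_lit 17)) (nat_lit 0x1ffff))) (nat_lit 0x1ffff)))) (Nat.shiftRight m (Nat.land (Nat.shiftRight (Nat.shiftRight m (nat_lit 34)) (Nat.land (Nat.shiftRight (Nat.shiftRight m (Nat.land (Nat.shiftRight (Nat.shiftRight m (nat_lit 34)) (Nat.land (Nat.shiftRight x (nat_lit 17)) (nat_lit 0x1ffff))) (nat_lit 0x1ffff))) (nat_lit 17)) (nat_lit 0x1ffff))) (nat_lit 0x1ffff)))) ac⟩,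
  fun K p w => ⟨fun m x s1 s2 s3 s4 za ac => (K p w).1 m (Nat.shiftRight m (Nat.land (Nat.shiftRight (Nat.shiftRight m (nat_lit 34)) (Nat.land (Nat.shiftRight m (Nat.land (Nat.shiftRight (Nat.shiftRight m (nat_lit 34)) (Nat.land x (nat_lit 0x1ffff))) (nat_lit 0x1ffff))) (nat_lit 0x1ffff))) (nat_lit 0x1ffff))) s1 s2 s3 s4 (Nat.land (Nat.land za (Nat.shiftRight m (Nat.land (Nat.shiftRight (Nat.shiftRight m (nat_lit 34)) (Nat.land x (nat_lit 0x1ffff))) (nat_lit 0x1ffff)))) (Nat.shiftRight m (Nat.land (Nat.shiftRight (Nat.shiftRight m (nat_lit 34)) (Nat.land (Nat.shiftRight m (Nat.land (Nat.shiftRight (Nat.shiftRight m (nat_lit 34)) (Nat.land x (nat_lit 0x1ffff))) (nat_lit 0x1ffff))) (nat_lit 0x1ffff))) (nat_lit 0x1ffff)))) ac⟩,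
  rfl, rfl⟩
noncomputable def en53 : Ent := ⟨[nat_lit 10, nat_lit 16, nat_lit 12, nat_lit 8, nat_lit 5, nat_lit 16, nat_lit 2, nat_lit 11, nat_lit 8, nat_lit 0],
  fun K p w => ⟨fun m x s1 s2 s3 s4 za ac => (K (Nat.shiftRight (Nat.shiftRight (Nat.shiftRight (Nat.shiftRight (Nat.shiftRight p (nat_lit 6)) (nat_lit 16)) (nat_lit 28)) (nat_lit 16)) (nat_lit 16)) (Nat.add (Nat.add (Nat.add (Nat.add (Nat.add w (Nat.shiftLeft (Nat.land p (nat_lit 63)) (nat_lit 64))) (Nat.shiftLeft (Nat.land (Nat.shiftRight p (nat_lit 6)) (nat_lit 65535)) (nat_lit 70))) (plA (Nat.shiftRight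
  (Nat.shiftRight p (nat_lit 6)) (nat_lit 16)))) (Nat.shiftLeft (Nat.land (Nat.shiftRight (Nat.shiftRight (Nat.shiftRight p (nat_lit 6)) (nat_lit 16)) (nat_lit 28)) (nat_lit 65535)) (nat_lit 70))) (Nat.shiftLeft (Nat.land (Nat.shiftRight (Nat.shiftRight (Nat.shiftRight (Nat.shiftRight p (nat_lit 6)) (nat_lit 16)) (nat_lit 28)) (nat_lit 16)) (nat_lit 65535)) (nat_lit 70)))).1 m (Nat.shiftRight m (Nat.land
  (Nat.shiftRight (Nat.shiftRight m (nat_lit 34)) (Nat.land (Nat.shiftRight m (Nat.land (Nat.shiftRight (Nat.shiftRight m (Nat.land x (nat_lit 0x1ffff))) (nat_lit 34)) (nat_lit 0x1ffff))) (nat_lit 0x1ffff))) (nat_lit 0x1ffff))) (Nat.shiftRight m (Nat.land (Nat.shiftRight (Nat.shiftRight m (Nat.land x (nat_lit 0x1ffff))) (nat_lit 34)) (nat_lit 0x1ffff))) x s1 s2 (Nat.land (Nat.land za (Nat.shiftRight m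
  (Nat.land (Nat.shiftRight (Nat.shiftRight m (Nat.land x (nat_lit 0x1ffff))) (nat_lit 34)) (nat_lit 0x1ffff)))) (Nat.shiftRight m (Nat.land (Nat.shiftRight (Nat.shiftRight m (nat_lit 34)) (Nat.land (Nat.shiftRight m (Nat.land (Nat.shiftRight (Nat.shiftRight m (Nat.land x (nat_lit 0x1ffff))) (nat_lit 34)) (nat_lit 0x1ffff))) (nat_lit 0x1ffff))) (nat_lit 0x1ffff)))) (Nat.add (Nat.add (Nat.add (Nat.add
  (Nat.add ac (Nat.land x (Nat.shiftLeft (Nat.land p (nat_lit 63)) (nat_lit 64)))) (Nat.land x (Nat.shiftLeft (Nat.land (Nat.shiftRight p (nat_lit 6)) (nat_lit 65535)) (nat_lit 70)))) (Nat.land x (plA (Nat.shiftRight (Nat.shiftRight p (nat_lit 6)) (nat_lit 16))))) (Nat.land (Nat.shiftRight m (Nat.land x (nat_lit 0x1ffff))) (Nat.shiftLeft (Nat.land (Nat.shiftRight (Nat.shiftRight (Nat.shiftRight p (nat_lit 6)) (nat_lit 16)) (nat_lit 28)) (nat_lit 65535)) (nat_lit 70)))) (Nat.land (Nat.shiftRight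 m (Nat.land (Nat.shiftRight (Nat.shiftRight m (Nat.land x (nat_lit 0x1ffff))) (nat_lit 34)) (nat_lit 0x1ffff))) (Nat.shiftLeft (Nat.land (Nat.shiftRight (Nat.shiftRight (Nat.shiftRight (Nat.shiftRight p (nat_lit 6)) (nat_lit 16)) (nat_lit 28)) (nat_lit 16)) (nat_lit 65535)) (nat_lit 70))))⟩,
  fun K p w => ⟨fun m x s1 s2 s3 s4 za ac => (K (Nat.shiftRight (Nat.shiftRight (Nat.shiftRight (Nat.shiftRight (Nat.shiftRight p (nat_lit 6)) (nat_lit 16)) (nat_lit 28)) (nat_lit 16)) (nat_lit 16)) (Nat.add (Nat.add (Nat.succ (Nat.add (Nat.add w (Nat.shiftLeft (Nat.land p (nat_lit 63)) (nat_lit 64))) (Nat.shiftLeft (Nat.land (Nat.shiftRight p (nat_lit 6)) (nat_lit 65535)) (nat_lit 70)))) (Nat.shiftLeft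
  (Nat.land (Nat.shiftRight (Nat.shiftRight (Nat.shiftRight p (nat_lit 6)) (nat_lit 16)) (nat_lit 28)) (nat_lit 65535)) (nat_lit 70))) (Nat.shiftLeft (Nat.land (Nat.shiftRight (Nat.shiftRight (Nat.shiftRight (Nat.shiftRight p (nat_lit 6)) (nat_lit 16)) (nat_lit 28)) (nat_lit 16)) (nat_lit 65535)) (nat_lit 70)))).1 m (Nat.shiftRight m (Nat.land (Nat.shiftRight (Nat.shiftRight m (nat_lit 34)) (Nat.land
  (Nat.shiftRight (Nat.shiftRight m (Nat.land (Nat.shiftRight (Nat.shiftRight m (Nat.land (Nat.shiftRight x (nat_lit 17)) (nat_lit 0x1ffff))) (nat_lit 34)) (nat_lit 0x1ffff))) (nat_lit 17)) (nat_lit 0x1ffff))) (nat_lit 0x1ffff))) (Nat.shiftRight m (Nat.land (Nat.shiftRight (Nat.shiftRight m (Nat.land (Nat.shiftRight x (nat_lit 17)) (nat_lit 0x1ffff))) (nat_lit 34)) (nat_lit 0x1ffff))) x s1 s2 (Nat.land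
  (Nat.land za (Nat.shiftRight m (Nat.land (Nat.shiftRight (Nat.shiftRight m (Nat.land (Nat.shiftRight x (nat_lit 17)) (nat_lit 0x1ffff))) (nat_lit 34)) (nat_lit 0x1ffff)))) (Nat.shiftRight m (Nat.land (Nat.shiftRight (Nat.shiftRight m (nat_lit 34)) (Nat.land (Nat.shiftRight (Nat.shiftRight m (Nat.land (Nat.shiftRight (Nat.shiftRight m (Nat.land (Nat.shiftRight x (nat_lit 17)) (nat_lit 0x1ffff))) (nat_lit 34))
  (nat_lit 0x1ffff))) (nat_lit 17)) (nat_lit 0x1ffff))) (nat_lit 0x1ffff)))) (Nat.add (Nat.add (Nat.add (Nat.add ac (Nat.land x (Nat.shiftLeft (Nat.land p (nat_lit 63)) (nat_lit 64)))) (Nat.land (Nat.lor (Nat.shiftRight m (Nat.land x (nat_lit 0x1ffff))) (Nat.shiftRight m (Nat.land (Nat.shiftRight x (nat_lit 34)) (nat_lit 0x1ffff)))) (Nat.shiftLeft (Nat.land (Nat.shiftRight p (nat_lit 6)) (nat_lit 65535))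
  (nat_lit 70)))) (Nat.land (Nat.lor (Nat.shiftRight m (Nat.land (Nat.shiftRight m (Nat.land (Nat.shiftRight x (nat_lit 17)) (nat_lit 0x1ffff))) (nat_lit 0x1ffff))) (Nat.shiftRight m (Nat.land (Nat.shiftRight (Nat.shiftRight m (Nat.land (Nat.shiftRight x (nat_lit 17)) (nat_lit 0x1ffff))) (nat_lit 34)) (nat_lit 0x1ffff)))) (Nat.shiftLeft (Nat.land (Nat.shiftRight (Nat.shiftRight (Nat.shiftRight p (nat_lit 6))
  (nat_lit 16)) (nat_lit 28)) (nat_lit 65535)) (nat_lit 70)))) (Nat.land (Nat.shiftRight m (Nat.land (Nat.shiftRight m (Nat.land (Nat.shiftRight (Nat.shiftRight m (Nat.land (Nat.shiftRight x (nat_lit 17)) (nat_lit 0x1ffff))) (nat_lit 34)) (nat_lit 0x1ffff))) (nat_lit 0x1ffff))) (Nat.shiftLeft (Nat.land (Nat.shiftRight (Nat.shiftRight (Nat.shiftRight (Nat.shiftRight p (nat_lit 6)) (nat_lit 16)) (nat_lit 28)) (nat_lit 16)) (nat_lit 65535)) (nat_lit 70))))⟩,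
  rfl, rfl⟩
noncomputable def en54 : Ent := ⟨[nat_lit 10, nat_lit 8, nat_lit 5],
  fun K p w => ⟨fun m x s1 s2 s3 s4 za ac => (K (Nat.shiftRight p (nat_lit 6)) (Nat.add w (Nat.shiftLeft (Nat.land p (nat_lit 63)) (nat_lit 64)))).1 m (Nat.shiftRight m (Nat.land x (nat_lit 0x1ffff))) x s1 s2 s3 za (Nat.add ac (Nat.land x (Nat.shiftLeft (Nat.land p (nat_lit 63)) (nat_lit 64))))⟩,
  fun K p w => ⟨fun m x s1 s2 s3 s4 za ac => (K (Nat.shiftRight p (nat_lit 6)) (Nat.add w (Nat.shiftLeft (Nat.land p (nat_lit 63)) (nat_lit 64)))).1 m (Nat.shiftRight m (Nat.land (Nat.shiftRight x (nat_lit 17)) (nat_lit 0x1ffff))) x s1 s2 s3 za (Nat.add ac (Nat.land x (Nat.shiftLeft (Nat.land p (nat_lit 63)) (nat_lit 64))))⟩,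
  rfl, rfl⟩
noncomputable def en55 : Ent := ⟨[nat_lit 0, nat_lit 3, nat_lit 11],
  fun K p w => ⟨fun m x s1 s2 s3 s4 za ac => (K (Nat.shiftRight p (nat_lit 16)) (Nat.add w (Nat.shiftLeft (Nat.land p (nat_lit 65535)) (nat_lit 70)))).1 m (Nat.shiftRight m (Nat.land (Nat.shiftRight m (Nat.land (Nat.shiftRight (Nat.shiftRight m (nat_lit 34)) (Nat.land x (nat_lit 0x1ffff))) (nat_lit 0x1ffff))) (nat_lit 0x1ffff))) s1 s2 s3 s4 (Nat.land za (Nat.shiftRight m (Nat.land (Nat.shiftRight (Nat.shiftRight m (nat_lit 34)) (Nat.land x (nat_lit 0x1ffff))) (nat_lit 0x1ffff)))) (Nat.add ac (Nat.land (Nat.shiftRight m (Nat.land (Nat.shiftRight m (Nat.land (Nat.shiftRight (Nat.shiftRight m (nat_lit 34)) (Nat.land x (nat_lit 0x1ffff))) (nat_lit 0x1ffff))) (nat_lit 0x1ffff))) (Nat.shiftLeft (Nat.land p (nat_lit 65535)) (nat_lit 70))))⟩,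
  fun K p w => ⟨fun m x s1 s2 s3 s4 za ac => (K (Nat.shiftRight p (nat_lit 16)) (Nat.add w (Nat.shiftLeft (Nat.land p (nat_lit 65535)) (nat_lit 70)))).1 m (Nat.shiftRight m (Nat.land (Nat.shiftRight (Nat.shiftRight m (Nat.land (Nat.shiftRight (Nat.shiftRight m (nat_lit 34)) (Nat.land (Nat.shiftRight x (nat_lit 17)) (nat_lit 0x1ffff))) (nat_lit 0x1ffff))) (nat_lit 17)) (nat_lit 0x1ffff))) s1 s2 s3 s4
  (Nat.land za (Nat.shiftRight m (Nat.land (Nat.shiftRight (Nat.shiftRight m (nat_lit 34)) (Nat.land (Nat.shiftRight x (nat_lit 17)) (nat_lit 0x1ffff))) (nat_lit 0x1ffff)))) (Nat.add ac (Nat.land (Nat.shiftRight m (Nat.land (Nat.shiftRight m (Nat.land (Nat.shiftRight (Nat.shiftRight m (Nat.land (Nat.shiftRight (Nat.shiftRight m (nat_lit 34)) (Nat.land (Nat.shiftRight x (nat_lit 17)) (nat_lit 0x1ffff))) (nat_lit 0x1ffff))) (nat_lit 17)) (nat_lit 0x1ffff))) (nat_lit 0x1ffff))) (Nat.shiftLeft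 (Nat.land p (nat_lit 65535)) (nat_lit 70))))⟩,
  rfl, rfl⟩
noncomputable def en56 : Ent := ⟨[nat_lit 3, nat_lit 7, nat_lit 10, nat_lit 5],
  fun K p w => ⟨fun m x s1 s2 s3 s4 za ac => (K (Nat.shiftRight p (nat_lit 6)) (Nat.add w (Nat.shiftLeft (Nat.land p (nat_lit 63)) (nat_lit 64)))).1 m (Nat.shiftRight m (Nat.land (Nat.shiftRight m (Nat.land (Nat.shiftRight (Nat.shiftRight m (Nat.land x (nat_lit 0x1ffff))) (nat_lit 34)) (nat_lit 0x1ffff))) (nat_lit 0x1ffff))) s1 s2 s3 s4 za (Nat.add ac (Nat.land (Nat.shiftRight m (Nat.land (Nat.shiftRight (Nat.shiftRight m (Nat.land x (nat_lit 0x1ffff))) (nat_lit 34)) (nat_lit 0x1ffff))) (Nat.shiftLeft (Nat.land p (nat_lit 63)) (nat_lit 64))))⟩,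
  fun K p w => ⟨fun m x s1 s2 s3 s4 za ac => (K (Nat.shiftRight p (nat_lit 6)) (Nat.add w (Nat.shiftLeft (Nat.land p (nat_lit 63)) (nat_lit 64)))).1 m (Nat.shiftRight m (Nat.land (Nat.shiftRight (Nat.shiftRight m (Nat.land (Nat.shiftRight (Nat.shiftRight m (Nat.land (Nat.shiftRight x (nat_lit 17)) (nat_lit 0x1ffff))) (nat_lit 34)) (nat_lit 0x1ffff))) (nat_lit 17)) (nat_lit 0x1ffff))) s1 s2 s3 s4 za (Nat.add ac (Nat.land (Nat.shiftRight m (Nat.land (Nat.shiftRight (Nat.shiftRight m (Nat.land (Nat.shiftRight x (nat_lit 17)) (nat_lit 0x1ffff))) (nat_lit 34)) (nat_lit 0x1ffff))) (Nat.shiftLeft (Nat.land p (nat_lit 63)) (nat_lit 64))))⟩,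
  rfl, rfl⟩
noncomputable def en57 : Ent := ⟨[nat_lit 9, nat_lit 4, nat_lit 11, nat_lit 2, nat_lit 1],
  fun K p w => ⟨fun m x s1 s2 s3 s4 za ac => (K (Nat.shiftRight p (nat_lit 16)) (Nat.add w (Nat.shiftLeft (Nat.land p (nat_lit 65535)) (nat_lit 70)))).1 m (Nat.shiftRight m (Nat.land (Nat.shiftRight (Nat.shiftRight m (nat_lit 34)) (Nat.land (Nat.shiftRight (Nat.shiftRight m (Nat.land (Nat.shiftRight (Nat.shiftRight m (Nat.land (Nat.shiftRight s1 (nat_lit 17)) (nat_lit 0x1ffff))) (nat_lit 34)) (nat_lit 0x1ffff)))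
  (nat_lit 17)) (nat_lit 0x1ffff))) (nat_lit 0x1ffff))) s2 s3 s4 s4 (Nat.land (Nat.land za (Nat.shiftRight m (Nat.land (Nat.shiftRight (Nat.shiftRight m (Nat.land (Nat.shiftRight s1 (nat_lit 17)) (nat_lit 0x1ffff))) (nat_lit 34)) (nat_lit 0x1ffff)))) (Nat.shiftRight m (Nat.land (Nat.shiftRight (Nat.shiftRight m (nat_lit 34)) (Nat.land (Nat.shiftRight (Nat.shiftRight m (Nat.land (Nat.shiftRight (Nat.shiftRight m (Nat.land (Nat.shiftRight s1 (nat_lit 17)) (nat_lit 0x1ffff))) (nat_lit 34)) (nat_lit 0x1ffff))) (nat_lit 17)) (nat_lit 0x1ffff))) (nat_lit 0x1ffff)))) (Nat.add ac (Nat.land (Nat.shiftRight m (Nat.land (Nat.shiftRight s1 (nat_lit 17)) (nat_lit 0x1ffff))) (Nat.shiftLeft (Nat.land p (nat_lit 65535)) (nat_lit 70))))⟩,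
  fun K p w => ⟨fun m x s1 s2 s3 s4 za ac => (K (Nat.shiftRight p (nat_lit 16)) (Nat.add w (Nat.shiftLeft (Nat.land p (nat_lit 65535)) (nat_lit 70)))).1 m (Nat.shiftRight m (Nat.land (Nat.shiftRight (Nat.shiftRight m (nat_lit 34)) (Nat.land (Nat.shiftRight m (Nat.land (Nat.shiftRight (Nat.shiftRight m (Nat.land s1 (nat_lit 0x1ffff))) (nat_lit 34)) (nat_lit 0x1ffff))) (nat_lit 0x1ffff))) (nat_lit 0x1ffff))) s2 s3 s4 s4
  (Nat.land (Nat.land za (Nat.shiftRight m (Nat.land (Nat.shiftRight (Nat.shiftRight m (Nat.land s1 (nat_lit 0x1ffff))) (nat_lit 34)) (nat_lit 0x1ffff)))) (Nat.shiftRight m (Nat.land (Nat.shiftRight (Nat.shiftRight m (nat_lit 34)) (Nat.land (Nat.shiftRight m (Nat.land (Nat.shiftRight (Nat.shiftRight m (Nat.land s1 (nat_lit 0x1ffff))) (nat_lit 34)) (nat_lit 0x1ffff))) (nat_lit 0x1ffff))) (nat_lit 0x1ffff)))) (Nat.add ac (Nat.land (Nat.shiftRight m (Nat.land (Nat.shiftRight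 m (Nat.land s1 (nat_lit 0x1ffff))) (nat_lit 0x1ffff))) (Nat.shiftLeft (Nat.land p (nat_lit 65535)) (nat_lit 70))))⟩,
  rfl, rfl⟩
noncomputable def en58 : Ent := ⟨[nat_lit 8, nat_lit 3, nat_lit 7, nat_lit 10, nat_lit 5],
  fun K p w => ⟨fun m x s1 s2 s3 s4 za ac => (K (Nat.shiftRight p (nat_lit 6)) (Nat.add w (Nat.shiftLeft (Nat.land p (nat_lit 63)) (nat_lit 64)))).1 m (Nat.shiftRight m (Nat.land (Nat.shiftRight m (Nat.land (Nat.shiftRight (Nat.shiftRight m (Nat.land x (nat_lit 0x1ffff))) (nat_lit 34)) (nat_lit 0x1ffff))) (nat_lit 0x1ffff))) x s1 s2 s3 za (Nat.add ac (Nat.land (Nat.shiftRight m (Nat.land (Nat.shiftRight (Nat.shiftRight m (Nat.land x (nat_lit 0x1ffff))) (nat_lit 34)) (nat_lit 0x1ffff))) (Nat.shiftLeft (Nat.land p (nat_lit 63)) (nat_lit 64))))⟩,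
  fun K p w => ⟨fun m x s1 s2 s3 s4 za ac => (K (Nat.shiftRight p (nat_lit 6)) (Nat.add w (Nat.shiftLeft (Nat.land p (nat_lit 63)) (nat_lit 64)))).1 m (Nat.shiftRight m (Nat.land (Nat.shiftRight (Nat.shiftRight m (Nat.land (Nat.shiftRight (Nat.shiftRight m (Nat.land (Nat.shiftRight x (nat_lit 17)) (nat_lit 0x1ffff))) (nat_lit 34)) (nat_lit 0x1ffff))) (nat_lit 17)) (nat_lit 0x1ffff))) x s1 s2 s3 za (Nat.add ac (Nat.land (Nat.shiftRight m (Nat.land (Nat.shiftRight (Nat.shiftRight m (Nat.land (Nat.shiftRight x (nat_lit 17)) (nat_lit 0x1ffff))) (nat_lit 34)) (nat_lit 0x1ffff))) (Nat.shiftLeft (Nat.land p (nat_lit 63)) (nat_lit 64))))⟩,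
  rfl, rfl⟩
noncomputable def en59 : Ent := ⟨[nat_lit 4, nat_lit 11, nat_lit 9, nat_lit 4, nat_lit 11],
  fun K p w => ⟨fun m x s1 s2 s3 s4 za ac => (K (Nat.shiftRight (Nat.shiftRight p (nat_lit 16)) (nat_lit 16)) (Nat.add (Nat.add w (Nat.shiftLeft (Nat.land p (nat_lit 65535)) (nat_lit 70))) (Nat.shiftLeft (Nat.land (Nat.shiftRight p (nat_lit 16)) (nat_lit 65535)) (nat_lit 70)))).1 m (Nat.shiftRight m (Nat.land (Nat.shiftRight s1 (nat_lit 17)) (nat_lit 0x1ffff))) s2 s3 s4 s4 za (Nat.add (Nat.add ac (Nat.land (Nat.shiftRight m (Nat.land (Nat.shiftRight x (nat_lit 17)) (nat_lit 0x1ffff))) (Nat.shiftLeft (Nat.land p (nat_lit 65535)) (nat_lit 70)))) (Nat.land (Nat.shiftRight m (Nat.land (Nat.shiftRight s1 (nat_lit 17)) (nat_lit 0x1ffff))) (Nat.shiftLeft (Nat.land (Nat.shiftRight p (nat_lit 16)) (nat_lit 65535)) (nat_lit 70))))⟩,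
  fun K p w => ⟨fun m x s1 s2 s3 s4 za ac => (K (Nat.shiftRight (Nat.shiftRight p (nat_lit 16)) (nat_lit 16)) (Nat.add (Nat.add w (Nat.shiftLeft (Nat.land p (nat_lit 65535)) (nat_lit 70))) (Nat.shiftLeft (Nat.land (Nat.shiftRight p (nat_lit 16)) (nat_lit 65535)) (nat_lit 70)))).1 m (Nat.shiftRight m (Nat.land s1 (nat_lit 0x1ffff))) s2 s3 s4 s4 za (Nat.add (Nat.add ac (Nat.land (Nat.shiftRight m (Nat.land (Nat.shiftRight m (Nat.land x (nat_lit 0x1ffff))) (nat_lit 0x1ffff))) (Nat.shiftLeft (Nat.land p (nat_lit 65535)) (nat_lit 70)))) (Nat.land (Nat.shiftRight m (Nat.land (Nat.shiftRight m (Nat.land s1 (nat_lit 0x1ffff))) (nat_lit 0x1ffff))) (Nat.shiftLeft (Nat.land (Nat.shiftRight p (nat_lit 16)) (nat_lit 65535)) (nat_lit 70))))⟩,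
  rfl, rfl⟩
noncomputable def en60 : Ent := ⟨[nat_lit 9, nat_lit 1, nat_lit 1],
  fun K p w => ⟨fun m x s1 s2 s3 s4 za ac => (K p w).1 m (Nat.shiftRight m (Nat.land (Nat.shiftRight (Nat.shiftRight m (nat_lit 34)) (Nat.land (Nat.shiftRight (Nat.shiftRight m (Nat.land (Nat.shiftRight (Nat.shiftRight m (nat_lit 34)) (Nat.land (Nat.shiftRight s1 (nat_lit 17)) (nat_lit 0x1ffff))) (nat_lit 0x1ffff))) (nat_lit 17)) (nat_lit 0x1ffff))) (nat_lit 0x1ffff))) s2 s3 s4 s4 (Nat.land (Nat.land za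
  (Nat.shiftRight m (Nat.land (Nat.shiftRight (Nat.shiftRight m (nat_lit 34)) (Nat.land (Nat.shiftRight s1 (nat_lit 17)) (nat_lit 0x1ffff))) (nat_lit 0x1ffff)))) (Nat.shiftRight m (Nat.land (Nat.shiftRight (Nat.shiftRight m (nat_lit 34)) (Nat.land (Nat.shiftRight (Nat.shiftRight m (Nat.land (Nat.shiftRight (Nat.shiftRight m (nat_lit 34)) (Nat.land (Nat.shiftRight s1 (nat_lit 17)) (nat_lit 0x1ffff))) (nat_lit 0x1ffff))) (nat_lit 17)) (nat_lit 0x1ffff))) (nat_lit 0x1ffff)))) ac⟩,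
  fun K p w => ⟨fun m x s1 s2 s3 s4 za ac => (K p w).1 m (Nat.shiftRight m (Nat.land (Nat.shiftRight (Nat.shiftRight m (nat_lit 34)) (Nat.land (Nat.shiftRight m (Nat.land (Nat.shiftRight (Nat.shiftRight m (nat_lit 34)) (Nat.land s1 (nat_lit 0x1ffff))) (nat_lit 0x1ffff))) (nat_lit 0x1ffff))) (nat_lit 0x1ffff))) s2 s3 s4 s4 (Nat.land (Nat.land za (Nat.shiftRight m (Nat.land (Nat.shiftRight (Nat.shiftRight m (nat_lit 34)) (Nat.land s1 (nat_lit 0x1ffff))) (nat_lit 0x1ffff)))) (Nat.shiftRight m (Nat.land (Nat.shiftRight (Nat.shiftRight m (nat_lit 34)) (Nat.land (Nat.shiftRight m (Nat.land (Nat.shiftRight (Nat.shiftRight m (nat_lit 34)) (Nat.land s1 (nat_lit 0x1ffff))) (nat_lit 0x1ffff))) (nat_lit 0x1ffff))) (nat_lit 0x1ffff)))) ac⟩,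
  rfl, rfl⟩
noncomputable def en61 : Ent := ⟨[nat_lit 12, nat_lit 12, nat_lit 2],
  fun K p w => ⟨fun m x s1 s2 s3 s4 za ac => (K (Nat.shiftRight (Nat.shiftRight p (nat_lit 28)) (nat_lit 28)) (Nat.add (Nat.add w (plA p)) (plA (Nat.shiftRight p (nat_lit 28))))).1 m (Nat.shiftRight m (Nat.land (Nat.shiftRight x (nat_lit 34)) (nat_lit 0x1ffff))) s1 s2 s3 s4 (Nat.land za (Nat.shiftRight m (Nat.land (Nat.shiftRight x (nat_lit 34)) (nat_lit 0x1ffff)))) (Nat.add (Nat.add ac (Nat.land x (plA p))) (Nat.land x (plA (Nat.shiftRight p (nat_lit 28)))))⟩,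
  fun K p w => ⟨fun m x s1 s2 s3 s4 za ac => (K (Nat.shiftRight (Nat.shiftRight p (nat_lit 28)) (nat_lit 28)) (Nat.succ (Nat.succ w))).1 m (Nat.shiftRight m (Nat.land (Nat.shiftRight x (nat_lit 34)) (nat_lit 0x1ffff))) s1 s2 s3 s4 (Nat.land za (Nat.shiftRight m (Nat.land (Nat.shiftRight x (nat_lit 34)) (nat_lit 0x1ffff)))) ac⟩,
  rfl, rfl⟩
noncomputable def en62 : Ent := ⟨[nat_lit 3, nat_lit 11, nat_lit 2],
  fun K p w => ⟨fun m x s1 s2 s3 s4 za ac => (K (Nat.shiftRight p (nat_lit 16)) (Nat.add w (Nat.shiftLeft (Nat.land p (nat_lit 65535)) (nat_lit 70)))).1 m (Nat.shiftRight m (Nat.land (Nat.shiftRight (Nat.shiftRight m (Nat.land x (nat_lit 0x1ffff))) (nat_lit 34)) (nat_lit 0x1ffff))) s1 s2 s3 s4 (Nat.land za (Nat.shiftRight m (Nat.land (Nat.shiftRight (Nat.shiftRight m (Nat.land x (nat_lit 0x1ffff))) (nat_lit 34)) (nat_lit 0x1ffff)))) (Nat.add ac (Nat.land (Nat.shiftRight m (Nat.land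 x (nat_lit 0x1ffff))) (Nat.shiftLeft (Nat.land p (nat_lit 65535)) (nat_lit 70))))⟩,
  fun K p w => ⟨fun m x s1 s2 s3 s4 za ac => (K (Nat.shiftRight p (nat_lit 16)) (Nat.add w (Nat.shiftLeft (Nat.land p (nat_lit 65535)) (nat_lit 70)))).1 m (Nat.shiftRight m (Nat.land (Nat.shiftRight (Nat.shiftRight m (Nat.land (Nat.shiftRight x (nat_lit 17)) (nat_lit 0x1ffff))) (nat_lit 34)) (nat_lit 0x1ffff))) s1 s2 s3 s4 (Nat.land za (Nat.shiftRight m (Nat.land (Nat.shiftRight (Nat.shiftRight m (Nat.land (Nat.shiftRight x (nat_lit 17)) (nat_lit 0x1ffff))) (nat_lit 34)) (nat_lit 0x1ffff)))) (Nat.add ac (Nat.land (Nat.shiftRight m (Nat.land (Nat.shiftRight m (Nat.land (Nat.shiftRight x (nat_lit 17)) (nat_lit 0x1ffff))) (nat_lit 0x1ffff))) (Nat.shiftLeft (Nat.land p (nat_lit 65535)) (nat_lit 70))))⟩,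
  rfl, rfl⟩
noncomputable def en63 : Ent := ⟨[nat_lit 3, nat_lit 11, nat_lit 2, nat_lit 11],
  fun K p w => ⟨fun m x s1 s2 s3 s4 za ac => (K (Nat.shiftRight (Nat.shiftRight p (nat_lit 16)) (nat_lit 16)) (Nat.add (Nat.add w (Nat.shiftLeft (Nat.land p (nat_lit 65535)) (nat_lit 70))) (Nat.shiftLeft (Nat.land (Nat.shiftRight p (nat_lit 16)) (nat_lit 65535)) (nat_lit 70)))).1 m (Nat.shiftRight m (Nat.land (Nat.shiftRight (Nat.shiftRight m (Nat.land x (nat_lit 0x1ffff))) (nat_lit 34)) (nat_lit 0x1ffff))) s1 s2 s3 s4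
  (Nat.land za (Nat.shiftRight m (Nat.land (Nat.shiftRight (Nat.shiftRight m (Nat.land x (nat_lit 0x1ffff))) (nat_lit 34)) (nat_lit 0x1ffff)))) (Nat.add (Nat.add ac (Nat.land (Nat.shiftRight m (Nat.land x (nat_lit 0x1ffff))) (Nat.shiftLeft (Nat.land p (nat_lit 65535)) (nat_lit 70)))) (Nat.land (Nat.shiftRight m (Nat.land (Nat.shiftRight (Nat.shiftRight m (Nat.land x (nat_lit 0x1ffff))) (nat_lit 34)) (nat_lit 0x1ffff))) (Nat.shiftLeft (Nat.land (Nat.shiftRight p (nat_lit 16)) (nat_lit 65535)) (nat_lit 70))))⟩,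
  fun K p w => ⟨fun m x s1 s2 s3 s4 za ac => (K (Nat.shiftRight (Nat.shiftRight p (nat_lit 16)) (nat_lit 16)) (Nat.add (Nat.add w (Nat.shiftLeft (Nat.land p (nat_lit 65535)) (nat_lit 70))) (Nat.shiftLeft (Nat.land (Nat.shiftRight p (nat_lit 16)) (nat_lit 65535)) (nat_lit 70)))).1 m (Nat.shiftRight m (Nat.land (Nat.shiftRight (Nat.shiftRight m (Nat.land (Nat.shiftRight x (nat_lit 17)) (nat_lit 0x1ffff)))
  (nat_lit 34)) (nat_lit 0x1ffff))) s1 s2 s3 s4 (Nat.land za (Nat.shiftRight m (Nat.land (Nat.shiftRight (Nat.shiftRight m (Nat.land (Nat.shiftRight x (nat_lit 17)) (nat_lit 0x1ffff))) (nat_lit 34)) (nat_lit 0x1ffff)))) (Nat.add (Nat.add ac (Nat.land (Nat.shiftRight m (Nat.land (Nat.shiftRight m (Nat.land (Nat.shiftRight x (nat_lit 17)) (nat_lit 0x1ffff))) (nat_lit 0x1ffff))) (Nat.shiftLeft (Nat.land p (nat_lit 65535)) (nat_lit 70)))) (Nat.land (Nat.shiftRight m (Nat.land (Nat.shiftRight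 m (Nat.land (Nat.shiftRight (Nat.shiftRight m (Nat.land (Nat.shiftRight x (nat_lit 17)) (nat_lit 0x1ffff))) (nat_lit 34)) (nat_lit 0x1ffff))) (nat_lit 0x1ffff))) (Nat.shiftLeft (Nat.land (Nat.shiftRight p (nat_lit 16)) (nat_lit 65535)) (nat_lit 70))))⟩,
  rfl, rfl⟩
noncomputable def en64 : Ent := ⟨[nat_lit 7, nat_lit 5],
  fun K p w => ⟨fun m x s1 s2 s3 s4 za ac => (K p w).1 m (Nat.shiftRight m (Nat.land (Nat.shiftRight m (Nat.land (Nat.shiftRight x (nat_lit 34)) (nat_lit 0x1ffff))) (nat_lit 0x1ffff))) s1 s2 s3 s4 za ac⟩,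
  fun K p w => ⟨fun m x s1 s2 s3 s4 za ac => (K p w).1 m (Nat.shiftRight m (Nat.land (Nat.shiftRight (Nat.shiftRight m (Nat.land (Nat.shiftRight x (nat_lit 34)) (nat_lit 0x1ffff))) (nat_lit 17)) (nat_lit 0x1ffff))) s1 s2 s3 s4 za ac⟩,
  rfl, rfl⟩
noncomputable def en65 : Ent := ⟨[nat_lit 9, nat_lit 2, nat_lit 11],
  fun K p w => ⟨fun m x s1 s2 s3 s4 za ac => (K (Nat.shiftRight p (nat_lit 16)) (Nat.add w (Nat.shiftLeft (Nat.land p (nat_lit 65535)) (nat_lit 70)))).1 m (Nat.shiftRight m (Nat.land (Nat.shiftRight s1 (nat_lit 34)) (nat_lit 0x1ffff))) s2 s3 s4 s4 (Nat.land za (Nat.shiftRight m (Nat.land (Nat.shiftRight s1 (nat_lit 34)) (nat_lit 0x1ffff)))) (Nat.add ac (Nat.land (Nat.shiftRight m (Nat.land (Nat.shiftRight s1 (nat_lit 34)) (nat_lit 0x1ffff))) (Nat.shiftLeft (Nat.land p (nat_lit 65535)) (nat_lit 70))))⟩,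
  fun K p w => ⟨fun m x s1 s2 s3 s4 za ac => (K (Nat.shiftRight p (nat_lit 16)) (Nat.add w (Nat.shiftLeft (Nat.land p (nat_lit 65535)) (nat_lit 70)))).1 m (Nat.shiftRight m (Nat.land (Nat.shiftRight s1 (nat_lit 34)) (nat_lit 0x1ffff))) s2 s3 s4 s4 (Nat.land za (Nat.shiftRight m (Nat.land (Nat.shiftRight s1 (nat_lit 34)) (nat_lit 0x1ffff)))) (Nat.add ac (Nat.land (Nat.shiftRight m (Nat.land (Nat.shiftRight m (Nat.land (Nat.shiftRight s1 (nat_lit 34)) (nat_lit 0x1ffff))) (nat_lit 0x1ffff))) (Nat.shiftLeft (Nat.land p (nat_lit 65535)) (nat_lit 70))))⟩,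
  rfl, rfl⟩
noncomputable def en66 : Ent := ⟨[nat_lit 9, nat_lit 2, nat_lit 8, nat_lit 0, nat_lit 11],
  fun K p w => ⟨fun m x s1 s2 s3 s4 za ac => (K (Nat.shiftRight p (nat_lit 16)) (Nat.add w (Nat.shiftLeft (Nat.land p (nat_lit 65535)) (nat_lit 70)))).1 m (Nat.shiftRight m (Nat.land (Nat.shiftRight (Nat.shiftRight m (nat_lit 34)) (Nat.land (Nat.shiftRight m (Nat.land (Nat.shiftRight s1 (nat_lit 34)) (nat_lit 0x1ffff))) (nat_lit 0x1ffff))) (nat_lit 0x1ffff))) (Nat.shiftRight m (Nat.land (Nat.shiftRight s1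
  (nat_lit 34)) (nat_lit 0x1ffff))) s2 s3 s4 (Nat.land (Nat.land za (Nat.shiftRight m (Nat.land (Nat.shiftRight s1 (nat_lit 34)) (nat_lit 0x1ffff)))) (Nat.shiftRight m (Nat.land (Nat.shiftRight (Nat.shiftRight m (nat_lit 34)) (Nat.land (Nat.shiftRight m (Nat.land (Nat.shiftRight s1 (nat_lit 34)) (nat_lit 0x1ffff))) (nat_lit 0x1ffff))) (nat_lit 0x1ffff)))) (Nat.add ac (Nat.land (Nat.shiftRight m (Nat.land (Nat.shiftRight (Nat.shiftRight m (nat_lit 34)) (Nat.land (Nat.shiftRight m (Nat.land (Nat.shiftRight s1 (nat_lit 34)) (nat_lit 0x1ffff))) (nat_lit 0x1ffff))) (nat_lit 0x1ffff))) (Nat.shiftLeft (Nat.land p (nat_lit 65535)) (nat_lit 70))))⟩,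
  fun K p w => ⟨fun m x s1 s2 s3 s4 za ac => (K (Nat.shiftRight p (nat_lit 16)) (Nat.add w (Nat.shiftLeft (Nat.land p (nat_lit 65535)) (nat_lit 70)))).1 m (Nat.shiftRight m (Nat.land (Nat.shiftRight (Nat.shiftRight m (nat_lit 34)) (Nat.land (Nat.shiftRight (Nat.shiftRight m (Nat.land (Nat.shiftRight s1 (nat_lit 34)) (nat_lit 0x1ffff))) (nat_lit 17)) (nat_lit 0x1ffff))) (nat_lit 0x1ffff))) (Nat.shiftRight m
  (Nat.land (Nat.shiftRight s1 (nat_lit 34)) (nat_lit 0x1ffff))) s2 s3 s4 (Nat.land (Nat.land za (Nat.shiftRight m (Nat.land (Nat.shiftRight s1 (nat_lit 34)) (nat_lit 0x1ffff)))) (Nat.shiftRight m (Nat.land (Nat.shiftRight (Nat.shiftRight m (nat_lit 34)) (Nat.land (Nat.shiftRight (Nat.shiftRight m (Nat.land (Nat.shiftRight s1 (nat_lit 34)) (nat_lit 0x1ffff))) (nat_lit 17)) (nat_lit 0x1ffff))) (nat_lit 0x1ffff)))) (Nat.add ac (Nat.land (Nat.shiftRight m (Nat.land (Nat.shiftRight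 m (Nat.land (Nat.shiftRight (Nat.shiftRight m (nat_lit 34)) (Nat.land (Nat.shiftRight (Nat.shiftRight m (Nat.land (Nat.shiftRight s1 (nat_lit 34)) (nat_lit 0x1ffff))) (nat_lit 17)) (nat_lit 0x1ffff))) (nat_lit 0x1ffff))) (nat_lit 0x1ffff))) (Nat.shiftLeft (Nat.land p (nat_lit 65535)) (nat_lit 70))))⟩,
  rfl, rfl⟩
noncomputable def en67 : Ent := ⟨[nat_lit 9, nat_lit 4, nat_lit 7, nat_lit 10, nat_lit 5],
  fun K p w => ⟨fun m x s1 s2 s3 s4 za ac => (K (Nat.shiftRight p (nat_lit 6)) (Nat.add w (Nat.shiftLeft (Nat.land p (nat_lit 63)) (nat_lit 64)))).1 m (Nat.shiftRight m (Nat.land (Nat.shiftRight m (Nat.land (Nat.shiftRight (Nat.shiftRight m (Nat.land (Nat.shiftRight s1 (nat_lit 17)) (nat_lit 0x1ffff))) (nat_lit 34)) (nat_lit 0x1ffff))) (nat_lit 0x1ffff))) s2 s3 s4 s4 za (Nat.add ac (Nat.land (Nat.shiftRight m (Nat.land (Nat.shiftRight (Nat.shiftRight m (Nat.land (Nat.shiftRight s1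 (nat_lit 17)) (nat_lit 0x1ffff))) (nat_lit 34)) (nat_lit 0x1ffff))) (Nat.shiftLeft (Nat.land p (nat_lit 63)) (nat_lit 64))))⟩,
  fun K p w => ⟨fun m x s1 s2 s3 s4 za ac => (K (Nat.shiftRight p (nat_lit 6)) (Nat.add w (Nat.shiftLeft (Nat.land p (nat_lit 63)) (nat_lit 64)))).1 m (Nat.shiftRight m (Nat.land (Nat.shiftRight (Nat.shiftRight m (Nat.land (Nat.shiftRight (Nat.shiftRight m (Nat.land s1 (nat_lit 0x1ffff))) (nat_lit 34)) (nat_lit 0x1ffff))) (nat_lit 17)) (nat_lit 0x1ffff))) s2 s3 s4 s4 za (Nat.add ac (Nat.land (Nat.shiftRight m (Nat.land (Nat.shiftRight (Nat.shiftRight m (Nat.land s1 (nat_lit 0x1ffff))) (nat_lit 34)) (nat_lit 0x1ffff))) (Nat.shiftLeft (Nat.land p (nat_lit 63)) (nat_lit 64))))⟩,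
  rfl, rfl⟩
noncomputable def en68 : Ent := ⟨[nat_lit 4, nat_lit 13],
  fun K p w => ⟨fun m x s1 s2 s3 s4 za ac => (K p (Nat.add w (nat_lit 0x10000000000000000))).1 m (Nat.shiftRight m (Nat.land (Nat.shiftRight (Nat.shiftRight m (Nat.land (Nat.shiftRight x (nat_lit 17)) (nat_lit 0x1ffff))) (nat_lit 34)) (nat_lit 0x1ffff))) s1 s2 s3 s4 za (Nat.add ac (Nat.land (Nat.shiftRight m (Nat.land (Nat.shiftRight (Nat.shiftRight m (Nat.land (Nat.shiftRight x (nat_lit 17)) (nat_lit 0x1ffff))) (nat_lit 34)) (nat_lit 0x1ffff))) (nat_lit 0x10000000000000000)))⟩,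
  fun K p w => ⟨fun m x s1 s2 s3 s4 za ac => (K p (Nat.add w (nat_lit 0x10000000000000000))).1 m (Nat.shiftRight m (Nat.land (Nat.shiftRight (Nat.shiftRight m (Nat.land x (nat_lit 0x1ffff))) (nat_lit 34)) (nat_lit 0x1ffff))) s1 s2 s3 s4 za (Nat.add ac (Nat.land (Nat.shiftRight m (Nat.land (Nat.shiftRight (Nat.shiftRight m (Nat.land x (nat_lit 0x1ffff))) (nat_lit 34)) (nat_lit 0x1ffff))) (nat_lit 0x10000000000000000)))⟩,
  rfl, rfl⟩
noncomputable def en69 : Ent := ⟨[nat_lit 1, nat_lit 12, nat_lit 12],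
  fun K p w => ⟨fun m x s1 s2 s3 s4 za ac => (K (Nat.shiftRight (Nat.shiftRight p (nat_lit 28)) (nat_lit 28)) (Nat.add (Nat.add w (plA p)) (plA (Nat.shiftRight p (nat_lit 28))))).1 m (Nat.shiftRight m (Nat.land (Nat.shiftRight (Nat.shiftRight m (nat_lit 34)) (Nat.land (Nat.shiftRight x (nat_lit 17)) (nat_lit 0x1ffff))) (nat_lit 0x1ffff))) s1 s2 s3 s4 (Nat.land za (Nat.shiftRight m (Nat.land (Nat.shiftRight
  (Nat.shiftRight m (nat_lit 34)) (Nat.land (Nat.shiftRight x (nat_lit 17)) (nat_lit 0x1ffff))) (nat_lit 0x1ffff)))) (Nat.add (Nat.add ac (Nat.land (Nat.shiftRight m (Nat.land (Nat.shiftRight (Nat.shiftRight m (nat_lit 34)) (Nat.land (Nat.shiftRight x (nat_lit 17)) (nat_lit 0x1ffff))) (nat_lit 0x1ffff))) (plA p))) (Nat.land (Nat.shiftRight m (Nat.land (Nat.shiftRight (Nat.shiftRight m (nat_lit 34)) (Nat.land (Nat.shiftRight x (nat_lit 17)) (nat_lit 0x1ffff))) (nat_lit 0x1ffff)))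 (plA (Nat.shiftRight p (nat_lit 28)))))⟩,
  fun K p w => ⟨fun m x s1 s2 s3 s4 za ac => (K (Nat.shiftRight (Nat.shiftRight p (nat_lit 28)) (nat_lit 28)) (Nat.succ (Nat.succ w))).1 m (Nat.shiftRight m (Nat.land (Nat.shiftRight (Nat.shiftRight m (nat_lit 34)) (Nat.land x (nat_lit 0x1ffff))) (nat_lit 0x1ffff))) s1 s2 s3 s4 (Nat.land za (Nat.shiftRight m (Nat.land (Nat.shiftRight (Nat.shiftRight m (nat_lit 34)) (Nat.land x (nat_lit 0x1ffff))) (nat_lit 0x1ffff)))) ac⟩,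
  rfl, rfl⟩
noncomputable def en70 : Ent := ⟨[nat_lit 8, nat_lit 3, nat_lit 11, nat_lit 2, nat_lit 11],
  fun K p w => ⟨fun m x s1 s2 s3 s4 za ac => (K (Nat.shiftRight (Nat.shiftRight p (nat_lit 16)) (nat_lit 16)) (Nat.add (Nat.add w (Nat.shiftLeft (Nat.land p (nat_lit 65535)) (nat_lit 70))) (Nat.shiftLeft (Nat.land (Nat.shiftRight p (nat_lit 16)) (nat_lit 65535)) (nat_lit 70)))).1 m (Nat.shiftRight m (Nat.land (Nat.shiftRight (Nat.shiftRight m (Nat.land x (nat_lit 0x1ffff))) (nat_lit 34)) (nat_lit 0x1ffff))) x s1 s2 s3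
  (Nat.land za (Nat.shiftRight m (Nat.land (Nat.shiftRight (Nat.shiftRight m (Nat.land x (nat_lit 0x1ffff))) (nat_lit 34)) (nat_lit 0x1ffff)))) (Nat.add (Nat.add ac (Nat.land (Nat.shiftRight m (Nat.land x (nat_lit 0x1ffff))) (Nat.shiftLeft (Nat.land p (nat_lit 65535)) (nat_lit 70)))) (Nat.land (Nat.shiftRight m (Nat.land (Nat.shiftRight (Nat.shiftRight m (Nat.land x (nat_lit 0x1ffff))) (nat_lit 34)) (nat_lit 0x1ffff))) (Nat.shiftLeft (Nat.land (Nat.shiftRight p (nat_lit 16)) (nat_lit 65535)) (nat_lit 70))))⟩,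
  fun K p w => ⟨fun m x s1 s2 s3 s4 za ac => (K (Nat.shiftRight (Nat.shiftRight p (nat_lit 16)) (nat_lit 16)) (Nat.add (Nat.add w (Nat.shiftLeft (Nat.land p (nat_lit 65535)) (nat_lit 70))) (Nat.shiftLeft (Nat.land (Nat.shiftRight p (nat_lit 16)) (nat_lit 65535)) (nat_lit 70)))).1 m (Nat.shiftRight m (Nat.land (Nat.shiftRight (Nat.shiftRight m (Nat.land (Nat.shiftRight x (nat_lit 17)) (nat_lit 0x1ffff)))
  (nat_lit 34)) (nat_lit 0x1ffff))) x s1 s2 s3 (Nat.land za (Nat.shiftRight m (Nat.land (Nat.shiftRight (Nat.shiftRight m (Nat.land (Nat.shiftRight x (nat_lit 17)) (nat_lit 0x1ffff))) (nat_lit 34)) (nat_lit 0x1ffff)))) (Nat.add (Nat.add ac (Nat.land (Nat.shiftRight m (Nat.land (Nat.shiftRight m (Nat.land (Nat.shiftRight x (nat_lit 17)) (nat_lit 0x1ffff))) (nat_lit 0x1ffff))) (Nat.shiftLeft (Nat.land p (nat_lit 65535)) (nat_lit 70)))) (Nat.land (Nat.shiftRight m (Nat.land (Nat.shiftRight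 m (Nat.land (Nat.shiftRight (Nat.shiftRight m (Nat.land (Nat.shiftRight x (nat_lit 17)) (nat_lit 0x1ffff))) (nat_lit 34)) (nat_lit 0x1ffff))) (nat_lit 0x1ffff))) (Nat.shiftLeft (Nat.land (Nat.shiftRight p (nat_lit 16)) (nat_lit 65535)) (nat_lit 70))))⟩,
  rfl, rfl⟩
noncomputable def en71 : Ent := ⟨[nat_lit 9, nat_lit 4, nat_lit 11, nat_lit 2, nat_lit 4, nat_lit 11, nat_lit 2, nat_lit 4, nat_lit 11],
  fun K p w => ⟨fun m x s1 s2 s3 s4 za ac => (K (Nat.shiftRight (Nat.shiftRight (Nat.shiftRight p (nat_lit 16)) (nat_lit 16)) (nat_lit 16)) (Nat.add (Nat.add (Nat.add w (Nat.shiftLeft (Nat.land p (nat_lit 65535)) (nat_lit 70))) (Nat.shiftLeft (Nat.land (Nat.shiftRight p (nat_lit 16)) (nat_lit 65535)) (nat_lit 70))) (Nat.shiftLeft (Nat.land (Nat.shiftRight (Nat.shiftRight p (nat_lit 16)) (nat_lit 16))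
  (nat_lit 65535)) (nat_lit 70)))).1 m (Nat.shiftRight m (Nat.land (Nat.shiftRight (Nat.shiftRight m (Nat.land (Nat.shiftRight (Nat.shiftRight m (Nat.land (Nat.shiftRight (Nat.shiftRight m (Nat.land (Nat.shiftRight (Nat.shiftRight m (Nat.land (Nat.shiftRight s1 (nat_lit 17)) (nat_lit 0x1ffff))) (nat_lit 34)) (nat_lit 0x1ffff))) (nat_lit 17)) (nat_lit 0x1ffff))) (nat_lit 34)) (nat_lit 0x1ffff))) (nat_lit 17))
  (nat_lit 0x1ffff))) s2 s3 s4 s4 (Nat.land (Nat.land za (Nat.shiftRight m (Nat.land (Nat.shiftRight (Nat.shiftRight m (Nat.land (Nat.shiftRight s1 (nat_lit 17)) (nat_lit 0x1ffff))) (nat_lit 34)) (nat_lit 0x1ffff)))) (Nat.shiftRight m (Nat.land (Nat.shiftRight (Nat.shiftRight m (Nat.land (Nat.shiftRight (Nat.shiftRight m (Nat.land (Nat.shiftRight (Nat.shiftRight m (Nat.land (Nat.shiftRight s1 (nat_lit 17))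
  (nat_lit 0x1ffff))) (nat_lit 34)) (nat_lit 0x1ffff))) (nat_lit 17)) (nat_lit 0x1ffff))) (nat_lit 34)) (nat_lit 0x1ffff)))) (Nat.add (Nat.add (Nat.add ac (Nat.land (Nat.shiftRight m (Nat.land (Nat.shiftRight s1 (nat_lit 17)) (nat_lit 0x1ffff))) (Nat.shiftLeft (Nat.land p (nat_lit 65535)) (nat_lit 70)))) (Nat.land (Nat.shiftRight m (Nat.land (Nat.shiftRight (Nat.shiftRight m (Nat.land (Nat.shiftRight
  (Nat.shiftRight m (Nat.land (Nat.shiftRight s1 (nat_lit 17)) (nat_lit 0x1ffff))) (nat_lit 34)) (nat_lit 0x1ffff))) (nat_lit 17)) (nat_lit 0x1ffff))) (Nat.shiftLeft (Nat.land (Nat.shiftRight p (nat_lit 16)) (nat_lit 65535)) (nat_lit 70)))) (Nat.land (Nat.shiftRight m (Nat.land (Nat.shiftRight (Nat.shiftRight m (Nat.land (Nat.shiftRight (Nat.shiftRight m (Nat.land (Nat.shiftRight (Nat.shiftRight m (Nat.land (Nat.shiftRight (Nat.shiftRight m (Nat.land (Nat.shiftRight s1 (nat_lit 17))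 (nat_lit 0x1ffff))) (nat_lit 34)) (nat_lit 0x1ffff))) (nat_lit 17)) (nat_lit 0x1ffff))) (nat_lit 34)) (nat_lit 0x1ffff))) (nat_lit 17)) (nat_lit 0x1ffff))) (Nat.shiftLeft (Nat.land (Nat.shiftRight (Nat.shiftRight p (nat_lit 16)) (nat_lit 16)) (nat_lit 65535)) (nat_lit 70))))⟩,
  fun K p w => ⟨fun m x s1 s2 s3 s4 za ac => (K (Nat.shiftRight (Nat.shiftRight (Nat.shiftRight p (nat_lit 16)) (nat_lit 16)) (nat_lit 16)) (Nat.add (Nat.add (Nat.add w (Nat.shiftLeft (Nat.land p (nat_lit 65535)) (nat_lit 70))) (Nat.shiftLeft (Nat.land (Nat.shiftRight p (nat_lit 16)) (nat_lit 65535)) (nat_lit 70))) (Nat.shiftLeft (Nat.land (Nat.shiftRight (Nat.shiftRight p (nat_lit 16)) (nat_lit 16))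
  (nat_lit 65535)) (nat_lit 70)))).1 m (Nat.shiftRight m (Nat.land (Nat.shiftRight m (Nat.land (Nat.shiftRight (Nat.shiftRight m (Nat.land (Nat.shiftRight m (Nat.land (Nat.shiftRight (Nat.shiftRight m (Nat.land s1 (nat_lit 0x1ffff))) (nat_lit 34)) (nat_lit 0x1ffff))) (nat_lit 0x1ffff))) (nat_lit 34)) (nat_lit 0x1ffff))) (nat_lit 0x1ffff))) s2 s3 s4 s4 (Nat.land (Nat.land za (Nat.shiftRight m (Nat.land
  (Nat.shiftRight (Nat.shiftRight m (Nat.land s1 (nat_lit 0x1ffff))) (nat_lit 34)) (nat_lit 0x1ffff)))) (Nat.shiftRight m (Nat.land (Nat.shiftRight (Nat.shiftRight m (Nat.land (Nat.shiftRight m (Nat.land (Nat.shiftRight (Nat.shiftRight m (Nat.land s1 (nat_lit 0x1ffff))) (nat_lit 34)) (nat_lit 0x1ffff))) (nat_lit 0x1ffff))) (nat_lit 34)) (nat_lit 0x1ffff)))) (Nat.add (Nat.add (Nat.add ac (Nat.land (Nat.shiftRight m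
  (Nat.land (Nat.shiftRight m (Nat.land s1 (nat_lit 0x1ffff))) (nat_lit 0x1ffff))) (Nat.shiftLeft (Nat.land p (nat_lit 65535)) (nat_lit 70)))) (Nat.land (Nat.shiftRight m (Nat.land (Nat.shiftRight m (Nat.land (Nat.shiftRight m (Nat.land (Nat.shiftRight (Nat.shiftRight m (Nat.land s1 (nat_lit 0x1ffff))) (nat_lit 34)) (nat_lit 0x1ffff))) (nat_lit 0x1ffff))) (nat_lit 0x1ffff))) (Nat.shiftLeft (Nat.land
  (Nat.shiftRight p (nat_lit 16)) (nat_lit 65535)) (nat_lit 70)))) (Nat.land (Nat.shiftRight m (Nat.land (Nat.shiftRight m (Nat.land (Nat.shiftRight m (Nat.land (Nat.shiftRight (Nat.shiftRight m (Nat.land (Nat.shiftRight m (Nat.land (Nat.shiftRight (Nat.shiftRight m (Nat.land s1 (nat_lit 0x1ffff))) (nat_lit 34)) (nat_lit 0x1ffff))) (nat_lit 0x1ffff))) (nat_lit 34)) (nat_lit 0x1ffff))) (nat_lit 0x1ffff))) (nat_lit 0x1ffff))) (Nat.shiftLeft (Nat.land (Nat.shiftRight (Nat.shiftRight p (nat_lit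 16)) (nat_lit 16)) (nat_lit 65535)) (nat_lit 70))))⟩,
  rfl, rfl⟩
noncomputable def en72 : Ent := ⟨[nat_lit 8, nat_lit 3, nat_lit 12],
  fun K p w => ⟨fun m x s1 s2 s3 s4 za ac => (K (Nat.shiftRight p (nat_lit 28)) (Nat.add w (plA p))).1 m (Nat.shiftRight m (Nat.land x (nat_lit 0x1ffff))) x s1 s2 s3 za (Nat.add ac (Nat.land (Nat.shiftRight m (Nat.land x (nat_lit 0x1ffff))) (plA p)))⟩,
  fun K p w => ⟨fun m x s1 s2 s3 s4 za ac => (K (Nat.shiftRight p (nat_lit 28)) (Nat.succ w)).1 m (Nat.shiftRight m (Nat.land (Nat.shiftRight x (nat_lit 17)) (nat_lit 0x1ffff))) x s1 s2 s3 za ac⟩,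
  rfl, rfl⟩
noncomputable def en73 : Ent := ⟨[nat_lit 1, nat_lit 11],
  fun K p w => ⟨fun m x s1 s2 s3 s4 za ac => (K (Nat.shiftRight p (nat_lit 16)) (Nat.add w (Nat.shiftLeft (Nat.land p (nat_lit 65535)) (nat_lit 70)))).1 m (Nat.shiftRight m (Nat.land (Nat.shiftRight (Nat.shiftRight m (nat_lit 34)) (Nat.land (Nat.shiftRight x (nat_lit 17)) (nat_lit 0x1ffff))) (nat_lit 0x1ffff))) s1 s2 s3 s4 (Nat.land za (Nat.shiftRight m (Nat.land (Nat.shiftRight (Nat.shiftRight m (nat_lit 34)) (Nat.land (Nat.shiftRight x (nat_lit 17)) (nat_lit 0x1ffff))) (nat_lit 0x1ffff)))) (Nat.add ac (Nat.land (Nat.shiftRight m (Nat.land (Nat.shiftRight (Nat.shiftRight m (nat_lit 34)) (Nat.land (Nat.shiftRight x (nat_lit 17)) (nat_lit 0x1ffff))) (nat_lit 0x1ffff))) (Nat.shiftLeft (Nat.land p (nat_lit 65535)) (nat_lit 70))))⟩,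
  fun K p w => ⟨fun m x s1 s2 s3 s4 za ac => (K (Nat.shiftRight p (nat_lit 16)) (Nat.add w (Nat.shiftLeft (Nat.land p (nat_lit 65535)) (nat_lit 70)))).1 m (Nat.shiftRight m (Nat.land (Nat.shiftRight (Nat.shiftRight m (nat_lit 34)) (Nat.land x (nat_lit 0x1ffff))) (nat_lit 0x1ffff))) s1 s2 s3 s4 (Nat.land za (Nat.shiftRight m (Nat.land (Nat.shiftRight (Nat.shiftRight m (nat_lit 34)) (Nat.land x (nat_lit 0x1ffff))) (nat_lit 0x1ffff)))) (Nat.add ac (Nat.land (Nat.shiftRight m (Nat.land (Nat.shiftRight m (Nat.land (Nat.shiftRight (Nat.shiftRight m (nat_lit 34)) (Nat.land x (nat_lit 0x1ffff))) (nat_lit 0x1ffff))) (nat_lit 0x1ffff))) (Nat.shiftLeft (Nat.land p (nat_lit 65535)) (nat_lit 70))))⟩,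
  rfl, rfl⟩
noncomputable def en74 : Ent := ⟨[nat_lit 8, nat_lit 3, nat_lit 7, nat_lit 10, nat_lit 16, nat_lit 5, nat_lit 9, nat_lit 1],
  fun K p w => ⟨fun m x s1 s2 s3 s4 za ac => (K (Nat.shiftRight (Nat.shiftRight p (nat_lit 6)) (nat_lit 16)) (Nat.add (Nat.add w (Nat.shiftLeft (Nat.land p (nat_lit 63)) (nat_lit 64))) (Nat.shiftLeft (Nat.land (Nat.shiftRight p (nat_lit 6)) (nat_lit 65535)) (nat_lit 70)))).1 m (Nat.shiftRight m (Nat.land (Nat.shiftRight (Nat.shiftRight m (nat_lit 34)) (Nat.land (Nat.shiftRight x (nat_lit 17)) (nat_lit 0x1ffff)))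
  (nat_lit 0x1ffff))) s1 s2 s3 s3 (Nat.land za (Nat.shiftRight m (Nat.land (Nat.shiftRight (Nat.shiftRight m (nat_lit 34)) (Nat.land (Nat.shiftRight x (nat_lit 17)) (nat_lit 0x1ffff))) (nat_lit 0x1ffff)))) (Nat.add (Nat.add ac (Nat.land (Nat.shiftRight m (Nat.land (Nat.shiftRight (Nat.shiftRight m (Nat.land x (nat_lit 0x1ffff))) (nat_lit 34)) (nat_lit 0x1ffff))) (Nat.shiftLeft (Nat.land p (nat_lit 63)) (nat_lit 64)))) (Nat.land (Nat.shiftRight m (Nat.land (Nat.shiftRight (Nat.shiftRight m (Nat.land x (nat_lit 0x1ffff))) (nat_lit 34)) (nat_lit 0x1ffff))) (Nat.shiftLeft (Nat.land (Nat.shiftRight p (nat_lit 6)) (nat_lit 65535)) (nat_lit 70))))⟩,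
  fun K p w => ⟨fun m x s1 s2 s3 s4 za ac => (K (Nat.shiftRight (Nat.shiftRight p (nat_lit 6)) (nat_lit 16)) (Nat.add (Nat.add w (Nat.shiftLeft (Nat.land p (nat_lit 63)) (nat_lit 64))) (Nat.shiftLeft (Nat.land (Nat.shiftRight p (nat_lit 6)) (nat_lit 65535)) (nat_lit 70)))).1 m (Nat.shiftRight m (Nat.land (Nat.shiftRight (Nat.shiftRight m (nat_lit 34)) (Nat.land x (nat_lit 0x1ffff))) (nat_lit 0x1ffff))) s1 s2 s3 s3
  (Nat.land za (Nat.shiftRight m (Nat.land (Nat.shiftRight (Nat.shiftRight m (nat_lit 34)) (Nat.land x (nat_lit 0x1ffff))) (nat_lit 0x1ffff)))) (Nat.add (Nat.add ac (Nat.land (Nat.shiftRight m (Nat.land (Nat.shiftRight (Nat.shiftRight m (Nat.land (Nat.shiftRight x (nat_lit 17)) (nat_lit 0x1ffff))) (nat_lit 34)) (nat_lit 0x1ffff))) (Nat.shiftLeft (Nat.land p (nat_lit 63)) (nat_lit 64)))) (Nat.land (Nat.lor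
  (Nat.shiftRight m (Nat.land (Nat.shiftRight m (Nat.land (Nat.shiftRight (Nat.shiftRight m (Nat.land (Nat.shiftRight x (nat_lit 17)) (nat_lit 0x1ffff))) (nat_lit 34)) (nat_lit 0x1ffff))) (nat_lit 0x1ffff))) (Nat.shiftRight m (Nat.land (Nat.shiftRight (Nat.shiftRight m (Nat.land (Nat.shiftRight (Nat.shiftRight m (Nat.land (Nat.shiftRight x (nat_lit 17)) (nat_lit 0x1ffff))) (nat_lit 34)) (nat_lit 0x1ffff))) (nat_lit 34)) (nat_lit 0x1ffff)))) (Nat.shiftLeft (Nat.land (Nat.shiftRight p (nat_lit 6)) (nat_lit 65535)) (nat_lit 70))))⟩,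
  rfl, rfl⟩
noncomputable def en75 : Ent := ⟨[nat_lit 10, nat_lit 8, nat_lit 5, nat_lit 2],
  fun K p w => ⟨fun m x s1 s2 s3 s4 za ac => (K (Nat.shiftRight p (nat_lit 6)) (Nat.add w (Nat.shiftLeft (Nat.land p (nat_lit 63)) (nat_lit 64)))).1 m (Nat.shiftRight m (Nat.land (Nat.shiftRight (Nat.shiftRight m (Nat.land x (nat_lit 0x1ffff))) (nat_lit 34)) (nat_lit 0x1ffff))) x s1 s2 s3 (Nat.land za (Nat.shiftRight m (Nat.land (Nat.shiftRight (Nat.shiftRight m (Nat.land x (nat_lit 0x1ffff))) (nat_lit 34)) (nat_lit 0x1ffff)))) (Nat.add ac (Nat.land x (Nat.shiftLeft (Nat.land p (nat_lit 63)) (nat_lit 64))))⟩,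
  fun K p w => ⟨fun m x s1 s2 s3 s4 za ac => (K (Nat.shiftRight p (nat_lit 6)) (Nat.add w (Nat.shiftLeft (Nat.land p (nat_lit 63)) (nat_lit 64)))).1 m (Nat.shiftRight m (Nat.land (Nat.shiftRight (Nat.shiftRight m (Nat.land (Nat.shiftRight x (nat_lit 17)) (nat_lit 0x1ffff))) (nat_lit 34)) (nat_lit 0x1ffff))) x s1 s2 s3 (Nat.land za (Nat.shiftRight m (Nat.land (Nat.shiftRight (Nat.shiftRight m (Nat.land (Nat.shiftRight x (nat_lit 17)) (nat_lit 0x1ffff))) (nat_lit 34)) (nat_lit 0x1ffff)))) (Nat.add ac (Nat.land x (Nat.shiftLeft (Nat.land p (nat_lit 63)) (nat_lit 64))))⟩,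
  rfl, rfl⟩
noncomputable def en76 : Ent := ⟨[nat_lit 9, nat_lit 1, nat_lit 8, nat_lit 0],
  fun K p w => ⟨fun m x s1 s2 s3 s4 za ac => (K p w).1 m (Nat.shiftRight m (Nat.land (Nat.shiftRight (Nat.shiftRight m (nat_lit 34)) (Nat.land (Nat.shiftRight m (Nat.land (Nat.shiftRight (Nat.shiftRight m (nat_lit 34)) (Nat.land (Nat.shiftRight s1 (nat_lit 17)) (nat_lit 0x1ffff))) (nat_lit 0x1ffff))) (nat_lit 0x1ffff))) (nat_lit 0x1ffff))) (Nat.shiftRight m (Nat.land (Nat.shiftRight (Nat.shiftRight m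
  (nat_lit 34)) (Nat.land (Nat.shiftRight s1 (nat_lit 17)) (nat_lit 0x1ffff))) (nat_lit 0x1ffff))) s2 s3 s4 (Nat.land (Nat.land za (Nat.shiftRight m (Nat.land (Nat.shiftRight (Nat.shiftRight m (nat_lit 34)) (Nat.land (Nat.shiftRight s1 (nat_lit 17)) (nat_lit 0x1ffff))) (nat_lit 0x1ffff)))) (Nat.shiftRight m (Nat.land (Nat.shiftRight (Nat.shiftRight m (nat_lit 34)) (Nat.land (Nat.shiftRight m (Nat.land (Nat.shiftRight (Nat.shiftRight m (nat_lit 34)) (Nat.land (Nat.shiftRight s1 (nat_lit 17)) (nat_lit 0x1ffff))) (nat_lit 0x1ffff))) (nat_lit 0x1ffff))) (nat_lit 0x1ffff)))) ac⟩,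
  fun K p w => ⟨fun m x s1 s2 s3 s4 za ac => (K p w).1 m (Nat.shiftRight m (Nat.land (Nat.shiftRight (Nat.shiftRight m (nat_lit 34)) (Nat.land (Nat.shiftRight (Nat.shiftRight m (Nat.land (Nat.shiftRight (Nat.shiftRight m (nat_lit 34)) (Nat.land s1 (nat_lit 0x1ffff))) (nat_lit 0x1ffff))) (nat_lit 17)) (nat_lit 0x1ffff))) (nat_lit 0x1ffff))) (Nat.shiftRight m (Nat.land (Nat.shiftRight (Nat.shiftRight m
  (nat_lit 34)) (Nat.land s1 (nat_lit 0x1ffff))) (nat_lit 0x1ffff))) s2 s3 s4 (Nat.land (Nat.land za (Nat.shiftRight m (Nat.land (Nat.shiftRight (Nat.shiftRight m (nat_lit 34)) (Nat.land s1 (nat_lit 0x1ffff))) (nat_lit 0x1ffff)))) (Nat.shiftRight m (Nat.land (Nat.shiftRight (Nat.shiftRight m (nat_lit 34)) (Nat.land (Nat.shiftRight (Nat.shiftRight m (Nat.land (Nat.shiftRight (Nat.shiftRight m (nat_lit 34)) (Nat.land s1 (nat_lit 0x1ffff))) (nat_lit 0x1ffff))) (nat_lit 17)) (nat_lit 0x1ffff)))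 (nat_lit 0x1ffff)))) ac⟩,
  rfl, rfl⟩
noncomputable def en77 : Ent := ⟨[nat_lit 3, nat_lit 12, nat_lit 12, nat_lit 2],
  fun K p w => ⟨fun m x s1 s2 s3 s4 za ac => (K (Nat.shiftRight (Nat.shiftRight p (nat_lit 28)) (nat_lit 28)) (Nat.add (Nat.add w (plA p)) (plA (Nat.shiftRight p (nat_lit 28))))).1 m (Nat.shiftRight m (Nat.land (Nat.shiftRight (Nat.shiftRight m (Nat.land x (nat_lit 0x1ffff))) (nat_lit 34)) (nat_lit 0x1ffff))) s1 s2 s3 s4 (Nat.land za (Nat.shiftRight m (Nat.land (Nat.shiftRight (Nat.shiftRight m (Nat.land x (nat_lit 0x1ffff))) (nat_lit 34)) (nat_lit 0x1ffff)))) (Nat.add (Nat.add ac (Nat.land (Nat.shiftRight m (Nat.land x (nat_lit 0x1ffff))) (plA p))) (Nat.land (Nat.shiftRight m (Nat.land x (nat_lit 0x1ffff))) (plA (Nat.shiftRight p (nat_lit 28)))))⟩,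
  fun K p w => ⟨fun m x s1 s2 s3 s4 za ac => (K (Nat.shiftRight (Nat.shiftRight p (nat_lit 28)) (nat_lit 28)) (Nat.succ (Nat.succ w))).1 m (Nat.shiftRight m (Nat.land (Nat.shiftRight (Nat.shiftRight m (Nat.land (Nat.shiftRight x (nat_lit 17)) (nat_lit 0x1ffff))) (nat_lit 34)) (nat_lit 0x1ffff))) s1 s2 s3 s4 (Nat.land za (Nat.shiftRight m (Nat.land (Nat.shiftRight (Nat.shiftRight m (Nat.land (Nat.shiftRight x (nat_lit 17)) (nat_lit 0x1ffff))) (nat_lit 34)) (nat_lit 0x1ffff)))) ac⟩,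
  rfl, rfl⟩
noncomputable def en78 : Ent := ⟨[nat_lit 10, nat_lit 16, nat_lit 12, nat_lit 8, nat_lit 5, nat_lit 16, nat_lit 2, nat_lit 11, nat_lit 8, nat_lit 0, nat_lit 0, nat_lit 11],
  fun K p w => ⟨fun m x s1 s2 s3 s4 za ac => (K (Nat.shiftRight (Nat.shiftRight (Nat.shiftRight (Nat.shiftRight (Nat.shiftRight (Nat.shiftRight p (nat_lit 6)) (nat_lit 16)) (nat_lit 28)) (nat_lit 16)) (nat_lit 16)) (nat_lit 16)) (Nat.add (Nat.add (Nat.add (Nat.add (Nat.add (Nat.add w (Nat.shiftLeft (Nat.land p (nat_lit 63)) (nat_lit 64))) (Nat.shiftLeft (Nat.land (Nat.shiftRight p (nat_lit 6)) (nat_lit 65535))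
  (nat_lit 70))) (plA (Nat.shiftRight (Nat.shiftRight p (nat_lit 6)) (nat_lit 16)))) (Nat.shiftLeft (Nat.land (Nat.shiftRight (Nat.shiftRight (Nat.shiftRight p (nat_lit 6)) (nat_lit 16)) (nat_lit 28)) (nat_lit 65535)) (nat_lit 70))) (Nat.shiftLeft (Nat.land (Nat.shiftRight (Nat.shiftRight (Nat.shiftRight (Nat.shiftRight p (nat_lit 6)) (nat_lit 16)) (nat_lit 28)) (nat_lit 16)) (nat_lit 65535)) (nat_lit 70)))
  (Nat.shiftLeft (Nat.land (Nat.shiftRight (Nat.shiftRight (Nat.shiftRight (Nat.shiftRight (Nat.shiftRight p (nat_lit 6)) (nat_lit 16)) (nat_lit 28)) (nat_lit 16)) (nat_lit 16)) (nat_lit 65535)) (nat_lit 70)))).1 m (Nat.shiftRight m (Nat.land (Nat.shiftRight (Nat.shiftRight m (nat_lit 34)) (Nat.land (Nat.shiftRight m (Nat.land (Nat.shiftRight (Nat.shiftRight m (nat_lit 34)) (Nat.land (Nat.shiftRight m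
  (Nat.land (Nat.shiftRight (Nat.shiftRight m (Nat.land x (nat_lit 0x1ffff))) (nat_lit 34)) (nat_lit 0x1ffff))) (nat_lit 0x1ffff))) (nat_lit 0x1ffff))) (nat_lit 0x1ffff))) (nat_lit 0x1ffff))) (Nat.shiftRight m (Nat.land (Nat.shiftRight (Nat.shiftRight m (Nat.land x (nat_lit 0x1ffff))) (nat_lit 34)) (nat_lit 0x1ffff))) x s1 s2 (Nat.land (Nat.land (Nat.land za (Nat.shiftRight m (Nat.land (Nat.shiftRight
  (Nat.shiftRight m (Nat.land x (nat_lit 0x1ffff))) (nat_lit 34)) (nat_lit 0x1ffff)))) (Nat.shiftRight m (Nat.land (Nat.shiftRight (Nat.shiftRight m (nat_lit 34)) (Nat.land (Nat.shiftRight m (Nat.land (Nat.shiftRight (Nat.shiftRight m (Nat.land x (nat_lit 0x1ffff))) (nat_lit 34)) (nat_lit 0x1ffff))) (nat_lit 0x1ffff))) (nat_lit 0x1ffff)))) (Nat.shiftRight m (Nat.land (Nat.shiftRight (Nat.shiftRight m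
  (nat_lit 34)) (Nat.land (Nat.shiftRight m (Nat.land (Nat.shiftRight (Nat.shiftRight m (nat_lit 34)) (Nat.land (Nat.shiftRight m (Nat.land (Nat.shiftRight (Nat.shiftRight m (Nat.land x (nat_lit 0x1ffff))) (nat_lit 34)) (nat_lit 0x1ffff))) (nat_lit 0x1ffff))) (nat_lit 0x1ffff))) (nat_lit 0x1ffff))) (nat_lit 0x1ffff)))) (Nat.add (Nat.add (Nat.add (Nat.add (Nat.add (Nat.add ac (Nat.land x (Nat.shiftLeft
  (Nat.land p (nat_lit 63)) (nat_lit 64)))) (Nat.land x (Nat.shiftLeft (Nat.land (Nat.shiftRight p (nat_lit 6)) (nat_lit 65535)) (nat_lit 70)))) (Nat.land x (plA (Nat.shiftRight (Nat.shiftRight p (nat_lit 6)) (nat_lit 16))))) (Nat.land (Nat.shiftRight m (Nat.land x (nat_lit 0x1ffff))) (Nat.shiftLeft (Nat.land (Nat.shiftRight (Nat.shiftRight (Nat.shiftRight p (nat_lit 6)) (nat_lit 16)) (nat_lit 28))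
  (nat_lit 65535)) (nat_lit 70)))) (Nat.land (Nat.shiftRight m (Nat.land (Nat.shiftRight (Nat.shiftRight m (Nat.land x (nat_lit 0x1ffff))) (nat_lit 34)) (nat_lit 0x1ffff))) (Nat.shiftLeft (Nat.land (Nat.shiftRight (Nat.shiftRight (Nat.shiftRight (Nat.shiftRight p (nat_lit 6)) (nat_lit 16)) (nat_lit 28)) (nat_lit 16)) (nat_lit 65535)) (nat_lit 70)))) (Nat.land (Nat.shiftRight m (Nat.land (Nat.shiftRight
  (Nat.shiftRight m (nat_lit 34)) (Nat.land (Nat.shiftRight m (Nat.land (Nat.shiftRight (Nat.shiftRight m (nat_lit 34)) (Nat.land (Nat.shiftRight m (Nat.land (Nat.shiftRight (Nat.shiftRight m (Nat.land x (nat_lit 0x1ffff))) (nat_lit 34)) (nat_lit 0x1ffff))) (nat_lit 0x1ffff))) (nat_lit 0x1ffff))) (nat_lit 0x1ffff))) (nat_lit 0x1ffff))) (Nat.shiftLeft (Nat.land (Nat.shiftRight (Nat.shiftRight (Nat.shiftRight (Nat.shiftRight (Nat.shiftRight p (nat_lit 6)) (nat_lit 16)) (nat_lit 28))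 (nat_lit 16)) (nat_lit 16)) (nat_lit 65535)) (nat_lit 70))))⟩,
  fun K p w => ⟨fun m x s1 s2 s3 s4 za ac => (K (Nat.shiftRight (Nat.shiftRight (Nat.shiftRight (Nat.shiftRight (Nat.shiftRight (Nat.shiftRight p (nat_lit 6)) (nat_lit 16)) (nat_lit 28)) (nat_lit 16)) (nat_lit 16)) (nat_lit 16)) (Nat.add (Nat.add (Nat.add (Nat.succ (Nat.add (Nat.add w (Nat.shiftLeft (Nat.land p (nat_lit 63)) (nat_lit 64))) (Nat.shiftLeft (Nat.land (Nat.shiftRight p (nat_lit 6)) (nat_lit 65535))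
  (nat_lit 70)))) (Nat.shiftLeft (Nat.land (Nat.shiftRight (Nat.shiftRight (Nat.shiftRight p (nat_lit 6)) (nat_lit 16)) (nat_lit 28)) (nat_lit 65535)) (nat_lit 70))) (Nat.shiftLeft (Nat.land (Nat.shiftRight (Nat.shiftRight (Nat.shiftRight (Nat.shiftRight p (nat_lit 6)) (nat_lit 16)) (nat_lit 28)) (nat_lit 16)) (nat_lit 65535)) (nat_lit 70))) (Nat.shiftLeft (Nat.land (Nat.shiftRight (Nat.shiftRight
  (Nat.shiftRight (Nat.shiftRight (Nat.shiftRight p (nat_lit 6)) (nat_lit 16)) (nat_lit 28)) (nat_lit 16)) (nat_lit 16)) (nat_lit 65535)) (nat_lit 70)))).1 m (Nat.shiftRight m (Nat.land (Nat.shiftRight (Nat.shiftRight m (nat_lit 34)) (Nat.land (Nat.shiftRight (Nat.shiftRight m (Nat.land (Nat.shiftRight (Nat.shiftRight m (nat_lit 34)) (Nat.land (Nat.shiftRight (Nat.shiftRight m (Nat.land (Nat.shiftRight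
  (Nat.shiftRight m (Nat.land (Nat.shiftRight x (nat_lit 17)) (nat_lit 0x1ffff))) (nat_lit 34)) (nat_lit 0x1ffff))) (nat_lit 17)) (nat_lit 0x1ffff))) (nat_lit 0x1ffff))) (nat_lit 17)) (nat_lit 0x1ffff))) (nat_lit 0x1ffff))) (Nat.shiftRight m (Nat.land (Nat.shiftRight (Nat.shiftRight m (Nat.land (Nat.shiftRight x (nat_lit 17)) (nat_lit 0x1ffff))) (nat_lit 34)) (nat_lit 0x1ffff))) x s1 s2 (Nat.land (Nat.land
  (Nat.land za (Nat.shiftRight m (Nat.land (Nat.shiftRight (Nat.shiftRight m (Nat.land (Nat.shiftRight x (nat_lit 17)) (nat_lit 0x1ffff))) (nat_lit 34)) (nat_lit 0x1ffff)))) (Nat.shiftRight m (Nat.land (Nat.shiftRight (Nat.shiftRight m (nat_lit 34)) (Nat.land (Nat.shiftRight (Nat.shiftRight m (Nat.land (Nat.shiftRight (Nat.shiftRight m (Nat.land (Nat.shiftRight x (nat_lit 17)) (nat_lit 0x1ffff))) (nat_lit 34))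
  (nat_lit 0x1ffff))) (nat_lit 17)) (nat_lit 0x1ffff))) (nat_lit 0x1ffff)))) (Nat.shiftRight m (Nat.land (Nat.shiftRight (Nat.shiftRight m (nat_lit 34)) (Nat.land (Nat.shiftRight (Nat.shiftRight m (Nat.land (Nat.shiftRight (Nat.shiftRight m (nat_lit 34)) (Nat.land (Nat.shiftRight (Nat.shiftRight m (Nat.land (Nat.shiftRight (Nat.shiftRight m (Nat.land (Nat.shiftRight x (nat_lit 17)) (nat_lit 0x1ffff)))
  (nat_lit 34)) (nat_lit 0x1ffff))) (nat_lit 17)) (nat_lit 0x1ffff))) (nat_lit 0x1ffff))) (nat_lit 17)) (nat_lit 0x1ffff))) (nat_lit 0x1ffff)))) (Nat.add (Nat.add (Nat.add (Nat.add (Nat.add ac (Nat.land x (Nat.shiftLeft (Nat.land p (nat_lit 63)) (nat_lit 64)))) (Nat.land (Nat.lor (Nat.shiftRight m (Nat.land x (nat_lit 0x1ffff))) (Nat.shiftRight m (Nat.land (Nat.shiftRight x (nat_lit 34)) (nat_lit 0x1ffff))))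
  (Nat.shiftLeft (Nat.land (Nat.shiftRight p (nat_lit 6)) (nat_lit 65535)) (nat_lit 70)))) (Nat.land (Nat.lor (Nat.shiftRight m (Nat.land (Nat.shiftRight m (Nat.land (Nat.shiftRight x (nat_lit 17)) (nat_lit 0x1ffff))) (nat_lit 0x1ffff))) (Nat.shiftRight m (Nat.land (Nat.shiftRight (Nat.shiftRight m (Nat.land (Nat.shiftRight x (nat_lit 17)) (nat_lit 0x1ffff))) (nat_lit 34)) (nat_lit 0x1ffff)))) (Nat.shiftLeft
  (Nat.land (Nat.shiftRight (Nat.shiftRight (Nat.shiftRight p (nat_lit 6)) (nat_lit 16)) (nat_lit 28)) (nat_lit 65535)) (nat_lit 70)))) (Nat.land (Nat.shiftRight m (Nat.land (Nat.shiftRight m (Nat.land (Nat.shiftRight (Nat.shiftRight m (Nat.land (Nat.shiftRight x (nat_lit 17)) (nat_lit 0x1ffff))) (nat_lit 34)) (nat_lit 0x1ffff))) (nat_lit 0x1ffff))) (Nat.shiftLeft (Nat.land (Nat.shiftRight (Nat.shiftRight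
  (Nat.shiftRight (Nat.shiftRight p (nat_lit 6)) (nat_lit 16)) (nat_lit 28)) (nat_lit 16)) (nat_lit 65535)) (nat_lit 70)))) (Nat.land (Nat.shiftRight m (Nat.land (Nat.shiftRight m (Nat.land (Nat.shiftRight (Nat.shiftRight m (nat_lit 34)) (Nat.land (Nat.shiftRight (Nat.shiftRight m (Nat.land (Nat.shiftRight (Nat.shiftRight m (nat_lit 34)) (Nat.land (Nat.shiftRight (Nat.shiftRight m (Nat.land (Nat.shiftRight
  (Nat.shiftRight m (Nat.land (Nat.shiftRight x (nat_lit 17)) (nat_lit 0x1ffff))) (nat_lit 34)) (nat_lit 0x1ffff))) (nat_lit 17)) (nat_lit 0x1ffff))) (nat_lit 0x1ffff))) (nat_lit 17)) (nat_lit 0x1ffff))) (nat_lit 0x1ffff))) (nat_lit 0x1ffff))) (Nat.shiftLeft (Nat.land (Nat.shiftRight (Nat.shiftRight (Nat.shiftRight (Nat.shiftRight (Nat.shiftRight p (nat_lit 6)) (nat_lit 16)) (nat_lit 28)) (nat_lit 16)) (nat_lit 16)) (nat_lit 65535)) (nat_lit 70))))⟩,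
  rfl, rfl⟩
noncomputable def en79 : Ent := ⟨[nat_lit 4, nat_lit 11, nat_lit 9],
  fun K p w => ⟨fun m x s1 s2 s3 s4 za ac => (K (Nat.shiftRight p (nat_lit 16)) (Nat.add w (Nat.shiftLeft (Nat.land p (nat_lit 65535)) (nat_lit 70)))).1 m s1 s2 s3 s4 s4 za (Nat.add ac (Nat.land (Nat.shiftRight m (Nat.land (Nat.shiftRight x (nat_lit 17)) (nat_lit 0x1ffff))) (Nat.shiftLeft (Nat.land p (nat_lit 65535)) (nat_lit 70))))⟩,
  fun K p w => ⟨fun m x s1 s2 s3 s4 za ac => (K (Nat.shiftRight p (nat_lit 16)) (Nat.add w (Nat.shiftLeft (Nat.land p (nat_lit 65535)) (nat_lit 70)))).1 m s1 s2 s3 s4 s4 za (Nat.add ac (Nat.land (Nat.shiftRight m (Nat.land (Nat.shiftRight m (Nat.land x (nat_lit 0x1ffff))) (nat_lit 0x1ffff))) (Nat.shiftLeft (Nat.land p (nat_lit 65535)) (nat_lit 70))))⟩,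
  rfl, rfl⟩
noncomputable def en80 : Ent := ⟨[nat_lit 8, nat_lit 3, nat_lit 11, nat_lit 2, nat_lit 4, nat_lit 11, nat_lit 9, nat_lit 4, nat_lit 11],
  fun K p w => ⟨fun m x s1 s2 s3 s4 za ac => (K (Nat.shiftRight (Nat.shiftRight (Nat.shiftRight p (nat_lit 16)) (nat_lit 16)) (nat_lit 16)) (Nat.add (Nat.add (Nat.add w (Nat.shiftLeft (Nat.land p (nat_lit 65535)) (nat_lit 70))) (Nat.shiftLeft (Nat.land (Nat.shiftRight p (nat_lit 16)) (nat_lit 65535)) (nat_lit 70))) (Nat.shiftLeft (Nat.land (Nat.shiftRight (Nat.shiftRight p (nat_lit 16)) (nat_lit 16))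
  (nat_lit 65535)) (nat_lit 70)))).1 m (Nat.shiftRight m (Nat.land (Nat.shiftRight x (nat_lit 17)) (nat_lit 0x1ffff))) s1 s2 s3 s3 (Nat.land za (Nat.shiftRight m (Nat.land (Nat.shiftRight (Nat.shiftRight m (Nat.land x (nat_lit 0x1ffff))) (nat_lit 34)) (nat_lit 0x1ffff)))) (Nat.add (Nat.add (Nat.add ac (Nat.land (Nat.shiftRight m (Nat.land x (nat_lit 0x1ffff))) (Nat.shiftLeft (Nat.land p (nat_lit 65535))
  (nat_lit 70)))) (Nat.land (Nat.shiftRight m (Nat.land (Nat.shiftRight (Nat.shiftRight m (Nat.land (Nat.shiftRight (Nat.shiftRight m (Nat.land x (nat_lit 0x1ffff))) (nat_lit 34)) (nat_lit 0x1ffff))) (nat_lit 17)) (nat_lit 0x1ffff))) (Nat.shiftLeft (Nat.land (Nat.shiftRight p (nat_lit 16)) (nat_lit 65535)) (nat_lit 70)))) (Nat.land (Nat.shiftRight m (Nat.land (Nat.shiftRight x (nat_lit 17)) (nat_lit 0x1ffff))) (Nat.shiftLeft (Nat.land (Nat.shiftRight (Nat.shiftRight p (nat_lit 16))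 (nat_lit 16)) (nat_lit 65535)) (nat_lit 70))))⟩,
  fun K p w => ⟨fun m x s1 s2 s3 s4 za ac => (K (Nat.shiftRight (Nat.shiftRight (Nat.shiftRight p (nat_lit 16)) (nat_lit 16)) (nat_lit 16)) (Nat.add (Nat.add (Nat.add w (Nat.shiftLeft (Nat.land p (nat_lit 65535)) (nat_lit 70))) (Nat.shiftLeft (Nat.land (Nat.shiftRight p (nat_lit 16)) (nat_lit 65535)) (nat_lit 70))) (Nat.shiftLeft (Nat.land (Nat.shiftRight (Nat.shiftRight p (nat_lit 16)) (nat_lit 16))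
  (nat_lit 65535)) (nat_lit 70)))).1 m (Nat.shiftRight m (Nat.land x (nat_lit 0x1ffff))) s1 s2 s3 s3 (Nat.land za (Nat.shiftRight m (Nat.land (Nat.shiftRight (Nat.shiftRight m (Nat.land (Nat.shiftRight x (nat_lit 17)) (nat_lit 0x1ffff))) (nat_lit 34)) (nat_lit 0x1ffff)))) (Nat.add (Nat.add (Nat.add ac (Nat.land (Nat.shiftRight m (Nat.land (Nat.shiftRight m (Nat.land (Nat.shiftRight x (nat_lit 17))
  (nat_lit 0x1ffff))) (nat_lit 0x1ffff))) (Nat.shiftLeft (Nat.land p (nat_lit 65535)) (nat_lit 70)))) (Nat.land (Nat.shiftRight m (Nat.land (Nat.shiftRight m (Nat.land (Nat.shiftRight m (Nat.land (Nat.shiftRight (Nat.shiftRight m (Nat.land (Nat.shiftRight x (nat_lit 17)) (nat_lit 0x1ffff))) (nat_lit 34)) (nat_lit 0x1ffff))) (nat_lit 0x1ffff))) (nat_lit 0x1ffff))) (Nat.shiftLeft (Nat.land (Nat.shiftRight p (nat_lit 16)) (nat_lit 65535)) (nat_lit 70)))) (Nat.land (Nat.shiftRight m (Nat.land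 (Nat.shiftRight m (Nat.land x (nat_lit 0x1ffff))) (nat_lit 0x1ffff))) (Nat.shiftLeft (Nat.land (Nat.shiftRight (Nat.shiftRight p (nat_lit 16)) (nat_lit 16)) (nat_lit 65535)) (nat_lit 70))))⟩,
  rfl, rfl⟩
noncomputable def en81 : Ent := ⟨[nat_lit 1, nat_lit 8, nat_lit 0],
  fun K p w => ⟨fun m x s1 s2 s3 s4 za ac => (K p w).1 m (Nat.shiftRight m (Nat.land (Nat.shiftRight (Nat.shiftRight m (nat_lit 34)) (Nat.land (Nat.shiftRight m (Nat.land (Nat.shiftRight (Nat.shiftRight m (nat_lit 34)) (Nat.land (Nat.shiftRight x (nat_lit 17)) (nat_lit 0x1ffff))) (nat_lit 0x1ffff))) (nat_lit 0x1ffff))) (nat_lit 0x1ffff))) (Nat.shiftRight m (Nat.land (Nat.shiftRight (Nat.shiftRight m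
  (nat_lit 34)) (Nat.land (Nat.shiftRight x (nat_lit 17)) (nat_lit 0x1ffff))) (nat_lit 0x1ffff))) s1 s2 s3 (Nat.land (Nat.land za (Nat.shiftRight m (Nat.land (Nat.shiftRight (Nat.shiftRight m (nat_lit 34)) (Nat.land (Nat.shiftRight x (nat_lit 17)) (nat_lit 0x1ffff))) (nat_lit 0x1ffff)))) (Nat.shiftRight m (Nat.land (Nat.shiftRight (Nat.shiftRight m (nat_lit 34)) (Nat.land (Nat.shiftRight m (Nat.land (Nat.shiftRight (Nat.shiftRight m (nat_lit 34)) (Nat.land (Nat.shiftRight x (nat_lit 17)) (nat_lit 0x1ffff))) (nat_lit 0x1ffff))) (nat_lit 0x1ffff))) (nat_lit 0x1ffff)))) ac⟩,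
  fun K p w => ⟨fun m x s1 s2 s3 s4 za ac => (K p w).1 m (Nat.shiftRight m (Nat.land (Nat.shiftRight (Nat.shiftRight m (nat_lit 34)) (Nat.land (Nat.shiftRight (Nat.shiftRight m (Nat.land (Nat.shiftRight (Nat.shiftRight m (nat_lit 34)) (Nat.land x (nat_lit 0x1ffff))) (nat_lit 0x1ffff))) (nat_lit 17)) (nat_lit 0x1ffff))) (nat_lit 0x1ffff))) (Nat.shiftRight m (Nat.land (Nat.shiftRight (Nat.shiftRight m
  (nat_lit 34)) (Nat.land x (nat_lit 0x1ffff))) (nat_lit 0x1ffff))) s1 s2 s3 (Nat.land (Nat.land za (Nat.shiftRight m (Nat.land (Nat.shiftRight (Nat.shiftRight m (nat_lit 34)) (Nat.land x (nat_lit 0x1ffff))) (nat_lit 0x1ffff)))) (Nat.shiftRight m (Nat.land (Nat.shiftRight (Nat.shiftRight m (nat_lit 34)) (Nat.land (Nat.shiftRight (Nat.shiftRight m (Nat.land (Nat.shiftRight (Nat.shiftRight m (nat_lit 34)) (Nat.land x (nat_lit 0x1ffff))) (nat_lit 0x1ffff))) (nat_lit 17)) (nat_lit 0x1ffff)))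 (nat_lit 0x1ffff)))) ac⟩,
  rfl, rfl⟩
noncomputable def en82 : Ent := ⟨[nat_lit 9, nat_lit 4, nat_lit 11, nat_lit 2, nat_lit 8, nat_lit 0],
  fun K p w => ⟨fun m x s1 s2 s3 s4 za ac => (K (Nat.shiftRight p (nat_lit 16)) (Nat.add w (Nat.shiftLeft (Nat.land p (nat_lit 65535)) (nat_lit 70)))).1 m (Nat.shiftRight m (Nat.land (Nat.shiftRight (Nat.shiftRight m (nat_lit 34)) (Nat.land (Nat.shiftRight m (Nat.land (Nat.shiftRight (Nat.shiftRight m (Nat.land (Nat.shiftRight s1 (nat_lit 17)) (nat_lit 0x1ffff))) (nat_lit 34)) (nat_lit 0x1ffff))) (nat_lit 0x1ffff)))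
  (nat_lit 0x1ffff))) (Nat.shiftRight m (Nat.land (Nat.shiftRight (Nat.shiftRight m (Nat.land (Nat.shiftRight s1 (nat_lit 17)) (nat_lit 0x1ffff))) (nat_lit 34)) (nat_lit 0x1ffff))) s2 s3 s4 (Nat.land (Nat.land za (Nat.shiftRight m (Nat.land (Nat.shiftRight (Nat.shiftRight m (Nat.land (Nat.shiftRight s1 (nat_lit 17)) (nat_lit 0x1ffff))) (nat_lit 34)) (nat_lit 0x1ffff)))) (Nat.shiftRight m (Nat.land
  (Nat.shiftRight (Nat.shiftRight m (nat_lit 34)) (Nat.land (Nat.shiftRight m (Nat.land (Nat.shiftRight (Nat.shiftRight m (Nat.land (Nat.shiftRight s1 (nat_lit 17)) (nat_lit 0x1ffff))) (nat_lit 34)) (nat_lit 0x1ffff))) (nat_lit 0x1ffff))) (nat_lit 0x1ffff)))) (Nat.add ac (Nat.land (Nat.shiftRight m (Nat.land (Nat.shiftRight s1 (nat_lit 17)) (nat_lit 0x1ffff))) (Nat.shiftLeft (Nat.land p (nat_lit 65535)) (nat_lit 70))))⟩,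
  fun K p w => ⟨fun m x s1 s2 s3 s4 za ac => (K (Nat.shiftRight p (nat_lit 16)) (Nat.add w (Nat.shiftLeft (Nat.land p (nat_lit 65535)) (nat_lit 70)))).1 m (Nat.shiftRight m (Nat.land (Nat.shiftRight (Nat.shiftRight m (nat_lit 34)) (Nat.land (Nat.shiftRight (Nat.shiftRight m (Nat.land (Nat.shiftRight (Nat.shiftRight m (Nat.land s1 (nat_lit 0x1ffff))) (nat_lit 34)) (nat_lit 0x1ffff))) (nat_lit 17)) (nat_lit 0x1ffff)))
  (nat_lit 0x1ffff))) (Nat.shiftRight m (Nat.land (Nat.shiftRight (Nat.shiftRight m (Nat.land s1 (nat_lit 0x1ffff))) (nat_lit 34)) (nat_lit 0x1ffff))) s2 s3 s4 (Nat.land (Nat.land za (Nat.shiftRight m (Nat.land (Nat.shiftRight (Nat.shiftRight m (Nat.land s1 (nat_lit 0x1ffff))) (nat_lit 34)) (nat_lit 0x1ffff)))) (Nat.shiftRight m (Nat.land (Nat.shiftRight (Nat.shiftRight m (nat_lit 34)) (Nat.land (Nat.shiftRight (Nat.shiftRight m (Nat.land (Nat.shiftRight (Nat.shiftRight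 m (Nat.land s1 (nat_lit 0x1ffff))) (nat_lit 34)) (nat_lit 0x1ffff))) (nat_lit 17)) (nat_lit 0x1ffff))) (nat_lit 0x1ffff)))) (Nat.add ac (Nat.land (Nat.shiftRight m (Nat.land (Nat.shiftRight m (Nat.land s1 (nat_lit 0x1ffff))) (nat_lit 0x1ffff))) (Nat.shiftLeft (Nat.land p (nat_lit 65535)) (nat_lit 70))))⟩,
  rfl, rfl⟩
noncomputable def en83 : Ent := ⟨[nat_lit 8, nat_lit 3, nat_lit 7, nat_lit 10, nat_lit 16, nat_lit 5, nat_lit 9, nat_lit 4, nat_lit 11, nat_lit 2, nat_lit 0, nat_lit 11],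
  fun K p w => ⟨fun m x s1 s2 s3 s4 za ac => (K (Nat.shiftRight (Nat.shiftRight (Nat.shiftRight (Nat.shiftRight p (nat_lit 6)) (nat_lit 16)) (nat_lit 16)) (nat_lit 16)) (Nat.add (Nat.add (Nat.add (Nat.add w (Nat.shiftLeft (Nat.land p (nat_lit 63)) (nat_lit 64))) (Nat.shiftLeft (Nat.land (Nat.shiftRight p (nat_lit 6)) (nat_lit 65535)) (nat_lit 70))) (Nat.shiftLeft (Nat.land (Nat.shiftRight (Nat.shiftRight p
  (nat_lit 6)) (nat_lit 16)) (nat_lit 65535)) (nat_lit 70))) (Nat.shiftLeft (Nat.land (Nat.shiftRight (Nat.shiftRight (Nat.shiftRight p (nat_lit 6)) (nat_lit 16)) (nat_lit 16)) (nat_lit 65535)) (nat_lit 70)))).1 m (Nat.shiftRight m (Nat.land (Nat.shiftRight (Nat.shiftRight m (nat_lit 34)) (Nat.land (Nat.shiftRight m (Nat.land (Nat.shiftRight (Nat.shiftRight m (Nat.land (Nat.shiftRight x (nat_lit 17))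
  (nat_lit 0x1ffff))) (nat_lit 34)) (nat_lit 0x1ffff))) (nat_lit 0x1ffff))) (nat_lit 0x1ffff))) s1 s2 s3 s3 (Nat.land (Nat.land za (Nat.shiftRight m (Nat.land (Nat.shiftRight (Nat.shiftRight m (Nat.land (Nat.shiftRight x (nat_lit 17)) (nat_lit 0x1ffff))) (nat_lit 34)) (nat_lit 0x1ffff)))) (Nat.shiftRight m (Nat.land (Nat.shiftRight (Nat.shiftRight m (nat_lit 34)) (Nat.land (Nat.shiftRight m (Nat.land
  (Nat.shiftRight (Nat.shiftRight m (Nat.land (Nat.shiftRight x (nat_lit 17)) (nat_lit 0x1ffff))) (nat_lit 34)) (nat_lit 0x1ffff))) (nat_lit 0x1ffff))) (nat_lit 0x1ffff)))) (Nat.add (Nat.add (Nat.add (Nat.add ac (Nat.land (Nat.shiftRight m (Nat.land (Nat.shiftRight (Nat.shiftRight m (Nat.land x (nat_lit 0x1ffff))) (nat_lit 34)) (nat_lit 0x1ffff))) (Nat.shiftLeft (Nat.land p (nat_lit 63)) (nat_lit 64))))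
  (Nat.land (Nat.shiftRight m (Nat.land (Nat.shiftRight (Nat.shiftRight m (Nat.land x (nat_lit 0x1ffff))) (nat_lit 34)) (nat_lit 0x1ffff))) (Nat.shiftLeft (Nat.land (Nat.shiftRight p (nat_lit 6)) (nat_lit 65535)) (nat_lit 70)))) (Nat.land (Nat.shiftRight m (Nat.land (Nat.shiftRight x (nat_lit 17)) (nat_lit 0x1ffff))) (Nat.shiftLeft (Nat.land (Nat.shiftRight (Nat.shiftRight p (nat_lit 6)) (nat_lit 16))
  (nat_lit 65535)) (nat_lit 70)))) (Nat.land (Nat.shiftRight m (Nat.land (Nat.shiftRight (Nat.shiftRight m (nat_lit 34)) (Nat.land (Nat.shiftRight m (Nat.land (Nat.shiftRight (Nat.shiftRight m (Nat.land (Nat.shiftRight x (nat_lit 17)) (nat_lit 0x1ffff))) (nat_lit 34)) (nat_lit 0x1ffff))) (nat_lit 0x1ffff))) (nat_lit 0x1ffff))) (Nat.shiftLeft (Nat.land (Nat.shiftRight (Nat.shiftRight (Nat.shiftRight p (nat_lit 6)) (nat_lit 16)) (nat_lit 16)) (nat_lit 65535)) (nat_lit 70))))⟩,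
  fun K p w => ⟨fun m x s1 s2 s3 s4 za ac => (K (Nat.shiftRight (Nat.shiftRight (Nat.shiftRight (Nat.shiftRight p (nat_lit 6)) (nat_lit 16)) (nat_lit 16)) (nat_lit 16)) (Nat.add (Nat.add (Nat.add (Nat.add w (Nat.shiftLeft (Nat.land p (nat_lit 63)) (nat_lit 64))) (Nat.shiftLeft (Nat.land (Nat.shiftRight p (nat_lit 6)) (nat_lit 65535)) (nat_lit 70))) (Nat.shiftLeft (Nat.land (Nat.shiftRight (Nat.shiftRight p
  (nat_lit 6)) (nat_lit 16)) (nat_lit 65535)) (nat_lit 70))) (Nat.shiftLeft (Nat.land (Nat.shiftRight (Nat.shiftRight (Nat.shiftRight p (nat_lit 6)) (nat_lit 16)) (nat_lit 16)) (nat_lit 65535)) (nat_lit 70)))).1 m (Nat.shiftRight m (Nat.land (Nat.shiftRight (Nat.shiftRight m (nat_lit 34)) (Nat.land (Nat.shiftRight (Nat.shiftRight m (Nat.land (Nat.shiftRight (Nat.shiftRight m (Nat.land x (nat_lit 0x1ffff)))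
  (nat_lit 34)) (nat_lit 0x1ffff))) (nat_lit 17)) (nat_lit 0x1ffff))) (nat_lit 0x1ffff))) s1 s2 s3 s3 (Nat.land (Nat.land za (Nat.shiftRight m (Nat.land (Nat.shiftRight (Nat.shiftRight m (Nat.land x (nat_lit 0x1ffff))) (nat_lit 34)) (nat_lit 0x1ffff)))) (Nat.shiftRight m (Nat.land (Nat.shiftRight (Nat.shiftRight m (nat_lit 34)) (Nat.land (Nat.shiftRight (Nat.shiftRight m (Nat.land (Nat.shiftRight (Nat.shiftRight m
  (Nat.land x (nat_lit 0x1ffff))) (nat_lit 34)) (nat_lit 0x1ffff))) (nat_lit 17)) (nat_lit 0x1ffff))) (nat_lit 0x1ffff)))) (Nat.add (Nat.add (Nat.add (Nat.add ac (Nat.land (Nat.shiftRight m (Nat.land (Nat.shiftRight (Nat.shiftRight m (Nat.land (Nat.shiftRight x (nat_lit 17)) (nat_lit 0x1ffff))) (nat_lit 34)) (nat_lit 0x1ffff))) (Nat.shiftLeft (Nat.land p (nat_lit 63)) (nat_lit 64)))) (Nat.land (Nat.lor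
  (Nat.shiftRight m (Nat.land (Nat.shiftRight m (Nat.land (Nat.shiftRight (Nat.shiftRight m (Nat.land (Nat.shiftRight x (nat_lit 17)) (nat_lit 0x1ffff))) (nat_lit 34)) (nat_lit 0x1ffff))) (nat_lit 0x1ffff))) (Nat.shiftRight m (Nat.land (Nat.shiftRight (Nat.shiftRight m (Nat.land (Nat.shiftRight (Nat.shiftRight m (Nat.land (Nat.shiftRight x (nat_lit 17)) (nat_lit 0x1ffff))) (nat_lit 34)) (nat_lit 0x1ffff)))
  (nat_lit 34)) (nat_lit 0x1ffff)))) (Nat.shiftLeft (Nat.land (Nat.shiftRight p (nat_lit 6)) (nat_lit 65535)) (nat_lit 70)))) (Nat.land (Nat.shiftRight m (Nat.land (Nat.shiftRight m (Nat.land x (nat_lit 0x1ffff))) (nat_lit 0x1ffff))) (Nat.shiftLeft (Nat.land (Nat.shiftRight (Nat.shiftRight p (nat_lit 6)) (nat_lit 16)) (nat_lit 65535)) (nat_lit 70)))) (Nat.land (Nat.shiftRight m (Nat.land (Nat.shiftRight m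
  (Nat.land (Nat.shiftRight (Nat.shiftRight m (nat_lit 34)) (Nat.land (Nat.shiftRight (Nat.shiftRight m (Nat.land (Nat.shiftRight (Nat.shiftRight m (Nat.land x (nat_lit 0x1ffff))) (nat_lit 34)) (nat_lit 0x1ffff))) (nat_lit 17)) (nat_lit 0x1ffff))) (nat_lit 0x1ffff))) (nat_lit 0x1ffff))) (Nat.shiftLeft (Nat.land (Nat.shiftRight (Nat.shiftRight (Nat.shiftRight p (nat_lit 6)) (nat_lit 16)) (nat_lit 16)) (nat_lit 65535)) (nat_lit 70))))⟩,
  rfl, rfl⟩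
noncomputable def en84 : Ent := ⟨[nat_lit 9, nat_lit 1, nat_lit 11],
  fun K p w => ⟨fun m x s1 s2 s3 s4 za ac => (K (Nat.shiftRight p (nat_lit 16)) (Nat.add w (Nat.shiftLeft (Nat.land p (nat_lit 65535)) (nat_lit 70)))).1 m (Nat.shiftRight m (Nat.land (Nat.shiftRight (Nat.shiftRight m (nat_lit 34)) (Nat.land (Nat.shiftRight s1 (nat_lit 17)) (nat_lit 0x1ffff))) (nat_lit 0x1ffff))) s2 s3 s4 s4 (Nat.land za (Nat.shiftRight m (Nat.land (Nat.shiftRight (Nat.shiftRight m (nat_lit 34)) (Nat.land (Nat.shiftRight s1 (nat_lit 17)) (nat_lit 0x1ffff))) (nat_lit 0x1ffff)))) (Nat.add ac (Nat.land (Nat.shiftRight m (Nat.land (Nat.shiftRight (Nat.shiftRight m (nat_lit 34)) (Nat.land (Nat.shiftRight s1 (nat_lit 17)) (nat_lit 0x1ffff))) (nat_lit 0x1ffff))) (Nat.shiftLeft (Nat.land p (nat_lit 65535)) (nat_lit 70))))⟩,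
  fun K p w => ⟨fun m x s1 s2 s3 s4 za ac => (K (Nat.shiftRight p (nat_lit 16)) (Nat.add w (Nat.shiftLeft (Nat.land p (nat_lit 65535)) (nat_lit 70)))).1 m (Nat.shiftRight m (Nat.land (Nat.shiftRight (Nat.shiftRight m (nat_lit 34)) (Nat.land s1 (nat_lit 0x1ffff))) (nat_lit 0x1ffff))) s2 s3 s4 s4 (Nat.land za (Nat.shiftRight m (Nat.land (Nat.shiftRight (Nat.shiftRight m (nat_lit 34)) (Nat.land s1 (nat_lit 0x1ffff))) (nat_lit 0x1ffff)))) (Nat.add ac (Nat.land (Nat.shiftRight m (Nat.land (Nat.shiftRight m (Nat.land (Nat.shiftRight (Nat.shiftRight m (nat_lit 34)) (Nat.land s1 (nat_lit 0x1ffff))) (nat_lit 0x1ffff))) (nat_lit 0x1ffff))) (Nat.shiftLeft (Nat.land p (nat_lit 65535)) (nat_lit 70))))⟩,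
  rfl, rfl⟩
noncomputable def en85 : Ent := ⟨[nat_lit 14, nat_lit 11, nat_lit 12, nat_lit 8, nat_lit 3, nat_lit 11, nat_lit 2],
  fun K p w => ⟨fun m x s1 s2 s3 s4 za ac => (K (Nat.shiftRight (Nat.shiftRight (Nat.shiftRight p (nat_lit 16)) (nat_lit 28)) (nat_lit 16)) (Nat.add (Nat.add (Nat.add w (Nat.shiftLeft (Nat.land p (nat_lit 65535)) (nat_lit 70))) (plA (Nat.shiftRight p (nat_lit 16)))) (Nat.shiftLeft (Nat.land (Nat.shiftRight (Nat.shiftRight p (nat_lit 16)) (nat_lit 28)) (nat_lit 65535)) (nat_lit 70)))).1 m (Nat.shiftRight m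
  (Nat.land (Nat.shiftRight (Nat.shiftRight m (Nat.land x (nat_lit 0x1ffff))) (nat_lit 34)) (nat_lit 0x1ffff))) x s1 s2 s3 (Nat.land (Nat.land za x) (Nat.shiftRight m (Nat.land (Nat.shiftRight (Nat.shiftRight m (Nat.land x (nat_lit 0x1ffff))) (nat_lit 34)) (nat_lit 0x1ffff)))) (Nat.add (Nat.add (Nat.add ac (Nat.land x (Nat.shiftLeft (Nat.land p (nat_lit 65535)) (nat_lit 70)))) (Nat.land x (plA (Nat.shiftRight p (nat_lit 16))))) (Nat.land (Nat.shiftRight m (Nat.land x (nat_lit 0x1ffff))) (Nat.shiftLeft (Nat.land (Nat.shiftRight (Nat.shiftRight p (nat_lit 16)) (nat_lit 28)) (nat_lit 65535)) (nat_lit 70))))⟩,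
  fun K p w => ⟨fun m x s1 s2 s3 s4 za ac => (K (Nat.shiftRight (Nat.shiftRight (Nat.shiftRight p (nat_lit 16)) (nat_lit 28)) (nat_lit 16)) (Nat.add (Nat.succ (Nat.add w (Nat.shiftLeft (Nat.land p (nat_lit 65535)) (nat_lit 70)))) (Nat.shiftLeft (Nat.land (Nat.shiftRight (Nat.shiftRight p (nat_lit 16)) (nat_lit 28)) (nat_lit 65535)) (nat_lit 70)))).1 m (Nat.shiftRight m (Nat.land (Nat.shiftRight (Nat.shiftRight m
  (Nat.land (Nat.shiftRight x (nat_lit 17)) (nat_lit 0x1ffff))) (nat_lit 34)) (nat_lit 0x1ffff))) x s1 s2 s3 (Nat.land (Nat.land za x) (Nat.shiftRight m (Nat.land (Nat.shiftRight (Nat.shiftRight m (Nat.land (Nat.shiftRight x (nat_lit 17)) (nat_lit 0x1ffff))) (nat_lit 34)) (nat_lit 0x1ffff)))) (Nat.add (Nat.add ac (Nat.land (Nat.shiftRight m (Nat.land x (nat_lit 0x1ffff))) (Nat.shiftLeft (Nat.land p (nat_lit 65535)) (nat_lit 70)))) (Nat.land (Nat.shiftRight m (Nat.land (Nat.shiftRight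 m (Nat.land (Nat.shiftRight x (nat_lit 17)) (nat_lit 0x1ffff))) (nat_lit 0x1ffff))) (Nat.shiftLeft (Nat.land (Nat.shiftRight (Nat.shiftRight p (nat_lit 16)) (nat_lit 28)) (nat_lit 65535)) (nat_lit 70))))⟩,
  rfl, rfl⟩
noncomputable def en86 : Ent := ⟨[nat_lit 9, nat_lit 2, nat_lit 8, nat_lit 0, nat_lit 0, nat_lit 11],
  fun K p w => ⟨fun m x s1 s2 s3 s4 za ac => (K (Nat.shiftRight p (nat_lit 16)) (Nat.add w (Nat.shiftLeft (Nat.land p (nat_lit 65535)) (nat_lit 70)))).1 m (Nat.shiftRight m (Nat.land (Nat.shiftRight (Nat.shiftRight m (nat_lit 34)) (Nat.land (Nat.shiftRight m (Nat.land (Nat.shiftRight (Nat.shiftRight m (nat_lit 34)) (Nat.land (Nat.shiftRight m (Nat.land (Nat.shiftRight s1 (nat_lit 34)) (nat_lit 0x1ffff)))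
  (nat_lit 0x1ffff))) (nat_lit 0x1ffff))) (nat_lit 0x1ffff))) (nat_lit 0x1ffff))) (Nat.shiftRight m (Nat.land (Nat.shiftRight s1 (nat_lit 34)) (nat_lit 0x1ffff))) s2 s3 s4 (Nat.land (Nat.land (Nat.land za (Nat.shiftRight m (Nat.land (Nat.shiftRight s1 (nat_lit 34)) (nat_lit 0x1ffff)))) (Nat.shiftRight m (Nat.land (Nat.shiftRight (Nat.shiftRight m (nat_lit 34)) (Nat.land (Nat.shiftRight m (Nat.land
  (Nat.shiftRight s1 (nat_lit 34)) (nat_lit 0x1ffff))) (nat_lit 0x1ffff))) (nat_lit 0x1ffff)))) (Nat.shiftRight m (Nat.land (Nat.shiftRight (Nat.shiftRight m (nat_lit 34)) (Nat.land (Nat.shiftRight m (Nat.land (Nat.shiftRight (Nat.shiftRight m (nat_lit 34)) (Nat.land (Nat.shiftRight m (Nat.land (Nat.shiftRight s1 (nat_lit 34)) (nat_lit 0x1ffff))) (nat_lit 0x1ffff))) (nat_lit 0x1ffff))) (nat_lit 0x1ffff)))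
  (nat_lit 0x1ffff)))) (Nat.add ac (Nat.land (Nat.shiftRight m (Nat.land (Nat.shiftRight (Nat.shiftRight m (nat_lit 34)) (Nat.land (Nat.shiftRight m (Nat.land (Nat.shiftRight (Nat.shiftRight m (nat_lit 34)) (Nat.land (Nat.shiftRight m (Nat.land (Nat.shiftRight s1 (nat_lit 34)) (nat_lit 0x1ffff))) (nat_lit 0x1ffff))) (nat_lit 0x1ffff))) (nat_lit 0x1ffff))) (nat_lit 0x1ffff))) (Nat.shiftLeft (Nat.land p (nat_lit 65535)) (nat_lit 70))))⟩,
  fun K p w => ⟨fun m x s1 s2 s3 s4 za ac => (K (Nat.shiftRight p (nat_lit 16)) (Nat.add w (Nat.shiftLeft (Nat.land p (nat_lit 65535)) (nat_lit 70)))).1 m (Nat.shiftRight m (Nat.land (Nat.shiftRight (Nat.shiftRight m (nat_lit 34)) (Nat.land (Nat.shiftRight (Nat.shiftRight m (Nat.land (Nat.shiftRight (Nat.shiftRight m (nat_lit 34)) (Nat.land (Nat.shiftRight (Nat.shiftRight m (Nat.land (Nat.shiftRight s1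
  (nat_lit 34)) (nat_lit 0x1ffff))) (nat_lit 17)) (nat_lit 0x1ffff))) (nat_lit 0x1ffff))) (nat_lit 17)) (nat_lit 0x1ffff))) (nat_lit 0x1ffff))) (Nat.shiftRight m (Nat.land (Nat.shiftRight s1 (nat_lit 34)) (nat_lit 0x1ffff))) s2 s3 s4 (Nat.land (Nat.land (Nat.land za (Nat.shiftRight m (Nat.land (Nat.shiftRight s1 (nat_lit 34)) (nat_lit 0x1ffff)))) (Nat.shiftRight m (Nat.land (Nat.shiftRight (Nat.shiftRight m
  (nat_lit 34)) (Nat.land (Nat.shiftRight (Nat.shiftRight m (Nat.land (Nat.shiftRight s1 (nat_lit 34)) (nat_lit 0x1ffff))) (nat_lit 17)) (nat_lit 0x1ffff))) (nat_lit 0x1ffff)))) (Nat.shiftRight m (Nat.land (Nat.shiftRight (Nat.shiftRight m (nat_lit 34)) (Nat.land (Nat.shiftRight (Nat.shiftRight m (Nat.land (Nat.shiftRight (Nat.shiftRight m (nat_lit 34)) (Nat.land (Nat.shiftRight (Nat.shiftRight m (Nat.land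
  (Nat.shiftRight s1 (nat_lit 34)) (nat_lit 0x1ffff))) (nat_lit 17)) (nat_lit 0x1ffff))) (nat_lit 0x1ffff))) (nat_lit 17)) (nat_lit 0x1ffff))) (nat_lit 0x1ffff)))) (Nat.add ac (Nat.land (Nat.shiftRight m (Nat.land (Nat.shiftRight m (Nat.land (Nat.shiftRight (Nat.shiftRight m (nat_lit 34)) (Nat.land (Nat.shiftRight (Nat.shiftRight m (Nat.land (Nat.shiftRight (Nat.shiftRight m (nat_lit 34)) (Nat.land (Nat.shiftRight (Nat.shiftRight m (Nat.land (Nat.shiftRight s1 (nat_lit 34)) (nat_lit 0x1ffff))) (nat_lit 17)) (nat_lit 0x1ffff))) (nat_lit 0x1ffff))) (nat_lit 17)) (nat_lit 0x1ffff))) (nat_lit 0x1ffff))) (nat_lit 0x1ffff))) (Nat.shiftLeft (Nat.land p (nat_lit 65535)) (nat_lit 70))))⟩,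
  rfl, rfl⟩
noncomputable def en87 : Ent := ⟨[nat_lit 9, nat_lit 1, nat_lit 4, nat_lit 11, nat_lit 2, nat_lit 4, nat_lit 11],
  fun K p w => ⟨fun m x s1 s2 s3 s4 za ac => (K (Nat.shiftRight (Nat.shiftRight p (nat_lit 16)) (nat_lit 16)) (Nat.add (Nat.add w (Nat.shiftLeft (Nat.land p (nat_lit 65535)) (nat_lit 70))) (Nat.shiftLeft (Nat.land (Nat.shiftRight p (nat_lit 16)) (nat_lit 65535)) (nat_lit 70)))).1 m (Nat.shiftRight m (Nat.land (Nat.shiftRight (Nat.shiftRight m (Nat.land (Nat.shiftRight (Nat.shiftRight m (Nat.land (Nat.shiftRight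
  (Nat.shiftRight m (Nat.land (Nat.shiftRight (Nat.shiftRight m (nat_lit 34)) (Nat.land (Nat.shiftRight s1 (nat_lit 17)) (nat_lit 0x1ffff))) (nat_lit 0x1ffff))) (nat_lit 17)) (nat_lit 0x1ffff))) (nat_lit 34)) (nat_lit 0x1ffff))) (nat_lit 17)) (nat_lit 0x1ffff))) s2 s3 s4 s4 (Nat.land (Nat.land za (Nat.shiftRight m (Nat.land (Nat.shiftRight (Nat.shiftRight m (nat_lit 34)) (Nat.land (Nat.shiftRight s1
  (nat_lit 17)) (nat_lit 0x1ffff))) (nat_lit 0x1ffff)))) (Nat.shiftRight m (Nat.land (Nat.shiftRight (Nat.shiftRight m (Nat.land (Nat.shiftRight (Nat.shiftRight m (Nat.land (Nat.shiftRight (Nat.shiftRight m (nat_lit 34)) (Nat.land (Nat.shiftRight s1 (nat_lit 17)) (nat_lit 0x1ffff))) (nat_lit 0x1ffff))) (nat_lit 17)) (nat_lit 0x1ffff))) (nat_lit 34)) (nat_lit 0x1ffff)))) (Nat.add (Nat.add ac (Nat.land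
  (Nat.shiftRight m (Nat.land (Nat.shiftRight (Nat.shiftRight m (Nat.land (Nat.shiftRight (Nat.shiftRight m (nat_lit 34)) (Nat.land (Nat.shiftRight s1 (nat_lit 17)) (nat_lit 0x1ffff))) (nat_lit 0x1ffff))) (nat_lit 17)) (nat_lit 0x1ffff))) (Nat.shiftLeft (Nat.land p (nat_lit 65535)) (nat_lit 70)))) (Nat.land (Nat.shiftRight m (Nat.land (Nat.shiftRight (Nat.shiftRight m (Nat.land (Nat.shiftRight (Nat.shiftRight m (Nat.land (Nat.shiftRight (Nat.shiftRight m (Nat.land (Nat.shiftRight (Nat.shiftRight m (nat_lit 34)) (Nat.land (Nat.shiftRight s1 (nat_lit 17)) (nat_lit 0x1ffff))) (nat_lit 0x1ffff))) (nat_lit 17)) (nat_lit 0x1ffff))) (nat_lit 34)) (nat_lit 0x1ffff))) (nat_lit 17)) (nat_lit 0x1ffff))) (Nat.shiftLeft (Nat.land (Nat.shiftRight p (nat_lit 16)) (nat_lit 65535)) (nat_lit 70))))⟩,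
  fun K p w => ⟨fun m x s1 s2 s3 s4 za ac => (K (Nat.shiftRight (Nat.shiftRight p (nat_lit 16)) (nat_lit 16)) (Nat.add (Nat.add w (Nat.shiftLeft (Nat.land p (nat_lit 65535)) (nat_lit 70))) (Nat.shiftLeft (Nat.land (Nat.shiftRight p (nat_lit 16)) (nat_lit 65535)) (nat_lit 70)))).1 m (Nat.shiftRight m (Nat.land (Nat.shiftRight m (Nat.land (Nat.shiftRight (Nat.shiftRight m (Nat.land (Nat.shiftRight m
  (Nat.land (Nat.shiftRight (Nat.shiftRight m (nat_lit 34)) (Nat.land s1 (nat_lit 0x1ffff))) (nat_lit 0x1ffff))) (nat_lit 0x1ffff))) (nat_lit 34)) (nat_lit 0x1ffff))) (nat_lit 0x1ffff))) s2 s3 s4 s4 (Nat.land (Nat.land za (Nat.shiftRight m (Nat.land (Nat.shiftRight (Nat.shiftRight m (nat_lit 34)) (Nat.land s1 (nat_lit 0x1ffff))) (nat_lit 0x1ffff)))) (Nat.shiftRight m (Nat.land (Nat.shiftRight (Nat.shiftRight m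
  (Nat.land (Nat.shiftRight m (Nat.land (Nat.shiftRight (Nat.shiftRight m (nat_lit 34)) (Nat.land s1 (nat_lit 0x1ffff))) (nat_lit 0x1ffff))) (nat_lit 0x1ffff))) (nat_lit 34)) (nat_lit 0x1ffff)))) (Nat.add (Nat.add ac (Nat.land (Nat.shiftRight m (Nat.land (Nat.shiftRight m (Nat.land (Nat.shiftRight m (Nat.land (Nat.shiftRight (Nat.shiftRight m (nat_lit 34)) (Nat.land s1 (nat_lit 0x1ffff))) (nat_lit 0x1ffff)))
  (nat_lit 0x1ffff))) (nat_lit 0x1ffff))) (Nat.shiftLeft (Nat.land p (nat_lit 65535)) (nat_lit 70)))) (Nat.land (Nat.shiftRight m (Nat.land (Nat.shiftRight m (Nat.land (Nat.shiftRight m (Nat.land (Nat.shiftRight (Nat.shiftRight m (Nat.land (Nat.shiftRight m (Nat.land (Nat.shiftRight (Nat.shiftRight m (nat_lit 34)) (Nat.land s1 (nat_lit 0x1ffff))) (nat_lit 0x1ffff))) (nat_lit 0x1ffff))) (nat_lit 34)) (nat_lit 0x1ffff))) (nat_lit 0x1ffff))) (nat_lit 0x1ffff))) (Nat.shiftLeft (Nat.land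 (Nat.shiftRight p (nat_lit 16)) (nat_lit 65535)) (nat_lit 70))))⟩,
  rfl, rfl⟩
noncomputable def en88 : Ent := ⟨[nat_lit 14, nat_lit 11, nat_lit 12, nat_lit 8, nat_lit 0],
  fun K p w => ⟨fun m x s1 s2 s3 s4 za ac => (K (Nat.shiftRight (Nat.shiftRight p (nat_lit 16)) (nat_lit 28)) (Nat.add (Nat.add w (Nat.shiftLeft (Nat.land p (nat_lit 65535)) (nat_lit 70))) (plA (Nat.shiftRight p (nat_lit 16))))).1 m (Nat.shiftRight m (Nat.land (Nat.shiftRight (Nat.shiftRight m (nat_lit 34)) (Nat.land x (nat_lit 0x1ffff))) (nat_lit 0x1ffff))) x s1 s2 s3 (Nat.land (Nat.land za x) (Nat.shiftRight m (Nat.land (Nat.shiftRight (Nat.shiftRight m (nat_lit 34)) (Nat.land x (nat_lit 0x1ffff))) (nat_lit 0x1ffff)))) (Nat.add (Nat.add ac (Nat.land x (Nat.shiftLeft (Nat.land p (nat_lit 65535)) (nat_lit 70)))) (Nat.land x (plA (Nat.shiftRight p (nat_lit 16)))))⟩,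
  fun K p w => ⟨fun m x s1 s2 s3 s4 za ac => (K (Nat.shiftRight (Nat.shiftRight p (nat_lit 16)) (nat_lit 28)) (Nat.succ (Nat.add w (Nat.shiftLeft (Nat.land p (nat_lit 65535)) (nat_lit 70))))).1 m (Nat.shiftRight m (Nat.land (Nat.shiftRight (Nat.shiftRight m (nat_lit 34)) (Nat.land (Nat.shiftRight x (nat_lit 17)) (nat_lit 0x1ffff))) (nat_lit 0x1ffff))) x s1 s2 s3 (Nat.land (Nat.land za x) (Nat.shiftRight m (Nat.land (Nat.shiftRight (Nat.shiftRight m (nat_lit 34)) (Nat.land (Nat.shiftRight x (nat_lit 17)) (nat_lit 0x1ffff))) (nat_lit 0x1ffff)))) (Nat.add ac (Nat.land (Nat.shiftRight m (Nat.land x (nat_lit 0x1ffff))) (Nat.shiftLeft (Nat.land p (nat_lit 65535)) (nat_lit 70))))⟩,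
  rfl, rfl⟩
noncomputable def en89 : Ent := ⟨[nat_lit 9, nat_lit 8, nat_lit 1],
  fun K p w => ⟨fun m x s1 s2 s3 s4 za ac => (K p w).1 m (Nat.shiftRight m (Nat.land (Nat.shiftRight (Nat.shiftRight m (nat_lit 34)) (Nat.land (Nat.shiftRight s1 (nat_lit 17)) (nat_lit 0x1ffff))) (nat_lit 0x1ffff))) s1 s2 s3 s4 (Nat.land za (Nat.shiftRight m (Nat.land (Nat.shiftRight (Nat.shiftRight m (nat_lit 34)) (Nat.land (Nat.shiftRight s1 (nat_lit 17)) (nat_lit 0x1ffff))) (nat_lit 0x1ffff)))) ac⟩,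
  fun K p w => ⟨fun m x s1 s2 s3 s4 za ac => (K p w).1 m (Nat.shiftRight m (Nat.land (Nat.shiftRight (Nat.shiftRight m (nat_lit 34)) (Nat.land s1 (nat_lit 0x1ffff))) (nat_lit 0x1ffff))) s1 s2 s3 s4 (Nat.land za (Nat.shiftRight m (Nat.land (Nat.shiftRight (Nat.shiftRight m (nat_lit 34)) (Nat.land s1 (nat_lit 0x1ffff))) (nat_lit 0x1ffff)))) ac⟩,
  rfl, rfl⟩
noncomputable def en90 : Ent := ⟨[nat_lit 0, nat_lit 0, nat_lit 3, nat_lit 11],
  fun K p w => ⟨fun m x s1 s2 s3 s4 za ac => (K (Nat.shiftRight p (nat_lit 16)) (Nat.add w (Nat.shiftLeft (Nat.land p (nat_lit 65535)) (nat_lit 70)))).1 m (Nat.shiftRight m (Nat.land (Nat.shiftRight m (Nat.land (Nat.shiftRight (Nat.shiftRight m (nat_lit 34)) (Nat.land (Nat.shiftRight m (Nat.land (Nat.shiftRight (Nat.shiftRight m (nat_lit 34)) (Nat.land x (nat_lit 0x1ffff))) (nat_lit 0x1ffff))) (nat_lit 0x1ffff)))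
  (nat_lit 0x1ffff))) (nat_lit 0x1ffff))) s1 s2 s3 s4 (Nat.land (Nat.land za (Nat.shiftRight m (Nat.land (Nat.shiftRight (Nat.shiftRight m (nat_lit 34)) (Nat.land x (nat_lit 0x1ffff))) (nat_lit 0x1ffff)))) (Nat.shiftRight m (Nat.land (Nat.shiftRight (Nat.shiftRight m (nat_lit 34)) (Nat.land (Nat.shiftRight m (Nat.land (Nat.shiftRight (Nat.shiftRight m (nat_lit 34)) (Nat.land x (nat_lit 0x1ffff))) (nat_lit 0x1ffff)))
  (nat_lit 0x1ffff))) (nat_lit 0x1ffff)))) (Nat.add ac (Nat.land (Nat.shiftRight m (Nat.land (Nat.shiftRight m (Nat.land (Nat.shiftRight (Nat.shiftRight m (nat_lit 34)) (Nat.land (Nat.shiftRight m (Nat.land (Nat.shiftRight (Nat.shiftRight m (nat_lit 34)) (Nat.land x (nat_lit 0x1ffff))) (nat_lit 0x1ffff))) (nat_lit 0x1ffff))) (nat_lit 0x1ffff))) (nat_lit 0x1ffff))) (Nat.shiftLeft (Nat.land p (nat_lit 65535)) (nat_lit 70))))⟩,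
  fun K p w => ⟨fun m x s1 s2 s3 s4 za ac => (K (Nat.shiftRight p (nat_lit 16)) (Nat.add w (Nat.shiftLeft (Nat.land p (nat_lit 65535)) (nat_lit 70)))).1 m (Nat.shiftRight m (Nat.land (Nat.shiftRight (Nat.shiftRight m (Nat.land (Nat.shiftRight (Nat.shiftRight m (nat_lit 34)) (Nat.land (Nat.shiftRight (Nat.shiftRight m (Nat.land (Nat.shiftRight (Nat.shiftRight m (nat_lit 34)) (Nat.land (Nat.shiftRight x
  (nat_lit 17)) (nat_lit 0x1ffff))) (nat_lit 0x1ffff))) (nat_lit 17)) (nat_lit 0x1ffff))) (nat_lit 0x1ffff))) (nat_lit 17)) (nat_lit 0x1ffff))) s1 s2 s3 s4 (Nat.land (Nat.land za (Nat.shiftRight m (Nat.land (Nat.shiftRight (Nat.shiftRight m (nat_lit 34)) (Nat.land (Nat.shiftRight x (nat_lit 17)) (nat_lit 0x1ffff))) (nat_lit 0x1ffff)))) (Nat.shiftRight m (Nat.land (Nat.shiftRight (Nat.shiftRight m (nat_lit 34))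
  (Nat.land (Nat.shiftRight (Nat.shiftRight m (Nat.land (Nat.shiftRight (Nat.shiftRight m (nat_lit 34)) (Nat.land (Nat.shiftRight x (nat_lit 17)) (nat_lit 0x1ffff))) (nat_lit 0x1ffff))) (nat_lit 17)) (nat_lit 0x1ffff))) (nat_lit 0x1ffff)))) (Nat.add ac (Nat.land (Nat.shiftRight m (Nat.land (Nat.shiftRight m (Nat.land (Nat.shiftRight (Nat.shiftRight m (Nat.land (Nat.shiftRight (Nat.shiftRight m (nat_lit 34)) (Nat.land (Nat.shiftRight (Nat.shiftRight m (Nat.land (Nat.shiftRight (Nat.shiftRight m (nat_lit 34)) (Nat.land (Nat.shiftRight x (nat_lit 17)) (nat_lit 0x1ffff))) (nat_lit 0x1ffff))) (nat_lit 17)) (nat_lit 0x1ffff))) (nat_lit 0x1ffff))) (nat_lit 17)) (nat_lit 0x1ffff))) (nat_lit 0x1ffff))) (Nat.shiftLeft (Nat.land p (nat_lit 65535)) (nat_lit 70))))⟩,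
  rfl, rfl⟩
noncomputable def en91 : Ent := ⟨[nat_lit 2, nat_lit 8, nat_lit 0],
  fun K p w => ⟨fun m x s1 s2 s3 s4 za ac => (K p w).1 m (Nat.shiftRight m (Nat.land (Nat.shiftRight (Nat.shiftRight m (nat_lit 34)) (Nat.land (Nat.shiftRight m (Nat.land (Nat.shiftRight x (nat_lit 34)) (nat_lit 0x1ffff))) (nat_lit 0x1ffff))) (nat_lit 0x1ffff))) (Nat.shiftRight m (Nat.land (Nat.shiftRight x (nat_lit 34)) (nat_lit 0x1ffff))) s1 s2 s3 (Nat.land (Nat.land za (Nat.shiftRight m (Nat.land (Nat.shiftRight x (nat_lit 34)) (nat_lit 0x1ffff)))) (Nat.shiftRight m (Nat.land (Nat.shiftRight (Nat.shiftRight m (nat_lit 34)) (Nat.land (Nat.shiftRight m (Nat.land (Nat.shiftRight x (nat_lit 34)) (nat_lit 0x1ffff))) (nat_lit 0x1ffff))) (nat_lit 0x1ffff)))) ac⟩,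
  fun K p w => ⟨fun m x s1 s2 s3 s4 za ac => (K p w).1 m (Nat.shiftRight m (Nat.land (Nat.shiftRight (Nat.shiftRight m (nat_lit 34)) (Nat.land (Nat.shiftRight (Nat.shiftRight m (Nat.land (Nat.shiftRight x (nat_lit 34)) (nat_lit 0x1ffff))) (nat_lit 17)) (nat_lit 0x1ffff))) (nat_lit 0x1ffff))) (Nat.shiftRight m (Nat.land (Nat.shiftRight x (nat_lit 34)) (nat_lit 0x1ffff))) s1 s2 s3 (Nat.land (Nat.land za (Nat.shiftRight m (Nat.land (Nat.shiftRight x (nat_lit 34)) (nat_lit 0x1ffff)))) (Nat.shiftRight m (Nat.land (Nat.shiftRight (Nat.shiftRight m (nat_lit 34)) (Nat.land (Nat.shiftRight (Nat.shiftRight m (Nat.land (Nat.shiftRight x (nat_lit 34)) (nat_lit 0x1ffff))) (nat_lit 17)) (nat_lit 0x1ffff))) (nat_lit 0x1ffff)))) ac⟩,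
  rfl, rfl⟩
noncomputable def en92 : Ent := ⟨[nat_lit 8, nat_lit 3, nat_lit 11, nat_lit 9, nat_lit 1],
  fun K p w => ⟨fun m x s1 s2 s3 s4 za ac => (K (Nat.shiftRight p (nat_lit 16)) (Nat.add w (Nat.shiftLeft (Nat.land p (nat_lit 65535)) (nat_lit 70)))).1 m (Nat.shiftRight m (Nat.land (Nat.shiftRight (Nat.shiftRight m (nat_lit 34)) (Nat.land (Nat.shiftRight x (nat_lit 17)) (nat_lit 0x1ffff))) (nat_lit 0x1ffff))) s1 s2 s3 s3 (Nat.land za (Nat.shiftRight m (Nat.land (Nat.shiftRight (Nat.shiftRight m (nat_lit 34)) (Nat.land (Nat.shiftRight x (nat_lit 17)) (nat_lit 0x1ffff))) (nat_lit 0x1ffff)))) (Nat.add ac (Nat.land (Nat.shiftRight m (Nat.land x (nat_lit 0x1ffff))) (Nat.shiftLeft (Nat.land p (nat_lit 65535)) (nat_lit 70))))⟩,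
  fun K p w => ⟨fun m x s1 s2 s3 s4 za ac => (K (Nat.shiftRight p (nat_lit 16)) (Nat.add w (Nat.shiftLeft (Nat.land p (nat_lit 65535)) (nat_lit 70)))).1 m (Nat.shiftRight m (Nat.land (Nat.shiftRight (Nat.shiftRight m (nat_lit 34)) (Nat.land x (nat_lit 0x1ffff))) (nat_lit 0x1ffff))) s1 s2 s3 s3 (Nat.land za (Nat.shiftRight m (Nat.land (Nat.shiftRight (Nat.shiftRight m (nat_lit 34)) (Nat.land x (nat_lit 0x1ffff))) (nat_lit 0x1ffff)))) (Nat.add ac (Nat.land (Nat.shiftRight m (Nat.land (Nat.shiftRight m (Nat.land (Nat.shiftRight x (nat_lit 17)) (nat_lit 0x1ffff))) (nat_lit 0x1ffff))) (Nat.shiftLeft (Nat.land p (nat_lit 65535)) (nat_lit 70))))⟩,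
  rfl, rfl⟩
noncomputable def en93 : Ent := ⟨[nat_lit 7, nat_lit 6],
  fun K p w => ⟨fun m x s1 s2 s3 s4 za ac => (K p w).1 m (Nat.shiftRight m (Nat.land (Nat.shiftRight (Nat.shiftRight m (Nat.land (Nat.shiftRight x (nat_lit 34)) (nat_lit 0x1ffff))) (nat_lit 17)) (nat_lit 0x1ffff))) s1 s2 s3 s4 za ac⟩,
  fun K p w => ⟨fun m x s1 s2 s3 s4 za ac => (K p w).1 m (Nat.shiftRight m (Nat.land (Nat.shiftRight m (Nat.land (Nat.shiftRight x (nat_lit 34)) (nat_lit 0x1ffff))) (nat_lit 0x1ffff))) s1 s2 s3 s4 za ac⟩,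
  rfl, rfl⟩
noncomputable def en94 : Ent := ⟨[nat_lit 8, nat_lit 3, nat_lit 12, nat_lit 2, nat_lit 11],
  fun K p w => ⟨fun m x s1 s2 s3 s4 za ac => (K (Nat.shiftRight (Nat.shiftRight p (nat_lit 28)) (nat_lit 16)) (Nat.add (Nat.add w (plA p)) (Nat.shiftLeft (Nat.land (Nat.shiftRight p (nat_lit 28)) (nat_lit 65535)) (nat_lit 70)))).1 m (Nat.shiftRight m (Nat.land (Nat.shiftRight (Nat.shiftRight m (Nat.land x (nat_lit 0x1ffff))) (nat_lit 34)) (nat_lit 0x1ffff))) x s1 s2 s3 (Nat.land za (Nat.shiftRight m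
  (Nat.land (Nat.shiftRight (Nat.shiftRight m (Nat.land x (nat_lit 0x1ffff))) (nat_lit 34)) (nat_lit 0x1ffff)))) (Nat.add (Nat.add ac (Nat.land (Nat.shiftRight m (Nat.land x (nat_lit 0x1ffff))) (plA p))) (Nat.land (Nat.shiftRight m (Nat.land (Nat.shiftRight (Nat.shiftRight m (Nat.land x (nat_lit 0x1ffff))) (nat_lit 34)) (nat_lit 0x1ffff))) (Nat.shiftLeft (Nat.land (Nat.shiftRight p (nat_lit 28)) (nat_lit 65535)) (nat_lit 70))))⟩,
  fun K p w => ⟨fun m x s1 s2 s3 s4 za ac => (K (Nat.shiftRight (Nat.shiftRight p (nat_lit 28)) (nat_lit 16)) (Nat.add (Nat.succ w) (Nat.shiftLeft (Nat.land (Nat.shiftRight p (nat_lit 28)) (nat_lit 65535)) (nat_lit 70)))).1 m (Nat.shiftRight m (Nat.land (Nat.shiftRight (Nat.shiftRight m (Nat.land (Nat.shiftRight x (nat_lit 17)) (nat_lit 0x1ffff))) (nat_lit 34)) (nat_lit 0x1ffff))) x s1 s2 s3 (Nat.land za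
  (Nat.shiftRight m (Nat.land (Nat.shiftRight (Nat.shiftRight m (Nat.land (Nat.shiftRight x (nat_lit 17)) (nat_lit 0x1ffff))) (nat_lit 34)) (nat_lit 0x1ffff)))) (Nat.add ac (Nat.land (Nat.shiftRight m (Nat.land (Nat.shiftRight m (Nat.land (Nat.shiftRight (Nat.shiftRight m (Nat.land (Nat.shiftRight x (nat_lit 17)) (nat_lit 0x1ffff))) (nat_lit 34)) (nat_lit 0x1ffff))) (nat_lit 0x1ffff))) (Nat.shiftLeft (Nat.land (Nat.shiftRight p (nat_lit 28)) (nat_lit 65535)) (nat_lit 70))))⟩,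
  rfl, rfl⟩
noncomputable def en95 : Ent := ⟨[nat_lit 16, nat_lit 9, nat_lit 1],
  fun K p w => ⟨fun m x s1 s2 s3 s4 za ac => (K (Nat.shiftRight p (nat_lit 16)) (Nat.add w (Nat.shiftLeft (Nat.land p (nat_lit 65535)) (nat_lit 70)))).1 m (Nat.shiftRight m (Nat.land (Nat.shiftRight (Nat.shiftRight m (nat_lit 34)) (Nat.land (Nat.shiftRight s1 (nat_lit 17)) (nat_lit 0x1ffff))) (nat_lit 0x1ffff))) s2 s3 s4 s4 (Nat.land za (Nat.shiftRight m (Nat.land (Nat.shiftRight (Nat.shiftRight m (nat_lit 34)) (Nat.land (Nat.shiftRight s1 (nat_lit 17)) (nat_lit 0x1ffff))) (nat_lit 0x1ffff)))) (Nat.add ac (Nat.land x (Nat.shiftLeft (Nat.land p (nat_lit 65535)) (nat_lit 70))))⟩,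
  fun K p w => ⟨fun m x s1 s2 s3 s4 za ac => (K (Nat.shiftRight p (nat_lit 16)) (Nat.add w (Nat.shiftLeft (Nat.land p (nat_lit 65535)) (nat_lit 70)))).1 m (Nat.shiftRight m (Nat.land (Nat.shiftRight (Nat.shiftRight m (nat_lit 34)) (Nat.land s1 (nat_lit 0x1ffff))) (nat_lit 0x1ffff))) s2 s3 s4 s4 (Nat.land za (Nat.shiftRight m (Nat.land (Nat.shiftRight (Nat.shiftRight m (nat_lit 34)) (Nat.land s1 (nat_lit 0x1ffff))) (nat_lit 0x1ffff)))) (Nat.add ac (Nat.land (Nat.lor (Nat.shiftRight m (Nat.land x (nat_lit 0x1ffff))) (Nat.shiftRight m (Nat.land (Nat.shiftRight x (nat_lit 34)) (nat_lit 0x1ffff)))) (Nat.shiftLeft (Nat.land p (nat_lit 65535)) (nat_lit 70))))⟩,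
  rfl, rfl⟩
noncomputable def en96 : Ent := ⟨[nat_lit 0, nat_lit 3, nat_lit 13],
  fun K p w => ⟨fun m x s1 s2 s3 s4 za ac => (K p (Nat.add w (nat_lit 0x10000000000000000))).1 m (Nat.shiftRight m (Nat.land (Nat.shiftRight (Nat.shiftRight m (Nat.land (Nat.shiftRight m (Nat.land (Nat.shiftRight (Nat.shiftRight m (nat_lit 34)) (Nat.land x (nat_lit 0x1ffff))) (nat_lit 0x1ffff))) (nat_lit 0x1ffff))) (nat_lit 34)) (nat_lit 0x1ffff))) s1 s2 s3 s4 (Nat.land za (Nat.shiftRight m (Nat.land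
  (Nat.shiftRight (Nat.shiftRight m (nat_lit 34)) (Nat.land x (nat_lit 0x1ffff))) (nat_lit 0x1ffff)))) (Nat.add ac (Nat.land (Nat.shiftRight m (Nat.land (Nat.shiftRight (Nat.shiftRight m (Nat.land (Nat.shiftRight m (Nat.land (Nat.shiftRight (Nat.shiftRight m (nat_lit 34)) (Nat.land x (nat_lit 0x1ffff))) (nat_lit 0x1ffff))) (nat_lit 0x1ffff))) (nat_lit 34)) (nat_lit 0x1ffff))) (nat_lit 0x10000000000000000)))⟩,
  fun K p w => ⟨fun m x s1 s2 s3 s4 za ac => (K p (Nat.add w (nat_lit 0x10000000000000000))).1 m (Nat.shiftRight m (Nat.land (Nat.shiftRight (Nat.shiftRight m (Nat.land (Nat.shiftRight (Nat.shiftRight m (Nat.land (Nat.shiftRight (Nat.shiftRight m (nat_lit 34)) (Nat.land (Nat.shiftRight x (nat_lit 17)) (nat_lit 0x1ffff))) (nat_lit 0x1ffff))) (nat_lit 17)) (nat_lit 0x1ffff))) (nat_lit 34)) (nat_lit 0x1ffff))) s1 s2 s3 s4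
  (Nat.land za (Nat.shiftRight m (Nat.land (Nat.shiftRight (Nat.shiftRight m (nat_lit 34)) (Nat.land (Nat.shiftRight x (nat_lit 17)) (nat_lit 0x1ffff))) (nat_lit 0x1ffff)))) (Nat.add ac (Nat.land (Nat.shiftRight m (Nat.land (Nat.shiftRight (Nat.shiftRight m (Nat.land (Nat.shiftRight (Nat.shiftRight m (Nat.land (Nat.shiftRight (Nat.shiftRight m (nat_lit 34)) (Nat.land (Nat.shiftRight x (nat_lit 17)) (nat_lit 0x1ffff))) (nat_lit 0x1ffff))) (nat_lit 17)) (nat_lit 0x1ffff))) (nat_lit 34)) (nat_lit 0x1ffff))) (nat_lit 0x10000000000000000)))⟩,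
  rfl, rfl⟩
noncomputable def en97 : Ent := ⟨[nat_lit 9, nat_lit 4],
  fun K p w => ⟨fun m x s1 s2 s3 s4 za ac => (K p w).1 m (Nat.shiftRight m (Nat.land (Nat.shiftRight s1 (nat_lit 17)) (nat_lit 0x1ffff))) s2 s3 s4 s4 za ac⟩,
  fun K p w => ⟨fun m x s1 s2 s3 s4 za ac => (K p w).1 m (Nat.shiftRight m (Nat.land s1 (nat_lit 0x1ffff))) s2 s3 s4 s4 za ac⟩,
  rfl, rfl⟩
noncomputable def en98 : Ent := ⟨[nat_lit 0, nat_lit 8, nat_lit 0],
  fun K p w => ⟨fun m x s1 s2 s3 s4 za ac => (K p w).1 m (Nat.shiftRight m (Nat.land (Nat.shiftRight (Nat.shiftRight m (nat_lit 34)) (Nat.land (Nat.shiftRight m (Nat.land (Nat.shiftRight (Nat.shiftRight m (nat_lit 34)) (Nat.land x (nat_lit 0x1ffff))) (nat_lit 0x1ffff))) (nat_lit 0x1ffff))) (nat_lit 0x1ffff))) (Nat.shiftRight m (Nat.land (Nat.shiftRight (Nat.shiftRight m (nat_lit 34)) (Nat.land x (nat_lit 0x1ffff)))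
  (nat_lit 0x1ffff))) s1 s2 s3 (Nat.land (Nat.land za (Nat.shiftRight m (Nat.land (Nat.shiftRight (Nat.shiftRight m (nat_lit 34)) (Nat.land x (nat_lit 0x1ffff))) (nat_lit 0x1ffff)))) (Nat.shiftRight m (Nat.land (Nat.shiftRight (Nat.shiftRight m (nat_lit 34)) (Nat.land (Nat.shiftRight m (Nat.land (Nat.shiftRight (Nat.shiftRight m (nat_lit 34)) (Nat.land x (nat_lit 0x1ffff))) (nat_lit 0x1ffff))) (nat_lit 0x1ffff))) (nat_lit 0x1ffff)))) ac⟩,
  fun K p w => ⟨fun m x s1 s2 s3 s4 za ac => (K p w).1 m (Nat.shiftRight m (Nat.land (Nat.shiftRight (Nat.shiftRight m (nat_lit 34)) (Nat.land (Nat.shiftRight (Nat.shiftRight m (Nat.land (Nat.shiftRight (Nat.shiftRight m (nat_lit 34)) (Nat.land (Nat.shiftRight x (nat_lit 17)) (nat_lit 0x1ffff))) (nat_lit 0x1ffff))) (nat_lit 17)) (nat_lit 0x1ffff))) (nat_lit 0x1ffff))) (Nat.shiftRight m (Nat.land (Nat.shiftRight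
  (Nat.shiftRight m (nat_lit 34)) (Nat.land (Nat.shiftRight x (nat_lit 17)) (nat_lit 0x1ffff))) (nat_lit 0x1ffff))) s1 s2 s3 (Nat.land (Nat.land za (Nat.shiftRight m (Nat.land (Nat.shiftRight (Nat.shiftRight m (nat_lit 34)) (Nat.land (Nat.shiftRight x (nat_lit 17)) (nat_lit 0x1ffff))) (nat_lit 0x1ffff)))) (Nat.shiftRight m (Nat.land (Nat.shiftRight (Nat.shiftRight m (nat_lit 34)) (Nat.land (Nat.shiftRight (Nat.shiftRight m (Nat.land (Nat.shiftRight (Nat.shiftRight m (nat_lit 34)) (Nat.land (Nat.shiftRight x (nat_lit 17)) (nat_lit 0x1ffff))) (nat_lit 0x1ffff))) (nat_lit 17)) (nat_lit 0x1ffff))) (nat_lit 0x1ffff)))) ac⟩,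
  rfl, rfl⟩
noncomputable def en99 : Ent := ⟨[nat_lit 9, nat_lit 4, nat_lit 11, nat_lit 2, nat_lit 11],
  fun K p w => ⟨fun m x s1 s2 s3 s4 za ac => (K (Nat.shiftRight (Nat.shiftRight p (nat_lit 16)) (nat_lit 16)) (Nat.add (Nat.add w (Nat.shiftLeft (Nat.land p (nat_lit 65535)) (nat_lit 70))) (Nat.shiftLeft (Nat.land (Nat.shiftRight p (nat_lit 16)) (nat_lit 65535)) (nat_lit 70)))).1 m (Nat.shiftRight m (Nat.land (Nat.shiftRight (Nat.shiftRight m (Nat.land (Nat.shiftRight s1 (nat_lit 17)) (nat_lit 0x1ffff)))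
  (nat_lit 34)) (nat_lit 0x1ffff))) s2 s3 s4 s4 (Nat.land za (Nat.shiftRight m (Nat.land (Nat.shiftRight (Nat.shiftRight m (Nat.land (Nat.shiftRight s1 (nat_lit 17)) (nat_lit 0x1ffff))) (nat_lit 34)) (nat_lit 0x1ffff)))) (Nat.add (Nat.add ac (Nat.land (Nat.shiftRight m (Nat.land (Nat.shiftRight s1 (nat_lit 17)) (nat_lit 0x1ffff))) (Nat.shiftLeft (Nat.land p (nat_lit 65535)) (nat_lit 70)))) (Nat.land (Nat.shiftRight m (Nat.land (Nat.shiftRight (Nat.shiftRight m (Nat.land (Nat.shiftRight s1 (nat_lit 17)) (nat_lit 0x1ffff))) (nat_lit 34)) (nat_lit 0x1ffff))) (Nat.shiftLeft (Nat.land (Nat.shiftRight p (nat_lit 16)) (nat_lit 65535)) (nat_lit 70))))⟩,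
  fun K p w => ⟨fun m x s1 s2 s3 s4 za ac => (K (Nat.shiftRight (Nat.shiftRight p (nat_lit 16)) (nat_lit 16)) (Nat.add (Nat.add w (Nat.shiftLeft (Nat.land p (nat_lit 65535)) (nat_lit 70))) (Nat.shiftLeft (Nat.land (Nat.shiftRight p (nat_lit 16)) (nat_lit 65535)) (nat_lit 70)))).1 m (Nat.shiftRight m (Nat.land (Nat.shiftRight (Nat.shiftRight m (Nat.land s1 (nat_lit 0x1ffff))) (nat_lit 34)) (nat_lit 0x1ffff))) s2 s3 s4 s4
  (Nat.land za (Nat.shiftRight m (Nat.land (Nat.shiftRight (Nat.shiftRight m (Nat.land s1 (nat_lit 0x1ffff))) (nat_lit 34)) (nat_lit 0x1ffff)))) (Nat.add (Nat.add ac (Nat.land (Nat.shiftRight m (Nat.land (Nat.shiftRight m (Nat.land s1 (nat_lit 0x1ffff))) (nat_lit 0x1ffff))) (Nat.shiftLeft (Nat.land p (nat_lit 65535)) (nat_lit 70)))) (Nat.land (Nat.shiftRight m (Nat.land (Nat.shiftRight m (Nat.land (Nat.shiftRight (Nat.shiftRight m (Nat.land s1 (nat_lit 0x1ffff)))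 (nat_lit 34)) (nat_lit 0x1ffff))) (nat_lit 0x1ffff))) (Nat.shiftLeft (Nat.land (Nat.shiftRight p (nat_lit 16)) (nat_lit 65535)) (nat_lit 70))))⟩,
  rfl, rfl⟩
noncomputable def en100 : Ent := ⟨[nat_lit 9, nat_lit 4, nat_lit 11, nat_lit 2, nat_lit 0],
  fun K p w => ⟨fun m x s1 s2 s3 s4 za ac => (K (Nat.shiftRight p (nat_lit 16)) (Nat.add w (Nat.shiftLeft (Nat.land p (nat_lit 65535)) (nat_lit 70)))).1 m (Nat.shiftRight m (Nat.land (Nat.shiftRight (Nat.shiftRight m (nat_lit 34)) (Nat.land (Nat.shiftRight m (Nat.land (Nat.shiftRight (Nat.shiftRight m (Nat.land (Nat.shiftRight s1 (nat_lit 17)) (nat_lit 0x1ffff))) (nat_lit 34)) (nat_lit 0x1ffff))) (nat_lit 0x1ffff)))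
  (nat_lit 0x1ffff))) s2 s3 s4 s4 (Nat.land (Nat.land za (Nat.shiftRight m (Nat.land (Nat.shiftRight (Nat.shiftRight m (Nat.land (Nat.shiftRight s1 (nat_lit 17)) (nat_lit 0x1ffff))) (nat_lit 34)) (nat_lit 0x1ffff)))) (Nat.shiftRight m (Nat.land (Nat.shiftRight (Nat.shiftRight m (nat_lit 34)) (Nat.land (Nat.shiftRight m (Nat.land (Nat.shiftRight (Nat.shiftRight m (Nat.land (Nat.shiftRight s1 (nat_lit 17)) (nat_lit 0x1ffff))) (nat_lit 34)) (nat_lit 0x1ffff))) (nat_lit 0x1ffff))) (nat_lit 0x1ffff)))) (Nat.add ac (Nat.land (Nat.shiftRight m (Nat.land (Nat.shiftRight s1 (nat_lit 17)) (nat_lit 0x1ffff))) (Nat.shiftLeft (Nat.land p (nat_lit 65535)) (nat_lit 70))))⟩,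
  fun K p w => ⟨fun m x s1 s2 s3 s4 za ac => (K (Nat.shiftRight p (nat_lit 16)) (Nat.add w (Nat.shiftLeft (Nat.land p (nat_lit 65535)) (nat_lit 70)))).1 m (Nat.shiftRight m (Nat.land (Nat.shiftRight (Nat.shiftRight m (nat_lit 34)) (Nat.land (Nat.shiftRight (Nat.shiftRight m (Nat.land (Nat.shiftRight (Nat.shiftRight m (Nat.land s1 (nat_lit 0x1ffff))) (nat_lit 34)) (nat_lit 0x1ffff))) (nat_lit 17)) (nat_lit 0x1ffff)))
  (nat_lit 0x1ffff))) s2 s3 s4 s4 (Nat.land (Nat.land za (Nat.shiftRight m (Nat.land (Nat.shiftRight (Nat.shiftRight m (Nat.land s1 (nat_lit 0x1ffff))) (nat_lit 34)) (nat_lit 0x1ffff)))) (Nat.shiftRight m (Nat.land (Nat.shiftRight (Nat.shiftRight m (nat_lit 34)) (Nat.land (Nat.shiftRight (Nat.shiftRight m (Nat.land (Nat.shiftRight (Nat.shiftRight m (Nat.land s1 (nat_lit 0x1ffff))) (nat_lit 34)) (nat_lit 0x1ffff))) (nat_lit 17)) (nat_lit 0x1ffff))) (nat_lit 0x1ffff))))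 (Nat.add ac (Nat.land (Nat.shiftRight m (Nat.land (Nat.shiftRight m (Nat.land s1 (nat_lit 0x1ffff))) (nat_lit 0x1ffff))) (Nat.shiftLeft (Nat.land p (nat_lit 65535)) (nat_lit 70))))⟩,
  rfl, rfl⟩
noncomputable def en101 : Ent := ⟨[nat_lit 14, nat_lit 11, nat_lit 12, nat_lit 12],
  fun K p w => ⟨fun m x s1 s2 s3 s4 za ac => (K (Nat.shiftRight (Nat.shiftRight (Nat.shiftRight p (nat_lit 16)) (nat_lit 28)) (nat_lit 28)) (Nat.add (Nat.add (Nat.add w (Nat.shiftLeft (Nat.land p (nat_lit 65535)) (nat_lit 70))) (plA (Nat.shiftRight p (nat_lit 16)))) (plA (Nat.shiftRight (Nat.shiftRight p (nat_lit 16)) (nat_lit 28))))).1 m x s1 s2 s3 s4 (Nat.land za x) (Nat.add (Nat.add (Nat.add ac (Nat.land x (Nat.shiftLeft (Nat.land p (nat_lit 65535)) (nat_lit 70)))) (Nat.land x (plA (Nat.shiftRight p (nat_lit 16))))) (Nat.land x (plA (Nat.shiftRight (Nat.shiftRight p (nat_lit 16)) (nat_lit 28)))))⟩,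
  fun K p w => ⟨fun m x s1 s2 s3 s4 za ac => (K (Nat.shiftRight (Nat.shiftRight (Nat.shiftRight p (nat_lit 16)) (nat_lit 28)) (nat_lit 28)) (Nat.succ (Nat.succ (Nat.add w (Nat.shiftLeft (Nat.land p (nat_lit 65535)) (nat_lit 70)))))).1 m x s1 s2 s3 s4 (Nat.land za x) (Nat.add ac (Nat.land (Nat.shiftRight m (Nat.land x (nat_lit 0x1ffff))) (Nat.shiftLeft (Nat.land p (nat_lit 65535)) (nat_lit 70))))⟩,
  rfl, rfl⟩
noncomputable def en102 : Ent := ⟨[nat_lit 3, nat_lit 11, nat_lit 9, nat_lit 1],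
  fun K p w => ⟨fun m x s1 s2 s3 s4 za ac => (K (Nat.shiftRight p (nat_lit 16)) (Nat.add w (Nat.shiftLeft (Nat.land p (nat_lit 65535)) (nat_lit 70)))).1 m (Nat.shiftRight m (Nat.land (Nat.shiftRight (Nat.shiftRight m (nat_lit 34)) (Nat.land (Nat.shiftRight s1 (nat_lit 17)) (nat_lit 0x1ffff))) (nat_lit 0x1ffff))) s2 s3 s4 s4 (Nat.land za (Nat.shiftRight m (Nat.land (Nat.shiftRight (Nat.shiftRight m (nat_lit 34)) (Nat.land (Nat.shiftRight s1 (nat_lit 17)) (nat_lit 0x1ffff))) (nat_lit 0x1ffff)))) (Nat.add ac (Nat.land (Nat.shiftRight m (Nat.land x (nat_lit 0x1ffff))) (Nat.shiftLeft (Nat.land p (nat_lit 65535)) (nat_lit 70))))⟩,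
  fun K p w => ⟨fun m x s1 s2 s3 s4 za ac => (K (Nat.shiftRight p (nat_lit 16)) (Nat.add w (Nat.shiftLeft (Nat.land p (nat_lit 65535)) (nat_lit 70)))).1 m (Nat.shiftRight m (Nat.land (Nat.shiftRight (Nat.shiftRight m (nat_lit 34)) (Nat.land s1 (nat_lit 0x1ffff))) (nat_lit 0x1ffff))) s2 s3 s4 s4 (Nat.land za (Nat.shiftRight m (Nat.land (Nat.shiftRight (Nat.shiftRight m (nat_lit 34)) (Nat.land s1 (nat_lit 0x1ffff))) (nat_lit 0x1ffff)))) (Nat.add ac (Nat.land (Nat.shiftRight m (Nat.land (Nat.shiftRight m (Nat.land (Nat.shiftRight x (nat_lit 17)) (nat_lit 0x1ffff))) (nat_lit 0x1ffff))) (Nat.shiftLeft (Nat.land p (nat_lit 65535)) (nat_lit 70))))⟩,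
  rfl, rfl⟩
noncomputable def en103 : Ent := ⟨[nat_lit 2, nat_lit 1],
  fun K p w => ⟨fun m x s1 s2 s3 s4 za ac => (K p w).1 m (Nat.shiftRight m (Nat.land (Nat.shiftRight (Nat.shiftRight m (nat_lit 34)) (Nat.land (Nat.shiftRight (Nat.shiftRight m (Nat.land (Nat.shiftRight x (nat_lit 34)) (nat_lit 0x1ffff))) (nat_lit 17)) (nat_lit 0x1ffff))) (nat_lit 0x1ffff))) s1 s2 s3 s4 (Nat.land (Nat.land za (Nat.shiftRight m (Nat.land (Nat.shiftRight x (nat_lit 34)) (nat_lit 0x1ffff)))) (Nat.shiftRight m (Nat.land (Nat.shiftRight (Nat.shiftRight m (nat_lit 34)) (Nat.land (Nat.shiftRight (Nat.shiftRight m (Nat.land (Nat.shiftRight x (nat_lit 34)) (nat_lit 0x1ffff))) (nat_lit 17)) (nat_lit 0x1ffff))) (nat_lit 0x1ffff)))) ac⟩,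
  fun K p w => ⟨fun m x s1 s2 s3 s4 za ac => (K p w).1 m (Nat.shiftRight m (Nat.land (Nat.shiftRight (Nat.shiftRight m (nat_lit 34)) (Nat.land (Nat.shiftRight m (Nat.land (Nat.shiftRight x (nat_lit 34)) (nat_lit 0x1ffff))) (nat_lit 0x1ffff))) (nat_lit 0x1ffff))) s1 s2 s3 s4 (Nat.land (Nat.land za (Nat.shiftRight m (Nat.land (Nat.shiftRight x (nat_lit 34)) (nat_lit 0x1ffff)))) (Nat.shiftRight m (Nat.land (Nat.shiftRight (Nat.shiftRight m (nat_lit 34)) (Nat.land (Nat.shiftRight m (Nat.land (Nat.shiftRight x (nat_lit 34)) (nat_lit 0x1ffff))) (nat_lit 0x1ffff))) (nat_lit 0x1ffff)))) ac⟩,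
  rfl, rfl⟩
noncomputable def en104 : Ent := ⟨[nat_lit 8, nat_lit 3, nat_lit 7, nat_lit 10, nat_lit 5, nat_lit 9, nat_lit 1],
  fun K p w => ⟨fun m x s1 s2 s3 s4 za ac => (K (Nat.shiftRight p (nat_lit 6)) (Nat.add w (Nat.shiftLeft (Nat.land p (nat_lit 63)) (nat_lit 64)))).1 m (Nat.shiftRight m (Nat.land (Nat.shiftRight (Nat.shiftRight m (nat_lit 34)) (Nat.land (Nat.shiftRight x (nat_lit 17)) (nat_lit 0x1ffff))) (nat_lit 0x1ffff))) s1 s2 s3 s3 (Nat.land za (Nat.shiftRight m (Nat.land (Nat.shiftRight (Nat.shiftRight m (nat_lit 34)) (Nat.land (Nat.shiftRight x (nat_lit 17)) (nat_lit 0x1ffff))) (nat_lit 0x1ffff)))) (Nat.add ac (Nat.land (Nat.shiftRight m (Nat.land (Nat.shiftRight (Nat.shiftRight m (Nat.land x (nat_lit 0x1ffff))) (nat_lit 34)) (nat_lit 0x1ffff))) (Nat.shiftLeft (Nat.land p (nat_lit 63)) (nat_lit 64))))⟩,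
  fun K p w => ⟨fun m x s1 s2 s3 s4 za ac => (K (Nat.shiftRight p (nat_lit 6)) (Nat.add w (Nat.shiftLeft (Nat.land p (nat_lit 63)) (nat_lit 64)))).1 m (Nat.shiftRight m (Nat.land (Nat.shiftRight (Nat.shiftRight m (nat_lit 34)) (Nat.land x (nat_lit 0x1ffff))) (nat_lit 0x1ffff))) s1 s2 s3 s3 (Nat.land za (Nat.shiftRight m (Nat.land (Nat.shiftRight (Nat.shiftRight m (nat_lit 34)) (Nat.land x (nat_lit 0x1ffff))) (nat_lit 0x1ffff)))) (Nat.add ac (Nat.land (Nat.shiftRight m (Nat.land (Nat.shiftRight (Nat.shiftRight m (Nat.land (Nat.shiftRight x (nat_lit 17)) (nat_lit 0x1ffff))) (nat_lit 34)) (nat_lit 0x1ffff))) (Nat.shiftLeft (Nat.land p (nat_lit 63)) (nat_lit 64))))⟩,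
  rfl, rfl⟩
noncomputable def en105 : Ent := ⟨[nat_lit 8, nat_lit 0, nat_lit 11, nat_lit 1],
  fun K p w => ⟨fun m x s1 s2 s3 s4 za ac => (K (Nat.shiftRight p (nat_lit 16)) (Nat.add w (Nat.shiftLeft (Nat.land p (nat_lit 65535)) (nat_lit 70)))).1 m (Nat.shiftRight m (Nat.land (Nat.shiftRight (Nat.shiftRight m (nat_lit 34)) (Nat.land (Nat.shiftRight (Nat.shiftRight m (Nat.land (Nat.shiftRight (Nat.shiftRight m (nat_lit 34)) (Nat.land x (nat_lit 0x1ffff))) (nat_lit 0x1ffff))) (nat_lit 17)) (nat_lit 0x1ffff)))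
  (nat_lit 0x1ffff))) x s1 s2 s3 (Nat.land (Nat.land za (Nat.shiftRight m (Nat.land (Nat.shiftRight (Nat.shiftRight m (nat_lit 34)) (Nat.land x (nat_lit 0x1ffff))) (nat_lit 0x1ffff)))) (Nat.shiftRight m (Nat.land (Nat.shiftRight (Nat.shiftRight m (nat_lit 34)) (Nat.land (Nat.shiftRight (Nat.shiftRight m (Nat.land (Nat.shiftRight (Nat.shiftRight m (nat_lit 34)) (Nat.land x (nat_lit 0x1ffff))) (nat_lit 0x1ffff))) (nat_lit 17)) (nat_lit 0x1ffff))) (nat_lit 0x1ffff)))) (Nat.add ac (Nat.land (Nat.shiftRight m (Nat.land (Nat.shiftRight (Nat.shiftRight m (nat_lit 34)) (Nat.land x (nat_lit 0x1ffff))) (nat_lit 0x1ffff))) (Nat.shiftLeft (Nat.land p (nat_lit 65535)) (nat_lit 70))))⟩,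
  fun K p w => ⟨fun m x s1 s2 s3 s4 za ac => (K (Nat.shiftRight p (nat_lit 16)) (Nat.add w (Nat.shiftLeft (Nat.land p (nat_lit 65535)) (nat_lit 70)))).1 m (Nat.shiftRight m (Nat.land (Nat.shiftRight (Nat.shiftRight m (nat_lit 34)) (Nat.land (Nat.shiftRight m (Nat.land (Nat.shiftRight (Nat.shiftRight m (nat_lit 34)) (Nat.land (Nat.shiftRight x (nat_lit 17)) (nat_lit 0x1ffff))) (nat_lit 0x1ffff))) (nat_lit 0x1ffff)))
  (nat_lit 0x1ffff))) x s1 s2 s3 (Nat.land (Nat.land za (Nat.shiftRight m (Nat.land (Nat.shiftRight (Nat.shiftRight m (nat_lit 34)) (Nat.land (Nat.shiftRight x (nat_lit 17)) (nat_lit 0x1ffff))) (nat_lit 0x1ffff)))) (Nat.shiftRight m (Nat.land (Nat.shiftRight (Nat.shiftRight m (nat_lit 34)) (Nat.land (Nat.shiftRight m (Nat.land (Nat.shiftRight (Nat.shiftRight m (nat_lit 34)) (Nat.land (Nat.shiftRight x (nat_lit 17)) (nat_lit 0x1ffff))) (nat_lit 0x1ffff))) (nat_lit 0x1ffff)))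 (nat_lit 0x1ffff)))) (Nat.add ac (Nat.land (Nat.shiftRight m (Nat.land (Nat.shiftRight m (Nat.land (Nat.shiftRight (Nat.shiftRight m (nat_lit 34)) (Nat.land (Nat.shiftRight x (nat_lit 17)) (nat_lit 0x1ffff))) (nat_lit 0x1ffff))) (nat_lit 0x1ffff))) (Nat.shiftLeft (Nat.land p (nat_lit 65535)) (nat_lit 70))))⟩,
  rfl, rfl⟩
noncomputable def en106 : Ent := ⟨[nat_lit 14, nat_lit 11, nat_lit 12, nat_lit 8, nat_lit 3, nat_lit 11],
  fun K p w => ⟨fun m x s1 s2 s3 s4 za ac => (K (Nat.shiftRight (Nat.shiftRight (Nat.shiftRight p (nat_lit 16)) (nat_lit 28)) (nat_lit 16)) (Nat.add (Nat.add (Nat.add w (Nat.shiftLeft (Nat.land p (nat_lit 65535)) (nat_lit 70))) (plA (Nat.shiftRight p (nat_lit 16)))) (Nat.shiftLeft (Nat.land (Nat.shiftRight (Nat.shiftRight p (nat_lit 16)) (nat_lit 28)) (nat_lit 65535)) (nat_lit 70)))).1 m (Nat.shiftRight m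
  (Nat.land x (nat_lit 0x1ffff))) x s1 s2 s3 (Nat.land za x) (Nat.add (Nat.add (Nat.add ac (Nat.land x (Nat.shiftLeft (Nat.land p (nat_lit 65535)) (nat_lit 70)))) (Nat.land x (plA (Nat.shiftRight p (nat_lit 16))))) (Nat.land (Nat.shiftRight m (Nat.land x (nat_lit 0x1ffff))) (Nat.shiftLeft (Nat.land (Nat.shiftRight (Nat.shiftRight p (nat_lit 16)) (nat_lit 28)) (nat_lit 65535)) (nat_lit 70))))⟩,
  fun K p w => ⟨fun m x s1 s2 s3 s4 za ac => (K (Nat.shiftRight (Nat.shiftRight (Nat.shiftRight p (nat_lit 16)) (nat_lit 28)) (nat_lit 16)) (Nat.add (Nat.succ (Nat.add w (Nat.shiftLeft (Nat.land p (nat_lit 65535)) (nat_lit 70)))) (Nat.shiftLeft (Nat.land (Nat.shiftRight (Nat.shiftRight p (nat_lit 16)) (nat_lit 28)) (nat_lit 65535)) (nat_lit 70)))).1 m (Nat.shiftRight m (Nat.land (Nat.shiftRight x (nat_lit 17))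
  (nat_lit 0x1ffff))) x s1 s2 s3 (Nat.land za x) (Nat.add (Nat.add ac (Nat.land (Nat.shiftRight m (Nat.land x (nat_lit 0x1ffff))) (Nat.shiftLeft (Nat.land p (nat_lit 65535)) (nat_lit 70)))) (Nat.land (Nat.shiftRight m (Nat.land (Nat.shiftRight m (Nat.land (Nat.shiftRight x (nat_lit 17)) (nat_lit 0x1ffff))) (nat_lit 0x1ffff))) (Nat.shiftLeft (Nat.land (Nat.shiftRight (Nat.shiftRight p (nat_lit 16)) (nat_lit 28)) (nat_lit 65535)) (nat_lit 70))))⟩,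
  rfl, rfl⟩
noncomputable def en107 : Ent := ⟨[nat_lit 10, nat_lit 8, nat_lit 5, nat_lit 9, nat_lit 2],
  fun K p w => ⟨fun m x s1 s2 s3 s4 za ac => (K (Nat.shiftRight p (nat_lit 6)) (Nat.add w (Nat.shiftLeft (Nat.land p (nat_lit 63)) (nat_lit 64)))).1 m (Nat.shiftRight m (Nat.land (Nat.shiftRight x (nat_lit 34)) (nat_lit 0x1ffff))) s1 s2 s3 s3 (Nat.land za (Nat.shiftRight m (Nat.land (Nat.shiftRight x (nat_lit 34)) (nat_lit 0x1ffff)))) (Nat.add ac (Nat.land x (Nat.shiftLeft (Nat.land p (nat_lit 63)) (nat_lit 64))))⟩,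
  fun K p w => ⟨fun m x s1 s2 s3 s4 za ac => (K (Nat.shiftRight p (nat_lit 6)) (Nat.add w (Nat.shiftLeft (Nat.land p (nat_lit 63)) (nat_lit 64)))).1 m (Nat.shiftRight m (Nat.land (Nat.shiftRight x (nat_lit 34)) (nat_lit 0x1ffff))) s1 s2 s3 s3 (Nat.land za (Nat.shiftRight m (Nat.land (Nat.shiftRight x (nat_lit 34)) (nat_lit 0x1ffff)))) (Nat.add ac (Nat.land x (Nat.shiftLeft (Nat.land p (nat_lit 63)) (nat_lit 64))))⟩,
  rfl, rfl⟩
noncomputable def en108 : Ent := ⟨[nat_lit 9, nat_lit 4, nat_lit 11, nat_lit 7, nat_lit 10, nat_lit 5],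
  fun K p w => ⟨fun m x s1 s2 s3 s4 za ac => (K (Nat.shiftRight (Nat.shiftRight p (nat_lit 16)) (nat_lit 6)) (Nat.add (Nat.add w (Nat.shiftLeft (Nat.land p (nat_lit 65535)) (nat_lit 70))) (Nat.shiftLeft (Nat.land (Nat.shiftRight p (nat_lit 16)) (nat_lit 63)) (nat_lit 64)))).1 m (Nat.shiftRight m (Nat.land (Nat.shiftRight m (Nat.land (Nat.shiftRight (Nat.shiftRight m (Nat.land (Nat.shiftRight s1 (nat_lit 17))
  (nat_lit 0x1ffff))) (nat_lit 34)) (nat_lit 0x1ffff))) (nat_lit 0x1ffff))) s2 s3 s4 s4 za (Nat.add (Nat.add ac (Nat.land (Nat.shiftRight m (Nat.land (Nat.shiftRight s1 (nat_lit 17)) (nat_lit 0x1ffff))) (Nat.shiftLeft (Nat.land p (nat_lit 65535)) (nat_lit 70)))) (Nat.land (Nat.shiftRight m (Nat.land (Nat.shiftRight (Nat.shiftRight m (Nat.land (Nat.shiftRight s1 (nat_lit 17)) (nat_lit 0x1ffff))) (nat_lit 34)) (nat_lit 0x1ffff))) (Nat.shiftLeft (Nat.land (Nat.shiftRight p (nat_lit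 16)) (nat_lit 63)) (nat_lit 64))))⟩,
  fun K p w => ⟨fun m x s1 s2 s3 s4 za ac => (K (Nat.shiftRight (Nat.shiftRight p (nat_lit 16)) (nat_lit 6)) (Nat.add (Nat.add w (Nat.shiftLeft (Nat.land p (nat_lit 65535)) (nat_lit 70))) (Nat.shiftLeft (Nat.land (Nat.shiftRight p (nat_lit 16)) (nat_lit 63)) (nat_lit 64)))).1 m (Nat.shiftRight m (Nat.land (Nat.shiftRight (Nat.shiftRight m (Nat.land (Nat.shiftRight (Nat.shiftRight m (Nat.land s1 (nat_lit 0x1ffff)))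
  (nat_lit 34)) (nat_lit 0x1ffff))) (nat_lit 17)) (nat_lit 0x1ffff))) s2 s3 s4 s4 za (Nat.add (Nat.add ac (Nat.land (Nat.shiftRight m (Nat.land (Nat.shiftRight m (Nat.land s1 (nat_lit 0x1ffff))) (nat_lit 0x1ffff))) (Nat.shiftLeft (Nat.land p (nat_lit 65535)) (nat_lit 70)))) (Nat.land (Nat.shiftRight m (Nat.land (Nat.shiftRight (Nat.shiftRight m (Nat.land s1 (nat_lit 0x1ffff))) (nat_lit 34)) (nat_lit 0x1ffff))) (Nat.shiftLeft (Nat.land (Nat.shiftRight p (nat_lit 16)) (nat_lit 63)) (nat_lit 64))))⟩,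
  rfl, rfl⟩
noncomputable def en109 : Ent := ⟨[nat_lit 1, nat_lit 12, nat_lit 12, nat_lit 1, nat_lit 12, nat_lit 12],
  fun K p w => ⟨fun m x s1 s2 s3 s4 za ac => (K (Nat.shiftRight (Nat.shiftRight (Nat.shiftRight (Nat.shiftRight p (nat_lit 28)) (nat_lit 28)) (nat_lit 28)) (nat_lit 28)) (Nat.add (Nat.add (Nat.add (Nat.add w (plA p)) (plA (Nat.shiftRight p (nat_lit 28)))) (plA (Nat.shiftRight (Nat.shiftRight p (nat_lit 28)) (nat_lit 28)))) (plA (Nat.shiftRight (Nat.shiftRight (Nat.shiftRight p (nat_lit 28)) (nat_lit 28))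
  (nat_lit 28))))).1 m (Nat.shiftRight m (Nat.land (Nat.shiftRight (Nat.shiftRight m (nat_lit 34)) (Nat.land (Nat.shiftRight (Nat.shiftRight m (Nat.land (Nat.shiftRight (Nat.shiftRight m (nat_lit 34)) (Nat.land (Nat.shiftRight x (nat_lit 17)) (nat_lit 0x1ffff))) (nat_lit 0x1ffff))) (nat_lit 17)) (nat_lit 0x1ffff))) (nat_lit 0x1ffff))) s1 s2 s3 s4 (Nat.land (Nat.land za (Nat.shiftRight m (Nat.land (Nat.shiftRight
  (Nat.shiftRight m (nat_lit 34)) (Nat.land (Nat.shiftRight x (nat_lit 17)) (nat_lit 0x1ffff))) (nat_lit 0x1ffff)))) (Nat.shiftRight m (Nat.land (Nat.shiftRight (Nat.shiftRight m (nat_lit 34)) (Nat.land (Nat.shiftRight (Nat.shiftRight m (Nat.land (Nat.shiftRight (Nat.shiftRight m (nat_lit 34)) (Nat.land (Nat.shiftRight x (nat_lit 17)) (nat_lit 0x1ffff))) (nat_lit 0x1ffff))) (nat_lit 17)) (nat_lit 0x1ffff)))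
  (nat_lit 0x1ffff)))) (Nat.add (Nat.add (Nat.add (Nat.add ac (Nat.land (Nat.shiftRight m (Nat.land (Nat.shiftRight (Nat.shiftRight m (nat_lit 34)) (Nat.land (Nat.shiftRight x (nat_lit 17)) (nat_lit 0x1ffff))) (nat_lit 0x1ffff))) (plA p))) (Nat.land (Nat.shiftRight m (Nat.land (Nat.shiftRight (Nat.shiftRight m (nat_lit 34)) (Nat.land (Nat.shiftRight x (nat_lit 17)) (nat_lit 0x1ffff))) (nat_lit 0x1ffff)))
  (plA (Nat.shiftRight p (nat_lit 28))))) (Nat.land (Nat.shiftRight m (Nat.land (Nat.shiftRight (Nat.shiftRight m (nat_lit 34)) (Nat.land (Nat.shiftRight (Nat.shiftRight m (Nat.land (Nat.shiftRight (Nat.shiftRight m (nat_lit 34)) (Nat.land (Nat.shiftRight x (nat_lit 17)) (nat_lit 0x1ffff))) (nat_lit 0x1ffff))) (nat_lit 17)) (nat_lit 0x1ffff))) (nat_lit 0x1ffff))) (plA (Nat.shiftRight (Nat.shiftRight p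
  (nat_lit 28)) (nat_lit 28))))) (Nat.land (Nat.shiftRight m (Nat.land (Nat.shiftRight (Nat.shiftRight m (nat_lit 34)) (Nat.land (Nat.shiftRight (Nat.shiftRight m (Nat.land (Nat.shiftRight (Nat.shiftRight m (nat_lit 34)) (Nat.land (Nat.shiftRight x (nat_lit 17)) (nat_lit 0x1ffff))) (nat_lit 0x1ffff))) (nat_lit 17)) (nat_lit 0x1ffff))) (nat_lit 0x1ffff))) (plA (Nat.shiftRight (Nat.shiftRight (Nat.shiftRight p (nat_lit 28)) (nat_lit 28)) (nat_lit 28)))))⟩,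
  fun K p w => ⟨fun m x s1 s2 s3 s4 za ac => (K (Nat.shiftRight (Nat.shiftRight (Nat.shiftRight (Nat.shiftRight p (nat_lit 28)) (nat_lit 28)) (nat_lit 28)) (nat_lit 28)) (Nat.succ (Nat.succ (Nat.succ (Nat.succ w))))).1 m (Nat.shiftRight m (Nat.land (Nat.shiftRight (Nat.shiftRight m (nat_lit 34)) (Nat.land (Nat.shiftRight m (Nat.land (Nat.shiftRight (Nat.shiftRight m (nat_lit 34)) (Nat.land x (nat_lit 0x1ffff)))
  (nat_lit 0x1ffff))) (nat_lit 0x1ffff))) (nat_lit 0x1ffff))) s1 s2 s3 s4 (Nat.land (Nat.land za (Nat.shiftRight m (Nat.land (Nat.shiftRight (Nat.shiftRight m (nat_lit 34)) (Nat.land x (nat_lit 0x1ffff))) (nat_lit 0x1ffff)))) (Nat.shiftRight m (Nat.land (Nat.shiftRight (Nat.shiftRight m (nat_lit 34)) (Nat.land (Nat.shiftRight m (Nat.land (Nat.shiftRight (Nat.shiftRight m (nat_lit 34)) (Nat.land x (nat_lit 0x1ffff))) (nat_lit 0x1ffff))) (nat_lit 0x1ffff))) (nat_lit 0x1ffff))))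 ac⟩,
  rfl, rfl⟩
noncomputable def en110 : Ent := ⟨[nat_lit 9, nat_lit 8, nat_lit 4, nat_lit 11, nat_lit 2],
  fun K p w => ⟨fun m x s1 s2 s3 s4 za ac => (K (Nat.shiftRight p (nat_lit 16)) (Nat.add w (Nat.shiftLeft (Nat.land p (nat_lit 65535)) (nat_lit 70)))).1 m (Nat.shiftRight m (Nat.land (Nat.shiftRight (Nat.shiftRight m (Nat.land (Nat.shiftRight s1 (nat_lit 17)) (nat_lit 0x1ffff))) (nat_lit 34)) (nat_lit 0x1ffff))) s1 s2 s3 s4 (Nat.land za (Nat.shiftRight m (Nat.land (Nat.shiftRight (Nat.shiftRight m (Nat.land (Nat.shiftRight s1 (nat_lit 17)) (nat_lit 0x1ffff))) (nat_lit 34)) (nat_lit 0x1ffff)))) (Nat.add ac (Nat.land (Nat.shiftRight m (Nat.land (Nat.shiftRight s1 (nat_lit 17)) (nat_lit 0x1ffff))) (Nat.shiftLeft (Nat.land p (nat_lit 65535)) (nat_lit 70))))⟩,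
  fun K p w => ⟨fun m x s1 s2 s3 s4 za ac => (K (Nat.shiftRight p (nat_lit 16)) (Nat.add w (Nat.shiftLeft (Nat.land p (nat_lit 65535)) (nat_lit 70)))).1 m (Nat.shiftRight m (Nat.land (Nat.shiftRight (Nat.shiftRight m (Nat.land s1 (nat_lit 0x1ffff))) (nat_lit 34)) (nat_lit 0x1ffff))) s1 s2 s3 s4 (Nat.land za (Nat.shiftRight m (Nat.land (Nat.shiftRight (Nat.shiftRight m (Nat.land s1 (nat_lit 0x1ffff))) (nat_lit 34)) (nat_lit 0x1ffff)))) (Nat.add ac (Nat.land (Nat.shiftRight m (Nat.land (Nat.shiftRight m (Nat.land s1 (nat_lit 0x1ffff))) (nat_lit 0x1ffff))) (Nat.shiftLeft (Nat.land p (nat_lit 65535)) (nat_lit 70))))⟩,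
  rfl, rfl⟩
noncomputable def en111 : Ent := ⟨[nat_lit 9, nat_lit 4, nat_lit 7, nat_lit 10, nat_lit 5, nat_lit 16],
  fun K p w => ⟨fun m x s1 s2 s3 s4 za ac => (K (Nat.shiftRight (Nat.shiftRight p (nat_lit 6)) (nat_lit 16)) (Nat.add (Nat.add w (Nat.shiftLeft (Nat.land p (nat_lit 63)) (nat_lit 64))) (Nat.shiftLeft (Nat.land (Nat.shiftRight p (nat_lit 6)) (nat_lit 65535)) (nat_lit 70)))).1 m (Nat.shiftRight m (Nat.land (Nat.shiftRight m (Nat.land (Nat.shiftRight (Nat.shiftRight m (Nat.land (Nat.shiftRight s1 (nat_lit 17))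
  (nat_lit 0x1ffff))) (nat_lit 34)) (nat_lit 0x1ffff))) (nat_lit 0x1ffff))) s2 s3 s4 s4 za (Nat.add (Nat.add ac (Nat.land (Nat.shiftRight m (Nat.land (Nat.shiftRight (Nat.shiftRight m (Nat.land (Nat.shiftRight s1 (nat_lit 17)) (nat_lit 0x1ffff))) (nat_lit 34)) (nat_lit 0x1ffff))) (Nat.shiftLeft (Nat.land p (nat_lit 63)) (nat_lit 64)))) (Nat.land (Nat.shiftRight m (Nat.land (Nat.shiftRight m (Nat.land (Nat.shiftRight (Nat.shiftRight m (Nat.land (Nat.shiftRight s1 (nat_lit 17)) (nat_lit 0x1ffff))) (nat_lit 34)) (nat_lit 0x1ffff))) (nat_lit 0x1ffff))) (Nat.shiftLeft (Nat.land (Nat.shiftRight p (nat_lit 6)) (nat_lit 65535)) (nat_lit 70))))⟩,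
  fun K p w => ⟨fun m x s1 s2 s3 s4 za ac => (K (Nat.shiftRight (Nat.shiftRight p (nat_lit 6)) (nat_lit 16)) (Nat.add (Nat.add w (Nat.shiftLeft (Nat.land p (nat_lit 63)) (nat_lit 64))) (Nat.shiftLeft (Nat.land (Nat.shiftRight p (nat_lit 6)) (nat_lit 65535)) (nat_lit 70)))).1 m (Nat.shiftRight m (Nat.land (Nat.shiftRight (Nat.shiftRight m (Nat.land (Nat.shiftRight (Nat.shiftRight m (Nat.land s1 (nat_lit 0x1ffff)))
  (nat_lit 34)) (nat_lit 0x1ffff))) (nat_lit 17)) (nat_lit 0x1ffff))) s2 s3 s4 s4 za (Nat.add (Nat.add ac (Nat.land (Nat.shiftRight m (Nat.land (Nat.shiftRight (Nat.shiftRight m (Nat.land s1 (nat_lit 0x1ffff))) (nat_lit 34)) (nat_lit 0x1ffff))) (Nat.shiftLeft (Nat.land p (nat_lit 63)) (nat_lit 64)))) (Nat.land (Nat.lor (Nat.shiftRight m (Nat.land (Nat.shiftRight m (Nat.land (Nat.shiftRight (Nat.shiftRight m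
  (Nat.land (Nat.shiftRight (Nat.shiftRight m (Nat.land s1 (nat_lit 0x1ffff))) (nat_lit 34)) (nat_lit 0x1ffff))) (nat_lit 17)) (nat_lit 0x1ffff))) (nat_lit 0x1ffff))) (Nat.shiftRight m (Nat.land (Nat.shiftRight (Nat.shiftRight m (Nat.land (Nat.shiftRight (Nat.shiftRight m (Nat.land (Nat.shiftRight (Nat.shiftRight m (Nat.land s1 (nat_lit 0x1ffff))) (nat_lit 34)) (nat_lit 0x1ffff))) (nat_lit 17)) (nat_lit 0x1ffff))) (nat_lit 34)) (nat_lit 0x1ffff)))) (Nat.shiftLeft (Nat.land (Nat.shiftRight p (nat_lit 6)) (nat_lit 65535)) (nat_lit 70))))⟩,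
  rfl, rfl⟩
noncomputable def en112 : Ent := ⟨[nat_lit 2, nat_lit 0],
  fun K p w => ⟨fun m x s1 s2 s3 s4 za ac => (K p w).1 m (Nat.shiftRight m (Nat.land (Nat.shiftRight (Nat.shiftRight m (nat_lit 34)) (Nat.land (Nat.shiftRight m (Nat.land (Nat.shiftRight x (nat_lit 34)) (nat_lit 0x1ffff))) (nat_lit 0x1ffff))) (nat_lit 0x1ffff))) s1 s2 s3 s4 (Nat.land (Nat.land za (Nat.shiftRight m (Nat.land (Nat.shiftRight x (nat_lit 34)) (nat_lit 0x1ffff)))) (Nat.shiftRight m (Nat.land (Nat.shiftRight (Nat.shiftRight m (nat_lit 34)) (Nat.land (Nat.shiftRight m (Nat.land (Nat.shiftRight x (nat_lit 34)) (nat_lit 0x1ffff))) (nat_lit 0x1ffff))) (nat_lit 0x1ffff)))) ac⟩,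
  fun K p w => ⟨fun m x s1 s2 s3 s4 za ac => (K p w).1 m (Nat.shiftRight m (Nat.land (Nat.shiftRight (Nat.shiftRight m (nat_lit 34)) (Nat.land (Nat.shiftRight (Nat.shiftRight m (Nat.land (Nat.shiftRight x (nat_lit 34)) (nat_lit 0x1ffff))) (nat_lit 17)) (nat_lit 0x1ffff))) (nat_lit 0x1ffff))) s1 s2 s3 s4 (Nat.land (Nat.land za (Nat.shiftRight m (Nat.land (Nat.shiftRight x (nat_lit 34)) (nat_lit 0x1ffff)))) (Nat.shiftRight m (Nat.land (Nat.shiftRight (Nat.shiftRight m (nat_lit 34)) (Nat.land (Nat.shiftRight (Nat.shiftRight m (Nat.land (Nat.shiftRight x (nat_lit 34)) (nat_lit 0x1ffff))) (nat_lit 17)) (nat_lit 0x1ffff))) (nat_lit 0x1ffff)))) ac⟩,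
  rfl, rfl⟩
noncomputable def en113 : Ent := ⟨[nat_lit 10, nat_lit 8, nat_lit 5, nat_lit 16],
  fun K p w => ⟨fun m x s1 s2 s3 s4 za ac => (K (Nat.shiftRight (Nat.shiftRight p (nat_lit 6)) (nat_lit 16)) (Nat.add (Nat.add w (Nat.shiftLeft (Nat.land p (nat_lit 63)) (nat_lit 64))) (Nat.shiftLeft (Nat.land (Nat.shiftRight p (nat_lit 6)) (nat_lit 65535)) (nat_lit 70)))).1 m (Nat.shiftRight m (Nat.land x (nat_lit 0x1ffff))) x s1 s2 s3 za (Nat.add (Nat.add ac (Nat.land x (Nat.shiftLeft (Nat.land p (nat_lit 63)) (nat_lit 64)))) (Nat.land (Nat.shiftRight m (Nat.land x (nat_lit 0x1ffff))) (Nat.shiftLeft (Nat.land (Nat.shiftRight p (nat_lit 6)) (nat_lit 65535)) (nat_lit 70))))⟩,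
  fun K p w => ⟨fun m x s1 s2 s3 s4 za ac => (K (Nat.shiftRight (Nat.shiftRight p (nat_lit 6)) (nat_lit 16)) (Nat.add (Nat.add w (Nat.shiftLeft (Nat.land p (nat_lit 63)) (nat_lit 64))) (Nat.shiftLeft (Nat.land (Nat.shiftRight p (nat_lit 6)) (nat_lit 65535)) (nat_lit 70)))).1 m (Nat.shiftRight m (Nat.land (Nat.shiftRight x (nat_lit 17)) (nat_lit 0x1ffff))) x s1 s2 s3 za (Nat.add (Nat.add ac (Nat.land x
  (Nat.shiftLeft (Nat.land p (nat_lit 63)) (nat_lit 64)))) (Nat.land (Nat.lor (Nat.shiftRight m (Nat.land (Nat.shiftRight m (Nat.land (Nat.shiftRight x (nat_lit 17)) (nat_lit 0x1ffff))) (nat_lit 0x1ffff))) (Nat.shiftRight m (Nat.land (Nat.shiftRight (Nat.shiftRight m (Nat.land (Nat.shiftRight x (nat_lit 17)) (nat_lit 0x1ffff))) (nat_lit 34)) (nat_lit 0x1ffff)))) (Nat.shiftLeft (Nat.land (Nat.shiftRight p (nat_lit 6)) (nat_lit 65535)) (nat_lit 70))))⟩,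
  rfl, rfl⟩
noncomputable def en114 : Ent := ⟨[nat_lit 0, nat_lit 3, nat_lit 7, nat_lit 10, nat_lit 5],
  fun K p w => ⟨fun m x s1 s2 s3 s4 za ac => (K (Nat.shiftRight p (nat_lit 6)) (Nat.add w (Nat.shiftLeft (Nat.land p (nat_lit 63)) (nat_lit 64)))).1 m (Nat.shiftRight m (Nat.land (Nat.shiftRight m (Nat.land (Nat.shiftRight (Nat.shiftRight m (Nat.land (Nat.shiftRight m (Nat.land (Nat.shiftRight (Nat.shiftRight m (nat_lit 34)) (Nat.land x (nat_lit 0x1ffff))) (nat_lit 0x1ffff))) (nat_lit 0x1ffff))) (nat_lit 34))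
  (nat_lit 0x1ffff))) (nat_lit 0x1ffff))) s1 s2 s3 s4 (Nat.land za (Nat.shiftRight m (Nat.land (Nat.shiftRight (Nat.shiftRight m (nat_lit 34)) (Nat.land x (nat_lit 0x1ffff))) (nat_lit 0x1ffff)))) (Nat.add ac (Nat.land (Nat.shiftRight m (Nat.land (Nat.shiftRight (Nat.shiftRight m (Nat.land (Nat.shiftRight m (Nat.land (Nat.shiftRight (Nat.shiftRight m (nat_lit 34)) (Nat.land x (nat_lit 0x1ffff))) (nat_lit 0x1ffff))) (nat_lit 0x1ffff))) (nat_lit 34)) (nat_lit 0x1ffff))) (Nat.shiftLeft (Nat.land p (nat_lit 63)) (nat_lit 64))))⟩,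
  fun K p w => ⟨fun m x s1 s2 s3 s4 za ac => (K (Nat.shiftRight p (nat_lit 6)) (Nat.add w (Nat.shiftLeft (Nat.land p (nat_lit 63)) (nat_lit 64)))).1 m (Nat.shiftRight m (Nat.land (Nat.shiftRight (Nat.shiftRight m (Nat.land (Nat.shiftRight (Nat.shiftRight m (Nat.land (Nat.shiftRight (Nat.shiftRight m (Nat.land (Nat.shiftRight (Nat.shiftRight m (nat_lit 34)) (Nat.land (Nat.shiftRight x (nat_lit 17))
  (nat_lit 0x1ffff))) (nat_lit 0x1ffff))) (nat_lit 17)) (nat_lit 0x1ffff))) (nat_lit 34)) (nat_lit 0x1ffff))) (nat_lit 17)) (nat_lit 0x1ffff))) s1 s2 s3 s4 (Nat.land za (Nat.shiftRight m (Nat.land (Nat.shiftRight (Nat.shiftRight m (nat_lit 34)) (Nat.land (Nat.shiftRight x (nat_lit 17)) (nat_lit 0x1ffff))) (nat_lit 0x1ffff)))) (Nat.add ac (Nat.land (Nat.shiftRight m (Nat.land (Nat.shiftRight (Nat.shiftRight m (Nat.land (Nat.shiftRight (Nat.shiftRight m (Nat.land (Nat.shiftRight (Nat.shiftRight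 m (nat_lit 34)) (Nat.land (Nat.shiftRight x (nat_lit 17)) (nat_lit 0x1ffff))) (nat_lit 0x1ffff))) (nat_lit 17)) (nat_lit 0x1ffff))) (nat_lit 34)) (nat_lit 0x1ffff))) (Nat.shiftLeft (Nat.land p (nat_lit 63)) (nat_lit 64))))⟩,
  rfl, rfl⟩
noncomputable def en115 : Ent := ⟨[nat_lit 8, nat_lit 3, nat_lit 12, nat_lit 12],
  fun K p w => ⟨fun m x s1 s2 s3 s4 za ac => (K (Nat.shiftRight (Nat.shiftRight p (nat_lit 28)) (nat_lit 28)) (Nat.add (Nat.add w (plA p)) (plA (Nat.shiftRight p (nat_lit 28))))).1 m (Nat.shiftRight m (Nat.land x (nat_lit 0x1ffff))) x s1 s2 s3 za (Nat.add (Nat.add ac (Nat.land (Nat.shiftRight m (Nat.land x (nat_lit 0x1ffff))) (plA p))) (Nat.land (Nat.shiftRight m (Nat.land x (nat_lit 0x1ffff))) (plA (Nat.shiftRight p (nat_lit 28)))))⟩,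
  fun K p w => ⟨fun m x s1 s2 s3 s4 za ac => (K (Nat.shiftRight (Nat.shiftRight p (nat_lit 28)) (nat_lit 28)) (Nat.succ (Nat.succ w))).1 m (Nat.shiftRight m (Nat.land (Nat.shiftRight x (nat_lit 17)) (nat_lit 0x1ffff))) x s1 s2 s3 za ac⟩,
  rfl, rfl⟩
noncomputable def en116 : Ent := ⟨[nat_lit 3, nat_lit 12],
  fun K p w => ⟨fun m x s1 s2 s3 s4 za ac => (K (Nat.shiftRight p (nat_lit 28)) (Nat.add w (plA p))).1 m (Nat.shiftRight m (Nat.land x (nat_lit 0x1ffff))) s1 s2 s3 s4 za (Nat.add ac (Nat.land (Nat.shiftRight m (Nat.land x (nat_lit 0x1ffff))) (plA p)))⟩,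
  fun K p w => ⟨fun m x s1 s2 s3 s4 za ac => (K (Nat.shiftRight p (nat_lit 28)) (Nat.succ w)).1 m (Nat.shiftRight m (Nat.land (Nat.shiftRight x (nat_lit 17)) (nat_lit 0x1ffff))) s1 s2 s3 s4 za ac⟩,
  rfl, rfl⟩
noncomputable def en117 : Ent := ⟨[nat_lit 8, nat_lit 3, nat_lit 7, nat_lit 10, nat_lit 16, nat_lit 5, nat_lit 9, nat_lit 1, nat_lit 3, nat_lit 11, nat_lit 2, nat_lit 11],
  fun K p w => ⟨fun m x s1 s2 s3 s4 za ac => (K (Nat.shiftRight (Nat.shiftRight (Nat.shiftRight (Nat.shiftRight p (nat_lit 6)) (nat_lit 16)) (nat_lit 16)) (nat_lit 16)) (Nat.add (Nat.add (Nat.add (Nat.add w (Nat.shiftLeft (Nat.land p (nat_lit 63)) (nat_lit 64))) (Nat.shiftLeft (Nat.land (Nat.shiftRight p (nat_lit 6)) (nat_lit 65535)) (nat_lit 70))) (Nat.shiftLeft (Nat.land (Nat.shiftRight (Nat.shiftRight p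
  (nat_lit 6)) (nat_lit 16)) (nat_lit 65535)) (nat_lit 70))) (Nat.shiftLeft (Nat.land (Nat.shiftRight (Nat.shiftRight (Nat.shiftRight p (nat_lit 6)) (nat_lit 16)) (nat_lit 16)) (nat_lit 65535)) (nat_lit 70)))).1 m (Nat.shiftRight m (Nat.land (Nat.shiftRight (Nat.shiftRight m (Nat.land (Nat.shiftRight m (Nat.land (Nat.shiftRight (Nat.shiftRight m (nat_lit 34)) (Nat.land (Nat.shiftRight x (nat_lit 17))
  (nat_lit 0x1ffff))) (nat_lit 0x1ffff))) (nat_lit 0x1ffff))) (nat_lit 34)) (nat_lit 0x1ffff))) s1 s2 s3 s3 (Nat.land (Nat.land za (Nat.shiftRight m (Nat.land (Nat.shiftRight (Nat.shiftRight m (nat_lit 34)) (Nat.land (Nat.shiftRight x (nat_lit 17)) (nat_lit 0x1ffff))) (nat_lit 0x1ffff)))) (Nat.shiftRight m (Nat.land (Nat.shiftRight (Nat.shiftRight m (Nat.land (Nat.shiftRight m (Nat.land (Nat.shiftRight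
  (Nat.shiftRight m (nat_lit 34)) (Nat.land (Nat.shiftRight x (nat_lit 17)) (nat_lit 0x1ffff))) (nat_lit 0x1ffff))) (nat_lit 0x1ffff))) (nat_lit 34)) (nat_lit 0x1ffff)))) (Nat.add (Nat.add (Nat.add (Nat.add ac (Nat.land (Nat.shiftRight m (Nat.land (Nat.shiftRight (Nat.shiftRight m (Nat.land x (nat_lit 0x1ffff))) (nat_lit 34)) (nat_lit 0x1ffff))) (Nat.shiftLeft (Nat.land p (nat_lit 63)) (nat_lit 64))))
  (Nat.land (Nat.shiftRight m (Nat.land (Nat.shiftRight (Nat.shiftRight m (Nat.land x (nat_lit 0x1ffff))) (nat_lit 34)) (nat_lit 0x1ffff))) (Nat.shiftLeft (Nat.land (Nat.shiftRight p (nat_lit 6)) (nat_lit 65535)) (nat_lit 70)))) (Nat.land (Nat.shiftRight m (Nat.land (Nat.shiftRight m (Nat.land (Nat.shiftRight (Nat.shiftRight m (nat_lit 34)) (Nat.land (Nat.shiftRight x (nat_lit 17)) (nat_lit 0x1ffff)))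
  (nat_lit 0x1ffff))) (nat_lit 0x1ffff))) (Nat.shiftLeft (Nat.land (Nat.shiftRight (Nat.shiftRight p (nat_lit 6)) (nat_lit 16)) (nat_lit 65535)) (nat_lit 70)))) (Nat.land (Nat.shiftRight m (Nat.land (Nat.shiftRight (Nat.shiftRight m (Nat.land (Nat.shiftRight m (Nat.land (Nat.shiftRight (Nat.shiftRight m (nat_lit 34)) (Nat.land (Nat.shiftRight x (nat_lit 17)) (nat_lit 0x1ffff))) (nat_lit 0x1ffff))) (nat_lit 0x1ffff))) (nat_lit 34)) (nat_lit 0x1ffff))) (Nat.shiftLeft (Nat.land (Nat.shiftRight (Nat.shiftRight (Nat.shiftRight p (nat_lit 6)) (nat_lit 16)) (nat_lit 16)) (nat_lit 65535)) (nat_lit 70))))⟩,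
  fun K p w => ⟨fun m x s1 s2 s3 s4 za ac => (K (Nat.shiftRight (Nat.shiftRight (Nat.shiftRight (Nat.shiftRight p (nat_lit 6)) (nat_lit 16)) (nat_lit 16)) (nat_lit 16)) (Nat.add (Nat.add (Nat.add (Nat.add w (Nat.shiftLeft (Nat.land p (nat_lit 63)) (nat_lit 64))) (Nat.shiftLeft (Nat.land (Nat.shiftRight p (nat_lit 6)) (nat_lit 65535)) (nat_lit 70))) (Nat.shiftLeft (Nat.land (Nat.shiftRight (Nat.shiftRight p
  (nat_lit 6)) (nat_lit 16)) (nat_lit 65535)) (nat_lit 70))) (Nat.shiftLeft (Nat.land (Nat.shiftRight (Nat.shiftRight (Nat.shiftRight p (nat_lit 6)) (nat_lit 16)) (nat_lit 16)) (nat_lit 65535)) (nat_lit 70)))).1 m (Nat.shiftRight m (Nat.land (Nat.shiftRight (Nat.shiftRight m (Nat.land (Nat.shiftRight (Nat.shiftRight m (Nat.land (Nat.shiftRight (Nat.shiftRight m (nat_lit 34)) (Nat.land x (nat_lit 0x1ffff)))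
  (nat_lit 0x1ffff))) (nat_lit 17)) (nat_lit 0x1ffff))) (nat_lit 34)) (nat_lit 0x1ffff))) s1 s2 s3 s3 (Nat.land (Nat.land za (Nat.shiftRight m (Nat.land (Nat.shiftRight (Nat.shiftRight m (nat_lit 34)) (Nat.land x (nat_lit 0x1ffff))) (nat_lit 0x1ffff)))) (Nat.shiftRight m (Nat.land (Nat.shiftRight (Nat.shiftRight m (Nat.land (Nat.shiftRight (Nat.shiftRight m (Nat.land (Nat.shiftRight (Nat.shiftRight m
  (nat_lit 34)) (Nat.land x (nat_lit 0x1ffff))) (nat_lit 0x1ffff))) (nat_lit 17)) (nat_lit 0x1ffff))) (nat_lit 34)) (nat_lit 0x1ffff)))) (Nat.add (Nat.add (Nat.add (Nat.add ac (Nat.land (Nat.shiftRight m (Nat.land (Nat.shiftRight (Nat.shiftRight m (Nat.land (Nat.shiftRight x (nat_lit 17)) (nat_lit 0x1ffff))) (nat_lit 34)) (nat_lit 0x1ffff))) (Nat.shiftLeft (Nat.land p (nat_lit 63)) (nat_lit 64))))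
  (Nat.land (Nat.lor (Nat.shiftRight m (Nat.land (Nat.shiftRight m (Nat.land (Nat.shiftRight (Nat.shiftRight m (Nat.land (Nat.shiftRight x (nat_lit 17)) (nat_lit 0x1ffff))) (nat_lit 34)) (nat_lit 0x1ffff))) (nat_lit 0x1ffff))) (Nat.shiftRight m (Nat.land (Nat.shiftRight (Nat.shiftRight m (Nat.land (Nat.shiftRight (Nat.shiftRight m (Nat.land (Nat.shiftRight x (nat_lit 17)) (nat_lit 0x1ffff))) (nat_lit 34))
  (nat_lit 0x1ffff))) (nat_lit 34)) (nat_lit 0x1ffff)))) (Nat.shiftLeft (Nat.land (Nat.shiftRight p (nat_lit 6)) (nat_lit 65535)) (nat_lit 70)))) (Nat.land (Nat.shiftRight m (Nat.land (Nat.shiftRight m (Nat.land (Nat.shiftRight (Nat.shiftRight m (Nat.land (Nat.shiftRight (Nat.shiftRight m (nat_lit 34)) (Nat.land x (nat_lit 0x1ffff))) (nat_lit 0x1ffff))) (nat_lit 17)) (nat_lit 0x1ffff))) (nat_lit 0x1ffff)))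
  (Nat.shiftLeft (Nat.land (Nat.shiftRight (Nat.shiftRight p (nat_lit 6)) (nat_lit 16)) (nat_lit 65535)) (nat_lit 70)))) (Nat.land (Nat.shiftRight m (Nat.land (Nat.shiftRight m (Nat.land (Nat.shiftRight (Nat.shiftRight m (Nat.land (Nat.shiftRight (Nat.shiftRight m (Nat.land (Nat.shiftRight (Nat.shiftRight m (nat_lit 34)) (Nat.land x (nat_lit 0x1ffff))) (nat_lit 0x1ffff))) (nat_lit 17)) (nat_lit 0x1ffff))) (nat_lit 34)) (nat_lit 0x1ffff))) (nat_lit 0x1ffff))) (Nat.shiftLeft (Nat.land (Nat.shiftRight (Nat.shiftRight (Nat.shiftRight p (nat_lit 6)) (nat_lit 16)) (nat_lit 16)) (nat_lit 65535)) (nat_lit 70))))⟩,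
  rfl, rfl⟩
noncomputable def en118 : Ent := ⟨[nat_lit 3, nat_lit 12, nat_lit 12],
  fun K p w => ⟨fun m x s1 s2 s3 s4 za ac => (K (Nat.shiftRight (Nat.shiftRight p (nat_lit 28)) (nat_lit 28)) (Nat.add (Nat.add w (plA p)) (plA (Nat.shiftRight p (nat_lit 28))))).1 m (Nat.shiftRight m (Nat.land x (nat_lit 0x1ffff))) s1 s2 s3 s4 za (Nat.add (Nat.add ac (Nat.land (Nat.shiftRight m (Nat.land x (nat_lit 0x1ffff))) (plA p))) (Nat.land (Nat.shiftRight m (Nat.land x (nat_lit 0x1ffff))) (plA (Nat.shiftRight p (nat_lit 28)))))⟩,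
  fun K p w => ⟨fun m x s1 s2 s3 s4 za ac => (K (Nat.shiftRight (Nat.shiftRight p (nat_lit 28)) (nat_lit 28)) (Nat.succ (Nat.succ w))).1 m (Nat.shiftRight m (Nat.land (Nat.shiftRight x (nat_lit 17)) (nat_lit 0x1ffff))) s1 s2 s3 s4 za ac⟩,
  rfl, rfl⟩
noncomputable def en119 : Ent := ⟨[nat_lit 0, nat_lit 1],
  fun K p w => ⟨fun m x s1 s2 s3 s4 za ac => (K p w).1 m (Nat.shiftRight m (Nat.land (Nat.shiftRight (Nat.shiftRight m (nat_lit 34)) (Nat.land (Nat.shiftRight (Nat.shiftRight m (Nat.land (Nat.shiftRight (Nat.shiftRight m (nat_lit 34)) (Nat.land x (nat_lit 0x1ffff))) (nat_lit 0x1ffff))) (nat_lit 17)) (nat_lit 0x1ffff))) (nat_lit 0x1ffff))) s1 s2 s3 s4 (Nat.land (Nat.land za (Nat.shiftRight m (Nat.land (Nat.shiftRight (Nat.shiftRight m (nat_lit 34)) (Nat.land x (nat_lit 0x1ffff))) (nat_lit 0x1ffff)))) (Nat.shiftRight m (Nat.land (Nat.shiftRight (Nat.shiftRight m (nat_lit 34)) (Nat.land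 (Nat.shiftRight (Nat.shiftRight m (Nat.land (Nat.shiftRight (Nat.shiftRight m (nat_lit 34)) (Nat.land x (nat_lit 0x1ffff))) (nat_lit 0x1ffff))) (nat_lit 17)) (nat_lit 0x1ffff))) (nat_lit 0x1ffff)))) ac⟩,
  fun K p w => ⟨fun m x s1 s2 s3 s4 za ac => (K p w).1 m (Nat.shiftRight m (Nat.land (Nat.shiftRight (Nat.shiftRight m (nat_lit 34)) (Nat.land (Nat.shiftRight m (Nat.land (Nat.shiftRight (Nat.shiftRight m (nat_lit 34)) (Nat.land (Nat.shiftRight x (nat_lit 17)) (nat_lit 0x1ffff))) (nat_lit 0x1ffff))) (nat_lit 0x1ffff))) (nat_lit 0x1ffff))) s1 s2 s3 s4 (Nat.land (Nat.land za (Nat.shiftRight m (Nat.land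
  (Nat.shiftRight (Nat.shiftRight m (nat_lit 34)) (Nat.land (Nat.shiftRight x (nat_lit 17)) (nat_lit 0x1ffff))) (nat_lit 0x1ffff)))) (Nat.shiftRight m (Nat.land (Nat.shiftRight (Nat.shiftRight m (nat_lit 34)) (Nat.land (Nat.shiftRight m (Nat.land (Nat.shiftRight (Nat.shiftRight m (nat_lit 34)) (Nat.land (Nat.shiftRight x (nat_lit 17)) (nat_lit 0x1ffff))) (nat_lit 0x1ffff))) (nat_lit 0x1ffff))) (nat_lit 0x1ffff)))) ac⟩,
  rfl, rfl⟩
noncomputable def en120 : Ent := ⟨[nat_lit 8, nat_lit 3, nat_lit 11, nat_lit 2, nat_lit 11, nat_lit 4, nat_lit 11, nat_lit 9, nat_lit 4, nat_lit 11],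
  fun K p w => ⟨fun m x s1 s2 s3 s4 za ac => (K (Nat.shiftRight (Nat.shiftRight (Nat.shiftRight (Nat.shiftRight p (nat_lit 16)) (nat_lit 16)) (nat_lit 16)) (nat_lit 16)) (Nat.add (Nat.add (Nat.add (Nat.add w (Nat.shiftLeft (Nat.land p (nat_lit 65535)) (nat_lit 70))) (Nat.shiftLeft (Nat.land (Nat.shiftRight p (nat_lit 16)) (nat_lit 65535)) (nat_lit 70))) (Nat.shiftLeft (Nat.land (Nat.shiftRight (Nat.shiftRight p
  (nat_lit 16)) (nat_lit 16)) (nat_lit 65535)) (nat_lit 70))) (Nat.shiftLeft (Nat.land (Nat.shiftRight (Nat.shiftRight (Nat.shiftRight p (nat_lit 16)) (nat_lit 16)) (nat_lit 16)) (nat_lit 65535)) (nat_lit 70)))).1 m (Nat.shiftRight m (Nat.land (Nat.shiftRight x (nat_lit 17)) (nat_lit 0x1ffff))) s1 s2 s3 s3 (Nat.land za (Nat.shiftRight m (Nat.land (Nat.shiftRight (Nat.shiftRight m (Nat.land x (nat_lit 0x1ffff)))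
  (nat_lit 34)) (nat_lit 0x1ffff)))) (Nat.add (Nat.add (Nat.add (Nat.add ac (Nat.land (Nat.shiftRight m (Nat.land x (nat_lit 0x1ffff))) (Nat.shiftLeft (Nat.land p (nat_lit 65535)) (nat_lit 70)))) (Nat.land (Nat.shiftRight m (Nat.land (Nat.shiftRight (Nat.shiftRight m (Nat.land x (nat_lit 0x1ffff))) (nat_lit 34)) (nat_lit 0x1ffff))) (Nat.shiftLeft (Nat.land (Nat.shiftRight p (nat_lit 16)) (nat_lit 65535))
  (nat_lit 70)))) (Nat.land (Nat.shiftRight m (Nat.land (Nat.shiftRight (Nat.shiftRight m (Nat.land (Nat.shiftRight (Nat.shiftRight m (Nat.land x (nat_lit 0x1ffff))) (nat_lit 34)) (nat_lit 0x1ffff))) (nat_lit 17)) (nat_lit 0x1ffff))) (Nat.shiftLeft (Nat.land (Nat.shiftRight (Nat.shiftRight p (nat_lit 16)) (nat_lit 16)) (nat_lit 65535)) (nat_lit 70)))) (Nat.land (Nat.shiftRight m (Nat.land (Nat.shiftRight x (nat_lit 17)) (nat_lit 0x1ffff))) (Nat.shiftLeft (Nat.land (Nat.shiftRight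 (Nat.shiftRight (Nat.shiftRight p (nat_lit 16)) (nat_lit 16)) (nat_lit 16)) (nat_lit 65535)) (nat_lit 70))))⟩,
  fun K p w => ⟨fun m x s1 s2 s3 s4 za ac => (K (Nat.shiftRight (Nat.shiftRight (Nat.shiftRight (Nat.shiftRight p (nat_lit 16)) (nat_lit 16)) (nat_lit 16)) (nat_lit 16)) (Nat.add (Nat.add (Nat.add (Nat.add w (Nat.shiftLeft (Nat.land p (nat_lit 65535)) (nat_lit 70))) (Nat.shiftLeft (Nat.land (Nat.shiftRight p (nat_lit 16)) (nat_lit 65535)) (nat_lit 70))) (Nat.shiftLeft (Nat.land (Nat.shiftRight (Nat.shiftRight p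
  (nat_lit 16)) (nat_lit 16)) (nat_lit 65535)) (nat_lit 70))) (Nat.shiftLeft (Nat.land (Nat.shiftRight (Nat.shiftRight (Nat.shiftRight p (nat_lit 16)) (nat_lit 16)) (nat_lit 16)) (nat_lit 65535)) (nat_lit 70)))).1 m (Nat.shiftRight m (Nat.land x (nat_lit 0x1ffff))) s1 s2 s3 s3 (Nat.land za (Nat.shiftRight m (Nat.land (Nat.shiftRight (Nat.shiftRight m (Nat.land (Nat.shiftRight x (nat_lit 17)) (nat_lit 0x1ffff)))
  (nat_lit 34)) (nat_lit 0x1ffff)))) (Nat.add (Nat.add (Nat.add (Nat.add ac (Nat.land (Nat.shiftRight m (Nat.land (Nat.shiftRight m (Nat.land (Nat.shiftRight x (nat_lit 17)) (nat_lit 0x1ffff))) (nat_lit 0x1ffff))) (Nat.shiftLeft (Nat.land p (nat_lit 65535)) (nat_lit 70)))) (Nat.land (Nat.shiftRight m (Nat.land (Nat.shiftRight m (Nat.land (Nat.shiftRight (Nat.shiftRight m (Nat.land (Nat.shiftRight x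
  (nat_lit 17)) (nat_lit 0x1ffff))) (nat_lit 34)) (nat_lit 0x1ffff))) (nat_lit 0x1ffff))) (Nat.shiftLeft (Nat.land (Nat.shiftRight p (nat_lit 16)) (nat_lit 65535)) (nat_lit 70)))) (Nat.land (Nat.shiftRight m (Nat.land (Nat.shiftRight m (Nat.land (Nat.shiftRight m (Nat.land (Nat.shiftRight (Nat.shiftRight m (Nat.land (Nat.shiftRight x (nat_lit 17)) (nat_lit 0x1ffff))) (nat_lit 34)) (nat_lit 0x1ffff)))
  (nat_lit 0x1ffff))) (nat_lit 0x1ffff))) (Nat.shiftLeft (Nat.land (Nat.shiftRight (Nat.shiftRight p (nat_lit 16)) (nat_lit 16)) (nat_lit 65535)) (nat_lit 70)))) (Nat.land (Nat.shiftRight m (Nat.land (Nat.shiftRight m (Nat.land x (nat_lit 0x1ffff))) (nat_lit 0x1ffff))) (Nat.shiftLeft (Nat.land (Nat.shiftRight (Nat.shiftRight (Nat.shiftRight p (nat_lit 16)) (nat_lit 16)) (nat_lit 16)) (nat_lit 65535)) (nat_lit 70))))⟩,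
  rfl, rfl⟩
noncomputable def en121 : Ent := ⟨[nat_lit 9, nat_lit 4, nat_lit 11, nat_lit 2, nat_lit 0, nat_lit 0],
  fun K p w => ⟨fun m x s1 s2 s3 s4 za ac => (K (Nat.shiftRight p (nat_lit 16)) (Nat.add w (Nat.shiftLeft (Nat.land p (nat_lit 65535)) (nat_lit 70)))).1 m (Nat.shiftRight m (Nat.land (Nat.shiftRight (Nat.shiftRight m (nat_lit 34)) (Nat.land (Nat.shiftRight m (Nat.land (Nat.shiftRight (Nat.shiftRight m (nat_lit 34)) (Nat.land (Nat.shiftRight m (Nat.land (Nat.shiftRight (Nat.shiftRight m (Nat.land (Nat.shiftRight s1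
  (nat_lit 17)) (nat_lit 0x1ffff))) (nat_lit 34)) (nat_lit 0x1ffff))) (nat_lit 0x1ffff))) (nat_lit 0x1ffff))) (nat_lit 0x1ffff))) (nat_lit 0x1ffff))) s2 s3 s4 s4 (Nat.land (Nat.land (Nat.land za (Nat.shiftRight m (Nat.land (Nat.shiftRight (Nat.shiftRight m (Nat.land (Nat.shiftRight s1 (nat_lit 17)) (nat_lit 0x1ffff))) (nat_lit 34)) (nat_lit 0x1ffff)))) (Nat.shiftRight m (Nat.land (Nat.shiftRight (Nat.shiftRight m
  (nat_lit 34)) (Nat.land (Nat.shiftRight m (Nat.land (Nat.shiftRight (Nat.shiftRight m (Nat.land (Nat.shiftRight s1 (nat_lit 17)) (nat_lit 0x1ffff))) (nat_lit 34)) (nat_lit 0x1ffff))) (nat_lit 0x1ffff))) (nat_lit 0x1ffff)))) (Nat.shiftRight m (Nat.land (Nat.shiftRight (Nat.shiftRight m (nat_lit 34)) (Nat.land (Nat.shiftRight m (Nat.land (Nat.shiftRight (Nat.shiftRight m (nat_lit 34)) (Nat.land (Nat.shiftRight m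
  (Nat.land (Nat.shiftRight (Nat.shiftRight m (Nat.land (Nat.shiftRight s1 (nat_lit 17)) (nat_lit 0x1ffff))) (nat_lit 34)) (nat_lit 0x1ffff))) (nat_lit 0x1ffff))) (nat_lit 0x1ffff))) (nat_lit 0x1ffff))) (nat_lit 0x1ffff)))) (Nat.add ac (Nat.land (Nat.shiftRight m (Nat.land (Nat.shiftRight s1 (nat_lit 17)) (nat_lit 0x1ffff))) (Nat.shiftLeft (Nat.land p (nat_lit 65535)) (nat_lit 70))))⟩,
  fun K p w => ⟨fun m x s1 s2 s3 s4 za ac => (K (Nat.shiftRight p (nat_lit 16)) (Nat.add w (Nat.shiftLeft (Nat.land p (nat_lit 65535)) (nat_lit 70)))).1 m (Nat.shiftRight m (Nat.land (Nat.shiftRight (Nat.shiftRight m (nat_lit 34)) (Nat.land (Nat.shiftRight (Nat.shiftRight m (Nat.land (Nat.shiftRight (Nat.shiftRight m (nat_lit 34)) (Nat.land (Nat.shiftRight (Nat.shiftRight m (Nat.land (Nat.shiftRight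
  (Nat.shiftRight m (Nat.land s1 (nat_lit 0x1ffff))) (nat_lit 34)) (nat_lit 0x1ffff))) (nat_lit 17)) (nat_lit 0x1ffff))) (nat_lit 0x1ffff))) (nat_lit 17)) (nat_lit 0x1ffff))) (nat_lit 0x1ffff))) s2 s3 s4 s4 (Nat.land (Nat.land (Nat.land za (Nat.shiftRight m (Nat.land (Nat.shiftRight (Nat.shiftRight m (Nat.land s1 (nat_lit 0x1ffff))) (nat_lit 34)) (nat_lit 0x1ffff)))) (Nat.shiftRight m (Nat.land (Nat.shiftRight
  (Nat.shiftRight m (nat_lit 34)) (Nat.land (Nat.shiftRight (Nat.shiftRight m (Nat.land (Nat.shiftRight (Nat.shiftRight m (Nat.land s1 (nat_lit 0x1ffff))) (nat_lit 34)) (nat_lit 0x1ffff))) (nat_lit 17)) (nat_lit 0x1ffff))) (nat_lit 0x1ffff)))) (Nat.shiftRight m (Nat.land (Nat.shiftRight (Nat.shiftRight m (nat_lit 34)) (Nat.land (Nat.shiftRight (Nat.shiftRight m (Nat.land (Nat.shiftRight (Nat.shiftRight m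
  (nat_lit 34)) (Nat.land (Nat.shiftRight (Nat.shiftRight m (Nat.land (Nat.shiftRight (Nat.shiftRight m (Nat.land s1 (nat_lit 0x1ffff))) (nat_lit 34)) (nat_lit 0x1ffff))) (nat_lit 17)) (nat_lit 0x1ffff))) (nat_lit 0x1ffff))) (nat_lit 17)) (nat_lit 0x1ffff))) (nat_lit 0x1ffff)))) (Nat.add ac (Nat.land (Nat.shiftRight m (Nat.land (Nat.shiftRight m (Nat.land s1 (nat_lit 0x1ffff))) (nat_lit 0x1ffff))) (Nat.shiftLeft (Nat.land p (nat_lit 65535)) (nat_lit 70))))⟩,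
  rfl, rfl⟩
noncomputable def en122 : Ent := ⟨[nat_lit 9, nat_lit 2, nat_lit 8, nat_lit 0, nat_lit 8, nat_lit 0, nat_lit 11],
  fun K p w => ⟨fun m x s1 s2 s3 s4 za ac => (K (Nat.shiftRight p (nat_lit 16)) (Nat.add w (Nat.shiftLeft (Nat.land p (nat_lit 65535)) (nat_lit 70)))).1 m (Nat.shiftRight m (Nat.land (Nat.shiftRight (Nat.shiftRight m (nat_lit 34)) (Nat.land (Nat.shiftRight m (Nat.land (Nat.shiftRight (Nat.shiftRight m (nat_lit 34)) (Nat.land (Nat.shiftRight m (Nat.land (Nat.shiftRight s1 (nat_lit 34)) (nat_lit 0x1ffff)))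
  (nat_lit 0x1ffff))) (nat_lit 0x1ffff))) (nat_lit 0x1ffff))) (nat_lit 0x1ffff))) (Nat.shiftRight m (Nat.land (Nat.shiftRight (Nat.shiftRight m (nat_lit 34)) (Nat.land (Nat.shiftRight m (Nat.land (Nat.shiftRight s1 (nat_lit 34)) (nat_lit 0x1ffff))) (nat_lit 0x1ffff))) (nat_lit 0x1ffff))) (Nat.shiftRight m (Nat.land (Nat.shiftRight s1 (nat_lit 34)) (nat_lit 0x1ffff))) s2 s3 (Nat.land (Nat.land (Nat.land za
  (Nat.shiftRight m (Nat.land (Nat.shiftRight s1 (nat_lit 34)) (nat_lit 0x1ffff)))) (Nat.shiftRight m (Nat.land (Nat.shiftRight (Nat.shiftRight m (nat_lit 34)) (Nat.land (Nat.shiftRight m (Nat.land (Nat.shiftRight s1 (nat_lit 34)) (nat_lit 0x1ffff))) (nat_lit 0x1ffff))) (nat_lit 0x1ffff)))) (Nat.shiftRight m (Nat.land (Nat.shiftRight (Nat.shiftRight m (nat_lit 34)) (Nat.land (Nat.shiftRight m (Nat.land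
  (Nat.shiftRight (Nat.shiftRight m (nat_lit 34)) (Nat.land (Nat.shiftRight m (Nat.land (Nat.shiftRight s1 (nat_lit 34)) (nat_lit 0x1ffff))) (nat_lit 0x1ffff))) (nat_lit 0x1ffff))) (nat_lit 0x1ffff))) (nat_lit 0x1ffff)))) (Nat.add ac (Nat.land (Nat.shiftRight m (Nat.land (Nat.shiftRight (Nat.shiftRight m (nat_lit 34)) (Nat.land (Nat.shiftRight m (Nat.land (Nat.shiftRight (Nat.shiftRight m (nat_lit 34)) (Nat.land (Nat.shiftRight m (Nat.land (Nat.shiftRight s1 (nat_lit 34)) (nat_lit 0x1ffff))) (nat_lit 0x1ffff))) (nat_lit 0x1ffff))) (nat_lit 0x1ffff))) (nat_lit 0x1ffff))) (Nat.shiftLeft (Nat.land p (nat_lit 65535)) (nat_lit 70))))⟩,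
  fun K p w => ⟨fun m x s1 s2 s3 s4 za ac => (K (Nat.shiftRight p (nat_lit 16)) (Nat.add w (Nat.shiftLeft (Nat.land p (nat_lit 65535)) (nat_lit 70)))).1 m (Nat.shiftRight m (Nat.land (Nat.shiftRight (Nat.shiftRight m (nat_lit 34)) (Nat.land (Nat.shiftRight (Nat.shiftRight m (Nat.land (Nat.shiftRight (Nat.shiftRight m (nat_lit 34)) (Nat.land (Nat.shiftRight (Nat.shiftRight m (Nat.land (Nat.shiftRight s1
  (nat_lit 34)) (nat_lit 0x1ffff))) (nat_lit 17)) (nat_lit 0x1ffff))) (nat_lit 0x1ffff))) (nat_lit 17)) (nat_lit 0x1ffff))) (nat_lit 0x1ffff))) (Nat.shiftRight m (Nat.land (Nat.shiftRight (Nat.shiftRight m (nat_lit 34)) (Nat.land (Nat.shiftRight (Nat.shiftRight m (Nat.land (Nat.shiftRight s1 (nat_lit 34)) (nat_lit 0x1ffff))) (nat_lit 17)) (nat_lit 0x1ffff))) (nat_lit 0x1ffff))) (Nat.shiftRight m (Nat.land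
  (Nat.shiftRight s1 (nat_lit 34)) (nat_lit 0x1ffff))) s2 s3 (Nat.land (Nat.land (Nat.land za (Nat.shiftRight m (Nat.land (Nat.shiftRight s1 (nat_lit 34)) (nat_lit 0x1ffff)))) (Nat.shiftRight m (Nat.land (Nat.shiftRight (Nat.shiftRight m (nat_lit 34)) (Nat.land (Nat.shiftRight (Nat.shiftRight m (Nat.land (Nat.shiftRight s1 (nat_lit 34)) (nat_lit 0x1ffff))) (nat_lit 17)) (nat_lit 0x1ffff))) (nat_lit 0x1ffff))))
  (Nat.shiftRight m (Nat.land (Nat.shiftRight (Nat.shiftRight m (nat_lit 34)) (Nat.land (Nat.shiftRight (Nat.shiftRight m (Nat.land (Nat.shiftRight (Nat.shiftRight m (nat_lit 34)) (Nat.land (Nat.shiftRight (Nat.shiftRight m (Nat.land (Nat.shiftRight s1 (nat_lit 34)) (nat_lit 0x1ffff))) (nat_lit 17)) (nat_lit 0x1ffff))) (nat_lit 0x1ffff))) (nat_lit 17)) (nat_lit 0x1ffff))) (nat_lit 0x1ffff)))) (Nat.add ac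
  (Nat.land (Nat.shiftRight m (Nat.land (Nat.shiftRight m (Nat.land (Nat.shiftRight (Nat.shiftRight m (nat_lit 34)) (Nat.land (Nat.shiftRight (Nat.shiftRight m (Nat.land (Nat.shiftRight (Nat.shiftRight m (nat_lit 34)) (Nat.land (Nat.shiftRight (Nat.shiftRight m (Nat.land (Nat.shiftRight s1 (nat_lit 34)) (nat_lit 0x1ffff))) (nat_lit 17)) (nat_lit 0x1ffff))) (nat_lit 0x1ffff))) (nat_lit 17)) (nat_lit 0x1ffff))) (nat_lit 0x1ffff))) (nat_lit 0x1ffff))) (Nat.shiftLeft (Nat.land p (nat_lit 65535)) (nat_lit 70))))⟩,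
  rfl, rfl⟩
noncomputable def en123 : Ent := ⟨[nat_lit 10, nat_lit 16],
  fun K p w => ⟨fun m x s1 s2 s3 s4 za ac => (K (Nat.shiftRight (Nat.shiftRight p (nat_lit 6)) (nat_lit 16)) (Nat.add (Nat.add w (Nat.shiftLeft (Nat.land p (nat_lit 63)) (nat_lit 64))) (Nat.shiftLeft (Nat.land (Nat.shiftRight p (nat_lit 6)) (nat_lit 65535)) (nat_lit 70)))).1 m x s1 s2 s3 s4 za (Nat.add (Nat.add ac (Nat.land x (Nat.shiftLeft (Nat.land p (nat_lit 63)) (nat_lit 64)))) (Nat.land x (Nat.shiftLeft (Nat.land (Nat.shiftRight p (nat_lit 6)) (nat_lit 65535)) (nat_lit 70))))⟩,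
  fun K p w => ⟨fun m x s1 s2 s3 s4 za ac => (K (Nat.shiftRight (Nat.shiftRight p (nat_lit 6)) (nat_lit 16)) (Nat.add (Nat.add w (Nat.shiftLeft (Nat.land p (nat_lit 63)) (nat_lit 64))) (Nat.shiftLeft (Nat.land (Nat.shiftRight p (nat_lit 6)) (nat_lit 65535)) (nat_lit 70)))).1 m x s1 s2 s3 s4 za (Nat.add (Nat.add ac (Nat.land x (Nat.shiftLeft (Nat.land p (nat_lit 63)) (nat_lit 64)))) (Nat.land (Nat.lor (Nat.shiftRight m (Nat.land x (nat_lit 0x1ffff))) (Nat.shiftRight m (Nat.land (Nat.shiftRight x (nat_lit 34)) (nat_lit 0x1ffff)))) (Nat.shiftLeft (Nat.land (Nat.shiftRight p (nat_lit 6)) (nat_lit 65535)) (nat_lit 70))))⟩,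
  rfl, rfl⟩
noncomputable def en124 : Ent := ⟨[nat_lit 9, nat_lit 2, nat_lit 11, nat_lit 8, nat_lit 0],
  fun K p w => ⟨fun m x s1 s2 s3 s4 za ac => (K (Nat.shiftRight p (nat_lit 16)) (Nat.add w (Nat.shiftLeft (Nat.land p (nat_lit 65535)) (nat_lit 70)))).1 m (Nat.shiftRight m (Nat.land (Nat.shiftRight (Nat.shiftRight m (nat_lit 34)) (Nat.land (Nat.shiftRight m (Nat.land (Nat.shiftRight s1 (nat_lit 34)) (nat_lit 0x1ffff))) (nat_lit 0x1ffff))) (nat_lit 0x1ffff))) (Nat.shiftRight m (Nat.land (Nat.shiftRight s1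
  (nat_lit 34)) (nat_lit 0x1ffff))) s2 s3 s4 (Nat.land (Nat.land za (Nat.shiftRight m (Nat.land (Nat.shiftRight s1 (nat_lit 34)) (nat_lit 0x1ffff)))) (Nat.shiftRight m (Nat.land (Nat.shiftRight (Nat.shiftRight m (nat_lit 34)) (Nat.land (Nat.shiftRight m (Nat.land (Nat.shiftRight s1 (nat_lit 34)) (nat_lit 0x1ffff))) (nat_lit 0x1ffff))) (nat_lit 0x1ffff)))) (Nat.add ac (Nat.land (Nat.shiftRight m (Nat.land (Nat.shiftRight s1 (nat_lit 34)) (nat_lit 0x1ffff))) (Nat.shiftLeft (Nat.land p (nat_lit 65535)) (nat_lit 70))))⟩,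
  fun K p w => ⟨fun m x s1 s2 s3 s4 za ac => (K (Nat.shiftRight p (nat_lit 16)) (Nat.add w (Nat.shiftLeft (Nat.land p (nat_lit 65535)) (nat_lit 70)))).1 m (Nat.shiftRight m (Nat.land (Nat.shiftRight (Nat.shiftRight m (nat_lit 34)) (Nat.land (Nat.shiftRight (Nat.shiftRight m (Nat.land (Nat.shiftRight s1 (nat_lit 34)) (nat_lit 0x1ffff))) (nat_lit 17)) (nat_lit 0x1ffff))) (nat_lit 0x1ffff))) (Nat.shiftRight m
  (Nat.land (Nat.shiftRight s1 (nat_lit 34)) (nat_lit 0x1ffff))) s2 s3 s4 (Nat.land (Nat.land za (Nat.shiftRight m (Nat.land (Nat.shiftRight s1 (nat_lit 34)) (nat_lit 0x1ffff)))) (Nat.shiftRight m (Nat.land (Nat.shiftRight (Nat.shiftRight m (nat_lit 34)) (Nat.land (Nat.shiftRight (Nat.shiftRight m (Nat.land (Nat.shiftRight s1 (nat_lit 34)) (nat_lit 0x1ffff))) (nat_lit 17)) (nat_lit 0x1ffff))) (nat_lit 0x1ffff)))) (Nat.add ac (Nat.land (Nat.shiftRight m (Nat.land (Nat.shiftRight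 m (Nat.land (Nat.shiftRight s1 (nat_lit 34)) (nat_lit 0x1ffff))) (nat_lit 0x1ffff))) (Nat.shiftLeft (Nat.land p (nat_lit 65535)) (nat_lit 70))))⟩,
  rfl, rfl⟩
noncomputable def en125 : Ent := ⟨[nat_lit 10, nat_lit 16, nat_lit 12, nat_lit 8, nat_lit 5, nat_lit 16, nat_lit 2, nat_lit 11],
  fun K p w => ⟨fun m x s1 s2 s3 s4 za ac => (K (Nat.shiftRight (Nat.shiftRight (Nat.shiftRight (Nat.shiftRight (Nat.shiftRight p (nat_lit 6)) (nat_lit 16)) (nat_lit 28)) (nat_lit 16)) (nat_lit 16)) (Nat.add (Nat.add (Nat.add (Nat.add (Nat.add w (Nat.shiftLeft (Nat.land p (nat_lit 63)) (nat_lit 64))) (Nat.shiftLeft (Nat.land (Nat.shiftRight p (nat_lit 6)) (nat_lit 65535)) (nat_lit 70))) (plA (Nat.shiftRight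
  (Nat.shiftRight p (nat_lit 6)) (nat_lit 16)))) (Nat.shiftLeft (Nat.land (Nat.shiftRight (Nat.shiftRight (Nat.shiftRight p (nat_lit 6)) (nat_lit 16)) (nat_lit 28)) (nat_lit 65535)) (nat_lit 70))) (Nat.shiftLeft (Nat.land (Nat.shiftRight (Nat.shiftRight (Nat.shiftRight (Nat.shiftRight p (nat_lit 6)) (nat_lit 16)) (nat_lit 28)) (nat_lit 16)) (nat_lit 65535)) (nat_lit 70)))).1 m (Nat.shiftRight m (Nat.land
  (Nat.shiftRight (Nat.shiftRight m (Nat.land x (nat_lit 0x1ffff))) (nat_lit 34)) (nat_lit 0x1ffff))) x s1 s2 s3 (Nat.land za (Nat.shiftRight m (Nat.land (Nat.shiftRight (Nat.shiftRight m (Nat.land x (nat_lit 0x1ffff))) (nat_lit 34)) (nat_lit 0x1ffff)))) (Nat.add (Nat.add (Nat.add (Nat.add (Nat.add ac (Nat.land x (Nat.shiftLeft (Nat.land p (nat_lit 63)) (nat_lit 64)))) (Nat.land x (Nat.shiftLeft (Nat.land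
  (Nat.shiftRight p (nat_lit 6)) (nat_lit 65535)) (nat_lit 70)))) (Nat.land x (plA (Nat.shiftRight (Nat.shiftRight p (nat_lit 6)) (nat_lit 16))))) (Nat.land (Nat.shiftRight m (Nat.land x (nat_lit 0x1ffff))) (Nat.shiftLeft (Nat.land (Nat.shiftRight (Nat.shiftRight (Nat.shiftRight p (nat_lit 6)) (nat_lit 16)) (nat_lit 28)) (nat_lit 65535)) (nat_lit 70)))) (Nat.land (Nat.shiftRight m (Nat.land (Nat.shiftRight (Nat.shiftRight m (Nat.land x (nat_lit 0x1ffff))) (nat_lit 34)) (nat_lit 0x1ffff))) (Nat.shiftLeft (Nat.land (Nat.shiftRight (Nat.shiftRight (Nat.shiftRight (Nat.shiftRight p (nat_lit 6)) (nat_lit 16)) (nat_lit 28)) (nat_lit 16)) (nat_lit 65535)) (nat_lit 70))))⟩,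
  fun K p w => ⟨fun m x s1 s2 s3 s4 za ac => (K (Nat.shiftRight (Nat.shiftRight (Nat.shiftRight (Nat.shiftRight (Nat.shiftRight p (nat_lit 6)) (nat_lit 16)) (nat_lit 28)) (nat_lit 16)) (nat_lit 16)) (Nat.add (Nat.add (Nat.succ (Nat.add (Nat.add w (Nat.shiftLeft (Nat.land p (nat_lit 63)) (nat_lit 64))) (Nat.shiftLeft (Nat.land (Nat.shiftRight p (nat_lit 6)) (nat_lit 65535)) (nat_lit 70)))) (Nat.shiftLeft
  (Nat.land (Nat.shiftRight (Nat.shiftRight (Nat.shiftRight p (nat_lit 6)) (nat_lit 16)) (nat_lit 28)) (nat_lit 65535)) (nat_lit 70))) (Nat.shiftLeft (Nat.land (Nat.shiftRight (Nat.shiftRight (Nat.shiftRight (Nat.shiftRight p (nat_lit 6)) (nat_lit 16)) (nat_lit 28)) (nat_lit 16)) (nat_lit 65535)) (nat_lit 70)))).1 m (Nat.shiftRight m (Nat.land (Nat.shiftRight (Nat.shiftRight m (Nat.land (Nat.shiftRight x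
  (nat_lit 17)) (nat_lit 0x1ffff))) (nat_lit 34)) (nat_lit 0x1ffff))) x s1 s2 s3 (Nat.land za (Nat.shiftRight m (Nat.land (Nat.shiftRight (Nat.shiftRight m (Nat.land (Nat.shiftRight x (nat_lit 17)) (nat_lit 0x1ffff))) (nat_lit 34)) (nat_lit 0x1ffff)))) (Nat.add (Nat.add (Nat.add (Nat.add ac (Nat.land x (Nat.shiftLeft (Nat.land p (nat_lit 63)) (nat_lit 64)))) (Nat.land (Nat.lor (Nat.shiftRight m (Nat.land x
  (nat_lit 0x1ffff))) (Nat.shiftRight m (Nat.land (Nat.shiftRight x (nat_lit 34)) (nat_lit 0x1ffff)))) (Nat.shiftLeft (Nat.land (Nat.shiftRight p (nat_lit 6)) (nat_lit 65535)) (nat_lit 70)))) (Nat.land (Nat.lor (Nat.shiftRight m (Nat.land (Nat.shiftRight m (Nat.land (Nat.shiftRight x (nat_lit 17)) (nat_lit 0x1ffff))) (nat_lit 0x1ffff))) (Nat.shiftRight m (Nat.land (Nat.shiftRight (Nat.shiftRight m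
  (Nat.land (Nat.shiftRight x (nat_lit 17)) (nat_lit 0x1ffff))) (nat_lit 34)) (nat_lit 0x1ffff)))) (Nat.shiftLeft (Nat.land (Nat.shiftRight (Nat.shiftRight (Nat.shiftRight p (nat_lit 6)) (nat_lit 16)) (nat_lit 28)) (nat_lit 65535)) (nat_lit 70)))) (Nat.land (Nat.shiftRight m (Nat.land (Nat.shiftRight m (Nat.land (Nat.shiftRight (Nat.shiftRight m (Nat.land (Nat.shiftRight x (nat_lit 17)) (nat_lit 0x1ffff))) (nat_lit 34)) (nat_lit 0x1ffff))) (nat_lit 0x1ffff))) (Nat.shiftLeft (Nat.land (Nat.shiftRight (Nat.shiftRight (Nat.shiftRight (Nat.shiftRight p (nat_lit 6)) (nat_lit 16)) (nat_lit 28)) (nat_lit 16)) (nat_lit 65535)) (nat_lit 70))))⟩,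
  rfl, rfl⟩
noncomputable def en126 : Ent := ⟨[nat_lit 4, nat_lit 11, nat_lit 2, nat_lit 8, nat_lit 0],
  fun K p w => ⟨fun m x s1 s2 s3 s4 za ac => (K (Nat.shiftRight p (nat_lit 16)) (Nat.add w (Nat.shiftLeft (Nat.land p (nat_lit 65535)) (nat_lit 70)))).1 m (Nat.shiftRight m (Nat.land (Nat.shiftRight (Nat.shiftRight m (nat_lit 34)) (Nat.land (Nat.shiftRight m (Nat.land (Nat.shiftRight (Nat.shiftRight m (Nat.land (Nat.shiftRight x (nat_lit 17)) (nat_lit 0x1ffff))) (nat_lit 34)) (nat_lit 0x1ffff))) (nat_lit 0x1ffff)))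
  (nat_lit 0x1ffff))) (Nat.shiftRight m (Nat.land (Nat.shiftRight (Nat.shiftRight m (Nat.land (Nat.shiftRight x (nat_lit 17)) (nat_lit 0x1ffff))) (nat_lit 34)) (nat_lit 0x1ffff))) s1 s2 s3 (Nat.land (Nat.land za (Nat.shiftRight m (Nat.land (Nat.shiftRight (Nat.shiftRight m (Nat.land (Nat.shiftRight x (nat_lit 17)) (nat_lit 0x1ffff))) (nat_lit 34)) (nat_lit 0x1ffff)))) (Nat.shiftRight m (Nat.land (Nat.shiftRight
  (Nat.shiftRight m (nat_lit 34)) (Nat.land (Nat.shiftRight m (Nat.land (Nat.shiftRight (Nat.shiftRight m (Nat.land (Nat.shiftRight x (nat_lit 17)) (nat_lit 0x1ffff))) (nat_lit 34)) (nat_lit 0x1ffff))) (nat_lit 0x1ffff))) (nat_lit 0x1ffff)))) (Nat.add ac (Nat.land (Nat.shiftRight m (Nat.land (Nat.shiftRight x (nat_lit 17)) (nat_lit 0x1ffff))) (Nat.shiftLeft (Nat.land p (nat_lit 65535)) (nat_lit 70))))⟩,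
  fun K p w => ⟨fun m x s1 s2 s3 s4 za ac => (K (Nat.shiftRight p (nat_lit 16)) (Nat.add w (Nat.shiftLeft (Nat.land p (nat_lit 65535)) (nat_lit 70)))).1 m (Nat.shiftRight m (Nat.land (Nat.shiftRight (Nat.shiftRight m (nat_lit 34)) (Nat.land (Nat.shiftRight (Nat.shiftRight m (Nat.land (Nat.shiftRight (Nat.shiftRight m (Nat.land x (nat_lit 0x1ffff))) (nat_lit 34)) (nat_lit 0x1ffff))) (nat_lit 17)) (nat_lit 0x1ffff)))
  (nat_lit 0x1ffff))) (Nat.shiftRight m (Nat.land (Nat.shiftRight (Nat.shiftRight m (Nat.land x (nat_lit 0x1ffff))) (nat_lit 34)) (nat_lit 0x1ffff))) s1 s2 s3 (Nat.land (Nat.land za (Nat.shiftRight m (Nat.land (Nat.shiftRight (Nat.shiftRight m (Nat.land x (nat_lit 0x1ffff))) (nat_lit 34)) (nat_lit 0x1ffff)))) (Nat.shiftRight m (Nat.land (Nat.shiftRight (Nat.shiftRight m (nat_lit 34)) (Nat.land (Nat.shiftRight (Nat.shiftRight m (Nat.land (Nat.shiftRight (Nat.shiftRight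 m (Nat.land x (nat_lit 0x1ffff))) (nat_lit 34)) (nat_lit 0x1ffff))) (nat_lit 17)) (nat_lit 0x1ffff))) (nat_lit 0x1ffff)))) (Nat.add ac (Nat.land (Nat.shiftRight m (Nat.land (Nat.shiftRight m (Nat.land x (nat_lit 0x1ffff))) (nat_lit 0x1ffff))) (Nat.shiftLeft (Nat.land p (nat_lit 65535)) (nat_lit 70))))⟩,
  rfl, rfl⟩
noncomputable def en127 : Ent := ⟨[nat_lit 0, nat_lit 3, nat_lit 11, nat_lit 9, nat_lit 1],
  fun K p w => ⟨fun m x s1 s2 s3 s4 za ac => (K (Nat.shiftRight p (nat_lit 16)) (Nat.add w (Nat.shiftLeft (Nat.land p (nat_lit 65535)) (nat_lit 70)))).1 m (Nat.shiftRight m (Nat.land (Nat.shiftRight (Nat.shiftRight m (nat_lit 34)) (Nat.land (Nat.shiftRight s1 (nat_lit 17)) (nat_lit 0x1ffff))) (nat_lit 0x1ffff))) s2 s3 s4 s4 (Nat.land (Nat.land za (Nat.shiftRight m (Nat.land (Nat.shiftRight (Nat.shiftRight m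
  (nat_lit 34)) (Nat.land x (nat_lit 0x1ffff))) (nat_lit 0x1ffff)))) (Nat.shiftRight m (Nat.land (Nat.shiftRight (Nat.shiftRight m (nat_lit 34)) (Nat.land (Nat.shiftRight s1 (nat_lit 17)) (nat_lit 0x1ffff))) (nat_lit 0x1ffff)))) (Nat.add ac (Nat.land (Nat.shiftRight m (Nat.land (Nat.shiftRight m (Nat.land (Nat.shiftRight (Nat.shiftRight m (nat_lit 34)) (Nat.land x (nat_lit 0x1ffff))) (nat_lit 0x1ffff))) (nat_lit 0x1ffff))) (Nat.shiftLeft (Nat.land p (nat_lit 65535)) (nat_lit 70))))⟩,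
  fun K p w => ⟨fun m x s1 s2 s3 s4 za ac => (K (Nat.shiftRight p (nat_lit 16)) (Nat.add w (Nat.shiftLeft (Nat.land p (nat_lit 65535)) (nat_lit 70)))).1 m (Nat.shiftRight m (Nat.land (Nat.shiftRight (Nat.shiftRight m (nat_lit 34)) (Nat.land s1 (nat_lit 0x1ffff))) (nat_lit 0x1ffff))) s2 s3 s4 s4 (Nat.land (Nat.land za (Nat.shiftRight m (Nat.land (Nat.shiftRight (Nat.shiftRight m (nat_lit 34)) (Nat.land
  (Nat.shiftRight x (nat_lit 17)) (nat_lit 0x1ffff))) (nat_lit 0x1ffff)))) (Nat.shiftRight m (Nat.land (Nat.shiftRight (Nat.shiftRight m (nat_lit 34)) (Nat.land s1 (nat_lit 0x1ffff))) (nat_lit 0x1ffff)))) (Nat.add ac (Nat.land (Nat.shiftRight m (Nat.land (Nat.shiftRight m (Nat.land (Nat.shiftRight (Nat.shiftRight m (Nat.land (Nat.shiftRight (Nat.shiftRight m (nat_lit 34)) (Nat.land (Nat.shiftRight x (nat_lit 17)) (nat_lit 0x1ffff))) (nat_lit 0x1ffff))) (nat_lit 17)) (nat_lit 0x1ffff)))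 (nat_lit 0x1ffff))) (Nat.shiftLeft (Nat.land p (nat_lit 65535)) (nat_lit 70))))⟩,
  rfl, rfl⟩
noncomputable def en128 : Ent := ⟨[nat_lit 8, nat_lit 3, nat_lit 11, nat_lit 2, nat_lit 4, nat_lit 11, nat_lit 9],
  fun K p w => ⟨fun m x s1 s2 s3 s4 za ac => (K (Nat.shiftRight (Nat.shiftRight p (nat_lit 16)) (nat_lit 16)) (Nat.add (Nat.add w (Nat.shiftLeft (Nat.land p (nat_lit 65535)) (nat_lit 70))) (Nat.shiftLeft (Nat.land (Nat.shiftRight p (nat_lit 16)) (nat_lit 65535)) (nat_lit 70)))).1 m x s1 s2 s3 s3 (Nat.land za (Nat.shiftRight m (Nat.land (Nat.shiftRight (Nat.shiftRight m (Nat.land x (nat_lit 0x1ffff)))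
  (nat_lit 34)) (nat_lit 0x1ffff)))) (Nat.add (Nat.add ac (Nat.land (Nat.shiftRight m (Nat.land x (nat_lit 0x1ffff))) (Nat.shiftLeft (Nat.land p (nat_lit 65535)) (nat_lit 70)))) (Nat.land (Nat.shiftRight m (Nat.land (Nat.shiftRight (Nat.shiftRight m (Nat.land (Nat.shiftRight (Nat.shiftRight m (Nat.land x (nat_lit 0x1ffff))) (nat_lit 34)) (nat_lit 0x1ffff))) (nat_lit 17)) (nat_lit 0x1ffff))) (Nat.shiftLeft (Nat.land (Nat.shiftRight p (nat_lit 16)) (nat_lit 65535)) (nat_lit 70))))⟩,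
  fun K p w => ⟨fun m x s1 s2 s3 s4 za ac => (K (Nat.shiftRight (Nat.shiftRight p (nat_lit 16)) (nat_lit 16)) (Nat.add (Nat.add w (Nat.shiftLeft (Nat.land p (nat_lit 65535)) (nat_lit 70))) (Nat.shiftLeft (Nat.land (Nat.shiftRight p (nat_lit 16)) (nat_lit 65535)) (nat_lit 70)))).1 m x s1 s2 s3 s3 (Nat.land za (Nat.shiftRight m (Nat.land (Nat.shiftRight (Nat.shiftRight m (Nat.land (Nat.shiftRight x (nat_lit 17))
  (nat_lit 0x1ffff))) (nat_lit 34)) (nat_lit 0x1ffff)))) (Nat.add (Nat.add ac (Nat.land (Nat.shiftRight m (Nat.land (Nat.shiftRight m (Nat.land (Nat.shiftRight x (nat_lit 17)) (nat_lit 0x1ffff))) (nat_lit 0x1ffff))) (Nat.shiftLeft (Nat.land p (nat_lit 65535)) (nat_lit 70)))) (Nat.land (Nat.shiftRight m (Nat.land (Nat.shiftRight m (Nat.land (Nat.shiftRight m (Nat.land (Nat.shiftRight (Nat.shiftRight m (Nat.land (Nat.shiftRight x (nat_lit 17)) (nat_lit 0x1ffff))) (nat_lit 34))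 (nat_lit 0x1ffff))) (nat_lit 0x1ffff))) (nat_lit 0x1ffff))) (Nat.shiftLeft (Nat.land (Nat.shiftRight p (nat_lit 16)) (nat_lit 65535)) (nat_lit 70))))⟩,
  rfl, rfl⟩
noncomputable def en129 : Ent := ⟨[nat_lit 10, nat_lit 8, nat_lit 5, nat_lit 2, nat_lit 8, nat_lit 0],
  fun K p w => ⟨fun m x s1 s2 s3 s4 za ac => (K (Nat.shiftRight p (nat_lit 6)) (Nat.add w (Nat.shiftLeft (Nat.land p (nat_lit 63)) (nat_lit 64)))).1 m (Nat.shiftRight m (Nat.land (Nat.shiftRight (Nat.shiftRight m (nat_lit 34)) (Nat.land (Nat.shiftRight m (Nat.land (Nat.shiftRight (Nat.shiftRight m (Nat.land x (nat_lit 0x1ffff))) (nat_lit 34)) (nat_lit 0x1ffff))) (nat_lit 0x1ffff))) (nat_lit 0x1ffff)))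
  (Nat.shiftRight m (Nat.land (Nat.shiftRight (Nat.shiftRight m (Nat.land x (nat_lit 0x1ffff))) (nat_lit 34)) (nat_lit 0x1ffff))) x s1 s2 (Nat.land (Nat.land za (Nat.shiftRight m (Nat.land (Nat.shiftRight (Nat.shiftRight m (Nat.land x (nat_lit 0x1ffff))) (nat_lit 34)) (nat_lit 0x1ffff)))) (Nat.shiftRight m (Nat.land (Nat.shiftRight (Nat.shiftRight m (nat_lit 34)) (Nat.land (Nat.shiftRight m (Nat.land (Nat.shiftRight (Nat.shiftRight m (Nat.land x (nat_lit 0x1ffff))) (nat_lit 34)) (nat_lit 0x1ffff))) (nat_lit 0x1ffff))) (nat_lit 0x1ffff)))) (Nat.add ac (Nat.land x (Nat.shiftLeft (Nat.land p (nat_lit 63)) (nat_lit 64))))⟩,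
  fun K p w => ⟨fun m x s1 s2 s3 s4 za ac => (K (Nat.shiftRight p (nat_lit 6)) (Nat.add w (Nat.shiftLeft (Nat.land p (nat_lit 63)) (nat_lit 64)))).1 m (Nat.shiftRight m (Nat.land (Nat.shiftRight (Nat.shiftRight m (nat_lit 34)) (Nat.land (Nat.shiftRight (Nat.shiftRight m (Nat.land (Nat.shiftRight (Nat.shiftRight m (Nat.land (Nat.shiftRight x (nat_lit 17)) (nat_lit 0x1ffff))) (nat_lit 34)) (nat_lit 0x1ffff)))
  (nat_lit 17)) (nat_lit 0x1ffff))) (nat_lit 0x1ffff))) (Nat.shiftRight m (Nat.land (Nat.shiftRight (Nat.shiftRight m (Nat.land (Nat.shiftRight x (nat_lit 17)) (nat_lit 0x1ffff))) (nat_lit 34)) (nat_lit 0x1ffff))) x s1 s2 (Nat.land (Nat.land za (Nat.shiftRight m (Nat.land (Nat.shiftRight (Nat.shiftRight m (Nat.land (Nat.shiftRight x (nat_lit 17)) (nat_lit 0x1ffff))) (nat_lit 34)) (nat_lit 0x1ffff))))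
  (Nat.shiftRight m (Nat.land (Nat.shiftRight (Nat.shiftRight m (nat_lit 34)) (Nat.land (Nat.shiftRight (Nat.shiftRight m (Nat.land (Nat.shiftRight (Nat.shiftRight m (Nat.land (Nat.shiftRight x (nat_lit 17)) (nat_lit 0x1ffff))) (nat_lit 34)) (nat_lit 0x1ffff))) (nat_lit 17)) (nat_lit 0x1ffff))) (nat_lit 0x1ffff)))) (Nat.add ac (Nat.land x (Nat.shiftLeft (Nat.land p (nat_lit 63)) (nat_lit 64))))⟩,
  rfl, rfl⟩
noncomputable def en130 : Ent := ⟨[nat_lit 8, nat_lit 3, nat_lit 7, nat_lit 10, nat_lit 16, nat_lit 5, nat_lit 16],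
  fun K p w => ⟨fun m x s1 s2 s3 s4 za ac => (K (Nat.shiftRight (Nat.shiftRight (Nat.shiftRight p (nat_lit 6)) (nat_lit 16)) (nat_lit 16)) (Nat.add (Nat.add (Nat.add w (Nat.shiftLeft (Nat.land p (nat_lit 63)) (nat_lit 64))) (Nat.shiftLeft (Nat.land (Nat.shiftRight p (nat_lit 6)) (nat_lit 65535)) (nat_lit 70))) (Nat.shiftLeft (Nat.land (Nat.shiftRight (Nat.shiftRight p (nat_lit 6)) (nat_lit 16)) (nat_lit 65535))
  (nat_lit 70)))).1 m (Nat.shiftRight m (Nat.land (Nat.shiftRight m (Nat.land (Nat.shiftRight (Nat.shiftRight m (Nat.land x (nat_lit 0x1ffff))) (nat_lit 34)) (nat_lit 0x1ffff))) (nat_lit 0x1ffff))) x s1 s2 s3 za (Nat.add (Nat.add (Nat.add ac (Nat.land (Nat.shiftRight m (Nat.land (Nat.shiftRight (Nat.shiftRight m (Nat.land x (nat_lit 0x1ffff))) (nat_lit 34)) (nat_lit 0x1ffff))) (Nat.shiftLeft (Nat.land p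
  (nat_lit 63)) (nat_lit 64)))) (Nat.land (Nat.shiftRight m (Nat.land (Nat.shiftRight (Nat.shiftRight m (Nat.land x (nat_lit 0x1ffff))) (nat_lit 34)) (nat_lit 0x1ffff))) (Nat.shiftLeft (Nat.land (Nat.shiftRight p (nat_lit 6)) (nat_lit 65535)) (nat_lit 70)))) (Nat.land (Nat.shiftRight m (Nat.land (Nat.shiftRight m (Nat.land (Nat.shiftRight (Nat.shiftRight m (Nat.land x (nat_lit 0x1ffff))) (nat_lit 34)) (nat_lit 0x1ffff))) (nat_lit 0x1ffff))) (Nat.shiftLeft (Nat.land (Nat.shiftRight (Nat.shiftRight p (nat_lit 6)) (nat_lit 16)) (nat_lit 65535)) (nat_lit 70))))⟩,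
  fun K p w => ⟨fun m x s1 s2 s3 s4 za ac => (K (Nat.shiftRight (Nat.shiftRight (Nat.shiftRight p (nat_lit 6)) (nat_lit 16)) (nat_lit 16)) (Nat.add (Nat.add (Nat.add w (Nat.shiftLeft (Nat.land p (nat_lit 63)) (nat_lit 64))) (Nat.shiftLeft (Nat.land (Nat.shiftRight p (nat_lit 6)) (nat_lit 65535)) (nat_lit 70))) (Nat.shiftLeft (Nat.land (Nat.shiftRight (Nat.shiftRight p (nat_lit 6)) (nat_lit 16)) (nat_lit 65535))
  (nat_lit 70)))).1 m (Nat.shiftRight m (Nat.land (Nat.shiftRight (Nat.shiftRight m (Nat.land (Nat.shiftRight (Nat.shiftRight m (Nat.land (Nat.shiftRight x (nat_lit 17)) (nat_lit 0x1ffff))) (nat_lit 34)) (nat_lit 0x1ffff))) (nat_lit 17)) (nat_lit 0x1ffff))) x s1 s2 s3 za (Nat.add (Nat.add (Nat.add ac (Nat.land (Nat.shiftRight m (Nat.land (Nat.shiftRight (Nat.shiftRight m (Nat.land (Nat.shiftRight x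
  (nat_lit 17)) (nat_lit 0x1ffff))) (nat_lit 34)) (nat_lit 0x1ffff))) (Nat.shiftLeft (Nat.land p (nat_lit 63)) (nat_lit 64)))) (Nat.land (Nat.lor (Nat.shiftRight m (Nat.land (Nat.shiftRight m (Nat.land (Nat.shiftRight (Nat.shiftRight m (Nat.land (Nat.shiftRight x (nat_lit 17)) (nat_lit 0x1ffff))) (nat_lit 34)) (nat_lit 0x1ffff))) (nat_lit 0x1ffff))) (Nat.shiftRight m (Nat.land (Nat.shiftRight (Nat.shiftRight m
  (Nat.land (Nat.shiftRight (Nat.shiftRight m (Nat.land (Nat.shiftRight x (nat_lit 17)) (nat_lit 0x1ffff))) (nat_lit 34)) (nat_lit 0x1ffff))) (nat_lit 34)) (nat_lit 0x1ffff)))) (Nat.shiftLeft (Nat.land (Nat.shiftRight p (nat_lit 6)) (nat_lit 65535)) (nat_lit 70)))) (Nat.land (Nat.lor (Nat.shiftRight m (Nat.land (Nat.shiftRight m (Nat.land (Nat.shiftRight (Nat.shiftRight m (Nat.land (Nat.shiftRight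
  (Nat.shiftRight m (Nat.land (Nat.shiftRight x (nat_lit 17)) (nat_lit 0x1ffff))) (nat_lit 34)) (nat_lit 0x1ffff))) (nat_lit 17)) (nat_lit 0x1ffff))) (nat_lit 0x1ffff))) (Nat.shiftRight m (Nat.land (Nat.shiftRight (Nat.shiftRight m (Nat.land (Nat.shiftRight (Nat.shiftRight m (Nat.land (Nat.shiftRight (Nat.shiftRight m (Nat.land (Nat.shiftRight x (nat_lit 17)) (nat_lit 0x1ffff))) (nat_lit 34)) (nat_lit 0x1ffff))) (nat_lit 17)) (nat_lit 0x1ffff))) (nat_lit 34)) (nat_lit 0x1ffff)))) (Nat.shiftLeft (Nat.land (Nat.shiftRight (Nat.shiftRight p (nat_lit 6)) (nat_lit 16)) (nat_lit 65535)) (nat_lit 70))))⟩,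
  rfl, rfl⟩
noncomputable def en131 : Ent := ⟨[nat_lit 8, nat_lit 3, nat_lit 13],
  fun K p w => ⟨fun m x s1 s2 s3 s4 za ac => (K p (Nat.add w (nat_lit 0x10000000000000000))).1 m (Nat.shiftRight m (Nat.land (Nat.shiftRight (Nat.shiftRight m (Nat.land x (nat_lit 0x1ffff))) (nat_lit 34)) (nat_lit 0x1ffff))) x s1 s2 s3 za (Nat.add ac (Nat.land (Nat.shiftRight m (Nat.land (Nat.shiftRight (Nat.shiftRight m (Nat.land x (nat_lit 0x1ffff))) (nat_lit 34)) (nat_lit 0x1ffff))) (nat_lit 0x10000000000000000)))⟩,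
  fun K p w => ⟨fun m x s1 s2 s3 s4 za ac => (K p (Nat.add w (nat_lit 0x10000000000000000))).1 m (Nat.shiftRight m (Nat.land (Nat.shiftRight (Nat.shiftRight m (Nat.land (Nat.shiftRight x (nat_lit 17)) (nat_lit 0x1ffff))) (nat_lit 34)) (nat_lit 0x1ffff))) x s1 s2 s3 za (Nat.add ac (Nat.land (Nat.shiftRight m (Nat.land (Nat.shiftRight (Nat.shiftRight m (Nat.land (Nat.shiftRight x (nat_lit 17)) (nat_lit 0x1ffff))) (nat_lit 34)) (nat_lit 0x1ffff))) (nat_lit 0x10000000000000000)))⟩,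
  rfl, rfl⟩
noncomputable def en132 : Ent := ⟨[nat_lit 9, nat_lit 8, nat_lit 4],
  fun K p w => ⟨fun m x s1 s2 s3 s4 za ac => (K p w).1 m (Nat.shiftRight m (Nat.land (Nat.shiftRight s1 (nat_lit 17)) (nat_lit 0x1ffff))) s1 s2 s3 s4 za ac⟩,
  fun K p w => ⟨fun m x s1 s2 s3 s4 za ac => (K p w).1 m (Nat.shiftRight m (Nat.land s1 (nat_lit 0x1ffff))) s1 s2 s3 s4 za ac⟩,
  rfl, rfl⟩
noncomputable def en133 : Ent := ⟨[nat_lit 14, nat_lit 11, nat_lit 12, nat_lit 8, nat_lit 3, nat_lit 11, nat_lit 2, nat_lit 11],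
  fun K p w => ⟨fun m x s1 s2 s3 s4 za ac => (K (Nat.shiftRight (Nat.shiftRight (Nat.shiftRight (Nat.shiftRight p (nat_lit 16)) (nat_lit 28)) (nat_lit 16)) (nat_lit 16)) (Nat.add (Nat.add (Nat.add (Nat.add w (Nat.shiftLeft (Nat.land p (nat_lit 65535)) (nat_lit 70))) (plA (Nat.shiftRight p (nat_lit 16)))) (Nat.shiftLeft (Nat.land (Nat.shiftRight (Nat.shiftRight p (nat_lit 16)) (nat_lit 28)) (nat_lit 65535))
  (nat_lit 70))) (Nat.shiftLeft (Nat.land (Nat.shiftRight (Nat.shiftRight (Nat.shiftRight p (nat_lit 16)) (nat_lit 28)) (nat_lit 16)) (nat_lit 65535)) (nat_lit 70)))).1 m (Nat.shiftRight m (Nat.land (Nat.shiftRight (Nat.shiftRight m (Nat.land x (nat_lit 0x1ffff))) (nat_lit 34)) (nat_lit 0x1ffff))) x s1 s2 s3 (Nat.land (Nat.land za x) (Nat.shiftRight m (Nat.land (Nat.shiftRight (Nat.shiftRight m (Nat.land x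
  (nat_lit 0x1ffff))) (nat_lit 34)) (nat_lit 0x1ffff)))) (Nat.add (Nat.add (Nat.add (Nat.add ac (Nat.land x (Nat.shiftLeft (Nat.land p (nat_lit 65535)) (nat_lit 70)))) (Nat.land x (plA (Nat.shiftRight p (nat_lit 16))))) (Nat.land (Nat.shiftRight m (Nat.land x (nat_lit 0x1ffff))) (Nat.shiftLeft (Nat.land (Nat.shiftRight (Nat.shiftRight p (nat_lit 16)) (nat_lit 28)) (nat_lit 65535)) (nat_lit 70)))) (Nat.land (Nat.shiftRight m (Nat.land (Nat.shiftRight (Nat.shiftRight m (Nat.land x (nat_lit 0x1ffff))) (nat_lit 34)) (nat_lit 0x1ffff))) (Nat.shiftLeft (Nat.land (Nat.shiftRight (Nat.shiftRight (Nat.shiftRight p (nat_lit 16)) (nat_lit 28)) (nat_lit 16)) (nat_lit 65535)) (nat_lit 70))))⟩,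
  fun K p w => ⟨fun m x s1 s2 s3 s4 za ac => (K (Nat.shiftRight (Nat.shiftRight (Nat.shiftRight (Nat.shiftRight p (nat_lit 16)) (nat_lit 28)) (nat_lit 16)) (nat_lit 16)) (Nat.add (Nat.add (Nat.succ (Nat.add w (Nat.shiftLeft (Nat.land p (nat_lit 65535)) (nat_lit 70)))) (Nat.shiftLeft (Nat.land (Nat.shiftRight (Nat.shiftRight p (nat_lit 16)) (nat_lit 28)) (nat_lit 65535)) (nat_lit 70))) (Nat.shiftLeft
  (Nat.land (Nat.shiftRight (Nat.shiftRight (Nat.shiftRight p (nat_lit 16)) (nat_lit 28)) (nat_lit 16)) (nat_lit 65535)) (nat_lit 70)))).1 m (Nat.shiftRight m (Nat.land (Nat.shiftRight (Nat.shiftRight m (Nat.land (Nat.shiftRight x (nat_lit 17)) (nat_lit 0x1ffff))) (nat_lit 34)) (nat_lit 0x1ffff))) x s1 s2 s3 (Nat.land (Nat.land za x) (Nat.shiftRight m (Nat.land (Nat.shiftRight (Nat.shiftRight m (Nat.land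
  (Nat.shiftRight x (nat_lit 17)) (nat_lit 0x1ffff))) (nat_lit 34)) (nat_lit 0x1ffff)))) (Nat.add (Nat.add (Nat.add ac (Nat.land (Nat.shiftRight m (Nat.land x (nat_lit 0x1ffff))) (Nat.shiftLeft (Nat.land p (nat_lit 65535)) (nat_lit 70)))) (Nat.land (Nat.shiftRight m (Nat.land (Nat.shiftRight m (Nat.land (Nat.shiftRight x (nat_lit 17)) (nat_lit 0x1ffff))) (nat_lit 0x1ffff))) (Nat.shiftLeft (Nat.land
  (Nat.shiftRight (Nat.shiftRight p (nat_lit 16)) (nat_lit 28)) (nat_lit 65535)) (nat_lit 70)))) (Nat.land (Nat.shiftRight m (Nat.land (Nat.shiftRight m (Nat.land (Nat.shiftRight (Nat.shiftRight m (Nat.land (Nat.shiftRight x (nat_lit 17)) (nat_lit 0x1ffff))) (nat_lit 34)) (nat_lit 0x1ffff))) (nat_lit 0x1ffff))) (Nat.shiftLeft (Nat.land (Nat.shiftRight (Nat.shiftRight (Nat.shiftRight p (nat_lit 16)) (nat_lit 28)) (nat_lit 16)) (nat_lit 65535)) (nat_lit 70))))⟩,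
  rfl, rfl⟩
noncomputable def en134 : Ent := ⟨[nat_lit 8, nat_lit 3, nat_lit 7, nat_lit 10, nat_lit 16, nat_lit 5, nat_lit 9, nat_lit 1, nat_lit 0, nat_lit 11],
  fun K p w => ⟨fun m x s1 s2 s3 s4 za ac => (K (Nat.shiftRight (Nat.shiftRight (Nat.shiftRight p (nat_lit 6)) (nat_lit 16)) (nat_lit 16)) (Nat.add (Nat.add (Nat.add w (Nat.shiftLeft (Nat.land p (nat_lit 63)) (nat_lit 64))) (Nat.shiftLeft (Nat.land (Nat.shiftRight p (nat_lit 6)) (nat_lit 65535)) (nat_lit 70))) (Nat.shiftLeft (Nat.land (Nat.shiftRight (Nat.shiftRight p (nat_lit 6)) (nat_lit 16)) (nat_lit 65535))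
  (nat_lit 70)))).1 m (Nat.shiftRight m (Nat.land (Nat.shiftRight (Nat.shiftRight m (nat_lit 34)) (Nat.land (Nat.shiftRight m (Nat.land (Nat.shiftRight (Nat.shiftRight m (nat_lit 34)) (Nat.land (Nat.shiftRight x (nat_lit 17)) (nat_lit 0x1ffff))) (nat_lit 0x1ffff))) (nat_lit 0x1ffff))) (nat_lit 0x1ffff))) s1 s2 s3 s3 (Nat.land (Nat.land za (Nat.shiftRight m (Nat.land (Nat.shiftRight (Nat.shiftRight m
  (nat_lit 34)) (Nat.land (Nat.shiftRight x (nat_lit 17)) (nat_lit 0x1ffff))) (nat_lit 0x1ffff)))) (Nat.shiftRight m (Nat.land (Nat.shiftRight (Nat.shiftRight m (nat_lit 34)) (Nat.land (Nat.shiftRight m (Nat.land (Nat.shiftRight (Nat.shiftRight m (nat_lit 34)) (Nat.land (Nat.shiftRight x (nat_lit 17)) (nat_lit 0x1ffff))) (nat_lit 0x1ffff))) (nat_lit 0x1ffff))) (nat_lit 0x1ffff)))) (Nat.add (Nat.add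
  (Nat.add ac (Nat.land (Nat.shiftRight m (Nat.land (Nat.shiftRight (Nat.shiftRight m (Nat.land x (nat_lit 0x1ffff))) (nat_lit 34)) (nat_lit 0x1ffff))) (Nat.shiftLeft (Nat.land p (nat_lit 63)) (nat_lit 64)))) (Nat.land (Nat.shiftRight m (Nat.land (Nat.shiftRight (Nat.shiftRight m (Nat.land x (nat_lit 0x1ffff))) (nat_lit 34)) (nat_lit 0x1ffff))) (Nat.shiftLeft (Nat.land (Nat.shiftRight p (nat_lit 6))
  (nat_lit 65535)) (nat_lit 70)))) (Nat.land (Nat.shiftRight m (Nat.land (Nat.shiftRight (Nat.shiftRight m (nat_lit 34)) (Nat.land (Nat.shiftRight m (Nat.land (Nat.shiftRight (Nat.shiftRight m (nat_lit 34)) (Nat.land (Nat.shiftRight x (nat_lit 17)) (nat_lit 0x1ffff))) (nat_lit 0x1ffff))) (nat_lit 0x1ffff))) (nat_lit 0x1ffff))) (Nat.shiftLeft (Nat.land (Nat.shiftRight (Nat.shiftRight p (nat_lit 6)) (nat_lit 16)) (nat_lit 65535)) (nat_lit 70))))⟩,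
  fun K p w => ⟨fun m x s1 s2 s3 s4 za ac => (K (Nat.shiftRight (Nat.shiftRight (Nat.shiftRight p (nat_lit 6)) (nat_lit 16)) (nat_lit 16)) (Nat.add (Nat.add (Nat.add w (Nat.shiftLeft (Nat.land p (nat_lit 63)) (nat_lit 64))) (Nat.shiftLeft (Nat.land (Nat.shiftRight p (nat_lit 6)) (nat_lit 65535)) (nat_lit 70))) (Nat.shiftLeft (Nat.land (Nat.shiftRight (Nat.shiftRight p (nat_lit 6)) (nat_lit 16)) (nat_lit 65535))
  (nat_lit 70)))).1 m (Nat.shiftRight m (Nat.land (Nat.shiftRight (Nat.shiftRight m (nat_lit 34)) (Nat.land (Nat.shiftRight (Nat.shiftRight m (Nat.land (Nat.shiftRight (Nat.shiftRight m (nat_lit 34)) (Nat.land x (nat_lit 0x1ffff))) (nat_lit 0x1ffff))) (nat_lit 17)) (nat_lit 0x1ffff))) (nat_lit 0x1ffff))) s1 s2 s3 s3 (Nat.land (Nat.land za (Nat.shiftRight m (Nat.land (Nat.shiftRight (Nat.shiftRight m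
  (nat_lit 34)) (Nat.land x (nat_lit 0x1ffff))) (nat_lit 0x1ffff)))) (Nat.shiftRight m (Nat.land (Nat.shiftRight (Nat.shiftRight m (nat_lit 34)) (Nat.land (Nat.shiftRight (Nat.shiftRight m (Nat.land (Nat.shiftRight (Nat.shiftRight m (nat_lit 34)) (Nat.land x (nat_lit 0x1ffff))) (nat_lit 0x1ffff))) (nat_lit 17)) (nat_lit 0x1ffff))) (nat_lit 0x1ffff)))) (Nat.add (Nat.add (Nat.add ac (Nat.land (Nat.shiftRight m
  (Nat.land (Nat.shiftRight (Nat.shiftRight m (Nat.land (Nat.shiftRight x (nat_lit 17)) (nat_lit 0x1ffff))) (nat_lit 34)) (nat_lit 0x1ffff))) (Nat.shiftLeft (Nat.land p (nat_lit 63)) (nat_lit 64)))) (Nat.land (Nat.lor (Nat.shiftRight m (Nat.land (Nat.shiftRight m (Nat.land (Nat.shiftRight (Nat.shiftRight m (Nat.land (Nat.shiftRight x (nat_lit 17)) (nat_lit 0x1ffff))) (nat_lit 34)) (nat_lit 0x1ffff)))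
  (nat_lit 0x1ffff))) (Nat.shiftRight m (Nat.land (Nat.shiftRight (Nat.shiftRight m (Nat.land (Nat.shiftRight (Nat.shiftRight m (Nat.land (Nat.shiftRight x (nat_lit 17)) (nat_lit 0x1ffff))) (nat_lit 34)) (nat_lit 0x1ffff))) (nat_lit 34)) (nat_lit 0x1ffff)))) (Nat.shiftLeft (Nat.land (Nat.shiftRight p (nat_lit 6)) (nat_lit 65535)) (nat_lit 70)))) (Nat.land (Nat.shiftRight m (Nat.land (Nat.shiftRight m
  (Nat.land (Nat.shiftRight (Nat.shiftRight m (nat_lit 34)) (Nat.land (Nat.shiftRight (Nat.shiftRight m (Nat.land (Nat.shiftRight (Nat.shiftRight m (nat_lit 34)) (Nat.land x (nat_lit 0x1ffff))) (nat_lit 0x1ffff))) (nat_lit 17)) (nat_lit 0x1ffff))) (nat_lit 0x1ffff))) (nat_lit 0x1ffff))) (Nat.shiftLeft (Nat.land (Nat.shiftRight (Nat.shiftRight p (nat_lit 6)) (nat_lit 16)) (nat_lit 65535)) (nat_lit 70))))⟩,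
  rfl, rfl⟩
noncomputable def en135 : Ent := ⟨[nat_lit 8, nat_lit 3, nat_lit 7, nat_lit 10, nat_lit 5, nat_lit 16, nat_lit 9, nat_lit 1],
  fun K p w => ⟨fun m x s1 s2 s3 s4 za ac => (K (Nat.shiftRight (Nat.shiftRight p (nat_lit 6)) (nat_lit 16)) (Nat.add (Nat.add w (Nat.shiftLeft (Nat.land p (nat_lit 63)) (nat_lit 64))) (Nat.shiftLeft (Nat.land (Nat.shiftRight p (nat_lit 6)) (nat_lit 65535)) (nat_lit 70)))).1 m (Nat.shiftRight m (Nat.land (Nat.shiftRight (Nat.shiftRight m (nat_lit 34)) (Nat.land (Nat.shiftRight x (nat_lit 17)) (nat_lit 0x1ffff)))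
  (nat_lit 0x1ffff))) s1 s2 s3 s3 (Nat.land za (Nat.shiftRight m (Nat.land (Nat.shiftRight (Nat.shiftRight m (nat_lit 34)) (Nat.land (Nat.shiftRight x (nat_lit 17)) (nat_lit 0x1ffff))) (nat_lit 0x1ffff)))) (Nat.add (Nat.add ac (Nat.land (Nat.shiftRight m (Nat.land (Nat.shiftRight (Nat.shiftRight m (Nat.land x (nat_lit 0x1ffff))) (nat_lit 34)) (nat_lit 0x1ffff))) (Nat.shiftLeft (Nat.land p (nat_lit 63)) (nat_lit 64)))) (Nat.land (Nat.shiftRight m (Nat.land (Nat.shiftRight m (Nat.land (Nat.shiftRight (Nat.shiftRight m (Nat.land x (nat_lit 0x1ffff))) (nat_lit 34)) (nat_lit 0x1ffff))) (nat_lit 0x1ffff))) (Nat.shiftLeft (Nat.land (Nat.shiftRight p (nat_lit 6)) (nat_lit 65535)) (nat_lit 70))))⟩,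
  fun K p w => ⟨fun m x s1 s2 s3 s4 za ac => (K (Nat.shiftRight (Nat.shiftRight p (nat_lit 6)) (nat_lit 16)) (Nat.add (Nat.add w (Nat.shiftLeft (Nat.land p (nat_lit 63)) (nat_lit 64))) (Nat.shiftLeft (Nat.land (Nat.shiftRight p (nat_lit 6)) (nat_lit 65535)) (nat_lit 70)))).1 m (Nat.shiftRight m (Nat.land (Nat.shiftRight (Nat.shiftRight m (nat_lit 34)) (Nat.land x (nat_lit 0x1ffff))) (nat_lit 0x1ffff))) s1 s2 s3 s3
  (Nat.land za (Nat.shiftRight m (Nat.land (Nat.shiftRight (Nat.shiftRight m (nat_lit 34)) (Nat.land x (nat_lit 0x1ffff))) (nat_lit 0x1ffff)))) (Nat.add (Nat.add ac (Nat.land (Nat.shiftRight m (Nat.land (Nat.shiftRight (Nat.shiftRight m (Nat.land (Nat.shiftRight x (nat_lit 17)) (nat_lit 0x1ffff))) (nat_lit 34)) (nat_lit 0x1ffff))) (Nat.shiftLeft (Nat.land p (nat_lit 63)) (nat_lit 64)))) (Nat.land (Nat.lor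
  (Nat.shiftRight m (Nat.land (Nat.shiftRight m (Nat.land (Nat.shiftRight (Nat.shiftRight m (Nat.land (Nat.shiftRight (Nat.shiftRight m (Nat.land (Nat.shiftRight x (nat_lit 17)) (nat_lit 0x1ffff))) (nat_lit 34)) (nat_lit 0x1ffff))) (nat_lit 17)) (nat_lit 0x1ffff))) (nat_lit 0x1ffff))) (Nat.shiftRight m (Nat.land (Nat.shiftRight (Nat.shiftRight m (Nat.land (Nat.shiftRight (Nat.shiftRight m (Nat.land (Nat.shiftRight (Nat.shiftRight m (Nat.land (Nat.shiftRight x (nat_lit 17)) (nat_lit 0x1ffff))) (nat_lit 34)) (nat_lit 0x1ffff))) (nat_lit 17)) (nat_lit 0x1ffff))) (nat_lit 34)) (nat_lit 0x1ffff)))) (Nat.shiftLeft (Nat.land (Nat.shiftRight p (nat_lit 6)) (nat_lit 65535)) (nat_lit 70))))⟩,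
  rfl, rfl⟩
noncomputable def en136 : Ent := ⟨[nat_lit 1, nat_lit 1, nat_lit 8, nat_lit 0],
  fun K p w => ⟨fun m x s1 s2 s3 s4 za ac => (K p w).1 m (Nat.shiftRight m (Nat.land (Nat.shiftRight (Nat.shiftRight m (nat_lit 34)) (Nat.land (Nat.shiftRight m (Nat.land (Nat.shiftRight (Nat.shiftRight m (nat_lit 34)) (Nat.land (Nat.shiftRight (Nat.shiftRight m (Nat.land (Nat.shiftRight (Nat.shiftRight m (nat_lit 34)) (Nat.land (Nat.shiftRight x (nat_lit 17)) (nat_lit 0x1ffff))) (nat_lit 0x1ffff)))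
  (nat_lit 17)) (nat_lit 0x1ffff))) (nat_lit 0x1ffff))) (nat_lit 0x1ffff))) (nat_lit 0x1ffff))) (Nat.shiftRight m (Nat.land (Nat.shiftRight (Nat.shiftRight m (nat_lit 34)) (Nat.land (Nat.shiftRight (Nat.shiftRight m (Nat.land (Nat.shiftRight (Nat.shiftRight m (nat_lit 34)) (Nat.land (Nat.shiftRight x (nat_lit 17)) (nat_lit 0x1ffff))) (nat_lit 0x1ffff))) (nat_lit 17)) (nat_lit 0x1ffff))) (nat_lit 0x1ffff))) s1 s2 s3
  (Nat.land (Nat.land (Nat.land za (Nat.shiftRight m (Nat.land (Nat.shiftRight (Nat.shiftRight m (nat_lit 34)) (Nat.land (Nat.shiftRight x (nat_lit 17)) (nat_lit 0x1ffff))) (nat_lit 0x1ffff)))) (Nat.shiftRight m (Nat.land (Nat.shiftRight (Nat.shiftRight m (nat_lit 34)) (Nat.land (Nat.shiftRight (Nat.shiftRight m (Nat.land (Nat.shiftRight (Nat.shiftRight m (nat_lit 34)) (Nat.land (Nat.shiftRight x (nat_lit 17))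
  (nat_lit 0x1ffff))) (nat_lit 0x1ffff))) (nat_lit 17)) (nat_lit 0x1ffff))) (nat_lit 0x1ffff)))) (Nat.shiftRight m (Nat.land (Nat.shiftRight (Nat.shiftRight m (nat_lit 34)) (Nat.land (Nat.shiftRight m (Nat.land (Nat.shiftRight (Nat.shiftRight m (nat_lit 34)) (Nat.land (Nat.shiftRight (Nat.shiftRight m (Nat.land (Nat.shiftRight (Nat.shiftRight m (nat_lit 34)) (Nat.land (Nat.shiftRight x (nat_lit 17)) (nat_lit 0x1ffff))) (nat_lit 0x1ffff))) (nat_lit 17)) (nat_lit 0x1ffff))) (nat_lit 0x1ffff))) (nat_lit 0x1ffff))) (nat_lit 0x1ffff)))) ac⟩,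
  fun K p w => ⟨fun m x s1 s2 s3 s4 za ac => (K p w).1 m (Nat.shiftRight m (Nat.land (Nat.shiftRight (Nat.shiftRight m (nat_lit 34)) (Nat.land (Nat.shiftRight (Nat.shiftRight m (Nat.land (Nat.shiftRight (Nat.shiftRight m (nat_lit 34)) (Nat.land (Nat.shiftRight m (Nat.land (Nat.shiftRight (Nat.shiftRight m (nat_lit 34)) (Nat.land x (nat_lit 0x1ffff))) (nat_lit 0x1ffff))) (nat_lit 0x1ffff))) (nat_lit 0x1ffff)))
  (nat_lit 17)) (nat_lit 0x1ffff))) (nat_lit 0x1ffff))) (Nat.shiftRight m (Nat.land (Nat.shiftRight (Nat.shiftRight m (nat_lit 34)) (Nat.land (Nat.shiftRight m (Nat.land (Nat.shiftRight (Nat.shiftRight m (nat_lit 34)) (Nat.land x (nat_lit 0x1ffff))) (nat_lit 0x1ffff))) (nat_lit 0x1ffff))) (nat_lit 0x1ffff))) s1 s2 s3 (Nat.land (Nat.land (Nat.land za (Nat.shiftRight m (Nat.land (Nat.shiftRight (Nat.shiftRight m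
  (nat_lit 34)) (Nat.land x (nat_lit 0x1ffff))) (nat_lit 0x1ffff)))) (Nat.shiftRight m (Nat.land (Nat.shiftRight (Nat.shiftRight m (nat_lit 34)) (Nat.land (Nat.shiftRight m (Nat.land (Nat.shiftRight (Nat.shiftRight m (nat_lit 34)) (Nat.land x (nat_lit 0x1ffff))) (nat_lit 0x1ffff))) (nat_lit 0x1ffff))) (nat_lit 0x1ffff)))) (Nat.shiftRight m (Nat.land (Nat.shiftRight (Nat.shiftRight m (nat_lit 34)) (Nat.land (Nat.shiftRight (Nat.shiftRight m (Nat.land (Nat.shiftRight (Nat.shiftRight m (nat_lit 34)) (Nat.land (Nat.shiftRight m (Nat.land (Nat.shiftRight (Nat.shiftRight m (nat_lit 34)) (Nat.land x (nat_lit 0x1ffff))) (nat_lit 0x1ffff))) (nat_lit 0x1ffff))) (nat_lit 0x1ffff))) (nat_lit 17)) (nat_lit 0x1ffff))) (nat_lit 0x1ffff)))) ac⟩,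
  rfl, rfl⟩
noncomputable def en137 : Ent := ⟨[nat_lit 8, nat_lit 6],
  fun K p w => ⟨fun m x s1 s2 s3 s4 za ac => (K p w).1 m (Nat.shiftRight m (Nat.land (Nat.shiftRight x (nat_lit 17)) (nat_lit 0x1ffff))) x s1 s2 s3 za ac⟩,
  fun K p w => ⟨fun m x s1 s2 s3 s4 za ac => (K p w).1 m (Nat.shiftRight m (Nat.land x (nat_lit 0x1ffff))) x s1 s2 s3 za ac⟩,
  rfl, rfl⟩
noncomputable def en138 : Ent := ⟨[nat_lit 9, nat_lit 4, nat_lit 11, nat_lit 2, nat_lit 8, nat_lit 0, nat_lit 9, nat_lit 1],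
  fun K p w => ⟨fun m x s1 s2 s3 s4 za ac => (K (Nat.shiftRight p (nat_lit 16)) (Nat.add w (Nat.shiftLeft (Nat.land p (nat_lit 65535)) (nat_lit 70)))).1 m (Nat.shiftRight m (Nat.land (Nat.shiftRight (Nat.shiftRight m (nat_lit 34)) (Nat.land (Nat.shiftRight (Nat.shiftRight m (Nat.land (Nat.shiftRight (Nat.shiftRight m (Nat.land (Nat.shiftRight s1 (nat_lit 17)) (nat_lit 0x1ffff))) (nat_lit 34)) (nat_lit 0x1ffff)))
  (nat_lit 17)) (nat_lit 0x1ffff))) (nat_lit 0x1ffff))) s2 s3 s4 s4 (Nat.land (Nat.land (Nat.land za (Nat.shiftRight m (Nat.land (Nat.shiftRight (Nat.shiftRight m (Nat.land (Nat.shiftRight s1 (nat_lit 17)) (nat_lit 0x1ffff))) (nat_lit 34)) (nat_lit 0x1ffff)))) (Nat.shiftRight m (Nat.land (Nat.shiftRight (Nat.shiftRight m (nat_lit 34)) (Nat.land (Nat.shiftRight m (Nat.land (Nat.shiftRight (Nat.shiftRight m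
  (Nat.land (Nat.shiftRight s1 (nat_lit 17)) (nat_lit 0x1ffff))) (nat_lit 34)) (nat_lit 0x1ffff))) (nat_lit 0x1ffff))) (nat_lit 0x1ffff)))) (Nat.shiftRight m (Nat.land (Nat.shiftRight (Nat.shiftRight m (nat_lit 34)) (Nat.land (Nat.shiftRight (Nat.shiftRight m (Nat.land (Nat.shiftRight (Nat.shiftRight m (Nat.land (Nat.shiftRight s1 (nat_lit 17)) (nat_lit 0x1ffff))) (nat_lit 34)) (nat_lit 0x1ffff))) (nat_lit 17)) (nat_lit 0x1ffff))) (nat_lit 0x1ffff)))) (Nat.add ac (Nat.land (Nat.shiftRight m (Nat.land (Nat.shiftRight s1 (nat_lit 17)) (nat_lit 0x1ffff))) (Nat.shiftLeft (Nat.land p (nat_lit 65535)) (nat_lit 70))))⟩,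
  fun K p w => ⟨fun m x s1 s2 s3 s4 za ac => (K (Nat.shiftRight p (nat_lit 16)) (Nat.add w (Nat.shiftLeft (Nat.land p (nat_lit 65535)) (nat_lit 70)))).1 m (Nat.shiftRight m (Nat.land (Nat.shiftRight (Nat.shiftRight m (nat_lit 34)) (Nat.land (Nat.shiftRight m (Nat.land (Nat.shiftRight (Nat.shiftRight m (Nat.land s1 (nat_lit 0x1ffff))) (nat_lit 34)) (nat_lit 0x1ffff))) (nat_lit 0x1ffff))) (nat_lit 0x1ffff))) s2 s3 s4 s4
  (Nat.land (Nat.land (Nat.land za (Nat.shiftRight m (Nat.land (Nat.shiftRight (Nat.shiftRight m (Nat.land s1 (nat_lit 0x1ffff))) (nat_lit 34)) (nat_lit 0x1ffff)))) (Nat.shiftRight m (Nat.land (Nat.shiftRight (Nat.shiftRight m (nat_lit 34)) (Nat.land (Nat.shiftRight (Nat.shiftRight m (Nat.land (Nat.shiftRight (Nat.shiftRight m (Nat.land s1 (nat_lit 0x1ffff))) (nat_lit 34)) (nat_lit 0x1ffff))) (nat_lit 17))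
  (nat_lit 0x1ffff))) (nat_lit 0x1ffff)))) (Nat.shiftRight m (Nat.land (Nat.shiftRight (Nat.shiftRight m (nat_lit 34)) (Nat.land (Nat.shiftRight m (Nat.land (Nat.shiftRight (Nat.shiftRight m (Nat.land s1 (nat_lit 0x1ffff))) (nat_lit 34)) (nat_lit 0x1ffff))) (nat_lit 0x1ffff))) (nat_lit 0x1ffff)))) (Nat.add ac (Nat.land (Nat.shiftRight m (Nat.land (Nat.shiftRight m (Nat.land s1 (nat_lit 0x1ffff))) (nat_lit 0x1ffff))) (Nat.shiftLeft (Nat.land p (nat_lit 65535)) (nat_lit 70))))⟩,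
  rfl, rfl⟩
noncomputable def en139 : Ent := ⟨[nat_lit 9, nat_lit 4, nat_lit 11, nat_lit 2, nat_lit 1, nat_lit 11],
  fun K p w => ⟨fun m x s1 s2 s3 s4 za ac => (K (Nat.shiftRight (Nat.shiftRight p (nat_lit 16)) (nat_lit 16)) (Nat.add (Nat.add w (Nat.shiftLeft (Nat.land p (nat_lit 65535)) (nat_lit 70))) (Nat.shiftLeft (Nat.land (Nat.shiftRight p (nat_lit 16)) (nat_lit 65535)) (nat_lit 70)))).1 m (Nat.shiftRight m (Nat.land (Nat.shiftRight (Nat.shiftRight m (nat_lit 34)) (Nat.land (Nat.shiftRight (Nat.shiftRight m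
  (Nat.land (Nat.shiftRight (Nat.shiftRight m (Nat.land (Nat.shiftRight s1 (nat_lit 17)) (nat_lit 0x1ffff))) (nat_lit 34)) (nat_lit 0x1ffff))) (nat_lit 17)) (nat_lit 0x1ffff))) (nat_lit 0x1ffff))) s2 s3 s4 s4 (Nat.land (Nat.land za (Nat.shiftRight m (Nat.land (Nat.shiftRight (Nat.shiftRight m (Nat.land (Nat.shiftRight s1 (nat_lit 17)) (nat_lit 0x1ffff))) (nat_lit 34)) (nat_lit 0x1ffff)))) (Nat.shiftRight m
  (Nat.land (Nat.shiftRight (Nat.shiftRight m (nat_lit 34)) (Nat.land (Nat.shiftRight (Nat.shiftRight m (Nat.land (Nat.shiftRight (Nat.shiftRight m (Nat.land (Nat.shiftRight s1 (nat_lit 17)) (nat_lit 0x1ffff))) (nat_lit 34)) (nat_lit 0x1ffff))) (nat_lit 17)) (nat_lit 0x1ffff))) (nat_lit 0x1ffff)))) (Nat.add (Nat.add ac (Nat.land (Nat.shiftRight m (Nat.land (Nat.shiftRight s1 (nat_lit 17)) (nat_lit 0x1ffff)))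
  (Nat.shiftLeft (Nat.land p (nat_lit 65535)) (nat_lit 70)))) (Nat.land (Nat.shiftRight m (Nat.land (Nat.shiftRight (Nat.shiftRight m (nat_lit 34)) (Nat.land (Nat.shiftRight (Nat.shiftRight m (Nat.land (Nat.shiftRight (Nat.shiftRight m (Nat.land (Nat.shiftRight s1 (nat_lit 17)) (nat_lit 0x1ffff))) (nat_lit 34)) (nat_lit 0x1ffff))) (nat_lit 17)) (nat_lit 0x1ffff))) (nat_lit 0x1ffff))) (Nat.shiftLeft (Nat.land (Nat.shiftRight p (nat_lit 16)) (nat_lit 65535)) (nat_lit 70))))⟩,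
  fun K p w => ⟨fun m x s1 s2 s3 s4 za ac => (K (Nat.shiftRight (Nat.shiftRight p (nat_lit 16)) (nat_lit 16)) (Nat.add (Nat.add w (Nat.shiftLeft (Nat.land p (nat_lit 65535)) (nat_lit 70))) (Nat.shiftLeft (Nat.land (Nat.shiftRight p (nat_lit 16)) (nat_lit 65535)) (nat_lit 70)))).1 m (Nat.shiftRight m (Nat.land (Nat.shiftRight (Nat.shiftRight m (nat_lit 34)) (Nat.land (Nat.shiftRight m (Nat.land (Nat.shiftRight
  (Nat.shiftRight m (Nat.land s1 (nat_lit 0x1ffff))) (nat_lit 34)) (nat_lit 0x1ffff))) (nat_lit 0x1ffff))) (nat_lit 0x1ffff))) s2 s3 s4 s4 (Nat.land (Nat.land za (Nat.shiftRight m (Nat.land (Nat.shiftRight (Nat.shiftRight m (Nat.land s1 (nat_lit 0x1ffff))) (nat_lit 34)) (nat_lit 0x1ffff)))) (Nat.shiftRight m (Nat.land (Nat.shiftRight (Nat.shiftRight m (nat_lit 34)) (Nat.land (Nat.shiftRight m (Nat.land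
  (Nat.shiftRight (Nat.shiftRight m (Nat.land s1 (nat_lit 0x1ffff))) (nat_lit 34)) (nat_lit 0x1ffff))) (nat_lit 0x1ffff))) (nat_lit 0x1ffff)))) (Nat.add (Nat.add ac (Nat.land (Nat.shiftRight m (Nat.land (Nat.shiftRight m (Nat.land s1 (nat_lit 0x1ffff))) (nat_lit 0x1ffff))) (Nat.shiftLeft (Nat.land p (nat_lit 65535)) (nat_lit 70)))) (Nat.land (Nat.shiftRight m (Nat.land (Nat.shiftRight m (Nat.land (Nat.shiftRight (Nat.shiftRight m (nat_lit 34)) (Nat.land (Nat.shiftRight m (Nat.land (Nat.shiftRight (Nat.shiftRight m (Nat.land s1 (nat_lit 0x1ffff))) (nat_lit 34)) (nat_lit 0x1ffff))) (nat_lit 0x1ffff))) (nat_lit 0x1ffff))) (nat_lit 0x1ffff))) (Nat.shiftLeft (Nat.land (Nat.shiftRight p (nat_lit 16)) (nat_lit 65535)) (nat_lit 70))))⟩,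
  rfl, rfl⟩
noncomputable def en140 : Ent := ⟨[nat_lit 8, nat_lit 4, nat_lit 11, nat_lit 9],
  fun K p w => ⟨fun m x s1 s2 s3 s4 za ac => (K (Nat.shiftRight p (nat_lit 16)) (Nat.add w (Nat.shiftLeft (Nat.land p (nat_lit 65535)) (nat_lit 70)))).1 m x s1 s2 s3 s3 za (Nat.add ac (Nat.land (Nat.shiftRight m (Nat.land (Nat.shiftRight x (nat_lit 17)) (nat_lit 0x1ffff))) (Nat.shiftLeft (Nat.land p (nat_lit 65535)) (nat_lit 70))))⟩,
  fun K p w => ⟨fun m x s1 s2 s3 s4 za ac => (K (Nat.shiftRight p (nat_lit 16)) (Nat.add w (Nat.shiftLeft (Nat.land p (nat_lit 65535)) (nat_lit 70)))).1 m x s1 s2 s3 s3 za (Nat.add ac (Nat.land (Nat.shiftRight m (Nat.land (Nat.shiftRight m (Nat.land x (nat_lit 0x1ffff))) (nat_lit 0x1ffff))) (Nat.shiftLeft (Nat.land p (nat_lit 65535)) (nat_lit 70))))⟩,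
  rfl, rfl⟩
noncomputable def en141 : Ent := ⟨[nat_lit 9, nat_lit 2, nat_lit 0],
  fun K p w => ⟨fun m x s1 s2 s3 s4 za ac => (K p w).1 m (Nat.shiftRight m (Nat.land (Nat.shiftRight (Nat.shiftRight m (nat_lit 34)) (Nat.land (Nat.shiftRight m (Nat.land (Nat.shiftRight s1 (nat_lit 34)) (nat_lit 0x1ffff))) (nat_lit 0x1ffff))) (nat_lit 0x1ffff))) s2 s3 s4 s4 (Nat.land (Nat.land za (Nat.shiftRight m (Nat.land (Nat.shiftRight s1 (nat_lit 34)) (nat_lit 0x1ffff)))) (Nat.shiftRight m (Nat.land (Nat.shiftRight (Nat.shiftRight m (nat_lit 34)) (Nat.land (Nat.shiftRight m (Nat.land (Nat.shiftRight s1 (nat_lit 34)) (nat_lit 0x1ffff))) (nat_lit 0x1ffff))) (nat_lit 0x1ffff)))) ac⟩,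
  fun K p w => ⟨fun m x s1 s2 s3 s4 za ac => (K p w).1 m (Nat.shiftRight m (Nat.land (Nat.shiftRight (Nat.shiftRight m (nat_lit 34)) (Nat.land (Nat.shiftRight (Nat.shiftRight m (Nat.land (Nat.shiftRight s1 (nat_lit 34)) (nat_lit 0x1ffff))) (nat_lit 17)) (nat_lit 0x1ffff))) (nat_lit 0x1ffff))) s2 s3 s4 s4 (Nat.land (Nat.land za (Nat.shiftRight m (Nat.land (Nat.shiftRight s1 (nat_lit 34)) (nat_lit 0x1ffff)))) (Nat.shiftRight m (Nat.land (Nat.shiftRight (Nat.shiftRight m (nat_lit 34)) (Nat.land (Nat.shiftRight (Nat.shiftRight m (Nat.land (Nat.shiftRight s1 (nat_lit 34)) (nat_lit 0x1ffff))) (nat_lit 17)) (nat_lit 0x1ffff))) (nat_lit 0x1ffff)))) ac⟩,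
  rfl, rfl⟩
noncomputable def en142 : Ent := ⟨[nat_lit 7, nat_lit 10, nat_lit 6],
  fun K p w => ⟨fun m x s1 s2 s3 s4 za ac => (K (Nat.shiftRight p (nat_lit 6)) (Nat.add w (Nat.shiftLeft (Nat.land p (nat_lit 63)) (nat_lit 64)))).1 m (Nat.shiftRight m (Nat.land (Nat.shiftRight (Nat.shiftRight m (Nat.land (Nat.shiftRight x (nat_lit 34)) (nat_lit 0x1ffff))) (nat_lit 17)) (nat_lit 0x1ffff))) s1 s2 s3 s4 za (Nat.add ac (Nat.land (Nat.shiftRight m (Nat.land (Nat.shiftRight x (nat_lit 34)) (nat_lit 0x1ffff))) (Nat.shiftLeft (Nat.land p (nat_lit 63)) (nat_lit 64))))⟩,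
  fun K p w => ⟨fun m x s1 s2 s3 s4 za ac => (K (Nat.shiftRight p (nat_lit 6)) (Nat.add w (Nat.shiftLeft (Nat.land p (nat_lit 63)) (nat_lit 64)))).1 m (Nat.shiftRight m (Nat.land (Nat.shiftRight m (Nat.land (Nat.shiftRight x (nat_lit 34)) (nat_lit 0x1ffff))) (nat_lit 0x1ffff))) s1 s2 s3 s4 za (Nat.add ac (Nat.land (Nat.shiftRight m (Nat.land (Nat.shiftRight x (nat_lit 34)) (nat_lit 0x1ffff))) (Nat.shiftLeft (Nat.land p (nat_lit 63)) (nat_lit 64))))⟩,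
  rfl, rfl⟩
noncomputable def en143 : Ent := ⟨[nat_lit 7, nat_lit 5, nat_lit 12],
  fun K p w => ⟨fun m x s1 s2 s3 s4 za ac => (K (Nat.shiftRight p (nat_lit 28)) (Nat.add w (plA p))).1 m (Nat.shiftRight m (Nat.land (Nat.shiftRight m (Nat.land (Nat.shiftRight x (nat_lit 34)) (nat_lit 0x1ffff))) (nat_lit 0x1ffff))) s1 s2 s3 s4 za (Nat.add ac (Nat.land (Nat.shiftRight m (Nat.land (Nat.shiftRight m (Nat.land (Nat.shiftRight x (nat_lit 34)) (nat_lit 0x1ffff))) (nat_lit 0x1ffff))) (plA p)))⟩,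
  fun K p w => ⟨fun m x s1 s2 s3 s4 za ac => (K (Nat.shiftRight p (nat_lit 28)) (Nat.succ w)).1 m (Nat.shiftRight m (Nat.land (Nat.shiftRight (Nat.shiftRight m (Nat.land (Nat.shiftRight x (nat_lit 34)) (nat_lit 0x1ffff))) (nat_lit 17)) (nat_lit 0x1ffff))) s1 s2 s3 s4 za ac⟩,
  rfl, rfl⟩
noncomputable def en144 : Ent := ⟨[nat_lit 8, nat_lit 3, nat_lit 12, nat_lit 12, nat_lit 2],
  fun K p w => ⟨fun m x s1 s2 s3 s4 za ac => (K (Nat.shiftRight (Nat.shiftRight p (nat_lit 28)) (nat_lit 28)) (Nat.add (Nat.add w (plA p)) (plA (Nat.shiftRight p (nat_lit 28))))).1 m (Nat.shiftRight m (Nat.land (Nat.shiftRight (Nat.shiftRight m (Nat.land x (nat_lit 0x1ffff))) (nat_lit 34)) (nat_lit 0x1ffff))) x s1 s2 s3 (Nat.land za (Nat.shiftRight m (Nat.land (Nat.shiftRight (Nat.shiftRight m (Nat.land x (nat_lit 0x1ffff))) (nat_lit 34)) (nat_lit 0x1ffff)))) (Nat.add (Nat.add ac (Nat.land (Nat.shiftRight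 m (Nat.land x (nat_lit 0x1ffff))) (plA p))) (Nat.land (Nat.shiftRight m (Nat.land x (nat_lit 0x1ffff))) (plA (Nat.shiftRight p (nat_lit 28)))))⟩,
  fun K p w => ⟨fun m x s1 s2 s3 s4 za ac => (K (Nat.shiftRight (Nat.shiftRight p (nat_lit 28)) (nat_lit 28)) (Nat.succ (Nat.succ w))).1 m (Nat.shiftRight m (Nat.land (Nat.shiftRight (Nat.shiftRight m (Nat.land (Nat.shiftRight x (nat_lit 17)) (nat_lit 0x1ffff))) (nat_lit 34)) (nat_lit 0x1ffff))) x s1 s2 s3 (Nat.land za (Nat.shiftRight m (Nat.land (Nat.shiftRight (Nat.shiftRight m (Nat.land (Nat.shiftRight x (nat_lit 17)) (nat_lit 0x1ffff))) (nat_lit 34)) (nat_lit 0x1ffff)))) ac⟩,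
  rfl, rfl⟩
noncomputable def en145 : Ent := ⟨[nat_lit 9, nat_lit 4, nat_lit 11, nat_lit 2, nat_lit 1, nat_lit 8, nat_lit 3, nat_lit 11, nat_lit 2, nat_lit 4, nat_lit 11, nat_lit 9],
  fun K p w => ⟨fun m x s1 s2 s3 s4 za ac => (K (Nat.shiftRight (Nat.shiftRight (Nat.shiftRight p (nat_lit 16)) (nat_lit 16)) (nat_lit 16)) (Nat.add (Nat.add (Nat.add w (Nat.shiftLeft (Nat.land p (nat_lit 65535)) (nat_lit 70))) (Nat.shiftLeft (Nat.land (Nat.shiftRight p (nat_lit 16)) (nat_lit 65535)) (nat_lit 70))) (Nat.shiftLeft (Nat.land (Nat.shiftRight (Nat.shiftRight p (nat_lit 16)) (nat_lit 16))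
  (nat_lit 65535)) (nat_lit 70)))).1 m (Nat.shiftRight m (Nat.land (Nat.shiftRight (Nat.shiftRight m (nat_lit 34)) (Nat.land (Nat.shiftRight (Nat.shiftRight m (Nat.land (Nat.shiftRight (Nat.shiftRight m (Nat.land (Nat.shiftRight s1 (nat_lit 17)) (nat_lit 0x1ffff))) (nat_lit 34)) (nat_lit 0x1ffff))) (nat_lit 17)) (nat_lit 0x1ffff))) (nat_lit 0x1ffff))) s2 s3 s4 s4 (Nat.land (Nat.land (Nat.land za (Nat.shiftRight m
  (Nat.land (Nat.shiftRight (Nat.shiftRight m (Nat.land (Nat.shiftRight s1 (nat_lit 17)) (nat_lit 0x1ffff))) (nat_lit 34)) (nat_lit 0x1ffff)))) (Nat.shiftRight m (Nat.land (Nat.shiftRight (Nat.shiftRight m (nat_lit 34)) (Nat.land (Nat.shiftRight (Nat.shiftRight m (Nat.land (Nat.shiftRight (Nat.shiftRight m (Nat.land (Nat.shiftRight s1 (nat_lit 17)) (nat_lit 0x1ffff))) (nat_lit 34)) (nat_lit 0x1ffff)))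
  (nat_lit 17)) (nat_lit 0x1ffff))) (nat_lit 0x1ffff)))) (Nat.shiftRight m (Nat.land (Nat.shiftRight (Nat.shiftRight m (Nat.land (Nat.shiftRight m (Nat.land (Nat.shiftRight (Nat.shiftRight m (nat_lit 34)) (Nat.land (Nat.shiftRight (Nat.shiftRight m (Nat.land (Nat.shiftRight (Nat.shiftRight m (Nat.land (Nat.shiftRight s1 (nat_lit 17)) (nat_lit 0x1ffff))) (nat_lit 34)) (nat_lit 0x1ffff))) (nat_lit 17))
  (nat_lit 0x1ffff))) (nat_lit 0x1ffff))) (nat_lit 0x1ffff))) (nat_lit 34)) (nat_lit 0x1ffff)))) (Nat.add (Nat.add (Nat.add ac (Nat.land (Nat.shiftRight m (Nat.land (Nat.shiftRight s1 (nat_lit 17)) (nat_lit 0x1ffff))) (Nat.shiftLeft (Nat.land p (nat_lit 65535)) (nat_lit 70)))) (Nat.land (Nat.shiftRight m (Nat.land (Nat.shiftRight m (Nat.land (Nat.shiftRight (Nat.shiftRight m (nat_lit 34)) (Nat.land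
  (Nat.shiftRight (Nat.shiftRight m (Nat.land (Nat.shiftRight (Nat.shiftRight m (Nat.land (Nat.shiftRight s1 (nat_lit 17)) (nat_lit 0x1ffff))) (nat_lit 34)) (nat_lit 0x1ffff))) (nat_lit 17)) (nat_lit 0x1ffff))) (nat_lit 0x1ffff))) (nat_lit 0x1ffff))) (Nat.shiftLeft (Nat.land (Nat.shiftRight p (nat_lit 16)) (nat_lit 65535)) (nat_lit 70)))) (Nat.land (Nat.shiftRight m (Nat.land (Nat.shiftRight (Nat.shiftRight m
  (Nat.land (Nat.shiftRight (Nat.shiftRight m (Nat.land (Nat.shiftRight m (Nat.land (Nat.shiftRight (Nat.shiftRight m (nat_lit 34)) (Nat.land (Nat.shiftRight (Nat.shiftRight m (Nat.land (Nat.shiftRight (Nat.shiftRight m (Nat.land (Nat.shiftRight s1 (nat_lit 17)) (nat_lit 0x1ffff))) (nat_lit 34)) (nat_lit 0x1ffff))) (nat_lit 17)) (nat_lit 0x1ffff))) (nat_lit 0x1ffff))) (nat_lit 0x1ffff))) (nat_lit 34)) (nat_lit 0x1ffff))) (nat_lit 17)) (nat_lit 0x1ffff))) (Nat.shiftLeft (Nat.land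 (Nat.shiftRight (Nat.shiftRight p (nat_lit 16)) (nat_lit 16)) (nat_lit 65535)) (nat_lit 70))))⟩,
  fun K p w => ⟨fun m x s1 s2 s3 s4 za ac => (K (Nat.shiftRight (Nat.shiftRight (Nat.shiftRight p (nat_lit 16)) (nat_lit 16)) (nat_lit 16)) (Nat.add (Nat.add (Nat.add w (Nat.shiftLeft (Nat.land p (nat_lit 65535)) (nat_lit 70))) (Nat.shiftLeft (Nat.land (Nat.shiftRight p (nat_lit 16)) (nat_lit 65535)) (nat_lit 70))) (Nat.shiftLeft (Nat.land (Nat.shiftRight (Nat.shiftRight p (nat_lit 16)) (nat_lit 16))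
  (nat_lit 65535)) (nat_lit 70)))).1 m (Nat.shiftRight m (Nat.land (Nat.shiftRight (Nat.shiftRight m (nat_lit 34)) (Nat.land (Nat.shiftRight m (Nat.land (Nat.shiftRight (Nat.shiftRight m (Nat.land s1 (nat_lit 0x1ffff))) (nat_lit 34)) (nat_lit 0x1ffff))) (nat_lit 0x1ffff))) (nat_lit 0x1ffff))) s2 s3 s4 s4 (Nat.land (Nat.land (Nat.land za (Nat.shiftRight m (Nat.land (Nat.shiftRight (Nat.shiftRight m
  (Nat.land s1 (nat_lit 0x1ffff))) (nat_lit 34)) (nat_lit 0x1ffff)))) (Nat.shiftRight m (Nat.land (Nat.shiftRight (Nat.shiftRight m (nat_lit 34)) (Nat.land (Nat.shiftRight m (Nat.land (Nat.shiftRight (Nat.shiftRight m (Nat.land s1 (nat_lit 0x1ffff))) (nat_lit 34)) (nat_lit 0x1ffff))) (nat_lit 0x1ffff))) (nat_lit 0x1ffff)))) (Nat.shiftRight m (Nat.land (Nat.shiftRight (Nat.shiftRight m (Nat.land (Nat.shiftRight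
  (Nat.shiftRight m (Nat.land (Nat.shiftRight (Nat.shiftRight m (nat_lit 34)) (Nat.land (Nat.shiftRight m (Nat.land (Nat.shiftRight (Nat.shiftRight m (Nat.land s1 (nat_lit 0x1ffff))) (nat_lit 34)) (nat_lit 0x1ffff))) (nat_lit 0x1ffff))) (nat_lit 0x1ffff))) (nat_lit 17)) (nat_lit 0x1ffff))) (nat_lit 34)) (nat_lit 0x1ffff)))) (Nat.add (Nat.add (Nat.add ac (Nat.land (Nat.shiftRight m (Nat.land (Nat.shiftRight m
  (Nat.land s1 (nat_lit 0x1ffff))) (nat_lit 0x1ffff))) (Nat.shiftLeft (Nat.land p (nat_lit 65535)) (nat_lit 70)))) (Nat.land (Nat.shiftRight m (Nat.land (Nat.shiftRight m (Nat.land (Nat.shiftRight (Nat.shiftRight m (Nat.land (Nat.shiftRight (Nat.shiftRight m (nat_lit 34)) (Nat.land (Nat.shiftRight m (Nat.land (Nat.shiftRight (Nat.shiftRight m (Nat.land s1 (nat_lit 0x1ffff))) (nat_lit 34)) (nat_lit 0x1ffff)))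
  (nat_lit 0x1ffff))) (nat_lit 0x1ffff))) (nat_lit 17)) (nat_lit 0x1ffff))) (nat_lit 0x1ffff))) (Nat.shiftLeft (Nat.land (Nat.shiftRight p (nat_lit 16)) (nat_lit 65535)) (nat_lit 70)))) (Nat.land (Nat.shiftRight m (Nat.land (Nat.shiftRight m (Nat.land (Nat.shiftRight m (Nat.land (Nat.shiftRight (Nat.shiftRight m (Nat.land (Nat.shiftRight (Nat.shiftRight m (Nat.land (Nat.shiftRight (Nat.shiftRight m
  (nat_lit 34)) (Nat.land (Nat.shiftRight m (Nat.land (Nat.shiftRight (Nat.shiftRight m (Nat.land s1 (nat_lit 0x1ffff))) (nat_lit 34)) (nat_lit 0x1ffff))) (nat_lit 0x1ffff))) (nat_lit 0x1ffff))) (nat_lit 17)) (nat_lit 0x1ffff))) (nat_lit 34)) (nat_lit 0x1ffff))) (nat_lit 0x1ffff))) (nat_lit 0x1ffff))) (Nat.shiftLeft (Nat.land (Nat.shiftRight (Nat.shiftRight p (nat_lit 16)) (nat_lit 16)) (nat_lit 65535)) (nat_lit 70))))⟩,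
  rfl, rfl⟩
noncomputable def en146 : Ent := ⟨[nat_lit 9, nat_lit 4, nat_lit 7, nat_lit 10, nat_lit 16, nat_lit 5],
  fun K p w => ⟨fun m x s1 s2 s3 s4 za ac => (K (Nat.shiftRight (Nat.shiftRight p (nat_lit 6)) (nat_lit 16)) (Nat.add (Nat.add w (Nat.shiftLeft (Nat.land p (nat_lit 63)) (nat_lit 64))) (Nat.shiftLeft (Nat.land (Nat.shiftRight p (nat_lit 6)) (nat_lit 65535)) (nat_lit 70)))).1 m (Nat.shiftRight m (Nat.land (Nat.shiftRight m (Nat.land (Nat.shiftRight (Nat.shiftRight m (Nat.land (Nat.shiftRight s1 (nat_lit 17))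
  (nat_lit 0x1ffff))) (nat_lit 34)) (nat_lit 0x1ffff))) (nat_lit 0x1ffff))) s2 s3 s4 s4 za (Nat.add (Nat.add ac (Nat.land (Nat.shiftRight m (Nat.land (Nat.shiftRight (Nat.shiftRight m (Nat.land (Nat.shiftRight s1 (nat_lit 17)) (nat_lit 0x1ffff))) (nat_lit 34)) (nat_lit 0x1ffff))) (Nat.shiftLeft (Nat.land p (nat_lit 63)) (nat_lit 64)))) (Nat.land (Nat.shiftRight m (Nat.land (Nat.shiftRight (Nat.shiftRight m (Nat.land (Nat.shiftRight s1 (nat_lit 17)) (nat_lit 0x1ffff))) (nat_lit 34)) (nat_lit 0x1ffff))) (Nat.shiftLeft (Nat.land (Nat.shiftRight p (nat_lit 6)) (nat_lit 65535)) (nat_lit 70))))⟩,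
  fun K p w => ⟨fun m x s1 s2 s3 s4 za ac => (K (Nat.shiftRight (Nat.shiftRight p (nat_lit 6)) (nat_lit 16)) (Nat.add (Nat.add w (Nat.shiftLeft (Nat.land p (nat_lit 63)) (nat_lit 64))) (Nat.shiftLeft (Nat.land (Nat.shiftRight p (nat_lit 6)) (nat_lit 65535)) (nat_lit 70)))).1 m (Nat.shiftRight m (Nat.land (Nat.shiftRight (Nat.shiftRight m (Nat.land (Nat.shiftRight (Nat.shiftRight m (Nat.land s1 (nat_lit 0x1ffff)))
  (nat_lit 34)) (nat_lit 0x1ffff))) (nat_lit 17)) (nat_lit 0x1ffff))) s2 s3 s4 s4 za (Nat.add (Nat.add ac (Nat.land (Nat.shiftRight m (Nat.land (Nat.shiftRight (Nat.shiftRight m (Nat.land s1 (nat_lit 0x1ffff))) (nat_lit 34)) (nat_lit 0x1ffff))) (Nat.shiftLeft (Nat.land p (nat_lit 63)) (nat_lit 64)))) (Nat.land (Nat.lor (Nat.shiftRight m (Nat.land (Nat.shiftRight m (Nat.land (Nat.shiftRight (Nat.shiftRight m (Nat.land s1 (nat_lit 0x1ffff))) (nat_lit 34)) (nat_lit 0x1ffff)))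 (nat_lit 0x1ffff))) (Nat.shiftRight m (Nat.land (Nat.shiftRight (Nat.shiftRight m (Nat.land (Nat.shiftRight (Nat.shiftRight m (Nat.land s1 (nat_lit 0x1ffff))) (nat_lit 34)) (nat_lit 0x1ffff))) (nat_lit 34)) (nat_lit 0x1ffff)))) (Nat.shiftLeft (Nat.land (Nat.shiftRight p (nat_lit 6)) (nat_lit 65535)) (nat_lit 70))))⟩,
  rfl, rfl⟩
noncomputable def en147 : Ent := ⟨[nat_lit 3, nat_lit 13, nat_lit 9, nat_lit 1],
  fun K p w => ⟨fun m x s1 s2 s3 s4 za ac => (K p (Nat.add w (nat_lit 0x10000000000000000))).1 m (Nat.shiftRight m (Nat.land (Nat.shiftRight (Nat.shiftRight m (nat_lit 34)) (Nat.land (Nat.shiftRight s1 (nat_lit 17)) (nat_lit 0x1ffff))) (nat_lit 0x1ffff))) s2 s3 s4 s4 (Nat.land za (Nat.shiftRight m (Nat.land (Nat.shiftRight (Nat.shiftRight m (nat_lit 34)) (Nat.land (Nat.shiftRight s1 (nat_lit 17)) (nat_lit 0x1ffff))) (nat_lit 0x1ffff)))) (Nat.add ac (Nat.land (Nat.shiftRight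 m (Nat.land (Nat.shiftRight (Nat.shiftRight m (Nat.land x (nat_lit 0x1ffff))) (nat_lit 34)) (nat_lit 0x1ffff))) (nat_lit 0x10000000000000000)))⟩,
  fun K p w => ⟨fun m x s1 s2 s3 s4 za ac => (K p (Nat.add w (nat_lit 0x10000000000000000))).1 m (Nat.shiftRight m (Nat.land (Nat.shiftRight (Nat.shiftRight m (nat_lit 34)) (Nat.land s1 (nat_lit 0x1ffff))) (nat_lit 0x1ffff))) s2 s3 s4 s4 (Nat.land za (Nat.shiftRight m (Nat.land (Nat.shiftRight (Nat.shiftRight m (nat_lit 34)) (Nat.land s1 (nat_lit 0x1ffff))) (nat_lit 0x1ffff)))) (Nat.add ac (Nat.land (Nat.shiftRight m (Nat.land (Nat.shiftRight (Nat.shiftRight m (Nat.land (Nat.shiftRight x (nat_lit 17)) (nat_lit 0x1ffff))) (nat_lit 34)) (nat_lit 0x1ffff))) (nat_lit 0x10000000000000000)))⟩,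
  rfl, rfl⟩
noncomputable def en148 : Ent := ⟨[nat_lit 3, nat_lit 12, nat_lit 12, nat_lit 2, nat_lit 3, nat_lit 12, nat_lit 12, nat_lit 2],
  fun K p w => ⟨fun m x s1 s2 s3 s4 za ac => (K (Nat.shiftRight (Nat.shiftRight (Nat.shiftRight (Nat.shiftRight p (nat_lit 28)) (nat_lit 28)) (nat_lit 28)) (nat_lit 28)) (Nat.add (Nat.add (Nat.add (Nat.add w (plA p)) (plA (Nat.shiftRight p (nat_lit 28)))) (plA (Nat.shiftRight (Nat.shiftRight p (nat_lit 28)) (nat_lit 28)))) (plA (Nat.shiftRight (Nat.shiftRight (Nat.shiftRight p (nat_lit 28)) (nat_lit 28))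
  (nat_lit 28))))).1 m (Nat.shiftRight m (Nat.land (Nat.shiftRight (Nat.shiftRight m (Nat.land (Nat.shiftRight m (Nat.land (Nat.shiftRight (Nat.shiftRight m (Nat.land x (nat_lit 0x1ffff))) (nat_lit 34)) (nat_lit 0x1ffff))) (nat_lit 0x1ffff))) (nat_lit 34)) (nat_lit 0x1ffff))) s1 s2 s3 s4 (Nat.land (Nat.land za (Nat.shiftRight m (Nat.land (Nat.shiftRight (Nat.shiftRight m (Nat.land x (nat_lit 0x1ffff)))
  (nat_lit 34)) (nat_lit 0x1ffff)))) (Nat.shiftRight m (Nat.land (Nat.shiftRight (Nat.shiftRight m (Nat.land (Nat.shiftRight m (Nat.land (Nat.shiftRight (Nat.shiftRight m (Nat.land x (nat_lit 0x1ffff))) (nat_lit 34)) (nat_lit 0x1ffff))) (nat_lit 0x1ffff))) (nat_lit 34)) (nat_lit 0x1ffff)))) (Nat.add (Nat.add (Nat.add (Nat.add ac (Nat.land (Nat.shiftRight m (Nat.land x (nat_lit 0x1ffff))) (plA p)))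
  (Nat.land (Nat.shiftRight m (Nat.land x (nat_lit 0x1ffff))) (plA (Nat.shiftRight p (nat_lit 28))))) (Nat.land (Nat.shiftRight m (Nat.land (Nat.shiftRight m (Nat.land (Nat.shiftRight (Nat.shiftRight m (Nat.land x (nat_lit 0x1ffff))) (nat_lit 34)) (nat_lit 0x1ffff))) (nat_lit 0x1ffff))) (plA (Nat.shiftRight (Nat.shiftRight p (nat_lit 28)) (nat_lit 28))))) (Nat.land (Nat.shiftRight m (Nat.land (Nat.shiftRight m (Nat.land (Nat.shiftRight (Nat.shiftRight m (Nat.land x (nat_lit 0x1ffff))) (nat_lit 34)) (nat_lit 0x1ffff))) (nat_lit 0x1ffff))) (plA (Nat.shiftRight (Nat.shiftRight (Nat.shiftRight p (nat_lit 28)) (nat_lit 28)) (nat_lit 28)))))⟩,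
  fun K p w => ⟨fun m x s1 s2 s3 s4 za ac => (K (Nat.shiftRight (Nat.shiftRight (Nat.shiftRight (Nat.shiftRight p (nat_lit 28)) (nat_lit 28)) (nat_lit 28)) (nat_lit 28)) (Nat.succ (Nat.succ (Nat.succ (Nat.succ w))))).1 m (Nat.shiftRight m (Nat.land (Nat.shiftRight (Nat.shiftRight m (Nat.land (Nat.shiftRight (Nat.shiftRight m (Nat.land (Nat.shiftRight (Nat.shiftRight m (Nat.land (Nat.shiftRight x (nat_lit 17))
  (nat_lit 0x1ffff))) (nat_lit 34)) (nat_lit 0x1ffff))) (nat_lit 17)) (nat_lit 0x1ffff))) (nat_lit 34)) (nat_lit 0x1ffff))) s1 s2 s3 s4 (Nat.land (Nat.land za (Nat.shiftRight m (Nat.land (Nat.shiftRight (Nat.shiftRight m (Nat.land (Nat.shiftRight x (nat_lit 17)) (nat_lit 0x1ffff))) (nat_lit 34)) (nat_lit 0x1ffff)))) (Nat.shiftRight m (Nat.land (Nat.shiftRight (Nat.shiftRight m (Nat.land (Nat.shiftRight (Nat.shiftRight m (Nat.land (Nat.shiftRight (Nat.shiftRight m (Nat.land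 (Nat.shiftRight x (nat_lit 17)) (nat_lit 0x1ffff))) (nat_lit 34)) (nat_lit 0x1ffff))) (nat_lit 17)) (nat_lit 0x1ffff))) (nat_lit 34)) (nat_lit 0x1ffff)))) ac⟩,
  rfl, rfl⟩
noncomputable def en149 : Ent := ⟨[nat_lit 7, nat_lit 5, nat_lit 2],
  fun K p w => ⟨fun m x s1 s2 s3 s4 za ac => (K p w).1 m (Nat.shiftRight m (Nat.land (Nat.shiftRight (Nat.shiftRight m (Nat.land (Nat.shiftRight m (Nat.land (Nat.shiftRight x (nat_lit 34)) (nat_lit 0x1ffff))) (nat_lit 0x1ffff))) (nat_lit 34)) (nat_lit 0x1ffff))) s1 s2 s3 s4 (Nat.land za (Nat.shiftRight m (Nat.land (Nat.shiftRight (Nat.shiftRight m (Nat.land (Nat.shiftRight m (Nat.land (Nat.shiftRight x (nat_lit 34)) (nat_lit 0x1ffff))) (nat_lit 0x1ffff))) (nat_lit 34)) (nat_lit 0x1ffff)))) ac⟩,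
  fun K p w => ⟨fun m x s1 s2 s3 s4 za ac => (K p w).1 m (Nat.shiftRight m (Nat.land (Nat.shiftRight (Nat.shiftRight m (Nat.land (Nat.shiftRight (Nat.shiftRight m (Nat.land (Nat.shiftRight x (nat_lit 34)) (nat_lit 0x1ffff))) (nat_lit 17)) (nat_lit 0x1ffff))) (nat_lit 34)) (nat_lit 0x1ffff))) s1 s2 s3 s4 (Nat.land za (Nat.shiftRight m (Nat.land (Nat.shiftRight (Nat.shiftRight m (Nat.land (Nat.shiftRight (Nat.shiftRight m (Nat.land (Nat.shiftRight x (nat_lit 34)) (nat_lit 0x1ffff))) (nat_lit 17)) (nat_lit 0x1ffff))) (nat_lit 34)) (nat_lit 0x1ffff)))) ac⟩,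
  rfl, rfl⟩
noncomputable def en150 : Ent := ⟨[nat_lit 14, nat_lit 11, nat_lit 12, nat_lit 8, nat_lit 0, nat_lit 11],
  fun K p w => ⟨fun m x s1 s2 s3 s4 za ac => (K (Nat.shiftRight (Nat.shiftRight (Nat.shiftRight p (nat_lit 16)) (nat_lit 28)) (nat_lit 16)) (Nat.add (Nat.add (Nat.add w (Nat.shiftLeft (Nat.land p (nat_lit 65535)) (nat_lit 70))) (plA (Nat.shiftRight p (nat_lit 16)))) (Nat.shiftLeft (Nat.land (Nat.shiftRight (Nat.shiftRight p (nat_lit 16)) (nat_lit 28)) (nat_lit 65535)) (nat_lit 70)))).1 m (Nat.shiftRight m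
  (Nat.land (Nat.shiftRight (Nat.shiftRight m (nat_lit 34)) (Nat.land x (nat_lit 0x1ffff))) (nat_lit 0x1ffff))) x s1 s2 s3 (Nat.land (Nat.land za x) (Nat.shiftRight m (Nat.land (Nat.shiftRight (Nat.shiftRight m (nat_lit 34)) (Nat.land x (nat_lit 0x1ffff))) (nat_lit 0x1ffff)))) (Nat.add (Nat.add (Nat.add ac (Nat.land x (Nat.shiftLeft (Nat.land p (nat_lit 65535)) (nat_lit 70)))) (Nat.land x (plA (Nat.shiftRight p (nat_lit 16))))) (Nat.land (Nat.shiftRight m (Nat.land (Nat.shiftRight (Nat.shiftRight m (nat_lit 34)) (Nat.land x (nat_lit 0x1ffff))) (nat_lit 0x1ffff))) (Nat.shiftLeft (Nat.land (Nat.shiftRight (Nat.shiftRight p (nat_lit 16)) (nat_lit 28)) (nat_lit 65535)) (nat_lit 70))))⟩,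
  fun K p w => ⟨fun m x s1 s2 s3 s4 za ac => (K (Nat.shiftRight (Nat.shiftRight (Nat.shiftRight p (nat_lit 16)) (nat_lit 28)) (nat_lit 16)) (Nat.add (Nat.succ (Nat.add w (Nat.shiftLeft (Nat.land p (nat_lit 65535)) (nat_lit 70)))) (Nat.shiftLeft (Nat.land (Nat.shiftRight (Nat.shiftRight p (nat_lit 16)) (nat_lit 28)) (nat_lit 65535)) (nat_lit 70)))).1 m (Nat.shiftRight m (Nat.land (Nat.shiftRight (Nat.shiftRight m
  (nat_lit 34)) (Nat.land (Nat.shiftRight x (nat_lit 17)) (nat_lit 0x1ffff))) (nat_lit 0x1ffff))) x s1 s2 s3 (Nat.land (Nat.land za x) (Nat.shiftRight m (Nat.land (Nat.shiftRight (Nat.shiftRight m (nat_lit 34)) (Nat.land (Nat.shiftRight x (nat_lit 17)) (nat_lit 0x1ffff))) (nat_lit 0x1ffff)))) (Nat.add (Nat.add ac (Nat.land (Nat.shiftRight m (Nat.land x (nat_lit 0x1ffff))) (Nat.shiftLeft (Nat.land p (nat_lit 65535)) (nat_lit 70)))) (Nat.land (Nat.shiftRight m (Nat.land (Nat.shiftRight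 m (Nat.land (Nat.shiftRight (Nat.shiftRight m (nat_lit 34)) (Nat.land (Nat.shiftRight x (nat_lit 17)) (nat_lit 0x1ffff))) (nat_lit 0x1ffff))) (nat_lit 0x1ffff))) (Nat.shiftLeft (Nat.land (Nat.shiftRight (Nat.shiftRight p (nat_lit 16)) (nat_lit 28)) (nat_lit 65535)) (nat_lit 70))))⟩,
  rfl, rfl⟩
noncomputable def en151 : Ent := ⟨[nat_lit 4, nat_lit 11, nat_lit 2, nat_lit 11],
  fun K p w => ⟨fun m x s1 s2 s3 s4 za ac => (K (Nat.shiftRight (Nat.shiftRight p (nat_lit 16)) (nat_lit 16)) (Nat.add (Nat.add w (Nat.shiftLeft (Nat.land p (nat_lit 65535)) (nat_lit 70))) (Nat.shiftLeft (Nat.land (Nat.shiftRight p (nat_lit 16)) (nat_lit 65535)) (nat_lit 70)))).1 m (Nat.shiftRight m (Nat.land (Nat.shiftRight (Nat.shiftRight m (Nat.land (Nat.shiftRight x (nat_lit 17)) (nat_lit 0x1ffff)))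
  (nat_lit 34)) (nat_lit 0x1ffff))) s1 s2 s3 s4 (Nat.land za (Nat.shiftRight m (Nat.land (Nat.shiftRight (Nat.shiftRight m (Nat.land (Nat.shiftRight x (nat_lit 17)) (nat_lit 0x1ffff))) (nat_lit 34)) (nat_lit 0x1ffff)))) (Nat.add (Nat.add ac (Nat.land (Nat.shiftRight m (Nat.land (Nat.shiftRight x (nat_lit 17)) (nat_lit 0x1ffff))) (Nat.shiftLeft (Nat.land p (nat_lit 65535)) (nat_lit 70)))) (Nat.land (Nat.shiftRight m (Nat.land (Nat.shiftRight (Nat.shiftRight m (Nat.land (Nat.shiftRight x (nat_lit 17)) (nat_lit 0x1ffff))) (nat_lit 34)) (nat_lit 0x1ffff))) (Nat.shiftLeft (Nat.land (Nat.shiftRight p (nat_lit 16)) (nat_lit 65535)) (nat_lit 70))))⟩,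
  fun K p w => ⟨fun m x s1 s2 s3 s4 za ac => (K (Nat.shiftRight (Nat.shiftRight p (nat_lit 16)) (nat_lit 16)) (Nat.add (Nat.add w (Nat.shiftLeft (Nat.land p (nat_lit 65535)) (nat_lit 70))) (Nat.shiftLeft (Nat.land (Nat.shiftRight p (nat_lit 16)) (nat_lit 65535)) (nat_lit 70)))).1 m (Nat.shiftRight m (Nat.land (Nat.shiftRight (Nat.shiftRight m (Nat.land x (nat_lit 0x1ffff))) (nat_lit 34)) (nat_lit 0x1ffff))) s1 s2 s3 s4
  (Nat.land za (Nat.shiftRight m (Nat.land (Nat.shiftRight (Nat.shiftRight m (Nat.land x (nat_lit 0x1ffff))) (nat_lit 34)) (nat_lit 0x1ffff)))) (Nat.add (Nat.add ac (Nat.land (Nat.shiftRight m (Nat.land (Nat.shiftRight m (Nat.land x (nat_lit 0x1ffff))) (nat_lit 0x1ffff))) (Nat.shiftLeft (Nat.land p (nat_lit 65535)) (nat_lit 70)))) (Nat.land (Nat.shiftRight m (Nat.land (Nat.shiftRight m (Nat.land (Nat.shiftRight (Nat.shiftRight m (Nat.land x (nat_lit 0x1ffff))) (nat_lit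 34)) (nat_lit 0x1ffff))) (nat_lit 0x1ffff))) (Nat.shiftLeft (Nat.land (Nat.shiftRight p (nat_lit 16)) (nat_lit 65535)) (nat_lit 70))))⟩,
  rfl, rfl⟩
noncomputable def en152 : Ent := ⟨[nat_lit 2, nat_lit 11, nat_lit 1],
  fun K p w => ⟨fun m x s1 s2 s3 s4 za ac => (K (Nat.shiftRight p (nat_lit 16)) (Nat.add w (Nat.shiftLeft (Nat.land p (nat_lit 65535)) (nat_lit 70)))).1 m (Nat.shiftRight m (Nat.land (Nat.shiftRight (Nat.shiftRight m (nat_lit 34)) (Nat.land (Nat.shiftRight (Nat.shiftRight m (Nat.land (Nat.shiftRight x (nat_lit 34)) (nat_lit 0x1ffff))) (nat_lit 17)) (nat_lit 0x1ffff))) (nat_lit 0x1ffff))) s1 s2 s3 s4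
  (Nat.land (Nat.land za (Nat.shiftRight m (Nat.land (Nat.shiftRight x (nat_lit 34)) (nat_lit 0x1ffff)))) (Nat.shiftRight m (Nat.land (Nat.shiftRight (Nat.shiftRight m (nat_lit 34)) (Nat.land (Nat.shiftRight (Nat.shiftRight m (Nat.land (Nat.shiftRight x (nat_lit 34)) (nat_lit 0x1ffff))) (nat_lit 17)) (nat_lit 0x1ffff))) (nat_lit 0x1ffff)))) (Nat.add ac (Nat.land (Nat.shiftRight m (Nat.land (Nat.shiftRight x (nat_lit 34)) (nat_lit 0x1ffff))) (Nat.shiftLeft (Nat.land p (nat_lit 65535)) (nat_lit 70))))⟩,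
  fun K p w => ⟨fun m x s1 s2 s3 s4 za ac => (K (Nat.shiftRight p (nat_lit 16)) (Nat.add w (Nat.shiftLeft (Nat.land p (nat_lit 65535)) (nat_lit 70)))).1 m (Nat.shiftRight m (Nat.land (Nat.shiftRight (Nat.shiftRight m (nat_lit 34)) (Nat.land (Nat.shiftRight m (Nat.land (Nat.shiftRight x (nat_lit 34)) (nat_lit 0x1ffff))) (nat_lit 0x1ffff))) (nat_lit 0x1ffff))) s1 s2 s3 s4 (Nat.land (Nat.land za (Nat.shiftRight m
  (Nat.land (Nat.shiftRight x (nat_lit 34)) (nat_lit 0x1ffff)))) (Nat.shiftRight m (Nat.land (Nat.shiftRight (Nat.shiftRight m (nat_lit 34)) (Nat.land (Nat.shiftRight m (Nat.land (Nat.shiftRight x (nat_lit 34)) (nat_lit 0x1ffff))) (nat_lit 0x1ffff))) (nat_lit 0x1ffff)))) (Nat.add ac (Nat.land (Nat.shiftRight m (Nat.land (Nat.shiftRight m (Nat.land (Nat.shiftRight x (nat_lit 34)) (nat_lit 0x1ffff))) (nat_lit 0x1ffff))) (Nat.shiftLeft (Nat.land p (nat_lit 65535)) (nat_lit 70))))⟩,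
  rfl, rfl⟩
noncomputable def en153 : Ent := ⟨[nat_lit 9, nat_lit 4, nat_lit 11, nat_lit 9, nat_lit 4, nat_lit 11],
  fun K p w => ⟨fun m x s1 s2 s3 s4 za ac => (K (Nat.shiftRight (Nat.shiftRight p (nat_lit 16)) (nat_lit 16)) (Nat.add (Nat.add w (Nat.shiftLeft (Nat.land p (nat_lit 65535)) (nat_lit 70))) (Nat.shiftLeft (Nat.land (Nat.shiftRight p (nat_lit 16)) (nat_lit 65535)) (nat_lit 70)))).1 m (Nat.shiftRight m (Nat.land (Nat.shiftRight s2 (nat_lit 17)) (nat_lit 0x1ffff))) s3 s4 s4 s4 za (Nat.add (Nat.add ac (Nat.land (Nat.shiftRight m (Nat.land (Nat.shiftRight s1 (nat_lit 17)) (nat_lit 0x1ffff))) (Nat.shiftLeft (Nat.land p (nat_lit 65535)) (nat_lit 70)))) (Nat.land (Nat.shiftRight m (Nat.land (Nat.shiftRight s2 (nat_lit 17)) (nat_lit 0x1ffff))) (Nat.shiftLeft (Nat.land (Nat.shiftRight p (nat_lit 16)) (nat_lit 65535)) (nat_lit 70))))⟩,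
  fun K p w => ⟨fun m x s1 s2 s3 s4 za ac => (K (Nat.shiftRight (Nat.shiftRight p (nat_lit 16)) (nat_lit 16)) (Nat.add (Nat.add w (Nat.shiftLeft (Nat.land p (nat_lit 65535)) (nat_lit 70))) (Nat.shiftLeft (Nat.land (Nat.shiftRight p (nat_lit 16)) (nat_lit 65535)) (nat_lit 70)))).1 m (Nat.shiftRight m (Nat.land s2 (nat_lit 0x1ffff))) s3 s4 s4 s4 za (Nat.add (Nat.add ac (Nat.land (Nat.shiftRight m (Nat.land (Nat.shiftRight m (Nat.land s1 (nat_lit 0x1ffff))) (nat_lit 0x1ffff))) (Nat.shiftLeft (Nat.land p (nat_lit 65535)) (nat_lit 70)))) (Nat.land (Nat.shiftRight m (Nat.land (Nat.shiftRight m (Nat.land s2 (nat_lit 0x1ffff))) (nat_lit 0x1ffff))) (Nat.shiftLeft (Nat.land (Nat.shiftRight p (nat_lit 16)) (nat_lit 65535)) (nat_lit 70))))⟩,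
  rfl, rfl⟩
noncomputable def en154 : Ent := ⟨[nat_lit 9, nat_lit 4, nat_lit 13],
  fun K p w => ⟨fun m x s1 s2 s3 s4 za ac => (K p (Nat.add w (nat_lit 0x10000000000000000))).1 m (Nat.shiftRight m (Nat.land (Nat.shiftRight (Nat.shiftRight m (Nat.land (Nat.shiftRight s1 (nat_lit 17)) (nat_lit 0x1ffff))) (nat_lit 34)) (nat_lit 0x1ffff))) s2 s3 s4 s4 za (Nat.add ac (Nat.land (Nat.shiftRight m (Nat.land (Nat.shiftRight (Nat.shiftRight m (Nat.land (Nat.shiftRight s1 (nat_lit 17)) (nat_lit 0x1ffff))) (nat_lit 34)) (nat_lit 0x1ffff))) (nat_lit 0x10000000000000000)))⟩,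
  fun K p w => ⟨fun m x s1 s2 s3 s4 za ac => (K p (Nat.add w (nat_lit 0x10000000000000000))).1 m (Nat.shiftRight m (Nat.land (Nat.shiftRight (Nat.shiftRight m (Nat.land s1 (nat_lit 0x1ffff))) (nat_lit 34)) (nat_lit 0x1ffff))) s2 s3 s4 s4 za (Nat.add ac (Nat.land (Nat.shiftRight m (Nat.land (Nat.shiftRight (Nat.shiftRight m (Nat.land s1 (nat_lit 0x1ffff))) (nat_lit 34)) (nat_lit 0x1ffff))) (nat_lit 0x10000000000000000)))⟩,
  rfl, rfl⟩
noncomputable def en155 : Ent := ⟨[nat_lit 14, nat_lit 11, nat_lit 12, nat_lit 8, nat_lit 3, nat_lit 11, nat_lit 2, nat_lit 0],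
  fun K p w => ⟨fun m x s1 s2 s3 s4 za ac => (K (Nat.shiftRight (Nat.shiftRight (Nat.shiftRight p (nat_lit 16)) (nat_lit 28)) (nat_lit 16)) (Nat.add (Nat.add (Nat.add w (Nat.shiftLeft (Nat.land p (nat_lit 65535)) (nat_lit 70))) (plA (Nat.shiftRight p (nat_lit 16)))) (Nat.shiftLeft (Nat.land (Nat.shiftRight (Nat.shiftRight p (nat_lit 16)) (nat_lit 28)) (nat_lit 65535)) (nat_lit 70)))).1 m (Nat.shiftRight m
  (Nat.land (Nat.shiftRight (Nat.shiftRight m (nat_lit 34)) (Nat.land (Nat.shiftRight m (Nat.land (Nat.shiftRight (Nat.shiftRight m (Nat.land x (nat_lit 0x1ffff))) (nat_lit 34)) (nat_lit 0x1ffff))) (nat_lit 0x1ffff))) (nat_lit 0x1ffff))) x s1 s2 s3 (Nat.land (Nat.land (Nat.land za x) (Nat.shiftRight m (Nat.land (Nat.shiftRight (Nat.shiftRight m (Nat.land x (nat_lit 0x1ffff))) (nat_lit 34)) (nat_lit 0x1ffff))))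
  (Nat.shiftRight m (Nat.land (Nat.shiftRight (Nat.shiftRight m (nat_lit 34)) (Nat.land (Nat.shiftRight m (Nat.land (Nat.shiftRight (Nat.shiftRight m (Nat.land x (nat_lit 0x1ffff))) (nat_lit 34)) (nat_lit 0x1ffff))) (nat_lit 0x1ffff))) (nat_lit 0x1ffff)))) (Nat.add (Nat.add (Nat.add ac (Nat.land x (Nat.shiftLeft (Nat.land p (nat_lit 65535)) (nat_lit 70)))) (Nat.land x (plA (Nat.shiftRight p (nat_lit 16))))) (Nat.land (Nat.shiftRight m (Nat.land x (nat_lit 0x1ffff))) (Nat.shiftLeft (Nat.land (Nat.shiftRight (Nat.shiftRight p (nat_lit 16)) (nat_lit 28)) (nat_lit 65535)) (nat_lit 70))))⟩,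
  fun K p w => ⟨fun m x s1 s2 s3 s4 za ac => (K (Nat.shiftRight (Nat.shiftRight (Nat.shiftRight p (nat_lit 16)) (nat_lit 28)) (nat_lit 16)) (Nat.add (Nat.succ (Nat.add w (Nat.shiftLeft (Nat.land p (nat_lit 65535)) (nat_lit 70)))) (Nat.shiftLeft (Nat.land (Nat.shiftRight (Nat.shiftRight p (nat_lit 16)) (nat_lit 28)) (nat_lit 65535)) (nat_lit 70)))).1 m (Nat.shiftRight m (Nat.land (Nat.shiftRight (Nat.shiftRight m
  (nat_lit 34)) (Nat.land (Nat.shiftRight (Nat.shiftRight m (Nat.land (Nat.shiftRight (Nat.shiftRight m (Nat.land (Nat.shiftRight x (nat_lit 17)) (nat_lit 0x1ffff))) (nat_lit 34)) (nat_lit 0x1ffff))) (nat_lit 17)) (nat_lit 0x1ffff))) (nat_lit 0x1ffff))) x s1 s2 s3 (Nat.land (Nat.land (Nat.land za x) (Nat.shiftRight m (Nat.land (Nat.shiftRight (Nat.shiftRight m (Nat.land (Nat.shiftRight x (nat_lit 17))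
  (nat_lit 0x1ffff))) (nat_lit 34)) (nat_lit 0x1ffff)))) (Nat.shiftRight m (Nat.land (Nat.shiftRight (Nat.shiftRight m (nat_lit 34)) (Nat.land (Nat.shiftRight (Nat.shiftRight m (Nat.land (Nat.shiftRight (Nat.shiftRight m (Nat.land (Nat.shiftRight x (nat_lit 17)) (nat_lit 0x1ffff))) (nat_lit 34)) (nat_lit 0x1ffff))) (nat_lit 17)) (nat_lit 0x1ffff))) (nat_lit 0x1ffff)))) (Nat.add (Nat.add ac (Nat.land (Nat.shiftRight m (Nat.land x (nat_lit 0x1ffff))) (Nat.shiftLeft (Nat.land p (nat_lit 65535)) (nat_lit 70)))) (Nat.land (Nat.shiftRight m (Nat.land (Nat.shiftRight m (Nat.land (Nat.shiftRight x (nat_lit 17)) (nat_lit 0x1ffff))) (nat_lit 0x1ffff))) (Nat.shiftLeft (Nat.land (Nat.shiftRight (Nat.shiftRight p (nat_lit 16)) (nat_lit 28)) (nat_lit 65535)) (nat_lit 70))))⟩,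
  rfl, rfl⟩
noncomputable def en156 : Ent := ⟨[nat_lit 7, nat_lit 10, nat_lit 12],
  fun K p w => ⟨fun m x s1 s2 s3 s4 za ac => (K (Nat.shiftRight (Nat.shiftRight p (nat_lit 6)) (nat_lit 28)) (Nat.add (Nat.add w (Nat.shiftLeft (Nat.land p (nat_lit 63)) (nat_lit 64))) (plA (Nat.shiftRight p (nat_lit 6))))).1 m (Nat.shiftRight m (Nat.land (Nat.shiftRight x (nat_lit 34)) (nat_lit 0x1ffff))) s1 s2 s3 s4 za (Nat.add (Nat.add ac (Nat.land (Nat.shiftRight m (Nat.land (Nat.shiftRight x (nat_lit 34)) (nat_lit 0x1ffff))) (Nat.shiftLeft (Nat.land p (nat_lit 63)) (nat_lit 64)))) (Nat.land (Nat.shiftRight m (Nat.land (Nat.shiftRight x (nat_lit 34)) (nat_lit 0x1ffff))) (plA (Nat.shiftRight p (nat_lit 6)))))⟩,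
  fun K p w => ⟨fun m x s1 s2 s3 s4 za ac => (K (Nat.shiftRight (Nat.shiftRight p (nat_lit 6)) (nat_lit 28)) (Nat.succ (Nat.add w (Nat.shiftLeft (Nat.land p (nat_lit 63)) (nat_lit 64))))).1 m (Nat.shiftRight m (Nat.land (Nat.shiftRight x (nat_lit 34)) (nat_lit 0x1ffff))) s1 s2 s3 s4 za (Nat.add ac (Nat.land (Nat.shiftRight m (Nat.land (Nat.shiftRight x (nat_lit 34)) (nat_lit 0x1ffff))) (Nat.shiftLeft (Nat.land p (nat_lit 63)) (nat_lit 64))))⟩,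
  rfl, rfl⟩
noncomputable def en157 : Ent := ⟨[nat_lit 1, nat_lit 1, nat_lit 11],
  fun K p w => ⟨fun m x s1 s2 s3 s4 za ac => (K (Nat.shiftRight p (nat_lit 16)) (Nat.add w (Nat.shiftLeft (Nat.land p (nat_lit 65535)) (nat_lit 70)))).1 m (Nat.shiftRight m (Nat.land (Nat.shiftRight (Nat.shiftRight m (nat_lit 34)) (Nat.land (Nat.shiftRight (Nat.shiftRight m (Nat.land (Nat.shiftRight (Nat.shiftRight m (nat_lit 34)) (Nat.land (Nat.shiftRight x (nat_lit 17)) (nat_lit 0x1ffff))) (nat_lit 0x1ffff)))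
  (nat_lit 17)) (nat_lit 0x1ffff))) (nat_lit 0x1ffff))) s1 s2 s3 s4 (Nat.land (Nat.land za (Nat.shiftRight m (Nat.land (Nat.shiftRight (Nat.shiftRight m (nat_lit 34)) (Nat.land (Nat.shiftRight x (nat_lit 17)) (nat_lit 0x1ffff))) (nat_lit 0x1ffff)))) (Nat.shiftRight m (Nat.land (Nat.shiftRight (Nat.shiftRight m (nat_lit 34)) (Nat.land (Nat.shiftRight (Nat.shiftRight m (Nat.land (Nat.shiftRight (Nat.shiftRight m
  (nat_lit 34)) (Nat.land (Nat.shiftRight x (nat_lit 17)) (nat_lit 0x1ffff))) (nat_lit 0x1ffff))) (nat_lit 17)) (nat_lit 0x1ffff))) (nat_lit 0x1ffff)))) (Nat.add ac (Nat.land (Nat.shiftRight m (Nat.land (Nat.shiftRight (Nat.shiftRight m (nat_lit 34)) (Nat.land (Nat.shiftRight (Nat.shiftRight m (Nat.land (Nat.shiftRight (Nat.shiftRight m (nat_lit 34)) (Nat.land (Nat.shiftRight x (nat_lit 17)) (nat_lit 0x1ffff))) (nat_lit 0x1ffff))) (nat_lit 17)) (nat_lit 0x1ffff))) (nat_lit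 0x1ffff))) (Nat.shiftLeft (Nat.land p (nat_lit 65535)) (nat_lit 70))))⟩,
  fun K p w => ⟨fun m x s1 s2 s3 s4 za ac => (K (Nat.shiftRight p (nat_lit 16)) (Nat.add w (Nat.shiftLeft (Nat.land p (nat_lit 65535)) (nat_lit 70)))).1 m (Nat.shiftRight m (Nat.land (Nat.shiftRight (Nat.shiftRight m (nat_lit 34)) (Nat.land (Nat.shiftRight m (Nat.land (Nat.shiftRight (Nat.shiftRight m (nat_lit 34)) (Nat.land x (nat_lit 0x1ffff))) (nat_lit 0x1ffff))) (nat_lit 0x1ffff))) (nat_lit 0x1ffff))) s1 s2 s3 s4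
  (Nat.land (Nat.land za (Nat.shiftRight m (Nat.land (Nat.shiftRight (Nat.shiftRight m (nat_lit 34)) (Nat.land x (nat_lit 0x1ffff))) (nat_lit 0x1ffff)))) (Nat.shiftRight m (Nat.land (Nat.shiftRight (Nat.shiftRight m (nat_lit 34)) (Nat.land (Nat.shiftRight m (Nat.land (Nat.shiftRight (Nat.shiftRight m (nat_lit 34)) (Nat.land x (nat_lit 0x1ffff))) (nat_lit 0x1ffff))) (nat_lit 0x1ffff))) (nat_lit 0x1ffff)))) (Nat.add ac (Nat.land (Nat.shiftRight m (Nat.land (Nat.shiftRight m (Nat.land (Nat.shiftRight (Nat.shiftRight m (nat_lit 34)) (Nat.land (Nat.shiftRight m (Nat.land (Nat.shiftRight (Nat.shiftRight m (nat_lit 34)) (Nat.land x (nat_lit 0x1ffff))) (nat_lit 0x1ffff))) (nat_lit 0x1ffff))) (nat_lit 0x1ffff))) (nat_lit 0x1ffff))) (Nat.shiftLeft (Nat.land p (nat_lit 65535)) (nat_lit 70))))⟩,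
  rfl, rfl⟩
noncomputable def en158 : Ent := ⟨[nat_lit 3, nat_lit 7, nat_lit 10, nat_lit 5, nat_lit 2],
  fun K p w => ⟨fun m x s1 s2 s3 s4 za ac => (K (Nat.shiftRight p (nat_lit 6)) (Nat.add w (Nat.shiftLeft (Nat.land p (nat_lit 63)) (nat_lit 64)))).1 m (Nat.shiftRight m (Nat.land (Nat.shiftRight (Nat.shiftRight m (Nat.land (Nat.shiftRight m (Nat.land (Nat.shiftRight (Nat.shiftRight m (Nat.land x (nat_lit 0x1ffff))) (nat_lit 34)) (nat_lit 0x1ffff))) (nat_lit 0x1ffff))) (nat_lit 34)) (nat_lit 0x1ffff))) s1 s2 s3 s4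
  (Nat.land za (Nat.shiftRight m (Nat.land (Nat.shiftRight (Nat.shiftRight m (Nat.land (Nat.shiftRight m (Nat.land (Nat.shiftRight (Nat.shiftRight m (Nat.land x (nat_lit 0x1ffff))) (nat_lit 34)) (nat_lit 0x1ffff))) (nat_lit 0x1ffff))) (nat_lit 34)) (nat_lit 0x1ffff)))) (Nat.add ac (Nat.land (Nat.shiftRight m (Nat.land (Nat.shiftRight (Nat.shiftRight m (Nat.land x (nat_lit 0x1ffff))) (nat_lit 34)) (nat_lit 0x1ffff))) (Nat.shiftLeft (Nat.land p (nat_lit 63)) (nat_lit 64))))⟩,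
  fun K p w => ⟨fun m x s1 s2 s3 s4 za ac => (K (Nat.shiftRight p (nat_lit 6)) (Nat.add w (Nat.shiftLeft (Nat.land p (nat_lit 63)) (nat_lit 64)))).1 m (Nat.shiftRight m (Nat.land (Nat.shiftRight (Nat.shiftRight m (Nat.land (Nat.shiftRight (Nat.shiftRight m (Nat.land (Nat.shiftRight (Nat.shiftRight m (Nat.land (Nat.shiftRight x (nat_lit 17)) (nat_lit 0x1ffff))) (nat_lit 34)) (nat_lit 0x1ffff))) (nat_lit 17))
  (nat_lit 0x1ffff))) (nat_lit 34)) (nat_lit 0x1ffff))) s1 s2 s3 s4 (Nat.land za (Nat.shiftRight m (Nat.land (Nat.shiftRight (Nat.shiftRight m (Nat.land (Nat.shiftRight (Nat.shiftRight m (Nat.land (Nat.shiftRight (Nat.shiftRight m (Nat.land (Nat.shiftRight x (nat_lit 17)) (nat_lit 0x1ffff))) (nat_lit 34)) (nat_lit 0x1ffff))) (nat_lit 17)) (nat_lit 0x1ffff))) (nat_lit 34)) (nat_lit 0x1ffff)))) (Nat.add ac (Nat.land (Nat.shiftRight m (Nat.land (Nat.shiftRight (Nat.shiftRight m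 (Nat.land (Nat.shiftRight x (nat_lit 17)) (nat_lit 0x1ffff))) (nat_lit 34)) (nat_lit 0x1ffff))) (Nat.shiftLeft (Nat.land p (nat_lit 63)) (nat_lit 64))))⟩,
  rfl, rfl⟩
noncomputable def en159 : Ent := ⟨[nat_lit 16, nat_lit 2],
  fun K p w => ⟨fun m x s1 s2 s3 s4 za ac => (K (Nat.shiftRight p (nat_lit 16)) (Nat.add w (Nat.shiftLeft (Nat.land p (nat_lit 65535)) (nat_lit 70)))).1 m (Nat.shiftRight m (Nat.land (Nat.shiftRight x (nat_lit 34)) (nat_lit 0x1ffff))) s1 s2 s3 s4 (Nat.land za (Nat.shiftRight m (Nat.land (Nat.shiftRight x (nat_lit 34)) (nat_lit 0x1ffff)))) (Nat.add ac (Nat.land x (Nat.shiftLeft (Nat.land p (nat_lit 65535)) (nat_lit 70))))⟩,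
  fun K p w => ⟨fun m x s1 s2 s3 s4 za ac => (K (Nat.shiftRight p (nat_lit 16)) (Nat.add w (Nat.shiftLeft (Nat.land p (nat_lit 65535)) (nat_lit 70)))).1 m (Nat.shiftRight m (Nat.land (Nat.shiftRight x (nat_lit 34)) (nat_lit 0x1ffff))) s1 s2 s3 s4 (Nat.land za (Nat.shiftRight m (Nat.land (Nat.shiftRight x (nat_lit 34)) (nat_lit 0x1ffff)))) (Nat.add ac (Nat.land (Nat.lor (Nat.shiftRight m (Nat.land x (nat_lit 0x1ffff))) (Nat.shiftRight m (Nat.land (Nat.shiftRight x (nat_lit 34)) (nat_lit 0x1ffff)))) (Nat.shiftLeft (Nat.land p (nat_lit 65535)) (nat_lit 70))))⟩,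
  rfl, rfl⟩
noncomputable def en160 : Ent := ⟨[nat_lit 9, nat_lit 2, nat_lit 1],
  fun K p w => ⟨fun m x s1 s2 s3 s4 za ac => (K p w).1 m (Nat.shiftRight m (Nat.land (Nat.shiftRight (Nat.shiftRight m (nat_lit 34)) (Nat.land (Nat.shiftRight (Nat.shiftRight m (Nat.land (Nat.shiftRight s1 (nat_lit 34)) (nat_lit 0x1ffff))) (nat_lit 17)) (nat_lit 0x1ffff))) (nat_lit 0x1ffff))) s2 s3 s4 s4 (Nat.land (Nat.land za (Nat.shiftRight m (Nat.land (Nat.shiftRight s1 (nat_lit 34)) (nat_lit 0x1ffff)))) (Nat.shiftRight m (Nat.land (Nat.shiftRight (Nat.shiftRight m (nat_lit 34)) (Nat.land (Nat.shiftRight (Nat.shiftRight m (Nat.land (Nat.shiftRight s1 (nat_lit 34)) (nat_lit 0x1ffff))) (nat_lit 17)) (nat_lit 0x1ffff))) (nat_lit 0x1ffff)))) ac⟩,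
  fun K p w => ⟨fun m x s1 s2 s3 s4 za ac => (K p w).1 m (Nat.shiftRight m (Nat.land (Nat.shiftRight (Nat.shiftRight m (nat_lit 34)) (Nat.land (Nat.shiftRight m (Nat.land (Nat.shiftRight s1 (nat_lit 34)) (nat_lit 0x1ffff))) (nat_lit 0x1ffff))) (nat_lit 0x1ffff))) s2 s3 s4 s4 (Nat.land (Nat.land za (Nat.shiftRight m (Nat.land (Nat.shiftRight s1 (nat_lit 34)) (nat_lit 0x1ffff)))) (Nat.shiftRight m (Nat.land (Nat.shiftRight (Nat.shiftRight m (nat_lit 34)) (Nat.land (Nat.shiftRight m (Nat.land (Nat.shiftRight s1 (nat_lit 34)) (nat_lit 0x1ffff))) (nat_lit 0x1ffff))) (nat_lit 0x1ffff)))) ac⟩,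
  rfl, rfl⟩
noncomputable def en161 : Ent := ⟨[nat_lit 4, nat_lit 7, nat_lit 10, nat_lit 16, nat_lit 5],
  fun K p w => ⟨fun m x s1 s2 s3 s4 za ac => (K (Nat.shiftRight (Nat.shiftRight p (nat_lit 6)) (nat_lit 16)) (Nat.add (Nat.add w (Nat.shiftLeft (Nat.land p (nat_lit 63)) (nat_lit 64))) (Nat.shiftLeft (Nat.land (Nat.shiftRight p (nat_lit 6)) (nat_lit 65535)) (nat_lit 70)))).1 m (Nat.shiftRight m (Nat.land (Nat.shiftRight m (Nat.land (Nat.shiftRight (Nat.shiftRight m (Nat.land (Nat.shiftRight x (nat_lit 17))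
  (nat_lit 0x1ffff))) (nat_lit 34)) (nat_lit 0x1ffff))) (nat_lit 0x1ffff))) s1 s2 s3 s4 za (Nat.add (Nat.add ac (Nat.land (Nat.shiftRight m (Nat.land (Nat.shiftRight (Nat.shiftRight m (Nat.land (Nat.shiftRight x (nat_lit 17)) (nat_lit 0x1ffff))) (nat_lit 34)) (nat_lit 0x1ffff))) (Nat.shiftLeft (Nat.land p (nat_lit 63)) (nat_lit 64)))) (Nat.land (Nat.shiftRight m (Nat.land (Nat.shiftRight (Nat.shiftRight m (Nat.land (Nat.shiftRight x (nat_lit 17)) (nat_lit 0x1ffff))) (nat_lit 34)) (nat_lit 0x1ffff))) (Nat.shiftLeft (Nat.land (Nat.shiftRight p (nat_lit 6)) (nat_lit 65535)) (nat_lit 70))))⟩,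
  fun K p w => ⟨fun m x s1 s2 s3 s4 za ac => (K (Nat.shiftRight (Nat.shiftRight p (nat_lit 6)) (nat_lit 16)) (Nat.add (Nat.add w (Nat.shiftLeft (Nat.land p (nat_lit 63)) (nat_lit 64))) (Nat.shiftLeft (Nat.land (Nat.shiftRight p (nat_lit 6)) (nat_lit 65535)) (nat_lit 70)))).1 m (Nat.shiftRight m (Nat.land (Nat.shiftRight (Nat.shiftRight m (Nat.land (Nat.shiftRight (Nat.shiftRight m (Nat.land x (nat_lit 0x1ffff)))
  (nat_lit 34)) (nat_lit 0x1ffff))) (nat_lit 17)) (nat_lit 0x1ffff))) s1 s2 s3 s4 za (Nat.add (Nat.add ac (Nat.land (Nat.shiftRight m (Nat.land (Nat.shiftRight (Nat.shiftRight m (Nat.land x (nat_lit 0x1ffff))) (nat_lit 34)) (nat_lit 0x1ffff))) (Nat.shiftLeft (Nat.land p (nat_lit 63)) (nat_lit 64)))) (Nat.land (Nat.lor (Nat.shiftRight m (Nat.land (Nat.shiftRight m (Nat.land (Nat.shiftRight (Nat.shiftRight m (Nat.land x (nat_lit 0x1ffff))) (nat_lit 34)) (nat_lit 0x1ffff)))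 (nat_lit 0x1ffff))) (Nat.shiftRight m (Nat.land (Nat.shiftRight (Nat.shiftRight m (Nat.land (Nat.shiftRight (Nat.shiftRight m (Nat.land x (nat_lit 0x1ffff))) (nat_lit 34)) (nat_lit 0x1ffff))) (nat_lit 34)) (nat_lit 0x1ffff)))) (Nat.shiftLeft (Nat.land (Nat.shiftRight p (nat_lit 6)) (nat_lit 65535)) (nat_lit 70))))⟩,
  rfl, rfl⟩
noncomputable def en162 : Ent := ⟨[nat_lit 3, nat_lit 11, nat_lit 2, nat_lit 0],
  fun K p w => ⟨fun m x s1 s2 s3 s4 za ac => (K (Nat.shiftRight p (nat_lit 16)) (Nat.add w (Nat.shiftLeft (Nat.land p (nat_lit 65535)) (nat_lit 70)))).1 m (Nat.shiftRight m (Nat.land (Nat.shiftRight (Nat.shiftRight m (nat_lit 34)) (Nat.land (Nat.shiftRight m (Nat.land (Nat.shiftRight (Nat.shiftRight m (Nat.land x (nat_lit 0x1ffff))) (nat_lit 34)) (nat_lit 0x1ffff))) (nat_lit 0x1ffff))) (nat_lit 0x1ffff))) s1 s2 s3 s4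
  (Nat.land (Nat.land za (Nat.shiftRight m (Nat.land (Nat.shiftRight (Nat.shiftRight m (Nat.land x (nat_lit 0x1ffff))) (nat_lit 34)) (nat_lit 0x1ffff)))) (Nat.shiftRight m (Nat.land (Nat.shiftRight (Nat.shiftRight m (nat_lit 34)) (Nat.land (Nat.shiftRight m (Nat.land (Nat.shiftRight (Nat.shiftRight m (Nat.land x (nat_lit 0x1ffff))) (nat_lit 34)) (nat_lit 0x1ffff))) (nat_lit 0x1ffff))) (nat_lit 0x1ffff)))) (Nat.add ac (Nat.land (Nat.shiftRight m (Nat.land x (nat_lit 0x1ffff))) (Nat.shiftLeft (Nat.land p (nat_lit 65535)) (nat_lit 70))))⟩,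
  fun K p w => ⟨fun m x s1 s2 s3 s4 za ac => (K (Nat.shiftRight p (nat_lit 16)) (Nat.add w (Nat.shiftLeft (Nat.land p (nat_lit 65535)) (nat_lit 70)))).1 m (Nat.shiftRight m (Nat.land (Nat.shiftRight (Nat.shiftRight m (nat_lit 34)) (Nat.land (Nat.shiftRight (Nat.shiftRight m (Nat.land (Nat.shiftRight (Nat.shiftRight m (Nat.land (Nat.shiftRight x (nat_lit 17)) (nat_lit 0x1ffff))) (nat_lit 34)) (nat_lit 0x1ffff)))
  (nat_lit 17)) (nat_lit 0x1ffff))) (nat_lit 0x1ffff))) s1 s2 s3 s4 (Nat.land (Nat.land za (Nat.shiftRight m (Nat.land (Nat.shiftRight (Nat.shiftRight m (Nat.land (Nat.shiftRight x (nat_lit 17)) (nat_lit 0x1ffff))) (nat_lit 34)) (nat_lit 0x1ffff)))) (Nat.shiftRight m (Nat.land (Nat.shiftRight (Nat.shiftRight m (nat_lit 34)) (Nat.land (Nat.shiftRight (Nat.shiftRight m (Nat.land (Nat.shiftRight (Nat.shiftRight m (Nat.land (Nat.shiftRight x (nat_lit 17)) (nat_lit 0x1ffff)))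 (nat_lit 34)) (nat_lit 0x1ffff))) (nat_lit 17)) (nat_lit 0x1ffff))) (nat_lit 0x1ffff)))) (Nat.add ac (Nat.land (Nat.shiftRight m (Nat.land (Nat.shiftRight m (Nat.land (Nat.shiftRight x (nat_lit 17)) (nat_lit 0x1ffff))) (nat_lit 0x1ffff))) (Nat.shiftLeft (Nat.land p (nat_lit 65535)) (nat_lit 70))))⟩,
  rfl, rfl⟩
noncomputable def en163 : Ent := ⟨[nat_lit 8, nat_lit 0, nat_lit 11, nat_lit 4, nat_lit 11, nat_lit 9, nat_lit 4, nat_lit 11],
  fun K p w => ⟨fun m x s1 s2 s3 s4 za ac => (K (Nat.shiftRight (Nat.shiftRight (Nat.shiftRight p (nat_lit 16)) (nat_lit 16)) (nat_lit 16)) (Nat.add (Nat.add (Nat.add w (Nat.shiftLeft (Nat.land p (nat_lit 65535)) (nat_lit 70))) (Nat.shiftLeft (Nat.land (Nat.shiftRight p (nat_lit 16)) (nat_lit 65535)) (nat_lit 70))) (Nat.shiftLeft (Nat.land (Nat.shiftRight (Nat.shiftRight p (nat_lit 16)) (nat_lit 16))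
  (nat_lit 65535)) (nat_lit 70)))).1 m (Nat.shiftRight m (Nat.land (Nat.shiftRight x (nat_lit 17)) (nat_lit 0x1ffff))) s1 s2 s3 s3 (Nat.land za (Nat.shiftRight m (Nat.land (Nat.shiftRight (Nat.shiftRight m (nat_lit 34)) (Nat.land x (nat_lit 0x1ffff))) (nat_lit 0x1ffff)))) (Nat.add (Nat.add (Nat.add ac (Nat.land (Nat.shiftRight m (Nat.land (Nat.shiftRight (Nat.shiftRight m (nat_lit 34)) (Nat.land x
  (nat_lit 0x1ffff))) (nat_lit 0x1ffff))) (Nat.shiftLeft (Nat.land p (nat_lit 65535)) (nat_lit 70)))) (Nat.land (Nat.shiftRight m (Nat.land (Nat.shiftRight (Nat.shiftRight m (Nat.land (Nat.shiftRight (Nat.shiftRight m (nat_lit 34)) (Nat.land x (nat_lit 0x1ffff))) (nat_lit 0x1ffff))) (nat_lit 17)) (nat_lit 0x1ffff))) (Nat.shiftLeft (Nat.land (Nat.shiftRight p (nat_lit 16)) (nat_lit 65535)) (nat_lit 70)))) (Nat.land (Nat.shiftRight m (Nat.land (Nat.shiftRight x (nat_lit 17)) (nat_lit 0x1ffff)))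 (Nat.shiftLeft (Nat.land (Nat.shiftRight (Nat.shiftRight p (nat_lit 16)) (nat_lit 16)) (nat_lit 65535)) (nat_lit 70))))⟩,
  fun K p w => ⟨fun m x s1 s2 s3 s4 za ac => (K (Nat.shiftRight (Nat.shiftRight (Nat.shiftRight p (nat_lit 16)) (nat_lit 16)) (nat_lit 16)) (Nat.add (Nat.add (Nat.add w (Nat.shiftLeft (Nat.land p (nat_lit 65535)) (nat_lit 70))) (Nat.shiftLeft (Nat.land (Nat.shiftRight p (nat_lit 16)) (nat_lit 65535)) (nat_lit 70))) (Nat.shiftLeft (Nat.land (Nat.shiftRight (Nat.shiftRight p (nat_lit 16)) (nat_lit 16))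
  (nat_lit 65535)) (nat_lit 70)))).1 m (Nat.shiftRight m (Nat.land x (nat_lit 0x1ffff))) s1 s2 s3 s3 (Nat.land za (Nat.shiftRight m (Nat.land (Nat.shiftRight (Nat.shiftRight m (nat_lit 34)) (Nat.land (Nat.shiftRight x (nat_lit 17)) (nat_lit 0x1ffff))) (nat_lit 0x1ffff)))) (Nat.add (Nat.add (Nat.add ac (Nat.land (Nat.shiftRight m (Nat.land (Nat.shiftRight m (Nat.land (Nat.shiftRight (Nat.shiftRight m
  (nat_lit 34)) (Nat.land (Nat.shiftRight x (nat_lit 17)) (nat_lit 0x1ffff))) (nat_lit 0x1ffff))) (nat_lit 0x1ffff))) (Nat.shiftLeft (Nat.land p (nat_lit 65535)) (nat_lit 70)))) (Nat.land (Nat.shiftRight m (Nat.land (Nat.shiftRight m (Nat.land (Nat.shiftRight m (Nat.land (Nat.shiftRight (Nat.shiftRight m (nat_lit 34)) (Nat.land (Nat.shiftRight x (nat_lit 17)) (nat_lit 0x1ffff))) (nat_lit 0x1ffff))) (nat_lit 0x1ffff))) (nat_lit 0x1ffff))) (Nat.shiftLeft (Nat.land (Nat.shiftRight p (nat_lit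 16)) (nat_lit 65535)) (nat_lit 70)))) (Nat.land (Nat.shiftRight m (Nat.land (Nat.shiftRight m (Nat.land x (nat_lit 0x1ffff))) (nat_lit 0x1ffff))) (Nat.shiftLeft (Nat.land (Nat.shiftRight (Nat.shiftRight p (nat_lit 16)) (nat_lit 16)) (nat_lit 65535)) (nat_lit 70))))⟩,
  rfl, rfl⟩
noncomputable def en164 : Ent := ⟨[nat_lit 15, nat_lit 2, nat_lit 1],
  fun K p w => ⟨fun m x s1 s2 s3 s4 za ac => (K p (Nat.add w (nat_lit 0x10000000000000000))).1 m (Nat.shiftRight m (Nat.land (Nat.shiftRight (Nat.shiftRight m (nat_lit 34)) (Nat.land (Nat.shiftRight (Nat.shiftRight m (Nat.land (Nat.shiftRight x (nat_lit 34)) (nat_lit 0x1ffff))) (nat_lit 17)) (nat_lit 0x1ffff))) (nat_lit 0x1ffff))) s1 s2 s3 s4 (Nat.land (Nat.land za (Nat.shiftRight m (Nat.land (Nat.shiftRight x (nat_lit 34)) (nat_lit 0x1ffff)))) (Nat.shiftRight m (Nat.land (Nat.shiftRight (Nat.shiftRight m (nat_lit 34)) (Nat.land (Nat.shiftRight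 (Nat.shiftRight m (Nat.land (Nat.shiftRight x (nat_lit 34)) (nat_lit 0x1ffff))) (nat_lit 17)) (nat_lit 0x1ffff))) (nat_lit 0x1ffff)))) (Nat.add ac (Nat.land x (nat_lit 0x10000000000000000)))⟩,
  fun K p w => ⟨fun m x s1 s2 s3 s4 za ac => (K p (Nat.add w (nat_lit 0x10000000000000000))).1 m (Nat.shiftRight m (Nat.land (Nat.shiftRight (Nat.shiftRight m (nat_lit 34)) (Nat.land (Nat.shiftRight m (Nat.land (Nat.shiftRight x (nat_lit 34)) (nat_lit 0x1ffff))) (nat_lit 0x1ffff))) (nat_lit 0x1ffff))) s1 s2 s3 s4 (Nat.land (Nat.land za (Nat.shiftRight m (Nat.land (Nat.shiftRight x (nat_lit 34)) (nat_lit 0x1ffff)))) (Nat.shiftRight m (Nat.land (Nat.shiftRight (Nat.shiftRight m (nat_lit 34)) (Nat.land (Nat.shiftRight m (Nat.land (Nat.shiftRight x (nat_lit 34)) (nat_lit 0x1ffff))) (nat_lit 0x1ffff))) (nat_lit 0x1ffff)))) (Nat.add ac (Nat.land x (nat_lit 0x10000000000000000)))⟩,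
  rfl, rfl⟩
noncomputable def en165 : Ent := ⟨[nat_lit 10, nat_lit 16, nat_lit 12, nat_lit 8, nat_lit 5, nat_lit 16, nat_lit 2, nat_lit 11, nat_lit 8, nat_lit 0, nat_lit 11],
  fun K p w => ⟨fun m x s1 s2 s3 s4 za ac => (K (Nat.shiftRight (Nat.shiftRight (Nat.shiftRight (Nat.shiftRight (Nat.shiftRight (Nat.shiftRight p (nat_lit 6)) (nat_lit 16)) (nat_lit 28)) (nat_lit 16)) (nat_lit 16)) (nat_lit 16)) (Nat.add (Nat.add (Nat.add (Nat.add (Nat.add (Nat.add w (Nat.shiftLeft (Nat.land p (nat_lit 63)) (nat_lit 64))) (Nat.shiftLeft (Nat.land (Nat.shiftRight p (nat_lit 6)) (nat_lit 65535))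
  (nat_lit 70))) (plA (Nat.shiftRight (Nat.shiftRight p (nat_lit 6)) (nat_lit 16)))) (Nat.shiftLeft (Nat.land (Nat.shiftRight (Nat.shiftRight (Nat.shiftRight p (nat_lit 6)) (nat_lit 16)) (nat_lit 28)) (nat_lit 65535)) (nat_lit 70))) (Nat.shiftLeft (Nat.land (Nat.shiftRight (Nat.shiftRight (Nat.shiftRight (Nat.shiftRight p (nat_lit 6)) (nat_lit 16)) (nat_lit 28)) (nat_lit 16)) (nat_lit 65535)) (nat_lit 70)))
  (Nat.shiftLeft (Nat.land (Nat.shiftRight (Nat.shiftRight (Nat.shiftRight (Nat.shiftRight (Nat.shiftRight p (nat_lit 6)) (nat_lit 16)) (nat_lit 28)) (nat_lit 16)) (nat_lit 16)) (nat_lit 65535)) (nat_lit 70)))).1 m (Nat.shiftRight m (Nat.land (Nat.shiftRight (Nat.shiftRight m (nat_lit 34)) (Nat.land (Nat.shiftRight m (Nat.land (Nat.shiftRight (Nat.shiftRight m (Nat.land x (nat_lit 0x1ffff))) (nat_lit 34))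
  (nat_lit 0x1ffff))) (nat_lit 0x1ffff))) (nat_lit 0x1ffff))) (Nat.shiftRight m (Nat.land (Nat.shiftRight (Nat.shiftRight m (Nat.land x (nat_lit 0x1ffff))) (nat_lit 34)) (nat_lit 0x1ffff))) x s1 s2 (Nat.land (Nat.land za (Nat.shiftRight m (Nat.land (Nat.shiftRight (Nat.shiftRight m (Nat.land x (nat_lit 0x1ffff))) (nat_lit 34)) (nat_lit 0x1ffff)))) (Nat.shiftRight m (Nat.land (Nat.shiftRight (Nat.shiftRight m
  (nat_lit 34)) (Nat.land (Nat.shiftRight m (Nat.land (Nat.shiftRight (Nat.shiftRight m (Nat.land x (nat_lit 0x1ffff))) (nat_lit 34)) (nat_lit 0x1ffff))) (nat_lit 0x1ffff))) (nat_lit 0x1ffff)))) (Nat.add (Nat.add (Nat.add (Nat.add (Nat.add (Nat.add ac (Nat.land x (Nat.shiftLeft (Nat.land p (nat_lit 63)) (nat_lit 64)))) (Nat.land x (Nat.shiftLeft (Nat.land (Nat.shiftRight p (nat_lit 6)) (nat_lit 65535))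
  (nat_lit 70)))) (Nat.land x (plA (Nat.shiftRight (Nat.shiftRight p (nat_lit 6)) (nat_lit 16))))) (Nat.land (Nat.shiftRight m (Nat.land x (nat_lit 0x1ffff))) (Nat.shiftLeft (Nat.land (Nat.shiftRight (Nat.shiftRight (Nat.shiftRight p (nat_lit 6)) (nat_lit 16)) (nat_lit 28)) (nat_lit 65535)) (nat_lit 70)))) (Nat.land (Nat.shiftRight m (Nat.land (Nat.shiftRight (Nat.shiftRight m (Nat.land x (nat_lit 0x1ffff)))
  (nat_lit 34)) (nat_lit 0x1ffff))) (Nat.shiftLeft (Nat.land (Nat.shiftRight (Nat.shiftRight (Nat.shiftRight (Nat.shiftRight p (nat_lit 6)) (nat_lit 16)) (nat_lit 28)) (nat_lit 16)) (nat_lit 65535)) (nat_lit 70)))) (Nat.land (Nat.shiftRight m (Nat.land (Nat.shiftRight (Nat.shiftRight m (nat_lit 34)) (Nat.land (Nat.shiftRight m (Nat.land (Nat.shiftRight (Nat.shiftRight m (Nat.land x (nat_lit 0x1ffff))) (nat_lit 34)) (nat_lit 0x1ffff))) (nat_lit 0x1ffff))) (nat_lit 0x1ffff)))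 (Nat.shiftLeft (Nat.land (Nat.shiftRight (Nat.shiftRight (Nat.shiftRight (Nat.shiftRight (Nat.shiftRight p (nat_lit 6)) (nat_lit 16)) (nat_lit 28)) (nat_lit 16)) (nat_lit 16)) (nat_lit 65535)) (nat_lit 70))))⟩,
  fun K p w => ⟨fun m x s1 s2 s3 s4 za ac => (K (Nat.shiftRight (Nat.shiftRight (Nat.shiftRight (Nat.shiftRight (Nat.shiftRight (Nat.shiftRight p (nat_lit 6)) (nat_lit 16)) (nat_lit 28)) (nat_lit 16)) (nat_lit 16)) (nat_lit 16)) (Nat.add (Nat.add (Nat.add (Nat.succ (Nat.add (Nat.add w (Nat.shiftLeft (Nat.land p (nat_lit 63)) (nat_lit 64))) (Nat.shiftLeft (Nat.land (Nat.shiftRight p (nat_lit 6)) (nat_lit 65535))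
  (nat_lit 70)))) (Nat.shiftLeft (Nat.land (Nat.shiftRight (Nat.shiftRight (Nat.shiftRight p (nat_lit 6)) (nat_lit 16)) (nat_lit 28)) (nat_lit 65535)) (nat_lit 70))) (Nat.shiftLeft (Nat.land (Nat.shiftRight (Nat.shiftRight (Nat.shiftRight (Nat.shiftRight p (nat_lit 6)) (nat_lit 16)) (nat_lit 28)) (nat_lit 16)) (nat_lit 65535)) (nat_lit 70))) (Nat.shiftLeft (Nat.land (Nat.shiftRight (Nat.shiftRight
  (Nat.shiftRight (Nat.shiftRight (Nat.shiftRight p (nat_lit 6)) (nat_lit 16)) (nat_lit 28)) (nat_lit 16)) (nat_lit 16)) (nat_lit 65535)) (nat_lit 70)))).1 m (Nat.shiftRight m (Nat.land (Nat.shiftRight (Nat.shiftRight m (nat_lit 34)) (Nat.land (Nat.shiftRight (Nat.shiftRight m (Nat.land (Nat.shiftRight (Nat.shiftRight m (Nat.land (Nat.shiftRight x (nat_lit 17)) (nat_lit 0x1ffff))) (nat_lit 34)) (nat_lit 0x1ffff)))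
  (nat_lit 17)) (nat_lit 0x1ffff))) (nat_lit 0x1ffff))) (Nat.shiftRight m (Nat.land (Nat.shiftRight (Nat.shiftRight m (Nat.land (Nat.shiftRight x (nat_lit 17)) (nat_lit 0x1ffff))) (nat_lit 34)) (nat_lit 0x1ffff))) x s1 s2 (Nat.land (Nat.land za (Nat.shiftRight m (Nat.land (Nat.shiftRight (Nat.shiftRight m (Nat.land (Nat.shiftRight x (nat_lit 17)) (nat_lit 0x1ffff))) (nat_lit 34)) (nat_lit 0x1ffff))))
  (Nat.shiftRight m (Nat.land (Nat.shiftRight (Nat.shiftRight m (nat_lit 34)) (Nat.land (Nat.shiftRight (Nat.shiftRight m (Nat.land (Nat.shiftRight (Nat.shiftRight m (Nat.land (Nat.shiftRight x (nat_lit 17)) (nat_lit 0x1ffff))) (nat_lit 34)) (nat_lit 0x1ffff))) (nat_lit 17)) (nat_lit 0x1ffff))) (nat_lit 0x1ffff)))) (Nat.add (Nat.add (Nat.add (Nat.add (Nat.add ac (Nat.land x (Nat.shiftLeft (Nat.land p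
  (nat_lit 63)) (nat_lit 64)))) (Nat.land (Nat.lor (Nat.shiftRight m (Nat.land x (nat_lit 0x1ffff))) (Nat.shiftRight m (Nat.land (Nat.shiftRight x (nat_lit 34)) (nat_lit 0x1ffff)))) (Nat.shiftLeft (Nat.land (Nat.shiftRight p (nat_lit 6)) (nat_lit 65535)) (nat_lit 70)))) (Nat.land (Nat.lor (Nat.shiftRight m (Nat.land (Nat.shiftRight m (Nat.land (Nat.shiftRight x (nat_lit 17)) (nat_lit 0x1ffff))) (nat_lit 0x1ffff)))
  (Nat.shiftRight m (Nat.land (Nat.shiftRight (Nat.shiftRight m (Nat.land (Nat.shiftRight x (nat_lit 17)) (nat_lit 0x1ffff))) (nat_lit 34)) (nat_lit 0x1ffff)))) (Nat.shiftLeft (Nat.land (Nat.shiftRight (Nat.shiftRight (Nat.shiftRight p (nat_lit 6)) (nat_lit 16)) (nat_lit 28)) (nat_lit 65535)) (nat_lit 70)))) (Nat.land (Nat.shiftRight m (Nat.land (Nat.shiftRight m (Nat.land (Nat.shiftRight (Nat.shiftRight m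
  (Nat.land (Nat.shiftRight x (nat_lit 17)) (nat_lit 0x1ffff))) (nat_lit 34)) (nat_lit 0x1ffff))) (nat_lit 0x1ffff))) (Nat.shiftLeft (Nat.land (Nat.shiftRight (Nat.shiftRight (Nat.shiftRight (Nat.shiftRight p (nat_lit 6)) (nat_lit 16)) (nat_lit 28)) (nat_lit 16)) (nat_lit 65535)) (nat_lit 70)))) (Nat.land (Nat.shiftRight m (Nat.land (Nat.shiftRight m (Nat.land (Nat.shiftRight (Nat.shiftRight m (nat_lit 34))
  (Nat.land (Nat.shiftRight (Nat.shiftRight m (Nat.land (Nat.shiftRight (Nat.shiftRight m (Nat.land (Nat.shiftRight x (nat_lit 17)) (nat_lit 0x1ffff))) (nat_lit 34)) (nat_lit 0x1ffff))) (nat_lit 17)) (nat_lit 0x1ffff))) (nat_lit 0x1ffff))) (nat_lit 0x1ffff))) (Nat.shiftLeft (Nat.land (Nat.shiftRight (Nat.shiftRight (Nat.shiftRight (Nat.shiftRight (Nat.shiftRight p (nat_lit 6)) (nat_lit 16)) (nat_lit 28)) (nat_lit 16)) (nat_lit 16)) (nat_lit 65535)) (nat_lit 70))))⟩,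
  rfl, rfl⟩
noncomputable def en166 : Ent := ⟨[nat_lit 9, nat_lit 1, nat_lit 0],
  fun K p w => ⟨fun m x s1 s2 s3 s4 za ac => (K p w).1 m (Nat.shiftRight m (Nat.land (Nat.shiftRight (Nat.shiftRight m (nat_lit 34)) (Nat.land (Nat.shiftRight m (Nat.land (Nat.shiftRight (Nat.shiftRight m (nat_lit 34)) (Nat.land (Nat.shiftRight s1 (nat_lit 17)) (nat_lit 0x1ffff))) (nat_lit 0x1ffff))) (nat_lit 0x1ffff))) (nat_lit 0x1ffff))) s2 s3 s4 s4 (Nat.land (Nat.land za (Nat.shiftRight m (Nat.land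
  (Nat.shiftRight (Nat.shiftRight m (nat_lit 34)) (Nat.land (Nat.shiftRight s1 (nat_lit 17)) (nat_lit 0x1ffff))) (nat_lit 0x1ffff)))) (Nat.shiftRight m (Nat.land (Nat.shiftRight (Nat.shiftRight m (nat_lit 34)) (Nat.land (Nat.shiftRight m (Nat.land (Nat.shiftRight (Nat.shiftRight m (nat_lit 34)) (Nat.land (Nat.shiftRight s1 (nat_lit 17)) (nat_lit 0x1ffff))) (nat_lit 0x1ffff))) (nat_lit 0x1ffff))) (nat_lit 0x1ffff)))) ac⟩,
  fun K p w => ⟨fun m x s1 s2 s3 s4 za ac => (K p w).1 m (Nat.shiftRight m (Nat.land (Nat.shiftRight (Nat.shiftRight m (nat_lit 34)) (Nat.land (Nat.shiftRight (Nat.shiftRight m (Nat.land (Nat.shiftRight (Nat.shiftRight m (nat_lit 34)) (Nat.land s1 (nat_lit 0x1ffff))) (nat_lit 0x1ffff))) (nat_lit 17)) (nat_lit 0x1ffff))) (nat_lit 0x1ffff))) s2 s3 s4 s4 (Nat.land (Nat.land za (Nat.shiftRight m (Nat.land (Nat.shiftRight (Nat.shiftRight m (nat_lit 34)) (Nat.land s1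 (nat_lit 0x1ffff))) (nat_lit 0x1ffff)))) (Nat.shiftRight m (Nat.land (Nat.shiftRight (Nat.shiftRight m (nat_lit 34)) (Nat.land (Nat.shiftRight (Nat.shiftRight m (Nat.land (Nat.shiftRight (Nat.shiftRight m (nat_lit 34)) (Nat.land s1 (nat_lit 0x1ffff))) (nat_lit 0x1ffff))) (nat_lit 17)) (nat_lit 0x1ffff))) (nat_lit 0x1ffff)))) ac⟩,
  rfl, rfl⟩
noncomputable def en167 : Ent := ⟨[nat_lit 3, nat_lit 11, nat_lit 9, nat_lit 4, nat_lit 11, nat_lit 2, nat_lit 4, nat_lit 11, nat_lit 2, nat_lit 4, nat_lit 11],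
  fun K p w => ⟨fun m x s1 s2 s3 s4 za ac => (K (Nat.shiftRight (Nat.shiftRight (Nat.shiftRight (Nat.shiftRight p (nat_lit 16)) (nat_lit 16)) (nat_lit 16)) (nat_lit 16)) (Nat.add (Nat.add (Nat.add (Nat.add w (Nat.shiftLeft (Nat.land p (nat_lit 65535)) (nat_lit 70))) (Nat.shiftLeft (Nat.land (Nat.shiftRight p (nat_lit 16)) (nat_lit 65535)) (nat_lit 70))) (Nat.shiftLeft (Nat.land (Nat.shiftRight (Nat.shiftRight p
  (nat_lit 16)) (nat_lit 16)) (nat_lit 65535)) (nat_lit 70))) (Nat.shiftLeft (Nat.land (Nat.shiftRight (Nat.shiftRight (Nat.shiftRight p (nat_lit 16)) (nat_lit 16)) (nat_lit 16)) (nat_lit 65535)) (nat_lit 70)))).1 m (Nat.shiftRight m (Nat.land (Nat.shiftRight (Nat.shiftRight m (Nat.land (Nat.shiftRight (Nat.shiftRight m (Nat.land (Nat.shiftRight (Nat.shiftRight m (Nat.land (Nat.shiftRight (Nat.shiftRight m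
  (Nat.land (Nat.shiftRight s1 (nat_lit 17)) (nat_lit 0x1ffff))) (nat_lit 34)) (nat_lit 0x1ffff))) (nat_lit 17)) (nat_lit 0x1ffff))) (nat_lit 34)) (nat_lit 0x1ffff))) (nat_lit 17)) (nat_lit 0x1ffff))) s2 s3 s4 s4 (Nat.land (Nat.land za (Nat.shiftRight m (Nat.land (Nat.shiftRight (Nat.shiftRight m (Nat.land (Nat.shiftRight s1 (nat_lit 17)) (nat_lit 0x1ffff))) (nat_lit 34)) (nat_lit 0x1ffff)))) (Nat.shiftRight m
  (Nat.land (Nat.shiftRight (Nat.shiftRight m (Nat.land (Nat.shiftRight (Nat.shiftRight m (Nat.land (Nat.shiftRight (Nat.shiftRight m (Nat.land (Nat.shiftRight s1 (nat_lit 17)) (nat_lit 0x1ffff))) (nat_lit 34)) (nat_lit 0x1ffff))) (nat_lit 17)) (nat_lit 0x1ffff))) (nat_lit 34)) (nat_lit 0x1ffff)))) (Nat.add (Nat.add (Nat.add (Nat.add ac (Nat.land (Nat.shiftRight m (Nat.land x (nat_lit 0x1ffff))) (Nat.shiftLeft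
  (Nat.land p (nat_lit 65535)) (nat_lit 70)))) (Nat.land (Nat.shiftRight m (Nat.land (Nat.shiftRight s1 (nat_lit 17)) (nat_lit 0x1ffff))) (Nat.shiftLeft (Nat.land (Nat.shiftRight p (nat_lit 16)) (nat_lit 65535)) (nat_lit 70)))) (Nat.land (Nat.shiftRight m (Nat.land (Nat.shiftRight (Nat.shiftRight m (Nat.land (Nat.shiftRight (Nat.shiftRight m (Nat.land (Nat.shiftRight s1 (nat_lit 17)) (nat_lit 0x1ffff)))
  (nat_lit 34)) (nat_lit 0x1ffff))) (nat_lit 17)) (nat_lit 0x1ffff))) (Nat.shiftLeft (Nat.land (Nat.shiftRight (Nat.shiftRight p (nat_lit 16)) (nat_lit 16)) (nat_lit 65535)) (nat_lit 70)))) (Nat.land (Nat.shiftRight m (Nat.land (Nat.shiftRight (Nat.shiftRight m (Nat.land (Nat.shiftRight (Nat.shiftRight m (Nat.land (Nat.shiftRight (Nat.shiftRight m (Nat.land (Nat.shiftRight (Nat.shiftRight m (Nat.land (Nat.shiftRight s1 (nat_lit 17)) (nat_lit 0x1ffff))) (nat_lit 34)) (nat_lit 0x1ffff)))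 (nat_lit 17)) (nat_lit 0x1ffff))) (nat_lit 34)) (nat_lit 0x1ffff))) (nat_lit 17)) (nat_lit 0x1ffff))) (Nat.shiftLeft (Nat.land (Nat.shiftRight (Nat.shiftRight (Nat.shiftRight p (nat_lit 16)) (nat_lit 16)) (nat_lit 16)) (nat_lit 65535)) (nat_lit 70))))⟩,
  fun K p w => ⟨fun m x s1 s2 s3 s4 za ac => (K (Nat.shiftRight (Nat.shiftRight (Nat.shiftRight (Nat.shiftRight p (nat_lit 16)) (nat_lit 16)) (nat_lit 16)) (nat_lit 16)) (Nat.add (Nat.add (Nat.add (Nat.add w (Nat.shiftLeft (Nat.land p (nat_lit 65535)) (nat_lit 70))) (Nat.shiftLeft (Nat.land (Nat.shiftRight p (nat_lit 16)) (nat_lit 65535)) (nat_lit 70))) (Nat.shiftLeft (Nat.land (Nat.shiftRight (Nat.shiftRight p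
  (nat_lit 16)) (nat_lit 16)) (nat_lit 65535)) (nat_lit 70))) (Nat.shiftLeft (Nat.land (Nat.shiftRight (Nat.shiftRight (Nat.shiftRight p (nat_lit 16)) (nat_lit 16)) (nat_lit 16)) (nat_lit 65535)) (nat_lit 70)))).1 m (Nat.shiftRight m (Nat.land (Nat.shiftRight m (Nat.land (Nat.shiftRight (Nat.shiftRight m (Nat.land (Nat.shiftRight m (Nat.land (Nat.shiftRight (Nat.shiftRight m (Nat.land s1 (nat_lit 0x1ffff)))
  (nat_lit 34)) (nat_lit 0x1ffff))) (nat_lit 0x1ffff))) (nat_lit 34)) (nat_lit 0x1ffff))) (nat_lit 0x1ffff))) s2 s3 s4 s4 (Nat.land (Nat.land za (Nat.shiftRight m (Nat.land (Nat.shiftRight (Nat.shiftRight m (Nat.land s1 (nat_lit 0x1ffff))) (nat_lit 34)) (nat_lit 0x1ffff)))) (Nat.shiftRight m (Nat.land (Nat.shiftRight (Nat.shiftRight m (Nat.land (Nat.shiftRight m (Nat.land (Nat.shiftRight (Nat.shiftRight m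
  (Nat.land s1 (nat_lit 0x1ffff))) (nat_lit 34)) (nat_lit 0x1ffff))) (nat_lit 0x1ffff))) (nat_lit 34)) (nat_lit 0x1ffff)))) (Nat.add (Nat.add (Nat.add (Nat.add ac (Nat.land (Nat.shiftRight m (Nat.land (Nat.shiftRight m (Nat.land (Nat.shiftRight x (nat_lit 17)) (nat_lit 0x1ffff))) (nat_lit 0x1ffff))) (Nat.shiftLeft (Nat.land p (nat_lit 65535)) (nat_lit 70)))) (Nat.land (Nat.shiftRight m (Nat.land (Nat.shiftRight m
  (Nat.land s1 (nat_lit 0x1ffff))) (nat_lit 0x1ffff))) (Nat.shiftLeft (Nat.land (Nat.shiftRight p (nat_lit 16)) (nat_lit 65535)) (nat_lit 70)))) (Nat.land (Nat.shiftRight m (Nat.land (Nat.shiftRight m (Nat.land (Nat.shiftRight m (Nat.land (Nat.shiftRight (Nat.shiftRight m (Nat.land s1 (nat_lit 0x1ffff))) (nat_lit 34)) (nat_lit 0x1ffff))) (nat_lit 0x1ffff))) (nat_lit 0x1ffff))) (Nat.shiftLeft (Nat.land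
  (Nat.shiftRight (Nat.shiftRight p (nat_lit 16)) (nat_lit 16)) (nat_lit 65535)) (nat_lit 70)))) (Nat.land (Nat.shiftRight m (Nat.land (Nat.shiftRight m (Nat.land (Nat.shiftRight m (Nat.land (Nat.shiftRight (Nat.shiftRight m (Nat.land (Nat.shiftRight m (Nat.land (Nat.shiftRight (Nat.shiftRight m (Nat.land s1 (nat_lit 0x1ffff))) (nat_lit 34)) (nat_lit 0x1ffff))) (nat_lit 0x1ffff))) (nat_lit 34)) (nat_lit 0x1ffff))) (nat_lit 0x1ffff))) (nat_lit 0x1ffff))) (Nat.shiftLeft (Nat.land (Nat.shiftRight (Nat.shiftRight (Nat.shiftRight p (nat_lit 16)) (nat_lit 16)) (nat_lit 16)) (nat_lit 65535)) (nat_lit 70))))⟩,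
  rfl, rfl⟩
noncomputable def en168 : Ent := ⟨[nat_lit 8, nat_lit 0, nat_lit 11, nat_lit 1, nat_lit 1],
  fun K p w => ⟨fun m x s1 s2 s3 s4 za ac => (K (Nat.shiftRight p (nat_lit 16)) (Nat.add w (Nat.shiftLeft (Nat.land p (nat_lit 65535)) (nat_lit 70)))).1 m (Nat.shiftRight m (Nat.land (Nat.shiftRight (Nat.shiftRight m (nat_lit 34)) (Nat.land (Nat.shiftRight (Nat.shiftRight m (Nat.land (Nat.shiftRight (Nat.shiftRight m (nat_lit 34)) (Nat.land (Nat.shiftRight (Nat.shiftRight m (Nat.land (Nat.shiftRight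
  (Nat.shiftRight m (nat_lit 34)) (Nat.land x (nat_lit 0x1ffff))) (nat_lit 0x1ffff))) (nat_lit 17)) (nat_lit 0x1ffff))) (nat_lit 0x1ffff))) (nat_lit 17)) (nat_lit 0x1ffff))) (nat_lit 0x1ffff))) x s1 s2 s3 (Nat.land (Nat.land (Nat.land za (Nat.shiftRight m (Nat.land (Nat.shiftRight (Nat.shiftRight m (nat_lit 34)) (Nat.land x (nat_lit 0x1ffff))) (nat_lit 0x1ffff)))) (Nat.shiftRight m (Nat.land (Nat.shiftRight
  (Nat.shiftRight m (nat_lit 34)) (Nat.land (Nat.shiftRight (Nat.shiftRight m (Nat.land (Nat.shiftRight (Nat.shiftRight m (nat_lit 34)) (Nat.land x (nat_lit 0x1ffff))) (nat_lit 0x1ffff))) (nat_lit 17)) (nat_lit 0x1ffff))) (nat_lit 0x1ffff)))) (Nat.shiftRight m (Nat.land (Nat.shiftRight (Nat.shiftRight m (nat_lit 34)) (Nat.land (Nat.shiftRight (Nat.shiftRight m (Nat.land (Nat.shiftRight (Nat.shiftRight m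
  (nat_lit 34)) (Nat.land (Nat.shiftRight (Nat.shiftRight m (Nat.land (Nat.shiftRight (Nat.shiftRight m (nat_lit 34)) (Nat.land x (nat_lit 0x1ffff))) (nat_lit 0x1ffff))) (nat_lit 17)) (nat_lit 0x1ffff))) (nat_lit 0x1ffff))) (nat_lit 17)) (nat_lit 0x1ffff))) (nat_lit 0x1ffff)))) (Nat.add ac (Nat.land (Nat.shiftRight m (Nat.land (Nat.shiftRight (Nat.shiftRight m (nat_lit 34)) (Nat.land x (nat_lit 0x1ffff))) (nat_lit 0x1ffff))) (Nat.shiftLeft (Nat.land p (nat_lit 65535)) (nat_lit 70))))⟩,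
  fun K p w => ⟨fun m x s1 s2 s3 s4 za ac => (K (Nat.shiftRight p (nat_lit 16)) (Nat.add w (Nat.shiftLeft (Nat.land p (nat_lit 65535)) (nat_lit 70)))).1 m (Nat.shiftRight m (Nat.land (Nat.shiftRight (Nat.shiftRight m (nat_lit 34)) (Nat.land (Nat.shiftRight m (Nat.land (Nat.shiftRight (Nat.shiftRight m (nat_lit 34)) (Nat.land (Nat.shiftRight m (Nat.land (Nat.shiftRight (Nat.shiftRight m (nat_lit 34))
  (Nat.land (Nat.shiftRight x (nat_lit 17)) (nat_lit 0x1ffff))) (nat_lit 0x1ffff))) (nat_lit 0x1ffff))) (nat_lit 0x1ffff))) (nat_lit 0x1ffff))) (nat_lit 0x1ffff))) x s1 s2 s3 (Nat.land (Nat.land (Nat.land za (Nat.shiftRight m (Nat.land (Nat.shiftRight (Nat.shiftRight m (nat_lit 34)) (Nat.land (Nat.shiftRight x (nat_lit 17)) (nat_lit 0x1ffff))) (nat_lit 0x1ffff)))) (Nat.shiftRight m (Nat.land (Nat.shiftRight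
  (Nat.shiftRight m (nat_lit 34)) (Nat.land (Nat.shiftRight m (Nat.land (Nat.shiftRight (Nat.shiftRight m (nat_lit 34)) (Nat.land (Nat.shiftRight x (nat_lit 17)) (nat_lit 0x1ffff))) (nat_lit 0x1ffff))) (nat_lit 0x1ffff))) (nat_lit 0x1ffff)))) (Nat.shiftRight m (Nat.land (Nat.shiftRight (Nat.shiftRight m (nat_lit 34)) (Nat.land (Nat.shiftRight m (Nat.land (Nat.shiftRight (Nat.shiftRight m (nat_lit 34))
  (Nat.land (Nat.shiftRight m (Nat.land (Nat.shiftRight (Nat.shiftRight m (nat_lit 34)) (Nat.land (Nat.shiftRight x (nat_lit 17)) (nat_lit 0x1ffff))) (nat_lit 0x1ffff))) (nat_lit 0x1ffff))) (nat_lit 0x1ffff))) (nat_lit 0x1ffff))) (nat_lit 0x1ffff)))) (Nat.add ac (Nat.land (Nat.shiftRight m (Nat.land (Nat.shiftRight m (Nat.land (Nat.shiftRight (Nat.shiftRight m (nat_lit 34)) (Nat.land (Nat.shiftRight x (nat_lit 17)) (nat_lit 0x1ffff))) (nat_lit 0x1ffff))) (nat_lit 0x1ffff))) (Nat.shiftLeft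 (Nat.land p (nat_lit 65535)) (nat_lit 70))))⟩,
  rfl, rfl⟩
noncomputable def en169 : Ent := ⟨[nat_lit 3, nat_lit 11, nat_lit 9, nat_lit 1, nat_lit 1],
  fun K p w => ⟨fun m x s1 s2 s3 s4 za ac => (K (Nat.shiftRight p (nat_lit 16)) (Nat.add w (Nat.shiftLeft (Nat.land p (nat_lit 65535)) (nat_lit 70)))).1 m (Nat.shiftRight m (Nat.land (Nat.shiftRight (Nat.shiftRight m (nat_lit 34)) (Nat.land (Nat.shiftRight (Nat.shiftRight m (Nat.land (Nat.shiftRight (Nat.shiftRight m (nat_lit 34)) (Nat.land (Nat.shiftRight s1 (nat_lit 17)) (nat_lit 0x1ffff))) (nat_lit 0x1ffff)))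
  (nat_lit 17)) (nat_lit 0x1ffff))) (nat_lit 0x1ffff))) s2 s3 s4 s4 (Nat.land (Nat.land za (Nat.shiftRight m (Nat.land (Nat.shiftRight (Nat.shiftRight m (nat_lit 34)) (Nat.land (Nat.shiftRight s1 (nat_lit 17)) (nat_lit 0x1ffff))) (nat_lit 0x1ffff)))) (Nat.shiftRight m (Nat.land (Nat.shiftRight (Nat.shiftRight m (nat_lit 34)) (Nat.land (Nat.shiftRight (Nat.shiftRight m (Nat.land (Nat.shiftRight (Nat.shiftRight m (nat_lit 34)) (Nat.land (Nat.shiftRight s1 (nat_lit 17)) (nat_lit 0x1ffff))) (nat_lit 0x1ffff))) (nat_lit 17)) (nat_lit 0x1ffff))) (nat_lit 0x1ffff)))) (Nat.add ac (Nat.land (Nat.shiftRight m (Nat.land x (nat_lit 0x1ffff))) (Nat.shiftLeft (Nat.land p (nat_lit 65535)) (nat_lit 70))))⟩,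
  fun K p w => ⟨fun m x s1 s2 s3 s4 za ac => (K (Nat.shiftRight p (nat_lit 16)) (Nat.add w (Nat.shiftLeft (Nat.land p (nat_lit 65535)) (nat_lit 70)))).1 m (Nat.shiftRight m (Nat.land (Nat.shiftRight (Nat.shiftRight m (nat_lit 34)) (Nat.land (Nat.shiftRight m (Nat.land (Nat.shiftRight (Nat.shiftRight m (nat_lit 34)) (Nat.land s1 (nat_lit 0x1ffff))) (nat_lit 0x1ffff))) (nat_lit 0x1ffff))) (nat_lit 0x1ffff))) s2 s3 s4 s4
  (Nat.land (Nat.land za (Nat.shiftRight m (Nat.land (Nat.shiftRight (Nat.shiftRight m (nat_lit 34)) (Nat.land s1 (nat_lit 0x1ffff))) (nat_lit 0x1ffff)))) (Nat.shiftRight m (Nat.land (Nat.shiftRight (Nat.shiftRight m (nat_lit 34)) (Nat.land (Nat.shiftRight m (Nat.land (Nat.shiftRight (Nat.shiftRight m (nat_lit 34)) (Nat.land s1 (nat_lit 0x1ffff))) (nat_lit 0x1ffff))) (nat_lit 0x1ffff))) (nat_lit 0x1ffff)))) (Nat.add ac (Nat.land (Nat.shiftRight m (Nat.land (Nat.shiftRight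 m (Nat.land (Nat.shiftRight x (nat_lit 17)) (nat_lit 0x1ffff))) (nat_lit 0x1ffff))) (Nat.shiftLeft (Nat.land p (nat_lit 65535)) (nat_lit 70))))⟩,
  rfl, rfl⟩
noncomputable def en170 : Ent := ⟨[nat_lit 8, nat_lit 3, nat_lit 7, nat_lit 10, nat_lit 16, nat_lit 5, nat_lit 9, nat_lit 4, nat_lit 11, nat_lit 2, nat_lit 0, nat_lit 0],
  fun K p w => ⟨fun m x s1 s2 s3 s4 za ac => (K (Nat.shiftRight (Nat.shiftRight (Nat.shiftRight p (nat_lit 6)) (nat_lit 16)) (nat_lit 16)) (Nat.add (Nat.add (Nat.add w (Nat.shiftLeft (Nat.land p (nat_lit 63)) (nat_lit 64))) (Nat.shiftLeft (Nat.land (Nat.shiftRight p (nat_lit 6)) (nat_lit 65535)) (nat_lit 70))) (Nat.shiftLeft (Nat.land (Nat.shiftRight (Nat.shiftRight p (nat_lit 6)) (nat_lit 16)) (nat_lit 65535))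
  (nat_lit 70)))).1 m (Nat.shiftRight m (Nat.land (Nat.shiftRight (Nat.shiftRight m (nat_lit 34)) (Nat.land (Nat.shiftRight m (Nat.land (Nat.shiftRight (Nat.shiftRight m (nat_lit 34)) (Nat.land (Nat.shiftRight m (Nat.land (Nat.shiftRight (Nat.shiftRight m (Nat.land (Nat.shiftRight x (nat_lit 17)) (nat_lit 0x1ffff))) (nat_lit 34)) (nat_lit 0x1ffff))) (nat_lit 0x1ffff))) (nat_lit 0x1ffff))) (nat_lit 0x1ffff)))
  (nat_lit 0x1ffff))) s1 s2 s3 s3 (Nat.land (Nat.land (Nat.land za (Nat.shiftRight m (Nat.land (Nat.shiftRight (Nat.shiftRight m (Nat.land (Nat.shiftRight x (nat_lit 17)) (nat_lit 0x1ffff))) (nat_lit 34)) (nat_lit 0x1ffff)))) (Nat.shiftRight m (Nat.land (Nat.shiftRight (Nat.shiftRight m (nat_lit 34)) (Nat.land (Nat.shiftRight m (Nat.land (Nat.shiftRight (Nat.shiftRight m (Nat.land (Nat.shiftRight x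
  (nat_lit 17)) (nat_lit 0x1ffff))) (nat_lit 34)) (nat_lit 0x1ffff))) (nat_lit 0x1ffff))) (nat_lit 0x1ffff)))) (Nat.shiftRight m (Nat.land (Nat.shiftRight (Nat.shiftRight m (nat_lit 34)) (Nat.land (Nat.shiftRight m (Nat.land (Nat.shiftRight (Nat.shiftRight m (nat_lit 34)) (Nat.land (Nat.shiftRight m (Nat.land (Nat.shiftRight (Nat.shiftRight m (Nat.land (Nat.shiftRight x (nat_lit 17)) (nat_lit 0x1ffff)))
  (nat_lit 34)) (nat_lit 0x1ffff))) (nat_lit 0x1ffff))) (nat_lit 0x1ffff))) (nat_lit 0x1ffff))) (nat_lit 0x1ffff)))) (Nat.add (Nat.add (Nat.add ac (Nat.land (Nat.shiftRight m (Nat.land (Nat.shiftRight (Nat.shiftRight m (Nat.land x (nat_lit 0x1ffff))) (nat_lit 34)) (nat_lit 0x1ffff))) (Nat.shiftLeft (Nat.land p (nat_lit 63)) (nat_lit 64)))) (Nat.land (Nat.shiftRight m (Nat.land (Nat.shiftRight (Nat.shiftRight m (Nat.land x (nat_lit 0x1ffff))) (nat_lit 34)) (nat_lit 0x1ffff))) (Nat.shiftLeft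 (Nat.land (Nat.shiftRight p (nat_lit 6)) (nat_lit 65535)) (nat_lit 70)))) (Nat.land (Nat.shiftRight m (Nat.land (Nat.shiftRight x (nat_lit 17)) (nat_lit 0x1ffff))) (Nat.shiftLeft (Nat.land (Nat.shiftRight (Nat.shiftRight p (nat_lit 6)) (nat_lit 16)) (nat_lit 65535)) (nat_lit 70))))⟩,
  fun K p w => ⟨fun m x s1 s2 s3 s4 za ac => (K (Nat.shiftRight (Nat.shiftRight (Nat.shiftRight p (nat_lit 6)) (nat_lit 16)) (nat_lit 16)) (Nat.add (Nat.add (Nat.add w (Nat.shiftLeft (Nat.land p (nat_lit 63)) (nat_lit 64))) (Nat.shiftLeft (Nat.land (Nat.shiftRight p (nat_lit 6)) (nat_lit 65535)) (nat_lit 70))) (Nat.shiftLeft (Nat.land (Nat.shiftRight (Nat.shiftRight p (nat_lit 6)) (nat_lit 16)) (nat_lit 65535))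
  (nat_lit 70)))).1 m (Nat.shiftRight m (Nat.land (Nat.shiftRight (Nat.shiftRight m (nat_lit 34)) (Nat.land (Nat.shiftRight (Nat.shiftRight m (Nat.land (Nat.shiftRight (Nat.shiftRight m (nat_lit 34)) (Nat.land (Nat.shiftRight (Nat.shiftRight m (Nat.land (Nat.shiftRight (Nat.shiftRight m (Nat.land x (nat_lit 0x1ffff))) (nat_lit 34)) (nat_lit 0x1ffff))) (nat_lit 17)) (nat_lit 0x1ffff))) (nat_lit 0x1ffff)))
  (nat_lit 17)) (nat_lit 0x1ffff))) (nat_lit 0x1ffff))) s1 s2 s3 s3 (Nat.land (Nat.land (Nat.land za (Nat.shiftRight m (Nat.land (Nat.shiftRight (Nat.shiftRight m (Nat.land x (nat_lit 0x1ffff))) (nat_lit 34)) (nat_lit 0x1ffff)))) (Nat.shiftRight m (Nat.land (Nat.shiftRight (Nat.shiftRight m (nat_lit 34)) (Nat.land (Nat.shiftRight (Nat.shiftRight m (Nat.land (Nat.shiftRight (Nat.shiftRight m (Nat.land x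
  (nat_lit 0x1ffff))) (nat_lit 34)) (nat_lit 0x1ffff))) (nat_lit 17)) (nat_lit 0x1ffff))) (nat_lit 0x1ffff)))) (Nat.shiftRight m (Nat.land (Nat.shiftRight (Nat.shiftRight m (nat_lit 34)) (Nat.land (Nat.shiftRight (Nat.shiftRight m (Nat.land (Nat.shiftRight (Nat.shiftRight m (nat_lit 34)) (Nat.land (Nat.shiftRight (Nat.shiftRight m (Nat.land (Nat.shiftRight (Nat.shiftRight m (Nat.land x (nat_lit 0x1ffff)))
  (nat_lit 34)) (nat_lit 0x1ffff))) (nat_lit 17)) (nat_lit 0x1ffff))) (nat_lit 0x1ffff))) (nat_lit 17)) (nat_lit 0x1ffff))) (nat_lit 0x1ffff)))) (Nat.add (Nat.add (Nat.add ac (Nat.land (Nat.shiftRight m (Nat.land (Nat.shiftRight (Nat.shiftRight m (Nat.land (Nat.shiftRight x (nat_lit 17)) (nat_lit 0x1ffff))) (nat_lit 34)) (nat_lit 0x1ffff))) (Nat.shiftLeft (Nat.land p (nat_lit 63)) (nat_lit 64)))) (Nat.land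
  (Nat.lor (Nat.shiftRight m (Nat.land (Nat.shiftRight m (Nat.land (Nat.shiftRight (Nat.shiftRight m (Nat.land (Nat.shiftRight x (nat_lit 17)) (nat_lit 0x1ffff))) (nat_lit 34)) (nat_lit 0x1ffff))) (nat_lit 0x1ffff))) (Nat.shiftRight m (Nat.land (Nat.shiftRight (Nat.shiftRight m (Nat.land (Nat.shiftRight (Nat.shiftRight m (Nat.land (Nat.shiftRight x (nat_lit 17)) (nat_lit 0x1ffff))) (nat_lit 34)) (nat_lit 0x1ffff))) (nat_lit 34)) (nat_lit 0x1ffff)))) (Nat.shiftLeft (Nat.land (Nat.shiftRight p (nat_lit 6)) (nat_lit 65535)) (nat_lit 70)))) (Nat.land (Nat.shiftRight m (Nat.land (Nat.shiftRight m (Nat.land x (nat_lit 0x1ffff))) (nat_lit 0x1ffff))) (Nat.shiftLeft (Nat.land (Nat.shiftRight (Nat.shiftRight p (nat_lit 6)) (nat_lit 16)) (nat_lit 65535)) (nat_lit 70))))⟩,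
  rfl, rfl⟩
noncomputable def en171 : Ent := ⟨[nat_lit 4, nat_lit 11, nat_lit 2, nat_lit 12],
  fun K p w => ⟨fun m x s1 s2 s3 s4 za ac => (K (Nat.shiftRight (Nat.shiftRight p (nat_lit 16)) (nat_lit 28)) (Nat.add (Nat.add w (Nat.shiftLeft (Nat.land p (nat_lit 65535)) (nat_lit 70))) (plA (Nat.shiftRight p (nat_lit 16))))).1 m (Nat.shiftRight m (Nat.land (Nat.shiftRight (Nat.shiftRight m (Nat.land (Nat.shiftRight x (nat_lit 17)) (nat_lit 0x1ffff))) (nat_lit 34)) (nat_lit 0x1ffff))) s1 s2 s3 s4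
  (Nat.land za (Nat.shiftRight m (Nat.land (Nat.shiftRight (Nat.shiftRight m (Nat.land (Nat.shiftRight x (nat_lit 17)) (nat_lit 0x1ffff))) (nat_lit 34)) (nat_lit 0x1ffff)))) (Nat.add (Nat.add ac (Nat.land (Nat.shiftRight m (Nat.land (Nat.shiftRight x (nat_lit 17)) (nat_lit 0x1ffff))) (Nat.shiftLeft (Nat.land p (nat_lit 65535)) (nat_lit 70)))) (Nat.land (Nat.shiftRight m (Nat.land (Nat.shiftRight (Nat.shiftRight m (Nat.land (Nat.shiftRight x (nat_lit 17)) (nat_lit 0x1ffff))) (nat_lit 34)) (nat_lit 0x1ffff))) (plA (Nat.shiftRight p (nat_lit 16)))))⟩,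
  fun K p w => ⟨fun m x s1 s2 s3 s4 za ac => (K (Nat.shiftRight (Nat.shiftRight p (nat_lit 16)) (nat_lit 28)) (Nat.succ (Nat.add w (Nat.shiftLeft (Nat.land p (nat_lit 65535)) (nat_lit 70))))).1 m (Nat.shiftRight m (Nat.land (Nat.shiftRight (Nat.shiftRight m (Nat.land x (nat_lit 0x1ffff))) (nat_lit 34)) (nat_lit 0x1ffff))) s1 s2 s3 s4 (Nat.land za (Nat.shiftRight m (Nat.land (Nat.shiftRight (Nat.shiftRight m (Nat.land x (nat_lit 0x1ffff))) (nat_lit 34)) (nat_lit 0x1ffff)))) (Nat.add ac (Nat.land (Nat.shiftRight m (Nat.land (Nat.shiftRight m (Nat.land x (nat_lit 0x1ffff))) (nat_lit 0x1ffff))) (Nat.shiftLeft (Nat.land p (nat_lit 65535)) (nat_lit 70))))⟩,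
  rfl, rfl⟩
noncomputable def en172 : Ent := ⟨[nat_lit 8, nat_lit 3, nat_lit 12, nat_lit 12, nat_lit 2, nat_lit 11],
  fun K p w => ⟨fun m x s1 s2 s3 s4 za ac => (K (Nat.shiftRight (Nat.shiftRight (Nat.shiftRight p (nat_lit 28)) (nat_lit 28)) (nat_lit 16)) (Nat.add (Nat.add (Nat.add w (plA p)) (plA (Nat.shiftRight p (nat_lit 28)))) (Nat.shiftLeft (Nat.land (Nat.shiftRight (Nat.shiftRight p (nat_lit 28)) (nat_lit 28)) (nat_lit 65535)) (nat_lit 70)))).1 m (Nat.shiftRight m (Nat.land (Nat.shiftRight (Nat.shiftRight m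
  (Nat.land x (nat_lit 0x1ffff))) (nat_lit 34)) (nat_lit 0x1ffff))) x s1 s2 s3 (Nat.land za (Nat.shiftRight m (Nat.land (Nat.shiftRight (Nat.shiftRight m (Nat.land x (nat_lit 0x1ffff))) (nat_lit 34)) (nat_lit 0x1ffff)))) (Nat.add (Nat.add (Nat.add ac (Nat.land (Nat.shiftRight m (Nat.land x (nat_lit 0x1ffff))) (plA p))) (Nat.land (Nat.shiftRight m (Nat.land x (nat_lit 0x1ffff))) (plA (Nat.shiftRight p (nat_lit 28))))) (Nat.land (Nat.shiftRight m (Nat.land (Nat.shiftRight (Nat.shiftRight m (Nat.land x (nat_lit 0x1ffff))) (nat_lit 34)) (nat_lit 0x1ffff))) (Nat.shiftLeft (Nat.land (Nat.shiftRight (Nat.shiftRight p (nat_lit 28)) (nat_lit 28)) (nat_lit 65535)) (nat_lit 70))))⟩,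
  fun K p w => ⟨fun m x s1 s2 s3 s4 za ac => (K (Nat.shiftRight (Nat.shiftRight (Nat.shiftRight p (nat_lit 28)) (nat_lit 28)) (nat_lit 16)) (Nat.add (Nat.succ (Nat.succ w)) (Nat.shiftLeft (Nat.land (Nat.shiftRight (Nat.shiftRight p (nat_lit 28)) (nat_lit 28)) (nat_lit 65535)) (nat_lit 70)))).1 m (Nat.shiftRight m (Nat.land (Nat.shiftRight (Nat.shiftRight m (Nat.land (Nat.shiftRight x (nat_lit 17))
  (nat_lit 0x1ffff))) (nat_lit 34)) (nat_lit 0x1ffff))) x s1 s2 s3 (Nat.land za (Nat.shiftRight m (Nat.land (Nat.shiftRight (Nat.shiftRight m (Nat.land (Nat.shiftRight x (nat_lit 17)) (nat_lit 0x1ffff))) (nat_lit 34)) (nat_lit 0x1ffff)))) (Nat.add ac (Nat.land (Nat.shiftRight m (Nat.land (Nat.shiftRight m (Nat.land (Nat.shiftRight (Nat.shiftRight m (Nat.land (Nat.shiftRight x (nat_lit 17)) (nat_lit 0x1ffff))) (nat_lit 34)) (nat_lit 0x1ffff))) (nat_lit 0x1ffff))) (Nat.shiftLeft (Nat.land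 (Nat.shiftRight (Nat.shiftRight p (nat_lit 28)) (nat_lit 28)) (nat_lit 65535)) (nat_lit 70))))⟩,
  rfl, rfl⟩
noncomputable def en173 : Ent := ⟨[nat_lit 9, nat_lit 8, nat_lit 4, nat_lit 7, nat_lit 6],
  fun K p w => ⟨fun m x s1 s2 s3 s4 za ac => (K p w).1 m (Nat.shiftRight m (Nat.land (Nat.shiftRight (Nat.shiftRight m (Nat.land (Nat.shiftRight (Nat.shiftRight m (Nat.land (Nat.shiftRight s1 (nat_lit 17)) (nat_lit 0x1ffff))) (nat_lit 34)) (nat_lit 0x1ffff))) (nat_lit 17)) (nat_lit 0x1ffff))) s1 s2 s3 s4 za ac⟩,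
  fun K p w => ⟨fun m x s1 s2 s3 s4 za ac => (K p w).1 m (Nat.shiftRight m (Nat.land (Nat.shiftRight m (Nat.land (Nat.shiftRight (Nat.shiftRight m (Nat.land s1 (nat_lit 0x1ffff))) (nat_lit 34)) (nat_lit 0x1ffff))) (nat_lit 0x1ffff))) s1 s2 s3 s4 za ac⟩,
  rfl, rfl⟩
noncomputable def en174 : Ent := ⟨[nat_lit 5, nat_lit 16],
  fun K p w => ⟨fun m x s1 s2 s3 s4 za ac => (K (Nat.shiftRight p (nat_lit 16)) (Nat.add w (Nat.shiftLeft (Nat.land p (nat_lit 65535)) (nat_lit 70)))).1 m (Nat.shiftRight m (Nat.land x (nat_lit 0x1ffff))) s1 s2 s3 s4 za (Nat.add ac (Nat.land (Nat.shiftRight m (Nat.land x (nat_lit 0x1ffff))) (Nat.shiftLeft (Nat.land p (nat_lit 65535)) (nat_lit 70))))⟩,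
  fun K p w => ⟨fun m x s1 s2 s3 s4 za ac => (K (Nat.shiftRight p (nat_lit 16)) (Nat.add w (Nat.shiftLeft (Nat.land p (nat_lit 65535)) (nat_lit 70)))).1 m (Nat.shiftRight m (Nat.land (Nat.shiftRight x (nat_lit 17)) (nat_lit 0x1ffff))) s1 s2 s3 s4 za (Nat.add ac (Nat.land (Nat.lor (Nat.shiftRight m (Nat.land (Nat.shiftRight m (Nat.land (Nat.shiftRight x (nat_lit 17)) (nat_lit 0x1ffff))) (nat_lit 0x1ffff))) (Nat.shiftRight m (Nat.land (Nat.shiftRight (Nat.shiftRight m (Nat.land (Nat.shiftRight x (nat_lit 17)) (nat_lit 0x1ffff))) (nat_lit 34)) (nat_lit 0x1ffff)))) (Nat.shiftLeft (Nat.land p (nat_lit 65535)) (nat_lit 70))))⟩,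
  rfl, rfl⟩
noncomputable def en175 : Ent := ⟨[nat_lit 14, nat_lit 11, nat_lit 12, nat_lit 8, nat_lit 3, nat_lit 11, nat_lit 7, nat_lit 10, nat_lit 16, nat_lit 5],
  fun K p w => ⟨fun m x s1 s2 s3 s4 za ac => (K (Nat.shiftRight (Nat.shiftRight (Nat.shiftRight (Nat.shiftRight (Nat.shiftRight p (nat_lit 16)) (nat_lit 28)) (nat_lit 16)) (nat_lit 6)) (nat_lit 16)) (Nat.add (Nat.add (Nat.add (Nat.add (Nat.add w (Nat.shiftLeft (Nat.land p (nat_lit 65535)) (nat_lit 70))) (plA (Nat.shiftRight p (nat_lit 16)))) (Nat.shiftLeft (Nat.land (Nat.shiftRight (Nat.shiftRight p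
  (nat_lit 16)) (nat_lit 28)) (nat_lit 65535)) (nat_lit 70))) (Nat.shiftLeft (Nat.land (Nat.shiftRight (Nat.shiftRight (Nat.shiftRight p (nat_lit 16)) (nat_lit 28)) (nat_lit 16)) (nat_lit 63)) (nat_lit 64))) (Nat.shiftLeft (Nat.land (Nat.shiftRight (Nat.shiftRight (Nat.shiftRight (Nat.shiftRight p (nat_lit 16)) (nat_lit 28)) (nat_lit 16)) (nat_lit 6)) (nat_lit 65535)) (nat_lit 70)))).1 m (Nat.shiftRight m
  (Nat.land (Nat.shiftRight m (Nat.land (Nat.shiftRight (Nat.shiftRight m (Nat.land x (nat_lit 0x1ffff))) (nat_lit 34)) (nat_lit 0x1ffff))) (nat_lit 0x1ffff))) x s1 s2 s3 (Nat.land za x) (Nat.add (Nat.add (Nat.add (Nat.add (Nat.add ac (Nat.land x (Nat.shiftLeft (Nat.land p (nat_lit 65535)) (nat_lit 70)))) (Nat.land x (plA (Nat.shiftRight p (nat_lit 16))))) (Nat.land (Nat.shiftRight m (Nat.land x (nat_lit 0x1ffff)))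
  (Nat.shiftLeft (Nat.land (Nat.shiftRight (Nat.shiftRight p (nat_lit 16)) (nat_lit 28)) (nat_lit 65535)) (nat_lit 70)))) (Nat.land (Nat.shiftRight m (Nat.land (Nat.shiftRight (Nat.shiftRight m (Nat.land x (nat_lit 0x1ffff))) (nat_lit 34)) (nat_lit 0x1ffff))) (Nat.shiftLeft (Nat.land (Nat.shiftRight (Nat.shiftRight (Nat.shiftRight p (nat_lit 16)) (nat_lit 28)) (nat_lit 16)) (nat_lit 63)) (nat_lit 64)))) (Nat.land (Nat.shiftRight m (Nat.land (Nat.shiftRight (Nat.shiftRight m (Nat.land x (nat_lit 0x1ffff))) (nat_lit 34)) (nat_lit 0x1ffff))) (Nat.shiftLeft (Nat.land (Nat.shiftRight (Nat.shiftRight (Nat.shiftRight (Nat.shiftRight p (nat_lit 16)) (nat_lit 28)) (nat_lit 16)) (nat_lit 6)) (nat_lit 65535)) (nat_lit 70))))⟩,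
  fun K p w => ⟨fun m x s1 s2 s3 s4 za ac => (K (Nat.shiftRight (Nat.shiftRight (Nat.shiftRight (Nat.shiftRight (Nat.shiftRight p (nat_lit 16)) (nat_lit 28)) (nat_lit 16)) (nat_lit 6)) (nat_lit 16)) (Nat.add (Nat.add (Nat.add (Nat.succ (Nat.add w (Nat.shiftLeft (Nat.land p (nat_lit 65535)) (nat_lit 70)))) (Nat.shiftLeft (Nat.land (Nat.shiftRight (Nat.shiftRight p (nat_lit 16)) (nat_lit 28)) (nat_lit 65535))
  (nat_lit 70))) (Nat.shiftLeft (Nat.land (Nat.shiftRight (Nat.shiftRight (Nat.shiftRight p (nat_lit 16)) (nat_lit 28)) (nat_lit 16)) (nat_lit 63)) (nat_lit 64))) (Nat.shiftLeft (Nat.land (Nat.shiftRight (Nat.shiftRight (Nat.shiftRight (Nat.shiftRight p (nat_lit 16)) (nat_lit 28)) (nat_lit 16)) (nat_lit 6)) (nat_lit 65535)) (nat_lit 70)))).1 m (Nat.shiftRight m (Nat.land (Nat.shiftRight (Nat.shiftRight m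
  (Nat.land (Nat.shiftRight (Nat.shiftRight m (Nat.land (Nat.shiftRight x (nat_lit 17)) (nat_lit 0x1ffff))) (nat_lit 34)) (nat_lit 0x1ffff))) (nat_lit 17)) (nat_lit 0x1ffff))) x s1 s2 s3 (Nat.land za x) (Nat.add (Nat.add (Nat.add (Nat.add ac (Nat.land (Nat.shiftRight m (Nat.land x (nat_lit 0x1ffff))) (Nat.shiftLeft (Nat.land p (nat_lit 65535)) (nat_lit 70)))) (Nat.land (Nat.shiftRight m (Nat.land (Nat.shiftRight m
  (Nat.land (Nat.shiftRight x (nat_lit 17)) (nat_lit 0x1ffff))) (nat_lit 0x1ffff))) (Nat.shiftLeft (Nat.land (Nat.shiftRight (Nat.shiftRight p (nat_lit 16)) (nat_lit 28)) (nat_lit 65535)) (nat_lit 70)))) (Nat.land (Nat.shiftRight m (Nat.land (Nat.shiftRight (Nat.shiftRight m (Nat.land (Nat.shiftRight x (nat_lit 17)) (nat_lit 0x1ffff))) (nat_lit 34)) (nat_lit 0x1ffff))) (Nat.shiftLeft (Nat.land (Nat.shiftRight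
  (Nat.shiftRight (Nat.shiftRight p (nat_lit 16)) (nat_lit 28)) (nat_lit 16)) (nat_lit 63)) (nat_lit 64)))) (Nat.land (Nat.lor (Nat.shiftRight m (Nat.land (Nat.shiftRight m (Nat.land (Nat.shiftRight (Nat.shiftRight m (Nat.land (Nat.shiftRight x (nat_lit 17)) (nat_lit 0x1ffff))) (nat_lit 34)) (nat_lit 0x1ffff))) (nat_lit 0x1ffff))) (Nat.shiftRight m (Nat.land (Nat.shiftRight (Nat.shiftRight m (Nat.land (Nat.shiftRight (Nat.shiftRight m (Nat.land (Nat.shiftRight x (nat_lit 17)) (nat_lit 0x1ffff))) (nat_lit 34)) (nat_lit 0x1ffff))) (nat_lit 34)) (nat_lit 0x1ffff)))) (Nat.shiftLeft (Nat.land (Nat.shiftRight (Nat.shiftRight (Nat.shiftRight (Nat.shiftRight p (nat_lit 16)) (nat_lit 28)) (nat_lit 16)) (nat_lit 6)) (nat_lit 65535)) (nat_lit 70))))⟩,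
  rfl, rfl⟩
noncomputable def en176 : Ent := ⟨[nat_lit 12, nat_lit 12, nat_lit 1, nat_lit 12, nat_lit 12],
  fun K p w => ⟨fun m x s1 s2 s3 s4 za ac => (K (Nat.shiftRight (Nat.shiftRight (Nat.shiftRight (Nat.shiftRight p (nat_lit 28)) (nat_lit 28)) (nat_lit 28)) (nat_lit 28)) (Nat.add (Nat.add (Nat.add (Nat.add w (plA p)) (plA (Nat.shiftRight p (nat_lit 28)))) (plA (Nat.shiftRight (Nat.shiftRight p (nat_lit 28)) (nat_lit 28)))) (plA (Nat.shiftRight (Nat.shiftRight (Nat.shiftRight p (nat_lit 28)) (nat_lit 28))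
  (nat_lit 28))))).1 m (Nat.shiftRight m (Nat.land (Nat.shiftRight (Nat.shiftRight m (nat_lit 34)) (Nat.land (Nat.shiftRight x (nat_lit 17)) (nat_lit 0x1ffff))) (nat_lit 0x1ffff))) s1 s2 s3 s4 (Nat.land za (Nat.shiftRight m (Nat.land (Nat.shiftRight (Nat.shiftRight m (nat_lit 34)) (Nat.land (Nat.shiftRight x (nat_lit 17)) (nat_lit 0x1ffff))) (nat_lit 0x1ffff)))) (Nat.add (Nat.add (Nat.add (Nat.add ac
  (Nat.land x (plA p))) (Nat.land x (plA (Nat.shiftRight p (nat_lit 28))))) (Nat.land (Nat.shiftRight m (Nat.land (Nat.shiftRight (Nat.shiftRight m (nat_lit 34)) (Nat.land (Nat.shiftRight x (nat_lit 17)) (nat_lit 0x1ffff))) (nat_lit 0x1ffff))) (plA (Nat.shiftRight (Nat.shiftRight p (nat_lit 28)) (nat_lit 28))))) (Nat.land (Nat.shiftRight m (Nat.land (Nat.shiftRight (Nat.shiftRight m (nat_lit 34)) (Nat.land (Nat.shiftRight x (nat_lit 17)) (nat_lit 0x1ffff))) (nat_lit 0x1ffff))) (plA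 (Nat.shiftRight (Nat.shiftRight (Nat.shiftRight p (nat_lit 28)) (nat_lit 28)) (nat_lit 28)))))⟩,
  fun K p w => ⟨fun m x s1 s2 s3 s4 za ac => (K (Nat.shiftRight (Nat.shiftRight (Nat.shiftRight (Nat.shiftRight p (nat_lit 28)) (nat_lit 28)) (nat_lit 28)) (nat_lit 28)) (Nat.succ (Nat.succ (Nat.succ (Nat.succ w))))).1 m (Nat.shiftRight m (Nat.land (Nat.shiftRight (Nat.shiftRight m (nat_lit 34)) (Nat.land x (nat_lit 0x1ffff))) (nat_lit 0x1ffff))) s1 s2 s3 s4 (Nat.land za (Nat.shiftRight m (Nat.land (Nat.shiftRight (Nat.shiftRight m (nat_lit 34)) (Nat.land x (nat_lit 0x1ffff))) (nat_lit 0x1ffff)))) ac⟩,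
  rfl, rfl⟩
noncomputable def en177 : Ent := ⟨[nat_lit 3, nat_lit 7, nat_lit 10, nat_lit 5, nat_lit 16],
  fun K p w => ⟨fun m x s1 s2 s3 s4 za ac => (K (Nat.shiftRight (Nat.shiftRight p (nat_lit 6)) (nat_lit 16)) (Nat.add (Nat.add w (Nat.shiftLeft (Nat.land p (nat_lit 63)) (nat_lit 64))) (Nat.shiftLeft (Nat.land (Nat.shiftRight p (nat_lit 6)) (nat_lit 65535)) (nat_lit 70)))).1 m (Nat.shiftRight m (Nat.land (Nat.shiftRight m (Nat.land (Nat.shiftRight (Nat.shiftRight m (Nat.land x (nat_lit 0x1ffff))) (nat_lit 34))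
  (nat_lit 0x1ffff))) (nat_lit 0x1ffff))) s1 s2 s3 s4 za (Nat.add (Nat.add ac (Nat.land (Nat.shiftRight m (Nat.land (Nat.shiftRight (Nat.shiftRight m (Nat.land x (nat_lit 0x1ffff))) (nat_lit 34)) (nat_lit 0x1ffff))) (Nat.shiftLeft (Nat.land p (nat_lit 63)) (nat_lit 64)))) (Nat.land (Nat.shiftRight m (Nat.land (Nat.shiftRight m (Nat.land (Nat.shiftRight (Nat.shiftRight m (Nat.land x (nat_lit 0x1ffff))) (nat_lit 34)) (nat_lit 0x1ffff))) (nat_lit 0x1ffff))) (Nat.shiftLeft (Nat.land (Nat.shiftRight p (nat_lit 6)) (nat_lit 65535)) (nat_lit 70))))⟩,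
  fun K p w => ⟨fun m x s1 s2 s3 s4 za ac => (K (Nat.shiftRight (Nat.shiftRight p (nat_lit 6)) (nat_lit 16)) (Nat.add (Nat.add w (Nat.shiftLeft (Nat.land p (nat_lit 63)) (nat_lit 64))) (Nat.shiftLeft (Nat.land (Nat.shiftRight p (nat_lit 6)) (nat_lit 65535)) (nat_lit 70)))).1 m (Nat.shiftRight m (Nat.land (Nat.shiftRight (Nat.shiftRight m (Nat.land (Nat.shiftRight (Nat.shiftRight m (Nat.land (Nat.shiftRight x
  (nat_lit 17)) (nat_lit 0x1ffff))) (nat_lit 34)) (nat_lit 0x1ffff))) (nat_lit 17)) (nat_lit 0x1ffff))) s1 s2 s3 s4 za (Nat.add (Nat.add ac (Nat.land (Nat.shiftRight m (Nat.land (Nat.shiftRight (Nat.shiftRight m (Nat.land (Nat.shiftRight x (nat_lit 17)) (nat_lit 0x1ffff))) (nat_lit 34)) (nat_lit 0x1ffff))) (Nat.shiftLeft (Nat.land p (nat_lit 63)) (nat_lit 64)))) (Nat.land (Nat.lor (Nat.shiftRight m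
  (Nat.land (Nat.shiftRight m (Nat.land (Nat.shiftRight (Nat.shiftRight m (Nat.land (Nat.shiftRight (Nat.shiftRight m (Nat.land (Nat.shiftRight x (nat_lit 17)) (nat_lit 0x1ffff))) (nat_lit 34)) (nat_lit 0x1ffff))) (nat_lit 17)) (nat_lit 0x1ffff))) (nat_lit 0x1ffff))) (Nat.shiftRight m (Nat.land (Nat.shiftRight (Nat.shiftRight m (Nat.land (Nat.shiftRight (Nat.shiftRight m (Nat.land (Nat.shiftRight (Nat.shiftRight m (Nat.land (Nat.shiftRight x (nat_lit 17)) (nat_lit 0x1ffff))) (nat_lit 34)) (nat_lit 0x1ffff))) (nat_lit 17)) (nat_lit 0x1ffff))) (nat_lit 34)) (nat_lit 0x1ffff)))) (Nat.shiftLeft (Nat.land (Nat.shiftRight p (nat_lit 6)) (nat_lit 65535)) (nat_lit 70))))⟩,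
  rfl, rfl⟩
noncomputable def en178 : Ent := ⟨[nat_lit 0, nat_lit 9, nat_lit 1],
  fun K p w => ⟨fun m x s1 s2 s3 s4 za ac => (K p w).1 m (Nat.shiftRight m (Nat.land (Nat.shiftRight (Nat.shiftRight m (nat_lit 34)) (Nat.land (Nat.shiftRight s1 (nat_lit 17)) (nat_lit 0x1ffff))) (nat_lit 0x1ffff))) s2 s3 s4 s4 (Nat.land (Nat.land za (Nat.shiftRight m (Nat.land (Nat.shiftRight (Nat.shiftRight m (nat_lit 34)) (Nat.land x (nat_lit 0x1ffff))) (nat_lit 0x1ffff)))) (Nat.shiftRight m (Nat.land (Nat.shiftRight (Nat.shiftRight m (nat_lit 34)) (Nat.land (Nat.shiftRight s1 (nat_lit 17)) (nat_lit 0x1ffff))) (nat_lit 0x1ffff)))) ac⟩,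
  fun K p w => ⟨fun m x s1 s2 s3 s4 za ac => (K p w).1 m (Nat.shiftRight m (Nat.land (Nat.shiftRight (Nat.shiftRight m (nat_lit 34)) (Nat.land s1 (nat_lit 0x1ffff))) (nat_lit 0x1ffff))) s2 s3 s4 s4 (Nat.land (Nat.land za (Nat.shiftRight m (Nat.land (Nat.shiftRight (Nat.shiftRight m (nat_lit 34)) (Nat.land (Nat.shiftRight x (nat_lit 17)) (nat_lit 0x1ffff))) (nat_lit 0x1ffff)))) (Nat.shiftRight m (Nat.land (Nat.shiftRight (Nat.shiftRight m (nat_lit 34)) (Nat.land s1 (nat_lit 0x1ffff))) (nat_lit 0x1ffff)))) ac⟩,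
  rfl, rfl⟩
noncomputable def en179 : Ent := ⟨[nat_lit 4, nat_lit 11, nat_lit 2, nat_lit 8, nat_lit 0, nat_lit 9, nat_lit 4, nat_lit 11],
  fun K p w => ⟨fun m x s1 s2 s3 s4 za ac => (K (Nat.shiftRight (Nat.shiftRight p (nat_lit 16)) (nat_lit 16)) (Nat.add (Nat.add w (Nat.shiftLeft (Nat.land p (nat_lit 65535)) (nat_lit 70))) (Nat.shiftLeft (Nat.land (Nat.shiftRight p (nat_lit 16)) (nat_lit 65535)) (nat_lit 70)))).1 m (Nat.shiftRight m (Nat.land (Nat.shiftRight (Nat.shiftRight m (Nat.land (Nat.shiftRight (Nat.shiftRight m (Nat.land (Nat.shiftRight x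
  (nat_lit 17)) (nat_lit 0x1ffff))) (nat_lit 34)) (nat_lit 0x1ffff))) (nat_lit 17)) (nat_lit 0x1ffff))) s1 s2 s3 s3 (Nat.land (Nat.land za (Nat.shiftRight m (Nat.land (Nat.shiftRight (Nat.shiftRight m (Nat.land (Nat.shiftRight x (nat_lit 17)) (nat_lit 0x1ffff))) (nat_lit 34)) (nat_lit 0x1ffff)))) (Nat.shiftRight m (Nat.land (Nat.shiftRight (Nat.shiftRight m (nat_lit 34)) (Nat.land (Nat.shiftRight m
  (Nat.land (Nat.shiftRight (Nat.shiftRight m (Nat.land (Nat.shiftRight x (nat_lit 17)) (nat_lit 0x1ffff))) (nat_lit 34)) (nat_lit 0x1ffff))) (nat_lit 0x1ffff))) (nat_lit 0x1ffff)))) (Nat.add (Nat.add ac (Nat.land (Nat.shiftRight m (Nat.land (Nat.shiftRight x (nat_lit 17)) (nat_lit 0x1ffff))) (Nat.shiftLeft (Nat.land p (nat_lit 65535)) (nat_lit 70)))) (Nat.land (Nat.shiftRight m (Nat.land (Nat.shiftRight (Nat.shiftRight m (Nat.land (Nat.shiftRight (Nat.shiftRight m (Nat.land (Nat.shiftRight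 x (nat_lit 17)) (nat_lit 0x1ffff))) (nat_lit 34)) (nat_lit 0x1ffff))) (nat_lit 17)) (nat_lit 0x1ffff))) (Nat.shiftLeft (Nat.land (Nat.shiftRight p (nat_lit 16)) (nat_lit 65535)) (nat_lit 70))))⟩,
  fun K p w => ⟨fun m x s1 s2 s3 s4 za ac => (K (Nat.shiftRight (Nat.shiftRight p (nat_lit 16)) (nat_lit 16)) (Nat.add (Nat.add w (Nat.shiftLeft (Nat.land p (nat_lit 65535)) (nat_lit 70))) (Nat.shiftLeft (Nat.land (Nat.shiftRight p (nat_lit 16)) (nat_lit 65535)) (nat_lit 70)))).1 m (Nat.shiftRight m (Nat.land (Nat.shiftRight m (Nat.land (Nat.shiftRight (Nat.shiftRight m (Nat.land x (nat_lit 0x1ffff)))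
  (nat_lit 34)) (nat_lit 0x1ffff))) (nat_lit 0x1ffff))) s1 s2 s3 s3 (Nat.land (Nat.land za (Nat.shiftRight m (Nat.land (Nat.shiftRight (Nat.shiftRight m (Nat.land x (nat_lit 0x1ffff))) (nat_lit 34)) (nat_lit 0x1ffff)))) (Nat.shiftRight m (Nat.land (Nat.shiftRight (Nat.shiftRight m (nat_lit 34)) (Nat.land (Nat.shiftRight (Nat.shiftRight m (Nat.land (Nat.shiftRight (Nat.shiftRight m (Nat.land x (nat_lit 0x1ffff)))
  (nat_lit 34)) (nat_lit 0x1ffff))) (nat_lit 17)) (nat_lit 0x1ffff))) (nat_lit 0x1ffff)))) (Nat.add (Nat.add ac (Nat.land (Nat.shiftRight m (Nat.land (Nat.shiftRight m (Nat.land x (nat_lit 0x1ffff))) (nat_lit 0x1ffff))) (Nat.shiftLeft (Nat.land p (nat_lit 65535)) (nat_lit 70)))) (Nat.land (Nat.shiftRight m (Nat.land (Nat.shiftRight m (Nat.land (Nat.shiftRight m (Nat.land (Nat.shiftRight (Nat.shiftRight m (Nat.land x (nat_lit 0x1ffff))) (nat_lit 34)) (nat_lit 0x1ffff))) (nat_lit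 0x1ffff))) (nat_lit 0x1ffff))) (Nat.shiftLeft (Nat.land (Nat.shiftRight p (nat_lit 16)) (nat_lit 65535)) (nat_lit 70))))⟩,
  rfl, rfl⟩
noncomputable def en180 : Ent := ⟨[nat_lit 9, nat_lit 1, nat_lit 0, nat_lit 3, nat_lit 11],
  fun K p w => ⟨fun m x s1 s2 s3 s4 za ac => (K (Nat.shiftRight p (nat_lit 16)) (Nat.add w (Nat.shiftLeft (Nat.land p (nat_lit 65535)) (nat_lit 70)))).1 m (Nat.shiftRight m (Nat.land (Nat.shiftRight m (Nat.land (Nat.shiftRight (Nat.shiftRight m (nat_lit 34)) (Nat.land (Nat.shiftRight m (Nat.land (Nat.shiftRight (Nat.shiftRight m (nat_lit 34)) (Nat.land (Nat.shiftRight s1 (nat_lit 17)) (nat_lit 0x1ffff)))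
  (nat_lit 0x1ffff))) (nat_lit 0x1ffff))) (nat_lit 0x1ffff))) (nat_lit 0x1ffff))) s2 s3 s4 s4 (Nat.land (Nat.land za (Nat.shiftRight m (Nat.land (Nat.shiftRight (Nat.shiftRight m (nat_lit 34)) (Nat.land (Nat.shiftRight s1 (nat_lit 17)) (nat_lit 0x1ffff))) (nat_lit 0x1ffff)))) (Nat.shiftRight m (Nat.land (Nat.shiftRight (Nat.shiftRight m (nat_lit 34)) (Nat.land (Nat.shiftRight m (Nat.land (Nat.shiftRight
  (Nat.shiftRight m (nat_lit 34)) (Nat.land (Nat.shiftRight s1 (nat_lit 17)) (nat_lit 0x1ffff))) (nat_lit 0x1ffff))) (nat_lit 0x1ffff))) (nat_lit 0x1ffff)))) (Nat.add ac (Nat.land (Nat.shiftRight m (Nat.land (Nat.shiftRight m (Nat.land (Nat.shiftRight (Nat.shiftRight m (nat_lit 34)) (Nat.land (Nat.shiftRight m (Nat.land (Nat.shiftRight (Nat.shiftRight m (nat_lit 34)) (Nat.land (Nat.shiftRight s1 (nat_lit 17)) (nat_lit 0x1ffff))) (nat_lit 0x1ffff))) (nat_lit 0x1ffff))) (nat_lit 0x1ffff)))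 (nat_lit 0x1ffff))) (Nat.shiftLeft (Nat.land p (nat_lit 65535)) (nat_lit 70))))⟩,
  fun K p w => ⟨fun m x s1 s2 s3 s4 za ac => (K (Nat.shiftRight p (nat_lit 16)) (Nat.add w (Nat.shiftLeft (Nat.land p (nat_lit 65535)) (nat_lit 70)))).1 m (Nat.shiftRight m (Nat.land (Nat.shiftRight (Nat.shiftRight m (Nat.land (Nat.shiftRight (Nat.shiftRight m (nat_lit 34)) (Nat.land (Nat.shiftRight (Nat.shiftRight m (Nat.land (Nat.shiftRight (Nat.shiftRight m (nat_lit 34)) (Nat.land s1 (nat_lit 0x1ffff)))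
  (nat_lit 0x1ffff))) (nat_lit 17)) (nat_lit 0x1ffff))) (nat_lit 0x1ffff))) (nat_lit 17)) (nat_lit 0x1ffff))) s2 s3 s4 s4 (Nat.land (Nat.land za (Nat.shiftRight m (Nat.land (Nat.shiftRight (Nat.shiftRight m (nat_lit 34)) (Nat.land s1 (nat_lit 0x1ffff))) (nat_lit 0x1ffff)))) (Nat.shiftRight m (Nat.land (Nat.shiftRight (Nat.shiftRight m (nat_lit 34)) (Nat.land (Nat.shiftRight (Nat.shiftRight m (Nat.land
  (Nat.shiftRight (Nat.shiftRight m (nat_lit 34)) (Nat.land s1 (nat_lit 0x1ffff))) (nat_lit 0x1ffff))) (nat_lit 17)) (nat_lit 0x1ffff))) (nat_lit 0x1ffff)))) (Nat.add ac (Nat.land (Nat.shiftRight m (Nat.land (Nat.shiftRight m (Nat.land (Nat.shiftRight (Nat.shiftRight m (Nat.land (Nat.shiftRight (Nat.shiftRight m (nat_lit 34)) (Nat.land (Nat.shiftRight (Nat.shiftRight m (Nat.land (Nat.shiftRight (Nat.shiftRight m (nat_lit 34)) (Nat.land s1 (nat_lit 0x1ffff))) (nat_lit 0x1ffff))) (nat_lit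 17)) (nat_lit 0x1ffff))) (nat_lit 0x1ffff))) (nat_lit 17)) (nat_lit 0x1ffff))) (nat_lit 0x1ffff))) (Nat.shiftLeft (Nat.land p (nat_lit 65535)) (nat_lit 70))))⟩,
  rfl, rfl⟩
noncomputable def en181 : Ent := ⟨[nat_lit 8, nat_lit 3, nat_lit 7, nat_lit 10, nat_lit 16, nat_lit 5, nat_lit 16, nat_lit 9, nat_lit 1],
  fun K p w => ⟨fun m x s1 s2 s3 s4 za ac => (K (Nat.shiftRight (Nat.shiftRight (Nat.shiftRight p (nat_lit 6)) (nat_lit 16)) (nat_lit 16)) (Nat.add (Nat.add (Nat.add w (Nat.shiftLeft (Nat.land p (nat_lit 63)) (nat_lit 64))) (Nat.shiftLeft (Nat.land (Nat.shiftRight p (nat_lit 6)) (nat_lit 65535)) (nat_lit 70))) (Nat.shiftLeft (Nat.land (Nat.shiftRight (Nat.shiftRight p (nat_lit 6)) (nat_lit 16)) (nat_lit 65535))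
  (nat_lit 70)))).1 m (Nat.shiftRight m (Nat.land (Nat.shiftRight (Nat.shiftRight m (nat_lit 34)) (Nat.land (Nat.shiftRight x (nat_lit 17)) (nat_lit 0x1ffff))) (nat_lit 0x1ffff))) s1 s2 s3 s3 (Nat.land za (Nat.shiftRight m (Nat.land (Nat.shiftRight (Nat.shiftRight m (nat_lit 34)) (Nat.land (Nat.shiftRight x (nat_lit 17)) (nat_lit 0x1ffff))) (nat_lit 0x1ffff)))) (Nat.add (Nat.add (Nat.add ac (Nat.land
  (Nat.shiftRight m (Nat.land (Nat.shiftRight (Nat.shiftRight m (Nat.land x (nat_lit 0x1ffff))) (nat_lit 34)) (nat_lit 0x1ffff))) (Nat.shiftLeft (Nat.land p (nat_lit 63)) (nat_lit 64)))) (Nat.land (Nat.shiftRight m (Nat.land (Nat.shiftRight (Nat.shiftRight m (Nat.land x (nat_lit 0x1ffff))) (nat_lit 34)) (nat_lit 0x1ffff))) (Nat.shiftLeft (Nat.land (Nat.shiftRight p (nat_lit 6)) (nat_lit 65535)) (nat_lit 70)))) (Nat.land (Nat.shiftRight m (Nat.land (Nat.shiftRight m (Nat.land (Nat.shiftRight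 (Nat.shiftRight m (Nat.land x (nat_lit 0x1ffff))) (nat_lit 34)) (nat_lit 0x1ffff))) (nat_lit 0x1ffff))) (Nat.shiftLeft (Nat.land (Nat.shiftRight (Nat.shiftRight p (nat_lit 6)) (nat_lit 16)) (nat_lit 65535)) (nat_lit 70))))⟩,
  fun K p w => ⟨fun m x s1 s2 s3 s4 za ac => (K (Nat.shiftRight (Nat.shiftRight (Nat.shiftRight p (nat_lit 6)) (nat_lit 16)) (nat_lit 16)) (Nat.add (Nat.add (Nat.add w (Nat.shiftLeft (Nat.land p (nat_lit 63)) (nat_lit 64))) (Nat.shiftLeft (Nat.land (Nat.shiftRight p (nat_lit 6)) (nat_lit 65535)) (nat_lit 70))) (Nat.shiftLeft (Nat.land (Nat.shiftRight (Nat.shiftRight p (nat_lit 6)) (nat_lit 16)) (nat_lit 65535))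
  (nat_lit 70)))).1 m (Nat.shiftRight m (Nat.land (Nat.shiftRight (Nat.shiftRight m (nat_lit 34)) (Nat.land x (nat_lit 0x1ffff))) (nat_lit 0x1ffff))) s1 s2 s3 s3 (Nat.land za (Nat.shiftRight m (Nat.land (Nat.shiftRight (Nat.shiftRight m (nat_lit 34)) (Nat.land x (nat_lit 0x1ffff))) (nat_lit 0x1ffff)))) (Nat.add (Nat.add (Nat.add ac (Nat.land (Nat.shiftRight m (Nat.land (Nat.shiftRight (Nat.shiftRight m
  (Nat.land (Nat.shiftRight x (nat_lit 17)) (nat_lit 0x1ffff))) (nat_lit 34)) (nat_lit 0x1ffff))) (Nat.shiftLeft (Nat.land p (nat_lit 63)) (nat_lit 64)))) (Nat.land (Nat.lor (Nat.shiftRight m (Nat.land (Nat.shiftRight m (Nat.land (Nat.shiftRight (Nat.shiftRight m (Nat.land (Nat.shiftRight x (nat_lit 17)) (nat_lit 0x1ffff))) (nat_lit 34)) (nat_lit 0x1ffff))) (nat_lit 0x1ffff))) (Nat.shiftRight m (Nat.land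
  (Nat.shiftRight (Nat.shiftRight m (Nat.land (Nat.shiftRight (Nat.shiftRight m (Nat.land (Nat.shiftRight x (nat_lit 17)) (nat_lit 0x1ffff))) (nat_lit 34)) (nat_lit 0x1ffff))) (nat_lit 34)) (nat_lit 0x1ffff)))) (Nat.shiftLeft (Nat.land (Nat.shiftRight p (nat_lit 6)) (nat_lit 65535)) (nat_lit 70)))) (Nat.land (Nat.lor (Nat.shiftRight m (Nat.land (Nat.shiftRight m (Nat.land (Nat.shiftRight (Nat.shiftRight m
  (Nat.land (Nat.shiftRight (Nat.shiftRight m (Nat.land (Nat.shiftRight x (nat_lit 17)) (nat_lit 0x1ffff))) (nat_lit 34)) (nat_lit 0x1ffff))) (nat_lit 17)) (nat_lit 0x1ffff))) (nat_lit 0x1ffff))) (Nat.shiftRight m (Nat.land (Nat.shiftRight (Nat.shiftRight m (Nat.land (Nat.shiftRight (Nat.shiftRight m (Nat.land (Nat.shiftRight (Nat.shiftRight m (Nat.land (Nat.shiftRight x (nat_lit 17)) (nat_lit 0x1ffff))) (nat_lit 34)) (nat_lit 0x1ffff))) (nat_lit 17)) (nat_lit 0x1ffff))) (nat_lit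 34)) (nat_lit 0x1ffff)))) (Nat.shiftLeft (Nat.land (Nat.shiftRight (Nat.shiftRight p (nat_lit 6)) (nat_lit 16)) (nat_lit 65535)) (nat_lit 70))))⟩,
  rfl, rfl⟩
noncomputable def en182 : Ent := ⟨[nat_lit 8, nat_lit 4, nat_lit 11, nat_lit 9, nat_lit 0],
  fun K p w => ⟨fun m x s1 s2 s3 s4 za ac => (K (Nat.shiftRight p (nat_lit 16)) (Nat.add w (Nat.shiftLeft (Nat.land p (nat_lit 65535)) (nat_lit 70)))).1 m (Nat.shiftRight m (Nat.land (Nat.shiftRight (Nat.shiftRight m (nat_lit 34)) (Nat.land x (nat_lit 0x1ffff))) (nat_lit 0x1ffff))) s1 s2 s3 s3 (Nat.land za (Nat.shiftRight m (Nat.land (Nat.shiftRight (Nat.shiftRight m (nat_lit 34)) (Nat.land x (nat_lit 0x1ffff))) (nat_lit 0x1ffff)))) (Nat.add ac (Nat.land (Nat.shiftRight m (Nat.land (Nat.shiftRight x (nat_lit 17)) (nat_lit 0x1ffff))) (Nat.shiftLeft (Nat.land p (nat_lit 65535)) (nat_lit 70))))⟩,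
  fun K p w => ⟨fun m x s1 s2 s3 s4 za ac => (K (Nat.shiftRight p (nat_lit 16)) (Nat.add w (Nat.shiftLeft (Nat.land p (nat_lit 65535)) (nat_lit 70)))).1 m (Nat.shiftRight m (Nat.land (Nat.shiftRight (Nat.shiftRight m (nat_lit 34)) (Nat.land (Nat.shiftRight x (nat_lit 17)) (nat_lit 0x1ffff))) (nat_lit 0x1ffff))) s1 s2 s3 s3 (Nat.land za (Nat.shiftRight m (Nat.land (Nat.shiftRight (Nat.shiftRight m (nat_lit 34)) (Nat.land (Nat.shiftRight x (nat_lit 17)) (nat_lit 0x1ffff))) (nat_lit 0x1ffff)))) (Nat.add ac (Nat.land (Nat.shiftRight m (Nat.land (Nat.shiftRight m (Nat.land x (nat_lit 0x1ffff))) (nat_lit 0x1ffff))) (Nat.shiftLeft (Nat.land p (nat_lit 65535)) (nat_lit 70))))⟩,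
  rfl, rfl⟩
noncomputable def en183 : Ent := ⟨[nat_lit 10, nat_lit 16, nat_lit 8, nat_lit 5],
  fun K p w => ⟨fun m x s1 s2 s3 s4 za ac => (K (Nat.shiftRight (Nat.shiftRight p (nat_lit 6)) (nat_lit 16)) (Nat.add (Nat.add w (Nat.shiftLeft (Nat.land p (nat_lit 63)) (nat_lit 64))) (Nat.shiftLeft (Nat.land (Nat.shiftRight p (nat_lit 6)) (nat_lit 65535)) (nat_lit 70)))).1 m (Nat.shiftRight m (Nat.land x (nat_lit 0x1ffff))) x s1 s2 s3 za (Nat.add (Nat.add ac (Nat.land x (Nat.shiftLeft (Nat.land p (nat_lit 63)) (nat_lit 64)))) (Nat.land x (Nat.shiftLeft (Nat.land (Nat.shiftRight p (nat_lit 6)) (nat_lit 65535)) (nat_lit 70))))⟩,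
  fun K p w => ⟨fun m x s1 s2 s3 s4 za ac => (K (Nat.shiftRight (Nat.shiftRight p (nat_lit 6)) (nat_lit 16)) (Nat.add (Nat.add w (Nat.shiftLeft (Nat.land p (nat_lit 63)) (nat_lit 64))) (Nat.shiftLeft (Nat.land (Nat.shiftRight p (nat_lit 6)) (nat_lit 65535)) (nat_lit 70)))).1 m (Nat.shiftRight m (Nat.land (Nat.shiftRight x (nat_lit 17)) (nat_lit 0x1ffff))) x s1 s2 s3 za (Nat.add (Nat.add ac (Nat.land x (Nat.shiftLeft (Nat.land p (nat_lit 63)) (nat_lit 64)))) (Nat.land (Nat.lor (Nat.shiftRight m (Nat.land x (nat_lit 0x1ffff))) (Nat.shiftRight m (Nat.land (Nat.shiftRight x (nat_lit 34)) (nat_lit 0x1ffff)))) (Nat.shiftLeft (Nat.land (Nat.shiftRight p (nat_lit 6)) (nat_lit 65535)) (nat_lit 70))))⟩,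
  rfl, rfl⟩
noncomputable def en184 : Ent := ⟨[nat_lit 3, nat_lit 11, nat_lit 12, nat_lit 12, nat_lit 2],
  fun K p w => ⟨fun m x s1 s2 s3 s4 za ac => (K (Nat.shiftRight (Nat.shiftRight (Nat.shiftRight p (nat_lit 16)) (nat_lit 28)) (nat_lit 28)) (Nat.add (Nat.add (Nat.add w (Nat.shiftLeft (Nat.land p (nat_lit 65535)) (nat_lit 70))) (plA (Nat.shiftRight p (nat_lit 16)))) (plA (Nat.shiftRight (Nat.shiftRight p (nat_lit 16)) (nat_lit 28))))).1 m (Nat.shiftRight m (Nat.land (Nat.shiftRight (Nat.shiftRight m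
  (Nat.land x (nat_lit 0x1ffff))) (nat_lit 34)) (nat_lit 0x1ffff))) s1 s2 s3 s4 (Nat.land za (Nat.shiftRight m (Nat.land (Nat.shiftRight (Nat.shiftRight m (Nat.land x (nat_lit 0x1ffff))) (nat_lit 34)) (nat_lit 0x1ffff)))) (Nat.add (Nat.add (Nat.add ac (Nat.land (Nat.shiftRight m (Nat.land x (nat_lit 0x1ffff))) (Nat.shiftLeft (Nat.land p (nat_lit 65535)) (nat_lit 70)))) (Nat.land (Nat.shiftRight m (Nat.land x (nat_lit 0x1ffff))) (plA (Nat.shiftRight p (nat_lit 16))))) (Nat.land (Nat.shiftRight m (Nat.land x (nat_lit 0x1ffff))) (plA (Nat.shiftRight (Nat.shiftRight p (nat_lit 16)) (nat_lit 28)))))⟩,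
  fun K p w => ⟨fun m x s1 s2 s3 s4 za ac => (K (Nat.shiftRight (Nat.shiftRight (Nat.shiftRight p (nat_lit 16)) (nat_lit 28)) (nat_lit 28)) (Nat.succ (Nat.succ (Nat.add w (Nat.shiftLeft (Nat.land p (nat_lit 65535)) (nat_lit 70)))))).1 m (Nat.shiftRight m (Nat.land (Nat.shiftRight (Nat.shiftRight m (Nat.land (Nat.shiftRight x (nat_lit 17)) (nat_lit 0x1ffff))) (nat_lit 34)) (nat_lit 0x1ffff))) s1 s2 s3 s4 (Nat.land za (Nat.shiftRight m (Nat.land (Nat.shiftRight (Nat.shiftRight m (Nat.land (Nat.shiftRight x (nat_lit 17)) (nat_lit 0x1ffff))) (nat_lit 34)) (nat_lit 0x1ffff)))) (Nat.add ac (Nat.land (Nat.shiftRight m (Nat.land (Nat.shiftRight m (Nat.land (Nat.shiftRight x (nat_lit 17)) (nat_lit 0x1ffff))) (nat_lit 0x1ffff))) (Nat.shiftLeft (Nat.land p (nat_lit 65535)) (nat_lit 70))))⟩,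
  rfl, rfl⟩
noncomputable def en185 : Ent := ⟨[nat_lit 4, nat_lit 7, nat_lit 10, nat_lit 5, nat_lit 2],
  fun K p w => ⟨fun m x s1 s2 s3 s4 za ac => (K (Nat.shiftRight p (nat_lit 6)) (Nat.add w (Nat.shiftLeft (Nat.land p (nat_lit 63)) (nat_lit 64)))).1 m (Nat.shiftRight m (Nat.land (Nat.shiftRight (Nat.shiftRight m (Nat.land (Nat.shiftRight m (Nat.land (Nat.shiftRight (Nat.shiftRight m (Nat.land (Nat.shiftRight x (nat_lit 17)) (nat_lit 0x1ffff))) (nat_lit 34)) (nat_lit 0x1ffff))) (nat_lit 0x1ffff)))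
  (nat_lit 34)) (nat_lit 0x1ffff))) s1 s2 s3 s4 (Nat.land za (Nat.shiftRight m (Nat.land (Nat.shiftRight (Nat.shiftRight m (Nat.land (Nat.shiftRight m (Nat.land (Nat.shiftRight (Nat.shiftRight m (Nat.land (Nat.shiftRight x (nat_lit 17)) (nat_lit 0x1ffff))) (nat_lit 34)) (nat_lit 0x1ffff))) (nat_lit 0x1ffff))) (nat_lit 34)) (nat_lit 0x1ffff)))) (Nat.add ac (Nat.land (Nat.shiftRight m (Nat.land (Nat.shiftRight (Nat.shiftRight m (Nat.land (Nat.shiftRight x (nat_lit 17)) (nat_lit 0x1ffff))) (nat_lit 34)) (nat_lit 0x1ffff))) (Nat.shiftLeft (Nat.land p (nat_lit 63)) (nat_lit 64))))⟩,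
  fun K p w => ⟨fun m x s1 s2 s3 s4 za ac => (K (Nat.shiftRight p (nat_lit 6)) (Nat.add w (Nat.shiftLeft (Nat.land p (nat_lit 63)) (nat_lit 64)))).1 m (Nat.shiftRight m (Nat.land (Nat.shiftRight (Nat.shiftRight m (Nat.land (Nat.shiftRight (Nat.shiftRight m (Nat.land (Nat.shiftRight (Nat.shiftRight m (Nat.land x (nat_lit 0x1ffff))) (nat_lit 34)) (nat_lit 0x1ffff))) (nat_lit 17)) (nat_lit 0x1ffff)))
  (nat_lit 34)) (nat_lit 0x1ffff))) s1 s2 s3 s4 (Nat.land za (Nat.shiftRight m (Nat.land (Nat.shiftRight (Nat.shiftRight m (Nat.land (Nat.shiftRight (Nat.shiftRight m (Nat.land (Nat.shiftRight (Nat.shiftRight m (Nat.land x (nat_lit 0x1ffff))) (nat_lit 34)) (nat_lit 0x1ffff))) (nat_lit 17)) (nat_lit 0x1ffff))) (nat_lit 34)) (nat_lit 0x1ffff)))) (Nat.add ac (Nat.land (Nat.shiftRight m (Nat.land (Nat.shiftRight (Nat.shiftRight m (Nat.land x (nat_lit 0x1ffff))) (nat_lit 34)) (nat_lit 0x1ffff)))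 (Nat.shiftLeft (Nat.land p (nat_lit 63)) (nat_lit 64))))⟩,
  rfl, rfl⟩
noncomputable def en186 : Ent := ⟨[nat_lit 9, nat_lit 4, nat_lit 11, nat_lit 2, nat_lit 12],
  fun K p w => ⟨fun m x s1 s2 s3 s4 za ac => (K (Nat.shiftRight (Nat.shiftRight p (nat_lit 16)) (nat_lit 28)) (Nat.add (Nat.add w (Nat.shiftLeft (Nat.land p (nat_lit 65535)) (nat_lit 70))) (plA (Nat.shiftRight p (nat_lit 16))))).1 m (Nat.shiftRight m (Nat.land (Nat.shiftRight (Nat.shiftRight m (Nat.land (Nat.shiftRight s1 (nat_lit 17)) (nat_lit 0x1ffff))) (nat_lit 34)) (nat_lit 0x1ffff))) s2 s3 s4 s4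
  (Nat.land za (Nat.shiftRight m (Nat.land (Nat.shiftRight (Nat.shiftRight m (Nat.land (Nat.shiftRight s1 (nat_lit 17)) (nat_lit 0x1ffff))) (nat_lit 34)) (nat_lit 0x1ffff)))) (Nat.add (Nat.add ac (Nat.land (Nat.shiftRight m (Nat.land (Nat.shiftRight s1 (nat_lit 17)) (nat_lit 0x1ffff))) (Nat.shiftLeft (Nat.land p (nat_lit 65535)) (nat_lit 70)))) (Nat.land (Nat.shiftRight m (Nat.land (Nat.shiftRight (Nat.shiftRight m (Nat.land (Nat.shiftRight s1 (nat_lit 17)) (nat_lit 0x1ffff))) (nat_lit 34)) (nat_lit 0x1ffff))) (plA (Nat.shiftRight p (nat_lit 16)))))⟩,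
  fun K p w => ⟨fun m x s1 s2 s3 s4 za ac => (K (Nat.shiftRight (Nat.shiftRight p (nat_lit 16)) (nat_lit 28)) (Nat.succ (Nat.add w (Nat.shiftLeft (Nat.land p (nat_lit 65535)) (nat_lit 70))))).1 m (Nat.shiftRight m (Nat.land (Nat.shiftRight (Nat.shiftRight m (Nat.land s1 (nat_lit 0x1ffff))) (nat_lit 34)) (nat_lit 0x1ffff))) s2 s3 s4 s4 (Nat.land za (Nat.shiftRight m (Nat.land (Nat.shiftRight (Nat.shiftRight m (Nat.land s1 (nat_lit 0x1ffff))) (nat_lit 34)) (nat_lit 0x1ffff)))) (Nat.add ac (Nat.land (Nat.shiftRight m (Nat.land (Nat.shiftRight m (Nat.land s1 (nat_lit 0x1ffff))) (nat_lit 0x1ffff))) (Nat.shiftLeft (Nat.land p (nat_lit 65535)) (nat_lit 70))))⟩,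
  rfl, rfl⟩
noncomputable def en187 : Ent := ⟨[nat_lit 9, nat_lit 1, nat_lit 3, nat_lit 11, nat_lit 2],
  fun K p w => ⟨fun m x s1 s2 s3 s4 za ac => (K (Nat.shiftRight p (nat_lit 16)) (Nat.add w (Nat.shiftLeft (Nat.land p (nat_lit 65535)) (nat_lit 70)))).1 m (Nat.shiftRight m (Nat.land (Nat.shiftRight (Nat.shiftRight m (Nat.land (Nat.shiftRight m (Nat.land (Nat.shiftRight (Nat.shiftRight m (nat_lit 34)) (Nat.land (Nat.shiftRight s1 (nat_lit 17)) (nat_lit 0x1ffff))) (nat_lit 0x1ffff))) (nat_lit 0x1ffff)))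
  (nat_lit 34)) (nat_lit 0x1ffff))) s2 s3 s4 s4 (Nat.land (Nat.land za (Nat.shiftRight m (Nat.land (Nat.shiftRight (Nat.shiftRight m (nat_lit 34)) (Nat.land (Nat.shiftRight s1 (nat_lit 17)) (nat_lit 0x1ffff))) (nat_lit 0x1ffff)))) (Nat.shiftRight m (Nat.land (Nat.shiftRight (Nat.shiftRight m (Nat.land (Nat.shiftRight m (Nat.land (Nat.shiftRight (Nat.shiftRight m (nat_lit 34)) (Nat.land (Nat.shiftRight s1
  (nat_lit 17)) (nat_lit 0x1ffff))) (nat_lit 0x1ffff))) (nat_lit 0x1ffff))) (nat_lit 34)) (nat_lit 0x1ffff)))) (Nat.add ac (Nat.land (Nat.shiftRight m (Nat.land (Nat.shiftRight m (Nat.land (Nat.shiftRight (Nat.shiftRight m (nat_lit 34)) (Nat.land (Nat.shiftRight s1 (nat_lit 17)) (nat_lit 0x1ffff))) (nat_lit 0x1ffff))) (nat_lit 0x1ffff))) (Nat.shiftLeft (Nat.land p (nat_lit 65535)) (nat_lit 70))))⟩,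
  fun K p w => ⟨fun m x s1 s2 s3 s4 za ac => (K (Nat.shiftRight p (nat_lit 16)) (Nat.add w (Nat.shiftLeft (Nat.land p (nat_lit 65535)) (nat_lit 70)))).1 m (Nat.shiftRight m (Nat.land (Nat.shiftRight (Nat.shiftRight m (Nat.land (Nat.shiftRight (Nat.shiftRight m (Nat.land (Nat.shiftRight (Nat.shiftRight m (nat_lit 34)) (Nat.land s1 (nat_lit 0x1ffff))) (nat_lit 0x1ffff))) (nat_lit 17)) (nat_lit 0x1ffff)))
  (nat_lit 34)) (nat_lit 0x1ffff))) s2 s3 s4 s4 (Nat.land (Nat.land za (Nat.shiftRight m (Nat.land (Nat.shiftRight (Nat.shiftRight m (nat_lit 34)) (Nat.land s1 (nat_lit 0x1ffff))) (nat_lit 0x1ffff)))) (Nat.shiftRight m (Nat.land (Nat.shiftRight (Nat.shiftRight m (Nat.land (Nat.shiftRight (Nat.shiftRight m (Nat.land (Nat.shiftRight (Nat.shiftRight m (nat_lit 34)) (Nat.land s1 (nat_lit 0x1ffff))) (nat_lit 0x1ffff)))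
  (nat_lit 17)) (nat_lit 0x1ffff))) (nat_lit 34)) (nat_lit 0x1ffff)))) (Nat.add ac (Nat.land (Nat.shiftRight m (Nat.land (Nat.shiftRight m (Nat.land (Nat.shiftRight (Nat.shiftRight m (Nat.land (Nat.shiftRight (Nat.shiftRight m (nat_lit 34)) (Nat.land s1 (nat_lit 0x1ffff))) (nat_lit 0x1ffff))) (nat_lit 17)) (nat_lit 0x1ffff))) (nat_lit 0x1ffff))) (Nat.shiftLeft (Nat.land p (nat_lit 65535)) (nat_lit 70))))⟩,
  rfl, rfl⟩
noncomputable def en188 : Ent := ⟨[nat_lit 15, nat_lit 2, nat_lit 1, nat_lit 3, nat_lit 13],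
  fun K p w => ⟨fun m x s1 s2 s3 s4 za ac => (K p (Nat.add (Nat.add w (nat_lit 0x10000000000000000)) (nat_lit 0x10000000000000000))).1 m (Nat.shiftRight m (Nat.land (Nat.shiftRight (Nat.shiftRight m (Nat.land (Nat.shiftRight m (Nat.land (Nat.shiftRight (Nat.shiftRight m (nat_lit 34)) (Nat.land (Nat.shiftRight (Nat.shiftRight m (Nat.land (Nat.shiftRight x (nat_lit 34)) (nat_lit 0x1ffff))) (nat_lit 17))
  (nat_lit 0x1ffff))) (nat_lit 0x1ffff))) (nat_lit 0x1ffff))) (nat_lit 34)) (nat_lit 0x1ffff))) s1 s2 s3 s4 (Nat.land (Nat.land za (Nat.shiftRight m (Nat.land (Nat.shiftRight x (nat_lit 34)) (nat_lit 0x1ffff)))) (Nat.shiftRight m (Nat.land (Nat.shiftRight (Nat.shiftRight m (nat_lit 34)) (Nat.land (Nat.shiftRight (Nat.shiftRight m (Nat.land (Nat.shiftRight x (nat_lit 34)) (nat_lit 0x1ffff))) (nat_lit 17))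
  (nat_lit 0x1ffff))) (nat_lit 0x1ffff)))) (Nat.add (Nat.add ac (Nat.land x (nat_lit 0x10000000000000000))) (Nat.land (Nat.shiftRight m (Nat.land (Nat.shiftRight (Nat.shiftRight m (Nat.land (Nat.shiftRight m (Nat.land (Nat.shiftRight (Nat.shiftRight m (nat_lit 34)) (Nat.land (Nat.shiftRight (Nat.shiftRight m (Nat.land (Nat.shiftRight x (nat_lit 34)) (nat_lit 0x1ffff))) (nat_lit 17)) (nat_lit 0x1ffff))) (nat_lit 0x1ffff))) (nat_lit 0x1ffff))) (nat_lit 34)) (nat_lit 0x1ffff))) (nat_lit 0x10000000000000000)))⟩,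
  fun K p w => ⟨fun m x s1 s2 s3 s4 za ac => (K p (Nat.add (Nat.add w (nat_lit 0x10000000000000000)) (nat_lit 0x10000000000000000))).1 m (Nat.shiftRight m (Nat.land (Nat.shiftRight (Nat.shiftRight m (Nat.land (Nat.shiftRight (Nat.shiftRight m (Nat.land (Nat.shiftRight (Nat.shiftRight m (nat_lit 34)) (Nat.land (Nat.shiftRight m (Nat.land (Nat.shiftRight x (nat_lit 34)) (nat_lit 0x1ffff))) (nat_lit 0x1ffff)))
  (nat_lit 0x1ffff))) (nat_lit 17)) (nat_lit 0x1ffff))) (nat_lit 34)) (nat_lit 0x1ffff))) s1 s2 s3 s4 (Nat.land (Nat.land za (Nat.shiftRight m (Nat.land (Nat.shiftRight x (nat_lit 34)) (nat_lit 0x1ffff)))) (Nat.shiftRight m (Nat.land (Nat.shiftRight (Nat.shiftRight m (nat_lit 34)) (Nat.land (Nat.shiftRight m (Nat.land (Nat.shiftRight x (nat_lit 34)) (nat_lit 0x1ffff))) (nat_lit 0x1ffff))) (nat_lit 0x1ffff))))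
  (Nat.add (Nat.add ac (Nat.land x (nat_lit 0x10000000000000000))) (Nat.land (Nat.shiftRight m (Nat.land (Nat.shiftRight (Nat.shiftRight m (Nat.land (Nat.shiftRight (Nat.shiftRight m (Nat.land (Nat.shiftRight (Nat.shiftRight m (nat_lit 34)) (Nat.land (Nat.shiftRight m (Nat.land (Nat.shiftRight x (nat_lit 34)) (nat_lit 0x1ffff))) (nat_lit 0x1ffff))) (nat_lit 0x1ffff))) (nat_lit 17)) (nat_lit 0x1ffff))) (nat_lit 34)) (nat_lit 0x1ffff))) (nat_lit 0x10000000000000000)))⟩,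
  rfl, rfl⟩
noncomputable def en189 : Ent := ⟨[nat_lit 9, nat_lit 8, nat_lit 1, nat_lit 12, nat_lit 12, nat_lit 1, nat_lit 12, nat_lit 12],
  fun K p w => ⟨fun m x s1 s2 s3 s4 za ac => (K (Nat.shiftRight (Nat.shiftRight (Nat.shiftRight (Nat.shiftRight p (nat_lit 28)) (nat_lit 28)) (nat_lit 28)) (nat_lit 28)) (Nat.add (Nat.add (Nat.add (Nat.add w (plA p)) (plA (Nat.shiftRight p (nat_lit 28)))) (plA (Nat.shiftRight (Nat.shiftRight p (nat_lit 28)) (nat_lit 28)))) (plA (Nat.shiftRight (Nat.shiftRight (Nat.shiftRight p (nat_lit 28)) (nat_lit 28))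
  (nat_lit 28))))).1 m (Nat.shiftRight m (Nat.land (Nat.shiftRight (Nat.shiftRight m (nat_lit 34)) (Nat.land (Nat.shiftRight (Nat.shiftRight m (Nat.land (Nat.shiftRight (Nat.shiftRight m (nat_lit 34)) (Nat.land (Nat.shiftRight s1 (nat_lit 17)) (nat_lit 0x1ffff))) (nat_lit 0x1ffff))) (nat_lit 17)) (nat_lit 0x1ffff))) (nat_lit 0x1ffff))) s1 s2 s3 s4 (Nat.land (Nat.land za (Nat.shiftRight m (Nat.land
  (Nat.shiftRight (Nat.shiftRight m (nat_lit 34)) (Nat.land (Nat.shiftRight s1 (nat_lit 17)) (nat_lit 0x1ffff))) (nat_lit 0x1ffff)))) (Nat.shiftRight m (Nat.land (Nat.shiftRight (Nat.shiftRight m (nat_lit 34)) (Nat.land (Nat.shiftRight (Nat.shiftRight m (Nat.land (Nat.shiftRight (Nat.shiftRight m (nat_lit 34)) (Nat.land (Nat.shiftRight s1 (nat_lit 17)) (nat_lit 0x1ffff))) (nat_lit 0x1ffff))) (nat_lit 17))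
  (nat_lit 0x1ffff))) (nat_lit 0x1ffff)))) (Nat.add (Nat.add (Nat.add (Nat.add ac (Nat.land (Nat.shiftRight m (Nat.land (Nat.shiftRight (Nat.shiftRight m (nat_lit 34)) (Nat.land (Nat.shiftRight s1 (nat_lit 17)) (nat_lit 0x1ffff))) (nat_lit 0x1ffff))) (plA p))) (Nat.land (Nat.shiftRight m (Nat.land (Nat.shiftRight (Nat.shiftRight m (nat_lit 34)) (Nat.land (Nat.shiftRight s1 (nat_lit 17)) (nat_lit 0x1ffff)))
  (nat_lit 0x1ffff))) (plA (Nat.shiftRight p (nat_lit 28))))) (Nat.land (Nat.shiftRight m (Nat.land (Nat.shiftRight (Nat.shiftRight m (nat_lit 34)) (Nat.land (Nat.shiftRight (Nat.shiftRight m (Nat.land (Nat.shiftRight (Nat.shiftRight m (nat_lit 34)) (Nat.land (Nat.shiftRight s1 (nat_lit 17)) (nat_lit 0x1ffff))) (nat_lit 0x1ffff))) (nat_lit 17)) (nat_lit 0x1ffff))) (nat_lit 0x1ffff))) (plA (Nat.shiftRight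
  (Nat.shiftRight p (nat_lit 28)) (nat_lit 28))))) (Nat.land (Nat.shiftRight m (Nat.land (Nat.shiftRight (Nat.shiftRight m (nat_lit 34)) (Nat.land (Nat.shiftRight (Nat.shiftRight m (Nat.land (Nat.shiftRight (Nat.shiftRight m (nat_lit 34)) (Nat.land (Nat.shiftRight s1 (nat_lit 17)) (nat_lit 0x1ffff))) (nat_lit 0x1ffff))) (nat_lit 17)) (nat_lit 0x1ffff))) (nat_lit 0x1ffff))) (plA (Nat.shiftRight (Nat.shiftRight (Nat.shiftRight p (nat_lit 28)) (nat_lit 28)) (nat_lit 28)))))⟩,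
  fun K p w => ⟨fun m x s1 s2 s3 s4 za ac => (K (Nat.shiftRight (Nat.shiftRight (Nat.shiftRight (Nat.shiftRight p (nat_lit 28)) (nat_lit 28)) (nat_lit 28)) (nat_lit 28)) (Nat.succ (Nat.succ (Nat.succ (Nat.succ w))))).1 m (Nat.shiftRight m (Nat.land (Nat.shiftRight (Nat.shiftRight m (nat_lit 34)) (Nat.land (Nat.shiftRight m (Nat.land (Nat.shiftRight (Nat.shiftRight m (nat_lit 34)) (Nat.land s1 (nat_lit 0x1ffff)))
  (nat_lit 0x1ffff))) (nat_lit 0x1ffff))) (nat_lit 0x1ffff))) s1 s2 s3 s4 (Nat.land (Nat.land za (Nat.shiftRight m (Nat.land (Nat.shiftRight (Nat.shiftRight m (nat_lit 34)) (Nat.land s1 (nat_lit 0x1ffff))) (nat_lit 0x1ffff)))) (Nat.shiftRight m (Nat.land (Nat.shiftRight (Nat.shiftRight m (nat_lit 34)) (Nat.land (Nat.shiftRight m (Nat.land (Nat.shiftRight (Nat.shiftRight m (nat_lit 34)) (Nat.land s1 (nat_lit 0x1ffff))) (nat_lit 0x1ffff))) (nat_lit 0x1ffff))) (nat_lit 0x1ffff))))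 ac⟩,
  rfl, rfl⟩
noncomputable def en190 : Ent := ⟨[nat_lit 8, nat_lit 3, nat_lit 11, nat_lit 7, nat_lit 10, nat_lit 16, nat_lit 5],
  fun K p w => ⟨fun m x s1 s2 s3 s4 za ac => (K (Nat.shiftRight (Nat.shiftRight (Nat.shiftRight p (nat_lit 16)) (nat_lit 6)) (nat_lit 16)) (Nat.add (Nat.add (Nat.add w (Nat.shiftLeft (Nat.land p (nat_lit 65535)) (nat_lit 70))) (Nat.shiftLeft (Nat.land (Nat.shiftRight p (nat_lit 16)) (nat_lit 63)) (nat_lit 64))) (Nat.shiftLeft (Nat.land (Nat.shiftRight (Nat.shiftRight p (nat_lit 16)) (nat_lit 6)) (nat_lit 65535))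
  (nat_lit 70)))).1 m (Nat.shiftRight m (Nat.land (Nat.shiftRight m (Nat.land (Nat.shiftRight (Nat.shiftRight m (Nat.land x (nat_lit 0x1ffff))) (nat_lit 34)) (nat_lit 0x1ffff))) (nat_lit 0x1ffff))) x s1 s2 s3 za (Nat.add (Nat.add (Nat.add ac (Nat.land (Nat.shiftRight m (Nat.land x (nat_lit 0x1ffff))) (Nat.shiftLeft (Nat.land p (nat_lit 65535)) (nat_lit 70)))) (Nat.land (Nat.shiftRight m (Nat.land (Nat.shiftRight
  (Nat.shiftRight m (Nat.land x (nat_lit 0x1ffff))) (nat_lit 34)) (nat_lit 0x1ffff))) (Nat.shiftLeft (Nat.land (Nat.shiftRight p (nat_lit 16)) (nat_lit 63)) (nat_lit 64)))) (Nat.land (Nat.shiftRight m (Nat.land (Nat.shiftRight (Nat.shiftRight m (Nat.land x (nat_lit 0x1ffff))) (nat_lit 34)) (nat_lit 0x1ffff))) (Nat.shiftLeft (Nat.land (Nat.shiftRight (Nat.shiftRight p (nat_lit 16)) (nat_lit 6)) (nat_lit 65535)) (nat_lit 70))))⟩,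
  fun K p w => ⟨fun m x s1 s2 s3 s4 za ac => (K (Nat.shiftRight (Nat.shiftRight (Nat.shiftRight p (nat_lit 16)) (nat_lit 6)) (nat_lit 16)) (Nat.add (Nat.add (Nat.add w (Nat.shiftLeft (Nat.land p (nat_lit 65535)) (nat_lit 70))) (Nat.shiftLeft (Nat.land (Nat.shiftRight p (nat_lit 16)) (nat_lit 63)) (nat_lit 64))) (Nat.shiftLeft (Nat.land (Nat.shiftRight (Nat.shiftRight p (nat_lit 16)) (nat_lit 6)) (nat_lit 65535))
  (nat_lit 70)))).1 m (Nat.shiftRight m (Nat.land (Nat.shiftRight (Nat.shiftRight m (Nat.land (Nat.shiftRight (Nat.shiftRight m (Nat.land (Nat.shiftRight x (nat_lit 17)) (nat_lit 0x1ffff))) (nat_lit 34)) (nat_lit 0x1ffff))) (nat_lit 17)) (nat_lit 0x1ffff))) x s1 s2 s3 za (Nat.add (Nat.add (Nat.add ac (Nat.land (Nat.shiftRight m (Nat.land (Nat.shiftRight m (Nat.land (Nat.shiftRight x (nat_lit 17)) (nat_lit 0x1ffff)))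
  (nat_lit 0x1ffff))) (Nat.shiftLeft (Nat.land p (nat_lit 65535)) (nat_lit 70)))) (Nat.land (Nat.shiftRight m (Nat.land (Nat.shiftRight (Nat.shiftRight m (Nat.land (Nat.shiftRight x (nat_lit 17)) (nat_lit 0x1ffff))) (nat_lit 34)) (nat_lit 0x1ffff))) (Nat.shiftLeft (Nat.land (Nat.shiftRight p (nat_lit 16)) (nat_lit 63)) (nat_lit 64)))) (Nat.land (Nat.lor (Nat.shiftRight m (Nat.land (Nat.shiftRight m
  (Nat.land (Nat.shiftRight (Nat.shiftRight m (Nat.land (Nat.shiftRight x (nat_lit 17)) (nat_lit 0x1ffff))) (nat_lit 34)) (nat_lit 0x1ffff))) (nat_lit 0x1ffff))) (Nat.shiftRight m (Nat.land (Nat.shiftRight (Nat.shiftRight m (Nat.land (Nat.shiftRight (Nat.shiftRight m (Nat.land (Nat.shiftRight x (nat_lit 17)) (nat_lit 0x1ffff))) (nat_lit 34)) (nat_lit 0x1ffff))) (nat_lit 34)) (nat_lit 0x1ffff)))) (Nat.shiftLeft (Nat.land (Nat.shiftRight (Nat.shiftRight p (nat_lit 16)) (nat_lit 6)) (nat_lit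 65535)) (nat_lit 70))))⟩,
  rfl, rfl⟩
noncomputable def en191 : Ent := ⟨[nat_lit 9, nat_lit 4, nat_lit 11, nat_lit 2, nat_lit 4, nat_lit 11, nat_lit 2],
  fun K p w => ⟨fun m x s1 s2 s3 s4 za ac => (K (Nat.shiftRight (Nat.shiftRight p (nat_lit 16)) (nat_lit 16)) (Nat.add (Nat.add w (Nat.shiftLeft (Nat.land p (nat_lit 65535)) (nat_lit 70))) (Nat.shiftLeft (Nat.land (Nat.shiftRight p (nat_lit 16)) (nat_lit 65535)) (nat_lit 70)))).1 m (Nat.shiftRight m (Nat.land (Nat.shiftRight (Nat.shiftRight m (Nat.land (Nat.shiftRight (Nat.shiftRight m (Nat.land (Nat.shiftRight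
  (Nat.shiftRight m (Nat.land (Nat.shiftRight s1 (nat_lit 17)) (nat_lit 0x1ffff))) (nat_lit 34)) (nat_lit 0x1ffff))) (nat_lit 17)) (nat_lit 0x1ffff))) (nat_lit 34)) (nat_lit 0x1ffff))) s2 s3 s4 s4 (Nat.land (Nat.land za (Nat.shiftRight m (Nat.land (Nat.shiftRight (Nat.shiftRight m (Nat.land (Nat.shiftRight s1 (nat_lit 17)) (nat_lit 0x1ffff))) (nat_lit 34)) (nat_lit 0x1ffff)))) (Nat.shiftRight m (Nat.land
  (Nat.shiftRight (Nat.shiftRight m (Nat.land (Nat.shiftRight (Nat.shiftRight m (Nat.land (Nat.shiftRight (Nat.shiftRight m (Nat.land (Nat.shiftRight s1 (nat_lit 17)) (nat_lit 0x1ffff))) (nat_lit 34)) (nat_lit 0x1ffff))) (nat_lit 17)) (nat_lit 0x1ffff))) (nat_lit 34)) (nat_lit 0x1ffff)))) (Nat.add (Nat.add ac (Nat.land (Nat.shiftRight m (Nat.land (Nat.shiftRight s1 (nat_lit 17)) (nat_lit 0x1ffff))) (Nat.shiftLeft (Nat.land p (nat_lit 65535)) (nat_lit 70)))) (Nat.land (Nat.shiftRight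 m (Nat.land (Nat.shiftRight (Nat.shiftRight m (Nat.land (Nat.shiftRight (Nat.shiftRight m (Nat.land (Nat.shiftRight s1 (nat_lit 17)) (nat_lit 0x1ffff))) (nat_lit 34)) (nat_lit 0x1ffff))) (nat_lit 17)) (nat_lit 0x1ffff))) (Nat.shiftLeft (Nat.land (Nat.shiftRight p (nat_lit 16)) (nat_lit 65535)) (nat_lit 70))))⟩,
  fun K p w => ⟨fun m x s1 s2 s3 s4 za ac => (K (Nat.shiftRight (Nat.shiftRight p (nat_lit 16)) (nat_lit 16)) (Nat.add (Nat.add w (Nat.shiftLeft (Nat.land p (nat_lit 65535)) (nat_lit 70))) (Nat.shiftLeft (Nat.land (Nat.shiftRight p (nat_lit 16)) (nat_lit 65535)) (nat_lit 70)))).1 m (Nat.shiftRight m (Nat.land (Nat.shiftRight (Nat.shiftRight m (Nat.land (Nat.shiftRight m (Nat.land (Nat.shiftRight (Nat.shiftRight m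
  (Nat.land s1 (nat_lit 0x1ffff))) (nat_lit 34)) (nat_lit 0x1ffff))) (nat_lit 0x1ffff))) (nat_lit 34)) (nat_lit 0x1ffff))) s2 s3 s4 s4 (Nat.land (Nat.land za (Nat.shiftRight m (Nat.land (Nat.shiftRight (Nat.shiftRight m (Nat.land s1 (nat_lit 0x1ffff))) (nat_lit 34)) (nat_lit 0x1ffff)))) (Nat.shiftRight m (Nat.land (Nat.shiftRight (Nat.shiftRight m (Nat.land (Nat.shiftRight m (Nat.land (Nat.shiftRight
  (Nat.shiftRight m (Nat.land s1 (nat_lit 0x1ffff))) (nat_lit 34)) (nat_lit 0x1ffff))) (nat_lit 0x1ffff))) (nat_lit 34)) (nat_lit 0x1ffff)))) (Nat.add (Nat.add ac (Nat.land (Nat.shiftRight m (Nat.land (Nat.shiftRight m (Nat.land s1 (nat_lit 0x1ffff))) (nat_lit 0x1ffff))) (Nat.shiftLeft (Nat.land p (nat_lit 65535)) (nat_lit 70)))) (Nat.land (Nat.shiftRight m (Nat.land (Nat.shiftRight m (Nat.land (Nat.shiftRight m (Nat.land (Nat.shiftRight (Nat.shiftRight m (Nat.land s1 (nat_lit 0x1ffff)))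 (nat_lit 34)) (nat_lit 0x1ffff))) (nat_lit 0x1ffff))) (nat_lit 0x1ffff))) (Nat.shiftLeft (Nat.land (Nat.shiftRight p (nat_lit 16)) (nat_lit 65535)) (nat_lit 70))))⟩,
  rfl, rfl⟩
noncomputable def en192 : Ent := ⟨[nat_lit 0, nat_lit 11, nat_lit 9, nat_lit 1, nat_lit 4, nat_lit 11, nat_lit 2, nat_lit 4, nat_lit 11],
  fun K p w => ⟨fun m x s1 s2 s3 s4 za ac => (K (Nat.shiftRight (Nat.shiftRight (Nat.shiftRight p (nat_lit 16)) (nat_lit 16)) (nat_lit 16)) (Nat.add (Nat.add (Nat.add w (Nat.shiftLeft (Nat.land p (nat_lit 65535)) (nat_lit 70))) (Nat.shiftLeft (Nat.land (Nat.shiftRight p (nat_lit 16)) (nat_lit 65535)) (nat_lit 70))) (Nat.shiftLeft (Nat.land (Nat.shiftRight (Nat.shiftRight p (nat_lit 16)) (nat_lit 16))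
  (nat_lit 65535)) (nat_lit 70)))).1 m (Nat.shiftRight m (Nat.land (Nat.shiftRight (Nat.shiftRight m (Nat.land (Nat.shiftRight (Nat.shiftRight m (Nat.land (Nat.shiftRight (Nat.shiftRight m (Nat.land (Nat.shiftRight (Nat.shiftRight m (nat_lit 34)) (Nat.land (Nat.shiftRight s1 (nat_lit 17)) (nat_lit 0x1ffff))) (nat_lit 0x1ffff))) (nat_lit 17)) (nat_lit 0x1ffff))) (nat_lit 34)) (nat_lit 0x1ffff))) (nat_lit 17))
  (nat_lit 0x1ffff))) s2 s3 s4 s4 (Nat.land (Nat.land (Nat.land za (Nat.shiftRight m (Nat.land (Nat.shiftRight (Nat.shiftRight m (nat_lit 34)) (Nat.land x (nat_lit 0x1ffff))) (nat_lit 0x1ffff)))) (Nat.shiftRight m (Nat.land (Nat.shiftRight (Nat.shiftRight m (nat_lit 34)) (Nat.land (Nat.shiftRight s1 (nat_lit 17)) (nat_lit 0x1ffff))) (nat_lit 0x1ffff)))) (Nat.shiftRight m (Nat.land (Nat.shiftRight (Nat.shiftRight m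
  (Nat.land (Nat.shiftRight (Nat.shiftRight m (Nat.land (Nat.shiftRight (Nat.shiftRight m (nat_lit 34)) (Nat.land (Nat.shiftRight s1 (nat_lit 17)) (nat_lit 0x1ffff))) (nat_lit 0x1ffff))) (nat_lit 17)) (nat_lit 0x1ffff))) (nat_lit 34)) (nat_lit 0x1ffff)))) (Nat.add (Nat.add (Nat.add ac (Nat.land (Nat.shiftRight m (Nat.land (Nat.shiftRight (Nat.shiftRight m (nat_lit 34)) (Nat.land x (nat_lit 0x1ffff)))
  (nat_lit 0x1ffff))) (Nat.shiftLeft (Nat.land p (nat_lit 65535)) (nat_lit 70)))) (Nat.land (Nat.shiftRight m (Nat.land (Nat.shiftRight (Nat.shiftRight m (Nat.land (Nat.shiftRight (Nat.shiftRight m (nat_lit 34)) (Nat.land (Nat.shiftRight s1 (nat_lit 17)) (nat_lit 0x1ffff))) (nat_lit 0x1ffff))) (nat_lit 17)) (nat_lit 0x1ffff))) (Nat.shiftLeft (Nat.land (Nat.shiftRight p (nat_lit 16)) (nat_lit 65535))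
  (nat_lit 70)))) (Nat.land (Nat.shiftRight m (Nat.land (Nat.shiftRight (Nat.shiftRight m (Nat.land (Nat.shiftRight (Nat.shiftRight m (Nat.land (Nat.shiftRight (Nat.shiftRight m (Nat.land (Nat.shiftRight (Nat.shiftRight m (nat_lit 34)) (Nat.land (Nat.shiftRight s1 (nat_lit 17)) (nat_lit 0x1ffff))) (nat_lit 0x1ffff))) (nat_lit 17)) (nat_lit 0x1ffff))) (nat_lit 34)) (nat_lit 0x1ffff))) (nat_lit 17)) (nat_lit 0x1ffff))) (Nat.shiftLeft (Nat.land (Nat.shiftRight (Nat.shiftRight p (nat_lit 16)) (nat_lit 16)) (nat_lit 65535)) (nat_lit 70))))⟩,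
  fun K p w => ⟨fun m x s1 s2 s3 s4 za ac => (K (Nat.shiftRight (Nat.shiftRight (Nat.shiftRight p (nat_lit 16)) (nat_lit 16)) (nat_lit 16)) (Nat.add (Nat.add (Nat.add w (Nat.shiftLeft (Nat.land p (nat_lit 65535)) (nat_lit 70))) (Nat.shiftLeft (Nat.land (Nat.shiftRight p (nat_lit 16)) (nat_lit 65535)) (nat_lit 70))) (Nat.shiftLeft (Nat.land (Nat.shiftRight (Nat.shiftRight p (nat_lit 16)) (nat_lit 16))
  (nat_lit 65535)) (nat_lit 70)))).1 m (Nat.shiftRight m (Nat.land (Nat.shiftRight m (Nat.land (Nat.shiftRight (Nat.shiftRight m (Nat.land (Nat.shiftRight m (Nat.land (Nat.shiftRight (Nat.shiftRight m (nat_lit 34)) (Nat.land s1 (nat_lit 0x1ffff))) (nat_lit 0x1ffff))) (nat_lit 0x1ffff))) (nat_lit 34)) (nat_lit 0x1ffff))) (nat_lit 0x1ffff))) s2 s3 s4 s4 (Nat.land (Nat.land (Nat.land za (Nat.shiftRight m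
  (Nat.land (Nat.shiftRight (Nat.shiftRight m (nat_lit 34)) (Nat.land (Nat.shiftRight x (nat_lit 17)) (nat_lit 0x1ffff))) (nat_lit 0x1ffff)))) (Nat.shiftRight m (Nat.land (Nat.shiftRight (Nat.shiftRight m (nat_lit 34)) (Nat.land s1 (nat_lit 0x1ffff))) (nat_lit 0x1ffff)))) (Nat.shiftRight m (Nat.land (Nat.shiftRight (Nat.shiftRight m (Nat.land (Nat.shiftRight m (Nat.land (Nat.shiftRight (Nat.shiftRight m
  (nat_lit 34)) (Nat.land s1 (nat_lit 0x1ffff))) (nat_lit 0x1ffff))) (nat_lit 0x1ffff))) (nat_lit 34)) (nat_lit 0x1ffff)))) (Nat.add (Nat.add (Nat.add ac (Nat.land (Nat.shiftRight m (Nat.land (Nat.shiftRight m (Nat.land (Nat.shiftRight (Nat.shiftRight m (nat_lit 34)) (Nat.land (Nat.shiftRight x (nat_lit 17)) (nat_lit 0x1ffff))) (nat_lit 0x1ffff))) (nat_lit 0x1ffff))) (Nat.shiftLeft (Nat.land p (nat_lit 65535))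
  (nat_lit 70)))) (Nat.land (Nat.shiftRight m (Nat.land (Nat.shiftRight m (Nat.land (Nat.shiftRight m (Nat.land (Nat.shiftRight (Nat.shiftRight m (nat_lit 34)) (Nat.land s1 (nat_lit 0x1ffff))) (nat_lit 0x1ffff))) (nat_lit 0x1ffff))) (nat_lit 0x1ffff))) (Nat.shiftLeft (Nat.land (Nat.shiftRight p (nat_lit 16)) (nat_lit 65535)) (nat_lit 70)))) (Nat.land (Nat.shiftRight m (Nat.land (Nat.shiftRight m (Nat.land
  (Nat.shiftRight m (Nat.land (Nat.shiftRight (Nat.shiftRight m (Nat.land (Nat.shiftRight m (Nat.land (Nat.shiftRight (Nat.shiftRight m (nat_lit 34)) (Nat.land s1 (nat_lit 0x1ffff))) (nat_lit 0x1ffff))) (nat_lit 0x1ffff))) (nat_lit 34)) (nat_lit 0x1ffff))) (nat_lit 0x1ffff))) (nat_lit 0x1ffff))) (Nat.shiftLeft (Nat.land (Nat.shiftRight (Nat.shiftRight p (nat_lit 16)) (nat_lit 16)) (nat_lit 65535)) (nat_lit 70))))⟩,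
  rfl, rfl⟩
noncomputable def en193 : Ent := ⟨[nat_lit 12, nat_lit 12, nat_lit 6],
  fun K p w => ⟨fun m x s1 s2 s3 s4 za ac => (K (Nat.shiftRight (Nat.shiftRight p (nat_lit 28)) (nat_lit 28)) (Nat.add (Nat.add w (plA p)) (plA (Nat.shiftRight p (nat_lit 28))))).1 m (Nat.shiftRight m (Nat.land (Nat.shiftRight x (nat_lit 17)) (nat_lit 0x1ffff))) s1 s2 s3 s4 za (Nat.add (Nat.add ac (Nat.land x (plA p))) (Nat.land x (plA (Nat.shiftRight p (nat_lit 28)))))⟩,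
  fun K p w => ⟨fun m x s1 s2 s3 s4 za ac => (K (Nat.shiftRight (Nat.shiftRight p (nat_lit 28)) (nat_lit 28)) (Nat.succ (Nat.succ w))).1 m (Nat.shiftRight m (Nat.land x (nat_lit 0x1ffff))) s1 s2 s3 s4 za ac⟩,
  rfl, rfl⟩
noncomputable def en194 : Ent := ⟨[nat_lit 8, nat_lit 3, nat_lit 7, nat_lit 10, nat_lit 5, nat_lit 2],
  fun K p w => ⟨fun m x s1 s2 s3 s4 za ac => (K (Nat.shiftRight p (nat_lit 6)) (Nat.add w (Nat.shiftLeft (Nat.land p (nat_lit 63)) (nat_lit 64)))).1 m (Nat.shiftRight m (Nat.land (Nat.shiftRight (Nat.shiftRight m (Nat.land (Nat.shiftRight m (Nat.land (Nat.shiftRight (Nat.shiftRight m (Nat.land x (nat_lit 0x1ffff))) (nat_lit 34)) (nat_lit 0x1ffff))) (nat_lit 0x1ffff))) (nat_lit 34)) (nat_lit 0x1ffff))) x s1 s2 s3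
  (Nat.land za (Nat.shiftRight m (Nat.land (Nat.shiftRight (Nat.shiftRight m (Nat.land (Nat.shiftRight m (Nat.land (Nat.shiftRight (Nat.shiftRight m (Nat.land x (nat_lit 0x1ffff))) (nat_lit 34)) (nat_lit 0x1ffff))) (nat_lit 0x1ffff))) (nat_lit 34)) (nat_lit 0x1ffff)))) (Nat.add ac (Nat.land (Nat.shiftRight m (Nat.land (Nat.shiftRight (Nat.shiftRight m (Nat.land x (nat_lit 0x1ffff))) (nat_lit 34)) (nat_lit 0x1ffff))) (Nat.shiftLeft (Nat.land p (nat_lit 63)) (nat_lit 64))))⟩,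
  fun K p w => ⟨fun m x s1 s2 s3 s4 za ac => (K (Nat.shiftRight p (nat_lit 6)) (Nat.add w (Nat.shiftLeft (Nat.land p (nat_lit 63)) (nat_lit 64)))).1 m (Nat.shiftRight m (Nat.land (Nat.shiftRight (Nat.shiftRight m (Nat.land (Nat.shiftRight (Nat.shiftRight m (Nat.land (Nat.shiftRight (Nat.shiftRight m (Nat.land (Nat.shiftRight x (nat_lit 17)) (nat_lit 0x1ffff))) (nat_lit 34)) (nat_lit 0x1ffff))) (nat_lit 17))
  (nat_lit 0x1ffff))) (nat_lit 34)) (nat_lit 0x1ffff))) x s1 s2 s3 (Nat.land za (Nat.shiftRight m (Nat.land (Nat.shiftRight (Nat.shiftRight m (Nat.land (Nat.shiftRight (Nat.shiftRight m (Nat.land (Nat.shiftRight (Nat.shiftRight m (Nat.land (Nat.shiftRight x (nat_lit 17)) (nat_lit 0x1ffff))) (nat_lit 34)) (nat_lit 0x1ffff))) (nat_lit 17)) (nat_lit 0x1ffff))) (nat_lit 34)) (nat_lit 0x1ffff)))) (Nat.add ac (Nat.land (Nat.shiftRight m (Nat.land (Nat.shiftRight (Nat.shiftRight m (Nat.land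 (Nat.shiftRight x (nat_lit 17)) (nat_lit 0x1ffff))) (nat_lit 34)) (nat_lit 0x1ffff))) (Nat.shiftLeft (Nat.land p (nat_lit 63)) (nat_lit 64))))⟩,
  rfl, rfl⟩
noncomputable def en195 : Ent := ⟨[nat_lit 0, nat_lit 0, nat_lit 0],
  fun K p w => ⟨fun m x s1 s2 s3 s4 za ac => (K p w).1 m (Nat.shiftRight m (Nat.land (Nat.shiftRight (Nat.shiftRight m (nat_lit 34)) (Nat.land (Nat.shiftRight m (Nat.land (Nat.shiftRight (Nat.shiftRight m (nat_lit 34)) (Nat.land (Nat.shiftRight m (Nat.land (Nat.shiftRight (Nat.shiftRight m (nat_lit 34)) (Nat.land x (nat_lit 0x1ffff))) (nat_lit 0x1ffff))) (nat_lit 0x1ffff))) (nat_lit 0x1ffff))) (nat_lit 0x1ffff)))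
  (nat_lit 0x1ffff))) s1 s2 s3 s4 (Nat.land (Nat.land (Nat.land za (Nat.shiftRight m (Nat.land (Nat.shiftRight (Nat.shiftRight m (nat_lit 34)) (Nat.land x (nat_lit 0x1ffff))) (nat_lit 0x1ffff)))) (Nat.shiftRight m (Nat.land (Nat.shiftRight (Nat.shiftRight m (nat_lit 34)) (Nat.land (Nat.shiftRight m (Nat.land (Nat.shiftRight (Nat.shiftRight m (nat_lit 34)) (Nat.land x (nat_lit 0x1ffff))) (nat_lit 0x1ffff)))
  (nat_lit 0x1ffff))) (nat_lit 0x1ffff)))) (Nat.shiftRight m (Nat.land (Nat.shiftRight (Nat.shiftRight m (nat_lit 34)) (Nat.land (Nat.shiftRight m (Nat.land (Nat.shiftRight (Nat.shiftRight m (nat_lit 34)) (Nat.land (Nat.shiftRight m (Nat.land (Nat.shiftRight (Nat.shiftRight m (nat_lit 34)) (Nat.land x (nat_lit 0x1ffff))) (nat_lit 0x1ffff))) (nat_lit 0x1ffff))) (nat_lit 0x1ffff))) (nat_lit 0x1ffff))) (nat_lit 0x1ffff)))) ac⟩,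
  fun K p w => ⟨fun m x s1 s2 s3 s4 za ac => (K p w).1 m (Nat.shiftRight m (Nat.land (Nat.shiftRight (Nat.shiftRight m (nat_lit 34)) (Nat.land (Nat.shiftRight (Nat.shiftRight m (Nat.land (Nat.shiftRight (Nat.shiftRight m (nat_lit 34)) (Nat.land (Nat.shiftRight (Nat.shiftRight m (Nat.land (Nat.shiftRight (Nat.shiftRight m (nat_lit 34)) (Nat.land (Nat.shiftRight x (nat_lit 17)) (nat_lit 0x1ffff))) (nat_lit 0x1ffff)))
  (nat_lit 17)) (nat_lit 0x1ffff))) (nat_lit 0x1ffff))) (nat_lit 17)) (nat_lit 0x1ffff))) (nat_lit 0x1ffff))) s1 s2 s3 s4 (Nat.land (Nat.land (Nat.land za (Nat.shiftRight m (Nat.land (Nat.shiftRight (Nat.shiftRight m (nat_lit 34)) (Nat.land (Nat.shiftRight x (nat_lit 17)) (nat_lit 0x1ffff))) (nat_lit 0x1ffff)))) (Nat.shiftRight m (Nat.land (Nat.shiftRight (Nat.shiftRight m (nat_lit 34)) (Nat.land (Nat.shiftRight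
  (Nat.shiftRight m (Nat.land (Nat.shiftRight (Nat.shiftRight m (nat_lit 34)) (Nat.land (Nat.shiftRight x (nat_lit 17)) (nat_lit 0x1ffff))) (nat_lit 0x1ffff))) (nat_lit 17)) (nat_lit 0x1ffff))) (nat_lit 0x1ffff)))) (Nat.shiftRight m (Nat.land (Nat.shiftRight (Nat.shiftRight m (nat_lit 34)) (Nat.land (Nat.shiftRight (Nat.shiftRight m (Nat.land (Nat.shiftRight (Nat.shiftRight m (nat_lit 34)) (Nat.land (Nat.shiftRight (Nat.shiftRight m (Nat.land (Nat.shiftRight (Nat.shiftRight m (nat_lit 34)) (Nat.land (Nat.shiftRight x (nat_lit 17)) (nat_lit 0x1ffff))) (nat_lit 0x1ffff))) (nat_lit 17)) (nat_lit 0x1ffff))) (nat_lit 0x1ffff))) (nat_lit 17)) (nat_lit 0x1ffff))) (nat_lit 0x1ffff)))) ac⟩,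
  rfl, rfl⟩
noncomputable def en196 : Ent := ⟨[nat_lit 9, nat_lit 1, nat_lit 4, nat_lit 11, nat_lit 2, nat_lit 8, nat_lit 0, nat_lit 9, nat_lit 4, nat_lit 11],
  fun K p w => ⟨fun m x s1 s2 s3 s4 za ac => (K (Nat.shiftRight (Nat.shiftRight p (nat_lit 16)) (nat_lit 16)) (Nat.add (Nat.add w (Nat.shiftLeft (Nat.land p (nat_lit 65535)) (nat_lit 70))) (Nat.shiftLeft (Nat.land (Nat.shiftRight p (nat_lit 16)) (nat_lit 65535)) (nat_lit 70)))).1 m (Nat.shiftRight m (Nat.land (Nat.shiftRight (Nat.shiftRight m (Nat.land (Nat.shiftRight (Nat.shiftRight m (Nat.land (Nat.shiftRight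
  (Nat.shiftRight m (Nat.land (Nat.shiftRight (Nat.shiftRight m (nat_lit 34)) (Nat.land (Nat.shiftRight s1 (nat_lit 17)) (nat_lit 0x1ffff))) (nat_lit 0x1ffff))) (nat_lit 17)) (nat_lit 0x1ffff))) (nat_lit 34)) (nat_lit 0x1ffff))) (nat_lit 17)) (nat_lit 0x1ffff))) s2 s3 s4 s4 (Nat.land (Nat.land (Nat.land za (Nat.shiftRight m (Nat.land (Nat.shiftRight (Nat.shiftRight m (nat_lit 34)) (Nat.land (Nat.shiftRight s1
  (nat_lit 17)) (nat_lit 0x1ffff))) (nat_lit 0x1ffff)))) (Nat.shiftRight m (Nat.land (Nat.shiftRight (Nat.shiftRight m (Nat.land (Nat.shiftRight (Nat.shiftRight m (Nat.land (Nat.shiftRight (Nat.shiftRight m (nat_lit 34)) (Nat.land (Nat.shiftRight s1 (nat_lit 17)) (nat_lit 0x1ffff))) (nat_lit 0x1ffff))) (nat_lit 17)) (nat_lit 0x1ffff))) (nat_lit 34)) (nat_lit 0x1ffff)))) (Nat.shiftRight m (Nat.land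
  (Nat.shiftRight (Nat.shiftRight m (nat_lit 34)) (Nat.land (Nat.shiftRight m (Nat.land (Nat.shiftRight (Nat.shiftRight m (Nat.land (Nat.shiftRight (Nat.shiftRight m (Nat.land (Nat.shiftRight (Nat.shiftRight m (nat_lit 34)) (Nat.land (Nat.shiftRight s1 (nat_lit 17)) (nat_lit 0x1ffff))) (nat_lit 0x1ffff))) (nat_lit 17)) (nat_lit 0x1ffff))) (nat_lit 34)) (nat_lit 0x1ffff))) (nat_lit 0x1ffff))) (nat_lit 0x1ffff))))
  (Nat.add (Nat.add ac (Nat.land (Nat.shiftRight m (Nat.land (Nat.shiftRight (Nat.shiftRight m (Nat.land (Nat.shiftRight (Nat.shiftRight m (nat_lit 34)) (Nat.land (Nat.shiftRight s1 (nat_lit 17)) (nat_lit 0x1ffff))) (nat_lit 0x1ffff))) (nat_lit 17)) (nat_lit 0x1ffff))) (Nat.shiftLeft (Nat.land p (nat_lit 65535)) (nat_lit 70)))) (Nat.land (Nat.shiftRight m (Nat.land (Nat.shiftRight (Nat.shiftRight m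
  (Nat.land (Nat.shiftRight (Nat.shiftRight m (Nat.land (Nat.shiftRight (Nat.shiftRight m (Nat.land (Nat.shiftRight (Nat.shiftRight m (nat_lit 34)) (Nat.land (Nat.shiftRight s1 (nat_lit 17)) (nat_lit 0x1ffff))) (nat_lit 0x1ffff))) (nat_lit 17)) (nat_lit 0x1ffff))) (nat_lit 34)) (nat_lit 0x1ffff))) (nat_lit 17)) (nat_lit 0x1ffff))) (Nat.shiftLeft (Nat.land (Nat.shiftRight p (nat_lit 16)) (nat_lit 65535)) (nat_lit 70))))⟩,
  fun K p w => ⟨fun m x s1 s2 s3 s4 za ac => (K (Nat.shiftRight (Nat.shiftRight p (nat_lit 16)) (nat_lit 16)) (Nat.add (Nat.add w (Nat.shiftLeft (Nat.land p (nat_lit 65535)) (nat_lit 70))) (Nat.shiftLeft (Nat.land (Nat.shiftRight p (nat_lit 16)) (nat_lit 65535)) (nat_lit 70)))).1 m (Nat.shiftRight m (Nat.land (Nat.shiftRight m (Nat.land (Nat.shiftRight (Nat.shiftRight m (Nat.land (Nat.shiftRight m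
  (Nat.land (Nat.shiftRight (Nat.shiftRight m (nat_lit 34)) (Nat.land s1 (nat_lit 0x1ffff))) (nat_lit 0x1ffff))) (nat_lit 0x1ffff))) (nat_lit 34)) (nat_lit 0x1ffff))) (nat_lit 0x1ffff))) s2 s3 s4 s4 (Nat.land (Nat.land (Nat.land za (Nat.shiftRight m (Nat.land (Nat.shiftRight (Nat.shiftRight m (nat_lit 34)) (Nat.land s1 (nat_lit 0x1ffff))) (nat_lit 0x1ffff)))) (Nat.shiftRight m (Nat.land (Nat.shiftRight
  (Nat.shiftRight m (Nat.land (Nat.shiftRight m (Nat.land (Nat.shiftRight (Nat.shiftRight m (nat_lit 34)) (Nat.land s1 (nat_lit 0x1ffff))) (nat_lit 0x1ffff))) (nat_lit 0x1ffff))) (nat_lit 34)) (nat_lit 0x1ffff)))) (Nat.shiftRight m (Nat.land (Nat.shiftRight (Nat.shiftRight m (nat_lit 34)) (Nat.land (Nat.shiftRight (Nat.shiftRight m (Nat.land (Nat.shiftRight (Nat.shiftRight m (Nat.land (Nat.shiftRight m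
  (Nat.land (Nat.shiftRight (Nat.shiftRight m (nat_lit 34)) (Nat.land s1 (nat_lit 0x1ffff))) (nat_lit 0x1ffff))) (nat_lit 0x1ffff))) (nat_lit 34)) (nat_lit 0x1ffff))) (nat_lit 17)) (nat_lit 0x1ffff))) (nat_lit 0x1ffff)))) (Nat.add (Nat.add ac (Nat.land (Nat.shiftRight m (Nat.land (Nat.shiftRight m (Nat.land (Nat.shiftRight m (Nat.land (Nat.shiftRight (Nat.shiftRight m (nat_lit 34)) (Nat.land s1 (nat_lit 0x1ffff)))
  (nat_lit 0x1ffff))) (nat_lit 0x1ffff))) (nat_lit 0x1ffff))) (Nat.shiftLeft (Nat.land p (nat_lit 65535)) (nat_lit 70)))) (Nat.land (Nat.shiftRight m (Nat.land (Nat.shiftRight m (Nat.land (Nat.shiftRight m (Nat.land (Nat.shiftRight (Nat.shiftRight m (Nat.land (Nat.shiftRight m (Nat.land (Nat.shiftRight (Nat.shiftRight m (nat_lit 34)) (Nat.land s1 (nat_lit 0x1ffff))) (nat_lit 0x1ffff))) (nat_lit 0x1ffff))) (nat_lit 34)) (nat_lit 0x1ffff))) (nat_lit 0x1ffff))) (nat_lit 0x1ffff)))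 (Nat.shiftLeft (Nat.land (Nat.shiftRight p (nat_lit 16)) (nat_lit 65535)) (nat_lit 70))))⟩,
  rfl, rfl⟩
noncomputable def en197 : Ent := ⟨[nat_lit 0, nat_lit 0, nat_lit 0, nat_lit 3, nat_lit 11],
  fun K p w => ⟨fun m x s1 s2 s3 s4 za ac => (K (Nat.shiftRight p (nat_lit 16)) (Nat.add w (Nat.shiftLeft (Nat.land p (nat_lit 65535)) (nat_lit 70)))).1 m (Nat.shiftRight m (Nat.land (Nat.shiftRight m (Nat.land (Nat.shiftRight (Nat.shiftRight m (nat_lit 34)) (Nat.land (Nat.shiftRight m (Nat.land (Nat.shiftRight (Nat.shiftRight m (nat_lit 34)) (Nat.land (Nat.shiftRight m (Nat.land (Nat.shiftRight (Nat.shiftRight m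
  (nat_lit 34)) (Nat.land x (nat_lit 0x1ffff))) (nat_lit 0x1ffff))) (nat_lit 0x1ffff))) (nat_lit 0x1ffff))) (nat_lit 0x1ffff))) (nat_lit 0x1ffff))) (nat_lit 0x1ffff))) s1 s2 s3 s4 (Nat.land (Nat.land (Nat.land za (Nat.shiftRight m (Nat.land (Nat.shiftRight (Nat.shiftRight m (nat_lit 34)) (Nat.land x (nat_lit 0x1ffff))) (nat_lit 0x1ffff)))) (Nat.shiftRight m (Nat.land (Nat.shiftRight (Nat.shiftRight m
  (nat_lit 34)) (Nat.land (Nat.shiftRight m (Nat.land (Nat.shiftRight (Nat.shiftRight m (nat_lit 34)) (Nat.land x (nat_lit 0x1ffff))) (nat_lit 0x1ffff))) (nat_lit 0x1ffff))) (nat_lit 0x1ffff)))) (Nat.shiftRight m (Nat.land (Nat.shiftRight (Nat.shiftRight m (nat_lit 34)) (Nat.land (Nat.shiftRight m (Nat.land (Nat.shiftRight (Nat.shiftRight m (nat_lit 34)) (Nat.land (Nat.shiftRight m (Nat.land (Nat.shiftRight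
  (Nat.shiftRight m (nat_lit 34)) (Nat.land x (nat_lit 0x1ffff))) (nat_lit 0x1ffff))) (nat_lit 0x1ffff))) (nat_lit 0x1ffff))) (nat_lit 0x1ffff))) (nat_lit 0x1ffff)))) (Nat.add ac (Nat.land (Nat.shiftRight m (Nat.land (Nat.shiftRight m (Nat.land (Nat.shiftRight (Nat.shiftRight m (nat_lit 34)) (Nat.land (Nat.shiftRight m (Nat.land (Nat.shiftRight (Nat.shiftRight m (nat_lit 34)) (Nat.land (Nat.shiftRight m (Nat.land (Nat.shiftRight (Nat.shiftRight m (nat_lit 34)) (Nat.land x (nat_lit 0x1ffff))) (nat_lit 0x1ffff))) (nat_lit 0x1ffff))) (nat_lit 0x1ffff))) (nat_lit 0x1ffff))) (nat_lit 0x1ffff))) (nat_lit 0x1ffff))) (Nat.shiftLeft (Nat.land p (nat_lit 65535)) (nat_lit 70))))⟩,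
  fun K p w => ⟨fun m x s1 s2 s3 s4 za ac => (K (Nat.shiftRight p (nat_lit 16)) (Nat.add w (Nat.shiftLeft (Nat.land p (nat_lit 65535)) (nat_lit 70)))).1 m (Nat.shiftRight m (Nat.land (Nat.shiftRight (Nat.shiftRight m (Nat.land (Nat.shiftRight (Nat.shiftRight m (nat_lit 34)) (Nat.land (Nat.shiftRight (Nat.shiftRight m (Nat.land (Nat.shiftRight (Nat.shiftRight m (nat_lit 34)) (Nat.land (Nat.shiftRight
  (Nat.shiftRight m (Nat.land (Nat.shiftRight (Nat.shiftRight m (nat_lit 34)) (Nat.land (Nat.shiftRight x (nat_lit 17)) (nat_lit 0x1ffff))) (nat_lit 0x1ffff))) (nat_lit 17)) (nat_lit 0x1ffff))) (nat_lit 0x1ffff))) (nat_lit 17)) (nat_lit 0x1ffff))) (nat_lit 0x1ffff))) (nat_lit 17)) (nat_lit 0x1ffff))) s1 s2 s3 s4 (Nat.land (Nat.land (Nat.land za (Nat.shiftRight m (Nat.land (Nat.shiftRight (Nat.shiftRight m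
  (nat_lit 34)) (Nat.land (Nat.shiftRight x (nat_lit 17)) (nat_lit 0x1ffff))) (nat_lit 0x1ffff)))) (Nat.shiftRight m (Nat.land (Nat.shiftRight (Nat.shiftRight m (nat_lit 34)) (Nat.land (Nat.shiftRight (Nat.shiftRight m (Nat.land (Nat.shiftRight (Nat.shiftRight m (nat_lit 34)) (Nat.land (Nat.shiftRight x (nat_lit 17)) (nat_lit 0x1ffff))) (nat_lit 0x1ffff))) (nat_lit 17)) (nat_lit 0x1ffff))) (nat_lit 0x1ffff))))
  (Nat.shiftRight m (Nat.land (Nat.shiftRight (Nat.shiftRight m (nat_lit 34)) (Nat.land (Nat.shiftRight (Nat.shiftRight m (Nat.land (Nat.shiftRight (Nat.shiftRight m (nat_lit 34)) (Nat.land (Nat.shiftRight (Nat.shiftRight m (Nat.land (Nat.shiftRight (Nat.shiftRight m (nat_lit 34)) (Nat.land (Nat.shiftRight x (nat_lit 17)) (nat_lit 0x1ffff))) (nat_lit 0x1ffff))) (nat_lit 17)) (nat_lit 0x1ffff))) (nat_lit 0x1ffff)))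
  (nat_lit 17)) (nat_lit 0x1ffff))) (nat_lit 0x1ffff)))) (Nat.add ac (Nat.land (Nat.shiftRight m (Nat.land (Nat.shiftRight m (Nat.land (Nat.shiftRight (Nat.shiftRight m (Nat.land (Nat.shiftRight (Nat.shiftRight m (nat_lit 34)) (Nat.land (Nat.shiftRight (Nat.shiftRight m (Nat.land (Nat.shiftRight (Nat.shiftRight m (nat_lit 34)) (Nat.land (Nat.shiftRight (Nat.shiftRight m (Nat.land (Nat.shiftRight (Nat.shiftRight m (nat_lit 34)) (Nat.land (Nat.shiftRight x (nat_lit 17)) (nat_lit 0x1ffff))) (nat_lit 0x1ffff))) (nat_lit 17)) (nat_lit 0x1ffff))) (nat_lit 0x1ffff))) (nat_lit 17)) (nat_lit 0x1ffff))) (nat_lit 0x1ffff))) (nat_lit 17)) (nat_lit 0x1ffff))) (nat_lit 0x1ffff))) (Nat.shiftLeft (Nat.land p (nat_lit 65535)) (nat_lit 70))))⟩,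
  rfl, rfl⟩
noncomputable def en198 : Ent := ⟨[nat_lit 14, nat_lit 11, nat_lit 12, nat_lit 12, nat_lit 8],
  fun K p w => ⟨fun m x s1 s2 s3 s4 za ac => (K (Nat.shiftRight (Nat.shiftRight (Nat.shiftRight p (nat_lit 16)) (nat_lit 28)) (nat_lit 28)) (Nat.add (Nat.add (Nat.add w (Nat.shiftLeft (Nat.land p (nat_lit 65535)) (nat_lit 70))) (plA (Nat.shiftRight p (nat_lit 16)))) (plA (Nat.shiftRight (Nat.shiftRight p (nat_lit 16)) (nat_lit 28))))).1 m x x s1 s2 s3 (Nat.land za x) (Nat.add (Nat.add (Nat.add ac (Nat.land x (Nat.shiftLeft (Nat.land p (nat_lit 65535)) (nat_lit 70)))) (Nat.land x (plA (Nat.shiftRight p (nat_lit 16))))) (Nat.land x (plA (Nat.shiftRight (Nat.shiftRight p (nat_lit 16)) (nat_lit 28)))))⟩,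
  fun K p w => ⟨fun m x s1 s2 s3 s4 za ac => (K (Nat.shiftRight (Nat.shiftRight (Nat.shiftRight p (nat_lit 16)) (nat_lit 28)) (nat_lit 28)) (Nat.succ (Nat.succ (Nat.add w (Nat.shiftLeft (Nat.land p (nat_lit 65535)) (nat_lit 70)))))).1 m x x s1 s2 s3 (Nat.land za x) (Nat.add ac (Nat.land (Nat.shiftRight m (Nat.land x (nat_lit 0x1ffff))) (Nat.shiftLeft (Nat.land p (nat_lit 65535)) (nat_lit 70))))⟩,
  rfl, rfl⟩
noncomputable def en199 : Ent := ⟨[nat_lit 0, nat_lit 4, nat_lit 13],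
  fun K p w => ⟨fun m x s1 s2 s3 s4 za ac => (K p (Nat.add w (nat_lit 0x10000000000000000))).1 m (Nat.shiftRight m (Nat.land (Nat.shiftRight (Nat.shiftRight m (Nat.land (Nat.shiftRight (Nat.shiftRight m (Nat.land (Nat.shiftRight (Nat.shiftRight m (nat_lit 34)) (Nat.land x (nat_lit 0x1ffff))) (nat_lit 0x1ffff))) (nat_lit 17)) (nat_lit 0x1ffff))) (nat_lit 34)) (nat_lit 0x1ffff))) s1 s2 s3 s4 (Nat.land za
  (Nat.shiftRight m (Nat.land (Nat.shiftRight (Nat.shiftRight m (nat_lit 34)) (Nat.land x (nat_lit 0x1ffff))) (nat_lit 0x1ffff)))) (Nat.add ac (Nat.land (Nat.shiftRight m (Nat.land (Nat.shiftRight (Nat.shiftRight m (Nat.land (Nat.shiftRight (Nat.shiftRight m (Nat.land (Nat.shiftRight (Nat.shiftRight m (nat_lit 34)) (Nat.land x (nat_lit 0x1ffff))) (nat_lit 0x1ffff))) (nat_lit 17)) (nat_lit 0x1ffff))) (nat_lit 34)) (nat_lit 0x1ffff))) (nat_lit 0x10000000000000000)))⟩,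
  fun K p w => ⟨fun m x s1 s2 s3 s4 za ac => (K p (Nat.add w (nat_lit 0x10000000000000000))).1 m (Nat.shiftRight m (Nat.land (Nat.shiftRight (Nat.shiftRight m (Nat.land (Nat.shiftRight m (Nat.land (Nat.shiftRight (Nat.shiftRight m (nat_lit 34)) (Nat.land (Nat.shiftRight x (nat_lit 17)) (nat_lit 0x1ffff))) (nat_lit 0x1ffff))) (nat_lit 0x1ffff))) (nat_lit 34)) (nat_lit 0x1ffff))) s1 s2 s3 s4 (Nat.land za
  (Nat.shiftRight m (Nat.land (Nat.shiftRight (Nat.shiftRight m (nat_lit 34)) (Nat.land (Nat.shiftRight x (nat_lit 17)) (nat_lit 0x1ffff))) (nat_lit 0x1ffff)))) (Nat.add ac (Nat.land (Nat.shiftRight m (Nat.land (Nat.shiftRight (Nat.shiftRight m (Nat.land (Nat.shiftRight m (Nat.land (Nat.shiftRight (Nat.shiftRight m (nat_lit 34)) (Nat.land (Nat.shiftRight x (nat_lit 17)) (nat_lit 0x1ffff))) (nat_lit 0x1ffff))) (nat_lit 0x1ffff))) (nat_lit 34)) (nat_lit 0x1ffff))) (nat_lit 0x10000000000000000)))⟩,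
  rfl, rfl⟩
noncomputable def en200 : Ent := ⟨[nat_lit 9, nat_lit 2, nat_lit 8, nat_lit 0, nat_lit 8, nat_lit 0],
  fun K p w => ⟨fun m x s1 s2 s3 s4 za ac => (K p w).1 m (Nat.shiftRight m (Nat.land (Nat.shiftRight (Nat.shiftRight m (nat_lit 34)) (Nat.land (Nat.shiftRight m (Nat.land (Nat.shiftRight (Nat.shiftRight m (nat_lit 34)) (Nat.land (Nat.shiftRight m (Nat.land (Nat.shiftRight s1 (nat_lit 34)) (nat_lit 0x1ffff))) (nat_lit 0x1ffff))) (nat_lit 0x1ffff))) (nat_lit 0x1ffff))) (nat_lit 0x1ffff))) (Nat.shiftRight m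
  (Nat.land (Nat.shiftRight (Nat.shiftRight m (nat_lit 34)) (Nat.land (Nat.shiftRight m (Nat.land (Nat.shiftRight s1 (nat_lit 34)) (nat_lit 0x1ffff))) (nat_lit 0x1ffff))) (nat_lit 0x1ffff))) (Nat.shiftRight m (Nat.land (Nat.shiftRight s1 (nat_lit 34)) (nat_lit 0x1ffff))) s2 s3 (Nat.land (Nat.land (Nat.land za (Nat.shiftRight m (Nat.land (Nat.shiftRight s1 (nat_lit 34)) (nat_lit 0x1ffff)))) (Nat.shiftRight m
  (Nat.land (Nat.shiftRight (Nat.shiftRight m (nat_lit 34)) (Nat.land (Nat.shiftRight m (Nat.land (Nat.shiftRight s1 (nat_lit 34)) (nat_lit 0x1ffff))) (nat_lit 0x1ffff))) (nat_lit 0x1ffff)))) (Nat.shiftRight m (Nat.land (Nat.shiftRight (Nat.shiftRight m (nat_lit 34)) (Nat.land (Nat.shiftRight m (Nat.land (Nat.shiftRight (Nat.shiftRight m (nat_lit 34)) (Nat.land (Nat.shiftRight m (Nat.land (Nat.shiftRight s1 (nat_lit 34)) (nat_lit 0x1ffff))) (nat_lit 0x1ffff))) (nat_lit 0x1ffff)))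 (nat_lit 0x1ffff))) (nat_lit 0x1ffff)))) ac⟩,
  fun K p w => ⟨fun m x s1 s2 s3 s4 za ac => (K p w).1 m (Nat.shiftRight m (Nat.land (Nat.shiftRight (Nat.shiftRight m (nat_lit 34)) (Nat.land (Nat.shiftRight (Nat.shiftRight m (Nat.land (Nat.shiftRight (Nat.shiftRight m (nat_lit 34)) (Nat.land (Nat.shiftRight (Nat.shiftRight m (Nat.land (Nat.shiftRight s1 (nat_lit 34)) (nat_lit 0x1ffff))) (nat_lit 17)) (nat_lit 0x1ffff))) (nat_lit 0x1ffff))) (nat_lit 17))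
  (nat_lit 0x1ffff))) (nat_lit 0x1ffff))) (Nat.shiftRight m (Nat.land (Nat.shiftRight (Nat.shiftRight m (nat_lit 34)) (Nat.land (Nat.shiftRight (Nat.shiftRight m (Nat.land (Nat.shiftRight s1 (nat_lit 34)) (nat_lit 0x1ffff))) (nat_lit 17)) (nat_lit 0x1ffff))) (nat_lit 0x1ffff))) (Nat.shiftRight m (Nat.land (Nat.shiftRight s1 (nat_lit 34)) (nat_lit 0x1ffff))) s2 s3 (Nat.land (Nat.land (Nat.land za (Nat.shiftRight m
  (Nat.land (Nat.shiftRight s1 (nat_lit 34)) (nat_lit 0x1ffff)))) (Nat.shiftRight m (Nat.land (Nat.shiftRight (Nat.shiftRight m (nat_lit 34)) (Nat.land (Nat.shiftRight (Nat.shiftRight m (Nat.land (Nat.shiftRight s1 (nat_lit 34)) (nat_lit 0x1ffff))) (nat_lit 17)) (nat_lit 0x1ffff))) (nat_lit 0x1ffff)))) (Nat.shiftRight m (Nat.land (Nat.shiftRight (Nat.shiftRight m (nat_lit 34)) (Nat.land (Nat.shiftRight (Nat.shiftRight m (Nat.land (Nat.shiftRight (Nat.shiftRight m (nat_lit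 34)) (Nat.land (Nat.shiftRight (Nat.shiftRight m (Nat.land (Nat.shiftRight s1 (nat_lit 34)) (nat_lit 0x1ffff))) (nat_lit 17)) (nat_lit 0x1ffff))) (nat_lit 0x1ffff))) (nat_lit 17)) (nat_lit 0x1ffff))) (nat_lit 0x1ffff)))) ac⟩,
  rfl, rfl⟩
noncomputable def en201 : Ent := ⟨[nat_lit 9, nat_lit 1, nat_lit 1, nat_lit 11],
  fun K p w => ⟨fun m x s1 s2 s3 s4 za ac => (K (Nat.shiftRight p (nat_lit 16)) (Nat.add w (Nat.shiftLeft (Nat.land p (nat_lit 65535)) (nat_lit 70)))).1 m (Nat.shiftRight m (Nat.land (Nat.shiftRight (Nat.shiftRight m (nat_lit 34)) (Nat.land (Nat.shiftRight (Nat.shiftRight m (Nat.land (Nat.shiftRight (Nat.shiftRight m (nat_lit 34)) (Nat.land (Nat.shiftRight s1 (nat_lit 17)) (nat_lit 0x1ffff))) (nat_lit 0x1ffff)))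
  (nat_lit 17)) (nat_lit 0x1ffff))) (nat_lit 0x1ffff))) s2 s3 s4 s4 (Nat.land (Nat.land za (Nat.shiftRight m (Nat.land (Nat.shiftRight (Nat.shiftRight m (nat_lit 34)) (Nat.land (Nat.shiftRight s1 (nat_lit 17)) (nat_lit 0x1ffff))) (nat_lit 0x1ffff)))) (Nat.shiftRight m (Nat.land (Nat.shiftRight (Nat.shiftRight m (nat_lit 34)) (Nat.land (Nat.shiftRight (Nat.shiftRight m (Nat.land (Nat.shiftRight (Nat.shiftRight m
  (nat_lit 34)) (Nat.land (Nat.shiftRight s1 (nat_lit 17)) (nat_lit 0x1ffff))) (nat_lit 0x1ffff))) (nat_lit 17)) (nat_lit 0x1ffff))) (nat_lit 0x1ffff)))) (Nat.add ac (Nat.land (Nat.shiftRight m (Nat.land (Nat.shiftRight (Nat.shiftRight m (nat_lit 34)) (Nat.land (Nat.shiftRight (Nat.shiftRight m (Nat.land (Nat.shiftRight (Nat.shiftRight m (nat_lit 34)) (Nat.land (Nat.shiftRight s1 (nat_lit 17)) (nat_lit 0x1ffff))) (nat_lit 0x1ffff))) (nat_lit 17)) (nat_lit 0x1ffff))) (nat_lit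 0x1ffff))) (Nat.shiftLeft (Nat.land p (nat_lit 65535)) (nat_lit 70))))⟩,
  fun K p w => ⟨fun m x s1 s2 s3 s4 za ac => (K (Nat.shiftRight p (nat_lit 16)) (Nat.add w (Nat.shiftLeft (Nat.land p (nat_lit 65535)) (nat_lit 70)))).1 m (Nat.shiftRight m (Nat.land (Nat.shiftRight (Nat.shiftRight m (nat_lit 34)) (Nat.land (Nat.shiftRight m (Nat.land (Nat.shiftRight (Nat.shiftRight m (nat_lit 34)) (Nat.land s1 (nat_lit 0x1ffff))) (nat_lit 0x1ffff))) (nat_lit 0x1ffff))) (nat_lit 0x1ffff))) s2 s3 s4 s4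
  (Nat.land (Nat.land za (Nat.shiftRight m (Nat.land (Nat.shiftRight (Nat.shiftRight m (nat_lit 34)) (Nat.land s1 (nat_lit 0x1ffff))) (nat_lit 0x1ffff)))) (Nat.shiftRight m (Nat.land (Nat.shiftRight (Nat.shiftRight m (nat_lit 34)) (Nat.land (Nat.shiftRight m (Nat.land (Nat.shiftRight (Nat.shiftRight m (nat_lit 34)) (Nat.land s1 (nat_lit 0x1ffff))) (nat_lit 0x1ffff))) (nat_lit 0x1ffff))) (nat_lit 0x1ffff)))) (Nat.add ac (Nat.land (Nat.shiftRight m (Nat.land (Nat.shiftRight m (Nat.land (Nat.shiftRight (Nat.shiftRight m (nat_lit 34)) (Nat.land (Nat.shiftRight m (Nat.land (Nat.shiftRight (Nat.shiftRight m (nat_lit 34)) (Nat.land s1 (nat_lit 0x1ffff))) (nat_lit 0x1ffff))) (nat_lit 0x1ffff))) (nat_lit 0x1ffff))) (nat_lit 0x1ffff))) (Nat.shiftLeft (Nat.land p (nat_lit 65535)) (nat_lit 70))))⟩,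
  rfl, rfl⟩
noncomputable def en202 : Ent := ⟨[nat_lit 7, nat_lit 16, nat_lit 5],
  fun K p w => ⟨fun m x s1 s2 s3 s4 za ac => (K (Nat.shiftRight p (nat_lit 16)) (Nat.add w (Nat.shiftLeft (Nat.land p (nat_lit 65535)) (nat_lit 70)))).1 m (Nat.shiftRight m (Nat.land (Nat.shiftRight m (Nat.land (Nat.shiftRight x (nat_lit 34)) (nat_lit 0x1ffff))) (nat_lit 0x1ffff))) s1 s2 s3 s4 za (Nat.add ac (Nat.land (Nat.shiftRight m (Nat.land (Nat.shiftRight x (nat_lit 34)) (nat_lit 0x1ffff))) (Nat.shiftLeft (Nat.land p (nat_lit 65535)) (nat_lit 70))))⟩,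
  fun K p w => ⟨fun m x s1 s2 s3 s4 za ac => (K (Nat.shiftRight p (nat_lit 16)) (Nat.add w (Nat.shiftLeft (Nat.land p (nat_lit 65535)) (nat_lit 70)))).1 m (Nat.shiftRight m (Nat.land (Nat.shiftRight (Nat.shiftRight m (Nat.land (Nat.shiftRight x (nat_lit 34)) (nat_lit 0x1ffff))) (nat_lit 17)) (nat_lit 0x1ffff))) s1 s2 s3 s4 za (Nat.add ac (Nat.land (Nat.lor (Nat.shiftRight m (Nat.land (Nat.shiftRight m (Nat.land (Nat.shiftRight x (nat_lit 34)) (nat_lit 0x1ffff))) (nat_lit 0x1ffff))) (Nat.shiftRight m (Nat.land (Nat.shiftRight (Nat.shiftRight m (Nat.land (Nat.shiftRight x (nat_lit 34)) (nat_lit 0x1ffff))) (nat_lit 34)) (nat_lit 0x1ffff)))) (Nat.shiftLeft (Nat.land p (nat_lit 65535)) (nat_lit 70))))⟩,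
  rfl, rfl⟩
noncomputable def en203 : Ent := ⟨[nat_lit 3, nat_lit 7, nat_lit 10, nat_lit 6],
  fun K p w => ⟨fun m x s1 s2 s3 s4 za ac => (K (Nat.shiftRight p (nat_lit 6)) (Nat.add w (Nat.shiftLeft (Nat.land p (nat_lit 63)) (nat_lit 64)))).1 m (Nat.shiftRight m (Nat.land (Nat.shiftRight (Nat.shiftRight m (Nat.land (Nat.shiftRight (Nat.shiftRight m (Nat.land x (nat_lit 0x1ffff))) (nat_lit 34)) (nat_lit 0x1ffff))) (nat_lit 17)) (nat_lit 0x1ffff))) s1 s2 s3 s4 za (Nat.add ac (Nat.land (Nat.shiftRight m (Nat.land (Nat.shiftRight (Nat.shiftRight m (Nat.land x (nat_lit 0x1ffff))) (nat_lit 34)) (nat_lit 0x1ffff))) (Nat.shiftLeft (Nat.land p (nat_lit 63)) (nat_lit 64))))⟩,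
  fun K p w => ⟨fun m x s1 s2 s3 s4 za ac => (K (Nat.shiftRight p (nat_lit 6)) (Nat.add w (Nat.shiftLeft (Nat.land p (nat_lit 63)) (nat_lit 64)))).1 m (Nat.shiftRight m (Nat.land (Nat.shiftRight m (Nat.land (Nat.shiftRight (Nat.shiftRight m (Nat.land (Nat.shiftRight x (nat_lit 17)) (nat_lit 0x1ffff))) (nat_lit 34)) (nat_lit 0x1ffff))) (nat_lit 0x1ffff))) s1 s2 s3 s4 za (Nat.add ac (Nat.land (Nat.shiftRight m (Nat.land (Nat.shiftRight (Nat.shiftRight m (Nat.land (Nat.shiftRight x (nat_lit 17)) (nat_lit 0x1ffff))) (nat_lit 34)) (nat_lit 0x1ffff))) (Nat.shiftLeft (Nat.land p (nat_lit 63)) (nat_lit 64))))⟩,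
  rfl, rfl⟩
noncomputable def en204 : Ent := ⟨[nat_lit 8, nat_lit 3, nat_lit 11, nat_lit 2, nat_lit 8, nat_lit 0],
  fun K p w => ⟨fun m x s1 s2 s3 s4 za ac => (K (Nat.shiftRight p (nat_lit 16)) (Nat.add w (Nat.shiftLeft (Nat.land p (nat_lit 65535)) (nat_lit 70)))).1 m (Nat.shiftRight m (Nat.land (Nat.shiftRight (Nat.shiftRight m (nat_lit 34)) (Nat.land (Nat.shiftRight m (Nat.land (Nat.shiftRight (Nat.shiftRight m (Nat.land x (nat_lit 0x1ffff))) (nat_lit 34)) (nat_lit 0x1ffff))) (nat_lit 0x1ffff))) (nat_lit 0x1ffff)))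
  (Nat.shiftRight m (Nat.land (Nat.shiftRight (Nat.shiftRight m (Nat.land x (nat_lit 0x1ffff))) (nat_lit 34)) (nat_lit 0x1ffff))) x s1 s2 (Nat.land (Nat.land za (Nat.shiftRight m (Nat.land (Nat.shiftRight (Nat.shiftRight m (Nat.land x (nat_lit 0x1ffff))) (nat_lit 34)) (nat_lit 0x1ffff)))) (Nat.shiftRight m (Nat.land (Nat.shiftRight (Nat.shiftRight m (nat_lit 34)) (Nat.land (Nat.shiftRight m (Nat.land (Nat.shiftRight (Nat.shiftRight m (Nat.land x (nat_lit 0x1ffff))) (nat_lit 34)) (nat_lit 0x1ffff))) (nat_lit 0x1ffff))) (nat_lit 0x1ffff)))) (Nat.add ac (Nat.land (Nat.shiftRight m (Nat.land x (nat_lit 0x1ffff))) (Nat.shiftLeft (Nat.land p (nat_lit 65535)) (nat_lit 70))))⟩,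
  fun K p w => ⟨fun m x s1 s2 s3 s4 za ac => (K (Nat.shiftRight p (nat_lit 16)) (Nat.add w (Nat.shiftLeft (Nat.land p (nat_lit 65535)) (nat_lit 70)))).1 m (Nat.shiftRight m (Nat.land (Nat.shiftRight (Nat.shiftRight m (nat_lit 34)) (Nat.land (Nat.shiftRight (Nat.shiftRight m (Nat.land (Nat.shiftRight (Nat.shiftRight m (Nat.land (Nat.shiftRight x (nat_lit 17)) (nat_lit 0x1ffff))) (nat_lit 34)) (nat_lit 0x1ffff)))
  (nat_lit 17)) (nat_lit 0x1ffff))) (nat_lit 0x1ffff))) (Nat.shiftRight m (Nat.land (Nat.shiftRight (Nat.shiftRight m (Nat.land (Nat.shiftRight x (nat_lit 17)) (nat_lit 0x1ffff))) (nat_lit 34)) (nat_lit 0x1ffff))) x s1 s2 (Nat.land (Nat.land za (Nat.shiftRight m (Nat.land (Nat.shiftRight (Nat.shiftRight m (Nat.land (Nat.shiftRight x (nat_lit 17)) (nat_lit 0x1ffff))) (nat_lit 34)) (nat_lit 0x1ffff))))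
  (Nat.shiftRight m (Nat.land (Nat.shiftRight (Nat.shiftRight m (nat_lit 34)) (Nat.land (Nat.shiftRight (Nat.shiftRight m (Nat.land (Nat.shiftRight (Nat.shiftRight m (Nat.land (Nat.shiftRight x (nat_lit 17)) (nat_lit 0x1ffff))) (nat_lit 34)) (nat_lit 0x1ffff))) (nat_lit 17)) (nat_lit 0x1ffff))) (nat_lit 0x1ffff)))) (Nat.add ac (Nat.land (Nat.shiftRight m (Nat.land (Nat.shiftRight m (Nat.land (Nat.shiftRight x (nat_lit 17)) (nat_lit 0x1ffff))) (nat_lit 0x1ffff))) (Nat.shiftLeft (Nat.land p (nat_lit 65535)) (nat_lit 70))))⟩,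
  rfl, rfl⟩
noncomputable def en205 : Ent := ⟨[nat_lit 10, nat_lit 8, nat_lit 5, nat_lit 16, nat_lit 9, nat_lit 2, nat_lit 8, nat_lit 0],
  fun K p w => ⟨fun m x s1 s2 s3 s4 za ac => (K (Nat.shiftRight (Nat.shiftRight p (nat_lit 6)) (nat_lit 16)) (Nat.add (Nat.add w (Nat.shiftLeft (Nat.land p (nat_lit 63)) (nat_lit 64))) (Nat.shiftLeft (Nat.land (Nat.shiftRight p (nat_lit 6)) (nat_lit 65535)) (nat_lit 70)))).1 m (Nat.shiftRight m (Nat.land (Nat.shiftRight (Nat.shiftRight m (nat_lit 34)) (Nat.land (Nat.shiftRight m (Nat.land (Nat.shiftRight x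
  (nat_lit 34)) (nat_lit 0x1ffff))) (nat_lit 0x1ffff))) (nat_lit 0x1ffff))) (Nat.shiftRight m (Nat.land (Nat.shiftRight x (nat_lit 34)) (nat_lit 0x1ffff))) s1 s2 s3 (Nat.land (Nat.land za (Nat.shiftRight m (Nat.land (Nat.shiftRight x (nat_lit 34)) (nat_lit 0x1ffff)))) (Nat.shiftRight m (Nat.land (Nat.shiftRight (Nat.shiftRight m (nat_lit 34)) (Nat.land (Nat.shiftRight m (Nat.land (Nat.shiftRight x (nat_lit 34)) (nat_lit 0x1ffff))) (nat_lit 0x1ffff))) (nat_lit 0x1ffff)))) (Nat.add (Nat.add ac (Nat.land x (Nat.shiftLeft (Nat.land p (nat_lit 63)) (nat_lit 64)))) (Nat.land (Nat.shiftRight m (Nat.land x (nat_lit 0x1ffff))) (Nat.shiftLeft (Nat.land (Nat.shiftRight p (nat_lit 6)) (nat_lit 65535)) (nat_lit 70))))⟩,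
  fun K p w => ⟨fun m x s1 s2 s3 s4 za ac => (K (Nat.shiftRight (Nat.shiftRight p (nat_lit 6)) (nat_lit 16)) (Nat.add (Nat.add w (Nat.shiftLeft (Nat.land p (nat_lit 63)) (nat_lit 64))) (Nat.shiftLeft (Nat.land (Nat.shiftRight p (nat_lit 6)) (nat_lit 65535)) (nat_lit 70)))).1 m (Nat.shiftRight m (Nat.land (Nat.shiftRight (Nat.shiftRight m (nat_lit 34)) (Nat.land (Nat.shiftRight (Nat.shiftRight m (Nat.land
  (Nat.shiftRight x (nat_lit 34)) (nat_lit 0x1ffff))) (nat_lit 17)) (nat_lit 0x1ffff))) (nat_lit 0x1ffff))) (Nat.shiftRight m (Nat.land (Nat.shiftRight x (nat_lit 34)) (nat_lit 0x1ffff))) s1 s2 s3 (Nat.land (Nat.land za (Nat.shiftRight m (Nat.land (Nat.shiftRight x (nat_lit 34)) (nat_lit 0x1ffff)))) (Nat.shiftRight m (Nat.land (Nat.shiftRight (Nat.shiftRight m (nat_lit 34)) (Nat.land (Nat.shiftRight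
  (Nat.shiftRight m (Nat.land (Nat.shiftRight x (nat_lit 34)) (nat_lit 0x1ffff))) (nat_lit 17)) (nat_lit 0x1ffff))) (nat_lit 0x1ffff)))) (Nat.add (Nat.add ac (Nat.land x (Nat.shiftLeft (Nat.land p (nat_lit 63)) (nat_lit 64)))) (Nat.land (Nat.lor (Nat.shiftRight m (Nat.land (Nat.shiftRight m (Nat.land (Nat.shiftRight x (nat_lit 17)) (nat_lit 0x1ffff))) (nat_lit 0x1ffff))) (Nat.shiftRight m (Nat.land (Nat.shiftRight (Nat.shiftRight m (Nat.land (Nat.shiftRight x (nat_lit 17)) (nat_lit 0x1ffff))) (nat_lit 34)) (nat_lit 0x1ffff)))) (Nat.shiftLeft (Nat.land (Nat.shiftRight p (nat_lit 6)) (nat_lit 65535)) (nat_lit 70))))⟩,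
  rfl, rfl⟩
noncomputable def en206 : Ent := ⟨[nat_lit 9, nat_lit 7, nat_lit 5],
  fun K p w => ⟨fun m x s1 s2 s3 s4 za ac => (K p w).1 m (Nat.shiftRight m (Nat.land (Nat.shiftRight m (Nat.land (Nat.shiftRight s1 (nat_lit 34)) (nat_lit 0x1ffff))) (nat_lit 0x1ffff))) s2 s3 s4 s4 za ac⟩,
  fun K p w => ⟨fun m x s1 s2 s3 s4 za ac => (K p w).1 m (Nat.shiftRight m (Nat.land (Nat.shiftRight (Nat.shiftRight m (Nat.land (Nat.shiftRight s1 (nat_lit 34)) (nat_lit 0x1ffff))) (nat_lit 17)) (nat_lit 0x1ffff))) s2 s3 s4 s4 za ac⟩,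
  rfl, rfl⟩
noncomputable def en207 : Ent := ⟨[nat_lit 8, nat_lit 3, nat_lit 11, nat_lit 9, nat_lit 1, nat_lit 1],
  fun K p w => ⟨fun m x s1 s2 s3 s4 za ac => (K (Nat.shiftRight p (nat_lit 16)) (Nat.add w (Nat.shiftLeft (Nat.land p (nat_lit 65535)) (nat_lit 70)))).1 m (Nat.shiftRight m (Nat.land (Nat.shiftRight (Nat.shiftRight m (nat_lit 34)) (Nat.land (Nat.shiftRight (Nat.shiftRight m (Nat.land (Nat.shiftRight (Nat.shiftRight m (nat_lit 34)) (Nat.land (Nat.shiftRight x (nat_lit 17)) (nat_lit 0x1ffff))) (nat_lit 0x1ffff)))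
  (nat_lit 17)) (nat_lit 0x1ffff))) (nat_lit 0x1ffff))) s1 s2 s3 s3 (Nat.land (Nat.land za (Nat.shiftRight m (Nat.land (Nat.shiftRight (Nat.shiftRight m (nat_lit 34)) (Nat.land (Nat.shiftRight x (nat_lit 17)) (nat_lit 0x1ffff))) (nat_lit 0x1ffff)))) (Nat.shiftRight m (Nat.land (Nat.shiftRight (Nat.shiftRight m (nat_lit 34)) (Nat.land (Nat.shiftRight (Nat.shiftRight m (Nat.land (Nat.shiftRight (Nat.shiftRight m (nat_lit 34)) (Nat.land (Nat.shiftRight x (nat_lit 17)) (nat_lit 0x1ffff))) (nat_lit 0x1ffff))) (nat_lit 17)) (nat_lit 0x1ffff))) (nat_lit 0x1ffff)))) (Nat.add ac (Nat.land (Nat.shiftRight m (Nat.land x (nat_lit 0x1ffff))) (Nat.shiftLeft (Nat.land p (nat_lit 65535)) (nat_lit 70))))⟩,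
  fun K p w => ⟨fun m x s1 s2 s3 s4 za ac => (K (Nat.shiftRight p (nat_lit 16)) (Nat.add w (Nat.shiftLeft (Nat.land p (nat_lit 65535)) (nat_lit 70)))).1 m (Nat.shiftRight m (Nat.land (Nat.shiftRight (Nat.shiftRight m (nat_lit 34)) (Nat.land (Nat.shiftRight m (Nat.land (Nat.shiftRight (Nat.shiftRight m (nat_lit 34)) (Nat.land x (nat_lit 0x1ffff))) (nat_lit 0x1ffff))) (nat_lit 0x1ffff))) (nat_lit 0x1ffff))) s1 s2 s3 s3
  (Nat.land (Nat.land za (Nat.shiftRight m (Nat.land (Nat.shiftRight (Nat.shiftRight m (nat_lit 34)) (Nat.land x (nat_lit 0x1ffff))) (nat_lit 0x1ffff)))) (Nat.shiftRight m (Nat.land (Nat.shiftRight (Nat.shiftRight m (nat_lit 34)) (Nat.land (Nat.shiftRight m (Nat.land (Nat.shiftRight (Nat.shiftRight m (nat_lit 34)) (Nat.land x (nat_lit 0x1ffff))) (nat_lit 0x1ffff))) (nat_lit 0x1ffff))) (nat_lit 0x1ffff)))) (Nat.add ac (Nat.land (Nat.shiftRight m (Nat.land (Nat.shiftRight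 m (Nat.land (Nat.shiftRight x (nat_lit 17)) (nat_lit 0x1ffff))) (nat_lit 0x1ffff))) (Nat.shiftLeft (Nat.land p (nat_lit 65535)) (nat_lit 70))))⟩,
  rfl, rfl⟩
noncomputable def en208 : Ent := ⟨[nat_lit 9, nat_lit 4, nat_lit 11, nat_lit 2, nat_lit 4, nat_lit 11],
  fun K p w => ⟨fun m x s1 s2 s3 s4 za ac => (K (Nat.shiftRight (Nat.shiftRight p (nat_lit 16)) (nat_lit 16)) (Nat.add (Nat.add w (Nat.shiftLeft (Nat.land p (nat_lit 65535)) (nat_lit 70))) (Nat.shiftLeft (Nat.land (Nat.shiftRight p (nat_lit 16)) (nat_lit 65535)) (nat_lit 70)))).1 m (Nat.shiftRight m (Nat.land (Nat.shiftRight (Nat.shiftRight m (Nat.land (Nat.shiftRight (Nat.shiftRight m (Nat.land (Nat.shiftRight s1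
  (nat_lit 17)) (nat_lit 0x1ffff))) (nat_lit 34)) (nat_lit 0x1ffff))) (nat_lit 17)) (nat_lit 0x1ffff))) s2 s3 s4 s4 (Nat.land za (Nat.shiftRight m (Nat.land (Nat.shiftRight (Nat.shiftRight m (Nat.land (Nat.shiftRight s1 (nat_lit 17)) (nat_lit 0x1ffff))) (nat_lit 34)) (nat_lit 0x1ffff)))) (Nat.add (Nat.add ac (Nat.land (Nat.shiftRight m (Nat.land (Nat.shiftRight s1 (nat_lit 17)) (nat_lit 0x1ffff))) (Nat.shiftLeft (Nat.land p (nat_lit 65535)) (nat_lit 70)))) (Nat.land (Nat.shiftRight m (Nat.land (Nat.shiftRight (Nat.shiftRight m (Nat.land (Nat.shiftRight (Nat.shiftRight m (Nat.land (Nat.shiftRight s1 (nat_lit 17)) (nat_lit 0x1ffff))) (nat_lit 34)) (nat_lit 0x1ffff))) (nat_lit 17)) (nat_lit 0x1ffff))) (Nat.shiftLeft (Nat.land (Nat.shiftRight p (nat_lit 16)) (nat_lit 65535)) (nat_lit 70))))⟩,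
  fun K p w => ⟨fun m x s1 s2 s3 s4 za ac => (K (Nat.shiftRight (Nat.shiftRight p (nat_lit 16)) (nat_lit 16)) (Nat.add (Nat.add w (Nat.shiftLeft (Nat.land p (nat_lit 65535)) (nat_lit 70))) (Nat.shiftLeft (Nat.land (Nat.shiftRight p (nat_lit 16)) (nat_lit 65535)) (nat_lit 70)))).1 m (Nat.shiftRight m (Nat.land (Nat.shiftRight m (Nat.land (Nat.shiftRight (Nat.shiftRight m (Nat.land s1 (nat_lit 0x1ffff)))
  (nat_lit 34)) (nat_lit 0x1ffff))) (nat_lit 0x1ffff))) s2 s3 s4 s4 (Nat.land za (Nat.shiftRight m (Nat.land (Nat.shiftRight (Nat.shiftRight m (Nat.land s1 (nat_lit 0x1ffff))) (nat_lit 34)) (nat_lit 0x1ffff)))) (Nat.add (Nat.add ac (Nat.land (Nat.shiftRight m (Nat.land (Nat.shiftRight m (Nat.land s1 (nat_lit 0x1ffff))) (nat_lit 0x1ffff))) (Nat.shiftLeft (Nat.land p (nat_lit 65535)) (nat_lit 70)))) (Nat.land (Nat.shiftRight m (Nat.land (Nat.shiftRight m (Nat.land (Nat.shiftRight m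 (Nat.land (Nat.shiftRight (Nat.shiftRight m (Nat.land s1 (nat_lit 0x1ffff))) (nat_lit 34)) (nat_lit 0x1ffff))) (nat_lit 0x1ffff))) (nat_lit 0x1ffff))) (Nat.shiftLeft (Nat.land (Nat.shiftRight p (nat_lit 16)) (nat_lit 65535)) (nat_lit 70))))⟩,
  rfl, rfl⟩
noncomputable def en209 : Ent := ⟨[nat_lit 3, nat_lit 12, nat_lit 12, nat_lit 2, nat_lit 3, nat_lit 12, nat_lit 12],
  fun K p w => ⟨fun m x s1 s2 s3 s4 za ac => (K (Nat.shiftRight (Nat.shiftRight (Nat.shiftRight (Nat.shiftRight p (nat_lit 28)) (nat_lit 28)) (nat_lit 28)) (nat_lit 28)) (Nat.add (Nat.add (Nat.add (Nat.add w (plA p)) (plA (Nat.shiftRight p (nat_lit 28)))) (plA (Nat.shiftRight (Nat.shiftRight p (nat_lit 28)) (nat_lit 28)))) (plA (Nat.shiftRight (Nat.shiftRight (Nat.shiftRight p (nat_lit 28)) (nat_lit 28))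
  (nat_lit 28))))).1 m (Nat.shiftRight m (Nat.land (Nat.shiftRight m (Nat.land (Nat.shiftRight (Nat.shiftRight m (Nat.land x (nat_lit 0x1ffff))) (nat_lit 34)) (nat_lit 0x1ffff))) (nat_lit 0x1ffff))) s1 s2 s3 s4 (Nat.land za (Nat.shiftRight m (Nat.land (Nat.shiftRight (Nat.shiftRight m (Nat.land x (nat_lit 0x1ffff))) (nat_lit 34)) (nat_lit 0x1ffff)))) (Nat.add (Nat.add (Nat.add (Nat.add ac (Nat.land
  (Nat.shiftRight m (Nat.land x (nat_lit 0x1ffff))) (plA p))) (Nat.land (Nat.shiftRight m (Nat.land x (nat_lit 0x1ffff))) (plA (Nat.shiftRight p (nat_lit 28))))) (Nat.land (Nat.shiftRight m (Nat.land (Nat.shiftRight m (Nat.land (Nat.shiftRight (Nat.shiftRight m (Nat.land x (nat_lit 0x1ffff))) (nat_lit 34)) (nat_lit 0x1ffff))) (nat_lit 0x1ffff))) (plA (Nat.shiftRight (Nat.shiftRight p (nat_lit 28)) (nat_lit 28))))) (Nat.land (Nat.shiftRight m (Nat.land (Nat.shiftRight m (Nat.land (Nat.shiftRight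 (Nat.shiftRight m (Nat.land x (nat_lit 0x1ffff))) (nat_lit 34)) (nat_lit 0x1ffff))) (nat_lit 0x1ffff))) (plA (Nat.shiftRight (Nat.shiftRight (Nat.shiftRight p (nat_lit 28)) (nat_lit 28)) (nat_lit 28)))))⟩,
  fun K p w => ⟨fun m x s1 s2 s3 s4 za ac => (K (Nat.shiftRight (Nat.shiftRight (Nat.shiftRight (Nat.shiftRight p (nat_lit 28)) (nat_lit 28)) (nat_lit 28)) (nat_lit 28)) (Nat.succ (Nat.succ (Nat.succ (Nat.succ w))))).1 m (Nat.shiftRight m (Nat.land (Nat.shiftRight (Nat.shiftRight m (Nat.land (Nat.shiftRight (Nat.shiftRight m (Nat.land (Nat.shiftRight x (nat_lit 17)) (nat_lit 0x1ffff))) (nat_lit 34)) (nat_lit 0x1ffff))) (nat_lit 17)) (nat_lit 0x1ffff))) s1 s2 s3 s4 (Nat.land za (Nat.shiftRight m (Nat.land (Nat.shiftRight (Nat.shiftRight m (Nat.land (Nat.shiftRight x (nat_lit 17)) (nat_lit 0x1ffff))) (nat_lit 34)) (nat_lit 0x1ffff)))) ac⟩,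
  rfl, rfl⟩
noncomputable def en210 : Ent := ⟨[nat_lit 8, nat_lit 0, nat_lit 11, nat_lit 9, nat_lit 4, nat_lit 11],
  fun K p w => ⟨fun m x s1 s2 s3 s4 za ac => (K (Nat.shiftRight (Nat.shiftRight p (nat_lit 16)) (nat_lit 16)) (Nat.add (Nat.add w (Nat.shiftLeft (Nat.land p (nat_lit 65535)) (nat_lit 70))) (Nat.shiftLeft (Nat.land (Nat.shiftRight p (nat_lit 16)) (nat_lit 65535)) (nat_lit 70)))).1 m (Nat.shiftRight m (Nat.land (Nat.shiftRight x (nat_lit 17)) (nat_lit 0x1ffff))) s1 s2 s3 s3 (Nat.land za (Nat.shiftRight m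
  (Nat.land (Nat.shiftRight (Nat.shiftRight m (nat_lit 34)) (Nat.land x (nat_lit 0x1ffff))) (nat_lit 0x1ffff)))) (Nat.add (Nat.add ac (Nat.land (Nat.shiftRight m (Nat.land (Nat.shiftRight (Nat.shiftRight m (nat_lit 34)) (Nat.land x (nat_lit 0x1ffff))) (nat_lit 0x1ffff))) (Nat.shiftLeft (Nat.land p (nat_lit 65535)) (nat_lit 70)))) (Nat.land (Nat.shiftRight m (Nat.land (Nat.shiftRight x (nat_lit 17)) (nat_lit 0x1ffff))) (Nat.shiftLeft (Nat.land (Nat.shiftRight p (nat_lit 16)) (nat_lit 65535)) (nat_lit 70))))⟩,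
  fun K p w => ⟨fun m x s1 s2 s3 s4 za ac => (K (Nat.shiftRight (Nat.shiftRight p (nat_lit 16)) (nat_lit 16)) (Nat.add (Nat.add w (Nat.shiftLeft (Nat.land p (nat_lit 65535)) (nat_lit 70))) (Nat.shiftLeft (Nat.land (Nat.shiftRight p (nat_lit 16)) (nat_lit 65535)) (nat_lit 70)))).1 m (Nat.shiftRight m (Nat.land x (nat_lit 0x1ffff))) s1 s2 s3 s3 (Nat.land za (Nat.shiftRight m (Nat.land (Nat.shiftRight
  (Nat.shiftRight m (nat_lit 34)) (Nat.land (Nat.shiftRight x (nat_lit 17)) (nat_lit 0x1ffff))) (nat_lit 0x1ffff)))) (Nat.add (Nat.add ac (Nat.land (Nat.shiftRight m (Nat.land (Nat.shiftRight m (Nat.land (Nat.shiftRight (Nat.shiftRight m (nat_lit 34)) (Nat.land (Nat.shiftRight x (nat_lit 17)) (nat_lit 0x1ffff))) (nat_lit 0x1ffff))) (nat_lit 0x1ffff))) (Nat.shiftLeft (Nat.land p (nat_lit 65535)) (nat_lit 70)))) (Nat.land (Nat.shiftRight m (Nat.land (Nat.shiftRight m (Nat.land x (nat_lit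 0x1ffff))) (nat_lit 0x1ffff))) (Nat.shiftLeft (Nat.land (Nat.shiftRight p (nat_lit 16)) (nat_lit 65535)) (nat_lit 70))))⟩,
  rfl, rfl⟩
noncomputable def en211 : Ent := ⟨[nat_lit 8, nat_lit 0, nat_lit 11, nat_lit 8, nat_lit 0],
  fun K p w => ⟨fun m x s1 s2 s3 s4 za ac => (K (Nat.shiftRight p (nat_lit 16)) (Nat.add w (Nat.shiftLeft (Nat.land p (nat_lit 65535)) (nat_lit 70)))).1 m (Nat.shiftRight m (Nat.land (Nat.shiftRight (Nat.shiftRight m (nat_lit 34)) (Nat.land (Nat.shiftRight m (Nat.land (Nat.shiftRight (Nat.shiftRight m (nat_lit 34)) (Nat.land x (nat_lit 0x1ffff))) (nat_lit 0x1ffff))) (nat_lit 0x1ffff))) (nat_lit 0x1ffff)))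
  (Nat.shiftRight m (Nat.land (Nat.shiftRight (Nat.shiftRight m (nat_lit 34)) (Nat.land x (nat_lit 0x1ffff))) (nat_lit 0x1ffff))) x s1 s2 (Nat.land (Nat.land za (Nat.shiftRight m (Nat.land (Nat.shiftRight (Nat.shiftRight m (nat_lit 34)) (Nat.land x (nat_lit 0x1ffff))) (nat_lit 0x1ffff)))) (Nat.shiftRight m (Nat.land (Nat.shiftRight (Nat.shiftRight m (nat_lit 34)) (Nat.land (Nat.shiftRight m (Nat.land (Nat.shiftRight (Nat.shiftRight m (nat_lit 34)) (Nat.land x (nat_lit 0x1ffff))) (nat_lit 0x1ffff))) (nat_lit 0x1ffff))) (nat_lit 0x1ffff)))) (Nat.add ac (Nat.land (Nat.shiftRight m (Nat.land (Nat.shiftRight (Nat.shiftRight m (nat_lit 34)) (Nat.land x (nat_lit 0x1ffff))) (nat_lit 0x1ffff))) (Nat.shiftLeft (Nat.land p (nat_lit 65535)) (nat_lit 70))))⟩,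
  fun K p w => ⟨fun m x s1 s2 s3 s4 za ac => (K (Nat.shiftRight p (nat_lit 16)) (Nat.add w (Nat.shiftLeft (Nat.land p (nat_lit 65535)) (nat_lit 70)))).1 m (Nat.shiftRight m (Nat.land (Nat.shiftRight (Nat.shiftRight m (nat_lit 34)) (Nat.land (Nat.shiftRight (Nat.shiftRight m (Nat.land (Nat.shiftRight (Nat.shiftRight m (nat_lit 34)) (Nat.land (Nat.shiftRight x (nat_lit 17)) (nat_lit 0x1ffff))) (nat_lit 0x1ffff)))
  (nat_lit 17)) (nat_lit 0x1ffff))) (nat_lit 0x1ffff))) (Nat.shiftRight m (Nat.land (Nat.shiftRight (Nat.shiftRight m (nat_lit 34)) (Nat.land (Nat.shiftRight x (nat_lit 17)) (nat_lit 0x1ffff))) (nat_lit 0x1ffff))) x s1 s2 (Nat.land (Nat.land za (Nat.shiftRight m (Nat.land (Nat.shiftRight (Nat.shiftRight m (nat_lit 34)) (Nat.land (Nat.shiftRight x (nat_lit 17)) (nat_lit 0x1ffff))) (nat_lit 0x1ffff))))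
  (Nat.shiftRight m (Nat.land (Nat.shiftRight (Nat.shiftRight m (nat_lit 34)) (Nat.land (Nat.shiftRight (Nat.shiftRight m (Nat.land (Nat.shiftRight (Nat.shiftRight m (nat_lit 34)) (Nat.land (Nat.shiftRight x (nat_lit 17)) (nat_lit 0x1ffff))) (nat_lit 0x1ffff))) (nat_lit 17)) (nat_lit 0x1ffff))) (nat_lit 0x1ffff)))) (Nat.add ac (Nat.land (Nat.shiftRight m (Nat.land (Nat.shiftRight m (Nat.land (Nat.shiftRight (Nat.shiftRight m (nat_lit 34)) (Nat.land (Nat.shiftRight x (nat_lit 17)) (nat_lit 0x1ffff))) (nat_lit 0x1ffff))) (nat_lit 0x1ffff))) (Nat.shiftLeft (Nat.land p (nat_lit 65535)) (nat_lit 70))))⟩,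
  rfl, rfl⟩
noncomputable def en212 : Ent := ⟨[nat_lit 9, nat_lit 4, nat_lit 7, nat_lit 10, nat_lit 5, nat_lit 2],
  fun K p w => ⟨fun m x s1 s2 s3 s4 za ac => (K (Nat.shiftRight p (nat_lit 6)) (Nat.add w (Nat.shiftLeft (Nat.land p (nat_lit 63)) (nat_lit 64)))).1 m (Nat.shiftRight m (Nat.land (Nat.shiftRight (Nat.shiftRight m (Nat.land (Nat.shiftRight m (Nat.land (Nat.shiftRight (Nat.shiftRight m (Nat.land (Nat.shiftRight s1 (nat_lit 17)) (nat_lit 0x1ffff))) (nat_lit 34)) (nat_lit 0x1ffff))) (nat_lit 0x1ffff)))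
  (nat_lit 34)) (nat_lit 0x1ffff))) s2 s3 s4 s4 (Nat.land za (Nat.shiftRight m (Nat.land (Nat.shiftRight (Nat.shiftRight m (Nat.land (Nat.shiftRight m (Nat.land (Nat.shiftRight (Nat.shiftRight m (Nat.land (Nat.shiftRight s1 (nat_lit 17)) (nat_lit 0x1ffff))) (nat_lit 34)) (nat_lit 0x1ffff))) (nat_lit 0x1ffff))) (nat_lit 34)) (nat_lit 0x1ffff)))) (Nat.add ac (Nat.land (Nat.shiftRight m (Nat.land (Nat.shiftRight (Nat.shiftRight m (Nat.land (Nat.shiftRight s1 (nat_lit 17)) (nat_lit 0x1ffff))) (nat_lit 34)) (nat_lit 0x1ffff))) (Nat.shiftLeft (Nat.land p (nat_lit 63)) (nat_lit 64))))⟩,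
  fun K p w => ⟨fun m x s1 s2 s3 s4 za ac => (K (Nat.shiftRight p (nat_lit 6)) (Nat.add w (Nat.shiftLeft (Nat.land p (nat_lit 63)) (nat_lit 64)))).1 m (Nat.shiftRight m (Nat.land (Nat.shiftRight (Nat.shiftRight m (Nat.land (Nat.shiftRight (Nat.shiftRight m (Nat.land (Nat.shiftRight (Nat.shiftRight m (Nat.land s1 (nat_lit 0x1ffff))) (nat_lit 34)) (nat_lit 0x1ffff))) (nat_lit 17)) (nat_lit 0x1ffff)))
  (nat_lit 34)) (nat_lit 0x1ffff))) s2 s3 s4 s4 (Nat.land za (Nat.shiftRight m (Nat.land (Nat.shiftRight (Nat.shiftRight m (Nat.land (Nat.shiftRight (Nat.shiftRight m (Nat.land (Nat.shiftRight (Nat.shiftRight m (Nat.land s1 (nat_lit 0x1ffff))) (nat_lit 34)) (nat_lit 0x1ffff))) (nat_lit 17)) (nat_lit 0x1ffff))) (nat_lit 34)) (nat_lit 0x1ffff)))) (Nat.add ac (Nat.land (Nat.shiftRight m (Nat.land (Nat.shiftRight (Nat.shiftRight m (Nat.land s1 (nat_lit 0x1ffff))) (nat_lit 34)) (nat_lit 0x1ffff)))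 (Nat.shiftLeft (Nat.land p (nat_lit 63)) (nat_lit 64))))⟩,
  rfl, rfl⟩
noncomputable def en213 : Ent := ⟨[nat_lit 8, nat_lit 3, nat_lit 11, nat_lit 7, nat_lit 10, nat_lit 5],
  fun K p w => ⟨fun m x s1 s2 s3 s4 za ac => (K (Nat.shiftRight (Nat.shiftRight p (nat_lit 16)) (nat_lit 6)) (Nat.add (Nat.add w (Nat.shiftLeft (Nat.land p (nat_lit 65535)) (nat_lit 70))) (Nat.shiftLeft (Nat.land (Nat.shiftRight p (nat_lit 16)) (nat_lit 63)) (nat_lit 64)))).1 m (Nat.shiftRight m (Nat.land (Nat.shiftRight m (Nat.land (Nat.shiftRight (Nat.shiftRight m (Nat.land x (nat_lit 0x1ffff)))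
  (nat_lit 34)) (nat_lit 0x1ffff))) (nat_lit 0x1ffff))) x s1 s2 s3 za (Nat.add (Nat.add ac (Nat.land (Nat.shiftRight m (Nat.land x (nat_lit 0x1ffff))) (Nat.shiftLeft (Nat.land p (nat_lit 65535)) (nat_lit 70)))) (Nat.land (Nat.shiftRight m (Nat.land (Nat.shiftRight (Nat.shiftRight m (Nat.land x (nat_lit 0x1ffff))) (nat_lit 34)) (nat_lit 0x1ffff))) (Nat.shiftLeft (Nat.land (Nat.shiftRight p (nat_lit 16)) (nat_lit 63)) (nat_lit 64))))⟩,
  fun K p w => ⟨fun m x s1 s2 s3 s4 za ac => (K (Nat.shiftRight (Nat.shiftRight p (nat_lit 16)) (nat_lit 6)) (Nat.add (Nat.add w (Nat.shiftLeft (Nat.land p (nat_lit 65535)) (nat_lit 70))) (Nat.shiftLeft (Nat.land (Nat.shiftRight p (nat_lit 16)) (nat_lit 63)) (nat_lit 64)))).1 m (Nat.shiftRight m (Nat.land (Nat.shiftRight (Nat.shiftRight m (Nat.land (Nat.shiftRight (Nat.shiftRight m (Nat.land (Nat.shiftRight x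
  (nat_lit 17)) (nat_lit 0x1ffff))) (nat_lit 34)) (nat_lit 0x1ffff))) (nat_lit 17)) (nat_lit 0x1ffff))) x s1 s2 s3 za (Nat.add (Nat.add ac (Nat.land (Nat.shiftRight m (Nat.land (Nat.shiftRight m (Nat.land (Nat.shiftRight x (nat_lit 17)) (nat_lit 0x1ffff))) (nat_lit 0x1ffff))) (Nat.shiftLeft (Nat.land p (nat_lit 65535)) (nat_lit 70)))) (Nat.land (Nat.shiftRight m (Nat.land (Nat.shiftRight (Nat.shiftRight m (Nat.land (Nat.shiftRight x (nat_lit 17)) (nat_lit 0x1ffff))) (nat_lit 34)) (nat_lit 0x1ffff))) (Nat.shiftLeft (Nat.land (Nat.shiftRight p (nat_lit 16)) (nat_lit 63)) (nat_lit 64))))⟩,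
  rfl, rfl⟩
noncomputable def en214 : Ent := ⟨[nat_lit 0, nat_lit 4, nat_lit 11, nat_lit 2],
  fun K p w => ⟨fun m x s1 s2 s3 s4 za ac => (K (Nat.shiftRight p (nat_lit 16)) (Nat.add w (Nat.shiftLeft (Nat.land p (nat_lit 65535)) (nat_lit 70)))).1 m (Nat.shiftRight m (Nat.land (Nat.shiftRight (Nat.shiftRight m (Nat.land (Nat.shiftRight (Nat.shiftRight m (Nat.land (Nat.shiftRight (Nat.shiftRight m (nat_lit 34)) (Nat.land x (nat_lit 0x1ffff))) (nat_lit 0x1ffff))) (nat_lit 17)) (nat_lit 0x1ffff)))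
  (nat_lit 34)) (nat_lit 0x1ffff))) s1 s2 s3 s4 (Nat.land (Nat.land za (Nat.shiftRight m (Nat.land (Nat.shiftRight (Nat.shiftRight m (nat_lit 34)) (Nat.land x (nat_lit 0x1ffff))) (nat_lit 0x1ffff)))) (Nat.shiftRight m (Nat.land (Nat.shiftRight (Nat.shiftRight m (Nat.land (Nat.shiftRight (Nat.shiftRight m (Nat.land (Nat.shiftRight (Nat.shiftRight m (nat_lit 34)) (Nat.land x (nat_lit 0x1ffff))) (nat_lit 0x1ffff))) (nat_lit 17)) (nat_lit 0x1ffff))) (nat_lit 34)) (nat_lit 0x1ffff)))) (Nat.add ac (Nat.land (Nat.shiftRight m (Nat.land (Nat.shiftRight (Nat.shiftRight m (Nat.land (Nat.shiftRight (Nat.shiftRight m (nat_lit 34)) (Nat.land x (nat_lit 0x1ffff))) (nat_lit 0x1ffff))) (nat_lit 17)) (nat_lit 0x1ffff))) (Nat.shiftLeft (Nat.land p (nat_lit 65535)) (nat_lit 70))))⟩,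
  fun K p w => ⟨fun m x s1 s2 s3 s4 za ac => (K (Nat.shiftRight p (nat_lit 16)) (Nat.add w (Nat.shiftLeft (Nat.land p (nat_lit 65535)) (nat_lit 70)))).1 m (Nat.shiftRight m (Nat.land (Nat.shiftRight (Nat.shiftRight m (Nat.land (Nat.shiftRight m (Nat.land (Nat.shiftRight (Nat.shiftRight m (nat_lit 34)) (Nat.land (Nat.shiftRight x (nat_lit 17)) (nat_lit 0x1ffff))) (nat_lit 0x1ffff))) (nat_lit 0x1ffff)))
  (nat_lit 34)) (nat_lit 0x1ffff))) s1 s2 s3 s4 (Nat.land (Nat.land za (Nat.shiftRight m (Nat.land (Nat.shiftRight (Nat.shiftRight m (nat_lit 34)) (Nat.land (Nat.shiftRight x (nat_lit 17)) (nat_lit 0x1ffff))) (nat_lit 0x1ffff)))) (Nat.shiftRight m (Nat.land (Nat.shiftRight (Nat.shiftRight m (Nat.land (Nat.shiftRight m (Nat.land (Nat.shiftRight (Nat.shiftRight m (nat_lit 34)) (Nat.land (Nat.shiftRight x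
  (nat_lit 17)) (nat_lit 0x1ffff))) (nat_lit 0x1ffff))) (nat_lit 0x1ffff))) (nat_lit 34)) (nat_lit 0x1ffff)))) (Nat.add ac (Nat.land (Nat.shiftRight m (Nat.land (Nat.shiftRight m (Nat.land (Nat.shiftRight m (Nat.land (Nat.shiftRight (Nat.shiftRight m (nat_lit 34)) (Nat.land (Nat.shiftRight x (nat_lit 17)) (nat_lit 0x1ffff))) (nat_lit 0x1ffff))) (nat_lit 0x1ffff))) (nat_lit 0x1ffff))) (Nat.shiftLeft (Nat.land p (nat_lit 65535)) (nat_lit 70))))⟩,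
  rfl, rfl⟩
noncomputable def en215 : Ent := ⟨[nat_lit 4, nat_lit 13, nat_lit 6],
  fun K p w => ⟨fun m x s1 s2 s3 s4 za ac => (K p (Nat.add w (nat_lit 0x10000000000000000))).1 m (Nat.shiftRight m (Nat.land (Nat.shiftRight (Nat.shiftRight m (Nat.land (Nat.shiftRight (Nat.shiftRight m (Nat.land (Nat.shiftRight x (nat_lit 17)) (nat_lit 0x1ffff))) (nat_lit 34)) (nat_lit 0x1ffff))) (nat_lit 17)) (nat_lit 0x1ffff))) s1 s2 s3 s4 za (Nat.add ac (Nat.land (Nat.shiftRight m (Nat.land (Nat.shiftRight (Nat.shiftRight m (Nat.land (Nat.shiftRight x (nat_lit 17)) (nat_lit 0x1ffff))) (nat_lit 34)) (nat_lit 0x1ffff))) (nat_lit 0x10000000000000000)))⟩,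
  fun K p w => ⟨fun m x s1 s2 s3 s4 za ac => (K p (Nat.add w (nat_lit 0x10000000000000000))).1 m (Nat.shiftRight m (Nat.land (Nat.shiftRight m (Nat.land (Nat.shiftRight (Nat.shiftRight m (Nat.land x (nat_lit 0x1ffff))) (nat_lit 34)) (nat_lit 0x1ffff))) (nat_lit 0x1ffff))) s1 s2 s3 s4 za (Nat.add ac (Nat.land (Nat.shiftRight m (Nat.land (Nat.shiftRight (Nat.shiftRight m (Nat.land x (nat_lit 0x1ffff))) (nat_lit 34)) (nat_lit 0x1ffff))) (nat_lit 0x10000000000000000)))⟩,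
  rfl, rfl⟩
noncomputable def en216 : Ent := ⟨[nat_lit 7, nat_lit 12],
  fun K p w => ⟨fun m x s1 s2 s3 s4 za ac => (K (Nat.shiftRight p (nat_lit 28)) (Nat.add w (plA p))).1 m (Nat.shiftRight m (Nat.land (Nat.shiftRight x (nat_lit 34)) (nat_lit 0x1ffff))) s1 s2 s3 s4 za (Nat.add ac (Nat.land (Nat.shiftRight m (Nat.land (Nat.shiftRight x (nat_lit 34)) (nat_lit 0x1ffff))) (plA p)))⟩,
  fun K p w => ⟨fun m x s1 s2 s3 s4 za ac => (K (Nat.shiftRight p (nat_lit 28)) (Nat.succ w)).1 m (Nat.shiftRight m (Nat.land (Nat.shiftRight x (nat_lit 34)) (nat_lit 0x1ffff))) s1 s2 s3 s4 za ac⟩,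
  rfl, rfl⟩
noncomputable def en217 : Ent := ⟨[nat_lit 1, nat_lit 11, nat_lit 1],
  fun K p w => ⟨fun m x s1 s2 s3 s4 za ac => (K (Nat.shiftRight p (nat_lit 16)) (Nat.add w (Nat.shiftLeft (Nat.land p (nat_lit 65535)) (nat_lit 70)))).1 m (Nat.shiftRight m (Nat.land (Nat.shiftRight (Nat.shiftRight m (nat_lit 34)) (Nat.land (Nat.shiftRight (Nat.shiftRight m (Nat.land (Nat.shiftRight (Nat.shiftRight m (nat_lit 34)) (Nat.land (Nat.shiftRight x (nat_lit 17)) (nat_lit 0x1ffff))) (nat_lit 0x1ffff)))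
  (nat_lit 17)) (nat_lit 0x1ffff))) (nat_lit 0x1ffff))) s1 s2 s3 s4 (Nat.land (Nat.land za (Nat.shiftRight m (Nat.land (Nat.shiftRight (Nat.shiftRight m (nat_lit 34)) (Nat.land (Nat.shiftRight x (nat_lit 17)) (nat_lit 0x1ffff))) (nat_lit 0x1ffff)))) (Nat.shiftRight m (Nat.land (Nat.shiftRight (Nat.shiftRight m (nat_lit 34)) (Nat.land (Nat.shiftRight (Nat.shiftRight m (Nat.land (Nat.shiftRight (Nat.shiftRight m
  (nat_lit 34)) (Nat.land (Nat.shiftRight x (nat_lit 17)) (nat_lit 0x1ffff))) (nat_lit 0x1ffff))) (nat_lit 17)) (nat_lit 0x1ffff))) (nat_lit 0x1ffff)))) (Nat.add ac (Nat.land (Nat.shiftRight m (Nat.land (Nat.shiftRight (Nat.shiftRight m (nat_lit 34)) (Nat.land (Nat.shiftRight x (nat_lit 17)) (nat_lit 0x1ffff))) (nat_lit 0x1ffff))) (Nat.shiftLeft (Nat.land p (nat_lit 65535)) (nat_lit 70))))⟩,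
  fun K p w => ⟨fun m x s1 s2 s3 s4 za ac => (K (Nat.shiftRight p (nat_lit 16)) (Nat.add w (Nat.shiftLeft (Nat.land p (nat_lit 65535)) (nat_lit 70)))).1 m (Nat.shiftRight m (Nat.land (Nat.shiftRight (Nat.shiftRight m (nat_lit 34)) (Nat.land (Nat.shiftRight m (Nat.land (Nat.shiftRight (Nat.shiftRight m (nat_lit 34)) (Nat.land x (nat_lit 0x1ffff))) (nat_lit 0x1ffff))) (nat_lit 0x1ffff))) (nat_lit 0x1ffff))) s1 s2 s3 s4
  (Nat.land (Nat.land za (Nat.shiftRight m (Nat.land (Nat.shiftRight (Nat.shiftRight m (nat_lit 34)) (Nat.land x (nat_lit 0x1ffff))) (nat_lit 0x1ffff)))) (Nat.shiftRight m (Nat.land (Nat.shiftRight (Nat.shiftRight m (nat_lit 34)) (Nat.land (Nat.shiftRight m (Nat.land (Nat.shiftRight (Nat.shiftRight m (nat_lit 34)) (Nat.land x (nat_lit 0x1ffff))) (nat_lit 0x1ffff))) (nat_lit 0x1ffff))) (nat_lit 0x1ffff)))) (Nat.add ac (Nat.land (Nat.shiftRight m (Nat.land (Nat.shiftRight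 m (Nat.land (Nat.shiftRight (Nat.shiftRight m (nat_lit 34)) (Nat.land x (nat_lit 0x1ffff))) (nat_lit 0x1ffff))) (nat_lit 0x1ffff))) (Nat.shiftLeft (Nat.land p (nat_lit 65535)) (nat_lit 70))))⟩,
  rfl, rfl⟩
noncomputable def en218 : Ent := ⟨[nat_lit 3, nat_lit 7],
  fun K p w => ⟨fun m x s1 s2 s3 s4 za ac => (K p w).1 m (Nat.shiftRight m (Nat.land (Nat.shiftRight (Nat.shiftRight m (Nat.land x (nat_lit 0x1ffff))) (nat_lit 34)) (nat_lit 0x1ffff))) s1 s2 s3 s4 za ac⟩,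
  fun K p w => ⟨fun m x s1 s2 s3 s4 za ac => (K p w).1 m (Nat.shiftRight m (Nat.land (Nat.shiftRight (Nat.shiftRight m (Nat.land (Nat.shiftRight x (nat_lit 17)) (nat_lit 0x1ffff))) (nat_lit 34)) (nat_lit 0x1ffff))) s1 s2 s3 s4 za ac⟩,
  rfl, rfl⟩
noncomputable def en219 : Ent := ⟨[nat_lit 9, nat_lit 9, nat_lit 2],
  fun K p w => ⟨fun m x s1 s2 s3 s4 za ac => (K p w).1 m (Nat.shiftRight m (Nat.land (Nat.shiftRight s2 (nat_lit 34)) (nat_lit 0x1ffff))) s3 s4 s4 s4 (Nat.land za (Nat.shiftRight m (Nat.land (Nat.shiftRight s2 (nat_lit 34)) (nat_lit 0x1ffff)))) ac⟩,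
  fun K p w => ⟨fun m x s1 s2 s3 s4 za ac => (K p w).1 m (Nat.shiftRight m (Nat.land (Nat.shiftRight s2 (nat_lit 34)) (nat_lit 0x1ffff))) s3 s4 s4 s4 (Nat.land za (Nat.shiftRight m (Nat.land (Nat.shiftRight s2 (nat_lit 34)) (nat_lit 0x1ffff)))) ac⟩,
  rfl, rfl⟩
noncomputable def en220 : Ent := ⟨[nat_lit 14, nat_lit 11, nat_lit 12, nat_lit 12, nat_lit 8, nat_lit 3, nat_lit 11, nat_lit 2],
  fun K p w => ⟨fun m x s1 s2 s3 s4 za ac => (K (Nat.shiftRight (Nat.shiftRight (Nat.shiftRight (Nat.shiftRight p (nat_lit 16)) (nat_lit 28)) (nat_lit 28)) (nat_lit 16)) (Nat.add (Nat.add (Nat.add (Nat.add w (Nat.shiftLeft (Nat.land p (nat_lit 65535)) (nat_lit 70))) (plA (Nat.shiftRight p (nat_lit 16)))) (plA (Nat.shiftRight (Nat.shiftRight p (nat_lit 16)) (nat_lit 28)))) (Nat.shiftLeft (Nat.land (Nat.shiftRight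
  (Nat.shiftRight (Nat.shiftRight p (nat_lit 16)) (nat_lit 28)) (nat_lit 28)) (nat_lit 65535)) (nat_lit 70)))).1 m (Nat.shiftRight m (Nat.land (Nat.shiftRight (Nat.shiftRight m (Nat.land x (nat_lit 0x1ffff))) (nat_lit 34)) (nat_lit 0x1ffff))) x s1 s2 s3 (Nat.land (Nat.land za x) (Nat.shiftRight m (Nat.land (Nat.shiftRight (Nat.shiftRight m (Nat.land x (nat_lit 0x1ffff))) (nat_lit 34)) (nat_lit 0x1ffff))))
  (Nat.add (Nat.add (Nat.add (Nat.add ac (Nat.land x (Nat.shiftLeft (Nat.land p (nat_lit 65535)) (nat_lit 70)))) (Nat.land x (plA (Nat.shiftRight p (nat_lit 16))))) (Nat.land x (plA (Nat.shiftRight (Nat.shiftRight p (nat_lit 16)) (nat_lit 28))))) (Nat.land (Nat.shiftRight m (Nat.land x (nat_lit 0x1ffff))) (Nat.shiftLeft (Nat.land (Nat.shiftRight (Nat.shiftRight (Nat.shiftRight p (nat_lit 16)) (nat_lit 28)) (nat_lit 28)) (nat_lit 65535)) (nat_lit 70))))⟩,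
  fun K p w => ⟨fun m x s1 s2 s3 s4 za ac => (K (Nat.shiftRight (Nat.shiftRight (Nat.shiftRight (Nat.shiftRight p (nat_lit 16)) (nat_lit 28)) (nat_lit 28)) (nat_lit 16)) (Nat.add (Nat.succ (Nat.succ (Nat.add w (Nat.shiftLeft (Nat.land p (nat_lit 65535)) (nat_lit 70))))) (Nat.shiftLeft (Nat.land (Nat.shiftRight (Nat.shiftRight (Nat.shiftRight p (nat_lit 16)) (nat_lit 28)) (nat_lit 28)) (nat_lit 65535))
  (nat_lit 70)))).1 m (Nat.shiftRight m (Nat.land (Nat.shiftRight (Nat.shiftRight m (Nat.land (Nat.shiftRight x (nat_lit 17)) (nat_lit 0x1ffff))) (nat_lit 34)) (nat_lit 0x1ffff))) x s1 s2 s3 (Nat.land (Nat.land za x) (Nat.shiftRight m (Nat.land (Nat.shiftRight (Nat.shiftRight m (Nat.land (Nat.shiftRight x (nat_lit 17)) (nat_lit 0x1ffff))) (nat_lit 34)) (nat_lit 0x1ffff)))) (Nat.add (Nat.add ac (Nat.land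
  (Nat.shiftRight m (Nat.land x (nat_lit 0x1ffff))) (Nat.shiftLeft (Nat.land p (nat_lit 65535)) (nat_lit 70)))) (Nat.land (Nat.shiftRight m (Nat.land (Nat.shiftRight m (Nat.land (Nat.shiftRight x (nat_lit 17)) (nat_lit 0x1ffff))) (nat_lit 0x1ffff))) (Nat.shiftLeft (Nat.land (Nat.shiftRight (Nat.shiftRight (Nat.shiftRight p (nat_lit 16)) (nat_lit 28)) (nat_lit 28)) (nat_lit 65535)) (nat_lit 70))))⟩,
  rfl, rfl⟩
noncomputable def en221 : Ent := ⟨[nat_lit 0, nat_lit 0, nat_lit 8, nat_lit 3, nat_lit 11, nat_lit 9, nat_lit 1],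
  fun K p w => ⟨fun m x s1 s2 s3 s4 za ac => (K (Nat.shiftRight p (nat_lit 16)) (Nat.add w (Nat.shiftLeft (Nat.land p (nat_lit 65535)) (nat_lit 70)))).1 m (Nat.shiftRight m (Nat.land (Nat.shiftRight (Nat.shiftRight m (nat_lit 34)) (Nat.land (Nat.shiftRight (Nat.shiftRight m (Nat.land (Nat.shiftRight (Nat.shiftRight m (nat_lit 34)) (Nat.land (Nat.shiftRight m (Nat.land (Nat.shiftRight (Nat.shiftRight m
  (nat_lit 34)) (Nat.land x (nat_lit 0x1ffff))) (nat_lit 0x1ffff))) (nat_lit 0x1ffff))) (nat_lit 0x1ffff))) (nat_lit 17)) (nat_lit 0x1ffff))) (nat_lit 0x1ffff))) s1 s2 s3 s3 (Nat.land (Nat.land (Nat.land za (Nat.shiftRight m (Nat.land (Nat.shiftRight (Nat.shiftRight m (nat_lit 34)) (Nat.land x (nat_lit 0x1ffff))) (nat_lit 0x1ffff)))) (Nat.shiftRight m (Nat.land (Nat.shiftRight (Nat.shiftRight m (nat_lit 34))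
  (Nat.land (Nat.shiftRight m (Nat.land (Nat.shiftRight (Nat.shiftRight m (nat_lit 34)) (Nat.land x (nat_lit 0x1ffff))) (nat_lit 0x1ffff))) (nat_lit 0x1ffff))) (nat_lit 0x1ffff)))) (Nat.shiftRight m (Nat.land (Nat.shiftRight (Nat.shiftRight m (nat_lit 34)) (Nat.land (Nat.shiftRight (Nat.shiftRight m (Nat.land (Nat.shiftRight (Nat.shiftRight m (nat_lit 34)) (Nat.land (Nat.shiftRight m (Nat.land (Nat.shiftRight
  (Nat.shiftRight m (nat_lit 34)) (Nat.land x (nat_lit 0x1ffff))) (nat_lit 0x1ffff))) (nat_lit 0x1ffff))) (nat_lit 0x1ffff))) (nat_lit 17)) (nat_lit 0x1ffff))) (nat_lit 0x1ffff)))) (Nat.add ac (Nat.land (Nat.shiftRight m (Nat.land (Nat.shiftRight m (Nat.land (Nat.shiftRight (Nat.shiftRight m (nat_lit 34)) (Nat.land (Nat.shiftRight m (Nat.land (Nat.shiftRight (Nat.shiftRight m (nat_lit 34)) (Nat.land x (nat_lit 0x1ffff))) (nat_lit 0x1ffff))) (nat_lit 0x1ffff))) (nat_lit 0x1ffff)))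 (nat_lit 0x1ffff))) (Nat.shiftLeft (Nat.land p (nat_lit 65535)) (nat_lit 70))))⟩,
  fun K p w => ⟨fun m x s1 s2 s3 s4 za ac => (K (Nat.shiftRight p (nat_lit 16)) (Nat.add w (Nat.shiftLeft (Nat.land p (nat_lit 65535)) (nat_lit 70)))).1 m (Nat.shiftRight m (Nat.land (Nat.shiftRight (Nat.shiftRight m (nat_lit 34)) (Nat.land (Nat.shiftRight m (Nat.land (Nat.shiftRight (Nat.shiftRight m (nat_lit 34)) (Nat.land (Nat.shiftRight (Nat.shiftRight m (Nat.land (Nat.shiftRight (Nat.shiftRight m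
  (nat_lit 34)) (Nat.land (Nat.shiftRight x (nat_lit 17)) (nat_lit 0x1ffff))) (nat_lit 0x1ffff))) (nat_lit 17)) (nat_lit 0x1ffff))) (nat_lit 0x1ffff))) (nat_lit 0x1ffff))) (nat_lit 0x1ffff))) s1 s2 s3 s3 (Nat.land (Nat.land (Nat.land za (Nat.shiftRight m (Nat.land (Nat.shiftRight (Nat.shiftRight m (nat_lit 34)) (Nat.land (Nat.shiftRight x (nat_lit 17)) (nat_lit 0x1ffff))) (nat_lit 0x1ffff)))) (Nat.shiftRight m
  (Nat.land (Nat.shiftRight (Nat.shiftRight m (nat_lit 34)) (Nat.land (Nat.shiftRight (Nat.shiftRight m (Nat.land (Nat.shiftRight (Nat.shiftRight m (nat_lit 34)) (Nat.land (Nat.shiftRight x (nat_lit 17)) (nat_lit 0x1ffff))) (nat_lit 0x1ffff))) (nat_lit 17)) (nat_lit 0x1ffff))) (nat_lit 0x1ffff)))) (Nat.shiftRight m (Nat.land (Nat.shiftRight (Nat.shiftRight m (nat_lit 34)) (Nat.land (Nat.shiftRight m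
  (Nat.land (Nat.shiftRight (Nat.shiftRight m (nat_lit 34)) (Nat.land (Nat.shiftRight (Nat.shiftRight m (Nat.land (Nat.shiftRight (Nat.shiftRight m (nat_lit 34)) (Nat.land (Nat.shiftRight x (nat_lit 17)) (nat_lit 0x1ffff))) (nat_lit 0x1ffff))) (nat_lit 17)) (nat_lit 0x1ffff))) (nat_lit 0x1ffff))) (nat_lit 0x1ffff))) (nat_lit 0x1ffff)))) (Nat.add ac (Nat.land (Nat.shiftRight m (Nat.land (Nat.shiftRight m
  (Nat.land (Nat.shiftRight (Nat.shiftRight m (Nat.land (Nat.shiftRight (Nat.shiftRight m (nat_lit 34)) (Nat.land (Nat.shiftRight (Nat.shiftRight m (Nat.land (Nat.shiftRight (Nat.shiftRight m (nat_lit 34)) (Nat.land (Nat.shiftRight x (nat_lit 17)) (nat_lit 0x1ffff))) (nat_lit 0x1ffff))) (nat_lit 17)) (nat_lit 0x1ffff))) (nat_lit 0x1ffff))) (nat_lit 17)) (nat_lit 0x1ffff))) (nat_lit 0x1ffff))) (Nat.shiftLeft (Nat.land p (nat_lit 65535)) (nat_lit 70))))⟩,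
  rfl, rfl⟩
noncomputable def en222 : Ent := ⟨[nat_lit 8, nat_lit 3, nat_lit 13, nat_lit 9, nat_lit 1],
  fun K p w => ⟨fun m x s1 s2 s3 s4 za ac => (K p (Nat.add w (nat_lit 0x10000000000000000))).1 m (Nat.shiftRight m (Nat.land (Nat.shiftRight (Nat.shiftRight m (nat_lit 34)) (Nat.land (Nat.shiftRight x (nat_lit 17)) (nat_lit 0x1ffff))) (nat_lit 0x1ffff))) s1 s2 s3 s3 (Nat.land za (Nat.shiftRight m (Nat.land (Nat.shiftRight (Nat.shiftRight m (nat_lit 34)) (Nat.land (Nat.shiftRight x (nat_lit 17)) (nat_lit 0x1ffff))) (nat_lit 0x1ffff)))) (Nat.add ac (Nat.land (Nat.shiftRight m (Nat.land (Nat.shiftRight (Nat.shiftRight m (Nat.land x (nat_lit 0x1ffff))) (nat_lit 34)) (nat_lit 0x1ffff))) (nat_lit 0x10000000000000000)))⟩,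
  fun K p w => ⟨fun m x s1 s2 s3 s4 za ac => (K p (Nat.add w (nat_lit 0x10000000000000000))).1 m (Nat.shiftRight m (Nat.land (Nat.shiftRight (Nat.shiftRight m (nat_lit 34)) (Nat.land x (nat_lit 0x1ffff))) (nat_lit 0x1ffff))) s1 s2 s3 s3 (Nat.land za (Nat.shiftRight m (Nat.land (Nat.shiftRight (Nat.shiftRight m (nat_lit 34)) (Nat.land x (nat_lit 0x1ffff))) (nat_lit 0x1ffff)))) (Nat.add ac (Nat.land (Nat.shiftRight m (Nat.land (Nat.shiftRight (Nat.shiftRight m (Nat.land (Nat.shiftRight x (nat_lit 17)) (nat_lit 0x1ffff))) (nat_lit 34)) (nat_lit 0x1ffff))) (nat_lit 0x10000000000000000)))⟩,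
  rfl, rfl⟩
noncomputable def en223 : Ent := ⟨[nat_lit 9, nat_lit 1, nat_lit 3, nat_lit 11],
  fun K p w => ⟨fun m x s1 s2 s3 s4 za ac => (K (Nat.shiftRight p (nat_lit 16)) (Nat.add w (Nat.shiftLeft (Nat.land p (nat_lit 65535)) (nat_lit 70)))).1 m (Nat.shiftRight m (Nat.land (Nat.shiftRight m (Nat.land (Nat.shiftRight (Nat.shiftRight m (nat_lit 34)) (Nat.land (Nat.shiftRight s1 (nat_lit 17)) (nat_lit 0x1ffff))) (nat_lit 0x1ffff))) (nat_lit 0x1ffff))) s2 s3 s4 s4 (Nat.land za (Nat.shiftRight m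
  (Nat.land (Nat.shiftRight (Nat.shiftRight m (nat_lit 34)) (Nat.land (Nat.shiftRight s1 (nat_lit 17)) (nat_lit 0x1ffff))) (nat_lit 0x1ffff)))) (Nat.add ac (Nat.land (Nat.shiftRight m (Nat.land (Nat.shiftRight m (Nat.land (Nat.shiftRight (Nat.shiftRight m (nat_lit 34)) (Nat.land (Nat.shiftRight s1 (nat_lit 17)) (nat_lit 0x1ffff))) (nat_lit 0x1ffff))) (nat_lit 0x1ffff))) (Nat.shiftLeft (Nat.land p (nat_lit 65535)) (nat_lit 70))))⟩,
  fun K p w => ⟨fun m x s1 s2 s3 s4 za ac => (K (Nat.shiftRight p (nat_lit 16)) (Nat.add w (Nat.shiftLeft (Nat.land p (nat_lit 65535)) (nat_lit 70)))).1 m (Nat.shiftRight m (Nat.land (Nat.shiftRight (Nat.shiftRight m (Nat.land (Nat.shiftRight (Nat.shiftRight m (nat_lit 34)) (Nat.land s1 (nat_lit 0x1ffff))) (nat_lit 0x1ffff))) (nat_lit 17)) (nat_lit 0x1ffff))) s2 s3 s4 s4 (Nat.land za (Nat.shiftRight m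
  (Nat.land (Nat.shiftRight (Nat.shiftRight m (nat_lit 34)) (Nat.land s1 (nat_lit 0x1ffff))) (nat_lit 0x1ffff)))) (Nat.add ac (Nat.land (Nat.shiftRight m (Nat.land (Nat.shiftRight m (Nat.land (Nat.shiftRight (Nat.shiftRight m (Nat.land (Nat.shiftRight (Nat.shiftRight m (nat_lit 34)) (Nat.land s1 (nat_lit 0x1ffff))) (nat_lit 0x1ffff))) (nat_lit 17)) (nat_lit 0x1ffff))) (nat_lit 0x1ffff))) (Nat.shiftLeft (Nat.land p (nat_lit 65535)) (nat_lit 70))))⟩,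
  rfl, rfl⟩
noncomputable def en224 : Ent := ⟨[nat_lit 3, nat_lit 12, nat_lit 2],
  fun K p w => ⟨fun m x s1 s2 s3 s4 za ac => (K (Nat.shiftRight p (nat_lit 28)) (Nat.add w (plA p))).1 m (Nat.shiftRight m (Nat.land (Nat.shiftRight (Nat.shiftRight m (Nat.land x (nat_lit 0x1ffff))) (nat_lit 34)) (nat_lit 0x1ffff))) s1 s2 s3 s4 (Nat.land za (Nat.shiftRight m (Nat.land (Nat.shiftRight (Nat.shiftRight m (Nat.land x (nat_lit 0x1ffff))) (nat_lit 34)) (nat_lit 0x1ffff)))) (Nat.add ac (Nat.land (Nat.shiftRight m (Nat.land x (nat_lit 0x1ffff))) (plA p)))⟩,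
  fun K p w => ⟨fun m x s1 s2 s3 s4 za ac => (K (Nat.shiftRight p (nat_lit 28)) (Nat.succ w)).1 m (Nat.shiftRight m (Nat.land (Nat.shiftRight (Nat.shiftRight m (Nat.land (Nat.shiftRight x (nat_lit 17)) (nat_lit 0x1ffff))) (nat_lit 34)) (nat_lit 0x1ffff))) s1 s2 s3 s4 (Nat.land za (Nat.shiftRight m (Nat.land (Nat.shiftRight (Nat.shiftRight m (Nat.land (Nat.shiftRight x (nat_lit 17)) (nat_lit 0x1ffff))) (nat_lit 34)) (nat_lit 0x1ffff)))) ac⟩,
  rfl, rfl⟩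
noncomputable def en225 : Ent := ⟨[nat_lit 12, nat_lit 12, nat_lit 8, nat_lit 0],
  fun K p w => ⟨fun m x s1 s2 s3 s4 za ac => (K (Nat.shiftRight (Nat.shiftRight p (nat_lit 28)) (nat_lit 28)) (Nat.add (Nat.add w (plA p)) (plA (Nat.shiftRight p (nat_lit 28))))).1 m (Nat.shiftRight m (Nat.land (Nat.shiftRight (Nat.shiftRight m (nat_lit 34)) (Nat.land x (nat_lit 0x1ffff))) (nat_lit 0x1ffff))) x s1 s2 s3 (Nat.land za (Nat.shiftRight m (Nat.land (Nat.shiftRight (Nat.shiftRight m (nat_lit 34)) (Nat.land x (nat_lit 0x1ffff))) (nat_lit 0x1ffff)))) (Nat.add (Nat.add ac (Nat.land x (plA p))) (Nat.land x (plA (Nat.shiftRight p (nat_lit 28)))))⟩,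
  fun K p w => ⟨fun m x s1 s2 s3 s4 za ac => (K (Nat.shiftRight (Nat.shiftRight p (nat_lit 28)) (nat_lit 28)) (Nat.succ (Nat.succ w))).1 m (Nat.shiftRight m (Nat.land (Nat.shiftRight (Nat.shiftRight m (nat_lit 34)) (Nat.land (Nat.shiftRight x (nat_lit 17)) (nat_lit 0x1ffff))) (nat_lit 0x1ffff))) x s1 s2 s3 (Nat.land za (Nat.shiftRight m (Nat.land (Nat.shiftRight (Nat.shiftRight m (nat_lit 34)) (Nat.land (Nat.shiftRight x (nat_lit 17)) (nat_lit 0x1ffff))) (nat_lit 0x1ffff)))) ac⟩,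
  rfl, rfl⟩
noncomputable def en226 : Ent := ⟨[nat_lit 8, nat_lit 3, nat_lit 7, nat_lit 10, nat_lit 16, nat_lit 5, nat_lit 2],
  fun K p w => ⟨fun m x s1 s2 s3 s4 za ac => (K (Nat.shiftRight (Nat.shiftRight p (nat_lit 6)) (nat_lit 16)) (Nat.add (Nat.add w (Nat.shiftLeft (Nat.land p (nat_lit 63)) (nat_lit 64))) (Nat.shiftLeft (Nat.land (Nat.shiftRight p (nat_lit 6)) (nat_lit 65535)) (nat_lit 70)))).1 m (Nat.shiftRight m (Nat.land (Nat.shiftRight (Nat.shiftRight m (Nat.land (Nat.shiftRight m (Nat.land (Nat.shiftRight (Nat.shiftRight m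
  (Nat.land x (nat_lit 0x1ffff))) (nat_lit 34)) (nat_lit 0x1ffff))) (nat_lit 0x1ffff))) (nat_lit 34)) (nat_lit 0x1ffff))) x s1 s2 s3 (Nat.land za (Nat.shiftRight m (Nat.land (Nat.shiftRight (Nat.shiftRight m (Nat.land (Nat.shiftRight m (Nat.land (Nat.shiftRight (Nat.shiftRight m (Nat.land x (nat_lit 0x1ffff))) (nat_lit 34)) (nat_lit 0x1ffff))) (nat_lit 0x1ffff))) (nat_lit 34)) (nat_lit 0x1ffff))))
  (Nat.add (Nat.add ac (Nat.land (Nat.shiftRight m (Nat.land (Nat.shiftRight (Nat.shiftRight m (Nat.land x (nat_lit 0x1ffff))) (nat_lit 34)) (nat_lit 0x1ffff))) (Nat.shiftLeft (Nat.land p (nat_lit 63)) (nat_lit 64)))) (Nat.land (Nat.shiftRight m (Nat.land (Nat.shiftRight (Nat.shiftRight m (Nat.land x (nat_lit 0x1ffff))) (nat_lit 34)) (nat_lit 0x1ffff))) (Nat.shiftLeft (Nat.land (Nat.shiftRight p (nat_lit 6)) (nat_lit 65535)) (nat_lit 70))))⟩,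
  fun K p w => ⟨fun m x s1 s2 s3 s4 za ac => (K (Nat.shiftRight (Nat.shiftRight p (nat_lit 6)) (nat_lit 16)) (Nat.add (Nat.add w (Nat.shiftLeft (Nat.land p (nat_lit 63)) (nat_lit 64))) (Nat.shiftLeft (Nat.land (Nat.shiftRight p (nat_lit 6)) (nat_lit 65535)) (nat_lit 70)))).1 m (Nat.shiftRight m (Nat.land (Nat.shiftRight (Nat.shiftRight m (Nat.land (Nat.shiftRight (Nat.shiftRight m (Nat.land (Nat.shiftRight
  (Nat.shiftRight m (Nat.land (Nat.shiftRight x (nat_lit 17)) (nat_lit 0x1ffff))) (nat_lit 34)) (nat_lit 0x1ffff))) (nat_lit 17)) (nat_lit 0x1ffff))) (nat_lit 34)) (nat_lit 0x1ffff))) x s1 s2 s3 (Nat.land za (Nat.shiftRight m (Nat.land (Nat.shiftRight (Nat.shiftRight m (Nat.land (Nat.shiftRight (Nat.shiftRight m (Nat.land (Nat.shiftRight (Nat.shiftRight m (Nat.land (Nat.shiftRight x (nat_lit 17)) (nat_lit 0x1ffff)))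
  (nat_lit 34)) (nat_lit 0x1ffff))) (nat_lit 17)) (nat_lit 0x1ffff))) (nat_lit 34)) (nat_lit 0x1ffff)))) (Nat.add (Nat.add ac (Nat.land (Nat.shiftRight m (Nat.land (Nat.shiftRight (Nat.shiftRight m (Nat.land (Nat.shiftRight x (nat_lit 17)) (nat_lit 0x1ffff))) (nat_lit 34)) (nat_lit 0x1ffff))) (Nat.shiftLeft (Nat.land p (nat_lit 63)) (nat_lit 64)))) (Nat.land (Nat.lor (Nat.shiftRight m (Nat.land (Nat.shiftRight m
  (Nat.land (Nat.shiftRight (Nat.shiftRight m (Nat.land (Nat.shiftRight x (nat_lit 17)) (nat_lit 0x1ffff))) (nat_lit 34)) (nat_lit 0x1ffff))) (nat_lit 0x1ffff))) (Nat.shiftRight m (Nat.land (Nat.shiftRight (Nat.shiftRight m (Nat.land (Nat.shiftRight (Nat.shiftRight m (Nat.land (Nat.shiftRight x (nat_lit 17)) (nat_lit 0x1ffff))) (nat_lit 34)) (nat_lit 0x1ffff))) (nat_lit 34)) (nat_lit 0x1ffff)))) (Nat.shiftLeft (Nat.land (Nat.shiftRight p (nat_lit 6)) (nat_lit 65535)) (nat_lit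 70))))⟩,
  rfl, rfl⟩
noncomputable def en227 : Ent := ⟨[nat_lit 10, nat_lit 8, nat_lit 5, nat_lit 9, nat_lit 2, nat_lit 8, nat_lit 0],
  fun K p w => ⟨fun m x s1 s2 s3 s4 za ac => (K (Nat.shiftRight p (nat_lit 6)) (Nat.add w (Nat.shiftLeft (Nat.land p (nat_lit 63)) (nat_lit 64)))).1 m (Nat.shiftRight m (Nat.land (Nat.shiftRight (Nat.shiftRight m (nat_lit 34)) (Nat.land (Nat.shiftRight m (Nat.land (Nat.shiftRight x (nat_lit 34)) (nat_lit 0x1ffff))) (nat_lit 0x1ffff))) (nat_lit 0x1ffff))) (Nat.shiftRight m (Nat.land (Nat.shiftRight x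
  (nat_lit 34)) (nat_lit 0x1ffff))) s1 s2 s3 (Nat.land (Nat.land za (Nat.shiftRight m (Nat.land (Nat.shiftRight x (nat_lit 34)) (nat_lit 0x1ffff)))) (Nat.shiftRight m (Nat.land (Nat.shiftRight (Nat.shiftRight m (nat_lit 34)) (Nat.land (Nat.shiftRight m (Nat.land (Nat.shiftRight x (nat_lit 34)) (nat_lit 0x1ffff))) (nat_lit 0x1ffff))) (nat_lit 0x1ffff)))) (Nat.add ac (Nat.land x (Nat.shiftLeft (Nat.land p (nat_lit 63)) (nat_lit 64))))⟩,
  fun K p w => ⟨fun m x s1 s2 s3 s4 za ac => (K (Nat.shiftRight p (nat_lit 6)) (Nat.add w (Nat.shiftLeft (Nat.land p (nat_lit 63)) (nat_lit 64)))).1 m (Nat.shiftRight m (Nat.land (Nat.shiftRight (Nat.shiftRight m (nat_lit 34)) (Nat.land (Nat.shiftRight (Nat.shiftRight m (Nat.land (Nat.shiftRight x (nat_lit 34)) (nat_lit 0x1ffff))) (nat_lit 17)) (nat_lit 0x1ffff))) (nat_lit 0x1ffff))) (Nat.shiftRight m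
  (Nat.land (Nat.shiftRight x (nat_lit 34)) (nat_lit 0x1ffff))) s1 s2 s3 (Nat.land (Nat.land za (Nat.shiftRight m (Nat.land (Nat.shiftRight x (nat_lit 34)) (nat_lit 0x1ffff)))) (Nat.shiftRight m (Nat.land (Nat.shiftRight (Nat.shiftRight m (nat_lit 34)) (Nat.land (Nat.shiftRight (Nat.shiftRight m (Nat.land (Nat.shiftRight x (nat_lit 34)) (nat_lit 0x1ffff))) (nat_lit 17)) (nat_lit 0x1ffff))) (nat_lit 0x1ffff)))) (Nat.add ac (Nat.land x (Nat.shiftLeft (Nat.land p (nat_lit 63)) (nat_lit 64))))⟩,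
  rfl, rfl⟩
noncomputable def en228 : Ent := ⟨[nat_lit 9, nat_lit 8, nat_lit 1, nat_lit 1],
  fun K p w => ⟨fun m x s1 s2 s3 s4 za ac => (K p w).1 m (Nat.shiftRight m (Nat.land (Nat.shiftRight (Nat.shiftRight m (nat_lit 34)) (Nat.land (Nat.shiftRight (Nat.shiftRight m (Nat.land (Nat.shiftRight (Nat.shiftRight m (nat_lit 34)) (Nat.land (Nat.shiftRight s1 (nat_lit 17)) (nat_lit 0x1ffff))) (nat_lit 0x1ffff))) (nat_lit 17)) (nat_lit 0x1ffff))) (nat_lit 0x1ffff))) s1 s2 s3 s4 (Nat.land (Nat.land za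
  (Nat.shiftRight m (Nat.land (Nat.shiftRight (Nat.shiftRight m (nat_lit 34)) (Nat.land (Nat.shiftRight s1 (nat_lit 17)) (nat_lit 0x1ffff))) (nat_lit 0x1ffff)))) (Nat.shiftRight m (Nat.land (Nat.shiftRight (Nat.shiftRight m (nat_lit 34)) (Nat.land (Nat.shiftRight (Nat.shiftRight m (Nat.land (Nat.shiftRight (Nat.shiftRight m (nat_lit 34)) (Nat.land (Nat.shiftRight s1 (nat_lit 17)) (nat_lit 0x1ffff))) (nat_lit 0x1ffff))) (nat_lit 17)) (nat_lit 0x1ffff))) (nat_lit 0x1ffff)))) ac⟩,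
  fun K p w => ⟨fun m x s1 s2 s3 s4 za ac => (K p w).1 m (Nat.shiftRight m (Nat.land (Nat.shiftRight (Nat.shiftRight m (nat_lit 34)) (Nat.land (Nat.shiftRight m (Nat.land (Nat.shiftRight (Nat.shiftRight m (nat_lit 34)) (Nat.land s1 (nat_lit 0x1ffff))) (nat_lit 0x1ffff))) (nat_lit 0x1ffff))) (nat_lit 0x1ffff))) s1 s2 s3 s4 (Nat.land (Nat.land za (Nat.shiftRight m (Nat.land (Nat.shiftRight (Nat.shiftRight m (nat_lit 34)) (Nat.land s1 (nat_lit 0x1ffff))) (nat_lit 0x1ffff)))) (Nat.shiftRight m (Nat.land (Nat.shiftRight (Nat.shiftRight m (nat_lit 34)) (Nat.land (Nat.shiftRight m (Nat.land (Nat.shiftRight (Nat.shiftRight m (nat_lit 34)) (Nat.land s1 (nat_lit 0x1ffff))) (nat_lit 0x1ffff))) (nat_lit 0x1ffff))) (nat_lit 0x1ffff)))) ac⟩,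
  rfl, rfl⟩
noncomputable def en229 : Ent := ⟨[nat_lit 9, nat_lit 1, nat_lit 9, nat_lit 4, nat_lit 11, nat_lit 2, nat_lit 4, nat_lit 11, nat_lit 2, nat_lit 4, nat_lit 11],
  fun K p w => ⟨fun m x s1 s2 s3 s4 za ac => (K (Nat.shiftRight (Nat.shiftRight (Nat.shiftRight p (nat_lit 16)) (nat_lit 16)) (nat_lit 16)) (Nat.add (Nat.add (Nat.add w (Nat.shiftLeft (Nat.land p (nat_lit 65535)) (nat_lit 70))) (Nat.shiftLeft (Nat.land (Nat.shiftRight p (nat_lit 16)) (nat_lit 65535)) (nat_lit 70))) (Nat.shiftLeft (Nat.land (Nat.shiftRight (Nat.shiftRight p (nat_lit 16)) (nat_lit 16))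
  (nat_lit 65535)) (nat_lit 70)))).1 m (Nat.shiftRight m (Nat.land (Nat.shiftRight (Nat.shiftRight m (Nat.land (Nat.shiftRight (Nat.shiftRight m (Nat.land (Nat.shiftRight (Nat.shiftRight m (Nat.land (Nat.shiftRight (Nat.shiftRight m (Nat.land (Nat.shiftRight s2 (nat_lit 17)) (nat_lit 0x1ffff))) (nat_lit 34)) (nat_lit 0x1ffff))) (nat_lit 17)) (nat_lit 0x1ffff))) (nat_lit 34)) (nat_lit 0x1ffff))) (nat_lit 17))
  (nat_lit 0x1ffff))) s3 s4 s4 s4 (Nat.land (Nat.land (Nat.land za (Nat.shiftRight m (Nat.land (Nat.shiftRight (Nat.shiftRight m (nat_lit 34)) (Nat.land (Nat.shiftRight s1 (nat_lit 17)) (nat_lit 0x1ffff))) (nat_lit 0x1ffff)))) (Nat.shiftRight m (Nat.land (Nat.shiftRight (Nat.shiftRight m (Nat.land (Nat.shiftRight s2 (nat_lit 17)) (nat_lit 0x1ffff))) (nat_lit 34)) (nat_lit 0x1ffff)))) (Nat.shiftRight m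
  (Nat.land (Nat.shiftRight (Nat.shiftRight m (Nat.land (Nat.shiftRight (Nat.shiftRight m (Nat.land (Nat.shiftRight (Nat.shiftRight m (Nat.land (Nat.shiftRight s2 (nat_lit 17)) (nat_lit 0x1ffff))) (nat_lit 34)) (nat_lit 0x1ffff))) (nat_lit 17)) (nat_lit 0x1ffff))) (nat_lit 34)) (nat_lit 0x1ffff)))) (Nat.add (Nat.add (Nat.add ac (Nat.land (Nat.shiftRight m (Nat.land (Nat.shiftRight s2 (nat_lit 17))
  (nat_lit 0x1ffff))) (Nat.shiftLeft (Nat.land p (nat_lit 65535)) (nat_lit 70)))) (Nat.land (Nat.shiftRight m (Nat.land (Nat.shiftRight (Nat.shiftRight m (Nat.land (Nat.shiftRight (Nat.shiftRight m (Nat.land (Nat.shiftRight s2 (nat_lit 17)) (nat_lit 0x1ffff))) (nat_lit 34)) (nat_lit 0x1ffff))) (nat_lit 17)) (nat_lit 0x1ffff))) (Nat.shiftLeft (Nat.land (Nat.shiftRight p (nat_lit 16)) (nat_lit 65535))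
  (nat_lit 70)))) (Nat.land (Nat.shiftRight m (Nat.land (Nat.shiftRight (Nat.shiftRight m (Nat.land (Nat.shiftRight (Nat.shiftRight m (Nat.land (Nat.shiftRight (Nat.shiftRight m (Nat.land (Nat.shiftRight (Nat.shiftRight m (Nat.land (Nat.shiftRight s2 (nat_lit 17)) (nat_lit 0x1ffff))) (nat_lit 34)) (nat_lit 0x1ffff))) (nat_lit 17)) (nat_lit 0x1ffff))) (nat_lit 34)) (nat_lit 0x1ffff))) (nat_lit 17)) (nat_lit 0x1ffff))) (Nat.shiftLeft (Nat.land (Nat.shiftRight (Nat.shiftRight p (nat_lit 16)) (nat_lit 16)) (nat_lit 65535)) (nat_lit 70))))⟩,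
  fun K p w => ⟨fun m x s1 s2 s3 s4 za ac => (K (Nat.shiftRight (Nat.shiftRight (Nat.shiftRight p (nat_lit 16)) (nat_lit 16)) (nat_lit 16)) (Nat.add (Nat.add (Nat.add w (Nat.shiftLeft (Nat.land p (nat_lit 65535)) (nat_lit 70))) (Nat.shiftLeft (Nat.land (Nat.shiftRight p (nat_lit 16)) (nat_lit 65535)) (nat_lit 70))) (Nat.shiftLeft (Nat.land (Nat.shiftRight (Nat.shiftRight p (nat_lit 16)) (nat_lit 16))
  (nat_lit 65535)) (nat_lit 70)))).1 m (Nat.shiftRight m (Nat.land (Nat.shiftRight m (Nat.land (Nat.shiftRight (Nat.shiftRight m (Nat.land (Nat.shiftRight m (Nat.land (Nat.shiftRight (Nat.shiftRight m (Nat.land s2 (nat_lit 0x1ffff))) (nat_lit 34)) (nat_lit 0x1ffff))) (nat_lit 0x1ffff))) (nat_lit 34)) (nat_lit 0x1ffff))) (nat_lit 0x1ffff))) s3 s4 s4 s4 (Nat.land (Nat.land (Nat.land za (Nat.shiftRight m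
  (Nat.land (Nat.shiftRight (Nat.shiftRight m (nat_lit 34)) (Nat.land s1 (nat_lit 0x1ffff))) (nat_lit 0x1ffff)))) (Nat.shiftRight m (Nat.land (Nat.shiftRight (Nat.shiftRight m (Nat.land s2 (nat_lit 0x1ffff))) (nat_lit 34)) (nat_lit 0x1ffff)))) (Nat.shiftRight m (Nat.land (Nat.shiftRight (Nat.shiftRight m (Nat.land (Nat.shiftRight m (Nat.land (Nat.shiftRight (Nat.shiftRight m (Nat.land s2 (nat_lit 0x1ffff)))
  (nat_lit 34)) (nat_lit 0x1ffff))) (nat_lit 0x1ffff))) (nat_lit 34)) (nat_lit 0x1ffff)))) (Nat.add (Nat.add (Nat.add ac (Nat.land (Nat.shiftRight m (Nat.land (Nat.shiftRight m (Nat.land s2 (nat_lit 0x1ffff))) (nat_lit 0x1ffff))) (Nat.shiftLeft (Nat.land p (nat_lit 65535)) (nat_lit 70)))) (Nat.land (Nat.shiftRight m (Nat.land (Nat.shiftRight m (Nat.land (Nat.shiftRight m (Nat.land (Nat.shiftRight (Nat.shiftRight m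
  (Nat.land s2 (nat_lit 0x1ffff))) (nat_lit 34)) (nat_lit 0x1ffff))) (nat_lit 0x1ffff))) (nat_lit 0x1ffff))) (Nat.shiftLeft (Nat.land (Nat.shiftRight p (nat_lit 16)) (nat_lit 65535)) (nat_lit 70)))) (Nat.land (Nat.shiftRight m (Nat.land (Nat.shiftRight m (Nat.land (Nat.shiftRight m (Nat.land (Nat.shiftRight (Nat.shiftRight m (Nat.land (Nat.shiftRight m (Nat.land (Nat.shiftRight (Nat.shiftRight m (Nat.land s2 (nat_lit 0x1ffff))) (nat_lit 34)) (nat_lit 0x1ffff))) (nat_lit 0x1ffff))) (nat_lit 34)) (nat_lit 0x1ffff))) (nat_lit 0x1ffff))) (nat_lit 0x1ffff))) (Nat.shiftLeft (Nat.land (Nat.shiftRight (Nat.shiftRight p (nat_lit 16)) (nat_lit 16)) (nat_lit 65535)) (nat_lit 70))))⟩,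
  rfl, rfl⟩
noncomputable def en230 : Ent := ⟨[nat_lit 9, nat_lit 4, nat_lit 11, nat_lit 2, nat_lit 8, nat_lit 0, nat_lit 11],
  fun K p w => ⟨fun m x s1 s2 s3 s4 za ac => (K (Nat.shiftRight (Nat.shiftRight p (nat_lit 16)) (nat_lit 16)) (Nat.add (Nat.add w (Nat.shiftLeft (Nat.land p (nat_lit 65535)) (nat_lit 70))) (Nat.shiftLeft (Nat.land (Nat.shiftRight p (nat_lit 16)) (nat_lit 65535)) (nat_lit 70)))).1 m (Nat.shiftRight m (Nat.land (Nat.shiftRight (Nat.shiftRight m (nat_lit 34)) (Nat.land (Nat.shiftRight m (Nat.land (Nat.shiftRight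
  (Nat.shiftRight m (Nat.land (Nat.shiftRight s1 (nat_lit 17)) (nat_lit 0x1ffff))) (nat_lit 34)) (nat_lit 0x1ffff))) (nat_lit 0x1ffff))) (nat_lit 0x1ffff))) (Nat.shiftRight m (Nat.land (Nat.shiftRight (Nat.shiftRight m (Nat.land (Nat.shiftRight s1 (nat_lit 17)) (nat_lit 0x1ffff))) (nat_lit 34)) (nat_lit 0x1ffff))) s2 s3 s4 (Nat.land (Nat.land za (Nat.shiftRight m (Nat.land (Nat.shiftRight (Nat.shiftRight m
  (Nat.land (Nat.shiftRight s1 (nat_lit 17)) (nat_lit 0x1ffff))) (nat_lit 34)) (nat_lit 0x1ffff)))) (Nat.shiftRight m (Nat.land (Nat.shiftRight (Nat.shiftRight m (nat_lit 34)) (Nat.land (Nat.shiftRight m (Nat.land (Nat.shiftRight (Nat.shiftRight m (Nat.land (Nat.shiftRight s1 (nat_lit 17)) (nat_lit 0x1ffff))) (nat_lit 34)) (nat_lit 0x1ffff))) (nat_lit 0x1ffff))) (nat_lit 0x1ffff)))) (Nat.add (Nat.add ac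
  (Nat.land (Nat.shiftRight m (Nat.land (Nat.shiftRight s1 (nat_lit 17)) (nat_lit 0x1ffff))) (Nat.shiftLeft (Nat.land p (nat_lit 65535)) (nat_lit 70)))) (Nat.land (Nat.shiftRight m (Nat.land (Nat.shiftRight (Nat.shiftRight m (nat_lit 34)) (Nat.land (Nat.shiftRight m (Nat.land (Nat.shiftRight (Nat.shiftRight m (Nat.land (Nat.shiftRight s1 (nat_lit 17)) (nat_lit 0x1ffff))) (nat_lit 34)) (nat_lit 0x1ffff))) (nat_lit 0x1ffff))) (nat_lit 0x1ffff))) (Nat.shiftLeft (Nat.land (Nat.shiftRight p (nat_lit 16)) (nat_lit 65535)) (nat_lit 70))))⟩,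
  fun K p w => ⟨fun m x s1 s2 s3 s4 za ac => (K (Nat.shiftRight (Nat.shiftRight p (nat_lit 16)) (nat_lit 16)) (Nat.add (Nat.add w (Nat.shiftLeft (Nat.land p (nat_lit 65535)) (nat_lit 70))) (Nat.shiftLeft (Nat.land (Nat.shiftRight p (nat_lit 16)) (nat_lit 65535)) (nat_lit 70)))).1 m (Nat.shiftRight m (Nat.land (Nat.shiftRight (Nat.shiftRight m (nat_lit 34)) (Nat.land (Nat.shiftRight (Nat.shiftRight m
  (Nat.land (Nat.shiftRight (Nat.shiftRight m (Nat.land s1 (nat_lit 0x1ffff))) (nat_lit 34)) (nat_lit 0x1ffff))) (nat_lit 17)) (nat_lit 0x1ffff))) (nat_lit 0x1ffff))) (Nat.shiftRight m (Nat.land (Nat.shiftRight (Nat.shiftRight m (Nat.land s1 (nat_lit 0x1ffff))) (nat_lit 34)) (nat_lit 0x1ffff))) s2 s3 s4 (Nat.land (Nat.land za (Nat.shiftRight m (Nat.land (Nat.shiftRight (Nat.shiftRight m (Nat.land s1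
  (nat_lit 0x1ffff))) (nat_lit 34)) (nat_lit 0x1ffff)))) (Nat.shiftRight m (Nat.land (Nat.shiftRight (Nat.shiftRight m (nat_lit 34)) (Nat.land (Nat.shiftRight (Nat.shiftRight m (Nat.land (Nat.shiftRight (Nat.shiftRight m (Nat.land s1 (nat_lit 0x1ffff))) (nat_lit 34)) (nat_lit 0x1ffff))) (nat_lit 17)) (nat_lit 0x1ffff))) (nat_lit 0x1ffff)))) (Nat.add (Nat.add ac (Nat.land (Nat.shiftRight m (Nat.land
  (Nat.shiftRight m (Nat.land s1 (nat_lit 0x1ffff))) (nat_lit 0x1ffff))) (Nat.shiftLeft (Nat.land p (nat_lit 65535)) (nat_lit 70)))) (Nat.land (Nat.shiftRight m (Nat.land (Nat.shiftRight m (Nat.land (Nat.shiftRight (Nat.shiftRight m (nat_lit 34)) (Nat.land (Nat.shiftRight (Nat.shiftRight m (Nat.land (Nat.shiftRight (Nat.shiftRight m (Nat.land s1 (nat_lit 0x1ffff))) (nat_lit 34)) (nat_lit 0x1ffff))) (nat_lit 17)) (nat_lit 0x1ffff))) (nat_lit 0x1ffff))) (nat_lit 0x1ffff))) (Nat.shiftLeft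 (Nat.land (Nat.shiftRight p (nat_lit 16)) (nat_lit 65535)) (nat_lit 70))))⟩,
  rfl, rfl⟩
noncomputable def en231 : Ent := ⟨[nat_lit 0, nat_lit 11, nat_lit 1],
  fun K p w => ⟨fun m x s1 s2 s3 s4 za ac => (K (Nat.shiftRight p (nat_lit 16)) (Nat.add w (Nat.shiftLeft (Nat.land p (nat_lit 65535)) (nat_lit 70)))).1 m (Nat.shiftRight m (Nat.land (Nat.shiftRight (Nat.shiftRight m (nat_lit 34)) (Nat.land (Nat.shiftRight (Nat.shiftRight m (Nat.land (Nat.shiftRight (Nat.shiftRight m (nat_lit 34)) (Nat.land x (nat_lit 0x1ffff))) (nat_lit 0x1ffff))) (nat_lit 17)) (nat_lit 0x1ffff)))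
  (nat_lit 0x1ffff))) s1 s2 s3 s4 (Nat.land (Nat.land za (Nat.shiftRight m (Nat.land (Nat.shiftRight (Nat.shiftRight m (nat_lit 34)) (Nat.land x (nat_lit 0x1ffff))) (nat_lit 0x1ffff)))) (Nat.shiftRight m (Nat.land (Nat.shiftRight (Nat.shiftRight m (nat_lit 34)) (Nat.land (Nat.shiftRight (Nat.shiftRight m (Nat.land (Nat.shiftRight (Nat.shiftRight m (nat_lit 34)) (Nat.land x (nat_lit 0x1ffff))) (nat_lit 0x1ffff))) (nat_lit 17)) (nat_lit 0x1ffff))) (nat_lit 0x1ffff)))) (Nat.add ac (Nat.land (Nat.shiftRight m (Nat.land (Nat.shiftRight (Nat.shiftRight m (nat_lit 34)) (Nat.land x (nat_lit 0x1ffff))) (nat_lit 0x1ffff))) (Nat.shiftLeft (Nat.land p (nat_lit 65535)) (nat_lit 70))))⟩,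
  fun K p w => ⟨fun m x s1 s2 s3 s4 za ac => (K (Nat.shiftRight p (nat_lit 16)) (Nat.add w (Nat.shiftLeft (Nat.land p (nat_lit 65535)) (nat_lit 70)))).1 m (Nat.shiftRight m (Nat.land (Nat.shiftRight (Nat.shiftRight m (nat_lit 34)) (Nat.land (Nat.shiftRight m (Nat.land (Nat.shiftRight (Nat.shiftRight m (nat_lit 34)) (Nat.land (Nat.shiftRight x (nat_lit 17)) (nat_lit 0x1ffff))) (nat_lit 0x1ffff))) (nat_lit 0x1ffff)))
  (nat_lit 0x1ffff))) s1 s2 s3 s4 (Nat.land (Nat.land za (Nat.shiftRight m (Nat.land (Nat.shiftRight (Nat.shiftRight m (nat_lit 34)) (Nat.land (Nat.shiftRight x (nat_lit 17)) (nat_lit 0x1ffff))) (nat_lit 0x1ffff)))) (Nat.shiftRight m (Nat.land (Nat.shiftRight (Nat.shiftRight m (nat_lit 34)) (Nat.land (Nat.shiftRight m (Nat.land (Nat.shiftRight (Nat.shiftRight m (nat_lit 34)) (Nat.land (Nat.shiftRight x (nat_lit 17)) (nat_lit 0x1ffff))) (nat_lit 0x1ffff))) (nat_lit 0x1ffff)))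 (nat_lit 0x1ffff)))) (Nat.add ac (Nat.land (Nat.shiftRight m (Nat.land (Nat.shiftRight m (Nat.land (Nat.shiftRight (Nat.shiftRight m (nat_lit 34)) (Nat.land (Nat.shiftRight x (nat_lit 17)) (nat_lit 0x1ffff))) (nat_lit 0x1ffff))) (nat_lit 0x1ffff))) (Nat.shiftLeft (Nat.land p (nat_lit 65535)) (nat_lit 70))))⟩,
  rfl, rfl⟩
noncomputable def en232 : Ent := ⟨[nat_lit 14, nat_lit 11, nat_lit 12, nat_lit 8],
  fun K p w => ⟨fun m x s1 s2 s3 s4 za ac => (K (Nat.shiftRight (Nat.shiftRight p (nat_lit 16)) (nat_lit 28)) (Nat.add (Nat.add w (Nat.shiftLeft (Nat.land p (nat_lit 65535)) (nat_lit 70))) (plA (Nat.shiftRight p (nat_lit 16))))).1 m x x s1 s2 s3 (Nat.land za x) (Nat.add (Nat.add ac (Nat.land x (Nat.shiftLeft (Nat.land p (nat_lit 65535)) (nat_lit 70)))) (Nat.land x (plA (Nat.shiftRight p (nat_lit 16)))))⟩,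
  fun K p w => ⟨fun m x s1 s2 s3 s4 za ac => (K (Nat.shiftRight (Nat.shiftRight p (nat_lit 16)) (nat_lit 28)) (Nat.succ (Nat.add w (Nat.shiftLeft (Nat.land p (nat_lit 65535)) (nat_lit 70))))).1 m x x s1 s2 s3 (Nat.land za x) (Nat.add ac (Nat.land (Nat.shiftRight m (Nat.land x (nat_lit 0x1ffff))) (Nat.shiftLeft (Nat.land p (nat_lit 65535)) (nat_lit 70))))⟩,
  rfl, rfl⟩
noncomputable def en233 : Ent := ⟨[nat_lit 0, nat_lit 8, nat_lit 3, nat_lit 11, nat_lit 9, nat_lit 1],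
  fun K p w => ⟨fun m x s1 s2 s3 s4 za ac => (K (Nat.shiftRight p (nat_lit 16)) (Nat.add w (Nat.shiftLeft (Nat.land p (nat_lit 65535)) (nat_lit 70)))).1 m (Nat.shiftRight m (Nat.land (Nat.shiftRight (Nat.shiftRight m (nat_lit 34)) (Nat.land (Nat.shiftRight (Nat.shiftRight m (Nat.land (Nat.shiftRight (Nat.shiftRight m (nat_lit 34)) (Nat.land x (nat_lit 0x1ffff))) (nat_lit 0x1ffff))) (nat_lit 17)) (nat_lit 0x1ffff)))
  (nat_lit 0x1ffff))) s1 s2 s3 s3 (Nat.land (Nat.land za (Nat.shiftRight m (Nat.land (Nat.shiftRight (Nat.shiftRight m (nat_lit 34)) (Nat.land x (nat_lit 0x1ffff))) (nat_lit 0x1ffff)))) (Nat.shiftRight m (Nat.land (Nat.shiftRight (Nat.shiftRight m (nat_lit 34)) (Nat.land (Nat.shiftRight (Nat.shiftRight m (Nat.land (Nat.shiftRight (Nat.shiftRight m (nat_lit 34)) (Nat.land x (nat_lit 0x1ffff))) (nat_lit 0x1ffff))) (nat_lit 17)) (nat_lit 0x1ffff))) (nat_lit 0x1ffff)))) (Nat.add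 ac (Nat.land (Nat.shiftRight m (Nat.land (Nat.shiftRight m (Nat.land (Nat.shiftRight (Nat.shiftRight m (nat_lit 34)) (Nat.land x (nat_lit 0x1ffff))) (nat_lit 0x1ffff))) (nat_lit 0x1ffff))) (Nat.shiftLeft (Nat.land p (nat_lit 65535)) (nat_lit 70))))⟩,
  fun K p w => ⟨fun m x s1 s2 s3 s4 za ac => (K (Nat.shiftRight p (nat_lit 16)) (Nat.add w (Nat.shiftLeft (Nat.land p (nat_lit 65535)) (nat_lit 70)))).1 m (Nat.shiftRight m (Nat.land (Nat.shiftRight (Nat.shiftRight m (nat_lit 34)) (Nat.land (Nat.shiftRight m (Nat.land (Nat.shiftRight (Nat.shiftRight m (nat_lit 34)) (Nat.land (Nat.shiftRight x (nat_lit 17)) (nat_lit 0x1ffff))) (nat_lit 0x1ffff))) (nat_lit 0x1ffff)))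
  (nat_lit 0x1ffff))) s1 s2 s3 s3 (Nat.land (Nat.land za (Nat.shiftRight m (Nat.land (Nat.shiftRight (Nat.shiftRight m (nat_lit 34)) (Nat.land (Nat.shiftRight x (nat_lit 17)) (nat_lit 0x1ffff))) (nat_lit 0x1ffff)))) (Nat.shiftRight m (Nat.land (Nat.shiftRight (Nat.shiftRight m (nat_lit 34)) (Nat.land (Nat.shiftRight m (Nat.land (Nat.shiftRight (Nat.shiftRight m (nat_lit 34)) (Nat.land (Nat.shiftRight x
  (nat_lit 17)) (nat_lit 0x1ffff))) (nat_lit 0x1ffff))) (nat_lit 0x1ffff))) (nat_lit 0x1ffff)))) (Nat.add ac (Nat.land (Nat.shiftRight m (Nat.land (Nat.shiftRight m (Nat.land (Nat.shiftRight (Nat.shiftRight m (Nat.land (Nat.shiftRight (Nat.shiftRight m (nat_lit 34)) (Nat.land (Nat.shiftRight x (nat_lit 17)) (nat_lit 0x1ffff))) (nat_lit 0x1ffff))) (nat_lit 17)) (nat_lit 0x1ffff))) (nat_lit 0x1ffff))) (Nat.shiftLeft (Nat.land p (nat_lit 65535)) (nat_lit 70))))⟩,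
  rfl, rfl⟩
noncomputable def en234 : Ent := ⟨[nat_lit 3, nat_lit 11, nat_lit 2, nat_lit 11, nat_lit 9, nat_lit 1, nat_lit 4, nat_lit 11, nat_lit 2, nat_lit 4, nat_lit 11],
  fun K p w => ⟨fun m x s1 s2 s3 s4 za ac => (K (Nat.shiftRight (Nat.shiftRight (Nat.shiftRight (Nat.shiftRight p (nat_lit 16)) (nat_lit 16)) (nat_lit 16)) (nat_lit 16)) (Nat.add (Nat.add (Nat.add (Nat.add w (Nat.shiftLeft (Nat.land p (nat_lit 65535)) (nat_lit 70))) (Nat.shiftLeft (Nat.land (Nat.shiftRight p (nat_lit 16)) (nat_lit 65535)) (nat_lit 70))) (Nat.shiftLeft (Nat.land (Nat.shiftRight (Nat.shiftRight p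
  (nat_lit 16)) (nat_lit 16)) (nat_lit 65535)) (nat_lit 70))) (Nat.shiftLeft (Nat.land (Nat.shiftRight (Nat.shiftRight (Nat.shiftRight p (nat_lit 16)) (nat_lit 16)) (nat_lit 16)) (nat_lit 65535)) (nat_lit 70)))).1 m (Nat.shiftRight m (Nat.land (Nat.shiftRight (Nat.shiftRight m (Nat.land (Nat.shiftRight (Nat.shiftRight m (Nat.land (Nat.shiftRight (Nat.shiftRight m (Nat.land (Nat.shiftRight (Nat.shiftRight m
  (nat_lit 34)) (Nat.land (Nat.shiftRight s1 (nat_lit 17)) (nat_lit 0x1ffff))) (nat_lit 0x1ffff))) (nat_lit 17)) (nat_lit 0x1ffff))) (nat_lit 34)) (nat_lit 0x1ffff))) (nat_lit 17)) (nat_lit 0x1ffff))) s2 s3 s4 s4 (Nat.land (Nat.land (Nat.land za (Nat.shiftRight m (Nat.land (Nat.shiftRight (Nat.shiftRight m (Nat.land x (nat_lit 0x1ffff))) (nat_lit 34)) (nat_lit 0x1ffff)))) (Nat.shiftRight m (Nat.land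
  (Nat.shiftRight (Nat.shiftRight m (nat_lit 34)) (Nat.land (Nat.shiftRight s1 (nat_lit 17)) (nat_lit 0x1ffff))) (nat_lit 0x1ffff)))) (Nat.shiftRight m (Nat.land (Nat.shiftRight (Nat.shiftRight m (Nat.land (Nat.shiftRight (Nat.shiftRight m (Nat.land (Nat.shiftRight (Nat.shiftRight m (nat_lit 34)) (Nat.land (Nat.shiftRight s1 (nat_lit 17)) (nat_lit 0x1ffff))) (nat_lit 0x1ffff))) (nat_lit 17)) (nat_lit 0x1ffff)))
  (nat_lit 34)) (nat_lit 0x1ffff)))) (Nat.add (Nat.add (Nat.add (Nat.add ac (Nat.land (Nat.shiftRight m (Nat.land x (nat_lit 0x1ffff))) (Nat.shiftLeft (Nat.land p (nat_lit 65535)) (nat_lit 70)))) (Nat.land (Nat.shiftRight m (Nat.land (Nat.shiftRight (Nat.shiftRight m (Nat.land x (nat_lit 0x1ffff))) (nat_lit 34)) (nat_lit 0x1ffff))) (Nat.shiftLeft (Nat.land (Nat.shiftRight p (nat_lit 16)) (nat_lit 65535))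
  (nat_lit 70)))) (Nat.land (Nat.shiftRight m (Nat.land (Nat.shiftRight (Nat.shiftRight m (Nat.land (Nat.shiftRight (Nat.shiftRight m (nat_lit 34)) (Nat.land (Nat.shiftRight s1 (nat_lit 17)) (nat_lit 0x1ffff))) (nat_lit 0x1ffff))) (nat_lit 17)) (nat_lit 0x1ffff))) (Nat.shiftLeft (Nat.land (Nat.shiftRight (Nat.shiftRight p (nat_lit 16)) (nat_lit 16)) (nat_lit 65535)) (nat_lit 70)))) (Nat.land (Nat.shiftRight m
  (Nat.land (Nat.shiftRight (Nat.shiftRight m (Nat.land (Nat.shiftRight (Nat.shiftRight m (Nat.land (Nat.shiftRight (Nat.shiftRight m (Nat.land (Nat.shiftRight (Nat.shiftRight m (nat_lit 34)) (Nat.land (Nat.shiftRight s1 (nat_lit 17)) (nat_lit 0x1ffff))) (nat_lit 0x1ffff))) (nat_lit 17)) (nat_lit 0x1ffff))) (nat_lit 34)) (nat_lit 0x1ffff))) (nat_lit 17)) (nat_lit 0x1ffff))) (Nat.shiftLeft (Nat.land (Nat.shiftRight (Nat.shiftRight (Nat.shiftRight p (nat_lit 16)) (nat_lit 16))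 (nat_lit 16)) (nat_lit 65535)) (nat_lit 70))))⟩,
  fun K p w => ⟨fun m x s1 s2 s3 s4 za ac => (K (Nat.shiftRight (Nat.shiftRight (Nat.shiftRight (Nat.shiftRight p (nat_lit 16)) (nat_lit 16)) (nat_lit 16)) (nat_lit 16)) (Nat.add (Nat.add (Nat.add (Nat.add w (Nat.shiftLeft (Nat.land p (nat_lit 65535)) (nat_lit 70))) (Nat.shiftLeft (Nat.land (Nat.shiftRight p (nat_lit 16)) (nat_lit 65535)) (nat_lit 70))) (Nat.shiftLeft (Nat.land (Nat.shiftRight (Nat.shiftRight p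
  (nat_lit 16)) (nat_lit 16)) (nat_lit 65535)) (nat_lit 70))) (Nat.shiftLeft (Nat.land (Nat.shiftRight (Nat.shiftRight (Nat.shiftRight p (nat_lit 16)) (nat_lit 16)) (nat_lit 16)) (nat_lit 65535)) (nat_lit 70)))).1 m (Nat.shiftRight m (Nat.land (Nat.shiftRight m (Nat.land (Nat.shiftRight (Nat.shiftRight m (Nat.land (Nat.shiftRight m (Nat.land (Nat.shiftRight (Nat.shiftRight m (nat_lit 34)) (Nat.land s1
  (nat_lit 0x1ffff))) (nat_lit 0x1ffff))) (nat_lit 0x1ffff))) (nat_lit 34)) (nat_lit 0x1ffff))) (nat_lit 0x1ffff))) s2 s3 s4 s4 (Nat.land (Nat.land (Nat.land za (Nat.shiftRight m (Nat.land (Nat.shiftRight (Nat.shiftRight m (Nat.land (Nat.shiftRight x (nat_lit 17)) (nat_lit 0x1ffff))) (nat_lit 34)) (nat_lit 0x1ffff)))) (Nat.shiftRight m (Nat.land (Nat.shiftRight (Nat.shiftRight m (nat_lit 34)) (Nat.land s1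
  (nat_lit 0x1ffff))) (nat_lit 0x1ffff)))) (Nat.shiftRight m (Nat.land (Nat.shiftRight (Nat.shiftRight m (Nat.land (Nat.shiftRight m (Nat.land (Nat.shiftRight (Nat.shiftRight m (nat_lit 34)) (Nat.land s1 (nat_lit 0x1ffff))) (nat_lit 0x1ffff))) (nat_lit 0x1ffff))) (nat_lit 34)) (nat_lit 0x1ffff)))) (Nat.add (Nat.add (Nat.add (Nat.add ac (Nat.land (Nat.shiftRight m (Nat.land (Nat.shiftRight m (Nat.land
  (Nat.shiftRight x (nat_lit 17)) (nat_lit 0x1ffff))) (nat_lit 0x1ffff))) (Nat.shiftLeft (Nat.land p (nat_lit 65535)) (nat_lit 70)))) (Nat.land (Nat.shiftRight m (Nat.land (Nat.shiftRight m (Nat.land (Nat.shiftRight (Nat.shiftRight m (Nat.land (Nat.shiftRight x (nat_lit 17)) (nat_lit 0x1ffff))) (nat_lit 34)) (nat_lit 0x1ffff))) (nat_lit 0x1ffff))) (Nat.shiftLeft (Nat.land (Nat.shiftRight p (nat_lit 16))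
  (nat_lit 65535)) (nat_lit 70)))) (Nat.land (Nat.shiftRight m (Nat.land (Nat.shiftRight m (Nat.land (Nat.shiftRight m (Nat.land (Nat.shiftRight (Nat.shiftRight m (nat_lit 34)) (Nat.land s1 (nat_lit 0x1ffff))) (nat_lit 0x1ffff))) (nat_lit 0x1ffff))) (nat_lit 0x1ffff))) (Nat.shiftLeft (Nat.land (Nat.shiftRight (Nat.shiftRight p (nat_lit 16)) (nat_lit 16)) (nat_lit 65535)) (nat_lit 70)))) (Nat.land (Nat.shiftRight m
  (Nat.land (Nat.shiftRight m (Nat.land (Nat.shiftRight m (Nat.land (Nat.shiftRight (Nat.shiftRight m (Nat.land (Nat.shiftRight m (Nat.land (Nat.shiftRight (Nat.shiftRight m (nat_lit 34)) (Nat.land s1 (nat_lit 0x1ffff))) (nat_lit 0x1ffff))) (nat_lit 0x1ffff))) (nat_lit 34)) (nat_lit 0x1ffff))) (nat_lit 0x1ffff))) (nat_lit 0x1ffff))) (Nat.shiftLeft (Nat.land (Nat.shiftRight (Nat.shiftRight (Nat.shiftRight p (nat_lit 16)) (nat_lit 16)) (nat_lit 16)) (nat_lit 65535)) (nat_lit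 70))))⟩,
  rfl, rfl⟩
noncomputable def en235 : Ent := ⟨[nat_lit 0, nat_lit 3, nat_lit 11, nat_lit 2],
  fun K p w => ⟨fun m x s1 s2 s3 s4 za ac => (K (Nat.shiftRight p (nat_lit 16)) (Nat.add w (Nat.shiftLeft (Nat.land p (nat_lit 65535)) (nat_lit 70)))).1 m (Nat.shiftRight m (Nat.land (Nat.shiftRight (Nat.shiftRight m (Nat.land (Nat.shiftRight m (Nat.land (Nat.shiftRight (Nat.shiftRight m (nat_lit 34)) (Nat.land x (nat_lit 0x1ffff))) (nat_lit 0x1ffff))) (nat_lit 0x1ffff))) (nat_lit 34)) (nat_lit 0x1ffff))) s1 s2 s3 s4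
  (Nat.land (Nat.land za (Nat.shiftRight m (Nat.land (Nat.shiftRight (Nat.shiftRight m (nat_lit 34)) (Nat.land x (nat_lit 0x1ffff))) (nat_lit 0x1ffff)))) (Nat.shiftRight m (Nat.land (Nat.shiftRight (Nat.shiftRight m (Nat.land (Nat.shiftRight m (Nat.land (Nat.shiftRight (Nat.shiftRight m (nat_lit 34)) (Nat.land x (nat_lit 0x1ffff))) (nat_lit 0x1ffff))) (nat_lit 0x1ffff))) (nat_lit 34)) (nat_lit 0x1ffff)))) (Nat.add ac (Nat.land (Nat.shiftRight m (Nat.land (Nat.shiftRight m (Nat.land (Nat.shiftRight (Nat.shiftRight m (nat_lit 34)) (Nat.land x (nat_lit 0x1ffff))) (nat_lit 0x1ffff))) (nat_lit 0x1ffff))) (Nat.shiftLeft (Nat.land p (nat_lit 65535)) (nat_lit 70))))⟩,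
  fun K p w => ⟨fun m x s1 s2 s3 s4 za ac => (K (Nat.shiftRight p (nat_lit 16)) (Nat.add w (Nat.shiftLeft (Nat.land p (nat_lit 65535)) (nat_lit 70)))).1 m (Nat.shiftRight m (Nat.land (Nat.shiftRight (Nat.shiftRight m (Nat.land (Nat.shiftRight (Nat.shiftRight m (Nat.land (Nat.shiftRight (Nat.shiftRight m (nat_lit 34)) (Nat.land (Nat.shiftRight x (nat_lit 17)) (nat_lit 0x1ffff))) (nat_lit 0x1ffff)))
  (nat_lit 17)) (nat_lit 0x1ffff))) (nat_lit 34)) (nat_lit 0x1ffff))) s1 s2 s3 s4 (Nat.land (Nat.land za (Nat.shiftRight m (Nat.land (Nat.shiftRight (Nat.shiftRight m (nat_lit 34)) (Nat.land (Nat.shiftRight x (nat_lit 17)) (nat_lit 0x1ffff))) (nat_lit 0x1ffff)))) (Nat.shiftRight m (Nat.land (Nat.shiftRight (Nat.shiftRight m (Nat.land (Nat.shiftRight (Nat.shiftRight m (Nat.land (Nat.shiftRight (Nat.shiftRight m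
  (nat_lit 34)) (Nat.land (Nat.shiftRight x (nat_lit 17)) (nat_lit 0x1ffff))) (nat_lit 0x1ffff))) (nat_lit 17)) (nat_lit 0x1ffff))) (nat_lit 34)) (nat_lit 0x1ffff)))) (Nat.add ac (Nat.land (Nat.shiftRight m (Nat.land (Nat.shiftRight m (Nat.land (Nat.shiftRight (Nat.shiftRight m (Nat.land (Nat.shiftRight (Nat.shiftRight m (nat_lit 34)) (Nat.land (Nat.shiftRight x (nat_lit 17)) (nat_lit 0x1ffff))) (nat_lit 0x1ffff))) (nat_lit 17)) (nat_lit 0x1ffff))) (nat_lit 0x1ffff))) (Nat.shiftLeft (Nat.land p (nat_lit 65535)) (nat_lit 70))))⟩,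
  rfl, rfl⟩
noncomputable def en236 : Ent := ⟨[nat_lit 10, nat_lit 8, nat_lit 5, nat_lit 9, nat_lit 2, nat_lit 1, nat_lit 8, nat_lit 0],
  fun K p w => ⟨fun m x s1 s2 s3 s4 za ac => (K (Nat.shiftRight p (nat_lit 6)) (Nat.add w (Nat.shiftLeft (Nat.land p (nat_lit 63)) (nat_lit 64)))).1 m (Nat.shiftRight m (Nat.land (Nat.shiftRight (Nat.shiftRight m (nat_lit 34)) (Nat.land (Nat.shiftRight m (Nat.land (Nat.shiftRight (Nat.shiftRight m (nat_lit 34)) (Nat.land (Nat.shiftRight (Nat.shiftRight m (Nat.land (Nat.shiftRight x (nat_lit 34)) (nat_lit 0x1ffff)))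
  (nat_lit 17)) (nat_lit 0x1ffff))) (nat_lit 0x1ffff))) (nat_lit 0x1ffff))) (nat_lit 0x1ffff))) (Nat.shiftRight m (Nat.land (Nat.shiftRight (Nat.shiftRight m (nat_lit 34)) (Nat.land (Nat.shiftRight (Nat.shiftRight m (Nat.land (Nat.shiftRight x (nat_lit 34)) (nat_lit 0x1ffff))) (nat_lit 17)) (nat_lit 0x1ffff))) (nat_lit 0x1ffff))) s1 s2 s3 (Nat.land (Nat.land (Nat.land za (Nat.shiftRight m (Nat.land
  (Nat.shiftRight x (nat_lit 34)) (nat_lit 0x1ffff)))) (Nat.shiftRight m (Nat.land (Nat.shiftRight (Nat.shiftRight m (nat_lit 34)) (Nat.land (Nat.shiftRight (Nat.shiftRight m (Nat.land (Nat.shiftRight x (nat_lit 34)) (nat_lit 0x1ffff))) (nat_lit 17)) (nat_lit 0x1ffff))) (nat_lit 0x1ffff)))) (Nat.shiftRight m (Nat.land (Nat.shiftRight (Nat.shiftRight m (nat_lit 34)) (Nat.land (Nat.shiftRight m (Nat.land (Nat.shiftRight (Nat.shiftRight m (nat_lit 34)) (Nat.land (Nat.shiftRight (Nat.shiftRight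 m (Nat.land (Nat.shiftRight x (nat_lit 34)) (nat_lit 0x1ffff))) (nat_lit 17)) (nat_lit 0x1ffff))) (nat_lit 0x1ffff))) (nat_lit 0x1ffff))) (nat_lit 0x1ffff)))) (Nat.add ac (Nat.land x (Nat.shiftLeft (Nat.land p (nat_lit 63)) (nat_lit 64))))⟩,
  fun K p w => ⟨fun m x s1 s2 s3 s4 za ac => (K (Nat.shiftRight p (nat_lit 6)) (Nat.add w (Nat.shiftLeft (Nat.land p (nat_lit 63)) (nat_lit 64)))).1 m (Nat.shiftRight m (Nat.land (Nat.shiftRight (Nat.shiftRight m (nat_lit 34)) (Nat.land (Nat.shiftRight (Nat.shiftRight m (Nat.land (Nat.shiftRight (Nat.shiftRight m (nat_lit 34)) (Nat.land (Nat.shiftRight m (Nat.land (Nat.shiftRight x (nat_lit 34)) (nat_lit 0x1ffff)))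
  (nat_lit 0x1ffff))) (nat_lit 0x1ffff))) (nat_lit 17)) (nat_lit 0x1ffff))) (nat_lit 0x1ffff))) (Nat.shiftRight m (Nat.land (Nat.shiftRight (Nat.shiftRight m (nat_lit 34)) (Nat.land (Nat.shiftRight m (Nat.land (Nat.shiftRight x (nat_lit 34)) (nat_lit 0x1ffff))) (nat_lit 0x1ffff))) (nat_lit 0x1ffff))) s1 s2 s3 (Nat.land (Nat.land (Nat.land za (Nat.shiftRight m (Nat.land (Nat.shiftRight x (nat_lit 34))
  (nat_lit 0x1ffff)))) (Nat.shiftRight m (Nat.land (Nat.shiftRight (Nat.shiftRight m (nat_lit 34)) (Nat.land (Nat.shiftRight m (Nat.land (Nat.shiftRight x (nat_lit 34)) (nat_lit 0x1ffff))) (nat_lit 0x1ffff))) (nat_lit 0x1ffff)))) (Nat.shiftRight m (Nat.land (Nat.shiftRight (Nat.shiftRight m (nat_lit 34)) (Nat.land (Nat.shiftRight (Nat.shiftRight m (Nat.land (Nat.shiftRight (Nat.shiftRight m (nat_lit 34)) (Nat.land (Nat.shiftRight m (Nat.land (Nat.shiftRight x (nat_lit 34)) (nat_lit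 0x1ffff))) (nat_lit 0x1ffff))) (nat_lit 0x1ffff))) (nat_lit 17)) (nat_lit 0x1ffff))) (nat_lit 0x1ffff)))) (Nat.add ac (Nat.land x (Nat.shiftLeft (Nat.land p (nat_lit 63)) (nat_lit 64))))⟩,
  rfl, rfl⟩
noncomputable def en237 : Ent := ⟨[nat_lit 14, nat_lit 11, nat_lit 12, nat_lit 8, nat_lit 3, nat_lit 7, nat_lit 10, nat_lit 16, nat_lit 5, nat_lit 16],
  fun K p w => ⟨fun m x s1 s2 s3 s4 za ac => (K (Nat.shiftRight (Nat.shiftRight (Nat.shiftRight (Nat.shiftRight (Nat.shiftRight p (nat_lit 16)) (nat_lit 28)) (nat_lit 6)) (nat_lit 16)) (nat_lit 16)) (Nat.add (Nat.add (Nat.add (Nat.add (Nat.add w (Nat.shiftLeft (Nat.land p (nat_lit 65535)) (nat_lit 70))) (plA (Nat.shiftRight p (nat_lit 16)))) (Nat.shiftLeft (Nat.land (Nat.shiftRight (Nat.shiftRight p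
  (nat_lit 16)) (nat_lit 28)) (nat_lit 63)) (nat_lit 64))) (Nat.shiftLeft (Nat.land (Nat.shiftRight (Nat.shiftRight (Nat.shiftRight p (nat_lit 16)) (nat_lit 28)) (nat_lit 6)) (nat_lit 65535)) (nat_lit 70))) (Nat.shiftLeft (Nat.land (Nat.shiftRight (Nat.shiftRight (Nat.shiftRight (Nat.shiftRight p (nat_lit 16)) (nat_lit 28)) (nat_lit 6)) (nat_lit 16)) (nat_lit 65535)) (nat_lit 70)))).1 m (Nat.shiftRight m
  (Nat.land (Nat.shiftRight m (Nat.land (Nat.shiftRight (Nat.shiftRight m (Nat.land x (nat_lit 0x1ffff))) (nat_lit 34)) (nat_lit 0x1ffff))) (nat_lit 0x1ffff))) x s1 s2 s3 (Nat.land za x) (Nat.add (Nat.add (Nat.add (Nat.add (Nat.add ac (Nat.land x (Nat.shiftLeft (Nat.land p (nat_lit 65535)) (nat_lit 70)))) (Nat.land x (plA (Nat.shiftRight p (nat_lit 16))))) (Nat.land (Nat.shiftRight m (Nat.land (Nat.shiftRight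
  (Nat.shiftRight m (Nat.land x (nat_lit 0x1ffff))) (nat_lit 34)) (nat_lit 0x1ffff))) (Nat.shiftLeft (Nat.land (Nat.shiftRight (Nat.shiftRight p (nat_lit 16)) (nat_lit 28)) (nat_lit 63)) (nat_lit 64)))) (Nat.land (Nat.shiftRight m (Nat.land (Nat.shiftRight (Nat.shiftRight m (Nat.land x (nat_lit 0x1ffff))) (nat_lit 34)) (nat_lit 0x1ffff))) (Nat.shiftLeft (Nat.land (Nat.shiftRight (Nat.shiftRight (Nat.shiftRight p
  (nat_lit 16)) (nat_lit 28)) (nat_lit 6)) (nat_lit 65535)) (nat_lit 70)))) (Nat.land (Nat.shiftRight m (Nat.land (Nat.shiftRight m (Nat.land (Nat.shiftRight (Nat.shiftRight m (Nat.land x (nat_lit 0x1ffff))) (nat_lit 34)) (nat_lit 0x1ffff))) (nat_lit 0x1ffff))) (Nat.shiftLeft (Nat.land (Nat.shiftRight (Nat.shiftRight (Nat.shiftRight (Nat.shiftRight p (nat_lit 16)) (nat_lit 28)) (nat_lit 6)) (nat_lit 16)) (nat_lit 65535)) (nat_lit 70))))⟩,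
  fun K p w => ⟨fun m x s1 s2 s3 s4 za ac => (K (Nat.shiftRight (Nat.shiftRight (Nat.shiftRight (Nat.shiftRight (Nat.shiftRight p (nat_lit 16)) (nat_lit 28)) (nat_lit 6)) (nat_lit 16)) (nat_lit 16)) (Nat.add (Nat.add (Nat.add (Nat.succ (Nat.add w (Nat.shiftLeft (Nat.land p (nat_lit 65535)) (nat_lit 70)))) (Nat.shiftLeft (Nat.land (Nat.shiftRight (Nat.shiftRight p (nat_lit 16)) (nat_lit 28)) (nat_lit 63))
  (nat_lit 64))) (Nat.shiftLeft (Nat.land (Nat.shiftRight (Nat.shiftRight (Nat.shiftRight p (nat_lit 16)) (nat_lit 28)) (nat_lit 6)) (nat_lit 65535)) (nat_lit 70))) (Nat.shiftLeft (Nat.land (Nat.shiftRight (Nat.shiftRight (Nat.shiftRight (Nat.shiftRight p (nat_lit 16)) (nat_lit 28)) (nat_lit 6)) (nat_lit 16)) (nat_lit 65535)) (nat_lit 70)))).1 m (Nat.shiftRight m (Nat.land (Nat.shiftRight (Nat.shiftRight m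
  (Nat.land (Nat.shiftRight (Nat.shiftRight m (Nat.land (Nat.shiftRight x (nat_lit 17)) (nat_lit 0x1ffff))) (nat_lit 34)) (nat_lit 0x1ffff))) (nat_lit 17)) (nat_lit 0x1ffff))) x s1 s2 s3 (Nat.land za x) (Nat.add (Nat.add (Nat.add (Nat.add ac (Nat.land (Nat.shiftRight m (Nat.land x (nat_lit 0x1ffff))) (Nat.shiftLeft (Nat.land p (nat_lit 65535)) (nat_lit 70)))) (Nat.land (Nat.shiftRight m (Nat.land (Nat.shiftRight
  (Nat.shiftRight m (Nat.land (Nat.shiftRight x (nat_lit 17)) (nat_lit 0x1ffff))) (nat_lit 34)) (nat_lit 0x1ffff))) (Nat.shiftLeft (Nat.land (Nat.shiftRight (Nat.shiftRight p (nat_lit 16)) (nat_lit 28)) (nat_lit 63)) (nat_lit 64)))) (Nat.land (Nat.lor (Nat.shiftRight m (Nat.land (Nat.shiftRight m (Nat.land (Nat.shiftRight (Nat.shiftRight m (Nat.land (Nat.shiftRight x (nat_lit 17)) (nat_lit 0x1ffff)))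
  (nat_lit 34)) (nat_lit 0x1ffff))) (nat_lit 0x1ffff))) (Nat.shiftRight m (Nat.land (Nat.shiftRight (Nat.shiftRight m (Nat.land (Nat.shiftRight (Nat.shiftRight m (Nat.land (Nat.shiftRight x (nat_lit 17)) (nat_lit 0x1ffff))) (nat_lit 34)) (nat_lit 0x1ffff))) (nat_lit 34)) (nat_lit 0x1ffff)))) (Nat.shiftLeft (Nat.land (Nat.shiftRight (Nat.shiftRight (Nat.shiftRight p (nat_lit 16)) (nat_lit 28)) (nat_lit 6))
  (nat_lit 65535)) (nat_lit 70)))) (Nat.land (Nat.lor (Nat.shiftRight m (Nat.land (Nat.shiftRight m (Nat.land (Nat.shiftRight (Nat.shiftRight m (Nat.land (Nat.shiftRight (Nat.shiftRight m (Nat.land (Nat.shiftRight x (nat_lit 17)) (nat_lit 0x1ffff))) (nat_lit 34)) (nat_lit 0x1ffff))) (nat_lit 17)) (nat_lit 0x1ffff))) (nat_lit 0x1ffff))) (Nat.shiftRight m (Nat.land (Nat.shiftRight (Nat.shiftRight m (Nat.land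
  (Nat.shiftRight (Nat.shiftRight m (Nat.land (Nat.shiftRight (Nat.shiftRight m (Nat.land (Nat.shiftRight x (nat_lit 17)) (nat_lit 0x1ffff))) (nat_lit 34)) (nat_lit 0x1ffff))) (nat_lit 17)) (nat_lit 0x1ffff))) (nat_lit 34)) (nat_lit 0x1ffff)))) (Nat.shiftLeft (Nat.land (Nat.shiftRight (Nat.shiftRight (Nat.shiftRight (Nat.shiftRight p (nat_lit 16)) (nat_lit 28)) (nat_lit 6)) (nat_lit 16)) (nat_lit 65535)) (nat_lit 70))))⟩,
  rfl, rfl⟩
noncomputable def en238 : Ent := ⟨[nat_lit 7, nat_lit 5, nat_lit 13],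
  fun K p w => ⟨fun m x s1 s2 s3 s4 za ac => (K p (Nat.add w (nat_lit 0x10000000000000000))).1 m (Nat.shiftRight m (Nat.land (Nat.shiftRight (Nat.shiftRight m (Nat.land (Nat.shiftRight m (Nat.land (Nat.shiftRight x (nat_lit 34)) (nat_lit 0x1ffff))) (nat_lit 0x1ffff))) (nat_lit 34)) (nat_lit 0x1ffff))) s1 s2 s3 s4 za (Nat.add ac (Nat.land (Nat.shiftRight m (Nat.land (Nat.shiftRight (Nat.shiftRight m (Nat.land (Nat.shiftRight m (Nat.land (Nat.shiftRight x (nat_lit 34)) (nat_lit 0x1ffff))) (nat_lit 0x1ffff))) (nat_lit 34)) (nat_lit 0x1ffff))) (nat_lit 0x10000000000000000)))⟩,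
  fun K p w => ⟨fun m x s1 s2 s3 s4 za ac => (K p (Nat.add w (nat_lit 0x10000000000000000))).1 m (Nat.shiftRight m (Nat.land (Nat.shiftRight (Nat.shiftRight m (Nat.land (Nat.shiftRight (Nat.shiftRight m (Nat.land (Nat.shiftRight x (nat_lit 34)) (nat_lit 0x1ffff))) (nat_lit 17)) (nat_lit 0x1ffff))) (nat_lit 34)) (nat_lit 0x1ffff))) s1 s2 s3 s4 za (Nat.add ac (Nat.land (Nat.shiftRight m (Nat.land (Nat.shiftRight (Nat.shiftRight m (Nat.land (Nat.shiftRight (Nat.shiftRight m (Nat.land (Nat.shiftRight x (nat_lit 34)) (nat_lit 0x1ffff))) (nat_lit 17)) (nat_lit 0x1ffff))) (nat_lit 34)) (nat_lit 0x1ffff))) (nat_lit 0x10000000000000000)))⟩,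
  rfl, rfl⟩
noncomputable def en239 : Ent := ⟨[nat_lit 9, nat_lit 1, nat_lit 1, nat_lit 8, nat_lit 0],
  fun K p w => ⟨fun m x s1 s2 s3 s4 za ac => (K p w).1 m (Nat.shiftRight m (Nat.land (Nat.shiftRight (Nat.shiftRight m (nat_lit 34)) (Nat.land (Nat.shiftRight m (Nat.land (Nat.shiftRight (Nat.shiftRight m (nat_lit 34)) (Nat.land (Nat.shiftRight (Nat.shiftRight m (Nat.land (Nat.shiftRight (Nat.shiftRight m (nat_lit 34)) (Nat.land (Nat.shiftRight s1 (nat_lit 17)) (nat_lit 0x1ffff))) (nat_lit 0x1ffff)))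
  (nat_lit 17)) (nat_lit 0x1ffff))) (nat_lit 0x1ffff))) (nat_lit 0x1ffff))) (nat_lit 0x1ffff))) (Nat.shiftRight m (Nat.land (Nat.shiftRight (Nat.shiftRight m (nat_lit 34)) (Nat.land (Nat.shiftRight (Nat.shiftRight m (Nat.land (Nat.shiftRight (Nat.shiftRight m (nat_lit 34)) (Nat.land (Nat.shiftRight s1 (nat_lit 17)) (nat_lit 0x1ffff))) (nat_lit 0x1ffff))) (nat_lit 17)) (nat_lit 0x1ffff))) (nat_lit 0x1ffff))) s2 s3 s4
  (Nat.land (Nat.land (Nat.land za (Nat.shiftRight m (Nat.land (Nat.shiftRight (Nat.shiftRight m (nat_lit 34)) (Nat.land (Nat.shiftRight s1 (nat_lit 17)) (nat_lit 0x1ffff))) (nat_lit 0x1ffff)))) (Nat.shiftRight m (Nat.land (Nat.shiftRight (Nat.shiftRight m (nat_lit 34)) (Nat.land (Nat.shiftRight (Nat.shiftRight m (Nat.land (Nat.shiftRight (Nat.shiftRight m (nat_lit 34)) (Nat.land (Nat.shiftRight s1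
  (nat_lit 17)) (nat_lit 0x1ffff))) (nat_lit 0x1ffff))) (nat_lit 17)) (nat_lit 0x1ffff))) (nat_lit 0x1ffff)))) (Nat.shiftRight m (Nat.land (Nat.shiftRight (Nat.shiftRight m (nat_lit 34)) (Nat.land (Nat.shiftRight m (Nat.land (Nat.shiftRight (Nat.shiftRight m (nat_lit 34)) (Nat.land (Nat.shiftRight (Nat.shiftRight m (Nat.land (Nat.shiftRight (Nat.shiftRight m (nat_lit 34)) (Nat.land (Nat.shiftRight s1 (nat_lit 17)) (nat_lit 0x1ffff))) (nat_lit 0x1ffff))) (nat_lit 17)) (nat_lit 0x1ffff))) (nat_lit 0x1ffff))) (nat_lit 0x1ffff))) (nat_lit 0x1ffff)))) ac⟩,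
  fun K p w => ⟨fun m x s1 s2 s3 s4 za ac => (K p w).1 m (Nat.shiftRight m (Nat.land (Nat.shiftRight (Nat.shiftRight m (nat_lit 34)) (Nat.land (Nat.shiftRight (Nat.shiftRight m (Nat.land (Nat.shiftRight (Nat.shiftRight m (nat_lit 34)) (Nat.land (Nat.shiftRight m (Nat.land (Nat.shiftRight (Nat.shiftRight m (nat_lit 34)) (Nat.land s1 (nat_lit 0x1ffff))) (nat_lit 0x1ffff))) (nat_lit 0x1ffff))) (nat_lit 0x1ffff)))
  (nat_lit 17)) (nat_lit 0x1ffff))) (nat_lit 0x1ffff))) (Nat.shiftRight m (Nat.land (Nat.shiftRight (Nat.shiftRight m (nat_lit 34)) (Nat.land (Nat.shiftRight m (Nat.land (Nat.shiftRight (Nat.shiftRight m (nat_lit 34)) (Nat.land s1 (nat_lit 0x1ffff))) (nat_lit 0x1ffff))) (nat_lit 0x1ffff))) (nat_lit 0x1ffff))) s2 s3 s4 (Nat.land (Nat.land (Nat.land za (Nat.shiftRight m (Nat.land (Nat.shiftRight (Nat.shiftRight m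
  (nat_lit 34)) (Nat.land s1 (nat_lit 0x1ffff))) (nat_lit 0x1ffff)))) (Nat.shiftRight m (Nat.land (Nat.shiftRight (Nat.shiftRight m (nat_lit 34)) (Nat.land (Nat.shiftRight m (Nat.land (Nat.shiftRight (Nat.shiftRight m (nat_lit 34)) (Nat.land s1 (nat_lit 0x1ffff))) (nat_lit 0x1ffff))) (nat_lit 0x1ffff))) (nat_lit 0x1ffff)))) (Nat.shiftRight m (Nat.land (Nat.shiftRight (Nat.shiftRight m (nat_lit 34)) (Nat.land (Nat.shiftRight (Nat.shiftRight m (Nat.land (Nat.shiftRight (Nat.shiftRight m (nat_lit 34)) (Nat.land (Nat.shiftRight m (Nat.land (Nat.shiftRight (Nat.shiftRight m (nat_lit 34)) (Nat.land s1 (nat_lit 0x1ffff))) (nat_lit 0x1ffff))) (nat_lit 0x1ffff))) (nat_lit 0x1ffff))) (nat_lit 17)) (nat_lit 0x1ffff))) (nat_lit 0x1ffff)))) ac⟩,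
  rfl, rfl⟩
noncomputable def en240 : Ent := ⟨[nat_lit 9, nat_lit 2, nat_lit 1, nat_lit 1],
  fun K p w => ⟨fun m x s1 s2 s3 s4 za ac => (K p w).1 m (Nat.shiftRight m (Nat.land (Nat.shiftRight (Nat.shiftRight m (nat_lit 34)) (Nat.land (Nat.shiftRight (Nat.shiftRight m (Nat.land (Nat.shiftRight (Nat.shiftRight m (nat_lit 34)) (Nat.land (Nat.shiftRight (Nat.shiftRight m (Nat.land (Nat.shiftRight s1 (nat_lit 34)) (nat_lit 0x1ffff))) (nat_lit 17)) (nat_lit 0x1ffff))) (nat_lit 0x1ffff))) (nat_lit 17))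
  (nat_lit 0x1ffff))) (nat_lit 0x1ffff))) s2 s3 s4 s4 (Nat.land (Nat.land (Nat.land za (Nat.shiftRight m (Nat.land (Nat.shiftRight s1 (nat_lit 34)) (nat_lit 0x1ffff)))) (Nat.shiftRight m (Nat.land (Nat.shiftRight (Nat.shiftRight m (nat_lit 34)) (Nat.land (Nat.shiftRight (Nat.shiftRight m (Nat.land (Nat.shiftRight s1 (nat_lit 34)) (nat_lit 0x1ffff))) (nat_lit 17)) (nat_lit 0x1ffff))) (nat_lit 0x1ffff))))
  (Nat.shiftRight m (Nat.land (Nat.shiftRight (Nat.shiftRight m (nat_lit 34)) (Nat.land (Nat.shiftRight (Nat.shiftRight m (Nat.land (Nat.shiftRight (Nat.shiftRight m (nat_lit 34)) (Nat.land (Nat.shiftRight (Nat.shiftRight m (Nat.land (Nat.shiftRight s1 (nat_lit 34)) (nat_lit 0x1ffff))) (nat_lit 17)) (nat_lit 0x1ffff))) (nat_lit 0x1ffff))) (nat_lit 17)) (nat_lit 0x1ffff))) (nat_lit 0x1ffff)))) ac⟩,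
  fun K p w => ⟨fun m x s1 s2 s3 s4 za ac => (K p w).1 m (Nat.shiftRight m (Nat.land (Nat.shiftRight (Nat.shiftRight m (nat_lit 34)) (Nat.land (Nat.shiftRight m (Nat.land (Nat.shiftRight (Nat.shiftRight m (nat_lit 34)) (Nat.land (Nat.shiftRight m (Nat.land (Nat.shiftRight s1 (nat_lit 34)) (nat_lit 0x1ffff))) (nat_lit 0x1ffff))) (nat_lit 0x1ffff))) (nat_lit 0x1ffff))) (nat_lit 0x1ffff))) s2 s3 s4 s4
  (Nat.land (Nat.land (Nat.land za (Nat.shiftRight m (Nat.land (Nat.shiftRight s1 (nat_lit 34)) (nat_lit 0x1ffff)))) (Nat.shiftRight m (Nat.land (Nat.shiftRight (Nat.shiftRight m (nat_lit 34)) (Nat.land (Nat.shiftRight m (Nat.land (Nat.shiftRight s1 (nat_lit 34)) (nat_lit 0x1ffff))) (nat_lit 0x1ffff))) (nat_lit 0x1ffff)))) (Nat.shiftRight m (Nat.land (Nat.shiftRight (Nat.shiftRight m (nat_lit 34)) (Nat.land (Nat.shiftRight m (Nat.land (Nat.shiftRight (Nat.shiftRight m (nat_lit 34)) (Nat.land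 (Nat.shiftRight m (Nat.land (Nat.shiftRight s1 (nat_lit 34)) (nat_lit 0x1ffff))) (nat_lit 0x1ffff))) (nat_lit 0x1ffff))) (nat_lit 0x1ffff))) (nat_lit 0x1ffff)))) ac⟩,
  rfl, rfl⟩
noncomputable def en241 : Ent := ⟨[nat_lit 9, nat_lit 1, nat_lit 4, nat_lit 7, nat_lit 10, nat_lit 5],
  fun K p w => ⟨fun m x s1 s2 s3 s4 za ac => (K (Nat.shiftRight p (nat_lit 6)) (Nat.add w (Nat.shiftLeft (Nat.land p (nat_lit 63)) (nat_lit 64)))).1 m (Nat.shiftRight m (Nat.land (Nat.shiftRight m (Nat.land (Nat.shiftRight (Nat.shiftRight m (Nat.land (Nat.shiftRight (Nat.shiftRight m (Nat.land (Nat.shiftRight (Nat.shiftRight m (nat_lit 34)) (Nat.land (Nat.shiftRight s1 (nat_lit 17)) (nat_lit 0x1ffff)))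
  (nat_lit 0x1ffff))) (nat_lit 17)) (nat_lit 0x1ffff))) (nat_lit 34)) (nat_lit 0x1ffff))) (nat_lit 0x1ffff))) s2 s3 s4 s4 (Nat.land za (Nat.shiftRight m (Nat.land (Nat.shiftRight (Nat.shiftRight m (nat_lit 34)) (Nat.land (Nat.shiftRight s1 (nat_lit 17)) (nat_lit 0x1ffff))) (nat_lit 0x1ffff)))) (Nat.add ac (Nat.land (Nat.shiftRight m (Nat.land (Nat.shiftRight (Nat.shiftRight m (Nat.land (Nat.shiftRight (Nat.shiftRight m (Nat.land (Nat.shiftRight (Nat.shiftRight m (nat_lit 34)) (Nat.land (Nat.shiftRight s1 (nat_lit 17)) (nat_lit 0x1ffff))) (nat_lit 0x1ffff))) (nat_lit 17)) (nat_lit 0x1ffff))) (nat_lit 34)) (nat_lit 0x1ffff))) (Nat.shiftLeft (Nat.land p (nat_lit 63)) (nat_lit 64))))⟩,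
  fun K p w => ⟨fun m x s1 s2 s3 s4 za ac => (K (Nat.shiftRight p (nat_lit 6)) (Nat.add w (Nat.shiftLeft (Nat.land p (nat_lit 63)) (nat_lit 64)))).1 m (Nat.shiftRight m (Nat.land (Nat.shiftRight (Nat.shiftRight m (Nat.land (Nat.shiftRight (Nat.shiftRight m (Nat.land (Nat.shiftRight m (Nat.land (Nat.shiftRight (Nat.shiftRight m (nat_lit 34)) (Nat.land s1 (nat_lit 0x1ffff))) (nat_lit 0x1ffff))) (nat_lit 0x1ffff)))
  (nat_lit 34)) (nat_lit 0x1ffff))) (nat_lit 17)) (nat_lit 0x1ffff))) s2 s3 s4 s4 (Nat.land za (Nat.shiftRight m (Nat.land (Nat.shiftRight (Nat.shiftRight m (nat_lit 34)) (Nat.land s1 (nat_lit 0x1ffff))) (nat_lit 0x1ffff)))) (Nat.add ac (Nat.land (Nat.shiftRight m (Nat.land (Nat.shiftRight (Nat.shiftRight m (Nat.land (Nat.shiftRight m (Nat.land (Nat.shiftRight (Nat.shiftRight m (nat_lit 34)) (Nat.land s1 (nat_lit 0x1ffff))) (nat_lit 0x1ffff))) (nat_lit 0x1ffff))) (nat_lit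 34)) (nat_lit 0x1ffff))) (Nat.shiftLeft (Nat.land p (nat_lit 63)) (nat_lit 64))))⟩,
  rfl, rfl⟩
noncomputable def en242 : Ent := ⟨[nat_lit 1, nat_lit 4, nat_lit 7, nat_lit 10, nat_lit 5],
  fun K p w => ⟨fun m x s1 s2 s3 s4 za ac => (K (Nat.shiftRight p (nat_lit 6)) (Nat.add w (Nat.shiftLeft (Nat.land p (nat_lit 63)) (nat_lit 64)))).1 m (Nat.shiftRight m (Nat.land (Nat.shiftRight m (Nat.land (Nat.shiftRight (Nat.shiftRight m (Nat.land (Nat.shiftRight (Nat.shiftRight m (Nat.land (Nat.shiftRight (Nat.shiftRight m (nat_lit 34)) (Nat.land (Nat.shiftRight x (nat_lit 17)) (nat_lit 0x1ffff)))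
  (nat_lit 0x1ffff))) (nat_lit 17)) (nat_lit 0x1ffff))) (nat_lit 34)) (nat_lit 0x1ffff))) (nat_lit 0x1ffff))) s1 s2 s3 s4 (Nat.land za (Nat.shiftRight m (Nat.land (Nat.shiftRight (Nat.shiftRight m (nat_lit 34)) (Nat.land (Nat.shiftRight x (nat_lit 17)) (nat_lit 0x1ffff))) (nat_lit 0x1ffff)))) (Nat.add ac (Nat.land (Nat.shiftRight m (Nat.land (Nat.shiftRight (Nat.shiftRight m (Nat.land (Nat.shiftRight (Nat.shiftRight m (Nat.land (Nat.shiftRight (Nat.shiftRight m (nat_lit 34)) (Nat.land (Nat.shiftRight x (nat_lit 17)) (nat_lit 0x1ffff))) (nat_lit 0x1ffff))) (nat_lit 17)) (nat_lit 0x1ffff))) (nat_lit 34)) (nat_lit 0x1ffff))) (Nat.shiftLeft (Nat.land p (nat_lit 63)) (nat_lit 64))))⟩,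
  fun K p w => ⟨fun m x s1 s2 s3 s4 za ac => (K (Nat.shiftRight p (nat_lit 6)) (Nat.add w (Nat.shiftLeft (Nat.land p (nat_lit 63)) (nat_lit 64)))).1 m (Nat.shiftRight m (Nat.land (Nat.shiftRight (Nat.shiftRight m (Nat.land (Nat.shiftRight (Nat.shiftRight m (Nat.land (Nat.shiftRight m (Nat.land (Nat.shiftRight (Nat.shiftRight m (nat_lit 34)) (Nat.land x (nat_lit 0x1ffff))) (nat_lit 0x1ffff))) (nat_lit 0x1ffff)))
  (nat_lit 34)) (nat_lit 0x1ffff))) (nat_lit 17)) (nat_lit 0x1ffff))) s1 s2 s3 s4 (Nat.land za (Nat.shiftRight m (Nat.land (Nat.shiftRight (Nat.shiftRight m (nat_lit 34)) (Nat.land x (nat_lit 0x1ffff))) (nat_lit 0x1ffff)))) (Nat.add ac (Nat.land (Nat.shiftRight m (Nat.land (Nat.shiftRight (Nat.shiftRight m (Nat.land (Nat.shiftRight m (Nat.land (Nat.shiftRight (Nat.shiftRight m (nat_lit 34)) (Nat.land x (nat_lit 0x1ffff))) (nat_lit 0x1ffff))) (nat_lit 0x1ffff))) (nat_lit 34))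 (nat_lit 0x1ffff))) (Nat.shiftLeft (Nat.land p (nat_lit 63)) (nat_lit 64))))⟩,
  rfl, rfl⟩
noncomputable def en243 : Ent := ⟨[nat_lit 8, nat_lit 0, nat_lit 11, nat_lit 9, nat_lit 1],
  fun K p w => ⟨fun m x s1 s2 s3 s4 za ac => (K (Nat.shiftRight p (nat_lit 16)) (Nat.add w (Nat.shiftLeft (Nat.land p (nat_lit 65535)) (nat_lit 70)))).1 m (Nat.shiftRight m (Nat.land (Nat.shiftRight (Nat.shiftRight m (nat_lit 34)) (Nat.land (Nat.shiftRight x (nat_lit 17)) (nat_lit 0x1ffff))) (nat_lit 0x1ffff))) s1 s2 s3 s3 (Nat.land (Nat.land za (Nat.shiftRight m (Nat.land (Nat.shiftRight (Nat.shiftRight m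
  (nat_lit 34)) (Nat.land x (nat_lit 0x1ffff))) (nat_lit 0x1ffff)))) (Nat.shiftRight m (Nat.land (Nat.shiftRight (Nat.shiftRight m (nat_lit 34)) (Nat.land (Nat.shiftRight x (nat_lit 17)) (nat_lit 0x1ffff))) (nat_lit 0x1ffff)))) (Nat.add ac (Nat.land (Nat.shiftRight m (Nat.land (Nat.shiftRight (Nat.shiftRight m (nat_lit 34)) (Nat.land x (nat_lit 0x1ffff))) (nat_lit 0x1ffff))) (Nat.shiftLeft (Nat.land p (nat_lit 65535)) (nat_lit 70))))⟩,
  fun K p w => ⟨fun m x s1 s2 s3 s4 za ac => (K (Nat.shiftRight p (nat_lit 16)) (Nat.add w (Nat.shiftLeft (Nat.land p (nat_lit 65535)) (nat_lit 70)))).1 m (Nat.shiftRight m (Nat.land (Nat.shiftRight (Nat.shiftRight m (nat_lit 34)) (Nat.land x (nat_lit 0x1ffff))) (nat_lit 0x1ffff))) s1 s2 s3 s3 (Nat.land (Nat.land za (Nat.shiftRight m (Nat.land (Nat.shiftRight (Nat.shiftRight m (nat_lit 34)) (Nat.land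
  (Nat.shiftRight x (nat_lit 17)) (nat_lit 0x1ffff))) (nat_lit 0x1ffff)))) (Nat.shiftRight m (Nat.land (Nat.shiftRight (Nat.shiftRight m (nat_lit 34)) (Nat.land x (nat_lit 0x1ffff))) (nat_lit 0x1ffff)))) (Nat.add ac (Nat.land (Nat.shiftRight m (Nat.land (Nat.shiftRight m (Nat.land (Nat.shiftRight (Nat.shiftRight m (nat_lit 34)) (Nat.land (Nat.shiftRight x (nat_lit 17)) (nat_lit 0x1ffff))) (nat_lit 0x1ffff))) (nat_lit 0x1ffff))) (Nat.shiftLeft (Nat.land p (nat_lit 65535)) (nat_lit 70))))⟩,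
  rfl, rfl⟩
noncomputable def en244 : Ent := ⟨[nat_lit 9, nat_lit 4, nat_lit 7, nat_lit 6],
  fun K p w => ⟨fun m x s1 s2 s3 s4 za ac => (K p w).1 m (Nat.shiftRight m (Nat.land (Nat.shiftRight (Nat.shiftRight m (Nat.land (Nat.shiftRight (Nat.shiftRight m (Nat.land (Nat.shiftRight s1 (nat_lit 17)) (nat_lit 0x1ffff))) (nat_lit 34)) (nat_lit 0x1ffff))) (nat_lit 17)) (nat_lit 0x1ffff))) s2 s3 s4 s4 za ac⟩,
  fun K p w => ⟨fun m x s1 s2 s3 s4 za ac => (K p w).1 m (Nat.shiftRight m (Nat.land (Nat.shiftRight m (Nat.land (Nat.shiftRight (Nat.shiftRight m (Nat.land s1 (nat_lit 0x1ffff))) (nat_lit 34)) (nat_lit 0x1ffff))) (nat_lit 0x1ffff))) s2 s3 s4 s4 za ac⟩,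
  rfl, rfl⟩
noncomputable def en245 : Ent := ⟨[nat_lit 10, nat_lit 16, nat_lit 8, nat_lit 5, nat_lit 16],
  fun K p w => ⟨fun m x s1 s2 s3 s4 za ac => (K (Nat.shiftRight (Nat.shiftRight (Nat.shiftRight p (nat_lit 6)) (nat_lit 16)) (nat_lit 16)) (Nat.add (Nat.add (Nat.add w (Nat.shiftLeft (Nat.land p (nat_lit 63)) (nat_lit 64))) (Nat.shiftLeft (Nat.land (Nat.shiftRight p (nat_lit 6)) (nat_lit 65535)) (nat_lit 70))) (Nat.shiftLeft (Nat.land (Nat.shiftRight (Nat.shiftRight p (nat_lit 6)) (nat_lit 16)) (nat_lit 65535))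
  (nat_lit 70)))).1 m (Nat.shiftRight m (Nat.land x (nat_lit 0x1ffff))) x s1 s2 s3 za (Nat.add (Nat.add (Nat.add ac (Nat.land x (Nat.shiftLeft (Nat.land p (nat_lit 63)) (nat_lit 64)))) (Nat.land x (Nat.shiftLeft (Nat.land (Nat.shiftRight p (nat_lit 6)) (nat_lit 65535)) (nat_lit 70)))) (Nat.land (Nat.shiftRight m (Nat.land x (nat_lit 0x1ffff))) (Nat.shiftLeft (Nat.land (Nat.shiftRight (Nat.shiftRight p (nat_lit 6)) (nat_lit 16)) (nat_lit 65535)) (nat_lit 70))))⟩,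
  fun K p w => ⟨fun m x s1 s2 s3 s4 za ac => (K (Nat.shiftRight (Nat.shiftRight (Nat.shiftRight p (nat_lit 6)) (nat_lit 16)) (nat_lit 16)) (Nat.add (Nat.add (Nat.add w (Nat.shiftLeft (Nat.land p (nat_lit 63)) (nat_lit 64))) (Nat.shiftLeft (Nat.land (Nat.shiftRight p (nat_lit 6)) (nat_lit 65535)) (nat_lit 70))) (Nat.shiftLeft (Nat.land (Nat.shiftRight (Nat.shiftRight p (nat_lit 6)) (nat_lit 16)) (nat_lit 65535))
  (nat_lit 70)))).1 m (Nat.shiftRight m (Nat.land (Nat.shiftRight x (nat_lit 17)) (nat_lit 0x1ffff))) x s1 s2 s3 za (Nat.add (Nat.add (Nat.add ac (Nat.land x (Nat.shiftLeft (Nat.land p (nat_lit 63)) (nat_lit 64)))) (Nat.land (Nat.lor (Nat.shiftRight m (Nat.land x (nat_lit 0x1ffff))) (Nat.shiftRight m (Nat.land (Nat.shiftRight x (nat_lit 34)) (nat_lit 0x1ffff)))) (Nat.shiftLeft (Nat.land (Nat.shiftRight p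
  (nat_lit 6)) (nat_lit 65535)) (nat_lit 70)))) (Nat.land (Nat.lor (Nat.shiftRight m (Nat.land (Nat.shiftRight m (Nat.land (Nat.shiftRight x (nat_lit 17)) (nat_lit 0x1ffff))) (nat_lit 0x1ffff))) (Nat.shiftRight m (Nat.land (Nat.shiftRight (Nat.shiftRight m (Nat.land (Nat.shiftRight x (nat_lit 17)) (nat_lit 0x1ffff))) (nat_lit 34)) (nat_lit 0x1ffff)))) (Nat.shiftLeft (Nat.land (Nat.shiftRight (Nat.shiftRight p (nat_lit 6)) (nat_lit 16)) (nat_lit 65535)) (nat_lit 70))))⟩,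
  rfl, rfl⟩
noncomputable def en246 : Ent := ⟨[nat_lit 0, nat_lit 3, nat_lit 7, nat_lit 10, nat_lit 5, nat_lit 16],
  fun K p w => ⟨fun m x s1 s2 s3 s4 za ac => (K (Nat.shiftRight (Nat.shiftRight p (nat_lit 6)) (nat_lit 16)) (Nat.add (Nat.add w (Nat.shiftLeft (Nat.land p (nat_lit 63)) (nat_lit 64))) (Nat.shiftLeft (Nat.land (Nat.shiftRight p (nat_lit 6)) (nat_lit 65535)) (nat_lit 70)))).1 m (Nat.shiftRight m (Nat.land (Nat.shiftRight m (Nat.land (Nat.shiftRight (Nat.shiftRight m (Nat.land (Nat.shiftRight m (Nat.land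
  (Nat.shiftRight (Nat.shiftRight m (nat_lit 34)) (Nat.land x (nat_lit 0x1ffff))) (nat_lit 0x1ffff))) (nat_lit 0x1ffff))) (nat_lit 34)) (nat_lit 0x1ffff))) (nat_lit 0x1ffff))) s1 s2 s3 s4 (Nat.land za (Nat.shiftRight m (Nat.land (Nat.shiftRight (Nat.shiftRight m (nat_lit 34)) (Nat.land x (nat_lit 0x1ffff))) (nat_lit 0x1ffff)))) (Nat.add (Nat.add ac (Nat.land (Nat.shiftRight m (Nat.land (Nat.shiftRight
  (Nat.shiftRight m (Nat.land (Nat.shiftRight m (Nat.land (Nat.shiftRight (Nat.shiftRight m (nat_lit 34)) (Nat.land x (nat_lit 0x1ffff))) (nat_lit 0x1ffff))) (nat_lit 0x1ffff))) (nat_lit 34)) (nat_lit 0x1ffff))) (Nat.shiftLeft (Nat.land p (nat_lit 63)) (nat_lit 64)))) (Nat.land (Nat.shiftRight m (Nat.land (Nat.shiftRight m (Nat.land (Nat.shiftRight (Nat.shiftRight m (Nat.land (Nat.shiftRight m (Nat.land (Nat.shiftRight (Nat.shiftRight m (nat_lit 34)) (Nat.land x (nat_lit 0x1ffff)))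 (nat_lit 0x1ffff))) (nat_lit 0x1ffff))) (nat_lit 34)) (nat_lit 0x1ffff))) (nat_lit 0x1ffff))) (Nat.shiftLeft (Nat.land (Nat.shiftRight p (nat_lit 6)) (nat_lit 65535)) (nat_lit 70))))⟩,
  fun K p w => ⟨fun m x s1 s2 s3 s4 za ac => (K (Nat.shiftRight (Nat.shiftRight p (nat_lit 6)) (nat_lit 16)) (Nat.add (Nat.add w (Nat.shiftLeft (Nat.land p (nat_lit 63)) (nat_lit 64))) (Nat.shiftLeft (Nat.land (Nat.shiftRight p (nat_lit 6)) (nat_lit 65535)) (nat_lit 70)))).1 m (Nat.shiftRight m (Nat.land (Nat.shiftRight (Nat.shiftRight m (Nat.land (Nat.shiftRight (Nat.shiftRight m (Nat.land (Nat.shiftRight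
  (Nat.shiftRight m (Nat.land (Nat.shiftRight (Nat.shiftRight m (nat_lit 34)) (Nat.land (Nat.shiftRight x (nat_lit 17)) (nat_lit 0x1ffff))) (nat_lit 0x1ffff))) (nat_lit 17)) (nat_lit 0x1ffff))) (nat_lit 34)) (nat_lit 0x1ffff))) (nat_lit 17)) (nat_lit 0x1ffff))) s1 s2 s3 s4 (Nat.land za (Nat.shiftRight m (Nat.land (Nat.shiftRight (Nat.shiftRight m (nat_lit 34)) (Nat.land (Nat.shiftRight x (nat_lit 17))
  (nat_lit 0x1ffff))) (nat_lit 0x1ffff)))) (Nat.add (Nat.add ac (Nat.land (Nat.shiftRight m (Nat.land (Nat.shiftRight (Nat.shiftRight m (Nat.land (Nat.shiftRight (Nat.shiftRight m (Nat.land (Nat.shiftRight (Nat.shiftRight m (nat_lit 34)) (Nat.land (Nat.shiftRight x (nat_lit 17)) (nat_lit 0x1ffff))) (nat_lit 0x1ffff))) (nat_lit 17)) (nat_lit 0x1ffff))) (nat_lit 34)) (nat_lit 0x1ffff))) (Nat.shiftLeft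
  (Nat.land p (nat_lit 63)) (nat_lit 64)))) (Nat.land (Nat.lor (Nat.shiftRight m (Nat.land (Nat.shiftRight m (Nat.land (Nat.shiftRight (Nat.shiftRight m (Nat.land (Nat.shiftRight (Nat.shiftRight m (Nat.land (Nat.shiftRight (Nat.shiftRight m (Nat.land (Nat.shiftRight (Nat.shiftRight m (nat_lit 34)) (Nat.land (Nat.shiftRight x (nat_lit 17)) (nat_lit 0x1ffff))) (nat_lit 0x1ffff))) (nat_lit 17)) (nat_lit 0x1ffff)))
  (nat_lit 34)) (nat_lit 0x1ffff))) (nat_lit 17)) (nat_lit 0x1ffff))) (nat_lit 0x1ffff))) (Nat.shiftRight m (Nat.land (Nat.shiftRight (Nat.shiftRight m (Nat.land (Nat.shiftRight (Nat.shiftRight m (Nat.land (Nat.shiftRight (Nat.shiftRight m (Nat.land (Nat.shiftRight (Nat.shiftRight m (Nat.land (Nat.shiftRight (Nat.shiftRight m (nat_lit 34)) (Nat.land (Nat.shiftRight x (nat_lit 17)) (nat_lit 0x1ffff))) (nat_lit 0x1ffff))) (nat_lit 17)) (nat_lit 0x1ffff))) (nat_lit 34)) (nat_lit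 0x1ffff))) (nat_lit 17)) (nat_lit 0x1ffff))) (nat_lit 34)) (nat_lit 0x1ffff)))) (Nat.shiftLeft (Nat.land (Nat.shiftRight p (nat_lit 6)) (nat_lit 65535)) (nat_lit 70))))⟩,
  rfl, rfl⟩
noncomputable def en247 : Ent := ⟨[nat_lit 3, nat_lit 7, nat_lit 10, nat_lit 6, nat_lit 16],
  fun K p w => ⟨fun m x s1 s2 s3 s4 za ac => (K (Nat.shiftRight (Nat.shiftRight p (nat_lit 6)) (nat_lit 16)) (Nat.add (Nat.add w (Nat.shiftLeft (Nat.land p (nat_lit 63)) (nat_lit 64))) (Nat.shiftLeft (Nat.land (Nat.shiftRight p (nat_lit 6)) (nat_lit 65535)) (nat_lit 70)))).1 m (Nat.shiftRight m (Nat.land (Nat.shiftRight (Nat.shiftRight m (Nat.land (Nat.shiftRight (Nat.shiftRight m (Nat.land x (nat_lit 0x1ffff)))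
  (nat_lit 34)) (nat_lit 0x1ffff))) (nat_lit 17)) (nat_lit 0x1ffff))) s1 s2 s3 s4 za (Nat.add (Nat.add ac (Nat.land (Nat.shiftRight m (Nat.land (Nat.shiftRight (Nat.shiftRight m (Nat.land x (nat_lit 0x1ffff))) (nat_lit 34)) (nat_lit 0x1ffff))) (Nat.shiftLeft (Nat.land p (nat_lit 63)) (nat_lit 64)))) (Nat.land (Nat.shiftRight m (Nat.land (Nat.shiftRight (Nat.shiftRight m (Nat.land (Nat.shiftRight (Nat.shiftRight m (Nat.land x (nat_lit 0x1ffff))) (nat_lit 34)) (nat_lit 0x1ffff))) (nat_lit 17)) (nat_lit 0x1ffff))) (Nat.shiftLeft (Nat.land (Nat.shiftRight p (nat_lit 6)) (nat_lit 65535)) (nat_lit 70))))⟩,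
  fun K p w => ⟨fun m x s1 s2 s3 s4 za ac => (K (Nat.shiftRight (Nat.shiftRight p (nat_lit 6)) (nat_lit 16)) (Nat.add (Nat.add w (Nat.shiftLeft (Nat.land p (nat_lit 63)) (nat_lit 64))) (Nat.shiftLeft (Nat.land (Nat.shiftRight p (nat_lit 6)) (nat_lit 65535)) (nat_lit 70)))).1 m (Nat.shiftRight m (Nat.land (Nat.shiftRight m (Nat.land (Nat.shiftRight (Nat.shiftRight m (Nat.land (Nat.shiftRight x (nat_lit 17))
  (nat_lit 0x1ffff))) (nat_lit 34)) (nat_lit 0x1ffff))) (nat_lit 0x1ffff))) s1 s2 s3 s4 za (Nat.add (Nat.add ac (Nat.land (Nat.shiftRight m (Nat.land (Nat.shiftRight (Nat.shiftRight m (Nat.land (Nat.shiftRight x (nat_lit 17)) (nat_lit 0x1ffff))) (nat_lit 34)) (nat_lit 0x1ffff))) (Nat.shiftLeft (Nat.land p (nat_lit 63)) (nat_lit 64)))) (Nat.land (Nat.lor (Nat.shiftRight m (Nat.land (Nat.shiftRight m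
  (Nat.land (Nat.shiftRight m (Nat.land (Nat.shiftRight (Nat.shiftRight m (Nat.land (Nat.shiftRight x (nat_lit 17)) (nat_lit 0x1ffff))) (nat_lit 34)) (nat_lit 0x1ffff))) (nat_lit 0x1ffff))) (nat_lit 0x1ffff))) (Nat.shiftRight m (Nat.land (Nat.shiftRight (Nat.shiftRight m (Nat.land (Nat.shiftRight m (Nat.land (Nat.shiftRight (Nat.shiftRight m (Nat.land (Nat.shiftRight x (nat_lit 17)) (nat_lit 0x1ffff))) (nat_lit 34)) (nat_lit 0x1ffff))) (nat_lit 0x1ffff))) (nat_lit 34)) (nat_lit 0x1ffff)))) (Nat.shiftLeft (Nat.land (Nat.shiftRight p (nat_lit 6)) (nat_lit 65535)) (nat_lit 70))))⟩,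
  rfl, rfl⟩
noncomputable def en248 : Ent := ⟨[nat_lit 7, nat_lit 10, nat_lit 5, nat_lit 12],
  fun K p w => ⟨fun m x s1 s2 s3 s4 za ac => (K (Nat.shiftRight (Nat.shiftRight p (nat_lit 6)) (nat_lit 28)) (Nat.add (Nat.add w (Nat.shiftLeft (Nat.land p (nat_lit 63)) (nat_lit 64))) (plA (Nat.shiftRight p (nat_lit 6))))).1 m (Nat.shiftRight m (Nat.land (Nat.shiftRight m (Nat.land (Nat.shiftRight x (nat_lit 34)) (nat_lit 0x1ffff))) (nat_lit 0x1ffff))) s1 s2 s3 s4 za (Nat.add (Nat.add ac (Nat.land (Nat.shiftRight m (Nat.land (Nat.shiftRight x (nat_lit 34)) (nat_lit 0x1ffff))) (Nat.shiftLeft (Nat.land p (nat_lit 63)) (nat_lit 64)))) (Nat.land (Nat.shiftRight m (Nat.land (Nat.shiftRight m (Nat.land (Nat.shiftRight x (nat_lit 34)) (nat_lit 0x1ffff))) (nat_lit 0x1ffff))) (plA (Nat.shiftRight p (nat_lit 6)))))⟩,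
  fun K p w => ⟨fun m x s1 s2 s3 s4 za ac => (K (Nat.shiftRight (Nat.shiftRight p (nat_lit 6)) (nat_lit 28)) (Nat.succ (Nat.add w (Nat.shiftLeft (Nat.land p (nat_lit 63)) (nat_lit 64))))).1 m (Nat.shiftRight m (Nat.land (Nat.shiftRight (Nat.shiftRight m (Nat.land (Nat.shiftRight x (nat_lit 34)) (nat_lit 0x1ffff))) (nat_lit 17)) (nat_lit 0x1ffff))) s1 s2 s3 s4 za (Nat.add ac (Nat.land (Nat.shiftRight m (Nat.land (Nat.shiftRight x (nat_lit 34)) (nat_lit 0x1ffff))) (Nat.shiftLeft (Nat.land p (nat_lit 63)) (nat_lit 64))))⟩,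
  rfl, rfl⟩
noncomputable def en249 : Ent := ⟨[nat_lit 7, nat_lit 10, nat_lit 5, nat_lit 12, nat_lit 12],
  fun K p w => ⟨fun m x s1 s2 s3 s4 za ac => (K (Nat.shiftRight (Nat.shiftRight (Nat.shiftRight p (nat_lit 6)) (nat_lit 28)) (nat_lit 28)) (Nat.add (Nat.add (Nat.add w (Nat.shiftLeft (Nat.land p (nat_lit 63)) (nat_lit 64))) (plA (Nat.shiftRight p (nat_lit 6)))) (plA (Nat.shiftRight (Nat.shiftRight p (nat_lit 6)) (nat_lit 28))))).1 m (Nat.shiftRight m (Nat.land (Nat.shiftRight m (Nat.land (Nat.shiftRight x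
  (nat_lit 34)) (nat_lit 0x1ffff))) (nat_lit 0x1ffff))) s1 s2 s3 s4 za (Nat.add (Nat.add (Nat.add ac (Nat.land (Nat.shiftRight m (Nat.land (Nat.shiftRight x (nat_lit 34)) (nat_lit 0x1ffff))) (Nat.shiftLeft (Nat.land p (nat_lit 63)) (nat_lit 64)))) (Nat.land (Nat.shiftRight m (Nat.land (Nat.shiftRight m (Nat.land (Nat.shiftRight x (nat_lit 34)) (nat_lit 0x1ffff))) (nat_lit 0x1ffff))) (plA (Nat.shiftRight p (nat_lit 6))))) (Nat.land (Nat.shiftRight m (Nat.land (Nat.shiftRight m (Nat.land (Nat.shiftRight x (nat_lit 34)) (nat_lit 0x1ffff))) (nat_lit 0x1ffff))) (plA (Nat.shiftRight (Nat.shiftRight p (nat_lit 6)) (nat_lit 28)))))⟩,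
  fun K p w => ⟨fun m x s1 s2 s3 s4 za ac => (K (Nat.shiftRight (Nat.shiftRight (Nat.shiftRight p (nat_lit 6)) (nat_lit 28)) (nat_lit 28)) (Nat.succ (Nat.succ (Nat.add w (Nat.shiftLeft (Nat.land p (nat_lit 63)) (nat_lit 64)))))).1 m (Nat.shiftRight m (Nat.land (Nat.shiftRight (Nat.shiftRight m (Nat.land (Nat.shiftRight x (nat_lit 34)) (nat_lit 0x1ffff))) (nat_lit 17)) (nat_lit 0x1ffff))) s1 s2 s3 s4 za (Nat.add ac (Nat.land (Nat.shiftRight m (Nat.land (Nat.shiftRight x (nat_lit 34)) (nat_lit 0x1ffff))) (Nat.shiftLeft (Nat.land p (nat_lit 63)) (nat_lit 64))))⟩,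
  rfl, rfl⟩
noncomputable def en250 : Ent := ⟨[nat_lit 8, nat_lit 3, nat_lit 11, nat_lit 9, nat_lit 1, nat_lit 8, nat_lit 0],
  fun K p w => ⟨fun m x s1 s2 s3 s4 za ac => (K (Nat.shiftRight p (nat_lit 16)) (Nat.add w (Nat.shiftLeft (Nat.land p (nat_lit 65535)) (nat_lit 70)))).1 m (Nat.shiftRight m (Nat.land (Nat.shiftRight (Nat.shiftRight m (nat_lit 34)) (Nat.land (Nat.shiftRight m (Nat.land (Nat.shiftRight (Nat.shiftRight m (nat_lit 34)) (Nat.land (Nat.shiftRight x (nat_lit 17)) (nat_lit 0x1ffff))) (nat_lit 0x1ffff))) (nat_lit 0x1ffff)))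
  (nat_lit 0x1ffff))) (Nat.shiftRight m (Nat.land (Nat.shiftRight (Nat.shiftRight m (nat_lit 34)) (Nat.land (Nat.shiftRight x (nat_lit 17)) (nat_lit 0x1ffff))) (nat_lit 0x1ffff))) s1 s2 s3 (Nat.land (Nat.land za (Nat.shiftRight m (Nat.land (Nat.shiftRight (Nat.shiftRight m (nat_lit 34)) (Nat.land (Nat.shiftRight x (nat_lit 17)) (nat_lit 0x1ffff))) (nat_lit 0x1ffff)))) (Nat.shiftRight m (Nat.land (Nat.shiftRight (Nat.shiftRight m (nat_lit 34)) (Nat.land (Nat.shiftRight m (Nat.land (Nat.shiftRight (Nat.shiftRight m (nat_lit 34)) (Nat.land (Nat.shiftRight x (nat_lit 17)) (nat_lit 0x1ffff))) (nat_lit 0x1ffff))) (nat_lit 0x1ffff))) (nat_lit 0x1ffff)))) (Nat.add ac (Nat.land (Nat.shiftRight m (Nat.land x (nat_lit 0x1ffff))) (Nat.shiftLeft (Nat.land p (nat_lit 65535)) (nat_lit 70))))⟩,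
  fun K p w => ⟨fun m x s1 s2 s3 s4 za ac => (K (Nat.shiftRight p (nat_lit 16)) (Nat.add w (Nat.shiftLeft (Nat.land p (nat_lit 65535)) (nat_lit 70)))).1 m (Nat.shiftRight m (Nat.land (Nat.shiftRight (Nat.shiftRight m (nat_lit 34)) (Nat.land (Nat.shiftRight (Nat.shiftRight m (Nat.land (Nat.shiftRight (Nat.shiftRight m (nat_lit 34)) (Nat.land x (nat_lit 0x1ffff))) (nat_lit 0x1ffff))) (nat_lit 17)) (nat_lit 0x1ffff)))
  (nat_lit 0x1ffff))) (Nat.shiftRight m (Nat.land (Nat.shiftRight (Nat.shiftRight m (nat_lit 34)) (Nat.land x (nat_lit 0x1ffff))) (nat_lit 0x1ffff))) s1 s2 s3 (Nat.land (Nat.land za (Nat.shiftRight m (Nat.land (Nat.shiftRight (Nat.shiftRight m (nat_lit 34)) (Nat.land x (nat_lit 0x1ffff))) (nat_lit 0x1ffff)))) (Nat.shiftRight m (Nat.land (Nat.shiftRight (Nat.shiftRight m (nat_lit 34)) (Nat.land (Nat.shiftRight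
  (Nat.shiftRight m (Nat.land (Nat.shiftRight (Nat.shiftRight m (nat_lit 34)) (Nat.land x (nat_lit 0x1ffff))) (nat_lit 0x1ffff))) (nat_lit 17)) (nat_lit 0x1ffff))) (nat_lit 0x1ffff)))) (Nat.add ac (Nat.land (Nat.shiftRight m (Nat.land (Nat.shiftRight m (Nat.land (Nat.shiftRight x (nat_lit 17)) (nat_lit 0x1ffff))) (nat_lit 0x1ffff))) (Nat.shiftLeft (Nat.land p (nat_lit 65535)) (nat_lit 70))))⟩,
  rfl, rfl⟩
noncomputable def en251 : Ent := ⟨[nat_lit 9, nat_lit 0],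
  fun K p w => ⟨fun m x s1 s2 s3 s4 za ac => (K p w).1 m (Nat.shiftRight m (Nat.land (Nat.shiftRight (Nat.shiftRight m (nat_lit 34)) (Nat.land s1 (nat_lit 0x1ffff))) (nat_lit 0x1ffff))) s2 s3 s4 s4 (Nat.land za (Nat.shiftRight m (Nat.land (Nat.shiftRight (Nat.shiftRight m (nat_lit 34)) (Nat.land s1 (nat_lit 0x1ffff))) (nat_lit 0x1ffff)))) ac⟩,
  fun K p w => ⟨fun m x s1 s2 s3 s4 za ac => (K p w).1 m (Nat.shiftRight m (Nat.land (Nat.shiftRight (Nat.shiftRight m (nat_lit 34)) (Nat.land (Nat.shiftRight s1 (nat_lit 17)) (nat_lit 0x1ffff))) (nat_lit 0x1ffff))) s2 s3 s4 s4 (Nat.land za (Nat.shiftRight m (Nat.land (Nat.shiftRight (Nat.shiftRight m (nat_lit 34)) (Nat.land (Nat.shiftRight s1 (nat_lit 17)) (nat_lit 0x1ffff))) (nat_lit 0x1ffff)))) ac⟩,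
  rfl, rfl⟩
noncomputable def en252 : Ent := ⟨[nat_lit 4, nat_lit 11, nat_lit 7, nat_lit 10, nat_lit 5],
  fun K p w => ⟨fun m x s1 s2 s3 s4 za ac => (K (Nat.shiftRight (Nat.shiftRight p (nat_lit 16)) (nat_lit 6)) (Nat.add (Nat.add w (Nat.shiftLeft (Nat.land p (nat_lit 65535)) (nat_lit 70))) (Nat.shiftLeft (Nat.land (Nat.shiftRight p (nat_lit 16)) (nat_lit 63)) (nat_lit 64)))).1 m (Nat.shiftRight m (Nat.land (Nat.shiftRight m (Nat.land (Nat.shiftRight (Nat.shiftRight m (Nat.land (Nat.shiftRight x (nat_lit 17))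
  (nat_lit 0x1ffff))) (nat_lit 34)) (nat_lit 0x1ffff))) (nat_lit 0x1ffff))) s1 s2 s3 s4 za (Nat.add (Nat.add ac (Nat.land (Nat.shiftRight m (Nat.land (Nat.shiftRight x (nat_lit 17)) (nat_lit 0x1ffff))) (Nat.shiftLeft (Nat.land p (nat_lit 65535)) (nat_lit 70)))) (Nat.land (Nat.shiftRight m (Nat.land (Nat.shiftRight (Nat.shiftRight m (Nat.land (Nat.shiftRight x (nat_lit 17)) (nat_lit 0x1ffff))) (nat_lit 34)) (nat_lit 0x1ffff))) (Nat.shiftLeft (Nat.land (Nat.shiftRight p (nat_lit 16)) (nat_lit 63)) (nat_lit 64))))⟩,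
  fun K p w => ⟨fun m x s1 s2 s3 s4 za ac => (K (Nat.shiftRight (Nat.shiftRight p (nat_lit 16)) (nat_lit 6)) (Nat.add (Nat.add w (Nat.shiftLeft (Nat.land p (nat_lit 65535)) (nat_lit 70))) (Nat.shiftLeft (Nat.land (Nat.shiftRight p (nat_lit 16)) (nat_lit 63)) (nat_lit 64)))).1 m (Nat.shiftRight m (Nat.land (Nat.shiftRight (Nat.shiftRight m (Nat.land (Nat.shiftRight (Nat.shiftRight m (Nat.land x (nat_lit 0x1ffff)))
  (nat_lit 34)) (nat_lit 0x1ffff))) (nat_lit 17)) (nat_lit 0x1ffff))) s1 s2 s3 s4 za (Nat.add (Nat.add ac (Nat.land (Nat.shiftRight m (Nat.land (Nat.shiftRight m (Nat.land x (nat_lit 0x1ffff))) (nat_lit 0x1ffff))) (Nat.shiftLeft (Nat.land p (nat_lit 65535)) (nat_lit 70)))) (Nat.land (Nat.shiftRight m (Nat.land (Nat.shiftRight (Nat.shiftRight m (Nat.land x (nat_lit 0x1ffff))) (nat_lit 34)) (nat_lit 0x1ffff))) (Nat.shiftLeft (Nat.land (Nat.shiftRight p (nat_lit 16)) (nat_lit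 63)) (nat_lit 64))))⟩,
  rfl, rfl⟩
noncomputable def en253 : Ent := ⟨[nat_lit 4, nat_lit 11, nat_lit 2, nat_lit 1],
  fun K p w => ⟨fun m x s1 s2 s3 s4 za ac => (K (Nat.shiftRight p (nat_lit 16)) (Nat.add w (Nat.shiftLeft (Nat.land p (nat_lit 65535)) (nat_lit 70)))).1 m (Nat.shiftRight m (Nat.land (Nat.shiftRight (Nat.shiftRight m (nat_lit 34)) (Nat.land (Nat.shiftRight (Nat.shiftRight m (Nat.land (Nat.shiftRight (Nat.shiftRight m (Nat.land (Nat.shiftRight x (nat_lit 17)) (nat_lit 0x1ffff))) (nat_lit 34)) (nat_lit 0x1ffff)))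
  (nat_lit 17)) (nat_lit 0x1ffff))) (nat_lit 0x1ffff))) s1 s2 s3 s4 (Nat.land (Nat.land za (Nat.shiftRight m (Nat.land (Nat.shiftRight (Nat.shiftRight m (Nat.land (Nat.shiftRight x (nat_lit 17)) (nat_lit 0x1ffff))) (nat_lit 34)) (nat_lit 0x1ffff)))) (Nat.shiftRight m (Nat.land (Nat.shiftRight (Nat.shiftRight m (nat_lit 34)) (Nat.land (Nat.shiftRight (Nat.shiftRight m (Nat.land (Nat.shiftRight (Nat.shiftRight m (Nat.land (Nat.shiftRight x (nat_lit 17)) (nat_lit 0x1ffff))) (nat_lit 34)) (nat_lit 0x1ffff))) (nat_lit 17)) (nat_lit 0x1ffff))) (nat_lit 0x1ffff)))) (Nat.add ac (Nat.land (Nat.shiftRight m (Nat.land (Nat.shiftRight x (nat_lit 17)) (nat_lit 0x1ffff))) (Nat.shiftLeft (Nat.land p (nat_lit 65535)) (nat_lit 70))))⟩,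
  fun K p w => ⟨fun m x s1 s2 s3 s4 za ac => (K (Nat.shiftRight p (nat_lit 16)) (Nat.add w (Nat.shiftLeft (Nat.land p (nat_lit 65535)) (nat_lit 70)))).1 m (Nat.shiftRight m (Nat.land (Nat.shiftRight (Nat.shiftRight m (nat_lit 34)) (Nat.land (Nat.shiftRight m (Nat.land (Nat.shiftRight (Nat.shiftRight m (Nat.land x (nat_lit 0x1ffff))) (nat_lit 34)) (nat_lit 0x1ffff))) (nat_lit 0x1ffff))) (nat_lit 0x1ffff))) s1 s2 s3 s4
  (Nat.land (Nat.land za (Nat.shiftRight m (Nat.land (Nat.shiftRight (Nat.shiftRight m (Nat.land x (nat_lit 0x1ffff))) (nat_lit 34)) (nat_lit 0x1ffff)))) (Nat.shiftRight m (Nat.land (Nat.shiftRight (Nat.shiftRight m (nat_lit 34)) (Nat.land (Nat.shiftRight m (Nat.land (Nat.shiftRight (Nat.shiftRight m (Nat.land x (nat_lit 0x1ffff))) (nat_lit 34)) (nat_lit 0x1ffff))) (nat_lit 0x1ffff))) (nat_lit 0x1ffff)))) (Nat.add ac (Nat.land (Nat.shiftRight m (Nat.land (Nat.shiftRight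 m (Nat.land x (nat_lit 0x1ffff))) (nat_lit 0x1ffff))) (Nat.shiftLeft (Nat.land p (nat_lit 65535)) (nat_lit 70))))⟩,
  rfl, rfl⟩
noncomputable def en254 : Ent := ⟨[nat_lit 3, nat_lit 11, nat_lit 13],
  fun K p w => ⟨fun m x s1 s2 s3 s4 za ac => (K (Nat.shiftRight p (nat_lit 16)) (Nat.add (Nat.add w (Nat.shiftLeft (Nat.land p (nat_lit 65535)) (nat_lit 70))) (nat_lit 0x10000000000000000))).1 m (Nat.shiftRight m (Nat.land (Nat.shiftRight (Nat.shiftRight m (Nat.land x (nat_lit 0x1ffff))) (nat_lit 34)) (nat_lit 0x1ffff))) s1 s2 s3 s4 za (Nat.add (Nat.add ac (Nat.land (Nat.shiftRight m (Nat.land x (nat_lit 0x1ffff))) (Nat.shiftLeft (Nat.land p (nat_lit 65535)) (nat_lit 70)))) (Nat.land (Nat.shiftRight m (Nat.land (Nat.shiftRight (Nat.shiftRight m (Nat.land x (nat_lit 0x1ffff))) (nat_lit 34)) (nat_lit 0x1ffff))) (nat_lit 0x10000000000000000)))⟩,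
  fun K p w => ⟨fun m x s1 s2 s3 s4 za ac => (K (Nat.shiftRight p (nat_lit 16)) (Nat.add (Nat.add w (Nat.shiftLeft (Nat.land p (nat_lit 65535)) (nat_lit 70))) (nat_lit 0x10000000000000000))).1 m (Nat.shiftRight m (Nat.land (Nat.shiftRight (Nat.shiftRight m (Nat.land (Nat.shiftRight x (nat_lit 17)) (nat_lit 0x1ffff))) (nat_lit 34)) (nat_lit 0x1ffff))) s1 s2 s3 s4 za (Nat.add (Nat.add ac (Nat.land (Nat.shiftRight m (Nat.land (Nat.shiftRight m (Nat.land (Nat.shiftRight x (nat_lit 17)) (nat_lit 0x1ffff))) (nat_lit 0x1ffff))) (Nat.shiftLeft (Nat.land p (nat_lit 65535)) (nat_lit 70)))) (Nat.land (Nat.shiftRight m (Nat.land (Nat.shiftRight (Nat.shiftRight m (Nat.land (Nat.shiftRight x (nat_lit 17)) (nat_lit 0x1ffff))) (nat_lit 34)) (nat_lit 0x1ffff))) (nat_lit 0x10000000000000000)))⟩,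
  rfl, rfl⟩
noncomputable def ents (j : ℕ) : Ent := (@Bool.rec (fun _ => Ent) (@Bool.rec (fun _ => Ent) (@Bool.rec (fun _ => Ent) (@Bool.rec (fun _ => Ent) (@Bool.rec (fun _ => Ent) (@Bool.rec (fun _ => Ent) (@Bool.rec (fun _ => Ent) (@Bool.rec (fun _ => Ent) en254 en253 (Nat.ble j (nat_lit 253))) (@Bool.rec (fun _ => Ent) en252 en251 (Nat.ble j (nat_lit 251))) (Nat.ble j (nat_lit 252))) (@Bool.rec (fun _ => Ent)
  (@Bool.rec (fun _ => Ent) en250 en249 (Nat.ble j (nat_lit 249))) (@Bool.rec (fun _ => Ent) en248 en247 (Nat.ble j (nat_lit 247))) (Nat.ble j (nat_lit 248))) (Nat.ble j (nat_lit 250))) (@Bool.rec (fun _ => Ent) (@Bool.rec (fun _ => Ent) (@Bool.rec (fun _ => Ent) en246 en245 (Nat.ble j (nat_lit 245))) (@Bool.rec (fun _ => Ent) en244 en243 (Nat.ble j (nat_lit 243))) (Nat.ble j (nat_lit 244))) (@Bool.rec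
  (fun _ => Ent) (@Bool.rec (fun _ => Ent) en242 en241 (Nat.ble j (nat_lit 241))) (@Bool.rec (fun _ => Ent) en240 en239 (Nat.ble j (nat_lit 239))) (Nat.ble j (nat_lit 240))) (Nat.ble j (nat_lit 242))) (Nat.ble j (nat_lit 246))) (@Bool.rec (fun _ => Ent) (@Bool.rec (fun _ => Ent) (@Bool.rec (fun _ => Ent) (@Bool.rec (fun _ => Ent) en238 en237 (Nat.ble j (nat_lit 237))) (@Bool.rec (fun _ => Ent) en236 en235
  (Nat.ble j (nat_lit 235))) (Nat.ble j (nat_lit 236))) (@Bool.rec (fun _ => Ent) (@Bool.rec (fun _ => Ent) en234 en233 (Nat.ble j (nat_lit 233))) (@Bool.rec (fun _ => Ent) en232 en231 (Nat.ble j (nat_lit 231))) (Nat.ble j (nat_lit 232))) (Nat.ble j (nat_lit 234))) (@Bool.rec (fun _ => Ent) (@Bool.rec (fun _ => Ent) (@Bool.rec (fun _ => Ent) en230 en229 (Nat.ble j (nat_lit 229))) (@Bool.rec (fun _ => Ent) en228 en227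
  (Nat.ble j (nat_lit 227))) (Nat.ble j (nat_lit 228))) (@Bool.rec (fun _ => Ent) (@Bool.rec (fun _ => Ent) en226 en225 (Nat.ble j (nat_lit 225))) (@Bool.rec (fun _ => Ent) en224 en223 (Nat.ble j (nat_lit 223))) (Nat.ble j (nat_lit 224))) (Nat.ble j (nat_lit 226))) (Nat.ble j (nat_lit 230))) (Nat.ble j (nat_lit 238))) (@Bool.rec (fun _ => Ent) (@Bool.rec (fun _ => Ent) (@Bool.rec (fun _ => Ent) (@Bool.rec
  (fun _ => Ent) (@Bool.rec (fun _ => Ent) en222 en221 (Nat.ble j (nat_lit 221))) (@Bool.rec (fun _ => Ent) en220 en219 (Nat.ble j (nat_lit 219))) (Nat.ble j (nat_lit 220))) (@Bool.rec (fun _ => Ent) (@Bool.rec (fun _ => Ent) en218 en217 (Nat.ble j (nat_lit 217))) (@Bool.rec (fun _ => Ent) en216 en215 (Nat.ble j (nat_lit 215))) (Nat.ble j (nat_lit 216))) (Nat.ble j (nat_lit 218))) (@Bool.rec (fun _ => Ent)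
  (@Bool.rec (fun _ => Ent) (@Bool.rec (fun _ => Ent) en214 en213 (Nat.ble j (nat_lit 213))) (@Bool.rec (fun _ => Ent) en212 en211 (Nat.ble j (nat_lit 211))) (Nat.ble j (nat_lit 212))) (@Bool.rec (fun _ => Ent) (@Bool.rec (fun _ => Ent) en210 en209 (Nat.ble j (nat_lit 209))) (@Bool.rec (fun _ => Ent) en208 en207 (Nat.ble j (nat_lit 207))) (Nat.ble j (nat_lit 208))) (Nat.ble j (nat_lit 210))) (Nat.ble j
  (nat_lit 214))) (@Bool.rec (fun _ => Ent) (@Bool.rec (fun _ => Ent) (@Bool.rec (fun _ => Ent) (@Bool.rec (fun _ => Ent) en206 en205 (Nat.ble j (nat_lit 205))) (@Bool.rec (fun _ => Ent) en204 en203 (Nat.ble j (nat_lit 203))) (Nat.ble j (nat_lit 204))) (@Bool.rec (fun _ => Ent) (@Bool.rec (fun _ => Ent) en202 en201 (Nat.ble j (nat_lit 201))) (@Bool.rec (fun _ => Ent) en200 en199 (Nat.ble j (nat_lit 199)))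
  (Nat.ble j (nat_lit 200))) (Nat.ble j (nat_lit 202))) (@Bool.rec (fun _ => Ent) (@Bool.rec (fun _ => Ent) (@Bool.rec (fun _ => Ent) en198 en197 (Nat.ble j (nat_lit 197))) (@Bool.rec (fun _ => Ent) en196 en195 (Nat.ble j (nat_lit 195))) (Nat.ble j (nat_lit 196))) (@Bool.rec (fun _ => Ent) (@Bool.rec (fun _ => Ent) en194 en193 (Nat.ble j (nat_lit 193))) (@Bool.rec (fun _ => Ent) en192 en191 (Nat.ble j
  (nat_lit 191))) (Nat.ble j (nat_lit 192))) (Nat.ble j (nat_lit 194))) (Nat.ble j (nat_lit 198))) (Nat.ble j (nat_lit 206))) (Nat.ble j (nat_lit 222))) (@Bool.rec (fun _ => Ent) (@Bool.rec (fun _ => Ent) (@Bool.rec (fun _ => Ent) (@Bool.rec (fun _ => Ent) (@Bool.rec (fun _ => Ent) (@Bool.rec (fun _ => Ent) en190 en189 (Nat.ble j (nat_lit 189))) (@Bool.rec (fun _ => Ent) en188 en187 (Nat.ble j (nat_lit 187)))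
  (Nat.ble j (nat_lit 188))) (@Bool.rec (fun _ => Ent) (@Bool.rec (fun _ => Ent) en186 en185 (Nat.ble j (nat_lit 185))) (@Bool.rec (fun _ => Ent) en184 en183 (Nat.ble j (nat_lit 183))) (Nat.ble j (nat_lit 184))) (Nat.ble j (nat_lit 186))) (@Bool.rec (fun _ => Ent) (@Bool.rec (fun _ => Ent) (@Bool.rec (fun _ => Ent) en182 en181 (Nat.ble j (nat_lit 181))) (@Bool.rec (fun _ => Ent) en180 en179 (Nat.ble j
  (nat_lit 179))) (Nat.ble j (nat_lit 180))) (@Bool.rec (fun _ => Ent) (@Bool.rec (fun _ => Ent) en178 en177 (Nat.ble j (nat_lit 177))) (@Bool.rec (fun _ => Ent) en176 en175 (Nat.ble j (nat_lit 175))) (Nat.ble j (nat_lit 176))) (Nat.ble j (nat_lit 178))) (Nat.ble j (nat_lit 182))) (@Bool.rec (fun _ => Ent) (@Bool.rec (fun _ => Ent) (@Bool.rec (fun _ => Ent) (@Bool.rec (fun _ => Ent) en174 en173 (Nat.ble j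
  (nat_lit 173))) (@Bool.rec (fun _ => Ent) en172 en171 (Nat.ble j (nat_lit 171))) (Nat.ble j (nat_lit 172))) (@Bool.rec (fun _ => Ent) (@Bool.rec (fun _ => Ent) en170 en169 (Nat.ble j (nat_lit 169))) (@Bool.rec (fun _ => Ent) en168 en167 (Nat.ble j (nat_lit 167))) (Nat.ble j (nat_lit 168))) (Nat.ble j (nat_lit 170))) (@Bool.rec (fun _ => Ent) (@Bool.rec (fun _ => Ent) (@Bool.rec (fun _ => Ent) en166 en165
  (Nat.ble j (nat_lit 165))) (@Bool.rec (fun _ => Ent) en164 en163 (Nat.ble j (nat_lit 163))) (Nat.ble j (nat_lit 164))) (@Bool.rec (fun _ => Ent) (@Bool.rec (fun _ => Ent) en162 en161 (Nat.ble j (nat_lit 161))) (@Bool.rec (fun _ => Ent) en160 en159 (Nat.ble j (nat_lit 159))) (Nat.ble j (nat_lit 160))) (Nat.ble j (nat_lit 162))) (Nat.ble j (nat_lit 166))) (Nat.ble j (nat_lit 174))) (@Bool.rec (fun _ => Ent)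
  (@Bool.rec (fun _ => Ent) (@Bool.rec (fun _ => Ent) (@Bool.rec (fun _ => Ent) (@Bool.rec (fun _ => Ent) en158 en157 (Nat.ble j (nat_lit 157))) (@Bool.rec (fun _ => Ent) en156 en155 (Nat.ble j (nat_lit 155))) (Nat.ble j (nat_lit 156))) (@Bool.rec (fun _ => Ent) (@Bool.rec (fun _ => Ent) en154 en153 (Nat.ble j (nat_lit 153))) (@Bool.rec (fun _ => Ent) en152 en151 (Nat.ble j (nat_lit 151))) (Nat.ble j
  (nat_lit 152))) (Nat.ble j (nat_lit 154))) (@Bool.rec (fun _ => Ent) (@Bool.rec (fun _ => Ent) (@Bool.rec (fun _ => Ent) en150 en149 (Nat.ble j (nat_lit 149))) (@Bool.rec (fun _ => Ent) en148 en147 (Nat.ble j (nat_lit 147))) (Nat.ble j (nat_lit 148))) (@Bool.rec (fun _ => Ent) (@Bool.rec (fun _ => Ent) en146 en145 (Nat.ble j (nat_lit 145))) (@Bool.rec (fun _ => Ent) en144 en143 (Nat.ble j (nat_lit 143)))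
  (Nat.ble j (nat_lit 144))) (Nat.ble j (nat_lit 146))) (Nat.ble j (nat_lit 150))) (@Bool.rec (fun _ => Ent) (@Bool.rec (fun _ => Ent) (@Bool.rec (fun _ => Ent) (@Bool.rec (fun _ => Ent) en142 en141 (Nat.ble j (nat_lit 141))) (@Bool.rec (fun _ => Ent) en140 en139 (Nat.ble j (nat_lit 139))) (Nat.ble j (nat_lit 140))) (@Bool.rec (fun _ => Ent) (@Bool.rec (fun _ => Ent) en138 en137 (Nat.ble j (nat_lit 137)))
  (@Bool.rec (fun _ => Ent) en136 en135 (Nat.ble j (nat_lit 135))) (Nat.ble j (nat_lit 136))) (Nat.ble j (nat_lit 138))) (@Bool.rec (fun _ => Ent) (@Bool.rec (fun _ => Ent) (@Bool.rec (fun _ => Ent) en134 en133 (Nat.ble j (nat_lit 133))) (@Bool.rec (fun _ => Ent) en132 en131 (Nat.ble j (nat_lit 131))) (Nat.ble j (nat_lit 132))) (@Bool.rec (fun _ => Ent) (@Bool.rec (fun _ => Ent) en130 en129 (Nat.ble j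
  (nat_lit 129))) (@Bool.rec (fun _ => Ent) en128 en127 (Nat.ble j (nat_lit 127))) (Nat.ble j (nat_lit 128))) (Nat.ble j (nat_lit 130))) (Nat.ble j (nat_lit 134))) (Nat.ble j (nat_lit 142))) (Nat.ble j (nat_lit 158))) (Nat.ble j (nat_lit 190))) (@Bool.rec (fun _ => Ent) (@Bool.rec (fun _ => Ent) (@Bool.rec (fun _ => Ent) (@Bool.rec (fun _ => Ent) (@Bool.rec (fun _ => Ent) (@Bool.rec (fun _ => Ent)
  (@Bool.rec (fun _ => Ent) en126 en125 (Nat.ble j (nat_lit 125))) (@Bool.rec (fun _ => Ent) en124 en123 (Nat.ble j (nat_lit 123))) (Nat.ble j (nat_lit 124))) (@Bool.rec (fun _ => Ent) (@Bool.rec (fun _ => Ent) en122 en121 (Nat.ble j (nat_lit 121))) (@Bool.rec (fun _ => Ent) en120 en119 (Nat.ble j (nat_lit 119))) (Nat.ble j (nat_lit 120))) (Nat.ble j (nat_lit 122))) (@Bool.rec (fun _ => Ent) (@Bool.rec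
  (fun _ => Ent) (@Bool.rec (fun _ => Ent) en118 en117 (Nat.ble j (nat_lit 117))) (@Bool.rec (fun _ => Ent) en116 en115 (Nat.ble j (nat_lit 115))) (Nat.ble j (nat_lit 116))) (@Bool.rec (fun _ => Ent) (@Bool.rec (fun _ => Ent) en114 en113 (Nat.ble j (nat_lit 113))) (@Bool.rec (fun _ => Ent) en112 en111 (Nat.ble j (nat_lit 111))) (Nat.ble j (nat_lit 112))) (Nat.ble j (nat_lit 114))) (Nat.ble j (nat_lit 118)))
  (@Bool.rec (fun _ => Ent) (@Bool.rec (fun _ => Ent) (@Bool.rec (fun _ => Ent) (@Bool.rec (fun _ => Ent) en110 en109 (Nat.ble j (nat_lit 109))) (@Bool.rec (fun _ => Ent) en108 en107 (Nat.ble j (nat_lit 107))) (Nat.ble j (nat_lit 108))) (@Bool.rec (fun _ => Ent) (@Bool.rec (fun _ => Ent) en106 en105 (Nat.ble j (nat_lit 105))) (@Bool.rec (fun _ => Ent) en104 en103 (Nat.ble j (nat_lit 103))) (Nat.ble j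
  (nat_lit 104))) (Nat.ble j (nat_lit 106))) (@Bool.rec (fun _ => Ent) (@Bool.rec (fun _ => Ent) (@Bool.rec (fun _ => Ent) en102 en101 (Nat.ble j (nat_lit 101))) (@Bool.rec (fun _ => Ent) en100 en99 (Nat.ble j (nat_lit 99))) (Nat.ble j (nat_lit 100))) (@Bool.rec (fun _ => Ent) (@Bool.rec (fun _ => Ent) en98 en97 (Nat.ble j (nat_lit 97))) (@Bool.rec (fun _ => Ent) en96 en95 (Nat.ble j (nat_lit 95)))
  (Nat.ble j (nat_lit 96))) (Nat.ble j (nat_lit 98))) (Nat.ble j (nat_lit 102))) (Nat.ble j (nat_lit 110))) (@Bool.rec (fun _ => Ent) (@Bool.rec (fun _ => Ent) (@Bool.rec (fun _ => Ent) (@Bool.rec (fun _ => Ent) (@Bool.rec (fun _ => Ent) en94 en93 (Nat.ble j (nat_lit 93))) (@Bool.rec (fun _ => Ent) en92 en91 (Nat.ble j (nat_lit 91))) (Nat.ble j (nat_lit 92))) (@Bool.rec (fun _ => Ent) (@Bool.rec (fun _ => Ent) en90 en89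
  (Nat.ble j (nat_lit 89))) (@Bool.rec (fun _ => Ent) en88 en87 (Nat.ble j (nat_lit 87))) (Nat.ble j (nat_lit 88))) (Nat.ble j (nat_lit 90))) (@Bool.rec (fun _ => Ent) (@Bool.rec (fun _ => Ent) (@Bool.rec (fun _ => Ent) en86 en85 (Nat.ble j (nat_lit 85))) (@Bool.rec (fun _ => Ent) en84 en83 (Nat.ble j (nat_lit 83))) (Nat.ble j (nat_lit 84))) (@Bool.rec (fun _ => Ent) (@Bool.rec (fun _ => Ent) en82 en81
  (Nat.ble j (nat_lit 81))) (@Bool.rec (fun _ => Ent) en80 en79 (Nat.ble j (nat_lit 79))) (Nat.ble j (nat_lit 80))) (Nat.ble j (nat_lit 82))) (Nat.ble j (nat_lit 86))) (@Bool.rec (fun _ => Ent) (@Bool.rec (fun _ => Ent) (@Bool.rec (fun _ => Ent) (@Bool.rec (fun _ => Ent) en78 en77 (Nat.ble j (nat_lit 77))) (@Bool.rec (fun _ => Ent) en76 en75 (Nat.ble j (nat_lit 75))) (Nat.ble j (nat_lit 76))) (@Bool.rec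
  (fun _ => Ent) (@Bool.rec (fun _ => Ent) en74 en73 (Nat.ble j (nat_lit 73))) (@Bool.rec (fun _ => Ent) en72 en71 (Nat.ble j (nat_lit 71))) (Nat.ble j (nat_lit 72))) (Nat.ble j (nat_lit 74))) (@Bool.rec (fun _ => Ent) (@Bool.rec (fun _ => Ent) (@Bool.rec (fun _ => Ent) en70 en69 (Nat.ble j (nat_lit 69))) (@Bool.rec (fun _ => Ent) en68 en67 (Nat.ble j (nat_lit 67))) (Nat.ble j (nat_lit 68))) (@Bool.rec
  (fun _ => Ent) (@Bool.rec (fun _ => Ent) en66 en65 (Nat.ble j (nat_lit 65))) (@Bool.rec (fun _ => Ent) en64 en63 (Nat.ble j (nat_lit 63))) (Nat.ble j (nat_lit 64))) (Nat.ble j (nat_lit 66))) (Nat.ble j (nat_lit 70))) (Nat.ble j (nat_lit 78))) (Nat.ble j (nat_lit 94))) (@Bool.rec (fun _ => Ent) (@Bool.rec (fun _ => Ent) (@Bool.rec (fun _ => Ent) (@Bool.rec (fun _ => Ent) (@Bool.rec (fun _ => Ent)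
  (@Bool.rec (fun _ => Ent) en62 en61 (Nat.ble j (nat_lit 61))) (@Bool.rec (fun _ => Ent) en60 en59 (Nat.ble j (nat_lit 59))) (Nat.ble j (nat_lit 60))) (@Bool.rec (fun _ => Ent) (@Bool.rec (fun _ => Ent) en58 en57 (Nat.ble j (nat_lit 57))) (@Bool.rec (fun _ => Ent) en56 en55 (Nat.ble j (nat_lit 55))) (Nat.ble j (nat_lit 56))) (Nat.ble j (nat_lit 58))) (@Bool.rec (fun _ => Ent) (@Bool.rec (fun _ => Ent)
  (@Bool.rec (fun _ => Ent) en54 en53 (Nat.ble j (nat_lit 53))) (@Bool.rec (fun _ => Ent) en52 en51 (Nat.ble j (nat_lit 51))) (Nat.ble j (nat_lit 52))) (@Bool.rec (fun _ => Ent) (@Bool.rec (fun _ => Ent) en50 en49 (Nat.ble j (nat_lit 49))) (@Bool.rec (fun _ => Ent) en48 en47 (Nat.ble j (nat_lit 47))) (Nat.ble j (nat_lit 48))) (Nat.ble j (nat_lit 50))) (Nat.ble j (nat_lit 54))) (@Bool.rec (fun _ => Ent)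
  (@Bool.rec (fun _ => Ent) (@Bool.rec (fun _ => Ent) (@Bool.rec (fun _ => Ent) en46 en45 (Nat.ble j (nat_lit 45))) (@Bool.rec (fun _ => Ent) en44 en43 (Nat.ble j (nat_lit 43))) (Nat.ble j (nat_lit 44))) (@Bool.rec (fun _ => Ent) (@Bool.rec (fun _ => Ent) en42 en41 (Nat.ble j (nat_lit 41))) (@Bool.rec (fun _ => Ent) en40 en39 (Nat.ble j (nat_lit 39))) (Nat.ble j (nat_lit 40))) (Nat.ble j (nat_lit 42)))
  (@Bool.rec (fun _ => Ent) (@Bool.rec (fun _ => Ent) (@Bool.rec (fun _ => Ent) en38 en37 (Nat.ble j (nat_lit 37))) (@Bool.rec (fun _ => Ent) en36 en35 (Nat.ble j (nat_lit 35))) (Nat.ble j (nat_lit 36))) (@Bool.rec (fun _ => Ent) (@Bool.rec (fun _ => Ent) en34 en33 (Nat.ble j (nat_lit 33))) (@Bool.rec (fun _ => Ent) en32 en31 (Nat.ble j (nat_lit 31))) (Nat.ble j (nat_lit 32))) (Nat.ble j (nat_lit 34)))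
  (Nat.ble j (nat_lit 38))) (Nat.ble j (nat_lit 46))) (@Bool.rec (fun _ => Ent) (@Bool.rec (fun _ => Ent) (@Bool.rec (fun _ => Ent) (@Bool.rec (fun _ => Ent) (@Bool.rec (fun _ => Ent) en30 en29 (Nat.ble j (nat_lit 29))) (@Bool.rec (fun _ => Ent) en28 en27 (Nat.ble j (nat_lit 27))) (Nat.ble j (nat_lit 28))) (@Bool.rec (fun _ => Ent) (@Bool.rec (fun _ => Ent) en26 en25 (Nat.ble j (nat_lit 25))) (@Bool.rec
  (fun _ => Ent) en24 en23 (Nat.ble j (nat_lit 23))) (Nat.ble j (nat_lit 24))) (Nat.ble j (nat_lit 26))) (@Bool.rec (fun _ => Ent) (@Bool.rec (fun _ => Ent) (@Bool.rec (fun _ => Ent) en22 en21 (Nat.ble j (nat_lit 21))) (@Bool.rec (fun _ => Ent) en20 en19 (Nat.ble j (nat_lit 19))) (Nat.ble j (nat_lit 20))) (@Bool.rec (fun _ => Ent) (@Bool.rec (fun _ => Ent) en18 en17 (Nat.ble j (nat_lit 17))) (@Bool.rec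
  (fun _ => Ent) en16 en15 (Nat.ble j (nat_lit 15))) (Nat.ble j (nat_lit 16))) (Nat.ble j (nat_lit 18))) (Nat.ble j (nat_lit 22))) (@Bool.rec (fun _ => Ent) (@Bool.rec (fun _ => Ent) (@Bool.rec (fun _ => Ent) (@Bool.rec (fun _ => Ent) en14 en13 (Nat.ble j (nat_lit 13))) (@Bool.rec (fun _ => Ent) en12 en11 (Nat.ble j (nat_lit 11))) (Nat.ble j (nat_lit 12))) (@Bool.rec (fun _ => Ent) (@Bool.rec (fun _ => Ent) en10 en9
  (Nat.ble j (nat_lit 9))) (@Bool.rec (fun _ => Ent) en8 en7 (Nat.ble j (nat_lit 7))) (Nat.ble j (nat_lit 8))) (Nat.ble j (nat_lit 10))) (@Bool.rec (fun _ => Ent) (@Bool.rec (fun _ => Ent) (@Bool.rec (fun _ => Ent) en6 en5 (Nat.ble j (nat_lit 5))) (@Bool.rec (fun _ => Ent) en4 en3 (Nat.ble j (nat_lit 3))) (Nat.ble j (nat_lit 4))) (@Bool.rec (fun _ => Ent) (@Bool.rec (fun _ => Ent) en2 en1 (Nat.ble j (nat_lit 1))) en0 (Nat.ble j (nat_lit 0))) (Nat.ble j (nat_lit 2)))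 (Nat.ble j (nat_lit 6))) (Nat.ble j (nat_lit 14))) (Nat.ble j (nat_lit 30))) (Nat.ble j (nat_lit 62))) (Nat.ble j (nat_lit 126)))

end Pool.Agent.Lib.G6.Z
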