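import Pool.Agent.Lib.G6D.ZG
import Pool.Agent.Lib.G6.KEnd

set_option autoImplicit false
set_option maxRecDepth 100000
set_option linter.all false

namespace Pool.Agent.Lib.G6.Z

open Pool.Agent.Lib.G6 Pool.Agent.Lib.G6.K
open Pool.Agent.Lib.MP_bfaad3_co (BT)

theorem rule_ok : RuleOK rule := by
  refine ⟨?_, ?_, ?_, ?_, ?_, ?_, ?_, ?_, ?_, ?_, ?_, ?_⟩ <;> decide +kernel

theorem fp0 : fpM fd.p0 ≤ 9 := by decide +kernel
theorem fp1 : fpM fd.p1 ≤ 9 := by decide +kernel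
theorem fp2 : fpM fd.p2 ≤ 9 := by decide +kernel
theorem fp3 : fpM fd.p3 ≤ 9 := by decide +kernel
theorem amb : amB g = true := by decide +kernel
theorem tab : taB g = true := by decide +kernel

theorem g_ok (h1 : cfgs1.All CfgOK) (h2 : cfgs.All CfgW) : GOK g :=
  gok_mk (cfgs := cfgs) ⟨rule_ok, h1, h2⟩ rfl rfl rfl rfl rfl rfl fp0 fp1 fp2 fp3 amb tab

end Pool.Agent.Lib.G6.Z
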