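import Pool.Agent.Lib.G6.All
import Pool.Agent.Lib.G6D.ZCfgs
import Pool.Agent.Lib.G6D.RFP0
import Pool.Agent.Lib.G6D.RFP1
import Pool.Agent.Lib.G6D.RFP2
import Pool.Agent.Lib.G6D.RFP3
import Pool.Agent.Lib.G6D.RFP4
import Pool.Agent.Lib.G6D.RFP5
import Pool.Agent.Lib.G6D.RFP6

set_option autoImplicit false
set_option maxRecDepth 100000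
set_option linter.all false

namespace Pool.Agent.Lib.G6.Z

open Pool.Agent.Lib.G6 Pool.Agent.Lib.G6.K
open Pool.Agent.Lib.MP_bfaad3_co (BT)

theorem cw_426 : cfgs_426.All CfgW :=
  all_cfgW (by decide +kernel) ⟨⟨⟨⟨B.rf6k123,
   B.rf4k132⟩,
   ⟨B.rf5k270,
   B.rf5k78⟩⟩,
   ⟨⟨B.rf5k146,
   B.rf5k79⟩,
   ⟨B.rf6k84,
   B.rf5k215⟩⟩⟩,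
   ⟨⟨⟨B.rf5k327,
   B.rf5k292⟩,
   ⟨B.rf4k76,
   B.rf3k346⟩⟩,
   ⟨⟨B.rf25k6,
   B.rf6k85⟩,
   ⟨B.rf5k80,
   ⟨B.rf4k82,
   B.rf0k137⟩⟩⟩⟩⟩

theorem cw_443 : cfgs_443.All CfgW :=
  all_cfgW (by decide +kernel) ⟨⟨⟨⟨B.rf1k277,
   B.rf4k232⟩,
   ⟨B.rf4k0,
   B.rf4k109⟩⟩,
   ⟨⟨B.rf4k225,
   B.rf4k1⟩,
   ⟨B.rf6k28,
   ⟨B.rf4k186,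
   B.rf5k216⟩⟩⟩⟩,
   ⟨⟨⟨B.rf5k81,
   B.rf5k147⟩,
   ⟨B.rf0k224,
   B.rf0k59⟩⟩,
   ⟨⟨B.rf5k217,
   B.rf5k34⟩,
   ⟨B.rf5k187,
   ⟨B.rf7k176,
   B.rf4k246⟩⟩⟩⟩⟩

theorem cw_461 : cfgs_461.All CfgW :=
  all_cfgW (by decide +kernel) ⟨⟨⟨⟨B.rf5k148,
   B.rf6k23⟩,
   ⟨B.rf5k35,
   B.rf5k123⟩⟩,
   ⟨⟨B.rf0k226,
   B.rf3k319⟩,
   ⟨B.rf0k179,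
   ⟨B.rf3k182,
   B.rf5k149⟩⟩⟩⟩,
   ⟨⟨⟨B.rf5k188,
   B.rf5k124⟩,
   ⟨B.rf5k36,
   B.rf3k103⟩⟩,
   ⟨⟨B.rf4k110,
   B.rf0k200⟩,
   ⟨B.rf5k189,
   ⟨B.rf4k180,
   B.rf0k283⟩⟩⟩⟩⟩

theorem cw_479 : cfgs_479.All CfgW :=
  all_cfgW (by decide +kernel) ⟨⟨⟨⟨B.rf5k125,
   B.rf0k138⟩,
   ⟨B.rf3k320,
   B.rf5k37⟩⟩,
   ⟨⟨B.rf0k70,
   B.rf4k63⟩,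
   ⟨B.rf5k38,
   ⟨B.rf0k268,
   B.rf0k42⟩⟩⟩⟩,
   ⟨⟨⟨B.rf5k39,
   B.rf4k2⟩,
   ⟨B.rf3k321,
   B.rf5k40⟩⟩,
   ⟨⟨B.rf0k139,
   B.rf5k190⟩,
   ⟨B.rf5k41,
   ⟨B.rf3k276,
   B.rf5k126⟩⟩⟩⟩⟩

theorem cw_497 : cfgs_497.All CfgW :=
  all_cfgW (by decide +kernel) ⟨⟨⟨⟨B.rf0k286,
   B.rf5k42⟩,
   ⟨B.rf5k82,
   B.rf3k322⟩⟩,
   ⟨⟨B.rf5k43,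
   B.rf5k127⟩,
   ⟨B.rf3k277,
   ⟨B.rf3k323,
   B.rf4k247⟩⟩⟩⟩,
   ⟨⟨⟨B.rf5k44,
   B.rf3k278⟩,
   ⟨B.rf4k278,
   B.rf7k14⟩⟩,
   ⟨⟨B.rf5k45,
   B.rf7k168⟩,
   ⟨B.rf5k260,
   ⟨B.rf3k324,
   B.rf4k159⟩⟩⟩⟩⟩

theorem cw_515 : cfgs_515.All CfgW :=
  all_cfgW (by decide +kernel) ⟨⟨⟨⟨B.rf5k46,
   B.rf3k325⟩,
   ⟨B.rf3k326,
   B.rf4k279⟩⟩,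
   ⟨⟨B.rf0k207,
   B.rf4k280⟩,
   ⟨B.rf5k191,
   ⟨B.rf4k248,
   B.rf3k279⟩⟩⟩⟩,
   ⟨⟨⟨B.rf5k128,
   B.rf4k281⟩,
   ⟨B.rf5k261,
   B.rf10k29⟩⟩,
   ⟨⟨B.rf0k276,
   B.rf9k177⟩,
   ⟨B.rf10k173,
   ⟨B.rf1k216,
   B.rf7k25⟩⟩⟩⟩⟩

theorem cw_533 : cfgs_533.All CfgW :=
  all_cfgW (by decide +kernel) ⟨⟨⟨⟨B.rf7k122,
   B.rf9k23⟩,
   ⟨B.rf9k165,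
   B.rf9k75⟩⟩,
   ⟨⟨B.rf7k107,
   B.rf10k37⟩,
   ⟨B.rf10k38,
   ⟨B.rf9k72,
   B.rf7k26⟩⟩⟩⟩,
   ⟨⟨⟨B.rf8k72,
   B.rf9k32⟩,
   ⟨B.rf7k175,
   B.rf11k4⟩⟩,
   ⟨⟨B.rf9k161,
   B.rf9k76⟩,
   ⟨B.rf3k58,
   ⟨B.rf9k162,
   B.rf19k16⟩⟩⟩⟩⟩

theorem cw_551 : cfgs_551.All CfgW :=
  all_cfgW (by decide +kernel) ⟨⟨⟨⟨B.rf13k16,
   B.rf7k108⟩,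
   ⟨B.rf9k77,
   B.rf7k130⟩⟩,
   ⟨⟨B.rf3k145,
   B.rf1k137⟩,
   ⟨B.rf9k178,
   ⟨B.rf7k30,
   B.rf7k131⟩⟩⟩⟩,
   ⟨⟨⟨B.rf3k234,
   B.rf10k131⟩,
   ⟨B.rf1k77,
   B.rf12k67⟩⟩,
   ⟨⟨B.rf7k165,
   B.rf0k62⟩,
   ⟨B.rf7k105,
   ⟨B.rf7k123,
   B.rf10k30⟩⟩⟩⟩⟩

theorem cw_569 : cfgs_569.All CfgW :=
  all_cfgW (by decide +kernel) ⟨⟨⟨⟨B.rf0k117,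
   B.rf10k129⟩,
   ⟨B.rf3k163,
   B.rf9k171⟩⟩,
   ⟨⟨B.rf9k179,
   B.rf9k78⟩,
   ⟨B.rf6k219,
   B.rf0k29⟩⟩⟩,
   ⟨⟨⟨B.rf6k220,
   B.rf3k231⟩,
   ⟨B.rf1k62,
   B.rf12k31⟩⟩,
   ⟨⟨B.rf0k180,
   B.rf1k261⟩,
   ⟨B.rf8k107,
   ⟨B.rf8k148,
   B.rf0k167⟩⟩⟩⟩⟩

theorem cw_586 : cfgs_586.All CfgW :=
  all_cfgW (by decide +kernel) ⟨⟨⟨⟨B.rf3k85,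
   B.rf10k198⟩,
   ⟨B.rf11k106,
   B.rf11k21⟩⟩,
   ⟨⟨B.rf9k133,
   B.rf1k253⟩,
   ⟨B.rf9k4,
   ⟨B.rf12k18,
   B.rf1k138⟩⟩⟩⟩,
   ⟨⟨⟨B.rf11k62,
   B.rf6k157⟩,
   ⟨B.rf10k170,
   B.rf12k66⟩⟩,
   ⟨⟨B.rf8k153,
   B.rf6k142⟩,
   ⟨B.rf12k30,
   ⟨B.rf11k131,
   B.rf11k63⟩⟩⟩⟩⟩

theorem cw_604 : cfgs_604.All CfgW :=
  all_cfgW (by decide +kernel) ⟨⟨⟨⟨B.rf11k64,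
   B.rf7k152⟩,
   ⟨B.rf7k153,
   B.rf10k83⟩⟩,
   ⟨⟨B.rf1k207,
   B.rf1k120⟩,
   ⟨B.rf10k150,
   ⟨B.rf3k63,
   B.rf11k22⟩⟩⟩⟩,
   ⟨⟨⟨B.rf6k159,
   B.rf11k65⟩,
   ⟨B.rf6k191,
   B.rf8k112⟩⟩,
   ⟨⟨B.rf11k40,
   B.rf12k56⟩,
   ⟨B.rf11k132,
   ⟨B.rf0k118,
   B.rf3k215⟩⟩⟩⟩⟩

theorem cw_622 : cfgs_622.All CfgW :=
  all_cfgW (by decide +kernel) ⟨⟨⟨⟨B.rf12k6,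
   B.rf1k71⟩,
   ⟨B.rf11k152,
   B.rf12k48⟩⟩,
   ⟨⟨B.rf3k188,
   B.rf12k16⟩,
   ⟨B.rf1k81,
   ⟨B.rf8k43,
   B.rf8k26⟩⟩⟩⟩,
   ⟨⟨⟨B.rf3k141,
   B.rf8k71⟩,
   ⟨B.rf10k151,
   B.rf8k83⟩⟩,
   ⟨⟨B.rf10k84,
   B.rf3k248⟩,
   ⟨B.rf12k22,
   ⟨B.rf1k158,
   B.rf3k86⟩⟩⟩⟩⟩

theorem cw_640 : cfgs_640.All CfgW :=
  all_cfgW (by decide +kernel) ⟨⟨⟨⟨B.rf9k134,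
   B.rf11k66⟩,
   ⟨B.rf0k168,
   B.rf1k262⟩⟩,
   ⟨⟨B.rf8k44,
   B.rf12k52⟩,
   ⟨B.rf11k93,
   B.rf7k89⟩⟩⟩,
   ⟨⟨⟨B.rf10k85,
   B.rf9k135⟩,
   ⟨B.rf1k72,
   B.rf3k204⟩⟩,
   ⟨⟨B.rf11k129,
   B.rf9k136⟩,
   ⟨B.rf10k86,
   ⟨B.rf0k45,
   B.rf0k270⟩⟩⟩⟩⟩

theorem cw_657 : cfgs_657.All CfgW :=
  all_cfgW (by decide +kernel) ⟨⟨⟨⟨B.rf9k137,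
   B.rf11k94⟩,
   ⟨B.rf0k65,
   B.rf9k138⟩⟩,
   ⟨⟨B.rf7k208,
   B.rf11k67⟩,
   ⟨B.rf11k23,
   ⟨B.rf10k87,
   B.rf7k154⟩⟩⟩⟩,
   ⟨⟨⟨B.rf3k168,
   B.rf8k17⟩,
   ⟨B.rf7k209,
   B.rf10k152⟩⟩,
   ⟨⟨B.rf9k139,
   B.rf9k140⟩,
   ⟨B.rf10k88,
   ⟨B.rf0k181,
   B.rf11k87⟩⟩⟩⟩⟩

theorem cw_675 : cfgs_675.All CfgW :=
  all_cfgW (by decide +kernel) ⟨⟨⟨⟨B.rf10k153,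
   B.rf10k199⟩,
   ⟨B.rf0k19,
   B.rf11k24⟩⟩,
   ⟨⟨B.rf7k90,
   B.rf9k141⟩,
   ⟨B.rf7k210,
   ⟨B.rf3k199,
   B.rf7k91⟩⟩⟩⟩,
   ⟨⟨⟨B.rf0k64,
   B.rf3k300⟩,
   ⟨B.rf8k18,
   B.rf9k1⟩⟩,
   ⟨⟨B.rf6k128,
   B.rf8k124⟩,
   ⟨B.rf12k57,
   ⟨B.rf10k123,
   B.rf10k8⟩⟩⟩⟩⟩

theorem cw_693 : cfgs_693.All CfgW :=
  all_cfgW (by decide +kernel) ⟨⟨⟨⟨B.rf6k135,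
   B.rf8k119⟩,
   ⟨B.rf8k19,
   B.rf0k169⟩⟩,
   ⟨⟨B.rf6k147,
   B.rf11k148⟩,
   ⟨B.rf3k139,
   ⟨B.rf7k92,
   B.rf11k134⟩⟩⟩⟩,
   ⟨⟨⟨B.rf0k99,
   B.rf1k294⟩,
   ⟨B.rf1k217,
   B.rf11k95⟩⟩,
   ⟨⟨B.rf0k156,
   B.rf0k277⟩,
   ⟨B.rf11k156,
   ⟨B.rf11k149,
   B.rf10k200⟩⟩⟩⟩⟩

theorem cw_711 : cfgs_711.All CfgW :=
  all_cfgW (by decide +kernel) ⟨⟨⟨⟨B.rf3k207,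
   B.rf0k260⟩,
   ⟨B.rf11k118,
   B.rf11k151⟩⟩,
   ⟨⟨B.rf7k211,
   B.rf10k201⟩,
   ⟨B.rf10k202,
   B.rf10k89⟩⟩⟩,
   ⟨⟨⟨B.rf19k78,
   B.rf5k293⟩,
   ⟨B.rf8k101,
   B.rf0k227⟩⟩,
   ⟨⟨B.rf12k40,
   B.rf0k119⟩,
   ⟨B.rf6k156,
   ⟨B.rf8k113,
   B.rf11k25⟩⟩⟩⟩⟩

theorem cw_728 : cfgs_728.All CfgW :=
  all_cfgW (by decide +kernel) ⟨⟨⟨⟨B.rf8k139,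
   B.rf9k19⟩,
   ⟨B.rf3k106,
   B.rf11k68⟩⟩,
   ⟨⟨B.rf7k212,
   B.rf7k93⟩,
   ⟨B.rf8k61,
   ⟨B.rf9k142,
   B.rf8k114⟩⟩⟩⟩,
   ⟨⟨⟨B.rf10k154,
   B.rf8k84⟩,
   ⟨B.rf7k213,
   B.rf7k214⟩⟩,
   ⟨⟨B.rf1k263,
   B.rf7k215⟩,
   ⟨B.rf0k182,
   ⟨B.rf3k240,
   B.rf1k159⟩⟩⟩⟩⟩

theorem cw_746 : cfgs_746.All CfgW :=
  all_cfgW (by decide +kernel) ⟨⟨⟨⟨B.rf12k33,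
   B.rf9k38⟩,
   ⟨B.rf9k191,
   B.rf9k86⟩⟩,
   ⟨⟨B.rf11k7,
   B.rf7k136⟩,
   ⟨B.rf7k155,
   ⟨B.rf9k14,
   B.rf0k193⟩⟩⟩⟩,
   ⟨⟨⟨B.rf9k87,
   B.rf1k121⟩,
   ⟨B.rf10k45,
   B.rf19k80⟩⟩,
   ⟨⟨B.rf9k192,
   B.rf7k35⟩,
   ⟨B.rf11k88,
   ⟨B.rf11k8,
   B.rf8k29⟩⟩⟩⟩⟩

theorem cw_764 : cfgs_764.All CfgW :=
  all_cfgW (by decide +kernel) ⟨⟨⟨⟨B.rf7k177,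
   B.rf1k119⟩,
   ⟨B.rf9k193,
   B.rf1k199⟩⟩,
   ⟨⟨B.rf11k43,
   B.rf3k253⟩,
   ⟨B.rf1k107,
   ⟨B.rf8k136,
   B.rf11k9⟩⟩⟩⟩,
   ⟨⟨⟨B.rf11k109,
   B.rf1k264⟩,
   ⟨B.rf11k110,
   B.rf3k87⟩⟩,
   ⟨⟨B.rf10k175,
   B.rf1k208⟩,
   ⟨B.rf8k75,
   ⟨B.rf8k30,
   B.rf10k46⟩⟩⟩⟩⟩

theorem cw_782 : cfgs_782.All CfgW :=
  all_cfgW (by decide +kernel) ⟨⟨⟨⟨B.rf11k44,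
   B.rf10k47⟩,
   ⟨B.rf0k60,
   B.rf8k108⟩⟩,
   ⟨⟨B.rf8k76,
   B.rf1k44⟩,
   ⟨B.rf9k194,
   B.rf8k147⟩⟩⟩,
   ⟨⟨⟨B.rf0k106,
   B.rf1k280⟩,
   ⟨B.rf8k31,
   B.rf7k178⟩⟩,
   ⟨⟨B.rf1k290,
   B.rf1k286⟩,
   ⟨B.rf9k195,
   ⟨B.rf10k48,
   B.rf7k179⟩⟩⟩⟩⟩

theorem cw_799 : cfgs_799.All CfgW :=
  all_cfgW (by decide +kernel) ⟨⟨⟨⟨B.rf10k49,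
   B.rf12k42⟩,
   ⟨B.rf1k256,
   B.rf8k77⟩⟩,
   ⟨⟨B.rf10k50,
   B.rf9k88⟩,
   ⟨B.rf11k154,
   ⟨B.rf0k281,
   B.rf9k39⟩⟩⟩⟩,
   ⟨⟨⟨B.rf7k137,
   B.rf8k96⟩,
   ⟨B.rf0k170,
   B.rf1k281⟩⟩,
   ⟨⟨B.rf10k90,
   B.rf12k19⟩,
   ⟨B.rf10k176,
   ⟨B.rf8k32,
   B.rf9k40⟩⟩⟩⟩⟩

theorem cw_817 : cfgs_817.All CfgW :=
  all_cfgW (by decide +kernel) ⟨⟨⟨⟨B.rf1k45,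
   B.rf20k30⟩,
   ⟨B.rf9k41,
   B.rf9k196⟩⟩,
   ⟨⟨B.rf0k183,
   B.rf9k89⟩,
   ⟨B.rf0k257,
   ⟨B.rf10k177,
   B.rf11k0⟩⟩⟩⟩,
   ⟨⟨⟨B.rf9k197,
   B.rf10k51⟩,
   ⟨B.rf0k244,
   B.rf10k52⟩⟩,
   ⟨⟨B.rf7k36,
   B.rf11k45⟩,
   ⟨B.rf1k287,
   ⟨B.rf10k53,
   B.rf11k155⟩⟩⟩⟩⟩

theorem cw_835 : cfgs_835.All CfgW :=
  all_cfgW (by decide +kernel) ⟨⟨⟨⟨B.rf11k158,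
   B.rf12k14⟩,
   ⟨B.rf9k90,
   B.rf7k180⟩⟩,
   ⟨⟨B.rf8k54,
   B.rf7k37⟩,
   ⟨B.rf1k63,
   ⟨B.rf5k320,
   B.rf7k38⟩⟩⟩⟩,
   ⟨⟨⟨B.rf9k198,
   B.rf8k55⟩,
   ⟨B.rf7k39,
   B.rf7k181⟩⟩,
   ⟨⟨B.rf9k42,
   B.rf7k11⟩,
   ⟨B.rf7k40,
   ⟨B.rf7k41,
   B.rf9k43⟩⟩⟩⟩⟩


end Pool.Agent.Lib.G6.Z
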