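import Pool.Agent.Lib.G6.All
import Pool.Agent.Lib.G6D.ZCfgs
import Pool.Agent.Lib.G6D.RFP0
import Pool.Agent.Lib.G6D.RFP1
import Pool.Agent.Lib.G6D.RFP10
import Pool.Agent.Lib.G6D.RFP2
import Pool.Agent.Lib.G6D.RFP3
import Pool.Agent.Lib.G6D.RFP4
import Pool.Agent.Lib.G6D.RFP5
import Pool.Agent.Lib.G6D.RFP6
import Pool.Agent.Lib.G6D.RFP7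
import Pool.Agent.Lib.G6D.RFP8
import Pool.Agent.Lib.G6D.RFP9

set_option autoImplicit false
set_option maxRecDepth 100000
set_option linter.all false

namespace Pool.Agent.Lib.G6.Z

open Pool.Agent.Lib.G6 Pool.Agent.Lib.G6.K
open Pool.Agent.Lib.MP_bfaad3_co (BT)

theorem cw_4270 : cfgs_4270.All CfgW :=
  all_cfgW (by decide +kernel) ⟨⟨⟨⟨B.rf3k125,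
   B.rf23k36⟩,
   ⟨B.rf16k17,
   B.rf18k9⟩⟩,
   ⟨⟨B.rf14k67,
   B.rf19k73⟩,
   ⟨B.rf22k55,
   B.rf17k9⟩⟩⟩,
   ⟨⟨⟨B.rf29k0,
   B.rf24k12⟩,
   ⟨B.rf19k74,
   B.rf24k40⟩⟩,
   ⟨⟨B.rf23k42,
   B.rf14k6⟩,
   ⟨B.rf22k15,
   ⟨B.rf21k2,
   B.rf16k38⟩⟩⟩⟩⟩

theorem cw_4287 : cfgs_4287.All CfgW :=
  all_cfgW (by decide +kernel) ⟨⟨⟨⟨B.rf25k27,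
   B.rf23k37⟩,
   ⟨B.rf21k40,
   B.rf3k223⟩⟩,
   ⟨⟨B.rf15k29,
   B.rf15k32⟩,
   ⟨B.rf20k25,
   ⟨B.rf22k16,
   B.rf3k99⟩⟩⟩⟩,
   ⟨⟨⟨B.rf17k25,
   B.rf27k10⟩,
   ⟨B.rf17k23,
   B.rf20k26⟩⟩,
   ⟨⟨B.rf0k210,
   B.rf1k52⟩,
   ⟨B.rf22k17,
   ⟨B.rf21k3,
   B.rf1k274⟩⟩⟩⟩⟩

theorem cw_4305 : cfgs_4305.All CfgW :=
  all_cfgW (by decide +kernel) ⟨⟨⟨⟨B.rf16k18,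
   B.rf1k255⟩,
   ⟨B.rf22k56,
   B.rf1k231⟩⟩,
   ⟨⟨B.rf21k41,
   B.rf16k21⟩,
   ⟨B.rf29k9,
   ⟨B.rf15k8,
   B.rf3k194⟩⟩⟩⟩,
   ⟨⟨⟨B.rf21k42,
   B.rf24k44⟩,
   ⟨B.rf14k7,
   B.rf3k196⟩⟩,
   ⟨⟨B.rf24k41,
   B.rf15k9⟩,
   ⟨B.rf19k75,
   ⟨B.rf22k57,
   B.rf24k13⟩⟩⟩⟩⟩

theorem cw_4323 : cfgs_4323.All CfgW :=
  all_cfgW (by decide +kernel) ⟨⟨⟨⟨B.rf16k19,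
   B.rf19k76⟩,
   ⟨B.rf19k77,
   B.rf27k11⟩⟩,
   ⟨⟨B.rf1k246,
   B.rf6k198⟩,
   ⟨B.rf3k46,
   ⟨B.rf26k9,
   B.rf14k68⟩⟩⟩⟩,
   ⟨⟨⟨B.rf0k144,
   B.rf24k14⟩,
   ⟨B.rf22k18,
   B.rf14k69⟩⟩,
   ⟨⟨B.rf21k43,
   B.rf19k57⟩,
   ⟨B.rf13k43,
   ⟨B.rf19k4,
   B.rf13k107⟩⟩⟩⟩⟩

theorem cw_4341 : cfgs_4341.All CfgW :=
  all_cfgW (by decide +kernel) ⟨⟨⟨⟨B.rf1k53,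
   B.rf3k192⟩,
   ⟨B.rf13k108,
   B.rf13k109⟩⟩,
   ⟨⟨B.rf19k58,
   B.rf14k40⟩,
   ⟨B.rf0k241,
   B.rf25k18⟩⟩⟩,
   ⟨⟨⟨B.rf28k10,
   B.rf20k76⟩,
   ⟨B.rf14k41,
   B.rf17k28⟩⟩,
   ⟨⟨B.rf6k206,
   B.rf1k248⟩,
   ⟨B.rf25k19,
   ⟨B.rf6k213,
   B.rf25k22⟩⟩⟩⟩⟩

theorem cw_4358 : cfgs_4358.All CfgW :=
  all_cfgW (by decide +kernel) ⟨⟨⟨⟨B.rf14k42,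
   B.rf16k6⟩,
   ⟨B.rf23k15,
   B.rf24k3⟩⟩,
   ⟨⟨B.rf24k29,
   B.rf6k203⟩,
   ⟨B.rf16k48,
   ⟨B.rf16k49,
   B.rf16k7⟩⟩⟩⟩,
   ⟨⟨⟨B.rf6k205,
   B.rf24k30⟩,
   ⟨B.rf26k0,
   B.rf16k8⟩⟩,
   ⟨⟨B.rf22k0,
   B.rf22k1⟩,
   ⟨B.rf22k2,
   ⟨B.rf14k43,
   B.rf19k59⟩⟩⟩⟩⟩

theorem cw_4376 : cfgs_4376.All CfgW :=
  all_cfgW (by decide +kernel) ⟨⟨⟨⟨B.rf22k43,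
   B.rf14k44⟩,
   ⟨B.rf21k29,
   B.rf23k16⟩⟩,
   ⟨⟨B.rf22k44,
   B.rf24k42⟩,
   ⟨B.rf22k3,
   ⟨B.rf22k4,
   B.rf14k45⟩⟩⟩⟩,
   ⟨⟨⟨B.rf3k235,
   B.rf15k46⟩,
   ⟨B.rf22k45,
   B.rf20k15⟩⟩,
   ⟨⟨B.rf13k44,
   B.rf16k50⟩,
   ⟨B.rf20k16,
   ⟨B.rf26k14,
   B.rf26k1⟩⟩⟩⟩⟩

theorem cw_4394 : cfgs_4394.All CfgW :=
  all_cfgW (by decide +kernel) ⟨⟨⟨⟨B.rf20k17,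
   B.rf1k197⟩,
   ⟨B.rf3k224,
   B.rf23k17⟩⟩,
   ⟨⟨B.rf24k4,
   B.rf20k18⟩,
   ⟨B.rf13k110,
   ⟨B.rf19k60,
   B.rf1k232⟩⟩⟩⟩,
   ⟨⟨⟨B.rf13k45,
   B.rf24k5⟩,
   ⟨B.rf20k19,
   B.rf14k46⟩⟩,
   ⟨⟨B.rf3k190,
   B.rf26k7⟩,
   ⟨B.rf13k58,
   ⟨B.rf16k51,
   B.rf20k77⟩⟩⟩⟩⟩

theorem cw_4412 : cfgs_4412.All CfgW :=
  all_cfgW (by decide +kernel) ⟨⟨⟨⟨B.rf25k13,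
   B.rf13k59⟩,
   ⟨B.rf20k78,
   B.rf18k2⟩⟩,
   ⟨⟨B.rf13k111,
   B.rf15k24⟩,
   ⟨B.rf26k2,
   B.rf23k18⟩⟩⟩,
   ⟨⟨⟨B.rf0k135,
   B.rf20k79⟩,
   ⟨B.rf27k0,
   B.rf14k47⟩⟩,
   ⟨⟨B.rf10k7,
   B.rf25k23⟩,
   ⟨B.rf13k112,
   ⟨B.rf26k15,
   B.rf20k20⟩⟩⟩⟩⟩

theorem cw_4429 : cfgs_4429.All CfgW :=
  all_cfgW (by decide +kernel) ⟨⟨⟨⟨B.rf17k17,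
   B.rf22k46⟩,
   ⟨B.rf15k25,
   B.rf14k48⟩⟩,
   ⟨⟨B.rf16k9,
   B.rf13k113⟩,
   ⟨B.rf20k80,
   ⟨B.rf21k30,
   B.rf13k46⟩⟩⟩⟩,
   ⟨⟨⟨B.rf19k61,
   B.rf3k195⟩,
   ⟨B.rf13k47,
   B.rf19k5⟩⟩,
   ⟨⟨B.rf19k6,
   B.rf19k7⟩,
   ⟨B.rf27k2,
   ⟨B.rf14k49,
   B.rf24k31⟩⟩⟩⟩⟩

theorem cw_4447 : cfgs_4447.All CfgW :=
  all_cfgW (by decide +kernel) ⟨⟨⟨⟨B.rf23k19,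
   B.rf14k50⟩,
   ⟨B.rf19k62,
   B.rf23k20⟩⟩,
   ⟨⟨B.rf25k24,
   B.rf24k32⟩,
   ⟨B.rf14k51,
   ⟨B.rf20k21,
   B.rf20k81⟩⟩⟩⟩,
   ⟨⟨⟨B.rf15k47,
   B.rf13k114⟩,
   ⟨B.rf14k52,
   B.rf13k115⟩⟩,
   ⟨⟨B.rf17k0,
   B.rf19k63⟩,
   ⟨B.rf20k82,
   ⟨B.rf9k132,
   B.rf14k90⟩⟩⟩⟩⟩

theorem cw_4465 : cfgs_4465.All CfgW :=
  all_cfgW (by decide +kernel) ⟨⟨⟨⟨B.rf25k14,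
   B.rf19k8⟩,
   ⟨B.rf25k5,
   B.rf21k31⟩⟩,
   ⟨⟨B.rf13k48,
   B.rf15k0⟩,
   ⟨B.rf13k49,
   ⟨B.rf13k7,
   B.rf13k116⟩⟩⟩⟩,
   ⟨⟨⟨B.rf7k88,
   B.rf14k0⟩,
   ⟨B.rf13k8,
   B.rf14k53⟩⟩,
   ⟨⟨B.rf20k83,
   B.rf21k32⟩,
   ⟨B.rf19k64,
   ⟨B.rf13k50,
   B.rf25k15⟩⟩⟩⟩⟩

theorem cw_4483 : cfgs_4483.All CfgW :=
  all_cfgW (by decide +kernel) ⟨⟨⟨⟨B.rf20k22,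
   B.rf40k10⟩,
   ⟨B.rf3k80,
   B.rf35k3⟩⟩,
   ⟨⟨B.rf40k11,
   B.rf0k112⟩,
   ⟨B.rf3k251,
   ⟨B.rf3k198,
   B.rf42k7⟩⟩⟩⟩,
   ⟨⟨⟨B.rf36k6,
   B.rf30k16⟩,
   ⟨B.rf32k13,
   B.rf33k4⟩⟩,
   ⟨⟨B.rf38k1,
   B.rf40k3⟩,
   ⟨B.rf34k2,
   ⟨B.rf1k131,
   B.rf42k6⟩⟩⟩⟩⟩

theorem cw_4501 : cfgs_4501.All CfgW :=
  all_cfgW (by decide +kernel) ⟨⟨⟨⟨B.rf3k100,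
   B.rf32k14⟩,
   ⟨B.rf42k0,
   B.rf43k1⟩⟩,
   ⟨⟨B.rf31k13,
   B.rf40k4⟩,
   ⟨B.rf31k3,
   ⟨B.rf29k13,
   B.rf1k198⟩⟩⟩⟩,
   ⟨⟨⟨B.rf40k5,
   B.rf41k4⟩,
   ⟨B.rf29k24,
   B.rf42k1⟩⟩,
   ⟨⟨B.rf3k197,
   B.rf42k2⟩,
   ⟨B.rf34k3,
   ⟨B.rf32k15,
   B.rf41k5⟩⟩⟩⟩⟩

theorem cw_4519 : cfgs_4519.All CfgW :=
  all_cfgW (by decide +kernel) ⟨⟨⟨⟨B.rf39k6,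
   B.rf31k14⟩,
   ⟨B.rf38k12,
   B.rf3k126⟩⟩,
   ⟨⟨B.rf40k6,
   B.rf33k7⟩,
   ⟨B.rf40k14,
   ⟨B.rf30k17,
   B.rf31k4⟩⟩⟩⟩,
   ⟨⟨⟨B.rf41k12,
   B.rf32k1⟩,
   ⟨B.rf33k8,
   B.rf41k6⟩⟩,
   ⟨⟨B.rf37k15,
   B.rf29k14⟩,
   ⟨B.rf1k109,
   ⟨B.rf35k2,
   B.rf39k7⟩⟩⟩⟩⟩

theorem cw_4537 : cfgs_4537.All CfgW :=
  all_cfgW (by decide +kernel) ⟨⟨⟨⟨B.rf40k7,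
   B.rf31k5⟩,
   ⟨B.rf36k7,
   B.rf36k20⟩⟩,
   ⟨⟨B.rf29k25,
   B.rf36k21⟩,
   ⟨B.rf36k22,
   ⟨B.rf30k18,
   B.rf33k11⟩⟩⟩⟩,
   ⟨⟨⟨B.rf29k26,
   B.rf32k16⟩,
   ⟨B.rf30k0,
   B.rf33k0⟩⟩,
   ⟨⟨B.rf31k6,
   B.rf36k8⟩,
   ⟨B.rf1k164,
   ⟨B.rf40k8,
   B.rf1k284⟩⟩⟩⟩⟩


end Pool.Agent.Lib.G6.Z
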