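import Pool.Agent.Lib.G6.All
import Pool.Agent.Lib.G6D.ZCfgs
import Pool.Agent.Lib.G6D.RFP0
import Pool.Agent.Lib.G6D.RFP1
import Pool.Agent.Lib.G6D.RFP10
import Pool.Agent.Lib.G6D.RFP11
import Pool.Agent.Lib.G6D.RFP2
import Pool.Agent.Lib.G6D.RFP3
import Pool.Agent.Lib.G6D.RFP4
import Pool.Agent.Lib.G6D.RFP5
import Pool.Agent.Lib.G6D.RFP6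
import Pool.Agent.Lib.G6D.RFP7
import Pool.Agent.Lib.G6D.RFP8
import Pool.Agent.Lib.G6D.RFP9

set_option autoImplicit false
set_option maxRecDepth 100000
set_option linter.all false

namespace Pool.Agent.Lib.G6.Z

open Pool.Agent.Lib.G6 Pool.Agent.Lib.G6.K
open Pool.Agent.Lib.MP_bfaad3_co (BT)

theorem cw_853 : cfgs_853.All CfgW :=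
  all_cfgW (by decide +kernel) ⟨⟨⟨⟨B.rf7k42,
   B.rf9k44⟩,
   ⟨B.rf8k7,
   B.rf10k54⟩⟩,
   ⟨⟨B.rf10k178,
   B.rf10k179⟩,
   ⟨B.rf15k58,
   B.rf1k108⟩⟩⟩,
   ⟨⟨⟨B.rf11k111,
   B.rf9k91⟩,
   ⟨B.rf9k92,
   B.rf8k8⟩⟩,
   ⟨⟨B.rf9k93,
   B.rf13k77⟩,
   ⟨B.rf7k43,
   ⟨B.rf8k33,
   B.rf8k9⟩⟩⟩⟩⟩

theorem cw_870 : cfgs_870.All CfgW :=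
  all_cfgW (by decide +kernel) ⟨⟨⟨⟨B.rf9k45,
   B.rf9k94⟩,
   ⟨B.rf15k48,
   B.rf7k138⟩⟩,
   ⟨⟨B.rf7k44,
   B.rf9k95⟩,
   ⟨B.rf7k182,
   ⟨B.rf8k10,
   B.rf10k133⟩⟩⟩⟩,
   ⟨⟨⟨B.rf13k63,
   B.rf9k46⟩,
   ⟨B.rf7k45,
   B.rf7k46⟩⟩,
   ⟨⟨B.rf7k1,
   B.rf7k2⟩,
   ⟨B.rf10k55,
   ⟨B.rf7k47,
   B.rf7k48⟩⟩⟩⟩⟩

theorem cw_888 : cfgs_888.All CfgW :=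
  all_cfgW (by decide +kernel) ⟨⟨⟨⟨B.rf10k56,
   B.rf7k49⟩,
   ⟨B.rf9k199,
   B.rf7k50⟩⟩,
   ⟨⟨B.rf13k62,
   B.rf21k48⟩,
   ⟨B.rf21k49,
   ⟨B.rf14k75,
   B.rf0k120⟩⟩⟩⟩,
   ⟨⟨⟨B.rf20k36,
   B.rf13k64⟩,
   ⟨B.rf3k49,
   B.rf19k86⟩⟩,
   ⟨⟨B.rf23k1,
   B.rf23k0⟩,
   ⟨B.rf13k78,
   ⟨B.rf19k13,
   B.rf13k65⟩⟩⟩⟩⟩

theorem cw_906 : cfgs_906.All CfgW :=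
  all_cfgW (by decide +kernel) ⟨⟨⟨⟨B.rf13k10,
   B.rf22k62⟩,
   ⟨B.rf14k76,
   B.rf20k31⟩⟩,
   ⟨⟨B.rf0k121,
   B.rf20k37⟩,
   ⟨B.rf0k52,
   ⟨B.rf14k77,
   B.rf13k66⟩⟩⟩⟩,
   ⟨⟨⟨B.rf13k67,
   B.rf9k9⟩,
   ⟨B.rf18k15,
   B.rf15k59⟩⟩,
   ⟨⟨B.rf13k68,
   B.rf1k278⟩,
   ⟨B.rf18k25,
   ⟨B.rf13k11,
   B.rf13k14⟩⟩⟩⟩⟩

theorem cw_924 : cfgs_924.All CfgW :=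
  all_cfgW (by decide +kernel) ⟨⟨⟨⟨B.rf12k80,
   B.rf1k82⟩,
   ⟨B.rf3k183,
   B.rf22k47⟩⟩,
   ⟨⟨B.rf0k152,
   B.rf1k173⟩,
   ⟨B.rf24k6,
   B.rf1k139⟩⟩⟩,
   ⟨⟨⟨B.rf17k26,
   B.rf14k54⟩,
   ⟨B.rf1k204,
   B.rf1k238⟩⟩,
   ⟨⟨B.rf14k1,
   B.rf22k21⟩,
   ⟨B.rf15k49,
   ⟨B.rf0k153,
   B.rf1k140⟩⟩⟩⟩⟩

theorem cw_941 : cfgs_941.All CfgW :=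
  all_cfgW (by decide +kernel) ⟨⟨⟨⟨B.rf26k20,
   B.rf0k253⟩,
   ⟨B.rf6k130,
   B.rf18k4⟩⟩,
   ⟨⟨B.rf29k4,
   B.rf26k4⟩,
   ⟨B.rf23k21,
   ⟨B.rf3k216,
   B.rf22k5⟩⟩⟩⟩,
   ⟨⟨⟨B.rf21k33,
   B.rf25k25⟩,
   ⟨B.rf0k164,
   B.rf0k98⟩⟩,
   ⟨⟨B.rf3k217,
   B.rf15k1⟩,
   ⟨B.rf12k69,
   ⟨B.rf27k3,
   B.rf15k2⟩⟩⟩⟩⟩

theorem cw_959 : cfgs_959.All CfgW :=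
  all_cfgW (by decide +kernel) ⟨⟨⟨⟨B.rf20k84,
   B.rf22k6⟩,
   ⟨B.rf0k171,
   B.rf21k34⟩⟩,
   ⟨⟨B.rf17k4,
   B.rf0k122⟩,
   ⟨B.rf6k193,
   ⟨B.rf17k24,
   B.rf14k55⟩⟩⟩⟩,
   ⟨⟨⟨B.rf22k7,
   B.rf1k220⟩,
   ⟨B.rf25k7,
   B.rf3k184⟩⟩,
   ⟨⟨B.rf3k218,
   B.rf25k16⟩,
   ⟨B.rf23k40,
   ⟨B.rf0k10,
   B.rf13k51⟩⟩⟩⟩⟩

theorem cw_977 : cfgs_977.All CfgW :=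
  all_cfgW (by decide +kernel) ⟨⟨⟨⟨B.rf23k22,
   B.rf23k23⟩,
   ⟨B.rf1k209,
   B.rf20k85⟩⟩,
   ⟨⟨B.rf12k58,
   B.rf21k4⟩,
   ⟨B.rf23k24,
   ⟨B.rf14k56,
   B.rf6k194⟩⟩⟩⟩,
   ⟨⟨⟨B.rf17k18,
   B.rf24k7⟩,
   ⟨B.rf14k57,
   B.rf21k35⟩⟩,
   ⟨⟨B.rf26k3,
   B.rf18k0⟩,
   ⟨B.rf28k2,
   ⟨B.rf22k59,
   B.rf1k64⟩⟩⟩⟩⟩

theorem cw_995 : cfgs_995.All CfgW :=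
  all_cfgW (by decide +kernel) ⟨⟨⟨⟨B.rf19k65,
   B.rf3k160⟩,
   ⟨B.rf28k11,
   B.rf20k86⟩⟩,
   ⟨⟨B.rf16k10,
   B.rf18k7⟩,
   ⟨B.rf1k54,
   B.rf23k25⟩⟩⟩,
   ⟨⟨⟨B.rf15k3,
   B.rf22k8⟩,
   ⟨B.rf25k8,
   B.rf1k174⟩⟩,
   ⟨⟨B.rf6k180,
   B.rf3k156⟩,
   ⟨B.rf16k30,
   ⟨B.rf24k33,
   B.rf23k38⟩⟩⟩⟩⟩

theorem cw_1012 : cfgs_1012.All CfgW :=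
  all_cfgW (by decide +kernel) ⟨⟨⟨⟨B.rf6k185,
   B.rf25k17⟩,
   ⟨B.rf14k58,
   B.rf19k9⟩⟩,
   ⟨⟨B.rf22k25,
   B.rf14k15⟩,
   ⟨B.rf19k96,
   ⟨B.rf13k82,
   B.rf19k97⟩⟩⟩⟩,
   ⟨⟨⟨B.rf13k1,
   B.rf28k0⟩,
   ⟨B.rf0k107,
   B.rf6k195⟩⟩,
   ⟨⟨B.rf25k28,
   B.rf13k17⟩,
   ⟨B.rf3k84,
   ⟨B.rf20k42,
   B.rf22k9⟩⟩⟩⟩⟩

theorem cw_1030 : cfgs_1030.All CfgW :=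
  all_cfgW (by decide +kernel) ⟨⟨⟨⟨B.rf0k184,
   B.rf14k16⟩,
   ⟨B.rf23k44,
   B.rf6k134⟩⟩,
   ⟨⟨B.rf25k2,
   B.rf3k88⟩,
   ⟨B.rf16k31,
   ⟨B.rf1k46,
   B.rf16k39⟩⟩⟩⟩,
   ⟨⟨⟨B.rf3k117,
   B.rf3k169⟩,
   ⟨B.rf15k12,
   B.rf14k17⟩⟩,
   ⟨⟨B.rf0k21,
   B.rf1k141⟩,
   ⟨B.rf1k83,
   ⟨B.rf22k26,
   B.rf0k228⟩⟩⟩⟩⟩

theorem cw_1048 : cfgs_1048.All CfgW :=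
  all_cfgW (by decide +kernel) ⟨⟨⟨⟨B.rf23k2,
   B.rf0k185⟩,
   ⟨B.rf23k45,
   B.rf26k5⟩⟩,
   ⟨⟨B.rf28k1,
   B.rf0k186⟩,
   ⟨B.rf15k13,
   ⟨B.rf0k123,
   B.rf6k196⟩⟩⟩⟩,
   ⟨⟨⟨B.rf28k6,
   B.rf25k11⟩,
   ⟨B.rf1k142,
   B.rf14k18⟩⟩,
   ⟨⟨B.rf0k124,
   B.rf14k19⟩,
   ⟨B.rf16k24,
   ⟨B.rf20k43,
   B.rf3k191⟩⟩⟩⟩⟩

theorem cw_1066 : cfgs_1066.All CfgW :=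
  all_cfgW (by decide +kernel) ⟨⟨⟨⟨B.rf21k51,
   B.rf23k3⟩,
   ⟨B.rf19k19,
   B.rf1k135⟩⟩,
   ⟨⟨B.rf23k4,
   B.rf19k20⟩,
   ⟨B.rf15k60,
   ⟨B.rf15k14,
   B.rf1k106⟩⟩⟩⟩,
   ⟨⟨⟨B.rf19k21,
   B.rf21k52⟩,
   ⟨B.rf0k147,
   B.rf21k53⟩⟩,
   ⟨⟨B.rf26k17,
   B.rf22k27⟩,
   ⟨B.rf21k54,
   ⟨B.rf13k18,
   B.rf13k83⟩⟩⟩⟩⟩

theorem cw_1084 : cfgs_1084.All CfgW :=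
  all_cfgW (by decide +kernel) ⟨⟨⟨⟨B.rf20k44,
   B.rf21k7⟩,
   ⟨B.rf13k19,
   B.rf12k72⟩⟩,
   ⟨⟨B.rf20k45,
   B.rf20k46⟩,
   ⟨B.rf13k84,
   ⟨B.rf16k25,
   B.rf21k8⟩⟩⟩⟩,
   ⟨⟨⟨B.rf1k175,
   B.rf21k9⟩,
   ⟨B.rf1k110,
   B.rf19k22⟩⟩,
   ⟨⟨B.rf6k124,
   B.rf15k15⟩,
   ⟨B.rf1k111,
   ⟨B.rf23k5,
   B.rf3k89⟩⟩⟩⟩⟩

theorem cw_1102 : cfgs_1102.All CfgW :=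
  all_cfgW (by decide +kernel) ⟨⟨⟨⟨B.rf15k16,
   B.rf15k61⟩,
   ⟨B.rf1k84,
   B.rf24k19⟩⟩,
   ⟨⟨B.rf13k20,
   B.rf21k55⟩,
   ⟨B.rf13k85,
   ⟨B.rf21k36,
   B.rf27k4⟩⟩⟩⟩,
   ⟨⟨⟨B.rf24k20,
   B.rf24k18⟩,
   ⟨B.rf3k130,
   B.rf6k160⟩⟩,
   ⟨⟨B.rf22k48,
   B.rf0k22⟩,
   ⟨B.rf3k170,
   ⟨B.rf21k56,
   B.rf16k26⟩⟩⟩⟩⟩

theorem cw_1120 : cfgs_1120.All CfgW :=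
  all_cfgW (by decide +kernel) ⟨⟨⟨⟨B.rf14k59,
   B.rf21k57⟩,
   ⟨B.rf24k21,
   B.rf15k38⟩⟩,
   ⟨⟨B.rf13k21,
   B.rf0k48⟩,
   ⟨B.rf22k28,
   ⟨B.rf19k98,
   B.rf21k58⟩⟩⟩⟩,
   ⟨⟨⟨B.rf20k47,
   B.rf19k99⟩,
   ⟨B.rf19k100,
   B.rf21k10⟩⟩,
   ⟨⟨B.rf8k56,
   B.rf20k48⟩,
   ⟨B.rf0k113,
   ⟨B.rf15k17,
   B.rf20k49⟩⟩⟩⟩⟩

theorem cw_1138 : cfgs_1138.All CfgW :=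
  all_cfgW (by decide +kernel) ⟨⟨⟨⟨B.rf20k50,
   B.rf0k172⟩,
   ⟨B.rf22k10,
   B.rf14k81⟩⟩,
   ⟨⟨B.rf13k22,
   B.rf1k85⟩,
   ⟨B.rf23k46,
   B.rf29k2⟩⟩⟩,
   ⟨⟨⟨B.rf28k5,
   B.rf1k98⟩,
   ⟨B.rf23k6,
   B.rf0k76⟩⟩,
   ⟨⟨B.rf18k26,
   B.rf17k13⟩,
   ⟨B.rf20k51,
   ⟨B.rf16k27,
   B.rf19k23⟩⟩⟩⟩⟩

theorem cw_1155 : cfgs_1155.All CfgW :=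
  all_cfgW (by decide +kernel) ⟨⟨⟨⟨B.rf19k101,
   B.rf22k29⟩,
   ⟨B.rf19k24,
   B.rf19k102⟩⟩,
   ⟨⟨B.rf6k126,
   B.rf20k52⟩,
   ⟨B.rf20k53,
   ⟨B.rf20k54,
   B.rf19k25⟩⟩⟩⟩,
   ⟨⟨⟨B.rf19k26,
   B.rf1k122⟩,
   ⟨B.rf19k27,
   B.rf0k187⟩⟩,
   ⟨⟨B.rf0k331,
   B.rf20k55⟩,
   ⟨B.rf20k56,
   ⟨B.rf0k229,
   B.rf21k11⟩⟩⟩⟩⟩

theorem cw_1173 : cfgs_1173.All CfgW :=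
  all_cfgW (by decide +kernel) ⟨⟨⟨⟨B.rf17k8,
   B.rf19k28⟩,
   ⟨B.rf19k29,
   B.rf19k30⟩⟩,
   ⟨⟨B.rf23k47,
   B.rf21k12⟩,
   ⟨B.rf19k31,
   ⟨B.rf21k13,
   B.rf13k86⟩⟩⟩⟩,
   ⟨⟨⟨B.rf16k28,
   B.rf1k75⟩,
   ⟨B.rf15k39,
   B.rf13k23⟩⟩,
   ⟨⟨B.rf21k59,
   B.rf20k57⟩,
   ⟨B.rf13k87,
   ⟨B.rf13k24,
   B.rf19k32⟩⟩⟩⟩⟩

theorem cw_1191 : cfgs_1191.All CfgW :=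
  all_cfgW (by decide +kernel) ⟨⟨⟨⟨B.rf19k33,
   B.rf19k34⟩,
   ⟨B.rf19k103,
   B.rf0k195⟩⟩,
   ⟨⟨B.rf13k25,
   B.rf6k189⟩,
   ⟨B.rf34k9,
   ⟨B.rf38k13,
   B.rf41k0⟩⟩⟩⟩,
   ⟨⟨⟨B.rf3k64,
   B.rf34k8⟩,
   ⟨B.rf36k24,
   B.rf38k14⟩⟩,
   ⟨⟨B.rf36k25,
   B.rf38k15⟩,
   ⟨B.rf3k90,
   ⟨B.rf43k2,
   B.rf6k167⟩⟩⟩⟩⟩

theorem cw_1209 : cfgs_1209.All CfgW :=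
  all_cfgW (by decide +kernel) ⟨⟨⟨⟨B.rf43k5,
   B.rf1k176⟩,
   ⟨B.rf6k199,
   B.rf41k8⟩⟩,
   ⟨⟨B.rf30k2,
   B.rf0k161⟩,
   ⟨B.rf35k6,
   B.rf6k171⟩⟩⟩,
   ⟨⟨⟨B.rf43k3,
   B.rf44k3⟩,
   ⟨B.rf12k73,
   B.rf44k4⟩⟩,
   ⟨⟨B.rf1k47,
   B.rf30k3⟩,
   ⟨B.rf39k8,
   ⟨B.rf6k158,
   B.rf45k0⟩⟩⟩⟩⟩

theorem cw_1226 : cfgs_1226.All CfgW :=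
  all_cfgW (by decide +kernel) ⟨⟨⟨⟨B.rf3k107,
   B.rf34k5⟩,
   ⟨B.rf36k9,
   B.rf0k264⟩⟩,
   ⟨⟨B.rf0k91,
   B.rf38k16⟩,
   ⟨B.rf36k26,
   ⟨B.rf35k7,
   B.rf1k229⟩⟩⟩⟩,
   ⟨⟨⟨B.rf31k15,
   B.rf42k5⟩,
   ⟨B.rf1k210,
   B.rf38k17⟩⟩,
   ⟨⟨B.rf42k8,
   B.rf0k230⟩,
   ⟨B.rf31k16,
   ⟨B.rf42k9,
   B.rf38k2⟩⟩⟩⟩⟩

theorem cw_1244 : cfgs_1244.All CfgW :=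
  all_cfgW (by decide +kernel) ⟨⟨⟨⟨B.rf1k114,
   B.rf30k19⟩,
   ⟨B.rf6k202,
   B.rf1k65⟩⟩,
   ⟨⟨B.rf6k168,
   B.rf43k7⟩,
   ⟨B.rf3k219,
   ⟨B.rf38k18,
   B.rf41k9⟩⟩⟩⟩,
   ⟨⟨⟨B.rf1k48,
   B.rf43k6⟩,
   ⟨B.rf35k0,
   B.rf3k81⟩⟩,
   ⟨⟨B.rf38k3,
   B.rf32k4⟩,
   ⟨B.rf33k1,
   ⟨B.rf30k20,
   B.rf33k12⟩⟩⟩⟩⟩

theorem cw_1262 : cfgs_1262.All CfgW :=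
  all_cfgW (by decide +kernel) ⟨⟨⟨⟨B.rf1k160,
   B.rf31k17⟩,
   ⟨B.rf30k21,
   B.rf0k231⟩⟩,
   ⟨⟨B.rf36k27,
   B.rf44k6⟩,
   ⟨B.rf37k16,
   ⟨B.rf0k13,
   B.rf36k10⟩⟩⟩⟩,
   ⟨⟨⟨B.rf36k11,
   B.rf3k185⟩,
   ⟨B.rf1k211,
   B.rf43k8⟩⟩,
   ⟨⟨B.rf0k125,
   B.rf33k9⟩,
   ⟨B.rf35k8,
   ⟨B.rf42k10,
   B.rf32k5⟩⟩⟩⟩⟩


end Pool.Agent.Lib.G6.Z
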