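import Pool.Agent.Lib.G6.All
import Pool.Agent.Lib.G6D.ZCfgs
import Pool.Agent.Lib.G6D.RFP0
import Pool.Agent.Lib.G6D.RFP1
import Pool.Agent.Lib.G6D.RFP10
import Pool.Agent.Lib.G6D.RFP11
import Pool.Agent.Lib.G6D.RFP2
import Pool.Agent.Lib.G6D.RFP3
import Pool.Agent.Lib.G6D.RFP7
import Pool.Agent.Lib.G6D.RFP8
import Pool.Agent.Lib.G6D.RFP9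

set_option autoImplicit false
set_option maxRecDepth 100000
set_option linter.all false

namespace Pool.Agent.Lib.G6.Z

open Pool.Agent.Lib.G6 Pool.Agent.Lib.G6.K
open Pool.Agent.Lib.MP_bfaad3_co (BT)

theorem cw_1280 : cfgs_1280.All CfgW :=
  all_cfgW (by decide +kernel) ⟨⟨⟨⟨B.rf29k10,
   B.rf36k12⟩,
   ⟨B.rf36k13,
   B.rf30k22⟩⟩,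
   ⟨⟨B.rf0k352,
   B.rf44k5⟩,
   ⟨B.rf1k177,
   B.rf40k12⟩⟩⟩,
   ⟨⟨⟨B.rf31k7,
   B.rf1k123⟩,
   ⟨B.rf35k9,
   B.rf3k65⟩⟩,
   ⟨⟨B.rf3k118,
   B.rf1k86⟩,
   ⟨B.rf35k10,
   ⟨B.rf30k4,
   B.rf0k12⟩⟩⟩⟩⟩

theorem cw_1297 : cfgs_1297.All CfgW :=
  all_cfgW (by decide +kernel) ⟨⟨⟨⟨B.rf0k88,
   B.rf0k11⟩,
   ⟨B.rf0k93,
   B.rf0k81⟩⟩,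
   ⟨⟨B.rf0k96,
   B.rf0k364⟩,
   ⟨B.rf12k68,
   ⟨B.rf0k289,
   B.rf0k300⟩⟩⟩⟩,
   ⟨⟨⟨B.rf0k343,
   B.rf0k349⟩,
   ⟨B.rf0k363,
   B.rf0k344⟩⟩,
   ⟨⟨B.rf0k345,
   B.rf0k346⟩,
   ⟨B.rf1k39,
   ⟨B.rf0k316,
   B.rf0k354⟩⟩⟩⟩⟩

theorem cw_1315 : cfgs_1315.All CfgW :=
  all_cfgW (by decide +kernel) ⟨⟨⟨⟨B.rf0k304,
   B.rf1k18⟩,
   ⟨B.rf3k105,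
   B.rf0k321⟩⟩,
   ⟨⟨B.rf0k371,
   B.rf1k36⟩,
   ⟨B.rf1k26,
   ⟨B.rf1k23,
   B.rf0k372⟩⟩⟩⟩,
   ⟨⟨⟨B.rf0k336,
   B.rf0k317⟩,
   ⟨B.rf3k210,
   B.rf0k373⟩⟩,
   ⟨⟨B.rf1k31,
   B.rf1k19⟩,
   ⟨B.rf1k6,
   ⟨B.rf1k59,
   B.rf1k7⟩⟩⟩⟩⟩

theorem cw_1333 : cfgs_1333.All CfgW :=
  all_cfgW (by decide +kernel) ⟨⟨⟨⟨B.rf0k320,
   B.rf0k307⟩,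
   ⟨B.rf0k299,
   B.rf0k341⟩⟩,
   ⟨⟨B.rf0k339,
   B.rf0k332⟩,
   ⟨B.rf1k1,
   ⟨B.rf0k374,
   B.rf0k356⟩⟩⟩⟩,
   ⟨⟨⟨B.rf6k209,
   B.rf2k242⟩,
   ⟨B.rf2k23,
   B.rf2k221⟩⟩,
   ⟨⟨B.rf2k248,
   B.rf2k146⟩,
   ⟨B.rf2k109,
   ⟨B.rf2k119,
   B.rf2k82⟩⟩⟩⟩⟩

theorem cw_1351 : cfgs_1351.All CfgW :=
  all_cfgW (by decide +kernel) ⟨⟨⟨⟨B.rf1k391,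
   B.rf1k334⟩,
   ⟨B.rf2k70,
   B.rf1k333⟩⟩,
   ⟨⟨B.rf1k396,
   B.rf2k69⟩,
   ⟨B.rf2k81,
   B.rf3k314⟩⟩⟩,
   ⟨⟨⟨B.rf1k398,
   B.rf2k113⟩,
   ⟨B.rf1k399,
   B.rf2k188⟩⟩,
   ⟨⟨B.rf2k112,
   B.rf2k228⟩,
   ⟨B.rf2k62,
   ⟨B.rf2k163,
   B.rf2k102⟩⟩⟩⟩⟩

theorem cw_1368 : cfgs_1368.All CfgW :=
  all_cfgW (by decide +kernel) ⟨⟨⟨⟨B.rf1k374,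
   B.rf1k329⟩,
   ⟨B.rf2k240,
   B.rf2k74⟩⟩,
   ⟨⟨B.rf0k211,
   B.rf3k12⟩,
   ⟨B.rf0k55,
   ⟨B.rf2k198,
   B.rf3k147⟩⟩⟩⟩,
   ⟨⟨⟨B.rf2k265,
   B.rf3k42⟩,
   ⟨B.rf2k266,
   B.rf1k420⟩⟩,
   ⟨⟨B.rf2k199,
   B.rf3k40⟩,
   ⟨B.rf3k16,
   ⟨B.rf1k349,
   B.rf2k151⟩⟩⟩⟩⟩

theorem cw_1386 : cfgs_1386.All CfgW :=
  all_cfgW (by decide +kernel) ⟨⟨⟨⟨B.rf1k426,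
   B.rf2k182⟩,
   ⟨B.rf2k39,
   B.rf3k21⟩⟩,
   ⟨⟨B.rf3k34,
   B.rf3k150⟩,
   ⟨B.rf1k392,
   ⟨B.rf2k44,
   B.rf1k233⟩⟩⟩⟩,
   ⟨⟨⟨B.rf2k215,
   B.rf3k20⟩,
   ⟨B.rf2k132,
   B.rf2k255⟩⟩,
   ⟨⟨B.rf3k6,
   B.rf1k311⟩,
   ⟨B.rf1k405,
   ⟨B.rf1k116,
   B.rf2k249⟩⟩⟩⟩⟩

theorem cw_1404 : cfgs_1404.All CfgW :=
  all_cfgW (by decide +kernel) ⟨⟨⟨⟨B.rf3k244,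
   B.rf2k262⟩,
   ⟨B.rf2k216,
   B.rf3k148⟩⟩,
   ⟨⟨B.rf1k361,
   B.rf6k163⟩,
   ⟨B.rf2k251,
   ⟨B.rf3k208,
   B.rf1k421⟩⟩⟩⟩,
   ⟨⟨⟨B.rf3k19,
   B.rf2k14⟩,
   ⟨B.rf3k4,
   B.rf2k180⟩⟩,
   ⟨⟨B.rf0k198,
   B.rf2k223⟩,
   ⟨B.rf1k419,
   ⟨B.rf1k236,
   B.rf1k322⟩⟩⟩⟩⟩

theorem cw_1422 : cfgs_1422.All CfgW :=
  all_cfgW (by decide +kernel) ⟨⟨⟨⟨B.rf2k181,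
   B.rf3k50⟩,
   ⟨B.rf2k159,
   B.rf3k31⟩⟩,
   ⟨⟨B.rf2k0,
   B.rf2k260⟩,
   ⟨B.rf3k0,
   B.rf3k53⟩⟩⟩,
   ⟨⟨⟨B.rf1k389,
   B.rf2k236⟩,
   ⟨B.rf2k256,
   B.rf12k59⟩⟩,
   ⟨⟨B.rf1k364,
   B.rf1k312⟩,
   ⟨B.rf2k224,
   ⟨B.rf2k189,
   B.rf2k231⟩⟩⟩⟩⟩

theorem cw_1439 : cfgs_1439.All CfgW :=
  all_cfgW (by decide +kernel) ⟨⟨⟨⟨B.rf1k365,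
   B.rf1k323⟩,
   ⟨B.rf1k350,
   B.rf2k232⟩⟩,
   ⟨⟨B.rf1k378,
   B.rf3k10⟩,
   ⟨B.rf1k379,
   ⟨B.rf1k351,
   B.rf2k263⟩⟩⟩⟩,
   ⟨⟨⟨B.rf1k352,
   B.rf1k422⟩,
   ⟨B.rf3k245,
   B.rf2k30⟩⟩,
   ⟨⟨B.rf2k133,
   B.rf1k406⟩,
   ⟨B.rf1k313,
   ⟨B.rf2k200,
   B.rf1k407⟩⟩⟩⟩⟩

theorem cw_1457 : cfgs_1457.All CfgW :=
  all_cfgW (by decide +kernel) ⟨⟨⟨⟨B.rf2k134,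
   B.rf2k218⟩,
   ⟨B.rf1k353,
   B.rf2k237⟩⟩,
   ⟨⟨B.rf2k246,
   B.rf2k54⟩,
   ⟨B.rf2k92,
   ⟨B.rf2k76,
   B.rf2k52⟩⟩⟩⟩,
   ⟨⟨⟨B.rf1k380,
   B.rf2k55⟩,
   ⟨B.rf1k308,
   B.rf4k38⟩⟩,
   ⟨⟨B.rf1k340,
   B.rf2k88⟩,
   ⟨B.rf4k277,
   ⟨B.rf3k315,
   B.rf4k93⟩⟩⟩⟩⟩

theorem cw_1475 : cfgs_1475.All CfgW :=
  all_cfgW (by decide +kernel) ⟨⟨⟨⟨B.rf5k186,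
   B.rf5k116⟩,
   ⟨B.rf5k33,
   B.rf4k92⟩⟩,
   ⟨⟨B.rf4k58,
   B.rf5k29⟩,
   ⟨B.rf4k57,
   ⟨B.rf5k173,
   B.rf9k84⟩⟩⟩⟩,
   ⟨⟨⟨B.rf1k55,
   B.rf5k112⟩,
   ⟨B.rf1k42,
   B.rf5k259⟩⟩,
   ⟨⟨B.rf5k177,
   B.rf1k41⟩,
   ⟨B.rf4k267,
   ⟨B.rf4k258,
   B.rf1k104⟩⟩⟩⟩⟩

theorem cw_1493 : cfgs_1493.All CfgW :=
  all_cfgW (by decide +kernel) ⟨⟨⟨⟨B.rf5k24,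
   B.rf3k301⟩,
   ⟨B.rf4k39,
   B.rf3k302⟩⟩,
   ⟨⟨B.rf4k56,
   B.rf4k215⟩,
   ⟨B.rf6k41,
   B.rf5k16⟩⟩⟩,
   ⟨⟨⟨B.rf5k180,
   B.rf4k47⟩,
   ⟨B.rf4k259,
   B.rf4k48⟩⟩,
   ⟨⟨B.rf0k209,
   B.rf4k133⟩,
   ⟨B.rf5k174,
   ⟨B.rf4k260,
   B.rf4k52⟩⟩⟩⟩⟩

theorem cw_1510 : cfgs_1510.All CfgW :=
  all_cfgW (by decide +kernel) ⟨⟨⟨⟨B.rf0k255,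
   B.rf4k33⟩,
   ⟨B.rf9k24,
   B.rf4k142⟩⟩,
   ⟨⟨B.rf5k181,
   B.rf4k49⟩,
   ⟨B.rf4k89,
   ⟨B.rf5k19,
   B.rf5k182⟩⟩⟩⟩,
   ⟨⟨⟨B.rf5k20,
   B.rf3k309⟩,
   ⟨B.rf3k310,
   B.rf3k275⟩⟩,
   ⟨⟨B.rf3k272,
   B.rf3k303⟩,
   ⟨B.rf4k276,
   ⟨B.rf1k282,
   B.rf6k92⟩⟩⟩⟩⟩

theorem cw_1528 : cfgs_1528.All CfgW :=
  all_cfgW (by decide +kernel) ⟨⟨⟨⟨B.rf5k218,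
   B.rf0k38⟩,
   ⟨B.rf6k174,
   B.rf6k46⟩⟩,
   ⟨⟨B.rf6k99,
   B.rf6k104⟩,
   ⟨B.rf5k271,
   ⟨B.rf1k143,
   B.rf5k294⟩⟩⟩⟩,
   ⟨⟨⟨B.rf0k232,
   B.rf4k199⟩,
   ⟨B.rf5k150,
   B.rf0k245⟩⟩,
   ⟨⟨B.rf6k110,
   B.rf4k3⟩,
   ⟨B.rf6k93,
   ⟨B.rf6k40,
   B.rf3k171⟩⟩⟩⟩⟩

theorem cw_1546 : cfgs_1546.All CfgW :=
  all_cfgW (by decide +kernel) ⟨⟨⟨⟨B.rf4k4,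
   B.rf4k200⟩,
   ⟨B.rf4k201,
   B.rf1k124⟩⟩,
   ⟨⟨B.rf5k295,
   B.rf0k56⟩,
   ⟨B.rf5k296,
   ⟨B.rf5k83,
   B.rf1k66⟩⟩⟩⟩,
   ⟨⟨⟨B.rf0k271,
   B.rf5k219⟩,
   ⟨B.rf6k132,
   B.rf4k228⟩⟩,
   ⟨⟨B.rf6k183,
   B.rf4k168⟩,
   ⟨B.rf0k140,
   ⟨B.rf6k187,
   B.rf6k78⟩⟩⟩⟩⟩

theorem cw_1564 : cfgs_1564.All CfgW :=
  all_cfgW (by decide +kernel) ⟨⟨⟨⟨B.rf1k178,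
   B.rf5k151⟩,
   ⟨B.rf4k187,
   B.rf4k226⟩⟩,
   ⟨⟨B.rf6k79,
   B.rf0k173⟩,
   ⟨B.rf3k142,
   B.rf5k297⟩⟩⟩,
   ⟨⟨⟨B.rf0k201,
   B.rf4k111⟩,
   ⟨B.rf5k328,
   B.rf5k220⟩⟩,
   ⟨⟨B.rf4k83,
   B.rf4k237⟩,
   ⟨B.rf5k84,
   ⟨B.rf1k73,
   B.rf5k329⟩⟩⟩⟩⟩

theorem cw_1581 : cfgs_1581.All CfgW :=
  all_cfgW (by decide +kernel) ⟨⟨⟨⟨B.rf4k169,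
   B.rf4k219⟩,
   ⟨B.rf5k272,
   B.rf4k112⟩⟩,
   ⟨⟨B.rf4k202,
   B.rf1k144⟩,
   ⟨B.rf4k220,
   ⟨B.rf4k253,
   B.rf4k5⟩⟩⟩⟩,
   ⟨⟨⟨B.rf4k113,
   B.rf6k64⟩,
   ⟨B.rf4k6,
   B.rf4k7⟩⟩,
   ⟨⟨B.rf5k85,
   B.rf0k23⟩,
   ⟨B.rf1k239,
   ⟨B.rf6k29,
   B.rf7k23⟩⟩⟩⟩⟩

theorem cw_1599 : cfgs_1599.All CfgW :=
  all_cfgW (by decide +kernel) ⟨⟨⟨⟨B.rf5k8,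
   B.rf5k86⟩,
   ⟨B.rf5k9,
   B.rf3k138⟩⟩,
   ⟨⟨B.rf4k213,
   B.rf4k233⟩,
   ⟨B.rf4k149,
   ⟨B.rf3k54,
   B.rf5k282⟩⟩⟩⟩,
   ⟨⟨⟨B.rf3k137,
   B.rf5k317⟩,
   ⟨B.rf4k221,
   B.rf4k210⟩⟩,
   ⟨⟨B.rf6k211,
   B.rf4k177⟩,
   ⟨B.rf0k272,
   ⟨B.rf4k8,
   B.rf6k96⟩⟩⟩⟩⟩

theorem cw_1617 : cfgs_1617.All CfgW :=
  all_cfgW (by decide +kernel) ⟨⟨⟨⟨B.rf5k273,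
   B.rf6k0⟩,
   ⟨B.rf4k193,
   B.rf4k9⟩⟩,
   ⟨⟨B.rf6k1,
   B.rf4k114⟩,
   ⟨B.rf4k203,
   ⟨B.rf5k221,
   B.rf4k115⟩⟩⟩⟩,
   ⟨⟨⟨B.rf4k116,
   B.rf3k295⟩,
   ⟨B.rf3k232,
   B.rf0k126⟩⟩,
   ⟨⟨B.rf6k50,
   B.rf3k55⟩,
   ⟨B.rf6k17,
   ⟨B.rf6k86,
   B.rf4k204⟩⟩⟩⟩⟩

theorem cw_1635 : cfgs_1635.All CfgW :=
  all_cfgW (by decide +kernel) ⟨⟨⟨⟨B.rf4k205,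
   B.rf4k10⟩,
   ⟨B.rf6k87,
   B.rf5k10⟩⟩,
   ⟨⟨B.rf4k241,
   B.rf4k188⟩,
   ⟨B.rf5k274,
   ⟨B.rf5k275,
   B.rf5k222⟩⟩⟩⟩,
   ⟨⟨⟨B.rf3k257,
   B.rf5k223⟩,
   ⟨B.rf4k170,
   B.rf5k87⟩⟩,
   ⟨⟨B.rf4k11,
   B.rf5k88⟩,
   ⟨B.rf5k276,
   ⟨B.rf4k230,
   B.rf4k206⟩⟩⟩⟩⟩

theorem cw_1653 : cfgs_1653.All CfgW :=
  all_cfgW (by decide +kernel) ⟨⟨⟨⟨B.rf6k30,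
   B.rf4k150⟩,
   ⟨B.rf5k11,
   B.rf5k152⟩⟩,
   ⟨⟨B.rf5k224,
   B.rf12k61⟩,
   ⟨B.rf6k31,
   ⟨B.rf5k89,
   B.rf9k172⟩⟩⟩⟩,
   ⟨⟨⟨B.rf9k173,
   B.rf4k117⟩,
   ⟨B.rf0k30,
   B.rf6k2⟩⟩,
   ⟨⟨B.rf4k96,
   B.rf4k181⟩,
   ⟨B.rf5k47,
   ⟨B.rf3k280,
   B.rf4k282⟩⟩⟩⟩⟩

theorem cw_1671 : cfgs_1671.All CfgW :=
  all_cfgW (by decide +kernel) ⟨⟨⟨⟨B.rf9k31,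
   B.rf0k233⟩,
   ⟨B.rf6k24,
   B.rf5k129⟩⟩,
   ⟨⟨B.rf5k130,
   B.rf3k131⟩,
   ⟨B.rf0k141,
   ⟨B.rf4k217,
   B.rf0k127⟩⟩⟩⟩,
   ⟨⟨⟨B.rf4k151,
   B.rf4k160⟩,
   ⟨B.rf5k192,
   B.rf5k131⟩⟩,
   ⟨⟨B.rf6k52,
   B.rf5k132⟩,
   ⟨B.rf3k327,
   ⟨B.rf4k97,
   B.rf5k133⟩⟩⟩⟩⟩

theorem cw_1689 : cfgs_1689.All CfgW :=
  all_cfgW (by decide +kernel) ⟨⟨⟨⟨B.rf5k262,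
   B.rf0k234⟩,
   ⟨B.rf4k98,
   B.rf6k58⟩⟩,
   ⟨⟨B.rf4k64,
   B.rf3k328⟩,
   ⟨B.rf3k329,
   ⟨B.rf5k90,
   B.rf7k132⟩⟩⟩⟩,
   ⟨⟨⟨B.rf4k283,
   B.rf4k284⟩,
   ⟨B.rf5k91,
   B.rf5k193⟩⟩,
   ⟨⟨B.rf3k330,
   B.rf4k161⟩,
   ⟨B.rf4k285,
   ⟨B.rf6k25,
   B.rf5k194⟩⟩⟩⟩⟩


end Pool.Agent.Lib.G6.Z
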