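import Pool.Agent.Lib.G6.All
import Pool.Agent.Lib.G6D.ZCfgs
import Pool.Agent.Lib.G6D.RFP0
import Pool.Agent.Lib.G6D.RFP1
import Pool.Agent.Lib.G6D.RFP2
import Pool.Agent.Lib.G6D.RFP3
import Pool.Agent.Lib.G6D.RFP4
import Pool.Agent.Lib.G6D.RFP5
import Pool.Agent.Lib.G6D.RFP6
import Pool.Agent.Lib.G6D.RFP7

set_option autoImplicit false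
set_option maxRecDepth 100000
set_option linter.all false

namespace Pool.Agent.Lib.G6.Z

open Pool.Agent.Lib.G6 Pool.Agent.Lib.G6.K
open Pool.Agent.Lib.MP_bfaad3_co (BT)

theorem cw_1707 : cfgs_1707.All CfgW :=
  all_cfgW (by decide +kernel) ⟨⟨⟨⟨B.rf3k331,
   B.rf5k12⟩,
   ⟨B.rf3k255,
   B.rf5k48⟩⟩,
   ⟨⟨B.rf4k99,
   B.rf4k144⟩,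
   ⟨B.rf6k53,
   B.rf3k332⟩⟩⟩,
   ⟨⟨⟨B.rf4k145,
   B.rf15k35⟩,
   ⟨B.rf7k110,
   B.rf5k134⟩⟩,
   ⟨⟨B.rf3k281,
   B.rf3k282⟩,
   ⟨B.rf3k333,
   ⟨B.rf5k49,
   B.rf5k50⟩⟩⟩⟩⟩

theorem cw_1724 : cfgs_1724.All CfgW :=
  all_cfgW (by decide +kernel) ⟨⟨⟨⟨B.rf7k166,
   B.rf9k20⟩,
   ⟨B.rf9k180,
   B.rf7k233⟩⟩,
   ⟨⟨B.rf3k233,
   B.rf8k4⟩,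
   ⟨B.rf9k190,
   ⟨B.rf9k166,
   B.rf3k114⟩⟩⟩⟩,
   ⟨⟨⟨B.rf10k25,
   B.rf7k33⟩,
   ⟨B.rf7k34,
   B.rf9k27⟩⟩,
   ⟨⟨B.rf0k197,
   B.rf3k56⟩,
   ⟨B.rf10k36,
   ⟨B.rf7k111,
   B.rf7k15⟩⟩⟩⟩⟩

theorem cw_1742 : cfgs_1742.All CfgW :=
  all_cfgW (by decide +kernel) ⟨⟨⟨⟨B.rf7k16,
   B.rf3k135⟩,
   ⟨B.rf9k164,
   B.rf7k124⟩⟩,
   ⟨⟨B.rf8k73,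
   B.rf7k112⟩,
   ⟨B.rf9k35,
   ⟨B.rf6k216,
   B.rf7k238⟩⟩⟩⟩,
   ⟨⟨⟨B.rf7k169,
   B.rf9k186⟩,
   ⟨B.rf11k5,
   B.rf7k27⟩⟩,
   ⟨⟨B.rf9k10,
   B.rf9k11⟩,
   ⟨B.rf9k28,
   ⟨B.rf9k167,
   B.rf8k120⟩⟩⟩⟩⟩

theorem cw_1760 : cfgs_1760.All CfgW :=
  all_cfgW (by decide +kernel) ⟨⟨⟨⟨B.rf7k172,
   B.rf7k106⟩,
   ⟨B.rf9k29,
   B.rf10k130⟩⟩,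
   ⟨⟨B.rf7k125,
   B.rf9k36⟩,
   ⟨B.rf12k79,
   ⟨B.rf9k174,
   B.rf6k222⟩⟩⟩⟩,
   ⟨⟨⟨B.rf9k79,
   B.rf11k119⟩,
   ⟨B.rf10k91,
   B.rf11k69⟩⟩,
   ⟨⟨B.rf1k145,
   B.rf10k9⟩,
   ⟨B.rf8k85,
   ⟨B.rf10k92,
   B.rf7k94⟩⟩⟩⟩⟩

theorem cw_1778 : cfgs_1778.All CfgW :=
  all_cfgW (by decide +kernel) ⟨⟨⟨⟨B.rf0k128,
   B.rf11k96⟩,
   ⟨B.rf1k179,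
   B.rf8k20⟩⟩,
   ⟨⟨B.rf12k5,
   B.rf11k70⟩,
   ⟨B.rf3k119,
   B.rf11k71⟩⟩⟩,
   ⟨⟨⟨B.rf1k180,
   B.rf8k102⟩,
   ⟨B.rf11k26,
   B.rf8k86⟩⟩,
   ⟨⟨B.rf3k146,
   B.rf7k231⟩,
   ⟨B.rf10k93,
   ⟨B.rf3k214,
   B.rf11k97⟩⟩⟩⟩⟩

theorem cw_1795 : cfgs_1795.All CfgW :=
  all_cfgW (by decide +kernel) ⟨⟨⟨⟨B.rf11k72,
   B.rf6k153⟩,
   ⟨B.rf10k127,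
   B.rf6k178⟩⟩,
   ⟨⟨B.rf10k203,
   B.rf9k5⟩,
   ⟨B.rf1k166,
   ⟨B.rf8k156,
   B.rf10k10⟩⟩⟩⟩,
   ⟨⟨⟨B.rf3k242,
   B.rf8k151⟩,
   ⟨B.rf9k143,
   B.rf1k125⟩⟩,
   ⟨⟨B.rf10k28,
   B.rf1k240⟩,
   ⟨B.rf10k94,
   ⟨B.rf10k95,
   B.rf1k181⟩⟩⟩⟩⟩

theorem cw_1813 : cfgs_1813.All CfgW :=
  all_cfgW (by decide +kernel) ⟨⟨⟨⟨B.rf12k47,
   B.rf1k182⟩,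
   ⟨B.rf3k252,
   B.rf8k137⟩⟩,
   ⟨⟨B.rf3k120,
   B.rf7k216⟩,
   ⟨B.rf0k174,
   ⟨B.rf2k6,
   B.rf1k224⟩⟩⟩⟩,
   ⟨⟨⟨B.rf11k130,
   B.rf1k265⟩,
   ⟨B.rf11k84,
   B.rf4k189⟩⟩,
   ⟨⟨B.rf9k68,
   B.rf7k217⟩,
   ⟨B.rf3k91,
   ⟨B.rf11k73,
   B.rf11k27⟩⟩⟩⟩⟩

theorem cw_1831 : cfgs_1831.All CfgW :=
  all_cfgW (by decide +kernel) ⟨⟨⟨⟨B.rf10k11,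
   B.rf3k151⟩,
   ⟨B.rf8k123,
   B.rf7k156⟩⟩,
   ⟨⟨B.rf8k45,
   B.rf1k146⟩,
   ⟨B.rf3k237,
   ⟨B.rf12k35,
   B.rf0k278⟩⟩⟩⟩,
   ⟨⟨⟨B.rf1k247,
   B.rf10k204⟩,
   ⟨B.rf1k147,
   B.rf10k205⟩⟩,
   ⟨⟨B.rf10k155,
   B.rf20k28⟩,
   ⟨B.rf6k137,
   ⟨B.rf11k107,
   B.rf7k218⟩⟩⟩⟩⟩

theorem cw_1849 : cfgs_1849.All CfgW :=
  all_cfgW (by decide +kernel) ⟨⟨⟨⟨B.rf3k211,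
   B.rf11k120⟩,
   ⟨B.rf6k131,
   B.rf10k96⟩⟩,
   ⟨⟨B.rf9k144,
   B.rf9k145⟩,
   ⟨B.rf7k95,
   B.rf12k53⟩⟩⟩,
   ⟨⟨⟨B.rf12k41,
   B.rf1k279⟩,
   ⟨B.rf12k38,
   B.rf6k113⟩⟩,
   ⟨⟨B.rf10k124,
   B.rf12k64⟩,
   ⟨B.rf11k133,
   ⟨B.rf7k219,
   B.rf10k167⟩⟩⟩⟩⟩

theorem cw_1866 : cfgs_1866.All CfgW :=
  all_cfgW (by decide +kernel) ⟨⟨⟨⟨B.rf10k12,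
   B.rf9k146⟩,
   ⟨B.rf8k62,
   B.rf1k266⟩⟩,
   ⟨⟨B.rf1k37,
   B.rf1k291⟩,
   ⟨B.rf12k62,
   ⟨B.rf8k21,
   B.rf11k86⟩⟩⟩⟩,
   ⟨⟨⟨B.rf3k92,
   B.rf11k28⟩,
   ⟨B.rf1k87,
   B.rf12k23⟩⟩,
   ⟨⟨B.rf10k206,
   B.rf10k97⟩,
   ⟨B.rf14k74,
   ⟨B.rf10k156,
   B.rf10k13⟩⟩⟩⟩⟩

theorem cw_1884 : cfgs_1884.All CfgW :=
  all_cfgW (by decide +kernel) ⟨⟨⟨⟨B.rf7k96,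
   B.rf10k98⟩,
   ⟨B.rf10k14,
   B.rf1k35⟩⟩,
   ⟨⟨B.rf11k29,
   B.rf1k88⟩,
   ⟨B.rf3k220,
   ⟨B.rf9k2,
   B.rf12k45⟩⟩⟩⟩,
   ⟨⟨⟨B.rf8k143,
   B.rf8k106⟩,
   ⟨B.rf8k149,
   B.rf8k46⟩⟩,
   ⟨⟨B.rf11k38,
   B.rf1k89⟩,
   ⟨B.rf9k147,
   ⟨B.rf8k47,
   B.rf3k225⟩⟩⟩⟩⟩

theorem cw_1902 : cfgs_1902.All CfgW :=
  all_cfgW (by decide +kernel) ⟨⟨⟨⟨B.rf11k98,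
   B.rf3k229⟩,
   ⟨B.rf8k122,
   B.rf10k157⟩⟩,
   ⟨⟨B.rf10k99,
   B.rf11k121⟩,
   ⟨B.rf10k100,
   ⟨B.rf0k142,
   B.rf1k90⟩⟩⟩⟩,
   ⟨⟨⟨B.rf3k230,
   B.rf8k157⟩,
   ⟨B.rf10k15,
   B.rf10k101⟩⟩,
   ⟨⟨B.rf10k16,
   B.rf10k102⟩,
   ⟨B.rf10k103,
   ⟨B.rf1k99,
   B.rf3k249⟩⟩⟩⟩⟩

theorem cw_1920 : cfgs_1920.All CfgW :=
  all_cfgW (by decide +kernel) ⟨⟨⟨⟨B.rf12k17,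
   B.rf10k207⟩,
   ⟨B.rf7k220,
   B.rf9k148⟩⟩,
   ⟨⟨B.rf9k69,
   B.rf9k15⟩,
   ⟨B.rf8k57,
   ⟨B.rf10k134,
   B.rf10k57⟩⟩⟩⟩,
   ⟨⟨⟨B.rf7k3,
   B.rf10k58⟩,
   ⟨B.rf10k180,
   B.rf7k139⟩⟩,
   ⟨⟨B.rf3k48,
   B.rf8k78⟩,
   ⟨B.rf11k89,
   ⟨B.rf10k135,
   B.rf8k34⟩⟩⟩⟩⟩

theorem cw_1938 : cfgs_1938.All CfgW :=
  all_cfgW (by decide +kernel) ⟨⟨⟨⟨B.rf1k183,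
   B.rf8k97⟩,
   ⟨B.rf9k96,
   B.rf1k91⟩⟩,
   ⟨⟨B.rf1k112,
   B.rf10k17⟩,
   ⟨B.rf8k152,
   ⟨B.rf0k208,
   B.rf10k59⟩⟩⟩⟩,
   ⟨⟨⟨B.rf7k183,
   B.rf11k2⟩,
   ⟨B.rf11k10,
   B.rf8k11⟩⟩,
   ⟨⟨B.rf11k90,
   B.rf2k201⟩,
   ⟨B.rf7k184,
   ⟨B.rf10k181,
   B.rf6k179⟩⟩⟩⟩⟩

theorem cw_1956 : cfgs_1956.All CfgW :=
  all_cfgW (by decide +kernel) ⟨⟨⟨⟨B.rf11k46,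
   B.rf10k182⟩,
   ⟨B.rf11k145,
   B.rf0k43⟩⟩,
   ⟨⟨B.rf8k79,
   B.rf7k185⟩,
   ⟨B.rf1k212,
   ⟨B.rf7k186,
   B.rf11k112⟩⟩⟩⟩,
   ⟨⟨⟨B.rf8k80,
   B.rf7k51⟩,
   ⟨B.rf9k200,
   B.rf1k234⟩⟩,
   ⟨⟨B.rf9k201,
   B.rf1k92⟩,
   ⟨B.rf9k97,
   ⟨B.rf10k183,
   B.rf3k66⟩⟩⟩⟩⟩

theorem cw_1974 : cfgs_1974.All CfgW :=
  all_cfgW (by decide +kernel) ⟨⟨⟨⟨B.rf10k184,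
   B.rf9k3⟩,
   ⟨B.rf3k67,
   B.rf8k58⟩⟩,
   ⟨⟨B.rf8k142,
   B.rf11k47⟩,
   ⟨B.rf7k52,
   ⟨B.rf7k53,
   B.rf10k136⟩⟩⟩⟩,
   ⟨⟨⟨B.rf9k47,
   B.rf9k202⟩,
   ⟨B.rf11k11,
   B.rf10k137⟩⟩,
   ⟨⟨B.rf9k203,
   B.rf10k60⟩,
   ⟨B.rf9k48,
   ⟨B.rf9k98,
   B.rf3k121⟩⟩⟩⟩⟩

theorem cw_1992 : cfgs_1992.All CfgW :=
  all_cfgW (by decide +kernel) ⟨⟨⟨⟨B.rf19k88,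
   B.rf3k122⟩,
   ⟨B.rf10k185,
   B.rf10k61⟩⟩,
   ⟨⟨B.rf11k12,
   B.rf8k35⟩,
   ⟨B.rf8k59,
   B.rf9k204⟩⟩⟩,
   ⟨⟨⟨B.rf1k163,
   B.rf12k39⟩,
   ⟨B.rf9k99,
   B.rf7k140⟩⟩,
   ⟨⟨B.rf9k205,
   B.rf7k141⟩,
   ⟨B.rf11k48,
   ⟨B.rf7k187,
   B.rf0k188⟩⟩⟩⟩⟩

theorem cw_2009 : cfgs_2009.All CfgW :=
  all_cfgW (by decide +kernel) ⟨⟨⟨⟨B.rf7k142,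
   B.rf9k16⟩,
   ⟨B.rf9k100,
   B.rf7k54⟩⟩,
   ⟨⟨B.rf7k55,
   B.rf7k56⟩,
   ⟨B.rf7k57,
   ⟨B.rf9k49,
   B.rf7k58⟩⟩⟩⟩,
   ⟨⟨⟨B.rf10k62,
   B.rf8k60⟩,
   ⟨B.rf8k98,
   B.rf7k188⟩⟩,
   ⟨⟨B.rf20k32,
   B.rf7k59⟩,
   ⟨B.rf10k63,
   ⟨B.rf9k101,
   B.rf9k102⟩⟩⟩⟩⟩

theorem cw_2027 : cfgs_2027.All CfgW :=
  all_cfgW (by decide +kernel) ⟨⟨⟨⟨B.rf18k24,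
   B.rf9k103⟩,
   ⟨B.rf20k33,
   B.rf9k104⟩⟩,
   ⟨⟨B.rf9k50,
   B.rf10k138⟩,
   ⟨B.rf9k206,
   ⟨B.rf9k105,
   B.rf9k51⟩⟩⟩⟩,
   ⟨⟨⟨B.rf9k106,
   B.rf7k4⟩,
   ⟨B.rf9k107,
   B.rf9k52⟩⟩,
   ⟨⟨B.rf13k69,
   B.rf7k60⟩,
   ⟨B.rf0k221,
   ⟨B.rf9k53,
   B.rf7k189⟩⟩⟩⟩⟩

theorem cw_2045 : cfgs_2045.All CfgW :=
  all_cfgW (by decide +kernel) ⟨⟨⟨⟨B.rf7k61,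
   B.rf9k54⟩,
   ⟨B.rf8k12,
   B.rf10k139⟩⟩,
   ⟨⟨B.rf9k108,
   B.rf7k62⟩,
   ⟨B.rf22k30,
   ⟨B.rf9k109,
   B.rf19k89⟩⟩⟩⟩,
   ⟨⟨⟨B.rf14k11,
   B.rf20k40⟩,
   ⟨B.rf14k12,
   B.rf19k82⟩⟩,
   ⟨⟨B.rf21k5,
   B.rf13k12⟩,
   ⟨B.rf1k133,
   ⟨B.rf18k21,
   B.rf1k118⟩⟩⟩⟩⟩

theorem cw_2063 : cfgs_2063.All CfgW :=
  all_cfgW (by decide +kernel) ⟨⟨⟨⟨B.rf19k90,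
   B.rf13k15⟩,
   ⟨B.rf22k24,
   B.rf22k61⟩⟩,
   ⟨⟨B.rf15k10,
   B.rf13k70⟩,
   ⟨B.rf14k72,
   B.rf19k83⟩⟩⟩,
   ⟨⟨⟨B.rf1k218,
   B.rf6k192⟩,
   ⟨B.rf23k39,
   B.rf16k22⟩⟩,
   ⟨⟨B.rf14k79,
   B.rf21k45⟩,
   ⟨B.rf18k18,
   ⟨B.rf18k16,
   B.rf19k84⟩⟩⟩⟩⟩

theorem cw_2080 : cfgs_2080.All CfgW :=
  all_cfgW (by decide +kernel) ⟨⟨⟨⟨B.rf21k50,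
   B.rf13k79⟩,
   ⟨B.rf15k33,
   B.rf20k38⟩⟩,
   ⟨⟨B.rf19k91,
   B.rf13k71⟩,
   ⟨B.rf12k81,
   ⟨B.rf18k23,
   B.rf12k82⟩⟩⟩⟩,
   ⟨⟨⟨B.rf27k14,
   B.rf3k154⟩,
   ⟨B.rf16k11,
   B.rf23k26⟩⟩,
   ⟨⟨B.rf19k66,
   B.rf19k67⟩,
   ⟨B.rf24k8,
   ⟨B.rf0k235,
   B.rf1k267⟩⟩⟩⟩⟩

theorem cw_2098 : cfgs_2098.All CfgW :=
  all_cfgW (by decide +kernel) ⟨⟨⟨⟨B.rf1k49,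
   B.rf27k7⟩,
   ⟨B.rf0k175,
   B.rf15k50⟩⟩,
   ⟨⟨B.rf23k27,
   B.rf24k9⟩,
   ⟨B.rf23k28,
   ⟨B.rf16k12,
   B.rf14k60⟩⟩⟩⟩,
   ⟨⟨⟨B.rf0k63,
   B.rf1k148⟩,
   ⟨B.rf21k37,
   B.rf6k143⟩⟩,
   ⟨⟨B.rf18k10,
   B.rf0k68⟩,
   ⟨B.rf1k241,
   ⟨B.rf15k51,
   B.rf6k177⟩⟩⟩⟩⟩

theorem cw_2116 : cfgs_2116.All CfgW :=
  all_cfgW (by decide +kernel) ⟨⟨⟨⟨B.rf15k30,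
   B.rf1k100⟩,
   ⟨B.rf29k5,
   B.rf26k11⟩⟩,
   ⟨⟨B.rf17k3,
   B.rf18k3⟩,
   ⟨B.rf3k123,
   ⟨B.rf16k13,
   B.rf6k169⟩⟩⟩⟩,
   ⟨⟨⟨B.rf17k12,
   B.rf1k74⟩,
   ⟨B.rf3k172,
   B.rf15k52⟩⟩,
   ⟨⟨B.rf17k1,
   B.rf19k68⟩,
   ⟨B.rf21k38,
   ⟨B.rf19k69,
   B.rf20k87⟩⟩⟩⟩⟩


end Pool.Agent.Lib.G6.Z
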