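import Pool.Agent.Lib.G6.All
import Pool.Agent.Lib.G6D.ZCfgs
import Pool.Agent.Lib.G6D.RFP0
import Pool.Agent.Lib.G6D.RFP1
import Pool.Agent.Lib.G6D.RFP10
import Pool.Agent.Lib.G6D.RFP11
import Pool.Agent.Lib.G6D.RFP2
import Pool.Agent.Lib.G6D.RFP3
import Pool.Agent.Lib.G6D.RFP4
import Pool.Agent.Lib.G6D.RFP5
import Pool.Agent.Lib.G6D.RFP6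
import Pool.Agent.Lib.G6D.RFP7
import Pool.Agent.Lib.G6D.RFP8
import Pool.Agent.Lib.G6D.RFP9

set_option autoImplicit false
set_option maxRecDepth 100000
set_option linter.all false

namespace Pool.Agent.Lib.G6.Z

open Pool.Agent.Lib.G6 Pool.Agent.Lib.G6.K
open Pool.Agent.Lib.MP_bfaad3_co (BT)

theorem cw_2134 : cfgs_2134.All CfgW :=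
  all_cfgW (by decide +kernel) ⟨⟨⟨⟨B.rf1k184,
   B.rf3k93⟩,
   ⟨B.rf28k9,
   B.rf14k61⟩⟩,
   ⟨⟨B.rf3k132,
   B.rf24k34⟩,
   ⟨B.rf14k2,
   B.rf6k175⟩⟩⟩,
   ⟨⟨⟨B.rf26k19,
   B.rf1k268⟩,
   ⟨B.rf17k10,
   B.rf14k62⟩⟩,
   ⟨⟨B.rf24k35,
   B.rf28k8⟩,
   ⟨B.rf6k162,
   ⟨B.rf20k29,
   B.rf13k52⟩⟩⟩⟩⟩

theorem cw_2151 : cfgs_2151.All CfgW :=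
  all_cfgW (by decide +kernel) ⟨⟨⟨⟨B.rf1k252,
   B.rf20k88⟩,
   ⟨B.rf29k3,
   B.rf24k45⟩⟩,
   ⟨⟨B.rf25k0,
   B.rf23k29⟩,
   ⟨B.rf15k26,
   ⟨B.rf16k32,
   B.rf14k3⟩⟩⟩⟩,
   ⟨⟨⟨B.rf6k32,
   B.rf16k14⟩,
   ⟨B.rf16k33,
   B.rf14k63⟩⟩,
   ⟨⟨B.rf18k5,
   B.rf0k176⟩,
   ⟨B.rf3k161,
   ⟨B.rf22k49,
   B.rf1k50⟩⟩⟩⟩⟩

theorem cw_2169 : cfgs_2169.All CfgW :=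
  all_cfgW (by decide +kernel) ⟨⟨⟨⟨B.rf16k15,
   B.rf29k6⟩,
   ⟨B.rf15k31,
   B.rf24k10⟩⟩,
   ⟨⟨B.rf22k50,
   B.rf24k15⟩,
   ⟨B.rf14k20,
   ⟨B.rf19k35,
   B.rf14k21⟩⟩⟩⟩,
   ⟨⟨⟨B.rf1k93,
   B.rf28k12⟩,
   ⟨B.rf14k22,
   B.rf1k257⟩⟩,
   ⟨⟨B.rf19k36,
   B.rf23k30⟩,
   ⟨B.rf28k3,
   ⟨B.rf3k236,
   B.rf28k7⟩⟩⟩⟩⟩

theorem cw_2187 : cfgs_2187.All CfgW :=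
  all_cfgW (by decide +kernel) ⟨⟨⟨⟨B.rf22k31,
   B.rf20k58⟩,
   ⟨B.rf27k8,
   B.rf16k40⟩⟩,
   ⟨⟨B.rf19k104,
   B.rf26k12⟩,
   ⟨B.rf15k62,
   ⟨B.rf1k126,
   B.rf6k197⟩⟩⟩⟩,
   ⟨⟨⟨B.rf15k27,
   B.rf1k242⟩,
   ⟨B.rf16k41,
   B.rf1k67⟩⟩,
   ⟨⟨B.rf23k7,
   B.rf26k6⟩,
   ⟨B.rf26k21,
   ⟨B.rf3k189,
   B.rf26k13⟩⟩⟩⟩⟩

theorem cw_2205 : cfgs_2205.All CfgW :=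
  all_cfgW (by decide +kernel) ⟨⟨⟨⟨B.rf17k14,
   B.rf18k11⟩,
   ⟨B.rf1k223,
   B.rf25k21⟩⟩,
   ⟨⟨B.rf21k14,
   B.rf0k202⟩,
   ⟨B.rf14k23,
   ⟨B.rf17k20,
   B.rf14k24⟩⟩⟩⟩,
   ⟨⟨⟨B.rf6k133,
   B.rf13k88⟩,
   ⟨B.rf19k105,
   B.rf21k60⟩⟩,
   ⟨⟨B.rf1k213,
   B.rf22k32⟩,
   ⟨B.rf25k3,
   ⟨B.rf19k106,
   B.rf14k82⟩⟩⟩⟩⟩

theorem cw_2223 : cfgs_2223.All CfgW :=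
  all_cfgW (by decide +kernel) ⟨⟨⟨⟨B.rf26k22,
   B.rf21k61⟩,
   ⟨B.rf3k155,
   B.rf6k201⟩⟩,
   ⟨⟨B.rf17k15,
   B.rf19k107⟩,
   ⟨B.rf21k62,
   ⟨B.rf19k37,
   B.rf15k40⟩⟩⟩⟩,
   ⟨⟨⟨B.rf17k16,
   B.rf19k38⟩,
   ⟨B.rf13k89,
   B.rf20k59⟩⟩,
   ⟨⟨B.rf27k18,
   B.rf19k108⟩,
   ⟨B.rf21k15,
   ⟨B.rf21k16,
   B.rf0k273⟩⟩⟩⟩⟩

theorem cw_2241 : cfgs_2241.All CfgW :=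
  all_cfgW (by decide +kernel) ⟨⟨⟨⟨B.rf19k39,
   B.rf20k60⟩,
   ⟨B.rf9k110,
   B.rf14k25⟩⟩,
   ⟨⟨B.rf13k26,
   B.rf19k109⟩,
   ⟨B.rf24k22,
   ⟨B.rf3k108,
   B.rf23k8⟩⟩⟩⟩,
   ⟨⟨⟨B.rf21k63,
   B.rf16k0⟩,
   ⟨B.rf24k23,
   B.rf19k40⟩⟩,
   ⟨⟨B.rf23k9,
   B.rf20k61⟩,
   ⟨B.rf0k129,
   ⟨B.rf12k20,
   B.rf15k41⟩⟩⟩⟩⟩

theorem cw_2259 : cfgs_2259.All CfgW :=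
  all_cfgW (by decide +kernel) ⟨⟨⟨⟨B.rf1k185,
   B.rf25k12⟩,
   ⟨B.rf3k200,
   B.rf14k26⟩⟩,
   ⟨⟨B.rf21k64,
   B.rf25k26⟩,
   ⟨B.rf13k53,
   ⟨B.rf23k10,
   B.rf23k41⟩⟩⟩⟩,
   ⟨⟨⟨B.rf3k173,
   B.rf21k65⟩,
   ⟨B.rf16k29,
   B.rf14k83⟩⟩,
   ⟨⟨B.rf22k33,
   B.rf22k34⟩,
   ⟨B.rf19k70,
   ⟨B.rf14k27,
   B.rf14k28⟩⟩⟩⟩⟩

theorem cw_2277 : cfgs_2277.All CfgW :=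
  all_cfgW (by decide +kernel) ⟨⟨⟨⟨B.rf20k62,
   B.rf15k42⟩,
   ⟨B.rf19k41,
   B.rf14k64⟩⟩,
   ⟨⟨B.rf19k110,
   B.rf40k9⟩,
   ⟨B.rf16k1,
   B.rf19k111⟩⟩⟩,
   ⟨⟨⟨B.rf0k130,
   B.rf19k112⟩,
   ⟨B.rf20k0,
   B.rf13k27⟩⟩,
   ⟨⟨B.rf18k27,
   B.rf23k48⟩,
   ⟨B.rf18k28,
   ⟨B.rf13k2,
   B.rf19k0⟩⟩⟩⟩⟩

theorem cw_2294 : cfgs_2294.All CfgW :=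
  all_cfgW (by decide +kernel) ⟨⟨⟨⟨B.rf24k24,
   B.rf22k35⟩,
   ⟨B.rf22k36,
   B.rf20k63⟩⟩,
   ⟨⟨B.rf1k149,
   B.rf14k29⟩,
   ⟨B.rf14k30,
   ⟨B.rf20k64,
   B.rf23k11⟩⟩⟩⟩,
   ⟨⟨⟨B.rf20k1,
   B.rf14k31⟩,
   ⟨B.rf20k65,
   B.rf20k2⟩⟩,
   ⟨⟨B.rf20k66,
   B.rf21k17⟩,
   ⟨B.rf20k67,
   ⟨B.rf0k24,
   B.rf14k84⟩⟩⟩⟩⟩

theorem cw_2312 : cfgs_2312.All CfgW :=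
  all_cfgW (by decide +kernel) ⟨⟨⟨⟨B.rf13k28,
   B.rf21k66⟩,
   ⟨B.rf25k4,
   B.rf13k29⟩⟩,
   ⟨⟨B.rf19k1,
   B.rf0k17⟩,
   ⟨B.rf19k42,
   ⟨B.rf21k18,
   B.rf13k30⟩⟩⟩⟩,
   ⟨⟨⟨B.rf17k5,
   B.rf13k90⟩,
   ⟨B.rf13k91,
   B.rf13k31⟩⟩,
   ⟨⟨B.rf13k3,
   B.rf22k37⟩,
   ⟨B.rf13k92,
   ⟨B.rf13k32,
   B.rf13k93⟩⟩⟩⟩⟩

theorem cw_2330 : cfgs_2330.All CfgW :=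
  all_cfgW (by decide +kernel) ⟨⟨⟨⟨B.rf19k43,
   B.rf14k32⟩,
   ⟨B.rf14k33,
   B.rf19k2⟩⟩,
   ⟨⟨B.rf20k68,
   B.rf23k49⟩,
   ⟨B.rf0k246,
   ⟨B.rf24k0,
   B.rf1k76⟩⟩⟩⟩,
   ⟨⟨⟨B.rf19k44,
   B.rf20k3⟩,
   ⟨B.rf23k12,
   B.rf35k4⟩⟩,
   ⟨⟨B.rf32k2,
   B.rf41k7⟩,
   ⟨B.rf39k9,
   ⟨B.rf1k186,
   B.rf3k228⟩⟩⟩⟩⟩

theorem cw_2348 : cfgs_2348.All CfgW :=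
  all_cfgW (by decide +kernel) ⟨⟨⟨⟨B.rf34k4,
   B.rf33k5⟩,
   ⟨B.rf3k133,
   B.rf32k6⟩⟩,
   ⟨⟨B.rf1k20,
   B.rf39k10⟩,
   ⟨B.rf6k215,
   B.rf6k136⟩⟩⟩,
   ⟨⟨⟨B.rf45k3,
   B.rf3k68⟩,
   ⟨B.rf31k18,
   B.rf1k214⟩⟩,
   ⟨⟨B.rf6k204,
   B.rf33k13⟩,
   ⟨B.rf6k172,
   ⟨B.rf41k10,
   B.rf6k184⟩⟩⟩⟩⟩

theorem cw_2365 : cfgs_2365.All CfgW :=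
  all_cfgW (by decide +kernel) ⟨⟨⟨⟨B.rf44k1,
   B.rf37k0⟩,
   ⟨B.rf37k1,
   B.rf37k17⟩⟩,
   ⟨⟨B.rf3k94,
   B.rf30k5⟩,
   ⟨B.rf39k0,
   ⟨B.rf32k7,
   B.rf3k140⟩⟩⟩⟩,
   ⟨⟨⟨B.rf39k1,
   B.rf38k4⟩,
   ⟨B.rf30k6,
   B.rf32k8⟩⟩,
   ⟨⟨B.rf1k150,
   B.rf31k8⟩,
   ⟨B.rf37k2,
   ⟨B.rf32k9,
   B.rf0k189⟩⟩⟩⟩⟩

theorem cw_2383 : cfgs_2383.All CfgW :=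
  all_cfgW (by decide +kernel) ⟨⟨⟨⟨B.rf1k187,
   B.rf37k3⟩,
   ⟨B.rf6k154,
   B.rf30k23⟩⟩,
   ⟨⟨B.rf34k0,
   B.rf1k188⟩,
   ⟨B.rf43k0,
   ⟨B.rf41k13,
   B.rf0k360⟩⟩⟩⟩,
   ⟨⟨⟨B.rf38k5,
   B.rf33k10⟩,
   ⟨B.rf42k3,
   B.rf37k4⟩⟩,
   ⟨⟨B.rf38k6,
   B.rf33k6⟩,
   ⟨B.rf37k5,
   ⟨B.rf33k2,
   B.rf34k6⟩⟩⟩⟩⟩

theorem cw_2401 : cfgs_2401.All CfgW :=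
  all_cfgW (by decide +kernel) ⟨⟨⟨⟨B.rf39k11,
   B.rf32k10⟩,
   ⟨B.rf38k7,
   B.rf41k2⟩⟩,
   ⟨⟨B.rf1k215,
   B.rf44k0⟩,
   ⟨B.rf30k7,
   ⟨B.rf36k14,
   B.rf0k108⟩⟩⟩⟩,
   ⟨⟨⟨B.rf1k105,
   B.rf39k2⟩,
   ⟨B.rf39k12,
   B.rf37k6⟩⟩,
   ⟨⟨B.rf36k15,
   B.rf35k11⟩,
   ⟨B.rf41k3,
   ⟨B.rf37k7,
   B.rf29k15⟩⟩⟩⟩⟩

theorem cw_2419 : cfgs_2419.All CfgW :=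
  all_cfgW (by decide +kernel) ⟨⟨⟨⟨B.rf29k16,
   B.rf37k18⟩,
   ⟨B.rf29k17,
   B.rf0k131⟩⟩,
   ⟨⟨B.rf37k19,
   B.rf36k16⟩,
   ⟨B.rf1k94,
   B.rf3k69⟩⟩⟩,
   ⟨⟨⟨B.rf37k20,
   B.rf0k132⟩,
   ⟨B.rf0k353,
   B.rf32k11⟩⟩,
   ⟨⟨B.rf1k95,
   B.rf29k18⟩,
   ⟨B.rf39k13,
   ⟨B.rf29k11,
   B.rf35k12⟩⟩⟩⟩⟩

theorem cw_2436 : cfgs_2436.All CfgW :=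
  all_cfgW (by decide +kernel) ⟨⟨⟨⟨B.rf36k17,
   B.rf30k8⟩,
   ⟨B.rf30k9,
   B.rf35k13⟩⟩,
   ⟨⟨B.rf30k24,
   B.rf39k14⟩,
   ⟨B.rf31k0,
   ⟨B.rf1k269,
   B.rf3k70⟩⟩⟩⟩,
   ⟨⟨⟨B.rf29k12,
   B.rf31k1⟩,
   ⟨B.rf0k18,
   B.rf0k72⟩⟩,
   ⟨⟨B.rf0k89,
   B.rf0k90⟩,
   ⟨B.rf0k102,
   ⟨B.rf0k87,
   B.rf0k97⟩⟩⟩⟩⟩

theorem cw_2454 : cfgs_2454.All CfgW :=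
  all_cfgW (by decide +kernel) ⟨⟨⟨⟨B.rf0k71,
   B.rf0k78⟩,
   ⟨B.rf0k385,
   B.rf0k359⟩⟩,
   ⟨⟨B.rf0k302,
   B.rf0k292⟩,
   ⟨B.rf0k347,
   ⟨B.rf1k28,
   B.rf0k350⟩⟩⟩⟩,
   ⟨⟨⟨B.rf0k351,
   B.rf1k38⟩,
   ⟨B.rf0k358,
   B.rf1k32⟩⟩,
   ⟨⟨B.rf0k375,
   B.rf0k327⟩,
   ⟨B.rf0k393,
   ⟨B.rf0k396,
   B.rf0k328⟩⟩⟩⟩⟩

theorem cw_2472 : cfgs_2472.All CfgW :=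
  all_cfgW (by decide +kernel) ⟨⟨⟨⟨B.rf1k2,
   B.rf0k318⟩,
   ⟨B.rf1k17,
   B.rf1k8⟩⟩,
   ⟨⟨B.rf1k34,
   B.rf0k366⟩,
   ⟨B.rf1k289,
   ⟨B.rf0k376,
   B.rf0k326⟩⟩⟩⟩,
   ⟨⟨⟨B.rf0k367,
   B.rf0k333⟩,
   ⟨B.rf0k296,
   B.rf2k161⟩⟩,
   ⟨⟨B.rf0k365,
   B.rf0k337⟩,
   ⟨B.rf1k401,
   ⟨B.rf2k165,
   B.rf2k11⟩⟩⟩⟩⟩

theorem cw_2490 : cfgs_2490.All CfgW :=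
  all_cfgW (by decide +kernel) ⟨⟨⟨⟨B.rf2k105,
   B.rf2k120⟩,
   ⟨B.rf0k159,
   B.rf1k296⟩⟩,
   ⟨⟨B.rf2k71,
   B.rf2k61⟩,
   ⟨B.rf3k14,
   B.rf2k107⟩⟩⟩,
   ⟨⟨⟨B.rf2k21,
   B.rf2k247⟩,
   ⟨B.rf2k190,
   B.rf2k22⟩⟩,
   ⟨⟨B.rf2k115,
   B.rf2k121⟩,
   ⟨B.rf2k80,
   ⟨B.rf2k160,
   B.rf2k164⟩⟩⟩⟩⟩

theorem cw_2507 : cfgs_2507.All CfgW :=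
  all_cfgW (by decide +kernel) ⟨⟨⟨⟨B.rf2k48,
   B.rf2k10⟩,
   ⟨B.rf2k116,
   B.rf2k104⟩⟩,
   ⟨⟨B.rf1k330,
   B.rf1k370⟩,
   ⟨B.rf2k3,
   ⟨B.rf1k295,
   B.rf2k64⟩⟩⟩⟩,
   ⟨⟨⟨B.rf2k63,
   B.rf1k302⟩,
   ⟨B.rf2k46,
   B.rf2k238⟩⟩,
   ⟨⟨B.rf3k17,
   B.rf2k45⟩,
   ⟨B.rf2k267,
   ⟨B.rf2k43,
   B.rf2k42⟩⟩⟩⟩⟩

theorem cw_2525 : cfgs_2525.All CfgW :=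
  all_cfgW (by decide +kernel) ⟨⟨⟨⟨B.rf2k258,
   B.rf2k202⟩,
   ⟨B.rf3k38,
   B.rf3k35⟩⟩,
   ⟨⟨B.rf2k135,
   B.rf2k170⟩,
   ⟨B.rf2k261,
   ⟨B.rf3k28,
   B.rf2k268⟩⟩⟩⟩,
   ⟨⟨⟨B.rf1k383,
   B.rf2k203⟩,
   ⟨B.rf2k250,
   B.rf0k256⟩⟩,
   ⟨⟨B.rf2k225,
   B.rf2k233⟩,
   ⟨B.rf2k204,
   ⟨B.rf0k269,
   B.rf1k366⟩⟩⟩⟩⟩

theorem cw_2543 : cfgs_2543.All CfgW :=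
  all_cfgW (by decide +kernel) ⟨⟨⟨⟨B.rf1k381,
   B.rf2k226⟩,
   ⟨B.rf2k176,
   B.rf3k30⟩⟩,
   ⟨⟨B.rf2k37,
   B.rf2k152⟩,
   ⟨B.rf2k153,
   ⟨B.rf1k393,
   B.rf1k249⟩⟩⟩⟩,
   ⟨⟨⟨B.rf2k217,
   B.rf2k136⟩,
   ⟨B.rf1k408,
   B.rf1k382⟩⟩,
   ⟨⟨B.rf1k409,
   B.rf2k184⟩,
   ⟨B.rf2k205,
   ⟨B.rf2k154,
   B.rf2k29⟩⟩⟩⟩⟩


end Pool.Agent.Lib.G6.Z
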