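import Pool.Agent.Lib.G6.All
import Pool.Agent.Lib.G6D.ZCfgs
import Pool.Agent.Lib.G6D.RFP0
import Pool.Agent.Lib.G6D.RFP1
import Pool.Agent.Lib.G6D.RFP2
import Pool.Agent.Lib.G6D.RFP3
import Pool.Agent.Lib.G6D.RFP6

set_option autoImplicit false
set_option maxRecDepth 100000
set_option linter.all false

namespace Pool.Agent.Lib.G6.Z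

open Pool.Agent.Lib.G6 Pool.Agent.Lib.G6.K
open Pool.Agent.Lib.MP_bfaad3_co (BT)

theorem cw_2561 : cfgs_2561.All CfgW :=
  all_cfgW (by decide +kernel) ⟨⟨⟨⟨B.rf2k155,
   B.rf2k1⟩,
   ⟨B.rf1k324,
   B.rf2k257⟩⟩,
   ⟨⟨B.rf2k33,
   B.rf2k179⟩,
   ⟨B.rf1k410,
   B.rf2k93⟩⟩⟩,
   ⟨⟨⟨B.rf3k243,
   B.rf1k325⟩,
   ⟨B.rf3k22,
   B.rf1k411⟩⟩,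
   ⟨⟨B.rf3k2,
   B.rf1k412⟩,
   ⟨B.rf2k243,
   ⟨B.rf2k271,
   B.rf1k423⟩⟩⟩⟩⟩

theorem cw_2578 : cfgs_2578.All CfgW :=
  all_cfgW (by decide +kernel) ⟨⟨⟨⟨B.rf1k314,
   B.rf2k244⟩,
   ⟨B.rf3k7,
   B.rf1k413⟩⟩,
   ⟨⟨B.rf2k171,
   B.rf0k57⟩,
   ⟨B.rf2k252,
   ⟨B.rf2k108,
   B.rf2k137⟩⟩⟩⟩,
   ⟨⟨⟨B.rf2k149,
   B.rf1k315⟩,
   ⟨B.rf1k354,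
   B.rf0k262⟩⟩,
   ⟨⟨B.rf3k8,
   B.rf2k185⟩,
   ⟨B.rf2k15,
   ⟨B.rf2k213,
   B.rf2k94⟩⟩⟩⟩⟩

theorem cw_2596 : cfgs_2596.All CfgW :=
  all_cfgW (by decide +kernel) ⟨⟨⟨⟨B.rf2k95,
   B.rf2k56⟩,
   ⟨B.rf2k57,
   B.rf2k192⟩⟩,
   ⟨⟨B.rf2k31,
   B.rf2k127⟩,
   ⟨B.rf2k193,
   ⟨B.rf1k341,
   B.rf1k309⟩⟩⟩⟩,
   ⟨⟨⟨B.rf1k342,
   B.rf5k121⟩,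
   ⟨B.rf5k185,
   B.rf5k248⟩⟩,
   ⟨⟨B.rf5k120,
   B.rf4k60⟩,
   ⟨B.rf5k110,
   ⟨B.rf4k61,
   B.rf4k44⟩⟩⟩⟩⟩

theorem cw_2614 : cfgs_2614.All CfgW :=
  all_cfgW (by decide +kernel) ⟨⟨⟨⟨B.rf4k272,
   B.rf5k106⟩,
   ⟨B.rf4k50,
   B.rf5k164⟩⟩,
   ⟨⟨B.rf5k178,
   B.rf4k81⟩,
   ⟨B.rf5k25,
   ⟨B.rf3k311,
   B.rf5k26⟩⟩⟩⟩,
   ⟨⟨⟨B.rf4k51,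
   B.rf5k114⟩,
   ⟨B.rf3k267,
   B.rf5k286⟩⟩,
   ⟨⟨B.rf4k261,
   B.rf3k304⟩,
   ⟨B.rf4k269,
   ⟨B.rf3k259,
   B.rf4k216⟩⟩⟩⟩⟩

theorem cw_2632 : cfgs_2632.All CfgW :=
  all_cfgW (by decide +kernel) ⟨⟨⟨⟨B.rf5k115,
   B.rf5k104⟩,
   ⟨B.rf4k262,
   B.rf5k165⟩⟩,
   ⟨⟨B.rf5k30,
   B.rf4k263⟩,
   ⟨B.rf6k101,
   B.rf5k258⟩⟩⟩,
   ⟨⟨⟨B.rf4k264,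
   B.rf3k316⟩,
   ⟨B.rf4k245,
   B.rf4k53⟩⟩,
   ⟨⟨B.rf4k54,
   B.rf4k194⟩,
   ⟨B.rf4k86,
   ⟨B.rf4k59,
   B.rf3k305⟩⟩⟩⟩⟩

theorem cw_2649 : cfgs_2649.All CfgW :=
  all_cfgW (by decide +kernel) ⟨⟨⟨⟨B.rf4k139,
   B.rf4k137⟩,
   ⟨B.rf0k190,
   B.rf4k88⟩⟩,
   ⟨⟨B.rf1k258,
   B.rf4k34⟩,
   ⟨B.rf3k264,
   ⟨B.rf3k265,
   B.rf12k76⟩⟩⟩⟩,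
   ⟨⟨⟨B.rf3k266,
   B.rf6k117⟩,
   ⟨B.rf6k105,
   B.rf6k150⟩⟩,
   ⟨⟨B.rf6k20,
   B.rf6k102⟩,
   ⟨B.rf5k316,
   ⟨B.rf6k165,
   B.rf6k88⟩⟩⟩⟩⟩

theorem cw_2667 : cfgs_2667.All CfgW :=
  all_cfgW (by decide +kernel) ⟨⟨⟨⟨B.rf0k261,
   B.rf6k122⟩,
   ⟨B.rf6k47,
   B.rf6k72⟩⟩,
   ⟨⟨B.rf4k207,
   B.rf4k118⟩,
   ⟨B.rf4k239,
   ⟨B.rf5k153,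
   B.rf0k203⟩⟩⟩⟩,
   ⟨⟨⟨B.rf4k12,
   B.rf4k13⟩,
   ⟨B.rf0k25,
   B.rf5k298⟩⟩,
   ⟨⟨B.rf6k95,
   B.rf6k65⟩,
   ⟨B.rf6k33,
   ⟨B.rf5k225,
   B.rf3k102⟩⟩⟩⟩⟩

theorem cw_2685 : cfgs_2685.All CfgW :=
  all_cfgW (by decide +kernel) ⟨⟨⟨⟨B.rf5k299,
   B.rf0k222⟩,
   ⟨B.rf4k14,
   B.rf0k157⟩⟩,
   ⟨⟨B.rf0k236,
   B.rf5k300⟩,
   ⟨B.rf5k154,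
   ⟨B.rf4k176,
   B.rf6k210⟩⟩⟩⟩,
   ⟨⟨⟨B.rf5k284,
   B.rf4k236⟩,
   ⟨B.rf0k36,
   B.rf1k292⟩⟩,
   ⟨⟨B.rf3k177,
   B.rf4k231⟩,
   ⟨B.rf5k226,
   ⟨B.rf5k251,
   B.rf6k81⟩⟩⟩⟩⟩

theorem cw_2703 : cfgs_2703.All CfgW :=
  all_cfgW (by decide +kernel) ⟨⟨⟨⟨B.rf6k118,
   B.rf6k80⟩,
   ⟨B.rf6k108,
   B.rf5k227⟩⟩,
   ⟨⟨B.rf5k228,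
   B.rf5k301⟩,
   ⟨B.rf4k158,
   B.rf6k76⟩⟩⟩,
   ⟨⟨⟨B.rf5k229,
   B.rf6k59⟩,
   ⟨B.rf4k15,
   B.rf5k230⟩⟩,
   ⟨⟨B.rf4k16,
   B.rf0k191⟩,
   ⟨B.rf1k230,
   ⟨B.rf6k3,
   B.rf4k17⟩⟩⟩⟩⟩

theorem cw_2720 : cfgs_2720.All CfgW :=
  all_cfgW (by decide +kernel) ⟨⟨⟨⟨B.rf6k112,
   B.rf5k277⟩,
   ⟨B.rf5k231,
   B.rf5k232⟩⟩,
   ⟨⟨B.rf4k18,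
   B.rf5k155⟩,
   ⟨B.rf3k136,
   ⟨B.rf5k285,
   B.rf0k322⟩⟩⟩⟩,
   ⟨⟨⟨B.rf4k119,
   B.rf6k125⟩,
   ⟨B.rf6k39,
   B.rf4k19⟩⟩,
   ⟨⟨B.rf6k4,
   B.rf0k247⟩,
   ⟨B.rf4k20,
   ⟨B.rf5k92,
   B.rf0k237⟩⟩⟩⟩⟩

theorem cw_2738 : cfgs_2738.All CfgW :=
  all_cfgW (by decide +kernel) ⟨⟨⟨⟨B.rf5k302,
   B.rf6k34⟩,
   ⟨B.rf5k13,
   B.rf6k97⟩⟩,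
   ⟨⟨B.rf1k400,
   B.rf4k171⟩,
   ⟨B.rf6k139,
   ⟨B.rf6k5,
   B.rf1k270⟩⟩⟩⟩,
   ⟨⟨⟨B.rf4k152,
   B.rf6k6⟩,
   ⟨B.rf5k312,
   B.rf6k73⟩⟩,
   ⟨⟨B.rf4k208,
   B.rf6k77⟩,
   ⟨B.rf6k98,
   ⟨B.rf4k120,
   B.rf4k153⟩⟩⟩⟩⟩

theorem cw_2756 : cfgs_2756.All CfgW :=
  all_cfgW (by decide +kernel) ⟨⟨⟨⟨B.rf4k121,
   B.rf4k234⟩,
   ⟨B.rf5k93,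
   B.rf5k303⟩⟩,
   ⟨⟨B.rf0k258,
   B.rf6k7⟩,
   ⟨B.rf6k35,
   ⟨B.rf4k227,
   B.rf4k77⟩⟩⟩⟩,
   ⟨⟨⟨B.rf5k304,
   B.rf6k8⟩,
   ⟨B.rf4k21,
   B.rf4k172⟩⟩,
   ⟨⟨B.rf4k22,
   B.rf3k296⟩,
   ⟨B.rf6k208,
   ⟨B.rf5k108,
   B.rf25k9⟩⟩⟩⟩⟩

theorem cw_2774 : cfgs_2774.All CfgW :=
  all_cfgW (by decide +kernel) ⟨⟨⟨⟨B.rf4k173,
   B.rf6k9⟩,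
   ⟨B.rf5k156,
   B.rf5k305⟩⟩,
   ⟨⟨B.rf4k156,
   B.rf5k94⟩,
   ⟨B.rf4k23,
   ⟨B.rf4k24,
   B.rf4k78⟩⟩⟩⟩,
   ⟨⟨⟨B.rf5k157,
   B.rf5k135⟩,
   ⟨B.rf4k286,
   B.rf5k195⟩⟩,
   ⟨⟨B.rf5k51,
   B.rf1k271⟩,
   ⟨B.rf6k107,
   ⟨B.rf4k65,
   B.rf5k136⟩⟩⟩⟩⟩

theorem cw_2792 : cfgs_2792.All CfgW :=
  all_cfgW (by decide +kernel) ⟨⟨⟨⟨B.rf4k287,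
   B.rf1k272⟩,
   ⟨B.rf5k321,
   B.rf4k100⟩⟩,
   ⟨⟨B.rf5k196,
   B.rf9k168⟩,
   ⟨B.rf6k109,
   ⟨B.rf6k54,
   B.rf5k52⟩⟩⟩⟩,
   ⟨⟨⟨B.rf5k53,
   B.rf5k54⟩,
   ⟨B.rf5k197,
   B.rf5k137⟩⟩,
   ⟨⟨B.rf5k198,
   B.rf5k55⟩,
   ⟨B.rf3k283,
   ⟨B.rf5k322,
   B.rf5k289⟩⟩⟩⟩⟩

theorem cw_2810 : cfgs_2810.All CfgW :=
  all_cfgW (by decide +kernel) ⟨⟨⟨⟨B.rf1k189,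
   B.rf4k288⟩,
   ⟨B.rf5k263,
   B.rf5k138⟩⟩,
   ⟨⟨B.rf5k323,
   B.rf6k55⟩,
   ⟨B.rf5k199,
   ⟨B.rf3k284,
   B.rf3k334⟩⟩⟩⟩,
   ⟨⟨⟨B.rf4k101,
   B.rf5k56⟩,
   ⟨B.rf5k139,
   B.rf4k249⟩⟩,
   ⟨⟨B.rf4k289,
   B.rf5k0⟩,
   ⟨B.rf9k73,
   ⟨B.rf4k66,
   B.rf6k56⟩⟩⟩⟩⟩

theorem cw_2828 : cfgs_2828.All CfgW :=
  all_cfgW (by decide +kernel) ⟨⟨⟨⟨B.rf5k140,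
   B.rf4k102⟩,
   ⟨B.rf5k57,
   B.rf5k58⟩⟩,
   ⟨⟨B.rf5k59,
   B.rf3k285⟩,
   ⟨B.rf3k335,
   ⟨B.rf5k264,
   B.rf5k60⟩⟩⟩⟩,
   ⟨⟨⟨B.rf3k286,
   B.rf5k265⟩,
   ⟨B.rf5k1,
   B.rf8k28⟩⟩,
   ⟨⟨B.rf0k238,
   B.rf8k6⟩,
   ⟨B.rf10k132,
   ⟨B.rf11k136,
   B.rf10k174⟩⟩⟩⟩⟩

theorem cw_2846 : cfgs_2846.All CfgW :=
  all_cfgW (by decide +kernel) ⟨⟨⟨⟨B.rf7k236,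
   B.rf9k187⟩,
   ⟨B.rf7k134,
   B.rf8k0⟩⟩,
   ⟨⟨B.rf6k217,
   B.rf3k247⟩,
   ⟨B.rf8k27,
   B.rf10k31⟩⟩⟩,
   ⟨⟨⟨B.rf6k218,
   B.rf7k121⟩,
   ⟨B.rf7k126,
   B.rf9k21⟩⟩,
   ⟨⟨B.rf1k228,
   B.rf9k34⟩,
   ⟨B.rf7k24,
   ⟨B.rf9k26,
   B.rf9k74⟩⟩⟩⟩⟩

theorem cw_2863 : cfgs_2863.All CfgW :=
  all_cfgW (by decide +kernel) ⟨⟨⟨⟨B.rf11k3,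
   B.rf9k169⟩,
   ⟨B.rf0k279,
   B.rf7k113⟩⟩,
   ⟨⟨B.rf8k1,
   B.rf10k26⟩,
   ⟨B.rf7k237,
   ⟨B.rf10k168,
   B.rf7k232⟩⟩⟩⟩,
   ⟨⟨⟨B.rf7k239,
   B.rf10k172⟩,
   ⟨B.rf7k17,
   B.rf10k39⟩⟩,
   ⟨⟨B.rf7k109,
   B.rf9k8⟩,
   ⟨B.rf9k12,
   ⟨B.rf9k181,
   B.rf7k18⟩⟩⟩⟩⟩

theorem cw_2881 : cfgs_2881.All CfgW :=
  all_cfgW (by decide +kernel) ⟨⟨⟨⟨B.rf10k42,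
   B.rf10k40⟩,
   ⟨B.rf7k19,
   B.rf7k127⟩⟩,
   ⟨⟨B.rf7k114,
   B.rf7k20⟩,
   ⟨B.rf6k223,
   ⟨B.rf10k32,
   B.rf7k21⟩⟩⟩⟩,
   ⟨⟨⟨B.rf7k115,
   B.rf3k226⟩,
   ⟨B.rf12k49,
   B.rf0k162⟩⟩,
   ⟨⟨B.rf3k221,
   B.rf12k7⟩,
   ⟨B.rf7k221,
   ⟨B.rf12k37,
   B.rf9k149⟩⟩⟩⟩⟩

theorem cw_2899 : cfgs_2899.All CfgW :=
  all_cfgW (by decide +kernel) ⟨⟨⟨⟨B.rf1k200,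
   B.rf12k65⟩,
   ⟨B.rf12k34,
   B.rf8k127⟩⟩,
   ⟨⟨B.rf8k87,
   B.rf7k222⟩,
   ⟨B.rf8k133,
   ⟨B.rf8k115,
   B.rf11k99⟩⟩⟩⟩,
   ⟨⟨⟨B.rf8k134,
   B.rf3k95⟩,
   ⟨B.rf8k63,
   B.rf10k208⟩⟩,
   ⟨⟨B.rf7k223,
   B.rf12k46⟩,
   ⟨B.rf0k334,
   ⟨B.rf7k157,
   B.rf0k109⟩⟩⟩⟩⟩

theorem cw_2917 : cfgs_2917.All CfgW :=
  all_cfgW (by decide +kernel) ⟨⟨⟨⟨B.rf12k1,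
   B.rf7k97⟩,
   ⟨B.rf9k150,
   B.rf9k151⟩⟩,
   ⟨⟨B.rf7k224,
   B.rf24k36⟩,
   ⟨B.rf0k31,
   B.rf3k213⟩⟩⟩,
   ⟨⟨⟨B.rf3k212,
   B.rf11k141⟩,
   ⟨B.rf12k71,
   B.rf11k153⟩⟩,
   ⟨⟨B.rf8k88,
   B.rf11k100⟩,
   ⟨B.rf12k32,
   ⟨B.rf11k108,
   B.rf0k177⟩⟩⟩⟩⟩

theorem cw_2934 : cfgs_2934.All CfgW :=
  all_cfgW (by decide +kernel) ⟨⟨⟨⟨B.rf11k74,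
   B.rf11k75⟩,
   ⟨B.rf7k158,
   B.rf1k170⟩⟩,
   ⟨⟨B.rf9k152,
   B.rf9k153⟩,
   ⟨B.rf12k51,
   ⟨B.rf8k155,
   B.rf7k225⟩⟩⟩⟩,
   ⟨⟨⟨B.rf9k154,
   B.rf8k48⟩,
   ⟨B.rf8k49,
   B.rf10k104⟩⟩,
   ⟨⟨B.rf0k110,
   B.rf1k161⟩,
   ⟨B.rf11k101,
   ⟨B.rf12k11,
   B.rf8k64⟩⟩⟩⟩⟩

theorem cw_2952 : cfgs_2952.All CfgW :=
  all_cfgW (by decide +kernel) ⟨⟨⟨⟨B.rf10k105,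
   B.rf8k65⟩,
   ⟨B.rf9k155,
   B.rf7k159⟩⟩,
   ⟨⟨B.rf0k163,
   B.rf11k102⟩,
   ⟨B.rf7k98,
   ⟨B.rf12k63,
   B.rf11k39⟩⟩⟩⟩,
   ⟨⟨⟨B.rf12k74,
   B.rf9k163⟩,
   ⟨B.rf10k106,
   B.rf5k233⟩⟩,
   ⟨⟨B.rf4k122,
   B.rf11k157⟩,
   ⟨B.rf10k18,
   ⟨B.rf9k0,
   B.rf10k158⟩⟩⟩⟩⟩

theorem cw_2970 : cfgs_2970.All CfgW :=
  all_cfgW (by decide +kernel) ⟨⟨⟨⟨B.rf6k186,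
   B.rf1k259⟩,
   ⟨B.rf11k1,
   B.rf0k274⟩⟩,
   ⟨⟨B.rf9k156,
   B.rf12k44⟩,
   ⟨B.rf1k127,
   ⟨B.rf8k132,
   B.rf10k159⟩⟩⟩⟩,
   ⟨⟨⟨B.rf8k128,
   B.rf6k119⟩,
   ⟨B.rf11k41,
   B.rf0k178⟩⟩,
   ⟨⟨B.rf8k135,
   B.rf8k89⟩,
   ⟨B.rf10k209,
   ⟨B.rf7k160,
   B.rf0k239⟩⟩⟩⟩⟩


end Pool.Agent.Lib.G6.Z
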