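import Pool.Agent.Lib.G6.All
import Pool.Agent.Lib.G6D.ZCfgs
import Pool.Agent.Lib.G6D.RFP0
import Pool.Agent.Lib.G6D.RFP1
import Pool.Agent.Lib.G6D.RFP2
import Pool.Agent.Lib.G6D.RFP3
import Pool.Agent.Lib.G6D.RFP4
import Pool.Agent.Lib.G6D.RFP5
import Pool.Agent.Lib.G6D.RFP6
import Pool.Agent.Lib.G6D.RFP7

set_option autoImplicit false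
set_option maxRecDepth 100000
set_option linter.all false

namespace Pool.Agent.Lib.G6.Z

open Pool.Agent.Lib.G6 Pool.Agent.Lib.G6.K
open Pool.Agent.Lib.MP_bfaad3_co (BT)

theorem cw_2988 : cfgs_2988.All CfgW :=
  all_cfgW (by decide +kernel) ⟨⟨⟨⟨B.rf9k157,
   B.rf11k122⟩,
   ⟨B.rf10k107,
   B.rf3k222⟩⟩,
   ⟨⟨B.rf8k150,
   B.rf9k70⟩,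
   ⟨B.rf7k226,
   B.rf3k202⟩⟩⟩,
   ⟨⟨⟨B.rf11k30,
   B.rf9k158⟩,
   ⟨B.rf7k161,
   B.rf7k12⟩⟩,
   ⟨⟨B.rf11k31,
   B.rf8k140⟩,
   ⟨B.rf7k227,
   ⟨B.rf11k103,
   B.rf8k103⟩⟩⟩⟩⟩

theorem cw_3005 : cfgs_3005.All CfgW :=
  all_cfgW (by decide +kernel) ⟨⟨⟨⟨B.rf11k76,
   B.rf8k154⟩,
   ⟨B.rf8k141,
   B.rf3k174⟩⟩,
   ⟨⟨B.rf11k32,
   B.rf1k190⟩,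
   ⟨B.rf8k129,
   ⟨B.rf0k284,
   B.rf10k210⟩⟩⟩⟩,
   ⟨⟨⟨B.rf13k81,
   B.rf8k50⟩,
   ⟨B.rf8k116,
   B.rf10k19⟩⟩,
   ⟨⟨B.rf9k71,
   B.rf10k160⟩,
   ⟨B.rf7k99,
   ⟨B.rf8k90,
   B.rf11k33⟩⟩⟩⟩⟩

theorem cw_3023 : cfgs_3023.All CfgW :=
  all_cfgW (by decide +kernel) ⟨⟨⟨⟨B.rf7k162,
   B.rf10k108⟩,
   ⟨B.rf3k250,
   B.rf12k8⟩⟩,
   ⟨⟨B.rf10k161,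
   B.rf11k13⟩,
   ⟨B.rf7k190,
   ⟨B.rf0k213,
   B.rf10k64⟩⟩⟩⟩,
   ⟨⟨⟨B.rf9k55,
   B.rf7k191⟩,
   ⟨B.rf7k5,
   B.rf9k111⟩⟩,
   ⟨⟨B.rf8k36,
   B.rf1k40⟩,
   ⟨B.rf9k207,
   ⟨B.rf7k6,
   B.rf11k34⟩⟩⟩⟩⟩

theorem cw_3041 : cfgs_3041.All CfgW :=
  all_cfgW (by decide +kernel) ⟨⟨⟨⟨B.rf1k128,
   B.rf11k49⟩,
   ⟨B.rf11k113,
   B.rf11k114⟩⟩,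
   ⟨⟨B.rf9k112,
   B.rf10k65⟩,
   ⟨B.rf9k208,
   ⟨B.rf3k71,
   B.rf10k186⟩⟩⟩⟩,
   ⟨⟨⟨B.rf1k151,
   B.rf11k14⟩,
   ⟨B.rf10k187,
   B.rf5k200⟩⟩,
   ⟨⟨B.rf11k50,
   B.rf11k15⟩,
   ⟨B.rf8k37,
   ⟨B.rf9k209,
   B.rf12k0⟩⟩⟩⟩⟩

theorem cw_3059 : cfgs_3059.All CfgW :=
  all_cfgW (by decide +kernel) ⟨⟨⟨⟨B.rf11k16,
   B.rf7k192⟩,
   ⟨B.rf10k66,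
   B.rf8k38⟩⟩,
   ⟨⟨B.rf8k109,
   B.rf8k110⟩,
   ⟨B.rf10k67,
   ⟨B.rf11k17,
   B.rf7k143⟩⟩⟩⟩,
   ⟨⟨⟨B.rf10k188,
   B.rf10k140⟩,
   ⟨B.rf8k81,
   B.rf8k82⟩⟩,
   ⟨⟨B.rf1k96,
   B.rf7k228⟩,
   ⟨B.rf9k210,
   ⟨B.rf11k51,
   B.rf10k68⟩⟩⟩⟩⟩

theorem cw_3077 : cfgs_3077.All CfgW :=
  all_cfgW (by decide +kernel) ⟨⟨⟨⟨B.rf7k144,
   B.rf10k69⟩,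
   ⟨B.rf9k113,
   B.rf9k114⟩⟩,
   ⟨⟨B.rf7k63,
   B.rf6k111⟩,
   ⟨B.rf1k152,
   ⟨B.rf1k97,
   B.rf10k70⟩⟩⟩⟩,
   ⟨⟨⟨B.rf9k115,
   B.rf1k273⟩,
   ⟨B.rf11k52,
   B.rf2k206⟩⟩,
   ⟨⟨B.rf8k51,
   B.rf9k56⟩,
   ⟨B.rf10k141,
   ⟨B.rf7k193,
   B.rf7k194⟩⟩⟩⟩⟩

theorem cw_3095 : cfgs_3095.All CfgW :=
  all_cfgW (by decide +kernel) ⟨⟨⟨⟨B.rf7k195,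
   B.rf7k100⟩,
   ⟨B.rf1k227,
   B.rf9k211⟩⟩,
   ⟨⟨B.rf10k142,
   B.rf9k116⟩,
   ⟨B.rf10k189,
   ⟨B.rf7k145,
   B.rf12k15⟩⟩⟩⟩,
   ⟨⟨⟨B.rf20k34,
   B.rf7k146⟩,
   ⟨B.rf7k64,
   B.rf9k117⟩⟩,
   ⟨⟨B.rf1k293,
   B.rf11k77⟩,
   ⟨B.rf7k196,
   ⟨B.rf7k197,
   B.rf9k17⟩⟩⟩⟩⟩

theorem cw_3113 : cfgs_3113.All CfgW :=
  all_cfgW (by decide +kernel) ⟨⟨⟨⟨B.rf7k198,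
   B.rf10k109⟩,
   ⟨B.rf8k13,
   B.rf10k71⟩⟩,
   ⟨⟨B.rf9k57,
   B.rf7k7⟩,
   ⟨B.rf9k58,
   ⟨B.rf9k59,
   B.rf9k118⟩⟩⟩⟩,
   ⟨⟨⟨B.rf9k119,
   B.rf10k72⟩,
   ⟨B.rf9k212,
   B.rf7k199⟩⟩,
   ⟨⟨B.rf11k53,
   B.rf8k99⟩,
   ⟨B.rf22k63,
   ⟨B.rf8k111,
   B.rf20k35⟩⟩⟩⟩⟩

theorem cw_3131 : cfgs_3131.All CfgW :=
  all_cfgW (by decide +kernel) ⟨⟨⟨⟨B.rf9k213,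
   B.rf8k39⟩,
   ⟨B.rf20k39,
   B.rf1k68⟩⟩,
   ⟨⟨B.rf9k60,
   B.rf7k65⟩,
   ⟨B.rf9k120,
   B.rf7k200⟩⟩⟩,
   ⟨⟨⟨B.rf7k66,
   B.rf9k121⟩,
   ⟨B.rf7k67,
   B.rf7k8⟩⟩,
   ⟨⟨B.rf7k68,
   B.rf9k122⟩,
   ⟨B.rf7k9,
   ⟨B.rf7k69,
   B.rf9k214⟩⟩⟩⟩⟩

theorem cw_3148 : cfgs_3148.All CfgW :=
  all_cfgW (by decide +kernel) ⟨⟨⟨⟨B.rf10k73,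
   B.rf9k61⟩,
   ⟨B.rf7k147,
   B.rf7k70⟩⟩,
   ⟨⟨B.rf9k215,
   B.rf9k216⟩,
   ⟨B.rf9k62,
   ⟨B.rf11k54,
   B.rf9k217⟩⟩⟩⟩,
   ⟨⟨⟨B.rf19k10,
   B.rf13k72⟩,
   ⟨B.rf19k11,
   B.rf15k36⟩⟩,
   ⟨⟨B.rf19k14,
   B.rf3k109⟩,
   ⟨B.rf19k92,
   ⟨B.rf6k214,
   B.rf21k46⟩⟩⟩⟩⟩

theorem cw_3166 : cfgs_3166.All CfgW :=
  all_cfgW (by decide +kernel) ⟨⟨⟨⟨B.rf13k76,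
   B.rf14k13⟩,
   ⟨B.rf0k248,
   B.rf6k127⟩⟩,
   ⟨⟨B.rf22k23,
   B.rf19k12⟩,
   ⟨B.rf13k13,
   ⟨B.rf13k61,
   B.rf14k9⟩⟩⟩⟩,
   ⟨⟨⟨B.rf18k19,
   B.rf21k47⟩,
   ⟨B.rf23k43,
   B.rf22k22⟩⟩,
   ⟨⟨B.rf15k11,
   B.rf1k201⟩,
   ⟨B.rf3k238,
   ⟨B.rf25k1,
   B.rf1k153⟩⟩⟩⟩⟩

theorem cw_3184 : cfgs_3184.All CfgW :=
  all_cfgW (by decide +kernel) ⟨⟨⟨⟨B.rf19k93,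
   B.rf18k17⟩,
   ⟨B.rf1k191,
   B.rf14k10⟩⟩,
   ⟨⟨B.rf19k81,
   B.rf12k83⟩,
   ⟨B.rf27k15,
   ⟨B.rf0k265,
   B.rf3k186⟩⟩⟩⟩,
   ⟨⟨⟨B.rf26k8,
   B.rf15k53⟩,
   ⟨B.rf15k4,
   B.rf15k54⟩⟩,
   ⟨⟨B.rf15k55,
   B.rf15k56⟩,
   ⟨B.rf26k16,
   ⟨B.rf24k37,
   B.rf3k167⟩⟩⟩⟩⟩

theorem cw_3202 : cfgs_3202.All CfgW :=
  all_cfgW (by decide +kernel) ⟨⟨⟨⟨B.rf20k27,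
   B.rf16k34⟩,
   ⟨B.rf27k16,
   B.rf24k38⟩⟩,
   ⟨⟨B.rf16k35,
   B.rf17k19⟩,
   ⟨B.rf20k23,
   B.rf27k17⟩⟩⟩,
   ⟨⟨⟨B.rf23k31,
   B.rf15k5⟩,
   ⟨B.rf15k6,
   B.rf22k11⟩⟩,
   ⟨⟨B.rf22k12,
   B.rf18k1⟩,
   ⟨B.rf13k54,
   ⟨B.rf3k162,
   B.rf22k13⟩⟩⟩⟩⟩

theorem cw_3219 : cfgs_3219.All CfgW :=
  all_cfgW (by decide +kernel) ⟨⟨⟨⟨B.rf29k8,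
   B.rf3k201⟩,
   ⟨B.rf19k79,
   B.rf22k14⟩⟩,
   ⟨⟨B.rf27k9,
   B.rf6k164⟩,
   ⟨B.rf24k43,
   ⟨B.rf3k193,
   B.rf3k124⟩⟩⟩⟩,
   ⟨⟨⟨B.rf24k17,
   B.rf25k10⟩,
   ⟨B.rf6k149,
   B.rf20k89⟩⟩,
   ⟨⟨B.rf1k154,
   B.rf15k28⟩,
   ⟨B.rf14k71,
   ⟨B.rf1k132,
   B.rf17k11⟩⟩⟩⟩⟩

theorem cw_3237 : cfgs_3237.All CfgW :=
  all_cfgW (by decide +kernel) ⟨⟨⟨⟨B.rf21k39,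
   B.rf6k182⟩,
   ⟨B.rf28k13,
   B.rf12k60⟩⟩,
   ⟨⟨B.rf27k12,
   B.rf23k32⟩,
   ⟨B.rf23k33,
   ⟨B.rf14k65,
   B.rf20k90⟩⟩⟩⟩,
   ⟨⟨⟨B.rf20k24,
   B.rf18k8⟩,
   ⟨B.rf16k16,
   B.rf12k55⟩⟩,
   ⟨⟨B.rf26k10,
   B.rf3k227⟩,
   ⟨B.rf25k20,
   ⟨B.rf16k36,
   B.rf22k51⟩⟩⟩⟩⟩

theorem cw_3255 : cfgs_3255.All CfgW :=
  all_cfgW (by decide +kernel) ⟨⟨⟨⟨B.rf24k11,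
   B.rf23k34⟩,
   ⟨B.rf13k55,
   B.rf24k39⟩⟩,
   ⟨⟨B.rf17k2,
   B.rf16k37⟩,
   ⟨B.rf14k8,
   ⟨B.rf15k7,
   B.rf6k161⟩⟩⟩⟩,
   ⟨⟨⟨B.rf29k1,
   B.rf17k7⟩,
   ⟨B.rf22k52,
   B.rf3k157⟩⟩,
   ⟨⟨B.rf22k53,
   B.rf13k56⟩,
   ⟨B.rf22k20,
   ⟨B.rf1k101,
   B.rf21k0⟩⟩⟩⟩⟩

theorem cw_3273 : cfgs_3273.All CfgW :=
  all_cfgW (by decide +kernel) ⟨⟨⟨⟨B.rf14k66,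
   B.rf13k4⟩,
   ⟨B.rf13k5,
   B.rf13k6⟩⟩,
   ⟨⟨B.rf21k67,
   B.rf13k94⟩,
   ⟨B.rf19k45,
   B.rf1k51⟩⟩⟩,
   ⟨⟨⟨B.rf14k4,
   B.rf1k254⟩,
   ⟨B.rf13k95,
   B.rf15k43⟩⟩,
   ⟨⟨B.rf19k46,
   B.rf16k42⟩,
   ⟨B.rf16k43,
   ⟨B.rf16k2,
   B.rf6k115⟩⟩⟩⟩⟩

theorem cw_3290 : cfgs_3290.All CfgW :=
  all_cfgW (by decide +kernel) ⟨⟨⟨⟨B.rf13k33,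
   B.rf27k5⟩,
   ⟨B.rf22k54,
   B.rf1k235⟩⟩,
   ⟨⟨B.rf19k47,
   B.rf1k243⟩,
   ⟨B.rf16k44,
   ⟨B.rf22k38,
   B.rf23k35⟩⟩⟩⟩,
   ⟨⟨⟨B.rf16k45,
   B.rf20k69⟩,
   ⟨B.rf3k187,
   B.rf17k6⟩⟩,
   ⟨⟨B.rf15k18,
   B.rf26k18⟩,
   ⟨B.rf21k19,
   ⟨B.rf22k39,
   B.rf24k25⟩⟩⟩⟩⟩

theorem cw_3308 : cfgs_3308.All CfgW :=
  all_cfgW (by decide +kernel) ⟨⟨⟨⟨B.rf3k44,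
   B.rf20k4⟩,
   ⟨B.rf23k13,
   B.rf3k110⟩⟩,
   ⟨⟨B.rf20k5,
   B.rf1k155⟩,
   ⟨B.rf16k3,
   ⟨B.rf21k20,
   B.rf17k21⟩⟩⟩⟩,
   ⟨⟨⟨B.rf27k13,
   B.rf21k68⟩,
   ⟨B.rf20k6,
   B.rf14k34⟩⟩,
   ⟨⟨B.rf1k244,
   B.rf3k175⟩,
   ⟨B.rf20k7,
   ⟨B.rf1k288,
   B.rf0k26⟩⟩⟩⟩⟩

theorem cw_3326 : cfgs_3326.All CfgW :=
  all_cfgW (by decide +kernel) ⟨⟨⟨⟨B.rf13k96,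
   B.rf21k1⟩,
   ⟨B.rf20k70,
   B.rf16k4⟩⟩,
   ⟨⟨B.rf25k29,
   B.rf21k69⟩,
   ⟨B.rf13k34,
   ⟨B.rf22k40,
   B.rf21k70⟩⟩⟩⟩,
   ⟨⟨⟨B.rf21k71,
   B.rf6k190⟩,
   ⟨B.rf21k21,
   B.rf15k19⟩⟩,
   ⟨⟨B.rf22k41,
   B.rf14k85⟩,
   ⟨B.rf15k44,
   ⟨B.rf27k1,
   B.rf20k8⟩⟩⟩⟩⟩

theorem cw_3344 : cfgs_3344.All CfgW :=
  all_cfgW (by decide +kernel) ⟨⟨⟨⟨B.rf13k35,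
   B.rf0k204⟩,
   ⟨B.rf24k26,
   B.rf24k27⟩⟩,
   ⟨⟨B.rf13k97,
   B.rf13k36⟩,
   ⟨B.rf1k285,
   ⟨B.rf21k72,
   B.rf3k72⟩⟩⟩⟩,
   ⟨⟨⟨B.rf19k48,
   B.rf3k96⟩,
   ⟨B.rf20k71,
   B.rf22k42⟩⟩,
   ⟨⟨B.rf0k160,
   B.rf19k71⟩,
   ⟨B.rf27k6,
   ⟨B.rf0k196,
   B.rf17k22⟩⟩⟩⟩⟩

theorem cw_3362 : cfgs_3362.All CfgW :=
  all_cfgW (by decide +kernel) ⟨⟨⟨⟨B.rf13k57,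
   B.rf14k35⟩,
   ⟨B.rf14k86,
   B.rf14k36⟩⟩,
   ⟨⟨B.rf13k98,
   B.rf15k20⟩,
   ⟨B.rf19k72,
   ⟨B.rf21k73,
   B.rf15k45⟩⟩⟩⟩,
   ⟨⟨⟨B.rf14k5,
   B.rf24k1⟩,
   ⟨B.rf20k72,
   B.rf17k27⟩⟩,
   ⟨⟨B.rf14k87,
   B.rf25k30⟩,
   ⟨B.rf13k99,
   ⟨B.rf21k74,
   B.rf14k37⟩⟩⟩⟩⟩

theorem cw_3380 : cfgs_3380.All CfgW :=
  all_cfgW (by decide +kernel) ⟨⟨⟨⟨B.rf15k21,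
   B.rf15k22⟩,
   ⟨B.rf30k1,
   B.rf23k14⟩⟩,
   ⟨⟨B.rf20k9,
   B.rf16k46⟩,
   ⟨B.rf20k73,
   ⟨B.rf0k111,
   B.rf20k10⟩⟩⟩⟩,
   ⟨⟨⟨B.rf13k37,
   B.rf19k3⟩,
   ⟨B.rf19k49,
   B.rf20k11⟩⟩,
   ⟨⟨B.rf13k38,
   B.rf13k100⟩,
   ⟨B.rf16k47,
   ⟨B.rf28k4,
   B.rf20k12⟩⟩⟩⟩⟩

theorem cw_3398 : cfgs_3398.All CfgW :=
  all_cfgW (by decide +kernel) ⟨⟨⟨⟨B.rf24k2,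
   B.rf14k38⟩,
   ⟨B.rf20k13,
   B.rf16k5⟩⟩,
   ⟨⟨B.rf19k50,
   B.rf20k74⟩,
   ⟨B.rf13k39,
   ⟨B.rf13k101,
   B.rf21k22⟩⟩⟩⟩,
   ⟨⟨⟨B.rf24k28,
   B.rf13k102⟩,
   ⟨B.rf21k23,
   B.rf20k75⟩⟩,
   ⟨⟨B.rf19k51,
   B.rf19k52⟩,
   ⟨B.rf14k88,
   ⟨B.rf14k89,
   B.rf21k24⟩⟩⟩⟩⟩


end Pool.Agent.Lib.G6.Z
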