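import Pool.Agent.Lib.G6.All
import Pool.Agent.Lib.G6D.ZCfgs
import Pool.Agent.Lib.G6D.RFP0
import Pool.Agent.Lib.G6D.RFP1
import Pool.Agent.Lib.G6D.RFP10
import Pool.Agent.Lib.G6D.RFP11
import Pool.Agent.Lib.G6D.RFP2
import Pool.Agent.Lib.G6D.RFP3
import Pool.Agent.Lib.G6D.RFP4
import Pool.Agent.Lib.G6D.RFP5
import Pool.Agent.Lib.G6D.RFP7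
import Pool.Agent.Lib.G6D.RFP8
import Pool.Agent.Lib.G6D.RFP9

set_option autoImplicit false
set_option maxRecDepth 100000
set_option linter.all false

namespace Pool.Agent.Lib.G6.Z

open Pool.Agent.Lib.G6 Pool.Agent.Lib.G6.K
open Pool.Agent.Lib.MP_bfaad3_co (BT)

theorem cw_3416 : cfgs_3416.All CfgW :=
  all_cfgW (by decide +kernel) ⟨⟨⟨⟨B.rf20k14,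
   B.rf21k25⟩,
   ⟨B.rf13k40,
   B.rf21k75⟩⟩,
   ⟨⟨B.rf19k53,
   B.rf21k26⟩,
   ⟨B.rf0k133,
   B.rf13k103⟩⟩⟩,
   ⟨⟨⟨B.rf19k54,
   B.rf13k104⟩,
   ⟨B.rf19k55,
   B.rf21k27⟩⟩,
   ⟨⟨B.rf15k23,
   B.rf13k105⟩,
   ⟨B.rf21k76,
   ⟨B.rf14k39,
   B.rf19k56⟩⟩⟩⟩⟩

theorem cw_3433 : cfgs_3433.All CfgW :=
  all_cfgW (by decide +kernel) ⟨⟨⟨⟨B.rf13k41,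
   B.rf13k106⟩,
   ⟨B.rf0k348,
   B.rf13k42⟩⟩,
   ⟨⟨B.rf0k249,
   B.rf21k28⟩,
   ⟨B.rf1k69,
   ⟨B.rf41k1,
   B.rf6k173⟩⟩⟩⟩,
   ⟨⟨⟨B.rf45k2,
   B.rf3k111⟩,
   ⟨B.rf34k10,
   B.rf32k3⟩⟩,
   ⟨⟨B.rf37k8,
   B.rf3k158⟩,
   ⟨B.rf30k10,
   ⟨B.rf35k14,
   B.rf3k153⟩⟩⟩⟩⟩

theorem cw_3451 : cfgs_3451.All CfgW :=
  all_cfgW (by decide +kernel) ⟨⟨⟨⟨B.rf37k9,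
   B.rf3k73⟩,
   ⟨B.rf12k70,
   B.rf6k129⟩⟩,
   ⟨⟨B.rf45k1,
   B.rf3k45⟩,
   ⟨B.rf6k200,
   ⟨B.rf34k7,
   B.rf31k19⟩⟩⟩⟩,
   ⟨⟨⟨B.rf39k3,
   B.rf1k192⟩,
   ⟨B.rf43k4,
   B.rf37k10⟩⟩,
   ⟨⟨B.rf1k221,
   B.rf37k11⟩,
   ⟨B.rf41k11,
   ⟨B.rf34k1,
   B.rf39k15⟩⟩⟩⟩⟩

theorem cw_3469 : cfgs_3469.All CfgW :=
  all_cfgW (by decide +kernel) ⟨⟨⟨⟨B.rf40k13,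
   B.rf38k8⟩,
   ⟨B.rf35k15,
   B.rf38k9⟩⟩,
   ⟨⟨B.rf31k9,
   B.rf33k3⟩,
   ⟨B.rf0k217,
   ⟨B.rf35k16,
   B.rf37k12⟩⟩⟩⟩,
   ⟨⟨⟨B.rf37k21,
   B.rf12k54⟩,
   ⟨B.rf6k146,
   B.rf42k4⟩⟩,
   ⟨⟨B.rf38k10,
   B.rf45k4⟩,
   ⟨B.rf36k23,
   ⟨B.rf38k11,
   B.rf36k0⟩⟩⟩⟩⟩

theorem cw_3487 : cfgs_3487.All CfgW :=
  all_cfgW (by decide +kernel) ⟨⟨⟨⟨B.rf39k16,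
   B.rf39k4⟩,
   ⟨B.rf40k0,
   B.rf0k205⟩⟩,
   ⟨⟨B.rf31k10,
   B.rf0k154⟩,
   ⟨B.rf40k1,
   B.rf39k5⟩⟩⟩,
   ⟨⟨⟨B.rf31k11,
   B.rf31k12⟩,
   ⟨B.rf44k2,
   B.rf0k104⟩⟩,
   ⟨⟨B.rf37k22,
   B.rf36k18⟩,
   ⟨B.rf36k19,
   ⟨B.rf35k1,
   B.rf30k11⟩⟩⟩⟩⟩

theorem cw_3504 : cfgs_3504.All CfgW :=
  all_cfgW (by decide +kernel) ⟨⟨⟨⟨B.rf36k1,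
   B.rf1k202⟩,
   ⟨B.rf0k14,
   B.rf29k19⟩⟩,
   ⟨⟨B.rf36k2,
   B.rf36k3⟩,
   ⟨B.rf30k12,
   ⟨B.rf36k4,
   B.rf3k74⟩⟩⟩⟩,
   ⟨⟨⟨B.rf29k20,
   B.rf31k2⟩,
   ⟨B.rf38k0,
   B.rf30k13⟩⟩,
   ⟨⟨B.rf37k13,
   B.rf30k14⟩,
   ⟨B.rf29k21,
   ⟨B.rf29k22,
   B.rf30k15⟩⟩⟩⟩⟩

theorem cw_3522 : cfgs_3522.All CfgW :=
  all_cfgW (by decide +kernel) ⟨⟨⟨⟨B.rf29k23,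
   B.rf32k0⟩,
   ⟨B.rf36k5,
   B.rf37k14⟩⟩,
   ⟨⟨B.rf40k2,
   B.rf32k12⟩,
   ⟨B.rf3k75,
   ⟨B.rf35k5,
   B.rf0k85⟩⟩⟩⟩,
   ⟨⟨⟨B.rf0k100,
   B.rf0k105⟩,
   ⟨B.rf0k103,
   B.rf0k101⟩⟩,
   ⟨⟨B.rf0k74,
   B.rf0k80⟩,
   ⟨B.rf0k83,
   ⟨B.rf0k389,
   B.rf0k386⟩⟩⟩⟩⟩

theorem cw_3540 : cfgs_3540.All CfgW :=
  all_cfgW (by decide +kernel) ⟨⟨⟨⟨B.rf0k355,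
   B.rf0k383⟩,
   ⟨B.rf0k384,
   B.rf0k291⟩⟩,
   ⟨⟨B.rf0k305,
   B.rf1k33⟩,
   ⟨B.rf0k329,
   ⟨B.rf0k330,
   B.rf0k298⟩⟩⟩⟩,
   ⟨⟨⟨B.rf1k24,
   B.rf0k397⟩,
   ⟨B.rf0k319,
   B.rf0k377⟩⟩,
   ⟨⟨B.rf1k9,
   B.rf0k368⟩,
   ⟨B.rf0k378,
   ⟨B.rf0k380,
   B.rf1k29⟩⟩⟩⟩⟩

theorem cw_3558 : cfgs_3558.All CfgW :=
  all_cfgW (by decide +kernel) ⟨⟨⟨⟨B.rf0k312,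
   B.rf0k313⟩,
   ⟨B.rf0k340,
   B.rf0k314⟩⟩,
   ⟨⟨B.rf0k86,
   B.rf0k297⟩,
   ⟨B.rf0k379,
   B.rf0k294⟩⟩⟩,
   ⟨⟨⟨B.rf0k335,
   B.rf1k297⟩,
   ⟨B.rf1k336,
   B.rf2k220⟩⟩,
   ⟨⟨B.rf1k326,
   B.rf2k269⟩,
   ⟨B.rf2k75,
   ⟨B.rf2k85,
   B.rf1k331⟩⟩⟩⟩⟩

theorem cw_3575 : cfgs_3575.All CfgW :=
  all_cfgW (by decide +kernel) ⟨⟨⟨⟨B.rf2k84,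
   B.rf2k72⟩,
   ⟨B.rf2k77,
   B.rf1k298⟩⟩,
   ⟨⟨B.rf2k106,
   B.rf2k103⟩,
   ⟨B.rf2k101,
   ⟨B.rf1k319,
   B.rf2k241⟩⟩⟩⟩,
   ⟨⟨⟨B.rf2k86,
   B.rf1k328⟩,
   ⟨B.rf2k122,
   B.rf1k368⟩⟩,
   ⟨⟨B.rf1k373,
   B.rf2k124⟩,
   ⟨B.rf2k83,
   ⟨B.rf1k327,
   B.rf1k384⟩⟩⟩⟩⟩

theorem cw_3593 : cfgs_3593.All CfgW :=
  all_cfgW (by decide +kernel) ⟨⟨⟨⟨B.rf3k239,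
   B.rf1k320⟩,
   ⟨B.rf1k321,
   B.rf2k65⟩⟩,
   ⟨⟨B.rf2k60,
   B.rf3k41⟩,
   ⟨B.rf2k207,
   ⟨B.rf3k18,
   B.rf2k172⟩⟩⟩⟩,
   ⟨⟨⟨B.rf3k27,
   B.rf2k254⟩,
   ⟨B.rf3k180,
   B.rf3k29⟩⟩,
   ⟨⟨B.rf3k13,
   B.rf3k25⟩,
   ⟨B.rf2k173,
   ⟨B.rf2k174,
   B.rf1k414⟩⟩⟩⟩⟩

theorem cw_3611 : cfgs_3611.All CfgW :=
  all_cfgW (by decide +kernel) ⟨⟨⟨⟨B.rf2k7,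
   B.rf2k96⟩,
   ⟨B.rf2k259,
   B.rf3k32⟩⟩,
   ⟨⟨B.rf2k208,
   B.rf1k424⟩,
   ⟨B.rf1k316,
   ⟨B.rf1k415,
   B.rf2k97⟩⟩⟩⟩,
   ⟨⟨⟨B.rf3k23,
   B.rf2k2⟩,
   ⟨B.rf2k20,
   B.rf3k209⟩⟩,
   ⟨⟨B.rf2k156,
   B.rf2k157⟩,
   ⟨B.rf2k138,
   ⟨B.rf2k35,
   B.rf2k16⟩⟩⟩⟩⟩

theorem cw_3629 : cfgs_3629.All CfgW :=
  all_cfgW (by decide +kernel) ⟨⟨⟨⟨B.rf1k416,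
   B.rf1k390⟩,
   ⟨B.rf1k362,
   B.rf3k26⟩⟩,
   ⟨⟨B.rf2k209,
   B.rf2k8⟩,
   ⟨B.rf1k355,
   B.rf2k34⟩⟩⟩,
   ⟨⟨⟨B.rf3k9,
   B.rf2k210⟩,
   ⟨B.rf2k9,
   B.rf1k356⟩⟩,
   ⟨⟨B.rf1k357,
   B.rf2k67⟩,
   ⟨B.rf1k317,
   ⟨B.rf2k139,
   B.rf1k417⟩⟩⟩⟩⟩

theorem cw_3646 : cfgs_3646.All CfgW :=
  all_cfgW (by decide +kernel) ⟨⟨⟨⟨B.rf2k186,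
   B.rf2k187⟩,
   ⟨B.rf2k177,
   B.rf2k214⟩⟩,
   ⟨⟨B.rf2k41,
   B.rf2k17⟩,
   ⟨B.rf2k227,
   ⟨B.rf1k395,
   B.rf2k211⟩⟩⟩⟩,
   ⟨⟨⟨B.rf2k234,
   B.rf2k212⟩,
   ⟨B.rf0k61,
   B.rf2k235⟩⟩,
   ⟨⟨B.rf1k358,
   B.rf1k394⟩,
   ⟨B.rf2k253,
   ⟨B.rf1k359,
   B.rf1k318⟩⟩⟩⟩⟩

theorem cw_3664 : cfgs_3664.All CfgW :=
  all_cfgW (by decide +kernel) ⟨⟨⟨⟨B.rf2k175,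
   B.rf2k245⟩,
   ⟨B.rf1k425,
   B.rf1k418⟩⟩,
   ⟨⟨B.rf2k98,
   B.rf1k360⟩,
   ⟨B.rf2k99,
   ⟨B.rf2k100,
   B.rf2k58⟩⟩⟩⟩,
   ⟨⟨⟨B.rf2k59,
   B.rf2k140⟩,
   ⟨B.rf2k141,
   B.rf5k21⟩⟩,
   ⟨⟨B.rf1k310,
   B.rf2k128⟩,
   ⟨B.rf1k375,
   ⟨B.rf2k129,
   B.rf2k142⟩⟩⟩⟩⟩

theorem cw_3682 : cfgs_3682.All CfgW :=
  all_cfgW (by decide +kernel) ⟨⟨⟨⟨B.rf1k343,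
   B.rf2k53⟩,
   ⟨B.rf9k25,
   B.rf1k344⟩⟩,
   ⟨⟨B.rf1k376,
   B.rf2k89⟩,
   ⟨B.rf1k345,
   ⟨B.rf3k261,
   B.rf4k95⟩⟩⟩⟩,
   ⟨⟨⟨B.rf5k119,
   B.rf4k141⟩,
   ⟨B.rf4k273,
   B.rf5k117⟩⟩,
   ⟨⟨B.rf3k43,
   B.rf5k31⟩,
   ⟨B.rf4k138,
   ⟨B.rf3k262,
   B.rf5k179⟩⟩⟩⟩⟩

theorem cw_3700 : cfgs_3700.All CfgW :=
  all_cfgW (by decide +kernel) ⟨⟨⟨⟨B.rf0k49,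
   B.rf3k306⟩,
   ⟨B.rf5k184,
   B.rf4k274⟩⟩,
   ⟨⟨B.rf3k270,
   B.rf5k27⟩,
   ⟨B.rf4k275,
   B.rf4k40⟩⟩⟩,
   ⟨⟨⟨B.rf4k268,
   B.rf5k257⟩,
   ⟨B.rf5k175,
   B.rf3k312⟩⟩,
   ⟨⟨B.rf5k101,
   B.rf5k22⟩,
   ⟨B.rf4k140,
   ⟨B.rf5k23,
   B.rf4k45⟩⟩⟩⟩⟩

theorem cw_3717 : cfgs_3717.All CfgW :=
  all_cfgW (by decide +kernel) ⟨⟨⟨⟨B.rf4k265,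
   B.rf5k176⟩,
   ⟨B.rf7k135,
   B.rf5k111⟩⟩,
   ⟨⟨B.rf5k107,
   B.rf9k176⟩,
   ⟨B.rf5k102,
   ⟨B.rf4k266,
   B.rf5k103⟩⟩⟩⟩,
   ⟨⟨⟨B.rf3k273,
   B.rf3k313⟩,
   ⟨B.rf6k116,
   B.rf6k103⟩⟩,
   ⟨⟨B.rf6k120,
   B.rf6k21⟩,
   ⟨B.rf5k234,
   ⟨B.rf6k155,
   B.rf6k51⟩⟩⟩⟩⟩

theorem cw_3735 : cfgs_3735.All CfgW :=
  all_cfgW (by decide +kernel) ⟨⟨⟨⟨B.rf3k129,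
   B.rf6k18⟩,
   ⟨B.rf4k178,
   B.rf6k48⟩⟩,
   ⟨⟨B.rf0k143,
   B.rf6k166⟩,
   ⟨B.rf5k318,
   ⟨B.rf4k212,
   B.rf4k25⟩⟩⟩⟩,
   ⟨⟨⟨B.rf4k123,
   B.rf4k26⟩,
   ⟨B.rf5k287,
   B.rf6k66⟩⟩,
   ⟨⟨B.rf4k124,
   B.rf6k44⟩,
   ⟨B.rf6k60,
   ⟨B.rf6k188,
   B.rf0k250⟩⟩⟩⟩⟩

theorem cw_3753 : cfgs_3753.All CfgW :=
  all_cfgW (by decide +kernel) ⟨⟨⟨⟨B.rf6k89,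
   B.rf0k282⟩,
   ⟨B.rf6k10,
   B.rf6k36⟩⟩,
   ⟨⟨B.rf5k278,
   B.rf5k306⟩,
   ⟨B.rf1k283,
   ⟨B.rf4k235,
   B.rf6k90⟩⟩⟩⟩,
   ⟨⟨⟨B.rf6k91,
   B.rf5k235⟩,
   ⟨B.rf5k236,
   B.rf1k113⟩⟩,
   ⟨⟨B.rf5k95,
   B.rf4k125⟩,
   ⟨B.rf5k307,
   ⟨B.rf4k27,
   B.rf4k28⟩⟩⟩⟩⟩

theorem cw_3771 : cfgs_3771.All CfgW :=
  all_cfgW (by decide +kernel) ⟨⟨⟨⟨B.rf0k134,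
   B.rf5k237⟩,
   ⟨B.rf6k61,
   B.rf4k126⟩⟩,
   ⟨⟨B.rf5k238,
   B.rf6k74⟩,
   ⟨B.rf3k178,
   B.rf4k131⟩⟩⟩,
   ⟨⟨⟨B.rf5k239,
   B.rf0k285⟩,
   ⟨B.rf0k259,
   B.rf6k22⟩⟩,
   ⟨⟨B.rf6k37,
   B.rf5k167⟩,
   ⟨B.rf3k179,
   ⟨B.rf5k252,
   B.rf5k249⟩⟩⟩⟩⟩

theorem cw_3788 : cfgs_3788.All CfgW :=
  all_cfgW (by decide +kernel) ⟨⟨⟨⟨B.rf5k14,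
   B.rf4k29⟩,
   ⟨B.rf5k283,
   B.rf5k158⟩⟩,
   ⟨⟨B.rf6k38,
   B.rf5k96⟩,
   ⟨B.rf9k175,
   ⟨B.rf6k212,
   B.rf5k253⟩⟩⟩⟩,
   ⟨⟨⟨B.rf5k240,
   B.rf4k127⟩,
   ⟨B.rf2k143,
   B.rf5k315⟩⟩,
   ⟨⟨B.rf5k168,
   B.rf5k314⟩,
   ⟨B.rf4k30,
   ⟨B.rf5k313,
   B.rf3k47⟩⟩⟩⟩⟩

theorem cw_3806 : cfgs_3806.All CfgW :=
  all_cfgW (by decide +kernel) ⟨⟨⟨⟨B.rf5k319,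
   B.rf5k241⟩,
   ⟨B.rf6k11,
   B.rf6k207⟩⟩,
   ⟨⟨B.rf5k17,
   B.rf4k240⟩,
   ⟨B.rf5k242,
   ⟨B.rf5k97,
   B.rf5k279⟩⟩⟩⟩,
   ⟨⟨⟨B.rf6k121,
   B.rf4k191⟩,
   ⟨B.rf4k209,
   B.rf4k154⟩⟩,
   ⟨⟨B.rf4k128,
   B.rf4k155⟩,
   ⟨B.rf4k79,
   ⟨B.rf5k159,
   B.rf5k243⟩⟩⟩⟩⟩

theorem cw_3824 : cfgs_3824.All CfgW :=
  all_cfgW (by decide +kernel) ⟨⟨⟨⟨B.rf4k31,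
   B.rf4k129⟩,
   ⟨B.rf5k308,
   B.rf5k98⟩⟩,
   ⟨⟨B.rf5k309,
   B.rf5k254⟩,
   ⟨B.rf4k135,
   ⟨B.rf4k179,
   B.rf5k109⟩⟩⟩⟩,
   ⟨⟨⟨B.rf4k174,
   B.rf6k12⟩,
   ⟨B.rf5k99,
   B.rf4k130⟩⟩,
   ⟨⟨B.rf5k244,
   B.rf5k160⟩,
   ⟨B.rf5k280,
   ⟨B.rf4k175,
   B.rf5k161⟩⟩⟩⟩⟩


end Pool.Agent.Lib.G6.Z
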