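import Pool.Agent.Lib.G6D.ZRed0
import Pool.Agent.Lib.G6D.ZRed1
import Pool.Agent.Lib.G6D.ZRed2
import Pool.Agent.Lib.G6D.ZRed3
import Pool.Agent.Lib.G6D.ZRed4
import Pool.Agent.Lib.G6D.ZRed5
import Pool.Agent.Lib.G6D.ZRed6
import Pool.Agent.Lib.G6D.ZRed7
import Pool.Agent.Lib.G6D.ZRed8
import Pool.Agent.Lib.G6D.ZRed9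
import Pool.Agent.Lib.G6D.ZRed10

set_option autoImplicit false
set_option maxRecDepth 100000
set_option linter.all false

namespace Pool.Agent.Lib.G6.Z

open Pool.Agent.Lib.G6 Pool.Agent.Lib.G6.K
open Pool.Agent.Lib.MP_bfaad3_co (BT)

theorem cfgs_w : cfgs.All CfgW :=
  ⟨⟨⟨⟨⟨⟨⟨⟨cw_0,
   cw_17⟩,
   ⟨cw_35,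
   cw_53⟩⟩,
   ⟨⟨cw_71,
   cw_88⟩,
   ⟨cw_106,
   cw_124⟩⟩⟩,
   ⟨⟨⟨cw_142,
   cw_159⟩,
   ⟨cw_177,
   cw_195⟩⟩,
   ⟨⟨cw_213,
   cw_230⟩,
   ⟨cw_248,
   cw_266⟩⟩⟩⟩,
   ⟨⟨⟨⟨cw_284,
   cw_301⟩,
   ⟨cw_319,
   cw_337⟩⟩,
   ⟨⟨cw_355,
   cw_372⟩,
   ⟨cw_390,
   cw_408⟩⟩⟩,
   ⟨⟨⟨cw_426,
   cw_443⟩,
   ⟨cw_461,
   cw_479⟩⟩,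
   ⟨⟨cw_497,
   cw_515⟩,
   ⟨cw_533,
   cw_551⟩⟩⟩⟩⟩,
   ⟨⟨⟨⟨⟨cw_569,
   cw_586⟩,
   ⟨cw_604,
   cw_622⟩⟩,
   ⟨⟨cw_640,
   cw_657⟩,
   ⟨cw_675,
   cw_693⟩⟩⟩,
   ⟨⟨⟨cw_711,
   cw_728⟩,
   ⟨cw_746,
   cw_764⟩⟩,
   ⟨⟨cw_782,
   cw_799⟩,
   ⟨cw_817,
   cw_835⟩⟩⟩⟩,
   ⟨⟨⟨⟨cw_853,
   cw_870⟩,
   ⟨cw_888,
   cw_906⟩⟩,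
   ⟨⟨cw_924,
   cw_941⟩,
   ⟨cw_959,
   cw_977⟩⟩⟩,
   ⟨⟨⟨cw_995,
   cw_1012⟩,
   ⟨cw_1030,
   cw_1048⟩⟩,
   ⟨⟨cw_1066,
   cw_1084⟩,
   ⟨cw_1102,
   cw_1120⟩⟩⟩⟩⟩⟩,
   ⟨⟨⟨⟨⟨⟨cw_1138,
   cw_1155⟩,
   ⟨cw_1173,
   cw_1191⟩⟩,
   ⟨⟨cw_1209,
   cw_1226⟩,
   ⟨cw_1244,
   cw_1262⟩⟩⟩,
   ⟨⟨⟨cw_1280,
   cw_1297⟩,
   ⟨cw_1315,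
   cw_1333⟩⟩,
   ⟨⟨cw_1351,
   cw_1368⟩,
   ⟨cw_1386,
   cw_1404⟩⟩⟩⟩,
   ⟨⟨⟨⟨cw_1422,
   cw_1439⟩,
   ⟨cw_1457,
   cw_1475⟩⟩,
   ⟨⟨cw_1493,
   cw_1510⟩,
   ⟨cw_1528,
   cw_1546⟩⟩⟩,
   ⟨⟨⟨cw_1564,
   cw_1581⟩,
   ⟨cw_1599,
   cw_1617⟩⟩,
   ⟨⟨cw_1635,
   cw_1653⟩,
   ⟨cw_1671,
   cw_1689⟩⟩⟩⟩⟩,
   ⟨⟨⟨⟨⟨cw_1707,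
   cw_1724⟩,
   ⟨cw_1742,
   cw_1760⟩⟩,
   ⟨⟨cw_1778,
   cw_1795⟩,
   ⟨cw_1813,
   cw_1831⟩⟩⟩,
   ⟨⟨⟨cw_1849,
   cw_1866⟩,
   ⟨cw_1884,
   cw_1902⟩⟩,
   ⟨⟨cw_1920,
   cw_1938⟩,
   ⟨cw_1956,
   cw_1974⟩⟩⟩⟩,
   ⟨⟨⟨⟨cw_1992,
   cw_2009⟩,
   ⟨cw_2027,
   cw_2045⟩⟩,
   ⟨⟨cw_2063,
   cw_2080⟩,
   ⟨cw_2098,
   cw_2116⟩⟩⟩,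
   ⟨⟨⟨cw_2134,
   cw_2151⟩,
   ⟨cw_2169,
   cw_2187⟩⟩,
   ⟨⟨cw_2205,
   cw_2223⟩,
   ⟨cw_2241,
   cw_2259⟩⟩⟩⟩⟩⟩⟩,
   ⟨⟨⟨⟨⟨⟨⟨cw_2277,
   cw_2294⟩,
   ⟨cw_2312,
   cw_2330⟩⟩,
   ⟨⟨cw_2348,
   cw_2365⟩,
   ⟨cw_2383,
   cw_2401⟩⟩⟩,
   ⟨⟨⟨cw_2419,
   cw_2436⟩,
   ⟨cw_2454,
   cw_2472⟩⟩,
   ⟨⟨cw_2490,
   cw_2507⟩,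
   ⟨cw_2525,
   cw_2543⟩⟩⟩⟩,
   ⟨⟨⟨⟨cw_2561,
   cw_2578⟩,
   ⟨cw_2596,
   cw_2614⟩⟩,
   ⟨⟨cw_2632,
   cw_2649⟩,
   ⟨cw_2667,
   cw_2685⟩⟩⟩,
   ⟨⟨⟨cw_2703,
   cw_2720⟩,
   ⟨cw_2738,
   cw_2756⟩⟩,
   ⟨⟨cw_2774,
   cw_2792⟩,
   ⟨cw_2810,
   cw_2828⟩⟩⟩⟩⟩,
   ⟨⟨⟨⟨⟨cw_2846,
   cw_2863⟩,
   ⟨cw_2881,
   cw_2899⟩⟩,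
   ⟨⟨cw_2917,
   cw_2934⟩,
   ⟨cw_2952,
   cw_2970⟩⟩⟩,
   ⟨⟨⟨cw_2988,
   cw_3005⟩,
   ⟨cw_3023,
   cw_3041⟩⟩,
   ⟨⟨cw_3059,
   cw_3077⟩,
   ⟨cw_3095,
   cw_3113⟩⟩⟩⟩,
   ⟨⟨⟨⟨cw_3131,
   cw_3148⟩,
   ⟨cw_3166,
   cw_3184⟩⟩,
   ⟨⟨cw_3202,
   cw_3219⟩,
   ⟨cw_3237,
   cw_3255⟩⟩⟩,
   ⟨⟨⟨cw_3273,
   cw_3290⟩,
   ⟨cw_3308,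
   cw_3326⟩⟩,
   ⟨⟨cw_3344,
   cw_3362⟩,
   ⟨cw_3380,
   cw_3398⟩⟩⟩⟩⟩⟩,
   ⟨⟨⟨⟨⟨⟨cw_3416,
   cw_3433⟩,
   ⟨cw_3451,
   cw_3469⟩⟩,
   ⟨⟨cw_3487,
   cw_3504⟩,
   ⟨cw_3522,
   cw_3540⟩⟩⟩,
   ⟨⟨⟨cw_3558,
   cw_3575⟩,
   ⟨cw_3593,
   cw_3611⟩⟩,
   ⟨⟨cw_3629,
   cw_3646⟩,
   ⟨cw_3664,
   cw_3682⟩⟩⟩⟩,
   ⟨⟨⟨⟨cw_3700,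
   cw_3717⟩,
   ⟨cw_3735,
   cw_3753⟩⟩,
   ⟨⟨cw_3771,
   cw_3788⟩,
   ⟨cw_3806,
   cw_3824⟩⟩⟩,
   ⟨⟨⟨cw_3842,
   cw_3859⟩,
   ⟨cw_3877,
   cw_3895⟩⟩,
   ⟨⟨cw_3913,
   cw_3931⟩,
   ⟨cw_3949,
   cw_3967⟩⟩⟩⟩⟩,
   ⟨⟨⟨⟨⟨cw_3985,
   cw_4002⟩,
   ⟨cw_4020,
   cw_4038⟩⟩,
   ⟨⟨cw_4056,
   cw_4073⟩,
   ⟨cw_4091,
   cw_4109⟩⟩⟩,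
   ⟨⟨⟨cw_4127,
   cw_4144⟩,
   ⟨cw_4162,
   cw_4180⟩⟩,
   ⟨⟨cw_4198,
   cw_4216⟩,
   ⟨cw_4234,
   cw_4252⟩⟩⟩⟩,
   ⟨⟨⟨⟨cw_4270,
   cw_4287⟩,
   ⟨cw_4305,
   cw_4323⟩⟩,
   ⟨⟨cw_4341,
   cw_4358⟩,
   ⟨cw_4376,
   cw_4394⟩⟩⟩,
   ⟨⟨⟨cw_4412,
   cw_4429⟩,
   ⟨cw_4447,
   cw_4465⟩⟩,
   ⟨⟨cw_4483,
   cw_4501⟩,
   ⟨cw_4519,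
   cw_4537⟩⟩⟩⟩⟩⟩⟩⟩

end Pool.Agent.Lib.G6.Z
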