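import Pool.Agent.Lib.G6D.ZAll
import Pool.Agent.Lib.G6D.ZOk
import Pool.Agent.Lib.G6D.ZRed
import Pool.Agent.Lib.G6.BC1

set_option autoImplicit false
set_option maxRecDepth 100000
set_option linter.all false

namespace Pool.Agent.Lib.G6.Z

open Pool.Agent.Lib.G6 Pool.Agent.Lib.G6.K
open Pool.Agent.Lib.MP_bfaad3_co (BT)

theorem noCtx : NoCtx := noCtx_of (g_ok B.cfgs1_ok cfgs_w)

end Pool.Agent.Lib.G6.Z
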