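import Pool.Agent.Lib.G6D.ZPats0
import Pool.Agent.Lib.G6D.ZPats1
import Pool.Agent.Lib.G6D.ZPats2
import Pool.Agent.Lib.G6D.ZPats3
import Pool.Agent.Lib.G6D.ZPats4
import Pool.Agent.Lib.G6D.ZPats5

set_option autoImplicit false
set_option maxRecDepth 100000
set_option linter.all false

namespace Pool.Agent.Lib.G6.Z

open Pool.Agent.Lib.G6 Pool.Agent.Lib.G6.K
open Pool.Agent.Lib.MP_bfaad3_co (BT)

noncomputable def pats : ℕ → ℕ := (T16 (nat_lit 12)
 (T16 (nat_lit 8)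
 pats_0
 pats_1
 pats_2
 pats_3
 pats_4
 pats_5
 pats_6
 pats_7
 pats_8
 pats_9
 pats_10
 pats_11
 pats_12
 pats_13
 pats_14
 pats_15)
 (T16 (nat_lit 8)
 pats_16
 pats_17
 pats_18
 pats_19
 pats_20
 pats_21
 pats_22
 pats_23
 pats_24
 pats_25
 pats_26
 pats_27
 pats_28
 pats_29
 pats_30
 pats_31)
 (T16 (nat_lit 8)
 pats_32
 pats_33
 pats_34
 pats_35
 pats_36
 pats_37
 pats_38
 pats_39
 pats_40
 pats_41
 pats_42
 pats_43
 pats_44
 pats_45
 pats_46
 pats_47)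
 (T16 (nat_lit 8)
 pats_48
 pats_49
 pats_50
 pats_51
 pats_52
 pats_53
 pats_54
 pats_55
 pats_56
 pats_57
 pats_58
 pats_59
 pats_60
 pats_61
 pats_62
 pats_63)
 (T16 (nat_lit 8)
 pats_64
 pats_65
 pats_66
 pats_67
 pats_68
 pats_69
 pats_70
 pats_71
 pats_72
 pats_73
 pats_74
 pats_75
 pats_76
 pats_77
 pats_78
 pats_79)
 (T16 (nat_lit 8)
 pats_80
 pats_81
 pats_82
 pats_83
 pats_84
 pats_85
 pats_86
 pats_87
 pats_88
 pats_89
 pats_90
 pats_91
 pats_92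
 pats_93
 pats_94
 pats_95)
 (T16 (nat_lit 8)
 pats_96
 pats_97
 pats_98
 pats_99
 pats_100
 pats_101
 pats_102
 pats_103
 pats_104
 pats_105
 pats_106
 pats_107
 pats_108
 pats_109
 pats_110
 pats_111)
 (T16 (nat_lit 8)
 pats_112
 pats_113
 pats_114
 pats_115
 pats_116
 pats_117
 pats_118
 pats_119
 pats_120
 pats_121
 pats_122
 pats_123
 pats_124
 pats_125
 pats_126
 pats_127)
 (T16 (nat_lit 8)
 pats_128
 pats_129
 pats_130
 pats_131
 pats_132
 pats_133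
 pats_134
 pats_135
 pats_136
 pats_137
 pats_138
 pats_139
 pats_140
 pats_141
 pats_142
 pats_143)
 (T16 (nat_lit 8)
 pats_144
 pats_145
 pats_146
 pats_147
 pats_148
 pats_149
 pats_150
 pats_151
 pats_152
 pats_153
 pats_154
 pats_155
 pats_156
 pats_157
 pats_158
 pats_159)
 (T16 (nat_lit 8)
 pats_160
 pats_161
 pats_162
 pats_163
 pats_164
 pats_165
 pats_166
 pats_167
 pats_168
 pats_169
 pats_170
 pats_171
 pats_172
 pats_173
 pats_174
 pats_175)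
 (T16 (nat_lit 8)
 pats_176
 pats_177
 pats_178
 pats_179
 pats_180
 pats_181
 pats_182
 pats_183
 pats_184
 pats_185
 pats_186
 pats_187
 pats_188
 pats_189
 pats_190
 pats_191)
 (T16 (nat_lit 8)
 pats_192
 pats_193
 pats_194
 pats_195
 pats_196
 pats_197
 pats_198
 pats_199
 pats_200
 pats_201
 pats_202
 pats_203
 pats_204
 pats_205
 pats_206
 pats_207)
 (T16 (nat_lit 8)
 pats_208
 pats_209
 pats_210
 pats_211
 pats_212
 pats_213
 pats_214
 pats_215
 pats_216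
 pats_217
 pats_218
 pats_219
 pats_220
 pats_221
 pats_222
 pats_223)
 (T16 (nat_lit 8)
 pats_224
 pats_225
 pats_226
 pats_227
 pats_228
 pats_229 Z Z Z Z Z Z Z Z Z Z) Z)

end Pool.Agent.Lib.G6.Z
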