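import Pool.Agent.Lib.G6D.ZRule
import Pool.Agent.Lib.G6D.ZEnt
import Pool.Agent.Lib.G6D.ZPats
import Pool.Agent.Lib.G6D.ZCfgs

set_option autoImplicit false
set_option maxRecDepth 100000
set_option linter.all false

namespace Pool.Agent.Lib.G6.Z

open Pool.Agent.Lib.G6 Pool.Agent.Lib.G6.K
open Pool.Agent.Lib.MP_bfaad3_co (BT)

noncomputable def g : G := ⟨rule, fd, ents, pats, redF cfgs⟩

end Pool.Agent.Lib.G6.Z
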