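import Pool.Agent.Lib.G6.All
import Pool.Agent.Lib.G6D.ZCfgs
import Pool.Agent.Lib.G6D.RFP0
import Pool.Agent.Lib.G6D.RFP1
import Pool.Agent.Lib.G6D.RFP2

set_option autoImplicit false
set_option maxRecDepth 100000
set_option linter.all false

namespace Pool.Agent.Lib.G6.Z

open Pool.Agent.Lib.G6 Pool.Agent.Lib.G6.K
open Pool.Agent.Lib.MP_bfaad3_co (BT)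

theorem cw_0 : cfgs_0.All CfgW :=
  all_cfgW (by decide +kernel) ⟨⟨⟨⟨B.rf0k1,
   B.rf0k0⟩,
   ⟨B.rf0k4,
   B.rf0k6⟩⟩,
   ⟨⟨B.rf0k5,
   B.rf0k15⟩,
   ⟨B.rf0k7,
   B.rf0k20⟩⟩⟩,
   ⟨⟨⟨B.rf0k9,
   B.rf0k33⟩,
   ⟨B.rf0k92,
   B.rf0k165⟩⟩,
   ⟨⟨B.rf0k84,
   B.rf0k50⟩,
   ⟨B.rf0k95,
   ⟨B.rf0k148,
   B.rf0k94⟩⟩⟩⟩⟩

theorem cw_17 : cfgs_17.All CfgW :=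
  all_cfgW (by decide +kernel) ⟨⟨⟨⟨B.rf0k75,
   B.rf0k73⟩,
   ⟨B.rf0k44,
   B.rf0k82⟩⟩,
   ⟨⟨B.rf0k77,
   B.rf0k387⟩,
   ⟨B.rf0k388,
   ⟨B.rf0k192,
   B.rf0k324⟩⟩⟩⟩,
   ⟨⟨⟨B.rf0k323,
   B.rf0k8⟩,
   ⟨B.rf0k361,
   B.rf0k2⟩⟩,
   ⟨⟨B.rf0k342,
   B.rf1k27⟩,
   ⟨B.rf0k34,
   ⟨B.rf0k362,
   B.rf0k290⟩⟩⟩⟩⟩

theorem cw_35 : cfgs_35.All CfgW :=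
  all_cfgW (by decide +kernel) ⟨⟨⟨⟨B.rf0k315,
   B.rf0k303⟩,
   ⟨B.rf0k3,
   B.rf1k103⟩⟩,
   ⟨⟨B.rf0k301,
   B.rf3k127⟩,
   ⟨B.rf0k293,
   ⟨B.rf1k58,
   B.rf1k30⟩⟩⟩⟩,
   ⟨⟨⟨B.rf1k12,
   B.rf0k206⟩,
   ⟨B.rf0k394,
   B.rf0k369⟩⟩,
   ⟨⟨B.rf1k13,
   B.rf0k381⟩,
   ⟨B.rf0k391,
   ⟨B.rf0k220,
   B.rf1k79⟩⟩⟩⟩⟩

theorem cw_53 : cfgs_53.All CfgW :=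
  all_cfgW (by decide +kernel) ⟨⟨⟨⟨B.rf0k370,
   B.rf1k14⟩,
   ⟨B.rf3k143,
   B.rf0k395⟩⟩,
   ⟨⟨B.rf1k21,
   B.rf1k3⟩,
   ⟨B.rf1k250,
   ⟨B.rf0k382,
   B.rf1k15⟩⟩⟩⟩,
   ⟨⟨⟨B.rf1k11,
   B.rf1k0⟩,
   ⟨B.rf6k148,
   B.rf0k308⟩⟩,
   ⟨⟨B.rf1k168,
   B.rf0k309⟩,
   ⟨B.rf1k16,
   ⟨B.rf1k25,
   B.rf0k311⟩⟩⟩⟩⟩

theorem cw_71 : cfgs_71.All CfgW :=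
  all_cfgW (by decide +kernel) ⟨⟨⟨⟨B.rf1k102,
   B.rf1k4⟩,
   ⟨B.rf1k5,
   B.rf0k275⟩⟩,
   ⟨⟨B.rf1k22,
   B.rf0k392⟩,
   ⟨B.rf0k357,
   B.rf0k166⟩⟩⟩,
   ⟨⟨⟨B.rf0k398,
   B.rf0k295⟩,
   ⟨B.rf0k310,
   B.rf0k114⟩⟩,
   ⟨⟨B.rf1k10,
   B.rf0k306⟩,
   ⟨B.rf0k338,
   ⟨B.rf0k390,
   B.rf0k325⟩⟩⟩⟩⟩

theorem cw_88 : cfgs_88.All CfgW :=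
  all_cfgW (by decide +kernel) ⟨⟨⟨⟨B.rf2k110,
   B.rf0k66⟩,
   ⟨B.rf1k136,
   B.rf1k337⟩⟩,
   ⟨⟨B.rf2k147,
   B.rf2k239⟩,
   ⟨B.rf1k371,
   ⟨B.rf3k57,
   B.rf1k372⟩⟩⟩⟩,
   ⟨⟨⟨B.rf0k39,
   B.rf0k146⟩,
   ⟨B.rf2k117,
   B.rf2k73⟩⟩,
   ⟨⟨B.rf1k303,
   B.rf1k205⟩,
   ⟨B.rf2k111,
   ⟨B.rf1k299,
   B.rf1k300⟩⟩⟩⟩⟩

theorem cw_106 : cfgs_106.All CfgW :=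
  all_cfgW (by decide +kernel) ⟨⟨⟨⟨B.rf2k66,
   B.rf1k397⟩,
   ⟨B.rf2k162,
   B.rf1k332⟩⟩,
   ⟨⟨B.rf1k363,
   B.rf2k219⟩,
   ⟨B.rf2k78,
   ⟨B.rf2k118,
   B.rf1k219⟩⟩⟩⟩,
   ⟨⟨⟨B.rf1k367,
   B.rf1k335⟩,
   ⟨B.rf2k68,
   B.rf2k47⟩⟩,
   ⟨⟨B.rf2k114,
   B.rf2k145⟩,
   ⟨B.rf1k369,
   ⟨B.rf2k191,
   B.rf2k178⟩⟩⟩⟩⟩

theorem cw_124 : cfgs_124.All CfgW :=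
  all_cfgW (by decide +kernel) ⟨⟨⟨⟨B.rf1k301,
   B.rf2k123⟩,
   ⟨B.rf0k46,
   B.rf3k36⟩⟩,
   ⟨⟨B.rf0k225,
   B.rf3k5⟩,
   ⟨B.rf1k402,
   ⟨B.rf3k62,
   B.rf2k25⟩⟩⟩⟩,
   ⟨⟨⟨B.rf2k4,
   B.rf0k41⟩,
   ⟨B.rf3k24,
   B.rf0k47⟩⟩,
   ⟨⟨B.rf2k194,
   B.rf3k82⟩,
   ⟨B.rf2k264,
   ⟨B.rf0k219,
   B.rf3k51⟩⟩⟩⟩⟩

theorem cw_142 : cfgs_142.All CfgW :=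
  all_cfgW (by decide +kernel) ⟨⟨⟨⟨B.rf2k36,
   B.rf0k149⟩,
   ⟨B.rf3k149,
   B.rf1k386⟩⟩,
   ⟨⟨B.rf3k37,
   B.rf3k1⟩,
   ⟨B.rf0k145,
   B.rf3k116⟩⟩⟩,
   ⟨⟨⟨B.rf2k195,
   B.rf2k150⟩,
   ⟨B.rf1k206,
   B.rf2k270⟩⟩,
   ⟨⟨B.rf1k169,
   B.rf3k3⟩,
   ⟨B.rf0k223,
   ⟨B.rf2k130,
   B.rf2k5⟩⟩⟩⟩⟩

theorem cw_159 : cfgs_159.All CfgW :=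
  all_cfgW (by decide +kernel) ⟨⟨⟨⟨B.rf1k134,
   B.rf0k69⟩,
   ⟨B.rf2k19,
   B.rf2k18⟩⟩,
   ⟨⟨B.rf1k403,
   B.rf1k57⟩,
   ⟨B.rf2k13,
   ⟨B.rf2k26,
   B.rf2k28⟩⟩⟩⟩,
   ⟨⟨⟨B.rf0k35,
   B.rf2k24⟩,
   ⟨B.rf1k117,
   B.rf1k387⟩⟩,
   ⟨⟨B.rf2k229,
   B.rf2k40⟩,
   ⟨B.rf2k166,
   ⟨B.rf2k90,
   B.rf2k183⟩⟩⟩⟩⟩

theorem cw_177 : cfgs_177.All CfgW :=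
  all_cfgW (by decide +kernel) ⟨⟨⟨⟨B.rf3k33,
   B.rf3k246⟩,
   ⟨B.rf2k230,
   B.rf1k346⟩⟩,
   ⟨⟨B.rf1k347,
   B.rf2k167⟩,
   ⟨B.rf6k151,
   ⟨B.rf1k404,
   B.rf1k225⟩⟩⟩⟩,
   ⟨⟨⟨B.rf2k131,
   B.rf1k237⟩,
   ⟨B.rf2k168,
   B.rf2k148⟩⟩,
   ⟨⟨B.rf3k15,
   B.rf3k152⟩,
   ⟨B.rf2k38,
   ⟨B.rf3k39,
   B.rf1k348⟩⟩⟩⟩⟩

theorem cw_195 : cfgs_195.All CfgW :=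
  all_cfgW (by decide +kernel) ⟨⟨⟨⟨B.rf2k196,
   B.rf2k222⟩,
   ⟨B.rf1k377,
   B.rf2k27⟩⟩,
   ⟨⟨B.rf2k158,
   B.rf1k385⟩,
   ⟨B.rf2k197,
   ⟨B.rf2k79,
   B.rf6k170⟩⟩⟩⟩,
   ⟨⟨⟨B.rf1k388,
   B.rf2k91⟩,
   ⟨B.rf0k263,
   B.rf2k169⟩⟩,
   ⟨⟨B.rf0k53,
   B.rf3k11⟩,
   ⟨B.rf2k32,
   ⟨B.rf1k338,
   B.rf2k49⟩⟩⟩⟩⟩

theorem cw_213 : cfgs_213.All CfgW :=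
  all_cfgW (by decide +kernel) ⟨⟨⟨⟨B.rf4k85,
   B.rf1k304⟩,
   ⟨B.rf1k167,
   B.rf2k125⟩⟩,
   ⟨⟨B.rf5k113,
   B.rf1k305⟩,
   ⟨B.rf1k306,
   B.rf2k50⟩⟩⟩,
   ⟨⟨⟨B.rf2k51,
   B.rf1k307⟩,
   ⟨B.rf1k339,
   B.rf2k126⟩⟩,
   ⟨⟨B.rf2k87,
   B.rf0k37⟩,
   ⟨B.rf3k260,
   ⟨B.rf5k122,
   B.rf4k94⟩⟩⟩⟩⟩

theorem cw_230 : cfgs_230.All CfgW :=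
  all_cfgW (by decide +kernel) ⟨⟨⟨⟨B.rf0k150,
   B.rf3k318⟩,
   ⟨B.rf4k143,
   B.rf4k91⟩⟩,
   ⟨⟨B.rf5k32,
   B.rf4k62⟩,
   ⟨B.rf4k41,
   ⟨B.rf3k317,
   B.rf2k12⟩⟩⟩⟩,
   ⟨⟨⟨B.rf4k243,
   B.rf3k61⟩,
   ⟨B.rf5k183,
   B.rf7k31⟩⟩,
   ⟨⟨B.rf1k78,
   B.rf4k271⟩,
   ⟨B.rf5k18,
   ⟨B.rf5k166,
   B.rf3k307⟩⟩⟩⟩⟩

theorem cw_248 : cfgs_248.All CfgW :=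
  all_cfgW (by decide +kernel) ⟨⟨⟨⟨B.rf4k42,
   B.rf4k37⟩,
   ⟨B.rf5k15,
   B.rf3k269⟩⟩,
   ⟨⟨B.rf4k254,
   B.rf3k297⟩,
   ⟨B.rf4k80,
   ⟨B.rf3k268,
   B.rf4k90⟩⟩⟩⟩,
   ⟨⟨⟨B.rf1k56,
   B.rf4k136⟩,
   ⟨B.rf4k55,
   B.rf4k87⟩⟩,
   ⟨⟨B.rf4k214,
   B.rf4k270⟩,
   ⟨B.rf5k169,
   ⟨B.rf5k105,
   B.rf5k255⟩⟩⟩⟩⟩

theorem cw_266 : cfgs_266.All CfgW :=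
  all_cfgW (by decide +kernel) ⟨⟨⟨⟨B.rf4k255,
   B.rf3k298⟩,
   ⟨B.rf5k170,
   B.rf4k46⟩⟩,
   ⟨⟨B.rf9k6,
   B.rf4k244⟩,
   ⟨B.rf3k176,
   ⟨B.rf4k256,
   B.rf5k28⟩⟩⟩⟩,
   ⟨⟨⟨B.rf3k128,
   B.rf6k14⟩,
   ⟨B.rf5k163,
   B.rf5k171⟩⟩,
   ⟨⟨B.rf3k299,
   B.rf4k43⟩,
   ⟨B.rf4k257,
   ⟨B.rf5k256,
   B.rf5k172⟩⟩⟩⟩⟩

theorem cw_284 : cfgs_284.All CfgW :=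
  all_cfgW (by decide +kernel) ⟨⟨⟨⟨B.rf4k35,
   B.rf3k274⟩,
   ⟨B.rf3k263,
   B.rf0k115⟩⟩,
   ⟨⟨B.rf3k308,
   B.rf3k271⟩,
   ⟨B.rf6k152,
   B.rf6k63⟩⟩⟩,
   ⟨⟨⟨B.rf6k94,
   B.rf6k67⟩,
   ⟨B.rf3k181,
   B.rf6k68⟩⟩,
   ⟨⟨B.rf5k144,
   B.rf4k68⟩,
   ⟨B.rf5k204,
   ⟨B.rf5k75,
   B.rf0k27⟩⟩⟩⟩⟩

theorem cw_301 : cfgs_301.All CfgW :=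
  all_cfgW (by decide +kernel) ⟨⟨⟨⟨B.rf6k69,
   B.rf0k32⟩,
   ⟨B.rf3k164,
   B.rf6k43⟩⟩,
   ⟨⟨B.rf5k205,
   B.rf6k57⟩,
   ⟨B.rf4k218,
   ⟨B.rf6k176,
   B.rf6k19⟩⟩⟩⟩,
   ⟨⟨⟨B.rf3k83,
   B.rf6k49⟩,
   ⟨B.rf5k206,
   B.rf1k275⟩⟩,
   ⟨⟨B.rf4k165,
   B.rf1k115⟩,
   ⟨B.rf3k342,
   ⟨B.rf4k84,
   B.rf3k165⟩⟩⟩⟩⟩

theorem cw_319 : cfgs_319.All CfgW :=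
  all_cfgW (by decide +kernel) ⟨⟨⟨⟨B.rf4k196,
   B.rf0k79⟩,
   ⟨B.rf0k214,
   B.rf4k223⟩⟩,
   ⟨⟨B.rf4k69,
   B.rf4k182⟩,
   ⟨B.rf0k242,
   ⟨B.rf4k166,
   B.rf5k207⟩⟩⟩⟩,
   ⟨⟨⟨B.rf0k28,
   B.rf3k144⟩,
   ⟨B.rf0k116,
   B.rf6k42⟩⟩,
   ⟨⟨B.rf6k26,
   B.rf4k183⟩,
   ⟨B.rf4k211,
   ⟨B.rf4k106,
   B.rf3k206⟩⟩⟩⟩⟩

theorem cw_337 : cfgs_337.All CfgW :=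
  all_cfgW (by decide +kernel) ⟨⟨⟨⟨B.rf0k136,
   B.rf6k45⟩,
   ⟨B.rf0k194,
   B.rf0k267⟩⟩,
   ⟨⟨B.rf4k197,
   B.rf0k199⟩,
   ⟨B.rf4k70,
   ⟨B.rf0k251,
   B.rf4k184⟩⟩⟩⟩,
   ⟨⟨⟨B.rf6k145,
   B.rf4k192⟩,
   ⟨B.rf3k101,
   B.rf6k82⟩⟩,
   ⟨⟨B.rf6k100,
   B.rf4k242⟩,
   ⟨B.rf5k208,
   ⟨B.rf1k251,
   B.rf5k209⟩⟩⟩⟩⟩

theorem cw_355 : cfgs_355.All CfgW :=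
  all_cfgW (by decide +kernel) ⟨⟨⟨⟨B.rf5k76,
   B.rf5k77⟩,
   ⟨B.rf0k215,
   B.rf3k343⟩⟩,
   ⟨⟨B.rf3k166,
   B.rf6k141⟩,
   ⟨B.rf4k157,
   B.rf6k27⟩⟩⟩,
   ⟨⟨⟨B.rf0k287,
   B.rf4k107⟩,
   ⟨B.rf0k40,
   B.rf0k243⟩⟩,
   ⟨⟨B.rf5k324,
   B.rf1k80⟩,
   ⟨B.rf4k148,
   ⟨B.rf0k16,
   B.rf0k288⟩⟩⟩⟩⟩

theorem cw_372 : cfgs_372.All CfgW :=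
  all_cfgW (by decide +kernel) ⟨⟨⟨⟨B.rf0k252,
   B.rf5k210⟩,
   ⟨B.rf5k325,
   B.rf0k151⟩⟩,
   ⟨⟨B.rf3k134,
   B.rf4k134⟩,
   ⟨B.rf1k60,
   ⟨B.rf5k266,
   B.rf4k108⟩⟩⟩⟩,
   ⟨⟨⟨B.rf0k158,
   B.rf5k267⟩,
   ⟨B.rf3k344,
   B.rf5k211⟩⟩,
   ⟨⟨B.rf0k54,
   B.rf0k280⟩,
   ⟨B.rf4k71,
   ⟨B.rf3k345,
   B.rf4k72⟩⟩⟩⟩⟩

theorem cw_390 : cfgs_390.All CfgW :=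
  all_cfgW (by decide +kernel) ⟨⟨⟨⟨B.rf4k167,
   B.rf4k73⟩,
   ⟨B.rf4k229,
   B.rf1k226⟩⟩,
   ⟨⟨B.rf5k250,
   B.rf4k224⟩,
   ⟨B.rf0k58,
   ⟨B.rf3k59,
   B.rf5k288⟩⟩⟩⟩,
   ⟨⟨⟨B.rf6k83,
   B.rf3k60⟩,
   ⟨B.rf6k16,
   B.rf0k216⟩⟩,
   ⟨⟨B.rf3k52,
   B.rf5k212⟩,
   ⟨B.rf0k51,
   ⟨B.rf5k268,
   B.rf4k198⟩⟩⟩⟩⟩

theorem cw_408 : cfgs_408.All CfgW :=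
  all_cfgW (by decide +kernel) ⟨⟨⟨⟨B.rf1k171,
   B.rf4k74⟩,
   ⟨B.rf4k75,
   B.rf1k260⟩⟩,
   ⟨⟨B.rf4k185,
   B.rf0k254⟩,
   ⟨B.rf6k71,
   ⟨B.rf1k172,
   B.rf5k145⟩⟩⟩⟩,
   ⟨⟨⟨B.rf5k213,
   B.rf5k269⟩,
   ⟨B.rf1k276,
   B.rf1k61⟩⟩,
   ⟨⟨B.rf5k291,
   B.rf0k155⟩,
   ⟨B.rf1k157,
   ⟨B.rf5k214,
   B.rf5k326⟩⟩⟩⟩⟩


end Pool.Agent.Lib.G6.Z
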