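import Pool.Agent.Lib.G6.All
import Pool.Agent.Lib.G6D.ZCfgs
import Pool.Agent.Lib.G6D.RFP0
import Pool.Agent.Lib.G6D.RFP1
import Pool.Agent.Lib.G6D.RFP2
import Pool.Agent.Lib.G6D.RFP3
import Pool.Agent.Lib.G6D.RFP4
import Pool.Agent.Lib.G6D.RFP5
import Pool.Agent.Lib.G6D.RFP6
import Pool.Agent.Lib.G6D.RFP7

set_option autoImplicit false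
set_option maxRecDepth 100000
set_option linter.all false

namespace Pool.Agent.Lib.G6.Z

open Pool.Agent.Lib.G6 Pool.Agent.Lib.G6.K
open Pool.Agent.Lib.MP_bfaad3_co (BT)

theorem cw_3842 : cfgs_3842.All CfgW :=
  all_cfgW (by decide +kernel) ⟨⟨⟨⟨B.rf6k75,
   B.rf5k162⟩,
   ⟨B.rf4k36,
   B.rf4k32⟩⟩,
   ⟨⟨B.rf6k13,
   B.rf0k212⟩,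
   ⟨B.rf5k245,
   B.rf5k100⟩⟩⟩,
   ⟨⟨⟨B.rf5k246,
   B.rf0k266⟩,
   ⟨B.rf5k310,
   B.rf5k281⟩⟩,
   ⟨⟨B.rf5k247,
   B.rf4k190⟩,
   ⟨B.rf3k256,
   ⟨B.rf5k61,
   B.rf5k62⟩⟩⟩⟩⟩

theorem cw_3859 : cfgs_3859.All CfgW :=
  all_cfgW (by decide +kernel) ⟨⟨⟨⟨B.rf5k63,
   B.rf5k64⟩,
   ⟨B.rf3k287,
   B.rf9k189⟩⟩,
   ⟨⟨B.rf3k288,
   B.rf4k238⟩,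
   ⟨B.rf6k70,
   ⟨B.rf6k62,
   B.rf5k311⟩⟩⟩⟩,
   ⟨⟨⟨B.rf5k201,
   B.rf5k141⟩,
   ⟨B.rf4k162,
   B.rf4k163⟩⟩,
   ⟨⟨B.rf6k106,
   B.rf4k222⟩,
   ⟨B.rf3k336,
   ⟨B.rf5k290,
   B.rf5k65⟩⟩⟩⟩⟩

theorem cw_3877 : cfgs_3877.All CfgW :=
  all_cfgW (by decide +kernel) ⟨⟨⟨⟨B.rf3k289,
   B.rf5k202⟩,
   ⟨B.rf4k103,
   B.rf5k2⟩⟩,
   ⟨⟨B.rf5k66,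
   B.rf5k67⟩,
   ⟨B.rf7k116,
   ⟨B.rf0k218,
   B.rf3k337⟩⟩⟩⟩,
   ⟨⟨⟨B.rf4k67,
   B.rf3k338⟩,
   ⟨B.rf1k129,
   B.rf5k68⟩⟩,
   ⟨⟨B.rf5k203,
   B.rf4k164⟩,
   ⟨B.rf4k195,
   ⟨B.rf3k290,
   B.rf5k69⟩⟩⟩⟩⟩

theorem cw_3895 : cfgs_3895.All CfgW :=
  all_cfgW (by decide +kernel) ⟨⟨⟨⟨B.rf5k3,
   B.rf4k250⟩,
   ⟨B.rf3k291,
   B.rf4k146⟩⟩,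
   ⟨⟨B.rf3k339,
   B.rf3k292⟩,
   ⟨B.rf3k293,
   ⟨B.rf5k4,
   B.rf3k294⟩⟩⟩⟩,
   ⟨⟨⟨B.rf4k147,
   B.rf5k70⟩,
   ⟨B.rf5k5,
   B.rf5k71⟩⟩,
   ⟨⟨B.rf5k72,
   B.rf4k104⟩,
   ⟨B.rf5k73,
   ⟨B.rf5k74,
   B.rf3k340⟩⟩⟩⟩⟩

theorem cw_3913 : cfgs_3913.All CfgW :=
  all_cfgW (by decide +kernel) ⟨⟨⟨⟨B.rf4k251,
   B.rf5k6⟩,
   ⟨B.rf4k252,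
   B.rf4k105⟩⟩,
   ⟨⟨B.rf7k128,
   B.rf5k7⟩,
   ⟨B.rf3k341,
   ⟨B.rf5k142,
   B.rf7k117⟩⟩⟩⟩,
   ⟨⟨⟨B.rf8k3,
   B.rf9k188⟩,
   ⟨B.rf8k5,
   B.rf10k171⟩⟩,
   ⟨⟨B.rf11k42,
   B.rf7k133⟩,
   ⟨B.rf10k43,
   ⟨B.rf7k234,
   B.rf7k28⟩⟩⟩⟩⟩

theorem cw_3931 : cfgs_3931.All CfgW :=
  all_cfgW (by decide +kernel) ⟨⟨⟨⟨B.rf1k43,
   B.rf10k27⟩,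
   ⟨B.rf7k129,
   B.rf7k170⟩⟩,
   ⟨⟨B.rf9k85,
   B.rf9k170⟩,
   ⟨B.rf9k182,
   ⟨B.rf3k104,
   B.rf10k122⟩⟩⟩⟩,
   ⟨⟨⟨B.rf7k22,
   B.rf10k44⟩,
   ⟨B.rf7k29,
   B.rf8k74⟩⟩,
   ⟨⟨B.rf7k174,
   B.rf9k33⟩,
   ⟨B.rf12k77,
   ⟨B.rf11k6,
   B.rf10k33⟩⟩⟩⟩⟩

theorem cw_3949 : cfgs_3949.All CfgW :=
  all_cfgW (by decide +kernel) ⟨⟨⟨⟨B.rf7k171,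
   B.rf7k240⟩,
   ⟨B.rf7k173,
   B.rf9k22⟩⟩,
   ⟨⟨B.rf19k17,
   B.rf10k128⟩,
   ⟨B.rf7k118,
   ⟨B.rf9k30,
   B.rf9k80⟩⟩⟩⟩,
   ⟨⟨⟨B.rf5k118,
   B.rf1k222⟩,
   ⟨B.rf8k2,
   B.rf9k37⟩⟩,
   ⟨⟨B.rf9k7,
   B.rf9k13⟩,
   ⟨B.rf7k241,
   ⟨B.rf9k183,
   B.rf10k34⟩⟩⟩⟩⟩

theorem cw_3967 : cfgs_3967.All CfgW :=
  all_cfgW (by decide +kernel) ⟨⟨⟨⟨B.rf9k184,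
   B.rf7k119⟩,
   ⟨B.rf9k185,
   B.rf7k120⟩⟩,
   ⟨⟨B.rf9k81,
   B.rf10k41⟩,
   ⟨B.rf7k167,
   ⟨B.rf9k82,
   B.rf7k13⟩⟩⟩⟩,
   ⟨⟨⟨B.rf6k221,
   B.rf6k224⟩,
   ⟨B.rf10k35,
   B.rf9k83⟩⟩,
   ⟨⟨B.rf7k0,
   B.rf8k121⟩,
   ⟨B.rf3k97,
   ⟨B.rf8k144,
   B.rf1k193⟩⟩⟩⟩⟩

theorem cw_3985 : cfgs_3985.All CfgW :=
  all_cfgW (by decide +kernel) ⟨⟨⟨⟨B.rf8k145,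
   B.rf1k70⟩,
   ⟨B.rf11k123,
   B.rf6k181⟩⟩,
   ⟨⟨B.rf8k70,
   B.rf10k20⟩,
   ⟨B.rf7k101,
   B.rf12k2⟩⟩⟩,
   ⟨⟨⟨B.rf7k163,
   B.rf8k138⟩,
   ⟨B.rf12k27,
   B.rf8k22⟩⟩,
   ⟨⟨B.rf8k66,
   B.rf12k9⟩,
   ⟨B.rf10k162,
   ⟨B.rf10k211,
   B.rf10k21⟩⟩⟩⟩⟩

theorem cw_4002 : cfgs_4002.All CfgW :=
  all_cfgW (by decide +kernel) ⟨⟨⟨⟨B.rf9k159,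
   B.rf7k102⟩,
   ⟨B.rf3k241,
   B.rf12k28⟩⟩,
   ⟨⟨B.rf11k124,
   B.rf9k160⟩,
   ⟨B.rf10k169,
   ⟨B.rf8k104,
   B.rf8k130⟩⟩⟩⟩,
   ⟨⟨⟨B.rf11k125,
   B.rf10k163⟩,
   ⟨B.rf8k117,
   B.rf10k22⟩⟩,
   ⟨⟨B.rf11k78,
   B.rf6k144⟩,
   ⟨B.rf11k135,
   ⟨B.rf1k165,
   B.rf12k24⟩⟩⟩⟩⟩

theorem cw_4020 : cfgs_4020.All CfgW :=
  all_cfgW (by decide +kernel) ⟨⟨⟨⟨B.rf11k142,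
   B.rf1k162⟩,
   ⟨B.rf8k146,
   B.rf12k75⟩⟩,
   ⟨⟨B.rf10k166,
   B.rf3k115⟩,
   ⟨B.rf11k144,
   ⟨B.rf12k25,
   B.rf10k110⟩⟩⟩⟩,
   ⟨⟨⟨B.rf11k79,
   B.rf8k52⟩,
   ⟨B.rf8k91,
   B.rf11k35⟩⟩,
   ⟨⟨B.rf11k126,
   B.rf0k240⟩,
   ⟨B.rf8k67,
   ⟨B.rf1k130,
   B.rf8k92⟩⟩⟩⟩⟩

theorem cw_4038 : cfgs_4038.All CfgW :=
  all_cfgW (by decide +kernel) ⟨⟨⟨⟨B.rf10k23,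
   B.rf7k235⟩,
   ⟨B.rf11k36,
   B.rf7k229⟩⟩,
   ⟨⟨B.rf12k12,
   B.rf12k13⟩,
   ⟨B.rf6k138,
   ⟨B.rf10k125,
   B.rf10k111⟩⟩⟩⟩,
   ⟨⟨⟨B.rf6k114,
   B.rf10k126⟩,
   ⟨B.rf8k53,
   B.rf3k159⟩⟩,
   ⟨⟨B.rf11k104,
   B.rf6k15⟩,
   ⟨B.rf10k112,
   ⟨B.rf11k85,
   B.rf12k10⟩⟩⟩⟩⟩

theorem cw_4056 : cfgs_4056.All CfgW :=
  all_cfgW (by decide +kernel) ⟨⟨⟨⟨B.rf11k127,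
   B.rf11k140⟩,
   ⟨B.rf11k80,
   B.rf3k112⟩⟩,
   ⟨⟨B.rf11k37,
   B.rf10k212⟩,
   ⟨B.rf12k43,
   B.rf10k113⟩⟩⟩,
   ⟨⟨⟨B.rf10k114,
   B.rf10k24⟩,
   ⟨B.rf8k131,
   B.rf12k36⟩⟩,
   ⟨⟨B.rf8k93,
   B.rf10k115⟩,
   ⟨B.rf11k143,
   ⟨B.rf11k105,
   B.rf8k95⟩⟩⟩⟩⟩

theorem cw_4073 : cfgs_4073.All CfgW :=
  all_cfgW (by decide +kernel) ⟨⟨⟨⟨B.rf8k68,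
   B.rf1k194⟩,
   ⟨B.rf8k69,
   B.rf8k118⟩⟩,
   ⟨⟨B.rf11k81,
   B.rf12k29⟩,
   ⟨B.rf12k3,
   ⟨B.rf3k76,
   B.rf11k150⟩⟩⟩⟩,
   ⟨⟨⟨B.rf10k116,
   B.rf8k23⟩,
   ⟨B.rf11k128,
   B.rf10k164⟩⟩,
   ⟨⟨B.rf7k32,
   B.rf10k165⟩,
   ⟨B.rf11k82,
   ⟨B.rf10k117,
   B.rf8k24⟩⟩⟩⟩⟩

theorem cw_4091 : cfgs_4091.All CfgW :=
  all_cfgW (by decide +kernel) ⟨⟨⟨⟨B.rf8k94,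
   B.rf10k118⟩,
   ⟨B.rf1k195,
   B.rf10k119⟩⟩,
   ⟨⟨B.rf1k203,
   B.rf3k254⟩,
   ⟨B.rf12k4,
   ⟨B.rf7k103,
   B.rf8k25⟩⟩⟩⟩,
   ⟨⟨⟨B.rf1k196,
   B.rf11k83⟩,
   ⟨B.rf7k230,
   B.rf10k190⟩⟩,
   ⟨⟨B.rf5k143,
   B.rf7k71⟩,
   ⟨B.rf7k148,
   ⟨B.rf10k143,
   B.rf9k63⟩⟩⟩⟩⟩

theorem cw_4109 : cfgs_4109.All CfgW :=
  all_cfgW (by decide +kernel) ⟨⟨⟨⟨B.rf11k146,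
   B.rf10k191⟩,
   ⟨B.rf10k74,
   B.rf7k149⟩⟩,
   ⟨⟨B.rf10k75,
   B.rf9k64⟩,
   ⟨B.rf3k77,
   ⟨B.rf11k147,
   B.rf8k125⟩⟩⟩⟩,
   ⟨⟨⟨B.rf7k72,
   B.rf3k78⟩,
   ⟨B.rf11k115,
   B.rf9k65⟩⟩,
   ⟨⟨B.rf11k137,
   B.rf3k98⟩,
   ⟨B.rf10k192,
   ⟨B.rf11k55,
   B.rf3k79⟩⟩⟩⟩⟩

theorem cw_4127 : cfgs_4127.All CfgW :=
  all_cfgW (by decide +kernel) ⟨⟨⟨⟨B.rf10k193,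
   B.rf8k100⟩,
   ⟨B.rf3k113,
   B.rf8k40⟩⟩,
   ⟨⟨B.rf11k18,
   B.rf9k218⟩,
   ⟨B.rf12k26,
   B.rf11k19⟩⟩⟩,
   ⟨⟨⟨B.rf7k201,
   B.rf7k202⟩,
   ⟨B.rf11k56,
   B.rf11k57⟩⟩,
   ⟨⟨B.rf3k203,
   B.rf10k144⟩,
   ⟨B.rf11k91,
   ⟨B.rf7k203,
   B.rf11k92⟩⟩⟩⟩⟩

theorem cw_4144 : cfgs_4144.All CfgW :=
  all_cfgW (by decide +kernel) ⟨⟨⟨⟨B.rf10k0,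
   B.rf10k213⟩,
   ⟨B.rf10k1,
   B.rf10k76⟩⟩,
   ⟨⟨B.rf9k123,
   B.rf10k145⟩,
   ⟨B.rf19k94,
   ⟨B.rf10k194,
   B.rf10k2⟩⟩⟩⟩,
   ⟨⟨⟨B.rf10k195,
   B.rf7k73⟩,
   ⟨B.rf10k77,
   B.rf12k21⟩⟩,
   ⟨⟨B.rf8k41,
   B.rf11k58⟩,
   ⟨B.rf9k124,
   ⟨B.rf7k150,
   B.rf10k78⟩⟩⟩⟩⟩

theorem cw_4162 : cfgs_4162.All CfgW :=
  all_cfgW (by decide +kernel) ⟨⟨⟨⟨B.rf10k120,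
   B.rf7k74⟩,
   ⟨B.rf7k204,
   B.rf7k75⟩⟩,
   ⟨⟨B.rf9k66,
   B.rf8k105⟩,
   ⟨B.rf8k42,
   ⟨B.rf2k144,
   B.rf10k121⟩⟩⟩⟩,
   ⟨⟨⟨B.rf11k59,
   B.rf7k164⟩,
   ⟨B.rf10k196,
   B.rf11k138⟩⟩,
   ⟨⟨B.rf11k116,
   B.rf10k3⟩,
   ⟨B.rf10k79,
   ⟨B.rf7k205,
   B.rf8k126⟩⟩⟩⟩⟩

theorem cw_4180 : cfgs_4180.All CfgW :=
  all_cfgW (by decide +kernel) ⟨⟨⟨⟨B.rf10k197,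
   B.rf11k20⟩,
   ⟨B.rf7k76,
   B.rf12k50⟩⟩,
   ⟨⟨B.rf8k14,
   B.rf10k4⟩,
   ⟨B.rf9k18,
   ⟨B.rf7k206,
   B.rf7k104⟩⟩⟩⟩,
   ⟨⟨⟨B.rf7k77,
   B.rf10k80⟩,
   ⟨B.rf9k125,
   B.rf9k126⟩⟩,
   ⟨⟨B.rf7k78,
   B.rf7k10⟩,
   ⟨B.rf10k81,
   ⟨B.rf11k60,
   B.rf11k61⟩⟩⟩⟩⟩

theorem cw_4198 : cfgs_4198.All CfgW :=
  all_cfgW (by decide +kernel) ⟨⟨⟨⟨B.rf10k5,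
   B.rf10k6⟩,
   ⟨B.rf10k146,
   B.rf11k139⟩⟩,
   ⟨⟨B.rf7k79,
   B.rf10k147⟩,
   ⟨B.rf19k18,
   ⟨B.rf7k151,
   B.rf13k80⟩⟩⟩⟩,
   ⟨⟨⟨B.rf0k67,
   B.rf10k82⟩,
   ⟨B.rf21k6,
   B.rf9k127⟩⟩,
   ⟨⟨B.rf9k128,
   B.rf7k80⟩,
   ⟨B.rf7k207,
   ⟨B.rf9k67,
   B.rf14k80⟩⟩⟩⟩⟩

theorem cw_4216 : cfgs_4216.All CfgW :=
  all_cfgW (by decide +kernel) ⟨⟨⟨⟨B.rf7k81,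
   B.rf11k117⟩,
   ⟨B.rf10k148,
   B.rf7k82⟩⟩,
   ⟨⟨B.rf7k83,
   B.rf7k84⟩,
   ⟨B.rf7k85,
   ⟨B.rf9k129,
   B.rf9k130⟩⟩⟩⟩,
   ⟨⟨⟨B.rf7k86,
   B.rf8k15⟩,
   ⟨B.rf7k87,
   B.rf9k131⟩⟩,
   ⟨⟨B.rf8k16,
   B.rf10k149⟩,
   ⟨B.rf13k73,
   ⟨B.rf13k74,
   B.rf15k34⟩⟩⟩⟩⟩

theorem cw_4234 : cfgs_4234.All CfgW :=
  all_cfgW (by decide +kernel) ⟨⟨⟨⟨B.rf6k140,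
   B.rf15k57⟩,
   ⟨B.rf14k14,
   B.rf3k205⟩⟩,
   ⟨⟨B.rf19k87,
   B.rf20k41⟩,
   ⟨B.rf18k20,
   ⟨B.rf14k78,
   B.rf19k15⟩⟩⟩⟩,
   ⟨⟨⟨B.rf12k78,
   B.rf15k37⟩,
   ⟨B.rf3k258,
   B.rf18k22⟩⟩,
   ⟨⟨B.rf22k19,
   B.rf16k20⟩,
   ⟨B.rf16k23,
   ⟨B.rf14k73,
   B.rf22k60⟩⟩⟩⟩⟩

theorem cw_4252 : cfgs_4252.All CfgW :=
  all_cfgW (by decide +kernel) ⟨⟨⟨⟨B.rf19k95,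
   B.rf13k75⟩,
   ⟨B.rf18k14,
   B.rf18k12⟩⟩,
   ⟨⟨B.rf18k13,
   B.rf13k60⟩,
   ⟨B.rf19k85,
   ⟨B.rf1k156,
   B.rf21k44⟩⟩⟩⟩,
   ⟨⟨⟨B.rf14k70,
   B.rf29k7⟩,
   ⟨B.rf22k58,
   B.rf13k9⟩⟩,
   ⟨⟨B.rf12k84,
   B.rf13k0⟩,
   ⟨B.rf18k6,
   ⟨B.rf1k245,
   B.rf24k16⟩⟩⟩⟩⟩


end Pool.Agent.Lib.G6.Z
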