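import Pool.Agent.Lib.G6D.ZRuleW

set_option autoImplicit false
set_option maxRecDepth 100000
set_option linter.all false

namespace Pool.Agent.Lib.G6.Z

open Pool.Agent.Lib.G6 Pool.Agent.Lib.G6.K
open Pool.Agent.Lib.MP_bfaad3_co (BT)

noncomputable def s16 : FP := .f1 w4 (nat_lit 0x1fdc000000000000000000) (nat_lit 0xfe023c00000000000000000) (nat_lit 6) (.f1 w4 (nat_lit 0x1fdc000000000000000000) (nat_lit 0xfe023c00000000000000000) (nat_lit 6) (.ret (nat_lit 678)) (.ret (nat_lit 676))) (.ret (nat_lit 676))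
noncomputable def s54 : FP := .f0 (nat_lit 0xfc000800000000000000000) (nat_lit 0x3fff400000000000000000) (nat_lit 4) (.f0 (nat_lit 0x3ffec00000000000000000) (nat_lit 0xfc001000000000000000000) (nat_lit 4) (.v1 w6 (nat_lit 0x3e0000000000000000) (nat_lit 0x10000000000000000) (nat_lit 4) (.v1 w4 (nat_lit 0x3e0000000000000000) (nat_lit 0x10000000000000000) (nat_lit 4) (.v1 w4 (nat_lit 0x3e0000000000000000)
  (nat_lit 0x10000000000000000) (nat_lit 4) (.v1 w4 (nat_lit 0x3e0000000000000000) (nat_lit 0x10000000000000000) (nat_lit 4) (.v1 w4 (nat_lit 0x3d0000000000000000) (nat_lit 0x20000000000000000) (nat_lit 4) (.f0 (nat_lit 0x3fff400000000000000000) (nat_lit 0xfc000800000000000000000) (nat_lit 4) (.v1 w9 (nat_lit 0x3d0000000000000000) (nat_lit 0x20000000000000000) (nat_lit 4) (.f0 (nat_lit 0x3fff400000000000000000)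
  (nat_lit 0xfc000800000000000000000) (nat_lit 4) (.f1 w11 (nat_lit 0x1fdc000000000000000000) (nat_lit 0xfe023c00000000000000000) (nat_lit 4) (.f1 w4 (nat_lit 0x1fdc000000000000000000) (nat_lit 0xfe023c00000000000000000) (nat_lit 4) (.f1 w10 (nat_lit 0xfe023c00000000000000000) (nat_lit 0x1fdc000000000000000000) (nat_lit 4) (.ret (nat_lit 0)) (.ret (nat_lit 436))) (.ret (nat_lit 0))) (.ret (nat_lit 0)))
  (.ret (nat_lit 0))) (.ret (nat_lit 0))) (.ret (nat_lit 0))) (.ret (nat_lit 0))) (.ret (nat_lit 0))) (.ret (nat_lit 0))) (.ret (nat_lit 0))) (.ret (nat_lit 0))) (.ret (nat_lit 0))) (.v1 w6 (nat_lit 0x3e0000000000000000) (nat_lit 0x10000000000000000) (nat_lit 4) (.v1 w4 (nat_lit 0x3e0000000000000000) (nat_lit 0x10000000000000000) (nat_lit 4) (.v1 w4 (nat_lit 0x3e0000000000000000) (nat_lit 0x10000000000000000)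
  (nat_lit 4) (.v1 w4 (nat_lit 0x3d0000000000000000) (nat_lit 0x20000000000000000) (nat_lit 4) (.f0 (nat_lit 0x3fff400000000000000000) (nat_lit 0xfc000800000000000000000) (nat_lit 4) (.v1 w9 (nat_lit 0x3d0000000000000000) (nat_lit 0x20000000000000000) (nat_lit 4) (.f0 (nat_lit 0x3fff400000000000000000) (nat_lit 0xfc000800000000000000000) (nat_lit 4) (.f1 w11 (nat_lit 0x1fdc000000000000000000) (nat_lit 0xfe023c00000000000000000)
  (nat_lit 4) (.f1 w10 (nat_lit 0xfc254000000000000000000) (nat_lit 0x3dabc00000000000000000) (nat_lit 4) (.ret (nat_lit 0)) (.ret (nat_lit 436))) (.ret (nat_lit 0))) (.f0 (nat_lit 0x3ffec00000000000000000) (nat_lit 0xfc001000000000000000000) (nat_lit 4) (.f1 w13 (nat_lit 0x1fdc000000000000000000) (nat_lit 0xfe023c00000000000000000) (nat_lit 4) (.f1 w12 (nat_lit 0x1fdc000000000000000000) (nat_lit 0xfe023c00000000000000000) (nat_lit 4) (.ret (nat_lit 436)) (.ret (nat_lit 0))) (.ret (nat_lit 0))) (.ret (nat_lit 0)))) (.ret (nat_lit 0)))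 (.ret (nat_lit 0))) (.ret (nat_lit 0))) (.ret (nat_lit 0))) (.ret (nat_lit 0))) (.ret (nat_lit 0)))
noncomputable def s74 : FP := .f1 w4 (nat_lit 0xfe023c00000000000000000) (nat_lit 0x1fdc000000000000000000) (nat_lit 6) (.ret (nat_lit 0)) (.ret (nat_lit 646))
noncomputable def s77 : FP := .f1 w4 (nat_lit 0x1fdc000000000000000000) (nat_lit 0xfe023c00000000000000000) (nat_lit 6) s74 (.ret (nat_lit 0))
noncomputable def s85 : FP := .v1 w9 (nat_lit 0x3e0000000000000000) (nat_lit 0x10000000000000000) (nat_lit 6) (.v1 w4 (nat_lit 0x3e0000000000000000) (nat_lit 0x10000000000000000) (nat_lit 4) (.v1 w4 (nat_lit 0x3e0000000000000000) (nat_lit 0x10000000000000000) (nat_lit 4) (.f1 w17 (nat_lit 0x1fdc000000000000000000) (nat_lit 0xfe023c00000000000000000) (nat_lit 4) (.f1 w4 (nat_lit 0x1fdc000000000000000000)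
  (nat_lit 0xfe023c00000000000000000) (nat_lit 4) (.f1 w4 (nat_lit 0x1fdc000000000000000000) (nat_lit 0xfe023c00000000000000000) (nat_lit 4) (.f1 w4 (nat_lit 0x1fdc000000000000000000) (nat_lit 0xfe023c00000000000000000) (nat_lit 4) (.f1 w16 (nat_lit 0xfc003c00000000000000000) (nat_lit 0x3ffc000000000000000000) (nat_lit 4) (.v1 w14 (nat_lit 0x3e0000000000000000) (nat_lit 0x10000000000000000) (nat_lit 4)
  (.v1 w4 (nat_lit 0x3d0000000000000000) (nat_lit 0x20000000000000000) (nat_lit 4) (.v1 w9 (nat_lit 0x3e0000000000000000) (nat_lit 0x10000000000000000) (nat_lit 4) (.v1 w4 (nat_lit 0x3e0000000000000000) (nat_lit 0x10000000000000000) (nat_lit 4) (.v1 w15 (nat_lit 0x3d0000000000000000) (nat_lit 0x20000000000000000) (nat_lit 4) (.ret (nat_lit 628)) (.ret (nat_lit 0))) (.ret (nat_lit 0))) (.ret (nat_lit 0)))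
  (.ret (nat_lit 0))) (.ret (nat_lit 0))) (.v1 w14 (nat_lit 0x3e0000000000000000) (nat_lit 0x10000000000000000) (nat_lit 4) (.v1 w4 (nat_lit 0x3e0000000000000000) (nat_lit 0x10000000000000000) (nat_lit 4) (.v1 w10 (nat_lit 0x20000000000000000) (nat_lit 0x3d0000000000000000) (nat_lit 4) (.ret (nat_lit 0)) (.ret (nat_lit 628))) (.ret (nat_lit 0))) (.ret (nat_lit 0)))) (.ret (nat_lit 0))) (.ret (nat_lit 0)))
  (.ret (nat_lit 0))) (.ret (nat_lit 0))) (.ret (nat_lit 0))) (.ret (nat_lit 0))) (.v0 (nat_lit 0x3d0000000000000000) (nat_lit 0x20000000000000000) (nat_lit 6) (.f0 (nat_lit 0x3fff400000000000000000) (nat_lit 0xfc000800000000000000000) (nat_lit 6) (.f1 w19 (nat_lit 0xfe023c00000000000000000) (nat_lit 0x1fdc000000000000000000) (nat_lit 6) (.f0 (nat_lit 0x3dabc00000000000000000) (nat_lit 0xfc254000000000000000000)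
  (nat_lit 6) (.f1 w18 (nat_lit 0x1fdc000000000000000000) (nat_lit 0xfe023c00000000000000000) (nat_lit 6) s77 (.ret (nat_lit 0))) (.ret (nat_lit 0))) (.f1 w18 (nat_lit 0xfe023c00000000000000000) (nat_lit 0x1fdc000000000000000000) (nat_lit 6) (.f0 (nat_lit 0xfd000000000000000000000) (nat_lit 0x2fffc00000000000000000) (nat_lit 6) s77 (.ret (nat_lit 644))) (.f1 w4 (nat_lit 0xfe023c00000000000000000) (nat_lit 0x1fdc000000000000000000) (nat_lit 6) s74 (.f1 w4 (nat_lit 0xfc254000000000000000000) (nat_lit 0x3dabc00000000000000000) (nat_lit 6) (.ret (nat_lit 642)) (.ret (nat_lit 646)))))) (.ret (nat_lit 0))) (.ret (nat_lit 0)))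
noncomputable def s86 : FP := .f0 (nat_lit 0x3fff400000000000000000) (nat_lit 0xfc000800000000000000000) (nat_lit 6) s85 (.ret (nat_lit 0))
noncomputable def s88 : FP := .v1 w20 (nat_lit 0x10000000000000000) (nat_lit 0x3e0000000000000000) (nat_lit 6) (.v0 (nat_lit 0x3d0000000000000000) (nat_lit 0x20000000000000000) (nat_lit 6) s86 (.ret (nat_lit 0))) s54
noncomputable def s103 : FP := .v1 w9 (nat_lit 0x20000000000000000) (nat_lit 0x3d0000000000000000) (nat_lit 4) (.ret (nat_lit 692)) (.ret (nat_lit 820))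
noncomputable def s113 : FP := .v1 w4 (nat_lit 0x3e0000000000000000) (nat_lit 0x10000000000000000) (nat_lit 7) (.v1 w4 (nat_lit 0x3e0000000000000000) (nat_lit 0x10000000000000000) (nat_lit 7) (.v1 w4 (nat_lit 0x20000000000000000) (nat_lit 0x3d0000000000000000) (nat_lit 7) s88 (.f0 (nat_lit 0x3ffc000000000000000000) (nat_lit 0xfc003c00000000000000000) (nat_lit 7) (.f0 (nat_lit 0x3fff400000000000000000)
  (nat_lit 0xfc000800000000000000000) (nat_lit 7) (.v1 w9 (nat_lit 0x10000000000000000) (nat_lit 0x3e0000000000000000) (nat_lit 7) (.v0 (nat_lit 0x3d0000000000000000) (nat_lit 0x20000000000000000) (nat_lit 7) (.f0 (nat_lit 0x3fff400000000000000000) (nat_lit 0xfc000800000000000000000) (nat_lit 7) (.f1 w8 (nat_lit 0x1fdc000000000000000000) (nat_lit 0xfe023c00000000000000000) (nat_lit 7) (.ret (nat_lit 599))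
  (.ret (nat_lit 596))) (.ret (nat_lit 596))) (.f1 w7 (nat_lit 0x1fdc000000000000000000) (nat_lit 0xfe023c00000000000000000) (nat_lit 6) (.ret (nat_lit 678)) (.ret (nat_lit 676)))) (.f1 w7 (nat_lit 0x1fdc000000000000000000) (nat_lit 0xfe023c00000000000000000) (nat_lit 6) s16 (.ret (nat_lit 676)))) (.v1 w9 (nat_lit 0x10000000000000000) (nat_lit 0x3e0000000000000000) (nat_lit 4) (.ret (nat_lit 612))
  (.ret (nat_lit 596)))) (.ret (nat_lit 676)))) (.v0 (nat_lit 0x3d0000000000000000) (nat_lit 0x20000000000000000) (nat_lit 4) (.f0 (nat_lit 0x3ffc000000000000000000) (nat_lit 0xfc003c00000000000000000) (nat_lit 4) (.f0 (nat_lit 0x3fff400000000000000000) (nat_lit 0xfc000800000000000000000) (nat_lit 4) (.v1 w9 (nat_lit 0x3d0000000000000000) (nat_lit 0x20000000000000000) (nat_lit 4) (.ret (nat_lit 772))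
  (.ret (nat_lit 756))) (.f0 (nat_lit 0x3ffec00000000000000000) (nat_lit 0xfc001000000000000000000) (nat_lit 4) (.v1 w9 (nat_lit 0x3e0000000000000000) (nat_lit 0x10000000000000000) (nat_lit 4) (.v1 w4 (nat_lit 0x3d0000000000000000) (nat_lit 0x20000000000000000) (nat_lit 4) (.ret (nat_lit 772)) (.ret (nat_lit 756))) (.v0 (nat_lit 0x3d0000000000000000) (nat_lit 0x20000000000000000) (nat_lit 4) (.ret
  (nat_lit 788)) (.ret (nat_lit 756)))) (.ret (nat_lit 772)))) (.ret (nat_lit 756))) (.ret (nat_lit 0)))) (.f0 (nat_lit 0x3ffc000000000000000000) (nat_lit 0xfc003c00000000000000000) (nat_lit 4) (.f0 (nat_lit 0x3fff400000000000000000) (nat_lit 0xfc000800000000000000000) (nat_lit 4) s103 (.f0 (nat_lit 0x3ffec00000000000000000) (nat_lit 0xfc001000000000000000000) (nat_lit 4) (.v1 w9 (nat_lit 0x3e0000000000000000)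
  (nat_lit 0x10000000000000000) (nat_lit 4) (.v1 w4 (nat_lit 0x3e0000000000000000) (nat_lit 0x10000000000000000) (nat_lit 4) (.ret (nat_lit 692)) (.ret (nat_lit 836))) (.v0 (nat_lit 0x3d0000000000000000) (nat_lit 0x20000000000000000) (nat_lit 4) (.ret (nat_lit 820)) (.ret (nat_lit 692)))) (.v1 w9 (nat_lit 0x3e0000000000000000) (nat_lit 0x10000000000000000) (nat_lit 4) (.ret (nat_lit 852)) (.ret (nat_lit 820))))) (.ret (nat_lit 692)))
noncomputable def s147 : FP := .v1 w25 (nat_lit 0x10000000000000000) (nat_lit 0x3e0000000000000000) (nat_lit 6) (.v0 (nat_lit 0x3d0000000000000000) (nat_lit 0x20000000000000000) (nat_lit 6) (.f1 w31 (nat_lit 0x3fff400000000000000000) (nat_lit 0xfc000800000000000000000) (nat_lit 6) (.v1 w14 (nat_lit 0x3e0000000000000000) (nat_lit 0x10000000000000000) (nat_lit 6) (.f1 w30 (nat_lit 0x1fffc00000000000000000)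
  (nat_lit 0xfe000000000000000000000) (nat_lit 6) (.f1 w24 (nat_lit 0x1fdc000000000000000000) (nat_lit 0xfe023c00000000000000000) (nat_lit 6) (.f1 w18 (nat_lit 0x1fdc000000000000000000) (nat_lit 0xfe023c00000000000000000) (nat_lit 6) (.f1 w4 (nat_lit 0x1fdc000000000000000000) (nat_lit 0xfe023c00000000000000000) (nat_lit 6) (.f1 w28 (nat_lit 0x1fdc000000000000000000) (nat_lit 0xfe023c00000000000000000)
  (nat_lit 6) (.f1 w4 (nat_lit 0xfe023c00000000000000000) (nat_lit 0x1fdc000000000000000000) (nat_lit 6) (.ret (nat_lit 868)) (.f1 w24 (nat_lit 0x1fdc000000000000000000) (nat_lit 0xfe023c00000000000000000) (nat_lit 6) (.ret (nat_lit 870)) (.ret (nat_lit 868)))) (.ret (nat_lit 868))) (.ret (nat_lit 868))) (.ret (nat_lit 868))) (.ret (nat_lit 0))) (.f1 w24 (nat_lit 0x1fdc000000000000000000) (nat_lit 0xfe023c00000000000000000)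
  (nat_lit 6) (.f1 w29 (nat_lit 0xfd000000000000000000000) (nat_lit 0x2fffc00000000000000000) (nat_lit 6) (.ret (nat_lit 868)) (.ret (nat_lit 870))) (.ret (nat_lit 868)))) (.ret (nat_lit 0))) (.ret (nat_lit 868))) (.ret (nat_lit 708))) (.f1 w27 (nat_lit 0x3dbfc00000000000000000) (nat_lit 0xfc240000000000000000000) (nat_lit 6) (.f1 w25 (nat_lit 0x1fdc000000000000000000) (nat_lit 0xfe023c00000000000000000)
  (nat_lit 6) (.f1 w4 (nat_lit 0x1fdc000000000000000000) (nat_lit 0xfe023c00000000000000000) (nat_lit 6) (.f1 w24 (nat_lit 0x3fbfc00000000000000000) (nat_lit 0xfc040000000000000000000) (nat_lit 6) (.v1 w9 (nat_lit 0x3e0000000000000000) (nat_lit 0x10000000000000000) (nat_lit 6) (.v1 w4 (nat_lit 0x10000000000000000) (nat_lit 0x3e0000000000000000) (nat_lit 6) (.f1 w23 (nat_lit 0x3fff400000000000000000)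
  (nat_lit 0xfc000800000000000000000) (nat_lit 6) (.v1 w9 (nat_lit 0x3e0000000000000000) (nat_lit 0x10000000000000000) (nat_lit 6) (.f1 w21 (nat_lit 0x1fdc000000000000000000) (nat_lit 0xfe023c00000000000000000) (nat_lit 6) (.f1 w4 (nat_lit 0x1fdc000000000000000000) (nat_lit 0xfe023c00000000000000000) (nat_lit 6) (.f1 w4 (nat_lit 0x1fdc000000000000000000) (nat_lit 0xfe023c00000000000000000) (nat_lit 6)
  (.f1 w4 (nat_lit 0x1fdc000000000000000000) (nat_lit 0xfe023c00000000000000000) (nat_lit 6) (.ret (nat_lit 710)) (.ret (nat_lit 708))) (.ret (nat_lit 708))) (.ret (nat_lit 708))) (.ret (nat_lit 708))) (.v0 (nat_lit 0x3d0000000000000000) (nat_lit 0x20000000000000000) (nat_lit 6) (.f0 (nat_lit 0xfc003c00000000000000000) (nat_lit 0x3ffc000000000000000000) (nat_lit 6) (.f1 w21 (nat_lit 0x1fdc000000000000000000)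
  (nat_lit 0xfe023c00000000000000000) (nat_lit 6) (.f1 w22 (nat_lit 0x1fdc000000000000000000) (nat_lit 0xfe023c00000000000000000) (nat_lit 6) (.ret (nat_lit 710)) (.ret (nat_lit 708))) (.ret (nat_lit 708))) (.ret (nat_lit 708))) (.ret (nat_lit 708)))) (.ret (nat_lit 708))) (.ret (nat_lit 708))) (.ret (nat_lit 708))) (.ret (nat_lit 708))) (.ret (nat_lit 708))) (.ret (nat_lit 708))) (.f1 w26 (nat_lit 0xfc023c00000000000000000) (nat_lit 0x3fdc000000000000000000) (nat_lit 4) (.f0 (nat_lit 0xfd000000000000000000000) (nat_lit 0x2fffc00000000000000000) (nat_lit 4) (.ret (nat_lit 0)) (.ret (nat_lit 708))) (.ret (nat_lit 708))))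
noncomputable def s175 : FP := .f0 (nat_lit 0x3dabc00000000000000000) (nat_lit 0xfc254000000000000000000) (nat_lit 4) (.ret (nat_lit 900)) (.ret (nat_lit 0))
noncomputable def s185 : FP := .v1 w4 (nat_lit 0x3e0000000000000000) (nat_lit 0x10000000000000000) (nat_lit 7) (.v1 w4 (nat_lit 0x3e0000000000000000) (nat_lit 0x10000000000000000) (nat_lit 7) (.v1 w4 (nat_lit 0x3e0000000000000000) (nat_lit 0x10000000000000000) (nat_lit 7) (.ret (nat_lit 0)) (.f0 (nat_lit 0x3fff400000000000000000) (nat_lit 0xfc000800000000000000000) (nat_lit 7) (.v1 w9 (nat_lit 0x3d0000000000000000)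
  (nat_lit 0x20000000000000000) (nat_lit 7) (.f0 (nat_lit 0x3fff400000000000000000) (nat_lit 0xfc000800000000000000000) (nat_lit 7) (.f1 w8 (nat_lit 0x1fdc000000000000000000) (nat_lit 0xfe023c00000000000000000) (nat_lit 7) (.f1 w4 (nat_lit 0x1fdc000000000000000000) (nat_lit 0xfe023c00000000000000000) (nat_lit 7) (.f1 w4 (nat_lit 0x1fdc000000000000000000) (nat_lit 0xfe023c00000000000000000) (nat_lit 7)
  (.f1 w10 (nat_lit 0x1fdc000000000000000000) (nat_lit 0xfe023c00000000000000000) (nat_lit 7) (.ret (nat_lit 599)) (.ret (nat_lit 596))) (.ret (nat_lit 596))) (.ret (nat_lit 596))) (.ret (nat_lit 596))) (.ret (nat_lit 596))) (.ret (nat_lit 0))) (.ret (nat_lit 0)))) (.v0 (nat_lit 0x3d0000000000000000) (nat_lit 0x20000000000000000) (nat_lit 4) (.f0 (nat_lit 0x3fff400000000000000000) (nat_lit 0xfc000800000000000000000)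
  (nat_lit 4) (.v1 w9 (nat_lit 0x10000000000000000) (nat_lit 0x3e0000000000000000) (nat_lit 4) (.ret (nat_lit 772)) (.v1 w4 (nat_lit 0x3e0000000000000000) (nat_lit 0x10000000000000000) (nat_lit 4) (.f1 w32 (nat_lit 0x1fdc000000000000000000) (nat_lit 0xfe023c00000000000000000) (nat_lit 4) (.ret (nat_lit 756)) (.f0 (nat_lit 0x3dabc00000000000000000) (nat_lit 0xfc254000000000000000000) (nat_lit 4) (.f1 w4
  (nat_lit 0x1fdc000000000000000000) (nat_lit 0xfe023c00000000000000000) (nat_lit 4) (.f1 w4 (nat_lit 0x1fdc000000000000000000) (nat_lit 0xfe023c00000000000000000) (nat_lit 4) (.ret (nat_lit 756)) (.ret (nat_lit 0))) (.ret (nat_lit 0))) (.ret (nat_lit 0)))) (.ret (nat_lit 0)))) (.f0 (nat_lit 0x3ffec00000000000000000) (nat_lit 0xfc001000000000000000000) (nat_lit 4) (.v1 w9 (nat_lit 0x3d0000000000000000)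
  (nat_lit 0x20000000000000000) (nat_lit 4) (.ret (nat_lit 804)) (.ret (nat_lit 0))) (.ret (nat_lit 0)))) (.ret (nat_lit 0)))) (.f0 (nat_lit 0x3fff400000000000000000) (nat_lit 0xfc000800000000000000000) (nat_lit 4) (.v1 w9 (nat_lit 0x10000000000000000) (nat_lit 0x3e0000000000000000) (nat_lit 4) (.v0 (nat_lit 0x3d0000000000000000) (nat_lit 0x20000000000000000) (nat_lit 4) (.ret (nat_lit 788)) (.ret
  (nat_lit 900))) (.v1 w4 (nat_lit 0x3e0000000000000000) (nat_lit 0x10000000000000000) (nat_lit 4) (.f1 w33 (nat_lit 0xfe023c00000000000000000) (nat_lit 0x1fdc000000000000000000) (nat_lit 4) s175 (.ret (nat_lit 900))) (.ret (nat_lit 0)))) (.f0 (nat_lit 0x3ffec00000000000000000) (nat_lit 0xfc001000000000000000000) (nat_lit 4) (.v1 w9 (nat_lit 0x10000000000000000) (nat_lit 0x3e0000000000000000) (nat_lit 4) (.v0 (nat_lit 0x3d0000000000000000) (nat_lit 0x20000000000000000) (nat_lit 4) (.ret (nat_lit 788)) (.ret (nat_lit 0))) (.v1 w4 (nat_lit 0x3d0000000000000000) (nat_lit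 0x20000000000000000) (nat_lit 4) (.ret (nat_lit 852)) (.ret (nat_lit 0)))) (.ret (nat_lit 0))))
noncomputable def s197 : FP := .f0 (nat_lit 0xfc000400000000000000000) (nat_lit 0x3fff800000000000000000) (nat_lit 7) (.f0 (nat_lit 0x3fff400000000000000000) (nat_lit 0xfc000800000000000000000) (nat_lit 7) (.v1 w6 (nat_lit 0x3e0000000000000000) (nat_lit 0x10000000000000000) (nat_lit 7) s113 (.v0 (nat_lit 0x3d0000000000000000) (nat_lit 0x20000000000000000) (nat_lit 6) s147 (.v1 w25 (nat_lit 0x3d0000000000000000)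
  (nat_lit 0x20000000000000000) (nat_lit 6) (.f0 (nat_lit 0x3fff400000000000000000) (nat_lit 0xfc000800000000000000000) (nat_lit 6) (.v1 w14 (nat_lit 0x3e0000000000000000) (nat_lit 0x10000000000000000) (nat_lit 6) (.f1 w30 (nat_lit 0x3fff800000000000000000) (nat_lit 0xfc000400000000000000000) (nat_lit 6) s16 (.ret (nat_lit 0))) (.ret (nat_lit 0))) (.ret (nat_lit 0))) s88))) (.f0 (nat_lit 0x3ffec00000000000000000)
  (nat_lit 0xfc001000000000000000000) (nat_lit 7) (.v1 w6 (nat_lit 0x3e0000000000000000) (nat_lit 0x10000000000000000) (nat_lit 7) (.v1 w4 (nat_lit 0x3e0000000000000000) (nat_lit 0x10000000000000000) (nat_lit 7) s185 (.v1 w25 (nat_lit 0x3e0000000000000000) (nat_lit 0x10000000000000000) (nat_lit 4) (.f1 w27 (nat_lit 0x3fff400000000000000000) (nat_lit 0xfc000800000000000000000) (nat_lit 4) s103 (.ret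
  (nat_lit 836))) (.v0 (nat_lit 0x3d0000000000000000) (nat_lit 0x20000000000000000) (nat_lit 4) (.ret (nat_lit 868)) (.ret (nat_lit 692))))) (.v1 w25 (nat_lit 0x10000000000000000) (nat_lit 0x3e0000000000000000) (nat_lit 4) (.ret (nat_lit 948)) (.v1 w4 (nat_lit 0x3d0000000000000000) (nat_lit 0x20000000000000000) (nat_lit 4) (.ret (nat_lit 868)) (.ret (nat_lit 0))))) (.v1 w9 (nat_lit 0x3e0000000000000000)
  (nat_lit 0x10000000000000000) (nat_lit 4) (.ret (nat_lit 0)) (.ret (nat_lit 948))))) (.v1 w6 (nat_lit 0x3e0000000000000000) (nat_lit 0x10000000000000000) (nat_lit 6) (.v1 w4 (nat_lit 0x3e0000000000000000) (nat_lit 0x10000000000000000) (nat_lit 6) (.v1 w2 (nat_lit 0x40000000000000000) (nat_lit 0x3b0000000000000000) (nat_lit 6) (.ret (nat_lit 0)) (.f1 w1 (nat_lit 0xfc000400000000000000000) (nat_lit 0x3fff800000000000000000)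
  (nat_lit 6) (.ret (nat_lit 676)) (.f1 w0 (nat_lit 0x1fdc000000000000000000) (nat_lit 0xfe023c00000000000000000) (nat_lit 6) (.ret (nat_lit 678)) (.ret (nat_lit 676))))) (.v1 w1 (nat_lit 0x3b0000000000000000) (nat_lit 0x40000000000000000) (nat_lit 4) (.ret (nat_lit 692)) (.v0 (nat_lit 0x370000000000000000) (nat_lit 0x80000000000000000) (nat_lit 4) (.f1 w3 (nat_lit 0x1fdc000000000000000000) (nat_lit 0xfe023c00000000000000000) (nat_lit 4) (.ret (nat_lit 692)) (.ret (nat_lit 0))) (.ret (nat_lit 0))))) (.v1 w1 (nat_lit 0x3b0000000000000000) (nat_lit 0x40000000000000000) (nat_lit 4) (.ret (nat_lit 708)) (.f1 w5 (nat_lit 0x3fff800000000000000000) (nat_lit 0xfc000400000000000000000) (nat_lit 4) (.ret (nat_lit 708)) (.ret (nat_lit 0)))))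
noncomputable def s212 : FP := .v0 (nat_lit 0x3e0000000000000000) (nat_lit 0x10000000000000000) (nat_lit 6) (.v1 w4 (nat_lit 0x20000000000000000) (nat_lit 0x3d0000000000000000) (nat_lit 6) (.ret (nat_lit 0)) s86) (.ret (nat_lit 0))
noncomputable def s220 : FP := .f1 w4 (nat_lit 0x1fdc000000000000000000) (nat_lit 0xfe023c00000000000000000) (nat_lit 7) (.ret (nat_lit 999)) (.ret (nat_lit 998))
noncomputable def s224 : FP := .f1 w4 (nat_lit 0x1fdc000000000000000000) (nat_lit 0xfe023c00000000000000000) (nat_lit 7) s220 (.ret (nat_lit 998))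
noncomputable def s227 : FP := .f1 w18 (nat_lit 0x1fdc000000000000000000) (nat_lit 0xfe023c00000000000000000) (nat_lit 7) s224 (.ret (nat_lit 998))
noncomputable def s237 : FP := .f0 (nat_lit 0x3dabc00000000000000000) (nat_lit 0xfc254000000000000000000) (nat_lit 6) (.ret (nat_lit 998)) (.ret (nat_lit 996))
noncomputable def s245 : FP := .v1 w4 (nat_lit 0x3e0000000000000000) (nat_lit 0x10000000000000000) (nat_lit 7) (.v1 w4 (nat_lit 0x3e0000000000000000) (nat_lit 0x10000000000000000) (nat_lit 7) (.f1 w37 (nat_lit 0xfd000000000000000000000) (nat_lit 0x2fffc00000000000000000) (nat_lit 7) (.f1 w4 (nat_lit 0xfd000000000000000000000) (nat_lit 0x2fffc00000000000000000) (nat_lit 7) (.f1 w37 (nat_lit 0x1fdc000000000000000000)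
  (nat_lit 0xfe023c00000000000000000) (nat_lit 7) (.f1 w4 (nat_lit 0x1fdc000000000000000000) (nat_lit 0xfe023c00000000000000000) (nat_lit 7) (.f1 w4 (nat_lit 0x1fdc000000000000000000) (nat_lit 0xfe023c00000000000000000) (nat_lit 7) (.f1 w4 (nat_lit 0x1fdc000000000000000000) (nat_lit 0xfe023c00000000000000000) (nat_lit 7) (.v1 w18 (nat_lit 0x3e0000000000000000) (nat_lit 0x10000000000000000) (nat_lit 7)
  (.v1 w4 (nat_lit 0x3e0000000000000000) (nat_lit 0x10000000000000000) (nat_lit 7) (.v1 w4 (nat_lit 0x3d0000000000000000) (nat_lit 0x20000000000000000) (nat_lit 7) (.f0 (nat_lit 0x3fff400000000000000000) (nat_lit 0xfc000800000000000000000) (nat_lit 7) (.v1 w9 (nat_lit 0x3d0000000000000000) (nat_lit 0x20000000000000000) (nat_lit 7) (.f0 (nat_lit 0x3fff400000000000000000) (nat_lit 0xfc000800000000000000000)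
  (nat_lit 7) (.f1 w19 (nat_lit 0x1fdc000000000000000000) (nat_lit 0xfe023c00000000000000000) (nat_lit 7) (.f1 w18 (nat_lit 0xfe023c00000000000000000) (nat_lit 0x1fdc000000000000000000) (nat_lit 7) (.f0 (nat_lit 0x2fffc00000000000000000) (nat_lit 0xfd000000000000000000000) (nat_lit 7) (.f1 w4 (nat_lit 0xfe023c00000000000000000) (nat_lit 0x1fdc000000000000000000) (nat_lit 7) (.f0 (nat_lit 0x2fffc00000000000000000)
  (nat_lit 0xfd000000000000000000000) (nat_lit 7) s220 (.ret (nat_lit 998))) s220) s224) (.f1 w4 (nat_lit 0x1fdc000000000000000000) (nat_lit 0xfe023c00000000000000000) (nat_lit 7) (.f1 w4 (nat_lit 0xfd000000000000000000000) (nat_lit 0x2fffc00000000000000000) (nat_lit 7) (.f0 (nat_lit 0xfc254000000000000000000) (nat_lit 0x3dabc00000000000000000) (nat_lit 7) (.ret (nat_lit 998)) (.ret (nat_lit 999)))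
  (.ret (nat_lit 999))) s220)) (.f0 (nat_lit 0xfd000000000000000000000) (nat_lit 0x2fffc00000000000000000) (nat_lit 7) (.f0 (nat_lit 0x3dabc00000000000000000) (nat_lit 0xfc254000000000000000000) (nat_lit 7) s227 (.ret (nat_lit 998))) s227)) (.ret (nat_lit 998))) (.ret (nat_lit 998))) (.ret (nat_lit 998))) (.ret (nat_lit 998))) (.ret (nat_lit 998))) (.ret (nat_lit 998))) s237) (.ret (nat_lit 998))) (.ret (nat_lit 998))) s237) (.ret (nat_lit 996))) (.ret (nat_lit 996))) (.ret (nat_lit 0))) (.ret (nat_lit 0))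
noncomputable def s276 : FP := .v0 (nat_lit 0x3d0000000000000000) (nat_lit 0x20000000000000000) (nat_lit 7) (.f0 (nat_lit 0x3ffc000000000000000000) (nat_lit 0xfc003c00000000000000000) (nat_lit 7) (.f0 (nat_lit 0x3fff400000000000000000) (nat_lit 0xfc000800000000000000000) (nat_lit 7) (.v1 w9 (nat_lit 0x3e0000000000000000) (nat_lit 0x10000000000000000) (nat_lit 7) s245 (.v0 (nat_lit 0x3d0000000000000000)
  (nat_lit 0x20000000000000000) (nat_lit 6) (.ret (nat_lit 1014)) (.ret (nat_lit 998)))) (.f0 (nat_lit 0x3ffec00000000000000000) (nat_lit 0xfc001000000000000000000) (nat_lit 6) (.v1 w9 (nat_lit 0x3e0000000000000000) (nat_lit 0x10000000000000000) (nat_lit 6) (.v1 w4 (nat_lit 0x3d0000000000000000) (nat_lit 0x20000000000000000) (nat_lit 6) (.f0 (nat_lit 0x3fff400000000000000000) (nat_lit 0xfc000800000000000000000)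
  (nat_lit 6) (.f1 w38 (nat_lit 0x1fdc000000000000000000) (nat_lit 0xfe023c00000000000000000) (nat_lit 6) (.f1 w4 (nat_lit 0xfc254000000000000000000) (nat_lit 0x3dabc00000000000000000) (nat_lit 6) (.ret (nat_lit 1028)) (.f1 w18 (nat_lit 0x1fdc000000000000000000) (nat_lit 0xfe023c00000000000000000) (nat_lit 6) (.f1 w24 (nat_lit 0x1fdc000000000000000000) (nat_lit 0xfe023c00000000000000000) (nat_lit 6)
  (.ret (nat_lit 1030)) (.ret (nat_lit 1028))) (.ret (nat_lit 1028)))) (.ret (nat_lit 1028))) (.ret (nat_lit 1029))) (.ret (nat_lit 0))) (.ret (nat_lit 1012))) (.v1 w9 (nat_lit 0x10000000000000000) (nat_lit 0x3e0000000000000000) (nat_lit 4) (.ret (nat_lit 1012)) (.ret (nat_lit 612))))) (.ret (nat_lit 0))) (.f0 (nat_lit 0x3ffc000000000000000000) (nat_lit 0xfc003c00000000000000000) (nat_lit 6) (.f0 (nat_lit 0xfc000400000000000000000)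
  (nat_lit 0x3fff800000000000000000) (nat_lit 6) (.f0 (nat_lit 0x3fff400000000000000000) (nat_lit 0xfc000800000000000000000) (nat_lit 4) (.v1 w9 (nat_lit 0x10000000000000000) (nat_lit 0x3e0000000000000000) (nat_lit 4) (.ret (nat_lit 692)) (.ret (nat_lit 0))) (.f1 w41 (nat_lit 0x1fdc000000000000000000) (nat_lit 0xfe023c00000000000000000) (nat_lit 4) (.ret (nat_lit 900)) s175)) (.v1 w9 (nat_lit 0x3e0000000000000000)
  (nat_lit 0x10000000000000000) (nat_lit 6) (.v1 w4 (nat_lit 0x3e0000000000000000) (nat_lit 0x10000000000000000) (nat_lit 6) (.v1 w2 (nat_lit 0x3b0000000000000000) (nat_lit 0x40000000000000000) (nat_lit 6) (.f1 w40 (nat_lit 0xfc000400000000000000000) (nat_lit 0x3fff800000000000000000) (nat_lit 6) (.ret (nat_lit 996)) (.f1 w39 (nat_lit 0x1fdc000000000000000000) (nat_lit 0xfe023c00000000000000000) (nat_lit 6) (.f1 w4 (nat_lit 0x1fdc000000000000000000) (nat_lit 0xfe023c00000000000000000) (nat_lit 6) (.f1 w4 (nat_lit 0x1fdc000000000000000000) (nat_lit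 0xfe023c00000000000000000) (nat_lit 6) (.ret (nat_lit 998)) (.ret (nat_lit 996))) (.ret (nat_lit 996))) (.ret (nat_lit 996)))) s212) (.ret (nat_lit 0))) (.ret (nat_lit 0)))) (.ret (nat_lit 0)))
noncomputable def s288 : FP := .v0 (nat_lit 0x3e0000000000000000) (nat_lit 0x10000000000000000) (nat_lit 7) (.v1 w42 (nat_lit 0x3e0000000000000000) (nat_lit 0x10000000000000000) (nat_lit 7) (.v1 w4 (nat_lit 0x10000000000000000) (nat_lit 0x3e0000000000000000) (nat_lit 7) s276 (.f0 (nat_lit 0x3ffc000000000000000000) (nat_lit 0xfc003c00000000000000000) (nat_lit 7) s197 (.f0 (nat_lit 0xfe000000000000000000000)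
  (nat_lit 0x1fffc00000000000000000) (nat_lit 6) s212 (.v1 w6 (nat_lit 0x3e0000000000000000) (nat_lit 0x10000000000000000) (nat_lit 4) (.v1 w4 (nat_lit 0x3e0000000000000000) (nat_lit 0x10000000000000000) (nat_lit 4) (.v1 w4 (nat_lit 0x3e0000000000000000) (nat_lit 0x10000000000000000) (nat_lit 4) (.v1 w4 (nat_lit 0x20000000000000000) (nat_lit 0x3d0000000000000000) (nat_lit 4) (.ret (nat_lit 0)) (.v1 w9
  (nat_lit 0x20000000000000000) (nat_lit 0x3d0000000000000000) (nat_lit 4) (.ret (nat_lit 0)) (.f0 (nat_lit 0xfc000800000000000000000) (nat_lit 0x3fff400000000000000000) (nat_lit 4) (.ret (nat_lit 0)) (.ret (nat_lit 852))))) (.v0 (nat_lit 0x3d0000000000000000) (nat_lit 0x20000000000000000) (nat_lit 4) (.v1 w25 (nat_lit 0x3e0000000000000000) (nat_lit 0x10000000000000000) (nat_lit 4) (.v1 w36 (nat_lit 0x3d0000000000000000)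
  (nat_lit 0x20000000000000000) (nat_lit 4) (.f0 (nat_lit 0x3fff400000000000000000) (nat_lit 0xfc000800000000000000000) (nat_lit 4) (.f1 w35 (nat_lit 0x1fdc000000000000000000) (nat_lit 0xfe023c00000000000000000) (nat_lit 4) (.ret (nat_lit 788)) (.f1 w34 (nat_lit 0x1fdc000000000000000000) (nat_lit 0xfe023c00000000000000000) (nat_lit 4) (.ret (nat_lit 788)) (.ret (nat_lit 0)))) (.ret (nat_lit 0))) (.ret
  (nat_lit 0))) (.ret (nat_lit 0))) (.ret (nat_lit 0)))) (.v0 (nat_lit 0x3d0000000000000000) (nat_lit 0x20000000000000000) (nat_lit 4) (.ret (nat_lit 820)) (.ret (nat_lit 0)))) (.ret (nat_lit 0)))))) (.v0 (nat_lit 0x20000000000000000) (nat_lit 0x3d0000000000000000) (nat_lit 4) (.f1 w4 (nat_lit 0x3ffc000000000000000000) (nat_lit 0xfc003c00000000000000000) (nat_lit 4) (.ret (nat_lit 1044)) (.ret (nat_lit 0)))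
  (.ret (nat_lit 0)))) (.v0 (nat_lit 0x20000000000000000) (nat_lit 0x3d0000000000000000) (nat_lit 6) (.f1 w6 (nat_lit 0x3fff400000000000000000) (nat_lit 0xfc000800000000000000000) (nat_lit 6) (.v1 w9 (nat_lit 0x3e0000000000000000) (nat_lit 0x10000000000000000) (nat_lit 6) (.v1 w4 (nat_lit 0x3e0000000000000000) (nat_lit 0x10000000000000000) (nat_lit 6) (.v1 w4 (nat_lit 0x3e0000000000000000) (nat_lit 0x10000000000000000) (nat_lit 6) s88 (.ret (nat_lit 0))) (.v0 (nat_lit 0x3d0000000000000000) (nat_lit 0x20000000000000000) (nat_lit 4) (.ret (nat_lit 756)) (.ret (nat_lit 0)))) (.ret (nat_lit 0))) (.ret (nat_lit 0))) (.ret (nat_lit 0)))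
noncomputable def s293 : FP := .v1 w9 (nat_lit 0x3e0000000000000000) (nat_lit 0x10000000000000000) (nat_lit 5) (.v1 w4 (nat_lit 0x3e0000000000000000) (nat_lit 0x10000000000000000) (nat_lit 5) (.f1 w43 (nat_lit 0x3dabc00000000000000000) (nat_lit 0xfc254000000000000000000) (nat_lit 5) (.ret (nat_lit 51)) (.ret (nat_lit 53))) (.ret (nat_lit 0))) (.ret (nat_lit 0))
noncomputable def s294 : FP := .f1 w44 (nat_lit 0x3dabc00000000000000000) (nat_lit 0xfc254000000000000000000) (nat_lit 5) (.ret (nat_lit 51)) (.ret (nat_lit 53))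
noncomputable def s297 : FP := .f1 w45 (nat_lit 0x3dabc00000000000000000) (nat_lit 0xfc254000000000000000000) (nat_lit 5) (.ret (nat_lit 51)) (.ret (nat_lit 53))
noncomputable def s301 : FP := .f1 w46 (nat_lit 0x3dabc00000000000000000) (nat_lit 0xfc254000000000000000000) (nat_lit 5) (.ret (nat_lit 51)) (.ret (nat_lit 53))
noncomputable def s303 : FP := .f1 w47 (nat_lit 0x3dabc00000000000000000) (nat_lit 0xfc254000000000000000000) (nat_lit 5) (.ret (nat_lit 51)) (.ret (nat_lit 53))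
noncomputable def s305 : FP := .v1 w4 (nat_lit 0x3e0000000000000000) (nat_lit 0x10000000000000000) (nat_lit 6) (.f1 w37 (nat_lit 0x1fdc000000000000000000) (nat_lit 0xfe023c00000000000000000) (nat_lit 6) (.f1 w4 (nat_lit 0x1fdc000000000000000000) (nat_lit 0xfe023c00000000000000000) (nat_lit 6) (.f1 w4 (nat_lit 0x1fdc000000000000000000) (nat_lit 0xfe023c00000000000000000) (nat_lit 6) (.f1 w4 (nat_lit 0xfe023c00000000000000000) (nat_lit 0x1fdc000000000000000000) (nat_lit 6) s297 (.ret (nat_lit 54))) (.f1 w15 (nat_lit 0x3dabc00000000000000000) (nat_lit 0xfc254000000000000000000) (nat_lit 5) (.ret (nat_lit 51)) (.ret (nat_lit 53)))) s301) s303) (.ret (nat_lit 0))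
noncomputable def s318 : FP := .f1 w52 (nat_lit 0x3dabc00000000000000000) (nat_lit 0xfc254000000000000000000) (nat_lit 5) (.ret (nat_lit 51)) (.ret (nat_lit 53))
noncomputable def s326 : FP := .f1 w25 (nat_lit 0x3fff400000000000000000) (nat_lit 0xfc000800000000000000000) (nat_lit 5) s293 s294
noncomputable def s341 : FP := .f1 w4 (nat_lit 0x3fbfc00000000000000000) (nat_lit 0xfc040000000000000000000) (nat_lit 6) (.v1 w9 (nat_lit 0x3e0000000000000000) (nat_lit 0x10000000000000000) (nat_lit 6) (.v1 w4 (nat_lit 0x3e0000000000000000) (nat_lit 0x10000000000000000) (nat_lit 6) (.v1 w4 (nat_lit 0x10000000000000000) (nat_lit 0x3e0000000000000000) (nat_lit 6) (.v0 (nat_lit 0x3d0000000000000000) (nat_lit 0x20000000000000000)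
  (nat_lit 6) (.f0 (nat_lit 0x3fff400000000000000000) (nat_lit 0xfc000800000000000000000) (nat_lit 6) (.v1 w9 (nat_lit 0x3e0000000000000000) (nat_lit 0x10000000000000000) (nat_lit 6) s305 (.v0 (nat_lit 0x3d0000000000000000) (nat_lit 0x20000000000000000) (nat_lit 6) (.f0 (nat_lit 0xfc003c00000000000000000) (nat_lit 0x3ffc000000000000000000) (nat_lit 6) (.f1 w21 (nat_lit 0x1fdc000000000000000000) (nat_lit 0xfe023c00000000000000000)
  (nat_lit 6) (.f1 w22 (nat_lit 0xfe023c00000000000000000) (nat_lit 0x1fdc000000000000000000) (nat_lit 6) s297 (.ret (nat_lit 54))) s303) (.f0 (nat_lit 0x3fff400000000000000000) (nat_lit 0xfc000800000000000000000) (nat_lit 5) (.f1 w48 (nat_lit 0x3dabc00000000000000000) (nat_lit 0xfc254000000000000000000) (nat_lit 5) (.ret (nat_lit 51)) (.ret (nat_lit 53))) (.f1 w49 (nat_lit 0x3dabc00000000000000000)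
  (nat_lit 0xfc254000000000000000000) (nat_lit 5) (.ret (nat_lit 51)) (.ret (nat_lit 53))))) (.v1 w1 (nat_lit 0x370000000000000000) (nat_lit 0x80000000000000000) (nat_lit 5) (.f1 w40 (nat_lit 0x3fff800000000000000000) (nat_lit 0xfc000400000000000000000) (nat_lit 5) (.f1 w50 (nat_lit 0x3dabc00000000000000000) (nat_lit 0xfc254000000000000000000) (nat_lit 5) (.ret (nat_lit 51)) (.ret (nat_lit 53))) s301)
  (.f1 w51 (nat_lit 0x3dabc00000000000000000) (nat_lit 0xfc254000000000000000000) (nat_lit 5) (.ret (nat_lit 51)) (.ret (nat_lit 53)))))) s318) s318) (.f1 w4 (nat_lit 0x3fff400000000000000000) (nat_lit 0xfc000800000000000000000) (nat_lit 5) s293 s294)) (.v1 w25 (nat_lit 0x3e0000000000000000) (nat_lit 0x10000000000000000) (nat_lit 5) (.f1 w53 (nat_lit 0x3dabc00000000000000000) (nat_lit 0xfc254000000000000000000)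
  (nat_lit 5) (.ret (nat_lit 51)) (.ret (nat_lit 53))) (.ret (nat_lit 0)))) (.v0 (nat_lit 0x20000000000000000) (nat_lit 0x3d0000000000000000) (nat_lit 5) s326 (.f1 w54 (nat_lit 0x3dabc00000000000000000) (nat_lit 0xfc254000000000000000000) (nat_lit 5) (.ret (nat_lit 51)) (.ret (nat_lit 53))))) (.v1 w9 (nat_lit 0x10000000000000000) (nat_lit 0x3e0000000000000000) (nat_lit 5) (.v0 (nat_lit 0x3d0000000000000000)
  (nat_lit 0x20000000000000000) (nat_lit 5) (.v1 w25 (nat_lit 0x3e0000000000000000) (nat_lit 0x10000000000000000) (nat_lit 5) (.v1 w4 (nat_lit 0x3d0000000000000000) (nat_lit 0x20000000000000000) (nat_lit 5) (.f1 w56 (nat_lit 0x3fff400000000000000000) (nat_lit 0xfc000800000000000000000) (nat_lit 5) s293 s294) (.ret (nat_lit 0))) (.v0 (nat_lit 0x3d0000000000000000) (nat_lit 0x20000000000000000) (nat_lit 5)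
  (.f1 w57 (nat_lit 0x3dabc00000000000000000) (nat_lit 0xfc254000000000000000000) (nat_lit 5) (.ret (nat_lit 51)) (.ret (nat_lit 53))) (.ret (nat_lit 0)))) (.ret (nat_lit 0))) (.v1 w4 (nat_lit 0x10000000000000000) (nat_lit 0x3e0000000000000000) (nat_lit 5) (.f1 w23 (nat_lit 0x3fff400000000000000000) (nat_lit 0xfc000800000000000000000) (nat_lit 5) (.v1 w9 (nat_lit 0x3e0000000000000000) (nat_lit 0x10000000000000000) (nat_lit 5) (.v1 w4 (nat_lit 0x3e0000000000000000) (nat_lit 0x10000000000000000) (nat_lit 5) (.f1 w55 (nat_lit 0x3dabc00000000000000000) (nat_lit 0xfc254000000000000000000) (nat_lit 5) (.ret (nat_lit 51)) (.ret (nat_lit 53))) (.ret (nat_lit 0))) (.ret (nat_lit 0))) s326) (.ret (nat_lit 0))))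
noncomputable def s350 : FP := .f1 w4 (nat_lit 0xfe023c00000000000000000) (nat_lit 0x1fdc000000000000000000) (nat_lit 3) (.f0 (nat_lit 0xfc254000000000000000000) (nat_lit 0x3dabc00000000000000000) (nat_lit 2) (.ret (nat_lit 49)) (.ret (nat_lit 50))) (.ret (nat_lit 51))
noncomputable def s360 : FP := .f0 (nat_lit 0x2fffc00000000000000000) (nat_lit 0xfd000000000000000000000) (nat_lit 2) (.ret (nat_lit 50)) (.ret (nat_lit 0))
noncomputable def s367 : FP := .f0 (nat_lit 0xfe000000000000000000000) (nat_lit 0x1fffc00000000000000000) (nat_lit 3) (.ret (nat_lit 51)) (.ret (nat_lit 0))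
noncomputable def s369 : FP := .f1 w4 (nat_lit 0xfe000000000000000000000) (nat_lit 0x1fffc00000000000000000) (nat_lit 3) (.ret (nat_lit 51)) (.ret (nat_lit 0))
noncomputable def s371 : FP := .f1 w24 (nat_lit 0xfe000000000000000000000) (nat_lit 0x1fffc00000000000000000) (nat_lit 3) (.ret (nat_lit 51)) (.ret (nat_lit 0))
noncomputable def s389 : FP := .f1 w17 (nat_lit 0xfd000000000000000000000) (nat_lit 0x2fffc00000000000000000) (nat_lit 6) (.f1 w4 (nat_lit 0xfd000000000000000000000) (nat_lit 0x2fffc00000000000000000) (nat_lit 6) (.f1 w37 (nat_lit 0xfc254000000000000000000) (nat_lit 0x3dabc00000000000000000) (nat_lit 6) (.f1 w4 (nat_lit 0x1fdc000000000000000000) (nat_lit 0xfe023c00000000000000000) (nat_lit 6) (.f1 w4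
  (nat_lit 0x1fdc000000000000000000) (nat_lit 0xfe023c00000000000000000) (nat_lit 6) (.f1 w4 (nat_lit 0xfe023c00000000000000000) (nat_lit 0x1fdc000000000000000000) (nat_lit 6) s369 (.f1 w4 (nat_lit 0xfc023c00000000000000000) (nat_lit 0x3fdc000000000000000000) (nat_lit 6) (.f0 (nat_lit 0xfe000000000000000000000) (nat_lit 0x1fffc00000000000000000) (nat_lit 5) (.f0 (nat_lit 0xfd000000000000000000000)
  (nat_lit 0x2fffc00000000000000000) (nat_lit 5) (.ret (nat_lit 51)) (.ret (nat_lit 53))) (.ret (nat_lit 0))) (.ret (nat_lit 54)))) s371) (.f1 w27 (nat_lit 0xfe000000000000000000000) (nat_lit 0x1fffc00000000000000000) (nat_lit 3) (.ret (nat_lit 51)) (.ret (nat_lit 0)))) (.f1 w4 (nat_lit 0xfe023c00000000000000000) (nat_lit 0x1fdc000000000000000000) (nat_lit 6) (.f0 (nat_lit 0xfc254000000000000000000)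
  (nat_lit 0x3dabc00000000000000000) (nat_lit 3) (.f0 (nat_lit 0x3f77c00000000000000000) (nat_lit 0xfc088000000000000000000) (nat_lit 3) (.f1 w25 (nat_lit 0xfc023c00000000000000000) (nat_lit 0x3fdc000000000000000000) (nat_lit 3) (.f0 (nat_lit 0xfd000000000000000000000) (nat_lit 0x2fffc00000000000000000) (nat_lit 3) (.ret (nat_lit 0)) (.ret (nat_lit 51))) (.ret (nat_lit 51))) (.f1 w27 (nat_lit 0xfc023c00000000000000000)
  (nat_lit 0x3fdc000000000000000000) (nat_lit 2) s360 (.ret (nat_lit 50)))) (.f1 w25 (nat_lit 0xfc023c00000000000000000) (nat_lit 0x3fdc000000000000000000) (nat_lit 3) s367 (.ret (nat_lit 51)))) (.f1 w4 (nat_lit 0x1fdc000000000000000000) (nat_lit 0xfe023c00000000000000000) (nat_lit 6) (.f1 w4 (nat_lit 0xfe023c00000000000000000) (nat_lit 0x1fdc000000000000000000) (nat_lit 6) s369 (.f1 w4 (nat_lit 0xfc023c00000000000000000)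
  (nat_lit 0x3fdc000000000000000000) (nat_lit 6) s367 (.ret (nat_lit 54)))) s371))) (.f1 w60 (nat_lit 0x2fffc00000000000000000) (nat_lit 0xfd000000000000000000000) (nat_lit 1) (.ret (nat_lit 49)) (.ret (nat_lit 0)))) (.f1 w4 (nat_lit 0x3fff400000000000000000) (nat_lit 0xfc000800000000000000000) (nat_lit 3) (.v1 w6 (nat_lit 0x20000000000000000) (nat_lit 0x3d0000000000000000) (nat_lit 3) (.f1 w59 (nat_lit 0xfc023c00000000000000000)
  (nat_lit 0x3fdc000000000000000000) (nat_lit 2) s360 (.ret (nat_lit 50))) (.v1 w25 (nat_lit 0x3e0000000000000000) (nat_lit 0x10000000000000000) (nat_lit 3) (.f1 w58 (nat_lit 0xfe000000000000000000000) (nat_lit 0x1fffc00000000000000000) (nat_lit 3) (.ret (nat_lit 51)) (.ret (nat_lit 0))) (.ret (nat_lit 0)))) (.f1 w24 (nat_lit 0xfc023c00000000000000000) (nat_lit 0x3fdc000000000000000000) (nat_lit 1) (.f0 (nat_lit 0xfd000000000000000000000) (nat_lit 0x2fffc00000000000000000) (nat_lit 1) (.ret (nat_lit 0)) (.ret (nat_lit 49))) (.ret (nat_lit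 49))))
noncomputable def s395 : FP := .f1 w4 (nat_lit 0xfc254000000000000000000) (nat_lit 0x3dabc00000000000000000) (nat_lit 6) (.ret (nat_lit 67)) (.ret (nat_lit 70))
noncomputable def s396 : FP := .f1 w4 (nat_lit 0xfe023c00000000000000000) (nat_lit 0x1fdc000000000000000000) (nat_lit 6) (.ret (nat_lit 67)) (.ret (nat_lit 70))
noncomputable def s398 : FP := .f0 (nat_lit 0xfc254000000000000000000) (nat_lit 0x3dabc00000000000000000) (nat_lit 3) (.ret (nat_lit 66)) (.ret (nat_lit 67))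
noncomputable def s399 : FP := .f1 w4 (nat_lit 0xfe023c00000000000000000) (nat_lit 0x1fdc000000000000000000) (nat_lit 6) s398 (.ret (nat_lit 70))
noncomputable def s402 : FP := .f0 (nat_lit 0xfc088000000000000000000) (nat_lit 0x3f77c00000000000000000) (nat_lit 3) (.ret (nat_lit 66)) (.ret (nat_lit 67))
noncomputable def s403 : FP := .f0 (nat_lit 0xfc254000000000000000000) (nat_lit 0x3dabc00000000000000000) (nat_lit 3) s402 (.ret (nat_lit 67))
noncomputable def s404 : FP := .f1 w4 (nat_lit 0xfe023c00000000000000000) (nat_lit 0x1fdc000000000000000000) (nat_lit 6) s403 (.ret (nat_lit 70))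
noncomputable def s406 : FP := .f0 (nat_lit 0xfc254000000000000000000) (nat_lit 0x3dabc00000000000000000) (nat_lit 4) (.ret (nat_lit 66)) (.ret (nat_lit 68))
noncomputable def s409 : FP := .f1 w24 (nat_lit 0xfe023c00000000000000000) (nat_lit 0x1fdc000000000000000000) (nat_lit 6) (.ret (nat_lit 67)) (.ret (nat_lit 70))
noncomputable def s416 : FP := .f1 w4 (nat_lit 0xfe023c00000000000000000) (nat_lit 0x1fdc000000000000000000) (nat_lit 4) (.ret (nat_lit 66)) (.ret (nat_lit 68))
noncomputable def s422 : FP := .f1 w4 (nat_lit 0x1fdc000000000000000000) (nat_lit 0xfe023c00000000000000000) (nat_lit 3) (.ret (nat_lit 67)) (.ret (nat_lit 66))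
noncomputable def s423 : FP := .f0 (nat_lit 0xfc254000000000000000000) (nat_lit 0x3dabc00000000000000000) (nat_lit 3) (.ret (nat_lit 66)) s422
noncomputable def s428 : FP := .f0 (nat_lit 0xfc254000000000000000000) (nat_lit 0x3dabc00000000000000000) (nat_lit 2) (.ret (nat_lit 65)) (.ret (nat_lit 66))
noncomputable def s434 : FP := .f1 w4 (nat_lit 0xfe023c00000000000000000) (nat_lit 0x1fdc000000000000000000) (nat_lit 6) (.ret (nat_lit 66)) (.ret (nat_lit 70))
noncomputable def s436 : FP := .f1 w24 (nat_lit 0xfe023c00000000000000000) (nat_lit 0x1fdc000000000000000000) (nat_lit 3) (.ret (nat_lit 66)) (.ret (nat_lit 67))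
noncomputable def s440 : FP := .f0 (nat_lit 0xfc254000000000000000000) (nat_lit 0x3dabc00000000000000000) (nat_lit 1) (.ret (nat_lit 0)) (.ret (nat_lit 65))
noncomputable def s441 : FP := .f1 w24 (nat_lit 0xfe023c00000000000000000) (nat_lit 0x1fdc000000000000000000) (nat_lit 3) s440 (.ret (nat_lit 67))
noncomputable def s445 : FP := .f0 (nat_lit 0xfd000000000000000000000) (nat_lit 0x2fffc00000000000000000) (nat_lit 2) (.ret (nat_lit 66)) (.ret (nat_lit 0))
noncomputable def s451 : FP := .f0 (nat_lit 0xfc254000000000000000000) (nat_lit 0x3dabc00000000000000000) (nat_lit 6) (.f0 (nat_lit 0xfc088000000000000000000) (nat_lit 0x3f77c00000000000000000) (nat_lit 6) (.f1 w4 (nat_lit 0xfe023c00000000000000000) (nat_lit 0x1fdc000000000000000000) (nat_lit 6) (.ret (nat_lit 66)) (.f1 w18 (nat_lit 0xfe023c00000000000000000) (nat_lit 0x1fdc000000000000000000) (nat_lit 6) s436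
  (.f1 w4 (nat_lit 0xfe023c00000000000000000) (nat_lit 0x1fdc000000000000000000) (nat_lit 6) (.f1 w4 (nat_lit 0xfe023c00000000000000000) (nat_lit 0x1fdc000000000000000000) (nat_lit 3) s445 (.ret (nat_lit 67))) s434))) (.f1 w4 (nat_lit 0xfe023c00000000000000000) (nat_lit 0x1fdc000000000000000000) (nat_lit 6) (.f0 (nat_lit 0xfc254000000000000000000) (nat_lit 0x3dabc00000000000000000) (nat_lit 3) (.f1 w18
  (nat_lit 0xfc088000000000000000000) (nat_lit 0x3f77c00000000000000000) (nat_lit 3) (.ret (nat_lit 66)) s441) (.f1 w18 (nat_lit 0xfe023c00000000000000000) (nat_lit 0x1fdc000000000000000000) (nat_lit 3) (.ret (nat_lit 66)) (.f1 w24 (nat_lit 0xfc254000000000000000000) (nat_lit 0x3dabc00000000000000000) (nat_lit 3) (.ret (nat_lit 66)) (.ret (nat_lit 67))))) (.f1 w18 (nat_lit 0xfe023c00000000000000000)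
  (nat_lit 0x1fdc000000000000000000) (nat_lit 6) s436 (.f1 w4 (nat_lit 0xfe023c00000000000000000) (nat_lit 0x1fdc000000000000000000) (nat_lit 6) (.ret (nat_lit 66)) s434)))) (.f1 w4 (nat_lit 0xfe023c00000000000000000) (nat_lit 0x1fdc000000000000000000) (nat_lit 6) (.f0 (nat_lit 0xfc254000000000000000000) (nat_lit 0x3dabc00000000000000000) (nat_lit 4) (.f0 (nat_lit 0xfd000000000000000000000) (nat_lit 0x2fffc00000000000000000)
  (nat_lit 4) (.ret (nat_lit 66)) (.f1 w18 (nat_lit 0x1fdc000000000000000000) (nat_lit 0xfe023c00000000000000000) (nat_lit 4) (.f1 w4 (nat_lit 0xfe023c00000000000000000) (nat_lit 0x1fdc000000000000000000) (nat_lit 4) s428 s416) (.ret (nat_lit 66)))) (.f1 w62 (nat_lit 0xfe023c00000000000000000) (nat_lit 0x1fdc000000000000000000) (nat_lit 3) (.ret (nat_lit 66)) (.ret (nat_lit 67)))) (.f1 w18 (nat_lit 0xfe023c00000000000000000)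
  (nat_lit 0x1fdc000000000000000000) (nat_lit 6) (.f0 (nat_lit 0xfc088000000000000000000) (nat_lit 0x3f77c00000000000000000) (nat_lit 4) (.f1 w4 (nat_lit 0xfe023c00000000000000000) (nat_lit 0x1fdc000000000000000000) (nat_lit 4) s423 (.f1 w4 (nat_lit 0xfe023c00000000000000000) (nat_lit 0x1fdc000000000000000000) (nat_lit 4) s403 (.ret (nat_lit 68)))) (.f1 w24 (nat_lit 0xfd000000000000000000000) (nat_lit 0x2fffc00000000000000000) (nat_lit 3) (.ret (nat_lit 67)) (.ret (nat_lit 65)))) (.f1 w4 (nat_lit 0xfe023c00000000000000000) (nat_lit 0x1fdc000000000000000000) (nat_lit 6) (.f0 (nat_lit 0xfc254000000000000000000) (nat_lit 0x3dabc00000000000000000) (nat_lit 4) (.ret (nat_lit 66)) s416) s399)))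
noncomputable def s453 : FP := .f0 (nat_lit 0xfd000000000000000000000) (nat_lit 0x2fffc00000000000000000) (nat_lit 4) (.ret (nat_lit 68)) (.ret (nat_lit 67))
noncomputable def s458 : FP := .f0 (nat_lit 0xfc254000000000000000000) (nat_lit 0x3dabc00000000000000000) (nat_lit 4) (.ret (nat_lit 67)) (.ret (nat_lit 68))
noncomputable def s459 : FP := .f1 w21 (nat_lit 0xfe023c00000000000000000) (nat_lit 0x1fdc000000000000000000) (nat_lit 6) s458 (.ret (nat_lit 70))
noncomputable def s466 : FP := .f0 (nat_lit 0xfc254000000000000000000) (nat_lit 0x3dabc00000000000000000) (nat_lit 6) (.ret (nat_lit 67)) (.ret (nat_lit 70))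
noncomputable def s467 : FP := .f1 w24 (nat_lit 0xfe023c00000000000000000) (nat_lit 0x1fdc000000000000000000) (nat_lit 6) s466 (.ret (nat_lit 70))
noncomputable def s473 : FP := .f1 w24 (nat_lit 0xfe023c00000000000000000) (nat_lit 0x1fdc000000000000000000) (nat_lit 6) s458 (.ret (nat_lit 70))
noncomputable def s476 : FP := .f1 w62 (nat_lit 0xfe023c00000000000000000) (nat_lit 0x1fdc000000000000000000) (nat_lit 4) (.ret (nat_lit 67)) (.ret (nat_lit 68))
noncomputable def s494 : FP := .f1 w4 (nat_lit 0xfe023c00000000000000000) (nat_lit 0x1fdc000000000000000000) (nat_lit 6) (.f0 (nat_lit 0xfc254000000000000000000) (nat_lit 0x3dabc00000000000000000) (nat_lit 6) (.f0 (nat_lit 0xfc088000000000000000000) (nat_lit 0x3f77c00000000000000000) (nat_lit 6) (.f0 (nat_lit 0xfd000000000000000000000) (nat_lit 0x2fffc00000000000000000) (nat_lit 6) (.f1 w4 (nat_lit 0xfe023c00000000000000000)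
  (nat_lit 0x1fdc000000000000000000) (nat_lit 6) (.ret (nat_lit 67)) (.f1 w18 (nat_lit 0xfe023c00000000000000000) (nat_lit 0x1fdc000000000000000000) (nat_lit 6) (.ret (nat_lit 67)) (.f1 w4 (nat_lit 0xfe023c00000000000000000) (nat_lit 0x1fdc000000000000000000) (nat_lit 6) (.ret (nat_lit 67)) s396))) (.f1 w4 (nat_lit 0xfe023c00000000000000000) (nat_lit 0x1fdc000000000000000000) (nat_lit 6) (.f0 (nat_lit 0xfc254000000000000000000)
  (nat_lit 0x3dabc00000000000000000) (nat_lit 4) (.ret (nat_lit 67)) s476) (.f1 w18 (nat_lit 0xfe023c00000000000000000) (nat_lit 0x1fdc000000000000000000) (nat_lit 6) (.ret (nat_lit 67)) (.f1 w4 (nat_lit 0xfc254000000000000000000) (nat_lit 0x3dabc00000000000000000) (nat_lit 6) (.ret (nat_lit 67)) s396)))) (.f1 w4 (nat_lit 0xfe023c00000000000000000) (nat_lit 0x1fdc000000000000000000) (nat_lit 6) (.ret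
  (nat_lit 67)) (.f1 w18 (nat_lit 0xfe023c00000000000000000) (nat_lit 0x1fdc000000000000000000) (nat_lit 6) (.f1 w24 (nat_lit 0xfe023c00000000000000000) (nat_lit 0x1fdc000000000000000000) (nat_lit 5) (.ret (nat_lit 67)) (.ret (nat_lit 69))) (.f1 w4 (nat_lit 0xfe023c00000000000000000) (nat_lit 0x1fdc000000000000000000) (nat_lit 6) (.f1 w4 (nat_lit 0xfe023c00000000000000000) (nat_lit 0x1fdc000000000000000000)
  (nat_lit 5) (.ret (nat_lit 67)) (.ret (nat_lit 69))) s396)))) (.f1 w4 (nat_lit 0xfe023c00000000000000000) (nat_lit 0x1fdc000000000000000000) (nat_lit 6) s476 (.f1 w18 (nat_lit 0xfe023c00000000000000000) (nat_lit 0x1fdc000000000000000000) (nat_lit 6) (.f0 (nat_lit 0xfc254000000000000000000) (nat_lit 0x3dabc00000000000000000) (nat_lit 6) s409 s473) s467))) (.f1 w4 (nat_lit 0xfe023c00000000000000000)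
  (nat_lit 0x1fdc000000000000000000) (nat_lit 6) (.f0 (nat_lit 0xfc254000000000000000000) (nat_lit 0x3dabc00000000000000000) (nat_lit 6) (.f1 w18 (nat_lit 0x1fdc000000000000000000) (nat_lit 0xfe023c00000000000000000) (nat_lit 6) (.f1 w24 (nat_lit 0xfe023c00000000000000000) (nat_lit 0x1fdc000000000000000000) (nat_lit 6) (.ret (nat_lit 67)) s459) (.ret (nat_lit 67))) (.f1 w18 (nat_lit 0xfe023c00000000000000000)
  (nat_lit 0x1fdc000000000000000000) (nat_lit 6) s409 s467)) (.f1 w18 (nat_lit 0xfe023c00000000000000000) (nat_lit 0x1fdc000000000000000000) (nat_lit 6) (.f0 (nat_lit 0xfc254000000000000000000) (nat_lit 0x3dabc00000000000000000) (nat_lit 6) (.f0 (nat_lit 0xfd000000000000000000000) (nat_lit 0x2fffc00000000000000000) (nat_lit 6) s409 (.f1 w4 (nat_lit 0xfe023c00000000000000000) (nat_lit 0x1fdc000000000000000000)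
  (nat_lit 6) s395 s396)) (.f1 w24 (nat_lit 0xfe023c00000000000000000) (nat_lit 0x1fdc000000000000000000) (nat_lit 6) (.f0 (nat_lit 0xfc254000000000000000000) (nat_lit 0x3dabc00000000000000000) (nat_lit 6) (.ret (nat_lit 67)) s459) (.ret (nat_lit 70)))) (.f1 w4 (nat_lit 0xfe023c00000000000000000) (nat_lit 0x1fdc000000000000000000) (nat_lit 6) (.f0 (nat_lit 0xfc254000000000000000000) (nat_lit 0x3dabc00000000000000000) (nat_lit 6) s396 (.f1 w4 (nat_lit 0xfe023c00000000000000000) (nat_lit 0x1fdc000000000000000000) (nat_lit 6) (.f0 (nat_lit 0x3dabc00000000000000000) (nat_lit 0xfc254000000000000000000) (nat_lit 6) (.ret (nat_lit 70)) s453) (.ret (nat_lit 70)))) (.ret (nat_lit 70)))))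
noncomputable def s496 : FP := .f0 (nat_lit 0xfc254000000000000000000) (nat_lit 0x3dabc00000000000000000) (nat_lit 6) (.ret (nat_lit 68)) (.ret (nat_lit 70))
noncomputable def s497 : FP := .f1 w4 (nat_lit 0xfe023c00000000000000000) (nat_lit 0x1fdc000000000000000000) (nat_lit 6) s496 (.ret (nat_lit 70))
noncomputable def s498 : FP := .f1 w4 (nat_lit 0xfe023c00000000000000000) (nat_lit 0x1fdc000000000000000000) (nat_lit 6) s453 (.ret (nat_lit 70))
noncomputable def s499 : FP := .f0 (nat_lit 0xfc254000000000000000000) (nat_lit 0x3dabc00000000000000000) (nat_lit 5) s453 (.ret (nat_lit 69))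
noncomputable def s505 : FP := .f1 w21 (nat_lit 0xfe023c00000000000000000) (nat_lit 0x1fdc000000000000000000) (nat_lit 5) (.ret (nat_lit 68)) (.ret (nat_lit 69))
noncomputable def s506 : FP := .f1 w21 (nat_lit 0xfe023c00000000000000000) (nat_lit 0x1fdc000000000000000000) (nat_lit 4) s458 (.ret (nat_lit 68))
noncomputable def s507 : FP := .f0 (nat_lit 0xfd000000000000000000000) (nat_lit 0x2fffc00000000000000000) (nat_lit 4) s506 (.ret (nat_lit 67))
noncomputable def s514 : FP := .f1 w4 (nat_lit 0xfe023c00000000000000000) (nat_lit 0x1fdc000000000000000000) (nat_lit 4) (.ret (nat_lit 67)) (.ret (nat_lit 68))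
noncomputable def s515 : FP := .f1 w4 (nat_lit 0xfe023c00000000000000000) (nat_lit 0x1fdc000000000000000000) (nat_lit 6) s514 s498
noncomputable def s526 : FP := .f1 w63 (nat_lit 0xfe023c00000000000000000) (nat_lit 0x1fdc000000000000000000) (nat_lit 6) (.ret (nat_lit 68)) (.ret (nat_lit 70))
noncomputable def s529 : FP := .f1 w62 (nat_lit 0xfe023c00000000000000000) (nat_lit 0x1fdc000000000000000000) (nat_lit 6) (.ret (nat_lit 67)) (.ret (nat_lit 70))
noncomputable def s530 : FP := .f1 w24 (nat_lit 0xfe023c00000000000000000) (nat_lit 0x1fdc000000000000000000) (nat_lit 4) (.ret (nat_lit 67)) (.ret (nat_lit 68))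
noncomputable def s544 : FP := .f1 w37 (nat_lit 0xfc254000000000000000000) (nat_lit 0x3dabc00000000000000000) (nat_lit 4) (.ret (nat_lit 67)) (.ret (nat_lit 68))
noncomputable def s551 : FP := .f1 w4 (nat_lit 0xfe023c00000000000000000) (nat_lit 0x1fdc000000000000000000) (nat_lit 6) (.f0 (nat_lit 0xfc254000000000000000000) (nat_lit 0x3dabc00000000000000000) (nat_lit 6) (.f0 (nat_lit 0xfc088000000000000000000) (nat_lit 0x3f77c00000000000000000) (nat_lit 6) (.f0 (nat_lit 0xfd000000000000000000000) (nat_lit 0x2fffc00000000000000000) (nat_lit 6) (.f1 w4 (nat_lit 0xfe023c00000000000000000)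
  (nat_lit 0x1fdc000000000000000000) (nat_lit 6) (.f0 (nat_lit 0xfc254000000000000000000) (nat_lit 0x3dabc00000000000000000) (nat_lit 4) (.f1 w63 (nat_lit 0xfe023c00000000000000000) (nat_lit 0x1fdc000000000000000000) (nat_lit 4) (.ret (nat_lit 67)) s544) (.f1 w62 (nat_lit 0xfd000000000000000000000) (nat_lit 0x2fffc00000000000000000) (nat_lit 4) s506 (.ret (nat_lit 67)))) (.f1 w63 (nat_lit 0xfe023c00000000000000000)
  (nat_lit 0x1fdc000000000000000000) (nat_lit 6) s453 (.f1 w37 (nat_lit 0xfe023c00000000000000000) (nat_lit 0x1fdc000000000000000000) (nat_lit 6) (.ret (nat_lit 69)) (.f1 w4 (nat_lit 0xfe023c00000000000000000) (nat_lit 0x1fdc000000000000000000) (nat_lit 6) (.ret (nat_lit 69)) (.ret (nat_lit 70)))))) (.f1 w4 (nat_lit 0xfe023c00000000000000000) (nat_lit 0x1fdc000000000000000000) (nat_lit 6) (.f1 w62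
  (nat_lit 0xfd000000000000000000000) (nat_lit 0x2fffc00000000000000000) (nat_lit 4) (.ret (nat_lit 68)) (.ret (nat_lit 67))) (.f1 w62 (nat_lit 0xfe023c00000000000000000) (nat_lit 0x1fdc000000000000000000) (nat_lit 6) s499 (.ret (nat_lit 70))))) (.f1 w4 (nat_lit 0xfe023c00000000000000000) (nat_lit 0x1fdc000000000000000000) (nat_lit 6) (.f0 (nat_lit 0xfc254000000000000000000) (nat_lit 0x3dabc00000000000000000)
  (nat_lit 6) (.f1 w18 (nat_lit 0xfc254000000000000000000) (nat_lit 0x3dabc00000000000000000) (nat_lit 4) (.ret (nat_lit 67)) (.f1 w24 (nat_lit 0xfe023c00000000000000000) (nat_lit 0x1fdc000000000000000000) (nat_lit 4) (.f0 (nat_lit 0xfc254000000000000000000) (nat_lit 0x3dabc00000000000000000) (nat_lit 4) s402 (.ret (nat_lit 68))) (.ret (nat_lit 68)))) (.f1 w18 (nat_lit 0xfe023c00000000000000000) (nat_lit 0x1fdc000000000000000000)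
  (nat_lit 6) s530 s515)) s529)) (.f1 w4 (nat_lit 0xfe023c00000000000000000) (nat_lit 0x1fdc000000000000000000) (nat_lit 6) (.f1 w63 (nat_lit 0xfd000000000000000000000) (nat_lit 0x2fffc00000000000000000) (nat_lit 4) (.ret (nat_lit 68)) (.ret (nat_lit 67))) s526)) (.f1 w4 (nat_lit 0xfe023c00000000000000000) (nat_lit 0x1fdc000000000000000000) (nat_lit 6) (.f0 (nat_lit 0xfc254000000000000000000) (nat_lit 0x3dabc00000000000000000)
  (nat_lit 6) (.f1 w63 (nat_lit 0xfe023c00000000000000000) (nat_lit 0x1fdc000000000000000000) (nat_lit 6) (.f0 (nat_lit 0xfd000000000000000000000) (nat_lit 0x2fffc00000000000000000) (nat_lit 4) (.ret (nat_lit 68)) (.ret (nat_lit 66))) (.f1 w37 (nat_lit 0xfe023c00000000000000000) (nat_lit 0x1fdc000000000000000000) (nat_lit 6) (.ret (nat_lit 68)) (.f1 w4 (nat_lit 0xfe023c00000000000000000) (nat_lit 0x1fdc000000000000000000)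
  (nat_lit 6) (.ret (nat_lit 68)) (.ret (nat_lit 70))))) (.f1 w18 (nat_lit 0xfe023c00000000000000000) (nat_lit 0x1fdc000000000000000000) (nat_lit 6) (.f0 (nat_lit 0xfc254000000000000000000) (nat_lit 0x3dabc00000000000000000) (nat_lit 6) (.f0 (nat_lit 0xfc088000000000000000000) (nat_lit 0x3f77c00000000000000000) (nat_lit 6) (.f1 w24 (nat_lit 0xfe023c00000000000000000) (nat_lit 0x1fdc000000000000000000)
  (nat_lit 5) s453 (.ret (nat_lit 69))) s515) (.f1 w24 (nat_lit 0xfe023c00000000000000000) (nat_lit 0x1fdc000000000000000000) (nat_lit 6) (.ret (nat_lit 68)) (.ret (nat_lit 70)))) (.f1 w4 (nat_lit 0xfe023c00000000000000000) (nat_lit 0x1fdc000000000000000000) (nat_lit 6) s498 s497))) (.f1 w18 (nat_lit 0xfe023c00000000000000000) (nat_lit 0x1fdc000000000000000000) (nat_lit 6) (.f0 (nat_lit 0xfc254000000000000000000)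
  (nat_lit 0x3dabc00000000000000000) (nat_lit 6) (.f1 w24 (nat_lit 0xfe023c00000000000000000) (nat_lit 0x1fdc000000000000000000) (nat_lit 6) (.f0 (nat_lit 0xfc254000000000000000000) (nat_lit 0x3dabc00000000000000000) (nat_lit 5) s507 s505) (.ret (nat_lit 70))) (.f1 w24 (nat_lit 0xfe023c00000000000000000) (nat_lit 0x1fdc000000000000000000) (nat_lit 6) s496 (.ret (nat_lit 70)))) (.f1 w4 (nat_lit 0xfe023c00000000000000000)
  (nat_lit 0x1fdc000000000000000000) (nat_lit 6) (.f0 (nat_lit 0xfc254000000000000000000) (nat_lit 0x3dabc00000000000000000) (nat_lit 6) (.f0 (nat_lit 0x2fffc00000000000000000) (nat_lit 0xfd000000000000000000000) (nat_lit 6) s498 (.f1 w4 (nat_lit 0xfe023c00000000000000000) (nat_lit 0x1fdc000000000000000000) (nat_lit 6) s499 (.ret (nat_lit 70)))) s497) (.f1 w4 (nat_lit 0x2fffc00000000000000000) (nat_lit 0xfd000000000000000000000) (nat_lit 6) (.ret (nat_lit 68)) (.ret (nat_lit 70))))))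
noncomputable def s557 : FP := .f1 w22 (nat_lit 0xfc254000000000000000000) (nat_lit 0x3dabc00000000000000000) (nat_lit 6) (.ret (nat_lit 83)) (.ret (nat_lit 86))
noncomputable def s567 : FP := .f1 w10 (nat_lit 0xfc254000000000000000000) (nat_lit 0x3dabc00000000000000000) (nat_lit 6) (.ret (nat_lit 83)) (.ret (nat_lit 86))
noncomputable def s569 : FP := .f1 w4 (nat_lit 0xfe023c00000000000000000) (nat_lit 0x1fdc000000000000000000) (nat_lit 6) (.f1 w10 (nat_lit 0xfe023c00000000000000000) (nat_lit 0x1fdc000000000000000000) (nat_lit 6) (.ret (nat_lit 83)) (.ret (nat_lit 86))) s567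
noncomputable def s570 : FP := .f1 w44 (nat_lit 0xfe023c00000000000000000) (nat_lit 0x1fdc000000000000000000) (nat_lit 6) (.ret (nat_lit 83)) (.ret (nat_lit 86))
noncomputable def s577 : FP := .f1 w22 (nat_lit 0xfe023c00000000000000000) (nat_lit 0x1fdc000000000000000000) (nat_lit 6) (.ret (nat_lit 83)) (.ret (nat_lit 86))
noncomputable def s578 : FP := .f1 w10 (nat_lit 0xfe023c00000000000000000) (nat_lit 0x1fdc000000000000000000) (nat_lit 6) s577 s557
noncomputable def s582 : FP := .f0 (nat_lit 0xfc254000000000000000000) (nat_lit 0x3dabc00000000000000000) (nat_lit 6) (.ret (nat_lit 83)) (.ret (nat_lit 86))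
noncomputable def s595 : FP := .f1 w24 (nat_lit 0xfe023c00000000000000000) (nat_lit 0x1fdc000000000000000000) (nat_lit 6) s582 (.ret (nat_lit 86))
noncomputable def s597 : FP := .f0 (nat_lit 0xfc254000000000000000000) (nat_lit 0x3dabc00000000000000000) (nat_lit 4) (.ret (nat_lit 83)) (.ret (nat_lit 84))
noncomputable def s606 : FP := .f0 (nat_lit 0x3ffc000000000000000000) (nat_lit 0xfc003c00000000000000000) (nat_lit 6) (.f0 (nat_lit 0xfc000800000000000000000) (nat_lit 0x3fff400000000000000000) (nat_lit 6) (.f0 (nat_lit 0x3ffec00000000000000000) (nat_lit 0xfc001000000000000000000) (nat_lit 6) (.f1 w68 (nat_lit 0xfe023c00000000000000000) (nat_lit 0x1fdc000000000000000000) (nat_lit 6) s578 (.f1 w10 (nat_lit 0xfe023c00000000000000000)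
  (nat_lit 0x1fdc000000000000000000) (nat_lit 6) (.f0 (nat_lit 0xfc254000000000000000000) (nat_lit 0x3dabc00000000000000000) (nat_lit 6) (.f1 w67 (nat_lit 0x1fdc000000000000000000) (nat_lit 0xfe023c00000000000000000) (nat_lit 6) (.ret (nat_lit 86)) (.ret (nat_lit 83))) (.f1 w18 (nat_lit 0x1fdc000000000000000000) (nat_lit 0xfe023c00000000000000000) (nat_lit 6) (.f1 w4 (nat_lit 0xfe023c00000000000000000)
  (nat_lit 0x1fdc000000000000000000) (nat_lit 6) s570 s569) (.f1 w52 (nat_lit 0x1fdc000000000000000000) (nat_lit 0xfe023c00000000000000000) (nat_lit 6) (.ret (nat_lit 86)) (.ret (nat_lit 83))))) (.ret (nat_lit 86)))) (.ret (nat_lit 0))) (.f1 w8 (nat_lit 0x3dabc00000000000000000) (nat_lit 0xfc254000000000000000000) (nat_lit 6) (.f1 w4 (nat_lit 0xfe023c00000000000000000) (nat_lit 0x1fdc000000000000000000)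
  (nat_lit 6) (.f0 (nat_lit 0xfc254000000000000000000) (nat_lit 0x3dabc00000000000000000) (nat_lit 6) (.f1 w10 (nat_lit 0xfc254000000000000000000) (nat_lit 0x3dabc00000000000000000) (nat_lit 6) (.ret (nat_lit 83)) s557) (.f1 w64 (nat_lit 0xfc254000000000000000000) (nat_lit 0x3dabc00000000000000000) (nat_lit 6) (.ret (nat_lit 83)) (.ret (nat_lit 86)))) (.f1 w10 (nat_lit 0xfc254000000000000000000) (nat_lit 0x3dabc00000000000000000)
  (nat_lit 6) s557 (.ret (nat_lit 86)))) (.f1 w66 (nat_lit 0xfc254000000000000000000) (nat_lit 0x3dabc00000000000000000) (nat_lit 6) (.f1 w65 (nat_lit 0xfe023c00000000000000000) (nat_lit 0x1fdc000000000000000000) (nat_lit 6) (.ret (nat_lit 84)) (.ret (nat_lit 86))) (.ret (nat_lit 86))))) (.f0 (nat_lit 0xfe000000000000000000000) (nat_lit 0x1fffc00000000000000000) (nat_lit 6) (.f1 w71 (nat_lit 0x3dabc00000000000000000)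
  (nat_lit 0xfc254000000000000000000) (nat_lit 6) (.f1 w4 (nat_lit 0xfe023c00000000000000000) (nat_lit 0x1fdc000000000000000000) (nat_lit 6) (.f1 w72 (nat_lit 0xfe023c00000000000000000) (nat_lit 0x1fdc000000000000000000) (nat_lit 6) (.ret (nat_lit 83)) (.ret (nat_lit 86))) (.f1 w4 (nat_lit 0xfe023c00000000000000000) (nat_lit 0x1fdc000000000000000000) (nat_lit 6) (.f1 w62 (nat_lit 0xfe023c00000000000000000)
  (nat_lit 0x1fdc000000000000000000) (nat_lit 6) s597 (.ret (nat_lit 86))) (.f1 w18 (nat_lit 0xfd000000000000000000000) (nat_lit 0x2fffc00000000000000000) (nat_lit 6) s595 (.f1 w24 (nat_lit 0xfe023c00000000000000000) (nat_lit 0x1fdc000000000000000000) (nat_lit 6) (.f0 (nat_lit 0xfc254000000000000000000) (nat_lit 0x3dabc00000000000000000) (nat_lit 6) (.f0 (nat_lit 0xfd000000000000000000000) (nat_lit 0x2fffc00000000000000000)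
  (nat_lit 6) (.ret (nat_lit 83)) (.ret (nat_lit 86))) (.ret (nat_lit 86))) (.ret (nat_lit 86)))))) (.f1 w4 (nat_lit 0xfe023c00000000000000000) (nat_lit 0x1fdc000000000000000000) (nat_lit 6) (.f1 w72 (nat_lit 0xfe023c00000000000000000) (nat_lit 0x1fdc000000000000000000) (nat_lit 6) (.ret (nat_lit 84)) (.ret (nat_lit 86))) (.ret (nat_lit 86)))) (.f1 w71 (nat_lit 0xfc254000000000000000000) (nat_lit 0x3dabc00000000000000000)
  (nat_lit 6) (.f1 w4 (nat_lit 0xfe023c00000000000000000) (nat_lit 0x1fdc000000000000000000) (nat_lit 6) (.f1 w70 (nat_lit 0xfe023c00000000000000000) (nat_lit 0x1fdc000000000000000000) (nat_lit 6) (.ret (nat_lit 84)) (.ret (nat_lit 86))) (.ret (nat_lit 86))) (.f1 w4 (nat_lit 0xfe023c00000000000000000) (nat_lit 0x1fdc000000000000000000) (nat_lit 6) (.f1 w70 (nat_lit 0xfe023c00000000000000000) (nat_lit 0x1fdc000000000000000000)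
  (nat_lit 6) (.ret (nat_lit 83)) (.ret (nat_lit 86))) (.f1 w4 (nat_lit 0x1fdc000000000000000000) (nat_lit 0xfe023c00000000000000000) (nat_lit 6) (.f1 w69 (nat_lit 0x1fdc000000000000000000) (nat_lit 0xfe023c00000000000000000) (nat_lit 6) (.ret (nat_lit 86)) s582) (.f0 (nat_lit 0xfc254000000000000000000) (nat_lit 0x3dabc00000000000000000) (nat_lit 6) (.ret (nat_lit 83)) (.f1 w69 (nat_lit 0x1fdc000000000000000000) (nat_lit 0xfe023c00000000000000000) (nat_lit 6) (.ret (nat_lit 86)) (.ret (nat_lit 83))))))))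
noncomputable def s632 : FP := .f1 w74 (nat_lit 0xfe023c00000000000000000) (nat_lit 0x1fdc000000000000000000) (nat_lit 6) (.ret (nat_lit 67)) (.f1 w65 (nat_lit 0xfe023c00000000000000000) (nat_lit 0x1fdc000000000000000000) (nat_lit 6) (.ret (nat_lit 67)) (.ret (nat_lit 70)))
noncomputable def s635 : FP := .f0 (nat_lit 0xfc088000000000000000000) (nat_lit 0x3f77c00000000000000000) (nat_lit 6) (.f1 w74 (nat_lit 0xfe023c00000000000000000) (nat_lit 0x1fdc000000000000000000) (nat_lit 6) (.ret (nat_lit 68)) (.f1 w65 (nat_lit 0xfe023c00000000000000000) (nat_lit 0x1fdc000000000000000000) (nat_lit 6) (.ret (nat_lit 68)) (.ret (nat_lit 70)))) s632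
noncomputable def s638 : FP := .f1 w1 (nat_lit 0xfc000400000000000000000) (nat_lit 0x3fff800000000000000000) (nat_lit 6) (.f1 w75 (nat_lit 0x3fff800000000000000000) (nat_lit 0xfc000400000000000000000) (nat_lit 6) (.f1 w71 (nat_lit 0xfc254000000000000000000) (nat_lit 0x3dabc00000000000000000) (nat_lit 6) (.f0 (nat_lit 0xfc088000000000000000000) (nat_lit 0x3f77c00000000000000000) (nat_lit 6) (.f1 w4
  (nat_lit 0xfe023c00000000000000000) (nat_lit 0x1fdc000000000000000000) (nat_lit 6) (.f1 w70 (nat_lit 0xfe023c00000000000000000) (nat_lit 0x1fdc000000000000000000) (nat_lit 5) s507 s505) (.f1 w4 (nat_lit 0xfc254000000000000000000) (nat_lit 0x3dabc00000000000000000) (nat_lit 6) s526 (.f1 w62 (nat_lit 0xfe023c00000000000000000) (nat_lit 0x1fdc000000000000000000) (nat_lit 6) s496 (.ret (nat_lit 70)))))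
  (.f1 w4 (nat_lit 0xfe023c00000000000000000) (nat_lit 0x1fdc000000000000000000) (nat_lit 6) (.ret (nat_lit 67)) (.f1 w72 (nat_lit 0xfe023c00000000000000000) (nat_lit 0x1fdc000000000000000000) (nat_lit 6) s466 (.ret (nat_lit 70))))) (.f1 w4 (nat_lit 0xfe023c00000000000000000) (nat_lit 0x1fdc000000000000000000) (nat_lit 6) s398 (.f1 w4 (nat_lit 0xfc254000000000000000000) (nat_lit 0x3dabc00000000000000000)
  (nat_lit 6) (.ret (nat_lit 67)) (.f1 w62 (nat_lit 0xfe023c00000000000000000) (nat_lit 0x1fdc000000000000000000) (nat_lit 6) s398 (.ret (nat_lit 70)))))) (.f1 w71 (nat_lit 0x3dabc00000000000000000) (nat_lit 0xfc254000000000000000000) (nat_lit 6) s632 s635)) (.f1 w73 (nat_lit 0xfc254000000000000000000) (nat_lit 0x3dabc00000000000000000) (nat_lit 6) (.f0 (nat_lit 0xfc088000000000000000000) (nat_lit 0x3f77c00000000000000000)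
  (nat_lit 6) (.f1 w4 (nat_lit 0xfe023c00000000000000000) (nat_lit 0x1fdc000000000000000000) (nat_lit 6) (.ret (nat_lit 68)) (.f1 w4 (nat_lit 0xfe023c00000000000000000) (nat_lit 0x1fdc000000000000000000) (nat_lit 6) s526 (.f1 w63 (nat_lit 0x2fffc00000000000000000) (nat_lit 0xfd000000000000000000000) (nat_lit 6) (.ret (nat_lit 68)) (.ret (nat_lit 70))))) (.f1 w4 (nat_lit 0xfe023c00000000000000000) (nat_lit 0x1fdc000000000000000000)
  (nat_lit 6) (.f1 w72 (nat_lit 0xfe023c00000000000000000) (nat_lit 0x1fdc000000000000000000) (nat_lit 6) (.ret (nat_lit 67)) (.ret (nat_lit 70))) (.f1 w4 (nat_lit 0xfe023c00000000000000000) (nat_lit 0x1fdc000000000000000000) (nat_lit 6) s529 (.ret (nat_lit 70))))) (.f1 w4 (nat_lit 0xfe023c00000000000000000) (nat_lit 0x1fdc000000000000000000) (nat_lit 6) s398 (.f1 w4 (nat_lit 0xfe023c00000000000000000)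
  (nat_lit 0x1fdc000000000000000000) (nat_lit 6) (.f1 w18 (nat_lit 0x1fdc000000000000000000) (nat_lit 0xfe023c00000000000000000) (nat_lit 6) (.f1 w24 (nat_lit 0xfe023c00000000000000000) (nat_lit 0x1fdc000000000000000000) (nat_lit 6) s398 (.ret (nat_lit 70))) s402) (.f1 w62 (nat_lit 0xfc254000000000000000000) (nat_lit 0x3dabc00000000000000000) (nat_lit 6) (.ret (nat_lit 67)) (.ret (nat_lit 70))))))
noncomputable def s646 : FP := .f0 (nat_lit 0xfd000000000000000000000) (nat_lit 0x2fffc00000000000000000) (nat_lit 3) s402 (.ret (nat_lit 0))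
noncomputable def s647 : FP := .f0 (nat_lit 0xfc254000000000000000000) (nat_lit 0x3dabc00000000000000000) (nat_lit 4) s646 (.ret (nat_lit 68))
noncomputable def s651 : FP := .f1 w30 (nat_lit 0xfc254000000000000000000) (nat_lit 0x3dabc00000000000000000) (nat_lit 4) (.f0 (nat_lit 0xfc088000000000000000000) (nat_lit 0x3f77c00000000000000000) (nat_lit 4) (.f1 w4 (nat_lit 0xfc254000000000000000000) (nat_lit 0x3dabc00000000000000000) (nat_lit 4) (.ret (nat_lit 67)) (.f1 w78 (nat_lit 0x1fdc000000000000000000) (nat_lit 0xfe023c00000000000000000) (nat_lit 4) (.ret (nat_lit 68)) s647)) (.ret (nat_lit 67))) (.ret (nat_lit 66))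
noncomputable def s652 : FP := .f0 (nat_lit 0xfc254000000000000000000) (nat_lit 0x3dabc00000000000000000) (nat_lit 3) s646 (.ret (nat_lit 67))
noncomputable def s656 : FP := .f1 w24 (nat_lit 0x1fdc000000000000000000) (nat_lit 0xfe023c00000000000000000) (nat_lit 3) (.ret (nat_lit 67)) s652
noncomputable def s659 : FP := .f1 w18 (nat_lit 0xfe023c00000000000000000) (nat_lit 0x1fdc000000000000000000) (nat_lit 6) (.f1 w25 (nat_lit 0x1fdc000000000000000000) (nat_lit 0xfe023c00000000000000000) (nat_lit 3) (.ret (nat_lit 67)) s652) (.f1 w4 (nat_lit 0xfe023c00000000000000000) (nat_lit 0x1fdc000000000000000000) (nat_lit 6) s656 (.f1 w4 (nat_lit 0xfe023c00000000000000000) (nat_lit 0x1fdc000000000000000000) (nat_lit 6) (.f1 w4 (nat_lit 0x1fdc000000000000000000) (nat_lit 0xfe023c00000000000000000) (nat_lit 3) (.ret (nat_lit 67)) s403) (.f1 w4 (nat_lit 0xfe023c00000000000000000) (nat_lit 0x1fdc000000000000000000) (nat_lit 6) s652 (.ret (nat_lit 70)))))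
noncomputable def s666 : FP := .f1 w4 (nat_lit 0xfe023c00000000000000000) (nat_lit 0x1fdc000000000000000000) (nat_lit 3) s440 (.ret (nat_lit 67))
noncomputable def s667 : FP := .f1 w4 (nat_lit 0xfc254000000000000000000) (nat_lit 0x3dabc00000000000000000) (nat_lit 1) (.ret (nat_lit 0)) (.ret (nat_lit 65))
noncomputable def s671 : FP := .f1 w4 (nat_lit 0x1fdc000000000000000000) (nat_lit 0xfe023c00000000000000000) (nat_lit 1) (.ret (nat_lit 65)) (.ret (nat_lit 0))
noncomputable def s674 : FP := .f0 (nat_lit 0xfc254000000000000000000) (nat_lit 0x3dabc00000000000000000) (nat_lit 3) (.f0 (nat_lit 0xfc088000000000000000000) (nat_lit 0x3f77c00000000000000000) (nat_lit 3) (.f1 w62 (nat_lit 0xfc254000000000000000000) (nat_lit 0x3dabc00000000000000000) (nat_lit 2) (.ret (nat_lit 66)) s671) (.f1 w18 (nat_lit 0xfe023c00000000000000000) (nat_lit 0x1fdc000000000000000000)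
  (nat_lit 3) (.f0 (nat_lit 0x3dabc00000000000000000) (nat_lit 0xfc254000000000000000000) (nat_lit 3) (.ret (nat_lit 65)) (.f1 w24 (nat_lit 0xfe023c00000000000000000) (nat_lit 0x1fdc000000000000000000) (nat_lit 3) s667 s666)) (.f1 w25 (nat_lit 0x1fdc000000000000000000) (nat_lit 0xfe023c00000000000000000) (nat_lit 1) (.ret (nat_lit 65)) s440))) (.f1 w18 (nat_lit 0xfe023c00000000000000000) (nat_lit 0x1fdc000000000000000000)
  (nat_lit 3) (.f1 w25 (nat_lit 0x1fdc000000000000000000) (nat_lit 0xfe023c00000000000000000) (nat_lit 2) (.ret (nat_lit 65)) (.ret (nat_lit 66))) (.f1 w4 (nat_lit 0xfe023c00000000000000000) (nat_lit 0x1fdc000000000000000000) (nat_lit 3) (.f1 w24 (nat_lit 0x1fdc000000000000000000) (nat_lit 0xfe023c00000000000000000) (nat_lit 2) (.ret (nat_lit 65)) (.ret (nat_lit 66))) (.f1 w4 (nat_lit 0xfe023c00000000000000000) (nat_lit 0x1fdc000000000000000000) (nat_lit 3) s423 s422)))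
noncomputable def s678 : FP := .f0 (nat_lit 0xfd000000000000000000000) (nat_lit 0x2fffc00000000000000000) (nat_lit 1) (.ret (nat_lit 65)) (.ret (nat_lit 0))
noncomputable def s688 : FP := .f1 w4 (nat_lit 0x1fdc000000000000000000) (nat_lit 0xfe023c00000000000000000) (nat_lit 1) (.ret (nat_lit 65)) s440
noncomputable def s697 : FP := .f0 (nat_lit 0x3dabc00000000000000000) (nat_lit 0xfc254000000000000000000) (nat_lit 3) (.f1 w4 (nat_lit 0x1fdc000000000000000000) (nat_lit 0xfe023c00000000000000000) (nat_lit 3) (.f1 w18 (nat_lit 0xfe023c00000000000000000) (nat_lit 0x1fdc000000000000000000) (nat_lit 3) (.f0 (nat_lit 0x3dabc00000000000000000) (nat_lit 0xfc254000000000000000000) (nat_lit 3) (.f1 w24 (nat_lit 0xfe023c00000000000000000)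
  (nat_lit 0x1fdc000000000000000000) (nat_lit 3) (.ret (nat_lit 65)) (.f1 w4 (nat_lit 0x1fdc000000000000000000) (nat_lit 0xfe023c00000000000000000) (nat_lit 3) (.ret (nat_lit 67)) (.ret (nat_lit 65)))) (.f1 w25 (nat_lit 0xfc254000000000000000000) (nat_lit 0x3dabc00000000000000000) (nat_lit 2) s678 (.ret (nat_lit 66)))) (.f1 w4 (nat_lit 0xfe023c00000000000000000) (nat_lit 0x1fdc000000000000000000) (nat_lit 3)
  (.f1 w24 (nat_lit 0xfc254000000000000000000) (nat_lit 0x3dabc00000000000000000) (nat_lit 2) s678 (.ret (nat_lit 66))) (.f1 w24 (nat_lit 0x1fdc000000000000000000) (nat_lit 0xfe023c00000000000000000) (nat_lit 3) (.f1 w21 (nat_lit 0x1d88000000000000000000) (nat_lit 0xfe277c00000000000000000) (nat_lit 3) (.ret (nat_lit 67)) (.ret (nat_lit 65))) (.ret (nat_lit 66))))) (.f1 w62 (nat_lit 0xfc254000000000000000000)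
  (nat_lit 0x3dabc00000000000000000) (nat_lit 2) (.ret (nat_lit 66)) (.ret (nat_lit 65)))) (.f0 (nat_lit 0x3f77c00000000000000000) (nat_lit 0xfc088000000000000000000) (nat_lit 3) (.f1 w4 (nat_lit 0x1fdc000000000000000000) (nat_lit 0xfe023c00000000000000000) (nat_lit 3) (.f1 w18 (nat_lit 0x1fdc000000000000000000) (nat_lit 0xfe023c00000000000000000) (nat_lit 3) (.f1 w4 (nat_lit 0xfe023c00000000000000000)
  (nat_lit 0x1fdc000000000000000000) (nat_lit 3) (.ret (nat_lit 65)) (.f1 w4 (nat_lit 0xfe023c00000000000000000) (nat_lit 0x1fdc000000000000000000) (nat_lit 3) (.f0 (nat_lit 0x3dabc00000000000000000) (nat_lit 0xfc254000000000000000000) (nat_lit 3) s666 s667) s688)) (.f1 w24 (nat_lit 0xfe023c00000000000000000) (nat_lit 0x1fdc000000000000000000) (nat_lit 3) s688 s666)) (.ret (nat_lit 65))) (.f1 w72 (nat_lit 0xfc254000000000000000000) (nat_lit 0x3dabc00000000000000000) (nat_lit 2) (.ret (nat_lit 66)) s671))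
noncomputable def s699 : FP := .f1 w79 (nat_lit 0xfe023c00000000000000000) (nat_lit 0x1fdc000000000000000000) (nat_lit 6) s652 (.ret (nat_lit 70))
noncomputable def s707 : FP := .f1 w4 (nat_lit 0xfe023c00000000000000000) (nat_lit 0x1fdc000000000000000000) (nat_lit 6) (.f0 (nat_lit 0x3dabc00000000000000000) (nat_lit 0xfc254000000000000000000) (nat_lit 5) (.f1 w4 (nat_lit 0x1fdc000000000000000000) (nat_lit 0xfe023c00000000000000000) (nat_lit 5) (.f1 w18 (nat_lit 0xfe023c00000000000000000) (nat_lit 0x1fdc000000000000000000) (nat_lit 5) (.ret (nat_lit 67))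
  (.f1 w4 (nat_lit 0xfe023c00000000000000000) (nat_lit 0x1fdc000000000000000000) (nat_lit 5) s656 (.f1 w4 (nat_lit 0xfe023c00000000000000000) (nat_lit 0x1fdc000000000000000000) (nat_lit 5) (.ret (nat_lit 67)) (.f1 w4 (nat_lit 0xfe023c00000000000000000) (nat_lit 0x1fdc000000000000000000) (nat_lit 5) s652 (.ret (nat_lit 69)))))) (.ret (nat_lit 67))) (.ret (nat_lit 67))) (.f1 w4 (nat_lit 0xfe023c00000000000000000) (nat_lit 0x1fdc000000000000000000) (nat_lit 6) (.ret (nat_lit 67)) s699)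
noncomputable def s710 : FP := .f1 w63 (nat_lit 0x1fdc000000000000000000) (nat_lit 0xfe023c00000000000000000) (nat_lit 4) (.ret (nat_lit 68)) (.f1 w80 (nat_lit 0xfc254000000000000000000) (nat_lit 0x3dabc00000000000000000) (nat_lit 4) s646 (.ret (nat_lit 68)))
noncomputable def s712 : FP := .f1 w24 (nat_lit 0x1fdc000000000000000000) (nat_lit 0xfe023c00000000000000000) (nat_lit 5) (.ret (nat_lit 69)) s647
noncomputable def s718 : FP := .f0 (nat_lit 0x3dabc00000000000000000) (nat_lit 0xfc254000000000000000000) (nat_lit 5) (.f1 w4 (nat_lit 0x1fdc000000000000000000) (nat_lit 0xfe023c00000000000000000) (nat_lit 5) (.f1 w65 (nat_lit 0xfe023c00000000000000000) (nat_lit 0x1fdc000000000000000000) (nat_lit 5) (.f0 (nat_lit 0xfc254000000000000000000) (nat_lit 0x3dabc00000000000000000) (nat_lit 5) (.f0 (nat_lit 0xfc088000000000000000000) (nat_lit 0x3f77c00000000000000000) (nat_lit 5) (.f1 w24 (nat_lit 0x1fdc000000000000000000) (nat_lit 0xfe023c00000000000000000) (nat_lit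 4) (.ret (nat_lit 68)) s647) s712) s712) s712) s710) (.ret (nat_lit 67))
noncomputable def s730 : FP := .f1 w65 (nat_lit 0xfe023c00000000000000000) (nat_lit 0x1fdc000000000000000000) (nat_lit 6) (.ret (nat_lit 83)) (.ret (nat_lit 86))
noncomputable def s741 : FP := .f1 w4 (nat_lit 0xfe023c00000000000000000) (nat_lit 0x1fdc000000000000000000) (nat_lit 6) s674 s699
noncomputable def s745 : FP := .f0 (nat_lit 0x3f77c00000000000000000) (nat_lit 0xfc088000000000000000000) (nat_lit 6) s707 (.f1 w4 (nat_lit 0xfe023c00000000000000000) (nat_lit 0x1fdc000000000000000000) (nat_lit 6) s718 (.f1 w70 (nat_lit 0x1fdc000000000000000000) (nat_lit 0xfe023c00000000000000000) (nat_lit 6) (.ret (nat_lit 70)) s647))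
noncomputable def s748 : FP := .v1 w4 (nat_lit 0x3e0000000000000000) (nat_lit 0x10000000000000000) (nat_lit 6) (.f1 w81 (nat_lit 0xfd000000000000000000000) (nat_lit 0x2fffc00000000000000000) (nat_lit 6) (.f1 w30 (nat_lit 0xfd000000000000000000000) (nat_lit 0x2fffc00000000000000000) (nat_lit 6) (.f1 w24 (nat_lit 0xfd000000000000000000000) (nat_lit 0x2fffc00000000000000000) (nat_lit 6) (.f1 w30 (nat_lit 0xfc254000000000000000000)
  (nat_lit 0x3dabc00000000000000000) (nat_lit 6) (.f0 (nat_lit 0xfc088000000000000000000) (nat_lit 0x3f77c00000000000000000) (nat_lit 6) (.f1 w4 (nat_lit 0xfe023c00000000000000000) (nat_lit 0x1fdc000000000000000000) (nat_lit 6) s718 (.f1 w4 (nat_lit 0xfe023c00000000000000000) (nat_lit 0x1fdc000000000000000000) (nat_lit 6) s710 (.f1 w63 (nat_lit 0x1fdc000000000000000000) (nat_lit 0xfe023c00000000000000000)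
  (nat_lit 6) (.ret (nat_lit 70)) s647))) s707) (.f1 w4 (nat_lit 0x1fdc000000000000000000) (nat_lit 0xfe023c00000000000000000) (nat_lit 6) (.f1 w4 (nat_lit 0xfe023c00000000000000000) (nat_lit 0x1fdc000000000000000000) (nat_lit 6) s674 s659) s697)) s651) (.f1 w77 (nat_lit 0xfc254000000000000000000) (nat_lit 0x3dabc00000000000000000) (nat_lit 3) (.ret (nat_lit 67)) (.f1 w4 (nat_lit 0x1fdc000000000000000000)
  (nat_lit 0xfe023c00000000000000000) (nat_lit 2) (.f1 w4 (nat_lit 0x1fdc000000000000000000) (nat_lit 0xfe023c00000000000000000) (nat_lit 2) (.ret (nat_lit 66)) (.ret (nat_lit 65))) (.ret (nat_lit 65))))) (.ret (nat_lit 65))) (.v0 (nat_lit 0x3d0000000000000000) (nat_lit 0x20000000000000000) (nat_lit 6) (.f0 (nat_lit 0x3ffc000000000000000000) (nat_lit 0xfc003c00000000000000000) (nat_lit 6) (.f0 (nat_lit 0xfc000800000000000000000)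
  (nat_lit 0x3fff400000000000000000) (nat_lit 6) (.f0 (nat_lit 0x3ffec00000000000000000) (nat_lit 0xfc001000000000000000000) (nat_lit 6) (.f1 w83 (nat_lit 0x1fdc000000000000000000) (nat_lit 0xfe023c00000000000000000) (nat_lit 6) (.f1 w18 (nat_lit 0xfe023c00000000000000000) (nat_lit 0x1fdc000000000000000000) (nat_lit 6) (.f1 w25 (nat_lit 0xfe023c00000000000000000) (nat_lit 0x1fdc000000000000000000)
  (nat_lit 6) (.ret (nat_lit 83)) s730) (.f1 w82 (nat_lit 0xfe023c00000000000000000) (nat_lit 0x1fdc000000000000000000) (nat_lit 6) (.ret (nat_lit 83)) (.f1 w27 (nat_lit 0xfc254000000000000000000) (nat_lit 0x3dabc00000000000000000) (nat_lit 6) (.ret (nat_lit 83)) (.ret (nat_lit 86))))) (.f1 w79 (nat_lit 0xfe023c00000000000000000) (nat_lit 0x1fdc000000000000000000) (nat_lit 6) (.ret (nat_lit 83)) s730))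
  (.ret (nat_lit 0))) (.f1 w11 (nat_lit 0x1fdc000000000000000000) (nat_lit 0xfe023c00000000000000000) (nat_lit 6) (.f1 w4 (nat_lit 0x1fdc000000000000000000) (nat_lit 0xfe023c00000000000000000) (nat_lit 6) (.f1 w79 (nat_lit 0xfc254000000000000000000) (nat_lit 0x3dabc00000000000000000) (nat_lit 6) (.ret (nat_lit 83)) (.ret (nat_lit 86))) (.ret (nat_lit 83))) (.ret (nat_lit 83)))) (.f1 w81 (nat_lit 0xfe023c00000000000000000)
  (nat_lit 0x1fdc000000000000000000) (nat_lit 6) (.ret (nat_lit 83)) (.f1 w4 (nat_lit 0x1fdc000000000000000000) (nat_lit 0xfe023c00000000000000000) (nat_lit 6) (.f1 w79 (nat_lit 0xfe023c00000000000000000) (nat_lit 0x1fdc000000000000000000) (nat_lit 6) (.ret (nat_lit 83)) (.ret (nat_lit 86))) (.ret (nat_lit 83))))) (.f1 w7 (nat_lit 0xfc254000000000000000000) (nat_lit 0x3dabc00000000000000000) (nat_lit 6) s745 (.f1 w4 (nat_lit 0x1fdc000000000000000000) (nat_lit 0xfe023c00000000000000000) (nat_lit 6) s741 (.ret (nat_lit 67)))))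
noncomputable def s757 : FP := .f1 w18 (nat_lit 0xfe023c00000000000000000) (nat_lit 0x1fdc000000000000000000) (nat_lit 6) (.ret (nat_lit 99)) (.f1 w65 (nat_lit 0xfe023c00000000000000000) (nat_lit 0x1fdc000000000000000000) (nat_lit 6) (.ret (nat_lit 99)) (.ret (nat_lit 102)))
noncomputable def s760 : FP := .f0 (nat_lit 0xfc254000000000000000000) (nat_lit 0x3dabc00000000000000000) (nat_lit 4) (.ret (nat_lit 99)) (.ret (nat_lit 100))
noncomputable def s775 : FP := .f1 w25 (nat_lit 0xfe023c00000000000000000) (nat_lit 0x1fdc000000000000000000) (nat_lit 6) s760 (.f1 w21 (nat_lit 0xfe023c00000000000000000) (nat_lit 0x1fdc000000000000000000) (nat_lit 6) s760 (.ret (nat_lit 102)))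
noncomputable def s782 : FP := .f0 (nat_lit 0x3ffc000000000000000000) (nat_lit 0xfc003c00000000000000000) (nat_lit 6) (.f0 (nat_lit 0xfc000800000000000000000) (nat_lit 0x3fff400000000000000000) (nat_lit 6) (.f0 (nat_lit 0x3ffec00000000000000000) (nat_lit 0xfc001000000000000000000) (nat_lit 6) (.f1 w87 (nat_lit 0x3dabc00000000000000000) (nat_lit 0xfc254000000000000000000) (nat_lit 6) (.f1 w44 (nat_lit 0x1fdc000000000000000000)
  (nat_lit 0xfe023c00000000000000000) (nat_lit 6) (.f1 w63 (nat_lit 0xfe023c00000000000000000) (nat_lit 0x1fdc000000000000000000) (nat_lit 6) s757 (.f1 w86 (nat_lit 0xfe023c00000000000000000) (nat_lit 0x1fdc000000000000000000) (nat_lit 6) (.ret (nat_lit 99)) (.f1 w27 (nat_lit 0xfc254000000000000000000) (nat_lit 0x3dabc00000000000000000) (nat_lit 6) (.ret (nat_lit 99)) (.ret (nat_lit 102))))) (.f1 w84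
  (nat_lit 0xfe023c00000000000000000) (nat_lit 0x1fdc000000000000000000) (nat_lit 6) (.ret (nat_lit 99)) (.f1 w65 (nat_lit 0xfe023c00000000000000000) (nat_lit 0x1fdc000000000000000000) (nat_lit 6) s760 (.ret (nat_lit 102))))) (.f1 w44 (nat_lit 0x1fdc000000000000000000) (nat_lit 0xfe023c00000000000000000) (nat_lit 6) (.f1 w63 (nat_lit 0xfe023c00000000000000000) (nat_lit 0x1fdc000000000000000000) (nat_lit 6) s757
  (.f1 w86 (nat_lit 0xfe023c00000000000000000) (nat_lit 0x1fdc000000000000000000) (nat_lit 6) (.ret (nat_lit 99)) (.f1 w27 (nat_lit 0x2fffc00000000000000000) (nat_lit 0xfd000000000000000000000) (nat_lit 6) (.ret (nat_lit 99)) (.ret (nat_lit 102))))) (.f1 w84 (nat_lit 0xfe023c00000000000000000) (nat_lit 0x1fdc000000000000000000) (nat_lit 6) (.ret (nat_lit 99)) (.f1 w65 (nat_lit 0xfe023c00000000000000000)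
  (nat_lit 0x1fdc000000000000000000) (nat_lit 6) (.ret (nat_lit 101)) (.ret (nat_lit 102)))))) (.ret (nat_lit 0))) (.f1 w85 (nat_lit 0xfe023c00000000000000000) (nat_lit 0x1fdc000000000000000000) (nat_lit 6) (.ret (nat_lit 99)) (.f1 w10 (nat_lit 0xfc254000000000000000000) (nat_lit 0x3dabc00000000000000000) (nat_lit 6) (.ret (nat_lit 99)) (.f1 w84 (nat_lit 0xfe023c00000000000000000) (nat_lit 0x1fdc000000000000000000)
  (nat_lit 6) (.ret (nat_lit 99)) (.ret (nat_lit 102)))))) (.f1 w22 (nat_lit 0xfe023c00000000000000000) (nat_lit 0x1fdc000000000000000000) (nat_lit 6) (.ret (nat_lit 99)) (.f1 w4 (nat_lit 0x1fdc000000000000000000) (nat_lit 0xfe023c00000000000000000) (nat_lit 6) (.f1 w18 (nat_lit 0xfc014000000000000000000) (nat_lit 0x3febc00000000000000000) (nat_lit 6) (.f0 (nat_lit 0xfc240000000000000000000) (nat_lit 0x3dbfc00000000000000000) (nat_lit 6) (.f1 w25 (nat_lit 0xfe023c00000000000000000) (nat_lit 0x1fdc000000000000000000) (nat_lit 6) (.ret (nat_lit 99))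 (.f1 w21 (nat_lit 0xfe023c00000000000000000) (nat_lit 0x1fdc000000000000000000) (nat_lit 6) (.ret (nat_lit 99)) (.ret (nat_lit 102)))) s775) s775) (.ret (nat_lit 99))))
noncomputable def s796 : FP := .f1 w21 (nat_lit 0xfe023c00000000000000000) (nat_lit 0x1fdc000000000000000000) (nat_lit 6) (.ret (nat_lit 83)) (.ret (nat_lit 86))
noncomputable def s803 : FP := .f0 (nat_lit 0xfc088000000000000000000) (nat_lit 0x3f77c00000000000000000) (nat_lit 3) (.ret (nat_lit 98)) (.ret (nat_lit 99))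
noncomputable def s805 : FP := .f0 (nat_lit 0xfc254000000000000000000) (nat_lit 0x3dabc00000000000000000) (nat_lit 3) s803 (.ret (nat_lit 99))
noncomputable def s806 : FP := .f1 w91 (nat_lit 0xfe023c00000000000000000) (nat_lit 0x1fdc000000000000000000) (nat_lit 4) s805 (.f1 w4 (nat_lit 0xfe023c00000000000000000) (nat_lit 0x1fdc000000000000000000) (nat_lit 4) s803 (.ret (nat_lit 100)))
noncomputable def s810 : FP := .f1 w63 (nat_lit 0xfe023c00000000000000000) (nat_lit 0x1fdc000000000000000000) (nat_lit 4) (.f1 w18 (nat_lit 0x1fdc000000000000000000) (nat_lit 0xfe023c00000000000000000) (nat_lit 4) (.f1 w65 (nat_lit 0x1fdc000000000000000000) (nat_lit 0xfe023c00000000000000000) (nat_lit 4) s806 (.ret (nat_lit 98))) (.ret (nat_lit 98))) (.f1 w86 (nat_lit 0x1fdc000000000000000000) (nat_lit 0xfe023c00000000000000000) (nat_lit 4) s806 (.ret (nat_lit 98)))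
noncomputable def s815 : FP := .f1 w63 (nat_lit 0xfc254000000000000000000) (nat_lit 0x3dabc00000000000000000) (nat_lit 6) (.ret (nat_lit 99)) s757
noncomputable def s833 : FP := .f0 (nat_lit 0x3ffc000000000000000000) (nat_lit 0xfc003c00000000000000000) (nat_lit 6) (.f0 (nat_lit 0x3fff400000000000000000) (nat_lit 0xfc000800000000000000000) (nat_lit 6) (.v1 w9 (nat_lit 0x3e0000000000000000) (nat_lit 0x10000000000000000) (nat_lit 6) (.f1 w94 (nat_lit 0x3dabc00000000000000000) (nat_lit 0xfc254000000000000000000) (nat_lit 6) (.f1 w24 (nat_lit 0xfe023c00000000000000000)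
  (nat_lit 0x1fdc000000000000000000) (nat_lit 4) (.f1 w18 (nat_lit 0x1fdc000000000000000000) (nat_lit 0xfe023c00000000000000000) (nat_lit 4) s810 (.ret (nat_lit 98))) (.f1 w18 (nat_lit 0xfc254000000000000000000) (nat_lit 0x3dabc00000000000000000) (nat_lit 4) (.f1 w92 (nat_lit 0xfe023c00000000000000000) (nat_lit 0x1fdc000000000000000000) (nat_lit 3) (.ret (nat_lit 98)) (.ret (nat_lit 99))) s810)) (.f0
  (nat_lit 0xfc088000000000000000000) (nat_lit 0x3f77c00000000000000000) (nat_lit 6) (.f1 w93 (nat_lit 0x1fdc000000000000000000) (nat_lit 0xfe023c00000000000000000) (nat_lit 4) (.ret (nat_lit 100)) (.f1 w65 (nat_lit 0x1fdc000000000000000000) (nat_lit 0xfe023c00000000000000000) (nat_lit 4) (.ret (nat_lit 100)) (.ret (nat_lit 98)))) (.f1 w24 (nat_lit 0xfe023c00000000000000000) (nat_lit 0x1fdc000000000000000000)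
  (nat_lit 6) (.f1 w18 (nat_lit 0x1fdc000000000000000000) (nat_lit 0xfe023c00000000000000000) (nat_lit 6) s815 (.ret (nat_lit 99))) (.f1 w18 (nat_lit 0xfc254000000000000000000) (nat_lit 0x3dabc00000000000000000) (nat_lit 6) (.ret (nat_lit 99)) s815)))) (.ret (nat_lit 0))) (.f0 (nat_lit 0x3ffec00000000000000000) (nat_lit 0xfc001000000000000000000) (nat_lit 3) (.v1 w14 (nat_lit 0x3e0000000000000000)
  (nat_lit 0x10000000000000000) (nat_lit 3) (.f1 w95 (nat_lit 0x3dabc00000000000000000) (nat_lit 0xfc254000000000000000000) (nat_lit 3) (.f1 w4 (nat_lit 0x1fdc000000000000000000) (nat_lit 0xfe023c00000000000000000) (nat_lit 3) (.f1 w30 (nat_lit 0xfe023c00000000000000000) (nat_lit 0x1fdc000000000000000000) (nat_lit 3) (.f1 w18 (nat_lit 0xfe023c00000000000000000) (nat_lit 0x1fdc000000000000000000) (nat_lit 3)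
  (.ret (nat_lit 98)) (.ret (nat_lit 99))) (.ret (nat_lit 99))) (.ret (nat_lit 98))) (.ret (nat_lit 99))) (.ret (nat_lit 0))) (.ret (nat_lit 66)))) (.f1 w96 (nat_lit 0x1fdc000000000000000000) (nat_lit 0xfe023c00000000000000000) (nat_lit 3) (.f1 w65 (nat_lit 0x1fdc000000000000000000) (nat_lit 0xfe023c00000000000000000) (nat_lit 3) (.ret (nat_lit 99)) (.ret (nat_lit 98))) (.ret (nat_lit 98)))
noncomputable def s846 : FP := .v1 w9 (nat_lit 0x3e0000000000000000) (nat_lit 0x10000000000000000) (nat_lit 6) (.v1 w4 (nat_lit 0x10000000000000000) (nat_lit 0x3e0000000000000000) (nat_lit 6) (.v0 (nat_lit 0x3d0000000000000000) (nat_lit 0x20000000000000000) (nat_lit 6) s833 (.ret (nat_lit 0))) (.v1 w4 (nat_lit 0x20000000000000000) (nat_lit 0x3d0000000000000000) (nat_lit 6) (.ret (nat_lit 0)) (.f0 (nat_lit 0x3ffc000000000000000000)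
  (nat_lit 0xfc003c00000000000000000) (nat_lit 6) (.f0 (nat_lit 0xfc000800000000000000000) (nat_lit 0x3fff400000000000000000) (nat_lit 4) (.f0 (nat_lit 0x3ffec00000000000000000) (nat_lit 0xfc001000000000000000000) (nat_lit 4) (.v1 w14 (nat_lit 0x3e0000000000000000) (nat_lit 0x10000000000000000) (nat_lit 4) (.f1 w89 (nat_lit 0xfc254000000000000000000) (nat_lit 0x3dabc00000000000000000) (nat_lit 4) (.f0
  (nat_lit 0xfc088000000000000000000) (nat_lit 0x3f77c00000000000000000) (nat_lit 4) (.f1 w88 (nat_lit 0x1fdc000000000000000000) (nat_lit 0xfe023c00000000000000000) (nat_lit 4) (.f1 w27 (nat_lit 0xfc254000000000000000000) (nat_lit 0x3dabc00000000000000000) (nat_lit 4) (.ret (nat_lit 83)) (.ret (nat_lit 84))) (.ret (nat_lit 83))) (.ret (nat_lit 83))) (.ret (nat_lit 83))) (.ret (nat_lit 0))) (.ret (nat_lit 66)))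
  (.ret (nat_lit 83))) (.f1 w90 (nat_lit 0xfe023c00000000000000000) (nat_lit 0x1fdc000000000000000000) (nat_lit 6) (.ret (nat_lit 82)) (.f1 w29 (nat_lit 0xfc023c00000000000000000) (nat_lit 0x3fdc000000000000000000) (nat_lit 6) (.ret (nat_lit 83)) s796))))) (.v0 (nat_lit 0x3d0000000000000000) (nat_lit 0x20000000000000000) (nat_lit 4) (.f1 w23 (nat_lit 0x3ffc000000000000000000) (nat_lit 0xfc003c00000000000000000)
  (nat_lit 4) (.f0 (nat_lit 0xfc000800000000000000000) (nat_lit 0x3fff400000000000000000) (nat_lit 4) (.f0 (nat_lit 0xfc001000000000000000000) (nat_lit 0x3ffec00000000000000000) (nat_lit 4) (.f1 w98 (nat_lit 0xfd000000000000000000000) (nat_lit 0x2fffc00000000000000000) (nat_lit 4) (.f1 w21 (nat_lit 0xfc254000000000000000000) (nat_lit 0x3dabc00000000000000000) (nat_lit 4) (.f0 (nat_lit 0xfc088000000000000000000)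
  (nat_lit 0x3f77c00000000000000000) (nat_lit 4) (.ret (nat_lit 68)) (.f1 w97 (nat_lit 0xfc254000000000000000000) (nat_lit 0x3dabc00000000000000000) (nat_lit 3) s646 (.ret (nat_lit 67)))) (.f1 w97 (nat_lit 0xfc254000000000000000000) (nat_lit 0x3dabc00000000000000000) (nat_lit 3) s402 (.ret (nat_lit 67)))) (.ret (nat_lit 67))) (.ret (nat_lit 115))) (.ret (nat_lit 115))) (.ret (nat_lit 115))) (.ret (nat_lit 0)))
noncomputable def s849 : FP := .f0 (nat_lit 0xfc088000000000000000000) (nat_lit 0x3f77c00000000000000000) (nat_lit 4) (.ret (nat_lit 68)) (.ret (nat_lit 67))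
noncomputable def s857 : FP := .v1 w9 (nat_lit 0x3e0000000000000000) (nat_lit 0x10000000000000000) (nat_lit 6) (.v1 w4 (nat_lit 0x3e0000000000000000) (nat_lit 0x10000000000000000) (nat_lit 6) (.f1 w37 (nat_lit 0x1fdc000000000000000000) (nat_lit 0xfe023c00000000000000000) (nat_lit 6) (.f1 w4 (nat_lit 0xfe023c00000000000000000) (nat_lit 0x1fdc000000000000000000) (nat_lit 6) (.f1 w99 (nat_lit 0x3dabc00000000000000000)
  (nat_lit 0xfc254000000000000000000) (nat_lit 4) (.ret (nat_lit 67)) s849) (.f1 w4 (nat_lit 0xfe023c00000000000000000) (nat_lit 0x1fdc000000000000000000) (nat_lit 6) (.f1 w28 (nat_lit 0x3dabc00000000000000000) (nat_lit 0xfc254000000000000000000) (nat_lit 4) (.ret (nat_lit 67)) s849) (.ret (nat_lit 70)))) (.f1 w100 (nat_lit 0x3dabc00000000000000000) (nat_lit 0xfc254000000000000000000) (nat_lit 4) (.ret (nat_lit 67)) s849)) (.ret (nat_lit 0))) (.ret (nat_lit 0))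
noncomputable def s858 : FP := .f1 w7 (nat_lit 0x3dabc00000000000000000) (nat_lit 0xfc254000000000000000000) (nat_lit 4) (.ret (nat_lit 67)) s849
noncomputable def s864 : FP := .f1 w77 (nat_lit 0x3dabc00000000000000000) (nat_lit 0xfc254000000000000000000) (nat_lit 4) (.ret (nat_lit 67)) s849
noncomputable def s886 : FP := .f1 w4 (nat_lit 0x3fbfc00000000000000000) (nat_lit 0xfc040000000000000000000) (nat_lit 6) (.v1 w9 (nat_lit 0x3e0000000000000000) (nat_lit 0x10000000000000000) (nat_lit 6) (.v1 w4 (nat_lit 0x3e0000000000000000) (nat_lit 0x10000000000000000) (nat_lit 6) (.v1 w4 (nat_lit 0x10000000000000000) (nat_lit 0x3e0000000000000000) (nat_lit 6) (.f0 (nat_lit 0x3fff400000000000000000)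
  (nat_lit 0xfc000800000000000000000) (nat_lit 4) (.v1 w14 (nat_lit 0x3e0000000000000000) (nat_lit 0x10000000000000000) (nat_lit 4) (.f1 w37 (nat_lit 0x1fdc000000000000000000) (nat_lit 0xfe023c00000000000000000) (nat_lit 4) (.f1 w101 (nat_lit 0x3dabc00000000000000000) (nat_lit 0xfc254000000000000000000) (nat_lit 4) (.ret (nat_lit 67)) s849) (.f1 w102 (nat_lit 0x3dabc00000000000000000) (nat_lit 0xfc254000000000000000000)
  (nat_lit 4) (.ret (nat_lit 67)) s849)) (.ret (nat_lit 0))) s864) (.f1 w4 (nat_lit 0x3fff400000000000000000) (nat_lit 0xfc000800000000000000000) (nat_lit 6) s857 s858)) (.f1 w103 (nat_lit 0xfc254000000000000000000) (nat_lit 0x3dabc00000000000000000) (nat_lit 4) s849 (.ret (nat_lit 67)))) (.v0 (nat_lit 0x20000000000000000) (nat_lit 0x3d0000000000000000) (nat_lit 6) (.f1 w25 (nat_lit 0x3fff400000000000000000)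
  (nat_lit 0xfc000800000000000000000) (nat_lit 6) s857 s858) (.f1 w104 (nat_lit 0xfc254000000000000000000) (nat_lit 0x3dabc00000000000000000) (nat_lit 4) s849 (.ret (nat_lit 67))))) (.v1 w9 (nat_lit 0x10000000000000000) (nat_lit 0x3e0000000000000000) (nat_lit 4) (.v1 w25 (nat_lit 0x10000000000000000) (nat_lit 0x3e0000000000000000) (nat_lit 4) (.v0 (nat_lit 0x3d0000000000000000) (nat_lit 0x20000000000000000)
  (nat_lit 4) (.f1 w110 (nat_lit 0x3fff400000000000000000) (nat_lit 0xfc000800000000000000000) (nat_lit 4) (.v1 w14 (nat_lit 0x3e0000000000000000) (nat_lit 0x10000000000000000) (nat_lit 4) (.f1 w109 (nat_lit 0xfc254000000000000000000) (nat_lit 0x3dabc00000000000000000) (nat_lit 4) s849 (.ret (nat_lit 67))) (.ret (nat_lit 0))) s864) (.ret (nat_lit 0))) (.f1 w108 (nat_lit 0xfc254000000000000000000) (nat_lit 0x3dabc00000000000000000)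
  (nat_lit 4) s849 (.ret (nat_lit 67)))) (.v1 w107 (nat_lit 0x3d0000000000000000) (nat_lit 0x20000000000000000) (nat_lit 4) (.f1 w27 (nat_lit 0x3fff400000000000000000) (nat_lit 0xfc000800000000000000000) (nat_lit 4) (.v1 w9 (nat_lit 0x3e0000000000000000) (nat_lit 0x10000000000000000) (nat_lit 4) (.v1 w4 (nat_lit 0x3e0000000000000000) (nat_lit 0x10000000000000000) (nat_lit 4) (.f1 w105 (nat_lit 0xfc254000000000000000000) (nat_lit 0x3dabc00000000000000000) (nat_lit 4) s849 (.ret (nat_lit 67))) (.ret (nat_lit 0))) (.ret (nat_lit 0))) (.f1 w106 (nat_lit 0xfc254000000000000000000) (nat_lit 0x3dabc00000000000000000) (nat_lit 4) s849 (.ret (nat_lit 67)))) (.ret (nat_lit 0))))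
noncomputable def s903 : FP := .f0 (nat_lit 0xfe000000000000000000000) (nat_lit 0x1fffc00000000000000000) (nat_lit 3) (.ret (nat_lit 67)) (.ret (nat_lit 0))
noncomputable def s907 : FP := .f1 w24 (nat_lit 0xfe000000000000000000000) (nat_lit 0x1fffc00000000000000000) (nat_lit 3) (.ret (nat_lit 67)) (.ret (nat_lit 0))
noncomputable def s910 : FP := .f1 w21 (nat_lit 0xfe023c00000000000000000) (nat_lit 0x1fdc000000000000000000) (nat_lit 2) s440 (.ret (nat_lit 66))
noncomputable def s921 : FP := .f1 w4 (nat_lit 0xfc023c00000000000000000) (nat_lit 0x3fdc000000000000000000) (nat_lit 6) (.f0 (nat_lit 0xfe000000000000000000000) (nat_lit 0x1fffc00000000000000000) (nat_lit 6) (.f0 (nat_lit 0xfd000000000000000000000) (nat_lit 0x2fffc00000000000000000) (nat_lit 6) (.ret (nat_lit 67)) (.ret (nat_lit 70))) (.ret (nat_lit 0))) (.ret (nat_lit 70))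
noncomputable def s930 : FP := .f1 w21 (nat_lit 0xfc254000000000000000000) (nat_lit 0x3dabc00000000000000000) (nat_lit 4) (.ret (nat_lit 67)) (.ret (nat_lit 68))
noncomputable def s939 : FP := .f1 w24 (nat_lit 0xfc254000000000000000000) (nat_lit 0x3dabc00000000000000000) (nat_lit 4) (.ret (nat_lit 67)) s530
noncomputable def s945 : FP := .f1 w21 (nat_lit 0xfc254000000000000000000) (nat_lit 0x3dabc00000000000000000) (nat_lit 6) (.f0 (nat_lit 0xfc088000000000000000000) (nat_lit 0x3f77c00000000000000000) (nat_lit 6) (.f1 w21 (nat_lit 0xfe023c00000000000000000) (nat_lit 0x1fdc000000000000000000) (nat_lit 6) (.f1 w29 (nat_lit 0xfe000000000000000000000) (nat_lit 0x1fffc00000000000000000) (nat_lit 4) (.f0 (nat_lit 0x3fdc000000000000000000)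
  (nat_lit 0xfc023c00000000000000000) (nat_lit 4) s939 (.f0 (nat_lit 0xfd000000000000000000000) (nat_lit 0x2fffc00000000000000000) (nat_lit 4) (.ret (nat_lit 67)) s939)) (.ret (nat_lit 0))) (.f1 w24 (nat_lit 0xfe023c00000000000000000) (nat_lit 0x1fdc000000000000000000) (nat_lit 6) (.f1 w24 (nat_lit 0xfe000000000000000000000) (nat_lit 0x1fffc00000000000000000) (nat_lit 4) (.f0 (nat_lit 0xfc023c00000000000000000)
  (nat_lit 0x3fdc000000000000000000) (nat_lit 4) (.f0 (nat_lit 0xfd000000000000000000000) (nat_lit 0x2fffc00000000000000000) (nat_lit 4) (.ret (nat_lit 67)) s544) s544) (.ret (nat_lit 0))) (.f1 w4 (nat_lit 0xfe023c00000000000000000) (nat_lit 0x1fdc000000000000000000) (nat_lit 6) (.f1 w4 (nat_lit 0xfe000000000000000000000) (nat_lit 0x1fffc00000000000000000) (nat_lit 4) (.f0 (nat_lit 0xfc023c00000000000000000)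
  (nat_lit 0x3fdc000000000000000000) (nat_lit 4) (.f0 (nat_lit 0xfd000000000000000000000) (nat_lit 0x2fffc00000000000000000) (nat_lit 4) (.ret (nat_lit 67)) s930) s930) (.ret (nat_lit 0))) s921))) (.f1 w21 (nat_lit 0xfe023c00000000000000000) (nat_lit 0x1fdc000000000000000000) (nat_lit 6) (.f1 w107 (nat_lit 0xfe000000000000000000000) (nat_lit 0x1fffc00000000000000000) (nat_lit 3) (.ret (nat_lit 67))
  (.ret (nat_lit 0))) (.f1 w24 (nat_lit 0xfe023c00000000000000000) (nat_lit 0x1fdc000000000000000000) (nat_lit 6) s907 (.f1 w4 (nat_lit 0xfe023c00000000000000000) (nat_lit 0x1fdc000000000000000000) (nat_lit 6) (.f0 (nat_lit 0xfc254000000000000000000) (nat_lit 0x3dabc00000000000000000) (nat_lit 4) (.f1 w4 (nat_lit 0xfe000000000000000000000) (nat_lit 0x1fffc00000000000000000) (nat_lit 3) (.ret (nat_lit 67))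
  (.ret (nat_lit 0))) (.f1 w4 (nat_lit 0xfe000000000000000000000) (nat_lit 0x1fffc00000000000000000) (nat_lit 4) (.f0 (nat_lit 0xfd000000000000000000000) (nat_lit 0x2fffc00000000000000000) (nat_lit 4) (.ret (nat_lit 67)) (.ret (nat_lit 68))) (.ret (nat_lit 0)))) s921)))) (.f1 w21 (nat_lit 0xfe023c00000000000000000) (nat_lit 0x1fdc000000000000000000) (nat_lit 6) (.f1 w24 (nat_lit 0x1fdc000000000000000000)
  (nat_lit 0xfe023c00000000000000000) (nat_lit 3) s907 (.f1 w24 (nat_lit 0xfe000000000000000000000) (nat_lit 0x1fffc00000000000000000) (nat_lit 2) (.ret (nat_lit 66)) (.ret (nat_lit 0)))) (.f1 w24 (nat_lit 0xfe023c00000000000000000) (nat_lit 0x1fdc000000000000000000) (nat_lit 6) (.f0 (nat_lit 0xfc254000000000000000000) (nat_lit 0x3dabc00000000000000000) (nat_lit 3) (.f0 (nat_lit 0xfc088000000000000000000)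
  (nat_lit 0x3f77c00000000000000000) (nat_lit 3) (.f1 w24 (nat_lit 0xfc023c00000000000000000) (nat_lit 0x3fdc000000000000000000) (nat_lit 2) (.f0 (nat_lit 0x2fffc00000000000000000) (nat_lit 0xfd000000000000000000000) (nat_lit 2) s910 (.ret (nat_lit 0))) s910) (.f1 w24 (nat_lit 0xfc023c00000000000000000) (nat_lit 0x3fdc000000000000000000) (nat_lit 3) (.f0 (nat_lit 0x2fffc00000000000000000) (nat_lit 0xfd000000000000000000000)
  (nat_lit 3) (.ret (nat_lit 67)) (.ret (nat_lit 0))) (.ret (nat_lit 67)))) s907) (.f1 w4 (nat_lit 0x1fdc000000000000000000) (nat_lit 0xfe023c00000000000000000) (nat_lit 6) (.f1 w4 (nat_lit 0xfc023c00000000000000000) (nat_lit 0x3fdc000000000000000000) (nat_lit 6) s903 (.ret (nat_lit 70))) (.f1 w4 (nat_lit 0xfc023c00000000000000000) (nat_lit 0x3fdc000000000000000000) (nat_lit 3) s903 (.ret (nat_lit 67))))))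
noncomputable def s948 : FP := .f0 (nat_lit 0x3ffc000000000000000000) (nat_lit 0xfc003c00000000000000000) (nat_lit 6) (.f0 (nat_lit 0x3fff400000000000000000) (nat_lit 0xfc000800000000000000000) (nat_lit 6) (.v1 w9 (nat_lit 0x3e0000000000000000) (nat_lit 0x10000000000000000) (nat_lit 6) (.v1 w4 (nat_lit 0x3e0000000000000000) (nat_lit 0x10000000000000000) (nat_lit 6) (.f1 w30 (nat_lit 0xfc254000000000000000000)
  (nat_lit 0x3dabc00000000000000000) (nat_lit 6) (.f0 (nat_lit 0x3f77c00000000000000000) (nat_lit 0xfc088000000000000000000) (nat_lit 6) s494 s551) (.f1 w4 (nat_lit 0xfe023c00000000000000000) (nat_lit 0x1fdc000000000000000000) (nat_lit 6) s451 (.f1 w4 (nat_lit 0xfe023c00000000000000000) (nat_lit 0x1fdc000000000000000000) (nat_lit 6) (.f0 (nat_lit 0xfc254000000000000000000) (nat_lit 0x3dabc00000000000000000)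
  (nat_lit 6) (.ret (nat_lit 67)) (.f1 w18 (nat_lit 0xfe023c00000000000000000) (nat_lit 0x1fdc000000000000000000) (nat_lit 6) (.ret (nat_lit 67)) (.f1 w4 (nat_lit 0xfe023c00000000000000000) (nat_lit 0x1fdc000000000000000000) (nat_lit 6) (.ret (nat_lit 67)) s399))) (.f1 w18 (nat_lit 0xfe023c00000000000000000) (nat_lit 0x1fdc000000000000000000) (nat_lit 6) (.f0 (nat_lit 0xfd000000000000000000000) (nat_lit 0x2fffc00000000000000000)
  (nat_lit 6) s409 (.f1 w4 (nat_lit 0xfe023c00000000000000000) (nat_lit 0x1fdc000000000000000000) (nat_lit 6) (.f1 w4 (nat_lit 0xfe023c00000000000000000) (nat_lit 0x1fdc000000000000000000) (nat_lit 4) s406 (.ret (nat_lit 68))) s404)) (.f1 w4 (nat_lit 0xfe023c00000000000000000) (nat_lit 0x1fdc000000000000000000) (nat_lit 6) (.f0 (nat_lit 0xfc254000000000000000000) (nat_lit 0x3dabc00000000000000000)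
  (nat_lit 6) s399 s396) s395))))) (.ret (nat_lit 0))) (.v0 (nat_lit 0x3d0000000000000000) (nat_lit 0x20000000000000000) (nat_lit 6) s606 (.v1 w1 (nat_lit 0x370000000000000000) (nat_lit 0x80000000000000000) (nat_lit 6) s638 (.f1 w76 (nat_lit 0xfc254000000000000000000) (nat_lit 0x3dabc00000000000000000) (nat_lit 6) s635 s632)))) (.f0 (nat_lit 0x3ffec00000000000000000) (nat_lit 0xfc001000000000000000000)
  (nat_lit 6) (.v1 w9 (nat_lit 0x3e0000000000000000) (nat_lit 0x10000000000000000) (nat_lit 6) s748 (.v0 (nat_lit 0x3d0000000000000000) (nat_lit 0x20000000000000000) (nat_lit 6) s782 (.f1 w22 (nat_lit 0xfd000000000000000000000) (nat_lit 0x2fffc00000000000000000) (nat_lit 6) (.f1 w72 (nat_lit 0xfd000000000000000000000) (nat_lit 0x2fffc00000000000000000) (nat_lit 6) (.f1 w30 (nat_lit 0x3dabc00000000000000000)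
  (nat_lit 0xfc254000000000000000000) (nat_lit 6) (.f1 w4 (nat_lit 0xfe023c00000000000000000) (nat_lit 0x1fdc000000000000000000) (nat_lit 6) s697 s741) s745) s651) (.ret (nat_lit 67))))) s846)) (.f0 (nat_lit 0xfc240000000000000000000) (nat_lit 0x3dbfc00000000000000000) (nat_lit 6) (.f1 w107 (nat_lit 0xfd000000000000000000000) (nat_lit 0x2fffc00000000000000000) (nat_lit 6) s945 (.f1 w60 (nat_lit 0xfc023c00000000000000000)
  (nat_lit 0x3fdc000000000000000000) (nat_lit 2) (.f0 (nat_lit 0xfd000000000000000000000) (nat_lit 0x2fffc00000000000000000) (nat_lit 2) (.ret (nat_lit 0)) (.ret (nat_lit 66))) (.ret (nat_lit 66)))) (.f1 w24 (nat_lit 0x1fdc000000000000000000) (nat_lit 0xfe023c00000000000000000) (nat_lit 6) (.f1 w24 (nat_lit 0x1fdc000000000000000000) (nat_lit 0xfe023c00000000000000000) (nat_lit 6) (.f1 w4 (nat_lit 0x1fdc000000000000000000)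
  (nat_lit 0xfe023c00000000000000000) (nat_lit 6) s886 (.f1 w37 (nat_lit 0xfc254000000000000000000) (nat_lit 0x3dabc00000000000000000) (nat_lit 3) (.ret (nat_lit 67)) (.f1 w24 (nat_lit 0xfc254000000000000000000) (nat_lit 0x3dabc00000000000000000) (nat_lit 3) s402 (.ret (nat_lit 67))))) (.f1 w21 (nat_lit 0xfc254000000000000000000) (nat_lit 0x3dabc00000000000000000) (nat_lit 4) (.f0 (nat_lit 0xfc088000000000000000000)
  (nat_lit 0x3f77c00000000000000000) (nat_lit 4) (.f1 w4 (nat_lit 0xfc254000000000000000000) (nat_lit 0x3dabc00000000000000000) (nat_lit 4) (.ret (nat_lit 67)) (.ret (nat_lit 68))) (.ret (nat_lit 67))) (.f1 w4 (nat_lit 0xfc254000000000000000000) (nat_lit 0x3dabc00000000000000000) (nat_lit 3) s402 (.ret (nat_lit 67))))) (.f1 w4 (nat_lit 0xfc254000000000000000000) (nat_lit 0x3dabc00000000000000000) (nat_lit 4)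
  (.f0 (nat_lit 0xfc088000000000000000000) (nat_lit 0x3f77c00000000000000000) (nat_lit 4) (.f1 w21 (nat_lit 0xfc254000000000000000000) (nat_lit 0x3dabc00000000000000000) (nat_lit 4) (.ret (nat_lit 67)) s530) (.ret (nat_lit 67))) (.f1 w4 (nat_lit 0xfe023c00000000000000000) (nat_lit 0x1fdc000000000000000000) (nat_lit 3) (.f0 (nat_lit 0xfc254000000000000000000) (nat_lit 0x3dabc00000000000000000) (nat_lit 2) s688 (.ret (nat_lit 66))) (.ret (nat_lit 67))))))
noncomputable def s954 : FP := .f1 w4 (nat_lit 0xfe023c00000000000000000) (nat_lit 0x1fdc000000000000000000) (nat_lit 6) (.ret (nat_lit 131)) (.ret (nat_lit 134))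
noncomputable def s957 : FP := .f1 w4 (nat_lit 0xfe023c00000000000000000) (nat_lit 0x1fdc000000000000000000) (nat_lit 4) (.ret (nat_lit 131)) (.ret (nat_lit 132))
noncomputable def s960 : FP := .f0 (nat_lit 0xfc254000000000000000000) (nat_lit 0x3dabc00000000000000000) (nat_lit 3) (.ret (nat_lit 130)) (.ret (nat_lit 131))
noncomputable def s961 : FP := .f1 w4 (nat_lit 0xfe023c00000000000000000) (nat_lit 0x1fdc000000000000000000) (nat_lit 6) s960 (.ret (nat_lit 134))
noncomputable def s962 : FP := .f1 w4 (nat_lit 0xfe023c00000000000000000) (nat_lit 0x1fdc000000000000000000) (nat_lit 6) (.ret (nat_lit 131)) s961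
noncomputable def s964 : FP := .f1 w18 (nat_lit 0xfe023c00000000000000000) (nat_lit 0x1fdc000000000000000000) (nat_lit 6) (.f0 (nat_lit 0xfc254000000000000000000) (nat_lit 0x3dabc00000000000000000) (nat_lit 6) s962 (.f1 w4 (nat_lit 0xfe023c00000000000000000) (nat_lit 0x1fdc000000000000000000) (nat_lit 6) s957 s954)) (.f1 w4 (nat_lit 0xfe023c00000000000000000) (nat_lit 0x1fdc000000000000000000) (nat_lit 6) s954 (.f1 w4 (nat_lit 0xfc254000000000000000000) (nat_lit 0x3dabc00000000000000000) (nat_lit 6) (.ret (nat_lit 131)) (.ret (nat_lit 134))))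
noncomputable def s966 : FP := .f1 w24 (nat_lit 0xfe023c00000000000000000) (nat_lit 0x1fdc000000000000000000) (nat_lit 3) (.ret (nat_lit 130)) (.ret (nat_lit 131))
noncomputable def s970 : FP := .f1 w4 (nat_lit 0xfe023c00000000000000000) (nat_lit 0x1fdc000000000000000000) (nat_lit 3) (.ret (nat_lit 129)) (.ret (nat_lit 131))
noncomputable def s971 : FP := .f1 w4 (nat_lit 0xfe023c00000000000000000) (nat_lit 0x1fdc000000000000000000) (nat_lit 3) s970 (.ret (nat_lit 130))
noncomputable def s975 : FP := .f0 (nat_lit 0xfc254000000000000000000) (nat_lit 0x3dabc00000000000000000) (nat_lit 6) (.f0 (nat_lit 0xfc088000000000000000000) (nat_lit 0x3f77c00000000000000000) (nat_lit 3) (.f1 w18 (nat_lit 0xfe023c00000000000000000) (nat_lit 0x1fdc000000000000000000) (nat_lit 3) (.f0 (nat_lit 0xfc254000000000000000000) (nat_lit 0x3dabc00000000000000000) (nat_lit 3) (.ret (nat_lit 130)) s971) s966) (.ret (nat_lit 131))) (.f1 w18 (nat_lit 0xfe023c00000000000000000) (nat_lit 0x1fdc000000000000000000)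 (nat_lit 6) (.f0 (nat_lit 0xfc254000000000000000000) (nat_lit 0x3dabc00000000000000000) (nat_lit 4) s966 (.f1 w24 (nat_lit 0xfe023c00000000000000000) (nat_lit 0x1fdc000000000000000000) (nat_lit 4) (.ret (nat_lit 130)) (.ret (nat_lit 132)))) s962)
noncomputable def s977 : FP := .f0 (nat_lit 0x2fffc00000000000000000) (nat_lit 0xfd000000000000000000000) (nat_lit 4) (.ret (nat_lit 132)) (.ret (nat_lit 129))
noncomputable def s985 : FP := .f1 w62 (nat_lit 0xfe023c00000000000000000) (nat_lit 0x1fdc000000000000000000) (nat_lit 3) (.ret (nat_lit 130)) (.ret (nat_lit 131))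
noncomputable def s987 : FP := .f1 w4 (nat_lit 0xfe023c00000000000000000) (nat_lit 0x1fdc000000000000000000) (nat_lit 6) (.ret (nat_lit 130)) (.ret (nat_lit 134))
noncomputable def s988 : FP := .f1 w4 (nat_lit 0xfe023c00000000000000000) (nat_lit 0x1fdc000000000000000000) (nat_lit 6) (.ret (nat_lit 131)) s987
noncomputable def s992 : FP := .f0 (nat_lit 0xfc254000000000000000000) (nat_lit 0x3dabc00000000000000000) (nat_lit 2) (.ret (nat_lit 129)) (.ret (nat_lit 130))
noncomputable def s1002 : FP := .f1 w4 (nat_lit 0xfe023c00000000000000000) (nat_lit 0x1fdc000000000000000000) (nat_lit 6) (.f0 (nat_lit 0xfc254000000000000000000) (nat_lit 0x3dabc00000000000000000) (nat_lit 6) (.ret (nat_lit 131)) (.ret (nat_lit 134))) (.ret (nat_lit 134))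
noncomputable def s1005 : FP := .f0 (nat_lit 0xfc254000000000000000000) (nat_lit 0x3dabc00000000000000000) (nat_lit 6) (.ret (nat_lit 132)) (.ret (nat_lit 134))
noncomputable def s1006 : FP := .f1 w24 (nat_lit 0xfe023c00000000000000000) (nat_lit 0x1fdc000000000000000000) (nat_lit 6) s1005 (.ret (nat_lit 134))
noncomputable def s1008 : FP := .f0 (nat_lit 0xfc254000000000000000000) (nat_lit 0x3dabc00000000000000000) (nat_lit 5) (.ret (nat_lit 131)) (.ret (nat_lit 133))
noncomputable def s1010 : FP := .f1 w21 (nat_lit 0xfe023c00000000000000000) (nat_lit 0x1fdc000000000000000000) (nat_lit 6) (.ret (nat_lit 132)) (.ret (nat_lit 134))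
noncomputable def s1014 : FP := .f1 w18 (nat_lit 0xfe023c00000000000000000) (nat_lit 0x1fdc000000000000000000) (nat_lit 6) (.f0 (nat_lit 0xfc254000000000000000000) (nat_lit 0x3dabc00000000000000000) (nat_lit 6) (.f0 (nat_lit 0xfc088000000000000000000) (nat_lit 0x3f77c00000000000000000) (nat_lit 6) (.f1 w24 (nat_lit 0xfe023c00000000000000000) (nat_lit 0x1fdc000000000000000000) (nat_lit 6) (.ret (nat_lit 131)) s1010)
  (.f1 w24 (nat_lit 0xfe023c00000000000000000) (nat_lit 0x1fdc000000000000000000) (nat_lit 6) s1008 (.ret (nat_lit 134)))) s1006) (.f1 w4 (nat_lit 0xfe023c00000000000000000) (nat_lit 0x1fdc000000000000000000) (nat_lit 6) (.f0 (nat_lit 0xfc254000000000000000000) (nat_lit 0x3dabc00000000000000000) (nat_lit 6) s954 s1002) (.f1 w4 (nat_lit 0x2fffc00000000000000000) (nat_lit 0xfd000000000000000000000) (nat_lit 6) (.ret (nat_lit 131)) (.ret (nat_lit 134))))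
noncomputable def s1015 : FP := .f1 w21 (nat_lit 0xfe023c00000000000000000) (nat_lit 0x1fdc000000000000000000) (nat_lit 6) (.ret (nat_lit 131)) (.ret (nat_lit 134))
noncomputable def s1022 : FP := .f1 w24 (nat_lit 0xfe023c00000000000000000) (nat_lit 0x1fdc000000000000000000) (nat_lit 4) (.ret (nat_lit 131)) (.f1 w21 (nat_lit 0xfe023c00000000000000000) (nat_lit 0x1fdc000000000000000000) (nat_lit 4) (.ret (nat_lit 131)) (.ret (nat_lit 132)))
noncomputable def s1025 : FP := .f0 (nat_lit 0xfc254000000000000000000) (nat_lit 0x3dabc00000000000000000) (nat_lit 6) (.f1 w18 (nat_lit 0x1fdc000000000000000000) (nat_lit 0xfe023c00000000000000000) (nat_lit 6) (.f1 w24 (nat_lit 0xfe023c00000000000000000) (nat_lit 0x1fdc000000000000000000) (nat_lit 6) (.ret (nat_lit 131)) s1015) (.f0 (nat_lit 0xfc254000000000000000000) (nat_lit 0x3dabc00000000000000000)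
  (nat_lit 4) (.ret (nat_lit 131)) s1022)) (.f1 w18 (nat_lit 0xfe023c00000000000000000) (nat_lit 0x1fdc000000000000000000) (nat_lit 6) (.f1 w24 (nat_lit 0xfe023c00000000000000000) (nat_lit 0x1fdc000000000000000000) (nat_lit 6) (.ret (nat_lit 131)) (.ret (nat_lit 134))) (.f1 w24 (nat_lit 0xfe023c00000000000000000) (nat_lit 0x1fdc000000000000000000) (nat_lit 6) (.f0 (nat_lit 0xfc254000000000000000000) (nat_lit 0x3dabc00000000000000000) (nat_lit 6) (.ret (nat_lit 131)) s1015) (.ret (nat_lit 134))))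
noncomputable def s1028 : FP := .f1 w62 (nat_lit 0xfe023c00000000000000000) (nat_lit 0x1fdc000000000000000000) (nat_lit 4) (.ret (nat_lit 131)) (.ret (nat_lit 132))
noncomputable def s1031 : FP := .f1 w4 (nat_lit 0xfe023c00000000000000000) (nat_lit 0x1fdc000000000000000000) (nat_lit 5) (.ret (nat_lit 131)) (.ret (nat_lit 133))
noncomputable def s1044 : FP := .f1 w4 (nat_lit 0xfe023c00000000000000000) (nat_lit 0x1fdc000000000000000000) (nat_lit 6) (.ret (nat_lit 132)) (.ret (nat_lit 134))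
noncomputable def s1048 : FP := .f1 w24 (nat_lit 0xfe023c00000000000000000) (nat_lit 0x1fdc000000000000000000) (nat_lit 6) (.f0 (nat_lit 0xfc254000000000000000000) (nat_lit 0x3dabc00000000000000000) (nat_lit 6) (.ret (nat_lit 132)) s1010) (.ret (nat_lit 134))
noncomputable def s1050 : FP := .f1 w24 (nat_lit 0xfe023c00000000000000000) (nat_lit 0x1fdc000000000000000000) (nat_lit 6) (.ret (nat_lit 132)) (.ret (nat_lit 134))
noncomputable def s1055 : FP := .f1 w24 (nat_lit 0xfe023c00000000000000000) (nat_lit 0x1fdc000000000000000000) (nat_lit 6) (.ret (nat_lit 132)) s1010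
noncomputable def s1057 : FP := .f0 (nat_lit 0xfc254000000000000000000) (nat_lit 0x3dabc00000000000000000) (nat_lit 4) (.ret (nat_lit 131)) (.ret (nat_lit 132))
noncomputable def s1058 : FP := .f1 w4 (nat_lit 0xfe023c00000000000000000) (nat_lit 0x1fdc000000000000000000) (nat_lit 4) s1057 (.ret (nat_lit 132))
noncomputable def s1059 : FP := .f1 w111 (nat_lit 0xfc254000000000000000000) (nat_lit 0x3dabc00000000000000000) (nat_lit 4) (.ret (nat_lit 131)) s1058
noncomputable def s1070 : FP := .f1 w62 (nat_lit 0xfe023c00000000000000000) (nat_lit 0x1fdc000000000000000000) (nat_lit 6) (.ret (nat_lit 131)) (.ret (nat_lit 134))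
noncomputable def s1072 : FP := .f1 w65 (nat_lit 0xfe023c00000000000000000) (nat_lit 0x1fdc000000000000000000) (nat_lit 4) s1057 (.ret (nat_lit 132))
noncomputable def s1086 : FP := .f1 w21 (nat_lit 0xfe023c00000000000000000) (nat_lit 0x1fdc000000000000000000) (nat_lit 6) (.f0 (nat_lit 0xfc254000000000000000000) (nat_lit 0x3dabc00000000000000000) (nat_lit 6) (.f0 (nat_lit 0xfc088000000000000000000) (nat_lit 0x3f77c00000000000000000) (nat_lit 6) (.f0 (nat_lit 0xfd000000000000000000000) (nat_lit 0x2fffc00000000000000000) (nat_lit 6) (.f1 w24 (nat_lit 0xfe023c00000000000000000)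
  (nat_lit 0x1fdc000000000000000000) (nat_lit 6) (.f0 (nat_lit 0xfc254000000000000000000) (nat_lit 0x3dabc00000000000000000) (nat_lit 4) (.f0 (nat_lit 0xfd000000000000000000000) (nat_lit 0x2fffc00000000000000000) (nat_lit 4) s1059 (.ret (nat_lit 131))) (.f1 w18 (nat_lit 0xfe023c00000000000000000) (nat_lit 0x1fdc000000000000000000) (nat_lit 4) s1058 (.ret (nat_lit 132)))) (.f1 w63 (nat_lit 0xfe023c00000000000000000)
  (nat_lit 0x1fdc000000000000000000) (nat_lit 6) (.f1 w37 (nat_lit 0xfe023c00000000000000000) (nat_lit 0x1fdc000000000000000000) (nat_lit 4) (.ret (nat_lit 131)) s1058) (.f1 w37 (nat_lit 0xfe023c00000000000000000) (nat_lit 0x1fdc000000000000000000) (nat_lit 6) (.ret (nat_lit 133)) (.f1 w4 (nat_lit 0xfe023c00000000000000000) (nat_lit 0x1fdc000000000000000000) (nat_lit 6) (.ret (nat_lit 133)) (.ret (nat_lit 134))))))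
  (.f1 w24 (nat_lit 0xfe023c00000000000000000) (nat_lit 0x1fdc000000000000000000) (nat_lit 4) (.f0 (nat_lit 0x3dabc00000000000000000) (nat_lit 0xfc254000000000000000000) (nat_lit 4) s1072 (.ret (nat_lit 131))) s1072)) (.f1 w24 (nat_lit 0xfe023c00000000000000000) (nat_lit 0x1fdc000000000000000000) (nat_lit 6) s1057 s1070)) (.f1 w24 (nat_lit 0xfe023c00000000000000000) (nat_lit 0x1fdc000000000000000000)
  (nat_lit 6) (.f0 (nat_lit 0xfd000000000000000000000) (nat_lit 0x2fffc00000000000000000) (nat_lit 4) (.ret (nat_lit 132)) (.ret (nat_lit 131))) (.f1 w18 (nat_lit 0xfe023c00000000000000000) (nat_lit 0x1fdc000000000000000000) (nat_lit 6) (.f0 (nat_lit 0xfc254000000000000000000) (nat_lit 0x3dabc00000000000000000) (nat_lit 6) s1055 s1006) s1048))) (.f1 w24 (nat_lit 0xfe023c00000000000000000) (nat_lit 0x1fdc000000000000000000)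
  (nat_lit 6) (.f0 (nat_lit 0xfc254000000000000000000) (nat_lit 0x3dabc00000000000000000) (nat_lit 6) (.f0 (nat_lit 0xfc088000000000000000000) (nat_lit 0x3f77c00000000000000000) (nat_lit 6) (.f0 (nat_lit 0xfd000000000000000000000) (nat_lit 0x2fffc00000000000000000) (nat_lit 6) (.f1 w63 (nat_lit 0xfe023c00000000000000000) (nat_lit 0x1fdc000000000000000000) (nat_lit 6) (.ret (nat_lit 132)) (.f1 w37 (nat_lit 0xfe023c00000000000000000)
  (nat_lit 0x1fdc000000000000000000) (nat_lit 6) s1058 s1044)) s1059) (.f1 w18 (nat_lit 0x1fdc000000000000000000) (nat_lit 0xfe023c00000000000000000) (nat_lit 6) s1055 (.ret (nat_lit 132)))) (.f1 w18 (nat_lit 0xfe023c00000000000000000) (nat_lit 0x1fdc000000000000000000) (nat_lit 6) (.f0 (nat_lit 0xfc254000000000000000000) (nat_lit 0x3dabc00000000000000000) (nat_lit 6) (.f0 (nat_lit 0xfc088000000000000000000)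
  (nat_lit 0x3f77c00000000000000000) (nat_lit 6) (.f1 w24 (nat_lit 0xfe023c00000000000000000) (nat_lit 0x1fdc000000000000000000) (nat_lit 5) (.ret (nat_lit 132)) (.ret (nat_lit 133))) s1050) s1050) s1048)) (.f1 w18 (nat_lit 0xfe023c00000000000000000) (nat_lit 0x1fdc000000000000000000) (nat_lit 6) s1048 (.f1 w4 (nat_lit 0xfe023c00000000000000000) (nat_lit 0x1fdc000000000000000000) (nat_lit 6) (.f0 (nat_lit 0xfc254000000000000000000) (nat_lit 0x3dabc00000000000000000) (nat_lit 6) s1044 (.f1 w4 (nat_lit 0xfe023c00000000000000000) (nat_lit 0x1fdc000000000000000000) (nat_lit 6) s1005 (.ret (nat_lit 134)))) (.f1 w4 (nat_lit 0x2fffc00000000000000000) (nat_lit 0xfd000000000000000000000) (nat_lit 6) (.ret (nat_lit 132)) (.ret (nat_lit 134))))))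
noncomputable def s1088 : FP := .f1 w112 (nat_lit 0xfc254000000000000000000) (nat_lit 0x3dabc00000000000000000) (nat_lit 6) (.f0 (nat_lit 0x3f77c00000000000000000) (nat_lit 0xfc088000000000000000000) (nat_lit 6) (.f1 w21 (nat_lit 0xfe023c00000000000000000) (nat_lit 0x1fdc000000000000000000) (nat_lit 6) (.f0 (nat_lit 0xfc254000000000000000000) (nat_lit 0x3dabc00000000000000000) (nat_lit 6) (.f0 (nat_lit 0xfc088000000000000000000)
  (nat_lit 0x3f77c00000000000000000) (nat_lit 6) (.f1 w24 (nat_lit 0xfe023c00000000000000000) (nat_lit 0x1fdc000000000000000000) (nat_lit 6) (.ret (nat_lit 131)) (.f1 w18 (nat_lit 0xfe023c00000000000000000) (nat_lit 0x1fdc000000000000000000) (nat_lit 6) s1022 (.f1 w4 (nat_lit 0xfe023c00000000000000000) (nat_lit 0x1fdc000000000000000000) (nat_lit 6) s957 s1002))) (.f1 w24 (nat_lit 0xfe023c00000000000000000)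
  (nat_lit 0x1fdc000000000000000000) (nat_lit 6) (.ret (nat_lit 131)) (.f1 w18 (nat_lit 0xfe023c00000000000000000) (nat_lit 0x1fdc000000000000000000) (nat_lit 6) (.f1 w24 (nat_lit 0xfe023c00000000000000000) (nat_lit 0x1fdc000000000000000000) (nat_lit 5) (.ret (nat_lit 131)) (.ret (nat_lit 133))) (.f1 w4 (nat_lit 0xfe023c00000000000000000) (nat_lit 0x1fdc000000000000000000) (nat_lit 6) s1031 s1002))))
  (.f1 w24 (nat_lit 0xfe023c00000000000000000) (nat_lit 0x1fdc000000000000000000) (nat_lit 6) (.f0 (nat_lit 0xfc254000000000000000000) (nat_lit 0x3dabc00000000000000000) (nat_lit 4) (.ret (nat_lit 131)) s1028) (.f1 w62 (nat_lit 0xfe023c00000000000000000) (nat_lit 0x1fdc000000000000000000) (nat_lit 6) s1005 (.ret (nat_lit 134))))) (.f1 w24 (nat_lit 0xfe023c00000000000000000) (nat_lit 0x1fdc000000000000000000)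
  (nat_lit 6) s1025 s1014)) s1086) (.f1 w21 (nat_lit 0xfe023c00000000000000000) (nat_lit 0x1fdc000000000000000000) (nat_lit 6) (.f0 (nat_lit 0xfc254000000000000000000) (nat_lit 0x3dabc00000000000000000) (nat_lit 6) (.f0 (nat_lit 0xfc088000000000000000000) (nat_lit 0x3f77c00000000000000000) (nat_lit 6) (.f1 w24 (nat_lit 0xfe023c00000000000000000) (nat_lit 0x1fdc000000000000000000) (nat_lit 6) (.f1 w18
  (nat_lit 0xfe023c00000000000000000) (nat_lit 0x1fdc000000000000000000) (nat_lit 2) (.f0 (nat_lit 0xfc254000000000000000000) (nat_lit 0x3dabc00000000000000000) (nat_lit 2) (.f1 w4 (nat_lit 0xfe023c00000000000000000) (nat_lit 0x1fdc000000000000000000) (nat_lit 2) s992 (.ret (nat_lit 130))) (.ret (nat_lit 130))) (.ret (nat_lit 130))) (.f1 w18 (nat_lit 0xfe023c00000000000000000) (nat_lit 0x1fdc000000000000000000)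
  (nat_lit 6) (.ret (nat_lit 131)) s988)) (.f1 w24 (nat_lit 0xfe023c00000000000000000) (nat_lit 0x1fdc000000000000000000) (nat_lit 6) s960 (.f1 w18 (nat_lit 0xfe023c00000000000000000) (nat_lit 0x1fdc000000000000000000) (nat_lit 6) (.ret (nat_lit 130)) s988))) (.f1 w24 (nat_lit 0xfe023c00000000000000000) (nat_lit 0x1fdc000000000000000000) (nat_lit 6) s985 (.f1 w18 (nat_lit 0xfe023c00000000000000000)
  (nat_lit 0x1fdc000000000000000000) (nat_lit 6) (.f0 (nat_lit 0xfc254000000000000000000) (nat_lit 0x3dabc00000000000000000) (nat_lit 3) (.f0 (nat_lit 0xfc088000000000000000000) (nat_lit 0x3f77c00000000000000000) (nat_lit 3) (.f0 (nat_lit 0x2fffc00000000000000000) (nat_lit 0xfd000000000000000000000) (nat_lit 3) (.ret (nat_lit 130)) s971) (.ret (nat_lit 131))) (.ret (nat_lit 131))) (.f1 w4 (nat_lit 0xfe023c00000000000000000)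
  (nat_lit 0x1fdc000000000000000000) (nat_lit 6) s957 (.f1 w4 (nat_lit 0xfe023c00000000000000000) (nat_lit 0x1fdc000000000000000000) (nat_lit 6) (.f0 (nat_lit 0xfc254000000000000000000) (nat_lit 0x3dabc00000000000000000) (nat_lit 4) s977 (.ret (nat_lit 131))) (.ret (nat_lit 134))))))) (.f1 w24 (nat_lit 0xfe023c00000000000000000) (nat_lit 0x1fdc000000000000000000) (nat_lit 6) s975 s964))
noncomputable def s1095 : FP := .f1 w22 (nat_lit 0xfc254000000000000000000) (nat_lit 0x3dabc00000000000000000) (nat_lit 6) (.ret (nat_lit 147)) (.ret (nat_lit 150))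
noncomputable def s1099 : FP := .f1 w44 (nat_lit 0xfc254000000000000000000) (nat_lit 0x3dabc00000000000000000) (nat_lit 6) (.ret (nat_lit 147)) (.ret (nat_lit 150))
noncomputable def s1102 : FP := .f1 w18 (nat_lit 0xfe023c00000000000000000) (nat_lit 0x1fdc000000000000000000) (nat_lit 6) (.ret (nat_lit 148)) (.ret (nat_lit 150))
noncomputable def s1119 : FP := .f0 (nat_lit 0xfc000800000000000000000) (nat_lit 0x3fff400000000000000000) (nat_lit 6) (.f0 (nat_lit 0x3ffec00000000000000000) (nat_lit 0xfc001000000000000000000) (nat_lit 6) (.f1 w68 (nat_lit 0x3dabc00000000000000000) (nat_lit 0xfc254000000000000000000) (nat_lit 6) (.f1 w21 (nat_lit 0x1fdc000000000000000000) (nat_lit 0xfe023c00000000000000000) (nat_lit 6) (.f1 w44 (nat_lit 0xfe023c00000000000000000)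
  (nat_lit 0x1fdc000000000000000000) (nat_lit 6) (.f0 (nat_lit 0xfc254000000000000000000) (nat_lit 0x3dabc00000000000000000) (nat_lit 6) (.f1 w67 (nat_lit 0x1fdc000000000000000000) (nat_lit 0xfe023c00000000000000000) (nat_lit 6) (.ret (nat_lit 150)) (.ret (nat_lit 147))) (.ret (nat_lit 150))) (.ret (nat_lit 150))) (.f1 w44 (nat_lit 0xfe023c00000000000000000) (nat_lit 0x1fdc000000000000000000) (nat_lit 6)
  (.f1 w22 (nat_lit 0xfe023c00000000000000000) (nat_lit 0x1fdc000000000000000000) (nat_lit 6) (.ret (nat_lit 147)) s1095) (.ret (nat_lit 150)))) (.f1 w21 (nat_lit 0x1fdc000000000000000000) (nat_lit 0xfe023c00000000000000000) (nat_lit 6) (.ret (nat_lit 150)) (.f1 w44 (nat_lit 0x1fdc000000000000000000) (nat_lit 0xfe023c00000000000000000) (nat_lit 6) (.ret (nat_lit 150)) (.f1 w113 (nat_lit 0xfc254000000000000000000)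
  (nat_lit 0x3dabc00000000000000000) (nat_lit 6) (.ret (nat_lit 148)) (.ret (nat_lit 150)))))) (.ret (nat_lit 0))) (.f1 w98 (nat_lit 0xfc254000000000000000000) (nat_lit 0x3dabc00000000000000000) (nat_lit 6) (.f1 w10 (nat_lit 0xfc254000000000000000000) (nat_lit 0x3dabc00000000000000000) (nat_lit 6) (.f0 (nat_lit 0xfd000000000000000000000) (nat_lit 0x2fffc00000000000000000) (nat_lit 6) (.f1 w22 (nat_lit 0xfc254000000000000000000)
  (nat_lit 0x3dabc00000000000000000) (nat_lit 6) s1102 (.ret (nat_lit 150))) (.f1 w22 (nat_lit 0xfc254000000000000000000) (nat_lit 0x3dabc00000000000000000) (nat_lit 6) (.ret (nat_lit 148)) s1102)) (.ret (nat_lit 150))) (.f1 w21 (nat_lit 0xfe023c00000000000000000) (nat_lit 0x1fdc000000000000000000) (nat_lit 6) s1099 (.f1 w44 (nat_lit 0xfc254000000000000000000) (nat_lit 0x3dabc00000000000000000) (nat_lit 6)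
  (.f0 (nat_lit 0xfc088000000000000000000) (nat_lit 0x3f77c00000000000000000) (nat_lit 6) (.f0 (nat_lit 0xfd000000000000000000000) (nat_lit 0x2fffc00000000000000000) (nat_lit 6) (.ret (nat_lit 147)) s1095) (.f1 w18 (nat_lit 0x1fdc000000000000000000) (nat_lit 0xfe023c00000000000000000) (nat_lit 6) (.f1 w4 (nat_lit 0xfe023c00000000000000000) (nat_lit 0x1fdc000000000000000000) (nat_lit 6) (.ret (nat_lit 147)) (.f1 w10 (nat_lit 0xfc254000000000000000000) (nat_lit 0x3dabc00000000000000000) (nat_lit 6) (.ret (nat_lit 147)) (.ret (nat_lit 150)))) (.ret (nat_lit 147)))) (.ret (nat_lit 150)))))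
noncomputable def s1120 : FP := .f1 w62 (nat_lit 0x1fdc000000000000000000) (nat_lit 0xfe023c00000000000000000) (nat_lit 6) (.ret (nat_lit 150)) (.ret (nat_lit 147))
noncomputable def s1121 : FP := .f1 w24 (nat_lit 0xfe023c00000000000000000) (nat_lit 0x1fdc000000000000000000) (nat_lit 6) (.ret (nat_lit 147)) (.ret (nat_lit 150))
noncomputable def s1122 : FP := .f1 w18 (nat_lit 0xfd000000000000000000000) (nat_lit 0x2fffc00000000000000000) (nat_lit 6) (.ret (nat_lit 147)) s1121
noncomputable def s1135 : FP := .f1 w62 (nat_lit 0xfe023c00000000000000000) (nat_lit 0x1fdc000000000000000000) (nat_lit 6) s960 (.ret (nat_lit 134))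
noncomputable def s1140 : FP := .f0 (nat_lit 0xfc088000000000000000000) (nat_lit 0x3f77c00000000000000000) (nat_lit 3) (.ret (nat_lit 130)) (.ret (nat_lit 131))
noncomputable def s1149 : FP := .f1 w63 (nat_lit 0xfe023c00000000000000000) (nat_lit 0x1fdc000000000000000000) (nat_lit 6) (.ret (nat_lit 132)) (.ret (nat_lit 134))
noncomputable def s1166 : FP := .f1 w18 (nat_lit 0xfe023c00000000000000000) (nat_lit 0x1fdc000000000000000000) (nat_lit 6) (.ret (nat_lit 131)) (.ret (nat_lit 134))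
noncomputable def s1168 : FP := .f1 w4 (nat_lit 0xfe023c00000000000000000) (nat_lit 0x1fdc000000000000000000) (nat_lit 6) (.ret (nat_lit 129)) (.f1 w63 (nat_lit 0x1fdc000000000000000000) (nat_lit 0xfe023c00000000000000000) (nat_lit 6) s1166 (.ret (nat_lit 130)))
noncomputable def s1174 : FP := .f0 (nat_lit 0x3f77c00000000000000000) (nat_lit 0xfc088000000000000000000) (nat_lit 6) (.f1 w4 (nat_lit 0xfe023c00000000000000000) (nat_lit 0x1fdc000000000000000000) (nat_lit 6) (.ret (nat_lit 131)) (.f1 w63 (nat_lit 0x1fdc000000000000000000) (nat_lit 0xfe023c00000000000000000) (nat_lit 6) s1166 (.ret (nat_lit 131)))) (.f1 w4 (nat_lit 0xfe023c00000000000000000) (nat_lit 0x1fdc000000000000000000) (nat_lit 6) (.ret (nat_lit 132)) (.f1 w63 (nat_lit 0x1fdc000000000000000000) (nat_lit 0xfe023c00000000000000000) (nat_lit 6) (.f1 w18 (nat_lit 0xfe023c00000000000000000) (nat_lit 0x1fdc000000000000000000) (nat_lit 6) (.ret (nat_lit 132)) (.ret (nat_lit 134))) (.ret (nat_lit 132))))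
noncomputable def s1177 : FP := .f1 w1 (nat_lit 0xfc000400000000000000000) (nat_lit 0x3fff800000000000000000) (nat_lit 6) (.f1 w75 (nat_lit 0x3fff800000000000000000) (nat_lit 0xfc000400000000000000000) (nat_lit 6) (.f1 w22 (nat_lit 0xfc254000000000000000000) (nat_lit 0x3dabc00000000000000000) (nat_lit 6) (.f0 (nat_lit 0x3f77c00000000000000000) (nat_lit 0xfc088000000000000000000) (nat_lit 6) (.f1 w21
  (nat_lit 0xfe023c00000000000000000) (nat_lit 0x1fdc000000000000000000) (nat_lit 6) (.f0 (nat_lit 0xfc254000000000000000000) (nat_lit 0x3dabc00000000000000000) (nat_lit 4) (.ret (nat_lit 131)) (.f1 w24 (nat_lit 0xfc254000000000000000000) (nat_lit 0x3dabc00000000000000000) (nat_lit 4) (.ret (nat_lit 131)) s1028)) (.f1 w24 (nat_lit 0xfc254000000000000000000) (nat_lit 0x3dabc00000000000000000) (nat_lit 6)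
  (.f1 w63 (nat_lit 0xfe023c00000000000000000) (nat_lit 0x1fdc000000000000000000) (nat_lit 6) (.ret (nat_lit 131)) s1015) (.ret (nat_lit 134)))) (.f1 w21 (nat_lit 0xfe023c00000000000000000) (nat_lit 0x1fdc000000000000000000) (nat_lit 6) (.ret (nat_lit 132)) (.f1 w24 (nat_lit 0xfc254000000000000000000) (nat_lit 0x3dabc00000000000000000) (nat_lit 6) (.f1 w63 (nat_lit 0x1fdc000000000000000000) (nat_lit 0xfe023c00000000000000000)
  (nat_lit 6) s1010 (.ret (nat_lit 132))) (.ret (nat_lit 134))))) (.f1 w21 (nat_lit 0xfe023c00000000000000000) (nat_lit 0x1fdc000000000000000000) (nat_lit 6) (.ret (nat_lit 131)) (.f1 w24 (nat_lit 0xfc254000000000000000000) (nat_lit 0x3dabc00000000000000000) (nat_lit 6) (.ret (nat_lit 131)) s1135))) (.f1 w22 (nat_lit 0xfc254000000000000000000) (nat_lit 0x3dabc00000000000000000) (nat_lit 6) s1174 s1168))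
  (.f1 w114 (nat_lit 0xfc254000000000000000000) (nat_lit 0x3dabc00000000000000000) (nat_lit 6) (.f0 (nat_lit 0x3f77c00000000000000000) (nat_lit 0xfc088000000000000000000) (nat_lit 6) (.f1 w21 (nat_lit 0xfe023c00000000000000000) (nat_lit 0x1fdc000000000000000000) (nat_lit 6) (.f0 (nat_lit 0xfc254000000000000000000) (nat_lit 0x3dabc00000000000000000) (nat_lit 4) (.ret (nat_lit 131)) (.f1 w24 (nat_lit 0xfe023c00000000000000000)
  (nat_lit 0x1fdc000000000000000000) (nat_lit 4) (.ret (nat_lit 131)) (.ret (nat_lit 132)))) (.f1 w24 (nat_lit 0xfe023c00000000000000000) (nat_lit 0x1fdc000000000000000000) (nat_lit 6) s1070 (.ret (nat_lit 134)))) (.f1 w21 (nat_lit 0xfe023c00000000000000000) (nat_lit 0x1fdc000000000000000000) (nat_lit 6) (.f1 w24 (nat_lit 0xfe023c00000000000000000) (nat_lit 0x1fdc000000000000000000) (nat_lit 6) (.ret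
  (nat_lit 131)) s1149) (.f1 w24 (nat_lit 0xfe023c00000000000000000) (nat_lit 0x1fdc000000000000000000) (nat_lit 6) (.f1 w63 (nat_lit 0xfe023c00000000000000000) (nat_lit 0x1fdc000000000000000000) (nat_lit 6) (.ret (nat_lit 130)) (.ret (nat_lit 134))) (.ret (nat_lit 134))))) (.f1 w21 (nat_lit 0xfe023c00000000000000000) (nat_lit 0x1fdc000000000000000000) (nat_lit 6) (.f0 (nat_lit 0xfc254000000000000000000)
  (nat_lit 0x3dabc00000000000000000) (nat_lit 4) s1140 (.f1 w24 (nat_lit 0xfe023c00000000000000000) (nat_lit 0x1fdc000000000000000000) (nat_lit 4) s960 (.f1 w62 (nat_lit 0xfc254000000000000000000) (nat_lit 0x3dabc00000000000000000) (nat_lit 4) s977 (.ret (nat_lit 131))))) (.f1 w24 (nat_lit 0xfe023c00000000000000000) (nat_lit 0x1fdc000000000000000000) (nat_lit 6) (.f0 (nat_lit 0xfc254000000000000000000) (nat_lit 0x3dabc00000000000000000) (nat_lit 6) (.ret (nat_lit 131)) s1135) (.ret (nat_lit 134)))))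
noncomputable def s1184 : FP := .f1 w117 (nat_lit 0xfc254000000000000000000) (nat_lit 0x3dabc00000000000000000) (nat_lit 3) (.ret (nat_lit 131)) (.f1 w30 (nat_lit 0x3dabc00000000000000000) (nat_lit 0xfc254000000000000000000) (nat_lit 2) (.ret (nat_lit 129)) (.ret (nat_lit 130)))
noncomputable def s1185 : FP := .f0 (nat_lit 0xfd000000000000000000000) (nat_lit 0x2fffc00000000000000000) (nat_lit 3) s1140 (.ret (nat_lit 0))
noncomputable def s1192 : FP := .f0 (nat_lit 0xfd000000000000000000000) (nat_lit 0x2fffc00000000000000000) (nat_lit 1) (.ret (nat_lit 129)) (.ret (nat_lit 0))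
noncomputable def s1193 : FP := .f0 (nat_lit 0xfc254000000000000000000) (nat_lit 0x3dabc00000000000000000) (nat_lit 3) s1192 (.ret (nat_lit 131))
noncomputable def s1198 : FP := .f1 w25 (nat_lit 0x1fdc000000000000000000) (nat_lit 0xfe023c00000000000000000) (nat_lit 3) (.ret (nat_lit 131)) (.ret (nat_lit 130))
noncomputable def s1200 : FP := .f1 w18 (nat_lit 0xfe023c00000000000000000) (nat_lit 0x1fdc000000000000000000) (nat_lit 6) (.f0 (nat_lit 0x3dabc00000000000000000) (nat_lit 0xfc254000000000000000000) (nat_lit 3) (.f1 w4 (nat_lit 0xfe023c00000000000000000) (nat_lit 0x1fdc000000000000000000) (nat_lit 3) (.f1 w24 (nat_lit 0xfe023c00000000000000000) (nat_lit 0x1fdc000000000000000000) (nat_lit 3) (.ret (nat_lit 129))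
  (.ret (nat_lit 131))) (.f1 w4 (nat_lit 0xfe023c00000000000000000) (nat_lit 0x1fdc000000000000000000) (nat_lit 3) s970 (.f1 w4 (nat_lit 0xfe023c00000000000000000) (nat_lit 0x1fdc000000000000000000) (nat_lit 3) s1193 (.ret (nat_lit 131))))) s1198) (.f1 w4 (nat_lit 0xfe023c00000000000000000) (nat_lit 0x1fdc000000000000000000) (nat_lit 6) (.f0 (nat_lit 0xfc254000000000000000000) (nat_lit 0x3dabc00000000000000000)
  (nat_lit 3) (.f0 (nat_lit 0xfc088000000000000000000) (nat_lit 0x3f77c00000000000000000) (nat_lit 3) (.ret (nat_lit 130)) s966) (.f1 w24 (nat_lit 0x1fdc000000000000000000) (nat_lit 0xfe023c00000000000000000) (nat_lit 3) (.ret (nat_lit 131)) s1140)) (.f1 w4 (nat_lit 0x1fdc000000000000000000) (nat_lit 0xfe023c00000000000000000) (nat_lit 6) s961 (.f1 w4 (nat_lit 0x1fdc000000000000000000) (nat_lit 0xfe023c00000000000000000) (nat_lit 3) (.ret (nat_lit 131)) s1185)))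
noncomputable def s1201 : FP := .f1 w79 (nat_lit 0x1fdc000000000000000000) (nat_lit 0xfe023c00000000000000000) (nat_lit 3) (.ret (nat_lit 131)) s992
noncomputable def s1209 : FP := .f0 (nat_lit 0xfc254000000000000000000) (nat_lit 0x3dabc00000000000000000) (nat_lit 1) (.ret (nat_lit 0)) (.ret (nat_lit 129))
noncomputable def s1212 : FP := .f1 w4 (nat_lit 0xfe023c00000000000000000) (nat_lit 0x1fdc000000000000000000) (nat_lit 3) s1209 (.ret (nat_lit 131))
noncomputable def s1213 : FP := .f1 w4 (nat_lit 0xfe023c00000000000000000) (nat_lit 0x1fdc000000000000000000) (nat_lit 1) s1209 (.ret (nat_lit 129))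
noncomputable def s1220 : FP := .f1 w4 (nat_lit 0x1fdc000000000000000000) (nat_lit 0xfe023c00000000000000000) (nat_lit 1) (.ret (nat_lit 129)) (.ret (nat_lit 0))
noncomputable def s1222 : FP := .f0 (nat_lit 0x3dabc00000000000000000) (nat_lit 0xfc254000000000000000000) (nat_lit 1) s1220 (.f0 (nat_lit 0x3f77c00000000000000000) (nat_lit 0xfc088000000000000000000) (nat_lit 1) s1220 (.ret (nat_lit 0)))
noncomputable def s1227 : FP := .f0 (nat_lit 0x3dabc00000000000000000) (nat_lit 0xfc254000000000000000000) (nat_lit 3) (.f1 w24 (nat_lit 0x1fdc000000000000000000) (nat_lit 0xfe023c00000000000000000) (nat_lit 3) (.f1 w18 (nat_lit 0xfe023c00000000000000000) (nat_lit 0x1fdc000000000000000000) (nat_lit 3) (.f0 (nat_lit 0x3dabc00000000000000000) (nat_lit 0xfc254000000000000000000) (nat_lit 3) (.f1 w4 (nat_lit 0xfe023c00000000000000000)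
  (nat_lit 0x1fdc000000000000000000) (nat_lit 3) (.ret (nat_lit 129)) (.f1 w4 (nat_lit 0xfe023c00000000000000000) (nat_lit 0x1fdc000000000000000000) (nat_lit 3) (.ret (nat_lit 129)) s970)) (.ret (nat_lit 130))) s1198) (.f1 w79 (nat_lit 0x1fdc000000000000000000) (nat_lit 0xfe023c00000000000000000) (nat_lit 2) (.ret (nat_lit 130)) (.ret (nat_lit 129)))) (.f0 (nat_lit 0x3f77c00000000000000000) (nat_lit 0xfc088000000000000000000)
  (nat_lit 3) (.f1 w24 (nat_lit 0x1fdc000000000000000000) (nat_lit 0xfe023c00000000000000000) (nat_lit 3) (.f1 w18 (nat_lit 0xfe023c00000000000000000) (nat_lit 0x1fdc000000000000000000) (nat_lit 3) (.f0 (nat_lit 0x3dabc00000000000000000) (nat_lit 0xfc254000000000000000000) (nat_lit 3) (.f1 w4 (nat_lit 0xfe023c00000000000000000) (nat_lit 0x1fdc000000000000000000) (nat_lit 3) (.ret (nat_lit 129)) (.f1 w4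
  (nat_lit 0x1fdc000000000000000000) (nat_lit 0xfe023c00000000000000000) (nat_lit 3) s1212 s1213)) (.ret (nat_lit 129))) (.f1 w4 (nat_lit 0xfc254000000000000000000) (nat_lit 0x3dabc00000000000000000) (nat_lit 3) (.ret (nat_lit 129)) (.f1 w24 (nat_lit 0x1fdc000000000000000000) (nat_lit 0xfe023c00000000000000000) (nat_lit 3) (.ret (nat_lit 131)) s1209))) (.ret (nat_lit 129))) (.f1 w7 (nat_lit 0xfc254000000000000000000)
  (nat_lit 0x3dabc00000000000000000) (nat_lit 2) (.ret (nat_lit 130)) (.f1 w4 (nat_lit 0xfe023c00000000000000000) (nat_lit 0x1fdc000000000000000000) (nat_lit 2) (.ret (nat_lit 129)) (.f1 w4 (nat_lit 0x1fdc000000000000000000) (nat_lit 0xfe023c00000000000000000) (nat_lit 2) (.f1 w4 (nat_lit 0x1fdc000000000000000000) (nat_lit 0xfe023c00000000000000000) (nat_lit 2) (.ret (nat_lit 130)) (.ret (nat_lit 0))) s1222))))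
noncomputable def s1228 : FP := .f1 w21 (nat_lit 0xfe023c00000000000000000) (nat_lit 0x1fdc000000000000000000) (nat_lit 6) s1227 (.f1 w24 (nat_lit 0x1fdc000000000000000000) (nat_lit 0xfe023c00000000000000000) (nat_lit 6) s1200 s1201)
noncomputable def s1229 : FP := .f1 w79 (nat_lit 0xfe023c00000000000000000) (nat_lit 0x1fdc000000000000000000) (nat_lit 6) (.ret (nat_lit 131)) (.ret (nat_lit 134))
noncomputable def s1236 : FP := .f1 w21 (nat_lit 0xfe023c00000000000000000) (nat_lit 0x1fdc000000000000000000) (nat_lit 6) (.f0 (nat_lit 0xfc254000000000000000000) (nat_lit 0x3dabc00000000000000000) (nat_lit 5) (.ret (nat_lit 131)) (.f1 w24 (nat_lit 0x1fdc000000000000000000) (nat_lit 0xfe023c00000000000000000) (nat_lit 5) (.f1 w18 (nat_lit 0xfe023c00000000000000000) (nat_lit 0x1fdc000000000000000000)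
  (nat_lit 5) (.ret (nat_lit 131)) (.f1 w4 (nat_lit 0xfe023c00000000000000000) (nat_lit 0x1fdc000000000000000000) (nat_lit 5) (.ret (nat_lit 131)) (.f1 w4 (nat_lit 0xfe023c00000000000000000) (nat_lit 0x1fdc000000000000000000) (nat_lit 5) (.ret (nat_lit 131)) s1031))) (.ret (nat_lit 131)))) (.f1 w24 (nat_lit 0x1fdc000000000000000000) (nat_lit 0xfe023c00000000000000000) (nat_lit 6) s1229 (.ret (nat_lit 131)))
noncomputable def s1237 : FP := .f1 w80 (nat_lit 0xfc254000000000000000000) (nat_lit 0x3dabc00000000000000000) (nat_lit 4) s1185 (.ret (nat_lit 132))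
noncomputable def s1239 : FP := .f1 w25 (nat_lit 0x1fdc000000000000000000) (nat_lit 0xfe023c00000000000000000) (nat_lit 5) (.ret (nat_lit 133)) (.ret (nat_lit 132))
noncomputable def s1243 : FP := .f0 (nat_lit 0xfc254000000000000000000) (nat_lit 0x3dabc00000000000000000) (nat_lit 5) (.ret (nat_lit 131)) (.f1 w24 (nat_lit 0x1fdc000000000000000000) (nat_lit 0xfe023c00000000000000000) (nat_lit 5) (.f1 w18 (nat_lit 0xfe023c00000000000000000) (nat_lit 0x1fdc000000000000000000) (nat_lit 5) (.f0 (nat_lit 0xfc254000000000000000000) (nat_lit 0x3dabc00000000000000000) (nat_lit 5) (.ret (nat_lit 132)) s1239) s1239) s1237)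
noncomputable def s1245 : FP := .f0 (nat_lit 0xfc088000000000000000000) (nat_lit 0x3f77c00000000000000000) (nat_lit 6) (.f1 w21 (nat_lit 0xfe023c00000000000000000) (nat_lit 0x1fdc000000000000000000) (nat_lit 6) s1243 (.f1 w24 (nat_lit 0x1fdc000000000000000000) (nat_lit 0xfe023c00000000000000000) (nat_lit 6) s1149 s1237)) s1236
noncomputable def s1251 : FP := .f1 w24 (nat_lit 0xfe023c00000000000000000) (nat_lit 0x1fdc000000000000000000) (nat_lit 6) (.ret (nat_lit 163)) (.ret (nat_lit 166))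
noncomputable def s1263 : FP := .f1 w121 (nat_lit 0xfe023c00000000000000000) (nat_lit 0x1fdc000000000000000000) (nat_lit 6) (.ret (nat_lit 163)) (.ret (nat_lit 166))
noncomputable def s1281 : FP := .f0 (nat_lit 0xfc000800000000000000000) (nat_lit 0x3fff400000000000000000) (nat_lit 6) (.f0 (nat_lit 0x3ffec00000000000000000) (nat_lit 0xfc001000000000000000000) (nat_lit 6) (.f1 w68 (nat_lit 0x3dabc00000000000000000) (nat_lit 0xfc254000000000000000000) (nat_lit 6) (.f1 w4 (nat_lit 0xfe023c00000000000000000) (nat_lit 0x1fdc000000000000000000) (nat_lit 6) (.f1 w18 (nat_lit 0xfe023c00000000000000000)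
  (nat_lit 0x1fdc000000000000000000) (nat_lit 6) (.ret (nat_lit 163)) (.f1 w25 (nat_lit 0xfe023c00000000000000000) (nat_lit 0x1fdc000000000000000000) (nat_lit 6) (.ret (nat_lit 163)) (.f1 w18 (nat_lit 0xfe023c00000000000000000) (nat_lit 0x1fdc000000000000000000) (nat_lit 6) (.ret (nat_lit 163)) (.f1 w24 (nat_lit 0xfc254000000000000000000) (nat_lit 0x3dabc00000000000000000) (nat_lit 6) (.ret (nat_lit 163))
  (.ret (nat_lit 166)))))) s1263) (.f0 (nat_lit 0x3f77c00000000000000000) (nat_lit 0xfc088000000000000000000) (nat_lit 6) (.f1 w4 (nat_lit 0xfe023c00000000000000000) (nat_lit 0x1fdc000000000000000000) (nat_lit 6) (.f1 w79 (nat_lit 0x1fdc000000000000000000) (nat_lit 0xfe023c00000000000000000) (nat_lit 6) (.f1 w18 (nat_lit 0x1fdc000000000000000000) (nat_lit 0xfe023c00000000000000000) (nat_lit 6) (.ret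
  (nat_lit 166)) (.ret (nat_lit 163))) (.ret (nat_lit 163))) s1263) (.f1 w4 (nat_lit 0xfe023c00000000000000000) (nat_lit 0x1fdc000000000000000000) (nat_lit 6) (.f1 w18 (nat_lit 0xfe023c00000000000000000) (nat_lit 0x1fdc000000000000000000) (nat_lit 6) (.ret (nat_lit 164)) (.f1 w25 (nat_lit 0x1fdc000000000000000000) (nat_lit 0xfe023c00000000000000000) (nat_lit 6) (.f1 w18 (nat_lit 0xfe023c00000000000000000)
  (nat_lit 0x1fdc000000000000000000) (nat_lit 6) (.ret (nat_lit 164)) (.f1 w24 (nat_lit 0x2fffc00000000000000000) (nat_lit 0xfd000000000000000000000) (nat_lit 6) (.ret (nat_lit 164)) (.ret (nat_lit 166)))) (.ret (nat_lit 164)))) (.f1 w121 (nat_lit 0xfe023c00000000000000000) (nat_lit 0x1fdc000000000000000000) (nat_lit 6) (.ret (nat_lit 164)) (.ret (nat_lit 166)))))) (.ret (nat_lit 0))) (.f1 w11 (nat_lit 0xfc254000000000000000000)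
  (nat_lit 0x3dabc00000000000000000) (nat_lit 6) (.f0 (nat_lit 0x3f77c00000000000000000) (nat_lit 0xfc088000000000000000000) (nat_lit 6) (.f1 w4 (nat_lit 0xfc254000000000000000000) (nat_lit 0x3dabc00000000000000000) (nat_lit 6) (.f1 w79 (nat_lit 0xfc254000000000000000000) (nat_lit 0x3dabc00000000000000000) (nat_lit 6) (.ret (nat_lit 163)) (.f1 w18 (nat_lit 0xfe023c00000000000000000) (nat_lit 0x1fdc000000000000000000)
  (nat_lit 6) (.ret (nat_lit 163)) (.f1 w120 (nat_lit 0xfe023c00000000000000000) (nat_lit 0x1fdc000000000000000000) (nat_lit 6) (.ret (nat_lit 163)) (.ret (nat_lit 166))))) (.ret (nat_lit 163))) (.f1 w4 (nat_lit 0x1fdc000000000000000000) (nat_lit 0xfe023c00000000000000000) (nat_lit 6) (.f1 w79 (nat_lit 0xfc254000000000000000000) (nat_lit 0x3dabc00000000000000000) (nat_lit 6) (.ret (nat_lit 163)) (.f1 w18 (nat_lit 0x1fdc000000000000000000) (nat_lit 0xfe023c00000000000000000) (nat_lit 6) (.ret (nat_lit 166)) (.ret (nat_lit 164)))) (.ret (nat_lit 163))))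 (.f1 w21 (nat_lit 0xfe023c00000000000000000) (nat_lit 0x1fdc000000000000000000) (nat_lit 6) (.ret (nat_lit 163)) s1251))
noncomputable def s1310 : FP := .v1 w9 (nat_lit 0x3e0000000000000000) (nat_lit 0x10000000000000000) (nat_lit 6) (.v1 w4 (nat_lit 0x3e0000000000000000) (nat_lit 0x10000000000000000) (nat_lit 6) (.f1 w7 (nat_lit 0xfd000000000000000000000) (nat_lit 0x2fffc00000000000000000) (nat_lit 6) (.f1 w119 (nat_lit 0xfd000000000000000000000) (nat_lit 0x2fffc00000000000000000) (nat_lit 6) (.f1 w118 (nat_lit 0xfc254000000000000000000)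
  (nat_lit 0x3dabc00000000000000000) (nat_lit 6) s1245 s1228) s1184) (.f1 w116 (nat_lit 0xfc254000000000000000000) (nat_lit 0x3dabc00000000000000000) (nat_lit 3) (.ret (nat_lit 131)) (.ret (nat_lit 129)))) (.v0 (nat_lit 0x3d0000000000000000) (nat_lit 0x20000000000000000) (nat_lit 6) (.f0 (nat_lit 0x3ffc000000000000000000) (nat_lit 0xfc003c00000000000000000) (nat_lit 6) s1281 (.f1 w122 (nat_lit 0x1fdc000000000000000000)
  (nat_lit 0xfe023c00000000000000000) (nat_lit 6) s1251 (.ret (nat_lit 163)))) (.f1 w81 (nat_lit 0xfc254000000000000000000) (nat_lit 0x3dabc00000000000000000) (nat_lit 6) s1245 (.f1 w21 (nat_lit 0xfe023c00000000000000000) (nat_lit 0x1fdc000000000000000000) (nat_lit 6) s1227 (.f1 w24 (nat_lit 0x1fdc000000000000000000) (nat_lit 0xfe023c00000000000000000) (nat_lit 6) (.f1 w79 (nat_lit 0x1fdc000000000000000000)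
  (nat_lit 0xfe023c00000000000000000) (nat_lit 6) (.ret (nat_lit 134)) s960) s1201))))) (.v0 (nat_lit 0x20000000000000000) (nat_lit 0x3d0000000000000000) (nat_lit 6) (.f1 w71 (nat_lit 0xfd000000000000000000000) (nat_lit 0x2fffc00000000000000000) (nat_lit 6) (.f1 w22 (nat_lit 0xfd000000000000000000000) (nat_lit 0x2fffc00000000000000000) (nat_lit 6) (.f1 w118 (nat_lit 0x3dabc00000000000000000) (nat_lit 0xfc254000000000000000000)
  (nat_lit 6) s1228 (.f0 (nat_lit 0x3f77c00000000000000000) (nat_lit 0xfc088000000000000000000) (nat_lit 6) s1236 (.f1 w21 (nat_lit 0xfe023c00000000000000000) (nat_lit 0x1fdc000000000000000000) (nat_lit 6) s1243 (.f1 w24 (nat_lit 0x1fdc000000000000000000) (nat_lit 0xfe023c00000000000000000) (nat_lit 6) (.ret (nat_lit 134)) s1237)))) s1184) (.f1 w4 (nat_lit 0xfc254000000000000000000) (nat_lit 0x3dabc00000000000000000)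
  (nat_lit 3) (.ret (nat_lit 131)) (.ret (nat_lit 129)))) (.f0 (nat_lit 0x3ffc000000000000000000) (nat_lit 0xfc003c00000000000000000) (nat_lit 6) (.f0 (nat_lit 0xfc000800000000000000000) (nat_lit 0x3fff400000000000000000) (nat_lit 6) (.f0 (nat_lit 0x3ffec00000000000000000) (nat_lit 0xfc001000000000000000000) (nat_lit 6) (.f1 w125 (nat_lit 0xfe023c00000000000000000) (nat_lit 0x1fdc000000000000000000)
  (nat_lit 6) (.f1 w84 (nat_lit 0x1fdc000000000000000000) (nat_lit 0xfe023c00000000000000000) (nat_lit 6) (.f1 w18 (nat_lit 0x1fdc000000000000000000) (nat_lit 0xfe023c00000000000000000) (nat_lit 6) s1099 (.ret (nat_lit 147))) (.ret (nat_lit 147))) (.f1 w124 (nat_lit 0x1fdc000000000000000000) (nat_lit 0xfe023c00000000000000000) (nat_lit 6) (.ret (nat_lit 150)) (.ret (nat_lit 147)))) (.ret (nat_lit 0)))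
  (.f1 w123 (nat_lit 0x1fdc000000000000000000) (nat_lit 0xfe023c00000000000000000) (nat_lit 6) (.f1 w44 (nat_lit 0xfc254000000000000000000) (nat_lit 0x3dabc00000000000000000) (nat_lit 6) (.ret (nat_lit 147)) (.f1 w84 (nat_lit 0x1fdc000000000000000000) (nat_lit 0xfe023c00000000000000000) (nat_lit 6) (.ret (nat_lit 150)) (.ret (nat_lit 149)))) (.ret (nat_lit 147)))) (.f1 w71 (nat_lit 0x1fdc000000000000000000) (nat_lit 0xfe023c00000000000000000) (nat_lit 6) s1121 (.ret (nat_lit 147)))))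
noncomputable def s1319 : FP := .f1 w21 (nat_lit 0xfe023c00000000000000000) (nat_lit 0x1fdc000000000000000000) (nat_lit 6) (.ret (nat_lit 163)) (.ret (nat_lit 166))
noncomputable def s1348 : FP := .v1 w4 (nat_lit 0x10000000000000000) (nat_lit 0x3e0000000000000000) (nat_lit 6) (.v0 (nat_lit 0x3d0000000000000000) (nat_lit 0x20000000000000000) (nat_lit 6) (.f0 (nat_lit 0x3ffc000000000000000000) (nat_lit 0xfc003c00000000000000000) (nat_lit 6) (.f0 (nat_lit 0x3fff400000000000000000) (nat_lit 0xfc000800000000000000000) (nat_lit 6) (.v1 w9 (nat_lit 0x3e0000000000000000)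
  (nat_lit 0x10000000000000000) (nat_lit 6) (.f1 w132 (nat_lit 0x3dabc00000000000000000) (nat_lit 0xfc254000000000000000000) (nat_lit 6) (.f1 w4 (nat_lit 0x1fdc000000000000000000) (nat_lit 0xfe023c00000000000000000) (nat_lit 4) (.f1 w18 (nat_lit 0xfc254000000000000000000) (nat_lit 0x3dabc00000000000000000) (nat_lit 4) (.f1 w124 (nat_lit 0x1fdc000000000000000000) (nat_lit 0xfe023c00000000000000000)
  (nat_lit 3) (.ret (nat_lit 179)) (.f0 (nat_lit 0xfc254000000000000000000) (nat_lit 0x3dabc00000000000000000) (nat_lit 3) (.ret (nat_lit 178)) (.ret (nat_lit 179)))) (.f1 w124 (nat_lit 0x1fdc000000000000000000) (nat_lit 0xfe023c00000000000000000) (nat_lit 4) (.ret (nat_lit 180)) (.ret (nat_lit 178)))) (.f1 w130 (nat_lit 0x1fdc000000000000000000) (nat_lit 0xfe023c00000000000000000) (nat_lit 3) (.ret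
  (nat_lit 179)) (.ret (nat_lit 178)))) (.f1 w4 (nat_lit 0x1fdc000000000000000000) (nat_lit 0xfe023c00000000000000000) (nat_lit 6) (.f1 w131 (nat_lit 0xfc254000000000000000000) (nat_lit 0x3dabc00000000000000000) (nat_lit 6) (.ret (nat_lit 179)) (.f1 w18 (nat_lit 0x1fdc000000000000000000) (nat_lit 0xfe023c00000000000000000) (nat_lit 6) (.f1 w18 (nat_lit 0x1fdc000000000000000000) (nat_lit 0xfe023c00000000000000000)
  (nat_lit 6) (.ret (nat_lit 182)) (.ret (nat_lit 179))) (.ret (nat_lit 179)))) (.ret (nat_lit 179)))) (.ret (nat_lit 0))) (.f0 (nat_lit 0x3ffec00000000000000000) (nat_lit 0xfc001000000000000000000) (nat_lit 3) (.v1 w14 (nat_lit 0x3e0000000000000000) (nat_lit 0x10000000000000000) (nat_lit 3) (.f1 w95 (nat_lit 0x1fdc000000000000000000) (nat_lit 0xfe023c00000000000000000) (nat_lit 3) (.ret (nat_lit 179))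
  (.ret (nat_lit 178))) (.ret (nat_lit 0))) (.ret (nat_lit 130)))) (.f1 w133 (nat_lit 0x1fdc000000000000000000) (nat_lit 0xfe023c00000000000000000) (nat_lit 3) (.ret (nat_lit 179)) (.ret (nat_lit 178)))) (.ret (nat_lit 0))) (.v1 w4 (nat_lit 0x20000000000000000) (nat_lit 0x3d0000000000000000) (nat_lit 6) (.ret (nat_lit 0)) (.f0 (nat_lit 0x3ffc000000000000000000) (nat_lit 0xfc003c00000000000000000) (nat_lit 6)
  (.f0 (nat_lit 0xfc000800000000000000000) (nat_lit 0x3fff400000000000000000) (nat_lit 4) (.f0 (nat_lit 0x3ffec00000000000000000) (nat_lit 0xfc001000000000000000000) (nat_lit 4) (.v1 w14 (nat_lit 0x3e0000000000000000) (nat_lit 0x10000000000000000) (nat_lit 4) (.f1 w127 (nat_lit 0xfc254000000000000000000) (nat_lit 0x3dabc00000000000000000) (nat_lit 4) (.f0 (nat_lit 0x3f77c00000000000000000) (nat_lit 0xfc088000000000000000000)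
  (nat_lit 4) (.ret (nat_lit 163)) (.f1 w4 (nat_lit 0x1fdc000000000000000000) (nat_lit 0xfe023c00000000000000000) (nat_lit 4) (.ret (nat_lit 164)) (.f1 w126 (nat_lit 0xfc254000000000000000000) (nat_lit 0x3dabc00000000000000000) (nat_lit 4) (.ret (nat_lit 163)) (.ret (nat_lit 164))))) (.ret (nat_lit 163))) (.ret (nat_lit 0))) (.f1 w128 (nat_lit 0x3dabc00000000000000000) (nat_lit 0xfc254000000000000000000) (nat_lit 3) (.ret (nat_lit 130)) (.ret (nat_lit 131)))) (.ret (nat_lit 163))) (.f1 w129 (nat_lit 0x1fdc000000000000000000) (nat_lit 0xfe023c00000000000000000) (nat_lit 6) (.f1 w29 (nat_lit 0xfc023c00000000000000000) (nat_lit 0x3fdc000000000000000000) (nat_lit 6) (.ret (nat_lit 163)) s1319) (.ret (nat_lit 162)))))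
noncomputable def s1355 : FP := .f1 w137 (nat_lit 0xfc254000000000000000000) (nat_lit 0x3dabc00000000000000000) (nat_lit 4) (.f0 (nat_lit 0xfc088000000000000000000) (nat_lit 0x3f77c00000000000000000) (nat_lit 4) (.f1 w10 (nat_lit 0x1fdc000000000000000000) (nat_lit 0xfe023c00000000000000000) (nat_lit 4) (.ret (nat_lit 148)) (.f1 w136 (nat_lit 0xfc254000000000000000000) (nat_lit 0x3dabc00000000000000000) (nat_lit 4) (.ret (nat_lit 147)) (.ret (nat_lit 148)))) (.ret (nat_lit 147))) (.f1 w135 (nat_lit 0x1fdc000000000000000000) (nat_lit 0xfe023c00000000000000000) (nat_lit 3) (.ret (nat_lit 147)) (.ret (nat_lit 146)))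
noncomputable def s1372 : FP := .f0 (nat_lit 0x3fff400000000000000000) (nat_lit 0xfc000800000000000000000) (nat_lit 6) (.v1 w9 (nat_lit 0x3e0000000000000000) (nat_lit 0x10000000000000000) (nat_lit 6) (.v1 w4 (nat_lit 0x3e0000000000000000) (nat_lit 0x10000000000000000) (nat_lit 6) s1088 (.ret (nat_lit 0))) (.v0 (nat_lit 0x3d0000000000000000) (nat_lit 0x20000000000000000) (nat_lit 6) (.f0 (nat_lit 0x3ffc000000000000000000)
  (nat_lit 0xfc003c00000000000000000) (nat_lit 6) s1119 (.f1 w22 (nat_lit 0xfc254000000000000000000) (nat_lit 0x3dabc00000000000000000) (nat_lit 6) (.f0 (nat_lit 0xfc088000000000000000000) (nat_lit 0x3f77c00000000000000000) (nat_lit 6) (.f1 w21 (nat_lit 0xfe023c00000000000000000) (nat_lit 0x1fdc000000000000000000) (nat_lit 6) (.f1 w24 (nat_lit 0xfe023c00000000000000000) (nat_lit 0x1fdc000000000000000000)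
  (nat_lit 6) (.ret (nat_lit 148)) (.ret (nat_lit 150))) (.ret (nat_lit 150))) (.f1 w21 (nat_lit 0xfe023c00000000000000000) (nat_lit 0x1fdc000000000000000000) (nat_lit 6) (.f1 w24 (nat_lit 0xfe023c00000000000000000) (nat_lit 0x1fdc000000000000000000) (nat_lit 6) s1122 (.ret (nat_lit 150))) (.ret (nat_lit 150)))) (.f1 w21 (nat_lit 0xfe023c00000000000000000) (nat_lit 0x1fdc000000000000000000) (nat_lit 6)
  (.f1 w24 (nat_lit 0xfe023c00000000000000000) (nat_lit 0x1fdc000000000000000000) (nat_lit 6) (.ret (nat_lit 147)) s1120) (.f1 w24 (nat_lit 0xfe023c00000000000000000) (nat_lit 0x1fdc000000000000000000) (nat_lit 6) (.f0 (nat_lit 0xfc254000000000000000000) (nat_lit 0x3dabc00000000000000000) (nat_lit 6) (.f0 (nat_lit 0xfd000000000000000000000) (nat_lit 0x2fffc00000000000000000) (nat_lit 6) (.ret (nat_lit 147)) s1122) s1120)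
  (.ret (nat_lit 150)))))) (.v1 w1 (nat_lit 0x370000000000000000) (nat_lit 0x80000000000000000) (nat_lit 6) s1177 (.f1 w115 (nat_lit 0xfc254000000000000000000) (nat_lit 0x3dabc00000000000000000) (nat_lit 6) s1174 s1168)))) (.f0 (nat_lit 0x3ffec00000000000000000) (nat_lit 0xfc001000000000000000000) (nat_lit 6) s1310 (.v1 w9 (nat_lit 0x3e0000000000000000) (nat_lit 0x10000000000000000) (nat_lit 6) s1348
  (.v0 (nat_lit 0x3d0000000000000000) (nat_lit 0x20000000000000000) (nat_lit 4) (.v1 w25 (nat_lit 0x3e0000000000000000) (nat_lit 0x10000000000000000) (nat_lit 4) (.f1 w27 (nat_lit 0x3ffc000000000000000000) (nat_lit 0xfc003c00000000000000000) (nat_lit 4) (.f0 (nat_lit 0xfc000800000000000000000) (nat_lit 0x3fff400000000000000000) (nat_lit 4) (.f0 (nat_lit 0xfc001000000000000000000) (nat_lit 0x3ffec00000000000000000)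
  (nat_lit 4) (.f1 w98 (nat_lit 0xfc254000000000000000000) (nat_lit 0x3dabc00000000000000000) (nat_lit 4) (.f0 (nat_lit 0x3f77c00000000000000000) (nat_lit 0xfc088000000000000000000) (nat_lit 4) (.ret (nat_lit 131)) (.f1 w139 (nat_lit 0xfc254000000000000000000) (nat_lit 0x3dabc00000000000000000) (nat_lit 4) s1185 (.ret (nat_lit 132)))) (.f1 w138 (nat_lit 0x1fdc000000000000000000) (nat_lit 0xfe023c00000000000000000)
  (nat_lit 3) (.f1 w24 (nat_lit 0xfc254000000000000000000) (nat_lit 0x3dabc00000000000000000) (nat_lit 3) s1140 (.ret (nat_lit 131))) (.ret (nat_lit 130)))) (.v1 w35 (nat_lit 0x3e0000000000000000) (nat_lit 0x10000000000000000) (nat_lit 4) s1355 s1355)) (.f1 w134 (nat_lit 0x1fdc000000000000000000) (nat_lit 0xfe023c00000000000000000) (nat_lit 3) (.ret (nat_lit 147)) (.ret (nat_lit 146)))) (.f1 w71 (nat_lit 0xfd000000000000000000000) (nat_lit 0x2fffc00000000000000000) (nat_lit 3) (.f1 w140 (nat_lit 0x1fdc000000000000000000) (nat_lit 0xfe023c00000000000000000)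 (nat_lit 3) (.ret (nat_lit 147)) (.ret (nat_lit 146))) (.ret (nat_lit 145)))) (.ret (nat_lit 0))) (.ret (nat_lit 0)))))
noncomputable def s1384 : FP := .f1 w24 (nat_lit 0x1fdc000000000000000000) (nat_lit 0xfe023c00000000000000000) (nat_lit 4) (.ret (nat_lit 132)) s1057
noncomputable def s1394 : FP := .f1 w4 (nat_lit 0xfe000000000000000000000) (nat_lit 0x1fffc00000000000000000) (nat_lit 3) (.ret (nat_lit 131)) (.ret (nat_lit 0))
noncomputable def s1397 : FP := .f1 w24 (nat_lit 0x1fdc000000000000000000) (nat_lit 0xfe023c00000000000000000) (nat_lit 3) s1394 (.f1 w4 (nat_lit 0xfe000000000000000000000) (nat_lit 0x1fffc00000000000000000) (nat_lit 2) (.ret (nat_lit 130)) (.ret (nat_lit 0)))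
noncomputable def s1403 : FP := .f1 w21 (nat_lit 0x1fdc000000000000000000) (nat_lit 0xfe023c00000000000000000) (nat_lit 2) (.ret (nat_lit 130)) s1209
noncomputable def s1414 : FP := .f1 w4 (nat_lit 0xfc023c00000000000000000) (nat_lit 0x3fdc000000000000000000) (nat_lit 6) (.f0 (nat_lit 0xfe000000000000000000000) (nat_lit 0x1fffc00000000000000000) (nat_lit 6) (.f0 (nat_lit 0xfd000000000000000000000) (nat_lit 0x2fffc00000000000000000) (nat_lit 6) (.ret (nat_lit 131)) (.ret (nat_lit 134))) (.ret (nat_lit 0))) (.ret (nat_lit 134))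
noncomputable def s1418 : FP := .f1 w29 (nat_lit 0xfe000000000000000000000) (nat_lit 0x1fffc00000000000000000) (nat_lit 3) (.ret (nat_lit 131)) (.ret (nat_lit 0))
noncomputable def s1420 : FP := .f1 w21 (nat_lit 0xfc254000000000000000000) (nat_lit 0x3dabc00000000000000000) (nat_lit 4) (.ret (nat_lit 131)) (.ret (nat_lit 132))
noncomputable def s1425 : FP := .f1 w17 (nat_lit 0xfc254000000000000000000) (nat_lit 0x3dabc00000000000000000) (nat_lit 4) (.ret (nat_lit 131)) s1384
noncomputable def s1432 : FP := .f1 w107 (nat_lit 0xfc254000000000000000000) (nat_lit 0x3dabc00000000000000000) (nat_lit 6) (.f0 (nat_lit 0xfc088000000000000000000) (nat_lit 0x3f77c00000000000000000) (nat_lit 6) (.f1 w37 (nat_lit 0x1fdc000000000000000000) (nat_lit 0xfe023c00000000000000000) (nat_lit 6) (.f1 w4 (nat_lit 0xfe023c00000000000000000) (nat_lit 0x1fdc000000000000000000) (nat_lit 6) (.f1 w27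
  (nat_lit 0xfe000000000000000000000) (nat_lit 0x1fffc00000000000000000) (nat_lit 4) (.f0 (nat_lit 0xfc023c00000000000000000) (nat_lit 0x3fdc000000000000000000) (nat_lit 4) (.f0 (nat_lit 0xfd000000000000000000000) (nat_lit 0x2fffc00000000000000000) (nat_lit 4) (.ret (nat_lit 131)) s1425) s1425) (.ret (nat_lit 0))) (.f1 w24 (nat_lit 0x1fdc000000000000000000) (nat_lit 0xfe023c00000000000000000) (nat_lit 6) s1414
  (.f1 w4 (nat_lit 0xfe000000000000000000000) (nat_lit 0x1fffc00000000000000000) (nat_lit 4) (.f0 (nat_lit 0xfc023c00000000000000000) (nat_lit 0x3fdc000000000000000000) (nat_lit 4) (.f0 (nat_lit 0xfd000000000000000000000) (nat_lit 0x2fffc00000000000000000) (nat_lit 4) (.ret (nat_lit 131)) s1420) s1420) (.ret (nat_lit 0))))) s1418) (.f1 w37 (nat_lit 0xfe023c00000000000000000) (nat_lit 0x1fdc000000000000000000)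
  (nat_lit 6) s1418 (.f1 w4 (nat_lit 0xfe023c00000000000000000) (nat_lit 0x1fdc000000000000000000) (nat_lit 6) (.f1 w27 (nat_lit 0xfe000000000000000000000) (nat_lit 0x1fffc00000000000000000) (nat_lit 3) (.ret (nat_lit 131)) (.ret (nat_lit 0))) (.f1 w24 (nat_lit 0xfe023c00000000000000000) (nat_lit 0x1fdc000000000000000000) (nat_lit 6) s1394 s1414)))) (.f1 w37 (nat_lit 0x1fdc000000000000000000) (nat_lit 0xfe023c00000000000000000)
  (nat_lit 6) (.f1 w4 (nat_lit 0xfe023c00000000000000000) (nat_lit 0x1fdc000000000000000000) (nat_lit 6) (.f0 (nat_lit 0xfc254000000000000000000) (nat_lit 0x3dabc00000000000000000) (nat_lit 3) (.f0 (nat_lit 0xfc088000000000000000000) (nat_lit 0x3f77c00000000000000000) (nat_lit 3) (.f1 w27 (nat_lit 0xfc023c00000000000000000) (nat_lit 0x3fdc000000000000000000) (nat_lit 2) (.f0 (nat_lit 0x2fffc00000000000000000)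
  (nat_lit 0xfd000000000000000000000) (nat_lit 2) s1403 (.ret (nat_lit 0))) s1403) (.f1 w24 (nat_lit 0x1fdc000000000000000000) (nat_lit 0xfe023c00000000000000000) (nat_lit 3) (.f1 w4 (nat_lit 0xfc023c00000000000000000) (nat_lit 0x3fdc000000000000000000) (nat_lit 3) (.f0 (nat_lit 0xfd000000000000000000000) (nat_lit 0x2fffc00000000000000000) (nat_lit 3) (.ret (nat_lit 0)) (.ret (nat_lit 131))) (.ret
  (nat_lit 131))) (.f1 w4 (nat_lit 0xfc023c00000000000000000) (nat_lit 0x3fdc000000000000000000) (nat_lit 1) (.f0 (nat_lit 0xfd000000000000000000000) (nat_lit 0x2fffc00000000000000000) (nat_lit 1) (.ret (nat_lit 0)) (.ret (nat_lit 129))) (.ret (nat_lit 129))))) s1397) (.f1 w24 (nat_lit 0x1fdc000000000000000000) (nat_lit 0xfe023c00000000000000000) (nat_lit 6) (.f1 w4 (nat_lit 0xfc023c00000000000000000)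
  (nat_lit 0x3fdc000000000000000000) (nat_lit 6) (.f0 (nat_lit 0xfe000000000000000000000) (nat_lit 0x1fffc00000000000000000) (nat_lit 3) (.ret (nat_lit 131)) (.ret (nat_lit 0))) (.ret (nat_lit 134))) s1394)) (.f1 w4 (nat_lit 0x1fdc000000000000000000) (nat_lit 0xfe023c00000000000000000) (nat_lit 3) s1397 (.f1 w27 (nat_lit 0xfe000000000000000000000) (nat_lit 0x1fffc00000000000000000) (nat_lit 2) (.ret (nat_lit 130)) (.ret (nat_lit 0)))))
noncomputable def s1436 : FP := .v1 w4 (nat_lit 0x3e0000000000000000) (nat_lit 0x10000000000000000) (nat_lit 6) (.v1 w4 (nat_lit 0x10000000000000000) (nat_lit 0x3e0000000000000000) (nat_lit 6) (.v0 (nat_lit 0x3d0000000000000000) (nat_lit 0x20000000000000000) (nat_lit 6) s948 (.ret (nat_lit 0))) (.v1 w4 (nat_lit 0x20000000000000000) (nat_lit 0x3d0000000000000000) (nat_lit 6) (.ret (nat_lit 0)) (.f1 w4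
  (nat_lit 0xfc003c00000000000000000) (nat_lit 0x3ffc000000000000000000) (nat_lit 6) (.f1 w61 (nat_lit 0xfc240000000000000000000) (nat_lit 0x3dbfc00000000000000000) (nat_lit 6) s389 (.f1 w17 (nat_lit 0x1fdc000000000000000000) (nat_lit 0xfe023c00000000000000000) (nat_lit 6) (.f1 w4 (nat_lit 0x1fdc000000000000000000) (nat_lit 0xfe023c00000000000000000) (nat_lit 6) (.f1 w4 (nat_lit 0x1fdc000000000000000000)
  (nat_lit 0xfe023c00000000000000000) (nat_lit 6) s341 (.ret (nat_lit 51))) (.f0 (nat_lit 0x2fffc00000000000000000) (nat_lit 0xfd000000000000000000000) (nat_lit 3) (.ret (nat_lit 50)) (.ret (nat_lit 51)))) (.f0 (nat_lit 0xfd000000000000000000000) (nat_lit 0x2fffc00000000000000000) (nat_lit 3) (.f1 w21 (nat_lit 0xfc254000000000000000000) (nat_lit 0x3dabc00000000000000000) (nat_lit 3) (.ret (nat_lit 51))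
  (.f1 w4 (nat_lit 0xfc254000000000000000000) (nat_lit 0x3dabc00000000000000000) (nat_lit 3) (.f0 (nat_lit 0x3f77c00000000000000000) (nat_lit 0xfc088000000000000000000) (nat_lit 3) (.f1 w4 (nat_lit 0xfe023c00000000000000000) (nat_lit 0x1fdc000000000000000000) (nat_lit 3) (.ret (nat_lit 49)) (.ret (nat_lit 51))) (.f1 w4 (nat_lit 0xfe023c00000000000000000) (nat_lit 0x1fdc000000000000000000) (nat_lit 2)
  (.ret (nat_lit 49)) (.ret (nat_lit 50)))) s350)) (.f1 w4 (nat_lit 0xfc000800000000000000000) (nat_lit 0x3fff400000000000000000) (nat_lit 3) (.ret (nat_lit 49)) (.v1 w6 (nat_lit 0x20000000000000000) (nat_lit 0x3d0000000000000000) (nat_lit 3) (.ret (nat_lit 50)) (.ret (nat_lit 51))))))) (.ret (nat_lit 0))))) (.v0 (nat_lit 0x3d0000000000000000) (nat_lit 0x20000000000000000) (nat_lit 6) (.f0 (nat_lit 0x3ffc000000000000000000)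
  (nat_lit 0xfc003c00000000000000000) (nat_lit 6) s1372 (.f0 (nat_lit 0xfc240000000000000000000) (nat_lit 0x3dbfc00000000000000000) (nat_lit 6) s1432 (.f1 w24 (nat_lit 0x1fdc000000000000000000) (nat_lit 0xfe023c00000000000000000) (nat_lit 4) (.f1 w4 (nat_lit 0xfe023c00000000000000000) (nat_lit 0x1fdc000000000000000000) (nat_lit 4) (.f1 w4 (nat_lit 0xfc254000000000000000000) (nat_lit 0x3dabc00000000000000000)
  (nat_lit 4) (.f0 (nat_lit 0x3f77c00000000000000000) (nat_lit 0xfc088000000000000000000) (nat_lit 4) (.ret (nat_lit 131)) (.f1 w21 (nat_lit 0xfc254000000000000000000) (nat_lit 0x3dabc00000000000000000) (nat_lit 4) (.ret (nat_lit 131)) s1384)) (.f1 w21 (nat_lit 0xfc254000000000000000000) (nat_lit 0x3dabc00000000000000000) (nat_lit 3) (.f1 w24 (nat_lit 0x1fdc000000000000000000) (nat_lit 0xfe023c00000000000000000)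
  (nat_lit 3) (.f1 w37 (nat_lit 0xfc088000000000000000000) (nat_lit 0x3f77c00000000000000000) (nat_lit 3) (.ret (nat_lit 130)) (.ret (nat_lit 131))) s1209) (.f1 w24 (nat_lit 0x1fdc000000000000000000) (nat_lit 0xfe023c00000000000000000) (nat_lit 3) (.ret (nat_lit 131)) s992))) (.f1 w24 (nat_lit 0x1fdc000000000000000000) (nat_lit 0xfe023c00000000000000000) (nat_lit 4) (.f1 w141 (nat_lit 0xfc254000000000000000000)
  (nat_lit 0x3dabc00000000000000000) (nat_lit 4) (.f0 (nat_lit 0xfc088000000000000000000) (nat_lit 0x3f77c00000000000000000) (nat_lit 4) (.ret (nat_lit 132)) (.ret (nat_lit 131))) (.ret (nat_lit 131))) (.f1 w21 (nat_lit 0xfc254000000000000000000) (nat_lit 0x3dabc00000000000000000) (nat_lit 4) (.f0 (nat_lit 0xfc088000000000000000000) (nat_lit 0x3f77c00000000000000000) (nat_lit 4) (.f1 w4 (nat_lit 0xfc254000000000000000000)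
  (nat_lit 0x3dabc00000000000000000) (nat_lit 4) (.ret (nat_lit 131)) (.ret (nat_lit 132))) (.ret (nat_lit 131))) (.f1 w4 (nat_lit 0xfc254000000000000000000) (nat_lit 0x3dabc00000000000000000) (nat_lit 3) s1140 (.ret (nat_lit 131)))))) (.f1 w4 (nat_lit 0x1fdc000000000000000000) (nat_lit 0xfe023c00000000000000000) (nat_lit 3) (.ret (nat_lit 131)) (.f1 w4 (nat_lit 0xfc254000000000000000000) (nat_lit 0x3dabc00000000000000000) (nat_lit 3) (.ret (nat_lit 131)) (.ret (nat_lit 130))))))) (.ret (nat_lit 0)))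
noncomputable def s1443 : FP := .v1 w9 (nat_lit 0x3e0000000000000000) (nat_lit 0x10000000000000000) (nat_lit 5) (.v1 w4 (nat_lit 0x3e0000000000000000) (nat_lit 0x10000000000000000) (nat_lit 5) (.f1 w37 (nat_lit 0x1fdc000000000000000000) (nat_lit 0xfe023c00000000000000000) (nat_lit 5) (.f1 w142 (nat_lit 0x3dabc00000000000000000) (nat_lit 0xfc254000000000000000000) (nat_lit 5) (.ret (nat_lit 195)) (.ret (nat_lit 197))) (.f1 w143 (nat_lit 0x3dabc00000000000000000) (nat_lit 0xfc254000000000000000000) (nat_lit 5) (.ret (nat_lit 195)) (.ret (nat_lit 197)))) (.ret (nat_lit 0))) (.ret (nat_lit 0))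
noncomputable def s1444 : FP := .f1 w74 (nat_lit 0x3dabc00000000000000000) (nat_lit 0xfc254000000000000000000) (nat_lit 5) (.ret (nat_lit 195)) (.ret (nat_lit 197))
noncomputable def s1455 : FP := .f1 w147 (nat_lit 0x3dabc00000000000000000) (nat_lit 0xfc254000000000000000000) (nat_lit 5) (.ret (nat_lit 195)) (.ret (nat_lit 197))
noncomputable def s1456 : FP := .f1 w37 (nat_lit 0x1fdc000000000000000000) (nat_lit 0xfe023c00000000000000000) (nat_lit 6) (.f1 w4 (nat_lit 0x1fdc000000000000000000) (nat_lit 0xfe023c00000000000000000) (nat_lit 6) (.f1 w4 (nat_lit 0x1fdc000000000000000000) (nat_lit 0xfe023c00000000000000000) (nat_lit 6) (.f1 w4 (nat_lit 0xfe023c00000000000000000) (nat_lit 0x1fdc000000000000000000) (nat_lit 6) (.f1 w144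
  (nat_lit 0x3dabc00000000000000000) (nat_lit 0xfc254000000000000000000) (nat_lit 5) (.ret (nat_lit 195)) (.ret (nat_lit 197))) (.ret (nat_lit 198))) (.f1 w145 (nat_lit 0x3dabc00000000000000000) (nat_lit 0xfc254000000000000000000) (nat_lit 5) (.ret (nat_lit 195)) (.ret (nat_lit 197)))) (.f1 w146 (nat_lit 0x3dabc00000000000000000) (nat_lit 0xfc254000000000000000000) (nat_lit 5) (.ret (nat_lit 195)) (.ret (nat_lit 197)))) s1455
noncomputable def s1460 : FP := .f1 w27 (nat_lit 0x3dabc00000000000000000) (nat_lit 0xfc254000000000000000000) (nat_lit 5) (.ret (nat_lit 195)) (.ret (nat_lit 197))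
noncomputable def s1478 : FP := .f0 (nat_lit 0xfc088000000000000000000) (nat_lit 0x3f77c00000000000000000) (nat_lit 3) (.ret (nat_lit 194)) (.ret (nat_lit 195))
noncomputable def s1484 : FP := .f1 w4 (nat_lit 0x1fdc000000000000000000) (nat_lit 0xfe023c00000000000000000) (nat_lit 6) (.f1 w24 (nat_lit 0x3fbfc00000000000000000) (nat_lit 0xfc040000000000000000000) (nat_lit 6) (.v1 w9 (nat_lit 0x3e0000000000000000) (nat_lit 0x10000000000000000) (nat_lit 6) (.v1 w4 (nat_lit 0x10000000000000000) (nat_lit 0x3e0000000000000000) (nat_lit 6) (.v1 w25 (nat_lit 0x3e0000000000000000)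
  (nat_lit 0x10000000000000000) (nat_lit 6) (.f1 w27 (nat_lit 0x3fff400000000000000000) (nat_lit 0xfc000800000000000000000) (nat_lit 6) (.v1 w9 (nat_lit 0x3e0000000000000000) (nat_lit 0x10000000000000000) (nat_lit 6) (.v1 w4 (nat_lit 0x3e0000000000000000) (nat_lit 0x10000000000000000) (nat_lit 6) s1456 (.ret (nat_lit 0))) (.f1 w21 (nat_lit 0xfe023c00000000000000000) (nat_lit 0x1fdc000000000000000000)
  (nat_lit 6) s1455 (.ret (nat_lit 198)))) s1460) (.ret (nat_lit 0))) (.v1 w4 (nat_lit 0x3e0000000000000000) (nat_lit 0x10000000000000000) (nat_lit 5) (.f1 w4 (nat_lit 0x3fff400000000000000000) (nat_lit 0xfc000800000000000000000) (nat_lit 5) s1443 s1444) (.f1 w60 (nat_lit 0xfc254000000000000000000) (nat_lit 0x3dabc00000000000000000) (nat_lit 5) (.ret (nat_lit 197)) (.ret (nat_lit 195))))) (.v0 (nat_lit 0x20000000000000000)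
  (nat_lit 0x3d0000000000000000) (nat_lit 5) (.f1 w25 (nat_lit 0x3fff400000000000000000) (nat_lit 0xfc000800000000000000000) (nat_lit 5) s1443 s1444) (.f1 w148 (nat_lit 0x3dabc00000000000000000) (nat_lit 0xfc254000000000000000000) (nat_lit 5) (.ret (nat_lit 195)) (.ret (nat_lit 197))))) (.v1 w9 (nat_lit 0x3e0000000000000000) (nat_lit 0x10000000000000000) (nat_lit 5) (.f1 w151 (nat_lit 0x3fff400000000000000000)
  (nat_lit 0xfc000800000000000000000) (nat_lit 5) (.v1 w9 (nat_lit 0x3e0000000000000000) (nat_lit 0x10000000000000000) (nat_lit 5) (.v1 w4 (nat_lit 0x3e0000000000000000) (nat_lit 0x10000000000000000) (nat_lit 5) (.f1 w149 (nat_lit 0x3dabc00000000000000000) (nat_lit 0xfc254000000000000000000) (nat_lit 5) (.ret (nat_lit 195)) (.ret (nat_lit 197))) (.ret (nat_lit 0))) (.ret (nat_lit 0))) (.f1 w150 (nat_lit 0x3dabc00000000000000000)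
  (nat_lit 0xfc254000000000000000000) (nat_lit 5) (.ret (nat_lit 195)) (.ret (nat_lit 197)))) (.v0 (nat_lit 0x3d0000000000000000) (nat_lit 0x20000000000000000) (nat_lit 5) (.f1 w152 (nat_lit 0x3dabc00000000000000000) (nat_lit 0xfc254000000000000000000) (nat_lit 5) (.ret (nat_lit 195)) (.ret (nat_lit 197))) (.ret (nat_lit 0))))) (.f1 w4 (nat_lit 0xfc254000000000000000000) (nat_lit 0x3dabc00000000000000000) (nat_lit 4) (.f0 (nat_lit 0x3f77c00000000000000000) (nat_lit 0xfc088000000000000000000) (nat_lit 4) (.ret (nat_lit 195)) (.f1 w21 (nat_lit 0xfc254000000000000000000) (nat_lit 0x3dabc00000000000000000) (nat_lit 4) (.ret (nat_lit 195)) (.ret (nat_lit 196)))) (.f1 w21 (nat_lit 0xfc254000000000000000000) (nat_lit 0x3dabc00000000000000000) (nat_lit 3) s1478 (.ret (nat_lit 195))))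
noncomputable def s1499 : FP := .f0 (nat_lit 0x2fffc00000000000000000) (nat_lit 0xfd000000000000000000000) (nat_lit 2) (.ret (nat_lit 194)) (.ret (nat_lit 0))
noncomputable def s1502 : FP := .f1 w27 (nat_lit 0xfc023c00000000000000000) (nat_lit 0x3fdc000000000000000000) (nat_lit 2) s1499 (.ret (nat_lit 194))
noncomputable def s1504 : FP := .f0 (nat_lit 0xfe000000000000000000000) (nat_lit 0x1fffc00000000000000000) (nat_lit 3) (.ret (nat_lit 195)) (.ret (nat_lit 0))
noncomputable def s1508 : FP := .f1 w24 (nat_lit 0xfc023c00000000000000000) (nat_lit 0x3fdc000000000000000000) (nat_lit 3) (.f0 (nat_lit 0xfe000000000000000000000) (nat_lit 0x1fffc00000000000000000) (nat_lit 3) (.f0 (nat_lit 0x2fffc00000000000000000) (nat_lit 0xfd000000000000000000000) (nat_lit 3) (.ret (nat_lit 195)) (.ret (nat_lit 193))) (.ret (nat_lit 0))) (.ret (nat_lit 195))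
noncomputable def s1515 : FP := .f0 (nat_lit 0xfd000000000000000000000) (nat_lit 0x2fffc00000000000000000) (nat_lit 2) (.ret (nat_lit 193)) (.ret (nat_lit 194))
noncomputable def s1517 : FP := .f1 w4 (nat_lit 0xfe023c00000000000000000) (nat_lit 0x1fdc000000000000000000) (nat_lit 3) (.f1 w24 (nat_lit 0xfe000000000000000000000) (nat_lit 0x1fffc00000000000000000) (nat_lit 2) s1515 (.ret (nat_lit 0))) s1508
noncomputable def s1529 : FP := .f0 (nat_lit 0xfe000000000000000000000) (nat_lit 0x1fffc00000000000000000) (nat_lit 5) (.f0 (nat_lit 0x2fffc00000000000000000) (nat_lit 0xfd000000000000000000000) (nat_lit 5) (.ret (nat_lit 197)) (.ret (nat_lit 195))) (.ret (nat_lit 0))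
noncomputable def s1530 : FP := .f1 w24 (nat_lit 0xfc023c00000000000000000) (nat_lit 0x3fdc000000000000000000) (nat_lit 6) s1529 (.ret (nat_lit 198))
noncomputable def s1531 : FP := .f1 w24 (nat_lit 0xfe000000000000000000000) (nat_lit 0x1fffc00000000000000000) (nat_lit 3) (.ret (nat_lit 195)) (.ret (nat_lit 0))
noncomputable def s1538 : FP := .f1 w107 (nat_lit 0xfd000000000000000000000) (nat_lit 0x2fffc00000000000000000) (nat_lit 6) (.f1 w4 (nat_lit 0xfc254000000000000000000) (nat_lit 0x3dabc00000000000000000) (nat_lit 6) (.f1 w17 (nat_lit 0x1fdc000000000000000000) (nat_lit 0xfe023c00000000000000000) (nat_lit 6) (.f1 w4 (nat_lit 0x1fdc000000000000000000) (nat_lit 0xfe023c00000000000000000) (nat_lit 6) (.f1 w4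
  (nat_lit 0x1fdc000000000000000000) (nat_lit 0xfe023c00000000000000000) (nat_lit 6) s1530 s1531) (.f1 w27 (nat_lit 0xfe000000000000000000000) (nat_lit 0x1fffc00000000000000000) (nat_lit 3) (.ret (nat_lit 195)) (.ret (nat_lit 0)))) (.f1 w29 (nat_lit 0xfe000000000000000000000) (nat_lit 0x1fffc00000000000000000) (nat_lit 3) (.ret (nat_lit 195)) (.ret (nat_lit 0)))) (.f1 w17 (nat_lit 0x1fdc000000000000000000)
  (nat_lit 0xfe023c00000000000000000) (nat_lit 6) (.f1 w4 (nat_lit 0xfe023c00000000000000000) (nat_lit 0x1fdc000000000000000000) (nat_lit 6) (.f0 (nat_lit 0xfc254000000000000000000) (nat_lit 0x3dabc00000000000000000) (nat_lit 3) (.f0 (nat_lit 0xfc088000000000000000000) (nat_lit 0x3f77c00000000000000000) (nat_lit 3) s1502 (.f1 w4 (nat_lit 0xfe023c00000000000000000) (nat_lit 0x1fdc000000000000000000)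
  (nat_lit 3) (.f1 w24 (nat_lit 0xfc023c00000000000000000) (nat_lit 0x3fdc000000000000000000) (nat_lit 1) (.f0 (nat_lit 0xfd000000000000000000000) (nat_lit 0x2fffc00000000000000000) (nat_lit 1) (.ret (nat_lit 0)) (.ret (nat_lit 193))) (.ret (nat_lit 193))) (.f1 w24 (nat_lit 0xfc023c00000000000000000) (nat_lit 0x3fdc000000000000000000) (nat_lit 3) s1499 (.ret (nat_lit 195))))) s1517) (.f1 w4 (nat_lit 0xfe023c00000000000000000)
  (nat_lit 0x1fdc000000000000000000) (nat_lit 6) (.f0 (nat_lit 0xfc254000000000000000000) (nat_lit 0x3dabc00000000000000000) (nat_lit 3) (.f0 (nat_lit 0x3f77c00000000000000000) (nat_lit 0xfc088000000000000000000) (nat_lit 3) (.f1 w24 (nat_lit 0xfc023c00000000000000000) (nat_lit 0x3fdc000000000000000000) (nat_lit 3) (.f0 (nat_lit 0xfd000000000000000000000) (nat_lit 0x2fffc00000000000000000) (nat_lit 3)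
  (.ret (nat_lit 0)) (.ret (nat_lit 195))) (.ret (nat_lit 195))) (.f1 w24 (nat_lit 0xfc023c00000000000000000) (nat_lit 0x3fdc000000000000000000) (nat_lit 2) s1499 (.ret (nat_lit 194)))) s1508) (.f1 w24 (nat_lit 0xfc023c00000000000000000) (nat_lit 0x3fdc000000000000000000) (nat_lit 6) s1504 (.ret (nat_lit 198))))) (.f1 w4 (nat_lit 0x1fdc000000000000000000) (nat_lit 0xfe023c00000000000000000) (nat_lit 3) s1517
  (.f1 w25 (nat_lit 0xfe000000000000000000000) (nat_lit 0x1fffc00000000000000000) (nat_lit 2) s1515 (.ret (nat_lit 0)))))) (.f1 w21 (nat_lit 0xfc000800000000000000000) (nat_lit 0x3fff400000000000000000) (nat_lit 3) s1502 (.v1 w16 (nat_lit 0x20000000000000000) (nat_lit 0x3d0000000000000000) (nat_lit 3) (.f1 w59 (nat_lit 0xfc023c00000000000000000) (nat_lit 0x3fdc000000000000000000) (nat_lit 2) s1499 (.ret (nat_lit 194))) (.f1 w14 (nat_lit 0x1fdc000000000000000000) (nat_lit 0xfe023c00000000000000000) (nat_lit 3) (.f1 w82 (nat_lit 0xfe000000000000000000000)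 (nat_lit 0x1fffc00000000000000000) (nat_lit 3) (.ret (nat_lit 195)) (.ret (nat_lit 0))) (.f1 w36 (nat_lit 0x2fffc00000000000000000) (nat_lit 0xfd000000000000000000000) (nat_lit 2) (.ret (nat_lit 194)) (.ret (nat_lit 0))))))
noncomputable def s1544 : FP := .f1 w44 (nat_lit 0xfc254000000000000000000) (nat_lit 0x3dabc00000000000000000) (nat_lit 8) (.ret (nat_lit 215)) (.ret (nat_lit 216))
noncomputable def s1546 : FP := .f1 w4 (nat_lit 0xfe023c00000000000000000) (nat_lit 0x1fdc000000000000000000) (nat_lit 8) (.ret (nat_lit 215)) (.ret (nat_lit 216))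
noncomputable def s1548 : FP := .f1 w27 (nat_lit 0xfc254000000000000000000) (nat_lit 0x3dabc00000000000000000) (nat_lit 8) (.ret (nat_lit 215)) (.f1 w153 (nat_lit 0xfe023c00000000000000000) (nat_lit 0x1fdc000000000000000000) (nat_lit 8) (.ret (nat_lit 215)) s1546)
noncomputable def s1550 : FP := .f1 w28 (nat_lit 0xfe023c00000000000000000) (nat_lit 0x1fdc000000000000000000) (nat_lit 8) (.ret (nat_lit 215)) s1546
noncomputable def s1554 : FP := .f1 w10 (nat_lit 0xfc254000000000000000000) (nat_lit 0x3dabc00000000000000000) (nat_lit 9) (.ret (nat_lit 216)) (.ret (nat_lit 217))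
noncomputable def s1555 : FP := .f1 w10 (nat_lit 0xfc254000000000000000000) (nat_lit 0x3dabc00000000000000000) (nat_lit 8) (.ret (nat_lit 215)) (.ret (nat_lit 216))
noncomputable def s1558 : FP := .f1 w4 (nat_lit 0xfe023c00000000000000000) (nat_lit 0x1fdc000000000000000000) (nat_lit 9) (.ret (nat_lit 215)) s1554
noncomputable def s1567 : FP := .f1 w4 (nat_lit 0xfe023c00000000000000000) (nat_lit 0x1fdc000000000000000000) (nat_lit 7) (.ret (nat_lit 214)) (.ret (nat_lit 215))
noncomputable def s1575 : FP := .f1 w10 (nat_lit 0xfe023c00000000000000000) (nat_lit 0x1fdc000000000000000000) (nat_lit 8) (.ret (nat_lit 215)) (.ret (nat_lit 216))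
noncomputable def s1576 : FP := .f1 w4 (nat_lit 0xfe023c00000000000000000) (nat_lit 0x1fdc000000000000000000) (nat_lit 8) s1575 s1555
noncomputable def s1577 : FP := .f1 w12 (nat_lit 0xfe023c00000000000000000) (nat_lit 0x1fdc000000000000000000) (nat_lit 7) (.ret (nat_lit 214)) (.ret (nat_lit 215))
noncomputable def s1578 : FP := .f1 w44 (nat_lit 0xfe023c00000000000000000) (nat_lit 0x1fdc000000000000000000) (nat_lit 8) s1577 (.ret (nat_lit 216))
noncomputable def s1580 : FP := .f1 w154 (nat_lit 0xfe023c00000000000000000) (nat_lit 0x1fdc000000000000000000) (nat_lit 8) (.ret (nat_lit 215)) s1546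
noncomputable def s1583 : FP := .f1 w157 (nat_lit 0xfe023c00000000000000000) (nat_lit 0x1fdc000000000000000000) (nat_lit 8) (.ret (nat_lit 215)) (.ret (nat_lit 216))
noncomputable def s1587 : FP := .f1 w154 (nat_lit 0xfe023c00000000000000000) (nat_lit 0x1fdc000000000000000000) (nat_lit 7) (.ret (nat_lit 214)) (.ret (nat_lit 215))
noncomputable def s1590 : FP := .f1 w4 (nat_lit 0xfe023c00000000000000000) (nat_lit 0x1fdc000000000000000000) (nat_lit 8) (.ret (nat_lit 215)) s1575
noncomputable def s1592 : FP := .f1 w4 (nat_lit 0xfe023c00000000000000000) (nat_lit 0x1fdc000000000000000000) (nat_lit 8) (.ret (nat_lit 215)) (.f1 w99 (nat_lit 0x1fdc000000000000000000) (nat_lit 0xfe023c00000000000000000) (nat_lit 8) s1590 (.ret (nat_lit 215)))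
noncomputable def s1595 : FP := .f1 w10 (nat_lit 0xfe023c00000000000000000) (nat_lit 0x1fdc000000000000000000) (nat_lit 9) (.f0 (nat_lit 0xfc254000000000000000000) (nat_lit 0x3dabc00000000000000000) (nat_lit 8) (.ret (nat_lit 215)) (.ret (nat_lit 216))) (.ret (nat_lit 217))
noncomputable def s1603 : FP := .f0 (nat_lit 0xfc254000000000000000000) (nat_lit 0x3dabc00000000000000000) (nat_lit 7) (.ret (nat_lit 214)) (.ret (nat_lit 215))
noncomputable def s1605 : FP := .f1 w4 (nat_lit 0xfe023c00000000000000000) (nat_lit 0x1fdc000000000000000000) (nat_lit 8) (.ret (nat_lit 215)) (.f1 w10 (nat_lit 0xfe023c00000000000000000) (nat_lit 0x1fdc000000000000000000) (nat_lit 8) s1603 (.ret (nat_lit 216)))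
noncomputable def s1609 : FP := .f1 w120 (nat_lit 0xfe023c00000000000000000) (nat_lit 0x1fdc000000000000000000) (nat_lit 7) (.ret (nat_lit 214)) (.ret (nat_lit 215))
noncomputable def s1620 : FP := .f0 (nat_lit 0xfc088000000000000000000) (nat_lit 0x3f77c00000000000000000) (nat_lit 9) (.f1 w158 (nat_lit 0x1fdc000000000000000000) (nat_lit 0xfe023c00000000000000000) (nat_lit 9) (.f1 w4 (nat_lit 0xfe023c00000000000000000) (nat_lit 0x1fdc000000000000000000) (nat_lit 9) (.f0 (nat_lit 0x2fffc00000000000000000) (nat_lit 0xfd000000000000000000000) (nat_lit 8) (.f1 w27 (nat_lit 0xfe023c00000000000000000)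
  (nat_lit 0x1fdc000000000000000000) (nat_lit 8) (.f1 w154 (nat_lit 0xfe023c00000000000000000) (nat_lit 0x1fdc000000000000000000) (nat_lit 6) (.f1 w4 (nat_lit 0x1fdc000000000000000000) (nat_lit 0xfe023c00000000000000000) (nat_lit 5) (.ret (nat_lit 213)) (.ret (nat_lit 212))) (.ret (nat_lit 214))) (.f1 w154 (nat_lit 0xfe023c00000000000000000) (nat_lit 0x1fdc000000000000000000) (nat_lit 8) s1609 (.f1 w120
  (nat_lit 0xfe023c00000000000000000) (nat_lit 0x1fdc000000000000000000) (nat_lit 8) (.ret (nat_lit 215)) (.ret (nat_lit 216))))) (.f1 w4 (nat_lit 0xfe023c00000000000000000) (nat_lit 0x1fdc000000000000000000) (nat_lit 8) (.ret (nat_lit 215)) (.f1 w70 (nat_lit 0xfe023c00000000000000000) (nat_lit 0x1fdc000000000000000000) (nat_lit 8) (.ret (nat_lit 215)) s1580))) (.f1 w4 (nat_lit 0xfe023c00000000000000000)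
  (nat_lit 0x1fdc000000000000000000) (nat_lit 9) (.f1 w28 (nat_lit 0xfe023c00000000000000000) (nat_lit 0x1fdc000000000000000000) (nat_lit 8) (.ret (nat_lit 215)) s1605) (.f1 w28 (nat_lit 0xfe023c00000000000000000) (nat_lit 0x1fdc000000000000000000) (nat_lit 9) (.f1 w44 (nat_lit 0xfe023c00000000000000000) (nat_lit 0x1fdc000000000000000000) (nat_lit 8) (.ret (nat_lit 215)) (.ret (nat_lit 216))) (.f1 w4
  (nat_lit 0x1fdc000000000000000000) (nat_lit 0xfe023c00000000000000000) (nat_lit 9) s1595 (.f0 (nat_lit 0xfc254000000000000000000) (nat_lit 0x3dabc00000000000000000) (nat_lit 8) (.f1 w10 (nat_lit 0xfe023c00000000000000000) (nat_lit 0x1fdc000000000000000000) (nat_lit 8) (.f0 (nat_lit 0xfd000000000000000000000) (nat_lit 0x2fffc00000000000000000) (nat_lit 7) (.ret (nat_lit 215)) (.ret (nat_lit 212)))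
  (.ret (nat_lit 216))) s1575))))) s1592) (.f1 w158 (nat_lit 0x1fdc000000000000000000) (nat_lit 0xfe023c00000000000000000) (nat_lit 8) (.f1 w4 (nat_lit 0xfe023c00000000000000000) (nat_lit 0x1fdc000000000000000000) (nat_lit 8) (.f1 w27 (nat_lit 0xfe023c00000000000000000) (nat_lit 0x1fdc000000000000000000) (nat_lit 8) s1587 (.f1 w154 (nat_lit 0xfe023c00000000000000000) (nat_lit 0x1fdc000000000000000000)
  (nat_lit 8) (.ret (nat_lit 215)) (.f1 w4 (nat_lit 0xfe023c00000000000000000) (nat_lit 0x1fdc000000000000000000) (nat_lit 8) (.f1 w157 (nat_lit 0xfe023c00000000000000000) (nat_lit 0x1fdc000000000000000000) (nat_lit 7) (.ret (nat_lit 214)) (.ret (nat_lit 215))) s1583))) (.f1 w4 (nat_lit 0xfe023c00000000000000000) (nat_lit 0x1fdc000000000000000000) (nat_lit 8) (.f1 w70 (nat_lit 0xfe023c00000000000000000) (nat_lit 0x1fdc000000000000000000) (nat_lit 8) s1577 s1580) (.f1 w28 (nat_lit 0xfe023c00000000000000000) (nat_lit 0x1fdc000000000000000000) (nat_lit 8) s1578 s1576)))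 s1592)
noncomputable def s1631 : FP := .f1 w24 (nat_lit 0xfe023c00000000000000000) (nat_lit 0x1fdc000000000000000000) (nat_lit 8) (.ret (nat_lit 215)) (.f1 w21 (nat_lit 0xfe023c00000000000000000) (nat_lit 0x1fdc000000000000000000) (nat_lit 8) (.ret (nat_lit 215)) (.ret (nat_lit 216)))
noncomputable def s1632 : FP := .f1 w153 (nat_lit 0x1fdc000000000000000000) (nat_lit 0xfe023c00000000000000000) (nat_lit 8) s1631 (.ret (nat_lit 215))
noncomputable def s1658 : FP := .f0 (nat_lit 0xfc088000000000000000000) (nat_lit 0x3f77c00000000000000000) (nat_lit 9) (.f1 w154 (nat_lit 0x1fdc000000000000000000) (nat_lit 0xfe023c00000000000000000) (nat_lit 9) (.f1 w4 (nat_lit 0xfe023c00000000000000000) (nat_lit 0x1fdc000000000000000000) (nat_lit 9) (.f1 w27 (nat_lit 0xfe023c00000000000000000) (nat_lit 0x1fdc000000000000000000) (nat_lit 8) (.f1 w153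
  (nat_lit 0x1fdc000000000000000000) (nat_lit 0xfe023c00000000000000000) (nat_lit 7) (.ret (nat_lit 215)) (.ret (nat_lit 214))) s1632) (.f1 w28 (nat_lit 0x1fdc000000000000000000) (nat_lit 0xfe023c00000000000000000) (nat_lit 9) (.f1 w4 (nat_lit 0xfe023c00000000000000000) (nat_lit 0x1fdc000000000000000000) (nat_lit 9) s1578 (.f1 w4 (nat_lit 0xfe023c00000000000000000) (nat_lit 0x1fdc000000000000000000)
  (nat_lit 9) s1575 s1595)) (.f1 w4 (nat_lit 0x1fdc000000000000000000) (nat_lit 0xfe023c00000000000000000) (nat_lit 8) s1605 (.ret (nat_lit 215))))) (.f1 w29 (nat_lit 0xfe023c00000000000000000) (nat_lit 0x1fdc000000000000000000) (nat_lit 8) s1603 (.f1 w65 (nat_lit 0xfe023c00000000000000000) (nat_lit 0x1fdc000000000000000000) (nat_lit 8) (.ret (nat_lit 215)) (.f1 w28 (nat_lit 0xfe023c00000000000000000)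
  (nat_lit 0x1fdc000000000000000000) (nat_lit 8) (.ret (nat_lit 215)) s1631)))) (.f1 w154 (nat_lit 0x1fdc000000000000000000) (nat_lit 0xfe023c00000000000000000) (nat_lit 8) (.f1 w4 (nat_lit 0xfe023c00000000000000000) (nat_lit 0x1fdc000000000000000000) (nat_lit 8) (.f1 w27 (nat_lit 0xfe023c00000000000000000) (nat_lit 0x1fdc000000000000000000) (nat_lit 8) s1603 s1632) (.f1 w28 (nat_lit 0xfe023c00000000000000000)
  (nat_lit 0x1fdc000000000000000000) (nat_lit 8) (.f1 w52 (nat_lit 0xfe023c00000000000000000) (nat_lit 0x1fdc000000000000000000) (nat_lit 8) s1587 (.f1 w12 (nat_lit 0xfe023c00000000000000000) (nat_lit 0x1fdc000000000000000000) (nat_lit 8) (.ret (nat_lit 215)) (.f1 w160 (nat_lit 0xfe023c00000000000000000) (nat_lit 0x1fdc000000000000000000) (nat_lit 8) (.ret (nat_lit 215)) (.ret (nat_lit 216))))) (.f1 w4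
  (nat_lit 0xfe023c00000000000000000) (nat_lit 0x1fdc000000000000000000) (nat_lit 8) s1578 s1576))) (.f0 (nat_lit 0xfd000000000000000000000) (nat_lit 0x2fffc00000000000000000) (nat_lit 8) (.f1 w4 (nat_lit 0xfe023c00000000000000000) (nat_lit 0x1fdc000000000000000000) (nat_lit 8) (.ret (nat_lit 215)) (.f1 w28 (nat_lit 0xfe023c00000000000000000) (nat_lit 0x1fdc000000000000000000) (nat_lit 8) (.f1 w52
  (nat_lit 0xfe023c00000000000000000) (nat_lit 0x1fdc000000000000000000) (nat_lit 7) (.ret (nat_lit 214)) (.ret (nat_lit 215))) (.f1 w4 (nat_lit 0xfe023c00000000000000000) (nat_lit 0x1fdc000000000000000000) (nat_lit 8) (.f1 w44 (nat_lit 0xfe023c00000000000000000) (nat_lit 0x1fdc000000000000000000) (nat_lit 7) (.f1 w12 (nat_lit 0xfe023c00000000000000000) (nat_lit 0x1fdc000000000000000000) (nat_lit 6)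
  (.ret (nat_lit 211)) (.ret (nat_lit 214))) (.ret (nat_lit 215))) s1590))) (.f1 w29 (nat_lit 0xfe023c00000000000000000) (nat_lit 0x1fdc000000000000000000) (nat_lit 8) (.ret (nat_lit 214)) (.f1 w65 (nat_lit 0xfe023c00000000000000000) (nat_lit 0x1fdc000000000000000000) (nat_lit 8) (.ret (nat_lit 215)) (.f1 w28 (nat_lit 0xfe023c00000000000000000) (nat_lit 0x1fdc000000000000000000) (nat_lit 8) s1567 s1631)))))
noncomputable def s1672 : FP := .f1 w163 (nat_lit 0xfe023c00000000000000000) (nat_lit 0x1fdc000000000000000000) (nat_lit 7) (.ret (nat_lit 214)) (.ret (nat_lit 215))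
noncomputable def s1690 : FP := .f1 w159 (nat_lit 0xfc254000000000000000000) (nat_lit 0x3dabc00000000000000000) (nat_lit 8) (.f1 w22 (nat_lit 0x1fdc000000000000000000) (nat_lit 0xfe023c00000000000000000) (nat_lit 8) (.f1 w18 (nat_lit 0x1fdc000000000000000000) (nat_lit 0xfe023c00000000000000000) (nat_lit 8) (.f1 w24 (nat_lit 0xfe023c00000000000000000) (nat_lit 0x1fdc000000000000000000) (nat_lit 8) (.f1 w28
  (nat_lit 0xfe023c00000000000000000) (nat_lit 0x1fdc000000000000000000) (nat_lit 7) (.ret (nat_lit 214)) (.f1 w24 (nat_lit 0xfe023c00000000000000000) (nat_lit 0x1fdc000000000000000000) (nat_lit 7) (.ret (nat_lit 214)) (.f1 w164 (nat_lit 0xfe023c00000000000000000) (nat_lit 0x1fdc000000000000000000) (nat_lit 7) (.ret (nat_lit 214)) s1672))) (.f1 w28 (nat_lit 0xfe023c00000000000000000) (nat_lit 0x1fdc000000000000000000)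
  (nat_lit 8) (.f1 w24 (nat_lit 0xfe023c00000000000000000) (nat_lit 0x1fdc000000000000000000) (nat_lit 7) (.ret (nat_lit 214)) (.f1 w162 (nat_lit 0xfe023c00000000000000000) (nat_lit 0x1fdc000000000000000000) (nat_lit 7) (.ret (nat_lit 214)) s1672)) (.f1 w24 (nat_lit 0xfe023c00000000000000000) (nat_lit 0x1fdc000000000000000000) (nat_lit 8) (.f1 w155 (nat_lit 0x1fdc000000000000000000) (nat_lit 0xfe023c00000000000000000)
  (nat_lit 7) s1672 (.ret (nat_lit 214))) (.f1 w155 (nat_lit 0xfe023c00000000000000000) (nat_lit 0x1fdc000000000000000000) (nat_lit 8) s1672 (.f1 w163 (nat_lit 0xfe023c00000000000000000) (nat_lit 0x1fdc000000000000000000) (nat_lit 8) (.ret (nat_lit 215)) (.ret (nat_lit 216))))))) (.ret (nat_lit 214))) (.f0 (nat_lit 0xfc254000000000000000000) (nat_lit 0x3dabc00000000000000000) (nat_lit 7) (.ret (nat_lit 214))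
  (.f1 w18 (nat_lit 0x1fdc000000000000000000) (nat_lit 0xfe023c00000000000000000) (nat_lit 7) (.f1 w24 (nat_lit 0xfe023c00000000000000000) (nat_lit 0x1fdc000000000000000000) (nat_lit 7) (.ret (nat_lit 214)) (.f1 w28 (nat_lit 0xfe023c00000000000000000) (nat_lit 0x1fdc000000000000000000) (nat_lit 7) (.ret (nat_lit 214)) (.f1 w165 (nat_lit 0xfe023c00000000000000000) (nat_lit 0x1fdc000000000000000000)
  (nat_lit 7) (.ret (nat_lit 214)) s1672))) (.ret (nat_lit 214))))) (.f1 w22 (nat_lit 0x1fdc000000000000000000) (nat_lit 0xfe023c00000000000000000) (nat_lit 6) (.f1 w18 (nat_lit 0x1fdc000000000000000000) (nat_lit 0xfe023c00000000000000000) (nat_lit 6) (.ret (nat_lit 214)) (.f1 w161 (nat_lit 0xfe023c00000000000000000) (nat_lit 0x1fdc000000000000000000) (nat_lit 6) (.ret (nat_lit 211)) (.ret (nat_lit 214))))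
  (.f0 (nat_lit 0x3dabc00000000000000000) (nat_lit 0xfc254000000000000000000) (nat_lit 6) (.f1 w18 (nat_lit 0x1fdc000000000000000000) (nat_lit 0xfe023c00000000000000000) (nat_lit 6) (.f1 w24 (nat_lit 0x1fdc000000000000000000) (nat_lit 0xfe023c00000000000000000) (nat_lit 6) (.f1 w28 (nat_lit 0xfe023c00000000000000000) (nat_lit 0x1fdc000000000000000000) (nat_lit 6) (.f1 w24 (nat_lit 0x1fdc000000000000000000)
  (nat_lit 0xfe023c00000000000000000) (nat_lit 4) (.f1 w162 (nat_lit 0xfe023c00000000000000000) (nat_lit 0x1fdc000000000000000000) (nat_lit 4) (.ret (nat_lit 211)) (.ret (nat_lit 212))) (.ret (nat_lit 211))) (.ret (nat_lit 214))) (.ret (nat_lit 211))) (.f1 w24 (nat_lit 0x1fdc000000000000000000) (nat_lit 0xfe023c00000000000000000) (nat_lit 4) (.f1 w28 (nat_lit 0xfe023c00000000000000000) (nat_lit 0x1fdc000000000000000000) (nat_lit 4) (.ret (nat_lit 211)) (.ret (nat_lit 212))) (.ret (nat_lit 211)))) (.ret (nat_lit 211))))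
noncomputable def s1695 : FP := .f1 w24 (nat_lit 0xfc000800000000000000000) (nat_lit 0x3fff400000000000000000) (nat_lit 9) (.f0 (nat_lit 0x3ffec00000000000000000) (nat_lit 0xfc001000000000000000000) (nat_lit 9) (.v1 w14 (nat_lit 0x3e0000000000000000) (nat_lit 0x10000000000000000) (nat_lit 9) (.f1 w7 (nat_lit 0xfc000800000000000000000) (nat_lit 0x3fff400000000000000000) (nat_lit 9) (.f0 (nat_lit 0x3ffec00000000000000000)
  (nat_lit 0xfc001000000000000000000) (nat_lit 8) s1690 (.ret (nat_lit 0))) (.f1 w156 (nat_lit 0xfc254000000000000000000) (nat_lit 0x3dabc00000000000000000) (nat_lit 9) s1658 (.ret (nat_lit 214)))) (.ret (nat_lit 0))) (.ret (nat_lit 0))) (.v1 w14 (nat_lit 0x3e0000000000000000) (nat_lit 0x10000000000000000) (nat_lit 9) (.f1 w30 (nat_lit 0xfc000800000000000000000) (nat_lit 0x3fff400000000000000000) (nat_lit 9)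
  (.f0 (nat_lit 0x3ffec00000000000000000) (nat_lit 0xfc001000000000000000000) (nat_lit 9) (.f1 w159 (nat_lit 0xfc254000000000000000000) (nat_lit 0x3dabc00000000000000000) (nat_lit 9) s1620 (.ret (nat_lit 214))) (.ret (nat_lit 0))) (.f1 w156 (nat_lit 0xfc254000000000000000000) (nat_lit 0x3dabc00000000000000000) (nat_lit 9) (.f0 (nat_lit 0xfc088000000000000000000) (nat_lit 0x3f77c00000000000000000) (nat_lit 9)
  (.f1 w154 (nat_lit 0x1fdc000000000000000000) (nat_lit 0xfe023c00000000000000000) (nat_lit 9) (.f1 w4 (nat_lit 0xfe023c00000000000000000) (nat_lit 0x1fdc000000000000000000) (nat_lit 9) (.f0 (nat_lit 0xfc254000000000000000000) (nat_lit 0x3dabc00000000000000000) (nat_lit 9) s1548 (.f1 w28 (nat_lit 0xfe023c00000000000000000) (nat_lit 0x1fdc000000000000000000) (nat_lit 9) (.ret (nat_lit 215)) s1558))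
  (.f1 w28 (nat_lit 0xfe023c00000000000000000) (nat_lit 0x1fdc000000000000000000) (nat_lit 9) (.f0 (nat_lit 0xfc254000000000000000000) (nat_lit 0x3dabc00000000000000000) (nat_lit 9) s1544 s1558) (.f1 w4 (nat_lit 0xfe023c00000000000000000) (nat_lit 0x1fdc000000000000000000) (nat_lit 9) (.f0 (nat_lit 0xfc254000000000000000000) (nat_lit 0x3dabc00000000000000000) (nat_lit 8) s1555 (.ret (nat_lit 216))) s1554)))
  (.f0 (nat_lit 0xfc254000000000000000000) (nat_lit 0x3dabc00000000000000000) (nat_lit 8) (.f1 w29 (nat_lit 0xfc254000000000000000000) (nat_lit 0x3dabc00000000000000000) (nat_lit 8) (.f1 w65 (nat_lit 0xfe023c00000000000000000) (nat_lit 0x1fdc000000000000000000) (nat_lit 7) (.f1 w28 (nat_lit 0xfe023c00000000000000000) (nat_lit 0x1fdc000000000000000000) (nat_lit 7) s1567 (.ret (nat_lit 215))) (.ret (nat_lit 215)))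
  (.f1 w65 (nat_lit 0xfe023c00000000000000000) (nat_lit 0x1fdc000000000000000000) (nat_lit 8) (.ret (nat_lit 215)) s1550)) (.f1 w4 (nat_lit 0xfe023c00000000000000000) (nat_lit 0x1fdc000000000000000000) (nat_lit 8) (.ret (nat_lit 215)) (.f1 w155 (nat_lit 0xfe023c00000000000000000) (nat_lit 0x1fdc000000000000000000) (nat_lit 8) (.ret (nat_lit 215)) (.ret (nat_lit 216)))))) (.f1 w154 (nat_lit 0x1fdc000000000000000000)
  (nat_lit 0xfe023c00000000000000000) (nat_lit 8) (.f1 w4 (nat_lit 0xfe023c00000000000000000) (nat_lit 0x1fdc000000000000000000) (nat_lit 8) s1548 (.f1 w28 (nat_lit 0xfe023c00000000000000000) (nat_lit 0x1fdc000000000000000000) (nat_lit 8) s1544 (.ret (nat_lit 216)))) (.f1 w4 (nat_lit 0xfe023c00000000000000000) (nat_lit 0x1fdc000000000000000000) (nat_lit 8) (.ret (nat_lit 215)) s1550))) (.ret (nat_lit 214)))) (.ret (nat_lit 0)))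
noncomputable def s1696 : FP := .f1 w24 (nat_lit 0x3ffc000000000000000000) (nat_lit 0xfc003c00000000000000000) (nat_lit 3) (.ret (nat_lit 0)) (.ret (nat_lit 211))
noncomputable def s1716 : FP := .v1 w25 (nat_lit 0x10000000000000000) (nat_lit 0x3e0000000000000000) (nat_lit 9) (.v0 (nat_lit 0x3d0000000000000000) (nat_lit 0x20000000000000000) (nat_lit 9) (.f1 w4 (nat_lit 0x3ffc000000000000000000) (nat_lit 0xfc003c00000000000000000) (nat_lit 9) s1695 s1696) (.f1 w27 (nat_lit 0xfc003c00000000000000000) (nat_lit 0x3ffc000000000000000000) (nat_lit 6) (.v1 w170 (nat_lit 0x370000000000000000)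
  (nat_lit 0x80000000000000000) (nat_lit 6) (.f1 w1 (nat_lit 0x3fff800000000000000000) (nat_lit 0xfc000400000000000000000) (nat_lit 6) (.f1 w65 (nat_lit 0x3dbfc00000000000000000) (nat_lit 0xfc240000000000000000000) (nat_lit 6) (.f1 w24 (nat_lit 0x1fdc000000000000000000) (nat_lit 0xfe023c00000000000000000) (nat_lit 6) (.f1 w4 (nat_lit 0x1fdc000000000000000000) (nat_lit 0xfe023c00000000000000000) (nat_lit 6)
  (.v1 w166 (nat_lit 0x10000000000000000) (nat_lit 0x3e0000000000000000) (nat_lit 6) (.v1 w25 (nat_lit 0x3e0000000000000000) (nat_lit 0x10000000000000000) (nat_lit 6) (.f1 w27 (nat_lit 0x3fff400000000000000000) (nat_lit 0xfc000800000000000000000) (nat_lit 6) (.v1 w14 (nat_lit 0x3e0000000000000000) (nat_lit 0x10000000000000000) (nat_lit 6) s1456 (.ret (nat_lit 0))) s1460) (.ret (nat_lit 0))) s1460)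
  (.ret (nat_lit 195))) (.ret (nat_lit 195))) (.f1 w168 (nat_lit 0x3dabc00000000000000000) (nat_lit 0xfc254000000000000000000) (nat_lit 6) (.f1 w17 (nat_lit 0x1fdc000000000000000000) (nat_lit 0xfe023c00000000000000000) (nat_lit 6) (.f1 w29 (nat_lit 0xfc023c00000000000000000) (nat_lit 0x3fdc000000000000000000) (nat_lit 6) s1504 (.ret (nat_lit 198))) (.ret (nat_lit 195))) (.f1 w167 (nat_lit 0xfc023c00000000000000000)
  (nat_lit 0x3fdc000000000000000000) (nat_lit 6) s1529 (.ret (nat_lit 198))))) (.f1 w75 (nat_lit 0x3fff800000000000000000) (nat_lit 0xfc000400000000000000000) (nat_lit 6) (.f1 w169 (nat_lit 0x3dabc00000000000000000) (nat_lit 0xfc254000000000000000000) (nat_lit 6) (.ret (nat_lit 195)) (.f1 w21 (nat_lit 0xfe023c00000000000000000) (nat_lit 0x1fdc000000000000000000) (nat_lit 6) s1531 s1530)) (.ret (nat_lit 0))))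
  (.ret (nat_lit 0))) (.ret (nat_lit 0)))) (.f1 w27 (nat_lit 0xfc003c00000000000000000) (nat_lit 0x3ffc000000000000000000) (nat_lit 6) (.f0 (nat_lit 0xfc240000000000000000000) (nat_lit 0x3dbfc00000000000000000) (nat_lit 6) s1538 (.f1 w24 (nat_lit 0x1fdc000000000000000000) (nat_lit 0xfe023c00000000000000000) (nat_lit 6) (.f1 w4 (nat_lit 0x1fdc000000000000000000) (nat_lit 0xfe023c00000000000000000) (nat_lit 6) s1484
  (.f1 w4 (nat_lit 0xfe023c00000000000000000) (nat_lit 0x1fdc000000000000000000) (nat_lit 4) (.f1 w4 (nat_lit 0xfc254000000000000000000) (nat_lit 0x3dabc00000000000000000) (nat_lit 3) (.ret (nat_lit 195)) (.ret (nat_lit 193))) (.f1 w4 (nat_lit 0xfc254000000000000000000) (nat_lit 0x3dabc00000000000000000) (nat_lit 4) (.f0 (nat_lit 0x3f77c00000000000000000) (nat_lit 0xfc088000000000000000000) (nat_lit 4)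
  (.ret (nat_lit 195)) (.f1 w37 (nat_lit 0xfc254000000000000000000) (nat_lit 0x3dabc00000000000000000) (nat_lit 4) (.ret (nat_lit 195)) (.ret (nat_lit 196)))) (.ret (nat_lit 195))))) (.f1 w4 (nat_lit 0x1fdc000000000000000000) (nat_lit 0xfe023c00000000000000000) (nat_lit 3) (.f1 w4 (nat_lit 0x1fdc000000000000000000) (nat_lit 0xfe023c00000000000000000) (nat_lit 3) (.ret (nat_lit 195)) (.ret (nat_lit 194))) (.f1 w24 (nat_lit 0xfc254000000000000000000) (nat_lit 0x3dabc00000000000000000) (nat_lit 3) (.ret (nat_lit 195)) (.ret (nat_lit 194)))))) (.ret (nat_lit 0)))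
noncomputable def s1752 : FP := .v0 (nat_lit 0x3e0000000000000000) (nat_lit 0x10000000000000000) (nat_lit 9) (.v1 w6 (nat_lit 0x3e0000000000000000) (nat_lit 0x10000000000000000) (nat_lit 9) s1436 (.v0 (nat_lit 0x3d0000000000000000) (nat_lit 0x20000000000000000) (nat_lit 9) s1716 (.v1 w25 (nat_lit 0x20000000000000000) (nat_lit 0x3d0000000000000000) (nat_lit 6) (.ret (nat_lit 0)) (.f1 w4 (nat_lit 0xfc003c00000000000000000)
  (nat_lit 0x3ffc000000000000000000) (nat_lit 6) (.v1 w172 (nat_lit 0x370000000000000000) (nat_lit 0x80000000000000000) (nat_lit 6) (.f1 w1 (nat_lit 0xfc000400000000000000000) (nat_lit 0x3fff800000000000000000) (nat_lit 6) (.f1 w75 (nat_lit 0x3fff800000000000000000) (nat_lit 0xfc000400000000000000000) (nat_lit 6) (.f1 w27 (nat_lit 0x3dbfc00000000000000000) (nat_lit 0xfc240000000000000000000) (nat_lit 6)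
  (.f1 w37 (nat_lit 0x1fdc000000000000000000) (nat_lit 0xfe023c00000000000000000) (nat_lit 6) (.f1 w4 (nat_lit 0x1fdc000000000000000000) (nat_lit 0xfe023c00000000000000000) (nat_lit 6) (.v1 w171 (nat_lit 0x3d0000000000000000) (nat_lit 0x20000000000000000) (nat_lit 6) (.f0 (nat_lit 0x3fff400000000000000000) (nat_lit 0xfc000800000000000000000) (nat_lit 6) (.v1 w9 (nat_lit 0x3e0000000000000000) (nat_lit 0x10000000000000000)
  (nat_lit 6) s305 (.ret (nat_lit 0))) s318) s318) (.ret (nat_lit 51))) (.ret (nat_lit 51))) s367) (.ret (nat_lit 0))) (.f1 w65 (nat_lit 0xfc240000000000000000000) (nat_lit 0x3dbfc00000000000000000) (nat_lit 3) s367 (.ret (nat_lit 51)))) (.ret (nat_lit 0))) (.ret (nat_lit 0)))))) (.v0 (nat_lit 0x20000000000000000) (nat_lit 0x3d0000000000000000) (nat_lit 6) (.v1 w9 (nat_lit 0x3d0000000000000000) (nat_lit 0x20000000000000000)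
  (nat_lit 6) (.f0 (nat_lit 0x3ffc000000000000000000) (nat_lit 0xfc003c00000000000000000) (nat_lit 6) (.f0 (nat_lit 0x3fff400000000000000000) (nat_lit 0xfc000800000000000000000) (nat_lit 6) (.v1 w14 (nat_lit 0x3e0000000000000000) (nat_lit 0x10000000000000000) (nat_lit 6) (.v1 w173 (nat_lit 0x370000000000000000) (nat_lit 0x80000000000000000) (nat_lit 6) (.f1 w40 (nat_lit 0x3fff800000000000000000) (nat_lit 0xfc000400000000000000000)
  (nat_lit 6) (.f1 w4 (nat_lit 0x3dabc00000000000000000) (nat_lit 0xfc254000000000000000000) (nat_lit 6) (.f1 w4 (nat_lit 0x1fdc000000000000000000) (nat_lit 0xfe023c00000000000000000) (nat_lit 6) s964 s975) (.f1 w4 (nat_lit 0x1fdc000000000000000000) (nat_lit 0xfe023c00000000000000000) (nat_lit 6) s1014 s1025)) (.ret (nat_lit 130))) (.ret (nat_lit 130))) (.ret (nat_lit 0))) (.f0 (nat_lit 0x3ffec00000000000000000)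
  (nat_lit 0xfc001000000000000000000) (nat_lit 6) (.v1 w14 (nat_lit 0x3e0000000000000000) (nat_lit 0x10000000000000000) (nat_lit 6) (.v1 w174 (nat_lit 0x370000000000000000) (nat_lit 0x80000000000000000) (nat_lit 6) (.f1 w40 (nat_lit 0x3fff800000000000000000) (nat_lit 0xfc000400000000000000000) (nat_lit 6) (.f1 w116 (nat_lit 0xfc254000000000000000000) (nat_lit 0x3dabc00000000000000000) (nat_lit 6) (.f0
  (nat_lit 0x3f77c00000000000000000) (nat_lit 0xfc088000000000000000000) (nat_lit 6) (.f1 w4 (nat_lit 0xfe023c00000000000000000) (nat_lit 0x1fdc000000000000000000) (nat_lit 6) (.ret (nat_lit 131)) s1229) (.f1 w4 (nat_lit 0x1fdc000000000000000000) (nat_lit 0xfe023c00000000000000000) (nat_lit 6) s1149 s1237)) (.f1 w4 (nat_lit 0x1fdc000000000000000000) (nat_lit 0xfe023c00000000000000000) (nat_lit 6) s1200 s1201)) (.ret (nat_lit 0))) (.ret (nat_lit 0))) (.ret (nat_lit 0))) (.ret (nat_lit 0)))) (.v1 w170 (nat_lit 0x370000000000000000) (nat_lit 0x80000000000000000) (nat_lit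 3) (.f1 w40 (nat_lit 0x3fff800000000000000000) (nat_lit 0xfc000400000000000000000) (nat_lit 3) (.ret (nat_lit 131)) (.ret (nat_lit 0))) (.ret (nat_lit 0)))) (.ret (nat_lit 0))) (.ret (nat_lit 0)))
noncomputable def s1755 : FP := .f1 w4 (nat_lit 0xfe023c00000000000000000) (nat_lit 0x1fdc000000000000000000) (nat_lit 6) (.ret (nat_lit 51)) (.ret (nat_lit 54))
noncomputable def s1760 : FP := .f1 w176 (nat_lit 0xfe023c00000000000000000) (nat_lit 0x1fdc000000000000000000) (nat_lit 6) (.ret (nat_lit 51)) (.ret (nat_lit 54))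
noncomputable def s1782 : FP := .f1 w175 (nat_lit 0xfe023c00000000000000000) (nat_lit 0x1fdc000000000000000000) (nat_lit 6) (.f0 (nat_lit 0xfc254000000000000000000) (nat_lit 0x3dabc00000000000000000) (nat_lit 6) (.ret (nat_lit 67)) (.f1 w37 (nat_lit 0xfe023c00000000000000000) (nat_lit 0x1fdc000000000000000000) (nat_lit 6) (.f0 (nat_lit 0xfc254000000000000000000) (nat_lit 0x3dabc00000000000000000) (nat_lit 4) (.ret (nat_lit 67)) s514) (.f1 w4 (nat_lit 0xfe023c00000000000000000) (nat_lit 0x1fdc000000000000000000) (nat_lit 6) s458 (.ret (nat_lit 70))))) (.ret (nat_lit 70))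
noncomputable def s1785 : FP := .f0 (nat_lit 0xfc254000000000000000000) (nat_lit 0x3dabc00000000000000000) (nat_lit 6) (.ret (nat_lit 67)) (.f1 w65 (nat_lit 0x1fdc000000000000000000) (nat_lit 0xfe023c00000000000000000) (nat_lit 6) s396 (.f1 w4 (nat_lit 0xfe023c00000000000000000) (nat_lit 0x1fdc000000000000000000) (nat_lit 4) (.ret (nat_lit 66)) s930))
noncomputable def s1788 : FP := .f1 w176 (nat_lit 0xfe023c00000000000000000) (nat_lit 0x1fdc000000000000000000) (nat_lit 6) (.ret (nat_lit 67)) (.ret (nat_lit 70))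
noncomputable def s1800 : FP := .f1 w18 (nat_lit 0xfe023c00000000000000000) (nat_lit 0x1fdc000000000000000000) (nat_lit 6) (.ret (nat_lit 67)) (.ret (nat_lit 70))
noncomputable def s1813 : FP := .f1 w1 (nat_lit 0x3fff800000000000000000) (nat_lit 0xfc000400000000000000000) (nat_lit 6) (.f1 w0 (nat_lit 0xfc254000000000000000000) (nat_lit 0x3dabc00000000000000000) (nat_lit 6) (.f1 w24 (nat_lit 0x1fdc000000000000000000) (nat_lit 0xfe023c00000000000000000) (nat_lit 6) (.f1 w175 (nat_lit 0xfe023c00000000000000000) (nat_lit 0x1fdc000000000000000000) (nat_lit 6) (.f0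
  (nat_lit 0x2fffc00000000000000000) (nat_lit 0xfd000000000000000000000) (nat_lit 6) (.ret (nat_lit 67)) (.f1 w176 (nat_lit 0xfe023c00000000000000000) (nat_lit 0x1fdc000000000000000000) (nat_lit 6) (.ret (nat_lit 67)) (.f1 w30 (nat_lit 0xfe023c00000000000000000) (nat_lit 0x1fdc000000000000000000) (nat_lit 6) (.ret (nat_lit 67)) s396))) s1788) (.f1 w175 (nat_lit 0xfe023c00000000000000000) (nat_lit 0x1fdc000000000000000000)
  (nat_lit 6) (.ret (nat_lit 67)) s1788)) (.f1 w4 (nat_lit 0x1fdc000000000000000000) (nat_lit 0xfe023c00000000000000000) (nat_lit 6) (.f1 w4 (nat_lit 0x1fdc000000000000000000) (nat_lit 0xfe023c00000000000000000) (nat_lit 6) s1782 s1785) (.ret (nat_lit 67)))) (.f1 w1 (nat_lit 0x3fff800000000000000000) (nat_lit 0xfc000400000000000000000) (nat_lit 6) (.f1 w178 (nat_lit 0x3dabc00000000000000000) (nat_lit 0xfc254000000000000000000)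
  (nat_lit 6) (.f1 w21 (nat_lit 0x1fdc000000000000000000) (nat_lit 0xfe023c00000000000000000) (nat_lit 6) (.f1 w24 (nat_lit 0xfe023c00000000000000000) (nat_lit 0x1fdc000000000000000000) (nat_lit 6) s1785 s1782) (.ret (nat_lit 67))) (.f1 w4 (nat_lit 0x1fdc000000000000000000) (nat_lit 0xfe023c00000000000000000) (nat_lit 6) (.f1 w175 (nat_lit 0x1fdc000000000000000000) (nat_lit 0xfe023c00000000000000000)
  (nat_lit 6) (.f1 w18 (nat_lit 0xfe023c00000000000000000) (nat_lit 0x1fdc000000000000000000) (nat_lit 6) (.f0 (nat_lit 0xfd000000000000000000000) (nat_lit 0x2fffc00000000000000000) (nat_lit 5) (.ret (nat_lit 69)) (.ret (nat_lit 67))) (.ret (nat_lit 70))) s1800) (.f0 (nat_lit 0xfd000000000000000000000) (nat_lit 0x2fffc00000000000000000) (nat_lit 6) (.f1 w175 (nat_lit 0x1fdc000000000000000000) (nat_lit 0xfe023c00000000000000000)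
  (nat_lit 6) s1800 (.ret (nat_lit 67))) (.ret (nat_lit 67))))) (.f1 w37 (nat_lit 0xfc254000000000000000000) (nat_lit 0x3dabc00000000000000000) (nat_lit 6) (.f1 w21 (nat_lit 0xfe023c00000000000000000) (nat_lit 0x1fdc000000000000000000) (nat_lit 6) (.ret (nat_lit 67)) (.f1 w24 (nat_lit 0xfe023c00000000000000000) (nat_lit 0x1fdc000000000000000000) (nat_lit 6) (.ret (nat_lit 67)) s396)) (.f1 w37 (nat_lit 0x1fdc000000000000000000) (nat_lit 0xfe023c00000000000000000) (nat_lit 6) (.f1 w4 (nat_lit 0x1fdc000000000000000000) (nat_lit 0xfe023c00000000000000000) (nat_lit 6) (.f1 w24 (nat_lit 0x1fdc000000000000000000) (nat_lit 0xfe023c00000000000000000) (nat_lit 6) s404 (.ret (nat_lit 67))) (.ret (nat_lit 67))) s422)))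
noncomputable def s1816 : FP := .f1 w24 (nat_lit 0x1fdc000000000000000000) (nat_lit 0xfe023c00000000000000000) (nat_lit 3) (.ret (nat_lit 67)) s398
noncomputable def s1825 : FP := .v1 w4 (nat_lit 0x3e0000000000000000) (nat_lit 0x10000000000000000) (nat_lit 6) (.v1 w2 (nat_lit 0x40000000000000000) (nat_lit 0x3b0000000000000000) (nat_lit 6) (.v0 (nat_lit 0x80000000000000000) (nat_lit 0x370000000000000000) (nat_lit 6) (.ret (nat_lit 0)) (.f1 w1 (nat_lit 0x3fff800000000000000000) (nat_lit 0xfc000400000000000000000) (nat_lit 6) (.f1 w23 (nat_lit 0x3fff800000000000000000)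
  (nat_lit 0xfc000400000000000000000) (nat_lit 6) (.f1 w177 (nat_lit 0xfe023c00000000000000000) (nat_lit 0x1fdc000000000000000000) (nat_lit 6) (.ret (nat_lit 51)) s1755) (.ret (nat_lit 0))) (.ret (nat_lit 0)))) (.f1 w1 (nat_lit 0xfc000400000000000000000) (nat_lit 0x3fff800000000000000000) (nat_lit 6) (.f1 w1 (nat_lit 0xfc000400000000000000000) (nat_lit 0x3fff800000000000000000) (nat_lit 6) (.f1 w4
  (nat_lit 0x1fdc000000000000000000) (nat_lit 0xfe023c00000000000000000) (nat_lit 6) (.f1 w24 (nat_lit 0xfe023c00000000000000000) (nat_lit 0x1fdc000000000000000000) (nat_lit 6) s350 (.f1 w4 (nat_lit 0x1fdc000000000000000000) (nat_lit 0xfe023c00000000000000000) (nat_lit 6) s1755 (.ret (nat_lit 51)))) (.ret (nat_lit 51))) (.f1 w39 (nat_lit 0xfc254000000000000000000) (nat_lit 0x3dabc00000000000000000)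
  (nat_lit 6) (.f1 w24 (nat_lit 0x1fdc000000000000000000) (nat_lit 0xfe023c00000000000000000) (nat_lit 6) (.f1 w175 (nat_lit 0xfe023c00000000000000000) (nat_lit 0x1fdc000000000000000000) (nat_lit 6) (.f0 (nat_lit 0xfd000000000000000000000) (nat_lit 0x2fffc00000000000000000) (nat_lit 6) (.f1 w176 (nat_lit 0xfe023c00000000000000000) (nat_lit 0x1fdc000000000000000000) (nat_lit 6) (.ret (nat_lit 51)) (.f1 w30
  (nat_lit 0xfe023c00000000000000000) (nat_lit 0x1fdc000000000000000000) (nat_lit 6) (.ret (nat_lit 51)) s1755)) (.ret (nat_lit 51))) s1760) (.f1 w175 (nat_lit 0xfe023c00000000000000000) (nat_lit 0x1fdc000000000000000000) (nat_lit 6) (.ret (nat_lit 51)) s1760)) (.f1 w4 (nat_lit 0x1fdc000000000000000000) (nat_lit 0xfe023c00000000000000000) (nat_lit 6) (.f1 w4 (nat_lit 0x1fdc000000000000000000) (nat_lit 0xfe023c00000000000000000)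
  (nat_lit 6) (.f1 w175 (nat_lit 0xfe023c00000000000000000) (nat_lit 0x1fdc000000000000000000) (nat_lit 6) (.f0 (nat_lit 0xfc254000000000000000000) (nat_lit 0x3dabc00000000000000000) (nat_lit 6) (.ret (nat_lit 51)) (.ret (nat_lit 54))) (.ret (nat_lit 54))) (.f0 (nat_lit 0xfc254000000000000000000) (nat_lit 0x3dabc00000000000000000) (nat_lit 6) (.ret (nat_lit 51)) (.f1 w65 (nat_lit 0x1fdc000000000000000000)
  (nat_lit 0xfe023c00000000000000000) (nat_lit 6) s1755 (.ret (nat_lit 0))))) (.ret (nat_lit 51))))) (.ret (nat_lit 0)))) (.v1 w1 (nat_lit 0x40000000000000000) (nat_lit 0x3b0000000000000000) (nat_lit 6) (.v0 (nat_lit 0x80000000000000000) (nat_lit 0x370000000000000000) (nat_lit 6) (.ret (nat_lit 0)) (.f1 w1 (nat_lit 0x3fff800000000000000000) (nat_lit 0xfc000400000000000000000) (nat_lit 6) (.f1 w23 (nat_lit 0x3fff800000000000000000)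
  (nat_lit 0xfc000400000000000000000) (nat_lit 6) (.f1 w37 (nat_lit 0x3dabc00000000000000000) (nat_lit 0xfc254000000000000000000) (nat_lit 6) (.f1 w107 (nat_lit 0xfe023c00000000000000000) (nat_lit 0x1fdc000000000000000000) (nat_lit 6) s441 (.f1 w24 (nat_lit 0xfe023c00000000000000000) (nat_lit 0x1fdc000000000000000000) (nat_lit 6) s403 (.ret (nat_lit 70)))) (.f0 (nat_lit 0x3f77c00000000000000000) (nat_lit 0xfc088000000000000000000) (nat_lit 6) (.f1 w107 (nat_lit 0xfe023c00000000000000000) (nat_lit 0x1fdc000000000000000000) (nat_lit 6) s1816 s409) (.f1 w107 (nat_lit 0xfe023c00000000000000000) (nat_lit 0x1fdc000000000000000000) (nat_lit 6) s1816 s473))) (.ret (nat_lit 0))) (.ret (nat_lit 0)))) s1813)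
noncomputable def s1833 : FP := .f1 w4 (nat_lit 0xfe023c00000000000000000) (nat_lit 0x1fdc000000000000000000) (nat_lit 6) (.ret (nat_lit 195)) (.ret (nat_lit 198))
noncomputable def s1843 : FP := .f0 (nat_lit 0xfc254000000000000000000) (nat_lit 0x3dabc00000000000000000) (nat_lit 3) s1478 (.ret (nat_lit 195))
noncomputable def s1845 : FP := .f0 (nat_lit 0xfc254000000000000000000) (nat_lit 0x3dabc00000000000000000) (nat_lit 2) (.ret (nat_lit 193)) (.ret (nat_lit 194))
noncomputable def s1858 : FP := .f1 w1 (nat_lit 0x3fff800000000000000000) (nat_lit 0xfc000400000000000000000) (nat_lit 6) (.v1 w9 (nat_lit 0x3e0000000000000000) (nat_lit 0x10000000000000000) (nat_lit 6) (.f1 w63 (nat_lit 0xfc000400000000000000000) (nat_lit 0x3fff800000000000000000) (nat_lit 6) (.f1 w21 (nat_lit 0x3dabc00000000000000000) (nat_lit 0xfc254000000000000000000) (nat_lit 6) (.f1 w21 (nat_lit 0x1fdc000000000000000000)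
  (nat_lit 0xfe023c00000000000000000) (nat_lit 6) (.f1 w24 (nat_lit 0xfe023c00000000000000000) (nat_lit 0x1fdc000000000000000000) (nat_lit 6) (.f0 (nat_lit 0xfc254000000000000000000) (nat_lit 0x3dabc00000000000000000) (nat_lit 6) (.ret (nat_lit 195)) (.f1 w62 (nat_lit 0xfe023c00000000000000000) (nat_lit 0x1fdc000000000000000000) (nat_lit 6) (.ret (nat_lit 195)) (.ret (nat_lit 198)))) (.ret (nat_lit 198)))
  (.ret (nat_lit 195))) (.f1 w4 (nat_lit 0xfe023c00000000000000000) (nat_lit 0x1fdc000000000000000000) (nat_lit 6) (.f0 (nat_lit 0xfc254000000000000000000) (nat_lit 0x3dabc00000000000000000) (nat_lit 6) (.f0 (nat_lit 0xfd000000000000000000000) (nat_lit 0x2fffc00000000000000000) (nat_lit 6) (.f1 w175 (nat_lit 0x1fdc000000000000000000) (nat_lit 0xfe023c00000000000000000) (nat_lit 6) (.f1 w18 (nat_lit 0xfe023c00000000000000000)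
  (nat_lit 0x1fdc000000000000000000) (nat_lit 6) (.ret (nat_lit 195)) (.f1 w71 (nat_lit 0xfe023c00000000000000000) (nat_lit 0x1fdc000000000000000000) (nat_lit 6) (.ret (nat_lit 195)) s1833)) (.ret (nat_lit 195))) (.ret (nat_lit 195))) (.f1 w175 (nat_lit 0x1fdc000000000000000000) (nat_lit 0xfe023c00000000000000000) (nat_lit 6) (.f1 w18 (nat_lit 0xfe023c00000000000000000) (nat_lit 0x1fdc000000000000000000)
  (nat_lit 6) (.ret (nat_lit 195)) (.ret (nat_lit 198))) (.ret (nat_lit 195)))) (.f1 w179 (nat_lit 0xfe023c00000000000000000) (nat_lit 0x1fdc000000000000000000) (nat_lit 6) (.ret (nat_lit 195)) (.ret (nat_lit 198))))) (.ret (nat_lit 0))) (.ret (nat_lit 0))) (.f1 w1 (nat_lit 0xfc000400000000000000000) (nat_lit 0x3fff800000000000000000) (nat_lit 6) (.f1 w21 (nat_lit 0xfc254000000000000000000) (nat_lit 0x3dabc00000000000000000)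
  (nat_lit 6) (.f1 w24 (nat_lit 0x1fdc000000000000000000) (nat_lit 0xfe023c00000000000000000) (nat_lit 6) (.f1 w4 (nat_lit 0xfe023c00000000000000000) (nat_lit 0x1fdc000000000000000000) (nat_lit 6) (.ret (nat_lit 195)) (.f1 w4 (nat_lit 0xfe023c00000000000000000) (nat_lit 0x1fdc000000000000000000) (nat_lit 6) (.ret (nat_lit 195)) (.f1 w24 (nat_lit 0xfe023c00000000000000000) (nat_lit 0x1fdc000000000000000000)
  (nat_lit 6) (.ret (nat_lit 195)) (.ret (nat_lit 198))))) (.ret (nat_lit 195))) (.f1 w24 (nat_lit 0x1fdc000000000000000000) (nat_lit 0xfe023c00000000000000000) (nat_lit 6) (.f1 w4 (nat_lit 0x1fdc000000000000000000) (nat_lit 0xfe023c00000000000000000) (nat_lit 6) (.f1 w4 (nat_lit 0x1fdc000000000000000000) (nat_lit 0xfe023c00000000000000000) (nat_lit 6) (.f1 w24 (nat_lit 0xfe023c00000000000000000) (nat_lit 0x1fdc000000000000000000)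
  (nat_lit 6) s1843 (.ret (nat_lit 198))) (.f1 w24 (nat_lit 0xfe023c00000000000000000) (nat_lit 0x1fdc000000000000000000) (nat_lit 3) s1845 (.ret (nat_lit 195)))) (.f1 w25 (nat_lit 0xfe023c00000000000000000) (nat_lit 0x1fdc000000000000000000) (nat_lit 3) s1845 (.ret (nat_lit 195)))) (.f1 w107 (nat_lit 0xfe023c00000000000000000) (nat_lit 0x1fdc000000000000000000) (nat_lit 3) s1845 (.ret (nat_lit 195))))) (.ret (nat_lit 0)))
noncomputable def s1878 : FP := .f0 (nat_lit 0xfc254000000000000000000) (nat_lit 0x3dabc00000000000000000) (nat_lit 2) (.ret (nat_lit 225)) (.ret (nat_lit 226))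
noncomputable def s1889 : FP := .v0 (nat_lit 0x3e0000000000000000) (nat_lit 0x10000000000000000) (nat_lit 6) (.v1 w6 (nat_lit 0x3e0000000000000000) (nat_lit 0x10000000000000000) (nat_lit 6) s1825 (.v1 w1 (nat_lit 0x3b0000000000000000) (nat_lit 0x40000000000000000) (nat_lit 6) s1858 (.v0 (nat_lit 0x80000000000000000) (nat_lit 0x370000000000000000) (nat_lit 6) (.ret (nat_lit 0)) (.f1 w1 (nat_lit 0x3fff800000000000000000)
  (nat_lit 0xfc000400000000000000000) (nat_lit 6) (.f1 w23 (nat_lit 0x3fff800000000000000000) (nat_lit 0xfc000400000000000000000) (nat_lit 6) (.f1 w40 (nat_lit 0xfc000400000000000000000) (nat_lit 0x3fff800000000000000000) (nat_lit 6) (.f1 w175 (nat_lit 0x3dabc00000000000000000) (nat_lit 0xfc254000000000000000000) (nat_lit 6) (.f1 w25 (nat_lit 0x1fdc000000000000000000) (nat_lit 0xfe023c00000000000000000)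
  (nat_lit 6) (.f1 w4 (nat_lit 0xfe023c00000000000000000) (nat_lit 0x1fdc000000000000000000) (nat_lit 6) s1843 (.ret (nat_lit 198))) (.ret (nat_lit 195))) (.f0 (nat_lit 0x3f77c00000000000000000) (nat_lit 0xfc088000000000000000000) (nat_lit 6) (.f1 w25 (nat_lit 0x1fdc000000000000000000) (nat_lit 0xfe023c00000000000000000) (nat_lit 6) s1833 (.ret (nat_lit 195))) (.f1 w25 (nat_lit 0x1fdc000000000000000000)
  (nat_lit 0xfe023c00000000000000000) (nat_lit 6) (.f1 w4 (nat_lit 0xfe023c00000000000000000) (nat_lit 0x1fdc000000000000000000) (nat_lit 6) (.f0 (nat_lit 0xfc254000000000000000000) (nat_lit 0x3dabc00000000000000000) (nat_lit 4) (.ret (nat_lit 195)) (.ret (nat_lit 196))) (.ret (nat_lit 198))) (.ret (nat_lit 195))))) (.ret (nat_lit 0))) (.ret (nat_lit 0))) (.ret (nat_lit 0)))))) (.v1 w9 (nat_lit 0x3e0000000000000000)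
  (nat_lit 0x10000000000000000) (nat_lit 6) (.v1 w4 (nat_lit 0x3e0000000000000000) (nat_lit 0x10000000000000000) (nat_lit 6) (.v1 w2 (nat_lit 0x3b0000000000000000) (nat_lit 0x40000000000000000) (nat_lit 6) (.f1 w40 (nat_lit 0xfc000400000000000000000) (nat_lit 0x3fff800000000000000000) (nat_lit 6) (.f1 w24 (nat_lit 0x1fdc000000000000000000) (nat_lit 0xfe023c00000000000000000) (nat_lit 6) (.f1 w4 (nat_lit 0x1fdc000000000000000000)
  (nat_lit 0xfe023c00000000000000000) (nat_lit 6) (.f1 w4 (nat_lit 0xfe023c00000000000000000) (nat_lit 0x1fdc000000000000000000) (nat_lit 6) (.f1 w4 (nat_lit 0x1fdc000000000000000000) (nat_lit 0xfe023c00000000000000000) (nat_lit 3) (.ret (nat_lit 227)) s1878) (.f1 w4 (nat_lit 0xfe023c00000000000000000) (nat_lit 0x1fdc000000000000000000) (nat_lit 6) (.ret (nat_lit 227)) (.ret (nat_lit 230)))) (.f1 w24 (nat_lit 0x1fdc000000000000000000) (nat_lit 0xfe023c00000000000000000) (nat_lit 3) (.ret (nat_lit 227)) s1878)) (.f1 w25 (nat_lit 0x1fdc000000000000000000)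 (nat_lit 0xfe023c00000000000000000) (nat_lit 3) (.ret (nat_lit 227)) (.ret (nat_lit 225)))) (.ret (nat_lit 0))) (.ret (nat_lit 0))) (.ret (nat_lit 0))) (.ret (nat_lit 0)))
noncomputable def s1891 : FP := .f1 w21 (nat_lit 0xfe023c00000000000000000) (nat_lit 0x1fdc000000000000000000) (nat_lit 1) (.ret (nat_lit 0)) s667
noncomputable def s1894 : FP := .f1 w24 (nat_lit 0xfe023c00000000000000000) (nat_lit 0x1fdc000000000000000000) (nat_lit 1) (.ret (nat_lit 0)) (.f1 w21 (nat_lit 0xfe023c00000000000000000) (nat_lit 0x1fdc000000000000000000) (nat_lit 1) (.ret (nat_lit 0)) (.ret (nat_lit 65)))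
noncomputable def s1895 : FP := .f0 (nat_lit 0xfc254000000000000000000) (nat_lit 0x3dabc00000000000000000) (nat_lit 1) (.ret (nat_lit 0)) s1894
noncomputable def s1896 : FP := .f1 w18 (nat_lit 0xfe023c00000000000000000) (nat_lit 0x1fdc000000000000000000) (nat_lit 1) s1895 (.f1 w24 (nat_lit 0xfe023c00000000000000000) (nat_lit 0x1fdc000000000000000000) (nat_lit 1) s1891 (.f1 w21 (nat_lit 0xfc254000000000000000000) (nat_lit 0x3dabc00000000000000000) (nat_lit 1) (.ret (nat_lit 0)) (.ret (nat_lit 65))))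
noncomputable def s1898 : FP := .f0 (nat_lit 0x3dabc00000000000000000) (nat_lit 0xfc254000000000000000000) (nat_lit 1) (.f1 w18 (nat_lit 0xfe023c00000000000000000) (nat_lit 0x1fdc000000000000000000) (nat_lit 1) (.ret (nat_lit 0)) s1894) (.ret (nat_lit 0))
noncomputable def s1902 : FP := .f0 (nat_lit 0xfc088000000000000000000) (nat_lit 0x3f77c00000000000000000) (nat_lit 3) (.ret (nat_lit 0)) (.ret (nat_lit 67))
noncomputable def s1904 : FP := .f1 w24 (nat_lit 0x1fdc000000000000000000) (nat_lit 0xfe023c00000000000000000) (nat_lit 3) (.ret (nat_lit 67)) (.f0 (nat_lit 0xfc254000000000000000000) (nat_lit 0x3dabc00000000000000000) (nat_lit 3) s1902 (.ret (nat_lit 67)))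
noncomputable def s1905 : FP := .f1 w24 (nat_lit 0xfe023c00000000000000000) (nat_lit 0x1fdc000000000000000000) (nat_lit 3) (.ret (nat_lit 0)) (.ret (nat_lit 67))
noncomputable def s1913 : FP := .f1 w25 (nat_lit 0x1fdc000000000000000000) (nat_lit 0xfe023c00000000000000000) (nat_lit 2) (.f1 w18 (nat_lit 0xfe023c00000000000000000) (nat_lit 0x1fdc000000000000000000) (nat_lit 2) s1895 (.f1 w24 (nat_lit 0xfe023c00000000000000000) (nat_lit 0x1fdc000000000000000000) (nat_lit 2) s1891 s910)) s1898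
noncomputable def s1919 : FP := .f1 w4 (nat_lit 0xfe023c00000000000000000) (nat_lit 0x1fdc000000000000000000) (nat_lit 3) (.ret (nat_lit 0)) (.ret (nat_lit 67))
noncomputable def s1920 : FP := .f0 (nat_lit 0xfc254000000000000000000) (nat_lit 0x3dabc00000000000000000) (nat_lit 3) (.ret (nat_lit 0)) s1919
noncomputable def s1923 : FP := .f1 w4 (nat_lit 0xfe023c00000000000000000) (nat_lit 0x1fdc000000000000000000) (nat_lit 3) (.ret (nat_lit 0)) (.f1 w21 (nat_lit 0xfc254000000000000000000) (nat_lit 0x3dabc00000000000000000) (nat_lit 3) (.ret (nat_lit 0)) (.ret (nat_lit 67)))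
noncomputable def s1927 : FP := .f0 (nat_lit 0xfc254000000000000000000) (nat_lit 0x3dabc00000000000000000) (nat_lit 3) (.ret (nat_lit 0)) (.ret (nat_lit 67))
noncomputable def s1929 : FP := .f1 w37 (nat_lit 0x1fdc000000000000000000) (nat_lit 0xfe023c00000000000000000) (nat_lit 3) (.f1 w4 (nat_lit 0xfe023c00000000000000000) (nat_lit 0x1fdc000000000000000000) (nat_lit 3) s1927 (.ret (nat_lit 67))) s1923
noncomputable def s1932 : FP := .f1 w37 (nat_lit 0xfe023c00000000000000000) (nat_lit 0x1fdc000000000000000000) (nat_lit 3) (.ret (nat_lit 0)) (.f1 w4 (nat_lit 0xfe023c00000000000000000) (nat_lit 0x1fdc000000000000000000) (nat_lit 3) (.ret (nat_lit 0)) (.f1 w4 (nat_lit 0xfc254000000000000000000) (nat_lit 0x3dabc00000000000000000) (nat_lit 3) (.ret (nat_lit 0)) (.ret (nat_lit 67))))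
noncomputable def s1941 : FP := .f1 w21 (nat_lit 0xfe023c00000000000000000) (nat_lit 0x1fdc000000000000000000) (nat_lit 5) (.f0 (nat_lit 0xfc254000000000000000000) (nat_lit 0x3dabc00000000000000000) (nat_lit 5) (.ret (nat_lit 67)) (.ret (nat_lit 69))) (.ret (nat_lit 69))
noncomputable def s1963 : FP := .f1 w4 (nat_lit 0xfe023c00000000000000000) (nat_lit 0x1fdc000000000000000000) (nat_lit 6) s1920 (.f1 w4 (nat_lit 0xfe023c00000000000000000) (nat_lit 0x1fdc000000000000000000) (nat_lit 6) s1927 (.ret (nat_lit 70)))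
noncomputable def s1967 : FP := .f1 w4 (nat_lit 0xfe023c00000000000000000) (nat_lit 0x1fdc000000000000000000) (nat_lit 3) (.ret (nat_lit 0)) s1919
noncomputable def s1971 : FP := .f0 (nat_lit 0x3dabc00000000000000000) (nat_lit 0xfc254000000000000000000) (nat_lit 1) s671 (.ret (nat_lit 0))
noncomputable def s1972 : FP := .f1 w4 (nat_lit 0xfe023c00000000000000000) (nat_lit 0x1fdc000000000000000000) (nat_lit 3) s1971 s1919
noncomputable def s1973 : FP := .f1 w4 (nat_lit 0xfe023c00000000000000000) (nat_lit 0x1fdc000000000000000000) (nat_lit 1) s1971 s671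
noncomputable def s1975 : FP := .f0 (nat_lit 0xfc088000000000000000000) (nat_lit 0x3f77c00000000000000000) (nat_lit 1) (.ret (nat_lit 0)) (.f1 w4 (nat_lit 0xfc254000000000000000000) (nat_lit 0x3dabc00000000000000000) (nat_lit 1) (.ret (nat_lit 0)) s671)
noncomputable def s1976 : FP := .f0 (nat_lit 0xfc254000000000000000000) (nat_lit 0x3dabc00000000000000000) (nat_lit 1) s1975 s1973
noncomputable def s1978 : FP := .f1 w18 (nat_lit 0x1fdc000000000000000000) (nat_lit 0xfe023c00000000000000000) (nat_lit 3) s1972 (.ret (nat_lit 0))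
noncomputable def s1979 : FP := .f0 (nat_lit 0x3dabc00000000000000000) (nat_lit 0xfc254000000000000000000) (nat_lit 3) s1978 (.ret (nat_lit 0))
noncomputable def s1980 : FP := .f1 w4 (nat_lit 0x1fdc000000000000000000) (nat_lit 0xfe023c00000000000000000) (nat_lit 3) (.f1 w18 (nat_lit 0x1fdc000000000000000000) (nat_lit 0xfe023c00000000000000000) (nat_lit 3) s1972 s1976) s1979
noncomputable def s1983 : FP := .f1 w18 (nat_lit 0x1fdc000000000000000000) (nat_lit 0xfe023c00000000000000000) (nat_lit 3) (.f1 w24 (nat_lit 0xfe023c00000000000000000) (nat_lit 0x1fdc000000000000000000) (nat_lit 3) s1891 (.f1 w21 (nat_lit 0xfe023c00000000000000000) (nat_lit 0x1fdc000000000000000000) (nat_lit 3) s440 (.ret (nat_lit 67)))) s1895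
noncomputable def s1987 : FP := .f1 w4 (nat_lit 0x1fdc000000000000000000) (nat_lit 0xfe023c00000000000000000) (nat_lit 3) s1983 s1898
noncomputable def s1990 : FP := .f1 w4 (nat_lit 0x1fdc000000000000000000) (nat_lit 0xfe023c00000000000000000) (nat_lit 6) (.f1 w4 (nat_lit 0x1fdc000000000000000000) (nat_lit 0xfe023c00000000000000000) (nat_lit 6) (.f1 w18 (nat_lit 0x1fdc000000000000000000) (nat_lit 0xfe023c00000000000000000) (nat_lit 6) s1963 (.f0 (nat_lit 0xfc254000000000000000000) (nat_lit 0x3dabc00000000000000000) (nat_lit 3) (.ret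
  (nat_lit 0)) (.f1 w4 (nat_lit 0xfe023c00000000000000000) (nat_lit 0x1fdc000000000000000000) (nat_lit 3) (.ret (nat_lit 0)) s666))) (.f0 (nat_lit 0x3dabc00000000000000000) (nat_lit 0xfc254000000000000000000) (nat_lit 3) (.f1 w18 (nat_lit 0xfe023c00000000000000000) (nat_lit 0x1fdc000000000000000000) (nat_lit 3) (.ret (nat_lit 0)) s1967) (.ret (nat_lit 0)))) (.f0 (nat_lit 0xfc254000000000000000000)
  (nat_lit 0x3dabc00000000000000000) (nat_lit 3) (.f0 (nat_lit 0xfc088000000000000000000) (nat_lit 0x3f77c00000000000000000) (nat_lit 3) s1987 (.f1 w4 (nat_lit 0x1fdc000000000000000000) (nat_lit 0xfe023c00000000000000000) (nat_lit 3) s1983 (.f1 w18 (nat_lit 0xfe023c00000000000000000) (nat_lit 0x1fdc000000000000000000) (nat_lit 1) (.ret (nat_lit 0)) (.f1 w4 (nat_lit 0xfe023c00000000000000000) (nat_lit 0x1fdc000000000000000000) (nat_lit 1) s1971 s688)))) s1980)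
noncomputable def s1991 : FP := .f1 w4 (nat_lit 0xfe023c00000000000000000) (nat_lit 0x1fdc000000000000000000) (nat_lit 3) s1971 s666
noncomputable def s1993 : FP := .f1 w18 (nat_lit 0x1fdc000000000000000000) (nat_lit 0xfe023c00000000000000000) (nat_lit 6) s1963 (.f0 (nat_lit 0xfc254000000000000000000) (nat_lit 0x3dabc00000000000000000) (nat_lit 3) s1975 s1991)
noncomputable def s1997 : FP := .f1 w18 (nat_lit 0xfe023c00000000000000000) (nat_lit 0x1fdc000000000000000000) (nat_lit 1) (.ret (nat_lit 0)) s1973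
noncomputable def s2009 : FP := .f1 w4 (nat_lit 0x1fdc000000000000000000) (nat_lit 0xfe023c00000000000000000) (nat_lit 6) s1990 (.f0 (nat_lit 0x3dabc00000000000000000) (nat_lit 0xfc254000000000000000000) (nat_lit 6) (.f1 w4 (nat_lit 0x1fdc000000000000000000) (nat_lit 0xfe023c00000000000000000) (nat_lit 6) (.f1 w4 (nat_lit 0x1fdc000000000000000000) (nat_lit 0xfe023c00000000000000000) (nat_lit 6) s1993 s1979)
  (.f0 (nat_lit 0x3dabc00000000000000000) (nat_lit 0xfc254000000000000000000) (nat_lit 3) s1980 s1987)) (.f0 (nat_lit 0x3f77c00000000000000000) (nat_lit 0xfc088000000000000000000) (nat_lit 3) (.f1 w4 (nat_lit 0xfe023c00000000000000000) (nat_lit 0x1fdc000000000000000000) (nat_lit 3) (.f1 w4 (nat_lit 0x1fdc000000000000000000) (nat_lit 0xfe023c00000000000000000) (nat_lit 3) (.f1 w18 (nat_lit 0x1fdc000000000000000000)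
  (nat_lit 0xfe023c00000000000000000) (nat_lit 3) s1991 s1976) s1997) (.f1 w4 (nat_lit 0x1fdc000000000000000000) (nat_lit 0xfe023c00000000000000000) (nat_lit 3) s1978 s1997)) (.f1 w4 (nat_lit 0xfe023c00000000000000000) (nat_lit 0x1fdc000000000000000000) (nat_lit 3) (.f0 (nat_lit 0xfc254000000000000000000) (nat_lit 0x3dabc00000000000000000) (nat_lit 1) (.f1 w4 (nat_lit 0x1fdc000000000000000000) (nat_lit 0xfe023c00000000000000000) (nat_lit 1) s1896 s1898) (.f1 w30 (nat_lit 0x1fdc000000000000000000) (nat_lit 0xfe023c00000000000000000) (nat_lit 1) s1973 (.ret (nat_lit 0)))) (.f1 w4 (nat_lit 0x1fdc000000000000000000) (nat_lit 0xfe023c00000000000000000) (nat_lit 3) s1978 (.ret (nat_lit 0))))))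
noncomputable def s2012 : FP := .f0 (nat_lit 0xfc254000000000000000000) (nat_lit 0x3dabc00000000000000000) (nat_lit 3) (.f0 (nat_lit 0xfd000000000000000000000) (nat_lit 0x2fffc00000000000000000) (nat_lit 2) (.f0 (nat_lit 0x3f77c00000000000000000) (nat_lit 0xfc088000000000000000000) (nat_lit 2) (.ret (nat_lit 0)) (.ret (nat_lit 66))) (.ret (nat_lit 0))) (.ret (nat_lit 67))
noncomputable def s2015 : FP := .f1 w24 (nat_lit 0x1fdc000000000000000000) (nat_lit 0xfe023c00000000000000000) (nat_lit 3) (.ret (nat_lit 67)) s1927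
noncomputable def s2018 : FP := .f1 w62 (nat_lit 0xfe023c00000000000000000) (nat_lit 0x1fdc000000000000000000) (nat_lit 3) (.ret (nat_lit 0)) (.ret (nat_lit 67))
noncomputable def s2022 : FP := .f0 (nat_lit 0xfc254000000000000000000) (nat_lit 0x3dabc00000000000000000) (nat_lit 3) (.f0 (nat_lit 0xfc088000000000000000000) (nat_lit 0x3f77c00000000000000000) (nat_lit 3) (.f1 w63 (nat_lit 0xfe023c00000000000000000) (nat_lit 0x1fdc000000000000000000) (nat_lit 2) (.ret (nat_lit 0)) (.f1 w60 (nat_lit 0xfd000000000000000000000) (nat_lit 0x2fffc00000000000000000) (nat_lit 2) (.ret (nat_lit 66)) (.ret (nat_lit 0)))) s2018) (.f1 w65 (nat_lit 0xfe023c00000000000000000) (nat_lit 0x1fdc000000000000000000) (nat_lit 3) s1919 s666)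
noncomputable def s2024 : FP := .f0 (nat_lit 0xfc088000000000000000000) (nat_lit 0x3f77c00000000000000000) (nat_lit 2) s445 (.ret (nat_lit 0))
noncomputable def s2031 : FP := .f1 w4 (nat_lit 0x1fdc000000000000000000) (nat_lit 0xfe023c00000000000000000) (nat_lit 6) (.f1 w4 (nat_lit 0x1fdc000000000000000000) (nat_lit 0xfe023c00000000000000000) (nat_lit 6) (.f1 w18 (nat_lit 0x1fdc000000000000000000) (nat_lit 0xfe023c00000000000000000) (nat_lit 6) (.f1 w4 (nat_lit 0xfe023c00000000000000000) (nat_lit 0x1fdc000000000000000000) (nat_lit 6) s1919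
  (.f1 w4 (nat_lit 0xfe023c00000000000000000) (nat_lit 0x1fdc000000000000000000) (nat_lit 6) s2012 (.ret (nat_lit 70)))) s2015) s2022) (.f1 w4 (nat_lit 0x1fdc000000000000000000) (nat_lit 0xfe023c00000000000000000) (nat_lit 3) (.f1 w18 (nat_lit 0x1fdc000000000000000000) (nat_lit 0xfe023c00000000000000000) (nat_lit 3) (.f1 w24 (nat_lit 0x1fdc000000000000000000) (nat_lit 0xfe023c00000000000000000) (nat_lit 3) (.ret (nat_lit 67)) s2024) (.f0 (nat_lit 0x3dabc00000000000000000) (nat_lit 0xfc254000000000000000000) (nat_lit 3) (.f1 w24 (nat_lit 0xfe023c00000000000000000) (nat_lit 0x1fdc000000000000000000) (nat_lit 3) (.f0 (nat_lit 0xfc088000000000000000000) (nat_lit 0x3f77c00000000000000000) (nat_lit 1) s678 (.ret (nat_lit 0))) (.ret (nat_lit 67))) s2015)) s2022)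
noncomputable def s2037 : FP := .f1 w37 (nat_lit 0x1fdc000000000000000000) (nat_lit 0xfe023c00000000000000000) (nat_lit 3) (.f1 w24 (nat_lit 0xfc254000000000000000000) (nat_lit 0x3dabc00000000000000000) (nat_lit 3) s646 (.ret (nat_lit 67))) (.f1 w24 (nat_lit 0xfc254000000000000000000) (nat_lit 0x3dabc00000000000000000) (nat_lit 3) (.f0 (nat_lit 0xfc088000000000000000000) (nat_lit 0x3f77c00000000000000000) (nat_lit 3) (.ret (nat_lit 0)) (.f1 w37 (nat_lit 0xfc254000000000000000000) (nat_lit 0x3dabc00000000000000000) (nat_lit 3) (.ret (nat_lit 0)) (.ret (nat_lit 67)))) (.ret (nat_lit 67)))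
noncomputable def s2038 : FP := .f1 w63 (nat_lit 0x1fdc000000000000000000) (nat_lit 0xfe023c00000000000000000) (nat_lit 6) (.f1 w37 (nat_lit 0x1fdc000000000000000000) (nat_lit 0xfe023c00000000000000000) (nat_lit 6) s404 s403) s2037
noncomputable def s2039 : FP := .f1 w60 (nat_lit 0xfc254000000000000000000) (nat_lit 0x3dabc00000000000000000) (nat_lit 3) s646 (.ret (nat_lit 67))
noncomputable def s2042 : FP := .f1 w63 (nat_lit 0x1fdc000000000000000000) (nat_lit 0xfe023c00000000000000000) (nat_lit 3) s2039 (.f1 w37 (nat_lit 0xfe023c00000000000000000) (nat_lit 0x1fdc000000000000000000) (nat_lit 3) (.ret (nat_lit 0)) (.f1 w186 (nat_lit 0xfc254000000000000000000) (nat_lit 0x3dabc00000000000000000) (nat_lit 3) s1902 (.ret (nat_lit 67))))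
noncomputable def s2043 : FP := .f1 w4 (nat_lit 0x1fdc000000000000000000) (nat_lit 0xfe023c00000000000000000) (nat_lit 6) s2038 s2042
noncomputable def s2046 : FP := .f0 (nat_lit 0x3dabc00000000000000000) (nat_lit 0xfc254000000000000000000) (nat_lit 3) (.f1 w24 (nat_lit 0x1fdc000000000000000000) (nat_lit 0xfe023c00000000000000000) (nat_lit 3) (.ret (nat_lit 67)) (.f0 (nat_lit 0xfc088000000000000000000) (nat_lit 0x3f77c00000000000000000) (nat_lit 3) s678 (.ret (nat_lit 67)))) s2015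
noncomputable def s2050 : FP := .f1 w24 (nat_lit 0x1fdc000000000000000000) (nat_lit 0xfe023c00000000000000000) (nat_lit 3) (.f1 w18 (nat_lit 0x1fdc000000000000000000) (nat_lit 0xfe023c00000000000000000) (nat_lit 3) s656 s2046) s2042
noncomputable def s2054 : FP := .f0 (nat_lit 0xfc254000000000000000000) (nat_lit 0x3dabc00000000000000000) (nat_lit 3) (.f0 (nat_lit 0xfc088000000000000000000) (nat_lit 0x3f77c00000000000000000) (nat_lit 2) (.ret (nat_lit 0)) (.ret (nat_lit 66))) (.ret (nat_lit 67))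
noncomputable def s2057 : FP := .f1 w4 (nat_lit 0x1fdc000000000000000000) (nat_lit 0xfe023c00000000000000000) (nat_lit 6) s2038 (.f1 w18 (nat_lit 0x1fdc000000000000000000) (nat_lit 0xfe023c00000000000000000) (nat_lit 3) (.f1 w24 (nat_lit 0xfe023c00000000000000000) (nat_lit 0x1fdc000000000000000000) (nat_lit 3) s2054 (.ret (nat_lit 67))) s1905)
noncomputable def s2062 : FP := .f1 w4 (nat_lit 0x1fdc000000000000000000) (nat_lit 0xfe023c00000000000000000) (nat_lit 3) (.f1 w18 (nat_lit 0xfe023c00000000000000000) (nat_lit 0x1fdc000000000000000000) (nat_lit 3) (.f0 (nat_lit 0x3dabc00000000000000000) (nat_lit 0xfc254000000000000000000) (nat_lit 3) (.f1 w24 (nat_lit 0x1fdc000000000000000000) (nat_lit 0xfe023c00000000000000000) (nat_lit 3) (.ret (nat_lit 67)) (.f0 (nat_lit 0xfc088000000000000000000) (nat_lit 0x3f77c00000000000000000) (nat_lit 3) s445 (.ret (nat_lit 67)))) s2015) s656) s2042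
noncomputable def s2066 : FP := .f1 w63 (nat_lit 0x1fdc000000000000000000) (nat_lit 0xfe023c00000000000000000) (nat_lit 3) (.ret (nat_lit 67)) (.f1 w37 (nat_lit 0xfe023c00000000000000000) (nat_lit 0x1fdc000000000000000000) (nat_lit 3) (.f1 w24 (nat_lit 0xfc254000000000000000000) (nat_lit 0x3dabc00000000000000000) (nat_lit 3) (.ret (nat_lit 0)) (.ret (nat_lit 67))) (.f1 w24 (nat_lit 0xfc254000000000000000000) (nat_lit 0x3dabc00000000000000000) (nat_lit 3) s678 (.ret (nat_lit 67))))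
noncomputable def s2077 : FP := .f1 w4 (nat_lit 0x1fdc000000000000000000) (nat_lit 0xfe023c00000000000000000) (nat_lit 6) s2043 s2062
noncomputable def s2083 : FP := .f0 (nat_lit 0x3f77c00000000000000000) (nat_lit 0xfc088000000000000000000) (nat_lit 6) (.f1 w4 (nat_lit 0x1fdc000000000000000000) (nat_lit 0xfe023c00000000000000000) (nat_lit 6) s2031 (.f0 (nat_lit 0x3dabc00000000000000000) (nat_lit 0xfc254000000000000000000) (nat_lit 6) (.f1 w4 (nat_lit 0x1fdc000000000000000000) (nat_lit 0xfe023c00000000000000000) (nat_lit 6) s2043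
  (.f1 w30 (nat_lit 0x1fdc000000000000000000) (nat_lit 0xfe023c00000000000000000) (nat_lit 3) s656 s2046)) s2050)) (.f1 w4 (nat_lit 0x1fdc000000000000000000) (nat_lit 0xfe023c00000000000000000) (nat_lit 6) (.f1 w4 (nat_lit 0x1fdc000000000000000000) (nat_lit 0xfe023c00000000000000000) (nat_lit 6) s2057 (.f0 (nat_lit 0x3dabc00000000000000000) (nat_lit 0xfc254000000000000000000) (nat_lit 3) s2062 (.f0
  (nat_lit 0xfc088000000000000000000) (nat_lit 0x3f77c00000000000000000) (nat_lit 3) (.f1 w4 (nat_lit 0xfe023c00000000000000000) (nat_lit 0x1fdc000000000000000000) (nat_lit 3) (.f1 w63 (nat_lit 0x1fdc000000000000000000) (nat_lit 0xfe023c00000000000000000) (nat_lit 3) (.ret (nat_lit 67)) (.f1 w90 (nat_lit 0xfc254000000000000000000) (nat_lit 0x3dabc00000000000000000) (nat_lit 3) (.ret (nat_lit 0)) (.ret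
  (nat_lit 67)))) s2066) (.f1 w4 (nat_lit 0x1fdc000000000000000000) (nat_lit 0xfe023c00000000000000000) (nat_lit 3) s2066 (.f0 (nat_lit 0x3dabc00000000000000000) (nat_lit 0xfc254000000000000000000) (nat_lit 3) (.f1 w18 (nat_lit 0x1fdc000000000000000000) (nat_lit 0xfe023c00000000000000000) (nat_lit 3) s1904 s1967) (.f1 w63 (nat_lit 0x1fdc000000000000000000) (nat_lit 0xfe023c00000000000000000) (nat_lit 3)
  (.ret (nat_lit 67)) (.ret (nat_lit 0)))))))) (.f0 (nat_lit 0xfc254000000000000000000) (nat_lit 0x3dabc00000000000000000) (nat_lit 6) (.f0 (nat_lit 0xfc088000000000000000000) (nat_lit 0x3f77c00000000000000000) (nat_lit 6) (.f1 w24 (nat_lit 0x1fdc000000000000000000) (nat_lit 0xfe023c00000000000000000) (nat_lit 3) (.f1 w63 (nat_lit 0x1fdc000000000000000000) (nat_lit 0xfe023c00000000000000000) (nat_lit 3) (.ret (nat_lit 67)) s2037) s2042) s2077) s2077))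
noncomputable def s2087 : FP := .f1 w4 (nat_lit 0xfd000000000000000000000) (nat_lit 0x2fffc00000000000000000) (nat_lit 6) (.f1 w30 (nat_lit 0xfd000000000000000000000) (nat_lit 0x2fffc00000000000000000) (nat_lit 6) (.f1 w4 (nat_lit 0xfd000000000000000000000) (nat_lit 0x2fffc00000000000000000) (nat_lit 6) (.f1 w30 (nat_lit 0xfc254000000000000000000) (nat_lit 0x3dabc00000000000000000) (nat_lit 6) s2083 s2009)
  (.f1 w21 (nat_lit 0x3fff400000000000000000) (nat_lit 0xfc000800000000000000000) (nat_lit 5) (.v1 w16 (nat_lit 0x20000000000000000) (nat_lit 0x3d0000000000000000) (nat_lit 5) (.ret (nat_lit 0)) (.v1 w35 (nat_lit 0x3e0000000000000000) (nat_lit 0x10000000000000000) (nat_lit 5) (.f1 w37 (nat_lit 0xfe023c00000000000000000) (nat_lit 0x1fdc000000000000000000) (nat_lit 5) (.ret (nat_lit 0)) (.f1 w185 (nat_lit 0xfc254000000000000000000)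
  (nat_lit 0x3dabc00000000000000000) (nat_lit 5) (.f1 w29 (nat_lit 0xfe023c00000000000000000) (nat_lit 0x1fdc000000000000000000) (nat_lit 5) s652 (.f1 w184 (nat_lit 0xfe023c00000000000000000) (nat_lit 0x1fdc000000000000000000) (nat_lit 5) (.ret (nat_lit 67)) s1941)) (.f1 w29 (nat_lit 0xfe023c00000000000000000) (nat_lit 0x1fdc000000000000000000) (nat_lit 5) (.f0 (nat_lit 0x2fffc00000000000000000) (nat_lit 0xfd000000000000000000000)
  (nat_lit 2) (.ret (nat_lit 0)) (.f1 w184 (nat_lit 0x1fdc000000000000000000) (nat_lit 0xfe023c00000000000000000) (nat_lit 2) (.ret (nat_lit 66)) s440)) (.f1 w184 (nat_lit 0xfe023c00000000000000000) (nat_lit 0x1fdc000000000000000000) (nat_lit 5) (.ret (nat_lit 67)) (.f1 w21 (nat_lit 0xfe023c00000000000000000) (nat_lit 0x1fdc000000000000000000) (nat_lit 5) s406 (.ret (nat_lit 69))))))) (.ret (nat_lit 0))))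
  (.ret (nat_lit 0)))) (.f1 w4 (nat_lit 0xfc000800000000000000000) (nat_lit 0x3fff400000000000000000) (nat_lit 5) (.ret (nat_lit 0)) (.v1 w6 (nat_lit 0x20000000000000000) (nat_lit 0x3d0000000000000000) (nat_lit 5) (.ret (nat_lit 0)) (.v1 w25 (nat_lit 0x3e0000000000000000) (nat_lit 0x10000000000000000) (nat_lit 5) (.f1 w21 (nat_lit 0x1fdc000000000000000000) (nat_lit 0xfe023c00000000000000000) (nat_lit 5)
  (.f1 w4 (nat_lit 0x1fdc000000000000000000) (nat_lit 0xfe023c00000000000000000) (nat_lit 5) (.f1 w4 (nat_lit 0xfe023c00000000000000000) (nat_lit 0x1fdc000000000000000000) (nat_lit 5) (.ret (nat_lit 0)) (.f1 w34 (nat_lit 0x1fdc000000000000000000) (nat_lit 0xfe023c00000000000000000) (nat_lit 5) (.f1 w21 (nat_lit 0xfe023c00000000000000000) (nat_lit 0x1fdc000000000000000000) (nat_lit 5) (.ret (nat_lit 67)) s1941)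
  (.ret (nat_lit 67)))) (.ret (nat_lit 0))) (.ret (nat_lit 0))) (.ret (nat_lit 0)))))) (.f1 w21 (nat_lit 0xfc000800000000000000000) (nat_lit 0x3fff400000000000000000) (nat_lit 3) (.f1 w183 (nat_lit 0xfc254000000000000000000) (nat_lit 0x3dabc00000000000000000) (nat_lit 3) (.f0 (nat_lit 0x3f77c00000000000000000) (nat_lit 0xfc088000000000000000000) (nat_lit 3) (.f1 w4 (nat_lit 0xfe023c00000000000000000)
  (nat_lit 0x1fdc000000000000000000) (nat_lit 3) (.f1 w74 (nat_lit 0x1fdc000000000000000000) (nat_lit 0xfe023c00000000000000000) (nat_lit 3) s1929 s1932) (.f1 w7 (nat_lit 0x1fdc000000000000000000) (nat_lit 0xfe023c00000000000000000) (nat_lit 3) (.f1 w4 (nat_lit 0xfe023c00000000000000000) (nat_lit 0x1fdc000000000000000000) (nat_lit 3) s1920 s1919) (.f0 (nat_lit 0xfc254000000000000000000) (nat_lit 0x3dabc00000000000000000)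
  (nat_lit 3) (.ret (nat_lit 0)) (.f1 w4 (nat_lit 0xfe023c00000000000000000) (nat_lit 0x1fdc000000000000000000) (nat_lit 3) s1923 s1919)))) (.f1 w25 (nat_lit 0x1fdc000000000000000000) (nat_lit 0xfe023c00000000000000000) (nat_lit 3) (.f1 w63 (nat_lit 0x1fdc000000000000000000) (nat_lit 0xfe023c00000000000000000) (nat_lit 3) s1929 s1932) (.ret (nat_lit 0)))) s1913) (.v1 w16 (nat_lit 0x20000000000000000)
  (nat_lit 0x3d0000000000000000) (nat_lit 3) (.ret (nat_lit 0)) (.v1 w9 (nat_lit 0x3e0000000000000000) (nat_lit 0x10000000000000000) (nat_lit 3) (.v1 w24 (nat_lit 0x3e0000000000000000) (nat_lit 0x10000000000000000) (nat_lit 3) (.f1 w182 (nat_lit 0x3dabc00000000000000000) (nat_lit 0xfc254000000000000000000) (nat_lit 3) s1913 (.f1 w181 (nat_lit 0xfe023c00000000000000000) (nat_lit 0x1fdc000000000000000000) (nat_lit 3) (.ret (nat_lit 0)) (.ret (nat_lit 67)))) (.ret (nat_lit 0))) (.ret (nat_lit 0)))))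
noncomputable def s2093 : FP := .f1 w187 (nat_lit 0xfe023c00000000000000000) (nat_lit 0x1fdc000000000000000000) (nat_lit 6) (.ret (nat_lit 83)) (.ret (nat_lit 86))
noncomputable def s2110 : FP := .f1 w10 (nat_lit 0xfe023c00000000000000000) (nat_lit 0x1fdc000000000000000000) (nat_lit 6) s577 (.f1 w188 (nat_lit 0x1fdc000000000000000000) (nat_lit 0xfe023c00000000000000000) (nat_lit 6) (.f1 w4 (nat_lit 0xfe023c00000000000000000) (nat_lit 0x1fdc000000000000000000) (nat_lit 6) s567 (.f1 w10 (nat_lit 0x2fffc00000000000000000) (nat_lit 0xfd000000000000000000000) (nat_lit 6) (.ret (nat_lit 83)) (.ret (nat_lit 86)))) (.ret (nat_lit 83)))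
noncomputable def s2121 : FP := .f1 w8 (nat_lit 0xfc254000000000000000000) (nat_lit 0x3dabc00000000000000000) (nat_lit 6) (.f1 w4 (nat_lit 0xfe023c00000000000000000) (nat_lit 0x1fdc000000000000000000) (nat_lit 6) (.f0 (nat_lit 0xfd000000000000000000000) (nat_lit 0x2fffc00000000000000000) (nat_lit 6) (.f1 w4 (nat_lit 0xfe023c00000000000000000) (nat_lit 0x1fdc000000000000000000) (nat_lit 6) (.ret (nat_lit 83)) s2110)
  (.f1 w66 (nat_lit 0xfe023c00000000000000000) (nat_lit 0x1fdc000000000000000000) (nat_lit 6) (.ret (nat_lit 83)) (.ret (nat_lit 86)))) (.f1 w4 (nat_lit 0xfe023c00000000000000000) (nat_lit 0x1fdc000000000000000000) (nat_lit 6) (.f0 (nat_lit 0xfc254000000000000000000) (nat_lit 0x3dabc00000000000000000) (nat_lit 6) (.f0 (nat_lit 0xfd000000000000000000000) (nat_lit 0x2fffc00000000000000000) (nat_lit 6)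
  (.f1 w10 (nat_lit 0xfe023c00000000000000000) (nat_lit 0x1fdc000000000000000000) (nat_lit 5) (.ret (nat_lit 83)) (.f1 w22 (nat_lit 0x2fffc00000000000000000) (nat_lit 0xfd000000000000000000000) (nat_lit 5) (.ret (nat_lit 83)) (.ret (nat_lit 85)))) s2093) s2110) (.f1 w10 (nat_lit 0xfe023c00000000000000000) (nat_lit 0x1fdc000000000000000000) (nat_lit 6) (.f0 (nat_lit 0xfc254000000000000000000) (nat_lit 0x3dabc00000000000000000)
  (nat_lit 6) (.f0 (nat_lit 0xfd000000000000000000000) (nat_lit 0x2fffc00000000000000000) (nat_lit 6) (.f1 w18 (nat_lit 0xfe023c00000000000000000) (nat_lit 0x1fdc000000000000000000) (nat_lit 6) (.ret (nat_lit 83)) (.f1 w44 (nat_lit 0xfe023c00000000000000000) (nat_lit 0x1fdc000000000000000000) (nat_lit 6) s582 (.ret (nat_lit 86)))) s577) (.f1 w22 (nat_lit 0xfe023c00000000000000000) (nat_lit 0x1fdc000000000000000000)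
  (nat_lit 6) s582 (.ret (nat_lit 86)))) (.ret (nat_lit 86))))) (.f1 w4 (nat_lit 0xfe023c00000000000000000) (nat_lit 0x1fdc000000000000000000) (nat_lit 6) (.f0 (nat_lit 0xfc254000000000000000000) (nat_lit 0x3dabc00000000000000000) (nat_lit 6) (.ret (nat_lit 83)) (.f1 w4 (nat_lit 0xfe023c00000000000000000) (nat_lit 0x1fdc000000000000000000) (nat_lit 6) (.ret (nat_lit 83)) (.f1 w64 (nat_lit 0xfe023c00000000000000000)
  (nat_lit 0x1fdc000000000000000000) (nat_lit 6) (.ret (nat_lit 83)) (.ret (nat_lit 86))))) (.f1 w4 (nat_lit 0xfe023c00000000000000000) (nat_lit 0x1fdc000000000000000000) (nat_lit 6) (.f0 (nat_lit 0xfc254000000000000000000) (nat_lit 0x3dabc00000000000000000) (nat_lit 6) (.f0 (nat_lit 0xfd000000000000000000000) (nat_lit 0x2fffc00000000000000000) (nat_lit 6) (.ret (nat_lit 83)) s578) s2093) (.f1 w10 (nat_lit 0xfe023c00000000000000000) (nat_lit 0x1fdc000000000000000000) (nat_lit 6) (.f0 (nat_lit 0xfc254000000000000000000) (nat_lit 0x3dabc00000000000000000)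 (nat_lit 6) s577 (.f1 w18 (nat_lit 0xfe023c00000000000000000) (nat_lit 0x1fdc000000000000000000) (nat_lit 6) s570 s569)) (.ret (nat_lit 86)))))
noncomputable def s2122 : FP := .f1 w163 (nat_lit 0xfe023c00000000000000000) (nat_lit 0x1fdc000000000000000000) (nat_lit 6) s597 (.ret (nat_lit 86))
noncomputable def s2123 : FP := .f1 w155 (nat_lit 0xfe023c00000000000000000) (nat_lit 0x1fdc000000000000000000) (nat_lit 6) (.ret (nat_lit 83)) s2122
noncomputable def s2158 : FP := .f0 (nat_lit 0x3ffc000000000000000000) (nat_lit 0xfc003c00000000000000000) (nat_lit 6) (.f0 (nat_lit 0xfc000800000000000000000) (nat_lit 0x3fff400000000000000000) (nat_lit 6) (.f0 (nat_lit 0x3ffec00000000000000000) (nat_lit 0xfc001000000000000000000) (nat_lit 6) (.f1 w190 (nat_lit 0xfe023c00000000000000000) (nat_lit 0x1fdc000000000000000000) (nat_lit 6) (.f1 w22 (nat_lit 0xfe023c00000000000000000)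
  (nat_lit 0x1fdc000000000000000000) (nat_lit 6) (.f1 w22 (nat_lit 0x3dabc00000000000000000) (nat_lit 0xfc254000000000000000000) (nat_lit 4) (.f1 w22 (nat_lit 0x3dabc00000000000000000) (nat_lit 0xfc254000000000000000000) (nat_lit 4) (.f1 w184 (nat_lit 0x1fdc000000000000000000) (nat_lit 0xfe023c00000000000000000) (nat_lit 4) (.f1 w28 (nat_lit 0x1fdc000000000000000000) (nat_lit 0xfe023c00000000000000000)
  (nat_lit 4) (.f1 w24 (nat_lit 0x1fdc000000000000000000) (nat_lit 0xfe023c00000000000000000) (nat_lit 4) (.f1 w155 (nat_lit 0xfe023c00000000000000000) (nat_lit 0x1fdc000000000000000000) (nat_lit 4) (.ret (nat_lit 83)) (.f1 w163 (nat_lit 0x1fdc000000000000000000) (nat_lit 0xfe023c00000000000000000) (nat_lit 4) (.ret (nat_lit 84)) (.ret (nat_lit 83)))) (.ret (nat_lit 83))) (.ret (nat_lit 83))) (.ret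
  (nat_lit 83))) (.ret (nat_lit 83))) (.ret (nat_lit 83))) (.f1 w189 (nat_lit 0x1fdc000000000000000000) (nat_lit 0xfe023c00000000000000000) (nat_lit 6) s2123 (.ret (nat_lit 83)))) (.f1 w22 (nat_lit 0xfe023c00000000000000000) (nat_lit 0x1fdc000000000000000000) (nat_lit 6) (.f0 (nat_lit 0x3dabc00000000000000000) (nat_lit 0xfc254000000000000000000) (nat_lit 6) (.f1 w184 (nat_lit 0x1fdc000000000000000000)
  (nat_lit 0xfe023c00000000000000000) (nat_lit 6) (.f1 w28 (nat_lit 0xfe023c00000000000000000) (nat_lit 0x1fdc000000000000000000) (nat_lit 6) (.ret (nat_lit 83)) (.f1 w24 (nat_lit 0xfe023c00000000000000000) (nat_lit 0x1fdc000000000000000000) (nat_lit 6) (.ret (nat_lit 83)) s2123)) (.ret (nat_lit 83))) (.ret (nat_lit 83))) (.ret (nat_lit 86)))) (.ret (nat_lit 0))) s2121) (.f1 w7 (nat_lit 0xfc254000000000000000000)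
  (nat_lit 0x3dabc00000000000000000) (nat_lit 6) (.f1 w25 (nat_lit 0x1fdc000000000000000000) (nat_lit 0xfe023c00000000000000000) (nat_lit 6) (.f1 w62 (nat_lit 0xfe023c00000000000000000) (nat_lit 0x1fdc000000000000000000) (nat_lit 6) (.f1 w191 (nat_lit 0xfc254000000000000000000) (nat_lit 0x3dabc00000000000000000) (nat_lit 6) (.ret (nat_lit 83)) (.f1 w184 (nat_lit 0xfe023c00000000000000000) (nat_lit 0x1fdc000000000000000000)
  (nat_lit 6) (.ret (nat_lit 83)) s796)) (.f1 w188 (nat_lit 0x1fdc000000000000000000) (nat_lit 0xfe023c00000000000000000) (nat_lit 6) (.ret (nat_lit 86)) (.ret (nat_lit 83)))) (.f1 w62 (nat_lit 0xfe023c00000000000000000) (nat_lit 0x1fdc000000000000000000) (nat_lit 6) (.ret (nat_lit 83)) (.f1 w111 (nat_lit 0xfe023c00000000000000000) (nat_lit 0x1fdc000000000000000000) (nat_lit 6) (.ret (nat_lit 83))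
  (.ret (nat_lit 86))))) (.f1 w4 (nat_lit 0x1fdc000000000000000000) (nat_lit 0xfe023c00000000000000000) (nat_lit 6) (.f1 w4 (nat_lit 0x1fdc000000000000000000) (nat_lit 0xfe023c00000000000000000) (nat_lit 6) (.f1 w4 (nat_lit 0xfe023c00000000000000000) (nat_lit 0x1fdc000000000000000000) (nat_lit 6) (.f0 (nat_lit 0xfc254000000000000000000) (nat_lit 0x3dabc00000000000000000) (nat_lit 6) (.ret (nat_lit 83))
  (.f1 w62 (nat_lit 0xfe023c00000000000000000) (nat_lit 0x1fdc000000000000000000) (nat_lit 6) (.ret (nat_lit 83)) (.ret (nat_lit 86)))) (.f1 w18 (nat_lit 0xfc240000000000000000000) (nat_lit 0x3dbfc00000000000000000) (nat_lit 6) (.f1 w24 (nat_lit 0xfe023c00000000000000000) (nat_lit 0x1fdc000000000000000000) (nat_lit 6) (.ret (nat_lit 83)) (.ret (nat_lit 86))) s595)) (.f1 w72 (nat_lit 0xfe023c00000000000000000) (nat_lit 0x1fdc000000000000000000) (nat_lit 4) (.ret (nat_lit 83)) (.f1 w29 (nat_lit 0xfc250000000000000000000) (nat_lit 0x3dafc00000000000000000) (nat_lit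 4) (.ret (nat_lit 83)) (.ret (nat_lit 84))))) (.ret (nat_lit 83))))
noncomputable def s2164 : FP := .f1 w24 (nat_lit 0x1fdc000000000000000000) (nat_lit 0xfe023c00000000000000000) (nat_lit 6) (.f1 w4 (nat_lit 0x1fdc000000000000000000) (nat_lit 0xfe023c00000000000000000) (nat_lit 6) (.f1 w62 (nat_lit 0xfe023c00000000000000000) (nat_lit 0x1fdc000000000000000000) (nat_lit 6) s1927 (.ret (nat_lit 70))) s2018) (.f1 w72 (nat_lit 0xfe023c00000000000000000) (nat_lit 0x1fdc000000000000000000) (nat_lit 3) (.ret (nat_lit 0)) (.ret (nat_lit 67)))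
noncomputable def s2169 : FP := .f1 w4 (nat_lit 0x1fdc000000000000000000) (nat_lit 0xfe023c00000000000000000) (nat_lit 6) (.f1 w4 (nat_lit 0xfe023c00000000000000000) (nat_lit 0x1fdc000000000000000000) (nat_lit 6) (.f1 w62 (nat_lit 0x1fdc000000000000000000) (nat_lit 0xfe023c00000000000000000) (nat_lit 3) (.ret (nat_lit 67)) s440) (.f1 w62 (nat_lit 0x1fdc000000000000000000) (nat_lit 0xfe023c00000000000000000) (nat_lit 6) (.ret (nat_lit 70)) s2012)) (.f1 w72 (nat_lit 0x1fdc000000000000000000) (nat_lit 0xfe023c00000000000000000) (nat_lit 3) (.ret (nat_lit 67)) s2024)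
noncomputable def s2170 : FP := .f1 w63 (nat_lit 0x1fdc000000000000000000) (nat_lit 0xfe023c00000000000000000) (nat_lit 6) (.ret (nat_lit 70)) s652
noncomputable def s2171 : FP := .f1 w90 (nat_lit 0x3dabc00000000000000000) (nat_lit 0xfc254000000000000000000) (nat_lit 3) (.ret (nat_lit 67)) s1902
noncomputable def s2174 : FP := .f1 w72 (nat_lit 0x1fdc000000000000000000) (nat_lit 0xfe023c00000000000000000) (nat_lit 3) (.ret (nat_lit 67)) s652
noncomputable def s2198 : FP := .v1 w9 (nat_lit 0x3e0000000000000000) (nat_lit 0x10000000000000000) (nat_lit 6) (.v1 w4 (nat_lit 0x3e0000000000000000) (nat_lit 0x10000000000000000) (nat_lit 6) (.f1 w118 (nat_lit 0xfd000000000000000000000) (nat_lit 0x2fffc00000000000000000) (nat_lit 6) s2087 (.f1 w4 (nat_lit 0xfd000000000000000000000) (nat_lit 0x2fffc00000000000000000) (nat_lit 3) (.f1 w118 (nat_lit 0xfd000000000000000000000)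
  (nat_lit 0x2fffc00000000000000000) (nat_lit 3) (.f1 w30 (nat_lit 0x3dabc00000000000000000) (nat_lit 0xfc254000000000000000000) (nat_lit 3) (.f1 w77 (nat_lit 0x1fdc000000000000000000) (nat_lit 0xfe023c00000000000000000) (nat_lit 1) (.f1 w4 (nat_lit 0xfe023c00000000000000000) (nat_lit 0x1fdc000000000000000000) (nat_lit 1) (.ret (nat_lit 0)) s671) (.ret (nat_lit 0))) (.f1 w77 (nat_lit 0xfe023c00000000000000000)
  (nat_lit 0x1fdc000000000000000000) (nat_lit 3) (.f0 (nat_lit 0xfc254000000000000000000) (nat_lit 0x3dabc00000000000000000) (nat_lit 3) s1905 s1904) s656)) (.ret (nat_lit 0))) (.f1 w180 (nat_lit 0x1fdc000000000000000000) (nat_lit 0xfe023c00000000000000000) (nat_lit 1) s1896 s1898))) (.ret (nat_lit 0))) (.v0 (nat_lit 0x3d0000000000000000) (nat_lit 0x20000000000000000) (nat_lit 6) s2158 (.v1 w1 (nat_lit 0x370000000000000000)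
  (nat_lit 0x80000000000000000) (nat_lit 6) (.f1 w1 (nat_lit 0xfc000400000000000000000) (nat_lit 0x3fff800000000000000000) (nat_lit 6) (.f1 w75 (nat_lit 0x3fff800000000000000000) (nat_lit 0xfc000400000000000000000) (nat_lit 6) (.f1 w192 (nat_lit 0xfc254000000000000000000) (nat_lit 0x3dabc00000000000000000) (nat_lit 6) (.f1 w4 (nat_lit 0xfe023c00000000000000000) (nat_lit 0x1fdc000000000000000000) (nat_lit 6)
  (.f0 (nat_lit 0xfc254000000000000000000) (nat_lit 0x3dabc00000000000000000) (nat_lit 6) (.f1 w74 (nat_lit 0x1fdc000000000000000000) (nat_lit 0xfe023c00000000000000000) (nat_lit 3) (.ret (nat_lit 67)) s652) (.f1 w24 (nat_lit 0xfe023c00000000000000000) (nat_lit 0x1fdc000000000000000000) (nat_lit 6) (.f1 w63 (nat_lit 0x1fdc000000000000000000) (nat_lit 0xfe023c00000000000000000) (nat_lit 3) (.ret (nat_lit 67)) s2171)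
  (.f1 w63 (nat_lit 0x1fdc000000000000000000) (nat_lit 0xfe023c00000000000000000) (nat_lit 6) (.f1 w117 (nat_lit 0xfe023c00000000000000000) (nat_lit 0x1fdc000000000000000000) (nat_lit 6) (.ret (nat_lit 67)) (.ret (nat_lit 70))) s652))) s2169) s2164) (.ret (nat_lit 0))) (.f1 w86 (nat_lit 0xfd000000000000000000000) (nat_lit 0x2fffc00000000000000000) (nat_lit 6) (.f1 w4 (nat_lit 0xfd000000000000000000000)
  (nat_lit 0x2fffc00000000000000000) (nat_lit 6) (.f1 w37 (nat_lit 0xfc254000000000000000000) (nat_lit 0x3dabc00000000000000000) (nat_lit 6) (.f0 (nat_lit 0x3f77c00000000000000000) (nat_lit 0xfc088000000000000000000) (nat_lit 6) (.f1 w4 (nat_lit 0xfe023c00000000000000000) (nat_lit 0x1fdc000000000000000000) (nat_lit 6) (.f0 (nat_lit 0xfc254000000000000000000) (nat_lit 0x3dabc00000000000000000) (nat_lit 6)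
  (.f1 w119 (nat_lit 0x1fdc000000000000000000) (nat_lit 0xfe023c00000000000000000) (nat_lit 3) (.ret (nat_lit 67)) s652) (.f1 w4 (nat_lit 0x1fdc000000000000000000) (nat_lit 0xfe023c00000000000000000) (nat_lit 6) (.f1 w4 (nat_lit 0xfe023c00000000000000000) (nat_lit 0x1fdc000000000000000000) (nat_lit 6) (.f1 w63 (nat_lit 0x1fdc000000000000000000) (nat_lit 0xfe023c00000000000000000) (nat_lit 3) s2039 s2171) s2170) s2174)) s2169)
  (.f1 w24 (nat_lit 0x1fdc000000000000000000) (nat_lit 0xfe023c00000000000000000) (nat_lit 6) (.f1 w4 (nat_lit 0x1fdc000000000000000000) (nat_lit 0xfe023c00000000000000000) (nat_lit 6) s2170 (.f1 w62 (nat_lit 0x1fdc000000000000000000) (nat_lit 0xfe023c00000000000000000) (nat_lit 3) (.ret (nat_lit 67)) s2054)) s2174)) s2164) (.f1 w70 (nat_lit 0xfc254000000000000000000) (nat_lit 0x3dabc00000000000000000) (nat_lit 1) (.ret (nat_lit 0)) (.ret (nat_lit 65)))) (.f1 w74 (nat_lit 0xfe023c00000000000000000) (nat_lit 0x1fdc000000000000000000) (nat_lit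 1) s440 (.ret (nat_lit 65))))) (.ret (nat_lit 0))))
noncomputable def s2210 : FP := .f1 w194 (nat_lit 0x1fdc000000000000000000) (nat_lit 0xfe023c00000000000000000) (nat_lit 6) (.f1 w18 (nat_lit 0x1fdc000000000000000000) (nat_lit 0xfe023c00000000000000000) (nat_lit 6) (.f1 w25 (nat_lit 0xfe023c00000000000000000) (nat_lit 0x1fdc000000000000000000) (nat_lit 6) (.f0 (nat_lit 0xfc254000000000000000000) (nat_lit 0x3dabc00000000000000000) (nat_lit 3) (.ret
  (nat_lit 81)) (.ret (nat_lit 83))) (.f1 w124 (nat_lit 0x1fdc000000000000000000) (nat_lit 0xfe023c00000000000000000) (nat_lit 6) (.f1 w24 (nat_lit 0x1fdc000000000000000000) (nat_lit 0xfe023c00000000000000000) (nat_lit 6) (.f1 w155 (nat_lit 0xfe023c00000000000000000) (nat_lit 0x1fdc000000000000000000) (nat_lit 6) s597 s2122) (.ret (nat_lit 83))) (.ret (nat_lit 83)))) (.f1 w25 (nat_lit 0x1fdc000000000000000000) (nat_lit 0xfe023c00000000000000000) (nat_lit 3) (.ret (nat_lit 83)) (.ret (nat_lit 82)))) (.f1 w79 (nat_lit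 0x1fdc000000000000000000) (nat_lit 0xfe023c00000000000000000) (nat_lit 3) (.ret (nat_lit 83)) (.ret (nat_lit 82)))
noncomputable def s2236 : FP := .v1 w9 (nat_lit 0x3e0000000000000000) (nat_lit 0x10000000000000000) (nat_lit 6) (.v1 w4 (nat_lit 0x20000000000000000) (nat_lit 0x3d0000000000000000) (nat_lit 6) (.ret (nat_lit 0)) (.f0 (nat_lit 0x3ffc000000000000000000) (nat_lit 0xfc003c00000000000000000) (nat_lit 6) (.f0 (nat_lit 0xfc000800000000000000000) (nat_lit 0x3fff400000000000000000) (nat_lit 6) (.f0 (nat_lit 0x3ffec00000000000000000)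
  (nat_lit 0xfc001000000000000000000) (nat_lit 6) (.v1 w9 (nat_lit 0x3e0000000000000000) (nat_lit 0x10000000000000000) (nat_lit 6) (.v1 w4 (nat_lit 0x3e0000000000000000) (nat_lit 0x10000000000000000) (nat_lit 6) (.f1 w127 (nat_lit 0xfd000000000000000000000) (nat_lit 0x2fffc00000000000000000) (nat_lit 6) s2210 s2210) (.ret (nat_lit 0))) (.ret (nat_lit 0))) (.ret (nat_lit 0))) (.v1 w9 (nat_lit 0x3e0000000000000000)
  (nat_lit 0x10000000000000000) (nat_lit 3) (.f1 w193 (nat_lit 0xfd000000000000000000000) (nat_lit 0x2fffc00000000000000000) (nat_lit 3) (.ret (nat_lit 83)) (.ret (nat_lit 82))) (.ret (nat_lit 0)))) (.f1 w122 (nat_lit 0xfd000000000000000000000) (nat_lit 0x2fffc00000000000000000) (nat_lit 3) (.f1 w196 (nat_lit 0x1fdc000000000000000000) (nat_lit 0xfe023c00000000000000000) (nat_lit 3) (.ret (nat_lit 83))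
  (.ret (nat_lit 0))) (.f1 w195 (nat_lit 0xfd000000000000000000000) (nat_lit 0x2fffc00000000000000000) (nat_lit 2) (.ret (nat_lit 82)) (.ret (nat_lit 0)))))) (.v0 (nat_lit 0x3d0000000000000000) (nat_lit 0x20000000000000000) (nat_lit 4) (.f0 (nat_lit 0x3ffc000000000000000000) (nat_lit 0xfc003c00000000000000000) (nat_lit 4) (.f0 (nat_lit 0xfc000800000000000000000) (nat_lit 0x3fff400000000000000000) (nat_lit 4)
  (.f0 (nat_lit 0x3ffec00000000000000000) (nat_lit 0xfc001000000000000000000) (nat_lit 4) (.v1 w14 (nat_lit 0x3e0000000000000000) (nat_lit 0x10000000000000000) (nat_lit 4) (.f1 w200 (nat_lit 0xfd000000000000000000000) (nat_lit 0x2fffc00000000000000000) (nat_lit 4) (.f1 w199 (nat_lit 0x1fdc000000000000000000) (nat_lit 0xfe023c00000000000000000) (nat_lit 4) (.f1 w63 (nat_lit 0x1fdc000000000000000000)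
  (nat_lit 0xfe023c00000000000000000) (nat_lit 4) (.f1 w18 (nat_lit 0x1fdc000000000000000000) (nat_lit 0xfe023c00000000000000000) (nat_lit 4) (.f1 w184 (nat_lit 0x1fdc000000000000000000) (nat_lit 0xfe023c00000000000000000) (nat_lit 4) (.f1 w198 (nat_lit 0xfc254000000000000000000) (nat_lit 0x3dabc00000000000000000) (nat_lit 4) (.ret (nat_lit 99)) (.ret (nat_lit 100))) (.ret (nat_lit 99))) s805) (.f1 w18
  (nat_lit 0x1fdc000000000000000000) (nat_lit 0xfe023c00000000000000000) (nat_lit 3) (.ret (nat_lit 99)) (.ret (nat_lit 0)))) (.f1 w84 (nat_lit 0x1fdc000000000000000000) (nat_lit 0xfe023c00000000000000000) (nat_lit 3) (.ret (nat_lit 99)) (.ret (nat_lit 0)))) (.ret (nat_lit 98))) (.ret (nat_lit 0))) (.ret (nat_lit 0))) (.f1 w197 (nat_lit 0xfd000000000000000000000) (nat_lit 0x2fffc00000000000000000) (nat_lit 3) (.ret (nat_lit 99)) (.ret (nat_lit 98)))) (.f1 w25 (nat_lit 0xfe023c00000000000000000) (nat_lit 0x1fdc000000000000000000) (nat_lit 3) (.ret (nat_lit 0))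 (.ret (nat_lit 99)))) (.ret (nat_lit 0)))
noncomputable def s2243 : FP := .f1 w81 (nat_lit 0x1fdc000000000000000000) (nat_lit 0xfe023c00000000000000000) (nat_lit 3) (.f1 w201 (nat_lit 0x1fdc000000000000000000) (nat_lit 0xfe023c00000000000000000) (nat_lit 3) (.f1 w4 (nat_lit 0x1fdc000000000000000000) (nat_lit 0xfe023c00000000000000000) (nat_lit 3) (.f1 w10 (nat_lit 0xfc254000000000000000000) (nat_lit 0x3dabc00000000000000000) (nat_lit 3) (.f0
  (nat_lit 0x3f77c00000000000000000) (nat_lit 0xfc088000000000000000000) (nat_lit 3) (.f1 w71 (nat_lit 0x1fdc000000000000000000) (nat_lit 0xfe023c00000000000000000) (nat_lit 3) (.f1 w29 (nat_lit 0xfe023c00000000000000000) (nat_lit 0x1fdc000000000000000000) (nat_lit 3) (.ret (nat_lit 0)) (.ret (nat_lit 83))) (.ret (nat_lit 0))) (.ret (nat_lit 0))) (.ret (nat_lit 82))) (.ret (nat_lit 0))) (.ret (nat_lit 0))) (.ret (nat_lit 0))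
noncomputable def s2259 : FP := .f1 w146 (nat_lit 0x1fdc000000000000000000) (nat_lit 0xfe023c00000000000000000) (nat_lit 2) (.f1 w63 (nat_lit 0xfe023c00000000000000000) (nat_lit 0x1fdc000000000000000000) (nat_lit 2) (.f0 (nat_lit 0xfc254000000000000000000) (nat_lit 0x3dabc00000000000000000) (nat_lit 2) (.f0 (nat_lit 0x3f77c00000000000000000) (nat_lit 0xfc088000000000000000000) (nat_lit 1) (.ret (nat_lit 97)) (.ret (nat_lit 0))) (.f1 w184 (nat_lit 0xfe023c00000000000000000) (nat_lit 0x1fdc000000000000000000) (nat_lit 2) (.ret (nat_lit 97)) (.ret (nat_lit 98)))) (.ret (nat_lit 98))) (.ret (nat_lit 0))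
noncomputable def s2262 : FP := .f1 w206 (nat_lit 0xfe023c00000000000000000) (nat_lit 0x1fdc000000000000000000) (nat_lit 2) (.f0 (nat_lit 0x3dabc00000000000000000) (nat_lit 0xfc254000000000000000000) (nat_lit 2) s2259 (.f1 w205 (nat_lit 0xfc254000000000000000000) (nat_lit 0x3dabc00000000000000000) (nat_lit 1) (.ret (nat_lit 0)) (.ret (nat_lit 97)))) s2259
noncomputable def s2272 : FP := .f0 (nat_lit 0x3dabc00000000000000000) (nat_lit 0xfc254000000000000000000) (nat_lit 1) (.ret (nat_lit 241)) (.ret (nat_lit 0))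
noncomputable def s2276 : FP := .f1 w184 (nat_lit 0xfe023c00000000000000000) (nat_lit 0x1fdc000000000000000000) (nat_lit 3) (.ret (nat_lit 242)) (.ret (nat_lit 243))
noncomputable def s2282 : FP := .f1 w63 (nat_lit 0x1fdc000000000000000000) (nat_lit 0xfe023c00000000000000000) (nat_lit 3) (.f1 w37 (nat_lit 0x1fdc000000000000000000) (nat_lit 0xfe023c00000000000000000) (nat_lit 3) (.f1 w4 (nat_lit 0x1fdc000000000000000000) (nat_lit 0xfe023c00000000000000000) (nat_lit 3) (.f1 w27 (nat_lit 0xfc254000000000000000000) (nat_lit 0x3dabc00000000000000000) (nat_lit 3) (.ret (nat_lit 0)) (.f1 w71 (nat_lit 0x1fdc000000000000000000) (nat_lit 0xfe023c00000000000000000) (nat_lit 3) (.f1 w4 (nat_lit 0xfe023c00000000000000000) (nat_lit 0x1fdc000000000000000000) (nat_lit 3) (.ret (nat_lit 0)) s2276) (.ret (nat_lit 0)))) (.ret (nat_lit 0))) (.ret (nat_lit 0))) (.ret (nat_lit 0))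
noncomputable def s2304 : FP := .f1 w157 (nat_lit 0xfd000000000000000000000) (nat_lit 0x2fffc00000000000000000) (nat_lit 4) (.f1 w211 (nat_lit 0x3dabc00000000000000000) (nat_lit 0xfc254000000000000000000) (nat_lit 4) (.f1 w4 (nat_lit 0xfe023c00000000000000000) (nat_lit 0x1fdc000000000000000000) (nat_lit 4) (.f0 (nat_lit 0xfc254000000000000000000) (nat_lit 0x3dabc00000000000000000) (nat_lit 4) (.f1 w4
  (nat_lit 0xfe023c00000000000000000) (nat_lit 0x1fdc000000000000000000) (nat_lit 3) (.f1 w209 (nat_lit 0x1fdc000000000000000000) (nat_lit 0xfe023c00000000000000000) (nat_lit 1) (.ret (nat_lit 241)) s2272) (.f1 w10 (nat_lit 0xfc254000000000000000000) (nat_lit 0x3dabc00000000000000000) (nat_lit 3) (.ret (nat_lit 0)) (.f1 w63 (nat_lit 0x1fdc000000000000000000) (nat_lit 0xfe023c00000000000000000) (nat_lit 3)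
  (.f1 w37 (nat_lit 0x1fdc000000000000000000) (nat_lit 0xfe023c00000000000000000) (nat_lit 3) (.f1 w4 (nat_lit 0x1fdc000000000000000000) (nat_lit 0xfe023c00000000000000000) (nat_lit 3) (.f1 w30 (nat_lit 0x1fdc000000000000000000) (nat_lit 0xfe023c00000000000000000) (nat_lit 3) (.f1 w4 (nat_lit 0xfe023c00000000000000000) (nat_lit 0x1fdc000000000000000000) (nat_lit 3) (.ret (nat_lit 0)) (.ret (nat_lit 243)))
  (.ret (nat_lit 0))) (.ret (nat_lit 0))) (.ret (nat_lit 0))) (.ret (nat_lit 0))))) (.f1 w44 (nat_lit 0xfe023c00000000000000000) (nat_lit 0x1fdc000000000000000000) (nat_lit 4) s2282 (.f1 w63 (nat_lit 0x1fdc000000000000000000) (nat_lit 0xfe023c00000000000000000) (nat_lit 4) (.f1 w37 (nat_lit 0x1fdc000000000000000000) (nat_lit 0xfe023c00000000000000000) (nat_lit 4) (.f1 w4 (nat_lit 0x1fdc000000000000000000)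
  (nat_lit 0xfe023c00000000000000000) (nat_lit 4) (.f1 w118 (nat_lit 0xfe023c00000000000000000) (nat_lit 0x1fdc000000000000000000) (nat_lit 4) (.ret (nat_lit 0)) (.ret (nat_lit 244))) (.ret (nat_lit 0))) (.ret (nat_lit 0))) (.f1 w37 (nat_lit 0x1fdc000000000000000000) (nat_lit 0xfe023c00000000000000000) (nat_lit 3) (.f1 w81 (nat_lit 0xfe023c00000000000000000) (nat_lit 0x1fdc000000000000000000) (nat_lit 3)
  (.ret (nat_lit 0)) s2276) (.ret (nat_lit 0)))))) (.f1 w44 (nat_lit 0xfe023c00000000000000000) (nat_lit 0x1fdc000000000000000000) (nat_lit 3) s2282 (.f1 w208 (nat_lit 0x1fdc000000000000000000) (nat_lit 0xfe023c00000000000000000) (nat_lit 3) (.f1 w184 (nat_lit 0xfe023c00000000000000000) (nat_lit 0x1fdc000000000000000000) (nat_lit 3) s2272 (.ret (nat_lit 243))) (.ret (nat_lit 0))))) (.f1 w210 (nat_lit 0x1fdc000000000000000000) (nat_lit 0xfe023c00000000000000000) (nat_lit 3) (.ret (nat_lit 243)) (.ret (nat_lit 0)))) (.ret (nat_lit 0))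
noncomputable def s2310 : FP := .f0 (nat_lit 0xfc001000000000000000000) (nat_lit 0x3ffec00000000000000000) (nat_lit 6) (.v1 w9 (nat_lit 0x3e0000000000000000) (nat_lit 0x10000000000000000) (nat_lit 4) (.v1 w4 (nat_lit 0x3e0000000000000000) (nat_lit 0x10000000000000000) (nat_lit 3) (.v1 w4 (nat_lit 0x3d0000000000000000) (nat_lit 0x20000000000000000) (nat_lit 3) (.f0 (nat_lit 0x3fff400000000000000000)
  (nat_lit 0xfc000800000000000000000) (nat_lit 3) (.v1 w9 (nat_lit 0x10000000000000000) (nat_lit 0x3e0000000000000000) (nat_lit 3) (.ret (nat_lit 0)) (.v1 w4 (nat_lit 0x10000000000000000) (nat_lit 0x3e0000000000000000) (nat_lit 3) (.ret (nat_lit 0)) (.f1 w204 (nat_lit 0xfd000000000000000000000) (nat_lit 0x2fffc00000000000000000) (nat_lit 3) (.f1 w203 (nat_lit 0x3dabc00000000000000000) (nat_lit 0xfc254000000000000000000)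
  (nat_lit 3) (.f1 w4 (nat_lit 0xfe023c00000000000000000) (nat_lit 0x1fdc000000000000000000) (nat_lit 3) (.f0 (nat_lit 0x3dabc00000000000000000) (nat_lit 0xfc254000000000000000000) (nat_lit 3) s2243 (.ret (nat_lit 0))) s2243) (.f1 w202 (nat_lit 0xfc254000000000000000000) (nat_lit 0x3dabc00000000000000000) (nat_lit 3) (.f0 (nat_lit 0x3f77c00000000000000000) (nat_lit 0xfc088000000000000000000) (nat_lit 3)
  (.ret (nat_lit 83)) (.ret (nat_lit 0))) (.ret (nat_lit 83)))) (.ret (nat_lit 0))))) (.ret (nat_lit 0))) (.ret (nat_lit 0))) (.v0 (nat_lit 0x3d0000000000000000) (nat_lit 0x20000000000000000) (nat_lit 2) (.f0 (nat_lit 0x3fff400000000000000000) (nat_lit 0xfc000800000000000000000) (nat_lit 2) (.v1 w9 (nat_lit 0x10000000000000000) (nat_lit 0x3e0000000000000000) (nat_lit 2) (.ret (nat_lit 0)) (.v1 w4 (nat_lit 0x10000000000000000)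
  (nat_lit 0x3e0000000000000000) (nat_lit 2) (.ret (nat_lit 0)) (.f1 w207 (nat_lit 0xfd000000000000000000000) (nat_lit 0x2fffc00000000000000000) (nat_lit 2) (.f1 w91 (nat_lit 0xfd000000000000000000000) (nat_lit 0x2fffc00000000000000000) (nat_lit 2) s2262 s2262) (.ret (nat_lit 0))))) (.ret (nat_lit 0))) (.ret (nat_lit 0)))) (.v0 (nat_lit 0x3d0000000000000000) (nat_lit 0x20000000000000000) (nat_lit 4) (.v1 w25 (nat_lit 0x3e0000000000000000) (nat_lit 0x10000000000000000) (nat_lit 4) (.f1 w27 (nat_lit 0x3fff400000000000000000) (nat_lit 0xfc000800000000000000000) (nat_lit 4) (.v1 w14 (nat_lit 0x3e0000000000000000) (nat_lit 0x10000000000000000) (nat_lit 4) s2304 (.ret (nat_lit 0))) (.ret (nat_lit 0))) (.ret (nat_lit 0))) (.ret (nat_lit 0)))) s2236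
noncomputable def s2315 : FP := .f1 w21 (nat_lit 0xfc254000000000000000000) (nat_lit 0x3dabc00000000000000000) (nat_lit 3) (.ret (nat_lit 0)) (.ret (nat_lit 259))
noncomputable def s2318 : FP := .f1 w24 (nat_lit 0xfe023c00000000000000000) (nat_lit 0x1fdc000000000000000000) (nat_lit 3) (.ret (nat_lit 0)) (.f1 w21 (nat_lit 0xfe023c00000000000000000) (nat_lit 0x1fdc000000000000000000) (nat_lit 3) (.ret (nat_lit 0)) s2315)
noncomputable def s2319 : FP := .f1 w18 (nat_lit 0xfe023c00000000000000000) (nat_lit 0x1fdc000000000000000000) (nat_lit 3) s2318 (.f1 w24 (nat_lit 0xfe023c00000000000000000) (nat_lit 0x1fdc000000000000000000) (nat_lit 3) (.ret (nat_lit 0)) s2315)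
noncomputable def s2322 : FP := .f0 (nat_lit 0xfc254000000000000000000) (nat_lit 0x3dabc00000000000000000) (nat_lit 3) (.ret (nat_lit 0)) (.ret (nat_lit 259))
noncomputable def s2323 : FP := .f1 w4 (nat_lit 0xfe023c00000000000000000) (nat_lit 0x1fdc000000000000000000) (nat_lit 3) s2322 (.ret (nat_lit 259))
noncomputable def s2324 : FP := .f1 w4 (nat_lit 0xfe023c00000000000000000) (nat_lit 0x1fdc000000000000000000) (nat_lit 3) (.ret (nat_lit 0)) s2315
noncomputable def s2329 : FP := .f1 w63 (nat_lit 0xfe023c00000000000000000) (nat_lit 0x1fdc000000000000000000) (nat_lit 3) (.f1 w37 (nat_lit 0xfe023c00000000000000000) (nat_lit 0x1fdc000000000000000000) (nat_lit 3) (.ret (nat_lit 0)) (.f1 w4 (nat_lit 0xfe023c00000000000000000) (nat_lit 0x1fdc000000000000000000) (nat_lit 3) (.ret (nat_lit 0)) (.f1 w4 (nat_lit 0xfc254000000000000000000) (nat_lit 0x3dabc00000000000000000) (nat_lit 3) (.ret (nat_lit 0)) (.ret (nat_lit 259))))) (.f1 w37 (nat_lit 0x1fdc000000000000000000)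 (nat_lit 0xfe023c00000000000000000) (nat_lit 3) s2323 s2324)
noncomputable def s2333 : FP := .f1 w63 (nat_lit 0xfe023c00000000000000000) (nat_lit 0x1fdc000000000000000000) (nat_lit 3) (.ret (nat_lit 0)) (.f1 w37 (nat_lit 0xfe023c00000000000000000) (nat_lit 0x1fdc000000000000000000) (nat_lit 3) (.ret (nat_lit 0)) (.f1 w4 (nat_lit 0xfe023c00000000000000000) (nat_lit 0x1fdc000000000000000000) (nat_lit 3) (.ret (nat_lit 0)) (.f1 w27 (nat_lit 0xfc254000000000000000000) (nat_lit 0x3dabc00000000000000000) (nat_lit 3) (.ret (nat_lit 0)) (.ret (nat_lit 259)))))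
noncomputable def s2334 : FP := .f1 w4 (nat_lit 0xfe023c00000000000000000) (nat_lit 0x1fdc000000000000000000) (nat_lit 3) s2333 s2329
noncomputable def s2339 : FP := .f0 (nat_lit 0xfc254000000000000000000) (nat_lit 0x3dabc00000000000000000) (nat_lit 2) (.ret (nat_lit 0)) (.f1 w4 (nat_lit 0xfe023c00000000000000000) (nat_lit 0x1fdc000000000000000000) (nat_lit 2) (.ret (nat_lit 0)) (.f1 w18 (nat_lit 0xfc254000000000000000000) (nat_lit 0x3dabc00000000000000000) (nat_lit 2) (.ret (nat_lit 0)) (.f1 w24 (nat_lit 0xfd000000000000000000000) (nat_lit 0x2fffc00000000000000000) (nat_lit 2) (.ret (nat_lit 258)) (.ret (nat_lit 0)))))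
noncomputable def s2345 : FP := .f1 w4 (nat_lit 0xfe023c00000000000000000) (nat_lit 0x1fdc000000000000000000) (nat_lit 1) (.ret (nat_lit 0)) (.ret (nat_lit 257))
noncomputable def s2348 : FP := .f0 (nat_lit 0x3dabc00000000000000000) (nat_lit 0xfc254000000000000000000) (nat_lit 1) (.f1 w18 (nat_lit 0xfe023c00000000000000000) (nat_lit 0x1fdc000000000000000000) (nat_lit 1) (.ret (nat_lit 0)) (.f1 w4 (nat_lit 0xfe023c00000000000000000) (nat_lit 0x1fdc000000000000000000) (nat_lit 1) (.ret (nat_lit 0)) s2345)) (.ret (nat_lit 0))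
noncomputable def s2356 : FP := .f0 (nat_lit 0xfc254000000000000000000) (nat_lit 0x3dabc00000000000000000) (nat_lit 1) (.ret (nat_lit 0)) (.ret (nat_lit 257))
noncomputable def s2357 : FP := .f1 w24 (nat_lit 0xfe023c00000000000000000) (nat_lit 0x1fdc000000000000000000) (nat_lit 5) s2356 (.ret (nat_lit 261))
noncomputable def s2359 : FP := .f1 w24 (nat_lit 0xfe023c00000000000000000) (nat_lit 0x1fdc000000000000000000) (nat_lit 1) (.ret (nat_lit 0)) (.f1 w37 (nat_lit 0xfc254000000000000000000) (nat_lit 0x3dabc00000000000000000) (nat_lit 1) (.ret (nat_lit 0)) (.ret (nat_lit 257)))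
noncomputable def s2362 : FP := .f1 w24 (nat_lit 0xfe023c00000000000000000) (nat_lit 0x1fdc000000000000000000) (nat_lit 5) (.ret (nat_lit 259)) (.ret (nat_lit 261))
noncomputable def s2363 : FP := .f1 w24 (nat_lit 0xfe023c00000000000000000) (nat_lit 0x1fdc000000000000000000) (nat_lit 3) (.ret (nat_lit 0)) (.ret (nat_lit 259))
noncomputable def s2376 : FP := .f1 w62 (nat_lit 0xfe023c00000000000000000) (nat_lit 0x1fdc000000000000000000) (nat_lit 3) (.ret (nat_lit 0)) (.ret (nat_lit 259))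
noncomputable def s2385 : FP := .f1 w4 (nat_lit 0xfe023c00000000000000000) (nat_lit 0x1fdc000000000000000000) (nat_lit 3) (.ret (nat_lit 0)) (.ret (nat_lit 259))
noncomputable def s2386 : FP := .f0 (nat_lit 0xfc254000000000000000000) (nat_lit 0x3dabc00000000000000000) (nat_lit 3) (.ret (nat_lit 0)) s2385
noncomputable def s2388 : FP := .f1 w4 (nat_lit 0xfe023c00000000000000000) (nat_lit 0x1fdc000000000000000000) (nat_lit 3) s2356 (.ret (nat_lit 259))
noncomputable def s2389 : FP := .f1 w4 (nat_lit 0xfe023c00000000000000000) (nat_lit 0x1fdc000000000000000000) (nat_lit 2) (.ret (nat_lit 0)) (.ret (nat_lit 258))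
noncomputable def s2390 : FP := .f0 (nat_lit 0xfc088000000000000000000) (nat_lit 0x3f77c00000000000000000) (nat_lit 1) (.ret (nat_lit 0)) s2345
noncomputable def s2394 : FP := .f0 (nat_lit 0xfc088000000000000000000) (nat_lit 0x3f77c00000000000000000) (nat_lit 1) (.ret (nat_lit 0)) (.f1 w4 (nat_lit 0xfc254000000000000000000) (nat_lit 0x3dabc00000000000000000) (nat_lit 1) (.ret (nat_lit 0)) s2345)
noncomputable def s2397 : FP := .f0 (nat_lit 0xfc254000000000000000000) (nat_lit 0x3dabc00000000000000000) (nat_lit 1) (.ret (nat_lit 0)) s2345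
noncomputable def s2400 : FP := .f0 (nat_lit 0x3dabc00000000000000000) (nat_lit 0xfc254000000000000000000) (nat_lit 3) (.f1 w18 (nat_lit 0x1fdc000000000000000000) (nat_lit 0xfe023c00000000000000000) (nat_lit 3) (.f1 w4 (nat_lit 0xfe023c00000000000000000) (nat_lit 0x1fdc000000000000000000) (nat_lit 3) s2397 s2385) (.ret (nat_lit 0))) (.ret (nat_lit 0))
noncomputable def s2403 : FP := .f1 w21 (nat_lit 0x1fdc000000000000000000) (nat_lit 0xfe023c00000000000000000) (nat_lit 6) (.f1 w24 (nat_lit 0x1fdc000000000000000000) (nat_lit 0xfe023c00000000000000000) (nat_lit 6) (.f1 w4 (nat_lit 0xfe023c00000000000000000) (nat_lit 0x1fdc000000000000000000) (nat_lit 6) s2400 (.f1 w18 (nat_lit 0x1fdc000000000000000000) (nat_lit 0xfe023c00000000000000000) (nat_lit 6)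
  (.f1 w4 (nat_lit 0xfe023c00000000000000000) (nat_lit 0x1fdc000000000000000000) (nat_lit 6) s2386 (.f1 w4 (nat_lit 0xfe023c00000000000000000) (nat_lit 0x1fdc000000000000000000) (nat_lit 6) s2322 (.ret (nat_lit 262)))) (.f0 (nat_lit 0xfc254000000000000000000) (nat_lit 0x3dabc00000000000000000) (nat_lit 3) s2394 (.f1 w4 (nat_lit 0xfe023c00000000000000000) (nat_lit 0x1fdc000000000000000000) (nat_lit 3) (.f0 (nat_lit 0xfc254000000000000000000) (nat_lit 0x3dabc00000000000000000) (nat_lit 2) s2390 s2389) s2388)))) (.ret (nat_lit 0))) (.ret (nat_lit 0))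
noncomputable def s2404 : FP := .f0 (nat_lit 0xfc088000000000000000000) (nat_lit 0x3f77c00000000000000000) (nat_lit 3) (.ret (nat_lit 258)) (.ret (nat_lit 259))
noncomputable def s2406 : FP := .f0 (nat_lit 0xfc254000000000000000000) (nat_lit 0x3dabc00000000000000000) (nat_lit 3) (.f0 (nat_lit 0xfd000000000000000000000) (nat_lit 0x2fffc00000000000000000) (nat_lit 3) s2404 (.ret (nat_lit 0))) (.ret (nat_lit 259))
noncomputable def s2411 : FP := .f1 w24 (nat_lit 0xfe023c00000000000000000) (nat_lit 0x1fdc000000000000000000) (nat_lit 3) (.ret (nat_lit 0)) (.f1 w37 (nat_lit 0x3f77c00000000000000000) (nat_lit 0xfc088000000000000000000) (nat_lit 3) (.ret (nat_lit 259)) (.ret (nat_lit 258)))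
noncomputable def s2413 : FP := .f1 w18 (nat_lit 0x1fdc000000000000000000) (nat_lit 0xfe023c00000000000000000) (nat_lit 6) (.f1 w4 (nat_lit 0xfe023c00000000000000000) (nat_lit 0x1fdc000000000000000000) (nat_lit 6) s2323 (.f1 w4 (nat_lit 0xfe023c00000000000000000) (nat_lit 0x1fdc000000000000000000) (nat_lit 6) s2406 (.ret (nat_lit 262)))) (.f0 (nat_lit 0x3dabc00000000000000000) (nat_lit 0xfc254000000000000000000) (nat_lit 3) (.f1 w24 (nat_lit 0xfe023c00000000000000000) (nat_lit 0x1fdc000000000000000000) (nat_lit 3) s2322 (.ret (nat_lit 259))) s2411)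
noncomputable def s2416 : FP := .f0 (nat_lit 0xfc088000000000000000000) (nat_lit 0x3f77c00000000000000000) (nat_lit 3) (.f0 (nat_lit 0xfd000000000000000000000) (nat_lit 0x2fffc00000000000000000) (nat_lit 2) (.f1 w62 (nat_lit 0xfe023c00000000000000000) (nat_lit 0x1fdc000000000000000000) (nat_lit 2) (.ret (nat_lit 0)) (.ret (nat_lit 258))) (.ret (nat_lit 0))) s2329
noncomputable def s2417 : FP := .f0 (nat_lit 0xfc254000000000000000000) (nat_lit 0x3dabc00000000000000000) (nat_lit 3) s2416 s2376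
noncomputable def s2418 : FP := .f1 w4 (nat_lit 0xfe023c00000000000000000) (nat_lit 0x1fdc000000000000000000) (nat_lit 6) s2417 s2413
noncomputable def s2420 : FP := .f0 (nat_lit 0xfc254000000000000000000) (nat_lit 0x3dabc00000000000000000) (nat_lit 1) s2390 s2345
noncomputable def s2427 : FP := .f1 w4 (nat_lit 0xfe023c00000000000000000) (nat_lit 0x1fdc000000000000000000) (nat_lit 3) (.ret (nat_lit 0)) (.f1 w18 (nat_lit 0x1fdc000000000000000000) (nat_lit 0xfe023c00000000000000000) (nat_lit 3) (.f1 w4 (nat_lit 0xfe023c00000000000000000) (nat_lit 0x1fdc000000000000000000) (nat_lit 3) s2324 s2385) s2318)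
noncomputable def s2429 : FP := .f0 (nat_lit 0xfc254000000000000000000) (nat_lit 0x3dabc00000000000000000) (nat_lit 3) (.f0 (nat_lit 0xfc088000000000000000000) (nat_lit 0x3f77c00000000000000000) (nat_lit 3) (.ret (nat_lit 0)) s2427) (.f1 w4 (nat_lit 0xfe023c00000000000000000) (nat_lit 0x1fdc000000000000000000) (nat_lit 3) s2400 (.f1 w18 (nat_lit 0xfe023c00000000000000000) (nat_lit 0x1fdc000000000000000000) (nat_lit 3) (.f0 (nat_lit 0xfc254000000000000000000) (nat_lit 0x3dabc00000000000000000) (nat_lit 1) s2394 (.f1 w4 (nat_lit 0xfe023c00000000000000000) (nat_lit 0x1fdc000000000000000000) (nat_lit 1) s2420 s2345)) (.f1 w4 (nat_lit 0xfe023c00000000000000000) (nat_lit 0x1fdc000000000000000000) (nat_lit 3) s2386 s2388)))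
noncomputable def s2439 : FP := .f0 (nat_lit 0xfc254000000000000000000) (nat_lit 0x3dabc00000000000000000) (nat_lit 3) (.f0 (nat_lit 0xfc088000000000000000000) (nat_lit 0x3f77c00000000000000000) (nat_lit 3) (.ret (nat_lit 0)) (.f1 w24 (nat_lit 0xfe023c00000000000000000) (nat_lit 0x1fdc000000000000000000) (nat_lit 3) (.ret (nat_lit 0)) s2427)) (.f1 w24 (nat_lit 0xfe023c00000000000000000) (nat_lit 0x1fdc000000000000000000)
  (nat_lit 3) (.ret (nat_lit 0)) (.f1 w4 (nat_lit 0xfe023c00000000000000000) (nat_lit 0x1fdc000000000000000000) (nat_lit 3) s2348 (.f1 w18 (nat_lit 0x1fdc000000000000000000) (nat_lit 0xfe023c00000000000000000) (nat_lit 3) (.f1 w4 (nat_lit 0x1fdc000000000000000000) (nat_lit 0xfe023c00000000000000000) (nat_lit 3) s2323 s2397) (.f0 (nat_lit 0xfc254000000000000000000) (nat_lit 0x3dabc00000000000000000) (nat_lit 3) s2394 (.f1 w4 (nat_lit 0xfe023c00000000000000000) (nat_lit 0x1fdc000000000000000000) (nat_lit 3) s2420 s2388)))))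
noncomputable def s2449 : FP := .f0 (nat_lit 0xfc254000000000000000000) (nat_lit 0x3dabc00000000000000000) (nat_lit 3) s2416 (.f1 w63 (nat_lit 0xfe023c00000000000000000) (nat_lit 0x1fdc000000000000000000) (nat_lit 3) (.ret (nat_lit 0)) (.ret (nat_lit 259)))
noncomputable def s2455 : FP := .f1 w62 (nat_lit 0x1fdc000000000000000000) (nat_lit 0xfe023c00000000000000000) (nat_lit 3) (.ret (nat_lit 259)) s2322
noncomputable def s2475 : FP := .f1 w21 (nat_lit 0xfe023c00000000000000000) (nat_lit 0x1fdc000000000000000000) (nat_lit 6) (.f0 (nat_lit 0xfc254000000000000000000) (nat_lit 0x3dabc00000000000000000) (nat_lit 3) (.f1 w24 (nat_lit 0xfe023c00000000000000000) (nat_lit 0x1fdc000000000000000000) (nat_lit 3) s2339 s2334) (.f1 w24 (nat_lit 0xfe023c00000000000000000) (nat_lit 0x1fdc000000000000000000) (nat_lit 3)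
  (.f0 (nat_lit 0xfc254000000000000000000) (nat_lit 0x3dabc00000000000000000) (nat_lit 3) (.f1 w4 (nat_lit 0x1fdc000000000000000000) (nat_lit 0xfe023c00000000000000000) (nat_lit 3) (.f1 w18 (nat_lit 0xfe023c00000000000000000) (nat_lit 0x1fdc000000000000000000) (nat_lit 3) (.f1 w4 (nat_lit 0x3dabc00000000000000000) (nat_lit 0xfc254000000000000000000) (nat_lit 2) s2389 (.ret (nat_lit 0))) (.f1 w24 (nat_lit 0xfe023c00000000000000000)
  (nat_lit 0x1fdc000000000000000000) (nat_lit 3) (.ret (nat_lit 0)) (.f1 w21 (nat_lit 0xfe023c00000000000000000) (nat_lit 0x1fdc000000000000000000) (nat_lit 3) (.ret (nat_lit 0)) (.ret (nat_lit 259))))) (.ret (nat_lit 0))) (.f1 w4 (nat_lit 0xfe023c00000000000000000) (nat_lit 0x1fdc000000000000000000) (nat_lit 3) (.f1 w18 (nat_lit 0x1fdc000000000000000000) (nat_lit 0xfe023c00000000000000000) (nat_lit 2)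
  (.f1 w24 (nat_lit 0xfe023c00000000000000000) (nat_lit 0x1fdc000000000000000000) (nat_lit 1) (.ret (nat_lit 0)) (.ret (nat_lit 257))) (.f1 w24 (nat_lit 0xfe023c00000000000000000) (nat_lit 0x1fdc000000000000000000) (nat_lit 2) (.ret (nat_lit 0)) (.ret (nat_lit 258)))) (.f1 w62 (nat_lit 0xfe023c00000000000000000) (nat_lit 0x1fdc000000000000000000) (nat_lit 3) (.f0 (nat_lit 0xfd000000000000000000000)
  (nat_lit 0x2fffc00000000000000000) (nat_lit 2) (.ret (nat_lit 258)) (.ret (nat_lit 0))) (.ret (nat_lit 259))))) (.f1 w4 (nat_lit 0xfe023c00000000000000000) (nat_lit 0x1fdc000000000000000000) (nat_lit 3) (.f0 (nat_lit 0xfc254000000000000000000) (nat_lit 0x3dabc00000000000000000) (nat_lit 3) (.f1 w63 (nat_lit 0xfe023c00000000000000000) (nat_lit 0x1fdc000000000000000000) (nat_lit 3) (.ret (nat_lit 0))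
  (.f1 w60 (nat_lit 0xfd000000000000000000000) (nat_lit 0x2fffc00000000000000000) (nat_lit 3) s2404 (.ret (nat_lit 0)))) s2455) s2455))) (.f1 w24 (nat_lit 0xfe023c00000000000000000) (nat_lit 0x1fdc000000000000000000) (nat_lit 6) (.f0 (nat_lit 0xfc254000000000000000000) (nat_lit 0x3dabc00000000000000000) (nat_lit 3) s2334 (.f1 w4 (nat_lit 0x1fdc000000000000000000) (nat_lit 0xfe023c00000000000000000)
  (nat_lit 3) (.f1 w62 (nat_lit 0xfe023c00000000000000000) (nat_lit 0x1fdc000000000000000000) (nat_lit 3) s2406 (.ret (nat_lit 259))) s2449)) (.f1 w4 (nat_lit 0xfe023c00000000000000000) (nat_lit 0x1fdc000000000000000000) (nat_lit 6) s2449 (.f1 w18 (nat_lit 0x1fdc000000000000000000) (nat_lit 0xfe023c00000000000000000) (nat_lit 6) (.f1 w24 (nat_lit 0xfe023c00000000000000000) (nat_lit 0x1fdc000000000000000000)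
  (nat_lit 6) s2406 (.f1 w21 (nat_lit 0xfe023c00000000000000000) (nat_lit 0x1fdc000000000000000000) (nat_lit 6) (.f0 (nat_lit 0xfc254000000000000000000) (nat_lit 0x3dabc00000000000000000) (nat_lit 5) s2404 (.ret (nat_lit 261))) (.ret (nat_lit 262)))) (.f0 (nat_lit 0xfc254000000000000000000) (nat_lit 0x3dabc00000000000000000) (nat_lit 5) s2411 (.f1 w4 (nat_lit 0xfe023c00000000000000000) (nat_lit 0x1fdc000000000000000000) (nat_lit 5) s2385 (.f1 w4 (nat_lit 0xfe023c00000000000000000) (nat_lit 0x1fdc000000000000000000) (nat_lit 5) s2322 (.ret (nat_lit 261))))))))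
noncomputable def s2480 : FP := .f1 w24 (nat_lit 0xfd000000000000000000000) (nat_lit 0x2fffc00000000000000000) (nat_lit 6) (.f1 w30 (nat_lit 0xfd000000000000000000000) (nat_lit 0x2fffc00000000000000000) (nat_lit 6) (.f1 w4 (nat_lit 0xfd000000000000000000000) (nat_lit 0x2fffc00000000000000000) (nat_lit 6) (.f1 w118 (nat_lit 0xfc254000000000000000000) (nat_lit 0x3dabc00000000000000000) (nat_lit 6) (.f0
  (nat_lit 0x3f77c00000000000000000) (nat_lit 0xfc088000000000000000000) (nat_lit 6) (.f1 w21 (nat_lit 0xfe023c00000000000000000) (nat_lit 0x1fdc000000000000000000) (nat_lit 6) s2439 (.f1 w24 (nat_lit 0xfe023c00000000000000000) (nat_lit 0x1fdc000000000000000000) (nat_lit 6) s2429 s2418)) s2475) s2403) (.f1 w21 (nat_lit 0x3fff400000000000000000) (nat_lit 0xfc000800000000000000000) (nat_lit 5) (.v1 w16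
  (nat_lit 0x20000000000000000) (nat_lit 0x3d0000000000000000) (nat_lit 5) (.ret (nat_lit 0)) (.v1 w35 (nat_lit 0x3e0000000000000000) (nat_lit 0x10000000000000000) (nat_lit 5) (.f1 w37 (nat_lit 0x1fdc000000000000000000) (nat_lit 0xfe023c00000000000000000) (nat_lit 5) (.f1 w214 (nat_lit 0x3dabc00000000000000000) (nat_lit 0xfc254000000000000000000) (nat_lit 5) (.f1 w27 (nat_lit 0x1fdc000000000000000000)
  (nat_lit 0xfe023c00000000000000000) (nat_lit 5) (.f1 w18 (nat_lit 0xfe023c00000000000000000) (nat_lit 0x1fdc000000000000000000) (nat_lit 5) s2359 s2357) (.f1 w18 (nat_lit 0xfe023c00000000000000000) (nat_lit 0x1fdc000000000000000000) (nat_lit 2) s2359 (.f1 w24 (nat_lit 0xfe023c00000000000000000) (nat_lit 0x1fdc000000000000000000) (nat_lit 2) s2356 (.ret (nat_lit 258))))) (.f1 w27 (nat_lit 0xfe023c00000000000000000)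
  (nat_lit 0x1fdc000000000000000000) (nat_lit 5) s2376 (.f1 w18 (nat_lit 0xfe023c00000000000000000) (nat_lit 0x1fdc000000000000000000) (nat_lit 5) s2363 s2362))) (.ret (nat_lit 0))) (.ret (nat_lit 0)))) (.ret (nat_lit 0)))) (.f1 w4 (nat_lit 0x3fff400000000000000000) (nat_lit 0xfc000800000000000000000) (nat_lit 5) (.v1 w6 (nat_lit 0x20000000000000000) (nat_lit 0x3d0000000000000000) (nat_lit 5) (.ret
  (nat_lit 0)) (.v1 w25 (nat_lit 0x3e0000000000000000) (nat_lit 0x10000000000000000) (nat_lit 5) (.f1 w4 (nat_lit 0x1fdc000000000000000000) (nat_lit 0xfe023c00000000000000000) (nat_lit 5) (.f1 w213 (nat_lit 0x3dabc00000000000000000) (nat_lit 0xfc254000000000000000000) (nat_lit 5) (.f1 w24 (nat_lit 0x1fdc000000000000000000) (nat_lit 0xfe023c00000000000000000) (nat_lit 5) (.f1 w17 (nat_lit 0xfe023c00000000000000000)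
  (nat_lit 0x1fdc000000000000000000) (nat_lit 5) s2359 s2357) (.ret (nat_lit 0))) (.f1 w24 (nat_lit 0xfe023c00000000000000000) (nat_lit 0x1fdc000000000000000000) (nat_lit 5) (.ret (nat_lit 0)) (.f1 w17 (nat_lit 0xfe023c00000000000000000) (nat_lit 0x1fdc000000000000000000) (nat_lit 5) s2363 s2362))) (.ret (nat_lit 0))) (.ret (nat_lit 0)))) (.ret (nat_lit 0)))) (.f1 w212 (nat_lit 0xfc254000000000000000000)
  (nat_lit 0x3dabc00000000000000000) (nat_lit 3) (.f0 (nat_lit 0x3f77c00000000000000000) (nat_lit 0xfc088000000000000000000) (nat_lit 3) (.f1 w21 (nat_lit 0xfe023c00000000000000000) (nat_lit 0x1fdc000000000000000000) (nat_lit 3) (.ret (nat_lit 0)) (.f1 w25 (nat_lit 0x1fdc000000000000000000) (nat_lit 0xfe023c00000000000000000) (nat_lit 3) s2319 s2348)) (.f1 w21 (nat_lit 0xfe023c00000000000000000) (nat_lit 0x1fdc000000000000000000) (nat_lit 3) (.ret (nat_lit 0)) (.f1 w25 (nat_lit 0x1fdc000000000000000000) (nat_lit 0xfe023c00000000000000000) (nat_lit 3) s2329 s2333)))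 (.ret (nat_lit 0)))
noncomputable def s2483 : FP := .f1 w22 (nat_lit 0xfe023c00000000000000000) (nat_lit 0x1fdc000000000000000000) (nat_lit 6) (.ret (nat_lit 163)) (.ret (nat_lit 166))
noncomputable def s2493 : FP := .f1 w22 (nat_lit 0xfd000000000000000000000) (nat_lit 0x2fffc00000000000000000) (nat_lit 6) (.ret (nat_lit 166)) (.ret (nat_lit 163))
noncomputable def s2497 : FP := .f1 w10 (nat_lit 0xfe023c00000000000000000) (nat_lit 0x1fdc000000000000000000) (nat_lit 6) s2483 s2493
noncomputable def s2499 : FP := .f1 w24 (nat_lit 0xfe023c00000000000000000) (nat_lit 0x1fdc000000000000000000) (nat_lit 6) (.f0 (nat_lit 0xfc254000000000000000000) (nat_lit 0x3dabc00000000000000000) (nat_lit 6) (.ret (nat_lit 163)) s2497) (.f1 w10 (nat_lit 0xfe023c00000000000000000) (nat_lit 0x1fdc000000000000000000) (nat_lit 6) (.f1 w22 (nat_lit 0x1fdc000000000000000000) (nat_lit 0xfe023c00000000000000000) (nat_lit 6) (.ret (nat_lit 166)) (.f1 w143 (nat_lit 0xfc254000000000000000000)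 (nat_lit 0x3dabc00000000000000000) (nat_lit 6) (.ret (nat_lit 163)) s2493)) (.ret (nat_lit 166)))
noncomputable def s2512 : FP := .f1 w11 (nat_lit 0xfc254000000000000000000) (nat_lit 0x3dabc00000000000000000) (nat_lit 6) (.f0 (nat_lit 0xfc088000000000000000000) (nat_lit 0x3f77c00000000000000000) (nat_lit 6) (.f1 w21 (nat_lit 0x1fdc000000000000000000) (nat_lit 0xfe023c00000000000000000) (nat_lit 6) s2499 (.f0 (nat_lit 0x3dabc00000000000000000) (nat_lit 0xfc254000000000000000000) (nat_lit 6) (.f1 w52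
  (nat_lit 0xfe023c00000000000000000) (nat_lit 0x1fdc000000000000000000) (nat_lit 6) (.f1 w22 (nat_lit 0xfe023c00000000000000000) (nat_lit 0x1fdc000000000000000000) (nat_lit 6) (.ret (nat_lit 163)) (.f1 w216 (nat_lit 0xfe023c00000000000000000) (nat_lit 0x1fdc000000000000000000) (nat_lit 6) (.ret (nat_lit 163)) (.ret (nat_lit 166)))) (.f1 w188 (nat_lit 0x1fdc000000000000000000) (nat_lit 0xfe023c00000000000000000)
  (nat_lit 6) (.f1 w4 (nat_lit 0xfe023c00000000000000000) (nat_lit 0x1fdc000000000000000000) (nat_lit 6) (.ret (nat_lit 163)) (.f1 w215 (nat_lit 0x1fdc000000000000000000) (nat_lit 0xfe023c00000000000000000) (nat_lit 6) (.ret (nat_lit 166)) (.ret (nat_lit 163)))) (.ret (nat_lit 163)))) (.ret (nat_lit 163)))) (.f1 w21 (nat_lit 0x1fdc000000000000000000) (nat_lit 0xfe023c00000000000000000) (nat_lit 6) s2499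
  (.f0 (nat_lit 0x3dabc00000000000000000) (nat_lit 0xfc254000000000000000000) (nat_lit 6) (.f1 w24 (nat_lit 0xfe023c00000000000000000) (nat_lit 0x1fdc000000000000000000) (nat_lit 6) (.ret (nat_lit 163)) s2497) (.ret (nat_lit 163))))) (.f1 w21 (nat_lit 0x1fdc000000000000000000) (nat_lit 0xfe023c00000000000000000) (nat_lit 6) (.f1 w24 (nat_lit 0xfe023c00000000000000000) (nat_lit 0x1fdc000000000000000000)
  (nat_lit 6) (.f0 (nat_lit 0xfc254000000000000000000) (nat_lit 0x3dabc00000000000000000) (nat_lit 6) (.ret (nat_lit 163)) (.f1 w64 (nat_lit 0xfe023c00000000000000000) (nat_lit 0x1fdc000000000000000000) (nat_lit 6) (.ret (nat_lit 163)) (.ret (nat_lit 166)))) (.f1 w10 (nat_lit 0xfe023c00000000000000000) (nat_lit 0x1fdc000000000000000000) (nat_lit 6) (.f0 (nat_lit 0xfc254000000000000000000) (nat_lit 0x3dabc00000000000000000)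
  (nat_lit 6) s2483 (.ret (nat_lit 166))) (.ret (nat_lit 166)))) (.f0 (nat_lit 0xfc254000000000000000000) (nat_lit 0x3dabc00000000000000000) (nat_lit 6) (.ret (nat_lit 163)) (.f1 w24 (nat_lit 0xfe023c00000000000000000) (nat_lit 0x1fdc000000000000000000) (nat_lit 6) (.ret (nat_lit 163)) (.f1 w10 (nat_lit 0xfe023c00000000000000000) (nat_lit 0x1fdc000000000000000000) (nat_lit 6) (.ret (nat_lit 163)) (.ret (nat_lit 166))))))
noncomputable def s2513 : FP := .f1 w18 (nat_lit 0x1fdc000000000000000000) (nat_lit 0xfe023c00000000000000000) (nat_lit 6) s1251 (.ret (nat_lit 163))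
noncomputable def s2516 : FP := .f1 w24 (nat_lit 0x1fdc000000000000000000) (nat_lit 0xfe023c00000000000000000) (nat_lit 6) (.f1 w28 (nat_lit 0xfe023c00000000000000000) (nat_lit 0x1fdc000000000000000000) (nat_lit 6) (.ret (nat_lit 164)) (.f1 w24 (nat_lit 0x1fdc000000000000000000) (nat_lit 0xfe023c00000000000000000) (nat_lit 6) s1319 (.ret (nat_lit 163)))) (.ret (nat_lit 163))
noncomputable def s2526 : FP := .f0 (nat_lit 0xfc254000000000000000000) (nat_lit 0x3dabc00000000000000000) (nat_lit 6) (.ret (nat_lit 163)) (.ret (nat_lit 166))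
noncomputable def s2527 : FP := .f1 w24 (nat_lit 0xfe023c00000000000000000) (nat_lit 0x1fdc000000000000000000) (nat_lit 6) s2526 (.ret (nat_lit 166))
noncomputable def s2548 : FP := .f0 (nat_lit 0x3ffc000000000000000000) (nat_lit 0xfc003c00000000000000000) (nat_lit 6) (.f0 (nat_lit 0x3fff400000000000000000) (nat_lit 0xfc000800000000000000000) (nat_lit 6) s2512 (.f0 (nat_lit 0x3ffec00000000000000000) (nat_lit 0xfc001000000000000000000) (nat_lit 6) (.f1 w190 (nat_lit 0xfe023c00000000000000000) (nat_lit 0x1fdc000000000000000000) (nat_lit 6) (.f1 w22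
  (nat_lit 0x1fdc000000000000000000) (nat_lit 0xfe023c00000000000000000) (nat_lit 6) (.f1 w22 (nat_lit 0x3dabc00000000000000000) (nat_lit 0xfc254000000000000000000) (nat_lit 6) (.f1 w158 (nat_lit 0x1fdc000000000000000000) (nat_lit 0xfe023c00000000000000000) (nat_lit 6) s2516 (.ret (nat_lit 163))) (.ret (nat_lit 163))) (.ret (nat_lit 163))) (.f1 w22 (nat_lit 0x1fdc000000000000000000) (nat_lit 0xfe023c00000000000000000)
  (nat_lit 6) s2513 (.f0 (nat_lit 0xfc254000000000000000000) (nat_lit 0x3dabc00000000000000000) (nat_lit 6) (.ret (nat_lit 163)) (.f1 w18 (nat_lit 0xfe023c00000000000000000) (nat_lit 0x1fdc000000000000000000) (nat_lit 6) (.ret (nat_lit 163)) s2516)))) (.ret (nat_lit 0)))) (.f1 w71 (nat_lit 0xfc254000000000000000000) (nat_lit 0x3dabc00000000000000000) (nat_lit 6) (.f1 w24 (nat_lit 0x1fdc000000000000000000)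
  (nat_lit 0xfe023c00000000000000000) (nat_lit 6) (.f1 w62 (nat_lit 0x1fdc000000000000000000) (nat_lit 0xfe023c00000000000000000) (nat_lit 6) (.f1 w29 (nat_lit 0xfc250000000000000000000) (nat_lit 0x3dafc00000000000000000) (nat_lit 6) (.f1 w7 (nat_lit 0xfe023c00000000000000000) (nat_lit 0x1fdc000000000000000000) (nat_lit 6) (.ret (nat_lit 163)) s1251) (.f1 w7 (nat_lit 0xfe023c00000000000000000) (nat_lit 0x1fdc000000000000000000)
  (nat_lit 6) (.ret (nat_lit 163)) s2527)) (.f1 w217 (nat_lit 0xfe023c00000000000000000) (nat_lit 0x1fdc000000000000000000) (nat_lit 6) (.ret (nat_lit 163)) s1251)) (.f1 w62 (nat_lit 0x1fdc000000000000000000) (nat_lit 0xfe023c00000000000000000) (nat_lit 6) (.f1 w63 (nat_lit 0xfc254000000000000000000) (nat_lit 0x3dabc00000000000000000) (nat_lit 6) (.ret (nat_lit 163)) (.f1 w218 (nat_lit 0xfe023c00000000000000000)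
  (nat_lit 0x1fdc000000000000000000) (nat_lit 6) (.ret (nat_lit 163)) s1251)) (.ret (nat_lit 163)))) (.f1 w21 (nat_lit 0x1fdc000000000000000000) (nat_lit 0xfe023c00000000000000000) (nat_lit 6) (.f1 w24 (nat_lit 0xfe023c00000000000000000) (nat_lit 0x1fdc000000000000000000) (nat_lit 6) (.f1 w4 (nat_lit 0x1fdc000000000000000000) (nat_lit 0xfe023c00000000000000000) (nat_lit 4) (.f1 w62 (nat_lit 0x1fdc000000000000000000)
  (nat_lit 0xfe023c00000000000000000) (nat_lit 4) (.f1 w29 (nat_lit 0xfc250000000000000000000) (nat_lit 0x3dafc00000000000000000) (nat_lit 4) (.ret (nat_lit 163)) (.f1 w22 (nat_lit 0xfc254000000000000000000) (nat_lit 0x3dabc00000000000000000) (nat_lit 4) (.ret (nat_lit 163)) (.ret (nat_lit 164)))) (.ret (nat_lit 163))) (.ret (nat_lit 163))) (.f1 w4 (nat_lit 0xfe023c00000000000000000) (nat_lit 0x1fdc000000000000000000)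
  (nat_lit 6) (.f0 (nat_lit 0xfc254000000000000000000) (nat_lit 0x3dabc00000000000000000) (nat_lit 6) (.ret (nat_lit 163)) (.f1 w62 (nat_lit 0xfe023c00000000000000000) (nat_lit 0x1fdc000000000000000000) (nat_lit 6) (.ret (nat_lit 163)) (.ret (nat_lit 166)))) (.f1 w18 (nat_lit 0xfc240000000000000000000) (nat_lit 0x3dbfc00000000000000000) (nat_lit 6) s1251 s2527))) (.ret (nat_lit 163))))
noncomputable def s2552 : FP := .f1 w21 (nat_lit 0x1fdc000000000000000000) (nat_lit 0xfe023c00000000000000000) (nat_lit 6) (.f1 w24 (nat_lit 0x1fdc000000000000000000) (nat_lit 0xfe023c00000000000000000) (nat_lit 6) (.f1 w4 (nat_lit 0x1fdc000000000000000000) (nat_lit 0xfe023c00000000000000000) (nat_lit 6) (.f1 w62 (nat_lit 0x1fdc000000000000000000) (nat_lit 0xfe023c00000000000000000) (nat_lit 6) (.ret (nat_lit 262)) s2322) s2376) (.ret (nat_lit 0))) (.ret (nat_lit 0))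
noncomputable def s2558 : FP := .f1 w21 (nat_lit 0xfe023c00000000000000000) (nat_lit 0x1fdc000000000000000000) (nat_lit 6) (.f1 w24 (nat_lit 0xfe023c00000000000000000) (nat_lit 0x1fdc000000000000000000) (nat_lit 3) (.ret (nat_lit 0)) s2385) (.f1 w24 (nat_lit 0x1fdc000000000000000000) (nat_lit 0xfe023c00000000000000000) (nat_lit 6) (.f1 w4 (nat_lit 0xfe023c00000000000000000) (nat_lit 0x1fdc000000000000000000) (nat_lit 6) (.ret (nat_lit 259)) (.f1 w62 (nat_lit 0xfe023c00000000000000000) (nat_lit 0x1fdc000000000000000000) (nat_lit 6) s2406 (.ret (nat_lit 262)))) (.f1 w72 (nat_lit 0x1fdc000000000000000000) (nat_lit 0xfe023c00000000000000000) (nat_lit 3) (.ret (nat_lit 259)) s2356))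
noncomputable def s2572 : FP := .f1 w79 (nat_lit 0xfe023c00000000000000000) (nat_lit 0x1fdc000000000000000000) (nat_lit 2) (.ret (nat_lit 0)) (.ret (nat_lit 162))
noncomputable def s2595 : FP := .f0 (nat_lit 0x3ffc000000000000000000) (nat_lit 0xfc003c00000000000000000) (nat_lit 6) (.f0 (nat_lit 0xfc000800000000000000000) (nat_lit 0x3fff400000000000000000) (nat_lit 6) (.f0 (nat_lit 0x3ffec00000000000000000) (nat_lit 0xfc001000000000000000000) (nat_lit 6) (.v1 w9 (nat_lit 0x3e0000000000000000) (nat_lit 0x10000000000000000) (nat_lit 6) (.v1 w4 (nat_lit 0x3e0000000000000000)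
  (nat_lit 0x10000000000000000) (nat_lit 6) (.f1 w220 (nat_lit 0xfc254000000000000000000) (nat_lit 0x3dabc00000000000000000) (nat_lit 6) (.f1 w24 (nat_lit 0x1fdc000000000000000000) (nat_lit 0xfe023c00000000000000000) (nat_lit 6) (.f1 w18 (nat_lit 0x1fdc000000000000000000) (nat_lit 0xfe023c00000000000000000) (nat_lit 6) (.f1 w25 (nat_lit 0x1fdc000000000000000000) (nat_lit 0xfe023c00000000000000000)
  (nat_lit 6) s2513 (.ret (nat_lit 163))) (.ret (nat_lit 163))) (.ret (nat_lit 163))) (.f1 w24 (nat_lit 0x1fdc000000000000000000) (nat_lit 0xfe023c00000000000000000) (nat_lit 3) (.f1 w18 (nat_lit 0x1fdc000000000000000000) (nat_lit 0xfe023c00000000000000000) (nat_lit 3) (.f1 w25 (nat_lit 0x1fdc000000000000000000) (nat_lit 0xfe023c00000000000000000) (nat_lit 3) (.f1 w18 (nat_lit 0x1fdc000000000000000000)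
  (nat_lit 0xfe023c00000000000000000) (nat_lit 3) (.f1 w24 (nat_lit 0x1fdc000000000000000000) (nat_lit 0xfe023c00000000000000000) (nat_lit 3) (.ret (nat_lit 163)) (.ret (nat_lit 0))) (.ret (nat_lit 0))) (.ret (nat_lit 0))) (.f1 w219 (nat_lit 0x1fdc000000000000000000) (nat_lit 0xfe023c00000000000000000) (nat_lit 2) (.f1 w24 (nat_lit 0xfe023c00000000000000000) (nat_lit 0x1fdc000000000000000000) (nat_lit 2)
  (.ret (nat_lit 0)) (.ret (nat_lit 162))) (.ret (nat_lit 0)))) (.ret (nat_lit 0)))) (.ret (nat_lit 0))) (.ret (nat_lit 0))) (.ret (nat_lit 0))) (.v1 w9 (nat_lit 0x3e0000000000000000) (nat_lit 0x10000000000000000) (nat_lit 3) (.f1 w99 (nat_lit 0x1fdc000000000000000000) (nat_lit 0xfe023c00000000000000000) (nat_lit 3) (.f1 w24 (nat_lit 0x1fdc000000000000000000) (nat_lit 0xfe023c00000000000000000) (nat_lit 3)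
  (.f1 w4 (nat_lit 0x1fdc000000000000000000) (nat_lit 0xfe023c00000000000000000) (nat_lit 3) (.f1 w79 (nat_lit 0x1fdc000000000000000000) (nat_lit 0xfe023c00000000000000000) (nat_lit 3) (.ret (nat_lit 163)) (.ret (nat_lit 0))) s2572) (.ret (nat_lit 0))) (.ret (nat_lit 0))) (.ret (nat_lit 0)))) (.f1 w7 (nat_lit 0x1fdc000000000000000000) (nat_lit 0xfe023c00000000000000000) (nat_lit 2) (.f1 w24 (nat_lit 0xfe023c00000000000000000) (nat_lit 0x1fdc000000000000000000) (nat_lit 2) (.ret (nat_lit 0)) (.f1 w4 (nat_lit 0xfe023c00000000000000000) (nat_lit 0x1fdc000000000000000000) (nat_lit 2) (.ret (nat_lit 0)) s2572)) (.ret (nat_lit 0)))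
noncomputable def s2623 : FP := .f0 (nat_lit 0xfc000800000000000000000) (nat_lit 0x3fff400000000000000000) (nat_lit 6) (.f0 (nat_lit 0x3ffec00000000000000000) (nat_lit 0xfc001000000000000000000) (nat_lit 6) (.v1 w14 (nat_lit 0x3e0000000000000000) (nat_lit 0x10000000000000000) (nat_lit 6) (.f1 w221 (nat_lit 0x3dabc00000000000000000) (nat_lit 0xfc254000000000000000000) (nat_lit 6) (.f1 w44 (nat_lit 0x1fdc000000000000000000)
  (nat_lit 0xfe023c00000000000000000) (nat_lit 3) (.f1 w63 (nat_lit 0x1fdc000000000000000000) (nat_lit 0xfe023c00000000000000000) (nat_lit 3) (.f1 w18 (nat_lit 0x1fdc000000000000000000) (nat_lit 0xfe023c00000000000000000) (nat_lit 3) (.f1 w18 (nat_lit 0x1fdc000000000000000000) (nat_lit 0xfe023c00000000000000000) (nat_lit 3) (.f1 w24 (nat_lit 0xfe023c00000000000000000) (nat_lit 0x1fdc000000000000000000)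
  (nat_lit 3) (.ret (nat_lit 0)) (.f1 w28 (nat_lit 0x1fdc000000000000000000) (nat_lit 0xfe023c00000000000000000) (nat_lit 3) (.f1 w24 (nat_lit 0xfe023c00000000000000000) (nat_lit 0x1fdc000000000000000000) (nat_lit 3) (.ret (nat_lit 114)) (.f1 w21 (nat_lit 0x3dabc00000000000000000) (nat_lit 0xfc254000000000000000000) (nat_lit 3) (.ret (nat_lit 115)) (.ret (nat_lit 0)))) (.ret (nat_lit 114)))) (.ret
  (nat_lit 0))) (.ret (nat_lit 0))) (.f1 w73 (nat_lit 0x1fdc000000000000000000) (nat_lit 0xfe023c00000000000000000) (nat_lit 2) (.f1 w24 (nat_lit 0xfe023c00000000000000000) (nat_lit 0x1fdc000000000000000000) (nat_lit 2) (.ret (nat_lit 0)) (.f1 w28 (nat_lit 0x1fdc000000000000000000) (nat_lit 0xfe023c00000000000000000) (nat_lit 2) (.ret (nat_lit 114)) (.ret (nat_lit 0)))) (.ret (nat_lit 0)))) (.ret (nat_lit 0)))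
  (.f1 w44 (nat_lit 0x1fdc000000000000000000) (nat_lit 0xfe023c00000000000000000) (nat_lit 6) (.f1 w63 (nat_lit 0x1fdc000000000000000000) (nat_lit 0xfe023c00000000000000000) (nat_lit 6) (.f1 w18 (nat_lit 0xfe023c00000000000000000) (nat_lit 0x1fdc000000000000000000) (nat_lit 6) (.ret (nat_lit 115)) (.f1 w18 (nat_lit 0x1fdc000000000000000000) (nat_lit 0xfe023c00000000000000000) (nat_lit 6) (.f1 w24 (nat_lit 0x1fdc000000000000000000)
  (nat_lit 0xfe023c00000000000000000) (nat_lit 6) (.ret (nat_lit 118)) (.ret (nat_lit 115))) (.ret (nat_lit 115)))) (.ret (nat_lit 115))) (.ret (nat_lit 115)))) (.ret (nat_lit 0))) (.ret (nat_lit 0))) (.f1 w123 (nat_lit 0x3dabc00000000000000000) (nat_lit 0xfc254000000000000000000) (nat_lit 3) (.f1 w21 (nat_lit 0x1fdc000000000000000000) (nat_lit 0xfe023c00000000000000000) (nat_lit 3) (.f1 w24 (nat_lit 0x1fdc000000000000000000) (nat_lit 0xfe023c00000000000000000) (nat_lit 3) (.f1 w10 (nat_lit 0x1fdc000000000000000000) (nat_lit 0xfe023c00000000000000000)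 (nat_lit 3) (.f1 w84 (nat_lit 0x1fdc000000000000000000) (nat_lit 0xfe023c00000000000000000) (nat_lit 3) (.ret (nat_lit 115)) (.ret (nat_lit 0))) (.ret (nat_lit 0))) (.ret (nat_lit 0))) (.ret (nat_lit 0))) (.ret (nat_lit 115)))
noncomputable def s2641 : FP := .f1 w24 (nat_lit 0x1fdc000000000000000000) (nat_lit 0xfe023c00000000000000000) (nat_lit 2) (.ret (nat_lit 114)) (.ret (nat_lit 0))
noncomputable def s2649 : FP := .f0 (nat_lit 0xfc254000000000000000000) (nat_lit 0x3dabc00000000000000000) (nat_lit 3) (.ret (nat_lit 0)) (.ret (nat_lit 115))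
noncomputable def s2660 : FP := .v1 w9 (nat_lit 0x3e0000000000000000) (nat_lit 0x10000000000000000) (nat_lit 3) (.v1 w4 (nat_lit 0x3e0000000000000000) (nat_lit 0x10000000000000000) (nat_lit 3) (.v1 w4 (nat_lit 0x3d0000000000000000) (nat_lit 0x20000000000000000) (nat_lit 3) (.f0 (nat_lit 0x3fff400000000000000000) (nat_lit 0xfc000800000000000000000) (nat_lit 3) (.v1 w9 (nat_lit 0x10000000000000000) (nat_lit 0x3e0000000000000000)
  (nat_lit 3) (.ret (nat_lit 0)) (.v1 w4 (nat_lit 0x10000000000000000) (nat_lit 0x3e0000000000000000) (nat_lit 3) (.ret (nat_lit 0)) (.f1 w223 (nat_lit 0xfc254000000000000000000) (nat_lit 0x3dabc00000000000000000) (nat_lit 3) (.f1 w21 (nat_lit 0x3dabc00000000000000000) (nat_lit 0xfc254000000000000000000) (nat_lit 3) (.f1 w202 (nat_lit 0x3f77c00000000000000000) (nat_lit 0xfc088000000000000000000) (nat_lit 3)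
  (.f1 w222 (nat_lit 0xfe023c00000000000000000) (nat_lit 0x1fdc000000000000000000) (nat_lit 3) (.ret (nat_lit 0)) (.ret (nat_lit 163))) (.ret (nat_lit 0))) (.ret (nat_lit 0))) (.ret (nat_lit 0))))) (.ret (nat_lit 0))) (.ret (nat_lit 0))) (.ret (nat_lit 0))) (.v0 (nat_lit 0x3d0000000000000000) (nat_lit 0x20000000000000000) (nat_lit 3) (.v1 w25 (nat_lit 0x3e0000000000000000) (nat_lit 0x10000000000000000)
  (nat_lit 3) (.f1 w27 (nat_lit 0x3fff400000000000000000) (nat_lit 0xfc000800000000000000000) (nat_lit 3) (.v1 w14 (nat_lit 0x3e0000000000000000) (nat_lit 0x10000000000000000) (nat_lit 3) (.f1 w226 (nat_lit 0x3dabc00000000000000000) (nat_lit 0xfc254000000000000000000) (nat_lit 3) (.f1 w224 (nat_lit 0x1fdc000000000000000000) (nat_lit 0xfe023c00000000000000000) (nat_lit 2) (.f1 w37 (nat_lit 0x1fdc000000000000000000)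
  (nat_lit 0xfe023c00000000000000000) (nat_lit 2) (.f1 w4 (nat_lit 0x1fdc000000000000000000) (nat_lit 0xfe023c00000000000000000) (nat_lit 2) (.f1 w27 (nat_lit 0x3dabc00000000000000000) (nat_lit 0xfc254000000000000000000) (nat_lit 2) (.f1 w71 (nat_lit 0x1fdc000000000000000000) (nat_lit 0xfe023c00000000000000000) (nat_lit 2) (.f1 w4 (nat_lit 0xfe023c00000000000000000) (nat_lit 0x1fdc000000000000000000)
  (nat_lit 2) (.ret (nat_lit 0)) (.f1 w18 (nat_lit 0xfe023c00000000000000000) (nat_lit 0x1fdc000000000000000000) (nat_lit 2) (.ret (nat_lit 0)) s2641)) (.ret (nat_lit 0))) (.ret (nat_lit 0))) (.ret (nat_lit 0))) (.ret (nat_lit 0))) (.ret (nat_lit 0))) (.f1 w21 (nat_lit 0xfe023c00000000000000000) (nat_lit 0x1fdc000000000000000000) (nat_lit 3) (.f1 w24 (nat_lit 0x1fdc000000000000000000) (nat_lit 0xfe023c00000000000000000)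
  (nat_lit 3) (.f1 w10 (nat_lit 0xfe023c00000000000000000) (nat_lit 0x1fdc000000000000000000) (nat_lit 3) (.ret (nat_lit 0)) (.ret (nat_lit 115))) (.ret (nat_lit 0))) (.f1 w225 (nat_lit 0x3dabc00000000000000000) (nat_lit 0xfc254000000000000000000) (nat_lit 3) (.f1 w22 (nat_lit 0x1fdc000000000000000000) (nat_lit 0xfe023c00000000000000000) (nat_lit 3) (.ret (nat_lit 115)) s2649) (.ret (nat_lit 0))))) (.ret (nat_lit 0))) (.ret (nat_lit 0))) (.ret (nat_lit 0))) (.ret (nat_lit 0)))
noncomputable def s2662 : FP := .f0 (nat_lit 0x3fff400000000000000000) (nat_lit 0xfc000800000000000000000) (nat_lit 6) (.v1 w9 (nat_lit 0x3e0000000000000000) (nat_lit 0x10000000000000000) (nat_lit 6) (.v1 w4 (nat_lit 0x3e0000000000000000) (nat_lit 0x10000000000000000) (nat_lit 6) (.f1 w30 (nat_lit 0xfd000000000000000000000) (nat_lit 0x2fffc00000000000000000) (nat_lit 6) s2480 (.f1 w82 (nat_lit 0xfd000000000000000000000)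
  (nat_lit 0x2fffc00000000000000000) (nat_lit 3) (.f1 w118 (nat_lit 0xfc254000000000000000000) (nat_lit 0x3dabc00000000000000000) (nat_lit 3) (.f0 (nat_lit 0x3f77c00000000000000000) (nat_lit 0xfc088000000000000000000) (nat_lit 3) (.f1 w4 (nat_lit 0xfe023c00000000000000000) (nat_lit 0x1fdc000000000000000000) (nat_lit 3) (.ret (nat_lit 0)) (.f1 w4 (nat_lit 0xfe023c00000000000000000) (nat_lit 0x1fdc000000000000000000)
  (nat_lit 3) (.ret (nat_lit 0)) s2319)) (.f1 w4 (nat_lit 0xfe023c00000000000000000) (nat_lit 0x1fdc000000000000000000) (nat_lit 3) s2339 s2334)) (.ret (nat_lit 0))) (.ret (nat_lit 0)))) (.ret (nat_lit 0))) (.v0 (nat_lit 0x3d0000000000000000) (nat_lit 0x20000000000000000) (nat_lit 6) s2548 (.v1 w1 (nat_lit 0x370000000000000000) (nat_lit 0x80000000000000000) (nat_lit 6) (.f1 w1 (nat_lit 0xfc000400000000000000000)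
  (nat_lit 0x3fff800000000000000000) (nat_lit 6) (.f1 w75 (nat_lit 0x3fff800000000000000000) (nat_lit 0xfc000400000000000000000) (nat_lit 6) (.f1 w81 (nat_lit 0xfc254000000000000000000) (nat_lit 0x3dabc00000000000000000) (nat_lit 6) (.f0 (nat_lit 0x3f77c00000000000000000) (nat_lit 0xfc088000000000000000000) (nat_lit 6) s2558 (.f1 w21 (nat_lit 0x1fdc000000000000000000) (nat_lit 0xfe023c00000000000000000)
  (nat_lit 6) (.f1 w24 (nat_lit 0x1fdc000000000000000000) (nat_lit 0xfe023c00000000000000000) (nat_lit 6) (.f1 w4 (nat_lit 0xfe023c00000000000000000) (nat_lit 0x1fdc000000000000000000) (nat_lit 6) (.ret (nat_lit 259)) (.f1 w63 (nat_lit 0xfe023c00000000000000000) (nat_lit 0x1fdc000000000000000000) (nat_lit 6) s2406 (.ret (nat_lit 262)))) (.ret (nat_lit 259))) (.ret (nat_lit 259)))) s2552) (.ret (nat_lit 0)))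
  (.f1 w86 (nat_lit 0x3dabc00000000000000000) (nat_lit 0xfc254000000000000000000) (nat_lit 6) s2552 s2558)) (.ret (nat_lit 0))))) (.f0 (nat_lit 0xfc001000000000000000000) (nat_lit 0x3ffec00000000000000000) (nat_lit 6) s2660 (.v1 w9 (nat_lit 0x3e0000000000000000) (nat_lit 0x10000000000000000) (nat_lit 6) (.v1 w4 (nat_lit 0x20000000000000000) (nat_lit 0x3d0000000000000000) (nat_lit 6) (.ret (nat_lit 0)) s2595)
  (.v0 (nat_lit 0x3d0000000000000000) (nat_lit 0x20000000000000000) (nat_lit 6) (.f0 (nat_lit 0x3ffc000000000000000000) (nat_lit 0xfc003c00000000000000000) (nat_lit 6) s2623 (.f1 w71 (nat_lit 0x3dabc00000000000000000) (nat_lit 0xfc254000000000000000000) (nat_lit 3) (.f1 w21 (nat_lit 0x1fdc000000000000000000) (nat_lit 0xfe023c00000000000000000) (nat_lit 2) (.f1 w24 (nat_lit 0x1fdc000000000000000000) (nat_lit 0xfe023c00000000000000000) (nat_lit 2) (.f1 w4 (nat_lit 0x1fdc000000000000000000) (nat_lit 0xfe023c00000000000000000) (nat_lit 2) (.f1 w79 (nat_lit 0xfe023c00000000000000000)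 (nat_lit 0x1fdc000000000000000000) (nat_lit 2) (.ret (nat_lit 0)) (.ret (nat_lit 114))) (.ret (nat_lit 0))) (.ret (nat_lit 0))) (.ret (nat_lit 0))) (.ret (nat_lit 115)))) (.ret (nat_lit 0)))))
noncomputable def s2666 : FP := .f1 w4 (nat_lit 0xfc254000000000000000000) (nat_lit 0x3dabc00000000000000000) (nat_lit 1) (.ret (nat_lit 0)) (.ret (nat_lit 129))
noncomputable def s2668 : FP := .f1 w4 (nat_lit 0xfe023c00000000000000000) (nat_lit 0x1fdc000000000000000000) (nat_lit 1) (.ret (nat_lit 0)) s1220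
noncomputable def s2669 : FP := .f0 (nat_lit 0xfc254000000000000000000) (nat_lit 0x3dabc00000000000000000) (nat_lit 1) (.ret (nat_lit 0)) s2668
noncomputable def s2670 : FP := .f1 w18 (nat_lit 0xfe023c00000000000000000) (nat_lit 0x1fdc000000000000000000) (nat_lit 1) s2669 (.f1 w4 (nat_lit 0xfe023c00000000000000000) (nat_lit 0x1fdc000000000000000000) (nat_lit 1) (.ret (nat_lit 0)) s2666)
noncomputable def s2674 : FP := .f1 w63 (nat_lit 0xfe023c00000000000000000) (nat_lit 0x1fdc000000000000000000) (nat_lit 1) (.ret (nat_lit 0)) (.f1 w37 (nat_lit 0xfe023c00000000000000000) (nat_lit 0x1fdc000000000000000000) (nat_lit 1) (.ret (nat_lit 0)) (.f1 w4 (nat_lit 0xfe023c00000000000000000) (nat_lit 0x1fdc000000000000000000) (nat_lit 1) (.ret (nat_lit 0)) (.f1 w27 (nat_lit 0xfc254000000000000000000) (nat_lit 0x3dabc00000000000000000) (nat_lit 1) (.ret (nat_lit 0)) (.ret (nat_lit 129)))))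
noncomputable def s2676 : FP := .f1 w21 (nat_lit 0xfe023c00000000000000000) (nat_lit 0x1fdc000000000000000000) (nat_lit 1) (.ret (nat_lit 0)) s2666
noncomputable def s2680 : FP := .f0 (nat_lit 0xfc254000000000000000000) (nat_lit 0x3dabc00000000000000000) (nat_lit 3) (.ret (nat_lit 0)) (.ret (nat_lit 131))
noncomputable def s2681 : FP := .f1 w4 (nat_lit 0xfe023c00000000000000000) (nat_lit 0x1fdc000000000000000000) (nat_lit 3) s2680 (.ret (nat_lit 131))
noncomputable def s2684 : FP := .f1 w111 (nat_lit 0xfe023c00000000000000000) (nat_lit 0x1fdc000000000000000000) (nat_lit 3) (.f1 w4 (nat_lit 0xfe023c00000000000000000) (nat_lit 0x1fdc000000000000000000) (nat_lit 3) (.ret (nat_lit 0)) (.f1 w21 (nat_lit 0xfc254000000000000000000) (nat_lit 0x3dabc00000000000000000) (nat_lit 3) (.ret (nat_lit 0)) (.ret (nat_lit 131)))) s2681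
noncomputable def s2698 : FP := .f1 w25 (nat_lit 0x1fdc000000000000000000) (nat_lit 0xfe023c00000000000000000) (nat_lit 3) (.ret (nat_lit 131)) (.f0 (nat_lit 0xfc254000000000000000000) (nat_lit 0x3dabc00000000000000000) (nat_lit 3) (.f0 (nat_lit 0xfc088000000000000000000) (nat_lit 0x3f77c00000000000000000) (nat_lit 3) (.f0 (nat_lit 0xfd000000000000000000000) (nat_lit 0x2fffc00000000000000000) (nat_lit 2) (.ret (nat_lit 130)) (.ret (nat_lit 0))) (.ret (nat_lit 131))) (.ret (nat_lit 131)))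
noncomputable def s2699 : FP := .f1 w227 (nat_lit 0xfc254000000000000000000) (nat_lit 0x3dabc00000000000000000) (nat_lit 3) s1192 (.ret (nat_lit 131))
noncomputable def s2700 : FP := .f1 w25 (nat_lit 0x1fdc000000000000000000) (nat_lit 0xfe023c00000000000000000) (nat_lit 3) (.ret (nat_lit 131)) s2699
noncomputable def s2708 : FP := .f1 w4 (nat_lit 0xfe023c00000000000000000) (nat_lit 0x1fdc000000000000000000) (nat_lit 5) s1008 (.ret (nat_lit 133))
noncomputable def s2723 : FP := .f1 w4 (nat_lit 0xfe023c00000000000000000) (nat_lit 0x1fdc000000000000000000) (nat_lit 3) (.ret (nat_lit 0)) (.ret (nat_lit 131))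
noncomputable def s2724 : FP := .f0 (nat_lit 0x3dabc00000000000000000) (nat_lit 0xfc254000000000000000000) (nat_lit 3) s2723 (.ret (nat_lit 0))
noncomputable def s2725 : FP := .f1 w4 (nat_lit 0xfe023c00000000000000000) (nat_lit 0x1fdc000000000000000000) (nat_lit 6) s2724 (.f1 w4 (nat_lit 0xfe023c00000000000000000) (nat_lit 0x1fdc000000000000000000) (nat_lit 6) s2680 (.ret (nat_lit 134)))
noncomputable def s2731 : FP := .f0 (nat_lit 0x3dabc00000000000000000) (nat_lit 0xfc254000000000000000000) (nat_lit 1) s1220 (.ret (nat_lit 0))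
noncomputable def s2732 : FP := .f1 w4 (nat_lit 0x1fdc000000000000000000) (nat_lit 0xfe023c00000000000000000) (nat_lit 3) s2723 s2731
noncomputable def s2734 : FP := .f0 (nat_lit 0x3dabc00000000000000000) (nat_lit 0xfc254000000000000000000) (nat_lit 3) (.f1 w18 (nat_lit 0x1fdc000000000000000000) (nat_lit 0xfe023c00000000000000000) (nat_lit 3) s2732 (.ret (nat_lit 0))) (.ret (nat_lit 0))
noncomputable def s2742 : FP := .f0 (nat_lit 0xfc254000000000000000000) (nat_lit 0x3dabc00000000000000000) (nat_lit 1) (.ret (nat_lit 0)) (.f1 w4 (nat_lit 0x1fdc000000000000000000) (nat_lit 0xfe023c00000000000000000) (nat_lit 1) s1213 (.ret (nat_lit 0)))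
noncomputable def s2749 : FP := .f1 w4 (nat_lit 0xfe023c00000000000000000) (nat_lit 0x1fdc000000000000000000) (nat_lit 6) (.f0 (nat_lit 0xfc254000000000000000000) (nat_lit 0x3dabc00000000000000000) (nat_lit 6) (.f0 (nat_lit 0x3f77c00000000000000000) (nat_lit 0xfc088000000000000000000) (nat_lit 3) (.f1 w24 (nat_lit 0xfe023c00000000000000000) (nat_lit 0x1fdc000000000000000000) (nat_lit 3) (.ret (nat_lit 0))
  (.f1 w18 (nat_lit 0xfe023c00000000000000000) (nat_lit 0x1fdc000000000000000000) (nat_lit 3) s2742 (.f1 w4 (nat_lit 0x1fdc000000000000000000) (nat_lit 0xfe023c00000000000000000) (nat_lit 3) s1212 (.ret (nat_lit 0))))) (.f1 w24 (nat_lit 0xfe023c00000000000000000) (nat_lit 0x1fdc000000000000000000) (nat_lit 3) (.ret (nat_lit 0)) (.f1 w18 (nat_lit 0xfe023c00000000000000000) (nat_lit 0x1fdc000000000000000000)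
  (nat_lit 3) s2669 s2732))) (.f1 w24 (nat_lit 0x1fdc000000000000000000) (nat_lit 0xfe023c00000000000000000) (nat_lit 6) (.f1 w18 (nat_lit 0xfe023c00000000000000000) (nat_lit 0x1fdc000000000000000000) (nat_lit 6) (.f0 (nat_lit 0xfc254000000000000000000) (nat_lit 0x3dabc00000000000000000) (nat_lit 3) (.ret (nat_lit 0)) (.f1 w4 (nat_lit 0xfe023c00000000000000000) (nat_lit 0x1fdc000000000000000000) (nat_lit 3) s1222 s1212)) s2725) s2734))
  (.f1 w24 (nat_lit 0x1fdc000000000000000000) (nat_lit 0xfe023c00000000000000000) (nat_lit 6) (.f1 w18 (nat_lit 0xfe023c00000000000000000) (nat_lit 0x1fdc000000000000000000) (nat_lit 6) (.f0 (nat_lit 0xfc254000000000000000000) (nat_lit 0x3dabc00000000000000000) (nat_lit 3) (.f0 (nat_lit 0xfc088000000000000000000) (nat_lit 0x3f77c00000000000000000) (nat_lit 1) (.ret (nat_lit 0)) (.f1 w4 (nat_lit 0x3dabc00000000000000000) (nat_lit 0xfc254000000000000000000) (nat_lit 1) s1220 (.ret (nat_lit 0)))) (.f1 w4 (nat_lit 0x1fdc000000000000000000)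 (nat_lit 0xfe023c00000000000000000) (nat_lit 3) s2723 (.ret (nat_lit 0)))) s2725) s2734)
noncomputable def s2752 : FP := .f0 (nat_lit 0x3dabc00000000000000000) (nat_lit 0xfc254000000000000000000) (nat_lit 1) (.f1 w4 (nat_lit 0xfe023c00000000000000000) (nat_lit 0x1fdc000000000000000000) (nat_lit 1) s1222 s1213) (.ret (nat_lit 0))
noncomputable def s2754 : FP := .f1 w24 (nat_lit 0xfe023c00000000000000000) (nat_lit 0x1fdc000000000000000000) (nat_lit 3) (.ret (nat_lit 0)) (.f1 w18 (nat_lit 0xfe023c00000000000000000) (nat_lit 0x1fdc000000000000000000) (nat_lit 3) s2752 (.f1 w4 (nat_lit 0x1fdc000000000000000000) (nat_lit 0xfe023c00000000000000000) (nat_lit 3) s2681 s2731))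
noncomputable def s2755 : FP := .f1 w4 (nat_lit 0x1fdc000000000000000000) (nat_lit 0xfe023c00000000000000000) (nat_lit 3) s1212 s2731
noncomputable def s2761 : FP := .f1 w4 (nat_lit 0xfe023c00000000000000000) (nat_lit 0x1fdc000000000000000000) (nat_lit 3) (.f0 (nat_lit 0xfc254000000000000000000) (nat_lit 0x3dabc00000000000000000) (nat_lit 3) (.f1 w24 (nat_lit 0xfe023c00000000000000000) (nat_lit 0x1fdc000000000000000000) (nat_lit 3) (.f0 (nat_lit 0x3dabc00000000000000000) (nat_lit 0xfc254000000000000000000) (nat_lit 1) (.f1 w18 (nat_lit 0xfe023c00000000000000000) (nat_lit 0x1fdc000000000000000000) (nat_lit 1) (.ret (nat_lit 0)) s2668) (.ret (nat_lit 0))) (.f1 w18 (nat_lit 0xfe023c00000000000000000) (nat_lit 0x1fdc000000000000000000) (nat_lit 3) s2752 s2755)) s2754) s2754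
noncomputable def s2770 : FP := .f1 w37 (nat_lit 0x1fdc000000000000000000) (nat_lit 0xfe023c00000000000000000) (nat_lit 6) s2749 (.f0 (nat_lit 0x3dabc00000000000000000) (nat_lit 0xfc254000000000000000000) (nat_lit 3) s2761 (.f0 (nat_lit 0x3f77c00000000000000000) (nat_lit 0xfc088000000000000000000) (nat_lit 3) (.f1 w25 (nat_lit 0xfe023c00000000000000000) (nat_lit 0x1fdc000000000000000000) (nat_lit 3)
  (.ret (nat_lit 0)) (.f1 w18 (nat_lit 0xfe023c00000000000000000) (nat_lit 0x1fdc000000000000000000) (nat_lit 3) s2742 s2755)) (.f1 w25 (nat_lit 0xfe023c00000000000000000) (nat_lit 0x1fdc000000000000000000) (nat_lit 3) s2674 (.f1 w18 (nat_lit 0xfe023c00000000000000000) (nat_lit 0x1fdc000000000000000000) (nat_lit 3) s2669 (.f1 w24 (nat_lit 0x1fdc000000000000000000) (nat_lit 0xfe023c00000000000000000) (nat_lit 3) (.f1 w21 (nat_lit 0x1fdc000000000000000000) (nat_lit 0xfe023c00000000000000000) (nat_lit 3) (.ret (nat_lit 131)) s1209) s2676)))))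
noncomputable def s2772 : FP := .f1 w63 (nat_lit 0x1fdc000000000000000000) (nat_lit 0xfe023c00000000000000000) (nat_lit 6) (.f1 w37 (nat_lit 0xfe023c00000000000000000) (nat_lit 0x1fdc000000000000000000) (nat_lit 6) (.ret (nat_lit 131)) s954) (.ret (nat_lit 131))
noncomputable def s2776 : FP := .f1 w63 (nat_lit 0xfe023c00000000000000000) (nat_lit 0x1fdc000000000000000000) (nat_lit 2) (.ret (nat_lit 0)) (.f1 w60 (nat_lit 0xfd000000000000000000000) (nat_lit 0x2fffc00000000000000000) (nat_lit 2) (.ret (nat_lit 130)) (.ret (nat_lit 0)))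
noncomputable def s2779 : FP := .f1 w24 (nat_lit 0x1fdc000000000000000000) (nat_lit 0xfe023c00000000000000000) (nat_lit 6) s2772 (.f0 (nat_lit 0xfc254000000000000000000) (nat_lit 0x3dabc00000000000000000) (nat_lit 3) (.f0 (nat_lit 0x3f77c00000000000000000) (nat_lit 0xfc088000000000000000000) (nat_lit 2) (.ret (nat_lit 0)) s2776) (.f1 w18 (nat_lit 0x1fdc000000000000000000) (nat_lit 0xfe023c00000000000000000) (nat_lit 3) (.f1 w4 (nat_lit 0x1fdc000000000000000000) (nat_lit 0xfe023c00000000000000000) (nat_lit 3) s1212 s2724) (.ret (nat_lit 0))))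
noncomputable def s2781 : FP := .f1 w63 (nat_lit 0x1fdc000000000000000000) (nat_lit 0xfe023c00000000000000000) (nat_lit 3) (.f1 w60 (nat_lit 0xfc254000000000000000000) (nat_lit 0x3dabc00000000000000000) (nat_lit 3) s1185 (.ret (nat_lit 131))) (.ret (nat_lit 0))
noncomputable def s2784 : FP := .f0 (nat_lit 0x3dabc00000000000000000) (nat_lit 0xfc254000000000000000000) (nat_lit 6) (.f1 w24 (nat_lit 0x1fdc000000000000000000) (nat_lit 0xfe023c00000000000000000) (nat_lit 6) s2772 s2781) (.f1 w24 (nat_lit 0x1fdc000000000000000000) (nat_lit 0xfe023c00000000000000000) (nat_lit 3) (.ret (nat_lit 131)) s2781)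
noncomputable def s2788 : FP := .f0 (nat_lit 0xfd000000000000000000000) (nat_lit 0x2fffc00000000000000000) (nat_lit 2) (.f1 w62 (nat_lit 0x1fdc000000000000000000) (nat_lit 0xfe023c00000000000000000) (nat_lit 2) (.ret (nat_lit 130)) (.ret (nat_lit 0))) (.ret (nat_lit 0))
noncomputable def s2797 : FP := .f0 (nat_lit 0xfc254000000000000000000) (nat_lit 0x3dabc00000000000000000) (nat_lit 3) (.ret (nat_lit 0)) (.f1 w62 (nat_lit 0x1fdc000000000000000000) (nat_lit 0xfe023c00000000000000000) (nat_lit 3) (.ret (nat_lit 131)) (.ret (nat_lit 0)))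
noncomputable def s2805 : FP := .f1 w24 (nat_lit 0x1fdc000000000000000000) (nat_lit 0xfe023c00000000000000000) (nat_lit 6) s2772 (.f0 (nat_lit 0xfc254000000000000000000) (nat_lit 0x3dabc00000000000000000) (nat_lit 3) s2776 (.f1 w63 (nat_lit 0xfe023c00000000000000000) (nat_lit 0x1fdc000000000000000000) (nat_lit 3) (.ret (nat_lit 0)) (.ret (nat_lit 131))))
noncomputable def s2811 : FP := .f1 w24 (nat_lit 0x1fdc000000000000000000) (nat_lit 0xfe023c00000000000000000) (nat_lit 6) (.f1 w63 (nat_lit 0x1fdc000000000000000000) (nat_lit 0xfe023c00000000000000000) (nat_lit 6) (.f1 w37 (nat_lit 0xfe023c00000000000000000) (nat_lit 0x1fdc000000000000000000) (nat_lit 6) (.ret (nat_lit 131)) (.f1 w4 (nat_lit 0xfe023c00000000000000000) (nat_lit 0x1fdc000000000000000000) (nat_lit 6) (.ret (nat_lit 131)) (.f1 w118 (nat_lit 0xfc254000000000000000000) (nat_lit 0x3dabc00000000000000000) (nat_lit 6) (.f0 (nat_lit 0xfc088000000000000000000) (nat_lit 0x3f77c00000000000000000) (nat_lit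 6) (.ret (nat_lit 131)) (.ret (nat_lit 134))) (.ret (nat_lit 134))))) (.ret (nat_lit 131))) s2781
noncomputable def s2815 : FP := .f0 (nat_lit 0x3f77c00000000000000000) (nat_lit 0xfc088000000000000000000) (nat_lit 6) (.f1 w37 (nat_lit 0x1fdc000000000000000000) (nat_lit 0xfe023c00000000000000000) (nat_lit 6) (.f1 w4 (nat_lit 0xfe023c00000000000000000) (nat_lit 0x1fdc000000000000000000) (nat_lit 6) s2784 s2779) (.f0 (nat_lit 0x3dabc00000000000000000) (nat_lit 0xfc254000000000000000000) (nat_lit 3)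
  (.f1 w4 (nat_lit 0x1fdc000000000000000000) (nat_lit 0xfe023c00000000000000000) (nat_lit 3) (.f1 w24 (nat_lit 0x1fdc000000000000000000) (nat_lit 0xfe023c00000000000000000) (nat_lit 3) (.ret (nat_lit 131)) (.f0 (nat_lit 0xfc254000000000000000000) (nat_lit 0x3dabc00000000000000000) (nat_lit 2) (.f0 (nat_lit 0x3f77c00000000000000000) (nat_lit 0xfc088000000000000000000) (nat_lit 2) (.ret (nat_lit 0)) s2788)
  (.f1 w65 (nat_lit 0x1fdc000000000000000000) (nat_lit 0xfe023c00000000000000000) (nat_lit 1) s1213 (.ret (nat_lit 0))))) (.f1 w24 (nat_lit 0x1fdc000000000000000000) (nat_lit 0xfe023c00000000000000000) (nat_lit 3) (.ret (nat_lit 131)) (.f0 (nat_lit 0xfc254000000000000000000) (nat_lit 0x3dabc00000000000000000) (nat_lit 3) (.f0 (nat_lit 0xfc088000000000000000000) (nat_lit 0x3f77c00000000000000000) (nat_lit 3) s2788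
  (.ret (nat_lit 131))) (.ret (nat_lit 131))))) (.f1 w4 (nat_lit 0x1fdc000000000000000000) (nat_lit 0xfe023c00000000000000000) (nat_lit 3) (.f1 w24 (nat_lit 0x1fdc000000000000000000) (nat_lit 0xfe023c00000000000000000) (nat_lit 3) (.ret (nat_lit 131)) s2797) (.f1 w24 (nat_lit 0x1fdc000000000000000000) (nat_lit 0xfe023c00000000000000000) (nat_lit 3) (.ret (nat_lit 131)) s2699)))) (.f1 w37 (nat_lit 0x1fdc000000000000000000) (nat_lit 0xfe023c00000000000000000) (nat_lit 6) (.f1 w4 (nat_lit 0xfe023c00000000000000000) (nat_lit 0x1fdc000000000000000000) (nat_lit 6) s2811 s2805) (.f0 (nat_lit 0x3dabc00000000000000000) (nat_lit 0xfc254000000000000000000) (nat_lit 3) s2698 s2700))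
noncomputable def s2819 : FP := .f1 w4 (nat_lit 0xfd000000000000000000000) (nat_lit 0x2fffc00000000000000000) (nat_lit 6) (.f1 w7 (nat_lit 0xfd000000000000000000000) (nat_lit 0x2fffc00000000000000000) (nat_lit 6) (.f1 w4 (nat_lit 0xfd000000000000000000000) (nat_lit 0x2fffc00000000000000000) (nat_lit 6) (.f1 w112 (nat_lit 0xfc254000000000000000000) (nat_lit 0x3dabc00000000000000000) (nat_lit 6) s2815 s2770)
  (.f1 w21 (nat_lit 0xfc000800000000000000000) (nat_lit 0x3fff400000000000000000) (nat_lit 5) (.ret (nat_lit 0)) (.v1 w16 (nat_lit 0x20000000000000000) (nat_lit 0x3d0000000000000000) (nat_lit 5) (.ret (nat_lit 0)) (.v1 w35 (nat_lit 0x3e0000000000000000) (nat_lit 0x10000000000000000) (nat_lit 5) (.f1 w37 (nat_lit 0x1fdc000000000000000000) (nat_lit 0xfe023c00000000000000000) (nat_lit 5) (.f1 w229 (nat_lit 0x1fdc000000000000000000)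
  (nat_lit 0xfe023c00000000000000000) (nat_lit 5) (.f1 w18 (nat_lit 0xfe023c00000000000000000) (nat_lit 0x1fdc000000000000000000) (nat_lit 5) (.ret (nat_lit 131)) s2708) (.ret (nat_lit 131))) (.ret (nat_lit 0))) (.ret (nat_lit 0)))))) (.f1 w4 (nat_lit 0x3fff400000000000000000) (nat_lit 0xfc000800000000000000000) (nat_lit 5) (.v1 w6 (nat_lit 0x20000000000000000) (nat_lit 0x3d0000000000000000) (nat_lit 5)
  (.ret (nat_lit 0)) (.v1 w25 (nat_lit 0x3e0000000000000000) (nat_lit 0x10000000000000000) (nat_lit 5) (.f1 w4 (nat_lit 0x1fdc000000000000000000) (nat_lit 0xfe023c00000000000000000) (nat_lit 5) (.f1 w228 (nat_lit 0x3dabc00000000000000000) (nat_lit 0xfc254000000000000000000) (nat_lit 5) (.f1 w4 (nat_lit 0xfe023c00000000000000000) (nat_lit 0x1fdc000000000000000000) (nat_lit 5) (.ret (nat_lit 0)) (.f1 w17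
  (nat_lit 0xfe023c00000000000000000) (nat_lit 0x1fdc000000000000000000) (nat_lit 5) (.ret (nat_lit 131)) (.f1 w4 (nat_lit 0xfe023c00000000000000000) (nat_lit 0x1fdc000000000000000000) (nat_lit 5) (.f0 (nat_lit 0xfc254000000000000000000) (nat_lit 0x3dabc00000000000000000) (nat_lit 4) (.ret (nat_lit 130)) (.ret (nat_lit 132))) (.ret (nat_lit 133))))) (.f1 w4 (nat_lit 0x1fdc000000000000000000) (nat_lit 0xfe023c00000000000000000)
  (nat_lit 5) (.f1 w17 (nat_lit 0x1fdc000000000000000000) (nat_lit 0xfe023c00000000000000000) (nat_lit 5) s2708 (.ret (nat_lit 131))) s1193)) (.ret (nat_lit 0))) (.ret (nat_lit 0)))) (.ret (nat_lit 0)))) (.f1 w112 (nat_lit 0xfd000000000000000000000) (nat_lit 0x2fffc00000000000000000) (nat_lit 3) (.f1 w112 (nat_lit 0x3dabc00000000000000000) (nat_lit 0xfc254000000000000000000) (nat_lit 3) (.f1 w37 (nat_lit 0x1fdc000000000000000000) (nat_lit 0xfe023c00000000000000000) (nat_lit 1) (.ret (nat_lit 0)) (.f1 w25 (nat_lit 0xfe023c00000000000000000)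 (nat_lit 0x1fdc000000000000000000) (nat_lit 1) s2674 s2670)) (.f1 w37 (nat_lit 0xfc254000000000000000000) (nat_lit 0x3dabc00000000000000000) (nat_lit 3) s2700 s2698)) (.ret (nat_lit 0)))
noncomputable def s2822 : FP := .f1 w230 (nat_lit 0xfe023c00000000000000000) (nat_lit 0x1fdc000000000000000000) (nat_lit 6) (.ret (nat_lit 147)) (.ret (nat_lit 150))
noncomputable def s2825 : FP := .f1 w44 (nat_lit 0xfe023c00000000000000000) (nat_lit 0x1fdc000000000000000000) (nat_lit 6) (.ret (nat_lit 147)) (.ret (nat_lit 150))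
noncomputable def s2831 : FP := .f1 w22 (nat_lit 0xfe023c00000000000000000) (nat_lit 0x1fdc000000000000000000) (nat_lit 6) (.ret (nat_lit 147)) (.ret (nat_lit 150))
noncomputable def s2864 : FP := .f0 (nat_lit 0x3f77c00000000000000000) (nat_lit 0xfc088000000000000000000) (nat_lit 6) (.f1 w37 (nat_lit 0x1fdc000000000000000000) (nat_lit 0xfe023c00000000000000000) (nat_lit 6) (.f1 w4 (nat_lit 0xfe023c00000000000000000) (nat_lit 0x1fdc000000000000000000) (nat_lit 6) (.f1 w44 (nat_lit 0xfe023c00000000000000000) (nat_lit 0x1fdc000000000000000000) (nat_lit 6) (.f0 (nat_lit 0xfc088000000000000000000)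
  (nat_lit 0x3f77c00000000000000000) (nat_lit 6) (.f0 (nat_lit 0xfd000000000000000000000) (nat_lit 0x2fffc00000000000000000) (nat_lit 6) s2822 (.ret (nat_lit 147))) s2831) (.ret (nat_lit 150))) (.f1 w44 (nat_lit 0xfe023c00000000000000000) (nat_lit 0x1fdc000000000000000000) (nat_lit 6) (.f0 (nat_lit 0xfc254000000000000000000) (nat_lit 0x3dabc00000000000000000) (nat_lit 6) s2831 (.ret (nat_lit 150)))
  (.ret (nat_lit 150)))) (.f0 (nat_lit 0xfc254000000000000000000) (nat_lit 0x3dabc00000000000000000) (nat_lit 6) (.f1 w4 (nat_lit 0xfe023c00000000000000000) (nat_lit 0x1fdc000000000000000000) (nat_lit 5) (.ret (nat_lit 147)) (.f1 w44 (nat_lit 0xfe023c00000000000000000) (nat_lit 0x1fdc000000000000000000) (nat_lit 5) (.f0 (nat_lit 0x2fffc00000000000000000) (nat_lit 0xfd000000000000000000000) (nat_lit 5)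
  (.ret (nat_lit 147)) (.f1 w230 (nat_lit 0x1fdc000000000000000000) (nat_lit 0xfe023c00000000000000000) (nat_lit 5) (.ret (nat_lit 149)) (.ret (nat_lit 147)))) (.ret (nat_lit 149)))) (.f1 w52 (nat_lit 0xfe023c00000000000000000) (nat_lit 0x1fdc000000000000000000) (nat_lit 6) (.f1 w22 (nat_lit 0x1fdc000000000000000000) (nat_lit 0xfe023c00000000000000000) (nat_lit 6) (.f1 w143 (nat_lit 0xfc254000000000000000000)
  (nat_lit 0x3dabc00000000000000000) (nat_lit 6) (.ret (nat_lit 147)) (.ret (nat_lit 150))) (.ret (nat_lit 147))) (.ret (nat_lit 150))))) (.f1 w37 (nat_lit 0x1fdc000000000000000000) (nat_lit 0xfe023c00000000000000000) (nat_lit 6) (.f1 w4 (nat_lit 0xfe023c00000000000000000) (nat_lit 0x1fdc000000000000000000) (nat_lit 6) (.f0 (nat_lit 0xfd000000000000000000000) (nat_lit 0x2fffc00000000000000000) (nat_lit 6)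
  (.f1 w44 (nat_lit 0xfe023c00000000000000000) (nat_lit 0x1fdc000000000000000000) (nat_lit 6) (.f0 (nat_lit 0xfc088000000000000000000) (nat_lit 0x3f77c00000000000000000) (nat_lit 6) (.f0 (nat_lit 0xfd000000000000000000000) (nat_lit 0x2fffc00000000000000000) (nat_lit 6) (.f1 w18 (nat_lit 0xfe023c00000000000000000) (nat_lit 0x1fdc000000000000000000) (nat_lit 6) (.ret (nat_lit 147)) s2825) (.ret (nat_lit 147))) s2831)
  (.ret (nat_lit 150))) (.ret (nat_lit 147))) (.f1 w44 (nat_lit 0xfc088000000000000000000) (nat_lit 0x3f77c00000000000000000) (nat_lit 6) (.f0 (nat_lit 0xfd000000000000000000000) (nat_lit 0x2fffc00000000000000000) (nat_lit 6) (.ret (nat_lit 150)) s2831) s2831)) (.f0 (nat_lit 0xfc254000000000000000000) (nat_lit 0x3dabc00000000000000000) (nat_lit 6) (.f1 w52 (nat_lit 0xfe023c00000000000000000) (nat_lit 0x1fdc000000000000000000)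
  (nat_lit 5) (.f1 w22 (nat_lit 0x1fdc000000000000000000) (nat_lit 0xfe023c00000000000000000) (nat_lit 5) (.f1 w143 (nat_lit 0xfd000000000000000000000) (nat_lit 0x2fffc00000000000000000) (nat_lit 5) (.f1 w154 (nat_lit 0xfe023c00000000000000000) (nat_lit 0x1fdc000000000000000000) (nat_lit 5) (.ret (nat_lit 147)) (.ret (nat_lit 149))) (.ret (nat_lit 147))) (.ret (nat_lit 147))) (.ret (nat_lit 149))) (.f1 w4 (nat_lit 0xfe023c00000000000000000) (nat_lit 0x1fdc000000000000000000) (nat_lit 6) (.ret (nat_lit 147)) (.f1 w44 (nat_lit 0xfe023c00000000000000000) (nat_lit 0x1fdc000000000000000000) (nat_lit 6) (.f0 (nat_lit 0xfc254000000000000000000) (nat_lit 0x3dabc00000000000000000) (nat_lit 6) (.ret (nat_lit 147)) s2831) (.ret (nat_lit 150))))))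
noncomputable def s2882 : FP := .f1 w4 (nat_lit 0xfe023c00000000000000000) (nat_lit 0x1fdc000000000000000000) (nat_lit 6) (.ret (nat_lit 147)) (.ret (nat_lit 150))
noncomputable def s2888 : FP := .f0 (nat_lit 0x3ffc000000000000000000) (nat_lit 0xfc003c00000000000000000) (nat_lit 6) (.f0 (nat_lit 0x3fff400000000000000000) (nat_lit 0xfc000800000000000000000) (nat_lit 6) (.f1 w98 (nat_lit 0xfc254000000000000000000) (nat_lit 0x3dabc00000000000000000) (nat_lit 6) s2864 (.f1 w37 (nat_lit 0x1fdc000000000000000000) (nat_lit 0xfe023c00000000000000000) (nat_lit 6) (.f1 w4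
  (nat_lit 0xfe023c00000000000000000) (nat_lit 0x1fdc000000000000000000) (nat_lit 6) (.f0 (nat_lit 0xfc254000000000000000000) (nat_lit 0x3dabc00000000000000000) (nat_lit 6) (.ret (nat_lit 147)) s2825) (.f1 w44 (nat_lit 0xfe023c00000000000000000) (nat_lit 0x1fdc000000000000000000) (nat_lit 6) (.f0 (nat_lit 0xfc254000000000000000000) (nat_lit 0x3dabc00000000000000000) (nat_lit 6) s2822 (.ret (nat_lit 150)))
  (.ret (nat_lit 150)))) (.f0 (nat_lit 0xfc254000000000000000000) (nat_lit 0x3dabc00000000000000000) (nat_lit 6) (.ret (nat_lit 147)) (.f1 w4 (nat_lit 0xfe023c00000000000000000) (nat_lit 0x1fdc000000000000000000) (nat_lit 6) (.ret (nat_lit 147)) s2825)))) (.f0 (nat_lit 0x3ffec00000000000000000) (nat_lit 0xfc001000000000000000000) (nat_lit 6) (.f1 w232 (nat_lit 0x3dabc00000000000000000) (nat_lit 0xfc254000000000000000000)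
  (nat_lit 6) (.f1 w10 (nat_lit 0xfe023c00000000000000000) (nat_lit 0x1fdc000000000000000000) (nat_lit 6) (.ret (nat_lit 147)) (.ret (nat_lit 150))) (.f1 w10 (nat_lit 0x1fdc000000000000000000) (nat_lit 0xfe023c00000000000000000) (nat_lit 6) (.f1 w231 (nat_lit 0x1fdc000000000000000000) (nat_lit 0xfe023c00000000000000000) (nat_lit 6) (.ret (nat_lit 150)) (.ret (nat_lit 149))) (.ret (nat_lit 147)))) (.ret
  (nat_lit 0)))) (.f1 w22 (nat_lit 0xfc254000000000000000000) (nat_lit 0x3dabc00000000000000000) (nat_lit 6) (.f1 w4 (nat_lit 0xfe023c00000000000000000) (nat_lit 0x1fdc000000000000000000) (nat_lit 6) (.f1 w62 (nat_lit 0x1fdc000000000000000000) (nat_lit 0xfe023c00000000000000000) (nat_lit 6) (.f1 w63 (nat_lit 0xfc254000000000000000000) (nat_lit 0x3dabc00000000000000000) (nat_lit 6) (.ret (nat_lit 147))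
  (.f1 w218 (nat_lit 0xfe023c00000000000000000) (nat_lit 0x1fdc000000000000000000) (nat_lit 6) (.ret (nat_lit 147)) s2882)) (.ret (nat_lit 147))) (.f1 w233 (nat_lit 0xfc250000000000000000000) (nat_lit 0x3dafc00000000000000000) (nat_lit 6) (.f1 w81 (nat_lit 0x1fdc000000000000000000) (nat_lit 0xfe023c00000000000000000) (nat_lit 6) (.ret (nat_lit 150)) (.ret (nat_lit 147))) (.ret (nat_lit 150)))) (.f1 w37
  (nat_lit 0x1fdc000000000000000000) (nat_lit 0xfe023c00000000000000000) (nat_lit 6) (.f1 w4 (nat_lit 0x1fdc000000000000000000) (nat_lit 0xfe023c00000000000000000) (nat_lit 6) (.f1 w24 (nat_lit 0xfe023c00000000000000000) (nat_lit 0x1fdc000000000000000000) (nat_lit 6) (.f0 (nat_lit 0xfc254000000000000000000) (nat_lit 0x3dabc00000000000000000) (nat_lit 6) (.ret (nat_lit 147)) (.f1 w18 (nat_lit 0xfc240000000000000000000)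
  (nat_lit 0x3dbfc00000000000000000) (nat_lit 6) (.ret (nat_lit 147)) s1121)) (.f1 w18 (nat_lit 0xfc240000000000000000000) (nat_lit 0x3dbfc00000000000000000) (nat_lit 6) s1121 (.ret (nat_lit 150)))) (.f1 w24 (nat_lit 0xfe023c00000000000000000) (nat_lit 0x1fdc000000000000000000) (nat_lit 4) (.ret (nat_lit 147)) (.ret (nat_lit 148)))) (.f1 w25 (nat_lit 0x1fdc000000000000000000) (nat_lit 0xfe023c00000000000000000) (nat_lit 4) (.ret (nat_lit 148)) (.ret (nat_lit 147)))))
noncomputable def s2890 : FP := .f1 w24 (nat_lit 0xfe023c00000000000000000) (nat_lit 0x1fdc000000000000000000) (nat_lit 6) s2797 (.f1 w62 (nat_lit 0x1fdc000000000000000000) (nat_lit 0xfe023c00000000000000000) (nat_lit 6) (.ret (nat_lit 134)) s2680)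
noncomputable def s2894 : FP := .f1 w25 (nat_lit 0x1fdc000000000000000000) (nat_lit 0xfe023c00000000000000000) (nat_lit 3) (.ret (nat_lit 131)) (.ret (nat_lit 0))
noncomputable def s2895 : FP := .f1 w37 (nat_lit 0x1fdc000000000000000000) (nat_lit 0xfe023c00000000000000000) (nat_lit 6) (.f1 w4 (nat_lit 0xfe023c00000000000000000) (nat_lit 0x1fdc000000000000000000) (nat_lit 6) (.f0 (nat_lit 0xfc254000000000000000000) (nat_lit 0x3dabc00000000000000000) (nat_lit 6) (.f1 w24 (nat_lit 0x1fdc000000000000000000) (nat_lit 0xfe023c00000000000000000) (nat_lit 3) (.ret (nat_lit 131)) (.ret (nat_lit 0))) s2890) s2890) s2894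
noncomputable def s2896 : FP := .f1 w63 (nat_lit 0xfe023c00000000000000000) (nat_lit 0x1fdc000000000000000000) (nat_lit 6) (.ret (nat_lit 131)) (.ret (nat_lit 134))
noncomputable def s2900 : FP := .f1 w227 (nat_lit 0xfc254000000000000000000) (nat_lit 0x3dabc00000000000000000) (nat_lit 3) s1185 (.ret (nat_lit 131))
noncomputable def s2904 : FP := .f1 w4 (nat_lit 0xfe023c00000000000000000) (nat_lit 0x1fdc000000000000000000) (nat_lit 6) (.f0 (nat_lit 0xfc254000000000000000000) (nat_lit 0x3dabc00000000000000000) (nat_lit 6) (.f1 w24 (nat_lit 0x1fdc000000000000000000) (nat_lit 0xfe023c00000000000000000) (nat_lit 3) (.ret (nat_lit 131)) s2900) (.f1 w24 (nat_lit 0xfe023c00000000000000000) (nat_lit 0x1fdc000000000000000000) (nat_lit 6) s2900 s2896)) (.f1 w24 (nat_lit 0xfe023c00000000000000000) (nat_lit 0x1fdc000000000000000000) (nat_lit 6) (.f0 (nat_lit 0xfc254000000000000000000) (nat_lit 0x3dabc00000000000000000) (nat_lit 3) (.f1 w227 (nat_lit 0xfd000000000000000000000)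 (nat_lit 0x2fffc00000000000000000) (nat_lit 2) (.ret (nat_lit 130)) (.ret (nat_lit 0))) (.ret (nat_lit 131))) s2896)
noncomputable def s2953 : FP := .v1 w9 (nat_lit 0x3e0000000000000000) (nat_lit 0x10000000000000000) (nat_lit 3) (.v1 w4 (nat_lit 0x20000000000000000) (nat_lit 0x3d0000000000000000) (nat_lit 3) (.ret (nat_lit 0)) (.f0 (nat_lit 0x3fff400000000000000000) (nat_lit 0xfc000800000000000000000) (nat_lit 3) (.v1 w9 (nat_lit 0x3e0000000000000000) (nat_lit 0x10000000000000000) (nat_lit 3) (.v1 w4 (nat_lit 0x10000000000000000)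
  (nat_lit 0x3e0000000000000000) (nat_lit 3) (.ret (nat_lit 0)) (.f1 w91 (nat_lit 0x1fdc000000000000000000) (nat_lit 0xfe023c00000000000000000) (nat_lit 3) (.f1 w236 (nat_lit 0x1fdc000000000000000000) (nat_lit 0xfe023c00000000000000000) (nat_lit 3) (.f1 w63 (nat_lit 0xfe023c00000000000000000) (nat_lit 0x1fdc000000000000000000) (nat_lit 3) (.ret (nat_lit 178)) (.ret (nat_lit 179))) (.ret (nat_lit 0)))
  (.f1 w236 (nat_lit 0x1fdc000000000000000000) (nat_lit 0xfe023c00000000000000000) (nat_lit 1) (.ret (nat_lit 177)) (.ret (nat_lit 0))))) (.ret (nat_lit 0))) (.ret (nat_lit 0)))) (.v0 (nat_lit 0x20000000000000000) (nat_lit 0x3d0000000000000000) (nat_lit 3) (.ret (nat_lit 0)) (.f1 w23 (nat_lit 0x3fff400000000000000000) (nat_lit 0xfc000800000000000000000) (nat_lit 3) (.v1 w14 (nat_lit 0x3e0000000000000000)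
  (nat_lit 0x10000000000000000) (nat_lit 3) (.f1 w237 (nat_lit 0x3dabc00000000000000000) (nat_lit 0xfc254000000000000000000) (nat_lit 3) (.f1 w37 (nat_lit 0xfe023c00000000000000000) (nat_lit 0x1fdc000000000000000000) (nat_lit 3) (.f1 w52 (nat_lit 0xfe023c00000000000000000) (nat_lit 0x1fdc000000000000000000) (nat_lit 2) (.f1 w227 (nat_lit 0x3dabc00000000000000000) (nat_lit 0xfc254000000000000000000)
  (nat_lit 2) (.ret (nat_lit 146)) (.ret (nat_lit 0))) (.ret (nat_lit 146))) (.f1 w142 (nat_lit 0x1fdc000000000000000000) (nat_lit 0xfe023c00000000000000000) (nat_lit 3) (.f1 w37 (nat_lit 0x1fdc000000000000000000) (nat_lit 0xfe023c00000000000000000) (nat_lit 3) (.f1 w4 (nat_lit 0x1fdc000000000000000000) (nat_lit 0xfe023c00000000000000000) (nat_lit 3) (.f1 w27 (nat_lit 0x3dabc00000000000000000) (nat_lit 0xfc254000000000000000000)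
  (nat_lit 3) (.f1 w71 (nat_lit 0x1fdc000000000000000000) (nat_lit 0xfe023c00000000000000000) (nat_lit 3) (.f1 w4 (nat_lit 0xfe023c00000000000000000) (nat_lit 0x1fdc000000000000000000) (nat_lit 3) (.ret (nat_lit 146)) (.ret (nat_lit 147))) (.ret (nat_lit 0))) (.ret (nat_lit 0))) (.ret (nat_lit 0))) (.ret (nat_lit 0))) (.ret (nat_lit 0)))) (.f1 w10 (nat_lit 0xfe023c00000000000000000) (nat_lit 0x1fdc000000000000000000) (nat_lit 3) (.f1 w227 (nat_lit 0x3dabc00000000000000000) (nat_lit 0xfc254000000000000000000) (nat_lit 3) (.ret (nat_lit 147)) (.ret (nat_lit 0))) (.ret (nat_lit 147)))) (.ret (nat_lit 0))) (.ret (nat_lit 0))))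
noncomputable def s2955 : FP := .f0 (nat_lit 0x3fff400000000000000000) (nat_lit 0xfc000800000000000000000) (nat_lit 6) (.v1 w9 (nat_lit 0x3e0000000000000000) (nat_lit 0x10000000000000000) (nat_lit 6) (.v1 w4 (nat_lit 0x3e0000000000000000) (nat_lit 0x10000000000000000) (nat_lit 6) (.f1 w30 (nat_lit 0xfd000000000000000000000) (nat_lit 0x2fffc00000000000000000) (nat_lit 6) s2819 (.f1 w4 (nat_lit 0xfd000000000000000000000)
  (nat_lit 0x2fffc00000000000000000) (nat_lit 3) (.f1 w4 (nat_lit 0x3dabc00000000000000000) (nat_lit 0xfc254000000000000000000) (nat_lit 3) (.f1 w4 (nat_lit 0xfe023c00000000000000000) (nat_lit 0x1fdc000000000000000000) (nat_lit 2) s2674 (.f1 w18 (nat_lit 0xfe023c00000000000000000) (nat_lit 0x1fdc000000000000000000) (nat_lit 2) s2669 (.f1 w24 (nat_lit 0x1fdc000000000000000000) (nat_lit 0xfe023c00000000000000000)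
  (nat_lit 2) s1403 s2676))) (.f1 w21 (nat_lit 0x1fdc000000000000000000) (nat_lit 0xfe023c00000000000000000) (nat_lit 3) (.f1 w24 (nat_lit 0x1fdc000000000000000000) (nat_lit 0xfe023c00000000000000000) (nat_lit 3) s2684 (.ret (nat_lit 0))) (.f1 w24 (nat_lit 0x1fdc000000000000000000) (nat_lit 0xfe023c00000000000000000) (nat_lit 3) s2684 (.f1 w111 (nat_lit 0xfe023c00000000000000000) (nat_lit 0x1fdc000000000000000000)
  (nat_lit 3) (.ret (nat_lit 0)) (.f1 w4 (nat_lit 0xfe023c00000000000000000) (nat_lit 0x1fdc000000000000000000) (nat_lit 3) (.ret (nat_lit 0)) (.f1 w27 (nat_lit 0xfc254000000000000000000) (nat_lit 0x3dabc00000000000000000) (nat_lit 3) (.ret (nat_lit 0)) (.ret (nat_lit 131)))))))) (.f1 w24 (nat_lit 0x1fdc000000000000000000) (nat_lit 0xfe023c00000000000000000) (nat_lit 1) s2670 s2674))) (.ret (nat_lit 0)))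
  (.v0 (nat_lit 0x3d0000000000000000) (nat_lit 0x20000000000000000) (nat_lit 6) s2888 (.v1 w1 (nat_lit 0x370000000000000000) (nat_lit 0x80000000000000000) (nat_lit 6) (.f1 w1 (nat_lit 0x3fff800000000000000000) (nat_lit 0xfc000400000000000000000) (nat_lit 6) (.f1 w234 (nat_lit 0xfc254000000000000000000) (nat_lit 0x3dabc00000000000000000) (nat_lit 6) (.f1 w37 (nat_lit 0x1fdc000000000000000000) (nat_lit 0xfe023c00000000000000000)
  (nat_lit 6) s2904 (.f1 w25 (nat_lit 0x1fdc000000000000000000) (nat_lit 0xfe023c00000000000000000) (nat_lit 3) (.ret (nat_lit 131)) s2797)) s2895) (.f1 w75 (nat_lit 0x3fff800000000000000000) (nat_lit 0xfc000400000000000000000) (nat_lit 6) (.f1 w119 (nat_lit 0xfc254000000000000000000) (nat_lit 0x3dabc00000000000000000) (nat_lit 6) (.f1 w37 (nat_lit 0x1fdc000000000000000000) (nat_lit 0xfe023c00000000000000000)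
  (nat_lit 6) s2904 s2894) s2895) (.ret (nat_lit 0)))) (.ret (nat_lit 0))))) (.f0 (nat_lit 0x3ffec00000000000000000) (nat_lit 0xfc001000000000000000000) (nat_lit 4) (.v1 w9 (nat_lit 0x3e0000000000000000) (nat_lit 0x10000000000000000) (nat_lit 4) (.v1 w4 (nat_lit 0x20000000000000000) (nat_lit 0x3d0000000000000000) (nat_lit 4) (.ret (nat_lit 0)) (.f0 (nat_lit 0x3ffc000000000000000000) (nat_lit 0xfc003c00000000000000000)
  (nat_lit 4) (.f0 (nat_lit 0xfc000800000000000000000) (nat_lit 0x3fff400000000000000000) (nat_lit 4) (.f0 (nat_lit 0x3ffec00000000000000000) (nat_lit 0xfc001000000000000000000) (nat_lit 4) (.v1 w9 (nat_lit 0x3e0000000000000000) (nat_lit 0x10000000000000000) (nat_lit 4) (.v1 w4 (nat_lit 0x3e0000000000000000) (nat_lit 0x10000000000000000) (nat_lit 4) (.f1 w235 (nat_lit 0x1fdc000000000000000000) (nat_lit 0xfe023c00000000000000000)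
  (nat_lit 4) (.f1 w18 (nat_lit 0xfe023c00000000000000000) (nat_lit 0x1fdc000000000000000000) (nat_lit 4) (.ret (nat_lit 179)) (.f1 w25 (nat_lit 0x1fdc000000000000000000) (nat_lit 0xfe023c00000000000000000) (nat_lit 4) (.f1 w18 (nat_lit 0x1fdc000000000000000000) (nat_lit 0xfe023c00000000000000000) (nat_lit 4) (.f1 w4 (nat_lit 0xfe023c00000000000000000) (nat_lit 0x1fdc000000000000000000) (nat_lit 4)
  (.f0 (nat_lit 0xfc254000000000000000000) (nat_lit 0x3dabc00000000000000000) (nat_lit 4) (.ret (nat_lit 179)) (.ret (nat_lit 180))) (.ret (nat_lit 180))) (.ret (nat_lit 179))) (.ret (nat_lit 179)))) (.ret (nat_lit 179))) (.ret (nat_lit 0))) (.ret (nat_lit 0))) (.ret (nat_lit 0))) (.ret (nat_lit 179))) (.ret (nat_lit 179)))) (.v0 (nat_lit 0x3d0000000000000000) (nat_lit 0x20000000000000000) (nat_lit 3) (.ret (nat_lit 147)) (.ret (nat_lit 0)))) s2953)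
noncomputable def s2974 : FP := .v1 w4 (nat_lit 0x3e0000000000000000) (nat_lit 0x10000000000000000) (nat_lit 6) (.v1 w4 (nat_lit 0x10000000000000000) (nat_lit 0x3e0000000000000000) (nat_lit 6) (.v0 (nat_lit 0x3d0000000000000000) (nat_lit 0x20000000000000000) (nat_lit 6) (.f0 (nat_lit 0x3ffc000000000000000000) (nat_lit 0xfc003c00000000000000000) (nat_lit 6) s2662 (.ret (nat_lit 0))) (.ret (nat_lit 0)))
  (.v1 w4 (nat_lit 0x3d0000000000000000) (nat_lit 0x20000000000000000) (nat_lit 6) (.f0 (nat_lit 0x3ffc000000000000000000) (nat_lit 0xfc003c00000000000000000) (nat_lit 6) (.f0 (nat_lit 0x3fff400000000000000000) (nat_lit 0xfc000800000000000000000) (nat_lit 6) s2198 s2310) (.ret (nat_lit 0))) (.ret (nat_lit 0)))) (.v0 (nat_lit 0x3d0000000000000000) (nat_lit 0x20000000000000000) (nat_lit 6) (.v1 w25 (nat_lit 0x3e0000000000000000)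
  (nat_lit 0x10000000000000000) (nat_lit 6) (.f1 w27 (nat_lit 0x3ffc000000000000000000) (nat_lit 0xfc003c00000000000000000) (nat_lit 6) s2955 (.ret (nat_lit 0))) (.v0 (nat_lit 0x20000000000000000) (nat_lit 0x3d0000000000000000) (nat_lit 6) (.f1 w27 (nat_lit 0x3fff400000000000000000) (nat_lit 0xfc000800000000000000000) (nat_lit 6) (.v1 w9 (nat_lit 0x3e0000000000000000) (nat_lit 0x10000000000000000)
  (nat_lit 6) (.v1 w4 (nat_lit 0x3e0000000000000000) (nat_lit 0x10000000000000000) (nat_lit 6) (.f1 w72 (nat_lit 0xfc254000000000000000000) (nat_lit 0x3dabc00000000000000000) (nat_lit 6) (.f0 (nat_lit 0xfc088000000000000000000) (nat_lit 0x3f77c00000000000000000) (nat_lit 6) (.f1 w21 (nat_lit 0xfe023c00000000000000000) (nat_lit 0x1fdc000000000000000000) (nat_lit 6) s2811 s2805) (.f1 w21 (nat_lit 0xfe023c00000000000000000)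
  (nat_lit 0x1fdc000000000000000000) (nat_lit 6) s2784 s2779)) (.f1 w37 (nat_lit 0x1fdc000000000000000000) (nat_lit 0xfe023c00000000000000000) (nat_lit 6) s2749 s2761)) (.ret (nat_lit 0))) (.ret (nat_lit 0))) (.ret (nat_lit 0))) (.f1 w4 (nat_lit 0xfc003c00000000000000000) (nat_lit 0x3ffc000000000000000000) (nat_lit 6) (.f1 w25 (nat_lit 0x3fff400000000000000000) (nat_lit 0xfc000800000000000000000) (nat_lit 6)
  (.f1 w38 (nat_lit 0xfc254000000000000000000) (nat_lit 0x3dabc00000000000000000) (nat_lit 6) (.f1 w238 (nat_lit 0x1fdc000000000000000000) (nat_lit 0xfe023c00000000000000000) (nat_lit 6) (.ret (nat_lit 214)) (.ret (nat_lit 211))) (.f1 w29 (nat_lit 0xfe254000000000000000000) (nat_lit 0x1dabc00000000000000000) (nat_lit 4) (.ret (nat_lit 211)) (.f1 w25 (nat_lit 0x1fdc000000000000000000) (nat_lit 0xfe023c00000000000000000) (nat_lit 4) (.ret (nat_lit 212)) (.ret (nat_lit 211))))) (.ret (nat_lit 211))) (.ret (nat_lit 0))))) (.ret (nat_lit 0)))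
noncomputable def s2996 : FP := .f1 w28 (nat_lit 0xfe023c00000000000000000) (nat_lit 0x1fdc000000000000000000) (nat_lit 6) (.ret (nat_lit 211)) (.ret (nat_lit 214))
noncomputable def s2997 : FP := .f1 w28 (nat_lit 0xfe023c00000000000000000) (nat_lit 0x1fdc000000000000000000) (nat_lit 7) (.ret (nat_lit 214)) (.ret (nat_lit 215))
noncomputable def s3012 : FP := .f1 w24 (nat_lit 0x3fff400000000000000000) (nat_lit 0xfc000800000000000000000) (nat_lit 8) (.v1 w14 (nat_lit 0x3e0000000000000000) (nat_lit 0x10000000000000000) (nat_lit 8) (.f1 w118 (nat_lit 0xfc000800000000000000000) (nat_lit 0x3fff400000000000000000) (nat_lit 8) (.f0 (nat_lit 0x3ffec00000000000000000) (nat_lit 0xfc001000000000000000000) (nat_lit 8) (.v1 w9 (nat_lit 0x3e0000000000000000)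
  (nat_lit 0x10000000000000000) (nat_lit 8) (.f1 w52 (nat_lit 0xfc254000000000000000000) (nat_lit 0x3dabc00000000000000000) (nat_lit 8) (.f1 w22 (nat_lit 0x1fdc000000000000000000) (nat_lit 0xfe023c00000000000000000) (nat_lit 8) (.f1 w18 (nat_lit 0xfe023c00000000000000000) (nat_lit 0x1fdc000000000000000000) (nat_lit 8) (.f1 w188 (nat_lit 0x1fdc000000000000000000) (nat_lit 0xfe023c00000000000000000)
  (nat_lit 7) s1609 (.ret (nat_lit 214))) (.f1 w146 (nat_lit 0x1fdc000000000000000000) (nat_lit 0xfe023c00000000000000000) (nat_lit 8) (.f1 w37 (nat_lit 0x1fdc000000000000000000) (nat_lit 0xfe023c00000000000000000) (nat_lit 8) (.f1 w4 (nat_lit 0xfe023c00000000000000000) (nat_lit 0x1fdc000000000000000000) (nat_lit 8) (.ret (nat_lit 214)) s1583) s1609) (.ret (nat_lit 214)))) (.f1 w29 (nat_lit 0x1fdc000000000000000000)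
  (nat_lit 0xfe023c00000000000000000) (nat_lit 7) (.f1 w37 (nat_lit 0xfe023c00000000000000000) (nat_lit 0x1fdc000000000000000000) (nat_lit 7) (.ret (nat_lit 214)) (.f1 w4 (nat_lit 0xfe023c00000000000000000) (nat_lit 0x1fdc000000000000000000) (nat_lit 7) (.ret (nat_lit 214)) (.f1 w207 (nat_lit 0x1fdc000000000000000000) (nat_lit 0xfe023c00000000000000000) (nat_lit 7) (.ret (nat_lit 215)) (.ret (nat_lit 214)))))
  (.ret (nat_lit 214)))) (.ret (nat_lit 214))) (.ret (nat_lit 0))) (.ret (nat_lit 0))) (.v1 w9 (nat_lit 0x3e0000000000000000) (nat_lit 0x10000000000000000) (nat_lit 8) (.f1 w44 (nat_lit 0xfc254000000000000000000) (nat_lit 0x3dabc00000000000000000) (nat_lit 8) (.f1 w239 (nat_lit 0xfe023c00000000000000000) (nat_lit 0x1fdc000000000000000000) (nat_lit 8) (.ret (nat_lit 215)) s1550) (.ret (nat_lit 214)))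
  (.ret (nat_lit 0)))) (.ret (nat_lit 0))) (.f0 (nat_lit 0x3ffec00000000000000000) (nat_lit 0xfc001000000000000000000) (nat_lit 8) (.v1 w14 (nat_lit 0x3e0000000000000000) (nat_lit 0x10000000000000000) (nat_lit 8) (.f1 w81 (nat_lit 0x3fff400000000000000000) (nat_lit 0xfc000800000000000000000) (nat_lit 8) (.v1 w9 (nat_lit 0x3e0000000000000000) (nat_lit 0x10000000000000000) (nat_lit 8) (.f1 w44 (nat_lit 0xfc254000000000000000000)
  (nat_lit 0x3dabc00000000000000000) (nat_lit 8) (.f1 w22 (nat_lit 0x1fdc000000000000000000) (nat_lit 0xfe023c00000000000000000) (nat_lit 8) (.f1 w18 (nat_lit 0x1fdc000000000000000000) (nat_lit 0xfe023c00000000000000000) (nat_lit 8) (.f1 w4 (nat_lit 0xfe023c00000000000000000) (nat_lit 0x1fdc000000000000000000) (nat_lit 8) (.f1 w241 (nat_lit 0x1fdc000000000000000000) (nat_lit 0xfe023c00000000000000000)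
  (nat_lit 7) (.f1 w240 (nat_lit 0xfd000000000000000000000) (nat_lit 0x2fffc00000000000000000) (nat_lit 7) s2997 s2996) (.ret (nat_lit 214))) (.f1 w28 (nat_lit 0xfe023c00000000000000000) (nat_lit 0x1fdc000000000000000000) (nat_lit 8) (.f1 w24 (nat_lit 0xfe023c00000000000000000) (nat_lit 0x1fdc000000000000000000) (nat_lit 7) (.ret (nat_lit 214)) (.ret (nat_lit 215))) (.f1 w25 (nat_lit 0xfe023c00000000000000000)
  (nat_lit 0x1fdc000000000000000000) (nat_lit 8) (.ret (nat_lit 215)) (.ret (nat_lit 216))))) (.ret (nat_lit 214))) (.ret (nat_lit 214))) (.ret (nat_lit 214))) (.ret (nat_lit 0))) (.f0 (nat_lit 0x3ffec00000000000000000) (nat_lit 0xfc001000000000000000000) (nat_lit 6) (.v1 w14 (nat_lit 0x3e0000000000000000) (nat_lit 0x10000000000000000) (nat_lit 6) (.f1 w242 (nat_lit 0x3dabc00000000000000000) (nat_lit 0xfc254000000000000000000) (nat_lit 6) (.f1 w189 (nat_lit 0xfe023c00000000000000000) (nat_lit 0x1fdc000000000000000000) (nat_lit 6) (.ret (nat_lit 211)) s2996)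 (.ret (nat_lit 214))) (.ret (nat_lit 0))) (.ret (nat_lit 0)))) (.ret (nat_lit 0))) (.ret (nat_lit 0)))
noncomputable def s3025 : FP := .f0 (nat_lit 0x3dabc00000000000000000) (nat_lit 0xfc254000000000000000000) (nat_lit 3) s2062 (.f1 w70 (nat_lit 0xfe023c00000000000000000) (nat_lit 0x1fdc000000000000000000) (nat_lit 3) s1927 (.ret (nat_lit 67)))
noncomputable def s3050 : FP := .v0 (nat_lit 0x3e0000000000000000) (nat_lit 0x10000000000000000) (nat_lit 8) (.v1 w6 (nat_lit 0x3e0000000000000000) (nat_lit 0x10000000000000000) (nat_lit 8) s2974 (.v0 (nat_lit 0x3d0000000000000000) (nat_lit 0x20000000000000000) (nat_lit 8) (.v1 w25 (nat_lit 0x3e0000000000000000) (nat_lit 0x10000000000000000) (nat_lit 8) (.v1 w4 (nat_lit 0x3d0000000000000000) (nat_lit 0x20000000000000000)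
  (nat_lit 8) (.f1 w4 (nat_lit 0x3ffc000000000000000000) (nat_lit 0xfc003c00000000000000000) (nat_lit 8) s3012 s1696) (.ret (nat_lit 0))) (.v0 (nat_lit 0x3d0000000000000000) (nat_lit 0x20000000000000000) (nat_lit 3) (.f1 w27 (nat_lit 0xfc003c00000000000000000) (nat_lit 0x3ffc000000000000000000) (nat_lit 3) (.ret (nat_lit 307)) (.ret (nat_lit 0))) (.ret (nat_lit 0)))) (.v1 w25 (nat_lit 0x3d0000000000000000)
  (nat_lit 0x20000000000000000) (nat_lit 6) (.f0 (nat_lit 0x3fff400000000000000000) (nat_lit 0xfc000800000000000000000) (nat_lit 6) (.v1 w14 (nat_lit 0x3e0000000000000000) (nat_lit 0x10000000000000000) (nat_lit 6) (.f1 w243 (nat_lit 0xfc254000000000000000000) (nat_lit 0x3dabc00000000000000000) (nat_lit 6) (.f0 (nat_lit 0xfc088000000000000000000) (nat_lit 0x3f77c00000000000000000) (nat_lit 6) (.f1 w4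
  (nat_lit 0x1fdc000000000000000000) (nat_lit 0xfe023c00000000000000000) (nat_lit 6) (.f1 w4 (nat_lit 0x1fdc000000000000000000) (nat_lit 0xfe023c00000000000000000) (nat_lit 6) s2057 s3025) (.f1 w4 (nat_lit 0xfe023c00000000000000000) (nat_lit 0x1fdc000000000000000000) (nat_lit 6) s3025 s2043)) (.f1 w4 (nat_lit 0x1fdc000000000000000000) (nat_lit 0xfe023c00000000000000000) (nat_lit 6) s2031 s2050)) (.f1 w4
  (nat_lit 0x1fdc000000000000000000) (nat_lit 0xfe023c00000000000000000) (nat_lit 6) s1990 (.f0 (nat_lit 0xfc254000000000000000000) (nat_lit 0x3dabc00000000000000000) (nat_lit 6) (.f1 w119 (nat_lit 0xfe023c00000000000000000) (nat_lit 0x1fdc000000000000000000) (nat_lit 3) s440 (.ret (nat_lit 67))) (.f1 w24 (nat_lit 0x1fdc000000000000000000) (nat_lit 0xfe023c00000000000000000) (nat_lit 6) s1993 s1979))))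
  (.ret (nat_lit 0))) (.ret (nat_lit 0))) (.ret (nat_lit 0))))) (.v0 (nat_lit 0x20000000000000000) (nat_lit 0x3d0000000000000000) (nat_lit 6) (.v1 w9 (nat_lit 0x3e0000000000000000) (nat_lit 0x10000000000000000) (nat_lit 6) (.v1 w4 (nat_lit 0x3d0000000000000000) (nat_lit 0x20000000000000000) (nat_lit 6) (.f0 (nat_lit 0x3fff400000000000000000) (nat_lit 0xfc000800000000000000000) (nat_lit 6) (.v1 w9 (nat_lit 0x3e0000000000000000)
  (nat_lit 0x10000000000000000) (nat_lit 6) (.v1 w4 (nat_lit 0x3e0000000000000000) (nat_lit 0x10000000000000000) (nat_lit 6) (.f1 w118 (nat_lit 0xfc254000000000000000000) (nat_lit 0x3dabc00000000000000000) (nat_lit 6) (.f0 (nat_lit 0xfc088000000000000000000) (nat_lit 0x3f77c00000000000000000) (nat_lit 6) s2475 (.f1 w4 (nat_lit 0x1fdc000000000000000000) (nat_lit 0xfe023c00000000000000000) (nat_lit 6) s2418 s2429)) s2403)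
  (.ret (nat_lit 0))) (.ret (nat_lit 0))) (.ret (nat_lit 0))) (.ret (nat_lit 0))) (.v0 (nat_lit 0x3d0000000000000000) (nat_lit 0x20000000000000000) (nat_lit 6) (.v1 w25 (nat_lit 0x3e0000000000000000) (nat_lit 0x10000000000000000) (nat_lit 6) (.f1 w27 (nat_lit 0x3fff400000000000000000) (nat_lit 0xfc000800000000000000000) (nat_lit 6) (.v1 w14 (nat_lit 0x3e0000000000000000) (nat_lit 0x10000000000000000) (nat_lit 6) (.f1 w72 (nat_lit 0xfc254000000000000000000) (nat_lit 0x3dabc00000000000000000) (nat_lit 6) s2815 s2770) (.ret (nat_lit 0))) (.ret (nat_lit 0))) (.ret (nat_lit 0))) (.ret (nat_lit 0)))) (.ret (nat_lit 0)))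
noncomputable def s3073 : FP := .v1 w4 (nat_lit 0x20000000000000000) (nat_lit 0x3d0000000000000000) (nat_lit 3) (.ret (nat_lit 0)) (.v1 w25 (nat_lit 0x20000000000000000) (nat_lit 0x3d0000000000000000) (nat_lit 3) (.ret (nat_lit 0)) (.f1 w4 (nat_lit 0x3ffc000000000000000000) (nat_lit 0xfc003c00000000000000000) (nat_lit 3) (.f1 w246 (nat_lit 0x3fff400000000000000000) (nat_lit 0xfc000800000000000000000)
  (nat_lit 3) (.v1 w9 (nat_lit 0x3e0000000000000000) (nat_lit 0x10000000000000000) (nat_lit 3) (.v1 w4 (nat_lit 0x3e0000000000000000) (nat_lit 0x10000000000000000) (nat_lit 3) (.f1 w30 (nat_lit 0xfc000800000000000000000) (nat_lit 0x3fff400000000000000000) (nat_lit 3) (.f0 (nat_lit 0x3ffec00000000000000000) (nat_lit 0xfc001000000000000000000) (nat_lit 3) (.ret (nat_lit 0)) (.f1 w245 (nat_lit 0xfc254000000000000000000)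
  (nat_lit 0x3dabc00000000000000000) (nat_lit 3) (.f1 w24 (nat_lit 0x1fdc000000000000000000) (nat_lit 0xfe023c00000000000000000) (nat_lit 3) (.f1 w111 (nat_lit 0x1fdc000000000000000000) (nat_lit 0xfe023c00000000000000000) (nat_lit 3) (.f1 w4 (nat_lit 0x1fdc000000000000000000) (nat_lit 0xfe023c00000000000000000) (nat_lit 3) (.f1 w4 (nat_lit 0xfc254000000000000000000) (nat_lit 0x3dabc00000000000000000)
  (nat_lit 3) (.f1 w184 (nat_lit 0xfe023c00000000000000000) (nat_lit 0x1fdc000000000000000000) (nat_lit 3) (.f0 (nat_lit 0xfc254000000000000000000) (nat_lit 0x3dabc00000000000000000) (nat_lit 3) (.ret (nat_lit 0)) (.ret (nat_lit 323))) (.ret (nat_lit 323))) (.ret (nat_lit 323))) (.ret (nat_lit 0))) (.ret (nat_lit 0))) (.ret (nat_lit 0))) (.f1 w244 (nat_lit 0xfe023c00000000000000000) (nat_lit 0x1fdc000000000000000000)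
  (nat_lit 3) (.ret (nat_lit 322)) (.ret (nat_lit 323))))) (.ret (nat_lit 0))) (.ret (nat_lit 0))) (.ret (nat_lit 0))) (.ret (nat_lit 0))) (.f1 w246 (nat_lit 0x3fff400000000000000000) (nat_lit 0xfc000800000000000000000) (nat_lit 2) (.v1 w9 (nat_lit 0x3e0000000000000000) (nat_lit 0x10000000000000000) (nat_lit 2) (.f1 w29 (nat_lit 0x1fdc000000000000000000) (nat_lit 0xfe023c00000000000000000) (nat_lit 2) (.ret (nat_lit 210)) (.f1 w227 (nat_lit 0xfd000000000000000000000) (nat_lit 0x2fffc00000000000000000) (nat_lit 2) (.ret (nat_lit 210)) (.ret (nat_lit 0)))) (.ret (nat_lit 0))) (.ret (nat_lit 0)))))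
noncomputable def s3108 : FP := .f1 w65 (nat_lit 0x1fdc000000000000000000) (nat_lit 0xfe023c00000000000000000) (nat_lit 3) (.ret (nat_lit 307)) (.ret (nat_lit 306))
noncomputable def s3122 : FP := .v1 w14 (nat_lit 0x3e0000000000000000) (nat_lit 0x10000000000000000) (nat_lit 3) (.f1 w256 (nat_lit 0x1fdc000000000000000000) (nat_lit 0xfe023c00000000000000000) (nat_lit 3) (.f1 w255 (nat_lit 0xfe023c00000000000000000) (nat_lit 0x1fdc000000000000000000) (nat_lit 3) (.ret (nat_lit 66)) (.ret (nat_lit 67))) (.ret (nat_lit 66))) (.ret (nat_lit 0))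
noncomputable def s3129 : FP := .f0 (nat_lit 0x3fff400000000000000000) (nat_lit 0xfc000800000000000000000) (nat_lit 3) (.v1 w9 (nat_lit 0x3e0000000000000000) (nat_lit 0x10000000000000000) (nat_lit 3) (.v1 w4 (nat_lit 0x3e0000000000000000) (nat_lit 0x10000000000000000) (nat_lit 3) (.f1 w30 (nat_lit 0x3ffc000000000000000000) (nat_lit 0xfc003c00000000000000000) (nat_lit 3) (.f0 (nat_lit 0xfc000800000000000000000)
  (nat_lit 0x3fff400000000000000000) (nat_lit 3) (.f0 (nat_lit 0xfc001000000000000000000) (nat_lit 0x3ffec00000000000000000) (nat_lit 3) (.f1 w250 (nat_lit 0x3dabc00000000000000000) (nat_lit 0xfc254000000000000000000) (nat_lit 3) (.f1 w4 (nat_lit 0x1fdc000000000000000000) (nat_lit 0xfe023c00000000000000000) (nat_lit 3) (.f1 w63 (nat_lit 0x3dabc00000000000000000) (nat_lit 0xfc254000000000000000000)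
  (nat_lit 3) (.f1 w62 (nat_lit 0xfe023c00000000000000000) (nat_lit 0x1fdc000000000000000000) (nat_lit 3) s992 (.ret (nat_lit 131))) s985) (.ret (nat_lit 130))) (.ret (nat_lit 131))) (.f1 w249 (nat_lit 0x1fdc000000000000000000) (nat_lit 0xfe023c00000000000000000) (nat_lit 3) (.f1 w248 (nat_lit 0x1fdc000000000000000000) (nat_lit 0xfe023c00000000000000000) (nat_lit 3) (.ret (nat_lit 307)) (.ret (nat_lit 306)))
  (.f1 w247 (nat_lit 0x3dabc00000000000000000) (nat_lit 0xfc254000000000000000000) (nat_lit 3) (.f1 w27 (nat_lit 0xfe023c00000000000000000) (nat_lit 0x1fdc000000000000000000) (nat_lit 3) (.ret (nat_lit 306)) (.ret (nat_lit 307))) (.ret (nat_lit 306))))) (.f1 w35 (nat_lit 0x1fdc000000000000000000) (nat_lit 0xfe023c00000000000000000) (nat_lit 3) (.f1 w65 (nat_lit 0x1fdc000000000000000000) (nat_lit 0xfe023c00000000000000000)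
  (nat_lit 3) (.ret (nat_lit 307)) (.f1 w247 (nat_lit 0xfd000000000000000000000) (nat_lit 0x2fffc00000000000000000) (nat_lit 3) (.ret (nat_lit 307)) (.ret (nat_lit 306)))) (.ret (nat_lit 0)))) (.ret (nat_lit 306))) (.ret (nat_lit 0))) (.ret (nat_lit 0))) (.f0 (nat_lit 0xfc001000000000000000000) (nat_lit 0x3ffec00000000000000000) (nat_lit 3) (.v1 w9 (nat_lit 0x10000000000000000) (nat_lit 0x3e0000000000000000)
  (nat_lit 3) (.v1 w25 (nat_lit 0x3e0000000000000000) (nat_lit 0x10000000000000000) (nat_lit 3) (.f1 w30 (nat_lit 0x3fff400000000000000000) (nat_lit 0xfc000800000000000000000) (nat_lit 3) s3122 (.ret (nat_lit 0))) (.ret (nat_lit 0))) (.v1 w4 (nat_lit 0x3d0000000000000000) (nat_lit 0x20000000000000000) (nat_lit 3) (.f1 w77 (nat_lit 0x3fff400000000000000000) (nat_lit 0xfc000800000000000000000) (nat_lit 3) s3122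
  (.ret (nat_lit 0))) (.ret (nat_lit 0)))) (.f1 w254 (nat_lit 0x3fff400000000000000000) (nat_lit 0xfc000800000000000000000) (nat_lit 3) (.v1 w14 (nat_lit 0x3e0000000000000000) (nat_lit 0x10000000000000000) (nat_lit 3) (.f1 w253 (nat_lit 0x1fdc000000000000000000) (nat_lit 0xfe023c00000000000000000) (nat_lit 3) (.f1 w4 (nat_lit 0x1fdc000000000000000000) (nat_lit 0xfe023c00000000000000000) (nat_lit 3)
  (.f1 w4 (nat_lit 0xfe023c00000000000000000) (nat_lit 0x1fdc000000000000000000) (nat_lit 3) (.f1 w63 (nat_lit 0xfe023c00000000000000000) (nat_lit 0x1fdc000000000000000000) (nat_lit 3) (.ret (nat_lit 306)) (.f1 w63 (nat_lit 0xfc254000000000000000000) (nat_lit 0x3dabc00000000000000000) (nat_lit 3) (.ret (nat_lit 0)) s3108)) s3108) (.f1 w4 (nat_lit 0xfe023c00000000000000000) (nat_lit 0x1fdc000000000000000000)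
  (nat_lit 3) (.ret (nat_lit 306)) (.f1 w251 (nat_lit 0xfe023c00000000000000000) (nat_lit 0x1fdc000000000000000000) (nat_lit 3) (.ret (nat_lit 306)) (.ret (nat_lit 307))))) (.f1 w24 (nat_lit 0xfe023c00000000000000000) (nat_lit 0x1fdc000000000000000000) (nat_lit 3) (.ret (nat_lit 0)) (.f1 w252 (nat_lit 0x1fdc000000000000000000) (nat_lit 0xfe023c00000000000000000) (nat_lit 3) (.ret (nat_lit 307)) (.ret (nat_lit 306))))) (.ret (nat_lit 0))) (.ret (nat_lit 0))))
noncomputable def s3135 : FP := .v1 w4 (nat_lit 0x3e0000000000000000) (nat_lit 0x10000000000000000) (nat_lit 6) s3073 (.v0 (nat_lit 0x3d0000000000000000) (nat_lit 0x20000000000000000) (nat_lit 6) (.v1 w25 (nat_lit 0x3e0000000000000000) (nat_lit 0x10000000000000000) (nat_lit 6) (.v1 w4 (nat_lit 0x20000000000000000) (nat_lit 0x3d0000000000000000) (nat_lit 6) (.ret (nat_lit 0)) (.f1 w4 (nat_lit 0x3ffc000000000000000000)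
  (nat_lit 0xfc003c00000000000000000) (nat_lit 6) (.f1 w25 (nat_lit 0x3fff400000000000000000) (nat_lit 0xfc000800000000000000000) (nat_lit 6) (.v1 w9 (nat_lit 0x3e0000000000000000) (nat_lit 0x10000000000000000) (nat_lit 6) (.v1 w4 (nat_lit 0x3e0000000000000000) (nat_lit 0x10000000000000000) (nat_lit 6) (.f1 w118 (nat_lit 0xfc000800000000000000000) (nat_lit 0x3fff400000000000000000) (nat_lit 6) (.f0
  (nat_lit 0xfc001000000000000000000) (nat_lit 0x3ffec00000000000000000) (nat_lit 6) (.v1 w9 (nat_lit 0x10000000000000000) (nat_lit 0x3e0000000000000000) (nat_lit 6) (.v1 w25 (nat_lit 0x3e0000000000000000) (nat_lit 0x10000000000000000) (nat_lit 6) (.f1 w10 (nat_lit 0x3dabc00000000000000000) (nat_lit 0xfc254000000000000000000) (nat_lit 6) (.f1 w4 (nat_lit 0x1fdc000000000000000000) (nat_lit 0xfe023c00000000000000000)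
  (nat_lit 6) (.f1 w63 (nat_lit 0x1fdc000000000000000000) (nat_lit 0xfe023c00000000000000000) (nat_lit 6) (.f1 w37 (nat_lit 0x1fdc000000000000000000) (nat_lit 0xfe023c00000000000000000) (nat_lit 6) s987 (.ret (nat_lit 130))) (.f1 w18 (nat_lit 0xfe023c00000000000000000) (nat_lit 0x1fdc000000000000000000) (nat_lit 3) s992 (.ret (nat_lit 131)))) (.ret (nat_lit 129))) (.f1 w4 (nat_lit 0x1fdc000000000000000000)
  (nat_lit 0xfe023c00000000000000000) (nat_lit 6) s2772 (.ret (nat_lit 131)))) (.ret (nat_lit 0))) (.v1 w4 (nat_lit 0x3e0000000000000000) (nat_lit 0x10000000000000000) (nat_lit 6) (.f1 w77 (nat_lit 0x1fdc000000000000000000) (nat_lit 0xfe023c00000000000000000) (nat_lit 6) s2772 (.ret (nat_lit 131))) (.ret (nat_lit 0)))) (.ret (nat_lit 0))) (.ret (nat_lit 0))) (.ret (nat_lit 0))) (.ret (nat_lit 0))) (.ret (nat_lit 0))) (.ret (nat_lit 210)))) (.v0 (nat_lit 0x3d0000000000000000) (nat_lit 0x20000000000000000) (nat_lit 3) (.f1 w27 (nat_lit 0x3ffc000000000000000000)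 (nat_lit 0xfc003c00000000000000000) (nat_lit 3) s3129 (.f1 w25 (nat_lit 0x3fff400000000000000000) (nat_lit 0xfc000800000000000000000) (nat_lit 2) (.ret (nat_lit 306)) (.ret (nat_lit 0)))) (.ret (nat_lit 0)))) (.ret (nat_lit 0)))
noncomputable def s3149 : FP := .f0 (nat_lit 0xfc254000000000000000000) (nat_lit 0x3dabc00000000000000000) (nat_lit 3) (.f0 (nat_lit 0xfc088000000000000000000) (nat_lit 0x3f77c00000000000000000) (nat_lit 3) (.ret (nat_lit 210)) (.ret (nat_lit 211))) (.ret (nat_lit 211))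
noncomputable def s3163 : FP := .f1 w145 (nat_lit 0x3fff400000000000000000) (nat_lit 0xfc000800000000000000000) (nat_lit 7) (.v1 w9 (nat_lit 0x3e0000000000000000) (nat_lit 0x10000000000000000) (nat_lit 7) (.f1 w44 (nat_lit 0xfc254000000000000000000) (nat_lit 0x3dabc00000000000000000) (nat_lit 7) (.f0 (nat_lit 0xfc088000000000000000000) (nat_lit 0x3f77c00000000000000000) (nat_lit 7) (.f1 w22 (nat_lit 0x1fdc000000000000000000)
  (nat_lit 0xfe023c00000000000000000) (nat_lit 7) (.f1 w18 (nat_lit 0x1fdc000000000000000000) (nat_lit 0xfe023c00000000000000000) (nat_lit 7) (.f1 w4 (nat_lit 0xfe023c00000000000000000) (nat_lit 0x1fdc000000000000000000) (nat_lit 7) (.ret (nat_lit 214)) s2997) (.ret (nat_lit 214))) (.f1 w27 (nat_lit 0x1fdc000000000000000000) (nat_lit 0xfe023c00000000000000000) (nat_lit 7) (.f1 w257 (nat_lit 0xfe023c00000000000000000)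
  (nat_lit 0x1fdc000000000000000000) (nat_lit 7) (.ret (nat_lit 214)) (.f1 w28 (nat_lit 0xfe023c00000000000000000) (nat_lit 0x1fdc000000000000000000) (nat_lit 7) (.ret (nat_lit 214)) s1567)) (.ret (nat_lit 214)))) (.f1 w239 (nat_lit 0xfe023c00000000000000000) (nat_lit 0x1fdc000000000000000000) (nat_lit 7) s2996 s2997)) (.ret (nat_lit 214))) (.ret (nat_lit 0))) (.f0 (nat_lit 0x3ffec00000000000000000)
  (nat_lit 0xfc001000000000000000000) (nat_lit 6) (.f1 w159 (nat_lit 0x3dabc00000000000000000) (nat_lit 0xfc254000000000000000000) (nat_lit 6) (.f1 w71 (nat_lit 0x1fdc000000000000000000) (nat_lit 0xfe023c00000000000000000) (nat_lit 6) (.f1 w4 (nat_lit 0x1fdc000000000000000000) (nat_lit 0xfe023c00000000000000000) (nat_lit 6) (.f1 w27 (nat_lit 0x1fdc000000000000000000) (nat_lit 0xfe023c00000000000000000)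
  (nat_lit 6) (.f1 w37 (nat_lit 0x1fdc000000000000000000) (nat_lit 0xfe023c00000000000000000) (nat_lit 6) (.f1 w4 (nat_lit 0x1fdc000000000000000000) (nat_lit 0xfe023c00000000000000000) (nat_lit 6) (.f1 w163 (nat_lit 0xfe023c00000000000000000) (nat_lit 0x1fdc000000000000000000) (nat_lit 6) (.f0 (nat_lit 0xfc254000000000000000000) (nat_lit 0x3dabc00000000000000000) (nat_lit 4) (.ret (nat_lit 211)) (.ret
  (nat_lit 212))) (.ret (nat_lit 214))) s3149) s3149) (.ret (nat_lit 211))) (.ret (nat_lit 211))) (.ret (nat_lit 211))) (.f0 (nat_lit 0x3f77c00000000000000000) (nat_lit 0xfc088000000000000000000) (nat_lit 6) (.f1 w258 (nat_lit 0x1fdc000000000000000000) (nat_lit 0xfe023c00000000000000000) (nat_lit 6) (.f1 w4 (nat_lit 0x1fdc000000000000000000) (nat_lit 0xfe023c00000000000000000) (nat_lit 6) (.ret (nat_lit 214))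
  (.ret (nat_lit 211))) (.ret (nat_lit 211))) (.f1 w63 (nat_lit 0x1fdc000000000000000000) (nat_lit 0xfe023c00000000000000000) (nat_lit 6) (.f1 w37 (nat_lit 0x1fdc000000000000000000) (nat_lit 0xfe023c00000000000000000) (nat_lit 6) (.f1 w4 (nat_lit 0x1fdc000000000000000000) (nat_lit 0xfe023c00000000000000000) (nat_lit 6) (.ret (nat_lit 214)) (.ret (nat_lit 212))) (.ret (nat_lit 212))) (.ret (nat_lit 212))))) (.ret (nat_lit 0)))
noncomputable def s3191 : FP := .v1 w4 (nat_lit 0x3e0000000000000000) (nat_lit 0x10000000000000000) (nat_lit 7) (.v1 w4 (nat_lit 0x3d0000000000000000) (nat_lit 0x20000000000000000) (nat_lit 7) (.f1 w4 (nat_lit 0x3ffc000000000000000000) (nat_lit 0xfc003c00000000000000000) (nat_lit 7) (.f1 w24 (nat_lit 0x3fff400000000000000000) (nat_lit 0xfc000800000000000000000) (nat_lit 7) (.v1 w14 (nat_lit 0x3e0000000000000000)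
  (nat_lit 0x10000000000000000) (nat_lit 7) s3163 (.ret (nat_lit 0))) (.f0 (nat_lit 0x3ffec00000000000000000) (nat_lit 0xfc001000000000000000000) (nat_lit 6) (.f1 w260 (nat_lit 0x3fff400000000000000000) (nat_lit 0xfc000800000000000000000) (nat_lit 6) (.v1 w9 (nat_lit 0x3e0000000000000000) (nat_lit 0x10000000000000000) (nat_lit 6) (.f1 w242 (nat_lit 0x3dabc00000000000000000) (nat_lit 0xfc254000000000000000000)
  (nat_lit 6) (.f1 w71 (nat_lit 0xfe023c00000000000000000) (nat_lit 0x1fdc000000000000000000) (nat_lit 6) (.ret (nat_lit 211)) (.f1 w4 (nat_lit 0x1fdc000000000000000000) (nat_lit 0xfe023c00000000000000000) (nat_lit 6) (.f1 w18 (nat_lit 0x1fdc000000000000000000) (nat_lit 0xfe023c00000000000000000) (nat_lit 6) (.f1 w4 (nat_lit 0x1fdc000000000000000000) (nat_lit 0xfe023c00000000000000000) (nat_lit 6)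
  (.f1 w259 (nat_lit 0x1fdc000000000000000000) (nat_lit 0xfe023c00000000000000000) (nat_lit 6) (.ret (nat_lit 214)) s3149) s3149) (.ret (nat_lit 211))) (.ret (nat_lit 211)))) (.f0 (nat_lit 0x3f77c00000000000000000) (nat_lit 0xfc088000000000000000000) (nat_lit 6) (.f1 w239 (nat_lit 0x1fdc000000000000000000) (nat_lit 0xfe023c00000000000000000) (nat_lit 6) s2996 (.ret (nat_lit 211))) (.f1 w239 (nat_lit 0x1fdc000000000000000000)
  (nat_lit 0xfe023c00000000000000000) (nat_lit 6) (.ret (nat_lit 214)) (.ret (nat_lit 212))))) (.ret (nat_lit 0))) (.ret (nat_lit 0))) (.ret (nat_lit 0)))) (.ret (nat_lit 0))) (.ret (nat_lit 0))) (.v0 (nat_lit 0x3d0000000000000000) (nat_lit 0x20000000000000000) (nat_lit 3) (.f1 w60 (nat_lit 0x3ffc000000000000000000) (nat_lit 0xfc003c00000000000000000) (nat_lit 3) (.f0 (nat_lit 0xfc000800000000000000000)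
  (nat_lit 0x3fff400000000000000000) (nat_lit 3) (.f0 (nat_lit 0xfc001000000000000000000) (nat_lit 0x3ffec00000000000000000) (nat_lit 3) (.v1 w14 (nat_lit 0x3e0000000000000000) (nat_lit 0x10000000000000000) (nat_lit 3) (.f1 w82 (nat_lit 0x3fff400000000000000000) (nat_lit 0xfc000800000000000000000) (nat_lit 3) (.v1 w9 (nat_lit 0x3e0000000000000000) (nat_lit 0x10000000000000000) (nat_lit 3) (.v1 w4 (nat_lit 0x3e0000000000000000)
  (nat_lit 0x10000000000000000) (nat_lit 3) (.f1 w30 (nat_lit 0x3dabc00000000000000000) (nat_lit 0xfc254000000000000000000) (nat_lit 3) (.f1 w261 (nat_lit 0x1fdc000000000000000000) (nat_lit 0xfe023c00000000000000000) (nat_lit 3) (.f1 w117 (nat_lit 0xfe023c00000000000000000) (nat_lit 0x1fdc000000000000000000) (nat_lit 3) s428 (.ret (nat_lit 67))) (.ret (nat_lit 0))) (.ret (nat_lit 67))) (.ret (nat_lit 0))) (.ret (nat_lit 0))) (.ret (nat_lit 0))) (.ret (nat_lit 0))) (.ret (nat_lit 0))) (.ret (nat_lit 0))) (.ret (nat_lit 306))) (.ret (nat_lit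 0)))
noncomputable def s3194 : FP := .v1 w14 (nat_lit 0x3e0000000000000000) (nat_lit 0x10000000000000000) (nat_lit 3) (.f1 w263 (nat_lit 0x1fdc000000000000000000) (nat_lit 0xfe023c00000000000000000) (nat_lit 3) (.f1 w262 (nat_lit 0xfe023c00000000000000000) (nat_lit 0x1fdc000000000000000000) (nat_lit 3) (.ret (nat_lit 258)) (.ret (nat_lit 259))) (.ret (nat_lit 0))) (.ret (nat_lit 0))
noncomputable def s3231 : FP := .f1 w4 (nat_lit 0x1fdc000000000000000000) (nat_lit 0xfe023c00000000000000000) (nat_lit 6) (.ret (nat_lit 166)) (.ret (nat_lit 162))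
noncomputable def s3234 : FP := .f1 w4 (nat_lit 0xfe023c00000000000000000) (nat_lit 0x1fdc000000000000000000) (nat_lit 3) (.ret (nat_lit 0)) (.ret (nat_lit 163))
noncomputable def s3239 : FP := .f1 w4 (nat_lit 0xfe023c00000000000000000) (nat_lit 0x1fdc000000000000000000) (nat_lit 6) (.ret (nat_lit 0)) (.ret (nat_lit 166))
noncomputable def s3240 : FP := .f1 w24 (nat_lit 0xfe023c00000000000000000) (nat_lit 0x1fdc000000000000000000) (nat_lit 6) (.ret (nat_lit 163)) s3239
noncomputable def s3241 : FP := .f1 w267 (nat_lit 0xfe023c00000000000000000) (nat_lit 0x1fdc000000000000000000) (nat_lit 6) (.ret (nat_lit 0)) s3240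
noncomputable def s3253 : FP := .f1 w267 (nat_lit 0xfe023c00000000000000000) (nat_lit 0x1fdc000000000000000000) (nat_lit 3) (.ret (nat_lit 0)) (.ret (nat_lit 163))
noncomputable def s3265 : FP := .f1 w4 (nat_lit 0xfe023c00000000000000000) (nat_lit 0x1fdc000000000000000000) (nat_lit 6) (.ret (nat_lit 0)) (.f1 w267 (nat_lit 0x1fdc000000000000000000) (nat_lit 0xfe023c00000000000000000) (nat_lit 6) s3240 (.ret (nat_lit 163)))
noncomputable def s3277 : FP := .f1 w11 (nat_lit 0xfc254000000000000000000) (nat_lit 0x3dabc00000000000000000) (nat_lit 6) (.f1 w52 (nat_lit 0xfe023c00000000000000000) (nat_lit 0x1fdc000000000000000000) (nat_lit 6) (.f0 (nat_lit 0x3dabc00000000000000000) (nat_lit 0xfc254000000000000000000) (nat_lit 6) (.f1 w18 (nat_lit 0x1fdc000000000000000000) (nat_lit 0xfe023c00000000000000000) (nat_lit 6) (.f1 w4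
  (nat_lit 0x1fdc000000000000000000) (nat_lit 0xfe023c00000000000000000) (nat_lit 6) (.f1 w4 (nat_lit 0x1fdc000000000000000000) (nat_lit 0xfe023c00000000000000000) (nat_lit 6) (.f1 w267 (nat_lit 0xfe023c00000000000000000) (nat_lit 0x1fdc000000000000000000) (nat_lit 6) (.ret (nat_lit 0)) (.f1 w24 (nat_lit 0xfe023c00000000000000000) (nat_lit 0x1fdc000000000000000000) (nat_lit 6) s2526 s3231)) (.ret (nat_lit 0)))
  (.ret (nat_lit 0))) (.ret (nat_lit 0))) (.f1 w62 (nat_lit 0xfe023c00000000000000000) (nat_lit 0x1fdc000000000000000000) (nat_lit 3) (.ret (nat_lit 0)) s3253)) (.f1 w18 (nat_lit 0x1fdc000000000000000000) (nat_lit 0xfe023c00000000000000000) (nat_lit 6) (.f1 w4 (nat_lit 0x1fdc000000000000000000) (nat_lit 0xfe023c00000000000000000) (nat_lit 6) (.f1 w4 (nat_lit 0x3dabc00000000000000000) (nat_lit 0xfc254000000000000000000)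
  (nat_lit 6) (.f1 w267 (nat_lit 0x1fdc000000000000000000) (nat_lit 0xfe023c00000000000000000) (nat_lit 6) (.f1 w24 (nat_lit 0xfe023c00000000000000000) (nat_lit 0x1fdc000000000000000000) (nat_lit 6) (.f0 (nat_lit 0xfc254000000000000000000) (nat_lit 0x3dabc00000000000000000) (nat_lit 6) (.ret (nat_lit 163)) (.f1 w4 (nat_lit 0xfe023c00000000000000000) (nat_lit 0x1fdc000000000000000000) (nat_lit 6) (.ret
  (nat_lit 163)) (.ret (nat_lit 166)))) s3239) (.ret (nat_lit 163))) (.ret (nat_lit 163))) s3265) (.f1 w4 (nat_lit 0xfe023c00000000000000000) (nat_lit 0x1fdc000000000000000000) (nat_lit 6) s3234 s3265))) (.f1 w52 (nat_lit 0x1fdc000000000000000000) (nat_lit 0xfe023c00000000000000000) (nat_lit 6) (.f1 w18 (nat_lit 0x1fdc000000000000000000) (nat_lit 0xfe023c00000000000000000) (nat_lit 6) (.f1 w4 (nat_lit 0x1fdc000000000000000000)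
  (nat_lit 0xfe023c00000000000000000) (nat_lit 6) (.f1 w4 (nat_lit 0xfc254000000000000000000) (nat_lit 0x3dabc00000000000000000) (nat_lit 6) (.f0 (nat_lit 0xfd000000000000000000000) (nat_lit 0x2fffc00000000000000000) (nat_lit 3) (.ret (nat_lit 0)) (.f1 w267 (nat_lit 0x1fdc000000000000000000) (nat_lit 0xfe023c00000000000000000) (nat_lit 3) (.f1 w24 (nat_lit 0xfe023c00000000000000000) (nat_lit 0x1fdc000000000000000000)
  (nat_lit 3) (.ret (nat_lit 0)) s3234) (.ret (nat_lit 0)))) (.f1 w267 (nat_lit 0x1fdc000000000000000000) (nat_lit 0xfe023c00000000000000000) (nat_lit 6) (.f1 w24 (nat_lit 0xfe023c00000000000000000) (nat_lit 0x1fdc000000000000000000) (nat_lit 6) (.ret (nat_lit 0)) s3231) (.ret (nat_lit 0)))) (.f1 w4 (nat_lit 0xfe023c00000000000000000) (nat_lit 0x1fdc000000000000000000) (nat_lit 6) (.ret (nat_lit 0)) s3241))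
  (.f1 w24 (nat_lit 0xfe023c00000000000000000) (nat_lit 0x1fdc000000000000000000) (nat_lit 6) (.ret (nat_lit 0)) s3241)) (.f0 (nat_lit 0x3dabc00000000000000000) (nat_lit 0xfc254000000000000000000) (nat_lit 6) (.f1 w18 (nat_lit 0x1fdc000000000000000000) (nat_lit 0xfe023c00000000000000000) (nat_lit 6) (.f1 w4 (nat_lit 0x1fdc000000000000000000) (nat_lit 0xfe023c00000000000000000) (nat_lit 6) (.f1 w4 (nat_lit 0xfe023c00000000000000000)
  (nat_lit 0x1fdc000000000000000000) (nat_lit 6) (.ret (nat_lit 0)) (.f1 w267 (nat_lit 0xfe023c00000000000000000) (nat_lit 0x1fdc000000000000000000) (nat_lit 6) (.ret (nat_lit 0)) (.f1 w24 (nat_lit 0xfe023c00000000000000000) (nat_lit 0x1fdc000000000000000000) (nat_lit 6) (.f0 (nat_lit 0xfc254000000000000000000) (nat_lit 0x3dabc00000000000000000) (nat_lit 6) (.ret (nat_lit 161)) (.ret (nat_lit 166))) s3231))) (.ret (nat_lit 0))) (.ret (nat_lit 0))) (.f1 w18 (nat_lit 0x1fdc000000000000000000) (nat_lit 0xfe023c00000000000000000) (nat_lit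 3) (.f1 w4 (nat_lit 0x1fdc000000000000000000) (nat_lit 0xfe023c00000000000000000) (nat_lit 3) (.f1 w4 (nat_lit 0xfe023c00000000000000000) (nat_lit 0x1fdc000000000000000000) (nat_lit 3) (.ret (nat_lit 0)) s3253) (.ret (nat_lit 0))) (.ret (nat_lit 0)))))
noncomputable def s3283 : FP := .f1 w24 (nat_lit 0x1fdc000000000000000000) (nat_lit 0xfe023c00000000000000000) (nat_lit 6) (.ret (nat_lit 118)) (.ret (nat_lit 0))
noncomputable def s3289 : FP := .f1 w24 (nat_lit 0x1fdc000000000000000000) (nat_lit 0xfe023c00000000000000000) (nat_lit 3) (.ret (nat_lit 115)) (.ret (nat_lit 0))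
noncomputable def s3292 : FP := .f1 w267 (nat_lit 0x1fdc000000000000000000) (nat_lit 0xfe023c00000000000000000) (nat_lit 6) (.f1 w4 (nat_lit 0xfe023c00000000000000000) (nat_lit 0x1fdc000000000000000000) (nat_lit 6) s3289 s3283) (.f1 w25 (nat_lit 0x1fdc000000000000000000) (nat_lit 0xfe023c00000000000000000) (nat_lit 3) (.ret (nat_lit 115)) (.ret (nat_lit 0)))
noncomputable def s3312 : FP := .f1 w267 (nat_lit 0x1fdc000000000000000000) (nat_lit 0xfe023c00000000000000000) (nat_lit 6) (.f1 w4 (nat_lit 0xfe023c00000000000000000) (nat_lit 0x1fdc000000000000000000) (nat_lit 6) (.ret (nat_lit 115)) s3283) (.ret (nat_lit 115))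
noncomputable def s3326 : FP := .f1 w123 (nat_lit 0xfc254000000000000000000) (nat_lit 0x3dabc00000000000000000) (nat_lit 6) (.f1 w44 (nat_lit 0xfe023c00000000000000000) (nat_lit 0x1fdc000000000000000000) (nat_lit 6) (.f0 (nat_lit 0x3dabc00000000000000000) (nat_lit 0xfc254000000000000000000) (nat_lit 6) (.f1 w18 (nat_lit 0x1fdc000000000000000000) (nat_lit 0xfe023c00000000000000000) (nat_lit 6) (.f1 w4
  (nat_lit 0xfe023c00000000000000000) (nat_lit 0x1fdc000000000000000000) (nat_lit 6) (.ret (nat_lit 0)) (.f1 w4 (nat_lit 0x1fdc000000000000000000) (nat_lit 0xfe023c00000000000000000) (nat_lit 6) (.f1 w267 (nat_lit 0xfe023c00000000000000000) (nat_lit 0x1fdc000000000000000000) (nat_lit 6) (.ret (nat_lit 0)) (.f1 w4 (nat_lit 0xfe023c00000000000000000) (nat_lit 0x1fdc000000000000000000) (nat_lit 6) (.f0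
  (nat_lit 0xfc254000000000000000000) (nat_lit 0x3dabc00000000000000000) (nat_lit 6) (.ret (nat_lit 115)) s3283) (.f1 w24 (nat_lit 0xfe023c00000000000000000) (nat_lit 0x1fdc000000000000000000) (nat_lit 6) (.ret (nat_lit 114)) (.ret (nat_lit 118))))) (.ret (nat_lit 0)))) s3289) (.ret (nat_lit 0))) (.f1 w18 (nat_lit 0x1fdc000000000000000000) (nat_lit 0xfe023c00000000000000000) (nat_lit 6) (.f1 w4 (nat_lit 0x1fdc000000000000000000)
  (nat_lit 0xfe023c00000000000000000) (nat_lit 6) (.f1 w4 (nat_lit 0xfc254000000000000000000) (nat_lit 0x3dabc00000000000000000) (nat_lit 6) (.f1 w213 (nat_lit 0x3dabc00000000000000000) (nat_lit 0xfc254000000000000000000) (nat_lit 3) s3289 (.f1 w24 (nat_lit 0x1fdc000000000000000000) (nat_lit 0xfe023c00000000000000000) (nat_lit 3) (.ret (nat_lit 115)) s2649)) (.f1 w267 (nat_lit 0x1fdc000000000000000000)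
  (nat_lit 0xfe023c00000000000000000) (nat_lit 6) (.f1 w4 (nat_lit 0xfe023c00000000000000000) (nat_lit 0x1fdc000000000000000000) (nat_lit 6) (.f0 (nat_lit 0x3dabc00000000000000000) (nat_lit 0xfc254000000000000000000) (nat_lit 6) (.f1 w24 (nat_lit 0x1fdc000000000000000000) (nat_lit 0xfe023c00000000000000000) (nat_lit 6) (.ret (nat_lit 118)) s2649) (.ret (nat_lit 115))) s3283) (.ret (nat_lit 0)))) (.f1 w4
  (nat_lit 0xfe023c00000000000000000) (nat_lit 0x1fdc000000000000000000) (nat_lit 6) (.ret (nat_lit 0)) s3312)) (.f1 w24 (nat_lit 0xfe023c00000000000000000) (nat_lit 0x1fdc000000000000000000) (nat_lit 6) (.ret (nat_lit 0)) s3312))) (.f1 w44 (nat_lit 0xfe023c00000000000000000) (nat_lit 0x1fdc000000000000000000) (nat_lit 6) (.f0 (nat_lit 0x3dabc00000000000000000) (nat_lit 0xfc254000000000000000000) (nat_lit 6)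
  (.f1 w18 (nat_lit 0x1fdc000000000000000000) (nat_lit 0xfe023c00000000000000000) (nat_lit 6) (.f1 w4 (nat_lit 0xfe023c00000000000000000) (nat_lit 0x1fdc000000000000000000) (nat_lit 6) (.ret (nat_lit 0)) (.f1 w4 (nat_lit 0x1fdc000000000000000000) (nat_lit 0xfe023c00000000000000000) (nat_lit 6) (.f1 w267 (nat_lit 0xfe023c00000000000000000) (nat_lit 0x1fdc000000000000000000) (nat_lit 6) (.ret (nat_lit 0))
  (.f1 w4 (nat_lit 0xfe023c00000000000000000) (nat_lit 0x1fdc000000000000000000) (nat_lit 6) (.ret (nat_lit 0)) s3283)) (.ret (nat_lit 0)))) (.ret (nat_lit 0))) (.ret (nat_lit 0))) (.f1 w18 (nat_lit 0x1fdc000000000000000000) (nat_lit 0xfe023c00000000000000000) (nat_lit 6) (.f1 w4 (nat_lit 0x1fdc000000000000000000) (nat_lit 0xfe023c00000000000000000) (nat_lit 6) (.f1 w4 (nat_lit 0xfc254000000000000000000)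
  (nat_lit 0x3dabc00000000000000000) (nat_lit 6) (.f1 w34 (nat_lit 0x1fdc000000000000000000) (nat_lit 0xfe023c00000000000000000) (nat_lit 3) (.ret (nat_lit 115)) (.ret (nat_lit 0))) (.f1 w267 (nat_lit 0x1fdc000000000000000000) (nat_lit 0xfe023c00000000000000000) (nat_lit 6) (.f1 w4 (nat_lit 0xfe023c00000000000000000) (nat_lit 0x1fdc000000000000000000) (nat_lit 6) (.f0 (nat_lit 0xfc254000000000000000000) (nat_lit 0x3dabc00000000000000000) (nat_lit 6) s2641 s3283) s3283) (.ret (nat_lit 0)))) (.f1 w4 (nat_lit 0xfe023c00000000000000000) (nat_lit 0x1fdc000000000000000000) (nat_lit 6) (.ret (nat_lit 0)) s3292)) (.f1 w24 (nat_lit 0xfe023c00000000000000000) (nat_lit 0x1fdc000000000000000000) (nat_lit 6) (.ret (nat_lit 0)) s3292)))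
noncomputable def s3332 : FP := .v1 w4 (nat_lit 0x3e0000000000000000) (nat_lit 0x10000000000000000) (nat_lit 6) (.v1 w4 (nat_lit 0x3e0000000000000000) (nat_lit 0x10000000000000000) (nat_lit 6) (.v1 w4 (nat_lit 0x3d0000000000000000) (nat_lit 0x20000000000000000) (nat_lit 6) (.v1 w9 (nat_lit 0x20000000000000000) (nat_lit 0x3d0000000000000000) (nat_lit 6) (.ret (nat_lit 0)) (.f0 (nat_lit 0xfc000800000000000000000)
  (nat_lit 0x3fff400000000000000000) (nat_lit 6) (.ret (nat_lit 0)) (.f1 w266 (nat_lit 0x1fdc000000000000000000) (nat_lit 0xfe023c00000000000000000) (nat_lit 6) (.f1 w18 (nat_lit 0x1fdc000000000000000000) (nat_lit 0xfe023c00000000000000000) (nat_lit 6) (.f1 w4 (nat_lit 0x1fdc000000000000000000) (nat_lit 0xfe023c00000000000000000) (nat_lit 6) (.f1 w4 (nat_lit 0x3dabc00000000000000000) (nat_lit 0xfc254000000000000000000)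
  (nat_lit 6) (.ret (nat_lit 86)) (.ret (nat_lit 83))) (.f1 w4 (nat_lit 0xfe023c00000000000000000) (nat_lit 0x1fdc000000000000000000) (nat_lit 6) (.ret (nat_lit 83)) (.ret (nat_lit 86)))) (.f1 w24 (nat_lit 0xfe023c00000000000000000) (nat_lit 0x1fdc000000000000000000) (nat_lit 6) (.ret (nat_lit 81)) (.ret (nat_lit 86)))) (.f0 (nat_lit 0x3dabc00000000000000000) (nat_lit 0xfc254000000000000000000) (nat_lit 6)
  (.f1 w18 (nat_lit 0x1fdc000000000000000000) (nat_lit 0xfe023c00000000000000000) (nat_lit 6) (.f1 w4 (nat_lit 0xfe023c00000000000000000) (nat_lit 0x1fdc000000000000000000) (nat_lit 6) (.ret (nat_lit 0)) (.f1 w4 (nat_lit 0x1fdc000000000000000000) (nat_lit 0xfe023c00000000000000000) (nat_lit 6) (.ret (nat_lit 86)) (.ret (nat_lit 0)))) (.ret (nat_lit 0))) (.ret (nat_lit 0)))))) (.ret (nat_lit 0))) (.v0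
  (nat_lit 0x3d0000000000000000) (nat_lit 0x20000000000000000) (nat_lit 6) (.f0 (nat_lit 0x3fff400000000000000000) (nat_lit 0xfc000800000000000000000) (nat_lit 6) (.v1 w9 (nat_lit 0x20000000000000000) (nat_lit 0x3d0000000000000000) (nat_lit 6) (.ret (nat_lit 0)) (.f0 (nat_lit 0xfc000800000000000000000) (nat_lit 0x3fff400000000000000000) (nat_lit 6) (.ret (nat_lit 0)) s3277)) (.ret (nat_lit 0))) (.ret
  (nat_lit 0)))) (.v0 (nat_lit 0x3d0000000000000000) (nat_lit 0x20000000000000000) (nat_lit 6) (.v1 w25 (nat_lit 0x3e0000000000000000) (nat_lit 0x10000000000000000) (nat_lit 6) (.f1 w27 (nat_lit 0x3fff400000000000000000) (nat_lit 0xfc000800000000000000000) (nat_lit 6) (.v1 w9 (nat_lit 0x20000000000000000) (nat_lit 0x3d0000000000000000) (nat_lit 6) (.ret (nat_lit 0)) (.f0 (nat_lit 0x3fff400000000000000000) (nat_lit 0xfc000800000000000000000) (nat_lit 6) s3326 (.ret (nat_lit 0)))) (.ret (nat_lit 0))) (.ret (nat_lit 0))) (.ret (nat_lit 0)))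
noncomputable def s3350 : FP := .f1 w42 (nat_lit 0x3ffc000000000000000000) (nat_lit 0xfc003c00000000000000000) (nat_lit 9) (.f0 (nat_lit 0xfc000800000000000000000) (nat_lit 0x3fff400000000000000000) (nat_lit 9) (.f0 (nat_lit 0xfc000400000000000000000) (nat_lit 0x3fff800000000000000000) (nat_lit 8) (.f0 (nat_lit 0x3ffec00000000000000000) (nat_lit 0xfc001000000000000000000) (nat_lit 8) s3050 (.v0 (nat_lit 0x3e0000000000000000)
  (nat_lit 0x10000000000000000) (nat_lit 7) (.v1 w6 (nat_lit 0x3e0000000000000000) (nat_lit 0x10000000000000000) (nat_lit 7) s3135 (.v0 (nat_lit 0x3d0000000000000000) (nat_lit 0x20000000000000000) (nat_lit 7) (.v1 w25 (nat_lit 0x3e0000000000000000) (nat_lit 0x10000000000000000) (nat_lit 7) s3191 (.v0 (nat_lit 0x3d0000000000000000) (nat_lit 0x20000000000000000) (nat_lit 3) (.f1 w27 (nat_lit 0x3ffc000000000000000000)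
  (nat_lit 0xfc003c00000000000000000) (nat_lit 3) (.f0 (nat_lit 0xfc000800000000000000000) (nat_lit 0x3fff400000000000000000) (nat_lit 3) (.f0 (nat_lit 0x3ffec00000000000000000) (nat_lit 0xfc001000000000000000000) (nat_lit 3) (.ret (nat_lit 0)) (.v1 w9 (nat_lit 0x3e0000000000000000) (nat_lit 0x10000000000000000) (nat_lit 3) (.v1 w4 (nat_lit 0x3d0000000000000000) (nat_lit 0x20000000000000000) (nat_lit 3)
  (.f1 w77 (nat_lit 0x3fff400000000000000000) (nat_lit 0xfc000800000000000000000) (nat_lit 3) s3194 (.ret (nat_lit 0))) (.ret (nat_lit 0))) (.v0 (nat_lit 0x3d0000000000000000) (nat_lit 0x20000000000000000) (nat_lit 3) (.f1 w264 (nat_lit 0x3fff400000000000000000) (nat_lit 0xfc000800000000000000000) (nat_lit 3) s3194 (.ret (nat_lit 0))) (.ret (nat_lit 0))))) (.ret (nat_lit 0))) (.f1 w25 (nat_lit 0x3fff400000000000000000)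
  (nat_lit 0xfc000800000000000000000) (nat_lit 3) (.v1 w14 (nat_lit 0x3e0000000000000000) (nat_lit 0x10000000000000000) (nat_lit 3) (.f1 w118 (nat_lit 0x3dabc00000000000000000) (nat_lit 0xfc254000000000000000000) (nat_lit 3) (.ret (nat_lit 338)) (.f1 w265 (nat_lit 0x1fdc000000000000000000) (nat_lit 0xfe023c00000000000000000) (nat_lit 3) (.ret (nat_lit 339)) (.f1 w24 (nat_lit 0x2fffc00000000000000000)
  (nat_lit 0xfd000000000000000000000) (nat_lit 3) (.ret (nat_lit 339)) (.ret (nat_lit 0))))) (.ret (nat_lit 0))) (.ret (nat_lit 0)))) (.ret (nat_lit 0)))) (.ret (nat_lit 0)))) (.ret (nat_lit 0)))) s1889) s1752) (.f0 (nat_lit 0x1fffc00000000000000000) (nat_lit 0xfe000000000000000000000) (nat_lit 6) (.v0 (nat_lit 0x3e0000000000000000) (nat_lit 0x10000000000000000) (nat_lit 6) (.v1 w6 (nat_lit 0x3e0000000000000000)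
  (nat_lit 0x10000000000000000) (nat_lit 6) (.v1 w4 (nat_lit 0x3e0000000000000000) (nat_lit 0x10000000000000000) (nat_lit 6) s3332 (.v0 (nat_lit 0x3d0000000000000000) (nat_lit 0x20000000000000000) (nat_lit 6) (.v1 w25 (nat_lit 0x3e0000000000000000) (nat_lit 0x10000000000000000) (nat_lit 6) (.v1 w4 (nat_lit 0x3e0000000000000000) (nat_lit 0x10000000000000000) (nat_lit 6) (.f1 w60 (nat_lit 0x3fff400000000000000000)
  (nat_lit 0xfc000800000000000000000) (nat_lit 6) (.v1 w9 (nat_lit 0x20000000000000000) (nat_lit 0x3d0000000000000000) (nat_lit 6) (.ret (nat_lit 0)) (.f0 (nat_lit 0xfc000800000000000000000) (nat_lit 0x3fff400000000000000000) (nat_lit 6) (.ret (nat_lit 0)) (.f1 w19 (nat_lit 0xfe023c00000000000000000) (nat_lit 0x1fdc000000000000000000) (nat_lit 6) (.f0 (nat_lit 0xfc254000000000000000000) (nat_lit 0x3dabc00000000000000000)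
  (nat_lit 6) (.f1 w62 (nat_lit 0xfe023c00000000000000000) (nat_lit 0x1fdc000000000000000000) (nat_lit 3) (.ret (nat_lit 0)) (.ret (nat_lit 147))) (.f1 w62 (nat_lit 0x1fdc000000000000000000) (nat_lit 0xfe023c00000000000000000) (nat_lit 6) (.ret (nat_lit 150)) (.ret (nat_lit 146)))) (.f1 w18 (nat_lit 0x1fdc000000000000000000) (nat_lit 0xfe023c00000000000000000) (nat_lit 6) (.f1 w4 (nat_lit 0x1fdc000000000000000000) (nat_lit 0xfe023c00000000000000000) (nat_lit 6) (.f1 w4 (nat_lit 0xfc254000000000000000000) (nat_lit 0x3dabc00000000000000000) (nat_lit 6) (.ret (nat_lit 147)) (.ret (nat_lit 150))) s2882) s1121)))) (.ret (nat_lit 0))) (.ret (nat_lit 0))) (.ret (nat_lit 0))) (.ret (nat_lit 0)))) (.ret (nat_lit 0))) (.ret (nat_lit 0))) (.ret (nat_lit 0)))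
noncomputable def s3368 : FP := .f1 w4 (nat_lit 0xfe023c00000000000000000) (nat_lit 0x1fdc000000000000000000) (nat_lit 6) (.ret (nat_lit 355)) (.ret (nat_lit 358))
noncomputable def s3370 : FP := .f1 w4 (nat_lit 0xfe023c00000000000000000) (nat_lit 0x1fdc000000000000000000) (nat_lit 3) (.ret (nat_lit 354)) (.ret (nat_lit 355))
noncomputable def s3373 : FP := .f1 w4 (nat_lit 0x1fdc000000000000000000) (nat_lit 0xfe023c00000000000000000) (nat_lit 3) s3370 (.ret (nat_lit 353))
noncomputable def s3378 : FP := .f1 w4 (nat_lit 0x1fdc000000000000000000) (nat_lit 0xfe023c00000000000000000) (nat_lit 6) (.f1 w4 (nat_lit 0x1fdc000000000000000000) (nat_lit 0xfe023c00000000000000000) (nat_lit 6) s3368 (.ret (nat_lit 355))) (.ret (nat_lit 355))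
noncomputable def s3381 : FP := .f0 (nat_lit 0xfc254000000000000000000) (nat_lit 0x3dabc00000000000000000) (nat_lit 4) (.ret (nat_lit 355)) (.ret (nat_lit 356))
noncomputable def s3407 : FP := .f0 (nat_lit 0xfc000400000000000000000) (nat_lit 0x3fff800000000000000000) (nat_lit 6) (.f0 (nat_lit 0x3ffec00000000000000000) (nat_lit 0xfc001000000000000000000) (nat_lit 6) (.v1 w42 (nat_lit 0x20000000000000000) (nat_lit 0x3d0000000000000000) (nat_lit 6) (.v1 w25 (nat_lit 0x3e0000000000000000) (nat_lit 0x10000000000000000) (nat_lit 6) (.v1 w4 (nat_lit 0x3d0000000000000000)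
  (nat_lit 0x20000000000000000) (nat_lit 6) (.f0 (nat_lit 0x3fff400000000000000000) (nat_lit 0xfc000800000000000000000) (nat_lit 6) (.v1 w9 (nat_lit 0x3e0000000000000000) (nat_lit 0x10000000000000000) (nat_lit 6) (.v1 w4 (nat_lit 0x3e0000000000000000) (nat_lit 0x10000000000000000) (nat_lit 6) (.f1 w243 (nat_lit 0xfc254000000000000000000) (nat_lit 0x3dabc00000000000000000) (nat_lit 6) s2083 s2009) (.ret
  (nat_lit 0))) (.ret (nat_lit 0))) (.ret (nat_lit 0))) (.ret (nat_lit 0))) (.v0 (nat_lit 0x3d0000000000000000) (nat_lit 0x20000000000000000) (nat_lit 6) (.f0 (nat_lit 0x3fff400000000000000000) (nat_lit 0xfc000800000000000000000) (nat_lit 6) (.v1 w14 (nat_lit 0x3e0000000000000000) (nat_lit 0x10000000000000000) (nat_lit 6) (.f1 w118 (nat_lit 0xfc254000000000000000000) (nat_lit 0x3dabc00000000000000000)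
  (nat_lit 6) (.f1 w21 (nat_lit 0xfe023c00000000000000000) (nat_lit 0x1fdc000000000000000000) (nat_lit 6) s2439 (.f1 w25 (nat_lit 0x1fdc000000000000000000) (nat_lit 0xfe023c00000000000000000) (nat_lit 6) s2413 s2417)) s2403) (.ret (nat_lit 0))) (.ret (nat_lit 0))) (.ret (nat_lit 0)))) (.ret (nat_lit 0))) (.ret (nat_lit 0))) (.v1 w14 (nat_lit 0x3e0000000000000000) (nat_lit 0x10000000000000000) (nat_lit 6)
  (.v1 w170 (nat_lit 0x3b0000000000000000) (nat_lit 0x40000000000000000) (nat_lit 6) (.f1 w1 (nat_lit 0xfc000400000000000000000) (nat_lit 0x3fff800000000000000000) (nat_lit 6) (.f1 w1 (nat_lit 0xfc254000000000000000000) (nat_lit 0x3dabc00000000000000000) (nat_lit 6) (.f0 (nat_lit 0x3f77c00000000000000000) (nat_lit 0xfc088000000000000000000) (nat_lit 6) (.f1 w4 (nat_lit 0x1fdc000000000000000000) (nat_lit 0xfe023c00000000000000000)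
  (nat_lit 6) s3378 (.ret (nat_lit 355))) (.f1 w4 (nat_lit 0x1fdc000000000000000000) (nat_lit 0xfe023c00000000000000000) (nat_lit 6) (.f1 w4 (nat_lit 0x1fdc000000000000000000) (nat_lit 0xfe023c00000000000000000) (nat_lit 6) (.f1 w4 (nat_lit 0x1fdc000000000000000000) (nat_lit 0xfe023c00000000000000000) (nat_lit 6) (.f1 w4 (nat_lit 0xfe023c00000000000000000) (nat_lit 0x1fdc000000000000000000) (nat_lit 6) s3381
  (.ret (nat_lit 358))) (.f1 w4 (nat_lit 0xfe023c00000000000000000) (nat_lit 0x1fdc000000000000000000) (nat_lit 4) s3381 (.ret (nat_lit 356)))) (.f1 w24 (nat_lit 0xfe023c00000000000000000) (nat_lit 0x1fdc000000000000000000) (nat_lit 4) s3381 (.ret (nat_lit 356)))) (.ret (nat_lit 355)))) (.f1 w4 (nat_lit 0x1fdc000000000000000000) (nat_lit 0xfe023c00000000000000000) (nat_lit 6) (.f1 w4 (nat_lit 0x1fdc000000000000000000) (nat_lit 0xfe023c00000000000000000) (nat_lit 6) (.f1 w4 (nat_lit 0x1fdc000000000000000000) (nat_lit 0xfe023c00000000000000000) (nat_lit 6)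 s3368 s3370) s3373) (.f1 w4 (nat_lit 0x1fdc000000000000000000) (nat_lit 0xfe023c00000000000000000) (nat_lit 3) s3373 (.ret (nat_lit 353))))) (.ret (nat_lit 0))) (.ret (nat_lit 0))) (.ret (nat_lit 0)))
noncomputable def s3412 : FP := .f0 (nat_lit 0xfd000000000000000000000) (nat_lit 0x2fffc00000000000000000) (nat_lit 9) (.f0 (nat_lit 0xfc023c00000000000000000) (nat_lit 0x3fdc000000000000000000) (nat_lit 9) (.f0 (nat_lit 0xfe000000000000000000000) (nat_lit 0x1fffc00000000000000000) (nat_lit 9) (.v0 (nat_lit 0x3e0000000000000000) (nat_lit 0x10000000000000000) (nat_lit 9) s3350 (.f1 w42 (nat_lit 0x3fff400000000000000000)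
  (nat_lit 0xfc000800000000000000000) (nat_lit 6) (.v1 w42 (nat_lit 0x20000000000000000) (nat_lit 0x3d0000000000000000) (nat_lit 6) (.v1 w25 (nat_lit 0x20000000000000000) (nat_lit 0x3d0000000000000000) (nat_lit 6) (.ret (nat_lit 0)) (.f0 (nat_lit 0x3ffc000000000000000000) (nat_lit 0xfc003c00000000000000000) (nat_lit 6) (.f0 (nat_lit 0xfc000800000000000000000) (nat_lit 0x3fff400000000000000000) (nat_lit 6)
  (.f0 (nat_lit 0x3ffec00000000000000000) (nat_lit 0xfc001000000000000000000) (nat_lit 6) (.v1 w14 (nat_lit 0x3e0000000000000000) (nat_lit 0x10000000000000000) (nat_lit 6) (.v1 w174 (nat_lit 0x370000000000000000) (nat_lit 0x80000000000000000) (nat_lit 6) (.f1 w1 (nat_lit 0x3fff800000000000000000) (nat_lit 0xfc000400000000000000000) (nat_lit 6) (.f1 w268 (nat_lit 0x1fdc000000000000000000) (nat_lit 0xfe023c00000000000000000)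
  (nat_lit 6) s659 s674) (.ret (nat_lit 0))) (.ret (nat_lit 0))) (.ret (nat_lit 0))) (.ret (nat_lit 0))) (.v1 w14 (nat_lit 0x3e0000000000000000) (nat_lit 0x10000000000000000) (nat_lit 4) (.v1 w173 (nat_lit 0x370000000000000000) (nat_lit 0x80000000000000000) (nat_lit 4) (.f1 w1 (nat_lit 0x3fff800000000000000000) (nat_lit 0xfc000400000000000000000) (nat_lit 4) (.f1 w75 (nat_lit 0xfc254000000000000000000)
  (nat_lit 0x3dabc00000000000000000) (nat_lit 4) s849 (.ret (nat_lit 67))) (.ret (nat_lit 0))) (.ret (nat_lit 0))) (.ret (nat_lit 0)))) (.v1 w170 (nat_lit 0x370000000000000000) (nat_lit 0x80000000000000000) (nat_lit 3) (.f1 w1 (nat_lit 0x3fff800000000000000000) (nat_lit 0xfc000400000000000000000) (nat_lit 3) (.ret (nat_lit 67)) (.ret (nat_lit 0))) (.ret (nat_lit 0))))) (.ret (nat_lit 0))) s3407)) (.ret (nat_lit 0))) (.ret (nat_lit 0))) s288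
noncomputable def s3421 : FP := .f1 w4 (nat_lit 0xfe023c00000000000000000) (nat_lit 0x1fdc000000000000000000) (nat_lit 6) (.ret (nat_lit 1060)) (.ret (nat_lit 1062))
noncomputable def s3423 : FP := .f1 w4 (nat_lit 0x1fdc000000000000000000) (nat_lit 0xfe023c00000000000000000) (nat_lit 6) (.f1 w4 (nat_lit 0x1fdc000000000000000000) (nat_lit 0xfe023c00000000000000000) (nat_lit 6) s3421 (.ret (nat_lit 1060))) (.ret (nat_lit 1060))
noncomputable def s3463 : FP := .f1 w42 (nat_lit 0xfc000800000000000000000) (nat_lit 0x3fff400000000000000000) (nat_lit 4) (.f0 (nat_lit 0x3ffec00000000000000000) (nat_lit 0xfc001000000000000000000) (nat_lit 4) (.v1 w6 (nat_lit 0x3d0000000000000000) (nat_lit 0x20000000000000000) (nat_lit 4) (.v1 w25 (nat_lit 0x3e0000000000000000) (nat_lit 0x10000000000000000) (nat_lit 4) (.v1 w4 (nat_lit 0x3e0000000000000000)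
  (nat_lit 0x10000000000000000) (nat_lit 4) (.f1 w25 (nat_lit 0x3fff400000000000000000) (nat_lit 0xfc000800000000000000000) (nat_lit 4) (.v1 w9 (nat_lit 0x3d0000000000000000) (nat_lit 0x20000000000000000) (nat_lit 4) (.f0 (nat_lit 0x3fff400000000000000000) (nat_lit 0xfc000800000000000000000) (nat_lit 4) (.f1 w8 (nat_lit 0x1fdc000000000000000000) (nat_lit 0xfe023c00000000000000000) (nat_lit 4) (.f1 w4
  (nat_lit 0x1fdc000000000000000000) (nat_lit 0xfe023c00000000000000000) (nat_lit 4) (.f1 w4 (nat_lit 0x1fdc000000000000000000) (nat_lit 0xfe023c00000000000000000) (nat_lit 4) (.f1 w64 (nat_lit 0xfe023c00000000000000000) (nat_lit 0x1fdc000000000000000000) (nat_lit 4) (.ret (nat_lit 0)) (.ret (nat_lit 1316))) (.ret (nat_lit 0))) (.ret (nat_lit 0))) (.ret (nat_lit 0))) (.ret (nat_lit 0))) (.ret (nat_lit 0)))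
  (.ret (nat_lit 0))) (.ret (nat_lit 0))) (.ret (nat_lit 0))) (.ret (nat_lit 0))) (.ret (nat_lit 0))) (.v1 w6 (nat_lit 0x3d0000000000000000) (nat_lit 0x20000000000000000) (nat_lit 4) (.v1 w25 (nat_lit 0x3e0000000000000000) (nat_lit 0x10000000000000000) (nat_lit 4) (.f1 w27 (nat_lit 0x3fff400000000000000000) (nat_lit 0xfc000800000000000000000) (nat_lit 4) (.v1 w9 (nat_lit 0x3d0000000000000000) (nat_lit 0x20000000000000000)
  (nat_lit 4) (.f0 (nat_lit 0x3fff400000000000000000) (nat_lit 0xfc000800000000000000000) (nat_lit 4) (.f1 w8 (nat_lit 0x1fdc000000000000000000) (nat_lit 0xfe023c00000000000000000) (nat_lit 4) (.f1 w4 (nat_lit 0x1fdc000000000000000000) (nat_lit 0xfe023c00000000000000000) (nat_lit 4) (.f1 w64 (nat_lit 0xfc254000000000000000000) (nat_lit 0x3dabc00000000000000000) (nat_lit 4) (.ret (nat_lit 0)) (.ret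
  (nat_lit 1316))) (.ret (nat_lit 0))) (.ret (nat_lit 0))) (.f0 (nat_lit 0x3ffec00000000000000000) (nat_lit 0xfc001000000000000000000) (nat_lit 4) (.f1 w269 (nat_lit 0x1fdc000000000000000000) (nat_lit 0xfe023c00000000000000000) (nat_lit 4) (.f1 w4 (nat_lit 0xfe023c00000000000000000) (nat_lit 0x1fdc000000000000000000) (nat_lit 4) (.ret (nat_lit 0)) (.f1 w27 (nat_lit 0x1fdc000000000000000000) (nat_lit 0xfe023c00000000000000000) (nat_lit 4) (.ret (nat_lit 1316)) (.ret (nat_lit 0)))) (.ret (nat_lit 0))) (.ret (nat_lit 0)))) (.ret (nat_lit 0))) (.ret (nat_lit 0))) (.ret (nat_lit 0))) (.ret (nat_lit 0)))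
noncomputable def s3482 : FP := .f1 w4 (nat_lit 0xfe023c00000000000000000) (nat_lit 0x1fdc000000000000000000) (nat_lit 6) (.ret (nat_lit 0)) (.ret (nat_lit 1382))
noncomputable def s3487 : FP := .f1 w4 (nat_lit 0xfe023c00000000000000000) (nat_lit 0x1fdc000000000000000000) (nat_lit 6) (.ret (nat_lit 0)) s3482
noncomputable def s3495 : FP := .v1 w9 (nat_lit 0x3e0000000000000000) (nat_lit 0x10000000000000000) (nat_lit 6) (.v1 w4 (nat_lit 0x3e0000000000000000) (nat_lit 0x10000000000000000) (nat_lit 4) (.f1 w37 (nat_lit 0x1fdc000000000000000000) (nat_lit 0xfe023c00000000000000000) (nat_lit 4) (.f1 w4 (nat_lit 0x1fdc000000000000000000) (nat_lit 0xfe023c00000000000000000) (nat_lit 4) (.f1 w4 (nat_lit 0x1fdc000000000000000000)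
  (nat_lit 0xfe023c00000000000000000) (nat_lit 4) (.f1 w4 (nat_lit 0x1fdc000000000000000000) (nat_lit 0xfe023c00000000000000000) (nat_lit 4) (.f1 w63 (nat_lit 0xfc003c00000000000000000) (nat_lit 0x3ffc000000000000000000) (nat_lit 4) (.v1 w9 (nat_lit 0x3e0000000000000000) (nat_lit 0x10000000000000000) (nat_lit 4) (.v1 w4 (nat_lit 0x3d0000000000000000) (nat_lit 0x20000000000000000) (nat_lit 4) (.v1 w9
  (nat_lit 0x3e0000000000000000) (nat_lit 0x10000000000000000) (nat_lit 4) (.v1 w271 (nat_lit 0x3d0000000000000000) (nat_lit 0x20000000000000000) (nat_lit 4) (.ret (nat_lit 1412)) (.ret (nat_lit 0))) (.ret (nat_lit 0))) (.ret (nat_lit 0))) (.ret (nat_lit 0))) (.f0 (nat_lit 0x3fff400000000000000000) (nat_lit 0xfc000800000000000000000) (nat_lit 4) (.v1 w9 (nat_lit 0x3e0000000000000000) (nat_lit 0x10000000000000000)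
  (nat_lit 4) (.v1 w4 (nat_lit 0x3e0000000000000000) (nat_lit 0x10000000000000000) (nat_lit 4) (.v1 w270 (nat_lit 0x20000000000000000) (nat_lit 0x3d0000000000000000) (nat_lit 4) (.ret (nat_lit 0)) (.ret (nat_lit 1412))) (.ret (nat_lit 0))) (.ret (nat_lit 0))) (.ret (nat_lit 0)))) (.ret (nat_lit 0))) (.ret (nat_lit 0))) (.ret (nat_lit 0))) (.ret (nat_lit 0))) (.ret (nat_lit 0))) (.v0 (nat_lit 0x3d0000000000000000)
  (nat_lit 0x20000000000000000) (nat_lit 6) (.f0 (nat_lit 0x3fff400000000000000000) (nat_lit 0xfc000800000000000000000) (nat_lit 6) (.f1 w19 (nat_lit 0x1fdc000000000000000000) (nat_lit 0xfe023c00000000000000000) (nat_lit 6) (.f1 w18 (nat_lit 0x1fdc000000000000000000) (nat_lit 0xfe023c00000000000000000) (nat_lit 6) (.f1 w4 (nat_lit 0xfe023c00000000000000000) (nat_lit 0x1fdc000000000000000000) (nat_lit 6) s3482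
  (.f1 w4 (nat_lit 0xfc254000000000000000000) (nat_lit 0x3dabc00000000000000000) (nat_lit 6) (.ret (nat_lit 1378)) (.ret (nat_lit 1382)))) (.f0 (nat_lit 0x2fffc00000000000000000) (nat_lit 0xfd000000000000000000000) (nat_lit 6) (.f1 w24 (nat_lit 0xfe023c00000000000000000) (nat_lit 0x1fdc000000000000000000) (nat_lit 4) (.ret (nat_lit 1377)) (.ret (nat_lit 1380))) s3487)) (.f0 (nat_lit 0xfc254000000000000000000) (nat_lit 0x3dabc00000000000000000) (nat_lit 6) (.ret (nat_lit 0)) (.f1 w18 (nat_lit 0xfe023c00000000000000000) (nat_lit 0x1fdc000000000000000000) (nat_lit 6) (.ret (nat_lit 0)) s3487))) (.ret (nat_lit 0))) (.ret (nat_lit 0)))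
noncomputable def s3498 : FP := .v1 w16 (nat_lit 0x10000000000000000) (nat_lit 0x3e0000000000000000) (nat_lit 6) (.v0 (nat_lit 0x3d0000000000000000) (nat_lit 0x20000000000000000) (nat_lit 6) (.f1 w1 (nat_lit 0x3fff400000000000000000) (nat_lit 0xfc000800000000000000000) (nat_lit 6) s3495 (.ret (nat_lit 0))) (.ret (nat_lit 0))) s3463
noncomputable def s3499 : FP := .v1 w272 (nat_lit 0x3e0000000000000000) (nat_lit 0x10000000000000000) (nat_lit 6) s3498 (.ret (nat_lit 0))
noncomputable def s3514 : FP := .v1 w4 (nat_lit 0x10000000000000000) (nat_lit 0x3e0000000000000000) (nat_lit 6) (.f0 (nat_lit 0x3ffc000000000000000000) (nat_lit 0xfc003c00000000000000000) (nat_lit 4) (.f0 (nat_lit 0x3fff400000000000000000) (nat_lit 0xfc000800000000000000000) (nat_lit 4) (.v1 w9 (nat_lit 0x20000000000000000) (nat_lit 0x3d0000000000000000) (nat_lit 4) (.ret (nat_lit 1460)) (.ret (nat_lit 1492)))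
  (.f0 (nat_lit 0x3ffec00000000000000000) (nat_lit 0xfc001000000000000000000) (nat_lit 4) (.v1 w9 (nat_lit 0x3e0000000000000000) (nat_lit 0x10000000000000000) (nat_lit 4) (.v1 w4 (nat_lit 0x3d0000000000000000) (nat_lit 0x20000000000000000) (nat_lit 4) (.ret (nat_lit 1492)) (.ret (nat_lit 1460))) (.v0 (nat_lit 0x3d0000000000000000) (nat_lit 0x20000000000000000) (nat_lit 4) (.ret (nat_lit 1108)) (.ret
  (nat_lit 1460)))) (.v1 w9 (nat_lit 0x3e0000000000000000) (nat_lit 0x10000000000000000) (nat_lit 4) (.ret (nat_lit 1492)) (.f1 w23 (nat_lit 0x3ffc000000000000000000) (nat_lit 0xfc003c00000000000000000) (nat_lit 4) (.f0 (nat_lit 0x3ffec00000000000000000) (nat_lit 0xfc001000000000000000000) (nat_lit 4) (.ret (nat_lit 1508)) (.ret (nat_lit 1460))) (.ret (nat_lit 1508)))))) (.ret (nat_lit 1460))) (.v1 w4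
  (nat_lit 0x20000000000000000) (nat_lit 0x3d0000000000000000) (nat_lit 6) s3499 (.f0 (nat_lit 0x3dbfc00000000000000000) (nat_lit 0xfc240000000000000000000) (nat_lit 6) (.f1 w17 (nat_lit 0x1fdc000000000000000000) (nat_lit 0xfe023c00000000000000000) (nat_lit 6) (.f1 w24 (nat_lit 0x1fdc000000000000000000) (nat_lit 0xfe023c00000000000000000) (nat_lit 6) (.f1 w4 (nat_lit 0x3fbfc00000000000000000) (nat_lit 0xfc040000000000000000000)
  (nat_lit 6) (.v1 w9 (nat_lit 0x3e0000000000000000) (nat_lit 0x10000000000000000) (nat_lit 6) (.v1 w24 (nat_lit 0x10000000000000000) (nat_lit 0x3e0000000000000000) (nat_lit 6) (.f0 (nat_lit 0x3fff400000000000000000) (nat_lit 0xfc000800000000000000000) (nat_lit 6) (.v1 w9 (nat_lit 0x10000000000000000) (nat_lit 0x3e0000000000000000) (nat_lit 6) (.v0 (nat_lit 0x3d0000000000000000) (nat_lit 0x20000000000000000)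
  (nat_lit 6) (.f0 (nat_lit 0xfc003c00000000000000000) (nat_lit 0x3ffc000000000000000000) (nat_lit 6) (.f1 w21 (nat_lit 0x1fdc000000000000000000) (nat_lit 0xfe023c00000000000000000) (nat_lit 6) (.f1 w22 (nat_lit 0x1fdc000000000000000000) (nat_lit 0xfe023c00000000000000000) (nat_lit 6) (.ret (nat_lit 1062)) (.ret (nat_lit 1060))) (.ret (nat_lit 1060))) (.ret (nat_lit 1060))) (.ret (nat_lit 1060))) (.f1 w21
  (nat_lit 0x1fdc000000000000000000) (nat_lit 0xfe023c00000000000000000) (nat_lit 6) s3423 (.ret (nat_lit 1060)))) (.ret (nat_lit 1060))) (.ret (nat_lit 1060))) (.ret (nat_lit 1060))) (.ret (nat_lit 1060))) (.ret (nat_lit 1060))) (.ret (nat_lit 1060))) (.f0 (nat_lit 0xfc023c00000000000000000) (nat_lit 0x3fdc000000000000000000) (nat_lit 4) (.f0 (nat_lit 0x2fffc00000000000000000) (nat_lit 0xfd000000000000000000000) (nat_lit 4) (.ret (nat_lit 1060)) (.ret (nat_lit 0))) (.ret (nat_lit 1060)))))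
noncomputable def s3534 : FP := .f1 w30 (nat_lit 0x1fdc000000000000000000) (nat_lit 0xfe023c00000000000000000) (nat_lit 6) (.f1 w24 (nat_lit 0xfe023c00000000000000000) (nat_lit 0x1fdc000000000000000000) (nat_lit 6) (.ret (nat_lit 1476)) (.f1 w21 (nat_lit 0x1fdc000000000000000000) (nat_lit 0xfe023c00000000000000000) (nat_lit 6) (.ret (nat_lit 1478)) (.ret (nat_lit 1476)))) (.ret (nat_lit 1476))
noncomputable def s3563 : FP := .v0 (nat_lit 0x3d0000000000000000) (nat_lit 0x20000000000000000) (nat_lit 6) (.v1 w25 (nat_lit 0x3e0000000000000000) (nat_lit 0x10000000000000000) (nat_lit 6) (.f1 w27 (nat_lit 0x3ffc000000000000000000) (nat_lit 0xfc003c00000000000000000) (nat_lit 6) (.f0 (nat_lit 0x3fff400000000000000000) (nat_lit 0xfc000800000000000000000) (nat_lit 6) (.v1 w9 (nat_lit 0x10000000000000000)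
  (nat_lit 0x3e0000000000000000) (nat_lit 6) (.v0 (nat_lit 0x3d0000000000000000) (nat_lit 0x20000000000000000) (nat_lit 6) (.ret (nat_lit 1588)) (.f1 w22 (nat_lit 0x1fdc000000000000000000) (nat_lit 0xfe023c00000000000000000) (nat_lit 6) (.f1 w112 (nat_lit 0xfe023c00000000000000000) (nat_lit 0x1fdc000000000000000000) (nat_lit 6) (.ret (nat_lit 1476)) (.ret (nat_lit 1478))) (.ret (nat_lit 1476)))) (.f1 w7
  (nat_lit 0x1fdc000000000000000000) (nat_lit 0xfe023c00000000000000000) (nat_lit 6) (.f1 w4 (nat_lit 0x1fdc000000000000000000) (nat_lit 0xfe023c00000000000000000) (nat_lit 6) s3534 (.ret (nat_lit 1476))) (.ret (nat_lit 1476)))) (.ret (nat_lit 1604))) (.ret (nat_lit 1476))) (.v0 (nat_lit 0x3d0000000000000000) (nat_lit 0x20000000000000000) (nat_lit 6) (.f1 w27 (nat_lit 0x3fff400000000000000000) (nat_lit 0xfc000800000000000000000)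
  (nat_lit 6) (.f1 w39 (nat_lit 0xfc240000000000000000000) (nat_lit 0x3dbfc00000000000000000) (nat_lit 6) (.f0 (nat_lit 0xfd000000000000000000000) (nat_lit 0x2fffc00000000000000000) (nat_lit 6) (.ret (nat_lit 1636)) (.ret (nat_lit 1638))) (.f1 w71 (nat_lit 0xfe023c00000000000000000) (nat_lit 0x1fdc000000000000000000) (nat_lit 6) (.ret (nat_lit 1636)) (.f1 w24 (nat_lit 0xfe023c00000000000000000) (nat_lit 0x1fdc000000000000000000)
  (nat_lit 6) (.ret (nat_lit 1636)) (.ret (nat_lit 1638))))) (.ret (nat_lit 1636))) (.f1 w27 (nat_lit 0x3ffc000000000000000000) (nat_lit 0xfc003c00000000000000000) (nat_lit 6) (.f0 (nat_lit 0x3fff400000000000000000) (nat_lit 0xfc000800000000000000000) (nat_lit 6) (.v1 w9 (nat_lit 0x3e0000000000000000) (nat_lit 0x10000000000000000) (nat_lit 6) (.v1 w4 (nat_lit 0x3e0000000000000000) (nat_lit 0x10000000000000000)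
  (nat_lit 6) (.f1 w118 (nat_lit 0x1fdc000000000000000000) (nat_lit 0xfe023c00000000000000000) (nat_lit 6) s3534 (.ret (nat_lit 1476))) (.ret (nat_lit 0))) (.ret (nat_lit 0))) (.ret (nat_lit 0))) (.ret (nat_lit 1476))))) (.v1 w25 (nat_lit 0x3d0000000000000000) (nat_lit 0x20000000000000000) (nat_lit 6) (.f0 (nat_lit 0x3dbfc00000000000000000) (nat_lit 0xfc240000000000000000000) (nat_lit 6) (.f1 w35 (nat_lit 0x3fff400000000000000000) (nat_lit 0xfc000800000000000000000) (nat_lit 6) (.f1 w6 (nat_lit 0x1fdc000000000000000000) (nat_lit 0xfe023c00000000000000000) (nat_lit 6) s3423 (.ret (nat_lit 1060))) (.ret (nat_lit 1060))) (.ret (nat_lit 1060))) s3499)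
noncomputable def s3607 : FP := .v1 w4 (nat_lit 0x3e0000000000000000) (nat_lit 0x10000000000000000) (nat_lit 5) (.v1 w4 (nat_lit 0x3e0000000000000000) (nat_lit 0x10000000000000000) (nat_lit 5) (.v1 w4 (nat_lit 0x10000000000000000) (nat_lit 0x3e0000000000000000) (nat_lit 5) (.f0 (nat_lit 0x3fff400000000000000000) (nat_lit 0xfc000800000000000000000) (nat_lit 5) (.v1 w9 (nat_lit 0x3d0000000000000000)
  (nat_lit 0x20000000000000000) (nat_lit 5) (.f0 (nat_lit 0x3ffc000000000000000000) (nat_lit 0xfc003c00000000000000000) (nat_lit 5) (.ret (nat_lit 1492)) (.f1 w29 (nat_lit 0x1fdc000000000000000000) (nat_lit 0xfe023c00000000000000000) (nat_lit 5) (.f1 w62 (nat_lit 0x1fdc000000000000000000) (nat_lit 0xfe023c00000000000000000) (nat_lit 5) (.f1 w132 (nat_lit 0xfe023c00000000000000000) (nat_lit 0x1fdc000000000000000000)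
  (nat_lit 5) (.ret (nat_lit 1492)) (.f1 w21 (nat_lit 0x1fdc000000000000000000) (nat_lit 0xfe023c00000000000000000) (nat_lit 5) (.ret (nat_lit 1493)) (.ret (nat_lit 1492)))) (.ret (nat_lit 1492))) (.ret (nat_lit 1492)))) (.ret (nat_lit 1460))) (.ret (nat_lit 1108))) (.ret (nat_lit 0))) (.f0 (nat_lit 0x3ffc000000000000000000) (nat_lit 0xfc003c00000000000000000) (nat_lit 4) (.f0 (nat_lit 0x3fff400000000000000000)
  (nat_lit 0xfc000800000000000000000) (nat_lit 4) (.v1 w9 (nat_lit 0x10000000000000000) (nat_lit 0x3e0000000000000000) (nat_lit 4) (.v0 (nat_lit 0x3d0000000000000000) (nat_lit 0x20000000000000000) (nat_lit 4) (.ret (nat_lit 1540)) (.ret (nat_lit 1524))) (.v1 w4 (nat_lit 0x3e0000000000000000) (nat_lit 0x10000000000000000) (nat_lit 4) (.f1 w243 (nat_lit 0x1fdc000000000000000000) (nat_lit 0xfe023c00000000000000000)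
  (nat_lit 4) (.ret (nat_lit 1524)) (.f0 (nat_lit 0x3dabc00000000000000000) (nat_lit 0xfc254000000000000000000) (nat_lit 4) (.ret (nat_lit 1524)) (.ret (nat_lit 0)))) (.ret (nat_lit 0)))) (.v1 w9 (nat_lit 0x3e0000000000000000) (nat_lit 0x10000000000000000) (nat_lit 4) (.v1 w4 (nat_lit 0x20000000000000000) (nat_lit 0x3d0000000000000000) (nat_lit 4) (.ret (nat_lit 0)) (.ret (nat_lit 1540))) (.ret (nat_lit 1572))))
  (.ret (nat_lit 0)))) (.v0 (nat_lit 0x3d0000000000000000) (nat_lit 0x20000000000000000) (nat_lit 5) (.v1 w25 (nat_lit 0x3e0000000000000000) (nat_lit 0x10000000000000000) (nat_lit 5) (.f1 w27 (nat_lit 0x3fff400000000000000000) (nat_lit 0xfc000800000000000000000) (nat_lit 5) (.v1 w9 (nat_lit 0x10000000000000000) (nat_lit 0x3e0000000000000000) (nat_lit 5) (.v0 (nat_lit 0x3d0000000000000000) (nat_lit 0x20000000000000000)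
  (nat_lit 5) (.f0 (nat_lit 0x3ffc000000000000000000) (nat_lit 0xfc003c00000000000000000) (nat_lit 5) (.ret (nat_lit 1556)) (.f1 w29 (nat_lit 0x1fdc000000000000000000) (nat_lit 0xfe023c00000000000000000) (nat_lit 5) (.f1 w62 (nat_lit 0x1fdc000000000000000000) (nat_lit 0xfe023c00000000000000000) (nat_lit 5) (.f1 w217 (nat_lit 0xfe023c00000000000000000) (nat_lit 0x1fdc000000000000000000) (nat_lit 5)
  (.ret (nat_lit 1556)) (.f1 w4 (nat_lit 0x1fdc000000000000000000) (nat_lit 0xfe023c00000000000000000) (nat_lit 5) (.ret (nat_lit 1557)) (.ret (nat_lit 1556)))) (.ret (nat_lit 1556))) (.ret (nat_lit 1556)))) (.ret (nat_lit 1668))) (.v1 w4 (nat_lit 0x3e0000000000000000) (nat_lit 0x10000000000000000) (nat_lit 4) (.f1 w243 (nat_lit 0x1fdc000000000000000000) (nat_lit 0xfe023c00000000000000000) (nat_lit 4)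
  (.f1 w4 (nat_lit 0x1fdc000000000000000000) (nat_lit 0xfe023c00000000000000000) (nat_lit 4) (.ret (nat_lit 1668)) (.f0 (nat_lit 0x3dabc00000000000000000) (nat_lit 0xfc254000000000000000000) (nat_lit 4) (.f1 w119 (nat_lit 0x1fdc000000000000000000) (nat_lit 0xfe023c00000000000000000) (nat_lit 4) (.ret (nat_lit 1668)) (.ret (nat_lit 0))) (.ret (nat_lit 0)))) (.f1 w4 (nat_lit 0x1fdc000000000000000000)
  (nat_lit 0xfe023c00000000000000000) (nat_lit 4) (.ret (nat_lit 1668)) (.ret (nat_lit 0)))) (.ret (nat_lit 0)))) (.f0 (nat_lit 0x3ffec00000000000000000) (nat_lit 0xfc001000000000000000000) (nat_lit 4) (.v1 w9 (nat_lit 0x3e0000000000000000) (nat_lit 0x10000000000000000) (nat_lit 4) (.v1 w4 (nat_lit 0x3d0000000000000000) (nat_lit 0x20000000000000000) (nat_lit 4) (.ret (nat_lit 1620)) (.ret (nat_lit 0))) (.ret (nat_lit 0))) (.ret (nat_lit 0)))) (.ret (nat_lit 1636))) (.ret (nat_lit 0)))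
noncomputable def s3632 : FP := .f0 (nat_lit 0x3ffec00000000000000000) (nat_lit 0xfc001000000000000000000) (nat_lit 7) (.v1 w6 (nat_lit 0x3e0000000000000000) (nat_lit 0x10000000000000000) (nat_lit 7) s3607 (.v0 (nat_lit 0x3d0000000000000000) (nat_lit 0x20000000000000000) (nat_lit 7) (.v1 w25 (nat_lit 0x3e0000000000000000) (nat_lit 0x10000000000000000) (nat_lit 7) (.v1 w4 (nat_lit 0x3e0000000000000000)
  (nat_lit 0x10000000000000000) (nat_lit 7) (.f1 w25 (nat_lit 0x3fff400000000000000000) (nat_lit 0xfc000800000000000000000) (nat_lit 7) (.v1 w9 (nat_lit 0x3d0000000000000000) (nat_lit 0x20000000000000000) (nat_lit 7) (.f0 (nat_lit 0x3fff400000000000000000) (nat_lit 0xfc000800000000000000000) (nat_lit 7) (.f1 w8 (nat_lit 0x1fdc000000000000000000) (nat_lit 0xfe023c00000000000000000) (nat_lit 7) (.f1 w4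
  (nat_lit 0x1fdc000000000000000000) (nat_lit 0xfe023c00000000000000000) (nat_lit 7) (.f1 w4 (nat_lit 0x1fdc000000000000000000) (nat_lit 0xfe023c00000000000000000) (nat_lit 7) (.f1 w28 (nat_lit 0x1fdc000000000000000000) (nat_lit 0xfe023c00000000000000000) (nat_lit 7) (.f1 w44 (nat_lit 0x1fdc000000000000000000) (nat_lit 0xfe023c00000000000000000) (nat_lit 7) (.f1 w12 (nat_lit 0xfe023c00000000000000000)
  (nat_lit 0x1fdc000000000000000000) (nat_lit 7) (.ret (nat_lit 1588)) (.ret (nat_lit 1591))) (.ret (nat_lit 0))) (.ret (nat_lit 1588))) (.ret (nat_lit 1588))) (.ret (nat_lit 1588))) (.ret (nat_lit 1588))) (.ret (nat_lit 1588))) (.ret (nat_lit 0))) (.f0 (nat_lit 0x3ffec00000000000000000) (nat_lit 0xfc001000000000000000000) (nat_lit 4) (.v1 w9 (nat_lit 0x3e0000000000000000) (nat_lit 0x10000000000000000)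
  (nat_lit 4) (.ret (nat_lit 0)) (.ret (nat_lit 1588))) (.ret (nat_lit 0)))) (.ret (nat_lit 1636))) (.ret (nat_lit 1700))) (.ret (nat_lit 0)))) (.v1 w6 (nat_lit 0x3e0000000000000000) (nat_lit 0x10000000000000000) (nat_lit 4) (.v1 w4 (nat_lit 0x20000000000000000) (nat_lit 0x3d0000000000000000) (nat_lit 4) (.ret (nat_lit 0)) (.v1 w25 (nat_lit 0x20000000000000000) (nat_lit 0x3d0000000000000000) (nat_lit 4) (.ret (nat_lit 0)) (.f1 w27 (nat_lit 0x3ffc000000000000000000) (nat_lit 0xfc003c00000000000000000) (nat_lit 4) (.f0 (nat_lit 0xfc000800000000000000000) (nat_lit 0x3fff400000000000000000) (nat_lit 4) (.ret (nat_lit 1460)) (.ret (nat_lit 1700))) (.ret (nat_lit 1700))))) (.v1 w25 (nat_lit 0x10000000000000000) (nat_lit 0x3e0000000000000000) (nat_lit 4) (.ret (nat_lit 1732)) (.ret (nat_lit 0))))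
noncomputable def s3647 : FP := .v1 w42 (nat_lit 0x3e0000000000000000) (nat_lit 0x10000000000000000) (nat_lit 6) s3498 (.ret (nat_lit 0))
noncomputable def s3649 : FP := .f1 w42 (nat_lit 0x3ffc000000000000000000) (nat_lit 0xfc003c00000000000000000) (nat_lit 7) (.f0 (nat_lit 0xfc000400000000000000000) (nat_lit 0x3fff800000000000000000) (nat_lit 7) (.f0 (nat_lit 0x3fff400000000000000000) (nat_lit 0xfc000800000000000000000) (nat_lit 7) (.v1 w6 (nat_lit 0x3e0000000000000000) (nat_lit 0x10000000000000000) (nat_lit 6) (.v1 w4 (nat_lit 0x3e0000000000000000)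
  (nat_lit 0x10000000000000000) (nat_lit 6) s3514 (.v0 (nat_lit 0x3d0000000000000000) (nat_lit 0x20000000000000000) (nat_lit 4) (.f0 (nat_lit 0x3ffc000000000000000000) (nat_lit 0xfc003c00000000000000000) (nat_lit 4) (.f0 (nat_lit 0x3fff400000000000000000) (nat_lit 0xfc000800000000000000000) (nat_lit 4) (.v1 w9 (nat_lit 0x20000000000000000) (nat_lit 0x3d0000000000000000) (nat_lit 4) (.ret (nat_lit 1524))
  (.ret (nat_lit 1540))) (.f0 (nat_lit 0x3ffec00000000000000000) (nat_lit 0xfc001000000000000000000) (nat_lit 4) (.v1 w9 (nat_lit 0x3e0000000000000000) (nat_lit 0x10000000000000000) (nat_lit 4) (.v1 w4 (nat_lit 0x3d0000000000000000) (nat_lit 0x20000000000000000) (nat_lit 4) (.ret (nat_lit 1540)) (.ret (nat_lit 1524))) (.v0 (nat_lit 0x3d0000000000000000) (nat_lit 0x20000000000000000) (nat_lit 4) (.ret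
  (nat_lit 1556)) (.ret (nat_lit 1524)))) (.v1 w9 (nat_lit 0x3e0000000000000000) (nat_lit 0x10000000000000000) (nat_lit 4) (.ret (nat_lit 1540)) (.f1 w23 (nat_lit 0x3ffc000000000000000000) (nat_lit 0xfc003c00000000000000000) (nat_lit 4) (.f0 (nat_lit 0xfc000800000000000000000) (nat_lit 0x3fff400000000000000000) (nat_lit 4) (.f0 (nat_lit 0xfc001000000000000000000) (nat_lit 0x3ffec00000000000000000)
  (nat_lit 4) (.ret (nat_lit 1524)) (.ret (nat_lit 1556))) (.ret (nat_lit 1556))) (.ret (nat_lit 1556)))))) (.ret (nat_lit 1524))) (.ret (nat_lit 0)))) s3563) s3632) (.v1 w6 (nat_lit 0x3e0000000000000000) (nat_lit 0x10000000000000000) (nat_lit 4) (.v1 w4 (nat_lit 0x3e0000000000000000) (nat_lit 0x10000000000000000) (nat_lit 4) (.v1 w2 (nat_lit 0x40000000000000000) (nat_lit 0x3b0000000000000000) (nat_lit 4)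
  (.v0 (nat_lit 0x80000000000000000) (nat_lit 0x370000000000000000) (nat_lit 4) (.ret (nat_lit 0)) (.ret (nat_lit 1060))) (.ret (nat_lit 1060))) (.ret (nat_lit 1460))) (.ret (nat_lit 1476)))) (.f0 (nat_lit 0xfe000000000000000000000) (nat_lit 0x1fffc00000000000000000) (nat_lit 6) s3647 (.v1 w6 (nat_lit 0x3e0000000000000000) (nat_lit 0x10000000000000000) (nat_lit 4) (.v1 w4 (nat_lit 0x3e0000000000000000)
  (nat_lit 0x10000000000000000) (nat_lit 4) (.v1 w4 (nat_lit 0x3e0000000000000000) (nat_lit 0x10000000000000000) (nat_lit 4) (.v1 w4 (nat_lit 0x3e0000000000000000) (nat_lit 0x10000000000000000) (nat_lit 4) (.v1 w4 (nat_lit 0x20000000000000000) (nat_lit 0x3d0000000000000000) (nat_lit 4) (.ret (nat_lit 0)) (.ret (nat_lit 1492))) (.v1 w9 (nat_lit 0x3d0000000000000000) (nat_lit 0x20000000000000000) (nat_lit 4)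
  (.f0 (nat_lit 0x3fff400000000000000000) (nat_lit 0xfc000800000000000000000) (nat_lit 4) (.f1 w19 (nat_lit 0x1fdc000000000000000000) (nat_lit 0xfe023c00000000000000000) (nat_lit 4) (.ret (nat_lit 1540)) (.f1 w153 (nat_lit 0x1fdc000000000000000000) (nat_lit 0xfe023c00000000000000000) (nat_lit 4) (.ret (nat_lit 1540)) (.ret (nat_lit 0)))) (.ret (nat_lit 0))) (.ret (nat_lit 0)))) (.v1 w25 (nat_lit 0x3e0000000000000000) (nat_lit 0x10000000000000000) (nat_lit 4) (.v1 w36 (nat_lit 0x3d0000000000000000) (nat_lit 0x20000000000000000) (nat_lit 4) (.f0 (nat_lit 0x3fff400000000000000000) (nat_lit 0xfc000800000000000000000) (nat_lit 4) (.ret (nat_lit 1620)) (.ret (nat_lit 0))) (.ret (nat_lit 0))) (.ret (nat_lit 0)))) (.ret (nat_lit 0))) (.ret (nat_lit 0))))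
noncomputable def s3656 : FP := .f1 w4 (nat_lit 0x1fdc000000000000000000) (nat_lit 0xfe023c00000000000000000) (nat_lit 7) (.ret (nat_lit 1751)) (.ret (nat_lit 1750))
noncomputable def s3660 : FP := .f1 w4 (nat_lit 0x1fdc000000000000000000) (nat_lit 0xfe023c00000000000000000) (nat_lit 7) s3656 (.ret (nat_lit 1750))
noncomputable def s3663 : FP := .f1 w18 (nat_lit 0xfe023c00000000000000000) (nat_lit 0x1fdc000000000000000000) (nat_lit 7) (.ret (nat_lit 1750)) s3660
noncomputable def s3671 : FP := .v1 w16 (nat_lit 0x3d0000000000000000) (nat_lit 0x20000000000000000) (nat_lit 7) (.f1 w1 (nat_lit 0x3fff400000000000000000) (nat_lit 0xfc000800000000000000000) (nat_lit 7) (.v1 w9 (nat_lit 0x3d0000000000000000) (nat_lit 0x20000000000000000) (nat_lit 7) (.f0 (nat_lit 0x3fff400000000000000000) (nat_lit 0xfc000800000000000000000) (nat_lit 7) (.v1 w14 (nat_lit 0x3e0000000000000000)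
  (nat_lit 0x10000000000000000) (nat_lit 7) (.f1 w27 (nat_lit 0x1fdc000000000000000000) (nat_lit 0xfe023c00000000000000000) (nat_lit 7) (.f1 w18 (nat_lit 0xfe023c00000000000000000) (nat_lit 0x1fdc000000000000000000) (nat_lit 7) (.f0 (nat_lit 0x2fffc00000000000000000) (nat_lit 0xfd000000000000000000000) (nat_lit 7) (.f1 w4 (nat_lit 0xfe023c00000000000000000) (nat_lit 0x1fdc000000000000000000) (nat_lit 7)
  (.f0 (nat_lit 0x2fffc00000000000000000) (nat_lit 0xfd000000000000000000000) (nat_lit 7) s3656 (.ret (nat_lit 1750))) s3656) s3660) (.f1 w4 (nat_lit 0x1fdc000000000000000000) (nat_lit 0xfe023c00000000000000000) (nat_lit 7) (.f1 w4 (nat_lit 0xfe023c00000000000000000) (nat_lit 0x1fdc000000000000000000) (nat_lit 7) (.f0 (nat_lit 0xfd000000000000000000000) (nat_lit 0x2fffc00000000000000000) (nat_lit 7)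
  (.f0 (nat_lit 0x3dabc00000000000000000) (nat_lit 0xfc254000000000000000000) (nat_lit 7) (.ret (nat_lit 1751)) (.ret (nat_lit 1750))) (.ret (nat_lit 1751))) (.ret (nat_lit 1751))) s3656)) (.f0 (nat_lit 0xfd000000000000000000000) (nat_lit 0x2fffc00000000000000000) (nat_lit 7) (.f0 (nat_lit 0xfc254000000000000000000) (nat_lit 0x3dabc00000000000000000) (nat_lit 7) (.ret (nat_lit 1750)) s3663) s3663)) (.ret (nat_lit 0))) (.ret (nat_lit 1750))) (.ret (nat_lit 1750))) (.ret (nat_lit 1750))) (.ret (nat_lit 1750))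
noncomputable def s3674 : FP := .f0 (nat_lit 0xfc254000000000000000000) (nat_lit 0x3dabc00000000000000000) (nat_lit 6) (.ret (nat_lit 1748)) (.ret (nat_lit 1750))
noncomputable def s3676 : FP := .f1 w4 (nat_lit 0x1fdc000000000000000000) (nat_lit 0xfe023c00000000000000000) (nat_lit 6) (.ret (nat_lit 1750)) (.ret (nat_lit 1748))
noncomputable def s3686 : FP := .v1 w274 (nat_lit 0x3e0000000000000000) (nat_lit 0x10000000000000000) (nat_lit 7) s3671 (.ret (nat_lit 1750))
noncomputable def s3703 : FP := .f1 w1 (nat_lit 0x3fff400000000000000000) (nat_lit 0xfc000800000000000000000) (nat_lit 7) (.v1 w9 (nat_lit 0x3e0000000000000000) (nat_lit 0x10000000000000000) (nat_lit 7) (.v1 w4 (nat_lit 0x3e0000000000000000) (nat_lit 0x10000000000000000) (nat_lit 7) (.f1 w21 (nat_lit 0xfd000000000000000000000) (nat_lit 0x2fffc00000000000000000) (nat_lit 7) (.f1 w4 (nat_lit 0xfd000000000000000000000)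
  (nat_lit 0x2fffc00000000000000000) (nat_lit 7) (.f1 w37 (nat_lit 0x1fdc000000000000000000) (nat_lit 0xfe023c00000000000000000) (nat_lit 7) (.f1 w4 (nat_lit 0x1fdc000000000000000000) (nat_lit 0xfe023c00000000000000000) (nat_lit 7) (.f1 w4 (nat_lit 0x1fdc000000000000000000) (nat_lit 0xfe023c00000000000000000) (nat_lit 7) (.f1 w4 (nat_lit 0x1fdc000000000000000000) (nat_lit 0xfe023c00000000000000000)
  (nat_lit 7) (.v1 w273 (nat_lit 0x3e0000000000000000) (nat_lit 0x10000000000000000) (nat_lit 7) (.v1 w16 (nat_lit 0x3e0000000000000000) (nat_lit 0x10000000000000000) (nat_lit 7) s3671 (.ret (nat_lit 1750))) (.ret (nat_lit 1750))) s3674) s3676) (.f1 w24 (nat_lit 0x1fdc000000000000000000) (nat_lit 0xfe023c00000000000000000) (nat_lit 6) (.ret (nat_lit 1750)) (.ret (nat_lit 1748)))) (.f1 w25 (nat_lit 0x1fdc000000000000000000)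
  (nat_lit 0xfe023c00000000000000000) (nat_lit 6) (.ret (nat_lit 1750)) (.ret (nat_lit 1748)))) (.ret (nat_lit 1748))) (.ret (nat_lit 1748))) (.ret (nat_lit 0))) (.v0 (nat_lit 0x3d0000000000000000) (nat_lit 0x20000000000000000) (nat_lit 7) (.ret (nat_lit 1701)) (.f1 w23 (nat_lit 0x3fff800000000000000000) (nat_lit 0xfc000400000000000000000) (nat_lit 7) (.f1 w18 (nat_lit 0xfd000000000000000000000) (nat_lit 0x2fffc00000000000000000)
  (nat_lit 7) (.f1 w17 (nat_lit 0x1fdc000000000000000000) (nat_lit 0xfe023c00000000000000000) (nat_lit 7) (.f1 w4 (nat_lit 0x1fdc000000000000000000) (nat_lit 0xfe023c00000000000000000) (nat_lit 7) (.f1 w24 (nat_lit 0x1fdc000000000000000000) (nat_lit 0xfe023c00000000000000000) (nat_lit 7) s3686 s3674) (.ret (nat_lit 1750))) (.ret (nat_lit 1750))) (.ret (nat_lit 1748))) (.f1 w18 (nat_lit 0xfd000000000000000000000)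
  (nat_lit 0x2fffc00000000000000000) (nat_lit 7) (.f1 w17 (nat_lit 0x1fdc000000000000000000) (nat_lit 0xfe023c00000000000000000) (nat_lit 7) (.f1 w24 (nat_lit 0x1fdc000000000000000000) (nat_lit 0xfe023c00000000000000000) (nat_lit 7) (.f1 w4 (nat_lit 0x1fdc000000000000000000) (nat_lit 0xfe023c00000000000000000) (nat_lit 7) s3686 s3674) s3676) (.ret (nat_lit 1750))) (.ret (nat_lit 1748)))))) (.f0 (nat_lit 0x3ffec00000000000000000) (nat_lit 0xfc001000000000000000000) (nat_lit 5) (.v1 w9 (nat_lit 0x3e0000000000000000) (nat_lit 0x10000000000000000) (nat_lit 5) (.ret (nat_lit 1700)) (.ret (nat_lit 1733))) (.v1 w9 (nat_lit 0x3e0000000000000000) (nat_lit 0x10000000000000000) (nat_lit 4) (.ret (nat_lit 1700)) (.ret (nat_lit 1764))))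
noncomputable def s3723 : FP := .f0 (nat_lit 0xfc254000000000000000000) (nat_lit 0x3dabc00000000000000000) (nat_lit 5) (.ret (nat_lit 1059)) (.ret (nat_lit 1061))
noncomputable def s3724 : FP := .f1 w4 (nat_lit 0xfe023c00000000000000000) (nat_lit 0x1fdc000000000000000000) (nat_lit 6) s3723 (.ret (nat_lit 1062))
noncomputable def s3725 : FP := .f0 (nat_lit 0xfc254000000000000000000) (nat_lit 0x3dabc00000000000000000) (nat_lit 4) (.ret (nat_lit 1059)) (.ret (nat_lit 1060))
noncomputable def s3726 : FP := .f1 w4 (nat_lit 0xfe023c00000000000000000) (nat_lit 0x1fdc000000000000000000) (nat_lit 5) s3725 (.ret (nat_lit 1061))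
noncomputable def s3728 : FP := .f0 (nat_lit 0xfc088000000000000000000) (nat_lit 0x3f77c00000000000000000) (nat_lit 3) (.ret (nat_lit 1058)) (.ret (nat_lit 1059))
noncomputable def s3734 : FP := .f1 w4 (nat_lit 0xfc254000000000000000000) (nat_lit 0x3dabc00000000000000000) (nat_lit 4) (.ret (nat_lit 1059)) (.ret (nat_lit 1060))
noncomputable def s3735 : FP := .f1 w4 (nat_lit 0xfe023c00000000000000000) (nat_lit 0x1fdc000000000000000000) (nat_lit 4) (.ret (nat_lit 1059)) (.ret (nat_lit 1060))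
noncomputable def s3736 : FP := .f0 (nat_lit 0xfc254000000000000000000) (nat_lit 0x3dabc00000000000000000) (nat_lit 4) (.ret (nat_lit 1059)) s3735
noncomputable def s3744 : FP := .f1 w4 (nat_lit 0xfe023c00000000000000000) (nat_lit 0x1fdc000000000000000000) (nat_lit 6) (.f0 (nat_lit 0xfc254000000000000000000) (nat_lit 0x3dabc00000000000000000) (nat_lit 6) (.f0 (nat_lit 0xfc088000000000000000000) (nat_lit 0x3f77c00000000000000000) (nat_lit 4) (.f0 (nat_lit 0xfd000000000000000000000) (nat_lit 0x2fffc00000000000000000) (nat_lit 4) (.f1 w18 (nat_lit 0x1fdc000000000000000000)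
  (nat_lit 0xfe023c00000000000000000) (nat_lit 4) s3734 (.f0 (nat_lit 0xfc254000000000000000000) (nat_lit 0x3dabc00000000000000000) (nat_lit 4) (.ret (nat_lit 1059)) (.f1 w4 (nat_lit 0xfe023c00000000000000000) (nat_lit 0x1fdc000000000000000000) (nat_lit 4) s3728 (.ret (nat_lit 1060))))) (.ret (nat_lit 1059))) (.f1 w18 (nat_lit 0x1fdc000000000000000000) (nat_lit 0xfe023c00000000000000000) (nat_lit 4) s3734 s3736))
  (.f1 w18 (nat_lit 0x1fdc000000000000000000) (nat_lit 0xfe023c00000000000000000) (nat_lit 6) s3724 (.f0 (nat_lit 0xfc254000000000000000000) (nat_lit 0x3dabc00000000000000000) (nat_lit 5) (.f0 (nat_lit 0xfc088000000000000000000) (nat_lit 0x3f77c00000000000000000) (nat_lit 4) (.f1 w4 (nat_lit 0xfe023c00000000000000000) (nat_lit 0x1fdc000000000000000000) (nat_lit 4) (.f0 (nat_lit 0xfc254000000000000000000) (nat_lit 0x3dabc00000000000000000) (nat_lit 4) s3728 (.ret (nat_lit 1060))) (.ret (nat_lit 1059))) (.ret (nat_lit 1059))) s3726))) (.ret (nat_lit 1062))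
noncomputable def s3745 : FP := .f0 (nat_lit 0xfc254000000000000000000) (nat_lit 0x3dabc00000000000000000) (nat_lit 6) (.ret (nat_lit 1059)) (.ret (nat_lit 1062))
noncomputable def s3746 : FP := .f1 w4 (nat_lit 0xfe023c00000000000000000) (nat_lit 0x1fdc000000000000000000) (nat_lit 6) s3745 (.ret (nat_lit 1062))
noncomputable def s3751 : FP := .f1 w18 (nat_lit 0x1fdc000000000000000000) (nat_lit 0xfe023c00000000000000000) (nat_lit 5) s3726 (.ret (nat_lit 1059))
noncomputable def s3752 : FP := .f0 (nat_lit 0xfc254000000000000000000) (nat_lit 0x3dabc00000000000000000) (nat_lit 3) s3728 (.ret (nat_lit 1059))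
noncomputable def s3753 : FP := .f1 w4 (nat_lit 0xfe023c00000000000000000) (nat_lit 0x1fdc000000000000000000) (nat_lit 4) s3752 (.ret (nat_lit 1060))
noncomputable def s3754 : FP := .f1 w18 (nat_lit 0x1fdc000000000000000000) (nat_lit 0xfe023c00000000000000000) (nat_lit 4) s3753 s3752
noncomputable def s3758 : FP := .f1 w4 (nat_lit 0xfe023c00000000000000000) (nat_lit 0x1fdc000000000000000000) (nat_lit 6) (.ret (nat_lit 1059)) (.ret (nat_lit 1062))
noncomputable def s3759 : FP := .f1 w18 (nat_lit 0xfe023c00000000000000000) (nat_lit 0x1fdc000000000000000000) (nat_lit 6) (.ret (nat_lit 1059)) s3758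
noncomputable def s3760 : FP := .f1 w4 (nat_lit 0xfe023c00000000000000000) (nat_lit 0x1fdc000000000000000000) (nat_lit 6) (.ret (nat_lit 1059)) s3759
noncomputable def s3761 : FP := .f0 (nat_lit 0xfc254000000000000000000) (nat_lit 0x3dabc00000000000000000) (nat_lit 6) s3760 (.f1 w4 (nat_lit 0xfe023c00000000000000000) (nat_lit 0x1fdc000000000000000000) (nat_lit 6) (.f0 (nat_lit 0xfc254000000000000000000) (nat_lit 0x3dabc00000000000000000) (nat_lit 5) (.f0 (nat_lit 0xfd000000000000000000000) (nat_lit 0x2fffc00000000000000000) (nat_lit 4) s3754 (.ret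
  (nat_lit 1059))) s3751) (.f1 w18 (nat_lit 0xfe023c00000000000000000) (nat_lit 0x1fdc000000000000000000) (nat_lit 6) (.f0 (nat_lit 0xfc254000000000000000000) (nat_lit 0x3dabc00000000000000000) (nat_lit 6) (.f1 w4 (nat_lit 0xfe023c00000000000000000) (nat_lit 0x1fdc000000000000000000) (nat_lit 6) (.f0 (nat_lit 0xfc254000000000000000000) (nat_lit 0x3dabc00000000000000000) (nat_lit 6) s3728 (.ret (nat_lit 1062))) (.ret (nat_lit 1059))) s3746) s3746))
noncomputable def s3763 : FP := .f1 w4 (nat_lit 0xfe023c00000000000000000) (nat_lit 0x1fdc000000000000000000) (nat_lit 3) s3752 (.ret (nat_lit 1059))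
noncomputable def s3772 : FP := .f0 (nat_lit 0x3dabc00000000000000000) (nat_lit 0xfc254000000000000000000) (nat_lit 3) (.ret (nat_lit 1059)) (.ret (nat_lit 1058))
noncomputable def s3793 : FP := .f0 (nat_lit 0xfc254000000000000000000) (nat_lit 0x3dabc00000000000000000) (nat_lit 7) (.ret (nat_lit 1062)) (.ret (nat_lit 1063))
noncomputable def s3794 : FP := .f1 w4 (nat_lit 0xfe023c00000000000000000) (nat_lit 0x1fdc000000000000000000) (nat_lit 8) s3793 (.ret (nat_lit 1064))
noncomputable def s3795 : FP := .f0 (nat_lit 0xfd000000000000000000000) (nat_lit 0x2fffc00000000000000000) (nat_lit 6) (.ret (nat_lit 1062)) (.ret (nat_lit 1060))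
noncomputable def s3799 : FP := .f0 (nat_lit 0xfc088000000000000000000) (nat_lit 0x3f77c00000000000000000) (nat_lit 6) (.ret (nat_lit 1059)) (.ret (nat_lit 1062))
noncomputable def s3801 : FP := .f1 w4 (nat_lit 0xfe023c00000000000000000) (nat_lit 0x1fdc000000000000000000) (nat_lit 6) (.f0 (nat_lit 0xfc254000000000000000000) (nat_lit 0x3dabc00000000000000000) (nat_lit 6) s3799 (.ret (nat_lit 1060))) (.ret (nat_lit 1062))
noncomputable def s3804 : FP := .f1 w18 (nat_lit 0xfe023c00000000000000000) (nat_lit 0x1fdc000000000000000000) (nat_lit 8) (.f0 (nat_lit 0xfc254000000000000000000) (nat_lit 0x3dabc00000000000000000) (nat_lit 7) (.f0 (nat_lit 0x2fffc00000000000000000) (nat_lit 0xfd000000000000000000000) (nat_lit 6) s3801 (.ret (nat_lit 1062))) (.f1 w4 (nat_lit 0xfe023c00000000000000000) (nat_lit 0x1fdc000000000000000000) (nat_lit 7) (.f0 (nat_lit 0xfc254000000000000000000) (nat_lit 0x3dabc00000000000000000) (nat_lit 7) (.f0 (nat_lit 0xfc088000000000000000000)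 (nat_lit 0x3f77c00000000000000000) (nat_lit 7) s3795 (.ret (nat_lit 1063))) (.ret (nat_lit 1063))) (.ret (nat_lit 1063)))) s3794
noncomputable def s3805 : FP := .f1 w4 (nat_lit 0xfe023c00000000000000000) (nat_lit 0x1fdc000000000000000000) (nat_lit 7) (.ret (nat_lit 1062)) (.ret (nat_lit 1063))
noncomputable def s3808 : FP := .f0 (nat_lit 0xfc254000000000000000000) (nat_lit 0x3dabc00000000000000000) (nat_lit 6) (.f0 (nat_lit 0xfc088000000000000000000) (nat_lit 0x3f77c00000000000000000) (nat_lit 4) (.f0 (nat_lit 0x2fffc00000000000000000) (nat_lit 0xfd000000000000000000000) (nat_lit 4) (.ret (nat_lit 1060)) (.ret (nat_lit 1059))) (.ret (nat_lit 1060))) (.ret (nat_lit 1062))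
noncomputable def s3809 : FP := .f1 w4 (nat_lit 0x1fdc000000000000000000) (nat_lit 0xfe023c00000000000000000) (nat_lit 6) (.ret (nat_lit 1062)) s3808
noncomputable def s3817 : FP := .f0 (nat_lit 0xfc254000000000000000000) (nat_lit 0x3dabc00000000000000000) (nat_lit 7) (.f0 (nat_lit 0xfc088000000000000000000) (nat_lit 0x3f77c00000000000000000) (nat_lit 6) (.f1 w18 (nat_lit 0xfe023c00000000000000000) (nat_lit 0x1fdc000000000000000000) (nat_lit 6) (.f0 (nat_lit 0xfc254000000000000000000) (nat_lit 0x3dabc00000000000000000) (nat_lit 5) s3735 s3726) (.ret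
  (nat_lit 1062))) (.ret (nat_lit 1062))) (.f1 w18 (nat_lit 0xfe023c00000000000000000) (nat_lit 0x1fdc000000000000000000) (nat_lit 7) (.f0 (nat_lit 0xfc254000000000000000000) (nat_lit 0x3dabc00000000000000000) (nat_lit 6) (.f0 (nat_lit 0xfc088000000000000000000) (nat_lit 0x3f77c00000000000000000) (nat_lit 6) (.f0 (nat_lit 0x2fffc00000000000000000) (nat_lit 0xfd000000000000000000000) (nat_lit 6) s3734 s3758) s3421) s3809) s3805)
noncomputable def s3821 : FP := .f1 w18 (nat_lit 0x1fdc000000000000000000) (nat_lit 0xfe023c00000000000000000) (nat_lit 5) s3726 s3736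
noncomputable def s3824 : FP := .f1 w4 (nat_lit 0xfd000000000000000000000) (nat_lit 0x2fffc00000000000000000) (nat_lit 6) (.ret (nat_lit 1062)) (.ret (nat_lit 1061))
noncomputable def s3829 : FP := .f1 w4 (nat_lit 0xfe023c00000000000000000) (nat_lit 0x1fdc000000000000000000) (nat_lit 6) (.ret (nat_lit 1059)) (.f1 w18 (nat_lit 0x1fdc000000000000000000) (nat_lit 0xfe023c00000000000000000) (nat_lit 6) s3758 s3736)
noncomputable def s3831 : FP := .f0 (nat_lit 0xfc254000000000000000000) (nat_lit 0x3dabc00000000000000000) (nat_lit 6) (.f0 (nat_lit 0xfc088000000000000000000) (nat_lit 0x3f77c00000000000000000) (nat_lit 6) (.ret (nat_lit 1060)) (.ret (nat_lit 1062))) (.ret (nat_lit 1062))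
noncomputable def s3832 : FP := .f1 w4 (nat_lit 0xfe023c00000000000000000) (nat_lit 0x1fdc000000000000000000) (nat_lit 6) s3831 (.ret (nat_lit 1062))
noncomputable def s3833 : FP := .f1 w21 (nat_lit 0xfc088000000000000000000) (nat_lit 0x3f77c00000000000000000) (nat_lit 6) (.ret (nat_lit 1060)) (.ret (nat_lit 1062))
noncomputable def s3837 : FP := .f1 w65 (nat_lit 0xfe023c00000000000000000) (nat_lit 0x1fdc000000000000000000) (nat_lit 4) (.ret (nat_lit 1059)) (.ret (nat_lit 1060))
noncomputable def s3838 : FP := .f0 (nat_lit 0xfc254000000000000000000) (nat_lit 0x3dabc00000000000000000) (nat_lit 6) s3837 s3759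
noncomputable def s3839 : FP := .f1 w4 (nat_lit 0xfe023c00000000000000000) (nat_lit 0x1fdc000000000000000000) (nat_lit 6) s3838 (.f1 w18 (nat_lit 0x1fdc000000000000000000) (nat_lit 0xfe023c00000000000000000) (nat_lit 6) s3832 (.f0 (nat_lit 0xfc254000000000000000000) (nat_lit 0x3dabc00000000000000000) (nat_lit 6) (.f1 w4 (nat_lit 0xfe023c00000000000000000) (nat_lit 0x1fdc000000000000000000) (nat_lit 6) (.ret (nat_lit 1059)) s3833) s3758))
noncomputable def s3847 : FP := .f0 (nat_lit 0xfc254000000000000000000) (nat_lit 0x3dabc00000000000000000) (nat_lit 6) (.ret (nat_lit 1059)) s3758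
noncomputable def s3852 : FP := .f1 w4 (nat_lit 0xfe023c00000000000000000) (nat_lit 0x1fdc000000000000000000) (nat_lit 6) s3725 (.ret (nat_lit 1062))
noncomputable def s3858 : FP := .f1 w30 (nat_lit 0xfe023c00000000000000000) (nat_lit 0x1fdc000000000000000000) (nat_lit 4) (.ret (nat_lit 1059)) s3735
noncomputable def s3865 : FP := .f1 w18 (nat_lit 0x1fdc000000000000000000) (nat_lit 0xfe023c00000000000000000) (nat_lit 6) s3852 (.ret (nat_lit 1059))
noncomputable def s3871 : FP := .f1 w4 (nat_lit 0xfe023c00000000000000000) (nat_lit 0x1fdc000000000000000000) (nat_lit 6) (.ret (nat_lit 1059)) s3865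
noncomputable def s3878 : FP := .f1 w4 (nat_lit 0xfe023c00000000000000000) (nat_lit 0x1fdc000000000000000000) (nat_lit 5) (.ret (nat_lit 1059)) (.ret (nat_lit 1061))
noncomputable def s3882 : FP := .f1 w18 (nat_lit 0x1fdc000000000000000000) (nat_lit 0xfe023c00000000000000000) (nat_lit 5) s3878 (.ret (nat_lit 1059))
noncomputable def s3891 : FP := .f0 (nat_lit 0xfc254000000000000000000) (nat_lit 0x3dabc00000000000000000) (nat_lit 7) (.f0 (nat_lit 0xfc088000000000000000000) (nat_lit 0x3f77c00000000000000000) (nat_lit 7) (.f0 (nat_lit 0xfd000000000000000000000) (nat_lit 0x2fffc00000000000000000) (nat_lit 6) (.f1 w4 (nat_lit 0xfe023c00000000000000000) (nat_lit 0x1fdc000000000000000000) (nat_lit 6) s3871 s3839) (.f1 w4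
  (nat_lit 0x1fdc000000000000000000) (nat_lit 0xfe023c00000000000000000) (nat_lit 6) (.f1 w4 (nat_lit 0x1fdc000000000000000000) (nat_lit 0xfe023c00000000000000000) (nat_lit 6) (.f1 w18 (nat_lit 0x1fdc000000000000000000) (nat_lit 0xfe023c00000000000000000) (nat_lit 6) (.f1 w4 (nat_lit 0xfe023c00000000000000000) (nat_lit 0x1fdc000000000000000000) (nat_lit 6) (.f0 (nat_lit 0xfc254000000000000000000) (nat_lit 0x3dabc00000000000000000)
  (nat_lit 6) (.f0 (nat_lit 0xfc088000000000000000000) (nat_lit 0x3f77c00000000000000000) (nat_lit 5) (.ret (nat_lit 1060)) (.ret (nat_lit 1061))) (.ret (nat_lit 1062))) (.ret (nat_lit 1062))) (.f0 (nat_lit 0xfc254000000000000000000) (nat_lit 0x3dabc00000000000000000) (nat_lit 5) (.f0 (nat_lit 0xfc088000000000000000000) (nat_lit 0x3f77c00000000000000000) (nat_lit 5) s3735 s3878) s3726)) (.f0 (nat_lit 0xfc254000000000000000000)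
  (nat_lit 0x3dabc00000000000000000) (nat_lit 5) s3882 s3821)) (.f0 (nat_lit 0xfc254000000000000000000) (nat_lit 0x3dabc00000000000000000) (nat_lit 4) (.ret (nat_lit 1059)) (.f1 w118 (nat_lit 0x1fdc000000000000000000) (nat_lit 0xfe023c00000000000000000) (nat_lit 4) (.ret (nat_lit 1060)) s3725)))) (.f1 w4 (nat_lit 0xfe023c00000000000000000) (nat_lit 0x1fdc000000000000000000) (nat_lit 7) (.f0 (nat_lit 0xfc254000000000000000000)
  (nat_lit 0x3dabc00000000000000000) (nat_lit 7) (.f0 (nat_lit 0xfd000000000000000000000) (nat_lit 0x2fffc00000000000000000) (nat_lit 6) s3760 s3871) (.f1 w4 (nat_lit 0xfe023c00000000000000000) (nat_lit 0x1fdc000000000000000000) (nat_lit 7) s3837 (.f1 w18 (nat_lit 0xfe023c00000000000000000) (nat_lit 0x1fdc000000000000000000) (nat_lit 7) s3735 (.f1 w4 (nat_lit 0xfe023c00000000000000000) (nat_lit 0x1fdc000000000000000000)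
  (nat_lit 7) s3745 (.ret (nat_lit 1063)))))) (.f1 w4 (nat_lit 0xfe023c00000000000000000) (nat_lit 0x1fdc000000000000000000) (nat_lit 6) (.f0 (nat_lit 0xfc254000000000000000000) (nat_lit 0x3dabc00000000000000000) (nat_lit 6) s3751 s3865) (.f1 w18 (nat_lit 0x1fdc000000000000000000) (nat_lit 0xfe023c00000000000000000) (nat_lit 6) s3824 (.f0 (nat_lit 0xfd000000000000000000000) (nat_lit 0x2fffc00000000000000000)
  (nat_lit 6) s3852 (.ret (nat_lit 1059))))))) (.f1 w4 (nat_lit 0xfe023c00000000000000000) (nat_lit 0x1fdc000000000000000000) (nat_lit 7) (.f0 (nat_lit 0xfc254000000000000000000) (nat_lit 0x3dabc00000000000000000) (nat_lit 7) (.f0 (nat_lit 0xfc088000000000000000000) (nat_lit 0x3f77c00000000000000000) (nat_lit 6) (.f0 (nat_lit 0xfd000000000000000000000) (nat_lit 0x2fffc00000000000000000) (nat_lit 6) s3829 s3858)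
  (.f1 w4 (nat_lit 0xfe023c00000000000000000) (nat_lit 0x1fdc000000000000000000) (nat_lit 6) s3837 (.f1 w18 (nat_lit 0x1fdc000000000000000000) (nat_lit 0xfe023c00000000000000000) (nat_lit 6) s3421 (.ret (nat_lit 1059))))) (.f1 w4 (nat_lit 0xfe023c00000000000000000) (nat_lit 0x1fdc000000000000000000) (nat_lit 7) s3838 (.f1 w18 (nat_lit 0xfe023c00000000000000000) (nat_lit 0x1fdc000000000000000000) (nat_lit 7)
  (.f0 (nat_lit 0xfc254000000000000000000) (nat_lit 0x3dabc00000000000000000) (nat_lit 6) (.ret (nat_lit 1059)) s3852) (.f1 w4 (nat_lit 0xfe023c00000000000000000) (nat_lit 0x1fdc000000000000000000) (nat_lit 7) s3808 (.ret (nat_lit 1063)))))) (.f1 w4 (nat_lit 0xfe023c00000000000000000) (nat_lit 0x1fdc000000000000000000) (nat_lit 7) (.f0 (nat_lit 0xfc254000000000000000000) (nat_lit 0x3dabc00000000000000000)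
  (nat_lit 6) s3821 (.f1 w18 (nat_lit 0x1fdc000000000000000000) (nat_lit 0xfe023c00000000000000000) (nat_lit 6) s3809 s3847)) (.f1 w18 (nat_lit 0xfe023c00000000000000000) (nat_lit 0x1fdc000000000000000000) (nat_lit 7) (.f0 (nat_lit 0xfc254000000000000000000) (nat_lit 0x3dabc00000000000000000) (nat_lit 6) (.f0 (nat_lit 0x2fffc00000000000000000) (nat_lit 0xfd000000000000000000000) (nat_lit 6) (.ret (nat_lit 1060)) s3758) s3832) s3805)))
noncomputable def s3899 : FP := .f0 (nat_lit 0x2fffc00000000000000000) (nat_lit 0xfd000000000000000000000) (nat_lit 6) s3421 (.ret (nat_lit 1062))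
noncomputable def s3902 : FP := .f0 (nat_lit 0xfc254000000000000000000) (nat_lit 0x3dabc00000000000000000) (nat_lit 6) (.ret (nat_lit 1060)) (.ret (nat_lit 1062))
noncomputable def s3903 : FP := .f1 w4 (nat_lit 0xfe023c00000000000000000) (nat_lit 0x1fdc000000000000000000) (nat_lit 6) s3902 (.ret (nat_lit 1062))
noncomputable def s3904 : FP := .f0 (nat_lit 0xfd000000000000000000000) (nat_lit 0x2fffc00000000000000000) (nat_lit 6) s3421 (.ret (nat_lit 1060))
noncomputable def s3907 : FP := .f1 w4 (nat_lit 0xfe023c00000000000000000) (nat_lit 0x1fdc000000000000000000) (nat_lit 5) (.ret (nat_lit 1060)) (.ret (nat_lit 1061))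
noncomputable def s3919 : FP := .f1 w18 (nat_lit 0x1fdc000000000000000000) (nat_lit 0xfe023c00000000000000000) (nat_lit 6) s3421 (.ret (nat_lit 1060))
noncomputable def s3921 : FP := .f1 w4 (nat_lit 0xfe023c00000000000000000) (nat_lit 0x1fdc000000000000000000) (nat_lit 7) (.f0 (nat_lit 0xfd000000000000000000000) (nat_lit 0x2fffc00000000000000000) (nat_lit 6) s3919 (.ret (nat_lit 1060))) (.f1 w18 (nat_lit 0xfe023c00000000000000000) (nat_lit 0x1fdc000000000000000000) (nat_lit 7) s3904 (.f1 w4 (nat_lit 0xfe023c00000000000000000) (nat_lit 0x1fdc000000000000000000) (nat_lit 7) s3793 (.ret (nat_lit 1063))))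
noncomputable def s3927 : FP := .f1 w4 (nat_lit 0xfe023c00000000000000000) (nat_lit 0x1fdc000000000000000000) (nat_lit 6) (.f0 (nat_lit 0xfc254000000000000000000) (nat_lit 0x3dabc00000000000000000) (nat_lit 6) (.f1 w18 (nat_lit 0x1fdc000000000000000000) (nat_lit 0xfe023c00000000000000000) (nat_lit 6) (.f1 w4 (nat_lit 0xfe023c00000000000000000) (nat_lit 0x1fdc000000000000000000) (nat_lit 6) (.ret (nat_lit 1060)) (.f1 w27 (nat_lit 0xfc088000000000000000000) (nat_lit 0x3f77c00000000000000000) (nat_lit 6) (.ret (nat_lit 1061)) (.ret (nat_lit 1062)))) (.ret (nat_lit 1060))) s3919) (.f1 w18 (nat_lit 0x1fdc000000000000000000) (nat_lit 0xfe023c00000000000000000) (nat_lit 6) s3824 s3904)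
noncomputable def s3928 : FP := .f1 w4 (nat_lit 0xfe023c00000000000000000) (nat_lit 0x1fdc000000000000000000) (nat_lit 6) (.ret (nat_lit 1060)) s3919
noncomputable def s3932 : FP := .f0 (nat_lit 0xfc254000000000000000000) (nat_lit 0x3dabc00000000000000000) (nat_lit 6) (.ret (nat_lit 1060)) s3919
noncomputable def s3933 : FP := .f1 w4 (nat_lit 0xfe023c00000000000000000) (nat_lit 0x1fdc000000000000000000) (nat_lit 6) s3932 (.f1 w18 (nat_lit 0x1fdc000000000000000000) (nat_lit 0xfe023c00000000000000000) (nat_lit 6) s3832 (.f0 (nat_lit 0xfc254000000000000000000) (nat_lit 0x3dabc00000000000000000) (nat_lit 6) (.f1 w4 (nat_lit 0xfe023c00000000000000000) (nat_lit 0x1fdc000000000000000000) (nat_lit 6) (.ret (nat_lit 1060)) s3833) s3421))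
noncomputable def s3938 : FP := .f1 w4 (nat_lit 0xfe023c00000000000000000) (nat_lit 0x1fdc000000000000000000) (nat_lit 7) s3902 (.ret (nat_lit 1063))
noncomputable def s3939 : FP := .f0 (nat_lit 0xfc254000000000000000000) (nat_lit 0x3dabc00000000000000000) (nat_lit 6) (.ret (nat_lit 1060)) s3421
noncomputable def s3961 : FP := .f1 w18 (nat_lit 0xfe023c00000000000000000) (nat_lit 0x1fdc000000000000000000) (nat_lit 8) (.f0 (nat_lit 0xfc254000000000000000000) (nat_lit 0x3dabc00000000000000000) (nat_lit 7) (.f0 (nat_lit 0xfc088000000000000000000) (nat_lit 0x3f77c00000000000000000) (nat_lit 7) (.f0 (nat_lit 0xfd000000000000000000000) (nat_lit 0x2fffc00000000000000000) (nat_lit 7) (.f1 w4 (nat_lit 0xfe023c00000000000000000)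
  (nat_lit 0x1fdc000000000000000000) (nat_lit 6) (.f0 (nat_lit 0xfc254000000000000000000) (nat_lit 0x3dabc00000000000000000) (nat_lit 6) (.f0 (nat_lit 0xfc088000000000000000000) (nat_lit 0x3f77c00000000000000000) (nat_lit 6) (.ret (nat_lit 1060)) s3928) s3928) s3933) (.f1 w4 (nat_lit 0xfe023c00000000000000000) (nat_lit 0x1fdc000000000000000000) (nat_lit 7) s3928 (.f1 w4 (nat_lit 0xfe023c00000000000000000)
  (nat_lit 0x1fdc000000000000000000) (nat_lit 7) s3932 (.f1 w18 (nat_lit 0xfe023c00000000000000000) (nat_lit 0x1fdc000000000000000000) (nat_lit 7) (.f0 (nat_lit 0xfc254000000000000000000) (nat_lit 0x3dabc00000000000000000) (nat_lit 6) (.f0 (nat_lit 0xfc088000000000000000000) (nat_lit 0x3f77c00000000000000000) (nat_lit 5) (.ret (nat_lit 1060)) s3907) s3421) (.f1 w4 (nat_lit 0xfe023c00000000000000000)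
  (nat_lit 0x1fdc000000000000000000) (nat_lit 7) (.f0 (nat_lit 0x3dabc00000000000000000) (nat_lit 0xfc254000000000000000000) (nat_lit 6) (.ret (nat_lit 1062)) (.ret (nat_lit 1061))) (.ret (nat_lit 1063))))))) (.f1 w4 (nat_lit 0xfe023c00000000000000000) (nat_lit 0x1fdc000000000000000000) (nat_lit 7) (.f0 (nat_lit 0xfc254000000000000000000) (nat_lit 0x3dabc00000000000000000) (nat_lit 7) s3928 (.f1 w4
  (nat_lit 0xfe023c00000000000000000) (nat_lit 0x1fdc000000000000000000) (nat_lit 7) (.ret (nat_lit 1060)) (.f1 w18 (nat_lit 0xfe023c00000000000000000) (nat_lit 0x1fdc000000000000000000) (nat_lit 7) (.ret (nat_lit 1060)) s3938))) s3927)) (.f1 w4 (nat_lit 0xfe023c00000000000000000) (nat_lit 0x1fdc000000000000000000) (nat_lit 7) (.f0 (nat_lit 0xfc254000000000000000000) (nat_lit 0x3dabc00000000000000000)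
  (nat_lit 7) s3928 (.f1 w4 (nat_lit 0xfe023c00000000000000000) (nat_lit 0x1fdc000000000000000000) (nat_lit 7) s3932 (.f1 w18 (nat_lit 0x1fdc000000000000000000) (nat_lit 0xfe023c00000000000000000) (nat_lit 7) s3938 s3939))) s3921)) (.f1 w4 (nat_lit 0xfe023c00000000000000000) (nat_lit 0x1fdc000000000000000000) (nat_lit 8) (.f0 (nat_lit 0xfc254000000000000000000) (nat_lit 0x3dabc00000000000000000) (nat_lit 7)
  (.f0 (nat_lit 0xfc088000000000000000000) (nat_lit 0x3f77c00000000000000000) (nat_lit 6) (.f0 (nat_lit 0xfd000000000000000000000) (nat_lit 0x2fffc00000000000000000) (nat_lit 6) s3933 s3928) s3927) s3921) (.f1 w4 (nat_lit 0xfe023c00000000000000000) (nat_lit 0x1fdc000000000000000000) (nat_lit 8) (.f0 (nat_lit 0x3dabc00000000000000000) (nat_lit 0xfc254000000000000000000) (nat_lit 7) (.f1 w18 (nat_lit 0x1fdc000000000000000000)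
  (nat_lit 0xfe023c00000000000000000) (nat_lit 7) s3805 (.f0 (nat_lit 0xfc254000000000000000000) (nat_lit 0x3dabc00000000000000000) (nat_lit 6) s3904 s3903)) (.f0 (nat_lit 0xfc088000000000000000000) (nat_lit 0x3f77c00000000000000000) (nat_lit 6) (.f0 (nat_lit 0x2fffc00000000000000000) (nat_lit 0xfd000000000000000000000) (nat_lit 6) (.ret (nat_lit 1060)) (.f1 w18 (nat_lit 0x1fdc000000000000000000) (nat_lit 0xfe023c00000000000000000)
  (nat_lit 6) (.ret (nat_lit 1062)) (.f1 w4 (nat_lit 0xfe023c00000000000000000) (nat_lit 0x1fdc000000000000000000) (nat_lit 5) (.ret (nat_lit 1060)) (.f1 w21 (nat_lit 0xfc088000000000000000000) (nat_lit 0x3f77c00000000000000000) (nat_lit 5) (.ret (nat_lit 1060)) (.ret (nat_lit 1061)))))) (.f1 w18 (nat_lit 0x1fdc000000000000000000) (nat_lit 0xfe023c00000000000000000) (nat_lit 6) (.ret (nat_lit 1062))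
  (.f0 (nat_lit 0xfc254000000000000000000) (nat_lit 0x3dabc00000000000000000) (nat_lit 6) s3907 (.ret (nat_lit 1062)))))) (.f1 w18 (nat_lit 0xfe023c00000000000000000) (nat_lit 0x1fdc000000000000000000) (nat_lit 8) (.f0 (nat_lit 0xfc254000000000000000000) (nat_lit 0x3dabc00000000000000000) (nat_lit 7) s3899 (.f1 w4 (nat_lit 0xfe023c00000000000000000) (nat_lit 0x1fdc000000000000000000) (nat_lit 7) (.f0
  (nat_lit 0xfc254000000000000000000) (nat_lit 0x3dabc00000000000000000) (nat_lit 7) (.f0 (nat_lit 0xfc088000000000000000000) (nat_lit 0x3f77c00000000000000000) (nat_lit 7) (.ret (nat_lit 1062)) (.ret (nat_lit 1063))) (.ret (nat_lit 1063))) (.ret (nat_lit 1063)))) (.f1 w4 (nat_lit 0xfe023c00000000000000000) (nat_lit 0x1fdc000000000000000000) (nat_lit 8) (.f0 (nat_lit 0xfc254000000000000000000) (nat_lit 0x3dabc00000000000000000) (nat_lit 7) (.f0 (nat_lit 0xfd000000000000000000000) (nat_lit 0x2fffc00000000000000000) (nat_lit 7) (.ret (nat_lit 1062)) (.ret (nat_lit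 1063))) (.ret (nat_lit 1063))) (.ret (nat_lit 1064))))))
noncomputable def s3963 : FP := .f0 (nat_lit 0xfc254000000000000000000) (nat_lit 0x3dabc00000000000000000) (nat_lit 8) (.f0 (nat_lit 0xfc088000000000000000000) (nat_lit 0x3f77c00000000000000000) (nat_lit 8) s3961 (.f1 w18 (nat_lit 0xfe023c00000000000000000) (nat_lit 0x1fdc000000000000000000) (nat_lit 8) s3891 (.f1 w4 (nat_lit 0xfe023c00000000000000000) (nat_lit 0x1fdc000000000000000000) (nat_lit 8)
  (.f0 (nat_lit 0xfc254000000000000000000) (nat_lit 0x3dabc00000000000000000) (nat_lit 7) (.f0 (nat_lit 0xfc088000000000000000000) (nat_lit 0x3f77c00000000000000000) (nat_lit 6) (.f0 (nat_lit 0xfd000000000000000000000) (nat_lit 0x2fffc00000000000000000) (nat_lit 6) s3839 s3829) (.f1 w30 (nat_lit 0x1fdc000000000000000000) (nat_lit 0xfe023c00000000000000000) (nat_lit 6) s3824 (.f0 (nat_lit 0xfc254000000000000000000)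
  (nat_lit 0x3dabc00000000000000000) (nat_lit 6) (.f0 (nat_lit 0xfd000000000000000000000) (nat_lit 0x2fffc00000000000000000) (nat_lit 6) s3758 (.ret (nat_lit 1059))) s3421))) (.f1 w4 (nat_lit 0xfe023c00000000000000000) (nat_lit 0x1fdc000000000000000000) (nat_lit 7) (.f0 (nat_lit 0xfc254000000000000000000) (nat_lit 0x3dabc00000000000000000) (nat_lit 6) s3821 (.f1 w18 (nat_lit 0x1fdc000000000000000000)
  (nat_lit 0xfe023c00000000000000000) (nat_lit 6) (.ret (nat_lit 1062)) s3735)) (.f1 w18 (nat_lit 0xfe023c00000000000000000) (nat_lit 0x1fdc000000000000000000) (nat_lit 7) (.ret (nat_lit 1062)) s3805))) (.f1 w4 (nat_lit 0xfe023c00000000000000000) (nat_lit 0x1fdc000000000000000000) (nat_lit 8) s3817 s3804)))) (.f1 w18 (nat_lit 0x1fdc000000000000000000) (nat_lit 0xfe023c00000000000000000) (nat_lit 6)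
  (.f1 w4 (nat_lit 0xfe023c00000000000000000) (nat_lit 0x1fdc000000000000000000) (nat_lit 6) s3761 s3744) (.f0 (nat_lit 0xfc254000000000000000000) (nat_lit 0x3dabc00000000000000000) (nat_lit 6) (.f1 w24 (nat_lit 0xfe023c00000000000000000) (nat_lit 0x1fdc000000000000000000) (nat_lit 6) (.ret (nat_lit 1059)) s3759) (.f1 w4 (nat_lit 0xfe023c00000000000000000) (nat_lit 0x1fdc000000000000000000) (nat_lit 6)
  (.f0 (nat_lit 0xfc254000000000000000000) (nat_lit 0x3dabc00000000000000000) (nat_lit 6) (.f0 (nat_lit 0xfd000000000000000000000) (nat_lit 0x2fffc00000000000000000) (nat_lit 6) (.f1 w4 (nat_lit 0xfe023c00000000000000000) (nat_lit 0x1fdc000000000000000000) (nat_lit 4) (.ret (nat_lit 1059)) (.f1 w18 (nat_lit 0x1fdc000000000000000000) (nat_lit 0xfe023c00000000000000000) (nat_lit 4) s3753 s3728)) (.f1 w4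
  (nat_lit 0xfe023c00000000000000000) (nat_lit 0x1fdc000000000000000000) (nat_lit 6) (.f0 (nat_lit 0x3dabc00000000000000000) (nat_lit 0xfc254000000000000000000) (nat_lit 4) (.f1 w18 (nat_lit 0x1fdc000000000000000000) (nat_lit 0xfe023c00000000000000000) (nat_lit 4) (.f1 w4 (nat_lit 0x1fdc000000000000000000) (nat_lit 0xfe023c00000000000000000) (nat_lit 4) (.ret (nat_lit 1060)) (.ret (nat_lit 1058)))
  (.ret (nat_lit 1058))) (.ret (nat_lit 1058))) (.f1 w18 (nat_lit 0x1fdc000000000000000000) (nat_lit 0xfe023c00000000000000000) (nat_lit 6) s3735 (.f0 (nat_lit 0xfc254000000000000000000) (nat_lit 0x3dabc00000000000000000) (nat_lit 6) (.ret (nat_lit 1058)) (.f1 w4 (nat_lit 0x1fdc000000000000000000) (nat_lit 0xfe023c00000000000000000) (nat_lit 6) (.ret (nat_lit 1062)) (.ret (nat_lit 1058))))))) (.f1 w4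
  (nat_lit 0xfe023c00000000000000000) (nat_lit 0x1fdc000000000000000000) (nat_lit 6) (.f0 (nat_lit 0xfc254000000000000000000) (nat_lit 0x3dabc00000000000000000) (nat_lit 4) s3728 (.f1 w18 (nat_lit 0x1fdc000000000000000000) (nat_lit 0xfe023c00000000000000000) (nat_lit 4) s3753 s3772)) (.f1 w18 (nat_lit 0x1fdc000000000000000000) (nat_lit 0xfe023c00000000000000000) (nat_lit 6) s3746 (.f0 (nat_lit 0xfc254000000000000000000)
  (nat_lit 0x3dabc00000000000000000) (nat_lit 6) (.ret (nat_lit 1059)) (.f1 w4 (nat_lit 0xfe023c00000000000000000) (nat_lit 0x1fdc000000000000000000) (nat_lit 6) s3728 (.ret (nat_lit 1062))))))) (.f1 w4 (nat_lit 0xfe023c00000000000000000) (nat_lit 0x1fdc000000000000000000) (nat_lit 6) (.f0 (nat_lit 0xfc254000000000000000000) (nat_lit 0x3dabc00000000000000000) (nat_lit 5) (.f0 (nat_lit 0xfd000000000000000000000) (nat_lit 0x2fffc00000000000000000) (nat_lit 4) s3754 (.ret (nat_lit 1058))) s3751) (.f1 w18 (nat_lit 0x1fdc000000000000000000) (nat_lit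 0xfe023c00000000000000000) (nat_lit 6) s3746 (.f0 (nat_lit 0xfc254000000000000000000) (nat_lit 0x3dabc00000000000000000) (nat_lit 6) s3763 s3746))))))
noncomputable def s3969 : FP := .f1 w24 (nat_lit 0xfe023c00000000000000000) (nat_lit 0x1fdc000000000000000000) (nat_lit 7) (.ret (nat_lit 214)) (.f1 w21 (nat_lit 0xfe023c00000000000000000) (nat_lit 0x1fdc000000000000000000) (nat_lit 7) (.ret (nat_lit 214)) (.ret (nat_lit 215)))
noncomputable def s3973 : FP := .f1 w18 (nat_lit 0xfc240000000000000000000) (nat_lit 0x3dbfc00000000000000000) (nat_lit 7) (.ret (nat_lit 214)) (.ret (nat_lit 215))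
noncomputable def s4001 : FP := .v0 (nat_lit 0x3d0000000000000000) (nat_lit 0x20000000000000000) (nat_lit 8) (.f0 (nat_lit 0xfc003c00000000000000000) (nat_lit 0x3ffc000000000000000000) (nat_lit 8) (.f0 (nat_lit 0x1fffc00000000000000000) (nat_lit 0xfe000000000000000000000) (nat_lit 8) (.f1 w24 (nat_lit 0xfc254000000000000000000) (nat_lit 0x3dabc00000000000000000) (nat_lit 8) (.f1 w18 (nat_lit 0x1fdc000000000000000000)
  (nat_lit 0xfe023c00000000000000000) (nat_lit 8) (.f1 w4 (nat_lit 0x1fdc000000000000000000) (nat_lit 0xfe023c00000000000000000) (nat_lit 8) (.f1 w4 (nat_lit 0xfe023c00000000000000000) (nat_lit 0x1fdc000000000000000000) (nat_lit 8) s1603 (.ret (nat_lit 216))) (.ret (nat_lit 214))) (.f0 (nat_lit 0xfc254000000000000000000) (nat_lit 0x3dabc00000000000000000) (nat_lit 7) (.ret (nat_lit 214)) s3969)) (.ret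
  (nat_lit 214))) (.f1 w24 (nat_lit 0xfc254000000000000000000) (nat_lit 0x3dabc00000000000000000) (nat_lit 8) (.f1 w18 (nat_lit 0x1fdc000000000000000000) (nat_lit 0xfe023c00000000000000000) (nat_lit 8) (.f1 w4 (nat_lit 0x1fdc000000000000000000) (nat_lit 0xfe023c00000000000000000) (nat_lit 8) (.f1 w4 (nat_lit 0xfe023c00000000000000000) (nat_lit 0x1fdc000000000000000000) (nat_lit 8) s3973 (.ret (nat_lit 216)))
  (.ret (nat_lit 215))) (.f0 (nat_lit 0xfc254000000000000000000) (nat_lit 0x3dabc00000000000000000) (nat_lit 7) (.f0 (nat_lit 0xfd000000000000000000000) (nat_lit 0x2fffc00000000000000000) (nat_lit 7) (.ret (nat_lit 214)) s3969) (.f1 w4 (nat_lit 0xfe023c00000000000000000) (nat_lit 0x1fdc000000000000000000) (nat_lit 7) (.ret (nat_lit 214)) s1567))) (.ret (nat_lit 214)))) (.ret (nat_lit 0))) (.v1 w1 (nat_lit 0x370000000000000000)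
  (nat_lit 0x80000000000000000) (nat_lit 8) (.f1 w1 (nat_lit 0xfc000400000000000000000) (nat_lit 0x3fff800000000000000000) (nat_lit 8) (.f1 w75 (nat_lit 0x3fff800000000000000000) (nat_lit 0xfc000400000000000000000) (nat_lit 7) (.f1 w24 (nat_lit 0x3dabc00000000000000000) (nat_lit 0xfc254000000000000000000) (nat_lit 7) (.f1 w18 (nat_lit 0xfe023c00000000000000000) (nat_lit 0x1fdc000000000000000000) (nat_lit 6)
  (.f0 (nat_lit 0xfc254000000000000000000) (nat_lit 0x3dabc00000000000000000) (nat_lit 5) (.ret (nat_lit 1059)) s3907) (.ret (nat_lit 1062))) (.f1 w18 (nat_lit 0xfe023c00000000000000000) (nat_lit 0x1fdc000000000000000000) (nat_lit 7) (.f0 (nat_lit 0xfc254000000000000000000) (nat_lit 0x3dabc00000000000000000) (nat_lit 6) s3421 (.ret (nat_lit 1062))) (.f1 w4 (nat_lit 0xfe023c00000000000000000) (nat_lit 0x1fdc000000000000000000)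
  (nat_lit 7) (.ret (nat_lit 1062)) (.f1 w118 (nat_lit 0xfe023c00000000000000000) (nat_lit 0x1fdc000000000000000000) (nat_lit 7) (.ret (nat_lit 1062)) (.ret (nat_lit 1063)))))) (.f1 w276 (nat_lit 0xfe023c00000000000000000) (nat_lit 0x1fdc000000000000000000) (nat_lit 6) (.ret (nat_lit 1060)) (.ret (nat_lit 1062)))) (.f1 w18 (nat_lit 0x3dabc00000000000000000) (nat_lit 0xfc254000000000000000000) (nat_lit 8)
  (.ret (nat_lit 1062)) (.f1 w18 (nat_lit 0xfe023c00000000000000000) (nat_lit 0x1fdc000000000000000000) (nat_lit 8) (.f0 (nat_lit 0xfc254000000000000000000) (nat_lit 0x3dabc00000000000000000) (nat_lit 7) (.ret (nat_lit 1062)) (.f1 w24 (nat_lit 0xfe023c00000000000000000) (nat_lit 0x1fdc000000000000000000) (nat_lit 7) (.f1 w18 (nat_lit 0xfe023c00000000000000000) (nat_lit 0x1fdc000000000000000000) (nat_lit 6) s3725 (.ret (nat_lit 1062))) (.ret (nat_lit 1063)))) (.f1 w4 (nat_lit 0xfe023c00000000000000000) (nat_lit 0x1fdc000000000000000000) (nat_lit 8) s3903 s3794))))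 (.f1 w277 (nat_lit 0x1fdc000000000000000000) (nat_lit 0xfe023c00000000000000000) (nat_lit 6) (.ret (nat_lit 1062)) (.ret (nat_lit 1060))))
noncomputable def s4008 : FP := .f0 (nat_lit 0xfc254000000000000000000) (nat_lit 0x3dabc00000000000000000) (nat_lit 3) (.ret (nat_lit 1059)) (.ret (nat_lit 1057))
noncomputable def s4011 : FP := .f1 w78 (nat_lit 0xfe023c00000000000000000) (nat_lit 0x1fdc000000000000000000) (nat_lit 3) s4008 (.ret (nat_lit 0))
noncomputable def s4016 : FP := .f0 (nat_lit 0x3f77c00000000000000000) (nat_lit 0xfc088000000000000000000) (nat_lit 4) (.ret (nat_lit 1059)) (.ret (nat_lit 1060))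
noncomputable def s4017 : FP := .f0 (nat_lit 0xfc254000000000000000000) (nat_lit 0x3dabc00000000000000000) (nat_lit 4) s4016 (.ret (nat_lit 1058))
noncomputable def s4020 : FP := .f1 w65 (nat_lit 0xfc254000000000000000000) (nat_lit 0x3dabc00000000000000000) (nat_lit 3) s3728 (.ret (nat_lit 1059))
noncomputable def s4027 : FP := .f1 w24 (nat_lit 0xfe023c00000000000000000) (nat_lit 0x1fdc000000000000000000) (nat_lit 4) s4017 (.ret (nat_lit 0))
noncomputable def s4032 : FP := .f1 w18 (nat_lit 0x1fdc000000000000000000) (nat_lit 0xfe023c00000000000000000) (nat_lit 6) (.f1 w4 (nat_lit 0xfe023c00000000000000000) (nat_lit 0x1fdc000000000000000000) (nat_lit 6) (.ret (nat_lit 1059)) s3758) (.ret (nat_lit 1059))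
noncomputable def s4036 : FP := .f0 (nat_lit 0x3dabc00000000000000000) (nat_lit 0xfc254000000000000000000) (nat_lit 3) (.f1 w18 (nat_lit 0xfe023c00000000000000000) (nat_lit 0x1fdc000000000000000000) (nat_lit 3) (.f0 (nat_lit 0xfc254000000000000000000) (nat_lit 0x3dabc00000000000000000) (nat_lit 3) (.f0 (nat_lit 0x3f77c00000000000000000) (nat_lit 0xfc088000000000000000000) (nat_lit 3) (.ret (nat_lit 1059)) (.ret (nat_lit 1057))) (.ret (nat_lit 1059))) (.ret (nat_lit 1059))) s3728
noncomputable def s4037 : FP := .f1 w4 (nat_lit 0x1fdc000000000000000000) (nat_lit 0xfe023c00000000000000000) (nat_lit 6) s4032 s4036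
noncomputable def s4038 : FP := .f1 w30 (nat_lit 0xfe023c00000000000000000) (nat_lit 0x1fdc000000000000000000) (nat_lit 3) s3772 (.ret (nat_lit 1059))
noncomputable def s4049 : FP := .f0 (nat_lit 0xfc254000000000000000000) (nat_lit 0x3dabc00000000000000000) (nat_lit 6) s3799 (.ret (nat_lit 1062))
noncomputable def s4050 : FP := .f1 w4 (nat_lit 0xfe023c00000000000000000) (nat_lit 0x1fdc000000000000000000) (nat_lit 6) s4049 (.ret (nat_lit 1062))
noncomputable def s4054 : FP := .f0 (nat_lit 0x3dabc00000000000000000) (nat_lit 0xfc254000000000000000000) (nat_lit 6) (.f1 w4 (nat_lit 0xfe023c00000000000000000) (nat_lit 0x1fdc000000000000000000) (nat_lit 6) (.f0 (nat_lit 0xfc254000000000000000000) (nat_lit 0x3dabc00000000000000000) (nat_lit 6) (.f0 (nat_lit 0xfc088000000000000000000) (nat_lit 0x3f77c00000000000000000) (nat_lit 6) s3734 (.ret (nat_lit 1062))) (.ret (nat_lit 1062))) (.ret (nat_lit 1062))) (.ret (nat_lit 1059))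
noncomputable def s4056 : FP := .f0 (nat_lit 0xfc088000000000000000000) (nat_lit 0x3f77c00000000000000000) (nat_lit 5) (.ret (nat_lit 1059)) (.ret (nat_lit 1061))
noncomputable def s4065 : FP := .f1 w18 (nat_lit 0x1fdc000000000000000000) (nat_lit 0xfe023c00000000000000000) (nat_lit 6) (.f1 w4 (nat_lit 0xfe023c00000000000000000) (nat_lit 0x1fdc000000000000000000) (nat_lit 6) (.f0 (nat_lit 0x3dabc00000000000000000) (nat_lit 0xfc254000000000000000000) (nat_lit 5) (.f1 w4 (nat_lit 0x1fdc000000000000000000) (nat_lit 0xfe023c00000000000000000) (nat_lit 5) (.f1 w18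
  (nat_lit 0xfe023c00000000000000000) (nat_lit 0x1fdc000000000000000000) (nat_lit 5) (.f0 (nat_lit 0x3dabc00000000000000000) (nat_lit 0xfc254000000000000000000) (nat_lit 5) (.f1 w4 (nat_lit 0xfe023c00000000000000000) (nat_lit 0x1fdc000000000000000000) (nat_lit 5) (.f0 (nat_lit 0xfc254000000000000000000) (nat_lit 0x3dabc00000000000000000) (nat_lit 5) s4056 (.ret (nat_lit 1061))) (.ret (nat_lit 1061))) (.ret (nat_lit 1059))) (.f1 w4 (nat_lit 0xfe023c00000000000000000) (nat_lit 0x1fdc000000000000000000) (nat_lit 5) s4056 (.ret (nat_lit 1061)))) (.ret (nat_lit 1059))) (.ret (nat_lit 1059))) (.f1 w30 (nat_lit 0xfe023c00000000000000000) (nat_lit 0x1fdc000000000000000000) (nat_lit 6) s4054 s4050)) (.ret (nat_lit 1059))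
noncomputable def s4066 : FP := .f1 w21 (nat_lit 0xfe023c00000000000000000) (nat_lit 0x1fdc000000000000000000) (nat_lit 6) s3902 (.ret (nat_lit 1062))
noncomputable def s4067 : FP := .f1 w21 (nat_lit 0xfe023c00000000000000000) (nat_lit 0x1fdc000000000000000000) (nat_lit 6) s3831 (.ret (nat_lit 1062))
noncomputable def s4068 : FP := .f0 (nat_lit 0xfc254000000000000000000) (nat_lit 0x3dabc00000000000000000) (nat_lit 6) (.ret (nat_lit 1060)) s4067
noncomputable def s4069 : FP := .f1 w24 (nat_lit 0x1fdc000000000000000000) (nat_lit 0xfe023c00000000000000000) (nat_lit 6) s4066 s4068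
noncomputable def s4071 : FP := .f0 (nat_lit 0x3dabc00000000000000000) (nat_lit 0xfc254000000000000000000) (nat_lit 6) (.f1 w24 (nat_lit 0x1d88000000000000000000) (nat_lit 0xfe277c00000000000000000) (nat_lit 6) s4067 (.ret (nat_lit 1060))) (.ret (nat_lit 1060))
noncomputable def s4075 : FP := .f1 w4 (nat_lit 0x1fdc000000000000000000) (nat_lit 0xfe023c00000000000000000) (nat_lit 5) (.ret (nat_lit 1061)) (.f0 (nat_lit 0x3dabc00000000000000000) (nat_lit 0xfc254000000000000000000) (nat_lit 5) (.ret (nat_lit 1061)) (.ret (nat_lit 1060)))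
noncomputable def s4080 : FP := .f0 (nat_lit 0x3dabc00000000000000000) (nat_lit 0xfc254000000000000000000) (nat_lit 5) (.f1 w4 (nat_lit 0x1fdc000000000000000000) (nat_lit 0xfe023c00000000000000000) (nat_lit 5) (.f1 w18 (nat_lit 0xfc254000000000000000000) (nat_lit 0x3dabc00000000000000000) (nat_lit 5) (.ret (nat_lit 1060)) (.f1 w4 (nat_lit 0xfe023c00000000000000000) (nat_lit 0x1fdc000000000000000000) (nat_lit 5) (.f0 (nat_lit 0xfc254000000000000000000) (nat_lit 0x3dabc00000000000000000) (nat_lit 5) (.ret (nat_lit 1060)) s4075) s4075)) (.ret (nat_lit 1060))) (.ret (nat_lit 1060))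
noncomputable def s4088 : FP := .f1 w30 (nat_lit 0xfd000000000000000000000) (nat_lit 0x2fffc00000000000000000) (nat_lit 6) (.f1 w4 (nat_lit 0xfd000000000000000000000) (nat_lit 0x2fffc00000000000000000) (nat_lit 6) (.f1 w4 (nat_lit 0xfd000000000000000000000) (nat_lit 0x2fffc00000000000000000) (nat_lit 6) (.f1 w4 (nat_lit 0xfe023c00000000000000000) (nat_lit 0x1fdc000000000000000000) (nat_lit 6) (.f0
  (nat_lit 0xfc254000000000000000000) (nat_lit 0x3dabc00000000000000000) (nat_lit 6) (.f0 (nat_lit 0xfc088000000000000000000) (nat_lit 0x3f77c00000000000000000) (nat_lit 6) (.f1 w18 (nat_lit 0x1fdc000000000000000000) (nat_lit 0xfe023c00000000000000000) (nat_lit 6) (.f1 w4 (nat_lit 0x1fdc000000000000000000) (nat_lit 0xfe023c00000000000000000) (nat_lit 6) (.f1 w4 (nat_lit 0xfe023c00000000000000000) (nat_lit 0x1fdc000000000000000000)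
  (nat_lit 6) (.ret (nat_lit 1060)) (.f1 w18 (nat_lit 0xfe023c00000000000000000) (nat_lit 0x1fdc000000000000000000) (nat_lit 6) s4071 s4069)) s4080) (.ret (nat_lit 1060))) s4065) (.f1 w18 (nat_lit 0x1fdc000000000000000000) (nat_lit 0xfe023c00000000000000000) (nat_lit 6) (.f1 w4 (nat_lit 0x1fdc000000000000000000) (nat_lit 0xfe023c00000000000000000) (nat_lit 6) s4037 s4038) (.f0 (nat_lit 0x3dabc00000000000000000)
  (nat_lit 0xfc254000000000000000000) (nat_lit 3) (.f1 w4 (nat_lit 0x1fdc000000000000000000) (nat_lit 0xfe023c00000000000000000) (nat_lit 3) (.f1 w30 (nat_lit 0xfe023c00000000000000000) (nat_lit 0x1fdc000000000000000000) (nat_lit 3) (.f0 (nat_lit 0x3dabc00000000000000000) (nat_lit 0xfc254000000000000000000) (nat_lit 3) s3763 (.ret (nat_lit 1058))) (.ret (nat_lit 1059))) (.f1 w30 (nat_lit 0x3dabc00000000000000000)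
  (nat_lit 0xfc254000000000000000000) (nat_lit 3) (.ret (nat_lit 1059)) (.ret (nat_lit 1058)))) (.f0 (nat_lit 0xfc088000000000000000000) (nat_lit 0x3f77c00000000000000000) (nat_lit 3) (.ret (nat_lit 1058)) (.f1 w4 (nat_lit 0x1fdc000000000000000000) (nat_lit 0xfe023c00000000000000000) (nat_lit 3) (.f1 w4 (nat_lit 0x1fdc000000000000000000) (nat_lit 0xfe023c00000000000000000) (nat_lit 3) (.ret (nat_lit 1059))
  (.ret (nat_lit 1057))) (.ret (nat_lit 1058))))))) (.ret (nat_lit 0))) (.f1 w21 (nat_lit 0x3fff400000000000000000) (nat_lit 0xfc000800000000000000000) (nat_lit 4) (.v1 w16 (nat_lit 0x20000000000000000) (nat_lit 0x3d0000000000000000) (nat_lit 4) (.f1 w280 (nat_lit 0xfe023c00000000000000000) (nat_lit 0x1fdc000000000000000000) (nat_lit 4) s4017 (.ret (nat_lit 0))) (.ret (nat_lit 1059))) s4027)) s4027)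
  (.f1 w4 (nat_lit 0xfc000800000000000000000) (nat_lit 0x3fff400000000000000000) (nat_lit 5) (.f1 w24 (nat_lit 0xfe023c00000000000000000) (nat_lit 0x1fdc000000000000000000) (nat_lit 4) (.f0 (nat_lit 0xfc254000000000000000000) (nat_lit 0x3dabc00000000000000000) (nat_lit 4) s4016 (.f1 w18 (nat_lit 0x1fdc000000000000000000) (nat_lit 0xfe023c00000000000000000) (nat_lit 3) (.f1 w4 (nat_lit 0x1fdc000000000000000000)
  (nat_lit 0xfe023c00000000000000000) (nat_lit 3) (.f1 w4 (nat_lit 0x1fdc000000000000000000) (nat_lit 0xfe023c00000000000000000) (nat_lit 3) s4020 (.ret (nat_lit 1058))) (.ret (nat_lit 1058))) (.ret (nat_lit 1058)))) (.ret (nat_lit 0))) (.v1 w6 (nat_lit 0x3d0000000000000000) (nat_lit 0x20000000000000000) (nat_lit 5) (.f1 w107 (nat_lit 0x1fdc000000000000000000) (nat_lit 0xfe023c00000000000000000) (nat_lit 5) (.f1 w131 (nat_lit 0x1fdc000000000000000000) (nat_lit 0xfe023c00000000000000000) (nat_lit 5) (.f1 w37 (nat_lit 0x1fdc000000000000000000) (nat_lit 0xfe023c00000000000000000)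 (nat_lit 5) s3878 (.ret (nat_lit 1059))) s3772) (.ret (nat_lit 1058))) (.f1 w279 (nat_lit 0xfe023c00000000000000000) (nat_lit 0x1fdc000000000000000000) (nat_lit 4) s4017 (.ret (nat_lit 0)))))
noncomputable def s4096 : FP := .f1 w4 (nat_lit 0xfe023c00000000000000000) (nat_lit 0x1fdc000000000000000000) (nat_lit 6) s3752 (.ret (nat_lit 1062))
noncomputable def s4108 : FP := .v1 w4 (nat_lit 0x3e0000000000000000) (nat_lit 0x10000000000000000) (nat_lit 7) (.f1 w7 (nat_lit 0xfd000000000000000000000) (nat_lit 0x2fffc00000000000000000) (nat_lit 6) (.f1 w4 (nat_lit 0xfd000000000000000000000) (nat_lit 0x2fffc00000000000000000) (nat_lit 6) s4088 s4011) (.f1 w4 (nat_lit 0x3fff400000000000000000) (nat_lit 0xfc000800000000000000000) (nat_lit 5) (.v1 w6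
  (nat_lit 0x20000000000000000) (nat_lit 0x3d0000000000000000) (nat_lit 5) (.f1 w278 (nat_lit 0xfe023c00000000000000000) (nat_lit 0x1fdc000000000000000000) (nat_lit 3) s4008 (.ret (nat_lit 0))) (.v1 w25 (nat_lit 0x3e0000000000000000) (nat_lit 0x10000000000000000) (nat_lit 5) (.f1 w4 (nat_lit 0xfe023c00000000000000000) (nat_lit 0x1fdc000000000000000000) (nat_lit 5) (.f1 w34 (nat_lit 0xfe023c00000000000000000)
  (nat_lit 0x1fdc000000000000000000) (nat_lit 3) (.ret (nat_lit 1059)) (.ret (nat_lit 0))) (.f1 w34 (nat_lit 0x1fdc000000000000000000) (nat_lit 0xfe023c00000000000000000) (nat_lit 5) (.ret (nat_lit 0)) (.ret (nat_lit 1061)))) (.ret (nat_lit 0)))) s4011)) (.v0 (nat_lit 0x20000000000000000) (nat_lit 0x3d0000000000000000) (nat_lit 7) (.f1 w281 (nat_lit 0xfc254000000000000000000) (nat_lit 0x3dabc00000000000000000)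
  (nat_lit 6) (.f0 (nat_lit 0xfc088000000000000000000) (nat_lit 0x3f77c00000000000000000) (nat_lit 6) (.f1 w18 (nat_lit 0x1fdc000000000000000000) (nat_lit 0xfe023c00000000000000000) (nat_lit 6) (.f1 w4 (nat_lit 0xfe023c00000000000000000) (nat_lit 0x1fdc000000000000000000) (nat_lit 6) s4080 s3421) (.ret (nat_lit 1060))) (.f1 w18 (nat_lit 0x1fdc000000000000000000) (nat_lit 0xfe023c00000000000000000)
  (nat_lit 6) (.f1 w24 (nat_lit 0x1fdc000000000000000000) (nat_lit 0xfe023c00000000000000000) (nat_lit 6) (.f1 w18 (nat_lit 0xfe023c00000000000000000) (nat_lit 0x1fdc000000000000000000) (nat_lit 6) s4054 s4050) (.ret (nat_lit 1062))) (.ret (nat_lit 1059)))) (.f1 w18 (nat_lit 0x1fdc000000000000000000) (nat_lit 0xfe023c00000000000000000) (nat_lit 6) (.f1 w4 (nat_lit 0xfe023c00000000000000000) (nat_lit 0x1fdc000000000000000000)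
  (nat_lit 6) (.f0 (nat_lit 0x3dabc00000000000000000) (nat_lit 0xfc254000000000000000000) (nat_lit 3) s4038 s3728) s4096) s3752)) (.f0 (nat_lit 0xfc003c00000000000000000) (nat_lit 0x3ffc000000000000000000) (nat_lit 7) (.f1 w24 (nat_lit 0xfc254000000000000000000) (nat_lit 0x3dabc00000000000000000) (nat_lit 7) (.f1 w18 (nat_lit 0x1fdc000000000000000000) (nat_lit 0xfe023c00000000000000000) (nat_lit 7) (.f1 w4 (nat_lit 0x1fdc000000000000000000) (nat_lit 0xfe023c00000000000000000) (nat_lit 7) (.f1 w4 (nat_lit 0xfe023c00000000000000000) (nat_lit 0x1fdc000000000000000000) (nat_lit 7) (.ret (nat_lit 212)) (.ret (nat_lit 215))) (.ret (nat_lit 214))) (.ret (nat_lit 214))) (.ret (nat_lit 214))) (.ret (nat_lit 0))))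
noncomputable def s4111 : FP := .f1 w73 (nat_lit 0xfe023c00000000000000000) (nat_lit 0x1fdc000000000000000000) (nat_lit 7) (.ret (nat_lit 310)) (.ret (nat_lit 311))
noncomputable def s4114 : FP := .f1 w63 (nat_lit 0x1fdc000000000000000000) (nat_lit 0xfe023c00000000000000000) (nat_lit 7) s4111 (.ret (nat_lit 308))
noncomputable def s4118 : FP := .f1 w4 (nat_lit 0xfe023c00000000000000000) (nat_lit 0x1fdc000000000000000000) (nat_lit 8) (.ret (nat_lit 310)) (.ret (nat_lit 312))
noncomputable def s4138 : FP := .f1 w119 (nat_lit 0xfe023c00000000000000000) (nat_lit 0x1fdc000000000000000000) (nat_lit 6) s4068 s4066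
noncomputable def s4142 : FP := .v0 (nat_lit 0x3d0000000000000000) (nat_lit 0x20000000000000000) (nat_lit 8) (.f0 (nat_lit 0x3ffc000000000000000000) (nat_lit 0xfc003c00000000000000000) (nat_lit 8) (.f0 (nat_lit 0xfc000800000000000000000) (nat_lit 0x3fff400000000000000000) (nat_lit 8) (.f0 (nat_lit 0x3ffec00000000000000000) (nat_lit 0xfc001000000000000000000) (nat_lit 8) (.f1 w254 (nat_lit 0xfc254000000000000000000)
  (nat_lit 0x3dabc00000000000000000) (nat_lit 8) (.f1 w25 (nat_lit 0x1fdc000000000000000000) (nat_lit 0xfe023c00000000000000000) (nat_lit 8) (.f1 w63 (nat_lit 0xfe023c00000000000000000) (nat_lit 0x1fdc000000000000000000) (nat_lit 8) (.f1 w73 (nat_lit 0xfe023c00000000000000000) (nat_lit 0x1fdc000000000000000000) (nat_lit 7) (.ret (nat_lit 310)) (.f1 w4 (nat_lit 0xfe023c00000000000000000) (nat_lit 0x1fdc000000000000000000)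
  (nat_lit 7) (.ret (nat_lit 310)) (.f1 w241 (nat_lit 0xfc254000000000000000000) (nat_lit 0x3dabc00000000000000000) (nat_lit 7) (.ret (nat_lit 310)) (.ret (nat_lit 311))))) (.f1 w73 (nat_lit 0xfe023c00000000000000000) (nat_lit 0x1fdc000000000000000000) (nat_lit 8) (.f1 w4 (nat_lit 0xfe023c00000000000000000) (nat_lit 0x1fdc000000000000000000) (nat_lit 7) (.ret (nat_lit 310)) (.f1 w21 (nat_lit 0xfc254000000000000000000)
  (nat_lit 0x3dabc00000000000000000) (nat_lit 7) (.ret (nat_lit 310)) (.ret (nat_lit 311)))) s4118)) s4114) (.ret (nat_lit 310))) (.ret (nat_lit 0))) (.f1 w39 (nat_lit 0xfc254000000000000000000) (nat_lit 0x3dabc00000000000000000) (nat_lit 7) (.f1 w25 (nat_lit 0xfc254000000000000000000) (nat_lit 0x3dabc00000000000000000) (nat_lit 7) s4114 (.f1 w63 (nat_lit 0x1fdc000000000000000000) (nat_lit 0xfe023c00000000000000000)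
  (nat_lit 7) s4111 (.ret (nat_lit 310)))) (.ret (nat_lit 310)))) (.f1 w25 (nat_lit 0x3dabc00000000000000000) (nat_lit 0xfc254000000000000000000) (nat_lit 7) (.ret (nat_lit 310)) (.f1 w18 (nat_lit 0xfe023c00000000000000000) (nat_lit 0x1fdc000000000000000000) (nat_lit 7) (.ret (nat_lit 310)) (.f1 w24 (nat_lit 0x1fdc000000000000000000) (nat_lit 0xfe023c00000000000000000) (nat_lit 7) (.f1 w62 (nat_lit 0xfe023c00000000000000000)
  (nat_lit 0x1fdc000000000000000000) (nat_lit 7) (.ret (nat_lit 310)) (.ret (nat_lit 311))) (.ret (nat_lit 310)))))) (.f1 w25 (nat_lit 0xfc254000000000000000000) (nat_lit 0x3dabc00000000000000000) (nat_lit 6) (.f0 (nat_lit 0xfc088000000000000000000) (nat_lit 0x3f77c00000000000000000) (nat_lit 6) (.f1 w18 (nat_lit 0x1fdc000000000000000000) (nat_lit 0xfe023c00000000000000000) (nat_lit 6) s4138 (.ret (nat_lit 1060))) s4065) (.f1 w18 (nat_lit 0x1fdc000000000000000000) (nat_lit 0xfe023c00000000000000000) (nat_lit 6) (.f1 w4 (nat_lit 0xfe023c00000000000000000)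 (nat_lit 0x1fdc000000000000000000) (nat_lit 6) (.ret (nat_lit 1059)) (.f1 w4 (nat_lit 0x1fdc000000000000000000) (nat_lit 0xfe023c00000000000000000) (nat_lit 6) s4032 (.ret (nat_lit 1059)))) (.ret (nat_lit 1059))))
noncomputable def s4153 : FP := .f0 (nat_lit 0xfc254000000000000000000) (nat_lit 0x3dabc00000000000000000) (nat_lit 4) (.ret (nat_lit 307)) (.ret (nat_lit 308))
noncomputable def s4154 : FP := .f1 w4 (nat_lit 0xfe023c00000000000000000) (nat_lit 0x1fdc000000000000000000) (nat_lit 6) s4153 (.ret (nat_lit 310))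
noncomputable def s4161 : FP := .f1 w21 (nat_lit 0xfe023c00000000000000000) (nat_lit 0x1fdc000000000000000000) (nat_lit 6) (.ret (nat_lit 307)) (.ret (nat_lit 310))
noncomputable def s4176 : FP := .f0 (nat_lit 0x3ffc000000000000000000) (nat_lit 0xfc003c00000000000000000) (nat_lit 6) (.f0 (nat_lit 0x3fff400000000000000000) (nat_lit 0xfc000800000000000000000) (nat_lit 6) (.v1 w9 (nat_lit 0x3e0000000000000000) (nat_lit 0x10000000000000000) (nat_lit 6) (.f1 w7 (nat_lit 0x3dabc00000000000000000) (nat_lit 0xfc254000000000000000000) (nat_lit 6) (.f1 w285 (nat_lit 0xfe023c00000000000000000)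
  (nat_lit 0x1fdc000000000000000000) (nat_lit 6) (.ret (nat_lit 307)) (.f1 w94 (nat_lit 0xfe023c00000000000000000) (nat_lit 0x1fdc000000000000000000) (nat_lit 6) (.ret (nat_lit 308)) s4154)) (.f1 w286 (nat_lit 0xfe023c00000000000000000) (nat_lit 0x1fdc000000000000000000) (nat_lit 6) (.f1 w73 (nat_lit 0xfe023c00000000000000000) (nat_lit 0x1fdc000000000000000000) (nat_lit 6) (.ret (nat_lit 308)) (.ret
  (nat_lit 310))) (.ret (nat_lit 310)))) (.ret (nat_lit 0))) (.f0 (nat_lit 0x3ffec00000000000000000) (nat_lit 0xfc001000000000000000000) (nat_lit 6) (.v1 w14 (nat_lit 0x3e0000000000000000) (nat_lit 0x10000000000000000) (nat_lit 6) (.f1 w287 (nat_lit 0x3dabc00000000000000000) (nat_lit 0xfc254000000000000000000) (nat_lit 6) (.f1 w18 (nat_lit 0x1fdc000000000000000000) (nat_lit 0xfe023c00000000000000000)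
  (nat_lit 6) (.f1 w4 (nat_lit 0x1fdc000000000000000000) (nat_lit 0xfe023c00000000000000000) (nat_lit 6) (.f1 w4 (nat_lit 0x1fdc000000000000000000) (nat_lit 0xfe023c00000000000000000) (nat_lit 6) (.f1 w18 (nat_lit 0x1fdc000000000000000000) (nat_lit 0xfe023c00000000000000000) (nat_lit 6) (.f1 w79 (nat_lit 0xfe023c00000000000000000) (nat_lit 0x1fdc000000000000000000) (nat_lit 6) (.ret (nat_lit 307)) s4161)
  (.ret (nat_lit 307))) (.ret (nat_lit 306))) (.ret (nat_lit 307))) (.ret (nat_lit 307))) (.f1 w286 (nat_lit 0x1fdc000000000000000000) (nat_lit 0xfe023c00000000000000000) (nat_lit 6) (.ret (nat_lit 310)) (.ret (nat_lit 308)))) (.ret (nat_lit 0))) (.v1 w9 (nat_lit 0x3e0000000000000000) (nat_lit 0x10000000000000000) (nat_lit 6) (.v1 w4 (nat_lit 0x3e0000000000000000) (nat_lit 0x10000000000000000) (nat_lit 6) (.f1 w77 (nat_lit 0x3dabc00000000000000000) (nat_lit 0xfc254000000000000000000) (nat_lit 6) (.ret (nat_lit 1059)) (.f1 w288 (nat_lit 0x1fdc000000000000000000)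 (nat_lit 0xfe023c00000000000000000) (nat_lit 6) (.ret (nat_lit 1062)) (.ret (nat_lit 1060)))) (.ret (nat_lit 0))) (.ret (nat_lit 1059))))) (.ret (nat_lit 307))
noncomputable def s4186 : FP := .f1 w290 (nat_lit 0xfc254000000000000000000) (nat_lit 0x3dabc00000000000000000) (nat_lit 6) (.f1 w25 (nat_lit 0x1fdc000000000000000000) (nat_lit 0xfe023c00000000000000000) (nat_lit 6) (.f1 w154 (nat_lit 0x1fdc000000000000000000) (nat_lit 0xfe023c00000000000000000) (nat_lit 6) (.f1 w4 (nat_lit 0x1fdc000000000000000000) (nat_lit 0xfe023c00000000000000000) (nat_lit 6) (.ret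
  (nat_lit 342)) (.ret (nat_lit 339))) (.ret (nat_lit 339))) (.ret (nat_lit 339))) (.f1 w18 (nat_lit 0x1fdc000000000000000000) (nat_lit 0xfe023c00000000000000000) (nat_lit 6) (.f1 w289 (nat_lit 0x1fdc000000000000000000) (nat_lit 0xfe023c00000000000000000) (nat_lit 6) (.f1 w29 (nat_lit 0xfe023c00000000000000000) (nat_lit 0x1fdc000000000000000000) (nat_lit 6) (.ret (nat_lit 339)) (.ret (nat_lit 342))) (.ret (nat_lit 339))) (.ret (nat_lit 339)))
noncomputable def s4199 : FP := .f1 w4 (nat_lit 0x3fff400000000000000000) (nat_lit 0xfc000800000000000000000) (nat_lit 8) (.v1 w9 (nat_lit 0x3e0000000000000000) (nat_lit 0x10000000000000000) (nat_lit 8) (.v1 w4 (nat_lit 0x3e0000000000000000) (nat_lit 0x10000000000000000) (nat_lit 8) (.f1 w4 (nat_lit 0xfe023c00000000000000000) (nat_lit 0x1fdc000000000000000000) (nat_lit 8) s3963 (.ret (nat_lit 0)))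
  (.ret (nat_lit 0))) s4001) (.f0 (nat_lit 0x3ffec00000000000000000) (nat_lit 0xfc001000000000000000000) (nat_lit 8) (.v1 w9 (nat_lit 0x3e0000000000000000) (nat_lit 0x10000000000000000) (nat_lit 8) s4108 s4142) (.v1 w9 (nat_lit 0x3e0000000000000000) (nat_lit 0x10000000000000000) (nat_lit 6) (.v1 w4 (nat_lit 0x10000000000000000) (nat_lit 0x3e0000000000000000) (nat_lit 6) (.v0 (nat_lit 0x3d0000000000000000)
  (nat_lit 0x20000000000000000) (nat_lit 6) s4176 (.ret (nat_lit 0))) (.v1 w4 (nat_lit 0x3d0000000000000000) (nat_lit 0x20000000000000000) (nat_lit 6) (.f0 (nat_lit 0x3ffc000000000000000000) (nat_lit 0xfc003c00000000000000000) (nat_lit 6) (.f0 (nat_lit 0xfc000800000000000000000) (nat_lit 0x3fff400000000000000000) (nat_lit 6) (.f0 (nat_lit 0x3ffec00000000000000000) (nat_lit 0xfc001000000000000000000)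
  (nat_lit 6) (.ret (nat_lit 0)) (.v1 w283 (nat_lit 0x3e0000000000000000) (nat_lit 0x10000000000000000) (nat_lit 6) (.f1 w282 (nat_lit 0x1fdc000000000000000000) (nat_lit 0xfe023c00000000000000000) (nat_lit 6) s3759 s3752) (.ret (nat_lit 0)))) (.ret (nat_lit 0))) (.f1 w284 (nat_lit 0xfc254000000000000000000) (nat_lit 0x3dabc00000000000000000) (nat_lit 4) (.f0 (nat_lit 0xfc088000000000000000000) (nat_lit 0x3f77c00000000000000000)
  (nat_lit 4) (.f1 w80 (nat_lit 0xfe023c00000000000000000) (nat_lit 0x1fdc000000000000000000) (nat_lit 4) (.ret (nat_lit 212)) (.ret (nat_lit 0))) (.ret (nat_lit 211))) (.ret (nat_lit 211)))) (.ret (nat_lit 0)))) (.v0 (nat_lit 0x3d0000000000000000) (nat_lit 0x20000000000000000) (nat_lit 6) (.v1 w25 (nat_lit 0x3e0000000000000000) (nat_lit 0x10000000000000000) (nat_lit 6) (.f1 w27 (nat_lit 0x3ffc000000000000000000)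
  (nat_lit 0xfc003c00000000000000000) (nat_lit 6) (.f0 (nat_lit 0xfc000800000000000000000) (nat_lit 0x3fff400000000000000000) (nat_lit 6) (.f0 (nat_lit 0x3ffec00000000000000000) (nat_lit 0xfc001000000000000000000) (nat_lit 6) (.v1 w35 (nat_lit 0x3e0000000000000000) (nat_lit 0x10000000000000000) (nat_lit 6) s4186 s4186) (.f1 w291 (nat_lit 0xfc254000000000000000000) (nat_lit 0x3dabc00000000000000000) (nat_lit 4) s4016 (.ret (nat_lit 1059)))) (.ret (nat_lit 339))) (.f1 w222 (nat_lit 0xfc254000000000000000000) (nat_lit 0x3dabc00000000000000000) (nat_lit 4) (.f0 (nat_lit 0x3f77c00000000000000000) (nat_lit 0xfc088000000000000000000) (nat_lit 4) (.ret (nat_lit 339)) (.ret (nat_lit 340))) (.ret (nat_lit 339)))) (.ret (nat_lit 0))) (.ret (nat_lit 0)))))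
noncomputable def s4205 : FP := .f0 (nat_lit 0xfc254000000000000000000) (nat_lit 0x3dabc00000000000000000) (nat_lit 7) (.ret (nat_lit 1078)) (.ret (nat_lit 1079))
noncomputable def s4206 : FP := .f1 w4 (nat_lit 0xfe023c00000000000000000) (nat_lit 0x1fdc000000000000000000) (nat_lit 8) s4205 (.ret (nat_lit 1080))
noncomputable def s4208 : FP := .f1 w52 (nat_lit 0x1fdc000000000000000000) (nat_lit 0xfe023c00000000000000000) (nat_lit 8) (.f1 w18 (nat_lit 0x1fdc000000000000000000) (nat_lit 0xfe023c00000000000000000) (nat_lit 8) s4206 s4205) (.ret (nat_lit 1078))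
noncomputable def s4218 : FP := .f1 w4 (nat_lit 0xfe023c00000000000000000) (nat_lit 0x1fdc000000000000000000) (nat_lit 7) (.ret (nat_lit 1078)) (.ret (nat_lit 1079))
noncomputable def s4222 : FP := .f1 w18 (nat_lit 0xfe023c00000000000000000) (nat_lit 0x1fdc000000000000000000) (nat_lit 7) (.ret (nat_lit 1078)) s4218
noncomputable def s4232 : FP := .f1 w4 (nat_lit 0xfe023c00000000000000000) (nat_lit 0x1fdc000000000000000000) (nat_lit 6) (.ret (nat_lit 1075)) (.ret (nat_lit 1078))
noncomputable def s4234 : FP := .f1 w18 (nat_lit 0xfe023c00000000000000000) (nat_lit 0x1fdc000000000000000000) (nat_lit 6) (.ret (nat_lit 1075)) (.f1 w4 (nat_lit 0xfe023c00000000000000000) (nat_lit 0x1fdc000000000000000000) (nat_lit 6) (.ret (nat_lit 1075)) s4232)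
noncomputable def s4240 : FP := .f1 w21 (nat_lit 0xfe023c00000000000000000) (nat_lit 0x1fdc000000000000000000) (nat_lit 6) (.ret (nat_lit 1075)) (.ret (nat_lit 1078))
noncomputable def s4258 : FP := .f1 w27 (nat_lit 0xfc000800000000000000000) (nat_lit 0x3fff400000000000000000) (nat_lit 8) (.f0 (nat_lit 0x3ffec00000000000000000) (nat_lit 0xfc001000000000000000000) (nat_lit 7) (.v1 w9 (nat_lit 0x3e0000000000000000) (nat_lit 0x10000000000000000) (nat_lit 7) (.v1 w4 (nat_lit 0x3e0000000000000000) (nat_lit 0x10000000000000000) (nat_lit 7) (.f1 w7 (nat_lit 0xfc003c00000000000000000)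
  (nat_lit 0x3ffc000000000000000000) (nat_lit 7) (.f1 w29 (nat_lit 0xfe023c00000000000000000) (nat_lit 0x1fdc000000000000000000) (nat_lit 7) (.f0 (nat_lit 0xfc254000000000000000000) (nat_lit 0x3dabc00000000000000000) (nat_lit 7) (.f1 w18 (nat_lit 0xfe000000000000000000000) (nat_lit 0x1fffc00000000000000000) (nat_lit 7) (.f0 (nat_lit 0xfc240000000000000000000) (nat_lit 0x3dbfc00000000000000000) (nat_lit 7)
  (.ret (nat_lit 1078)) (.f1 w24 (nat_lit 0x1fdc000000000000000000) (nat_lit 0xfe023c00000000000000000) (nat_lit 7) (.f1 w18 (nat_lit 0x1fdc000000000000000000) (nat_lit 0xfe023c00000000000000000) (nat_lit 7) (.f1 w24 (nat_lit 0xfe023c00000000000000000) (nat_lit 0x1fdc000000000000000000) (nat_lit 7) s4240 (.f1 w21 (nat_lit 0xfe023c00000000000000000) (nat_lit 0x1fdc000000000000000000) (nat_lit 7) (.ret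
  (nat_lit 1078)) (.ret (nat_lit 1079)))) s4232) (.f0 (nat_lit 0xfc254000000000000000000) (nat_lit 0x3dabc00000000000000000) (nat_lit 6) (.ret (nat_lit 1077)) (.ret (nat_lit 1078))))) (.f1 w24 (nat_lit 0x1fdc000000000000000000) (nat_lit 0xfe023c00000000000000000) (nat_lit 6) (.f1 w18 (nat_lit 0x1fdc000000000000000000) (nat_lit 0xfe023c00000000000000000) (nat_lit 6) (.f1 w24 (nat_lit 0xfe023c00000000000000000)
  (nat_lit 0x1fdc000000000000000000) (nat_lit 6) (.ret (nat_lit 1075)) s4240) (.ret (nat_lit 1075))) (.ret (nat_lit 1075)))) (.f1 w18 (nat_lit 0xfc240000000000000000000) (nat_lit 0x3dbfc00000000000000000) (nat_lit 6) (.f1 w24 (nat_lit 0x1fdc000000000000000000) (nat_lit 0xfe023c00000000000000000) (nat_lit 6) s4234 (.ret (nat_lit 1075))) (.f1 w24 (nat_lit 0x1fdc000000000000000000) (nat_lit 0xfe023c00000000000000000)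
  (nat_lit 6) s4234 (.f1 w62 (nat_lit 0xfe023c00000000000000000) (nat_lit 0x1fdc000000000000000000) (nat_lit 4) (.ret (nat_lit 1075)) (.ret (nat_lit 1076)))))) (.ret (nat_lit 0))) (.ret (nat_lit 0))) (.ret (nat_lit 0))) (.ret (nat_lit 0))) (.ret (nat_lit 0))) (.v1 w9 (nat_lit 0x3e0000000000000000) (nat_lit 0x10000000000000000) (nat_lit 8) (.v1 w4 (nat_lit 0x3e0000000000000000) (nat_lit 0x10000000000000000)
  (nat_lit 8) (.f1 w30 (nat_lit 0xfc003c00000000000000000) (nat_lit 0x3ffc000000000000000000) (nat_lit 8) (.f0 (nat_lit 0xfe000000000000000000000) (nat_lit 0x1fffc00000000000000000) (nat_lit 8) (.f1 w29 (nat_lit 0xfc254000000000000000000) (nat_lit 0x3dabc00000000000000000) (nat_lit 8) (.f1 w18 (nat_lit 0xfd000000000000000000000) (nat_lit 0x2fffc00000000000000000) (nat_lit 8) (.f1 w24 (nat_lit 0x1fdc000000000000000000)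
  (nat_lit 0xfe023c00000000000000000) (nat_lit 8) (.f1 w18 (nat_lit 0x1fdc000000000000000000) (nat_lit 0xfe023c00000000000000000) (nat_lit 8) s4206 (.ret (nat_lit 1078))) (.f0 (nat_lit 0xfc254000000000000000000) (nat_lit 0x3dabc00000000000000000) (nat_lit 7) (.ret (nat_lit 1078)) s4222)) (.f1 w24 (nat_lit 0x1fdc000000000000000000) (nat_lit 0xfe023c00000000000000000) (nat_lit 8) (.f1 w18 (nat_lit 0xfe023c00000000000000000)
  (nat_lit 0x1fdc000000000000000000) (nat_lit 8) s4218 (.f1 w4 (nat_lit 0xfe023c00000000000000000) (nat_lit 0x1fdc000000000000000000) (nat_lit 8) (.f0 (nat_lit 0xfc254000000000000000000) (nat_lit 0x3dabc00000000000000000) (nat_lit 7) (.f0 (nat_lit 0x2fffc00000000000000000) (nat_lit 0xfd000000000000000000000) (nat_lit 7) (.ret (nat_lit 1079)) (.ret (nat_lit 1078))) (.ret (nat_lit 1079))) (.ret (nat_lit 1080))))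
  (.ret (nat_lit 1078)))) (.ret (nat_lit 1078))) (.f1 w29 (nat_lit 0xfc254000000000000000000) (nat_lit 0x3dabc00000000000000000) (nat_lit 8) (.f1 w267 (nat_lit 0x1fdc000000000000000000) (nat_lit 0xfe023c00000000000000000) (nat_lit 8) (.f1 w4 (nat_lit 0xfe023c00000000000000000) (nat_lit 0x1fdc000000000000000000) (nat_lit 8) (.f0 (nat_lit 0xfc254000000000000000000) (nat_lit 0x3dabc00000000000000000) (nat_lit 8) (.f1 w52 (nat_lit 0x1fdc000000000000000000) (nat_lit 0xfe023c00000000000000000) (nat_lit 7) (.ret (nat_lit 1079)) (.ret (nat_lit 1078))) s4208) s4208) (.f1 w292 (nat_lit 0x1fdc000000000000000000) (nat_lit 0xfe023c00000000000000000) (nat_lit 7) (.ret (nat_lit 1079)) (.ret (nat_lit 1078)))) (.ret (nat_lit 1078)))) (.ret (nat_lit 0))) (.ret (nat_lit 0))) (.ret (nat_lit 0)))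
noncomputable def s4288 : FP := .f1 w27 (nat_lit 0x3fff400000000000000000) (nat_lit 0xfc000800000000000000000) (nat_lit 8) (.v1 w9 (nat_lit 0x3e0000000000000000) (nat_lit 0x10000000000000000) (nat_lit 8) (.v1 w4 (nat_lit 0x3e0000000000000000) (nat_lit 0x10000000000000000) (nat_lit 8) (.v1 w173 (nat_lit 0x370000000000000000) (nat_lit 0x80000000000000000) (nat_lit 8) (.f1 w1 (nat_lit 0xfc000400000000000000000)
  (nat_lit 0x3fff800000000000000000) (nat_lit 8) (.f1 w75 (nat_lit 0x3fff800000000000000000) (nat_lit 0xfc000400000000000000000) (nat_lit 8) (.f1 w29 (nat_lit 0xfc254000000000000000000) (nat_lit 0x3dabc00000000000000000) (nat_lit 8) (.f1 w62 (nat_lit 0x1fdc000000000000000000) (nat_lit 0xfe023c00000000000000000) (nat_lit 8) s3804 s3817) (.f1 w65 (nat_lit 0xfe023c00000000000000000) (nat_lit 0x1fdc000000000000000000)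
  (nat_lit 6) s3761 s3744)) (.ret (nat_lit 1062))) (.f1 w293 (nat_lit 0x3dabc00000000000000000) (nat_lit 0xfc254000000000000000000) (nat_lit 8) (.f1 w218 (nat_lit 0x1fdc000000000000000000) (nat_lit 0xfe023c00000000000000000) (nat_lit 6) (.ret (nat_lit 1062)) s3801) (.f1 w18 (nat_lit 0x1fdc000000000000000000) (nat_lit 0xfe023c00000000000000000) (nat_lit 8) (.f1 w24 (nat_lit 0xfe023c00000000000000000)
  (nat_lit 0x1fdc000000000000000000) (nat_lit 8) s3817 s3804) (.ret (nat_lit 1059))))) (.ret (nat_lit 1062))) (.ret (nat_lit 0))) (.ret (nat_lit 0))) (.f0 (nat_lit 0x3ffec00000000000000000) (nat_lit 0xfc001000000000000000000) (nat_lit 6) (.v1 w9 (nat_lit 0x3e0000000000000000) (nat_lit 0x10000000000000000) (nat_lit 6) (.v1 w4 (nat_lit 0x3e0000000000000000) (nat_lit 0x10000000000000000) (nat_lit 6) (.v1 w174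
  (nat_lit 0x370000000000000000) (nat_lit 0x80000000000000000) (nat_lit 6) (.f1 w1 (nat_lit 0x3fff800000000000000000) (nat_lit 0xfc000400000000000000000) (nat_lit 6) (.f1 w294 (nat_lit 0xfe023c00000000000000000) (nat_lit 0x1fdc000000000000000000) (nat_lit 6) (.f0 (nat_lit 0x3dabc00000000000000000) (nat_lit 0xfc254000000000000000000) (nat_lit 6) (.f1 w18 (nat_lit 0x1fdc000000000000000000) (nat_lit 0xfe023c00000000000000000)
  (nat_lit 6) (.f1 w24 (nat_lit 0x1fdc000000000000000000) (nat_lit 0xfe023c00000000000000000) (nat_lit 6) s4032 s4036) (.ret (nat_lit 1059))) (.f1 w111 (nat_lit 0x1fdc000000000000000000) (nat_lit 0xfe023c00000000000000000) (nat_lit 6) s4138 (.ret (nat_lit 1060)))) (.ret (nat_lit 0))) (.f1 w75 (nat_lit 0x3fff800000000000000000) (nat_lit 0xfc000400000000000000000) (nat_lit 6) (.f1 w196 (nat_lit 0xfe023c00000000000000000)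
  (nat_lit 0x1fdc000000000000000000) (nat_lit 6) (.f0 (nat_lit 0xfc254000000000000000000) (nat_lit 0x3dabc00000000000000000) (nat_lit 6) (.f0 (nat_lit 0xfc088000000000000000000) (nat_lit 0x3f77c00000000000000000) (nat_lit 6) (.f1 w296 (nat_lit 0xfe023c00000000000000000) (nat_lit 0x1fdc000000000000000000) (nat_lit 6) s4068 s4066) (.f1 w295 (nat_lit 0xfe023c00000000000000000) (nat_lit 0x1fdc000000000000000000) (nat_lit 6) s4049 (.ret (nat_lit 1062)))) (.f1 w65 (nat_lit 0x1fdc000000000000000000) (nat_lit 0xfe023c00000000000000000) (nat_lit 6) s4037 s4038)) (.ret (nat_lit 0))) (.ret (nat_lit 0)))) (.ret (nat_lit 0))) (.ret (nat_lit 0))) (.ret (nat_lit 0))) (.ret (nat_lit 0)))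
noncomputable def s4293 : FP := .f0 (nat_lit 0xfc088000000000000000000) (nat_lit 0x3f77c00000000000000000) (nat_lit 3) (.f1 w80 (nat_lit 0xfe023c00000000000000000) (nat_lit 0x1fdc000000000000000000) (nat_lit 3) (.ret (nat_lit 1059)) (.ret (nat_lit 0))) (.ret (nat_lit 1059))
noncomputable def s4294 : FP := .f1 w24 (nat_lit 0xfc254000000000000000000) (nat_lit 0x3dabc00000000000000000) (nat_lit 3) s4293 (.ret (nat_lit 1057))
noncomputable def s4295 : FP := .f1 w4 (nat_lit 0xfc254000000000000000000) (nat_lit 0x3dabc00000000000000000) (nat_lit 3) s4293 (.ret (nat_lit 1057))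
noncomputable def s4297 : FP := .f1 w4 (nat_lit 0xfd000000000000000000000) (nat_lit 0x2fffc00000000000000000) (nat_lit 4) (.f1 w4 (nat_lit 0xfe023c00000000000000000) (nat_lit 0x1fdc000000000000000000) (nat_lit 4) s4017 (.ret (nat_lit 0))) s4295
noncomputable def s4315 : FP := .f1 w24 (nat_lit 0xfe023c00000000000000000) (nat_lit 0x1fdc000000000000000000) (nat_lit 3) s4008 (.ret (nat_lit 0))
noncomputable def s4326 : FP := .f1 w18 (nat_lit 0xfe023c00000000000000000) (nat_lit 0x1fdc000000000000000000) (nat_lit 6) (.ret (nat_lit 1059)) s4096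
noncomputable def s4330 : FP := .f1 w18 (nat_lit 0x1fdc000000000000000000) (nat_lit 0xfe023c00000000000000000) (nat_lit 6) (.f1 w4 (nat_lit 0x1fdc000000000000000000) (nat_lit 0xfe023c00000000000000000) (nat_lit 6) (.f1 w4 (nat_lit 0x1fdc000000000000000000) (nat_lit 0xfe023c00000000000000000) (nat_lit 6) (.f1 w4 (nat_lit 0x1fdc000000000000000000) (nat_lit 0xfe023c00000000000000000) (nat_lit 6) s4326 (.ret (nat_lit 1059))) (.ret (nat_lit 1059))) (.ret (nat_lit 1059))) (.ret (nat_lit 1059))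
noncomputable def s4334 : FP := .f1 w25 (nat_lit 0x1fdc000000000000000000) (nat_lit 0xfe023c00000000000000000) (nat_lit 6) (.f1 w18 (nat_lit 0xfe023c00000000000000000) (nat_lit 0x1fdc000000000000000000) (nat_lit 6) (.f1 w4 (nat_lit 0xfe023c00000000000000000) (nat_lit 0x1fdc000000000000000000) (nat_lit 5) (.ret (nat_lit 1059)) (.f1 w21 (nat_lit 0xfc254000000000000000000) (nat_lit 0x3dabc00000000000000000) (nat_lit 5) (.ret (nat_lit 1059)) (.ret (nat_lit 1061)))) s3758) (.ret (nat_lit 1059))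
noncomputable def s4341 : FP := .f1 w18 (nat_lit 0x1fdc000000000000000000) (nat_lit 0xfe023c00000000000000000) (nat_lit 6) s4334 (.f0 (nat_lit 0xfc254000000000000000000) (nat_lit 0x3dabc00000000000000000) (nat_lit 6) (.f0 (nat_lit 0xfc088000000000000000000) (nat_lit 0x3f77c00000000000000000) (nat_lit 6) (.f1 w24 (nat_lit 0xfe023c00000000000000000) (nat_lit 0x1fdc000000000000000000) (nat_lit 4) (.ret (nat_lit 1059)) s3858) (.f1 w4 (nat_lit 0xfe023c00000000000000000) (nat_lit 0x1fdc000000000000000000) (nat_lit 6) (.ret (nat_lit 1059)) (.f1 w24 (nat_lit 0x1fdc000000000000000000) (nat_lit 0xfe023c00000000000000000) (nat_lit 6) (.f1 w18 (nat_lit 0xfe023c00000000000000000) (nat_lit 0x1fdc000000000000000000) (nat_lit 6) s3847 s3724) s3759))) s4334)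
noncomputable def s4345 : FP := .f1 w25 (nat_lit 0x1fdc000000000000000000) (nat_lit 0xfe023c00000000000000000) (nat_lit 6) (.f1 w18 (nat_lit 0xfe023c00000000000000000) (nat_lit 0x1fdc000000000000000000) (nat_lit 6) (.f1 w4 (nat_lit 0x1fdc000000000000000000) (nat_lit 0xfe023c00000000000000000) (nat_lit 5) (.f1 w21 (nat_lit 0xfc254000000000000000000) (nat_lit 0x3dabc00000000000000000) (nat_lit 5) (.ret (nat_lit 1060)) (.ret (nat_lit 1061))) (.ret (nat_lit 1060))) s3421) (.ret (nat_lit 1060))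
noncomputable def s4348 : FP := .f0 (nat_lit 0xfc088000000000000000000) (nat_lit 0x3f77c00000000000000000) (nat_lit 6) (.f1 w18 (nat_lit 0x1fdc000000000000000000) (nat_lit 0xfe023c00000000000000000) (nat_lit 6) s4345 (.f0 (nat_lit 0xfc254000000000000000000) (nat_lit 0x3dabc00000000000000000) (nat_lit 6) (.ret (nat_lit 1060)) s4345)) s4341
noncomputable def s4354 : FP := .f1 w4 (nat_lit 0xfd000000000000000000000) (nat_lit 0x2fffc00000000000000000) (nat_lit 6) (.f1 w4 (nat_lit 0xfd000000000000000000000) (nat_lit 0x2fffc00000000000000000) (nat_lit 6) (.f1 w30 (nat_lit 0xfd000000000000000000000) (nat_lit 0x2fffc00000000000000000) (nat_lit 6) (.f1 w4 (nat_lit 0xfd000000000000000000000) (nat_lit 0x2fffc00000000000000000) (nat_lit 6) (.f1 w4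
  (nat_lit 0xfe023c00000000000000000) (nat_lit 0x1fdc000000000000000000) (nat_lit 6) (.f0 (nat_lit 0xfc254000000000000000000) (nat_lit 0x3dabc00000000000000000) (nat_lit 6) s4348 s4330) (.ret (nat_lit 0))) (.f1 w21 (nat_lit 0x3fff400000000000000000) (nat_lit 0xfc000800000000000000000) (nat_lit 5) (.v1 w16 (nat_lit 0x20000000000000000) (nat_lit 0x3d0000000000000000) (nat_lit 5) (.f1 w280 (nat_lit 0xfe023c00000000000000000)
  (nat_lit 0x1fdc000000000000000000) (nat_lit 3) s4008 (.ret (nat_lit 0))) (.v1 w35 (nat_lit 0x3e0000000000000000) (nat_lit 0x10000000000000000) (nat_lit 5) (.f1 w37 (nat_lit 0xfe023c00000000000000000) (nat_lit 0x1fdc000000000000000000) (nat_lit 5) (.f1 w279 (nat_lit 0xfe023c00000000000000000) (nat_lit 0x1fdc000000000000000000) (nat_lit 3) (.ret (nat_lit 1059)) (.ret (nat_lit 0))) (.f1 w264 (nat_lit 0xfc254000000000000000000)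
  (nat_lit 0x3dabc00000000000000000) (nat_lit 5) (.f0 (nat_lit 0x3f77c00000000000000000) (nat_lit 0xfc088000000000000000000) (nat_lit 5) (.f1 w65 (nat_lit 0xfe023c00000000000000000) (nat_lit 0x1fdc000000000000000000) (nat_lit 5) (.ret (nat_lit 1059)) (.ret (nat_lit 1061))) (.f0 (nat_lit 0xfe023c00000000000000000) (nat_lit 0x1fdc000000000000000000) (nat_lit 5) (.ret (nat_lit 1061)) (.ret (nat_lit 0))))
  (.ret (nat_lit 1061)))) (.ret (nat_lit 0)))) s4315)) s4315) (.f1 w21 (nat_lit 0x3fff400000000000000000) (nat_lit 0xfc000800000000000000000) (nat_lit 5) (.v1 w16 (nat_lit 0x20000000000000000) (nat_lit 0x3d0000000000000000) (nat_lit 5) (.f1 w271 (nat_lit 0xfd000000000000000000000) (nat_lit 0x2fffc00000000000000000) (nat_lit 4) s4297 s4294) (.v1 w35 (nat_lit 0x3e0000000000000000) (nat_lit 0x10000000000000000)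
  (nat_lit 5) (.f1 w37 (nat_lit 0x1fdc000000000000000000) (nat_lit 0xfe023c00000000000000000) (nat_lit 5) (.f1 w298 (nat_lit 0x1fdc000000000000000000) (nat_lit 0xfe023c00000000000000000) (nat_lit 5) s3882 (.ret (nat_lit 1059))) (.ret (nat_lit 1058))) (.ret (nat_lit 0)))) (.f1 w7 (nat_lit 0xfd000000000000000000000) (nat_lit 0x2fffc00000000000000000) (nat_lit 4) (.f1 w4 (nat_lit 0xfd000000000000000000000)
  (nat_lit 0x2fffc00000000000000000) (nat_lit 4) (.f1 w4 (nat_lit 0xfe023c00000000000000000) (nat_lit 0x1fdc000000000000000000) (nat_lit 4) (.f0 (nat_lit 0xfc254000000000000000000) (nat_lit 0x3dabc00000000000000000) (nat_lit 4) s4016 s4020) (.ret (nat_lit 0))) s4295) s4294))) (.f1 w4 (nat_lit 0xfd000000000000000000000) (nat_lit 0x2fffc00000000000000000) (nat_lit 4) (.f1 w30 (nat_lit 0xfd000000000000000000000) (nat_lit 0x2fffc00000000000000000) (nat_lit 4) s4027 s4294) (.f1 w30 (nat_lit 0xfd000000000000000000000) (nat_lit 0x2fffc00000000000000000) (nat_lit 4)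 s4297 s4294))
noncomputable def s4389 : FP := .v0 (nat_lit 0x3d0000000000000000) (nat_lit 0x20000000000000000) (nat_lit 7) (.f0 (nat_lit 0xfc003c00000000000000000) (nat_lit 0x3ffc000000000000000000) (nat_lit 7) (.f1 w24 (nat_lit 0xfe023c00000000000000000) (nat_lit 0x1fdc000000000000000000) (nat_lit 7) (.f0 (nat_lit 0x3dabc00000000000000000) (nat_lit 0xfc254000000000000000000) (nat_lit 7) (.f1 w18 (nat_lit 0x1fdc000000000000000000)
  (nat_lit 0xfe023c00000000000000000) (nat_lit 6) (.f1 w4 (nat_lit 0x1fdc000000000000000000) (nat_lit 0xfe023c00000000000000000) (nat_lit 6) (.f1 w4 (nat_lit 0xfe023c00000000000000000) (nat_lit 0x1fdc000000000000000000) (nat_lit 6) (.ret (nat_lit 211)) (.f1 w4 (nat_lit 0xfe023c00000000000000000) (nat_lit 0x1fdc000000000000000000) (nat_lit 6) (.f0 (nat_lit 0xfc254000000000000000000) (nat_lit 0x3dabc00000000000000000)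
  (nat_lit 4) (.ret (nat_lit 211)) (.f1 w18 (nat_lit 0x3dbfc00000000000000000) (nat_lit 0xfc240000000000000000000) (nat_lit 4) (.ret (nat_lit 212)) (.ret (nat_lit 211)))) (.ret (nat_lit 214)))) (.ret (nat_lit 211))) (.ret (nat_lit 211))) (.f1 w18 (nat_lit 0x1fdc000000000000000000) (nat_lit 0xfe023c00000000000000000) (nat_lit 7) (.f1 w4 (nat_lit 0x1fdc000000000000000000) (nat_lit 0xfe023c00000000000000000)
  (nat_lit 7) (.f1 w4 (nat_lit 0xfe023c00000000000000000) (nat_lit 0x1fdc000000000000000000) (nat_lit 7) (.ret (nat_lit 214)) (.f1 w4 (nat_lit 0xfe023c00000000000000000) (nat_lit 0x1fdc000000000000000000) (nat_lit 7) (.f0 (nat_lit 0xfc254000000000000000000) (nat_lit 0x3dabc00000000000000000) (nat_lit 6) (.f1 w18 (nat_lit 0xfc250000000000000000000) (nat_lit 0x3dafc00000000000000000) (nat_lit 5) (.ret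
  (nat_lit 211)) (.ret (nat_lit 213))) (.ret (nat_lit 214))) s3973)) (.ret (nat_lit 214))) (.ret (nat_lit 214)))) (.ret (nat_lit 0))) (.ret (nat_lit 0))) (.v1 w1 (nat_lit 0x370000000000000000) (nat_lit 0x80000000000000000) (nat_lit 6) (.f1 w1 (nat_lit 0xfc000400000000000000000) (nat_lit 0x3fff800000000000000000) (nat_lit 6) (.f1 w75 (nat_lit 0x3fff800000000000000000) (nat_lit 0xfc000400000000000000000)
  (nat_lit 6) (.f1 w301 (nat_lit 0xfe023c00000000000000000) (nat_lit 0x1fdc000000000000000000) (nat_lit 6) (.f0 (nat_lit 0xfc254000000000000000000) (nat_lit 0x3dabc00000000000000000) (nat_lit 6) (.f0 (nat_lit 0xfc088000000000000000000) (nat_lit 0x3f77c00000000000000000) (nat_lit 6) (.f1 w208 (nat_lit 0x1fdc000000000000000000) (nat_lit 0xfe023c00000000000000000) (nat_lit 6) (.f1 w30 (nat_lit 0x1fdc000000000000000000)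
  (nat_lit 0xfe023c00000000000000000) (nat_lit 6) s4069 s4071) (.ret (nat_lit 1060))) (.f1 w300 (nat_lit 0x1fdc000000000000000000) (nat_lit 0xfe023c00000000000000000) (nat_lit 6) (.ret (nat_lit 1062)) s3723)) (.f1 w18 (nat_lit 0x1fdc000000000000000000) (nat_lit 0xfe023c00000000000000000) (nat_lit 6) (.f1 w25 (nat_lit 0x1fdc000000000000000000) (nat_lit 0xfe023c00000000000000000) (nat_lit 6) (.f1 w65
  (nat_lit 0xfe023c00000000000000000) (nat_lit 0x1fdc000000000000000000) (nat_lit 6) s3752 (.ret (nat_lit 1062))) (.ret (nat_lit 1059))) (.ret (nat_lit 1059)))) (.ret (nat_lit 0))) (.ret (nat_lit 0))) (.f1 w299 (nat_lit 0xfe023c00000000000000000) (nat_lit 0x1fdc000000000000000000) (nat_lit 6) (.f0 (nat_lit 0x3dabc00000000000000000) (nat_lit 0xfc254000000000000000000) (nat_lit 6) (.f1 w18 (nat_lit 0xfe023c00000000000000000) (nat_lit 0x1fdc000000000000000000) (nat_lit 6) (.f1 w25 (nat_lit 0x1fdc000000000000000000) (nat_lit 0xfe023c00000000000000000) (nat_lit 3) (.ret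 (nat_lit 1059)) s3752) (.f1 w24 (nat_lit 0x1fdc000000000000000000) (nat_lit 0xfe023c00000000000000000) (nat_lit 6) s4096 (.ret (nat_lit 1059)))) (.ret (nat_lit 1062))) (.ret (nat_lit 0)))) (.ret (nat_lit 0)))
noncomputable def s4394 : FP := .f1 w4 (nat_lit 0xfc254000000000000000000) (nat_lit 0x3dabc00000000000000000) (nat_lit 6) (.ret (nat_lit 307)) (.ret (nat_lit 310))
noncomputable def s4401 : FP := .f0 (nat_lit 0x2fffc00000000000000000) (nat_lit 0xfd000000000000000000000) (nat_lit 6) (.ret (nat_lit 307)) (.ret (nat_lit 310))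
noncomputable def s4403 : FP := .f1 w63 (nat_lit 0x1fdc000000000000000000) (nat_lit 0xfe023c00000000000000000) (nat_lit 6) (.ret (nat_lit 310)) (.ret (nat_lit 307))
noncomputable def s4404 : FP := .f1 w44 (nat_lit 0x1fdc000000000000000000) (nat_lit 0xfe023c00000000000000000) (nat_lit 7) (.f1 w63 (nat_lit 0x1fdc000000000000000000) (nat_lit 0xfe023c00000000000000000) (nat_lit 7) (.ret (nat_lit 311)) s4401) s4403
noncomputable def s4413 : FP := .f1 w37 (nat_lit 0x1fdc000000000000000000) (nat_lit 0xfe023c00000000000000000) (nat_lit 8) s4118 (.ret (nat_lit 310))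
noncomputable def s4414 : FP := .f0 (nat_lit 0xfd000000000000000000000) (nat_lit 0x2fffc00000000000000000) (nat_lit 6) (.ret (nat_lit 310)) (.ret (nat_lit 308))
noncomputable def s4420 : FP := .f1 w44 (nat_lit 0x1fdc000000000000000000) (nat_lit 0xfe023c00000000000000000) (nat_lit 6) (.f1 w63 (nat_lit 0x1fdc000000000000000000) (nat_lit 0xfe023c00000000000000000) (nat_lit 6) (.ret (nat_lit 310)) s4414) (.ret (nat_lit 308))
noncomputable def s4439 : FP := .f0 (nat_lit 0x3fff400000000000000000) (nat_lit 0xfc000800000000000000000) (nat_lit 8) (.f1 w39 (nat_lit 0xfe023c00000000000000000) (nat_lit 0x1fdc000000000000000000) (nat_lit 8) (.f0 (nat_lit 0x3dabc00000000000000000) (nat_lit 0xfc254000000000000000000) (nat_lit 8) (.f1 w18 (nat_lit 0x1fdc000000000000000000) (nat_lit 0xfe023c00000000000000000) (nat_lit 6) (.f1 w52 (nat_lit 0x1fdc000000000000000000)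
  (nat_lit 0xfe023c00000000000000000) (nat_lit 6) (.f1 w63 (nat_lit 0xfe023c00000000000000000) (nat_lit 0x1fdc000000000000000000) (nat_lit 6) (.f1 w37 (nat_lit 0x1fdc000000000000000000) (nat_lit 0xfe023c00000000000000000) (nat_lit 6) (.f1 w4 (nat_lit 0xfe023c00000000000000000) (nat_lit 0x1fdc000000000000000000) (nat_lit 6) (.ret (nat_lit 307)) s4394) (.ret (nat_lit 307))) (.ret (nat_lit 310))) (.f1 w63
  (nat_lit 0xfe023c00000000000000000) (nat_lit 0x1fdc000000000000000000) (nat_lit 6) (.ret (nat_lit 307)) s4161)) (.ret (nat_lit 307))) (.f0 (nat_lit 0xfc088000000000000000000) (nat_lit 0x3f77c00000000000000000) (nat_lit 8) (.f1 w18 (nat_lit 0x1fdc000000000000000000) (nat_lit 0xfe023c00000000000000000) (nat_lit 8) (.f1 w52 (nat_lit 0x1fdc000000000000000000) (nat_lit 0xfe023c00000000000000000) (nat_lit 8)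
  (.f1 w63 (nat_lit 0x1fdc000000000000000000) (nat_lit 0xfe023c00000000000000000) (nat_lit 8) s4413 s4414) (.f1 w63 (nat_lit 0x1fdc000000000000000000) (nat_lit 0xfe023c00000000000000000) (nat_lit 6) (.f1 w60 (nat_lit 0xfc254000000000000000000) (nat_lit 0x3dabc00000000000000000) (nat_lit 6) (.ret (nat_lit 308)) (.ret (nat_lit 310))) (.ret (nat_lit 308)))) (.f1 w4 (nat_lit 0xfe023c00000000000000000)
  (nat_lit 0x1fdc000000000000000000) (nat_lit 6) (.f0 (nat_lit 0xfc254000000000000000000) (nat_lit 0x3dabc00000000000000000) (nat_lit 6) (.ret (nat_lit 308)) s4420) s4420)) (.f1 w18 (nat_lit 0x1fdc000000000000000000) (nat_lit 0xfe023c00000000000000000) (nat_lit 7) (.f1 w4 (nat_lit 0xfe023c00000000000000000) (nat_lit 0x1fdc000000000000000000) (nat_lit 7) (.f0 (nat_lit 0xfc254000000000000000000) (nat_lit 0x3dabc00000000000000000)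
  (nat_lit 7) (.f1 w224 (nat_lit 0x1fdc000000000000000000) (nat_lit 0xfe023c00000000000000000) (nat_lit 6) (.ret (nat_lit 310)) (.ret (nat_lit 307))) s4404) s4404) (.f1 w4 (nat_lit 0xfe023c00000000000000000) (nat_lit 0x1fdc000000000000000000) (nat_lit 6) (.f0 (nat_lit 0xfc254000000000000000000) (nat_lit 0x3dabc00000000000000000) (nat_lit 6) (.ret (nat_lit 307)) (.f1 w44 (nat_lit 0x1fdc000000000000000000)
  (nat_lit 0xfe023c00000000000000000) (nat_lit 6) (.ret (nat_lit 310)) (.ret (nat_lit 307)))) (.f1 w44 (nat_lit 0x1fdc000000000000000000) (nat_lit 0xfe023c00000000000000000) (nat_lit 6) (.ret (nat_lit 310)) s4403))))) (.ret (nat_lit 0))) (.f0 (nat_lit 0x3ffec00000000000000000) (nat_lit 0xfc001000000000000000000) (nat_lit 6) (.v1 w14 (nat_lit 0x3e0000000000000000) (nat_lit 0x10000000000000000) (nat_lit 6)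
  (.f1 w304 (nat_lit 0x3dabc00000000000000000) (nat_lit 0xfc254000000000000000000) (nat_lit 6) (.f1 w303 (nat_lit 0x1fdc000000000000000000) (nat_lit 0xfe023c00000000000000000) (nat_lit 4) (.f1 w73 (nat_lit 0x1fdc000000000000000000) (nat_lit 0xfe023c00000000000000000) (nat_lit 4) (.f1 w302 (nat_lit 0xfe023c00000000000000000) (nat_lit 0x1fdc000000000000000000) (nat_lit 4) (.ret (nat_lit 307)) (.ret (nat_lit 308)))
  (.ret (nat_lit 307))) (.ret (nat_lit 307))) (.f0 (nat_lit 0x3f77c00000000000000000) (nat_lit 0xfc088000000000000000000) (nat_lit 6) (.f1 w303 (nat_lit 0x1fdc000000000000000000) (nat_lit 0xfe023c00000000000000000) (nat_lit 6) (.f1 w73 (nat_lit 0x1fdc000000000000000000) (nat_lit 0xfe023c00000000000000000) (nat_lit 6) (.ret (nat_lit 310)) (.ret (nat_lit 307))) (.ret (nat_lit 307))) (.f1 w303 (nat_lit 0x1fdc000000000000000000) (nat_lit 0xfe023c00000000000000000) (nat_lit 6) (.f1 w18 (nat_lit 0xfe023c00000000000000000) (nat_lit 0x1fdc000000000000000000)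 (nat_lit 6) (.ret (nat_lit 310)) (.ret (nat_lit 0))) (.f1 w18 (nat_lit 0xfe023c00000000000000000) (nat_lit 0x1fdc000000000000000000) (nat_lit 4) (.ret (nat_lit 308)) (.ret (nat_lit 0)))))) (.ret (nat_lit 0))) (.ret (nat_lit 0)))
noncomputable def s4458 : FP := .f0 (nat_lit 0x3ffec00000000000000000) (nat_lit 0xfc001000000000000000000) (nat_lit 8) (.v1 w9 (nat_lit 0x10000000000000000) (nat_lit 0x3e0000000000000000) (nat_lit 8) (.v0 (nat_lit 0x3d0000000000000000) (nat_lit 0x20000000000000000) (nat_lit 8) (.f0 (nat_lit 0x3ffc000000000000000000) (nat_lit 0xfc003c00000000000000000) (nat_lit 8) s4439 (.f1 w186 (nat_lit 0xfe023c00000000000000000)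
  (nat_lit 0x1fdc000000000000000000) (nat_lit 3) (.ret (nat_lit 307)) (.ret (nat_lit 0)))) (.ret (nat_lit 0))) (.v1 w4 (nat_lit 0x20000000000000000) (nat_lit 0x3d0000000000000000) (nat_lit 3) (.ret (nat_lit 0)) (.f0 (nat_lit 0xfc003c00000000000000000) (nat_lit 0x3ffc000000000000000000) (nat_lit 3) (.f1 w301 (nat_lit 0xfe023c00000000000000000) (nat_lit 0x1fdc000000000000000000) (nat_lit 3) (.ret (nat_lit 211))
  (.ret (nat_lit 0))) (.ret (nat_lit 0))))) (.v1 w9 (nat_lit 0x3e0000000000000000) (nat_lit 0x10000000000000000) (nat_lit 4) (.v1 w4 (nat_lit 0x3d0000000000000000) (nat_lit 0x20000000000000000) (nat_lit 4) (.f0 (nat_lit 0x3fff400000000000000000) (nat_lit 0xfc000800000000000000000) (nat_lit 4) (.v1 w9 (nat_lit 0x3e0000000000000000) (nat_lit 0x10000000000000000) (nat_lit 4) (.v1 w4 (nat_lit 0x3e0000000000000000)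
  (nat_lit 0x10000000000000000) (nat_lit 4) (.f1 w305 (nat_lit 0xfe023c00000000000000000) (nat_lit 0x1fdc000000000000000000) (nat_lit 4) (.f0 (nat_lit 0xfc254000000000000000000) (nat_lit 0x3dabc00000000000000000) (nat_lit 4) (.f0 (nat_lit 0x3f77c00000000000000000) (nat_lit 0xfc088000000000000000000) (nat_lit 4) (.ret (nat_lit 307)) (.ret (nat_lit 308))) (.f1 w18 (nat_lit 0xfe023c00000000000000000)
  (nat_lit 0x1fdc000000000000000000) (nat_lit 3) (.ret (nat_lit 306)) (.ret (nat_lit 307)))) (.ret (nat_lit 0))) (.ret (nat_lit 0))) (.ret (nat_lit 0))) (.ret (nat_lit 0))) (.ret (nat_lit 0))) (.v0 (nat_lit 0x3d0000000000000000) (nat_lit 0x20000000000000000) (nat_lit 3) (.v1 w25 (nat_lit 0x3e0000000000000000) (nat_lit 0x10000000000000000) (nat_lit 3) (.f1 w27 (nat_lit 0x3fff400000000000000000) (nat_lit 0xfc000800000000000000000) (nat_lit 3) (.v1 w14 (nat_lit 0x3e0000000000000000) (nat_lit 0x10000000000000000) (nat_lit 3) (.f1 w306 (nat_lit 0xfe023c00000000000000000)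 (nat_lit 0x1fdc000000000000000000) (nat_lit 3) (.ret (nat_lit 339)) (.ret (nat_lit 0))) (.ret (nat_lit 0))) (.ret (nat_lit 0))) (.ret (nat_lit 0))) (.ret (nat_lit 0))))
noncomputable def s4486 : FP := .f1 w118 (nat_lit 0x3ffc000000000000000000) (nat_lit 0xfc003c00000000000000000) (nat_lit 8) (.f0 (nat_lit 0xfc000800000000000000000) (nat_lit 0x3fff400000000000000000) (nat_lit 8) (.f0 (nat_lit 0x3ffec00000000000000000) (nat_lit 0xfc001000000000000000000) (nat_lit 8) (.v1 w14 (nat_lit 0x3e0000000000000000) (nat_lit 0x10000000000000000) (nat_lit 8) (.f1 w224 (nat_lit 0xfc254000000000000000000)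
  (nat_lit 0x3dabc00000000000000000) (nat_lit 8) (.f1 w18 (nat_lit 0xfe023c00000000000000000) (nat_lit 0x1fdc000000000000000000) (nat_lit 8) (.f1 w25 (nat_lit 0x1fdc000000000000000000) (nat_lit 0xfe023c00000000000000000) (nat_lit 7) (.f1 w18 (nat_lit 0x1fdc000000000000000000) (nat_lit 0xfe023c00000000000000000) (nat_lit 7) (.f1 w4 (nat_lit 0xfe023c00000000000000000) (nat_lit 0x1fdc000000000000000000)
  (nat_lit 7) (.f1 w30 (nat_lit 0xfc254000000000000000000) (nat_lit 0x3dabc00000000000000000) (nat_lit 6) (.ret (nat_lit 1093)) (.ret (nat_lit 1094))) (.f1 w30 (nat_lit 0xfc254000000000000000000) (nat_lit 0x3dabc00000000000000000) (nat_lit 7) (.ret (nat_lit 1094)) (.ret (nat_lit 1095)))) (.ret (nat_lit 1094))) (.ret (nat_lit 1094))) (.f1 w67 (nat_lit 0x1fdc000000000000000000) (nat_lit 0xfe023c00000000000000000)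
  (nat_lit 8) (.f1 w18 (nat_lit 0xfe023c00000000000000000) (nat_lit 0x1fdc000000000000000000) (nat_lit 8) (.ret (nat_lit 1094)) (.f1 w4 (nat_lit 0xfe023c00000000000000000) (nat_lit 0x1fdc000000000000000000) (nat_lit 8) (.f0 (nat_lit 0xfc254000000000000000000) (nat_lit 0x3dabc00000000000000000) (nat_lit 7) (.ret (nat_lit 1094)) (.ret (nat_lit 1095))) (.ret (nat_lit 1096)))) (.f1 w18 (nat_lit 0xfe023c00000000000000000)
  (nat_lit 0x1fdc000000000000000000) (nat_lit 7) (.ret (nat_lit 1091)) (.f1 w4 (nat_lit 0xfe023c00000000000000000) (nat_lit 0x1fdc000000000000000000) (nat_lit 7) (.ret (nat_lit 1091)) (.ret (nat_lit 1095)))))) (.ret (nat_lit 1094))) (.ret (nat_lit 0))) (.ret (nat_lit 0))) (.f1 w307 (nat_lit 0xfc254000000000000000000) (nat_lit 0x3dabc00000000000000000) (nat_lit 7) (.f1 w18 (nat_lit 0x1fdc000000000000000000) (nat_lit 0xfe023c00000000000000000) (nat_lit 7) (.f1 w82 (nat_lit 0x1fdc000000000000000000) (nat_lit 0xfe023c00000000000000000) (nat_lit 7) (.ret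 (nat_lit 1095)) (.ret (nat_lit 1094))) (.ret (nat_lit 1094))) (.ret (nat_lit 1094)))) (.ret (nat_lit 1094))
noncomputable def s4508 : FP := .f1 w307 (nat_lit 0xfe023c00000000000000000) (nat_lit 0x1fdc000000000000000000) (nat_lit 6) (.f0 (nat_lit 0x3dabc00000000000000000) (nat_lit 0xfc254000000000000000000) (nat_lit 6) (.f1 w18 (nat_lit 0x1fdc000000000000000000) (nat_lit 0xfe023c00000000000000000) (nat_lit 6) (.ret (nat_lit 1094)) (.f0 (nat_lit 0xfc254000000000000000000) (nat_lit 0x3dabc00000000000000000)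
  (nat_lit 6) (.ret (nat_lit 1091)) (.f1 w18 (nat_lit 0x1fdc000000000000000000) (nat_lit 0xfe023c00000000000000000) (nat_lit 6) (.f1 w4 (nat_lit 0xfe023c00000000000000000) (nat_lit 0x1fdc000000000000000000) (nat_lit 6) (.ret (nat_lit 1091)) (.f1 w10 (nat_lit 0xfe023c00000000000000000) (nat_lit 0x1fdc000000000000000000) (nat_lit 6) (.ret (nat_lit 1091)) (.ret (nat_lit 1094)))) (.ret (nat_lit 1091)))))
  (.f0 (nat_lit 0xfc088000000000000000000) (nat_lit 0x3f77c00000000000000000) (nat_lit 6) (.f1 w18 (nat_lit 0x1fdc000000000000000000) (nat_lit 0xfe023c00000000000000000) (nat_lit 6) (.f1 w18 (nat_lit 0xfe023c00000000000000000) (nat_lit 0x1fdc000000000000000000) (nat_lit 6) (.f1 w44 (nat_lit 0x1fdc000000000000000000) (nat_lit 0xfe023c00000000000000000) (nat_lit 6) (.ret (nat_lit 1094)) (.ret (nat_lit 1092)))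
  (.f1 w44 (nat_lit 0x1fdc000000000000000000) (nat_lit 0xfe023c00000000000000000) (nat_lit 6) (.ret (nat_lit 1094)) (.f1 w62 (nat_lit 0xfe023c00000000000000000) (nat_lit 0x1fdc000000000000000000) (nat_lit 6) (.ret (nat_lit 1092)) (.ret (nat_lit 1094))))) (.f1 w25 (nat_lit 0x1fdc000000000000000000) (nat_lit 0xfe023c00000000000000000) (nat_lit 6) (.f1 w154 (nat_lit 0xfe023c00000000000000000) (nat_lit 0x1fdc000000000000000000)
  (nat_lit 6) (.ret (nat_lit 1092)) (.ret (nat_lit 1094))) (.ret (nat_lit 1092)))) (.f1 w18 (nat_lit 0x1fdc000000000000000000) (nat_lit 0xfe023c00000000000000000) (nat_lit 6) (.ret (nat_lit 1094)) (.f1 w25 (nat_lit 0x1fdc000000000000000000) (nat_lit 0xfe023c00000000000000000) (nat_lit 6) (.f1 w12 (nat_lit 0xfe023c00000000000000000) (nat_lit 0x1fdc000000000000000000) (nat_lit 6) (.f1 w27 (nat_lit 0xfd000000000000000000000) (nat_lit 0x2fffc00000000000000000) (nat_lit 5) (.ret (nat_lit 1093)) (.ret (nat_lit 1091))) (.f1 w27 (nat_lit 0xfd000000000000000000000)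 (nat_lit 0x2fffc00000000000000000) (nat_lit 6) (.ret (nat_lit 1094)) (.ret (nat_lit 1091)))) (.ret (nat_lit 1091)))))) (.ret (nat_lit 0))
noncomputable def s4529 : FP := .f1 w82 (nat_lit 0x1fdc000000000000000000) (nat_lit 0xfe023c00000000000000000) (nat_lit 6) (.ret (nat_lit 1062)) (.ret (nat_lit 1060))
noncomputable def s4536 : FP := .v0 (nat_lit 0x3d0000000000000000) (nat_lit 0x20000000000000000) (nat_lit 8) (.f1 w25 (nat_lit 0x3fff400000000000000000) (nat_lit 0xfc000800000000000000000) (nat_lit 8) (.v1 w14 (nat_lit 0x3e0000000000000000) (nat_lit 0x10000000000000000) (nat_lit 8) s4486 (.ret (nat_lit 0))) (.f0 (nat_lit 0x3ffec00000000000000000) (nat_lit 0xfc001000000000000000000) (nat_lit 6) (.v1 w14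
  (nat_lit 0x3e0000000000000000) (nat_lit 0x10000000000000000) (nat_lit 6) (.f1 w81 (nat_lit 0x3ffc000000000000000000) (nat_lit 0xfc003c00000000000000000) (nat_lit 6) (.f0 (nat_lit 0x3fff400000000000000000) (nat_lit 0xfc000800000000000000000) (nat_lit 6) s4508 (.f0 (nat_lit 0x3ffec00000000000000000) (nat_lit 0xfc001000000000000000000) (nat_lit 6) (.v1 w14 (nat_lit 0x3e0000000000000000) (nat_lit 0x10000000000000000)
  (nat_lit 6) (.f1 w309 (nat_lit 0xfc254000000000000000000) (nat_lit 0x3dabc00000000000000000) (nat_lit 6) (.f1 w18 (nat_lit 0x1fdc000000000000000000) (nat_lit 0xfe023c00000000000000000) (nat_lit 6) (.f1 w303 (nat_lit 0xfe023c00000000000000000) (nat_lit 0x1fdc000000000000000000) (nat_lit 6) (.f1 w308 (nat_lit 0x1fdc000000000000000000) (nat_lit 0xfe023c00000000000000000) (nat_lit 6) (.ret (nat_lit 1094))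
  (.ret (nat_lit 1092))) (.ret (nat_lit 0))) (.f1 w303 (nat_lit 0xfe023c00000000000000000) (nat_lit 0x1fdc000000000000000000) (nat_lit 3) (.ret (nat_lit 1091)) (.ret (nat_lit 0)))) (.f1 w18 (nat_lit 0x1fdc000000000000000000) (nat_lit 0xfe023c00000000000000000) (nat_lit 4) (.f1 w25 (nat_lit 0x1fdc000000000000000000) (nat_lit 0xfe023c00000000000000000) (nat_lit 4) (.f1 w158 (nat_lit 0x1fdc000000000000000000)
  (nat_lit 0xfe023c00000000000000000) (nat_lit 4) (.f1 w24 (nat_lit 0xfe023c00000000000000000) (nat_lit 0x1fdc000000000000000000) (nat_lit 4) (.ret (nat_lit 1091)) (.f1 w204 (nat_lit 0xfe023c00000000000000000) (nat_lit 0x1fdc000000000000000000) (nat_lit 4) (.ret (nat_lit 1091)) (.ret (nat_lit 1092)))) (.ret (nat_lit 1091))) (.ret (nat_lit 1091))) (.ret (nat_lit 1091)))) (.ret (nat_lit 0))) (.ret (nat_lit 0))))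
  (.f1 w196 (nat_lit 0xfe023c00000000000000000) (nat_lit 0x1fdc000000000000000000) (nat_lit 3) (.ret (nat_lit 1091)) (.ret (nat_lit 0)))) (.ret (nat_lit 0))) (.ret (nat_lit 0)))) (.f1 w25 (nat_lit 0x3fff400000000000000000) (nat_lit 0xfc000800000000000000000) (nat_lit 6) (.v1 w14 (nat_lit 0x3e0000000000000000) (nat_lit 0x10000000000000000) (nat_lit 6) (.f1 w310 (nat_lit 0xfc254000000000000000000) (nat_lit 0x3dabc00000000000000000)
  (nat_lit 6) (.f0 (nat_lit 0x3f77c00000000000000000) (nat_lit 0xfc088000000000000000000) (nat_lit 6) s4341 (.f1 w18 (nat_lit 0xfe023c00000000000000000) (nat_lit 0x1fdc000000000000000000) (nat_lit 6) (.f0 (nat_lit 0xfc254000000000000000000) (nat_lit 0x3dabc00000000000000000) (nat_lit 6) (.ret (nat_lit 1060)) s4529) s4529)) (.f1 w18 (nat_lit 0xfe023c00000000000000000) (nat_lit 0x1fdc000000000000000000) (nat_lit 6) (.ret (nat_lit 1059)) (.f1 w25 (nat_lit 0x1fdc000000000000000000) (nat_lit 0xfe023c00000000000000000) (nat_lit 6) s4326 (.ret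 (nat_lit 1059))))) (.ret (nat_lit 0))) (.ret (nat_lit 0)))
noncomputable def s4554 : FP := .v1 w9 (nat_lit 0x3e0000000000000000) (nat_lit 0x10000000000000000) (nat_lit 8) (.v1 w4 (nat_lit 0x3e0000000000000000) (nat_lit 0x10000000000000000) (nat_lit 8) (.v1 w4 (nat_lit 0x3e0000000000000000) (nat_lit 0x10000000000000000) (nat_lit 8) (.v1 w4 (nat_lit 0x3e0000000000000000) (nat_lit 0x10000000000000000) (nat_lit 8) (.f1 w4 (nat_lit 0x3fff400000000000000000) (nat_lit 0xfc000800000000000000000)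
  (nat_lit 8) (.v1 w9 (nat_lit 0x3e0000000000000000) (nat_lit 0x10000000000000000) (nat_lit 7) (.v1 w4 (nat_lit 0x3e0000000000000000) (nat_lit 0x10000000000000000) (nat_lit 6) (.f1 w30 (nat_lit 0xfd000000000000000000000) (nat_lit 0x2fffc00000000000000000) (nat_lit 6) s4354 (.f1 w4 (nat_lit 0xfc000800000000000000000) (nat_lit 0x3fff400000000000000000) (nat_lit 4) (.f1 w7 (nat_lit 0xfd000000000000000000000)
  (nat_lit 0x2fffc00000000000000000) (nat_lit 4) s4297 s4294) (.v1 w6 (nat_lit 0x20000000000000000) (nat_lit 0x3d0000000000000000) (nat_lit 4) (.f1 w100 (nat_lit 0xfd000000000000000000000) (nat_lit 0x2fffc00000000000000000) (nat_lit 4) s4297 s4294) (.f1 w297 (nat_lit 0xfc254000000000000000000) (nat_lit 0x3dabc00000000000000000) (nat_lit 4) s4016 (.ret (nat_lit 1059)))))) (.ret (nat_lit 0))) s4389) s4458)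
  (.ret (nat_lit 0))) (.ret (nat_lit 0))) s4536) (.v0 (nat_lit 0x20000000000000000) (nat_lit 0x3d0000000000000000) (nat_lit 7) (.v1 w25 (nat_lit 0x3e0000000000000000) (nat_lit 0x10000000000000000) (nat_lit 6) (.f1 w4 (nat_lit 0x3fff400000000000000000) (nat_lit 0xfc000800000000000000000) (nat_lit 6) (.v1 w14 (nat_lit 0x3e0000000000000000) (nat_lit 0x10000000000000000) (nat_lit 6) (.f1 w311 (nat_lit 0xfd000000000000000000000)
  (nat_lit 0x2fffc00000000000000000) (nat_lit 6) (.f1 w4 (nat_lit 0xfc254000000000000000000) (nat_lit 0x3dabc00000000000000000) (nat_lit 6) s4348 s4330) (.ret (nat_lit 1059))) (.ret (nat_lit 0))) (.ret (nat_lit 0))) (.ret (nat_lit 0))) (.v1 w25 (nat_lit 0x3e0000000000000000) (nat_lit 0x10000000000000000) (nat_lit 7) (.f1 w4 (nat_lit 0x3fff400000000000000000) (nat_lit 0xfc000800000000000000000) (nat_lit 7)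
  (.v1 w14 (nat_lit 0x3e0000000000000000) (nat_lit 0x10000000000000000) (nat_lit 7) (.f1 w30 (nat_lit 0xfc003c00000000000000000) (nat_lit 0x3ffc000000000000000000) (nat_lit 7) (.f1 w29 (nat_lit 0x3dabc00000000000000000) (nat_lit 0xfc254000000000000000000) (nat_lit 7) (.ret (nat_lit 1078)) (.f1 w79 (nat_lit 0x1fdc000000000000000000) (nat_lit 0xfe023c00000000000000000) (nat_lit 7) s4222 (.ret (nat_lit 1076))))
  (.ret (nat_lit 0))) (.ret (nat_lit 0))) (.f0 (nat_lit 0x3ffec00000000000000000) (nat_lit 0xfc001000000000000000000) (nat_lit 3) (.v1 w14 (nat_lit 0x3e0000000000000000) (nat_lit 0x10000000000000000) (nat_lit 3) (.f1 w7 (nat_lit 0xfc003c00000000000000000) (nat_lit 0x3ffc000000000000000000) (nat_lit 3) (.f1 w29 (nat_lit 0xfe023c00000000000000000) (nat_lit 0x1fdc000000000000000000) (nat_lit 3) (.ret (nat_lit 1075)) (.ret (nat_lit 0))) (.ret (nat_lit 0))) (.ret (nat_lit 0))) (.ret (nat_lit 0)))) (.ret (nat_lit 0))))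
noncomputable def s4580 : FP := .f1 w25 (nat_lit 0x3fff400000000000000000) (nat_lit 0xfc000800000000000000000) (nat_lit 6) (.v1 w14 (nat_lit 0x3e0000000000000000) (nat_lit 0x10000000000000000) (nat_lit 6) (.f1 w145 (nat_lit 0x3ffc000000000000000000) (nat_lit 0xfc003c00000000000000000) (nat_lit 6) (.f0 (nat_lit 0xfc000800000000000000000) (nat_lit 0x3fff400000000000000000) (nat_lit 6) (.f0 (nat_lit 0x3ffec00000000000000000)
  (nat_lit 0xfc001000000000000000000) (nat_lit 6) (.f1 w83 (nat_lit 0xfc254000000000000000000) (nat_lit 0x3dabc00000000000000000) (nat_lit 6) (.f1 w63 (nat_lit 0x1fdc000000000000000000) (nat_lit 0xfe023c00000000000000000) (nat_lit 6) (.f1 w18 (nat_lit 0x1fdc000000000000000000) (nat_lit 0xfe023c00000000000000000) (nat_lit 6) (.f1 w4 (nat_lit 0x1fdc000000000000000000) (nat_lit 0xfe023c00000000000000000)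
  (nat_lit 6) (.ret (nat_lit 1110)) (.ret (nat_lit 1107))) (.ret (nat_lit 1107))) (.ret (nat_lit 1107))) (.f1 w18 (nat_lit 0x1fdc000000000000000000) (nat_lit 0xfe023c00000000000000000) (nat_lit 6) (.f1 w4 (nat_lit 0xfe023c00000000000000000) (nat_lit 0x1fdc000000000000000000) (nat_lit 6) (.ret (nat_lit 1107)) (.f1 w18 (nat_lit 0xfe023c00000000000000000) (nat_lit 0x1fdc000000000000000000) (nat_lit 6)
  (.ret (nat_lit 1107)) (.f1 w165 (nat_lit 0xfe023c00000000000000000) (nat_lit 0x1fdc000000000000000000) (nat_lit 6) (.f0 (nat_lit 0xfc254000000000000000000) (nat_lit 0x3dabc00000000000000000) (nat_lit 3) (.f0 (nat_lit 0xfc088000000000000000000) (nat_lit 0x3f77c00000000000000000) (nat_lit 3) (.ret (nat_lit 1106)) (.ret (nat_lit 1107))) (.ret (nat_lit 1107))) (.ret (nat_lit 1110))))) (.ret (nat_lit 1107))))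
  (.f1 w312 (nat_lit 0xfc254000000000000000000) (nat_lit 0x3dabc00000000000000000) (nat_lit 4) s4016 (.ret (nat_lit 1059)))) (.ret (nat_lit 1107))) (.ret (nat_lit 1107))) (.ret (nat_lit 0))) (.f0 (nat_lit 0x3ffec00000000000000000) (nat_lit 0xfc001000000000000000000) (nat_lit 4) (.f1 w260 (nat_lit 0x3fff400000000000000000) (nat_lit 0xfc000800000000000000000) (nat_lit 4) (.v1 w9 (nat_lit 0x3e0000000000000000)
  (nat_lit 0x10000000000000000) (nat_lit 4) (.v1 w4 (nat_lit 0x3e0000000000000000) (nat_lit 0x10000000000000000) (nat_lit 4) (.f1 w259 (nat_lit 0xfe023c00000000000000000) (nat_lit 0x1fdc000000000000000000) (nat_lit 4) (.f0 (nat_lit 0xfc254000000000000000000) (nat_lit 0x3dabc00000000000000000) (nat_lit 4) (.f0 (nat_lit 0x3f77c00000000000000000) (nat_lit 0xfc088000000000000000000) (nat_lit 4) (.ret (nat_lit 1107)) (.ret (nat_lit 1108))) (.ret (nat_lit 1107))) (.ret (nat_lit 0))) (.ret (nat_lit 0))) (.ret (nat_lit 0))) (.ret (nat_lit 0))) (.ret (nat_lit 0)))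
noncomputable def s4582 : FP := .f0 (nat_lit 0xfc254000000000000000000) (nat_lit 0x3dabc00000000000000000) (nat_lit 4) (.ret (nat_lit 1091)) (.ret (nat_lit 1092))
noncomputable def s4605 : FP := .f0 (nat_lit 0x3fff400000000000000000) (nat_lit 0xfc000800000000000000000) (nat_lit 7) (.v1 w9 (nat_lit 0x3e0000000000000000) (nat_lit 0x10000000000000000) (nat_lit 7) (.f1 w146 (nat_lit 0x3dabc00000000000000000) (nat_lit 0xfc254000000000000000000) (nat_lit 7) (.f1 w18 (nat_lit 0x1fdc000000000000000000) (nat_lit 0xfe023c00000000000000000) (nat_lit 6) (.f1 w63 (nat_lit 0xfe023c00000000000000000)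
  (nat_lit 0x1fdc000000000000000000) (nat_lit 6) (.f0 (nat_lit 0xfc254000000000000000000) (nat_lit 0x3dabc00000000000000000) (nat_lit 6) (.ret (nat_lit 1091)) (.f1 w18 (nat_lit 0x1fdc000000000000000000) (nat_lit 0xfe023c00000000000000000) (nat_lit 6) (.f1 w71 (nat_lit 0xfe023c00000000000000000) (nat_lit 0x1fdc000000000000000000) (nat_lit 6) (.ret (nat_lit 1092)) (.f1 w4 (nat_lit 0xfe023c00000000000000000)
  (nat_lit 0x1fdc000000000000000000) (nat_lit 6) s4582 (.ret (nat_lit 1094)))) s4582)) (.ret (nat_lit 1092))) (.ret (nat_lit 1091))) (.f1 w18 (nat_lit 0x1fdc000000000000000000) (nat_lit 0xfe023c00000000000000000) (nat_lit 7) (.f1 w63 (nat_lit 0xfc254000000000000000000) (nat_lit 0x3dabc00000000000000000) (nat_lit 7) (.ret (nat_lit 1094)) (.f1 w18 (nat_lit 0x1fdc000000000000000000) (nat_lit 0xfe023c00000000000000000)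
  (nat_lit 7) (.f1 w124 (nat_lit 0xfe023c00000000000000000) (nat_lit 0x1fdc000000000000000000) (nat_lit 7) (.f1 w200 (nat_lit 0xfe023c00000000000000000) (nat_lit 0x1fdc000000000000000000) (nat_lit 6) (.ret (nat_lit 1092)) (.ret (nat_lit 1094))) (.f1 w4 (nat_lit 0xfe023c00000000000000000) (nat_lit 0x1fdc000000000000000000) (nat_lit 7) (.f1 w313 (nat_lit 0xfe023c00000000000000000) (nat_lit 0x1fdc000000000000000000)
  (nat_lit 6) (.ret (nat_lit 1092)) (.ret (nat_lit 1094))) (.ret (nat_lit 1095)))) (.f1 w314 (nat_lit 0xfe023c00000000000000000) (nat_lit 0x1fdc000000000000000000) (nat_lit 6) (.ret (nat_lit 1092)) (.ret (nat_lit 1094))))) (.ret (nat_lit 1092)))) (.ret (nat_lit 0))) (.f0 (nat_lit 0xfc001000000000000000000) (nat_lit 0x3ffec00000000000000000) (nat_lit 6) (.ret (nat_lit 1060)) (.f1 w315 (nat_lit 0x1fdc000000000000000000)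
  (nat_lit 0xfe023c00000000000000000) (nat_lit 6) (.f1 w18 (nat_lit 0x1fdc000000000000000000) (nat_lit 0xfe023c00000000000000000) (nat_lit 6) (.f1 w4 (nat_lit 0x1fdc000000000000000000) (nat_lit 0xfe023c00000000000000000) (nat_lit 6) (.f1 w30 (nat_lit 0xfe023c00000000000000000) (nat_lit 0x1fdc000000000000000000) (nat_lit 6) (.ret (nat_lit 1092)) (.f1 w63 (nat_lit 0xfe023c00000000000000000) (nat_lit 0x1fdc000000000000000000) (nat_lit 6) (.ret (nat_lit 1092)) (.ret (nat_lit 1094)))) (.ret (nat_lit 1092))) (.ret (nat_lit 1092))) s4582))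
noncomputable def s4620 : FP := .f1 w21 (nat_lit 0xfe023c00000000000000000) (nat_lit 0x1fdc000000000000000000) (nat_lit 6) (.ret (nat_lit 1059)) (.ret (nat_lit 1062))
noncomputable def s4643 : FP := .f1 w4 (nat_lit 0x3fff400000000000000000) (nat_lit 0xfc000800000000000000000) (nat_lit 6) (.v1 w9 (nat_lit 0x3e0000000000000000) (nat_lit 0x10000000000000000) (nat_lit 6) (.v1 w4 (nat_lit 0x3e0000000000000000) (nat_lit 0x10000000000000000) (nat_lit 6) (.f1 w30 (nat_lit 0x3ffc000000000000000000) (nat_lit 0xfc003c00000000000000000) (nat_lit 6) (.f0 (nat_lit 0xfc000800000000000000000)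
  (nat_lit 0x3fff400000000000000000) (nat_lit 6) (.f0 (nat_lit 0xfc001000000000000000000) (nat_lit 0x3ffec00000000000000000) (nat_lit 6) (.f1 w318 (nat_lit 0xfc254000000000000000000) (nat_lit 0x3dabc00000000000000000) (nat_lit 6) (.f0 (nat_lit 0xfc088000000000000000000) (nat_lit 0x3f77c00000000000000000) (nat_lit 6) (.f1 w63 (nat_lit 0x1fdc000000000000000000) (nat_lit 0xfe023c00000000000000000) (nat_lit 6)
  (.f1 w317 (nat_lit 0xfe023c00000000000000000) (nat_lit 0x1fdc000000000000000000) (nat_lit 6) (.ret (nat_lit 1060)) (.f1 w21 (nat_lit 0xfe023c00000000000000000) (nat_lit 0x1fdc000000000000000000) (nat_lit 6) (.ret (nat_lit 1060)) (.ret (nat_lit 1062)))) (.ret (nat_lit 1060))) (.f1 w63 (nat_lit 0x1fdc000000000000000000) (nat_lit 0xfe023c00000000000000000) (nat_lit 6) (.f1 w18 (nat_lit 0x1fdc000000000000000000)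
  (nat_lit 0xfe023c00000000000000000) (nat_lit 6) (.f1 w4 (nat_lit 0x1fdc000000000000000000) (nat_lit 0xfe023c00000000000000000) (nat_lit 6) (.f1 w112 (nat_lit 0xfe023c00000000000000000) (nat_lit 0x1fdc000000000000000000) (nat_lit 6) (.ret (nat_lit 1059)) s4620) (.ret (nat_lit 1059))) (.ret (nat_lit 1059))) (.ret (nat_lit 1059)))) (.f1 w63 (nat_lit 0x1fdc000000000000000000) (nat_lit 0xfe023c00000000000000000)
  (nat_lit 6) (.f1 w18 (nat_lit 0x1fdc000000000000000000) (nat_lit 0xfe023c00000000000000000) (nat_lit 6) (.f1 w4 (nat_lit 0x1fdc000000000000000000) (nat_lit 0xfe023c00000000000000000) (nat_lit 6) (.f1 w112 (nat_lit 0xfe023c00000000000000000) (nat_lit 0x1fdc000000000000000000) (nat_lit 6) (.f1 w21 (nat_lit 0xfe023c00000000000000000) (nat_lit 0x1fdc000000000000000000) (nat_lit 3) (.ret (nat_lit 1058))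
  (.ret (nat_lit 1059))) s4620) s3752) s3752) s3752)) (.ret (nat_lit 0))) (.ret (nat_lit 0))) (.f1 w319 (nat_lit 0xfc254000000000000000000) (nat_lit 0x3dabc00000000000000000) (nat_lit 4) (.f0 (nat_lit 0x3f77c00000000000000000) (nat_lit 0xfc088000000000000000000) (nat_lit 4) (.ret (nat_lit 1075)) (.f1 w80 (nat_lit 0xfe023c00000000000000000) (nat_lit 0x1fdc000000000000000000) (nat_lit 4) (.ret (nat_lit 1076)) (.ret (nat_lit 0)))) (.ret (nat_lit 1075)))) (.ret (nat_lit 0))) (.ret (nat_lit 0))) (.ret (nat_lit 0))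

end Pool.Agent.Lib.G6.Z
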