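import Pool.Agent.Lib.G6D.ZRuleW

set_option autoImplicit false
set_option maxRecDepth 100000
set_option linter.all false

namespace Pool.Agent.Lib.G6.Z

open Pool.Agent.Lib.G6 Pool.Agent.Lib.G6.K
open Pool.Agent.Lib.MP_bfaad3_co (BT)

noncomputable def s4659 : FP := .f1 w118 (nat_lit 0x1fdc000000000000000000) (nat_lit 0xfe023c00000000000000000) (nat_lit 6) (.ret (nat_lit 1062)) (.ret (nat_lit 1060))
noncomputable def s4675 : FP := .f1 w27 (nat_lit 0xfc254000000000000000000) (nat_lit 0x3dabc00000000000000000) (nat_lit 3) (.ret (nat_lit 353)) (.ret (nat_lit 355))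
noncomputable def s4676 : FP := .f1 w144 (nat_lit 0xfc254000000000000000000) (nat_lit 0x3dabc00000000000000000) (nat_lit 3) (.ret (nat_lit 353)) (.ret (nat_lit 355))
noncomputable def s4678 : FP := .f1 w145 (nat_lit 0xfc254000000000000000000) (nat_lit 0x3dabc00000000000000000) (nat_lit 3) (.ret (nat_lit 353)) (.ret (nat_lit 355))
noncomputable def s4680 : FP := .f1 w146 (nat_lit 0xfc254000000000000000000) (nat_lit 0x3dabc00000000000000000) (nat_lit 3) (.ret (nat_lit 353)) (.ret (nat_lit 355))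
noncomputable def s4681 : FP := .f1 w4 (nat_lit 0x1fdc000000000000000000) (nat_lit 0xfe023c00000000000000000) (nat_lit 3) (.f1 w4 (nat_lit 0x1fdc000000000000000000) (nat_lit 0xfe023c00000000000000000) (nat_lit 3) (.f1 w4 (nat_lit 0xfe023c00000000000000000) (nat_lit 0x1fdc000000000000000000) (nat_lit 3) s4676 (.ret (nat_lit 0))) s4678) s4680
noncomputable def s4682 : FP := .f1 w147 (nat_lit 0xfc254000000000000000000) (nat_lit 0x3dabc00000000000000000) (nat_lit 3) (.ret (nat_lit 353)) (.ret (nat_lit 355))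
noncomputable def s4699 : FP := .v1 w14 (nat_lit 0x3e0000000000000000) (nat_lit 0x10000000000000000) (nat_lit 3) (.f1 w323 (nat_lit 0xfc254000000000000000000) (nat_lit 0x3dabc00000000000000000) (nat_lit 3) (.ret (nat_lit 353)) (.ret (nat_lit 355))) (.ret (nat_lit 0))
noncomputable def s4708 : FP := .f0 (nat_lit 0xfc088000000000000000000) (nat_lit 0x3f77c00000000000000000) (nat_lit 3) (.ret (nat_lit 354)) (.ret (nat_lit 355))
noncomputable def s4711 : FP := .f1 w4 (nat_lit 0x1fdc000000000000000000) (nat_lit 0xfe023c00000000000000000) (nat_lit 6) (.f1 w4 (nat_lit 0xfe023c00000000000000000) (nat_lit 0x1fdc000000000000000000) (nat_lit 6) (.f1 w4 (nat_lit 0xfc040000000000000000000) (nat_lit 0x3fbfc00000000000000000) (nat_lit 3) (.v1 w9 (nat_lit 0x3e0000000000000000) (nat_lit 0x10000000000000000) (nat_lit 3) (.f1 w321 (nat_lit 0xfc254000000000000000000)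
  (nat_lit 0x3dabc00000000000000000) (nat_lit 3) (.ret (nat_lit 353)) (.ret (nat_lit 355))) (.v1 w25 (nat_lit 0x10000000000000000) (nat_lit 0x3e0000000000000000) (nat_lit 3) (.f1 w27 (nat_lit 0x3fff400000000000000000) (nat_lit 0xfc000800000000000000000) (nat_lit 3) (.v1 w14 (nat_lit 0x3e0000000000000000) (nat_lit 0x10000000000000000) (nat_lit 3) (.f1 w30 (nat_lit 0x3fff400000000000000000) (nat_lit 0xfc000800000000000000000)
  (nat_lit 3) s4699 s4678) (.ret (nat_lit 0))) (.f1 w25 (nat_lit 0x3fff400000000000000000) (nat_lit 0xfc000800000000000000000) (nat_lit 3) s4699 s4678)) (.f1 w322 (nat_lit 0xfc254000000000000000000) (nat_lit 0x3dabc00000000000000000) (nat_lit 3) (.ret (nat_lit 353)) (.ret (nat_lit 355))))) (.v1 w9 (nat_lit 0x3e0000000000000000) (nat_lit 0x10000000000000000) (nat_lit 3) (.v1 w4 (nat_lit 0x3e0000000000000000)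
  (nat_lit 0x10000000000000000) (nat_lit 3) s4675 (.f1 w23 (nat_lit 0x3fff400000000000000000) (nat_lit 0xfc000800000000000000000) (nat_lit 3) (.v1 w9 (nat_lit 0x3e0000000000000000) (nat_lit 0x10000000000000000) (nat_lit 3) (.f1 w21 (nat_lit 0x1fdc000000000000000000) (nat_lit 0xfe023c00000000000000000) (nat_lit 3) s4681 s4682) (.v0 (nat_lit 0x3d0000000000000000) (nat_lit 0x20000000000000000) (nat_lit 3)
  (.f0 (nat_lit 0xfc003c00000000000000000) (nat_lit 0x3ffc000000000000000000) (nat_lit 3) (.f1 w21 (nat_lit 0xfe023c00000000000000000) (nat_lit 0x1fdc000000000000000000) (nat_lit 3) s4682 (.f1 w22 (nat_lit 0xfe023c00000000000000000) (nat_lit 0x1fdc000000000000000000) (nat_lit 3) s4676 (.ret (nat_lit 0)))) (.f1 w320 (nat_lit 0xfc254000000000000000000) (nat_lit 0x3dabc00000000000000000) (nat_lit 3) (.ret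
  (nat_lit 353)) (.ret (nat_lit 355)))) s4680)) s4675)) (.v0 (nat_lit 0x20000000000000000) (nat_lit 0x3d0000000000000000) (nat_lit 3) (.f1 w150 (nat_lit 0xfc254000000000000000000) (nat_lit 0x3dabc00000000000000000) (nat_lit 3) (.ret (nat_lit 353)) (.ret (nat_lit 355))) (.f1 w148 (nat_lit 0xfc254000000000000000000) (nat_lit 0x3dabc00000000000000000) (nat_lit 3) (.ret (nat_lit 353)) (.ret (nat_lit 355)))))) (.ret (nat_lit 358))) (.f1 w4 (nat_lit 0x1fdc000000000000000000) (nat_lit 0xfe023c00000000000000000) (nat_lit 3) (.f1 w141 (nat_lit 0xfc254000000000000000000) (nat_lit 0x3dabc00000000000000000) (nat_lit 3) s4708 (.ret (nat_lit 355))) (.ret (nat_lit 0)))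
noncomputable def s4721 : FP := .f1 w52 (nat_lit 0xfc254000000000000000000) (nat_lit 0x3dabc00000000000000000) (nat_lit 3) (.ret (nat_lit 353)) (.ret (nat_lit 355))
noncomputable def s4722 : FP := .f1 w45 (nat_lit 0xfc254000000000000000000) (nat_lit 0x3dabc00000000000000000) (nat_lit 3) (.ret (nat_lit 353)) (.ret (nat_lit 355))
noncomputable def s4726 : FP := .f1 w46 (nat_lit 0xfc254000000000000000000) (nat_lit 0x3dabc00000000000000000) (nat_lit 3) (.ret (nat_lit 353)) (.ret (nat_lit 355))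
noncomputable def s4727 : FP := .f1 w4 (nat_lit 0x1fdc000000000000000000) (nat_lit 0xfe023c00000000000000000) (nat_lit 3) (.f1 w4 (nat_lit 0x1fdc000000000000000000) (nat_lit 0xfe023c00000000000000000) (nat_lit 3) (.f1 w4 (nat_lit 0xfe023c00000000000000000) (nat_lit 0x1fdc000000000000000000) (nat_lit 3) s4722 (.ret (nat_lit 0))) (.f1 w15 (nat_lit 0xfc254000000000000000000) (nat_lit 0x3dabc00000000000000000) (nat_lit 3) (.ret (nat_lit 353)) (.ret (nat_lit 355)))) s4726
noncomputable def s4728 : FP := .f1 w47 (nat_lit 0xfc254000000000000000000) (nat_lit 0x3dabc00000000000000000) (nat_lit 3) (.ret (nat_lit 353)) (.ret (nat_lit 355))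
noncomputable def s4751 : FP := .f1 w24 (nat_lit 0x1fdc000000000000000000) (nat_lit 0xfe023c00000000000000000) (nat_lit 6) (.f1 w4 (nat_lit 0x1fdc000000000000000000) (nat_lit 0xfe023c00000000000000000) (nat_lit 6) s4711 (.f1 w24 (nat_lit 0x1fdc000000000000000000) (nat_lit 0xfe023c00000000000000000) (nat_lit 3) (.v1 w324 (nat_lit 0x3e0000000000000000) (nat_lit 0x10000000000000000) (nat_lit 3) (.v1 w4
  (nat_lit 0x3e0000000000000000) (nat_lit 0x10000000000000000) (nat_lit 3) (.f1 w264 (nat_lit 0xfc254000000000000000000) (nat_lit 0x3dabc00000000000000000) (nat_lit 3) s4708 (.ret (nat_lit 355))) (.f1 w103 (nat_lit 0xfc254000000000000000000) (nat_lit 0x3dabc00000000000000000) (nat_lit 3) s4708 (.ret (nat_lit 355)))) (.v0 (nat_lit 0x3d0000000000000000) (nat_lit 0x20000000000000000) (nat_lit 3) (.f1 w104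
  (nat_lit 0xfc254000000000000000000) (nat_lit 0x3dabc00000000000000000) (nat_lit 3) s4708 (.ret (nat_lit 355))) (.f1 w106 (nat_lit 0xfc254000000000000000000) (nat_lit 0x3dabc00000000000000000) (nat_lit 3) s4708 (.ret (nat_lit 355))))) (.ret (nat_lit 0)))) (.f1 w4 (nat_lit 0x1fdc000000000000000000) (nat_lit 0xfe023c00000000000000000) (nat_lit 3) (.f1 w4 (nat_lit 0x1fdc000000000000000000) (nat_lit 0xfe023c00000000000000000)
  (nat_lit 3) (.f1 w4 (nat_lit 0x1fdc000000000000000000) (nat_lit 0xfe023c00000000000000000) (nat_lit 3) (.f1 w4 (nat_lit 0xfc040000000000000000000) (nat_lit 0x3fbfc00000000000000000) (nat_lit 3) (.v1 w9 (nat_lit 0x3e0000000000000000) (nat_lit 0x10000000000000000) (nat_lit 3) (.f1 w326 (nat_lit 0xfc254000000000000000000) (nat_lit 0x3dabc00000000000000000) (nat_lit 3) (.ret (nat_lit 353)) (.ret (nat_lit 355)))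
  (.f1 w327 (nat_lit 0xfc254000000000000000000) (nat_lit 0x3dabc00000000000000000) (nat_lit 3) (.ret (nat_lit 353)) (.ret (nat_lit 355)))) (.v1 w9 (nat_lit 0x3e0000000000000000) (nat_lit 0x10000000000000000) (nat_lit 3) (.v1 w24 (nat_lit 0x3e0000000000000000) (nat_lit 0x10000000000000000) (nat_lit 3) s4721 (.f0 (nat_lit 0x3fff400000000000000000) (nat_lit 0xfc000800000000000000000) (nat_lit 3) (.v1 w9
  (nat_lit 0x10000000000000000) (nat_lit 0x3e0000000000000000) (nat_lit 3) (.v0 (nat_lit 0x3d0000000000000000) (nat_lit 0x20000000000000000) (nat_lit 3) (.f0 (nat_lit 0x3ffc000000000000000000) (nat_lit 0xfc003c00000000000000000) (nat_lit 3) (.f0 (nat_lit 0x3fff400000000000000000) (nat_lit 0xfc000800000000000000000) (nat_lit 3) (.f1 w48 (nat_lit 0xfc254000000000000000000) (nat_lit 0x3dabc00000000000000000)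
  (nat_lit 3) (.ret (nat_lit 353)) (.ret (nat_lit 355))) (.f1 w49 (nat_lit 0xfc254000000000000000000) (nat_lit 0x3dabc00000000000000000) (nat_lit 3) (.ret (nat_lit 353)) (.ret (nat_lit 355)))) (.f1 w21 (nat_lit 0x1fdc000000000000000000) (nat_lit 0xfe023c00000000000000000) (nat_lit 3) (.f1 w22 (nat_lit 0xfe023c00000000000000000) (nat_lit 0x1fdc000000000000000000) (nat_lit 3) s4722 (.ret (nat_lit 0))) s4728)) s4726)
  (.f1 w21 (nat_lit 0x1fdc000000000000000000) (nat_lit 0xfe023c00000000000000000) (nat_lit 3) s4727 s4728)) s4721)) (.v0 (nat_lit 0x20000000000000000) (nat_lit 0x3d0000000000000000) (nat_lit 3) (.f1 w325 (nat_lit 0xfc254000000000000000000) (nat_lit 0x3dabc00000000000000000) (nat_lit 3) (.ret (nat_lit 353)) (.ret (nat_lit 355))) (.f1 w54 (nat_lit 0xfc254000000000000000000) (nat_lit 0x3dabc00000000000000000) (nat_lit 3) (.ret (nat_lit 353)) (.ret (nat_lit 355)))))) (.ret (nat_lit 0))) (.ret (nat_lit 0))) (.ret (nat_lit 0)))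
noncomputable def s4757 : FP := .f1 w279 (nat_lit 0xfe000000000000000000000) (nat_lit 0x1fffc00000000000000000) (nat_lit 6) (.ret (nat_lit 355)) (.ret (nat_lit 358))
noncomputable def s4777 : FP := .f1 w24 (nat_lit 0xfe023c00000000000000000) (nat_lit 0x1fdc000000000000000000) (nat_lit 6) (.ret (nat_lit 307)) (.ret (nat_lit 310))
noncomputable def s4788 : FP := .f1 w4 (nat_lit 0xfe023c00000000000000000) (nat_lit 0x1fdc000000000000000000) (nat_lit 7) (.ret (nat_lit 310)) (.ret (nat_lit 311))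
noncomputable def s4789 : FP := .f1 w4 (nat_lit 0xfe023c00000000000000000) (nat_lit 0x1fdc000000000000000000) (nat_lit 6) (.ret (nat_lit 307)) (.ret (nat_lit 310))
noncomputable def s4790 : FP := .f1 w37 (nat_lit 0xfe023c00000000000000000) (nat_lit 0x1fdc000000000000000000) (nat_lit 7) s4789 s4788
noncomputable def s4791 : FP := .f1 w63 (nat_lit 0xfe023c00000000000000000) (nat_lit 0x1fdc000000000000000000) (nat_lit 7) (.ret (nat_lit 307)) s4790
noncomputable def s4808 : FP := .f1 w4 (nat_lit 0xfe023c00000000000000000) (nat_lit 0x1fdc000000000000000000) (nat_lit 4) (.ret (nat_lit 307)) (.ret (nat_lit 308))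
noncomputable def s4834 : FP := .f1 w22 (nat_lit 0xfe023c00000000000000000) (nat_lit 0x1fdc000000000000000000) (nat_lit 6) (.ret (nat_lit 307)) (.ret (nat_lit 310))
noncomputable def s4835 : FP := .f1 w24 (nat_lit 0xfe023c00000000000000000) (nat_lit 0x1fdc000000000000000000) (nat_lit 6) (.ret (nat_lit 307)) s4834
noncomputable def s4837 : FP := .f1 w24 (nat_lit 0xfe023c00000000000000000) (nat_lit 0x1fdc000000000000000000) (nat_lit 6) s4834 (.ret (nat_lit 310))
noncomputable def s4852 : FP := .f1 w4 (nat_lit 0x3fff400000000000000000) (nat_lit 0xfc000800000000000000000) (nat_lit 3) (.f1 w6 (nat_lit 0x1fdc000000000000000000) (nat_lit 0xfe023c00000000000000000) (nat_lit 3) s4727 s4728) s4721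
noncomputable def s4856 : FP := .f1 w23 (nat_lit 0x3fff400000000000000000) (nat_lit 0xfc000800000000000000000) (nat_lit 3) (.f1 w6 (nat_lit 0xfe023c00000000000000000) (nat_lit 0x1fdc000000000000000000) (nat_lit 3) (.f1 w332 (nat_lit 0xfc254000000000000000000) (nat_lit 0x3dabc00000000000000000) (nat_lit 3) (.ret (nat_lit 353)) (.ret (nat_lit 355))) (.ret (nat_lit 0))) (.f1 w333 (nat_lit 0xfc254000000000000000000) (nat_lit 0x3dabc00000000000000000) (nat_lit 3) (.ret (nat_lit 353)) (.ret (nat_lit 355)))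
noncomputable def s4861 : FP := .f1 w26 (nat_lit 0xfe000000000000000000000) (nat_lit 0x1fffc00000000000000000) (nat_lit 6) (.f1 w24 (nat_lit 0xfe023c00000000000000000) (nat_lit 0x1fdc000000000000000000) (nat_lit 6) (.ret (nat_lit 355)) (.f1 w25 (nat_lit 0xfe023c00000000000000000) (nat_lit 0x1fdc000000000000000000) (nat_lit 6) (.ret (nat_lit 355)) (.ret (nat_lit 358)))) (.ret (nat_lit 358))
noncomputable def s4916 : FP := .f1 w337 (nat_lit 0xfe023c00000000000000000) (nat_lit 0x1fdc000000000000000000) (nat_lit 3) (.ret (nat_lit 306)) (.ret (nat_lit 307))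
noncomputable def s4950 : FP := .v1 w9 (nat_lit 0x3e0000000000000000) (nat_lit 0x10000000000000000) (nat_lit 3) (.v1 w4 (nat_lit 0x10000000000000000) (nat_lit 0x3e0000000000000000) (nat_lit 3) (.v0 (nat_lit 0x3d0000000000000000) (nat_lit 0x20000000000000000) (nat_lit 3) (.f1 w23 (nat_lit 0x3fff400000000000000000) (nat_lit 0xfc000800000000000000000) (nat_lit 3) (.v1 w9 (nat_lit 0x3e0000000000000000)
  (nat_lit 0x10000000000000000) (nat_lit 3) (.v1 w4 (nat_lit 0x3e0000000000000000) (nat_lit 0x10000000000000000) (nat_lit 3) (.f1 w340 (nat_lit 0xfe023c00000000000000000) (nat_lit 0x1fdc000000000000000000) (nat_lit 3) (.f1 w22 (nat_lit 0xfe023c00000000000000000) (nat_lit 0x1fdc000000000000000000) (nat_lit 1) (.ret (nat_lit 0)) (.ret (nat_lit 337))) (.f1 w22 (nat_lit 0xfe023c00000000000000000) (nat_lit 0x1fdc000000000000000000)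
  (nat_lit 3) (.ret (nat_lit 337)) (.ret (nat_lit 339)))) (.ret (nat_lit 0))) (.ret (nat_lit 0))) (.ret (nat_lit 0))) (.ret (nat_lit 0))) (.f1 w4 (nat_lit 0x3fff400000000000000000) (nat_lit 0xfc000800000000000000000) (nat_lit 3) (.v1 w9 (nat_lit 0x3e0000000000000000) (nat_lit 0x10000000000000000) (nat_lit 3) (.v1 w4 (nat_lit 0x3e0000000000000000) (nat_lit 0x10000000000000000) (nat_lit 3) (.f1 w122
  (nat_lit 0xfd000000000000000000000) (nat_lit 0x2fffc00000000000000000) (nat_lit 3) (.f1 w24 (nat_lit 0x1fdc000000000000000000) (nat_lit 0xfe023c00000000000000000) (nat_lit 3) (.f1 w63 (nat_lit 0xfe023c00000000000000000) (nat_lit 0x1fdc000000000000000000) (nat_lit 3) (.f1 w37 (nat_lit 0x1fdc000000000000000000) (nat_lit 0xfe023c00000000000000000) (nat_lit 3) (.f1 w4 (nat_lit 0x1fdc000000000000000000)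
  (nat_lit 0xfe023c00000000000000000) (nat_lit 3) (.f1 w339 (nat_lit 0x1fdc000000000000000000) (nat_lit 0xfe023c00000000000000000) (nat_lit 3) (.f1 w338 (nat_lit 0xfe023c00000000000000000) (nat_lit 0x1fdc000000000000000000) (nat_lit 3) (.ret (nat_lit 306)) (.ret (nat_lit 307))) (.ret (nat_lit 306))) (.ret (nat_lit 306))) (.ret (nat_lit 306))) s4916) (.f1 w63 (nat_lit 0x1fdc000000000000000000) (nat_lit 0xfe023c00000000000000000)
  (nat_lit 3) s4916 (.ret (nat_lit 306)))) (.ret (nat_lit 306))) (.ret (nat_lit 0))) (.ret (nat_lit 0))) (.ret (nat_lit 0)))) (.v0 (nat_lit 0x3d0000000000000000) (nat_lit 0x20000000000000000) (nat_lit 3) (.v1 w25 (nat_lit 0x3e0000000000000000) (nat_lit 0x10000000000000000) (nat_lit 3) (.f1 w27 (nat_lit 0x3fff400000000000000000) (nat_lit 0xfc000800000000000000000) (nat_lit 3) (.v1 w14 (nat_lit 0x3e0000000000000000)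
  (nat_lit 0x10000000000000000) (nat_lit 3) (.f1 w342 (nat_lit 0xfe023c00000000000000000) (nat_lit 0x1fdc000000000000000000) (nat_lit 3) (.f1 w63 (nat_lit 0x1fdc000000000000000000) (nat_lit 0xfe023c00000000000000000) (nat_lit 3) (.f1 w37 (nat_lit 0x1fdc000000000000000000) (nat_lit 0xfe023c00000000000000000) (nat_lit 3) (.f1 w4 (nat_lit 0x1fdc000000000000000000) (nat_lit 0xfe023c00000000000000000) (nat_lit 3)
  (.f1 w341 (nat_lit 0x1fdc000000000000000000) (nat_lit 0xfe023c00000000000000000) (nat_lit 3) (.f1 w4 (nat_lit 0xfe023c00000000000000000) (nat_lit 0x1fdc000000000000000000) (nat_lit 3) (.ret (nat_lit 1122)) (.ret (nat_lit 1123))) (.ret (nat_lit 1122))) (.ret (nat_lit 1122))) (.ret (nat_lit 1122))) (.ret (nat_lit 1122))) (.f1 w208 (nat_lit 0xfe023c00000000000000000) (nat_lit 0x1fdc000000000000000000) (nat_lit 3) (.ret (nat_lit 1122)) (.ret (nat_lit 1123)))) (.ret (nat_lit 0))) (.ret (nat_lit 0))) (.ret (nat_lit 0))) (.ret (nat_lit 0)))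
noncomputable def s4958 : FP := .f1 w4 (nat_lit 0xfe023c00000000000000000) (nat_lit 0x1fdc000000000000000000) (nat_lit 6) (.ret (nat_lit 19)) (.ret (nat_lit 22))
noncomputable def s4974 : FP := .f1 w4 (nat_lit 0xfe023c00000000000000000) (nat_lit 0x1fdc000000000000000000) (nat_lit 7) (.f0 (nat_lit 0x2fffc00000000000000000) (nat_lit 0xfd000000000000000000000) (nat_lit 6) (.ret (nat_lit 19)) (.ret (nat_lit 22))) (.ret (nat_lit 23))
noncomputable def s4977 : FP := .f0 (nat_lit 0xfd000000000000000000000) (nat_lit 0x2fffc00000000000000000) (nat_lit 6) s4958 (.ret (nat_lit 19))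
noncomputable def s4978 : FP := .f1 w30 (nat_lit 0xfe023c00000000000000000) (nat_lit 0x1fdc000000000000000000) (nat_lit 7) s4977 s4974
noncomputable def s4979 : FP := .f1 w30 (nat_lit 0xfe023c00000000000000000) (nat_lit 0x1fdc000000000000000000) (nat_lit 6) (.ret (nat_lit 19)) s4958
noncomputable def s4990 : FP := .f0 (nat_lit 0xfc254000000000000000000) (nat_lit 0x3dabc00000000000000000) (nat_lit 8) (.f1 w175 (nat_lit 0x1fdc000000000000000000) (nat_lit 0xfe023c00000000000000000) (nat_lit 8) (.f1 w18 (nat_lit 0xfe023c00000000000000000) (nat_lit 0x1fdc000000000000000000) (nat_lit 8) (.f0 (nat_lit 0xfc254000000000000000000) (nat_lit 0x3dabc00000000000000000) (nat_lit 7) (.f1 w7 (nat_lit 0xfe023c00000000000000000)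
  (nat_lit 0x1fdc000000000000000000) (nat_lit 6) (.ret (nat_lit 19)) (.ret (nat_lit 22))) (.f1 w4 (nat_lit 0xfe023c00000000000000000) (nat_lit 0x1fdc000000000000000000) (nat_lit 7) s4979 s4978)) (.f1 w4 (nat_lit 0xfe023c00000000000000000) (nat_lit 0x1fdc000000000000000000) (nat_lit 8) (.f0 (nat_lit 0xfc254000000000000000000) (nat_lit 0x3dabc00000000000000000) (nat_lit 7) (.f0 (nat_lit 0x2fffc00000000000000000)
  (nat_lit 0xfd000000000000000000000) (nat_lit 6) s4979 (.f1 w30 (nat_lit 0xfe023c00000000000000000) (nat_lit 0x1fdc000000000000000000) (nat_lit 6) s4977 (.ret (nat_lit 22)))) s4978) (.f1 w30 (nat_lit 0xfe023c00000000000000000) (nat_lit 0x1fdc000000000000000000) (nat_lit 8) (.f0 (nat_lit 0xfc254000000000000000000) (nat_lit 0x3dabc00000000000000000) (nat_lit 7) (.ret (nat_lit 22)) s4974) (.f1 w4 (nat_lit 0xfe023c00000000000000000)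
  (nat_lit 0x1fdc000000000000000000) (nat_lit 8) (.f0 (nat_lit 0xfc254000000000000000000) (nat_lit 0x3dabc00000000000000000) (nat_lit 7) (.ret (nat_lit 22)) (.ret (nat_lit 23))) (.ret (nat_lit 24)))))) (.f1 w65 (nat_lit 0xfe023c00000000000000000) (nat_lit 0x1fdc000000000000000000) (nat_lit 6) (.ret (nat_lit 19)) (.ret (nat_lit 22)))) (.f1 w37 (nat_lit 0xfe023c00000000000000000) (nat_lit 0x1fdc000000000000000000)
  (nat_lit 6) (.f0 (nat_lit 0xfc254000000000000000000) (nat_lit 0x3dabc00000000000000000) (nat_lit 6) (.f1 w29 (nat_lit 0x1fdc000000000000000000) (nat_lit 0xfe023c00000000000000000) (nat_lit 6) (.f1 w218 (nat_lit 0x1fdc000000000000000000) (nat_lit 0xfe023c00000000000000000) (nat_lit 6) s4958 (.ret (nat_lit 19))) (.ret (nat_lit 19))) (.f1 w7 (nat_lit 0x1fdc000000000000000000) (nat_lit 0xfe023c00000000000000000)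
  (nat_lit 6) (.f1 w4 (nat_lit 0xfe023c00000000000000000) (nat_lit 0x1fdc000000000000000000) (nat_lit 6) (.ret (nat_lit 20)) s4958) (.ret (nat_lit 19)))) (.f1 w4 (nat_lit 0xfe023c00000000000000000) (nat_lit 0x1fdc000000000000000000) (nat_lit 6) (.f1 w63 (nat_lit 0x1fdc000000000000000000) (nat_lit 0xfe023c00000000000000000) (nat_lit 6) (.f1 w179 (nat_lit 0xfe023c00000000000000000) (nat_lit 0x1fdc000000000000000000) (nat_lit 6) (.ret (nat_lit 19)) s4958) (.ret (nat_lit 19))) (.f1 w30 (nat_lit 0x1fdc000000000000000000) (nat_lit 0xfe023c00000000000000000) (nat_lit 6) (.ret (nat_lit 22)) (.f1 w24 (nat_lit 0x1fdc000000000000000000) (nat_lit 0xfe023c00000000000000000) (nat_lit 6) (.ret (nat_lit 22)) (.ret (nat_lit 19))))))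
noncomputable def s5011 : FP := .v1 w9 (nat_lit 0x3d0000000000000000) (nat_lit 0x20000000000000000) (nat_lit 3) (.ret (nat_lit 867)) (.ret (nat_lit 51))
noncomputable def s5041 : FP := .v0 (nat_lit 0x3d0000000000000000) (nat_lit 0x20000000000000000) (nat_lit 3) (.ret (nat_lit 83)) (.ret (nat_lit 67))
noncomputable def s5056 : FP := .f0 (nat_lit 0x3ffec00000000000000000) (nat_lit 0xfc001000000000000000000) (nat_lit 3) (.v1 w9 (nat_lit 0x3e0000000000000000) (nat_lit 0x10000000000000000) (nat_lit 3) (.v1 w4 (nat_lit 0x10000000000000000) (nat_lit 0x3e0000000000000000) (nat_lit 3) s5041 (.f1 w81 (nat_lit 0x3fff400000000000000000) (nat_lit 0xfc000800000000000000000) (nat_lit 3) (.v1 w6 (nat_lit 0x20000000000000000)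
  (nat_lit 0x3d0000000000000000) (nat_lit 3) (.ret (nat_lit 67)) (.f1 w24 (nat_lit 0x1fdc000000000000000000) (nat_lit 0xfe023c00000000000000000) (nat_lit 3) (.f1 w4 (nat_lit 0x1fdc000000000000000000) (nat_lit 0xfe023c00000000000000000) (nat_lit 3) (.f1 w4 (nat_lit 0x1fdc000000000000000000) (nat_lit 0xfe023c00000000000000000) (nat_lit 3) (.f1 w34 (nat_lit 0x1fdc000000000000000000) (nat_lit 0xfe023c00000000000000000)
  (nat_lit 3) (.f1 w17 (nat_lit 0x1fdc000000000000000000) (nat_lit 0xfe023c00000000000000000) (nat_lit 3) (.f1 w24 (nat_lit 0x1fdc000000000000000000) (nat_lit 0xfe023c00000000000000000) (nat_lit 3) (.f1 w21 (nat_lit 0xfe023c00000000000000000) (nat_lit 0x1fdc000000000000000000) (nat_lit 3) (.ret (nat_lit 0)) (.ret (nat_lit 67))) (.ret (nat_lit 0))) (.ret (nat_lit 0))) (.ret (nat_lit 0))) (.ret (nat_lit 67)))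
  (.ret (nat_lit 67))) (.ret (nat_lit 67)))) (.ret (nat_lit 67)))) (.v0 (nat_lit 0x3d0000000000000000) (nat_lit 0x20000000000000000) (nat_lit 3) (.ret (nat_lit 99)) (.ret (nat_lit 67)))) (.v1 w9 (nat_lit 0x3e0000000000000000) (nat_lit 0x10000000000000000) (nat_lit 3) (.v1 w4 (nat_lit 0x10000000000000000) (nat_lit 0x3e0000000000000000) (nat_lit 3) (.f0 (nat_lit 0x3ffc000000000000000000) (nat_lit 0xfc003c00000000000000000)
  (nat_lit 3) (.f0 (nat_lit 0x3fff400000000000000000) (nat_lit 0xfc000800000000000000000) (nat_lit 3) (.ret (nat_lit 99)) (.f0 (nat_lit 0xfc001000000000000000000) (nat_lit 0x3ffec00000000000000000) (nat_lit 3) (.ret (nat_lit 67)) (.ret (nat_lit 99)))) (.ret (nat_lit 99))) (.f1 w4 (nat_lit 0x3ffc000000000000000000) (nat_lit 0xfc003c00000000000000000) (nat_lit 3) (.f0 (nat_lit 0x3fff400000000000000000)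
  (nat_lit 0xfc000800000000000000000) (nat_lit 3) (.ret (nat_lit 83)) (.f0 (nat_lit 0x3ffec00000000000000000) (nat_lit 0xfc001000000000000000000) (nat_lit 3) (.ret (nat_lit 83)) (.ret (nat_lit 67)))) (.ret (nat_lit 83)))) (.f1 w23 (nat_lit 0x3ffc000000000000000000) (nat_lit 0xfc003c00000000000000000) (nat_lit 3) (.f0 (nat_lit 0x3fff400000000000000000) (nat_lit 0xfc000800000000000000000) (nat_lit 3) (.ret (nat_lit 115)) (.f0 (nat_lit 0x3ffec00000000000000000) (nat_lit 0xfc001000000000000000000) (nat_lit 3) (.ret (nat_lit 115)) (.ret (nat_lit 67)))) (.ret (nat_lit 115))))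
noncomputable def s5058 : FP := .f1 w107 (nat_lit 0xfe023c00000000000000000) (nat_lit 0x1fdc000000000000000000) (nat_lit 3) (.ret (nat_lit 67)) (.ret (nat_lit 0))
noncomputable def s5066 : FP := .v1 w4 (nat_lit 0x3e0000000000000000) (nat_lit 0x10000000000000000) (nat_lit 3) (.v1 w4 (nat_lit 0x3d0000000000000000) (nat_lit 0x20000000000000000) (nat_lit 3) (.f0 (nat_lit 0x3ffc000000000000000000) (nat_lit 0xfc003c00000000000000000) (nat_lit 3) (.f0 (nat_lit 0xfc000800000000000000000) (nat_lit 0x3fff400000000000000000) (nat_lit 3) (.f0 (nat_lit 0x3ffec00000000000000000)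
  (nat_lit 0xfc001000000000000000000) (nat_lit 3) (.v1 w9 (nat_lit 0x3e0000000000000000) (nat_lit 0x10000000000000000) (nat_lit 3) (.v1 w4 (nat_lit 0x20000000000000000) (nat_lit 0x3d0000000000000000) (nat_lit 3) (.ret (nat_lit 51)) (.ret (nat_lit 867))) (.v0 (nat_lit 0x3d0000000000000000) (nat_lit 0x20000000000000000) (nat_lit 3) (.ret (nat_lit 947)) (.ret (nat_lit 51)))) (.v1 w9 (nat_lit 0x3e0000000000000000)
  (nat_lit 0x10000000000000000) (nat_lit 3) (.v1 w4 (nat_lit 0x10000000000000000) (nat_lit 0x3e0000000000000000) (nat_lit 3) (.f0 (nat_lit 0x3ffc000000000000000000) (nat_lit 0xfc003c00000000000000000) (nat_lit 3) (.f0 (nat_lit 0x3fff400000000000000000) (nat_lit 0xfc000800000000000000000) (nat_lit 3) (.ret (nat_lit 947)) (.f0 (nat_lit 0x3ffec00000000000000000) (nat_lit 0xfc001000000000000000000) (nat_lit 3)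
  (.ret (nat_lit 947)) (.ret (nat_lit 51)))) (.ret (nat_lit 947))) (.f1 w4 (nat_lit 0x3ffc000000000000000000) (nat_lit 0xfc003c00000000000000000) (nat_lit 3) (.f0 (nat_lit 0xfc000800000000000000000) (nat_lit 0x3fff400000000000000000) (nat_lit 3) (.ret (nat_lit 51)) (.ret (nat_lit 867))) (.ret (nat_lit 867)))) (.f1 w23 (nat_lit 0x3ffc000000000000000000) (nat_lit 0xfc003c00000000000000000) (nat_lit 3)
  (.f0 (nat_lit 0xfc000800000000000000000) (nat_lit 0x3fff400000000000000000) (nat_lit 3) (.f0 (nat_lit 0x3ffec00000000000000000) (nat_lit 0xfc001000000000000000000) (nat_lit 3) (.ret (nat_lit 979)) (.ret (nat_lit 51))) (.ret (nat_lit 979))) (.ret (nat_lit 979))))) s5011) (.ret (nat_lit 51))) (.ret (nat_lit 0))) (.v0 (nat_lit 0x3d0000000000000000) (nat_lit 0x20000000000000000) (nat_lit 3) (.f0 (nat_lit 0x3ffc000000000000000000)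
  (nat_lit 0xfc003c00000000000000000) (nat_lit 3) (.f0 (nat_lit 0x3fff400000000000000000) (nat_lit 0xfc000800000000000000000) (nat_lit 3) (.v1 w9 (nat_lit 0x20000000000000000) (nat_lit 0x3d0000000000000000) (nat_lit 3) (.ret (nat_lit 67)) (.ret (nat_lit 83))) s5056) (.f0 (nat_lit 0xfc240000000000000000000) (nat_lit 0x3dbfc00000000000000000) (nat_lit 3) (.f1 w107 (nat_lit 0xfc000800000000000000000)
  (nat_lit 0x3fff400000000000000000) (nat_lit 3) (.f1 w60 (nat_lit 0xfe000000000000000000000) (nat_lit 0x1fffc00000000000000000) (nat_lit 3) (.ret (nat_lit 67)) (.ret (nat_lit 0))) (.v1 w6 (nat_lit 0x20000000000000000) (nat_lit 0x3d0000000000000000) (nat_lit 3) (.f1 w59 (nat_lit 0xfe000000000000000000000) (nat_lit 0x1fffc00000000000000000) (nat_lit 3) (.ret (nat_lit 67)) (.ret (nat_lit 0))) s5058)) (.ret (nat_lit 67)))) (.ret (nat_lit 0)))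
noncomputable def s5077 : FP := .v0 (nat_lit 0x3d0000000000000000) (nat_lit 0x20000000000000000) (nat_lit 3) (.ret (nat_lit 147)) (.ret (nat_lit 131))
noncomputable def s5090 : FP := .f0 (nat_lit 0x3ffec00000000000000000) (nat_lit 0xfc001000000000000000000) (nat_lit 3) (.v1 w9 (nat_lit 0x3e0000000000000000) (nat_lit 0x10000000000000000) (nat_lit 3) (.v1 w4 (nat_lit 0x10000000000000000) (nat_lit 0x3e0000000000000000) (nat_lit 3) (.v0 (nat_lit 0x3d0000000000000000) (nat_lit 0x20000000000000000) (nat_lit 3) (.ret (nat_lit 163)) (.ret (nat_lit 131)))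
  (.f1 w7 (nat_lit 0xfc000800000000000000000) (nat_lit 0x3fff400000000000000000) (nat_lit 3) (.ret (nat_lit 131)) (.v1 w16 (nat_lit 0x20000000000000000) (nat_lit 0x3d0000000000000000) (nat_lit 3) (.ret (nat_lit 131)) (.f1 w9 (nat_lit 0x1fdc000000000000000000) (nat_lit 0xfe023c00000000000000000) (nat_lit 3) (.f1 w344 (nat_lit 0x1fdc000000000000000000) (nat_lit 0xfe023c00000000000000000) (nat_lit 3)
  (.f1 w18 (nat_lit 0x1fdc000000000000000000) (nat_lit 0xfe023c00000000000000000) (nat_lit 3) (.f1 w24 (nat_lit 0x1fdc000000000000000000) (nat_lit 0xfe023c00000000000000000) (nat_lit 3) (.f1 w21 (nat_lit 0x1fdc000000000000000000) (nat_lit 0xfe023c00000000000000000) (nat_lit 3) (.ret (nat_lit 131)) (.ret (nat_lit 0))) (.ret (nat_lit 0))) (.ret (nat_lit 0))) (.ret (nat_lit 0))) (.ret (nat_lit 131)))))) s5077)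
  (.v1 w9 (nat_lit 0x3e0000000000000000) (nat_lit 0x10000000000000000) (nat_lit 3) (.v1 w4 (nat_lit 0x10000000000000000) (nat_lit 0x3e0000000000000000) (nat_lit 3) (.f0 (nat_lit 0x3ffc000000000000000000) (nat_lit 0xfc003c00000000000000000) (nat_lit 3) (.f0 (nat_lit 0x3fff400000000000000000) (nat_lit 0xfc000800000000000000000) (nat_lit 3) (.ret (nat_lit 179)) (.f0 (nat_lit 0xfc001000000000000000000)
  (nat_lit 0x3ffec00000000000000000) (nat_lit 3) (.ret (nat_lit 131)) (.ret (nat_lit 179)))) (.ret (nat_lit 179))) (.f1 w4 (nat_lit 0x3ffc000000000000000000) (nat_lit 0xfc003c00000000000000000) (nat_lit 3) (.f0 (nat_lit 0x3fff400000000000000000) (nat_lit 0xfc000800000000000000000) (nat_lit 3) (.ret (nat_lit 163)) (.f0 (nat_lit 0x3ffec00000000000000000) (nat_lit 0xfc001000000000000000000) (nat_lit 3)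
  (.ret (nat_lit 163)) (.ret (nat_lit 131)))) (.ret (nat_lit 163)))) (.f1 w23 (nat_lit 0x3ffc000000000000000000) (nat_lit 0xfc003c00000000000000000) (nat_lit 3) (.f0 (nat_lit 0xfc000800000000000000000) (nat_lit 0x3fff400000000000000000) (nat_lit 3) (.f0 (nat_lit 0x3ffec00000000000000000) (nat_lit 0xfc001000000000000000000) (nat_lit 3) (.ret (nat_lit 147)) (.ret (nat_lit 131))) (.ret (nat_lit 147))) (.ret (nat_lit 147))))
noncomputable def s5094 : FP := .f1 w9 (nat_lit 0xfe023c00000000000000000) (nat_lit 0x1fdc000000000000000000) (nat_lit 3) (.ret (nat_lit 131)) (.f1 w4 (nat_lit 0x1fdc000000000000000000) (nat_lit 0xfe023c00000000000000000) (nat_lit 3) (.ret (nat_lit 0)) (.ret (nat_lit 131)))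
noncomputable def s5104 : FP := .v1 w9 (nat_lit 0x20000000000000000) (nat_lit 0x3d0000000000000000) (nat_lit 3) (.ret (nat_lit 195)) (.ret (nat_lit 1075))
noncomputable def s5122 : FP := .v0 (nat_lit 0x3d0000000000000000) (nat_lit 0x20000000000000000) (nat_lit 3) (.ret (nat_lit 211)) (.ret (nat_lit 195))
noncomputable def s5126 : FP := .v1 w6 (nat_lit 0x3e0000000000000000) (nat_lit 0x10000000000000000) (nat_lit 3) (.v1 w4 (nat_lit 0x3e0000000000000000) (nat_lit 0x10000000000000000) (nat_lit 3) s5066 (.v0 (nat_lit 0x3d0000000000000000) (nat_lit 0x20000000000000000) (nat_lit 3) (.f0 (nat_lit 0x3ffc000000000000000000) (nat_lit 0xfc003c00000000000000000) (nat_lit 3) (.f0 (nat_lit 0x3fff400000000000000000)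
  (nat_lit 0xfc000800000000000000000) (nat_lit 3) (.v1 w9 (nat_lit 0x20000000000000000) (nat_lit 0x3d0000000000000000) (nat_lit 3) (.ret (nat_lit 131)) (.ret (nat_lit 147))) s5090) (.f0 (nat_lit 0xfc240000000000000000000) (nat_lit 0x3dbfc00000000000000000) (nat_lit 3) (.f1 w24 (nat_lit 0xfd000000000000000000000) (nat_lit 0x2fffc00000000000000000) (nat_lit 3) (.f1 w4 (nat_lit 0xfc000800000000000000000)
  (nat_lit 0x3fff400000000000000000) (nat_lit 3) (.f1 w25 (nat_lit 0xfe000000000000000000000) (nat_lit 0x1fffc00000000000000000) (nat_lit 3) (.ret (nat_lit 131)) (.ret (nat_lit 0))) (.v1 w16 (nat_lit 0x20000000000000000) (nat_lit 0x3d0000000000000000) (nat_lit 3) (.f1 w59 (nat_lit 0xfe000000000000000000000) (nat_lit 0x1fffc00000000000000000) (nat_lit 3) (.ret (nat_lit 131)) (.ret (nat_lit 0))) s5094))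
  (.f1 w107 (nat_lit 0xfe000000000000000000000) (nat_lit 0x1fffc00000000000000000) (nat_lit 3) (.ret (nat_lit 131)) (.ret (nat_lit 0)))) (.ret (nat_lit 131)))) (.ret (nat_lit 0)))) (.v0 (nat_lit 0x3d0000000000000000) (nat_lit 0x20000000000000000) (nat_lit 3) (.v1 w25 (nat_lit 0x3e0000000000000000) (nat_lit 0x10000000000000000) (nat_lit 3) (.f1 w27 (nat_lit 0x3ffc000000000000000000) (nat_lit 0xfc003c00000000000000000)
  (nat_lit 3) (.f0 (nat_lit 0xfc000800000000000000000) (nat_lit 0x3fff400000000000000000) (nat_lit 3) (.f0 (nat_lit 0x3ffec00000000000000000) (nat_lit 0xfc001000000000000000000) (nat_lit 3) (.v1 w9 (nat_lit 0x3e0000000000000000) (nat_lit 0x10000000000000000) (nat_lit 3) (.v1 w4 (nat_lit 0x3d0000000000000000) (nat_lit 0x20000000000000000) (nat_lit 3) (.ret (nat_lit 1091)) (.ret (nat_lit 195))) (.v0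
  (nat_lit 0x3d0000000000000000) (nat_lit 0x20000000000000000) (nat_lit 3) (.ret (nat_lit 1075)) (.ret (nat_lit 195)))) (.v1 w9 (nat_lit 0x3e0000000000000000) (nat_lit 0x10000000000000000) (nat_lit 3) (.v1 w4 (nat_lit 0x10000000000000000) (nat_lit 0x3e0000000000000000) (nat_lit 3) (.f0 (nat_lit 0x3ffc000000000000000000) (nat_lit 0xfc003c00000000000000000) (nat_lit 3) (.f0 (nat_lit 0x3fff400000000000000000)
  (nat_lit 0xfc000800000000000000000) (nat_lit 3) (.ret (nat_lit 1091)) (.f0 (nat_lit 0x3ffec00000000000000000) (nat_lit 0xfc001000000000000000000) (nat_lit 3) (.ret (nat_lit 1091)) (.ret (nat_lit 195)))) (.ret (nat_lit 1091))) (.f1 w4 (nat_lit 0x3ffc000000000000000000) (nat_lit 0xfc003c00000000000000000) (nat_lit 3) (.f0 (nat_lit 0xfc000800000000000000000) (nat_lit 0x3fff400000000000000000) (nat_lit 3)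
  (.f0 (nat_lit 0x3ffec00000000000000000) (nat_lit 0xfc001000000000000000000) (nat_lit 3) (.ret (nat_lit 1107)) (.ret (nat_lit 195))) (.ret (nat_lit 1107))) (.ret (nat_lit 1107)))) (.f1 w23 (nat_lit 0x3ffc000000000000000000) (nat_lit 0xfc003c00000000000000000) (nat_lit 3) (.f0 (nat_lit 0xfc000800000000000000000) (nat_lit 0x3fff400000000000000000) (nat_lit 3) (.f0 (nat_lit 0xfc001000000000000000000) (nat_lit 0x3ffec00000000000000000) (nat_lit 3) (.ret (nat_lit 195)) (.ret (nat_lit 1075))) (.ret (nat_lit 1075))) (.ret (nat_lit 1075))))) s5104) (.ret (nat_lit 195))) s5122) (.v1 w25 (nat_lit 0x3d0000000000000000) (nat_lit 0x20000000000000000) (nat_lit 3) (.ret (nat_lit 51)) (.ret (nat_lit 0))))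
noncomputable def s5132 : FP := .v1 w4 (nat_lit 0x3d0000000000000000) (nat_lit 0x20000000000000000) (nat_lit 3) (.ret (nat_lit 83)) (.ret (nat_lit 0))
noncomputable def s5161 : FP := .v1 w4 (nat_lit 0x3e0000000000000000) (nat_lit 0x10000000000000000) (nat_lit 3) (.v1 w4 (nat_lit 0x3e0000000000000000) (nat_lit 0x10000000000000000) (nat_lit 3) (.v1 w4 (nat_lit 0x3e0000000000000000) (nat_lit 0x10000000000000000) (nat_lit 3) (.v1 w4 (nat_lit 0x3d0000000000000000) (nat_lit 0x20000000000000000) (nat_lit 3) (.f0 (nat_lit 0x3fff400000000000000000) (nat_lit 0xfc000800000000000000000)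
  (nat_lit 3) s5011 (.ret (nat_lit 867))) (.ret (nat_lit 0))) (.v0 (nat_lit 0x3d0000000000000000) (nat_lit 0x20000000000000000) (nat_lit 3) (.f0 (nat_lit 0x3ffc000000000000000000) (nat_lit 0xfc003c00000000000000000) (nat_lit 3) (.f0 (nat_lit 0x3fff400000000000000000) (nat_lit 0xfc000800000000000000000) (nat_lit 3) (.v1 w9 (nat_lit 0x10000000000000000) (nat_lit 0x3e0000000000000000) (nat_lit 3) s5041
  (.f1 w81 (nat_lit 0x3fff400000000000000000) (nat_lit 0xfc000800000000000000000) (nat_lit 3) (.v1 w6 (nat_lit 0x20000000000000000) (nat_lit 0x3d0000000000000000) (nat_lit 3) (.ret (nat_lit 67)) s5058) (.ret (nat_lit 67)))) (.f0 (nat_lit 0x3ffec00000000000000000) (nat_lit 0xfc001000000000000000000) (nat_lit 3) (.v1 w9 (nat_lit 0x10000000000000000) (nat_lit 0x3e0000000000000000) (nat_lit 3) (.ret (nat_lit 99)) s5132)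
  (.v1 w9 (nat_lit 0x3e0000000000000000) (nat_lit 0x10000000000000000) (nat_lit 3) (.v1 w4 (nat_lit 0x3e0000000000000000) (nat_lit 0x10000000000000000) (nat_lit 3) s5132 (.ret (nat_lit 99))) (.ret (nat_lit 243))))) (.ret (nat_lit 0))) (.ret (nat_lit 0)))) (.f0 (nat_lit 0x3ffc000000000000000000) (nat_lit 0xfc003c00000000000000000) (nat_lit 3) (.f0 (nat_lit 0x3fff400000000000000000) (nat_lit 0xfc000800000000000000000)
  (nat_lit 3) (.v1 w9 (nat_lit 0x3d0000000000000000) (nat_lit 0x20000000000000000) (nat_lit 3) (.ret (nat_lit 163)) (.ret (nat_lit 259))) (.f0 (nat_lit 0x3ffec00000000000000000) (nat_lit 0xfc001000000000000000000) (nat_lit 3) (.v1 w9 (nat_lit 0x3e0000000000000000) (nat_lit 0x10000000000000000) (nat_lit 3) (.v1 w4 (nat_lit 0x3d0000000000000000) (nat_lit 0x20000000000000000) (nat_lit 3) (.ret (nat_lit 163))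
  (.ret (nat_lit 0))) (.ret (nat_lit 115))) (.v1 w9 (nat_lit 0x3e0000000000000000) (nat_lit 0x10000000000000000) (nat_lit 3) (.ret (nat_lit 163)) (.ret (nat_lit 115))))) (.ret (nat_lit 0)))) (.v0 (nat_lit 0x3d0000000000000000) (nat_lit 0x20000000000000000) (nat_lit 3) (.v1 w25 (nat_lit 0x3e0000000000000000) (nat_lit 0x10000000000000000) (nat_lit 3) (.f1 w27 (nat_lit 0x3ffc000000000000000000) (nat_lit 0xfc003c00000000000000000)
  (nat_lit 3) (.f0 (nat_lit 0x3fff400000000000000000) (nat_lit 0xfc000800000000000000000) (nat_lit 3) (.v1 w9 (nat_lit 0x10000000000000000) (nat_lit 0x3e0000000000000000) (nat_lit 3) s5077 (.f1 w81 (nat_lit 0xfc000800000000000000000) (nat_lit 0x3fff400000000000000000) (nat_lit 3) (.ret (nat_lit 131)) (.v1 w16 (nat_lit 0x20000000000000000) (nat_lit 0x3d0000000000000000) (nat_lit 3) (.ret (nat_lit 131)) s5094)))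
  (.f0 (nat_lit 0x3ffec00000000000000000) (nat_lit 0xfc001000000000000000000) (nat_lit 3) (.v1 w9 (nat_lit 0x3e0000000000000000) (nat_lit 0x10000000000000000) (nat_lit 3) (.v1 w4 (nat_lit 0x3d0000000000000000) (nat_lit 0x20000000000000000) (nat_lit 3) (.ret (nat_lit 179)) (.ret (nat_lit 0))) (.ret (nat_lit 147))) (.ret (nat_lit 291)))) (.ret (nat_lit 0))) (.v0 (nat_lit 0x3d0000000000000000) (nat_lit 0x20000000000000000) (nat_lit 3) (.ret (nat_lit 211)) (.ret (nat_lit 131)))) (.ret (nat_lit 51)))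
noncomputable def s5174 : FP := .f0 (nat_lit 0xfc001000000000000000000) (nat_lit 0x3ffec00000000000000000) (nat_lit 3) (.ret (nat_lit 51)) (.ret (nat_lit 211))
noncomputable def s5187 : FP := .f0 (nat_lit 0xfc001000000000000000000) (nat_lit 0x3ffec00000000000000000) (nat_lit 3) (.ret (nat_lit 67)) (.ret (nat_lit 307))
noncomputable def s5212 : FP := .v1 w6 (nat_lit 0x3e0000000000000000) (nat_lit 0x10000000000000000) (nat_lit 3) (.v1 w4 (nat_lit 0x3e0000000000000000) (nat_lit 0x10000000000000000) (nat_lit 3) (.v1 w4 (nat_lit 0x20000000000000000) (nat_lit 0x3d0000000000000000) (nat_lit 3) (.ret (nat_lit 0)) (.f1 w23 (nat_lit 0x3ffc000000000000000000) (nat_lit 0xfc003c00000000000000000) (nat_lit 3) (.f0 (nat_lit 0x3fff400000000000000000)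
  (nat_lit 0xfc000800000000000000000) (nat_lit 3) (.f1 w39 (nat_lit 0x3ffc000000000000000000) (nat_lit 0xfc003c00000000000000000) (nat_lit 3) (.f0 (nat_lit 0xfc000800000000000000000) (nat_lit 0x3fff400000000000000000) (nat_lit 3) (.f0 (nat_lit 0xfc001000000000000000000) (nat_lit 0x3ffec00000000000000000) (nat_lit 3) (.ret (nat_lit 323)) (.ret (nat_lit 211))) (.ret (nat_lit 211))) (.ret (nat_lit 211))) s5174)
  (.ret (nat_lit 211)))) (.v0 (nat_lit 0x3d0000000000000000) (nat_lit 0x20000000000000000) (nat_lit 3) (.v1 w25 (nat_lit 0x3e0000000000000000) (nat_lit 0x10000000000000000) (nat_lit 3) (.v1 w4 (nat_lit 0x3d0000000000000000) (nat_lit 0x20000000000000000) (nat_lit 3) (.f1 w60 (nat_lit 0x3ffc000000000000000000) (nat_lit 0xfc003c00000000000000000) (nat_lit 3) (.f0 (nat_lit 0x3fff400000000000000000) (nat_lit 0xfc000800000000000000000)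
  (nat_lit 3) (.f1 w345 (nat_lit 0x3ffc000000000000000000) (nat_lit 0xfc003c00000000000000000) (nat_lit 3) (.f0 (nat_lit 0x3fff400000000000000000) (nat_lit 0xfc000800000000000000000) (nat_lit 3) (.ret (nat_lit 211)) (.f0 (nat_lit 0xfc001000000000000000000) (nat_lit 0x3ffec00000000000000000) (nat_lit 3) (.ret (nat_lit 131)) (.ret (nat_lit 211)))) (.ret (nat_lit 211))) s5174) (.ret (nat_lit 211))) (.ret
  (nat_lit 0))) (.f1 w27 (nat_lit 0x3ffc000000000000000000) (nat_lit 0xfc003c00000000000000000) (nat_lit 3) (.f0 (nat_lit 0x3fff400000000000000000) (nat_lit 0xfc000800000000000000000) (nat_lit 3) (.f1 w39 (nat_lit 0x3ffc000000000000000000) (nat_lit 0xfc003c00000000000000000) (nat_lit 3) (.f0 (nat_lit 0xfc000800000000000000000) (nat_lit 0x3fff400000000000000000) (nat_lit 3) (.f0 (nat_lit 0xfc001000000000000000000)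
  (nat_lit 0x3ffec00000000000000000) (nat_lit 3) (.ret (nat_lit 131)) (.ret (nat_lit 307))) (.ret (nat_lit 307))) (.ret (nat_lit 307))) s5187) (.ret (nat_lit 307)))) (.ret (nat_lit 0)))) (.v0 (nat_lit 0x3d0000000000000000) (nat_lit 0x20000000000000000) (nat_lit 3) (.v1 w25 (nat_lit 0x3e0000000000000000) (nat_lit 0x10000000000000000) (nat_lit 3) (.v1 w4 (nat_lit 0x10000000000000000) (nat_lit 0x3e0000000000000000)
  (nat_lit 3) (.f1 w60 (nat_lit 0x3ffc000000000000000000) (nat_lit 0xfc003c00000000000000000) (nat_lit 3) (.f0 (nat_lit 0x3fff400000000000000000) (nat_lit 0xfc000800000000000000000) (nat_lit 3) (.f1 w345 (nat_lit 0x3ffc000000000000000000) (nat_lit 0xfc003c00000000000000000) (nat_lit 3) (.f0 (nat_lit 0x3fff400000000000000000) (nat_lit 0xfc000800000000000000000) (nat_lit 3) (.ret (nat_lit 307)) (.f0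
  (nat_lit 0x3ffec00000000000000000) (nat_lit 0xfc001000000000000000000) (nat_lit 3) (.ret (nat_lit 307)) (.ret (nat_lit 195)))) (.ret (nat_lit 307))) s5187) (.ret (nat_lit 307))) (.f1 w107 (nat_lit 0x3ffc000000000000000000) (nat_lit 0xfc003c00000000000000000) (nat_lit 3) (.f0 (nat_lit 0x3fff400000000000000000) (nat_lit 0xfc000800000000000000000) (nat_lit 3) (.f1 w346 (nat_lit 0x3ffc000000000000000000)
  (nat_lit 0xfc003c00000000000000000) (nat_lit 3) (.f0 (nat_lit 0xfc000800000000000000000) (nat_lit 0x3fff400000000000000000) (nat_lit 3) (.f0 (nat_lit 0xfc001000000000000000000) (nat_lit 0x3ffec00000000000000000) (nat_lit 3) (.ret (nat_lit 195)) (.ret (nat_lit 211))) (.ret (nat_lit 211))) (.ret (nat_lit 211))) s5174) (.ret (nat_lit 211)))) (.f1 w27 (nat_lit 0x3ffc000000000000000000) (nat_lit 0xfc003c00000000000000000)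
  (nat_lit 3) (.f0 (nat_lit 0x3fff400000000000000000) (nat_lit 0xfc000800000000000000000) (nat_lit 3) (.f1 w39 (nat_lit 0x3ffc000000000000000000) (nat_lit 0xfc003c00000000000000000) (nat_lit 3) (.f0 (nat_lit 0xfc000800000000000000000) (nat_lit 0x3fff400000000000000000) (nat_lit 3) (.f0 (nat_lit 0x3ffec00000000000000000) (nat_lit 0xfc001000000000000000000) (nat_lit 3) (.ret (nat_lit 339)) (.ret (nat_lit 195))) (.ret (nat_lit 339))) (.ret (nat_lit 339))) (.f0 (nat_lit 0x3ffec00000000000000000) (nat_lit 0xfc001000000000000000000) (nat_lit 3) (.ret (nat_lit 339)) (.ret (nat_lit 259)))) (.ret (nat_lit 339)))) (.ret (nat_lit 0)))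
noncomputable def s5229 : FP := .f0 (nat_lit 0x3ffc000000000000000000) (nat_lit 0xfc003c00000000000000000) (nat_lit 3) (.f0 (nat_lit 0xfc000400000000000000000) (nat_lit 0x3fff800000000000000000) (nat_lit 3) (.f0 (nat_lit 0x3fff400000000000000000) (nat_lit 0xfc000800000000000000000) (nat_lit 3) s5126 (.f0 (nat_lit 0x3ffec00000000000000000) (nat_lit 0xfc001000000000000000000) (nat_lit 3) (.v1 w6 (nat_lit 0x3e0000000000000000)
  (nat_lit 0x10000000000000000) (nat_lit 3) s5161 (.v0 (nat_lit 0x3d0000000000000000) (nat_lit 0x20000000000000000) (nat_lit 3) (.v1 w25 (nat_lit 0x3e0000000000000000) (nat_lit 0x10000000000000000) (nat_lit 3) (.v1 w4 (nat_lit 0x3e0000000000000000) (nat_lit 0x10000000000000000) (nat_lit 3) (.f1 w25 (nat_lit 0x3fff400000000000000000) (nat_lit 0xfc000800000000000000000) (nat_lit 3) s5104 (.v1 w9 (nat_lit 0x10000000000000000)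
  (nat_lit 0x3e0000000000000000) (nat_lit 3) (.ret (nat_lit 1075)) (.v1 w4 (nat_lit 0x10000000000000000) (nat_lit 0x3e0000000000000000) (nat_lit 3) (.ret (nat_lit 1091)) (.ret (nat_lit 1107))))) s5122) (.v0 (nat_lit 0x3d0000000000000000) (nat_lit 0x20000000000000000) (nat_lit 3) (.ret (nat_lit 307)) (.ret (nat_lit 195)))) (.v1 w25 (nat_lit 0x3e0000000000000000) (nat_lit 0x10000000000000000) (nat_lit 3)
  (.ret (nat_lit 51)) (.ret (nat_lit 67))))) s5212)) (.v1 w6 (nat_lit 0x3e0000000000000000) (nat_lit 0x10000000000000000) (nat_lit 3) (.v1 w4 (nat_lit 0x3e0000000000000000) (nat_lit 0x10000000000000000) (nat_lit 3) (.v1 w2 (nat_lit 0x40000000000000000) (nat_lit 0x3b0000000000000000) (nat_lit 3) (.v0 (nat_lit 0x80000000000000000) (nat_lit 0x370000000000000000) (nat_lit 3) (.ret (nat_lit 0)) (.f1 w1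
  (nat_lit 0x3fff800000000000000000) (nat_lit 0xfc000400000000000000000) (nat_lit 3) (.f1 w1 (nat_lit 0xfc000400000000000000000) (nat_lit 0x3fff800000000000000000) (nat_lit 3) (.ret (nat_lit 51)) (.ret (nat_lit 0))) (.ret (nat_lit 0)))) (.ret (nat_lit 51))) (.ret (nat_lit 67))) (.v1 w1 (nat_lit 0x3b0000000000000000) (nat_lit 0x40000000000000000) (nat_lit 3) (.ret (nat_lit 195)) (.f1 w5 (nat_lit 0x3fff800000000000000000)
  (nat_lit 0xfc000400000000000000000) (nat_lit 3) (.f1 w40 (nat_lit 0xfc000400000000000000000) (nat_lit 0x3fff800000000000000000) (nat_lit 3) (.ret (nat_lit 195)) (.ret (nat_lit 0))) (.ret (nat_lit 0)))))) (.f0 (nat_lit 0xfe000000000000000000000) (nat_lit 0x1fffc00000000000000000) (nat_lit 3) (.ret (nat_lit 0)) (.v1 w6 (nat_lit 0x3e0000000000000000) (nat_lit 0x10000000000000000) (nat_lit 3) (.v1 w4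
  (nat_lit 0x3e0000000000000000) (nat_lit 0x10000000000000000) (nat_lit 3) (.v1 w4 (nat_lit 0x3e0000000000000000) (nat_lit 0x10000000000000000) (nat_lit 3) (.v1 w4 (nat_lit 0x3e0000000000000000) (nat_lit 0x10000000000000000) (nat_lit 3) (.v1 w4 (nat_lit 0x20000000000000000) (nat_lit 0x3d0000000000000000) (nat_lit 3) (.ret (nat_lit 0)) (.v1 w9 (nat_lit 0x20000000000000000) (nat_lit 0x3d0000000000000000)
  (nat_lit 3) (.ret (nat_lit 0)) (.ret (nat_lit 83)))) (.v0 (nat_lit 0x3d0000000000000000) (nat_lit 0x20000000000000000) (nat_lit 3) (.v1 w9 (nat_lit 0x20000000000000000) (nat_lit 0x3d0000000000000000) (nat_lit 3) (.ret (nat_lit 0)) (.ret (nat_lit 163))) (.ret (nat_lit 0)))) (.v0 (nat_lit 0x3d0000000000000000) (nat_lit 0x20000000000000000) (nat_lit 3) (.v1 w331 (nat_lit 0x20000000000000000) (nat_lit 0x3d0000000000000000) (nat_lit 3) (.ret (nat_lit 0)) (.ret (nat_lit 115))) (.ret (nat_lit 0)))) (.v0 (nat_lit 0x3d0000000000000000) (nat_lit 0x20000000000000000)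 (nat_lit 3) (.v1 w331 (nat_lit 0x20000000000000000) (nat_lit 0x3d0000000000000000) (nat_lit 3) (.ret (nat_lit 0)) (.ret (nat_lit 147))) (.ret (nat_lit 0)))) (.ret (nat_lit 0))))
noncomputable def s5247 : FP := .v1 w14 (nat_lit 0x3e0000000000000000) (nat_lit 0x10000000000000000) (nat_lit 6) (.ret (nat_lit 22)) (.ret (nat_lit 0))
noncomputable def s5256 : FP := .f0 (nat_lit 0xfc000800000000000000000) (nat_lit 0x3fff400000000000000000) (nat_lit 8) (.f0 (nat_lit 0x3ffec00000000000000000) (nat_lit 0xfc001000000000000000000) (nat_lit 8) (.ret (nat_lit 24)) (.ret (nat_lit 0))) (.ret (nat_lit 24))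
noncomputable def s5259 : FP := .f0 (nat_lit 0x3ffec00000000000000000) (nat_lit 0xfc001000000000000000000) (nat_lit 6) s5247 (.ret (nat_lit 0))
noncomputable def s5270 : FP := .f0 (nat_lit 0xfc000800000000000000000) (nat_lit 0x3fff400000000000000000) (nat_lit 8) (.f0 (nat_lit 0xfc001000000000000000000) (nat_lit 0x3ffec00000000000000000) (nat_lit 8) (.ret (nat_lit 22)) (.ret (nat_lit 24))) (.ret (nat_lit 24))
noncomputable def s5287 : FP := .f0 (nat_lit 0x3ffec00000000000000000) (nat_lit 0xfc001000000000000000000) (nat_lit 8) (.v1 w9 (nat_lit 0x3e0000000000000000) (nat_lit 0x10000000000000000) (nat_lit 8) (.v1 w4 (nat_lit 0x20000000000000000) (nat_lit 0x3d0000000000000000) (nat_lit 8) (.ret (nat_lit 22)) (.f1 w25 (nat_lit 0x3ffc000000000000000000) (nat_lit 0xfc003c00000000000000000) (nat_lit 8) (.f0 (nat_lit 0xfc000800000000000000000)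
  (nat_lit 0x3fff400000000000000000) (nat_lit 8) s5259 (.v1 w14 (nat_lit 0x3e0000000000000000) (nat_lit 0x10000000000000000) (nat_lit 8) (.f1 w118 (nat_lit 0x3ffc000000000000000000) (nat_lit 0xfc003c00000000000000000) (nat_lit 8) s5256 (.ret (nat_lit 24))) (.ret (nat_lit 0)))) (.ret (nat_lit 22)))) (.v0 (nat_lit 0x3d0000000000000000) (nat_lit 0x20000000000000000) (nat_lit 8) (.f1 w107 (nat_lit 0x3ffc000000000000000000)
  (nat_lit 0xfc003c00000000000000000) (nat_lit 8) (.f0 (nat_lit 0xfc000800000000000000000) (nat_lit 0x3fff400000000000000000) (nat_lit 8) s5259 (.v1 w14 (nat_lit 0x3e0000000000000000) (nat_lit 0x10000000000000000) (nat_lit 8) (.f1 w30 (nat_lit 0x3ffc000000000000000000) (nat_lit 0xfc003c00000000000000000) (nat_lit 8) s5256 (.ret (nat_lit 24))) (.ret (nat_lit 0)))) (.ret (nat_lit 22))) (.ret (nat_lit 22))))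
  (.v1 w9 (nat_lit 0x3e0000000000000000) (nat_lit 0x10000000000000000) (nat_lit 8) (.v1 w4 (nat_lit 0x10000000000000000) (nat_lit 0x3e0000000000000000) (nat_lit 8) (.v0 (nat_lit 0x3d0000000000000000) (nat_lit 0x20000000000000000) (nat_lit 8) (.f1 w107 (nat_lit 0x3fff400000000000000000) (nat_lit 0xfc000800000000000000000) (nat_lit 8) (.v1 w9 (nat_lit 0x3e0000000000000000) (nat_lit 0x10000000000000000)
  (nat_lit 8) (.v1 w4 (nat_lit 0x3e0000000000000000) (nat_lit 0x10000000000000000) (nat_lit 8) (.f1 w118 (nat_lit 0x3ffc000000000000000000) (nat_lit 0xfc003c00000000000000000) (nat_lit 8) s5270 (.ret (nat_lit 24))) (.ret (nat_lit 0))) (.ret (nat_lit 0))) (.ret (nat_lit 22))) (.ret (nat_lit 0))) (.v1 w4 (nat_lit 0x3d0000000000000000) (nat_lit 0x20000000000000000) (nat_lit 8) (.f1 w25 (nat_lit 0xfc000800000000000000000)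
  (nat_lit 0x3fff400000000000000000) (nat_lit 8) (.ret (nat_lit 22)) (.v1 w14 (nat_lit 0x3e0000000000000000) (nat_lit 0x10000000000000000) (nat_lit 8) (.f1 w145 (nat_lit 0x3ffc000000000000000000) (nat_lit 0xfc003c00000000000000000) (nat_lit 8) s5270 (.ret (nat_lit 24))) (.ret (nat_lit 0)))) (.ret (nat_lit 22)))) (.v0 (nat_lit 0x3d0000000000000000) (nat_lit 0x20000000000000000) (nat_lit 8) (.f1 w168
  (nat_lit 0x3fff400000000000000000) (nat_lit 0xfc000800000000000000000) (nat_lit 8) (.v1 w9 (nat_lit 0x3e0000000000000000) (nat_lit 0x10000000000000000) (nat_lit 8) (.v1 w4 (nat_lit 0x3e0000000000000000) (nat_lit 0x10000000000000000) (nat_lit 8) (.f1 w30 (nat_lit 0x3ffc000000000000000000) (nat_lit 0xfc003c00000000000000000) (nat_lit 8) s5270 (.ret (nat_lit 24))) (.ret (nat_lit 0))) (.ret (nat_lit 0))) (.ret (nat_lit 22))) (.ret (nat_lit 0))))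
noncomputable def s5291 : FP := .f0 (nat_lit 0xfd000000000000000000000) (nat_lit 0x2fffc00000000000000000) (nat_lit 8) (.v0 (nat_lit 0x20000000000000000) (nat_lit 0x3d0000000000000000) (nat_lit 8) (.ret (nat_lit 0)) (.f0 (nat_lit 0xfc003c00000000000000000) (nat_lit 0x3ffc000000000000000000) (nat_lit 8) (.ret (nat_lit 22)) (.f0 (nat_lit 0xfc000800000000000000000) (nat_lit 0x3fff400000000000000000) (nat_lit 8) s5287
  (.v1 w9 (nat_lit 0x10000000000000000) (nat_lit 0x3e0000000000000000) (nat_lit 8) (.v0 (nat_lit 0x3d0000000000000000) (nat_lit 0x20000000000000000) (nat_lit 8) (.f1 w27 (nat_lit 0x3ffc000000000000000000) (nat_lit 0xfc003c00000000000000000) (nat_lit 8) (.f0 (nat_lit 0xfc000800000000000000000) (nat_lit 0x3fff400000000000000000) (nat_lit 8) (.ret (nat_lit 22)) (.v1 w14 (nat_lit 0x3e0000000000000000)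
  (nat_lit 0x10000000000000000) (nat_lit 8) (.ret (nat_lit 24)) (.ret (nat_lit 0)))) (.f1 w27 (nat_lit 0x3ffc000000000000000000) (nat_lit 0xfc003c00000000000000000) (nat_lit 6) s5247 (.ret (nat_lit 22)))) (.v1 w1 (nat_lit 0x370000000000000000) (nat_lit 0x80000000000000000) (nat_lit 6) (.f1 w1 (nat_lit 0xfc000400000000000000000) (nat_lit 0x3fff800000000000000000) (nat_lit 6) (.f1 w75 (nat_lit 0xfc000400000000000000000)
  (nat_lit 0x3fff800000000000000000) (nat_lit 6) (.ret (nat_lit 22)) (.ret (nat_lit 0))) (.ret (nat_lit 0))) (.ret (nat_lit 22)))) (.ret (nat_lit 0)))))) (.v0 (nat_lit 0x3e0000000000000000) (nat_lit 0x10000000000000000) (nat_lit 3) (.v1 w42 (nat_lit 0x3e0000000000000000) (nat_lit 0x10000000000000000) (nat_lit 3) s5229 (.v0 (nat_lit 0x3d0000000000000000) (nat_lit 0x20000000000000000) (nat_lit 3) (.ret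
  (nat_lit 227)) (.f0 (nat_lit 0xfc000400000000000000000) (nat_lit 0x3fff800000000000000000) (nat_lit 3) (.f0 (nat_lit 0xfc000800000000000000000) (nat_lit 0x3fff400000000000000000) (nat_lit 3) (.f0 (nat_lit 0xfc001000000000000000000) (nat_lit 0x3ffec00000000000000000) (nat_lit 3) (.ret (nat_lit 0)) (.v1 w9 (nat_lit 0x3e0000000000000000) (nat_lit 0x10000000000000000) (nat_lit 3) (.ret (nat_lit 259))
  (.ret (nat_lit 131)))) (.v1 w9 (nat_lit 0x3d0000000000000000) (nat_lit 0x20000000000000000) (nat_lit 3) (.ret (nat_lit 131)) (.ret (nat_lit 0)))) (.ret (nat_lit 227))))) (.v0 (nat_lit 0x3d0000000000000000) (nat_lit 0x20000000000000000) (nat_lit 3) (.ret (nat_lit 19)) (.f1 w42 (nat_lit 0xfc000400000000000000000) (nat_lit 0x3fff800000000000000000) (nat_lit 3) (.f0 (nat_lit 0xfc000800000000000000000)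
  (nat_lit 0x3fff400000000000000000) (nat_lit 3) (.f0 (nat_lit 0xfc001000000000000000000) (nat_lit 0x3ffec00000000000000000) (nat_lit 3) (.ret (nat_lit 0)) (.v1 w14 (nat_lit 0x10000000000000000) (nat_lit 0x3e0000000000000000) (nat_lit 3) (.f0 (nat_lit 0x3fff400000000000000000) (nat_lit 0xfc000800000000000000000) (nat_lit 3) (.ret (nat_lit 259)) (.ret (nat_lit 0))) (.ret (nat_lit 67)))) (.v1 w14 (nat_lit 0x3d0000000000000000) (nat_lit 0x20000000000000000) (nat_lit 3) (.ret (nat_lit 67)) (.ret (nat_lit 0)))) (.ret (nat_lit 355)))))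
noncomputable def s5301 : FP := .v0 (nat_lit 0x10000000000000000) (nat_lit 0x3e0000000000000000) (nat_lit 6) (.v0 (nat_lit 0x3d0000000000000000) (nat_lit 0x20000000000000000) (nat_lit 6) (.ret (nat_lit 0)) (.f0 (nat_lit 0xfc000400000000000000000) (nat_lit 0x3fff800000000000000000) (nat_lit 6) (.v0 (nat_lit 0x3b0000000000000000) (nat_lit 0x40000000000000000) (nat_lit 6) (.ret (nat_lit 0)) (.f0 (nat_lit 0x3fff400000000000000000)
  (nat_lit 0xfc000800000000000000000) (nat_lit 6) (.v1 w9 (nat_lit 0x20000000000000000) (nat_lit 0x3d0000000000000000) (nat_lit 6) (.ret (nat_lit 0)) (.v1 w170 (nat_lit 0x370000000000000000) (nat_lit 0x80000000000000000) (nat_lit 6) (.f1 w1 (nat_lit 0x3fff800000000000000000) (nat_lit 0xfc000400000000000000000) (nat_lit 6) (.ret (nat_lit 0)) (.f1 w75 (nat_lit 0x3fff800000000000000000) (nat_lit 0xfc000400000000000000000) (nat_lit 6) (.ret (nat_lit 0)) (.ret (nat_lit 38)))) (.ret (nat_lit 38)))) (.ret (nat_lit 0)))) (.ret (nat_lit 38))))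 (.ret (nat_lit 0))

end Pool.Agent.Lib.G6.Z
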