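import Pool.Agent.Lib.G6.KDef

set_option autoImplicit false
set_option maxRecDepth 100000
set_option linter.all false

namespace Pool.Agent.Lib.G6.Z

open Pool.Agent.Lib.G6 Pool.Agent.Lib.G6.K
open Pool.Agent.Lib.MP_bfaad3_co (BT)

noncomputable def w0 : WW := ⟨.a (.s (.a (.s (.a (.s (.a (.s (.a (.i (.a (.i (.a (.i (.e)))))))))))))), fun m x => (Nat.land (Nat.shiftRight (Nat.shiftRight m (nat_lit 17)) (Nat.land (Nat.shiftRight (Nat.shiftRight m (nat_lit 34)) (Nat.land (Nat.shiftRight (Nat.shiftRight m (nat_lit 17)) (Nat.land (Nat.shiftRight (Nat.shiftRight m (nat_lit 34)) (Nat.land (Nat.shiftRight (Nat.shiftRight m (nat_lit 17))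
  (Nat.land (Nat.shiftRight (Nat.shiftRight m (nat_lit 34)) (Nat.land (Nat.shiftRight m (Nat.land (Nat.shiftRight (Nat.shiftRight m (nat_lit 34)) (Nat.land (Nat.shiftRight m (Nat.land (Nat.shiftRight (Nat.shiftRight m (nat_lit 34)) (Nat.land (Nat.shiftRight m (Nat.land (Nat.shiftRight (Nat.shiftRight m (nat_lit 34)) (Nat.land (Nat.shiftRight m (Nat.land (Nat.shiftRight x (nat_lit 34)) (nat_lit 131071))) (nat_lit 131071))) (nat_lit 131071))) (nat_lit 131071))) (nat_lit 131071))) (nat_lit 131071))) (nat_lit 131071))) (nat_lit 131071))) (nat_lit 131071))) (nat_lit 131071))) (nat_lit 131071))) (nat_lit 131071))) (nat_lit 131071))) (nat_lit 131071)), rfl⟩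
noncomputable def w1 : WW := ⟨.s (.e), fun m x => (Nat.land x (nat_lit 131071)), rfl⟩
noncomputable def w2 : WW := ⟨.s (.a (.s (.e))), fun m x => (Nat.land (Nat.shiftRight m (Nat.land (Nat.shiftRight (Nat.shiftRight m (nat_lit 34)) (Nat.land x (nat_lit 131071))) (nat_lit 131071))) (nat_lit 131071)), rfl⟩
noncomputable def w3 : WW := ⟨.s (.s (.s (.s (.a (.s (.a (.s (.a (.s (.a (.e))))))))))), fun m x => (Nat.land (Nat.shiftRight (Nat.shiftRight m (nat_lit 34)) (Nat.land (Nat.shiftRight m (Nat.land (Nat.shiftRight (Nat.shiftRight m (nat_lit 34)) (Nat.land (Nat.shiftRight m (Nat.land (Nat.shiftRight (Nat.shiftRight m (nat_lit 34)) (Nat.land (Nat.shiftRight m (Nat.land (Nat.shiftRight (Nat.shiftRight m (nat_lit 34)) (Nat.land (Nat.shiftRight m (Nat.land (Nat.shiftRight m (Nat.land (Nat.shiftRight m (Nat.land x (nat_lit 131071))) (nat_lit 131071))) (nat_lit 131071))) (nat_lit 131071))) (nat_lit 131071))) (nat_lit 131071))) (nat_lit 131071))) (nat_lit 131071)))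 (nat_lit 131071))) (nat_lit 131071))) (nat_lit 131071)), rfl⟩
noncomputable def w4 : WW := ⟨.s (.a (.e)), fun m x => (Nat.land (Nat.shiftRight (Nat.shiftRight m (nat_lit 34)) (Nat.land x (nat_lit 131071))) (nat_lit 131071)), rfl⟩
noncomputable def w5 : WW := ⟨.s (.s (.s (.e))), fun m x => (Nat.land (Nat.shiftRight m (Nat.land (Nat.shiftRight m (Nat.land x (nat_lit 131071))) (nat_lit 131071))) (nat_lit 131071)), rfl⟩
noncomputable def w6 : WW := ⟨.a (.s (.a (.e))), fun m x => (Nat.land (Nat.shiftRight (Nat.shiftRight m (nat_lit 34)) (Nat.land (Nat.shiftRight m (Nat.land (Nat.shiftRight x (nat_lit 34)) (nat_lit 131071))) (nat_lit 131071))) (nat_lit 131071)), rfl⟩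
noncomputable def w7 : WW := ⟨.s (.a (.s (.a (.i (.a (.s (.a (.e)))))))), fun m x => (Nat.land (Nat.shiftRight (Nat.shiftRight m (nat_lit 34)) (Nat.land (Nat.shiftRight m (Nat.land (Nat.shiftRight (Nat.shiftRight m (nat_lit 34)) (Nat.land (Nat.shiftRight (Nat.shiftRight m (nat_lit 17)) (Nat.land (Nat.shiftRight (Nat.shiftRight m (nat_lit 34)) (Nat.land (Nat.shiftRight m (Nat.land (Nat.shiftRight (Nat.shiftRight m (nat_lit 34)) (Nat.land x (nat_lit 131071))) (nat_lit 131071))) (nat_lit 131071))) (nat_lit 131071))) (nat_lit 131071))) (nat_lit 131071))) (nat_lit 131071))) (nat_lit 131071)), rfl⟩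
noncomputable def w8 : WW := ⟨.a (.s (.a (.s (.a (.s (.a (.s (.a (.i (.a (.i (.a (.s (.a (.e))))))))))))))), fun m x => (Nat.land (Nat.shiftRight (Nat.shiftRight m (nat_lit 34)) (Nat.land (Nat.shiftRight m (Nat.land (Nat.shiftRight (Nat.shiftRight m (nat_lit 34)) (Nat.land (Nat.shiftRight (Nat.shiftRight m (nat_lit 17)) (Nat.land (Nat.shiftRight (Nat.shiftRight m (nat_lit 34)) (Nat.land (Nat.shiftRight
  (Nat.shiftRight m (nat_lit 17)) (Nat.land (Nat.shiftRight (Nat.shiftRight m (nat_lit 34)) (Nat.land (Nat.shiftRight m (Nat.land (Nat.shiftRight (Nat.shiftRight m (nat_lit 34)) (Nat.land (Nat.shiftRight m (Nat.land (Nat.shiftRight (Nat.shiftRight m (nat_lit 34)) (Nat.land (Nat.shiftRight m (Nat.land (Nat.shiftRight (Nat.shiftRight m (nat_lit 34)) (Nat.land (Nat.shiftRight m (Nat.land (Nat.shiftRight x (nat_lit 34)) (nat_lit 131071))) (nat_lit 131071))) (nat_lit 131071))) (nat_lit 131071))) (nat_lit 131071))) (nat_lit 131071))) (nat_lit 131071))) (nat_lit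 131071))) (nat_lit 131071))) (nat_lit 131071))) (nat_lit 131071))) (nat_lit 131071))) (nat_lit 131071))) (nat_lit 131071))) (nat_lit 131071)), rfl⟩
noncomputable def w9 : WW := ⟨.a (.s (.a (.s (.a (.e))))), fun m x => (Nat.land (Nat.shiftRight (Nat.shiftRight m (nat_lit 34)) (Nat.land (Nat.shiftRight m (Nat.land (Nat.shiftRight (Nat.shiftRight m (nat_lit 34)) (Nat.land (Nat.shiftRight m (Nat.land (Nat.shiftRight x (nat_lit 34)) (nat_lit 131071))) (nat_lit 131071))) (nat_lit 131071))) (nat_lit 131071))) (nat_lit 131071)), rfl⟩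
noncomputable def w10 : WW := ⟨.s (.a (.i (.a (.e)))), fun m x => (Nat.land (Nat.shiftRight (Nat.shiftRight m (nat_lit 34)) (Nat.land (Nat.shiftRight (Nat.shiftRight m (nat_lit 17)) (Nat.land (Nat.shiftRight (Nat.shiftRight m (nat_lit 34)) (Nat.land x (nat_lit 131071))) (nat_lit 131071))) (nat_lit 131071))) (nat_lit 131071)), rfl⟩
noncomputable def w11 : WW := ⟨.a (.s (.a (.s (.a (.s (.a (.s (.a (.i (.a (.i (.a (.s (.a (.s (.a (.e))))))))))))))))), fun m x => (Nat.land (Nat.shiftRight (Nat.shiftRight m (nat_lit 34)) (Nat.land (Nat.shiftRight m (Nat.land (Nat.shiftRight (Nat.shiftRight m (nat_lit 34)) (Nat.land (Nat.shiftRight m (Nat.land (Nat.shiftRight (Nat.shiftRight m (nat_lit 34)) (Nat.land (Nat.shiftRight (Nat.shiftRight m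
  (nat_lit 17)) (Nat.land (Nat.shiftRight (Nat.shiftRight m (nat_lit 34)) (Nat.land (Nat.shiftRight (Nat.shiftRight m (nat_lit 17)) (Nat.land (Nat.shiftRight (Nat.shiftRight m (nat_lit 34)) (Nat.land (Nat.shiftRight m (Nat.land (Nat.shiftRight (Nat.shiftRight m (nat_lit 34)) (Nat.land (Nat.shiftRight m (Nat.land (Nat.shiftRight (Nat.shiftRight m (nat_lit 34)) (Nat.land (Nat.shiftRight m (Nat.land (Nat.shiftRight
  (Nat.shiftRight m (nat_lit 34)) (Nat.land (Nat.shiftRight m (Nat.land (Nat.shiftRight x (nat_lit 34)) (nat_lit 131071))) (nat_lit 131071))) (nat_lit 131071))) (nat_lit 131071))) (nat_lit 131071))) (nat_lit 131071))) (nat_lit 131071))) (nat_lit 131071))) (nat_lit 131071))) (nat_lit 131071))) (nat_lit 131071))) (nat_lit 131071))) (nat_lit 131071))) (nat_lit 131071))) (nat_lit 131071))) (nat_lit 131071))) (nat_lit 131071)), rfl⟩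
noncomputable def w12 : WW := ⟨.a (.s (.a (.i (.e)))), fun m x => (Nat.land (Nat.shiftRight (Nat.shiftRight m (nat_lit 17)) (Nat.land (Nat.shiftRight (Nat.shiftRight m (nat_lit 34)) (Nat.land (Nat.shiftRight m (Nat.land (Nat.shiftRight x (nat_lit 34)) (nat_lit 131071))) (nat_lit 131071))) (nat_lit 131071))) (nat_lit 131071)), rfl⟩
noncomputable def w13 : WW := ⟨.a (.s (.a (.s (.a (.s (.a (.s (.a (.s (.a (.i (.a (.i (.a (.s (.a (.s (.a (.s (.a (.i (.a (.e))))))))))))))))))))))), fun m x => (Nat.land (Nat.shiftRight (Nat.shiftRight m (nat_lit 34)) (Nat.land (Nat.shiftRight (Nat.shiftRight m (nat_lit 17)) (Nat.land (Nat.shiftRight (Nat.shiftRight m (nat_lit 34)) (Nat.land (Nat.shiftRight m (Nat.land (Nat.shiftRight (Nat.shiftRight m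
  (nat_lit 34)) (Nat.land (Nat.shiftRight m (Nat.land (Nat.shiftRight (Nat.shiftRight m (nat_lit 34)) (Nat.land (Nat.shiftRight m (Nat.land (Nat.shiftRight (Nat.shiftRight m (nat_lit 34)) (Nat.land (Nat.shiftRight (Nat.shiftRight m (nat_lit 17)) (Nat.land (Nat.shiftRight (Nat.shiftRight m (nat_lit 34)) (Nat.land (Nat.shiftRight (Nat.shiftRight m (nat_lit 17)) (Nat.land (Nat.shiftRight (Nat.shiftRight m
  (nat_lit 34)) (Nat.land (Nat.shiftRight m (Nat.land (Nat.shiftRight (Nat.shiftRight m (nat_lit 34)) (Nat.land (Nat.shiftRight m (Nat.land (Nat.shiftRight (Nat.shiftRight m (nat_lit 34)) (Nat.land (Nat.shiftRight m (Nat.land (Nat.shiftRight (Nat.shiftRight m (nat_lit 34)) (Nat.land (Nat.shiftRight m (Nat.land (Nat.shiftRight (Nat.shiftRight m (nat_lit 34)) (Nat.land (Nat.shiftRight m (Nat.land (Nat.shiftRight x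
  (nat_lit 34)) (nat_lit 131071))) (nat_lit 131071))) (nat_lit 131071))) (nat_lit 131071))) (nat_lit 131071))) (nat_lit 131071))) (nat_lit 131071))) (nat_lit 131071))) (nat_lit 131071))) (nat_lit 131071))) (nat_lit 131071))) (nat_lit 131071))) (nat_lit 131071))) (nat_lit 131071))) (nat_lit 131071))) (nat_lit 131071))) (nat_lit 131071))) (nat_lit 131071))) (nat_lit 131071))) (nat_lit 131071))) (nat_lit 131071))) (nat_lit 131071))) (nat_lit 131071)), rfl⟩
noncomputable def w14 : WW := ⟨.a (.s (.a (.s (.a (.s (.a (.e))))))), fun m x => (Nat.land (Nat.shiftRight (Nat.shiftRight m (nat_lit 34)) (Nat.land (Nat.shiftRight m (Nat.land (Nat.shiftRight (Nat.shiftRight m (nat_lit 34)) (Nat.land (Nat.shiftRight m (Nat.land (Nat.shiftRight (Nat.shiftRight m (nat_lit 34)) (Nat.land (Nat.shiftRight m (Nat.land (Nat.shiftRight x (nat_lit 34)) (nat_lit 131071))) (nat_lit 131071))) (nat_lit 131071))) (nat_lit 131071))) (nat_lit 131071))) (nat_lit 131071))) (nat_lit 131071)),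 rfl⟩
noncomputable def w15 : WW := ⟨.s (.a (.i (.a (.s (.a (.i (.a (.e)))))))), fun m x => (Nat.land (Nat.shiftRight (Nat.shiftRight m (nat_lit 34)) (Nat.land (Nat.shiftRight (Nat.shiftRight m (nat_lit 17)) (Nat.land (Nat.shiftRight (Nat.shiftRight m (nat_lit 34)) (Nat.land (Nat.shiftRight m (Nat.land (Nat.shiftRight (Nat.shiftRight m (nat_lit 34)) (Nat.land (Nat.shiftRight (Nat.shiftRight m (nat_lit 17)) (Nat.land (Nat.shiftRight (Nat.shiftRight m (nat_lit 34)) (Nat.land x (nat_lit 131071))) (nat_lit 131071))) (nat_lit 131071))) (nat_lit 131071))) (nat_lit 131071))) (nat_lit 131071))) (nat_lit 131071))) (nat_lit 131071)), rfl⟩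
noncomputable def w16 : WW := ⟨.i (.a (.e)), fun m x => (Nat.land (Nat.shiftRight (Nat.shiftRight m (nat_lit 34)) (Nat.land (Nat.shiftRight x (nat_lit 17)) (nat_lit 131071))) (nat_lit 131071)), rfl⟩
noncomputable def w17 : WW := ⟨.a (.i (.a (.i (.a (.i (.e)))))), fun m x => (Nat.land (Nat.shiftRight (Nat.shiftRight m (nat_lit 17)) (Nat.land (Nat.shiftRight (Nat.shiftRight m (nat_lit 34)) (Nat.land (Nat.shiftRight (Nat.shiftRight m (nat_lit 17)) (Nat.land (Nat.shiftRight (Nat.shiftRight m (nat_lit 34)) (Nat.land (Nat.shiftRight (Nat.shiftRight m (nat_lit 17)) (Nat.land (Nat.shiftRight x (nat_lit 34)) (nat_lit 131071))) (nat_lit 131071))) (nat_lit 131071))) (nat_lit 131071))) (nat_lit 131071))) (nat_lit 131071)), rfl⟩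
noncomputable def w18 : WW := ⟨.i (.a (.s (.a (.e)))), fun m x => (Nat.land (Nat.shiftRight (Nat.shiftRight m (nat_lit 34)) (Nat.land (Nat.shiftRight m (Nat.land (Nat.shiftRight (Nat.shiftRight m (nat_lit 34)) (Nat.land (Nat.shiftRight x (nat_lit 17)) (nat_lit 131071))) (nat_lit 131071))) (nat_lit 131071))) (nat_lit 131071)), rfl⟩
noncomputable def w19 : WW := ⟨.a (.s (.s (.e))), fun m x => (Nat.land (Nat.shiftRight m (Nat.land (Nat.shiftRight m (Nat.land (Nat.shiftRight x (nat_lit 34)) (nat_lit 131071))) (nat_lit 131071))) (nat_lit 131071)), rfl⟩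
noncomputable def w20 : WW := ⟨.s (.a (.s (.s (.a (.e))))), fun m x => (Nat.land (Nat.shiftRight (Nat.shiftRight m (nat_lit 34)) (Nat.land (Nat.shiftRight m (Nat.land (Nat.shiftRight m (Nat.land (Nat.shiftRight (Nat.shiftRight m (nat_lit 34)) (Nat.land x (nat_lit 131071))) (nat_lit 131071))) (nat_lit 131071))) (nat_lit 131071))) (nat_lit 131071)), rfl⟩
noncomputable def w21 : WW := ⟨.a (.i (.e)), fun m x => (Nat.land (Nat.shiftRight (Nat.shiftRight m (nat_lit 17)) (Nat.land (Nat.shiftRight x (nat_lit 34)) (nat_lit 131071))) (nat_lit 131071)), rfl⟩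
noncomputable def w22 : WW := ⟨.a (.i (.a (.s (.a (.i (.e)))))), fun m x => (Nat.land (Nat.shiftRight (Nat.shiftRight m (nat_lit 17)) (Nat.land (Nat.shiftRight (Nat.shiftRight m (nat_lit 34)) (Nat.land (Nat.shiftRight m (Nat.land (Nat.shiftRight (Nat.shiftRight m (nat_lit 34)) (Nat.land (Nat.shiftRight (Nat.shiftRight m (nat_lit 17)) (Nat.land (Nat.shiftRight x (nat_lit 34)) (nat_lit 131071))) (nat_lit 131071))) (nat_lit 131071))) (nat_lit 131071))) (nat_lit 131071))) (nat_lit 131071)), rfl⟩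
noncomputable def w23 : WW := ⟨.s (.s (.e)), fun m x => (Nat.land (Nat.shiftRight m (Nat.land x (nat_lit 131071))) (nat_lit 131071)), rfl⟩
noncomputable def w24 : WW := ⟨.s (.a (.s (.a (.e)))), fun m x => (Nat.land (Nat.shiftRight (Nat.shiftRight m (nat_lit 34)) (Nat.land (Nat.shiftRight m (Nat.land (Nat.shiftRight (Nat.shiftRight m (nat_lit 34)) (Nat.land x (nat_lit 131071))) (nat_lit 131071))) (nat_lit 131071))) (nat_lit 131071)), rfl⟩
noncomputable def w25 : WW := ⟨.s (.a (.s (.a (.s (.a (.e)))))), fun m x => (Nat.land (Nat.shiftRight (Nat.shiftRight m (nat_lit 34)) (Nat.land (Nat.shiftRight m (Nat.land (Nat.shiftRight (Nat.shiftRight m (nat_lit 34)) (Nat.land (Nat.shiftRight m (Nat.land (Nat.shiftRight (Nat.shiftRight m (nat_lit 34)) (Nat.land x (nat_lit 131071))) (nat_lit 131071))) (nat_lit 131071))) (nat_lit 131071))) (nat_lit 131071))) (nat_lit 131071)), rfl⟩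
noncomputable def w26 : WW := ⟨.s (.a (.s (.a (.s (.a (.s (.a (.s (.a (.s (.a (.e)))))))))))), fun m x => (Nat.land (Nat.shiftRight (Nat.shiftRight m (nat_lit 34)) (Nat.land (Nat.shiftRight m (Nat.land (Nat.shiftRight (Nat.shiftRight m (nat_lit 34)) (Nat.land (Nat.shiftRight m (Nat.land (Nat.shiftRight (Nat.shiftRight m (nat_lit 34)) (Nat.land (Nat.shiftRight m (Nat.land (Nat.shiftRight (Nat.shiftRight m
  (nat_lit 34)) (Nat.land (Nat.shiftRight m (Nat.land (Nat.shiftRight (Nat.shiftRight m (nat_lit 34)) (Nat.land (Nat.shiftRight m (Nat.land (Nat.shiftRight (Nat.shiftRight m (nat_lit 34)) (Nat.land x (nat_lit 131071))) (nat_lit 131071))) (nat_lit 131071))) (nat_lit 131071))) (nat_lit 131071))) (nat_lit 131071))) (nat_lit 131071))) (nat_lit 131071))) (nat_lit 131071))) (nat_lit 131071))) (nat_lit 131071))) (nat_lit 131071)), rfl⟩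
noncomputable def w27 : WW := ⟨.a (.i (.a (.i (.a (.s (.e)))))), fun m x => (Nat.land (Nat.shiftRight m (Nat.land (Nat.shiftRight (Nat.shiftRight m (nat_lit 34)) (Nat.land (Nat.shiftRight (Nat.shiftRight m (nat_lit 17)) (Nat.land (Nat.shiftRight (Nat.shiftRight m (nat_lit 34)) (Nat.land (Nat.shiftRight (Nat.shiftRight m (nat_lit 17)) (Nat.land (Nat.shiftRight x (nat_lit 34)) (nat_lit 131071))) (nat_lit 131071))) (nat_lit 131071))) (nat_lit 131071))) (nat_lit 131071))) (nat_lit 131071)), rfl⟩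
noncomputable def w28 : WW := ⟨.s (.a (.i (.a (.i (.a (.s (.a (.e)))))))), fun m x => (Nat.land (Nat.shiftRight (Nat.shiftRight m (nat_lit 34)) (Nat.land (Nat.shiftRight m (Nat.land (Nat.shiftRight (Nat.shiftRight m (nat_lit 34)) (Nat.land (Nat.shiftRight (Nat.shiftRight m (nat_lit 17)) (Nat.land (Nat.shiftRight (Nat.shiftRight m (nat_lit 34)) (Nat.land (Nat.shiftRight (Nat.shiftRight m (nat_lit 17)) (Nat.land (Nat.shiftRight (Nat.shiftRight m (nat_lit 34)) (Nat.land x (nat_lit 131071))) (nat_lit 131071))) (nat_lit 131071))) (nat_lit 131071))) (nat_lit 131071))) (nat_lit 131071))) (nat_lit 131071))) (nat_lit 131071)), rfl⟩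
noncomputable def w29 : WW := ⟨.a (.i (.a (.s (.e)))), fun m x => (Nat.land (Nat.shiftRight m (Nat.land (Nat.shiftRight (Nat.shiftRight m (nat_lit 34)) (Nat.land (Nat.shiftRight (Nat.shiftRight m (nat_lit 17)) (Nat.land (Nat.shiftRight x (nat_lit 34)) (nat_lit 131071))) (nat_lit 131071))) (nat_lit 131071))) (nat_lit 131071)), rfl⟩
noncomputable def w30 : WW := ⟨.s (.a (.i (.a (.s (.a (.e)))))), fun m x => (Nat.land (Nat.shiftRight (Nat.shiftRight m (nat_lit 34)) (Nat.land (Nat.shiftRight m (Nat.land (Nat.shiftRight (Nat.shiftRight m (nat_lit 34)) (Nat.land (Nat.shiftRight (Nat.shiftRight m (nat_lit 17)) (Nat.land (Nat.shiftRight (Nat.shiftRight m (nat_lit 34)) (Nat.land x (nat_lit 131071))) (nat_lit 131071))) (nat_lit 131071))) (nat_lit 131071))) (nat_lit 131071))) (nat_lit 131071)), rfl⟩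
noncomputable def w31 : WW := ⟨.a (.i (.a (.i (.a (.s (.a (.i (.a (.i (.a (.s (.e)))))))))))), fun m x => (Nat.land (Nat.shiftRight m (Nat.land (Nat.shiftRight (Nat.shiftRight m (nat_lit 34)) (Nat.land (Nat.shiftRight (Nat.shiftRight m (nat_lit 17)) (Nat.land (Nat.shiftRight (Nat.shiftRight m (nat_lit 34)) (Nat.land (Nat.shiftRight (Nat.shiftRight m (nat_lit 17)) (Nat.land (Nat.shiftRight (Nat.shiftRight m
  (nat_lit 34)) (Nat.land (Nat.shiftRight m (Nat.land (Nat.shiftRight (Nat.shiftRight m (nat_lit 34)) (Nat.land (Nat.shiftRight (Nat.shiftRight m (nat_lit 17)) (Nat.land (Nat.shiftRight (Nat.shiftRight m (nat_lit 34)) (Nat.land (Nat.shiftRight (Nat.shiftRight m (nat_lit 17)) (Nat.land (Nat.shiftRight x (nat_lit 34)) (nat_lit 131071))) (nat_lit 131071))) (nat_lit 131071))) (nat_lit 131071))) (nat_lit 131071))) (nat_lit 131071))) (nat_lit 131071))) (nat_lit 131071))) (nat_lit 131071))) (nat_lit 131071))) (nat_lit 131071))) (nat_lit 131071)), rfl⟩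
noncomputable def w32 : WW := ⟨.s (.a (.i (.a (.s (.a (.s (.a (.s (.a (.s (.a (.i (.a (.s (.a (.s (.a (.s (.a (.i (.a (.s (.a (.s (.a (.e)))))))))))))))))))))))))), fun m x => (Nat.land (Nat.shiftRight (Nat.shiftRight m (nat_lit 34)) (Nat.land (Nat.shiftRight m (Nat.land (Nat.shiftRight (Nat.shiftRight m (nat_lit 34)) (Nat.land (Nat.shiftRight m (Nat.land (Nat.shiftRight (Nat.shiftRight m (nat_lit 34))
  (Nat.land (Nat.shiftRight (Nat.shiftRight m (nat_lit 17)) (Nat.land (Nat.shiftRight (Nat.shiftRight m (nat_lit 34)) (Nat.land (Nat.shiftRight m (Nat.land (Nat.shiftRight (Nat.shiftRight m (nat_lit 34)) (Nat.land (Nat.shiftRight m (Nat.land (Nat.shiftRight (Nat.shiftRight m (nat_lit 34)) (Nat.land (Nat.shiftRight m (Nat.land (Nat.shiftRight (Nat.shiftRight m (nat_lit 34)) (Nat.land (Nat.shiftRight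
  (Nat.shiftRight m (nat_lit 17)) (Nat.land (Nat.shiftRight (Nat.shiftRight m (nat_lit 34)) (Nat.land (Nat.shiftRight m (Nat.land (Nat.shiftRight (Nat.shiftRight m (nat_lit 34)) (Nat.land (Nat.shiftRight m (Nat.land (Nat.shiftRight (Nat.shiftRight m (nat_lit 34)) (Nat.land (Nat.shiftRight m (Nat.land (Nat.shiftRight (Nat.shiftRight m (nat_lit 34)) (Nat.land (Nat.shiftRight m (Nat.land (Nat.shiftRight
  (Nat.shiftRight m (nat_lit 34)) (Nat.land (Nat.shiftRight (Nat.shiftRight m (nat_lit 17)) (Nat.land (Nat.shiftRight (Nat.shiftRight m (nat_lit 34)) (Nat.land x (nat_lit 131071))) (nat_lit 131071))) (nat_lit 131071))) (nat_lit 131071))) (nat_lit 131071))) (nat_lit 131071))) (nat_lit 131071))) (nat_lit 131071))) (nat_lit 131071))) (nat_lit 131071))) (nat_lit 131071))) (nat_lit 131071))) (nat_lit 131071))) (nat_lit 131071))) (nat_lit 131071))) (nat_lit 131071))) (nat_lit 131071))) (nat_lit 131071))) (nat_lit 131071))) (nat_lit 131071))) (nat_lit 131071)))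 (nat_lit 131071))) (nat_lit 131071))) (nat_lit 131071))) (nat_lit 131071))) (nat_lit 131071)), rfl⟩
noncomputable def w33 : WW := ⟨.s (.a (.i (.a (.s (.a (.s (.a (.s (.a (.s (.a (.i (.a (.s (.a (.s (.a (.s (.a (.i (.a (.s (.a (.s (.a (.s (.a (.e)))))))))))))))))))))))))))), fun m x => (Nat.land (Nat.shiftRight (Nat.shiftRight m (nat_lit 34)) (Nat.land (Nat.shiftRight m (Nat.land (Nat.shiftRight (Nat.shiftRight m (nat_lit 34)) (Nat.land (Nat.shiftRight m (Nat.land (Nat.shiftRight (Nat.shiftRight m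
  (nat_lit 34)) (Nat.land (Nat.shiftRight m (Nat.land (Nat.shiftRight (Nat.shiftRight m (nat_lit 34)) (Nat.land (Nat.shiftRight (Nat.shiftRight m (nat_lit 17)) (Nat.land (Nat.shiftRight (Nat.shiftRight m (nat_lit 34)) (Nat.land (Nat.shiftRight m (Nat.land (Nat.shiftRight (Nat.shiftRight m (nat_lit 34)) (Nat.land (Nat.shiftRight m (Nat.land (Nat.shiftRight (Nat.shiftRight m (nat_lit 34)) (Nat.land (Nat.shiftRight m
  (Nat.land (Nat.shiftRight (Nat.shiftRight m (nat_lit 34)) (Nat.land (Nat.shiftRight (Nat.shiftRight m (nat_lit 17)) (Nat.land (Nat.shiftRight (Nat.shiftRight m (nat_lit 34)) (Nat.land (Nat.shiftRight m (Nat.land (Nat.shiftRight (Nat.shiftRight m (nat_lit 34)) (Nat.land (Nat.shiftRight m (Nat.land (Nat.shiftRight (Nat.shiftRight m (nat_lit 34)) (Nat.land (Nat.shiftRight m (Nat.land (Nat.shiftRight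
  (Nat.shiftRight m (nat_lit 34)) (Nat.land (Nat.shiftRight m (Nat.land (Nat.shiftRight (Nat.shiftRight m (nat_lit 34)) (Nat.land (Nat.shiftRight (Nat.shiftRight m (nat_lit 17)) (Nat.land (Nat.shiftRight (Nat.shiftRight m (nat_lit 34)) (Nat.land x (nat_lit 131071))) (nat_lit 131071))) (nat_lit 131071))) (nat_lit 131071))) (nat_lit 131071))) (nat_lit 131071))) (nat_lit 131071))) (nat_lit 131071))) (nat_lit 131071))) (nat_lit 131071))) (nat_lit 131071))) (nat_lit 131071))) (nat_lit 131071))) (nat_lit 131071))) (nat_lit 131071))) (nat_lit 131071))) (nat_lit 131071))) (nat_lit 131071))) (nat_lit 131071))) (nat_lit 131071))) (nat_lit 131071))) (nat_lit 131071))) (nat_lit 131071))) (nat_lit 131071))) (nat_lit 131071))) (nat_lit 131071))) (nat_lit 131071))) (nat_lit 131071)), rfl⟩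
noncomputable def w34 : WW := ⟨.i (.a (.i (.a (.s (.a (.s (.a (.s (.a (.s (.a (.e)))))))))))), fun m x => (Nat.land (Nat.shiftRight (Nat.shiftRight m (nat_lit 34)) (Nat.land (Nat.shiftRight m (Nat.land (Nat.shiftRight (Nat.shiftRight m (nat_lit 34)) (Nat.land (Nat.shiftRight m (Nat.land (Nat.shiftRight (Nat.shiftRight m (nat_lit 34)) (Nat.land (Nat.shiftRight m (Nat.land (Nat.shiftRight (Nat.shiftRight m
  (nat_lit 34)) (Nat.land (Nat.shiftRight m (Nat.land (Nat.shiftRight (Nat.shiftRight m (nat_lit 34)) (Nat.land (Nat.shiftRight (Nat.shiftRight m (nat_lit 17)) (Nat.land (Nat.shiftRight (Nat.shiftRight m (nat_lit 34)) (Nat.land (Nat.shiftRight x (nat_lit 17)) (nat_lit 131071))) (nat_lit 131071))) (nat_lit 131071))) (nat_lit 131071))) (nat_lit 131071))) (nat_lit 131071))) (nat_lit 131071))) (nat_lit 131071))) (nat_lit 131071))) (nat_lit 131071))) (nat_lit 131071))) (nat_lit 131071)), rfl⟩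
noncomputable def w35 : WW := ⟨.a (.s (.a (.s (.a (.s (.a (.s (.a (.e))))))))), fun m x => (Nat.land (Nat.shiftRight (Nat.shiftRight m (nat_lit 34)) (Nat.land (Nat.shiftRight m (Nat.land (Nat.shiftRight (Nat.shiftRight m (nat_lit 34)) (Nat.land (Nat.shiftRight m (Nat.land (Nat.shiftRight (Nat.shiftRight m (nat_lit 34)) (Nat.land (Nat.shiftRight m (Nat.land (Nat.shiftRight (Nat.shiftRight m (nat_lit 34)) (Nat.land (Nat.shiftRight m (Nat.land (Nat.shiftRight x (nat_lit 34)) (nat_lit 131071))) (nat_lit 131071))) (nat_lit 131071))) (nat_lit 131071))) (nat_lit 131071))) (nat_lit 131071))) (nat_lit 131071))) (nat_lit 131071))) (nat_lit 131071)), rfl⟩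
noncomputable def w36 : WW := ⟨.a (.i (.a (.i (.a (.s (.a (.s (.a (.s (.a (.e))))))))))), fun m x => (Nat.land (Nat.shiftRight (Nat.shiftRight m (nat_lit 34)) (Nat.land (Nat.shiftRight m (Nat.land (Nat.shiftRight (Nat.shiftRight m (nat_lit 34)) (Nat.land (Nat.shiftRight m (Nat.land (Nat.shiftRight (Nat.shiftRight m (nat_lit 34)) (Nat.land (Nat.shiftRight m (Nat.land (Nat.shiftRight (Nat.shiftRight m
  (nat_lit 34)) (Nat.land (Nat.shiftRight (Nat.shiftRight m (nat_lit 17)) (Nat.land (Nat.shiftRight (Nat.shiftRight m (nat_lit 34)) (Nat.land (Nat.shiftRight (Nat.shiftRight m (nat_lit 17)) (Nat.land (Nat.shiftRight x (nat_lit 34)) (nat_lit 131071))) (nat_lit 131071))) (nat_lit 131071))) (nat_lit 131071))) (nat_lit 131071))) (nat_lit 131071))) (nat_lit 131071))) (nat_lit 131071))) (nat_lit 131071))) (nat_lit 131071))) (nat_lit 131071)), rfl⟩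
noncomputable def w37 : WW := ⟨.a (.i (.a (.i (.e)))), fun m x => (Nat.land (Nat.shiftRight (Nat.shiftRight m (nat_lit 17)) (Nat.land (Nat.shiftRight (Nat.shiftRight m (nat_lit 34)) (Nat.land (Nat.shiftRight (Nat.shiftRight m (nat_lit 17)) (Nat.land (Nat.shiftRight x (nat_lit 34)) (nat_lit 131071))) (nat_lit 131071))) (nat_lit 131071))) (nat_lit 131071)), rfl⟩
noncomputable def w38 : WW := ⟨.a (.s (.s (.a (.i (.e))))), fun m x => (Nat.land (Nat.shiftRight (Nat.shiftRight m (nat_lit 17)) (Nat.land (Nat.shiftRight (Nat.shiftRight m (nat_lit 34)) (Nat.land (Nat.shiftRight m (Nat.land (Nat.shiftRight m (Nat.land (Nat.shiftRight x (nat_lit 34)) (nat_lit 131071))) (nat_lit 131071))) (nat_lit 131071))) (nat_lit 131071))) (nat_lit 131071)), rfl⟩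
noncomputable def w39 : WW := ⟨.a (.s (.a (.s (.a (.s (.a (.s (.a (.i (.a (.s (.a (.e))))))))))))), fun m x => (Nat.land (Nat.shiftRight (Nat.shiftRight m (nat_lit 34)) (Nat.land (Nat.shiftRight m (Nat.land (Nat.shiftRight (Nat.shiftRight m (nat_lit 34)) (Nat.land (Nat.shiftRight (Nat.shiftRight m (nat_lit 17)) (Nat.land (Nat.shiftRight (Nat.shiftRight m (nat_lit 34)) (Nat.land (Nat.shiftRight m (Nat.land
  (Nat.shiftRight (Nat.shiftRight m (nat_lit 34)) (Nat.land (Nat.shiftRight m (Nat.land (Nat.shiftRight (Nat.shiftRight m (nat_lit 34)) (Nat.land (Nat.shiftRight m (Nat.land (Nat.shiftRight (Nat.shiftRight m (nat_lit 34)) (Nat.land (Nat.shiftRight m (Nat.land (Nat.shiftRight x (nat_lit 34)) (nat_lit 131071))) (nat_lit 131071))) (nat_lit 131071))) (nat_lit 131071))) (nat_lit 131071))) (nat_lit 131071))) (nat_lit 131071))) (nat_lit 131071))) (nat_lit 131071))) (nat_lit 131071))) (nat_lit 131071))) (nat_lit 131071))) (nat_lit 131071)), rfl⟩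
noncomputable def w40 : WW := ⟨.i (.e), fun m x => (Nat.land (Nat.shiftRight x (nat_lit 17)) (nat_lit 131071)), rfl⟩
noncomputable def w41 : WW := ⟨.a (.s (.a (.s (.a (.s (.s (.a (.s (.a (.s (.a (.s (.a (.i (.a (.s (.a (.s (.a (.s (.a (.e)))))))))))))))))))))), fun m x => (Nat.land (Nat.shiftRight (Nat.shiftRight m (nat_lit 34)) (Nat.land (Nat.shiftRight m (Nat.land (Nat.shiftRight (Nat.shiftRight m (nat_lit 34)) (Nat.land (Nat.shiftRight m (Nat.land (Nat.shiftRight (Nat.shiftRight m (nat_lit 34)) (Nat.land (Nat.shiftRight m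
  (Nat.land (Nat.shiftRight (Nat.shiftRight m (nat_lit 34)) (Nat.land (Nat.shiftRight (Nat.shiftRight m (nat_lit 17)) (Nat.land (Nat.shiftRight (Nat.shiftRight m (nat_lit 34)) (Nat.land (Nat.shiftRight m (Nat.land (Nat.shiftRight (Nat.shiftRight m (nat_lit 34)) (Nat.land (Nat.shiftRight m (Nat.land (Nat.shiftRight (Nat.shiftRight m (nat_lit 34)) (Nat.land (Nat.shiftRight m (Nat.land (Nat.shiftRight
  (Nat.shiftRight m (nat_lit 34)) (Nat.land (Nat.shiftRight m (Nat.land (Nat.shiftRight m (Nat.land (Nat.shiftRight (Nat.shiftRight m (nat_lit 34)) (Nat.land (Nat.shiftRight m (Nat.land (Nat.shiftRight (Nat.shiftRight m (nat_lit 34)) (Nat.land (Nat.shiftRight m (Nat.land (Nat.shiftRight x (nat_lit 34)) (nat_lit 131071))) (nat_lit 131071))) (nat_lit 131071))) (nat_lit 131071))) (nat_lit 131071))) (nat_lit 131071))) (nat_lit 131071))) (nat_lit 131071))) (nat_lit 131071))) (nat_lit 131071))) (nat_lit 131071))) (nat_lit 131071))) (nat_lit 131071))) (nat_lit 131071)))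 (nat_lit 131071))) (nat_lit 131071))) (nat_lit 131071))) (nat_lit 131071))) (nat_lit 131071))) (nat_lit 131071))) (nat_lit 131071))) (nat_lit 131071)), rfl⟩
noncomputable def w42 : WW := ⟨.a (.e), fun m x => (Nat.land (Nat.shiftRight x (nat_lit 34)) (nat_lit 131071)), rfl⟩
noncomputable def w43 : WW := ⟨.s (.a (.i (.a (.i (.a (.e)))))), fun m x => (Nat.land (Nat.shiftRight (Nat.shiftRight m (nat_lit 34)) (Nat.land (Nat.shiftRight (Nat.shiftRight m (nat_lit 17)) (Nat.land (Nat.shiftRight (Nat.shiftRight m (nat_lit 34)) (Nat.land (Nat.shiftRight (Nat.shiftRight m (nat_lit 17)) (Nat.land (Nat.shiftRight (Nat.shiftRight m (nat_lit 34)) (Nat.land x (nat_lit 131071))) (nat_lit 131071))) (nat_lit 131071))) (nat_lit 131071))) (nat_lit 131071))) (nat_lit 131071)), rfl⟩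
noncomputable def w44 : WW := ⟨.s (.a (.s (.a (.i (.a (.e)))))), fun m x => (Nat.land (Nat.shiftRight (Nat.shiftRight m (nat_lit 34)) (Nat.land (Nat.shiftRight (Nat.shiftRight m (nat_lit 17)) (Nat.land (Nat.shiftRight (Nat.shiftRight m (nat_lit 34)) (Nat.land (Nat.shiftRight m (Nat.land (Nat.shiftRight (Nat.shiftRight m (nat_lit 34)) (Nat.land x (nat_lit 131071))) (nat_lit 131071))) (nat_lit 131071))) (nat_lit 131071))) (nat_lit 131071))) (nat_lit 131071)), rfl⟩
noncomputable def w45 : WW := ⟨.i (.a (.s (.a (.i (.a (.e)))))), fun m x => (Nat.land (Nat.shiftRight (Nat.shiftRight m (nat_lit 34)) (Nat.land (Nat.shiftRight (Nat.shiftRight m (nat_lit 17)) (Nat.land (Nat.shiftRight (Nat.shiftRight m (nat_lit 34)) (Nat.land (Nat.shiftRight m (Nat.land (Nat.shiftRight (Nat.shiftRight m (nat_lit 34)) (Nat.land (Nat.shiftRight x (nat_lit 17)) (nat_lit 131071))) (nat_lit 131071))) (nat_lit 131071))) (nat_lit 131071))) (nat_lit 131071))) (nat_lit 131071)), rfl⟩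
noncomputable def w46 : WW := ⟨.s (.a (.s (.a (.i (.a (.s (.a (.i (.a (.e)))))))))), fun m x => (Nat.land (Nat.shiftRight (Nat.shiftRight m (nat_lit 34)) (Nat.land (Nat.shiftRight (Nat.shiftRight m (nat_lit 17)) (Nat.land (Nat.shiftRight (Nat.shiftRight m (nat_lit 34)) (Nat.land (Nat.shiftRight m (Nat.land (Nat.shiftRight (Nat.shiftRight m (nat_lit 34)) (Nat.land (Nat.shiftRight (Nat.shiftRight m (nat_lit 17)) (Nat.land (Nat.shiftRight (Nat.shiftRight m (nat_lit 34)) (Nat.land (Nat.shiftRight m (Nat.land (Nat.shiftRight (Nat.shiftRight m (nat_lit 34)) (Nat.land x (nat_lit 131071))) (nat_lit 131071))) (nat_lit 131071))) (nat_lit 131071))) (nat_lit 131071))) (nat_lit 131071))) (nat_lit 131071))) (nat_lit 131071))) (nat_lit 131071))) (nat_lit 131071)), rfl⟩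
noncomputable def w47 : WW := ⟨.a (.i (.a (.s (.a (.s (.a (.s (.a (.i (.a (.e))))))))))), fun m x => (Nat.land (Nat.shiftRight (Nat.shiftRight m (nat_lit 34)) (Nat.land (Nat.shiftRight (Nat.shiftRight m (nat_lit 17)) (Nat.land (Nat.shiftRight (Nat.shiftRight m (nat_lit 34)) (Nat.land (Nat.shiftRight m (Nat.land (Nat.shiftRight (Nat.shiftRight m (nat_lit 34)) (Nat.land (Nat.shiftRight m (Nat.land (Nat.shiftRight
  (Nat.shiftRight m (nat_lit 34)) (Nat.land (Nat.shiftRight m (Nat.land (Nat.shiftRight (Nat.shiftRight m (nat_lit 34)) (Nat.land (Nat.shiftRight (Nat.shiftRight m (nat_lit 17)) (Nat.land (Nat.shiftRight x (nat_lit 34)) (nat_lit 131071))) (nat_lit 131071))) (nat_lit 131071))) (nat_lit 131071))) (nat_lit 131071))) (nat_lit 131071))) (nat_lit 131071))) (nat_lit 131071))) (nat_lit 131071))) (nat_lit 131071))) (nat_lit 131071)), rfl⟩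
noncomputable def w48 : WW := ⟨.a (.s (.a (.s (.a (.s (.a (.s (.a (.i (.a (.i (.a (.s (.a (.i (.a (.e))))))))))))))))), fun m x => (Nat.land (Nat.shiftRight (Nat.shiftRight m (nat_lit 34)) (Nat.land (Nat.shiftRight (Nat.shiftRight m (nat_lit 17)) (Nat.land (Nat.shiftRight (Nat.shiftRight m (nat_lit 34)) (Nat.land (Nat.shiftRight m (Nat.land (Nat.shiftRight (Nat.shiftRight m (nat_lit 34)) (Nat.land
  (Nat.shiftRight (Nat.shiftRight m (nat_lit 17)) (Nat.land (Nat.shiftRight (Nat.shiftRight m (nat_lit 34)) (Nat.land (Nat.shiftRight (Nat.shiftRight m (nat_lit 17)) (Nat.land (Nat.shiftRight (Nat.shiftRight m (nat_lit 34)) (Nat.land (Nat.shiftRight m (Nat.land (Nat.shiftRight (Nat.shiftRight m (nat_lit 34)) (Nat.land (Nat.shiftRight m (Nat.land (Nat.shiftRight (Nat.shiftRight m (nat_lit 34)) (Nat.land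
  (Nat.shiftRight m (Nat.land (Nat.shiftRight (Nat.shiftRight m (nat_lit 34)) (Nat.land (Nat.shiftRight m (Nat.land (Nat.shiftRight x (nat_lit 34)) (nat_lit 131071))) (nat_lit 131071))) (nat_lit 131071))) (nat_lit 131071))) (nat_lit 131071))) (nat_lit 131071))) (nat_lit 131071))) (nat_lit 131071))) (nat_lit 131071))) (nat_lit 131071))) (nat_lit 131071))) (nat_lit 131071))) (nat_lit 131071))) (nat_lit 131071))) (nat_lit 131071))) (nat_lit 131071))) (nat_lit 131071)), rfl⟩
noncomputable def w49 : WW := ⟨.a (.s (.a (.s (.a (.s (.a (.s (.a (.s (.a (.i (.a (.i (.a (.s (.a (.i (.a (.e))))))))))))))))))), fun m x => (Nat.land (Nat.shiftRight (Nat.shiftRight m (nat_lit 34)) (Nat.land (Nat.shiftRight (Nat.shiftRight m (nat_lit 17)) (Nat.land (Nat.shiftRight (Nat.shiftRight m (nat_lit 34)) (Nat.land (Nat.shiftRight m (Nat.land (Nat.shiftRight (Nat.shiftRight m (nat_lit 34))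
  (Nat.land (Nat.shiftRight (Nat.shiftRight m (nat_lit 17)) (Nat.land (Nat.shiftRight (Nat.shiftRight m (nat_lit 34)) (Nat.land (Nat.shiftRight (Nat.shiftRight m (nat_lit 17)) (Nat.land (Nat.shiftRight (Nat.shiftRight m (nat_lit 34)) (Nat.land (Nat.shiftRight m (Nat.land (Nat.shiftRight (Nat.shiftRight m (nat_lit 34)) (Nat.land (Nat.shiftRight m (Nat.land (Nat.shiftRight (Nat.shiftRight m (nat_lit 34))
  (Nat.land (Nat.shiftRight m (Nat.land (Nat.shiftRight (Nat.shiftRight m (nat_lit 34)) (Nat.land (Nat.shiftRight m (Nat.land (Nat.shiftRight (Nat.shiftRight m (nat_lit 34)) (Nat.land (Nat.shiftRight m (Nat.land (Nat.shiftRight x (nat_lit 34)) (nat_lit 131071))) (nat_lit 131071))) (nat_lit 131071))) (nat_lit 131071))) (nat_lit 131071))) (nat_lit 131071))) (nat_lit 131071))) (nat_lit 131071))) (nat_lit 131071))) (nat_lit 131071))) (nat_lit 131071))) (nat_lit 131071))) (nat_lit 131071))) (nat_lit 131071))) (nat_lit 131071))) (nat_lit 131071))) (nat_lit 131071)))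 (nat_lit 131071))) (nat_lit 131071)), rfl⟩
noncomputable def w50 : WW := ⟨.a (.i (.a (.i (.a (.s (.a (.s (.a (.s (.a (.i (.a (.e))))))))))))), fun m x => (Nat.land (Nat.shiftRight (Nat.shiftRight m (nat_lit 34)) (Nat.land (Nat.shiftRight (Nat.shiftRight m (nat_lit 17)) (Nat.land (Nat.shiftRight (Nat.shiftRight m (nat_lit 34)) (Nat.land (Nat.shiftRight m (Nat.land (Nat.shiftRight (Nat.shiftRight m (nat_lit 34)) (Nat.land (Nat.shiftRight m (Nat.land
  (Nat.shiftRight (Nat.shiftRight m (nat_lit 34)) (Nat.land (Nat.shiftRight m (Nat.land (Nat.shiftRight (Nat.shiftRight m (nat_lit 34)) (Nat.land (Nat.shiftRight (Nat.shiftRight m (nat_lit 17)) (Nat.land (Nat.shiftRight (Nat.shiftRight m (nat_lit 34)) (Nat.land (Nat.shiftRight (Nat.shiftRight m (nat_lit 17)) (Nat.land (Nat.shiftRight x (nat_lit 34)) (nat_lit 131071))) (nat_lit 131071))) (nat_lit 131071))) (nat_lit 131071))) (nat_lit 131071))) (nat_lit 131071))) (nat_lit 131071))) (nat_lit 131071))) (nat_lit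 131071))) (nat_lit 131071))) (nat_lit 131071))) (nat_lit 131071))) (nat_lit 131071)), rfl⟩
noncomputable def w51 : WW := ⟨.a (.s (.a (.i (.a (.s (.a (.i (.a (.e))))))))), fun m x => (Nat.land (Nat.shiftRight (Nat.shiftRight m (nat_lit 34)) (Nat.land (Nat.shiftRight (Nat.shiftRight m (nat_lit 17)) (Nat.land (Nat.shiftRight (Nat.shiftRight m (nat_lit 34)) (Nat.land (Nat.shiftRight m (Nat.land (Nat.shiftRight (Nat.shiftRight m (nat_lit 34)) (Nat.land (Nat.shiftRight (Nat.shiftRight m (nat_lit 17)) (Nat.land (Nat.shiftRight (Nat.shiftRight m (nat_lit 34)) (Nat.land (Nat.shiftRight m (Nat.land (Nat.shiftRight x (nat_lit 34)) (nat_lit 131071))) (nat_lit 131071))) (nat_lit 131071))) (nat_lit 131071))) (nat_lit 131071))) (nat_lit 131071))) (nat_lit 131071))) (nat_lit 131071))) (nat_lit 131071)), rfl⟩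
noncomputable def w52 : WW := ⟨.s (.a (.s (.a (.s (.a (.i (.a (.e)))))))), fun m x => (Nat.land (Nat.shiftRight (Nat.shiftRight m (nat_lit 34)) (Nat.land (Nat.shiftRight (Nat.shiftRight m (nat_lit 17)) (Nat.land (Nat.shiftRight (Nat.shiftRight m (nat_lit 34)) (Nat.land (Nat.shiftRight m (Nat.land (Nat.shiftRight (Nat.shiftRight m (nat_lit 34)) (Nat.land (Nat.shiftRight m (Nat.land (Nat.shiftRight (Nat.shiftRight m (nat_lit 34)) (Nat.land x (nat_lit 131071))) (nat_lit 131071))) (nat_lit 131071))) (nat_lit 131071))) (nat_lit 131071))) (nat_lit 131071))) (nat_lit 131071))) (nat_lit 131071)), rfl⟩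
noncomputable def w53 : WW := ⟨.a (.i (.a (.i (.a (.s (.s (.a (.s (.a (.s (.a (.s (.a (.i (.a (.e)))))))))))))))), fun m x => (Nat.land (Nat.shiftRight (Nat.shiftRight m (nat_lit 34)) (Nat.land (Nat.shiftRight (Nat.shiftRight m (nat_lit 17)) (Nat.land (Nat.shiftRight (Nat.shiftRight m (nat_lit 34)) (Nat.land (Nat.shiftRight m (Nat.land (Nat.shiftRight (Nat.shiftRight m (nat_lit 34)) (Nat.land (Nat.shiftRight m
  (Nat.land (Nat.shiftRight (Nat.shiftRight m (nat_lit 34)) (Nat.land (Nat.shiftRight m (Nat.land (Nat.shiftRight (Nat.shiftRight m (nat_lit 34)) (Nat.land (Nat.shiftRight m (Nat.land (Nat.shiftRight m (Nat.land (Nat.shiftRight (Nat.shiftRight m (nat_lit 34)) (Nat.land (Nat.shiftRight (Nat.shiftRight m (nat_lit 17)) (Nat.land (Nat.shiftRight (Nat.shiftRight m (nat_lit 34)) (Nat.land (Nat.shiftRight (Nat.shiftRight m (nat_lit 17)) (Nat.land (Nat.shiftRight x (nat_lit 34)) (nat_lit 131071))) (nat_lit 131071))) (nat_lit 131071))) (nat_lit 131071)))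 (nat_lit 131071))) (nat_lit 131071))) (nat_lit 131071))) (nat_lit 131071))) (nat_lit 131071))) (nat_lit 131071))) (nat_lit 131071))) (nat_lit 131071))) (nat_lit 131071))) (nat_lit 131071))) (nat_lit 131071))) (nat_lit 131071)), rfl⟩
noncomputable def w54 : WW := ⟨.s (.s (.a (.i (.a (.i (.a (.s (.a (.s (.a (.e))))))))))), fun m x => (Nat.land (Nat.shiftRight (Nat.shiftRight m (nat_lit 34)) (Nat.land (Nat.shiftRight m (Nat.land (Nat.shiftRight (Nat.shiftRight m (nat_lit 34)) (Nat.land (Nat.shiftRight m (Nat.land (Nat.shiftRight (Nat.shiftRight m (nat_lit 34)) (Nat.land (Nat.shiftRight (Nat.shiftRight m (nat_lit 17)) (Nat.land (Nat.shiftRight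
  (Nat.shiftRight m (nat_lit 34)) (Nat.land (Nat.shiftRight (Nat.shiftRight m (nat_lit 17)) (Nat.land (Nat.shiftRight (Nat.shiftRight m (nat_lit 34)) (Nat.land (Nat.shiftRight m (Nat.land x (nat_lit 131071))) (nat_lit 131071))) (nat_lit 131071))) (nat_lit 131071))) (nat_lit 131071))) (nat_lit 131071))) (nat_lit 131071))) (nat_lit 131071))) (nat_lit 131071))) (nat_lit 131071))) (nat_lit 131071)), rfl⟩
noncomputable def w55 : WW := ⟨.a (.i (.a (.i (.a (.i (.a (.s (.a (.s (.a (.s (.a (.s (.a (.s (.a (.i (.a (.e))))))))))))))))))), fun m x => (Nat.land (Nat.shiftRight (Nat.shiftRight m (nat_lit 34)) (Nat.land (Nat.shiftRight (Nat.shiftRight m (nat_lit 17)) (Nat.land (Nat.shiftRight (Nat.shiftRight m (nat_lit 34)) (Nat.land (Nat.shiftRight m (Nat.land (Nat.shiftRight (Nat.shiftRight m (nat_lit 34))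
  (Nat.land (Nat.shiftRight m (Nat.land (Nat.shiftRight (Nat.shiftRight m (nat_lit 34)) (Nat.land (Nat.shiftRight m (Nat.land (Nat.shiftRight (Nat.shiftRight m (nat_lit 34)) (Nat.land (Nat.shiftRight m (Nat.land (Nat.shiftRight (Nat.shiftRight m (nat_lit 34)) (Nat.land (Nat.shiftRight m (Nat.land (Nat.shiftRight (Nat.shiftRight m (nat_lit 34)) (Nat.land (Nat.shiftRight (Nat.shiftRight m (nat_lit 17))
  (Nat.land (Nat.shiftRight (Nat.shiftRight m (nat_lit 34)) (Nat.land (Nat.shiftRight (Nat.shiftRight m (nat_lit 17)) (Nat.land (Nat.shiftRight (Nat.shiftRight m (nat_lit 34)) (Nat.land (Nat.shiftRight (Nat.shiftRight m (nat_lit 17)) (Nat.land (Nat.shiftRight x (nat_lit 34)) (nat_lit 131071))) (nat_lit 131071))) (nat_lit 131071))) (nat_lit 131071))) (nat_lit 131071))) (nat_lit 131071))) (nat_lit 131071))) (nat_lit 131071))) (nat_lit 131071))) (nat_lit 131071))) (nat_lit 131071))) (nat_lit 131071))) (nat_lit 131071))) (nat_lit 131071))) (nat_lit 131071)))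 (nat_lit 131071))) (nat_lit 131071))) (nat_lit 131071))) (nat_lit 131071)), rfl⟩
noncomputable def w56 : WW := ⟨.a (.i (.a (.i (.a (.i (.a (.s (.s (.a (.s (.a (.s (.a (.s (.a (.e)))))))))))))))), fun m x => (Nat.land (Nat.shiftRight (Nat.shiftRight m (nat_lit 34)) (Nat.land (Nat.shiftRight m (Nat.land (Nat.shiftRight (Nat.shiftRight m (nat_lit 34)) (Nat.land (Nat.shiftRight m (Nat.land (Nat.shiftRight (Nat.shiftRight m (nat_lit 34)) (Nat.land (Nat.shiftRight m (Nat.land (Nat.shiftRight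
  (Nat.shiftRight m (nat_lit 34)) (Nat.land (Nat.shiftRight m (Nat.land (Nat.shiftRight m (Nat.land (Nat.shiftRight (Nat.shiftRight m (nat_lit 34)) (Nat.land (Nat.shiftRight (Nat.shiftRight m (nat_lit 17)) (Nat.land (Nat.shiftRight (Nat.shiftRight m (nat_lit 34)) (Nat.land (Nat.shiftRight (Nat.shiftRight m (nat_lit 17)) (Nat.land (Nat.shiftRight (Nat.shiftRight m (nat_lit 34)) (Nat.land (Nat.shiftRight (Nat.shiftRight m (nat_lit 17)) (Nat.land (Nat.shiftRight x (nat_lit 34)) (nat_lit 131071))) (nat_lit 131071))) (nat_lit 131071))) (nat_lit 131071))) (nat_lit 131071))) (nat_lit 131071))) (nat_lit 131071))) (nat_lit 131071))) (nat_lit 131071))) (nat_lit 131071))) (nat_lit 131071))) (nat_lit 131071))) (nat_lit 131071))) (nat_lit 131071))) (nat_lit 131071))) (nat_lit 131071)), rfl⟩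
noncomputable def w57 : WW := ⟨.a (.i (.a (.i (.a (.s (.s (.a (.s (.a (.s (.a (.s (.a (.s (.a (.s (.a (.i (.a (.e)))))))))))))))))))), fun m x => (Nat.land (Nat.shiftRight (Nat.shiftRight m (nat_lit 34)) (Nat.land (Nat.shiftRight (Nat.shiftRight m (nat_lit 17)) (Nat.land (Nat.shiftRight (Nat.shiftRight m (nat_lit 34)) (Nat.land (Nat.shiftRight m (Nat.land (Nat.shiftRight (Nat.shiftRight m (nat_lit 34))
  (Nat.land (Nat.shiftRight m (Nat.land (Nat.shiftRight (Nat.shiftRight m (nat_lit 34)) (Nat.land (Nat.shiftRight m (Nat.land (Nat.shiftRight (Nat.shiftRight m (nat_lit 34)) (Nat.land (Nat.shiftRight m (Nat.land (Nat.shiftRight (Nat.shiftRight m (nat_lit 34)) (Nat.land (Nat.shiftRight m (Nat.land (Nat.shiftRight (Nat.shiftRight m (nat_lit 34)) (Nat.land (Nat.shiftRight m (Nat.land (Nat.shiftRight m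
  (Nat.land (Nat.shiftRight (Nat.shiftRight m (nat_lit 34)) (Nat.land (Nat.shiftRight (Nat.shiftRight m (nat_lit 17)) (Nat.land (Nat.shiftRight (Nat.shiftRight m (nat_lit 34)) (Nat.land (Nat.shiftRight (Nat.shiftRight m (nat_lit 17)) (Nat.land (Nat.shiftRight x (nat_lit 34)) (nat_lit 131071))) (nat_lit 131071))) (nat_lit 131071))) (nat_lit 131071))) (nat_lit 131071))) (nat_lit 131071))) (nat_lit 131071))) (nat_lit 131071))) (nat_lit 131071))) (nat_lit 131071))) (nat_lit 131071))) (nat_lit 131071))) (nat_lit 131071))) (nat_lit 131071))) (nat_lit 131071))) (nat_lit 131071))) (nat_lit 131071))) (nat_lit 131071))) (nat_lit 131071))) (nat_lit 131071)), rfl⟩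
noncomputable def w58 : WW := ⟨.s (.a (.s (.a (.i (.a (.i (.a (.i (.a (.s (.e))))))))))), fun m x => (Nat.land (Nat.shiftRight m (Nat.land (Nat.shiftRight (Nat.shiftRight m (nat_lit 34)) (Nat.land (Nat.shiftRight (Nat.shiftRight m (nat_lit 17)) (Nat.land (Nat.shiftRight (Nat.shiftRight m (nat_lit 34)) (Nat.land (Nat.shiftRight (Nat.shiftRight m (nat_lit 17)) (Nat.land (Nat.shiftRight (Nat.shiftRight m
  (nat_lit 34)) (Nat.land (Nat.shiftRight (Nat.shiftRight m (nat_lit 17)) (Nat.land (Nat.shiftRight (Nat.shiftRight m (nat_lit 34)) (Nat.land (Nat.shiftRight m (Nat.land (Nat.shiftRight (Nat.shiftRight m (nat_lit 34)) (Nat.land x (nat_lit 131071))) (nat_lit 131071))) (nat_lit 131071))) (nat_lit 131071))) (nat_lit 131071))) (nat_lit 131071))) (nat_lit 131071))) (nat_lit 131071))) (nat_lit 131071))) (nat_lit 131071))) (nat_lit 131071)), rfl⟩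
noncomputable def w59 : WW := ⟨.a (.i (.i (.a (.i (.a (.i (.a (.s (.e))))))))), fun m x => (Nat.land (Nat.shiftRight m (Nat.land (Nat.shiftRight (Nat.shiftRight m (nat_lit 34)) (Nat.land (Nat.shiftRight (Nat.shiftRight m (nat_lit 17)) (Nat.land (Nat.shiftRight (Nat.shiftRight m (nat_lit 34)) (Nat.land (Nat.shiftRight (Nat.shiftRight m (nat_lit 17)) (Nat.land (Nat.shiftRight (Nat.shiftRight m (nat_lit 34)) (Nat.land (Nat.shiftRight (Nat.shiftRight m (nat_lit 17)) (Nat.land (Nat.shiftRight (Nat.shiftRight m (nat_lit 17)) (Nat.land (Nat.shiftRight x (nat_lit 34)) (nat_lit 131071))) (nat_lit 131071))) (nat_lit 131071))) (nat_lit 131071))) (nat_lit 131071))) (nat_lit 131071))) (nat_lit 131071))) (nat_lit 131071))) (nat_lit 131071)), rfl⟩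
noncomputable def w60 : WW := ⟨.a (.i (.a (.i (.a (.i (.a (.s (.e)))))))), fun m x => (Nat.land (Nat.shiftRight m (Nat.land (Nat.shiftRight (Nat.shiftRight m (nat_lit 34)) (Nat.land (Nat.shiftRight (Nat.shiftRight m (nat_lit 17)) (Nat.land (Nat.shiftRight (Nat.shiftRight m (nat_lit 34)) (Nat.land (Nat.shiftRight (Nat.shiftRight m (nat_lit 17)) (Nat.land (Nat.shiftRight (Nat.shiftRight m (nat_lit 34)) (Nat.land (Nat.shiftRight (Nat.shiftRight m (nat_lit 17)) (Nat.land (Nat.shiftRight x (nat_lit 34)) (nat_lit 131071))) (nat_lit 131071))) (nat_lit 131071))) (nat_lit 131071))) (nat_lit 131071))) (nat_lit 131071))) (nat_lit 131071))) (nat_lit 131071)), rfl⟩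
noncomputable def w61 : WW := ⟨.a (.s (.e)), fun m x => (Nat.land (Nat.shiftRight m (Nat.land (Nat.shiftRight x (nat_lit 34)) (nat_lit 131071))) (nat_lit 131071)), rfl⟩
noncomputable def w62 : WW := ⟨.i (.a (.s (.a (.s (.a (.s (.a (.e)))))))), fun m x => (Nat.land (Nat.shiftRight (Nat.shiftRight m (nat_lit 34)) (Nat.land (Nat.shiftRight m (Nat.land (Nat.shiftRight (Nat.shiftRight m (nat_lit 34)) (Nat.land (Nat.shiftRight m (Nat.land (Nat.shiftRight (Nat.shiftRight m (nat_lit 34)) (Nat.land (Nat.shiftRight m (Nat.land (Nat.shiftRight (Nat.shiftRight m (nat_lit 34)) (Nat.land (Nat.shiftRight x (nat_lit 17)) (nat_lit 131071))) (nat_lit 131071))) (nat_lit 131071))) (nat_lit 131071))) (nat_lit 131071))) (nat_lit 131071))) (nat_lit 131071))) (nat_lit 131071)), rfl⟩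
noncomputable def w63 : WW := ⟨.s (.a (.s (.a (.i (.e))))), fun m x => (Nat.land (Nat.shiftRight (Nat.shiftRight m (nat_lit 17)) (Nat.land (Nat.shiftRight (Nat.shiftRight m (nat_lit 34)) (Nat.land (Nat.shiftRight m (Nat.land (Nat.shiftRight (Nat.shiftRight m (nat_lit 34)) (Nat.land x (nat_lit 131071))) (nat_lit 131071))) (nat_lit 131071))) (nat_lit 131071))) (nat_lit 131071)), rfl⟩
noncomputable def w64 : WW := ⟨.s (.a (.i (.a (.i (.a (.s (.a (.s (.a (.s (.a (.i (.a (.e)))))))))))))), fun m x => (Nat.land (Nat.shiftRight (Nat.shiftRight m (nat_lit 34)) (Nat.land (Nat.shiftRight (Nat.shiftRight m (nat_lit 17)) (Nat.land (Nat.shiftRight (Nat.shiftRight m (nat_lit 34)) (Nat.land (Nat.shiftRight m (Nat.land (Nat.shiftRight (Nat.shiftRight m (nat_lit 34)) (Nat.land (Nat.shiftRight m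
  (Nat.land (Nat.shiftRight (Nat.shiftRight m (nat_lit 34)) (Nat.land (Nat.shiftRight m (Nat.land (Nat.shiftRight (Nat.shiftRight m (nat_lit 34)) (Nat.land (Nat.shiftRight (Nat.shiftRight m (nat_lit 17)) (Nat.land (Nat.shiftRight (Nat.shiftRight m (nat_lit 34)) (Nat.land (Nat.shiftRight (Nat.shiftRight m (nat_lit 17)) (Nat.land (Nat.shiftRight (Nat.shiftRight m (nat_lit 34)) (Nat.land x (nat_lit 131071))) (nat_lit 131071))) (nat_lit 131071))) (nat_lit 131071))) (nat_lit 131071))) (nat_lit 131071))) (nat_lit 131071))) (nat_lit 131071))) (nat_lit 131071))) (nat_lit 131071))) (nat_lit 131071))) (nat_lit 131071))) (nat_lit 131071))) (nat_lit 131071)), rfl⟩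
noncomputable def w65 : WW := ⟨.i (.a (.s (.a (.s (.a (.e)))))), fun m x => (Nat.land (Nat.shiftRight (Nat.shiftRight m (nat_lit 34)) (Nat.land (Nat.shiftRight m (Nat.land (Nat.shiftRight (Nat.shiftRight m (nat_lit 34)) (Nat.land (Nat.shiftRight m (Nat.land (Nat.shiftRight (Nat.shiftRight m (nat_lit 34)) (Nat.land (Nat.shiftRight x (nat_lit 17)) (nat_lit 131071))) (nat_lit 131071))) (nat_lit 131071))) (nat_lit 131071))) (nat_lit 131071))) (nat_lit 131071)), rfl⟩
noncomputable def w66 : WW := ⟨.s (.a (.s (.a (.i (.i (.a (.s (.a (.i (.e)))))))))), fun m x => (Nat.land (Nat.shiftRight (Nat.shiftRight m (nat_lit 17)) (Nat.land (Nat.shiftRight (Nat.shiftRight m (nat_lit 34)) (Nat.land (Nat.shiftRight m (Nat.land (Nat.shiftRight (Nat.shiftRight m (nat_lit 34)) (Nat.land (Nat.shiftRight (Nat.shiftRight m (nat_lit 17)) (Nat.land (Nat.shiftRight (Nat.shiftRight m (nat_lit 17)) (Nat.land (Nat.shiftRight (Nat.shiftRight m (nat_lit 34)) (Nat.land (Nat.shiftRight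 m (Nat.land (Nat.shiftRight (Nat.shiftRight m (nat_lit 34)) (Nat.land x (nat_lit 131071))) (nat_lit 131071))) (nat_lit 131071))) (nat_lit 131071))) (nat_lit 131071))) (nat_lit 131071))) (nat_lit 131071))) (nat_lit 131071))) (nat_lit 131071))) (nat_lit 131071)), rfl⟩
noncomputable def w67 : WW := ⟨.i (.a (.s (.a (.s (.a (.s (.a (.s (.a (.i (.a (.e)))))))))))), fun m x => (Nat.land (Nat.shiftRight (Nat.shiftRight m (nat_lit 34)) (Nat.land (Nat.shiftRight (Nat.shiftRight m (nat_lit 17)) (Nat.land (Nat.shiftRight (Nat.shiftRight m (nat_lit 34)) (Nat.land (Nat.shiftRight m (Nat.land (Nat.shiftRight (Nat.shiftRight m (nat_lit 34)) (Nat.land (Nat.shiftRight m (Nat.land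
  (Nat.shiftRight (Nat.shiftRight m (nat_lit 34)) (Nat.land (Nat.shiftRight m (Nat.land (Nat.shiftRight (Nat.shiftRight m (nat_lit 34)) (Nat.land (Nat.shiftRight m (Nat.land (Nat.shiftRight (Nat.shiftRight m (nat_lit 34)) (Nat.land (Nat.shiftRight x (nat_lit 17)) (nat_lit 131071))) (nat_lit 131071))) (nat_lit 131071))) (nat_lit 131071))) (nat_lit 131071))) (nat_lit 131071))) (nat_lit 131071))) (nat_lit 131071))) (nat_lit 131071))) (nat_lit 131071))) (nat_lit 131071))) (nat_lit 131071)), rfl⟩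
noncomputable def w68 : WW := ⟨.a (.s (.a (.s (.a (.s (.a (.s (.a (.s (.a (.i (.a (.i (.a (.s (.a (.s (.a (.e))))))))))))))))))), fun m x => (Nat.land (Nat.shiftRight (Nat.shiftRight m (nat_lit 34)) (Nat.land (Nat.shiftRight m (Nat.land (Nat.shiftRight (Nat.shiftRight m (nat_lit 34)) (Nat.land (Nat.shiftRight m (Nat.land (Nat.shiftRight (Nat.shiftRight m (nat_lit 34)) (Nat.land (Nat.shiftRight (Nat.shiftRight m
  (nat_lit 17)) (Nat.land (Nat.shiftRight (Nat.shiftRight m (nat_lit 34)) (Nat.land (Nat.shiftRight (Nat.shiftRight m (nat_lit 17)) (Nat.land (Nat.shiftRight (Nat.shiftRight m (nat_lit 34)) (Nat.land (Nat.shiftRight m (Nat.land (Nat.shiftRight (Nat.shiftRight m (nat_lit 34)) (Nat.land (Nat.shiftRight m (Nat.land (Nat.shiftRight (Nat.shiftRight m (nat_lit 34)) (Nat.land (Nat.shiftRight m (Nat.land (Nat.shiftRight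
  (Nat.shiftRight m (nat_lit 34)) (Nat.land (Nat.shiftRight m (Nat.land (Nat.shiftRight (Nat.shiftRight m (nat_lit 34)) (Nat.land (Nat.shiftRight m (Nat.land (Nat.shiftRight x (nat_lit 34)) (nat_lit 131071))) (nat_lit 131071))) (nat_lit 131071))) (nat_lit 131071))) (nat_lit 131071))) (nat_lit 131071))) (nat_lit 131071))) (nat_lit 131071))) (nat_lit 131071))) (nat_lit 131071))) (nat_lit 131071))) (nat_lit 131071))) (nat_lit 131071))) (nat_lit 131071))) (nat_lit 131071))) (nat_lit 131071))) (nat_lit 131071))) (nat_lit 131071))) (nat_lit 131071)), rfl⟩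
noncomputable def w69 : WW := ⟨.i (.a (.i (.a (.s (.a (.s (.a (.s (.a (.s (.a (.s (.a (.i (.a (.e)))))))))))))))), fun m x => (Nat.land (Nat.shiftRight (Nat.shiftRight m (nat_lit 34)) (Nat.land (Nat.shiftRight (Nat.shiftRight m (nat_lit 17)) (Nat.land (Nat.shiftRight (Nat.shiftRight m (nat_lit 34)) (Nat.land (Nat.shiftRight m (Nat.land (Nat.shiftRight (Nat.shiftRight m (nat_lit 34)) (Nat.land (Nat.shiftRight m
  (Nat.land (Nat.shiftRight (Nat.shiftRight m (nat_lit 34)) (Nat.land (Nat.shiftRight m (Nat.land (Nat.shiftRight (Nat.shiftRight m (nat_lit 34)) (Nat.land (Nat.shiftRight m (Nat.land (Nat.shiftRight (Nat.shiftRight m (nat_lit 34)) (Nat.land (Nat.shiftRight m (Nat.land (Nat.shiftRight (Nat.shiftRight m (nat_lit 34)) (Nat.land (Nat.shiftRight (Nat.shiftRight m (nat_lit 17)) (Nat.land (Nat.shiftRight (Nat.shiftRight m (nat_lit 34)) (Nat.land (Nat.shiftRight x (nat_lit 17)) (nat_lit 131071))) (nat_lit 131071))) (nat_lit 131071))) (nat_lit 131071)))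 (nat_lit 131071))) (nat_lit 131071))) (nat_lit 131071))) (nat_lit 131071))) (nat_lit 131071))) (nat_lit 131071))) (nat_lit 131071))) (nat_lit 131071))) (nat_lit 131071))) (nat_lit 131071))) (nat_lit 131071))) (nat_lit 131071)), rfl⟩
noncomputable def w70 : WW := ⟨.s (.a (.s (.a (.s (.a (.i (.e))))))), fun m x => (Nat.land (Nat.shiftRight (Nat.shiftRight m (nat_lit 17)) (Nat.land (Nat.shiftRight (Nat.shiftRight m (nat_lit 34)) (Nat.land (Nat.shiftRight m (Nat.land (Nat.shiftRight (Nat.shiftRight m (nat_lit 34)) (Nat.land (Nat.shiftRight m (Nat.land (Nat.shiftRight (Nat.shiftRight m (nat_lit 34)) (Nat.land x (nat_lit 131071))) (nat_lit 131071))) (nat_lit 131071))) (nat_lit 131071))) (nat_lit 131071))) (nat_lit 131071))) (nat_lit 131071)), rfl⟩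
noncomputable def w71 : WW := ⟨.a (.i (.a (.s (.a (.i (.a (.i (.e)))))))), fun m x => (Nat.land (Nat.shiftRight (Nat.shiftRight m (nat_lit 17)) (Nat.land (Nat.shiftRight (Nat.shiftRight m (nat_lit 34)) (Nat.land (Nat.shiftRight (Nat.shiftRight m (nat_lit 17)) (Nat.land (Nat.shiftRight (Nat.shiftRight m (nat_lit 34)) (Nat.land (Nat.shiftRight m (Nat.land (Nat.shiftRight (Nat.shiftRight m (nat_lit 34)) (Nat.land (Nat.shiftRight (Nat.shiftRight m (nat_lit 17)) (Nat.land (Nat.shiftRight x (nat_lit 34)) (nat_lit 131071))) (nat_lit 131071))) (nat_lit 131071))) (nat_lit 131071))) (nat_lit 131071))) (nat_lit 131071))) (nat_lit 131071))) (nat_lit 131071)), rfl⟩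
noncomputable def w72 : WW := ⟨.s (.a (.i (.a (.s (.a (.s (.a (.s (.a (.e)))))))))), fun m x => (Nat.land (Nat.shiftRight (Nat.shiftRight m (nat_lit 34)) (Nat.land (Nat.shiftRight m (Nat.land (Nat.shiftRight (Nat.shiftRight m (nat_lit 34)) (Nat.land (Nat.shiftRight m (Nat.land (Nat.shiftRight (Nat.shiftRight m (nat_lit 34)) (Nat.land (Nat.shiftRight m (Nat.land (Nat.shiftRight (Nat.shiftRight m (nat_lit 34)) (Nat.land (Nat.shiftRight (Nat.shiftRight m (nat_lit 17)) (Nat.land (Nat.shiftRight (Nat.shiftRight m (nat_lit 34)) (Nat.land x (nat_lit 131071))) (nat_lit 131071))) (nat_lit 131071))) (nat_lit 131071))) (nat_lit 131071))) (nat_lit 131071))) (nat_lit 131071))) (nat_lit 131071))) (nat_lit 131071))) (nat_lit 131071)), rfl⟩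
noncomputable def w73 : WW := ⟨.i (.a (.s (.a (.i (.a (.s (.a (.e)))))))), fun m x => (Nat.land (Nat.shiftRight (Nat.shiftRight m (nat_lit 34)) (Nat.land (Nat.shiftRight m (Nat.land (Nat.shiftRight (Nat.shiftRight m (nat_lit 34)) (Nat.land (Nat.shiftRight (Nat.shiftRight m (nat_lit 17)) (Nat.land (Nat.shiftRight (Nat.shiftRight m (nat_lit 34)) (Nat.land (Nat.shiftRight m (Nat.land (Nat.shiftRight (Nat.shiftRight m (nat_lit 34)) (Nat.land (Nat.shiftRight x (nat_lit 17)) (nat_lit 131071))) (nat_lit 131071))) (nat_lit 131071))) (nat_lit 131071))) (nat_lit 131071))) (nat_lit 131071))) (nat_lit 131071))) (nat_lit 131071)), rfl⟩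
noncomputable def w74 : WW := ⟨.s (.a (.s (.a (.s (.a (.s (.a (.i (.e))))))))), fun m x => (Nat.land (Nat.shiftRight (Nat.shiftRight m (nat_lit 17)) (Nat.land (Nat.shiftRight (Nat.shiftRight m (nat_lit 34)) (Nat.land (Nat.shiftRight m (Nat.land (Nat.shiftRight (Nat.shiftRight m (nat_lit 34)) (Nat.land (Nat.shiftRight m (Nat.land (Nat.shiftRight (Nat.shiftRight m (nat_lit 34)) (Nat.land (Nat.shiftRight m (Nat.land (Nat.shiftRight (Nat.shiftRight m (nat_lit 34)) (Nat.land x (nat_lit 131071))) (nat_lit 131071))) (nat_lit 131071))) (nat_lit 131071))) (nat_lit 131071))) (nat_lit 131071))) (nat_lit 131071))) (nat_lit 131071))) (nat_lit 131071)), rfl⟩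
noncomputable def w75 : WW := ⟨.i (.i (.e)), fun m x => (Nat.land (Nat.shiftRight (Nat.shiftRight m (nat_lit 17)) (Nat.land (Nat.shiftRight x (nat_lit 17)) (nat_lit 131071))) (nat_lit 131071)), rfl⟩
noncomputable def w76 : WW := ⟨.i (.a (.i (.a (.s (.a (.i (.a (.i (.e))))))))), fun m x => (Nat.land (Nat.shiftRight (Nat.shiftRight m (nat_lit 17)) (Nat.land (Nat.shiftRight (Nat.shiftRight m (nat_lit 34)) (Nat.land (Nat.shiftRight (Nat.shiftRight m (nat_lit 17)) (Nat.land (Nat.shiftRight (Nat.shiftRight m (nat_lit 34)) (Nat.land (Nat.shiftRight m (Nat.land (Nat.shiftRight (Nat.shiftRight m (nat_lit 34)) (Nat.land (Nat.shiftRight (Nat.shiftRight m (nat_lit 17)) (Nat.land (Nat.shiftRight (Nat.shiftRight m (nat_lit 34)) (Nat.land (Nat.shiftRight x (nat_lit 17)) (nat_lit 131071))) (nat_lit 131071))) (nat_lit 131071))) (nat_lit 131071))) (nat_lit 131071))) (nat_lit 131071))) (nat_lit 131071))) (nat_lit 131071))) (nat_lit 131071)), rfl⟩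
noncomputable def w77 : WW := ⟨.s (.a (.s (.a (.s (.a (.i (.a (.s (.a (.e)))))))))), fun m x => (Nat.land (Nat.shiftRight (Nat.shiftRight m (nat_lit 34)) (Nat.land (Nat.shiftRight m (Nat.land (Nat.shiftRight (Nat.shiftRight m (nat_lit 34)) (Nat.land (Nat.shiftRight (Nat.shiftRight m (nat_lit 17)) (Nat.land (Nat.shiftRight (Nat.shiftRight m (nat_lit 34)) (Nat.land (Nat.shiftRight m (Nat.land (Nat.shiftRight (Nat.shiftRight m (nat_lit 34)) (Nat.land (Nat.shiftRight m (Nat.land (Nat.shiftRight (Nat.shiftRight m (nat_lit 34)) (Nat.land x (nat_lit 131071))) (nat_lit 131071))) (nat_lit 131071))) (nat_lit 131071))) (nat_lit 131071))) (nat_lit 131071))) (nat_lit 131071))) (nat_lit 131071))) (nat_lit 131071))) (nat_lit 131071)), rfl⟩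
noncomputable def w78 : WW := ⟨.s (.a (.i (.a (.s (.a (.s (.a (.s (.a (.s (.a (.e)))))))))))), fun m x => (Nat.land (Nat.shiftRight (Nat.shiftRight m (nat_lit 34)) (Nat.land (Nat.shiftRight m (Nat.land (Nat.shiftRight (Nat.shiftRight m (nat_lit 34)) (Nat.land (Nat.shiftRight m (Nat.land (Nat.shiftRight (Nat.shiftRight m (nat_lit 34)) (Nat.land (Nat.shiftRight m (Nat.land (Nat.shiftRight (Nat.shiftRight m
  (nat_lit 34)) (Nat.land (Nat.shiftRight m (Nat.land (Nat.shiftRight (Nat.shiftRight m (nat_lit 34)) (Nat.land (Nat.shiftRight (Nat.shiftRight m (nat_lit 17)) (Nat.land (Nat.shiftRight (Nat.shiftRight m (nat_lit 34)) (Nat.land x (nat_lit 131071))) (nat_lit 131071))) (nat_lit 131071))) (nat_lit 131071))) (nat_lit 131071))) (nat_lit 131071))) (nat_lit 131071))) (nat_lit 131071))) (nat_lit 131071))) (nat_lit 131071))) (nat_lit 131071))) (nat_lit 131071)), rfl⟩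
noncomputable def w79 : WW := ⟨.i (.a (.s (.a (.s (.a (.s (.a (.s (.a (.e)))))))))), fun m x => (Nat.land (Nat.shiftRight (Nat.shiftRight m (nat_lit 34)) (Nat.land (Nat.shiftRight m (Nat.land (Nat.shiftRight (Nat.shiftRight m (nat_lit 34)) (Nat.land (Nat.shiftRight m (Nat.land (Nat.shiftRight (Nat.shiftRight m (nat_lit 34)) (Nat.land (Nat.shiftRight m (Nat.land (Nat.shiftRight (Nat.shiftRight m (nat_lit 34)) (Nat.land (Nat.shiftRight m (Nat.land (Nat.shiftRight (Nat.shiftRight m (nat_lit 34)) (Nat.land (Nat.shiftRight x (nat_lit 17)) (nat_lit 131071))) (nat_lit 131071))) (nat_lit 131071))) (nat_lit 131071))) (nat_lit 131071))) (nat_lit 131071))) (nat_lit 131071))) (nat_lit 131071))) (nat_lit 131071))) (nat_lit 131071)), rfl⟩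
noncomputable def w80 : WW := ⟨.s (.a (.s (.s (.a (.i (.e)))))), fun m x => (Nat.land (Nat.shiftRight (Nat.shiftRight m (nat_lit 17)) (Nat.land (Nat.shiftRight (Nat.shiftRight m (nat_lit 34)) (Nat.land (Nat.shiftRight m (Nat.land (Nat.shiftRight m (Nat.land (Nat.shiftRight (Nat.shiftRight m (nat_lit 34)) (Nat.land x (nat_lit 131071))) (nat_lit 131071))) (nat_lit 131071))) (nat_lit 131071))) (nat_lit 131071))) (nat_lit 131071)), rfl⟩
noncomputable def w81 : WW := ⟨.s (.a (.s (.a (.i (.a (.s (.a (.s (.a (.e)))))))))), fun m x => (Nat.land (Nat.shiftRight (Nat.shiftRight m (nat_lit 34)) (Nat.land (Nat.shiftRight m (Nat.land (Nat.shiftRight (Nat.shiftRight m (nat_lit 34)) (Nat.land (Nat.shiftRight m (Nat.land (Nat.shiftRight (Nat.shiftRight m (nat_lit 34)) (Nat.land (Nat.shiftRight (Nat.shiftRight m (nat_lit 17)) (Nat.land (Nat.shiftRight (Nat.shiftRight m (nat_lit 34)) (Nat.land (Nat.shiftRight m (Nat.land (Nat.shiftRight (Nat.shiftRight m (nat_lit 34))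 (Nat.land x (nat_lit 131071))) (nat_lit 131071))) (nat_lit 131071))) (nat_lit 131071))) (nat_lit 131071))) (nat_lit 131071))) (nat_lit 131071))) (nat_lit 131071))) (nat_lit 131071))) (nat_lit 131071)), rfl⟩
noncomputable def w82 : WW := ⟨.s (.a (.s (.a (.s (.a (.i (.a (.s (.a (.s (.a (.e)))))))))))), fun m x => (Nat.land (Nat.shiftRight (Nat.shiftRight m (nat_lit 34)) (Nat.land (Nat.shiftRight m (Nat.land (Nat.shiftRight (Nat.shiftRight m (nat_lit 34)) (Nat.land (Nat.shiftRight m (Nat.land (Nat.shiftRight (Nat.shiftRight m (nat_lit 34)) (Nat.land (Nat.shiftRight (Nat.shiftRight m (nat_lit 17)) (Nat.land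
  (Nat.shiftRight (Nat.shiftRight m (nat_lit 34)) (Nat.land (Nat.shiftRight m (Nat.land (Nat.shiftRight (Nat.shiftRight m (nat_lit 34)) (Nat.land (Nat.shiftRight m (Nat.land (Nat.shiftRight (Nat.shiftRight m (nat_lit 34)) (Nat.land x (nat_lit 131071))) (nat_lit 131071))) (nat_lit 131071))) (nat_lit 131071))) (nat_lit 131071))) (nat_lit 131071))) (nat_lit 131071))) (nat_lit 131071))) (nat_lit 131071))) (nat_lit 131071))) (nat_lit 131071))) (nat_lit 131071)), rfl⟩
noncomputable def w83 : WW := ⟨.a (.s (.a (.s (.a (.s (.a (.s (.a (.s (.a (.i (.a (.i (.a (.s (.a (.s (.a (.s (.a (.e))))))))))))))))))))), fun m x => (Nat.land (Nat.shiftRight (Nat.shiftRight m (nat_lit 34)) (Nat.land (Nat.shiftRight m (Nat.land (Nat.shiftRight (Nat.shiftRight m (nat_lit 34)) (Nat.land (Nat.shiftRight m (Nat.land (Nat.shiftRight (Nat.shiftRight m (nat_lit 34)) (Nat.land (Nat.shiftRight m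
  (Nat.land (Nat.shiftRight (Nat.shiftRight m (nat_lit 34)) (Nat.land (Nat.shiftRight (Nat.shiftRight m (nat_lit 17)) (Nat.land (Nat.shiftRight (Nat.shiftRight m (nat_lit 34)) (Nat.land (Nat.shiftRight (Nat.shiftRight m (nat_lit 17)) (Nat.land (Nat.shiftRight (Nat.shiftRight m (nat_lit 34)) (Nat.land (Nat.shiftRight m (Nat.land (Nat.shiftRight (Nat.shiftRight m (nat_lit 34)) (Nat.land (Nat.shiftRight m
  (Nat.land (Nat.shiftRight (Nat.shiftRight m (nat_lit 34)) (Nat.land (Nat.shiftRight m (Nat.land (Nat.shiftRight (Nat.shiftRight m (nat_lit 34)) (Nat.land (Nat.shiftRight m (Nat.land (Nat.shiftRight (Nat.shiftRight m (nat_lit 34)) (Nat.land (Nat.shiftRight m (Nat.land (Nat.shiftRight x (nat_lit 34)) (nat_lit 131071))) (nat_lit 131071))) (nat_lit 131071))) (nat_lit 131071))) (nat_lit 131071))) (nat_lit 131071))) (nat_lit 131071))) (nat_lit 131071))) (nat_lit 131071))) (nat_lit 131071))) (nat_lit 131071))) (nat_lit 131071))) (nat_lit 131071))) (nat_lit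 131071))) (nat_lit 131071))) (nat_lit 131071))) (nat_lit 131071))) (nat_lit 131071))) (nat_lit 131071))) (nat_lit 131071))) (nat_lit 131071)), rfl⟩
noncomputable def w84 : WW := ⟨.s (.a (.s (.a (.i (.i (.a (.s (.a (.e))))))))), fun m x => (Nat.land (Nat.shiftRight (Nat.shiftRight m (nat_lit 34)) (Nat.land (Nat.shiftRight m (Nat.land (Nat.shiftRight (Nat.shiftRight m (nat_lit 34)) (Nat.land (Nat.shiftRight (Nat.shiftRight m (nat_lit 17)) (Nat.land (Nat.shiftRight (Nat.shiftRight m (nat_lit 17)) (Nat.land (Nat.shiftRight (Nat.shiftRight m (nat_lit 34)) (Nat.land (Nat.shiftRight m (Nat.land (Nat.shiftRight (Nat.shiftRight m (nat_lit 34)) (Nat.land x (nat_lit 131071))) (nat_lit 131071))) (nat_lit 131071))) (nat_lit 131071))) (nat_lit 131071))) (nat_lit 131071))) (nat_lit 131071))) (nat_lit 131071))) (nat_lit 131071)), rfl⟩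
noncomputable def w85 : WW := ⟨.a (.s (.a (.s (.a (.s (.a (.s (.a (.i (.a (.s (.a (.i (.a (.s (.a (.s (.a (.e))))))))))))))))))), fun m x => (Nat.land (Nat.shiftRight (Nat.shiftRight m (nat_lit 34)) (Nat.land (Nat.shiftRight m (Nat.land (Nat.shiftRight (Nat.shiftRight m (nat_lit 34)) (Nat.land (Nat.shiftRight m (Nat.land (Nat.shiftRight (Nat.shiftRight m (nat_lit 34)) (Nat.land (Nat.shiftRight (Nat.shiftRight m
  (nat_lit 17)) (Nat.land (Nat.shiftRight (Nat.shiftRight m (nat_lit 34)) (Nat.land (Nat.shiftRight m (Nat.land (Nat.shiftRight (Nat.shiftRight m (nat_lit 34)) (Nat.land (Nat.shiftRight (Nat.shiftRight m (nat_lit 17)) (Nat.land (Nat.shiftRight (Nat.shiftRight m (nat_lit 34)) (Nat.land (Nat.shiftRight m (Nat.land (Nat.shiftRight (Nat.shiftRight m (nat_lit 34)) (Nat.land (Nat.shiftRight m (Nat.land (Nat.shiftRight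
  (Nat.shiftRight m (nat_lit 34)) (Nat.land (Nat.shiftRight m (Nat.land (Nat.shiftRight (Nat.shiftRight m (nat_lit 34)) (Nat.land (Nat.shiftRight m (Nat.land (Nat.shiftRight x (nat_lit 34)) (nat_lit 131071))) (nat_lit 131071))) (nat_lit 131071))) (nat_lit 131071))) (nat_lit 131071))) (nat_lit 131071))) (nat_lit 131071))) (nat_lit 131071))) (nat_lit 131071))) (nat_lit 131071))) (nat_lit 131071))) (nat_lit 131071))) (nat_lit 131071))) (nat_lit 131071))) (nat_lit 131071))) (nat_lit 131071))) (nat_lit 131071))) (nat_lit 131071))) (nat_lit 131071)), rfl⟩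
noncomputable def w86 : WW := ⟨.i (.a (.s (.a (.i (.a (.s (.a (.s (.a (.e)))))))))), fun m x => (Nat.land (Nat.shiftRight (Nat.shiftRight m (nat_lit 34)) (Nat.land (Nat.shiftRight m (Nat.land (Nat.shiftRight (Nat.shiftRight m (nat_lit 34)) (Nat.land (Nat.shiftRight m (Nat.land (Nat.shiftRight (Nat.shiftRight m (nat_lit 34)) (Nat.land (Nat.shiftRight (Nat.shiftRight m (nat_lit 17)) (Nat.land (Nat.shiftRight (Nat.shiftRight m (nat_lit 34)) (Nat.land (Nat.shiftRight m (Nat.land (Nat.shiftRight (Nat.shiftRight m (nat_lit 34)) (Nat.land (Nat.shiftRight x (nat_lit 17)) (nat_lit 131071))) (nat_lit 131071))) (nat_lit 131071))) (nat_lit 131071))) (nat_lit 131071))) (nat_lit 131071))) (nat_lit 131071))) (nat_lit 131071))) (nat_lit 131071))) (nat_lit 131071)), rfl⟩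
noncomputable def w87 : WW := ⟨.a (.s (.a (.s (.a (.s (.a (.s (.a (.s (.a (.i (.a (.s (.a (.i (.a (.s (.a (.e))))))))))))))))))), fun m x => (Nat.land (Nat.shiftRight (Nat.shiftRight m (nat_lit 34)) (Nat.land (Nat.shiftRight m (Nat.land (Nat.shiftRight (Nat.shiftRight m (nat_lit 34)) (Nat.land (Nat.shiftRight (Nat.shiftRight m (nat_lit 17)) (Nat.land (Nat.shiftRight (Nat.shiftRight m (nat_lit 34))
  (Nat.land (Nat.shiftRight m (Nat.land (Nat.shiftRight (Nat.shiftRight m (nat_lit 34)) (Nat.land (Nat.shiftRight (Nat.shiftRight m (nat_lit 17)) (Nat.land (Nat.shiftRight (Nat.shiftRight m (nat_lit 34)) (Nat.land (Nat.shiftRight m (Nat.land (Nat.shiftRight (Nat.shiftRight m (nat_lit 34)) (Nat.land (Nat.shiftRight m (Nat.land (Nat.shiftRight (Nat.shiftRight m (nat_lit 34)) (Nat.land (Nat.shiftRight m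
  (Nat.land (Nat.shiftRight (Nat.shiftRight m (nat_lit 34)) (Nat.land (Nat.shiftRight m (Nat.land (Nat.shiftRight (Nat.shiftRight m (nat_lit 34)) (Nat.land (Nat.shiftRight m (Nat.land (Nat.shiftRight x (nat_lit 34)) (nat_lit 131071))) (nat_lit 131071))) (nat_lit 131071))) (nat_lit 131071))) (nat_lit 131071))) (nat_lit 131071))) (nat_lit 131071))) (nat_lit 131071))) (nat_lit 131071))) (nat_lit 131071))) (nat_lit 131071))) (nat_lit 131071))) (nat_lit 131071))) (nat_lit 131071))) (nat_lit 131071))) (nat_lit 131071))) (nat_lit 131071))) (nat_lit 131071))) (nat_lit 131071)), rfl⟩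
noncomputable def w88 : WW := ⟨.s (.a (.s (.a (.s (.a (.s (.a (.i (.i (.a (.s (.a (.s (.a (.e))))))))))))))), fun m x => (Nat.land (Nat.shiftRight (Nat.shiftRight m (nat_lit 34)) (Nat.land (Nat.shiftRight m (Nat.land (Nat.shiftRight (Nat.shiftRight m (nat_lit 34)) (Nat.land (Nat.shiftRight m (Nat.land (Nat.shiftRight (Nat.shiftRight m (nat_lit 34)) (Nat.land (Nat.shiftRight (Nat.shiftRight m (nat_lit 17))
  (Nat.land (Nat.shiftRight (Nat.shiftRight m (nat_lit 17)) (Nat.land (Nat.shiftRight (Nat.shiftRight m (nat_lit 34)) (Nat.land (Nat.shiftRight m (Nat.land (Nat.shiftRight (Nat.shiftRight m (nat_lit 34)) (Nat.land (Nat.shiftRight m (Nat.land (Nat.shiftRight (Nat.shiftRight m (nat_lit 34)) (Nat.land (Nat.shiftRight m (Nat.land (Nat.shiftRight (Nat.shiftRight m (nat_lit 34)) (Nat.land x (nat_lit 131071))) (nat_lit 131071))) (nat_lit 131071))) (nat_lit 131071))) (nat_lit 131071))) (nat_lit 131071))) (nat_lit 131071))) (nat_lit 131071))) (nat_lit 131071)))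 (nat_lit 131071))) (nat_lit 131071))) (nat_lit 131071))) (nat_lit 131071))) (nat_lit 131071))) (nat_lit 131071)), rfl⟩
noncomputable def w89 : WW := ⟨.s (.a (.s (.a (.i (.a (.i (.a (.s (.a (.s (.a (.s (.a (.i (.a (.s (.a (.s (.a (.i (.a (.s (.a (.s (.a (.s (.a (.s (.a (.i (.a (.i (.a (.s (.a (.e)))))))))))))))))))))))))))))))))))), fun m x => (Nat.land (Nat.shiftRight (Nat.shiftRight m (nat_lit 34)) (Nat.land (Nat.shiftRight m (Nat.land (Nat.shiftRight (Nat.shiftRight m (nat_lit 34)) (Nat.land (Nat.shiftRight (Nat.shiftRight m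
  (nat_lit 17)) (Nat.land (Nat.shiftRight (Nat.shiftRight m (nat_lit 34)) (Nat.land (Nat.shiftRight (Nat.shiftRight m (nat_lit 17)) (Nat.land (Nat.shiftRight (Nat.shiftRight m (nat_lit 34)) (Nat.land (Nat.shiftRight m (Nat.land (Nat.shiftRight (Nat.shiftRight m (nat_lit 34)) (Nat.land (Nat.shiftRight m (Nat.land (Nat.shiftRight (Nat.shiftRight m (nat_lit 34)) (Nat.land (Nat.shiftRight m (Nat.land (Nat.shiftRight
  (Nat.shiftRight m (nat_lit 34)) (Nat.land (Nat.shiftRight m (Nat.land (Nat.shiftRight (Nat.shiftRight m (nat_lit 34)) (Nat.land (Nat.shiftRight (Nat.shiftRight m (nat_lit 17)) (Nat.land (Nat.shiftRight (Nat.shiftRight m (nat_lit 34)) (Nat.land (Nat.shiftRight m (Nat.land (Nat.shiftRight (Nat.shiftRight m (nat_lit 34)) (Nat.land (Nat.shiftRight m (Nat.land (Nat.shiftRight (Nat.shiftRight m (nat_lit 34))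
  (Nat.land (Nat.shiftRight (Nat.shiftRight m (nat_lit 17)) (Nat.land (Nat.shiftRight (Nat.shiftRight m (nat_lit 34)) (Nat.land (Nat.shiftRight m (Nat.land (Nat.shiftRight (Nat.shiftRight m (nat_lit 34)) (Nat.land (Nat.shiftRight m (Nat.land (Nat.shiftRight (Nat.shiftRight m (nat_lit 34)) (Nat.land (Nat.shiftRight m (Nat.land (Nat.shiftRight (Nat.shiftRight m (nat_lit 34)) (Nat.land (Nat.shiftRight
  (Nat.shiftRight m (nat_lit 17)) (Nat.land (Nat.shiftRight (Nat.shiftRight m (nat_lit 34)) (Nat.land (Nat.shiftRight (Nat.shiftRight m (nat_lit 17)) (Nat.land (Nat.shiftRight (Nat.shiftRight m (nat_lit 34)) (Nat.land (Nat.shiftRight m (Nat.land (Nat.shiftRight (Nat.shiftRight m (nat_lit 34)) (Nat.land x (nat_lit 131071))) (nat_lit 131071))) (nat_lit 131071))) (nat_lit 131071))) (nat_lit 131071)))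
  (nat_lit 131071))) (nat_lit 131071))) (nat_lit 131071))) (nat_lit 131071))) (nat_lit 131071))) (nat_lit 131071))) (nat_lit 131071))) (nat_lit 131071))) (nat_lit 131071))) (nat_lit 131071))) (nat_lit 131071))) (nat_lit 131071))) (nat_lit 131071))) (nat_lit 131071))) (nat_lit 131071))) (nat_lit 131071))) (nat_lit 131071))) (nat_lit 131071))) (nat_lit 131071))) (nat_lit 131071))) (nat_lit 131071))) (nat_lit 131071))) (nat_lit 131071))) (nat_lit 131071))) (nat_lit 131071))) (nat_lit 131071))) (nat_lit 131071))) (nat_lit 131071))) (nat_lit 131071))) (nat_lit 131071))) (nat_lit 131071)), rfl⟩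
noncomputable def w90 : WW := ⟨.a (.i (.a (.i (.a (.i (.a (.s (.s (.a (.s (.a (.i (.e))))))))))))), fun m x => (Nat.land (Nat.shiftRight (Nat.shiftRight m (nat_lit 17)) (Nat.land (Nat.shiftRight (Nat.shiftRight m (nat_lit 34)) (Nat.land (Nat.shiftRight m (Nat.land (Nat.shiftRight (Nat.shiftRight m (nat_lit 34)) (Nat.land (Nat.shiftRight m (Nat.land (Nat.shiftRight m (Nat.land (Nat.shiftRight (Nat.shiftRight m
  (nat_lit 34)) (Nat.land (Nat.shiftRight (Nat.shiftRight m (nat_lit 17)) (Nat.land (Nat.shiftRight (Nat.shiftRight m (nat_lit 34)) (Nat.land (Nat.shiftRight (Nat.shiftRight m (nat_lit 17)) (Nat.land (Nat.shiftRight (Nat.shiftRight m (nat_lit 34)) (Nat.land (Nat.shiftRight (Nat.shiftRight m (nat_lit 17)) (Nat.land (Nat.shiftRight x (nat_lit 34)) (nat_lit 131071))) (nat_lit 131071))) (nat_lit 131071))) (nat_lit 131071))) (nat_lit 131071))) (nat_lit 131071))) (nat_lit 131071))) (nat_lit 131071))) (nat_lit 131071))) (nat_lit 131071))) (nat_lit 131071)))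 (nat_lit 131071))) (nat_lit 131071)), rfl⟩
noncomputable def w91 : WW := ⟨.s (.a (.i (.a (.s (.a (.i (.a (.s (.a (.e)))))))))), fun m x => (Nat.land (Nat.shiftRight (Nat.shiftRight m (nat_lit 34)) (Nat.land (Nat.shiftRight m (Nat.land (Nat.shiftRight (Nat.shiftRight m (nat_lit 34)) (Nat.land (Nat.shiftRight (Nat.shiftRight m (nat_lit 17)) (Nat.land (Nat.shiftRight (Nat.shiftRight m (nat_lit 34)) (Nat.land (Nat.shiftRight m (Nat.land (Nat.shiftRight (Nat.shiftRight m (nat_lit 34)) (Nat.land (Nat.shiftRight (Nat.shiftRight m (nat_lit 17)) (Nat.land (Nat.shiftRight (Nat.shiftRight m (nat_lit 34)) (Nat.land x (nat_lit 131071))) (nat_lit 131071))) (nat_lit 131071))) (nat_lit 131071))) (nat_lit 131071))) (nat_lit 131071))) (nat_lit 131071))) (nat_lit 131071))) (nat_lit 131071))) (nat_lit 131071)), rfl⟩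
noncomputable def w92 : WW := ⟨.s (.a (.s (.a (.i (.i (.a (.s (.a (.i (.a (.s (.a (.s (.a (.e))))))))))))))), fun m x => (Nat.land (Nat.shiftRight (Nat.shiftRight m (nat_lit 34)) (Nat.land (Nat.shiftRight m (Nat.land (Nat.shiftRight (Nat.shiftRight m (nat_lit 34)) (Nat.land (Nat.shiftRight m (Nat.land (Nat.shiftRight (Nat.shiftRight m (nat_lit 34)) (Nat.land (Nat.shiftRight (Nat.shiftRight m (nat_lit 17))
  (Nat.land (Nat.shiftRight (Nat.shiftRight m (nat_lit 34)) (Nat.land (Nat.shiftRight m (Nat.land (Nat.shiftRight (Nat.shiftRight m (nat_lit 34)) (Nat.land (Nat.shiftRight (Nat.shiftRight m (nat_lit 17)) (Nat.land (Nat.shiftRight (Nat.shiftRight m (nat_lit 17)) (Nat.land (Nat.shiftRight (Nat.shiftRight m (nat_lit 34)) (Nat.land (Nat.shiftRight m (Nat.land (Nat.shiftRight (Nat.shiftRight m (nat_lit 34)) (Nat.land x (nat_lit 131071))) (nat_lit 131071))) (nat_lit 131071))) (nat_lit 131071))) (nat_lit 131071))) (nat_lit 131071))) (nat_lit 131071))) (nat_lit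 131071))) (nat_lit 131071))) (nat_lit 131071))) (nat_lit 131071))) (nat_lit 131071))) (nat_lit 131071))) (nat_lit 131071))) (nat_lit 131071)), rfl⟩
noncomputable def w93 : WW := ⟨.s (.a (.s (.a (.i (.a (.s (.a (.s (.a (.s (.a (.i (.i (.a (.s (.a (.e))))))))))))))))), fun m x => (Nat.land (Nat.shiftRight (Nat.shiftRight m (nat_lit 34)) (Nat.land (Nat.shiftRight m (Nat.land (Nat.shiftRight (Nat.shiftRight m (nat_lit 34)) (Nat.land (Nat.shiftRight (Nat.shiftRight m (nat_lit 17)) (Nat.land (Nat.shiftRight (Nat.shiftRight m (nat_lit 17)) (Nat.land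
  (Nat.shiftRight (Nat.shiftRight m (nat_lit 34)) (Nat.land (Nat.shiftRight m (Nat.land (Nat.shiftRight (Nat.shiftRight m (nat_lit 34)) (Nat.land (Nat.shiftRight m (Nat.land (Nat.shiftRight (Nat.shiftRight m (nat_lit 34)) (Nat.land (Nat.shiftRight m (Nat.land (Nat.shiftRight (Nat.shiftRight m (nat_lit 34)) (Nat.land (Nat.shiftRight (Nat.shiftRight m (nat_lit 17)) (Nat.land (Nat.shiftRight (Nat.shiftRight m
  (nat_lit 34)) (Nat.land (Nat.shiftRight m (Nat.land (Nat.shiftRight (Nat.shiftRight m (nat_lit 34)) (Nat.land x (nat_lit 131071))) (nat_lit 131071))) (nat_lit 131071))) (nat_lit 131071))) (nat_lit 131071))) (nat_lit 131071))) (nat_lit 131071))) (nat_lit 131071))) (nat_lit 131071))) (nat_lit 131071))) (nat_lit 131071))) (nat_lit 131071))) (nat_lit 131071))) (nat_lit 131071))) (nat_lit 131071))) (nat_lit 131071))) (nat_lit 131071)), rfl⟩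
noncomputable def w94 : WW := ⟨.s (.a (.s (.a (.i (.a (.s (.a (.i (.a (.s (.a (.e)))))))))))), fun m x => (Nat.land (Nat.shiftRight (Nat.shiftRight m (nat_lit 34)) (Nat.land (Nat.shiftRight m (Nat.land (Nat.shiftRight (Nat.shiftRight m (nat_lit 34)) (Nat.land (Nat.shiftRight (Nat.shiftRight m (nat_lit 17)) (Nat.land (Nat.shiftRight (Nat.shiftRight m (nat_lit 34)) (Nat.land (Nat.shiftRight m (Nat.land
  (Nat.shiftRight (Nat.shiftRight m (nat_lit 34)) (Nat.land (Nat.shiftRight (Nat.shiftRight m (nat_lit 17)) (Nat.land (Nat.shiftRight (Nat.shiftRight m (nat_lit 34)) (Nat.land (Nat.shiftRight m (Nat.land (Nat.shiftRight (Nat.shiftRight m (nat_lit 34)) (Nat.land x (nat_lit 131071))) (nat_lit 131071))) (nat_lit 131071))) (nat_lit 131071))) (nat_lit 131071))) (nat_lit 131071))) (nat_lit 131071))) (nat_lit 131071))) (nat_lit 131071))) (nat_lit 131071))) (nat_lit 131071))) (nat_lit 131071)), rfl⟩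
noncomputable def w95 : WW := ⟨.s (.a (.s (.a (.i (.a (.s (.a (.i (.a (.s (.a (.s (.a (.s (.a (.i (.a (.s (.a (.i (.a (.s (.a (.s (.a (.s (.a (.s (.a (.i (.a (.s (.a (.i (.a (.s (.a (.e)))))))))))))))))))))))))))))))))))))), fun m x => (Nat.land (Nat.shiftRight (Nat.shiftRight m (nat_lit 34)) (Nat.land (Nat.shiftRight m (Nat.land (Nat.shiftRight (Nat.shiftRight m (nat_lit 34)) (Nat.land (Nat.shiftRight
  (Nat.shiftRight m (nat_lit 17)) (Nat.land (Nat.shiftRight (Nat.shiftRight m (nat_lit 34)) (Nat.land (Nat.shiftRight m (Nat.land (Nat.shiftRight (Nat.shiftRight m (nat_lit 34)) (Nat.land (Nat.shiftRight (Nat.shiftRight m (nat_lit 17)) (Nat.land (Nat.shiftRight (Nat.shiftRight m (nat_lit 34)) (Nat.land (Nat.shiftRight m (Nat.land (Nat.shiftRight (Nat.shiftRight m (nat_lit 34)) (Nat.land (Nat.shiftRight m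
  (Nat.land (Nat.shiftRight (Nat.shiftRight m (nat_lit 34)) (Nat.land (Nat.shiftRight m (Nat.land (Nat.shiftRight (Nat.shiftRight m (nat_lit 34)) (Nat.land (Nat.shiftRight m (Nat.land (Nat.shiftRight (Nat.shiftRight m (nat_lit 34)) (Nat.land (Nat.shiftRight (Nat.shiftRight m (nat_lit 17)) (Nat.land (Nat.shiftRight (Nat.shiftRight m (nat_lit 34)) (Nat.land (Nat.shiftRight m (Nat.land (Nat.shiftRight
  (Nat.shiftRight m (nat_lit 34)) (Nat.land (Nat.shiftRight (Nat.shiftRight m (nat_lit 17)) (Nat.land (Nat.shiftRight (Nat.shiftRight m (nat_lit 34)) (Nat.land (Nat.shiftRight m (Nat.land (Nat.shiftRight (Nat.shiftRight m (nat_lit 34)) (Nat.land (Nat.shiftRight m (Nat.land (Nat.shiftRight (Nat.shiftRight m (nat_lit 34)) (Nat.land (Nat.shiftRight m (Nat.land (Nat.shiftRight (Nat.shiftRight m (nat_lit 34))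
  (Nat.land (Nat.shiftRight (Nat.shiftRight m (nat_lit 17)) (Nat.land (Nat.shiftRight (Nat.shiftRight m (nat_lit 34)) (Nat.land (Nat.shiftRight m (Nat.land (Nat.shiftRight (Nat.shiftRight m (nat_lit 34)) (Nat.land (Nat.shiftRight (Nat.shiftRight m (nat_lit 17)) (Nat.land (Nat.shiftRight (Nat.shiftRight m (nat_lit 34)) (Nat.land (Nat.shiftRight m (Nat.land (Nat.shiftRight (Nat.shiftRight m (nat_lit 34))
  (Nat.land x (nat_lit 131071))) (nat_lit 131071))) (nat_lit 131071))) (nat_lit 131071))) (nat_lit 131071))) (nat_lit 131071))) (nat_lit 131071))) (nat_lit 131071))) (nat_lit 131071))) (nat_lit 131071))) (nat_lit 131071))) (nat_lit 131071))) (nat_lit 131071))) (nat_lit 131071))) (nat_lit 131071))) (nat_lit 131071))) (nat_lit 131071))) (nat_lit 131071))) (nat_lit 131071))) (nat_lit 131071))) (nat_lit 131071))) (nat_lit 131071))) (nat_lit 131071))) (nat_lit 131071))) (nat_lit 131071))) (nat_lit 131071))) (nat_lit 131071))) (nat_lit 131071))) (nat_lit 131071)))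 (nat_lit 131071))) (nat_lit 131071))) (nat_lit 131071))) (nat_lit 131071))) (nat_lit 131071))) (nat_lit 131071))) (nat_lit 131071))) (nat_lit 131071))) (nat_lit 131071)), rfl⟩
noncomputable def w96 : WW := ⟨.a (.i (.a (.i (.a (.s (.s (.a (.s (.a (.i (.e))))))))))), fun m x => (Nat.land (Nat.shiftRight (Nat.shiftRight m (nat_lit 17)) (Nat.land (Nat.shiftRight (Nat.shiftRight m (nat_lit 34)) (Nat.land (Nat.shiftRight m (Nat.land (Nat.shiftRight (Nat.shiftRight m (nat_lit 34)) (Nat.land (Nat.shiftRight m (Nat.land (Nat.shiftRight m (Nat.land (Nat.shiftRight (Nat.shiftRight m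
  (nat_lit 34)) (Nat.land (Nat.shiftRight (Nat.shiftRight m (nat_lit 17)) (Nat.land (Nat.shiftRight (Nat.shiftRight m (nat_lit 34)) (Nat.land (Nat.shiftRight (Nat.shiftRight m (nat_lit 17)) (Nat.land (Nat.shiftRight x (nat_lit 34)) (nat_lit 131071))) (nat_lit 131071))) (nat_lit 131071))) (nat_lit 131071))) (nat_lit 131071))) (nat_lit 131071))) (nat_lit 131071))) (nat_lit 131071))) (nat_lit 131071))) (nat_lit 131071))) (nat_lit 131071)), rfl⟩
noncomputable def w97 : WW := ⟨.s (.a (.s (.a (.s (.a (.s (.a (.i (.i (.a (.s (.a (.s (.a (.s (.a (.e))))))))))))))))), fun m x => (Nat.land (Nat.shiftRight (Nat.shiftRight m (nat_lit 34)) (Nat.land (Nat.shiftRight m (Nat.land (Nat.shiftRight (Nat.shiftRight m (nat_lit 34)) (Nat.land (Nat.shiftRight m (Nat.land (Nat.shiftRight (Nat.shiftRight m (nat_lit 34)) (Nat.land (Nat.shiftRight m (Nat.land (Nat.shiftRight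
  (Nat.shiftRight m (nat_lit 34)) (Nat.land (Nat.shiftRight (Nat.shiftRight m (nat_lit 17)) (Nat.land (Nat.shiftRight (Nat.shiftRight m (nat_lit 17)) (Nat.land (Nat.shiftRight (Nat.shiftRight m (nat_lit 34)) (Nat.land (Nat.shiftRight m (Nat.land (Nat.shiftRight (Nat.shiftRight m (nat_lit 34)) (Nat.land (Nat.shiftRight m (Nat.land (Nat.shiftRight (Nat.shiftRight m (nat_lit 34)) (Nat.land (Nat.shiftRight m
  (Nat.land (Nat.shiftRight (Nat.shiftRight m (nat_lit 34)) (Nat.land x (nat_lit 131071))) (nat_lit 131071))) (nat_lit 131071))) (nat_lit 131071))) (nat_lit 131071))) (nat_lit 131071))) (nat_lit 131071))) (nat_lit 131071))) (nat_lit 131071))) (nat_lit 131071))) (nat_lit 131071))) (nat_lit 131071))) (nat_lit 131071))) (nat_lit 131071))) (nat_lit 131071))) (nat_lit 131071))) (nat_lit 131071)), rfl⟩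
noncomputable def w98 : WW := ⟨.a (.s (.s (.a (.s (.a (.i (.e))))))), fun m x => (Nat.land (Nat.shiftRight (Nat.shiftRight m (nat_lit 17)) (Nat.land (Nat.shiftRight (Nat.shiftRight m (nat_lit 34)) (Nat.land (Nat.shiftRight m (Nat.land (Nat.shiftRight (Nat.shiftRight m (nat_lit 34)) (Nat.land (Nat.shiftRight m (Nat.land (Nat.shiftRight m (Nat.land (Nat.shiftRight x (nat_lit 34)) (nat_lit 131071))) (nat_lit 131071))) (nat_lit 131071))) (nat_lit 131071))) (nat_lit 131071))) (nat_lit 131071))) (nat_lit 131071)), rfl⟩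
noncomputable def w99 : WW := ⟨.s (.a (.s (.a (.i (.a (.i (.a (.s (.a (.e)))))))))), fun m x => (Nat.land (Nat.shiftRight (Nat.shiftRight m (nat_lit 34)) (Nat.land (Nat.shiftRight m (Nat.land (Nat.shiftRight (Nat.shiftRight m (nat_lit 34)) (Nat.land (Nat.shiftRight (Nat.shiftRight m (nat_lit 17)) (Nat.land (Nat.shiftRight (Nat.shiftRight m (nat_lit 34)) (Nat.land (Nat.shiftRight (Nat.shiftRight m (nat_lit 17)) (Nat.land (Nat.shiftRight (Nat.shiftRight m (nat_lit 34)) (Nat.land (Nat.shiftRight m (Nat.land (Nat.shiftRight (Nat.shiftRight m (nat_lit 34)) (Nat.land x (nat_lit 131071))) (nat_lit 131071))) (nat_lit 131071))) (nat_lit 131071))) (nat_lit 131071))) (nat_lit 131071))) (nat_lit 131071))) (nat_lit 131071))) (nat_lit 131071))) (nat_lit 131071)), rfl⟩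
noncomputable def w100 : WW := ⟨.a (.i (.a (.s (.a (.s (.a (.i (.a (.s (.a (.e))))))))))), fun m x => (Nat.land (Nat.shiftRight (Nat.shiftRight m (nat_lit 34)) (Nat.land (Nat.shiftRight m (Nat.land (Nat.shiftRight (Nat.shiftRight m (nat_lit 34)) (Nat.land (Nat.shiftRight (Nat.shiftRight m (nat_lit 17)) (Nat.land (Nat.shiftRight (Nat.shiftRight m (nat_lit 34)) (Nat.land (Nat.shiftRight m (Nat.land (Nat.shiftRight
  (Nat.shiftRight m (nat_lit 34)) (Nat.land (Nat.shiftRight m (Nat.land (Nat.shiftRight (Nat.shiftRight m (nat_lit 34)) (Nat.land (Nat.shiftRight (Nat.shiftRight m (nat_lit 17)) (Nat.land (Nat.shiftRight x (nat_lit 34)) (nat_lit 131071))) (nat_lit 131071))) (nat_lit 131071))) (nat_lit 131071))) (nat_lit 131071))) (nat_lit 131071))) (nat_lit 131071))) (nat_lit 131071))) (nat_lit 131071))) (nat_lit 131071))) (nat_lit 131071)), rfl⟩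
noncomputable def w101 : WW := ⟨.s (.a (.s (.a (.s (.a (.i (.a (.s (.a (.i (.a (.s (.a (.e)))))))))))))), fun m x => (Nat.land (Nat.shiftRight (Nat.shiftRight m (nat_lit 34)) (Nat.land (Nat.shiftRight m (Nat.land (Nat.shiftRight (Nat.shiftRight m (nat_lit 34)) (Nat.land (Nat.shiftRight (Nat.shiftRight m (nat_lit 17)) (Nat.land (Nat.shiftRight (Nat.shiftRight m (nat_lit 34)) (Nat.land (Nat.shiftRight m
  (Nat.land (Nat.shiftRight (Nat.shiftRight m (nat_lit 34)) (Nat.land (Nat.shiftRight (Nat.shiftRight m (nat_lit 17)) (Nat.land (Nat.shiftRight (Nat.shiftRight m (nat_lit 34)) (Nat.land (Nat.shiftRight m (Nat.land (Nat.shiftRight (Nat.shiftRight m (nat_lit 34)) (Nat.land (Nat.shiftRight m (Nat.land (Nat.shiftRight (Nat.shiftRight m (nat_lit 34)) (Nat.land x (nat_lit 131071))) (nat_lit 131071))) (nat_lit 131071))) (nat_lit 131071))) (nat_lit 131071))) (nat_lit 131071))) (nat_lit 131071))) (nat_lit 131071))) (nat_lit 131071))) (nat_lit 131071))) (nat_lit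 131071))) (nat_lit 131071))) (nat_lit 131071))) (nat_lit 131071)), rfl⟩
noncomputable def w102 : WW := ⟨.a (.s (.a (.i (.a (.i (.a (.s (.a (.i (.a (.i (.e)))))))))))), fun m x => (Nat.land (Nat.shiftRight (Nat.shiftRight m (nat_lit 17)) (Nat.land (Nat.shiftRight (Nat.shiftRight m (nat_lit 34)) (Nat.land (Nat.shiftRight (Nat.shiftRight m (nat_lit 17)) (Nat.land (Nat.shiftRight (Nat.shiftRight m (nat_lit 34)) (Nat.land (Nat.shiftRight m (Nat.land (Nat.shiftRight (Nat.shiftRight m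
  (nat_lit 34)) (Nat.land (Nat.shiftRight (Nat.shiftRight m (nat_lit 17)) (Nat.land (Nat.shiftRight (Nat.shiftRight m (nat_lit 34)) (Nat.land (Nat.shiftRight (Nat.shiftRight m (nat_lit 17)) (Nat.land (Nat.shiftRight (Nat.shiftRight m (nat_lit 34)) (Nat.land (Nat.shiftRight m (Nat.land (Nat.shiftRight x (nat_lit 34)) (nat_lit 131071))) (nat_lit 131071))) (nat_lit 131071))) (nat_lit 131071))) (nat_lit 131071))) (nat_lit 131071))) (nat_lit 131071))) (nat_lit 131071))) (nat_lit 131071))) (nat_lit 131071))) (nat_lit 131071))) (nat_lit 131071)), rfl⟩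
noncomputable def w103 : WW := ⟨.s (.s (.a (.i (.a (.i (.a (.s (.a (.i (.a (.i (.e)))))))))))), fun m x => (Nat.land (Nat.shiftRight (Nat.shiftRight m (nat_lit 17)) (Nat.land (Nat.shiftRight (Nat.shiftRight m (nat_lit 34)) (Nat.land (Nat.shiftRight (Nat.shiftRight m (nat_lit 17)) (Nat.land (Nat.shiftRight (Nat.shiftRight m (nat_lit 34)) (Nat.land (Nat.shiftRight m (Nat.land (Nat.shiftRight (Nat.shiftRight m
  (nat_lit 34)) (Nat.land (Nat.shiftRight (Nat.shiftRight m (nat_lit 17)) (Nat.land (Nat.shiftRight (Nat.shiftRight m (nat_lit 34)) (Nat.land (Nat.shiftRight (Nat.shiftRight m (nat_lit 17)) (Nat.land (Nat.shiftRight (Nat.shiftRight m (nat_lit 34)) (Nat.land (Nat.shiftRight m (Nat.land x (nat_lit 131071))) (nat_lit 131071))) (nat_lit 131071))) (nat_lit 131071))) (nat_lit 131071))) (nat_lit 131071))) (nat_lit 131071))) (nat_lit 131071))) (nat_lit 131071))) (nat_lit 131071))) (nat_lit 131071))) (nat_lit 131071)), rfl⟩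
noncomputable def w104 : WW := ⟨.s (.s (.a (.i (.a (.s (.a (.i (.a (.i (.e)))))))))), fun m x => (Nat.land (Nat.shiftRight (Nat.shiftRight m (nat_lit 17)) (Nat.land (Nat.shiftRight (Nat.shiftRight m (nat_lit 34)) (Nat.land (Nat.shiftRight (Nat.shiftRight m (nat_lit 17)) (Nat.land (Nat.shiftRight (Nat.shiftRight m (nat_lit 34)) (Nat.land (Nat.shiftRight m (Nat.land (Nat.shiftRight (Nat.shiftRight m (nat_lit 34)) (Nat.land (Nat.shiftRight (Nat.shiftRight m (nat_lit 17)) (Nat.land (Nat.shiftRight (Nat.shiftRight m (nat_lit 34)) (Nat.land (Nat.shiftRight m (Nat.land x (nat_lit 131071))) (nat_lit 131071))) (nat_lit 131071))) (nat_lit 131071))) (nat_lit 131071))) (nat_lit 131071))) (nat_lit 131071))) (nat_lit 131071))) (nat_lit 131071))) (nat_lit 131071)), rfl⟩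
noncomputable def w105 : WW := ⟨.a (.i (.a (.i (.a (.i (.a (.s (.a (.s (.a (.s (.a (.s (.a (.s (.a (.i (.a (.s (.a (.e))))))))))))))))))))), fun m x => (Nat.land (Nat.shiftRight (Nat.shiftRight m (nat_lit 34)) (Nat.land (Nat.shiftRight m (Nat.land (Nat.shiftRight (Nat.shiftRight m (nat_lit 34)) (Nat.land (Nat.shiftRight (Nat.shiftRight m (nat_lit 17)) (Nat.land (Nat.shiftRight (Nat.shiftRight m (nat_lit 34))
  (Nat.land (Nat.shiftRight m (Nat.land (Nat.shiftRight (Nat.shiftRight m (nat_lit 34)) (Nat.land (Nat.shiftRight m (Nat.land (Nat.shiftRight (Nat.shiftRight m (nat_lit 34)) (Nat.land (Nat.shiftRight m (Nat.land (Nat.shiftRight (Nat.shiftRight m (nat_lit 34)) (Nat.land (Nat.shiftRight m (Nat.land (Nat.shiftRight (Nat.shiftRight m (nat_lit 34)) (Nat.land (Nat.shiftRight m (Nat.land (Nat.shiftRight (Nat.shiftRight m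
  (nat_lit 34)) (Nat.land (Nat.shiftRight (Nat.shiftRight m (nat_lit 17)) (Nat.land (Nat.shiftRight (Nat.shiftRight m (nat_lit 34)) (Nat.land (Nat.shiftRight (Nat.shiftRight m (nat_lit 17)) (Nat.land (Nat.shiftRight (Nat.shiftRight m (nat_lit 34)) (Nat.land (Nat.shiftRight (Nat.shiftRight m (nat_lit 17)) (Nat.land (Nat.shiftRight x (nat_lit 34)) (nat_lit 131071))) (nat_lit 131071))) (nat_lit 131071))) (nat_lit 131071))) (nat_lit 131071))) (nat_lit 131071))) (nat_lit 131071))) (nat_lit 131071))) (nat_lit 131071))) (nat_lit 131071))) (nat_lit 131071))) (nat_lit 131071))) (nat_lit 131071))) (nat_lit 131071))) (nat_lit 131071))) (nat_lit 131071))) (nat_lit 131071))) (nat_lit 131071))) (nat_lit 131071))) (nat_lit 131071))) (nat_lit 131071)), rfl⟩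
noncomputable def w106 : WW := ⟨.s (.a (.s (.a (.s (.a (.s (.a (.s (.a (.i (.a (.s (.a (.e)))))))))))))), fun m x => (Nat.land (Nat.shiftRight (Nat.shiftRight m (nat_lit 34)) (Nat.land (Nat.shiftRight m (Nat.land (Nat.shiftRight (Nat.shiftRight m (nat_lit 34)) (Nat.land (Nat.shiftRight (Nat.shiftRight m (nat_lit 17)) (Nat.land (Nat.shiftRight (Nat.shiftRight m (nat_lit 34)) (Nat.land (Nat.shiftRight m
  (Nat.land (Nat.shiftRight (Nat.shiftRight m (nat_lit 34)) (Nat.land (Nat.shiftRight m (Nat.land (Nat.shiftRight (Nat.shiftRight m (nat_lit 34)) (Nat.land (Nat.shiftRight m (Nat.land (Nat.shiftRight (Nat.shiftRight m (nat_lit 34)) (Nat.land (Nat.shiftRight m (Nat.land (Nat.shiftRight (Nat.shiftRight m (nat_lit 34)) (Nat.land x (nat_lit 131071))) (nat_lit 131071))) (nat_lit 131071))) (nat_lit 131071))) (nat_lit 131071))) (nat_lit 131071))) (nat_lit 131071))) (nat_lit 131071))) (nat_lit 131071))) (nat_lit 131071))) (nat_lit 131071))) (nat_lit 131071))) (nat_lit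 131071))) (nat_lit 131071)), rfl⟩
noncomputable def w107 : WW := ⟨.s (.a (.s (.a (.s (.a (.s (.a (.e)))))))), fun m x => (Nat.land (Nat.shiftRight (Nat.shiftRight m (nat_lit 34)) (Nat.land (Nat.shiftRight m (Nat.land (Nat.shiftRight (Nat.shiftRight m (nat_lit 34)) (Nat.land (Nat.shiftRight m (Nat.land (Nat.shiftRight (Nat.shiftRight m (nat_lit 34)) (Nat.land (Nat.shiftRight m (Nat.land (Nat.shiftRight (Nat.shiftRight m (nat_lit 34)) (Nat.land x (nat_lit 131071))) (nat_lit 131071))) (nat_lit 131071))) (nat_lit 131071))) (nat_lit 131071))) (nat_lit 131071))) (nat_lit 131071))) (nat_lit 131071)), rfl⟩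
noncomputable def w108 : WW := ⟨.a (.i (.a (.i (.a (.s (.s (.a (.s (.a (.s (.a (.s (.a (.s (.a (.s (.a (.i (.a (.s (.a (.e)))))))))))))))))))))), fun m x => (Nat.land (Nat.shiftRight (Nat.shiftRight m (nat_lit 34)) (Nat.land (Nat.shiftRight m (Nat.land (Nat.shiftRight (Nat.shiftRight m (nat_lit 34)) (Nat.land (Nat.shiftRight (Nat.shiftRight m (nat_lit 17)) (Nat.land (Nat.shiftRight (Nat.shiftRight m
  (nat_lit 34)) (Nat.land (Nat.shiftRight m (Nat.land (Nat.shiftRight (Nat.shiftRight m (nat_lit 34)) (Nat.land (Nat.shiftRight m (Nat.land (Nat.shiftRight (Nat.shiftRight m (nat_lit 34)) (Nat.land (Nat.shiftRight m (Nat.land (Nat.shiftRight (Nat.shiftRight m (nat_lit 34)) (Nat.land (Nat.shiftRight m (Nat.land (Nat.shiftRight (Nat.shiftRight m (nat_lit 34)) (Nat.land (Nat.shiftRight m (Nat.land (Nat.shiftRight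
  (Nat.shiftRight m (nat_lit 34)) (Nat.land (Nat.shiftRight m (Nat.land (Nat.shiftRight m (Nat.land (Nat.shiftRight (Nat.shiftRight m (nat_lit 34)) (Nat.land (Nat.shiftRight (Nat.shiftRight m (nat_lit 17)) (Nat.land (Nat.shiftRight (Nat.shiftRight m (nat_lit 34)) (Nat.land (Nat.shiftRight (Nat.shiftRight m (nat_lit 17)) (Nat.land (Nat.shiftRight x (nat_lit 34)) (nat_lit 131071))) (nat_lit 131071))) (nat_lit 131071))) (nat_lit 131071))) (nat_lit 131071))) (nat_lit 131071))) (nat_lit 131071))) (nat_lit 131071))) (nat_lit 131071))) (nat_lit 131071))) (nat_lit 131071))) (nat_lit 131071))) (nat_lit 131071))) (nat_lit 131071))) (nat_lit 131071))) (nat_lit 131071))) (nat_lit 131071))) (nat_lit 131071))) (nat_lit 131071))) (nat_lit 131071))) (nat_lit 131071))) (nat_lit 131071)), rfl⟩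
noncomputable def w109 : WW := ⟨.a (.i (.a (.i (.a (.i (.a (.s (.a (.s (.a (.s (.a (.i (.a (.s (.a (.e))))))))))))))))), fun m x => (Nat.land (Nat.shiftRight (Nat.shiftRight m (nat_lit 34)) (Nat.land (Nat.shiftRight m (Nat.land (Nat.shiftRight (Nat.shiftRight m (nat_lit 34)) (Nat.land (Nat.shiftRight (Nat.shiftRight m (nat_lit 17)) (Nat.land (Nat.shiftRight (Nat.shiftRight m (nat_lit 34)) (Nat.land
  (Nat.shiftRight m (Nat.land (Nat.shiftRight (Nat.shiftRight m (nat_lit 34)) (Nat.land (Nat.shiftRight m (Nat.land (Nat.shiftRight (Nat.shiftRight m (nat_lit 34)) (Nat.land (Nat.shiftRight m (Nat.land (Nat.shiftRight (Nat.shiftRight m (nat_lit 34)) (Nat.land (Nat.shiftRight (Nat.shiftRight m (nat_lit 17)) (Nat.land (Nat.shiftRight (Nat.shiftRight m (nat_lit 34)) (Nat.land (Nat.shiftRight (Nat.shiftRight m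
  (nat_lit 17)) (Nat.land (Nat.shiftRight (Nat.shiftRight m (nat_lit 34)) (Nat.land (Nat.shiftRight (Nat.shiftRight m (nat_lit 17)) (Nat.land (Nat.shiftRight x (nat_lit 34)) (nat_lit 131071))) (nat_lit 131071))) (nat_lit 131071))) (nat_lit 131071))) (nat_lit 131071))) (nat_lit 131071))) (nat_lit 131071))) (nat_lit 131071))) (nat_lit 131071))) (nat_lit 131071))) (nat_lit 131071))) (nat_lit 131071))) (nat_lit 131071))) (nat_lit 131071))) (nat_lit 131071))) (nat_lit 131071))) (nat_lit 131071)), rfl⟩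
noncomputable def w110 : WW := ⟨.a (.i (.a (.i (.a (.s (.s (.a (.s (.a (.s (.a (.e)))))))))))), fun m x => (Nat.land (Nat.shiftRight (Nat.shiftRight m (nat_lit 34)) (Nat.land (Nat.shiftRight m (Nat.land (Nat.shiftRight (Nat.shiftRight m (nat_lit 34)) (Nat.land (Nat.shiftRight m (Nat.land (Nat.shiftRight (Nat.shiftRight m (nat_lit 34)) (Nat.land (Nat.shiftRight m (Nat.land (Nat.shiftRight m (Nat.land
  (Nat.shiftRight (Nat.shiftRight m (nat_lit 34)) (Nat.land (Nat.shiftRight (Nat.shiftRight m (nat_lit 17)) (Nat.land (Nat.shiftRight (Nat.shiftRight m (nat_lit 34)) (Nat.land (Nat.shiftRight (Nat.shiftRight m (nat_lit 17)) (Nat.land (Nat.shiftRight x (nat_lit 34)) (nat_lit 131071))) (nat_lit 131071))) (nat_lit 131071))) (nat_lit 131071))) (nat_lit 131071))) (nat_lit 131071))) (nat_lit 131071))) (nat_lit 131071))) (nat_lit 131071))) (nat_lit 131071))) (nat_lit 131071))) (nat_lit 131071)), rfl⟩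
noncomputable def w111 : WW := ⟨.s (.a (.s (.a (.i (.a (.i (.a (.i (.e))))))))), fun m x => (Nat.land (Nat.shiftRight (Nat.shiftRight m (nat_lit 17)) (Nat.land (Nat.shiftRight (Nat.shiftRight m (nat_lit 34)) (Nat.land (Nat.shiftRight (Nat.shiftRight m (nat_lit 17)) (Nat.land (Nat.shiftRight (Nat.shiftRight m (nat_lit 34)) (Nat.land (Nat.shiftRight (Nat.shiftRight m (nat_lit 17)) (Nat.land (Nat.shiftRight (Nat.shiftRight m (nat_lit 34)) (Nat.land (Nat.shiftRight m (Nat.land (Nat.shiftRight (Nat.shiftRight m (nat_lit 34)) (Nat.land x (nat_lit 131071))) (nat_lit 131071))) (nat_lit 131071))) (nat_lit 131071))) (nat_lit 131071))) (nat_lit 131071))) (nat_lit 131071))) (nat_lit 131071))) (nat_lit 131071)), rfl⟩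
noncomputable def w112 : WW := ⟨.a (.i (.a (.i (.a (.s (.a (.i (.e)))))))), fun m x => (Nat.land (Nat.shiftRight (Nat.shiftRight m (nat_lit 17)) (Nat.land (Nat.shiftRight (Nat.shiftRight m (nat_lit 34)) (Nat.land (Nat.shiftRight m (Nat.land (Nat.shiftRight (Nat.shiftRight m (nat_lit 34)) (Nat.land (Nat.shiftRight (Nat.shiftRight m (nat_lit 17)) (Nat.land (Nat.shiftRight (Nat.shiftRight m (nat_lit 34)) (Nat.land (Nat.shiftRight (Nat.shiftRight m (nat_lit 17)) (Nat.land (Nat.shiftRight x (nat_lit 34)) (nat_lit 131071))) (nat_lit 131071))) (nat_lit 131071))) (nat_lit 131071))) (nat_lit 131071))) (nat_lit 131071))) (nat_lit 131071))) (nat_lit 131071)), rfl⟩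
noncomputable def w113 : WW := ⟨.a (.i (.a (.s (.a (.i (.a (.i (.a (.s (.a (.i (.e)))))))))))), fun m x => (Nat.land (Nat.shiftRight (Nat.shiftRight m (nat_lit 17)) (Nat.land (Nat.shiftRight (Nat.shiftRight m (nat_lit 34)) (Nat.land (Nat.shiftRight m (Nat.land (Nat.shiftRight (Nat.shiftRight m (nat_lit 34)) (Nat.land (Nat.shiftRight (Nat.shiftRight m (nat_lit 17)) (Nat.land (Nat.shiftRight (Nat.shiftRight m
  (nat_lit 34)) (Nat.land (Nat.shiftRight (Nat.shiftRight m (nat_lit 17)) (Nat.land (Nat.shiftRight (Nat.shiftRight m (nat_lit 34)) (Nat.land (Nat.shiftRight m (Nat.land (Nat.shiftRight (Nat.shiftRight m (nat_lit 34)) (Nat.land (Nat.shiftRight (Nat.shiftRight m (nat_lit 17)) (Nat.land (Nat.shiftRight x (nat_lit 34)) (nat_lit 131071))) (nat_lit 131071))) (nat_lit 131071))) (nat_lit 131071))) (nat_lit 131071))) (nat_lit 131071))) (nat_lit 131071))) (nat_lit 131071))) (nat_lit 131071))) (nat_lit 131071))) (nat_lit 131071))) (nat_lit 131071)), rfl⟩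
noncomputable def w114 : WW := ⟨.i (.i (.a (.i (.a (.s (.a (.i (.e)))))))), fun m x => (Nat.land (Nat.shiftRight (Nat.shiftRight m (nat_lit 17)) (Nat.land (Nat.shiftRight (Nat.shiftRight m (nat_lit 34)) (Nat.land (Nat.shiftRight m (Nat.land (Nat.shiftRight (Nat.shiftRight m (nat_lit 34)) (Nat.land (Nat.shiftRight (Nat.shiftRight m (nat_lit 17)) (Nat.land (Nat.shiftRight (Nat.shiftRight m (nat_lit 34)) (Nat.land (Nat.shiftRight (Nat.shiftRight m (nat_lit 17)) (Nat.land (Nat.shiftRight x (nat_lit 17)) (nat_lit 131071))) (nat_lit 131071))) (nat_lit 131071))) (nat_lit 131071))) (nat_lit 131071))) (nat_lit 131071))) (nat_lit 131071))) (nat_lit 131071)), rfl⟩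
noncomputable def w115 : WW := ⟨.a (.s (.a (.i (.a (.s (.a (.s (.a (.e))))))))), fun m x => (Nat.land (Nat.shiftRight (Nat.shiftRight m (nat_lit 34)) (Nat.land (Nat.shiftRight m (Nat.land (Nat.shiftRight (Nat.shiftRight m (nat_lit 34)) (Nat.land (Nat.shiftRight m (Nat.land (Nat.shiftRight (Nat.shiftRight m (nat_lit 34)) (Nat.land (Nat.shiftRight (Nat.shiftRight m (nat_lit 17)) (Nat.land (Nat.shiftRight (Nat.shiftRight m (nat_lit 34)) (Nat.land (Nat.shiftRight m (Nat.land (Nat.shiftRight x (nat_lit 34)) (nat_lit 131071))) (nat_lit 131071))) (nat_lit 131071))) (nat_lit 131071))) (nat_lit 131071))) (nat_lit 131071))) (nat_lit 131071))) (nat_lit 131071))) (nat_lit 131071)), rfl⟩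
noncomputable def w116 : WW := ⟨.s (.a (.s (.a (.i (.a (.s (.a (.s (.a (.s (.a (.s (.a (.i (.a (.s (.a (.s (.a (.e)))))))))))))))))))), fun m x => (Nat.land (Nat.shiftRight (Nat.shiftRight m (nat_lit 34)) (Nat.land (Nat.shiftRight m (Nat.land (Nat.shiftRight (Nat.shiftRight m (nat_lit 34)) (Nat.land (Nat.shiftRight m (Nat.land (Nat.shiftRight (Nat.shiftRight m (nat_lit 34)) (Nat.land (Nat.shiftRight
  (Nat.shiftRight m (nat_lit 17)) (Nat.land (Nat.shiftRight (Nat.shiftRight m (nat_lit 34)) (Nat.land (Nat.shiftRight m (Nat.land (Nat.shiftRight (Nat.shiftRight m (nat_lit 34)) (Nat.land (Nat.shiftRight m (Nat.land (Nat.shiftRight (Nat.shiftRight m (nat_lit 34)) (Nat.land (Nat.shiftRight m (Nat.land (Nat.shiftRight (Nat.shiftRight m (nat_lit 34)) (Nat.land (Nat.shiftRight m (Nat.land (Nat.shiftRight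
  (Nat.shiftRight m (nat_lit 34)) (Nat.land (Nat.shiftRight (Nat.shiftRight m (nat_lit 17)) (Nat.land (Nat.shiftRight (Nat.shiftRight m (nat_lit 34)) (Nat.land (Nat.shiftRight m (Nat.land (Nat.shiftRight (Nat.shiftRight m (nat_lit 34)) (Nat.land x (nat_lit 131071))) (nat_lit 131071))) (nat_lit 131071))) (nat_lit 131071))) (nat_lit 131071))) (nat_lit 131071))) (nat_lit 131071))) (nat_lit 131071))) (nat_lit 131071))) (nat_lit 131071))) (nat_lit 131071))) (nat_lit 131071))) (nat_lit 131071))) (nat_lit 131071))) (nat_lit 131071))) (nat_lit 131071))) (nat_lit 131071))) (nat_lit 131071))) (nat_lit 131071))) (nat_lit 131071)), rfl⟩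
noncomputable def w117 : WW := ⟨.a (.i (.a (.i (.a (.i (.a (.s (.a (.i (.e)))))))))), fun m x => (Nat.land (Nat.shiftRight (Nat.shiftRight m (nat_lit 17)) (Nat.land (Nat.shiftRight (Nat.shiftRight m (nat_lit 34)) (Nat.land (Nat.shiftRight m (Nat.land (Nat.shiftRight (Nat.shiftRight m (nat_lit 34)) (Nat.land (Nat.shiftRight (Nat.shiftRight m (nat_lit 17)) (Nat.land (Nat.shiftRight (Nat.shiftRight m
  (nat_lit 34)) (Nat.land (Nat.shiftRight (Nat.shiftRight m (nat_lit 17)) (Nat.land (Nat.shiftRight (Nat.shiftRight m (nat_lit 34)) (Nat.land (Nat.shiftRight (Nat.shiftRight m (nat_lit 17)) (Nat.land (Nat.shiftRight x (nat_lit 34)) (nat_lit 131071))) (nat_lit 131071))) (nat_lit 131071))) (nat_lit 131071))) (nat_lit 131071))) (nat_lit 131071))) (nat_lit 131071))) (nat_lit 131071))) (nat_lit 131071))) (nat_lit 131071)), rfl⟩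
noncomputable def w118 : WW := ⟨.s (.a (.i (.a (.s (.a (.s (.a (.e)))))))), fun m x => (Nat.land (Nat.shiftRight (Nat.shiftRight m (nat_lit 34)) (Nat.land (Nat.shiftRight m (Nat.land (Nat.shiftRight (Nat.shiftRight m (nat_lit 34)) (Nat.land (Nat.shiftRight m (Nat.land (Nat.shiftRight (Nat.shiftRight m (nat_lit 34)) (Nat.land (Nat.shiftRight (Nat.shiftRight m (nat_lit 17)) (Nat.land (Nat.shiftRight (Nat.shiftRight m (nat_lit 34)) (Nat.land x (nat_lit 131071))) (nat_lit 131071))) (nat_lit 131071))) (nat_lit 131071))) (nat_lit 131071))) (nat_lit 131071))) (nat_lit 131071))) (nat_lit 131071)), rfl⟩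
noncomputable def w119 : WW := ⟨.s (.a (.s (.a (.i (.a (.s (.a (.s (.a (.s (.a (.e)))))))))))), fun m x => (Nat.land (Nat.shiftRight (Nat.shiftRight m (nat_lit 34)) (Nat.land (Nat.shiftRight m (Nat.land (Nat.shiftRight (Nat.shiftRight m (nat_lit 34)) (Nat.land (Nat.shiftRight m (Nat.land (Nat.shiftRight (Nat.shiftRight m (nat_lit 34)) (Nat.land (Nat.shiftRight m (Nat.land (Nat.shiftRight (Nat.shiftRight m
  (nat_lit 34)) (Nat.land (Nat.shiftRight (Nat.shiftRight m (nat_lit 17)) (Nat.land (Nat.shiftRight (Nat.shiftRight m (nat_lit 34)) (Nat.land (Nat.shiftRight m (Nat.land (Nat.shiftRight (Nat.shiftRight m (nat_lit 34)) (Nat.land x (nat_lit 131071))) (nat_lit 131071))) (nat_lit 131071))) (nat_lit 131071))) (nat_lit 131071))) (nat_lit 131071))) (nat_lit 131071))) (nat_lit 131071))) (nat_lit 131071))) (nat_lit 131071))) (nat_lit 131071))) (nat_lit 131071)), rfl⟩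
noncomputable def w120 : WW := ⟨.a (.i (.a (.s (.a (.s (.a (.i (.e)))))))), fun m x => (Nat.land (Nat.shiftRight (Nat.shiftRight m (nat_lit 17)) (Nat.land (Nat.shiftRight (Nat.shiftRight m (nat_lit 34)) (Nat.land (Nat.shiftRight m (Nat.land (Nat.shiftRight (Nat.shiftRight m (nat_lit 34)) (Nat.land (Nat.shiftRight m (Nat.land (Nat.shiftRight (Nat.shiftRight m (nat_lit 34)) (Nat.land (Nat.shiftRight (Nat.shiftRight m (nat_lit 17)) (Nat.land (Nat.shiftRight x (nat_lit 34)) (nat_lit 131071))) (nat_lit 131071))) (nat_lit 131071))) (nat_lit 131071))) (nat_lit 131071))) (nat_lit 131071))) (nat_lit 131071))) (nat_lit 131071)), rfl⟩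
noncomputable def w121 : WW := ⟨.i (.a (.s (.a (.s (.a (.s (.a (.s (.a (.i (.a (.s (.a (.e)))))))))))))), fun m x => (Nat.land (Nat.shiftRight (Nat.shiftRight m (nat_lit 34)) (Nat.land (Nat.shiftRight m (Nat.land (Nat.shiftRight (Nat.shiftRight m (nat_lit 34)) (Nat.land (Nat.shiftRight (Nat.shiftRight m (nat_lit 17)) (Nat.land (Nat.shiftRight (Nat.shiftRight m (nat_lit 34)) (Nat.land (Nat.shiftRight m
  (Nat.land (Nat.shiftRight (Nat.shiftRight m (nat_lit 34)) (Nat.land (Nat.shiftRight m (Nat.land (Nat.shiftRight (Nat.shiftRight m (nat_lit 34)) (Nat.land (Nat.shiftRight m (Nat.land (Nat.shiftRight (Nat.shiftRight m (nat_lit 34)) (Nat.land (Nat.shiftRight m (Nat.land (Nat.shiftRight (Nat.shiftRight m (nat_lit 34)) (Nat.land (Nat.shiftRight x (nat_lit 17)) (nat_lit 131071))) (nat_lit 131071))) (nat_lit 131071))) (nat_lit 131071))) (nat_lit 131071))) (nat_lit 131071))) (nat_lit 131071))) (nat_lit 131071))) (nat_lit 131071))) (nat_lit 131071))) (nat_lit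 131071))) (nat_lit 131071))) (nat_lit 131071))) (nat_lit 131071)), rfl⟩
noncomputable def w122 : WW := ⟨.a (.i (.a (.i (.a (.s (.a (.i (.a (.i (.e)))))))))), fun m x => (Nat.land (Nat.shiftRight (Nat.shiftRight m (nat_lit 17)) (Nat.land (Nat.shiftRight (Nat.shiftRight m (nat_lit 34)) (Nat.land (Nat.shiftRight (Nat.shiftRight m (nat_lit 17)) (Nat.land (Nat.shiftRight (Nat.shiftRight m (nat_lit 34)) (Nat.land (Nat.shiftRight m (Nat.land (Nat.shiftRight (Nat.shiftRight m
  (nat_lit 34)) (Nat.land (Nat.shiftRight (Nat.shiftRight m (nat_lit 17)) (Nat.land (Nat.shiftRight (Nat.shiftRight m (nat_lit 34)) (Nat.land (Nat.shiftRight (Nat.shiftRight m (nat_lit 17)) (Nat.land (Nat.shiftRight x (nat_lit 34)) (nat_lit 131071))) (nat_lit 131071))) (nat_lit 131071))) (nat_lit 131071))) (nat_lit 131071))) (nat_lit 131071))) (nat_lit 131071))) (nat_lit 131071))) (nat_lit 131071))) (nat_lit 131071)), rfl⟩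
noncomputable def w123 : WW := ⟨.a (.s (.s (.a (.s (.a (.i (.a (.i (.e))))))))), fun m x => (Nat.land (Nat.shiftRight (Nat.shiftRight m (nat_lit 17)) (Nat.land (Nat.shiftRight (Nat.shiftRight m (nat_lit 34)) (Nat.land (Nat.shiftRight (Nat.shiftRight m (nat_lit 17)) (Nat.land (Nat.shiftRight (Nat.shiftRight m (nat_lit 34)) (Nat.land (Nat.shiftRight m (Nat.land (Nat.shiftRight (Nat.shiftRight m (nat_lit 34)) (Nat.land (Nat.shiftRight m (Nat.land (Nat.shiftRight m (Nat.land (Nat.shiftRight x (nat_lit 34)) (nat_lit 131071))) (nat_lit 131071))) (nat_lit 131071))) (nat_lit 131071))) (nat_lit 131071))) (nat_lit 131071))) (nat_lit 131071))) (nat_lit 131071))) (nat_lit 131071)), rfl⟩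
noncomputable def w124 : WW := ⟨.s (.a (.s (.a (.i (.i (.a (.s (.a (.i (.a (.s (.a (.e))))))))))))), fun m x => (Nat.land (Nat.shiftRight (Nat.shiftRight m (nat_lit 34)) (Nat.land (Nat.shiftRight m (Nat.land (Nat.shiftRight (Nat.shiftRight m (nat_lit 34)) (Nat.land (Nat.shiftRight (Nat.shiftRight m (nat_lit 17)) (Nat.land (Nat.shiftRight (Nat.shiftRight m (nat_lit 34)) (Nat.land (Nat.shiftRight m (Nat.land
  (Nat.shiftRight (Nat.shiftRight m (nat_lit 34)) (Nat.land (Nat.shiftRight (Nat.shiftRight m (nat_lit 17)) (Nat.land (Nat.shiftRight (Nat.shiftRight m (nat_lit 17)) (Nat.land (Nat.shiftRight (Nat.shiftRight m (nat_lit 34)) (Nat.land (Nat.shiftRight m (Nat.land (Nat.shiftRight (Nat.shiftRight m (nat_lit 34)) (Nat.land x (nat_lit 131071))) (nat_lit 131071))) (nat_lit 131071))) (nat_lit 131071))) (nat_lit 131071))) (nat_lit 131071))) (nat_lit 131071))) (nat_lit 131071))) (nat_lit 131071))) (nat_lit 131071))) (nat_lit 131071))) (nat_lit 131071))) (nat_lit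 131071)), rfl⟩
noncomputable def w125 : WW := ⟨.a (.s (.a (.s (.a (.s (.a (.s (.a (.s (.a (.s (.a (.s (.a (.i (.e)))))))))))))))), fun m x => (Nat.land (Nat.shiftRight (Nat.shiftRight m (nat_lit 17)) (Nat.land (Nat.shiftRight (Nat.shiftRight m (nat_lit 34)) (Nat.land (Nat.shiftRight m (Nat.land (Nat.shiftRight (Nat.shiftRight m (nat_lit 34)) (Nat.land (Nat.shiftRight m (Nat.land (Nat.shiftRight (Nat.shiftRight m
  (nat_lit 34)) (Nat.land (Nat.shiftRight m (Nat.land (Nat.shiftRight (Nat.shiftRight m (nat_lit 34)) (Nat.land (Nat.shiftRight m (Nat.land (Nat.shiftRight (Nat.shiftRight m (nat_lit 34)) (Nat.land (Nat.shiftRight m (Nat.land (Nat.shiftRight (Nat.shiftRight m (nat_lit 34)) (Nat.land (Nat.shiftRight m (Nat.land (Nat.shiftRight (Nat.shiftRight m (nat_lit 34)) (Nat.land (Nat.shiftRight m (Nat.land (Nat.shiftRight x (nat_lit 34)) (nat_lit 131071))) (nat_lit 131071))) (nat_lit 131071))) (nat_lit 131071))) (nat_lit 131071))) (nat_lit 131071))) (nat_lit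 131071))) (nat_lit 131071))) (nat_lit 131071))) (nat_lit 131071))) (nat_lit 131071))) (nat_lit 131071))) (nat_lit 131071))) (nat_lit 131071))) (nat_lit 131071))) (nat_lit 131071)), rfl⟩
noncomputable def w126 : WW := ⟨.s (.a (.s (.a (.i (.i (.a (.s (.a (.s (.a (.s (.a (.e))))))))))))), fun m x => (Nat.land (Nat.shiftRight (Nat.shiftRight m (nat_lit 34)) (Nat.land (Nat.shiftRight m (Nat.land (Nat.shiftRight (Nat.shiftRight m (nat_lit 34)) (Nat.land (Nat.shiftRight m (Nat.land (Nat.shiftRight (Nat.shiftRight m (nat_lit 34)) (Nat.land (Nat.shiftRight m (Nat.land (Nat.shiftRight (Nat.shiftRight m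
  (nat_lit 34)) (Nat.land (Nat.shiftRight (Nat.shiftRight m (nat_lit 17)) (Nat.land (Nat.shiftRight (Nat.shiftRight m (nat_lit 17)) (Nat.land (Nat.shiftRight (Nat.shiftRight m (nat_lit 34)) (Nat.land (Nat.shiftRight m (Nat.land (Nat.shiftRight (Nat.shiftRight m (nat_lit 34)) (Nat.land x (nat_lit 131071))) (nat_lit 131071))) (nat_lit 131071))) (nat_lit 131071))) (nat_lit 131071))) (nat_lit 131071))) (nat_lit 131071))) (nat_lit 131071))) (nat_lit 131071))) (nat_lit 131071))) (nat_lit 131071))) (nat_lit 131071))) (nat_lit 131071)), rfl⟩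
noncomputable def w127 : WW := ⟨.s (.a (.s (.a (.i (.a (.i (.a (.s (.a (.s (.a (.e)))))))))))), fun m x => (Nat.land (Nat.shiftRight (Nat.shiftRight m (nat_lit 34)) (Nat.land (Nat.shiftRight m (Nat.land (Nat.shiftRight (Nat.shiftRight m (nat_lit 34)) (Nat.land (Nat.shiftRight m (Nat.land (Nat.shiftRight (Nat.shiftRight m (nat_lit 34)) (Nat.land (Nat.shiftRight (Nat.shiftRight m (nat_lit 17)) (Nat.land
  (Nat.shiftRight (Nat.shiftRight m (nat_lit 34)) (Nat.land (Nat.shiftRight (Nat.shiftRight m (nat_lit 17)) (Nat.land (Nat.shiftRight (Nat.shiftRight m (nat_lit 34)) (Nat.land (Nat.shiftRight m (Nat.land (Nat.shiftRight (Nat.shiftRight m (nat_lit 34)) (Nat.land x (nat_lit 131071))) (nat_lit 131071))) (nat_lit 131071))) (nat_lit 131071))) (nat_lit 131071))) (nat_lit 131071))) (nat_lit 131071))) (nat_lit 131071))) (nat_lit 131071))) (nat_lit 131071))) (nat_lit 131071))) (nat_lit 131071)), rfl⟩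
noncomputable def w128 : WW := ⟨.a (.s (.a (.s (.a (.s (.a (.s (.a (.s (.a (.s (.a (.i (.a (.i (.a (.s (.a (.s (.a (.e))))))))))))))))))))), fun m x => (Nat.land (Nat.shiftRight (Nat.shiftRight m (nat_lit 34)) (Nat.land (Nat.shiftRight m (Nat.land (Nat.shiftRight (Nat.shiftRight m (nat_lit 34)) (Nat.land (Nat.shiftRight m (Nat.land (Nat.shiftRight (Nat.shiftRight m (nat_lit 34)) (Nat.land (Nat.shiftRight
  (Nat.shiftRight m (nat_lit 17)) (Nat.land (Nat.shiftRight (Nat.shiftRight m (nat_lit 34)) (Nat.land (Nat.shiftRight (Nat.shiftRight m (nat_lit 17)) (Nat.land (Nat.shiftRight (Nat.shiftRight m (nat_lit 34)) (Nat.land (Nat.shiftRight m (Nat.land (Nat.shiftRight (Nat.shiftRight m (nat_lit 34)) (Nat.land (Nat.shiftRight m (Nat.land (Nat.shiftRight (Nat.shiftRight m (nat_lit 34)) (Nat.land (Nat.shiftRight m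
  (Nat.land (Nat.shiftRight (Nat.shiftRight m (nat_lit 34)) (Nat.land (Nat.shiftRight m (Nat.land (Nat.shiftRight (Nat.shiftRight m (nat_lit 34)) (Nat.land (Nat.shiftRight m (Nat.land (Nat.shiftRight (Nat.shiftRight m (nat_lit 34)) (Nat.land (Nat.shiftRight m (Nat.land (Nat.shiftRight x (nat_lit 34)) (nat_lit 131071))) (nat_lit 131071))) (nat_lit 131071))) (nat_lit 131071))) (nat_lit 131071))) (nat_lit 131071))) (nat_lit 131071))) (nat_lit 131071))) (nat_lit 131071))) (nat_lit 131071))) (nat_lit 131071))) (nat_lit 131071))) (nat_lit 131071))) (nat_lit 131071))) (nat_lit 131071))) (nat_lit 131071))) (nat_lit 131071))) (nat_lit 131071))) (nat_lit 131071))) (nat_lit 131071))) (nat_lit 131071)), rfl⟩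
noncomputable def w129 : WW := ⟨.s (.a (.s (.a (.i (.a (.s (.a (.s (.a (.s (.a (.s (.a (.s (.a (.i (.e))))))))))))))))), fun m x => (Nat.land (Nat.shiftRight (Nat.shiftRight m (nat_lit 17)) (Nat.land (Nat.shiftRight (Nat.shiftRight m (nat_lit 34)) (Nat.land (Nat.shiftRight m (Nat.land (Nat.shiftRight (Nat.shiftRight m (nat_lit 34)) (Nat.land (Nat.shiftRight m (Nat.land (Nat.shiftRight (Nat.shiftRight m
  (nat_lit 34)) (Nat.land (Nat.shiftRight m (Nat.land (Nat.shiftRight (Nat.shiftRight m (nat_lit 34)) (Nat.land (Nat.shiftRight m (Nat.land (Nat.shiftRight (Nat.shiftRight m (nat_lit 34)) (Nat.land (Nat.shiftRight m (Nat.land (Nat.shiftRight (Nat.shiftRight m (nat_lit 34)) (Nat.land (Nat.shiftRight (Nat.shiftRight m (nat_lit 17)) (Nat.land (Nat.shiftRight (Nat.shiftRight m (nat_lit 34)) (Nat.land (Nat.shiftRight m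
  (Nat.land (Nat.shiftRight (Nat.shiftRight m (nat_lit 34)) (Nat.land x (nat_lit 131071))) (nat_lit 131071))) (nat_lit 131071))) (nat_lit 131071))) (nat_lit 131071))) (nat_lit 131071))) (nat_lit 131071))) (nat_lit 131071))) (nat_lit 131071))) (nat_lit 131071))) (nat_lit 131071))) (nat_lit 131071))) (nat_lit 131071))) (nat_lit 131071))) (nat_lit 131071))) (nat_lit 131071))) (nat_lit 131071)), rfl⟩
noncomputable def w130 : WW := ⟨.i (.a (.s (.a (.s (.a (.s (.a (.i (.i (.a (.s (.a (.i (.a (.s (.a (.e))))))))))))))))), fun m x => (Nat.land (Nat.shiftRight (Nat.shiftRight m (nat_lit 34)) (Nat.land (Nat.shiftRight m (Nat.land (Nat.shiftRight (Nat.shiftRight m (nat_lit 34)) (Nat.land (Nat.shiftRight (Nat.shiftRight m (nat_lit 17)) (Nat.land (Nat.shiftRight (Nat.shiftRight m (nat_lit 34)) (Nat.land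
  (Nat.shiftRight m (Nat.land (Nat.shiftRight (Nat.shiftRight m (nat_lit 34)) (Nat.land (Nat.shiftRight (Nat.shiftRight m (nat_lit 17)) (Nat.land (Nat.shiftRight (Nat.shiftRight m (nat_lit 17)) (Nat.land (Nat.shiftRight (Nat.shiftRight m (nat_lit 34)) (Nat.land (Nat.shiftRight m (Nat.land (Nat.shiftRight (Nat.shiftRight m (nat_lit 34)) (Nat.land (Nat.shiftRight m (Nat.land (Nat.shiftRight (Nat.shiftRight m
  (nat_lit 34)) (Nat.land (Nat.shiftRight m (Nat.land (Nat.shiftRight (Nat.shiftRight m (nat_lit 34)) (Nat.land (Nat.shiftRight x (nat_lit 17)) (nat_lit 131071))) (nat_lit 131071))) (nat_lit 131071))) (nat_lit 131071))) (nat_lit 131071))) (nat_lit 131071))) (nat_lit 131071))) (nat_lit 131071))) (nat_lit 131071))) (nat_lit 131071))) (nat_lit 131071))) (nat_lit 131071))) (nat_lit 131071))) (nat_lit 131071))) (nat_lit 131071))) (nat_lit 131071))) (nat_lit 131071)), rfl⟩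
noncomputable def w131 : WW := ⟨.i (.a (.s (.a (.s (.a (.s (.a (.i (.e))))))))), fun m x => (Nat.land (Nat.shiftRight (Nat.shiftRight m (nat_lit 17)) (Nat.land (Nat.shiftRight (Nat.shiftRight m (nat_lit 34)) (Nat.land (Nat.shiftRight m (Nat.land (Nat.shiftRight (Nat.shiftRight m (nat_lit 34)) (Nat.land (Nat.shiftRight m (Nat.land (Nat.shiftRight (Nat.shiftRight m (nat_lit 34)) (Nat.land (Nat.shiftRight m (Nat.land (Nat.shiftRight (Nat.shiftRight m (nat_lit 34)) (Nat.land (Nat.shiftRight x (nat_lit 17)) (nat_lit 131071))) (nat_lit 131071))) (nat_lit 131071))) (nat_lit 131071))) (nat_lit 131071))) (nat_lit 131071))) (nat_lit 131071))) (nat_lit 131071))) (nat_lit 131071)), rfl⟩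
noncomputable def w132 : WW := ⟨.a (.i (.a (.s (.a (.i (.a (.s (.a (.i (.e)))))))))), fun m x => (Nat.land (Nat.shiftRight (Nat.shiftRight m (nat_lit 17)) (Nat.land (Nat.shiftRight (Nat.shiftRight m (nat_lit 34)) (Nat.land (Nat.shiftRight m (Nat.land (Nat.shiftRight (Nat.shiftRight m (nat_lit 34)) (Nat.land (Nat.shiftRight (Nat.shiftRight m (nat_lit 17)) (Nat.land (Nat.shiftRight (Nat.shiftRight m (nat_lit 34)) (Nat.land (Nat.shiftRight m (Nat.land (Nat.shiftRight (Nat.shiftRight m (nat_lit 34)) (Nat.land (Nat.shiftRight (Nat.shiftRight m (nat_lit 17)) (Nat.land (Nat.shiftRight x (nat_lit 34)) (nat_lit 131071))) (nat_lit 131071))) (nat_lit 131071))) (nat_lit 131071))) (nat_lit 131071))) (nat_lit 131071))) (nat_lit 131071))) (nat_lit 131071))) (nat_lit 131071))) (nat_lit 131071)), rfl⟩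
noncomputable def w133 : WW := ⟨.a (.i (.a (.i (.a (.s (.s (.a (.s (.a (.i (.i (.a (.s (.a (.e))))))))))))))), fun m x => (Nat.land (Nat.shiftRight (Nat.shiftRight m (nat_lit 34)) (Nat.land (Nat.shiftRight m (Nat.land (Nat.shiftRight (Nat.shiftRight m (nat_lit 34)) (Nat.land (Nat.shiftRight (Nat.shiftRight m (nat_lit 17)) (Nat.land (Nat.shiftRight (Nat.shiftRight m (nat_lit 17)) (Nat.land (Nat.shiftRight
  (Nat.shiftRight m (nat_lit 34)) (Nat.land (Nat.shiftRight m (Nat.land (Nat.shiftRight (Nat.shiftRight m (nat_lit 34)) (Nat.land (Nat.shiftRight m (Nat.land (Nat.shiftRight m (Nat.land (Nat.shiftRight (Nat.shiftRight m (nat_lit 34)) (Nat.land (Nat.shiftRight (Nat.shiftRight m (nat_lit 17)) (Nat.land (Nat.shiftRight (Nat.shiftRight m (nat_lit 34)) (Nat.land (Nat.shiftRight (Nat.shiftRight m (nat_lit 17)) (Nat.land (Nat.shiftRight x (nat_lit 34)) (nat_lit 131071))) (nat_lit 131071))) (nat_lit 131071))) (nat_lit 131071))) (nat_lit 131071))) (nat_lit 131071)))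 (nat_lit 131071))) (nat_lit 131071))) (nat_lit 131071))) (nat_lit 131071))) (nat_lit 131071))) (nat_lit 131071))) (nat_lit 131071))) (nat_lit 131071))) (nat_lit 131071)), rfl⟩
noncomputable def w134 : WW := ⟨.a (.s (.s (.s (.a (.s (.a (.i (.i (.a (.s (.a (.s (.a (.i (.a (.s (.a (.e)))))))))))))))))), fun m x => (Nat.land (Nat.shiftRight (Nat.shiftRight m (nat_lit 34)) (Nat.land (Nat.shiftRight m (Nat.land (Nat.shiftRight (Nat.shiftRight m (nat_lit 34)) (Nat.land (Nat.shiftRight (Nat.shiftRight m (nat_lit 17)) (Nat.land (Nat.shiftRight (Nat.shiftRight m (nat_lit 34)) (Nat.land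
  (Nat.shiftRight m (Nat.land (Nat.shiftRight (Nat.shiftRight m (nat_lit 34)) (Nat.land (Nat.shiftRight m (Nat.land (Nat.shiftRight (Nat.shiftRight m (nat_lit 34)) (Nat.land (Nat.shiftRight (Nat.shiftRight m (nat_lit 17)) (Nat.land (Nat.shiftRight (Nat.shiftRight m (nat_lit 17)) (Nat.land (Nat.shiftRight (Nat.shiftRight m (nat_lit 34)) (Nat.land (Nat.shiftRight m (Nat.land (Nat.shiftRight (Nat.shiftRight m
  (nat_lit 34)) (Nat.land (Nat.shiftRight m (Nat.land (Nat.shiftRight m (Nat.land (Nat.shiftRight m (Nat.land (Nat.shiftRight x (nat_lit 34)) (nat_lit 131071))) (nat_lit 131071))) (nat_lit 131071))) (nat_lit 131071))) (nat_lit 131071))) (nat_lit 131071))) (nat_lit 131071))) (nat_lit 131071))) (nat_lit 131071))) (nat_lit 131071))) (nat_lit 131071))) (nat_lit 131071))) (nat_lit 131071))) (nat_lit 131071))) (nat_lit 131071))) (nat_lit 131071))) (nat_lit 131071))) (nat_lit 131071)), rfl⟩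
noncomputable def w135 : WW := ⟨.s (.a (.i (.i (.a (.s (.a (.i (.i (.a (.s (.a (.e)))))))))))), fun m x => (Nat.land (Nat.shiftRight (Nat.shiftRight m (nat_lit 34)) (Nat.land (Nat.shiftRight m (Nat.land (Nat.shiftRight (Nat.shiftRight m (nat_lit 34)) (Nat.land (Nat.shiftRight (Nat.shiftRight m (nat_lit 17)) (Nat.land (Nat.shiftRight (Nat.shiftRight m (nat_lit 17)) (Nat.land (Nat.shiftRight (Nat.shiftRight m
  (nat_lit 34)) (Nat.land (Nat.shiftRight m (Nat.land (Nat.shiftRight (Nat.shiftRight m (nat_lit 34)) (Nat.land (Nat.shiftRight (Nat.shiftRight m (nat_lit 17)) (Nat.land (Nat.shiftRight (Nat.shiftRight m (nat_lit 17)) (Nat.land (Nat.shiftRight (Nat.shiftRight m (nat_lit 34)) (Nat.land x (nat_lit 131071))) (nat_lit 131071))) (nat_lit 131071))) (nat_lit 131071))) (nat_lit 131071))) (nat_lit 131071))) (nat_lit 131071))) (nat_lit 131071))) (nat_lit 131071))) (nat_lit 131071))) (nat_lit 131071))) (nat_lit 131071)), rfl⟩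
noncomputable def w136 : WW := ⟨.a (.i (.a (.s (.a (.i (.i (.a (.s (.a (.s (.a (.s (.a (.i (.a (.e)))))))))))))))), fun m x => (Nat.land (Nat.shiftRight (Nat.shiftRight m (nat_lit 34)) (Nat.land (Nat.shiftRight (Nat.shiftRight m (nat_lit 17)) (Nat.land (Nat.shiftRight (Nat.shiftRight m (nat_lit 34)) (Nat.land (Nat.shiftRight m (Nat.land (Nat.shiftRight (Nat.shiftRight m (nat_lit 34)) (Nat.land (Nat.shiftRight m
  (Nat.land (Nat.shiftRight (Nat.shiftRight m (nat_lit 34)) (Nat.land (Nat.shiftRight m (Nat.land (Nat.shiftRight (Nat.shiftRight m (nat_lit 34)) (Nat.land (Nat.shiftRight (Nat.shiftRight m (nat_lit 17)) (Nat.land (Nat.shiftRight (Nat.shiftRight m (nat_lit 17)) (Nat.land (Nat.shiftRight (Nat.shiftRight m (nat_lit 34)) (Nat.land (Nat.shiftRight m (Nat.land (Nat.shiftRight (Nat.shiftRight m (nat_lit 34))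
  (Nat.land (Nat.shiftRight (Nat.shiftRight m (nat_lit 17)) (Nat.land (Nat.shiftRight x (nat_lit 34)) (nat_lit 131071))) (nat_lit 131071))) (nat_lit 131071))) (nat_lit 131071))) (nat_lit 131071))) (nat_lit 131071))) (nat_lit 131071))) (nat_lit 131071))) (nat_lit 131071))) (nat_lit 131071))) (nat_lit 131071))) (nat_lit 131071))) (nat_lit 131071))) (nat_lit 131071))) (nat_lit 131071))) (nat_lit 131071)), rfl⟩
noncomputable def w137 : WW := ⟨.s (.a (.i (.a (.s (.a (.s (.a (.i (.a (.s (.a (.s (.a (.s (.a (.i (.a (.i (.a (.s (.a (.s (.a (.s (.a (.s (.a (.s (.a (.s (.a (.i (.a (.s (.a (.i (.e))))))))))))))))))))))))))))))))))))), fun m x => (Nat.land (Nat.shiftRight (Nat.shiftRight m (nat_lit 17)) (Nat.land (Nat.shiftRight (Nat.shiftRight m (nat_lit 34)) (Nat.land (Nat.shiftRight m (Nat.land (Nat.shiftRight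
  (Nat.shiftRight m (nat_lit 34)) (Nat.land (Nat.shiftRight (Nat.shiftRight m (nat_lit 17)) (Nat.land (Nat.shiftRight (Nat.shiftRight m (nat_lit 34)) (Nat.land (Nat.shiftRight m (Nat.land (Nat.shiftRight (Nat.shiftRight m (nat_lit 34)) (Nat.land (Nat.shiftRight m (Nat.land (Nat.shiftRight (Nat.shiftRight m (nat_lit 34)) (Nat.land (Nat.shiftRight m (Nat.land (Nat.shiftRight (Nat.shiftRight m (nat_lit 34))
  (Nat.land (Nat.shiftRight m (Nat.land (Nat.shiftRight (Nat.shiftRight m (nat_lit 34)) (Nat.land (Nat.shiftRight m (Nat.land (Nat.shiftRight (Nat.shiftRight m (nat_lit 34)) (Nat.land (Nat.shiftRight m (Nat.land (Nat.shiftRight (Nat.shiftRight m (nat_lit 34)) (Nat.land (Nat.shiftRight (Nat.shiftRight m (nat_lit 17)) (Nat.land (Nat.shiftRight (Nat.shiftRight m (nat_lit 34)) (Nat.land (Nat.shiftRight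
  (Nat.shiftRight m (nat_lit 17)) (Nat.land (Nat.shiftRight (Nat.shiftRight m (nat_lit 34)) (Nat.land (Nat.shiftRight m (Nat.land (Nat.shiftRight (Nat.shiftRight m (nat_lit 34)) (Nat.land (Nat.shiftRight m (Nat.land (Nat.shiftRight (Nat.shiftRight m (nat_lit 34)) (Nat.land (Nat.shiftRight m (Nat.land (Nat.shiftRight (Nat.shiftRight m (nat_lit 34)) (Nat.land (Nat.shiftRight (Nat.shiftRight m (nat_lit 17))
  (Nat.land (Nat.shiftRight (Nat.shiftRight m (nat_lit 34)) (Nat.land (Nat.shiftRight m (Nat.land (Nat.shiftRight (Nat.shiftRight m (nat_lit 34)) (Nat.land (Nat.shiftRight m (Nat.land (Nat.shiftRight (Nat.shiftRight m (nat_lit 34)) (Nat.land (Nat.shiftRight (Nat.shiftRight m (nat_lit 17)) (Nat.land (Nat.shiftRight (Nat.shiftRight m (nat_lit 34)) (Nat.land x (nat_lit 131071))) (nat_lit 131071))) (nat_lit 131071)))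
  (nat_lit 131071))) (nat_lit 131071))) (nat_lit 131071))) (nat_lit 131071))) (nat_lit 131071))) (nat_lit 131071))) (nat_lit 131071))) (nat_lit 131071))) (nat_lit 131071))) (nat_lit 131071))) (nat_lit 131071))) (nat_lit 131071))) (nat_lit 131071))) (nat_lit 131071))) (nat_lit 131071))) (nat_lit 131071))) (nat_lit 131071))) (nat_lit 131071))) (nat_lit 131071))) (nat_lit 131071))) (nat_lit 131071))) (nat_lit 131071))) (nat_lit 131071))) (nat_lit 131071))) (nat_lit 131071))) (nat_lit 131071))) (nat_lit 131071))) (nat_lit 131071))) (nat_lit 131071))) (nat_lit 131071))) (nat_lit 131071))) (nat_lit 131071))) (nat_lit 131071))) (nat_lit 131071)), rfl⟩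
noncomputable def w138 : WW := ⟨.s (.a (.s (.a (.s (.a (.i (.i (.a (.s (.a (.e))))))))))), fun m x => (Nat.land (Nat.shiftRight (Nat.shiftRight m (nat_lit 34)) (Nat.land (Nat.shiftRight m (Nat.land (Nat.shiftRight (Nat.shiftRight m (nat_lit 34)) (Nat.land (Nat.shiftRight (Nat.shiftRight m (nat_lit 17)) (Nat.land (Nat.shiftRight (Nat.shiftRight m (nat_lit 17)) (Nat.land (Nat.shiftRight (Nat.shiftRight m
  (nat_lit 34)) (Nat.land (Nat.shiftRight m (Nat.land (Nat.shiftRight (Nat.shiftRight m (nat_lit 34)) (Nat.land (Nat.shiftRight m (Nat.land (Nat.shiftRight (Nat.shiftRight m (nat_lit 34)) (Nat.land x (nat_lit 131071))) (nat_lit 131071))) (nat_lit 131071))) (nat_lit 131071))) (nat_lit 131071))) (nat_lit 131071))) (nat_lit 131071))) (nat_lit 131071))) (nat_lit 131071))) (nat_lit 131071))) (nat_lit 131071)), rfl⟩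
noncomputable def w139 : WW := ⟨.s (.a (.s (.a (.s (.a (.i (.i (.a (.s (.a (.s (.a (.s (.a (.e))))))))))))))), fun m x => (Nat.land (Nat.shiftRight (Nat.shiftRight m (nat_lit 34)) (Nat.land (Nat.shiftRight m (Nat.land (Nat.shiftRight (Nat.shiftRight m (nat_lit 34)) (Nat.land (Nat.shiftRight m (Nat.land (Nat.shiftRight (Nat.shiftRight m (nat_lit 34)) (Nat.land (Nat.shiftRight m (Nat.land (Nat.shiftRight
  (Nat.shiftRight m (nat_lit 34)) (Nat.land (Nat.shiftRight (Nat.shiftRight m (nat_lit 17)) (Nat.land (Nat.shiftRight (Nat.shiftRight m (nat_lit 17)) (Nat.land (Nat.shiftRight (Nat.shiftRight m (nat_lit 34)) (Nat.land (Nat.shiftRight m (Nat.land (Nat.shiftRight (Nat.shiftRight m (nat_lit 34)) (Nat.land (Nat.shiftRight m (Nat.land (Nat.shiftRight (Nat.shiftRight m (nat_lit 34)) (Nat.land x (nat_lit 131071))) (nat_lit 131071))) (nat_lit 131071))) (nat_lit 131071))) (nat_lit 131071))) (nat_lit 131071))) (nat_lit 131071))) (nat_lit 131071))) (nat_lit 131071)))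 (nat_lit 131071))) (nat_lit 131071))) (nat_lit 131071))) (nat_lit 131071))) (nat_lit 131071))) (nat_lit 131071)), rfl⟩
noncomputable def w140 : WW := ⟨.s (.a (.s (.a (.s (.a (.s (.a (.i (.i (.a (.s (.a (.e))))))))))))), fun m x => (Nat.land (Nat.shiftRight (Nat.shiftRight m (nat_lit 34)) (Nat.land (Nat.shiftRight m (Nat.land (Nat.shiftRight (Nat.shiftRight m (nat_lit 34)) (Nat.land (Nat.shiftRight (Nat.shiftRight m (nat_lit 17)) (Nat.land (Nat.shiftRight (Nat.shiftRight m (nat_lit 17)) (Nat.land (Nat.shiftRight (Nat.shiftRight m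
  (nat_lit 34)) (Nat.land (Nat.shiftRight m (Nat.land (Nat.shiftRight (Nat.shiftRight m (nat_lit 34)) (Nat.land (Nat.shiftRight m (Nat.land (Nat.shiftRight (Nat.shiftRight m (nat_lit 34)) (Nat.land (Nat.shiftRight m (Nat.land (Nat.shiftRight (Nat.shiftRight m (nat_lit 34)) (Nat.land x (nat_lit 131071))) (nat_lit 131071))) (nat_lit 131071))) (nat_lit 131071))) (nat_lit 131071))) (nat_lit 131071))) (nat_lit 131071))) (nat_lit 131071))) (nat_lit 131071))) (nat_lit 131071))) (nat_lit 131071))) (nat_lit 131071))) (nat_lit 131071)), rfl⟩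
noncomputable def w141 : WW := ⟨.s (.s (.s (.a (.i (.e))))), fun m x => (Nat.land (Nat.shiftRight (Nat.shiftRight m (nat_lit 17)) (Nat.land (Nat.shiftRight (Nat.shiftRight m (nat_lit 34)) (Nat.land (Nat.shiftRight m (Nat.land (Nat.shiftRight m (Nat.land x (nat_lit 131071))) (nat_lit 131071))) (nat_lit 131071))) (nat_lit 131071))) (nat_lit 131071)), rfl⟩
noncomputable def w142 : WW := ⟨.s (.a (.s (.a (.s (.a (.i (.a (.s (.a (.s (.a (.i (.e))))))))))))), fun m x => (Nat.land (Nat.shiftRight (Nat.shiftRight m (nat_lit 17)) (Nat.land (Nat.shiftRight (Nat.shiftRight m (nat_lit 34)) (Nat.land (Nat.shiftRight m (Nat.land (Nat.shiftRight (Nat.shiftRight m (nat_lit 34)) (Nat.land (Nat.shiftRight m (Nat.land (Nat.shiftRight (Nat.shiftRight m (nat_lit 34)) (Nat.land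
  (Nat.shiftRight (Nat.shiftRight m (nat_lit 17)) (Nat.land (Nat.shiftRight (Nat.shiftRight m (nat_lit 34)) (Nat.land (Nat.shiftRight m (Nat.land (Nat.shiftRight (Nat.shiftRight m (nat_lit 34)) (Nat.land (Nat.shiftRight m (Nat.land (Nat.shiftRight (Nat.shiftRight m (nat_lit 34)) (Nat.land x (nat_lit 131071))) (nat_lit 131071))) (nat_lit 131071))) (nat_lit 131071))) (nat_lit 131071))) (nat_lit 131071))) (nat_lit 131071))) (nat_lit 131071))) (nat_lit 131071))) (nat_lit 131071))) (nat_lit 131071))) (nat_lit 131071))) (nat_lit 131071)), rfl⟩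
noncomputable def w143 : WW := ⟨.a (.s (.a (.i (.a (.i (.a (.i (.a (.s (.e)))))))))), fun m x => (Nat.land (Nat.shiftRight m (Nat.land (Nat.shiftRight (Nat.shiftRight m (nat_lit 34)) (Nat.land (Nat.shiftRight (Nat.shiftRight m (nat_lit 17)) (Nat.land (Nat.shiftRight (Nat.shiftRight m (nat_lit 34)) (Nat.land (Nat.shiftRight (Nat.shiftRight m (nat_lit 17)) (Nat.land (Nat.shiftRight (Nat.shiftRight m (nat_lit 34)) (Nat.land (Nat.shiftRight (Nat.shiftRight m (nat_lit 17)) (Nat.land (Nat.shiftRight (Nat.shiftRight m (nat_lit 34)) (Nat.land (Nat.shiftRight m (Nat.land (Nat.shiftRight x (nat_lit 34)) (nat_lit 131071))) (nat_lit 131071))) (nat_lit 131071))) (nat_lit 131071))) (nat_lit 131071))) (nat_lit 131071))) (nat_lit 131071))) (nat_lit 131071))) (nat_lit 131071))) (nat_lit 131071)), rfl⟩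
noncomputable def w144 : WW := ⟨.s (.a (.s (.a (.i (.a (.i (.a (.s (.e))))))))), fun m x => (Nat.land (Nat.shiftRight m (Nat.land (Nat.shiftRight (Nat.shiftRight m (nat_lit 34)) (Nat.land (Nat.shiftRight (Nat.shiftRight m (nat_lit 17)) (Nat.land (Nat.shiftRight (Nat.shiftRight m (nat_lit 34)) (Nat.land (Nat.shiftRight (Nat.shiftRight m (nat_lit 17)) (Nat.land (Nat.shiftRight (Nat.shiftRight m (nat_lit 34)) (Nat.land (Nat.shiftRight m (Nat.land (Nat.shiftRight (Nat.shiftRight m (nat_lit 34)) (Nat.land x (nat_lit 131071))) (nat_lit 131071))) (nat_lit 131071))) (nat_lit 131071))) (nat_lit 131071))) (nat_lit 131071))) (nat_lit 131071))) (nat_lit 131071))) (nat_lit 131071)), rfl⟩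
noncomputable def w145 : WW := ⟨.a (.i (.a (.i (.a (.s (.a (.i (.a (.s (.e)))))))))), fun m x => (Nat.land (Nat.shiftRight m (Nat.land (Nat.shiftRight (Nat.shiftRight m (nat_lit 34)) (Nat.land (Nat.shiftRight (Nat.shiftRight m (nat_lit 17)) (Nat.land (Nat.shiftRight (Nat.shiftRight m (nat_lit 34)) (Nat.land (Nat.shiftRight m (Nat.land (Nat.shiftRight (Nat.shiftRight m (nat_lit 34)) (Nat.land (Nat.shiftRight (Nat.shiftRight m (nat_lit 17)) (Nat.land (Nat.shiftRight (Nat.shiftRight m (nat_lit 34)) (Nat.land (Nat.shiftRight (Nat.shiftRight m (nat_lit 17)) (Nat.land (Nat.shiftRight x (nat_lit 34)) (nat_lit 131071))) (nat_lit 131071))) (nat_lit 131071))) (nat_lit 131071))) (nat_lit 131071))) (nat_lit 131071))) (nat_lit 131071))) (nat_lit 131071))) (nat_lit 131071))) (nat_lit 131071)), rfl⟩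
noncomputable def w146 : WW := ⟨.a (.i (.a (.s (.a (.i (.a (.s (.e)))))))), fun m x => (Nat.land (Nat.shiftRight m (Nat.land (Nat.shiftRight (Nat.shiftRight m (nat_lit 34)) (Nat.land (Nat.shiftRight (Nat.shiftRight m (nat_lit 17)) (Nat.land (Nat.shiftRight (Nat.shiftRight m (nat_lit 34)) (Nat.land (Nat.shiftRight m (Nat.land (Nat.shiftRight (Nat.shiftRight m (nat_lit 34)) (Nat.land (Nat.shiftRight (Nat.shiftRight m (nat_lit 17)) (Nat.land (Nat.shiftRight x (nat_lit 34)) (nat_lit 131071))) (nat_lit 131071))) (nat_lit 131071))) (nat_lit 131071))) (nat_lit 131071))) (nat_lit 131071))) (nat_lit 131071))) (nat_lit 131071)), rfl⟩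
noncomputable def w147 : WW := ⟨.a (.s (.a (.i (.a (.s (.e)))))), fun m x => (Nat.land (Nat.shiftRight m (Nat.land (Nat.shiftRight (Nat.shiftRight m (nat_lit 34)) (Nat.land (Nat.shiftRight (Nat.shiftRight m (nat_lit 17)) (Nat.land (Nat.shiftRight (Nat.shiftRight m (nat_lit 34)) (Nat.land (Nat.shiftRight m (Nat.land (Nat.shiftRight x (nat_lit 34)) (nat_lit 131071))) (nat_lit 131071))) (nat_lit 131071))) (nat_lit 131071))) (nat_lit 131071))) (nat_lit 131071)), rfl⟩
noncomputable def w148 : WW := ⟨.s (.s (.a (.i (.a (.s (.e)))))), fun m x => (Nat.land (Nat.shiftRight m (Nat.land (Nat.shiftRight (Nat.shiftRight m (nat_lit 34)) (Nat.land (Nat.shiftRight (Nat.shiftRight m (nat_lit 17)) (Nat.land (Nat.shiftRight (Nat.shiftRight m (nat_lit 34)) (Nat.land (Nat.shiftRight m (Nat.land x (nat_lit 131071))) (nat_lit 131071))) (nat_lit 131071))) (nat_lit 131071))) (nat_lit 131071))) (nat_lit 131071)), rfl⟩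
noncomputable def w149 : WW := ⟨.a (.i (.a (.i (.a (.i (.a (.s (.a (.s (.a (.s (.a (.s (.a (.s (.a (.s (.a (.s (.a (.i (.e)))))))))))))))))))))), fun m x => (Nat.land (Nat.shiftRight (Nat.shiftRight m (nat_lit 17)) (Nat.land (Nat.shiftRight (Nat.shiftRight m (nat_lit 34)) (Nat.land (Nat.shiftRight m (Nat.land (Nat.shiftRight (Nat.shiftRight m (nat_lit 34)) (Nat.land (Nat.shiftRight m (Nat.land (Nat.shiftRight
  (Nat.shiftRight m (nat_lit 34)) (Nat.land (Nat.shiftRight m (Nat.land (Nat.shiftRight (Nat.shiftRight m (nat_lit 34)) (Nat.land (Nat.shiftRight m (Nat.land (Nat.shiftRight (Nat.shiftRight m (nat_lit 34)) (Nat.land (Nat.shiftRight m (Nat.land (Nat.shiftRight (Nat.shiftRight m (nat_lit 34)) (Nat.land (Nat.shiftRight m (Nat.land (Nat.shiftRight (Nat.shiftRight m (nat_lit 34)) (Nat.land (Nat.shiftRight m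
  (Nat.land (Nat.shiftRight (Nat.shiftRight m (nat_lit 34)) (Nat.land (Nat.shiftRight (Nat.shiftRight m (nat_lit 17)) (Nat.land (Nat.shiftRight (Nat.shiftRight m (nat_lit 34)) (Nat.land (Nat.shiftRight (Nat.shiftRight m (nat_lit 17)) (Nat.land (Nat.shiftRight (Nat.shiftRight m (nat_lit 34)) (Nat.land (Nat.shiftRight (Nat.shiftRight m (nat_lit 17)) (Nat.land (Nat.shiftRight x (nat_lit 34)) (nat_lit 131071)))
  (nat_lit 131071))) (nat_lit 131071))) (nat_lit 131071))) (nat_lit 131071))) (nat_lit 131071))) (nat_lit 131071))) (nat_lit 131071))) (nat_lit 131071))) (nat_lit 131071))) (nat_lit 131071))) (nat_lit 131071))) (nat_lit 131071))) (nat_lit 131071))) (nat_lit 131071))) (nat_lit 131071))) (nat_lit 131071))) (nat_lit 131071))) (nat_lit 131071))) (nat_lit 131071))) (nat_lit 131071))) (nat_lit 131071)), rfl⟩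
noncomputable def w150 : WW := ⟨.s (.a (.s (.a (.s (.a (.s (.a (.s (.a (.s (.a (.s (.a (.i (.e))))))))))))))), fun m x => (Nat.land (Nat.shiftRight (Nat.shiftRight m (nat_lit 17)) (Nat.land (Nat.shiftRight (Nat.shiftRight m (nat_lit 34)) (Nat.land (Nat.shiftRight m (Nat.land (Nat.shiftRight (Nat.shiftRight m (nat_lit 34)) (Nat.land (Nat.shiftRight m (Nat.land (Nat.shiftRight (Nat.shiftRight m (nat_lit 34))
  (Nat.land (Nat.shiftRight m (Nat.land (Nat.shiftRight (Nat.shiftRight m (nat_lit 34)) (Nat.land (Nat.shiftRight m (Nat.land (Nat.shiftRight (Nat.shiftRight m (nat_lit 34)) (Nat.land (Nat.shiftRight m (Nat.land (Nat.shiftRight (Nat.shiftRight m (nat_lit 34)) (Nat.land (Nat.shiftRight m (Nat.land (Nat.shiftRight (Nat.shiftRight m (nat_lit 34)) (Nat.land x (nat_lit 131071))) (nat_lit 131071))) (nat_lit 131071))) (nat_lit 131071))) (nat_lit 131071))) (nat_lit 131071))) (nat_lit 131071))) (nat_lit 131071))) (nat_lit 131071))) (nat_lit 131071))) (nat_lit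 131071))) (nat_lit 131071))) (nat_lit 131071))) (nat_lit 131071))) (nat_lit 131071)), rfl⟩
noncomputable def w151 : WW := ⟨.s (.a (.s (.s (.e)))), fun m x => (Nat.land (Nat.shiftRight m (Nat.land (Nat.shiftRight m (Nat.land (Nat.shiftRight (Nat.shiftRight m (nat_lit 34)) (Nat.land x (nat_lit 131071))) (nat_lit 131071))) (nat_lit 131071))) (nat_lit 131071)), rfl⟩
noncomputable def w152 : WW := ⟨.s (.s (.s (.s (.a (.i (.a (.s (.e)))))))), fun m x => (Nat.land (Nat.shiftRight m (Nat.land (Nat.shiftRight (Nat.shiftRight m (nat_lit 34)) (Nat.land (Nat.shiftRight (Nat.shiftRight m (nat_lit 17)) (Nat.land (Nat.shiftRight (Nat.shiftRight m (nat_lit 34)) (Nat.land (Nat.shiftRight m (Nat.land (Nat.shiftRight m (Nat.land (Nat.shiftRight m (Nat.land x (nat_lit 131071))) (nat_lit 131071))) (nat_lit 131071))) (nat_lit 131071))) (nat_lit 131071))) (nat_lit 131071))) (nat_lit 131071))) (nat_lit 131071)), rfl⟩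
noncomputable def w153 : WW := ⟨.i (.a (.s (.a (.s (.a (.s (.a (.i (.a (.i (.a (.s (.a (.e)))))))))))))), fun m x => (Nat.land (Nat.shiftRight (Nat.shiftRight m (nat_lit 34)) (Nat.land (Nat.shiftRight m (Nat.land (Nat.shiftRight (Nat.shiftRight m (nat_lit 34)) (Nat.land (Nat.shiftRight (Nat.shiftRight m (nat_lit 17)) (Nat.land (Nat.shiftRight (Nat.shiftRight m (nat_lit 34)) (Nat.land (Nat.shiftRight
  (Nat.shiftRight m (nat_lit 17)) (Nat.land (Nat.shiftRight (Nat.shiftRight m (nat_lit 34)) (Nat.land (Nat.shiftRight m (Nat.land (Nat.shiftRight (Nat.shiftRight m (nat_lit 34)) (Nat.land (Nat.shiftRight m (Nat.land (Nat.shiftRight (Nat.shiftRight m (nat_lit 34)) (Nat.land (Nat.shiftRight m (Nat.land (Nat.shiftRight (Nat.shiftRight m (nat_lit 34)) (Nat.land (Nat.shiftRight x (nat_lit 17)) (nat_lit 131071))) (nat_lit 131071))) (nat_lit 131071))) (nat_lit 131071))) (nat_lit 131071))) (nat_lit 131071))) (nat_lit 131071))) (nat_lit 131071))) (nat_lit 131071)))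 (nat_lit 131071))) (nat_lit 131071))) (nat_lit 131071))) (nat_lit 131071))) (nat_lit 131071)), rfl⟩
noncomputable def w154 : WW := ⟨.a (.s (.a (.i (.a (.i (.e)))))), fun m x => (Nat.land (Nat.shiftRight (Nat.shiftRight m (nat_lit 17)) (Nat.land (Nat.shiftRight (Nat.shiftRight m (nat_lit 34)) (Nat.land (Nat.shiftRight (Nat.shiftRight m (nat_lit 17)) (Nat.land (Nat.shiftRight (Nat.shiftRight m (nat_lit 34)) (Nat.land (Nat.shiftRight m (Nat.land (Nat.shiftRight x (nat_lit 34)) (nat_lit 131071))) (nat_lit 131071))) (nat_lit 131071))) (nat_lit 131071))) (nat_lit 131071))) (nat_lit 131071)), rfl⟩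
noncomputable def w155 : WW := ⟨.s (.a (.i (.a (.i (.a (.s (.a (.s (.a (.e)))))))))), fun m x => (Nat.land (Nat.shiftRight (Nat.shiftRight m (nat_lit 34)) (Nat.land (Nat.shiftRight m (Nat.land (Nat.shiftRight (Nat.shiftRight m (nat_lit 34)) (Nat.land (Nat.shiftRight m (Nat.land (Nat.shiftRight (Nat.shiftRight m (nat_lit 34)) (Nat.land (Nat.shiftRight (Nat.shiftRight m (nat_lit 17)) (Nat.land (Nat.shiftRight (Nat.shiftRight m (nat_lit 34)) (Nat.land (Nat.shiftRight (Nat.shiftRight m (nat_lit 17)) (Nat.land (Nat.shiftRight (Nat.shiftRight m (nat_lit 34)) (Nat.land x (nat_lit 131071))) (nat_lit 131071))) (nat_lit 131071))) (nat_lit 131071))) (nat_lit 131071))) (nat_lit 131071))) (nat_lit 131071))) (nat_lit 131071))) (nat_lit 131071))) (nat_lit 131071)), rfl⟩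
noncomputable def w156 : WW := ⟨.a (.s (.a (.s (.a (.s (.a (.s (.a (.i (.a (.e))))))))))), fun m x => (Nat.land (Nat.shiftRight (Nat.shiftRight m (nat_lit 34)) (Nat.land (Nat.shiftRight (Nat.shiftRight m (nat_lit 17)) (Nat.land (Nat.shiftRight (Nat.shiftRight m (nat_lit 34)) (Nat.land (Nat.shiftRight m (Nat.land (Nat.shiftRight (Nat.shiftRight m (nat_lit 34)) (Nat.land (Nat.shiftRight m (Nat.land (Nat.shiftRight
  (Nat.shiftRight m (nat_lit 34)) (Nat.land (Nat.shiftRight m (Nat.land (Nat.shiftRight (Nat.shiftRight m (nat_lit 34)) (Nat.land (Nat.shiftRight m (Nat.land (Nat.shiftRight x (nat_lit 34)) (nat_lit 131071))) (nat_lit 131071))) (nat_lit 131071))) (nat_lit 131071))) (nat_lit 131071))) (nat_lit 131071))) (nat_lit 131071))) (nat_lit 131071))) (nat_lit 131071))) (nat_lit 131071))) (nat_lit 131071)), rfl⟩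
noncomputable def w157 : WW := ⟨.a (.i (.a (.i (.a (.s (.a (.s (.a (.i (.e)))))))))), fun m x => (Nat.land (Nat.shiftRight (Nat.shiftRight m (nat_lit 17)) (Nat.land (Nat.shiftRight (Nat.shiftRight m (nat_lit 34)) (Nat.land (Nat.shiftRight m (Nat.land (Nat.shiftRight (Nat.shiftRight m (nat_lit 34)) (Nat.land (Nat.shiftRight m (Nat.land (Nat.shiftRight (Nat.shiftRight m (nat_lit 34)) (Nat.land (Nat.shiftRight (Nat.shiftRight m (nat_lit 17)) (Nat.land (Nat.shiftRight (Nat.shiftRight m (nat_lit 34)) (Nat.land (Nat.shiftRight (Nat.shiftRight m (nat_lit 17)) (Nat.land (Nat.shiftRight x (nat_lit 34)) (nat_lit 131071))) (nat_lit 131071))) (nat_lit 131071))) (nat_lit 131071))) (nat_lit 131071))) (nat_lit 131071))) (nat_lit 131071))) (nat_lit 131071))) (nat_lit 131071))) (nat_lit 131071)), rfl⟩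
noncomputable def w158 : WW := ⟨.a (.s (.a (.i (.a (.i (.a (.i (.e)))))))), fun m x => (Nat.land (Nat.shiftRight (Nat.shiftRight m (nat_lit 17)) (Nat.land (Nat.shiftRight (Nat.shiftRight m (nat_lit 34)) (Nat.land (Nat.shiftRight (Nat.shiftRight m (nat_lit 17)) (Nat.land (Nat.shiftRight (Nat.shiftRight m (nat_lit 34)) (Nat.land (Nat.shiftRight (Nat.shiftRight m (nat_lit 17)) (Nat.land (Nat.shiftRight (Nat.shiftRight m (nat_lit 34)) (Nat.land (Nat.shiftRight m (Nat.land (Nat.shiftRight x (nat_lit 34)) (nat_lit 131071))) (nat_lit 131071))) (nat_lit 131071))) (nat_lit 131071))) (nat_lit 131071))) (nat_lit 131071))) (nat_lit 131071))) (nat_lit 131071)), rfl⟩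
noncomputable def w159 : WW := ⟨.a (.s (.a (.s (.a (.s (.a (.s (.a (.s (.a (.i (.a (.e))))))))))))), fun m x => (Nat.land (Nat.shiftRight (Nat.shiftRight m (nat_lit 34)) (Nat.land (Nat.shiftRight (Nat.shiftRight m (nat_lit 17)) (Nat.land (Nat.shiftRight (Nat.shiftRight m (nat_lit 34)) (Nat.land (Nat.shiftRight m (Nat.land (Nat.shiftRight (Nat.shiftRight m (nat_lit 34)) (Nat.land (Nat.shiftRight m (Nat.land
  (Nat.shiftRight (Nat.shiftRight m (nat_lit 34)) (Nat.land (Nat.shiftRight m (Nat.land (Nat.shiftRight (Nat.shiftRight m (nat_lit 34)) (Nat.land (Nat.shiftRight m (Nat.land (Nat.shiftRight (Nat.shiftRight m (nat_lit 34)) (Nat.land (Nat.shiftRight m (Nat.land (Nat.shiftRight x (nat_lit 34)) (nat_lit 131071))) (nat_lit 131071))) (nat_lit 131071))) (nat_lit 131071))) (nat_lit 131071))) (nat_lit 131071))) (nat_lit 131071))) (nat_lit 131071))) (nat_lit 131071))) (nat_lit 131071))) (nat_lit 131071))) (nat_lit 131071))) (nat_lit 131071)), rfl⟩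
noncomputable def w160 : WW := ⟨.a (.i (.a (.i (.s (.a (.e)))))), fun m x => (Nat.land (Nat.shiftRight (Nat.shiftRight m (nat_lit 34)) (Nat.land (Nat.shiftRight m (Nat.land (Nat.shiftRight (Nat.shiftRight m (nat_lit 17)) (Nat.land (Nat.shiftRight (Nat.shiftRight m (nat_lit 34)) (Nat.land (Nat.shiftRight (Nat.shiftRight m (nat_lit 17)) (Nat.land (Nat.shiftRight x (nat_lit 34)) (nat_lit 131071))) (nat_lit 131071))) (nat_lit 131071))) (nat_lit 131071))) (nat_lit 131071))) (nat_lit 131071)), rfl⟩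
noncomputable def w161 : WW := ⟨.s (.a (.s (.a (.s (.a (.i (.a (.i (.a (.s (.a (.e)))))))))))), fun m x => (Nat.land (Nat.shiftRight (Nat.shiftRight m (nat_lit 34)) (Nat.land (Nat.shiftRight m (Nat.land (Nat.shiftRight (Nat.shiftRight m (nat_lit 34)) (Nat.land (Nat.shiftRight (Nat.shiftRight m (nat_lit 17)) (Nat.land (Nat.shiftRight (Nat.shiftRight m (nat_lit 34)) (Nat.land (Nat.shiftRight (Nat.shiftRight m
  (nat_lit 17)) (Nat.land (Nat.shiftRight (Nat.shiftRight m (nat_lit 34)) (Nat.land (Nat.shiftRight m (Nat.land (Nat.shiftRight (Nat.shiftRight m (nat_lit 34)) (Nat.land (Nat.shiftRight m (Nat.land (Nat.shiftRight (Nat.shiftRight m (nat_lit 34)) (Nat.land x (nat_lit 131071))) (nat_lit 131071))) (nat_lit 131071))) (nat_lit 131071))) (nat_lit 131071))) (nat_lit 131071))) (nat_lit 131071))) (nat_lit 131071))) (nat_lit 131071))) (nat_lit 131071))) (nat_lit 131071))) (nat_lit 131071)), rfl⟩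
noncomputable def w162 : WW := ⟨.a (.i (.a (.i (.a (.i (.a (.s (.a (.s (.a (.i (.a (.i (.e)))))))))))))), fun m x => (Nat.land (Nat.shiftRight (Nat.shiftRight m (nat_lit 17)) (Nat.land (Nat.shiftRight (Nat.shiftRight m (nat_lit 34)) (Nat.land (Nat.shiftRight (Nat.shiftRight m (nat_lit 17)) (Nat.land (Nat.shiftRight (Nat.shiftRight m (nat_lit 34)) (Nat.land (Nat.shiftRight m (Nat.land (Nat.shiftRight
  (Nat.shiftRight m (nat_lit 34)) (Nat.land (Nat.shiftRight m (Nat.land (Nat.shiftRight (Nat.shiftRight m (nat_lit 34)) (Nat.land (Nat.shiftRight (Nat.shiftRight m (nat_lit 17)) (Nat.land (Nat.shiftRight (Nat.shiftRight m (nat_lit 34)) (Nat.land (Nat.shiftRight (Nat.shiftRight m (nat_lit 17)) (Nat.land (Nat.shiftRight (Nat.shiftRight m (nat_lit 34)) (Nat.land (Nat.shiftRight (Nat.shiftRight m (nat_lit 17)) (Nat.land (Nat.shiftRight x (nat_lit 34)) (nat_lit 131071))) (nat_lit 131071))) (nat_lit 131071))) (nat_lit 131071))) (nat_lit 131071))) (nat_lit 131071)))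 (nat_lit 131071))) (nat_lit 131071))) (nat_lit 131071))) (nat_lit 131071))) (nat_lit 131071))) (nat_lit 131071))) (nat_lit 131071))) (nat_lit 131071)), rfl⟩
noncomputable def w163 : WW := ⟨.a (.i (.a (.i (.a (.s (.a (.s (.a (.i (.a (.i (.e)))))))))))), fun m x => (Nat.land (Nat.shiftRight (Nat.shiftRight m (nat_lit 17)) (Nat.land (Nat.shiftRight (Nat.shiftRight m (nat_lit 34)) (Nat.land (Nat.shiftRight (Nat.shiftRight m (nat_lit 17)) (Nat.land (Nat.shiftRight (Nat.shiftRight m (nat_lit 34)) (Nat.land (Nat.shiftRight m (Nat.land (Nat.shiftRight (Nat.shiftRight m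
  (nat_lit 34)) (Nat.land (Nat.shiftRight m (Nat.land (Nat.shiftRight (Nat.shiftRight m (nat_lit 34)) (Nat.land (Nat.shiftRight (Nat.shiftRight m (nat_lit 17)) (Nat.land (Nat.shiftRight (Nat.shiftRight m (nat_lit 34)) (Nat.land (Nat.shiftRight (Nat.shiftRight m (nat_lit 17)) (Nat.land (Nat.shiftRight x (nat_lit 34)) (nat_lit 131071))) (nat_lit 131071))) (nat_lit 131071))) (nat_lit 131071))) (nat_lit 131071))) (nat_lit 131071))) (nat_lit 131071))) (nat_lit 131071))) (nat_lit 131071))) (nat_lit 131071))) (nat_lit 131071))) (nat_lit 131071)), rfl⟩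
noncomputable def w164 : WW := ⟨.s (.a (.s (.a (.s (.a (.i (.a (.s (.a (.i (.a (.i (.e))))))))))))), fun m x => (Nat.land (Nat.shiftRight (Nat.shiftRight m (nat_lit 17)) (Nat.land (Nat.shiftRight (Nat.shiftRight m (nat_lit 34)) (Nat.land (Nat.shiftRight (Nat.shiftRight m (nat_lit 17)) (Nat.land (Nat.shiftRight (Nat.shiftRight m (nat_lit 34)) (Nat.land (Nat.shiftRight m (Nat.land (Nat.shiftRight (Nat.shiftRight m
  (nat_lit 34)) (Nat.land (Nat.shiftRight (Nat.shiftRight m (nat_lit 17)) (Nat.land (Nat.shiftRight (Nat.shiftRight m (nat_lit 34)) (Nat.land (Nat.shiftRight m (Nat.land (Nat.shiftRight (Nat.shiftRight m (nat_lit 34)) (Nat.land (Nat.shiftRight m (Nat.land (Nat.shiftRight (Nat.shiftRight m (nat_lit 34)) (Nat.land x (nat_lit 131071))) (nat_lit 131071))) (nat_lit 131071))) (nat_lit 131071))) (nat_lit 131071))) (nat_lit 131071))) (nat_lit 131071))) (nat_lit 131071))) (nat_lit 131071))) (nat_lit 131071))) (nat_lit 131071))) (nat_lit 131071))) (nat_lit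 131071)), rfl⟩
noncomputable def w165 : WW := ⟨.s (.a (.s (.a (.s (.a (.i (.a (.i (.a (.s (.a (.s (.a (.e)))))))))))))), fun m x => (Nat.land (Nat.shiftRight (Nat.shiftRight m (nat_lit 34)) (Nat.land (Nat.shiftRight m (Nat.land (Nat.shiftRight (Nat.shiftRight m (nat_lit 34)) (Nat.land (Nat.shiftRight m (Nat.land (Nat.shiftRight (Nat.shiftRight m (nat_lit 34)) (Nat.land (Nat.shiftRight (Nat.shiftRight m (nat_lit 17))
  (Nat.land (Nat.shiftRight (Nat.shiftRight m (nat_lit 34)) (Nat.land (Nat.shiftRight (Nat.shiftRight m (nat_lit 17)) (Nat.land (Nat.shiftRight (Nat.shiftRight m (nat_lit 34)) (Nat.land (Nat.shiftRight m (Nat.land (Nat.shiftRight (Nat.shiftRight m (nat_lit 34)) (Nat.land (Nat.shiftRight m (Nat.land (Nat.shiftRight (Nat.shiftRight m (nat_lit 34)) (Nat.land x (nat_lit 131071))) (nat_lit 131071))) (nat_lit 131071))) (nat_lit 131071))) (nat_lit 131071))) (nat_lit 131071))) (nat_lit 131071))) (nat_lit 131071))) (nat_lit 131071))) (nat_lit 131071)))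 (nat_lit 131071))) (nat_lit 131071))) (nat_lit 131071))) (nat_lit 131071)), rfl⟩
noncomputable def w166 : WW := ⟨.a (.i (.a (.i (.a (.s (.a (.s (.a (.s (.a (.s (.a (.e))))))))))))), fun m x => (Nat.land (Nat.shiftRight (Nat.shiftRight m (nat_lit 34)) (Nat.land (Nat.shiftRight m (Nat.land (Nat.shiftRight (Nat.shiftRight m (nat_lit 34)) (Nat.land (Nat.shiftRight m (Nat.land (Nat.shiftRight (Nat.shiftRight m (nat_lit 34)) (Nat.land (Nat.shiftRight m (Nat.land (Nat.shiftRight (Nat.shiftRight m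
  (nat_lit 34)) (Nat.land (Nat.shiftRight m (Nat.land (Nat.shiftRight (Nat.shiftRight m (nat_lit 34)) (Nat.land (Nat.shiftRight (Nat.shiftRight m (nat_lit 17)) (Nat.land (Nat.shiftRight (Nat.shiftRight m (nat_lit 34)) (Nat.land (Nat.shiftRight (Nat.shiftRight m (nat_lit 17)) (Nat.land (Nat.shiftRight x (nat_lit 34)) (nat_lit 131071))) (nat_lit 131071))) (nat_lit 131071))) (nat_lit 131071))) (nat_lit 131071))) (nat_lit 131071))) (nat_lit 131071))) (nat_lit 131071))) (nat_lit 131071))) (nat_lit 131071))) (nat_lit 131071))) (nat_lit 131071))) (nat_lit 131071)), rfl⟩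
noncomputable def w167 : WW := ⟨.a (.i (.a (.i (.a (.i (.a (.i (.a (.s (.e)))))))))), fun m x => (Nat.land (Nat.shiftRight m (Nat.land (Nat.shiftRight (Nat.shiftRight m (nat_lit 34)) (Nat.land (Nat.shiftRight (Nat.shiftRight m (nat_lit 17)) (Nat.land (Nat.shiftRight (Nat.shiftRight m (nat_lit 34)) (Nat.land (Nat.shiftRight (Nat.shiftRight m (nat_lit 17)) (Nat.land (Nat.shiftRight (Nat.shiftRight m
  (nat_lit 34)) (Nat.land (Nat.shiftRight (Nat.shiftRight m (nat_lit 17)) (Nat.land (Nat.shiftRight (Nat.shiftRight m (nat_lit 34)) (Nat.land (Nat.shiftRight (Nat.shiftRight m (nat_lit 17)) (Nat.land (Nat.shiftRight x (nat_lit 34)) (nat_lit 131071))) (nat_lit 131071))) (nat_lit 131071))) (nat_lit 131071))) (nat_lit 131071))) (nat_lit 131071))) (nat_lit 131071))) (nat_lit 131071))) (nat_lit 131071))) (nat_lit 131071)), rfl⟩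
noncomputable def w168 : WW := ⟨.s (.a (.s (.a (.s (.a (.s (.a (.s (.a (.e)))))))))), fun m x => (Nat.land (Nat.shiftRight (Nat.shiftRight m (nat_lit 34)) (Nat.land (Nat.shiftRight m (Nat.land (Nat.shiftRight (Nat.shiftRight m (nat_lit 34)) (Nat.land (Nat.shiftRight m (Nat.land (Nat.shiftRight (Nat.shiftRight m (nat_lit 34)) (Nat.land (Nat.shiftRight m (Nat.land (Nat.shiftRight (Nat.shiftRight m (nat_lit 34)) (Nat.land (Nat.shiftRight m (Nat.land (Nat.shiftRight (Nat.shiftRight m (nat_lit 34)) (Nat.land x (nat_lit 131071))) (nat_lit 131071))) (nat_lit 131071))) (nat_lit 131071))) (nat_lit 131071))) (nat_lit 131071))) (nat_lit 131071))) (nat_lit 131071))) (nat_lit 131071))) (nat_lit 131071)), rfl⟩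
noncomputable def w169 : WW := ⟨.a (.i (.a (.i (.a (.s (.s (.a (.s (.a (.s (.a (.s (.a (.s (.a (.e)))))))))))))))), fun m x => (Nat.land (Nat.shiftRight (Nat.shiftRight m (nat_lit 34)) (Nat.land (Nat.shiftRight m (Nat.land (Nat.shiftRight (Nat.shiftRight m (nat_lit 34)) (Nat.land (Nat.shiftRight m (Nat.land (Nat.shiftRight (Nat.shiftRight m (nat_lit 34)) (Nat.land (Nat.shiftRight m (Nat.land (Nat.shiftRight
  (Nat.shiftRight m (nat_lit 34)) (Nat.land (Nat.shiftRight m (Nat.land (Nat.shiftRight (Nat.shiftRight m (nat_lit 34)) (Nat.land (Nat.shiftRight m (Nat.land (Nat.shiftRight m (Nat.land (Nat.shiftRight (Nat.shiftRight m (nat_lit 34)) (Nat.land (Nat.shiftRight (Nat.shiftRight m (nat_lit 17)) (Nat.land (Nat.shiftRight (Nat.shiftRight m (nat_lit 34)) (Nat.land (Nat.shiftRight (Nat.shiftRight m (nat_lit 17)) (Nat.land (Nat.shiftRight x (nat_lit 34)) (nat_lit 131071))) (nat_lit 131071))) (nat_lit 131071))) (nat_lit 131071))) (nat_lit 131071))) (nat_lit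 131071))) (nat_lit 131071))) (nat_lit 131071))) (nat_lit 131071))) (nat_lit 131071))) (nat_lit 131071))) (nat_lit 131071))) (nat_lit 131071))) (nat_lit 131071))) (nat_lit 131071))) (nat_lit 131071)), rfl⟩
noncomputable def w170 : WW := ⟨.a (.i (.a (.i (.a (.e))))), fun m x => (Nat.land (Nat.shiftRight (Nat.shiftRight m (nat_lit 34)) (Nat.land (Nat.shiftRight (Nat.shiftRight m (nat_lit 17)) (Nat.land (Nat.shiftRight (Nat.shiftRight m (nat_lit 34)) (Nat.land (Nat.shiftRight (Nat.shiftRight m (nat_lit 17)) (Nat.land (Nat.shiftRight x (nat_lit 34)) (nat_lit 131071))) (nat_lit 131071))) (nat_lit 131071))) (nat_lit 131071))) (nat_lit 131071)), rfl⟩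
noncomputable def w171 : WW := ⟨.s (.s (.a (.s (.a (.s (.a (.s (.a (.e))))))))), fun m x => (Nat.land (Nat.shiftRight (Nat.shiftRight m (nat_lit 34)) (Nat.land (Nat.shiftRight m (Nat.land (Nat.shiftRight (Nat.shiftRight m (nat_lit 34)) (Nat.land (Nat.shiftRight m (Nat.land (Nat.shiftRight (Nat.shiftRight m (nat_lit 34)) (Nat.land (Nat.shiftRight m (Nat.land (Nat.shiftRight (Nat.shiftRight m (nat_lit 34)) (Nat.land (Nat.shiftRight m (Nat.land x (nat_lit 131071))) (nat_lit 131071))) (nat_lit 131071))) (nat_lit 131071))) (nat_lit 131071))) (nat_lit 131071))) (nat_lit 131071))) (nat_lit 131071))) (nat_lit 131071)), rfl⟩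
noncomputable def w172 : WW := ⟨.s (.a (.s (.a (.s (.e))))), fun m x => (Nat.land (Nat.shiftRight m (Nat.land (Nat.shiftRight (Nat.shiftRight m (nat_lit 34)) (Nat.land (Nat.shiftRight m (Nat.land (Nat.shiftRight (Nat.shiftRight m (nat_lit 34)) (Nat.land x (nat_lit 131071))) (nat_lit 131071))) (nat_lit 131071))) (nat_lit 131071))) (nat_lit 131071)), rfl⟩
noncomputable def w173 : WW := ⟨.s (.a (.i (.a (.s (.a (.s (.e))))))), fun m x => (Nat.land (Nat.shiftRight m (Nat.land (Nat.shiftRight (Nat.shiftRight m (nat_lit 34)) (Nat.land (Nat.shiftRight m (Nat.land (Nat.shiftRight (Nat.shiftRight m (nat_lit 34)) (Nat.land (Nat.shiftRight (Nat.shiftRight m (nat_lit 17)) (Nat.land (Nat.shiftRight (Nat.shiftRight m (nat_lit 34)) (Nat.land x (nat_lit 131071))) (nat_lit 131071))) (nat_lit 131071))) (nat_lit 131071))) (nat_lit 131071))) (nat_lit 131071))) (nat_lit 131071)), rfl⟩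
noncomputable def w174 : WW := ⟨.s (.a (.s (.a (.i (.a (.s (.a (.s (.e))))))))), fun m x => (Nat.land (Nat.shiftRight m (Nat.land (Nat.shiftRight (Nat.shiftRight m (nat_lit 34)) (Nat.land (Nat.shiftRight m (Nat.land (Nat.shiftRight (Nat.shiftRight m (nat_lit 34)) (Nat.land (Nat.shiftRight (Nat.shiftRight m (nat_lit 17)) (Nat.land (Nat.shiftRight (Nat.shiftRight m (nat_lit 34)) (Nat.land (Nat.shiftRight m (Nat.land (Nat.shiftRight (Nat.shiftRight m (nat_lit 34)) (Nat.land x (nat_lit 131071))) (nat_lit 131071))) (nat_lit 131071))) (nat_lit 131071))) (nat_lit 131071))) (nat_lit 131071))) (nat_lit 131071))) (nat_lit 131071))) (nat_lit 131071)), rfl⟩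
noncomputable def w175 : WW := ⟨.s (.a (.i (.e))), fun m x => (Nat.land (Nat.shiftRight (Nat.shiftRight m (nat_lit 17)) (Nat.land (Nat.shiftRight (Nat.shiftRight m (nat_lit 34)) (Nat.land x (nat_lit 131071))) (nat_lit 131071))) (nat_lit 131071)), rfl⟩
noncomputable def w176 : WW := ⟨.s (.a (.i (.a (.i (.e))))), fun m x => (Nat.land (Nat.shiftRight (Nat.shiftRight m (nat_lit 17)) (Nat.land (Nat.shiftRight (Nat.shiftRight m (nat_lit 34)) (Nat.land (Nat.shiftRight (Nat.shiftRight m (nat_lit 17)) (Nat.land (Nat.shiftRight (Nat.shiftRight m (nat_lit 34)) (Nat.land x (nat_lit 131071))) (nat_lit 131071))) (nat_lit 131071))) (nat_lit 131071))) (nat_lit 131071)), rfl⟩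
noncomputable def w177 : WW := ⟨.s (.s (.s (.s (.a (.i (.a (.i (.e)))))))), fun m x => (Nat.land (Nat.shiftRight (Nat.shiftRight m (nat_lit 17)) (Nat.land (Nat.shiftRight (Nat.shiftRight m (nat_lit 34)) (Nat.land (Nat.shiftRight (Nat.shiftRight m (nat_lit 17)) (Nat.land (Nat.shiftRight (Nat.shiftRight m (nat_lit 34)) (Nat.land (Nat.shiftRight m (Nat.land (Nat.shiftRight m (Nat.land (Nat.shiftRight m (Nat.land x (nat_lit 131071))) (nat_lit 131071))) (nat_lit 131071))) (nat_lit 131071))) (nat_lit 131071))) (nat_lit 131071))) (nat_lit 131071))) (nat_lit 131071)), rfl⟩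
noncomputable def w178 : WW := ⟨.a (.s (.a (.s (.a (.s (.a (.s (.a (.s (.a (.i (.a (.i (.e)))))))))))))), fun m x => (Nat.land (Nat.shiftRight (Nat.shiftRight m (nat_lit 17)) (Nat.land (Nat.shiftRight (Nat.shiftRight m (nat_lit 34)) (Nat.land (Nat.shiftRight (Nat.shiftRight m (nat_lit 17)) (Nat.land (Nat.shiftRight (Nat.shiftRight m (nat_lit 34)) (Nat.land (Nat.shiftRight m (Nat.land (Nat.shiftRight
  (Nat.shiftRight m (nat_lit 34)) (Nat.land (Nat.shiftRight m (Nat.land (Nat.shiftRight (Nat.shiftRight m (nat_lit 34)) (Nat.land (Nat.shiftRight m (Nat.land (Nat.shiftRight (Nat.shiftRight m (nat_lit 34)) (Nat.land (Nat.shiftRight m (Nat.land (Nat.shiftRight (Nat.shiftRight m (nat_lit 34)) (Nat.land (Nat.shiftRight m (Nat.land (Nat.shiftRight x (nat_lit 34)) (nat_lit 131071))) (nat_lit 131071))) (nat_lit 131071))) (nat_lit 131071))) (nat_lit 131071))) (nat_lit 131071))) (nat_lit 131071))) (nat_lit 131071))) (nat_lit 131071))) (nat_lit 131071))) (nat_lit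 131071))) (nat_lit 131071))) (nat_lit 131071))) (nat_lit 131071)), rfl⟩
noncomputable def w179 : WW := ⟨.s (.a (.i (.i (.a (.s (.a (.e))))))), fun m x => (Nat.land (Nat.shiftRight (Nat.shiftRight m (nat_lit 34)) (Nat.land (Nat.shiftRight m (Nat.land (Nat.shiftRight (Nat.shiftRight m (nat_lit 34)) (Nat.land (Nat.shiftRight (Nat.shiftRight m (nat_lit 17)) (Nat.land (Nat.shiftRight (Nat.shiftRight m (nat_lit 17)) (Nat.land (Nat.shiftRight (Nat.shiftRight m (nat_lit 34)) (Nat.land x (nat_lit 131071))) (nat_lit 131071))) (nat_lit 131071))) (nat_lit 131071))) (nat_lit 131071))) (nat_lit 131071))) (nat_lit 131071)), rfl⟩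
noncomputable def w180 : WW := ⟨.s (.a (.i (.a (.s (.a (.s (.a (.s (.a (.i (.a (.s (.a (.s (.a (.s (.a (.s (.a (.e)))))))))))))))))))), fun m x => (Nat.land (Nat.shiftRight (Nat.shiftRight m (nat_lit 34)) (Nat.land (Nat.shiftRight m (Nat.land (Nat.shiftRight (Nat.shiftRight m (nat_lit 34)) (Nat.land (Nat.shiftRight m (Nat.land (Nat.shiftRight (Nat.shiftRight m (nat_lit 34)) (Nat.land (Nat.shiftRight m
  (Nat.land (Nat.shiftRight (Nat.shiftRight m (nat_lit 34)) (Nat.land (Nat.shiftRight m (Nat.land (Nat.shiftRight (Nat.shiftRight m (nat_lit 34)) (Nat.land (Nat.shiftRight (Nat.shiftRight m (nat_lit 17)) (Nat.land (Nat.shiftRight (Nat.shiftRight m (nat_lit 34)) (Nat.land (Nat.shiftRight m (Nat.land (Nat.shiftRight (Nat.shiftRight m (nat_lit 34)) (Nat.land (Nat.shiftRight m (Nat.land (Nat.shiftRight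
  (Nat.shiftRight m (nat_lit 34)) (Nat.land (Nat.shiftRight m (Nat.land (Nat.shiftRight (Nat.shiftRight m (nat_lit 34)) (Nat.land (Nat.shiftRight (Nat.shiftRight m (nat_lit 17)) (Nat.land (Nat.shiftRight (Nat.shiftRight m (nat_lit 34)) (Nat.land x (nat_lit 131071))) (nat_lit 131071))) (nat_lit 131071))) (nat_lit 131071))) (nat_lit 131071))) (nat_lit 131071))) (nat_lit 131071))) (nat_lit 131071))) (nat_lit 131071))) (nat_lit 131071))) (nat_lit 131071))) (nat_lit 131071))) (nat_lit 131071))) (nat_lit 131071))) (nat_lit 131071))) (nat_lit 131071))) (nat_lit 131071))) (nat_lit 131071))) (nat_lit 131071))) (nat_lit 131071)), rfl⟩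
noncomputable def w181 : WW := ⟨.s (.a (.s (.a (.s (.a (.i (.a (.s (.a (.s (.a (.s (.a (.e)))))))))))))), fun m x => (Nat.land (Nat.shiftRight (Nat.shiftRight m (nat_lit 34)) (Nat.land (Nat.shiftRight m (Nat.land (Nat.shiftRight (Nat.shiftRight m (nat_lit 34)) (Nat.land (Nat.shiftRight m (Nat.land (Nat.shiftRight (Nat.shiftRight m (nat_lit 34)) (Nat.land (Nat.shiftRight m (Nat.land (Nat.shiftRight
  (Nat.shiftRight m (nat_lit 34)) (Nat.land (Nat.shiftRight (Nat.shiftRight m (nat_lit 17)) (Nat.land (Nat.shiftRight (Nat.shiftRight m (nat_lit 34)) (Nat.land (Nat.shiftRight m (Nat.land (Nat.shiftRight (Nat.shiftRight m (nat_lit 34)) (Nat.land (Nat.shiftRight m (Nat.land (Nat.shiftRight (Nat.shiftRight m (nat_lit 34)) (Nat.land x (nat_lit 131071))) (nat_lit 131071))) (nat_lit 131071))) (nat_lit 131071))) (nat_lit 131071))) (nat_lit 131071))) (nat_lit 131071))) (nat_lit 131071))) (nat_lit 131071))) (nat_lit 131071))) (nat_lit 131071))) (nat_lit 131071))) (nat_lit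 131071))) (nat_lit 131071)), rfl⟩
noncomputable def w182 : WW := ⟨.s (.a (.s (.a (.i (.a (.s (.a (.i (.a (.s (.a (.s (.a (.s (.a (.i (.a (.s (.a (.e)))))))))))))))))))), fun m x => (Nat.land (Nat.shiftRight (Nat.shiftRight m (nat_lit 34)) (Nat.land (Nat.shiftRight m (Nat.land (Nat.shiftRight (Nat.shiftRight m (nat_lit 34)) (Nat.land (Nat.shiftRight (Nat.shiftRight m (nat_lit 17)) (Nat.land (Nat.shiftRight (Nat.shiftRight m (nat_lit 34))
  (Nat.land (Nat.shiftRight m (Nat.land (Nat.shiftRight (Nat.shiftRight m (nat_lit 34)) (Nat.land (Nat.shiftRight m (Nat.land (Nat.shiftRight (Nat.shiftRight m (nat_lit 34)) (Nat.land (Nat.shiftRight m (Nat.land (Nat.shiftRight (Nat.shiftRight m (nat_lit 34)) (Nat.land (Nat.shiftRight (Nat.shiftRight m (nat_lit 17)) (Nat.land (Nat.shiftRight (Nat.shiftRight m (nat_lit 34)) (Nat.land (Nat.shiftRight m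
  (Nat.land (Nat.shiftRight (Nat.shiftRight m (nat_lit 34)) (Nat.land (Nat.shiftRight (Nat.shiftRight m (nat_lit 17)) (Nat.land (Nat.shiftRight (Nat.shiftRight m (nat_lit 34)) (Nat.land (Nat.shiftRight m (Nat.land (Nat.shiftRight (Nat.shiftRight m (nat_lit 34)) (Nat.land x (nat_lit 131071))) (nat_lit 131071))) (nat_lit 131071))) (nat_lit 131071))) (nat_lit 131071))) (nat_lit 131071))) (nat_lit 131071))) (nat_lit 131071))) (nat_lit 131071))) (nat_lit 131071))) (nat_lit 131071))) (nat_lit 131071))) (nat_lit 131071))) (nat_lit 131071))) (nat_lit 131071))) (nat_lit 131071))) (nat_lit 131071))) (nat_lit 131071))) (nat_lit 131071))) (nat_lit 131071)), rfl⟩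
noncomputable def w183 : WW := ⟨.s (.a (.s (.a (.i (.a (.s (.a (.s (.a (.s (.a (.i (.a (.s (.a (.e)))))))))))))))), fun m x => (Nat.land (Nat.shiftRight (Nat.shiftRight m (nat_lit 34)) (Nat.land (Nat.shiftRight m (Nat.land (Nat.shiftRight (Nat.shiftRight m (nat_lit 34)) (Nat.land (Nat.shiftRight (Nat.shiftRight m (nat_lit 17)) (Nat.land (Nat.shiftRight (Nat.shiftRight m (nat_lit 34)) (Nat.land (Nat.shiftRight m
  (Nat.land (Nat.shiftRight (Nat.shiftRight m (nat_lit 34)) (Nat.land (Nat.shiftRight m (Nat.land (Nat.shiftRight (Nat.shiftRight m (nat_lit 34)) (Nat.land (Nat.shiftRight m (Nat.land (Nat.shiftRight (Nat.shiftRight m (nat_lit 34)) (Nat.land (Nat.shiftRight (Nat.shiftRight m (nat_lit 17)) (Nat.land (Nat.shiftRight (Nat.shiftRight m (nat_lit 34)) (Nat.land (Nat.shiftRight m (Nat.land (Nat.shiftRight (Nat.shiftRight m (nat_lit 34)) (Nat.land x (nat_lit 131071))) (nat_lit 131071))) (nat_lit 131071))) (nat_lit 131071))) (nat_lit 131071))) (nat_lit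 131071))) (nat_lit 131071))) (nat_lit 131071))) (nat_lit 131071))) (nat_lit 131071))) (nat_lit 131071))) (nat_lit 131071))) (nat_lit 131071))) (nat_lit 131071))) (nat_lit 131071))) (nat_lit 131071)), rfl⟩
noncomputable def w184 : WW := ⟨.s (.a (.s (.a (.i (.a (.i (.e))))))), fun m x => (Nat.land (Nat.shiftRight (Nat.shiftRight m (nat_lit 17)) (Nat.land (Nat.shiftRight (Nat.shiftRight m (nat_lit 34)) (Nat.land (Nat.shiftRight (Nat.shiftRight m (nat_lit 17)) (Nat.land (Nat.shiftRight (Nat.shiftRight m (nat_lit 34)) (Nat.land (Nat.shiftRight m (Nat.land (Nat.shiftRight (Nat.shiftRight m (nat_lit 34)) (Nat.land x (nat_lit 131071))) (nat_lit 131071))) (nat_lit 131071))) (nat_lit 131071))) (nat_lit 131071))) (nat_lit 131071))) (nat_lit 131071)), rfl⟩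
noncomputable def w185 : WW := ⟨.s (.a (.s (.a (.s (.a (.s (.a (.i (.a (.s (.a (.i (.a (.s (.a (.e)))))))))))))))), fun m x => (Nat.land (Nat.shiftRight (Nat.shiftRight m (nat_lit 34)) (Nat.land (Nat.shiftRight m (Nat.land (Nat.shiftRight (Nat.shiftRight m (nat_lit 34)) (Nat.land (Nat.shiftRight (Nat.shiftRight m (nat_lit 17)) (Nat.land (Nat.shiftRight (Nat.shiftRight m (nat_lit 34)) (Nat.land (Nat.shiftRight m
  (Nat.land (Nat.shiftRight (Nat.shiftRight m (nat_lit 34)) (Nat.land (Nat.shiftRight (Nat.shiftRight m (nat_lit 17)) (Nat.land (Nat.shiftRight (Nat.shiftRight m (nat_lit 34)) (Nat.land (Nat.shiftRight m (Nat.land (Nat.shiftRight (Nat.shiftRight m (nat_lit 34)) (Nat.land (Nat.shiftRight m (Nat.land (Nat.shiftRight (Nat.shiftRight m (nat_lit 34)) (Nat.land (Nat.shiftRight m (Nat.land (Nat.shiftRight (Nat.shiftRight m (nat_lit 34)) (Nat.land x (nat_lit 131071))) (nat_lit 131071))) (nat_lit 131071))) (nat_lit 131071))) (nat_lit 131071))) (nat_lit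 131071))) (nat_lit 131071))) (nat_lit 131071))) (nat_lit 131071))) (nat_lit 131071))) (nat_lit 131071))) (nat_lit 131071))) (nat_lit 131071))) (nat_lit 131071))) (nat_lit 131071))) (nat_lit 131071)), rfl⟩
noncomputable def w186 : WW := ⟨.a (.i (.a (.s (.s (.a (.s (.a (.i (.e))))))))), fun m x => (Nat.land (Nat.shiftRight (Nat.shiftRight m (nat_lit 17)) (Nat.land (Nat.shiftRight (Nat.shiftRight m (nat_lit 34)) (Nat.land (Nat.shiftRight m (Nat.land (Nat.shiftRight (Nat.shiftRight m (nat_lit 34)) (Nat.land (Nat.shiftRight m (Nat.land (Nat.shiftRight m (Nat.land (Nat.shiftRight (Nat.shiftRight m (nat_lit 34)) (Nat.land (Nat.shiftRight (Nat.shiftRight m (nat_lit 17)) (Nat.land (Nat.shiftRight x (nat_lit 34)) (nat_lit 131071))) (nat_lit 131071))) (nat_lit 131071))) (nat_lit 131071))) (nat_lit 131071))) (nat_lit 131071))) (nat_lit 131071))) (nat_lit 131071))) (nat_lit 131071)), rfl⟩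
noncomputable def w187 : WW := ⟨.s (.a (.i (.i (.a (.s (.a (.i (.e)))))))), fun m x => (Nat.land (Nat.shiftRight (Nat.shiftRight m (nat_lit 17)) (Nat.land (Nat.shiftRight (Nat.shiftRight m (nat_lit 34)) (Nat.land (Nat.shiftRight m (Nat.land (Nat.shiftRight (Nat.shiftRight m (nat_lit 34)) (Nat.land (Nat.shiftRight (Nat.shiftRight m (nat_lit 17)) (Nat.land (Nat.shiftRight (Nat.shiftRight m (nat_lit 17)) (Nat.land (Nat.shiftRight (Nat.shiftRight m (nat_lit 34)) (Nat.land x (nat_lit 131071))) (nat_lit 131071))) (nat_lit 131071))) (nat_lit 131071))) (nat_lit 131071))) (nat_lit 131071))) (nat_lit 131071))) (nat_lit 131071)), rfl⟩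
noncomputable def w188 : WW := ⟨.a (.i (.a (.s (.a (.i (.a (.s (.a (.i (.a (.i (.e)))))))))))), fun m x => (Nat.land (Nat.shiftRight (Nat.shiftRight m (nat_lit 17)) (Nat.land (Nat.shiftRight (Nat.shiftRight m (nat_lit 34)) (Nat.land (Nat.shiftRight (Nat.shiftRight m (nat_lit 17)) (Nat.land (Nat.shiftRight (Nat.shiftRight m (nat_lit 34)) (Nat.land (Nat.shiftRight m (Nat.land (Nat.shiftRight (Nat.shiftRight m
  (nat_lit 34)) (Nat.land (Nat.shiftRight (Nat.shiftRight m (nat_lit 17)) (Nat.land (Nat.shiftRight (Nat.shiftRight m (nat_lit 34)) (Nat.land (Nat.shiftRight m (Nat.land (Nat.shiftRight (Nat.shiftRight m (nat_lit 34)) (Nat.land (Nat.shiftRight (Nat.shiftRight m (nat_lit 17)) (Nat.land (Nat.shiftRight x (nat_lit 34)) (nat_lit 131071))) (nat_lit 131071))) (nat_lit 131071))) (nat_lit 131071))) (nat_lit 131071))) (nat_lit 131071))) (nat_lit 131071))) (nat_lit 131071))) (nat_lit 131071))) (nat_lit 131071))) (nat_lit 131071))) (nat_lit 131071)), rfl⟩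
noncomputable def w189 : WW := ⟨.a (.i (.a (.s (.a (.i (.i (.a (.s (.a (.s (.a (.s (.a (.e)))))))))))))), fun m x => (Nat.land (Nat.shiftRight (Nat.shiftRight m (nat_lit 34)) (Nat.land (Nat.shiftRight m (Nat.land (Nat.shiftRight (Nat.shiftRight m (nat_lit 34)) (Nat.land (Nat.shiftRight m (Nat.land (Nat.shiftRight (Nat.shiftRight m (nat_lit 34)) (Nat.land (Nat.shiftRight m (Nat.land (Nat.shiftRight
  (Nat.shiftRight m (nat_lit 34)) (Nat.land (Nat.shiftRight (Nat.shiftRight m (nat_lit 17)) (Nat.land (Nat.shiftRight (Nat.shiftRight m (nat_lit 17)) (Nat.land (Nat.shiftRight (Nat.shiftRight m (nat_lit 34)) (Nat.land (Nat.shiftRight m (Nat.land (Nat.shiftRight (Nat.shiftRight m (nat_lit 34)) (Nat.land (Nat.shiftRight (Nat.shiftRight m (nat_lit 17)) (Nat.land (Nat.shiftRight x (nat_lit 34)) (nat_lit 131071))) (nat_lit 131071))) (nat_lit 131071))) (nat_lit 131071))) (nat_lit 131071))) (nat_lit 131071))) (nat_lit 131071))) (nat_lit 131071))) (nat_lit 131071)))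 (nat_lit 131071))) (nat_lit 131071))) (nat_lit 131071))) (nat_lit 131071))) (nat_lit 131071)), rfl⟩
noncomputable def w190 : WW := ⟨.a (.s (.a (.s (.a (.s (.a (.s (.a (.s (.a (.i (.a (.i (.a (.s (.a (.s (.a (.s (.a (.s (.a (.i (.a (.e))))))))))))))))))))))))), fun m x => (Nat.land (Nat.shiftRight (Nat.shiftRight m (nat_lit 34)) (Nat.land (Nat.shiftRight (Nat.shiftRight m (nat_lit 17)) (Nat.land (Nat.shiftRight (Nat.shiftRight m (nat_lit 34)) (Nat.land (Nat.shiftRight m (Nat.land (Nat.shiftRight (Nat.shiftRight m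
  (nat_lit 34)) (Nat.land (Nat.shiftRight m (Nat.land (Nat.shiftRight (Nat.shiftRight m (nat_lit 34)) (Nat.land (Nat.shiftRight m (Nat.land (Nat.shiftRight (Nat.shiftRight m (nat_lit 34)) (Nat.land (Nat.shiftRight m (Nat.land (Nat.shiftRight (Nat.shiftRight m (nat_lit 34)) (Nat.land (Nat.shiftRight (Nat.shiftRight m (nat_lit 17)) (Nat.land (Nat.shiftRight (Nat.shiftRight m (nat_lit 34)) (Nat.land (Nat.shiftRight
  (Nat.shiftRight m (nat_lit 17)) (Nat.land (Nat.shiftRight (Nat.shiftRight m (nat_lit 34)) (Nat.land (Nat.shiftRight m (Nat.land (Nat.shiftRight (Nat.shiftRight m (nat_lit 34)) (Nat.land (Nat.shiftRight m (Nat.land (Nat.shiftRight (Nat.shiftRight m (nat_lit 34)) (Nat.land (Nat.shiftRight m (Nat.land (Nat.shiftRight (Nat.shiftRight m (nat_lit 34)) (Nat.land (Nat.shiftRight m (Nat.land (Nat.shiftRight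
  (Nat.shiftRight m (nat_lit 34)) (Nat.land (Nat.shiftRight m (Nat.land (Nat.shiftRight x (nat_lit 34)) (nat_lit 131071))) (nat_lit 131071))) (nat_lit 131071))) (nat_lit 131071))) (nat_lit 131071))) (nat_lit 131071))) (nat_lit 131071))) (nat_lit 131071))) (nat_lit 131071))) (nat_lit 131071))) (nat_lit 131071))) (nat_lit 131071))) (nat_lit 131071))) (nat_lit 131071))) (nat_lit 131071))) (nat_lit 131071))) (nat_lit 131071))) (nat_lit 131071))) (nat_lit 131071))) (nat_lit 131071))) (nat_lit 131071))) (nat_lit 131071))) (nat_lit 131071))) (nat_lit 131071))) (nat_lit 131071)), rfl⟩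
noncomputable def w191 : WW := ⟨.a (.i (.a (.s (.s (.a (.s (.a (.e)))))))), fun m x => (Nat.land (Nat.shiftRight (Nat.shiftRight m (nat_lit 34)) (Nat.land (Nat.shiftRight m (Nat.land (Nat.shiftRight (Nat.shiftRight m (nat_lit 34)) (Nat.land (Nat.shiftRight m (Nat.land (Nat.shiftRight m (Nat.land (Nat.shiftRight (Nat.shiftRight m (nat_lit 34)) (Nat.land (Nat.shiftRight (Nat.shiftRight m (nat_lit 17)) (Nat.land (Nat.shiftRight x (nat_lit 34)) (nat_lit 131071))) (nat_lit 131071))) (nat_lit 131071))) (nat_lit 131071))) (nat_lit 131071))) (nat_lit 131071))) (nat_lit 131071))) (nat_lit 131071)), rfl⟩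
noncomputable def w192 : WW := ⟨.a (.i (.a (.s (.a (.i (.a (.i (.a (.i (.e)))))))))), fun m x => (Nat.land (Nat.shiftRight (Nat.shiftRight m (nat_lit 17)) (Nat.land (Nat.shiftRight (Nat.shiftRight m (nat_lit 34)) (Nat.land (Nat.shiftRight (Nat.shiftRight m (nat_lit 17)) (Nat.land (Nat.shiftRight (Nat.shiftRight m (nat_lit 34)) (Nat.land (Nat.shiftRight (Nat.shiftRight m (nat_lit 17)) (Nat.land (Nat.shiftRight
  (Nat.shiftRight m (nat_lit 34)) (Nat.land (Nat.shiftRight m (Nat.land (Nat.shiftRight (Nat.shiftRight m (nat_lit 34)) (Nat.land (Nat.shiftRight (Nat.shiftRight m (nat_lit 17)) (Nat.land (Nat.shiftRight x (nat_lit 34)) (nat_lit 131071))) (nat_lit 131071))) (nat_lit 131071))) (nat_lit 131071))) (nat_lit 131071))) (nat_lit 131071))) (nat_lit 131071))) (nat_lit 131071))) (nat_lit 131071))) (nat_lit 131071)), rfl⟩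
noncomputable def w193 : WW := ⟨.s (.a (.s (.a (.i (.a (.i (.a (.s (.a (.s (.a (.s (.a (.s (.a (.i (.a (.s (.a (.s (.a (.s (.a (.s (.a (.e)))))))))))))))))))))))))), fun m x => (Nat.land (Nat.shiftRight (Nat.shiftRight m (nat_lit 34)) (Nat.land (Nat.shiftRight m (Nat.land (Nat.shiftRight (Nat.shiftRight m (nat_lit 34)) (Nat.land (Nat.shiftRight m (Nat.land (Nat.shiftRight (Nat.shiftRight m (nat_lit 34))
  (Nat.land (Nat.shiftRight m (Nat.land (Nat.shiftRight (Nat.shiftRight m (nat_lit 34)) (Nat.land (Nat.shiftRight m (Nat.land (Nat.shiftRight (Nat.shiftRight m (nat_lit 34)) (Nat.land (Nat.shiftRight (Nat.shiftRight m (nat_lit 17)) (Nat.land (Nat.shiftRight (Nat.shiftRight m (nat_lit 34)) (Nat.land (Nat.shiftRight m (Nat.land (Nat.shiftRight (Nat.shiftRight m (nat_lit 34)) (Nat.land (Nat.shiftRight m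
  (Nat.land (Nat.shiftRight (Nat.shiftRight m (nat_lit 34)) (Nat.land (Nat.shiftRight m (Nat.land (Nat.shiftRight (Nat.shiftRight m (nat_lit 34)) (Nat.land (Nat.shiftRight m (Nat.land (Nat.shiftRight (Nat.shiftRight m (nat_lit 34)) (Nat.land (Nat.shiftRight (Nat.shiftRight m (nat_lit 17)) (Nat.land (Nat.shiftRight (Nat.shiftRight m (nat_lit 34)) (Nat.land (Nat.shiftRight (Nat.shiftRight m (nat_lit 17))
  (Nat.land (Nat.shiftRight (Nat.shiftRight m (nat_lit 34)) (Nat.land (Nat.shiftRight m (Nat.land (Nat.shiftRight (Nat.shiftRight m (nat_lit 34)) (Nat.land x (nat_lit 131071))) (nat_lit 131071))) (nat_lit 131071))) (nat_lit 131071))) (nat_lit 131071))) (nat_lit 131071))) (nat_lit 131071))) (nat_lit 131071))) (nat_lit 131071))) (nat_lit 131071))) (nat_lit 131071))) (nat_lit 131071))) (nat_lit 131071))) (nat_lit 131071))) (nat_lit 131071))) (nat_lit 131071))) (nat_lit 131071))) (nat_lit 131071))) (nat_lit 131071))) (nat_lit 131071))) (nat_lit 131071))) (nat_lit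 131071))) (nat_lit 131071))) (nat_lit 131071))) (nat_lit 131071))) (nat_lit 131071)), rfl⟩
noncomputable def w194 : WW := ⟨.s (.a (.s (.a (.i (.a (.s (.a (.i (.a (.s (.a (.s (.a (.s (.a (.s (.a (.i (.a (.i (.a (.s (.a (.s (.a (.s (.a (.s (.a (.e)))))))))))))))))))))))))))))), fun m x => (Nat.land (Nat.shiftRight (Nat.shiftRight m (nat_lit 34)) (Nat.land (Nat.shiftRight m (Nat.land (Nat.shiftRight (Nat.shiftRight m (nat_lit 34)) (Nat.land (Nat.shiftRight m (Nat.land (Nat.shiftRight (Nat.shiftRight m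
  (nat_lit 34)) (Nat.land (Nat.shiftRight m (Nat.land (Nat.shiftRight (Nat.shiftRight m (nat_lit 34)) (Nat.land (Nat.shiftRight m (Nat.land (Nat.shiftRight (Nat.shiftRight m (nat_lit 34)) (Nat.land (Nat.shiftRight (Nat.shiftRight m (nat_lit 17)) (Nat.land (Nat.shiftRight (Nat.shiftRight m (nat_lit 34)) (Nat.land (Nat.shiftRight (Nat.shiftRight m (nat_lit 17)) (Nat.land (Nat.shiftRight (Nat.shiftRight m
  (nat_lit 34)) (Nat.land (Nat.shiftRight m (Nat.land (Nat.shiftRight (Nat.shiftRight m (nat_lit 34)) (Nat.land (Nat.shiftRight m (Nat.land (Nat.shiftRight (Nat.shiftRight m (nat_lit 34)) (Nat.land (Nat.shiftRight m (Nat.land (Nat.shiftRight (Nat.shiftRight m (nat_lit 34)) (Nat.land (Nat.shiftRight m (Nat.land (Nat.shiftRight (Nat.shiftRight m (nat_lit 34)) (Nat.land (Nat.shiftRight (Nat.shiftRight m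
  (nat_lit 17)) (Nat.land (Nat.shiftRight (Nat.shiftRight m (nat_lit 34)) (Nat.land (Nat.shiftRight m (Nat.land (Nat.shiftRight (Nat.shiftRight m (nat_lit 34)) (Nat.land (Nat.shiftRight (Nat.shiftRight m (nat_lit 17)) (Nat.land (Nat.shiftRight (Nat.shiftRight m (nat_lit 34)) (Nat.land (Nat.shiftRight m (Nat.land (Nat.shiftRight (Nat.shiftRight m (nat_lit 34)) (Nat.land x (nat_lit 131071))) (nat_lit 131071)))
  (nat_lit 131071))) (nat_lit 131071))) (nat_lit 131071))) (nat_lit 131071))) (nat_lit 131071))) (nat_lit 131071))) (nat_lit 131071))) (nat_lit 131071))) (nat_lit 131071))) (nat_lit 131071))) (nat_lit 131071))) (nat_lit 131071))) (nat_lit 131071))) (nat_lit 131071))) (nat_lit 131071))) (nat_lit 131071))) (nat_lit 131071))) (nat_lit 131071))) (nat_lit 131071))) (nat_lit 131071))) (nat_lit 131071))) (nat_lit 131071))) (nat_lit 131071))) (nat_lit 131071))) (nat_lit 131071))) (nat_lit 131071))) (nat_lit 131071))) (nat_lit 131071)), rfl⟩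
noncomputable def w195 : WW := ⟨.s (.a (.s (.a (.i (.a (.s (.a (.s (.a (.s (.s (.s (.a (.s (.a (.e)))))))))))))))), fun m x => (Nat.land (Nat.shiftRight (Nat.shiftRight m (nat_lit 34)) (Nat.land (Nat.shiftRight m (Nat.land (Nat.shiftRight (Nat.shiftRight m (nat_lit 34)) (Nat.land (Nat.shiftRight m (Nat.land (Nat.shiftRight m (Nat.land (Nat.shiftRight m (Nat.land (Nat.shiftRight (Nat.shiftRight m (nat_lit 34))
  (Nat.land (Nat.shiftRight m (Nat.land (Nat.shiftRight (Nat.shiftRight m (nat_lit 34)) (Nat.land (Nat.shiftRight m (Nat.land (Nat.shiftRight (Nat.shiftRight m (nat_lit 34)) (Nat.land (Nat.shiftRight (Nat.shiftRight m (nat_lit 17)) (Nat.land (Nat.shiftRight (Nat.shiftRight m (nat_lit 34)) (Nat.land (Nat.shiftRight m (Nat.land (Nat.shiftRight (Nat.shiftRight m (nat_lit 34)) (Nat.land x (nat_lit 131071))) (nat_lit 131071))) (nat_lit 131071))) (nat_lit 131071))) (nat_lit 131071))) (nat_lit 131071))) (nat_lit 131071))) (nat_lit 131071))) (nat_lit 131071)))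 (nat_lit 131071))) (nat_lit 131071))) (nat_lit 131071))) (nat_lit 131071))) (nat_lit 131071))) (nat_lit 131071))) (nat_lit 131071)), rfl⟩
noncomputable def w196 : WW := ⟨.s (.a (.s (.a (.i (.a (.s (.a (.s (.a (.s (.a (.s (.a (.e)))))))))))))), fun m x => (Nat.land (Nat.shiftRight (Nat.shiftRight m (nat_lit 34)) (Nat.land (Nat.shiftRight m (Nat.land (Nat.shiftRight (Nat.shiftRight m (nat_lit 34)) (Nat.land (Nat.shiftRight m (Nat.land (Nat.shiftRight (Nat.shiftRight m (nat_lit 34)) (Nat.land (Nat.shiftRight m (Nat.land (Nat.shiftRight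
  (Nat.shiftRight m (nat_lit 34)) (Nat.land (Nat.shiftRight m (Nat.land (Nat.shiftRight (Nat.shiftRight m (nat_lit 34)) (Nat.land (Nat.shiftRight (Nat.shiftRight m (nat_lit 17)) (Nat.land (Nat.shiftRight (Nat.shiftRight m (nat_lit 34)) (Nat.land (Nat.shiftRight m (Nat.land (Nat.shiftRight (Nat.shiftRight m (nat_lit 34)) (Nat.land x (nat_lit 131071))) (nat_lit 131071))) (nat_lit 131071))) (nat_lit 131071))) (nat_lit 131071))) (nat_lit 131071))) (nat_lit 131071))) (nat_lit 131071))) (nat_lit 131071))) (nat_lit 131071))) (nat_lit 131071))) (nat_lit 131071))) (nat_lit 131071))) (nat_lit 131071)), rfl⟩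
noncomputable def w197 : WW := ⟨.a (.s (.a (.s (.a (.s (.a (.s (.a (.i (.a (.s (.a (.i (.a (.s (.a (.s (.a (.s (.a (.s (.a (.i (.a (.s (.a (.s (.a (.i (.i (.a (.s (.a (.e)))))))))))))))))))))))))))))))))), fun m x => (Nat.land (Nat.shiftRight (Nat.shiftRight m (nat_lit 34)) (Nat.land (Nat.shiftRight m (Nat.land (Nat.shiftRight (Nat.shiftRight m (nat_lit 34)) (Nat.land (Nat.shiftRight (Nat.shiftRight m
  (nat_lit 17)) (Nat.land (Nat.shiftRight (Nat.shiftRight m (nat_lit 17)) (Nat.land (Nat.shiftRight (Nat.shiftRight m (nat_lit 34)) (Nat.land (Nat.shiftRight m (Nat.land (Nat.shiftRight (Nat.shiftRight m (nat_lit 34)) (Nat.land (Nat.shiftRight m (Nat.land (Nat.shiftRight (Nat.shiftRight m (nat_lit 34)) (Nat.land (Nat.shiftRight (Nat.shiftRight m (nat_lit 17)) (Nat.land (Nat.shiftRight (Nat.shiftRight m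
  (nat_lit 34)) (Nat.land (Nat.shiftRight m (Nat.land (Nat.shiftRight (Nat.shiftRight m (nat_lit 34)) (Nat.land (Nat.shiftRight m (Nat.land (Nat.shiftRight (Nat.shiftRight m (nat_lit 34)) (Nat.land (Nat.shiftRight m (Nat.land (Nat.shiftRight (Nat.shiftRight m (nat_lit 34)) (Nat.land (Nat.shiftRight m (Nat.land (Nat.shiftRight (Nat.shiftRight m (nat_lit 34)) (Nat.land (Nat.shiftRight (Nat.shiftRight m
  (nat_lit 17)) (Nat.land (Nat.shiftRight (Nat.shiftRight m (nat_lit 34)) (Nat.land (Nat.shiftRight m (Nat.land (Nat.shiftRight (Nat.shiftRight m (nat_lit 34)) (Nat.land (Nat.shiftRight (Nat.shiftRight m (nat_lit 17)) (Nat.land (Nat.shiftRight (Nat.shiftRight m (nat_lit 34)) (Nat.land (Nat.shiftRight m (Nat.land (Nat.shiftRight (Nat.shiftRight m (nat_lit 34)) (Nat.land (Nat.shiftRight m (Nat.land (Nat.shiftRight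
  (Nat.shiftRight m (nat_lit 34)) (Nat.land (Nat.shiftRight m (Nat.land (Nat.shiftRight (Nat.shiftRight m (nat_lit 34)) (Nat.land (Nat.shiftRight m (Nat.land (Nat.shiftRight x (nat_lit 34)) (nat_lit 131071))) (nat_lit 131071))) (nat_lit 131071))) (nat_lit 131071))) (nat_lit 131071))) (nat_lit 131071))) (nat_lit 131071))) (nat_lit 131071))) (nat_lit 131071))) (nat_lit 131071))) (nat_lit 131071))) (nat_lit 131071)))
  (nat_lit 131071))) (nat_lit 131071))) (nat_lit 131071))) (nat_lit 131071))) (nat_lit 131071))) (nat_lit 131071))) (nat_lit 131071))) (nat_lit 131071))) (nat_lit 131071))) (nat_lit 131071))) (nat_lit 131071))) (nat_lit 131071))) (nat_lit 131071))) (nat_lit 131071))) (nat_lit 131071))) (nat_lit 131071))) (nat_lit 131071))) (nat_lit 131071))) (nat_lit 131071))) (nat_lit 131071))) (nat_lit 131071))) (nat_lit 131071)), rfl⟩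
noncomputable def w198 : WW := ⟨.s (.a (.i (.a (.i (.a (.s (.a (.s (.a (.s (.a (.s (.a (.i (.a (.s (.a (.i (.a (.s (.a (.s (.a (.e)))))))))))))))))))))))), fun m x => (Nat.land (Nat.shiftRight (Nat.shiftRight m (nat_lit 34)) (Nat.land (Nat.shiftRight m (Nat.land (Nat.shiftRight (Nat.shiftRight m (nat_lit 34)) (Nat.land (Nat.shiftRight m (Nat.land (Nat.shiftRight (Nat.shiftRight m (nat_lit 34)) (Nat.land
  (Nat.shiftRight (Nat.shiftRight m (nat_lit 17)) (Nat.land (Nat.shiftRight (Nat.shiftRight m (nat_lit 34)) (Nat.land (Nat.shiftRight m (Nat.land (Nat.shiftRight (Nat.shiftRight m (nat_lit 34)) (Nat.land (Nat.shiftRight (Nat.shiftRight m (nat_lit 17)) (Nat.land (Nat.shiftRight (Nat.shiftRight m (nat_lit 34)) (Nat.land (Nat.shiftRight m (Nat.land (Nat.shiftRight (Nat.shiftRight m (nat_lit 34)) (Nat.land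
  (Nat.shiftRight m (Nat.land (Nat.shiftRight (Nat.shiftRight m (nat_lit 34)) (Nat.land (Nat.shiftRight m (Nat.land (Nat.shiftRight (Nat.shiftRight m (nat_lit 34)) (Nat.land (Nat.shiftRight m (Nat.land (Nat.shiftRight (Nat.shiftRight m (nat_lit 34)) (Nat.land (Nat.shiftRight (Nat.shiftRight m (nat_lit 17)) (Nat.land (Nat.shiftRight (Nat.shiftRight m (nat_lit 34)) (Nat.land (Nat.shiftRight (Nat.shiftRight m
  (nat_lit 17)) (Nat.land (Nat.shiftRight (Nat.shiftRight m (nat_lit 34)) (Nat.land x (nat_lit 131071))) (nat_lit 131071))) (nat_lit 131071))) (nat_lit 131071))) (nat_lit 131071))) (nat_lit 131071))) (nat_lit 131071))) (nat_lit 131071))) (nat_lit 131071))) (nat_lit 131071))) (nat_lit 131071))) (nat_lit 131071))) (nat_lit 131071))) (nat_lit 131071))) (nat_lit 131071))) (nat_lit 131071))) (nat_lit 131071))) (nat_lit 131071))) (nat_lit 131071))) (nat_lit 131071))) (nat_lit 131071))) (nat_lit 131071))) (nat_lit 131071))) (nat_lit 131071)), rfl⟩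
noncomputable def w199 : WW := ⟨.s (.a (.s (.a (.i (.a (.i (.a (.s (.a (.s (.a (.s (.a (.s (.a (.i (.a (.s (.a (.i (.a (.s (.a (.s (.a (.s (.a (.s (.a (.i (.a (.e)))))))))))))))))))))))))))))))), fun m x => (Nat.land (Nat.shiftRight (Nat.shiftRight m (nat_lit 34)) (Nat.land (Nat.shiftRight (Nat.shiftRight m (nat_lit 17)) (Nat.land (Nat.shiftRight (Nat.shiftRight m (nat_lit 34)) (Nat.land (Nat.shiftRight m
  (Nat.land (Nat.shiftRight (Nat.shiftRight m (nat_lit 34)) (Nat.land (Nat.shiftRight m (Nat.land (Nat.shiftRight (Nat.shiftRight m (nat_lit 34)) (Nat.land (Nat.shiftRight m (Nat.land (Nat.shiftRight (Nat.shiftRight m (nat_lit 34)) (Nat.land (Nat.shiftRight m (Nat.land (Nat.shiftRight (Nat.shiftRight m (nat_lit 34)) (Nat.land (Nat.shiftRight (Nat.shiftRight m (nat_lit 17)) (Nat.land (Nat.shiftRight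
  (Nat.shiftRight m (nat_lit 34)) (Nat.land (Nat.shiftRight m (Nat.land (Nat.shiftRight (Nat.shiftRight m (nat_lit 34)) (Nat.land (Nat.shiftRight (Nat.shiftRight m (nat_lit 17)) (Nat.land (Nat.shiftRight (Nat.shiftRight m (nat_lit 34)) (Nat.land (Nat.shiftRight m (Nat.land (Nat.shiftRight (Nat.shiftRight m (nat_lit 34)) (Nat.land (Nat.shiftRight m (Nat.land (Nat.shiftRight (Nat.shiftRight m (nat_lit 34))
  (Nat.land (Nat.shiftRight m (Nat.land (Nat.shiftRight (Nat.shiftRight m (nat_lit 34)) (Nat.land (Nat.shiftRight m (Nat.land (Nat.shiftRight (Nat.shiftRight m (nat_lit 34)) (Nat.land (Nat.shiftRight (Nat.shiftRight m (nat_lit 17)) (Nat.land (Nat.shiftRight (Nat.shiftRight m (nat_lit 34)) (Nat.land (Nat.shiftRight (Nat.shiftRight m (nat_lit 17)) (Nat.land (Nat.shiftRight (Nat.shiftRight m (nat_lit 34))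
  (Nat.land (Nat.shiftRight m (Nat.land (Nat.shiftRight (Nat.shiftRight m (nat_lit 34)) (Nat.land x (nat_lit 131071))) (nat_lit 131071))) (nat_lit 131071))) (nat_lit 131071))) (nat_lit 131071))) (nat_lit 131071))) (nat_lit 131071))) (nat_lit 131071))) (nat_lit 131071))) (nat_lit 131071))) (nat_lit 131071))) (nat_lit 131071))) (nat_lit 131071))) (nat_lit 131071))) (nat_lit 131071))) (nat_lit 131071))) (nat_lit 131071))) (nat_lit 131071))) (nat_lit 131071))) (nat_lit 131071))) (nat_lit 131071))) (nat_lit 131071))) (nat_lit 131071))) (nat_lit 131071))) (nat_lit 131071))) (nat_lit 131071))) (nat_lit 131071))) (nat_lit 131071))) (nat_lit 131071))) (nat_lit 131071))) (nat_lit 131071))) (nat_lit 131071)), rfl⟩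
noncomputable def w200 : WW := ⟨.s (.a (.s (.a (.i (.a (.s (.a (.i (.a (.s (.a (.s (.a (.e)))))))))))))), fun m x => (Nat.land (Nat.shiftRight (Nat.shiftRight m (nat_lit 34)) (Nat.land (Nat.shiftRight m (Nat.land (Nat.shiftRight (Nat.shiftRight m (nat_lit 34)) (Nat.land (Nat.shiftRight m (Nat.land (Nat.shiftRight (Nat.shiftRight m (nat_lit 34)) (Nat.land (Nat.shiftRight (Nat.shiftRight m (nat_lit 17))
  (Nat.land (Nat.shiftRight (Nat.shiftRight m (nat_lit 34)) (Nat.land (Nat.shiftRight m (Nat.land (Nat.shiftRight (Nat.shiftRight m (nat_lit 34)) (Nat.land (Nat.shiftRight (Nat.shiftRight m (nat_lit 17)) (Nat.land (Nat.shiftRight (Nat.shiftRight m (nat_lit 34)) (Nat.land (Nat.shiftRight m (Nat.land (Nat.shiftRight (Nat.shiftRight m (nat_lit 34)) (Nat.land x (nat_lit 131071))) (nat_lit 131071))) (nat_lit 131071))) (nat_lit 131071))) (nat_lit 131071))) (nat_lit 131071))) (nat_lit 131071))) (nat_lit 131071))) (nat_lit 131071))) (nat_lit 131071))) (nat_lit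 131071))) (nat_lit 131071))) (nat_lit 131071))) (nat_lit 131071)), rfl⟩
noncomputable def w201 : WW := ⟨.s (.a (.s (.a (.s (.s (.a (.i (.a (.i (.e)))))))))), fun m x => (Nat.land (Nat.shiftRight (Nat.shiftRight m (nat_lit 17)) (Nat.land (Nat.shiftRight (Nat.shiftRight m (nat_lit 34)) (Nat.land (Nat.shiftRight (Nat.shiftRight m (nat_lit 17)) (Nat.land (Nat.shiftRight (Nat.shiftRight m (nat_lit 34)) (Nat.land (Nat.shiftRight m (Nat.land (Nat.shiftRight m (Nat.land (Nat.shiftRight (Nat.shiftRight m (nat_lit 34)) (Nat.land (Nat.shiftRight m (Nat.land (Nat.shiftRight (Nat.shiftRight m (nat_lit 34)) (Nat.land x (nat_lit 131071))) (nat_lit 131071))) (nat_lit 131071))) (nat_lit 131071))) (nat_lit 131071))) (nat_lit 131071))) (nat_lit 131071))) (nat_lit 131071))) (nat_lit 131071))) (nat_lit 131071)), rfl⟩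
noncomputable def w202 : WW := ⟨.s (.a (.s (.a (.s (.a (.i (.a (.s (.a (.s (.a (.s (.a (.s (.a (.s (.a (.e)))))))))))))))))), fun m x => (Nat.land (Nat.shiftRight (Nat.shiftRight m (nat_lit 34)) (Nat.land (Nat.shiftRight m (Nat.land (Nat.shiftRight (Nat.shiftRight m (nat_lit 34)) (Nat.land (Nat.shiftRight m (Nat.land (Nat.shiftRight (Nat.shiftRight m (nat_lit 34)) (Nat.land (Nat.shiftRight m (Nat.land
  (Nat.shiftRight (Nat.shiftRight m (nat_lit 34)) (Nat.land (Nat.shiftRight m (Nat.land (Nat.shiftRight (Nat.shiftRight m (nat_lit 34)) (Nat.land (Nat.shiftRight m (Nat.land (Nat.shiftRight (Nat.shiftRight m (nat_lit 34)) (Nat.land (Nat.shiftRight (Nat.shiftRight m (nat_lit 17)) (Nat.land (Nat.shiftRight (Nat.shiftRight m (nat_lit 34)) (Nat.land (Nat.shiftRight m (Nat.land (Nat.shiftRight (Nat.shiftRight m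
  (nat_lit 34)) (Nat.land (Nat.shiftRight m (Nat.land (Nat.shiftRight (Nat.shiftRight m (nat_lit 34)) (Nat.land x (nat_lit 131071))) (nat_lit 131071))) (nat_lit 131071))) (nat_lit 131071))) (nat_lit 131071))) (nat_lit 131071))) (nat_lit 131071))) (nat_lit 131071))) (nat_lit 131071))) (nat_lit 131071))) (nat_lit 131071))) (nat_lit 131071))) (nat_lit 131071))) (nat_lit 131071))) (nat_lit 131071))) (nat_lit 131071))) (nat_lit 131071))) (nat_lit 131071)), rfl⟩
noncomputable def w203 : WW := ⟨.s (.a (.i (.a (.s (.a (.s (.a (.i (.a (.s (.a (.s (.a (.s (.a (.i (.a (.i (.a (.s (.a (.e)))))))))))))))))))))), fun m x => (Nat.land (Nat.shiftRight (Nat.shiftRight m (nat_lit 34)) (Nat.land (Nat.shiftRight m (Nat.land (Nat.shiftRight (Nat.shiftRight m (nat_lit 34)) (Nat.land (Nat.shiftRight (Nat.shiftRight m (nat_lit 17)) (Nat.land (Nat.shiftRight (Nat.shiftRight m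
  (nat_lit 34)) (Nat.land (Nat.shiftRight (Nat.shiftRight m (nat_lit 17)) (Nat.land (Nat.shiftRight (Nat.shiftRight m (nat_lit 34)) (Nat.land (Nat.shiftRight m (Nat.land (Nat.shiftRight (Nat.shiftRight m (nat_lit 34)) (Nat.land (Nat.shiftRight m (Nat.land (Nat.shiftRight (Nat.shiftRight m (nat_lit 34)) (Nat.land (Nat.shiftRight m (Nat.land (Nat.shiftRight (Nat.shiftRight m (nat_lit 34)) (Nat.land (Nat.shiftRight
  (Nat.shiftRight m (nat_lit 17)) (Nat.land (Nat.shiftRight (Nat.shiftRight m (nat_lit 34)) (Nat.land (Nat.shiftRight m (Nat.land (Nat.shiftRight (Nat.shiftRight m (nat_lit 34)) (Nat.land (Nat.shiftRight m (Nat.land (Nat.shiftRight (Nat.shiftRight m (nat_lit 34)) (Nat.land (Nat.shiftRight (Nat.shiftRight m (nat_lit 17)) (Nat.land (Nat.shiftRight (Nat.shiftRight m (nat_lit 34)) (Nat.land x (nat_lit 131071)))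
  (nat_lit 131071))) (nat_lit 131071))) (nat_lit 131071))) (nat_lit 131071))) (nat_lit 131071))) (nat_lit 131071))) (nat_lit 131071))) (nat_lit 131071))) (nat_lit 131071))) (nat_lit 131071))) (nat_lit 131071))) (nat_lit 131071))) (nat_lit 131071))) (nat_lit 131071))) (nat_lit 131071))) (nat_lit 131071))) (nat_lit 131071))) (nat_lit 131071))) (nat_lit 131071))) (nat_lit 131071))) (nat_lit 131071)), rfl⟩
noncomputable def w204 : WW := ⟨.s (.a (.i (.a (.i (.a (.s (.a (.s (.a (.s (.a (.e)))))))))))), fun m x => (Nat.land (Nat.shiftRight (Nat.shiftRight m (nat_lit 34)) (Nat.land (Nat.shiftRight m (Nat.land (Nat.shiftRight (Nat.shiftRight m (nat_lit 34)) (Nat.land (Nat.shiftRight m (Nat.land (Nat.shiftRight (Nat.shiftRight m (nat_lit 34)) (Nat.land (Nat.shiftRight m (Nat.land (Nat.shiftRight (Nat.shiftRight m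
  (nat_lit 34)) (Nat.land (Nat.shiftRight (Nat.shiftRight m (nat_lit 17)) (Nat.land (Nat.shiftRight (Nat.shiftRight m (nat_lit 34)) (Nat.land (Nat.shiftRight (Nat.shiftRight m (nat_lit 17)) (Nat.land (Nat.shiftRight (Nat.shiftRight m (nat_lit 34)) (Nat.land x (nat_lit 131071))) (nat_lit 131071))) (nat_lit 131071))) (nat_lit 131071))) (nat_lit 131071))) (nat_lit 131071))) (nat_lit 131071))) (nat_lit 131071))) (nat_lit 131071))) (nat_lit 131071))) (nat_lit 131071))) (nat_lit 131071)), rfl⟩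
noncomputable def w205 : WW := ⟨.a (.i (.a (.s (.a (.i (.a (.s (.s (.a (.s (.a (.i (.e))))))))))))), fun m x => (Nat.land (Nat.shiftRight (Nat.shiftRight m (nat_lit 17)) (Nat.land (Nat.shiftRight (Nat.shiftRight m (nat_lit 34)) (Nat.land (Nat.shiftRight m (Nat.land (Nat.shiftRight (Nat.shiftRight m (nat_lit 34)) (Nat.land (Nat.shiftRight m (Nat.land (Nat.shiftRight m (Nat.land (Nat.shiftRight (Nat.shiftRight m
  (nat_lit 34)) (Nat.land (Nat.shiftRight (Nat.shiftRight m (nat_lit 17)) (Nat.land (Nat.shiftRight (Nat.shiftRight m (nat_lit 34)) (Nat.land (Nat.shiftRight m (Nat.land (Nat.shiftRight (Nat.shiftRight m (nat_lit 34)) (Nat.land (Nat.shiftRight (Nat.shiftRight m (nat_lit 17)) (Nat.land (Nat.shiftRight x (nat_lit 34)) (nat_lit 131071))) (nat_lit 131071))) (nat_lit 131071))) (nat_lit 131071))) (nat_lit 131071))) (nat_lit 131071))) (nat_lit 131071))) (nat_lit 131071))) (nat_lit 131071))) (nat_lit 131071))) (nat_lit 131071))) (nat_lit 131071))) (nat_lit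 131071)), rfl⟩
noncomputable def w206 : WW := ⟨.s (.a (.s (.a (.i (.a (.s (.a (.i (.a (.s (.a (.s (.a (.s (.a (.s (.a (.i (.a (.s (.a (.s (.a (.s (.a (.i (.a (.i (.a (.i (.e))))))))))))))))))))))))))))))), fun m x => (Nat.land (Nat.shiftRight (Nat.shiftRight m (nat_lit 17)) (Nat.land (Nat.shiftRight (Nat.shiftRight m (nat_lit 34)) (Nat.land (Nat.shiftRight (Nat.shiftRight m (nat_lit 17)) (Nat.land (Nat.shiftRight
  (Nat.shiftRight m (nat_lit 34)) (Nat.land (Nat.shiftRight (Nat.shiftRight m (nat_lit 17)) (Nat.land (Nat.shiftRight (Nat.shiftRight m (nat_lit 34)) (Nat.land (Nat.shiftRight m (Nat.land (Nat.shiftRight (Nat.shiftRight m (nat_lit 34)) (Nat.land (Nat.shiftRight m (Nat.land (Nat.shiftRight (Nat.shiftRight m (nat_lit 34)) (Nat.land (Nat.shiftRight m (Nat.land (Nat.shiftRight (Nat.shiftRight m (nat_lit 34))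
  (Nat.land (Nat.shiftRight (Nat.shiftRight m (nat_lit 17)) (Nat.land (Nat.shiftRight (Nat.shiftRight m (nat_lit 34)) (Nat.land (Nat.shiftRight m (Nat.land (Nat.shiftRight (Nat.shiftRight m (nat_lit 34)) (Nat.land (Nat.shiftRight m (Nat.land (Nat.shiftRight (Nat.shiftRight m (nat_lit 34)) (Nat.land (Nat.shiftRight m (Nat.land (Nat.shiftRight (Nat.shiftRight m (nat_lit 34)) (Nat.land (Nat.shiftRight m
  (Nat.land (Nat.shiftRight (Nat.shiftRight m (nat_lit 34)) (Nat.land (Nat.shiftRight (Nat.shiftRight m (nat_lit 17)) (Nat.land (Nat.shiftRight (Nat.shiftRight m (nat_lit 34)) (Nat.land (Nat.shiftRight m (Nat.land (Nat.shiftRight (Nat.shiftRight m (nat_lit 34)) (Nat.land (Nat.shiftRight (Nat.shiftRight m (nat_lit 17)) (Nat.land (Nat.shiftRight (Nat.shiftRight m (nat_lit 34)) (Nat.land (Nat.shiftRight m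
  (Nat.land (Nat.shiftRight (Nat.shiftRight m (nat_lit 34)) (Nat.land x (nat_lit 131071))) (nat_lit 131071))) (nat_lit 131071))) (nat_lit 131071))) (nat_lit 131071))) (nat_lit 131071))) (nat_lit 131071))) (nat_lit 131071))) (nat_lit 131071))) (nat_lit 131071))) (nat_lit 131071))) (nat_lit 131071))) (nat_lit 131071))) (nat_lit 131071))) (nat_lit 131071))) (nat_lit 131071))) (nat_lit 131071))) (nat_lit 131071))) (nat_lit 131071))) (nat_lit 131071))) (nat_lit 131071))) (nat_lit 131071))) (nat_lit 131071))) (nat_lit 131071))) (nat_lit 131071))) (nat_lit 131071))) (nat_lit 131071))) (nat_lit 131071))) (nat_lit 131071))) (nat_lit 131071))) (nat_lit 131071)), rfl⟩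
noncomputable def w207 : WW := ⟨.s (.a (.i (.a (.s (.a (.i (.a (.s (.a (.s (.a (.s (.a (.e)))))))))))))), fun m x => (Nat.land (Nat.shiftRight (Nat.shiftRight m (nat_lit 34)) (Nat.land (Nat.shiftRight m (Nat.land (Nat.shiftRight (Nat.shiftRight m (nat_lit 34)) (Nat.land (Nat.shiftRight m (Nat.land (Nat.shiftRight (Nat.shiftRight m (nat_lit 34)) (Nat.land (Nat.shiftRight m (Nat.land (Nat.shiftRight
  (Nat.shiftRight m (nat_lit 34)) (Nat.land (Nat.shiftRight (Nat.shiftRight m (nat_lit 17)) (Nat.land (Nat.shiftRight (Nat.shiftRight m (nat_lit 34)) (Nat.land (Nat.shiftRight m (Nat.land (Nat.shiftRight (Nat.shiftRight m (nat_lit 34)) (Nat.land (Nat.shiftRight (Nat.shiftRight m (nat_lit 17)) (Nat.land (Nat.shiftRight (Nat.shiftRight m (nat_lit 34)) (Nat.land x (nat_lit 131071))) (nat_lit 131071))) (nat_lit 131071))) (nat_lit 131071))) (nat_lit 131071))) (nat_lit 131071))) (nat_lit 131071))) (nat_lit 131071))) (nat_lit 131071))) (nat_lit 131071))) (nat_lit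 131071))) (nat_lit 131071))) (nat_lit 131071))) (nat_lit 131071)), rfl⟩
noncomputable def w208 : WW := ⟨.s (.a (.s (.a (.i (.i (.a (.s (.a (.s (.a (.e))))))))))), fun m x => (Nat.land (Nat.shiftRight (Nat.shiftRight m (nat_lit 34)) (Nat.land (Nat.shiftRight m (Nat.land (Nat.shiftRight (Nat.shiftRight m (nat_lit 34)) (Nat.land (Nat.shiftRight m (Nat.land (Nat.shiftRight (Nat.shiftRight m (nat_lit 34)) (Nat.land (Nat.shiftRight (Nat.shiftRight m (nat_lit 17)) (Nat.land (Nat.shiftRight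
  (Nat.shiftRight m (nat_lit 17)) (Nat.land (Nat.shiftRight (Nat.shiftRight m (nat_lit 34)) (Nat.land (Nat.shiftRight m (Nat.land (Nat.shiftRight (Nat.shiftRight m (nat_lit 34)) (Nat.land x (nat_lit 131071))) (nat_lit 131071))) (nat_lit 131071))) (nat_lit 131071))) (nat_lit 131071))) (nat_lit 131071))) (nat_lit 131071))) (nat_lit 131071))) (nat_lit 131071))) (nat_lit 131071))) (nat_lit 131071)), rfl⟩
noncomputable def w209 : WW := ⟨.s (.a (.i (.a (.s (.a (.s (.a (.i (.i (.a (.s (.a (.s (.a (.e))))))))))))))), fun m x => (Nat.land (Nat.shiftRight (Nat.shiftRight m (nat_lit 34)) (Nat.land (Nat.shiftRight m (Nat.land (Nat.shiftRight (Nat.shiftRight m (nat_lit 34)) (Nat.land (Nat.shiftRight m (Nat.land (Nat.shiftRight (Nat.shiftRight m (nat_lit 34)) (Nat.land (Nat.shiftRight (Nat.shiftRight m (nat_lit 17))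
  (Nat.land (Nat.shiftRight (Nat.shiftRight m (nat_lit 17)) (Nat.land (Nat.shiftRight (Nat.shiftRight m (nat_lit 34)) (Nat.land (Nat.shiftRight m (Nat.land (Nat.shiftRight (Nat.shiftRight m (nat_lit 34)) (Nat.land (Nat.shiftRight m (Nat.land (Nat.shiftRight (Nat.shiftRight m (nat_lit 34)) (Nat.land (Nat.shiftRight (Nat.shiftRight m (nat_lit 17)) (Nat.land (Nat.shiftRight (Nat.shiftRight m (nat_lit 34)) (Nat.land x (nat_lit 131071))) (nat_lit 131071))) (nat_lit 131071))) (nat_lit 131071))) (nat_lit 131071))) (nat_lit 131071))) (nat_lit 131071))) (nat_lit 131071))) (nat_lit 131071))) (nat_lit 131071))) (nat_lit 131071))) (nat_lit 131071))) (nat_lit 131071))) (nat_lit 131071))) (nat_lit 131071)), rfl⟩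
noncomputable def w210 : WW := ⟨.s (.a (.s (.a (.s (.a (.i (.a (.s (.a (.s (.a (.i (.a (.i (.a (.i (.a (.i (.a (.s (.a (.i (.a (.s (.a (.i (.e))))))))))))))))))))))))))), fun m x => (Nat.land (Nat.shiftRight (Nat.shiftRight m (nat_lit 17)) (Nat.land (Nat.shiftRight (Nat.shiftRight m (nat_lit 34)) (Nat.land (Nat.shiftRight m (Nat.land (Nat.shiftRight (Nat.shiftRight m (nat_lit 34)) (Nat.land (Nat.shiftRight
  (Nat.shiftRight m (nat_lit 17)) (Nat.land (Nat.shiftRight (Nat.shiftRight m (nat_lit 34)) (Nat.land (Nat.shiftRight m (Nat.land (Nat.shiftRight (Nat.shiftRight m (nat_lit 34)) (Nat.land (Nat.shiftRight (Nat.shiftRight m (nat_lit 17)) (Nat.land (Nat.shiftRight (Nat.shiftRight m (nat_lit 34)) (Nat.land (Nat.shiftRight (Nat.shiftRight m (nat_lit 17)) (Nat.land (Nat.shiftRight (Nat.shiftRight m (nat_lit 34))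
  (Nat.land (Nat.shiftRight (Nat.shiftRight m (nat_lit 17)) (Nat.land (Nat.shiftRight (Nat.shiftRight m (nat_lit 34)) (Nat.land (Nat.shiftRight (Nat.shiftRight m (nat_lit 17)) (Nat.land (Nat.shiftRight (Nat.shiftRight m (nat_lit 34)) (Nat.land (Nat.shiftRight m (Nat.land (Nat.shiftRight (Nat.shiftRight m (nat_lit 34)) (Nat.land (Nat.shiftRight m (Nat.land (Nat.shiftRight (Nat.shiftRight m (nat_lit 34))
  (Nat.land (Nat.shiftRight (Nat.shiftRight m (nat_lit 17)) (Nat.land (Nat.shiftRight (Nat.shiftRight m (nat_lit 34)) (Nat.land (Nat.shiftRight m (Nat.land (Nat.shiftRight (Nat.shiftRight m (nat_lit 34)) (Nat.land (Nat.shiftRight m (Nat.land (Nat.shiftRight (Nat.shiftRight m (nat_lit 34)) (Nat.land x (nat_lit 131071))) (nat_lit 131071))) (nat_lit 131071))) (nat_lit 131071))) (nat_lit 131071))) (nat_lit 131071)))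
  (nat_lit 131071))) (nat_lit 131071))) (nat_lit 131071))) (nat_lit 131071))) (nat_lit 131071))) (nat_lit 131071))) (nat_lit 131071))) (nat_lit 131071))) (nat_lit 131071))) (nat_lit 131071))) (nat_lit 131071))) (nat_lit 131071))) (nat_lit 131071))) (nat_lit 131071))) (nat_lit 131071))) (nat_lit 131071))) (nat_lit 131071))) (nat_lit 131071))) (nat_lit 131071))) (nat_lit 131071))) (nat_lit 131071)), rfl⟩
noncomputable def w211 : WW := ⟨.s (.a (.i (.a (.i (.a (.s (.a (.s (.a (.s (.a (.i (.a (.s (.a (.s (.a (.i (.a (.s (.a (.e)))))))))))))))))))))), fun m x => (Nat.land (Nat.shiftRight (Nat.shiftRight m (nat_lit 34)) (Nat.land (Nat.shiftRight m (Nat.land (Nat.shiftRight (Nat.shiftRight m (nat_lit 34)) (Nat.land (Nat.shiftRight (Nat.shiftRight m (nat_lit 17)) (Nat.land (Nat.shiftRight (Nat.shiftRight m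
  (nat_lit 34)) (Nat.land (Nat.shiftRight m (Nat.land (Nat.shiftRight (Nat.shiftRight m (nat_lit 34)) (Nat.land (Nat.shiftRight m (Nat.land (Nat.shiftRight (Nat.shiftRight m (nat_lit 34)) (Nat.land (Nat.shiftRight (Nat.shiftRight m (nat_lit 17)) (Nat.land (Nat.shiftRight (Nat.shiftRight m (nat_lit 34)) (Nat.land (Nat.shiftRight m (Nat.land (Nat.shiftRight (Nat.shiftRight m (nat_lit 34)) (Nat.land (Nat.shiftRight m
  (Nat.land (Nat.shiftRight (Nat.shiftRight m (nat_lit 34)) (Nat.land (Nat.shiftRight m (Nat.land (Nat.shiftRight (Nat.shiftRight m (nat_lit 34)) (Nat.land (Nat.shiftRight (Nat.shiftRight m (nat_lit 17)) (Nat.land (Nat.shiftRight (Nat.shiftRight m (nat_lit 34)) (Nat.land (Nat.shiftRight (Nat.shiftRight m (nat_lit 17)) (Nat.land (Nat.shiftRight (Nat.shiftRight m (nat_lit 34)) (Nat.land x (nat_lit 131071)))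
  (nat_lit 131071))) (nat_lit 131071))) (nat_lit 131071))) (nat_lit 131071))) (nat_lit 131071))) (nat_lit 131071))) (nat_lit 131071))) (nat_lit 131071))) (nat_lit 131071))) (nat_lit 131071))) (nat_lit 131071))) (nat_lit 131071))) (nat_lit 131071))) (nat_lit 131071))) (nat_lit 131071))) (nat_lit 131071))) (nat_lit 131071))) (nat_lit 131071))) (nat_lit 131071))) (nat_lit 131071))) (nat_lit 131071)), rfl⟩
noncomputable def w212 : WW := ⟨.s (.a (.i (.a (.s (.a (.s (.a (.s (.a (.i (.a (.s (.a (.s (.a (.e)))))))))))))))), fun m x => (Nat.land (Nat.shiftRight (Nat.shiftRight m (nat_lit 34)) (Nat.land (Nat.shiftRight m (Nat.land (Nat.shiftRight (Nat.shiftRight m (nat_lit 34)) (Nat.land (Nat.shiftRight m (Nat.land (Nat.shiftRight (Nat.shiftRight m (nat_lit 34)) (Nat.land (Nat.shiftRight (Nat.shiftRight m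
  (nat_lit 17)) (Nat.land (Nat.shiftRight (Nat.shiftRight m (nat_lit 34)) (Nat.land (Nat.shiftRight m (Nat.land (Nat.shiftRight (Nat.shiftRight m (nat_lit 34)) (Nat.land (Nat.shiftRight m (Nat.land (Nat.shiftRight (Nat.shiftRight m (nat_lit 34)) (Nat.land (Nat.shiftRight m (Nat.land (Nat.shiftRight (Nat.shiftRight m (nat_lit 34)) (Nat.land (Nat.shiftRight (Nat.shiftRight m (nat_lit 17)) (Nat.land (Nat.shiftRight (Nat.shiftRight m (nat_lit 34)) (Nat.land x (nat_lit 131071))) (nat_lit 131071))) (nat_lit 131071))) (nat_lit 131071))) (nat_lit 131071))) (nat_lit 131071))) (nat_lit 131071))) (nat_lit 131071))) (nat_lit 131071))) (nat_lit 131071))) (nat_lit 131071))) (nat_lit 131071))) (nat_lit 131071))) (nat_lit 131071))) (nat_lit 131071))) (nat_lit 131071)), rfl⟩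
noncomputable def w213 : WW := ⟨.i (.a (.i (.a (.s (.a (.s (.a (.e)))))))), fun m x => (Nat.land (Nat.shiftRight (Nat.shiftRight m (nat_lit 34)) (Nat.land (Nat.shiftRight m (Nat.land (Nat.shiftRight (Nat.shiftRight m (nat_lit 34)) (Nat.land (Nat.shiftRight m (Nat.land (Nat.shiftRight (Nat.shiftRight m (nat_lit 34)) (Nat.land (Nat.shiftRight (Nat.shiftRight m (nat_lit 17)) (Nat.land (Nat.shiftRight (Nat.shiftRight m (nat_lit 34)) (Nat.land (Nat.shiftRight x (nat_lit 17)) (nat_lit 131071))) (nat_lit 131071))) (nat_lit 131071))) (nat_lit 131071))) (nat_lit 131071))) (nat_lit 131071))) (nat_lit 131071))) (nat_lit 131071)), rfl⟩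
noncomputable def w214 : WW := ⟨.a (.s (.a (.s (.a (.i (.a (.i (.e)))))))), fun m x => (Nat.land (Nat.shiftRight (Nat.shiftRight m (nat_lit 17)) (Nat.land (Nat.shiftRight (Nat.shiftRight m (nat_lit 34)) (Nat.land (Nat.shiftRight (Nat.shiftRight m (nat_lit 17)) (Nat.land (Nat.shiftRight (Nat.shiftRight m (nat_lit 34)) (Nat.land (Nat.shiftRight m (Nat.land (Nat.shiftRight (Nat.shiftRight m (nat_lit 34)) (Nat.land (Nat.shiftRight m (Nat.land (Nat.shiftRight x (nat_lit 34)) (nat_lit 131071))) (nat_lit 131071))) (nat_lit 131071))) (nat_lit 131071))) (nat_lit 131071))) (nat_lit 131071))) (nat_lit 131071))) (nat_lit 131071)), rfl⟩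
noncomputable def w215 : WW := ⟨.s (.a (.i (.a (.s (.a (.s (.a (.i (.a (.i (.e))))))))))), fun m x => (Nat.land (Nat.shiftRight (Nat.shiftRight m (nat_lit 17)) (Nat.land (Nat.shiftRight (Nat.shiftRight m (nat_lit 34)) (Nat.land (Nat.shiftRight (Nat.shiftRight m (nat_lit 17)) (Nat.land (Nat.shiftRight (Nat.shiftRight m (nat_lit 34)) (Nat.land (Nat.shiftRight m (Nat.land (Nat.shiftRight (Nat.shiftRight m
  (nat_lit 34)) (Nat.land (Nat.shiftRight m (Nat.land (Nat.shiftRight (Nat.shiftRight m (nat_lit 34)) (Nat.land (Nat.shiftRight (Nat.shiftRight m (nat_lit 17)) (Nat.land (Nat.shiftRight (Nat.shiftRight m (nat_lit 34)) (Nat.land x (nat_lit 131071))) (nat_lit 131071))) (nat_lit 131071))) (nat_lit 131071))) (nat_lit 131071))) (nat_lit 131071))) (nat_lit 131071))) (nat_lit 131071))) (nat_lit 131071))) (nat_lit 131071))) (nat_lit 131071)), rfl⟩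
noncomputable def w216 : WW := ⟨.a (.s (.a (.i (.a (.i (.a (.i (.a (.s (.a (.s (.a (.i (.e)))))))))))))), fun m x => (Nat.land (Nat.shiftRight (Nat.shiftRight m (nat_lit 17)) (Nat.land (Nat.shiftRight (Nat.shiftRight m (nat_lit 34)) (Nat.land (Nat.shiftRight m (Nat.land (Nat.shiftRight (Nat.shiftRight m (nat_lit 34)) (Nat.land (Nat.shiftRight m (Nat.land (Nat.shiftRight (Nat.shiftRight m (nat_lit 34))
  (Nat.land (Nat.shiftRight (Nat.shiftRight m (nat_lit 17)) (Nat.land (Nat.shiftRight (Nat.shiftRight m (nat_lit 34)) (Nat.land (Nat.shiftRight (Nat.shiftRight m (nat_lit 17)) (Nat.land (Nat.shiftRight (Nat.shiftRight m (nat_lit 34)) (Nat.land (Nat.shiftRight (Nat.shiftRight m (nat_lit 17)) (Nat.land (Nat.shiftRight (Nat.shiftRight m (nat_lit 34)) (Nat.land (Nat.shiftRight m (Nat.land (Nat.shiftRight x (nat_lit 34)) (nat_lit 131071))) (nat_lit 131071))) (nat_lit 131071))) (nat_lit 131071))) (nat_lit 131071))) (nat_lit 131071))) (nat_lit 131071))) (nat_lit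 131071))) (nat_lit 131071))) (nat_lit 131071))) (nat_lit 131071))) (nat_lit 131071))) (nat_lit 131071))) (nat_lit 131071)), rfl⟩
noncomputable def w217 : WW := ⟨.a (.i (.a (.s (.s (.a (.s (.a (.i (.a (.s (.a (.e)))))))))))), fun m x => (Nat.land (Nat.shiftRight (Nat.shiftRight m (nat_lit 34)) (Nat.land (Nat.shiftRight m (Nat.land (Nat.shiftRight (Nat.shiftRight m (nat_lit 34)) (Nat.land (Nat.shiftRight (Nat.shiftRight m (nat_lit 17)) (Nat.land (Nat.shiftRight (Nat.shiftRight m (nat_lit 34)) (Nat.land (Nat.shiftRight m (Nat.land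
  (Nat.shiftRight (Nat.shiftRight m (nat_lit 34)) (Nat.land (Nat.shiftRight m (Nat.land (Nat.shiftRight m (Nat.land (Nat.shiftRight (Nat.shiftRight m (nat_lit 34)) (Nat.land (Nat.shiftRight (Nat.shiftRight m (nat_lit 17)) (Nat.land (Nat.shiftRight x (nat_lit 34)) (nat_lit 131071))) (nat_lit 131071))) (nat_lit 131071))) (nat_lit 131071))) (nat_lit 131071))) (nat_lit 131071))) (nat_lit 131071))) (nat_lit 131071))) (nat_lit 131071))) (nat_lit 131071))) (nat_lit 131071))) (nat_lit 131071)), rfl⟩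
noncomputable def w218 : WW := ⟨.i (.a (.s (.a (.s (.a (.s (.a (.i (.a (.s (.a (.e)))))))))))), fun m x => (Nat.land (Nat.shiftRight (Nat.shiftRight m (nat_lit 34)) (Nat.land (Nat.shiftRight m (Nat.land (Nat.shiftRight (Nat.shiftRight m (nat_lit 34)) (Nat.land (Nat.shiftRight (Nat.shiftRight m (nat_lit 17)) (Nat.land (Nat.shiftRight (Nat.shiftRight m (nat_lit 34)) (Nat.land (Nat.shiftRight m (Nat.land
  (Nat.shiftRight (Nat.shiftRight m (nat_lit 34)) (Nat.land (Nat.shiftRight m (Nat.land (Nat.shiftRight (Nat.shiftRight m (nat_lit 34)) (Nat.land (Nat.shiftRight m (Nat.land (Nat.shiftRight (Nat.shiftRight m (nat_lit 34)) (Nat.land (Nat.shiftRight x (nat_lit 17)) (nat_lit 131071))) (nat_lit 131071))) (nat_lit 131071))) (nat_lit 131071))) (nat_lit 131071))) (nat_lit 131071))) (nat_lit 131071))) (nat_lit 131071))) (nat_lit 131071))) (nat_lit 131071))) (nat_lit 131071))) (nat_lit 131071)), rfl⟩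
noncomputable def w219 : WW := ⟨.s (.a (.s (.s (.a (.i (.a (.i (.a (.s (.a (.i (.a (.i (.a (.i (.e)))))))))))))))), fun m x => (Nat.land (Nat.shiftRight (Nat.shiftRight m (nat_lit 17)) (Nat.land (Nat.shiftRight (Nat.shiftRight m (nat_lit 34)) (Nat.land (Nat.shiftRight (Nat.shiftRight m (nat_lit 17)) (Nat.land (Nat.shiftRight (Nat.shiftRight m (nat_lit 34)) (Nat.land (Nat.shiftRight (Nat.shiftRight m
  (nat_lit 17)) (Nat.land (Nat.shiftRight (Nat.shiftRight m (nat_lit 34)) (Nat.land (Nat.shiftRight m (Nat.land (Nat.shiftRight (Nat.shiftRight m (nat_lit 34)) (Nat.land (Nat.shiftRight (Nat.shiftRight m (nat_lit 17)) (Nat.land (Nat.shiftRight (Nat.shiftRight m (nat_lit 34)) (Nat.land (Nat.shiftRight (Nat.shiftRight m (nat_lit 17)) (Nat.land (Nat.shiftRight (Nat.shiftRight m (nat_lit 34)) (Nat.land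
  (Nat.shiftRight m (Nat.land (Nat.shiftRight m (Nat.land (Nat.shiftRight (Nat.shiftRight m (nat_lit 34)) (Nat.land x (nat_lit 131071))) (nat_lit 131071))) (nat_lit 131071))) (nat_lit 131071))) (nat_lit 131071))) (nat_lit 131071))) (nat_lit 131071))) (nat_lit 131071))) (nat_lit 131071))) (nat_lit 131071))) (nat_lit 131071))) (nat_lit 131071))) (nat_lit 131071))) (nat_lit 131071))) (nat_lit 131071))) (nat_lit 131071)), rfl⟩
noncomputable def w220 : WW := ⟨.s (.a (.s (.a (.i (.a (.i (.a (.s (.a (.s (.a (.s (.a (.s (.a (.i (.a (.s (.a (.i (.a (.s (.a (.s (.a (.s (.a (.s (.a (.i (.a (.i (.a (.s (.a (.s (.a (.e)))))))))))))))))))))))))))))))))))))), fun m x => (Nat.land (Nat.shiftRight (Nat.shiftRight m (nat_lit 34)) (Nat.land (Nat.shiftRight m (Nat.land (Nat.shiftRight (Nat.shiftRight m (nat_lit 34)) (Nat.land (Nat.shiftRight m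
  (Nat.land (Nat.shiftRight (Nat.shiftRight m (nat_lit 34)) (Nat.land (Nat.shiftRight (Nat.shiftRight m (nat_lit 17)) (Nat.land (Nat.shiftRight (Nat.shiftRight m (nat_lit 34)) (Nat.land (Nat.shiftRight (Nat.shiftRight m (nat_lit 17)) (Nat.land (Nat.shiftRight (Nat.shiftRight m (nat_lit 34)) (Nat.land (Nat.shiftRight m (Nat.land (Nat.shiftRight (Nat.shiftRight m (nat_lit 34)) (Nat.land (Nat.shiftRight m
  (Nat.land (Nat.shiftRight (Nat.shiftRight m (nat_lit 34)) (Nat.land (Nat.shiftRight m (Nat.land (Nat.shiftRight (Nat.shiftRight m (nat_lit 34)) (Nat.land (Nat.shiftRight m (Nat.land (Nat.shiftRight (Nat.shiftRight m (nat_lit 34)) (Nat.land (Nat.shiftRight (Nat.shiftRight m (nat_lit 17)) (Nat.land (Nat.shiftRight (Nat.shiftRight m (nat_lit 34)) (Nat.land (Nat.shiftRight m (Nat.land (Nat.shiftRight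
  (Nat.shiftRight m (nat_lit 34)) (Nat.land (Nat.shiftRight (Nat.shiftRight m (nat_lit 17)) (Nat.land (Nat.shiftRight (Nat.shiftRight m (nat_lit 34)) (Nat.land (Nat.shiftRight m (Nat.land (Nat.shiftRight (Nat.shiftRight m (nat_lit 34)) (Nat.land (Nat.shiftRight m (Nat.land (Nat.shiftRight (Nat.shiftRight m (nat_lit 34)) (Nat.land (Nat.shiftRight m (Nat.land (Nat.shiftRight (Nat.shiftRight m (nat_lit 34))
  (Nat.land (Nat.shiftRight m (Nat.land (Nat.shiftRight (Nat.shiftRight m (nat_lit 34)) (Nat.land (Nat.shiftRight (Nat.shiftRight m (nat_lit 17)) (Nat.land (Nat.shiftRight (Nat.shiftRight m (nat_lit 34)) (Nat.land (Nat.shiftRight (Nat.shiftRight m (nat_lit 17)) (Nat.land (Nat.shiftRight (Nat.shiftRight m (nat_lit 34)) (Nat.land (Nat.shiftRight m (Nat.land (Nat.shiftRight (Nat.shiftRight m (nat_lit 34))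
  (Nat.land x (nat_lit 131071))) (nat_lit 131071))) (nat_lit 131071))) (nat_lit 131071))) (nat_lit 131071))) (nat_lit 131071))) (nat_lit 131071))) (nat_lit 131071))) (nat_lit 131071))) (nat_lit 131071))) (nat_lit 131071))) (nat_lit 131071))) (nat_lit 131071))) (nat_lit 131071))) (nat_lit 131071))) (nat_lit 131071))) (nat_lit 131071))) (nat_lit 131071))) (nat_lit 131071))) (nat_lit 131071))) (nat_lit 131071))) (nat_lit 131071))) (nat_lit 131071))) (nat_lit 131071))) (nat_lit 131071))) (nat_lit 131071))) (nat_lit 131071))) (nat_lit 131071))) (nat_lit 131071))) (nat_lit 131071))) (nat_lit 131071))) (nat_lit 131071))) (nat_lit 131071))) (nat_lit 131071))) (nat_lit 131071))) (nat_lit 131071))) (nat_lit 131071))) (nat_lit 131071)), rfl⟩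
noncomputable def w221 : WW := ⟨.s (.a (.s (.a (.i (.a (.s (.a (.i (.a (.s (.a (.s (.a (.s (.a (.s (.a (.i (.a (.i (.a (.s (.a (.s (.a (.s (.a (.s (.a (.i (.a (.s (.a (.i (.a (.s (.a (.s (.a (.e)))))))))))))))))))))))))))))))))))))))), fun m x => (Nat.land (Nat.shiftRight (Nat.shiftRight m (nat_lit 34)) (Nat.land (Nat.shiftRight m (Nat.land (Nat.shiftRight (Nat.shiftRight m (nat_lit 34)) (Nat.land
  (Nat.shiftRight m (Nat.land (Nat.shiftRight (Nat.shiftRight m (nat_lit 34)) (Nat.land (Nat.shiftRight (Nat.shiftRight m (nat_lit 17)) (Nat.land (Nat.shiftRight (Nat.shiftRight m (nat_lit 34)) (Nat.land (Nat.shiftRight m (Nat.land (Nat.shiftRight (Nat.shiftRight m (nat_lit 34)) (Nat.land (Nat.shiftRight (Nat.shiftRight m (nat_lit 17)) (Nat.land (Nat.shiftRight (Nat.shiftRight m (nat_lit 34)) (Nat.land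
  (Nat.shiftRight m (Nat.land (Nat.shiftRight (Nat.shiftRight m (nat_lit 34)) (Nat.land (Nat.shiftRight m (Nat.land (Nat.shiftRight (Nat.shiftRight m (nat_lit 34)) (Nat.land (Nat.shiftRight m (Nat.land (Nat.shiftRight (Nat.shiftRight m (nat_lit 34)) (Nat.land (Nat.shiftRight m (Nat.land (Nat.shiftRight (Nat.shiftRight m (nat_lit 34)) (Nat.land (Nat.shiftRight (Nat.shiftRight m (nat_lit 17)) (Nat.land
  (Nat.shiftRight (Nat.shiftRight m (nat_lit 34)) (Nat.land (Nat.shiftRight (Nat.shiftRight m (nat_lit 17)) (Nat.land (Nat.shiftRight (Nat.shiftRight m (nat_lit 34)) (Nat.land (Nat.shiftRight m (Nat.land (Nat.shiftRight (Nat.shiftRight m (nat_lit 34)) (Nat.land (Nat.shiftRight m (Nat.land (Nat.shiftRight (Nat.shiftRight m (nat_lit 34)) (Nat.land (Nat.shiftRight m (Nat.land (Nat.shiftRight (Nat.shiftRight m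
  (nat_lit 34)) (Nat.land (Nat.shiftRight m (Nat.land (Nat.shiftRight (Nat.shiftRight m (nat_lit 34)) (Nat.land (Nat.shiftRight (Nat.shiftRight m (nat_lit 17)) (Nat.land (Nat.shiftRight (Nat.shiftRight m (nat_lit 34)) (Nat.land (Nat.shiftRight m (Nat.land (Nat.shiftRight (Nat.shiftRight m (nat_lit 34)) (Nat.land (Nat.shiftRight (Nat.shiftRight m (nat_lit 17)) (Nat.land (Nat.shiftRight (Nat.shiftRight m
  (nat_lit 34)) (Nat.land (Nat.shiftRight m (Nat.land (Nat.shiftRight (Nat.shiftRight m (nat_lit 34)) (Nat.land x (nat_lit 131071))) (nat_lit 131071))) (nat_lit 131071))) (nat_lit 131071))) (nat_lit 131071))) (nat_lit 131071))) (nat_lit 131071))) (nat_lit 131071))) (nat_lit 131071))) (nat_lit 131071))) (nat_lit 131071))) (nat_lit 131071))) (nat_lit 131071))) (nat_lit 131071))) (nat_lit 131071))) (nat_lit 131071)))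
  (nat_lit 131071))) (nat_lit 131071))) (nat_lit 131071))) (nat_lit 131071))) (nat_lit 131071))) (nat_lit 131071))) (nat_lit 131071))) (nat_lit 131071))) (nat_lit 131071))) (nat_lit 131071))) (nat_lit 131071))) (nat_lit 131071))) (nat_lit 131071))) (nat_lit 131071))) (nat_lit 131071))) (nat_lit 131071))) (nat_lit 131071))) (nat_lit 131071))) (nat_lit 131071))) (nat_lit 131071))) (nat_lit 131071))) (nat_lit 131071))) (nat_lit 131071))) (nat_lit 131071)), rfl⟩
noncomputable def w222 : WW := ⟨.a (.i (.a (.s (.a (.i (.a (.i (.a (.i (.a (.s (.e)))))))))))), fun m x => (Nat.land (Nat.shiftRight m (Nat.land (Nat.shiftRight (Nat.shiftRight m (nat_lit 34)) (Nat.land (Nat.shiftRight (Nat.shiftRight m (nat_lit 17)) (Nat.land (Nat.shiftRight (Nat.shiftRight m (nat_lit 34)) (Nat.land (Nat.shiftRight (Nat.shiftRight m (nat_lit 17)) (Nat.land (Nat.shiftRight (Nat.shiftRight m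
  (nat_lit 34)) (Nat.land (Nat.shiftRight (Nat.shiftRight m (nat_lit 17)) (Nat.land (Nat.shiftRight (Nat.shiftRight m (nat_lit 34)) (Nat.land (Nat.shiftRight m (Nat.land (Nat.shiftRight (Nat.shiftRight m (nat_lit 34)) (Nat.land (Nat.shiftRight (Nat.shiftRight m (nat_lit 17)) (Nat.land (Nat.shiftRight x (nat_lit 34)) (nat_lit 131071))) (nat_lit 131071))) (nat_lit 131071))) (nat_lit 131071))) (nat_lit 131071))) (nat_lit 131071))) (nat_lit 131071))) (nat_lit 131071))) (nat_lit 131071))) (nat_lit 131071))) (nat_lit 131071))) (nat_lit 131071)), rfl⟩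
noncomputable def w223 : WW := ⟨.s (.a (.i (.a (.i (.a (.s (.a (.s (.a (.s (.a (.s (.a (.i (.a (.s (.a (.s (.a (.i (.a (.s (.a (.s (.a (.s (.a (.i (.a (.i (.a (.s (.a (.s (.a (.e)))))))))))))))))))))))))))))))))))), fun m x => (Nat.land (Nat.shiftRight (Nat.shiftRight m (nat_lit 34)) (Nat.land (Nat.shiftRight m (Nat.land (Nat.shiftRight (Nat.shiftRight m (nat_lit 34)) (Nat.land (Nat.shiftRight m (Nat.land
  (Nat.shiftRight (Nat.shiftRight m (nat_lit 34)) (Nat.land (Nat.shiftRight (Nat.shiftRight m (nat_lit 17)) (Nat.land (Nat.shiftRight (Nat.shiftRight m (nat_lit 34)) (Nat.land (Nat.shiftRight (Nat.shiftRight m (nat_lit 17)) (Nat.land (Nat.shiftRight (Nat.shiftRight m (nat_lit 34)) (Nat.land (Nat.shiftRight m (Nat.land (Nat.shiftRight (Nat.shiftRight m (nat_lit 34)) (Nat.land (Nat.shiftRight m (Nat.land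
  (Nat.shiftRight (Nat.shiftRight m (nat_lit 34)) (Nat.land (Nat.shiftRight m (Nat.land (Nat.shiftRight (Nat.shiftRight m (nat_lit 34)) (Nat.land (Nat.shiftRight (Nat.shiftRight m (nat_lit 17)) (Nat.land (Nat.shiftRight (Nat.shiftRight m (nat_lit 34)) (Nat.land (Nat.shiftRight m (Nat.land (Nat.shiftRight (Nat.shiftRight m (nat_lit 34)) (Nat.land (Nat.shiftRight m (Nat.land (Nat.shiftRight (Nat.shiftRight m
  (nat_lit 34)) (Nat.land (Nat.shiftRight (Nat.shiftRight m (nat_lit 17)) (Nat.land (Nat.shiftRight (Nat.shiftRight m (nat_lit 34)) (Nat.land (Nat.shiftRight m (Nat.land (Nat.shiftRight (Nat.shiftRight m (nat_lit 34)) (Nat.land (Nat.shiftRight m (Nat.land (Nat.shiftRight (Nat.shiftRight m (nat_lit 34)) (Nat.land (Nat.shiftRight m (Nat.land (Nat.shiftRight (Nat.shiftRight m (nat_lit 34)) (Nat.land (Nat.shiftRight m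
  (Nat.land (Nat.shiftRight (Nat.shiftRight m (nat_lit 34)) (Nat.land (Nat.shiftRight (Nat.shiftRight m (nat_lit 17)) (Nat.land (Nat.shiftRight (Nat.shiftRight m (nat_lit 34)) (Nat.land (Nat.shiftRight (Nat.shiftRight m (nat_lit 17)) (Nat.land (Nat.shiftRight (Nat.shiftRight m (nat_lit 34)) (Nat.land x (nat_lit 131071))) (nat_lit 131071))) (nat_lit 131071))) (nat_lit 131071))) (nat_lit 131071))) (nat_lit 131071)))
  (nat_lit 131071))) (nat_lit 131071))) (nat_lit 131071))) (nat_lit 131071))) (nat_lit 131071))) (nat_lit 131071))) (nat_lit 131071))) (nat_lit 131071))) (nat_lit 131071))) (nat_lit 131071))) (nat_lit 131071))) (nat_lit 131071))) (nat_lit 131071))) (nat_lit 131071))) (nat_lit 131071))) (nat_lit 131071))) (nat_lit 131071))) (nat_lit 131071))) (nat_lit 131071))) (nat_lit 131071))) (nat_lit 131071))) (nat_lit 131071))) (nat_lit 131071))) (nat_lit 131071))) (nat_lit 131071))) (nat_lit 131071))) (nat_lit 131071))) (nat_lit 131071))) (nat_lit 131071)))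 (nat_lit 131071)), rfl⟩
noncomputable def w224 : WW := ⟨.s (.a (.s (.a (.i (.a (.s (.a (.s (.a (.i (.e))))))))))), fun m x => (Nat.land (Nat.shiftRight (Nat.shiftRight m (nat_lit 17)) (Nat.land (Nat.shiftRight (Nat.shiftRight m (nat_lit 34)) (Nat.land (Nat.shiftRight m (Nat.land (Nat.shiftRight (Nat.shiftRight m (nat_lit 34)) (Nat.land (Nat.shiftRight m (Nat.land (Nat.shiftRight (Nat.shiftRight m (nat_lit 34)) (Nat.land (Nat.shiftRight
  (Nat.shiftRight m (nat_lit 17)) (Nat.land (Nat.shiftRight (Nat.shiftRight m (nat_lit 34)) (Nat.land (Nat.shiftRight m (Nat.land (Nat.shiftRight (Nat.shiftRight m (nat_lit 34)) (Nat.land x (nat_lit 131071))) (nat_lit 131071))) (nat_lit 131071))) (nat_lit 131071))) (nat_lit 131071))) (nat_lit 131071))) (nat_lit 131071))) (nat_lit 131071))) (nat_lit 131071))) (nat_lit 131071))) (nat_lit 131071)), rfl⟩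
noncomputable def w225 : WW := ⟨.s (.a (.s (.a (.s (.a (.i (.a (.s (.a (.s (.a (.i (.a (.i (.a (.i (.a (.i (.a (.s (.e))))))))))))))))))))), fun m x => (Nat.land (Nat.shiftRight m (Nat.land (Nat.shiftRight (Nat.shiftRight m (nat_lit 34)) (Nat.land (Nat.shiftRight (Nat.shiftRight m (nat_lit 17)) (Nat.land (Nat.shiftRight (Nat.shiftRight m (nat_lit 34)) (Nat.land (Nat.shiftRight (Nat.shiftRight m (nat_lit 17))
  (Nat.land (Nat.shiftRight (Nat.shiftRight m (nat_lit 34)) (Nat.land (Nat.shiftRight (Nat.shiftRight m (nat_lit 17)) (Nat.land (Nat.shiftRight (Nat.shiftRight m (nat_lit 34)) (Nat.land (Nat.shiftRight (Nat.shiftRight m (nat_lit 17)) (Nat.land (Nat.shiftRight (Nat.shiftRight m (nat_lit 34)) (Nat.land (Nat.shiftRight m (Nat.land (Nat.shiftRight (Nat.shiftRight m (nat_lit 34)) (Nat.land (Nat.shiftRight m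
  (Nat.land (Nat.shiftRight (Nat.shiftRight m (nat_lit 34)) (Nat.land (Nat.shiftRight (Nat.shiftRight m (nat_lit 17)) (Nat.land (Nat.shiftRight (Nat.shiftRight m (nat_lit 34)) (Nat.land (Nat.shiftRight m (Nat.land (Nat.shiftRight (Nat.shiftRight m (nat_lit 34)) (Nat.land (Nat.shiftRight m (Nat.land (Nat.shiftRight (Nat.shiftRight m (nat_lit 34)) (Nat.land x (nat_lit 131071))) (nat_lit 131071))) (nat_lit 131071))) (nat_lit 131071))) (nat_lit 131071))) (nat_lit 131071))) (nat_lit 131071))) (nat_lit 131071))) (nat_lit 131071))) (nat_lit 131071))) (nat_lit 131071))) (nat_lit 131071))) (nat_lit 131071))) (nat_lit 131071))) (nat_lit 131071))) (nat_lit 131071))) (nat_lit 131071))) (nat_lit 131071))) (nat_lit 131071))) (nat_lit 131071))) (nat_lit 131071)), rfl⟩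
noncomputable def w226 : WW := ⟨.s (.a (.i (.a (.s (.a (.s (.a (.i (.a (.s (.a (.s (.a (.e)))))))))))))), fun m x => (Nat.land (Nat.shiftRight (Nat.shiftRight m (nat_lit 34)) (Nat.land (Nat.shiftRight m (Nat.land (Nat.shiftRight (Nat.shiftRight m (nat_lit 34)) (Nat.land (Nat.shiftRight m (Nat.land (Nat.shiftRight (Nat.shiftRight m (nat_lit 34)) (Nat.land (Nat.shiftRight (Nat.shiftRight m (nat_lit 17))
  (Nat.land (Nat.shiftRight (Nat.shiftRight m (nat_lit 34)) (Nat.land (Nat.shiftRight m (Nat.land (Nat.shiftRight (Nat.shiftRight m (nat_lit 34)) (Nat.land (Nat.shiftRight m (Nat.land (Nat.shiftRight (Nat.shiftRight m (nat_lit 34)) (Nat.land (Nat.shiftRight (Nat.shiftRight m (nat_lit 17)) (Nat.land (Nat.shiftRight (Nat.shiftRight m (nat_lit 34)) (Nat.land x (nat_lit 131071))) (nat_lit 131071))) (nat_lit 131071))) (nat_lit 131071))) (nat_lit 131071))) (nat_lit 131071))) (nat_lit 131071))) (nat_lit 131071))) (nat_lit 131071))) (nat_lit 131071))) (nat_lit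 131071))) (nat_lit 131071))) (nat_lit 131071))) (nat_lit 131071)), rfl⟩
noncomputable def w227 : WW := ⟨.s (.a (.s (.a (.i (.a (.i (.a (.i (.a (.i (.a (.s (.e))))))))))))), fun m x => (Nat.land (Nat.shiftRight m (Nat.land (Nat.shiftRight (Nat.shiftRight m (nat_lit 34)) (Nat.land (Nat.shiftRight (Nat.shiftRight m (nat_lit 17)) (Nat.land (Nat.shiftRight (Nat.shiftRight m (nat_lit 34)) (Nat.land (Nat.shiftRight (Nat.shiftRight m (nat_lit 17)) (Nat.land (Nat.shiftRight (Nat.shiftRight m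
  (nat_lit 34)) (Nat.land (Nat.shiftRight (Nat.shiftRight m (nat_lit 17)) (Nat.land (Nat.shiftRight (Nat.shiftRight m (nat_lit 34)) (Nat.land (Nat.shiftRight (Nat.shiftRight m (nat_lit 17)) (Nat.land (Nat.shiftRight (Nat.shiftRight m (nat_lit 34)) (Nat.land (Nat.shiftRight m (Nat.land (Nat.shiftRight (Nat.shiftRight m (nat_lit 34)) (Nat.land x (nat_lit 131071))) (nat_lit 131071))) (nat_lit 131071))) (nat_lit 131071))) (nat_lit 131071))) (nat_lit 131071))) (nat_lit 131071))) (nat_lit 131071))) (nat_lit 131071))) (nat_lit 131071))) (nat_lit 131071))) (nat_lit 131071))) (nat_lit 131071)), rfl⟩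
noncomputable def w228 : WW := ⟨.s (.a (.i (.a (.i (.a (.s (.a (.i (.e))))))))), fun m x => (Nat.land (Nat.shiftRight (Nat.shiftRight m (nat_lit 17)) (Nat.land (Nat.shiftRight (Nat.shiftRight m (nat_lit 34)) (Nat.land (Nat.shiftRight m (Nat.land (Nat.shiftRight (Nat.shiftRight m (nat_lit 34)) (Nat.land (Nat.shiftRight (Nat.shiftRight m (nat_lit 17)) (Nat.land (Nat.shiftRight (Nat.shiftRight m (nat_lit 34)) (Nat.land (Nat.shiftRight (Nat.shiftRight m (nat_lit 17)) (Nat.land (Nat.shiftRight (Nat.shiftRight m (nat_lit 34)) (Nat.land x (nat_lit 131071))) (nat_lit 131071))) (nat_lit 131071))) (nat_lit 131071))) (nat_lit 131071))) (nat_lit 131071))) (nat_lit 131071))) (nat_lit 131071))) (nat_lit 131071)), rfl⟩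
noncomputable def w229 : WW := ⟨.a (.s (.a (.s (.s (.a (.s (.a (.i (.e))))))))), fun m x => (Nat.land (Nat.shiftRight (Nat.shiftRight m (nat_lit 17)) (Nat.land (Nat.shiftRight (Nat.shiftRight m (nat_lit 34)) (Nat.land (Nat.shiftRight m (Nat.land (Nat.shiftRight (Nat.shiftRight m (nat_lit 34)) (Nat.land (Nat.shiftRight m (Nat.land (Nat.shiftRight m (Nat.land (Nat.shiftRight (Nat.shiftRight m (nat_lit 34)) (Nat.land (Nat.shiftRight m (Nat.land (Nat.shiftRight x (nat_lit 34)) (nat_lit 131071))) (nat_lit 131071))) (nat_lit 131071))) (nat_lit 131071))) (nat_lit 131071))) (nat_lit 131071))) (nat_lit 131071))) (nat_lit 131071))) (nat_lit 131071)), rfl⟩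
noncomputable def w230 : WW := ⟨.i (.a (.s (.a (.s (.a (.s (.a (.i (.a (.e)))))))))), fun m x => (Nat.land (Nat.shiftRight (Nat.shiftRight m (nat_lit 34)) (Nat.land (Nat.shiftRight (Nat.shiftRight m (nat_lit 17)) (Nat.land (Nat.shiftRight (Nat.shiftRight m (nat_lit 34)) (Nat.land (Nat.shiftRight m (Nat.land (Nat.shiftRight (Nat.shiftRight m (nat_lit 34)) (Nat.land (Nat.shiftRight m (Nat.land (Nat.shiftRight (Nat.shiftRight m (nat_lit 34)) (Nat.land (Nat.shiftRight m (Nat.land (Nat.shiftRight (Nat.shiftRight m (nat_lit 34)) (Nat.land (Nat.shiftRight x (nat_lit 17)) (nat_lit 131071))) (nat_lit 131071))) (nat_lit 131071))) (nat_lit 131071))) (nat_lit 131071))) (nat_lit 131071))) (nat_lit 131071))) (nat_lit 131071))) (nat_lit 131071))) (nat_lit 131071)), rfl⟩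
noncomputable def w231 : WW := ⟨.a (.i (.a (.s (.a (.i (.a (.s (.a (.i (.a (.i (.a (.i (.a (.i (.a (.s (.a (.s (.a (.i (.a (.i (.e)))))))))))))))))))))))), fun m x => (Nat.land (Nat.shiftRight (Nat.shiftRight m (nat_lit 17)) (Nat.land (Nat.shiftRight (Nat.shiftRight m (nat_lit 34)) (Nat.land (Nat.shiftRight (Nat.shiftRight m (nat_lit 17)) (Nat.land (Nat.shiftRight (Nat.shiftRight m (nat_lit 34)) (Nat.land
  (Nat.shiftRight m (Nat.land (Nat.shiftRight (Nat.shiftRight m (nat_lit 34)) (Nat.land (Nat.shiftRight m (Nat.land (Nat.shiftRight (Nat.shiftRight m (nat_lit 34)) (Nat.land (Nat.shiftRight (Nat.shiftRight m (nat_lit 17)) (Nat.land (Nat.shiftRight (Nat.shiftRight m (nat_lit 34)) (Nat.land (Nat.shiftRight (Nat.shiftRight m (nat_lit 17)) (Nat.land (Nat.shiftRight (Nat.shiftRight m (nat_lit 34)) (Nat.land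
  (Nat.shiftRight (Nat.shiftRight m (nat_lit 17)) (Nat.land (Nat.shiftRight (Nat.shiftRight m (nat_lit 34)) (Nat.land (Nat.shiftRight (Nat.shiftRight m (nat_lit 17)) (Nat.land (Nat.shiftRight (Nat.shiftRight m (nat_lit 34)) (Nat.land (Nat.shiftRight m (Nat.land (Nat.shiftRight (Nat.shiftRight m (nat_lit 34)) (Nat.land (Nat.shiftRight (Nat.shiftRight m (nat_lit 17)) (Nat.land (Nat.shiftRight (Nat.shiftRight m
  (nat_lit 34)) (Nat.land (Nat.shiftRight m (Nat.land (Nat.shiftRight (Nat.shiftRight m (nat_lit 34)) (Nat.land (Nat.shiftRight (Nat.shiftRight m (nat_lit 17)) (Nat.land (Nat.shiftRight x (nat_lit 34)) (nat_lit 131071))) (nat_lit 131071))) (nat_lit 131071))) (nat_lit 131071))) (nat_lit 131071))) (nat_lit 131071))) (nat_lit 131071))) (nat_lit 131071))) (nat_lit 131071))) (nat_lit 131071))) (nat_lit 131071))) (nat_lit 131071))) (nat_lit 131071))) (nat_lit 131071))) (nat_lit 131071))) (nat_lit 131071))) (nat_lit 131071))) (nat_lit 131071))) (nat_lit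 131071))) (nat_lit 131071))) (nat_lit 131071))) (nat_lit 131071))) (nat_lit 131071))) (nat_lit 131071)), rfl⟩
noncomputable def w232 : WW := ⟨.a (.s (.a (.s (.a (.s (.a (.s (.a (.s (.a (.s (.a (.s (.a (.i (.a (.s (.a (.i (.e)))))))))))))))))))), fun m x => (Nat.land (Nat.shiftRight (Nat.shiftRight m (nat_lit 17)) (Nat.land (Nat.shiftRight (Nat.shiftRight m (nat_lit 34)) (Nat.land (Nat.shiftRight m (Nat.land (Nat.shiftRight (Nat.shiftRight m (nat_lit 34)) (Nat.land (Nat.shiftRight (Nat.shiftRight m (nat_lit 17))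
  (Nat.land (Nat.shiftRight (Nat.shiftRight m (nat_lit 34)) (Nat.land (Nat.shiftRight m (Nat.land (Nat.shiftRight (Nat.shiftRight m (nat_lit 34)) (Nat.land (Nat.shiftRight m (Nat.land (Nat.shiftRight (Nat.shiftRight m (nat_lit 34)) (Nat.land (Nat.shiftRight m (Nat.land (Nat.shiftRight (Nat.shiftRight m (nat_lit 34)) (Nat.land (Nat.shiftRight m (Nat.land (Nat.shiftRight (Nat.shiftRight m (nat_lit 34))
  (Nat.land (Nat.shiftRight m (Nat.land (Nat.shiftRight (Nat.shiftRight m (nat_lit 34)) (Nat.land (Nat.shiftRight m (Nat.land (Nat.shiftRight (Nat.shiftRight m (nat_lit 34)) (Nat.land (Nat.shiftRight m (Nat.land (Nat.shiftRight x (nat_lit 34)) (nat_lit 131071))) (nat_lit 131071))) (nat_lit 131071))) (nat_lit 131071))) (nat_lit 131071))) (nat_lit 131071))) (nat_lit 131071))) (nat_lit 131071))) (nat_lit 131071))) (nat_lit 131071))) (nat_lit 131071))) (nat_lit 131071))) (nat_lit 131071))) (nat_lit 131071))) (nat_lit 131071))) (nat_lit 131071))) (nat_lit 131071)))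 (nat_lit 131071))) (nat_lit 131071))) (nat_lit 131071)), rfl⟩
noncomputable def w233 : WW := ⟨.i (.a (.s (.a (.s (.s (.e)))))), fun m x => (Nat.land (Nat.shiftRight m (Nat.land (Nat.shiftRight m (Nat.land (Nat.shiftRight (Nat.shiftRight m (nat_lit 34)) (Nat.land (Nat.shiftRight m (Nat.land (Nat.shiftRight (Nat.shiftRight m (nat_lit 34)) (Nat.land (Nat.shiftRight x (nat_lit 17)) (nat_lit 131071))) (nat_lit 131071))) (nat_lit 131071))) (nat_lit 131071))) (nat_lit 131071))) (nat_lit 131071)), rfl⟩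
noncomputable def w234 : WW := ⟨.i (.a (.s (.a (.i (.a (.s (.a (.s (.a (.s (.a (.e)))))))))))), fun m x => (Nat.land (Nat.shiftRight (Nat.shiftRight m (nat_lit 34)) (Nat.land (Nat.shiftRight m (Nat.land (Nat.shiftRight (Nat.shiftRight m (nat_lit 34)) (Nat.land (Nat.shiftRight m (Nat.land (Nat.shiftRight (Nat.shiftRight m (nat_lit 34)) (Nat.land (Nat.shiftRight m (Nat.land (Nat.shiftRight (Nat.shiftRight m
  (nat_lit 34)) (Nat.land (Nat.shiftRight (Nat.shiftRight m (nat_lit 17)) (Nat.land (Nat.shiftRight (Nat.shiftRight m (nat_lit 34)) (Nat.land (Nat.shiftRight m (Nat.land (Nat.shiftRight (Nat.shiftRight m (nat_lit 34)) (Nat.land (Nat.shiftRight x (nat_lit 17)) (nat_lit 131071))) (nat_lit 131071))) (nat_lit 131071))) (nat_lit 131071))) (nat_lit 131071))) (nat_lit 131071))) (nat_lit 131071))) (nat_lit 131071))) (nat_lit 131071))) (nat_lit 131071))) (nat_lit 131071))) (nat_lit 131071)), rfl⟩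
noncomputable def w235 : WW := ⟨.s (.a (.s (.a (.i (.a (.i (.a (.s (.a (.s (.a (.s (.a (.s (.a (.i (.a (.s (.a (.i (.a (.s (.a (.s (.a (.s (.a (.s (.a (.i (.a (.s (.a (.s (.a (.i (.e))))))))))))))))))))))))))))))))))))), fun m x => (Nat.land (Nat.shiftRight (Nat.shiftRight m (nat_lit 17)) (Nat.land (Nat.shiftRight (Nat.shiftRight m (nat_lit 34)) (Nat.land (Nat.shiftRight m (Nat.land (Nat.shiftRight
  (Nat.shiftRight m (nat_lit 34)) (Nat.land (Nat.shiftRight m (Nat.land (Nat.shiftRight (Nat.shiftRight m (nat_lit 34)) (Nat.land (Nat.shiftRight (Nat.shiftRight m (nat_lit 17)) (Nat.land (Nat.shiftRight (Nat.shiftRight m (nat_lit 34)) (Nat.land (Nat.shiftRight m (Nat.land (Nat.shiftRight (Nat.shiftRight m (nat_lit 34)) (Nat.land (Nat.shiftRight m (Nat.land (Nat.shiftRight (Nat.shiftRight m (nat_lit 34))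
  (Nat.land (Nat.shiftRight m (Nat.land (Nat.shiftRight (Nat.shiftRight m (nat_lit 34)) (Nat.land (Nat.shiftRight m (Nat.land (Nat.shiftRight (Nat.shiftRight m (nat_lit 34)) (Nat.land (Nat.shiftRight (Nat.shiftRight m (nat_lit 17)) (Nat.land (Nat.shiftRight (Nat.shiftRight m (nat_lit 34)) (Nat.land (Nat.shiftRight m (Nat.land (Nat.shiftRight (Nat.shiftRight m (nat_lit 34)) (Nat.land (Nat.shiftRight
  (Nat.shiftRight m (nat_lit 17)) (Nat.land (Nat.shiftRight (Nat.shiftRight m (nat_lit 34)) (Nat.land (Nat.shiftRight m (Nat.land (Nat.shiftRight (Nat.shiftRight m (nat_lit 34)) (Nat.land (Nat.shiftRight m (Nat.land (Nat.shiftRight (Nat.shiftRight m (nat_lit 34)) (Nat.land (Nat.shiftRight m (Nat.land (Nat.shiftRight (Nat.shiftRight m (nat_lit 34)) (Nat.land (Nat.shiftRight m (Nat.land (Nat.shiftRight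
  (Nat.shiftRight m (nat_lit 34)) (Nat.land (Nat.shiftRight (Nat.shiftRight m (nat_lit 17)) (Nat.land (Nat.shiftRight (Nat.shiftRight m (nat_lit 34)) (Nat.land (Nat.shiftRight (Nat.shiftRight m (nat_lit 17)) (Nat.land (Nat.shiftRight (Nat.shiftRight m (nat_lit 34)) (Nat.land (Nat.shiftRight m (Nat.land (Nat.shiftRight (Nat.shiftRight m (nat_lit 34)) (Nat.land x (nat_lit 131071))) (nat_lit 131071)))
  (nat_lit 131071))) (nat_lit 131071))) (nat_lit 131071))) (nat_lit 131071))) (nat_lit 131071))) (nat_lit 131071))) (nat_lit 131071))) (nat_lit 131071))) (nat_lit 131071))) (nat_lit 131071))) (nat_lit 131071))) (nat_lit 131071))) (nat_lit 131071))) (nat_lit 131071))) (nat_lit 131071))) (nat_lit 131071))) (nat_lit 131071))) (nat_lit 131071))) (nat_lit 131071))) (nat_lit 131071))) (nat_lit 131071))) (nat_lit 131071))) (nat_lit 131071))) (nat_lit 131071))) (nat_lit 131071))) (nat_lit 131071))) (nat_lit 131071))) (nat_lit 131071))) (nat_lit 131071))) (nat_lit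 131071))) (nat_lit 131071))) (nat_lit 131071))) (nat_lit 131071))) (nat_lit 131071))) (nat_lit 131071)), rfl⟩
noncomputable def w236 : WW := ⟨.s (.a (.s (.a (.s (.a (.i (.a (.s (.a (.s (.a (.s (.a (.i (.a (.i (.a (.i (.a (.i (.a (.s (.a (.i (.a (.s (.e))))))))))))))))))))))))))), fun m x => (Nat.land (Nat.shiftRight m (Nat.land (Nat.shiftRight (Nat.shiftRight m (nat_lit 34)) (Nat.land (Nat.shiftRight (Nat.shiftRight m (nat_lit 17)) (Nat.land (Nat.shiftRight (Nat.shiftRight m (nat_lit 34)) (Nat.land (Nat.shiftRight m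
  (Nat.land (Nat.shiftRight (Nat.shiftRight m (nat_lit 34)) (Nat.land (Nat.shiftRight (Nat.shiftRight m (nat_lit 17)) (Nat.land (Nat.shiftRight (Nat.shiftRight m (nat_lit 34)) (Nat.land (Nat.shiftRight (Nat.shiftRight m (nat_lit 17)) (Nat.land (Nat.shiftRight (Nat.shiftRight m (nat_lit 34)) (Nat.land (Nat.shiftRight (Nat.shiftRight m (nat_lit 17)) (Nat.land (Nat.shiftRight (Nat.shiftRight m (nat_lit 34))
  (Nat.land (Nat.shiftRight (Nat.shiftRight m (nat_lit 17)) (Nat.land (Nat.shiftRight (Nat.shiftRight m (nat_lit 34)) (Nat.land (Nat.shiftRight m (Nat.land (Nat.shiftRight (Nat.shiftRight m (nat_lit 34)) (Nat.land (Nat.shiftRight m (Nat.land (Nat.shiftRight (Nat.shiftRight m (nat_lit 34)) (Nat.land (Nat.shiftRight m (Nat.land (Nat.shiftRight (Nat.shiftRight m (nat_lit 34)) (Nat.land (Nat.shiftRight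
  (Nat.shiftRight m (nat_lit 17)) (Nat.land (Nat.shiftRight (Nat.shiftRight m (nat_lit 34)) (Nat.land (Nat.shiftRight m (Nat.land (Nat.shiftRight (Nat.shiftRight m (nat_lit 34)) (Nat.land (Nat.shiftRight m (Nat.land (Nat.shiftRight (Nat.shiftRight m (nat_lit 34)) (Nat.land x (nat_lit 131071))) (nat_lit 131071))) (nat_lit 131071))) (nat_lit 131071))) (nat_lit 131071))) (nat_lit 131071))) (nat_lit 131071))) (nat_lit 131071))) (nat_lit 131071))) (nat_lit 131071))) (nat_lit 131071))) (nat_lit 131071))) (nat_lit 131071))) (nat_lit 131071))) (nat_lit 131071))) (nat_lit 131071))) (nat_lit 131071))) (nat_lit 131071))) (nat_lit 131071))) (nat_lit 131071))) (nat_lit 131071))) (nat_lit 131071))) (nat_lit 131071))) (nat_lit 131071))) (nat_lit 131071))) (nat_lit 131071))) (nat_lit 131071)), rfl⟩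
noncomputable def w237 : WW := ⟨.s (.a (.i (.a (.s (.a (.s (.a (.i (.a (.s (.a (.s (.a (.s (.a (.e)))))))))))))))), fun m x => (Nat.land (Nat.shiftRight (Nat.shiftRight m (nat_lit 34)) (Nat.land (Nat.shiftRight m (Nat.land (Nat.shiftRight (Nat.shiftRight m (nat_lit 34)) (Nat.land (Nat.shiftRight m (Nat.land (Nat.shiftRight (Nat.shiftRight m (nat_lit 34)) (Nat.land (Nat.shiftRight m (Nat.land (Nat.shiftRight
  (Nat.shiftRight m (nat_lit 34)) (Nat.land (Nat.shiftRight (Nat.shiftRight m (nat_lit 17)) (Nat.land (Nat.shiftRight (Nat.shiftRight m (nat_lit 34)) (Nat.land (Nat.shiftRight m (Nat.land (Nat.shiftRight (Nat.shiftRight m (nat_lit 34)) (Nat.land (Nat.shiftRight m (Nat.land (Nat.shiftRight (Nat.shiftRight m (nat_lit 34)) (Nat.land (Nat.shiftRight (Nat.shiftRight m (nat_lit 17)) (Nat.land (Nat.shiftRight (Nat.shiftRight m (nat_lit 34)) (Nat.land x (nat_lit 131071))) (nat_lit 131071))) (nat_lit 131071))) (nat_lit 131071))) (nat_lit 131071))) (nat_lit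 131071))) (nat_lit 131071))) (nat_lit 131071))) (nat_lit 131071))) (nat_lit 131071))) (nat_lit 131071))) (nat_lit 131071))) (nat_lit 131071))) (nat_lit 131071))) (nat_lit 131071))) (nat_lit 131071)), rfl⟩
noncomputable def w238 : WW := ⟨.a (.i (.a (.s (.s (.a (.s (.a (.s (.a (.e)))))))))), fun m x => (Nat.land (Nat.shiftRight (Nat.shiftRight m (nat_lit 34)) (Nat.land (Nat.shiftRight m (Nat.land (Nat.shiftRight (Nat.shiftRight m (nat_lit 34)) (Nat.land (Nat.shiftRight m (Nat.land (Nat.shiftRight (Nat.shiftRight m (nat_lit 34)) (Nat.land (Nat.shiftRight m (Nat.land (Nat.shiftRight m (Nat.land (Nat.shiftRight (Nat.shiftRight m (nat_lit 34)) (Nat.land (Nat.shiftRight (Nat.shiftRight m (nat_lit 17)) (Nat.land (Nat.shiftRight x (nat_lit 34)) (nat_lit 131071))) (nat_lit 131071))) (nat_lit 131071))) (nat_lit 131071))) (nat_lit 131071))) (nat_lit 131071))) (nat_lit 131071))) (nat_lit 131071))) (nat_lit 131071))) (nat_lit 131071)), rfl⟩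
noncomputable def w239 : WW := ⟨.a (.i (.a (.s (.a (.i (.i (.a (.s (.a (.s (.a (.e)))))))))))), fun m x => (Nat.land (Nat.shiftRight (Nat.shiftRight m (nat_lit 34)) (Nat.land (Nat.shiftRight m (Nat.land (Nat.shiftRight (Nat.shiftRight m (nat_lit 34)) (Nat.land (Nat.shiftRight m (Nat.land (Nat.shiftRight (Nat.shiftRight m (nat_lit 34)) (Nat.land (Nat.shiftRight (Nat.shiftRight m (nat_lit 17)) (Nat.land
  (Nat.shiftRight (Nat.shiftRight m (nat_lit 17)) (Nat.land (Nat.shiftRight (Nat.shiftRight m (nat_lit 34)) (Nat.land (Nat.shiftRight m (Nat.land (Nat.shiftRight (Nat.shiftRight m (nat_lit 34)) (Nat.land (Nat.shiftRight (Nat.shiftRight m (nat_lit 17)) (Nat.land (Nat.shiftRight x (nat_lit 34)) (nat_lit 131071))) (nat_lit 131071))) (nat_lit 131071))) (nat_lit 131071))) (nat_lit 131071))) (nat_lit 131071))) (nat_lit 131071))) (nat_lit 131071))) (nat_lit 131071))) (nat_lit 131071))) (nat_lit 131071))) (nat_lit 131071)), rfl⟩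
noncomputable def w240 : WW := ⟨.s (.a (.s (.a (.i (.a (.s (.a (.i (.e))))))))), fun m x => (Nat.land (Nat.shiftRight (Nat.shiftRight m (nat_lit 17)) (Nat.land (Nat.shiftRight (Nat.shiftRight m (nat_lit 34)) (Nat.land (Nat.shiftRight m (Nat.land (Nat.shiftRight (Nat.shiftRight m (nat_lit 34)) (Nat.land (Nat.shiftRight (Nat.shiftRight m (nat_lit 17)) (Nat.land (Nat.shiftRight (Nat.shiftRight m (nat_lit 34)) (Nat.land (Nat.shiftRight m (Nat.land (Nat.shiftRight (Nat.shiftRight m (nat_lit 34)) (Nat.land x (nat_lit 131071))) (nat_lit 131071))) (nat_lit 131071))) (nat_lit 131071))) (nat_lit 131071))) (nat_lit 131071))) (nat_lit 131071))) (nat_lit 131071))) (nat_lit 131071)), rfl⟩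
noncomputable def w241 : WW := ⟨.s (.a (.i (.a (.s (.a (.s (.a (.i (.e))))))))), fun m x => (Nat.land (Nat.shiftRight (Nat.shiftRight m (nat_lit 17)) (Nat.land (Nat.shiftRight (Nat.shiftRight m (nat_lit 34)) (Nat.land (Nat.shiftRight m (Nat.land (Nat.shiftRight (Nat.shiftRight m (nat_lit 34)) (Nat.land (Nat.shiftRight m (Nat.land (Nat.shiftRight (Nat.shiftRight m (nat_lit 34)) (Nat.land (Nat.shiftRight (Nat.shiftRight m (nat_lit 17)) (Nat.land (Nat.shiftRight (Nat.shiftRight m (nat_lit 34)) (Nat.land x (nat_lit 131071))) (nat_lit 131071))) (nat_lit 131071))) (nat_lit 131071))) (nat_lit 131071))) (nat_lit 131071))) (nat_lit 131071))) (nat_lit 131071))) (nat_lit 131071)), rfl⟩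
noncomputable def w242 : WW := ⟨.s (.a (.s (.a (.i (.a (.i (.a (.s (.a (.s (.a (.s (.a (.s (.a (.s (.a (.s (.a (.i (.e))))))))))))))))))))), fun m x => (Nat.land (Nat.shiftRight (Nat.shiftRight m (nat_lit 17)) (Nat.land (Nat.shiftRight (Nat.shiftRight m (nat_lit 34)) (Nat.land (Nat.shiftRight m (Nat.land (Nat.shiftRight (Nat.shiftRight m (nat_lit 34)) (Nat.land (Nat.shiftRight m (Nat.land (Nat.shiftRight
  (Nat.shiftRight m (nat_lit 34)) (Nat.land (Nat.shiftRight m (Nat.land (Nat.shiftRight (Nat.shiftRight m (nat_lit 34)) (Nat.land (Nat.shiftRight m (Nat.land (Nat.shiftRight (Nat.shiftRight m (nat_lit 34)) (Nat.land (Nat.shiftRight m (Nat.land (Nat.shiftRight (Nat.shiftRight m (nat_lit 34)) (Nat.land (Nat.shiftRight m (Nat.land (Nat.shiftRight (Nat.shiftRight m (nat_lit 34)) (Nat.land (Nat.shiftRight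
  (Nat.shiftRight m (nat_lit 17)) (Nat.land (Nat.shiftRight (Nat.shiftRight m (nat_lit 34)) (Nat.land (Nat.shiftRight (Nat.shiftRight m (nat_lit 17)) (Nat.land (Nat.shiftRight (Nat.shiftRight m (nat_lit 34)) (Nat.land (Nat.shiftRight m (Nat.land (Nat.shiftRight (Nat.shiftRight m (nat_lit 34)) (Nat.land x (nat_lit 131071))) (nat_lit 131071))) (nat_lit 131071))) (nat_lit 131071))) (nat_lit 131071))) (nat_lit 131071))) (nat_lit 131071))) (nat_lit 131071))) (nat_lit 131071))) (nat_lit 131071))) (nat_lit 131071))) (nat_lit 131071))) (nat_lit 131071))) (nat_lit 131071))) (nat_lit 131071))) (nat_lit 131071))) (nat_lit 131071))) (nat_lit 131071))) (nat_lit 131071))) (nat_lit 131071))) (nat_lit 131071)), rfl⟩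
noncomputable def w243 : WW := ⟨.s (.a (.i (.a (.s (.a (.s (.a (.s (.a (.s (.a (.i (.a (.s (.a (.s (.a (.s (.a (.i (.a (.s (.a (.e)))))))))))))))))))))))), fun m x => (Nat.land (Nat.shiftRight (Nat.shiftRight m (nat_lit 34)) (Nat.land (Nat.shiftRight m (Nat.land (Nat.shiftRight (Nat.shiftRight m (nat_lit 34)) (Nat.land (Nat.shiftRight (Nat.shiftRight m (nat_lit 17)) (Nat.land (Nat.shiftRight (Nat.shiftRight m
  (nat_lit 34)) (Nat.land (Nat.shiftRight m (Nat.land (Nat.shiftRight (Nat.shiftRight m (nat_lit 34)) (Nat.land (Nat.shiftRight m (Nat.land (Nat.shiftRight (Nat.shiftRight m (nat_lit 34)) (Nat.land (Nat.shiftRight m (Nat.land (Nat.shiftRight (Nat.shiftRight m (nat_lit 34)) (Nat.land (Nat.shiftRight (Nat.shiftRight m (nat_lit 17)) (Nat.land (Nat.shiftRight (Nat.shiftRight m (nat_lit 34)) (Nat.land (Nat.shiftRight m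
  (Nat.land (Nat.shiftRight (Nat.shiftRight m (nat_lit 34)) (Nat.land (Nat.shiftRight m (Nat.land (Nat.shiftRight (Nat.shiftRight m (nat_lit 34)) (Nat.land (Nat.shiftRight m (Nat.land (Nat.shiftRight (Nat.shiftRight m (nat_lit 34)) (Nat.land (Nat.shiftRight m (Nat.land (Nat.shiftRight (Nat.shiftRight m (nat_lit 34)) (Nat.land (Nat.shiftRight (Nat.shiftRight m (nat_lit 17)) (Nat.land (Nat.shiftRight
  (Nat.shiftRight m (nat_lit 34)) (Nat.land x (nat_lit 131071))) (nat_lit 131071))) (nat_lit 131071))) (nat_lit 131071))) (nat_lit 131071))) (nat_lit 131071))) (nat_lit 131071))) (nat_lit 131071))) (nat_lit 131071))) (nat_lit 131071))) (nat_lit 131071))) (nat_lit 131071))) (nat_lit 131071))) (nat_lit 131071))) (nat_lit 131071))) (nat_lit 131071))) (nat_lit 131071))) (nat_lit 131071))) (nat_lit 131071))) (nat_lit 131071))) (nat_lit 131071))) (nat_lit 131071))) (nat_lit 131071))) (nat_lit 131071)), rfl⟩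
noncomputable def w244 : WW := ⟨.s (.a (.s (.a (.s (.a (.s (.s (.a (.i (.a (.i (.e)))))))))))), fun m x => (Nat.land (Nat.shiftRight (Nat.shiftRight m (nat_lit 17)) (Nat.land (Nat.shiftRight (Nat.shiftRight m (nat_lit 34)) (Nat.land (Nat.shiftRight (Nat.shiftRight m (nat_lit 17)) (Nat.land (Nat.shiftRight (Nat.shiftRight m (nat_lit 34)) (Nat.land (Nat.shiftRight m (Nat.land (Nat.shiftRight m (Nat.land
  (Nat.shiftRight (Nat.shiftRight m (nat_lit 34)) (Nat.land (Nat.shiftRight m (Nat.land (Nat.shiftRight (Nat.shiftRight m (nat_lit 34)) (Nat.land (Nat.shiftRight m (Nat.land (Nat.shiftRight (Nat.shiftRight m (nat_lit 34)) (Nat.land x (nat_lit 131071))) (nat_lit 131071))) (nat_lit 131071))) (nat_lit 131071))) (nat_lit 131071))) (nat_lit 131071))) (nat_lit 131071))) (nat_lit 131071))) (nat_lit 131071))) (nat_lit 131071))) (nat_lit 131071))) (nat_lit 131071)), rfl⟩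
noncomputable def w245 : WW := ⟨.a (.s (.a (.s (.a (.s (.a (.s (.a (.s (.a (.s (.a (.i (.a (.e))))))))))))))), fun m x => (Nat.land (Nat.shiftRight (Nat.shiftRight m (nat_lit 34)) (Nat.land (Nat.shiftRight (Nat.shiftRight m (nat_lit 17)) (Nat.land (Nat.shiftRight (Nat.shiftRight m (nat_lit 34)) (Nat.land (Nat.shiftRight m (Nat.land (Nat.shiftRight (Nat.shiftRight m (nat_lit 34)) (Nat.land (Nat.shiftRight m
  (Nat.land (Nat.shiftRight (Nat.shiftRight m (nat_lit 34)) (Nat.land (Nat.shiftRight m (Nat.land (Nat.shiftRight (Nat.shiftRight m (nat_lit 34)) (Nat.land (Nat.shiftRight m (Nat.land (Nat.shiftRight (Nat.shiftRight m (nat_lit 34)) (Nat.land (Nat.shiftRight m (Nat.land (Nat.shiftRight (Nat.shiftRight m (nat_lit 34)) (Nat.land (Nat.shiftRight m (Nat.land (Nat.shiftRight x (nat_lit 34)) (nat_lit 131071))) (nat_lit 131071))) (nat_lit 131071))) (nat_lit 131071))) (nat_lit 131071))) (nat_lit 131071))) (nat_lit 131071))) (nat_lit 131071))) (nat_lit 131071)))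 (nat_lit 131071))) (nat_lit 131071))) (nat_lit 131071))) (nat_lit 131071))) (nat_lit 131071))) (nat_lit 131071)), rfl⟩
noncomputable def w246 : WW := ⟨.a (.s (.a (.i (.a (.i (.a (.s (.e)))))))), fun m x => (Nat.land (Nat.shiftRight m (Nat.land (Nat.shiftRight (Nat.shiftRight m (nat_lit 34)) (Nat.land (Nat.shiftRight (Nat.shiftRight m (nat_lit 17)) (Nat.land (Nat.shiftRight (Nat.shiftRight m (nat_lit 34)) (Nat.land (Nat.shiftRight (Nat.shiftRight m (nat_lit 17)) (Nat.land (Nat.shiftRight (Nat.shiftRight m (nat_lit 34)) (Nat.land (Nat.shiftRight m (Nat.land (Nat.shiftRight x (nat_lit 34)) (nat_lit 131071))) (nat_lit 131071))) (nat_lit 131071))) (nat_lit 131071))) (nat_lit 131071))) (nat_lit 131071))) (nat_lit 131071))) (nat_lit 131071)), rfl⟩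
noncomputable def w247 : WW := ⟨.s (.a (.s (.a (.s (.s (.a (.i (.a (.i (.a (.i (.a (.s (.e)))))))))))))), fun m x => (Nat.land (Nat.shiftRight m (Nat.land (Nat.shiftRight (Nat.shiftRight m (nat_lit 34)) (Nat.land (Nat.shiftRight (Nat.shiftRight m (nat_lit 17)) (Nat.land (Nat.shiftRight (Nat.shiftRight m (nat_lit 34)) (Nat.land (Nat.shiftRight (Nat.shiftRight m (nat_lit 17)) (Nat.land (Nat.shiftRight
  (Nat.shiftRight m (nat_lit 34)) (Nat.land (Nat.shiftRight (Nat.shiftRight m (nat_lit 17)) (Nat.land (Nat.shiftRight (Nat.shiftRight m (nat_lit 34)) (Nat.land (Nat.shiftRight m (Nat.land (Nat.shiftRight m (Nat.land (Nat.shiftRight (Nat.shiftRight m (nat_lit 34)) (Nat.land (Nat.shiftRight m (Nat.land (Nat.shiftRight (Nat.shiftRight m (nat_lit 34)) (Nat.land x (nat_lit 131071))) (nat_lit 131071))) (nat_lit 131071))) (nat_lit 131071))) (nat_lit 131071))) (nat_lit 131071))) (nat_lit 131071))) (nat_lit 131071))) (nat_lit 131071))) (nat_lit 131071))) (nat_lit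 131071))) (nat_lit 131071))) (nat_lit 131071))) (nat_lit 131071)), rfl⟩
noncomputable def w248 : WW := ⟨.s (.a (.s (.a (.s (.s (.a (.i (.a (.i (.a (.i (.a (.s (.a (.i (.a (.i (.a (.s (.e)))))))))))))))))))), fun m x => (Nat.land (Nat.shiftRight m (Nat.land (Nat.shiftRight (Nat.shiftRight m (nat_lit 34)) (Nat.land (Nat.shiftRight (Nat.shiftRight m (nat_lit 17)) (Nat.land (Nat.shiftRight (Nat.shiftRight m (nat_lit 34)) (Nat.land (Nat.shiftRight (Nat.shiftRight m (nat_lit 17))
  (Nat.land (Nat.shiftRight (Nat.shiftRight m (nat_lit 34)) (Nat.land (Nat.shiftRight m (Nat.land (Nat.shiftRight (Nat.shiftRight m (nat_lit 34)) (Nat.land (Nat.shiftRight (Nat.shiftRight m (nat_lit 17)) (Nat.land (Nat.shiftRight (Nat.shiftRight m (nat_lit 34)) (Nat.land (Nat.shiftRight (Nat.shiftRight m (nat_lit 17)) (Nat.land (Nat.shiftRight (Nat.shiftRight m (nat_lit 34)) (Nat.land (Nat.shiftRight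
  (Nat.shiftRight m (nat_lit 17)) (Nat.land (Nat.shiftRight (Nat.shiftRight m (nat_lit 34)) (Nat.land (Nat.shiftRight m (Nat.land (Nat.shiftRight m (Nat.land (Nat.shiftRight (Nat.shiftRight m (nat_lit 34)) (Nat.land (Nat.shiftRight m (Nat.land (Nat.shiftRight (Nat.shiftRight m (nat_lit 34)) (Nat.land x (nat_lit 131071))) (nat_lit 131071))) (nat_lit 131071))) (nat_lit 131071))) (nat_lit 131071))) (nat_lit 131071))) (nat_lit 131071))) (nat_lit 131071))) (nat_lit 131071))) (nat_lit 131071))) (nat_lit 131071))) (nat_lit 131071))) (nat_lit 131071))) (nat_lit 131071))) (nat_lit 131071))) (nat_lit 131071))) (nat_lit 131071))) (nat_lit 131071))) (nat_lit 131071))) (nat_lit 131071)), rfl⟩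
noncomputable def w249 : WW := ⟨.a (.s (.a (.s (.a (.s (.a (.s (.a (.s (.a (.i (.a (.s (.a (.s (.a (.e))))))))))))))))), fun m x => (Nat.land (Nat.shiftRight (Nat.shiftRight m (nat_lit 34)) (Nat.land (Nat.shiftRight m (Nat.land (Nat.shiftRight (Nat.shiftRight m (nat_lit 34)) (Nat.land (Nat.shiftRight m (Nat.land (Nat.shiftRight (Nat.shiftRight m (nat_lit 34)) (Nat.land (Nat.shiftRight (Nat.shiftRight m
  (nat_lit 17)) (Nat.land (Nat.shiftRight (Nat.shiftRight m (nat_lit 34)) (Nat.land (Nat.shiftRight m (Nat.land (Nat.shiftRight (Nat.shiftRight m (nat_lit 34)) (Nat.land (Nat.shiftRight m (Nat.land (Nat.shiftRight (Nat.shiftRight m (nat_lit 34)) (Nat.land (Nat.shiftRight m (Nat.land (Nat.shiftRight (Nat.shiftRight m (nat_lit 34)) (Nat.land (Nat.shiftRight m (Nat.land (Nat.shiftRight (Nat.shiftRight m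
  (nat_lit 34)) (Nat.land (Nat.shiftRight m (Nat.land (Nat.shiftRight x (nat_lit 34)) (nat_lit 131071))) (nat_lit 131071))) (nat_lit 131071))) (nat_lit 131071))) (nat_lit 131071))) (nat_lit 131071))) (nat_lit 131071))) (nat_lit 131071))) (nat_lit 131071))) (nat_lit 131071))) (nat_lit 131071))) (nat_lit 131071))) (nat_lit 131071))) (nat_lit 131071))) (nat_lit 131071))) (nat_lit 131071))) (nat_lit 131071)), rfl⟩
noncomputable def w250 : WW := ⟨.a (.s (.a (.s (.a (.s (.a (.s (.a (.s (.a (.s (.a (.i (.a (.s (.a (.e))))))))))))))))), fun m x => (Nat.land (Nat.shiftRight (Nat.shiftRight m (nat_lit 34)) (Nat.land (Nat.shiftRight m (Nat.land (Nat.shiftRight (Nat.shiftRight m (nat_lit 34)) (Nat.land (Nat.shiftRight (Nat.shiftRight m (nat_lit 17)) (Nat.land (Nat.shiftRight (Nat.shiftRight m (nat_lit 34)) (Nat.land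
  (Nat.shiftRight m (Nat.land (Nat.shiftRight (Nat.shiftRight m (nat_lit 34)) (Nat.land (Nat.shiftRight m (Nat.land (Nat.shiftRight (Nat.shiftRight m (nat_lit 34)) (Nat.land (Nat.shiftRight m (Nat.land (Nat.shiftRight (Nat.shiftRight m (nat_lit 34)) (Nat.land (Nat.shiftRight m (Nat.land (Nat.shiftRight (Nat.shiftRight m (nat_lit 34)) (Nat.land (Nat.shiftRight m (Nat.land (Nat.shiftRight (Nat.shiftRight m
  (nat_lit 34)) (Nat.land (Nat.shiftRight m (Nat.land (Nat.shiftRight x (nat_lit 34)) (nat_lit 131071))) (nat_lit 131071))) (nat_lit 131071))) (nat_lit 131071))) (nat_lit 131071))) (nat_lit 131071))) (nat_lit 131071))) (nat_lit 131071))) (nat_lit 131071))) (nat_lit 131071))) (nat_lit 131071))) (nat_lit 131071))) (nat_lit 131071))) (nat_lit 131071))) (nat_lit 131071))) (nat_lit 131071))) (nat_lit 131071)), rfl⟩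
noncomputable def w251 : WW := ⟨.s (.a (.s (.a (.i (.i (.a (.s (.a (.s (.a (.s (.a (.i (.a (.s (.a (.s (.a (.e))))))))))))))))))), fun m x => (Nat.land (Nat.shiftRight (Nat.shiftRight m (nat_lit 34)) (Nat.land (Nat.shiftRight m (Nat.land (Nat.shiftRight (Nat.shiftRight m (nat_lit 34)) (Nat.land (Nat.shiftRight m (Nat.land (Nat.shiftRight (Nat.shiftRight m (nat_lit 34)) (Nat.land (Nat.shiftRight (Nat.shiftRight m
  (nat_lit 17)) (Nat.land (Nat.shiftRight (Nat.shiftRight m (nat_lit 34)) (Nat.land (Nat.shiftRight m (Nat.land (Nat.shiftRight (Nat.shiftRight m (nat_lit 34)) (Nat.land (Nat.shiftRight m (Nat.land (Nat.shiftRight (Nat.shiftRight m (nat_lit 34)) (Nat.land (Nat.shiftRight m (Nat.land (Nat.shiftRight (Nat.shiftRight m (nat_lit 34)) (Nat.land (Nat.shiftRight (Nat.shiftRight m (nat_lit 17)) (Nat.land (Nat.shiftRight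
  (Nat.shiftRight m (nat_lit 17)) (Nat.land (Nat.shiftRight (Nat.shiftRight m (nat_lit 34)) (Nat.land (Nat.shiftRight m (Nat.land (Nat.shiftRight (Nat.shiftRight m (nat_lit 34)) (Nat.land x (nat_lit 131071))) (nat_lit 131071))) (nat_lit 131071))) (nat_lit 131071))) (nat_lit 131071))) (nat_lit 131071))) (nat_lit 131071))) (nat_lit 131071))) (nat_lit 131071))) (nat_lit 131071))) (nat_lit 131071))) (nat_lit 131071))) (nat_lit 131071))) (nat_lit 131071))) (nat_lit 131071))) (nat_lit 131071))) (nat_lit 131071))) (nat_lit 131071))) (nat_lit 131071)), rfl⟩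
noncomputable def w252 : WW := ⟨.s (.a (.s (.a (.i (.a (.i (.a (.s (.a (.i (.e))))))))))), fun m x => (Nat.land (Nat.shiftRight (Nat.shiftRight m (nat_lit 17)) (Nat.land (Nat.shiftRight (Nat.shiftRight m (nat_lit 34)) (Nat.land (Nat.shiftRight m (Nat.land (Nat.shiftRight (Nat.shiftRight m (nat_lit 34)) (Nat.land (Nat.shiftRight (Nat.shiftRight m (nat_lit 17)) (Nat.land (Nat.shiftRight (Nat.shiftRight m
  (nat_lit 34)) (Nat.land (Nat.shiftRight (Nat.shiftRight m (nat_lit 17)) (Nat.land (Nat.shiftRight (Nat.shiftRight m (nat_lit 34)) (Nat.land (Nat.shiftRight m (Nat.land (Nat.shiftRight (Nat.shiftRight m (nat_lit 34)) (Nat.land x (nat_lit 131071))) (nat_lit 131071))) (nat_lit 131071))) (nat_lit 131071))) (nat_lit 131071))) (nat_lit 131071))) (nat_lit 131071))) (nat_lit 131071))) (nat_lit 131071))) (nat_lit 131071))) (nat_lit 131071)), rfl⟩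
noncomputable def w253 : WW := ⟨.s (.a (.i (.a (.s (.a (.s (.a (.i (.a (.s (.a (.s (.a (.s (.a (.s (.a (.s (.a (.s (.a (.i (.a (.i (.a (.i (.a (.s (.a (.i (.a (.i (.e))))))))))))))))))))))))))))))))), fun m x => (Nat.land (Nat.shiftRight (Nat.shiftRight m (nat_lit 17)) (Nat.land (Nat.shiftRight (Nat.shiftRight m (nat_lit 34)) (Nat.land (Nat.shiftRight (Nat.shiftRight m (nat_lit 17)) (Nat.land (Nat.shiftRight
  (Nat.shiftRight m (nat_lit 34)) (Nat.land (Nat.shiftRight m (Nat.land (Nat.shiftRight (Nat.shiftRight m (nat_lit 34)) (Nat.land (Nat.shiftRight (Nat.shiftRight m (nat_lit 17)) (Nat.land (Nat.shiftRight (Nat.shiftRight m (nat_lit 34)) (Nat.land (Nat.shiftRight (Nat.shiftRight m (nat_lit 17)) (Nat.land (Nat.shiftRight (Nat.shiftRight m (nat_lit 34)) (Nat.land (Nat.shiftRight (Nat.shiftRight m (nat_lit 17))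
  (Nat.land (Nat.shiftRight (Nat.shiftRight m (nat_lit 34)) (Nat.land (Nat.shiftRight m (Nat.land (Nat.shiftRight (Nat.shiftRight m (nat_lit 34)) (Nat.land (Nat.shiftRight m (Nat.land (Nat.shiftRight (Nat.shiftRight m (nat_lit 34)) (Nat.land (Nat.shiftRight m (Nat.land (Nat.shiftRight (Nat.shiftRight m (nat_lit 34)) (Nat.land (Nat.shiftRight m (Nat.land (Nat.shiftRight (Nat.shiftRight m (nat_lit 34))
  (Nat.land (Nat.shiftRight m (Nat.land (Nat.shiftRight (Nat.shiftRight m (nat_lit 34)) (Nat.land (Nat.shiftRight m (Nat.land (Nat.shiftRight (Nat.shiftRight m (nat_lit 34)) (Nat.land (Nat.shiftRight (Nat.shiftRight m (nat_lit 17)) (Nat.land (Nat.shiftRight (Nat.shiftRight m (nat_lit 34)) (Nat.land (Nat.shiftRight m (Nat.land (Nat.shiftRight (Nat.shiftRight m (nat_lit 34)) (Nat.land (Nat.shiftRight m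
  (Nat.land (Nat.shiftRight (Nat.shiftRight m (nat_lit 34)) (Nat.land (Nat.shiftRight (Nat.shiftRight m (nat_lit 17)) (Nat.land (Nat.shiftRight (Nat.shiftRight m (nat_lit 34)) (Nat.land x (nat_lit 131071))) (nat_lit 131071))) (nat_lit 131071))) (nat_lit 131071))) (nat_lit 131071))) (nat_lit 131071))) (nat_lit 131071))) (nat_lit 131071))) (nat_lit 131071))) (nat_lit 131071))) (nat_lit 131071))) (nat_lit 131071)))
  (nat_lit 131071))) (nat_lit 131071))) (nat_lit 131071))) (nat_lit 131071))) (nat_lit 131071))) (nat_lit 131071))) (nat_lit 131071))) (nat_lit 131071))) (nat_lit 131071))) (nat_lit 131071))) (nat_lit 131071))) (nat_lit 131071))) (nat_lit 131071))) (nat_lit 131071))) (nat_lit 131071))) (nat_lit 131071))) (nat_lit 131071))) (nat_lit 131071))) (nat_lit 131071))) (nat_lit 131071))) (nat_lit 131071)), rfl⟩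
noncomputable def w254 : WW := ⟨.a (.s (.a (.s (.a (.s (.a (.s (.a (.s (.a (.i (.a (.s (.a (.e))))))))))))))), fun m x => (Nat.land (Nat.shiftRight (Nat.shiftRight m (nat_lit 34)) (Nat.land (Nat.shiftRight m (Nat.land (Nat.shiftRight (Nat.shiftRight m (nat_lit 34)) (Nat.land (Nat.shiftRight (Nat.shiftRight m (nat_lit 17)) (Nat.land (Nat.shiftRight (Nat.shiftRight m (nat_lit 34)) (Nat.land (Nat.shiftRight m
  (Nat.land (Nat.shiftRight (Nat.shiftRight m (nat_lit 34)) (Nat.land (Nat.shiftRight m (Nat.land (Nat.shiftRight (Nat.shiftRight m (nat_lit 34)) (Nat.land (Nat.shiftRight m (Nat.land (Nat.shiftRight (Nat.shiftRight m (nat_lit 34)) (Nat.land (Nat.shiftRight m (Nat.land (Nat.shiftRight (Nat.shiftRight m (nat_lit 34)) (Nat.land (Nat.shiftRight m (Nat.land (Nat.shiftRight x (nat_lit 34)) (nat_lit 131071))) (nat_lit 131071))) (nat_lit 131071))) (nat_lit 131071))) (nat_lit 131071))) (nat_lit 131071))) (nat_lit 131071))) (nat_lit 131071))) (nat_lit 131071)))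 (nat_lit 131071))) (nat_lit 131071))) (nat_lit 131071))) (nat_lit 131071))) (nat_lit 131071))) (nat_lit 131071)), rfl⟩
noncomputable def w255 : WW := ⟨.a (.i (.a (.i (.a (.i (.a (.s (.a (.i (.a (.s (.a (.i (.e)))))))))))))), fun m x => (Nat.land (Nat.shiftRight (Nat.shiftRight m (nat_lit 17)) (Nat.land (Nat.shiftRight (Nat.shiftRight m (nat_lit 34)) (Nat.land (Nat.shiftRight m (Nat.land (Nat.shiftRight (Nat.shiftRight m (nat_lit 34)) (Nat.land (Nat.shiftRight (Nat.shiftRight m (nat_lit 17)) (Nat.land (Nat.shiftRight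
  (Nat.shiftRight m (nat_lit 34)) (Nat.land (Nat.shiftRight m (Nat.land (Nat.shiftRight (Nat.shiftRight m (nat_lit 34)) (Nat.land (Nat.shiftRight (Nat.shiftRight m (nat_lit 17)) (Nat.land (Nat.shiftRight (Nat.shiftRight m (nat_lit 34)) (Nat.land (Nat.shiftRight (Nat.shiftRight m (nat_lit 17)) (Nat.land (Nat.shiftRight (Nat.shiftRight m (nat_lit 34)) (Nat.land (Nat.shiftRight (Nat.shiftRight m (nat_lit 17)) (Nat.land (Nat.shiftRight x (nat_lit 34)) (nat_lit 131071))) (nat_lit 131071))) (nat_lit 131071))) (nat_lit 131071))) (nat_lit 131071))) (nat_lit 131071))) (nat_lit 131071))) (nat_lit 131071))) (nat_lit 131071))) (nat_lit 131071))) (nat_lit 131071))) (nat_lit 131071))) (nat_lit 131071))) (nat_lit 131071)), rfl⟩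
noncomputable def w256 : WW := ⟨.s (.a (.i (.i (.a (.s (.s (.a (.i (.e))))))))), fun m x => (Nat.land (Nat.shiftRight (Nat.shiftRight m (nat_lit 17)) (Nat.land (Nat.shiftRight (Nat.shiftRight m (nat_lit 34)) (Nat.land (Nat.shiftRight m (Nat.land (Nat.shiftRight m (Nat.land (Nat.shiftRight (Nat.shiftRight m (nat_lit 34)) (Nat.land (Nat.shiftRight (Nat.shiftRight m (nat_lit 17)) (Nat.land (Nat.shiftRight (Nat.shiftRight m (nat_lit 17)) (Nat.land (Nat.shiftRight (Nat.shiftRight m (nat_lit 34)) (Nat.land x (nat_lit 131071))) (nat_lit 131071))) (nat_lit 131071))) (nat_lit 131071))) (nat_lit 131071))) (nat_lit 131071))) (nat_lit 131071))) (nat_lit 131071))) (nat_lit 131071)), rfl⟩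
noncomputable def w257 : WW := ⟨.i (.a (.s (.a (.s (.a (.i (.a (.s (.a (.s (.a (.e)))))))))))), fun m x => (Nat.land (Nat.shiftRight (Nat.shiftRight m (nat_lit 34)) (Nat.land (Nat.shiftRight m (Nat.land (Nat.shiftRight (Nat.shiftRight m (nat_lit 34)) (Nat.land (Nat.shiftRight m (Nat.land (Nat.shiftRight (Nat.shiftRight m (nat_lit 34)) (Nat.land (Nat.shiftRight (Nat.shiftRight m (nat_lit 17)) (Nat.land
  (Nat.shiftRight (Nat.shiftRight m (nat_lit 34)) (Nat.land (Nat.shiftRight m (Nat.land (Nat.shiftRight (Nat.shiftRight m (nat_lit 34)) (Nat.land (Nat.shiftRight m (Nat.land (Nat.shiftRight (Nat.shiftRight m (nat_lit 34)) (Nat.land (Nat.shiftRight x (nat_lit 17)) (nat_lit 131071))) (nat_lit 131071))) (nat_lit 131071))) (nat_lit 131071))) (nat_lit 131071))) (nat_lit 131071))) (nat_lit 131071))) (nat_lit 131071))) (nat_lit 131071))) (nat_lit 131071))) (nat_lit 131071))) (nat_lit 131071)), rfl⟩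
noncomputable def w258 : WW := ⟨.a (.i (.a (.s (.a (.i (.a (.i (.a (.i (.a (.s (.a (.i (.a (.i (.e)))))))))))))))), fun m x => (Nat.land (Nat.shiftRight (Nat.shiftRight m (nat_lit 17)) (Nat.land (Nat.shiftRight (Nat.shiftRight m (nat_lit 34)) (Nat.land (Nat.shiftRight (Nat.shiftRight m (nat_lit 17)) (Nat.land (Nat.shiftRight (Nat.shiftRight m (nat_lit 34)) (Nat.land (Nat.shiftRight m (Nat.land (Nat.shiftRight
  (Nat.shiftRight m (nat_lit 34)) (Nat.land (Nat.shiftRight (Nat.shiftRight m (nat_lit 17)) (Nat.land (Nat.shiftRight (Nat.shiftRight m (nat_lit 34)) (Nat.land (Nat.shiftRight (Nat.shiftRight m (nat_lit 17)) (Nat.land (Nat.shiftRight (Nat.shiftRight m (nat_lit 34)) (Nat.land (Nat.shiftRight (Nat.shiftRight m (nat_lit 17)) (Nat.land (Nat.shiftRight (Nat.shiftRight m (nat_lit 34)) (Nat.land (Nat.shiftRight m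
  (Nat.land (Nat.shiftRight (Nat.shiftRight m (nat_lit 34)) (Nat.land (Nat.shiftRight (Nat.shiftRight m (nat_lit 17)) (Nat.land (Nat.shiftRight x (nat_lit 34)) (nat_lit 131071))) (nat_lit 131071))) (nat_lit 131071))) (nat_lit 131071))) (nat_lit 131071))) (nat_lit 131071))) (nat_lit 131071))) (nat_lit 131071))) (nat_lit 131071))) (nat_lit 131071))) (nat_lit 131071))) (nat_lit 131071))) (nat_lit 131071))) (nat_lit 131071))) (nat_lit 131071))) (nat_lit 131071)), rfl⟩
noncomputable def w259 : WW := ⟨.s (.a (.i (.a (.i (.a (.s (.a (.s (.a (.s (.a (.s (.a (.e)))))))))))))), fun m x => (Nat.land (Nat.shiftRight (Nat.shiftRight m (nat_lit 34)) (Nat.land (Nat.shiftRight m (Nat.land (Nat.shiftRight (Nat.shiftRight m (nat_lit 34)) (Nat.land (Nat.shiftRight m (Nat.land (Nat.shiftRight (Nat.shiftRight m (nat_lit 34)) (Nat.land (Nat.shiftRight m (Nat.land (Nat.shiftRight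
  (Nat.shiftRight m (nat_lit 34)) (Nat.land (Nat.shiftRight m (Nat.land (Nat.shiftRight (Nat.shiftRight m (nat_lit 34)) (Nat.land (Nat.shiftRight (Nat.shiftRight m (nat_lit 17)) (Nat.land (Nat.shiftRight (Nat.shiftRight m (nat_lit 34)) (Nat.land (Nat.shiftRight (Nat.shiftRight m (nat_lit 17)) (Nat.land (Nat.shiftRight (Nat.shiftRight m (nat_lit 34)) (Nat.land x (nat_lit 131071))) (nat_lit 131071))) (nat_lit 131071))) (nat_lit 131071))) (nat_lit 131071))) (nat_lit 131071))) (nat_lit 131071))) (nat_lit 131071))) (nat_lit 131071))) (nat_lit 131071))) (nat_lit 131071))) (nat_lit 131071))) (nat_lit 131071))) (nat_lit 131071)), rfl⟩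
noncomputable def w260 : WW := ⟨.a (.s (.a (.s (.a (.s (.a (.s (.a (.s (.a (.i (.a (.s (.a (.s (.a (.s (.a (.e))))))))))))))))))), fun m x => (Nat.land (Nat.shiftRight (Nat.shiftRight m (nat_lit 34)) (Nat.land (Nat.shiftRight m (Nat.land (Nat.shiftRight (Nat.shiftRight m (nat_lit 34)) (Nat.land (Nat.shiftRight m (Nat.land (Nat.shiftRight (Nat.shiftRight m (nat_lit 34)) (Nat.land (Nat.shiftRight m (Nat.land
  (Nat.shiftRight (Nat.shiftRight m (nat_lit 34)) (Nat.land (Nat.shiftRight (Nat.shiftRight m (nat_lit 17)) (Nat.land (Nat.shiftRight (Nat.shiftRight m (nat_lit 34)) (Nat.land (Nat.shiftRight m (Nat.land (Nat.shiftRight (Nat.shiftRight m (nat_lit 34)) (Nat.land (Nat.shiftRight m (Nat.land (Nat.shiftRight (Nat.shiftRight m (nat_lit 34)) (Nat.land (Nat.shiftRight m (Nat.land (Nat.shiftRight (Nat.shiftRight m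
  (nat_lit 34)) (Nat.land (Nat.shiftRight m (Nat.land (Nat.shiftRight (Nat.shiftRight m (nat_lit 34)) (Nat.land (Nat.shiftRight m (Nat.land (Nat.shiftRight x (nat_lit 34)) (nat_lit 131071))) (nat_lit 131071))) (nat_lit 131071))) (nat_lit 131071))) (nat_lit 131071))) (nat_lit 131071))) (nat_lit 131071))) (nat_lit 131071))) (nat_lit 131071))) (nat_lit 131071))) (nat_lit 131071))) (nat_lit 131071))) (nat_lit 131071))) (nat_lit 131071))) (nat_lit 131071))) (nat_lit 131071))) (nat_lit 131071))) (nat_lit 131071))) (nat_lit 131071)), rfl⟩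
noncomputable def w261 : WW := ⟨.a (.i (.a (.i (.a (.s (.s (.a (.i (.e))))))))), fun m x => (Nat.land (Nat.shiftRight (Nat.shiftRight m (nat_lit 17)) (Nat.land (Nat.shiftRight (Nat.shiftRight m (nat_lit 34)) (Nat.land (Nat.shiftRight m (Nat.land (Nat.shiftRight m (Nat.land (Nat.shiftRight (Nat.shiftRight m (nat_lit 34)) (Nat.land (Nat.shiftRight (Nat.shiftRight m (nat_lit 17)) (Nat.land (Nat.shiftRight (Nat.shiftRight m (nat_lit 34)) (Nat.land (Nat.shiftRight (Nat.shiftRight m (nat_lit 17)) (Nat.land (Nat.shiftRight x (nat_lit 34)) (nat_lit 131071))) (nat_lit 131071))) (nat_lit 131071))) (nat_lit 131071))) (nat_lit 131071))) (nat_lit 131071))) (nat_lit 131071))) (nat_lit 131071))) (nat_lit 131071)), rfl⟩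
noncomputable def w262 : WW := ⟨.a (.i (.a (.i (.a (.i (.a (.s (.a (.i (.a (.s (.a (.i (.a (.i (.e)))))))))))))))), fun m x => (Nat.land (Nat.shiftRight (Nat.shiftRight m (nat_lit 17)) (Nat.land (Nat.shiftRight (Nat.shiftRight m (nat_lit 34)) (Nat.land (Nat.shiftRight (Nat.shiftRight m (nat_lit 17)) (Nat.land (Nat.shiftRight (Nat.shiftRight m (nat_lit 34)) (Nat.land (Nat.shiftRight m (Nat.land (Nat.shiftRight
  (Nat.shiftRight m (nat_lit 34)) (Nat.land (Nat.shiftRight (Nat.shiftRight m (nat_lit 17)) (Nat.land (Nat.shiftRight (Nat.shiftRight m (nat_lit 34)) (Nat.land (Nat.shiftRight m (Nat.land (Nat.shiftRight (Nat.shiftRight m (nat_lit 34)) (Nat.land (Nat.shiftRight (Nat.shiftRight m (nat_lit 17)) (Nat.land (Nat.shiftRight (Nat.shiftRight m (nat_lit 34)) (Nat.land (Nat.shiftRight (Nat.shiftRight m (nat_lit 17))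
  (Nat.land (Nat.shiftRight (Nat.shiftRight m (nat_lit 34)) (Nat.land (Nat.shiftRight (Nat.shiftRight m (nat_lit 17)) (Nat.land (Nat.shiftRight x (nat_lit 34)) (nat_lit 131071))) (nat_lit 131071))) (nat_lit 131071))) (nat_lit 131071))) (nat_lit 131071))) (nat_lit 131071))) (nat_lit 131071))) (nat_lit 131071))) (nat_lit 131071))) (nat_lit 131071))) (nat_lit 131071))) (nat_lit 131071))) (nat_lit 131071))) (nat_lit 131071))) (nat_lit 131071))) (nat_lit 131071)), rfl⟩
noncomputable def w263 : WW := ⟨.s (.a (.i (.a (.s (.a (.s (.a (.s (.a (.s (.a (.s (.a (.s (.a (.s (.a (.i (.e))))))))))))))))))), fun m x => (Nat.land (Nat.shiftRight (Nat.shiftRight m (nat_lit 17)) (Nat.land (Nat.shiftRight (Nat.shiftRight m (nat_lit 34)) (Nat.land (Nat.shiftRight m (Nat.land (Nat.shiftRight (Nat.shiftRight m (nat_lit 34)) (Nat.land (Nat.shiftRight m (Nat.land (Nat.shiftRight (Nat.shiftRight m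
  (nat_lit 34)) (Nat.land (Nat.shiftRight m (Nat.land (Nat.shiftRight (Nat.shiftRight m (nat_lit 34)) (Nat.land (Nat.shiftRight m (Nat.land (Nat.shiftRight (Nat.shiftRight m (nat_lit 34)) (Nat.land (Nat.shiftRight m (Nat.land (Nat.shiftRight (Nat.shiftRight m (nat_lit 34)) (Nat.land (Nat.shiftRight m (Nat.land (Nat.shiftRight (Nat.shiftRight m (nat_lit 34)) (Nat.land (Nat.shiftRight m (Nat.land (Nat.shiftRight
  (Nat.shiftRight m (nat_lit 34)) (Nat.land (Nat.shiftRight (Nat.shiftRight m (nat_lit 17)) (Nat.land (Nat.shiftRight (Nat.shiftRight m (nat_lit 34)) (Nat.land x (nat_lit 131071))) (nat_lit 131071))) (nat_lit 131071))) (nat_lit 131071))) (nat_lit 131071))) (nat_lit 131071))) (nat_lit 131071))) (nat_lit 131071))) (nat_lit 131071))) (nat_lit 131071))) (nat_lit 131071))) (nat_lit 131071))) (nat_lit 131071))) (nat_lit 131071))) (nat_lit 131071))) (nat_lit 131071))) (nat_lit 131071))) (nat_lit 131071))) (nat_lit 131071)), rfl⟩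
noncomputable def w264 : WW := ⟨.s (.a (.s (.a (.s (.a (.s (.a (.i (.a (.s (.a (.e)))))))))))), fun m x => (Nat.land (Nat.shiftRight (Nat.shiftRight m (nat_lit 34)) (Nat.land (Nat.shiftRight m (Nat.land (Nat.shiftRight (Nat.shiftRight m (nat_lit 34)) (Nat.land (Nat.shiftRight (Nat.shiftRight m (nat_lit 17)) (Nat.land (Nat.shiftRight (Nat.shiftRight m (nat_lit 34)) (Nat.land (Nat.shiftRight m (Nat.land
  (Nat.shiftRight (Nat.shiftRight m (nat_lit 34)) (Nat.land (Nat.shiftRight m (Nat.land (Nat.shiftRight (Nat.shiftRight m (nat_lit 34)) (Nat.land (Nat.shiftRight m (Nat.land (Nat.shiftRight (Nat.shiftRight m (nat_lit 34)) (Nat.land x (nat_lit 131071))) (nat_lit 131071))) (nat_lit 131071))) (nat_lit 131071))) (nat_lit 131071))) (nat_lit 131071))) (nat_lit 131071))) (nat_lit 131071))) (nat_lit 131071))) (nat_lit 131071))) (nat_lit 131071))) (nat_lit 131071)), rfl⟩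
noncomputable def w265 : WW := ⟨.s (.a (.s (.a (.s (.a (.s (.a (.s (.a (.i (.a (.i (.a (.i (.a (.i (.a (.s (.a (.i (.a (.s (.a (.i (.a (.i (.e))))))))))))))))))))))))))), fun m x => (Nat.land (Nat.shiftRight (Nat.shiftRight m (nat_lit 17)) (Nat.land (Nat.shiftRight (Nat.shiftRight m (nat_lit 34)) (Nat.land (Nat.shiftRight (Nat.shiftRight m (nat_lit 17)) (Nat.land (Nat.shiftRight (Nat.shiftRight m (nat_lit 34))
  (Nat.land (Nat.shiftRight m (Nat.land (Nat.shiftRight (Nat.shiftRight m (nat_lit 34)) (Nat.land (Nat.shiftRight (Nat.shiftRight m (nat_lit 17)) (Nat.land (Nat.shiftRight (Nat.shiftRight m (nat_lit 34)) (Nat.land (Nat.shiftRight m (Nat.land (Nat.shiftRight (Nat.shiftRight m (nat_lit 34)) (Nat.land (Nat.shiftRight (Nat.shiftRight m (nat_lit 17)) (Nat.land (Nat.shiftRight (Nat.shiftRight m (nat_lit 34))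
  (Nat.land (Nat.shiftRight (Nat.shiftRight m (nat_lit 17)) (Nat.land (Nat.shiftRight (Nat.shiftRight m (nat_lit 34)) (Nat.land (Nat.shiftRight (Nat.shiftRight m (nat_lit 17)) (Nat.land (Nat.shiftRight (Nat.shiftRight m (nat_lit 34)) (Nat.land (Nat.shiftRight (Nat.shiftRight m (nat_lit 17)) (Nat.land (Nat.shiftRight (Nat.shiftRight m (nat_lit 34)) (Nat.land (Nat.shiftRight m (Nat.land (Nat.shiftRight
  (Nat.shiftRight m (nat_lit 34)) (Nat.land (Nat.shiftRight m (Nat.land (Nat.shiftRight (Nat.shiftRight m (nat_lit 34)) (Nat.land (Nat.shiftRight m (Nat.land (Nat.shiftRight (Nat.shiftRight m (nat_lit 34)) (Nat.land (Nat.shiftRight m (Nat.land (Nat.shiftRight (Nat.shiftRight m (nat_lit 34)) (Nat.land x (nat_lit 131071))) (nat_lit 131071))) (nat_lit 131071))) (nat_lit 131071))) (nat_lit 131071))) (nat_lit 131071)))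
  (nat_lit 131071))) (nat_lit 131071))) (nat_lit 131071))) (nat_lit 131071))) (nat_lit 131071))) (nat_lit 131071))) (nat_lit 131071))) (nat_lit 131071))) (nat_lit 131071))) (nat_lit 131071))) (nat_lit 131071))) (nat_lit 131071))) (nat_lit 131071))) (nat_lit 131071))) (nat_lit 131071))) (nat_lit 131071))) (nat_lit 131071))) (nat_lit 131071))) (nat_lit 131071))) (nat_lit 131071))) (nat_lit 131071)), rfl⟩
noncomputable def w266 : WW := ⟨.a (.s (.a (.s (.a (.s (.a (.s (.a (.i (.a (.i (.i (.a (.s (.a (.s (.a (.e)))))))))))))))))), fun m x => (Nat.land (Nat.shiftRight (Nat.shiftRight m (nat_lit 34)) (Nat.land (Nat.shiftRight m (Nat.land (Nat.shiftRight (Nat.shiftRight m (nat_lit 34)) (Nat.land (Nat.shiftRight m (Nat.land (Nat.shiftRight (Nat.shiftRight m (nat_lit 34)) (Nat.land (Nat.shiftRight (Nat.shiftRight m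
  (nat_lit 17)) (Nat.land (Nat.shiftRight (Nat.shiftRight m (nat_lit 17)) (Nat.land (Nat.shiftRight (Nat.shiftRight m (nat_lit 34)) (Nat.land (Nat.shiftRight (Nat.shiftRight m (nat_lit 17)) (Nat.land (Nat.shiftRight (Nat.shiftRight m (nat_lit 34)) (Nat.land (Nat.shiftRight m (Nat.land (Nat.shiftRight (Nat.shiftRight m (nat_lit 34)) (Nat.land (Nat.shiftRight m (Nat.land (Nat.shiftRight (Nat.shiftRight m
  (nat_lit 34)) (Nat.land (Nat.shiftRight m (Nat.land (Nat.shiftRight (Nat.shiftRight m (nat_lit 34)) (Nat.land (Nat.shiftRight m (Nat.land (Nat.shiftRight x (nat_lit 34)) (nat_lit 131071))) (nat_lit 131071))) (nat_lit 131071))) (nat_lit 131071))) (nat_lit 131071))) (nat_lit 131071))) (nat_lit 131071))) (nat_lit 131071))) (nat_lit 131071))) (nat_lit 131071))) (nat_lit 131071))) (nat_lit 131071))) (nat_lit 131071))) (nat_lit 131071))) (nat_lit 131071))) (nat_lit 131071))) (nat_lit 131071))) (nat_lit 131071)), rfl⟩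
noncomputable def w267 : WW := ⟨.i (.a (.i (.a (.s (.a (.e)))))), fun m x => (Nat.land (Nat.shiftRight (Nat.shiftRight m (nat_lit 34)) (Nat.land (Nat.shiftRight m (Nat.land (Nat.shiftRight (Nat.shiftRight m (nat_lit 34)) (Nat.land (Nat.shiftRight (Nat.shiftRight m (nat_lit 17)) (Nat.land (Nat.shiftRight (Nat.shiftRight m (nat_lit 34)) (Nat.land (Nat.shiftRight x (nat_lit 17)) (nat_lit 131071))) (nat_lit 131071))) (nat_lit 131071))) (nat_lit 131071))) (nat_lit 131071))) (nat_lit 131071)), rfl⟩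
noncomputable def w268 : WW := ⟨.i (.a (.s (.a (.i (.a (.s (.a (.s (.a (.s (.a (.s (.a (.i (.a (.s (.a (.s (.a (.s (.a (.e)))))))))))))))))))))), fun m x => (Nat.land (Nat.shiftRight (Nat.shiftRight m (nat_lit 34)) (Nat.land (Nat.shiftRight m (Nat.land (Nat.shiftRight (Nat.shiftRight m (nat_lit 34)) (Nat.land (Nat.shiftRight m (Nat.land (Nat.shiftRight (Nat.shiftRight m (nat_lit 34)) (Nat.land (Nat.shiftRight m
  (Nat.land (Nat.shiftRight (Nat.shiftRight m (nat_lit 34)) (Nat.land (Nat.shiftRight (Nat.shiftRight m (nat_lit 17)) (Nat.land (Nat.shiftRight (Nat.shiftRight m (nat_lit 34)) (Nat.land (Nat.shiftRight m (Nat.land (Nat.shiftRight (Nat.shiftRight m (nat_lit 34)) (Nat.land (Nat.shiftRight m (Nat.land (Nat.shiftRight (Nat.shiftRight m (nat_lit 34)) (Nat.land (Nat.shiftRight m (Nat.land (Nat.shiftRight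
  (Nat.shiftRight m (nat_lit 34)) (Nat.land (Nat.shiftRight m (Nat.land (Nat.shiftRight (Nat.shiftRight m (nat_lit 34)) (Nat.land (Nat.shiftRight (Nat.shiftRight m (nat_lit 17)) (Nat.land (Nat.shiftRight (Nat.shiftRight m (nat_lit 34)) (Nat.land (Nat.shiftRight m (Nat.land (Nat.shiftRight (Nat.shiftRight m (nat_lit 34)) (Nat.land (Nat.shiftRight x (nat_lit 17)) (nat_lit 131071))) (nat_lit 131071))) (nat_lit 131071))) (nat_lit 131071))) (nat_lit 131071))) (nat_lit 131071))) (nat_lit 131071))) (nat_lit 131071))) (nat_lit 131071))) (nat_lit 131071))) (nat_lit 131071))) (nat_lit 131071))) (nat_lit 131071))) (nat_lit 131071))) (nat_lit 131071))) (nat_lit 131071))) (nat_lit 131071))) (nat_lit 131071))) (nat_lit 131071))) (nat_lit 131071))) (nat_lit 131071))) (nat_lit 131071)), rfl⟩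
noncomputable def w269 : WW := ⟨.a (.s (.a (.s (.a (.s (.a (.s (.a (.s (.a (.i (.a (.i (.a (.s (.a (.e))))))))))))))))), fun m x => (Nat.land (Nat.shiftRight (Nat.shiftRight m (nat_lit 34)) (Nat.land (Nat.shiftRight m (Nat.land (Nat.shiftRight (Nat.shiftRight m (nat_lit 34)) (Nat.land (Nat.shiftRight (Nat.shiftRight m (nat_lit 17)) (Nat.land (Nat.shiftRight (Nat.shiftRight m (nat_lit 34)) (Nat.land
  (Nat.shiftRight (Nat.shiftRight m (nat_lit 17)) (Nat.land (Nat.shiftRight (Nat.shiftRight m (nat_lit 34)) (Nat.land (Nat.shiftRight m (Nat.land (Nat.shiftRight (Nat.shiftRight m (nat_lit 34)) (Nat.land (Nat.shiftRight m (Nat.land (Nat.shiftRight (Nat.shiftRight m (nat_lit 34)) (Nat.land (Nat.shiftRight m (Nat.land (Nat.shiftRight (Nat.shiftRight m (nat_lit 34)) (Nat.land (Nat.shiftRight m (Nat.land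
  (Nat.shiftRight (Nat.shiftRight m (nat_lit 34)) (Nat.land (Nat.shiftRight m (Nat.land (Nat.shiftRight x (nat_lit 34)) (nat_lit 131071))) (nat_lit 131071))) (nat_lit 131071))) (nat_lit 131071))) (nat_lit 131071))) (nat_lit 131071))) (nat_lit 131071))) (nat_lit 131071))) (nat_lit 131071))) (nat_lit 131071))) (nat_lit 131071))) (nat_lit 131071))) (nat_lit 131071))) (nat_lit 131071))) (nat_lit 131071))) (nat_lit 131071))) (nat_lit 131071)), rfl⟩
noncomputable def w270 : WW := ⟨.a (.i (.a (.i (.a (.s (.a (.e))))))), fun m x => (Nat.land (Nat.shiftRight (Nat.shiftRight m (nat_lit 34)) (Nat.land (Nat.shiftRight m (Nat.land (Nat.shiftRight (Nat.shiftRight m (nat_lit 34)) (Nat.land (Nat.shiftRight (Nat.shiftRight m (nat_lit 17)) (Nat.land (Nat.shiftRight (Nat.shiftRight m (nat_lit 34)) (Nat.land (Nat.shiftRight (Nat.shiftRight m (nat_lit 17)) (Nat.land (Nat.shiftRight x (nat_lit 34)) (nat_lit 131071))) (nat_lit 131071))) (nat_lit 131071))) (nat_lit 131071)))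 (nat_lit 131071))) (nat_lit 131071))) (nat_lit 131071)), rfl⟩
noncomputable def w271 : WW := ⟨.a (.i (.a (.s (.a (.i (.a (.s (.a (.e))))))))), fun m x => (Nat.land (Nat.shiftRight (Nat.shiftRight m (nat_lit 34)) (Nat.land (Nat.shiftRight m (Nat.land (Nat.shiftRight (Nat.shiftRight m (nat_lit 34)) (Nat.land (Nat.shiftRight (Nat.shiftRight m (nat_lit 17)) (Nat.land (Nat.shiftRight (Nat.shiftRight m (nat_lit 34)) (Nat.land (Nat.shiftRight m (Nat.land (Nat.shiftRight (Nat.shiftRight m (nat_lit 34)) (Nat.land (Nat.shiftRight (Nat.shiftRight m (nat_lit 17)) (Nat.land (Nat.shiftRight x (nat_lit 34)) (nat_lit 131071))) (nat_lit 131071))) (nat_lit 131071))) (nat_lit 131071))) (nat_lit 131071))) (nat_lit 131071))) (nat_lit 131071))) (nat_lit 131071))) (nat_lit 131071)), rfl⟩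
noncomputable def w272 : WW := ⟨.s (.a (.i (.i (.a (.e))))), fun m x => (Nat.land (Nat.shiftRight (Nat.shiftRight m (nat_lit 34)) (Nat.land (Nat.shiftRight (Nat.shiftRight m (nat_lit 17)) (Nat.land (Nat.shiftRight (Nat.shiftRight m (nat_lit 17)) (Nat.land (Nat.shiftRight (Nat.shiftRight m (nat_lit 34)) (Nat.land x (nat_lit 131071))) (nat_lit 131071))) (nat_lit 131071))) (nat_lit 131071))) (nat_lit 131071)), rfl⟩
noncomputable def w273 : WW := ⟨.s (.a (.s (.a (.i (.a (.i (.a (.e)))))))), fun m x => (Nat.land (Nat.shiftRight (Nat.shiftRight m (nat_lit 34)) (Nat.land (Nat.shiftRight (Nat.shiftRight m (nat_lit 17)) (Nat.land (Nat.shiftRight (Nat.shiftRight m (nat_lit 34)) (Nat.land (Nat.shiftRight (Nat.shiftRight m (nat_lit 17)) (Nat.land (Nat.shiftRight (Nat.shiftRight m (nat_lit 34)) (Nat.land (Nat.shiftRight m (Nat.land (Nat.shiftRight (Nat.shiftRight m (nat_lit 34)) (Nat.land x (nat_lit 131071))) (nat_lit 131071))) (nat_lit 131071))) (nat_lit 131071)))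 (nat_lit 131071))) (nat_lit 131071))) (nat_lit 131071))) (nat_lit 131071)), rfl⟩
noncomputable def w274 : WW := ⟨.s (.a (.s (.a (.i (.a (.i (.a (.i (.a (.e)))))))))), fun m x => (Nat.land (Nat.shiftRight (Nat.shiftRight m (nat_lit 34)) (Nat.land (Nat.shiftRight (Nat.shiftRight m (nat_lit 17)) (Nat.land (Nat.shiftRight (Nat.shiftRight m (nat_lit 34)) (Nat.land (Nat.shiftRight (Nat.shiftRight m (nat_lit 17)) (Nat.land (Nat.shiftRight (Nat.shiftRight m (nat_lit 34)) (Nat.land (Nat.shiftRight (Nat.shiftRight m (nat_lit 17)) (Nat.land (Nat.shiftRight (Nat.shiftRight m (nat_lit 34)) (Nat.land (Nat.shiftRight m (Nat.land (Nat.shiftRight (Nat.shiftRight m (nat_lit 34)) (Nat.land x (nat_lit 131071))) (nat_lit 131071))) (nat_lit 131071))) (nat_lit 131071))) (nat_lit 131071))) (nat_lit 131071))) (nat_lit 131071))) (nat_lit 131071))) (nat_lit 131071))) (nat_lit 131071)), rfl⟩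
noncomputable def w275 : WW := ⟨.a (.i (.a (.e))), fun m x => (Nat.land (Nat.shiftRight (Nat.shiftRight m (nat_lit 34)) (Nat.land (Nat.shiftRight (Nat.shiftRight m (nat_lit 17)) (Nat.land (Nat.shiftRight x (nat_lit 34)) (nat_lit 131071))) (nat_lit 131071))) (nat_lit 131071)), rfl⟩
noncomputable def w276 : WW := ⟨.a (.i (.a (.s (.a (.i (.a (.i (.a (.i (.a (.s (.s (.a (.s (.s (.a (.i (.i (.a (.s (.a (.e)))))))))))))))))))))), fun m x => (Nat.land (Nat.shiftRight (Nat.shiftRight m (nat_lit 34)) (Nat.land (Nat.shiftRight m (Nat.land (Nat.shiftRight (Nat.shiftRight m (nat_lit 34)) (Nat.land (Nat.shiftRight (Nat.shiftRight m (nat_lit 17)) (Nat.land (Nat.shiftRight (Nat.shiftRight m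
  (nat_lit 17)) (Nat.land (Nat.shiftRight (Nat.shiftRight m (nat_lit 34)) (Nat.land (Nat.shiftRight m (Nat.land (Nat.shiftRight m (Nat.land (Nat.shiftRight (Nat.shiftRight m (nat_lit 34)) (Nat.land (Nat.shiftRight m (Nat.land (Nat.shiftRight m (Nat.land (Nat.shiftRight (Nat.shiftRight m (nat_lit 34)) (Nat.land (Nat.shiftRight (Nat.shiftRight m (nat_lit 17)) (Nat.land (Nat.shiftRight (Nat.shiftRight m
  (nat_lit 34)) (Nat.land (Nat.shiftRight (Nat.shiftRight m (nat_lit 17)) (Nat.land (Nat.shiftRight (Nat.shiftRight m (nat_lit 34)) (Nat.land (Nat.shiftRight (Nat.shiftRight m (nat_lit 17)) (Nat.land (Nat.shiftRight (Nat.shiftRight m (nat_lit 34)) (Nat.land (Nat.shiftRight m (Nat.land (Nat.shiftRight (Nat.shiftRight m (nat_lit 34)) (Nat.land (Nat.shiftRight (Nat.shiftRight m (nat_lit 17)) (Nat.land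
  (Nat.shiftRight x (nat_lit 34)) (nat_lit 131071))) (nat_lit 131071))) (nat_lit 131071))) (nat_lit 131071))) (nat_lit 131071))) (nat_lit 131071))) (nat_lit 131071))) (nat_lit 131071))) (nat_lit 131071))) (nat_lit 131071))) (nat_lit 131071))) (nat_lit 131071))) (nat_lit 131071))) (nat_lit 131071))) (nat_lit 131071))) (nat_lit 131071))) (nat_lit 131071))) (nat_lit 131071))) (nat_lit 131071))) (nat_lit 131071))) (nat_lit 131071))) (nat_lit 131071)), rfl⟩
noncomputable def w277 : WW := ⟨.a (.s (.a (.s (.a (.s (.s (.a (.i (.i (.a (.s (.a (.e))))))))))))), fun m x => (Nat.land (Nat.shiftRight (Nat.shiftRight m (nat_lit 34)) (Nat.land (Nat.shiftRight m (Nat.land (Nat.shiftRight (Nat.shiftRight m (nat_lit 34)) (Nat.land (Nat.shiftRight (Nat.shiftRight m (nat_lit 17)) (Nat.land (Nat.shiftRight (Nat.shiftRight m (nat_lit 17)) (Nat.land (Nat.shiftRight (Nat.shiftRight m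
  (nat_lit 34)) (Nat.land (Nat.shiftRight m (Nat.land (Nat.shiftRight m (Nat.land (Nat.shiftRight (Nat.shiftRight m (nat_lit 34)) (Nat.land (Nat.shiftRight m (Nat.land (Nat.shiftRight (Nat.shiftRight m (nat_lit 34)) (Nat.land (Nat.shiftRight m (Nat.land (Nat.shiftRight x (nat_lit 34)) (nat_lit 131071))) (nat_lit 131071))) (nat_lit 131071))) (nat_lit 131071))) (nat_lit 131071))) (nat_lit 131071))) (nat_lit 131071))) (nat_lit 131071))) (nat_lit 131071))) (nat_lit 131071))) (nat_lit 131071))) (nat_lit 131071))) (nat_lit 131071)), rfl⟩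
noncomputable def w278 : WW := ⟨.a (.i (.a (.s (.a (.i (.a (.s (.a (.s (.a (.s (.a (.s (.a (.e))))))))))))))), fun m x => (Nat.land (Nat.shiftRight (Nat.shiftRight m (nat_lit 34)) (Nat.land (Nat.shiftRight m (Nat.land (Nat.shiftRight (Nat.shiftRight m (nat_lit 34)) (Nat.land (Nat.shiftRight m (Nat.land (Nat.shiftRight (Nat.shiftRight m (nat_lit 34)) (Nat.land (Nat.shiftRight m (Nat.land (Nat.shiftRight
  (Nat.shiftRight m (nat_lit 34)) (Nat.land (Nat.shiftRight m (Nat.land (Nat.shiftRight (Nat.shiftRight m (nat_lit 34)) (Nat.land (Nat.shiftRight (Nat.shiftRight m (nat_lit 17)) (Nat.land (Nat.shiftRight (Nat.shiftRight m (nat_lit 34)) (Nat.land (Nat.shiftRight m (Nat.land (Nat.shiftRight (Nat.shiftRight m (nat_lit 34)) (Nat.land (Nat.shiftRight (Nat.shiftRight m (nat_lit 17)) (Nat.land (Nat.shiftRight x (nat_lit 34)) (nat_lit 131071))) (nat_lit 131071))) (nat_lit 131071))) (nat_lit 131071))) (nat_lit 131071))) (nat_lit 131071))) (nat_lit 131071))) (nat_lit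 131071))) (nat_lit 131071))) (nat_lit 131071))) (nat_lit 131071))) (nat_lit 131071))) (nat_lit 131071))) (nat_lit 131071))) (nat_lit 131071)), rfl⟩
noncomputable def w279 : WW := ⟨.a (.i (.a (.s (.a (.s (.a (.e))))))), fun m x => (Nat.land (Nat.shiftRight (Nat.shiftRight m (nat_lit 34)) (Nat.land (Nat.shiftRight m (Nat.land (Nat.shiftRight (Nat.shiftRight m (nat_lit 34)) (Nat.land (Nat.shiftRight m (Nat.land (Nat.shiftRight (Nat.shiftRight m (nat_lit 34)) (Nat.land (Nat.shiftRight (Nat.shiftRight m (nat_lit 17)) (Nat.land (Nat.shiftRight x (nat_lit 34)) (nat_lit 131071))) (nat_lit 131071))) (nat_lit 131071))) (nat_lit 131071))) (nat_lit 131071))) (nat_lit 131071))) (nat_lit 131071)), rfl⟩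
noncomputable def w280 : WW := ⟨.a (.i (.a (.s (.a (.e))))), fun m x => (Nat.land (Nat.shiftRight (Nat.shiftRight m (nat_lit 34)) (Nat.land (Nat.shiftRight m (Nat.land (Nat.shiftRight (Nat.shiftRight m (nat_lit 34)) (Nat.land (Nat.shiftRight (Nat.shiftRight m (nat_lit 17)) (Nat.land (Nat.shiftRight x (nat_lit 34)) (nat_lit 131071))) (nat_lit 131071))) (nat_lit 131071))) (nat_lit 131071))) (nat_lit 131071)), rfl⟩
noncomputable def w281 : WW := ⟨.s (.a (.s (.a (.i (.a (.s (.a (.s (.a (.s (.a (.i (.a (.s (.a (.s (.a (.s (.a (.s (.a (.e)))))))))))))))))))))), fun m x => (Nat.land (Nat.shiftRight (Nat.shiftRight m (nat_lit 34)) (Nat.land (Nat.shiftRight m (Nat.land (Nat.shiftRight (Nat.shiftRight m (nat_lit 34)) (Nat.land (Nat.shiftRight m (Nat.land (Nat.shiftRight (Nat.shiftRight m (nat_lit 34)) (Nat.land (Nat.shiftRight m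
  (Nat.land (Nat.shiftRight (Nat.shiftRight m (nat_lit 34)) (Nat.land (Nat.shiftRight m (Nat.land (Nat.shiftRight (Nat.shiftRight m (nat_lit 34)) (Nat.land (Nat.shiftRight (Nat.shiftRight m (nat_lit 17)) (Nat.land (Nat.shiftRight (Nat.shiftRight m (nat_lit 34)) (Nat.land (Nat.shiftRight m (Nat.land (Nat.shiftRight (Nat.shiftRight m (nat_lit 34)) (Nat.land (Nat.shiftRight m (Nat.land (Nat.shiftRight
  (Nat.shiftRight m (nat_lit 34)) (Nat.land (Nat.shiftRight m (Nat.land (Nat.shiftRight (Nat.shiftRight m (nat_lit 34)) (Nat.land (Nat.shiftRight (Nat.shiftRight m (nat_lit 17)) (Nat.land (Nat.shiftRight (Nat.shiftRight m (nat_lit 34)) (Nat.land (Nat.shiftRight m (Nat.land (Nat.shiftRight (Nat.shiftRight m (nat_lit 34)) (Nat.land x (nat_lit 131071))) (nat_lit 131071))) (nat_lit 131071))) (nat_lit 131071))) (nat_lit 131071))) (nat_lit 131071))) (nat_lit 131071))) (nat_lit 131071))) (nat_lit 131071))) (nat_lit 131071))) (nat_lit 131071))) (nat_lit 131071)))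 (nat_lit 131071))) (nat_lit 131071))) (nat_lit 131071))) (nat_lit 131071))) (nat_lit 131071))) (nat_lit 131071))) (nat_lit 131071))) (nat_lit 131071))) (nat_lit 131071))) (nat_lit 131071)), rfl⟩
noncomputable def w282 : WW := ⟨.s (.a (.i (.a (.i (.a (.s (.a (.s (.a (.s (.a (.i (.a (.s (.a (.s (.a (.s (.a (.s (.a (.s (.a (.s (.a (.s (.a (.i (.e))))))))))))))))))))))))))))), fun m x => (Nat.land (Nat.shiftRight (Nat.shiftRight m (nat_lit 17)) (Nat.land (Nat.shiftRight (Nat.shiftRight m (nat_lit 34)) (Nat.land (Nat.shiftRight m (Nat.land (Nat.shiftRight (Nat.shiftRight m (nat_lit 34)) (Nat.land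
  (Nat.shiftRight m (Nat.land (Nat.shiftRight (Nat.shiftRight m (nat_lit 34)) (Nat.land (Nat.shiftRight m (Nat.land (Nat.shiftRight (Nat.shiftRight m (nat_lit 34)) (Nat.land (Nat.shiftRight m (Nat.land (Nat.shiftRight (Nat.shiftRight m (nat_lit 34)) (Nat.land (Nat.shiftRight m (Nat.land (Nat.shiftRight (Nat.shiftRight m (nat_lit 34)) (Nat.land (Nat.shiftRight m (Nat.land (Nat.shiftRight (Nat.shiftRight m
  (nat_lit 34)) (Nat.land (Nat.shiftRight m (Nat.land (Nat.shiftRight (Nat.shiftRight m (nat_lit 34)) (Nat.land (Nat.shiftRight (Nat.shiftRight m (nat_lit 17)) (Nat.land (Nat.shiftRight (Nat.shiftRight m (nat_lit 34)) (Nat.land (Nat.shiftRight m (Nat.land (Nat.shiftRight (Nat.shiftRight m (nat_lit 34)) (Nat.land (Nat.shiftRight m (Nat.land (Nat.shiftRight (Nat.shiftRight m (nat_lit 34)) (Nat.land (Nat.shiftRight m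
  (Nat.land (Nat.shiftRight (Nat.shiftRight m (nat_lit 34)) (Nat.land (Nat.shiftRight (Nat.shiftRight m (nat_lit 17)) (Nat.land (Nat.shiftRight (Nat.shiftRight m (nat_lit 34)) (Nat.land (Nat.shiftRight (Nat.shiftRight m (nat_lit 17)) (Nat.land (Nat.shiftRight (Nat.shiftRight m (nat_lit 34)) (Nat.land x (nat_lit 131071))) (nat_lit 131071))) (nat_lit 131071))) (nat_lit 131071))) (nat_lit 131071))) (nat_lit 131071)))
  (nat_lit 131071))) (nat_lit 131071))) (nat_lit 131071))) (nat_lit 131071))) (nat_lit 131071))) (nat_lit 131071))) (nat_lit 131071))) (nat_lit 131071))) (nat_lit 131071))) (nat_lit 131071))) (nat_lit 131071))) (nat_lit 131071))) (nat_lit 131071))) (nat_lit 131071))) (nat_lit 131071))) (nat_lit 131071))) (nat_lit 131071))) (nat_lit 131071))) (nat_lit 131071))) (nat_lit 131071))) (nat_lit 131071))) (nat_lit 131071))) (nat_lit 131071)), rfl⟩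
noncomputable def w283 : WW := ⟨.a (.s (.a (.s (.a (.s (.a (.s (.a (.s (.a (.e))))))))))), fun m x => (Nat.land (Nat.shiftRight (Nat.shiftRight m (nat_lit 34)) (Nat.land (Nat.shiftRight m (Nat.land (Nat.shiftRight (Nat.shiftRight m (nat_lit 34)) (Nat.land (Nat.shiftRight m (Nat.land (Nat.shiftRight (Nat.shiftRight m (nat_lit 34)) (Nat.land (Nat.shiftRight m (Nat.land (Nat.shiftRight (Nat.shiftRight m (nat_lit 34)) (Nat.land (Nat.shiftRight m (Nat.land (Nat.shiftRight (Nat.shiftRight m (nat_lit 34)) (Nat.land (Nat.shiftRight m (Nat.land (Nat.shiftRight x (nat_lit 34)) (nat_lit 131071))) (nat_lit 131071))) (nat_lit 131071))) (nat_lit 131071))) (nat_lit 131071))) (nat_lit 131071))) (nat_lit 131071))) (nat_lit 131071))) (nat_lit 131071))) (nat_lit 131071))) (nat_lit 131071)), rfl⟩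
noncomputable def w284 : WW := ⟨.s (.a (.s (.a (.i (.a (.s (.a (.s (.a (.s (.a (.i (.a (.s (.a (.s (.a (.s (.a (.s (.a (.s (.a (.e)))))))))))))))))))))))), fun m x => (Nat.land (Nat.shiftRight (Nat.shiftRight m (nat_lit 34)) (Nat.land (Nat.shiftRight m (Nat.land (Nat.shiftRight (Nat.shiftRight m (nat_lit 34)) (Nat.land (Nat.shiftRight m (Nat.land (Nat.shiftRight (Nat.shiftRight m (nat_lit 34)) (Nat.land
  (Nat.shiftRight m (Nat.land (Nat.shiftRight (Nat.shiftRight m (nat_lit 34)) (Nat.land (Nat.shiftRight m (Nat.land (Nat.shiftRight (Nat.shiftRight m (nat_lit 34)) (Nat.land (Nat.shiftRight m (Nat.land (Nat.shiftRight (Nat.shiftRight m (nat_lit 34)) (Nat.land (Nat.shiftRight (Nat.shiftRight m (nat_lit 17)) (Nat.land (Nat.shiftRight (Nat.shiftRight m (nat_lit 34)) (Nat.land (Nat.shiftRight m (Nat.land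
  (Nat.shiftRight (Nat.shiftRight m (nat_lit 34)) (Nat.land (Nat.shiftRight m (Nat.land (Nat.shiftRight (Nat.shiftRight m (nat_lit 34)) (Nat.land (Nat.shiftRight m (Nat.land (Nat.shiftRight (Nat.shiftRight m (nat_lit 34)) (Nat.land (Nat.shiftRight (Nat.shiftRight m (nat_lit 17)) (Nat.land (Nat.shiftRight (Nat.shiftRight m (nat_lit 34)) (Nat.land (Nat.shiftRight m (Nat.land (Nat.shiftRight (Nat.shiftRight m
  (nat_lit 34)) (Nat.land x (nat_lit 131071))) (nat_lit 131071))) (nat_lit 131071))) (nat_lit 131071))) (nat_lit 131071))) (nat_lit 131071))) (nat_lit 131071))) (nat_lit 131071))) (nat_lit 131071))) (nat_lit 131071))) (nat_lit 131071))) (nat_lit 131071))) (nat_lit 131071))) (nat_lit 131071))) (nat_lit 131071))) (nat_lit 131071))) (nat_lit 131071))) (nat_lit 131071))) (nat_lit 131071))) (nat_lit 131071))) (nat_lit 131071))) (nat_lit 131071))) (nat_lit 131071))) (nat_lit 131071)), rfl⟩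
noncomputable def w285 : WW := ⟨.s (.a (.s (.a (.i (.i (.a (.s (.a (.s (.a (.s (.a (.i (.i (.a (.s (.a (.i (.a (.s (.a (.e)))))))))))))))))))))), fun m x => (Nat.land (Nat.shiftRight (Nat.shiftRight m (nat_lit 34)) (Nat.land (Nat.shiftRight m (Nat.land (Nat.shiftRight (Nat.shiftRight m (nat_lit 34)) (Nat.land (Nat.shiftRight (Nat.shiftRight m (nat_lit 17)) (Nat.land (Nat.shiftRight (Nat.shiftRight m
  (nat_lit 34)) (Nat.land (Nat.shiftRight m (Nat.land (Nat.shiftRight (Nat.shiftRight m (nat_lit 34)) (Nat.land (Nat.shiftRight (Nat.shiftRight m (nat_lit 17)) (Nat.land (Nat.shiftRight (Nat.shiftRight m (nat_lit 17)) (Nat.land (Nat.shiftRight (Nat.shiftRight m (nat_lit 34)) (Nat.land (Nat.shiftRight m (Nat.land (Nat.shiftRight (Nat.shiftRight m (nat_lit 34)) (Nat.land (Nat.shiftRight m (Nat.land (Nat.shiftRight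
  (Nat.shiftRight m (nat_lit 34)) (Nat.land (Nat.shiftRight m (Nat.land (Nat.shiftRight (Nat.shiftRight m (nat_lit 34)) (Nat.land (Nat.shiftRight (Nat.shiftRight m (nat_lit 17)) (Nat.land (Nat.shiftRight (Nat.shiftRight m (nat_lit 17)) (Nat.land (Nat.shiftRight (Nat.shiftRight m (nat_lit 34)) (Nat.land (Nat.shiftRight m (Nat.land (Nat.shiftRight (Nat.shiftRight m (nat_lit 34)) (Nat.land x (nat_lit 131071)))
  (nat_lit 131071))) (nat_lit 131071))) (nat_lit 131071))) (nat_lit 131071))) (nat_lit 131071))) (nat_lit 131071))) (nat_lit 131071))) (nat_lit 131071))) (nat_lit 131071))) (nat_lit 131071))) (nat_lit 131071))) (nat_lit 131071))) (nat_lit 131071))) (nat_lit 131071))) (nat_lit 131071))) (nat_lit 131071))) (nat_lit 131071))) (nat_lit 131071))) (nat_lit 131071))) (nat_lit 131071))) (nat_lit 131071)), rfl⟩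
noncomputable def w286 : WW := ⟨.s (.a (.s (.a (.i (.i (.a (.s (.a (.s (.a (.s (.a (.i (.e)))))))))))))), fun m x => (Nat.land (Nat.shiftRight (Nat.shiftRight m (nat_lit 17)) (Nat.land (Nat.shiftRight (Nat.shiftRight m (nat_lit 34)) (Nat.land (Nat.shiftRight m (Nat.land (Nat.shiftRight (Nat.shiftRight m (nat_lit 34)) (Nat.land (Nat.shiftRight m (Nat.land (Nat.shiftRight (Nat.shiftRight m (nat_lit 34))
  (Nat.land (Nat.shiftRight m (Nat.land (Nat.shiftRight (Nat.shiftRight m (nat_lit 34)) (Nat.land (Nat.shiftRight (Nat.shiftRight m (nat_lit 17)) (Nat.land (Nat.shiftRight (Nat.shiftRight m (nat_lit 17)) (Nat.land (Nat.shiftRight (Nat.shiftRight m (nat_lit 34)) (Nat.land (Nat.shiftRight m (Nat.land (Nat.shiftRight (Nat.shiftRight m (nat_lit 34)) (Nat.land x (nat_lit 131071))) (nat_lit 131071))) (nat_lit 131071))) (nat_lit 131071))) (nat_lit 131071))) (nat_lit 131071))) (nat_lit 131071))) (nat_lit 131071))) (nat_lit 131071))) (nat_lit 131071))) (nat_lit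 131071))) (nat_lit 131071))) (nat_lit 131071))) (nat_lit 131071)), rfl⟩
noncomputable def w287 : WW := ⟨.s (.a (.s (.a (.i (.a (.s (.a (.i (.a (.s (.a (.s (.a (.s (.a (.i (.a (.s (.a (.i (.a (.s (.a (.s (.a (.s (.a (.s (.a (.i (.a (.s (.a (.e)))))))))))))))))))))))))))))))))), fun m x => (Nat.land (Nat.shiftRight (Nat.shiftRight m (nat_lit 34)) (Nat.land (Nat.shiftRight m (Nat.land (Nat.shiftRight (Nat.shiftRight m (nat_lit 34)) (Nat.land (Nat.shiftRight (Nat.shiftRight m
  (nat_lit 17)) (Nat.land (Nat.shiftRight (Nat.shiftRight m (nat_lit 34)) (Nat.land (Nat.shiftRight m (Nat.land (Nat.shiftRight (Nat.shiftRight m (nat_lit 34)) (Nat.land (Nat.shiftRight m (Nat.land (Nat.shiftRight (Nat.shiftRight m (nat_lit 34)) (Nat.land (Nat.shiftRight m (Nat.land (Nat.shiftRight (Nat.shiftRight m (nat_lit 34)) (Nat.land (Nat.shiftRight m (Nat.land (Nat.shiftRight (Nat.shiftRight m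
  (nat_lit 34)) (Nat.land (Nat.shiftRight (Nat.shiftRight m (nat_lit 17)) (Nat.land (Nat.shiftRight (Nat.shiftRight m (nat_lit 34)) (Nat.land (Nat.shiftRight m (Nat.land (Nat.shiftRight (Nat.shiftRight m (nat_lit 34)) (Nat.land (Nat.shiftRight (Nat.shiftRight m (nat_lit 17)) (Nat.land (Nat.shiftRight (Nat.shiftRight m (nat_lit 34)) (Nat.land (Nat.shiftRight m (Nat.land (Nat.shiftRight (Nat.shiftRight m
  (nat_lit 34)) (Nat.land (Nat.shiftRight m (Nat.land (Nat.shiftRight (Nat.shiftRight m (nat_lit 34)) (Nat.land (Nat.shiftRight m (Nat.land (Nat.shiftRight (Nat.shiftRight m (nat_lit 34)) (Nat.land (Nat.shiftRight (Nat.shiftRight m (nat_lit 17)) (Nat.land (Nat.shiftRight (Nat.shiftRight m (nat_lit 34)) (Nat.land (Nat.shiftRight m (Nat.land (Nat.shiftRight (Nat.shiftRight m (nat_lit 34)) (Nat.land (Nat.shiftRight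
  (Nat.shiftRight m (nat_lit 17)) (Nat.land (Nat.shiftRight (Nat.shiftRight m (nat_lit 34)) (Nat.land (Nat.shiftRight m (Nat.land (Nat.shiftRight (Nat.shiftRight m (nat_lit 34)) (Nat.land x (nat_lit 131071))) (nat_lit 131071))) (nat_lit 131071))) (nat_lit 131071))) (nat_lit 131071))) (nat_lit 131071))) (nat_lit 131071))) (nat_lit 131071))) (nat_lit 131071))) (nat_lit 131071))) (nat_lit 131071))) (nat_lit 131071)))
  (nat_lit 131071))) (nat_lit 131071))) (nat_lit 131071))) (nat_lit 131071))) (nat_lit 131071))) (nat_lit 131071))) (nat_lit 131071))) (nat_lit 131071))) (nat_lit 131071))) (nat_lit 131071))) (nat_lit 131071))) (nat_lit 131071))) (nat_lit 131071))) (nat_lit 131071))) (nat_lit 131071))) (nat_lit 131071))) (nat_lit 131071))) (nat_lit 131071))) (nat_lit 131071))) (nat_lit 131071))) (nat_lit 131071))) (nat_lit 131071)), rfl⟩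
noncomputable def w288 : WW := ⟨.s (.a (.s (.s (.a (.i (.i (.a (.s (.a (.s (.a (.s (.a (.i (.a (.s (.a (.s (.a (.s (.a (.s (.a (.e)))))))))))))))))))))))), fun m x => (Nat.land (Nat.shiftRight (Nat.shiftRight m (nat_lit 34)) (Nat.land (Nat.shiftRight m (Nat.land (Nat.shiftRight (Nat.shiftRight m (nat_lit 34)) (Nat.land (Nat.shiftRight m (Nat.land (Nat.shiftRight (Nat.shiftRight m (nat_lit 34)) (Nat.land
  (Nat.shiftRight m (Nat.land (Nat.shiftRight (Nat.shiftRight m (nat_lit 34)) (Nat.land (Nat.shiftRight m (Nat.land (Nat.shiftRight (Nat.shiftRight m (nat_lit 34)) (Nat.land (Nat.shiftRight (Nat.shiftRight m (nat_lit 17)) (Nat.land (Nat.shiftRight (Nat.shiftRight m (nat_lit 34)) (Nat.land (Nat.shiftRight m (Nat.land (Nat.shiftRight (Nat.shiftRight m (nat_lit 34)) (Nat.land (Nat.shiftRight m (Nat.land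
  (Nat.shiftRight (Nat.shiftRight m (nat_lit 34)) (Nat.land (Nat.shiftRight m (Nat.land (Nat.shiftRight (Nat.shiftRight m (nat_lit 34)) (Nat.land (Nat.shiftRight (Nat.shiftRight m (nat_lit 17)) (Nat.land (Nat.shiftRight (Nat.shiftRight m (nat_lit 17)) (Nat.land (Nat.shiftRight (Nat.shiftRight m (nat_lit 34)) (Nat.land (Nat.shiftRight m (Nat.land (Nat.shiftRight m (Nat.land (Nat.shiftRight (Nat.shiftRight m
  (nat_lit 34)) (Nat.land x (nat_lit 131071))) (nat_lit 131071))) (nat_lit 131071))) (nat_lit 131071))) (nat_lit 131071))) (nat_lit 131071))) (nat_lit 131071))) (nat_lit 131071))) (nat_lit 131071))) (nat_lit 131071))) (nat_lit 131071))) (nat_lit 131071))) (nat_lit 131071))) (nat_lit 131071))) (nat_lit 131071))) (nat_lit 131071))) (nat_lit 131071))) (nat_lit 131071))) (nat_lit 131071))) (nat_lit 131071))) (nat_lit 131071))) (nat_lit 131071))) (nat_lit 131071))) (nat_lit 131071)), rfl⟩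
noncomputable def w289 : WW := ⟨.s (.a (.s (.a (.i (.i (.a (.s (.a (.i (.a (.i (.e)))))))))))), fun m x => (Nat.land (Nat.shiftRight (Nat.shiftRight m (nat_lit 17)) (Nat.land (Nat.shiftRight (Nat.shiftRight m (nat_lit 34)) (Nat.land (Nat.shiftRight (Nat.shiftRight m (nat_lit 17)) (Nat.land (Nat.shiftRight (Nat.shiftRight m (nat_lit 34)) (Nat.land (Nat.shiftRight m (Nat.land (Nat.shiftRight (Nat.shiftRight m
  (nat_lit 34)) (Nat.land (Nat.shiftRight (Nat.shiftRight m (nat_lit 17)) (Nat.land (Nat.shiftRight (Nat.shiftRight m (nat_lit 17)) (Nat.land (Nat.shiftRight (Nat.shiftRight m (nat_lit 34)) (Nat.land (Nat.shiftRight m (Nat.land (Nat.shiftRight (Nat.shiftRight m (nat_lit 34)) (Nat.land x (nat_lit 131071))) (nat_lit 131071))) (nat_lit 131071))) (nat_lit 131071))) (nat_lit 131071))) (nat_lit 131071))) (nat_lit 131071))) (nat_lit 131071))) (nat_lit 131071))) (nat_lit 131071))) (nat_lit 131071))) (nat_lit 131071)), rfl⟩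
noncomputable def w290 : WW := ⟨.s (.a (.i (.a (.s (.a (.s (.a (.i (.a (.s (.a (.s (.a (.s (.a (.i (.a (.i (.a (.s (.a (.s (.a (.s (.a (.s (.a (.i (.a (.s (.a (.s (.a (.e)))))))))))))))))))))))))))))))))), fun m x => (Nat.land (Nat.shiftRight (Nat.shiftRight m (nat_lit 34)) (Nat.land (Nat.shiftRight m (Nat.land (Nat.shiftRight (Nat.shiftRight m (nat_lit 34)) (Nat.land (Nat.shiftRight m (Nat.land (Nat.shiftRight
  (Nat.shiftRight m (nat_lit 34)) (Nat.land (Nat.shiftRight (Nat.shiftRight m (nat_lit 17)) (Nat.land (Nat.shiftRight (Nat.shiftRight m (nat_lit 34)) (Nat.land (Nat.shiftRight m (Nat.land (Nat.shiftRight (Nat.shiftRight m (nat_lit 34)) (Nat.land (Nat.shiftRight m (Nat.land (Nat.shiftRight (Nat.shiftRight m (nat_lit 34)) (Nat.land (Nat.shiftRight m (Nat.land (Nat.shiftRight (Nat.shiftRight m (nat_lit 34))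
  (Nat.land (Nat.shiftRight m (Nat.land (Nat.shiftRight (Nat.shiftRight m (nat_lit 34)) (Nat.land (Nat.shiftRight (Nat.shiftRight m (nat_lit 17)) (Nat.land (Nat.shiftRight (Nat.shiftRight m (nat_lit 34)) (Nat.land (Nat.shiftRight (Nat.shiftRight m (nat_lit 17)) (Nat.land (Nat.shiftRight (Nat.shiftRight m (nat_lit 34)) (Nat.land (Nat.shiftRight m (Nat.land (Nat.shiftRight (Nat.shiftRight m (nat_lit 34))
  (Nat.land (Nat.shiftRight m (Nat.land (Nat.shiftRight (Nat.shiftRight m (nat_lit 34)) (Nat.land (Nat.shiftRight m (Nat.land (Nat.shiftRight (Nat.shiftRight m (nat_lit 34)) (Nat.land (Nat.shiftRight (Nat.shiftRight m (nat_lit 17)) (Nat.land (Nat.shiftRight (Nat.shiftRight m (nat_lit 34)) (Nat.land (Nat.shiftRight m (Nat.land (Nat.shiftRight (Nat.shiftRight m (nat_lit 34)) (Nat.land (Nat.shiftRight m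
  (Nat.land (Nat.shiftRight (Nat.shiftRight m (nat_lit 34)) (Nat.land (Nat.shiftRight (Nat.shiftRight m (nat_lit 17)) (Nat.land (Nat.shiftRight (Nat.shiftRight m (nat_lit 34)) (Nat.land x (nat_lit 131071))) (nat_lit 131071))) (nat_lit 131071))) (nat_lit 131071))) (nat_lit 131071))) (nat_lit 131071))) (nat_lit 131071))) (nat_lit 131071))) (nat_lit 131071))) (nat_lit 131071))) (nat_lit 131071))) (nat_lit 131071)))
  (nat_lit 131071))) (nat_lit 131071))) (nat_lit 131071))) (nat_lit 131071))) (nat_lit 131071))) (nat_lit 131071))) (nat_lit 131071))) (nat_lit 131071))) (nat_lit 131071))) (nat_lit 131071))) (nat_lit 131071))) (nat_lit 131071))) (nat_lit 131071))) (nat_lit 131071))) (nat_lit 131071))) (nat_lit 131071))) (nat_lit 131071))) (nat_lit 131071))) (nat_lit 131071))) (nat_lit 131071))) (nat_lit 131071))) (nat_lit 131071)), rfl⟩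
noncomputable def w291 : WW := ⟨.a (.s (.s (.a (.s (.a (.i (.a (.i (.a (.i (.a (.s (.e))))))))))))), fun m x => (Nat.land (Nat.shiftRight m (Nat.land (Nat.shiftRight (Nat.shiftRight m (nat_lit 34)) (Nat.land (Nat.shiftRight (Nat.shiftRight m (nat_lit 17)) (Nat.land (Nat.shiftRight (Nat.shiftRight m (nat_lit 34)) (Nat.land (Nat.shiftRight (Nat.shiftRight m (nat_lit 17)) (Nat.land (Nat.shiftRight (Nat.shiftRight m
  (nat_lit 34)) (Nat.land (Nat.shiftRight (Nat.shiftRight m (nat_lit 17)) (Nat.land (Nat.shiftRight (Nat.shiftRight m (nat_lit 34)) (Nat.land (Nat.shiftRight m (Nat.land (Nat.shiftRight (Nat.shiftRight m (nat_lit 34)) (Nat.land (Nat.shiftRight m (Nat.land (Nat.shiftRight m (Nat.land (Nat.shiftRight x (nat_lit 34)) (nat_lit 131071))) (nat_lit 131071))) (nat_lit 131071))) (nat_lit 131071))) (nat_lit 131071))) (nat_lit 131071))) (nat_lit 131071))) (nat_lit 131071))) (nat_lit 131071))) (nat_lit 131071))) (nat_lit 131071))) (nat_lit 131071))) (nat_lit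 131071)), rfl⟩
noncomputable def w292 : WW := ⟨.a (.i (.a (.i (.a (.s (.a (.s (.a (.e))))))))), fun m x => (Nat.land (Nat.shiftRight (Nat.shiftRight m (nat_lit 34)) (Nat.land (Nat.shiftRight m (Nat.land (Nat.shiftRight (Nat.shiftRight m (nat_lit 34)) (Nat.land (Nat.shiftRight m (Nat.land (Nat.shiftRight (Nat.shiftRight m (nat_lit 34)) (Nat.land (Nat.shiftRight (Nat.shiftRight m (nat_lit 17)) (Nat.land (Nat.shiftRight (Nat.shiftRight m (nat_lit 34)) (Nat.land (Nat.shiftRight (Nat.shiftRight m (nat_lit 17)) (Nat.land (Nat.shiftRight x (nat_lit 34)) (nat_lit 131071))) (nat_lit 131071))) (nat_lit 131071))) (nat_lit 131071))) (nat_lit 131071))) (nat_lit 131071))) (nat_lit 131071))) (nat_lit 131071))) (nat_lit 131071)), rfl⟩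
noncomputable def w293 : WW := ⟨.i (.i (.a (.i (.a (.s (.e)))))), fun m x => (Nat.land (Nat.shiftRight m (Nat.land (Nat.shiftRight (Nat.shiftRight m (nat_lit 34)) (Nat.land (Nat.shiftRight (Nat.shiftRight m (nat_lit 17)) (Nat.land (Nat.shiftRight (Nat.shiftRight m (nat_lit 34)) (Nat.land (Nat.shiftRight (Nat.shiftRight m (nat_lit 17)) (Nat.land (Nat.shiftRight x (nat_lit 17)) (nat_lit 131071))) (nat_lit 131071))) (nat_lit 131071))) (nat_lit 131071))) (nat_lit 131071))) (nat_lit 131071)), rfl⟩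
noncomputable def w294 : WW := ⟨.i (.a (.s (.a (.i (.a (.s (.a (.s (.a (.s (.a (.s (.a (.e)))))))))))))), fun m x => (Nat.land (Nat.shiftRight (Nat.shiftRight m (nat_lit 34)) (Nat.land (Nat.shiftRight m (Nat.land (Nat.shiftRight (Nat.shiftRight m (nat_lit 34)) (Nat.land (Nat.shiftRight m (Nat.land (Nat.shiftRight (Nat.shiftRight m (nat_lit 34)) (Nat.land (Nat.shiftRight m (Nat.land (Nat.shiftRight
  (Nat.shiftRight m (nat_lit 34)) (Nat.land (Nat.shiftRight m (Nat.land (Nat.shiftRight (Nat.shiftRight m (nat_lit 34)) (Nat.land (Nat.shiftRight (Nat.shiftRight m (nat_lit 17)) (Nat.land (Nat.shiftRight (Nat.shiftRight m (nat_lit 34)) (Nat.land (Nat.shiftRight m (Nat.land (Nat.shiftRight (Nat.shiftRight m (nat_lit 34)) (Nat.land (Nat.shiftRight x (nat_lit 17)) (nat_lit 131071))) (nat_lit 131071))) (nat_lit 131071))) (nat_lit 131071))) (nat_lit 131071))) (nat_lit 131071))) (nat_lit 131071))) (nat_lit 131071))) (nat_lit 131071))) (nat_lit 131071))) (nat_lit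 131071))) (nat_lit 131071))) (nat_lit 131071))) (nat_lit 131071)), rfl⟩
noncomputable def w295 : WW := ⟨.i (.a (.s (.a (.s (.a (.s (.a (.i (.a (.s (.a (.s (.a (.e)))))))))))))), fun m x => (Nat.land (Nat.shiftRight (Nat.shiftRight m (nat_lit 34)) (Nat.land (Nat.shiftRight m (Nat.land (Nat.shiftRight (Nat.shiftRight m (nat_lit 34)) (Nat.land (Nat.shiftRight m (Nat.land (Nat.shiftRight (Nat.shiftRight m (nat_lit 34)) (Nat.land (Nat.shiftRight (Nat.shiftRight m (nat_lit 17))
  (Nat.land (Nat.shiftRight (Nat.shiftRight m (nat_lit 34)) (Nat.land (Nat.shiftRight m (Nat.land (Nat.shiftRight (Nat.shiftRight m (nat_lit 34)) (Nat.land (Nat.shiftRight m (Nat.land (Nat.shiftRight (Nat.shiftRight m (nat_lit 34)) (Nat.land (Nat.shiftRight m (Nat.land (Nat.shiftRight (Nat.shiftRight m (nat_lit 34)) (Nat.land (Nat.shiftRight x (nat_lit 17)) (nat_lit 131071))) (nat_lit 131071))) (nat_lit 131071))) (nat_lit 131071))) (nat_lit 131071))) (nat_lit 131071))) (nat_lit 131071)))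 (nat_lit 131071))) (nat_lit 131071))) (nat_lit 131071))) (nat_lit 131071))) (nat_lit 131071))) (nat_lit 131071))) (nat_lit 131071)), rfl⟩
noncomputable def w296 : WW := ⟨.i (.a (.s (.a (.s (.a (.s (.a (.i (.a (.s (.a (.s (.a (.s (.a (.e)))))))))))))))), fun m x => (Nat.land (Nat.shiftRight (Nat.shiftRight m (nat_lit 34)) (Nat.land (Nat.shiftRight m (Nat.land (Nat.shiftRight (Nat.shiftRight m (nat_lit 34)) (Nat.land (Nat.shiftRight m (Nat.land (Nat.shiftRight (Nat.shiftRight m (nat_lit 34)) (Nat.land (Nat.shiftRight m (Nat.land (Nat.shiftRight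
  (Nat.shiftRight m (nat_lit 34)) (Nat.land (Nat.shiftRight (Nat.shiftRight m (nat_lit 17)) (Nat.land (Nat.shiftRight (Nat.shiftRight m (nat_lit 34)) (Nat.land (Nat.shiftRight m (Nat.land (Nat.shiftRight (Nat.shiftRight m (nat_lit 34)) (Nat.land (Nat.shiftRight m (Nat.land (Nat.shiftRight (Nat.shiftRight m (nat_lit 34)) (Nat.land (Nat.shiftRight m (Nat.land (Nat.shiftRight (Nat.shiftRight m (nat_lit 34)) (Nat.land (Nat.shiftRight x (nat_lit 17)) (nat_lit 131071))) (nat_lit 131071))) (nat_lit 131071))) (nat_lit 131071))) (nat_lit 131071))) (nat_lit 131071))) (nat_lit 131071))) (nat_lit 131071))) (nat_lit 131071))) (nat_lit 131071))) (nat_lit 131071))) (nat_lit 131071))) (nat_lit 131071))) (nat_lit 131071))) (nat_lit 131071))) (nat_lit 131071)), rfl⟩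
noncomputable def w297 : WW := ⟨.s (.a (.s (.a (.s (.a (.s (.a (.i (.a (.s (.a (.i (.a (.s (.a (.s (.a (.s (.a (.e)))))))))))))))))))), fun m x => (Nat.land (Nat.shiftRight (Nat.shiftRight m (nat_lit 34)) (Nat.land (Nat.shiftRight m (Nat.land (Nat.shiftRight (Nat.shiftRight m (nat_lit 34)) (Nat.land (Nat.shiftRight m (Nat.land (Nat.shiftRight (Nat.shiftRight m (nat_lit 34)) (Nat.land (Nat.shiftRight m
  (Nat.land (Nat.shiftRight (Nat.shiftRight m (nat_lit 34)) (Nat.land (Nat.shiftRight (Nat.shiftRight m (nat_lit 17)) (Nat.land (Nat.shiftRight (Nat.shiftRight m (nat_lit 34)) (Nat.land (Nat.shiftRight m (Nat.land (Nat.shiftRight (Nat.shiftRight m (nat_lit 34)) (Nat.land (Nat.shiftRight (Nat.shiftRight m (nat_lit 17)) (Nat.land (Nat.shiftRight (Nat.shiftRight m (nat_lit 34)) (Nat.land (Nat.shiftRight m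
  (Nat.land (Nat.shiftRight (Nat.shiftRight m (nat_lit 34)) (Nat.land (Nat.shiftRight m (Nat.land (Nat.shiftRight (Nat.shiftRight m (nat_lit 34)) (Nat.land (Nat.shiftRight m (Nat.land (Nat.shiftRight (Nat.shiftRight m (nat_lit 34)) (Nat.land x (nat_lit 131071))) (nat_lit 131071))) (nat_lit 131071))) (nat_lit 131071))) (nat_lit 131071))) (nat_lit 131071))) (nat_lit 131071))) (nat_lit 131071))) (nat_lit 131071))) (nat_lit 131071))) (nat_lit 131071))) (nat_lit 131071))) (nat_lit 131071))) (nat_lit 131071))) (nat_lit 131071))) (nat_lit 131071))) (nat_lit 131071))) (nat_lit 131071))) (nat_lit 131071))) (nat_lit 131071)), rfl⟩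
noncomputable def w298 : WW := ⟨.s (.a (.s (.a (.s (.a (.s (.a (.i (.a (.s (.a (.i (.a (.s (.a (.s (.a (.s (.a (.s (.a (.s (.a (.i (.e))))))))))))))))))))))))), fun m x => (Nat.land (Nat.shiftRight (Nat.shiftRight m (nat_lit 17)) (Nat.land (Nat.shiftRight (Nat.shiftRight m (nat_lit 34)) (Nat.land (Nat.shiftRight m (Nat.land (Nat.shiftRight (Nat.shiftRight m (nat_lit 34)) (Nat.land (Nat.shiftRight m
  (Nat.land (Nat.shiftRight (Nat.shiftRight m (nat_lit 34)) (Nat.land (Nat.shiftRight m (Nat.land (Nat.shiftRight (Nat.shiftRight m (nat_lit 34)) (Nat.land (Nat.shiftRight m (Nat.land (Nat.shiftRight (Nat.shiftRight m (nat_lit 34)) (Nat.land (Nat.shiftRight m (Nat.land (Nat.shiftRight (Nat.shiftRight m (nat_lit 34)) (Nat.land (Nat.shiftRight (Nat.shiftRight m (nat_lit 17)) (Nat.land (Nat.shiftRight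
  (Nat.shiftRight m (nat_lit 34)) (Nat.land (Nat.shiftRight m (Nat.land (Nat.shiftRight (Nat.shiftRight m (nat_lit 34)) (Nat.land (Nat.shiftRight (Nat.shiftRight m (nat_lit 17)) (Nat.land (Nat.shiftRight (Nat.shiftRight m (nat_lit 34)) (Nat.land (Nat.shiftRight m (Nat.land (Nat.shiftRight (Nat.shiftRight m (nat_lit 34)) (Nat.land (Nat.shiftRight m (Nat.land (Nat.shiftRight (Nat.shiftRight m (nat_lit 34))
  (Nat.land (Nat.shiftRight m (Nat.land (Nat.shiftRight (Nat.shiftRight m (nat_lit 34)) (Nat.land x (nat_lit 131071))) (nat_lit 131071))) (nat_lit 131071))) (nat_lit 131071))) (nat_lit 131071))) (nat_lit 131071))) (nat_lit 131071))) (nat_lit 131071))) (nat_lit 131071))) (nat_lit 131071))) (nat_lit 131071))) (nat_lit 131071))) (nat_lit 131071))) (nat_lit 131071))) (nat_lit 131071))) (nat_lit 131071))) (nat_lit 131071))) (nat_lit 131071))) (nat_lit 131071))) (nat_lit 131071))) (nat_lit 131071))) (nat_lit 131071))) (nat_lit 131071))) (nat_lit 131071)))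 (nat_lit 131071)), rfl⟩
noncomputable def w299 : WW := ⟨.i (.a (.s (.a (.i (.a (.s (.a (.s (.a (.s (.a (.s (.a (.s (.a (.s (.a (.i (.e))))))))))))))))))), fun m x => (Nat.land (Nat.shiftRight (Nat.shiftRight m (nat_lit 17)) (Nat.land (Nat.shiftRight (Nat.shiftRight m (nat_lit 34)) (Nat.land (Nat.shiftRight m (Nat.land (Nat.shiftRight (Nat.shiftRight m (nat_lit 34)) (Nat.land (Nat.shiftRight m (Nat.land (Nat.shiftRight (Nat.shiftRight m
  (nat_lit 34)) (Nat.land (Nat.shiftRight m (Nat.land (Nat.shiftRight (Nat.shiftRight m (nat_lit 34)) (Nat.land (Nat.shiftRight m (Nat.land (Nat.shiftRight (Nat.shiftRight m (nat_lit 34)) (Nat.land (Nat.shiftRight m (Nat.land (Nat.shiftRight (Nat.shiftRight m (nat_lit 34)) (Nat.land (Nat.shiftRight m (Nat.land (Nat.shiftRight (Nat.shiftRight m (nat_lit 34)) (Nat.land (Nat.shiftRight (Nat.shiftRight m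
  (nat_lit 17)) (Nat.land (Nat.shiftRight (Nat.shiftRight m (nat_lit 34)) (Nat.land (Nat.shiftRight m (Nat.land (Nat.shiftRight (Nat.shiftRight m (nat_lit 34)) (Nat.land (Nat.shiftRight x (nat_lit 17)) (nat_lit 131071))) (nat_lit 131071))) (nat_lit 131071))) (nat_lit 131071))) (nat_lit 131071))) (nat_lit 131071))) (nat_lit 131071))) (nat_lit 131071))) (nat_lit 131071))) (nat_lit 131071))) (nat_lit 131071))) (nat_lit 131071))) (nat_lit 131071))) (nat_lit 131071))) (nat_lit 131071))) (nat_lit 131071))) (nat_lit 131071))) (nat_lit 131071))) (nat_lit 131071)), rfl⟩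
noncomputable def w300 : WW := ⟨.i (.a (.s (.a (.s (.a (.s (.a (.s (.a (.i (.a (.s (.a (.s (.a (.e)))))))))))))))), fun m x => (Nat.land (Nat.shiftRight (Nat.shiftRight m (nat_lit 34)) (Nat.land (Nat.shiftRight m (Nat.land (Nat.shiftRight (Nat.shiftRight m (nat_lit 34)) (Nat.land (Nat.shiftRight m (Nat.land (Nat.shiftRight (Nat.shiftRight m (nat_lit 34)) (Nat.land (Nat.shiftRight (Nat.shiftRight m
  (nat_lit 17)) (Nat.land (Nat.shiftRight (Nat.shiftRight m (nat_lit 34)) (Nat.land (Nat.shiftRight m (Nat.land (Nat.shiftRight (Nat.shiftRight m (nat_lit 34)) (Nat.land (Nat.shiftRight m (Nat.land (Nat.shiftRight (Nat.shiftRight m (nat_lit 34)) (Nat.land (Nat.shiftRight m (Nat.land (Nat.shiftRight (Nat.shiftRight m (nat_lit 34)) (Nat.land (Nat.shiftRight m (Nat.land (Nat.shiftRight (Nat.shiftRight m (nat_lit 34)) (Nat.land (Nat.shiftRight x (nat_lit 17)) (nat_lit 131071))) (nat_lit 131071))) (nat_lit 131071))) (nat_lit 131071))) (nat_lit 131071))) (nat_lit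 131071))) (nat_lit 131071))) (nat_lit 131071))) (nat_lit 131071))) (nat_lit 131071))) (nat_lit 131071))) (nat_lit 131071))) (nat_lit 131071))) (nat_lit 131071))) (nat_lit 131071))) (nat_lit 131071)), rfl⟩
noncomputable def w301 : WW := ⟨.s (.a (.s (.a (.i (.a (.s (.a (.s (.a (.s (.a (.s (.a (.s (.a (.s (.a (.i (.e))))))))))))))))))), fun m x => (Nat.land (Nat.shiftRight (Nat.shiftRight m (nat_lit 17)) (Nat.land (Nat.shiftRight (Nat.shiftRight m (nat_lit 34)) (Nat.land (Nat.shiftRight m (Nat.land (Nat.shiftRight (Nat.shiftRight m (nat_lit 34)) (Nat.land (Nat.shiftRight m (Nat.land (Nat.shiftRight (Nat.shiftRight m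
  (nat_lit 34)) (Nat.land (Nat.shiftRight m (Nat.land (Nat.shiftRight (Nat.shiftRight m (nat_lit 34)) (Nat.land (Nat.shiftRight m (Nat.land (Nat.shiftRight (Nat.shiftRight m (nat_lit 34)) (Nat.land (Nat.shiftRight m (Nat.land (Nat.shiftRight (Nat.shiftRight m (nat_lit 34)) (Nat.land (Nat.shiftRight m (Nat.land (Nat.shiftRight (Nat.shiftRight m (nat_lit 34)) (Nat.land (Nat.shiftRight (Nat.shiftRight m
  (nat_lit 17)) (Nat.land (Nat.shiftRight (Nat.shiftRight m (nat_lit 34)) (Nat.land (Nat.shiftRight m (Nat.land (Nat.shiftRight (Nat.shiftRight m (nat_lit 34)) (Nat.land x (nat_lit 131071))) (nat_lit 131071))) (nat_lit 131071))) (nat_lit 131071))) (nat_lit 131071))) (nat_lit 131071))) (nat_lit 131071))) (nat_lit 131071))) (nat_lit 131071))) (nat_lit 131071))) (nat_lit 131071))) (nat_lit 131071))) (nat_lit 131071))) (nat_lit 131071))) (nat_lit 131071))) (nat_lit 131071))) (nat_lit 131071))) (nat_lit 131071))) (nat_lit 131071)), rfl⟩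
noncomputable def w302 : WW := ⟨.s (.a (.s (.a (.s (.a (.i (.a (.i (.a (.s (.a (.s (.a (.s (.a (.e)))))))))))))))), fun m x => (Nat.land (Nat.shiftRight (Nat.shiftRight m (nat_lit 34)) (Nat.land (Nat.shiftRight m (Nat.land (Nat.shiftRight (Nat.shiftRight m (nat_lit 34)) (Nat.land (Nat.shiftRight m (Nat.land (Nat.shiftRight (Nat.shiftRight m (nat_lit 34)) (Nat.land (Nat.shiftRight m (Nat.land (Nat.shiftRight
  (Nat.shiftRight m (nat_lit 34)) (Nat.land (Nat.shiftRight (Nat.shiftRight m (nat_lit 17)) (Nat.land (Nat.shiftRight (Nat.shiftRight m (nat_lit 34)) (Nat.land (Nat.shiftRight (Nat.shiftRight m (nat_lit 17)) (Nat.land (Nat.shiftRight (Nat.shiftRight m (nat_lit 34)) (Nat.land (Nat.shiftRight m (Nat.land (Nat.shiftRight (Nat.shiftRight m (nat_lit 34)) (Nat.land (Nat.shiftRight m (Nat.land (Nat.shiftRight (Nat.shiftRight m (nat_lit 34)) (Nat.land x (nat_lit 131071))) (nat_lit 131071))) (nat_lit 131071))) (nat_lit 131071))) (nat_lit 131071))) (nat_lit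 131071))) (nat_lit 131071))) (nat_lit 131071))) (nat_lit 131071))) (nat_lit 131071))) (nat_lit 131071))) (nat_lit 131071))) (nat_lit 131071))) (nat_lit 131071))) (nat_lit 131071))) (nat_lit 131071)), rfl⟩
noncomputable def w303 : WW := ⟨.s (.a (.s (.a (.s (.a (.s (.a (.s (.a (.i (.e))))))))))), fun m x => (Nat.land (Nat.shiftRight (Nat.shiftRight m (nat_lit 17)) (Nat.land (Nat.shiftRight (Nat.shiftRight m (nat_lit 34)) (Nat.land (Nat.shiftRight m (Nat.land (Nat.shiftRight (Nat.shiftRight m (nat_lit 34)) (Nat.land (Nat.shiftRight m (Nat.land (Nat.shiftRight (Nat.shiftRight m (nat_lit 34)) (Nat.land (Nat.shiftRight m (Nat.land (Nat.shiftRight (Nat.shiftRight m (nat_lit 34)) (Nat.land (Nat.shiftRight m (Nat.land (Nat.shiftRight (Nat.shiftRight m (nat_lit 34)) (Nat.land x (nat_lit 131071))) (nat_lit 131071))) (nat_lit 131071))) (nat_lit 131071))) (nat_lit 131071))) (nat_lit 131071))) (nat_lit 131071))) (nat_lit 131071))) (nat_lit 131071))) (nat_lit 131071)))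 (nat_lit 131071)), rfl⟩
noncomputable def w304 : WW := ⟨.s (.a (.s (.a (.i (.a (.s (.a (.i (.a (.s (.a (.s (.a (.s (.a (.s (.a (.i (.a (.i (.a (.s (.a (.s (.a (.s (.a (.s (.a (.i (.a (.s (.a (.e)))))))))))))))))))))))))))))))))), fun m x => (Nat.land (Nat.shiftRight (Nat.shiftRight m (nat_lit 34)) (Nat.land (Nat.shiftRight m (Nat.land (Nat.shiftRight (Nat.shiftRight m (nat_lit 34)) (Nat.land (Nat.shiftRight (Nat.shiftRight m
  (nat_lit 17)) (Nat.land (Nat.shiftRight (Nat.shiftRight m (nat_lit 34)) (Nat.land (Nat.shiftRight m (Nat.land (Nat.shiftRight (Nat.shiftRight m (nat_lit 34)) (Nat.land (Nat.shiftRight m (Nat.land (Nat.shiftRight (Nat.shiftRight m (nat_lit 34)) (Nat.land (Nat.shiftRight m (Nat.land (Nat.shiftRight (Nat.shiftRight m (nat_lit 34)) (Nat.land (Nat.shiftRight m (Nat.land (Nat.shiftRight (Nat.shiftRight m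
  (nat_lit 34)) (Nat.land (Nat.shiftRight (Nat.shiftRight m (nat_lit 17)) (Nat.land (Nat.shiftRight (Nat.shiftRight m (nat_lit 34)) (Nat.land (Nat.shiftRight (Nat.shiftRight m (nat_lit 17)) (Nat.land (Nat.shiftRight (Nat.shiftRight m (nat_lit 34)) (Nat.land (Nat.shiftRight m (Nat.land (Nat.shiftRight (Nat.shiftRight m (nat_lit 34)) (Nat.land (Nat.shiftRight m (Nat.land (Nat.shiftRight (Nat.shiftRight m
  (nat_lit 34)) (Nat.land (Nat.shiftRight m (Nat.land (Nat.shiftRight (Nat.shiftRight m (nat_lit 34)) (Nat.land (Nat.shiftRight m (Nat.land (Nat.shiftRight (Nat.shiftRight m (nat_lit 34)) (Nat.land (Nat.shiftRight (Nat.shiftRight m (nat_lit 17)) (Nat.land (Nat.shiftRight (Nat.shiftRight m (nat_lit 34)) (Nat.land (Nat.shiftRight m (Nat.land (Nat.shiftRight (Nat.shiftRight m (nat_lit 34)) (Nat.land (Nat.shiftRight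
  (Nat.shiftRight m (nat_lit 17)) (Nat.land (Nat.shiftRight (Nat.shiftRight m (nat_lit 34)) (Nat.land (Nat.shiftRight m (Nat.land (Nat.shiftRight (Nat.shiftRight m (nat_lit 34)) (Nat.land x (nat_lit 131071))) (nat_lit 131071))) (nat_lit 131071))) (nat_lit 131071))) (nat_lit 131071))) (nat_lit 131071))) (nat_lit 131071))) (nat_lit 131071))) (nat_lit 131071))) (nat_lit 131071))) (nat_lit 131071))) (nat_lit 131071)))
  (nat_lit 131071))) (nat_lit 131071))) (nat_lit 131071))) (nat_lit 131071))) (nat_lit 131071))) (nat_lit 131071))) (nat_lit 131071))) (nat_lit 131071))) (nat_lit 131071))) (nat_lit 131071))) (nat_lit 131071))) (nat_lit 131071))) (nat_lit 131071))) (nat_lit 131071))) (nat_lit 131071))) (nat_lit 131071))) (nat_lit 131071))) (nat_lit 131071))) (nat_lit 131071))) (nat_lit 131071))) (nat_lit 131071))) (nat_lit 131071)), rfl⟩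
noncomputable def w305 : WW := ⟨.s (.a (.i (.a (.s (.a (.i (.a (.s (.a (.s (.a (.s (.a (.s (.a (.i (.a (.s (.a (.i (.a (.s (.a (.s (.a (.s (.a (.i (.a (.s (.a (.e)))))))))))))))))))))))))))))))), fun m x => (Nat.land (Nat.shiftRight (Nat.shiftRight m (nat_lit 34)) (Nat.land (Nat.shiftRight m (Nat.land (Nat.shiftRight (Nat.shiftRight m (nat_lit 34)) (Nat.land (Nat.shiftRight (Nat.shiftRight m (nat_lit 17))
  (Nat.land (Nat.shiftRight (Nat.shiftRight m (nat_lit 34)) (Nat.land (Nat.shiftRight m (Nat.land (Nat.shiftRight (Nat.shiftRight m (nat_lit 34)) (Nat.land (Nat.shiftRight m (Nat.land (Nat.shiftRight (Nat.shiftRight m (nat_lit 34)) (Nat.land (Nat.shiftRight m (Nat.land (Nat.shiftRight (Nat.shiftRight m (nat_lit 34)) (Nat.land (Nat.shiftRight (Nat.shiftRight m (nat_lit 17)) (Nat.land (Nat.shiftRight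
  (Nat.shiftRight m (nat_lit 34)) (Nat.land (Nat.shiftRight m (Nat.land (Nat.shiftRight (Nat.shiftRight m (nat_lit 34)) (Nat.land (Nat.shiftRight (Nat.shiftRight m (nat_lit 17)) (Nat.land (Nat.shiftRight (Nat.shiftRight m (nat_lit 34)) (Nat.land (Nat.shiftRight m (Nat.land (Nat.shiftRight (Nat.shiftRight m (nat_lit 34)) (Nat.land (Nat.shiftRight m (Nat.land (Nat.shiftRight (Nat.shiftRight m (nat_lit 34))
  (Nat.land (Nat.shiftRight m (Nat.land (Nat.shiftRight (Nat.shiftRight m (nat_lit 34)) (Nat.land (Nat.shiftRight m (Nat.land (Nat.shiftRight (Nat.shiftRight m (nat_lit 34)) (Nat.land (Nat.shiftRight (Nat.shiftRight m (nat_lit 17)) (Nat.land (Nat.shiftRight (Nat.shiftRight m (nat_lit 34)) (Nat.land (Nat.shiftRight m (Nat.land (Nat.shiftRight (Nat.shiftRight m (nat_lit 34)) (Nat.land (Nat.shiftRight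
  (Nat.shiftRight m (nat_lit 17)) (Nat.land (Nat.shiftRight (Nat.shiftRight m (nat_lit 34)) (Nat.land x (nat_lit 131071))) (nat_lit 131071))) (nat_lit 131071))) (nat_lit 131071))) (nat_lit 131071))) (nat_lit 131071))) (nat_lit 131071))) (nat_lit 131071))) (nat_lit 131071))) (nat_lit 131071))) (nat_lit 131071))) (nat_lit 131071))) (nat_lit 131071))) (nat_lit 131071))) (nat_lit 131071))) (nat_lit 131071))) (nat_lit 131071))) (nat_lit 131071))) (nat_lit 131071))) (nat_lit 131071))) (nat_lit 131071))) (nat_lit 131071))) (nat_lit 131071))) (nat_lit 131071))) (nat_lit 131071))) (nat_lit 131071))) (nat_lit 131071))) (nat_lit 131071))) (nat_lit 131071))) (nat_lit 131071))) (nat_lit 131071))) (nat_lit 131071)), rfl⟩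
noncomputable def w306 : WW := ⟨.s (.a (.i (.a (.s (.a (.s (.a (.i (.a (.s (.a (.s (.a (.s (.a (.s (.a (.i (.a (.i (.a (.s (.a (.s (.a (.s (.a (.i (.a (.s (.a (.s (.a (.e)))))))))))))))))))))))))))))))))), fun m x => (Nat.land (Nat.shiftRight (Nat.shiftRight m (nat_lit 34)) (Nat.land (Nat.shiftRight m (Nat.land (Nat.shiftRight (Nat.shiftRight m (nat_lit 34)) (Nat.land (Nat.shiftRight m (Nat.land (Nat.shiftRight
  (Nat.shiftRight m (nat_lit 34)) (Nat.land (Nat.shiftRight (Nat.shiftRight m (nat_lit 17)) (Nat.land (Nat.shiftRight (Nat.shiftRight m (nat_lit 34)) (Nat.land (Nat.shiftRight m (Nat.land (Nat.shiftRight (Nat.shiftRight m (nat_lit 34)) (Nat.land (Nat.shiftRight m (Nat.land (Nat.shiftRight (Nat.shiftRight m (nat_lit 34)) (Nat.land (Nat.shiftRight m (Nat.land (Nat.shiftRight (Nat.shiftRight m (nat_lit 34))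
  (Nat.land (Nat.shiftRight (Nat.shiftRight m (nat_lit 17)) (Nat.land (Nat.shiftRight (Nat.shiftRight m (nat_lit 34)) (Nat.land (Nat.shiftRight (Nat.shiftRight m (nat_lit 17)) (Nat.land (Nat.shiftRight (Nat.shiftRight m (nat_lit 34)) (Nat.land (Nat.shiftRight m (Nat.land (Nat.shiftRight (Nat.shiftRight m (nat_lit 34)) (Nat.land (Nat.shiftRight m (Nat.land (Nat.shiftRight (Nat.shiftRight m (nat_lit 34))
  (Nat.land (Nat.shiftRight m (Nat.land (Nat.shiftRight (Nat.shiftRight m (nat_lit 34)) (Nat.land (Nat.shiftRight m (Nat.land (Nat.shiftRight (Nat.shiftRight m (nat_lit 34)) (Nat.land (Nat.shiftRight (Nat.shiftRight m (nat_lit 17)) (Nat.land (Nat.shiftRight (Nat.shiftRight m (nat_lit 34)) (Nat.land (Nat.shiftRight m (Nat.land (Nat.shiftRight (Nat.shiftRight m (nat_lit 34)) (Nat.land (Nat.shiftRight m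
  (Nat.land (Nat.shiftRight (Nat.shiftRight m (nat_lit 34)) (Nat.land (Nat.shiftRight (Nat.shiftRight m (nat_lit 17)) (Nat.land (Nat.shiftRight (Nat.shiftRight m (nat_lit 34)) (Nat.land x (nat_lit 131071))) (nat_lit 131071))) (nat_lit 131071))) (nat_lit 131071))) (nat_lit 131071))) (nat_lit 131071))) (nat_lit 131071))) (nat_lit 131071))) (nat_lit 131071))) (nat_lit 131071))) (nat_lit 131071))) (nat_lit 131071)))
  (nat_lit 131071))) (nat_lit 131071))) (nat_lit 131071))) (nat_lit 131071))) (nat_lit 131071))) (nat_lit 131071))) (nat_lit 131071))) (nat_lit 131071))) (nat_lit 131071))) (nat_lit 131071))) (nat_lit 131071))) (nat_lit 131071))) (nat_lit 131071))) (nat_lit 131071))) (nat_lit 131071))) (nat_lit 131071))) (nat_lit 131071))) (nat_lit 131071))) (nat_lit 131071))) (nat_lit 131071))) (nat_lit 131071))) (nat_lit 131071)), rfl⟩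
noncomputable def w307 : WW := ⟨.a (.s (.a (.s (.a (.s (.a (.s (.a (.i (.a (.s (.a (.s (.a (.i (.e)))))))))))))))), fun m x => (Nat.land (Nat.shiftRight (Nat.shiftRight m (nat_lit 17)) (Nat.land (Nat.shiftRight (Nat.shiftRight m (nat_lit 34)) (Nat.land (Nat.shiftRight m (Nat.land (Nat.shiftRight (Nat.shiftRight m (nat_lit 34)) (Nat.land (Nat.shiftRight m (Nat.land (Nat.shiftRight (Nat.shiftRight m
  (nat_lit 34)) (Nat.land (Nat.shiftRight (Nat.shiftRight m (nat_lit 17)) (Nat.land (Nat.shiftRight (Nat.shiftRight m (nat_lit 34)) (Nat.land (Nat.shiftRight m (Nat.land (Nat.shiftRight (Nat.shiftRight m (nat_lit 34)) (Nat.land (Nat.shiftRight m (Nat.land (Nat.shiftRight (Nat.shiftRight m (nat_lit 34)) (Nat.land (Nat.shiftRight m (Nat.land (Nat.shiftRight (Nat.shiftRight m (nat_lit 34)) (Nat.land (Nat.shiftRight m (Nat.land (Nat.shiftRight x (nat_lit 34)) (nat_lit 131071))) (nat_lit 131071))) (nat_lit 131071))) (nat_lit 131071))) (nat_lit 131071))) (nat_lit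 131071))) (nat_lit 131071))) (nat_lit 131071))) (nat_lit 131071))) (nat_lit 131071))) (nat_lit 131071))) (nat_lit 131071))) (nat_lit 131071))) (nat_lit 131071))) (nat_lit 131071))) (nat_lit 131071)), rfl⟩
noncomputable def w308 : WW := ⟨.i (.a (.s (.a (.i (.a (.s (.a (.s (.a (.s (.a (.s (.a (.i (.a (.i (.a (.s (.a (.s (.a (.s (.a (.e)))))))))))))))))))))))), fun m x => (Nat.land (Nat.shiftRight (Nat.shiftRight m (nat_lit 34)) (Nat.land (Nat.shiftRight m (Nat.land (Nat.shiftRight (Nat.shiftRight m (nat_lit 34)) (Nat.land (Nat.shiftRight m (Nat.land (Nat.shiftRight (Nat.shiftRight m (nat_lit 34)) (Nat.land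
  (Nat.shiftRight m (Nat.land (Nat.shiftRight (Nat.shiftRight m (nat_lit 34)) (Nat.land (Nat.shiftRight (Nat.shiftRight m (nat_lit 17)) (Nat.land (Nat.shiftRight (Nat.shiftRight m (nat_lit 34)) (Nat.land (Nat.shiftRight (Nat.shiftRight m (nat_lit 17)) (Nat.land (Nat.shiftRight (Nat.shiftRight m (nat_lit 34)) (Nat.land (Nat.shiftRight m (Nat.land (Nat.shiftRight (Nat.shiftRight m (nat_lit 34)) (Nat.land
  (Nat.shiftRight m (Nat.land (Nat.shiftRight (Nat.shiftRight m (nat_lit 34)) (Nat.land (Nat.shiftRight m (Nat.land (Nat.shiftRight (Nat.shiftRight m (nat_lit 34)) (Nat.land (Nat.shiftRight m (Nat.land (Nat.shiftRight (Nat.shiftRight m (nat_lit 34)) (Nat.land (Nat.shiftRight (Nat.shiftRight m (nat_lit 17)) (Nat.land (Nat.shiftRight (Nat.shiftRight m (nat_lit 34)) (Nat.land (Nat.shiftRight m (Nat.land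
  (Nat.shiftRight (Nat.shiftRight m (nat_lit 34)) (Nat.land (Nat.shiftRight x (nat_lit 17)) (nat_lit 131071))) (nat_lit 131071))) (nat_lit 131071))) (nat_lit 131071))) (nat_lit 131071))) (nat_lit 131071))) (nat_lit 131071))) (nat_lit 131071))) (nat_lit 131071))) (nat_lit 131071))) (nat_lit 131071))) (nat_lit 131071))) (nat_lit 131071))) (nat_lit 131071))) (nat_lit 131071))) (nat_lit 131071))) (nat_lit 131071))) (nat_lit 131071))) (nat_lit 131071))) (nat_lit 131071))) (nat_lit 131071))) (nat_lit 131071))) (nat_lit 131071))) (nat_lit 131071)), rfl⟩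
noncomputable def w309 : WW := ⟨.s (.a (.s (.a (.i (.a (.i (.a (.s (.a (.s (.a (.s (.a (.s (.a (.e)))))))))))))))), fun m x => (Nat.land (Nat.shiftRight (Nat.shiftRight m (nat_lit 34)) (Nat.land (Nat.shiftRight m (Nat.land (Nat.shiftRight (Nat.shiftRight m (nat_lit 34)) (Nat.land (Nat.shiftRight m (Nat.land (Nat.shiftRight (Nat.shiftRight m (nat_lit 34)) (Nat.land (Nat.shiftRight m (Nat.land (Nat.shiftRight
  (Nat.shiftRight m (nat_lit 34)) (Nat.land (Nat.shiftRight m (Nat.land (Nat.shiftRight (Nat.shiftRight m (nat_lit 34)) (Nat.land (Nat.shiftRight (Nat.shiftRight m (nat_lit 17)) (Nat.land (Nat.shiftRight (Nat.shiftRight m (nat_lit 34)) (Nat.land (Nat.shiftRight (Nat.shiftRight m (nat_lit 17)) (Nat.land (Nat.shiftRight (Nat.shiftRight m (nat_lit 34)) (Nat.land (Nat.shiftRight m (Nat.land (Nat.shiftRight (Nat.shiftRight m (nat_lit 34)) (Nat.land x (nat_lit 131071))) (nat_lit 131071))) (nat_lit 131071))) (nat_lit 131071))) (nat_lit 131071))) (nat_lit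 131071))) (nat_lit 131071))) (nat_lit 131071))) (nat_lit 131071))) (nat_lit 131071))) (nat_lit 131071))) (nat_lit 131071))) (nat_lit 131071))) (nat_lit 131071))) (nat_lit 131071))) (nat_lit 131071)), rfl⟩
noncomputable def w310 : WW := ⟨.s (.a (.i (.a (.s (.a (.s (.a (.s (.a (.s (.a (.i (.a (.s (.a (.s (.a (.s (.a (.e)))))))))))))))))))), fun m x => (Nat.land (Nat.shiftRight (Nat.shiftRight m (nat_lit 34)) (Nat.land (Nat.shiftRight m (Nat.land (Nat.shiftRight (Nat.shiftRight m (nat_lit 34)) (Nat.land (Nat.shiftRight m (Nat.land (Nat.shiftRight (Nat.shiftRight m (nat_lit 34)) (Nat.land (Nat.shiftRight m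
  (Nat.land (Nat.shiftRight (Nat.shiftRight m (nat_lit 34)) (Nat.land (Nat.shiftRight (Nat.shiftRight m (nat_lit 17)) (Nat.land (Nat.shiftRight (Nat.shiftRight m (nat_lit 34)) (Nat.land (Nat.shiftRight m (Nat.land (Nat.shiftRight (Nat.shiftRight m (nat_lit 34)) (Nat.land (Nat.shiftRight m (Nat.land (Nat.shiftRight (Nat.shiftRight m (nat_lit 34)) (Nat.land (Nat.shiftRight m (Nat.land (Nat.shiftRight
  (Nat.shiftRight m (nat_lit 34)) (Nat.land (Nat.shiftRight m (Nat.land (Nat.shiftRight (Nat.shiftRight m (nat_lit 34)) (Nat.land (Nat.shiftRight (Nat.shiftRight m (nat_lit 17)) (Nat.land (Nat.shiftRight (Nat.shiftRight m (nat_lit 34)) (Nat.land x (nat_lit 131071))) (nat_lit 131071))) (nat_lit 131071))) (nat_lit 131071))) (nat_lit 131071))) (nat_lit 131071))) (nat_lit 131071))) (nat_lit 131071))) (nat_lit 131071))) (nat_lit 131071))) (nat_lit 131071))) (nat_lit 131071))) (nat_lit 131071))) (nat_lit 131071))) (nat_lit 131071))) (nat_lit 131071))) (nat_lit 131071)))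 (nat_lit 131071))) (nat_lit 131071))) (nat_lit 131071)), rfl⟩
noncomputable def w311 : WW := ⟨.s (.a (.i (.a (.s (.a (.s (.a (.s (.a (.s (.a (.i (.a (.s (.a (.s (.a (.e)))))))))))))))))), fun m x => (Nat.land (Nat.shiftRight (Nat.shiftRight m (nat_lit 34)) (Nat.land (Nat.shiftRight m (Nat.land (Nat.shiftRight (Nat.shiftRight m (nat_lit 34)) (Nat.land (Nat.shiftRight m (Nat.land (Nat.shiftRight (Nat.shiftRight m (nat_lit 34)) (Nat.land (Nat.shiftRight (Nat.shiftRight m
  (nat_lit 17)) (Nat.land (Nat.shiftRight (Nat.shiftRight m (nat_lit 34)) (Nat.land (Nat.shiftRight m (Nat.land (Nat.shiftRight (Nat.shiftRight m (nat_lit 34)) (Nat.land (Nat.shiftRight m (Nat.land (Nat.shiftRight (Nat.shiftRight m (nat_lit 34)) (Nat.land (Nat.shiftRight m (Nat.land (Nat.shiftRight (Nat.shiftRight m (nat_lit 34)) (Nat.land (Nat.shiftRight m (Nat.land (Nat.shiftRight (Nat.shiftRight m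
  (nat_lit 34)) (Nat.land (Nat.shiftRight (Nat.shiftRight m (nat_lit 17)) (Nat.land (Nat.shiftRight (Nat.shiftRight m (nat_lit 34)) (Nat.land x (nat_lit 131071))) (nat_lit 131071))) (nat_lit 131071))) (nat_lit 131071))) (nat_lit 131071))) (nat_lit 131071))) (nat_lit 131071))) (nat_lit 131071))) (nat_lit 131071))) (nat_lit 131071))) (nat_lit 131071))) (nat_lit 131071))) (nat_lit 131071))) (nat_lit 131071))) (nat_lit 131071))) (nat_lit 131071))) (nat_lit 131071))) (nat_lit 131071)), rfl⟩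
noncomputable def w312 : WW := ⟨.a (.s (.s (.a (.i (.a (.i (.a (.s (.e))))))))), fun m x => (Nat.land (Nat.shiftRight m (Nat.land (Nat.shiftRight (Nat.shiftRight m (nat_lit 34)) (Nat.land (Nat.shiftRight (Nat.shiftRight m (nat_lit 17)) (Nat.land (Nat.shiftRight (Nat.shiftRight m (nat_lit 34)) (Nat.land (Nat.shiftRight (Nat.shiftRight m (nat_lit 17)) (Nat.land (Nat.shiftRight (Nat.shiftRight m (nat_lit 34)) (Nat.land (Nat.shiftRight m (Nat.land (Nat.shiftRight m (Nat.land (Nat.shiftRight x (nat_lit 34)) (nat_lit 131071))) (nat_lit 131071))) (nat_lit 131071))) (nat_lit 131071))) (nat_lit 131071))) (nat_lit 131071))) (nat_lit 131071))) (nat_lit 131071))) (nat_lit 131071)), rfl⟩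
noncomputable def w313 : WW := ⟨.s (.a (.i (.a (.s (.a (.i (.a (.s (.a (.s (.a (.e)))))))))))), fun m x => (Nat.land (Nat.shiftRight (Nat.shiftRight m (nat_lit 34)) (Nat.land (Nat.shiftRight m (Nat.land (Nat.shiftRight (Nat.shiftRight m (nat_lit 34)) (Nat.land (Nat.shiftRight m (Nat.land (Nat.shiftRight (Nat.shiftRight m (nat_lit 34)) (Nat.land (Nat.shiftRight (Nat.shiftRight m (nat_lit 17)) (Nat.land
  (Nat.shiftRight (Nat.shiftRight m (nat_lit 34)) (Nat.land (Nat.shiftRight m (Nat.land (Nat.shiftRight (Nat.shiftRight m (nat_lit 34)) (Nat.land (Nat.shiftRight (Nat.shiftRight m (nat_lit 17)) (Nat.land (Nat.shiftRight (Nat.shiftRight m (nat_lit 34)) (Nat.land x (nat_lit 131071))) (nat_lit 131071))) (nat_lit 131071))) (nat_lit 131071))) (nat_lit 131071))) (nat_lit 131071))) (nat_lit 131071))) (nat_lit 131071))) (nat_lit 131071))) (nat_lit 131071))) (nat_lit 131071))) (nat_lit 131071)), rfl⟩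
noncomputable def w314 : WW := ⟨.s (.a (.s (.a (.i (.i (.a (.s (.a (.i (.a (.s (.a (.s (.a (.s (.a (.i (.a (.s (.a (.i (.a (.s (.a (.s (.a (.e))))))))))))))))))))))))))), fun m x => (Nat.land (Nat.shiftRight (Nat.shiftRight m (nat_lit 34)) (Nat.land (Nat.shiftRight m (Nat.land (Nat.shiftRight (Nat.shiftRight m (nat_lit 34)) (Nat.land (Nat.shiftRight m (Nat.land (Nat.shiftRight (Nat.shiftRight m (nat_lit 34))
  (Nat.land (Nat.shiftRight (Nat.shiftRight m (nat_lit 17)) (Nat.land (Nat.shiftRight (Nat.shiftRight m (nat_lit 34)) (Nat.land (Nat.shiftRight m (Nat.land (Nat.shiftRight (Nat.shiftRight m (nat_lit 34)) (Nat.land (Nat.shiftRight (Nat.shiftRight m (nat_lit 17)) (Nat.land (Nat.shiftRight (Nat.shiftRight m (nat_lit 34)) (Nat.land (Nat.shiftRight m (Nat.land (Nat.shiftRight (Nat.shiftRight m (nat_lit 34))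
  (Nat.land (Nat.shiftRight m (Nat.land (Nat.shiftRight (Nat.shiftRight m (nat_lit 34)) (Nat.land (Nat.shiftRight m (Nat.land (Nat.shiftRight (Nat.shiftRight m (nat_lit 34)) (Nat.land (Nat.shiftRight (Nat.shiftRight m (nat_lit 17)) (Nat.land (Nat.shiftRight (Nat.shiftRight m (nat_lit 34)) (Nat.land (Nat.shiftRight m (Nat.land (Nat.shiftRight (Nat.shiftRight m (nat_lit 34)) (Nat.land (Nat.shiftRight
  (Nat.shiftRight m (nat_lit 17)) (Nat.land (Nat.shiftRight (Nat.shiftRight m (nat_lit 17)) (Nat.land (Nat.shiftRight (Nat.shiftRight m (nat_lit 34)) (Nat.land (Nat.shiftRight m (Nat.land (Nat.shiftRight (Nat.shiftRight m (nat_lit 34)) (Nat.land x (nat_lit 131071))) (nat_lit 131071))) (nat_lit 131071))) (nat_lit 131071))) (nat_lit 131071))) (nat_lit 131071))) (nat_lit 131071))) (nat_lit 131071))) (nat_lit 131071))) (nat_lit 131071))) (nat_lit 131071))) (nat_lit 131071))) (nat_lit 131071))) (nat_lit 131071))) (nat_lit 131071))) (nat_lit 131071))) (nat_lit 131071)))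 (nat_lit 131071))) (nat_lit 131071))) (nat_lit 131071))) (nat_lit 131071))) (nat_lit 131071))) (nat_lit 131071))) (nat_lit 131071))) (nat_lit 131071))) (nat_lit 131071))) (nat_lit 131071)), rfl⟩
noncomputable def w315 : WW := ⟨.a (.s (.a (.s (.a (.s (.a (.s (.a (.s (.a (.i (.a (.s (.a (.i (.a (.s (.a (.s (.a (.s (.a (.s (.a (.s (.a (.i (.e)))))))))))))))))))))))))))), fun m x => (Nat.land (Nat.shiftRight (Nat.shiftRight m (nat_lit 17)) (Nat.land (Nat.shiftRight (Nat.shiftRight m (nat_lit 34)) (Nat.land (Nat.shiftRight m (Nat.land (Nat.shiftRight (Nat.shiftRight m (nat_lit 34)) (Nat.land (Nat.shiftRight m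
  (Nat.land (Nat.shiftRight (Nat.shiftRight m (nat_lit 34)) (Nat.land (Nat.shiftRight m (Nat.land (Nat.shiftRight (Nat.shiftRight m (nat_lit 34)) (Nat.land (Nat.shiftRight m (Nat.land (Nat.shiftRight (Nat.shiftRight m (nat_lit 34)) (Nat.land (Nat.shiftRight m (Nat.land (Nat.shiftRight (Nat.shiftRight m (nat_lit 34)) (Nat.land (Nat.shiftRight (Nat.shiftRight m (nat_lit 17)) (Nat.land (Nat.shiftRight
  (Nat.shiftRight m (nat_lit 34)) (Nat.land (Nat.shiftRight m (Nat.land (Nat.shiftRight (Nat.shiftRight m (nat_lit 34)) (Nat.land (Nat.shiftRight (Nat.shiftRight m (nat_lit 17)) (Nat.land (Nat.shiftRight (Nat.shiftRight m (nat_lit 34)) (Nat.land (Nat.shiftRight m (Nat.land (Nat.shiftRight (Nat.shiftRight m (nat_lit 34)) (Nat.land (Nat.shiftRight m (Nat.land (Nat.shiftRight (Nat.shiftRight m (nat_lit 34))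
  (Nat.land (Nat.shiftRight m (Nat.land (Nat.shiftRight (Nat.shiftRight m (nat_lit 34)) (Nat.land (Nat.shiftRight m (Nat.land (Nat.shiftRight (Nat.shiftRight m (nat_lit 34)) (Nat.land (Nat.shiftRight m (Nat.land (Nat.shiftRight x (nat_lit 34)) (nat_lit 131071))) (nat_lit 131071))) (nat_lit 131071))) (nat_lit 131071))) (nat_lit 131071))) (nat_lit 131071))) (nat_lit 131071))) (nat_lit 131071))) (nat_lit 131071))) (nat_lit 131071))) (nat_lit 131071))) (nat_lit 131071))) (nat_lit 131071))) (nat_lit 131071))) (nat_lit 131071))) (nat_lit 131071))) (nat_lit 131071))) (nat_lit 131071))) (nat_lit 131071))) (nat_lit 131071))) (nat_lit 131071))) (nat_lit 131071))) (nat_lit 131071))) (nat_lit 131071))) (nat_lit 131071))) (nat_lit 131071))) (nat_lit 131071))) (nat_lit 131071)), rfl⟩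
noncomputable def w316 : WW := ⟨.s (.a (.i (.a (.s (.a (.i (.a (.s (.a (.s (.a (.s (.a (.s (.a (.e)))))))))))))))), fun m x => (Nat.land (Nat.shiftRight (Nat.shiftRight m (nat_lit 34)) (Nat.land (Nat.shiftRight m (Nat.land (Nat.shiftRight (Nat.shiftRight m (nat_lit 34)) (Nat.land (Nat.shiftRight m (Nat.land (Nat.shiftRight (Nat.shiftRight m (nat_lit 34)) (Nat.land (Nat.shiftRight m (Nat.land (Nat.shiftRight
  (Nat.shiftRight m (nat_lit 34)) (Nat.land (Nat.shiftRight m (Nat.land (Nat.shiftRight (Nat.shiftRight m (nat_lit 34)) (Nat.land (Nat.shiftRight (Nat.shiftRight m (nat_lit 17)) (Nat.land (Nat.shiftRight (Nat.shiftRight m (nat_lit 34)) (Nat.land (Nat.shiftRight m (Nat.land (Nat.shiftRight (Nat.shiftRight m (nat_lit 34)) (Nat.land (Nat.shiftRight (Nat.shiftRight m (nat_lit 17)) (Nat.land (Nat.shiftRight (Nat.shiftRight m (nat_lit 34)) (Nat.land x (nat_lit 131071))) (nat_lit 131071))) (nat_lit 131071))) (nat_lit 131071))) (nat_lit 131071))) (nat_lit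 131071))) (nat_lit 131071))) (nat_lit 131071))) (nat_lit 131071))) (nat_lit 131071))) (nat_lit 131071))) (nat_lit 131071))) (nat_lit 131071))) (nat_lit 131071))) (nat_lit 131071))) (nat_lit 131071)), rfl⟩
noncomputable def w317 : WW := ⟨.s (.a (.s (.a (.i (.a (.i (.a (.i (.a (.i (.a (.s (.a (.i (.e))))))))))))))), fun m x => (Nat.land (Nat.shiftRight (Nat.shiftRight m (nat_lit 17)) (Nat.land (Nat.shiftRight (Nat.shiftRight m (nat_lit 34)) (Nat.land (Nat.shiftRight m (Nat.land (Nat.shiftRight (Nat.shiftRight m (nat_lit 34)) (Nat.land (Nat.shiftRight (Nat.shiftRight m (nat_lit 17)) (Nat.land (Nat.shiftRight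
  (Nat.shiftRight m (nat_lit 34)) (Nat.land (Nat.shiftRight (Nat.shiftRight m (nat_lit 17)) (Nat.land (Nat.shiftRight (Nat.shiftRight m (nat_lit 34)) (Nat.land (Nat.shiftRight (Nat.shiftRight m (nat_lit 17)) (Nat.land (Nat.shiftRight (Nat.shiftRight m (nat_lit 34)) (Nat.land (Nat.shiftRight (Nat.shiftRight m (nat_lit 17)) (Nat.land (Nat.shiftRight (Nat.shiftRight m (nat_lit 34)) (Nat.land (Nat.shiftRight m (Nat.land (Nat.shiftRight (Nat.shiftRight m (nat_lit 34)) (Nat.land x (nat_lit 131071))) (nat_lit 131071))) (nat_lit 131071))) (nat_lit 131071))) (nat_lit 131071))) (nat_lit 131071))) (nat_lit 131071))) (nat_lit 131071))) (nat_lit 131071))) (nat_lit 131071))) (nat_lit 131071))) (nat_lit 131071))) (nat_lit 131071))) (nat_lit 131071))) (nat_lit 131071)), rfl⟩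
noncomputable def w318 : WW := ⟨.a (.s (.a (.s (.a (.s (.a (.s (.a (.s (.a (.s (.a (.i (.a (.s (.a (.s (.a (.i (.a (.s (.a (.s (.a (.s (.a (.e))))))))))))))))))))))))))), fun m x => (Nat.land (Nat.shiftRight (Nat.shiftRight m (nat_lit 34)) (Nat.land (Nat.shiftRight m (Nat.land (Nat.shiftRight (Nat.shiftRight m (nat_lit 34)) (Nat.land (Nat.shiftRight m (Nat.land (Nat.shiftRight (Nat.shiftRight m (nat_lit 34))
  (Nat.land (Nat.shiftRight m (Nat.land (Nat.shiftRight (Nat.shiftRight m (nat_lit 34)) (Nat.land (Nat.shiftRight (Nat.shiftRight m (nat_lit 17)) (Nat.land (Nat.shiftRight (Nat.shiftRight m (nat_lit 34)) (Nat.land (Nat.shiftRight m (Nat.land (Nat.shiftRight (Nat.shiftRight m (nat_lit 34)) (Nat.land (Nat.shiftRight m (Nat.land (Nat.shiftRight (Nat.shiftRight m (nat_lit 34)) (Nat.land (Nat.shiftRight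
  (Nat.shiftRight m (nat_lit 17)) (Nat.land (Nat.shiftRight (Nat.shiftRight m (nat_lit 34)) (Nat.land (Nat.shiftRight m (Nat.land (Nat.shiftRight (Nat.shiftRight m (nat_lit 34)) (Nat.land (Nat.shiftRight m (Nat.land (Nat.shiftRight (Nat.shiftRight m (nat_lit 34)) (Nat.land (Nat.shiftRight m (Nat.land (Nat.shiftRight (Nat.shiftRight m (nat_lit 34)) (Nat.land (Nat.shiftRight m (Nat.land (Nat.shiftRight
  (Nat.shiftRight m (nat_lit 34)) (Nat.land (Nat.shiftRight m (Nat.land (Nat.shiftRight (Nat.shiftRight m (nat_lit 34)) (Nat.land (Nat.shiftRight m (Nat.land (Nat.shiftRight x (nat_lit 34)) (nat_lit 131071))) (nat_lit 131071))) (nat_lit 131071))) (nat_lit 131071))) (nat_lit 131071))) (nat_lit 131071))) (nat_lit 131071))) (nat_lit 131071))) (nat_lit 131071))) (nat_lit 131071))) (nat_lit 131071))) (nat_lit 131071))) (nat_lit 131071))) (nat_lit 131071))) (nat_lit 131071))) (nat_lit 131071))) (nat_lit 131071))) (nat_lit 131071))) (nat_lit 131071))) (nat_lit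 131071))) (nat_lit 131071))) (nat_lit 131071))) (nat_lit 131071))) (nat_lit 131071))) (nat_lit 131071))) (nat_lit 131071))) (nat_lit 131071)), rfl⟩
noncomputable def w319 : WW := ⟨.s (.a (.s (.a (.s (.a (.s (.a (.i (.a (.s (.a (.s (.a (.s (.a (.e)))))))))))))))), fun m x => (Nat.land (Nat.shiftRight (Nat.shiftRight m (nat_lit 34)) (Nat.land (Nat.shiftRight m (Nat.land (Nat.shiftRight (Nat.shiftRight m (nat_lit 34)) (Nat.land (Nat.shiftRight m (Nat.land (Nat.shiftRight (Nat.shiftRight m (nat_lit 34)) (Nat.land (Nat.shiftRight m (Nat.land (Nat.shiftRight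
  (Nat.shiftRight m (nat_lit 34)) (Nat.land (Nat.shiftRight (Nat.shiftRight m (nat_lit 17)) (Nat.land (Nat.shiftRight (Nat.shiftRight m (nat_lit 34)) (Nat.land (Nat.shiftRight m (Nat.land (Nat.shiftRight (Nat.shiftRight m (nat_lit 34)) (Nat.land (Nat.shiftRight m (Nat.land (Nat.shiftRight (Nat.shiftRight m (nat_lit 34)) (Nat.land (Nat.shiftRight m (Nat.land (Nat.shiftRight (Nat.shiftRight m (nat_lit 34)) (Nat.land x (nat_lit 131071))) (nat_lit 131071))) (nat_lit 131071))) (nat_lit 131071))) (nat_lit 131071))) (nat_lit 131071))) (nat_lit 131071))) (nat_lit 131071))) (nat_lit 131071))) (nat_lit 131071))) (nat_lit 131071))) (nat_lit 131071))) (nat_lit 131071))) (nat_lit 131071))) (nat_lit 131071))) (nat_lit 131071)), rfl⟩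
noncomputable def w320 : WW := ⟨.a (.s (.s (.a (.s (.a (.i (.a (.s (.e))))))))), fun m x => (Nat.land (Nat.shiftRight m (Nat.land (Nat.shiftRight (Nat.shiftRight m (nat_lit 34)) (Nat.land (Nat.shiftRight (Nat.shiftRight m (nat_lit 17)) (Nat.land (Nat.shiftRight (Nat.shiftRight m (nat_lit 34)) (Nat.land (Nat.shiftRight m (Nat.land (Nat.shiftRight (Nat.shiftRight m (nat_lit 34)) (Nat.land (Nat.shiftRight m (Nat.land (Nat.shiftRight m (Nat.land (Nat.shiftRight x (nat_lit 34)) (nat_lit 131071))) (nat_lit 131071))) (nat_lit 131071))) (nat_lit 131071))) (nat_lit 131071))) (nat_lit 131071))) (nat_lit 131071))) (nat_lit 131071))) (nat_lit 131071)), rfl⟩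
noncomputable def w321 : WW := ⟨.s (.a (.s (.s (.s (.a (.s (.a (.s (.a (.s (.a (.s (.a (.s (.a (.s (.a (.i (.e))))))))))))))))))), fun m x => (Nat.land (Nat.shiftRight (Nat.shiftRight m (nat_lit 17)) (Nat.land (Nat.shiftRight (Nat.shiftRight m (nat_lit 34)) (Nat.land (Nat.shiftRight m (Nat.land (Nat.shiftRight (Nat.shiftRight m (nat_lit 34)) (Nat.land (Nat.shiftRight m (Nat.land (Nat.shiftRight (Nat.shiftRight m
  (nat_lit 34)) (Nat.land (Nat.shiftRight m (Nat.land (Nat.shiftRight (Nat.shiftRight m (nat_lit 34)) (Nat.land (Nat.shiftRight m (Nat.land (Nat.shiftRight (Nat.shiftRight m (nat_lit 34)) (Nat.land (Nat.shiftRight m (Nat.land (Nat.shiftRight (Nat.shiftRight m (nat_lit 34)) (Nat.land (Nat.shiftRight m (Nat.land (Nat.shiftRight (Nat.shiftRight m (nat_lit 34)) (Nat.land (Nat.shiftRight m (Nat.land (Nat.shiftRight m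
  (Nat.land (Nat.shiftRight m (Nat.land (Nat.shiftRight (Nat.shiftRight m (nat_lit 34)) (Nat.land x (nat_lit 131071))) (nat_lit 131071))) (nat_lit 131071))) (nat_lit 131071))) (nat_lit 131071))) (nat_lit 131071))) (nat_lit 131071))) (nat_lit 131071))) (nat_lit 131071))) (nat_lit 131071))) (nat_lit 131071))) (nat_lit 131071))) (nat_lit 131071))) (nat_lit 131071))) (nat_lit 131071))) (nat_lit 131071))) (nat_lit 131071))) (nat_lit 131071))) (nat_lit 131071)), rfl⟩
noncomputable def w322 : WW := ⟨.a (.i (.a (.i (.a (.s (.s (.a (.s (.a (.s (.a (.s (.a (.s (.a (.s (.a (.s (.a (.s (.a (.i (.e))))))))))))))))))))))), fun m x => (Nat.land (Nat.shiftRight (Nat.shiftRight m (nat_lit 17)) (Nat.land (Nat.shiftRight (Nat.shiftRight m (nat_lit 34)) (Nat.land (Nat.shiftRight m (Nat.land (Nat.shiftRight (Nat.shiftRight m (nat_lit 34)) (Nat.land (Nat.shiftRight m (Nat.land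
  (Nat.shiftRight (Nat.shiftRight m (nat_lit 34)) (Nat.land (Nat.shiftRight m (Nat.land (Nat.shiftRight (Nat.shiftRight m (nat_lit 34)) (Nat.land (Nat.shiftRight m (Nat.land (Nat.shiftRight (Nat.shiftRight m (nat_lit 34)) (Nat.land (Nat.shiftRight m (Nat.land (Nat.shiftRight (Nat.shiftRight m (nat_lit 34)) (Nat.land (Nat.shiftRight m (Nat.land (Nat.shiftRight (Nat.shiftRight m (nat_lit 34)) (Nat.land
  (Nat.shiftRight m (Nat.land (Nat.shiftRight (Nat.shiftRight m (nat_lit 34)) (Nat.land (Nat.shiftRight m (Nat.land (Nat.shiftRight m (Nat.land (Nat.shiftRight (Nat.shiftRight m (nat_lit 34)) (Nat.land (Nat.shiftRight (Nat.shiftRight m (nat_lit 17)) (Nat.land (Nat.shiftRight (Nat.shiftRight m (nat_lit 34)) (Nat.land (Nat.shiftRight (Nat.shiftRight m (nat_lit 17)) (Nat.land (Nat.shiftRight x (nat_lit 34))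
  (nat_lit 131071))) (nat_lit 131071))) (nat_lit 131071))) (nat_lit 131071))) (nat_lit 131071))) (nat_lit 131071))) (nat_lit 131071))) (nat_lit 131071))) (nat_lit 131071))) (nat_lit 131071))) (nat_lit 131071))) (nat_lit 131071))) (nat_lit 131071))) (nat_lit 131071))) (nat_lit 131071))) (nat_lit 131071))) (nat_lit 131071))) (nat_lit 131071))) (nat_lit 131071))) (nat_lit 131071))) (nat_lit 131071))) (nat_lit 131071))) (nat_lit 131071)), rfl⟩
noncomputable def w323 : WW := ⟨.a (.i (.a (.i (.a (.s (.a (.i (.a (.s (.a (.i (.a (.s (.e)))))))))))))), fun m x => (Nat.land (Nat.shiftRight m (Nat.land (Nat.shiftRight (Nat.shiftRight m (nat_lit 34)) (Nat.land (Nat.shiftRight (Nat.shiftRight m (nat_lit 17)) (Nat.land (Nat.shiftRight (Nat.shiftRight m (nat_lit 34)) (Nat.land (Nat.shiftRight m (Nat.land (Nat.shiftRight (Nat.shiftRight m (nat_lit 34))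
  (Nat.land (Nat.shiftRight (Nat.shiftRight m (nat_lit 17)) (Nat.land (Nat.shiftRight (Nat.shiftRight m (nat_lit 34)) (Nat.land (Nat.shiftRight m (Nat.land (Nat.shiftRight (Nat.shiftRight m (nat_lit 34)) (Nat.land (Nat.shiftRight (Nat.shiftRight m (nat_lit 17)) (Nat.land (Nat.shiftRight (Nat.shiftRight m (nat_lit 34)) (Nat.land (Nat.shiftRight (Nat.shiftRight m (nat_lit 17)) (Nat.land (Nat.shiftRight x (nat_lit 34)) (nat_lit 131071))) (nat_lit 131071))) (nat_lit 131071))) (nat_lit 131071))) (nat_lit 131071))) (nat_lit 131071))) (nat_lit 131071))) (nat_lit 131071))) (nat_lit 131071))) (nat_lit 131071))) (nat_lit 131071))) (nat_lit 131071))) (nat_lit 131071))) (nat_lit 131071)), rfl⟩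
noncomputable def w324 : WW := ⟨.s (.s (.a (.s (.a (.e))))), fun m x => (Nat.land (Nat.shiftRight (Nat.shiftRight m (nat_lit 34)) (Nat.land (Nat.shiftRight m (Nat.land (Nat.shiftRight (Nat.shiftRight m (nat_lit 34)) (Nat.land (Nat.shiftRight m (Nat.land x (nat_lit 131071))) (nat_lit 131071))) (nat_lit 131071))) (nat_lit 131071))) (nat_lit 131071)), rfl⟩
noncomputable def w325 : WW := ⟨.s (.a (.s (.a (.s (.a (.s (.a (.s (.a (.i (.a (.e)))))))))))), fun m x => (Nat.land (Nat.shiftRight (Nat.shiftRight m (nat_lit 34)) (Nat.land (Nat.shiftRight (Nat.shiftRight m (nat_lit 17)) (Nat.land (Nat.shiftRight (Nat.shiftRight m (nat_lit 34)) (Nat.land (Nat.shiftRight m (Nat.land (Nat.shiftRight (Nat.shiftRight m (nat_lit 34)) (Nat.land (Nat.shiftRight m (Nat.land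
  (Nat.shiftRight (Nat.shiftRight m (nat_lit 34)) (Nat.land (Nat.shiftRight m (Nat.land (Nat.shiftRight (Nat.shiftRight m (nat_lit 34)) (Nat.land (Nat.shiftRight m (Nat.land (Nat.shiftRight (Nat.shiftRight m (nat_lit 34)) (Nat.land x (nat_lit 131071))) (nat_lit 131071))) (nat_lit 131071))) (nat_lit 131071))) (nat_lit 131071))) (nat_lit 131071))) (nat_lit 131071))) (nat_lit 131071))) (nat_lit 131071))) (nat_lit 131071))) (nat_lit 131071))) (nat_lit 131071)), rfl⟩
noncomputable def w326 : WW := ⟨.s (.a (.s (.s (.s (.a (.s (.a (.s (.a (.s (.a (.s (.a (.i (.a (.e)))))))))))))))), fun m x => (Nat.land (Nat.shiftRight (Nat.shiftRight m (nat_lit 34)) (Nat.land (Nat.shiftRight (Nat.shiftRight m (nat_lit 17)) (Nat.land (Nat.shiftRight (Nat.shiftRight m (nat_lit 34)) (Nat.land (Nat.shiftRight m (Nat.land (Nat.shiftRight (Nat.shiftRight m (nat_lit 34)) (Nat.land (Nat.shiftRight m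
  (Nat.land (Nat.shiftRight (Nat.shiftRight m (nat_lit 34)) (Nat.land (Nat.shiftRight m (Nat.land (Nat.shiftRight (Nat.shiftRight m (nat_lit 34)) (Nat.land (Nat.shiftRight m (Nat.land (Nat.shiftRight (Nat.shiftRight m (nat_lit 34)) (Nat.land (Nat.shiftRight m (Nat.land (Nat.shiftRight m (Nat.land (Nat.shiftRight m (Nat.land (Nat.shiftRight (Nat.shiftRight m (nat_lit 34)) (Nat.land x (nat_lit 131071))) (nat_lit 131071))) (nat_lit 131071))) (nat_lit 131071))) (nat_lit 131071))) (nat_lit 131071))) (nat_lit 131071))) (nat_lit 131071))) (nat_lit 131071))) (nat_lit 131071))) (nat_lit 131071))) (nat_lit 131071))) (nat_lit 131071))) (nat_lit 131071))) (nat_lit 131071))) (nat_lit 131071)), rfl⟩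
noncomputable def w327 : WW := ⟨.s (.s (.s (.a (.s (.a (.s (.a (.s (.a (.s (.a (.s (.a (.i (.a (.e)))))))))))))))), fun m x => (Nat.land (Nat.shiftRight (Nat.shiftRight m (nat_lit 34)) (Nat.land (Nat.shiftRight (Nat.shiftRight m (nat_lit 17)) (Nat.land (Nat.shiftRight (Nat.shiftRight m (nat_lit 34)) (Nat.land (Nat.shiftRight m (Nat.land (Nat.shiftRight (Nat.shiftRight m (nat_lit 34)) (Nat.land (Nat.shiftRight m
  (Nat.land (Nat.shiftRight (Nat.shiftRight m (nat_lit 34)) (Nat.land (Nat.shiftRight m (Nat.land (Nat.shiftRight (Nat.shiftRight m (nat_lit 34)) (Nat.land (Nat.shiftRight m (Nat.land (Nat.shiftRight (Nat.shiftRight m (nat_lit 34)) (Nat.land (Nat.shiftRight m (Nat.land (Nat.shiftRight (Nat.shiftRight m (nat_lit 34)) (Nat.land (Nat.shiftRight m (Nat.land (Nat.shiftRight m (Nat.land x (nat_lit 131071))) (nat_lit 131071))) (nat_lit 131071))) (nat_lit 131071))) (nat_lit 131071))) (nat_lit 131071))) (nat_lit 131071))) (nat_lit 131071))) (nat_lit 131071)))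 (nat_lit 131071))) (nat_lit 131071))) (nat_lit 131071))) (nat_lit 131071))) (nat_lit 131071))) (nat_lit 131071))) (nat_lit 131071)), rfl⟩
noncomputable def w328 : WW := ⟨.s (.a (.s (.a (.s (.a (.s (.a (.i (.a (.s (.a (.s (.a (.e)))))))))))))), fun m x => (Nat.land (Nat.shiftRight (Nat.shiftRight m (nat_lit 34)) (Nat.land (Nat.shiftRight m (Nat.land (Nat.shiftRight (Nat.shiftRight m (nat_lit 34)) (Nat.land (Nat.shiftRight m (Nat.land (Nat.shiftRight (Nat.shiftRight m (nat_lit 34)) (Nat.land (Nat.shiftRight (Nat.shiftRight m (nat_lit 17))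
  (Nat.land (Nat.shiftRight (Nat.shiftRight m (nat_lit 34)) (Nat.land (Nat.shiftRight m (Nat.land (Nat.shiftRight (Nat.shiftRight m (nat_lit 34)) (Nat.land (Nat.shiftRight m (Nat.land (Nat.shiftRight (Nat.shiftRight m (nat_lit 34)) (Nat.land (Nat.shiftRight m (Nat.land (Nat.shiftRight (Nat.shiftRight m (nat_lit 34)) (Nat.land x (nat_lit 131071))) (nat_lit 131071))) (nat_lit 131071))) (nat_lit 131071))) (nat_lit 131071))) (nat_lit 131071))) (nat_lit 131071))) (nat_lit 131071))) (nat_lit 131071))) (nat_lit 131071))) (nat_lit 131071))) (nat_lit 131071))) (nat_lit 131071))) (nat_lit 131071)), rfl⟩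
noncomputable def w329 : WW := ⟨.a (.i (.a (.s (.a (.s (.a (.s (.a (.e))))))))), fun m x => (Nat.land (Nat.shiftRight (Nat.shiftRight m (nat_lit 34)) (Nat.land (Nat.shiftRight m (Nat.land (Nat.shiftRight (Nat.shiftRight m (nat_lit 34)) (Nat.land (Nat.shiftRight m (Nat.land (Nat.shiftRight (Nat.shiftRight m (nat_lit 34)) (Nat.land (Nat.shiftRight m (Nat.land (Nat.shiftRight (Nat.shiftRight m (nat_lit 34)) (Nat.land (Nat.shiftRight (Nat.shiftRight m (nat_lit 17)) (Nat.land (Nat.shiftRight x (nat_lit 34)) (nat_lit 131071))) (nat_lit 131071))) (nat_lit 131071))) (nat_lit 131071))) (nat_lit 131071))) (nat_lit 131071))) (nat_lit 131071))) (nat_lit 131071))) (nat_lit 131071)), rfl⟩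
noncomputable def w330 : WW := ⟨.s (.a (.s (.a (.i (.a (.i (.a (.i (.a (.i (.e))))))))))), fun m x => (Nat.land (Nat.shiftRight (Nat.shiftRight m (nat_lit 17)) (Nat.land (Nat.shiftRight (Nat.shiftRight m (nat_lit 34)) (Nat.land (Nat.shiftRight (Nat.shiftRight m (nat_lit 17)) (Nat.land (Nat.shiftRight (Nat.shiftRight m (nat_lit 34)) (Nat.land (Nat.shiftRight (Nat.shiftRight m (nat_lit 17)) (Nat.land
  (Nat.shiftRight (Nat.shiftRight m (nat_lit 34)) (Nat.land (Nat.shiftRight (Nat.shiftRight m (nat_lit 17)) (Nat.land (Nat.shiftRight (Nat.shiftRight m (nat_lit 34)) (Nat.land (Nat.shiftRight m (Nat.land (Nat.shiftRight (Nat.shiftRight m (nat_lit 34)) (Nat.land x (nat_lit 131071))) (nat_lit 131071))) (nat_lit 131071))) (nat_lit 131071))) (nat_lit 131071))) (nat_lit 131071))) (nat_lit 131071))) (nat_lit 131071))) (nat_lit 131071))) (nat_lit 131071))) (nat_lit 131071)), rfl⟩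
noncomputable def w331 : WW := ⟨.s (.s (.a (.s (.a (.s (.a (.e))))))), fun m x => (Nat.land (Nat.shiftRight (Nat.shiftRight m (nat_lit 34)) (Nat.land (Nat.shiftRight m (Nat.land (Nat.shiftRight (Nat.shiftRight m (nat_lit 34)) (Nat.land (Nat.shiftRight m (Nat.land (Nat.shiftRight (Nat.shiftRight m (nat_lit 34)) (Nat.land (Nat.shiftRight m (Nat.land x (nat_lit 131071))) (nat_lit 131071))) (nat_lit 131071))) (nat_lit 131071))) (nat_lit 131071))) (nat_lit 131071))) (nat_lit 131071)), rfl⟩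
noncomputable def w332 : WW := ⟨.a (.s (.a (.i (.a (.i (.a (.s (.a (.s (.a (.e))))))))))), fun m x => (Nat.land (Nat.shiftRight (Nat.shiftRight m (nat_lit 34)) (Nat.land (Nat.shiftRight m (Nat.land (Nat.shiftRight (Nat.shiftRight m (nat_lit 34)) (Nat.land (Nat.shiftRight m (Nat.land (Nat.shiftRight (Nat.shiftRight m (nat_lit 34)) (Nat.land (Nat.shiftRight (Nat.shiftRight m (nat_lit 17)) (Nat.land (Nat.shiftRight
  (Nat.shiftRight m (nat_lit 34)) (Nat.land (Nat.shiftRight (Nat.shiftRight m (nat_lit 17)) (Nat.land (Nat.shiftRight (Nat.shiftRight m (nat_lit 34)) (Nat.land (Nat.shiftRight m (Nat.land (Nat.shiftRight x (nat_lit 34)) (nat_lit 131071))) (nat_lit 131071))) (nat_lit 131071))) (nat_lit 131071))) (nat_lit 131071))) (nat_lit 131071))) (nat_lit 131071))) (nat_lit 131071))) (nat_lit 131071))) (nat_lit 131071))) (nat_lit 131071)), rfl⟩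
noncomputable def w333 : WW := ⟨.s (.a (.s (.a (.s (.a (.s (.a (.i (.a (.e)))))))))), fun m x => (Nat.land (Nat.shiftRight (Nat.shiftRight m (nat_lit 34)) (Nat.land (Nat.shiftRight (Nat.shiftRight m (nat_lit 17)) (Nat.land (Nat.shiftRight (Nat.shiftRight m (nat_lit 34)) (Nat.land (Nat.shiftRight m (Nat.land (Nat.shiftRight (Nat.shiftRight m (nat_lit 34)) (Nat.land (Nat.shiftRight m (Nat.land (Nat.shiftRight (Nat.shiftRight m (nat_lit 34)) (Nat.land (Nat.shiftRight m (Nat.land (Nat.shiftRight (Nat.shiftRight m (nat_lit 34)) (Nat.land x (nat_lit 131071))) (nat_lit 131071))) (nat_lit 131071))) (nat_lit 131071))) (nat_lit 131071))) (nat_lit 131071))) (nat_lit 131071))) (nat_lit 131071))) (nat_lit 131071))) (nat_lit 131071)), rfl⟩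
noncomputable def w334 : WW := ⟨.s (.a (.s (.a (.s (.a (.s (.s (.a (.s (.a (.s (.a (.e))))))))))))), fun m x => (Nat.land (Nat.shiftRight (Nat.shiftRight m (nat_lit 34)) (Nat.land (Nat.shiftRight m (Nat.land (Nat.shiftRight (Nat.shiftRight m (nat_lit 34)) (Nat.land (Nat.shiftRight m (Nat.land (Nat.shiftRight (Nat.shiftRight m (nat_lit 34)) (Nat.land (Nat.shiftRight m (Nat.land (Nat.shiftRight m (Nat.land
  (Nat.shiftRight (Nat.shiftRight m (nat_lit 34)) (Nat.land (Nat.shiftRight m (Nat.land (Nat.shiftRight (Nat.shiftRight m (nat_lit 34)) (Nat.land (Nat.shiftRight m (Nat.land (Nat.shiftRight (Nat.shiftRight m (nat_lit 34)) (Nat.land x (nat_lit 131071))) (nat_lit 131071))) (nat_lit 131071))) (nat_lit 131071))) (nat_lit 131071))) (nat_lit 131071))) (nat_lit 131071))) (nat_lit 131071))) (nat_lit 131071))) (nat_lit 131071))) (nat_lit 131071))) (nat_lit 131071))) (nat_lit 131071)), rfl⟩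
noncomputable def w335 : WW := ⟨.s (.a (.s (.a (.s (.a (.s (.a (.s (.a (.s (.s (.a (.s (.a (.s (.a (.e))))))))))))))))), fun m x => (Nat.land (Nat.shiftRight (Nat.shiftRight m (nat_lit 34)) (Nat.land (Nat.shiftRight m (Nat.land (Nat.shiftRight (Nat.shiftRight m (nat_lit 34)) (Nat.land (Nat.shiftRight m (Nat.land (Nat.shiftRight (Nat.shiftRight m (nat_lit 34)) (Nat.land (Nat.shiftRight m (Nat.land (Nat.shiftRight m
  (Nat.land (Nat.shiftRight (Nat.shiftRight m (nat_lit 34)) (Nat.land (Nat.shiftRight m (Nat.land (Nat.shiftRight (Nat.shiftRight m (nat_lit 34)) (Nat.land (Nat.shiftRight m (Nat.land (Nat.shiftRight (Nat.shiftRight m (nat_lit 34)) (Nat.land (Nat.shiftRight m (Nat.land (Nat.shiftRight (Nat.shiftRight m (nat_lit 34)) (Nat.land (Nat.shiftRight m (Nat.land (Nat.shiftRight (Nat.shiftRight m (nat_lit 34)) (Nat.land x (nat_lit 131071))) (nat_lit 131071))) (nat_lit 131071))) (nat_lit 131071))) (nat_lit 131071))) (nat_lit 131071))) (nat_lit 131071)))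 (nat_lit 131071))) (nat_lit 131071))) (nat_lit 131071))) (nat_lit 131071))) (nat_lit 131071))) (nat_lit 131071))) (nat_lit 131071))) (nat_lit 131071))) (nat_lit 131071))) (nat_lit 131071)), rfl⟩
noncomputable def w336 : WW := ⟨.s (.a (.s (.a (.i (.i (.a (.s (.a (.s (.a (.s (.a (.s (.a (.i (.a (.s (.a (.s (.a (.s (.a (.i (.a (.s (.a (.e))))))))))))))))))))))))))), fun m x => (Nat.land (Nat.shiftRight (Nat.shiftRight m (nat_lit 34)) (Nat.land (Nat.shiftRight m (Nat.land (Nat.shiftRight (Nat.shiftRight m (nat_lit 34)) (Nat.land (Nat.shiftRight (Nat.shiftRight m (nat_lit 17)) (Nat.land (Nat.shiftRight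
  (Nat.shiftRight m (nat_lit 34)) (Nat.land (Nat.shiftRight m (Nat.land (Nat.shiftRight (Nat.shiftRight m (nat_lit 34)) (Nat.land (Nat.shiftRight m (Nat.land (Nat.shiftRight (Nat.shiftRight m (nat_lit 34)) (Nat.land (Nat.shiftRight m (Nat.land (Nat.shiftRight (Nat.shiftRight m (nat_lit 34)) (Nat.land (Nat.shiftRight (Nat.shiftRight m (nat_lit 17)) (Nat.land (Nat.shiftRight (Nat.shiftRight m (nat_lit 34))
  (Nat.land (Nat.shiftRight m (Nat.land (Nat.shiftRight (Nat.shiftRight m (nat_lit 34)) (Nat.land (Nat.shiftRight m (Nat.land (Nat.shiftRight (Nat.shiftRight m (nat_lit 34)) (Nat.land (Nat.shiftRight m (Nat.land (Nat.shiftRight (Nat.shiftRight m (nat_lit 34)) (Nat.land (Nat.shiftRight m (Nat.land (Nat.shiftRight (Nat.shiftRight m (nat_lit 34)) (Nat.land (Nat.shiftRight (Nat.shiftRight m (nat_lit 17))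
  (Nat.land (Nat.shiftRight (Nat.shiftRight m (nat_lit 17)) (Nat.land (Nat.shiftRight (Nat.shiftRight m (nat_lit 34)) (Nat.land (Nat.shiftRight m (Nat.land (Nat.shiftRight (Nat.shiftRight m (nat_lit 34)) (Nat.land x (nat_lit 131071))) (nat_lit 131071))) (nat_lit 131071))) (nat_lit 131071))) (nat_lit 131071))) (nat_lit 131071))) (nat_lit 131071))) (nat_lit 131071))) (nat_lit 131071))) (nat_lit 131071))) (nat_lit 131071))) (nat_lit 131071))) (nat_lit 131071))) (nat_lit 131071))) (nat_lit 131071))) (nat_lit 131071))) (nat_lit 131071))) (nat_lit 131071))) (nat_lit 131071))) (nat_lit 131071))) (nat_lit 131071))) (nat_lit 131071))) (nat_lit 131071))) (nat_lit 131071))) (nat_lit 131071))) (nat_lit 131071))) (nat_lit 131071)), rfl⟩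
noncomputable def w337 : WW := ⟨.a (.i (.a (.i (.a (.i (.a (.s (.a (.i (.a (.i (.a (.i (.a (.s (.s (.a (.s (.a (.e)))))))))))))))))))), fun m x => (Nat.land (Nat.shiftRight (Nat.shiftRight m (nat_lit 34)) (Nat.land (Nat.shiftRight m (Nat.land (Nat.shiftRight (Nat.shiftRight m (nat_lit 34)) (Nat.land (Nat.shiftRight m (Nat.land (Nat.shiftRight m (Nat.land (Nat.shiftRight (Nat.shiftRight m (nat_lit 34))
  (Nat.land (Nat.shiftRight (Nat.shiftRight m (nat_lit 17)) (Nat.land (Nat.shiftRight (Nat.shiftRight m (nat_lit 34)) (Nat.land (Nat.shiftRight (Nat.shiftRight m (nat_lit 17)) (Nat.land (Nat.shiftRight (Nat.shiftRight m (nat_lit 34)) (Nat.land (Nat.shiftRight (Nat.shiftRight m (nat_lit 17)) (Nat.land (Nat.shiftRight (Nat.shiftRight m (nat_lit 34)) (Nat.land (Nat.shiftRight m (Nat.land (Nat.shiftRight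
  (Nat.shiftRight m (nat_lit 34)) (Nat.land (Nat.shiftRight (Nat.shiftRight m (nat_lit 17)) (Nat.land (Nat.shiftRight (Nat.shiftRight m (nat_lit 34)) (Nat.land (Nat.shiftRight (Nat.shiftRight m (nat_lit 17)) (Nat.land (Nat.shiftRight (Nat.shiftRight m (nat_lit 34)) (Nat.land (Nat.shiftRight (Nat.shiftRight m (nat_lit 17)) (Nat.land (Nat.shiftRight x (nat_lit 34)) (nat_lit 131071))) (nat_lit 131071))) (nat_lit 131071))) (nat_lit 131071))) (nat_lit 131071))) (nat_lit 131071))) (nat_lit 131071))) (nat_lit 131071))) (nat_lit 131071))) (nat_lit 131071))) (nat_lit 131071))) (nat_lit 131071))) (nat_lit 131071))) (nat_lit 131071))) (nat_lit 131071))) (nat_lit 131071))) (nat_lit 131071))) (nat_lit 131071))) (nat_lit 131071))) (nat_lit 131071)), rfl⟩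
noncomputable def w338 : WW := ⟨.a (.i (.a (.i (.a (.s (.s (.a (.s (.a (.e)))))))))), fun m x => (Nat.land (Nat.shiftRight (Nat.shiftRight m (nat_lit 34)) (Nat.land (Nat.shiftRight m (Nat.land (Nat.shiftRight (Nat.shiftRight m (nat_lit 34)) (Nat.land (Nat.shiftRight m (Nat.land (Nat.shiftRight m (Nat.land (Nat.shiftRight (Nat.shiftRight m (nat_lit 34)) (Nat.land (Nat.shiftRight (Nat.shiftRight m (nat_lit 17)) (Nat.land (Nat.shiftRight (Nat.shiftRight m (nat_lit 34)) (Nat.land (Nat.shiftRight (Nat.shiftRight m (nat_lit 17)) (Nat.land (Nat.shiftRight x (nat_lit 34)) (nat_lit 131071))) (nat_lit 131071))) (nat_lit 131071))) (nat_lit 131071))) (nat_lit 131071))) (nat_lit 131071))) (nat_lit 131071))) (nat_lit 131071))) (nat_lit 131071))) (nat_lit 131071)), rfl⟩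
noncomputable def w339 : WW := ⟨.s (.a (.s (.a (.s (.a (.i (.a (.i (.e))))))))), fun m x => (Nat.land (Nat.shiftRight (Nat.shiftRight m (nat_lit 17)) (Nat.land (Nat.shiftRight (Nat.shiftRight m (nat_lit 34)) (Nat.land (Nat.shiftRight (Nat.shiftRight m (nat_lit 17)) (Nat.land (Nat.shiftRight (Nat.shiftRight m (nat_lit 34)) (Nat.land (Nat.shiftRight m (Nat.land (Nat.shiftRight (Nat.shiftRight m (nat_lit 34)) (Nat.land (Nat.shiftRight m (Nat.land (Nat.shiftRight (Nat.shiftRight m (nat_lit 34)) (Nat.land x (nat_lit 131071))) (nat_lit 131071))) (nat_lit 131071))) (nat_lit 131071))) (nat_lit 131071))) (nat_lit 131071))) (nat_lit 131071))) (nat_lit 131071))) (nat_lit 131071)), rfl⟩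
noncomputable def w340 : WW := ⟨.a (.i (.a (.i (.a (.s (.s (.a (.s (.a (.i (.a (.i (.a (.i (.a (.i (.a (.s (.a (.i (.e))))))))))))))))))))), fun m x => (Nat.land (Nat.shiftRight (Nat.shiftRight m (nat_lit 17)) (Nat.land (Nat.shiftRight (Nat.shiftRight m (nat_lit 34)) (Nat.land (Nat.shiftRight m (Nat.land (Nat.shiftRight (Nat.shiftRight m (nat_lit 34)) (Nat.land (Nat.shiftRight (Nat.shiftRight m (nat_lit 17))
  (Nat.land (Nat.shiftRight (Nat.shiftRight m (nat_lit 34)) (Nat.land (Nat.shiftRight (Nat.shiftRight m (nat_lit 17)) (Nat.land (Nat.shiftRight (Nat.shiftRight m (nat_lit 34)) (Nat.land (Nat.shiftRight (Nat.shiftRight m (nat_lit 17)) (Nat.land (Nat.shiftRight (Nat.shiftRight m (nat_lit 34)) (Nat.land (Nat.shiftRight (Nat.shiftRight m (nat_lit 17)) (Nat.land (Nat.shiftRight (Nat.shiftRight m (nat_lit 34))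
  (Nat.land (Nat.shiftRight m (Nat.land (Nat.shiftRight (Nat.shiftRight m (nat_lit 34)) (Nat.land (Nat.shiftRight m (Nat.land (Nat.shiftRight m (Nat.land (Nat.shiftRight (Nat.shiftRight m (nat_lit 34)) (Nat.land (Nat.shiftRight (Nat.shiftRight m (nat_lit 17)) (Nat.land (Nat.shiftRight (Nat.shiftRight m (nat_lit 34)) (Nat.land (Nat.shiftRight (Nat.shiftRight m (nat_lit 17)) (Nat.land (Nat.shiftRight x
  (nat_lit 34)) (nat_lit 131071))) (nat_lit 131071))) (nat_lit 131071))) (nat_lit 131071))) (nat_lit 131071))) (nat_lit 131071))) (nat_lit 131071))) (nat_lit 131071))) (nat_lit 131071))) (nat_lit 131071))) (nat_lit 131071))) (nat_lit 131071))) (nat_lit 131071))) (nat_lit 131071))) (nat_lit 131071))) (nat_lit 131071))) (nat_lit 131071))) (nat_lit 131071))) (nat_lit 131071))) (nat_lit 131071))) (nat_lit 131071)), rfl⟩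
noncomputable def w341 : WW := ⟨.a (.i (.a (.i (.a (.s (.a (.i (.a (.s (.a (.i (.a (.i (.e)))))))))))))), fun m x => (Nat.land (Nat.shiftRight (Nat.shiftRight m (nat_lit 17)) (Nat.land (Nat.shiftRight (Nat.shiftRight m (nat_lit 34)) (Nat.land (Nat.shiftRight (Nat.shiftRight m (nat_lit 17)) (Nat.land (Nat.shiftRight (Nat.shiftRight m (nat_lit 34)) (Nat.land (Nat.shiftRight m (Nat.land (Nat.shiftRight
  (Nat.shiftRight m (nat_lit 34)) (Nat.land (Nat.shiftRight (Nat.shiftRight m (nat_lit 17)) (Nat.land (Nat.shiftRight (Nat.shiftRight m (nat_lit 34)) (Nat.land (Nat.shiftRight m (Nat.land (Nat.shiftRight (Nat.shiftRight m (nat_lit 34)) (Nat.land (Nat.shiftRight (Nat.shiftRight m (nat_lit 17)) (Nat.land (Nat.shiftRight (Nat.shiftRight m (nat_lit 34)) (Nat.land (Nat.shiftRight (Nat.shiftRight m (nat_lit 17)) (Nat.land (Nat.shiftRight x (nat_lit 34)) (nat_lit 131071))) (nat_lit 131071))) (nat_lit 131071))) (nat_lit 131071))) (nat_lit 131071))) (nat_lit 131071)))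 (nat_lit 131071))) (nat_lit 131071))) (nat_lit 131071))) (nat_lit 131071))) (nat_lit 131071))) (nat_lit 131071))) (nat_lit 131071))) (nat_lit 131071)), rfl⟩
noncomputable def w342 : WW := ⟨.s (.a (.i (.a (.s (.a (.s (.a (.s (.a (.s (.a (.s (.a (.e)))))))))))))), fun m x => (Nat.land (Nat.shiftRight (Nat.shiftRight m (nat_lit 34)) (Nat.land (Nat.shiftRight m (Nat.land (Nat.shiftRight (Nat.shiftRight m (nat_lit 34)) (Nat.land (Nat.shiftRight m (Nat.land (Nat.shiftRight (Nat.shiftRight m (nat_lit 34)) (Nat.land (Nat.shiftRight m (Nat.land (Nat.shiftRight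
  (Nat.shiftRight m (nat_lit 34)) (Nat.land (Nat.shiftRight m (Nat.land (Nat.shiftRight (Nat.shiftRight m (nat_lit 34)) (Nat.land (Nat.shiftRight m (Nat.land (Nat.shiftRight (Nat.shiftRight m (nat_lit 34)) (Nat.land (Nat.shiftRight (Nat.shiftRight m (nat_lit 17)) (Nat.land (Nat.shiftRight (Nat.shiftRight m (nat_lit 34)) (Nat.land x (nat_lit 131071))) (nat_lit 131071))) (nat_lit 131071))) (nat_lit 131071))) (nat_lit 131071))) (nat_lit 131071))) (nat_lit 131071))) (nat_lit 131071))) (nat_lit 131071))) (nat_lit 131071))) (nat_lit 131071))) (nat_lit 131071))) (nat_lit 131071))) (nat_lit 131071)), rfl⟩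
noncomputable def w343 : WW := ⟨.s (.a (.i (.a (.s (.a (.s (.a (.s (.a (.s (.a (.i (.e))))))))))))), fun m x => (Nat.land (Nat.shiftRight (Nat.shiftRight m (nat_lit 17)) (Nat.land (Nat.shiftRight (Nat.shiftRight m (nat_lit 34)) (Nat.land (Nat.shiftRight m (Nat.land (Nat.shiftRight (Nat.shiftRight m (nat_lit 34)) (Nat.land (Nat.shiftRight m (Nat.land (Nat.shiftRight (Nat.shiftRight m (nat_lit 34)) (Nat.land
  (Nat.shiftRight m (Nat.land (Nat.shiftRight (Nat.shiftRight m (nat_lit 34)) (Nat.land (Nat.shiftRight m (Nat.land (Nat.shiftRight (Nat.shiftRight m (nat_lit 34)) (Nat.land (Nat.shiftRight (Nat.shiftRight m (nat_lit 17)) (Nat.land (Nat.shiftRight (Nat.shiftRight m (nat_lit 34)) (Nat.land x (nat_lit 131071))) (nat_lit 131071))) (nat_lit 131071))) (nat_lit 131071))) (nat_lit 131071))) (nat_lit 131071))) (nat_lit 131071))) (nat_lit 131071))) (nat_lit 131071))) (nat_lit 131071))) (nat_lit 131071))) (nat_lit 131071))) (nat_lit 131071)), rfl⟩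
noncomputable def w344 : WW := ⟨.s (.a (.s (.a (.s (.a (.s (.a (.i (.a (.s (.a (.i (.a (.s (.a (.s (.a (.s (.a (.s (.a (.s (.a (.s (.a (.i (.e))))))))))))))))))))))))))), fun m x => (Nat.land (Nat.shiftRight (Nat.shiftRight m (nat_lit 17)) (Nat.land (Nat.shiftRight (Nat.shiftRight m (nat_lit 34)) (Nat.land (Nat.shiftRight m (Nat.land (Nat.shiftRight (Nat.shiftRight m (nat_lit 34)) (Nat.land (Nat.shiftRight m
  (Nat.land (Nat.shiftRight (Nat.shiftRight m (nat_lit 34)) (Nat.land (Nat.shiftRight m (Nat.land (Nat.shiftRight (Nat.shiftRight m (nat_lit 34)) (Nat.land (Nat.shiftRight m (Nat.land (Nat.shiftRight (Nat.shiftRight m (nat_lit 34)) (Nat.land (Nat.shiftRight m (Nat.land (Nat.shiftRight (Nat.shiftRight m (nat_lit 34)) (Nat.land (Nat.shiftRight m (Nat.land (Nat.shiftRight (Nat.shiftRight m (nat_lit 34))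
  (Nat.land (Nat.shiftRight (Nat.shiftRight m (nat_lit 17)) (Nat.land (Nat.shiftRight (Nat.shiftRight m (nat_lit 34)) (Nat.land (Nat.shiftRight m (Nat.land (Nat.shiftRight (Nat.shiftRight m (nat_lit 34)) (Nat.land (Nat.shiftRight (Nat.shiftRight m (nat_lit 17)) (Nat.land (Nat.shiftRight (Nat.shiftRight m (nat_lit 34)) (Nat.land (Nat.shiftRight m (Nat.land (Nat.shiftRight (Nat.shiftRight m (nat_lit 34))
  (Nat.land (Nat.shiftRight m (Nat.land (Nat.shiftRight (Nat.shiftRight m (nat_lit 34)) (Nat.land (Nat.shiftRight m (Nat.land (Nat.shiftRight (Nat.shiftRight m (nat_lit 34)) (Nat.land x (nat_lit 131071))) (nat_lit 131071))) (nat_lit 131071))) (nat_lit 131071))) (nat_lit 131071))) (nat_lit 131071))) (nat_lit 131071))) (nat_lit 131071))) (nat_lit 131071))) (nat_lit 131071))) (nat_lit 131071))) (nat_lit 131071))) (nat_lit 131071))) (nat_lit 131071))) (nat_lit 131071))) (nat_lit 131071))) (nat_lit 131071))) (nat_lit 131071))) (nat_lit 131071))) (nat_lit 131071)))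 (nat_lit 131071))) (nat_lit 131071))) (nat_lit 131071))) (nat_lit 131071))) (nat_lit 131071))) (nat_lit 131071))) (nat_lit 131071)), rfl⟩
noncomputable def w345 : WW := ⟨.a (.s (.a (.s (.a (.s (.a (.s (.a (.i (.a (.s (.a (.s (.a (.e))))))))))))))), fun m x => (Nat.land (Nat.shiftRight (Nat.shiftRight m (nat_lit 34)) (Nat.land (Nat.shiftRight m (Nat.land (Nat.shiftRight (Nat.shiftRight m (nat_lit 34)) (Nat.land (Nat.shiftRight m (Nat.land (Nat.shiftRight (Nat.shiftRight m (nat_lit 34)) (Nat.land (Nat.shiftRight (Nat.shiftRight m (nat_lit 17))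
  (Nat.land (Nat.shiftRight (Nat.shiftRight m (nat_lit 34)) (Nat.land (Nat.shiftRight m (Nat.land (Nat.shiftRight (Nat.shiftRight m (nat_lit 34)) (Nat.land (Nat.shiftRight m (Nat.land (Nat.shiftRight (Nat.shiftRight m (nat_lit 34)) (Nat.land (Nat.shiftRight m (Nat.land (Nat.shiftRight (Nat.shiftRight m (nat_lit 34)) (Nat.land (Nat.shiftRight m (Nat.land (Nat.shiftRight x (nat_lit 34)) (nat_lit 131071))) (nat_lit 131071))) (nat_lit 131071))) (nat_lit 131071))) (nat_lit 131071))) (nat_lit 131071))) (nat_lit 131071))) (nat_lit 131071))) (nat_lit 131071))) (nat_lit 131071))) (nat_lit 131071))) (nat_lit 131071))) (nat_lit 131071))) (nat_lit 131071))) (nat_lit 131071)), rfl⟩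
noncomputable def w346 : WW := ⟨.a (.s (.s (.a (.i (.a (.s (.e))))))), fun m x => (Nat.land (Nat.shiftRight m (Nat.land (Nat.shiftRight (Nat.shiftRight m (nat_lit 34)) (Nat.land (Nat.shiftRight (Nat.shiftRight m (nat_lit 17)) (Nat.land (Nat.shiftRight (Nat.shiftRight m (nat_lit 34)) (Nat.land (Nat.shiftRight m (Nat.land (Nat.shiftRight m (Nat.land (Nat.shiftRight x (nat_lit 34)) (nat_lit 131071))) (nat_lit 131071))) (nat_lit 131071))) (nat_lit 131071))) (nat_lit 131071))) (nat_lit 131071))) (nat_lit 131071)), rfl⟩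

end Pool.Agent.Lib.G6.Z
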